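import Pool.Agent.Work.MP_69fea5_lc.W3.StmtsT

set_option autoImplicit false

namespace Pool.Agent.Work.MP_69fea5_lc.W3

open MeasureTheory Topology Set Filter TopologicalSpace
open scoped NNReal ENNReal
open Pool.Agent.Work.MP_69fea5_lc.AK

namespace I_AAN

variable {O : Type} [TopologicalSpace O] [MeasurableSpace O] [CS O] [Sys O]

theorem GE_sh (f : ℕ → O → ℝ) (m : ProbabilityMeasure O) (a : ℤ) :
    GE f (sh a m) = GE f m := by
  unfold GE
  have h : (fun n : ℤ => En f (sh n (sh a m))) = (fun n : ℤ => En f (sh n m)) ∘ (fun n => n + a) := by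
    funext n
    simp only [Function.comp]
    rw [sh_add]
  rw [h]
  exact (Equiv.addRight a).surjective.iSup_comp (g := fun n : ℤ => En f (sh n m))

theorem bdd {f : ℕ → O → ℝ} (hb : ∀ m : ProbabilityMeasure O, 0 ≤ En f m ∧ En f m ≤ 2)
    (m : ProbabilityMeasure O) : BddAbove (Set.range fun n : ℤ => En f (sh n m)) :=
  ⟨2, by rintro _ ⟨n, rfl⟩; exact (hb _).2⟩

theorem lsc {f : ℕ → O → ℝ} (hc : Continuous fun m : ProbabilityMeasure O => En f m)
    (hb : ∀ m : ProbabilityMeasure O, 0 ≤ En f m ∧ En f m ≤ 2) :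
    LowerSemicontinuous fun m : ProbabilityMeasure O => GE f m := by
  unfold GE
  apply lowerSemicontinuous_ciSup
  · intro m; exact bdd hb m
  · intro n
    exact (hc.comp (sh_cont n)).lowerSemicontinuous

end I_AAN

open I_AAN in
theorem AAN_pf (hFAM : S_FAM) (hENV : S_ENV) : S_AAN := by
  intro O X _ _ _ _ _ _ _ _ f F hf hF hFi hmin
  obtain ⟨hcl, hinv, hsub, himg, -⟩ := hFAM O X F hF hFi
  obtain ⟨hEc, hEb, -⟩ := hENV O f hf
  have hlsc := lsc hEc hEb
  have hclosed : IsClosed (AAE f F) := by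
    have : AAE f F = Fam F ∩ ⋂ p' ∈ Fam F, {p : X × ProbabilityMeasure O | GE f p.2 ≤ GE f p'.2} := by
      ext p
      simp only [AAE, Set.mem_ofPred_eq, Set.mem_inter_iff, Set.mem_iInter]
    rw [this]
    refine hcl.inter (isClosed_biInter fun p' _ => ?_)
    have h2 : IsClosed ((fun m : ProbabilityMeasure O => GE f m) ⁻¹' Set.Iic (GE f p'.2)) :=
      hlsc.isClosed_preimage _
    exact h2.preimage continuous_snd
  have hAinv : AK.Inv (AAE f F) := by
    intro n p hp
    refine ⟨hinv n p hp.1, fun p' hp' => ?_⟩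
    have : GE f (sh n p).2 = GE f p.2 := GE_sh f p.2 n
    rw [this]
    exact hp.2 p' hp'
  have hne : (AAE f F).Nonempty := by
    have hFne : (Fam F).Nonempty := by
      obtain ⟨x, hx⟩ := hmin.ne
      obtain ⟨p, hp, -⟩ := hx
      exact ⟨p, hsub hp⟩
    have hl2 : LowerSemicontinuousOn (fun p : X × ProbabilityMeasure O => GE f p.2) (Fam F) :=
      (hlsc.comp continuous_snd).lowerSemicontinuousOn _
    obtain ⟨a, ha, hmina⟩ := hl2.exists_isMinOn hFne hcl.isCompact
    exact ⟨a, ha, fun p' hp' => hmina hp'⟩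
  refine ⟨hclosed, hAinv, ?_⟩
  apply hmin.min
  · exact (hclosed.isCompact.image continuous_fst).isClosed
  · exact hne.image _
  · rintro n _ ⟨p, hp, rfl⟩
    exact ⟨sh n p, hAinv n p hp, rfl⟩
  · rw [← himg]
    exact Set.image_mono fun p hp => hp.1

end Pool.Agent.Work.MP_69fea5_lc.W3
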