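import Pool.Agent.Work.MP_69fea5_lc.W3.StmtsM

/-!
Block [69fea5 F], main line, item AUC: images of a coded family of frames under a coded family of
automorphisms are coded and exist.
-/

set_option autoImplicit false
set_option linter.unusedVariables false

namespace Pool.Agent.Work.MP_69fea5_lc.W3

open MeasureTheory Topology Set Filter TopologicalSpace
open scoped NNReal ENNReal
open Pool.Agent.Work.MP_69fea5_lc.AK
open Pool.Agent.Work.MP_69fea5_lc.HK (Cl DU Ar ArF ArR Dat Law LawC act near sc Pt oc Mn mr ext)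
open Pool.Agent.Work.MP_69fea5_lc.KC (Agree)

theorem AUC_pf (h1 : S_AUT) : S_AUC := by
  intro S U hS hU Y C _ _ _ _ _ _ _ _ _ _ J d v hI hF hv ι _ v₁ a hv1 ha hv1o hao
  obtain ⟨n, hn, hn'⟩ := exists_times_fam hS (w := fun _ : ι => v) (sc_const hS hv) ha
    (fun i => by rw [KC.oc_eq]; exact hao i)
  obtain ⟨b, hb, hb'⟩ := exists_lim_fam hS hU (w := fun p : ι × ℕ => act (n p) (v₁ p.1))
    (sc_act hS (sc_comp hS hv1 (ArF.fst hS)) hn)
  have hlim : ∀ p, Tendsto (fun r => act (n (p, r)) (v, v₁ p)) (U : Filter ℕ)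
      (𝓝 (a p, b p)) := fun p =>
    (tendsto_near hU.top (hn' p)).prodMk_nhds (hb' p)
  refine ⟨b, hb, fun p => ⟨?_, ?_⟩⟩
  · have h2 : b p ∈ oc (v₁ p) := mem_oc_of_tendsto (n := fun r => n (p, r)) (hb' p)
    have h3 : v₁ p ∈ oc v := by
      rw [KC.oc_eq]
      exact (hv1o p).1
    rw [← KC.oc_eq]
    exact HK.oc_sub h3 h2
  · rw [← KC.oc_eq]
    exact mem_oc_of_tendsto (n := fun r => n (p, r)) (hlim p)

end Pool.Agent.Work.MP_69fea5_lc.W3
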