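import Pool.Agent.Work.MP_69fea5_lc.W3.StmtsT
import Pool.Agent.Work.MP_69fea5_lc.AK.I_IMG
import Pool.Agent.Work.MP_69fea5_lc.AK.I_ORB

/-!
Item DET of the toolbox: frames determine all phases.
-/

set_option autoImplicit false
set_option linter.unusedSectionVars false

namespace Pool.Agent.Work.MP_69fea5_lc.W3

open MeasureTheory Topology Set Filter TopologicalSpace
open scoped NNReal ENNReal
open Pool.Agent.Work.MP_69fea5_lc.AK

namespace I_DET

/-- points of the closure of a range are limits along ultrafilters -/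
theorem ult_range {α Y : Type} [TopologicalSpace Y] (f : α → Y) {y : Y}
    (h : y ∈ closure (Set.range f)) :
    ∃ G : Ultrafilter α, Tendsto f (G : Filter α) (𝓝 y) := by
  have hne : (comap f (𝓝 y)).NeBot := by
    rw [comap_neBot_iff]
    intro t ht
    obtain ⟨_, hz, ⟨a, rfl⟩⟩ := mem_closure_iff_nhds.1 h t ht
    exact ⟨a, hz⟩
  exact ⟨Ultrafilter.of (comap f (𝓝 y)), tendsto_iff_comap.2 (Ultrafilter.of_le _)⟩

/-- the map from the sequences -/
def ph {C X : Type} (p : (ℕ → C) × X) : (X × (ℕ → C)) × (ℕ → C) :=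
  ((p.2, fun l => p.1 (2 * l)), fun l => p.1 (2 * l + 1))

/-- two sequences in one -/
def mx {C : Type} (t s : ℕ → C) : ℕ → C := fun l => if l % 2 = 0 then t (l / 2) else s (l / 2)

theorem ph_mx {C X : Type} (t s : ℕ → C) (x : X) : ph (mx t s, x) = ((x, t), s) := by
  unfold ph mx
  refine Prod.ext (Prod.ext rfl ?_) ?_
  · funext l
    have h1 : 2 * l % 2 = 0 := by omega
    have h2 : 2 * l / 2 = l := by omega
    simp only [h1, h2, if_true]
  · funext l
    have h1 : (2 * l + 1) % 2 ≠ 0 := by omega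
    have h2 : (2 * l + 1) / 2 = l := by omega
    simp only [h1, h2, if_false]

section main

variable {C X : Type} [TopologicalSpace C] [MeasurableSpace C] [CS C] [Sys C]
  [TopologicalSpace X] [MeasurableSpace X] [CS X] [Sys X]

/-- the sequences in the fibres -/
def JN (J : Set (C × X)) : Set ((ℕ → C) × X) := {p | ∀ l, (p.1 l, p.2) ∈ J}

/-- the metric of the sequences -/
noncomputable def dN (d : C → C → X → ℝ) (f f' : ℕ → C) (x : X) : ℝ :=
  ∑' l : ℕ, (1 / 2 : ℝ) ^ l * min 1 (d (f l) (f' l) x)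

theorem term_nonneg {J : Set (C × X)} {d : C → C → X → ℝ} (hd : IPB J d) {f f' : ℕ → C} {x : X}
    (h : (f, x) ∈ JN J) (h' : (f', x) ∈ JN J) (l : ℕ) :
    0 ≤ (1 / 2 : ℝ) ^ l * min 1 (d (f l) (f' l) x) :=
  mul_nonneg (by positivity) (le_min zero_le_one (hd.nonneg x _ _ (h l) (h' l)))

theorem term_le {J : Set (C × X)} {d : C → C → X → ℝ} (hd : IPB J d) {f f' : ℕ → C} {x : X}
    (h : (f, x) ∈ JN J) (h' : (f', x) ∈ JN J) (l : ℕ) :
    ‖(1 / 2 : ℝ) ^ l * min 1 (d (f l) (f' l) x)‖ ≤ (1 / 2 : ℝ) ^ l := by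
  rw [Real.norm_of_nonneg (term_nonneg hd h h' l)]
  calc (1 / 2 : ℝ) ^ l * min 1 (d (f l) (f' l) x) ≤ (1 / 2 : ℝ) ^ l * 1 :=
        mul_le_mul_of_nonneg_left (min_le_left _ _) (by positivity)
    _ = (1 / 2 : ℝ) ^ l := mul_one _

theorem term_summable {J : Set (C × X)} {d : C → C → X → ℝ} (hd : IPB J d) {f f' : ℕ → C}
    {x : X} (h : (f, x) ∈ JN J) (h' : (f', x) ∈ JN J) :
    Summable fun l : ℕ => (1 / 2 : ℝ) ^ l * min 1 (d (f l) (f' l) x) :=
  Summable.of_norm_bounded summable_geometric_two fun l => term_le hd h h' l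

theorem isom_JN {J : Set (C × X)} {d : C → C → X → ℝ} (hJ : Isom J d) : Isom (JN J) (dN d) := by
  have hd := hJ.ipb
  refine ⟨?_, ?_, ?_, ⟨?_, ?_, ?_, ?_, ?_, ?_⟩, ?_⟩
  · have : JN J = ⋂ l : ℕ, (fun p : (ℕ → C) × X => (p.1 l, p.2)) ⁻¹' J := by
      ext p; simp [JN]
    rw [this]
    exact isClosed_iInter fun l => hJ.closed.preimage
      (((continuous_apply l).comp continuous_fst).prodMk continuous_snd)
  · intro n p hp l
    exact hJ.inv n _ (hp l)
  · have : Prod.snd '' JN J = Prod.snd '' J := by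
      ext x
      constructor
      · rintro ⟨p, hp, rfl⟩
        exact ⟨(p.1 0, p.2), hp 0, rfl⟩
      · rintro ⟨p, hp, rfl⟩
        exact ⟨(fun _ => p.1, p.2), fun _ => hp, rfl⟩
    rw [this]
    exact hJ.base
  · refine continuousOn_tsum (u := fun l : ℕ => (1 / 2 : ℝ) ^ l) ?_ summable_geometric_two ?_
    · intro l
      refine ContinuousOn.mul continuousOn_const ?_
      have hmn : Continuous fun r : ℝ => min 1 r := continuous_const.min continuous_id
      have hc : Continuous fun p : (ℕ → C) × (ℕ → C) × X => (p.1 l, p.2.1 l, p.2.2) :=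
        ((continuous_apply l).comp continuous_fst).prodMk
          (((continuous_apply l).comp (continuous_fst.comp continuous_snd)).prodMk
            (continuous_snd.comp continuous_snd))
      exact hmn.comp_continuousOn (hd.cont.comp hc.continuousOn fun p hp => ⟨hp.1 l, hp.2 l⟩)
    · rintro l ⟨f, f', x⟩ hp
      exact term_le hd hp.1 hp.2 l
  · intro n x f f' h h'
    unfold dN
    congr 1
    funext l
    have := hd.inv n x (f l) (f' l) (h l) (h' l)
    show (1 / 2 : ℝ) ^ l * min 1 (d (sh n (f l)) (sh n (f' l)) (sh n x)) = _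
    rw [this]
  · intro x f h
    unfold dN
    have : (fun l : ℕ => (1 / 2 : ℝ) ^ l * min 1 (d (f l) (f l) x)) = fun _ => 0 := by
      funext l
      rw [hd.self x (f l) (h l)]
      simp
    rw [this, tsum_zero]
  · intro x f f' h h'
    exact tsum_nonneg fun l => term_nonneg hd h h' l
  · intro x f f' h h'
    unfold dN
    congr 1
    funext l
    rw [hd.symm x (f l) (f' l) (h l) (h' l)]
  · intro x f f' f'' h h' h''
    unfold dN
    rw [← (term_summable hd h h').tsum_add (term_summable hd h' h'')]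
    refine (term_summable hd h h'').tsum_le_tsum (fun l => ?_)
      ((term_summable hd h h').add (term_summable hd h' h''))
    rw [← mul_add]
    refine mul_le_mul_of_nonneg_left ?_ (by positivity)
    have h1 := hd.tri x (f l) (f' l) (f'' l) (h l) (h' l) (h'' l)
    have h2 := hd.nonneg x (f l) (f' l) (h l) (h' l)
    have h3 := hd.nonneg x (f' l) (f'' l) (h' l) (h'' l)
    rcases le_total 1 (d (f l) (f' l) x) with h4 | h4
    · rw [min_eq_left h4]
      have : 0 ≤ min 1 (d (f' l) (f'' l) x) := le_min zero_le_one h3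
      linarith [min_le_left 1 (d (f l) (f'' l) x)]
    · rw [min_eq_right h4]
      rcases le_total 1 (d (f' l) (f'' l) x) with h5 | h5
      · rw [min_eq_left h5]
        linarith [min_le_left 1 (d (f l) (f'' l) x)]
      · rw [min_eq_right h5]
        exact (min_le_right _ _).trans h1
  · intro x f f' h h' h0
    funext l
    have h1 : (1 / 2 : ℝ) ^ l * min 1 (d (f l) (f' l) x) ≤ 0 := by
      rw [← h0]
      exact (term_summable hd h h').le_tsum l fun j _ => term_nonneg hd h h' j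
    have h2 : (0 : ℝ) < (1 / 2 : ℝ) ^ l := by positivity
    have h3 : min 1 (d (f l) (f' l) x) ≤ 0 := by
      by_contra hc
      push Not at hc
      exact absurd h1 (not_le.2 (mul_pos h2 hc))
    have h4 : d (f l) (f' l) x ≤ 0 := by
      rcases min_le_iff.1 h3 with h5 | h5
      · norm_num at h5
      · exact h5
    exact hJ.sep x _ _ (h l) (h' l) (le_antisymm h4 (hd.nonneg x _ _ (h l) (h' l)))

theorem cont_ph : Continuous (ph : (ℕ → C) × X → (X × (ℕ → C)) × (ℕ → C)) := by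
  unfold ph
  refine (continuous_snd.prodMk ?_).prodMk ?_
  · exact continuous_pi fun l => (continuous_apply _).comp continuous_fst
  · exact continuous_pi fun l => (continuous_apply _).comp continuous_fst

theorem sh_ph (n : ℤ) (p : (ℕ → C) × X) : ph (sh n p) = sh n (ph p) := rfl

end main

end I_DET

open I_DET in
theorem DET_pf (hISA : S_ISA) (hONT : S_ONT) : S_DET := by
  intro C X _ _ _ _ _ _ _ _ J d hJ v₀ hv s hs
  obtain ⟨x, t⟩ := v₀
  have hd := hJ.ipb
  -- the point and its orbit closure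
  set P : (X × (ℕ → C)) × (ℕ → C) := ((x, t), s) with hP
  have hP' : ph (mx t s, x) = P := ph_mx t s x
  have hmem : (mx t s, x) ∈ JN J := by
    intro l
    show ((if l % 2 = 0 then t (l / 2) else s (l / 2)), x) ∈ J
    split_ifs
    · exact hv.1 _
    · exact hs _
  have hmin0 : MinSet (orb ((mx t s, x) : (ℕ → C) × X)) :=
    hISA (ℕ → C) X (JN J) (dN d) (isom_JN hJ) _ hmem
  have hmin1 : MinSet (ph '' orb ((mx t s, x) : (ℕ → C) × X)) :=
    IMG_pf _ _ _ ph hmin0 cont_ph.continuousOn fun n p _ => sh_ph n p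
  have hin : P ∈ ph '' orb ((mx t s, x) : (ℕ → C) × X) :=
    ⟨(mx t s, x), (ORB_pf _ _).2.2.1, hP'⟩
  have heq : orb P = ph '' orb ((mx t s, x) : (ℕ → C) × X) :=
    (ORB_pf _ P).2.2.2.2.1 _ hmin1 hin
  have hmin : MinSet (orb P) := heq ▸ hmin1
  -- limits
  have hult : ∀ p ∈ orb P, ∃ G : Ultrafilter ℤ,
      Tendsto (fun n => sh n P) (G : Filter ℤ) (𝓝 p) := fun p hp => ult_range _ hp
  have hfx : ∀ (G : Ultrafilter ℤ) (p : (X × (ℕ → C)) × (ℕ → C)),
      Tendsto (fun n => sh n P) (G : Filter ℤ) (𝓝 p) →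
      Tendsto (fun n => sh n x) (G : Filter ℤ) (𝓝 p.1.1) ∧
      (∀ l, Tendsto (fun n => sh n (t l)) (G : Filter ℤ) (𝓝 (p.1.2 l))) ∧
      (∀ l, Tendsto (fun n => sh n (s l)) (G : Filter ℤ) (𝓝 (p.2 l))) := by
    intro G p hG
    refine ⟨?_, fun l => ?_, fun l => ?_⟩
    · exact ((continuous_fst.comp continuous_fst).tendsto p).comp hG
    · exact (((continuous_apply l).comp (continuous_snd.comp continuous_fst)).tendsto p).comp hG
    · exact (((continuous_apply l).comp continuous_snd).tendsto p).comp hG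
  -- the fibres
  have hmemJ : ∀ (G : Ultrafilter ℤ) (a a' : C) (y : X), (a, x) ∈ J →
      Tendsto (fun n => sh n x) (G : Filter ℤ) (𝓝 y) →
      Tendsto (fun n => sh n a) (G : Filter ℤ) (𝓝 a') → (a', y) ∈ J := by
    intro G a a' y ha hy ha'
    exact hJ.closed.mem_of_tendsto (ha'.prodMk_nhds hy)
      (Eventually.of_forall fun n => hJ.inv n (a, x) ha)
  -- the distances
  have hdist : ∀ (G : Ultrafilter ℤ) (a b a' b' : C) (y : X), (a, x) ∈ J → (b, x) ∈ J →
      Tendsto (fun n => sh n x) (G : Filter ℤ) (𝓝 y) →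
      Tendsto (fun n => sh n a) (G : Filter ℤ) (𝓝 a') →
      Tendsto (fun n => sh n b) (G : Filter ℤ) (𝓝 b') → d a' b' y = d a b x := by
    intro G a b a' b' y ha hb hy ha' hb'
    have hm : (a', b', y) ∈ {p : C × C × X | (p.1, p.2.2) ∈ J ∧ (p.2.1, p.2.2) ∈ J} :=
      ⟨hmemJ G a a' y ha hy ha', hmemJ G b b' y hb hy hb'⟩
    have h1 : Tendsto (fun n : ℤ => ((sh n a, sh n b, sh n x) : C × C × X)) (G : Filter ℤ)
        (𝓝[{p : C × C × X | (p.1, p.2.2) ∈ J ∧ (p.2.1, p.2.2) ∈ J}] (a', b', y)) :=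
      tendsto_nhdsWithin_iff.2 ⟨ha'.prodMk_nhds (hb'.prodMk_nhds hy),
        Eventually.of_forall fun n => ⟨hJ.inv n (a, x) ha, hJ.inv n (b, x) hb⟩⟩
    have h2 : Tendsto (fun n : ℤ => d (sh n a) (sh n b) (sh n x)) (G : Filter ℤ)
        (𝓝 (d a' b' y)) := (hd.cont _ hm).tendsto.comp h1
    have h3 : (fun n : ℤ => d (sh n a) (sh n b) (sh n x)) = fun _ => d a b x := by
      funext n
      exact hd.inv n x a b ha hb
    rw [h3] at h2
    exact tendsto_nhds_unique h2 tendsto_const_nhds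
  -- frames
  have hfrm : ∀ p ∈ orb P, Frm J p.1 := by
    intro p hp
    obtain ⟨G, hG⟩ := hult p hp
    obtain ⟨hx, ht, -⟩ := hfx G p hG
    refine ⟨fun l => hmemJ G _ _ _ (hv.1 l) hx (ht l), ?_⟩
    intro e he
    obtain ⟨a, a', ha, ha', hlim, h0⟩ := hONT C X J d hJ.closed hJ.inv hJ.base hd ℤ G
      (fun n => n) x p.1.1 ⟨(t 0, x), hv.1 0, rfl⟩ hx e he
    have hae : a' = e := hJ.sep _ _ _ ha' he h0
    subst hae
    obtain ⟨H, hH⟩ := ult_range _ (hv.2 a ha)
    -- the distance of `p.1.2 l` to `a'` tends to `0`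
    have h1 : ∀ l, d (p.1.2 l) a' p.1.1 = d (t l) a x := fun l =>
      hdist G _ _ _ _ _ (hv.1 l) ha hx (ht l) hlim
    have h2 : Tendsto (fun l => d (t l) a x) (H : Filter ℕ) (𝓝 0) := by
      have hm : (a, a, x) ∈ {p : C × C × X | (p.1, p.2.2) ∈ J ∧ (p.2.1, p.2.2) ∈ J} :=
        ⟨ha, ha⟩
      have h3 : Tendsto (fun l : ℕ => ((t l, a, x) : C × C × X)) (H : Filter ℕ)
          (𝓝[{p : C × C × X | (p.1, p.2.2) ∈ J ∧ (p.2.1, p.2.2) ∈ J}] (a, a, x)) :=
        tendsto_nhdsWithin_iff.2 ⟨hH.prodMk_nhds tendsto_const_nhds,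
          Eventually.of_forall fun l => ⟨hv.1 l, ha⟩⟩
      have h4 := (hd.cont _ hm).tendsto.comp h3
      rw [hd.self x a ha] at h4
      exact h4
    obtain ⟨w, -, hw⟩ := isCompact_univ.ultrafilter_le_nhds
      (H.map fun l => p.1.2 l) (by simp)
    have hw' : Tendsto (fun l => p.1.2 l) (H : Filter ℕ) (𝓝 w) := hw
    have hwJ : (w, p.1.1) ∈ J := hJ.closed.mem_of_tendsto
      (hw'.prodMk_nhds tendsto_const_nhds)
      (Eventually.of_forall fun l => hmemJ G _ _ _ (hv.1 l) hx (ht l))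
    have h5 : Tendsto (fun l => d (p.1.2 l) a' p.1.1) (H : Filter ℕ) (𝓝 (d w a' p.1.1)) := by
      have hm : (w, a', p.1.1) ∈ {p : C × C × X | (p.1, p.2.2) ∈ J ∧ (p.2.1, p.2.2) ∈ J} :=
        ⟨hwJ, ha'⟩
      have h3 : Tendsto (fun l : ℕ => ((p.1.2 l, a', p.1.1) : C × C × X)) (H : Filter ℕ)
          (𝓝[{p : C × C × X | (p.1, p.2.2) ∈ J ∧ (p.2.1, p.2.2) ∈ J}] (w, a', p.1.1)) :=
        tendsto_nhdsWithin_iff.2 ⟨hw'.prodMk_nhds tendsto_const_nhds,
          Eventually.of_forall fun l => ⟨hmemJ G _ _ _ (hv.1 l) hx (ht l), ha'⟩⟩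
      exact (hd.cont _ hm).tendsto.comp h3
    have h6 : d w a' p.1.1 = 0 := by
      refine tendsto_nhds_unique h5 ?_
      simpa only [h1] using h2
    have h7 : w = a' := hJ.sep _ _ _ hwJ ha' h6
    rw [← h7]
    exact mem_closure_of_tendsto hw' (Eventually.of_forall fun l => ⟨l, rfl⟩)
  have hsec : ∀ p ∈ orb P, ∀ l, (p.2 l, p.1.1) ∈ J := by
    intro p hp l
    obtain ⟨G, hG⟩ := hult p hp
    obtain ⟨hx, -, hs'⟩ := hfx G p hG
    exact hmemJ G _ _ _ (hs l) hx (hs' l)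
  refine ⟨hmin, hsec, ?_, hfrm⟩
  intro p hp p' hp' hpp
  have hval : ∀ q ∈ orb P, ∀ i l, d (q.2 i) (q.1.2 l) q.1.1 = d (s i) (t l) x := by
    intro q hq i l
    obtain ⟨G, hG⟩ := hult q hq
    obtain ⟨hx, ht, hs'⟩ := hfx G q hG
    exact hdist G _ _ _ _ _ (hs i) (hv.1 l) hx (hs' i) (ht l)
  funext i
  obtain ⟨H, hH⟩ := ult_range _ ((hfrm p hp).2 (p.2 i) (hsec p hp i))
  have hp'2 : (p'.2 i, p.1.1) ∈ J := by
    rw [hpp]
    exact hsec p' hp' i
  have hlim : ∀ a, (a, p.1.1) ∈ J → Tendsto (fun l => d a (p.1.2 l) p.1.1) (H : Filter ℕ)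
      (𝓝 (d a (p.2 i) p.1.1)) := by
    intro a ha
    have hm : (a, p.2 i, p.1.1) ∈ {p : C × C × X | (p.1, p.2.2) ∈ J ∧ (p.2.1, p.2.2) ∈ J} :=
      ⟨ha, hsec p hp i⟩
    have h3 : Tendsto (fun l : ℕ => ((a, p.1.2 l, p.1.1) : C × C × X)) (H : Filter ℕ)
        (𝓝[{p : C × C × X | (p.1, p.2.2) ∈ J ∧ (p.2.1, p.2.2) ∈ J}] (a, p.2 i, p.1.1)) :=
      tendsto_nhdsWithin_iff.2 ⟨tendsto_const_nhds.prodMk_nhds (hH.prodMk_nhds tendsto_const_nhds),
        Eventually.of_forall fun l => ⟨ha, (hfrm p hp).1 l⟩⟩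
    exact (hd.cont _ hm).tendsto.comp h3
  have e1 := hlim _ (hsec p hp i)
  have e2 := hlim _ hp'2
  have e3 : (fun l => d (p'.2 i) (p.1.2 l) p.1.1) = fun l => d (p.2 i) (p.1.2 l) p.1.1 := by
    funext l
    rw [hval p hp i l]
    rw [hpp]
    exact hval p' hp' i l
  rw [e3] at e2
  have e4 : d (p'.2 i) (p.2 i) p.1.1 = 0 := by
    rw [tendsto_nhds_unique e2 e1]
    exact hd.self _ _ (hsec p hp i)
  exact (hJ.sep _ _ _ hp'2 (hsec p hp i) e4).symm

end Pool.Agent.Work.MP_69fea5_lc.W3
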