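import Pool.Agent.Work.MP_69fea5_lc.W3.StmtsT

set_option autoImplicit false

namespace Pool.Agent.Work.MP_69fea5_lc.W3

open MeasureTheory Topology Set Filter TopologicalSpace
open scoped NNReal ENNReal
open Pool.Agent.Work.MP_69fea5_lc.AK

namespace I_ULT

theorem inv_orb {X : Type} [TopologicalSpace X] [Sys X] (x : X) : AK.Inv (orb x) := by
  intro n y hy
  refine map_mem_closure (sh_cont n) hy ?_
  rintro _ ⟨m, rfl⟩
  exact ⟨n + m, sh_add n m x⟩

end I_ULT

open I_ULT in
theorem ULT_pf : S_ULT := by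
  intro X _ _
  refine ⟨?_, ?_, ?_⟩
  · intro x y
    constructor
    · intro hy
      have hne : (comap (fun n : ℤ => sh n x) (𝓝 y)).NeBot := by
        rw [comap_neBot_iff]
        intro t ht
        obtain ⟨z, hz, n, rfl⟩ := mem_closure_iff_nhds.1 hy t ht
        exact ⟨n, hz⟩
      exact ⟨Ultrafilter.of _, tendsto_comap.mono_left (Ultrafilter.of_le _)⟩
    · rintro ⟨G, hG⟩
      exact mem_closure_of_tendsto hG (Eventually.of_forall fun n => mem_range_self n)
  · intro x y hy
    refine closure_minimal ?_ isClosed_closure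
    rintro _ ⟨n, rfl⟩
    exact inv_orb x n y hy
  · intro Y _ _ _ q hX hq he x
    apply subset_antisymm
    · rintro _ ⟨y, hy, rfl⟩
      refine map_mem_closure hq hy ?_
      rintro _ ⟨m, rfl⟩
      exact ⟨m, (he m x).symm⟩
    · refine closure_minimal ?_ (isClosed_closure.isCompact.image hq).isClosed
      rintro _ ⟨n, rfl⟩
      exact ⟨sh n x, subset_closure ⟨n, rfl⟩, he n x⟩

end Pool.Agent.Work.MP_69fea5_lc.W3
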