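import Pool.Agent.Work.MP_69fea5_lc.W3.StmtsT
import Pool.Agent.Work.MP_69fea5_lc.AK.I_IMG
import Pool.Agent.Work.MP_69fea5_lc.AK.I_ORB
import Pool.Agent.Work.MP_69fea5_lc.W3.I_ULT
import Pool.Agent.Work.MP_69fea5_lc.W3.I_DET

/-!
# [69fea5 T AUT] the orbit closure of a frame
-/

set_option autoImplicit false
set_option linter.unusedSectionVars false

namespace Pool.Agent.Work.MP_69fea5_lc.W3

open MeasureTheory Topology Set Filter TopologicalSpace
open scoped NNReal ENNReal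
open Pool.Agent.Work.MP_69fea5_lc.AK

namespace I_AUT

variable {C X : Type} [TopologicalSpace C] [MeasurableSpace C] [CS C] [Sys C]
  [TopologicalSpace X] [MeasurableSpace X] [CS X] [Sys X]

/-- the pair of frames from a frame and a sequence over the same point -/
def pr (p : (X × (ℕ → C)) × (ℕ → C)) : (X × (ℕ → C)) × (X × (ℕ → C)) := (p.1, (p.1.1, p.2))

theorem cont_pr : Continuous (pr : (X × (ℕ → C)) × (ℕ → C) → (X × (ℕ → C)) × (X × (ℕ → C))) := by
  unfold pr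
  exact continuous_fst.prodMk ((continuous_fst.comp continuous_fst).prodMk continuous_snd)

/-- one half of the statement on two frames -/
theorem half (hDET : S_DET) {J : Set (C × X)} {d : C → C → X → ℝ} (hJ : Isom J d)
    {v₀ v₁ : X × (ℕ → C)} (h0 : Frm J v₀) (h1 : Frm J v₁) (he : v₁.1 = v₀.1) :
    MinSet (orb (v₀, v₁)) ∧ (∀ p ∈ orb (v₀, v₁), p.1.1 = p.2.1) ∧
    (∀ p ∈ orb (v₀, v₁), ∀ p' ∈ orb (v₀, v₁), p.1 = p'.1 → p.2 = p'.2) := by
  have hs : ∀ l, (v₁.2 l, v₀.1) ∈ J := fun l => he ▸ h1.1 l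
  obtain ⟨hm, -, hdet, -⟩ := hDET C X J d hJ v₀ h0 v₁.2 hs
  have himg : pr '' orb (v₀, v₁.2) = orb (pr (v₀, v₁.2)) :=
    (ULT_pf ((X × (ℕ → C)) × (ℕ → C))).2.2 _ pr inferInstance cont_pr
      (fun n p => rfl) (v₀, v₁.2)
  have hpt : pr (v₀, v₁.2) = (v₀, v₁) := by
    unfold pr
    refine Prod.ext rfl (Prod.ext he.symm rfl)
  rw [hpt] at himg
  rw [← himg]
  refine ⟨IMG_pf _ _ _ pr hm cont_pr.continuousOn fun n p _ => rfl, ?_, ?_⟩
  · rintro _ ⟨p, -, rfl⟩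
    rfl
  · rintro _ ⟨p, hp, rfl⟩ _ ⟨p', hp', rfl⟩ hpp
    have h2 : p.1 = p'.1 := hpp
    have h3 : p.2 = p'.2 := hdet p hp p' hp' h2
    show (p.1.1, p.2) = (p'.1.1, p'.2)
    rw [h2, h3]

/-- the orbit closure of the pair in the other order -/
theorem swap_orb {Y : Type} [TopologicalSpace Y] [T2Space Y] [CompactSpace Y] [Sys Y] (a b : Y) :
    Prod.swap '' orb (a, b) = orb (b, a) :=
  (ULT_pf (Y × Y)).2.2 _ Prod.swap inferInstance continuous_swap (fun n p => rfl) (a, b)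

end I_AUT

open I_AUT in
theorem AUT_pf (hDET : S_DET) : S_AUT := by
  intro C X _ _ _ _ _ _ _ _ J d hJ v₀ hv
  have himg1 : Prod.fst '' orb (v₀, v₀.2) = orb v₀ :=
    (ULT_pf ((X × (ℕ → C)) × (ℕ → C))).2.2 _ Prod.fst inferInstance continuous_fst
      (fun n p => rfl) (v₀, v₀.2)
  obtain ⟨hm, -, -, hfr⟩ := hDET C X J d hJ v₀ hv v₀.2 hv.1
  have hmin : MinSet (orb v₀) := by
    rw [← himg1]
    exact IMG_pf _ _ _ Prod.fst hm continuous_fst.continuousOn fun n p _ => rfl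
  have hfrm : ∀ v ∈ orb v₀, Frm J v := by
    intro v hv'
    rw [← himg1] at hv'
    obtain ⟨p, hp, rfl⟩ := hv'
    exact hfr p hp
  have hbase : Prod.fst '' orb v₀ = Prod.snd '' J := by
    have h1 : Prod.fst '' orb v₀ = orb v₀.1 :=
      (ULT_pf (X × (ℕ → C))).2.2 _ Prod.fst inferInstance continuous_fst (fun n p => rfl) v₀
    rw [h1]
    exact (ORB_pf _ v₀.1).2.2.2.2.1 _ hJ.base ⟨_, hv.1 0, rfl⟩
  refine ⟨hmin, hfrm, hbase, ⟨I_DET.dN d, ?_⟩, ?_⟩
  · have hJN := I_DET.isom_JN hJ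
    have hsub : {p : (ℕ → C) × X | (p.2, p.1) ∈ orb v₀} ⊆ I_DET.JN J := by
      rintro ⟨t, x⟩ hp l
      exact (hfrm (x, t) hp).1 l
    have hsw : Continuous fun p : (ℕ → C) × X => ((p.2, p.1) : X × (ℕ → C)) :=
      continuous_snd.prodMk continuous_fst
    have hI := hJN.ipb
    refine ⟨hmin.closed.preimage hsw, ?_, ?_, ⟨?_, ?_, ?_, ?_, ?_, ?_⟩, ?_⟩
    · rintro n ⟨t, x⟩ hp
      exact hmin.inv n (x, t) hp
    · have : Prod.snd '' {p : (ℕ → C) × X | (p.2, p.1) ∈ orb v₀} = Prod.snd '' J := by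
        rw [← hbase]
        ext x
        constructor
        · rintro ⟨p, hp, rfl⟩
          exact ⟨(p.2, p.1), hp, rfl⟩
        · rintro ⟨p, hp, rfl⟩
          exact ⟨(p.2, p.1), hp, rfl⟩
      rw [this]
      exact hJ.base
    · exact hI.cont.mono fun p hp => ⟨hsub hp.1, hsub hp.2⟩
    · exact fun n x u u' h1 h2 => hI.inv n x u u' (hsub h1) (hsub h2)
    · exact fun x u h1 => hI.self x u (hsub h1)
    · exact fun x u u' h1 h2 => hI.nonneg x u u' (hsub h1) (hsub h2)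
    · exact fun x u u' h1 h2 => hI.symm x u u' (hsub h1) (hsub h2)
    · exact fun x u u' u'' h1 h2 h3 => hI.tri x u u' u'' (hsub h1) (hsub h2) (hsub h3)
    · exact fun x t t' h1 h2 => hJN.sep x t t' (hsub h1) (hsub h2)
  · intro v₁ hv₁ he
    obtain ⟨h1, h2, h3⟩ := half hDET hJ hv hv₁ he
    obtain ⟨-, -, h4⟩ := half hDET hJ hv₁ hv he.symm
    refine ⟨h1, h2, fun p hp p' hp' => ⟨h3 p hp p' hp', ?_⟩, ?_, ?_⟩
    · intro hpp
      have hq : p.swap ∈ orb (v₁, v₀) := by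
        rw [← swap_orb]
        exact ⟨p, hp, rfl⟩
      have hq' : p'.swap ∈ orb (v₁, v₀) := by
        rw [← swap_orb]
        exact ⟨p', hp', rfl⟩
      exact h4 _ hq _ hq' hpp
    · exact (ULT_pf ((X × (ℕ → C)) × (X × (ℕ → C)))).2.2 _ Prod.fst inferInstance continuous_fst
        (fun n p => rfl) (v₀, v₁)
    · exact (ULT_pf ((X × (ℕ → C)) × (X × (ℕ → C)))).2.2 _ Prod.snd inferInstance continuous_snd
        (fun n p => rfl) (v₀, v₁)

end Pool.Agent.Work.MP_69fea5_lc.W3
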