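import Pool.Agent.Work.MP_69fea5_lc.W3.StmtsF1

set_option autoImplicit false

namespace Pool.Agent.Work.MP_69fea5_lc.W3

open MeasureTheory Topology Set Filter TopologicalSpace
open scoped NNReal ENNReal
open Pool.Agent.Work.MP_69fea5_lc.AK

theorem AXE_pf (hJMC : S_JMC) (hSPG : S_SPG) : S_AXE := by
  intro O Y C X' _ _ _ _ _ _ _ _ _ _ _ _ _ _ _ _ A ms θ v₀ E q lm hPE
  obtain ⟨-, -, hc, hi, hm, hf⟩ := hJMC O Y C X' A ms θ v₀ E q lm hPE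
  obtain ⟨Ya, h1, h2, h3⟩ := hSPG (O × (Y × (ℕ → C))) Y (FE E q lm) hc hi hm
  exact ⟨Ya, h3, h2.trans hf, h1⟩

end Pool.Agent.Work.MP_69fea5_lc.W3
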