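import Pool.Agent.Work.MP_69fea5_lc.W3.StmtsT

/-!
Item LEB of the toolbox: first facts on levels.
-/

set_option autoImplicit false

namespace Pool.Agent.Work.MP_69fea5_lc.W3

open MeasureTheory Topology Set Filter TopologicalSpace
open scoped NNReal ENNReal
open Pool.Agent.Work.MP_69fea5_lc.AK

namespace I_LEB

theorem min_snd {O X : Type} [TopologicalSpace O] [Sys O] [CompactSpace O]
    [TopologicalSpace X] [Sys X] [CompactSpace X] [T2Space X] {A : Set (O × X)}
    (hA : MinSet A) : MinSet (Prod.snd '' A) := by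
  have hcont : Continuous (Prod.snd : O × X → X) := continuous_snd
  constructor
  · exact (hA.closed.isCompact.image hcont).isClosed
  · exact hA.ne.image _
  · rintro n _ ⟨p, hp, rfl⟩
    exact ⟨sh n p, hA.inv n p hp, rfl⟩
  · intro L hL hne hinv hsub
    have key : A ∩ Prod.snd ⁻¹' L = A := by
      apply hA.min
      · exact hA.closed.inter (hL.preimage hcont)
      · obtain ⟨x, hx⟩ := hne
        obtain ⟨p, hp, hpx⟩ := hsub hx
        exact ⟨p, hp, by rw [mem_preimage, hpx]; exact hx⟩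
      · rintro n p ⟨hp, hq⟩
        exact ⟨hA.inv n p hp, hinv n _ hq⟩
      · exact inter_subset_left
    refine Subset.antisymm hsub ?_
    rintro _ ⟨p, hp, rfl⟩
    rw [← key] at hp
    exact hp.2

end I_LEB

theorem LEB_pf : S_LEB := by
  intro O X _ _ _ _ _ _ _ _ A ms hL
  refine ⟨I_LEB.min_snd hL.min, ?_⟩
  rintro _ ⟨p, hp, rfl⟩ z hz
  by_contra hc
  have hcl : IsClosed {u : O | (u, p.2) ∈ A} :=
    hL.min.closed.preimage (continuous_id.prodMk continuous_const)
  have h1 : ms p.2 {u : O | (u, p.2) ∈ A} = 1 := hL.one p hp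
  have h2 : 0 < ms p.2 {u : O | (u, p.2) ∈ A}ᶜ := hz _ hcl.isOpen_compl hc
  have h3 : (ms p.2 : Measure O) {u : O | (u, p.2) ∈ A}ᶜ = 0 := by
    rw [prob_compl_eq_zero_iff hcl.measurableSet]
    rw [← ProbabilityMeasure.ennreal_coeFn_eq_coeFn_toMeasure, h1]
    simp
  have h4 : ((ms p.2 {u : O | (u, p.2) ∈ A}ᶜ : ℝ≥0) : ℝ≥0∞) = 0 := by
    rw [ProbabilityMeasure.ennreal_coeFn_eq_coeFn_toMeasure]
    exact h3
  exact absurd (ENNReal.coe_eq_zero.1 h4) h2.ne'

end Pool.Agent.Work.MP_69fea5_lc.W3
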