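import Pool.Agent.Work.MP_69fea5_lc.W3.StmtsT
import Pool.Agent.Work.MP_69fea5_lc.N3.I_USG
import Pool.Agent.Work.MP_69fea5_lc.AK.I_CST
import Pool.Agent.Work.MP_69fea5_lc.W3.I_LEB

/-!
Item BAL of the toolbox: the measures of a level charge all balls of continuous invariant
pseudometrics.
-/

set_option autoImplicit false

namespace Pool.Agent.Work.MP_69fea5_lc.W3

open MeasureTheory Topology Set Filter TopologicalSpace
open scoped NNReal ENNReal
open Pool.Agent.Work.MP_69fea5_lc.AK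

namespace I_BAL

variable {O X : Type} [TopologicalSpace O] [MeasurableSpace O] [CS O] [Sys O]
  [TopologicalSpace X] [MeasurableSpace X] [CS X] [Sys X]

/-- the closed balls, as a closed set -/
def Bl (A : Set (O × X)) (ρ : O → O → X → ℝ) (δ : ℝ) : Set (O × (O × X)) :=
  {p | (p.2.1, p.2.2) ∈ A ∧ (p.1, p.2.2) ∈ A ∧ ρ p.2.1 p.1 p.2.2 ≤ δ}

theorem closed_Bl {A : Set (O × X)} (hA : IsClosed A) {ρ : O → O → X → ℝ} (hρ : IPB A ρ)
    (δ : ℝ) : IsClosed (Bl A ρ δ) := by
  have h0 : IsClosed {p : O × O × X | (p.1, p.2.2) ∈ A ∧ (p.2.1, p.2.2) ∈ A} :=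
    (hA.preimage (by fun_prop : Continuous fun p : O × O × X => (p.1, p.2.2))).inter
      (hA.preimage (by fun_prop : Continuous fun p : O × O × X => (p.2.1, p.2.2)))
  have h1 : IsClosed ({p : O × O × X | (p.1, p.2.2) ∈ A ∧ (p.2.1, p.2.2) ∈ A} ∩
      (fun p : O × O × X => ρ p.1 p.2.1 p.2.2) ⁻¹' Iic δ) :=
    hρ.cont.preimage_isClosed_of_isClosed h0 isClosed_Iic
  have h2 := h1.preimage (by fun_prop : Continuous fun p : O × (O × X) => (p.2.1, p.1, p.2.2))
  convert h2 using 1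
  ext p
  simp only [Bl, mem_setOf_eq, mem_preimage, mem_inter_iff, mem_Iic, and_assoc]

theorem closed_sec {A : Set (O × X)} (hA : IsClosed A) {ρ : O → O → X → ℝ} (hρ : IPB A ρ)
    (δ : ℝ) (q : O × X) : IsClosed {v | (v, q) ∈ Bl A ρ δ} :=
  (closed_Bl hA hρ δ).preimage (continuous_id.prodMk continuous_const)

/-- a point of the support -/
theorem exists_supp (m : ProbabilityMeasure O) :
    ∃ z, ∀ U, IsOpen U → z ∈ U → 0 < m U := by
  have h : (m : Measure O) univ ≠ 0 := by simp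
  obtain ⟨z, -, hz⟩ := exists_mem_forall_mem_nhdsWithin_pos_measure h
  refine ⟨z, fun U hU hzU => ?_⟩
  have h1 := hz U (by rw [nhdsWithin_univ]; exact hU.mem_nhds hzU)
  have h2 : (0 : ℝ≥0∞) < ((m U : ℝ≥0) : ℝ≥0∞) := by
    rw [ProbabilityMeasure.ennreal_coeFn_eq_coeFn_toMeasure]
    exact h1
  exact ENNReal.coe_pos.1 h2

end I_BAL

open I_BAL in
theorem BAL_pf : S_BAL := by
  intro O X _ _ _ _ _ _ _ _ A ms ρ hL hρ ε hε p hp
  have hA : IsClosed A := hL.min.closed
  set F := Bl A ρ (ε / 2) with hF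
  have hFc : IsClosed F := closed_Bl hA hρ (ε / 2)
  let g : O × X → ℝ := fun q => ((ms q.2 {v | (v, q) ∈ F} : ℝ≥0) : ℝ)
  have hc : Continuous fun q : O × X => ((ms q.2, q) : ProbabilityMeasure O × (O × X)) :=
    (hL.cont.comp continuous_snd).prodMk continuous_id
  have husc : ∀ a : ℝ, IsClosed (A ∩ {q | a ≤ g q}) := by
    intro a
    rcases lt_or_ge a 0 with ha | ha
    · have : {q : O × X | a ≤ g q} = univ := by
        ext q
        simp only [mem_setOf_eq, mem_univ, iff_true]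
        exact ha.le.trans (ms q.2 {v | (v, q) ∈ F}).2
      rw [this, inter_univ]
      exact hA
    · lift a to ℝ≥0 using ha
      have h := (N3.USG_pf O (O × X) F hFc a).preimage hc
      refine hA.inter ?_
      convert h using 1
      ext q
      exact NNReal.coe_le_coe
  have hinv : ∀ (n : ℤ), ∀ q ∈ A, g (sh n q) = g q := by
    rintro n ⟨u, x⟩ hq
    have hq' : (sh n u, sh n x) ∈ A := hL.min.inv n _ hq
    have hms : MeasurableSet {v | (v, sh n ((u, x) : O × X)) ∈ F} :=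
      (closed_sec hA hρ (ε / 2) (sh n (u, x))).measurableSet
    have e1 : ms (sh n x) {v | (v, sh n ((u, x) : O × X)) ∈ F} =
        ms x {v | (v, ((u, x) : O × X)) ∈ F} := by
      rw [hL.equi n x]
      have e2 : (sh n (ms x)) {v | (v, sh n ((u, x) : O × X)) ∈ F} =
          ms x ((sh n : O → O) ⁻¹' {v | (v, sh n ((u, x) : O × X)) ∈ F}) :=
        ProbabilityMeasure.map_apply (ms x) (sh_cont n).measurable.aemeasurable hms
      rw [e2]
      congr 1
      ext v
      simp only [mem_preimage, mem_setOf_eq, sh_prod, hF, Bl]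
      constructor
      · rintro ⟨-, h2, h3⟩
        have h2' : (v, x) ∈ A := by
          have := hL.min.inv (-n) _ h2
          rw [sh_prod, ← sh_add, ← sh_add, neg_add_cancel, sh_zero, sh_zero] at this
          exact this
        exact ⟨hq, h2', by rwa [hρ.inv n x u v hq h2'] at h3⟩
      · rintro ⟨-, h2, h3⟩
        exact ⟨hq', hL.min.inv n _ h2, by rwa [hρ.inv n x u v hq h2]⟩
    change ((ms (sh n x) {v | (v, sh n ((u, x) : O × X)) ∈ F} : ℝ≥0) : ℝ) = _
    rw [e1]
  have hconst := AK.CST_pf (O × X) A g hL.min hinv husc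
  obtain ⟨z, hz⟩ := exists_supp (ms p.2)
  have hzA : (z, p.2) ∈ A := (LEB_pf O X A ms hL).2 p.2 ⟨p, hp, rfl⟩ z hz
  have hpos : 0 < g (z, p.2) := by
    -- a neighbourhood of z
    have hcs : ContinuousOn (fun v => ρ z v p.2) {v | (v, p.2) ∈ A} := by
      have hcc : Continuous fun v : O => ((z, v, p.2) : O × O × X) := by fun_prop
      exact hρ.cont.comp hcc.continuousOn (fun v hv => ⟨hzA, hv⟩)
    have h0 : ρ z z p.2 < ε / 2 := by rw [hρ.self p.2 z hzA]; exact half_pos hε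
    have hnb : {v | ρ z v p.2 < ε / 2} ∈ 𝓝[{v | (v, p.2) ∈ A}] z :=
      (hcs z hzA).eventually_lt continuousWithinAt_const h0
    obtain ⟨U, hU, hzU, hsub⟩ := mem_nhdsWithin.1 hnb
    have hAm : IsClosed {v | (v, p.2) ∈ A} :=
      hA.preimage (continuous_id.prodMk continuous_const)
    have hle : (ms p.2) (U ∩ {v | (v, p.2) ∈ A}) ≤ ms p.2 {v | (v, (z, p.2)) ∈ F} := by
      apply ProbabilityMeasure.apply_mono
      rintro v ⟨hvU, hvA⟩
      exact ⟨hzA, hvA, le_of_lt (hsub ⟨hvU, hvA⟩)⟩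
    have hone : (ms p.2 : Measure O) {v | (v, p.2) ∈ A}ᶜ = 0 := by
      rw [prob_compl_eq_zero_iff hAm.measurableSet]
      rw [← ProbabilityMeasure.ennreal_coeFn_eq_coeFn_toMeasure, hL.one p hp]
      simp
    have heq : (ms p.2 : Measure O) (U ∩ {v | (v, p.2) ∈ A}) = (ms p.2 : Measure O) U := by
      have := measure_inter_add_diff (μ := (ms p.2 : Measure O)) U hAm.measurableSet
      have h3 : (ms p.2 : Measure O) (U \ {v | (v, p.2) ∈ A}) = 0 :=
        measure_mono_null (fun v hv => hv.2) hone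
      rw [h3, add_zero] at this
      exact this
    have hpU := hz U hU hzU
    have hposm : 0 < (ms p.2) (U ∩ {v | (v, p.2) ∈ A}) := by
      have h5 : ((ms p.2 (U ∩ {v | (v, p.2) ∈ A}) : ℝ≥0) : ℝ≥0∞) = ((ms p.2 U : ℝ≥0) : ℝ≥0∞) := by
        rw [ProbabilityMeasure.ennreal_coeFn_eq_coeFn_toMeasure,
          ProbabilityMeasure.ennreal_coeFn_eq_coeFn_toMeasure]
        exact heq
      rw [ENNReal.coe_inj.1 h5]
      exact hpU
    exact NNReal.coe_pos.2 (hposm.trans_le hle)
  have hgp : 0 < g p := by rw [hconst p hp _ hzA]; exact hpos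
  have hgp' : 0 < ms p.2 {v | (v, p) ∈ F} := NNReal.coe_pos.1 hgp
  refine hgp'.trans_le ?_
  apply ProbabilityMeasure.apply_mono
  rintro v ⟨-, h2, h3⟩
  exact ⟨h2, lt_of_le_of_lt h3 (half_lt_self hε)⟩

end Pool.Agent.Work.MP_69fea5_lc.W3
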