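import Pool.Agent.Work.MP_69fea5_lc.W3.StmtsT

/-!
# [69fea5 T] item BC2: base change twice
-/

set_option autoImplicit false

namespace Pool.Agent.Work.MP_69fea5_lc.W3

open MeasureTheory Topology Set Filter TopologicalSpace
open scoped NNReal ENNReal
open Pool.Agent.Work.MP_69fea5_lc.AK

theorem BC2_pf (hSPC : S_SPC) : S_BC2 := by
  intro O X X' X'' _ _ _ _ _ _ _ _ _ _ _ _ _ _ _ _ A E q A' E' q' A'' h1 h2
  -- the second projection of `A'` is `E`
  have hE : Prod.snd '' A' = E := by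
    refine h1.spx.min.min _ ?_ (h1.min.ne.image _) ?_ ?_
    · exact (h1.min.closed.isCompact.image continuous_snd).isClosed
    · rintro n _ ⟨a, ha, rfl⟩
      exact ⟨sh n a, h1.min.inv n a ha, rfl⟩
    · rintro _ ⟨a, ha, rfl⟩
      exact (h1.sub ha).1
  have hq' : q' '' E' = E := by rw [← h2.base, hE]
  refine ⟨⟨h2.spx.min, h1.spx.cont.comp h2.spx.cont, ?_, ?_⟩, h1.minA, ?_, h2.min, ?_⟩
  · intro n e
    show q (q' (sh n e)) = sh n (q (q' e))
    rw [h2.spx.equi, h1.spx.equi]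
  · exact hSPC X'' X' X E' E q' q h2.spx.cont h2.spx.equi h2.spx.min.closed h2.spx.min.inv
      hq'.subset h2.spx.spr h1.spx.spr
  · rw [h1.base, ← hq', image_image]
  · intro p hp
    exact ⟨(h2.sub hp).1, (h1.sub (h2.sub hp).2).2⟩

end Pool.Agent.Work.MP_69fea5_lc.W3
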