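import Pool.Agent.Work.MP_69fea5_lc.W3.StmtsT

/-!
# [69fea5 T] item BCF: the base change is unique
-/

set_option autoImplicit false

namespace Pool.Agent.Work.MP_69fea5_lc.W3

open MeasureTheory Topology Set Filter TopologicalSpace
open scoped NNReal ENNReal
open Pool.Agent.Work.MP_69fea5_lc.AK

namespace I_BCF

theorem prod_sh {A B : Type} [TopologicalSpace A] [Sys A] [TopologicalSpace B] [Sys B] (n : ℤ)
    (a : A) (b : B) : sh n (a, b) = (sh n a, sh n b) := rfl

/-- A continuous equivariant image of a nonempty closed invariant subset of a compact space in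
a minimal set is the whole minimal set. -/
theorem image_eq {A B : Type} [TopologicalSpace A] [Sys A] [CompactSpace A]
    [TopologicalSpace B] [T2Space B] [Sys B] (f : A → B) (hf : Continuous f)
    (he : ∀ (n : ℤ) (a : A), f (sh n a) = sh n (f a)) (K : Set A) (L : Set B) (hL : MinSet L)
    (hK : IsClosed K) (hne : K.Nonempty) (hi : AK.Inv K) (hKL : ∀ a ∈ K, f a ∈ L) :
    f '' K = L := by
  refine hL.min _ ?_ (hne.image f) ?_ ?_
  · exact (hK.isCompact.image hf).isClosed
  · rintro n _ ⟨a, ha, rfl⟩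
    exact ⟨sh n a, hi n a ha, he n a⟩
  · rintro _ ⟨a, ha, rfl⟩
    exact hKL a ha

end I_BCF

open I_BCF in
theorem BCF_pf (hULT : S_ULT) (hJCT : S_JCT) : S_BCF := by
  intro O X X' _ _ _ _ _ _ _ _ _ _ _ _ A E q A' h
  have hq : Continuous q := h.spx.cont
  have hpc : Continuous (fun p : O × X' => (p.1, q p.2)) :=
    continuous_fst.prodMk (hq.comp continuous_snd)
  have hpe : ∀ (n : ℤ) (a : O × X'), (fun p : O × X' => (p.1, q p.2)) (sh n a) =
      sh n ((fun p : O × X' => (p.1, q p.2)) a) := by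
    intro n a
    show (sh n a.1, q (sh n a.2)) = (sh n a.1, sh n (q a.2))
    rw [h.spx.equi]
  refine ⟨?_, ?_, ?_⟩
  · intro A'' hc hne hi hs
    have him : (fun p : O × X' => (p.1, q p.2)) '' A'' = A :=
      image_eq _ hpc hpe A'' A h.minA hc hne hi (fun a ha => (hs ha).2)
    obtain ⟨⟨u, e⟩, hue⟩ := h.min.ne
    have h1 := h.sub hue
    have h2 : (u, q e) ∈ (fun p : O × X' => (p.1, q p.2)) '' A'' := by
      rw [him]
      exact h1.2
    obtain ⟨⟨u', e'⟩, hue', heq⟩ := h2
    have hu : u' = u := congrArg Prod.fst heq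
    have hqe : q e' = q e := congrArg Prod.snd heq
    subst hu
    have he' : e' ∈ E := (hs hue').1
    obtain ⟨e'', hee⟩ := (hJCT X' X E q h.spx.spr).2 e h1.1 e' he' hqe.symm
    obtain ⟨G, hG⟩ := ((hULT (X' × X')).1 _ _).1 hee
    obtain ⟨u'', hu''⟩ : ∃ u'' : O, Tendsto (fun n : ℤ => sh n u') (G : Filter ℤ) (𝓝 u'') := by
      obtain ⟨u'', _, hle⟩ := isCompact_univ.ultrafilter_le_nhds (G.map fun n : ℤ => sh n u')
        (by simp)
      exact ⟨u'', hle⟩
    have t1 : Tendsto (fun n : ℤ => sh n e) (G : Filter ℤ) (𝓝 e'') :=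
      (continuous_fst.tendsto _).comp hG
    have t2 : Tendsto (fun n : ℤ => sh n e') (G : Filter ℤ) (𝓝 e'') :=
      (continuous_snd.tendsto _).comp hG
    have m1 : (u'', e'') ∈ A' :=
      h.min.closed.mem_of_tendsto (hu''.prodMk_nhds t1)
        (Filter.Eventually.of_forall fun n => h.min.inv n _ hue)
    have m2 : (u'', e'') ∈ A'' :=
      hc.mem_of_tendsto (hu''.prodMk_nhds t2) (Filter.Eventually.of_forall fun n => hi n _ hue')
    have h3 : A' ∩ A'' = A' := h.min.min _ (h.min.closed.inter hc) ⟨_, m1, m2⟩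
      (fun n p hp => ⟨h.min.inv n p hp.1, hi n p hp.2⟩) inter_subset_left
    rw [← h3]
    exact inter_subset_right
  · exact image_eq Prod.snd continuous_snd (fun _ _ => rfl) A' E h.spx.min h.min.closed h.min.ne
      h.min.inv (fun a ha => (h.sub ha).1)
  · exact image_eq _ hpc hpe A' A h.minA h.min.closed h.min.ne h.min.inv
      (fun a ha => (h.sub ha).2)

end Pool.Agent.Work.MP_69fea5_lc.W3
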