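import Pool.Agent.Work.MP_69fea5_lc.W3.StmtsT

set_option autoImplicit false

namespace Pool.Agent.Work.MP_69fea5_lc.W3

open MeasureTheory Topology Set Filter TopologicalSpace
open scoped NNReal ENNReal
open Pool.Agent.Work.MP_69fea5_lc.AK

namespace I_BCU

section basic

variable {O : Type} [TopologicalSpace O] [MeasurableSpace O] [CS O]

theorem integrable_cont (m : ProbabilityMeasure O) {f : O → ℝ} (hf : Continuous f) :
    Integrable f (m : Measure O) := by
  have h := (BoundedContinuousFunction.mkOfCompact (⟨f, hf⟩ : C(O, ℝ))).integrable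
    (m : Measure O)
  exact h

/-- integrals of continuous functions against a continuous family of measures are continuous -/
theorem cint {P : Type} [TopologicalSpace P] (h : P × O → ℝ) (hc : Continuous h)
    (m : P → ProbabilityMeasure O) (hm : Continuous m) :
    Continuous fun p => ∫ v, h (p, v) ∂(m p : Measure O) := by
  rw [continuous_iff_continuousAt]
  intro p0
  have h1 : Tendsto (fun p => ∫ v, h (p0, v) ∂(m p : Measure O)) (𝓝 p0)
      (𝓝 (∫ v, h (p0, v) ∂(m p0 : Measure O))) := by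
    have := (ProbabilityMeasure.tendsto_iff_forall_integral_tendsto.1 (hm.tendsto p0))
      (BoundedContinuousFunction.mkOfCompact (⟨fun v => h (p0, v), by fun_prop⟩ : C(O, ℝ)))
    simpa using this
  have h2 : Tendsto (fun p => ∫ v, (h (p, v) - h (p0, v)) ∂(m p : Measure O)) (𝓝 p0) (𝓝 0) := by
    let H : C(P, C(O, ℝ)) := ContinuousMap.curry ⟨h, hc⟩
    have hH : Tendsto (fun p => ‖H p - H p0‖) (𝓝 p0) (𝓝 0) := by
      have : Tendsto (fun p => ‖H p - H p0‖) (𝓝 p0) (𝓝 ‖H p0 - H p0‖) :=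
        ((H.continuous.sub continuous_const).norm).tendsto p0
      simpa using this
    refine squeeze_zero_norm (fun p => ?_) hH
    refine (norm_integral_le_of_norm_le_const (C := ‖H p - H p0‖)
      (Eventually.of_forall fun v => ?_)).trans ?_
    · exact (H p - H p0).norm_coe_le_norm v
    · simp
  have h3 := h2.add h1
  rw [zero_add] at h3
  refine h3.congr fun p => ?_
  rw [integral_sub (integrable_cont _ (by fun_prop)) (integrable_cont _ (by fun_prop))]
  ring

theorem integral_sh [Sys O] (m : ProbabilityMeasure O) (n : ℤ) {f : O → ℝ} (hf : Continuous f) :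
    ∫ v, f v ∂((sh n m : ProbabilityMeasure O) : Measure O) =
      ∫ v, f (sh n v) ∂(m : Measure O) := by
  change ∫ v, f v ∂(Measure.map (sh n : O → O) (m : Measure O)) = _
  rw [integral_map (sh_cont n).measurable.aemeasurable hf.aestronglyMeasurable]

theorem ae_of_one {m : ProbabilityMeasure O} {S : Set O} (hS : MeasurableSet S) (h : m S = 1) :
    ∀ᵐ v ∂(m : Measure O), v ∈ S := by
  have h1 : (m : Measure O) S = 1 := by
    rw [← ProbabilityMeasure.ennreal_coeFn_eq_coeFn_toMeasure, h]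
    rfl
  exact (mem_ae_iff_prob_eq_one hS).2 h1

end basic

section main

variable {O X X' : Type} [TopologicalSpace O] [MeasurableSpace O] [CS O] [Sys O]
  [TopologicalSpace X] [MeasurableSpace X] [CS X] [Sys X]
  [TopologicalSpace X'] [MeasurableSpace X'] [CS X'] [Sys X']
  (q : X' → X) (ms : X → ProbabilityMeasure O) (R : O × O × X' → ℝ)

/-- the function `∫ |ρ~ (u, v, e) - ρ~ (u', v, e')| d(ms (q e)) v` -/
noncomputable def G (p : O × O × X' × X') : ℝ :=
  ∫ v, |R (p.1, v, p.2.2.1) - R (p.2.1, v, p.2.2.2)| ∂(ms (q p.2.2.1) : Measure O)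

variable {q ms R}

theorem G_cont (hq : Continuous q) (hms : Continuous ms) (hR : Continuous R) :
    Continuous (G q ms R) := by
  unfold G
  exact cint (fun z : (O × O × X' × X') × O =>
    |R (z.1.1, z.2, z.1.2.2.1) - R (z.1.2.1, z.2, z.1.2.2.2)|) (by fun_prop)
    (fun p => ms (q p.2.2.1)) (by fun_prop)

variable {A' : Set (O × X')} {E : Set X'} {ρ' : O → O → X' → ℝ}

theorem ae_fib (hL' : Lev A' (fun e => ms (q e))) {u : O} {e : X'} (h : (u, e) ∈ A') :
    ∀ᵐ v ∂(ms (q e) : Measure O), (v, e) ∈ A' := by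
  refine ae_of_one (S := {v | (v, e) ∈ A'}) ?_ (hL'.one (u, e) h)
  exact (hL'.min.closed.preimage (by fun_prop : Continuous fun v : O => (v, e))).measurableSet

theorem G_inv (hL' : Lev A' (fun e => ms (q e))) (hqe : ∀ (n : ℤ) (e : X'), q (sh n e) = sh n (q e))
    (hmse : ∀ (n : ℤ) (x : X), ms (sh n x) = sh n (ms x)) (hR : Continuous R)
    (hρ : IPB A' ρ') (hRρ : ∀ u v e, (u, e) ∈ A' → (v, e) ∈ A' → R (u, v, e) = ρ' u v e)
    (n : ℤ) {u u' : O} {e e' : X'} (h : (u, e) ∈ A') (h' : (u', e') ∈ A') (he : q e = q e') :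
    G q ms R (sh n (u, u', e, e')) = G q ms R (u, u', e, e') := by
  have hinv : ∀ {w : O} {e : X'}, (w, e) ∈ A' → (sh n w, sh n e) ∈ A' :=
    fun h => hL'.min.inv n _ h
  simp only [G, sh_prod]
  rw [hqe, hmse, integral_sh (ms (q e)) n (f := fun v => |R (sh n u, v, sh n e) -
    R (sh n u', v, sh n e')|) (by fun_prop)]
  refine integral_congr_ae ?_
  have h1 := ae_fib hL' h
  have h2 := ae_fib hL' h'
  rw [← he] at h2
  filter_upwards [h1, h2] with v hv hv'
  rw [hRρ _ _ _ (hinv h) (hinv hv), hRρ _ _ _ (hinv h') (hinv hv'), hRρ _ _ _ h hv,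
    hRρ _ _ _ h' hv', hρ.inv n e u v h hv, hρ.inv n e' u' v h' hv']

/-- over one point of the base the functions agree almost everywhere -/
theorem G_zero (hULT : S_ULT) (hJCT : S_JCT) (hE : SPr E q) (hAE : ∀ p ∈ A', p.2 ∈ E)
    (hq : Continuous q) (hms : Continuous ms)
    (hL' : Lev A' (fun e => ms (q e))) (hqe : ∀ (n : ℤ) (e : X'), q (sh n e) = sh n (q e))
    (hmse : ∀ (n : ℤ) (x : X), ms (sh n x) = sh n (ms x)) (hR : Continuous R)
    (hρ : IPB A' ρ') (hRρ : ∀ u v e, (u, e) ∈ A' → (v, e) ∈ A' → R (u, v, e) = ρ' u v e)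
    {u : O} {e e' : X'} (h : (u, e) ∈ A') (h' : (u, e') ∈ A') (he : q e = q e') :
    G q ms R (u, u, e, e') = 0 := by
  obtain ⟨e'', he''⟩ := (hJCT X' X E q hE).2 e (hAE _ h) e' (hAE _ h') he
  have h1 := (hULT (O × O × X' × X')).2.2 (X' × X')
    (fun p => p.2.2) inferInstance (by fun_prop) (fun n p => rfl) (u, u, e, e')
  rw [← h1] at he''
  obtain ⟨⟨a, b, f, g⟩, hp, hfg⟩ := he''
  simp only [Prod.mk.injEq] at hfg
  obtain ⟨hf, hg⟩ := hfg
  subst hf
  subst hg
  have hS : IsClosed {p : O × O × X' × X' | p.1 = p.2.1 ∧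
      G q ms R p = G q ms R (u, u, e, e')} :=
    (isClosed_eq (by fun_prop) (by fun_prop)).inter
      (isClosed_eq (G_cont hq hms hR) continuous_const)
  have h2 : (a, b, g, g) ∈ {p : O × O × X' × X' | p.1 = p.2.1 ∧
      G q ms R p = G q ms R (u, u, e, e')} := by
    refine closure_minimal ?_ hS hp
    rintro _ ⟨n, rfl⟩
    exact ⟨rfl, G_inv hL' hqe hmse hR hρ hRρ n h h' he⟩
  obtain ⟨h3, h4⟩ := h2
  simp only at h3
  subst h3
  rw [← h4]
  simp [G]

theorem ae_eq (hULT : S_ULT) (hJCT : S_JCT) (hE : SPr E q) (hAE : ∀ p ∈ A', p.2 ∈ E)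
    (hq : Continuous q) (hms : Continuous ms)
    (hL' : Lev A' (fun e => ms (q e))) (hqe : ∀ (n : ℤ) (e : X'), q (sh n e) = sh n (q e))
    (hmse : ∀ (n : ℤ) (x : X), ms (sh n x) = sh n (ms x)) (hR : Continuous R)
    (hρ : IPB A' ρ') (hRρ : ∀ u v e, (u, e) ∈ A' → (v, e) ∈ A' → R (u, v, e) = ρ' u v e)
    {u : O} {e e' : X'} (h : (u, e) ∈ A') (h' : (u, e') ∈ A') (he : q e = q e') :
    ∀ᵐ v ∂(ms (q e) : Measure O), R (u, v, e) = R (u, v, e') := by
  have h0 := G_zero hULT hJCT hE hAE hq hms hL' hqe hmse hR hρ hRρ h h' he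
  simp only [G] at h0
  rw [integral_eq_zero_iff_of_nonneg (fun v => abs_nonneg _)
    (integrable_cont _ (by fun_prop))] at h0
  filter_upwards [h0] with v hv
  simpa [sub_eq_zero] using hv

end main

end I_BCU

theorem BCU_pf (hULT : S_ULT) (hJCT : S_JCT) (hBCF : S_BCF) (hRIM : S_RIM) (hBAL : S_BAL) :
    S_BCU := by
  intro O X X' C _ _ _ _ _ _ _ _ _ _ _ _ _ _ A E q A' ms θ hB hL hU ρ' hρ
  have hq := hB.spx.cont
  have hqe := hB.spx.equi
  have hms := hL.cont
  have hmse := hL.equi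
  obtain ⟨-, hsnd, himg⟩ := hBCF O X X' A E q A' hB
  have hAE : ∀ p ∈ A', p.2 ∈ E := fun p hp => (hB.sub hp).1
  have hL' : Lev A' (fun e => ms (q e)) := by
    refine hRIM O X X' A E q A' (fun e => ms (q e)) hB (hms.comp hq)
      (fun n e => by rw [hqe, hmse]) fun e he => ?_
    have : q e ∈ Prod.snd '' A := by rw [hB.base]; exact ⟨e, he, rfl⟩
    obtain ⟨⟨u, x⟩, hux, hxe⟩ := this
    simp only at hxe
    subst hxe
    exact hL.one _ hux
  -- Tietze
  have hDc : IsClosed {p : O × O × X' | (p.1, p.2.2) ∈ A' ∧ (p.2.1, p.2.2) ∈ A'} :=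
    (hB.min.closed.preimage (by fun_prop)).inter (hB.min.closed.preimage (by fun_prop))
  obtain ⟨R, hR1⟩ := ContinuousMap.exists_restrict_eq hDc
    ⟨_, (continuousOn_iff_continuous_domRestrict.1 hρ.cont)⟩
  have hR : Continuous R := R.continuous
  have hRρ : ∀ u v e, (u, e) ∈ A' → (v, e) ∈ A' → R (u, v, e) = ρ' u v e := by
    intro u v e h h'
    exact DFunLike.congr_fun hR1 ⟨(u, v, e), h, h'⟩
  have hG := I_BCU.G_cont (q := q) (ms := ms) hq hms hR
  have hGi := fun (n : ℤ) (u u' : O) (e e' : X') => I_BCU.G_inv (u := u) (u' := u') (e := e)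
    (e' := e') hL' hqe hmse hR hρ hRρ n
  have hae := fun (u : O) (e e' : X') => I_BCU.ae_eq (u := u) (e := e) (e' := e') hULT hJCT
    hB.spx.spr hAE hq hms hL' hqe hmse hR hρ hRρ
  have hind : ∀ (u u' : O) (e e₁ e' e₁' : X'), (u, e) ∈ A' → (u, e₁) ∈ A' → (u', e') ∈ A' →
      (u', e₁') ∈ A' → q e = q e₁ → q e = q e' → q e = q e₁' →
      I_BCU.G q ms R (u, u', e, e') = I_BCU.G q ms R (u, u', e₁, e₁') := by
    intro u u' e e₁ e' e₁' h1 h2 h3 h4 h5 h6 h7
    simp only [I_BCU.G]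
    rw [← h5]
    refine integral_congr_ae ?_
    have a1 := hae u e e₁ h1 h2 h5
    have a2 := hae u' e' e₁' h3 h4 (h6.symm.trans h7)
    rw [← h6] at a2
    filter_upwards [a1, a2] with v hv hv'
    rw [hv, hv']
  -- the choice of the points of the base change
  have hch : ∀ p : O × X, ∃ e : X', p ∈ A → (p.1, e) ∈ A' ∧ q e = p.2 := by
    rintro ⟨u, x⟩
    by_cases h : (u, x) ∈ A
    · have h' := h
      rw [← himg] at h'
      obtain ⟨⟨u', e⟩, he, heq⟩ := h'
      simp only [Prod.mk.injEq] at heq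
      obtain ⟨rfl, rfl⟩ := heq
      exact ⟨e, fun _ => ⟨he, rfl⟩⟩
    · obtain ⟨e, -⟩ := hB.spx.min.ne
      exact ⟨e, fun h' => absurd h' h⟩
  choose ch hch using hch
  let D : O → O → X → ℝ := fun u u' x => I_BCU.G q ms R (u, u', ch (u, x), ch (u', x))
  have hDe : ∀ (u u' : O) (e e' : X'), (u, e) ∈ A' → (u', e') ∈ A' → q e = q e' →
      D u u' (q e) = I_BCU.G q ms R (u, u', e, e') := by
    intro u u' e e' h h' he
    have h1 : (u, q e) ∈ A := (hB.sub h).2
    have h2 : (u', q e) ∈ A := by rw [he]; exact (hB.sub h').2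
    obtain ⟨h3, h4⟩ := hch _ h1
    obtain ⟨h5, h6⟩ := hch _ h2
    simp only at h3 h4 h5 h6
    exact hind _ _ _ _ _ _ h3 h h5 h' h4 (h4.trans h6.symm) (h4.trans he)
  have hlift : ∀ (x : X) (u : O), (u, x) ∈ A → ∃ e, (u, e) ∈ A' ∧ q e = x :=
    fun x u h => ⟨ch (u, x), hch _ h⟩
  have hD : IPB A D := by
    refine ⟨?_, ?_, ?_, ?_, ?_, ?_⟩
    · -- continuity
      rw [continuousOn_iff_isClosed]
      intro t ht
      let K : Set (O × O × X' × X') := {p | (p.1, p.2.2.1) ∈ A' ∧ (p.2.1, p.2.2.2) ∈ A' ∧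
        q p.2.2.1 = q p.2.2.2}
      have hK : IsClosed K :=
        (hB.min.closed.preimage (by fun_prop)).inter
          ((hB.min.closed.preimage (by fun_prop)).inter (isClosed_eq (by fun_prop) (by fun_prop)))
      let pr : O × O × X' × X' → O × O × X := fun p => (p.1, p.2.1, q p.2.2.1)
      have hpr : Continuous pr := by fun_prop
      refine ⟨pr '' (K ∩ I_BCU.G q ms R ⁻¹' t),
        ((hK.inter (ht.preimage hG)).isCompact.image hpr).isClosed, ?_⟩
      ext ⟨u, u', x⟩
      constructor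
      · rintro ⟨h1, h2, h3⟩
        simp only at h2 h3
        obtain ⟨e, he, rfl⟩ := hlift x u h2
        obtain ⟨e', he', hee⟩ := hlift (q e) u' h3
        refine ⟨⟨(u, u', e, e'), ⟨⟨he, he', hee.symm⟩, ?_⟩, rfl⟩, h2, h3⟩
        change I_BCU.G q ms R (u, u', e, e') ∈ t
        rw [← hDe u u' e e' he he' hee.symm]
        exact h1
      · rintro ⟨⟨⟨a, a', e, e'⟩, ⟨⟨h1, h2, h3⟩, h4⟩, h5⟩, h6⟩
        simp only [pr, Prod.mk.injEq] at h5
        obtain ⟨rfl, rfl, rfl⟩ := h5
        refine ⟨?_, h6⟩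
        change D a a' (q e) ∈ t
        rw [hDe a a' e e' h1 h2 h3]
        exact h4
    · intro n x u u' h h'
      obtain ⟨e, he, rfl⟩ := hlift x u h
      obtain ⟨e', he', hee⟩ := hlift (q e) u' h'
      rw [← hqe, hDe _ _ (sh n e) (sh n e') (hB.min.inv n _ he) (hB.min.inv n _ he')
        (by rw [hqe, hqe, hee]), hDe _ _ e e' he he' hee.symm]
      exact hGi n u u' e e' he he' hee.symm
    · intro x u h
      obtain ⟨e, he, rfl⟩ := hlift x u h
      rw [hDe _ _ e e he he rfl]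
      simp [I_BCU.G]
    · intro x u u' h h'
      exact integral_nonneg fun v => abs_nonneg _
    · intro x u u' h h'
      obtain ⟨e, he, rfl⟩ := hlift x u h
      obtain ⟨e', he', hee⟩ := hlift (q e) u' h'
      rw [hDe _ _ e e' he he' hee.symm]
      conv_rhs => rw [← hee]
      rw [hDe _ _ e' e he' he hee]
      simp only [I_BCU.G]
      rw [hee]
      exact integral_congr_ae (Eventually.of_forall fun v => abs_sub_comm _ _)
    · intro x u u' u'' h h' h''
      obtain ⟨e, he, rfl⟩ := hlift x u h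
      obtain ⟨e', he', hee⟩ := hlift (q e) u' h'
      obtain ⟨e'', he'', hee'⟩ := hlift (q e) u'' h''
      rw [hDe _ _ e e'' he he'' hee'.symm, hDe _ _ e e' he he' hee.symm]
      have h1 : D u' u'' (q e) = I_BCU.G q ms R (u', u'', e', e'') := by
        rw [← hee]
        exact hDe _ _ e' e'' he' he'' (hee.trans hee'.symm)
      rw [h1]
      simp only [I_BCU.G]
      rw [hee, ← integral_add (I_BCU.integrable_cont _ (by fun_prop))
        (I_BCU.integrable_cont _ (by fun_prop))]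
      exact integral_mono (I_BCU.integrable_cont _ (by fun_prop))
        (I_BCU.integrable_cont _ (by fun_prop)) fun v => abs_sub_le _ _ _
  -- the end
  intro e u u' h h' hθ
  have h0 := hU D hD (q e) u u' (hB.sub h).2 (hB.sub h').2 hθ
  rw [hDe _ _ e e h h' rfl] at h0
  simp only [I_BCU.G] at h0
  rw [integral_eq_zero_iff_of_nonneg (fun v => abs_nonneg _)
    (I_BCU.integrable_cont _ (by fun_prop))] at h0
  have hnn : 0 ≤ ρ' u u' e := hρ.nonneg e u u' h h'
  refine le_antisymm (le_of_forall_pos_le_add fun ε hε => ?_) hnn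
  have hb := hBAL O X' A' (fun e => ms (q e)) ρ' hL' hρ (ε / 2) (half_pos hε) (u', e) h'
  simp only at hb
  have hne : ((ms (q e) : Measure O)) {v | (v, e) ∈ A' ∧ ρ' u' v e < ε / 2} ≠ 0 := by
    rw [← ProbabilityMeasure.ennreal_coeFn_eq_coeFn_toMeasure]
    exact_mod_cast hb.ne'
  have hfr : ∃ᵐ v ∂(ms (q e) : Measure O), (v, e) ∈ A' ∧ ρ' u' v e < ε / 2 :=
    frequently_ae_iff.2 hne
  obtain ⟨v, ⟨hv, hv2⟩, hv3⟩ := (hfr.and_eventually h0).exists
  have hv4 : R (u, v, e) = R (u', v, e) := by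
    simpa [sub_eq_zero] using hv3
  rw [hRρ _ _ _ h hv, hRρ _ _ _ h' hv] at hv4
  have h5 := hρ.tri e u v u' h hv h'
  rw [hρ.symm e v u' hv h', hv4] at h5
  linarith

end Pool.Agent.Work.MP_69fea5_lc.W3
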