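import Pool.Agent.Work.MP_69fea5_lc.W3.StmtsT
import Pool.Agent.Work.MP_69fea5_lc.AK.I_ZORN

set_option autoImplicit false

namespace Pool.Agent.Work.MP_69fea5_lc.W3

open MeasureTheory Topology Set Filter TopologicalSpace
open scoped NNReal ENNReal
open Pool.Agent.Work.MP_69fea5_lc.AK

/-- [BCX] base changes exist. -/
theorem BCX_pf (hZ : AK.S_ZORN) : S_BCX := by
  intro O X X' _ _ _ _ _ _ _ _ _ _ _ _ A E q hE hA hb
  have hcl : IsClosed (Pb A E q) := by
    have h1 : IsClosed {p : O × X' | p.2 ∈ E} := hE.min.closed.preimage continuous_snd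
    have h2 : IsClosed {p : O × X' | (p.1, q p.2) ∈ A} :=
      hA.closed.preimage (continuous_fst.prodMk (hE.cont.comp continuous_snd))
    exact h1.inter h2
  have hinv : AK.Inv (Pb A E q) := by
    intro n p hp
    refine ⟨hE.min.inv n _ hp.1, ?_⟩
    have h := hA.inv n _ hp.2
    have e : q (sh n p).2 = sh n (q p.2) := hE.equi n p.2
    rw [e]
    exact h
  have hne : (Pb A E q).Nonempty := by
    obtain ⟨e, he⟩ := hE.min.ne
    have : q e ∈ Prod.snd '' A := by rw [hb]; exact ⟨e, he, rfl⟩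
    obtain ⟨⟨u, x⟩, hp, hx⟩ := this
    have hx' : x = q e := hx
    subst hx'
    exact ⟨(u, e), he, hp⟩
  obtain ⟨A', hA', hm⟩ := hZ (O × X') (Pb A E q) hcl hne hinv
  exact ⟨A', hE, hA, hb, hm, hA'⟩

end Pool.Agent.Work.MP_69fea5_lc.W3
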