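import Pool.Agent.Work.MP_69fea5_lc.W3.StmtsM

/-!
# [69fea5 M BDL] limits of bad points
-/

set_option autoImplicit false

namespace Pool.Agent.Work.MP_69fea5_lc.W3

open MeasureTheory Topology Set Filter TopologicalSpace
open scoped NNReal ENNReal
open Pool.Agent.Work.MP_69fea5_lc.AK
open Pool.Agent.Work.MP_69fea5_lc.HK (Cl DU Ar ArF ArR Dat Law LawC act near sc Pt oc Mn mr ext)
open Pool.Agent.Work.MP_69fea5_lc.KC (Agree)

namespace I_BDL

theorem ex_lim {ι Y : Type} [TopologicalSpace Y] [CompactSpace Y] (G : Ultrafilter ι)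
    (g : ι → Y) : ∃ b, Tendsto g (G : Filter ι) (𝓝 b) := by
  obtain ⟨b, -, hb⟩ := isCompact_univ.ultrafilter_le_nhds (G.map g) (by simp)
  exact ⟨b, hb⟩

theorem prod_val {Y K : Type} [TopologicalSpace Y] [MeasurableSpace Y] [CS Y]
    [TopologicalSpace K] [MeasurableSpace K] [CS K] (F : Set (Y × K)) (hF : IsClosed F) (y : Y)
    (κ : ProbabilityMeasure K) : (diracProba y).prod κ F = κ {m | (y, m) ∈ F} := by
  have h1 : (((diracProba y).prod κ : ProbabilityMeasure (Y × K)) : Measure (Y × K)) F =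
      (κ : Measure K) {m | (y, m) ∈ F} := by
    change ((Measure.dirac y).prod (κ : Measure K)) F = _
    rw [Measure.dirac_prod, Measure.map_apply (by fun_prop) hF.measurableSet]
    rfl
  have h2 := congrArg ENNReal.toNNReal h1
  exact h2

theorem closed_fib (hPMG : S_PMG) {Y K : Type} [TopologicalSpace Y] [MeasurableSpace Y] [CS Y]
    [Sys Y] [TopologicalSpace K] [MeasurableSpace K] [CS K] [Sys K] (F : Set (Y × K))
    (hF : IsClosed F) : IsClosed {p : Y × ProbabilityMeasure K | p.2 {m | (p.1, m) ∈ F} = 1} := by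
  have h1 := (hPMG (Y × K)).2.2.2.2.1 F hF
  have h2 : Continuous fun p : Y × ProbabilityMeasure K => (diracProba p.1).prod p.2 :=
    ProbabilityMeasure.continuous_prod.comp
      ((continuous_diracProba.comp continuous_fst).prodMk continuous_snd)
  have h3 := h1.preimage h2
  have h4 : {p : Y × ProbabilityMeasure K | p.2 {m | (p.1, m) ∈ F} = 1} =
      (fun p : Y × ProbabilityMeasure K => (diracProba p.1).prod p.2) ⁻¹'
        {m : ProbabilityMeasure (Y × K) | m F = 1} := by
    ext p
    change _ ↔ (diracProba p.1).prod p.2 F = 1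
    rw [prod_val F hF]
    exact Iff.rfl
  rw [h4]
  exact h3

/-- the product of the masses as a continuous function -/
theorem cont_prod (hPMB : AK.S_PMB) {k : ℕ} (C : Finset (Fin k)) :
    Continuous fun m : PM k => ∏ r ∈ C, m {z | z 0 = r} := by
  refine continuous_finsetProd _ fun r _ => ?_
  refine (hPMB k).2.2.1 _ ?_
  exact (isClopen_discrete ({r} : Set (Fin k))).preimage (continuous_apply (0 : ℤ))

end I_BDL

open I_BDL in
theorem BDL_pf (hPMG : S_PMG) (hPMB : AK.S_PMB) (h2 : S_BRC) : S_BDL := by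
  intro k Y _ _ _ _ F hF hFi C ι U b b' hb hbad hlim
  choose κ hκ using hb
  obtain ⟨κ', hκ'⟩ := ex_lim U κ
  refine ⟨κ', ⟨?_, ?_⟩, ?_⟩
  · have h3 : Tendsto (fun i => ((b i).1, κ i)) (U : Filter ι) (𝓝 (b'.1, κ')) :=
      ((continuous_fst.tendsto b').comp hlim).prodMk_nhds hκ'
    exact (closed_fib hPMG F hF).mem_of_tendsto h3 (Eventually.of_forall fun i => (hκ i).1)
  · have h3 : Tendsto (fun i => (κ i, (b i).2)) (U : Filter ι) (𝓝 (κ', b'.2)) :=
      hκ'.prodMk_nhds ((continuous_snd.tendsto b').comp hlim)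
    exact ((h2 (PM k) (Om k) id continuous_id).1).mem_of_tendsto h3
      (Eventually.of_forall fun i => (hκ i).2)
  · have hbad' : ∀ i, pC C (κ i) = 0 := by
      intro i
      by_contra hne
      exact hbad i ⟨κ i, hκ i, pos_iff_ne_zero.2 hne⟩
    let f : BoundedContinuousFunction (PM k) ℝ≥0 :=
      BoundedContinuousFunction.mkOfCompact ⟨_, cont_prod hPMB C⟩
    have hf : ∀ κ : ProbabilityMeasure (PM k), pC C κ = ∫⁻ m, f m ∂(κ : Measure (PM k)) := by
      intro κ
      unfold pC
      refine lintegral_congr fun m => ?_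
      change _ = (((∏ r ∈ C, m {z | z 0 = r} : ℝ≥0)) : ℝ≥0∞)
      rw [ENNReal.coe_finset_prod]
      refine Finset.prod_congr rfl fun r _ => ?_
      rw [ProbabilityMeasure.ennreal_coeFn_eq_coeFn_toMeasure]
    have h3 := (ProbabilityMeasure.tendsto_iff_forall_lintegral_tendsto.1 hκ') f
    have h4 : (fun i => ∫⁻ m, f m ∂(κ i : Measure (PM k))) = fun _ => 0 := by
      funext i
      rw [← hf, hbad']
    rw [h4] at h3
    rw [hf]
    exact (tendsto_nhds_unique h3 tendsto_const_nhds)

end Pool.Agent.Work.MP_69fea5_lc.W3
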