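import Pool.Agent.Work.MP_69fea5_lc.W3.StmtsT
import Pool.Agent.Work.MP_69fea5_lc.N3.I_USG
import Pool.Agent.Work.MP_69fea5_lc.W3.I_ULT
import Pool.Agent.Work.MP_69fea5_lc.W3.I_BCF
import Pool.Agent.Work.MP_69fea5_lc.W3.I_BAL

/-!
# [69fea5 T] item BLX: the measures of the base change charge all balls of the old fibre
-/

set_option autoImplicit false

namespace Pool.Agent.Work.MP_69fea5_lc.W3

open MeasureTheory Topology Set Filter TopologicalSpace
open scoped NNReal ENNReal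
open Pool.Agent.Work.MP_69fea5_lc.AK

namespace I_BLX

variable {O X X' : Type} [TopologicalSpace O] [MeasurableSpace O] [CS O] [Sys O]
  [TopologicalSpace X] [MeasurableSpace X] [CS X] [Sys X]
  [TopologicalSpace X'] [MeasurableSpace X'] [CS X'] [Sys X']

/-- the pseudometric pulled back to the base change -/
theorem ipb_pull {A : Set (O × X)} {E : Set X'} {q : X' → X} {A' : Set (O × X')}
    {ρ : O → O → X → ℝ} (h : BCh A E q A') (hρ : IPB A ρ) :
    IPB A' (fun a b (z : X') => ρ a b (q z)) where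
  cont := by
    have hq : Continuous q := h.spx.cont
    have hc : Continuous fun p : O × O × X' => ((p.1, p.2.1, q p.2.2) : O × O × X) := by
      fun_prop
    exact hρ.cont.comp hc.continuousOn (fun p hp => ⟨(h.sub hp.1).2, (h.sub hp.2).2⟩)
  inv := by
    intro n x u u' hu hu'
    show ρ (sh n u) (sh n u') (q (sh n x)) = ρ u u' (q x)
    rw [h.spx.equi]
    exact hρ.inv n (q x) u u' (h.sub hu).2 (h.sub hu').2
  self := fun x u hu => hρ.self (q x) u (h.sub hu).2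
  nonneg := fun x u u' hu hu' => hρ.nonneg (q x) u u' (h.sub hu).2 (h.sub hu').2
  symm := fun x u u' hu hu' => hρ.symm (q x) u u' (h.sub hu).2 (h.sub hu').2
  tri := fun x u u' u'' hu hu' hu'' => hρ.tri (q x) u u' u'' (h.sub hu).2 (h.sub hu').2
    (h.sub hu'').2

/-- the points outside of the open balls -/
def Fs (A : Set (O × X)) (q : X' → X) (ρ : O → O → X → ℝ) (ε : ℝ) : Set (O × (O × X')) :=
  {p | (p.2.1, q p.2.2) ∈ A ∧ (p.1, q p.2.2) ∈ A ∧ ε ≤ ρ p.2.1 p.1 (q p.2.2)}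

theorem closed_Fs {A : Set (O × X)} (hA : IsClosed A) {q : X' → X} (hq : Continuous q)
    {ρ : O → O → X → ℝ} (hρ : IPB A ρ) (ε : ℝ) : IsClosed (Fs A q ρ ε) := by
  have h0 : IsClosed {p : O × O × X | (p.1, p.2.2) ∈ A ∧ (p.2.1, p.2.2) ∈ A} :=
    (hA.preimage (by fun_prop : Continuous fun p : O × O × X => (p.1, p.2.2))).inter
      (hA.preimage (by fun_prop : Continuous fun p : O × O × X => (p.2.1, p.2.2)))
  have h1 : IsClosed ({p : O × O × X | (p.1, p.2.2) ∈ A ∧ (p.2.1, p.2.2) ∈ A} ∩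
      (fun p : O × O × X => ρ p.1 p.2.1 p.2.2) ⁻¹' Ici ε) :=
    hρ.cont.preimage_isClosed_of_isClosed h0 isClosed_Ici
  have h2 := h1.preimage
    (by fun_prop : Continuous fun p : O × (O × X') => (p.2.1, p.1, q p.2.2))
  convert h2 using 1
  ext p
  simp only [Fs, mem_setOf_eq, mem_preimage, mem_inter_iff, mem_Ici, and_assoc]

end I_BLX

open I_BLX in
theorem BLX_pf (hJCT : S_JCT) : S_BLX := by
  intro O X X' _ _ _ _ _ _ _ _ _ _ _ _ A E q A' ms' ρ h hL hρ ε hε e he u hu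
  have hq : Continuous q := h.spx.cont
  have hA : IsClosed A := h.minA.closed
  obtain ⟨-, hbase, him⟩ := BCF_pf ULT_pf hJCT O X X' A E q A' h
  have hu1 : (u, q e) ∈ (fun p : O × X' => (p.1, q p.2)) '' A' := by
    rw [him]
    exact hu
  obtain ⟨⟨u₁, e'⟩, hue', heq⟩ := hu1
  have hu2 : u₁ = u := congrArg Prod.fst heq
  have hqe : q e' = q e := congrArg Prod.snd heq
  subst hu2
  have he' : e' ∈ E := (h.sub hue').1
  obtain ⟨e'', hee⟩ := (hJCT X' X E q h.spx.spr).2 e he e' he' hqe.symm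
  obtain ⟨G, hG⟩ := ((ULT_pf (X' × X')).1 _ _).1 hee
  obtain ⟨u'', hu''⟩ : ∃ u'' : O, Tendsto (fun n : ℤ => sh n u₁) (G : Filter ℤ) (𝓝 u'') := by
    obtain ⟨u'', _, hle⟩ := isCompact_univ.ultrafilter_le_nhds (G.map fun n : ℤ => sh n u₁)
      (by simp)
    exact ⟨u'', hle⟩
  have t1 : Tendsto (fun n : ℤ => sh n e) (G : Filter ℤ) (𝓝 e'') :=
    (continuous_fst.tendsto _).comp hG
  have t2 : Tendsto (fun n : ℤ => sh n e') (G : Filter ℤ) (𝓝 e'') :=
    (continuous_snd.tendsto _).comp hG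
  have m1 : (u'', e'') ∈ A' :=
    h.min.closed.mem_of_tendsto (hu''.prodMk_nhds t2)
      (Filter.Eventually.of_forall fun n => h.min.inv n _ hue')
  have hpos := BAL_pf O X' A' ms' _ hL (ipb_pull h hρ) ε hε (u'', e'') m1
  by_contra hcon
  have hzero : ms' e {v | (v, q e) ∈ A ∧ ρ u₁ v (q e) < ε} = 0 :=
    nonpos_iff_eq_zero.1 (not_lt.1 hcon)
  have hFc : IsClosed (Fs A q ρ ε) := closed_Fs hA hq hρ ε
  have husc := N3.USG_pf O (O × X') (Fs A q ρ ε) hFc 1
  -- the mass at time 0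
  have hone0 : 1 ≤ ms' e {v | (v, q e) ∈ A ∧ ε ≤ ρ u₁ v (q e)} := by
    have hmem : e ∈ Prod.snd '' A' := by
      rw [hbase]
      exact he
    obtain ⟨⟨w, e₁⟩, hw, hwe⟩ := hmem
    have hwe' : e₁ = e := hwe
    subst hwe'
    have h1 : ms' e₁ {v | (v, e₁) ∈ A'} = 1 := hL.one _ hw
    have h2 : ms' e₁ {v | (v, e₁) ∈ A'} ≤
        ms' e₁ ({v | (v, q e₁) ∈ A ∧ ρ u₁ v (q e₁) < ε} ∪
          {v | (v, q e₁) ∈ A ∧ ε ≤ ρ u₁ v (q e₁)}) := by
      apply ProbabilityMeasure.apply_mono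
      intro v hv
      rcases lt_or_ge (ρ u₁ v (q e₁)) ε with h3 | h3
      · exact Or.inl ⟨(h.sub hv).2, h3⟩
      · exact Or.inr ⟨(h.sub hv).2, h3⟩
    have h3 := h2.trans (ProbabilityMeasure.apply_union_le (ms' e₁))
    rw [h1, hzero, zero_add] at h3
    exact h3
  have hall : ∀ n : ℤ, ((ms' (sh n e), (sh n u₁, sh n e)) : ProbabilityMeasure O × (O × X')) ∈
      {p : ProbabilityMeasure O × (O × X') | 1 ≤ p.1 {y | (y, p.2) ∈ Fs A q ρ ε}} := by
    intro n
    show 1 ≤ ms' (sh n e) {y | (y, (sh n u₁, sh n e)) ∈ Fs A q ρ ε}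
    have hms : MeasurableSet {y | (y, ((sh n u₁, sh n e) : O × X')) ∈ Fs A q ρ ε} :=
      (hFc.preimage (continuous_id.prodMk continuous_const)).measurableSet
    rw [hL.equi n e]
    have e2 : (sh n (ms' e)) {y | (y, ((sh n u₁, sh n e) : O × X')) ∈ Fs A q ρ ε} =
        ms' e ((sh n : O → O) ⁻¹' {y | (y, ((sh n u₁, sh n e) : O × X')) ∈ Fs A q ρ ε}) :=
      ProbabilityMeasure.map_apply (ms' e) (sh_cont n).measurable.aemeasurable hms
    rw [e2]
    refine hone0.trans ?_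
    apply ProbabilityMeasure.apply_mono
    rintro v ⟨hv1, hv2⟩
    show (sh n u₁, q (sh n e)) ∈ A ∧ (sh n v, q (sh n e)) ∈ A ∧
      ε ≤ ρ (sh n u₁) (sh n v) (q (sh n e))
    rw [h.spx.equi]
    refine ⟨h.minA.inv n _ hu, h.minA.inv n _ hv1, ?_⟩
    rw [hρ.inv n (q e) u₁ v hu hv1]
    exact hv2
  have hlim : Tendsto (fun n : ℤ =>
      ((ms' (sh n e), (sh n u₁, sh n e)) : ProbabilityMeasure O × (O × X')))
      (G : Filter ℤ) (𝓝 (ms' e'', (u'', e''))) :=
    ((hL.cont.tendsto _).comp t1).prodMk_nhds (hu''.prodMk_nhds t1)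
  have hfin := husc.mem_of_tendsto hlim (Filter.Eventually.of_forall hall)
  have hfin' : 1 ≤ ms' e'' {y | (y, ((u'', e'') : O × X')) ∈ Fs A q ρ ε} := hfin
  have hms : MeasurableSet {y | (y, ((u'', e'') : O × X')) ∈ Fs A q ρ ε} :=
    (hFc.preimage (continuous_id.prodMk continuous_const)).measurableSet
  have hcompl : (ms' e'' : Measure O) {y | (y, ((u'', e'') : O × X')) ∈ Fs A q ρ ε}ᶜ = 0 := by
    rw [prob_compl_eq_zero_iff hms]
    rw [← ProbabilityMeasure.ennreal_coeFn_eq_coeFn_toMeasure]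
    have h5 : ms' e'' {y | (y, ((u'', e'') : O × X')) ∈ Fs A q ρ ε} = 1 :=
      le_antisymm (ProbabilityMeasure.apply_le_one _ _) hfin'
    rw [h5]
    simp
  have hz2 : (ms' e'' : Measure O) {v | (v, e'') ∈ A' ∧ ρ u'' v (q e'') < ε} = 0 := by
    refine measure_mono_null ?_ hcompl
    rintro v ⟨-, hv⟩ hv'
    exact absurd hv'.2.2 (not_le.2 hv)
  have hpos' : (0 : ℝ≥0∞) < (ms' e'' : Measure O) {v | (v, e'') ∈ A' ∧ ρ u'' v (q e'') < ε} := by
    rw [← ProbabilityMeasure.ennreal_coeFn_eq_coeFn_toMeasure]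
    exact ENNReal.coe_pos.2 hpos
  rw [hz2] at hpos'
  exact lt_irrefl _ hpos'

end Pool.Agent.Work.MP_69fea5_lc.W3
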