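import Pool.Agent.Work.MP_69fea5_lc.W3.StmtsT

/-!
# Block [69fea5 W3], toolbox: item BRB
-/

set_option autoImplicit false

namespace Pool.Agent.Work.MP_69fea5_lc.W3

open MeasureTheory Topology Set Filter TopologicalSpace
open scoped NNReal ENNReal
open Pool.Agent.Work.MP_69fea5_lc.AK

namespace I_BRB

/-- the trivial system -/
@[reducible] def trivSys (O : Type) [TopologicalSpace O] : Sys O where
  sh _ x := x
  zero' _ := rfl
  add' _ _ _ := rfl
  cont' _ := continuous_id

theorem coe_one {X : Type} [MeasurableSpace X] (m : ProbabilityMeasure X) (F : Set X) :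
    m F = 1 ↔ (m : Measure X) F = 1 := by
  rw [← ProbabilityMeasure.ennreal_coeFn_eq_coeFn_toMeasure]
  exact_mod_cast Iff.rfl

/-- the barycentre map is continuous -/
theorem cont_of_closed {K L : Type} [TopologicalSpace K] [TopologicalSpace L] [CompactSpace L]
    (R : K → L → Prop) (hR : IsClosed {p : K × L | R p.1 p.2}) (b : K → L)
    (hb : ∀ x, R x (b x)) (hu : ∀ x y y', R x y → R x y' → y = y') : Continuous b := by
  rw [continuous_iff_ultrafilter]
  intro x g hg
  obtain ⟨y, hy⟩ : ∃ y, (g.map b : Filter L) ≤ 𝓝 y := by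
    obtain ⟨y, _, hy⟩ := isCompact_univ.ultrafilter_le_nhds (g.map b) (by simp)
    exact ⟨y, hy⟩
  have hy' : Tendsto b g (𝓝 y) := hy
  have h2 : Tendsto (fun z => (z, b z)) g (𝓝 (x, y)) := by
    rw [nhds_prod_eq]
    exact Tendsto.prodMk hg hy'
  have h3 : R x y := hR.mem_of_tendsto h2 (Eventually.of_forall fun z => hb z)
  rw [hu x (b x) y (hb x) h3]
  exact hy'

end I_BRB

open I_BRB in
theorem BRB_pf (h1 : S_PMG) (h2 : S_LFT) (h3 : S_BRX) (h4 : S_BRC) : S_BRB := by
  intro O _ _ _ F hF
  let _ : Sys O := trivSys O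
  intro G
  have hrel : IsClosed {p : ProbabilityMeasure (ProbabilityMeasure O) × ProbabilityMeasure O |
      Bar p.1 id p.2} := (h4 (ProbabilityMeasure O) O id continuous_id).1
  have hE : IsClosed {κ : ProbabilityMeasure (ProbabilityMeasure O) | κ F = 1} :=
    (h1 (ProbabilityMeasure O)).2.2.2.2.1 F hF
  have hex : ∀ κ : ProbabilityMeasure (ProbabilityMeasure O), ∃ m, Bar κ id m := fun κ =>
    (h3 (ProbabilityMeasure O) O κ id measurable_id).1
  have huq : ∀ (κ : ProbabilityMeasure (ProbabilityMeasure O)) (m m' : ProbabilityMeasure O),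
      Bar κ id m → Bar κ id m' → m = m' := fun κ =>
    (h3 (ProbabilityMeasure O) O κ id measurable_id).2.1
  choose b hb using hex
  have hbc : Continuous b := cont_of_closed (fun κ m => Bar κ id m) hrel b hb huq
  have hG : G = b '' {κ : ProbabilityMeasure (ProbabilityMeasure O) | κ F = 1} := by
    ext m
    constructor
    · rintro ⟨κ, hκ, hm⟩
      exact ⟨κ, hκ, huq κ _ _ (hb κ) hm⟩
    · rintro ⟨κ, hκ, rfl⟩
      exact ⟨κ, hκ, hb κ⟩
  have hcoe : Measurable (fun m : ProbabilityMeasure O => (m : Measure O)) :=
    measurable_subtype_coe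
  have hcoe2 : Measurable (fun m : ProbabilityMeasure (ProbabilityMeasure O) =>
      (m : Measure (ProbabilityMeasure O))) := measurable_subtype_coe
  refine ⟨?_, ?_, ?_⟩
  · rw [hG]
    exact (hE.isCompact.image hbc).isClosed
  · intro m hm
    refine ⟨diracProba m, ?_, ?_⟩
    · rw [coe_one]
      change Measure.dirac m F = 1
      rw [Measure.dirac_apply' _ hF.measurableSet, Set.indicator_of_mem hm, Pi.one_apply]
    · change (Measure.dirac m).bind (fun q : ProbabilityMeasure O => ((id q : ProbabilityMeasure O)
        : Measure O)) = m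
      exact Measure.dirac_bind hcoe m
  · intro κ m hκ hm
    rw [hG] at hκ
    obtain ⟨ν, hν, hνb⟩ := h2 (ProbabilityMeasure (ProbabilityMeasure O)) (ProbabilityMeasure O) b
      {κ : ProbabilityMeasure (ProbabilityMeasure O) | κ F = 1} κ hbc hE hκ
    obtain ⟨κ', hκ'⟩ := (h3 (ProbabilityMeasure (ProbabilityMeasure O)) (ProbabilityMeasure O) ν id
      measurable_id).1
    have hκ'2 : (ν : Measure (ProbabilityMeasure (ProbabilityMeasure O))).bind
        (fun q => (q : Measure (ProbabilityMeasure O))) = (κ' : Measure (ProbabilityMeasure O)) :=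
      hκ'
    refine ⟨κ', ?_, ?_⟩
    · rw [coe_one]
      rw [← hκ'2, Measure.bind_apply hF.measurableSet hcoe2.aemeasurable]
      rw [coe_one] at hν
      have hae : ∀ᵐ q : ProbabilityMeasure (ProbabilityMeasure O)
          ∂(ν : Measure (ProbabilityMeasure (ProbabilityMeasure O))),
          (q : Measure (ProbabilityMeasure O)) F = 1 := by
        have h5 := (prob_compl_eq_zero_iff hE.measurableSet).mpr hν
        rw [ae_iff]
        refine measure_mono_null ?_ h5
        intro q hq hq2
        exact hq ((coe_one q F).mp hq2)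
      rw [lintegral_congr_ae hae, lintegral_const, measure_univ, mul_one]
    · change (κ' : Measure (ProbabilityMeasure O)).bind
        (fun q : ProbabilityMeasure O => (q : Measure O)) = m
      have e1 : ∀ q : ProbabilityMeasure (ProbabilityMeasure O),
          (q : Measure (ProbabilityMeasure O)).bind
            (fun q : ProbabilityMeasure O => (q : Measure O)) = (b q : Measure O) := fun q => hb q
      have hm2 : (κ : Measure (ProbabilityMeasure O)).bind
        (fun q : ProbabilityMeasure O => (q : Measure O)) = m := hm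
      rw [← hκ'2, Measure.bind_bind hcoe2.aemeasurable hcoe.aemeasurable]
      rw [← hm2, ← hνb]
      simp only [e1]
      unfold Measure.bind
      rw [Measure.map_map hcoe hbc.measurable]
      rfl

end Pool.Agent.Work.MP_69fea5_lc.W3
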