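import Pool.Agent.Work.MP_69fea5_lc.W3.StmtsT

/-!
# Block [69fea5 T BRX]: barycentres
-/

set_option autoImplicit false

namespace Pool.Agent.Work.MP_69fea5_lc.W3

open MeasureTheory Topology Set Filter TopologicalSpace
open scoped NNReal ENNReal
open Pool.Agent.Work.MP_69fea5_lc.AK

namespace I_BRX

set_option linter.unusedSectionVars false

variable {K O : Type} [TopologicalSpace K] [MeasurableSpace K] [CS K]
  [TopologicalSpace O] [MeasurableSpace O] [CS O]

theorem meas_coe {f : K → ProbabilityMeasure O} (hf : Measurable f) :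
    Measurable fun q => (f q : Measure O) := measurable_subtype_coe.comp hf

theorem integrable_of_cont (m : Measure O) [IsFiniteMeasure m] {g : O → ℝ} (hg : Continuous g) :
    Integrable g m := by
  have := (BoundedContinuousFunction.mkOfCompact ⟨g, hg⟩).integrable m
  exact this

theorem exists_bound {g : O → ℝ} (hg : Continuous g) : ∃ C : ℝ, ∀ z, |g z| ≤ C := by
  refine ⟨‖(⟨g, hg⟩ : C(O, ℝ))‖, fun z => ?_⟩
  have := (⟨g, hg⟩ : C(O, ℝ)).norm_coe_le_norm z
  rwa [Real.norm_eq_abs] at this

theorem integral_eq {g : O → ℝ} (hg : Continuous g) {C : ℝ} (hC : ∀ z, |g z| ≤ C)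
    (m : Measure O) [IsProbabilityMeasure m] :
    ∫ z, g z ∂m = (∫⁻ z, ENNReal.ofReal (g z + C) ∂m).toReal - C := by
  have hi : Integrable (fun x => g x) m := integrable_of_cont m hg
  rw [← integral_eq_lintegral_of_nonneg_ae, integral_add hi (integrable_const _)]
  · simp
  · refine ae_of_all _ fun x => ?_
    show 0 ≤ g x + C
    linarith [neg_abs_le (g x), hC x]
  · exact (by fun_prop : Continuous fun x => g x + C).aestronglyMeasurable

end I_BRX

open I_BRX in
theorem BRX_pf : S_BRX := by
  intro K O _ _ _ _ _ _ κ f hf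
  have hm := meas_coe hf
  refine ⟨?_, ?_, ?_, ?_⟩
  · have : IsProbabilityMeasure ((κ : Measure K).bind (fun q => (f q : Measure O))) := by
      constructor
      rw [Measure.bind_apply MeasurableSet.univ hm.aemeasurable]
      simp
    exact ⟨⟨(κ : Measure K).bind (fun q => (f q : Measure O)), inferInstance⟩, rfl⟩
  · intro m m' h h'
    apply Subtype.ext
    exact h.symm.trans h'
  · intro m h B hB
    rw [← h, Measure.bind_apply hB hm.aemeasurable]
  · intro m h g hg
    obtain ⟨C, hC⟩ := exists_bound hg
    have hC0 : ∀ z, 0 ≤ g z + C := fun z => by linarith [neg_abs_le (g z), hC z]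
    have hgm : Measurable fun z => ENNReal.ofReal (g z + C) :=
      (ENNReal.continuous_ofReal.comp (hg.add continuous_const)).measurable
    have e1 : ∀ q : K, ∫ z, g z ∂(f q : Measure O) =
        (∫⁻ z, ENNReal.ofReal (g z + C) ∂(f q : Measure O)).toReal - C := fun q =>
      integral_eq hg hC _
    have hb : ∀ q : K, ∫⁻ z, ENNReal.ofReal (g z + C) ∂(f q : Measure O) ≤
        ENNReal.ofReal (C + C) := by
      intro q
      calc ∫⁻ z, ENNReal.ofReal (g z + C) ∂(f q : Measure O)
          ≤ ∫⁻ z, ENNReal.ofReal (C + C) ∂(f q : Measure O) := by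
            refine lintegral_mono fun z => ENNReal.ofReal_le_ofReal ?_
            linarith [le_abs_self (g z), hC z]
        _ = ENNReal.ofReal (C + C) := by simp
    have hmeas : Measurable fun q : K => ∫⁻ z, ENNReal.ofReal (g z + C) ∂(f q : Measure O) :=
      (Measure.measurable_lintegral hgm).comp hm
    rw [integral_eq hg hC, ← h, Measure.lintegral_bind hm.aemeasurable hgm.aemeasurable]
    simp_rw [e1]
    rw [integral_sub, integral_const]
    · rw [integral_toReal hmeas.aemeasurable
        (ae_of_all _ fun q => lt_of_le_of_lt (hb q) ENNReal.ofReal_lt_top)]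
      simp
    · apply integrable_toReal_of_lintegral_ne_top hmeas.aemeasurable
      refine ne_of_lt (lt_of_le_of_lt (lintegral_mono hb) ?_)
      simp
    · exact integrable_const _

end Pool.Agent.Work.MP_69fea5_lc.W3
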