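import Pool.Agent.Work.MP_69fea5_lc.W3.StmtsM

/-!
# Block [69fea5 M], item CB0: the base over the one-point system
-/

set_option autoImplicit false

namespace Pool.Agent.Work.MP_69fea5_lc.W3

open MeasureTheory Topology Set Filter TopologicalSpace
open scoped NNReal ENNReal
open Pool.Agent.Work.MP_69fea5_lc.AK
open Pool.Agent.Work.MP_69fea5_lc.HK (Cl DU Ar ArF ArR Dat Law LawC act near sc Pt oc Mn mr ext)
open Pool.Agent.Work.MP_69fea5_lc.KC (Agree)

namespace I_CB0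

variable {k : ℕ}

/-- the orbit closure of `g` over the one-point system -/
def A0 (g : Om k) : Set (Om k × Unit) := {p | p.1 ∈ orb g}

theorem A0_min {g : Om k} (hg : MinSet (orb g)) : MinSet (A0 g) where
  closed := hg.closed.preimage continuous_fst
  ne := by
    obtain ⟨u, hu⟩ := hg.ne
    exact ⟨(u, ()), hu⟩
  inv n p hp := hg.inv n p.1 hp
  min L hL hne hinv hsub := by
    have h1 : {u : Om k | (u, ()) ∈ L} = orb g := by
      refine hg.min _ ?_ ?_ ?_ ?_
      · exact hL.preimage (by fun_prop)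
      · obtain ⟨⟨u, ⟨⟩⟩, hu⟩ := hne
        exact ⟨u, hu⟩
      · intro n u hu
        exact hinv n _ hu
      · intro u hu
        exact hsub hu
    refine Subset.antisymm hsub ?_
    rintro ⟨u, ⟨⟩⟩ hu
    have : u ∈ {u : Om k | (u, ()) ∈ L} := by
      rw [h1]
      exact hu
    exact this

theorem A0_exa {g c : Om k} (hg : g ∈ omg c) : Exa c (A0 g) () := by
  rintro ⟨u, ⟨⟩⟩ hu V hV N
  have h1 : (fun z : Om k => (z, ())) ⁻¹' V ∈ 𝓝 u :=
    (show Continuous fun z : Om k => (z, ()) by fun_prop).continuousAt.preimage_mem_nhds hV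
  obtain ⟨W, hWV, hWo, huW⟩ := mem_nhds_iff.1 h1
  obtain ⟨z, hzW, m, rfl⟩ := mem_closure_iff.1 (show u ∈ closure _ from hu) W hWo huW
  have h2 : (sh m : Om k → Om k) ⁻¹' W ∈ 𝓝 g :=
    (sh_cont m).continuousAt.preimage_mem_nhds (hWo.mem_nhds hzW)
  obtain ⟨n, hn, hn'⟩ := hg _ h2 (N + m.natAbs)
  have h3 : 0 ≤ m + n := by omega
  refine ⟨(m + n).toNat, by omega, ?_⟩
  have h4 : sh (m + n) c ∈ W := by
    rw [sh_add]
    exact hn'
  have h5 := hWV h4
  have h6 : (((m + n).toNat : ℕ) : ℤ) = m + n := Int.toNat_of_nonneg h3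
  rw [h6]
  exact h5

end I_CB0

/-- [CB0] -/
theorem CB0_pf (h1 : N3.S_URB) (h2 : S_DIR) : S_CB0 := by
  intro S U hS hU k c hc
  refine ⟨?_, ?_⟩
  · obtain ⟨b, g, -, hbn, hlim, hmin, hg⟩ := h1 S U hS hU k c hc
    have hom : g ∈ omg c := by
      intro V hV N
      have h3 : ∀ᶠ r in (U : Filter ℕ), N ≤ r := hU.top (eventually_ge_atTop N)
      obtain ⟨r, h4, h5⟩ := (h3.and (hlim hV)).exists
      exact ⟨b r, h4.trans (hbn r), h5⟩
    refine ⟨I_CB0.A0 g, I_CB0.A0_min hmin, ?_, I_CB0.A0_exa hom, trivial, g, hg, ?_⟩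
    · obtain ⟨u, hu⟩ := hmin.ne
      exact ⟨(u, ()), hu, rfl⟩
    · exact subset_closure ⟨0, sh_zero g⟩
  · intro X _ _ _ _ _ A x hA
    obtain ⟨z, hz, hzA⟩ := hA.ptz
    refine ⟨diracProba z, (h2 S hS k X A z x hz hA.min hzA).1, ?_, fun _ _ _ _ _ _ => Nat.zero_le _⟩
    have hm : z ∈ {u : Om k | (u, x) ∈ A} := hzA
    have h3 : ((diracProba z : PM k) : Measure (Om k)) {u : Om k | (u, x) ∈ A} = 1 :=
      diracProba_toMeasure_apply_of_mem hm
    change (((diracProba z : PM k) : Measure (Om k)) {u : Om k | (u, x) ∈ A}).toNNReal = 1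
    rw [h3]
    rfl

end Pool.Agent.Work.MP_69fea5_lc.W3
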