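import Pool.Agent.Work.MP_69fea5_lc.W3.StmtsM

/-!
Block [69fea5 M], main line, item CHE: a chain with good decompositions, the final argument applies.
-/

set_option autoImplicit false

namespace Pool.Agent.Work.MP_69fea5_lc.W3

open MeasureTheory Topology Set Filter TopologicalSpace
open scoped NNReal ENNReal
open Pool.Agent.Work.MP_69fea5_lc.AK
open Pool.Agent.Work.MP_69fea5_lc.HK (Cl DU Ar ArF ArR Dat Law LawC act near sc Pt oc Mn mr ext)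
open Pool.Agent.Work.MP_69fea5_lc.KC (Agree)

namespace I_CHE

theorem isClosed_orb {X : Type} [TopologicalSpace X] [Sys X] (x : X) : IsClosed (orb x) :=
  isClosed_closure

/-- the members of a decomposition live on one phase -/
theorem dcp_of_dco {k : ℕ} {c : Om k} {S : Set (Set ℕ)} {j : ℕ} (hSUP : AK.S_SUP)
    {X : Type} [TopologicalSpace X] [MeasurableSpace X] [Sys X] [Dat X] [CSys X]
    {A : Set (Om k × X)} {x : X} {A₁ : Set (Om k × (X × PM k))} {v : WF k X}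
    {A₂ : Set (Om k × (WF k X × PM k))} {w : WF k (WF k X)} {m₃ l₀ : PM k}
    {AE : Set (Om k × XE k X)} (hTD : TD S c j A x A₁ v A₂ w m₃ l₀ AE)
    (hF3 : ∀ (y : WF k X × PM k) (m : PM k), (y, m) ∈ orb (w.1, m₃) → ∃ w' : WF k (WF k X),
      w'.1 = y ∧ (w', m) ∈ orb (w, m₃) ∧ w' ∈ orb w ∧ m {u | (u, w') ∈ A1t A₂ w} = 1)
    {e : XE k X} {κ : ProbabilityMeasure (PM k)} (hD : Dco (orb (w.1, m₃)) e κ) :
    ∀ᵐ m ∂(κ : Measure (PM k)), Dcp A₂ (th w.1) e.1 m := by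
  have hcl : IsClosed {m : PM k | (e.1, m) ∈ orb (w.1, m₃)} :=
    (isClosed_orb (w.1, m₃)).preimage (Continuous.prodMk continuous_const continuous_id)
  have h1 : (κ : Measure (PM k)) {m : PM k | (e.1, m) ∈ orb (w.1, m₃)} = 1 := by
    rw [← ProbabilityMeasure.ennreal_coeFn_eq_coeFn_toMeasure, hD.1]
    rfl
  have hae : ∀ᵐ m ∂(κ : Measure (PM k)), (e.1, m) ∈ orb (w.1, m₃) :=
    (prob_compl_eq_zero_iff hcl.measurableSet).2 h1
  filter_upwards [hae] with m hm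
  obtain ⟨w', hw', -, -, h4⟩ := hF3 e.1 m hm
  have hc2 : IsClosed {u : Om k | (u, w') ∈ A1t A₂ w} :=
    hTD.l2.cb2.min.closed.preimage (Continuous.prodMk continuous_id continuous_const)
  have hsub := (hSUP k m).2.2.2.2.2.2.1 _ hc2 h4
  refine ⟨w'.2 0, fun z hz => ?_⟩
  obtain ⟨-, h6, h7⟩ := hsub hz
  simp only at h6 h7
  rw [hw'] at h6 h7
  exact ⟨h6, h7⟩

end I_CHE

open I_CHE in
theorem CHE_pf (hXCH : S_XCH) (hEHA : S_EHA) (hTDF : S_TDF) (hEND : S_END) (hSUP : AK.S_SUP) :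
    S_CHE := by
  intro S k c j X _ _ _ _ _ A x A₁ v A₂ w m₃ l₀ AE hTD v₁ hv₁ hv₁1 hZ C ξ hξ κ1 κ2 hD1 hD2 hp1 hp2
  obtain ⟨-, hPE, hL2, -, hF3⟩ := hTDF S k c j X A x A₁ v A₂ w m₃ l₀ AE hTD
  obtain ⟨Ξ, ζ, hCh, hζ, z0, z1, z2, z3⟩ := hXCH k (X × PM k) (CPh k) (XE k X) A₁ Prod.snd (th v.1)
    v v₁ (orb (w.1, l₀)) qE Prod.snd hPE hv₁ hv₁1 ξ hξ.min hξ.m0 hξ.m1 hξ.m2 hξ.m3 hξ.c0 hξ.c1 hξ.c2
  have d1 : ∀ᵐ m ∂(κ1 : Measure (PM k)), Dcp A₂ (th w.1) (ζ 1).1 m := by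
    rw [z1]; exact dcp_of_dco hSUP hTD hF3 hD1
  have d2 : ∀ᵐ m ∂(κ2 : Measure (PM k)), Dcp A₂ (th w.1) (ζ 2).1 m := by
    rw [z2]; exact dcp_of_dco hSUP hTD hF3 hD2
  have hex : Exa c (At A₁ (th v.1) (orb v) 0) (qE (ζ 0)) := by
    rw [z0]; exact hξ.ex
  have hb1 : Bar κ1 id (ζ 1).2 := by rw [z1]; exact hD1.2
  have hb2 : Bar κ2 id (ζ 2).2 := by rw [z2]; exact hD2.2
  have hpal : ((ζ 3).2 : Measure (Om k)) {z | z 0 ∉ C} = 0 := by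
    rw [z3]
    exact (ProbabilityMeasure.null_iff_toMeasure_null _ _).1 hξ.p3
  have hEH := hEHA k c (X × PM k) (CPh k) (XE k X) (WF k X × PM k) (CPh k) A₁ Prod.snd (th v.1) v v₁
    (orb (w.1, l₀)) qE Prod.snd Ξ (orb w.1) Prod.fst A₂ Prod.snd (th w.1) Prod.fst ζ C κ1 κ2
    hPE hZ hCh hL2 hζ hex hb1 hb2 d1 d2 hp1 hp2 hpal
  exact hEND k (ℕ → XE k X) c ζ _ _ _ _ C κ1 κ2 hEH

end Pool.Agent.Work.MP_69fea5_lc.W3
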