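import Pool.Agent.Work.MP_69fea5_lc.W3.StmtsF1
import Pool.Agent.Work.MP_69fea5_lc.AK.I_ORB
import Pool.Agent.Work.MP_69fea5_lc.AK.I_SUP

/-!
# [69fea5 F1 CHL] the levels over the chains
-/

set_option autoImplicit false

namespace Pool.Agent.Work.MP_69fea5_lc.W3

open MeasureTheory Topology Set Filter TopologicalSpace
open scoped NNReal ENNReal
open Pool.Agent.Work.MP_69fea5_lc.AK

namespace I_CHL

variable {k : ℕ} {X : Type} [TopologicalSpace X] [Sys X]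

theorem inv_MS (μ : X → PM k) (x : X) : AK.Inv (MS μ x) := by
  intro n p hp
  have hmap : MapsTo (sh n : Om k × X → Om k × X)
      {p | ∃ n : ℤ, ∃ z ∈ supp (μ x), p = (sh n z, sh n x)}
      {p | ∃ n : ℤ, ∃ z ∈ supp (μ x), p = (sh n z, sh n x)} := by
    rintro _ ⟨m, z, hz, rfl⟩
    refine ⟨n + m, z, hz, ?_⟩
    rw [sh_add, sh_add]
    rfl
  exact map_mem_closure (sh_cont n) hp hmap

theorem ne_MS (μ : X → PM k) (x : X) : (MS μ x).Nonempty := by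
  obtain ⟨z, hz⟩ : (supp (μ x)).Nonempty := Filter.nonempty_of_mem (AK.I_SUP.ae_supp (μ x))
  exact ⟨(z, x), subset_closure ⟨0, z, hz, by rw [sh_zero, sh_zero]⟩⟩

end I_CHL

theorem CHL_pf (h1 : S_T7M) (h2 : S_BCX) (h3 : S_RIM) (h4 : S_LEB) : S_CHL := by
  intro k Y C X' _ _ _ _ _ _ _ _ _ _ _ _ A ms θ v₀ v₁ E q lm Ξ hPE hCh j ξ hξ
  obtain ⟨m1, m2, _⟩ := h1 (Om k) C Y A θ hPE.pha v₀ hPE.frm 0
  have hsp := hCh.spx j
  have hb := hCh.base j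
  obtain ⟨A', hA'⟩ := h2 _ _ _ (At A θ (orb v₀) 0) Ξ (fun ξ => q (ξ j)) hsp m1
    (m2.trans hb.symm)
  have hLev : Lev A' (fun ξ : ℕ → X' => lm (ξ j)) :=
    h3 _ _ _ _ _ _ A' _ hA' (hPE.cont.comp (continuous_apply j)) (fun n e => hPE.equi n (e j))
      (fun e he => hPE.one (e j) (hCh.sub he j).1)
  obtain ⟨hmin, hsupp⟩ := h4 _ _ A' _ hLev
  have hsnd : Prod.snd '' A' = Ξ := by
    refine hCh.min.min _ hmin.closed hmin.ne hmin.inv ?_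
    rintro _ ⟨p, hp, rfl⟩
    exact (hA'.sub hp).1
  have hsub : MS (fun ξ : ℕ → X' => lm (ξ j)) ξ ⊆ A' := by
    refine closure_minimal ?_ hLev.min.closed
    rintro _ ⟨n, z, hz, rfl⟩
    exact hLev.min.inv n (z, ξ) (hsupp ξ (hsnd ▸ hξ) z hz)
  have hMS : MS (fun ξ : ℕ → X' => lm (ξ j)) ξ = A' :=
    hLev.min.min _ isClosed_closure (I_CHL.ne_MS _ _) (I_CHL.inv_MS _ _) hsub
  rw [hMS]
  exact ⟨hA', hLev⟩

end Pool.Agent.Work.MP_69fea5_lc.W3
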