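import Pool.Agent.Work.MP_69fea5_lc.W3.StmtsF1

set_option autoImplicit false

namespace Pool.Agent.Work.MP_69fea5_lc.W3

open MeasureTheory Topology Set Filter TopologicalSpace
open scoped NNReal ENNReal
open Pool.Agent.Work.MP_69fea5_lc.AK

theorem CHP_pf (hCHL : S_CHL) (hSPS : S_SPS) (hBCX : S_BCX) (hBC2 : S_BC2) (hBCF : S_BCF)
    (hBCU : S_BCU) : S_CHP := by
  intro k Y C X' X₂ C₂ _ _ _ _ _ _ _ _ _ _ _ _ _ _ _ _ _ _ A ms θ v₀ v₁ E q lm Ξ Y₂ q₂ A₂ ms₂ θ₂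
    p₂ hPE hCh hL j ξ hξ
  -- `Ξ` over `Y₂`
  have hcont : Continuous fun ξ : ℕ → X' => p₂ (ξ j) := hL.cont.comp (continuous_apply j)
  have hequi : ∀ (n : ℤ) (e : ℕ → X'), p₂ (sh n e j) = sh n (p₂ (e j)) := fun n e =>
    hL.equi n (e j)
  have hspr : SPr Ξ fun ξ : ℕ → X' => p₂ (ξ j) := by
    refine hSPS (ℕ → X') (Y × (ℕ → C)) X₂ Ξ Ξ (fun ξ => q (ξ j)) (fun ξ => p₂ (ξ j))
      (hCh.spx j).spr subset_rfl ?_
    intro e _ e' _ h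
    have h' : p₂ (e j) = p₂ (e' j) := h
    show q (e j) = q (e' j)
    rw [← hL.comp, ← hL.comp, h']
  have hspx : SPx Ξ fun ξ : ℕ → X' => p₂ (ξ j) := ⟨hCh.min, hcont, hequi, hspr⟩
  -- the coordinate `j` of `Ξ`
  have himg : (fun ξ : ℕ → X' => ξ j) '' Ξ = E := by
    refine hPE.spx.min.min _ ?_ ?_ ?_ ?_
    · exact (hCh.min.closed.isCompact.image (continuous_apply j)).isClosed
    · exact hCh.min.ne.image _
    · rintro n _ ⟨e, he, rfl⟩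
      exact ⟨sh n e, hCh.min.inv n e he, rfl⟩
    · rintro _ ⟨e, he, rfl⟩
      exact (hCh.sub he j).1
  have hbase : Prod.snd '' A₂ = (fun ξ : ℕ → X' => p₂ (ξ j)) '' Ξ := by
    have h1 : (fun ξ : ℕ → X' => p₂ (ξ j)) '' Ξ = p₂ '' ((fun ξ : ℕ → X' => ξ j) '' Ξ) :=
      (image_image p₂ (fun ξ : ℕ → X' => ξ j) Ξ).symm
    rw [h1, himg, hL.onto]
    exact (hBCF (Om k) (Y × (ℕ → C)) X₂ _ Y₂ q₂ A₂ hL.bch).2.1
  obtain ⟨A', hA'⟩ := hBCX (Om k) X₂ (ℕ → X') A₂ Ξ (fun ξ => p₂ (ξ j)) hspx hL.lev.min hbase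
  have h2 := hBC2 (Om k) (Y × (ℕ → C)) X₂ (ℕ → X') _ Y₂ q₂ A₂ Ξ (fun ξ => p₂ (ξ j)) A'
    hL.bch hA'
  have h3 : (fun e : ℕ → X' => q₂ (p₂ (e j))) = fun e => q (e j) := funext fun e =>
    hL.comp (e j)
  rw [h3] at h2
  have h4 := (hCHL k Y C X' A ms θ v₀ v₁ E q lm Ξ hPE hCh j ξ hξ).1
  have h5 : MS (fun ξ : ℕ → X' => lm (ξ j)) ξ = A' := by
    refine Subset.antisymm ?_ ?_
    · exact (hBCF (Om k) (Y × (ℕ → C)) (ℕ → X') _ Ξ (fun ξ => q (ξ j)) _ h4).1 A'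
        h2.min.closed h2.min.ne h2.min.inv h2.sub
    · exact (hBCF (Om k) (Y × (ℕ → C)) (ℕ → X') _ Ξ (fun ξ => q (ξ j)) _ h2).1 _
        h4.min.closed h4.min.ne h4.min.inv h4.sub
  rw [h5]
  exact hBCU (Om k) X₂ (ℕ → X') C₂ A₂ Ξ (fun ξ => p₂ (ξ j)) A' ms₂ θ₂ hA' hL.lev hL.uni

end Pool.Agent.Work.MP_69fea5_lc.W3
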