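import Pool.Agent.Work.MP_69fea5_lc.W3.StmtsF1
import Pool.Agent.Work.MP_69fea5_lc.AK.I_ORB
import Pool.Agent.Work.MP_69fea5_lc.AK.I_IMG
import Pool.Agent.Work.MP_69fea5_lc.AK.I_ZORN

/-!
# [69fea5 F1 CHX] the minimal set of chains
-/

set_option autoImplicit false

namespace Pool.Agent.Work.MP_69fea5_lc.W3

open MeasureTheory Topology Set Filter TopologicalSpace
open scoped NNReal ENNReal
open Pool.Agent.Work.MP_69fea5_lc.AK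

namespace I_CHX

/-- A relation which is a graph in both directions propagates equality along chains. -/
theorem det {X' F : Type} {q : X' → F} {Γ : Set (F × F)} {E : Set X'}
    (hg : ∀ p ∈ Γ, ∀ p' ∈ Γ, p.1 = p'.1 ↔ p.2 = p'.2) {ξ ξ' : ℕ → X'}
    (h : ∀ a, ξ a ∈ E ∧ (q (ξ a), q (ξ (a + 1))) ∈ Γ)
    (h' : ∀ a, ξ' a ∈ E ∧ (q (ξ' a), q (ξ' (a + 1))) ∈ Γ) (j : ℕ)
    (hj : q (ξ j) = q (ξ' j)) (a : ℕ) : q (ξ a) = q (ξ' a) := by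
  have hs : ∀ i : ℕ, q (ξ i) = q (ξ' i) ↔ q (ξ (i + 1)) = q (ξ' (i + 1)) := fun i =>
    hg _ (h i).2 _ (h' i).2
  have h0 : ∀ i : ℕ, q (ξ i) = q (ξ' i) ↔ q (ξ 0) = q (ξ' 0) := by
    intro i
    induction i with
    | zero => exact Iff.rfl
    | succ i ih => exact (hs i).symm.trans ih
  exact (h0 a).2 ((h0 j).1 hj)

end I_CHX

open I_CHX in
theorem CHX_pf (h1 : S_AUT) (h2 : S_SPN) (h3 : S_JCT) : S_CHX := by
  intro O Y C X' _ _ _ _ _ _ _ _ _ _ _ _ _ _ _ _ A ms θ v₀ v₁ E q lm hPE hv₁ hv₁b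
  obtain ⟨d, hd⟩ := hPE.pha.iso
  obtain ⟨hZ, hfr, -, -, hpair⟩ := h1 C Y (JJ A θ) d hd v₀ hPE.frm
  obtain ⟨hΓm, -, hΓg, hΓ1, hΓ2⟩ := hpair v₁ (hfr v₁ hv₁) hv₁b
  have horb₁ : orb v₁ = orb v₀ := I_ORB.orb_eq v₁ _ hZ hv₁
  rw [horb₁] at hΓ2
  have hEc : IsClosed E := hPE.spx.min.closed
  have hEi : AK.Inv E := hPE.spx.min.inv
  have hqc : Continuous q := hPE.spx.cont
  have hqe : ∀ (n : ℤ) (e : X'), q (sh n e) = sh n (q e) := hPE.spx.equi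
  have hqb : q '' E = orb v₀ := hPE.base
  -- the set of chains
  have hSc : IsClosed (ChS v₀ v₁ E q) := by
    have : ChS v₀ v₁ E q = ⋂ a : ℕ, ({ξ : ℕ → X' | ξ a ∈ E} ∩
        {ξ : ℕ → X' | (q (ξ a), q (ξ (a + 1))) ∈ orb (v₀, v₁)}) := by
      ext ξ
      simp only [ChS, mem_setOf_eq, mem_iInter, mem_inter_iff]
    rw [this]
    refine isClosed_iInter fun a => (hEc.preimage (continuous_apply a)).inter ?_
    exact hΓm.closed.preimage ((hqc.comp (continuous_apply a)).prodMk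
      (hqc.comp (continuous_apply (a + 1))))
  have hSi : AK.Inv (ChS v₀ v₁ E q) := by
    intro n ξ hξ a
    refine ⟨hEi n _ (hξ a).1, ?_⟩
    have := hΓm.inv n _ (hξ a).2
    change (q (sh n (ξ a)), q (sh n (ξ (a + 1)))) ∈ orb (v₀, v₁)
    rw [hqe, hqe]
    exact this
  have hnext : ∀ e : E, ∃ e' : E, (q e, q e') ∈ orb (v₀, v₁) := by
    intro e
    have he : q e ∈ Prod.fst '' orb (v₀, v₁) := by
      rw [hΓ1, ← hqb]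
      exact mem_image_of_mem q e.2
    obtain ⟨⟨w, w'⟩, hw, hww⟩ := he
    have hw' : w' ∈ q '' E := by
      rw [hqb, ← hΓ2]
      exact ⟨(w, w'), hw, rfl⟩
    obtain ⟨e', he', hqe'⟩ := hw'
    refine ⟨⟨e', he'⟩, ?_⟩
    change w = q e at hww
    rw [← hww]
    change (w, q e') ∈ _
    rw [hqe']
    exact hw
  choose f hf using hnext
  have hSne : (ChS v₀ v₁ E q).Nonempty := by
    obtain ⟨e0, he0⟩ := hPE.spx.min.ne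
    refine ⟨fun a => (f^[a] ⟨e0, he0⟩ : E), fun a => ⟨(f^[a] ⟨e0, he0⟩).2, ?_⟩⟩
    beta_reduce
    rw [Function.iterate_succ_apply']
    exact hf _
  -- strong proximality
  have hspr : ∀ Ξ : Set (ℕ → X'), IsClosed Ξ → AK.Inv Ξ → Ξ ⊆ ChS v₀ v₁ E q → ∀ j : ℕ,
      SPr Ξ fun ξ => q (ξ j) := by
    intro Ξ hc hi hs j
    refine h2 X' (Y × (ℕ → C)) (Y × (ℕ → C)) E q Ξ (fun ξ => q (ξ j)) hqc hqe hEc hEi hPE.spx.spr
      hc hi (fun ξ hξ a => (hs hξ a).1) ?_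
    intro ξ hξ ξ' hξ' hj a
    exact det hΓg (hs hξ) (hs hξ') j hj a
  have hcj : ∀ j : ℕ, Continuous fun ξ : ℕ → X' => q (ξ j) := fun j =>
    hqc.comp (continuous_apply j)
  -- the images of closed invariant sets of chains
  have himg : ∀ Ξ : Set (ℕ → X'), IsClosed Ξ → Ξ.Nonempty → AK.Inv Ξ → Ξ ⊆ ChS v₀ v₁ E q →
      ∀ j : ℕ, (fun ξ : ℕ → X' => q (ξ j)) '' Ξ = orb v₀ := by
    intro Ξ hc hne hi hs j
    refine hZ.min _ (hc.isCompact.image (hcj j)).isClosed (hne.image _) ?_ ?_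
    · rintro n _ ⟨ξ, hξ, rfl⟩
      exact ⟨sh n ξ, hi n ξ hξ, hqe n _⟩
    · rintro _ ⟨ξ, hξ, rfl⟩
      rw [← hqb]
      exact mem_image_of_mem q (hs hξ j).1
  obtain ⟨Ξ, hΞs, hΞm⟩ := ZORN_pf (ℕ → X') (ChS v₀ v₁ E q) hSc hSne hSi
  have hall : ∀ Ξ' : Set (ℕ → X'), IsClosed Ξ' → Ξ'.Nonempty → AK.Inv Ξ' →
      Ξ' ⊆ ChS v₀ v₁ E q → Ξ ⊆ Ξ' := by
    intro Ξ' hc hne hi hs
    obtain ⟨ξ, hξ⟩ := hΞm.ne
    have hmem : q (ξ 0) ∈ (fun ξ : ℕ → X' => q (ξ 0)) '' Ξ' := by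
      rw [himg Ξ' hc hne hi hs 0, ← hqb]
      exact mem_image_of_mem q (hΞs hξ 0).1
    obtain ⟨ξ', hξ', hqq⟩ := hmem
    obtain ⟨e, he⟩ := (h3 (ℕ → X') (Y × (ℕ → C)) (ChS v₀ v₁ E q) (fun ξ => q (ξ 0))
      (hspr _ hSc hSi subset_rfl 0)).2 ξ (hΞs hξ) ξ' (hs hξ') hqq.symm
    have hsub : orb (ξ, ξ') ⊆ Ξ ×ˢ Ξ' := by
      refine I_ORB.orb_subset _ _ (hΞm.closed.prod hc) ?_ ⟨hξ, hξ'⟩
      rintro n ⟨x, x'⟩ ⟨hx, hx'⟩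
      exact ⟨hΞm.inv n x hx, hi n x' hx'⟩
    have hee := hsub he
    exact I_ORB.min_subset Ξ Ξ' hΞm hc hi ⟨e, hee.1, hee.2⟩
  have hσc : Continuous fun (ξ : ℕ → X') (a : ℕ) => ξ (a + 1) :=
    continuous_pi fun a => continuous_apply (a + 1)
  have hσm : MinSet ((fun (ξ : ℕ → X') (a : ℕ) => ξ (a + 1)) '' Ξ) :=
    IMG_pf (ℕ → X') (ℕ → X') Ξ _ hΞm hσc.continuousOn (fun n ξ _ => rfl)
  have hσs : (fun (ξ : ℕ → X') (a : ℕ) => ξ (a + 1)) '' Ξ ⊆ ChS v₀ v₁ E q := by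
    rintro _ ⟨ξ, hξ, rfl⟩ a
    exact hΞs hξ (a + 1)
  have hσeq : Ξ = (fun (ξ : ℕ → X') (a : ℕ) => ξ (a + 1)) '' Ξ :=
    hσm.min Ξ hΞm.closed hΞm.ne hΞm.inv (hall _ hσm.closed hσm.ne hσm.inv hσs)
  refine ⟨Ξ, ⟨hΞm, hΞs, ?_, ?_, ?_, hall⟩⟩
  · intro ξ hξ
    rw [hσeq]
    exact ⟨ξ, hξ, rfl⟩
  · intro j
    exact ⟨hΞm, hcj j, fun n ξ => hqe n _, hspr Ξ hΞm.closed hΞm.inv hΞs j⟩
  · exact himg Ξ hΞm.closed hΞm.ne hΞm.inv hΞs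

end Pool.Agent.Work.MP_69fea5_lc.W3
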