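import Pool.Agent.Work.MP_69fea5_lc.W3.StmtsF1

/-!
# Item [69fea5 F1 CLF]: the class of a pair of frames over one point
-/

set_option autoImplicit false

namespace Pool.Agent.Work.MP_69fea5_lc.W3

open MeasureTheory Topology Set Filter TopologicalSpace
open scoped NNReal ENNReal
open Pool.Agent.Work.MP_69fea5_lc.AK

namespace I_CLF

theorem mem_orb {X : Type} [TopologicalSpace X] [Sys X] (x : X) : x ∈ orb x :=
  subset_closure ⟨0, by simp [sh_zero]⟩

theorem inv_orb {X : Type} [TopologicalSpace X] [Sys X] (x : X) : AK.Inv (orb x) := by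
  intro n y hy
  have h1 : MapsTo (sh n : X → X) (Set.range fun m : ℤ => sh m x)
      (Set.range fun m : ℤ => sh m x) := by
    rintro _ ⟨m, rfl⟩
    exact ⟨n + m, by simp [sh_add]⟩
  exact h1.closure (sh_cont n) hy

theorem orb_subset {X : Type} [TopologicalSpace X] [Sys X] {K : Set X} {x : X}
    (hK : IsClosed K) (hI : AK.Inv K) (hx : x ∈ K) : orb x ⊆ K :=
  closure_minimal (by rintro _ ⟨n, rfl⟩; exact hI n x hx) hK

theorem orb_eq {X : Type} [TopologicalSpace X] [Sys X] {K : Set X} (hK : MinSet K) {x : X}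
    (hx : x ∈ K) : orb x = K :=
  hK.min _ isClosed_closure ⟨x, mem_orb x⟩ (inv_orb x) (orb_subset hK.closed hK.inv hx)

/-- images of minimal orbit closures -/
theorem min_image (hU : S_ULT) {X Y : Type} [TopologicalSpace X] [Sys X] [TopologicalSpace Y]
    [T2Space Y] [Sys Y] [CompactSpace X] (q : X → Y) (hq : Continuous q)
    (he : ∀ (n : ℤ) (x : X), q (sh n x) = sh n (q x)) (x : X) (hx : MinSet (orb x)) :
    MinSet (orb (q x)) := by
  have him := (hU X).2.2 Y q inferInstance hq he x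
  refine ⟨isClosed_closure, ⟨_, mem_orb _⟩, inv_orb _, ?_⟩
  intro L hLc hLn hLi hLs
  have h2 : orb x ∩ q ⁻¹' L = orb x := by
    refine hx.min _ (hx.closed.inter (hLc.preimage hq)) ?_ ?_ inter_subset_left
    · obtain ⟨y, hy⟩ := hLn
      have := hLs hy
      rw [← him] at this
      obtain ⟨z, hz, rfl⟩ := this
      exact ⟨z, hz, hy⟩
    · intro n z hz
      refine ⟨hx.inv n z hz.1, ?_⟩
      rw [mem_preimage, he]
      exact hLi n _ hz.2
  refine Subset.antisymm hLs ?_
  rw [← him]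
  rintro _ ⟨z, hz, rfl⟩
  rw [← h2] at hz
  exact hz.2

end I_CLF

open I_CLF in
theorem CLF_pf (h1 : S_DET) (h2 : S_AUT) (h4 : S_ULT) : S_CLF := by
  classical
  intro C X _ _ _ _ _ _ _ _ J d hJ v₀ hv₀
  obtain ⟨hZm, hZf, hZb, -, -⟩ := h2 C X J d hJ v₀ hv₀
  let W := X × (ℕ → C)
  let P : Set (W × W) := {p | p.1 ∈ orb v₀ ∧ p.2 ∈ orb v₀ ∧ p.1.1 = p.2.1}
  have hPc : IsClosed P := by
    have a1 : IsClosed {p : W × W | p.1 ∈ orb v₀} := (isClosed_closure).preimage continuous_fst
    have a2 : IsClosed {p : W × W | p.2 ∈ orb v₀} := (isClosed_closure).preimage continuous_snd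
    have a3 : IsClosed {p : W × W | p.1.1 = p.2.1} :=
      isClosed_eq (continuous_fst.comp continuous_fst) (continuous_fst.comp continuous_snd)
    exact a1.inter (a2.inter a3)
  have hPi : AK.Inv P := by
    intro n p hp
    exact ⟨inv_orb v₀ n _ hp.1, inv_orb v₀ n _ hp.2.1, congrArg (sh n) hp.2.2⟩
  let D : W × W → ℕ → ℕ → ℝ := fun p i l => d (p.1.2 i) (p.2.2 l) p.1.1
  have hin : ∀ p ∈ P, ∀ i l, (p.1.2 i, p.1.1) ∈ J ∧ (p.2.2 l, p.1.1) ∈ J := by
    intro p hp i l
    refine ⟨(hZf _ hp.1).1 i, ?_⟩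
    rw [hp.2.2]
    exact (hZf _ hp.2.1).1 l
  have hDc : ContinuousOn D P := by
    refine continuousOn_pi.2 fun i => continuousOn_pi.2 fun l => ?_
    have hm : Continuous fun p : W × W => ((p.1.2 i, p.2.2 l, p.1.1) : C × C × X) := by
      refine ((continuous_apply i).comp (continuous_snd.comp continuous_fst)).prodMk
        (((continuous_apply l).comp (continuous_snd.comp continuous_snd)).prodMk
          (continuous_fst.comp continuous_fst))
    exact hJ.ipb.cont.comp hm.continuousOn fun p hp => hin p hp i l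
  have hDi : ∀ (n : ℤ), ∀ p ∈ P, D (sh n p) = D p := by
    intro n p hp
    funext i l
    exact hJ.ipb.inv n p.1.1 (p.1.2 i) (p.2.2 l) (hin p hp i l).1 (hin p hp i l).2
  -- constant on orbit closures
  have hDo : ∀ p ∈ P, ∀ p' ∈ orb p, p' ∈ P ∧ D p' = D p := by
    intro p hp p' hp'
    have hc : IsClosed {r | r ∈ P ∧ D r = D p} := by
      have := hDc.preimage_isClosed_of_isClosed hPc (isClosed_singleton (x := D p))
      exact this
    have hi : AK.Inv {r | r ∈ P ∧ D r = D p} := by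
      intro n r hr
      exact ⟨hPi n r hr.1, (hDi n r hr.1).trans hr.2⟩
    exact orb_subset hc hi ⟨hp, rfl⟩ hp'
  -- existence
  have hex : ∀ p ∈ P, ∃ c : W, (v₀, c) ∈ orb p := by
    intro p hp
    have him := (h4 (W × W)).2.2 W Prod.fst inferInstance continuous_fst (fun _ _ => rfl) p
    have h0 : v₀ ∈ orb p.1 := by
      rw [orb_eq hZm hp.1]
      exact mem_orb v₀
    rw [← him] at h0
    obtain ⟨⟨a, c⟩, hc, rfl⟩ := h0
    exact ⟨c, hc⟩
  -- injectivity
  have hinj : ∀ c c' : W, (v₀, c) ∈ P → (v₀, c') ∈ P → D (v₀, c) = D (v₀, c') → c = c' := by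
    intro c c' hc hc' hD
    refine Prod.ext (hc.2.2.symm.trans hc'.2.2) ?_
    funext l
    refine hJ.sep v₀.1 _ _ (hin _ hc 0 l).2 (hin _ hc' 0 l).2 ?_
    have hJx : IsClosed {t : C | (t, v₀.1) ∈ J} :=
      hJ.closed.preimage (continuous_id.prodMk continuous_const)
    have hsub : closure (Set.range v₀.2) ⊆ {t : C | (t, v₀.1) ∈ J} :=
      closure_minimal (by rintro _ ⟨i, rfl⟩; exact hv₀.1 i) hJx
    have hf1 : ContinuousOn (fun t : C => d t (c.2 l) v₀.1) {t : C | (t, v₀.1) ∈ J} := by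
      have hm : Continuous fun t : C => ((t, c.2 l, v₀.1) : C × C × X) :=
        continuous_id.prodMk continuous_const
      exact hJ.ipb.cont.comp hm.continuousOn fun t ht => ⟨ht, (hin _ hc 0 l).2⟩
    have hf2 : ContinuousOn (fun t : C => d t (c'.2 l) v₀.1) {t : C | (t, v₀.1) ∈ J} := by
      have hm : Continuous fun t : C => ((t, c'.2 l, v₀.1) : C × C × X) :=
        continuous_id.prodMk continuous_const
      exact hJ.ipb.cont.comp hm.continuousOn fun t ht => ⟨ht, (hin _ hc' 0 l).2⟩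
    have hcl : IsClosed {t | (t, v₀.1) ∈ J ∧ d t (c.2 l) v₀.1 - d t (c'.2 l) v₀.1 = 0} := by
      have := (hf1.sub hf2).preimage_isClosed_of_isClosed hJx (isClosed_singleton (x := (0 : ℝ)))
      exact this
    have hsub2 : closure (Set.range v₀.2) ⊆
        {t | (t, v₀.1) ∈ J ∧ d t (c.2 l) v₀.1 - d t (c'.2 l) v₀.1 = 0} := by
      refine closure_minimal ?_ hcl
      rintro _ ⟨i, rfl⟩
      refine ⟨hv₀.1 i, ?_⟩
      have := congrFun (congrFun hD i) l
      simp only [D] at this
      rw [this, sub_self]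
    have hcm : c.2 l ∈ closure (Set.range v₀.2) := hv₀.2 _ (hin _ hc 0 l).2
    have h5 := (hsub2 hcm).2
    rw [hJ.ipb.self _ _ (hin _ hc 0 l).2] at h5
    linarith
  -- the class
  let cl : W → W → W := fun v v' => if h : (v, v') ∈ P then (hex _ h).choose else v₀
  have hcl : ∀ p ∈ P, (v₀, cl p.1 p.2) ∈ orb p := by
    intro p hp
    have : cl p.1 p.2 = (hex p hp).choose := by
      simp only [cl]
      rw [dif_pos (show (p.1, p.2) ∈ P from hp)]
    rw [this]
    exact (hex p hp).choose_spec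
  have hclP : ∀ p ∈ P, (v₀, cl p.1 p.2) ∈ P ∧ D (v₀, cl p.1 p.2) = D p := fun p hp =>
    hDo p hp _ (hcl p hp)
  refine ⟨cl, ?_, ?_⟩
  · -- continuity
    intro p hp
    have hp' : p ∈ P := hp
    unfold ContinuousWithinAt
    rw [tendsto_iff_ultrafilter]
    intro G hG
    obtain ⟨c, -, hc⟩ := isCompact_univ.ultrafilter_le_nhds' (G.map fun p : W × W => cl p.1 p.2)
      univ_mem
    have hGc : Tendsto (fun p : W × W => cl p.1 p.2) G (𝓝 c) := hc
    have hGp : Tendsto (id : W × W → W × W) G (𝓝 p) := hG.trans inf_le_left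
    have hGP : ∀ᶠ r in (G : Filter (W × W)), r ∈ P := hG (inf_le_right (a := 𝓝 p) (mem_principal_self P))
    have hpair : Tendsto (fun r : W × W => ((v₀, cl r.1 r.2) : W × W)) G (𝓝 (v₀, c)) :=
      tendsto_const_nhds.prodMk_nhds hGc
    have hcP : (v₀, c) ∈ P := by
      refine hPc.mem_of_tendsto hpair (hGP.mono fun r hr => (hclP r hr).1)
    have hD1 : Tendsto D G (𝓝 (D p)) := (hDc p hp').mono_left hG
    have hD2 : Tendsto (fun r : W × W => D (v₀, cl r.1 r.2)) G (𝓝 (D (v₀, c))) := by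
      have := hDc (v₀, c) hcP
      refine Tendsto.comp this ?_
      exact tendsto_nhdsWithin_iff.2 ⟨hpair, hGP.mono fun r hr => (hclP r hr).1⟩
    have hD3 : Tendsto D G (𝓝 (D (v₀, c))) :=
      hD2.congr' (hGP.mono fun r hr => (hclP r hr).2)
    have hD4 : D (v₀, c) = D p := tendsto_nhds_unique hD3 hD1
    have : c = cl p.1 p.2 := by
      refine hinj _ _ hcP (hclP p hp').1 ?_
      rw [hD4, (hclP p hp').2]
    show Tendsto (fun p : W × W => cl p.1 p.2) G (𝓝 (cl p.1 p.2))
    rw [← this]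
    exact hGc
  · intro v hv v' hv' hvv
    have hp : ((v, v') : W × W) ∈ P := ⟨hv, hv', hvv⟩
    have hm := hcl (v, v') hp
    have hmP := hclP (v, v') hp
    have hmin : MinSet (orb ((v, v') : W × W)) := by
      have hd := (h1 C X J d hJ v (hZf v hv) v'.2 (fun l => by
        rw [hvv]; exact (hZf v' hv').1 l)).1
      have hq : Continuous fun r : W × (ℕ → C) => ((r.1, (r.1.1, r.2)) : W × W) :=
        continuous_fst.prodMk ((continuous_fst.comp continuous_fst).prodMk continuous_snd)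
      have := min_image h4 (fun r : W × (ℕ → C) => ((r.1, (r.1.1, r.2)) : W × W)) hq
        (fun _ _ => rfl) (v, v'.2) hd
      have he : ((v, (v.1, v'.2)) : W × W) = (v, v') := by
        rw [hvv]
      simp only at this
      rw [he] at this
      exact this
    refine ⟨hmP.1.2.1, hmP.1.2.2.symm, hm, ?_, ?_⟩
    · rw [orb_eq hmin hm]
      exact mem_orb _
    · intro hv0
      subst hv0
      exact hinj _ _ hmP.1 hp hmP.2

end Pool.Agent.Work.MP_69fea5_lc.W3
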