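import Pool.Agent.Work.MP_69fea5_lc.W3.StmtsM

/-!
Block [69fea5 F], main line, item CLT: small automorphisms.
-/

set_option autoImplicit false

namespace Pool.Agent.Work.MP_69fea5_lc.W3

open MeasureTheory Topology Set Filter TopologicalSpace
open scoped NNReal ENNReal
open Pool.Agent.Work.MP_69fea5_lc.AK
open Pool.Agent.Work.MP_69fea5_lc.HK (Cl DU Ar ArF ArR Dat Law LawC act near sc Pt oc Mn mr ext)
open Pool.Agent.Work.MP_69fea5_lc.KC (Agree)

namespace I_CLT

/-- a function which is constant on the orbit of a point of a closed set and continuous on the set is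
constant on the orbit closure -/
theorem const_orb {Z : Type} [TopologicalSpace Z] [Sys Z] (E : Set Z) (hE : IsClosed E)
    (f : Z → ℝ) (hf : ContinuousOn f E) (z : Z) (hz : ∀ n : ℤ, sh n z ∈ E ∧ f (sh n z) = f z) :
    ∀ p ∈ orb z, p ∈ E ∧ f p = f z := by
  have hc : IsClosed {p | p ∈ E ∧ f p = f z} := by
    have := hf.preimage_isClosed_of_isClosed hE (isClosed_singleton (x := f z))
    exact this
  have hsub : orb z ⊆ {p | p ∈ E ∧ f p = f z} := by
    refine closure_minimal ?_ hc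
    rintro _ ⟨n, rfl⟩
    exact hz n
  exact fun p hp => hsub hp

end I_CLT

open I_CLT in
theorem CLT_pf (h1 : S_AUT) : S_CLT := by
  intro Y C _ _ _ _ _ _ _ _ J d v hI hF ι U v₁ a b a' hv₁ hvt hat hab
  obtain ⟨hmin, -, -, ⟨d', hd'⟩, -⟩ := h1 C Y J d hI v hF
  set E : Set ((Y × (ℕ → C)) × (Y × (ℕ → C))) :=
    {P | P.1 ∈ orb v ∧ P.2 ∈ orb v ∧ P.1.1 = P.2.1} with hE
  have hEc : IsClosed E := by
    have c1 : IsClosed {P : (Y × (ℕ → C)) × (Y × (ℕ → C)) | P.1 ∈ orb v} :=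
      hmin.closed.preimage continuous_fst
    have c2 : IsClosed {P : (Y × (ℕ → C)) × (Y × (ℕ → C)) | P.2 ∈ orb v} :=
      hmin.closed.preimage continuous_snd
    have c3 : IsClosed {P : (Y × (ℕ → C)) × (Y × (ℕ → C)) | P.1.1 = P.2.1} :=
      isClosed_eq (continuous_fst.comp continuous_fst) (continuous_fst.comp continuous_snd)
    exact c1.inter (c2.inter c3)
  set f : (Y × (ℕ → C)) × (Y × (ℕ → C)) → ℝ := fun P => d' P.1.2 P.2.2 P.1.1 with hf
  have hfc : ContinuousOn f E := by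
    have hc : Continuous fun P : (Y × (ℕ → C)) × (Y × (ℕ → C)) =>
        ((P.1.2, P.2.2, P.1.1) : (ℕ → C) × (ℕ → C) × Y) := by fun_prop
    refine hd'.ipb.cont.comp (f := fun P : (Y × (ℕ → C)) × (Y × (ℕ → C)) =>
        ((P.1.2, P.2.2, P.1.1) : (ℕ → C) × (ℕ → C) × Y)) hc.continuousOn ?_
    rintro P ⟨p1, p2, p3⟩
    refine ⟨p1, ?_⟩
    change (P.1.1, P.2.2) ∈ orb v
    rw [p3]
    exact p2
  have hvv : v ∈ orb v := subset_closure ⟨0, sh_zero v⟩
  have hconst : ∀ i, (a i, b i) ∈ E ∧ f (a i, b i) = f (v, v₁ i) := by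
    intro i
    refine const_orb E hEc f hfc (v, v₁ i) ?_ _ (hab i)
    intro n
    obtain ⟨q1, q2⟩ := hv₁ i
    refine ⟨⟨hmin.inv n _ hvv, hmin.inv n _ q1, ?_⟩, ?_⟩
    · change sh n v.1 = sh n (v₁ i).1
      rw [q2]
    · change d' (sh n v.2) (sh n (v₁ i).2) (sh n v.1) = d' v.2 (v₁ i).2 v.1
      refine hd'.ipb.inv n v.1 v.2 (v₁ i).2 hvv ?_
      change (v.1, (v₁ i).2) ∈ orb v
      rw [← q2]
      exact q1
  obtain ⟨b', -, hb'⟩ := (isCompact_univ (X := Y × (ℕ → C))).ultrafilter_le_nhds (U.map b)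
    (by simp)
  have hbt : Tendsto b (U : Filter ι) (𝓝 b') := hb'
  have habt : Tendsto (fun i => (a i, b i)) (U : Filter ι) (𝓝 (a', b')) := hat.prodMk_nhds hbt
  have hab' : (a', b') ∈ E := hEc.mem_of_tendsto habt (Eventually.of_forall fun i => (hconst i).1)
  have hl1 : Tendsto (fun i => f (a i, b i)) (U : Filter ι) (𝓝 (f (a', b'))) := by
    have := (hfc (a', b') hab').tendsto.comp (tendsto_nhdsWithin_iff.2
      ⟨habt, Eventually.of_forall fun i => (hconst i).1⟩)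
    exact this
  have hvE : ∀ i, (v, v₁ i) ∈ E := fun i => ⟨hvv, (hv₁ i).1, (hv₁ i).2.symm⟩
  have hl2 : Tendsto (fun i => f (v, v₁ i)) (U : Filter ι) (𝓝 (f (v, v))) := by
    have := (hfc (v, v) ⟨hvv, hvv, rfl⟩).tendsto.comp (tendsto_nhdsWithin_iff.2
      ⟨(tendsto_const_nhds (x := v) (f := (U : Filter ι))).prodMk_nhds hvt,
        Eventually.of_forall hvE⟩)
    exact this
  have hl3 : f (a', b') = f (v, v) :=
    tendsto_nhds_unique hl1 (hl2.congr fun i => (hconst i).2.symm)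
  have hz : f (v, v) = 0 := hd'.ipb.self v.1 v.2 hvv
  have hs : a'.2 = b'.2 := by
    refine hd'.sep a'.1 a'.2 b'.2 hab'.1 ?_ (hl3.trans hz)
    change (a'.1, b'.2) ∈ orb v
    have h3 : a'.1 = b'.1 := hab'.2.2
    rw [h3]
    exact hab'.2.1
  have : a' = b' := Prod.ext hab'.2.2 hs
  rw [this]
  exact hbt

end Pool.Agent.Work.MP_69fea5_lc.W3
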