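import Pool.Agent.Work.MP_69fea5_lc.W3.StmtsE

/-!
Item CMP of the block F: limits of measures on pairs along an ultrafilter.
-/

set_option autoImplicit false

namespace Pool.Agent.Work.MP_69fea5_lc.W3

open MeasureTheory Topology Set Filter ProbabilityTheory
open scoped NNReal ENNReal
open Pool.Agent.Work.MP_69fea5_lc.AK
open Pool.Agent.Work.MP_69fea5_lc.N3 (W2 bx sup2 St nxt Bl3 CaseII3 GRD)

namespace I_CMP

theorem real_clopen {E : Type} [TopologicalSpace E] [MeasurableSpace E] [BorelSpace E]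
    [CompactSpace E] {ι : Type} {L : Filter ι} {μs : ι → FiniteMeasure E} {μ : FiniteMeasure E}
    (h : Tendsto μs L (𝓝 μ)) {C : Set E} (hC : IsClopen C) :
    Tendsto (fun n => (μs n : Measure E).real C) L (𝓝 ((μ : Measure E).real C)) := by
  have hc : Continuous (C.indicator (1 : E → ℝ)) :=
    (continuous_const : Continuous (1 : E → ℝ)).indicator (by simp [hC.frontier_eq])
  have key := FiniteMeasure.tendsto_iff_forall_integral_tendsto.mp h
    (BoundedContinuousFunction.mkOfCompact ⟨C.indicator (1 : E → ℝ), hc⟩)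
  simpa [integral_indicator_one hC.1.measurableSet] using key

end I_CMP

theorem CMP_pf : S_CMP := by
  intro k G τ hτ
  have hfin : ∀ n, IsFiniteMeasure (τ n) := fun n =>
    ⟨lt_of_le_of_lt (hτ n) ENNReal.one_lt_top⟩
  let σ : ℕ → FiniteMeasure (Om k × Om k) := fun n => ⟨τ n, hfin n⟩
  have hmem : ∀ n, σ n ∈ {μ : FiniteMeasure (Om k × Om k) | μ.mass ≤ 1} := by
    intro n
    change (σ n).mass ≤ 1
    have h1 : ((σ n).mass : ℝ≥0∞) ≤ ((1 : ℝ≥0) : ℝ≥0∞) := by
      rw [FiniteMeasure.ennreal_mass]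
      exact hτ n
    exact_mod_cast h1
  have hcpt := isCompact_setOfPred_finiteMeasure_le_of_compactSpace (Om k × Om k) 1
  have hle : ((G.map σ : Ultrafilter (FiniteMeasure (Om k × Om k))) :
      Filter (FiniteMeasure (Om k × Om k))) ≤
      𝓟 {μ : FiniteMeasure (Om k × Om k) | μ.mass ≤ 1} := by
    rw [le_principal_iff, Ultrafilter.mem_coe, Ultrafilter.mem_map]
    exact Filter.univ_mem' (fun n => hmem n)
  obtain ⟨μ, _, hμ⟩ := hcpt.ultrafilter_le_nhds (G.map σ) hle
  refine ⟨(μ : Measure (Om k × Om k)), inferInstance, ?_⟩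
  intro C hC
  have ht : Tendsto σ (G : Filter ℕ) (𝓝 μ) := hμ
  exact I_CMP.real_clopen ht hC

end Pool.Agent.Work.MP_69fea5_lc.W3
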