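import Pool.Agent.Work.MP_69fea5_lc.W3.StmtsT

set_option autoImplicit false

namespace Pool.Agent.Work.MP_69fea5_lc.W3

open MeasureTheory Topology Set Filter TopologicalSpace
open scoped NNReal ENNReal
open Pool.Agent.Work.MP_69fea5_lc.AK

namespace I_CTR

theorem one_iff {O : Type} [MeasurableSpace O] (m : ProbabilityMeasure O) (S : Set O) :
    m S = 1 ↔ (m : Measure O) S = 1 := by
  rw [← ProbabilityMeasure.ennreal_coeFn_eq_coeFn_toMeasure]
  exact (ENNReal.coe_eq_one).symm

/-- domination passes to limits -/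
theorem dom {O ι : Type} [TopologicalSpace O] [MeasurableSpace O] [CS O] (G : Filter ι) [G.NeBot]
    (σ ρ : ι → ProbabilityMeasure O) (σ' ρ' : ProbabilityMeasure O) (θ : ℝ≥0)
    (hσ : Tendsto σ G (𝓝 σ')) (hρ : Tendsto ρ G (𝓝 ρ'))
    (h : ∀ i, (θ : ℝ≥0∞) • (σ i : Measure O) ≤ (ρ i : Measure O)) (C : Set O) (hC : IsClosed C) :
    (θ : ℝ≥0∞) * (σ' : Measure O) C ≤ (ρ' : Measure O) C := by
  have key : ∀ f : BoundedContinuousFunction O ℝ≥0,
      (θ : ℝ≥0∞) * ∫⁻ z, f z ∂(σ' : Measure O) ≤ ∫⁻ z, f z ∂(ρ' : Measure O) := by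
    intro f
    have h1 := (ProbabilityMeasure.tendsto_iff_forall_lintegral_tendsto.1 hσ) f
    have h2 := (ProbabilityMeasure.tendsto_iff_forall_lintegral_tendsto.1 hρ) f
    have h3 : Tendsto (fun i => (θ : ℝ≥0∞) * ∫⁻ z, f z ∂(σ i : Measure O)) G
        (𝓝 ((θ : ℝ≥0∞) * ∫⁻ z, f z ∂(σ' : Measure O))) :=
      ENNReal.Tendsto.const_mul h1 (Or.inr ENNReal.coe_ne_top)
    refine le_of_tendsto_of_tendsto' h3 h2 fun i => ?_
    rw [← smul_eq_mul, ← lintegral_smul_measure]
    exact lintegral_mono' (h i) le_rfl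
  have l1 := HasOuterApproxClosed.tendsto_lintegral_apprSeq hC (σ' : Measure O)
  have l2 := HasOuterApproxClosed.tendsto_lintegral_apprSeq hC (ρ' : Measure O)
  have l3 := ENNReal.Tendsto.const_mul (a := (θ : ℝ≥0∞)) l1 (Or.inr ENNReal.coe_ne_top)
  exact le_of_tendsto_of_tendsto' l3 l2 fun i => key _

end I_CTR

open I_CTR in
theorem CTR_pf (h1 : S_PMG) (h2 : S_PRD) (h3 : S_LFT) (h4 : S_JCT) (h5 : N3.S_USG)
    (h6 : AK.S_CST) : S_CTR := by
  classical
  intro O X X' _ _ _ _ _ _ _ _ _ _ _ _ E q R ms' hS hR hRi hRE hms hmse e he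
  obtain ⟨hmin, hq, hqe, hspr⟩ := hS
  let sec : X' → Set O := fun e => {u | (u, e) ∈ R}
  have hsec : ∀ e, IsClosed (sec e) := fun e =>
    hR.preimage (Continuous.prodMk continuous_id continuous_const)
  -- the constant
  let f : X' → ℝ := fun e => ((ms' e (sec e) : ℝ≥0) : ℝ)
  have hfinv : ∀ (n : ℤ), ∀ x ∈ E, f (sh n x) = f x := by
    intro n x _
    have h7 : ms' (sh n x) (sec (sh n x)) = ms' x (sec x) := by
      rw [hmse n x, (h1 O).1 (ms' x) n _ (hsec _).measurableSet]
      congr 1
      ext z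
      constructor
      · intro hz
        have h8 := hRi (-n) (sh n z, sh n x) hz
        have h9 : sh (-n) ((sh n z, sh n x) : O × X') = (z, x) := by
          change (sh (-n) (sh n z), sh (-n) (sh n x)) = (z, x)
          rw [← sh_add, ← sh_add, neg_add_cancel, sh_zero, sh_zero]
        rw [h9] at h8
        exact h8
      · intro hz
        exact hRi n (z, x) hz
    simp only [f, h7]
  have hfusc : ∀ a : ℝ, IsClosed (E ∩ {x | a ≤ f x}) := by
    intro a
    refine hmin.closed.inter ?_
    by_cases ha : 0 ≤ a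
    · have h7 := h5 O X' R hR ⟨a, ha⟩
      have h8 : {x | a ≤ f x} = (fun x : X' => (ms' x, x)) ⁻¹'
          {p : ProbabilityMeasure O × X' | (⟨a, ha⟩ : ℝ≥0) ≤ p.1 {y | (y, p.2) ∈ R}} := by
        ext x; exact Iff.rfl
      rw [h8]
      exact h7.preimage (hms.prodMk continuous_id)
    · have h8 : {x | a ≤ f x} = univ := by
        ext x
        simp only [mem_setOf_eq, mem_univ, iff_true]
        exact (not_le.1 ha).le.trans (NNReal.coe_nonneg _)
      rw [h8]; exact isClosed_univ
  have hconst := h6 X' E f hmin hfinv hfusc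
  -- the projection
  let T : Set O := {u | ∃ e', q e' = q e ∧ (u, e') ∈ R}
  have hT : IsClosed T := by
    have h7 : T = Prod.fst '' (R ∩ {p : O × X' | q p.2 = q e}) := by
      ext u
      constructor
      · rintro ⟨e', h8, h9⟩
        exact ⟨(u, e'), ⟨h9, h8⟩, rfl⟩
      · rintro ⟨⟨u', e'⟩, ⟨h9, h8⟩, rfl⟩
        exact ⟨e', h8, h9⟩
    rw [h7]
    refine ((hR.inter ?_).isCompact.image continuous_fst).isClosed
    exact isClosed_eq (hq.comp continuous_snd) continuous_const
  have hTm := hT.measurableSet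
  have hsm := (hsec e).measurableSet
  have hsT : sec e ⊆ T := fun u hu => ⟨e, rfl, hu⟩
  -- it is enough to compare the measures
  suffices hle : (ms' e : Measure O) T ≤ (ms' e : Measure O) (sec e) by
    have h7 : {u | (∃ e', q e' = q e ∧ (u, e') ∈ R) ∧ (u, e) ∉ R} = T \ sec e := rfl
    have h8 : (ms' e : Measure O) (T \ sec e) = 0 := by
      rw [measure_diff hsT hsm.nullMeasurableSet (measure_ne_top _ _)]
      exact tsub_eq_zero_of_le hle
    rw [h7]
    change ((ms' e : Measure O) (T \ sec e)).toNNReal = 0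
    rw [h8]; rfl
  by_cases hT0 : (ms' e : Measure O) T = 0
  · rw [hT0]; exact bot_le
  let θ : ℝ≥0 := ms' e T
  have hθ : (θ : ℝ≥0∞) = (ms' e : Measure O) T :=
    ProbabilityMeasure.ennreal_coeFn_eq_coeFn_toMeasure _ _
  have hθ0 : (θ : ℝ≥0∞) ≠ 0 := by rw [hθ]; exact hT0
  have hθt : (θ : ℝ≥0∞) ≠ ⊤ := ENNReal.coe_ne_top
  let τm : Measure O := (θ : ℝ≥0∞)⁻¹ • (ms' e : Measure O).restrict T
  have hτp : IsProbabilityMeasure τm := ⟨by
    change (θ : ℝ≥0∞)⁻¹ * ((ms' e : Measure O).restrict T) univ = 1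
    rw [Measure.restrict_apply_univ, ← hθ]
    exact ENNReal.inv_mul_cancel hθ0 hθt⟩
  let τ : ProbabilityMeasure O := ⟨τm, hτp⟩
  have hτT : τm T = 1 := by
    change (θ : ℝ≥0∞)⁻¹ * ((ms' e : Measure O).restrict T) T = 1
    rw [Measure.restrict_apply_self, ← hθ]
    exact ENNReal.inv_mul_cancel hθ0 hθt
  have hτle : (θ : ℝ≥0∞) • τm ≤ (ms' e : Measure O) := by
    change (θ : ℝ≥0∞) • ((θ : ℝ≥0∞)⁻¹ • (ms' e : Measure O).restrict T) ≤ _
    rw [smul_smul, ENNReal.mul_inv_cancel hθ0 hθt, one_smul]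
    exact Measure.restrict_le_self
  -- the lift
  let Φ : O × X' → O × X := fun p => (p.1, q p.2)
  have hΦ : Continuous Φ := continuous_fst.prodMk (hq.comp continuous_snd)
  have hιc : Continuous fun u : O => (u, q e) := Continuous.prodMk continuous_id continuous_const
  let ν0 : ProbabilityMeasure (O × X) := τ.map (f := fun u => (u, q e)) hιc.measurable.aemeasurable
  have hΦR : IsClosed (Φ '' R) := (hR.isCompact.image hΦ).isClosed
  have hν0 : ν0 (Φ '' R) = 1 := by
    rw [one_iff]
    change Measure.map (fun u => (u, q e)) τm (Φ '' R) = 1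
    rw [Measure.map_apply hιc.measurable hΦR.measurableSet]
    apply le_antisymm prob_le_one
    rw [← hτT]
    refine measure_mono ?_
    rintro u ⟨e', h8, h9⟩
    exact ⟨(u, e'), h9, by simp only [Φ, h8]⟩
  obtain ⟨ν, hνR, hνΦ⟩ := h3 (O × X') (O × X) Φ R ν0 hΦ hR hν0
  let F1 : ProbabilityMeasure (O × X') → ProbabilityMeasure O :=
    fun m => m.map (f := Prod.fst) continuous_fst.measurable.aemeasurable
  let F2 : ProbabilityMeasure (O × X') → ProbabilityMeasure X' :=
    fun m => m.map (f := Prod.snd) continuous_snd.measurable.aemeasurable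
  have hF1 : Continuous F1 := ProbabilityMeasure.continuous_map continuous_fst
  have hF2 : Continuous F2 := ProbabilityMeasure.continuous_map continuous_snd
  have hF1e : ∀ (n : ℤ) m, F1 (sh n m) = sh n (F1 m) := fun n m =>
    (h1 (O × X')).2.2.2.2.2.2.2 O Prod.fst continuous_fst (fun _ _ => rfl) n m
  have hF2e : ∀ (n : ℤ) m, F2 (sh n m) = sh n (F2 m) := fun n m =>
    (h1 (O × X')).2.2.2.2.2.2.2 X' Prod.snd continuous_snd (fun _ _ => rfl) n m
  have hF1ν : F1 ν = τ := by
    apply Subtype.ext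
    change Measure.map Prod.fst (ν : Measure (O × X')) = τm
    have h7 : Measure.map Prod.fst (Measure.map Φ (ν : Measure (O × X'))) =
        Measure.map Prod.fst (ν : Measure (O × X')) := by
      rw [Measure.map_map measurable_fst hΦ.measurable]; rfl
    rw [← h7, hνΦ]
    change Measure.map Prod.fst (Measure.map (fun u => (u, q e)) τm) = τm
    rw [Measure.map_map measurable_fst hιc.measurable]
    change Measure.map id τm = τm
    exact Measure.map_id
  have hfib : ∀ m : ProbabilityMeasure (O × X'), m R = 1 →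
      Measure.map Prod.snd (Measure.map Φ (m : Measure (O × X'))) = Measure.dirac (q e) →
      F2 m {e' | e' ∈ E ∧ q e' = q e} = 1 := by
    intro m hm hm2
    rw [one_iff]
    change Measure.map Prod.snd (m : Measure (O × X')) _ = 1
    have hA : MeasurableSet {e' | e' ∈ E ∧ q e' = q e} :=
      hmin.closed.measurableSet.inter (isClosed_eq hq continuous_const).measurableSet
    rw [Measure.map_apply measurable_snd hA]
    have h8 : (m : Measure (O × X')) Rᶜ = 0 :=
      (prob_compl_eq_zero_iff hR.measurableSet).2 ((one_iff _ _).1 hm)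
    have h9 : (m : Measure (O × X')) {p | ¬ q p.2 = q e} = 0 := by
      have h10 : Measure.map Prod.snd (Measure.map Φ (m : Measure (O × X'))) {q e}ᶜ = 0 := by
        rw [hm2]; simp
      rw [Measure.map_apply measurable_snd (measurableSet_singleton _).compl,
        Measure.map_apply hΦ.measurable
          (measurable_snd (measurableSet_singleton _).compl)] at h10
      exact h10
    have h11 : (m : Measure (O × X')) (Prod.snd ⁻¹' {e' | e' ∈ E ∧ q e' = q e})ᶜ = 0 := by
      refine measure_mono_null ?_ (measure_union_null h8 h9)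
      intro p hp
      by_contra hcon
      simp only [mem_union, mem_compl_iff, mem_setOf_eq, not_or, not_not] at hcon
      exact hp ⟨hRE p hcon.1, hcon.2⟩
    exact (prob_compl_eq_zero_iff (measurable_snd hA)).1 h11
  have hν2 : F2 ν {e' | e' ∈ E ∧ q e' = q e} = 1 := by
    apply hfib ν hνR
    rw [hνΦ]
    change Measure.map Prod.snd (Measure.map (fun u => (u, q e)) τm) = _
    rw [Measure.map_map measurable_snd hιc.measurable]
    change Measure.map (fun _ : O => q e) τm = _
    rw [Measure.map_const]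
    simp [measure_univ]
  have hδ : (diracProba e) {e' | e' ∈ E ∧ q e' = q e} = 1 := by
    rw [one_iff]
    change Measure.dirac e _ = 1
    exact Measure.dirac_apply_of_mem ⟨he, rfl⟩
  obtain ⟨G, es, hG⟩ := (h4 X' X E q hspr).1 (q e)
    (fun i => if i = 0 then F2 ν else diracProba e) (by
      intro i
      by_cases hi : i = 0
      · simp only [hi, if_true]; exact hν2
      · simp only [hi, if_false]; exact hδ)
  have hG0 : Tendsto (fun n => sh n (F2 ν)) (G : Filter ℤ) (𝓝 (diracProba es)) := by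
    simpa using hG 0
  have hG1 : Tendsto (fun n => sh n (diracProba e)) (G : Filter ℤ) (𝓝 (diracProba es)) := by
    simpa using hG 1
  -- limits along `G`
  obtain ⟨e1, he1⟩ : ∃ e1, Tendsto (fun n => sh n e) (G : Filter ℤ) (𝓝 e1) := by
    obtain ⟨e1, _, he1⟩ := isCompact_univ.ultrafilter_le_nhds (G.map fun n => sh n e) (by simp)
    exact ⟨e1, he1⟩
  have hes : e1 = es := by
    have h7 : Tendsto (fun n => sh n (diracProba e)) (G : Filter ℤ) (𝓝 (diracProba e1)) := by
      have h8 : (fun n => sh n (diracProba e)) = fun n : ℤ => diracProba (sh n e) :=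
        funext fun n => (h1 X').2.1 n e
      rw [h8]
      exact (continuous_diracProba.tendsto e1).comp he1
    exact (h1 X').2.2.2.1 (tendsto_nhds_unique h7 hG1)
  subst hes
  have hesE : e1 ∈ E := hmin.closed.mem_of_tendsto he1
    (Filter.Eventually.of_forall fun n => hmin.inv n e he)
  obtain ⟨νs, hνs⟩ : ∃ νs, Tendsto (fun n => sh n ν) (G : Filter ℤ) (𝓝 νs) := by
    obtain ⟨νs, _, hνs⟩ := isCompact_univ.ultrafilter_le_nhds (G.map fun n => sh n ν) (by simp)
    exact ⟨νs, hνs⟩
  have hνsR : νs R = 1 := by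
    refine (h1 (O × X')).2.2.2.2.2.1 R hR hRi ν hνR νs ?_
    exact mem_closure_of_tendsto hνs (Filter.Eventually.of_forall fun n => ⟨n, rfl⟩)
  have hνs2 : F2 νs = diracProba e1 := by
    have h7 : Tendsto (fun n => F2 (sh n ν)) (G : Filter ℤ) (𝓝 (F2 νs)) :=
      (hF2.tendsto νs).comp hνs
    simp only [hF2e] at h7
    exact tendsto_nhds_unique h7 hG0
  have hνs1 : Tendsto (fun n => sh n τ) (G : Filter ℤ) (𝓝 (F1 νs)) := by
    have h7 : Tendsto (fun n => F1 (sh n ν)) (G : Filter ℤ) (𝓝 (F1 νs)) :=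
      (hF1.tendsto νs).comp hνs
    simp only [hF1e, hF1ν] at h7
    exact h7
  have hmsl : Tendsto (fun n => sh n (ms' e)) (G : Filter ℤ) (𝓝 (ms' e1)) := by
    have h8 : (fun n => sh n (ms' e)) = fun n : ℤ => ms' (sh n e) :=
      funext fun n => (hmse n e).symm
    rw [h8]
    exact (hms.tendsto e1).comp he1
  have hdom : ∀ n : ℤ, (θ : ℝ≥0∞) • ((sh n τ : ProbabilityMeasure O) : Measure O) ≤
      ((sh n (ms' e) : ProbabilityMeasure O) : Measure O) := by
    intro n
    change (θ : ℝ≥0∞) • Measure.map (sh n : O → O) τm ≤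
      Measure.map (sh n : O → O) (ms' e : Measure O)
    rw [← Measure.map_smul]
    exact Measure.map_mono hτle (sh_cont n).measurable
  have hfinal := dom (G : Filter ℤ) (fun n => sh n τ) (fun n => sh n (ms' e)) (F1 νs) (ms' e1) θ
    hνs1 hmsl hdom (sec e1) (hsec e1)
  have hone : (F1 νs : Measure O) (sec e1) = 1 := by
    have h7 := h2 O X' νs e1 (congrArg Subtype.val hνs2)
    have h8 : (νs : Measure (O × X')) R = 1 := (one_iff _ _).1 hνsR
    rw [h7] at h8
    have hc : Continuous fun u : O => (u, e1) := Continuous.prodMk continuous_id continuous_const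
    rw [Measure.map_apply hc.measurable hR.measurableSet] at h8
    exact h8
  rw [hone, mul_one, hθ] at hfinal
  refine hfinal.trans (le_of_eq ?_)
  have h7 := hconst e1 hesE e he
  have h8 : ms' e1 (sec e1) = ms' e (sec e) := NNReal.coe_injective h7
  rw [← ProbabilityMeasure.ennreal_coeFn_eq_coeFn_toMeasure,
    ← ProbabilityMeasure.ennreal_coeFn_eq_coeFn_toMeasure, h8]

end Pool.Agent.Work.MP_69fea5_lc.W3
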