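import Pool.Agent.Work.MP_69fea5_lc.W3.StmtsE

set_option autoImplicit false

namespace Pool.Agent.Work.MP_69fea5_lc.W3

open MeasureTheory Topology Set Filter ProbabilityTheory
open scoped NNReal ENNReal
open Pool.Agent.Work.MP_69fea5_lc.AK
open Pool.Agent.Work.MP_69fea5_lc.N3 (W2 bx sup2 St nxt Bl3 CaseII3 GRD)

namespace I_DEC

variable {k : ℕ}

theorem perm {X : Type} [TopologicalSpace X] [Sys X]
    (π : Om k × Om k × Om k → Om k × Om k × Om k) (hπ : Continuous π)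
    (he : ∀ (n : ℤ) (t : Om k × Om k × Om k), π (sh n t) = sh n (π t))
    (N : Set ((Om k × Om k × Om k) × X)) (hc : IsClosed N) (hi : AK.Inv N) :
    IsClosed {q : (Om k × Om k × Om k) × X | (π q.1, q.2) ∈ N} ∧
    AK.Inv {q : (Om k × Om k × Om k) × X | (π q.1, q.2) ∈ N} := by
  refine ⟨hc.preimage (by fun_prop), ?_⟩
  rintro n ⟨t, y⟩ hq
  have h := hi n _ hq
  change (π (sh n t), sh n y) ∈ N
  rw [he]
  exact h

theorem sdf0 (ν : Measure (Om k × Om k)) [IsFiniteMeasure ν] (A B : Set (Om k × Om k))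
    (h : sdf ν A B = 0) : ν (A \ B) = 0 := by
  unfold sdf at h
  have h1 : 0 ≤ ν.real (A \ B) := measureReal_nonneg
  have h2 : 0 ≤ ν.real (B \ A) := measureReal_nonneg
  have h3 : ν.real (A \ B) = 0 := by linarith
  exact (measureReal_eq_zero_iff).1 h3

end I_DEC

open I_DEC in
theorem DEC_pf (h1 : S_MCE) (h2 : S_FUB) : S_DEC := by
  intro k X _ _ _ _ c x x1 μ0 μ1 μ2 C κ1 κ2 E N hN hI
  have hp1 := E.p1
  have hp2 := E.p2
  -- the closed invariant sets with permuted coordinates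
  have hA := perm (X := X) (fun t : Om k × Om k × Om k => (t.2.1, t.1, t.2.2)) (by fun_prop)
    (fun n t => rfl) N hN hI
  have hB := perm (X := X) (fun t : Om k × Om k × Om k => (t.2.1, t.2.2, t.1)) (by fun_prop)
    (fun n t => rfl) N hN hI
  have hC := perm (X := X) (fun t : Om k × Om k × Om k => (t.1, t.2.2, t.2.1)) (by fun_prop)
    (fun n t => rfl) N hN hI
  have hD := perm (X := X) (fun t : Om k × Om k × Om k => (t.2.2, t.1, t.2.1)) (by fun_prop)
    (fun n t => rfl) N hN hI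
  have cA := (h1 k X (MS μ1 x) μ0 μ2 E.m1 E.c0 E.c2 E.e0 E.e2 _ hA.1 hA.2).2
  have cB := (h1 k X (MS μ2 x) μ0 μ1 E.m2 E.c0 E.c1 E.e0 E.e1 _ hB.1 hB.2).2
  have cC := (h1 k X (MS μ0 x) μ2 μ1 E.m0 E.c2 E.c1 E.e2 E.e1 _ hC.1 hC.2).2
  have cD := (h1 k X (MS μ1 x) μ2 μ0 E.m1 E.c2 E.c0 E.e2 E.e0 _ hD.1 hD.2).2
  constructor
  · refine h2 k κ1 κ2 (μ0 x : Measure (Om k)) {t | (t, x) ∈ N}
      (hN.preimage (by fun_prop)).measurableSet ?_ ?_
    · filter_upwards [E.d1] with m hm u hu u' hu'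
      have h := (hm u hu u' hu').1 _ cA
      rw [E.b2]
      exact sdf0 _ _ _ h
    · filter_upwards [E.d2] with m hm v hv v' hv'
      have h := (hm v hv v' hv').1 _ cB
      rw [E.b1]
      exact sdf0 _ _ _ h
  · refine h2 k κ1 κ2 (μ2 x1 : Measure (Om k)) {t | ((t.2.1, t.2.2, t.1), x1) ∈ N}
      (hN.preimage (by fun_prop)).measurableSet ?_ ?_
    · filter_upwards [E.d1] with m hm w hw w' hw'
      have h := (hm w hw w' hw').2 _ cC
      rw [E.b2, ← E.s1]
      exact sdf0 _ _ _ h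
    · filter_upwards [E.d2] with m hm u hu u' hu'
      have h := (hm u hu u' hu').2 _ cD
      rw [E.b1, ← E.s0]
      exact sdf0 _ _ _ h

end Pool.Agent.Work.MP_69fea5_lc.W3
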