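import Pool.Agent.Work.MP_69fea5_lc.W3.CodA

/-!
# Wave 3, coding: averages, energy, test-function actions
-/

set_option autoImplicit false
set_option linter.unusedSectionVars false
set_option linter.unusedVariables false
set_option linter.deprecated false

open Filter Topology MeasureTheory
open scoped ENNReal

namespace Pool.Agent.Work.MP_69fea5_lc.W3

open Pool.Agent.Work.MP_69fea5_lc
open Pool.Agent.Work.MP_69fea5_lc.HK (Cl DU Ar ArF ArR Dat Law LawC act near sc Pt oc Mn mr)
open Pool.Agent.Work.MP_69fea5_lc.KC (Agree oc_eq minSet_of_Mn)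

/-! ### Sums over lists -/

/-- the value of `g` at the `i`-th element of the list, `0` if there is none -/
noncomputable def gi {κ : Type*} (g : κ → ℝ) (l : List κ) (i : ℕ) : ℝ := (l[i]?).elim 0 g

theorem sum_gi {κ : Type*} (g : κ → ℝ) (l : List κ) :
    (l.map g).sum = ∑ i ∈ Finset.range l.length, gi g l i := by
  induction l with
  | nil => simp
  | cons a l ih =>
    rw [List.length_cons, Finset.sum_range_succ', List.map_cons, List.sum_cons, ih]
    have h1 : gi g (a :: l) 0 = g a := by simp [gi]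
    have h2 : ∀ i, gi g (a :: l) (i + 1) = gi g l i := fun i => by simp [gi]
    rw [h1, add_comm]
    simp only [h2]

theorem arR_gi {S : Set (Set ℕ)} (hS : Cl S) {β κ : Type*} [Primcodable β] [Primcodable κ]
    {g : β → κ → ℝ} (hg : ArR S fun p : β × κ => g p.1 p.2) :
    ArR S fun p : (β × List κ) × ℕ => gi (g p.1.1) p.1.2 p.2 := by
  refine Ar.congr (R := fun q : ((β × List κ) × ℕ) × ℕ × ℕ => ∃ x : κ,
    q.1.1.2[q.1.2]? = some x ∧ (q.2.1 : ℝ) < g q.1.1.1 x * (q.2.2 + 1)) ?_ ?_
  · refine Ar.ex hS (R := fun (q : ((β × List κ) × ℕ) × ℕ × ℕ) (x : κ) =>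
      q.1.1.2[q.1.2]? = some x ∧ (q.2.1 : ℝ) < g q.1.1.1 x * (q.2.2 + 1)) ?_
    refine Ar.and hS ?_ ?_
    · refine Ar.eq hS (ArF.of_primrec hS ?_) (ArF.of_primrec hS ?_)
      · exact Primrec.list_getElem?.comp
          (Primrec.snd.comp (Primrec.fst.comp (Primrec.fst.comp Primrec.fst)))
          (Primrec.snd.comp (Primrec.fst.comp Primrec.fst))
      · exact Primrec.option_some.comp Primrec.snd
    · exact HK.ArR.lt hS hg (g := fun q : (((β × List κ) × ℕ) × ℕ × ℕ) × κ =>
        (q.1.1.1.1, q.2)) (ArF.of_primrec hS ((Primrec.fst.comp (Primrec.fst.comp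
          (Primrec.fst.comp Primrec.fst))).pair Primrec.snd))
        (ArF.of_primrec hS (Primrec.fst.comp (Primrec.snd.comp Primrec.fst)))
        (ArF.of_primrec hS (Primrec.snd.comp (Primrec.snd.comp Primrec.fst)))
  · rintro ⟨⟨⟨b, l⟩, i⟩, r, s⟩
    show ((r : ℝ) < gi (g b) l i * (s + 1)) ↔ _
    unfold gi
    cases h : l[i]? with
    | none =>
      simp only [Option.elim_none, zero_mul, h]
      constructor
      · intro h1
        exact absurd h1 (not_lt.2 (Nat.cast_nonneg r))
      · rintro ⟨x, hx, -⟩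
        cases hx
    | some y => simp [h]

/-- finite sums over lists -/
theorem arR_sumList {S : Set (Set ℕ)} (hS : Cl S) {β κ : Type*} [Primcodable β] [Primcodable κ]
    {g : β → κ → ℝ} (hg : ArR S fun p : β × κ => g p.1 p.2) (g0 : ∀ b x, 0 ≤ g b x) :
    ArR S fun p : β × List κ => (p.2.map (g p.1)).sum := by
  refine (HK.ArR.sum hS (f := fun (p : β × List κ) i => gi (g p.1) p.2 i) (arR_gi hS hg)
    (fun p i => ?_) (g := fun p : β × List κ => p.2.length)
    (ArF.of_primrec hS (Primrec.list_length.comp Primrec.snd))).congr fun p => sum_gi _ _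
  unfold gi
  cases h : p.2[i]? with
  | none => simp
  | some y => simpa [h] using g0 _ _

/-! ### Averages of measures -/

section avg

variable {α ι : Type} [TopologicalSpace α] [MeasurableSpace α] [CS α]

/-- the average of the measures `m i`, `i ∈ p.1 :: p.2` -/
noncomputable def mxM (m : ι → ProbabilityMeasure α) (p : ι × List ι) : Measure α :=
  ((p.2.length + 1 : ℕ) : ℝ≥0∞)⁻¹ • ((p.1 :: p.2).map fun i => (m i : Measure α)).sum

theorem sum_univ (m : ι → ProbabilityMeasure α) (l : List ι) :
    ((l.map fun i => (m i : Measure α)).sum : Measure α) Set.univ = l.length := by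
  induction l with
  | nil => simp
  | cons a l ih => simp [ih, add_comm]

instance mxM_prob (m : ι → ProbabilityMeasure α) (p : ι × List ι) :
    IsProbabilityMeasure (mxM m p) := by
  constructor
  unfold mxM
  rw [Measure.smul_apply, sum_univ]
  simp only [List.length_cons, smul_eq_mul]
  exact ENNReal.inv_mul_cancel (by simp) (by simp)

/-- the same as a probability measure -/
noncomputable def mxP (m : ι → ProbabilityMeasure α) (p : ι × List ι) : ProbabilityMeasure α :=
  ⟨mxM m p, mxM_prob m p⟩

theorem integral_sum (m : ι → ProbabilityMeasure α) (f : α → ℝ) (hf : Continuous f)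
    (l : List ι) : ∫ x, f x ∂((l.map fun i => (m i : Measure α)).sum) =
      (l.map fun i => ∫ x, f x ∂(m i : Measure α)).sum := by
  have hint : ∀ ν : Measure α, IsFiniteMeasure ν → Integrable f ν := fun ν hν =>
    (BoundedContinuousFunction.mkOfCompact ⟨f, hf⟩).integrable ν
  have hfin : ∀ l : List ι, IsFiniteMeasure ((l.map fun i => (m i : Measure α)).sum) := by
    intro l
    constructor
    rw [sum_univ]
    exact ENNReal.natCast_lt_top _
  induction l with
  | nil => simp
  | cons a l ih =>
    simp only [List.map_cons, List.sum_cons]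
    rw [integral_add_measure (hint _ inferInstance) (hint _ (hfin l)), ih]

theorem integral_mxP (m : ι → ProbabilityMeasure α) (p : ι × List ι) (f : α → ℝ)
    (hf : Continuous f) : ∫ x, f x ∂(mxP m p : Measure α) =
      ((p.1 :: p.2).map fun i => ∫ x, f x ∂(m i : Measure α)).sum / ((p.2.length : ℝ) + 1) := by
  show ∫ x, f x ∂(mxM m p) = _
  unfold mxM
  rw [integral_smul_measure, integral_sum m f hf, smul_eq_mul, ENNReal.toReal_inv,
    ENNReal.toReal_natCast, inv_mul_eq_div]
  push_cast
  rfl

theorem mxP_apply (m : ι → ProbabilityMeasure α) (p : ι × List ι) (B : Set α) :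
    (mxP m p : Measure α) B = ((p.2.length + 1 : ℕ) : ℝ≥0∞)⁻¹ *
      ((p.1 :: p.2).map fun i => (m i : Measure α) B).sum := by
  show mxM m p B = _
  unfold mxM
  rw [Measure.smul_apply, smul_eq_mul]
  congr 1
  generalize (p.1 :: p.2) = l
  induction l with
  | nil => simp
  | cons a l ih => simp only [List.map_cons, List.sum_cons, Measure.add_apply, ih]

variable [Dat α] [TF α] [Primcodable ι] {S : Set (Set ℕ)}

theorem mo_mxP (m : ι → ProbabilityMeasure α) (p : ι × List ι) (i : TF.ι α) :
    mo (mxP m p) i = ((p.1 :: p.2).map fun j => mo (m j) i).sum / ((p.2.length : ℝ) + 1) :=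
  integral_mxP m p _ (TF.cont i)

/-- averages of coded measures are coded -/
theorem sc_mxP [Dat (ProbabilityMeasure α)] [CP α] (hS : Cl S) {m : ι → ProbabilityMeasure α}
    (hm : sc S m) : sc S fun p : ι × List ι => mxP m p := by
  rw [CP.sc_iff S hS] at hm ⊢
  have h1 : ArR S fun p : TF.ι α × List ι => (p.2.map fun j => mo (m j) p.1).sum :=
    arR_sumList hS (g := fun (i : TF.ι α) (j : ι) => mo (m j) i)
      (HK.ArR.comp hS hm (g := fun p : TF.ι α × ι => (p.2, p.1))
        (Primrec.snd.pair Primrec.fst)) fun _ _ => mo_nn _ _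
  refine (HK.ArR.divn hS (f := fun p : (ι × List ι) × TF.ι α =>
    ((p.1.1 :: p.1.2).map fun j => mo (m j) p.2).sum) ?_ (fun p => ?_)
    (v := fun p => p.1.2.length) ?_).congr fun p => mo_mxP _ _ _
  · exact HK.ArR.comp hS h1 (g := fun p : (ι × List ι) × TF.ι α => (p.2, p.1.1 :: p.1.2))
      (Primrec.snd.pair (Primrec.list_cons.comp (Primrec.fst.comp Primrec.fst)
        (Primrec.snd.comp Primrec.fst)))
  · exact List.sum_nonneg (by
      intro r hr
      obtain ⟨j, -, rfl⟩ := List.mem_map.1 hr
      exact mo_nn _ _)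
  · exact ArF.of_primrec hS (Primrec.list_length.comp (Primrec.snd.comp Primrec.fst))

/-- point masses of coded points are coded -/
theorem sc_dirac [Dat (ProbabilityMeasure α)] [CP α] (hS : Cl S) {w : ι → α} (hw : sc S w) :
    sc S fun i => (diracProba (w i) : ProbabilityMeasure α) := by
  rw [CP.sc_iff S hS]
  rw [TF.sc_iff S hS] at hw
  refine HK.ArR.congr hw fun p => ?_
  unfold mo
  exact integral_dirac _ _

end avg

/-! ### Coded test functions and the energy -/

section energy

variable {α : Type} [TopologicalSpace α] [MeasurableSpace α] [CS α] [Dat α] [TF α]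

/-- the sequence of the coded test functions -/
noncomputable def tfs (α : Type) [TopologicalSpace α] [Dat α] [TF α] (i : ℕ) (x : α) : ℝ :=
  TF.fn ((Encodable.decode (α := TF.ι α) i).getD TF.one) x

theorem sep_tfs : Sep (tfs α) where
  cont i := TF.cont _
  bd i z := by
    have h := TF.nn (α := α) ((Encodable.decode i).getD TF.one) z
    have h' := TF.le (α := α) ((Encodable.decode i).getD TF.one) z
    unfold tfs
    exact abs_le.2 ⟨by linarith, h'⟩
  sep m m' h := mo_ext fun i => by
    have := h (Encodable.encode i)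
    simpa [tfs, mo] using this

/-- the energy is coded -/
theorem arR_En {S : Set (Set ℕ)} [Dat (ProbabilityMeasure α)] [CP α] (hS : Cl S) {β : Type}
    [Primcodable β] {m : β → ProbabilityMeasure α} (hm : sc S m) :
    ArR S fun b => En (tfs α) (m b) := by
  rw [CP.sc_iff S hS] at hm
  have h2 : ArR S fun p : β × ℕ => mo (m p.1) ((Encodable.decode p.2).getD TF.one) :=
    HK.ArR.comp hS hm (g := fun p : β × ℕ => (p.1, (Encodable.decode p.2).getD TF.one))
      (Primrec.fst.pair (Primrec.option_getD.comp (Primrec.decode.comp Primrec.snd)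
        (Primrec.const _)))
  have h3 : ArR S fun p : β × ℕ => (1 / 2 : ℝ) ^ p.2 *
      (mo (m p.1) ((Encodable.decode p.2).getD TF.one) *
        mo (m p.1) ((Encodable.decode p.2).getD TF.one)) :=
    HK.ArR.mul hS (HK.ArR.half_pow hS (ArF.snd hS))
      (HK.ArR.mul hS h2 h2 (fun _ => mo_nn _ _) fun _ => mo_nn _ _)
      (fun _ => by positivity) fun _ => mul_nonneg (mo_nn _ _) (mo_nn _ _)
  have h4 := HK.ArR.tsum hS (f := fun (b : β) (i : ℕ) => (1 / 2 : ℝ) ^ i *
      (mo (m b) ((Encodable.decode i).getD TF.one) *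
        mo (m b) ((Encodable.decode i).getD TF.one))) h3
    (fun b i => mul_nonneg (by positivity) (mul_nonneg (mo_nn _ _) (mo_nn _ _)))
    (fun b => Summable.of_nonneg_of_le
      (fun i => mul_nonneg (by positivity) (mul_nonneg (mo_nn _ _) (mo_nn _ _)))
      (fun i => by
        have h5 : mo (m b) ((Encodable.decode i).getD TF.one) *
            mo (m b) ((Encodable.decode i).getD TF.one) ≤ 1 :=
          mul_le_one₀ (mo_le _ _) (mo_nn _ _) (mo_le _ _)
        have h6 : (0 : ℝ) ≤ (1 / 2 : ℝ) ^ i := by positivity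
        calc (1 / 2 : ℝ) ^ i * (mo (m b) ((Encodable.decode i).getD TF.one) *
              mo (m b) ((Encodable.decode i).getD TF.one))
            ≤ (1 / 2 : ℝ) ^ i * 1 := mul_le_mul_of_nonneg_left h5 h6
          _ = (1 / 2 : ℝ) ^ i := mul_one _)
      summable_geometric_two)
  refine h4.congr fun b => ?_
  unfold En
  refine tsum_congr fun i => ?_
  rw [sq]
  rfl

end energy

/-! ### Actions which act on the test functions -/

section tact

variable {α β γ : Type} [TopologicalSpace α] [Dat α] [TF α] [TopologicalSpace β] [Dat β] [TF β]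
  [Primcodable γ]

/-- the maps `A g` are continuous and act on the test functions by `σ g` -/
structure TAct (A : γ → α → α) (σ : γ → TF.ι α → TF.ι α) : Prop where
  prim : Primrec₂ σ
  cont : ∀ g, Continuous (A g)
  eq : ∀ g i x, TF.fn i (A g x) = TF.fn (σ g i) x

theorem TAct.cact {S : Set (Set ℕ)} (hS : Cl S) {A : γ → α → α} {σ : γ → TF.ι α → TF.ι α}
    (h : TAct A σ) : CAct S A := by
  intro δ _ w hw
  rw [TF.sc_iff S hS] at hw ⊢
  refine (HK.ArR.comp hS hw (g := fun p : (δ × γ) × TF.ι α => (p.1.1, σ p.1.2 p.2))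
    ((Primrec.fst.comp Primrec.fst).pair (h.prim.comp (Primrec.snd.comp Primrec.fst)
      Primrec.snd))).congr fun p => ?_
  exact h.eq _ _ _

/-- powers of the shift, coordinatewise -/
def vec {κ : Type} (l : γ → κ → ℤ) (g : γ) (w : κ → α) : κ → α := fun i => act (l g i) (w i)

theorem tact_vec {κ : Type} [Primcodable κ] [Law α] {l : γ → κ → ℤ} (hl : Primrec₂ l) :
    TAct (vec (α := α) l) (fun g (L : List (κ × TF.ι α)) =>
      L.map fun p => (p.1, TF.shf (l g p.1) p.2)) where
  prim := Primrec.list_map Primrec.snd (((Primrec.fst.comp Primrec.snd).pair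
    (TF.shf_prim.comp (hl.comp (Primrec.fst.comp Primrec.fst) (Primrec.fst.comp Primrec.snd))
      (Primrec.snd.comp Primrec.snd)))).to₂
  cont g := continuous_pi fun i => (Law.cont (l g i)).comp (continuous_apply i)
  eq g L x := by
    show (List.map _ L).prod = (List.map _ (List.map _ L)).prod
    rw [List.map_map]
    congr 1
    refine List.map_congr_left fun p _ => ?_
    exact TF.fn_act _ _ _

theorem TAct.prod {A : γ → α → α} {σ : γ → TF.ι α → TF.ι α} (h : TAct A σ) {B : γ → β → β}
    {τ : γ → TF.ι β → TF.ι β} (h' : TAct B τ) :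
    TAct (fun g (p : α × β) => (A g p.1, B g p.2)) (fun g i => (σ g i.1, τ g i.2)) where
  prim := (h.prim.comp Primrec.fst (Primrec.fst.comp Primrec.snd)).pair
    (h'.prim.comp Primrec.fst (Primrec.snd.comp Primrec.snd))
  cont g := ((h.cont g).comp continuous_fst).prodMk ((h'.cont g).comp continuous_snd)
  eq g i x := by
    show TF.fn i.1 _ * TF.fn i.2 _ = TF.fn (σ g i.1) _ * TF.fn (τ g i.2) _
    rw [h.eq, h'.eq]

variable [MeasurableSpace α] [CS α] [Law α]

/-- push-forward -/
noncomputable def psh (A : γ → α → α) (hA : ∀ g, Continuous (A g)) (g : γ)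
    (m : ProbabilityMeasure α) : ProbabilityMeasure α :=
  m.map (f := A g) (hA g).measurable.aemeasurable

theorem mo_psh {A : γ → α → α} {σ : γ → TF.ι α → TF.ι α} (h : TAct A σ) (g : γ)
    (m : ProbabilityMeasure α) (i : TF.ι α) : mo (psh A h.cont g m) i = mo m (σ g i) := by
  unfold mo psh
  rw [ProbabilityMeasure.toMeasure_map, integral_map (h.cont g).measurable.aemeasurable
    (TF.cont i).aestronglyMeasurable]
  simp only [h.eq]

theorem continuous_psh {A : γ → α → α} (hA : ∀ g, Continuous (A g)) (g : γ) :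
    Continuous (psh A hA g) := ProbabilityMeasure.continuous_map (hA g)

theorem cact_psh {S : Set (Set ℕ)} (hS : Cl S) [Dat (ProbabilityMeasure α)] [CP α]
    {A : γ → α → α} {σ : γ → TF.ι α → TF.ι α} (h : TAct A σ) :
    CAct S (psh A h.cont) := by
  intro δ _ w hw
  rw [CP.sc_iff S hS] at hw ⊢
  refine (HK.ArR.comp hS hw (g := fun p : (δ × γ) × TF.ι α => (p.1.1, σ p.1.2 p.2))
    ((Primrec.fst.comp Primrec.fst).pair (h.prim.comp (Primrec.snd.comp Primrec.fst)
      Primrec.snd))).congr fun p => ?_
  exact mo_psh h _ _ _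

end tact

/-! ### Kernels which are unique measures of least energy -/

section kernel

variable {S : Set (Set ℕ)} {U : Ultrafilter ℕ} {W Z γ : Type} [TopologicalSpace W]
  [MeasurableSpace W] [CS W] [Dat W] [Law W] [LawC W] [TF W] [TopologicalSpace Z] [T2Space Z]
  [Dat Z] [Law Z] [LawC Z] [Primcodable γ] [Dat (ProbabilityMeasure W)]
  [Law (ProbabilityMeasure W)] [LawC (ProbabilityMeasure W)] [CP W]

/-- Let `A` act on `W`, `B` on `Z`, `w₀ ∈ W` and `z₀ ∈ Z` coded. The kernel `K'` is coded on the
fibre over `z₀` of the orbit closure of `(z₀, w₀)`, and `m` is the only measure in the closure of the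
averages of the `K' w`, `w` in this fibre, whose translates have energy at most `E`. Then `m` is
coded. -/
theorem pt_kernel (hS : Cl S) (hU : DU S U) {A : γ → W → W} {σ : γ → TF.ι W → TF.ι W}
    (hA : TAct A σ) {B : γ → Z → Z} (hB : CAct S B) {e : γ} {z₀ : Z} {w₀ : W} (hBe : B e z₀ = z₀)
    (hz₀ : Pt S z₀) (hw₀ : Pt S w₀) {K' : W → ProbabilityMeasure W} (hEn : Continuous
      fun m : ProbabilityMeasure W => En (tfs W) m)
    (hK' : ∀ (ι : Type) [Primcodable ι] (u : ι → W), sc S u →
      (∀ i, (z₀, u i) ∈ och (fun g (p : Z × W) => (B g p.1, A g p.2)) (z₀, w₀)) →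
        sc S fun i => K' (u i))
    (hcK : ContinuousOn K' {w | (z₀, w) ∈ och (fun g (p : Z × W) => (B g p.1, A g p.2)) (z₀, w₀)})
    {m : ProbabilityMeasure W} {E : ℝ} (hE : ∀ g, En (tfs W) (psh A hA.cont g m) ≤ E)
    (hm : ∀ u : γ × ℕ → W,
      (∀ i, (z₀, u i) ∈ och (fun g (p : Z × W) => (B g p.1, A g p.2)) (z₀, w₀)) →
      (∀ w, (z₀, w) ∈ och (fun g (p : Z × W) => (B g p.1, A g p.2)) (z₀, w₀) →
        w ∈ closure (Set.range u)) →
      m ∈ closure (Set.range fun p : (γ × ℕ) × List (γ × ℕ) => mxP (fun i => K' (u i)) p) ∧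
      ∀ ν ∈ closure (Set.range fun p : (γ × ℕ) × List (γ × ℕ) => mxP (fun i => K' (u i)) p),
        (∀ g, En (tfs W) (psh A hA.cont g ν) ≤ E) → ν = m) : Pt S m := by
  obtain ⟨u, hu, hu1, hu2⟩ := exists_dense_fibre_g (α := Z) (β := W) hS hU hB (hA.cact hS) hBe
    hz₀ hw₀
  obtain ⟨h1, h2⟩ := hm u hu1 hu2
  have h3 : sc S fun i => K' (u i) := hK' _ u hu hu1
  have h4 : sc S fun p : (γ × ℕ) × List (γ × ℕ) => mxP (fun i => K' (u i)) p := sc_mxP hS h3
  refine pt_of_unique hS hU h4 (e := fun g (ν : ProbabilityMeasure W) =>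
    En (tfs W) (psh A hA.cont g ν)) (fun g => hEn.comp (continuous_psh hA.cont g))
    (fun g ν => tsum_nonneg fun i => by positivity) ?_ h1 hE h2
  have h5 : sc S fun p : ((γ × ℕ) × List (γ × ℕ)) × γ =>
      psh A hA.cont p.2 (mxP (fun i => K' (u i)) p.1) := cact_psh hS hA _ _ h4
  exact arR_En hS h5

end kernel

end Pool.Agent.Work.MP_69fea5_lc.W3
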