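import Pool.Agent.Work.MP_69fea5_lc.W3.StmtsT

set_option autoImplicit false

namespace Pool.Agent.Work.MP_69fea5_lc.W3

open MeasureTheory Topology Set Filter TopologicalSpace
open scoped NNReal ENNReal
open Pool.Agent.Work.MP_69fea5_lc.AK

namespace I_PMG

section

variable {O : Type} [TopologicalSpace O] [MeasurableSpace O] [CS O]

theorem coe_iff (m : ProbabilityMeasure O) (B : Set O) (a : ℝ≥0) :
    m B = a ↔ (m : Measure O) B = (a : ℝ≥0∞) := by
  rw [← ProbabilityMeasure.ennreal_coeFn_eq_coeFn_toMeasure]
  exact ENNReal.coe_inj.symm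

theorem one_iff (m : ProbabilityMeasure O) (B : Set O) :
    m B = 1 ↔ (m : Measure O) B = 1 := by
  rw [coe_iff]
  rfl

theorem closed_one (F : Set O) (hF : IsClosed F) :
    IsClosed {m : ProbabilityMeasure O | m F = 1} := by
  have h := N3.USG_pf O Unit {p | p.1 ∈ F} (hF.preimage continuous_fst) 1
  have h2 := h.preimage
    (Continuous.prodMk continuous_id continuous_const :
      Continuous fun m : ProbabilityMeasure O => (m, ()))
  have h3 : {m : ProbabilityMeasure O | m F = 1} =
      (fun m : ProbabilityMeasure O => (m, ())) ⁻¹'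
        {p : ProbabilityMeasure O × Unit | (1 : ℝ≥0) ≤ p.1 {z | (z, p.2) ∈ {p : O × Unit | p.1 ∈ F}}} := by
    ext m
    constructor
    · intro hm
      exact (show m F = 1 from hm).ge
    · intro hm
      exact le_antisymm (m.apply_le_one F) hm
  rw [h3]
  exact h2

variable [Sys O]

theorem sh_coe (n : ℤ) (m : ProbabilityMeasure O) :
    ((sh n m : ProbabilityMeasure O) : Measure O) = Measure.map (sh n : O → O) (m : Measure O) :=
  rfl

theorem sh_app (m : ProbabilityMeasure O) (n : ℤ) (B : Set O) (hB : MeasurableSet B) :
    sh n m B = m {z | sh n z ∈ B} := by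
  rw [coe_iff, sh_coe, Measure.map_apply (sh_cont n).measurable hB,
    ProbabilityMeasure.ennreal_coeFn_eq_coeFn_toMeasure]
  rfl

end

end I_PMG

open I_PMG in
theorem PMG_pf : S_PMG := by
  intro O _ _ _ _
  refine ⟨fun m n B hB => sh_app m n B hB, ?_, ?_, ?_, closed_one, ?_, ?_, ?_⟩
  · intro n z
    apply Subtype.ext
    change Measure.map (sh n : O → O) (Measure.dirac z) = Measure.dirac (sh n z)
    exact Measure.map_dirac' (sh_cont n).measurable z
  · exact (isCompact_range continuous_diracProba).isClosed
  · exact injective_diracProba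
  · intro F hF hI m hm m' hm'
    have h1 : orb m ⊆ {m : ProbabilityMeasure O | m F = 1} := by
      refine closure_minimal ?_ (closed_one F hF)
      rintro _ ⟨n, rfl⟩
      change sh n m F = 1
      rw [sh_app m n F hF.measurableSet]
      refine le_antisymm (m.apply_le_one _) ?_
      rw [← hm]
      exact ProbabilityMeasure.apply_mono m fun z hz => hI n z hz
    exact h1 hm'
  · intro U hU
    have h := (closed_one Uᶜ hU.isClosed_compl).isOpen_compl
    have h2 : {m : ProbabilityMeasure O | 0 < m U} = {m : ProbabilityMeasure O | m Uᶜ = 1}ᶜ := by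
      ext m
      simp only [Set.mem_ofPred_eq, mem_compl_iff]
      rw [one_iff, prob_compl_eq_one_iff hU.measurableSet, pos_iff_ne_zero, ne_eq,
        coe_iff m U 0]
      simp
    rw [h2]
    exact h
  · intro Y _ _ _ _ q hq he n m
    apply Subtype.ext
    change Measure.map q (Measure.map (sh n : O → O) (m : Measure O)) =
      Measure.map (sh n : Y → Y) (Measure.map q (m : Measure O))
    rw [Measure.map_map hq.measurable (sh_cont n).measurable,
      Measure.map_map (sh_cont n).measurable hq.measurable]
    congr 1
    exact funext fun z => he n z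

end Pool.Agent.Work.MP_69fea5_lc.W3
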