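import Pool.Agent.Work.MP_69fea5_lc.W3.StmtsM
import Pool.Agent.Work.MP_69fea5_lc.W3.CodX
import Pool.Agent.Work.MP_69fea5_lc.W3.I_ULT
import Pool.Agent.Work.MP_69fea5_lc.W3.I_PMG

/-!
Block [69fea5 F], main line, item DIR: point masses.
-/

set_option autoImplicit false

namespace Pool.Agent.Work.MP_69fea5_lc.W3

open MeasureTheory Topology Set Filter TopologicalSpace
open scoped NNReal ENNReal
open Pool.Agent.Work.MP_69fea5_lc.AK
open Pool.Agent.Work.MP_69fea5_lc.HK (Cl DU Ar ArF ArR Dat Law LawC act near sc Pt oc Mn mr ext)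
open Pool.Agent.Work.MP_69fea5_lc.KC (Agree)

namespace I_DIR

theorem orb_eq {X : Type*} [TopologicalSpace X] [Sys X] {A : Set X} (hA : MinSet A) {p : X}
    (hp : p ∈ A) : orb p = A := by
  refine hA.min _ isClosed_closure ⟨p, subset_closure ⟨0, sh_zero p⟩⟩ ?_ ?_
  · intro n y hy
    have h1 : (sh n : X → X) '' orb p ⊆ orb p := by
      refine (image_closure_subset_closure_image (sh_cont n)).trans (closure_mono ?_)
      rintro _ ⟨_, ⟨m, rfl⟩, rfl⟩
      exact ⟨n + m, sh_add n m p⟩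
    exact h1 ⟨y, hy, rfl⟩
  · refine closure_minimal ?_ hA.closed
    rintro _ ⟨n, rfl⟩
    exact hA.inv n p hp

end I_DIR

open I_DIR in
theorem DIR_pf : S_DIR := by
  intro S hS k X _ _ _ _ _ A z x hz hA hzx
  refine ⟨?_, ?_⟩
  · exact sc_dirac (α := Om k) hS hz
  · have h := (ULT_pf (Om k × X)).2.2 (X × PM k)
      (fun p : Om k × X => (p.2, (diracProba p.1 : PM k))) inferInstance
      (continuous_snd.prodMk (continuous_diracProba.comp continuous_fst))
      (fun n p => Prod.ext rfl ((PMG_pf (Om k)).2.1 n p.1).symm) (z, x)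
    rw [orb_eq hA hzx] at h
    exact h.symm

end Pool.Agent.Work.MP_69fea5_lc.W3
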