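import Pool.Agent.Work.MP_69fea5_lc.W3.StmtsT

set_option autoImplicit false
set_option linter.unusedSectionVars false

namespace Pool.Agent.Work.MP_69fea5_lc.W3

open MeasureTheory Topology Set Filter TopologicalSpace
open scoped NNReal ENNReal
open Pool.Agent.Work.MP_69fea5_lc.AK

namespace I_DIS

variable {C X X' : Type} [TopologicalSpace C] [MeasurableSpace C] [CS C] [Sys C]
  [TopologicalSpace X] [MeasurableSpace X] [CS X] [Sys X]
  [TopologicalSpace X'] [MeasurableSpace X'] [CS X'] [Sys X']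

/-- the pull-back of a continuous invariant pseudometric -/
theorem ipb_pull {J : Set (C × X)} {d : C → C → X → ℝ} {E : Set X'} {q : X' → X}
    (hJ : IPB J d) (hE : SPx E q) {L : Set (C × X')}
    (hL : L ⊆ {p : C × X' | p.2 ∈ E ∧ (p.1, q p.2) ∈ J}) :
    IPB L (fun t t' e => d t t' (q e)) := by
  refine ⟨?_, ?_, ?_, ?_, ?_, ?_⟩
  · have hg : Continuous (fun p : C × C × X' => (p.1, p.2.1, q p.2.2)) :=
      continuous_fst.prodMk ((continuous_fst.comp continuous_snd).prodMk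
        (hE.cont.comp (continuous_snd.comp continuous_snd)))
    refine (hJ.cont.comp hg.continuousOn ?_)
    rintro ⟨t, t', e⟩ ⟨h1, h2⟩
    exact ⟨(hL h1).2, (hL h2).2⟩
  · intro n e u u' hu hu'
    rw [hE.equi]
    exact hJ.inv n _ u u' (hL hu).2 (hL hu').2
  · intro e u hu
    exact hJ.self _ u (hL hu).2
  · intro e u u' hu hu'
    exact hJ.nonneg _ u u' (hL hu).2 (hL hu').2
  · intro e u u' hu hu'
    exact hJ.symm _ u u' (hL hu).2 (hL hu').2
  · intro e u u' u'' hu hu' hu''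
    exact hJ.tri _ u u' u'' (hL hu).2 (hL hu').2 (hL hu'').2

/-- limits along ultrafilters exist -/
theorem exists_lim {ι Y : Type} [TopologicalSpace Y] [CompactSpace Y] (G : Ultrafilter ι)
    (f : ι → Y) : ∃ y, Tendsto f (G : Filter ι) (𝓝 y) := by
  obtain ⟨y, -, hy⟩ := isCompact_univ.ultrafilter_le_nhds (G.map f) (by simp)
  exact ⟨y, hy⟩

end I_DIS

theorem DIS_pf (hULT : S_ULT) (hJCT : S_JCT) (hISP : S_ISP) : S_DIS := by
  intro C X X' _ _ _ _ _ _ _ _ _ _ _ _ J d E q hJ hJmin hE hbase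
  have hq := hE.cont
  have hFc : IsClosed {p : C × X' | p.2 ∈ E ∧ (p.1, q p.2) ∈ J} :=
    (hE.min.closed.preimage continuous_snd).inter
      (hJmin.closed.preimage (continuous_fst.prodMk (hq.comp continuous_snd)))
  have hFi : AK.Inv {p : C × X' | p.2 ∈ E ∧ (p.1, q p.2) ∈ J} := by
    intro n z hz
    refine ⟨hE.min.inv n _ hz.1, ?_⟩
    change (sh n z.1, q (sh n z.2)) ∈ J
    rw [hE.equi]
    exact hJmin.inv n _ hz.2
  have hFn : ({p : C × X' | p.2 ∈ E ∧ (p.1, q p.2) ∈ J}).Nonempty := by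
    obtain ⟨⟨t, x⟩, hp⟩ := hJmin.ne
    have hx : x ∈ q '' E := by
      rw [hbase]
      exact ⟨(t, x), hp, rfl⟩
    obtain ⟨e, he, rfl⟩ := hx
    exact ⟨(t, e), he, hp⟩
  refine ⟨hFc, hFn, hFi, ?_⟩
  intro L hLc hLn hLi hLF
  have hsnd : Prod.snd '' L = E := by
    refine hE.min.min _ ?_ (hLn.image _) ?_ ?_
    · exact (hLc.isCompact.image continuous_snd).isClosed
    · rintro n _ ⟨z, hz, rfl⟩
      exact ⟨sh n z, hLi n z hz, rfl⟩
    · rintro _ ⟨z, hz, rfl⟩
      exact (hLF hz).1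
  have himg : (fun p : C × X' => (p.1, q p.2)) '' L = J := by
    refine hJmin.min _ ?_ (hLn.image _) ?_ ?_
    · exact (hLc.isCompact.image (continuous_fst.prodMk (hq.comp continuous_snd))).isClosed
    · rintro n _ ⟨z, hz, rfl⟩
      refine ⟨sh n z, hLi n z hz, ?_⟩
      change (sh n z.1, q (sh n z.2)) = (sh n z.1, sh n (q z.2))
      rw [hE.equi]
    · rintro _ ⟨z, hz, rfl⟩
      exact (hLF hz).2
  have hIPB : IPB L (fun t t' e => d t t' (q e)) := I_DIS.ipb_pull hJ.ipb hE hLF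
  have key : ∀ e ∈ E, ∀ e' ∈ E, q e = q e' → ∀ t, (t, e) ∈ L → (t, e') ∈ L := by
    intro e he e' he' hqe t ht
    obtain ⟨e'', horb⟩ := (hJCT X' X E q hE.spr).2 e he e' he' hqe
    obtain ⟨G, hG⟩ := ((hULT (X' × X')).1 (e, e') (e'', e'')).1 horb
    have hG1 : Tendsto (fun n : ℤ => sh n e) (G : Filter ℤ) (𝓝 e'') :=
      (continuous_fst.tendsto (e'', e'')).comp hG
    have hG2 : Tendsto (fun n : ℤ => sh n e') (G : Filter ℤ) (𝓝 e'') :=
      (continuous_snd.tendsto (e'', e'')).comp hG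
    obtain ⟨ts, hts⟩ := I_DIS.exists_lim G (fun n : ℤ => sh n t)
    have htsL : (ts, e'') ∈ L := hLc.mem_of_tendsto (hts.prodMk_nhds hG1)
      (Eventually.of_forall fun n => hLi n (t, e) ht)
    obtain ⟨f, t₁, hf, ht₁, hft, hd⟩ := hISP C X' L (fun t t' e => d t t' (q e)) hLc hLi
      (hsnd ▸ hE.min) hIPB ℤ G (fun n : ℤ => sh n e') e''
      (fun n => by rw [hsnd]; exact hE.min.inv n _ he') hG2 ts htsL
    have hts1 : t₁ = ts := hJ.sep (q e'') t₁ ts (hLF ht₁).2 (hLF htsL).2 hd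
    subst hts1
    -- shift back
    have hs : ∀ n : ℤ, (sh (-n) (f n), e') ∈ L := by
      intro n
      have h1 := hLi (-n) (f n, sh n e') (hf n)
      have h2 : sh (-n) (sh n e') = e' := by
        rw [← sh_add, neg_add_cancel, sh_zero]
      rw [sh_prod, h2] at h1
      exact h1
    obtain ⟨s, hsl⟩ := I_DIS.exists_lim G (fun n : ℤ => sh (-n) (f n))
    have hsL : (s, e') ∈ L := hLc.mem_of_tendsto (hsl.prodMk_nhds tendsto_const_nhds)
      (Eventually.of_forall fun n => hs n)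
    have htJ : (t, q e') ∈ J := hqe ▸ (hLF ht).2
    -- the distance
    have hd1 : Tendsto (fun n : ℤ => d (sh (-n) (f n)) t (q e')) (G : Filter ℤ)
        (𝓝 (d s t (q e'))) := by
      have hc := hJ.ipb.cont (s, t, q e') ⟨(hLF hsL).2, htJ⟩
      refine Tendsto.comp (f := fun n : ℤ => (sh (-n) (f n), t, q e'))
        (y := 𝓝[{p : C × C × X | (p.1, p.2.2) ∈ J ∧ (p.2.1, p.2.2) ∈ J}] (s, t, q e')) hc ?_
      refine tendsto_nhdsWithin_iff.2 ⟨hsl.prodMk_nhds tendsto_const_nhds, ?_⟩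
      exact Eventually.of_forall fun n => ⟨(hLF (hs n)).2, htJ⟩
    have hd2 : Tendsto (fun n : ℤ => d (f n) (sh n t) (q (sh n e'))) (G : Filter ℤ)
        (𝓝 (d t₁ t₁ (q e''))) := by
      have hc := hJ.ipb.cont (t₁, t₁, q e'') ⟨(hLF ht₁).2, (hLF ht₁).2⟩
      refine Tendsto.comp (f := fun n : ℤ => (f n, sh n t, q (sh n e')))
        (y := 𝓝[{p : C × C × X | (p.1, p.2.2) ∈ J ∧ (p.2.1, p.2.2) ∈ J}] (t₁, t₁, q e'')) hc ?_
      refine tendsto_nhdsWithin_iff.2 ⟨hft.prodMk_nhds (hts.prodMk_nhds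
        ((hq.tendsto e'').comp hG2)), ?_⟩
      refine Eventually.of_forall fun n => ⟨(hLF (hf n)).2, ?_⟩
      change (sh n t, q (sh n e')) ∈ J
      rw [hE.equi]
      exact hJmin.inv n _ htJ
    have hdeq : (fun n : ℤ => d (sh (-n) (f n)) t (q e')) =
        fun n : ℤ => d (f n) (sh n t) (q (sh n e')) := by
      funext n
      have h1 := hJ.ipb.inv n (q e') (sh (-n) (f n)) t (hLF (hs n)).2 htJ
      rw [← h1, ← sh_add, add_neg_cancel, sh_zero, hE.equi]
    rw [hdeq] at hd1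
    have hd0 : d s t (q e') = 0 := by
      rw [tendsto_nhds_unique hd1 hd2]
      exact hJ.ipb.self _ _ (hLF ht₁).2
    have hst : s = t := hJ.sep (q e') s t (hLF hsL).2 htJ hd0
    rw [← hst]
    exact hsL
  refine Set.Subset.antisymm hLF ?_
  rintro ⟨t, e⟩ ⟨he, hte⟩
  have h1 : (t, q e) ∈ (fun p : C × X' => (p.1, q p.2)) '' L := by
    rw [himg]
    exact hte
  obtain ⟨⟨t', e'⟩, hz, heq⟩ := h1
  simp only [Prod.mk.injEq] at heq
  obtain ⟨rfl, hqe⟩ := heq
  exact key e' (hLF hz).1 e he hqe t' hz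

end Pool.Agent.Work.MP_69fea5_lc.W3
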