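import Pool.Agent.Work.MP_69fea5_lc.W3.StmtsM

/-!
Block [69fea5 F], main line, item DNT: limits of the dense family of frames.
-/

set_option autoImplicit false

namespace Pool.Agent.Work.MP_69fea5_lc.W3

open MeasureTheory Topology Set Filter TopologicalSpace
open scoped NNReal ENNReal
open Pool.Agent.Work.MP_69fea5_lc.AK
open Pool.Agent.Work.MP_69fea5_lc.HK (Cl DU Ar ArF ArR Dat Law LawC act near sc Pt oc Mn mr ext)
open Pool.Agent.Work.MP_69fea5_lc.KC (Agree)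

namespace I_DNT

theorem orb_sub {X : Type*} [TopologicalSpace X] [Sys X] {x : X} {K : Set X} (hK : IsClosed K)
    (hI : AK.Inv K) (hx : x ∈ K) : orb x ⊆ K := by
  refine closure_minimal ?_ hK
  rintro _ ⟨n, rfl⟩
  exact hI n x hx

theorem ex_ult {X : Type*} [TopologicalSpace X] [Sys X] {w p : X} (hp : p ∈ orb w) :
    ∃ G : Ultrafilter ℤ, Tendsto (fun n : ℤ => sh n w) (G : Filter ℤ) (𝓝 p) := by
  have hne : (Filter.comap (fun n : ℤ => sh n w) (𝓝 p)).NeBot := by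
    rw [Filter.comap_neBot_iff]
    intro t ht
    obtain ⟨_, h1, ⟨n, rfl⟩⟩ := mem_closure_iff_nhds.mp hp t ht
    exact ⟨n, h1⟩
  exact ⟨Ultrafilter.of (Filter.comap (fun n : ℤ => sh n w) (𝓝 p)),
    tendsto_comap.mono_left (Ultrafilter.of_le _)⟩

/-- the first claim -/
theorem first {Z : Type*} [TopologicalSpace Z] [Sys Z] {Y : Type*} [TopologicalSpace Y] [Sys Y]
    [T2Space Y] (π : Z → Y) (hπ : Continuous π) (he : ∀ n : ℤ, ∀ z, π (sh n z) = sh n (π z))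
    (hinv : ∀ (v : Z), AK.Inv (orb v)) (v : Z) (vl : ℕ → Z)
    (hv : ∀ l, vl l ∈ orb v ∧ π (vl l) = π v) (p : Z × (ℕ → Z)) (hp : p ∈ orb (v, vl)) :
    ∀ l, p.2 l ∈ orb v ∧ π (p.2 l) = π p.1 := by
  have hK : IsClosed {q : Z × (ℕ → Z) | ∀ l, q.2 l ∈ orb v ∧ π (q.2 l) = π q.1} := by
    rw [ofPred_forall]
    refine isClosed_iInter fun l => ?_
    have h1 : Continuous fun q : Z × (ℕ → Z) => q.2 l := (continuous_apply l).comp continuous_snd
    exact (isClosed_closure.preimage h1).inter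
      (isClosed_eq (hπ.comp h1) (hπ.comp continuous_fst))
  refine orb_sub hK ?_ ?_ hp
  · intro n q hq l
    refine ⟨hinv v n _ (hq l).1, ?_⟩
    change π (sh n (q.2 l)) = π (sh n q.1)
    rw [he, he, (hq l).2]
  · exact hv

theorem inv_orb {X : Type*} [TopologicalSpace X] [Sys X] (x : X) : AK.Inv (orb x) := by
  intro n y hy
  refine map_mem_closure (sh_cont n) hy ?_
  rintro _ ⟨m, rfl⟩
  exact ⟨n + m, sh_add n m x⟩

/-- a point at distance zero from the family is in its closure -/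
theorem dist_lim {B C : Type} [TopologicalSpace B] [TopologicalSpace C] [Sys C] [Sys B]
    [CompactSpace C] [T2Space C] [T2Space B]
    (J : Set (C × B)) (d : C → C → B → ℝ) (hJ : IsClosed J) (hI : IPB J d)
    (hs : ∀ (x : B) (t t' : C), (t, x) ∈ J → (t', x) ∈ J → d t t' x = 0 → t = t')
    (x : B) (t : C) (ht : (t, x) ∈ J) (f : ℕ → C) (hf : ∀ l, (f l, x) ∈ J)
    (h : ∀ e : ℝ, 0 < e → ∃ l, d (f l) t x ≤ e) : t ∈ closure (Set.range f) := by
  choose l hl using fun m : ℕ => h (1 / ((m : ℝ) + 1)) (by positivity)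
  obtain ⟨s, -, hs1⟩ := isCompact_univ.ultrafilter_le_nhds
    ((Filter.hyperfilter ℕ).map fun m => f (l m)) (by simp)
  have hT : Tendsto (fun m => f (l m)) (Filter.hyperfilter ℕ : Filter ℕ) (𝓝 s) := hs1
  have hsJ : (s, x) ∈ J := by
    have h1 : Tendsto (fun m => (f (l m), x)) (Filter.hyperfilter ℕ : Filter ℕ) (𝓝 (s, x)) :=
      hT.prodMk_nhds tendsto_const_nhds
    exact hJ.mem_of_tendsto h1 (Filter.Eventually.of_forall fun m => hf _)
  have h2 : Tendsto (fun m => d (f (l m)) t x) (Filter.hyperfilter ℕ : Filter ℕ)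
      (𝓝 (d s t x)) := by
    have h3 := hI.cont (s, t, x) ⟨hsJ, ht⟩
    refine Tendsto.comp (g := fun p : C × C × B => d p.1 p.2.1 p.2.2)
      (f := fun m => (f (l m), t, x)) h3 ?_
    refine tendsto_nhdsWithin_iff.mpr ⟨?_, Filter.Eventually.of_forall fun m => ⟨hf _, ht⟩⟩
    exact hT.prodMk_nhds tendsto_const_nhds
  have h4 : Tendsto (fun m : ℕ => 1 / ((m : ℝ) + 1)) (Filter.hyperfilter ℕ : Filter ℕ) (𝓝 0) :=
    tendsto_one_div_add_atTop_nhds_zero_nat.mono_left Nat.hyperfilter_le_atTop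
  have h5 : d s t x ≤ 0 := le_of_tendsto_of_tendsto' h2 h4 hl
  have h6 : d s t x = 0 := le_antisymm h5 (hI.nonneg x s t hsJ ht)
  have h7 := hs x s t hsJ ht h6
  rw [h7] at hT
  exact mem_closure_of_tendsto hT (Filter.Eventually.of_forall fun m => ⟨l m, rfl⟩)

end I_DNT

open I_DNT in
theorem DNT_pf (h1 : S_AUT) (h2 : S_ONT) : S_DNT := by
  intro Y C _ _ _ _ _ _ _ _ J d v vl hJ hv hvl hdn p hp
  have hA := first (Z := Y × (ℕ → C)) (Y := Y) Prod.fst continuous_fst (fun n z => rfl)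
    inv_orb v vl hvl p hp
  refine ⟨hA, ?_⟩
  intro v' hv' hv'1
  obtain ⟨hm, -, -, ⟨d', hd'⟩, -⟩ := h1 C Y J d hJ v hv
  obtain ⟨G, hG⟩ := ex_ult hp
  have hG1 : Tendsto (fun n : ℤ => sh n v.1) (G : Filter ℤ) (𝓝 p.1.1) :=
    (continuous_fst.comp continuous_fst).continuousAt.tendsto.comp hG
  have hG2 : ∀ l, Tendsto (fun n : ℤ => sh n (vl l)) (G : Filter ℤ) (𝓝 (p.2 l)) := fun l =>
    ((continuous_apply l).comp continuous_snd).continuousAt.tendsto.comp hG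
  have hv0 : v ∈ orb v := subset_closure ⟨0, sh_zero v⟩
  obtain ⟨t, t'', ht, ht'', hT, h0⟩ := h2 (ℕ → C) Y {q : (ℕ → C) × Y | (q.2, q.1) ∈ orb v} d'
    hd'.closed hd'.inv hd'.base hd'.ipb ℤ G id v.1 p.1.1 ⟨(v.2, v.1), hv0, rfl⟩ hG1 v'.2
    (by rw [← hv'1]; exact hv')
  have h3 : t'' = v'.2 := hd'.sep p.1.1 t'' v'.2 ht'' (by rw [← hv'1]; exact hv') h0
  -- the frames `vl l` come near to `(v.1, t)`
  have h4 : ∀ e : ℝ, 0 < e → ∃ l, d' (p.2 l).2 v'.2 p.1.1 ≤ e := by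
    intro e he
    have h5 : ((v.1, t) : Y × (ℕ → C)) ∈ closure (Set.range vl) := hdn _ ht rfl
    have h6 := hd'.ipb.cont (t, t, v.1) ⟨ht, ht⟩
    have h7 : d' t t v.1 = 0 := hd'.ipb.self v.1 t ht
    have h8 : ∀ᶠ q in 𝓝[{p : (ℕ → C) × (ℕ → C) × Y | (p.1, p.2.2) ∈
        {q : (ℕ → C) × Y | (q.2, q.1) ∈ orb v} ∧ (p.2.1, p.2.2) ∈
        {q : (ℕ → C) × Y | (q.2, q.1) ∈ orb v}}] ((t, t, v.1) : (ℕ → C) × (ℕ → C) × Y),
        d' q.1 q.2.1 q.2.2 < e := by
      refine h6 (Iio_mem_nhds ?_)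
      change d' t t v.1 < e
      rw [h7]
      exact he
    rw [eventually_nhdsWithin_iff] at h8
    have h9 : Tendsto (fun z : Y × (ℕ → C) => ((z.2, t, z.1) : (ℕ → C) × (ℕ → C) × Y))
        (𝓝 (v.1, t)) (𝓝 (t, t, v.1)) := by
      have : Continuous (fun z : Y × (ℕ → C) => ((z.2, t, z.1) : (ℕ → C) × (ℕ → C) × Y)) := by
        fun_prop
      exact this.tendsto (v.1, t)
    obtain ⟨_, h10, ⟨l, rfl⟩⟩ := mem_closure_iff_nhds.mp h5 _ (h9.eventually h8)
    refine ⟨l, ?_⟩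
    have hl1 : (vl l).1 = v.1 := (hvl l).2
    have hl2 : ((vl l).2, v.1) ∈ {q : (ℕ → C) × Y | (q.2, q.1) ∈ orb v} := by
      change (v.1, (vl l).2) ∈ orb v
      rw [← hl1]
      exact (hvl l).1
    have h11 : d' (vl l).2 t v.1 < e := by
      have := h10 ⟨by rw [hl1]; exact hl2, by rw [hl1]; exact ht⟩
      rw [hl1] at this
      exact this
    have h12 : ∀ n : ℤ, d' (sh n (vl l)).2 (sh n t) (sh n v.1) = d' (vl l).2 t v.1 := fun n =>
      hd'.ipb.inv n v.1 (vl l).2 t hl2 ht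
    have h13 : Tendsto (fun n : ℤ => d' (sh n (vl l)).2 (sh n t) (sh n v.1)) (G : Filter ℤ)
        (𝓝 (d' (p.2 l).2 v'.2 p.1.1)) := by
      have h14 : ((p.2 l).2, p.1.1) ∈ {q : (ℕ → C) × Y | (q.2, q.1) ∈ orb v} := by
        change (p.1.1, (p.2 l).2) ∈ orb v
        rw [← (hA l).2]
        exact (hA l).1
      have h15 : (v'.2, p.1.1) ∈ {q : (ℕ → C) × Y | (q.2, q.1) ∈ orb v} := by
        rw [← hv'1]
        exact hv'
      have h16 := hd'.ipb.cont ((p.2 l).2, v'.2, p.1.1) ⟨h14, h15⟩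
      refine Tendsto.comp (g := fun p : (ℕ → C) × (ℕ → C) × Y => d' p.1 p.2.1 p.2.2)
        (f := fun n : ℤ => ((sh n (vl l)).2, sh n t, sh n v.1)) h16 ?_
      refine tendsto_nhdsWithin_iff.mpr ⟨?_, Filter.Eventually.of_forall fun n => ?_⟩
      · rw [h3] at hT
        exact (((continuous_snd).continuousAt.tendsto.comp (hG2 l))).prodMk_nhds
          (hT.prodMk_nhds hG1)
      · exact ⟨hd'.inv n _ hl2, hd'.inv n _ ht⟩
    refine le_of_tendsto h13 (Filter.Eventually.of_forall fun n => ?_)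
    rw [h12]
    exact h11.le
  have h5 : v'.2 ∈ closure (Set.range fun l => (p.2 l).2) := by
    refine dist_lim {q : (ℕ → C) × Y | (q.2, q.1) ∈ orb v} d' hd'.closed hd'.ipb hd'.sep p.1.1
      v'.2 (by rw [← hv'1]; exact hv') (fun l => (p.2 l).2) ?_ h4
    intro l
    change (p.1.1, (p.2 l).2) ∈ orb v
    rw [← (hA l).2]
    exact (hA l).1
  have h6 : Continuous (fun t : ℕ → C => ((p.1.1, t) : Y × (ℕ → C))) := by fun_prop
  have h7 := map_mem_closure h6 h5 (t := Set.range p.2) (by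
    rintro _ ⟨l, rfl⟩
    refine ⟨l, ?_⟩
    rw [← (hA l).2])
  rw [← hv'1] at h7
  exact h7

end Pool.Agent.Work.MP_69fea5_lc.W3
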