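import Pool.Agent.Work.MP_69fea5_lc.W3.DefsE
import Pool.Agent.Work.MP_69fea5_lc.N3.StmtsA

/-!
# Block [69fea5 F], part E: the final argument, statements of the items

Every item is a theorem `XXX_pf (h1 : S_A) (h2 : S_B) ... : S_XXX` in its own file
`W3/I_XXX.lean`; the hypotheses may be any statements of EARLIER items of this file, of
`N3/StmtsA.lean`, or `AK.S_...` (all proved on main). Proofs in the docstrings.
-/

set_option autoImplicit false

namespace Pool.Agent.Work.MP_69fea5_lc.W3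

open MeasureTheory Topology Set Filter ProbabilityTheory
open scoped NNReal ENNReal
open Pool.Agent.Work.MP_69fea5_lc.AK
open Pool.Agent.Work.MP_69fea5_lc.N3 (W2 bx sup2 St nxt Bl3 CaseII3 GRD)

/-! ## General facts -/

/-- [MSB] the system `MS μ x`: closed, invariant, over `orb x`; if it and `orb x` are minimal, then
for every `y ∈ orb x` the fibre over `y` has full `μ y`-measure and contains the support of `μ y`.
(`{y | 1 ≤ μ y {z | (z, y) ∈ MS μ x}}` is closed by `AK.S_USC`, invariant (`AK.S_PMB`), and contains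
`x` (`AK.S_SUP`); so it contains `orb x`. A closed set of full measure contains the support. For
`MS μ y = MS μ x`: `⊆` by the first part, then minimality.) -/
def S_MSB : Prop := ∀ (k : ℕ) (X : Type) [TopologicalSpace X] [Sys X] (μ : X → PM k) (x : X),
  Continuous μ → (∀ (n : ℤ) (y : X), μ (sh n y) = sh n (μ y)) →
  (IsClosed (MS μ x) ∧ AK.Inv (MS μ x) ∧ (∀ p ∈ MS μ x, p.2 ∈ orb x) ∧
    (∀ z ∈ supp (μ x), (z, x) ∈ MS μ x)) ∧
  ((∀ y ∈ orb x, μ y {z | (z, y) ∈ MS μ x} = 1) ∧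
    (∀ y ∈ orb x, ∀ z ∈ supp (μ y), (z, y) ∈ MS μ x)) ∧
  (MinSet (MS μ x) → ∀ y ∈ orb x, MS μ y = MS μ x)

/-- [PRU] upper semicontinuity of the product measure of the sections of a closed set
(`ProbabilityMeasure.continuous_prod` in Mathlib and `N3.S_USG` with `Y = Om k × Om k`). -/
def S_PRU : Prop := ∀ (k : ℕ) (X : Type) [TopologicalSpace X] (μ ν : X → PM k),
  Continuous μ → Continuous ν → ∀ F : Set ((Om k × Om k) × X), IsClosed F → ∀ a : ℝ≥0∞,
  IsClosed {y : X | a ≤ ((μ y : Measure (Om k)).prod (ν y : Measure (Om k))) {p | (p, y) ∈ F}}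

/-- [MCE] McMahon: the product measure of the sections of a closed invariant set of triples is
constant on a minimal set `M`, and the measure of the symmetric difference of two sections is a
continuous invariant pseudometric. (`w, y ↦ mass` is upper semicontinuous by `S_PRU` over the base
`Om k × X`, invariant, so constant by `AK.S_CST`. For the pseudometric: the measures of
`N_w ∩ N_w'` and `N_w ∪ N_w'` are upper semicontinuous in `(w, w', y)` by `S_PRU` over the base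
`Om k × Om k × X`; their sum is the constant `2 a`; so both are continuous; the symmetric difference
has the measure `union - intersection`. Invariance: the measures are equivariant.) -/
def S_MCE : Prop := ∀ (k : ℕ) (X : Type) [TopologicalSpace X] [Sys X] (M : Set (Om k × X))
  (μ ν : X → PM k), MinSet M → Continuous μ → Continuous ν →
  (∀ (n : ℤ) (y : X), μ (sh n y) = sh n (μ y)) → (∀ (n : ℤ) (y : X), ν (sh n y) = sh n (ν y)) →
  ∀ N : Set ((Om k × Om k × Om k) × X), IsClosed N → AK.Inv N →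
  (∃ a : ℝ≥0∞, ∀ w y, (w, y) ∈ M →
    ((μ y : Measure (Om k)).prod (ν y : Measure (Om k))) {p | ((w, p), y) ∈ N} = a) ∧
  CIP M fun w w' y => sdf ((μ y : Measure (Om k)).prod (ν y : Measure (Om k)))
    {p | ((w, p), y) ∈ N} {p | ((w', p), y) ∈ N}

/-- [CMP] limits of measures on pairs along an ultrafilter exist, and they are dominated by the
limit of a dominating sequence. (Clopen sets are finite disjoint unions of boxes `N3.S_RCT`; the
ultralimits of the values are finitely additive on clopen sets; extension to a measure, or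
compactness of the space of probability measures after division by the total mass, or of finite
measures. The inequality: for clopen sets by continuity, then for closed and all Borel sets by
regularity `N3.S_CL2`; `((μ (y n)).prod (ν (y n))) C` converges to `((μ y').prod (ν y')) C`.) -/
def S_CMP : Prop := ∀ (k : ℕ) (G : Ultrafilter ℕ) (τ : ℕ → Measure (Om k × Om k)),
  (∀ n, τ n univ ≤ 1) → ∃ τ' : Measure (Om k × Om k), IsFiniteMeasure τ' ∧
    (∀ C : Set (Om k × Om k), IsClopen C →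
      Tendsto (fun n => (τ n).real C) (G : Filter ℕ) (𝓝 (τ'.real C)))

/-- [CMD] domination in the limit. -/
def S_CMD : Prop := ∀ (k : ℕ) (G : Ultrafilter ℕ) (τ τ₁ : ℕ → Measure (Om k × Om k))
  (τ' τ₁' : Measure (Om k × Om k)) [IsFiniteMeasure τ'] [IsFiniteMeasure τ₁'],
  (∀ n, τ n ≤ τ₁ n) → (∀ n, τ₁ n univ ≤ 1) →
  (∀ C : Set (Om k × Om k), IsClopen C →
    Tendsto (fun n => (τ n).real C) (G : Filter ℕ) (𝓝 (τ'.real C))) →
  (∀ C : Set (Om k × Om k), IsClopen C →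
    Tendsto (fun n => (τ₁ n).real C) (G : Filter ℕ) (𝓝 (τ₁'.real C))) → τ' ≤ τ₁'

/-- [LIM] the limit lemma. Let `(w n, y n) ∈ M → (w', y')` along `G`, `τ n ≤ μ (y n) × ν (y n)`, and
let `τ'` be the limit of the `τ n` on clopen sets. Then the `τ n`-measures of the sections of `N` at
`(w n, y n)` converge to the `τ'`-measure of the section at `(w', y')`.
(Write `ν n = μ (y n) × ν (y n)`, `ν'` for its limit; the masses of the sections are a constant `a`
by `S_MCE`. Given `ε` take a clopen `C ⊇ N'` (section at the limit) with `ν' (C \ N') < ε`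
(`N3.S_CL2`). For late `n` the section `N_n` is inside `C` (`N` closed, compactness), and
`ν n (C \ N_n) = ν n C - a → ν' C - a < ε`. So `τ n C - ε < τ n N_n ≤ τ n C` late, `τ n C → τ' C`
and `τ' C - ε ≤ τ' N' ≤ τ' C` because `τ' ≤ ν'` (`S_CMD`).) -/
def S_LIM : Prop := ∀ (k : ℕ) (X : Type) [TopologicalSpace X] [Sys X] (M : Set (Om k × X))
  (μ ν : X → PM k), MinSet M → Continuous μ → Continuous ν →
  (∀ (n : ℤ) (y : X), μ (sh n y) = sh n (μ y)) → (∀ (n : ℤ) (y : X), ν (sh n y) = sh n (ν y)) →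
  ∀ N : Set ((Om k × Om k × Om k) × X), IsClosed N → AK.Inv N →
  ∀ (G : Ultrafilter ℕ) (w : ℕ → Om k) (y : ℕ → X) (w' : Om k) (y' : X)
    (τ : ℕ → Measure (Om k × Om k)) (τ' : Measure (Om k × Om k)) [IsFiniteMeasure τ'],
  (∀ n, (w n, y n) ∈ M) → Tendsto w (G : Filter ℕ) (𝓝 w') → Tendsto y (G : Filter ℕ) (𝓝 y') →
  (∀ n, τ n ≤ (μ (y n) : Measure (Om k)).prod (ν (y n) : Measure (Om k))) →
  (∀ C : Set (Om k × Om k), IsClopen C →
    Tendsto (fun n => (τ n).real C) (G : Filter ℕ) (𝓝 (τ'.real C))) →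
  Tendsto (fun n => (τ n).real {p | ((w n, p), y n) ∈ N}) (G : Filter ℕ)
    (𝓝 (τ'.real {p | ((w', p), y') ∈ N}))

/-! ## Weighted barycentres -/

/-- [SDB] basic facts on `sd`. (`PM k` has the measurable structure of Mathlib, for which
`m ↦ m A` is measurable for measurable `A`; `Measure.bind_apply`, `lintegral_withDensity`.) -/
def S_SDB : Prop := ∀ (k : ℕ) (κ : Measure (PM k)) [IsProbabilityMeasure κ] (F : List (Wd k)),
  Measurable (wt F : PM k → ℝ≥0∞) ∧ (∀ m : PM k, wt F m ≤ 1) ∧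
  (∀ A : Set (Om k), MeasurableSet A → sd κ F A = ∫⁻ m, wt F m * (m : Measure (Om k)) A ∂κ) ∧
  sd κ F ≤ sd κ [] ∧ IsProbabilityMeasure (sd κ []) ∧ sd κ F univ ≤ 1 ∧
  (∀ w : Wd k, sd κ (w :: F) univ = sd κ F (cyl w 0) ∧ sd κ (w :: F) ≤ sd κ F) ∧
  (0 < sd κ F univ → ∀ r : Fin k, [r] ∈ F → 0 < sd κ F {z | z 0 = r}) ∧
  (∀ᵐ (m : PM k) ∂κ, ∀ A : Set (Om k), IsClosed A → sd κ [] A = 1 → (m : Measure (Om k)) A = 1)

/-- [SDP] the product of two weighted barycentres as an integral. -/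
def S_SDP : Prop := ∀ (k : ℕ) (κ1 κ2 : Measure (PM k)) [IsProbabilityMeasure κ1]
  [IsProbabilityMeasure κ2] (F1 F2 : List (Wd k)) (B : Set (Om k × Om k)), MeasurableSet B →
  Measurable (fun q : PM k × PM k => ((q.1 : Measure (Om k)).prod (q.2 : Measure (Om k))) B) ∧
  ((sd κ1 F1).prod (sd κ2 F2)) B = ∫⁻ q, wt F1 q.1 * wt F2 q.2 *
    ((q.1 : Measure (Om k)).prod (q.2 : Measure (Om k))) B ∂(κ1.prod κ2)

/-- [SHD] if the section `B` is decided by the members (`m × m' (B)` is `0` or `1`), then the part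
in the box `P` of the state measure has the same mass on `B` as the shadow measure, whose lists have
the words of `P` in addition. (`S_SDP` for both sides; if `m × m' (B) = 1` then
`m × m' (bx P 0 ∩ B) = m [P.1] * m' [P.2]`.) -/
def S_SHD : Prop := ∀ (k : ℕ) (κ1 κ2 : Measure (PM k)) [IsProbabilityMeasure κ1]
  [IsProbabilityMeasure κ2] (F1 F2 : List (Wd k)) (P : W2 k) (B : Set (Om k × Om k)),
  MeasurableSet B →
  (∀ᵐ q ∂(κ1.prod κ2), ((q.1 : Measure (Om k)).prod (q.2 : Measure (Om k))) B = 0 ∨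
    ((q.1 : Measure (Om k)).prod (q.2 : Measure (Om k))) B = 1) →
  ((sd κ1 F1).prod (sd κ2 F2)) (bx P 0 ∩ B) =
    ((sd κ1 (P.1 :: F1)).prod (sd κ2 (P.2 :: F2))) B

/-- [FUB] a set of triples whose sections do not distinguish points of one member is decided by the
members. (Fubini: for a.e. `p` and a.e. `(m, m')`: `1_F (p, u, v) = 1_F (p, u', v)` for
`m × m × m'`-a.e. `(u, u', v)`, and `1_F (p, u, v) = 1_F (p, u, v')` for `m × m' × m'`-a.e.
`(u, v, v')`. So `a = m × m' (F_p)` has `a (1 - a) = (m × m') × (m × m') {F (u, v), ¬ F (u', v')} = 0`.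
`m (supp m)ᶜ = 0` by `AK.S_SUP`.) -/
def S_FUB : Prop := ∀ (k : ℕ) (κ1 κ2 : Measure (PM k)) [IsProbabilityMeasure κ1]
  [IsProbabilityMeasure κ2] (θ : Measure (Om k)) [IsProbabilityMeasure θ]
  (F : Set (Om k × Om k × Om k)), MeasurableSet F →
  (∀ᵐ m ∂κ1, ∀ u ∈ supp m, ∀ u' ∈ supp m,
    (θ.prod (sd κ2 [])) {q | (q.1, u, q.2) ∈ F ∧ (q.1, u', q.2) ∉ F} = 0) →
  (∀ᵐ m ∂κ2, ∀ v ∈ supp m, ∀ v' ∈ supp m,
    (θ.prod (sd κ1 [])) {q | (q.1, q.2, v) ∈ F ∧ (q.1, q.2, v') ∉ F} = 0) →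
  ∀ᵐ p ∂θ, ∀ᵐ q ∂(κ1.prod κ2),
    ((q.1 : Measure (Om k)).prod (q.2 : Measure (Om k))) {g | (p, g.1, g.2) ∈ F} = 0 ∨
    ((q.1 : Measure (Om k)).prod (q.2 : Measure (Om k))) {g | (p, g.1, g.2) ∈ F} = 1

section

variable {k : ℕ}

/-- [DEC] (F2) the sections of a closed invariant set of triples are decided by the members: at `x`
the sections at a.e. first coordinate, at `x1` the sections at a.e. last coordinate. (`S_FUB`; the
two hypotheses of `S_FUB` are `ρ z z' x = 0` resp. `ρ z z' x1 = 0` for the pseudometrics of `S_MCE`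
of `N` with permuted coordinates: (a) at `x`, `θ = μ0 x`: coordinate `u` over `MS μ1 x` with
`μ0, μ2`, coordinate `v` over `MS μ2 x` with `μ0, μ1`. (b) at `x1`, `θ = μ2 x1`: coordinate `w` over
`MS μ0 x` with `μ1, μ2` (`μ0 x1 = μ1 x`, so its members are those of `κ1`), coordinate `u` over
`MS μ1 x` with `μ0, μ2` (`μ1 x1 = μ2 x`, members of `κ2`).) -/
def S_DEC : Prop := ∀ (k : ℕ) (X : Type) [TopologicalSpace X] [CompactSpace X] [T2Space X] [Sys X]
  (c : Om k) (x x1 : X) (μ0 μ1 μ2 : X → PM k) (C : Finset (Fin k)) (κ1 κ2 : Measure (PM k)),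
  EH c x x1 μ0 μ1 μ2 C κ1 κ2 → ∀ N : Set ((Om k × Om k × Om k) × X), IsClosed N → AK.Inv N →
  (∀ᵐ p ∂(μ0 x : Measure (Om k)), ∀ᵐ q ∂(κ1.prod κ2),
    ((q.1 : Measure (Om k)).prod (q.2 : Measure (Om k))) {g | ((p, g), x) ∈ N} = 0 ∨
    ((q.1 : Measure (Om k)).prod (q.2 : Measure (Om k))) {g | ((p, g), x) ∈ N} = 1) ∧
  (∀ᵐ v ∂(μ2 x1 : Measure (Om k)), ∀ᵐ q ∂(κ1.prod κ2),
    ((q.1 : Measure (Om k)).prod (q.2 : Measure (Om k))) {g | ((g.1, g.2, v), x1) ∈ N} = 0 ∨
    ((q.1 : Measure (Om k)).prod (q.2 : Measure (Om k))) {g | ((g.1, g.2, v), x1) ∈ N} = 1)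

/-! ## Limits of triples -/

/-- [PIC] typical points close to a given point of the support of the limit: if `T^n x → y` along
`G` and `w ∈ supp (μ y)`, then there are `p n` in a given set of full `μ x`-measure with
`T^n (p n) → w`. (For every `L`: for `G`-almost all `n`, `μ (T^n x)` charges the cylinder of `w` of
level `L`, so `μ x` charges its preimage under `T^n`, which then meets `𝒢`. Take for `p n` a point
which works for the largest possible `L ≤ n`; in every case `p n ∈ 𝒢`.) -/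
def S_PIC : Prop := ∀ (k : ℕ) (X : Type) [TopologicalSpace X] [Sys X] (μ : X → PM k) (x y : X),
  Continuous μ → (∀ (n : ℤ) (y : X), μ (sh n y) = sh n (μ y)) → ∀ (G : Ultrafilter ℕ) (w : Om k)
  (𝒢 : Set (Om k)), (G : Filter ℕ) ≤ atTop →
  Tendsto (fun n : ℕ => sh (n : ℤ) x) (G : Filter ℕ) (𝓝 y) → w ∈ supp (μ y) →
  (∀ᵐ p ∂(μ x : Measure (Om k)), p ∈ 𝒢) →
  ∃ p : ℕ → Om k, (∀ n, p n ∈ 𝒢 ∧ (p n, x) ∈ MS μ x) ∧
    Tendsto (fun n : ℕ => sh (n : ℤ) (p n)) (G : Filter ℕ) (𝓝 w)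

/-- [RAW] the set of limits `RW c x ν P`: closed, invariant (shift the times); the limits of the
measures `ν` restricted to `P` are carried by its sections (otherwise a clopen set disjoint from the
section is charged by the limit, so for many late `n` some `g` in the support of `ν` and in `P` has
`T^n g` in it: a limit point of these is in the section, by compactness); if `P` is blocked for `r`,
then `w ∈ [P.1]`, `u ∈ [P.2]` exclude `v 0 = r` (an open condition; `nxt P r n` is open and meets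
the support of `ν`, so it has positive measure). -/
def S_RAW : Prop := ∀ (k : ℕ) (X : Type) [TopologicalSpace X] [CompactSpace X] [T2Space X] [Sys X]
  (c : Om k) (x : X) (ν : Measure (Om k × Om k)) [IsFiniteMeasure ν] (P : W2 k),
  IsClosed (RW c x ν P) ∧ AK.Inv (RW c x ν P) ∧
  (∀ (G : Ultrafilter ℕ) (w : Om k) (y : X), (G : Filter ℕ) ≤ atTop →
    Tendsto (fun n : ℕ => sh (n : ℤ) c) (G : Filter ℕ) (𝓝 w) →
    Tendsto (fun n : ℕ => sh (n : ℤ) x) (G : Filter ℕ) (𝓝 y) →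
    ∀ τ : Measure (Om k × Om k), IsFiniteMeasure τ → LimM G (ν.restrict (bx P 0)) τ →
      τ {g | ((w, g), y) ∉ RW c x ν P} = 0) ∧
  (∀ r : Fin k, Bl3 c ν P r → ∀ w u v y, ((w, u, v), y) ∈ RW c x ν P → w ∈ cyl P.1 0 →
    u ∈ cyl P.2 0 → v 0 ≠ r)

/-! ## The nested construction -/

/-- [INI] the first state: `F1 = F2 =` the one-letter words of `C`, `N` everything. -/
def S_INI : Prop := ∀ (k : ℕ) (X : Type) [TopologicalSpace X] [CompactSpace X] [T2Space X] [Sys X]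
  (c : Om k) (x x1 : X) (μ0 μ1 μ2 : X → PM k) (C : Finset (Fin k)) (κ1 κ2 : Measure (PM k)),
  EH c x x1 μ0 μ1 μ2 C κ1 κ2 → ∃ F1 F2 N, NS c x x1 μ0 μ2 C κ1 κ2 ∅ F1 F2 N

/-- [STA] the state measure is dominated by `μ1 x × μ2 x`, and if it is in Case II then every colour
`r ∈ C` has a blocked box `P` with the letter `r` in the middle of both words (`S_SDB`: the box of
`([r], [r])` has positive measure because `[r]` is in both lists; `CaseII3`). -/
def S_STA : Prop := ∀ (k : ℕ) (X : Type) [TopologicalSpace X] [CompactSpace X] [T2Space X] [Sys X]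
  (c : Om k) (x x1 : X) (μ0 μ1 μ2 : X → PM k) (C : Finset (Fin k)) (κ1 κ2 : Measure (PM k)),
  EH c x x1 μ0 μ1 μ2 C κ1 κ2 → ∀ (D : Finset (Fin k)) (F1 F2 : List (Wd k))
  (N : Set ((Om k × Om k × Om k) × X)), NS c x x1 μ0 μ2 C κ1 κ2 D F1 F2 N →
  (sd κ1 F1).prod (sd κ2 F2) ≤ (μ1 x : Measure (Om k)).prod (μ2 x : Measure (Om k)) ∧
  (CaseII3 c ((sd κ1 F1).prod (sd κ2 F2)) → ∀ r ∈ C, ∃ P : W2 k,
    St ((sd κ1 F1).prod (sd κ2 F2)) P r ∧ Bl3 c ((sd κ1 F1).prod (sd κ2 F2)) P r)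

/-- [STC] the limits of the new shadow measure are carried by the sections of
`N' = RW c x ν P ∩ N`, `ν = sd κ1 F1 × sd κ2 F2`, `ν' = sd κ1 (P.1 :: F1) × sd κ2 (P.2 :: F2)`.
(Let `τ''` be the limit of `ν'`, `τ'` that of `ν` restricted to `P` (`S_CMP`), `τ` that of `ν`.
`τ'` is carried by `N'_w`: by `S_RAW`, and `τ' ≤ τ` with the field `car` of the old state. Take
typical points `p n` (`S_PIC`, `S_DEC` at `x` for `N'`) with `T^n (p n) → w`. By `S_LIM` (twice, with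
the dominating measures `μ1 × μ2` at `T^n x`, `S_STA`) `ν (bx P 0 ∩ N'_(p n)) → τ' (N'_w)` and
`ν' (N'_(p n)) → τ'' (N'_w)`, and the two sequences are equal by `S_SHD`. So
`τ'' (N'_w) = τ' (N'_w) = τ' (univ) = ν (bx P 0) = ν' (univ) = τ'' (univ)` (`S_SDB`).) -/
def S_STC : Prop := ∀ (k : ℕ) (X : Type) [TopologicalSpace X] [CompactSpace X] [T2Space X] [Sys X]
  (c : Om k) (x x1 : X) (μ0 μ1 μ2 : X → PM k) (C : Finset (Fin k)) (κ1 κ2 : Measure (PM k)),
  EH c x x1 μ0 μ1 μ2 C κ1 κ2 → ∀ (D : Finset (Fin k)) (F1 F2 : List (Wd k))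
  (N : Set ((Om k × Om k × Om k) × X)), NS c x x1 μ0 μ2 C κ1 κ2 D F1 F2 N → ∀ P : W2 k,
  ∀ (G : Ultrafilter ℕ) (w : Om k) (y : X), (G : Filter ℕ) ≤ atTop →
    Tendsto (fun n : ℕ => sh (n : ℤ) c) (G : Filter ℕ) (𝓝 w) →
    Tendsto (fun n : ℕ => sh (n : ℤ) x) (G : Filter ℕ) (𝓝 y) → w ∈ supp (μ0 y) →
    ∀ τ : Measure (Om k × Om k), IsFiniteMeasure τ →
      LimM G ((sd κ1 (P.1 :: F1)).prod (sd κ2 (P.2 :: F2))) τ →
      τ {g | ((w, g), y) ∉ RW c x ((sd κ1 F1).prod (sd κ2 F2)) P ∩ N} = 0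

/-- [STK] the new colour is killed. (For a.e. `v` the section of `N'` at `x1` is decided (`S_DEC`); if
`ν' (N'^v) > 0` then `ν (bx P 0 ∩ N'^v) > 0` (`S_SHD`): so `ν (N^v) > 0` and `v 0 ∉ D`, and there is
`(w, u) ∈ bx P 0` with `((w, u, v), x1) ∈ RW c x ν P`, so `v 0 ≠ r` by `S_RAW`.) -/
def S_STK : Prop := ∀ (k : ℕ) (X : Type) [TopologicalSpace X] [CompactSpace X] [T2Space X] [Sys X]
  (c : Om k) (x x1 : X) (μ0 μ1 μ2 : X → PM k) (C : Finset (Fin k)) (κ1 κ2 : Measure (PM k)),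
  EH c x x1 μ0 μ1 μ2 C κ1 κ2 → ∀ (D : Finset (Fin k)) (F1 F2 : List (Wd k))
  (N : Set ((Om k × Om k × Om k) × X)), NS c x x1 μ0 μ2 C κ1 κ2 D F1 F2 N →
  ∀ (P : W2 k) (r : Fin k), Bl3 c ((sd κ1 F1).prod (sd κ2 F2)) P r →
  ∀ᵐ v ∂(μ2 x1 : Measure (Om k)),
    0 < ((sd κ1 (P.1 :: F1)).prod (sd κ2 (P.2 :: F2)))
      {p | ((p.1, p.2, v), x1) ∈ RW c x ((sd κ1 F1).prod (sd κ2 F2)) P ∩ N} →
    v 0 ∉ insert r D

/-- [STP] the step of the nested construction (`S_STA`, `S_STC`, `S_STK`; positivity by `S_SDB`: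
`sd κ1 (P.1 :: F1) univ = sd κ1 F1 [P.1]`). -/
def S_STP3 : Prop := ∀ (k : ℕ) (X : Type) [TopologicalSpace X] [CompactSpace X] [T2Space X] [Sys X]
  (c : Om k) (x x1 : X) (μ0 μ1 μ2 : X → PM k) (C : Finset (Fin k)) (κ1 κ2 : Measure (PM k)),
  EH c x x1 μ0 μ1 μ2 C κ1 κ2 → ∀ (D : Finset (Fin k)) (F1 F2 : List (Wd k))
  (N : Set ((Om k × Om k × Om k) × X)), NS c x x1 μ0 μ2 C κ1 κ2 D F1 F2 N →
  CaseII3 c ((sd κ1 F1).prod (sd κ2 F2)) → ∀ r ∈ C,
    ∃ F1' F2' N', NS c x x1 μ0 μ2 C κ1 κ2 (insert r D) F1' F2' N'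

/-- [MAS] the masses: in a state, `(μ1 y × μ2 y) (N_w)` is a positive constant on `MS μ0 x`. (Take
`z ∈ supp (μ0 x)`; `(z, x) ∈ omg (c, x)` by `ex`, so there is an ultrafilter `G ≤ atTop` with
`T^n (c, x) → (z, x)`; the limit `τ` of the state measure (`S_CMP`) is carried by the section at
`(z, x)` (`car`), its total mass is that of the state measure, positive, and
`τ ≤ μ1 x × μ2 x` (`S_CMD`). `S_MCE` for `M = MS μ0 x`.) -/
def S_MAS : Prop := ∀ (k : ℕ) (X : Type) [TopologicalSpace X] [CompactSpace X] [T2Space X] [Sys X]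
  (c : Om k) (x x1 : X) (μ0 μ1 μ2 : X → PM k) (C : Finset (Fin k)) (κ1 κ2 : Measure (PM k)),
  EH c x x1 μ0 μ1 μ2 C κ1 κ2 → ∀ (D : Finset (Fin k)) (F1 F2 : List (Wd k))
  (N : Set ((Om k × Om k × Om k) × X)), NS c x x1 μ0 μ2 C κ1 κ2 D F1 F2 N →
  ∃ a : ℝ≥0∞, 0 < a ∧ ∀ w y, (w, y) ∈ MS μ0 x →
    ((μ1 y : Measure (Om k)).prod (μ2 y : Measure (Om k))) {p | ((w, p), y) ∈ N} = a

/-- [FNL] not all colours of `C` can be killed. (By `S_MAS` and Fubini at `x1`, for some `ε > 0` the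
closed invariant set `R = {((w, u), y) | ε ≤ μ2 y {v | ((w, u, v), y) ∈ N}}` (`AK.S_USC`) has
positive `μ0 x1 × μ1 x1`-measure, so by the 0-1 law `zo` measure one. The state measure is dominated
by `μ1 x × μ2 x = μ0 x1 × μ1 x1` (`S_STA`), so for a.e. `(w, u)` the section has `μ2 x1`-measure
`≥ ε`, and by Fubini `∫ ν (N^v) dμ2 x1 (v) ≥ ε ν (univ) > 0`. So there is a set of positive
`μ2 x1`-measure of `v` with `ν (N^v) > 0`, there `v 0 ∉ C` by `kil`: contradiction to `pal`.) -/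
def S_FNL : Prop := ∀ (k : ℕ) (X : Type) [TopologicalSpace X] [CompactSpace X] [T2Space X] [Sys X]
  (c : Om k) (x x1 : X) (μ0 μ1 μ2 : X → PM k) (C : Finset (Fin k)) (κ1 κ2 : Measure (PM k)),
  EH c x x1 μ0 μ1 μ2 C κ1 κ2 → ∀ (F1 F2 : List (Wd k)) (N : Set ((Om k × Om k × Om k) × X)),
  ¬ NS c x x1 μ0 μ2 C κ1 κ2 C F1 F2 N

/-- [GCE] Case I gives the greedy property (as `N3.S_GCA`, for any finite measure). -/
def S_GCE : Prop := ∀ (k : ℕ) (c : Om k) (ν : Measure (Om k × Om k)) [IsFiniteMeasure ν],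
  ¬ CaseII3 c ν → GRD c ν

/-- [END] the final argument (`S_INI`, `S_STP3` for all colours of `C`, `S_FNL`, `S_GCE`). -/
def S_END : Prop := ∀ (k : ℕ) (X : Type) [TopologicalSpace X] [CompactSpace X] [T2Space X] [Sys X]
  (c : Om k) (x x1 : X) (μ0 μ1 μ2 : X → PM k) (C : Finset (Fin k)) (κ1 κ2 : Measure (PM k)),
  EH c x x1 μ0 μ1 μ2 C κ1 κ2 → ∃ F1 F2 : List (Wd k), GRD c ((sd κ1 F1).prod (sd κ2 F2))

end

end Pool.Agent.Work.MP_69fea5_lc.W3
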