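import Pool.Agent.Work.MP_69fea5_lc.W3.StmtsF1
import Pool.Agent.Work.MP_69fea5_lc.W3.StmtsE

set_option autoImplicit false

namespace Pool.Agent.Work.MP_69fea5_lc.W3

open MeasureTheory Topology Set Filter TopologicalSpace
open scoped NNReal ENNReal
open Pool.Agent.Work.MP_69fea5_lc.AK

namespace I_EHA

theorem orb_eq {X : Type} [TopologicalSpace X] [Sys X] {K : Set X} (hK : MinSet K) {x : X}
    (hx : x ∈ K) : orb x = K := by
  refine hK.min _ isClosed_closure ⟨x, subset_closure ⟨0, sh_zero x⟩⟩ ?_ ?_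
  · intro n y hy
    refine map_mem_closure (sh_cont n) hy ?_
    rintro _ ⟨m, rfl⟩
    exact ⟨n + m, sh_add n m x⟩
  · refine closure_minimal ?_ hK.closed
    rintro _ ⟨n, rfl⟩
    exact hK.inv n x hx

theorem cip_ipb {k : ℕ} {X : Type} [TopologicalSpace X] [Sys X] {M : Set (Om k × X)}
    {ρ : Om k → Om k → X → ℝ} (h : CIP M ρ) : IPB M ρ where
  cont := h.cont
  inv n x u u' hu hu' := h.inv n u u' x hu hu'
  self x u hu := h.self u x hu
  nonneg x u u' hu hu' := h.nonneg u u' x hu hu'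
  symm x u u' hu hu' := h.symm u u' x hu hu'
  tri x u u' u'' hu hu' hu'' := h.tri u u' u'' x hu hu' hu''

theorem sd_nil {k : ℕ} (κ : ProbabilityMeasure (PM k)) (m : PM k) (h : Bar κ id m) :
    sd (κ : Measure (PM k)) [] = (m : Measure (Om k)) := by
  have h1 : (wt [] : PM k → ℝ≥0∞) = 1 := by
    funext x
    simp [wt]
  unfold sd
  rw [h1, withDensity_one]
  exact h

/-- the support is contained in closed sets of measure one -/
theorem supp_sub {k : ℕ} (m : PM k) {F : Set (Om k)} (hF : IsClosed F)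
    (h : (m : Measure (Om k)) F = 1) : supp m ⊆ F := by
  intro z hz
  by_contra hzF
  have h1 := hz Fᶜ hF.isOpen_compl hzF
  have h2 : (m : Measure (Om k)) Fᶜ = 0 := (prob_compl_eq_zero_iff hF.measurableSet).2 h
  have h3 : m Fᶜ = 0 := by
    rw [← ENNReal.coe_inj, ProbabilityMeasure.ennreal_coeFn_eq_coeFn_toMeasure, h2]
    rfl
  exact absurd h3 h1.ne'

/-- the members of the decomposition live on the fibres -/
theorem memb {k : ℕ} (h5 : S_SDB) (κ : ProbabilityMeasure (PM k)) (m₀ : PM k)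
    (h : Bar κ id m₀) {F : Set (Om k)} (hF : IsClosed F) (hm : (m₀ : Measure (Om k)) F = 1) :
    ∀ᵐ m ∂(κ : Measure (PM k)), supp m ⊆ F := by
  obtain ⟨-, -, -, -, -, -, -, -, h9⟩ := h5 k (κ : Measure (PM k)) []
  filter_upwards [h9] with m hmm
  exact supp_sub m hF (hmm F hF (by rw [sd_nil κ m₀ h]; exact hm))

end I_EHA

open I_EHA in
theorem EHA_pf (h1 : S_CHL) (h2 : S_EX1) (h3 : S_F1X) (h4 : S_CHP) (h5 : S_SDB) (h6 : S_BCF) :
    S_EHA := by
  intro k c Y C X' X₂ C₂ _ _ _ _ _ _ _ _ _ _ _ _ _ _ _ _ _ _ A ms θ v₀ v₁ E q lm Ξ Y₂ q₂ A₂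
    ms₂ θ₂ p₂ ξ D κ1 κ2 hPE hZ hC hL hξ hex hb1 hb2 hd1 hd2 hq1 hq2 hpal
  have horb : orb ξ = Ξ := orb_eq hC.min hξ
  have hx1 : (fun a => ξ (a + 1)) ∈ Ξ := hC.step ξ hξ
  have hlev := fun j => (h1 k Y C X' A ms θ v₀ v₁ E q lm Ξ hPE hC j ξ hξ).2
  have hbch := fun j => (h1 k Y C X' A ms θ v₀ v₁ E q lm Ξ hPE hC j ξ hξ).1
  have huni := fun j => h4 k Y C X' X₂ C₂ A ms θ v₀ v₁ E q lm Ξ Y₂ q₂ A₂ ms₂ θ₂ p₂ hPE hC hL j
    ξ hξ
  have hone : ∀ (j : ℕ), ∀ η ∈ Ξ,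
      (lm (η j) : Measure (Om k)) {u | (u, η) ∈ MS (fun ξ : ℕ → X' => lm (ξ j)) ξ} = 1 := by
    intro j η hη
    have hs := (h6 _ _ _ _ _ _ _ (hbch j)).2.1
    rw [← hs] at hη
    obtain ⟨p, hp, rfl⟩ := hη
    have := (hlev j).one p hp
    rw [← ENNReal.coe_inj, ProbabilityMeasure.ennreal_coeFn_eq_coeFn_toMeasure] at this
    exact this
  have hcl : ∀ (j : ℕ) (η : ℕ → X'),
      IsClosed {u : Om k | (u, η) ∈ MS (fun ξ : ℕ → X' => lm (ξ j)) ξ} := fun j η =>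
    (isClosed_closure : IsClosed (MS (fun ξ : ℕ → X' => lm (ξ j)) ξ)).preimage
      (Continuous.prodMk_left η)
  have key : ∀ (j : ℕ) (κ : ProbabilityMeasure (PM k)), Bar κ id (lm (ξ (j + 1))) →
      (∀ᵐ m ∂(κ : Measure (PM k)), Dcp A₂ θ₂ (p₂ (ξ (j + 1))) m) →
      ∀ᵐ m ∂(κ : Measure (PM k)), ∀ z ∈ supp m, ∀ z' ∈ supp m,
        (∀ ρ, CIP (MS (fun ξ : ℕ → X' => lm (ξ (j + 1))) ξ) ρ → ρ z z' ξ = 0) ∧
        ∀ ρ, CIP (MS (fun ξ : ℕ → X' => lm (ξ j)) ξ) ρ → ρ z z' (fun a => ξ (a + 1)) = 0 := by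
    intro j κ hb hd
    have e1 := memb h5 κ _ hb (hcl (j + 1) ξ) (hone (j + 1) ξ hξ)
    have e2 := memb h5 κ _ hb (hcl j fun a => ξ (a + 1)) (hone j _ hx1)
    filter_upwards [e1, e2, hd] with m h1m h2m hdm z hz z' hz'
    obtain ⟨t, ht⟩ := hdm
    refine ⟨fun ρ hρ => ?_, fun ρ hρ => ?_⟩
    · exact huni (j + 1) ρ (cip_ipb hρ) ξ z z' (h1m hz) (h1m hz')
        ((ht z hz).2.trans (ht z' hz').2.symm)
    · exact huni j ρ (cip_ipb hρ) (fun a => ξ (a + 1)) z z' (h2m hz) (h2m hz')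
        ((ht z hz).2.trans (ht z' hz').2.symm)
  exact
    { c0 := hPE.cont.comp (continuous_apply 0)
      c1 := hPE.cont.comp (continuous_apply 1)
      c2 := hPE.cont.comp (continuous_apply 2)
      e0 := fun n y => hPE.equi n (y 0)
      e1 := fun n y => hPE.equi n (y 1)
      e2 := fun n y => hPE.equi n (y 2)
      minX := by rw [horb]; exact hC.min
      mem1 := by rw [horb]; exact hx1
      s0 := rfl
      s1 := rfl
      m0 := (hlev 0).min
      m1 := (hlev 1).min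
      m2 := (hlev 2).min
      ex := h2 k c _ _ _ _ _ _ (hbch 0) ξ hξ hex
      zo := fun R hR hRi y hy => h3 _ _ _ _ A ms θ v₀ v₁ E q lm Ξ hPE hZ hC R hR hRi y
        (by rw [← horb]; exact hy)
      p1 := inferInstance
      p2 := inferInstance
      b1 := sd_nil κ1 _ hb1
      b2 := sd_nil κ2 _ hb2
      d1 := key 0 κ1 hb1 hd1
      d2 := key 1 κ2 hb2 hd2
      q1 := hq1
      q2 := hq2
      pal := hpal }

end Pool.Agent.Work.MP_69fea5_lc.W3
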