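import Pool.Agent.Work.MP_69fea5_lc.W3.StmtsT

/-!
# Item ENV: the energy: continuity, bounds, and the variance
-/

set_option autoImplicit false

namespace Pool.Agent.Work.MP_69fea5_lc.W3

open MeasureTheory Topology Set Filter TopologicalSpace
open scoped NNReal ENNReal
open Pool.Agent.Work.MP_69fea5_lc.AK

namespace I_ENV

section aux

variable {K : Type} [TopologicalSpace K] [MeasurableSpace K] [CS K]

theorem cint (g : K → ℝ) (hg : Continuous g) :
    Continuous fun m : ProbabilityMeasure K => ∫ z, g z ∂(m : Measure K) := by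
  have := ProbabilityMeasure.continuous_integral_boundedContinuousFunction
        (X := K) (BoundedContinuousFunction.mkOfCompact ⟨g, hg⟩)
  exact this

theorem iint (g : K → ℝ) (hg : Continuous g) (m : ProbabilityMeasure K) :
    Integrable g (m : Measure K) :=
  (BoundedContinuousFunction.mkOfCompact ⟨g, hg⟩).integrable _

omit [TopologicalSpace K] [CS K] in
theorem bint (g : K → ℝ) (hb : ∀ z, |g z| ≤ 1) (m : ProbabilityMeasure K) :
    |∫ z, g z ∂(m : Measure K)| ≤ 1 := by
  have h : ‖∫ z, g z ∂(m : Measure K)‖ ≤ 1 * ((m : Measure K)).real univ :=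
    norm_integral_le_of_norm_le_const (ae_of_all _ hb)
  have h10 : ((m : Measure K)).real univ = 1 := by simp
  rw [h10, mul_one] at h
  exact h

/-- the variance -/
noncomputable def vr (g : K → ℝ) (ν : ProbabilityMeasure K) : ℝ :=
  ∫ z, (g z) ^ 2 ∂(ν : Measure K) - (∫ z, g z ∂(ν : Measure K)) ^ 2

theorem vr_eq (g : K → ℝ) (hg : Continuous g) (ν : ProbabilityMeasure K) :
    vr g ν = ∫ z, (g z - ∫ w, g w ∂(ν : Measure K)) ^ 2 ∂(ν : Measure K) := by
  set c := ∫ w, g w ∂(ν : Measure K) with hc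
  have h1 : (fun z => (g z - c) ^ 2) = fun z => (g z) ^ 2 - (2 * c) * g z + c ^ 2 := by
    funext z; ring
  have i1 : Integrable (fun z => (g z) ^ 2) (ν : Measure K) := iint _ (hg.pow 2) ν
  have i2 : Integrable (fun z => (2 * c) * g z) (ν : Measure K) := (iint _ hg ν).const_mul _
  have i3 : Integrable (fun z => (g z) ^ 2 - (2 * c) * g z) (ν : Measure K) := i1.sub i2
  rw [h1, integral_add i3 (integrable_const _), integral_sub i1 i2, integral_const_mul, ← hc]
  simp only [integral_const, vr, ← hc]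
  simp
  ring

theorem vr_nonneg (g : K → ℝ) (hg : Continuous g) (ν : ProbabilityMeasure K) : 0 ≤ vr g ν := by
  rw [vr_eq g hg]
  exact integral_nonneg fun z => sq_nonneg _

omit [TopologicalSpace K] [CS K] in
theorem vr_le (g : K → ℝ) (hb : ∀ z, |g z| ≤ 1) (ν : ProbabilityMeasure K) : vr g ν ≤ 1 := by
  have h : |∫ z, (g z) ^ 2 ∂(ν : Measure K)| ≤ 1 := by
    refine bint _ (fun z => ?_) ν
    rw [abs_of_nonneg (sq_nonneg _)]
    exact (sq_le_one_iff_abs_le_one _).2 (hb z)
  have h2 := (abs_le.1 h).2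
  have h3 := sq_nonneg (∫ z, g z ∂(ν : Measure K))
  unfold vr
  linarith

theorem vr_zero (g : K → ℝ) (hg : Continuous g) (ν : ProbabilityMeasure K) (h : vr g ν = 0) :
    ∀ᵐ z ∂(ν : Measure K), g z = ∫ w, g w ∂(ν : Measure K) := by
  rw [vr_eq g hg] at h
  have hc : Continuous fun z => (g z - ∫ w, g w ∂(ν : Measure K)) ^ 2 :=
    (hg.sub continuous_const).pow 2
  rw [integral_eq_zero_iff_of_nonneg (fun z => sq_nonneg _) (iint _ hc ν)] at h
  filter_upwards [h] with z hz
  have : (g z - ∫ w, g w ∂(ν : Measure K)) ^ 2 = 0 := hz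
  exact sub_eq_zero.1 (pow_eq_zero_iff (two_ne_zero) |>.1 this)

theorem vr_cont (g : K → ℝ) (hg : Continuous g) : Continuous (vr g) :=
  (cint _ (hg.pow 2)).sub ((cint _ hg).pow 2)

end aux

theorem sm (a : ℕ → ℝ) (h0 : ∀ i, 0 ≤ a i) (h1 : ∀ i, a i ≤ 1) :
    Summable fun i : ℕ => (1 / 2 : ℝ) ^ i * a i := by
  refine Summable.of_nonneg_of_le (fun i => mul_nonneg (by positivity) (h0 i))
    (fun i => ?_) summable_geometric_two
  exact mul_le_of_le_one_right (by positivity) (h1 i)

theorem csum {K : Type} [TopologicalSpace K] (a : ℕ → K → ℝ) (h0 : ∀ i x, 0 ≤ a i x)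
    (h1 : ∀ i x, a i x ≤ 1) (hc : ∀ i, Continuous (a i)) :
    Continuous fun x => ∑' i : ℕ, (1 / 2 : ℝ) ^ i * a i x := by
  refine continuous_tsum (fun i => continuous_const.mul (hc i)) summable_geometric_two
    fun i x => ?_
  rw [Real.norm_eq_abs, abs_of_nonneg (mul_nonneg (by positivity) (h0 i x))]
  exact mul_le_of_le_one_right (by positivity) (h1 i x)

end I_ENV

open I_ENV in
theorem ENV_pf (h1 : S_BRX) : S_ENV := by
  intro O _ _ _ f hf
  have hφc : ∀ i, Continuous fun m : ProbabilityMeasure O => ∫ z, f i z ∂(m : Measure O) :=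
    fun i => cint _ (hf.cont i)
  have hφb : ∀ i (m : ProbabilityMeasure O), |∫ z, f i z ∂(m : Measure O)| ≤ 1 :=
    fun i m => bint _ (hf.bd i) m
  have hsq0 : ∀ i (m : ProbabilityMeasure O), 0 ≤ (∫ z, f i z ∂(m : Measure O)) ^ 2 :=
    fun i m => sq_nonneg _
  have hsq1 : ∀ i (m : ProbabilityMeasure O), (∫ z, f i z ∂(m : Measure O)) ^ 2 ≤ 1 :=
    fun i m => (sq_le_one_iff_abs_le_one _).2 (hφb i m)
  have hEc : Continuous fun m : ProbabilityMeasure O => En f m :=
    csum (fun i (m : ProbabilityMeasure O) => (∫ z, f i z ∂(m : Measure O)) ^ 2) hsq0 hsq1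
      fun i => (hφc i).pow 2
  refine ⟨hEc, fun m => ⟨?_, ?_⟩, ?_⟩
  · exact tsum_nonneg fun i => mul_nonneg (by positivity) (hsq0 i m)
  · have hs := sm _ (fun i => hsq0 i m) (fun i => hsq1 i m)
    have : En f m ≤ ∑' i : ℕ, (1 / 2 : ℝ) ^ i := by
      refine Summable.tsum_le_tsum (fun i => ?_) hs summable_geometric_two
      exact mul_le_of_le_one_right (by positivity) (hsq1 i m)
    rw [tsum_geometric_two] at this
    exact this
  · let φ : ℕ → ProbabilityMeasure O → ℝ := fun i m => ∫ z, f i z ∂(m : Measure O)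
    have hv0 : ∀ i (ν : ProbabilityMeasure (ProbabilityMeasure O)), 0 ≤ vr (φ i) ν :=
      fun i ν => vr_nonneg _ (hφc i) ν
    have hv1 : ∀ i (ν : ProbabilityMeasure (ProbabilityMeasure O)), vr (φ i) ν ≤ 1 :=
      fun i ν => vr_le _ (hφb i) ν
    have hvs := fun ν : ProbabilityMeasure (ProbabilityMeasure O) =>
      sm (fun i => vr (φ i) ν) (fun i => hv0 i ν) (fun i => hv1 i ν)
    refine ⟨fun ν => ∑' i : ℕ, (1 / 2 : ℝ) ^ i * vr (φ i) ν, ?_, ?_, ?_, ?_⟩
    · exact csum (fun i (ν : ProbabilityMeasure (ProbabilityMeasure O)) => vr (φ i) ν) hv0 hv1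
        fun i => vr_cont _ (hφc i)
    · intro ν
      exact tsum_nonneg fun i => mul_nonneg (by positivity) (hv0 i ν)
    · intro ν m hm
      have hbar : ∀ i, ∫ m', φ i m' ∂(ν : Measure (ProbabilityMeasure O)) = φ i m := fun i =>
        ((h1 (ProbabilityMeasure O) O ν id measurable_id).2.2.2 m hm (f i) (hf.cont i)).symm
      have hi : ∀ i, Integrable (fun m' : ProbabilityMeasure O => (1 / 2 : ℝ) ^ i * (φ i m') ^ 2)
          (ν : Measure (ProbabilityMeasure O)) := fun i =>
        iint _ (continuous_const.mul ((hφc i).pow 2)) ν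
      have hq1 : ∀ i, ∫ m', (φ i m') ^ 2 ∂(ν : Measure (ProbabilityMeasure O)) ≤ 1 := fun i => by
        have := bint (fun m' => (φ i m') ^ 2) (fun m' => by
          rw [abs_of_nonneg (sq_nonneg _)]; exact hsq1 i m') ν
        exact (abs_le.1 this).2
      have hq0 : ∀ i, 0 ≤ ∫ m', (φ i m') ^ 2 ∂(ν : Measure (ProbabilityMeasure O)) := fun i =>
        integral_nonneg fun m' => sq_nonneg _
      have hcm : ∀ i, ∫ m', (1 / 2 : ℝ) ^ i * (φ i m') ^ 2 ∂(ν : Measure (ProbabilityMeasure O)) =
          (1 / 2 : ℝ) ^ i * ∫ m', (φ i m') ^ 2 ∂(ν : Measure (ProbabilityMeasure O)) :=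
        fun i => integral_const_mul _ _
      have hsum : Summable fun i : ℕ =>
          ∫ m', ‖(1 / 2 : ℝ) ^ i * (φ i m') ^ 2‖ ∂(ν : Measure (ProbabilityMeasure O)) := by
        have h2 : ∀ i : ℕ,
            ∫ m', ‖(1 / 2 : ℝ) ^ i * (φ i m') ^ 2‖ ∂(ν : Measure (ProbabilityMeasure O)) =
            (1 / 2 : ℝ) ^ i * ∫ m', (φ i m') ^ 2 ∂(ν : Measure (ProbabilityMeasure O)) := by
          intro i
          rw [← hcm i]
          congr 1
          funext m'
          rw [Real.norm_eq_abs, abs_of_nonneg (mul_nonneg (by positivity) (sq_nonneg _))]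
        simp only [h2]
        exact sm _ hq0 hq1
      have h3 : ∫ m', En f m' ∂(ν : Measure (ProbabilityMeasure O)) =
          ∑' i : ℕ, (1 / 2 : ℝ) ^ i *
            ∫ m', (φ i m') ^ 2 ∂(ν : Measure (ProbabilityMeasure O)) := by
        have h4 := integral_tsum_of_summable_integral_norm hi hsum
        simp only [hcm] at h4
        rw [h4]
        rfl
      rw [h3]
      have h5 : ∀ i : ℕ, (1 / 2 : ℝ) ^ i *
            ∫ m', (φ i m') ^ 2 ∂(ν : Measure (ProbabilityMeasure O)) =
          (1 / 2 : ℝ) ^ i * (φ i m) ^ 2 + (1 / 2 : ℝ) ^ i * vr (φ i) ν := by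
        intro i
        unfold vr
        rw [hbar i]
        ring
      simp only [h5]
      exact Summable.tsum_add (sm _ (fun i => hsq0 i m) (fun i => hsq1 i m)) (hvs ν)
    · intro ν hν
      have h0 : ∀ i, vr (φ i) ν = 0 := by
        intro i
        have hν' : ∑' i : ℕ, (1 / 2 : ℝ) ^ i * vr (φ i) ν = 0 := hν
        have hh := (hvs ν).hasSum
        rw [hν'] at hh
        have h2 := (hasSum_zero_iff_of_nonneg
          (fun i => mul_nonneg (by positivity : (0 : ℝ) ≤ (1 / 2) ^ i) (hv0 i ν))).1 hh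
        have h3 := congrFun h2 i
        simp only [Pi.zero_apply, mul_eq_zero] at h3
        rcases h3 with h3 | h3
        · exact absurd h3 (by positivity)
        · exact h3
      have h2 : ∀ᵐ m' ∂(ν : Measure (ProbabilityMeasure O)), ∀ i,
          φ i m' = ∫ w, φ i w ∂(ν : Measure (ProbabilityMeasure O)) :=
        ae_all_iff.2 fun i => vr_zero _ (hφc i) ν (h0 i)
      obtain ⟨m, hm⟩ := h2.exists
      refine ⟨m, ?_⟩
      have h3 : ∀ᵐ m' ∂(ν : Measure (ProbabilityMeasure O)), m' = m := by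
        filter_upwards [h2] with m' hm'
        refine hf.sep m' m fun i => ?_
        exact (hm' i).trans (hm i).symm
      apply Subtype.ext
      change (ν : Measure (ProbabilityMeasure O)) = Measure.dirac m
      ext s hs
      by_cases hms : m ∈ s
      · rw [Measure.dirac_apply' _ hs, indicator_of_mem hms, Pi.one_apply]
        have : ∀ᵐ m' ∂(ν : Measure (ProbabilityMeasure O)), m' ∈ s := by
          filter_upwards [h3] with m' hm'
          rwa [hm']
        exact (prob_compl_eq_zero_iff hs).1 this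
      · rw [Measure.dirac_apply' _ hs, indicator_of_notMem hms]
        have : ∀ᵐ m' ∂(ν : Measure (ProbabilityMeasure O)), m' ∉ s := by
          filter_upwards [h3] with m' hm'
          rwa [hm']
        have h6 := measure_eq_zero_iff_ae_notMem.2 this
        exact h6

end Pool.Agent.Work.MP_69fea5_lc.W3
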