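import Pool.Agent.Work.MP_69fea5_lc.W3.StmtsT

set_option autoImplicit false

namespace Pool.Agent.Work.MP_69fea5_lc.W3

open MeasureTheory Topology Set Filter TopologicalSpace
open scoped NNReal ENNReal
open Pool.Agent.Work.MP_69fea5_lc.AK

namespace I_EX1

variable {X : Type} [TopologicalSpace X] [Sys X]

/-- points of the limit set are limits along ultrafilters -/
theorem exists_ultra {x q : X} (h : q ∈ omg x) : ∃ G : Ultrafilter ℕ, (G : Filter ℕ) ≤ atTop ∧
    Tendsto (fun n : ℕ => sh (n : ℤ) x) (G : Filter ℕ) (𝓝 q) := by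
  have hc : MapClusterPt q atTop (fun n : ℕ => sh (n : ℤ) x) := by
    rw [mapClusterPt_iff_frequently]
    intro s hs
    rw [frequently_atTop]
    intro N
    obtain ⟨n, hn, hn'⟩ := h s hs N
    exact ⟨n, hn, hn'⟩
  rw [mapClusterPt_iff_ultrafilter] at hc
  exact hc

/-- limits along ultrafilters are points of the limit set -/
theorem mem_omg {x q : X} (G : Ultrafilter ℕ) (hG : (G : Filter ℕ) ≤ atTop)
    (h : Tendsto (fun n : ℕ => sh (n : ℤ) x) (G : Filter ℕ) (𝓝 q)) : q ∈ omg x := by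
  intro U hU N
  have h1 : ∀ᶠ n : ℕ in (G : Filter ℕ), sh (n : ℤ) x ∈ U := h hU
  have h2 : ∀ᶠ n : ℕ in (G : Filter ℕ), N ≤ n := hG (eventually_ge_atTop N)
  obtain ⟨n, hn⟩ := (h1.and h2).exists
  exact ⟨n, hn.2, hn.1⟩

end I_EX1

theorem EX1_pf (hOMG : AK.S_OMG) (hBCF : S_BCF) : S_EX1 := by
  intro k c X X' _ _ _ _ _ _ _ _ A E q A' hB e he hex
  obtain ⟨hbcf, -, -⟩ := hBCF (Om k) X X' A E q A' hB
  obtain ⟨p, hp⟩ := hB.minA.ne
  obtain ⟨G, hG, hlim⟩ := I_EX1.exists_ultra (hex hp)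
  have hlim1 : Tendsto (fun n : ℕ => sh (n : ℤ) c) (G : Filter ℕ) (𝓝 p.1) :=
    (continuous_fst.tendsto p).comp hlim
  have hlim2 : Tendsto (fun n : ℕ => sh (n : ℤ) (q e)) (G : Filter ℕ) (𝓝 p.2) :=
    (continuous_snd.tendsto p).comp hlim
  obtain ⟨e', -, he'⟩ := isCompact_univ.ultrafilter_le_nhds
    (G.map (fun n : ℕ => sh (n : ℤ) e)) (by simp)
  have he'' : Tendsto (fun n : ℕ => sh (n : ℤ) e) (G : Filter ℕ) (𝓝 e') := he'
  have heE : e' ∈ E := hB.spx.min.closed.mem_of_tendsto he''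
    (Eventually.of_forall fun n => hB.spx.min.inv _ _ he)
  have hq : q e' = p.2 := by
    have h1 : Tendsto (fun n : ℕ => q (sh (n : ℤ) e)) (G : Filter ℕ) (𝓝 (q e')) :=
      (hB.spx.cont.tendsto e').comp he''
    have h2 : (fun n : ℕ => q (sh (n : ℤ) e)) = fun n : ℕ => sh (n : ℤ) (q e) := by
      funext n
      exact hB.spx.equi _ _
    rw [h2] at h1
    exact tendsto_nhds_unique h1 hlim2
  have hmem : (p.1, e') ∈ omg (c, e) := by
    refine I_EX1.mem_omg G hG ?_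
    exact hlim1.prodMk_nhds he''
  have hPbc : IsClosed (Pb A E q) := by
    have h1 : IsClosed {z : Om k × X' | z.2 ∈ E} := hB.spx.min.closed.preimage continuous_snd
    have h2 : IsClosed {z : Om k × X' | (z.1, q z.2) ∈ A} :=
      hB.minA.closed.preimage (continuous_fst.prodMk (hB.spx.cont.comp continuous_snd))
    exact h1.inter h2
  have hPbi : AK.Inv (Pb A E q) := by
    intro n z hz
    refine ⟨hB.spx.min.inv n _ hz.1, ?_⟩
    change (sh n z.1, q (sh n z.2)) ∈ A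
    rw [hB.spx.equi]
    exact hB.minA.inv n _ hz.2
  obtain ⟨ho1, ho2, -⟩ := hOMG (Om k × X') (c, e)
  have hsub := hbcf (omg (c, e) ∩ Pb A E q) (ho1.inter hPbc)
    ⟨(p.1, e'), hmem, heE, by
      change (p.1, q e') ∈ A
      rw [hq]; exact hp⟩
    (fun n z hz => ⟨ho2 n z hz.1, hPbi n z hz.2⟩) Set.inter_subset_right
  exact fun z hz => (hsub hz).1

end Pool.Agent.Work.MP_69fea5_lc.W3
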