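import Pool.Agent.Work.MP_69fea5_lc.W3.StmtsT

/-!
Item EX2 of the toolbox: the phase of a limit of points of the support which agree with `c` on long
windows is exact.
-/

set_option autoImplicit false

namespace Pool.Agent.Work.MP_69fea5_lc.W3

open MeasureTheory Topology Set Filter TopologicalSpace
open scoped NNReal ENNReal
open Pool.Agent.Work.MP_69fea5_lc.AK

namespace I_EX2

/-- the times and the points of `ZSX`, as sequences -/
theorem exists_seq {k : ℕ} {X : Type} [TopologicalSpace X] [FirstCountableTopology X] [Sys X]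
    {c : Om k} {m : PM k} {x : X} {z : Om k} (h : ZSX c m x z) :
    ∃ (n : ℕ → ℕ) (g : ℕ → Om k), (∀ i, i ≤ n i) ∧ (∀ i, g i ∈ supp m) ∧
      Tendsto (fun i => sh (n i : ℤ) x) atTop (𝓝 x) ∧ Tendsto g atTop (𝓝 z) ∧
      ∀ i : ℕ, ∀ j : ℤ, |j| ≤ (i : ℤ) → g i ((n i : ℤ) + j) = c ((n i : ℤ) + j) := by
  obtain ⟨U, hU⟩ := (𝓝 z).exists_antitone_basis
  obtain ⟨V, hV⟩ := (𝓝 x).exists_antitone_basis
  have h1 : ∀ i : ℕ, ∃ (n : ℕ) (g : Om k), i ≤ n ∧ sh (n : ℤ) x ∈ V i ∧ g ∈ supp m ∧ g ∈ U i ∧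
      ∀ j : ℤ, |j| ≤ (i : ℤ) → g ((n : ℤ) + j) = c ((n : ℤ) + j) := by
    intro i
    obtain ⟨n, hn, hx, g, hg, hj⟩ := h (U i) (hU.mem i) (V i) (hV.mem i) i
    exact ⟨n, g, hn, hx, hg.1, hg.2, hj⟩
  choose n g hn hx hg hgU hj using h1
  exact ⟨n, g, hn, hg, hV.tendsto hx, hU.tendsto hgU, hj⟩

/-- shifts of points which agree with `c` on long windows have the same limit -/
theorem lim_eq {k : ℕ} {c h : Om k} {n : ℕ → ℕ} {g : ℕ → Om k} {G : Filter ℕ}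
    (hG : G ≤ atTop)
    (hj : ∀ i : ℕ, ∀ j : ℤ, |j| ≤ (i : ℤ) → g i ((n i : ℤ) + j) = c ((n i : ℤ) + j))
    (hc : Tendsto (fun i => sh (n i : ℤ) c) G (𝓝 h)) :
    Tendsto (fun i => sh (n i : ℤ) (g i)) G (𝓝 h) := by
  rw [tendsto_pi_nhds] at hc ⊢
  intro j
  refine (hc j).congr' ?_
  have h1 : ∀ᶠ i : ℕ in G, j.natAbs ≤ i := hG (eventually_ge_atTop _)
  filter_upwards [h1] with i hi
  change c (j + (n i : ℤ)) = g i (j + (n i : ℤ))
  rw [add_comm j, hj i j]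
  rw [Int.abs_eq_natAbs]
  exact_mod_cast hi

end I_EX2

theorem EX2_pf (hOMG : AK.S_OMG) (hLEB : S_LEB) : S_EX2 := by
  intro k c X C _ _ _ _ _ _ _ _ A ms θ hL hP x hx z hz
  have hcl := hL.min.closed
  have hinv := hL.min.inv
  obtain ⟨n, g, hn, hg, hnx, hgz, hj⟩ := I_EX2.exists_seq hz
  -- the points `(g i, x)` are in `A`
  have hgA : ∀ i, (g i, x) ∈ A := fun i => (hLEB (Om k) X A ms hL).2 x hx (g i) (hg i)
  have hzA : (z, x) ∈ A :=
    hcl.mem_of_tendsto (hgz.prodMk_nhds tendsto_const_nhds) (Eventually.of_forall hgA)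
  -- the ultrafilter and the limits
  obtain ⟨G, hG⟩ : ∃ G : Ultrafilter ℕ, (G : Filter ℕ) ≤ atTop :=
    ⟨Ultrafilter.of atTop, Ultrafilter.of_le _⟩
  obtain ⟨h, -, hh⟩ := isCompact_univ.ultrafilter_le_nhds
    (G.map (fun i : ℕ => sh (n i : ℤ) c)) (by simp)
  have hc : Tendsto (fun i : ℕ => sh (n i : ℤ) c) (G : Filter ℕ) (𝓝 h) := hh
  obtain ⟨t, -, ht⟩ := isCompact_univ.ultrafilter_le_nhds
    (G.map (fun i : ℕ => sh (n i : ℤ) (θ (z, x)))) (by simp)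
  have ht' : Tendsto (fun i : ℕ => sh (n i : ℤ) (θ (z, x))) (G : Filter ℕ) (𝓝 t) := ht
  have hgh : Tendsto (fun i : ℕ => sh (n i : ℤ) (g i)) (G : Filter ℕ) (𝓝 h) :=
    I_EX2.lim_eq hG hj hc
  have hxG : Tendsto (fun i : ℕ => sh (n i : ℤ) x) (G : Filter ℕ) (𝓝 x) := hnx.mono_left hG
  have hgx : Tendsto (fun i : ℕ => sh (n i : ℤ) ((g i, x) : Om k × X)) (G : Filter ℕ)
      (𝓝 (h, x)) := hgh.prodMk_nhds hxG
  have hgxA : ∀ i, sh (n i : ℤ) ((g i, x) : Om k × X) ∈ A := fun i => hinv _ _ (hgA i)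
  have hhA : (h, x) ∈ A := hcl.mem_of_tendsto hgx (Eventually.of_forall hgxA)
  -- the phases of the shifted points
  have hθh : Tendsto (fun i : ℕ => θ (sh (n i : ℤ) ((g i, x) : Om k × X))) (G : Filter ℕ)
      (𝓝 (θ (h, x))) :=
    (hP.cont (h, x) hhA).tendsto.comp
      (tendsto_nhdsWithin_iff.2 ⟨hgx, Eventually.of_forall hgxA⟩)
  have hθh' : Tendsto (fun i : ℕ => sh (n i : ℤ) (θ (g i, x))) (G : Filter ℕ)
      (𝓝 (θ (h, x))) := by
    refine hθh.congr fun i => ?_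
    exact hP.equi _ (hgA i) _
  have hθz : Tendsto (fun i : ℕ => θ (g i, x)) (G : Filter ℕ) (𝓝 (θ (z, x))) :=
    (hP.cont (z, x) hzA).tendsto.comp (tendsto_nhdsWithin_iff.2
      ⟨(hgz.mono_left hG).prodMk_nhds tendsto_const_nhds, Eventually.of_forall hgA⟩)
  obtain ⟨d, hd⟩ := hP.iso
  have hJ : ∀ u, (u, x) ∈ A → (θ (u, x), x) ∈ JJ A θ := fun u hu => ⟨(u, x), hu, rfl⟩
  have hJz : (θ (z, x), x) ∈ JJ A θ := hJ z hzA
  have htJ : (t, x) ∈ JJ A θ :=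
    hd.closed.mem_of_tendsto (ht'.prodMk_nhds hxG)
      (Eventually.of_forall fun i => hd.inv (n i : ℤ) _ hJz)
  -- the distances
  have hlim1 : Tendsto (fun i : ℕ => d (sh (n i : ℤ) (θ (g i, x))) (sh (n i : ℤ) (θ (z, x)))
      (sh (n i : ℤ) x)) (G : Filter ℕ) (𝓝 (d (θ (h, x)) t x)) := by
    have h1 : ContinuousWithinAt (fun p : C × C × X => d p.1 p.2.1 p.2.2)
        {p | (p.1, p.2.2) ∈ JJ A θ ∧ (p.2.1, p.2.2) ∈ JJ A θ} (θ (h, x), t, x) :=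
      hd.ipb.cont _ ⟨hJ h hhA, htJ⟩
    refine Tendsto.comp (f := fun i : ℕ => ((sh (n i : ℤ) (θ (g i, x)),
      sh (n i : ℤ) (θ (z, x)), sh (n i : ℤ) x) : C × C × X)) h1.tendsto
      (tendsto_nhdsWithin_iff.2 ⟨hθh'.prodMk_nhds (ht'.prodMk_nhds hxG), ?_⟩)
    exact Eventually.of_forall fun i =>
      ⟨hd.inv (n i : ℤ) _ (hJ (g i) (hgA i)), hd.inv (n i : ℤ) _ hJz⟩
  have hlim2 : Tendsto (fun i : ℕ => d (θ (g i, x)) (θ (z, x)) x) (G : Filter ℕ)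
      (𝓝 (d (θ (z, x)) (θ (z, x)) x)) := by
    have h1 : ContinuousWithinAt (fun p : C × C × X => d p.1 p.2.1 p.2.2)
        {p | (p.1, p.2.2) ∈ JJ A θ ∧ (p.2.1, p.2.2) ∈ JJ A θ} (θ (z, x), θ (z, x), x) :=
      hd.ipb.cont _ ⟨hJz, hJz⟩
    refine Tendsto.comp (f := fun i : ℕ => ((θ (g i, x), θ (z, x), x) : C × C × X)) h1.tendsto
      (tendsto_nhdsWithin_iff.2 ⟨hθz.prodMk_nhds
        (tendsto_const_nhds.prodMk_nhds tendsto_const_nhds), ?_⟩)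
    exact Eventually.of_forall fun i => ⟨hJ (g i) (hgA i), hJz⟩
  have hlim3 : Tendsto (fun i : ℕ => d (sh (n i : ℤ) (θ (g i, x))) (sh (n i : ℤ) (θ (z, x)))
      (sh (n i : ℤ) x)) (G : Filter ℕ) (𝓝 (d (θ (z, x)) (θ (z, x)) x)) := by
    refine hlim2.congr fun i => ?_
    exact (hd.ipb.inv (n i : ℤ) x _ _ (hJ (g i) (hgA i)) hJz).symm
  have hdz : d (θ (h, x)) t x = 0 := by
    rw [tendsto_nhds_unique hlim1 hlim3]
    exact hd.ipb.self x _ hJz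
  have hθt : θ (h, x) = t := hd.sep x _ _ (hJ h hhA) htJ hdz
  -- the limit set
  obtain ⟨ho1, ho2, -⟩ := hOMG (Om k × (X × C)) (c, (x, θ (z, x)))
  have hmem : (h, (x, θ (h, x))) ∈ omg (c, (x, θ (z, x))) := by
    have hlim : Tendsto (fun i : ℕ => sh (n i : ℤ) ((c, (x, θ (z, x))) : Om k × (X × C)))
        (G : Filter ℕ) (𝓝 (h, (x, θ (h, x)))) := by
      rw [hθt]
      exact hc.prodMk_nhds (hxG.prodMk_nhds ht')
    intro U hU N
    have h1 : ∀ᶠ i : ℕ in (G : Filter ℕ),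
        sh (n i : ℤ) ((c, (x, θ (z, x))) : Om k × (X × C)) ∈ U := hlim hU
    have h2 : ∀ᶠ i : ℕ in (G : Filter ℕ), N ≤ i := hG (eventually_ge_atTop N)
    obtain ⟨i, hi⟩ := (h1.and h2).exists
    exact ⟨n i, hi.2.trans (hn i), hi.1⟩
  -- the set of the points of `A` with the wanted property is all of `A`
  have hall : ∀ p ∈ A, (p.1, (p.2, θ p)) ∈ omg (c, (x, θ (z, x))) := by
    have hcont : ContinuousOn (fun p : Om k × X => ((p.1, (p.2, θ p)) : Om k × (X × C))) A :=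
      continuousOn_fst.prodMk (continuousOn_snd.prodMk hP.cont)
    have hset : A ∩ (fun p : Om k × X => ((p.1, (p.2, θ p)) : Om k × (X × C))) ⁻¹'
        omg (c, (x, θ (z, x))) = A := by
      refine hL.min.min _ (hcont.preimage_isClosed_of_isClosed hcl ho1) ⟨(h, x), hhA, hmem⟩ ?_
        inter_subset_left
      rintro m p ⟨hp, hp'⟩
      refine ⟨hinv m p hp, ?_⟩
      change ((sh m p).1, ((sh m p).2, θ (sh m p))) ∈ omg (c, (x, θ (z, x)))
      rw [hP.equi p hp m]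
      exact ho2 m _ hp'
    intro p hp
    rw [← hset] at hp
    exact hp.2
  refine ⟨hzA, ?_, hall⟩
  intro p hp U hU N
  have hU' : (fun q : Om k × (X × C) => ((q.1, q.2.1) : Om k × X)) ⁻¹' U ∈
      𝓝 ((p.1, (p.2, θ p)) : Om k × (X × C)) := by
    have h1 : Continuous (fun q : Om k × (X × C) => ((q.1, q.2.1) : Om k × X)) := by fun_prop
    exact h1.continuousAt hU
  obtain ⟨m, hm, hm'⟩ := hall p hp _ hU' N
  exact ⟨m, hm, hm'⟩

end Pool.Agent.Work.MP_69fea5_lc.W3
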