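import Pool.Agent.Work.MP_69fea5_lc.W3.StmtsT
import Pool.Agent.Work.MP_69fea5_lc.AK.I_GLO

set_option autoImplicit false

namespace Pool.Agent.Work.MP_69fea5_lc.W3

open MeasureTheory Topology Set Filter TopologicalSpace
open scoped NNReal ENNReal
open Pool.Agent.Work.MP_69fea5_lc.AK

/-- frames whose `j`-th phase is exact are exact -/
theorem EX3_pf (h1 : S_T7M) (h2 : AK.S_OMG) : S_EX3 := by
  intro k c X C _ _ _ _ _ _ _ _ A θ hP v j hv hex
  obtain ⟨h, hA, ho⟩ := hex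
  obtain ⟨U, hU, hlim⟩ := (AK.I_GLO.omg_iff _ _).1 ho
  obtain ⟨v', hv'⟩ := AK.I_GLO.exists_lim U (fun n : ℕ => sh (n : ℤ) v)
  have hc : Tendsto (fun n : ℕ => sh (n : ℤ) c) U (𝓝 h) :=
    (continuous_fst.tendsto _).comp hlim
  have hx : Tendsto (fun n : ℕ => sh (n : ℤ) v.1) U (𝓝 v.1) :=
    ((continuous_fst.comp continuous_snd).tendsto _).comp hlim
  have hj : Tendsto (fun n : ℕ => sh (n : ℤ) (v.2 j)) U (𝓝 (θ (h, v.1))) :=
    ((continuous_snd.comp continuous_snd).tendsto _).comp hlim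
  have hx' : Tendsto (fun n : ℕ => sh (n : ℤ) v.1) U (𝓝 v'.1) :=
    (continuous_fst.tendsto _).comp hv'
  have hj' : Tendsto (fun n : ℕ => sh (n : ℤ) (v.2 j)) U (𝓝 (v'.2 j)) :=
    (((continuous_apply j).comp continuous_snd).tendsto _).comp hv'
  have e1 : v'.1 = v.1 := tendsto_nhds_unique hx' hx
  have e2 : v'.2 j = θ (h, v.1) := tendsto_nhds_unique hj' hj
  have hvo : v' ∈ orb v := by
    refine isClosed_closure.mem_of_tendsto hv' (Eventually.of_forall fun n => ?_)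
    exact subset_closure ⟨(n : ℤ), rfl⟩
  have hmem : (h, v') ∈ At A θ (orb v) j := by
    refine ⟨hvo, ?_, ?_⟩
    · change (h, v'.1) ∈ A
      rw [e1]
      exact hA
    · change θ (h, v'.1) = v'.2 j
      rw [e1, e2]
  have homg : (h, v') ∈ omg (c, v) :=
    (AK.I_GLO.omg_iff _ _).2 ⟨U, hU, hc.prodMk_nhds hv'⟩
  have hmin := (h1 (Om k) C X A θ hP v hv j).1
  obtain ⟨o1, o2, -⟩ := h2 (Om k × (X × (ℕ → C))) (c, v)
  have key := hmin.min (At A θ (orb v) j ∩ omg (c, v)) (hmin.closed.inter o1)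
    ⟨(h, v'), hmem, homg⟩ (fun n x hx => ⟨hmin.inv n x hx.1, o2 n x hx.2⟩) inter_subset_left
  intro p hp
  rw [← key] at hp
  exact hp.2

end Pool.Agent.Work.MP_69fea5_lc.W3
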