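import Pool.Agent.Work.MP_69fea5_lc.W3.StmtsM
import Pool.Agent.Work.MP_69fea5_lc.AK.I_ORB

/-!
Block [69fea5 F], main line, item EXF: an exact coded frame over every coded exact point of the level.
-/

set_option autoImplicit false

namespace Pool.Agent.Work.MP_69fea5_lc.W3

open MeasureTheory Topology Set Filter TopologicalSpace
open scoped NNReal ENNReal
open Pool.Agent.Work.MP_69fea5_lc.AK
open Pool.Agent.Work.MP_69fea5_lc.HK (Cl DU Ar ArF ArR Dat Law LawC act near sc Pt oc Mn mr ext)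
open Pool.Agent.Work.MP_69fea5_lc.KC (Agree)

namespace I_EXF

/-- a frame over a point of the base with prescribed first phase -/
theorem exists_frame {S : Set (Set ℕ)} {U : Ultrafilter ℕ} (hS : Cl S) (hU : DU S U)
    {Y C : Type} [TopologicalSpace Y] [Sys Y] [Dat Y] [Law Y] [LawC Y] [Agree Y]
    [TopologicalSpace C] [CompactSpace C] [T2Space C] [Sys C] [Dat C] [Law C] [LawC C] [Agree C]
    {v : Y × (ℕ → C)} (hv : Pt S v) {y : Y} {t : C} (hy : Pt S y) (ht : Pt S t)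
    (h : (y, t) ∈ oc (v.1, v.2 0)) :
    ∃ v' ∈ orb v, Pt S v' ∧ v'.1 = y ∧ v'.2 0 = t := by
  have hv0 : Pt S (v.2 0) := sc_pt hS ((pt_pi hS).1 (pt_prod.1 hv).2) 0
  obtain ⟨t', ht', htm⟩ := exists_fibre_point (α := Y × C) (β := ℕ → C) hS hU
    (x₀ := (v.1, v.2 0)) (x := (y, t)) (y₀ := v.2) (pt_prod.2 ⟨(pt_prod.1 hv).1, hv0⟩)
    (pt_prod.1 hv).2 (pt_prod.2 ⟨hy, ht⟩) h
  refine ⟨(y, t'), ?_, pt_prod.2 ⟨hy, ht'⟩, rfl, ?_⟩
  · rw [← KC.oc_eq]
    have hf : Continuous fun q : (Y × C) × (ℕ → C) => ((q.1.1, q.2) : Y × (ℕ → C)) :=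
      (continuous_fst.comp continuous_fst).prodMk continuous_snd
    have h1 := map_mem_closure (t := Set.range fun n : ℤ => act n v) hf htm (by
      rintro _ ⟨n, rfl⟩
      exact ⟨n, rfl⟩)
    exact h1
  · have hcl : IsClosed {q : (Y × C) × (ℕ → C) | q.2 0 = q.1.2} :=
      isClosed_eq ((continuous_apply 0).comp continuous_snd) (continuous_snd.comp continuous_fst)
    have h1 := closure_minimal (s := Set.range fun n : ℤ => act n (((v.1, v.2 0), v.2) :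
      (Y × C) × (ℕ → C))) (by
        rintro _ ⟨n, rfl⟩
        exact rfl) hcl htm
    exact h1

end I_EXF

open I_EXF in
theorem EXF_pf (h1 : S_ZSE) (h2 : S_ZSC) (h3 : S_EX2) (h4 : S_EX3) (h5 : S_AUT) : S_EXF := by
  intro S U hS hU k c hc X _ _ _ _ _ A x A₁ v hLF y' hy' hpy' hex
  have hpv : Pt S v := hLF.cb2.pt
  obtain ⟨z₂, hz₂, hz₂m⟩ := hLF.cb2.ptz
  have hz₂A : (z₂, v.1) ∈ A₁ := hz₂m.2.1
  have hz₂θ : th v.1 (z₂, v.1) = v.2 0 := hz₂m.2.2
  have horb : orb (z₂, v.1) = A₁ := (ORB_pf _ (z₂, v.1)).2.2.2.2.1 A₁ hLF.cb1.min hz₂A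
  have hyB : y' ∈ Prod.snd '' A₁ := by
    refine (ORB_pf _ v.1).2.2.2.1 (Prod.snd '' A₁) ?_ ?_ ⟨_, hz₂A, rfl⟩ hy'
    · exact (hLF.cb1.min.closed.isCompact.image continuous_snd).isClosed
    · rintro n _ ⟨p, hp, rfl⟩
      exact ⟨sh n p, hLF.cb1.min.inv n p hp, rfl⟩
  obtain ⟨z, hz, hzs⟩ := h2 S U hS hU k c (X × PM k) y'.2 y' hc (pt_prod.1 hpy').2 hpy'
    (h1 k c (X × PM k) A₁ Prod.snd hLF.lev y' hyB hex)
  obtain ⟨hzA, -, hzo⟩ := h3 k c (X × PM k) (CPh k) A₁ Prod.snd (th v.1) hLF.lev hLF.pha y' hyB z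
    hzs
  have hθpt : Pt S (th v.1 (z, y')) := by
    have hcont : ContinuousOn (th v.1) (oc (z₂, v.1)) := by
      rw [KC.oc_eq, horb]
      exact hLF.pha.cont
    refine pt_map (w := (z₂, v.1)) (f := th v.1) (x := (z, y')) hS hU hcont ?_ ?_ ?_ ?_ ?_
    · intro n
      rw [Agree.eq, Agree.eq]
      exact hLF.pha.equi _ hz₂A n
    · exact pt_prod.2 ⟨hz₂, (pt_prod.1 hpv).1⟩
    · rw [hz₂θ]
      exact sc_pt hS ((pt_pi hS).1 (pt_prod.1 hpv).2) 0
    · exact pt_prod.2 ⟨hz, hpy'⟩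
    · rw [KC.oc_eq, horb]
      exact hzA
  obtain ⟨d, hd⟩ := hLF.pha.iso
  obtain ⟨hZ, hfrm, -, -, -⟩ := h5 (CPh k) (X × PM k) (JJ A₁ (th v.1)) d hd v hLF.frm
  refine ⟨z, hz, hzs, hzA, hθpt, fun v' hv' hv1 hv0 => ?_, ?_⟩
  · have horbv : orb v' = orb v := (ORB_pf _ v').2.2.2.2.1 (orb v) hZ hv'
    have h6 := h4 k c (X × PM k) (CPh k) A₁ (th v.1) hLF.pha v' 0 (hfrm v' hv') ⟨z, by
      rw [hv1]
      exact hzA, by
      rw [hv1, hv0]
      exact hzo (z, y') hzA⟩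
    rw [horbv] at h6
    exact h6
  · have hpair : (y', th v.1 (z, y')) ∈ oc (v.1, v.2 0) := by
      have hcl : closure (Set.range fun n : ℤ => sh n (z₂, v.1)) = A₁ := horb
      have hcont : ContinuousOn (fun p : Om k × (X × PM k) => (p.2, th v.1 p))
          (closure (Set.range fun n : ℤ => sh n (z₂, v.1))) := by
        rw [hcl]
        exact continuousOn_snd.prodMk hLF.pha.cont
      have h6 := hcont.image_closure
      have h7 : (y', th v.1 (z, y')) ∈ (fun p : Om k × (X × PM k) => (p.2, th v.1 p)) ''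
          closure (Set.range fun n : ℤ => sh n (z₂, v.1)) := by
        rw [hcl]
        exact ⟨(z, y'), hzA, rfl⟩
      rw [KC.oc_eq]
      refine closure_mono ?_ (h6 h7)
      rintro _ ⟨_, ⟨n, rfl⟩, rfl⟩
      refine ⟨n, ?_⟩
      have h8 := hLF.pha.equi _ hz₂A n
      change (sh n v.1, sh n (v.2 0)) = (sh n v.1, th v.1 (sh n (z₂, v.1)))
      rw [h8, hz₂θ]
    exact exists_frame hS hU hpv hpy' hθpt hpair

end Pool.Agent.Work.MP_69fea5_lc.W3
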