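import Pool.Agent.Work.MP_69fea5_lc.W3.StmtsF1

set_option autoImplicit false

namespace Pool.Agent.Work.MP_69fea5_lc.W3

open MeasureTheory Topology Set Filter TopologicalSpace
open scoped NNReal ENNReal
open Pool.Agent.Work.MP_69fea5_lc.AK

namespace I_F1F

theorem opensAux (X : Type) [TopologicalSpace X] [MeasurableSpace X] [CS X] :
    OpensMeasurableSpace X := inferInstance

attribute [local instance 2000] opensAux

variable {O Y C X' : Type} [TopologicalSpace O] [MeasurableSpace O] [CS O] [Sys O]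
  [TopologicalSpace Y] [MeasurableSpace Y] [CS Y] [Sys Y]
  [TopologicalSpace C] [MeasurableSpace C] [CS C] [Sys C]
  [TopologicalSpace X'] [MeasurableSpace X'] [CS X'] [Sys X']

/-- `BB` is contained in the closed set of pairs of points of `E` over one point of `Y`. -/
theorem BB_sub {E : Set X'} {q : X' → Y × (ℕ → C)} (hE : IsClosed E) (hq : Continuous q) :
    BB E q ⊆ {p | p.1 ∈ E ∧ p.2 ∈ E ∧ (q p.1).1 = (q p.2).1} := by
  refine closure_minimal (fun p hp => ⟨hp.1, hp.2.1, hp.2.2.1⟩) ?_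
  exact (hE.preimage continuous_fst).inter ((hE.preimage continuous_snd).inter
    (isClosed_eq (continuous_fst.comp (hq.comp continuous_fst))
      (continuous_fst.comp (hq.comp continuous_snd))))

/-- the law of the frames of `Θ` is a product -/
theorem rect {q : X' → Y × (ℕ → C)} {lm : X' → ProbabilityMeasure O} (h9 : S_BRX)
    (hjm : Continuous (jm q lm)) (Θ : ProbabilityMeasure (X' × X'))
    (P : ProbabilityMeasure (O × (Y × (ℕ → C))))
    (hΘ : Bar Θ (fun t => (jm q lm t.1).prod (jm q lm t.2)) (P.prod P))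
    (U₀ U₁ : Set (Y × (ℕ → C))) (h0 : MeasurableSet U₀) (h1 : MeasurableSet U₁)
    (hP0 : 0 < P {x | x.2 ∈ U₀}) (hP1 : 0 < P {x | x.2 ∈ U₁}) :
    (Θ : Measure (X' × X')) {t | q t.1 ∈ U₀ ∧ q t.2 ∈ U₁} ≠ 0 := by
  intro hz
  set f : X' × X' → ProbabilityMeasure ((O × (Y × (ℕ → C))) × (O × (Y × (ℕ → C)))) :=
    fun t => (jm q lm t.1).prod (jm q lm t.2) with hf
  have hfc : Continuous f := by
    have h := ProbabilityMeasure.continuous_prod (α := O × (Y × (ℕ → C)))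
      (β := O × (Y × (ℕ → C)))
    exact h.comp ((hjm.comp continuous_fst).prodMk (hjm.comp continuous_snd))
  have hBRX := h9 (X' × X') ((O × (Y × (ℕ → C))) × (O × (Y × (ℕ → C)))) Θ f hfc.measurable
  have hB0 : MeasurableSet {x : O × (Y × (ℕ → C)) | x.2 ∈ U₀} := measurable_snd h0
  have hB1 : MeasurableSet {x : O × (Y × (ℕ → C)) | x.2 ∈ U₁} := measurable_snd h1
  have key := hBRX.2.2.1 (P.prod P) hΘ
    ({x : O × (Y × (ℕ → C)) | x.2 ∈ U₀} ×ˢ {x : O × (Y × (ℕ → C)) | x.2 ∈ U₁})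
    (hB0.prod hB1)
  rw [ProbabilityMeasure.toMeasure_prod, Measure.prod_prod] at key
  have hint : ∫⁻ t, (f t : Measure ((O × (Y × (ℕ → C))) × (O × (Y × (ℕ → C)))))
      ({x : O × (Y × (ℕ → C)) | x.2 ∈ U₀} ×ˢ {x : O × (Y × (ℕ → C)) | x.2 ∈ U₁})
        ∂(Θ : Measure (X' × X')) = 0 := by
    rw [lintegral_eq_zero_iff' ?_]
    · have hae : ∀ᵐ t ∂(Θ : Measure (X' × X')), t ∉ {t : X' × X' | q t.1 ∈ U₀ ∧ q t.2 ∈ U₁} :=
        measure_eq_zero_iff_ae_notMem.1 hz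
      filter_upwards [hae] with t ht
      simp only [hf, Pi.zero_apply]
      rw [ProbabilityMeasure.toMeasure_prod, Measure.prod_prod]
      by_contra hne
      rcases mul_ne_zero_iff.1 hne with ⟨ha, hb⟩
      refine ht ⟨?_, ?_⟩
      · by_contra hc
        apply ha
        simp only [jm]
        rw [ProbabilityMeasure.toMeasure_prod]
        have : {x : O × (Y × (ℕ → C)) | x.2 ∈ U₀} = univ ×ˢ U₀ := by ext x; simp
        rw [this, Measure.prod_prod]
        simp [diracProba_toMeasure_apply' _ h0, hc]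
      · by_contra hc
        apply hb
        simp only [jm]
        rw [ProbabilityMeasure.toMeasure_prod]
        have : {x : O × (Y × (ℕ → C)) | x.2 ∈ U₁} = univ ×ˢ U₁ := by ext x; simp
        rw [this, Measure.prod_prod]
        simp [diracProba_toMeasure_apply' _ h1, hc]
    · have : Measurable fun t => (f t : Measure ((O × (Y × (ℕ → C))) × (O × (Y × (ℕ → C))))) :=
        measurable_subtype_coe.comp hfc.measurable
      exact ((Measure.measurable_coe (hB0.prod hB1)).comp this).aemeasurable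
  rw [hint] at key
  rcases mul_eq_zero.1 key with h | h
  · have : P {x | x.2 ∈ U₀} = 0 := by
      rw [ProbabilityMeasure.null_iff_toMeasure_null]
      exact h
    exact hP0.ne' this
  · have : P {x | x.2 ∈ U₁} = 0 := by
      rw [ProbabilityMeasure.null_iff_toMeasure_null]
      exact h
    exact hP1.ne' this

end I_F1F

open I_F1F in
attribute [local instance 2000] I_F1F.opensAux in
theorem F1F_pf (h1 : S_AXE) (h2 : S_LAW) (h3 : S_TYP) (h4 : S_CLF) (h5 : S_FUS) (h6 : S_UMP)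
    (h7 : S_VLU) (h8 : S_ULT) (h9 : S_BRX) (h10 : S_JMC) : S_F1F := by
  intro O Y C X' _ _ _ _ _ _ _ _ _ _ _ _ _ _ _ _ A ms θ v₀ E q lm hPE R hRc hRi U δ hU hδ hv₁ hval
  obtain ⟨v₁, hv₁U, hv₁o, hv₁1⟩ := hv₁
  obtain ⟨Ya, hAX⟩ := h1 O Y C X' A ms θ v₀ E q lm hPE
  have hEc : IsClosed E := hPE.spx.min.closed
  have hEi : AK.Inv E := hPE.spx.min.inv
  have hqc : Continuous q := hPE.spx.cont
  -- a point of `Ya` over `v₀.1`
  obtain ⟨p, hp, hp1⟩ : ∃ p ∈ Ya, p.1 = v₀.1 := by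
    have h : v₀.1 ∈ Prod.fst '' Ya := by
      rw [hAX.base]
      obtain ⟨x, hx, hx'⟩ := hPE.frm.1 0
      exact ⟨x, hx, (congrArg Prod.snd hx')⟩
    obtain ⟨p, hp, hp'⟩ := h
    exact ⟨p, hp, hp'⟩
  obtain ⟨Θ, hΘ1, hΘB⟩ := h2 O Y C X' A ms θ v₀ E q lm Ya hPE hAX p hp
  have hTYP := h3 O Y C X' A ms θ v₀ E q lm Ya hPE hAX p hp Θ hΘB R hRc hRi
  obtain ⟨d, hd⟩ := hPE.pha.iso
  obtain ⟨cl, hclc, hcl⟩ := h4 C Y (JJ A θ) d hd v₀ hPE.frm
  have hv₀o : v₀ ∈ orb v₀ := subset_closure ⟨0, sh_zero _⟩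
  have hcl0 : cl v₀ v₁ = v₁ := (hcl v₀ hv₀o v₁ hv₁o hv₁1.symm).2.2.2.2 rfl
  obtain ⟨hV1, hV2, hV3, hV4⟩ := h7 O Y C X' q lm R hqc hPE.spx.equi hPE.cont hPE.equi hRc hRi
  have hjm := (h10 O Y C X' A ms θ v₀ E q lm hPE).1
  -- the domain of the class map
  set D : Set ((Y × (ℕ → C)) × (Y × (ℕ → C))) :=
    {p | p.1 ∈ orb v₀ ∧ p.2 ∈ orb v₀ ∧ p.1.1 = p.2.1} with hD
  have hnb : ∀ᶠ x in 𝓝[D] (v₀, v₁), cl x.1 x.2 ∈ U := by
    have h := hclc (v₀, v₁) ⟨hv₀o, hv₁o, hv₁1.symm⟩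
    have h' : U ∈ 𝓝 (cl (v₀, v₁).1 (v₀, v₁).2) := by
      simp only
      rw [hcl0]
      exact hU.mem_nhds hv₁U
    exact h h'
  obtain ⟨N, hN, hND⟩ := mem_nhdsWithin_iff_exists_mem_nhds_inter.1 hnb
  obtain ⟨U₀, hU₀, U₁, hU₁, hUU⟩ := mem_nhds_prod_iff.1 hN
  obtain ⟨U₀', hU₀s, hU₀o, hv₀U⟩ := mem_nhds_iff.1 hU₀
  obtain ⟨U₁', hU₁s, hU₁o, hv₁U'⟩ := mem_nhds_iff.1 hU₁
  have hclU : ∀ v ∈ U₀', ∀ v' ∈ U₁', v ∈ orb v₀ → v' ∈ orb v₀ → v.1 = v'.1 → cl v v' ∈ U := by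
    intro v hv v' hv' ho ho' he
    have h : (v, v') ∈ N ∩ D := ⟨hUU (mk_mem_prod (hU₀s hv) (hU₁s hv')), ho, ho', he⟩
    exact hND h
  -- positivity
  have hpos : (Θ : Measure (X' × X')) {t | q t.1 ∈ U₀' ∧ q t.2 ∈ U₁'} ≠ 0 := by
    refine rect h9 hjm Θ p.2 hΘB U₀' U₁' hU₀o.measurableSet hU₁o.measurableSet ?_ ?_
    · exact h5 O Y C X' A ms θ v₀ E q lm Ya hPE hAX p hp v₀ hv₀o hp1.symm U₀'
        (hU₀o.mem_nhds hv₀U)
    · exact h5 O Y C X' A ms θ v₀ E q lm Ya hPE hAX p hp v₁ hv₁o (hv₁1.trans hp1.symm) U₁'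
        (hU₁o.mem_nhds hv₁U')
  -- a typical pair
  have hBBc : IsClosed {t : X' × X' | t ∈ BB E q ∧ (q t.1).1 = p.1 ∧ (q t.2).1 = p.1} :=
    isClosed_closure.inter ((isClosed_eq (continuous_fst.comp (hqc.comp continuous_fst))
      continuous_const).inter (isClosed_eq (continuous_fst.comp (hqc.comp continuous_snd))
      continuous_const))
  have hae : ∀ᵐ t ∂(Θ : Measure (X' × X')), t ∈ BB E q ∧ (q t.1).1 = p.1 ∧ (q t.2).1 = p.1 := by
    have h : (Θ : Measure (X' × X'))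
        {t : X' × X' | t ∈ BB E q ∧ (q t.1).1 = p.1 ∧ (q t.2).1 = p.1} = 1 := by
      rw [← ProbabilityMeasure.ennreal_coeFn_eq_coeFn_toMeasure, hΘ1]
      simp
    exact (prob_compl_eq_zero_iff hBBc.measurableSet).2 h
  obtain ⟨⟨a, b⟩, ⟨hq0, hq1⟩, ⟨hBB, hya, hyb⟩, hz⟩ :=
    ((frequently_ae_mem_iff.2 hpos).and_eventually (hae.and hTYP)).exists
  simp only at hq0 hq1 hya hyb hz
  have hEE := BB_sub hEc hqc hBB
  have haE : a ∈ E := hEE.1
  have hbE : b ∈ E := hEE.2.1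
  have hqE : ∀ e ∈ E, q e ∈ orb v₀ := fun e he => by
    rw [← hPE.base]
    exact ⟨e, he, rfl⟩
  have hclt : cl (q a) (q b) ∈ U := hclU _ hq0 _ hq1 (hqE a haE) (hqE b hbE) (hya.trans hyb.symm)
  -- the value is at least `δ`
  have hge : δ ≤ vl q lm R a b := by
    have hmem : (a, b) ∈ closure {x : X' × X' | δ ≤ vl q lm R x.1 x.2} := by
      refine mem_closure_iff_nhds.2 fun M hM => ?_
      -- near `(a, b)` the class is in `U`
      have hcont : ContinuousWithinAt (fun x : X' × X' => cl (q x.1) (q x.2))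
          {x | x.1 ∈ E ∧ x.2 ∈ E ∧ (q x.1).1 = (q x.2).1} (a, b) := by
        have hmap : MapsTo (fun x : X' × X' => (q x.1, q x.2))
            {x | x.1 ∈ E ∧ x.2 ∈ E ∧ (q x.1).1 = (q x.2).1} D :=
          fun x hx => ⟨hqE _ hx.1, hqE _ hx.2.1, hx.2.2⟩
        have hc : Continuous (fun x : X' × X' => (q x.1, q x.2)) :=
          (hqc.comp continuous_fst).prodMk (hqc.comp continuous_snd)
        have hg : ContinuousWithinAt (fun p : (Y × (ℕ → C)) × (Y × (ℕ → C)) => cl p.1 p.2) D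
            ((fun x : X' × X' => (q x.1, q x.2)) (a, b)) := hclc (q a, q b) (hmap hEE)
        exact ContinuousWithinAt.comp (f := fun x : X' × X' => (q x.1, q x.2)) (x := (a, b)) hg
          hc.continuousWithinAt hmap
      have h1 : ∀ᶠ x in 𝓝[{x : X' × X' | x.1 ∈ E ∧ x.2 ∈ E ∧ (q x.1).1 = (q x.2).1}] (a, b),
          cl (q x.1) (q x.2) ∈ U := hcont (hU.mem_nhds hclt)
      obtain ⟨N', hN', hN'D⟩ := mem_nhdsWithin_iff_exists_mem_nhds_inter.1 h1
      obtain ⟨x, ⟨hxM, hxN⟩, hxE1, hxE2, hxq, hxm⟩ :=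
        mem_closure_iff_nhds.1 hBB (M ∩ N') (inter_mem hM hN')
      refine ⟨x, hxM, ?_⟩
      have hcU : cl (q x.1) (q x.2) ∈ U := hN'D ⟨hxN, hxE1, hxE2, hxq⟩
      obtain ⟨k1, k2, k3, k4, -⟩ := hcl (q x.1) (hqE _ hxE1) (q x.2) (hqE _ hxE2) hxq
      obtain ⟨a', ha', b', hb', hqa', hqb', hδ'⟩ := hval _ hcU k1 k2
      have hsub := h6 (Y × (ℕ → C)) X' E q hPE.spx x.1 hxE1 x.2 hxE2 a' ha' b' hb' hxm
        (by rw [hqa', hqb']; exact k4)
      have hx : x ∈ orb (a', b') := hsub (subset_closure ⟨0, sh_zero _⟩)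
      exact hδ'.trans (hV4 (a', b') x hx)
    exact (hV2 δ).closure_subset hmem
  have hone : vl q lm R a b = 1 := by
    rcases hz with h | h
    · rw [h] at hge
      exact absurd hge (not_le.2 hδ)
    · exact h
  -- the pair over `v₀`
  obtain ⟨k1, k2, k3, k4, -⟩ := hcl (q a) (hqE a haE) (q b) (hqE b hbE) (hya.trans hyb.symm)
  refine ⟨cl (q a) (q b), hclt, k1, k2, ?_⟩
  have himg : (fun x : X' × X' => (q x.1, q x.2)) '' orb (a, b) = orb (q a, q b) := by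
    have h := (h8 (X' × X')).2.2 ((Y × (ℕ → C)) × (Y × (ℕ → C)))
      (fun x : X' × X' => (q x.1, q x.2)) inferInstance
      ((hqc.comp continuous_fst).prodMk (hqc.comp continuous_snd))
      (fun n x => by
        show (q (sh n x).1, q (sh n x).2) = sh n (q x.1, q x.2)
        exact Prod.ext (hPE.spx.equi n x.1) (hPE.spx.equi n x.2)) (a, b)
    exact h
  rw [← himg] at k3
  obtain ⟨⟨a'', b''⟩, hab, he⟩ := k3
  have hqa : q a'' = v₀ := congrArg Prod.fst he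
  have hqb : q b'' = cl (q a) (q b) := congrArg Prod.snd he
  have hE2 : orb (a, b) ⊆ {x : X' × X' | x.1 ∈ E ∧ x.2 ∈ E} := by
    refine closure_minimal ?_ ((hEc.preimage continuous_fst).inter (hEc.preimage continuous_snd))
    rintro _ ⟨n, rfl⟩
    exact ⟨hEi n a haE, hEi n b hbE⟩
  refine ⟨a'', (hE2 hab).1, b'', (hE2 hab).2, hqa, hqb, ?_⟩
  refine le_antisymm (hV1 _ _) ?_
  have := hV4 (a, b) (a'', b'') hab
  simp only at this
  rw [hone] at this
  exact this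

end Pool.Agent.Work.MP_69fea5_lc.W3
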