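import Pool.Agent.Work.MP_69fea5_lc.W3.StmtsF1

/-! # Block [69fea5 F1], item [F1X]: the 0-1 law over the chains. -/

set_option autoImplicit false

namespace Pool.Agent.Work.MP_69fea5_lc.W3

open MeasureTheory Topology Set Filter TopologicalSpace
open scoped NNReal ENNReal
open Pool.Agent.Work.MP_69fea5_lc.AK

namespace I_F1X

theorem orb_inv {X : Type} [TopologicalSpace X] [Sys X] (x : X) : AK.Inv (orb x) := by
  intro n y hy
  refine map_mem_closure (sh_cont n) hy ?_
  rintro _ ⟨m, rfl⟩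
  exact ⟨n + m, sh_add n m x⟩

theorem self_orb {X : Type} [TopologicalSpace X] [Sys X] (x : X) : x ∈ orb x :=
  subset_closure ⟨0, sh_zero x⟩

theorem orb_sub {X : Type} [TopologicalSpace X] [Sys X] {K : Set X} (hK : IsClosed K)
    (hi : AK.Inv K) {x : X} (hx : x ∈ K) : orb x ⊆ K := by
  refine closure_minimal ?_ hK
  rintro _ ⟨n, rfl⟩
  exact hi n x hx

/-- images of minimal sets are orbit closures and minimal -/
theorem image_min {X Y : Type} [TopologicalSpace X] [Sys X] [CompactSpace X] [TopologicalSpace Y]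
    [T2Space Y] [Sys Y] {f : X → Y} (hf : Continuous f)
    (he : ∀ (n : ℤ) (x : X), f (sh n x) = sh n (f x)) {K : Set X} (hK : MinSet K) {x : X}
    (hx : x ∈ K) : MinSet (orb (f x)) := by
  have hI : IsClosed (f '' K) := (hK.closed.isCompact.image hf).isClosed
  have hinv : AK.Inv (f '' K) := by
    rintro n _ ⟨y, hy, rfl⟩
    exact ⟨sh n y, hK.inv n y hy, he n y⟩
  have key : ∀ L : Set Y, IsClosed L → L.Nonempty → AK.Inv L → L ⊆ f '' K → L = f '' K := by
    intro L hL hne hLi hsub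
    refine Subset.antisymm hsub ?_
    have h1 : K ∩ f ⁻¹' L = K := by
      refine hK.min _ (hK.closed.inter (hL.preimage hf)) ?_ ?_ inter_subset_left
      · obtain ⟨y, hy⟩ := hne
        obtain ⟨x', hx', rfl⟩ := hsub hy
        exact ⟨x', hx', hy⟩
      · rintro n y ⟨hy, hy'⟩
        refine ⟨hK.inv n y hy, ?_⟩
        show f (sh n y) ∈ L
        rw [he]
        exact hLi n _ hy'
    rintro _ ⟨y, hy, rfl⟩
    rw [← h1] at hy
    exact hy.2
  have h2 : orb (f x) = f '' K := by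
    refine key _ isClosed_closure ⟨f x, self_orb _⟩ (orb_inv _) ?_
    exact orb_sub hI hinv ⟨x, hx, rfl⟩
  rw [h2]
  exact ⟨hI, ⟨f x, x, hx, rfl⟩, hinv, key⟩

theorem null_iff {O : Type} [MeasurableSpace O] (m : ProbabilityMeasure O) (S : Set O) :
    m S = 0 ↔ (m : Measure O) S = 0 := ProbabilityMeasure.null_iff_toMeasure_null _ _

end I_F1X

theorem F1X_pf (h1 : S_CTR) : S_F1X := by
  intro O Y C X' _ _ _ _ _ _ _ _ _ _ _ _ _ _ _ _ A ms θ v₀ v₁ E q lm Ξ hPE hZ hCh R hRc hRi ξ hξ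
  have hq : Continuous q := hPE.spx.cont
  have hqe : ∀ (n : ℤ) (e : X'), q (sh n e) = sh n (q e) := hPE.spx.equi
  have hq0 : Continuous fun ζ : ℕ → X' => q (ζ 0) := hq.comp (continuous_apply 0)
  let R' : Set ((O × O) × (ℕ → X')) := {g | g ∈ R ∧ g.2 ∈ Ξ}
  have hR'c : IsClosed R' := hRc.inter (hCh.min.closed.preimage continuous_snd)
  have hR'i : AK.Inv R' := fun n g hg => ⟨hRi n g hg.1, hCh.min.inv n _ hg.2⟩
  let fR : (O × O) × (ℕ → X') → (O × O) × (Y × (ℕ → C)) := fun g => (g.1, q (g.2 0))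
  have hfR : Continuous fR := continuous_fst.prodMk (hq0.comp continuous_snd)
  let Rb : Set ((O × O) × (Y × (ℕ → C))) := fR '' R'
  have hRbc : IsClosed Rb := (hR'c.isCompact.image hfR).isClosed
  have hRbi : AK.Inv Rb := by
    rintro n _ ⟨g, hg, rfl⟩
    refine ⟨sh n g, hR'i n g hg, ?_⟩
    refine Prod.ext rfl ?_
    exact hqe n (g.2 0)
  let ms' : (ℕ → X') → ProbabilityMeasure (O × O) := fun ζ => (lm (ζ 0)).prod (lm (ζ 1))
  have hms : Continuous ms' := by
    have h2 : Continuous fun ζ : ℕ → X' => ((lm (ζ 0), lm (ζ 1)) :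
        ProbabilityMeasure O × ProbabilityMeasure O) :=
      (hPE.cont.comp (continuous_apply 0)).prodMk (hPE.cont.comp (continuous_apply 1))
    exact ProbabilityMeasure.continuous_prod.comp h2
  have hmse : ∀ (n : ℤ) (ζ : ℕ → X'), ms' (sh n ζ) = sh n (ms' ζ) := by
    intro n ζ
    apply Subtype.ext
    have e0 : ((lm (sh n (ζ 0)) : ProbabilityMeasure O) : Measure O) =
        (lm (ζ 0) : Measure O).map (sh n) := by
      rw [hPE.equi]
      rfl
    have e1 : ((lm (sh n (ζ 1)) : ProbabilityMeasure O) : Measure O) =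
        (lm (ζ 1) : Measure O).map (sh n) := by
      rw [hPE.equi]
      rfl
    have e2 : ((ms' (sh n ζ) : ProbabilityMeasure (O × O)) : Measure (O × O)) =
        ((lm (sh n (ζ 0)) : ProbabilityMeasure O) : Measure O).prod
          ((lm (sh n (ζ 1)) : ProbabilityMeasure O) : Measure O) := rfl
    have e3 : ((sh n (ms' ζ) : ProbabilityMeasure (O × O)) : Measure (O × O)) =
        ((lm (ζ 0) : Measure O).prod (lm (ζ 1) : Measure O)).map
          (Prod.map (sh n) (sh n)) := rfl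
    show ((ms' (sh n ζ) : ProbabilityMeasure (O × O)) : Measure (O × O)) =
      ((sh n (ms' ζ) : ProbabilityMeasure (O × O)) : Measure (O × O))
    rw [e2, e3, e0, e1, Measure.map_prod_map _ _ (sh_cont n).measurable (sh_cont n).measurable]
  have hctr := h1 (O × O) (Y × (ℕ → C)) (ℕ → X') Ξ (fun ζ => q (ζ 0)) R' ms' (hCh.spx 0) hR'c hR'i
    (fun g hg => hg.2) hms hmse ξ hξ
  rw [I_F1X.null_iff] at hctr
  have hms2 : ((ms' ξ : ProbabilityMeasure (O × O)) : Measure (O × O)) =
      (lm (ξ 0) : Measure O).prod (lm (ξ 1) : Measure O) := rfl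
  rw [hms2] at hctr
  have heq : ((lm (ξ 0) : Measure O).prod (lm (ξ 1) : Measure O)) {p | (p, ξ) ∈ R} =
      vl q lm Rb (ξ 0) (ξ 1) := by
    unfold vl
    refine le_antisymm (measure_mono ?_) ?_
    · intro p hp
      exact ⟨(p, ξ), ⟨hp, hξ⟩, rfl⟩
    · have hsub : {p : O × O | (p, q (ξ 0)) ∈ Rb} ⊆ {p | (p, ξ) ∈ R} ∪
          {u | (∃ e', q (e' 0) = q (ξ 0) ∧ (u, e') ∈ R') ∧ (u, ξ) ∉ R'} := by
        rintro p ⟨g, hg, hgp⟩
        by_cases h3 : (p, ξ) ∈ R
        · exact Or.inl h3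
        · refine Or.inr ⟨⟨g.2, ?_, ?_⟩, fun h4 => h3 h4.1⟩
          · exact congrArg Prod.snd hgp
          · have h5 : g.1 = p := congrArg Prod.fst hgp
            rw [← h5]
            exact hg
      refine (measure_mono hsub).trans ((measure_union_le _ _).trans ?_)
      rw [hctr, add_zero]
  have hsubξ := hCh.sub hξ
  have hmin : MinSet (orb ((ξ 0, ξ 1) : X' × X')) := by
    have hc : Continuous fun ζ : ℕ → X' => ((ζ 0, ζ 1) : X' × X') :=
      (continuous_apply 0).prodMk (continuous_apply 1)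
    exact I_F1X.image_min hc (fun n ζ => rfl) hCh.min hξ
  have hz := hZ Rb hRbc hRbi (ξ 0) (hsubξ 0).1 (ξ 1) (hsubξ 1).1 hmin (hsubξ 0).2
  rw [heq]
  exact hz

end Pool.Agent.Work.MP_69fea5_lc.W3
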