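import Pool.Agent.Work.MP_69fea5_lc.W3.StmtsT

/-!
# Block [69fea5 W3], item FAM

The family of barycentres over a base.
-/

set_option autoImplicit false

namespace Pool.Agent.Work.MP_69fea5_lc.W3

open MeasureTheory Topology Set Filter TopologicalSpace
open scoped NNReal ENNReal
open Pool.Agent.Work.MP_69fea5_lc.AK

namespace I_FAM

variable {O X : Type} [TopologicalSpace O] [MeasurableSpace O] [CS O] [Sys O]
  [TopologicalSpace X] [MeasurableSpace X] [CS X] [Sys X]

/-- the measures carried by the fibre form a closed relation -/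
theorem isClosed_fib (h1 : S_PMG) (F : Set (X × ProbabilityMeasure O)) (hF : IsClosed F) :
    IsClosed {p : X × ProbabilityMeasure (ProbabilityMeasure O) |
      p.2 {m | (p.1, m) ∈ F} = 1} := by
  have hc : Continuous fun p : X × ProbabilityMeasure (ProbabilityMeasure O) =>
      (diracProba p.1).prod p.2 := by
    have h2 : Continuous fun p : ProbabilityMeasure X × ProbabilityMeasure (ProbabilityMeasure O) =>
      p.1.prod p.2 := ProbabilityMeasure.continuous_prod
    exact h2.comp ((continuous_diracProba.comp continuous_fst).prodMk continuous_snd)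
  have h3 := (h1 (X × ProbabilityMeasure O)).2.2.2.2.1 F hF
  have h4 := h3.preimage hc
  convert h4 using 1
  ext p
  have h5 : ((diracProba p.1).prod p.2) F = p.2 {m | (p.1, m) ∈ F} := by
    have h6 : (((diracProba p.1).prod p.2 : ProbabilityMeasure _) : Measure _) F =
        (p.2 : Measure (ProbabilityMeasure O)) {m | (p.1, m) ∈ F} := by
      rw [ProbabilityMeasure.toMeasure_prod]
      change (((Measure.dirac p.1).prod (p.2 : Measure (ProbabilityMeasure O))) F) = _
      rw [Measure.dirac_prod, Measure.map_apply (by fun_prop) hF.measurableSet]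
      rfl
    exact congrArg ENNReal.toNNReal h6
  change _ ↔ ((diracProba p.1).prod p.2) F = 1
  rw [h5]
  rfl

end I_FAM

open I_FAM in
theorem FAM_pf (h1 : S_PMG) (h2 : S_BRC) (h3 : S_BRB) : S_FAM := by
  intro O X _ _ _ _ _ _ _ _ F hF hFi
  have hfib : ∀ x : X, IsClosed {m : ProbabilityMeasure O | (x, m) ∈ F} := fun x =>
    hF.preimage (by fun_prop : Continuous fun m : ProbabilityMeasure O => (x, m))
  refine ⟨?_, ?_, ?_, ?_, ?_⟩
  · -- closed
    have hR : IsClosed {q : ProbabilityMeasure (ProbabilityMeasure O) × (X × ProbabilityMeasure O) |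
        q.1 {m | (q.2.1, m) ∈ F} = 1 ∧ Bar q.1 id q.2.2} := by
      apply IsClosed.inter
      · exact (isClosed_fib h1 F hF).preimage
          (by fun_prop : Continuous fun q : ProbabilityMeasure (ProbabilityMeasure O) ×
            (X × ProbabilityMeasure O) => (q.2.1, q.1))
      · exact (h2 (ProbabilityMeasure O) O id continuous_id).1.preimage
          (by fun_prop : Continuous fun q : ProbabilityMeasure (ProbabilityMeasure O) ×
            (X × ProbabilityMeasure O) => (q.1, q.2.2))
    have h4 := isClosedMap_snd_of_compactSpace _ hR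
    convert h4 using 1
    ext p
    constructor
    · rintro ⟨κ, hκ, hb⟩
      exact ⟨(κ, p), ⟨hκ, hb⟩, rfl⟩
    · rintro ⟨⟨κ, q⟩, ⟨hκ, hb⟩, rfl⟩
      exact ⟨κ, hκ, hb⟩
  · -- invariant
    rintro n ⟨x, m⟩ ⟨κ, hκ, hb⟩
    refine ⟨sh n κ, ?_, ?_⟩
    · have h5 := (h1 (ProbabilityMeasure O)).1 κ n
        {m | ((sh n x : X), m) ∈ F} (hfib _).measurableSet
      change sh n κ {m | (sh n x, m) ∈ F} = 1
      change sh n κ {m | (sh n x, m) ∈ F} = κ {z | (sh n x, sh n z) ∈ F} at h5
      rw [h5]
      refine le_antisymm (κ.apply_le_one _) ?_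
      rw [← hκ]
      refine κ.apply_mono fun z hz => ?_
      exact hFi n (x, z) hz
    · exact (h2 (ProbabilityMeasure O) O id continuous_id).2.1 (fun _ _ => rfl) κ m hb n
  · rintro ⟨x, m⟩ hm
    exact (h3 O {m | (x, m) ∈ F} (hfib x)).2.1 hm
  · apply subset_antisymm
    · rintro _ ⟨⟨x, m⟩, ⟨κ, hκ, -⟩, rfl⟩
      have hne : {m : ProbabilityMeasure O | (x, m) ∈ F}.Nonempty := by
        rw [nonempty_iff_ne_empty]
        intro he
        rw [show {m : ProbabilityMeasure O | ((x, m) : X × ProbabilityMeasure O) ∈ F} = ∅ from he]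
          at hκ
        simp at hκ
      obtain ⟨m', hm'⟩ := hne
      exact ⟨(x, m'), hm', rfl⟩
    · rintro _ ⟨⟨x, m⟩, hm, rfl⟩
      exact ⟨(x, m), (h3 O {m | (x, m) ∈ F} (hfib x)).2.1 hm, rfl⟩
  · intro x κ m hκ hb
    exact (h3 O {m | (x, m) ∈ F} (hfib x)).2.2 κ m hκ hb

end Pool.Agent.Work.MP_69fea5_lc.W3
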