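import Pool.Agent.Work.MP_69fea5_lc.W3.StmtsF1

/-!
# Item [69fea5 F1 FDN]
-/

set_option autoImplicit false

namespace Pool.Agent.Work.MP_69fea5_lc.W3

open MeasureTheory Topology Set Filter TopologicalSpace
open scoped NNReal ENNReal
open Pool.Agent.Work.MP_69fea5_lc.AK

theorem FDN_pf (h1 : S_F1F) (h2 : S_VLU) : S_FDN := by
  intro O Y C X' _ _ _ _ _ _ _ _ _ _ _ _ _ _ _ _ A ms θ v₀ E q lm hPE R hR hRi v₁ hv₁ hv₁' hlt
    U hU δ hδ
  obtain ⟨-, hcl, -, -⟩ := h2 O Y C X' q lm R hPE.spx.cont hPE.spx.equi hPE.cont hPE.equi hR hRi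
  have hEc : IsClosed E := hPE.spx.min.closed
  set P : Set (X' × X') := {p | (p.1 ∈ E ∧ p.2 ∈ E) ∧ q p.1 = v₀ ∧ 1 ≤ vl q lm R p.1 p.2} with hP
  have hPc : IsClosed P := by
    refine IsClosed.inter ?_ (IsClosed.inter ?_ (hcl 1))
    · exact (hEc.preimage continuous_fst).inter (hEc.preimage continuous_snd)
    · exact isClosed_eq (hPE.spx.cont.comp continuous_fst) continuous_const
  have hKc : IsClosed ((fun p : X' × X' => q p.2) '' P) :=
    (hPc.isCompact.image (hPE.spx.cont.comp continuous_snd)).isClosed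
  have hv₁K : v₁ ∉ (fun p : X' × X' => q p.2) '' P := by
    rintro ⟨p, ⟨⟨ha, hb⟩, hqa, hge⟩, hqb⟩
    exact absurd hge (not_le.2 (hlt p.1 ha p.2 hb hqa hqb))
  by_contra hcon
  push Not at hcon
  obtain ⟨c, ⟨-, hcK⟩, -, -, a, ha, b, hb, hqa, hqb, hval⟩ := h1 O Y C X' A ms θ v₀ E q lm hPE R hR
    hRi (interior U \ (fun p : X' × X' => q p.2) '' P) δ (isOpen_interior.sdiff hKc) hδ
    ⟨v₁, ⟨mem_interior_iff_mem_nhds.2 hU, hv₁K⟩, hv₁, hv₁'⟩
    (fun c hc hco hc1 => hcon c (interior_subset hc.1) hco hc1)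
  exact hcK ⟨(a, b), ⟨⟨ha, hb⟩, hqa, hval.ge⟩, hqb⟩

end Pool.Agent.Work.MP_69fea5_lc.W3
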