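import Pool.Agent.Work.MP_69fea5_lc.W3.StmtsF1

/-!
# Item [69fea5 F1 FEK]: elements of the family are barycentres of measures on the fibre of `E`
-/

set_option autoImplicit false

namespace Pool.Agent.Work.MP_69fea5_lc.W3

open MeasureTheory Topology Set Filter TopologicalSpace
open scoped NNReal ENNReal
open Pool.Agent.Work.MP_69fea5_lc.AK

theorem FEK_pf (hJMC : S_JMC) (hLFT : S_LFT) : S_FEK := by
  intro O Y C X' _ _ _ _ _ _ _ _ _ _ _ _ _ _ _ _ A ms θ v₀ E q lm hPE p hp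
  obtain ⟨κ', hκ', hbar⟩ := hp
  have hjc : Continuous (jm q lm) := (hJMC O Y C X' A ms θ v₀ E q lm hPE).1
  have hEc : IsClosed {e | e ∈ E ∧ (q e).1 = p.1} :=
    hPE.spx.min.closed.inter
      (isClosed_eq (continuous_fst.comp hPE.spx.cont) continuous_const)
  have him : jm q lm '' {e | e ∈ E ∧ (q e).1 = p.1} = {m | (p.1, m) ∈ FE E q lm} := by
    ext m
    constructor
    · rintro ⟨e, ⟨he, hq⟩, rfl⟩
      exact ⟨e, he, by rw [← hq]⟩
    · rintro ⟨e, he, heq⟩
      have h1 : (q e).1 = p.1 := congrArg Prod.fst heq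
      have h2 : jm q lm e = m := congrArg Prod.snd heq
      exact ⟨e, ⟨he, h1⟩, h2⟩
  have hone : κ' (jm q lm '' {e | e ∈ E ∧ (q e).1 = p.1}) = 1 := by
    rw [him]
    exact hκ'
  obtain ⟨κ, hκ, hmap⟩ := hLFT X' (ProbabilityMeasure (O × (Y × (ℕ → C)))) (jm q lm)
    {e | e ∈ E ∧ (q e).1 = p.1} κ' hjc hEc hone
  refine ⟨κ, hκ, ?_⟩
  have hb : (κ' : Measure (ProbabilityMeasure (O × (Y × (ℕ → C))))).bind
      (fun m => ((id m : ProbabilityMeasure (O × (Y × (ℕ → C)))) :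
        Measure (O × (Y × (ℕ → C))))) = (p.2 : Measure (O × (Y × (ℕ → C)))) := hbar
  show (κ : Measure X').bind (fun e => (jm q lm e : Measure (O × (Y × (ℕ → C))))) =
    (p.2 : Measure (O × (Y × (ℕ → C))))
  rw [← hb, ← hmap]
  unfold Measure.bind
  have hmeas : Measurable (fun m : ProbabilityMeasure (O × (Y × (ℕ → C))) =>
      ((id m : ProbabilityMeasure (O × (Y × (ℕ → C)))) : Measure (O × (Y × (ℕ → C))))) :=
    measurable_subtype_coe
  rw [Measure.map_map hmeas hjc.measurable]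
  rfl

end Pool.Agent.Work.MP_69fea5_lc.W3
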