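import Pool.Agent.Work.MP_69fea5_lc.W3.StmtsE

/-!
Block [69fea5 F], part E, item FNL: not all colours of `C` can be killed.
-/

set_option autoImplicit false

namespace Pool.Agent.Work.MP_69fea5_lc.W3

open MeasureTheory Topology Set Filter ProbabilityTheory
open scoped NNReal ENNReal
open Pool.Agent.Work.MP_69fea5_lc.AK
open Pool.Agent.Work.MP_69fea5_lc.N3 (W2 bx sup2 St nxt Bl3 CaseII3 GRD)

namespace I_FNL

variable {k : ℕ} {X : Type} [TopologicalSpace X]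

/-- the sections of `N` at the last coordinate have measure at least `ε` -/
def RR (μ2 : X → PM k) (N : Set ((Om k × Om k × Om k) × X)) (ε : ℝ≥0) :
    Set ((Om k × Om k) × X) :=
  {q | ε ≤ μ2 q.2 {v | ((q.1.1, q.1.2, v), q.2) ∈ N}}

theorem closed_RR (h5 : S_USC) {μ2 : X → PM k} (hc : Continuous μ2)
    {N : Set ((Om k × Om k × Om k) × X)} (hN : IsClosed N) (ε : ℝ≥0) :
    IsClosed (RR μ2 N ε) := by
  have hK : IsClosed {t : Om k × ((Om k × Om k) × X) |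
      ((t.2.1.1, t.2.1.2, t.1), t.2.2) ∈ N} :=
    hN.preimage (by fun_prop : Continuous fun t : Om k × ((Om k × Om k) × X) =>
      (((t.2.1.1, t.2.1.2, t.1), t.2.2) : (Om k × Om k × Om k) × X))
  exact (h5 k ((Om k × Om k) × X) _ hK ε).preimage
    (by fun_prop : Continuous fun q : (Om k × Om k) × X => (μ2 q.2, q))

theorem sec_closed {N : Set ((Om k × Om k × Om k) × X)} (hN : IsClosed N) (w u : Om k) (y : X) :
    IsClosed {v : Om k | ((w, u, v), y) ∈ N} :=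
  hN.preimage (by fun_prop : Continuous fun v : Om k =>
    (((w, u, v), y) : (Om k × Om k × Om k) × X))

variable [Sys X]

theorem inv_RR {μ2 : X → PM k} (he : ∀ (n : ℤ) (y : X), μ2 (sh n y) = sh n (μ2 y))
    {N : Set ((Om k × Om k × Om k) × X)} (hN : IsClosed N) (hI : AK.Inv N) (ε : ℝ≥0) :
    AK.Inv (RR μ2 N ε) := by
  rintro n ⟨⟨w, u⟩, y⟩ hq
  change ε ≤ μ2 (sh n y) {v | ((sh n w, sh n u, v), sh n y) ∈ N}
  have hq' : ε ≤ μ2 y {v | ((w, u, v), y) ∈ N} := hq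
  have hm : MeasurableSet {v : Om k | ((sh n w, sh n u, v), sh n y) ∈ N} :=
    (sec_closed hN _ _ _).measurableSet
  have e : (sh n (μ2 y) : PM k) {v : Om k | ((sh n w, sh n u, v), sh n y) ∈ N} =
      μ2 y ((sh n : Om k → Om k) ⁻¹' {v : Om k | ((sh n w, sh n u, v), sh n y) ∈ N}) :=
    ProbabilityMeasure.map_apply (μ2 y) (sh_cont n).measurable.aemeasurable hm
  rw [he n y, e]
  refine hq'.trans (ProbabilityMeasure.apply_mono _ fun v hv => ?_)
  exact hI n ((w, u, v), y) hv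

end I_FNL

open I_FNL in
theorem FNL_pf (h1 : S_MAS) (h2 : S_STA) (h3 : S_MSB) (h4 : S_SDB) (h5 : S_USC) : S_FNL := by
  intro k X _ _ _ _ c x x1 μ0 μ1 μ2 C κ1 κ2 h F1 F2 N hN
  have hp1 := h.p1
  have hp2 := h.p2
  have hf1 : IsFiniteMeasure (sd κ1 F1) :=
    ⟨lt_of_le_of_lt (h4 k κ1 F1).2.2.2.2.2.1 ENNReal.one_lt_top⟩
  have hf2 : IsFiniteMeasure (sd κ2 F2) :=
    ⟨lt_of_le_of_lt (h4 k κ2 F2).2.2.2.2.2.1 ENNReal.one_lt_top⟩
  obtain ⟨hle, -⟩ := h2 k X c x x1 μ0 μ1 μ2 C κ1 κ2 h C F1 F2 N hN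
  obtain ⟨a, ha, hmass⟩ := h1 k X c x x1 μ0 μ1 μ2 C κ1 κ2 h C F1 F2 N hN
  obtain ⟨-, ⟨hfull, -⟩, -⟩ := h3 k X μ0 x h.c0 h.e0
  set ν : Measure (Om k × Om k) := (sd κ1 F1).prod (sd κ2 F2) with hν
  rw [← h.s0, ← h.s1] at hle
  have hνpos : 0 < ν univ := by
    rw [hν, ← univ_prod_univ, Measure.prod_prod]
    exact ENNReal.mul_pos hN.pos1.ne' hN.pos2.ne'
  -- the measure of the last sections at `x1`
  set s : Om k × Om k → Set (Om k) := fun p => {v | ((p.1, p.2, v), x1) ∈ N} with hs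
  have hNc := hN.closed
  have hmemR : ∀ (ε : ℝ≥0) (p : Om k × Om k), (p, x1) ∈ RR μ2 N ε ↔ ε ≤ μ2 x1 (s p) :=
    fun ε p => Iff.rfl
  have hRm : ∀ ε : ℝ≥0, MeasurableSet {p : Om k × Om k | (p, x1) ∈ RR μ2 N ε} := fun ε =>
    ((closed_RR h5 h.c2 hNc ε).preimage
      (by fun_prop : Continuous fun p : Om k × Om k => (p, x1))).measurableSet
  -- some level has positive measure
  have hex : ∃ n : ℕ, ((μ0 x1 : Measure (Om k)).prod (μ1 x1 : Measure (Om k)))
      {p | (p, x1) ∈ RR μ2 N (1 / (n + 1))} ≠ 0 := by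
    by_contra hcon
    push Not at hcon
    have hU : ((μ0 x1 : Measure (Om k)).prod (μ1 x1 : Measure (Om k)))
        (⋃ n : ℕ, {p | (p, x1) ∈ RR μ2 N (1 / (n + 1))}) = 0 := measure_iUnion_null hcon
    have hae : ∀ᵐ p ∂((μ0 x1 : Measure (Om k)).prod (μ1 x1 : Measure (Om k))),
        (μ2 x1 : Measure (Om k)) (s p) = 0 := by
      rw [ae_iff]
      refine measure_mono_null (fun p hp => ?_) hU
      have hp0 : μ2 x1 (s p) ≠ 0 := fun h0 => hp (by
        rw [← ProbabilityMeasure.ennreal_coeFn_eq_coeFn_toMeasure, h0]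
        rfl)
      have hp1 : 0 < ((μ2 x1 (s p) : ℝ≥0) : ℝ) := by
        exact_mod_cast pos_iff_ne_zero.2 hp0
      obtain ⟨n, hn⟩ := exists_nat_one_div_lt hp1
      refine mem_iUnion.2 ⟨n, ?_⟩
      change (p, x1) ∈ RR μ2 N (1 / (n + 1))
      rw [hmemR]
      have : ((1 / ((n : ℝ≥0) + 1) : ℝ≥0) : ℝ) ≤ (μ2 x1 (s p) : ℝ) := by
        push_cast
        exact hn.le
      exact_mod_cast this
    have hae2 := Measure.ae_ae_of_ae_prod hae
    have hae3 : ∀ᵐ w ∂(μ0 x1 : Measure (Om k)), (w, x1) ∈ MS μ0 x := by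
      have h6 := hfull x1 h.mem1
      have hm6 : MeasurableSet {z : Om k | (z, x1) ∈ MS μ0 x} :=
        ((isClosed_closure : IsClosed (MS μ0 x)).preimage
          (by fun_prop : Continuous fun z : Om k => (z, x1))).measurableSet
      have h7 : (μ0 x1 : Measure (Om k)) {z : Om k | (z, x1) ∈ MS μ0 x} = 1 := by
        rw [← ProbabilityMeasure.ennreal_coeFn_eq_coeFn_toMeasure, h6]
        rfl
      exact (mem_ae_iff_prob_eq_one hm6).2 h7
    obtain ⟨w, hw1, hw2⟩ := (hae2.and hae3).exists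
    have h8 := hmass w x1 hw2
    have hm8 : MeasurableSet {p : Om k × Om k | ((w, p), x1) ∈ N} :=
      (hNc.preimage (by fun_prop : Continuous fun p : Om k × Om k =>
        (((w, p), x1) : (Om k × Om k × Om k) × X))).measurableSet
    have h9 : ((μ1 x1 : Measure (Om k)).prod (μ2 x1 : Measure (Om k)))
        {p : Om k × Om k | ((w, p), x1) ∈ N} = 0 := by
      rw [Measure.measure_prod_null hm8]
      exact hw1
    rw [h8] at h9
    exact ha.ne' h9
  obtain ⟨n, hn⟩ := hex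
  set ε : ℝ≥0 := 1 / (n + 1) with hε
  have hεpos : 0 < ε := by
    rw [hε]
    positivity
  have hone : ((μ0 x1 : Measure (Om k)).prod (μ1 x1 : Measure (Om k)))
      {p | (p, x1) ∈ RR μ2 N ε} = 1 :=
    (h.zo (RR μ2 N ε) (closed_RR h5 h.c2 hNc ε) (inv_RR h.e2 hNc hN.inv ε) x1
      h.mem1).resolve_left hn
  have hae4 : ∀ᵐ p ∂ν, (p, x1) ∈ RR μ2 N ε :=
    (Measure.absolutelyContinuous_of_le hle).ae_le ((mem_ae_iff_prob_eq_one (hRm ε)).2 hone)
  -- Fubini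
  have hT : MeasurableSet {q : (Om k × Om k) × Om k | ((q.1.1, q.1.2, q.2), x1) ∈ N} :=
    (hNc.preimage (by fun_prop : Continuous fun q : (Om k × Om k) × Om k =>
      (((q.1.1, q.1.2, q.2), x1) : (Om k × Om k × Om k) × X))).measurableSet
  have hz : (ν.prod (μ2 x1 : Measure (Om k)))
      {q : (Om k × Om k) × Om k | ((q.1.1, q.1.2, q.2), x1) ∈ N} = 0 := by
    rw [Measure.prod_apply_symm hT]
    have hpal : ∀ᵐ v ∂(μ2 x1 : Measure (Om k)), v 0 ∈ C := by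
      rw [ae_iff]
      exact h.pal
    rw [lintegral_eq_zero_iff (measurable_measure_prodMk_right hT)]
    filter_upwards [hN.kil, hpal] with v hv1 hv2
    by_contra hne
    exact hv1 (pos_iff_ne_zero.2 hne) hv2
  rw [Measure.prod_apply hT] at hz
  have hge : (ε : ℝ≥0∞) * ν univ ≤ ∫⁻ p, (μ2 x1 : Measure (Om k))
      (Prod.mk p ⁻¹' {q : (Om k × Om k) × Om k | ((q.1.1, q.1.2, q.2), x1) ∈ N}) ∂ν := by
    rw [← lintegral_const]
    refine lintegral_mono_ae ?_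
    filter_upwards [hae4] with p hp
    have hp' : ε ≤ μ2 x1 (s p) := hp
    calc (ε : ℝ≥0∞) ≤ ((μ2 x1 (s p) : ℝ≥0) : ℝ≥0∞) := by exact_mod_cast hp'
      _ = (μ2 x1 : Measure (Om k)) (s p) :=
        ProbabilityMeasure.ennreal_coeFn_eq_coeFn_toMeasure _ _
  rw [hz] at hge
  have hpos : 0 < (ε : ℝ≥0∞) * ν univ :=
    ENNReal.mul_pos (by exact_mod_cast hεpos.ne') hνpos.ne'
  exact absurd hge (not_le.2 hpos)

end Pool.Agent.Work.MP_69fea5_lc.W3
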