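import Pool.Agent.Work.MP_69fea5_lc.W3.StmtsM

/-!
Block [69fea5 F], main line, item FRC: levels with exact coded frames exist.
-/

set_option autoImplicit false

namespace Pool.Agent.Work.MP_69fea5_lc.W3

open MeasureTheory Topology Set Filter TopologicalSpace
open scoped NNReal ENNReal
open Pool.Agent.Work.MP_69fea5_lc.AK
open Pool.Agent.Work.MP_69fea5_lc.HK (Cl DU Ar ArF ArR Dat Law LawC act near sc Pt oc Mn mr ext)
open Pool.Agent.Work.MP_69fea5_lc.KC (Agree)

namespace I_FRC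

/-- the images of a base point and of a coded family, enumerated -/
theorem sc_cons {S : Set (Set ℕ)} {U : Ultrafilter ℕ} {α β : Type} [TopologicalSpace α] [Dat α]
    [Law α] [LawC α] [TopologicalSpace β] [Dat β] [Law β] [LawC β] {ι : Type} [Primcodable ι]
    (hS : Cl S) (hU : DU S U) {w : α} {f : α → β} (hf : ContinuousOn f (oc w))
    (he : ∀ n : ℤ, f (act n w) = act n (f w)) (hw : Pt S w) (hfw : Pt S (f w)) {x : ι → α}
    (hx : sc S x) (h : ∀ i, x i ∈ oc w) {e : ℕ → ι} (hen : ArF S e) :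
    sc S fun n : ℕ => if n = 0 then f w else f (x (e (n - 1))) := by
  classical
  obtain ⟨m, hm, hm'⟩ := exists_times_fam hS (w := fun _ : ι => w) (sc_const hS hw) hx h
  have hq : ArF S fun p : ℕ × ℕ => if p.1 = 0 then (0 : ℤ) else m (e (p.1 - 1), p.2) := by
    refine ArF.ite hS ?_ (ArF.const hS 0) ?_
    · exact Ar.eq hS (ArF.fst hS) (ArF.const hS 0)
    · refine hm.comp hS (ArF.pair hS (hen.comp hS ?_) (ArF.snd hS))
      exact ArF.of_primrec hS (Primrec.pred.comp Primrec.fst)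
  refine sc_lim hS hU (w := fun p : ℕ × ℕ =>
    act (if p.1 = 0 then (0 : ℤ) else m (e (p.1 - 1), p.2)) (f w)) (sc_orb hS hfw hq) fun n => ?_
  rcases Nat.eq_zero_or_pos n with hn | hn
  · subst hn
    simp only [if_true, Law.act_zero]
    exact tendsto_const_nhds
  · simp only [hn.ne', if_false]
    have h1 : Tendsto (fun r => act (m (e (n - 1), r)) w) (U : Filter ℕ) (𝓝 (x (e (n - 1)))) :=
      tendsto_near hU.top (hm' (e (n - 1)))
    have h2 : Tendsto (fun r => act (m (e (n - 1), r)) w) (U : Filter ℕ)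
        (𝓝[oc w] (x (e (n - 1)))) :=
      tendsto_nhdsWithin_iff.2 ⟨h1, Eventually.of_forall fun r => HK.act_mem_oc w _⟩
    refine ((hf (x (e (n - 1))) (h (e (n - 1)))).tendsto.comp h2).congr fun r => ?_
    exact he _

end I_FRC

theorem FRC_pf (hLXC : S_LXC) (hLXL : S_LXL) (hVNB : S_VNB) (hTHP : S_THP) (hZSE : S_ZSE)
    (hZSC : S_ZSC) (hEX2 : S_EX2) (hTHPT : S_THPT) (hEX3 : S_EX3) (hDIR : S_DIR)
    (hT7M : S_T7M) (hORB : AK.S_ORB) (hIMG : AK.S_IMG) : S_FRC := by
  intro S U hS hU k c hc X _ _ _ _ _ A x hcb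
  obtain ⟨z, hz, hzx⟩ := hcb.ptz
  obtain ⟨hd, horb⟩ := hDIR S hS k X A z x hz hcb.min hzx
  -- the base
  have himg : MinSet (Prod.snd '' A) :=
    hIMG (Om k × X) X A Prod.snd hcb.min continuous_snd.continuousOn fun _ _ _ => rfl
  have horbx : orb x = Prod.snd '' A := by
    obtain ⟨-, -, -, -, h5, -⟩ := hORB X x
    exact h5 _ himg hcb.mem
  have hminx : MinSet (orb x) := by rw [horbx]; exact himg
  obtain ⟨l, hl, haaf, hminl⟩ := hLXC S U hS hU k X x (diracProba z) hcb.pt hd hminx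
  have hone : (diracProba z : PM k) {u | (u, x) ∈ A} = 1 := by
    have h1 : ((diracProba z : PM k) : Measure (Om k)) {u | (u, x) ∈ A} = 1 :=
      diracProba_toMeasure_apply_of_mem hzx
    rw [← ProbabilityMeasure.ennreal_coeFn_eq_coeFn_toMeasure] at h1
    exact_mod_cast h1
  obtain ⟨A₁, hbch, hlev, hcb1, -⟩ := hLXL S U hS hU k c hc X A x (diracProba z) l hcb hone hl haaf
    hminl
  -- the phase
  have hAy : Prod.snd '' A₁ = orb (x, l) := by
    obtain ⟨-, -, -, -, h5, -⟩ := hORB (X × PM k) (x, l)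
    refine (h5 _ ?_ hcb1.mem).symm
    exact hIMG (Om k × (X × PM k)) (X × PM k) A₁ Prod.snd hcb1.min continuous_snd.continuousOn
      fun _ _ _ => rfl
  have hbas : Bas (Vn (x, l)) (Prod.snd '' A₁) := by
    rw [hAy]; exact hVNB (X × PM k) (x, l)
  have hpha : Pha A₁ (th (x, l)) := hTHP k (X × PM k) (ℕ × ℤ) (Vn (x, l)) A₁ Prod.snd hlev hbas
  -- the base point
  obtain ⟨zs, hzs, hzsx⟩ := hZSC S U hS hU k c (X × PM k) l (x, l) hc hl hcb1.pt
    (hZSE k c (X × PM k) A₁ Prod.snd hlev (x, l) hcb1.mem hcb1.ex)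
  obtain ⟨hzA, -, hom⟩ := hEX2 k c (X × PM k) (CPh k) A₁ Prod.snd (th (x, l)) hlev hpha (x, l)
    hcb1.mem zs hzsx
  -- the orbit closures
  have horb1 : orb (zs, (x, l)) = A₁ := by
    obtain ⟨-, -, -, -, h5, -⟩ := hORB (Om k × (X × PM k)) (zs, (x, l))
    exact h5 _ hcb1.min hzA
  have hoc1 : oc (zs, (x, l)) = A₁ := by rw [KC.oc_eq, horb1]
  have hoc2 : ∀ u : Om k, ((x, l), u) ∈ oc ((x, l), zs) ↔ (u, (x, l)) ∈ A₁ := by
    intro u
    rw [← hoc1]
    constructor
    · intro h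
      have h2 : Continuous fun p : (X × PM k) × Om k => (p.2, p.1) :=
        continuous_snd.prodMk continuous_fst
      have h3 := map_mem_closure h2 h (t := Set.range fun n : ℤ => act n (zs, (x, l)))
        (by rintro _ ⟨n, rfl⟩; exact ⟨n, rfl⟩)
      exact h3
    · intro h
      have h2 : Continuous fun p : Om k × (X × PM k) => (p.2, p.1) :=
        continuous_snd.prodMk continuous_fst
      have h3 := map_mem_closure h2 h (t := Set.range fun n : ℤ => act n ((x, l), zs))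
        (by rintro _ ⟨n, rfl⟩; exact ⟨n, rfl⟩)
      exact h3
  -- the dense family
  obtain ⟨u, hu, hu1, hu2⟩ := exists_dense_fibre hS hU (x₀ := (x, l)) (y₀ := zs) hcb1.pt hzs
  have hu1' : ∀ i, (u i, (x, l)) ∈ A₁ := fun i => (hoc2 _).1 (hu1 i)
  have hth0 : Pt S (th (x, l) (zs, (x, l))) := hTHPT S hS k X (x, l) zs hcb1.pt hzs
  set en : ℕ → ℤ × ℕ × ℕ := Denumerable.ofNat (ℤ × ℕ × ℕ) with hen
  set t : ℕ → CPh k := fun n => if n = 0 then th (x, l) (zs, (x, l)) else
    th (x, l) (u (en (n - 1)), (x, l)) with ht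
  have htc : sc S t := by
    refine I_FRC.sc_cons (w := (zs, (x, l))) (f := th (x, l)) (x := fun i => (u i, (x, l))) hS hU
      ?_ ?_ ?_ hth0 ?_ ?_ (ArF.of_primrec hS (Primrec.ofNat (ℤ × ℕ × ℕ)))
    · rw [hoc1]; exact hpha.cont
    · intro n
      rw [Agree.eq, Agree.eq]
      exact hpha.equi _ hzA n
    · exact pt_prod.2 ⟨hzs, hcb1.pt⟩
    · exact sc_prod.2 ⟨hu, sc_const hS hcb1.pt⟩
    · intro i; rw [hoc1]; exact hu1' i
  have ht1 : ∀ n, ∃ u', (u', (x, l)) ∈ A₁ ∧ t n = th (x, l) (u', (x, l)) := by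
    intro n
    rcases Nat.eq_zero_or_pos n with h | h
    · exact ⟨zs, hzA, by simp [ht, h]⟩
    · exact ⟨u (en (n - 1)), hu1' _, by simp [ht, h.ne']⟩
  have hfrm : Frm (JJ A₁ (th (x, l))) ((x, l), t) := by
    refine ⟨fun n => ?_, fun s hs => ?_⟩
    · obtain ⟨u', h1, h2⟩ := ht1 n
      exact ⟨(u', (x, l)), h1, by simp only [h2]⟩
    · obtain ⟨⟨u', y'⟩, h1, h2⟩ := hs
      simp only [Prod.mk.injEq] at h2
      obtain ⟨h2, h3⟩ := h2
      rw [h3] at h1 h2
      have h4 : u' ∈ closure (Set.range u) := hu2 u' ((hoc2 u').2 h1)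
      have h5 : ContinuousWithinAt (fun b : Om k => th (x, l) (b, (x, l))) (Set.range u) u' := by
        have h7 : ContinuousWithinAt (fun b : Om k => (b, (x, l))) (Set.range u) u' :=
          (Continuous.prodMk continuous_id continuous_const :
            Continuous fun b : Om k => (b, (x, l))).continuousWithinAt
        have h8 : ContinuousWithinAt (th (x, l)) A₁ ((fun b : Om k => (b, (x, l))) u') :=
          hpha.cont (u', (x, l)) h1
        refine ContinuousWithinAt.comp (t := A₁) h8 h7 ?_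
        rintro _ ⟨i, rfl⟩
        exact hu1' i
      have h6 := h5.mem_closure_image h4
      rw [← h2]
      refine closure_mono ?_ h6
      rintro _ ⟨_, ⟨i, rfl⟩, rfl⟩
      refine ⟨Encodable.encode i + 1, ?_⟩
      have h7 : en (Encodable.encode i) = i := Denumerable.ofNat_encode i
      simp only [ht, Nat.add_sub_cancel, h7]
      rfl
  refine ⟨A₁, ((x, l), t), hcb, rfl, hbch, hlev, hpha, hfrm, hcb1, ?_⟩
  obtain ⟨hm1, hm2, -⟩ := hT7M (Om k) (CPh k) (X × PM k) A₁ (th (x, l)) hpha ((x, l), t) hfrm 0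
  have hself : ((x, l), t) ∈ orb ((x, l), t) := (hORB (WF k X) ((x, l), t)).2.2.1
  refine ⟨hm1, ?_, ?_, ?_, zs, hzs, hself, hzA, ?_⟩
  · exact hm2.symm ▸ hself
  · exact hEX3 k c (X × PM k) (CPh k) A₁ (th (x, l)) hpha ((x, l), t) 0 hfrm
      ⟨zs, hzA, by simpa [ht] using hom _ hzA⟩
  · exact pt_prod.2 ⟨hcb1.pt, (pt_pi hS).2 htc⟩
  · simp [ht]

end Pool.Agent.Work.MP_69fea5_lc.W3
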