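import Pool.Agent.Work.MP_69fea5_lc.W3.StmtsT

/-!
# Item [69fea5 T FSD]: measures with finite support are dense

The simple functions `SimpleFunc.approxOn id F` push `ν` to measures with finite support in `F`,
which converge to `ν`.
-/

set_option autoImplicit false

namespace Pool.Agent.Work.MP_69fea5_lc.W3

open MeasureTheory Topology Set Filter TopologicalSpace
open scoped NNReal ENNReal
open Pool.Agent.Work.MP_69fea5_lc.AK

namespace I_FSD

/-- the image of a measure under a simple function -/
theorem map_simple {X : Type} [MeasurableSpace X] (T : SimpleFunc X X) (ν : Measure X) :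
    ν.map T = ∑ y ∈ T.range, ν (T ⁻¹' {y}) • Measure.dirac y := by
  classical
  ext s hs
  rw [Measure.map_apply T.measurable hs, Measure.finsetSum_apply]
  have h1 : (T ⁻¹' s : Set X) = T ⁻¹' (↑(T.range.filter (· ∈ s)) : Set X) := by
    ext x
    simp
  rw [h1, ← T.sum_measure_preimage_singleton, Finset.sum_filter]
  refine Finset.sum_congr rfl fun y _ => ?_
  rw [Measure.smul_apply, Measure.dirac_apply' _ hs, smul_eq_mul]
  by_cases hy : y ∈ s
  · simp [hy]
  · simp [hy]

/-- one simple function gives one measure with finite support -/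
theorem fin_supp {X : Type} [MeasurableSpace X] (F : Set X) (ν : ProbabilityMeasure X)
    (T : SimpleFunc X X) (hT : ∀ x, T x ∈ F) :
    ∃ (n : ℕ) (x : Fin n → X) (w : Fin n → ℝ≥0), (∀ i, x i ∈ F) ∧ (∑ i, w i = 1) ∧
      (ν : Measure X).map T = ∑ i, (w i : ℝ≥0∞) • Measure.dirac (x i) := by
  classical
  have hx : ∀ y ∈ T.range, y ∈ F := by
    intro y hy
    rw [SimpleFunc.mem_range] at hy
    obtain ⟨a, rfl⟩ := hy
    exact hT a
  have hw : ∀ y, ((ν (T ⁻¹' {y}) : ℝ≥0) : ℝ≥0∞) = (ν : Measure X) (T ⁻¹' {y}) := fun y =>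
    ProbabilityMeasure.ennreal_coeFn_eq_coeFn_toMeasure ν _
  refine ⟨T.range.card, fun i => (T.range.equivFin.symm i : X),
    fun i => ν (T ⁻¹' {(T.range.equivFin.symm i : X)}), fun i => hx _ (T.range.equivFin.symm i).2,
    ?_, ?_⟩
  · have h1 : ∑ i : Fin T.range.card, ν (T ⁻¹' {(T.range.equivFin.symm i : X)}) =
        ∑ y ∈ T.range, ν (T ⁻¹' {y}) := by
      rw [← Finset.sum_coe_sort T.range fun y => ν (T ⁻¹' {y})]
      exact Equiv.sum_comp T.range.equivFin.symm fun y => ν (T ⁻¹' {(y : X)})
    rw [h1]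
    have h2 := T.sum_range_measure_preimage_singleton (ν : Measure X)
    have h3 : ((∑ y ∈ T.range, ν (T ⁻¹' {y}) : ℝ≥0) : ℝ≥0∞) = ((1 : ℝ≥0) : ℝ≥0∞) := by
      rw [ENNReal.ofNNReal_finsetSum]
      simp only [hw]
      rw [h2, measure_univ, ENNReal.coe_one]
    exact_mod_cast h3
  · rw [map_simple]
    rw [← Finset.sum_coe_sort T.range fun y => (ν : Measure X) (T ⁻¹' {y}) • Measure.dirac y]
    rw [← Equiv.sum_comp T.range.equivFin.symm]
    refine Finset.sum_congr rfl fun i _ => ?_
    rw [hw]

end I_FSD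

open I_FSD in
theorem FSD_pf : S_FSD := by
  intro X _ _ _ F ν hF hν U hU
  let _ : MetricSpace X := metrizableSpaceMetric X
  have hne : F.Nonempty := by
    by_contra h
    rw [Set.not_nonempty_iff_eq_empty] at h
    rw [h] at hν
    simp at hν
  obtain ⟨y₀, h₀⟩ := hne
  have h1 : (ν : Measure X) F = 1 := by
    rw [← ProbabilityMeasure.ennreal_coeFn_eq_coeFn_toMeasure, hν, ENNReal.coe_one]
  have hνF : ∀ᵐ x ∂(ν : Measure X), x ∈ F := (mem_ae_iff_prob_eq_one hF.measurableSet).2 h1
  let T : ℕ → SimpleFunc X X := fun n => SimpleFunc.approxOn id measurable_id F y₀ h₀ n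
  have hT : ∀ n x, T n x ∈ F := fun n x => SimpleFunc.approxOn_mem measurable_id h₀ n x
  have hlim : ∀ x ∈ F, Tendsto (fun n => T n x) atTop (𝓝 x) := fun x hx =>
    SimpleFunc.tendsto_approxOn measurable_id h₀ (subset_closure hx)
  have hconv : Tendsto (fun n => ν.map (f := T n) (T n).measurable.aemeasurable) atTop (𝓝 ν) := by
    rw [ProbabilityMeasure.tendsto_iff_forall_integral_tendsto]
    intro g
    have h2 : ∀ n, ∫ x, g x ∂((ν.map (f := T n) (T n).measurable.aemeasurable :
        ProbabilityMeasure X) : Measure X) = ∫ x, g (T n x) ∂(ν : Measure X) := by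
      intro n
      rw [ProbabilityMeasure.toMeasure_map]
      exact integral_map (T n).measurable.aemeasurable
        g.continuous.measurable.aestronglyMeasurable
    simp only [h2]
    refine tendsto_integral_of_dominated_convergence (fun _ => ‖g‖) ?_ (integrable_const _) ?_ ?_
    · exact fun n => (g.continuous.measurable.comp (T n).measurable).aestronglyMeasurable
    · exact fun n => Eventually.of_forall fun x => g.norm_coe_le_norm _
    · filter_upwards [hνF] with x hx
      exact (g.continuous.tendsto x).comp (hlim x hx)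
  obtain ⟨n, hn⟩ := (hconv.eventually hU).exists
  obtain ⟨N, x, w, hx, hw, hm⟩ := fin_supp F ν (T n) (hT n)
  exact ⟨N, x, w, _, hn, hx, hw, hm⟩

end Pool.Agent.Work.MP_69fea5_lc.W3
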