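import Pool.Agent.Work.MP_69fea5_lc.W3.StmtsF1

set_option autoImplicit false
set_option linter.unusedSectionVars false

namespace Pool.Agent.Work.MP_69fea5_lc.W3

open MeasureTheory Topology Set Filter TopologicalSpace
open scoped NNReal ENNReal
open Pool.Agent.Work.MP_69fea5_lc.AK

namespace I_FSM

/-- limits along ultrafilters exist -/
theorem exists_lim {ι Y : Type} [TopologicalSpace Y] [CompactSpace Y] (G : Ultrafilter ι)
    (f : ι → Y) : ∃ y, Tendsto f (G : Filter ι) (𝓝 y) := by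
  obtain ⟨y, -, hy⟩ := isCompact_univ.ultrafilter_le_nhds (G.map f) (by simp)
  exact ⟨y, hy⟩

variable {O X C : Type} [TopologicalSpace O] [MeasurableSpace O] [CS O] [Sys O]
  [TopologicalSpace X] [MeasurableSpace X] [CS X] [Sys X]
  [TopologicalSpace C] [MeasurableSpace C] [CS C] [Sys C]

/-- the distance of the phases -/
theorem ipb_phase {A : Set (O × X)} {θ : O × X → C} (hθ : Pha A θ) {d : C → C → X → ℝ}
    (hd : Isom (JJ A θ) d) : IPB A (fun u v x => d (θ (u, x)) (θ (v, x)) x) := by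
  have hJ : ∀ u x, (u, x) ∈ A → (θ (u, x), x) ∈ JJ A θ := fun u x h => ⟨(u, x), h, rfl⟩
  refine ⟨?_, ?_, ?_, ?_, ?_, ?_⟩
  · have h1 : ContinuousOn (fun p : O × O × X => θ (p.1, p.2.2))
        {p | (p.1, p.2.2) ∈ A ∧ (p.2.1, p.2.2) ∈ A} :=
      hθ.cont.comp (continuous_fst.prodMk (continuous_snd.comp continuous_snd)).continuousOn
        (fun p hp => hp.1)
    have h2 : ContinuousOn (fun p : O × O × X => θ (p.2.1, p.2.2))
        {p | (p.1, p.2.2) ∈ A ∧ (p.2.1, p.2.2) ∈ A} :=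
      hθ.cont.comp ((continuous_fst.comp continuous_snd).prodMk
        (continuous_snd.comp continuous_snd)).continuousOn (fun p hp => hp.2)
    have h3 : ContinuousOn (fun p : O × O × X => (θ (p.1, p.2.2), θ (p.2.1, p.2.2), p.2.2))
        {p | (p.1, p.2.2) ∈ A ∧ (p.2.1, p.2.2) ∈ A} :=
      h1.prodMk (h2.prodMk (continuous_snd.comp continuous_snd).continuousOn)
    exact hd.ipb.cont.comp h3 (fun p hp => ⟨hJ _ _ hp.1, hJ _ _ hp.2⟩)
  · intro n x u u' hu hu'
    have h1 : θ (sh n u, sh n x) = sh n (θ (u, x)) := hθ.equi (u, x) hu n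
    have h2 : θ (sh n u', sh n x) = sh n (θ (u', x)) := hθ.equi (u', x) hu' n
    rw [h1, h2]
    exact hd.ipb.inv n x _ _ (hJ _ _ hu) (hJ _ _ hu')
  · intro x u hu
    exact hd.ipb.self x _ (hJ _ _ hu)
  · intro x u u' hu hu'
    exact hd.ipb.nonneg x _ _ (hJ _ _ hu) (hJ _ _ hu')
  · intro x u u' hu hu'
    exact hd.ipb.symm x _ _ (hJ _ _ hu) (hJ _ _ hu')
  · intro x u u' u'' hu hu' hu''
    exact hd.ipb.tri x _ _ _ (hJ _ _ hu) (hJ _ _ hu') (hJ _ _ hu'')

/-- balls are measurable -/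
theorem measurable_ball {A : Set (O × X)} {ρ : O → O → X → ℝ} (hA : IsClosed A)
    (hρ : IPB A ρ) (x : X) (u : O) (hu : (u, x) ∈ A) (ε : ℝ) :
    MeasurableSet {v | (v, x) ∈ A ∧ ρ u v x < ε} := by
  have h1 : ContinuousOn (fun v : O => ρ u v x) {v | (v, x) ∈ A} := by
    have h2 : Continuous (fun v : O => (u, v, x)) := by fun_prop
    exact hρ.cont.comp h2.continuousOn (fun v hv => ⟨hu, hv⟩)
  have h3 : IsClosed {v : O | (v, x) ∈ A} := by
    have h4 : Continuous (fun v : O => (v, x)) := by fun_prop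
    exact hA.preimage h4
  obtain ⟨U, hU, hU'⟩ := (continuousOn_iff'.1 h1) (Iio ε) isOpen_Iio
  have h5 : {v | (v, x) ∈ A ∧ ρ u v x < ε} = U ∩ {v | (v, x) ∈ A} := by
    rw [← hU']
    ext v
    exact ⟨fun h => ⟨h.2, h.1⟩, fun h => ⟨h.2, h.1⟩⟩
  rw [h5]
  exact hU.measurableSet.inter h3.measurableSet

end I_FSM

theorem FSM_pf (hSUP : AK.S_SUP) (hSPS : S_SPS) (hBCX : S_BCX) (hRIM : S_RIM) (hBLX : S_BLX)
    (hBRX : S_BRX) : S_FSM := by
  intro k Y C X' X₂ C₂ _ _ _ _ _ _ _ _ _ _ _ _ _ _ _ _ _ _ _ _ A ms θ v₀ E q lm Y₂ q₂ A₂ ms₂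
    θ₂ p₂ F e κ s K hPE hL hPh hone hF hFs he hBar hκF hs hK hκK
  -- the strongly proximal extension
  have hE : SPx E p₂ := by
    refine ⟨hPE.spx.min, hL.cont, hL.equi, ?_⟩
    refine hSPS X' (Y × (ℕ → C)) X₂ E E q p₂ hPE.spx.spr (subset_refl _) ?_
    intro a _ b _ hab
    rw [← hL.comp a, ← hL.comp b, hab]
  have hbase : Prod.snd '' A₂ = p₂ '' E := by
    rw [hL.onto]
    refine hL.bch.spx.min.min _ ?_ (hL.bch.min.ne.image _) ?_ ?_
    · exact (hL.bch.min.closed.isCompact.image continuous_snd).isClosed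
    · rintro n _ ⟨z, hz, rfl⟩
      exact ⟨sh n z, hL.bch.min.inv n z hz, rfl⟩
    · rintro _ ⟨z, hz, rfl⟩
      exact (hL.bch.sub hz).1
  obtain ⟨A'', hA''⟩ := hBCX (Om k) X₂ X' A₂ E p₂ hE hPh.min hbase
  have hLev : Lev A'' lm := hRIM (Om k) X₂ X' A₂ E p₂ A'' lm hA'' hPE.cont hPE.equi hone
  obtain ⟨d, hd⟩ := hPh.iso
  have hρ := I_FSM.ipb_phase hPh hd
  -- the point with the phase `s`
  obtain ⟨⟨u, x⟩, hu, hux⟩ := hs
  have hx : x = p₂ e := congrArg Prod.snd hux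
  have hθs : θ₂ (u, x) = s := congrArg Prod.fst hux
  have hsJ : (s, x) ∈ JJ A₂ θ₂ := ⟨(u, x), hu, Prod.ext hθs rfl⟩
  rw [← hx] at hκF
  -- members close to the phase
  have hFsec : IsClosed {m : PM k | ∃ t, ((x, t), m) ∈ F} := by
    have h1 : IsClosed {p : (ℕ → C₂) × PM k | ((x, p.1), p.2) ∈ F} := by
      have h2 : Continuous (fun p : (ℕ → C₂) × PM k => ((x, p.1), p.2)) := by fun_prop
      exact hF.preimage h2
    have h3 : {m : PM k | ∃ t, ((x, t), m) ∈ F} =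
        Prod.snd '' {p : (ℕ → C₂) × PM k | ((x, p.1), p.2) ∈ F} := by
      ext m
      constructor
      · rintro ⟨t, ht⟩
        exact ⟨(t, m), ht, rfl⟩
      · rintro ⟨⟨t, m'⟩, ht, rfl⟩
        exact ⟨t, ht⟩
    rw [h3]
    exact (h1.isCompact.image continuous_snd).isClosed
  have hae : ∀ᵐ m ∂(κ : Measure (PM k)), (∃ t, ((x, t), m) ∈ F) ∧ m ∈ K := by
    have h1 : ∀ᵐ m ∂(κ : Measure (PM k)), m ∈ {m : PM k | ∃ t, ((x, t), m) ∈ F} := by
      have h2 : (κ : Measure (PM k)) {m : PM k | ∃ t, ((x, t), m) ∈ F} = 1 := by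
        rw [← ProbabilityMeasure.ennreal_coeFn_eq_coeFn_toMeasure, hκF]
        rfl
      exact ae_iff.2 ((prob_compl_eq_zero_iff hFsec.measurableSet).2 h2)
    have h3 : ∀ᵐ m ∂(κ : Measure (PM k)), m ∈ K := by
      have h2 : (κ : Measure (PM k)) K = 1 := by
        rw [← ProbabilityMeasure.ennreal_coeFn_eq_coeFn_toMeasure, hκK]
        rfl
      exact ae_iff.2 ((prob_compl_eq_zero_iff hK.measurableSet).2 h2)
    filter_upwards [h1, h3] with m h1 h3 using ⟨h1, h3⟩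
  have hnear : ∀ ε : ℝ, 0 < ε → ∃ (t : ℕ → C₂) (m : PM k), ((x, t), m) ∈ F ∧ m ∈ K ∧
      (t 0, x) ∈ JJ A₂ θ₂ ∧ d s (t 0) x < ε := by
    intro ε hε
    have hpos := hBLX (Om k) X₂ X' A₂ E p₂ A'' lm _ hA'' hLev hρ ε hε e he u (hx ▸ hu)
    rw [← hx] at hpos
    have hmeas := I_FSM.measurable_ball hPh.min.closed hρ x u hu ε
    set B : Set (Om k) := {v | (v, x) ∈ A₂ ∧ d (θ₂ (u, x)) (θ₂ (v, x)) x < ε} with hB
    have hint : (lm e : Measure (Om k)) B = ∫⁻ m, (m : Measure (Om k)) B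
        ∂(κ : Measure (PM k)) :=
      (hBRX (PM k) (Om k) κ id measurable_id).2.2.1 (lm e) hBar B hmeas
    by_contra hcon
    push Not at hcon
    have hzero : ∫⁻ m, (m : Measure (Om k)) B ∂(κ : Measure (PM k)) = 0 := by
      rw [lintegral_eq_zero_iff' ?_]
      · filter_upwards [hae] with m hm
        obtain ⟨⟨t, ht⟩, hmK⟩ := hm
        by_contra hmB
        have hmB' : (m : Measure (Om k)) B ≠ 0 := hmB
        -- a point of the support in the ball
        have h1 : ∃ z ∈ supp m, z ∈ B := by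
          by_contra hno
          push Not at hno
          apply hmB'
          have h2 : B ⊆ (supp m)ᶜ := fun z hz hz' => hno z hz' hz
          have h3 : (m : Measure (Om k)) (supp m)ᶜ = 0 := by
            have h4 : (m : Measure (Om k)) (supp m) = 1 := by
              rw [← ProbabilityMeasure.ennreal_coeFn_eq_coeFn_toMeasure, (hSUP k m).2.1]
              rfl
            exact (prob_compl_eq_zero_iff (hSUP k m).1.measurableSet).2 h4
          exact measure_mono_null h2 h3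
        obtain ⟨z, hz, hzB⟩ := h1
        obtain ⟨hzA, hzt⟩ := hFs _ ht z hz
        change (z, x) ∈ A₂ at hzA
        change θ₂ (z, x) = t 0 at hzt
        have h4 := hcon t m ht hmK (by rw [← hzt]; exact ⟨(z, x), hzA, rfl⟩)
        have h5 := hzB.2
        rw [hθs, hzt] at h5
        exact absurd h5 (not_lt.2 h4)
      · exact ((Measure.measurable_coe hmeas).comp measurable_subtype_coe).aemeasurable
    have h6 : (lm e : Measure (Om k)) B = 0 := hint.trans hzero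
    have h7 : lm e B = 0 := by
      rw [← ProbabilityMeasure.ennreal_coeFn_eq_coeFn_toMeasure] at h6
      exact_mod_cast h6
    exact absurd hpos (by rw [h7]; exact lt_irrefl _)
  choose t m htF hmK htJ hdt using fun j : ℕ => hnear (1 / ((j : ℝ) + 1)) (by positivity)
  obtain ⟨⟨t', m'⟩, hlim⟩ := I_FSM.exists_lim (hyperfilter ℕ) (fun j : ℕ => (t j, m j))
  have hlt : Tendsto t (hyperfilter ℕ : Filter ℕ) (𝓝 t') :=
    (continuous_fst.tendsto (t', m')).comp hlim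
  have hlm : Tendsto m (hyperfilter ℕ : Filter ℕ) (𝓝 m') :=
    (continuous_snd.tendsto (t', m')).comp hlim
  have hlt0 : Tendsto (fun j => t j 0) (hyperfilter ℕ : Filter ℕ) (𝓝 (t' 0)) :=
    ((continuous_apply 0).tendsto t').comp hlt
  have h1 : ((x, t'), m') ∈ F := hF.mem_of_tendsto
    ((tendsto_const_nhds.prodMk_nhds hlt).prodMk_nhds hlm) (Eventually.of_forall htF)
  have h2 : m' ∈ K := hK.mem_of_tendsto hlm (Eventually.of_forall hmK)
  have h3 : (t' 0, x) ∈ JJ A₂ θ₂ := hd.closed.mem_of_tendsto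
    (hlt0.prodMk_nhds tendsto_const_nhds) (Eventually.of_forall htJ)
  refine ⟨t', m', hx ▸ h1, ?_, h2⟩
  symm
  refine hd.sep x s (t' 0) hsJ h3 ?_
  have h4 : Tendsto (fun j => d s (t j 0) x) (hyperfilter ℕ : Filter ℕ) (𝓝 (d s (t' 0) x)) := by
    have hc := hd.ipb.cont (s, t' 0, x) ⟨hsJ, h3⟩
    refine Tendsto.comp (f := fun j : ℕ => (s, t j 0, x))
      (y := 𝓝[{p : C₂ × C₂ × X₂ | (p.1, p.2.2) ∈ JJ A₂ θ₂ ∧ (p.2.1, p.2.2) ∈ JJ A₂ θ₂}]
        (s, t' 0, x)) hc ?_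
    refine tendsto_nhdsWithin_iff.2 ⟨tendsto_const_nhds.prodMk_nhds
      (hlt0.prodMk_nhds tendsto_const_nhds), Eventually.of_forall fun j => ⟨hsJ, htJ j⟩⟩
  have h5 : Tendsto (fun j : ℕ => (1 : ℝ) / ((j : ℝ) + 1)) (hyperfilter ℕ : Filter ℕ) (𝓝 0) := by
    have : (hyperfilter ℕ : Filter ℕ) ≤ atTop := by
      rw [← Nat.cofinite_eq_atTop]
      exact hyperfilter_le_cofinite
    exact tendsto_one_div_add_atTop_nhds_zero_nat.mono_left this
  have h6 : Tendsto (fun j => d s (t j 0) x) (hyperfilter ℕ : Filter ℕ) (𝓝 0) :=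
    tendsto_of_tendsto_of_tendsto_of_le_of_le tendsto_const_nhds h5
      (fun j => hd.ipb.nonneg x _ _ hsJ (htJ j)) (fun j => (hdt j).le)
  exact tendsto_nhds_unique h4 h6

end Pool.Agent.Work.MP_69fea5_lc.W3
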