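import Pool.Agent.Work.MP_69fea5_lc.W3.StmtsE

set_option autoImplicit false

namespace Pool.Agent.Work.MP_69fea5_lc.W3

open MeasureTheory Topology Set Filter ProbabilityTheory
open scoped NNReal ENNReal
open Pool.Agent.Work.MP_69fea5_lc.AK

namespace I_FUB

variable {k : ℕ}

theorem mcoe : Measurable fun m : PM k => (m : Measure (Om k)) := measurable_subtype_coe

/-- the kernel `m ↦ m` over a parameter space -/
noncomputable def ker {A : Type*} [MeasurableSpace A] (f : A → PM k) (hf : Measurable f) :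
    Kernel A (Om k) where
  toFun a := (f a : Measure (Om k))
  measurable' := mcoe.comp hf

instance {A : Type*} [MeasurableSpace A] (f : A → PM k) (hf : Measurable f) :
    IsMarkovKernel (ker f hf) := ⟨fun a => by change IsProbabilityMeasure (f a : Measure (Om k)); infer_instance⟩

/-- measurability of the measure of sections -/
theorem msec {A : Type*} [MeasurableSpace A] (f : A → PM k) (hf : Measurable f)
    {T : Set (A × Om k)} (hT : MeasurableSet T) :
    Measurable fun a => (f a : Measure (Om k)) {z | (a, z) ∈ T} :=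
  Kernel.measurable_kernel_prodMk_left (κ := ker f hf) hT

theorem m01 {A : Type*} [MeasurableSpace A] {g : A → ℝ≥0∞} (hg : Measurable g) :
    MeasurableSet {a | g a = 0 ∨ g a = 1} :=
  (hg (measurableSet_singleton 0)).union (hg (measurableSet_singleton 1))

theorem half (hSDB : S_SDB) (hSUP : S_SUP) (κ κ' : Measure (PM k)) [IsProbabilityMeasure κ]
    [IsProbabilityMeasure κ'] (θ : Measure (Om k)) [IsProbabilityMeasure θ]
    (F : Set (Om k × Om k × Om k)) (hF : MeasurableSet F)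
    (h : ∀ᵐ m ∂κ, ∀ u ∈ supp m, ∀ u' ∈ supp m,
      (θ.prod (sd κ' [])) {q | (q.1, u, q.2) ∈ F ∧ (q.1, u', q.2) ∉ F} = 0) :
    ∀ᵐ p ∂θ, ∀ᵐ (q : PM k × PM k) ∂(κ.prod κ'), ∀ᵐ v ∂(q.2 : Measure (Om k)),
      (q.1 : Measure (Om k)) {u | (p, u, v) ∈ F} = 0 ∨
        (q.1 : Measure (Om k)) {u | (p, u, v) ∈ F} = 1 := by
  obtain ⟨-, -, hsd, -, hprob, -, -⟩ := hSDB k κ' []
  -- the measurable condition
  have hG : Measurable fun a : PM k × (Om k × Om k) =>
      (a.1 : Measure (Om k)) {u | (a.2.1, u, a.2.2) ∈ F} := by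
    have hT : MeasurableSet {b : (PM k × (Om k × Om k)) × Om k | (b.1.2.1, b.2, b.1.2.2) ∈ F} := by
      have : Measurable fun b : (PM k × (Om k × Om k)) × Om k => (b.1.2.1, b.2, b.1.2.2) := by
        fun_prop
      exact this hF
    exact msec (fun a : PM k × (Om k × Om k) => a.1) measurable_fst hT
  -- step 1
  have h1 : ∀ᵐ (m : PM k) ∂κ, ∀ᵐ q ∂(θ.prod (sd κ' [])),
      (m : Measure (Om k)) {u | (q.1, u, q.2) ∈ F} = 0 ∨
        (m : Measure (Om k)) {u | (q.1, u, q.2) ∈ F} = 1 := by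
    filter_upwards [h] with m hm
    obtain ⟨hs1, hs2, ⟨u0, hu0⟩, -⟩ := hSUP k m
    have hsupp : ∀ᵐ u ∂(m : Measure (Om k)), u ∈ supp m := by
      rw [ae_iff]
      have : (m : Measure (Om k)) (supp m) = 1 := by
        have h3 : ((m (supp m) : ℝ≥0) : ℝ≥0∞) = 1 := by rw [hs2]; rfl
        rwa [ProbabilityMeasure.ennreal_coeFn_eq_coeFn_toMeasure] at h3
      have h4 := (prob_compl_eq_zero_iff (μ := (m : Measure (Om k))) hs1.measurableSet).2 this
      exact h4
    -- the set of differences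
    have hS : MeasurableSet {b : Om k × (Om k × Om k) |
        ¬ ((b.2.1, b.1, b.2.2) ∈ F ↔ (b.2.1, u0, b.2.2) ∈ F)} := by
      have ha : MeasurableSet {b : Om k × (Om k × Om k) | (b.2.1, b.1, b.2.2) ∈ F} := by
        have : Measurable fun b : Om k × (Om k × Om k) => (b.2.1, b.1, b.2.2) := by fun_prop
        exact this hF
      have hb : MeasurableSet {b : Om k × (Om k × Om k) | (b.2.1, u0, b.2.2) ∈ F} := by
        have : Measurable fun b : Om k × (Om k × Om k) => (b.2.1, u0, b.2.2) := by fun_prop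
        exact this hF
      have hc : {b : Om k × (Om k × Om k) |
          ¬ ((b.2.1, b.1, b.2.2) ∈ F ↔ (b.2.1, u0, b.2.2) ∈ F)} =
          ({b : Om k × (Om k × Om k) | (b.2.1, b.1, b.2.2) ∈ F} \
            {b : Om k × (Om k × Om k) | (b.2.1, u0, b.2.2) ∈ F}) ∪
          ({b : Om k × (Om k × Om k) | (b.2.1, u0, b.2.2) ∈ F} \
            {b : Om k × (Om k × Om k) | (b.2.1, b.1, b.2.2) ∈ F}) := by
        ext b
        simp only [Set.mem_ofPred_eq, Set.mem_union, Set.mem_sdiff]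
        tauto
      rw [hc]
      exact (ha.diff hb).union (hb.diff ha)
    have h5 : ∀ᵐ u ∂(m : Measure (Om k)), ∀ᵐ q ∂(θ.prod (sd κ' [])),
        ((q.1, u, q.2) ∈ F ↔ (q.1, u0, q.2) ∈ F) := by
      filter_upwards [hsupp] with u hu
      have e1 := hm u hu u0 hu0
      have e2 := hm u0 hu0 u hu
      have e3 : ∀ᵐ q ∂(θ.prod (sd κ' [])), ¬ ((q.1, u, q.2) ∈ F ∧ (q.1, u0, q.2) ∉ F) := by
        rw [ae_iff]; simpa using e1
      have e4 : ∀ᵐ q ∂(θ.prod (sd κ' [])), ¬ ((q.1, u0, q.2) ∈ F ∧ (q.1, u, q.2) ∉ F) := by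
        rw [ae_iff]; simpa using e2
      filter_upwards [e3, e4] with q h6 h7
      tauto
    have h6 : ∀ᵐ q ∂(θ.prod (sd κ' [])), ∀ᵐ u ∂(m : Measure (Om k)),
        ((q.1, u, q.2) ∈ F ↔ (q.1, u0, q.2) ∈ F) := by
      refine (Measure.ae_ae_comm (μ := (m : Measure (Om k))) (ν := θ.prod (sd κ' []))
        (p := fun u q => ((q.1, u, q.2) ∈ F ↔ (q.1, u0, q.2) ∈ F)) ?_).1 h5
      have := hS.compl
      convert this using 1
      ext b
      simp
    filter_upwards [h6] with q hq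
    by_cases hq0 : (q.1, u0, q.2) ∈ F
    · right
      have h9 : MeasurableSet {u | (q.1, u, q.2) ∈ F} := by
        have : Measurable fun u : Om k => (q.1, u, q.2) := by fun_prop
        exact this hF
      have : ∀ᵐ u ∂(m : Measure (Om k)), u ∈ {u | (q.1, u, q.2) ∈ F} := by
        filter_upwards [hq] with u hu
        exact hu.2 hq0
      rw [ae_iff] at this
      exact (prob_compl_eq_zero_iff (μ := (m : Measure (Om k))) h9).1 this
    · left
      have : ∀ᵐ u ∂(m : Measure (Om k)), ¬ (q.1, u, q.2) ∈ F := by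
        filter_upwards [hq] with u hu h8
        exact hq0 (hu.1 h8)
      rw [ae_iff] at this
      simpa using this
  -- step 2
  have hR : ∀ R : Set (Om k), MeasurableSet R → (∀ᵐ v ∂(sd κ' []), v ∈ R) →
      ∀ᵐ (m' : PM k) ∂κ', ∀ᵐ v ∂(m' : Measure (Om k)), v ∈ R := by
    intro R hR h2
    rw [ae_iff] at h2
    have h3 : ∫⁻ m', (m' : Measure (Om k)) Rᶜ ∂κ' = 0 := by
      have := hsd Rᶜ hR.compl
      simp only [wt, List.map_nil, List.prod_nil, one_mul] at this
      rw [← this]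
      exact h2
    have hmm : Measurable fun m' : PM k => (m' : Measure (Om k)) Rᶜ :=
      (Measure.measurable_coe hR.compl).comp mcoe
    have h5 := (lintegral_eq_zero_iff hmm).1 h3
    filter_upwards [h5] with m' hm'
    rw [ae_iff]
    exact hm'
  have hP : MeasurableSet {a : PM k × (Om k × Om k) |
      (a.1 : Measure (Om k)) {u | (a.2.1, u, a.2.2) ∈ F} = 0 ∨
        (a.1 : Measure (Om k)) {u | (a.2.1, u, a.2.2) ∈ F} = 1} := m01 hG
  have h3 : ∀ᵐ (m : PM k) ∂κ, ∀ᵐ p ∂θ, ∀ᵐ (m' : PM k) ∂κ', ∀ᵐ v ∂(m' : Measure (Om k)),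
      (m : Measure (Om k)) {u | (p, u, v) ∈ F} = 0 ∨
        (m : Measure (Om k)) {u | (p, u, v) ∈ F} = 1 := by
    filter_upwards [h1] with m hm
    have h2 := Measure.ae_ae_of_ae_prod hm
    filter_upwards [h2] with p hp
    refine hR {v | (m : Measure (Om k)) {u | (p, u, v) ∈ F} = 0 ∨
        (m : Measure (Om k)) {u | (p, u, v) ∈ F} = 1} ?_ hp
    have : Measurable fun v : Om k => ((m, (p, v)) : PM k × (Om k × Om k)) := by fun_prop
    exact this hP
  -- the set `Q`
  have hQ : MeasurableSet {a : (PM k × Om k) × PM k | ∀ᵐ v ∂(a.2 : Measure (Om k)),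
      (a.1.1 : Measure (Om k)) {u | (a.1.2, u, v) ∈ F} = 0 ∨
        (a.1.1 : Measure (Om k)) {u | (a.1.2, u, v) ∈ F} = 1} := by
    have hT : MeasurableSet {b : ((PM k × Om k) × PM k) × Om k |
        ¬ ((b.1.1.1 : Measure (Om k)) {u | (b.1.1.2, u, b.2) ∈ F} = 0 ∨
        (b.1.1.1 : Measure (Om k)) {u | (b.1.1.2, u, b.2) ∈ F} = 1)} := by
      have : Measurable fun b : ((PM k × Om k) × PM k) × Om k =>
          ((b.1.1.1, (b.1.1.2, b.2)) : PM k × (Om k × Om k)) := by fun_prop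
      exact (this hP).compl
    have := msec (fun a : (PM k × Om k) × PM k => a.2) measurable_snd hT
    exact this (measurableSet_singleton 0)
  have h4 : ∀ᵐ p ∂θ, ∀ᵐ (m : PM k) ∂κ, ∀ᵐ (m' : PM k) ∂κ', ∀ᵐ v ∂(m' : Measure (Om k)),
      (m : Measure (Om k)) {u | (p, u, v) ∈ F} = 0 ∨
        (m : Measure (Om k)) {u | (p, u, v) ∈ F} = 1 := by
    refine (Measure.ae_ae_comm (μ := κ) (ν := θ)
      (p := fun (m : PM k) p => ∀ᵐ (m' : PM k) ∂κ', ∀ᵐ v ∂(m' : Measure (Om k)),
      (m : Measure (Om k)) {u | (p, u, v) ∈ F} = 0 ∨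
        (m : Measure (Om k)) {u | (p, u, v) ∈ F} = 1) ?_).1 h3
    have := measurable_measure_prodMk_left (ν := κ') hQ.compl
    exact this (measurableSet_singleton 0)
  filter_upwards [h4] with p hp
  refine (Measure.ae_prod_iff_ae_ae (μ := κ) (ν := κ')
    (p := fun q : PM k × PM k => ∀ᵐ v ∂(q.2 : Measure (Om k)),
      (q.1 : Measure (Om k)) {u | (p, u, v) ∈ F} = 0 ∨
        (q.1 : Measure (Om k)) {u | (p, u, v) ∈ F} = 1) ?_).2 hp
  have : Measurable fun q : PM k × PM k => (((q.1, p), q.2) : (PM k × Om k) × PM k) := by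
    fun_prop
  exact this hQ

/-- two measures decided by one another's points -/
theorem dec01 (μ ν : Measure (Om k)) [IsProbabilityMeasure μ] [IsProbabilityMeasure ν]
    (G : Set (Om k × Om k)) (hG : MeasurableSet G)
    (h1 : ∀ᵐ v ∂ν, μ {u | (u, v) ∈ G} = 0 ∨ μ {u | (u, v) ∈ G} = 1)
    (h2 : ∀ᵐ u ∂μ, ν {v | (u, v) ∈ G} = 0 ∨ ν {v | (u, v) ∈ G} = 1) :
    (μ.prod ν) G = 0 ∨ (μ.prod ν) G = 1 := by
  have hm : Measurable fun v => μ {u | (u, v) ∈ G} := measurable_measure_prodMk_right hG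
  set V : Set (Om k) := {v | μ {u | (u, v) ∈ G} = 1} with hV
  have hVm : MeasurableSet V := hm (measurableSet_singleton 1)
  have hsec : ∀ v, MeasurableSet {u | (u, v) ∈ G} := fun v => measurable_prodMk_right hG
  have hae : ∀ᵐ v ∂ν, ∀ᵐ u ∂μ, ((u, v) ∈ G ↔ v ∈ V) := by
    filter_upwards [h1] with v hv
    by_cases hvV : v ∈ V
    · have h5 : μ {u | (u, v) ∈ G}ᶜ = 0 := (prob_compl_eq_zero_iff (hsec v)).2 hvV
      have h6 : ∀ᵐ u ∂μ, (u, v) ∈ G := by
        rw [ae_iff]; exact h5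
      filter_upwards [h6] with u hu
      exact ⟨fun _ => hvV, fun _ => hu⟩
    · have h5 : μ {u | (u, v) ∈ G} = 0 := by
        rcases hv with h | h
        · exact h
        · exact absurd h hvV
      have h6 : ∀ᵐ u ∂μ, (u, v) ∉ G := by
        rw [ae_iff]; simpa using h5
      filter_upwards [h6] with u hu
      exact ⟨fun h => absurd h hu, fun h => absurd h hvV⟩
  have hmeas : MeasurableSet {x : Om k × Om k | ((x.2, x.1) ∈ G ↔ x.1 ∈ V)} := by
    have ha : MeasurableSet {x : Om k × Om k | (x.2, x.1) ∈ G} := measurable_swap hG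
    have hb : MeasurableSet {x : Om k × Om k | x.1 ∈ V} := measurable_fst hVm
    have hc : {x : Om k × Om k | ((x.2, x.1) ∈ G ↔ x.1 ∈ V)} =
        ({x : Om k × Om k | (x.2, x.1) ∈ G} ∩ {x : Om k × Om k | x.1 ∈ V}) ∪
        ({x : Om k × Om k | (x.2, x.1) ∈ G}ᶜ ∩ {x : Om k × Om k | x.1 ∈ V}ᶜ) := by
      ext x
      simp only [Set.mem_ofPred_eq, Set.mem_union, Set.mem_inter_iff, Set.mem_compl_iff]
      tauto
    rw [hc]
    exact (ha.inter hb).union (ha.compl.inter hb.compl)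
  have hae2 : ∀ᵐ u ∂μ, ∀ᵐ v ∂ν, ((u, v) ∈ G ↔ v ∈ V) :=
    (Measure.ae_ae_comm (μ := ν) (ν := μ) (p := fun v u => ((u, v) ∈ G ↔ v ∈ V)) hmeas).1 hae
  have heq : ∀ᵐ u ∂μ, ν {v | (u, v) ∈ G} = ν V := by
    filter_upwards [hae2] with u hu
    refine measure_congr ?_
    filter_upwards [hu] with v hv
    exact propext hv
  have hval : (μ.prod ν) G = ν V := by
    rw [Measure.prod_apply hG]
    have : ∫⁻ u, ν (Prod.mk u ⁻¹' G) ∂μ = ∫⁻ _u, ν V ∂μ := by
      refine lintegral_congr_ae ?_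
      filter_upwards [heq] with u hu
      exact hu
    rw [this]
    simp
  obtain ⟨u, hu1, hu2⟩ := (heq.and h2).exists
  rw [hval, ← hu1]
  exact hu2

end I_FUB

open I_FUB in
theorem FUB_pf (hSDB : S_SDB) (hSUP : S_SUP) : S_FUB := by
  intro k κ1 κ2 _ _ θ _ F hF h1 h2
  have e1 := half hSDB hSUP κ1 κ2 θ F hF h1
  have hF' : MeasurableSet {x : Om k × Om k × Om k | (x.1, x.2.2, x.2.1) ∈ F} := by
    have : Measurable fun x : Om k × Om k × Om k => (x.1, x.2.2, x.2.1) := by fun_prop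
    exact this hF
  have e2 := half hSDB hSUP κ2 κ1 θ {x : Om k × Om k × Om k | (x.1, x.2.2, x.2.1) ∈ F} hF' h2
  filter_upwards [e1, e2] with p h3 h4
  have h5 : ∀ᵐ (q : PM k × PM k) ∂(κ1.prod κ2), ∀ᵐ u ∂(q.1 : Measure (Om k)),
      (q.2 : Measure (Om k)) {v | (p, u, v) ∈ F} = 0 ∨
        (q.2 : Measure (Om k)) {v | (p, u, v) ∈ F} = 1 :=
    (Measure.measurePreserving_swap (μ := κ1) (ν := κ2)).quasiMeasurePreserving.ae h4
  filter_upwards [h3, h5] with q h6 h7
  have hG : MeasurableSet {g : Om k × Om k | (p, g.1, g.2) ∈ F} := by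
    have : Measurable fun g : Om k × Om k => (p, g.1, g.2) := by fun_prop
    exact this hF
  exact dec01 _ _ _ hG h6 h7

end Pool.Agent.Work.MP_69fea5_lc.W3
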