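import Pool.Agent.Work.MP_69fea5_lc.W3.StmtsF1

/-! Item [69fea5 F1 FUS]. -/

set_option autoImplicit false

namespace Pool.Agent.Work.MP_69fea5_lc.W3

open MeasureTheory Topology Set Filter TopologicalSpace
open scoped NNReal ENNReal
open Pool.Agent.Work.MP_69fea5_lc.AK

namespace I_FUS

/-- a ball of the metric of one fibre is contained in a given neighbourhood -/
theorem ball {T Y : Type} [TopologicalSpace T] [Sys T] [CompactSpace T]
    [TopologicalSpace Y] [Sys Y] (J : Set (T × Y)) (d : T → T → Y → ℝ) (hJ : Isom J d)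
    (y : Y) (t : T) (ht : (t, y) ∈ J) (U : Set (Y × T)) (hU : U ∈ 𝓝 (y, t)) :
    ∃ ε : ℝ, 0 < ε ∧ ∀ t', (t', y) ∈ J → d t t' y < ε → (y, t') ∈ U := by
  obtain ⟨U', hU'U, hU'o, hU't⟩ := mem_nhds_iff.1 hU
  set S : Set T := {t' | (t', y) ∈ J ∧ (y, t') ∉ U'} with hS
  have hSc : IsClosed S := by
    have h1 : IsClosed {t' : T | (t', y) ∈ J} :=
      hJ.closed.preimage (by fun_prop : Continuous fun t' : T => (t', y))
    have h2 : IsClosed {t' : T | (y, t') ∈ U'ᶜ} :=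
      hU'o.isClosed_compl.preimage (by fun_prop : Continuous fun t' : T => (y, t'))
    exact h1.inter h2
  rcases S.eq_empty_or_nonempty with h0 | h0
  · refine ⟨1, one_pos, fun t' ht' _ => hU'U ?_⟩
    by_contra hcon
    have : t' ∈ S := ⟨ht', hcon⟩
    rw [h0] at this
    exact this
  · have hcont : ContinuousOn (fun t' => d t t' y) S := by
      have h1 : Continuous fun t' : T => (t, t', y) := by fun_prop
      exact hJ.ipb.cont.comp h1.continuousOn (fun t' ht' => ⟨ht, ht'.1⟩)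
    obtain ⟨s, hs, hmin⟩ := hSc.isCompact.exists_isMinOn h0 hcont
    refine ⟨d t s y, ?_, ?_⟩
    · refine lt_of_le_of_ne (hJ.ipb.nonneg y t s ht hs.1) fun h => ?_
      have h1 := hJ.sep y t s ht hs.1 h.symm
      apply hs.2
      rw [← h1]
      exact hU't
    · intro t' ht' hlt
      by_contra hcon
      have h1 : t' ∈ S := ⟨ht', fun h => hcon (hU'U h)⟩
      have h2 : d t s y ≤ d t t' y := hmin h1
      linarith

end I_FUS

theorem FUS_pf (h1 : S_UNA) (h2 : S_BAL) (h3 : S_AUT) : S_FUS := by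
  intro O Y C X' _ _ _ _ _ _ _ _ _ _ _ _ _ _ _ _ A ms θ v₀ E q lm Ya hPE hAX p hp v hv hvp U hU
  obtain ⟨Aa, hLev, -, hAa1, hAa2⟩ := h1 O Y C X' A ms θ v₀ E q lm Ya hPE hAX
  obtain ⟨d, hd⟩ := hPE.pha.iso
  obtain ⟨-, -, -, ⟨d', hd'⟩, -⟩ := h3 C Y (JJ A θ) d hd v₀ hPE.frm
  obtain ⟨u, hu⟩ := hAa2 p hp v hv hvp
  set J' : Set ((ℕ → C) × Y) := {p : (ℕ → C) × Y | (p.2, p.1) ∈ orb v₀} with hJ'
  have hmem : ∀ P ∈ Aa, (P.1.2.2, P.2.1) ∈ J' := by
    intro P hP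
    obtain ⟨-, h5, h6⟩ := hAa1 P hP
    change (P.2.1, P.1.2.2) ∈ orb v₀
    rw [← h6]
    exact h5.1
  let ρ : (O × (Y × (ℕ → C))) → (O × (Y × (ℕ → C))) →
      (Y × ProbabilityMeasure (O × (Y × (ℕ → C)))) → ℝ := fun a b x => d' a.2.2 b.2.2 x.1
  have hρ : IPB Aa ρ := by
    constructor
    · have hc : Continuous (fun t : (O × (Y × (ℕ → C))) × (O × (Y × (ℕ → C))) ×
          (Y × ProbabilityMeasure (O × (Y × (ℕ → C)))) => (t.1.2.2, t.2.1.2.2, t.2.2.1)) := by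
        fun_prop
      exact hd'.ipb.cont.comp hc.continuousOn
        (fun t ht => ⟨hmem _ ht.1, hmem _ ht.2⟩)
    · intro n x a b ha hb
      exact hd'.ipb.inv n x.1 a.2.2 b.2.2 (hmem _ ha) (hmem _ hb)
    · intro x a ha
      exact hd'.ipb.self x.1 a.2.2 (hmem _ ha)
    · intro x a b ha hb
      exact hd'.ipb.nonneg x.1 a.2.2 b.2.2 (hmem _ ha) (hmem _ hb)
    · intro x a b ha hb
      exact hd'.ipb.symm x.1 a.2.2 b.2.2 (hmem _ ha) (hmem _ hb)
    · intro x a b c ha hb hc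
      exact hd'.ipb.tri x.1 a.2.2 b.2.2 c.2.2 (hmem _ ha) (hmem _ hb) (hmem _ hc)
  have hvJ : (v.2, p.1) ∈ J' := hmem _ hu
  have hU' : U ∈ 𝓝 (p.1, v.2) := by
    rw [← hvp]
    exact hU
  obtain ⟨ε, hε, hball⟩ := I_FUS.ball J' d' hd' p.1 v.2 hvJ U hU'
  have hpos := h2 (O × (Y × (ℕ → C))) (Y × ProbabilityMeasure (O × (Y × (ℕ → C)))) Aa Prod.snd ρ
    hLev hρ ε hε _ hu
  refine lt_of_lt_of_le hpos ?_
  refine ProbabilityMeasure.apply_mono _ ?_
  rintro w ⟨hw, hwε⟩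
  obtain ⟨-, h5, h6⟩ := hAa1 _ hw
  have h7 := hball w.2.2 (hmem _ hw) hwε
  change w.2 ∈ U
  have h8 : w.2 = (p.1, w.2.2) := Prod.ext h6 rfl
  rw [h8]
  exact h7

end Pool.Agent.Work.MP_69fea5_lc.W3
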