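import Pool.Agent.Work.MP_69fea5_lc.W3.StmtsE

/-!
Block [69fea5 F], part E, item GCE: Case I gives the greedy property (after `N3/I_GCA.lean`).
-/

set_option autoImplicit false

namespace Pool.Agent.Work.MP_69fea5_lc.W3

open MeasureTheory Topology Set Filter ProbabilityTheory
open scoped NNReal ENNReal
open Pool.Agent.Work.MP_69fea5_lc.AK
open Pool.Agent.Work.MP_69fea5_lc.N3 (W2 bx sup2 St nxt Bl3 CaseII3 GRD)

namespace I_GCE

variable {k : ℕ}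

theorem mid_wordOf (z : Om k) (L : ℕ) : mid (wordOf z L) = some (z 0) := by
  unfold mid wordOf
  have h : (2 * L + 1) / 2 = L := by omega
  rw [List.length_ofFn, h, List.getElem?_ofFn, dif_pos (by omega)]
  simp

end I_GCE

theorem GCE_pf (hC : AK.S_CYL) (hN : N3.S_NBX) (hS : N3.S_SP2) : S_GCE := by
  intro k c ν _ hcase
  obtain ⟨hcl, hsh, hself, -, -, -, hmid⟩ := hC k
  obtain ⟨hnb, hbcl, -, -⟩ := hN k
  obtain ⟨-, -, -, hsup⟩ := hS k ν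
  unfold CaseII3 at hcase
  push Not at hcase
  obtain ⟨Q, r, hst, hQ⟩ := hcase
  have hQr : bx Q 0 ⊆ {g : Om k × Om k | g.1 0 = r ∧ g.2 0 = r} := fun g hg =>
    ⟨hmid Q.1 r hst.1 hg.1, hmid Q.2 r hst.2.1 hg.2⟩
  refine ⟨Q, r, hst, hQr, ?_⟩
  intro P hPQ hP N
  -- refine to a centred box
  obtain ⟨g, hgP, hgs⟩ := hsup (bx P 0) (hbcl P 0).isOpen hP
  obtain ⟨L, hL⟩ := hnb g (bx P 0) ((hbcl P 0).isOpen.mem_nhds hgP)
  have hL1 := hL L le_rfl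
  set P1 : W2 k := (wordOf g.1 L, wordOf g.2 L) with hP1
  have hpos1 : 0 < ν (bx P1 0) := hgs L
  have hgQ := hQr (hPQ hgP)
  have hst1 : St ν P1 r :=
    ⟨by rw [hP1]; simp only [I_GCE.mid_wordOf]; rw [hgQ.1],
      by rw [hP1]; simp only [I_GCE.mid_wordOf]; rw [hgQ.2], hpos1⟩
  have hnb1 := hQ P1 (hL1.trans hPQ) hst1
  unfold Bl3 at hnb1
  push Not at hnb1
  obtain ⟨x, hx, hcx, hpx⟩ := hnb1 N
  -- components of the inclusion
  have hc1 : cyl P1.1 0 ⊆ cyl P.1 0 := fun z hz =>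
    (hL1 (show (z, g.2) ∈ bx P1 0 from ⟨hz, hself g.2 L⟩)).1
  have hc2 : cyl P1.2 0 ⊆ cyl P.2 0 := fun z hz =>
    (hL1 (show (g.1, z) ∈ bx P1 0 from ⟨hself g.1 L, hz⟩)).2
  have hsub : nxt P1 r x ⊆ nxt P r x := by
    rintro p ⟨h1, h2, h3⟩
    refine ⟨hL1 h1, ?_, h3⟩
    have h4 : sh (x : ℤ) p.1 ∈ cyl P1.2 0 := (hsh P1.2 0 x p.1).2 (by simpa using h2)
    have h5 := (hsh P.2 0 x p.1).1 (hc2 h4)
    simpa using h5
  have hopen : IsOpen (nxt P1 r (x : ℤ)) := by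
    have e1 : nxt P1 r (x : ℤ) = bx P1 0 ∩ ((Prod.fst ⁻¹' cyl P1.2 (x : ℤ)) ∩
        ((fun g : Om k × Om k => g.2 (x : ℤ)) ⁻¹' {r})) := by
      ext p
      simp only [nxt, mem_ofPred_eq, mem_inter_iff, mem_preimage, mem_singleton_iff]
    rw [e1]
    refine (hbcl P1 0).isOpen.inter (((hcl P1.2 x).isOpen.preimage continuous_fst).inter ?_)
    exact (isOpen_discrete _).preimage ((continuous_apply (x : ℤ)).comp continuous_snd)
  obtain ⟨g', hg', hgs'⟩ := hsup _ hopen (pos_iff_ne_zero.2 hpx)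
  obtain ⟨L', hL'⟩ := hnb g' _ (hopen.mem_nhds hg')
  refine ⟨x, hx, (wordOf g'.1 L', wordOf g'.2 L'), ?_, (hL' L' le_rfl).trans hsub, hgs' L'⟩
  refine hc1 ((hsh P1.1 0 x c).2 (by simpa using hcx))

end Pool.Agent.Work.MP_69fea5_lc.W3
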