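import Pool.Agent.Work.MP_69fea5_lc.W3.StmtsF1

/-!
# Block [69fea5 F1], item GDC: the set `GB` is closed, invariant and not empty
-/

set_option autoImplicit false

namespace Pool.Agent.Work.MP_69fea5_lc.W3

open MeasureTheory Topology Set Filter TopologicalSpace
open scoped NNReal ENNReal
open Pool.Agent.Work.MP_69fea5_lc.AK

namespace I_GDC

theorem one_iff {O : Type} [MeasurableSpace O] (m : ProbabilityMeasure O) (S : Set O) :
    m S = 1 ↔ (m : Measure O) S = 1 := by
  rw [← ProbabilityMeasure.ennreal_coeFn_eq_coeFn_toMeasure]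
  exact (ENNReal.coe_eq_one).symm

theorem one_mono {O : Type} [MeasurableSpace O] (m : ProbabilityMeasure O) (S T : Set O)
    (h : m S = 1) (hST : S ⊆ T) : m T = 1 := by
  rw [one_iff] at h ⊢
  exact le_antisymm prob_le_one (h ▸ measure_mono hST)

theorem orb_sh {X : Type} [TopologicalSpace X] [Sys X] (n : ℤ) (x : X) :
    orb (sh n x) = orb x := by
  unfold orb
  congr 1
  ext y
  constructor
  · rintro ⟨m, rfl⟩
    exact ⟨m + n, sh_add m n x⟩
  · rintro ⟨m, rfl⟩
    exact ⟨m - n, by simp only [← sh_add, sub_add_cancel]⟩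

section BBf

variable {Y C X' : Type} [TopologicalSpace Y] [Sys Y] [TopologicalSpace C] [Sys C]
  [TopologicalSpace X'] [Sys X'] {E : Set X'} {q : X' → Y × (ℕ → C)}

theorem inv_BB (hE : AK.Inv E) (hq : ∀ (n : ℤ) (e : X'), q (sh n e) = sh n (q e)) :
    AK.Inv (BB E q) := by
  intro n p hp
  refine map_mem_closure (sh_cont n) hp ?_
  rintro ⟨a, b⟩ ⟨h1, h2, h3, h4⟩
  refine ⟨hE n a h1, hE n b h2, ?_, ?_⟩
  · change (q (sh n a)).1 = (q (sh n b)).1
    rw [hq, hq]
    change sh n (q a).1 = sh n (q b).1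
    rw [h3]
  · rw [orb_sh]
    exact h4

omit [Sys Y] [Sys C] in
theorem sub_BB [T2Space Y] (hE : IsClosed E) (hq : Continuous q) (p : X' × X') (hp : p ∈ BB E q) :
    p.1 ∈ E ∧ p.2 ∈ E ∧ (q p.1).1 = (q p.2).1 := by
  have h1 : IsClosed {p : X' × X' | p.1 ∈ E ∧ p.2 ∈ E ∧ (q p.1).1 = (q p.2).1} := by
    refine (hE.preimage continuous_fst).inter ((hE.preimage continuous_snd).inter ?_)
    exact isClosed_eq (continuous_fst.comp (hq.comp continuous_fst))
      (continuous_fst.comp (hq.comp continuous_snd))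
  have h2 : BB E q ⊆ {p : X' × X' | p.1 ∈ E ∧ p.2 ∈ E ∧ (q p.1).1 = (q p.2).1} := by
    refine closure_minimal ?_ h1
    rintro p ⟨h3, h4, h5, -⟩
    exact ⟨h3, h4, h5⟩
  exact h2 hp

end BBf

section dec

variable {K L : Type} [TopologicalSpace K] [MeasurableSpace K] [CS K]
  [TopologicalSpace L] [MeasurableSpace L] [CS L]

omit [TopologicalSpace L] [CS L] in
theorem prod_dirac_one (κ : ProbabilityMeasure K) (b : L) (S : Set (K × L))
    (hS : MeasurableSet S) :
    (κ.prod (diracProba b)) S = 1 ↔ κ {a | (a, b) ∈ S} = 1 := by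
  rw [one_iff, one_iff]
  have h1 : ((κ.prod (diracProba b) : ProbabilityMeasure (K × L)) : Measure (K × L)) =
      (κ : Measure K).map fun a => (a, b) := Measure.prod_dirac b
  rw [h1, Measure.map_apply measurable_prodMk_right hS]
  rfl

theorem cont_prodδ : Continuous fun x : ProbabilityMeasure K × L => x.1.prod (diracProba x.2) :=
  ProbabilityMeasure.continuous_prod.comp
    (continuous_fst.prodMk (continuous_diracProba.comp continuous_snd))

theorem isClosed_dec [Sys K] [Sys L] (h : S_PMG) (F : Set (K × L)) (hF : IsClosed F) :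
    IsClosed {x : ProbabilityMeasure K × L | x.1 {a | (a, x.2) ∈ F} = 1} := by
  have h1 := ((h (K × L)).2.2.2.2.1 F hF).preimage (cont_prodδ (K := K) (L := L))
  have h2 : {x : ProbabilityMeasure K × L | x.1 {a | (a, x.2) ∈ F} = 1} =
      (fun x : ProbabilityMeasure K × L => x.1.prod (diracProba x.2)) ⁻¹'
        {m : ProbabilityMeasure (K × L) | m F = 1} := by
    ext x
    exact (prod_dirac_one x.1 x.2 F hF.measurableSet).symm
  rw [h2]
  exact h1

end dec

theorem ulim {X : Type} [TopologicalSpace X] [CompactSpace X] (G : Ultrafilter ℤ) (f : ℤ → X) :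
    ∃ x, Tendsto f (G : Filter ℤ) (𝓝 x) := by
  obtain ⟨x, _, hx⟩ := isCompact_univ.ultrafilter_le_nhds (G.map f) (by simp)
  exact ⟨x, hx⟩

end I_GDC

open I_GDC in
theorem GDC_pf (hJMC : S_JMC) (hFEK : S_FEK) (hPTN : S_PTN) (hLFT : S_LFT) (hJCT : S_JCT)
    (hPRD : S_PRD) (hBRC : S_BRC) (hPMG : S_PMG) : S_GDC := by
  intro O Y C X' _ _ _ _ _ _ _ _ _ _ _ _ _ _ _ _ A ms θ v₀ E q lm Ya hPE hAX
  obtain ⟨hjc, hje, -, -, -, -⟩ := hJMC O Y C X' A ms θ v₀ E q lm hPE
  obtain ⟨hBc, hBe, -⟩ := hBRC X' (O × (Y × (ℕ → C))) (jm q lm) hjc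
  obtain ⟨hmin, hq, hqe, hspr⟩ := hPE.spx
  have hYmin := hAX.spx.min
  have hbbc : IsClosed (BB E q) := isClosed_closure
  have hbbi : AK.Inv (BB E q) := inv_BB hmin.inv hqe
  have hbbs := fun p hp => sub_BB hmin.closed hq p hp
  refine ⟨?_, ?_, ?_⟩
  · -- closed
    have h1 : IsClosed {x : ProbabilityMeasure X' ×
        (X' × (Y × ProbabilityMeasure (O × (Y × (ℕ → C))))) |
        (x.2.1 ∈ E ∧ x.2.2 ∈ Ya ∧ (q x.2.1).1 = x.2.2.1) ∧
        (x.1 {a | (a, x.2.1) ∈ BB E q} = 1 ∧ Bar x.1 (jm q lm) x.2.2.2)} := by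
      refine IsClosed.inter ?_ (IsClosed.inter ?_ ?_)
      · refine (hmin.closed.preimage (continuous_fst.comp continuous_snd)).inter
          ((hYmin.closed.preimage (continuous_snd.comp continuous_snd)).inter ?_)
        exact isClosed_eq (continuous_fst.comp (hq.comp (continuous_fst.comp continuous_snd)))
          (continuous_fst.comp (continuous_snd.comp continuous_snd))
      · exact (isClosed_dec hPMG (BB E q) hbbc).preimage
          (continuous_fst.prodMk (continuous_fst.comp continuous_snd))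
      · exact hBc.preimage (continuous_fst.prodMk
          (continuous_snd.comp (continuous_snd.comp continuous_snd)))
    have h2 : GB E q lm Ya = Prod.snd '' {x : ProbabilityMeasure X' ×
        (X' × (Y × ProbabilityMeasure (O × (Y × (ℕ → C))))) |
        (x.2.1 ∈ E ∧ x.2.2 ∈ Ya ∧ (q x.2.1).1 = x.2.2.1) ∧
        (x.1 {a | (a, x.2.1) ∈ BB E q} = 1 ∧ Bar x.1 (jm q lm) x.2.2.2)} := by
      ext g
      constructor
      · rintro ⟨g1, g2, g3, κ, g4, g5⟩
        exact ⟨(κ, g), ⟨⟨g1, g2, g3⟩, g4, g5⟩, rfl⟩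
      · rintro ⟨⟨κ, g'⟩, ⟨⟨g1, g2, g3⟩, g4, g5⟩, rfl⟩
        exact ⟨g1, g2, g3, κ, g4, g5⟩
    rw [h2]
    exact (h1.isCompact.image continuous_snd).isClosed
  · -- not empty
    obtain ⟨p, hp⟩ := hYmin.ne
    obtain ⟨κ, hκ1, hκ2⟩ := hFEK O Y C X' A ms θ v₀ E q lm hPE p (hAX.fam hp)
    obtain ⟨b, hbE, hbp⟩ : ∃ b, b ∈ E ∧ (q b).1 = p.1 := by
      by_contra hcon
      push Not at hcon
      have h3 : {e | e ∈ E ∧ (q e).1 = p.1} = (∅ : Set X') := by
        ext e
        simp only [mem_ofPred_eq, mem_empty_iff_false, iff_false, not_and]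
        exact hcon e
      rw [h3, one_iff] at hκ1
      simp at hκ1
    let Q : Set (X' × X') := BB E q ∩ {x | q x.2 = q b}
    have hQc : IsClosed Q := hbbc.inter (isClosed_eq (hq.comp continuous_snd) continuous_const)
    have hκQ : κ (Prod.fst '' Q) = 1 := by
      refine one_mono κ _ _ hκ1 ?_
      rintro a ⟨haE, hap⟩
      have h4 : q b ∈ orb v₀ := by
        rw [← hPE.base]
        exact ⟨b, hbE, rfl⟩
      obtain ⟨b', hb'E, hb'q, hb'm⟩ := hPTN O Y C X' A ms θ v₀ E q lm hPE a haE (q b) h4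
        (hap.trans hbp.symm)
      refine ⟨(a, b'), ⟨subset_closure ⟨haE, hb'E, ?_, hb'm⟩, hb'q⟩, rfl⟩
      change (q a).1 = (q b').1
      rw [hb'q, hap, hbp]
    obtain ⟨ν, hνQ, hν1⟩ := hLFT (X' × X') X' Prod.fst Q κ continuous_fst hQc hκQ
    let F1 : ProbabilityMeasure (X' × X') → ProbabilityMeasure X' :=
      fun m => m.map (f := Prod.fst) continuous_fst.measurable.aemeasurable
    let F2 : ProbabilityMeasure (X' × X') → ProbabilityMeasure X' :=
      fun m => m.map (f := Prod.snd) continuous_snd.measurable.aemeasurable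
    have hF1 : Continuous F1 := ProbabilityMeasure.continuous_map continuous_fst
    have hF2 : Continuous F2 := ProbabilityMeasure.continuous_map continuous_snd
    have hF1e : ∀ (n : ℤ) m, F1 (sh n m) = sh n (F1 m) := fun n m =>
      (hPMG (X' × X')).2.2.2.2.2.2.2 X' Prod.fst continuous_fst (fun _ _ => rfl) n m
    have hF2e : ∀ (n : ℤ) m, F2 (sh n m) = sh n (F2 m) := fun n m =>
      (hPMG (X' × X')).2.2.2.2.2.2.2 X' Prod.snd continuous_snd (fun _ _ => rfl) n m
    have hF1ν : F1 ν = κ := Subtype.ext hν1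
    have hfibm : MeasurableSet {e | e ∈ E ∧ q e = q b} :=
      (hmin.closed.inter (isClosed_eq hq continuous_const)).measurableSet
    have hF2ν : F2 ν {e | e ∈ E ∧ q e = q b} = 1 := by
      rw [one_iff]
      change Measure.map Prod.snd (ν : Measure (X' × X')) _ = 1
      rw [Measure.map_apply measurable_snd hfibm, ← one_iff]
      refine one_mono ν _ _ hνQ ?_
      rintro x ⟨hx1, hx2⟩
      exact ⟨(hbbs x hx1).2.1, hx2⟩
    have hδ : (diracProba b) {e | e ∈ E ∧ q e = q b} = 1 := by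
      rw [one_iff]
      change Measure.dirac b _ = 1
      exact Measure.dirac_apply_of_mem ⟨hbE, rfl⟩
    obtain ⟨G, es, hG⟩ := (hJCT X' (Y × (ℕ → C)) E q hspr).1 (q b)
      (fun i => if i = 0 then F2 ν else diracProba b) (by
        intro i
        by_cases hi : i = 0
        · simp only [hi, if_true]; exact hF2ν
        · simp only [hi, if_false]; exact hδ)
    have hG0 : Tendsto (fun n => sh n (F2 ν)) (G : Filter ℤ) (𝓝 (diracProba es)) := by
      simpa using hG 0
    have hG1 : Tendsto (fun n => sh n (diracProba b)) (G : Filter ℤ) (𝓝 (diracProba es)) := by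
      simpa using hG 1
    obtain ⟨b1, hb1⟩ := ulim G fun n : ℤ => sh n b
    have hes : b1 = es := by
      have h7 : Tendsto (fun n => sh n (diracProba b)) (G : Filter ℤ) (𝓝 (diracProba b1)) := by
        have h8 : (fun n => sh n (diracProba b)) = fun n : ℤ => diracProba (sh n b) :=
          funext fun n => (hPMG X').2.1 n b
        rw [h8]
        exact (continuous_diracProba.tendsto b1).comp hb1
      exact (hPMG X').2.2.2.1 (tendsto_nhds_unique h7 hG1)
    subst hes
    have hb1E : b1 ∈ E := hmin.closed.mem_of_tendsto hb1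
      (Filter.Eventually.of_forall fun n => hmin.inv n b hbE)
    obtain ⟨νs, hνs⟩ := ulim G fun n : ℤ => sh n ν
    obtain ⟨ps, hps⟩ := ulim G fun n : ℤ => sh n p
    have hpsY : ps ∈ Ya := hYmin.closed.mem_of_tendsto hps
      (Filter.Eventually.of_forall fun n => hYmin.inv n p hp)
    have hνsB : νs (BB E q) = 1 := by
      refine (hPMG (X' × X')).2.2.2.2.2.1 (BB E q) hbbc hbbi ν
        (one_mono ν _ _ hνQ inter_subset_left) νs ?_
      exact mem_closure_of_tendsto hνs (Filter.Eventually.of_forall fun n => ⟨n, rfl⟩)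
    have hνs2 : F2 νs = diracProba b1 := by
      have h7 : Tendsto (fun n => F2 (sh n ν)) (G : Filter ℤ) (𝓝 (F2 νs)) :=
        (hF2.tendsto νs).comp hνs
      simp only [hF2e] at h7
      exact tendsto_nhds_unique h7 hG0
    have hνs1 : Tendsto (fun n => sh n κ) (G : Filter ℤ) (𝓝 (F1 νs)) := by
      have h7 : Tendsto (fun n => F1 (sh n ν)) (G : Filter ℤ) (𝓝 (F1 νs)) :=
        (hF1.tendsto νs).comp hνs
      simp only [hF1e, hF1ν] at h7
      exact h7
    refine ⟨(b1, ps), hb1E, hpsY, ?_, F1 νs, ?_, ?_⟩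
    · have h8 : Tendsto (fun n : ℤ => (q (sh n b)).1) (G : Filter ℤ) (𝓝 (q b1).1) :=
        ((continuous_fst.comp hq).tendsto b1).comp hb1
      have h9 : Tendsto (fun n : ℤ => (sh n p).1) (G : Filter ℤ) (𝓝 ps.1) :=
        (continuous_fst.tendsto ps).comp hps
      have h10 : (fun n : ℤ => (q (sh n b)).1) = fun n : ℤ => (sh n p).1 := by
        funext n
        rw [hqe]
        change sh n (q b).1 = sh n p.1
        rw [hbp]
      rw [h10] at h8
      exact tendsto_nhds_unique h8 h9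
    · have h8 := hPRD X' X' νs b1 (congrArg Subtype.val hνs2)
      have h9 := (one_iff _ _).1 hνsB
      rw [h8, Measure.map_apply measurable_prodMk_right hbbc.measurableSet] at h9
      rw [one_iff]
      exact h9
    · have h7 : Tendsto (fun n : ℤ => sh n p.2) (G : Filter ℤ) (𝓝 ps.2) :=
        (continuous_snd.tendsto ps).comp hps
      have h8 : Tendsto (fun n : ℤ => (sh n κ, sh n p.2)) (G : Filter ℤ) (𝓝 (F1 νs, ps.2)) :=
        hνs1.prodMk_nhds h7
      have h9 : ∀ n : ℤ, (sh n κ, sh n p.2) ∈ {x : ProbabilityMeasure X' ×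
          ProbabilityMeasure (O × (Y × (ℕ → C))) | Bar x.1 (jm q lm) x.2} :=
        fun n => hBe hje κ p.2 hκ2 n
      have h10 := hBc.mem_of_tendsto h8 (Filter.Eventually.of_forall h9)
      exact h10
  · -- invariant
    rintro n ⟨b, p⟩ ⟨h1, h2, h3, κ, h4, h5⟩
    refine ⟨hmin.inv n b h1, hYmin.inv n p h2, ?_, sh n κ, ?_, ?_⟩
    · change (q (sh n b)).1 = sh n p.1
      rw [hqe]
      change sh n (q b).1 = sh n p.1
      exact congrArg _ h3
    · have hm : MeasurableSet {a | (a, sh n b) ∈ BB E q} :=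
        (hbbc.preimage (Continuous.prodMk continuous_id continuous_const)).measurableSet
      have h7 : sh n κ {a | (a, sh n b) ∈ BB E q} = κ {z | sh n z ∈ {a | (a, sh n b) ∈ BB E q}} :=
        (hPMG X').1 κ n _ hm
      have h8 : ({a | (a, b) ∈ BB E q} : Set X') ⊆ {z | sh n z ∈ {a | (a, sh n b) ∈ BB E q}} :=
        fun a ha => hbbi n (a, b) ha
      have h9 : κ {a | (a, b) ∈ BB E q} = 1 := h4
      have h10 : sh n κ {a | (a, sh n b) ∈ BB E q} = 1 := h7.trans (one_mono κ _ _ h9 h8)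
      exact h10
    · exact hBe hje κ p.2 h5 n

end Pool.Agent.Work.MP_69fea5_lc.W3
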