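import Pool.Agent.Work.MP_69fea5_lc.W3.StmtsM

/-! # Block [69fea5 M], item [GEN]: coded generic frames. -/

set_option autoImplicit false

namespace Pool.Agent.Work.MP_69fea5_lc.W3

open MeasureTheory Topology Set Filter TopologicalSpace
open scoped NNReal ENNReal
open Pool.Agent.Work.MP_69fea5_lc.AK
open Pool.Agent.Work.MP_69fea5_lc.HK (Cl DU Ar ArF ArR Dat Law LawC act near sc Pt oc Mn mr ext)
open Pool.Agent.Work.MP_69fea5_lc.KC (Agree)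

namespace I_GEN

theorem orb_inv {X : Type} [TopologicalSpace X] [Sys X] (x : X) : AK.Inv (orb x) := by
  intro n y hy
  refine map_mem_closure (sh_cont n) hy ?_
  rintro _ ⟨m, rfl⟩
  exact ⟨n + m, sh_add n m x⟩

theorem vl_le_one {O Y C X' : Type} [MeasurableSpace O]
    (q : X' → Y × (ℕ → C)) (lm : X' → ProbabilityMeasure O)
    (R : Set ((O × O) × (Y × (ℕ → C)))) (a b : X') : vl q lm R a b ≤ 1 := by
  unfold vl
  exact prob_le_one

theorem eq_zero_of_lt {x : ℝ≥0∞} (h : ∀ n : ℕ, x < 1 / ((n : ℝ≥0∞) + 1)) : x = 0 := by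
  by_contra hx
  obtain ⟨n, hn⟩ := ENNReal.exists_inv_nat_lt hx
  have h1 := h n
  have h2 : (1 : ℝ≥0∞) / ((n : ℝ≥0∞) + 1) ≤ (n : ℝ≥0∞)⁻¹ := by
    rw [one_div]
    exact ENNReal.inv_le_inv.2 le_self_add
  exact absurd (h1.trans_le h2) (not_lt.2 hn.le)

end I_GEN

theorem GEN_pf (h1 : S_GBA) (h2 : S_GVL) (h3 : S_FDN) (h4 : S_ZOL) (h5 : S_VNB) (h6 : S_RLP) :
    S_GEN := by
  intro S U hCl hDU k Y C W _ _ _ _ _ _ _ _ _ _ _ _ _ _ _ A ms θ v q e₀ lm hPE hq0 hv he0 hlm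
  obtain ⟨D, hD, hDs, hDc⟩ := h2 S U hCl hDU k Y C W v q e₀ lm hPE.spx.cont hPE.spx.equi hPE.cont
    hPE.equi hq0 hv he0 hlm
  let dec : ℕ → List (Wd k × Wd k × (ℕ × ℤ)) × ℕ := fun s =>
    (Encodable.decode (α := List (Wd k × Wd k × (ℕ × ℤ)) × ℕ) s).getD ([], 0)
  have hdec : Primrec dec :=
    Primrec.option_getD.comp Primrec.decode (Primrec.const ([], 0))
  let D' : ℕ × (ℤ × ℕ) → Prop := fun sp => D (dec sp.1, sp.2)
  have hD' : Ar S D' := hD.comp hCl ((hdec.comp Primrec.fst).pair Primrec.snd)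
  have hde : ∀ L n, dec (Encodable.encode ((L, n) : List (Wd k × Wd k × (ℕ × ℤ)) × ℕ)) = (L, n) := by
    intro L n
    show (Encodable.decode (α := List (Wd k × Wd k × (ℕ × ℤ)) × ℕ)
      (Encodable.encode ((L, n) : List (Wd k × Wd k × (ℕ × ℤ)) × ℕ))).getD ([], 0) = (L, n)
    rw [Encodable.encodek]
    rfl
  obtain ⟨v₁, hsc, hv₁⟩ := h1 S U hCl hDU Y C v D' hv hD'
  refine ⟨v₁, hsc, fun i => ?_⟩
  obtain ⟨hi1, hi2, hi3, hi4⟩ := hv₁ i
  refine ⟨hi1, hi2, hi3, ?_⟩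
  have hbas : Bas (Vn v) (orb v) := h5 (Y × (ℕ → C)) v
  refine h4 k Y C W (ℕ × ℤ) A ms θ v (v₁ i) (orb e₀) q lm (Vn v) hPE hbas hi1 hi2 fun L => ?_
  by_cases hall : ∀ n : ℕ, ∃ p : ℤ × ℕ, D ((L, n), p) ∧ near p.2 (act p.1 v) (v₁ i)
  · left
    intro a ha b hb hqa hqb
    refine I_GEN.eq_zero_of_lt fun n => ?_
    obtain ⟨⟨m, r⟩, hp, hp'⟩ := hall n
    exact hDs L n m r hp (v₁ i) hi1 hi2 hp' a ha b hb hqa hqb
  · right
    push Not at hall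
    obtain ⟨n, hn⟩ := hall
    by_contra hcon
    push Not at hcon
    obtain ⟨hRc, hRi⟩ := (h6 k (Y × (ℕ → C)) (ℕ × ℤ) (Vn v) (orb v) hbas (I_GEN.orb_inv v)).1 L
    rcases hi4 (Encodable.encode ((L, n) : List (Wd k × Wd k × (ℕ × ℤ)) × ℕ)) with hA | hB
    · obtain ⟨p, hp, hp'⟩ := hA
      have hp2 : D ((L, n), p) := by
        have h7 : D (dec (Encodable.encode ((L, n) : List (Wd k × Wd k × (ℕ × ℤ)) × ℕ)), p) := hp
        rw [hde] at h7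
        exact h7
      exact hn p hp2 hp'
    · obtain ⟨Wn, hWn, hW⟩ := hB
      obtain ⟨c, hcW, hc1, hc2, hc3⟩ := h3 (Om k) Y C W A ms θ v (orb e₀) q lm hPE
        (RLs (Vn v) L) hRc hRi (v₁ i) hi1 hi2 (fun a ha b hb hqa hqb =>
          lt_of_le_of_ne (I_GEN.vl_le_one _ _ _ _ _) (hcon a ha b hb hqa hqb)) Wn hWn
        (1 / ((n : ℝ≥0∞) + 1)) (by
          refine ENNReal.div_pos one_ne_zero ?_
          exact ENNReal.add_ne_top.2 ⟨ENNReal.natCast_ne_top n, ENNReal.one_ne_top⟩)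
      obtain ⟨m, r, hmr, hmr'⟩ := hDc L n c hc1 hc2 hc3
      refine hW c hcW hc1 hc2 (m, r) ?_ hmr'
      show D (dec (Encodable.encode ((L, n) : List (Wd k × Wd k × (ℕ × ℤ)) × ℕ)), (m, r))
      rw [hde]
      exact hmr

end Pool.Agent.Work.MP_69fea5_lc.W3
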