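import Pool.Agent.Work.MP_69fea5_lc.W3.StmtsM
import Pool.Agent.Work.MP_69fea5_lc.W3.StmtsE

/-!
# [69fea5 M GRS] normalisation of products of coded weighted barycentres
-/

set_option autoImplicit false

namespace Pool.Agent.Work.MP_69fea5_lc.W3

open MeasureTheory Topology Set Filter TopologicalSpace
open scoped NNReal ENNReal
open Pool.Agent.Work.MP_69fea5_lc.AK
open Pool.Agent.Work.MP_69fea5_lc.HK (Cl DU Ar ArF ArR Dat Law LawC act near sc Pt oc Mn mr ext)
open Pool.Agent.Work.MP_69fea5_lc.KC (Agree)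

namespace I_GRS

/-- division by a coded positive number -/
theorem divc {S : Set (Set ℕ)} (hS : Cl S) {α : Type} [Primcodable α] {f : α → ℝ} {c : ℝ}
    (hf : ArR S f) (f0 : ∀ a, 0 ≤ f a) (hc : ArR S fun _ : α × ℕ × ℕ => c) (c0 : 0 < c) :
    ArR S fun a => f a / c := by
  have h1 : ArR S fun p : α × ℕ × ℕ => (p.2.1 : ℝ) * c :=
    HK.ArR.mul hS (HK.ArR.nat hS (u := fun p : α × ℕ × ℕ => p.2.1)
      (ArF.of_primrec hS (Primrec.fst.comp Primrec.snd))) hc (fun _ => Nat.cast_nonneg _)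
      fun _ => c0.le
  have h2 : ArR S fun p : α × ℕ × ℕ => f p.1 * ((p.2.2 + 1 : ℕ) : ℝ) :=
    HK.ArR.mul hS (HK.ArR.comp hS hf (g := fun p : α × ℕ × ℕ => p.1) Primrec.fst)
      (HK.ArR.nat hS (u := fun p : α × ℕ × ℕ => p.2.2 + 1)
        (ArF.of_primrec hS (Primrec.succ.comp (Primrec.snd.comp Primrec.snd))))
      (fun p => f0 p.1) fun _ => Nat.cast_nonneg _
  have h3 := HK.ArR.rlt hS h1 h2 fun p => mul_nonneg (Nat.cast_nonneg _) c0.le
  refine Ar.congr h3 fun p => ?_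
  have e : f p.1 / c * ((p.2.2 : ℝ) + 1) = f p.1 * ((p.2.2 : ℝ) + 1) / c := by ring
  rw [e, lt_div_iff₀ c0]
  push_cast
  rfl

end I_GRS

open I_GRS in
theorem GRS_pf (hSDB : S_SDB) : S_GRS := by
  intro S hS k c κ1 κ2 F1 F2 h1 h2 hG
  set μ1 : Measure (Om k) := sd (κ1 : Measure (PM k)) F1 with hμ1
  set μ2 : Measure (Om k) := sd (κ2 : Measure (PM k)) F2 with hμ2
  have i1 : IsFiniteMeasure μ1 :=
    ⟨(hSDB k (κ1 : Measure (PM k)) F1).2.2.2.2.2.1.trans_lt ENNReal.one_lt_top⟩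
  have i2 : IsFiniteMeasure μ2 :=
    ⟨(hSDB k (κ2 : Measure (PM k)) F2).2.2.2.2.2.1.trans_lt ENNReal.one_lt_top⟩
  obtain ⟨Q, r, hSt, hQ, hstep⟩ := hG
  set M : ℝ≥0∞ := (μ1.prod μ2) univ with hM
  have hM0 : M ≠ 0 := (hSt.2.2.trans_le (measure_mono (subset_univ _))).ne'
  have hMt : M ≠ ⊤ := measure_ne_top _ _
  have hprod : ∀ A B : Set (Om k), (μ1.prod μ2).real (A ×ˢ B) = μ1.real A * μ2.real B := by
    intro A B
    rw [measureReal_def, Measure.prod_prod, ENNReal.toReal_mul]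
    rfl
  have hMr : M.toReal = μ1.real univ * μ2.real univ := by
    rw [← hprod, univ_prod_univ]
    rfl
  have hMpos : 0 < M.toReal := ENNReal.toReal_pos hM0 hMt
  have hpos : ∀ B : Set (Om k × Om k), 0 < (M⁻¹ • μ1.prod μ2) B ↔ 0 < (μ1.prod μ2) B := by
    intro B
    rw [Measure.smul_apply, smul_eq_mul, pos_iff_ne_zero, pos_iff_ne_zero, mul_ne_zero_iff]
    exact ⟨fun h => h.2, fun h => ⟨ENNReal.inv_ne_zero.2 hMt, h⟩⟩
  refine ⟨M⁻¹ • μ1.prod μ2, ⟨?_⟩, ?_, ?_⟩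
  · rw [Measure.smul_apply, smul_eq_mul]
    exact ENNReal.inv_mul_cancel hM0 hMt
  · have a1 : ArR S fun P : HK.C k × HK.C k => μ1.real (HK.cyl P.1) :=
      HK.ArR.comp hS h1 (g := fun P : HK.C k × HK.C k => (F1, P.1))
        ((Primrec.const F1).pair Primrec.fst)
    have a2 : ArR S fun P : HK.C k × HK.C k => μ2.real (HK.cyl P.2) :=
      HK.ArR.comp hS h2 (g := fun P : HK.C k × HK.C k => (F2, P.2))
        ((Primrec.const F2).pair Primrec.snd)
    have huniv : (HK.cyl ([] : HK.C k) : Set (Om k)) = univ := by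
      ext z
      exact ⟨fun _ => mem_univ z, fun _ p hp => by simp at hp⟩
    have b1 : ArR S fun _ : (HK.C k × HK.C k) × ℕ × ℕ => μ1.real univ := by
      have := HK.ArR.comp hS h1 (g := fun _ : (HK.C k × HK.C k) × ℕ × ℕ =>
        (F1, ([] : HK.C k))) (Primrec.const _)
      refine this.congr fun _ => ?_
      simp only
      rw [← hμ1, huniv]
    have b2 : ArR S fun _ : (HK.C k × HK.C k) × ℕ × ℕ => μ2.real univ := by
      have := HK.ArR.comp hS h2 (g := fun _ : (HK.C k × HK.C k) × ℕ × ℕ =>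
        (F2, ([] : HK.C k))) (Primrec.const _)
      refine this.congr fun _ => ?_
      simp only
      rw [← hμ2, huniv]
    have b3 : ArR S fun _ : (HK.C k × HK.C k) × ℕ × ℕ => M.toReal :=
      (HK.ArR.mul hS b1 b2 (fun _ => measureReal_nonneg) fun _ => measureReal_nonneg).congr
        fun _ => hMr
    have a3 := divc hS (HK.ArR.mul hS a1 a2 (fun _ => measureReal_nonneg)
      fun _ => measureReal_nonneg) (fun _ => mul_nonneg measureReal_nonneg measureReal_nonneg)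
      b3 hMpos
    refine a3.congr fun P => ?_
    rw [measureReal_ennreal_smul_apply, hprod, ENNReal.toReal_inv]
    ring
  · refine ⟨Q, r, ⟨hSt.1, hSt.2.1, (hpos _).2 hSt.2.2⟩, hQ, fun P hP hP0 N => ?_⟩
    obtain ⟨x, hx, P', h3, h4, h5⟩ := hstep P hP ((hpos _).1 hP0) N
    exact ⟨x, hx, P', h3, h4, (hpos _).2 h5⟩

end Pool.Agent.Work.MP_69fea5_lc.W3
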