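import Pool.Agent.Work.MP_69fea5_lc.W3.StmtsM
import Pool.Agent.Work.MP_69fea5_lc.HK.I_MEASW
import Pool.Agent.Work.MP_69fea5_lc.KC.I_KAPF
import Pool.Agent.Work.MP_69fea5_lc.KC.I_CON
import Pool.Agent.Work.MP_69fea5_lc.KC.I_CONF

/-!
# Block [69fea5 M], item GVL: small values are recognised on balls
-/

set_option autoImplicit false

namespace Pool.Agent.Work.MP_69fea5_lc.W3

open MeasureTheory Topology Set Filter TopologicalSpace
open scoped NNReal ENNReal
open Pool.Agent.Work.MP_69fea5_lc.AK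
open Pool.Agent.Work.MP_69fea5_lc.HK (Cl DU Ar ArF ArR Dat Law LawC act near sc Pt oc Mn mr ext)
open Pool.Agent.Work.MP_69fea5_lc.KC (Agree)

namespace I_GVL

variable {S : Set (Set ℕ)} {k : ℕ}

/-- lists of boxes -/
abbrev LL (k : ℕ) := List (Wd k × Wd k × (ℕ × ℤ))

/-- the index: a list of boxes and the size of the window -/
abbrev Ind (k : ℕ) := LL k × ℕ

/-- the constraints of the word `w` at `j` are in the window and satisfied by the word `u` -/
def sat (b : ℕ × List (Fin k)) (p : Wd k × ℤ) : Prop :=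
  ∀ t ∈ KC.con p.1 p.2, t.1.natAbs ≤ b.1 ∧ b.2[(t.1 + b.1).toNat]? = some t.2

/-- the condition on pairs of words -/
def Hp (Nr : ℤ × (ℕ × ℤ) → Prop) (b : Ind k) (u u' : List (Fin k)) : Prop :=
  ∀ j : ℤ, j.natAbs ≤ b.2 → ∀ q ∈ b.1,
    ¬ (sat (b.2, u) (q.1, j) ∧ sat (b.2, u') (q.2.1, j) ∧ Nr (j, q.2.2))

/-- the relation -/
def TT (Nr : ℤ × (ℕ × ℤ) → Prop) (L : LL k) : Set (Om k × Om k) :=
  {p | ∀ j : ℤ, ∀ q ∈ L, ¬ (p.1 ∈ cyl q.1 j ∧ p.2 ∈ cyl q.2.1 j ∧ Nr (j, q.2.2))}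

/-- its approximations -/
def TN (Nr : ℤ × (ℕ × ℤ) → Prop) (b : Ind k) : Set (Om k × Om k) :=
  {p | Hp Nr b (HK.wd b.2 p.1) (HK.wd b.2 p.2)}

theorem wd_get (u : Om k) (N : ℕ) (t : ℤ) (ht : t.natAbs ≤ N) (a : Fin k) :
    (HK.wd N u)[(t + N).toNat]? = some a ↔ u t = a := by
  have h1 : (t + N).toNat < 2 * N + 1 := by omega
  have h2 : (((t + N).toNat : ℕ) : ℤ) - N = t := by omega
  unfold HK.wd
  rw [List.getElem?_map, List.getElem?_range h1]
  simp only [Option.map_some, Option.some.injEq]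
  rw [h2]

theorem sat_iff (u : Om k) (N : ℕ) (w : Wd k) (j : ℤ) : sat (N, HK.wd N u) (w, j) ↔
    (∀ t ∈ KC.con w j, t.1.natAbs ≤ N) ∧ u ∈ cyl w j := by
  rw [← KC.CON_pf k w j]
  constructor
  · intro h
    exact ⟨fun t ht => (h t ht).1, fun t ht =>
      (wd_get u N t.1 (h t ht).1 t.2).1 (h t ht).2⟩
  · rintro ⟨h1, h2⟩ t ht
    exact ⟨h1 t ht, (wd_get u N t.1 (h1 t ht) t.2).2 (h2 t ht)⟩

theorem bound (w : Wd k) (j : ℤ) : ∃ B : ℕ, ∀ t ∈ KC.con w j, t.1.natAbs ≤ B := by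
  have hfin : {t | t ∈ KC.con w j}.Finite := List.finite_toSet _
  obtain ⟨B, hB⟩ := (hfin.image fun t => t.1.natAbs).bddAbove
  exact ⟨B, fun t ht => hB ⟨t, ht, rfl⟩⟩

theorem TT_eq (Nr : ℤ × (ℕ × ℤ) → Prop) (L : LL k) :
    TT Nr L = ⋂ N : ℕ, TN Nr (L, N) := by
  ext p
  simp only [Set.mem_iInter]
  constructor
  · intro h N j _ q hq h3
    have h4 := (sat_iff p.1 N q.1 j).1 h3.1
    have h5 := (sat_iff p.2 N q.2.1 j).1 h3.2.1
    exact h j q hq ⟨h4.2, h5.2, h3.2.2⟩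
  · intro h j q hq h3
    obtain ⟨B, hB⟩ := bound q.1 j
    obtain ⟨B', hB'⟩ := bound q.2.1 j
    refine h (max (max B B') j.natAbs) j (le_max_right _ _) q hq
      ⟨(sat_iff p.1 _ q.1 j).2 ⟨fun t ht => ?_, h3.1⟩,
        (sat_iff p.2 _ q.2.1 j).2 ⟨fun t ht => ?_, h3.2.1⟩, h3.2.2⟩
    · exact (hB t ht).trans ((le_max_left _ _).trans (le_max_left _ _))
    · exact (hB' t ht).trans ((le_max_right _ _).trans (le_max_left _ _))

theorem anti (Nr : ℤ × (ℕ × ℤ) → Prop) (L : LL k) : Antitone fun N : ℕ => TN Nr (L, N) := by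
  intro N N' hN p hp j hj q hq h3
  have h4 := (sat_iff p.1 N q.1 j).1 h3.1
  have h5 := (sat_iff p.2 N q.2.1 j).1 h3.2.1
  exact hp j (le_trans hj hN) q hq
    ⟨(sat_iff p.1 N' q.1 j).2 ⟨fun t ht => (h4.1 t ht).trans hN, h4.2⟩,
      (sat_iff p.2 N' q.2.1 j).2 ⟨fun t ht => (h5.1 t ht).trans hN, h5.2⟩, h3.2.2⟩

theorem isClopen2 (R : List (Fin k) → List (Fin k) → Prop) (N : ℕ) :
    IsClopen {p : Om k × Om k | R (HK.wd N p.1) (HK.wd N p.2)} := by
  have h : ∀ R : List (Fin k) → List (Fin k) → Prop,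
      IsOpen {p : Om k × Om k | R (HK.wd N p.1) (HK.wd N p.2)} := by
    intro R
    rw [isOpen_iff_mem_nhds]
    rintro ⟨u, u'⟩ hu
    have h1 := prod_mem_nhds (HK.near_mem_nhds N (show HK.X k from u))
      (HK.near_mem_nhds N (show HK.X k from u'))
    filter_upwards [h1] with y hy
    show R (HK.wd N y.1) (HK.wd N y.2)
    rw [(KC.I_KAPF.wd_eq_iff N y.1 u).2 hy.1, (KC.I_KAPF.wd_eq_iff N y.2 u').2 hy.2]
    exact hu
  exact ⟨⟨h fun w w' => ¬ R w w'⟩, h R⟩

theorem isClopen_TN (Nr : ℤ × (ℕ × ℤ) → Prop) (b : Ind k) : IsClopen (TN Nr b) :=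
  isClopen2 (fun w w' => Hp Nr b w w') b.2

/-- the value -/
noncomputable def vv (m m' : PM k) (A : Set (Om k × Om k)) : ℝ :=
  ((m : Measure (Om k)).prod (m' : Measure (Om k))).real A

theorem vv_nonneg (m m' : PM k) (A : Set (Om k × Om k)) : 0 ≤ vv m m' A := measureReal_nonneg

theorem vv_mono (m m' : PM k) {A B : Set (Om k × Om k)} (h : A ⊆ B) : vv m m' A ≤ vv m m' B :=
  measureReal_mono h

open HK.I_MEASW in
theorem vv_sum (hk : 0 < k) (m m' : PM k) (N : ℕ) (R : List (Fin k) → List (Fin k) → Prop) :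
    vv m m' {p | R (HK.wd N p.1) (HK.wd N p.2)} =
      ∑ e ∈ Finset.range (k ^ (2 * N + 1)), mr m (HK.cyl (con hk N e)) *
        mr m' (HK.cyl ([] : HK.C k) ∩ {a | R (word hk N e) (HK.wd N a)}) := by
  classical
  have hnil : HK.cyl ([] : HK.C k) = univ := by
    ext u
    simp [HK.cyl]
  have h1 : {p : Om k × Om k | R (HK.wd N p.1) (HK.wd N p.2)} =
      ⋃ e ∈ Finset.range (k ^ (2 * N + 1)), (HK.cyl (con hk N e)) ×ˢ
        (HK.cyl ([] : HK.C k) ∩ {a | R (word hk N e) (HK.wd N a)}) := by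
    ext p
    simp only [Set.mem_ofPred_eq, Finset.mem_range, Set.mem_iUnion, exists_prop, Set.mem_prod,
      hnil, univ_inter]
    constructor
    · intro hR
      obtain ⟨e, he, h⟩ := exists_code hk (fun i => p.1 ((i : ℤ) - N)) (2 * N + 1)
      have hz : p.1 ∈ HK.cyl (con hk N e) := (mem_con hk N e p.1).2 fun i hi => (h i hi).symm
      exact ⟨e, he, hz, by rwa [← wd_eq hk N e p.1 hz]⟩
    · rintro ⟨e, he, hz, hR⟩
      rwa [wd_eq hk N e p.1 hz]
  unfold vv
  rw [h1, measureReal_biUnion_finset]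
  · refine Finset.sum_congr rfl fun e _ => ?_
    rw [measureReal_prod_prod]
    rfl
  · intro e he e' he' hne
    rw [Function.onFun, Set.disjoint_left]
    rintro z ⟨hz, -⟩ ⟨hz', -⟩
    simp only [Finset.coe_range, Set.mem_Iio] at he he'
    exact hne (code_inj hk _ _ _ he he' fun i hi =>
      ((mem_con hk N e z.1).1 hz i hi).symm.trans ((mem_con hk N e' z.1).1 hz' i hi))
  · intro e _
    refine (measurable_cyl _).prod ((measurable_cyl _).inter ?_)
    exact (KC.I_KAPF.isClopen_wd (fun w => R (word hk N e) w) N).isOpen.measurableSet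

/-- `sat` is coded -/
theorem satF (hS : Cl S) :
    Ar S fun r : (ℕ × List (Fin k)) × (Wd k × ℤ) => sat r.1 r.2 := by
  refine HK.Ar.ballList hS
    (R := fun (r : (ℕ × List (Fin k)) × (Wd k × ℤ)) (t : ℤ × Fin k) =>
      t.1.natAbs ≤ r.1.1 ∧ r.1.2[(t.1 + r.1.1).toNat]? = some t.2) ?_ ?_
  · refine HK.Ar.and hS ?_ ?_
    · exact HK.Ar.le hS (HK.ArF.natAbs hS (HK.ArF.of_primrec hS
        (Primrec.fst.comp Primrec.snd))) (HK.ArF.of_primrec hS
        (Primrec.fst.comp (Primrec.fst.comp Primrec.fst)))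
    · refine HK.Ar.eq hS (HK.ArF.of_primrec hS ?_) (HK.ArF.of_primrec hS ?_)
      · refine Primrec.list_getElem?.comp (Primrec.snd.comp (Primrec.fst.comp Primrec.fst)) ?_
        refine HK.primrec_toNat.comp (HK.primrec_int_add.comp (Primrec.fst.comp Primrec.snd) ?_)
        exact HK.primrec_natCast.comp (Primrec.fst.comp (Primrec.fst.comp Primrec.fst))
      · exact Primrec.option_some.comp (Primrec.snd.comp Primrec.snd)
  · exact HK.ArF.comp hS (KC.CONF_pf S hS k) (HK.ArF.snd hS)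

theorem HpF (hS : Cl S) {Nr : ℤ × (ℕ × ℤ) → Prop} (hNr : Ar S Nr) :
    Ar S fun p : (Ind k × List (Fin k)) × List (Fin k) => Hp Nr p.1.1 p.1.2 p.2 := by
  refine HK.Ar.ballInt hS (R := fun (p : (Ind k × List (Fin k)) × List (Fin k)) (j : ℤ) =>
    ∀ q ∈ p.1.1.1, ¬ (sat (p.1.1.2, p.1.2) (q.1, j) ∧ sat (p.1.1.2, p.2) (q.2.1, j) ∧
      Nr (j, q.2.2))) ?_
    (HK.ArF.of_primrec hS (Primrec.snd.comp (Primrec.fst.comp Primrec.fst)))
  refine HK.Ar.ballList hS
    (R := fun (p : ((Ind k × List (Fin k)) × List (Fin k)) × ℤ) (q : Wd k × Wd k × (ℕ × ℤ)) =>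
      ¬ (sat (p.1.1.1.2, p.1.1.2) (q.1, p.2) ∧ sat (p.1.1.1.2, p.1.2) (q.2.1, p.2) ∧
        Nr (p.2, q.2.2))) ?_
    (HK.ArF.of_primrec hS (Primrec.fst.comp
      (Primrec.fst.comp (Primrec.fst.comp Primrec.fst))))
  have pj : Primrec fun r : (((Ind k × List (Fin k)) × List (Fin k)) × ℤ) ×
      (Wd k × Wd k × (ℕ × ℤ)) => r.1.2 := Primrec.snd.comp Primrec.fst
  have pN : Primrec fun r : (((Ind k × List (Fin k)) × List (Fin k)) × ℤ) ×
      (Wd k × Wd k × (ℕ × ℤ)) => r.1.1.1.1.2 :=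
    Primrec.snd.comp (Primrec.fst.comp (Primrec.fst.comp (Primrec.fst.comp Primrec.fst)))
  have pu : Primrec fun r : (((Ind k × List (Fin k)) × List (Fin k)) × ℤ) ×
      (Wd k × Wd k × (ℕ × ℤ)) => r.1.1.1.2 :=
    Primrec.snd.comp (Primrec.fst.comp (Primrec.fst.comp Primrec.fst))
  have pu' : Primrec fun r : (((Ind k × List (Fin k)) × List (Fin k)) × ℤ) ×
      (Wd k × Wd k × (ℕ × ℤ)) => r.1.1.2 :=
    Primrec.snd.comp (Primrec.fst.comp Primrec.fst)
  have p1 : Primrec fun r : (((Ind k × List (Fin k)) × List (Fin k)) × ℤ) ×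
      (Wd k × Wd k × (ℕ × ℤ)) => r.2.1 := Primrec.fst.comp Primrec.snd
  have p2 : Primrec fun r : (((Ind k × List (Fin k)) × List (Fin k)) × ℤ) ×
      (Wd k × Wd k × (ℕ × ℤ)) => r.2.2.1 := Primrec.fst.comp (Primrec.snd.comp Primrec.snd)
  have p3 : Primrec fun r : (((Ind k × List (Fin k)) × List (Fin k)) × ℤ) ×
      (Wd k × Wd k × (ℕ × ℤ)) => r.2.2.2 := Primrec.snd.comp (Primrec.snd.comp Primrec.snd)
  refine HK.Ar.not hS (HK.Ar.and hS ?_ (HK.Ar.and hS ?_ ?_))
  · exact HK.Ar.comp hS (satF hS) ((pN.pair pu).pair (p1.pair pj))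
  · exact HK.Ar.comp hS (satF hS) ((pN.pair pu').pair (p2.pair pj))
  · exact HK.Ar.comp hS hNr (pj.pair p3)

open HK.I_MEASW in
/-- the values are coded -/
theorem vvF (hS : Cl S) {Nr : ℤ × (ℕ × ℤ) → Prop} (hNr : Ar S Nr) {β : Type} [Primcodable β]
    {m m' : β → PM k} (hm : sc S m) (hm' : sc S m') :
    ArR S fun p : β × Ind k => vv (m p.1) (m' p.1) (TN Nr p.2) := by
  classical
  rcases Nat.eq_zero_or_pos k with rfl | hk
  · have hβ : IsEmpty β := ⟨fun b => by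
      have : IsEmpty (Om 0) := ⟨fun z => (z 0).elim0⟩
      have h1 : ((m b : Measure (Om 0)) Set.univ) = 1 := measure_univ
      rw [Set.eq_empty_of_isEmpty (Set.univ : Set (Om 0)), measure_empty] at h1
      exact zero_ne_one h1⟩
    exact (HK.Ar.const hS False).congr fun p => (hβ.false p.1.1).elim
  · have h0 := HK.MEASW_pf S hS k ((β × Ind k) × ℕ) (fun q => m' q.1.1)
      (fun q w => Hp Nr q.1.2 (word hk q.1.2.2 q.2) w)
      (sc_comp hS hm' (HK.ArF.of_primrec hS (Primrec.fst.comp Primrec.fst))) (by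
        refine HK.Ar.comp hS (HpF hS hNr)
          (f := fun p : ((β × Ind k) × ℕ) × List (Fin k) =>
            ((p.1.1.2, word hk p.1.1.2.2 p.1.2), p.2)) ?_
        refine ((Primrec.snd.comp (Primrec.fst.comp Primrec.fst)).pair ?_).pair Primrec.snd
        exact (primrec_word hk).comp
          (Primrec.snd.comp (Primrec.snd.comp (Primrec.fst.comp Primrec.fst)))
          (Primrec.snd.comp Primrec.fst))
    have h1 : ArR S fun q : (β × Ind k) × ℕ => mr (m' q.1.1) (HK.cyl ([] : HK.C k) ∩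
        {a | Hp Nr q.1.2 (word hk q.1.2.2 q.2) (HK.wd q.1.2.2 a)}) := by
      refine HK.ArR.comp hS h0
        (g := fun q : (β × Ind k) × ℕ => (q, q.1.2.2, ([] : HK.C k))) ?_
      exact Primrec.id.pair ((Primrec.snd.comp (Primrec.snd.comp Primrec.fst)).pair
        (Primrec.const _))
    have h2 : ArR S fun q : (β × Ind k) × ℕ => mr (m q.1.1) (HK.cyl (con hk q.1.2.2 q.2)) := by
      refine HK.ArR.comp hS (f := fun p : β × HK.C k => mr (m p.1) (HK.cyl p.2)) hm
        (g := fun q : (β × Ind k) × ℕ => (q.1.1, con hk q.1.2.2 q.2)) ?_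
      exact (Primrec.fst.comp Primrec.fst).pair ((primrec_con hk).comp
        (Primrec.snd.comp (Primrec.snd.comp Primrec.fst)) Primrec.snd)
    have h3 : ArR S fun p : β × Ind k => ∑ e ∈ Finset.range (k ^ (2 * p.2.2 + 1)),
        mr (m p.1) (HK.cyl (con hk p.2.2 e)) * mr (m' p.1) (HK.cyl ([] : HK.C k) ∩
          {a | Hp Nr p.2 (word hk p.2.2 e) (HK.wd p.2.2 a)}) := by
      refine HK.ArR.sum hS (f := fun (p : β × Ind k) e =>
        mr (m p.1) (HK.cyl (con hk p.2.2 e)) * mr (m' p.1) (HK.cyl ([] : HK.C k) ∩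
          {a | Hp Nr p.2 (word hk p.2.2 e) (HK.wd p.2.2 a)})) ?_ ?_ ?_
      · exact HK.ArR.mul hS h2 h1 (fun _ => measureReal_nonneg) (fun _ => measureReal_nonneg)
      · intro p e
        exact mul_nonneg measureReal_nonneg measureReal_nonneg
      · exact HK.ArF.of_primrec hS (HK.primrec_pow.comp (Primrec.const k)
          (primrec_len.comp (Primrec.snd.comp Primrec.snd)))
    refine h3.congr fun p => ?_
    exact vv_sum hk (m p.1) (m' p.1) p.2.2 (fun w w' => Hp Nr p.2 w w')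

/-- the values of clopen sets are continuous -/
theorem vv_tendsto {ι : Type*} {F : Filter ι} {m m' : ι → PM k} {μ μ' : PM k}
    (h : Tendsto m F (𝓝 μ)) (h' : Tendsto m' F (𝓝 μ')) {A : Set (Om k × Om k)}
    (hA : IsClopen A) : Tendsto (fun i => vv (m i) (m' i) A) F (𝓝 (vv μ μ' A)) := by
  have h1 : Tendsto (fun i => (m i).prod (m' i)) F (𝓝 (μ.prod μ')) :=
    (ProbabilityMeasure.continuous_prod.tendsto (μ, μ')).comp (h.prodMk_nhds h')
  have h2 := ProbabilityMeasure.tendsto_measure_of_isClopen_of_tendsto h1 hA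
  exact NNReal.tendsto_coe.2 h2

theorem measurable_TT (Nr : ℤ × (ℕ × ℤ) → Prop) (L : LL k) : MeasurableSet (TT Nr L) := by
  rw [TT_eq]
  exact MeasurableSet.iInter fun N => (isClopen_TN Nr (L, N)).isOpen.measurableSet

theorem vv_TT (m m' : PM k) (Nr : ℤ × (ℕ × ℤ) → Prop) (L : LL k) :
    Tendsto (fun N : ℕ => vv m m' (TN Nr (L, N))) atTop (𝓝 (vv m m' (TT Nr L))) := by
  rw [TT_eq]
  have h2 := tendsto_measure_iInter_atTop
    (μ := (m : Measure (Om k)).prod (m' : Measure (Om k)))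
    (s := fun N : ℕ => TN Nr (L, N))
    (fun N => (isClopen_TN Nr (L, N)).isOpen.measurableSet.nullMeasurableSet)
    (anti Nr L) ⟨0, measure_ne_top _ _⟩
  exact (ENNReal.tendsto_toReal (measure_ne_top _ _)).comp h2

end I_GVL

open I_GVL in
theorem GVL_pf : S_GVL := by
  intro S U hS hU k Y C W _ _ _ _ _ _ _ _ _ _ _ _ _ _ _ v q e₀ lm hq hqe hlm hlme hq0 hv he₀ hl₀
  -- the coded relation
  let Nr : ℤ × (ℕ × ℤ) → Prop := fun p => near p.2.1 (act p.1 v) (act p.2.2 v)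
  have hNr : Ar S Nr := by
    refine sc_near hS (w := fun p : ℤ × (ℕ × ℤ) => act p.1 v)
      (w' := fun p : ℤ × (ℕ × ℤ) => act p.2.2 v) (L := fun p => p.2.1) ?_ ?_ ?_
    · exact sc_orb hS hv (HK.ArF.fst hS)
    · exact sc_orb hS hv (HK.ArF.of_primrec hS (Primrec.snd.comp Primrec.snd))
    · exact HK.ArF.of_primrec hS (Primrec.fst.comp Primrec.snd)
  -- the values
  let val : (ℤ × ℤ) × Ind k → ℝ := fun p => vv (act p.1.1 (lm e₀)) (act p.1.2 (lm e₀)) (TN Nr p.2)
  have hval : ArR S val := by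
    refine vvF hS hNr (m := fun n : ℤ × ℤ => act n.1 (lm e₀)) (m' := fun n => act n.2 (lm e₀))
      ?_ ?_
    · exact sc_orb hS hl₀ (HK.ArF.fst hS)
    · exact sc_orb hS hl₀ (HK.ArF.snd hS)
  -- the predicate
  let D : (LL k × ℕ) × (ℤ × ℕ) → Prop := fun s => ∃ z : ℕ × (ℕ × ℕ),
    z.2.1 * (s.1.2 + 1) < z.2.2 + 1 ∧ ∀ n : ℤ × ℤ, near z.1 (act n.1 v) v →
      near s.2.2 (act s.2.1 v) (act n.2 v) →
      ¬ ((z.2.1 : ℝ) < val (n, (s.1.1, z.1)) * (z.2.2 + 1))
  have hD : Ar S D := by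
    refine HK.Ar.ex hS (R := fun (s : (LL k × ℕ) × (ℤ × ℕ)) (z : ℕ × (ℕ × ℕ)) =>
      z.2.1 * (s.1.2 + 1) < z.2.2 + 1 ∧ ∀ n : ℤ × ℤ, near z.1 (act n.1 v) v →
      near s.2.2 (act s.2.1 v) (act n.2 v) →
      ¬ ((z.2.1 : ℝ) < val (n, (s.1.1, z.1)) * (z.2.2 + 1))) ?_
    refine HK.Ar.and hS ?_ ?_
    · refine HK.Ar.lt hS (HK.ArF.mul hS ?_ (HK.ArF.succ hS ?_)) (HK.ArF.succ hS ?_)
      · exact HK.ArF.of_primrec hS (Primrec.fst.comp (Primrec.snd.comp Primrec.snd))
      · exact HK.ArF.of_primrec hS (Primrec.snd.comp (Primrec.fst.comp Primrec.fst))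
      · exact HK.ArF.of_primrec hS (Primrec.snd.comp (Primrec.snd.comp Primrec.snd))
    · refine HK.Ar.all hS (R := fun (p : ((LL k × ℕ) × (ℤ × ℕ)) × (ℕ × (ℕ × ℕ))) (n : ℤ × ℤ) =>
        near p.2.1 (act n.1 v) v → near p.1.2.2 (act p.1.2.1 v) (act n.2 v) →
        ¬ ((p.2.2.1 : ℝ) < val (n, (p.1.1.1, p.2.1)) * (p.2.2.2 + 1))) ?_
      refine HK.Ar.imp hS ?_ (HK.Ar.imp hS ?_ (HK.Ar.not hS ?_))
      · refine sc_near hS
          (w := fun q : (((LL k × ℕ) × (ℤ × ℕ)) × (ℕ × (ℕ × ℕ))) × (ℤ × ℤ) => act q.2.1 v)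
          (w' := fun _ => v) (L := fun q => q.1.2.1) ?_ (sc_const hS hv) ?_
        · exact sc_orb hS hv (HK.ArF.of_primrec hS (Primrec.fst.comp Primrec.snd))
        · exact HK.ArF.of_primrec hS (Primrec.fst.comp (Primrec.snd.comp Primrec.fst))
      · refine sc_near hS
          (w := fun q : (((LL k × ℕ) × (ℤ × ℕ)) × (ℕ × (ℕ × ℕ))) × (ℤ × ℤ) =>
            act q.1.1.2.1 v)
          (w' := fun q => act q.2.2 v) (L := fun q => q.1.1.2.2) ?_ ?_ ?_
        · exact sc_orb hS hv (HK.ArF.of_primrec hS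
            (Primrec.fst.comp (Primrec.snd.comp (Primrec.fst.comp Primrec.fst))))
        · exact sc_orb hS hv (HK.ArF.of_primrec hS (Primrec.snd.comp Primrec.snd))
        · exact HK.ArF.of_primrec hS
            (Primrec.snd.comp (Primrec.snd.comp (Primrec.fst.comp Primrec.fst)))
      · refine HK.ArR.lt hS hval
          (g := fun q : (((LL k × ℕ) × (ℤ × ℕ)) × (ℕ × (ℕ × ℕ))) × (ℤ × ℤ) =>
            (q.2, (q.1.1.1.1, q.1.2.1)))
          (u := fun q => q.1.2.2.1) (v := fun q => q.1.2.2.2) ?_ ?_ ?_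
        · exact HK.ArF.of_primrec hS (Primrec.snd.pair
            ((Primrec.fst.comp (Primrec.fst.comp (Primrec.fst.comp Primrec.fst))).pair
              (Primrec.fst.comp (Primrec.snd.comp Primrec.fst))))
        · exact HK.ArF.of_primrec hS
            (Primrec.fst.comp (Primrec.snd.comp (Primrec.snd.comp Primrec.fst)))
        · exact HK.ArF.of_primrec hS
            (Primrec.snd.comp (Primrec.snd.comp (Primrec.snd.comp Primrec.fst)))
  -- the relation over `v`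
  have hset : ∀ L : LL k, {p : Om k × Om k | (p, v) ∈ RLs (Vn v) L} = TT Nr L := by
    intro L
    ext p
    constructor
    · intro h j z hz h3
      refine h j z hz ⟨h3.1, h3.2.1, ?_⟩
      change near z.2.2.1 (sh j v) (act z.2.2.2 v)
      rw [← Agree.eq]
      exact h3.2.2
    · intro h j z hz h3
      refine h j z hz ⟨h3.1, h3.2.1, ?_⟩
      have h4 : near z.2.2.1 (sh j v) (act z.2.2.2 v) := h3.2.2
      rw [← Agree.eq] at h4
      exact h4
  have hlt : ∀ (L : LL k) (n : ℕ) (a b : W), q a = v →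
      (vl q lm (RLs (Vn v) L) a b < 1 / ((n : ℝ≥0∞) + 1) ↔
        vv (lm a) (lm b) (TT Nr L) < 1 / ((n : ℝ) + 1)) := by
    intro L n a b hqa
    have h1 : vl q lm (RLs (Vn v) L) a b = ENNReal.ofReal (vv (lm a) (lm b) (TT Nr L)) := by
      unfold vl vv
      rw [hqa, hset L]
      exact (ENNReal.ofReal_toReal (measure_ne_top _ _)).symm
    have h2 : (1 : ℝ≥0∞) / ((n : ℝ≥0∞) + 1) = ENNReal.ofReal (1 / ((n : ℝ) + 1)) := by
      rw [ENNReal.ofReal_div_of_pos (by positivity), ENNReal.ofReal_one,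
        ENNReal.ofReal_add (by positivity) (by positivity), ENNReal.ofReal_natCast,
        ENNReal.ofReal_one]
    rw [h1, h2]
    exact ENNReal.ofReal_lt_ofReal_iff (by positivity)
  have hqv : ∀ n : ℤ, q (sh n e₀) = act n v := by
    intro n
    rw [hqe, hq0, Agree.eq]
  have hlv : ∀ n : ℤ, lm (sh n e₀) = act n (lm e₀) := fun n => hlme n e₀
  refine ⟨D, hD, ?_, ?_⟩
  · -- sound
    rintro L n m r ⟨⟨M, α, β⟩, h1, h2⟩ c hc hc1 hnear a ha b hb hqa hqb
    rw [hlt L n a b hqa]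
    simp only at h1 h2
    have h3 : vv (lm a) (lm b) (TN Nr (L, M)) * (β + 1) ≤ α := by
      by_contra h4
      push Not at h4
      have t1 : Tendsto (fun p : W × W => lm p.1) (𝓝 (a, b)) (𝓝 (lm a)) :=
        (hlm.comp continuous_fst).tendsto (a, b)
      have t2 : Tendsto (fun p : W × W => lm p.2) (𝓝 (a, b)) (𝓝 (lm b)) :=
        (hlm.comp continuous_snd).tendsto (a, b)
      have e1 : ∀ᶠ p : W × W in 𝓝 (a, b),
          (α : ℝ) < vv (lm p.1) (lm p.2) (TN Nr (L, M)) * (β + 1) :=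
        ((vv_tendsto t1 t2 (isClopen_TN Nr (L, M))).mul_const _).eventually_const_lt h4
      have e2 : ∀ᶠ p : W × W in 𝓝 (a, b), near M (q p.1) v := by
        have h5 : {x | near M x v} ∈ 𝓝 (q a) := by
          rw [hqa]
          exact HK.near_mem_nhds M v
        exact ((hq.comp continuous_fst).tendsto (a, b)) h5
      have e3 : ∀ᶠ p : W × W in 𝓝 (a, b), near r (act m v) (q p.2) := by
        have h5 : {x | near r (act m v) x} ∈ 𝓝 (q b) := by
          rw [hqb]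
          have h6 : IsOpen {x | near r (act m v) x} :=
            (Law.near_open (α := Y × (ℕ → C)) r).preimage
              (continuous_const.prodMk continuous_id)
          exact h6.mem_nhds hnear
        exact ((hq.comp continuous_snd).tendsto (a, b)) h5
      have h6 : (a, b) ∈ closure ((Set.range fun n : ℤ => sh n e₀) ×ˢ
          (Set.range fun n : ℤ => sh n e₀)) := by
        rw [closure_prod_eq]
        exact ⟨ha, hb⟩
      obtain ⟨p, ⟨⟨n1, hn1⟩, ⟨n2, hn2⟩⟩, h7, h8, h9⟩ :=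
        ((mem_closure_iff_frequently.1 h6).and_eventually (e1.and (e2.and e3))).exists
      simp only at hn1 hn2
      rw [← hn1, ← hn2, hlv, hlv] at h7
      rw [← hn1, hqv] at h8
      rw [← hn2, hqv] at h9
      exact h2 (n1, n2) h8 h9 h7
    have h4 : vv (lm a) (lm b) (TT Nr L) ≤ vv (lm a) (lm b) (TN Nr (L, M)) := by
      refine vv_mono _ _ ?_
      rw [TT_eq]
      exact iInter_subset _ M
    have hβ : (0 : ℝ) < β + 1 := by positivity
    have hn : (0 : ℝ) < n + 1 := by positivity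
    have h5 : (α : ℝ) * (n + 1) < β + 1 := by exact_mod_cast h1
    refine h4.trans_lt ?_
    rw [lt_div_iff₀ hn]
    by_contra h6
    push Not at h6
    have h7 : 1 * ((β : ℝ) + 1) ≤ vv (lm a) (lm b) (TN Nr (L, M)) * (n + 1) * (β + 1) :=
      mul_le_mul_of_nonneg_right h6 hβ.le
    have h8 : vv (lm a) (lm b) (TN Nr (L, M)) * (β + 1) * (n + 1) ≤ α * (n + 1) :=
      mul_le_mul_of_nonneg_right h3 hn.le
    nlinarith
  · -- complete
    intro L n c hc hc1 hall
    by_contra hcon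
    push Not at hcon
    have hcoc : c ∈ oc v := by rw [KC.oc_eq]; exact hc
    have key : ∀ M : ℕ, ∃ (μ : ℤ) (z : ℤ × ℤ), near M (act μ v) c ∧ near M (act z.1 v) v ∧
        near M (act μ v) (act z.2 v) ∧
        (M : ℝ) < val (z, (L, M)) * (((n : ℝ) + 1) * (M + 1)) := by
      intro M
      obtain ⟨μ, hμ'⟩ := exists_near_of_oc hcoc (2 * M + 1)
      have hμ : near M (act μ v) c := Law.near_mono _ _ _ _ (by omega) hμ'
      have h1 : ¬ D ((L, n), (μ, M)) := fun h => hcon μ M h hμ'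
      by_contra h2
      push Not at h2
      refine h1 ⟨(M, M, (n + 1) * (M + 1) - 1), ?_, ?_⟩
      · simp only
        have h3 : 1 ≤ (n + 1) * (M + 1) := Nat.one_le_iff_ne_zero.2 (by positivity)
        rw [Nat.sub_add_cancel h3]
        nlinarith
      · intro z h3 h4 h5
        simp only at h3 h4 h5
        have h6 := h2 μ z hμ h3 h4
        have h7 : (((n + 1) * (M + 1) - 1 : ℕ) : ℝ) + 1 = ((n : ℝ) + 1) * (M + 1) := by
          have h3 : 1 ≤ (n + 1) * (M + 1) := Nat.one_le_iff_ne_zero.2 (by positivity)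
          push_cast [Nat.cast_sub h3]
          ring
        rw [h7] at h5
        linarith
    choose μ z k1 k2 k3 k4 using key
    obtain ⟨a, hta⟩ : ∃ a, Tendsto (fun M : ℕ => sh (z M).1 e₀) (U : Filter ℕ) (𝓝 a) := by
      obtain ⟨a, _, ha⟩ := isCompact_univ.ultrafilter_le_nhds
        (U.map fun M : ℕ => sh (z M).1 e₀) (by simp)
      exact ⟨a, ha⟩
    obtain ⟨b, htb⟩ : ∃ b, Tendsto (fun M : ℕ => sh (z M).2 e₀) (U : Filter ℕ) (𝓝 b) := by
      obtain ⟨b, _, hb⟩ := isCompact_univ.ultrafilter_le_nhds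
        (U.map fun M : ℕ => sh (z M).2 e₀) (by simp)
      exact ⟨b, hb⟩
    have ha : a ∈ orb e₀ := mem_closure_of_tendsto hta (Eventually.of_forall fun M => ⟨_, rfl⟩)
    have hb : b ∈ orb e₀ := mem_closure_of_tendsto htb (Eventually.of_forall fun M => ⟨_, rfl⟩)
    have hqa : q a = v := by
      have h1 : Tendsto (fun M : ℕ => q (sh (z M).1 e₀)) (U : Filter ℕ) (𝓝 (q a)) :=
        (hq.tendsto a).comp hta
      simp only [hqv] at h1
      exact tendsto_nhds_unique h1 (tendsto_near hU.top k2)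
    have hqb : q b = c := by
      have h1 : Tendsto (fun M : ℕ => q (sh (z M).2 e₀)) (U : Filter ℕ) (𝓝 (q b)) :=
        (hq.tendsto b).comp htb
      simp only [hqv] at h1
      refine tendsto_nhds_unique h1 ?_
      intro V hV
      obtain ⟨R, hR⟩ := Law.near_basis c V hV
      have h2 : ∀ᶠ M : ℕ in (U : Filter ℕ), 2 * R + 1 ≤ M := hU.top (eventually_ge_atTop _)
      rw [Filter.mem_map]
      filter_upwards [h2] with M hM
      refine hR _ (Law.near_tri R _ (act (μ M) v) _ ?_ ?_)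
      · exact Law.near_symm _ _ _ (Law.near_mono _ _ _ _ hM (k1 M))
      · exact Law.near_mono _ _ _ _ hM (k3 M)
    have hge : ∀ M₀ : ℕ, 1 / ((n : ℝ) + 1) ≤ vv (lm a) (lm b) (TN Nr (L, M₀)) := by
      intro M₀
      have t1 : Tendsto (fun M : ℕ => lm (sh (z M).1 e₀)) (U : Filter ℕ) (𝓝 (lm a)) :=
        (hlm.tendsto a).comp hta
      have t2 : Tendsto (fun M : ℕ => lm (sh (z M).2 e₀)) (U : Filter ℕ) (𝓝 (lm b)) :=
        (hlm.tendsto b).comp htb
      have t3 := vv_tendsto t1 t2 (isClopen_TN Nr (L, M₀))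
      have t4 : Tendsto (fun M : ℕ => (1 - 1 / ((M : ℝ) + 1)) * (1 / ((n : ℝ) + 1)))
          (U : Filter ℕ) (𝓝 ((1 - 0) * (1 / ((n : ℝ) + 1)))) :=
        ((tendsto_const_nhds.sub tendsto_one_div_add_atTop_nhds_zero_nat).mul_const _).mono_left
          hU.top
      rw [sub_zero, one_mul] at t4
      refine le_of_tendsto_of_tendsto t4 t3 ?_
      have h2 : ∀ᶠ M : ℕ in (U : Filter ℕ), M₀ ≤ M := hU.top (eventually_ge_atTop _)
      filter_upwards [h2] with M hM
      have h3 : val (z M, (L, M)) ≤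
          vv (lm (sh (z M).1 e₀)) (lm (sh (z M).2 e₀)) (TN Nr (L, M₀)) := by
        rw [hlv, hlv]
        exact vv_mono _ _ (anti Nr L hM)
      refine le_trans ?_ h3
      have h4 := k4 M
      have hM1 : (0 : ℝ) < M + 1 := by positivity
      have hn1 : (0 : ℝ) < n + 1 := by positivity
      have h5 : (1 - 1 / ((M : ℝ) + 1)) * (1 / ((n : ℝ) + 1)) =
          M / ((n + 1) * (M + 1)) := by
        field_simp
        ring
      rw [h5, div_le_iff₀ (by positivity)]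
      exact h4.le
    have h1 := (hlt L n a b hqa).1 (hall a ha b hb hqa hqb)
    have h2 := ge_of_tendsto' (vv_TT (lm a) (lm b) Nr L) hge
    linarith

end Pool.Agent.Work.MP_69fea5_lc.W3
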