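import Pool.Agent.Work.MP_69fea5_lc.W3.StmtsT

/-!
# [69fea5 T HAU] the Hausdorff distance of the fibres of an isometric extension
-/

set_option autoImplicit false

namespace Pool.Agent.Work.MP_69fea5_lc.W3

open MeasureTheory Topology Set Filter TopologicalSpace
open Pool.Agent.Work.MP_69fea5_lc.AK

namespace I_HAU

/-- minima over the fibres of an open map (modulo `ρ`) are continuous -/
lemma min_cont {Q W Y : Type} [TopologicalSpace Q] [CompactSpace Q]
    [TopologicalSpace W] [TopologicalSpace Y] (P : Set (Q × W)) (hP : IsClosed P)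
    (ρ : Q → Q → W → ℝ)
    (lift : ∀ (ι : Type) (G : Ultrafilter ι) (w : ι → W) (w₀ : W), (∀ i, w i ∈ Prod.snd '' P) →
      Tendsto w (G : Filter ι) (𝓝 w₀) → ∀ q, (q, w₀) ∈ P →
      ∃ (f : ι → Q) (q₁ : Q), (∀ i, (f i, w i) ∈ P) ∧ (q₁, w₀) ∈ P ∧
        Tendsto f (G : Filter ι) (𝓝 q₁) ∧ ρ q₁ q w₀ = 0)
    (Y0 : Set Y) (w : Y → W) (hw : Continuous w) (hwP : ∀ y ∈ Y0, w y ∈ Prod.snd '' P)
    (F : Q → Y → ℝ)
    (hF : ContinuousOn (fun p : Q × Y => F p.1 p.2) {p | p.2 ∈ Y0 ∧ (p.1, w p.2) ∈ P})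
    (hinv : ∀ y ∈ Y0, ∀ q q', (q, w y) ∈ P → (q', w y) ∈ P → ρ q q' (w y) = 0 →
      F q y = F q' y) :
    ∃ m : Y → ℝ, ContinuousOn m Y0 ∧
      ∀ y ∈ Y0, (∃ q, (q, w y) ∈ P ∧ F q y = m y) ∧ ∀ q, (q, w y) ∈ P → m y ≤ F q y := by
  classical
  have ex : ∀ y ∈ Y0, ∃ q, (q, w y) ∈ P ∧ ∀ q', (q', w y) ∈ P → F q y ≤ F q' y := by
    intro y hy
    have hc : IsCompact {q : Q | (q, w y) ∈ P} := by
      apply IsClosed.isCompact
      exact hP.preimage (Continuous.prodMk continuous_id continuous_const)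
    have hne : {q : Q | (q, w y) ∈ P}.Nonempty := by
      obtain ⟨p, hp, hpe⟩ := hwP y hy
      refine ⟨p.1, ?_⟩
      change (p.1, w y) ∈ P
      rw [← hpe]
      exact hp
    have hco : ContinuousOn (fun q => F q y) {q : Q | (q, w y) ∈ P} := by
      have := hF.comp (f := fun q : Q => (q, y)) (s := {q : Q | (q, w y) ∈ P})
        (Continuous.prodMk continuous_id continuous_const).continuousOn
        (fun q hq => ⟨hy, hq⟩)
      exact this
    obtain ⟨q, hq, hmin⟩ := hc.exists_isMinOn hne hco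
    exact ⟨q, hq, fun q' hq' => hmin hq'⟩
  rcases Y0.eq_empty_or_nonempty with hE | ⟨y1, hy1⟩
  · subst hE
    exact ⟨fun _ => 0, continuousOn_empty _, fun y hy => (Set.notMem_empty y hy).elim⟩
  have : Nonempty Q := ⟨(ex y1 hy1).choose⟩
  choose! qm hqm hqmin using ex
  refine ⟨fun y => F (qm y) y, ?_, fun y hy => ⟨⟨qm y, hqm y hy, rfl⟩, hqmin y hy⟩⟩
  rw [continuousOn_iff_continuous_domRestrict, continuous_iff_ultrafilter]
  rintro ⟨y0, hy0⟩ G hG
  have hGv : Tendsto (fun y : Y0 => (y : Y)) (G : Filter Y0) (𝓝 y0) :=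
    (continuous_subtype_val.tendsto (⟨y0, hy0⟩ : Y0)).mono_left hG
  have hwG : Tendsto (fun y : Y0 => w (y : Y)) (G : Filter Y0) (𝓝 (w y0)) :=
    (hw.tendsto y0).comp hGv
  -- the minimizers converge
  obtain ⟨qs, -, hqs⟩ := (isCompact_univ (X := Q)).ultrafilter_le_nhds
    (G.map (fun y : Y0 => qm (y : Y))) (by simp)
  have hqs' : Tendsto (fun y : Y0 => qm (y : Y)) (G : Filter Y0) (𝓝 qs) := hqs
  have hqsP : (qs, w y0) ∈ P := by
    refine hP.mem_of_tendsto (hqs'.prodMk_nhds hwG) (Eventually.of_forall fun y => ?_)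
    exact hqm y y.2
  have key : ∀ (f : Y0 → Q) (q₁ : Q), (∀ y : Y0, (f y, w (y : Y)) ∈ P) → (q₁, w y0) ∈ P →
      Tendsto f (G : Filter Y0) (𝓝 q₁) →
      Tendsto (fun y : Y0 => F (f y) (y : Y)) (G : Filter Y0) (𝓝 (F q₁ y0)) := by
    intro f q₁ hf hq₁ hft
    have h1 : Tendsto (fun y : Y0 => ((f y, (y : Y)) : Q × Y)) (G : Filter Y0)
        (𝓝[{p | p.2 ∈ Y0 ∧ (p.1, w p.2) ∈ P}] (q₁, y0)) := by
      rw [tendsto_nhdsWithin_iff]
      exact ⟨hft.prodMk_nhds hGv, Eventually.of_forall fun y => ⟨y.2, hf y⟩⟩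
    exact (hF (q₁, y0) ⟨hy0, hq₁⟩).tendsto.comp h1
  have hb := key (fun y => qm (y : Y)) qs (fun y => hqm y y.2) hqsP hqs'
  obtain ⟨f, q₁, hf, hq₁, hft, hρ⟩ := lift Y0 G (fun y => w (y : Y)) (w y0)
    (fun y => hwP y y.2) hwG (qm y0) (hqm y0 hy0)
  have hc := key f q₁ hf hq₁ hft
  have e1 : F q₁ y0 = F (qm y0) y0 := hinv y0 hy0 _ _ hq₁ (hqm y0 hy0) hρ
  have le1 : F qs y0 ≤ F q₁ y0 := by
    refine le_of_tendsto_of_tendsto' hb hc fun y => ?_
    exact hqmin y y.2 (f y) (hf y)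
  have le2 : F (qm y0) y0 ≤ F qs y0 := hqmin y0 hy0 qs hqsP
  have e2 : F qs y0 = F (qm y0) y0 := by linarith
  change Tendsto (fun y : Y0 => F (qm (y : Y)) (y : Y)) (G : Filter Y0) (𝓝 (F (qm y0) y0))
  rw [← e2]
  exact hb

end I_HAU

open I_HAU in
theorem HAU_pf (hISP : S_ISP) : S_HAU := by
  intro Q O X C _ _ _ _ _ _ _ _ _ _ _ _ _ _ A θ P ρ hA hU hP hPi hPA hρ
  -- the pseudometric on `P` over `A`
  set P' : Set (Q × X) := (fun p : Q × (O × X) => (p.1, p.2.2)) '' P with hP'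
  have memP' : ∀ {q u x}, (q, (u, x)) ∈ P → (q, x) ∈ P' := fun {q u x} h => ⟨_, h, rfl⟩
  have hIPB : IPB P (fun q q' (w : O × X) => ρ q q' w.2) := by
    refine ⟨?_, ?_, ?_, ?_, ?_, ?_⟩
    · have := hρ.cont.comp (f := fun p : Q × Q × (O × X) => (p.1, p.2.1, p.2.2.2))
        (s := {p | (p.1, p.2.2) ∈ P ∧ (p.2.1, p.2.2) ∈ P})
        (by fun_prop) (fun p hp => ⟨memP' (u := p.2.2.1) hp.1, memP' (u := p.2.2.1) hp.2⟩)
      exact this
    · rintro n ⟨u, x⟩ q q' h h'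
      exact hρ.inv n x q q' (memP' h) (memP' h')
    · rintro ⟨u, x⟩ q h
      exact hρ.self x q (memP' h)
    · rintro ⟨u, x⟩ q q' h h'
      exact hρ.nonneg x q q' (memP' h) (memP' h')
    · rintro ⟨u, x⟩ q q' h h'
      exact hρ.symm x q q' (memP' h) (memP' h')
    · rintro ⟨u, x⟩ q q' q'' h h' h''
      exact hρ.tri x q q' q'' (memP' h) (memP' h') (memP' h'')
  have hmin : MinSet (Prod.snd '' P) := by rw [hPA]; exact hA
  have lift := hISP Q (O × X) P (fun q q' (w : O × X) => ρ q q' w.2) hP hPi hmin hIPB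
  -- the distance to a fibre
  obtain ⟨g, hgc, hg⟩ := min_cont P hP (fun q q' (w : O × X) => ρ q q' w.2) lift
    {y : Q × (O × X) | (y.1, y.2.2) ∈ P' ∧ y.2 ∈ A} (fun y => y.2) continuous_snd
    (fun y hy => by rw [hPA]; exact hy.2) (fun q' y => ρ y.1 q' y.2.2)
    (by
      have := hρ.cont.comp (f := fun p : Q × (Q × (O × X)) => (p.2.1, p.1, p.2.2.2))
        (s := {p | p.2 ∈ {y : Q × (O × X) | (y.1, y.2.2) ∈ P' ∧ y.2 ∈ A} ∧ (p.1, p.2.2) ∈ P})
        (by fun_prop) (fun p hp => ⟨hp.1.1, memP' (u := p.2.2.1) hp.2⟩)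
      exact this)
    (by
      rintro ⟨q, u, x⟩ ⟨h1, h2⟩ q' q'' h' h'' h0
      have a1 := hρ.tri x q q' q'' h1 (memP' h') (memP' h'')
      have a2 := hρ.tri x q q'' q' h1 (memP' h'') (memP' h')
      have a3 := hρ.symm x q'' q' (memP' h'') (memP' h')
      have a4 : ρ q' q'' x = 0 := h0
      change ρ q q' x = ρ q q'' x
      linarith)
  have hgle : ∀ q q' u x, (q, x) ∈ P' → (q', (u, x)) ∈ P → g (q, (u, x)) ≤ ρ q q' x := by
    intro q q' u x hq hq'
    exact (hg (q, (u, x)) ⟨hq, by rw [← hPA]; exact ⟨_, hq', rfl⟩⟩).2 q' hq'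
  have hgex : ∀ q u x, (q, x) ∈ P' → (u, x) ∈ A → ∃ q', (q', (u, x)) ∈ P ∧
      ρ q q' x = g (q, (u, x)) := by
    intro q u x hq hu
    exact (hg (q, (u, x)) ⟨hq, hu⟩).1
  -- the one-sided Hausdorff distance
  obtain ⟨h, hhc, hh⟩ := min_cont P hP (fun q q' (w : O × X) => ρ q q' w.2) lift
    {y : O × O × X | (y.1, y.2.2) ∈ A ∧ (y.2.1, y.2.2) ∈ A} (fun y => (y.1, y.2.2))
    (by fun_prop) (fun y hy => by rw [hPA]; exact hy.1)
    (fun q y => - g (q, (y.2.1, y.2.2)))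
    (by
      have := (hgc.comp (f := fun p : Q × (O × O × X) => (p.1, (p.2.2.1, p.2.2.2)))
        (s := {p | p.2 ∈ {y : O × O × X | (y.1, y.2.2) ∈ A ∧ (y.2.1, y.2.2) ∈ A} ∧
          (p.1, (p.2.1, p.2.2.2)) ∈ P})
        (by fun_prop) (fun p hp => ⟨memP' (u := p.2.1) hp.2, hp.1.2⟩)).neg
      exact this)
    (by
      rintro ⟨u, u', x⟩ ⟨h1, h2⟩ q q' hq hq' h0
      have a0 : ρ q q' x = 0 := h0
      obtain ⟨r, hr, er⟩ := hgex q u' x (memP' hq) h2
      obtain ⟨r', hr', er'⟩ := hgex q' u' x (memP' hq') h2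
      have b1 := hgle q r' u' x (memP' hq) hr'
      have b2 := hgle q' r u' x (memP' hq') hr
      have c1 := hρ.tri x q q' r' (memP' hq) (memP' hq') (memP' hr')
      have c2 := hρ.tri x q' q r (memP' hq') (memP' hq) (memP' hr)
      have c3 := hρ.symm x q q' (memP' hq) (memP' hq')
      change - g (q, (u', x)) = - g (q', (u', x))
      linarith)
  have hhle : ∀ q u u' x, (q, (u, x)) ∈ P → (u', x) ∈ A → g (q, (u', x)) ≤ - h (u, u', x) := by
    intro q u u' x hq hu'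
    have := (hh (u, u', x) ⟨by rw [← hPA]; exact ⟨_, hq, rfl⟩, hu'⟩).2 q hq
    change h (u, u', x) ≤ - g (q, (u', x)) at this
    linarith
  have hhex : ∀ u u' x, (u, x) ∈ A → (u', x) ∈ A → ∃ q, (q, (u, x)) ∈ P ∧
      g (q, (u', x)) = - h (u, u', x) := by
    intro u u' x hu hu'
    obtain ⟨q, hq, e⟩ := (hh (u, u', x) ⟨hu, hu'⟩).1
    change - g (q, (u', x)) = h (u, u', x) at e
    exact ⟨q, hq, by linarith⟩
  have hgnn : ∀ q u x, (q, x) ∈ P' → (u, x) ∈ A → 0 ≤ g (q, (u, x)) := by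
    intro q u x hq hu
    obtain ⟨q', hq', e⟩ := hgex q u x hq hu
    rw [← e]
    exact hρ.nonneg x q q' hq (memP' hq')
  have hhnn : ∀ u u' x, (u, x) ∈ A → (u', x) ∈ A → 0 ≤ - h (u, u', x) := by
    intro u u' x hu hu'
    obtain ⟨q, hq, e⟩ := hhex u u' x hu hu'
    rw [← e]
    exact hgnn q u' x (memP' hq) hu'
  have Psh : ∀ (n : ℤ) {q u x}, (q, (u, x)) ∈ P → (sh n q, (sh n u, sh n x)) ∈ P := by
    intro n q u x hq
    exact hPi n _ hq
  have P'sh : ∀ (n : ℤ) {q x}, (q, x) ∈ P' → (sh n q, sh n x) ∈ P' := by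
    rintro n q x ⟨⟨q1, u1, x1⟩, hq, e⟩
    simp only [Prod.mk.injEq] at e
    obtain ⟨rfl, rfl⟩ := e
    exact memP' (Psh n hq)
  have Ash : ∀ (n : ℤ) {u x}, (u, x) ∈ A → (sh n u, sh n x) ∈ A := by
    intro n u x hu
    exact hA.inv n _ hu
  have gsh : ∀ (n : ℤ) q u x, (q, x) ∈ P' → (u, x) ∈ A →
      g (sh n q, (sh n u, sh n x)) ≤ g (q, (u, x)) := by
    intro n q u x hq hu
    obtain ⟨q', hq', e⟩ := hgex q u x hq hu
    have := hgle (sh n q) (sh n q') (sh n u) (sh n x) (P'sh n hq) (Psh n hq')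
    rw [hρ.inv n x q q' hq (memP' hq')] at this
    linarith
  have gshe : ∀ (n : ℤ) q u x, (q, x) ∈ P' → (u, x) ∈ A →
      g (sh n q, (sh n u, sh n x)) = g (q, (u, x)) := by
    intro n q u x hq hu
    refine le_antisymm (gsh n q u x hq hu) ?_
    have := gsh (-n) _ _ _ (P'sh n hq) (Ash n hu)
    simpa only [← sh_add, neg_add_cancel, sh_zero] using this
  have hsh : ∀ (n : ℤ) u u' x, (u, x) ∈ A → (u', x) ∈ A →
      - h (sh n u, sh n u', sh n x) ≤ - h (u, u', x) := by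
    intro n u u' x hu hu'
    obtain ⟨q, hq, e⟩ := hhex (sh n u) (sh n u') (sh n x) (Ash n hu) (Ash n hu')
    have hq2 := Psh (-n) hq
    simp only [← sh_add, neg_add_cancel, sh_zero] at hq2
    have h1 := hhle _ _ _ _ hq2 hu'
    have h2 := gshe n (sh (-n) q) u' x (memP' hq2) hu'
    simp only [← sh_add, add_neg_cancel, sh_zero] at h2
    linarith
  have hshe : ∀ (n : ℤ) u u' x, (u, x) ∈ A → (u', x) ∈ A →
      - h (sh n u, sh n u', sh n x) = - h (u, u', x) := by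
    intro n u u' x hu hu'
    refine le_antisymm (hsh n u u' x hu hu') ?_
    have := hsh (-n) _ _ _ (Ash n hu) (Ash n hu')
    simpa only [← sh_add, neg_add_cancel, sh_zero] using this
  have htri : ∀ x u u' u'', (u, x) ∈ A → (u', x) ∈ A → (u'', x) ∈ A →
      - h (u, u'', x) ≤ - h (u, u', x) + - h (u', u'', x) := by
    intro x u u' u'' hu hu' hu''
    obtain ⟨q, hq, e⟩ := hhex u u'' x hu hu''
    obtain ⟨q', hq', e'⟩ := hgex q u' x (memP' hq) hu'
    obtain ⟨q'', hq'', e''⟩ := hgex q' u'' x (memP' hq') hu''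
    have a1 := hhle q u u' x hq hu'
    have a2 := hhle q' u' u'' x hq' hu''
    have a3 := hgle q q'' u'' x (memP' hq) hq''
    have a4 := hρ.tri x q q' q'' (memP' hq) (memP' hq') (memP' hq'')
    linarith
  have hD : IPB A (fun u u' x => - h (u, u', x) + - h (u', u, x)) := by
    refine ⟨?_, ?_, ?_, ?_, ?_, ?_⟩
    · have c1 : ContinuousOn (fun p : O × O × X => h (p.1, p.2.1, p.2.2))
          {p | (p.1, p.2.2) ∈ A ∧ (p.2.1, p.2.2) ∈ A} := hhc
      have c2 : ContinuousOn (fun p : O × O × X => h (p.2.1, p.1, p.2.2))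
          {p | (p.1, p.2.2) ∈ A ∧ (p.2.1, p.2.2) ∈ A} :=
        hhc.comp (f := fun p : O × O × X => (p.2.1, p.1, p.2.2)) (by fun_prop)
          (fun p hp => ⟨hp.2, hp.1⟩)
      exact c1.neg.add c2.neg
    · intro n x u u' hu hu'
      have := hshe n u u' x hu hu'
      have := hshe n u' u x hu' hu
      change - h (sh n u, sh n u', sh n x) + - h (sh n u', sh n u, sh n x) = _
      linarith
    · intro x u hu
      have a : - h (u, u, x) ≤ 0 := by
        obtain ⟨q, hq, e⟩ := hhex u u x hu hu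
        have := hgle q q u x (memP' hq) hq
        rw [hρ.self x q (memP' hq)] at this
        linarith
      have b := hhnn u u x hu hu
      change - h (u, u, x) + - h (u, u, x) = 0
      linarith
    · intro x u u' hu hu'
      have := hhnn u u' x hu hu'
      have := hhnn u' u x hu' hu
      change 0 ≤ - h (u, u', x) + - h (u', u, x)
      linarith
    · intro x u u' hu hu'
      ring
    · intro x u u' u'' hu hu' hu''
      have := htri x u u' u'' hu hu' hu''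
      have := htri x u'' u' u hu'' hu' hu
      change - h (u, u'', x) + - h (u'', u, x) ≤
        (- h (u, u', x) + - h (u', u, x)) + (- h (u', u'', x) + - h (u'', u', x))
      linarith
  intro x u u' q hu hu' hθ hq
  have h0 := hU _ hD x u u' hu hu' hθ
  have h0' : - h (u, u', x) + - h (u', u, x) = 0 := h0
  have n1 := hhnn u u' x hu hu'
  have n2 := hhnn u' u x hu' hu
  have g1 := hhle q u u' x hq hu'
  obtain ⟨q', hq', e⟩ := hgex q u' x (memP' hq) hu'
  have g2 := hgnn q u' x (memP' hq) hu'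
  exact ⟨q', hq', by linarith⟩

end Pool.Agent.Work.MP_69fea5_lc.W3
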