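import Pool.Agent.Work.MP_69fea5_lc.W3.StmtsE

set_option autoImplicit false

namespace Pool.Agent.Work.MP_69fea5_lc.W3

open MeasureTheory Topology Set Filter ProbabilityTheory
open scoped NNReal ENNReal
open Pool.Agent.Work.MP_69fea5_lc.AK
open Pool.Agent.Work.MP_69fea5_lc.N3 (W2 bx sup2 St nxt Bl3 CaseII3 GRD)

namespace I_INI

variable {k : ℕ}

theorem cyl_one (r : Fin k) : (cyl [r] 0 : Set (Om k)) = {z | z 0 = r} := by
  ext z
  simp only [cyl, mem_setOf_eq]
  constructor
  · intro h
    simpa using h 0 r (by simp)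
  · intro h i a ha
    rcases i with _ | i
    · simp only [List.getElem?_cons_zero,
        Option.some.injEq] at ha
      subst ha
      simpa using h
    · simp at ha

theorem wt_list (C : Finset (Fin k)) (m : PM k) :
    wt (C.toList.map fun r => ([r] : Wd k)) m =
      ∏ r ∈ C, (m : Measure (Om k)) {z | z 0 = r} := by
  unfold wt
  rw [List.map_map, Finset.prod_eq_multiset_prod, ← Finset.coe_toList C, Multiset.map_coe,
    Multiset.prod_coe]
  congr 1
  refine List.map_congr_left fun r _ => ?_
  simp only [Function.comp]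
  rw [cyl_one]

theorem pos (h1 : S_SDB) (C : Finset (Fin k)) (κ : Measure (PM k)) [IsProbabilityMeasure κ]
    (h : 0 < ∫⁻ m, ∏ r ∈ C, (m : Measure (Om k)) {z | z 0 = r} ∂κ) :
    0 < sd κ (C.toList.map fun r => ([r] : Wd k)) univ := by
  rw [(h1 k κ _).2.2.1 univ MeasurableSet.univ]
  refine lt_of_lt_of_eq h (lintegral_congr fun m => ?_)
  rw [wt_list, measure_univ, mul_one]

end I_INI

open I_INI in
theorem INI_pf (h1 : S_SDB) : S_INI := by
  intro k X _ _ _ _ c x x1 μ0 μ1 μ2 C κ1 κ2 hE
  have := hE.p1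
  have := hE.p2
  refine ⟨C.toList.map fun r => [r], C.toList.map fun r => [r], univ, ?_⟩
  refine
    { closed := isClosed_univ
      inv := ?_
      mem1 := ?_
      mem2 := ?_
      pos1 := pos h1 C κ1 hE.q1
      pos2 := pos h1 C κ2 hE.q2
      car := ?_
      kil := ?_ }
  · intro n p _
    trivial
  · intro r hr
    exact List.mem_map.2 ⟨r, Finset.mem_toList.2 hr, rfl⟩
  · intro r hr
    exact List.mem_map.2 ⟨r, Finset.mem_toList.2 hr, rfl⟩
  · intro G w y _ _ _ _ τ _ _
    simp
  · exact Filter.Eventually.of_forall fun v _ => Finset.notMem_empty _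

end Pool.Agent.Work.MP_69fea5_lc.W3
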