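import Pool.Agent.Work.MP_69fea5_lc.W3.StmtsT

set_option autoImplicit false
set_option linter.unusedSectionVars false

namespace Pool.Agent.Work.MP_69fea5_lc.W3

open MeasureTheory Topology Set Filter TopologicalSpace
open scoped NNReal ENNReal
open Pool.Agent.Work.MP_69fea5_lc.AK

namespace I_ISA

variable {C X : Type} [TopologicalSpace C] [MeasurableSpace C] [CS C] [Sys C]
  [TopologicalSpace X] [MeasurableSpace X] [CS X] [Sys X]

/-- limits along ultrafilters exist -/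
theorem exists_lim {ι Y : Type} [TopologicalSpace Y] [CompactSpace Y] (G : Ultrafilter ι)
    (f : ι → Y) : ∃ y, Tendsto f (G : Filter ι) (𝓝 y) := by
  obtain ⟨y, -, hy⟩ := isCompact_univ.ultrafilter_le_nhds (G.map f) (by simp)
  exact ⟨y, hy⟩

/-- continuity of the metric along filters -/
theorem tendsto_d {J : Set (C × X)} {d : C → C → X → ℝ} (hJ : IPB J d) {ι : Type}
    {F : Filter ι} {f g : ι → C} {w : ι → X} {r r' : C} {x : X}
    (hf : ∀ i, (f i, w i) ∈ J) (hg : ∀ i, (g i, w i) ∈ J) (hr : (r, x) ∈ J) (hr' : (r', x) ∈ J)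
    (hfr : Tendsto f F (𝓝 r)) (hgr : Tendsto g F (𝓝 r')) (hw : Tendsto w F (𝓝 x)) :
    Tendsto (fun i => d (f i) (g i) (w i)) F (𝓝 (d r r' x)) := by
  have hc := hJ.cont (r, r', x) ⟨hr, hr'⟩
  refine Tendsto.comp (f := fun i => (f i, g i, w i))
    (y := 𝓝[{p : C × C × X | (p.1, p.2.2) ∈ J ∧ (p.2.1, p.2.2) ∈ J}] (r, r', x)) hc ?_
  exact tendsto_nhdsWithin_iff.2 ⟨hfr.prodMk_nhds (hgr.prodMk_nhds hw),
    Eventually.of_forall fun i => ⟨hf i, hg i⟩⟩

/-- distances are preserved by limits of shifts -/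
theorem dist_lim {J : Set (C × X)} {d : C → C → X → ℝ} (hJ : Isom J d) (G : Ultrafilter ℤ)
    {x x' : X} {s s' r r' : C} (hs : (s, x) ∈ J) (hs' : (s', x) ∈ J)
    (hx : Tendsto (fun n : ℤ => sh n x) (G : Filter ℤ) (𝓝 x'))
    (hr : Tendsto (fun n : ℤ => sh n s) (G : Filter ℤ) (𝓝 r))
    (hr' : Tendsto (fun n : ℤ => sh n s') (G : Filter ℤ) (𝓝 r')) :
    (r, x') ∈ J ∧ (r', x') ∈ J ∧ d r r' x' = d s s' x := by
  have h1 : (r, x') ∈ J := hJ.closed.mem_of_tendsto (hr.prodMk_nhds hx)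
    (Eventually.of_forall fun n => hJ.inv n (s, x) hs)
  have h2 : (r', x') ∈ J := hJ.closed.mem_of_tendsto (hr'.prodMk_nhds hx)
    (Eventually.of_forall fun n => hJ.inv n (s', x) hs')
  refine ⟨h1, h2, ?_⟩
  have h3 := tendsto_d hJ.ipb (fun n : ℤ => hJ.inv n (s, x) hs)
    (fun n : ℤ => hJ.inv n (s', x) hs') h1 h2 hr hr' hx
  have h4 : (fun n : ℤ => d (sh n s) (sh n s') (sh n x)) = fun _ => d s s' x := by
    funext n
    exact hJ.ipb.inv n x s s' hs hs'
  rw [h4] at h3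
  exact tendsto_nhds_unique h3 tendsto_const_nhds

/-- powers of an isometry of a fibre come back -/
theorem recur {J : Set (C × X)} {d : C → C → X → ℝ} (hJ : Isom J d) (x : X) (τ : C → C)
    (hτ : ∀ s, (s, x) ∈ J → (τ s, x) ∈ J)
    (hd : ∀ s s', (s, x) ∈ J → (s', x) ∈ J → d (τ s) (τ s') x = d s s' x)
    (t : C) (ht : (t, x) ∈ J) (K : Set (C × X)) (hK : IsClosed K) (hKJ : K ⊆ J)
    (hKt : ∀ n : ℕ, (τ^[n + 1] t, x) ∈ K) : (t, x) ∈ K := by
  have hit : ∀ (n : ℕ) (s : C), (s, x) ∈ J → (τ^[n] s, x) ∈ J := by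
    intro n
    induction n with
    | zero => exact fun s hs => hs
    | succ n ih =>
      intro s hs
      rw [Function.iterate_succ_apply]
      exact ih _ (hτ s hs)
  have hdi : ∀ (n : ℕ) (s s' : C), (s, x) ∈ J → (s', x) ∈ J →
      d (τ^[n] s) (τ^[n] s') x = d s s' x := by
    intro n
    induction n with
    | zero => exact fun s s' _ _ => rfl
    | succ n ih =>
      intro s s' hs hs'
      rw [Function.iterate_succ_apply, Function.iterate_succ_apply, ih _ _ (hτ s hs) (hτ s' hs'),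
        hd s s' hs hs']
  have hrec : ∀ ε : ℝ, 0 < ε → ∃ l : ℕ, d (τ^[l + 1] t) t x < ε := by
    intro ε hε
    obtain ⟨a, ha⟩ := exists_lim (hyperfilter ℕ) (fun n : ℕ => τ^[n] t)
    have haJ : (a, x) ∈ J := hJ.closed.mem_of_tendsto (ha.prodMk_nhds tendsto_const_nhds)
      (Eventually.of_forall fun n => hit n t ht)
    have h1 := tendsto_d hJ.ipb (fun n : ℕ => hit n t ht) (fun _ : ℕ => haJ) haJ haJ ha
      tendsto_const_nhds tendsto_const_nhds
    rw [hJ.ipb.self x a haJ] at h1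
    have h2 : ∀ᶠ n : ℕ in (hyperfilter ℕ : Filter ℕ), d (τ^[n] t) a x < ε / 2 :=
      h1.eventually (gt_mem_nhds (half_pos hε))
    obtain ⟨n, hn⟩ := h2.exists
    have h3 : ∀ᶠ m : ℕ in (hyperfilter ℕ : Filter ℕ), n < m := by
      have : (hyperfilter ℕ : Filter ℕ) ≤ atTop := by
        rw [← Nat.cofinite_eq_atTop]
        exact hyperfilter_le_cofinite
      exact this (eventually_gt_atTop n)
    obtain ⟨m, hm, hnm⟩ := (h2.and h3).exists
    obtain ⟨l, rfl⟩ := Nat.exists_eq_add_of_lt hnm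
    refine ⟨l, ?_⟩
    have h4 : d (τ^[n] t) (τ^[n] (τ^[l + 1] t)) x = d t (τ^[l + 1] t) x :=
      hdi n t _ ht (hit _ t ht)
    have h5 : τ^[n] (τ^[l + 1] t) = τ^[n + l + 1] t := by
      rw [← Function.iterate_add_apply]
      rfl
    rw [hJ.ipb.symm x _ _ (hit _ t ht) ht, ← h4, h5]
    have h6 := hJ.ipb.tri x (τ^[n] t) a (τ^[n + l + 1] t) (hit _ t ht) haJ (hit _ t ht)
    have h7 := hJ.ipb.symm x a (τ^[n + l + 1] t) haJ (hit _ t ht)
    rw [h7] at h6
    linarith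
  choose l hl using fun j : ℕ => hrec (1 / ((j : ℝ) + 1)) (by positivity)
  obtain ⟨s, hs⟩ := exists_lim (hyperfilter ℕ) (fun j : ℕ => τ^[l j + 1] t)
  have hsK : (s, x) ∈ K := hK.mem_of_tendsto (hs.prodMk_nhds tendsto_const_nhds)
    (Eventually.of_forall fun j => hKt (l j))
  have h1 := tendsto_d hJ.ipb (fun j : ℕ => hKJ (hKt (l j))) (fun _ : ℕ => ht) (hKJ hsK) ht hs
    tendsto_const_nhds tendsto_const_nhds
  have h2 : Tendsto (fun j : ℕ => (1 : ℝ) / ((j : ℝ) + 1)) (hyperfilter ℕ : Filter ℕ) (𝓝 0) := by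
    have : (hyperfilter ℕ : Filter ℕ) ≤ atTop := by
      rw [← Nat.cofinite_eq_atTop]
      exact hyperfilter_le_cofinite
    exact tendsto_one_div_add_atTop_nhds_zero_nat.mono_left this
  have h3 : Tendsto (fun j : ℕ => d (τ^[l j + 1] t) t x) (hyperfilter ℕ : Filter ℕ) (𝓝 0) := by
    refine tendsto_of_tendsto_of_tendsto_of_le_of_le tendsto_const_nhds h2 ?_ ?_
    · intro j
      exact hJ.ipb.nonneg x _ _ (hit _ t ht) ht
    · intro j
      exact (hl j).le
  have h4 : d s t x = 0 := tendsto_nhds_unique h1 h3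
  rw [← hJ.sep x s t (hKJ hsK) ht h4]
  exact hsK

end I_ISA

theorem ISA_pf (hORB : AK.S_ORB) (hULT : S_ULT) : S_ISA := by
  intro C X _ _ _ _ _ _ _ _ J d hJ p hp
  obtain ⟨t, x⟩ := p
  obtain ⟨hoc, hoi, hom, -, -, -, -⟩ := hORB (C × X) (t, x)
  have hoJ : orb (t, x) ⊆ J := (hORB (C × X) (t, x)).2.2.2.1 J hJ.closed hJ.inv hp
  refine ⟨hoc, ⟨_, hom⟩, hoi, ?_⟩
  intro L hLc hLn hLi hLo
  refine Set.Subset.antisymm hLo ?_
  obtain ⟨⟨t', x'⟩, hp'⟩ := hLn
  -- it suffices that the point is in the orbit closure of the second point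
  have hmain : (t, x) ∈ orb (t', x') := by
    obtain ⟨G, hG⟩ := ((hULT (C × X)).1 (t, x) (t', x')).1 (hLo hp')
    have hG1 : Tendsto (fun n : ℤ => sh n t) (G : Filter ℤ) (𝓝 t') :=
      (continuous_fst.tendsto (t', x')).comp hG
    have hG2 : Tendsto (fun n : ℤ => sh n x) (G : Filter ℤ) (𝓝 x') :=
      (continuous_snd.tendsto (t', x')).comp hG
    have hx'B : x' ∈ Prod.snd '' J := ⟨(t', x'), hoJ (hLo hp'), rfl⟩
    have hxB : x ∈ Prod.snd '' J := ⟨(t, x), hp, rfl⟩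
    have hxo : x ∈ orb x' := by
      rw [(hORB X x').2.2.2.2.1 _ hJ.base hx'B]
      exact hxB
    obtain ⟨H, hH⟩ := ((hULT X).1 x' x).1 hxo
    choose a ha using fun s : C => I_ISA.exists_lim G (fun n : ℤ => sh n s)
    choose b hb using fun s : C => I_ISA.exists_lim H (fun n : ℤ => sh n s)
    -- the map of the fibre to itself
    have hat : a t = t' := tendsto_nhds_unique (ha t) hG1
    have h1 : ∀ s s', (s, x) ∈ J → (s', x) ∈ J →
        (b (a s), x) ∈ J ∧ d (b (a s)) (b (a s')) x = d s s' x := by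
      intro s s' hs hs'
      obtain ⟨h1, h2, h3⟩ := I_ISA.dist_lim hJ G hs hs' hG2 (ha s) (ha s')
      obtain ⟨h4, h5, h6⟩ := I_ISA.dist_lim hJ H h1 h2 hH (hb (a s)) (hb (a s'))
      exact ⟨h4, h6.trans h3⟩
    have h2 : ∀ s, (a s, x') ∈ orb (t', x') → (b (a s), x) ∈ orb (t', x') := by
      intro s hs
      exact ((hORB (C × X) (t', x')).1).mem_of_tendsto ((hb (a s)).prodMk_nhds hH)
        (Eventually.of_forall fun n => (hORB (C × X) (t', x')).2.1 n _ hs)
    have h3 : ∀ s, (s, x) ∈ orb (t', x') → (a s, x') ∈ orb (t', x') := by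
      intro s hs
      exact ((hORB (C × X) (t', x')).1).mem_of_tendsto ((ha s).prodMk_nhds hG2)
        (Eventually.of_forall fun n => (hORB (C × X) (t', x')).2.1 n _ hs)
    refine I_ISA.recur hJ x (fun s => b (a s)) (fun s hs => (h1 s s hs hs).1)
      (fun s s' hs hs' => (h1 s s' hs hs').2) t hp (orb (t', x')) (hORB (C × X) (t', x')).1
      ((hORB (C × X) (t', x')).2.2.2.1 J hJ.closed hJ.inv (hoJ (hLo hp'))) ?_
    intro n
    induction n with
    | zero =>
      change (b (a t), x) ∈ orb (t', x')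
      refine h2 t ?_
      rw [hat]
      exact (hORB (C × X) (t', x')).2.2.1
    | succ n ih =>
      rw [Function.iterate_succ_apply']
      exact h2 _ (h3 _ ih)
  have h1 : orb (t', x') ⊆ L := (hORB (C × X) (t', x')).2.2.2.1 L hLc hLi hp'
  exact (hORB (C × X) (t, x)).2.2.2.1 L hLc hLi (h1 hmain)

end Pool.Agent.Work.MP_69fea5_lc.W3
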