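import Pool.Agent.Work.MP_69fea5_lc.W3.StmtsT

/-!
# Block [69fea5 T], item JCT: countably many measures on one fibre are contracted together
-/

set_option autoImplicit false

namespace Pool.Agent.Work.MP_69fea5_lc.W3

open MeasureTheory Topology Set Filter TopologicalSpace
open scoped NNReal ENNReal BoundedContinuousFunction
open Pool.Agent.Work.MP_69fea5_lc.AK

namespace I_JCT

section

variable {X' : Type} [TopologicalSpace X'] [MeasurableSpace X'] [CS X'] [Sys X']

theorem sh_coe (n : ℤ) (m : ProbabilityMeasure X') :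
    ((sh n m : ProbabilityMeasure X') : Measure X') = (m : Measure X').map (sh n : X' → X') := rfl

theorem sh_dirac (n : ℤ) (z : X') : sh n (diracProba z) = diracProba (sh n z) := by
  apply Subtype.ext
  change Measure.map (sh n : X' → X') (Measure.dirac z) = Measure.dirac (sh n z)
  exact Measure.map_dirac' (sh_cont n).measurable z

theorem tends_of_dirac (G : Filter ℤ) (e e'' : X')
    (h : Tendsto (fun n : ℤ => (diracProba (sh n e) : ProbabilityMeasure X')) G
      (𝓝 (diracProba e''))) : Tendsto (fun n : ℤ => sh n e) G (𝓝 e'') := by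
  have h1 : Tendsto (diracProba : X' → ProbabilityMeasure X') (G.map fun n : ℤ => sh n e)
      (𝓝 (diracProba e'')) := tendsto_map'_iff.2 h
  have h2 := (tendsto_diracProba_iff_tendsto (G.map fun n : ℤ => sh n e)).1 h1
  exact tendsto_map'_iff.1 h2

/-- the weights -/
noncomputable def wt2 (i : ℕ) : ℝ≥0∞ := (2 : ℝ≥0∞)⁻¹ ^ (i + 1)

theorem tsum_wt2 : ∑' i : ℕ, wt2 i = 1 := by
  unfold wt2
  exact ENNReal.tsum_geometric_add_one _ |>.trans (by
    rw [ENNReal.one_sub_inv_two, inv_inv, ENNReal.inv_mul_cancel (by simp) (by simp)])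

theorem wt2_ne_top (i : ℕ) : wt2 i ≠ ⊤ := by
  unfold wt2
  exact ENNReal.pow_ne_top (by simp)

theorem wt2_ne_zero (i : ℕ) : wt2 i ≠ 0 := by
  unfold wt2
  exact pow_ne_zero _ (by simp)

/-- the mixture -/
noncomputable def mix (ν : ℕ → ProbabilityMeasure X') : ProbabilityMeasure X' :=
  ⟨Measure.sum fun i => wt2 i • (ν i : Measure X'), ⟨by
    rw [Measure.sum_apply _ MeasurableSet.univ]
    simp only [Measure.smul_apply, measure_univ, smul_eq_mul, mul_one]
    exact tsum_wt2⟩⟩

theorem le_mix (ν : ℕ → ProbabilityMeasure X') (i : ℕ) :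
    wt2 i • (ν i : Measure X') ≤ (mix ν : Measure X') :=
  Measure.le_sum (fun i => wt2 i • (ν i : Measure X')) i

theorem coe_one (m : ProbabilityMeasure X') (S : Set X') :
    m S = 1 ↔ (m : Measure X') S = 1 := by
  rw [← ProbabilityMeasure.ennreal_coeFn_eq_coeFn_toMeasure]
  exact_mod_cast Iff.rfl

theorem mix_one (ν : ℕ → ProbabilityMeasure X') (S : Set X') (h : ∀ i, ν i S = 1) :
    mix ν S = 1 := by
  rw [coe_one]
  apply le_antisymm prob_le_one
  calc (1 : ℝ≥0∞) = ∑' i : ℕ, wt2 i := tsum_wt2.symm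
    _ = ∑' i : ℕ, (wt2 i • (ν i : Measure X')) S := by
      refine tsum_congr fun i => ?_
      rw [Measure.smul_apply, (coe_one _ _).1 (h i), smul_eq_mul, mul_one]
    _ ≤ (Measure.sum fun i => wt2 i • (ν i : Measure X')) S := Measure.le_sum_apply _ _

/-- if the mixture is contracted then every component is -/
theorem contr (ν : ℕ → ProbabilityMeasure X') (G : Filter ℤ) (e : X')
    (h : Tendsto (fun n => sh n (mix ν)) G (𝓝 (diracProba e))) (i : ℕ) :
    Tendsto (fun n => sh n (ν i)) G (𝓝 (diracProba e)) := by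
  rw [ProbabilityMeasure.tendsto_iff_forall_integral_tendsto] at h ⊢
  intro g
  set f : X' →ᵇ ℝ := (g - BoundedContinuousFunction.const X' (g e)).normComp with hf
  have hfx : ∀ x, f x = |g x - g e| := fun x => rfl
  have hf0 : ∀ x, 0 ≤ f x := fun x => by rw [hfx]; exact abs_nonneg _
  have hd : ∀ (u : X' →ᵇ ℝ), ∫ x, u x ∂((diracProba e : ProbabilityMeasure X') : Measure X') =
      u e := fun u => integral_dirac _ _
  have h1 := h f
  rw [hd f, hfx e, sub_self, abs_zero] at h1
  have key : ∀ n : ℤ, |∫ x, g x ∂((sh n (ν i) : ProbabilityMeasure X') : Measure X') - g e| ≤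
      (wt2 i).toReal⁻¹ * ∫ x, f x ∂((sh n (mix ν) : ProbabilityMeasure X') : Measure X') := by
    intro n
    have hpos : 0 < (wt2 i).toReal := ENNReal.toReal_pos (wt2_ne_zero i) (wt2_ne_top i)
    have hle : wt2 i • ((sh n (ν i) : ProbabilityMeasure X') : Measure X') ≤
        ((sh n (mix ν) : ProbabilityMeasure X') : Measure X') := by
      rw [sh_coe, sh_coe, ← Measure.map_smul]
      exact Measure.map_mono (le_mix ν i) (sh_cont n).measurable
    have h2 : ∫ x, f x ∂(wt2 i • ((sh n (ν i) : ProbabilityMeasure X') : Measure X')) ≤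
        ∫ x, f x ∂((sh n (mix ν) : ProbabilityMeasure X') : Measure X') :=
      integral_mono_measure hle (Filter.Eventually.of_forall hf0) (f.integrable _)
    rw [integral_smul_measure] at h2
    have h3 : ∫ x, g x ∂((sh n (ν i) : ProbabilityMeasure X') : Measure X') - g e =
        ∫ x, (g x - g e) ∂((sh n (ν i) : ProbabilityMeasure X') : Measure X') := by
      rw [integral_sub (g.integrable _) (integrable_const _), integral_const]
      simp
    rw [h3]
    calc |∫ x, (g x - g e) ∂((sh n (ν i) : ProbabilityMeasure X') : Measure X')|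
        ≤ ∫ x, |g x - g e| ∂((sh n (ν i) : ProbabilityMeasure X') : Measure X') :=
          abs_integral_le_integral_abs
      _ = ∫ x, f x ∂((sh n (ν i) : ProbabilityMeasure X') : Measure X') := rfl
      _ ≤ _ := by
        rw [smul_eq_mul] at h2
        rw [inv_mul_eq_div, le_div_iff₀ hpos, mul_comm]
        exact h2
  rw [hd g, tendsto_iff_norm_sub_tendsto_zero]
  have h4 := h1.const_mul ((wt2 i).toReal⁻¹)
  rw [mul_zero] at h4
  exact squeeze_zero (fun n => norm_nonneg _) (fun n => key n) h4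

end

end I_JCT

theorem JCT_pf (hULT : S_ULT) : S_JCT := by
  intro X' _ _ _ _ Y E p hE
  have h1 : ∀ (x : Y) (ν : ℕ → ProbabilityMeasure X'), (∀ i, ν i {e | e ∈ E ∧ p e = x} = 1) →
      ∃ (G : Ultrafilter ℤ) (e : X'), ∀ i,
        Tendsto (fun n => sh n (ν i)) (G : Filter ℤ) (𝓝 (diracProba e)) := by
    intro x ν hν
    obtain ⟨e, he⟩ := hE x (I_JCT.mix ν) (I_JCT.mix_one ν _ hν)
    obtain ⟨G, hG⟩ := ((hULT (ProbabilityMeasure X')).1 _ _).1 he
    exact ⟨G, e, fun i => I_JCT.contr ν G e hG i⟩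
  refine ⟨h1, ?_⟩
  intro e he e' he' hp
  have hdir : ∀ z : X', z ∈ E → p z = p e →
      (diracProba z : ProbabilityMeasure X') {w | w ∈ E ∧ p w = p e} = 1 := by
    intro z hz hpz
    rw [I_JCT.coe_one]
    exact Measure.dirac_apply_of_mem ⟨hz, hpz⟩
  obtain ⟨G, e'', hG⟩ := h1 (p e) (fun i => if i = 0 then diracProba e else diracProba e')
    (fun i => by
      split_ifs
      · exact hdir e he rfl
      · exact hdir e' he' hp.symm)
  have t1 : Tendsto (fun n : ℤ => sh n e) (G : Filter ℤ) (𝓝 e'') := by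
    have := hG 0
    simp only [if_true] at this
    exact I_JCT.tends_of_dirac G e e'' (this.congr fun n => I_JCT.sh_dirac n e)
  have t2 : Tendsto (fun n : ℤ => sh n e') (G : Filter ℤ) (𝓝 e'') := by
    have := hG 1
    simp only [one_ne_zero, if_false] at this
    exact I_JCT.tends_of_dirac G e' e'' (this.congr fun n => I_JCT.sh_dirac n e')
  exact ⟨e'', ((hULT (X' × X')).1 _ _).2 ⟨G, t1.prodMk_nhds t2⟩⟩

end Pool.Agent.Work.MP_69fea5_lc.W3
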