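import Pool.Agent.Work.MP_69fea5_lc.W3.StmtsF1

/-!
# [69fea5 F1 JMC] the joint laws
-/

set_option autoImplicit false

namespace Pool.Agent.Work.MP_69fea5_lc.W3

open MeasureTheory Topology Set Filter TopologicalSpace
open scoped NNReal ENNReal
open Pool.Agent.Work.MP_69fea5_lc.AK

theorem JMC_pf (h1 : S_AUT) (h2 : S_PMG) : S_JMC := by
  intro O Y C X' _ _ _ _ _ _ _ _ _ _ _ _ _ _ _ _ A ms θ v₀ E q lm h
  have hc : Continuous (jm q lm) :=
    ProbabilityMeasure.continuous_prod.comp
      (h.cont.prodMk (continuous_diracProba.comp h.spx.cont))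
  have he : ∀ (n : ℤ) (e : X'), jm q lm (sh n e) = sh n (jm q lm e) := by
    intro n e
    apply Subtype.ext
    unfold jm
    rw [h.equi, h.spx.equi, ← (h2 (Y × (ℕ → C))).2.1 n (q e)]
    change ((lm e : Measure O).map (sh n : O → O)).prod
      ((diracProba (q e) : Measure (Y × (ℕ → C))).map
        (sh n : Y × (ℕ → C) → Y × (ℕ → C))) =
      ((lm e : Measure O).prod (diracProba (q e) : Measure (Y × (ℕ → C)))).map
        (sh n : O × (Y × (ℕ → C)) → O × (Y × (ℕ → C)))
    rw [Measure.map_prod_map _ _ (sh_cont n).measurable (sh_cont n).measurable]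
    rfl
  have hE : IsCompact E := h.spx.min.closed.isCompact
  have hcont : Continuous fun e => ((q e).1, jm q lm e) :=
    (continuous_fst.comp h.spx.cont).prodMk hc
  obtain ⟨d, hd⟩ := h.pha.iso
  obtain ⟨-, -, hfst, -⟩ := h1 C Y (JJ A θ) d hd v₀ h.frm
  have hJ : (Prod.snd '' JJ A θ : Set Y) = Prod.snd '' A := by
    unfold JJ
    rw [image_image]
  have hfe : Prod.fst '' FE E q lm = (Prod.snd '' A : Set Y) := by
    unfold FE
    rw [image_image]
    change (fun e => (q e).1) '' E = _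
    rw [← hJ, ← hfst, ← h.base, image_image]
  refine ⟨hc, he, (hE.image hcont).isClosed, ?_, ?_, hfe⟩
  · rintro n _ ⟨e, he', rfl⟩
    refine ⟨sh n e, h.spx.min.inv n e he', ?_⟩
    change ((q (sh n e)).1, jm q lm (sh n e)) = (sh n (q e).1, sh n (jm q lm e))
    rw [he, h.spx.equi]
    rfl
  · rw [hfe, ← hJ]
    exact hd.base

end Pool.Agent.Work.MP_69fea5_lc.W3
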