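import Pool.Agent.Work.MP_69fea5_lc.W3.StmtsM
import Pool.Agent.Work.MP_69fea5_lc.W3.CodX
import Pool.Agent.Work.MP_69fea5_lc.AK.I_DNS82
import Pool.Agent.Work.MP_69fea5_lc.KC.I_CON
import Pool.Agent.Work.MP_69fea5_lc.KC.I_CONF
import Pool.Agent.Work.MP_69fea5_lc.N3.I_USG

/-!
# Item [69fea5 M KDC]: good decompositions can be chosen coded
-/

set_option autoImplicit false
set_option linter.unusedSectionVars false
set_option linter.unusedVariables false
set_option linter.deprecated false

namespace Pool.Agent.Work.MP_69fea5_lc.W3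

open MeasureTheory Topology Set Filter TopologicalSpace
open scoped NNReal ENNReal
open Pool.Agent.Work.MP_69fea5_lc
open Pool.Agent.Work.MP_69fea5_lc.AK
open Pool.Agent.Work.MP_69fea5_lc.HK (Cl DU Ar ArF ArR Dat Law LawC act near sc Pt oc Mn mr ext)
open Pool.Agent.Work.MP_69fea5_lc.KC (Agree)

namespace I_KDC

theorem sum_count {n : ℕ} (l : List (Fin n)) (f : Fin n → ℝ) :
    (l.map f).sum = ∑ j, (l.count j : ℝ) * f j := by
  induction l with
  | nil => simp
  | cons a l ih =>
    rw [List.map_cons, List.sum_cons, ih]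
    have h : ∀ j, ((a :: l).count j : ℝ) * f j = (if a = j then f j else 0) + l.count j * f j := by
      intro j
      rw [List.count_cons]
      by_cases h : a = j
      · subst h
        simp
        ring
      · simp [h]
    simp only [h, Finset.sum_add_distrib]
    simp

section dens

variable {α : Type} [TopologicalSpace α] [MeasurableSpace α] [CS α] [Dat α] [TF α] [Law α]

theorem mo_diracProba (x : α) (i : TF.ι α) : mo (diracProba x) i = TF.fn i x := by
  unfold mo
  exact integral_dirac _ _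

theorem mo_comb {n : ℕ} (x : Fin n → α) (w : Fin n → ℝ≥0) (ν : ProbabilityMeasure α)
    (h : (ν : Measure α) = ∑ i, (w i : ℝ≥0∞) • Measure.dirac (x i)) (i : TF.ι α) :
    mo ν i = ∑ j, (w j : ℝ) * TF.fn i (x j) := by
  unfold mo
  rw [h, integral_finset_sum_measure]
  · refine Finset.sum_congr rfl fun j _ => ?_
    rw [integral_smul_measure, integral_dirac]
    simp
  · intro j _
    refine Integrable.smul_measure ?_ (by simp)
    exact (tb i).integrable _

/-- measures with finite support are limits of averages -/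
theorem approx_avg {n : ℕ} (x : Fin n → α) (w : Fin n → ℝ≥0) (ν : ProbabilityMeasure α)
    (hw : ∑ i, w i = 1) (h : (ν : Measure α) = ∑ i, (w i : ℝ≥0∞) • Measure.dirac (x i))
    (U : Set (ProbabilityMeasure α)) (hU : U ∈ 𝓝 ν) :
    ∃ l : Fin n × List (Fin n), mxP (fun j => diracProba (x j)) l ∈ U := by
  obtain ⟨L, hL⟩ := Law.near_basis ν U hU
  obtain ⟨l, hl, -, hl'⟩ := I_DNS82.approx (fun j => (w j : ℝ)) (fun j => NNReal.coe_nonneg _)
    (by exact_mod_cast hw) (1 / (((L : ℝ) + 1) * ((n : ℝ) + 1))) (by positivity)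
  obtain ⟨a, t, rfl⟩ := List.exists_cons_of_ne_nil hl
  refine ⟨(a, t), hL _ ?_⟩
  intro i _
  rw [mo_comb x w ν h i, mo_mxP]
  simp only [mo_diracProba]
  rw [sum_count, Finset.sum_div, ← Finset.sum_sub_distrib]
  have hlen : (((a :: t).length : ℕ) : ℝ) = (t.length : ℝ) + 1 := by simp
  have h1 : ∀ j, |(w j : ℝ) * TF.fn i (x j) - ((a :: t).count j : ℝ) * TF.fn i (x j) /
      ((t.length : ℝ) + 1)| ≤ 1 / (((L : ℝ) + 1) * ((n : ℝ) + 1)) := by
    intro j
    have h2 := (hl' j).le
    rw [hlen] at h2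
    have h3 : (w j : ℝ) * TF.fn i (x j) - ((a :: t).count j : ℝ) * TF.fn i (x j) /
        ((t.length : ℝ) + 1) = -((((a :: t).count j : ℝ) / ((t.length : ℝ) + 1) - w j) *
          TF.fn i (x j)) := by ring
    rw [h3, abs_neg, abs_mul, abs_of_nonneg (TF.nn i (x j))]
    calc _ ≤ |((a :: t).count j : ℝ) / ((t.length : ℝ) + 1) - w j| * 1 :=
          mul_le_mul_of_nonneg_left (TF.le _ _) (abs_nonneg _)
      _ ≤ _ := by rw [mul_one]; exact h2
  calc |∑ j, ((w j : ℝ) * TF.fn i (x j) - ((a :: t).count j : ℝ) * TF.fn i (x j) /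
        ((t.length : ℝ) + 1))|
      ≤ ∑ j : Fin n, 1 / (((L : ℝ) + 1) * ((n : ℝ) + 1)) :=
        (Finset.abs_sum_le_sum_abs _ _).trans (Finset.sum_le_sum fun j _ => h1 j)
    _ = n / (((L : ℝ) + 1) * ((n : ℝ) + 1)) := by
        rw [Finset.sum_const, Finset.card_univ, Fintype.card_fin, nsmul_eq_mul]
        ring
    _ < 1 / ((L : ℝ) + 1) := by
        rw [div_lt_div_iff₀ (by positivity) (by positivity)]
        have : (0 : ℝ) < (L : ℝ) + 1 := by positivity
        nlinarith

theorem continuous_mxP_dirac {n : ℕ} (l : Fin n × List (Fin n)) :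
    Continuous fun x : Fin n → α => mxP (fun j => diracProba (x j)) l := by
  rw [(isInducing_mo (α := α)).continuous_iff]
  refine continuous_pi fun i => ?_
  show Continuous fun x : Fin n → α => mo (mxP (fun j => diracProba (x j)) l) i
  simp only [mo_mxP, mo_diracProba]
  refine Continuous.div_const ?_ _
  generalize (l.1 :: l.2) = L
  induction L with
  | nil => simpa using continuous_const
  | cons a L ih =>
    simp only [List.map_cons, List.sum_cons]
    exact ((TF.cont i).comp (continuous_apply a)).add ih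

/-- averages of point masses of a family are dense in the measures on its closure -/
theorem dens (h1 : S_FSD) {ι : Type} (u : ι → α) (I : Set ι) (ν : ProbabilityMeasure α)
    (hν : ν (closure (u '' I)) = 1) (U : Set (ProbabilityMeasure α)) (hU : U ∈ 𝓝 ν) :
    ∃ p : ι × List ι, (∀ i ∈ p.1 :: p.2, i ∈ I) ∧ mxP (fun i => diracProba (u i)) p ∈ U := by
  obtain ⟨n, x, w, ν', hν', hx, hw, hm⟩ := h1 α (closure (u '' I)) ν isClosed_closure hν
    (interior U) (interior_mem_nhds.2 hU)
  obtain ⟨l, hl⟩ := approx_avg x w ν' hw hm (interior U) (isOpen_interior.mem_nhds hν')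
  have h2 : (fun x : Fin n → α => mxP (fun j => diracProba (x j)) l) ⁻¹' interior U ∈ 𝓝 x :=
    (continuous_mxP_dirac l).continuousAt.preimage_mem_nhds (isOpen_interior.mem_nhds hl)
  have h3 : x ∈ closure (Set.pi Set.univ fun _ : Fin n => u '' I) := by
    rw [closure_pi_set]
    exact fun j _ => hx j
  obtain ⟨x', h4, h5⟩ := mem_closure_iff_nhds.1 h3 _ h2
  choose J hJ hJ' using fun j => h5 j (Set.mem_univ j)
  refine ⟨(J l.1, l.2.map J), ?_, ?_⟩
  · intro i hi
    simp only [List.mem_cons, List.mem_map] at hi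
    rcases hi with rfl | ⟨j, -, rfl⟩
    · exact hJ _
    · exact hJ _
  · have h6 : mxP (fun i => diracProba (u i)) (J l.1, l.2.map J) =
        mxP (fun j => diracProba (x' j)) l := by
      apply Subtype.ext
      show mxM (fun i => diracProba (u i)) (J l.1, l.2.map J) =
        mxM (fun j => diracProba (x' j)) l
      unfold mxM
      simp only [List.length_map, List.map_cons, List.map_map]
      congr 3
      · rw [hJ']
      · refine List.map_congr_left fun j _ => ?_
        simp only [Function.comp, hJ']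
    rw [h6]
    exact interior_subset h4

end dens

section moments

variable {k : ℕ}

theorem ofReal_fn (l : List (HK.C k)) (m : PM k) :
    ENNReal.ofReal (TF.fn (α := PM k) l m) =
      (l.map fun P => (m : Measure (Om k)) (HK.cyl P)).prod := by
  show ENNReal.ofReal ((l.map fun P => mr m (HK.cyl P)).prod) = _
  induction l with
  | nil => simp
  | cons P l ih =>
    simp only [List.map_cons, List.prod_cons]
    rw [ENNReal.ofReal_mul (HK.mr_nonneg _ _), ih]
    congr 1
    exact ofReal_measureReal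

theorem ofReal_mo (κ : ProbabilityMeasure (PM k)) (l : List (HK.C k)) :
    ENNReal.ofReal (mo κ l) =
      ∫⁻ m, (l.map fun P => (m : Measure (Om k)) (HK.cyl P)).prod ∂(κ : Measure (PM k)) := by
  unfold mo
  rw [ofReal_integral_eq_lintegral_ofReal (integrable_fn κ l)
    (Eventually.of_forall fun m => TF.nn _ _)]
  exact lintegral_congr fun m => ofReal_fn l m

/-- the word of the colours of `C` -/
noncomputable def lC (C : Finset (Fin k)) : List (HK.C k) := C.toList.map fun r => [((0 : ℤ), r)]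

theorem pC_eq (C : Finset (Fin k)) (κ : ProbabilityMeasure (PM k)) :
    pC C κ = ENNReal.ofReal (mo κ (lC C)) := by
  rw [ofReal_mo]
  unfold pC lC
  refine lintegral_congr fun m => ?_
  rw [List.map_map, ← Finset.prod_map_toList]
  congr 1
  refine List.map_congr_left fun r _ => ?_
  simp only [Function.comp]
  congr 1
  ext z
  simp [HK.cyl]

theorem measurable_prod (l : List (HK.C k)) :
    Measurable fun m : PM k => (l.map fun P => (m : Measure (Om k)) (HK.cyl P)).prod := by
  have h : Measurable fun m : PM k => ENNReal.ofReal (TF.fn (α := PM k) l m) :=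
    ENNReal.measurable_ofReal.comp (TF.cont (α := PM k) l).measurable
  simpa only [ofReal_fn] using h

theorem sd_cyl (κ : ProbabilityMeasure (PM k)) (F : List (Wd k)) (P : HK.C k) :
    (sd (κ : Measure (PM k)) F).real (HK.cyl P) = mo κ ((F.map fun w => KC.con w 0) ++ [P]) := by
  have hwt : ∀ m : PM k, wt F m =
      ((F.map fun w => KC.con w 0).map fun P => (m : Measure (Om k)) (HK.cyl P)).prod := by
    intro m
    unfold wt
    rw [List.map_map]
    congr 1
    refine List.map_congr_left fun w _ => ?_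
    simp only [Function.comp, KC.CON_pf k w 0]
  have hm : Measurable (wt F) := by
    have e : wt F = fun m : PM k =>
        ((F.map fun w => KC.con w 0).map fun P => (m : Measure (Om k)) (HK.cyl P)).prod :=
      funext hwt
    rw [e]
    exact measurable_prod _
  have hP : MeasurableSet (HK.cyl P : Set (Om k)) := HK.I_MEASW.measurable_cyl P
  have hmc : Measurable fun m : PM k => (m : Measure (Om k)) (HK.cyl P) := by
    simpa using measurable_prod [P]
  have h1 : sd (κ : Measure (PM k)) F (HK.cyl P) =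
      ENNReal.ofReal (mo κ ((F.map fun w => KC.con w 0) ++ [P])) := by
    unfold sd
    have hsc : Measurable fun m : PM k => (m : Measure (Om k)) := measurable_subtype_coe
    rw [Measure.bind_apply hP hsc.aemeasurable,
      lintegral_withDensity_eq_lintegral_mul _ hm hmc, ofReal_mo]
    refine lintegral_congr fun m => ?_
    simp only [Pi.mul_apply, hwt, List.map_append, List.prod_append, List.map_cons, List.map_nil,
      List.prod_cons, List.prod_nil, mul_one]
  unfold Measure.real
  rw [h1, ENNReal.toReal_ofReal (mo_nn _ _)]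

theorem bar_mo {κ : ProbabilityMeasure (PM k)} {m : PM k} (h : Bar κ id m) (P : HK.C k) :
    mo κ [P] = mr m (HK.cyl P) := by
  have hP : MeasurableSet (HK.cyl P : Set (Om k)) := HK.I_MEASW.measurable_cyl P
  have h1 : (m : Measure (Om k)) (HK.cyl P) = ENNReal.ofReal (mo κ [P]) := by
    have hsc : Measurable fun m : PM k => (m : Measure (Om k)) := measurable_subtype_coe
    rw [← h, ofReal_mo]
    simp only [id]
    rw [Measure.bind_apply hP hsc.aemeasurable]
    refine lintegral_congr fun m => ?_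
    simp
  show mo κ [P] = (m : Measure (Om k)).real (HK.cyl P)
  unfold Measure.real
  rw [h1, ENNReal.toReal_ofReal (mo_nn _ _)]

theorem fn_one (P : HK.C k) (m : PM k) : TF.fn (α := PM k) [P] m = mr m (HK.cyl P) := by
  show ([P].map fun P => mr m (HK.cyl P)).prod = _
  simp

/-- the barycentre of an average of point masses -/
theorem mo_avg {ι : Type} [Primcodable ι] (u : ι → PM k) (p : ι × List ι) (P : HK.C k) :
    mo (mxP (fun i => (diracProba (u i) : ProbabilityMeasure (PM k))) p) [P] =
      mr (mxP u p) (HK.cyl P) := by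
  rw [← mo_om, mo_mxP, mo_mxP]
  simp only [mo_om]
  congr 2
  refine List.map_congr_left fun i _ => ?_
  rw [mo_diracProba, fn_one]

end moments

section limits

variable {k : ℕ} {Y : Type} [TopologicalSpace Y] [MeasurableSpace Y] [Sys Y] [Dat Y] [CSys Y]

/-- the members over points near `y` -/
def KN (F : Set (Y × PM k)) (y : Y) (N : ℕ) : Set (PM k) :=
  closure {m | ∃ y', near N y' y ∧ (y', m) ∈ F}

theorem mem_of_KN {F : Set (Y × PM k)} (hF : IsClosed F) {y : Y} {m : PM k}
    (h : ∀ N, m ∈ KN F y N) : (y, m) ∈ F := by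
  rw [← hF.closure_eq]
  refine mem_closure_iff_nhds.2 fun W hW => ?_
  rw [nhds_prod_eq, Filter.mem_prod_iff] at hW
  obtain ⟨V, hV, V', hV', hsub⟩ := hW
  obtain ⟨N, hN⟩ := Law.near_basis y V hV
  obtain ⟨m', h1, y', h2, h3⟩ := mem_closure_iff_nhds.1 (h N) _ hV'
  exact ⟨(y', m'), hsub ⟨hN _ (Law.near_symm _ _ _ h2), h1⟩, h3⟩

theorem mxP_one {α ι : Type} [TopologicalSpace α] [MeasurableSpace α] [CS α]
    (m : ι → ProbabilityMeasure α) (p : ι × List ι) (B : Set α)
    (h : ∀ i ∈ p.1 :: p.2, (m i : Measure α) B = 1) : (mxP m p : Measure α) B = 1 := by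
  rw [mxP_apply]
  have h1 : ((p.1 :: p.2).map fun i => (m i : Measure α) B).sum =
      ((p.2.length + 1 : ℕ) : ℝ≥0∞) := by
    rw [List.sum_eq_card_nsmul _ 1 (by
      intro x hx
      obtain ⟨i, hi, rfl⟩ := List.mem_map.1 hx
      exact h i hi)]
    simp
  rw [h1]
  exact ENNReal.inv_mul_cancel (by simp) (by simp)

theorem closed_one {α : Type} [TopologicalSpace α] [MeasurableSpace α] [CS α] {K : Set α}
    (hK : IsClosed K) : IsClosed {ν : ProbabilityMeasure α | (ν : Measure α) K = 1} := by
  have h := (N3.USG_pf α Unit {p | p.1 ∈ K} (hK.preimage continuous_fst) 1).preimage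
    (Continuous.prodMk continuous_id continuous_const :
      Continuous fun m : ProbabilityMeasure α => (m, ()))
  convert h using 1
  ext ν
  simp only [Set.mem_preimage, Set.mem_setOf_eq]
  constructor
  · intro h1
    have : ((ν K : ℝ≥0) : ℝ≥0∞) = 1 := by
      rw [ProbabilityMeasure.ennreal_coeFn_eq_coeFn_toMeasure, h1]
    have h2 : ν K = 1 := by exact_mod_cast this
    exact h2.ge
  · intro h1
    have h2 : ν K = 1 := le_antisymm (ν.apply_le_one _) h1
    rw [← ProbabilityMeasure.ennreal_coeFn_eq_coeFn_toMeasure, h2, ENNReal.coe_one]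

end limits

end I_KDC

open I_KDC in
theorem KDC_pf (h1 : S_FSD) (h2 : S_BRX) : S_KDC := by
  intro S U hS hU k Y _ _ _ _ _ y₀ m₃ b C hy hm hb hgood
  obtain ⟨κ, ⟨hκF, hκb⟩, hκC⟩ := hgood
  have hF : IsClosed (orb (y₀, m₃)) := isClosed_closure
  -- the bound
  have hpos : 0 < mo κ (lC C) := by
    rw [pC_eq] at hκC
    exact ENNReal.ofReal_pos.1 hκC
  obtain ⟨q, hq⟩ := exists_nat_one_div_lt hpos
  -- the condition
  let A : ℤ → ProbabilityMeasure (PM k) := fun n => diracProba (act n m₃ : PM k)
  have hA : sc S A := sc_dirac hS (sc_orb hS hm (ArF.id hS))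
  have hmA : sc S fun p : ℤ × List ℤ => mxP A p := sc_mxP hS hA
  let B : ℤ → PM k := fun n => (act n m₃ : PM k)
  have hB : sc S B := sc_orb hS hm (ArF.id hS)
  have hmB : sc S fun p : ℤ × List ℤ => (mxP B p : PM k) := sc_mxP hS hB
  let R : ℕ → ℤ × List ℤ → Prop := fun L p => (∀ n ∈ p.1 :: p.2, near L (act n y₀) b.1) ∧
    near L (mxP B p : PM k) b.2 ∧ 1 / ((q : ℝ) + 1) ≤ mo (mxP A p) (lC C)
  have hR : Ar S fun p : ℕ × (ℤ × List ℤ) => R p.1 p.2 := by
    refine Ar.and hS ?_ (Ar.and hS ?_ ?_)
    · refine Ar.ballList hS (R := fun (p : ℕ × (ℤ × List ℤ)) (n : ℤ) =>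
        near p.1 (act n y₀) b.1) ?_ (ArF.of_primrec hS (Primrec.list_cons.comp
          (Primrec.fst.comp Primrec.snd) (Primrec.snd.comp Primrec.snd)))
      exact sc_near hS (w := fun q : (ℕ × (ℤ × List ℤ)) × ℤ => act q.2 y₀)
        (w' := fun _ => b.1) (L := fun q => q.1.1) (sc_orb hS hy (ArF.snd hS))
        (sc_const hS hb.1) (ArF.of_primrec hS (Primrec.fst.comp Primrec.fst))
    · exact sc_near hS (w := fun q : ℕ × (ℤ × List ℤ) => (mxP B q.2 : PM k))
        (w' := fun _ => b.2) (L := fun q => q.1) (sc_comp hS hmB (ArF.snd hS))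
        (sc_const hS hb.2) (ArF.fst hS)
    · refine HK.ArR.rle hS ((HK.ArR.rat hS (u := fun _ : ℕ × (ℤ × List ℤ) => 1)
        (v := fun _ => q) (ArF.const hS 1) (ArF.const hS q)).congr fun _ => by simp) ?_
        fun _ => mo_nn _ _
      have h3 := (CP.sc_iff S hS _ _).1 hmA
      exact HK.ArR.comp hS h3 (g := fun p : ℕ × (ℤ × List ℤ) => (p.2, lC C))
        (Primrec.snd.pair (Primrec.const _))
  -- existence
  have hex : ∀ L, ∃ p, R L p := by
    intro L
    have hsub : {m | (b.1, m) ∈ orb (y₀, m₃)} ⊆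
        closure (B '' {n : ℤ | near L (act n y₀) b.1}) := by
      intro m hm'
      refine mem_closure_iff_nhds.2 fun V hV => ?_
      obtain ⟨L', hL'⟩ := Law.near_basis m V hV
      have hm2 : (b.1, m) ∈ oc (y₀, m₃) := by
        rw [KC.oc_eq]
        exact hm'
      obtain ⟨n, hn⟩ := exists_near_of_oc hm2 (max L L')
      refine ⟨B n, hL' _ (Law.near_symm _ _ _ (Law.near_mono _ _ _ _ (le_max_right _ _) hn.2)),
        n, Law.near_mono _ _ _ _ (le_max_left _ _) hn.1, rfl⟩
    have hν : κ (closure (B '' {n : ℤ | near L (act n y₀) b.1})) = 1 :=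
      le_antisymm (κ.apply_le_one _) (hκF ▸ κ.apply_mono hsub)
    have hUκ : ∀ᶠ κ' in 𝓝 κ, (∀ P ∈ HK.cle' (HK.C k) L,
        |mo κ' [P] - mr b.2 (HK.cyl P)| < 1 / ((L : ℝ) + 1)) ∧
        1 / ((q : ℝ) + 1) < mo κ' (lC C) := by
      refine Filter.Eventually.and ?_ ?_
      · rw [Filter.eventually_all_finset]
        intro P _
        have hc : Continuous fun κ' : ProbabilityMeasure (PM k) =>
            |mo κ' [P] - mr b.2 (HK.cyl P)| :=
          ((continuous_mo (α := PM k) [P]).sub continuous_const).abs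
        refine hc.continuousAt.eventually (gt_mem_nhds ?_)
        show |mo κ [P] - mr b.2 (HK.cyl P)| < 1 / ((L : ℝ) + 1)
        rw [bar_mo hκb P, sub_self, abs_zero]
        positivity
      · exact (continuous_mo (α := PM k) (lC C)).continuousAt.eventually (lt_mem_nhds hq)
    obtain ⟨p, hp1, hp2, hp3⟩ := dens h1 B {n : ℤ | near L (act n y₀) b.1} κ hν _ hUκ
    refine ⟨p, hp1, fun P hP => ?_, hp3.le⟩
    have h4 := hp2 P (HK.mem_cle'.2 hP)
    rw [mo_avg] at h4
    exact h4
  obtain ⟨p, hp, hpR⟩ := Ar.choose hS (R := R) hR hex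
  obtain ⟨κ', hκ', hlim⟩ := exists_lim hS hU (w := fun L => mxP A (p L)) (sc_comp hS hmA hp)
  refine ⟨κ', ⟨?_, ?_⟩, ?_, ?_⟩
  · -- the fibre
    have h3 : ∀ N, (κ' : Measure (PM k)) (KN (orb (y₀, m₃)) b.1 N) = 1 := by
      intro N
      refine (closed_one (K := KN (orb (y₀, m₃)) b.1 N) isClosed_closure).mem_of_tendsto hlim ?_
      have h4 : ∀ᶠ L in (U : Filter ℕ), N ≤ L := hU.top (eventually_ge_atTop N)
      filter_upwards [h4] with L hL
      refine mxP_one A (p L) _ fun n hn => ?_
      have h5 : (act n m₃ : PM k) ∈ KN (orb (y₀, m₃)) b.1 N := by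
        refine subset_closure ⟨act n y₀, Law.near_mono _ _ _ _ hL ((hpR L).1 n hn), ?_⟩
        rw [← KC.oc_eq]
        exact HK.act_mem_oc (y₀, m₃) n
      have hmeas : MeasurableSet (KN (orb (y₀, m₃)) b.1 N) := isClosed_closure.measurableSet
      show (Measure.dirac (act n m₃ : PM k)) (KN (orb (y₀, m₃)) b.1 N) = 1
      rw [Measure.dirac_apply' _ hmeas]
      exact Set.indicator_of_mem h5 _
    have h4 : ∀ᵐ m ∂(κ' : Measure (PM k)), ∀ N, m ∈ KN (orb (y₀, m₃)) b.1 N := by
      rw [ae_all_iff]
      intro N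
      exact (mem_ae_iff_prob_eq_one (isClosed_closure.measurableSet :
        MeasurableSet (KN (orb (y₀, m₃)) b.1 N))).2 (h3 N)
    have h5 : ∀ᵐ m ∂(κ' : Measure (PM k)), (b.1, m) ∈ orb (y₀, m₃) := by
      filter_upwards [h4] with m hm'
      exact mem_of_KN hF hm'
    have hcl : IsClosed {m : PM k | (b.1, m) ∈ orb (y₀, m₃)} :=
      hF.preimage (continuous_const.prodMk continuous_id)
    have h6 : (κ' : Measure (PM k)) {m | (b.1, m) ∈ orb (y₀, m₃)} = 1 :=
      (mem_ae_iff_prob_eq_one hcl.measurableSet).1 h5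
    have h7 : ((κ' {m | (b.1, m) ∈ orb (y₀, m₃)} : ℝ≥0) : ℝ≥0∞) = 1 := by
      rw [ProbabilityMeasure.ennreal_coeFn_eq_coeFn_toMeasure, h6]
    exact_mod_cast h7
  · -- the barycentre
    obtain ⟨m', hm'⟩ := (h2 (PM k) (Om k) κ' id measurable_id).1
    have h3 : m' = b.2 := by
      refine HK.pm_ext fun P => ?_
      rw [← bar_mo hm' P]
      have h4 : Tendsto (fun L => mo (mxP A (p L)) [P]) (U : Filter ℕ) (𝓝 (mo κ' [P])) :=
        ((continuous_mo (α := PM k) [P]).tendsto κ').comp hlim
      have h5 : Tendsto (fun L => (mxP B (p L) : PM k)) (U : Filter ℕ) (𝓝 b.2) :=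
        tendsto_near hU.top fun L => (hpR L).2.1
      have h6 : Tendsto (fun L => mr (mxP B (p L)) (HK.cyl P)) (U : Filter ℕ)
          (𝓝 (mr b.2 (HK.cyl P))) := ((HK.continuous_mr_cyl P).tendsto b.2).comp h5
      have h7 : (fun L => mo (mxP A (p L)) [P]) = fun L => mr (mxP B (p L)) (HK.cyl P) :=
        funext fun L => mo_avg B (p L) P
      rw [h7] at h4
      exact tendsto_nhds_unique h4 h6
    rw [← h3]
    exact hm'
  · -- the colours
    rw [pC_eq, ENNReal.ofReal_pos]
    have h4 : Tendsto (fun L => mo (mxP A (p L)) (lC C)) (U : Filter ℕ)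
        (𝓝 (mo κ' (lC C))) := ((continuous_mo (α := PM k) (lC C)).tendsto κ').comp hlim
    have h5 : 1 / ((q : ℝ) + 1) ≤ mo κ' (lC C) :=
      ge_of_tendsto' h4 fun L => (hpR L).2.2
    have : (0 : ℝ) < 1 / ((q : ℝ) + 1) := by positivity
    linarith
  · -- coded
    have h3 := (CP.sc_iff S hS Unit (fun _ => κ')).1 hκ'
    refine (HK.ArR.comp hS h3 (g := fun p : List (Wd k) × HK.C k =>
      ((), (p.1.map fun w => KC.con w 0) ++ [p.2])) ?_).congr fun p => sd_cyl κ' p.1 p.2
    refine (Primrec.const ()).pair (Primrec.list_append.comp (Primrec.list_map Primrec.fst ?_)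
      (Primrec.list_cons.comp Primrec.snd (Primrec.const [])))
    exact ((KC.I_CONF.primrec_con k).comp (Primrec.snd.pair (Primrec.const 0))).to₂

end Pool.Agent.Work.MP_69fea5_lc.W3
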