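import Pool.Agent.Work.MP_69fea5_lc.W3.StmtsF1

set_option autoImplicit false

namespace Pool.Agent.Work.MP_69fea5_lc.W3

open MeasureTheory Topology Set Filter TopologicalSpace
open scoped NNReal ENNReal
open Pool.Agent.Work.MP_69fea5_lc.AK

namespace I_KEA

theorem one_iff {O : Type} [MeasurableSpace O] (m : ProbabilityMeasure O) (S : Set O) :
    m S = 1 ↔ (m : Measure O) S = 1 := by
  rw [← ProbabilityMeasure.ennreal_coeFn_eq_coeFn_toMeasure]
  exact (ENNReal.coe_eq_one).symm

/-- the product with a point mass -/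
theorem prod_one {K P : Type} [TopologicalSpace K] [MeasurableSpace K] [CS K]
    [TopologicalSpace P] [MeasurableSpace P] [CS P] (κ : ProbabilityMeasure K) (p : P)
    (G : Set (K × P)) (hG : IsClosed G) :
    (κ.prod (diracProba p)) G = κ {e | (e, p) ∈ G} := by
  have hc : Continuous fun e : K => (e, p) := Continuous.prodMk continuous_id continuous_const
  have h1 : ((κ.prod (diracProba p) : ProbabilityMeasure (K × P)) : Measure (K × P)) G =
      (κ : Measure K) {e | (e, p) ∈ G} := by
    change ((κ : Measure K).prod (Measure.dirac p)) G = _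
    rw [Measure.prod_dirac, Measure.map_apply hc.measurable hG.measurableSet]
    rfl
  change (((κ.prod (diracProba p) : ProbabilityMeasure (K × P)) : Measure (K × P)) G).toNNReal =
    ((κ : Measure K) {e | (e, p) ∈ G}).toNNReal
  rw [h1]

/-- limits of nets in compact spaces -/
theorem ulim {X ι : Type} [TopologicalSpace X] [CompactSpace X] (G : Ultrafilter ι) (f : ι → X) :
    ∃ x, Tendsto f (G : Filter ι) (𝓝 x) := by
  obtain ⟨x, _, hx⟩ := isCompact_univ.ultrafilter_le_nhds (G.map f) (by simp)
  exact ⟨x, hx⟩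

theorem scT {P : Type} [TopologicalSpace P] [MeasurableSpace P] [CS P] :
    SecondCountableTopology P := by
  let _ := metrizableSpaceMetric P
  infer_instance

/-- the product with a point mass is continuous -/
theorem cprod {K P : Type} [TopologicalSpace K] [MeasurableSpace K] [CS K]
    [TopologicalSpace P] [MeasurableSpace P] [CS P] :
    Continuous fun s : ProbabilityMeasure K × P => s.1.prod (diracProba s.2) := by
  have : SecondCountableTopology P := scT
  have : SecondCountableTopology K := scT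
  have hc1 : Continuous fun s : ProbabilityMeasure K × P => (s.1, diracProba s.2) :=
    continuous_fst.prodMk (continuous_diracProba.comp continuous_snd)
  exact ProbabilityMeasure.continuous_prod.comp hc1

/-- the contraction argument -/
theorem core {X' P Y W : Type} [TopologicalSpace X'] [MeasurableSpace X'] [CS X'] [Sys X']
    [TopologicalSpace P] [MeasurableSpace P] [CS P] [Sys P]
    [TopologicalSpace Y] [T2Space Y]
    [TopologicalSpace W] [MeasurableSpace W] [CS W] [Sys W]
    (h3 : S_LFT) (h4 : S_JCT) (h5 : S_PRD) (h6 : S_BRC) (h7 : S_PMG)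
    (E : Set X') (r : X' → Y) (j : X' → ProbabilityMeasure W) (Ya : Set P) (π : P → Y)
    (m2 : P → ProbabilityMeasure W) (G : Set (X' × P)) (hE : MinSet E) (hYa : MinSet Ya)
    (hr : Continuous r) (hπ : Continuous π) (hspr : SPr Ya π) (hjc : Continuous j)
    (hje : ∀ (n : ℤ) (e : X'), j (sh n e) = sh n (j e)) (hm2 : Continuous m2)
    (hm2e : ∀ (n : ℤ) (p : P), m2 (sh n p) = sh n (m2 p))
    (hGc : IsClosed G) (hGn : G.Nonempty) (hGi : AK.Inv G)
    (hG : ∀ g ∈ G, g.1 ∈ E ∧ g.2 ∈ Ya ∧ r g.1 = π g.2)
    (hdec : ∀ p ∈ Ya, ∃ κ : ProbabilityMeasure X', κ {e | e ∈ E ∧ r e = π p} = 1 ∧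
      Bar κ j (m2 p)) :
    ∀ p ∈ Ya, ∃ κ : ProbabilityMeasure X', κ {e | (e, p) ∈ G} = 1 ∧ Bar κ j (m2 p) := by
  classical
  obtain ⟨hBc, hBe, -⟩ := h6 X' W j hjc
  -- `G` is onto `E`
  have hGE : Prod.fst '' G = E := by
    refine hE.min _ (hGc.isCompact.image continuous_fst).isClosed (hGn.image _) ?_ ?_
    · rintro n _ ⟨g, hg, rfl⟩
      exact ⟨sh n g, hGi n g hg, rfl⟩
    · rintro _ ⟨g, hg, rfl⟩
      exact (hG g hg).1
  -- the good points
  let Gd : Set P :=
    {p | p ∈ Ya ∧ ∃ κ : ProbabilityMeasure X', κ {e | (e, p) ∈ G} = 1 ∧ Bar κ j (m2 p)}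
  have hGdc : IsClosed Gd := by
    let S : Set (ProbabilityMeasure X' × P) :=
      {s | (s.1.prod (diracProba s.2)) G = 1 ∧ Bar s.1 j (m2 s.2)}
    have hS : IsClosed S := by
      have e1 : IsClosed {s : ProbabilityMeasure X' ×
          P | (s.1.prod (diracProba s.2)) G = 1} := by
        have hc : Continuous fun s : ProbabilityMeasure X' ×
            P => s.1.prod (diracProba s.2) := cprod
        exact ((h7 _).2.2.2.2.1 G hGc).preimage hc
      have e2 : IsClosed {s : ProbabilityMeasure X' ×
          P | Bar s.1 j (m2 s.2)} := by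
        have hc : Continuous fun s : ProbabilityMeasure X' ×
            P => (s.1, (m2 s.2)) :=
          continuous_fst.prodMk (hm2.comp continuous_snd)
        exact hBc.preimage hc
      exact e1.inter e2
    have e3 : Gd = Ya ∩ Prod.snd '' S := by
      ext p
      constructor
      · rintro ⟨hp, κ, hκ, hb⟩
        exact ⟨hp, (κ, p), ⟨by rw [prod_one κ p G hGc]; exact hκ, hb⟩, rfl⟩
      · rintro ⟨hp, ⟨κ, p'⟩, ⟨hκ, hb⟩, rfl⟩
        refine ⟨hp, κ, ?_, hb⟩
        have e4 := prod_one κ p' G hGc
        rw [← e4]; exact hκ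
    rw [e3]
    exact hYa.closed.inter (hS.isCompact.image continuous_snd).isClosed
  have hGdi : AK.Inv Gd := by
    rintro n p ⟨hp, κ, hκ, hb⟩
    refine ⟨hYa.inv n p hp, sh n κ, ?_, by rw [hm2e]; exact hBe hje κ (m2 p) hb n⟩
    have hc : Continuous fun e : X' => (e, sh n p) :=
      Continuous.prodMk continuous_id continuous_const
    have e1 := (h7 X').1 κ n {e | (e, sh n p) ∈ G} (hGc.preimage hc).measurableSet
    rw [e1, ← hκ]
    congr 1
    ext z
    constructor
    · intro hz
      have e2 := hGi (-n) (sh n z, sh n p) hz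
      have e3 : sh (-n) ((sh n z, sh n p) : X' × P) =
          (z, p) := by
        change (sh (-n) (sh n z), sh (-n) (sh n p)) = (z, p)
        rw [← sh_add, ← sh_add, neg_add_cancel, sh_zero, sh_zero]
      rw [e3] at e2
      exact e2
    · intro hz
      exact hGi n (z, p) hz
  -- one good point
  have hGdn : Gd.Nonempty := by
    obtain ⟨p, hp⟩ := hYa.ne
    obtain ⟨κ, hκ, hb⟩ := hdec p hp
    have hFm : MeasurableSet {e : X' | e ∈ E ∧ r e = π p} :=
      hE.closed.measurableSet.inter
        (isClosed_eq hr continuous_const).measurableSet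
    have hκE : κ (Prod.fst '' G) = 1 := by
      rw [hGE, one_iff]
      apply le_antisymm prob_le_one
      rw [← (one_iff _ _).1 hκ]
      exact measure_mono fun e he => he.1
    obtain ⟨ν, hνG, hνκ⟩ := h3 (X' × P) X' Prod.fst G κ
      continuous_fst hGc hκE
    let F1 : ProbabilityMeasure (X' × P) →
        ProbabilityMeasure X' := fun m => m.map (f := Prod.fst) continuous_fst.measurable.aemeasurable
    let F2 : ProbabilityMeasure (X' × P) →
        ProbabilityMeasure P :=
      fun m => m.map (f := Prod.snd) continuous_snd.measurable.aemeasurable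
    have hF1 : Continuous F1 := ProbabilityMeasure.continuous_map continuous_fst
    have hF2 : Continuous F2 := ProbabilityMeasure.continuous_map continuous_snd
    have hF1e : ∀ (n : ℤ) m, F1 (sh n m) = sh n (F1 m) := fun n m =>
      (h7 (X' × P)).2.2.2.2.2.2.2 X' Prod.fst
        continuous_fst (fun _ _ => rfl) n m
    have hF2e : ∀ (n : ℤ) m, F2 (sh n m) = sh n (F2 m) := fun n m =>
      (h7 (X' × P)).2.2.2.2.2.2.2
        P Prod.snd continuous_snd (fun _ _ => rfl) n m
    have hF1ν : F1 ν = κ := Subtype.ext hνκ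
    have hν2 : F2 ν {p' | p' ∈ Ya ∧ π p' = π p} = 1 := by
      have hA : MeasurableSet {p' : P |
          p' ∈ Ya ∧ π p' = π p} :=
        hYa.closed.measurableSet.inter (isClosed_eq hπ continuous_const).measurableSet
      rw [one_iff]
      change Measure.map Prod.snd (ν : Measure (X' × P)) _ = 1
      rw [Measure.map_apply measurable_snd hA]
      have e8 : (ν : Measure (X' × P)) Gᶜ = 0 :=
        (prob_compl_eq_zero_iff hGc.measurableSet).2 ((one_iff _ _).1 hνG)
      have e9 : (ν : Measure (X' × P))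
          (Prod.fst ⁻¹' {e : X' | e ∈ E ∧ r e = π p}ᶜ) = 0 := by
        rw [← Measure.map_apply measurable_fst hFm.compl, hνκ]
        exact (prob_compl_eq_zero_iff hFm).2 ((one_iff _ _).1 hκ)
      have e10 : (ν : Measure (X' × P))
          (Prod.snd ⁻¹' {p' : P |
            p' ∈ Ya ∧ π p' = π p})ᶜ = 0 := by
        refine measure_mono_null ?_ (measure_union_null e8 e9)
        intro g hg
        by_contra hcon
        simp only [mem_union, mem_compl_iff, mem_preimage, mem_ofPred_eq, not_or, not_not] at hcon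
        obtain ⟨c1, c2⟩ := hcon
        have c3 := hG g c1
        exact hg ⟨c3.2.1, c3.2.2.symm.trans c2.2⟩
      exact (prob_compl_eq_zero_iff (measurable_snd hA)).1 e10
    have hδ : (diracProba p) {p' : P |
        p' ∈ Ya ∧ π p' = π p} = 1 := by
      rw [one_iff]
      change Measure.dirac p _ = 1
      exact Measure.dirac_apply_of_mem ⟨hp, rfl⟩
    obtain ⟨U, ps, hU⟩ := (h4 P Y Ya π hspr).1 (π p) (fun i => if i = 0 then F2 ν else diracProba p) (by
        intro i
        by_cases hi : i = 0
        · simp only [hi, if_true]; exact hν2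
        · simp only [hi, if_false]; exact hδ)
    have hU0 : Tendsto (fun n => sh n (F2 ν)) (U : Filter ℤ) (𝓝 (diracProba ps)) := by
      simpa using hU 0
    have hU1 : Tendsto (fun n => sh n (diracProba p)) (U : Filter ℤ) (𝓝 (diracProba ps)) := by
      simpa using hU 1
    obtain ⟨p1, hp1⟩ := ulim U (fun n => sh n p)
    have hps : p1 = ps := by
      have e7 : Tendsto (fun n => sh n (diracProba p)) (U : Filter ℤ) (𝓝 (diracProba p1)) := by
        have e8 : (fun n => sh n (diracProba p)) = fun n : ℤ => diracProba (sh n p) :=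
          funext fun n => (h7 P).2.1 n p
        rw [e8]
        exact (continuous_diracProba.tendsto p1).comp hp1
      exact (h7 P).2.2.2.1 (tendsto_nhds_unique e7 hU1)
    subst hps
    have hp1Y : p1 ∈ Ya := hYa.closed.mem_of_tendsto hp1
      (Filter.Eventually.of_forall fun n => hYa.inv n p hp)
    obtain ⟨νs, hνs⟩ := ulim U (fun n => sh n ν)
    have hνsG : νs G = 1 := by
      refine (h7 (X' × P)).2.2.2.2.2.1 G hGc hGi ν hνG
        νs ?_
      exact mem_closure_of_tendsto hνs (Filter.Eventually.of_forall fun n => ⟨n, rfl⟩)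
    have hνs2 : F2 νs = diracProba p1 := by
      have e7 : Tendsto (fun n => F2 (sh n ν)) (U : Filter ℤ) (𝓝 (F2 νs)) :=
        (hF2.tendsto νs).comp hνs
      simp only [hF2e] at e7
      exact tendsto_nhds_unique e7 hU0
    have hνs1 : Tendsto (fun n => sh n κ) (U : Filter ℤ) (𝓝 (F1 νs)) := by
      have e7 : Tendsto (fun n => F1 (sh n ν)) (U : Filter ℤ) (𝓝 (F1 νs)) :=
        (hF1.tendsto νs).comp hνs
      simp only [hF1e, hF1ν] at e7
      exact e7
    have hbar : Bar (F1 νs) j (m2 p1) := by
      have e1 : Tendsto (fun n : ℤ => (sh n κ, sh n (m2 p))) (U : Filter ℤ) (𝓝 (F1 νs, (m2 p1))) := by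
        refine hνs1.prodMk_nhds ?_
        have e2 : (fun n : ℤ => sh n (m2 p)) = fun n : ℤ => m2 (sh n p) :=
          funext fun n => (hm2e n p).symm
        rw [e2]
        exact (hm2.tendsto p1).comp hp1
      exact hBc.mem_of_tendsto e1 (Filter.Eventually.of_forall fun n => hBe hje κ (m2 p) hb n)
    refine ⟨p1, hp1Y, F1 νs, ?_, hbar⟩
    have e7 := h5 X' P νs p1
      (congrArg Subtype.val hνs2)
    have e8 : (νs : Measure (X' × P)) G = 1 :=
      (one_iff _ _).1 hνsG
    rw [e7] at e8
    have hc : Continuous fun e : X' => (e, p1) := Continuous.prodMk continuous_id continuous_const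
    rw [Measure.map_apply hc.measurable hGc.measurableSet] at e8
    rw [one_iff]
    exact e8
  have hall : Gd = Ya := hYa.min Gd hGdc hGdn hGdi fun p hp => hp.1
  intro p hp
  have hp' : p ∈ Gd := by rw [hall]; exact hp
  exact hp'.2

end I_KEA

theorem KEA_pf (h1 : S_JMC) (h2 : S_FEK) (h3 : S_LFT) (h4 : S_JCT) (h5 : S_PRD) (h6 : S_BRC)
    (h7 : S_PMG) : S_KEA := by
  intro O Y C X' _ _ _ _ _ _ _ _ _ _ _ _ _ _ _ _ A ms θ v₀ E q lm Ya G hPE hAX hGc hGn hGi hG
  obtain ⟨hjc, hje, -, -, -, -⟩ := h1 O Y C X' A ms θ v₀ E q lm hPE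
  exact I_KEA.core h3 h4 h5 h6 h7 E (fun e => (q e).1) (jm q lm) Ya Prod.fst Prod.snd G
    hPE.spx.min hAX.spx.min (continuous_fst.comp hPE.spx.cont) continuous_fst hAX.spx.spr hjc hje
    continuous_snd (fun _ _ => rfl) hGc hGn hGi hG
    (fun p hp => h2 O Y C X' A ms θ v₀ E q lm hPE p (hAX.fam hp))

end Pool.Agent.Work.MP_69fea5_lc.W3
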