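import Pool.Agent.Work.MP_69fea5_lc.W3.StmtsF1

/-!
# Block [69fea5 F1], item LAW: a law on almost periodic pairs
-/

set_option autoImplicit false

namespace Pool.Agent.Work.MP_69fea5_lc.W3

open MeasureTheory Topology Set Filter TopologicalSpace
open scoped NNReal ENNReal
open Pool.Agent.Work.MP_69fea5_lc.AK

namespace I_LAW

theorem coe_one {X : Type} [MeasurableSpace X] (m : ProbabilityMeasure X) (S : Set X) :
    m S = 1 ↔ (m : Measure X) S = 1 := by
  rw [← ProbabilityMeasure.ennreal_coeFn_eq_coeFn_toMeasure]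
  exact_mod_cast Iff.rfl

section fin

variable {K P : Type} [TopologicalSpace K] [MeasurableSpace K] [CS K]
  [TopologicalSpace P] [MeasurableSpace P] [CS P]

theorem meas_coe {f : K → ProbabilityMeasure P} (hf : Continuous f) :
    Measurable fun a => (f a : Measure P) := by
  refine Measure.measurable_of_measurable_coe _ fun B hB => ?_
  exact (Measure.measurable_coe hB).comp (measurable_subtype_coe.comp hf.measurable)

/-- the law of the pairs for one point -/
theorem one_pt {f : K → ProbabilityMeasure P} (hf : Continuous f) (κ : ProbabilityMeasure K)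
    (m : ProbabilityMeasure P) (hb : Bar κ f m) (x : K) (B : Set (P × P)) (hB : MeasurableSet B) :
    ∫⁻ a, ((f a : Measure P).prod (f x : Measure P)) B ∂(κ : Measure K) =
      ((m : Measure P).prod (f x : Measure P)) B := by
  have hs : Measurable fun z : P => (f x : Measure P) (Prod.mk z ⁻¹' B) :=
    measurable_measure_prodMk_left hB
  rw [Measure.prod_apply hB, ← (show (κ : Measure K).bind (fun q => (f q : Measure P)) =
    (m : Measure P) from hb), Measure.lintegral_bind (meas_coe hf).aemeasurable hs.aemeasurable]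
  refine lintegral_congr fun a => ?_
  rw [Measure.prod_apply hB]

/-- mixtures of decompositions -/
theorem main_abs [Sys K] [Sys P] (h0 : S_PMG) (h4 : S_FSD) (h5 : S_BRC) (h6 : S_BRX)
    {f : K → ProbabilityMeasure P} (hf : Continuous f) {K0 : Set (K × K)} (hK0 : IsClosed K0)
    {F : Set K} (hF : IsClosed F) {κ' : ProbabilityMeasure K} {p : ProbabilityMeasure P}
    (hκ1 : κ' F = 1) (hκ2 : Bar κ' f p)
    (hx : ∀ x ∈ F, ∃ κ : ProbabilityMeasure K, κ {a | (a, x) ∈ K0} = 1 ∧ Bar κ f p) :
    ∃ Θ : ProbabilityMeasure (K × K), Θ K0 = 1 ∧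
      Bar Θ (fun t => (f t.1).prod (f t.2)) (p.prod p) := by
  set J2 : K × K → ProbabilityMeasure (P × P) := fun t => (f t.1).prod (f t.2) with hJ2
  have hcp : Continuous fun μ : ProbabilityMeasure P × ProbabilityMeasure P =>
      μ.1.prod μ.2 := ProbabilityMeasure.continuous_prod
  have hJ2c : Continuous J2 :=
    hcp.comp ((hf.comp continuous_fst).prodMk (hf.comp continuous_snd))
  set Z : Set (ProbabilityMeasure (K × K) × (ProbabilityMeasure K × ProbabilityMeasure P)) :=
    {z | z.1 K0 = 1 ∧ Bar z.1 J2 (p.prod z.2.2) ∧ Bar z.2.1 f z.2.2} with hZ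
  have hZc : IsClosed Z := by
    refine IsClosed.inter ?_ (IsClosed.inter ?_ ?_)
    · exact ((h0 (K × K)).2.2.2.2.1 K0 hK0).preimage continuous_fst
    · have e1 := (h5 (K × K) (P × P) J2 hJ2c).1
      have e2 : Continuous fun z : ProbabilityMeasure (K × K) × (ProbabilityMeasure K ×
          ProbabilityMeasure P) => (z.1, p.prod z.2.2) :=
        continuous_fst.prodMk (hcp.comp (continuous_const.prodMk
          (continuous_snd.comp continuous_snd)))
      exact e1.preimage e2
    · exact (h5 K P f hf).1.preimage continuous_snd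
  have hS : IsClosed ((fun z : ProbabilityMeasure (K × K) × (ProbabilityMeasure K ×
      ProbabilityMeasure P) => z.2.1) '' Z) :=
    (hZc.isCompact.image (continuous_fst.comp continuous_snd)).isClosed
  have hmem : κ' ∈ closure ((fun z : ProbabilityMeasure (K × K) × (ProbabilityMeasure K ×
      ProbabilityMeasure P) => z.2.1) '' Z) := by
    rw [mem_closure_iff_nhds]
    intro U hU
    obtain ⟨n, x, w, ν', hνU, hxF, hw, hν⟩ := h4 K F κ' hF hκ1 U hU
    have hwE : ∑ i, (w i : ℝ≥0∞) = 1 := by
      rw [← ENNReal.ofNNReal_finsetSum, hw]; rfl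
    choose κ hκB hκb using fun i => hx (x i) (hxF i)
    let μ : Measure (K × K) :=
      ∑ i, (w i : ℝ≥0∞) • ((κ i : Measure K).prod (Measure.dirac (x i)))
    have hμB : ∀ B : Set (K × K), μ B =
        ∑ i, (w i : ℝ≥0∞) * ((κ i : Measure K).prod (Measure.dirac (x i))) B := by
      intro B
      simp only [μ, Measure.coe_finsetSum, Finset.sum_apply, Measure.smul_apply, smul_eq_mul]
    have hμ : IsProbabilityMeasure μ := ⟨by
      rw [hμB univ]; simpa using hwE⟩
    let M : ProbabilityMeasure (K × K) := ⟨μ, hμ⟩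
    have hmk : ∀ i, Measurable fun a : K => (a, x i) := fun i =>
      measurable_id.prodMk measurable_const
    have hMK : M K0 = 1 := by
      rw [coe_one]
      change μ K0 = 1
      rw [hμB K0, ← hwE]
      refine Finset.sum_congr rfl fun i _ => ?_
      rw [Measure.prod_dirac, Measure.map_apply (hmk i) hK0.measurableSet]
      have e1 : (κ i : Measure K) ((fun a => (a, x i)) ⁻¹' K0) = 1 := (coe_one _ _).1 (hκB i)
      rw [e1, mul_one]
    obtain ⟨m, hm⟩ := (h6 K P ν' f hf.measurable).1
    refine ⟨ν', hνU, (M, (ν', m)), ⟨hMK, ?_, hm⟩, rfl⟩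
    have hmJ : Measurable fun a => (f a : Measure P) := meas_coe hf
    have hmJ2 : Measurable fun t => (J2 t : Measure (P × P)) := meas_coe hJ2c
    have hm2 : (m : Measure P) = ∑ i, (w i : ℝ≥0∞) • (f (x i) : Measure P) := by
      refine Measure.ext fun B hB => ?_
      rw [← (show (ν' : Measure K).bind (fun q' => (f q' : Measure P)) = (m : Measure P)
        from hm), Measure.bind_apply hB hmJ.aemeasurable, hν]
      rw [lintegral_finsetSum_measure]
      simp only [Measure.coe_finsetSum, Finset.sum_apply, Measure.smul_apply, smul_eq_mul]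
      refine Finset.sum_congr rfl fun i _ => ?_
      have hmB : Measurable fun a => (f a : Measure P) B := (Measure.measurable_coe hB).comp hmJ
      rw [lintegral_smul_measure, lintegral_dirac' _ hmB]
      rfl
    show (μ.bind fun t => (J2 t : Measure (P × P))) = ((p : Measure P).prod (m : Measure P))
    refine Measure.ext fun B hB => ?_
    have hmB2 : Measurable fun t => (J2 t : Measure (P × P)) B :=
      (Measure.measurable_coe hB).comp hmJ2
    rw [Measure.bind_apply hB hmJ2.aemeasurable]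
    change ∫⁻ t, (J2 t : Measure (P × P)) B ∂(∑ i, (w i : ℝ≥0∞) •
      ((κ i : Measure K).prod (Measure.dirac (x i)))) = _
    rw [lintegral_finsetSum_measure, Measure.prod_apply_symm hB, hm2,
      lintegral_finsetSum_measure]
    refine Finset.sum_congr rfl fun i _ => ?_
    rw [lintegral_smul_measure, lintegral_smul_measure]
    congr 1
    rw [← Measure.prod_apply_symm hB, ← one_pt hf (κ i) p (hκb i) (x i) B hB,
      Measure.prod_dirac, lintegral_map hmB2 (hmk i)]
    rfl
  rw [hS.closure_eq] at hmem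
  obtain ⟨⟨Θ, κ₁, m⟩, ⟨hΘ1, hΘ2, hΘ3⟩, rfl⟩ := hmem
  refine ⟨Θ, hΘ1, ?_⟩
  have e1 : m = p := (h6 K P κ₁ f hf.measurable).2.1 m p hΘ3 hκ2
  subst e1
  exact hΘ2

end fin

end I_LAW

open I_LAW in
theorem LAW_pf (h0 : S_PMG) (h1 : S_JMC) (h2 : S_KEA) (h3 : S_GDC) (h4 : S_FSD) (h5 : S_BRC)
    (h6 : S_BRX) : S_LAW := by
  intro O Y C X' _ _ _ _ _ _ _ _ _ _ _ _ _ _ _ _ A ms θ v₀ E q lm Ya hPE hAX p hp
  obtain ⟨hjc, hje, -⟩ := h1 O Y C X' A ms θ v₀ E q lm hPE
  obtain ⟨hGc, hGn, hGi⟩ := h3 O Y C X' A ms θ v₀ E q lm Ya hPE hAX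
  obtain ⟨κ', hκ1, hκ2⟩ := h2 O Y C X' A ms θ v₀ E q lm Ya (GB E q lm Ya) hPE hAX hGc hGn hGi
    (fun g hg => ⟨hg.1, hg.2.1, hg.2.2.1⟩) p hp
  have hFc : IsClosed {e | (e, p) ∈ GB E q lm Ya} :=
    hGc.preimage (continuous_id.prodMk continuous_const)
  have hqc : Continuous q := hPE.spx.cont
  have hK0c : IsClosed {t : X' × X' | t ∈ BB E q ∧ (q t.1).1 = p.1 ∧ (q t.2).1 = p.1} := by
    refine IsClosed.inter isClosed_closure (IsClosed.inter ?_ ?_)
    · exact isClosed_eq (continuous_fst.comp (hqc.comp continuous_fst)) continuous_const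
    · exact isClosed_eq (continuous_fst.comp (hqc.comp continuous_snd)) continuous_const
  -- pairs in `BB` lie over one point of `Y`
  have hBB : ∀ t ∈ BB E q, (q t.1).1 = (q t.2).1 := by
    intro t ht
    have hc : IsClosed {t : X' × X' | (q t.1).1 = (q t.2).1} :=
      isClosed_eq (continuous_fst.comp (hqc.comp continuous_fst))
        (continuous_fst.comp (hqc.comp continuous_snd))
    exact closure_minimal (fun t ht => ht.2.2.1) hc ht
  refine main_abs h0 h4 h5 h6 hjc hK0c hFc hκ1 hκ2 fun x hx => ?_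
  obtain ⟨κ, hκB, hκb⟩ := hx.2.2.2
  refine ⟨κ, ?_, hκb⟩
  have e : {a | (a, x) ∈ {t : X' × X' | t ∈ BB E q ∧ (q t.1).1 = p.1 ∧ (q t.2).1 = p.1}} =
      {a | (a, x) ∈ BB E q} := by
    ext a
    constructor
    · intro h
      exact h.1
    · intro h
      exact ⟨h, (hBB _ h).trans hx.2.2.1, hx.2.2.1⟩
  rw [e]
  exact hκB

end Pool.Agent.Work.MP_69fea5_lc.W3
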