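import Pool.Agent.Work.MP_69fea5_lc.W3.StmtsT

set_option autoImplicit false

namespace Pool.Agent.Work.MP_69fea5_lc.W3

open MeasureTheory Topology Set Filter TopologicalSpace
open scoped NNReal ENNReal
open Pool.Agent.Work.MP_69fea5_lc.AK

theorem LFT_pf (h1 : S_PMG) (h2 : S_FSD) : S_LFT := by
  intro X' X tX' mX' cX' tX mX cX q E ν hq hE hν
  let sX : Sys X' :=
    { sh := fun _ x => x
      zero' := fun _ => rfl
      add' := fun _ _ _ => rfl
      cont' := fun _ => continuous_id }
  have hcl : IsClosed {m : ProbabilityMeasure X' | m E = 1} := (h1 X').2.2.2.2.1 E hE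
  let Q : ProbabilityMeasure X' → ProbabilityMeasure X :=
    fun m => m.map (f := q) hq.measurable.aemeasurable
  have hQ : Continuous Q := ProbabilityMeasure.continuous_map hq
  have hL : IsClosed (Q '' {m | m E = 1}) := (hcl.isCompact.image hQ).isClosed
  have hF : IsClosed (q '' E) := (hE.isCompact.image hq).isClosed
  have hmem : ν ∈ closure (Q '' {m | m E = 1}) := by
    rw [mem_closure_iff_nhds]
    intro U hU
    obtain ⟨n, x, w, ν', hν'U, hx, hw, hν'⟩ := h2 X (q '' E) ν hF hν U hU
    choose y hyE hyq using hx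
    have hwE : ∑ i, (w i : ℝ≥0∞) = 1 := by
      rw [← ENNReal.coe_finset_sum, hw]; rfl
    let μ : Measure X' := ∑ i, (w i : ℝ≥0∞) • Measure.dirac (y i)
    have hμB : ∀ B : Set X', MeasurableSet B →
        μ B = ∑ i, (w i : ℝ≥0∞) * B.indicator 1 (y i) := by
      intro B hB
      simp only [μ, Measure.coe_finsetSum, Finset.sum_apply, Measure.smul_apply, smul_eq_mul,
        Measure.dirac_apply' _ hB]
    have hμ : IsProbabilityMeasure μ := ⟨by
      rw [hμB univ MeasurableSet.univ]; simpa using hwE⟩
    let M : ProbabilityMeasure X' := ⟨μ, hμ⟩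
    have hME : M E = 1 := by
      have h3 : (M : Measure X') E = 1 := by
        change μ E = 1
        rw [hμB E hE.measurableSet, ← hwE]
        refine Finset.sum_congr rfl fun i _ => ?_
        rw [Set.indicator_of_mem (hyE i)]; simp
      change ((M : Measure X') E).toNNReal = 1
      rw [h3]; rfl
    refine ⟨ν', hν'U, M, hME, ?_⟩
    apply Subtype.ext
    change Measure.map q μ = (ν' : Measure X)
    rw [hν']
    ext B hB
    rw [Measure.map_apply hq.measurable hB, hμB _ (hq.measurable hB)]
    simp only [Measure.coe_finsetSum, Finset.sum_apply, Measure.smul_apply, smul_eq_mul,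
        Measure.dirac_apply' _ hB]
    refine Finset.sum_congr rfl fun i _ => ?_
    rw [← hyq i]
    rfl
  rw [hL.closure_eq] at hmem
  obtain ⟨ν', hν'E, hν'⟩ := hmem
  exact ⟨ν', hν'E, congrArg Subtype.val hν'⟩

end Pool.Agent.Work.MP_69fea5_lc.W3
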