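import Pool.Agent.Work.MP_69fea5_lc.W3.StmtsE

/-!
# Block [69fea5 F], item LIM

The limit lemma.
-/

set_option autoImplicit false

namespace Pool.Agent.Work.MP_69fea5_lc.W3

open MeasureTheory Topology Set Filter ProbabilityTheory
open scoped NNReal ENNReal
open Pool.Agent.Work.MP_69fea5_lc.AK
open Pool.Agent.Work.MP_69fea5_lc.N3 (W2 bx sup2 St nxt Bl3 CaseII3 GRD)

namespace I_LIM

variable {k : ℕ}

/-- the product measures converge on clopen sets -/
theorem tendsto_prod {ι : Type} (G : Filter ι) (m n : ι → PM k) (m' n' : PM k)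
    (hm : Tendsto m G (𝓝 m')) (hn : Tendsto n G (𝓝 n')) (C : Set (Om k × Om k))
    (hC : IsClopen C) :
    Tendsto (fun i => ((m i : Measure (Om k)).prod (n i : Measure (Om k))).real C) G
      (𝓝 (((m' : Measure (Om k)).prod (n' : Measure (Om k))).real C)) := by
  have h1 : Tendsto (fun i => (m i).prod (n i)) G (𝓝 (m'.prod n')) := by
    have h2 : Continuous fun p : PM k × PM k => p.1.prod p.2 := ProbabilityMeasure.continuous_prod
    exact (h2.tendsto (m', n')).comp (hm.prodMk_nhds hn)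
  have h3 := ProbabilityMeasure.tendsto_measure_of_null_frontier_of_tendsto' h1
    (E := C) (by rw [hC.frontier_eq]; simp)
  have h4 := (ENNReal.tendsto_toReal (measure_ne_top _ C)).comp h3
  exact h4

/-- the sections are upper semicontinuous -/
theorem eventually_subset {X : Type} [TopologicalSpace X]
    (N : Set ((Om k × Om k × Om k) × X)) (hN : IsClosed N)
    (G : Ultrafilter ℕ) (w : ℕ → Om k) (y : ℕ → X) (w' : Om k) (y' : X)
    (hw : Tendsto w (G : Filter ℕ) (𝓝 w')) (hy : Tendsto y (G : Filter ℕ) (𝓝 y'))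
    (C : Set (Om k × Om k)) (hC : IsClopen C) (hsub : {p | ((w', p), y') ∈ N} ⊆ C) :
    ∀ᶠ n in (G : Filter ℕ), {p | ((w n, p), y n) ∈ N} ⊆ C := by
  by_contra hcon
  have hcon' : ∀ᶠ n in (G : Filter ℕ), ¬ {p | ((w n, p), y n) ∈ N} ⊆ C :=
    Ultrafilter.eventually_not.2 hcon
  have hex : ∀ n : ℕ, ∃ p : Om k × Om k,
      ¬ {p | ((w n, p), y n) ∈ N} ⊆ C → ((w n, p), y n) ∈ N ∧ p ∉ C := by
    intro n
    by_cases h : {p | ((w n, p), y n) ∈ N} ⊆ C
    · exact ⟨(w n, w n), fun h' => absurd h h'⟩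
    · obtain ⟨p, hp, hpC⟩ := not_subset.1 h
      exact ⟨p, fun _ => ⟨hp, hpC⟩⟩
  choose p hp using hex
  obtain ⟨p', -, hp'⟩ := isCompact_univ.ultrafilter_le_nhds (G.map p)
    (by simp)
  have hpt : Tendsto p (G : Filter ℕ) (𝓝 p') := by
    simpa [Tendsto] using hp'
  have h1 : ((w', p'), y') ∈ N :=
    hN.mem_of_tendsto ((hw.prodMk_nhds hpt).prodMk_nhds hy)
      (hcon'.mono fun n hn => (hp n hn).1)
  have h2 : p' ∈ Cᶜ :=
    hC.isOpen.isClosed_compl.mem_of_tendsto hpt (hcon'.mono fun n hn => (hp n hn).2)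
  exact h2 (hsub h1)

/-- measure of a set inside `C` -/
theorem diff_real {O : Type} [MeasurableSpace O] (m : Measure O) [IsFiniteMeasure m] (A C : Set O)
    (hA : MeasurableSet A) (hAC : A ⊆ C) : m.real (C \ A) = m.real C - m.real A :=
  measureReal_sdiff hAC hA

end I_LIM

open I_LIM in
theorem LIM_pf (h2 : S_MCE) (h3 : S_CMD) (h4 : N3.S_CL2) : S_LIM := by
  intro k X _ _ M μ ν hM hμ hν heμ heν N hN hNi G w y w' y' τ τ' hf' hmem hw hy hle ht
  obtain ⟨⟨a, ha⟩, -⟩ := h2 k X M μ ν hM hμ hν heμ heν N hN hNi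
  set P : X → Measure (Om k × Om k) := fun z => (μ z : Measure (Om k)).prod (ν z : Measure (Om k))
    with hP
  have hPp : ∀ z, IsProbabilityMeasure (P z) := fun z => by rw [hP]; infer_instance
  have hmem' : (w', y') ∈ M :=
    hM.closed.mem_of_tendsto (hw.prodMk_nhds hy) (Eventually.of_forall hmem)
  have hlimP : ∀ C : Set (Om k × Om k), IsClopen C →
      Tendsto (fun n => (P (y n)).real C) (G : Filter ℕ) (𝓝 ((P y').real C)) := fun C hC =>
    tendsto_prod (G : Filter ℕ) (fun n => μ (y n)) (fun n => ν (y n)) (μ y') (ν y')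
      ((hμ.tendsto y').comp hy) ((hν.tendsto y').comp hy) C hC
  have hτ' : τ' ≤ P y' :=
    h3 k G τ (fun n => P (y n)) τ' (P y') hle
      (fun n => (prob_le_one : P (y n) univ ≤ 1)) ht hlimP
  have hfin : ∀ n, IsFiniteMeasure (τ n) := fun n =>
    ⟨lt_of_le_of_lt ((hle n univ).trans (prob_le_one : P (y n) univ ≤ 1)) ENNReal.one_lt_top⟩
  -- sections
  set S : ℕ → Set (Om k × Om k) := fun n => {p | ((w n, p), y n) ∈ N} with hS
  set S' : Set (Om k × Om k) := {p | ((w', p), y') ∈ N} with hS'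
  have hSc : ∀ n, IsClosed (S n) := fun n =>
    hN.preimage (by fun_prop : Continuous fun p : Om k × Om k => ((w n, p), y n))
  have hSc' : IsClosed S' :=
    hN.preimage (by fun_prop : Continuous fun p : Om k × Om k => ((w', p), y'))
  have hma : ∀ n, (P (y n)).real (S n) = a.toReal := fun n => by
    rw [Measure.real, ha (w n) (y n) (hmem n)]
  have hma' : (P y').real S' = a.toReal := by
    rw [Measure.real, ha w' y' hmem']
  rw [Metric.tendsto_nhds]
  intro ε hε
  obtain ⟨C, hC, hSC, hCε⟩ := h4 k (P y') S' ((P y').real S' + ε / 4) hSc' (by linarith)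
  have e1 : ∀ᶠ n in (G : Filter ℕ), S n ⊆ C := eventually_subset N hN G w y w' y' hw hy C hC hSC
  have e2 : ∀ᶠ n in (G : Filter ℕ), |(P (y n)).real C - (P y').real C| < ε / 4 := by
    have := Metric.tendsto_nhds.1 (hlimP C hC) (ε / 4) (by linarith)
    simpa [Real.dist_eq] using this
  have e3 : ∀ᶠ n in (G : Filter ℕ), |(τ n).real C - τ'.real C| < ε / 4 := by
    have := Metric.tendsto_nhds.1 (ht C hC) (ε / 4) (by linarith)
    simpa [Real.dist_eq] using this
  have hd' : τ'.real C - τ'.real S' < ε / 4 := by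
    rw [← diff_real τ' S' C hSc'.measurableSet hSC]
    have h5 : τ'.real (C \ S') ≤ (P y').real (C \ S') :=
      ENNReal.toReal_mono (measure_ne_top _ _) (hτ' _)
    rw [diff_real (P y') S' C hSc'.measurableSet hSC] at h5
    linarith
  have hd'' : τ'.real S' ≤ τ'.real C := measureReal_mono hSC
  filter_upwards [e1, e2, e3] with n h1 h2' h3'
  have := hfin n
  have h5 : (τ n).real (C \ S n) ≤ (P (y n)).real (C \ S n) :=
    ENNReal.toReal_mono (measure_ne_top _ _) (hle n _)
  rw [diff_real (P (y n)) (S n) C (hSc n).measurableSet h1,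
    diff_real (τ n) (S n) C (hSc n).measurableSet h1, hma n] at h5
  have h6 : (τ n).real (S n) ≤ (τ n).real C := measureReal_mono h1
  rw [Real.dist_eq]
  rw [abs_lt] at h2' h3' ⊢
  constructor <;> linarith

end Pool.Agent.Work.MP_69fea5_lc.W3
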