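import Pool.Agent.Work.MP_69fea5_lc.W3.StmtsM

/-!
Block [69fea5 F], main line, item LXL: the level of an element of minimal energy.
-/

set_option autoImplicit false

namespace Pool.Agent.Work.MP_69fea5_lc.W3

open MeasureTheory Topology Set Filter TopologicalSpace
open scoped NNReal ENNReal
open Pool.Agent.Work.MP_69fea5_lc.AK
open Pool.Agent.Work.MP_69fea5_lc.HK (Cl DU Ar ArF ArR Dat Law LawC act near sc Pt oc Mn mr ext)
open Pool.Agent.Work.MP_69fea5_lc.KC (Agree)

namespace I_LXL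

theorem orb_inv {X : Type} [TopologicalSpace X] [Sys X] (x : X) : AK.Inv (orb x) := by
  intro n y hy
  refine map_mem_closure (sh_cont n) hy ?_
  rintro _ ⟨m, rfl⟩
  exact ⟨n + m, sh_add n m x⟩

theorem self_orb {X : Type} [TopologicalSpace X] [Sys X] (x : X) : x ∈ orb x :=
  subset_closure ⟨0, sh_zero x⟩

theorem orb_sub {X : Type} [TopologicalSpace X] [Sys X] {K : Set X} (hK : IsClosed K)
    (hi : AK.Inv K) {x : X} (hx : x ∈ K) : orb x ⊆ K := by
  refine closure_minimal ?_ hK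
  rintro _ ⟨n, rfl⟩
  exact hi n x hx

/-- images of orbit closures -/
theorem image_orb {X Y : Type} [TopologicalSpace X] [Sys X] [CompactSpace X] [TopologicalSpace Y]
    [T2Space Y] [Sys Y] {f : X → Y} (hf : Continuous f)
    (he : ∀ (n : ℤ) (x : X), f (sh n x) = sh n (f x)) (x : X) : f '' orb x = orb (f x) := by
  have hcl : IsClosed (orb x) := isClosed_closure
  refine Subset.antisymm ?_ ?_
  · rintro _ ⟨y, hy, rfl⟩
    have h1 : orb x ⊆ f ⁻¹' orb (f x) := by
      refine orb_sub (isClosed_closure.preimage hf) ?_ (self_orb _)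
      intro n z hz
      change f (sh n z) ∈ orb (f x)
      rw [he]
      exact orb_inv _ n _ hz
    exact h1 hy
  · refine orb_sub (hcl.isCompact.image hf).isClosed ?_ ⟨x, self_orb x, rfl⟩
    rintro n _ ⟨y, hy, rfl⟩
    exact ⟨sh n y, orb_inv x n y hy, he n y⟩

/-- an orbit closure in a minimal set -/
theorem orb_eq_of_min {X : Type} [TopologicalSpace X] [Sys X] {K : Set X} (hK : MinSet K) {x : X}
    (hx : x ∈ K) : orb x = K :=
  hK.min _ isClosed_closure ⟨x, self_orb x⟩ (orb_inv x) (orb_sub hK.closed hK.inv hx)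

theorem mn_of_minSet {α : Type} [TopologicalSpace α] [Dat α] [Law α] [AK.Sys α] [Agree α] {w : α}
    (h : AK.MinSet (AK.orb w)) : Mn w := by
  intro w' hw'
  rw [KC.oc_eq] at hw' ⊢
  rw [orb_eq_of_min h hw']
  exact self_orb w

end I_LXL

open I_LXL in
theorem LXL_pf (h1 : S_AAN) (h2 : S_SEO) (h3 : S_SPE) (h5 : S_BCX) (h6 : S_RIM) (h7 : S_EX1)
    (h8 : S_BCF) (h9 : S_FAM) (h10 : S_FDL) (hIMG : AK.S_IMG) : S_LXL := by
  intro S U hS hU k c hc X _ _ _ _ _ A x m l hcb hone hl hAA hmin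
  have hFcl : IsClosed (orb (x, m)) := isClosed_closure
  have hFinv : AK.Inv (orb (x, m)) := orb_inv _
  -- images
  have hxA : Prod.snd '' A = orb x := by
    obtain ⟨p, hp, hpx⟩ := hcb.mem
    have e1 : A = orb p := (orb_eq_of_min hcb.min hp).symm
    rw [e1, image_orb continuous_snd (fun n y => rfl), hpx]
  have hbase : MinSet (orb x) := by
    rw [← hxA]
    exact hIMG (Om k × X) X A Prod.snd hcb.min continuous_snd.continuousOn (fun n y _ => rfl)
  have hFfst : Prod.fst '' orb (x, m) = orb x :=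
    image_orb (f := (Prod.fst : X × PM k → X)) continuous_fst (fun n y => rfl) (x, m)
  have hEfst : Prod.fst '' orb (x, l) = orb x :=
    image_orb (f := (Prod.fst : X × PM k → X)) continuous_fst (fun n y => rfl) (x, l)
  -- the set of minimal energy
  have hsep := (h2 k).1
  have haa := (h2 k).2.2.2 X (orb (x, m))
  have hmF : MinSet (Prod.fst '' orb (x, m)) := by rw [hFfst]; exact hbase
  obtain ⟨hAcl, hAinv, -⟩ := h1 (Om k) X (fcyl k) (orb (x, m)) hsep hFcl hFinv hmF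
  have hEsub : orb (x, l) ⊆ AAE (fcyl k) (orb (x, m)) := by
    refine orb_sub hAcl hAinv ?_
    rw [haa]
    exact hAA
  have hspr := h3 (Om k) X (fcyl k) (orb (x, m)) (orb (x, l)) hsep hFcl hFinv hmF hEsub
    isClosed_closure (orb_inv _)
  have hspx : SPx (orb (x, l)) (Prod.fst : X × PM k → X) :=
    ⟨hmin, continuous_fst, fun n e => rfl, hspr⟩
  obtain ⟨A', hA'⟩ := h5 (Om k) X (X × PM k) A (orb (x, l)) Prod.fst hspx hcb.min
    (by rw [hxA, hEfst])
  -- the measures are carried by the fibres of `A`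
  obtain ⟨hDcl, hDinv, -, hDeq⟩ := h10 (Om k) X A hcb.min.closed hcb.min.inv
  obtain ⟨hDFcl, hDFinv, -, -, hDbar⟩ := h9 (Om k) X (Dlt A) hDcl hDinv
  have hFD : orb (x, m) ⊆ Fam (Dlt A) := by
    refine orb_sub hDFcl hDFinv ?_
    rw [hDeq]
    exact hone
  have hfam : ∀ e ∈ orb (x, l), e ∈ Fam (orb (x, m)) := fun e he => (hEsub he).1
  have hcar : ∀ e ∈ orb (x, l), e.2 {u | (u, e.1) ∈ A} = 1 := by
    intro e he
    obtain ⟨κ, hκ, hbar⟩ := hfam e he
    have h4 : κ {m' | (e.1, m') ∈ Fam (Dlt A)} = 1 := by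
      apply le_antisymm (κ.apply_le_one _)
      rw [← hκ]
      exact ProbabilityMeasure.apply_mono κ fun m' hm' => hFD hm'
    have h5 : (e.1, e.2) ∈ Fam (Dlt A) := hDbar e.1 κ e.2 h4 hbar
    rw [hDeq] at h5
    exact h5
  have hlev : Lev A' Prod.snd :=
    h6 (Om k) X (X × PM k) A (orb (x, l)) Prod.fst A' Prod.snd hA' continuous_snd
      (fun n e => rfl) hcar
  obtain ⟨hmin', hsnd', -⟩ := h8 (Om k) X (X × PM k) A (orb (x, l)) Prod.fst A' hA'
  refine ⟨A', hA', hlev, ⟨hA'.min, ?_, ?_, pt_prod.2 ⟨hcb.pt, hl⟩, ?_⟩, hfam⟩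
  · rw [hsnd']
    exact self_orb _
  · exact h7 k c X (X × PM k) A (orb (x, l)) Prod.fst A' hA' (x, l) (self_orb _) hcb.ex
  · obtain ⟨z₀, hz₀, hz₀A⟩ := hcb.ptz
    have hxl : Pt S (x, l) := pt_prod.2 ⟨hcb.pt, hl⟩
    obtain ⟨y, hy, hyoc, hymn⟩ := exists_fibre_min hS hU (x₀ := (x, l)) (x := (x, l)) (y₀ := z₀)
      hxl hz₀ hxl (mn_of_minSet hmin) (by rw [KC.oc_eq]; exact self_orb _)
    refine ⟨y, hy, ?_⟩
    have hms : MinSet (orb ((x, l), y)) := KC.minSet_of_Mn hymn
    -- the pull-back is closed and invariant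
    have hPcl : IsClosed {p : (X × PM k) × Om k | p.1 ∈ orb (x, l) ∧ (p.2, p.1.1) ∈ A} :=
      (isClosed_closure.preimage continuous_fst).inter
        (hcb.min.closed.preimage (continuous_snd.prodMk (continuous_fst.comp continuous_fst)))
    have hPinv : AK.Inv {p : (X × PM k) × Om k | p.1 ∈ orb (x, l) ∧ (p.2, p.1.1) ∈ A} := by
      rintro n p ⟨hp1, hp2⟩
      exact ⟨orb_inv _ n _ hp1, hcb.min.inv n _ hp2⟩
    have hsub1 : orb ((x, l), z₀) ⊆ {p : (X × PM k) × Om k | p.1 ∈ orb (x, l) ∧ (p.2, p.1.1) ∈ A} :=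
      orb_sub hPcl hPinv ⟨self_orb _, hz₀A⟩
    have hyorb : ((x, l), y) ∈ orb ((x, l), z₀) := by
      rw [KC.oc_eq] at hyoc
      exact hyoc
    have hsub2 : orb ((x, l), y) ⊆
        {p : (X × PM k) × Om k | p.1 ∈ orb (x, l) ∧ (p.2, p.1.1) ∈ A} :=
      orb_sub hPcl hPinv (hsub1 hyorb)
    have hA'' := hmin' {p : Om k × (X × PM k) | (p.2, p.1) ∈ orb ((x, l), y)}
      (isClosed_closure.preimage (continuous_snd.prodMk continuous_fst))
      ⟨(y, (x, l)), self_orb _⟩
      (fun n p hp => orb_inv _ n _ hp)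
      (fun p hp => hsub2 hp)
    -- `A'` is everything
    have hcl' : IsClosed {p : (X × PM k) × Om k | (p.2, p.1) ∈ A'} :=
      hA'.min.closed.preimage (continuous_snd.prodMk continuous_fst)
    have h9 := hms.min {p : (X × PM k) × Om k | (p.2, p.1) ∈ A'} hcl'
      (by
        obtain ⟨p, hp⟩ := hA'.min.ne
        exact ⟨(p.2, p.1), hp⟩)
      (fun n p hp => hA'.min.inv n _ hp)
      (fun p hp => hA'' hp)
    have h11 : ((x, l), y) ∈ {p : (X × PM k) × Om k | (p.2, p.1) ∈ A'} := by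
      rw [h9]
      exact self_orb _
    exact h11

end Pool.Agent.Work.MP_69fea5_lc.W3
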