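import Pool.Agent.Work.MP_69fea5_lc.W3.StmtsE

set_option autoImplicit false

namespace Pool.Agent.Work.MP_69fea5_lc.W3

open MeasureTheory Topology Set Filter ProbabilityTheory
open scoped NNReal ENNReal
open Pool.Agent.Work.MP_69fea5_lc.AK
open Pool.Agent.Work.MP_69fea5_lc.N3 (W2 bx sup2 St nxt Bl3 CaseII3 GRD)

namespace I_MAS

variable {k : ℕ}

theorem uf_of_omg {X : Type} [TopologicalSpace X] [Sys X] {p q : X} (h : q ∈ omg p) :
    ∃ G : Ultrafilter ℕ, (G : Filter ℕ) ≤ atTop ∧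
      Tendsto (fun n : ℕ => sh (n : ℤ) p) (G : Filter ℕ) (𝓝 q) := by
  have h1 : MapClusterPt q atTop (fun n : ℕ => sh (n : ℤ) p) := by
    rw [mapClusterPt_iff_frequently]
    intro U hU
    rw [frequently_atTop]
    intro N
    obtain ⟨n, hn, hnU⟩ := h U hU N
    exact ⟨n, hn, hnU⟩
  exact mapClusterPt_iff_ultrafilter.1 h1

theorem map_prod_sh (m m' : PM k) (n : ℤ) :
    ((m : Measure (Om k)).prod (m' : Measure (Om k))).map (sh n : Om k × Om k → Om k × Om k) =
      ((sh n m : PM k) : Measure (Om k)).prod ((sh n m' : PM k) : Measure (Om k)) := by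
  have e1 : ((sh n m : PM k) : Measure (Om k)) = Measure.map (sh n) (m : Measure (Om k)) := rfl
  have e2 : ((sh n m' : PM k) : Measure (Om k)) = Measure.map (sh n) (m' : Measure (Om k)) := rfl
  rw [e1, e2, Measure.map_prod_map _ _ (sh_cont n).measurable (sh_cont n).measurable]
  rfl

theorem lim_clopen {X : Type} [TopologicalSpace X] (μ ν : X → PM k) (hμ : Continuous μ)
    (hν : Continuous ν) (G : Filter ℕ) (y : ℕ → X) (y' : X) (hy : Tendsto y G (𝓝 y'))
    (C : Set (Om k × Om k)) (hC : IsClopen C) :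
    Tendsto (fun n => ((μ (y n) : Measure (Om k)).prod (ν (y n) : Measure (Om k))).real C) G
      (𝓝 (((μ y' : Measure (Om k)).prod (ν y' : Measure (Om k))).real C)) := by
  have h1 : Continuous fun y : X => (μ y).prod (ν y) :=
    ProbabilityMeasure.continuous_prod.comp (hμ.prodMk hν)
  have h2 : Tendsto (fun n => (μ (y n)).prod (ν (y n))) G (𝓝 ((μ y').prod (ν y'))) :=
    (h1.tendsto y').comp hy
  have h3 := ProbabilityMeasure.tendsto_measure_of_null_frontier_of_tendsto' h2 (E := C)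
    (by rw [hC.frontier_eq]; simp)
  have h4 := (ENNReal.tendsto_toReal (measure_ne_top _ C)).comp h3
  exact h4

end I_MAS

open I_MAS in
theorem MAS_pf (h1 : S_CMP) (h2 : S_CMD) (h3 : S_MCE) (h4 : S_SDB) (h5 : S_STA) (h6 : S_MSB)
    (hSUP : AK.S_SUP) : S_MAS := by
  intro k X _ _ _ _ c x x1 μ0 μ1 μ2 C κ1 κ2 hE D F1 F2 N hN
  haveI := hE.p1
  haveI := hE.p2
  obtain ⟨z, hz⟩ := (hSUP k (μ0 x)).2.2.1
  have hzx : (z, x) ∈ MS μ0 x := ((h6 k X μ0 x hE.c0 hE.e0).1).2.2.2 z hz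
  obtain ⟨G, hG, hGt⟩ := uf_of_omg (hE.ex hzx)
  have hGc : Tendsto (fun n : ℕ => sh (n : ℤ) c) (G : Filter ℕ) (𝓝 z) :=
    (continuous_fst.tendsto _).comp hGt
  have hGx : Tendsto (fun n : ℕ => sh (n : ℤ) x) (G : Filter ℕ) (𝓝 x) :=
    (continuous_snd.tendsto _).comp hGt
  have hs1 := h4 k κ1 F1
  have hs2 := h4 k κ2 F2
  have hf1 : IsFiniteMeasure (sd κ1 F1) := ⟨lt_of_le_of_lt hs1.2.2.2.2.2.1 ENNReal.one_lt_top⟩
  have hf2 : IsFiniteMeasure (sd κ2 F2) := ⟨lt_of_le_of_lt hs2.2.2.2.2.2.1 ENNReal.one_lt_top⟩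
  set ν : Measure (Om k × Om k) := (sd κ1 F1).prod (sd κ2 F2) with hν
  have hdom : ν ≤ (μ1 x : Measure (Om k)).prod (μ2 x : Measure (Om k)) :=
    (h5 k X c x x1 μ0 μ1 μ2 C κ1 κ2 hE D F1 F2 N hN).1
  have hmap : ∀ n : ℕ, Measurable (sh (n : ℤ) : Om k × Om k → Om k × Om k) :=
    fun n => (sh_cont (n : ℤ)).measurable
  have hle1 : ∀ n : ℕ, (((μ1 x : Measure (Om k)).prod (μ2 x : Measure (Om k))).map
      (sh (n : ℤ) : Om k × Om k → Om k × Om k)) univ ≤ 1 := by
    intro n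
    rw [Measure.map_apply (hmap n) MeasurableSet.univ]
    exact prob_le_one
  have hmono : ∀ n : ℕ, ν.map (sh (n : ℤ) : Om k × Om k → Om k × Om k) ≤
      ((μ1 x : Measure (Om k)).prod (μ2 x : Measure (Om k))).map
      (sh (n : ℤ) : Om k × Om k → Om k × Om k) := fun n => Measure.map_mono hdom (hmap n)
  obtain ⟨τ, hτf, hτ⟩ := h1 k G (fun n : ℕ => ν.map (sh (n : ℤ) : Om k × Om k → Om k × Om k))
    (fun n => (hmono n univ).trans (hle1 n))
  have hL : LimM G ν τ := by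
    intro B hB
    have := hτ B hB
    refine this.congr fun n => ?_
    rw [measureReal_def, Measure.map_apply (hmap n) hB.isClosed.measurableSet]
    rfl
  have hdom' : τ ≤ (μ1 x : Measure (Om k)).prod (μ2 x : Measure (Om k)) := by
    refine h2 k G (fun n : ℕ => ν.map (sh (n : ℤ) : Om k × Om k → Om k × Om k))
      (fun n : ℕ => ((μ1 x : Measure (Om k)).prod (μ2 x : Measure (Om k))).map
      (sh (n : ℤ) : Om k × Om k → Om k × Om k)) τ _ hmono hle1 hτ ?_
    intro B hB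
    have := lim_clopen μ1 μ2 hE.c1 hE.c2 (G : Filter ℕ) (fun n : ℕ => sh (n : ℤ) x) x hGx B hB
    refine this.congr fun n => ?_
    rw [map_prod_sh, hE.e1, hE.e2]
  have hcar := hN.car G z x hG hGc hGx hz τ hτf hL
  obtain ⟨a, ha⟩ := (h3 k X (MS μ0 x) μ1 μ2 hE.m0 hE.c1 hE.c2 hE.e1 hE.e2 N hN.closed hN.inv).1
  refine ⟨a, ?_, ha⟩
  rw [← ha z x hzx]
  have hpos : 0 < τ univ := by
    have h := hL univ isClopen_univ
    have h' : Tendsto (fun n : ℕ => ν.real {g | sh (n : ℤ) g ∈ (univ : Set (Om k × Om k))})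
        (G : Filter ℕ) (𝓝 (ν.real univ)) := by
      refine tendsto_const_nhds.congr fun n => ?_
      simp
    have he := tendsto_nhds_unique h h'
    have hv : 0 < ν univ := by
      rw [hν, ← univ_prod_univ, Measure.prod_prod]
      exact ENNReal.mul_pos hN.pos1.ne' hN.pos2.ne'
    have hv' : 0 < ν.real univ := by
      rw [measureReal_def]
      exact ENNReal.toReal_pos hv.ne' (measure_ne_top _ _)
    rw [← he, measureReal_def] at hv'
    exact (ENNReal.toReal_pos_iff.1 hv').1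
  refine lt_of_lt_of_le ?_ (hdom' _)
  by_contra h0
  have h0' : τ {p | ((z, p), x) ∈ N} = 0 := le_antisymm (not_lt.1 h0) bot_le
  have : τ univ = 0 := by
    have hu : (univ : Set (Om k × Om k)) = {p | ((z, p), x) ∈ N} ∪ {p | ((z, p), x) ∉ N} := by
      ext p
      simp [em]
    rw [hu]
    exact measure_union_null h0' hcar
  exact hpos.ne' this

end Pool.Agent.Work.MP_69fea5_lc.W3
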