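import Pool.Agent.Work.MP_69fea5_lc.W3.StmtsM

/-!
Block [69fea5 F], main line, item MAT: the positive theorem.
-/

set_option autoImplicit false

namespace Pool.Agent.Work.MP_69fea5_lc.W3

open MeasureTheory Topology Set Filter TopologicalSpace
open scoped NNReal ENNReal
open Pool.Agent.Work.MP_69fea5_lc.AK
open Pool.Agent.Work.MP_69fea5_lc.HK (Cl DU Ar ArF ArR Dat Law LawC act near sc Pt oc Mn mr ext)
open Pool.Agent.Work.MP_69fea5_lc.KC (Agree)

theorem MAT_pf (hEXTC : KC.S_EXTC) (hORB : AK.S_ORB) (hCB0 : S_CB0) (hSTF : S_STF) : S_MAT := by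
  intro S hS k c hc
  obtain ⟨S', hS', hco, hmem, hsub⟩ :=
    HK.exists_cl_countable (HK.cod fun p : ℕ × Fin k => c p.1 = p.2)
  obtain ⟨U, hU⟩ := HK.exists_DU hS' hco
  have hc' : ArF S' c := hmem
  have key : N3.SolT S' c := by
    by_contra hno
    have hpc := hEXTC S' hS' k c hc'
    obtain ⟨⟨A, hA⟩, h0⟩ := hCB0 S' U hS' hU k (ext c) hpc
    have hall : ∀ j : ℕ, Psi S' (ext c : Om k) j := by
      intro j
      induction j with
      | zero => exact h0
      | succ j ih => exact hSTF S' U hS' hU k c hc' hpc hno j ih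
    obtain ⟨m, hm, -, hm2⟩ := hall (k + 1) Unit A () hA
    have h1 := hm2 () m hA.pt hm (hORB (Unit × PM k) ((), m)).2.2.1 hA.ex
    have h2 : (pal m).card ≤ k := by
      have := Finset.card_le_univ (pal m)
      simpa using this
    omega
  obtain ⟨A, hA, hA'⟩ := key
  exact ⟨A, hsub S hS hc hA, hA'⟩

end Pool.Agent.Work.MP_69fea5_lc.W3
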