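import Pool.Agent.Work.MP_69fea5_lc.W3.StmtsE

/-!
# Block [69fea5 F], item MCE: McMahon's pseudometric for triples
-/

set_option autoImplicit false

namespace Pool.Agent.Work.MP_69fea5_lc.W3

open MeasureTheory Topology Set Filter ProbabilityTheory
open scoped NNReal ENNReal
open Pool.Agent.Work.MP_69fea5_lc.AK
open Pool.Agent.Work.MP_69fea5_lc.N3 (W2 bx sup2 St nxt Bl3 CaseII3 GRD)

namespace I_MCE

variable {k : ℕ}

/-- the product measure -/
noncomputable def kk {X : Type} (μ ν : X → PM k) (y : X) : Measure (Om k × Om k) :=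
  (μ y : Measure (Om k)).prod (ν y : Measure (Om k))

instance {X : Type} (μ ν : X → PM k) (y : X) : IsProbabilityMeasure (kk μ ν y) := by
  unfold kk
  infer_instance

theorem usc (h1 : S_PRU) {X : Type} [TopologicalSpace X] (μ ν : X → PM k) (hμ : Continuous μ)
    (hν : Continuous ν) (F : Set ((Om k × Om k) × X)) (hF : IsClosed F) (a : ℝ) :
    IsClosed {y : X | a ≤ (kk μ ν y).real {p | (p, y) ∈ F}} := by
  have h := h1 k X μ ν hμ hν F hF (ENNReal.ofReal a)
  convert h using 1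
  ext y
  exact (ENNReal.ofReal_le_iff_le_toReal (measure_ne_top (kk μ ν y) _)).symm

/-- two usc functions with constant sum on a set are continuous on it -/
theorem cont_of_usc {X : Type} [TopologicalSpace X] {F : Set X} {f g : X → ℝ} {s : ℝ}
    (hf : ∀ a : ℝ, IsClosed {q | a ≤ f q}) (hg : ∀ a : ℝ, IsClosed {q | a ≤ g q})
    (hs : ∀ q ∈ F, f q + g q = s) : ContinuousOn f F := by
  have up : ∀ (h : X → ℝ), (∀ a : ℝ, IsClosed {q | a ≤ h q}) → ∀ (q₀ : X) (b : ℝ),
      h q₀ < b → ∀ᶠ q in 𝓝 q₀, h q < b := by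
    intro h hh q₀ b hb
    have h2 : q₀ ∈ {q | b ≤ h q}ᶜ := by
      intro hle
      have h3 : b ≤ h q₀ := hle
      linarith
    filter_upwards [(hh b).isOpen_compl.mem_nhds h2] with q hq
    by_contra hcon
    push Not at hcon
    exact hq hcon
  intro q₀ hq₀
  refine tendsto_order.2 ⟨fun b hb => ?_, fun b hb => ?_⟩
  · have h0 := hs q₀ hq₀
    have h1 := up g hg q₀ (s - b) (by linarith)
    filter_upwards [nhdsWithin_le_nhds h1, self_mem_nhdsWithin] with q hq hqF
    have h2 := hs q hqF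
    linarith
  · exact nhdsWithin_le_nhds (up f hf q₀ b hb)

theorem equi {X : Type} [TopologicalSpace X] [Sys X] (μ ν : X → PM k)
    (hμ : ∀ (n : ℤ) (y : X), μ (sh n y) = sh n (μ y))
    (hν : ∀ (n : ℤ) (y : X), ν (sh n y) = sh n (ν y)) (n : ℤ) (y : X)
    (A : Set (Om k × Om k)) (hA : MeasurableSet A) :
    (kk μ ν (sh n y)).real A = (kk μ ν y).real {p | sh n p ∈ A} := by
  have hm : Measurable (sh n : Om k → Om k) := (sh_cont n).measurable
  have e1 : kk μ ν (sh n y) = (kk μ ν y).map (Prod.map (sh n : Om k → Om k) (sh n)) := by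
    unfold kk
    rw [hμ n y, hν n y]
    change (Measure.map (sh n : Om k → Om k) (μ y : Measure (Om k))).prod
      (Measure.map (sh n : Om k → Om k) (ν y : Measure (Om k))) = _
    rw [Measure.map_prod_map _ _ hm hm]
  rw [e1, measureReal_def, measureReal_def, Measure.map_apply (hm.prodMap hm) hA]
  rfl

theorem union_le (m : Measure (Om k × Om k)) [IsFiniteMeasure m] {A B C : Set (Om k × Om k)}
    (h : A ⊆ B ∪ C) : m.real A ≤ m.real B + m.real C :=
  (measureReal_mono h).trans (measureReal_union_le B C)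

end I_MCE

open I_MCE in
theorem MCE_pf (h1 : S_PRU) (h2 : AK.S_CST) : S_MCE := by
  intro k X _ _ M μ ν hM hμ hν eμ eν N hN hNi
  have hinvN : ∀ (n : ℤ) (w : Om k) (p : Om k × Om k) (y : X),
      ((sh n w, sh n p), sh n y) ∈ N ↔ ((w, p), y) ∈ N := by
    intro n w p y
    constructor
    · intro h
      have h3 := hNi (-n) _ h
      change ((sh (-n) (sh n w), sh (-n) (sh n p)), sh (-n) (sh n y)) ∈ N at h3
      rw [← sh_add, ← sh_add, ← sh_add, neg_add_cancel, sh_zero, sh_zero, sh_zero] at h3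
      exact h3
    · exact fun h => hNi n _ h
  have hsec : ∀ (w : Om k) (y : X), IsClosed {p : Om k × Om k | ((w, p), y) ∈ N} := fun w y =>
    hN.preimage (by fun_prop : Continuous fun p : Om k × Om k => ((w, p), y))
  have hms : ∀ (w : Om k) (y : X), MeasurableSet {p : Om k × Om k | ((w, p), y) ∈ N} :=
    fun w y => (hsec w y).measurableSet
  have hset : ∀ (n : ℤ) (w : Om k) (y : X), {p : Om k × Om k | sh n p ∈
      {p : Om k × Om k | ((sh n w, p), sh n y) ∈ N}} = {p | ((w, p), y) ∈ N} := by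
    intro n w y
    ext p
    exact hinvN n w p y
  -- the masses
  have hmass : ∀ q ∈ M, ∀ q' ∈ M, (kk μ ν q.2).real {p | ((q.1, p), q.2) ∈ N} =
      (kk μ ν q'.2).real {p | ((q'.1, p), q'.2) ∈ N} := by
    refine h2 (Om k × X) M (fun q => (kk μ ν q.2).real {p | ((q.1, p), q.2) ∈ N}) hM ?_ ?_
    · intro n q _
      show (kk μ ν (sh n q.2)).real {p | ((sh n q.1, p), sh n q.2) ∈ N} = _
      rw [equi μ ν eμ eν n q.2 _ (hms _ _), hset]
    · intro a
      refine hM.closed.inter ?_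
      have hF : IsClosed {p : (Om k × Om k) × (Om k × X) | ((p.2.1, p.1), p.2.2) ∈ N} :=
        hN.preimage (by fun_prop)
      exact usc h1 (fun q : Om k × X => μ q.2) (fun q : Om k × X => ν q.2)
        (hμ.comp continuous_snd) (hν.comp continuous_snd) _ hF a
  obtain ⟨q₀, hq₀⟩ := hM.ne
  refine ⟨⟨kk μ ν q₀.2 {p | ((q₀.1, p), q₀.2) ∈ N}, ?_⟩, ?_⟩
  · intro w y hwy
    have h3 := hmass (w, y) hwy q₀ hq₀
    rw [measureReal_def, measureReal_def,
      ENNReal.toReal_eq_toReal_iff' (measure_ne_top _ _) (measure_ne_top _ _)] at h3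
    exact h3
  · set a : ℝ := (kk μ ν q₀.2).real {p | ((q₀.1, p), q₀.2) ∈ N} with ha
    have hval : ∀ w y, (w, y) ∈ M → (kk μ ν y).real {p | ((w, p), y) ∈ N} = a :=
      fun w y h => hmass (w, y) h q₀ hq₀
    refine ⟨?_, ?_, ?_, ?_, ?_, ?_⟩
    · -- continuity
      set F : Set (Om k × Om k × X) := {q | (q.1, q.2.2) ∈ M ∧ (q.2.1, q.2.2) ∈ M} with hF
      set K1 : Set ((Om k × Om k) × (Om k × Om k × X)) :=
        {p | ((p.2.1, p.1), p.2.2.2) ∈ N ∧ ((p.2.2.1, p.1), p.2.2.2) ∈ N} with hK1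
      set K2 : Set ((Om k × Om k) × (Om k × Om k × X)) :=
        {p | ((p.2.1, p.1), p.2.2.2) ∈ N ∨ ((p.2.2.1, p.1), p.2.2.2) ∈ N} with hK2
      have c1 : Continuous fun p : (Om k × Om k) × (Om k × Om k × X) =>
          ((p.2.1, p.1), p.2.2.2) := by fun_prop
      have c2 : Continuous fun p : (Om k × Om k) × (Om k × Om k × X) =>
          ((p.2.2.1, p.1), p.2.2.2) := by fun_prop
      have k1 : IsClosed K1 := (hN.preimage c1).inter (hN.preimage c2)
      have k2 : IsClosed K2 := (hN.preimage c1).union (hN.preimage c2)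
      have hμ' : Continuous fun q : Om k × Om k × X => μ q.2.2 := by fun_prop
      have hν' : Continuous fun q : Om k × Om k × X => ν q.2.2 := by fun_prop
      have hc1 : ContinuousOn (fun q : Om k × Om k × X => (kk μ ν q.2.2).real
          ({p | ((q.1, p), q.2.2) ∈ N} ∩ {p | ((q.2.1, p), q.2.2) ∈ N})) F := by
        refine cont_of_usc (g := fun q : Om k × Om k × X => (kk μ ν q.2.2).real
          ({p | ((q.1, p), q.2.2) ∈ N} ∪ {p | ((q.2.1, p), q.2.2) ∈ N})) (s := 2 * a)
          (fun b => usc h1 (fun q : Om k × Om k × X => μ q.2.2)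
            (fun q : Om k × Om k × X => ν q.2.2) hμ' hν' K1 k1 b)
          (fun b => usc h1 (fun q : Om k × Om k × X => μ q.2.2)
            (fun q : Om k × Om k × X => ν q.2.2) hμ' hν' K2 k2 b) ?_
        intro q hq
        have h3 := hval _ _ hq.1
        have h4 := hval _ _ hq.2
        have h5 := measureReal_union_add_inter (μ := kk μ ν q.2.2)
          (s := {p | ((q.1, p), q.2.2) ∈ N}) (t := {p | ((q.2.1, p), q.2.2) ∈ N}) (hms _ _)
        linarith
      refine ((continuousOn_const (c := 2 * a)).sub (hc1.const_smul (2 : ℝ))).congr ?_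
      intro q hq
      have h3 := hval _ _ hq.1
      have h4 := hval _ _ hq.2
      show (kk μ ν q.2.2).real ({p | ((q.1, p), q.2.2) ∈ N} \ {p | ((q.2.1, p), q.2.2) ∈ N}) +
        (kk μ ν q.2.2).real ({p | ((q.2.1, p), q.2.2) ∈ N} \ {p | ((q.1, p), q.2.2) ∈ N}) =
        2 * a - (2 : ℝ) • (kk μ ν q.2.2).real
          ({p | ((q.1, p), q.2.2) ∈ N} ∩ {p | ((q.2.1, p), q.2.2) ∈ N})
      rw [smul_eq_mul]
      have h5 := measureReal_sdiff_add_inter (μ := kk μ ν q.2.2)
        (s := {p | ((q.1, p), q.2.2) ∈ N}) (t := {p | ((q.2.1, p), q.2.2) ∈ N}) (hms _ _)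
      have h6 := measureReal_sdiff_add_inter (μ := kk μ ν q.2.2)
        (s := {p | ((q.2.1, p), q.2.2) ∈ N}) (t := {p | ((q.1, p), q.2.2) ∈ N}) (hms _ _)
      rw [inter_comm {p | ((q.2.1, p), q.2.2) ∈ N}] at h6
      linarith
    · -- invariance
      intro n z z' x _ _
      show (kk μ ν (sh n x)).real ({p | ((sh n z, p), sh n x) ∈ N} \
          {p | ((sh n z', p), sh n x) ∈ N}) + (kk μ ν (sh n x)).real
          ({p | ((sh n z', p), sh n x) ∈ N} \ {p | ((sh n z, p), sh n x) ∈ N}) =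
        (kk μ ν x).real ({p | ((z, p), x) ∈ N} \ {p | ((z', p), x) ∈ N}) +
          (kk μ ν x).real ({p | ((z', p), x) ∈ N} \ {p | ((z, p), x) ∈ N})
      have hd : ∀ a b : Om k, (kk μ ν (sh n x)).real ({p | ((sh n a, p), sh n x) ∈ N} \
          {p | ((sh n b, p), sh n x) ∈ N}) =
          (kk μ ν x).real ({p | ((a, p), x) ∈ N} \ {p | ((b, p), x) ∈ N}) := by
        intro a b
        rw [equi μ ν eμ eν n x _ ((hms _ _).diff (hms _ _))]
        congr 1
        ext p
        have e1 := hinvN n a p x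
        have e2 := hinvN n b p x
        simp only [Set.mem_sdiff, mem_ofPred_eq, e1, e2]
      rw [hd, hd]
    · intro z x _
      show (kk μ ν x).real ({p | ((z, p), x) ∈ N} \ {p | ((z, p), x) ∈ N}) +
          (kk μ ν x).real ({p | ((z, p), x) ∈ N} \ {p | ((z, p), x) ∈ N}) = 0
      simp
    · intro z z' x _ _
      show (0 : ℝ) ≤ (kk μ ν x).real ({p | ((z, p), x) ∈ N} \ {p | ((z', p), x) ∈ N}) +
          (kk μ ν x).real ({p | ((z', p), x) ∈ N} \ {p | ((z, p), x) ∈ N})
      positivity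
    · intro z z' x _ _
      show (kk μ ν x).real ({p | ((z, p), x) ∈ N} \ {p | ((z', p), x) ∈ N}) +
          (kk μ ν x).real ({p | ((z', p), x) ∈ N} \ {p | ((z, p), x) ∈ N}) =
        (kk μ ν x).real ({p | ((z', p), x) ∈ N} \ {p | ((z, p), x) ∈ N}) +
          (kk μ ν x).real ({p | ((z, p), x) ∈ N} \ {p | ((z', p), x) ∈ N})
      rw [add_comm]
    · intro z z' z'' x _ _ _
      have key : ∀ A B C : Set (Om k × Om k), (kk μ ν x).real (A \ C) ≤
          (kk μ ν x).real (A \ B) + (kk μ ν x).real (B \ C) := by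
        intro A B C
        refine union_le (kk μ ν x) ?_
        rintro p ⟨hA, hC⟩
        by_cases hB : p ∈ B
        · exact Or.inr ⟨hB, hC⟩
        · exact Or.inl ⟨hA, hB⟩
      show (kk μ ν x).real ({p | ((z, p), x) ∈ N} \ {p | ((z'', p), x) ∈ N}) +
          (kk μ ν x).real ({p | ((z'', p), x) ∈ N} \ {p | ((z, p), x) ∈ N}) ≤
        ((kk μ ν x).real ({p | ((z, p), x) ∈ N} \ {p | ((z', p), x) ∈ N}) +
          (kk μ ν x).real ({p | ((z', p), x) ∈ N} \ {p | ((z, p), x) ∈ N})) +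
        ((kk μ ν x).real ({p | ((z', p), x) ∈ N} \ {p | ((z'', p), x) ∈ N}) +
          (kk μ ν x).real ({p | ((z'', p), x) ∈ N} \ {p | ((z', p), x) ∈ N}))
      have h3 := key {p | ((z, p), x) ∈ N} {p | ((z', p), x) ∈ N} {p | ((z'', p), x) ∈ N}
      have h4 := key {p | ((z'', p), x) ∈ N} {p | ((z', p), x) ∈ N} {p | ((z, p), x) ∈ N}
      linarith

end Pool.Agent.Work.MP_69fea5_lc.W3
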