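import Pool.Agent.Work.MP_69fea5_lc.W3.StmtsT
import Pool.Agent.Work.MP_69fea5_lc.AK.I_CST

/-!
# Block [69fea5 T], item MCM: McMahon's argument over a general base
-/

set_option autoImplicit false
set_option linter.style.haveILetI false

namespace Pool.Agent.Work.MP_69fea5_lc.W3

open MeasureTheory Topology Set Filter TopologicalSpace ProbabilityTheory
open scoped NNReal ENNReal unitInterval
open Pool.Agent.Work.MP_69fea5_lc.AK

namespace I_MCM

theorem sc (K : Type) [TopologicalSpace K] [CompactSpace K] [MetrizableSpace K] :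
    SecondCountableTopology K := by
  letI := TopologicalSpace.metrizableSpaceMetric K
  exact EMetric.secondCountable_of_sigmaCompact K

theorem usc {K Y : Type} [TopologicalSpace K] [MeasurableSpace K] [CompactSpace K]
    [MetrizableSpace K] [BorelSpace K] [TopologicalSpace Y]
    (μ : Y → ProbabilityMeasure K) (hμ : Continuous μ) (F : Set (K × Y)) (hF : IsClosed F)
    (b : ℝ) : IsClosed {y : Y | b ≤ (μ y : Measure K).real {q | (q, y) ∈ F}} := by
  rcases le_or_gt b 0 with hb | hb
  · convert isClosed_univ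
    ext y
    simp only [mem_ofPred_eq, mem_univ, iff_true]
    exact hb.trans measureReal_nonneg
  · lift b to ℝ≥0 using hb.le
    have h := (N3.USG_pf K Y F hF b).preimage (hμ.prodMk continuous_id)
    have e : {y : Y | (b : ℝ) ≤ (μ y : Measure K).real {q | (q, y) ∈ F}} =
        (fun x => (μ x, id x)) ⁻¹' {p : ProbabilityMeasure K × Y |
          b ≤ p.1 {y | (y, p.2) ∈ F}} := by
      ext y
      exact NNReal.coe_le_coe (r₁ := b) (r₂ := μ y {q | (q, y) ∈ F})
    rw [e]
    exact h

/-- the weighted mass is a mass -/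
theorem wt {K : Type} [TopologicalSpace K] [MeasurableSpace K] [CompactSpace K]
    [MetrizableSpace K] [BorelSpace K] (μ : ProbabilityMeasure K) (g : K → I)
    (hg : Continuous g) (S : Set K) (hS : MeasurableSet S) :
    ((μ : Measure K).prod (volume : Measure I)).real {p : K × I | p.1 ∈ S ∧ p.2 ≤ g p.1} =
      ∫ q in S, (g q : ℝ) ∂(μ : Measure K) := by
  haveI := sc K
  have hT : MeasurableSet {p : K × I | p.1 ∈ S ∧ p.2 ≤ g p.1} :=
    (measurable_fst hS).inter
      (isClosed_le continuous_snd (hg.comp continuous_fst)).measurableSet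
  have hgm : Measurable fun q => (g q : ℝ) := (continuous_subtype_val.comp hg).measurable
  rw [measureReal_def, Measure.prod_apply hT]
  have e1 : ∀ q : K, (volume : Measure I) (Prod.mk q ⁻¹' {p : K × I | p.1 ∈ S ∧ p.2 ≤ g p.1}) =
      S.indicator (fun q => ENNReal.ofReal (g q)) q := by
    intro q
    by_cases hq : q ∈ S
    · rw [indicator_of_mem hq, ← unitInterval.volume_Iic]
      congr 1
      ext t
      simp [hq]
    · rw [indicator_of_notMem hq]
      have : Prod.mk q ⁻¹' {p : K × I | p.1 ∈ S ∧ p.2 ≤ g p.1} = ∅ := by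
        ext t
        simp [hq]
      rw [this, measure_empty]
  simp_rw [e1]
  rw [lintegral_indicator hS, integral_eq_lintegral_of_nonneg_ae
    (Filter.Eventually.of_forall fun q => (g q).2.1) hgm.aestronglyMeasurable]

/-- two usc functions with constant sum on a set are continuous on it -/
theorem cont_of_usc {X : Type} [TopologicalSpace X] {F : Set X} {f g : X → ℝ} {s : ℝ}
    (hf : ∀ a : ℝ, IsClosed {q | a ≤ f q}) (hg : ∀ a : ℝ, IsClosed {q | a ≤ g q})
    (hs : ∀ q ∈ F, f q + g q = s) : ContinuousOn f F := by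
  have up : ∀ (h : X → ℝ), (∀ a : ℝ, IsClosed {q | a ≤ h q}) → ∀ (q₀ : X) (b : ℝ),
      h q₀ < b → ∀ᶠ q in 𝓝 q₀, h q < b := by
    intro h hh q₀ b hb
    have h2 : q₀ ∈ {q | b ≤ h q}ᶜ := by
      intro hle
      have h3 : b ≤ h q₀ := hle
      linarith
    filter_upwards [(hh b).isOpen_compl.mem_nhds h2] with q hq
    by_contra hcon
    push Not at hcon
    exact hq hcon
  intro q₀ hq₀
  refine tendsto_order.2 ⟨fun b hb => ?_, fun b hb => ?_⟩
  · have h0 := hs q₀ hq₀
    have h1 := up g hg q₀ (s - b) (by linarith)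
    filter_upwards [nhdsWithin_le_nhds h1, self_mem_nhdsWithin] with q hq hqF
    have h2 := hs q hqF
    linarith
  · exact nhdsWithin_le_nhds (up f hf q₀ b hb)

theorem equi {K X : Type} [TopologicalSpace K] [MeasurableSpace K] [CS K] [Sys K]
    [TopologicalSpace X] [Sys X] (κ : X → ProbabilityMeasure K)
    (hκ : ∀ (n : ℤ) (x : X), κ (sh n x) = sh n (κ x)) (n : ℤ) (y : X)
    (A : Set K) (hA : MeasurableSet A) :
    (κ (sh n y) : Measure K).real A = (κ y : Measure K).real {p | sh n p ∈ A} := by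
  have hm : Measurable (sh n : K → K) := (sh_cont n).measurable
  rw [hκ n y]
  change (Measure.map (sh n : K → K) (κ y : Measure K)).real A = _
  rw [measureReal_def, measureReal_def, Measure.map_apply hm hA]
  rfl

end I_MCM

open I_MCM in
theorem MCM_pf : S_MCM := by
  intro O K X _ _ _ _ _ _ _ _ _ _ _ _ A κ N hA hκ eκ hN hNi
  have hinvN : ∀ (n : ℤ) (w : O) (p : K) (y : X),
      (sh n w, sh n p, sh n y) ∈ N ↔ (w, p, y) ∈ N := by
    intro n w p y
    constructor
    · intro h
      have h3 := hNi (-n) _ h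
      change (sh (-n) (sh n w), sh (-n) (sh n p), sh (-n) (sh n y)) ∈ N at h3
      rw [← sh_add, ← sh_add, ← sh_add, neg_add_cancel, sh_zero, sh_zero, sh_zero] at h3
      exact h3
    · exact fun h => hNi n _ h
  have hsec : ∀ (w : O) (y : X), IsClosed {p : K | (w, p, y) ∈ N} := fun w y =>
    hN.preimage (by fun_prop : Continuous fun p : K => (w, p, y))
  have hms : ∀ (w : O) (y : X), MeasurableSet {p : K | (w, p, y) ∈ N} :=
    fun w y => (hsec w y).measurableSet
  have hset : ∀ (n : ℤ) (w : O) (y : X), {p : K | sh n p ∈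
      {p : K | (sh n w, p, sh n y) ∈ N}} = {p | (w, p, y) ∈ N} := by
    intro n w y
    ext p
    exact hinvN n w p y
  have hmass : ∀ q ∈ A, ∀ q' ∈ A, (κ q.2 : Measure K).real {p | (q.1, p, q.2) ∈ N} =
      (κ q'.2 : Measure K).real {p | (q'.1, p, q'.2) ∈ N} := by
    refine CST_pf (O × X) A (fun q => (κ q.2 : Measure K).real {p | (q.1, p, q.2) ∈ N}) hA ?_ ?_
    · intro n q _
      show (κ (sh n q.2) : Measure K).real {p | (sh n q.1, p, sh n q.2) ∈ N} = _
      rw [equi κ eκ n q.2 _ (hms _ _), hset]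
    · intro a
      refine hA.closed.inter ?_
      have hF : IsClosed {p : K × (O × X) | (p.2.1, p.1, p.2.2) ∈ N} :=
        hN.preimage (by fun_prop)
      exact usc (fun q : O × X => κ q.2) (hκ.comp continuous_snd) _ hF a
  obtain ⟨q₀, hq₀⟩ := hA.ne
  set a : ℝ := (κ q₀.2 : Measure K).real {p | (q₀.1, p, q₀.2) ∈ N} with ha
  have hval : ∀ w y, (w, y) ∈ A → (κ y : Measure K).real {p | (w, p, y) ∈ N} = a :=
    fun w y h => hmass (w, y) h q₀ hq₀
  have hIPB : IPB A (fun u u' x => (κ x {q | (u, q, x) ∈ N ∧ (u', q, x) ∉ N} : ℝ) +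
    κ x {q | (u', q, x) ∈ N ∧ (u, q, x) ∉ N}) := by
    refine ⟨?_, ?_, ?_, ?_, ?_, ?_⟩
    · -- continuity
      set F : Set (O × O × X) := {q | (q.1, q.2.2) ∈ A ∧ (q.2.1, q.2.2) ∈ A} with hF
      set K1 : Set (K × (O × O × X)) :=
        {p | (p.2.1, p.1, p.2.2.2) ∈ N ∧ (p.2.2.1, p.1, p.2.2.2) ∈ N} with hK1
      set K2 : Set (K × (O × O × X)) :=
        {p | (p.2.1, p.1, p.2.2.2) ∈ N ∨ (p.2.2.1, p.1, p.2.2.2) ∈ N} with hK2
      have c1 : Continuous fun p : K × (O × O × X) => (p.2.1, p.1, p.2.2.2) := by fun_prop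
      have c2 : Continuous fun p : K × (O × O × X) => (p.2.2.1, p.1, p.2.2.2) := by fun_prop
      have k1 : IsClosed K1 := (hN.preimage c1).inter (hN.preimage c2)
      have k2 : IsClosed K2 := (hN.preimage c1).union (hN.preimage c2)
      have hμ' : Continuous fun q : O × O × X => κ q.2.2 := by fun_prop
      have hc1 : ContinuousOn (fun q : O × O × X => (κ q.2.2 : Measure K).real
          ({p | (q.1, p, q.2.2) ∈ N} ∩ {p | (q.2.1, p, q.2.2) ∈ N})) F := by
        refine cont_of_usc (g := fun q : O × O × X => (κ q.2.2 : Measure K).real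
          ({p | (q.1, p, q.2.2) ∈ N} ∪ {p | (q.2.1, p, q.2.2) ∈ N})) (s := 2 * a)
          (fun b => usc (fun q : O × O × X => κ q.2.2) hμ' K1 k1 b)
          (fun b => usc (fun q : O × O × X => κ q.2.2) hμ' K2 k2 b) ?_
        intro q hq
        have h3 := hval _ _ hq.1
        have h4 := hval _ _ hq.2
        have h5 := measureReal_union_add_inter (μ := (κ q.2.2 : Measure K))
          (s := {p | (q.1, p, q.2.2) ∈ N}) (t := {p | (q.2.1, p, q.2.2) ∈ N}) (hms _ _)
        linarith
      refine ((continuousOn_const (c := 2 * a)).sub (hc1.const_smul (2 : ℝ))).congr ?_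
      intro q hq
      have h3 := hval _ _ hq.1
      have h4 := hval _ _ hq.2
      show (κ q.2.2 : Measure K).real ({p | (q.1, p, q.2.2) ∈ N} \ {p | (q.2.1, p, q.2.2) ∈ N}) +
        (κ q.2.2 : Measure K).real ({p | (q.2.1, p, q.2.2) ∈ N} \ {p | (q.1, p, q.2.2) ∈ N}) =
        2 * a - (2 : ℝ) • (κ q.2.2 : Measure K).real
          ({p | (q.1, p, q.2.2) ∈ N} ∩ {p | (q.2.1, p, q.2.2) ∈ N})
      rw [smul_eq_mul]
      have h5 := measureReal_sdiff_add_inter (μ := (κ q.2.2 : Measure K))
        (s := {p | (q.1, p, q.2.2) ∈ N}) (t := {p | (q.2.1, p, q.2.2) ∈ N}) (hms _ _)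
      have h6 := measureReal_sdiff_add_inter (μ := (κ q.2.2 : Measure K))
        (s := {p | (q.2.1, p, q.2.2) ∈ N}) (t := {p | (q.1, p, q.2.2) ∈ N}) (hms _ _)
      rw [inter_comm {p | (q.2.1, p, q.2.2) ∈ N}] at h6
      linarith
    · -- invariance
      intro n x z z' _ _
      show (κ (sh n x) : Measure K).real ({p | (sh n z, p, sh n x) ∈ N} \
          {p | (sh n z', p, sh n x) ∈ N}) + (κ (sh n x) : Measure K).real
          ({p | (sh n z', p, sh n x) ∈ N} \ {p | (sh n z, p, sh n x) ∈ N}) =
        (κ x : Measure K).real ({p | (z, p, x) ∈ N} \ {p | (z', p, x) ∈ N}) +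
          (κ x : Measure K).real ({p | (z', p, x) ∈ N} \ {p | (z, p, x) ∈ N})
      have hd : ∀ a b : O, (κ (sh n x) : Measure K).real ({p | (sh n a, p, sh n x) ∈ N} \
          {p | (sh n b, p, sh n x) ∈ N}) =
          (κ x : Measure K).real ({p | (a, p, x) ∈ N} \ {p | (b, p, x) ∈ N}) := by
        intro a b
        rw [equi κ eκ n x _ ((hms _ _).diff (hms _ _))]
        congr 1
        ext p
        have e1 := hinvN n a p x
        have e2 := hinvN n b p x
        simp only [Set.mem_sdiff, mem_ofPred_eq, e1, e2]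
      rw [hd, hd]
    · intro x z _
      show (κ x : Measure K).real ({p | (z, p, x) ∈ N} \ {p | (z, p, x) ∈ N}) +
          (κ x : Measure K).real ({p | (z, p, x) ∈ N} \ {p | (z, p, x) ∈ N}) = 0
      simp
    · intro x z z' _ _
      positivity
    · intro x z z' _ _
      exact add_comm _ _
    · intro x z z' z'' _ _ _
      have key : ∀ A B C : Set K, (κ x : Measure K).real (A \ C) ≤
          (κ x : Measure K).real (A \ B) + (κ x : Measure K).real (B \ C) := by
        intro A B C
        refine (measureReal_mono ?_).trans (measureReal_union_le _ _)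
        rintro p ⟨hA, hC⟩
        by_cases hB : p ∈ B
        · exact Or.inr ⟨hB, hC⟩
        · exact Or.inl ⟨hA, hB⟩
      show (κ x : Measure K).real ({p | (z, p, x) ∈ N} \ {p | (z'', p, x) ∈ N}) +
          (κ x : Measure K).real ({p | (z'', p, x) ∈ N} \ {p | (z, p, x) ∈ N}) ≤
        ((κ x : Measure K).real ({p | (z, p, x) ∈ N} \ {p | (z', p, x) ∈ N}) +
          (κ x : Measure K).real ({p | (z', p, x) ∈ N} \ {p | (z, p, x) ∈ N})) +
        ((κ x : Measure K).real ({p | (z', p, x) ∈ N} \ {p | (z'', p, x) ∈ N}) +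
          (κ x : Measure K).real ({p | (z'', p, x) ∈ N} \ {p | (z', p, x) ∈ N}))
      have h3 := key {p | (z, p, x) ∈ N} {p | (z', p, x) ∈ N} {p | (z'', p, x) ∈ N}
      have h4 := key {p | (z'', p, x) ∈ N} {p | (z', p, x) ∈ N} {p | (z, p, x) ∈ N}
      linarith
  refine ⟨⟨κ q₀.2 {q | (q₀.1, q, q₀.2) ∈ N}, ?_⟩, ?_, hIPB, ?_⟩
  · intro p hp
    have h3 : (κ p.2 : Measure K).real {q | (p.1, q, p.2) ∈ N} =
      (κ q₀.2 : Measure K).real {q | (q₀.1, q, q₀.2) ∈ N} := hmass p hp q₀ hq₀
    exact NNReal.coe_injective h3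
  · intro g hg
    haveI := sc K
    obtain ⟨C, hC⟩ : ∃ C : ℝ, ∀ q, |g q| ≤ C := by
      obtain ⟨C, hC⟩ := (isCompact_range hg).isBounded.exists_norm_le
      exact ⟨C, fun q => hC _ ⟨q, rfl⟩⟩
    set D : ℝ := |C| + 1 with hD
    have hDpos : 0 < D := by positivity
    have hgD : ∀ q, |g q| ≤ D := fun q => (hC q).trans (by
      have := le_abs_self C
      linarith)
    have hmem : ∀ q, (g q + D) / (2 * D) ∈ (Set.Icc 0 1 : Set ℝ) := by
      intro q
      have h1 := abs_le.1 (hgD q)
      constructor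
      · apply div_nonneg <;> linarith
      · rw [div_le_one (by linarith)]
        linarith
    set G : K → I := fun q => ⟨(g q + D) / (2 * D), hmem q⟩ with hG
    have hGc : Continuous G := by
      refine Continuous.subtype_mk ?_ _
      fun_prop
    have hGs : Continuous fun q => unitInterval.symm (G q) := unitInterval.continuous_symm.comp hGc
    -- upper semicontinuity of the weighted masses
    have husc : ∀ H : K → I, Continuous H → ∀ b : ℝ,
        IsClosed {p : O × X | b ≤ ∫ q in {q | (p.1, q, p.2) ∈ N}, (H q : ℝ) ∂(κ p.2 : Measure K)} := by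
      intro H hH b
      have hκ' : Continuous fun p : O × X =>
          (κ p.2).prod (⟨volume, inferInstance⟩ : ProbabilityMeasure I) :=
        (ProbabilityMeasure.continuous_prod).comp
          ((hκ.comp continuous_snd).prodMk continuous_const)
      have hF : IsClosed {z : (K × I) × (O × X) | (z.2.1, z.1.1, z.2.2) ∈ N ∧ z.1.2 ≤ H z.1.1} := by
        refine (hN.preimage (by fun_prop : Continuous fun z : (K × I) × (O × X) =>
          (z.2.1, z.1.1, z.2.2))).inter (isClosed_le (by fun_prop) (by fun_prop))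
      have h := usc (fun p : O × X =>
          (κ p.2).prod (⟨volume, inferInstance⟩ : ProbabilityMeasure I)) hκ' _ hF b
      convert h using 1
      ext p
      have e := wt (κ p.2) H hH {q | (p.1, q, p.2) ∈ N} (hms _ _)
      simp only [mem_ofPred_eq]
      rw [← e]
      rfl
    have hint : ∀ (H : K → I), Continuous H → ∀ p : O × X,
        IntegrableOn (fun q => (H q : ℝ)) {q | (p.1, q, p.2) ∈ N} (κ p.2 : Measure K) := by
      intro H hH p
      refine Integrable.mono' (g := fun _ => (1 : ℝ)) (integrable_const _)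
        (continuous_subtype_val.comp hH).measurable.aestronglyMeasurable
        (Filter.Eventually.of_forall fun q => ?_)
      rw [Real.norm_eq_abs, abs_le]
      have := (H q).2
      constructor <;> linarith [this.1, this.2]
    have hcG : ContinuousOn (fun p : O × X =>
        ∫ q in {q | (p.1, q, p.2) ∈ N}, (G q : ℝ) ∂(κ p.2 : Measure K)) A := by
      refine cont_of_usc (g := fun p : O × X =>
        ∫ q in {q | (p.1, q, p.2) ∈ N}, ((unitInterval.symm (G q) : I) : ℝ) ∂(κ p.2 : Measure K))
        (s := a) (husc G hGc) (husc _ hGs) ?_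
      intro p hp
      rw [← integral_add (hint G hGc p) (hint _ hGs p)]
      have e : ∀ q : K, (G q : ℝ) + ((unitInterval.symm (G q) : I) : ℝ) = 1 := by
        intro q
        rw [unitInterval.coe_symm_eq]
        ring
      simp_rw [e]
      rw [integral_const, smul_eq_mul, mul_one, measureReal_restrict_apply_univ]
      exact hval _ _ hp
    have hfin : ∀ p ∈ A, ∫ q in {q | (p.1, q, p.2) ∈ N}, g q ∂(κ p.2 : Measure K) =
        (2 * D) * ∫ q in {q | (p.1, q, p.2) ∈ N}, (G q : ℝ) ∂(κ p.2 : Measure K) - D * a := by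
      intro p hp
      have e : ∀ q : K, g q = (2 * D) * (G q : ℝ) - D := by
        intro q
        simp only [hG]
        field_simp
        ring
      simp_rw [e]
      rw [integral_sub ((hint G hGc p).const_mul _) (integrable_const _), integral_const_mul,
        integral_const, smul_eq_mul, measureReal_restrict_apply_univ, hval _ _ hp, mul_comm a D]
    exact ((continuousOn_const.mul hcG).sub continuousOn_const).congr hfin
  · intro C _ _ θ hθ x u u' hu hu' hθu
    have h := hθ _ hIPB x u u' hu hu' hθu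
    have h1 : (κ x {q | (u, q, x) ∈ N ∧ (u', q, x) ∉ N} : ℝ) = 0 := by
      have h2 : (0 : ℝ) ≤ (κ x {q | (u, q, x) ∈ N ∧ (u', q, x) ∉ N} : ℝ) := NNReal.coe_nonneg _
      have h3 : (0 : ℝ) ≤ (κ x {q | (u', q, x) ∈ N ∧ (u, q, x) ∉ N} : ℝ) := NNReal.coe_nonneg _
      linarith
    exact NNReal.coe_eq_zero.1 h1

end Pool.Agent.Work.MP_69fea5_lc.W3
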