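import Pool.Agent.Work.MP_69fea5_lc.W3.StmtsM

/-!
Block [69fea5 F], main line, item MEC: limits of coded times.
-/

set_option autoImplicit false

namespace Pool.Agent.Work.MP_69fea5_lc.W3

open MeasureTheory Topology Set Filter TopologicalSpace
open scoped NNReal ENNReal
open Pool.Agent.Work.MP_69fea5_lc.AK
open Pool.Agent.Work.MP_69fea5_lc.HK (Cl DU Ar ArF ArR Dat Law LawC act near sc Pt oc Mn mr ext)
open Pool.Agent.Work.MP_69fea5_lc.KC (Agree)

namespace I_MEC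

theorem exists_act {α : Type} [TopologicalSpace α] [Dat α] {w x : α} (h : x ∈ oc w) {V : Set α}
    (hV : V ∈ 𝓝 x) : ∃ n : ℤ, act n w ∈ V := by
  obtain ⟨_, h1, n, rfl⟩ := mem_closure_iff_nhds.1 h V hV
  exact ⟨n, h1⟩

theorem ar_ball {S : Set (Set ℕ)} (hS : Cl S) {α : Type} [Primcodable α] {k : ℕ}
    (F : Finset (Fin k)) (Q : Fin k → α → Prop) (h : ∀ i, Ar S fun a => Q i a) :
    Ar S fun a => ∀ i ∈ F, Q i a := by
  classical
  induction F using Finset.induction_on with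
  | empty => exact (Ar.const hS True).congr fun a => by simp
  | insert j F hj ih =>
    refine (Ar.and hS (h j) ih).congr fun a => ?_
    simp only [Finset.mem_insert, forall_eq_or_imp]

/-- the mass of a letter at `0` -/
theorem mass_zero {k : ℕ} (m : PM k) (D : Finset (Fin k)) (h : m {z | z 0 ∉ D} = 0) (i : Fin k)
    (hi : i ∉ D) : mr m (HK.cyl [((0 : ℤ), i)]) = 0 := by
  rw [HK.mr_eq]
  have h1 : m (HK.cyl [((0 : ℤ), i)]) ≤ m {z | z 0 ∉ D} := by
    apply ProbabilityMeasure.apply_mono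
    intro z hz
    have : z 0 = i := hz ((0 : ℤ), i) (by simp)
    change z 0 ∉ D
    rw [this]
    exact hi
  rw [h] at h1
  have h2 : m (HK.cyl [((0 : ℤ), i)]) = 0 := le_antisymm h1 zero_le
  rw [h2]
  rfl

theorem mass_zero' {k : ℕ} (m : PM k) (D : Finset (Fin k))
    (h : ∀ i, i ∉ D → mr m (HK.cyl [((0 : ℤ), i)]) = 0) : m {z | z 0 ∉ D} = 0 := by
  have h1 : (m : Measure (Om k)) {z | z 0 ∉ D} = 0 := by
    have hsub : {z : Om k | z 0 ∉ D} ⊆ ⋃ i ∈ {i : Fin k | i ∉ D}, HK.cyl [((0 : ℤ), i)] := by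
      intro z hz
      rw [mem_iUnion₂]
      refine ⟨z 0, hz, ?_⟩
      intro p hp
      rw [List.mem_singleton] at hp
      rw [hp]
    refine measure_mono_null hsub ?_
    rw [measure_biUnion_null_iff (Set.to_countable _)]
    intro i hi
    have h2 := h i hi
    rw [HK.mr_eq] at h2
    have h3 : m (HK.cyl [((0 : ℤ), i)]) = 0 := by exact_mod_cast h2
    exact (ProbabilityMeasure.null_iff_toMeasure_null m _).mp h3
  exact (ProbabilityMeasure.null_iff_toMeasure_null m _).mpr h1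

end I_MEC

open I_MEC in
theorem MEC_pf : S_MEC := by
  intro S U hS hU k Y C _ _ _ _ _ _ _ _ _ _ w m₃ y t D hw hm hy ht ⟨p, hp, h1, h2, h3⟩
  have hw1 : Pt S w.1 := hw.1
  have hw2 : Pt S (w.2 0) := sc_pt hS ((pt_pi hS).mp hw.2) 0
  have hwm : Pt S (w, m₃) := pt_prod.2 ⟨hw, hm⟩
  -- the coded relation
  have hR : Ar S fun q : ℕ × ℤ => near q.1 (act q.2 w.1) y ∧ near q.1 (act q.2 (w.2 0)) t ∧
      ∀ i ∈ Dᶜ, ¬ ((1 : ℕ) : ℝ) < mr (act q.2 m₃) (HK.cyl [((0 : ℤ), i)]) * ((q.1 : ℝ) + 1) := by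
    refine Ar.and hS ?_ (Ar.and hS ?_ ?_)
    · exact sc_near hS (w := fun p : ℕ × ℤ => act p.2 w.1) (w' := fun _ => y)
        (L := fun p => p.1) (sc_orb hS hw1 (ArF.snd hS)) (sc_const hS hy) (ArF.fst hS)
    · exact sc_near hS (w := fun p : ℕ × ℤ => act p.2 (w.2 0)) (w' := fun _ => t)
        (L := fun p => p.1) (sc_orb hS hw2 (ArF.snd hS)) (sc_const hS ht) (ArF.fst hS)
    · refine ar_ball hS Dᶜ (fun i (q : ℕ × ℤ) => ¬ ((1 : ℕ) : ℝ) <
        mr (act q.2 m₃) (HK.cyl [((0 : ℤ), i)]) * ((q.1 : ℝ) + 1)) fun i => Ar.not hS ?_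
      have hsc : sc S (fun q : ℕ × ℤ => act q.2 m₃) := sc_orb hS hm (ArF.snd hS)
      have hsc' : Ar S fun s : ((ℕ × ℤ) × HK.C k) × ℕ × ℕ =>
        (s.2.1 : ℝ) < mr (act s.1.1.2 m₃) (HK.cyl s.1.2) * (s.2.2 + 1) := hsc
      exact Ar.comp hS hsc' (f := fun q : ℕ × ℤ => ((q, [((0 : ℤ), i)]), 1, q.1))
        (Primrec.pair (Primrec.pair Primrec.id (Primrec.const _))
          (Primrec.pair (Primrec.const 1) Primrec.fst))
  -- times exist
  have hex : ∀ r : ℕ, ∃ n : ℤ, near r (act n w.1) y ∧ near r (act n (w.2 0)) t ∧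
      ∀ i ∈ Dᶜ, ¬ ((1 : ℕ) : ℝ) < mr (act n m₃) (HK.cyl [((0 : ℤ), i)]) * ((r : ℝ) + 1) := by
    intro r
    have hp' : p ∈ oc (w, m₃) := by
      rw [KC.oc_eq]
      exact hp
    have e1 : ∀ᶠ q in 𝓝 p, near r q.1.1 y := by
      have := HK.near_mem_nhds r y
      rw [← h1] at this ⊢
      exact (continuous_fst.comp continuous_fst).tendsto p this
    have e2 : ∀ᶠ q in 𝓝 p, near r (q.1.2 0) t := by
      have := HK.near_mem_nhds r t
      rw [← h2] at this ⊢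
      have hc : Continuous fun q : (Y × (ℕ → C)) × PM k => q.1.2 0 :=
        (continuous_apply 0).comp (continuous_snd.comp continuous_fst)
      exact hc.tendsto p this
    have e3 : ∀ᶠ q in 𝓝 p, ∀ i ∈ Dᶜ, mr q.2 (HK.cyl [((0 : ℤ), i)]) * ((r : ℝ) + 1) < 1 := by
      rw [Filter.eventually_all_finset]
      intro i hi
      have hc : Continuous fun q : (Y × (ℕ → C)) × PM k =>
          mr q.2 (HK.cyl [((0 : ℤ), i)]) * ((r : ℝ) + 1) :=
        ((HK.continuous_mr_cyl [((0 : ℤ), i)]).comp continuous_snd).mul continuous_const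
      have h0 : mr p.2 (HK.cyl [((0 : ℤ), i)]) * ((r : ℝ) + 1) < 1 := by
        rw [mass_zero p.2 D h3 i (Finset.mem_compl.mp hi), zero_mul]
        exact one_pos
      exact (hc.tendsto p).eventually (gt_mem_nhds h0)
    obtain ⟨n, hn⟩ := exists_act hp' (e1.and (e2.and e3))
    obtain ⟨n1, n2, n3⟩ := hn
    refine ⟨n, n1, n2, fun i hi => ?_⟩
    have := n3 i hi
    rw [Nat.cast_one, not_lt]
    exact this.le
  obtain ⟨n, hn, hn'⟩ := Ar.choose hS (R := fun (r : ℕ) (n : ℤ) => near r (act n w.1) y ∧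
    near r (act n (w.2 0)) t ∧ ∀ i ∈ Dᶜ,
      ¬ ((1 : ℕ) : ℝ) < mr (act n m₃) (HK.cyl [((0 : ℤ), i)]) * ((r : ℝ) + 1)) hR hex
  obtain ⟨x, hx, hx'⟩ := exists_lim hS hU (sc_orb hS hwm hn)
  refine ⟨x, ?_, hx, ?_, ?_, ?_⟩
  · rw [← KC.oc_eq]
    exact mem_oc_of_tendsto hx'
  · have t1 : Tendsto (fun r => act (n r) w.1) (U : Filter ℕ) (𝓝 x.1.1) :=
      ((continuous_fst.comp continuous_fst).tendsto x).comp hx'
    exact tendsto_nhds_unique t1 (tendsto_near hU.top fun r => (hn' r).1)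
  · have hc : Continuous fun q : (Y × (ℕ → C)) × PM k => q.1.2 0 :=
      (continuous_apply 0).comp (continuous_snd.comp continuous_fst)
    have t1 : Tendsto (fun r => act (n r) (w.2 0)) (U : Filter ℕ) (𝓝 (x.1.2 0)) :=
      (hc.tendsto x).comp hx'
    exact tendsto_nhds_unique t1 (tendsto_near hU.top fun r => (hn' r).2.1)
  · apply mass_zero'
    intro i hi
    have hx2 : Tendsto (fun r => act (n r) m₃) (U : Filter ℕ) (𝓝 x.2) :=
      (continuous_snd.tendsto x).comp hx'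
    have hc : Continuous fun m : PM k => mr m (HK.cyl [((0 : ℤ), i)]) :=
      HK.continuous_mr_cyl [((0 : ℤ), i)]
    have t1 : Tendsto (fun r => mr (act (n r) m₃) (HK.cyl [((0 : ℤ), i)])) (U : Filter ℕ)
        (𝓝 (mr x.2 (HK.cyl [((0 : ℤ), i)]))) := (hc.tendsto x.2).comp hx2
    have t2 : Tendsto (fun r : ℕ => 1 / ((r : ℝ) + 1)) (U : Filter ℕ) (𝓝 0) :=
      tendsto_one_div_add_atTop_nhds_zero_nat.mono_left hU.top
    have t3 : mr x.2 (HK.cyl [((0 : ℤ), i)]) ≤ 0 := by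
      refine le_of_tendsto_of_tendsto' t1 t2 fun r => ?_
      have h4 := (hn' r).2.2 i (Finset.mem_compl.mpr hi)
      rw [Nat.cast_one, not_lt] at h4
      rw [le_div_iff₀ (by positivity)]
      exact h4
    exact le_antisymm t3 (HK.mr_nonneg _ _)

end Pool.Agent.Work.MP_69fea5_lc.W3
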