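import Pool.Agent.Work.MP_69fea5_lc.W3.StmtsM

set_option autoImplicit false
set_option linter.unusedSectionVars false

namespace Pool.Agent.Work.MP_69fea5_lc.W3

open MeasureTheory Topology Set Filter TopologicalSpace
open scoped NNReal ENNReal
open Pool.Agent.Work.MP_69fea5_lc.AK
open Pool.Agent.Work.MP_69fea5_lc.HK (Cl DU Ar ArF ArR Dat Law LawC act near sc Pt oc Mn mr ext)
open Pool.Agent.Work.MP_69fea5_lc.KC (Agree)

namespace I_MEM

/-- measures carried by the fibres of a closed invariant set: closed and invariant -/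
theorem orb_carried (hORB : AK.S_ORB) (hFDL : S_FDL) (hFAM : S_FAM) {O X : Type}
    [TopologicalSpace O] [MeasurableSpace O] [CS O] [Sys O]
    [TopologicalSpace X] [MeasurableSpace X] [CS X] [Sys X] {A : Set (O × X)} (hA : IsClosed A)
    (hAi : AK.Inv A) {x : X} {m : ProbabilityMeasure O} (h : m {u | (u, x) ∈ A} = 1) :
    ∀ p ∈ orb (x, m), p.2 {u | (u, p.1) ∈ A} = 1 := by
  obtain ⟨h1, h2, -, h4⟩ := hFDL O X A hA hAi
  obtain ⟨h5, h6, -⟩ := hFAM O X (Dlt A) h1 h2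
  rw [h4] at h5 h6
  exact (hORB (X × ProbabilityMeasure O) (x, m)).2.2.2.1 _ h5 h6 h

theorem clopen_ne {k : ℕ} (C : Finset (Fin k)) : IsClopen {z : Om k | z 0 ∉ C} := by
  have h1 : IsClopen {a : Fin k | a ∉ C} := isClopen_discrete _
  exact h1.preimage (continuous_apply (0 : ℤ))

theorem clopen_eq {k : ℕ} (r : Fin k) : IsClopen {z : Om k | z 0 = r} := by
  have h1 : IsClopen {a : Fin k | a = r} := isClopen_discrete _
  exact h1.preimage (continuous_apply (0 : ℤ))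

theorem coe_eq_zero {k : ℕ} {m : PM k} {B : Set (Om k)} :
    (m : Measure (Om k)) B = 0 ↔ m B = 0 := by
  rw [← ProbabilityMeasure.ennreal_coeFn_eq_coeFn_toMeasure]
  exact_mod_cast Iff.rfl

end I_MEM

theorem MEM_pf (hORB : AK.S_ORB) (hPMB : AK.S_PMB) (hSUP : AK.S_SUP) (hBRX : S_BRX)
    (hFAM : S_FAM) (hFDL : S_FDL) (hBCF : S_BCF) (hFSM : S_FSM) (hTDF : S_TDF) : S_MEM := by
  intro S k c j X _ _ _ _ _ A x A₁ v A₂ w m₃ l₀ AE hTD b hb C κ hD hpC hbC z hz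
  obtain ⟨-, hPE, hL2, -, h5⟩ := hTDF S k c j X A x A₁ v A₂ w m₃ l₀ AE hTD
  -- the measures of `E` are carried by the fibres of `A₂`
  have hone : ∀ e ∈ orb (w.1, l₀), e.2 {u | (u, e.1) ∈ A₂} = 1 := by
    intro e he
    have h1 : Prod.snd '' AE = orb (w.1, l₀) :=
      (hBCF (Om k) (WF k X × PM k) ((WF k X × PM k) × PM k) A₂ (orb (w.1, l₀)) Prod.fst AE
        hTD.bch).2.1
    have h2 : e ∈ Prod.snd '' AE := by
      rw [h1]
      exact he
    obtain ⟨p, hp, rfl⟩ := h2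
    have h3 : p.2.2 {u | (u, p.2) ∈ AE} = 1 := hTD.lev.one p hp
    refine le_antisymm (p.2.2.apply_le_one _) ?_
    rw [← h3]
    refine ProbabilityMeasure.apply_mono _ ?_
    intro u hu
    exact (hTD.bch.sub hu).2
  have hcar := I_MEM.orb_carried hORB hFDL hFAM hTD.l2.cb2.min.closed hTD.l2.cb2.min.inv hTD.one3
  have hFs : ∀ p ∈ orb (w, m₃), ∀ z ∈ supp p.2, (z, p.1.1) ∈ A₂ ∧
      th w.1 (z, p.1.1) = p.1.2 0 := by
    intro p hp z hz
    have h1 := hcar p hp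
    have h2 : IsClosed {u : Om k | (u, p.1) ∈ A1t A₂ w} := by
      have h3 : Continuous (fun u : Om k => (u, p.1)) := by fun_prop
      exact hTD.l2.cb2.min.closed.preimage h3
    have h4 : z ∈ {u : Om k | (u, p.1) ∈ A1t A₂ w} :=
      (hSUP k p.2).2.2.2.2.2.2.1 _ h2 h1 hz
    exact ⟨h4.2.1, h4.2.2⟩
  -- the closed set `K`
  have hK1 : IsClosed {m : PM k | m {z | z 0 ∉ C} = 0} :=
    isClosed_eq ((hPMB k).2.2.1 _ (I_MEM.clopen_ne C)) continuous_const
  have hK2 : IsClosed {m : PM k | ∏ r ∈ C, m {z | z 0 = r} = 0} := by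
    refine isClosed_eq (continuous_finsetProd _ fun r _ => ?_) continuous_const
    exact (hPMB k).2.2.1 _ (I_MEM.clopen_eq r)
  have hae1 : ∀ᵐ m ∂(κ : Measure (PM k)), m {z | z 0 ∉ C} = 0 := by
    have h1 : (b.2 : Measure (Om k)) {z | z 0 ∉ C} = ∫⁻ m, (m : Measure (Om k)) {z | z 0 ∉ C}
        ∂(κ : Measure (PM k)) :=
      (hBRX (PM k) (Om k) κ id measurable_id).2.2.1 b.2 hD.2 _
        (I_MEM.clopen_ne C).isOpen.measurableSet
    rw [I_MEM.coe_eq_zero.2 hbC] at h1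
    have h2 := (lintegral_eq_zero_iff' ((Measure.measurable_coe
      (I_MEM.clopen_ne C).isOpen.measurableSet).comp measurable_subtype_coe).aemeasurable).1
      h1.symm
    filter_upwards [h2] with m hm
    exact I_MEM.coe_eq_zero.1 hm
  have hae2 : ∀ᵐ m ∂(κ : Measure (PM k)), ∏ r ∈ C, m {z | z 0 = r} = 0 := by
    have h1 : ∫⁻ m, ∏ r ∈ C, (m : Measure (Om k)) {z | z 0 = r} ∂(κ : Measure (PM k)) = 0 := hpC
    have h3 : Measurable fun m : PM k => ∏ r ∈ C, (m : Measure (Om k)) {z | z 0 = r} := by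
      refine Finset.measurable_prod _ fun r _ => ?_
      exact (Measure.measurable_coe (I_MEM.clopen_eq r).isOpen.measurableSet).comp
        measurable_subtype_coe
    have h2 := (lintegral_eq_zero_iff' h3.aemeasurable).1 h1
    filter_upwards [h2] with m hm
    obtain ⟨r, hr, hr0⟩ := Finset.prod_eq_zero_iff.1 hm
    exact Finset.prod_eq_zero hr (I_MEM.coe_eq_zero.1 hr0)
  have hκK : κ ({m : PM k | m {z | z 0 ∉ C} = 0} ∩ {m : PM k | ∏ r ∈ C, m {z | z 0 = r} = 0})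
      = 1 := by
    have h1 : (κ : Measure (PM k)) ({m : PM k | m {z | z 0 ∉ C} = 0} ∩
        {m : PM k | ∏ r ∈ C, m {z | z 0 = r} = 0})ᶜ = 0 := by
      refine ae_iff.1 ?_
      filter_upwards [hae1, hae2] with m h1 h2 using ⟨h1, h2⟩
    have h2 := (prob_compl_eq_zero_iff (hK1.inter hK2).measurableSet).1 h1
    rw [← ProbabilityMeasure.ennreal_coeFn_eq_coeFn_toMeasure] at h2
    exact_mod_cast h2
  have hκF : κ {m | ∃ t, ((b.1, t), m) ∈ orb (w, m₃)} = 1 := by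
    refine le_antisymm (κ.apply_le_one _) ?_
    rw [← hD.1]
    refine ProbabilityMeasure.apply_mono _ ?_
    intro m hm
    obtain ⟨w', hw1, hw2, -⟩ := h5 b.1 m hm
    refine ⟨w'.2, ?_⟩
    have h6 : (b.1, w'.2) = w' := by
      rw [← hw1]
    rw [h6]
    exact hw2
  obtain ⟨t, m, h6, h7, h8, h9⟩ := hFSM k (X × PM k) (CPh k) (XE k X) (WF k X × PM k) (CPh k) A₁
    Prod.snd (th v.1) v (orb (w.1, l₀)) qE Prod.snd (orb w.1) Prod.fst A₂ Prod.snd (th w.1)
    Prod.fst (orb (w, m₃)) b κ (th w.1 (z, b.1)) _ hPE hL2 hTD.l2.pha hone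
    (hORB _ (w, m₃)).1 hFs hb hD.2 hκF ⟨(z, b.1), hz, rfl⟩ (hK1.inter hK2) hκK
  obtain ⟨r, hr, hr0⟩ := Finset.prod_eq_zero_iff.1 h9
  exact ⟨(b.1, t), m, h6, rfl, h7, h8, r, hr, hr0⟩

end Pool.Agent.Work.MP_69fea5_lc.W3
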