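import Pool.Agent.Work.MP_69fea5_lc.W3.StmtsM

/-!
# [69fea5 M MIX] the mixture
-/

set_option autoImplicit false

namespace Pool.Agent.Work.MP_69fea5_lc.W3

open MeasureTheory Topology Set Filter TopologicalSpace
open scoped NNReal ENNReal
open Pool.Agent.Work.MP_69fea5_lc.AK
open Pool.Agent.Work.MP_69fea5_lc.HK (Cl DU Ar ArF ArR Dat Law LawC act near sc Pt oc Mn mr ext)
open Pool.Agent.Work.MP_69fea5_lc.KC (Agree)

namespace I_MIX

variable {k : ℕ} {X : Type}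

/-- the sum of the four measures of index `p` -/
noncomputable def q4 (e : ℕ × ℕ → Q4 (XE k X)) (p : ℕ × ℕ) : Measure (Om k) :=
  ((e p).1.2 : Measure (Om k)) + ((e p).2.1.2 : Measure (Om k)) +
    ((e p).2.2.1.2 : Measure (Om k)) + ((e p).2.2.2.2 : Measure (Om k))

/-- the mixture as a measure -/
noncomputable def mxm (e : ℕ × ℕ → Q4 (XE k X)) : Measure (Om k) :=
  Measure.sum fun a : ℕ => ((2 : ℝ≥0∞)⁻¹ ^ (a + 1) * (4 : ℝ≥0∞)⁻¹) • q4 e a.unpair

theorem mxm_apply (e : ℕ × ℕ → Q4 (XE k X)) {B : Set (Om k)} (hB : MeasurableSet B) :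
    mxm e B = ∑' a : ℕ, (2 : ℝ≥0∞)⁻¹ ^ (a + 1) * ((4 : ℝ≥0∞)⁻¹ *
      (((e a.unpair).1.2 : Measure (Om k)) B + ((e a.unpair).2.1.2 : Measure (Om k)) B +
        ((e a.unpair).2.2.1.2 : Measure (Om k)) B + ((e a.unpair).2.2.2.2 : Measure (Om k)) B)) := by
  rw [mxm, Measure.sum_apply _ hB]
  refine tsum_congr fun a => ?_
  rw [Measure.smul_apply, smul_eq_mul, mul_assoc]
  rfl

theorem mxm_univ (e : ℕ × ℕ → Q4 (XE k X)) : mxm e univ = 1 := by
  rw [mxm_apply e MeasurableSet.univ]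
  simp only [measure_univ]
  have h4 : (4 : ℝ≥0∞)⁻¹ * (1 + 1 + 1 + 1) = 1 := by
    have : (1 + 1 + 1 + 1 : ℝ≥0∞) = 4 := by norm_num
    rw [this]
    exact ENNReal.inv_mul_cancel (by norm_num) (by norm_num)
  simp only [h4, mul_one]
  rw [ENNReal.tsum_geometric_add_one, ENNReal.one_sub_inv_two, inv_inv]
  exact ENNReal.inv_mul_cancel (by norm_num) (by norm_num)

/-- the mixture -/
noncomputable def mx (e : ℕ × ℕ → Q4 (XE k X)) : PM k := ⟨mxm e, ⟨mxm_univ e⟩⟩

theorem mix_mx (e : ℕ × ℕ → Q4 (XE k X)) : Mix e (mx e) := fun _ hB => mxm_apply e hB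

theorem mix_unique {e : ℕ × ℕ → Q4 (XE k X)} {m m' : PM k} (h : Mix e m) (h' : Mix e m') :
    m' = m := by
  apply Subtype.ext
  refine Measure.ext fun B hB => ?_
  exact (h' B hB).trans (h B hB).symm

theorem sh_apply (n : ℤ) (m : PM k) {B : Set (Om k)} (hB : MeasurableSet B) :
    ((sh n m : PM k) : Measure (Om k)) B = (m : Measure (Om k)) ((sh n : Om k → Om k) ⁻¹' B) :=
  Measure.map_apply (sh_cont n).measurable hB

theorem mix_sh [TopologicalSpace X] [Sys X] {e : ℕ × ℕ → Q4 (XE k X)} {m : PM k} (h : Mix e m)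
    (n : ℤ) : Mix (sh n e) (sh n m) := by
  intro B hB
  have hB' : MeasurableSet ((sh n : Om k → Om k) ⁻¹' B) := (sh_cont n).measurable hB
  rw [sh_apply n m hB, h _ hB']
  refine tsum_congr fun a => ?_
  rw [← sh_apply n _ hB, ← sh_apply n _ hB, ← sh_apply n _ hB, ← sh_apply n _ hB]
  rfl

/-! ### the real version -/

/-- the terms of the real series -/
noncomputable def tm (e : ℕ × ℕ → Q4 (XE k X)) (B : Set (Om k)) (a : ℕ) : ℝ :=
  (1 / 2 : ℝ) ^ (a + 1) * ((1 / 4 : ℝ) * (mr (e a.unpair).1.2 B + mr (e a.unpair).2.1.2 B +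
    mr (e a.unpair).2.2.1.2 B + mr (e a.unpair).2.2.2.2 B))

theorem mr_le_one (m : PM k) (B : Set (Om k)) : mr m B ≤ 1 := measureReal_le_one

theorem tm_nonneg (e : ℕ × ℕ → Q4 (XE k X)) (B : Set (Om k)) (a : ℕ) : 0 ≤ tm e B a := by
  have h1 := HK.mr_nonneg (e a.unpair).1.2 B
  have h2 := HK.mr_nonneg (e a.unpair).2.1.2 B
  have h3 := HK.mr_nonneg (e a.unpair).2.2.1.2 B
  have h4 := HK.mr_nonneg (e a.unpair).2.2.2.2 B
  unfold tm
  positivity

theorem tm_le (e : ℕ × ℕ → Q4 (XE k X)) (B : Set (Om k)) (a : ℕ) :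
    tm e B a ≤ (1 / 2 : ℝ) ^ (a + 1) := by
  have h1 := mr_le_one (e a.unpair).1.2 B
  have h2 := mr_le_one (e a.unpair).2.1.2 B
  have h3 := mr_le_one (e a.unpair).2.2.1.2 B
  have h4 := mr_le_one (e a.unpair).2.2.2.2 B
  unfold tm
  have h : (0 : ℝ) < (1 / 2 : ℝ) ^ (a + 1) := by positivity
  nlinarith

theorem summable_half : Summable fun a : ℕ => (1 / 2 : ℝ) ^ (a + 1) :=
  (summable_nat_add_iff 1).2 summable_geometric_two

theorem summable_tm (e : ℕ × ℕ → Q4 (XE k X)) (B : Set (Om k)) : Summable (tm e B) :=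
  summable_half.of_nonneg_of_le (tm_nonneg e B) (tm_le e B)

theorem mr_mix {e : ℕ × ℕ → Q4 (XE k X)} {m : PM k} (h : Mix e m) {B : Set (Om k)}
    (hB : MeasurableSet B) : mr m B = ∑' a, tm e B a := by
  unfold mr Measure.real
  rw [h B hB, ENNReal.tsum_toReal_eq]
  · refine tsum_congr fun a => ?_
    unfold tm mr Measure.real
    rw [ENNReal.toReal_mul, ENNReal.toReal_mul, ENNReal.toReal_add, ENNReal.toReal_add,
      ENNReal.toReal_add, ENNReal.toReal_pow, ENNReal.toReal_inv, ENNReal.toReal_inv]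
    · norm_num
    all_goals finiteness
  · intro a
    finiteness

theorem mix_iff (e : ℕ × ℕ → Q4 (XE k X)) (m : PM k) :
    Mix e m ↔ ∀ P : HK.C k, mr m (HK.cyl P) = ∑' a, tm e (HK.cyl P) a := by
  constructor
  · intro h P
    exact mr_mix h (HK.I_MEASW.measurable_cyl P)
  · intro h
    have h1 : m = mx e := HK.pm_ext fun P =>
      (h P).trans (mr_mix (mix_mx e) (HK.I_MEASW.measurable_cyl P)).symm
    rw [h1]
    exact mix_mx e

theorem closed_mix [TopologicalSpace X] :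
    IsClosed {p : (ℕ × ℕ → Q4 (XE k X)) × PM k | Mix p.1 p.2} := by
  have he : {p : (ℕ × ℕ → Q4 (XE k X)) × PM k | Mix p.1 p.2} =
      ⋂ P : HK.C k, {p | mr p.2 (HK.cyl P) = ∑' a, tm p.1 (HK.cyl P) a} := by
    ext p
    rw [mem_iInter]
    exact mix_iff p.1 p.2
  rw [he]
  refine isClosed_iInter fun P => isClosed_eq ?_ ?_
  · exact (HK.continuous_mr_cyl P).comp continuous_snd
  · refine continuous_tsum (u := fun a : ℕ => (1 / 2 : ℝ) ^ (a + 1)) ?_ summable_half ?_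
    · intro a
      have h0 : Continuous fun p : (ℕ × ℕ → Q4 (XE k X)) × PM k => p.1 a.unpair :=
        (continuous_apply _).comp continuous_fst
      unfold tm
      refine continuous_const.mul (continuous_const.mul ?_)
      refine ((Continuous.add ?_ ?_).add ?_).add ?_
      · exact (HK.continuous_mr_cyl P).comp (continuous_snd.comp (continuous_fst.comp h0))
      · exact (HK.continuous_mr_cyl P).comp (continuous_snd.comp (continuous_fst.comp
          (continuous_snd.comp h0)))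
      · exact (HK.continuous_mr_cyl P).comp (continuous_snd.comp (continuous_fst.comp
          (continuous_snd.comp (continuous_snd.comp h0))))
      · exact (HK.continuous_mr_cyl P).comp (continuous_snd.comp
          (continuous_snd.comp (continuous_snd.comp (continuous_snd.comp h0))))
    · intro a p
      rw [Real.norm_of_nonneg (tm_nonneg _ _ _)]
      exact tm_le _ _ _

/-! ### codedness -/

theorem pt_mix {S : Set (Set ℕ)} (hS : Cl S) [TopologicalSpace X] [MeasurableSpace X]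
    [Sys X] [Dat X] [CSys X] {e : ℕ × ℕ → Q4 (XE k X)} {m : PM k} (he : sc S e) (h : Mix e m) :
    Pt S m := by
  have c1 : ArR S fun p : (ℕ × ℕ) × HK.C k => mr (e p.1).1.2 (HK.cyl p.2) := he.1.2
  have c2 : ArR S fun p : (ℕ × ℕ) × HK.C k => mr (e p.1).2.1.2 (HK.cyl p.2) := he.2.1.2
  have c3 : ArR S fun p : (ℕ × ℕ) × HK.C k => mr (e p.1).2.2.1.2 (HK.cyl p.2) := he.2.2.1.2
  have c4 : ArR S fun p : (ℕ × ℕ) × HK.C k => mr (e p.1).2.2.2.2 (HK.cyl p.2) := he.2.2.2.2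
  have hg : Primrec fun p : (Unit × HK.C k) × ℕ => (p.2.unpair, p.1.2) :=
    (Primrec.unpair.comp Primrec.snd).pair (Primrec.snd.comp Primrec.fst)
  have d1 := ArR.comp hS c1 hg
  have d2 := ArR.comp hS c2 hg
  have d3 := ArR.comp hS c3 hg
  have d4 := ArR.comp hS c4 hg
  change ArR S fun p : Unit × HK.C k => mr m (HK.cyl p.2)
  have hm : ∀ p : Unit × HK.C k, mr m (HK.cyl p.2) = ∑' a, tm e (HK.cyl p.2) a := fun p =>
    mr_mix h (HK.I_MEASW.measurable_cyl p.2)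
  refine ArR.congr ?_ hm
  refine ArR.tsum hS (f := fun (p : Unit × HK.C k) a => tm e (HK.cyl p.2) a) ?_
    (fun p a => tm_nonneg e _ a) (fun p => summable_tm e _)
  unfold tm
  have s2 := ArR.add hS d1 d2 (fun p => HK.mr_nonneg _ _) (fun p => HK.mr_nonneg _ _)
  have s3 := ArR.add hS s2 d3 (fun p => add_nonneg (HK.mr_nonneg _ _) (HK.mr_nonneg _ _))
    (fun p => HK.mr_nonneg _ _)
  have s4 := ArR.add hS s3 d4 (fun p => add_nonneg (add_nonneg (HK.mr_nonneg _ _)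
    (HK.mr_nonneg _ _)) (HK.mr_nonneg _ _)) (fun p => HK.mr_nonneg _ _)
  have hq : ArR S fun _ : (Unit × HK.C k) × ℕ => (1 / 4 : ℝ) :=
    (ArR.rat hS (ArF.const hS 1) (ArF.const hS 3)).congr fun a => by norm_num
  have s5 := ArR.mul hS hq s4 (fun p => by norm_num) (fun p => add_nonneg (add_nonneg (add_nonneg
    (HK.mr_nonneg _ _) (HK.mr_nonneg _ _)) (HK.mr_nonneg _ _)) (HK.mr_nonneg _ _))
  have hp : ArR S fun p : (Unit × HK.C k) × ℕ => (1 / 2 : ℝ) ^ (p.2 + 1) :=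
    ArR.half_pow hS (ArF.succ hS (ArF.snd hS))
  exact ArR.mul hS hp s5 (fun p => by positivity) (fun p => mul_nonneg (by norm_num)
    (add_nonneg (add_nonneg (add_nonneg (HK.mr_nonneg _ _) (HK.mr_nonneg _ _))
      (HK.mr_nonneg _ _)) (HK.mr_nonneg _ _)))

/-! ### null sets -/

theorem null_iff (m : PM k) (B : Set (Om k)) : m B = 0 ↔ (m : Measure (Om k)) B = 0 := by
  rw [← ProbabilityMeasure.ennreal_coeFn_eq_coeFn_toMeasure, ENNReal.coe_eq_zero]

theorem null_mix {e : ℕ × ℕ → Q4 (XE k X)} {m : PM k} {B : Set (Om k)} (hB : MeasurableSet B)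
    (h : Mix e m) : m B = 0 ↔ ∀ p, (e p).1.2 B = 0 ∧ (e p).2.1.2 B = 0 ∧ (e p).2.2.1.2 B = 0 ∧
      (e p).2.2.2.2 B = 0 := by
  simp only [null_iff]
  rw [h B hB, ENNReal.tsum_eq_zero]
  constructor
  · intro h1 p
    have h2 := h1 (Nat.pair p.1 p.2)
    rw [Nat.unpair_pair] at h2
    have h3 : (2 : ℝ≥0∞)⁻¹ ^ (Nat.pair p.1 p.2 + 1) ≠ 0 := pow_ne_zero _ (by simp)
    have h4 : (4 : ℝ≥0∞)⁻¹ ≠ 0 := by simp
    have h5 := (mul_eq_zero.1 ((mul_eq_zero.1 h2).resolve_left h3)).resolve_left h4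
    simpa [add_eq_zero, and_assoc] using h5
  · intro h1 a
    obtain ⟨a1, a2, a3, a4⟩ := h1 a.unpair
    rw [a1, a2, a3, a4]
    simp

end I_MIX

theorem MIX_pf : S_MIX :=
  ⟨fun _ _ _ _ e => ⟨I_MIX.mx e, I_MIX.mix_mx e, fun _ h' => I_MIX.mix_unique (I_MIX.mix_mx e) h',
      fun n => I_MIX.mix_sh (I_MIX.mix_mx e) n⟩,
    fun _ _ _ _ => I_MIX.closed_mix,
    fun _ hS _ _ _ _ _ _ _ _ _ he h => I_MIX.pt_mix hS he h,
    fun _ _ _ _ _ hB h => I_MIX.null_mix hB h⟩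

end Pool.Agent.Work.MP_69fea5_lc.W3
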