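import Pool.Agent.Work.MP_69fea5_lc.W3.StmtsT

/-!
Block [69fea5 W3], toolbox, item ONT: limits of the shifts map a fibre onto the limit fibre.
-/

set_option autoImplicit false

namespace Pool.Agent.Work.MP_69fea5_lc.W3

open MeasureTheory Topology Set Filter TopologicalSpace
open scoped NNReal ENNReal
open Pool.Agent.Work.MP_69fea5_lc.AK

namespace I_ONT

section

variable {C X : Type} [TopologicalSpace C] [CompactSpace C] [Sys C] [TopologicalSpace X] [Sys X]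
  {J : Set (C × X)} {ρ : C → C → X → ℝ}

/-- continuity of `ρ` on the fibres, along filters -/
theorem rho_tendsto (hρ : IPB J ρ) {κ : Type} {F : Filter κ} {a b : κ → C} {y : κ → X}
    {a' b' : C} {y' : X} (ha : Tendsto a F (𝓝 a')) (hb : Tendsto b F (𝓝 b'))
    (hy : Tendsto y F (𝓝 y')) (hJa : ∀ i, (a i, y i) ∈ J) (hJb : ∀ i, (b i, y i) ∈ J)
    (ha' : (a', y') ∈ J) (hb' : (b', y') ∈ J) :
    Tendsto (fun i => ρ (a i) (b i) (y i)) F (𝓝 (ρ a' b' y')) := by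
  have h1 : ContinuousWithinAt (fun p : C × C × X => ρ p.1 p.2.1 p.2.2)
      {p | (p.1, p.2.2) ∈ J ∧ (p.2.1, p.2.2) ∈ J} (a', b', y') := hρ.cont _ ⟨ha', hb'⟩
  have h2 : Tendsto (fun i => (a i, b i, y i)) F
      (𝓝[{p : C × C × X | (p.1, p.2.2) ∈ J ∧ (p.2.1, p.2.2) ∈ J}] (a', b', y')) :=
    tendsto_nhdsWithin_iff.2 ⟨ha.prodMk_nhds (hb.prodMk_nhds hy),
      Eventually.of_forall fun i => ⟨hJa i, hJb i⟩⟩
  exact h1.tendsto.comp h2

/-- the limit of the shifts on a fibre -/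
theorem lim_map (hJ : IsClosed J) (hI : AK.Inv J) (hρ : IPB J ρ) {ι : Type} (G : Ultrafilter ι)
    (n : ι → ℤ) (x x' : X) (hx : Tendsto (fun i => sh (n i) x) (G : Filter ι) (𝓝 x')) :
    ∃ g : C → C, (∀ t, Tendsto (fun i => sh (n i) t) (G : Filter ι) (𝓝 (g t))) ∧
      (∀ t, (t, x) ∈ J → (g t, x') ∈ J) ∧
      ∀ t s, (t, x) ∈ J → (s, x) ∈ J → ρ (g t) (g s) x' = ρ t s x := by
  have hg : ∀ t : C, ∃ t' : C, Tendsto (fun i => sh (n i) t) (G : Filter ι) (𝓝 t') := fun t =>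
    ⟨(G.map fun i => sh (n i) t).lim, (G.map fun i => sh (n i) t).le_nhds_lim⟩
  choose g hg using hg
  have hm : ∀ t, (t, x) ∈ J → (g t, x') ∈ J := fun t ht =>
    hJ.mem_of_tendsto ((hg t).prodMk_nhds hx)
      (Eventually.of_forall fun i => hI (n i) (t, x) ht)
  refine ⟨g, hg, hm, fun t s ht hs => ?_⟩
  have h1 := rho_tendsto hρ (hg t) (hg s) hx (fun i => hI (n i) (t, x) ht)
    (fun i => hI (n i) (s, x) hs) (hm t ht) (hm s hs)
  have h2 : (fun i => ρ (sh (n i) t) (sh (n i) s) (sh (n i) x)) = fun _ => ρ t s x :=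
    funext fun i => hρ.inv (n i) x t s ht hs
  rw [h2] at h1
  exact tendsto_nhds_unique h1 tendsto_const_nhds

/-- limits in a fibre -/
theorem lim_fib (hJ : IsClosed J) (x : X) (a : ℕ → C) (ha : ∀ i, (a i, x) ∈ J) :
    ∃ t, (t, x) ∈ J ∧ Tendsto a (hyperfilter ℕ : Filter ℕ) (𝓝 t) := by
  refine ⟨((hyperfilter ℕ).map a).lim, ?_, ((hyperfilter ℕ).map a).le_nhds_lim⟩
  have h : Tendsto a (hyperfilter ℕ : Filter ℕ) (𝓝 ((hyperfilter ℕ).map a).lim) :=
    ((hyperfilter ℕ).map a).le_nhds_lim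
  exact hJ.mem_of_tendsto (h.prodMk_nhds tendsto_const_nhds) (Eventually.of_forall ha)

/-- two terms of a sequence in a fibre are close -/
theorem close_pair (hJ : IsClosed J) (hρ : IPB J ρ) (x : X) (a : ℕ → C)
    (ha : ∀ i, (a i, x) ∈ J) {ε : ℝ} (hε : 0 < ε) : ∃ i j : ℕ, i < j ∧ ρ (a i) (a j) x < ε := by
  obtain ⟨t, ht, hlim⟩ := lim_fib hJ x a ha
  have h1 := rho_tendsto hρ hlim (tendsto_const_nhds (x := t)) (tendsto_const_nhds (x := x)) ha
    (fun _ => ht) ht ht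
  rw [hρ.self x t ht] at h1
  have h2 : ∀ᶠ i in (hyperfilter ℕ : Filter ℕ), ρ (a i) t x < ε / 2 :=
    h1.eventually (Iio_mem_nhds (by linarith))
  obtain ⟨i, hi⟩ := h2.exists
  obtain ⟨j, hj, hij⟩ := (h2.and (Nat.hyperfilter_le_atTop (eventually_gt_atTop i))).exists
  refine ⟨i, j, hij, ?_⟩
  have h3 := hρ.tri x (a i) t (a j) (ha i) ht (ha j)
  have h4 := hρ.symm x t (a j) ht (ha j)
  linarith

/-- in a minimal set the orbits are dense -/
theorem back {B : Set X} (hB : MinSet B) {x x' : X} (hx : x ∈ B) (hx' : x' ∈ B) :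
    ∃ (H : Ultrafilter ℤ), Tendsto (fun m : ℤ => sh m x') (H : Filter ℤ) (𝓝 x) := by
  have ho : closure (Set.range fun m : ℤ => sh m x') = B := by
    refine hB.min _ isClosed_closure ⟨_, subset_closure ⟨0, rfl⟩⟩ ?_ ?_
    · intro n p hp
      refine map_mem_closure (sh_cont n) hp ?_
      rintro _ ⟨m, rfl⟩
      exact ⟨n + m, sh_add n m x'⟩
    · refine closure_minimal ?_ hB.closed
      rintro _ ⟨m, rfl⟩
      exact hB.inv m x' hx'
  have hx1 : x ∈ closure (Set.range fun m : ℤ => sh m x') := by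
    rw [ho]
    exact hx
  have hne : NeBot (comap (fun m : ℤ => sh m x') (𝓝 x)) := by
    rw [comap_neBot_iff]
    intro U hU
    obtain ⟨y, hy, ⟨m, hm⟩⟩ := mem_closure_iff_nhds.1 hx1 U hU
    refine ⟨m, ?_⟩
    have hm' : sh m x' = y := hm
    rw [hm']
    exact hy
  exact ⟨Ultrafilter.of _, tendsto_iff_comap.2 (Ultrafilter.of_le _)⟩

end

end I_ONT

open I_ONT in
theorem ONT_pf : S_ONT := by
  intro C X _ _ _ _ _ _ _ _ J ρ hJ hI hB hρ ι G n x x' hx hlim t' ht'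
  obtain ⟨g, hg1, hg2, hg3⟩ := lim_map hJ hI hρ G n x x' hlim
  have hx' : x' ∈ Prod.snd '' J := ⟨(t', x'), ht', rfl⟩
  obtain ⟨H, hH⟩ := back hB hx hx'
  obtain ⟨f, -, hf2, hf3⟩ := lim_map hJ hI hρ H (fun m => m) x' x hH
  -- the iterates
  have hφ : ∀ (m : ℕ) (t : C), (t, x') ∈ J → (((fun t => g (f t))^[m]) t, x') ∈ J := by
    intro m
    induction m with
    | zero => exact fun t ht => ht
    | succ m ih =>
      intro t ht
      rw [Function.iterate_succ_apply]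
      exact ih _ (hg2 _ (hf2 _ ht))
  have hiso : ∀ (m : ℕ) (t s : C), (t, x') ∈ J → (s, x') ∈ J →
      ρ (((fun t => g (f t))^[m]) t) (((fun t => g (f t))^[m]) s) x' = ρ t s x' := by
    intro m
    induction m with
    | zero => exact fun t s _ _ => rfl
    | succ m ih =>
      intro t s ht hs
      rw [Function.iterate_succ_apply, Function.iterate_succ_apply,
        ih _ _ (hg2 _ (hf2 _ ht)) (hg2 _ (hf2 _ hs)), hg3 _ _ (hf2 _ ht) (hf2 _ hs),
        hf3 _ _ ht hs]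
  -- approximate solutions
  have happ : ∀ ε : ℝ, 0 < ε → ∃ t, (t, x) ∈ J ∧ ρ (g t) t' x' < ε := by
    intro ε hε
    obtain ⟨i, j, hij, hlt⟩ := close_pair hJ hρ x' (fun m => ((fun t => g (f t))^[m]) t')
      (fun m => hφ m t' ht') hε
    obtain ⟨l, rfl⟩ := Nat.exists_eq_add_of_lt hij
    have e : ((fun t => g (f t))^[i + l + 1]) t' =
        ((fun t => g (f t))^[i]) (((fun t => g (f t))^[l + 1]) t') := by
      rw [← Function.iterate_add_apply, add_assoc]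
    have hlt' : ρ (((fun t => g (f t))^[i]) t')
        (((fun t => g (f t))^[i]) (((fun t => g (f t))^[l + 1]) t')) x' < ε := by
      rw [← e]
      exact hlt
    rw [hiso i _ _ ht' (hφ (l + 1) t' ht'), Function.iterate_succ_apply'] at hlt'
    refine ⟨f (((fun t => g (f t))^[l]) t'), hf2 _ (hφ l t' ht'), ?_⟩
    rw [hρ.symm x' _ t' (hg2 _ (hf2 _ (hφ l t' ht'))) ht']
    exact hlt'
  have happ' : ∀ k : ℕ, ∃ t, (t, x) ∈ J ∧ ρ (g t) t' x' < 1 / ((k : ℝ) + 1) := fun k =>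
    happ _ Nat.one_div_pos_of_nat
  choose a ha1 ha2 using happ'
  obtain ⟨t, ht, hta⟩ := lim_fib hJ x a ha1
  refine ⟨t, g t, ht, hg2 t ht, hg1 t, ?_⟩
  have h1 := rho_tendsto hρ (tendsto_const_nhds (x := t)) hta (tendsto_const_nhds (x := x))
    (fun _ => ht) ha1 ht ht
  rw [hρ.self x t ht] at h1
  have h2 : Tendsto (fun k : ℕ => 1 / ((k : ℝ) + 1)) (hyperfilter ℕ : Filter ℕ) (𝓝 0) :=
    tendsto_one_div_add_atTop_nhds_zero_nat.mono_left Nat.hyperfilter_le_atTop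
  have h3 := h1.add h2
  rw [add_zero] at h3
  have h4 : ∀ k : ℕ, ρ (g t) t' x' ≤ ρ t (a k) x + 1 / ((k : ℝ) + 1) := by
    intro k
    have h5 := hρ.tri x' (g t) (g (a k)) t' (hg2 t ht) (hg2 _ (ha1 k)) ht'
    rw [hg3 t (a k) ht (ha1 k)] at h5
    linarith [ha2 k]
  have h6 : ρ (g t) t' x' ≤ 0 := ge_of_tendsto' h3 h4
  exact le_antisymm h6 (hρ.nonneg x' _ _ (hg2 t ht) ht')

end Pool.Agent.Work.MP_69fea5_lc.W3
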