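import Pool.Agent.Work.MP_69fea5_lc.W3.StmtsT

/-!
# Block [69fea5 T], item PHB: base change of phases
-/

set_option autoImplicit false

namespace Pool.Agent.Work.MP_69fea5_lc.W3

open MeasureTheory Topology Set Filter TopologicalSpace
open scoped NNReal ENNReal
open Pool.Agent.Work.MP_69fea5_lc.AK

/-- [PHB] base change of phases. -/
theorem PHB_pf (hBCU : S_BCU) : S_PHB := by
  intro O X X' C _ _ _ _ _ _ _ _ _ _ _ _ _ _ _ _ A E q A' ms θ hB hL hP
  obtain ⟨d, hd⟩ := hP.iso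
  have hsub : ∀ p ∈ A', (p.1, q p.2) ∈ A := fun p hp => (hB.sub hp).2
  have hcont : ContinuousOn (fun p : O × X' => θ (p.1, q p.2)) A' :=
    hP.cont.comp (continuous_fst.prodMk (hB.spx.cont.comp continuous_snd)).continuousOn
      (fun p hp => hsub p hp)
  have hequi : ∀ p ∈ A', ∀ n : ℤ,
      (fun p : O × X' => θ (p.1, q p.2)) (sh n p) =
        sh n ((fun p : O × X' => θ (p.1, q p.2)) p) := by
    intro p hp n
    change θ (sh n p.1, q (sh n p.2)) = sh n (θ (p.1, q p.2))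
    rw [hB.spx.equi, ← hP.equi _ (hsub p hp) n]
    rfl
  have hJ : ∀ (t : C) (e : X'), (t, e) ∈ JJ A' (fun p : O × X' => θ (p.1, q p.2)) →
      (t, q e) ∈ JJ A θ := by
    rintro t e ⟨p, hp, hpe⟩
    obtain ⟨rfl, rfl⟩ := Prod.mk.inj hpe
    exact ⟨(p.1, q p.2), hsub p hp, rfl⟩
  have hclosed : IsClosed (JJ A' (fun p : O × X' => θ (p.1, q p.2))) :=
    (hB.min.closed.isCompact.image_of_continuousOn
      (hcont.prodMk continuous_snd.continuousOn)).isClosed
  have hinv : AK.Inv (JJ A' (fun p : O × X' => θ (p.1, q p.2))) := by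
    rintro n _ ⟨p, hp, rfl⟩
    refine ⟨sh n p, hB.min.inv n p hp, ?_⟩
    have h1 := hequi p hp n
    apply Prod.ext
    · exact h1
    · rfl
  refine ⟨hB.min, hcont, hequi, ⟨fun t t' e => d t t' (q e), hclosed, hinv, ?_, ?_, ?_⟩,
    hBCU O X X' C A E q A' ms θ hB hL hP.uni⟩
  · -- the base
    have hE : Prod.snd '' (JJ A' (fun p : O × X' => θ (p.1, q p.2))) = E := by
      refine hB.spx.min.min _ ?_ ?_ ?_ ?_
      · exact (hclosed.isCompact.image continuous_snd).isClosed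
      · obtain ⟨p, hp⟩ := hB.min.ne
        exact ⟨_, ⟨_, ⟨p, hp, rfl⟩, rfl⟩⟩
      · rintro n _ ⟨r, hr, rfl⟩
        exact ⟨sh n r, hinv n r hr, rfl⟩
      · rintro _ ⟨_, ⟨p, hp, rfl⟩, rfl⟩
        exact (hB.sub hp).1
    rw [hE]
    exact hB.spx.min
  · refine ⟨?_, ?_, ?_, ?_, ?_, ?_⟩
    · refine hd.ipb.cont.comp (f := fun p : C × C × X' => ((p.1, p.2.1, q p.2.2) : C × C × X))
        ?_ ?_
      · exact (continuous_fst.prodMk ((continuous_fst.comp continuous_snd).prodMk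
          (hB.spx.cont.comp (continuous_snd.comp continuous_snd)))).continuousOn
      · rintro p ⟨h1, h2⟩
        exact ⟨hJ _ _ h1, hJ _ _ h2⟩
    · intro n e t t' h1 h2
      rw [hB.spx.equi]
      exact hd.ipb.inv n (q e) t t' (hJ _ _ h1) (hJ _ _ h2)
    · intro e t h1
      exact hd.ipb.self (q e) t (hJ _ _ h1)
    · intro e t t' h1 h2
      exact hd.ipb.nonneg (q e) t t' (hJ _ _ h1) (hJ _ _ h2)
    · intro e t t' h1 h2
      exact hd.ipb.symm (q e) t t' (hJ _ _ h1) (hJ _ _ h2)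
    · intro e t t' t'' h1 h2 h3
      exact hd.ipb.tri (q e) t t' t'' (hJ _ _ h1) (hJ _ _ h2) (hJ _ _ h3)
  · intro e t t' h1 h2 h3
    exact hd.sep (q e) t t' (hJ _ _ h1) (hJ _ _ h2) h3

end Pool.Agent.Work.MP_69fea5_lc.W3
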