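import Pool.Agent.Work.MP_69fea5_lc.W3.StmtsE

/-!
Typical points close to a given point of the support of the limit: see the docstring of `S_PIC`.
-/

set_option autoImplicit false

namespace Pool.Agent.Work.MP_69fea5_lc.W3

open MeasureTheory Topology Set Filter ProbabilityTheory
open scoped NNReal ENNReal
open Pool.Agent.Work.MP_69fea5_lc.AK
open Pool.Agent.Work.MP_69fea5_lc.N3 (W2 bx sup2 St nxt Bl3 CaseII3 GRD)

open Classical in
theorem PIC_pf (h1 : S_MSB) (h2 : S_SUP) (h3 : S_PMB) (h4 : S_CYL) : S_PIC := by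
  intro k X _ _ μ x y hc he G w 𝒢 hG hy hw h𝒢
  have hms := (h1 k X μ x hc he).1.2.2.2
  have hs1 := (h2 k (μ x)).2.1
  have hsc := (h2 k (μ x)).1
  have hsup : ∀ᵐ p ∂(μ x : Measure (Om k)), p ∈ supp (μ x) := by
    have h5 : (μ x : Measure (Om k)) (supp (μ x)) = 1 := by
      rw [← ProbabilityMeasure.ennreal_coeFn_eq_coeFn_toMeasure, hs1]
      rfl
    exact (prob_compl_eq_zero_iff hsc.measurableSet).2 h5
  have hae : ∀ᵐ p ∂(μ x : Measure (Om k)), p ∈ 𝒢 ∧ p ∈ supp (μ x) := h𝒢.and hsup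
  let P : ℕ → ℕ → Prop := fun n L =>
    ∃ p, (p ∈ 𝒢 ∧ p ∈ supp (μ x)) ∧ sh (n : ℤ) p ∈ cyl (wordOf w L) 0
  have key : ∀ n L : ℕ, 0 < μ (sh (n : ℤ) x) (cyl (wordOf w L) 0) → P n L := by
    intro n L hpos
    by_contra hcon
    have h0 : (μ x : Measure (Om k)) (cyl (wordOf w L) (0 + (n : ℤ))) = 0 := by
      rw [measure_eq_zero_iff_ae_notMem]
      filter_upwards [hae] with p hp hpc
      exact hcon ⟨p, hp, ((h4 k).2.1 _ _ _ _).2 hpc⟩
    rw [he, (h3 k).2.1 (μ x) (wordOf w L) 0 (n : ℤ)] at hpos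
    rw [← ProbabilityMeasure.ennreal_coeFn_eq_coeFn_toMeasure] at h0
    have h6 : μ x (cyl (wordOf w L) (0 + (n : ℤ))) = 0 := by exact_mod_cast h0
    exact hpos.ne' h6
  have hev : ∀ L : ℕ, ∀ᶠ n : ℕ in (G : Filter ℕ), P n L := by
    intro L
    have hcont : Continuous fun m : PM k => m (cyl (wordOf w L) 0) :=
      (h3 k).2.2.1 _ ((h4 k).1 _ _)
    have ht : Tendsto (fun n : ℕ => μ (sh (n : ℤ) x) (cyl (wordOf w L) 0)) (G : Filter ℕ)
        (𝓝 (μ y (cyl (wordOf w L) 0))) := ((hcont.comp hc).tendsto y).comp hy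
    have hpos : 0 < μ y (cyl (wordOf w L) 0) := ((h2 k (μ y)).2.2.2.1 w).1 hw L
    filter_upwards [ht.eventually_const_lt hpos] with n hn
    exact key n L hn
  have hex : ∀ n : ℕ, ∃ p, (p ∈ 𝒢 ∧ p ∈ supp (μ x)) ∧
      ((∃ L ≤ n, P n L) → sh (n : ℤ) p ∈ cyl (wordOf w (Nat.findGreatest (P n) n)) 0) := by
    intro n
    by_cases h : ∃ L ≤ n, P n L
    · obtain ⟨L, hL, hP⟩ := h
      obtain ⟨p, a, b⟩ := Nat.findGreatest_spec hL hP
      exact ⟨p, a, fun _ => b⟩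
    · obtain ⟨p, hp⟩ := hae.exists
      exact ⟨p, hp, fun h' => absurd h' h⟩
  choose p hp using hex
  refine ⟨p, fun n => ⟨(hp n).1.1, hms _ (hp n).1.2⟩, ?_⟩
  intro U hU
  obtain ⟨L0, hL0⟩ := (h4 k).2.2.2.2.1 w U hU
  have hge : ∀ᶠ n : ℕ in (G : Filter ℕ), L0 ≤ n := hG (eventually_ge_atTop L0)
  have hfin : ∀ᶠ n : ℕ in (G : Filter ℕ), sh (n : ℤ) (p n) ∈ U := by
    filter_upwards [hev L0, hge] with n hn hn'
    exact hL0 _ (Nat.le_findGreatest hn' hn) ((hp n).2 ⟨L0, hn', hn⟩)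
  exact hfin

end Pool.Agent.Work.MP_69fea5_lc.W3
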