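import Pool.Agent.Work.MP_69fea5_lc.W3.StmtsT

/-! Item [69fea5 T PRD]: a measure on a product with a point mass as second marginal. -/

set_option autoImplicit false

namespace Pool.Agent.Work.MP_69fea5_lc.W3

open MeasureTheory Filter Topology Set
open scoped NNReal ENNReal

theorem PRD_pf : S_PRD := by
  intro O X _ _ _ _ _ _ ν x h
  have hs : MeasurableSet ({x} : Set X) := measurableSet_singleton x
  have hnull : (ν : Measure (O × X)) {p | p.2 ≠ x} = 0 := by
    have h1 : ((ν : Measure (O × X)).map Prod.snd) {x}ᶜ = 0 := by
      rw [h, Measure.dirac_apply' _ hs.compl]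
      simp
    rw [Measure.map_apply measurable_snd hs.compl] at h1
    exact h1
  have hae : ∀ᵐ p ∂(ν : Measure (O × X)), p.2 = x := by
    rw [ae_iff]
    exact hnull
  have hm : Measurable fun u : O => (u, x) := measurable_prodMk_right
  rw [Measure.map_map hm measurable_fst]
  have heq : ((fun u : O => (u, x)) ∘ (Prod.fst : O × X → O)) =ᵐ[(ν : Measure (O × X))] id := by
    filter_upwards [hae] with p hp
    simp only [Function.comp_apply, id_eq]
    exact Prod.ext rfl hp.symm
  rw [Measure.map_congr heq, Measure.map_id]

end Pool.Agent.Work.MP_69fea5_lc.W3
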