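import Pool.Agent.Work.MP_69fea5_lc.W3.StmtsE

set_option autoImplicit false

namespace Pool.Agent.Work.MP_69fea5_lc.W3

open MeasureTheory Topology Set Filter ProbabilityTheory
open scoped NNReal ENNReal
open Pool.Agent.Work.MP_69fea5_lc.AK

theorem PRU_pf (hUSG : N3.S_USG) : S_PRU := by
  intro k X _ μ ν hμ hν F hF a
  have hc : Continuous fun y : X => (((μ y).prod (ν y), y) :
      ProbabilityMeasure (Om k × Om k) × X) :=
    ((ProbabilityMeasure.continuous_prod).comp (hμ.prodMk hν)).prodMk continuous_id
  rcases eq_or_ne a ⊤ with rfl | ha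
  · convert isClosed_empty
    ext y
    simp only [mem_setOf_eq, mem_empty_iff_false, iff_false, top_le_iff]
    exact measure_ne_top _ _
  · lift a to ℝ≥0 using ha
    have h := (hUSG (Om k × Om k) X F hF a).preimage hc
    convert h using 1
    ext y
    simp only [mem_setOf_eq, mem_preimage]
    rw [← ENNReal.coe_le_coe]
    rw [ProbabilityMeasure.ennreal_coeFn_eq_coeFn_toMeasure]
    rfl

end Pool.Agent.Work.MP_69fea5_lc.W3
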