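import Pool.Agent.Work.MP_69fea5_lc.W3.StmtsF1

/-!
# [69fea5 F1 PTN] partners
-/

set_option autoImplicit false

namespace Pool.Agent.Work.MP_69fea5_lc.W3

open MeasureTheory Topology Set Filter TopologicalSpace
open scoped NNReal ENNReal
open Pool.Agent.Work.MP_69fea5_lc.AK

namespace I_PTN

/-- the base change of an isometric extension, given as a set of pairs (base, phase) -/
theorem isom_pull {T Y X' : Type} [TopologicalSpace T] [Sys T] [TopologicalSpace Y] [Sys Y]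
    [TopologicalSpace X'] [Sys X'] (Z : Set (Y × T)) (hZc : IsClosed Z) (hZi : AK.Inv Z)
    (d : T → T → Y → ℝ) (hI : Isom {p : T × Y | (p.2, p.1) ∈ Z} d) (E : Set X')
    (hE : MinSet E) (r : X' → Y) (hr : Continuous r) (hre : ∀ (n : ℤ) (e : X'), r (sh n e) =
      sh n (r e)) (hbase : ∀ e ∈ E, ∃ t, (r e, t) ∈ Z) :
    Isom {p : T × X' | p.2 ∈ E ∧ (r p.2, p.1) ∈ Z} fun t t' e => d t t' (r e) := by
  refine ⟨?_, ?_, ?_, ⟨?_, ?_, ?_, ?_, ?_, ?_⟩, ?_⟩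
  · exact (hE.closed.preimage continuous_snd).inter
      (hZc.preimage ((hr.comp continuous_snd).prodMk continuous_fst))
  · rintro n ⟨t, e⟩ ⟨he, ht⟩
    refine ⟨hE.inv n e he, ?_⟩
    change (r (sh n e), sh n t) ∈ Z
    rw [hre]
    exact hZi n _ ht
  · have h1 : Prod.snd '' {p : T × X' | p.2 ∈ E ∧ (r p.2, p.1) ∈ Z} = E := by
      ext e
      constructor
      · rintro ⟨⟨t, e'⟩, ⟨he, -⟩, rfl⟩
        exact he
      · intro he
        obtain ⟨t, ht⟩ := hbase e he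
        exact ⟨(t, e), ⟨he, ht⟩, rfl⟩
    rw [h1]
    exact hE
  · have h1 : Continuous fun p : T × T × X' => ((p.1, p.2.1, r p.2.2) : T × T × Y) := by
      fun_prop
    exact hI.ipb.cont.comp h1.continuousOn fun p hp => ⟨hp.1.2, hp.2.2⟩
  · intro n x u u' hu hu'
    change d (sh n u) (sh n u') (r (sh n x)) = d u u' (r x)
    rw [hre]
    exact hI.ipb.inv n (r x) u u' hu.2 hu'.2
  · intro x u hu
    exact hI.ipb.self (r x) u hu.2
  · intro x u u' hu hu'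
    exact hI.ipb.nonneg (r x) u u' hu.2 hu'.2
  · intro x u u' hu hu'
    exact hI.ipb.symm (r x) u u' hu.2 hu'.2
  · intro x u u' u'' hu hu' hu''
    exact hI.ipb.tri (r x) u u' u'' hu.2 hu'.2 hu''.2
  · intro x t t' ht ht' h0
    exact hI.sep (r x) t t' ht.2 ht'.2 h0

end I_PTN

open I_PTN in
theorem PTN_pf (h1 : S_AUT) (h2 : S_ISA) (h3 : S_ULT) (hZ : AK.S_ZORN) (hORB : AK.S_ORB)
    (hIMG : AK.S_IMG) : S_PTN := by
  intro O Y C X' _ _ _ _ _ _ _ _ _ _ _ _ _ _ _ _ A ms θ v₀ E q lm hP a ha v hv hav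
  obtain ⟨d, hd⟩ := hP.pha.iso
  obtain ⟨hmin, -, -, ⟨d', hd'⟩, -⟩ := h1 C Y (JJ A θ) d hd v₀ hP.frm
  have hqE : ∀ e ∈ E, q e ∈ orb v₀ := fun e he => hP.base ▸ ⟨e, he, rfl⟩
  have hI := isom_pull (orb v₀) hmin.closed hmin.inv d' hd' E hP.spx.min (fun e => (q e).1)
    (continuous_fst.comp hP.spx.cont) (fun n e => by rw [hP.spx.equi]; rfl)
    (fun e he => ⟨(q e).2, hqE e he⟩)
  have hva : (v.2, a) ∈ {p : (ℕ → C) × X' | p.2 ∈ E ∧ ((q p.2).1, p.1) ∈ orb v₀} := by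
    refine ⟨ha, ?_⟩
    change ((q a).1, v.2) ∈ orb v₀
    rw [hav]
    exact hv
  have hm1 : MinSet (orb ((v.2, a) : (ℕ → C) × X')) := h2 (ℕ → C) X' _ _ hI _ hva
  -- the orbit closure of `(a, v)`
  have hfc : Continuous fun p : (ℕ → C) × X' => ((p.2, ((q p.2).1, p.1)) : X' × (Y × (ℕ → C))) := by
    have := hP.spx.cont
    fun_prop
  have hfe : ∀ (n : ℤ) (p : (ℕ → C) × X'),
      (((sh n p).2, ((q (sh n p).2).1, (sh n p).1)) : X' × (Y × (ℕ → C))) =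
        sh n (p.2, ((q p.2).1, p.1)) := by
    intro n p
    change ((sh n p.2, ((q (sh n p.2)).1, sh n p.1)) : X' × (Y × (ℕ → C))) = _
    rw [hP.spx.equi]
    rfl
  have hav2 : ((a, ((q a).1, v.2)) : X' × (Y × (ℕ → C))) = (a, v) := by rw [hav]
  have hm2 : MinSet (orb ((a, v) : X' × (Y × (ℕ → C)))) := by
    have h4 := (h3 ((ℕ → C) × X')).2.2 (X' × (Y × (ℕ → C))) _ inferInstance hfc hfe (v.2, a)
    rw [hav2] at h4
    rw [← h4]
    exact hIMG _ _ _ _ hm1 hfc.continuousOn fun n x _ => hfe n x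
  -- the pairs
  have hgc : Continuous fun p : X' × X' => ((p.1, q p.2) : X' × (Y × (ℕ → C))) :=
    continuous_fst.prodMk (hP.spx.cont.comp continuous_snd)
  have hge : ∀ (n : ℤ) (p : X' × X'), (((sh n p).1, q (sh n p).2) : X' × (Y × (ℕ → C))) =
      sh n (p.1, q p.2) := by
    intro n p
    change ((sh n p.1, q (sh n p.2)) : X' × (Y × (ℕ → C))) = _
    rw [hP.spx.equi]
    rfl
  have hKc : IsClosed {p : X' × X' | p.1 ∈ E ∧ p.2 ∈ E ∧ (p.1, q p.2) ∈ orb (a, v)} :=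
    (hP.spx.min.closed.preimage continuous_fst).inter
      ((hP.spx.min.closed.preimage continuous_snd).inter (hm2.closed.preimage hgc))
  have hKi : AK.Inv {p : X' × X' | p.1 ∈ E ∧ p.2 ∈ E ∧ (p.1, q p.2) ∈ orb (a, v)} := by
    rintro n p ⟨h5, h6, h7⟩
    refine ⟨hP.spx.min.inv n _ h5, hP.spx.min.inv n _ h6, ?_⟩
    rw [hge n p]
    exact hm2.inv n _ h7
  have hKn : {p : X' × X' | p.1 ∈ E ∧ p.2 ∈ E ∧ (p.1, q p.2) ∈ orb (a, v)}.Nonempty := by
    have h5 : v ∈ q '' E := hP.base ▸ hv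
    obtain ⟨b, hb, hbv⟩ := h5
    refine ⟨(a, b), ha, hb, ?_⟩
    change (a, q b) ∈ orb (a, v)
    rw [hbv]
    exact (hORB _ (a, v)).2.2.1
  obtain ⟨L, hLK, hL⟩ := hZ (X' × X') _ hKc hKn hKi
  have hgL : (fun p : X' × X' => ((p.1, q p.2) : X' × (Y × (ℕ → C)))) '' L = orb (a, v) := by
    have h5 : MinSet ((fun p : X' × X' => ((p.1, q p.2) : X' × (Y × (ℕ → C)))) '' L) :=
      hIMG _ _ _ _ hL hgc.continuousOn fun n x _ => hge n x
    refine hm2.min _ h5.closed h5.ne h5.inv ?_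
    rintro _ ⟨p, hp, rfl⟩
    exact (hLK hp).2.2
  have h6 : (a, v) ∈ (fun p : X' × X' => ((p.1, q p.2) : X' × (Y × (ℕ → C)))) '' L := by
    rw [hgL]
    exact (hORB _ (a, v)).2.2.1
  obtain ⟨⟨a', b⟩, hab, heq⟩ := h6
  obtain ⟨rfl, hqb⟩ := Prod.mk.inj heq
  refine ⟨b, (hLK hab).2.1, hqb, ?_⟩
  rw [(hORB _ _).2.2.2.2.1 L hL hab]
  exact hL

end Pool.Agent.Work.MP_69fea5_lc.W3
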