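import Pool.Agent.Work.MP_69fea5_lc.W3.StmtsF1

/-!
# Block [69fea5 F1], item PUR: the typical values are 0 and 1 (pure measure theory)
-/

set_option autoImplicit false

namespace Pool.Agent.Work.MP_69fea5_lc.W3

open MeasureTheory Topology Set Filter TopologicalSpace
open ProbabilityTheory (Kernel IsMarkovKernel IsSFiniteKernel)
open scoped NNReal ENNReal ProbabilityTheory
open Pool.Agent.Work.MP_69fea5_lc.AK

namespace I_PUR

section gen

variable {V O Z : Type} [MeasurableSpace V] [MeasurableSpace O] [MeasurableSpace Z]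

theorem meas_ae (K : Kernel V O) [IsSFiniteKernel K] {α : Type} [MeasurableSpace α] (φ : α → V)
    (hφ : Measurable φ) (p : α → O → Prop) (hp : MeasurableSet {x : α × O | p x.1 x.2}) :
    MeasurableSet {a | ∀ᵐ w ∂(K (φ a)), p a w} := by
  have h : {a | ∀ᵐ w ∂(K (φ a)), p a w} =
      (fun a => K.comap φ hφ a (Prod.mk a ⁻¹' {x : α × O | p x.1 x.2}ᶜ)) ⁻¹' {0} := by
    ext a
    rfl
  rw [h]
  exact Kernel.measurable_kernel_prodMk_left hp.compl (measurableSet_singleton 0)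

theorem meas_ae' (Q : Measure Z) [SFinite Q] {α : Type} [MeasurableSpace α]
    (p : α → Z → Prop) (hp : MeasurableSet {x : α × Z | p x.1 x.2}) :
    MeasurableSet {a | ∀ᵐ w ∂Q, p a w} := by
  have h : {a | ∀ᵐ w ∂Q, p a w} =
      (fun a => Q (Prod.mk a ⁻¹' {x : α × Z | p x.1 x.2}ᶜ)) ⁻¹' {0} := by
    ext a
    rfl
  rw [h]
  exact measurable_measure_prodMk_left hp.compl (measurableSet_singleton 0)

theorem meas_iff {α : Type} [MeasurableSpace α] {p q : α → Prop} (hp : MeasurableSet {x | p x})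
    (hq : MeasurableSet {x | q x}) : MeasurableSet {x | p x ↔ q x} :=
  measurableSet_setOfPred.mpr ((measurableSet_setOfPred.mp hp).iff (measurableSet_setOfPred.mp hq))

theorem meas_imp {α : Type} [MeasurableSpace α] {p q : α → Prop} (hp : MeasurableSet {x | p x})
    (hq : MeasurableSet {x | q x}) : MeasurableSet {x | p x → q x} :=
  measurableSet_setOfPred.mpr ((measurableSet_setOfPred.mp hp).imp (measurableSet_setOfPred.mp hq))

theorem one (h : Measure V) [SFinite h] (K : Kernel V O) [IsMarkovKernel K] (Q : Measure Z)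
    [SFinite Q] (R : Set ((V × O) × Z)) (hR : MeasurableSet R)
    (hR' : ∀ᵐ v ∂h, ∀ᵐ w ∂(K v), ∀ᵐ w' ∂(K v), ∀ᵐ z ∂Q,
      (((v, w), z) ∈ R → ((v, w'), z) ∈ R)) :
    ∃ F : Set (V × Z), MeasurableSet F ∧
      ∀ᵐ x ∂(h ⊗ₘ K), ∀ᵐ z ∂Q, ((x, z) ∈ R ↔ (x.1, z) ∈ F) := by
  have hF : MeasurableSet {q : V × Z | ∀ᵐ w ∂(K q.1), ((q.1, w), q.2) ∈ R} :=
    meas_ae K Prod.fst measurable_fst _ (hR.preimage (f := fun x : (V × Z) × O =>
      ((x.1.1, x.2), x.1.2)) (by fun_prop))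
  have m0 : MeasurableSet {x : (V × O) × Z | ((x.1, x.2) ∈ R ↔
      (x.1.1, x.2) ∈ {q : V × Z | ∀ᵐ w ∂(K q.1), ((q.1, w), q.2) ∈ R})} :=
    meas_iff (p := fun x : (V × O) × Z => (x.1, x.2) ∈ R) hR (hF.preimage
    (f := fun x : (V × O) × Z => (x.1.1, x.2)) (by fun_prop))
  refine ⟨_, hF, Measure.ae_compProd_of_ae_ae (meas_ae' Q _ m0) ?_⟩
  filter_upwards [hR'] with v hv
  have h1 : ∀ᵐ w ∂(K v), ∀ᵐ z ∂Q, ∀ᵐ w' ∂(K v), (((v, w), z) ∈ R → ((v, w'), z) ∈ R) := by
    filter_upwards [hv] with w hw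
    refine (Measure.ae_ae_comm (meas_imp ?_ ?_)).mp hw
    · exact hR.preimage (f := fun x : O × Z => ((v, w), x.2)) (by fun_prop)
    · exact hR.preimage (f := fun x : O × Z => ((v, x.1), x.2)) (by fun_prop)
  have h2 : ∀ᵐ z ∂Q, ∀ᵐ w ∂(K v), ∀ᵐ w' ∂(K v), (((v, w), z) ∈ R → ((v, w'), z) ∈ R) := by
    refine (Measure.ae_ae_comm (meas_ae' (K v) (fun (x : O × Z) w' =>
      (((v, x.1), x.2) ∈ R → ((v, w'), x.2) ∈ R)) (meas_imp ?_ ?_))).mp h1
    · exact hR.preimage (f := fun x : (O × Z) × O => ((v, x.1.1), x.1.2)) (by fun_prop)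
    · exact hR.preimage (f := fun x : (O × Z) × O => ((v, x.2), x.1.2)) (by fun_prop)
  refine (Measure.ae_ae_comm (μ := K v) (ν := Q) (p := fun w z => (((v, w), z) ∈ R ↔
    (v, z) ∈ {q : V × Z | ∀ᵐ w ∂(K q.1), ((q.1, w), q.2) ∈ R})) (meas_iff ?_ ?_)).mpr ?_
  · exact hR.preimage (f := fun x : O × Z => ((v, x.1), x.2)) (by fun_prop)
  · exact hF.preimage (f := fun x : O × Z => (v, x.2)) (by fun_prop)
  filter_upwards [h2] with z hz
  by_cases hc : ∀ᵐ w ∂(K v), ((v, w), z) ∈ R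
  · filter_upwards [hc] with w hw using ⟨fun _ => hc, fun _ => hw⟩
  · filter_upwards [hz] with w hw
    refine ⟨fun hwR => ?_, fun hF => absurd hF hc⟩
    show ∀ᵐ w ∂(K v), ((v, w), z) ∈ R
    filter_upwards [hw] with w' hw' using hw' hwR

theorem two (h : Measure V) [SFinite h] (K : Kernel V O) [IsMarkovKernel K]
    (A : Set (V × O)) (hA : ∀ᵐ x ∂(h ⊗ₘ K), x ∈ A) (R : Set ((V × O) × (V × O)))
    (hR : MeasurableSet R)
    (h1 : ∀ v w w', (v, w) ∈ A → (v, w') ∈ A →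
      ∀ᵐ z ∂(h ⊗ₘ K), (((v, w), z) ∈ R → ((v, w'), z) ∈ R))
    (h2 : ∀ v w w', (v, w) ∈ A → (v, w') ∈ A →
      ∀ᵐ z ∂(h ⊗ₘ K), ((z, (v, w)) ∈ R → (z, (v, w')) ∈ R)) :
    ∃ F : Set (V × V), MeasurableSet F ∧
      ∀ᵐ x ∂(h ⊗ₘ K), ∀ᵐ z ∂(h ⊗ₘ K), ((x, z) ∈ R ↔ (x.1, z.1) ∈ F) := by
  have hA' : ∀ᵐ v ∂h, ∀ᵐ w ∂(K v), (v, w) ∈ A := Measure.ae_ae_of_ae_compProd hA
  obtain ⟨F₁, hF₁, hF₁'⟩ := one h K (h ⊗ₘ K) R hR (by
    filter_upwards [hA'] with v hv
    filter_upwards [hv] with w hw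
    filter_upwards [hv] with w' hw' using h1 v w w' hw hw')
  have m1 : MeasurableSet {x : (V × O) × (V × O) | ((x.1, x.2) ∈ R ↔ (x.1.1, x.2) ∈ F₁)} :=
    meas_iff (p := fun x : (V × O) × (V × O) => (x.1, x.2) ∈ R) hR (hF₁.preimage
      (f := fun x : (V × O) × (V × O) => (x.1.1, x.2)) (by fun_prop))
  have e1 : ∀ᵐ z ∂(h ⊗ₘ K), ∀ᵐ x ∂(h ⊗ₘ K), ((x, z) ∈ R ↔ (x.1, z) ∈ F₁) :=
    (Measure.ae_ae_comm (p := fun x z => ((x, z) ∈ R ↔ (x.1, z) ∈ F₁)) m1).mp hF₁'
  have e1' := Measure.ae_ae_of_ae_compProd e1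
  obtain ⟨F₂, hF₂, hF₂'⟩ := one h K h ((fun q : (V × O) × V => (q.2, q.1)) ⁻¹' F₁)
    (hF₁.preimage (by fun_prop)) (by
    filter_upwards [hA', e1'] with v hv hv'
    filter_upwards [hv, hv'] with u hu hu'
    filter_upwards [hv, hv'] with u' hw hw'
    have : ∀ᵐ x ∂(h ⊗ₘ K), ((x.1, (v, u)) ∈ F₁ → (x.1, (v, u')) ∈ F₁) := by
      filter_upwards [hu', hw', h2 v u u' hu hw] with x a b c
      exact fun q => b.mp (c (a.mpr q))
    filter_upwards [Measure.ae_ae_of_ae_compProd this] with y hy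
    obtain ⟨-, hy'⟩ := hy.exists
    exact hy')
  refine ⟨Prod.swap ⁻¹' F₂, hF₂.preimage measurable_swap, ?_⟩
  have e2 : ∀ᵐ z ∂(h ⊗ₘ K), ∀ᵐ x ∂(h ⊗ₘ K), ((x.1, z) ∈ F₁ ↔ (z.1, x.1) ∈ F₂) := by
    filter_upwards [hF₂'] with z hz
    refine Measure.ae_compProd_of_ae_ae (meas_iff ?_ ?_) ?_
    · exact hF₁.preimage (f := fun x : V × O => (x.1, z)) (by fun_prop)
    · exact hF₂.preimage (f := fun x : V × O => (z.1, x.1)) (by fun_prop)
    filter_upwards [hz] with y hy
    exact Eventually.of_forall fun _ => hy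
  have e3 : ∀ᵐ z ∂(h ⊗ₘ K), ∀ᵐ x ∂(h ⊗ₘ K), ((x, z) ∈ R ↔ (z.1, x.1) ∈ F₂) := by
    filter_upwards [e1, e2] with z a b
    filter_upwards [a, b] with x c d using c.trans d
  refine (Measure.ae_ae_comm (p := fun z x => ((x, z) ∈ R ↔ (z.1, x.1) ∈ F₂))
    (meas_iff ?_ ?_)).mp e3
  · exact hR.preimage (f := fun x : (V × O) × (V × O) => (x.2, x.1)) (by fun_prop)
  · exact hF₂.preimage (f := fun x : (V × O) × (V × O) => (x.1.1, x.2.1)) (by fun_prop)

end gen

theorem standard (O : Type) [TopologicalSpace O] [MeasurableSpace O] [CS O] :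
    StandardBorelSpace O := by
  let _ : MetricSpace O := TopologicalSpace.metrizableSpaceMetric O
  have : PolishSpace O := inferInstance
  infer_instance

/-- the relation depends on the second coordinates only -/
theorem three {O V : Type} [TopologicalSpace O] [MeasurableSpace O] [CS O] [TopologicalSpace V]
    [MeasurableSpace V] [CS V] (P : ProbabilityMeasure (O × V)) (A : Set (O × V))
    (R : Set ((O × V) × (O × V))) (hA : IsClosed A) (hPA : P A = 1) (hR : IsClosed R)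
    (h1 : ∀ x ∈ A, ∀ x' ∈ A, x.2 = x'.2 → P {z | (x, z) ∈ R ∧ (x', z) ∉ R} = 0)
    (h2 : ∀ x ∈ A, ∀ x' ∈ A, x.2 = x'.2 → P {z | (z, x) ∈ R ∧ (z, x') ∉ R} = 0) :
    ∃ F : Set (V × V), MeasurableSet F ∧
      ∀ᵐ x ∂(P : Measure (O × V)), ∀ᵐ z ∂(P : Measure (O × V)),
        ((x, z) ∈ R ↔ (x.2, z.2) ∈ F) := by
  have : Nonempty (O × V) := nonempty_of_isProbabilityMeasure (P : Measure (O × V))
  have : Nonempty O := this.map Prod.fst
  have : StandardBorelSpace O := standard O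
  let P' : Measure (V × O) := (P : Measure (O × V)).map Prod.swap
  have : IsProbabilityMeasure P' := Measure.isProbabilityMeasure_map (by fun_prop)
  have hd : P'.fst ⊗ₘ P'.condKernel = P' := P'.disintegrate P'.condKernel
  have hae : ∀ {p : V × O → Prop}, (∀ᵐ x ∂(P : Measure (O × V)), p x.swap) → ∀ᵐ x ∂P', p x := by
    intro p hp
    have e : (MeasurableEquiv.prodComm : O × V ≃ᵐ V × O) = (Prod.swap : O × V → V × O) := rfl
    show ∀ᵐ x ∂((P : Measure (O × V)).map Prod.swap), p x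
    rw [← e, (MeasurableEquiv.prodComm : O × V ≃ᵐ V × O).measurableEmbedding.ae_map_iff]
    exact hp
  have hae' : ∀ {p : V × O → Prop}, (∀ᵐ x ∂P', p x) → ∀ᵐ x ∂(P : Measure (O × V)), p x.swap :=
    fun hp => ae_of_ae_map (by fun_prop) hp
  have hz : ∀ s : Set (O × V), P s = 0 → ∀ᵐ z ∂(P : Measure (O × V)), z ∉ s := by
    intro s hs
    rw [ae_iff]
    simp only [not_not]
    exact (ProbabilityMeasure.null_iff_toMeasure_null P s).mp hs
  obtain ⟨F, hF, hF'⟩ := two P'.fst P'.condKernel (Prod.swap ⁻¹' A) (by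
      rw [hd]
      refine hae ?_
      have : (P : Measure (O × V)) Aᶜ = 0 := by
        rw [prob_compl_eq_zero_iff hA.measurableSet]
        have := congrArg (fun r : ℝ≥0 => (r : ℝ≥0∞)) hPA
        simpa using this
      exact this)
    ((fun q : (V × O) × (V × O) => (q.1.swap, q.2.swap)) ⁻¹' R)
    (hR.measurableSet.preimage (by fun_prop)) (by
      intro v w w' hw hw'
      rw [hd]
      refine hae ?_
      filter_upwards [hz _ (h1 (w, v) hw (w', v) hw' rfl)] with z hz hq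
      by_contra hn
      exact hz ⟨hq, hn⟩) (by
      intro v w w' hw hw'
      rw [hd]
      refine hae ?_
      filter_upwards [hz _ (h2 (w, v) hw (w', v) hw' rfl)] with z hz hq
      by_contra hn
      exact hz ⟨hq, hn⟩)
  rw [hd] at hF'
  exact ⟨F, hF, (hae' hF').mono fun x hx => hae' hx⟩

end I_PUR

theorem PUR_pf : S_PUR := by
  intro O V T _ _ _ _ _ _ _ _ _ P A R lam g Θ hA hPA hR hlam hg h1 h2 hB
  obtain ⟨F, hF, hF'⟩ := I_PUR.three P A R hA hPA hR h1 h2
  have hS : MeasurableSet {q : (O × V) × (O × V) | q ∈ R ↔ (q.1.2, q.2.2) ∈ F} :=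
    I_PUR.meas_iff hR.measurableSet (hF.preimage
      (f := fun q : (O × V) × (O × V) => (q.1.2, q.2.2)) (by fun_prop))
  have hPP : ∀ᵐ q ∂((P.prod P : ProbabilityMeasure ((O × V) × (O × V))) :
      Measure ((O × V) × (O × V))), (q ∈ R ↔ (q.1.2, q.2.2) ∈ F) :=
    (Measure.ae_prod_iff_ae_ae hS).mpr hF'
  have hmeas : Measurable fun t : T × T => ((((lam t.1).prod (diracProba (g t.1))).prod
      ((lam t.2).prod (diracProba (g t.2))) : ProbabilityMeasure ((O × V) × (O × V))) :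
      Measure ((O × V) × (O × V))) := by
    have hc : Continuous fun t : T × T => (((lam t.1).prod (diracProba (g t.1))).prod
      ((lam t.2).prod (diracProba (g t.2))) : ProbabilityMeasure ((O × V) × (O × V))) := by
      have c1 : Continuous fun t : T => (lam t).prod (diracProba (g t)) :=
        (ProbabilityMeasure.continuous_prod).comp (hlam.prodMk (continuous_diracProba.comp hg))
      exact (ProbabilityMeasure.continuous_prod).comp
        ((c1.comp continuous_fst).prodMk (c1.comp continuous_snd))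
    exact measurable_subtype_coe.comp hc.measurable
  rw [← hB, ae_iff] at hPP
  have hS' : MeasurableSet {q : (O × V) × (O × V) | ¬ (q ∈ R ↔ (q.1.2, q.2.2) ∈ F)} := hS.compl
  have hm2 := (Measure.measurable_coe hS').comp hmeas
  simp only [Function.comp_def] at hm2
  rw [Measure.bind_apply hS' hmeas.aemeasurable, lintegral_eq_zero_iff hm2] at hPP
  filter_upwards [hPP] with t ht
  have e : ((((lam t.1).prod (diracProba (g t.1))).prod
      ((lam t.2).prod (diracProba (g t.2))) : ProbabilityMeasure ((O × V) × (O × V))) :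
      Measure ((O × V) × (O × V))) = ((lam t.1 : Measure O).prod (lam t.2 : Measure O)).map
        fun u => ((u.1, g t.1), (u.2, g t.2)) := by
    show ((lam t.1 : Measure O).prod (Measure.dirac (g t.1))).prod
      ((lam t.2 : Measure O).prod (Measure.dirac (g t.2))) = _
    rw [Measure.prod_dirac, Measure.prod_dirac, Measure.map_prod_map _ _ (by fun_prop)
      (by fun_prop)]
    rfl
  have ht' : ∀ᵐ u ∂((lam t.1 : Measure O).prod (lam t.2 : Measure O)),
      (((u.1, g t.1), (u.2, g t.2)) ∈ R ↔ (g t.1, g t.2) ∈ F) := by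
    have ht2 : ((((lam t.1).prod (diracProba (g t.1))).prod
      ((lam t.2).prod (diracProba (g t.2))) : ProbabilityMeasure ((O × V) × (O × V))) :
      Measure ((O × V) × (O × V))) {q | ¬ (q ∈ R ↔ (q.1.2, q.2.2) ∈ F)} = 0 := ht
    rw [e] at ht2
    have := ae_of_ae_map (μ := (lam t.1 : Measure O).prod (lam t.2 : Measure O))
      (f := fun u : O × O => ((u.1, g t.1), (u.2, g t.2))) (by fun_prop)
      (p := fun q => (q ∈ R ↔ (q.1.2, q.2.2) ∈ F)) ht2
    exact this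
  by_cases hc : (g t.1, g t.2) ∈ F
  · right
    have : {u : O × O | ((u.1, g t.1), (u.2, g t.2)) ∈ R} =ᵐ[(lam t.1 : Measure O).prod
        (lam t.2 : Measure O)] univ := by
      rw [eventuallyEq_univ]
      exact ht'.mono fun u hu => hu.mpr hc
    rw [measure_congr this, measure_univ]
  · left
    have : ∀ᵐ u ∂((lam t.1 : Measure O).prod (lam t.2 : Measure O)),
      ¬ (((u.1, g t.1), (u.2, g t.2)) ∈ R) := ht'.mono fun u hu hn => hc (hu.mp hn)
    rw [ae_iff] at this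
    simpa only [not_not] using this

end Pool.Agent.Work.MP_69fea5_lc.W3
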