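import Pool.Agent.Work.MP_69fea5_lc.W3.StmtsT

set_option autoImplicit false

namespace Pool.Agent.Work.MP_69fea5_lc.W3

open MeasureTheory Topology Set Filter TopologicalSpace
open scoped NNReal ENNReal
open Pool.Agent.Work.MP_69fea5_lc.AK

theorem RIM_pf (hBCF : S_BCF) (hCTR : S_CTR) : S_RIM := by
  intro O X X' _ _ _ _ _ _ _ _ _ _ _ _ A E q A' ms' hB hc he ho
  obtain ⟨-, -, hA⟩ := hBCF O X X' A E q A' hB
  have hsub : ∀ p ∈ A', p.2 ∈ E := fun p hp => (hB.sub hp).1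
  have hctr := hCTR O X X' E q A' ms' hB.spx hB.min.closed hB.min.inv hsub hc he
  refine ⟨hB.min, hc, he, ?_⟩
  intro p hp
  have hpE : p.2 ∈ E := hsub p hp
  have h1 := ho p.2 hpE
  have h0 := hctr p.2 hpE
  have hss : {u | (u, q p.2) ∈ A} ⊆ {u | (u, p.2) ∈ A'} ∪
      {u | (∃ e', q e' = q p.2 ∧ (u, e') ∈ A') ∧ (u, p.2) ∉ A'} := by
    intro u hu
    by_cases h : (u, p.2) ∈ A'
    · exact Or.inl h
    · refine Or.inr ⟨?_, h⟩
      have hu' : (u, q p.2) ∈ (fun p : O × X' => (p.1, q p.2)) '' A' := by rw [hA]; exact hu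
      obtain ⟨⟨v, e'⟩, hv, hve⟩ := hu'
      have h3 : v = u := congrArg Prod.fst hve
      have h4 : q e' = q p.2 := congrArg Prod.snd hve
      subst h3
      exact ⟨e', h4, hv⟩
  have h5 : (1 : ℝ≥0∞) ≤ (ms' p.2 : Measure O) {u | (u, p.2) ∈ A'} := by
    have e1 : (ms' p.2 : Measure O) {u | (u, q p.2) ∈ A} = 1 := by
      rw [← ProbabilityMeasure.ennreal_coeFn_eq_coeFn_toMeasure, h1, ENNReal.coe_one]
    have e0 : (ms' p.2 : Measure O)
        {u | (∃ e', q e' = q p.2 ∧ (u, e') ∈ A') ∧ (u, p.2) ∉ A'} = 0 := by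
      rw [← ProbabilityMeasure.ennreal_coeFn_eq_coeFn_toMeasure, h0, ENNReal.coe_zero]
    calc (1 : ℝ≥0∞) = (ms' p.2 : Measure O) {u | (u, q p.2) ∈ A} := e1.symm
      _ ≤ _ := measure_mono hss
      _ ≤ _ := measure_union_le _ _
      _ = _ := by rw [e0, add_zero]
  have h6 : (ms' p.2 : Measure O) {u | (u, p.2) ∈ A'} = 1 := le_antisymm prob_le_one h5
  rw [← ENNReal.coe_inj, ProbabilityMeasure.ennreal_coeFn_eq_coeFn_toMeasure, h6, ENNReal.coe_one]

end Pool.Agent.Work.MP_69fea5_lc.W3
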