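import Pool.Agent.Work.MP_69fea5_lc.W3.StmtsF1

/-!
# Block [69fea5 F1], item RLP

The relations `RLs` are closed and invariant and approximate all closed invariant relations of pairs.
-/

set_option autoImplicit false

namespace Pool.Agent.Work.MP_69fea5_lc.W3

open MeasureTheory Topology Set Filter TopologicalSpace
open scoped NNReal ENNReal
open Pool.Agent.Work.MP_69fea5_lc.AK

namespace I_RLP

variable {k : ℕ} {X κ : Type} [TopologicalSpace X] [Sys X] [Encodable κ]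

/-- the box of `q` at the time `n` -/
def BX (V : κ → Set X) (q : Wd k × Wd k × κ) (n : ℤ) : Set (Om k × Om k × X) :=
  {p | p.1 ∈ cyl q.1 n ∧ p.2.1 ∈ cyl q.2.1 n ∧ sh n p.2.2 ∈ V q.2.2}

theorem open_BX (hC : AK.S_CYL) (V : κ → Set X) (hV : ∀ i, IsOpen (V i))
    (q : Wd k × Wd k × κ) (n : ℤ) : IsOpen (BX V q n) := by
  obtain ⟨hcl, -⟩ := hC k
  have h1 : IsOpen {p : Om k × Om k × X | p.1 ∈ cyl q.1 n} :=
    (hcl q.1 n).isOpen.preimage continuous_fst
  have h2 : IsOpen {p : Om k × Om k × X | p.2.1 ∈ cyl q.2.1 n} :=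
    (hcl q.2.1 n).isOpen.preimage (continuous_fst.comp continuous_snd)
  have h3 : IsOpen {p : Om k × Om k × X | sh n p.2.2 ∈ V q.2.2} :=
    (hV q.2.2).preimage ((sh_cont n).comp (continuous_snd.comp continuous_snd))
  exact h1.inter (h2.inter h3)

/-- the boxes among the first `j` ones which are disjoint from `R` -/
noncomputable def LL (V : κ → Set X) (R : Set (Om k × Om k × X)) (j : ℕ) :
    List (Wd k × Wd k × κ) := by
  classical
  exact ((List.range j).filterMap fun i => (Encodable.decode i : Option (Wd k × Wd k × κ))).filter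
    fun q => decide (Disjoint R (BX V q 0))

theorem mem_LL (V : κ → Set X) (R : Set (Om k × Om k × X)) (j : ℕ) (q : Wd k × Wd k × κ) :
    q ∈ LL V R j ↔ (∃ i < j, (Encodable.decode i : Option (Wd k × Wd k × κ)) = some q) ∧
      Disjoint R (BX V q 0) := by
  classical
  simp only [LL, List.mem_filter, List.mem_filterMap, List.mem_range, decide_eq_true_eq]

theorem sub_LL (hC : AK.S_CYL) (V : κ → Set X) (R : Set (Om k × Om k × X)) (hR : AK.Inv R)
    (j : ℕ) : ∀ p ∈ R, p.2.1 ∈ RL V (LL V R j) p.1 p.2.2 := by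
  obtain ⟨-, hsh, -⟩ := hC k
  intro p hp n q hq h
  rw [mem_LL] at hq
  have h1 : sh n p ∈ R := hR n p hp
  have h2 : sh n p ∈ BX V q 0 := by
    refine ⟨?_, ?_, ?_⟩
    · exact (hsh q.1 0 n p.1).2 (by simpa using h.1)
    · exact (hsh q.2.1 0 n p.2.1).2 (by simpa using h.2.1)
    · change sh 0 (sh n p.2.2) ∈ V q.2.2
      rw [sh_zero]
      exact h.2.2
  exact (Set.disjoint_left.1 hq.2) h1 h2

theorem anti_LL (V : κ → Set X) (R : Set (Om k × Om k × X)) {i j : ℕ} (hij : i ≤ j) (u : Om k)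
    (x : X) : RL V (LL V R j) u x ⊆ RL V (LL V R i) u x := by
  intro u' hu' n q hq
  apply hu' n q
  rw [mem_LL] at hq ⊢
  obtain ⟨⟨a, ha, e⟩, hd⟩ := hq
  exact ⟨⟨a, ha.trans_le hij, e⟩, hd⟩

theorem inter_LL (hC : AK.S_CYL) (V : κ → Set X) (B : Set X) (hV : Bas V B)
    (R : Set (Om k × Om k × X)) (hR : IsClosed R) (hRB : ∀ p ∈ R, p.2.2 ∈ B)
    (u u' : Om k) (x : X) (hx : x ∈ B) (hp : (u, u', x) ∉ R) :
    ∃ j, u' ∉ RL V (LL V R j) u x := by
  obtain ⟨-, -, hself, -, hnb, -⟩ := hC k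
  have hU : Rᶜ ∈ 𝓝 (u, u', x) := hR.isOpen_compl.mem_nhds hp
  rw [nhds_prod_eq, nhds_prod_eq] at hU
  obtain ⟨U₁, hU₁, W, hW, hs⟩ := Filter.mem_prod_iff.1 hU
  obtain ⟨U₂, hU₂, U₃, hU₃, hs'⟩ := Filter.mem_prod_iff.1 hW
  obtain ⟨L₁, hL₁⟩ := hnb u U₁ hU₁
  obtain ⟨L₂, hL₂⟩ := hnb u' U₂ hU₂
  obtain ⟨i, hxi, hVi⟩ := hV.2 x hx U₃ hU₃
  set q : Wd k × Wd k × κ := (wordOf u L₁, wordOf u' L₂, i) with hq
  have hd : Disjoint R (BX V q 0) := by
    rw [Set.disjoint_left]
    rintro z hz ⟨h1, h2, h3⟩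
    have h3' : z.2.2 ∈ V i := by
      have : sh 0 z.2.2 ∈ V i := h3
      rwa [sh_zero] at this
    have h4 : z ∈ Rᶜ := by
      apply hs
      refine ⟨hL₁ L₁ le_rfl h1, hs' ⟨hL₂ L₂ le_rfl h2, hVi ⟨h3', hRB z hz⟩⟩⟩
    exact h4 hz
  refine ⟨Encodable.encode q + 1, fun h => ?_⟩
  refine h 0 q ?_ ⟨hself u L₁, hself u' L₂, ?_⟩
  · rw [mem_LL]
    exact ⟨⟨Encodable.encode q, Nat.lt_succ_self _, Encodable.encodek q⟩, hd⟩
  · rw [sh_zero]
    exact hxi

theorem closed_RLs (hC : AK.S_CYL) (V : κ → Set X) (hV : ∀ i, IsOpen (V i))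
    (L : List (Wd k × Wd k × κ)) : IsClosed (RLs V L) := by
  have hj : Continuous fun p : (Om k × Om k) × X => (p.1.1, p.1.2, p.2) :=
    (continuous_fst.comp continuous_fst).prodMk
      ((continuous_snd.comp continuous_fst).prodMk continuous_snd)
  have e : RLs V L = ⋂ n : ℤ, ⋂ q ∈ {q | q ∈ L},
      ((fun p : (Om k × Om k) × X => (p.1.1, p.1.2, p.2)) ⁻¹' BX V q n)ᶜ := by
    ext p
    simp only [mem_iInter, mem_compl_iff]
    exact Iff.rfl
  rw [e]
  refine isClosed_iInter fun n => isClosed_iInter fun q => isClosed_iInter fun _ => ?_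
  exact ((open_BX hC V hV q n).preimage hj).isClosed_compl

end I_RLP

open I_RLP in
theorem RLP_pf (hC : AK.S_CYL) : S_RLP := by
  intro k X κ _ _ _ _ _ V B hV hB
  refine ⟨fun L => ⟨closed_RLs hC V hV.1 L, ?_⟩, ?_⟩
  · obtain ⟨-, hsh, -⟩ := hC k
    intro a p hp n q hq h
    refine hp (n + a) q hq ⟨?_, ?_, ?_⟩
    · exact (hsh q.1 n a p.1.1).1 h.1
    · exact (hsh q.2.1 n a p.1.2).1 h.2.1
    · rw [sh_add]
      exact h.2.2
  · intro R hR hI hRB ν x hx ε hε
    -- the relation of triples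
    have hassoc : Continuous fun p : Om k × Om k × X => ((p.1, p.2.1), p.2.2) :=
      (continuous_fst.prodMk (continuous_fst.comp continuous_snd)).prodMk
        (continuous_snd.comp continuous_snd)
    set R' : Set (Om k × Om k × X) := {p | ((p.1, p.2.1), p.2.2) ∈ R} with hR'
    have hR'c : IsClosed R' := hR.preimage hassoc
    have hR'i : AK.Inv R' := fun n p hp => hI n _ hp
    have hR'B : ∀ p ∈ R', p.2.2 ∈ B := fun p hp => hRB _ hp
    have hj : Continuous fun p : Om k × Om k => (p, x) := continuous_id.prodMk continuous_const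
    have hmeasR : MeasurableSet {p : Om k × Om k | (p, x) ∈ R} := (hR.preimage hj).measurableSet
    set S : ℕ → Set (Om k × Om k) :=
      fun j => {p | (p, x) ∈ RLs V (LL V R' j) ∧ (p, x) ∉ R} with hS
    have hmeas : ∀ j, MeasurableSet (S j) := by
      intro j
      have h4 : MeasurableSet {p : Om k × Om k | (p, x) ∈ RLs V (LL V R' j)} :=
        ((closed_RLs hC V hV.1 (LL V R' j)).preimage hj).measurableSet
      exact h4.inter hmeasR.compl
    have hanti : Antitone S := by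
      intro i j hij p hp
      exact ⟨anti_LL V R' hij p.1 x hp.1, hp.2⟩
    have hemp : ⋂ j, S j = ∅ := by
      rw [Set.eq_empty_iff_forall_notMem]
      intro p hp
      rw [Set.mem_iInter] at hp
      obtain ⟨j, hj⟩ := inter_LL hC V B hV R' hR'c hR'B p.1 p.2 x hx (hp 0).2
      exact hj (hp j).1
    have ht := tendsto_measure_iInter_atTop (μ := (ν : Measure (Om k × Om k))) (s := S)
      (fun j => (hmeas j).nullMeasurableSet) hanti ⟨0, measure_ne_top _ _⟩
    rw [hemp, measure_empty] at ht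
    obtain ⟨j, hj⟩ := ((tendsto_order.1 ht).2 _ hε).exists
    exact ⟨LL V R' j, fun p hp => sub_LL hC V R' hR'i j (p.1.1, p.1.2, p.2) hp, hj⟩

end Pool.Agent.Work.MP_69fea5_lc.W3
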