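import Pool.Agent.Work.MP_69fea5_lc.W3.StmtsE

set_option autoImplicit false

namespace Pool.Agent.Work.MP_69fea5_lc.W3

open MeasureTheory Topology Set Filter ProbabilityTheory
open scoped NNReal ENNReal
open Pool.Agent.Work.MP_69fea5_lc.AK

namespace I_SDB

variable {k : ℕ}

theorem meas_coe : Measurable fun m : PM k => (m : Measure (Om k)) := measurable_subtype_coe

theorem meas_ev {A : Set (Om k)} (hA : MeasurableSet A) :
    Measurable fun m : PM k => (m : Measure (Om k)) A :=
  (Measure.measurable_coe hA).comp meas_coe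

theorem meas_wt (hCYL : S_CYL) (F : List (Wd k)) : Measurable (wt F : PM k → ℝ≥0∞) := by
  induction F with
  | nil =>
    have : (wt [] : PM k → ℝ≥0∞) = fun _ => 1 := by
      funext m
      simp [wt]
    rw [this]
    exact measurable_const
  | cons w F ih =>
    have : (wt (w :: F) : PM k → ℝ≥0∞) =
        fun m : PM k => (m : Measure (Om k)) (cyl w 0) * wt F m := by
      funext m
      simp [wt]
    rw [this]
    exact (meas_ev ((hCYL k).1 w 0).isClosed.measurableSet).mul ih

theorem wt_le (F : List (Wd k)) (m : PM k) : wt F m ≤ 1 := by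
  induction F with
  | nil => simp [wt]
  | cons w F ih =>
    have h1 : wt (w :: F) m = (m : Measure (Om k)) (cyl w 0) * wt F m := by simp [wt]
    rw [h1]
    exact mul_le_one' prob_le_one ih

theorem wt_cons (w : Wd k) (F : List (Wd k)) (m : PM k) :
    wt (w :: F) m = (m : Measure (Om k)) (cyl w 0) * wt F m := by simp [wt]

theorem lz (hCYL : S_CYL) (κ : Measure (PM k)) (F : List (Wd k)) {A : Set (Om k)}
    (hA : MeasurableSet A) : ∫⁻ m, wt F m * (m : Measure (Om k)) A ∂κ = 0 ↔
      ∀ᵐ (m : PM k) ∂κ, wt F m * (m : Measure (Om k)) A = 0 :=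
  lintegral_eq_zero_iff ((meas_wt hCYL F).mul (meas_ev hA))

theorem sd_apply (hCYL : S_CYL) (κ : Measure (PM k)) [IsProbabilityMeasure κ] (F : List (Wd k))
    (A : Set (Om k)) (hA : MeasurableSet A) :
    sd κ F A = ∫⁻ m, wt F m * (m : Measure (Om k)) A ∂κ := by
  unfold sd
  rw [Measure.bind_apply hA meas_coe.aemeasurable,
    lintegral_withDensity_eq_lintegral_mul _ (meas_wt hCYL F) (meas_ev hA)]
  rfl

end I_SDB

open I_SDB in
theorem SDB_pf (hCYL : S_CYL) (hSUP : S_SUP) : S_SDB := by
  intro k κ _ F
  have hcyl : ∀ w : Wd k, MeasurableSet (cyl w 0 : Set (Om k)) :=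
    fun w => ((hCYL k).1 w 0).isClosed.measurableSet
  have hap := fun F A hA => sd_apply hCYL κ F A hA
  have hle : ∀ (w : Wd k) (F : List (Wd k)), sd κ (w :: F) ≤ sd κ F := by
    intro w F
    refine Measure.le_iff.2 fun A hA => ?_
    rw [hap _ _ hA, hap _ _ hA]
    refine lintegral_mono fun m => ?_
    rw [wt_cons]
    gcongr
    calc (m : Measure (Om k)) (cyl w 0) * wt F m ≤ 1 * wt F m := by
          gcongr
          exact prob_le_one
      _ = wt F m := one_mul _
  have hle0 : ∀ F : List (Wd k), sd κ F ≤ sd κ [] := by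
    intro F
    induction F with
    | nil => exact le_rfl
    | cons w F ih => exact (hle w F).trans ih
  have h1 : sd κ [] univ = 1 := by
    rw [hap _ _ MeasurableSet.univ]
    simp [wt]
  have hp : IsProbabilityMeasure (sd κ []) := ⟨h1⟩
  refine ⟨meas_wt hCYL F, wt_le F, fun A hA => hap F A hA, hle0 F, hp, ?_, ?_, ?_, ?_⟩
  · calc sd κ F univ ≤ sd κ [] univ := hle0 F univ
      _ = 1 := h1
      _ ≤ 1 := le_rfl
  · intro w
    refine ⟨?_, hle w F⟩
    rw [hap _ _ MeasurableSet.univ, hap _ _ (hcyl w)]
    refine lintegral_congr fun m => ?_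
    rw [wt_cons, measure_univ, mul_one, mul_comm]
  · intro hpos r hr
    have hc : (cyl [r] 0 : Set (Om k)) = {z | z 0 = r} := by
      ext z
      simp only [cyl, mem_setOf_eq]
      constructor
      · intro h
        simpa using h 0 r (by simp)
      · intro h i a ha
        rcases i with _ | i
        · simp only [List.getElem?_cons_zero,
            Option.some.injEq] at ha
          subst ha
          simpa using h
        · simp at ha
    rw [← hc, hap _ _ (hcyl _)]
    rw [hap _ _ MeasurableSet.univ] at hpos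
    by_contra h0
    push Not at h0
    have h0' := le_antisymm h0 bot_le
    rw [lz hCYL κ F (hcyl _)] at h0'
    have h2 : ∀ᵐ (m : PM k) ∂κ, wt F m = 0 := by
      filter_upwards [h0'] with m hm
      have hm' : wt F m * (m : Measure (Om k)) (cyl [r] 0) = 0 := hm
      rcases mul_eq_zero.1 hm' with h | h
      · exact h
      · have : wt F m = (F.map fun w => (m : Measure (Om k)) (cyl w 0)).prod := rfl
        rw [this]
        apply List.prod_eq_zero
        rw [List.mem_map]
        exact ⟨[r], hr, h⟩
    have h3 : ∫⁻ (m : PM k), wt F m * (m : Measure (Om k)) univ ∂κ = 0 := by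
      rw [lz hCYL κ F MeasurableSet.univ]
      filter_upwards [h2] with m hm
      simp [hm]
    exact absurd h3 hpos.ne'
  · set b : PM k := ⟨sd κ [], hp⟩ with hb
    have hS := hSUP k b
    have hs1 : sd κ [] (supp b) = 1 := by
      have := hS.2.1
      have h2 : ((b (supp b) : ℝ≥0) : ℝ≥0∞) = 1 := by rw [this]; rfl
      rw [ProbabilityMeasure.ennreal_coeFn_eq_coeFn_toMeasure] at h2
      exact h2
    have hs0 : sd κ [] (supp b)ᶜ = 0 := by
      rw [prob_compl_eq_zero_iff hS.1.measurableSet]
      exact hs1
    rw [hap _ _ hS.1.measurableSet.compl, lz hCYL κ [] hS.1.measurableSet.compl] at hs0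
    filter_upwards [hs0] with m hm A hA hA1
    have hm' : (m : Measure (Om k)) (supp b)ᶜ = 0 := by
      have : wt [] m * (m : Measure (Om k)) (supp b)ᶜ = 0 := hm
      simpa [wt] using this
    have hsub : supp b ⊆ A := hS.2.2.2.2.2.2.1 A hA (by
      have : ((b A : ℝ≥0) : ℝ≥0∞) = 1 := by
        rw [ProbabilityMeasure.ennreal_coeFn_eq_coeFn_toMeasure]
        exact hA1
      exact_mod_cast this)
    have : (m : Measure (Om k)) (supp b) = 1 := by
      rwa [prob_compl_eq_zero_iff hS.1.measurableSet] at hm'
    exact le_antisymm prob_le_one (this ▸ measure_mono hsub)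

end Pool.Agent.Work.MP_69fea5_lc.W3
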