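import Pool.Agent.Work.MP_69fea5_lc.W3.StmtsE

set_option autoImplicit false

namespace Pool.Agent.Work.MP_69fea5_lc.W3

open MeasureTheory Topology Set Filter ProbabilityTheory
open scoped NNReal ENNReal
open Pool.Agent.Work.MP_69fea5_lc.AK

namespace I_SDP

variable {k : ℕ}

theorem mcoe : Measurable fun m : PM k => (m : Measure (Om k)) := measurable_subtype_coe

theorem mprod {B : Set (Om k × Om k)} (hB : MeasurableSet B) :
    Measurable fun q : PM k × PM k =>
      ((q.1 : Measure (Om k)).prod (q.2 : Measure (Om k))) B := by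
  have h := ProbabilityMeasure.measurable_fun_prod (α := Om k) (β := Om k)
  exact (Measure.measurable_coe hB).comp h

end I_SDP

open I_SDP in
theorem SDP_pf (hSDB : S_SDB) : S_SDP := by
  intro k κ1 κ2 _ _ F1 F2 B hB
  refine ⟨mprod hB, ?_⟩
  obtain ⟨hm1, -, ha1, hl1, hp1, hu1, -⟩ := hSDB k κ1 F1
  obtain ⟨hm2, -, ha2, hl2, hp2, hu2, -⟩ := hSDB k κ2 F2
  have hf1 : IsFiniteMeasure (sd κ1 F1) := ⟨lt_of_le_of_lt hu1 ENNReal.one_lt_top⟩
  have hf2 : IsFiniteMeasure (sd κ2 F2) := ⟨lt_of_le_of_lt hu2 ENNReal.one_lt_top⟩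
  have hw1 : IsFiniteMeasure (κ1.withDensity (wt F1)) := by
    refine ⟨?_⟩
    have : κ1.withDensity (wt F1) univ = sd κ1 F1 univ := by
      rw [ha1 _ MeasurableSet.univ, withDensity_apply _ MeasurableSet.univ]
      simp
    rw [this]
    exact measure_lt_top _ _
  have hw2 : IsFiniteMeasure (κ2.withDensity (wt F2)) := by
    refine ⟨?_⟩
    have : κ2.withDensity (wt F2) univ = sd κ2 F2 univ := by
      rw [ha2 _ MeasurableSet.univ, withDensity_apply _ MeasurableSet.univ]
      simp
    rw [this]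
    exact measure_lt_top _ _
  -- extend from rectangles
  let R : Measure (Om k × Om k) := ((κ1.prod κ2).withDensity fun q => wt F1 q.1 * wt F2 q.2).bind
    fun q => (q.1 : Measure (Om k)).prod (q.2 : Measure (Om k))
  have hmp : Measurable fun q : PM k × PM k =>
      (q.1 : Measure (Om k)).prod (q.2 : Measure (Om k)) :=
    ProbabilityMeasure.measurable_fun_prod (α := Om k) (β := Om k)
  have hmw : Measurable fun q : PM k × PM k => wt F1 q.1 * wt F2 q.2 :=
    (hm1.comp measurable_fst).mul (hm2.comp measurable_snd)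
  have hR : ∀ A : Set (Om k × Om k), MeasurableSet A → R A = ∫⁻ q, wt F1 q.1 * wt F2 q.2 *
      ((q.1 : Measure (Om k)).prod (q.2 : Measure (Om k))) A ∂(κ1.prod κ2) := by
    intro A hA
    change (Measure.bind _ _) A = _
    rw [Measure.bind_apply hA hmp.aemeasurable,
      lintegral_withDensity_eq_lintegral_mul _ hmw (mprod hA)]
    rfl
  rw [← hR B hB]
  congr 1
  symm
  refine (Measure.prod_eq fun s t hs ht => ?_).symm
  rw [hR _ (hs.prod ht), ha1 s hs, ha2 t ht]
  rw [← lintegral_prod_mul]
  · refine lintegral_congr fun q => ?_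
    rw [Measure.prod_prod]
    ring
  · exact (hm1.mul ((Measure.measurable_coe hs).comp mcoe)).aemeasurable
  · exact (hm2.mul ((Measure.measurable_coe ht).comp mcoe)).aemeasurable

end Pool.Agent.Work.MP_69fea5_lc.W3
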