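import Pool.Agent.Work.MP_69fea5_lc.W3.StmtsT
import Pool.Agent.Work.MP_69fea5_lc.AK.I_CYL
import Pool.Agent.Work.MP_69fea5_lc.AK.I_PMB

set_option autoImplicit false

namespace Pool.Agent.Work.MP_69fea5_lc.W3

open MeasureTheory Topology Set Filter TopologicalSpace
open scoped NNReal ENNReal
open Pool.Agent.Work.MP_69fea5_lc.AK

namespace I_SEO

variable {k : ℕ}

theorem wd_surj (w : Wd k) : ∃ i, wd k i = w := by
  refine ⟨Encodable.encode w, ?_⟩
  unfold wd
  rw [Encodable.encodek]
  rfl

theorem clopen (w : Wd k) : IsClopen (cyl w 0 : Set (Om k)) := (CYL_pf k).1 w 0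

theorem int_eq (m : PM k) (i : ℕ) :
    ∫ z, fcyl k i z ∂(m : Measure (Om k)) = (m (cyl (wd k i) 0) : ℝ) := by
  have h : (∫ z, (cyl (wd k i) 0).indicator (1 : Om k → ℝ) z ∂(m : Measure (Om k))) =
      (m : Measure (Om k)).real (cyl (wd k i) 0) :=
    integral_indicator_one (clopen (wd k i)).isOpen.measurableSet
  exact h

theorem sep : Sep (fcyl k) where
  cont i := by
    have h : Continuous ((cyl (wd k i) 0).indicator (fun _ : Om k => (1 : ℝ))) :=
      (clopen (wd k i)).continuous_indicator continuous_const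
    exact h
  bd i z := by
    unfold fcyl
    by_cases h : z ∈ cyl (wd k i) 0
    · rw [indicator_of_mem h]
      simp
    · rw [indicator_of_notMem h]
      simp
  sep m m' h := by
    refine (PMB_pf CYL_pf k).2.2.2.1 m m' fun w => ?_
    obtain ⟨i, rfl⟩ := wd_surj w
    have h1 := h i
    rw [int_eq, int_eq] at h1
    exact_mod_cast h1

theorem en_eq (m : PM k) : En (fcyl k) m = FF m := by
  unfold En FF
  refine tsum_congr fun i => ?_
  rw [int_eq]

theorem ge_eq (m : PM k) : GE (fcyl k) m = GG m := by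
  unfold GE GG
  refine iSup_congr fun n => ?_
  rw [en_eq]

end I_SEO

open I_SEO in
theorem SEO_pf : S_SEO := by
  intro k
  refine ⟨sep, en_eq, ge_eq, ?_⟩
  intro X _ _ _ _ F
  ext p
  unfold AAE AAF
  simp only [mem_ofPred_eq, ge_eq]

end Pool.Agent.Work.MP_69fea5_lc.W3
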