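import Pool.Agent.Work.MP_69fea5_lc.W3.StmtsT

/-!
# Item [69fea5 T SEX]: test functions exist
-/

set_option autoImplicit false
set_option linter.style.haveILetI false

namespace Pool.Agent.Work.MP_69fea5_lc.W3

open MeasureTheory Topology Set Filter TopologicalSpace
open scoped NNReal ENNReal BoundedContinuousFunction
open Pool.Agent.Work.MP_69fea5_lc.AK

theorem SEX_pf : S_SEX := by
  intro O _ _ _
  obtain ⟨f, hf⟩ := exists_dense_seq C(O, ℝ)
  refine ⟨fun i z => (1 / (1 + ‖f i‖)) * f i z, ?_, ?_, ?_⟩
  · intro i
    exact continuous_const.mul (f i).continuous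
  · intro i z
    have h1 : ‖f i z‖ ≤ ‖f i‖ := (f i).norm_coe_le_norm z
    have h0 : 0 ≤ ‖f i‖ := norm_nonneg _
    rw [Real.norm_eq_abs] at h1
    rw [abs_mul, abs_of_nonneg (by positivity : (0 : ℝ) ≤ 1 / (1 + ‖f i‖)), one_div,
      inv_mul_le_iff₀ (by linarith)]
    linarith
  · intro m m' h
    have h' : ∀ i, ∫ z, f i z ∂(m : Measure O) = ∫ z, f i z ∂(m' : Measure O) := by
      intro i
      have h1 := h i
      have h0 : (0 : ℝ) < 1 / (1 + ‖f i‖) := by positivity
      rw [integral_const_mul, integral_const_mul] at h1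
      exact mul_left_cancel₀ h0.ne' h1
    have hcont : ∀ m : ProbabilityMeasure O,
        Continuous fun g : C(O, ℝ) => ∫ x, g x ∂(m : Measure O) := by
      intro m
      rw [Metric.continuous_iff]
      intro g ε hε
      refine ⟨ε / 2, half_pos hε, fun g' hg' => ?_⟩
      have hi : ∀ g : C(O, ℝ), Integrable (fun x => g x) (m : Measure O) := fun g =>
        (BoundedContinuousFunction.mkOfCompact g).integrable _
      rw [Real.dist_eq, ← integral_sub (hi g') (hi g)]
      have : ∀ x, ‖g' x - g x‖ ≤ ε / 2 := fun x => by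
        have := ContinuousMap.dist_apply_le_dist (f := g') (g := g) x
        rw [Real.dist_eq] at this
        rw [Real.norm_eq_abs]
        linarith
      have h9 : ‖∫ x, (g' x - g x) ∂(m : Measure O)‖ ≤ ε / 2 * ((m : Measure O)).real univ :=
        norm_integral_le_of_norm_le_const (ae_of_all _ this)
      rw [Real.norm_eq_abs] at h9
      have h10 : ((m : Measure O)).real univ = 1 := by simp
      rw [h10] at h9
      linarith
    have h1 : ∀ g : C(O, ℝ), ∫ x, g x ∂(m : Measure O) = ∫ x, g x ∂(m' : Measure O) := by
      intro g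
      exact congrFun (DenseRange.equalizer hf (hcont m) (hcont m') (funext h')) g
    apply Subtype.ext
    haveI : IsFiniteMeasure m.val := by have := m.2; infer_instance
    haveI : IsFiniteMeasure m'.val := by have := m'.2; infer_instance
    apply ext_of_forall_integral_eq_of_IsFiniteMeasure
    intro g
    exact h1 g.toContinuousMap

end Pool.Agent.Work.MP_69fea5_lc.W3
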