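import Pool.Agent.Work.MP_69fea5_lc.W3.StmtsE

set_option autoImplicit false

namespace Pool.Agent.Work.MP_69fea5_lc.W3

open MeasureTheory Topology Set Filter ProbabilityTheory
open scoped NNReal ENNReal
open Pool.Agent.Work.MP_69fea5_lc.AK
open Pool.Agent.Work.MP_69fea5_lc.N3 (W2 bx)

theorem SHD_pf (hCYL : S_CYL) (hSDP : S_SDP) : S_SHD := by
  intro k κ1 κ2 _ _ F1 F2 P B hB hdec
  have hc : ∀ w : Wd k, MeasurableSet (cyl w 0 : Set (Om k)) :=
    fun w => ((hCYL k).1 w 0).isClosed.measurableSet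
  have hbx : MeasurableSet (bx P 0 : Set (Om k × Om k)) := (hc _).prod (hc _)
  rw [(hSDP k κ1 κ2 F1 F2 _ (hbx.inter hB)).2, (hSDP k κ1 κ2 _ _ _ hB).2]
  refine lintegral_congr_ae ?_
  filter_upwards [hdec] with q hq
  have hw : ∀ (w : Wd k) (F : List (Wd k)) (m : PM k),
      wt (w :: F) m = (m : Measure (Om k)) (cyl w 0) * wt F m := fun w F m => by simp [wt]
  rw [hw, hw]
  rcases hq with h | h
  · rw [h, mul_zero]
    have : ((q.1 : Measure (Om k)).prod (q.2 : Measure (Om k))) (bx P 0 ∩ B) = 0 :=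
      measure_mono_null inter_subset_right h
    rw [this, mul_zero]
  · have h1 : ((q.1 : Measure (Om k)).prod (q.2 : Measure (Om k))) (bx P 0 ∩ B) =
        (q.1 : Measure (Om k)) (cyl P.1 0) * (q.2 : Measure (Om k)) (cyl P.2 0) := by
      have h2 : ((q.1 : Measure (Om k)).prod (q.2 : Measure (Om k))) Bᶜ = 0 := by
        rw [prob_compl_eq_zero_iff hB]
        exact h
      have h3 : ((q.1 : Measure (Om k)).prod (q.2 : Measure (Om k))) (bx P 0) =
          (q.1 : Measure (Om k)) (cyl P.1 0) * (q.2 : Measure (Om k)) (cyl P.2 0) := by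
        unfold bx
        rw [Measure.prod_prod]
      rw [← h3]
      refine le_antisymm (measure_mono inter_subset_left) ?_
      calc ((q.1 : Measure (Om k)).prod (q.2 : Measure (Om k))) (bx P 0)
          ≤ ((q.1 : Measure (Om k)).prod (q.2 : Measure (Om k))) ((bx P 0 ∩ B) ∪ Bᶜ) := by
            refine measure_mono fun g hg => ?_
            by_cases hgB : g ∈ B
            · exact Or.inl ⟨hg, hgB⟩
            · exact Or.inr hgB
        _ ≤ _ := measure_union_le _ _
        _ = _ := by rw [h2, add_zero]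
    rw [h1, h]
    ring

end Pool.Agent.Work.MP_69fea5_lc.W3
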