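import Pool.Agent.Work.MP_69fea5_lc.W3.StmtsT

set_option autoImplicit false

namespace Pool.Agent.Work.MP_69fea5_lc.W3

open MeasureTheory Topology Set Filter TopologicalSpace
open scoped NNReal ENNReal
open Pool.Agent.Work.MP_69fea5_lc.AK

namespace I_SPC

theorem one_iff {O : Type} [MeasurableSpace O] (m : ProbabilityMeasure O) (S : Set O) :
    m S = 1 ↔ (m : Measure O) S = 1 := by
  rw [← ProbabilityMeasure.ennreal_coeFn_eq_coeFn_toMeasure]
  exact (ENNReal.coe_eq_one).symm

end I_SPC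

open I_SPC in
theorem SPC_pf (h1 : S_ULT) (h2 : S_PMG) : S_SPC := by
  intro X'' X' _ _ _ _ _ _ _ _ Y E E' p q hp hpe hE hEi hpE hS1 hS2 x ν hν
  obtain ⟨_, _, _, _, _, hcar, _, hmap⟩ := h2 X''
  let P : ProbabilityMeasure X'' → ProbabilityMeasure X' :=
    fun m => m.map (f := p) hp.measurable.aemeasurable
  have hP : Continuous P := ProbabilityMeasure.continuous_map hp
  have hPe : ∀ (n : ℤ) m, P (sh n m) = sh n (P m) := fun n m => hmap X' p hp hpe n m
  have horb := (h1 (ProbabilityMeasure X'')).2.2 (ProbabilityMeasure X') P inferInstance hP hPe ν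
  have hν' : (ν : Measure X'') {e | e ∈ E ∧ q (p e) = x} = 1 := (one_iff _ _).1 hν
  have hμ : P ν {e | e ∈ E' ∧ q e = x} = 1 := by
    rw [one_iff]
    apply le_antisymm prob_le_one
    rw [← hν']
    change _ ≤ Measure.map p (ν : Measure X'') _
    refine le_trans (measure_mono ?_) (Measure.le_map_apply hp.measurable.aemeasurable _)
    rintro e ⟨heE, hex⟩
    exact ⟨hpE ⟨e, heE, rfl⟩, hex⟩
  obtain ⟨e', he'⟩ := hS2 x (P ν) hμ
  rw [← horb] at he'
  obtain ⟨ν1, hν1, hPν1⟩ := he'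
  have hνE : ν E = 1 := by
    rw [one_iff]
    apply le_antisymm prob_le_one
    rw [← hν']
    exact measure_mono fun e he => he.1
  have hν1E : ν1 E = 1 := hcar E hE hEi ν hνE ν1 hν1
  have hfib : (ν1 : Measure X'') (p ⁻¹' {e'}) = 1 := by
    have h3 : Measure.map p (ν1 : Measure X'') = Measure.dirac e' := congrArg Subtype.val hPν1
    have h4 : Measure.map p (ν1 : Measure X'') {e'} = (ν1 : Measure X'') (p ⁻¹' {e'}) :=
      Measure.map_apply hp.measurable (measurableSet_singleton e')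
    rw [← h4, h3]
    simp
  have hν1' : ν1 {e | e ∈ E ∧ p e = e'} = 1 := by
    rw [one_iff] at hν1E ⊢
    have h5 : (ν1 : Measure X'') Eᶜ = 0 := (prob_compl_eq_zero_iff hE.measurableSet).2 hν1E
    have h6 : (ν1 : Measure X'') (p ⁻¹' {e'})ᶜ = 0 :=
      (prob_compl_eq_zero_iff (hp.measurable (measurableSet_singleton e'))).2 hfib
    have h7 : {e | e ∈ E ∧ p e = e'} = E ∩ p ⁻¹' {e'} := rfl
    rw [h7, ← prob_compl_eq_zero_iff
      (hE.measurableSet.inter (hp.measurable (measurableSet_singleton e'))), Set.compl_inter]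
    exact measure_union_null h5 h6
  obtain ⟨e'', he''⟩ := hS1 e' ν1 hν1'
  exact ⟨e'', (h1 (ProbabilityMeasure X'')).2.1 ν ν1 hν1 he''⟩

end Pool.Agent.Work.MP_69fea5_lc.W3
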