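import Pool.Agent.Work.MP_69fea5_lc.W3.StmtsT

set_option autoImplicit false

namespace Pool.Agent.Work.MP_69fea5_lc.W3

open MeasureTheory Topology Set Filter TopologicalSpace
open scoped NNReal ENNReal
open Pool.Agent.Work.MP_69fea5_lc.AK

/-- [SPE] the set of minimal energy is strongly proximal over the base -/
theorem SPE_pf (hPMG : S_PMG) (hPRD : S_PRD) (hBRX : S_BRX) (hBRC : S_BRC) (hFAM : S_FAM)
    (hENV : S_ENV) : S_SPE := by
  intro O X _ _ _ _ _ _ _ _ f F E hSep hFcl hFinv hMin hEsub hEcl hEinv x ν hν
  obtain ⟨hEnc, hEnb, Vr, hVc, hVnn, hVbar, hVz⟩ := hENV O f hSep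
  obtain ⟨_, _, _, _, hFbar⟩ := hFAM O X F hFcl hFinv
  -- the carrier
  have hScl : IsClosed {e : X × ProbabilityMeasure O | e ∈ E ∧ e.1 = x} :=
    hEcl.inter (isClosed_singleton.preimage continuous_fst)
  have hνS : (ν : Measure (X × ProbabilityMeasure O))
      {e : X × ProbabilityMeasure O | e ∈ E ∧ e.1 = x} = 1 := by
    rw [← ProbabilityMeasure.ennreal_coeFn_eq_coeFn_toMeasure, hν]
    rfl
  have hae : ∀ᵐ e ∂(ν : Measure (X × ProbabilityMeasure O)), e ∈ E ∧ e.1 = x := by
    have h := (prob_compl_eq_zero_iff (μ := (ν : Measure (X × ProbabilityMeasure O)))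
      hScl.measurableSet).mpr hνS
    exact h
  -- the second marginal
  have hsndm : Measurable (Prod.snd : X × ProbabilityMeasure O → ProbabilityMeasure O) :=
    measurable_snd
  set ν₂ : ProbabilityMeasure (ProbabilityMeasure O) :=
    ν.map (f := (Prod.snd : X × ProbabilityMeasure O → ProbabilityMeasure O))
      continuous_snd.measurable.aemeasurable with hν₂
  have hE2cl : IsClosed {m : ProbabilityMeasure O | (x, m) ∈ E} :=
    hEcl.preimage (Continuous.prodMk_right x)
  have hae2 : ∀ᵐ m ∂(ν₂ : Measure (ProbabilityMeasure O)), (x, m) ∈ E := by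
    have h1 : (ν₂ : Measure (ProbabilityMeasure O)) =
      Measure.map (Prod.snd : X × ProbabilityMeasure O → ProbabilityMeasure O)
        (ν : Measure (X × ProbabilityMeasure O)) := rfl
    rw [h1]
    refine (ae_map_iff continuous_snd.measurable.aemeasurable hE2cl.measurableSet).mpr ?_
    filter_upwards [hae] with e he
    obtain ⟨he1, he2⟩ := he
    have : (x, e.2) = e := by rw [← he2]
    change (x, e.2) ∈ E
    rw [this]
    exact he1
  obtain ⟨⟨m, hm⟩, _, _, _⟩ := hBRX (ProbabilityMeasure O) O ν₂ id measurable_id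
  -- the barycentre belongs to the family
  have hFam2 : ν₂ {m' : ProbabilityMeasure O | (x, m') ∈ Fam F} = 1 := by
    have h1 : ∀ᵐ m' ∂(ν₂ : Measure (ProbabilityMeasure O)), (x, m') ∈ Fam F := by
      filter_upwards [hae2] with m' hm'
      exact (hEsub hm').1
    have h2 : (ν₂ : Measure (ProbabilityMeasure O)) {m' | (x, m') ∈ Fam F} = 1 := by
      rw [← measure_univ (μ := (ν₂ : Measure (ProbabilityMeasure O)))]
      refine measure_congr ?_
      rw [eventuallyEq_set]
      filter_upwards [h1] with m' hm'
      simp only [mem_univ, iff_true]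
      exact hm'
    have h3 : ((ν₂ {m' : ProbabilityMeasure O | (x, m') ∈ Fam F} : ℝ≥0) : ℝ≥0∞) = 1 := by
      rw [ProbabilityMeasure.ennreal_coeFn_eq_coeFn_toMeasure, h2]
    exact_mod_cast h3
  have hmF : (x, m) ∈ Fam F := hFbar x ν₂ m hFam2 hm
  -- a point of `E` over `x`
  obtain ⟨m₀, hm₀⟩ : ∃ m₀, (x, m₀) ∈ E := hae2.exists
  have hbdd : ∀ m' : ProbabilityMeasure O, BddAbove (range fun n : ℤ => En f (sh n m')) := by
    intro m'
    refine ⟨2, ?_⟩
    rintro _ ⟨n, rfl⟩
    exact (hEnb _).2
  have hle : ∀ (m' : ProbabilityMeasure O) (n : ℤ), En f (sh n m') ≤ GE f m' := fun m' n =>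
    le_ciSup (hbdd m') n
  have hGE : GE f m₀ ≤ GE f m := (hEsub hm₀).2 _ hmF
  have hkey : ∀ n : ℤ, En f (sh n m) + Vr (sh n ν₂) ≤ GE f m := by
    intro n
    have hb : Bar (sh n ν₂) id (sh n m) :=
      (hBRC (ProbabilityMeasure O) O id continuous_id).2.1 (fun _ _ => rfl) ν₂ m hm n
    rw [← hVbar _ _ hb]
    refine le_trans ?_ hGE
    have h1 : ((sh n ν₂ : ProbabilityMeasure (ProbabilityMeasure O)) :
        Measure (ProbabilityMeasure O)) =
        Measure.map (sh n : ProbabilityMeasure O → ProbabilityMeasure O)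
          (ν₂ : Measure (ProbabilityMeasure O)) := rfl
    rw [h1, integral_map (sh_cont n).measurable.aemeasurable hEnc.aestronglyMeasurable]
    have hint : Integrable (fun m' : ProbabilityMeasure O => En f (sh n m'))
        (ν₂ : Measure (ProbabilityMeasure O)) := by
      refine Integrable.of_bound (hEnc.comp (sh_cont n)).aestronglyMeasurable 2 ?_
      refine Eventually.of_forall fun m' => ?_
      rw [Real.norm_eq_abs, abs_of_nonneg (hEnb _).1]
      exact (hEnb _).2
    calc ∫ m', En f (sh n m') ∂(ν₂ : Measure (ProbabilityMeasure O))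
        ≤ ∫ _m', GE f m₀ ∂(ν₂ : Measure (ProbabilityMeasure O)) := by
          refine integral_mono_ae hint (integrable_const _) ?_
          filter_upwards [hae2] with m' hm'
          exact (hle m' n).trans ((hEsub hm').2 _ (hEsub hm₀).1)
      _ = GE f m₀ := by simp
  -- times
  have htimes : ∀ j : ℕ, ∃ n : ℤ, GE f m - 1 / ((j : ℝ) + 1) < En f (sh n m) := by
    intro j
    refine exists_lt_of_lt_ciSup (f := fun n : ℤ => En f (sh n m)) ?_
    have : (0 : ℝ) < 1 / ((j : ℝ) + 1) := by positivity
    change GE f m - 1 / ((j : ℝ) + 1) < GE f m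
    linarith
  choose t ht using htimes
  have hVt : Tendsto (fun j : ℕ => Vr (sh (t j) ν₂)) atTop (𝓝 0) := by
    refine squeeze_zero (fun j => hVnn _) (fun j => ?_) tendsto_one_div_add_atTop_nhds_zero_nat
    have h1 := hkey (t j)
    have h2 := ht j
    linarith
  -- a limit
  let G : Ultrafilter ℕ := hyperfilter ℕ
  have hG : (G : Filter ℕ) ≤ atTop := Nat.hyperfilter_le_atTop
  obtain ⟨ν', hν'⟩ : ∃ ν' : ProbabilityMeasure (X × ProbabilityMeasure O),
      Tendsto (fun j => sh (t j) ν) (G : Filter ℕ) (𝓝 ν') := by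
    have h1 := isCompact_univ (X := ProbabilityMeasure (X × ProbabilityMeasure O))
    obtain ⟨ν', _, hν'⟩ := h1.ultrafilter_le_nhds (G.map fun j => sh (t j) ν) (by simp)
    exact ⟨ν', hν'⟩
  have hν'orb : ν' ∈ orb ν := by
    refine mem_closure_of_tendsto hν' (Eventually.of_forall fun j => ?_)
    exact ⟨t j, rfl⟩
  -- the second marginal of the limit
  obtain ⟨_, hshd, _, _, _, _, _, _⟩ := hPMG X
  obtain ⟨_, _, _, _, _, _, _, hmapsh⟩ := hPMG (X × ProbabilityMeasure O)
  have hs1 : Tendsto (fun j => (sh (t j) ν).map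
      (f := (Prod.snd : X × ProbabilityMeasure O → ProbabilityMeasure O))
      continuous_snd.measurable.aemeasurable) (G : Filter ℕ)
      (𝓝 (ν'.map (f := (Prod.snd : X × ProbabilityMeasure O → ProbabilityMeasure O))
        continuous_snd.measurable.aemeasurable)) :=
    ((ProbabilityMeasure.continuous_map continuous_snd).tendsto ν').comp hν'
  have hs2 : ∀ j, (sh (t j) ν).map
      (f := (Prod.snd : X × ProbabilityMeasure O → ProbabilityMeasure O))
      continuous_snd.measurable.aemeasurable = sh (t j) ν₂ := fun j =>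
    hmapsh (ProbabilityMeasure O) Prod.snd continuous_snd (fun _ _ => rfl) (t j) ν
  have hVlim : Vr (ν'.map (f := (Prod.snd : X × ProbabilityMeasure O → ProbabilityMeasure O))
      continuous_snd.measurable.aemeasurable) = 0 := by
    have h1 := (hVc.tendsto _).comp hs1
    have h2 : Tendsto (fun j : ℕ => Vr (sh (t j) ν₂)) (G : Filter ℕ)
      (𝓝 (Vr (ν'.map (f := (Prod.snd : X × ProbabilityMeasure O → ProbabilityMeasure O))
        continuous_snd.measurable.aemeasurable))) := by
      refine h1.congr fun j => ?_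
      simp only [Function.comp]
      rw [hs2 j]
    exact tendsto_nhds_unique h2 (hVt.mono_left hG)
  obtain ⟨m', hm'⟩ := hVz _ hVlim
  -- the first marginal of the limit
  have hν1 : ν.map (f := (Prod.fst : X × ProbabilityMeasure O → X))
      continuous_fst.measurable.aemeasurable = diracProba x := by
    apply Subtype.ext
    change Measure.map Prod.fst (ν : Measure (X × ProbabilityMeasure O)) = Measure.dirac x
    have h1 : (Prod.fst : X × ProbabilityMeasure O → X)
        =ᵐ[(ν : Measure (X × ProbabilityMeasure O))] fun _ => x := by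
      filter_upwards [hae] with e he
      exact he.2
    rw [Measure.map_congr h1, Measure.map_const]
    simp
  have hf1 : Tendsto (fun j => (sh (t j) ν).map
      (f := (Prod.fst : X × ProbabilityMeasure O → X))
      continuous_fst.measurable.aemeasurable) (G : Filter ℕ)
      (𝓝 (ν'.map (f := (Prod.fst : X × ProbabilityMeasure O → X))
        continuous_fst.measurable.aemeasurable)) :=
    ((ProbabilityMeasure.continuous_map continuous_fst).tendsto ν').comp hν'
  have hf2 : ∀ j, (sh (t j) ν).map (f := (Prod.fst : X × ProbabilityMeasure O → X))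
      continuous_fst.measurable.aemeasurable = diracProba (sh (t j) x) := by
    intro j
    rw [hmapsh X Prod.fst continuous_fst (fun _ _ => rfl) (t j) ν, hν1, hshd]
  obtain ⟨x', hx'⟩ : ν'.map (f := (Prod.fst : X × ProbabilityMeasure O → X))
      continuous_fst.measurable.aemeasurable ∈
        Set.range (diracProba : X → ProbabilityMeasure X) := by
    refine (hPMG X).2.2.1.mem_of_tendsto hf1 (Eventually.of_forall fun j => ?_)
    exact ⟨_, (hf2 j).symm⟩
  refine ⟨(x', m'), ?_⟩
  have hfin : diracProba (x', m') = ν' := by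
    apply Subtype.ext
    have h1 : (ν' : Measure (X × ProbabilityMeasure O)).map Prod.snd = Measure.dirac m' := by
      have := congrArg (fun q : ProbabilityMeasure (ProbabilityMeasure O) =>
        (q : Measure (ProbabilityMeasure O))) hm'
      exact this
    have h2 : (ν' : Measure (X × ProbabilityMeasure O)).map Prod.fst = Measure.dirac x' := by
      have := congrArg (fun q : ProbabilityMeasure X => (q : Measure X)) hx'
      exact this.symm
    have h3 := hPRD X (ProbabilityMeasure O) ν' m' h1
    change Measure.dirac (x', m') = (ν' : Measure (X × ProbabilityMeasure O))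
    rw [h3, h2]
    have hme : Measurable fun u : X => (u, m') := by fun_prop
    exact (Measure.map_dirac' hme x').symm
  rw [hfin]
  exact hν'orb

end Pool.Agent.Work.MP_69fea5_lc.W3
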