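import Pool.Agent.Work.MP_69fea5_lc.W3.StmtsT
import Pool.Agent.Work.MP_69fea5_lc.AK.Stmts

/-!
# W3 item SPG: every family has a minimal strongly proximal section
-/

set_option autoImplicit false

namespace Pool.Agent.Work.MP_69fea5_lc.W3

open MeasureTheory Topology Set Filter TopologicalSpace
open scoped NNReal ENNReal
open Pool.Agent.Work.MP_69fea5_lc.AK

theorem SPG_pf (hSEX : S_SEX) (hAAN : S_AAN) (hSPE : S_SPE) (hZ : AK.S_ZORN) : S_SPG := by
  intro O X _ _ _ _ _ _ _ _ F hF hFi hB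
  obtain ⟨f, hf⟩ := hSEX O
  obtain ⟨hc, hi, hp⟩ := hAAN O X f F hf hF hFi hB
  have hne : (AAE f F).Nonempty := by
    have h1 : (Prod.fst '' AAE f F).Nonempty := by rw [hp]; exact hB.ne
    exact Set.image_nonempty.mp h1
  obtain ⟨L, hL, hmin⟩ := hZ (X × ProbabilityMeasure O) (AAE f F) hc hne hi
  refine ⟨L, fun p hp' => (hL hp').1, ?_, ?_⟩
  · refine hB.min _ ?_ (hmin.ne.image _) ?_ ?_
    · exact (hmin.closed.isCompact.image continuous_fst).isClosed
    · rintro n x ⟨p, hp', rfl⟩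
      exact ⟨sh n p, hmin.inv n p hp', rfl⟩
    · rw [← hp]
      exact Set.image_mono hL
  · exact ⟨hmin, continuous_fst, fun n e => rfl,
      hSPE O X f F L hf hF hFi hB hL hmin.closed hmin.inv⟩

end Pool.Agent.Work.MP_69fea5_lc.W3
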