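import Pool.Agent.Work.MP_69fea5_lc.W3.StmtsT

/-!
# [69fea5 T SPN] countable products of strongly proximal extensions
-/

set_option autoImplicit false

namespace Pool.Agent.Work.MP_69fea5_lc.W3

open MeasureTheory Topology Set Filter TopologicalSpace
open scoped NNReal ENNReal
open Pool.Agent.Work.MP_69fea5_lc.AK

namespace I_SPN

/-- a larger set has measure one -/
theorem one_mono {O : Type} [MeasurableSpace O] (m : ProbabilityMeasure O) {A B : Set O}
    (h : m A = 1) (hAB : A ⊆ B) : m B = 1 :=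
  le_antisymm (m.apply_le_one B) (h ▸ m.apply_mono hAB)

theorem one_ae {O : Type} [MeasurableSpace O] (m : ProbabilityMeasure O) {A : Set O}
    (hA : MeasurableSet A) : m A = 1 ↔ ∀ᵐ z ∂(m : Measure O), z ∈ A := by
  rw [ae_iff]
  have h1 : {a | a ∉ A} = Aᶜ := rfl
  rw [h1, prob_compl_eq_zero_iff hA]
  constructor
  · intro h
    rw [← ProbabilityMeasure.ennreal_coeFn_eq_coeFn_toMeasure, h]
    simp
  · intro h
    rw [← ProbabilityMeasure.ennreal_coeFn_eq_coeFn_toMeasure] at h
    exact_mod_cast h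

theorem map_one {O Y : Type} [MeasurableSpace O] [MeasurableSpace Y] (m : ProbabilityMeasure O)
    {q : O → Y} (hq : Measurable q) {B : Set Y} (hB : MeasurableSet B) :
    (m.map (f := q) hq.aemeasurable) B = m (q ⁻¹' B) := by
  rw [ProbabilityMeasure.map_apply _ _ hB]

/-- the image is a point mass -/
theorem map_dirac {O Y : Type} [MeasurableSpace O] [MeasurableSpace Y]
    [MeasurableSingletonClass Y] (m : ProbabilityMeasure O)
    {q : O → Y} (hq : Measurable q) (y : Y) (h : m (q ⁻¹' {y}) = 1) :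
    m.map (f := q) hq.aemeasurable = diracProba y := by
  apply Subtype.ext
  change (m : Measure O).map q = Measure.dirac y
  have h1 : ∀ᵐ z ∂(m : Measure O), q z = y := by
    have := (one_ae m (hq (measurableSet_singleton y))).mp h
    simpa using this
  have h2 : (m : Measure O).map q = (m : Measure O).map (fun _ => y) :=
    Measure.map_congr h1
  rw [h2, Measure.map_const]
  simp

theorem dirac_map {O Y : Type} [MeasurableSpace O] [MeasurableSpace Y]
    [MeasurableSingletonClass Y] (m : ProbabilityMeasure O)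
    {q : O → Y} (hq : Measurable q) (y : Y)
    (h : m.map (f := q) hq.aemeasurable = diracProba y) : m (q ⁻¹' {y}) = 1 := by
  rw [← map_one m hq (measurableSet_singleton y), h]
  have := diracProba_toMeasure_apply_of_mem (X := Y) (x := y) (A := {y}) rfl
  rw [← ProbabilityMeasure.ennreal_coeFn_eq_coeFn_toMeasure] at this
  exact_mod_cast this

end I_SPN

open I_SPN in
theorem SPN_pf (hULT : S_ULT) (hPMG : S_PMG) : S_SPN := by
  intro X' X _ _ _ _ _ _ _ _ Y E p Ξ b hp hpe hE hEi hspr hΞ hΞi hΞE hb y ν hν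
  have : T2Space X := inferInstance
  -- the marginals
  have hev : ∀ a : ℕ, Continuous fun ξ : ℕ → X' => ξ a := fun a => continuous_apply a
  have hpev : ∀ a : ℕ, Continuous fun ξ : ℕ → X' => p (ξ a) := fun a => hp.comp (hev a)
  let mg : ℕ → ProbabilityMeasure (ℕ → X') → ProbabilityMeasure X' := fun a m =>
    m.map (f := fun ξ : ℕ → X' => ξ a) (hev a).measurable.aemeasurable
  let pg : ℕ → ProbabilityMeasure (ℕ → X') → ProbabilityMeasure X := fun a m =>
    m.map (f := fun ξ : ℕ → X' => p (ξ a)) (hpev a).measurable.aemeasurable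
  have hmgc : ∀ a, Continuous (mg a) := fun a => ProbabilityMeasure.continuous_map (hev a)
  have hpgc : ∀ a, Continuous (pg a) := fun a => ProbabilityMeasure.continuous_map (hpev a)
  obtain ⟨-, -, -, -, -, hcar, -, hmapO⟩ := hPMG (ℕ → X')
  obtain ⟨-, hdirX', hclX', -, -, -, -, -⟩ := hPMG X'
  obtain ⟨-, hdirX, hclX, -, -, -, -, -⟩ := hPMG X
  have hmge : ∀ a (n : ℤ) (m : ProbabilityMeasure (ℕ → X')),
      mg a (sh n m) = sh n (mg a m) := fun a n m =>
    hmapO X' (fun ξ : ℕ → X' => ξ a) (hev a) (fun _ _ => rfl) n m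
  have hpge : ∀ a (n : ℤ) (m : ProbabilityMeasure (ℕ → X')),
      pg a (sh n m) = sh n (pg a m) := fun a n m =>
    hmapO X (fun ξ : ℕ → X' => p (ξ a)) (hpev a) (fun n ξ => hpe n (ξ a)) n m
  obtain ⟨-, horb, horbim⟩ := hULT (ProbabilityMeasure (ℕ → X'))
  -- `ν` is carried by `Ξ` and has point masses as images in `X`
  have hνΞ : ν Ξ = 1 := one_mono ν hν fun ξ hξ => hξ.1
  obtain ⟨ξ₀, hξ₀, hbξ₀⟩ : ∃ ξ₀ ∈ Ξ, b ξ₀ = y := by
    by_contra hcon
    push Not at hcon
    have : {ξ | ξ ∈ Ξ ∧ b ξ = y} = ∅ := by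
      ext ξ
      simp only [mem_ofPred_eq, mem_empty_iff_false, iff_false, not_and]
      exact hcon ξ
    rw [this] at hν
    simp at hν
  have hpgν : ∀ a, pg a ν = diracProba (p (ξ₀ a)) := by
    intro a
    refine map_dirac ν (hpev a).measurable _ (one_mono ν hν ?_)
    rintro ξ ⟨h1, h2⟩
    exact hb ξ h1 ξ₀ hξ₀ (h2.trans hbξ₀.symm) a
  -- the invariant closed set of the point masses
  have hrangeX : AK.Inv (range (diracProba : X → ProbabilityMeasure X)) := by
    rintro n _ ⟨x, rfl⟩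
    exact ⟨sh n x, (hdirX n x).symm⟩
  have hrangeX' : AK.Inv (range (diracProba : X' → ProbabilityMeasure X')) := by
    rintro n _ ⟨x, rfl⟩
    exact ⟨sh n x, (hdirX' n x).symm⟩
  have horbcl : ∀ {Z : Type} [TopologicalSpace Z] [Sys Z] (C : Set Z), IsClosed C →
      AK.Inv C → ∀ z ∈ C, orb z ⊆ C := by
    intro Z _ _ C hC hCi z hz
    refine closure_minimal ?_ hC
    rintro _ ⟨n, rfl⟩
    exact hCi n z hz
  have hself : ∀ m : ProbabilityMeasure (ℕ → X'), m ∈ orb m := fun m =>
    subset_closure ⟨0, sh_zero m⟩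
  -- all measures in the orbit closure live over one point in each coordinate
  have hA : ∀ a, ∀ ν₁ ∈ orb ν, ∃ x, mg a ν₁ {e | e ∈ E ∧ p e = x} = 1 := by
    intro a ν₁ hν₁
    have h1 : pg a ν₁ ∈ orb (pg a ν) := by
      rw [← horbim (ProbabilityMeasure X) (pg a) inferInstance (hpgc a) (hpge a) ν]
      exact ⟨ν₁, hν₁, rfl⟩
    have h2 : pg a ν₁ ∈ range (diracProba : X → ProbabilityMeasure X) := by
      refine horbcl _ hclX hrangeX (pg a ν) ?_ h1
      rw [hpgν a]; exact ⟨_, rfl⟩
    obtain ⟨x, hx⟩ := h2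
    refine ⟨x, ?_⟩
    have h3 : ν₁ ((fun ξ : ℕ → X' => p (ξ a)) ⁻¹' {x}) = 1 :=
      dirac_map ν₁ (hpev a).measurable x hx.symm
    have h4 : ν₁ Ξ = 1 := hcar Ξ hΞ hΞi ν hνΞ ν₁ hν₁
    have hms : MeasurableSet {e | e ∈ E ∧ p e = x} :=
      (hE.inter (isClosed_eq hp continuous_const)).measurableSet
    rw [map_one ν₁ (hev a).measurable hms]
    rw [one_ae ν₁ ((hev a).measurable hms)]
    have h5 := (one_ae ν₁ ((hpev a).measurable (measurableSet_singleton x))).mp h3
    have h6 := (one_ae ν₁ hΞ.measurableSet).mp h4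
    filter_upwards [h5, h6] with ξ h7 h8
    exact ⟨hΞE ξ h8 a, h7⟩
  -- contraction of one coordinate
  have hB : ∀ a, ∀ ν₁ ∈ orb ν, ∃ ν₂ ∈ orb ν₁,
      mg a ν₂ ∈ range (diracProba : X' → ProbabilityMeasure X') := by
    intro a ν₁ hν₁
    obtain ⟨x, hx⟩ := hA a ν₁ hν₁
    obtain ⟨e, he⟩ := hspr x (mg a ν₁) hx
    rw [← horbim (ProbabilityMeasure X') (mg a) inferInstance (hmgc a) (hmge a) ν₁] at he
    obtain ⟨ν₂, hν₂, h⟩ := he
    exact ⟨ν₂, hν₂, e, h.symm⟩
  -- the sets `Dir a`
  let Dir : ℕ → Set (ProbabilityMeasure (ℕ → X')) := fun a =>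
    mg a ⁻¹' range (diracProba : X' → ProbabilityMeasure X')
  have hDc : ∀ a, IsClosed (Dir a) := fun a => hclX'.preimage (hmgc a)
  have hDi : ∀ a, AK.Inv (Dir a) := by
    intro a n m hm
    change mg a (sh n m) ∈ range (diracProba : X' → ProbabilityMeasure X')
    rw [hmge a n m]
    exact hrangeX' n _ hm
  let D : ℕ → Set (ProbabilityMeasure (ℕ → X')) := fun a => {m | m ∈ orb ν ∧ ∀ i < a, m ∈ Dir i}
  have hDne : ∀ a, (D a).Nonempty := by
    intro a
    induction a with
    | zero => exact ⟨ν, hself ν, fun i hi => absurd hi (Nat.not_lt_zero i)⟩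
    | succ a ih =>
      obtain ⟨m, hm, hmd⟩ := ih
      obtain ⟨m₂, hm₂, hm₂d⟩ := hB a m hm
      refine ⟨m₂, horb ν m hm hm₂, fun i hi => ?_⟩
      rcases Nat.lt_succ_iff_lt_or_eq.mp hi with hi | rfl
      · exact horbcl _ (hDc i) (hDi i) m (hmd i hi) hm₂
      · exact hm₂d
  have hDcl : ∀ a, IsClosed (D a) := by
    intro a
    have : D a = orb ν ∩ ⋂ i, ⋂ (_ : i < a), Dir i := by
      ext m; simp [D]
    rw [this]
    exact isClosed_closure.inter (isClosed_iInter fun i => isClosed_iInter fun _ => hDc i)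
  have hDmono : ∀ a, D (a + 1) ⊆ D a := fun a m hm => ⟨hm.1, fun i hi => hm.2 i (by omega)⟩
  obtain ⟨m, hm⟩ := IsCompact.nonempty_iInter_of_sequence_nonempty_isCompact_isClosed D
    hDmono hDne ((hDcl 0).isCompact) hDcl
  rw [mem_iInter] at hm
  have hmo : m ∈ orb ν := (hm 0).1
  have hmd : ∀ a, ∃ e, mg a m = diracProba e := by
    intro a
    obtain ⟨e, he⟩ := (hm (a + 1)).2 a (Nat.lt_succ_self a)
    exact ⟨e, he.symm⟩
  choose e he using hmd
  refine ⟨e, ?_⟩
  have hme : m = diracProba e := by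
    have h1 : ∀ a, ∀ᵐ ξ ∂(m : Measure (ℕ → X')), ξ a = e a := by
      intro a
      have h2 := dirac_map m (hev a).measurable (e a) (he a)
      have h3 := (one_ae m ((hev a).measurable (measurableSet_singleton (e a)))).mp h2
      simpa using h3
    have h4 : ∀ᵐ ξ ∂(m : Measure (ℕ → X')), id ξ = e := by
      filter_upwards [ae_all_iff.mpr h1] with ξ h5
      funext a
      exact h5 a
    apply Subtype.ext
    change (m : Measure (ℕ → X')) = Measure.dirac e
    have h5 : (m : Measure (ℕ → X')).map id = (m : Measure (ℕ → X')).map (fun _ => e) :=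
      Measure.map_congr h4
    rw [Measure.map_id] at h5
    rw [h5, Measure.map_const]
    simp
  rw [← hme]
  exact hmo

end Pool.Agent.Work.MP_69fea5_lc.W3
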