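import Pool.Agent.Work.MP_69fea5_lc.W3.StmtsT

/-!
# Block [69fea5 W3], toolbox, item SPP: fibre products of strongly proximal maps
-/

set_option autoImplicit false

namespace Pool.Agent.Work.MP_69fea5_lc.W3

open MeasureTheory Topology Set Filter TopologicalSpace
open scoped NNReal ENNReal
open Pool.Agent.Work.MP_69fea5_lc.AK

namespace I_SPP

/-- images of measures of (possibly non measurable) sets -/
theorem map_one {A B : Type} [TopologicalSpace A] [MeasurableSpace A] [CS A] [TopologicalSpace B]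
    [MeasurableSpace B] [CS B] (q : A → B) (hq : Continuous q) (ν : ProbabilityMeasure A)
    (S : Set A) (T : Set B) (hS : ν S = 1) (h : ∀ a ∈ S, q a ∈ T) :
    ν.map (f := q) hq.measurable.aemeasurable T = 1 := by
  have h1 : (ν : Measure A) S = 1 := by
    rw [← ProbabilityMeasure.ennreal_coeFn_eq_coeFn_toMeasure, hS]; rfl
  have h2 : (1 : ℝ≥0∞) ≤ (ν : Measure A).map q T := by
    calc (1 : ℝ≥0∞) = (ν : Measure A) S := h1.symm
      _ ≤ (ν : Measure A) (q ⁻¹' T) := measure_mono h
      _ ≤ (ν : Measure A).map q T := Measure.le_map_apply hq.measurable.aemeasurable T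
  have h3 : (ν : Measure A).map q T ≤ 1 := by
    have : IsProbabilityMeasure ((ν : Measure A).map q) :=
      Measure.isProbabilityMeasure_map hq.measurable.aemeasurable
    exact prob_le_one
  have h4 : ((ν.map (f := q) hq.measurable.aemeasurable : ProbabilityMeasure B) : Measure B) T = 1 :=
    le_antisymm h3 h2
  have h5 := ProbabilityMeasure.ennreal_coeFn_eq_coeFn_toMeasure
    (ν.map (f := q) hq.measurable.aemeasurable) T
  rw [h4] at h5
  exact_mod_cast h5

/-- a probability measure with an atom of mass one -/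
theorem eq_dirac {A : Type} [TopologicalSpace A] [MeasurableSpace A] [CS A]
    (ν : ProbabilityMeasure A) (x : A) (h : ν {x} = 1) : ν = diracProba x := by
  apply Subtype.ext
  have h1 : (ν : Measure A) {x} = 1 := by
    rw [← ProbabilityMeasure.ennreal_coeFn_eq_coeFn_toMeasure, h]; rfl
  change (ν : Measure A) = Measure.dirac x
  refine Measure.ext fun s hs => ?_
  rw [Measure.dirac_apply' _ hs]
  by_cases hx : x ∈ s
  · rw [Set.indicator_of_mem hx, Pi.one_apply]
    refine le_antisymm prob_le_one ?_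
    rw [← h1]
    exact measure_mono (Set.singleton_subset_iff.2 hx)
  · rw [Set.indicator_of_notMem hx]
    have h2 : (ν : Measure A) {x}ᶜ = 0 := by
      rw [prob_compl_eq_one_sub (measurableSet_singleton x), h1, tsub_self]
    refine measure_mono_null ?_ h2
    intro y hy hyx
    exact hx (hyx ▸ hy)

/-- limits along ultrafilters in compact spaces -/
theorem lim_ex {A : Type} [TopologicalSpace A] [CompactSpace A] (G : Ultrafilter ℤ) (f : ℤ → A) :
    ∃ a, Tendsto f (G : Filter ℤ) (𝓝 a) := by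
  obtain ⟨a, -, ha⟩ := isCompact_univ.ultrafilter_le_nhds (G.map f) (by simp)
  exact ⟨a, ha⟩

end I_SPP

theorem SPP_pf (h1 : S_ULT) (h2 : S_PMG) (h3 : S_PRD) : S_SPP := by
  intro X₁ X₂ _ _ _ _ _ _ _ _ Y E₁ E₂ p₁ p₂ hE x ν hν
  have hc1 : Continuous (Prod.fst : X₁ × X₂ → X₁) := continuous_fst
  have hc2 : Continuous (Prod.snd : X₁ × X₂ → X₂) := continuous_snd
  -- the second marginal
  have hn2 : ν.map (f := Prod.snd) hc2.measurable.aemeasurable {e | e ∈ E₂ ∧ p₂ e = p₁ x} = 1 := by
    refine I_SPP.map_one _ hc2 ν _ _ hν ?_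
    rintro ⟨a, b⟩ ⟨⟨-, hb, hab⟩, hax⟩
    exact ⟨hb, by rw [← hax]; exact hab.symm⟩
  obtain ⟨e₂, he₂⟩ := hE (p₁ x) _ hn2
  obtain ⟨G, hG⟩ := ((h1 (ProbabilityMeasure X₂)).1 _ _).1 he₂
  -- the first marginal
  have hn1 : ν.map (f := Prod.fst) hc1.measurable.aemeasurable = diracProba x := by
    refine I_SPP.eq_dirac _ _ (I_SPP.map_one _ hc1 ν _ _ hν ?_)
    rintro ⟨a, b⟩ ⟨-, hax⟩
    exact hax
  obtain ⟨x', hx'⟩ := I_SPP.lim_ex G (fun n => (sh n x : X₁))
  obtain ⟨ν', hν'⟩ := I_SPP.lim_ex G (fun n => (sh n ν : ProbabilityMeasure (X₁ × X₂)))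
  -- the marginals of the limit
  have m2 : ν'.map (f := Prod.snd) hc2.measurable.aemeasurable = diracProba e₂ := by
    refine tendsto_nhds_unique (((ProbabilityMeasure.continuous_map hc2).tendsto ν').comp hν') ?_
    refine hG.congr fun n => ?_
    exact (((h2 (X₁ × X₂)).2.2.2.2.2.2.2 X₂ Prod.snd hc2 (fun _ _ => rfl)) n ν).symm
  have m1 : ν'.map (f := Prod.fst) hc1.measurable.aemeasurable = diracProba x' := by
    refine tendsto_nhds_unique (((ProbabilityMeasure.continuous_map hc1).tendsto ν').comp hν') ?_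
    have h4 : Tendsto (fun n : ℤ => (diracProba (sh n x : X₁))) (G : Filter ℤ)
        (𝓝 (diracProba x')) := (continuous_diracProba.tendsto x').comp hx'
    refine h4.congr fun n => ?_
    have h5 := ((h2 (X₁ × X₂)).2.2.2.2.2.2.2 X₁ Prod.fst hc1 (fun _ _ => rfl)) n ν
    rw [hn1, (h2 X₁).2.1 n x] at h5
    exact h5.symm
  refine ⟨(x', e₂), ?_⟩
  have h6 : ν' = diracProba (x', e₂) := by
    apply Subtype.ext
    have h7 : (ν' : Measure (X₁ × X₂)).map Prod.snd = Measure.dirac e₂ :=
      congrArg (fun m : ProbabilityMeasure X₂ => (m : Measure X₂)) m2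
    have h8 : (ν' : Measure (X₁ × X₂)).map Prod.fst = Measure.dirac x' :=
      congrArg (fun m : ProbabilityMeasure X₁ => (m : Measure X₁)) m1
    have h9 := h3 X₁ X₂ ν' e₂ h7
    have h10 : Measurable fun u : X₁ => (u, e₂) :=
      (continuous_id.prodMk continuous_const).measurable
    rw [h8, Measure.map_dirac' h10] at h9
    exact h9
  rw [← h6]
  exact ((h1 (ProbabilityMeasure (X₁ × X₂))).1 _ _).2 ⟨G, hν'⟩

end Pool.Agent.Work.MP_69fea5_lc.W3
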