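import Pool.Agent.Work.MP_69fea5_lc.W3.StmtsT

set_option autoImplicit false

namespace Pool.Agent.Work.MP_69fea5_lc.W3

open MeasureTheory Topology Set Filter TopologicalSpace
open scoped NNReal ENNReal
open Pool.Agent.Work.MP_69fea5_lc.AK

theorem SPS_pf : S_SPS := by
  intro X' _ _ _ _ Y Y' E E' p p' hE hsub hpp x ν hν
  have hne : {e | e ∈ E' ∧ p' e = x}.Nonempty := by
    by_contra h
    rw [Set.not_nonempty_iff_eq_empty] at h
    rw [h, ProbabilityMeasure.coeFn_empty] at hν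
    exact zero_ne_one hν
  obtain ⟨e₀, he₀, hx₀⟩ := hne
  have hss : {e | e ∈ E' ∧ p' e = x} ⊆ {e | e ∈ E ∧ p e = p e₀} := by
    rintro e ⟨he, hx⟩
    exact ⟨hsub he, hpp e he e₀ he₀ (hx.trans hx₀.symm)⟩
  refine hE (p e₀) ν (le_antisymm (ν.apply_le_one _) ?_)
  rw [← hν]
  exact ProbabilityMeasure.apply_mono ν hss

end Pool.Agent.Work.MP_69fea5_lc.W3
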