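import Pool.Agent.Work.MP_69fea5_lc.W3.StmtsE

set_option autoImplicit false

namespace Pool.Agent.Work.MP_69fea5_lc.W3

open MeasureTheory Topology Set Filter ProbabilityTheory
open scoped NNReal ENNReal
open Pool.Agent.Work.MP_69fea5_lc.AK
open Pool.Agent.Work.MP_69fea5_lc.N3 (W2 bx sup2 St nxt Bl3 CaseII3 GRD)

namespace I_STA

variable {k : ℕ}

theorem cyl_one (r : Fin k) : (cyl [r] 0 : Set (Om k)) = {z | z 0 = r} := by
  ext z
  simp only [cyl, mem_setOf_eq]
  constructor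
  · intro h
    simpa using h 0 r (by simp)
  · intro h i a ha
    rcases i with _ | i
    · simp only [List.getElem?_cons_zero,
        Option.some.injEq] at ha
      subst ha
      simpa using h
    · simp at ha

theorem prod_le {α β : Type*} [MeasurableSpace α] [MeasurableSpace β] {μ μ' : Measure α}
    {ν ν' : Measure β} [SFinite ν] [SFinite ν'] (h : μ ≤ μ') (h' : ν ≤ ν') :
    μ.prod ν ≤ μ'.prod ν' := by
  refine Measure.le_iff.2 fun A hA => ?_
  rw [Measure.prod_apply hA, Measure.prod_apply hA]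
  exact lintegral_mono' h fun a => h' _

end I_STA

open I_STA in
theorem STA_pf (h1 : S_SDB) : S_STA := by
  intro k X _ _ _ _ c x x1 μ0 μ1 μ2 C κ1 κ2 hE D F1 F2 N hN
  have := hE.p1
  have := hE.p2
  obtain ⟨_, _, _, hle1, hp1, hu1, _, hpos1, _⟩ := h1 k κ1 F1
  obtain ⟨_, _, _, hle2, hp2, hu2, _, hpos2, _⟩ := h1 k κ2 F2
  have : IsFiniteMeasure (sd κ1 F1) := ⟨lt_of_le_of_lt hu1 ENNReal.one_lt_top⟩
  have : IsFiniteMeasure (sd κ2 F2) := ⟨lt_of_le_of_lt hu2 ENNReal.one_lt_top⟩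
  refine ⟨?_, ?_⟩
  · rw [← hE.b1, ← hE.b2]
    exact prod_le hle1 hle2
  · intro hC r hr
    have hS : St ((sd κ1 F1).prod (sd κ2 F2)) ([r], [r]) r := by
      refine ⟨by simp [mid], by simp [mid], ?_⟩
      have hb : (bx (([r], [r]) : W2 k) 0 : Set (Om k × Om k)) =
          ({z | z 0 = r} : Set (Om k)) ×ˢ {z | z 0 = r} := by
        show cyl [r] 0 ×ˢ cyl [r] 0 = _
        rw [cyl_one]
      rw [hb, Measure.prod_prod]
      exact ENNReal.mul_pos (hpos1 hN.pos1 r (hN.mem1 r hr)).ne'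
        (hpos2 hN.pos2 r (hN.mem2 r hr)).ne'
    obtain ⟨P, _, hP1, hP2⟩ := hC ([r], [r]) r hS
    exact ⟨P, hP1, hP2⟩

end Pool.Agent.Work.MP_69fea5_lc.W3
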