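import Pool.Agent.Work.MP_69fea5_lc.W3.StmtsE

set_option autoImplicit false

namespace Pool.Agent.Work.MP_69fea5_lc.W3

open MeasureTheory Topology Set Filter ProbabilityTheory
open scoped NNReal ENNReal
open Pool.Agent.Work.MP_69fea5_lc.AK
open Pool.Agent.Work.MP_69fea5_lc.N3 (W2 bx sup2 St nxt Bl3 CaseII3 GRD)

namespace I_STC

variable {k : ℕ}

theorem meas_sh2 (n : ℤ) : Measurable (sh n : Om k × Om k → Om k × Om k) :=
  (sh_cont n).measurable

theorem map_real (ν : Measure (Om k × Om k)) (n : ℤ) {C : Set (Om k × Om k)}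
    (hC : MeasurableSet C) :
    (ν.map (sh n : Om k × Om k → Om k × Om k)).real C = ν.real {g | sh n g ∈ C} := by
  unfold Measure.real
  rw [Measure.map_apply (meas_sh2 n) hC]
  rfl

theorem map_univ (ν : Measure (Om k × Om k)) (n : ℤ) :
    ν.map (sh n : Om k × Om k → Om k × Om k) univ = ν univ := by
  rw [Measure.map_apply (meas_sh2 n) MeasurableSet.univ]
  rfl

theorem map_sh_prod (m m' : PM k) (n : ℤ) :
    ((m : Measure (Om k)).prod (m' : Measure (Om k))).map
      (sh n : Om k × Om k → Om k × Om k) =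
    ((sh n m : PM k) : Measure (Om k)).prod ((sh n m' : PM k) : Measure (Om k)) := by
  have h1 : ((sh n m : PM k) : Measure (Om k)) =
    (m : Measure (Om k)).map (sh n : Om k → Om k) := rfl
  have h2 : ((sh n m' : PM k) : Measure (Om k)) =
    (m' : Measure (Om k)).map (sh n : Om k → Om k) := rfl
  rw [h1, h2, Measure.map_prod_map _ _ (sh_cont n).measurable (sh_cont n).measurable]
  rfl

theorem sec_closed {X : Type} [TopologicalSpace X] {N : Set ((Om k × Om k × Om k) × X)}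
    (hN : IsClosed N) (w : Om k) (y : X) : IsClosed {g : Om k × Om k | ((w, g), y) ∈ N} :=
  hN.preimage (((continuous_const).prodMk continuous_id).prodMk continuous_const)

/-- transport of the sections by the shift -/
theorem sec_shift {X : Type} [TopologicalSpace X] [Sys X]
    {N : Set ((Om k × Om k × Om k) × X)} (hI : AK.Inv N) (n : ℤ) (p : Om k) (x : X) :
    {g : Om k × Om k | ((sh n p, sh n g), sh n x) ∈ N} = {g | ((p, g), x) ∈ N} := by
  ext g
  constructor
  · intro h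
    have h2 := hI (-n) _ h
    have h3 : ∀ {Z : Type} [TopologicalSpace Z] [Sys Z] (z : Z), sh (-n) (sh n z) = z := by
      intro Z _ _ z
      rw [← sh_add, neg_add_cancel, sh_zero]
    have h4 : (sh (-n) (((sh n p, sh n g), sh n x) : (Om k × Om k × Om k) × X)) =
        ((p, g), x) := by
      rw [sh_prod, sh_prod, h3, h3, h3]
    rw [h4] at h2
    exact h2
  · intro h
    exact hI n _ h

end I_STC

open I_STC in
theorem STC_pf (hCMP : S_CMP) (hCMD : S_CMD) (hRAW : S_RAW) (hPIC : S_PIC) (hDEC : S_DEC)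
    (hLIM : S_LIM) (hSHD : S_SHD) (hSTA : S_STA) (hSDB : S_SDB) (hMSB : S_MSB)
    (hCYL : AK.S_CYL) : S_STC := by
  intro k X _ _ _ _ c x x1 μ0 μ1 μ2 C κ1 κ2 hE D F1 F2 N hS P G w y hG hGc hGx hw τ hτ hlim
  have := hE.p1
  have := hE.p2
  set ν : Measure (Om k × Om k) := (sd κ1 F1).prod (sd κ2 F2) with hν
  set ν' : Measure (Om k × Om k) := (sd κ1 (P.1 :: F1)).prod (sd κ2 (P.2 :: F2)) with hν'
  -- basic facts on the measures
  have hb1 := hSDB k κ1 F1
  have hb2 := hSDB k κ2 F2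
  have hb1' := hSDB k κ1 (P.1 :: F1)
  have hb2' := hSDB k κ2 (P.2 :: F2)
  have f1 : IsFiniteMeasure (sd κ1 F1) := ⟨hb1.2.2.2.2.2.1.trans_lt ENNReal.one_lt_top⟩
  have f2 : IsFiniteMeasure (sd κ2 F2) := ⟨hb2.2.2.2.2.2.1.trans_lt ENNReal.one_lt_top⟩
  have f1' : IsFiniteMeasure (sd κ1 (P.1 :: F1)) := ⟨hb1'.2.2.2.2.2.1.trans_lt ENNReal.one_lt_top⟩
  have f2' : IsFiniteMeasure (sd κ2 (P.2 :: F2)) := ⟨hb2'.2.2.2.2.2.1.trans_lt ENNReal.one_lt_top⟩
  have hc : ∀ v : Wd k, MeasurableSet (cyl v 0 : Set (Om k)) :=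
    fun v => ((hCYL k).1 v 0).isClosed.measurableSet
  have hbx : MeasurableSet (bx P 0 : Set (Om k × Om k)) := (hc _).prod (hc _)
  have hν1 : ν univ ≤ 1 := by
    rw [hν, ← univ_prod_univ, Measure.prod_prod]
    exact mul_le_one' hb1.2.2.2.2.2.1 hb2.2.2.2.2.2.1
  have hle : ν' ≤ ν := by
    rw [hν, hν']
    exact Measure.prod_mono (hb1.2.2.2.2.2.2.1 P.1).2 (hb2.2.2.2.2.2.2.1 P.2).2
  have hdom : ν ≤ (μ1 x : Measure (Om k)).prod (μ2 x : Measure (Om k)) :=
    (hSTA k X c x x1 μ0 μ1 μ2 C κ1 κ2 hE D F1 F2 N hS).1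
  have hmass : ν (bx P 0) = ν' univ := by
    rw [hν, hν', ← univ_prod_univ, Measure.prod_prod]
    unfold bx
    rw [Measure.prod_prod, (hb1.2.2.2.2.2.2.1 P.1).1, (hb2.2.2.2.2.2.2.1 P.2).1]
  -- the new set
  set N' : Set ((Om k × Om k × Om k) × X) := RW c x ν P ∩ N with hN'
  have fν : IsFiniteMeasure ν := ⟨hν1.trans_lt ENNReal.one_lt_top⟩
  obtain ⟨hRc, hRi, hRcar, -⟩ := hRAW k X c x ν P
  have hNc : IsClosed N' := hRc.inter hS.closed
  have hNi : AK.Inv N' := fun n q hq => ⟨hRi n q hq.1, hS.inv n q hq.2⟩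
  -- limits of the state measure and of its part in the box
  obtain ⟨τ0, hf0, hl0⟩ := hCMP k G (fun n : ℕ => ν.map (sh (n : ℤ) : Om k × Om k → Om k × Om k))
    (fun n => by rw [map_univ]; exact hν1)
  obtain ⟨τ', hf', hl'⟩ := hCMP k G
    (fun n : ℕ => (ν.restrict (bx P 0)).map (sh (n : ℤ) : Om k × Om k → Om k × Om k))
    (fun n => by
      rw [map_univ]
      exact (Measure.restrict_le_self univ).trans hν1)
  have hL0 : LimM G ν τ0 := fun B hB =>
    (hl0 B hB).congr fun n => map_real ν n hB.isClosed.measurableSet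
  have hL' : LimM G (ν.restrict (bx P 0)) τ' := fun B hB =>
    (hl' B hB).congr fun n => map_real _ n hB.isClosed.measurableSet
  have hle' : τ' ≤ τ0 := by
    refine hCMD k G
      (fun n : ℕ => (ν.restrict (bx P 0)).map (sh (n : ℤ) : Om k × Om k → Om k × Om k))
      (fun n : ℕ => ν.map (sh (n : ℤ) : Om k × Om k → Om k × Om k)) τ' τ0 ?_ ?_ hl' hl0
    · intro n
      exact Measure.map_mono Measure.restrict_le_self (meas_sh2 _)
    · intro n
      rw [map_univ]
      exact hν1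
  -- `τ'` is carried by the section
  have hcar' : τ' {g | ((w, g), y) ∉ N'} = 0 := by
    have h1 := hRcar G w y hG hGc hGx τ' hf' hL'
    have h2 : τ' {g | ((w, g), y) ∉ N} = 0 :=
      le_antisymm ((hle' _).trans (hS.car G w y hG hGc hGx hw τ0 hf0 hL0).le) bot_le
    refine measure_mono_null ?_ (measure_union_null h1 h2)
    intro g hg
    by_cases hgR : ((w, g), y) ∈ RW c x ν P
    · exact Or.inr fun h => hg ⟨hgR, h⟩
    · exact Or.inl hgR
  -- typical points
  obtain ⟨p, hp, hpw⟩ := hPIC k X μ0 x y hE.c0 hE.e0 G w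
    {p | ∀ᵐ (q : PM k × PM k) ∂(κ1.prod κ2),
      ((q.1 : Measure (Om k)).prod (q.2 : Measure (Om k))) {g | ((p, g), x) ∈ N'} = 0 ∨
      ((q.1 : Measure (Om k)).prod (q.2 : Measure (Om k))) {g | ((p, g), x) ∈ N'} = 1}
    hG hGx hw (hDEC k X c x x1 μ0 μ1 μ2 C κ1 κ2 hE N' hNc hNi).1
  have hM := hMSB k X μ0 x hE.c0 hE.e0
  have hmem : ∀ n : ℕ, (sh (n : ℤ) (p n), sh (n : ℤ) x) ∈ MS μ0 x := fun n =>
    hM.1.2.1 n _ (hp n).2
  -- the two limits
  have hA := hLIM k X (MS μ0 x) μ1 μ2 hE.m0 hE.c1 hE.c2 hE.e1 hE.e2 N' hNc hNi G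
    (fun n : ℕ => sh (n : ℤ) (p n)) (fun n : ℕ => sh (n : ℤ) x) w y
    (fun n : ℕ => (ν.restrict (bx P 0)).map (sh (n : ℤ) : Om k × Om k → Om k × Om k)) τ'
    hmem hpw hGx (fun n => by
      rw [hE.e1, hE.e2, ← map_sh_prod]
      exact Measure.map_mono (Measure.restrict_le_self.trans hdom) (meas_sh2 _)) hl'
  have hB := hLIM k X (MS μ0 x) μ1 μ2 hE.m0 hE.c1 hE.c2 hE.e1 hE.e2 N' hNc hNi G
    (fun n : ℕ => sh (n : ℤ) (p n)) (fun n : ℕ => sh (n : ℤ) x) w y
    (fun n : ℕ => ν'.map (sh (n : ℤ) : Om k × Om k → Om k × Om k)) τ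
    hmem hpw hGx (fun n => by
      rw [hE.e1, hE.e2, ← map_sh_prod]
      exact Measure.map_mono (hle.trans hdom) (meas_sh2 _))
    (fun B hB => (hlim B hB).congr fun n => (map_real ν' n hB.isClosed.measurableSet).symm)
  have hAB : (fun n : ℕ => ((ν.restrict (bx P 0)).map
        (sh (n : ℤ) : Om k × Om k → Om k × Om k)).real
        {g | ((sh (n : ℤ) (p n), g), sh (n : ℤ) x) ∈ N'}) =
      fun n : ℕ => (ν'.map (sh (n : ℤ) : Om k × Om k → Om k × Om k)).real
        {g | ((sh (n : ℤ) (p n), g), sh (n : ℤ) x) ∈ N'} := by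
    funext n
    have hm := (sec_closed hNc (sh (n : ℤ) (p n)) (sh (n : ℤ) x)).measurableSet
    rw [map_real _ _ hm, map_real _ _ hm]
    have hs : {g : Om k × Om k | sh (n : ℤ) g ∈
        {g : Om k × Om k | ((sh (n : ℤ) (p n), g), sh (n : ℤ) x) ∈ N'}} =
        {g | ((p n, g), x) ∈ N'} := sec_shift hNi n (p n) x
    rw [hs]
    have hm2 := (sec_closed hNc (p n) x).measurableSet
    have h1 := hSHD k κ1 κ2 F1 F2 P {g | ((p n, g), x) ∈ N'} hm2 (hp n).1
    unfold Measure.real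
    rw [Measure.restrict_apply hm2, inter_comm, h1]
  have hAB' : τ'.real {g | ((w, g), y) ∈ N'} = τ.real {g | ((w, g), y) ∈ N'} := by
    have hA' := hA
    rw [hAB] at hA'
    exact tendsto_nhds_unique hA' hB
  -- total masses
  have hm3 := (sec_closed hNc w y).measurableSet
  have hu' : τ'.real univ = ν.real (bx P 0) := by
    have h1 := hL' univ isClopen_univ
    have h2 : (fun n : ℕ => (ν.restrict (bx P 0)).real {g | sh (n : ℤ) g ∈
        (univ : Set (Om k × Om k))}) = fun _ => ν.real (bx P 0) := by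
      funext n
      simp [Measure.real]
    rw [h2] at h1
    exact tendsto_nhds_unique h1 tendsto_const_nhds |>.symm ▸ rfl
  have hu : τ.real univ = ν'.real univ := by
    have h1 := hlim univ isClopen_univ
    have h2 : (fun n : ℕ => ν'.real {g | sh (n : ℤ) g ∈
        (univ : Set (Om k × Om k))}) = fun _ => ν'.real univ := by
      funext n
      simp
    rw [h2] at h1
    exact tendsto_nhds_unique h1 tendsto_const_nhds
  have hful' : τ'.real {g | ((w, g), y) ∈ N'} = τ'.real univ := by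
    have h1 := measureReal_add_measureReal_compl (μ := τ') hm3
    have h2 : τ'.real {g | ((w, g), y) ∈ N'}ᶜ = 0 := by
      unfold Measure.real
      have : τ' {g | ((w, g), y) ∈ N'}ᶜ = 0 := hcar'
      rw [this]
      rfl
    rw [h2, add_zero] at h1
    exact h1
  have hmr : ν.real (bx P 0) = ν'.real univ := by
    unfold Measure.real
    rw [hmass]
  have hfin : τ.real {g | ((w, g), y) ∈ N'} = τ.real univ := by
    rw [← hAB', hful', hu', hmr, hu]
  have h1 := measureReal_add_measureReal_compl (μ := τ) hm3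
  have h2 : τ.real {g | ((w, g), y) ∈ N'}ᶜ = 0 := by linarith
  have h3 : τ {g | ((w, g), y) ∈ N'}ᶜ = 0 := by
    rwa [measureReal_eq_zero_iff] at h2
  exact h3

end Pool.Agent.Work.MP_69fea5_lc.W3
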