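import Pool.Agent.Work.MP_69fea5_lc.W3.StmtsE

/-!
# Block [69fea5 F], part E, item STK: the new colour is killed
-/

set_option autoImplicit false

namespace Pool.Agent.Work.MP_69fea5_lc.W3

open MeasureTheory Topology Set Filter ProbabilityTheory
open scoped NNReal ENNReal
open Pool.Agent.Work.MP_69fea5_lc.AK
open Pool.Agent.Work.MP_69fea5_lc.N3 (W2 bx sup2 St nxt Bl3 CaseII3 GRD)

namespace I_STK

variable {k : ℕ}

theorem sec_closed {X : Type} [TopologicalSpace X] {N : Set ((Om k × Om k × Om k) × X)}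
    (hN : IsClosed N) (v : Om k) (y : X) :
    IsClosed {g : Om k × Om k | ((g.1, g.2, v), y) ∈ N} :=
  hN.preimage ((continuous_fst.prodMk (continuous_snd.prodMk continuous_const)).prodMk
    continuous_const)

end I_STK

theorem STK_pf (h1 : S_DEC) (h2 : S_SHD) (h3 : S_RAW) (h4 : S_SDB) : S_STK := by
  intro k X _ _ _ _ c x x1 μ0 μ1 μ2 C κ1 κ2 hE D F1 F2 N hS P r hBl
  have := hE.p1
  have := hE.p2
  have hb1 := h4 k κ1 F1
  have hb2 := h4 k κ2 F2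
  have f1 : IsFiniteMeasure (sd κ1 F1) := ⟨hb1.2.2.2.2.2.1.trans_lt ENNReal.one_lt_top⟩
  have f2 : IsFiniteMeasure (sd κ2 F2) := ⟨hb2.2.2.2.2.2.1.trans_lt ENNReal.one_lt_top⟩
  set ν : Measure (Om k × Om k) := (sd κ1 F1).prod (sd κ2 F2) with hν
  obtain ⟨hRc, hRi, -, hRk⟩ := h3 k X c x ν P
  have hNc : IsClosed (RW c x ν P ∩ N) := hRc.inter hS.closed
  have hNi : AK.Inv (RW c x ν P ∩ N) := fun n q hq => ⟨hRi n q hq.1, hS.inv n q hq.2⟩
  have hdec := (h1 k X c x x1 μ0 μ1 μ2 C κ1 κ2 hE (RW c x ν P ∩ N) hNc hNi).2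
  filter_upwards [hdec, hS.kil] with v hv hk hpos
  have hB : MeasurableSet {g : Om k × Om k | ((g.1, g.2, v), x1) ∈ RW c x ν P ∩ N} :=
    (I_STK.sec_closed hNc v x1).measurableSet
  have he := h2 k κ1 κ2 F1 F2 P {g | ((g.1, g.2, v), x1) ∈ RW c x ν P ∩ N} hB hv
  rw [← he] at hpos
  have hsub : bx P 0 ∩ {g : Om k × Om k | ((g.1, g.2, v), x1) ∈ RW c x ν P ∩ N} ⊆
      {p | ((p.1, p.2, v), x1) ∈ N} := fun g hg => hg.2.2
  have hD : v 0 ∉ D := hk (hpos.trans_le (measure_mono hsub))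
  obtain ⟨g, hg1, hg2⟩ := nonempty_of_measure_ne_zero hpos.ne'
  have hr : v 0 ≠ r := hRk r hBl g.1 g.2 v x1 hg2.1 hg1.1 hg1.2
  rw [Finset.mem_insert]
  rintro (h | h)
  · exact hr h
  · exact hD h

end Pool.Agent.Work.MP_69fea5_lc.W3
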