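import Pool.Agent.Work.MP_69fea5_lc.W3.StmtsE

/-!
Block [69fea5 F], part E, item STP3: the step of the nested construction.
-/

set_option autoImplicit false

namespace Pool.Agent.Work.MP_69fea5_lc.W3

open MeasureTheory Topology Set Filter ProbabilityTheory
open scoped NNReal ENNReal
open Pool.Agent.Work.MP_69fea5_lc.AK
open Pool.Agent.Work.MP_69fea5_lc.N3 (W2 bx sup2 St nxt Bl3 CaseII3 GRD)

theorem STP3_pf (hSTA : S_STA) (hSTC : S_STC) (hSTK : S_STK) (hSDB : S_SDB) (hRAW : S_RAW) :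
    S_STP3 := by
  intro k X _ _ _ _ c x x1 μ0 μ1 μ2 C κ1 κ2 h D F1 F2 N hN hII r hr
  have hp1 := h.p1
  have hp2 := h.p2
  obtain ⟨-, h2⟩ := hSTA k X c x x1 μ0 μ1 μ2 C κ1 κ2 h D F1 F2 N hN
  obtain ⟨P, hP, hB⟩ := h2 hII r hr
  have hf1 : IsFiniteMeasure (sd κ1 F1) :=
    ⟨lt_of_le_of_lt (hSDB k κ1 F1).2.2.2.2.2.1 ENNReal.one_lt_top⟩
  have hf2 : IsFiniteMeasure (sd κ2 F2) :=
    ⟨lt_of_le_of_lt (hSDB k κ2 F2).2.2.2.2.2.1 ENNReal.one_lt_top⟩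
  obtain ⟨hc, hi, -, -⟩ := hRAW k X c x ((sd κ1 F1).prod (sd κ2 F2)) P
  have hpos : 0 < sd κ1 F1 (cyl P.1 0) ∧ 0 < sd κ2 F2 (cyl P.2 0) := by
    have h3 := hP.2.2
    unfold bx at h3
    rw [Measure.prod_prod] at h3
    exact ⟨pos_iff_ne_zero.2 fun h0 => by simp [h0] at h3,
      pos_iff_ne_zero.2 fun h0 => by simp [h0] at h3⟩
  refine ⟨P.1 :: F1, P.2 :: F2, RW c x ((sd κ1 F1).prod (sd κ2 F2)) P ∩ N, ?_⟩
  refine ⟨hc.inter hN.closed, fun n q hq => ⟨hi n q hq.1, hN.inv n q hq.2⟩,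
    fun a ha => List.mem_cons_of_mem _ (hN.mem1 a ha),
    fun a ha => List.mem_cons_of_mem _ (hN.mem2 a ha), ?_, ?_, ?_, ?_⟩
  · rw [((hSDB k κ1 F1).2.2.2.2.2.2.1 P.1).1]
    exact hpos.1
  · rw [((hSDB k κ2 F2).2.2.2.2.2.2.1 P.2).1]
    exact hpos.2
  · exact hSTC k X c x x1 μ0 μ1 μ2 C κ1 κ2 h D F1 F2 N hN P
  · exact hSTK k X c x x1 μ0 μ1 μ2 C κ1 κ2 h D F1 F2 N hN P r hB

end Pool.Agent.Work.MP_69fea5_lc.W3
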