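import Pool.Agent.Work.MP_69fea5_lc.W3.StmtsT
import Pool.Agent.Work.MP_69fea5_lc.AK.I_ZORN
import Pool.Agent.Work.MP_69fea5_lc.AK.I_ORB

/-!
# [69fea5 T T7M] the system over the frames is minimal
-/

set_option autoImplicit false

namespace Pool.Agent.Work.MP_69fea5_lc.W3

open MeasureTheory Topology Set Filter TopologicalSpace
open scoped NNReal ENNReal
open Pool.Agent.Work.MP_69fea5_lc.AK

namespace I_T7M

section gen

variable {O C X : Type} [TopologicalSpace O] [Sys O] [TopologicalSpace C] [Sys C]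
  [TopologicalSpace X] [Sys X]

theorem closed_At [T2Space C] {A : Set (O × X)} {θ : O × X → C} (hA : IsClosed A)
    (hθ : ContinuousOn θ A) {Z : Set (X × (ℕ → C))} (hZ : IsClosed Z) (j : ℕ) :
    IsClosed (At A θ Z j) := by
  have hpr : Continuous fun p : O × (X × (ℕ → C)) => ((p.1, p.2.1) : O × X) :=
    continuous_fst.prodMk (continuous_fst.comp continuous_snd)
  let S : Set (O × (X × (ℕ → C))) := {p | p.2 ∈ Z ∧ (p.1, p.2.1) ∈ A}
  have hS : IsClosed S := (hZ.preimage continuous_snd).inter (hA.preimage hpr)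
  have hf : ContinuousOn (fun p : O × (X × (ℕ → C)) => ((θ (p.1, p.2.1), p.2.2 j) : C × C)) S := by
    refine ContinuousOn.prodMk ?_ ?_
    · exact hθ.comp hpr.continuousOn fun p hp => hp.2
    · exact ((continuous_apply j).comp (continuous_snd.comp continuous_snd)).continuousOn
  have h := hf.preimage_isClosed_of_isClosed hS isClosed_diagonal
  have he : At A θ Z j =
      S ∩ (fun p : O × (X × (ℕ → C)) => ((θ (p.1, p.2.1), p.2.2 j) : C × C)) ⁻¹' Set.diagonal C := by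
    ext p
    constructor
    · rintro ⟨h1, h2, h3⟩
      exact ⟨⟨h1, h2⟩, h3⟩
    · rintro ⟨⟨h1, h2⟩, h3⟩
      exact ⟨h1, h2, h3⟩
  rw [he]
  exact h

theorem inv_At {A : Set (O × X)} {θ : O × X → C} (hA : AK.Inv A)
    (hθ : ∀ p ∈ A, ∀ n : ℤ, θ (sh n p) = sh n (θ p)) {Z : Set (X × (ℕ → C))} (hZ : AK.Inv Z)
    (j : ℕ) : AK.Inv (At A θ Z j) := by
  rintro n ⟨u, x, t⟩ ⟨h1, h2, h3⟩
  refine ⟨hZ n _ h1, hA n _ h2, ?_⟩
  have h4 := hθ (u, x) h2 n
  have h5 : θ (u, x) = t j := h3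
  change θ (sh n (u, x)) = sh n (t j)
  rw [h4, h5]

theorem IPB.mono {A B : Set (C × X)} {d : C → C → X → ℝ} (h : IPB A d) (hBA : B ⊆ A) :
    IPB B d where
  cont := h.cont.mono fun _ hp => ⟨hBA hp.1, hBA hp.2⟩
  inv n x u u' h1 h2 := h.inv n x u u' (hBA h1) (hBA h2)
  self x u h1 := h.self x u (hBA h1)
  nonneg x u u' h1 h2 := h.nonneg x u u' (hBA h1) (hBA h2)
  symm x u u' h1 h2 := h.symm x u u' (hBA h1) (hBA h2)
  tri x u u' u'' h1 h2 h3 := h.tri x u u' u'' (hBA h1) (hBA h2) (hBA h3)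

end gen

/-- the image of a closed invariant set under a continuous equivariant map -/
theorem image_eq_of_min {Y W : Type} [TopologicalSpace Y] [CompactSpace Y] [Sys Y]
    [TopologicalSpace W] [T2Space W] [Sys W] {f : Y → W} (hf : Continuous f)
    (he : ∀ (n : ℤ) (y : Y), f (sh n y) = sh n (f y)) {L : Set Y} (hL : IsClosed L)
    (hLi : AK.Inv L) (hLn : L.Nonempty) {K : Set W} (hK : MinSet K) (hLK : f '' L ⊆ K) :
    f '' L = K := by
  refine hK.min _ (hL.isCompact.image hf).isClosed (hLn.image f) ?_ hLK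
  rintro n _ ⟨y, hy, rfl⟩
  exact ⟨sh n y, hLi n y hy, he n y⟩

end I_T7M

open I_T7M in
theorem T7M_pf (hHAU : S_HAU) (hAUT : S_AUT) : S_T7M := by
  intro O C X _ _ _ _ _ _ _ _ _ _ _ _ A θ hP v₀ hv₀ j
  obtain ⟨d, hd⟩ := hP.iso
  obtain ⟨hZ, -, hZJ, ⟨d', hd'⟩, -⟩ := hAUT C X (JJ A θ) d hd v₀ hv₀
  have hAtc : IsClosed (At A θ (orb v₀) j) := closed_At hP.min.closed hP.cont hZ.closed j
  have hAti : AK.Inv (At A θ (orb v₀) j) := inv_At hP.min.inv hP.equi hZ.inv j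
  have hAtn : (At A θ (orb v₀) j).Nonempty := by
    obtain ⟨⟨u, x⟩, hux, he⟩ := hv₀.1 j
    have h1 : θ (u, x) = v₀.2 j := congrArg Prod.fst he
    have h2 : x = v₀.1 := congrArg Prod.snd he
    subst h2
    exact ⟨(u, v₀), (ORB_pf _ v₀).2.2.1, hux, h1⟩
  -- projections
  have hpr : Continuous fun p : O × (X × (ℕ → C)) => ((p.1, p.2.1) : O × X) :=
    continuous_fst.prodMk (continuous_fst.comp continuous_snd)
  have imA : ∀ L : Set (O × (X × (ℕ → C))), L ⊆ At A θ (orb v₀) j → IsClosed L → AK.Inv L →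
      L.Nonempty → (fun p : O × (X × (ℕ → C)) => ((p.1, p.2.1) : O × X)) '' L = A := by
    intro L hL hc hi hn
    refine image_eq_of_min hpr (fun n y => rfl) hc hi hn hP.min ?_
    rintro _ ⟨p, hp, rfl⟩
    exact (hL hp).2.1
  have imZ : ∀ L : Set (O × (X × (ℕ → C))), L ⊆ At A θ (orb v₀) j → IsClosed L → AK.Inv L →
      L.Nonempty → Prod.snd '' L = orb v₀ := by
    intro L hL hc hi hn
    refine image_eq_of_min continuous_snd (fun n y => rfl) hc hi hn hZ ?_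
    rintro _ ⟨p, hp, rfl⟩
    exact (hL hp).1
  refine ⟨?_, imZ _ subset_rfl hAtc hAti hAtn, imA _ subset_rfl hAtc hAti hAtn⟩
  -- a minimal subset
  obtain ⟨L, hL, hLm⟩ := ZORN_pf (O × (X × (ℕ → C))) (At A θ (orb v₀) j) hAtc hAtn hAti
  suffices h : At A θ (orb v₀) j ⊆ L by
    rw [h.antisymm hL]
    exact hLm
  let P : Set ((ℕ → C) × (O × X)) := {p | (p.2.1, (p.2.2, p.1)) ∈ L}
  have hPc : IsClosed P := by
    refine hLm.closed.preimage (f := fun p : (ℕ → C) × (O × X) =>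
      ((p.2.1, (p.2.2, p.1)) : O × (X × (ℕ → C)))) ?_
    exact (continuous_fst.comp continuous_snd).prodMk
      ((continuous_snd.comp continuous_snd).prodMk continuous_fst)
  have hPi : AK.Inv P := by
    rintro n ⟨t, u, x⟩ hp
    exact hLm.inv n (u, (x, t)) hp
  have hPA : Prod.snd '' P = A := by
    rw [← imA L hL hLm.closed hLm.inv hLm.ne]
    ext ⟨u, x⟩
    constructor
    · rintro ⟨⟨t, q⟩, hp, he⟩
      have he' : q = (u, x) := he
      subst he'
      exact ⟨(u, (x, t)), hp, rfl⟩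
    · rintro ⟨⟨u', x', t⟩, hp, he⟩
      have he' : (u', x') = (u, x) := he
      obtain ⟨rfl, rfl⟩ := Prod.mk.inj he'
      exact ⟨(t, (u', x')), hp, rfl⟩
  have hsub : ((fun p : (ℕ → C) × (O × X) => (p.1, p.2.2)) '' P) ⊆
      {p : (ℕ → C) × X | (p.2, p.1) ∈ orb v₀} := by
    rintro _ ⟨⟨t, u, x⟩, hp, rfl⟩
    exact (hL hp).1
  have hH := hHAU (ℕ → C) O X C A θ P d' hP.min hP.uni hPc hPi hPA (IPB.mono hd'.ipb hsub)
  rintro ⟨u, x, t⟩ ⟨h1, h2, h3⟩
  have h4 : (x, t) ∈ Prod.snd '' L := by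
    rw [imZ L hL hLm.closed hLm.inv hLm.ne]
    exact h1
  obtain ⟨⟨u', q⟩, hq, he⟩ := h4
  have he' : q = (x, t) := he
  subst he'
  have h5 := hL hq
  have h6 : θ (u', x) = θ (u, x) := by
    have h7 : θ (u', x) = t j := h5.2.2
    have h8 : θ (u, x) = t j := h3
    rw [h7, h8]
  obtain ⟨t', ht', hdt⟩ := hH x u' u t h5.2.1 h2 h6 hq
  have h9 : t = t' := hd'.sep x t t' (hL hq).1 (hL ht').1 hdt
  subst h9
  exact ht'

end Pool.Agent.Work.MP_69fea5_lc.W3
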