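import Pool.Agent.Work.MP_69fea5_lc.W3.StmtsT

/-! Item T7V: the frame is the universal isometric factor of `A` with the frame. -/

set_option autoImplicit false

namespace Pool.Agent.Work.MP_69fea5_lc.W3

open MeasureTheory Topology Set Filter TopologicalSpace
open scoped NNReal ENNReal
open Pool.Agent.Work.MP_69fea5_lc.AK

namespace I_T7V

/-- the graph of a factor map -/
lemma minSet_graph {Q X : Type} [TopologicalSpace Q] [CompactSpace Q] [T2Space Q] [Sys Q]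
    [TopologicalSpace X] [CompactSpace X] [T2Space X] [Sys X] {K : Set Q} (hK : MinSet K)
    (g : Q → X) (hg : Continuous g) (he : ∀ (n : ℤ) (q : Q), g (sh n q) = sh n (g q)) :
    MinSet {p : Q × X | p.1 ∈ K ∧ g p.1 = p.2} := by
  refine ⟨?_, ?_, ?_, ?_⟩
  · exact (hK.closed.preimage continuous_fst).inter
      (isClosed_eq (hg.comp continuous_fst) continuous_snd)
  · obtain ⟨q, hq⟩ := hK.ne
    exact ⟨(q, g q), hq, rfl⟩
  · intro n p hp
    refine ⟨hK.inv n _ hp.1, ?_⟩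
    change g (sh n p.1) = sh n p.2
    rw [he, hp.2]
  · intro L hL hne hinv hsub
    have h1 : Prod.fst '' L = K := by
      apply hK.min
      · exact (hL.isCompact.image continuous_fst).isClosed
      · exact hne.image _
      · rintro n _ ⟨p, hp, rfl⟩
        exact ⟨sh n p, hinv n p hp, rfl⟩
      · rintro _ ⟨p, hp, rfl⟩
        exact (hsub hp).1
    apply Subset.antisymm hsub
    intro p hp
    have h2 : p.1 ∈ Prod.fst '' L := by
      rw [h1]
      exact hp.1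
    obtain ⟨q, hq, hqp⟩ := h2
    have h3 : q = p := by
      refine Prod.ext hqp ?_
      rw [← (hsub hq).2, hqp, hp.2]
    rw [← h3]
    exact hq

end I_T7V

theorem T7V_pf (hHAU : S_HAU) (hAUT : S_AUT) (hT7M : S_T7M) : S_T7V := by
  intro O C X _ _ _ _ _ _ _ _ _ _ _ _ A θ hP v₀ hF j
  obtain ⟨hAt, hAt2, hAt3⟩ := hT7M O C X A θ hP v₀ hF j
  refine ⟨I_T7V.minSet_graph hAt (fun q : O × (X × (ℕ → C)) => q.2.1)
    (continuous_fst.comp continuous_snd) (fun n q => rfl), ?_⟩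
  intro ρ hρ x u u' hu hu' huu
  obtain ⟨d, hd⟩ := hP.iso
  obtain ⟨_, _, _, ⟨d', hd'⟩, _⟩ := hAUT C X (JJ A θ) d hd v₀ hF
  -- the extension of `A`
  obtain ⟨P, hPdef⟩ : ∃ P : Set ((O × (X × (ℕ → C))) × (O × X)),
      P = {p | p.1 ∈ At A θ (orb v₀) j ∧ p.1.1 = p.2.1 ∧ p.1.2.1 = p.2.2} := ⟨_, rfl⟩
  have hPc : IsClosed P := by
    rw [hPdef]
    exact (hAt.closed.preimage continuous_fst).inter
      ((isClosed_eq (continuous_fst.comp continuous_fst)
        (continuous_fst.comp continuous_snd)).inter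
      (isClosed_eq (continuous_fst.comp (continuous_snd.comp continuous_fst))
        (continuous_snd.comp continuous_snd)))
  have hPi : AK.Inv P := by
    rw [hPdef]
    intro n p hp
    refine ⟨hAt.inv n _ hp.1, ?_, ?_⟩
    · change sh n p.1.1 = sh n p.2.1
      rw [hp.2.1]
    · change sh n p.1.2.1 = sh n p.2.2
      rw [hp.2.2]
  have hPA : Prod.snd '' P = A := by
    refine Eq.trans ?_ hAt3
    rw [hPdef]
    ext p
    constructor
    · rintro ⟨q, hq, rfl⟩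
      exact ⟨q.1, hq.1, Prod.ext hq.2.1 hq.2.2⟩
    · rintro ⟨q, hq, rfl⟩
      exact ⟨(q, (q.1, q.2.1)), ⟨hq, rfl, rfl⟩, rfl⟩
  have hPim : (fun p : (O × (X × (ℕ → C))) × (O × X) => (p.1, p.2.2)) '' P =
      {p : (O × (X × (ℕ → C))) × X | p.1 ∈ At A θ (orb v₀) j ∧ p.1.2.1 = p.2} := by
    rw [hPdef]
    ext p
    constructor
    · rintro ⟨q, hq, rfl⟩
      exact ⟨hq.1, hq.2.2⟩
    · intro hp
      exact ⟨(p.1, (p.1.1, p.2)), ⟨hp.1, rfl, hp.2⟩, rfl⟩
  -- membership in the frames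
  have hZ : ∀ (q : O × (X × (ℕ → C))) (y : X), q ∈ At A θ (orb v₀) j → q.2.1 = y →
      (q.2.2, y) ∈ {p : (ℕ → C) × X | (p.2, p.1) ∈ orb v₀} := by
    intro q y hq hy
    subst hy
    exact hq.1
  have hI : IPB ((fun p : (O × (X × (ℕ → C))) × (O × X) => (p.1, p.2.2)) '' P)
      (fun a b y => ρ a b y + d' a.2.2 b.2.2 y) := by
    rw [hPim]
    refine ⟨?_, ?_, ?_, ?_, ?_, ?_⟩
    · refine hρ.cont.add ?_
      have hc : Continuous fun p : (O × (X × (ℕ → C))) × (O × (X × (ℕ → C))) × X =>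
          (p.1.2.2, p.2.1.2.2, p.2.2) := by fun_prop
      exact hd'.ipb.cont.comp hc.continuousOn fun p hp =>
        ⟨hZ _ _ hp.1.1 hp.1.2, hZ _ _ hp.2.1 hp.2.2⟩
    · intro n y a b ha hb
      have e1 := hρ.inv n y a b ha hb
      have e2 := hd'.ipb.inv n y _ _ (hZ _ _ ha.1 ha.2) (hZ _ _ hb.1 hb.2)
      change ρ (sh n a) (sh n b) (sh n y) + d' (sh n a.2.2) (sh n b.2.2) (sh n y) = _
      rw [e1, e2]
    · intro y a ha
      simp only [hρ.self y a ha, hd'.ipb.self y _ (hZ _ _ ha.1 ha.2), add_zero]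
    · intro y a b ha hb
      exact add_nonneg (hρ.nonneg y a b ha hb)
        (hd'.ipb.nonneg y _ _ (hZ _ _ ha.1 ha.2) (hZ _ _ hb.1 hb.2))
    · intro y a b ha hb
      simp only [hρ.symm y a b ha hb,
        hd'.ipb.symm y _ _ (hZ _ _ ha.1 ha.2) (hZ _ _ hb.1 hb.2)]
    · intro y a b c ha hb hc
      have e1 := hρ.tri y a b c ha hb hc
      have e2 := hd'.ipb.tri y _ _ _ (hZ _ _ ha.1 ha.2) (hZ _ _ hb.1 hb.2)
        (hZ _ _ hc.1 hc.2)
      change ρ a c y + d' a.2.2 c.2.2 y ≤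
        (ρ a b y + d' a.2.2 b.2.2 y) + (ρ b c y + d' b.2.2 c.2.2 y)
      linarith
  have hu1 : u.2.1 = x := hu.2
  have hu1' : u'.2.1 = x := hu'.2
  have huu2 : u.2 = u'.2 := huu
  have hA : (u.1, x) ∈ A := by
    rw [← hu1]
    exact hu.1.2.1
  have hA' : (u'.1, x) ∈ A := by
    rw [← hu1']
    exact hu'.1.2.1
  have hθ : θ (u.1, x) = θ (u'.1, x) := by
    have e1 : θ (u.1, u.2.1) = u.2.2 j := hu.1.2.2
    have e2 : θ (u'.1, u'.2.1) = u'.2.2 j := hu'.1.2.2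
    rw [hu1] at e1
    rw [hu1'] at e2
    rw [e1, e2, huu2]
  have huP : (u, (u.1, x)) ∈ P := by
    rw [hPdef]
    exact ⟨hu.1, rfl, hu1⟩
  obtain ⟨q', hq', hq0⟩ := hHAU (O × (X × (ℕ → C))) O X C A θ P
    (fun a b y => ρ a b y + d' a.2.2 b.2.2 y) hP.min hP.uni hPc hPi hPA hI
    x u.1 u'.1 u hA hA' hθ huP
  rw [hPdef] at hq'
  obtain ⟨hq1, hq2, hq3⟩ := hq'
  have hq2' : q'.1 = u'.1 := hq2
  have hq3' : q'.2.1 = x := hq3
  have hq0' : ρ u q' x + d' u.2.2 q'.2.2 x = 0 := hq0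
  have n1 : 0 ≤ ρ u q' x := hρ.nonneg x u q' hu ⟨hq1, hq3'⟩
  have n2 : 0 ≤ d' u.2.2 q'.2.2 x :=
    hd'.ipb.nonneg x _ _ (hZ _ _ hu.1 hu1) (hZ _ _ hq1 hq3')
  have z1 : ρ u q' x = 0 := by linarith
  have z2 : d' u.2.2 q'.2.2 x = 0 := by linarith
  have z3 : u.2.2 = q'.2.2 := hd'.sep x _ _ (hZ _ _ hu.1 hu1) (hZ _ _ hq1 hq3') z2
  have hqu : q' = u' := by
    refine Prod.ext hq2' (Prod.ext ?_ ?_)
    · rw [hq3', hu1']
    · rw [← z3, huu2]
  rw [← hqu]
  exact z1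

end Pool.Agent.Work.MP_69fea5_lc.W3
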