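import Pool.Agent.Work.MP_69fea5_lc.W3.StmtsM

/-!
# Block [69fea5 M], item TDF: first facts on the data of the step
-/

set_option autoImplicit false

namespace Pool.Agent.Work.MP_69fea5_lc.W3

open MeasureTheory Topology Set Filter TopologicalSpace
open scoped NNReal ENNReal
open Pool.Agent.Work.MP_69fea5_lc.AK
open Pool.Agent.Work.MP_69fea5_lc.HK (Cl DU Ar ArF ArR Dat Law LawC act near sc Pt oc Mn mr ext)
open Pool.Agent.Work.MP_69fea5_lc.KC (Agree)

namespace I_TDF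

theorem orb_sub {X : Type} [TopologicalSpace X] [Sys X] {x : X} {K : Set X} (hK : IsClosed K)
    (hi : AK.Inv K) (hx : x ∈ K) : orb x ⊆ K :=
  closure_minimal (by rintro _ ⟨n, rfl⟩; exact hi n x hx) hK

theorem orb_closed {X : Type} [TopologicalSpace X] [Sys X] (x : X) : IsClosed (orb x) :=
  isClosed_closure

theorem orb_inv {X : Type} [TopologicalSpace X] [Sys X] (x : X) : AK.Inv (orb x) := by
  intro n y hy
  have h1 : MapsTo (sh n : X → X) (Set.range fun n : ℤ => sh n x)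
      (Set.range fun n : ℤ => sh n x) := by
    rintro _ ⟨m, rfl⟩
    exact ⟨n + m, sh_add n m x⟩
  exact h1.closure (sh_cont n) hy

theorem one_mono {O : Type} [MeasurableSpace O] [TopologicalSpace O] (m : ProbabilityMeasure O)
    {B B' : Set O} (h : m B = 1) (hs : B ⊆ B') : m B' = 1 :=
  le_antisymm (m.apply_le_one B') (h ▸ m.apply_mono hs)

/-- measures carried by the fibres of a closed invariant set -/
theorem carried (hFAM : S_FAM) (hFDL : S_FDL) (O X : Type) [TopologicalSpace O]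
    [MeasurableSpace O] [CS O] [Sys O] [TopologicalSpace X] [MeasurableSpace X] [CS X] [Sys X]
    (A : Set (O × X)) (hA : IsClosed A) (hi : AK.Inv A) (p : X × ProbabilityMeasure O)
    (hp : p.2 {u | (u, p.1) ∈ A} = 1) : ∀ p' ∈ orb p, p'.2 {u | (u, p'.1) ∈ A} = 1 := by
  obtain ⟨a1, a2, -, a4⟩ := hFDL O X A hA hi
  obtain ⟨b1, b2, -⟩ := hFAM O X (Dlt A) a1 a2
  rw [a4] at b1 b2
  exact fun p' hp' => orb_sub b1 b2 hp hp'

end I_TDF

open I_TDF in
theorem TDF_pf (hULT : S_ULT) (hBC2 : S_BC2) (hBCF : S_BCF) (hT7M : S_T7M) (hFAM : S_FAM)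
    (hFDL : S_FDL) : S_TDF := by
  intro S k c j X _ _ _ _ _ A x A₁ v A₂ w m₃ l₀ AE h
  have g1 : BCh (A1t A₁ v) (orb (w.1, l₀)) qE AE :=
    hBC2 (Om k) (WF k X) (WF k X × PM k) (XE k X) (A1t A₁ v) (orb w.1) Prod.fst A₂
      (orb (w.1, l₀)) Prod.fst AE h.l2.bch h.bch
  obtain ⟨-, t2, -⟩ := hT7M (Om k) (CPh k) (X × PM k) A₁ (th v.1) h.l1.pha v h.l1.frm 0
  have hbase : qE '' orb (w.1, l₀) = orb v := by
    rw [← g1.base]
    exact t2
  obtain ⟨-, c2, -⟩ := hBCF (Om k) (WF k X) (XE k X) (A1t A₁ v) (orb (w.1, l₀)) qE AE g1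
  have hone : ∀ e ∈ orb (w.1, l₀), e.2 {u | (u, qE e) ∈ At A₁ (th v.1) (orb v) 0} = 1 := by
    intro e he
    rw [← c2] at he
    obtain ⟨⟨u, e'⟩, hue, rfl⟩ := he
    exact one_mono _ (h.lev.one _ hue) fun u' hu' => (g1.sub hu').2
  obtain ⟨-, -, u3⟩ := hULT (XE k X)
  obtain ⟨f1, f2, -⟩ := hFAM (Om k) (WF k X × PM k) (orb (w.1, m₃)) (orb_closed _) (orb_inv _)
  refine ⟨g1, ⟨h.l1.lev, h.l1.pha, h.l1.frm, g1.spx, hbase, continuous_snd, fun _ _ => rfl, hone⟩,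
    ⟨h.l2.bch, h.l2.lev, h.l2.pha.uni, continuous_fst, fun _ _ => rfl, fun _ => rfl, ?_⟩, ?_, ?_⟩
  · exact u3 (WF k X × PM k) Prod.fst inferInstance continuous_fst (fun _ _ => rfl) (w.1, l₀)
  · intro e he
    refine ⟨orb_sub f1 f2 h.aaf.1 he, hbase ▸ mem_image_of_mem _ he, ?_⟩
    exact one_mono _ (hone e he) fun u hu => (h.l1.bch.sub hu.2.1).2
  · intro y m hym
    obtain ⟨-, -, v3⟩ := hULT (WF k (WF k X) × PM k)
    have e1 := v3 ((WF k X × PM k) × PM k) (fun p => (p.1.1, p.2)) inferInstance (by fun_prop)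
      (fun _ _ => rfl) (w, m₃)
    have e2 := v3 (WF k (WF k X)) Prod.fst inferInstance (by fun_prop) (fun _ _ => rfl) (w, m₃)
    have e3 : (y, m) ∈ (fun p : WF k (WF k X) × PM k => (p.1.1, p.2)) '' orb (w, m₃) := by
      rw [e1]
      exact hym
    obtain ⟨⟨w', m'⟩, hw, heq⟩ := e3
    obtain ⟨rfl, rfl⟩ := Prod.mk.inj heq
    refine ⟨w', rfl, hw, ?_, ?_⟩
    · have : w' ∈ Prod.fst '' orb (w, m₃) := ⟨(w', m'), hw, rfl⟩
      rw [e2] at this
      exact this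
    · exact carried hFAM hFDL (Om k) (WF k (WF k X)) (A1t A₂ w) h.l2.cb2.min.closed
        h.l2.cb2.min.inv (w, m₃) h.one3 (w', m') hw

end Pool.Agent.Work.MP_69fea5_lc.W3
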