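import Pool.Agent.Work.MP_69fea5_lc.W3.StmtsM

/-!
Block [69fea5 F], main line, item TDX: the data of the step exist.
-/

set_option autoImplicit false

namespace Pool.Agent.Work.MP_69fea5_lc.W3

open MeasureTheory Topology Set Filter TopologicalSpace
open scoped NNReal ENNReal
open Pool.Agent.Work.MP_69fea5_lc.AK
open Pool.Agent.Work.MP_69fea5_lc.HK (Cl DU Ar ArF ArR Dat Law LawC act near sc Pt oc Mn mr ext)
open Pool.Agent.Work.MP_69fea5_lc.KC (Agree)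

theorem TDX_pf (hFRC : S_FRC) (hLXC : S_LXC) (hLXL : S_LXL) : S_TDX := by
  intro S U hS hU k c hc j hPsi X _ _ _ _ _ A x hcb
  obtain ⟨A₁, v, h1⟩ := hFRC S U hS hU k c hc X A x hcb
  obtain ⟨A₂, w, h2⟩ := hFRC S U hS hU k c hc (WF k X) (A1t A₁ v) v h1.cb2
  obtain ⟨m₃, hm3, hone, hpsi⟩ := hPsi (WF k (WF k X)) (A1t A₂ w) w h2.cb2
  have hmin : MinSet (orb w.1) := h2.bch.spx.min
  obtain ⟨l₀, hl0, haaf, hlm⟩ := hLXC S U hS hU k (WF k X × PM k) w.1 m₃ h2.cb1.pt hm3 hmin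
  have hone' : m₃ {u | (u, w.1) ∈ A₂} = 1 := by
    apply le_antisymm (m₃.apply_le_one _)
    rw [← hone]
    exact ProbabilityMeasure.apply_mono m₃ fun u hu => hu.2.1
  obtain ⟨AE, hb, hlev, -, -⟩ := hLXL S U hS hU k c hc (WF k X × PM k) A₂ w.1 m₃ l₀ h2.cb1 hone'
    hl0 haaf hlm
  exact ⟨A₁, v, A₂, w, m₃, l₀, AE, h1, h2, hm3, hone, hpsi, hl0, haaf, hb, hlev⟩

end Pool.Agent.Work.MP_69fea5_lc.W3
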