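import Pool.Agent.Work.MP_69fea5_lc.W3.StmtsT

/-!
Block [69fea5 T], item THC: the universal phase is continuous and equivariant.
-/

set_option autoImplicit false

namespace Pool.Agent.Work.MP_69fea5_lc.W3

open MeasureTheory Topology Set Filter TopologicalSpace
open scoped NNReal ENNReal
open Pool.Agent.Work.MP_69fea5_lc.AK

namespace I_THC

variable {k : ℕ} {X κ : Type} [TopologicalSpace X] [Sys X]

theorem mem_RL_sh (hCYL : AK.S_CYL) (V : κ → Set X) (L : List (Wd k × Wd k × κ)) (u u' : Om k)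
    (x : X) (m : ℤ) : sh m u' ∈ RL V L (sh m u) (sh m x) ↔ u' ∈ RL V L u x := by
  have hc := (hCYL k).2.1
  constructor
  · intro h n q hq hn
    refine h (n - m) q hq ⟨?_, ?_, ?_⟩
    · rw [hc]; simpa using hn.1
    · rw [hc]; simpa using hn.2.1
    · rw [← sh_add]; simpa using hn.2.2
  · intro h n q hq hn
    refine h (n + m) q hq ⟨?_, ?_, ?_⟩
    · rw [← hc]; exact hn.1
    · rw [← hc]; exact hn.2.1
    · rw [sh_add]; exact hn.2.2

end I_THC

open I_THC in
theorem THC_pf (hCYL : AK.S_CYL) (hPMB : AK.S_PMB) (hMCM : S_MCM) (hRLB : S_RLB) : S_THC := by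
  intro k X κ _ _ _ _ _ V A ms hL hV
  have hB : AK.Inv (Prod.snd '' A) := by
    rintro n x ⟨p, hp, rfl⟩
    exact ⟨sh n p, hL.min.inv n p hp, rfl⟩
  have hR := (hRLB k X κ V (Prod.snd '' A) hV hB).1
  refine ⟨?_, ?_⟩
  · refine continuousOn_pi.2 fun i => continuousOn_pi.2 fun n => ?_
    obtain ⟨hRc, hRi⟩ := hR i.1
    obtain ⟨-, h2, -, -⟩ := hMCM (Om k) (Om k) X A ms
      {p : Om k × Om k × X | p.2.1 ∈ RL V i.1 p.1 p.2.2} hL.min hL.cont hL.equi hRc hRi
    have hcl := (hCYL k).1 i.2 n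
    have h3 := h2 ((cyl i.2 n).indicator fun _ => (1 : ℝ))
      (hcl.continuous_indicator continuous_const)
    refine (IsInducing.subtypeVal.continuousOn_iff).2 (h3.congr fun p hp => ?_)
    have hm : MeasurableSet {q : Om k | (p.1, q, p.2) ∈
        {p : Om k × Om k × X | p.2.1 ∈ RL V i.1 p.1 p.2.2}} := by
      have : IsClosed {q : Om k | (p.1, q, p.2) ∈
          {p : Om k × Om k × X | p.2.1 ∈ RL V i.1 p.1 p.2.2}} :=
        hRc.preimage (by fun_prop)
      exact this.measurableSet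
    change ((ms p.2 (cyl i.2 n ∩ RL V i.1 p.1 p.2) : ℝ≥0) : ℝ) =
      ∫ q in {q : Om k | (p.1, q, p.2) ∈ {p : Om k × Om k × X | p.2.1 ∈ RL V i.1 p.1 p.2.2}},
        (cyl i.2 n).indicator (fun _ => (1 : ℝ)) q ∂(ms p.2 : Measure (Om k))
    rw [setIntegral_indicator hcl.isOpen.measurableSet, setIntegral_const, smul_eq_mul, mul_one,
      inter_comm]
    rfl
  · rintro ⟨u, x⟩ hp n
    funext i m
    change toI (ms (sh n x)) (cyl i.2 m ∩ RL V i.1 (sh n u) (sh n x)) =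
      toI (ms x) (cyl i.2 (m + n) ∩ RL V i.1 u x)
    apply Subtype.ext
    have hpre : {z : Om k | sh n z ∈ cyl i.2 m ∩ RL V i.1 (sh n u) (sh n x)} =
        cyl i.2 (m + n) ∩ RL V i.1 u x := by
      ext z
      constructor
      · rintro ⟨h1, h2⟩
        exact ⟨((hCYL k).2.1 _ _ _ _).1 h1, (mem_RL_sh hCYL V i.1 u z x n).1 h2⟩
      · rintro ⟨h1, h2⟩
        exact ⟨((hCYL k).2.1 _ _ _ _).2 h1, (mem_RL_sh hCYL V i.1 u z x n).2 h2⟩
    obtain ⟨hRc, -⟩ := hR i.1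
    have hm : MeasurableSet (cyl i.2 m ∩ RL V i.1 (sh n u) (sh n x)) := by
      refine ((hCYL k).1 i.2 m).isOpen.measurableSet.inter ?_
      have : IsClosed {q : Om k | (sh n u, q, sh n x) ∈
          {p : Om k × Om k × X | p.2.1 ∈ RL V i.1 p.1 p.2.2}} :=
        hRc.preimage (by fun_prop)
      exact this.measurableSet
    change ((ms (sh n x) (cyl i.2 m ∩ RL V i.1 (sh n u) (sh n x)) : ℝ≥0) : ℝ) =
      ((ms x (cyl i.2 (m + n) ∩ RL V i.1 u x) : ℝ≥0) : ℝ)
    rw [hL.equi n x, (hPMB k).1 _ n _ hm, hpre]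

end Pool.Agent.Work.MP_69fea5_lc.W3
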