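import Pool.Agent.Work.MP_69fea5_lc.W3.StmtsT

set_option autoImplicit false

namespace Pool.Agent.Work.MP_69fea5_lc.W3

open MeasureTheory Topology Set Filter TopologicalSpace
open scoped NNReal ENNReal
open Pool.Agent.Work.MP_69fea5_lc.AK

namespace I_THM

theorem cont_of_lift {Y Z : Type} [TopologicalSpace Y] [TopologicalSpace Z] [T2Space Z]
    (K : Set Y) (hK : IsCompact K) (π : Y → Z) (hπ : ContinuousOn π K) (G : Y → ℝ)
    (hG : ContinuousOn G K) (d : Z → ℝ) (hd : ∀ y ∈ K, d (π y) = G y) :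
    ContinuousOn d (π '' K) := by
  intro z hz
  rw [ContinuousWithinAt, tendsto_iff_ultrafilter]
  intro U hU
  have hch : ∀ z' : Z, ∃ y, z' ∈ π '' K → y ∈ K ∧ π y = z' := by
    intro z'
    by_cases h : z' ∈ π '' K
    · obtain ⟨y, hy, hyz⟩ := h
      exact ⟨y, fun _ => ⟨hy, hyz⟩⟩
    · obtain ⟨y, _, _⟩ := hz
      exact ⟨y, fun h' => absurd h' h⟩
  choose s hs using hch
  have hUK : ∀ᶠ z' in (U : Filter Z), z' ∈ π '' K :=
    (hU.trans inf_le_right) (mem_principal_self _)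
  have hUz : (U : Filter Z) ≤ 𝓝 z := hU.trans inf_le_left
  have h1 : ((U.map s : Ultrafilter Y) : Filter Y) ≤ 𝓟 K := by
    rw [le_principal_iff]
    exact hUK.mono fun z' h => (hs z' h).1
  obtain ⟨y, hyK, hy⟩ := hK.ultrafilter_le_nhds (U.map s) h1
  have hyt : Tendsto s (U : Filter Z) (𝓝[K] y) :=
    tendsto_nhdsWithin_iff.2 ⟨hy, hUK.mono fun z' h => (hs z' h).1⟩
  have h2 : Tendsto (fun z' => π (s z')) (U : Filter Z) (𝓝 (π y)) := (hπ y hyK).tendsto.comp hyt
  have h3 : Tendsto (fun z' => π (s z')) (U : Filter Z) (𝓝 z) := by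
    refine Tendsto.congr' ?_ (show Tendsto id (U : Filter Z) (𝓝 z) from hUz)
    exact hUK.mono fun z' h => (hs z' h).2.symm
  have hyz : π y = z := tendsto_nhds_unique h2 h3
  have h4 : Tendsto (fun z' => G (s z')) (U : Filter Z) (𝓝 (G y)) := (hG y hyK).tendsto.comp hyt
  rw [← hyz, hd y hyK]
  refine h4.congr' ?_
  exact hUK.mono fun z' h => by
    change G (s z') = d z'
    rw [← hd _ (hs z' h).1, (hs z' h).2]

section

variable {k : ℕ}

theorem restr_eq (hPMB : AK.S_PMB) (m : PM k) (A B : Set (Om k)) (hA : MeasurableSet A)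
    (hB : MeasurableSet B) (h : ∀ w : Wd k, m (cyl w 0 ∩ A) = m (cyl w 0 ∩ B)) (E : Set (Om k))
    (_hE : MeasurableSet E) : (m : Measure (Om k)) (E ∩ A) = (m : Measure (Om k)) (E ∩ B) := by
  have hc : (cyl ([] : Wd k) 0 : Set (Om k)) = univ := by
    ext z
    simp [cyl]
  have h' : ∀ w : Wd k, (m : Measure (Om k)) (cyl w 0 ∩ A) = (m : Measure (Om k)) (cyl w 0 ∩ B) := by
    intro w
    rw [← ProbabilityMeasure.ennreal_coeFn_eq_coeFn_toMeasure,
      ← ProbabilityMeasure.ennreal_coeFn_eq_coeFn_toMeasure, h w]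
  have hAB : (m : Measure (Om k)) A = (m : Measure (Om k)) B := by
    have := h' []
    rwa [hc, univ_inter, univ_inter] at this
  by_cases h0 : (m : Measure (Om k)) A = 0
  · rw [measure_mono_null inter_subset_right h0,
      measure_mono_null inter_subset_right (hAB ▸ h0)]
  · have h0B : (m : Measure (Om k)) B ≠ 0 := hAB ▸ h0
    have hpA := ProbabilityTheory.cond_isProbabilityMeasure (μ := (m : Measure (Om k))) h0
    have hpB := ProbabilityTheory.cond_isProbabilityMeasure (μ := (m : Measure (Om k))) h0B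
    set mA : PM k := ⟨ProbabilityTheory.cond (m : Measure (Om k)) A, hpA⟩ with hmA
    set mB : PM k := ⟨ProbabilityTheory.cond (m : Measure (Om k)) B, hpB⟩ with hmB
    have heq : mA = mB := by
      refine (hPMB k).2.2.2.1 mA mB fun w => ?_
      have h1 : (mA : Measure (Om k)) (cyl w 0) = (mB : Measure (Om k)) (cyl w 0) := by
        change ProbabilityTheory.cond (m : Measure (Om k)) A (cyl w 0) =
          ProbabilityTheory.cond (m : Measure (Om k)) B (cyl w 0)
        rw [ProbabilityTheory.cond_apply hA, ProbabilityTheory.cond_apply hB, hAB,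
          inter_comm A, inter_comm B, h' w]
      rw [← ProbabilityMeasure.ennreal_coeFn_eq_coeFn_toMeasure,
        ← ProbabilityMeasure.ennreal_coeFn_eq_coeFn_toMeasure] at h1
      exact_mod_cast h1
    have h2 : ProbabilityTheory.cond (m : Measure (Om k)) A E =
        ProbabilityTheory.cond (m : Measure (Om k)) B E := by
      have := congrArg (fun q : PM k => (q : Measure (Om k)) E) heq
      exact this
    rw [ProbabilityTheory.cond_apply hA, ProbabilityTheory.cond_apply hB, hAB,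
      inter_comm A, inter_comm B] at h2
    exact (ENNReal.mul_right_inj (ENNReal.inv_ne_zero.2 (measure_ne_top _ _))
      (ENNReal.inv_ne_top.2 h0B)).1 h2

variable {X κ : Type} [TopologicalSpace X] [MeasurableSpace X] [CS X] [Sys X] [Encodable κ]

/-- the mass of the symmetric difference -/
noncomputable def gg (V : κ → Set X) (ms : X → PM k) (L : List (Wd k × Wd k × κ))
    (u u' : Om k) (x : X) : ℝ :=
  (ms x {q | q ∈ RL V L u x ∧ q ∉ RL V L u' x} : ℝ) +
    (ms x {q | q ∈ RL V L u' x ∧ q ∉ RL V L u x} : ℝ)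

theorem gg_le (V : κ → Set X) (ms : X → PM k) (L : List (Wd k × Wd k × κ))
    (u u' : Om k) (x : X) : gg V ms L u u' x ≤ 2 := by
  have h : ∀ B : Set (Om k), (ms x B : ℝ) ≤ 1 := fun B => by
    exact_mod_cast (ms x).apply_le_one B
  unfold gg
  linarith [h {q | q ∈ RL V L u x ∧ q ∉ RL V L u' x}, h {q | q ∈ RL V L u' x ∧ q ∉ RL V L u x}]

theorem gg_nn (V : κ → Set X) (ms : X → PM k) (L : List (Wd k × Wd k × κ))
    (u u' : Om k) (x : X) : 0 ≤ gg V ms L u u' x :=
  add_nonneg (NNReal.coe_nonneg _) (NNReal.coe_nonneg _)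

/-- the weights -/
noncomputable def wL (L : List (Wd k × Wd k × κ)) : ℝ := (1 / 2) ^ Encodable.encode L

theorem wL_sum : Summable (wL : List (Wd k × Wd k × κ) → ℝ) := summable_geometric_two_encode

theorem wL_pos (L : List (Wd k × Wd k × κ)) : 0 < wL L := by
  unfold wL
  positivity

/-- the metric, upstairs -/
noncomputable def GS (V : κ → Set X) (ms : X → PM k) (u u' : Om k) (x : X) : ℝ :=
  ∑' L, wL L * gg V ms L u u' x

theorem GS_sum (V : κ → Set X) (ms : X → PM k) (u u' : Om k) (x : X) :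
    Summable fun L => wL L * gg V ms L u u' x := by
  refine Summable.of_nonneg_of_le (fun L => mul_nonneg (wL_pos L).le (gg_nn _ _ _ _ _ _))
    (fun L => mul_le_mul_of_nonneg_left (gg_le V ms L u u' x) (wL_pos L).le) ?_
  exact (wL_sum (k := k) (κ := κ)).mul_right 2

theorem GS_ipb (V : κ → Set X) (ms : X → PM k) (A : Set (Om k × X))
    (h : ∀ L, IPB A (gg V ms L)) : IPB A (GS V ms) where
  cont := by
    refine continuousOn_tsum (u := fun L => wL L * 2) (fun L => ?_)
      ((wL_sum (k := k) (κ := κ)).mul_right 2) ?_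
    · exact continuousOn_const.mul (h L).cont
    · intro L p _
      rw [Real.norm_eq_abs, abs_of_nonneg (mul_nonneg (wL_pos L).le (gg_nn _ _ _ _ _ _))]
      exact mul_le_mul_of_nonneg_left (gg_le _ _ _ _ _ _) (wL_pos L).le
  inv := by
    intro n x u u' hu hu'
    unfold GS
    congr 1
    funext L
    rw [(h L).inv n x u u' hu hu']
  self := by
    intro x u hu
    unfold GS
    have : (fun L => wL L * gg V ms L u u x) = fun _ => 0 := by
      funext L
      rw [(h L).self x u hu, mul_zero]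
    rw [this, tsum_zero]
  nonneg := by
    intro x u u' _ _
    exact tsum_nonneg fun L => mul_nonneg (wL_pos L).le (gg_nn _ _ _ _ _ _)
  symm := by
    intro x u u' hu hu'
    unfold GS
    congr 1
    funext L
    rw [(h L).symm x u u' hu hu']
  tri := by
    intro x u u' u'' hu hu' hu''
    unfold GS
    rw [← (GS_sum V ms u u' x).tsum_add (GS_sum V ms u' u'' x)]
    refine (GS_sum V ms u u'' x).tsum_le_tsum (fun L => ?_)
      ((GS_sum V ms u u' x).add (GS_sum V ms u' u'' x))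
    rw [← mul_add]
    exact mul_le_mul_of_nonneg_left ((h L).tri x u u' u'' hu hu' hu'') (wL_pos L).le

theorem GS_zero (V : κ → Set X) (ms : X → PM k) (u u' : Om k) (x : X) :
    GS V ms u u' x = 0 ↔ ∀ L, gg V ms L u u' x = 0 := by
  constructor
  · intro h L
    have hs := (GS_sum V ms u u' x).hasSum
    have h' : ∑' L, wL L * gg V ms L u u' x = 0 := h
    rw [h'] at hs
    have h1 := (hasSum_zero_iff_of_nonneg (fun L => mul_nonneg (wL_pos L).le
      (gg_nn V ms L u u' x))).1 hs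
    have h2 := congrFun h1 L
    rcases mul_eq_zero.1 h2 with h3 | h3
    · exact absurd h3 (wL_pos L).ne'
    · exact h3
  · intro h
    unfold GS
    have : (fun L => wL L * gg V ms L u u' x) = fun _ => 0 := by
      funext L
      rw [h L, mul_zero]
    rw [this, tsum_zero]

theorem gg_zero_iff (V : κ → Set X) (ms : X → PM k) (L : List (Wd k × Wd k × κ))
    (u u' : Om k) (x : X) : gg V ms L u u' x = 0 ↔
      (ms x : Measure (Om k)) {q | q ∈ RL V L u x ∧ q ∉ RL V L u' x} = 0 ∧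
      (ms x : Measure (Om k)) {q | q ∈ RL V L u' x ∧ q ∉ RL V L u x} = 0 := by
  have key : ∀ B : Set (Om k), (ms x B : ℝ) = 0 ↔ (ms x : Measure (Om k)) B = 0 := by
    intro B
    rw [← ProbabilityMeasure.ennreal_coeFn_eq_coeFn_toMeasure]
    simp
  unfold gg
  rw [add_eq_zero_iff_of_nonneg (NNReal.coe_nonneg _) (NNReal.coe_nonneg _), key, key]

theorem th_apply (V : κ → Set X) (ms : X → PM k) (u : Om k) (x : X) (i : IxT k κ) (n : ℤ) :
    ((Th V ms (u, x) i n : unitInterval) : ℝ) = (ms x (cyl i.2 n ∩ RL V i.1 u x) : ℝ) := rfl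

theorem gg_of_th (hPMB : AK.S_PMB) (V : κ → Set X) (ms : X → PM k)
    (L : List (Wd k × Wd k × κ)) (u u' : Om k) (x : X)
    (hm : MeasurableSet (RL V L u x)) (hm' : MeasurableSet (RL V L u' x))
    (h : Th V ms (u, x) = Th V ms (u', x)) : gg V ms L u u' x = 0 := by
  have h1 : ∀ w : Wd k, ms x (cyl w 0 ∩ RL V L u x) = ms x (cyl w 0 ∩ RL V L u' x) := by
    intro w
    have h2 := congrArg (fun y : Cube (IxT k κ) => ((y (L, w) 0 : unitInterval) : ℝ)) h
    simp only [th_apply] at h2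
    exact_mod_cast h2
  have h3 := restr_eq hPMB (ms x) _ _ hm hm' h1
  rw [gg_zero_iff]
  constructor
  · have h4 := h3 (RL V L u' x)ᶜ hm'.compl
    rw [compl_inter_self, measure_empty] at h4
    have : {q | q ∈ RL V L u x ∧ q ∉ RL V L u' x} = (RL V L u' x)ᶜ ∩ RL V L u x := by
      ext q
      simp [and_comm]
    rw [this]
    exact h4
  · have h4 := h3 (RL V L u x)ᶜ hm.compl
    rw [compl_inter_self, measure_empty] at h4
    have : {q | q ∈ RL V L u' x ∧ q ∉ RL V L u x} = (RL V L u x)ᶜ ∩ RL V L u' x := by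
      ext q
      simp [and_comm]
    rw [this]
    exact h4.symm

theorem th_of_gg (V : κ → Set X) (ms : X → PM k) (u u' : Om k) (x : X)
    (h : ∀ L, gg V ms L u u' x = 0) : Th V ms (u, x) = Th V ms (u', x) := by
  funext i n
  apply Subtype.ext
  rw [th_apply, th_apply]
  obtain ⟨h1, h2⟩ := (gg_zero_iff V ms i.1 u u' x).1 (h i.1)
  have : (ms x : Measure (Om k)) (cyl i.2 n ∩ RL V i.1 u x) =
      (ms x : Measure (Om k)) (cyl i.2 n ∩ RL V i.1 u' x) := by
    apply le_antisymm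
    · calc (ms x : Measure (Om k)) (cyl i.2 n ∩ RL V i.1 u x)
          ≤ (ms x : Measure (Om k)) ((cyl i.2 n ∩ RL V i.1 u' x) ∪
            {q | q ∈ RL V i.1 u x ∧ q ∉ RL V i.1 u' x}) := by
            refine measure_mono fun q hq => ?_
            by_cases hq' : q ∈ RL V i.1 u' x
            · exact Or.inl ⟨hq.1, hq'⟩
            · exact Or.inr ⟨hq.2, hq'⟩
        _ ≤ _ := measure_union_le _ _
        _ = _ := by rw [h1, add_zero]
    · calc (ms x : Measure (Om k)) (cyl i.2 n ∩ RL V i.1 u' x)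
          ≤ (ms x : Measure (Om k)) ((cyl i.2 n ∩ RL V i.1 u x) ∪
            {q | q ∈ RL V i.1 u' x ∧ q ∉ RL V i.1 u x}) := by
            refine measure_mono fun q hq => ?_
            by_cases hq' : q ∈ RL V i.1 u x
            · exact Or.inl ⟨hq.1, hq'⟩
            · exact Or.inr ⟨hq.2, hq'⟩
        _ ≤ _ := measure_union_le _ _
        _ = _ := by rw [h2, add_zero]
  rw [← ProbabilityMeasure.ennreal_coeFn_eq_coeFn_toMeasure,
    ← ProbabilityMeasure.ennreal_coeFn_eq_coeFn_toMeasure] at this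
  exact_mod_cast this

open Classical in
/-- the metric of the phases -/
noncomputable def dd (V : κ → Set X) (ms : X → PM k) (A : Set (Om k × X))
    (t t' : Cube (IxT k κ)) (x : X) : ℝ :=
  if h : (∃ u, (u, x) ∈ A ∧ Th V ms (u, x) = t) ∧ (∃ u, (u, x) ∈ A ∧ Th V ms (u, x) = t') then
    GS V ms h.1.choose h.2.choose x else 0

theorem dd_eq (V : κ → Set X) (ms : X → PM k) (A : Set (Om k × X)) (hG : IPB A (GS V ms))
    (hz : ∀ x u u', (u, x) ∈ A → (u', x) ∈ A → Th V ms (u, x) = Th V ms (u', x) →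
      GS V ms u u' x = 0) (x : X) (u u' : Om k) (hu : (u, x) ∈ A) (hu' : (u', x) ∈ A) :
    dd V ms A (Th V ms (u, x)) (Th V ms (u', x)) x = GS V ms u u' x := by
  have h : (∃ v, (v, x) ∈ A ∧ Th V ms (v, x) = Th V ms (u, x)) ∧
      (∃ v, (v, x) ∈ A ∧ Th V ms (v, x) = Th V ms (u', x)) := ⟨⟨u, hu, rfl⟩, ⟨u', hu', rfl⟩⟩
  unfold dd
  rw [dif_pos h]
  set v := h.1.choose with hv
  set v' := h.2.choose with hv'
  obtain ⟨hv1, hv2⟩ := h.1.choose_spec
  obtain ⟨hv1', hv2'⟩ := h.2.choose_spec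
  rw [← hv] at hv1 hv2
  rw [← hv'] at hv1' hv2'
  have e1 : GS V ms v u x = 0 := hz x v u hv1 hu hv2
  have e2 : GS V ms v' u' x = 0 := hz x v' u' hv1' hu' hv2'
  have e1' : GS V ms u v x = 0 := by rw [hG.symm x u v hu hv1, e1]
  have e2' : GS V ms u' v' x = 0 := by rw [hG.symm x u' v' hu' hv1', e2]
  have t1 := hG.tri x v u v' hv1 hu hv1'
  have t2 := hG.tri x u u' v' hu hu' hv1'
  have t3 := hG.tri x u v u' hu hv1 hu'
  have t4 := hG.tri x v v' u' hv1 hv1' hu'
  linarith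

end

end I_THM

open I_THM in
theorem THM_pf (hMCM : S_MCM) (hRLB : S_RLB) (hTHC : S_THC) (hLEB : S_LEB)
    (hPMB : AK.S_PMB) : S_THM := by
  intro k X κ _ _ _ _ _ V A ms hL hV
  have hbase : MinSet (Prod.snd '' A) := (hLEB (Om k) X A ms hL).1
  obtain ⟨hTc, hTe⟩ := hTHC k X κ V A ms hL hV
  have hR := (hRLB k X κ V (Prod.snd '' A) hV hbase.inv).1
  have hRc : ∀ (L : List (Wd k × Wd k × κ)) (u : Om k) (x : X), MeasurableSet (RL V L u x) := by
    intro L u x
    have hc : Continuous fun q : Om k => ((u, q, x) : Om k × Om k × X) := by fun_prop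
    exact ((hR L).1.preimage hc).measurableSet
  have hg : ∀ L, IPB A (gg V ms L) := by
    intro L
    exact (hMCM (Om k) (Om k) X A ms {p | p.2.1 ∈ RL V L p.1 p.2.2} hL.min hL.cont hL.equi
      (hR L).1 (hR L).2).2.2.1
  have hG := GS_ipb V ms A hg
  have hz : ∀ x u u', (u, x) ∈ A → (u', x) ∈ A → Th V ms (u, x) = Th V ms (u', x) →
      GS V ms u u' x = 0 := by
    intro x u u' _ _ h
    rw [GS_zero]
    exact fun L => gg_of_th hPMB V ms L u u' x (hRc L u x) (hRc L u' x) h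
  have hd := dd_eq V ms A hG hz
  have hAc : IsCompact A := hL.min.closed.isCompact
  have hJ : IsClosed (JJ A (Th V ms)) := by
    have : ContinuousOn (fun p : Om k × X => (Th V ms p, p.2)) A :=
      hTc.prodMk continuous_snd.continuousOn
    exact (hAc.image_of_continuousOn this).isClosed
  have hsnd : Prod.snd '' JJ A (Th V ms) = Prod.snd '' A := by
    unfold JJ
    rw [image_image]
  refine ⟨dd V ms A, hJ, ?_, ?_, ⟨?_, ?_, ?_, ?_, ?_, ?_⟩, ?_⟩
  · rintro n _ ⟨p, hp, rfl⟩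
    refine ⟨sh n p, hL.min.inv n p hp, ?_⟩
    change (Th V ms (sh n p), (sh n p).2) = (sh n (Th V ms p), sh n p.2)
    rw [hTe p hp n]
    rfl
  · rw [hsnd]
    exact hbase
  · -- continuity
    set K : Set (Om k × Om k × X) := {p | (p.1, p.2.2) ∈ A ∧ (p.2.1, p.2.2) ∈ A} with hK
    have hKc : IsCompact K := by
      have h1 : IsClosed {p : Om k × Om k × X | (p.1, p.2.2) ∈ A} :=
        hL.min.closed.preimage (by fun_prop)
      have h2 : IsClosed {p : Om k × Om k × X | (p.2.1, p.2.2) ∈ A} :=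
        hL.min.closed.preimage (by fun_prop)
      exact (h1.inter h2).isCompact
    set π : Om k × Om k × X → Cube (IxT k κ) × Cube (IxT k κ) × X :=
      fun p => (Th V ms (p.1, p.2.2), Th V ms (p.2.1, p.2.2), p.2.2) with hπ
    have hπc : ContinuousOn π K := by
      have h1 : ContinuousOn (fun p : Om k × Om k × X => Th V ms (p.1, p.2.2)) K :=
        hTc.comp (f := fun p : Om k × Om k × X => (p.1, p.2.2))
          (Continuous.continuousOn (by fun_prop)) fun p hp => hp.1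
      have h2 : ContinuousOn (fun p : Om k × Om k × X => Th V ms (p.2.1, p.2.2)) K :=
        hTc.comp (f := fun p : Om k × Om k × X => (p.2.1, p.2.2))
          (Continuous.continuousOn (by fun_prop)) fun p hp => hp.2
      exact h1.prodMk (h2.prodMk (Continuous.continuousOn (by fun_prop)))
    have him : {p : Cube (IxT k κ) × Cube (IxT k κ) × X | (p.1, p.2.2) ∈ JJ A (Th V ms) ∧
        (p.2.1, p.2.2) ∈ JJ A (Th V ms)} = π '' K := by
      ext p
      constructor
      · rintro ⟨⟨a, ha, ha'⟩, ⟨b, hb, hb'⟩⟩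
        obtain ⟨a1, a2⟩ := a
        obtain ⟨b1, b2⟩ := b
        obtain ⟨p1, p2, p3⟩ := p
        simp only [Prod.mk.injEq] at ha' hb'
        obtain ⟨rfl, rfl⟩ := ha'
        obtain ⟨rfl, rfl⟩ := hb'
        exact ⟨(a1, b1, b2), ⟨ha, hb⟩, rfl⟩
      · rintro ⟨q, hq, rfl⟩
        exact ⟨⟨_, hq.1, rfl⟩, ⟨_, hq.2, rfl⟩⟩
    rw [him]
    exact cont_of_lift K hKc π hπc (fun p => GS V ms p.1 p.2.1 p.2.2) hG.cont
      (fun p => dd V ms A p.1 p.2.1 p.2.2) fun p hp => hd _ _ _ hp.1 hp.2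
  · rintro n x t t' ⟨⟨u, y⟩, hu, e⟩ ⟨⟨u', y'⟩, hu', e'⟩
    simp only [Prod.mk.injEq] at e e'
    obtain ⟨rfl, rfl⟩ := e
    obtain ⟨rfl, rfl⟩ := e'
    rw [← hTe _ hu, ← hTe _ hu', hd _ _ _ hu hu']
    have h1 := hL.min.inv n _ hu
    have h2 := hL.min.inv n _ hu'
    rw [← hG.inv n _ u u' hu hu']
    exact hd _ _ _ h1 h2
  · rintro x t ⟨⟨u, y⟩, hu, e⟩
    simp only [Prod.mk.injEq] at e
    obtain ⟨rfl, rfl⟩ := e
    rw [hd _ _ _ hu hu]
    exact hG.self _ _ hu
  · rintro x t t' ⟨⟨u, y⟩, hu, e⟩ ⟨⟨u', y'⟩, hu', e'⟩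
    simp only [Prod.mk.injEq] at e e'
    obtain ⟨rfl, rfl⟩ := e
    obtain ⟨rfl, rfl⟩ := e'
    rw [hd _ _ _ hu hu']
    exact hG.nonneg _ _ _ hu hu'
  · rintro x t t' ⟨⟨u, y⟩, hu, e⟩ ⟨⟨u', y'⟩, hu', e'⟩
    simp only [Prod.mk.injEq] at e e'
    obtain ⟨rfl, rfl⟩ := e
    obtain ⟨rfl, rfl⟩ := e'
    rw [hd _ _ _ hu hu', hd _ _ _ hu' hu]
    exact hG.symm _ _ _ hu hu'
  · rintro x t t' t'' ⟨⟨u, y⟩, hu, e⟩ ⟨⟨u', y'⟩, hu', e'⟩ ⟨⟨u'', y''⟩, hu'', e''⟩
    simp only [Prod.mk.injEq] at e e' e''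
    obtain ⟨rfl, rfl⟩ := e
    obtain ⟨rfl, rfl⟩ := e'
    obtain ⟨rfl, rfl⟩ := e''
    rw [hd _ _ _ hu hu', hd _ _ _ hu' hu'', hd _ _ _ hu hu'']
    exact hG.tri _ _ _ _ hu hu' hu''
  · rintro x t t' ⟨⟨u, y⟩, hu, e⟩ ⟨⟨u', y'⟩, hu', e'⟩ h0
    simp only [Prod.mk.injEq] at e e'
    obtain ⟨rfl, rfl⟩ := e
    obtain ⟨rfl, rfl⟩ := e'
    rw [hd _ _ _ hu hu', GS_zero] at h0
    exact th_of_gg V ms u u' _ h0

end Pool.Agent.Work.MP_69fea5_lc.W3
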