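import Pool.Agent.Work.MP_69fea5_lc.W3.StmtsM
import Pool.Agent.Work.MP_69fea5_lc.N3.I_RSC
import Pool.Agent.Work.MP_69fea5_lc.KC.I_CON
import Pool.Agent.Work.MP_69fea5_lc.KC.I_CONF

/-!
# Block [69fea5 M], item THPT: the phase of a coded point is coded
-/

set_option autoImplicit false

namespace Pool.Agent.Work.MP_69fea5_lc.W3

open MeasureTheory Topology Set Filter TopologicalSpace
open scoped NNReal ENNReal
open Pool.Agent.Work.MP_69fea5_lc.AK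
open Pool.Agent.Work.MP_69fea5_lc.HK (Cl DU Ar ArF ArR Dat Law LawC act near sc Pt oc Mn mr ext)
open Pool.Agent.Work.MP_69fea5_lc.KC (Agree)

namespace I_THPT

variable {S : Set (Set ℕ)} {k : ℕ}

/-- two words and a ball -/
abbrev Bx3 (k : ℕ) := Wd k × Wd k × (ℕ × ℤ)

/-- the index: a list of boxes and the size of the window -/
abbrev Ind (k : ℕ) := List (Bx3 k) × ℕ

/-- one box at one place -/
def one (T : ℤ → ℕ × ℤ → Prop) (z : Om k) (b : Ind k) (w : List (Fin k)) (j : ℤ)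
    (q : Bx3 k) : Prop :=
  (z ∈ cyl q.1 j ∧ T j q.2.2) ∧
    ∀ t ∈ KC.con q.2.1 j, t.1.natAbs ≤ b.2 ∧ w[(t.1 + b.2).toNat]? = some t.2

/-- the condition on the word of a point on a window -/
def Hp (T : ℤ → ℕ × ℤ → Prop) (z : Om k) (b : Ind k) (w : List (Fin k)) : Prop :=
  ∀ j : ℤ, j.natAbs ≤ b.2 → ∀ q ∈ b.1, ¬ one T z b w j q

/-- the section -/
def Rx (T : ℤ → ℕ × ℤ → Prop) (z : Om k) (L : List (Bx3 k)) : Set (Om k) :=
  {u | ∀ n : ℤ, ∀ q ∈ L, ¬ (z ∈ cyl q.1 n ∧ u ∈ cyl q.2.1 n ∧ T n q.2.2)}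

theorem sections (T : ℤ → ℕ × ℤ → Prop) (z : Om k) (L : List (Bx3 k)) :
    Rx T z L = ⋂ N : ℕ, {u | Hp T z (L, N) (HK.wd N u)} := by
  ext u
  simp only [Set.mem_iInter]
  constructor
  · intro h1 N j hj q hq hh
    obtain ⟨⟨h3, h3'⟩, h4⟩ := hh
    have h5 : u ∈ cyl q.2.1 j := by
      rw [← KC.CON_pf k q.2.1 j]
      intro t ht
      obtain ⟨h6, h7⟩ := h4 t ht
      exact (N3.I_RSC.wd_get u N t.1 h6 t.2).1 h7
    exact h1 j q hq ⟨h3, h5, h3'⟩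
  · rintro h j q hq ⟨h1, h2, h1'⟩
    obtain ⟨B, hB⟩ : ∃ B : ℕ, ∀ t ∈ KC.con q.2.1 j, t.1.natAbs ≤ B := by
      have hfin : {t | t ∈ KC.con q.2.1 j}.Finite := List.finite_toSet _
      obtain ⟨B, hB⟩ := (hfin.image fun t => t.1.natAbs).bddAbove
      exact ⟨B, fun t ht => hB ⟨t, ht, rfl⟩⟩
    refine h (max B j.natAbs) j (le_max_right _ _) q hq ⟨⟨h1, h1'⟩, fun t ht => ?_⟩
    have h3 : t.1.natAbs ≤ max B j.natAbs := (hB t ht).trans (le_max_left _ _)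
    refine ⟨h3, (N3.I_RSC.wd_get u _ t.1 h3 t.2).2 ?_⟩
    rw [← KC.CON_pf k q.2.1 j] at h2
    exact h2 t ht

theorem anti (T : ℤ → ℕ × ℤ → Prop) (z : Om k) (L : List (Bx3 k)) :
    Antitone fun N : ℕ => {u : Om k | Hp T z (L, N) (HK.wd N u)} := by
  intro N N' hN u hu j hj q hq hh
  refine hu j (le_trans hj hN) q hq ⟨hh.1, fun t ht => ?_⟩
  obtain ⟨h1, h2⟩ := hh.2 t ht
  have h3 : t.1.natAbs ≤ N' := le_trans h1 hN
  exact ⟨h3, (N3.I_RSC.wd_get u N' t.1 h3 t.2).2 ((N3.I_RSC.wd_get u N t.1 h1 t.2).1 h2)⟩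

theorem measure_sections (T : ℤ → ℕ × ℤ → Prop) (z : Om k) (m : PM k) (L : List (Bx3 k))
    (K : HK.C k) :
    mr m (HK.cyl K ∩ Rx T z L) =
      ⨅ N : ℕ, mr m (HK.cyl K ∩ {u | Hp T z (L, N) (HK.wd N u)}) := by
  have he : HK.cyl K ∩ Rx T z L = ⋂ N : ℕ, HK.cyl K ∩ {u | Hp T z (L, N) (HK.wd N u)} := by
    rw [sections, inter_iInter]
  have ha : Antitone fun N : ℕ => HK.cyl K ∩ {u : Om k | Hp T z (L, N) (HK.wd N u)} :=
    fun N N' hN => inter_subset_inter_right _ (anti T z L hN)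
  have hlim : Tendsto (fun N : ℕ => mr m (HK.cyl K ∩ {u : Om k | Hp T z (L, N) (HK.wd N u)})) atTop
      (𝓝 (mr m (⋂ N : ℕ, HK.cyl K ∩ {u | Hp T z (L, N) (HK.wd N u)}))) := by
    have h2 := tendsto_measure_iInter_atTop (μ := (m : Measure (Om k)))
      (s := fun N : ℕ => HK.cyl K ∩ {u : Om k | Hp T z (L, N) (HK.wd N u)})
      (fun N => ((HK.I_MEASW.measurable_cyl K).inter
        (KC.I_KAPF.isClopen_wd _ N).isOpen.measurableSet).nullMeasurableSet)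
      ha ⟨0, measure_ne_top _ _⟩
    exact (ENNReal.tendsto_toReal (measure_ne_top _ _)).comp h2
  have hbdd : BddBelow (Set.range fun N : ℕ =>
      mr m (HK.cyl K ∩ {u : Om k | Hp T z (L, N) (HK.wd N u)})) :=
    ⟨0, by rintro _ ⟨N, rfl⟩; exact measureReal_nonneg⟩
  rw [he]
  exact tendsto_nhds_unique hlim (tendsto_atTop_ciInf
    (fun N N' hN => measureReal_mono (ha hN)) hbdd)

theorem oneF (hS : Cl S) {z : Om k} (hz : Pt S z) {T : ℤ → ℕ × ℤ → Prop}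
    (hT : Ar S fun p : ℤ × (ℕ × ℤ) => T p.1 p.2) :
    Ar S fun r : ((Ind k × List (Fin k)) × ℤ) × Bx3 k =>
      one T z r.1.1.1 r.1.1.2 r.1.2 r.2 := by
  have hc : Ar S fun p : Wd k × ℤ => z ∈ cyl p.1 p.2 := by
    refine Ar.congr (HK.Ar.comp hS (N3.I_RSC.cylF hS KC.CON_pf KC.CONF_pf hz)
      (f := fun p : Wd k × ℤ => ((0 : ℤ), p.1, p.2))
      ((Primrec.const 0).pair (Primrec.fst.pair Primrec.snd))) fun p => ?_
    show _ ↔ sh (0 : ℤ) z ∈ _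
    rw [sh_zero]
  have pb : Primrec fun r : ((Ind k × List (Fin k)) × ℤ) × Bx3 k => r.1.1.1 :=
    Primrec.fst.comp (Primrec.fst.comp Primrec.fst)
  have pw : Primrec fun r : ((Ind k × List (Fin k)) × ℤ) × Bx3 k => r.1.1.2 :=
    Primrec.snd.comp (Primrec.fst.comp Primrec.fst)
  have pj : Primrec fun r : ((Ind k × List (Fin k)) × ℤ) × Bx3 k => r.1.2 :=
    Primrec.snd.comp Primrec.fst
  have pN : Primrec fun r : ((Ind k × List (Fin k)) × ℤ) × Bx3 k => r.1.1.1.2 :=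
    Primrec.snd.comp pb
  have p1 : Primrec fun r : ((Ind k × List (Fin k)) × ℤ) × Bx3 k => r.2.1 :=
    Primrec.fst.comp Primrec.snd
  have p2 : Primrec fun r : ((Ind k × List (Fin k)) × ℤ) × Bx3 k => r.2.2.1 :=
    Primrec.fst.comp (Primrec.snd.comp Primrec.snd)
  have p3 : Primrec fun r : ((Ind k × List (Fin k)) × ℤ) × Bx3 k => r.2.2.2 :=
    Primrec.snd.comp (Primrec.snd.comp Primrec.snd)
  refine HK.Ar.and hS (HK.Ar.and hS ?_ ?_) ?_
  · exact HK.Ar.comp hS hc (p1.pair pj)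
  · exact HK.Ar.comp hS hT (pj.pair p3)
  · refine HK.Ar.ballList hS
      (R := fun (r : ((Ind k × List (Fin k)) × ℤ) × Bx3 k) (t : ℤ × Fin k) =>
        t.1.natAbs ≤ r.1.1.1.2 ∧ r.1.1.2[(t.1 + r.1.1.1.2).toNat]? = some t.2) ?_ ?_
    · refine HK.Ar.and hS ?_ ?_
      · refine HK.Ar.le hS (HK.ArF.natAbs hS (HK.ArF.of_primrec hS
          (Primrec.fst.comp Primrec.snd))) (HK.ArF.of_primrec hS (pN.comp Primrec.fst))
      · refine HK.Ar.eq hS (HK.ArF.of_primrec hS ?_) (HK.ArF.of_primrec hS ?_)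
        · refine Primrec.list_getElem?.comp (pw.comp Primrec.fst) ?_
          refine HK.primrec_toNat.comp (HK.primrec_int_add.comp (Primrec.fst.comp Primrec.snd) ?_)
          exact HK.primrec_natCast.comp (pN.comp Primrec.fst)
        · exact Primrec.option_some.comp (Primrec.snd.comp Primrec.snd)
    · exact HK.ArF.comp hS (KC.CONF_pf S hS k) (HK.ArF.of_primrec hS (p2.pair pj))

theorem HpF (hS : Cl S) {z : Om k} (hz : Pt S z) {T : ℤ → ℕ × ℤ → Prop}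
    (hT : Ar S fun p : ℤ × (ℕ × ℤ) => T p.1 p.2) :
    Ar S fun p : Ind k × List (Fin k) => Hp T z p.1 p.2 := by
  refine HK.Ar.ballInt hS (R := fun (p : Ind k × List (Fin k)) (j : ℤ) =>
    ∀ q ∈ p.1.1, ¬ one T z p.1 p.2 j q) ?_
    (HK.ArF.of_primrec hS (Primrec.snd.comp Primrec.fst))
  refine HK.Ar.ballList hS (R := fun (p : (Ind k × List (Fin k)) × ℤ) (q : Bx3 k) =>
    ¬ one T z p.1.1 p.1.2 p.2 q) ?_
    (HK.ArF.of_primrec hS (Primrec.fst.comp (Primrec.fst.comp Primrec.fst)))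
  exact HK.Ar.not hS (oneF hS hz hT)

/-- the measures of the sections are coded -/
theorem secF (hS : Cl S) {z : Om k} (hz : Pt S z) {T : ℤ → ℕ × ℤ → Prop}
    (hT : Ar S fun p : ℤ × (ℕ × ℤ) => T p.1 p.2) {m : PM k} (hm : Pt S m) :
    ArR S fun p : List (Bx3 k) × HK.C k => mr m (HK.cyl p.2 ∩ Rx T z p.1) := by
  have h0 := HK.MEASW_pf S hS k (Ind k) (fun _ => m) (fun b w => Hp T z b w)
    (KC.I_KTH.sc_const hS hm) (HpF hS hz hT)
  have h1 : ArR S fun p : (List (Bx3 k) × HK.C k) × ℕ =>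
      mr m (HK.cyl p.1.2 ∩ {u | Hp T z (p.1.1, p.2) (HK.wd p.2 u)}) := by
    refine HK.ArR.comp hS h0 (g := fun p : (List (Bx3 k) × HK.C k) × ℕ =>
      ((p.1.1, p.2), p.2, p.1.2)) ?_
    exact ((Primrec.fst.comp Primrec.fst).pair Primrec.snd).pair
      (Primrec.snd.pair (Primrec.snd.comp Primrec.fst))
  have h2 : ArR S fun p : List (Bx3 k) × HK.C k => ⨅ N : ℕ,
      mr m (HK.cyl p.2 ∩ {u | Hp T z (p.1, N) (HK.wd N u)}) :=
    HK.ArR.iInf hS h1 (fun _ _ => measureReal_nonneg)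
  exact h2.congr fun p => measure_sections T z m p.1 p.2

end I_THPT

open I_THPT in
theorem THPT_pf : S_THPT := by
  intro S hS k X _ _ _ _ _ y z hy hz
  have hT : Ar S fun p : ℤ × (ℕ × ℤ) => near p.2.1 (act p.1 y) (act p.2.2 y) := by
    refine sc_near hS (w := fun p : ℤ × (ℕ × ℤ) => act p.1 y)
      (w' := fun p : ℤ × (ℕ × ℤ) => act p.2.2 y) ?_ ?_ ?_
    · exact sc_orb hS hy (ArF.of_primrec hS Primrec.fst)
    · exact sc_orb hS hy (ArF.of_primrec hS (Primrec.snd.comp Primrec.snd))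
    · exact ArF.of_primrec hS (Primrec.fst.comp Primrec.snd)
  have hm : Pt S y.2 := hy.2
  have h1 := secF hS hz (T := fun j p => near p.1 (act j y) (act p.2 y)) hT hm
  have h2 : ArR S fun p : IxT k (ℕ × ℤ) × ℤ =>
      mr y.2 (HK.cyl (KC.con p.1.2 p.2) ∩
        Rx (fun j p => near p.1 (act j y) (act p.2 y)) z p.1.1) := by
    refine HK.ArR.sub' hS h1 (g := fun p : IxT k (ℕ × ℤ) × ℤ => (p.1.1, KC.con p.1.2 p.2)) ?_
    refine ArF.pair hS (ArF.of_primrec hS (Primrec.fst.comp Primrec.fst)) ?_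
    exact ArF.comp hS (KC.CONF_pf S hS k)
      (f := fun p : IxT k (ℕ × ℤ) × ℤ => (p.1.2, p.2))
      (ArF.of_primrec hS ((Primrec.snd.comp Primrec.fst).pair Primrec.snd))
  have h3 : ArR S fun p : IxT k (ℕ × ℤ) × ℤ => (th y (z, y) p.1 p.2 : ℝ) := by
    refine h2.congr fun p => ?_
    rw [KC.CON_pf k p.1.2 p.2]
    show mr y.2 (cyl p.1.2 p.2 ∩ RL (Vn y) p.1.1 z y) = _
    congr 2
    ext u
    show (∀ n : ℤ, ∀ q ∈ p.1.1, ¬ (z ∈ cyl q.1 n ∧ u ∈ cyl q.2.1 n ∧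
      near q.2.2.1 (sh n y) (act q.2.2.2 y))) ↔ ∀ n : ℤ, ∀ q ∈ p.1.1,
        ¬ (z ∈ cyl q.1 n ∧ u ∈ cyl q.2.1 n ∧ near q.2.2.1 (act n y) (act q.2.2.2 y))
    have : ∀ n : ℤ, act n y = sh n y := fun n => Agree.eq n y
    simp only [this]
  exact HK.ArR.comp hS h3 (g := fun p : Unit × IxT k (ℕ × ℤ) × ℤ => p.2) Primrec.snd

end Pool.Agent.Work.MP_69fea5_lc.W3
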