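import Pool.Agent.Work.MP_69fea5_lc.W3.StmtsT
import Pool.Agent.Work.MP_69fea5_lc.AK.I_PMB

set_option autoImplicit false

namespace Pool.Agent.Work.MP_69fea5_lc.W3

open MeasureTheory Topology Set Filter TopologicalSpace
open scoped NNReal ENNReal
open Pool.Agent.Work.MP_69fea5_lc.AK

namespace I_THU

variable {k : ℕ}

/-- two closed sets with the same measures of the intersections with all cylinders are almost
equal -/
theorem diff_null (hCYL : S_CYL) (m : PM k) {P P' : Set (Om k)} (hP : MeasurableSet P)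
    (h : ∀ w : Wd k, (m : Measure (Om k)) (cyl w 0 ∩ P) = (m : Measure (Om k)) (cyl w 0 ∩ P')) :
    (m : Measure (Om k)) (Pᶜ ∩ P') = 0 := by
  obtain ⟨h1, -, h3, h4, h5, -, -⟩ := hCYL k
  have hc : ∀ w : Wd k, MeasurableSet (cyl w 0 : Set (Om k)) := fun w =>
    (h1 w 0).isOpen.measurableSet
  have hb : TopologicalSpace.IsTopologicalBasis (I_PMB.CC k) := by
    refine TopologicalSpace.isTopologicalBasis_of_isOpen_of_nhds ?_ ?_
    · rintro _ ⟨z, L, rfl⟩
      exact (h1 _ _).isOpen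
    · intro z U hz hU
      obtain ⟨L, hL⟩ := h5 z U (hU.mem_nhds hz)
      exact ⟨_, ⟨z, L, rfl⟩, h3 z L, hL L le_rfl⟩
  have hg : (inferInstance : MeasurableSpace (Om k)) = MeasurableSpace.generateFrom (I_PMB.CC k) :=
    (BorelSpace.measurable_eq (α := Om k)).trans hb.borel_eq_generateFrom
  have he : (m : Measure (Om k)).restrict P = (m : Measure (Om k)).restrict P' := by
    refine MeasureTheory.ext_of_generate_finite (I_PMB.CC k) hg (I_PMB.cc_pi h4) ?_ ?_
    · rintro _ ⟨z, L, rfl⟩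
      rw [Measure.restrict_apply (hc _), Measure.restrict_apply (hc _)]
      exact h _
    · have hu : (cyl ([] : Wd k) 0 : Set (Om k)) = univ := by
        ext z
        simp [cyl]
      have := h []
      rw [hu] at this
      rw [Measure.restrict_apply MeasurableSet.univ, Measure.restrict_apply MeasurableSet.univ]
      exact this
  have h0 : (m : Measure (Om k)).restrict P Pᶜ = 0 := by
    rw [Measure.restrict_apply hP.compl, compl_inter_self, measure_empty]
  rw [he, Measure.restrict_apply hP.compl] at h0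
  exact h0

end I_THU

theorem THU_pf (hCYL : AK.S_CYL) (hBAL : S_BAL) (hRLB : S_RLB) : S_THU := by
  intro k X κ _ _ _ _ _ V A ms hLev hV ρ hρ x u u' hu hu' hth
  by_contra hne
  have hpos : 0 < ρ u u' x := lt_of_le_of_ne (hρ.nonneg x u u' hu hu') (Ne.symm hne)
  obtain ⟨ε, hε, hε2⟩ : ∃ ε : ℝ, 0 < ε ∧ 2 * ε < ρ u u' x :=
    ⟨ρ u u' x / 3, by positivity, by linarith⟩
  have hAc : IsClosed A := hLev.min.closed
  have hAi : AK.Inv A := hLev.min.inv
  set R : Set (Om k × Om k × X) :=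
    {p | (p.1, p.2.2) ∈ A ∧ (p.2.1, p.2.2) ∈ A} ∩
      (fun p : Om k × Om k × X => ρ p.1 p.2.1 p.2.2) ⁻¹' Iic ε with hR
  have hD : IsClosed {p : Om k × Om k × X | (p.1, p.2.2) ∈ A ∧ (p.2.1, p.2.2) ∈ A} :=
    (hAc.preimage (f := fun p : Om k × Om k × X => (p.1, p.2.2)) (by fun_prop)).inter
      (hAc.preimage (f := fun p : Om k × Om k × X => (p.2.1, p.2.2)) (by fun_prop))
  have hRc : IsClosed R := hρ.cont.preimage_isClosed_of_isClosed hD isClosed_Iic
  have hRi : AK.Inv R := by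
    intro n p hp
    refine ⟨⟨hAi n _ hp.1.1, hAi n _ hp.1.2⟩, ?_⟩
    have := hρ.inv n p.2.2 p.1 p.2.1 hp.1.1 hp.1.2
    exact this.trans_le hp.2
  have hBi : AK.Inv (Prod.snd '' A) := by
    rintro n _ ⟨p, hp, rfl⟩
    exact ⟨sh n p, hAi n p hp, rfl⟩
  have hxB : x ∈ Prod.snd '' A := ⟨(u, x), hu, rfl⟩
  obtain ⟨hRL, happ⟩ := hRLB k X κ V (Prod.snd '' A) hV hBi
  have hS := hBAL (Om k) X A ms ρ hLev hρ ε hε (u', x) hu'
  set S : Set (Om k) := {v | (v, x) ∈ A ∧ ρ u' v x < ε} with hSdef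
  have hS' : 0 < ms x S := hS
  obtain ⟨L, hL1, hL2⟩ := happ R hRc hRi (fun p hp => ⟨(p.1, p.2.2), hp.1.1, rfl⟩) (ms x) x hxB u
    (ms x S : ℝ) (by exact_mod_cast hS')
  have hcl : ∀ a : Om k, IsClosed (RL V L a x) := fun a =>
    (hRL L).1.preimage (f := fun b : Om k => (a, b, x)) (by fun_prop)
  have hnull : (ms x : Measure (Om k)) ((RL V L u x)ᶜ ∩ RL V L u' x) = 0 := by
    refine I_THU.diff_null hCYL (ms x) (hcl u).measurableSet fun w => ?_
    have h1 := congrFun (congrFun hth (L, w)) 0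
    have h2 : (ms x (cyl w 0 ∩ RL V L u x) : ℝ) = ms x (cyl w 0 ∩ RL V L u' x) :=
      congrArg (fun a : unitInterval => (a : ℝ)) h1
    have h3 : ms x (cyl w 0 ∩ RL V L u x) = ms x (cyl w 0 ∩ RL V L u' x) := by exact_mod_cast h2
    rw [← ProbabilityMeasure.ennreal_coeFn_eq_coeFn_toMeasure,
      ← ProbabilityMeasure.ennreal_coeFn_eq_coeFn_toMeasure, h3]
  have hsub : S ⊆ {v | v ∈ RL V L u x ∧ (u, v, x) ∉ R} ∪ ((RL V L u x)ᶜ ∩ RL V L u' x) := by
    rintro v ⟨hv, hvε⟩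
    have hv' : v ∈ RL V L u' x := hL1 (u', v, x) ⟨⟨hu', hv⟩, hvε.le⟩
    by_cases hvu : v ∈ RL V L u x
    · refine Or.inl ⟨hvu, fun hR' => ?_⟩
      have h1 : ρ u v x ≤ ε := hR'.2
      have h2 := hρ.tri x u v u' hu hv hu'
      have h3 := hρ.symm x v u' hv hu'
      linarith
    · exact Or.inr ⟨hvu, hv'⟩
  have hle : (ms x S : ℝ) ≤ (ms x {v | v ∈ RL V L u x ∧ (u, v, x) ∉ R} : ℝ) := by
    have h1 : (ms x : Measure (Om k)) S ≤
        (ms x : Measure (Om k)) {v | v ∈ RL V L u x ∧ (u, v, x) ∉ R} := by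
      calc (ms x : Measure (Om k)) S ≤ _ := measure_mono hsub
        _ ≤ _ := measure_union_le _ _
        _ = _ := by rw [hnull, add_zero]
    have h2 : ms x S ≤ ms x {v | v ∈ RL V L u x ∧ (u, v, x) ∉ R} := by
      rw [← ProbabilityMeasure.ennreal_coeFn_eq_coeFn_toMeasure,
        ← ProbabilityMeasure.ennreal_coeFn_eq_coeFn_toMeasure] at h1
      exact_mod_cast h1
    exact_mod_cast h2
  exact absurd hL2 (not_lt.2 hle)

end Pool.Agent.Work.MP_69fea5_lc.W3
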