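import Pool.Agent.Work.MP_69fea5_lc.W3.StmtsM

/-!
Block [69fea5 F], main line, item TRN: transport of the chains to the exact translates.
-/

set_option autoImplicit false

namespace Pool.Agent.Work.MP_69fea5_lc.W3

open MeasureTheory Topology Set Filter TopologicalSpace
open scoped NNReal ENNReal
open Pool.Agent.Work.MP_69fea5_lc.AK
open Pool.Agent.Work.MP_69fea5_lc.HK (Cl DU Ar ArF ArR Dat Law LawC act near sc Pt oc Mn mr ext)
open Pool.Agent.Work.MP_69fea5_lc.KC (Agree)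

namespace I_TRN

section gen

variable {X Y : Type} [TopologicalSpace X] [Sys X] [TopologicalSpace Y] [Sys Y]

theorem orb_ind (hORB : AK.S_ORB) {x x' : X} {K : Set X} (hc : IsClosed K) (hi : AK.Inv K)
    (hx : x ∈ K) (h : x' ∈ orb x) : x' ∈ K :=
  (hORB X x).2.2.2.1 K hc hi hx h

theorem orb_map (hORB : AK.S_ORB) {f : X → Y} (hf : Continuous f)
    (he : ∀ (n : ℤ) (x : X), f (sh n x) = sh n (f x)) {x x' : X} (h : x' ∈ orb x) :
    f x' ∈ orb (f x) := by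
  refine orb_ind hORB (K := f ⁻¹' orb (f x)) ((hORB Y (f x)).1.preimage hf) ?_
    (hORB Y (f x)).2.2.1 h
  intro n y hy
  show f (sh n y) ∈ orb (f x)
  rw [he]
  exact (hORB Y (f x)).2.1 n _ hy

theorem min_map (hORB : AK.S_ORB) (hIMG : AK.S_IMG) [CompactSpace X] [T2Space Y] {f : X → Y}
    (hf : Continuous f) (he : ∀ (n : ℤ) (x : X), f (sh n x) = sh n (f x)) {x x' : X}
    (hm : MinSet (orb x)) (h : x' ∈ orb x) : MinSet (orb (f x')) := by
  have h1 : MinSet (f '' orb x) := hIMG X Y _ f hm hf.continuousOn fun n x _ => he n x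
  rw [(hORB Y (f x')).2.2.2.2.1 _ h1 ⟨x', h, rfl⟩]
  exact h1

end gen

section cod

variable {S : Set (Set ℕ)} {U : Ultrafilter ℕ}
  {α F Q : Type} [TopologicalSpace α] [MeasurableSpace α] [Sys α] [Dat α] [CSys α]
  [TopologicalSpace F] [MeasurableSpace F] [Sys F] [Dat F] [CSys F]
  [TopologicalSpace Q] [MeasurableSpace Q] [Sys Q] [Dat Q] [CSys Q]

/-- coded limits of the data -/
theorem core (hORB : AK.S_ORB) (hIMG : AK.S_IMG) (hS : Cl S) (hU : DU S U) {a₀ a' : α} {v : F}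
    {vl : ℕ → F} {e : ℕ × ℕ → Q} (ha₀ : Pt S a₀) (ha' : Pt S a') (hv : Pt S v) (hvl : sc S vl)
    (he : sc S e) (h : a' ∈ orb a₀) (hmin : MinSet (orb (v, (vl, e)))) :
    ∃ (v' : F) (vl' : ℕ → F) (e' : ℕ × ℕ → Q), Pt S v' ∧ sc S vl' ∧ sc S e' ∧
      (a', (v', (vl', e'))) ∈ orb (a₀, (v, (vl, e))) ∧ (v', vl') ∈ orb (v, vl) ∧
      ∀ p, MinSet (orb (e' p)) := by
  have hP₀ : Pt S (v, (vl, e)) := pt_prod.2 ⟨hv, pt_prod.2 ⟨(pt_pi hS).2 hvl, (pt_pi hS).2 he⟩⟩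
  rw [← KC.oc_eq] at h
  obtain ⟨⟨v', vl', e'⟩, h1, h2⟩ := exists_fibre_point (α := α)
    (β := F × ((ℕ → F) × (ℕ × ℕ → Q))) hS hU ha₀ hP₀ ha' h
  rw [KC.oc_eq] at h2
  have h3 : (v', (vl', e')) ∈ orb (v, (vl, e)) :=
    orb_map hORB (f := fun q : α × (F × ((ℕ → F) × (ℕ × ℕ → Q))) => q.2) continuous_snd
      (fun _ _ => rfl) h2
  refine ⟨v', vl', e', (pt_prod.1 h1).1, (pt_pi hS).1 (pt_prod.1 (pt_prod.1 h1).2).1,
    (pt_pi hS).1 (pt_prod.1 (pt_prod.1 h1).2).2, h2, ?_, fun p => ?_⟩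
  · exact orb_map hORB (f := fun q : F × ((ℕ → F) × (ℕ × ℕ → Q)) => (q.1, q.2.1))
      (continuous_fst.prodMk (continuous_fst.comp continuous_snd)) (fun _ _ => rfl) h3
  · exact min_map hORB hIMG (f := fun q : F × ((ℕ → F) × (ℕ × ℕ → Q)) => q.2.2 p)
      ((continuous_apply p).comp (continuous_snd.comp continuous_snd)) (fun _ _ => rfl) hmin h3

/-- the limit along a coded sequence of frames -/
theorem lim (hS : Cl S) (hU : DU S U) {v' : F} {vl' : ℕ → F} {e' : ℕ × ℕ → Q} {qf : Q → F}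
    (hq : Continuous qf) (hv : Pt S v') (hvl : sc S vl') (he : sc S e')
    (hcl : v' ∈ closure (Set.range vl')) (hqf : ∀ i l, qf (e' (i, l)) = vl' l) :
    ∃ ξ : ℕ → Q, sc S ξ ∧ ∀ i, qf (ξ i) = v' ∧
      ∀ K : Set Q, IsClosed K → (∀ l, e' (i, l) ∈ K) → ξ i ∈ K := by
  have h1 : Ar S fun p : ℕ × ℕ => near p.1 (vl' p.2) v' := by
    refine sc_near hS (w := fun p : ℕ × ℕ => vl' p.2) (w' := fun _ => v') (L := fun p => p.1)
      ?_ (sc_const hS hv) (ArF.fst hS)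
    exact sc_comp hS hvl (ArF.snd hS)
  obtain ⟨n, hn, hn'⟩ := Ar.choose hS (R := fun (m l : ℕ) => near m (vl' l) v') h1 (by
    intro m
    obtain ⟨_, h2, l, rfl⟩ := mem_closure_iff_nhds.1 hcl _ (HK.near_mem_nhds m v')
    exact ⟨l, h2⟩)
  obtain ⟨ξ, hξ, hξ'⟩ := exists_lim_fam (α := Q) hS hU (w := fun p : ℕ × ℕ => e' (p.1, n p.2))
    (sc_comp hS he ((ArF.fst hS).pair hS (hn.comp hS (ArF.snd hS))))
  refine ⟨ξ, hξ, fun i => ⟨?_, fun K hK hl => ?_⟩⟩
  · have h2 : Tendsto (fun m => vl' (n m)) (U : Filter ℕ) (𝓝 v') := tendsto_near hU.top hn'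
    have h3 : Tendsto (fun m => qf (e' (i, n m))) (U : Filter ℕ) (𝓝 (qf (ξ i))) :=
      (hq.tendsto _).comp (hξ' i)
    simp only [hqf] at h3
    exact tendsto_nhds_unique h3 h2
  · exact hK.mem_of_tendsto (hξ' i) (Eventually.of_forall fun m => hl _)

end cod

theorem pal_null {k : ℕ} (m : PM k) : m {z | z 0 ∉ pal m} = 0 := by
  rw [ProbabilityMeasure.null_iff_toMeasure_null]
  have h1 : {z : Om k | z 0 ∉ pal m} = ⋃ r ∈ {r : Fin k | r ∉ pal m}, {z : Om k | z 0 = r} := by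
    ext z
    simp
  rw [h1, measure_biUnion_null_iff (Set.to_countable _)]
  intro r hr
  rw [← ProbabilityMeasure.null_iff_toMeasure_null]
  by_contra hne
  apply hr
  unfold pal
  simp only [Finset.mem_filter, Finset.mem_univ, true_and]
  exact pos_iff_ne_zero.2 hne

theorem clopen_col {k : ℕ} (D : Finset (Fin k)) : IsClopen {z : Om k | z 0 ∉ D} := by
  have : {z : Om k | z 0 ∉ D} = (fun z : Om k => z 0) ⁻¹' {a | a ∉ D} := rfl
  rw [this]
  exact (isClopen_discrete _).preimage (continuous_apply 0)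

end I_TRN

open I_TRN in
theorem TRN_pf (hORB : AK.S_ORB) (hIMG : AK.S_IMG) (hPMB : AK.S_PMB) (hMIX : S_MIX)
    (hTDF : S_TDF) (hEX1 : S_EX1) (hEXF : S_EXF) (hDNT : S_DNT) (hUMC : S_UMC) : S_TRN := by
  intro S U hS hU k c hc j X _ _ _ _ _ A x A₁ v A₂ w m₃ l₀ AE hTD v₁ vl e hT m₀ hm₀ x' m' hx' hm'
    horb hex
  obtain ⟨hM1, hM2, hM3, hM4⟩ := hMIX
  obtain ⟨-, hPE, -, -, -⟩ := hTDF S k c j X A x A₁ v A₂ w m₃ l₀ AE hTD
  have hpm₀ : Pt S m₀ := hM3 S hS k X e m₀ hT.pte hm₀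
  obtain ⟨v0, vl', e', hv0, hvl', he', hbig, hvv, hmin'⟩ := core (α := X × PM k) (F := WF k X)
    (Q := Q4 (XE k X)) hORB hIMG hS hU (pt_prod.2 ⟨hTD.l1.cb.pt, hpm₀⟩) (pt_prod.2 ⟨hx', hm'⟩)
    hTD.l1.cb2.pt hT.ptl hT.pte horb hT.min
  -- the closed conditions pass to the limit
  have hx0 : v0.1.1 = x' := by
    refine orb_ind hORB (K := {q : (X × PM k) × (WF k X × ((ℕ → WF k X) ×
      (ℕ × ℕ → Q4 (XE k X)))) | q.2.1.1.1 = q.1.1}) ?_ ?_ hTD.l1.fst hbig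
    · exact isClosed_eq (continuous_fst.comp (continuous_fst.comp
        (continuous_fst.comp continuous_snd))) (continuous_fst.comp continuous_fst)
    · intro n q hq
      have hq' : q.2.1.1.1 = q.1.1 := hq
      show sh n q.2.1.1.1 = sh n q.1.1
      rw [hq']
  have hMix' : Mix e' m' := by
    refine orb_ind hORB (K := {q : (X × PM k) × (WF k X × ((ℕ → WF k X) ×
      (ℕ × ℕ → Q4 (XE k X)))) | Mix q.2.2.2 q.1.2}) ?_ ?_ hm₀ hbig
    · exact (hM2 k X).preimage (f := fun q : (X × PM k) × (WF k X × ((ℕ → WF k X) ×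
        (ℕ × ℕ → Q4 (XE k X)))) => (q.2.2.2, q.1.2))
        ((continuous_snd.comp (continuous_snd.comp continuous_snd)).prodMk
          (continuous_snd.comp continuous_fst))
    · intro n q hq
      obtain ⟨m, -, h2, h3⟩ := hM1 k X q.2.2.2
      have h4 := h2 _ hq
      show Mix (sh n q.2.2.2) (sh n q.1.2)
      rw [h4]
      exact h3 n
  have hq' : ∀ i l, qE (e' (i, l)).1 = vl' l := by
    intro i l
    refine orb_ind hORB (K := {q : (X × PM k) × (WF k X × ((ℕ → WF k X) ×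
      (ℕ × ℕ → Q4 (XE k X)))) | (q.2.2.2 (i, l)).1.1.1 = q.2.2.1 l}) ?_ ?_ (hT.q0 i l) hbig
    · refine isClosed_eq ?_ ?_
      · exact continuous_fst.comp (continuous_fst.comp (continuous_fst.comp
          ((continuous_apply (i, l)).comp (continuous_snd.comp
            (continuous_snd.comp continuous_snd)))))
      · exact (continuous_apply l).comp (continuous_fst.comp
          (continuous_snd.comp continuous_snd))
    · intro n q hq
      have hq' : (q.2.2.2 (i, l)).1.1.1 = q.2.2.1 l := hq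
      show sh n (q.2.2.2 (i, l)).1.1.1 = sh n (q.2.2.1 l)
      rw [hq']
  -- the minimal sets of quadruples
  have hP := fun i => hUMC k (X × PM k) (CPh k) (XE k X) A₁ Prod.snd (th v.1) v (v₁ i)
    (orb (w.1, l₀)) qE Prod.snd hPE (hT.m1 i).1 (hT.m1 i).2
  choose hP1 hP2 L hL1 hL2 hL3 using hP
  have heP : ∀ i l, e' (i, l) ∈ L i := by
    intro i l
    have h1 : e' (i, l) ∈ {ξ : Q4 (XE k X) | ξ.1 ∈ orb (w.1, l₀) ∧ ξ.2.1 ∈ orb (w.1, l₀) ∧
        ξ.2.2.1 ∈ orb (w.1, l₀) ∧ ξ.2.2.2 ∈ orb (w.1, l₀) ∧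
        (qE ξ.1, qE ξ.2.1) ∈ orb (v, v₁ i) ∧ (qE ξ.2.1, qE ξ.2.2.1) ∈ orb (v, v₁ i) ∧
        (qE ξ.2.2.1, qE ξ.2.2.2) ∈ orb (v, v₁ i)} := by
      refine orb_ind hORB (K := (fun q : (X × PM k) × (WF k X × ((ℕ → WF k X) ×
        (ℕ × ℕ → Q4 (XE k X)))) => q.2.2.2 (i, l)) ⁻¹' _) ((hP1 i).preimage ?_) ?_ ?_ hbig
      · exact (continuous_apply (i, l)).comp (continuous_snd.comp
          (continuous_snd.comp continuous_snd))
      · intro n q hq
        exact hP2 i n _ hq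
      · obtain ⟨a1, a2, a3, a4⟩ := hT.me (i, l)
        obtain ⟨c1, c2, c3⟩ := hT.ce i l
        exact ⟨a1, a2, a3, a4, c1, c2, c3⟩
    rw [← hL3 i _ h1 (hmin' (i, l))]
    exact (hORB _ (e' (i, l))).2.2.1
  -- the exact frame
  have hy0 : v0.1 ∈ orb v.1 := by
    have h1 : v0 ∈ orb v := orb_map hORB (f := fun q : WF k X × (ℕ → WF k X) => q.1)
      continuous_fst (fun _ _ => rfl) hvv
    exact orb_map hORB (f := fun q : WF k X => q.1) continuous_fst (fun _ _ => rfl) h1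
  have hex0 : Exa c A₁ v0.1 := by
    refine hEX1 k c X (X × PM k) A (orb v.1) Prod.fst A₁ hTD.l1.bch v0.1 hy0 ?_
    rw [hx0]
    exact hex
  obtain ⟨z, -, -, -, -, hz1, v', hv', hpv', hv'1, hv'2⟩ := hEXF S U hS hU k c hc X A x A₁ v
    hTD.l1 v0.1 hy0 (pt_prod.1 hv0).1 hex0
  have hexv : Exa c (A1t A₁ v) v' := hz1 v' hv' hv'1 hv'2
  obtain ⟨d, hd⟩ := hTD.l1.pha.iso
  obtain ⟨-, hdn⟩ := hDNT (X × PM k) (CPh k) (JJ A₁ (th v.1)) d v vl hd hTD.l1.frm hT.ml hT.dl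
    (v0, vl') hvv
  have hcl : v' ∈ closure (Set.range vl') := hdn v' hv' hv'1
  -- the limit
  have hqc : Continuous fun ξ : Q4 (XE k X) => qE ξ.1 :=
    continuous_fst.comp (continuous_fst.comp continuous_fst)
  obtain ⟨ξ, hξ, hξ'⟩ := lim (F := WF k X) (Q := Q4 (XE k X)) hS hU hqc hpv' hvl' he' hcl hq'
  refine ⟨v', ξ, hξ, fun i => ⟨(hξ' i).1, ?_⟩⟩
  obtain ⟨h1, h2⟩ := hξ' i
  have hξL : ξ i ∈ L i := h2 _ (hL1 i).closed (heP i)
  have hξP := hL2 i hξL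
  obtain ⟨b1, b2, b3, b4, c1, c2, c3⟩ := hξP
  have hmin : MinSet (orb (ξ i)) := by
    rw [(hORB _ (ξ i)).2.2.2.2.1 _ (hL1 i) hξL]
    exact hL1 i
  -- the colours
  have hB := clopen_col (pal m')
  have hnull := (hM4 k X e' m' _ hB.1.measurableSet hMix').1 (pal_null m')
  have hcont : Continuous fun m : PM k => m {z | z 0 ∉ pal m'} := (hPMB k).2.2.1 _ hB
  refine ⟨hmin, b1, b2, b3, b4, c1, c2, c3, ?_, ?_, ?_, ?_⟩
  · rw [h1]
    exact hexv
  · refine h2 {ξ | ξ.2.1.2 {z | z 0 ∉ pal m'} = 0} ?_ fun l => (hnull (i, l)).2.1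
    exact isClosed_eq (hcont.comp (continuous_snd.comp (continuous_fst.comp continuous_snd)))
      continuous_const
  · refine h2 {ξ | ξ.2.2.1.2 {z | z 0 ∉ pal m'} = 0} ?_ fun l => (hnull (i, l)).2.2.1
    exact isClosed_eq (hcont.comp (continuous_snd.comp (continuous_fst.comp
      (continuous_snd.comp continuous_snd)))) continuous_const
  · refine h2 {ξ | ξ.2.2.2.2 {z | z 0 ∉ pal m'} = 0} ?_ fun l => (hnull (i, l)).2.2.2
    exact isClosed_eq (hcont.comp (continuous_snd.comp (continuous_snd.comp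
      (continuous_snd.comp continuous_snd)))) continuous_const

end Pool.Agent.Work.MP_69fea5_lc.W3
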