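import Pool.Agent.Work.MP_69fea5_lc.W3.StmtsM

/-!
# Block [69fea5 M TUX]: the coded families of the step exist
-/

set_option autoImplicit false

namespace Pool.Agent.Work.MP_69fea5_lc.W3

open MeasureTheory Topology Set Filter TopologicalSpace
open scoped NNReal ENNReal
open Pool.Agent.Work.MP_69fea5_lc.AK
open Pool.Agent.Work.MP_69fea5_lc.HK (Cl DU Ar ArF ArR Dat Law LawC act near sc Pt oc Mn mr ext)
open Pool.Agent.Work.MP_69fea5_lc.KC (Agree)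

namespace I_TUX

section gen

variable {X Y : Type} [TopologicalSpace X] [Sys X] [TopologicalSpace Y] [Sys Y]

theorem orb_self (x : X) : x ∈ orb x := subset_closure ⟨0, sh_zero x⟩

theorem orb_sub {K : Set X} (hc : IsClosed K) (hi : AK.Inv K) {x : X} (hx : x ∈ K) :
    orb x ⊆ K := by
  refine closure_minimal ?_ hc
  rintro _ ⟨n, rfl⟩
  exact hi n x hx

theorem orb_inv (x : X) : AK.Inv (orb x) := by
  intro n p hp
  refine map_mem_closure (sh_cont n) hp ?_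
  rintro _ ⟨m, rfl⟩
  exact ⟨n + m, sh_add n m x⟩

theorem orb_map {f : X → Y} (hf : Continuous f) (he : ∀ (n : ℤ) x, f (sh n x) = sh n (f x))
    {K : Set Y} (hK : IsClosed K) (hi : AK.Inv K) {z₀ : X} (h : f z₀ ∈ K) :
    ∀ z ∈ orb z₀, f z ∈ K := by
  intro z hz
  have h1 : orb z₀ ⊆ f ⁻¹' K := by
    refine orb_sub (hK.preimage hf) ?_ h
    intro n x hx
    change f (sh n x) ∈ K
    rw [he]
    exact hi n _ hx
  exact h1 hz

theorem orb_map' {f : X → Y} (hf : Continuous f) (he : ∀ (n : ℤ) x, f (sh n x) = sh n (f x))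
    {y : Y} {z₀ : X} (h : f z₀ ∈ orb y) : ∀ z ∈ orb z₀, f z ∈ orb y :=
  orb_map hf he isClosed_closure (orb_inv y) h

/-- an equation between continuous equivariant maps -/
theorem orb_eqn [T2Space Y] {f g : X → Y} (hf : Continuous f) (hg : Continuous g)
    (hef : ∀ (n : ℤ) x, f (sh n x) = sh n (f x)) (heg : ∀ (n : ℤ) x, g (sh n x) = sh n (g x))
    {z₀ : X} (h : f z₀ = g z₀) : ∀ z ∈ orb z₀, f z = g z := by
  intro z hz
  have h1 : orb z₀ ⊆ {z | f z = g z} := by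
    refine orb_sub (isClosed_eq hf hg) ?_ h
    intro n x hx
    have hx' : f x = g x := hx
    change f (sh n x) = g (sh n x)
    rw [hef, heg, hx']
  exact h1 hz

theorem orb_eq {x y : X} (hm : MinSet (orb x)) (hy : y ∈ orb x) : orb y = orb x :=
  hm.min _ isClosed_closure ⟨y, orb_self y⟩ (orb_inv y) (orb_sub isClosed_closure (orb_inv x) hy)

theorem mn_of_min [Dat X] [Agree X] {x : X} (hm : MinSet (orb x)) : Mn x := by
  intro y hy
  rw [KC.oc_eq] at hy ⊢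
  rw [orb_eq hm hy]
  exact orb_self x

end gen

section coded

variable {S : Set (Set ℕ)} {U : Ultrafilter ℕ}
  {Y C W Z : Type} [TopologicalSpace Y] [MeasurableSpace Y] [Sys Y] [Dat Y] [CSys Y]
  [TopologicalSpace C] [MeasurableSpace C] [Sys C] [Dat C] [CSys C]
  [TopologicalSpace W] [MeasurableSpace W] [Sys W] [Dat W] [CSys W]
  [TopologicalSpace Z] [MeasurableSpace Z] [Sys Z] [Dat Z] [CSys Z]

theorem dense_fam (hS : Cl S) (hU : DU S U) {v : Y × (ℕ → C)} (hv : Pt S v) :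
    ∃ vl : ℕ → Y × (ℕ → C), sc S vl ∧ (∀ l, vl l ∈ orb v ∧ (vl l).1 = v.1) ∧
      ∀ v' ∈ orb v, v'.1 = v.1 → v' ∈ closure (Set.range vl) := by
  obtain ⟨hv1, hv2⟩ := (pt_prod (x := v.1) (y := v.2)).1 hv
  obtain ⟨u, hu, hu1, hu2⟩ := exists_dense_fibre hS hU (x₀ := v.1) (y₀ := v.2) hv1 hv2
  obtain ⟨g, hg⟩ : ∃ g : ℕ → ℤ × ℕ × ℕ,
      g = fun l => (Encodable.decode (α := ℤ × ℕ × ℕ) l).getD (0, 0, 0) := ⟨_, rfl⟩
  have hgp : ArF S g := by
    rw [hg]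
    exact ArF.of_primrec hS (Primrec.option_getD.comp Primrec.decode (Primrec.const _))
  have hgs : ∀ i, g (Encodable.encode i) = i := by
    intro i
    rw [hg]
    change (Encodable.decode (α := ℤ × ℕ × ℕ) (Encodable.encode i)).getD (0, 0, 0) = i
    rw [Encodable.encodek]
    rfl
  refine ⟨fun l => (v.1, u (g l)), ⟨sc_const hS hv1, sc_comp hS hu hgp⟩, fun l => ⟨?_, rfl⟩,
    ?_⟩
  · have := hu1 (g l)
    rw [KC.oc_eq] at this
    exact this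
  · intro v' hv' h1
    have h2 : (v.1, v'.2) ∈ oc (v.1, v.2) := by
      rw [KC.oc_eq]
      have h0 : (v.1, v'.2) = v' := Prod.ext h1.symm rfl
      rw [h0]
      exact hv'
    have h3 := hu2 v'.2 h2
    have h4 : (v.1, v'.2) ∈ closure (Set.range fun l => (v.1, u (g l))) := by
      refine map_mem_closure (f := fun y : ℕ → C => (v.1, y)) (by fun_prop) h3 ?_
      rintro _ ⟨i, rfl⟩
      refine ⟨Encodable.encode i, ?_⟩
      change (v.1, u (g (Encodable.encode i))) = (v.1, u i)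
      rw [hgs i]
    have h5 : v' = (v.1, v'.2) := Prod.ext h1 rfl
    rw [h5]
    exact h4

theorem lift_fam (hS : Cl S) (hU : DU S U) {q : W → Z} (hq : Continuous q)
    (he : ∀ (n : ℤ) (e : W), q (sh n e) = sh n (q e)) {e₀ : W} (he₀ : Pt S e₀)
    (hq₀ : Pt S (q e₀)) {ι : Type} [Primcodable ι] {f : ι → Z} (hf : sc S f)
    (hfo : ∀ i, f i ∈ orb (q e₀)) : ∃ g : ι → W, sc S g ∧ ∀ i, g i ∈ orb e₀ ∧ q (g i) = f i := by
  obtain ⟨n, hn, hn'⟩ := exists_times_fam hS (w := fun _ : ι => q e₀) (sc_const hS hq₀) hf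
    (fun i => by rw [KC.oc_eq]; exact hfo i)
  obtain ⟨g, hg, hg'⟩ := exists_lim_fam hS hU (w := fun p : ι × ℕ => act (n p) e₀)
    (sc_orb hS he₀ hn)
  refine ⟨g, hg, fun i => ⟨?_, ?_⟩⟩
  · rw [← KC.oc_eq]
    exact mem_oc_of_tendsto (hg' i)
  · have h1 : Tendsto (fun r => q (act (n (i, r)) e₀)) (U : Filter ℕ) (𝓝 (q (g i))) :=
      (hq.tendsto _).comp (hg' i)
    have h2 : Tendsto (fun r => act (n (i, r)) (q e₀)) (U : Filter ℕ) (𝓝 (f i)) :=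
      tendsto_near hU.top (hn' i)
    refine tendsto_nhds_unique h1 (h2.congr fun r => ?_)
    rw [Agree.eq, Agree.eq, he]

/-- the family `vl` is determined by the frame -/
theorem joint (hS : Cl S) (hU : DU S U) (hDET : S_DET) {J : Set (C × Y)} {d : C → C → Y → ℝ}
    (hJ : Isom J d) {v : Y × (ℕ → C)} (hfr : Frm J v) (hmin : MinSet (orb v)) (hv : Pt S v)
    {vl : ℕ → Y × (ℕ → C)} (hvl : sc S vl) (hvl1 : ∀ l, vl l ∈ orb v ∧ (vl l).1 = v.1)
    {e : ℕ × ℕ → Q4 W} (he : sc S e) :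
    ∃ e' : ℕ × ℕ → Q4 W, sc S e' ∧ (v, (vl, e')) ∈ orb (v, (vl, e)) ∧
      MinSet (orb (v, (vl, e'))) := by
  have hy₀ : Pt S (vl, e) := pt_prod.2 ⟨(pt_pi hS).2 hvl, (pt_pi hS).2 he⟩
  obtain ⟨⟨vl', e'⟩, hpt, hmem, hMn⟩ := exists_fibre_min (α := Y × (ℕ → C))
    (β := (ℕ → Y × (ℕ → C)) × (ℕ × ℕ → Q4 W)) hS hU (x₀ := v) (x := v) (y₀ := (vl, e)) hv hy₀ hv
    (mn_of_min hmin) (HK.mem_oc_self v)
  rw [KC.oc_eq] at hmem
  have h1 : ∀ l, (vl' l).1 = v.1 := by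
    intro l
    have h := orb_eqn (X := (Y × (ℕ → C)) × ((ℕ → Y × (ℕ → C)) × (ℕ × ℕ → Q4 W))) (Y := Y)
      (f := fun z => (z.2.1 l).1) (g := fun z => z.1.1) (by fun_prop) (by fun_prop)
      (fun n z => rfl) (fun n z => rfl) (z₀ := (v, (vl, e))) (hvl1 l).2 _ hmem
    exact h
  have hphase : ∀ l a, ((vl l).2 a, v.1) ∈ J := by
    intro l a
    have h := orb_map (X := Y × (ℕ → C)) (Y := C × Y) (f := fun z => (z.2 a, z.1))
      (by fun_prop) (fun n z => rfl) hJ.closed hJ.inv (z₀ := v) (hfr.1 a) _ (hvl1 l).1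
    rw [← (hvl1 l).2]
    exact h
  have h2 : ∀ l, (vl' l).2 = (vl l).2 := by
    intro l
    obtain ⟨-, -, h3, -⟩ := hDET C Y J d hJ v hfr (vl l).2 (hphase l)
    have h4 : (v, (vl' l).2) ∈ orb (v, (vl l).2) := by
      have h := orb_map' (X := (Y × (ℕ → C)) × ((ℕ → Y × (ℕ → C)) × (ℕ × ℕ → Q4 W)))
        (Y := (Y × (ℕ → C)) × (ℕ → C)) (f := fun z => (z.1, (z.2.1 l).2)) (by fun_prop)
        (fun n z => rfl) (y := (v, (vl l).2)) (z₀ := (v, (vl, e))) (orb_self _) _ hmem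
      exact h
    exact h3 _ h4 _ (orb_self _) rfl
  have h3 : vl' = vl := by
    funext l
    exact Prod.ext ((h1 l).trans (hvl1 l).2.symm) (h2 l)
  subst h3
  exact ⟨e', (pt_pi hS).1 (pt_prod.1 hpt).2, hmem, KC.minSet_of_Mn hMn⟩

end coded

end I_TUX

open I_TUX in
theorem TUX_pf (h1 : S_GEN) (h2 : S_AUC) (h3 : S_TDF) (h4 : S_DET) : S_TUX := by
  intro S U hS hU k c hc j X _ _ _ _ _ A x A₁ v A₂ w m₃ l₀ AE hTD
  obtain ⟨-, hPE, -, -, -⟩ := h3 S k c j X A x A₁ v A₂ w m₃ l₀ AE hTD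
  have hptv : Pt S v := hTD.l1.cb2.pt
  have hptw : Pt S w.1 := hTD.l2.cb1.pt
  have hpte : Pt S ((w.1, l₀) : XE k X) := pt_prod.2 ⟨hptw, hTD.ptl⟩
  have hq0 : qE ((w.1, l₀) : XE k X) = v := hTD.l2.fst
  obtain ⟨d, hd⟩ := hPE.pha.iso
  have hfr : Frm (JJ A₁ (th v.1)) v := hTD.l1.frm
  have hqc : Continuous (qE : XE k X → WF k X) := by
    change Continuous fun e : XE k X => e.1.1
    fun_prop
  have hqe : ∀ (n : ℤ) (e : XE k X), qE (sh n e) = sh n (qE e) := fun n e => rfl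
  have hqpt : Pt S (qE ((w.1, l₀) : XE k X)) := by
    rw [hq0]
    exact hptv
  obtain ⟨v₁, hv1, hv1'⟩ := h1 S U hS hU k (X × PM k) (CPh k) (XE k X) A₁ Prod.snd (th v.1) v qE
    (w.1, l₀) Prod.snd hPE hq0 hptv hpte hTD.ptl
  obtain ⟨vl, hvl, hvl1, hvl2⟩ := dense_fam (Y := X × PM k) (C := CPh k) hS hU hptv
  have hminv : MinSet (orb v) := by
    have hb := hPE.base
    have hm := hPE.spx.min
    have himg : qE '' orb ((w.1, l₀) : XE k X) = orb v := hb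
    refine ⟨isClosed_closure, ⟨v, orb_self v⟩, orb_inv v, ?_⟩
    intro L hL hne hi hsub
    have hpre : orb ((w.1, l₀) : XE k X) ∩ qE ⁻¹' L = orb ((w.1, l₀) : XE k X) := by
      refine hm.min _ (hm.closed.inter (hL.preimage hqc)) ?_ ?_ inter_subset_left
      · obtain ⟨y, hy⟩ := hne
        have hy' : y ∈ qE '' orb ((w.1, l₀) : XE k X) := by
          rw [himg]
          exact hsub hy
        obtain ⟨e, he, rfl⟩ := hy'
        exact ⟨e, he, hy⟩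
      · rintro n e ⟨he, he'⟩
        exact ⟨hm.inv n e he, hi n _ he'⟩
    refine hsub.antisymm ?_
    rw [← himg]
    rintro _ ⟨e, he, rfl⟩
    rw [← hpre] at he
    exact he.2
  -- the frames of the quadruples
  have hsv1 : sc S fun p : ℕ × ℕ => v₁ p.1 :=
    sc_comp hS hv1 (ArF.of_primrec hS Primrec.fst)
  have hsvl : sc S fun p : ℕ × ℕ => vl p.2 :=
    sc_comp hS hvl (ArF.of_primrec hS Primrec.snd)
  have hcond : ∀ p : ℕ × ℕ, v₁ p.1 ∈ orb v ∧ (v₁ p.1).1 = v.1 := fun p =>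
    ⟨(hv1' p.1).1, (hv1' p.1).2.1⟩
  obtain ⟨f1, hf1, hf1'⟩ := h2 S U hS hU (X × PM k) (CPh k) (JJ A₁ (th v.1)) d v hd hfr hptv
    (ℕ × ℕ) (fun p => v₁ p.1) (fun p => vl p.2) hsv1 hsvl hcond fun p => (hvl1 p.2).1
  obtain ⟨f2, hf2, hf2'⟩ := h2 S U hS hU (X × PM k) (CPh k) (JJ A₁ (th v.1)) d v hd hfr hptv
    (ℕ × ℕ) (fun p => v₁ p.1) f1 hsv1 hf1 hcond fun p => (hf1' p).1
  obtain ⟨f3, hf3, hf3'⟩ := h2 S U hS hU (X × PM k) (CPh k) (JJ A₁ (th v.1)) d v hd hfr hptv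
    (ℕ × ℕ) (fun p => v₁ p.1) f2 hsv1 hf2 hcond fun p => (hf2' p).1
  -- points over the frames
  have hin : ∀ {f : ℕ × ℕ → WF k X}, (∀ p, f p ∈ orb v) →
      ∀ p, f p ∈ orb (qE ((w.1, l₀) : XE k X)) := by
    intro f hf p
    rw [hq0]
    exact hf p
  obtain ⟨g0, hg0, hg0'⟩ := lift_fam (W := XE k X) (Z := WF k X) hS hU hqc hqe hpte hqpt hsvl
    (hin fun p => (hvl1 p.2).1)
  obtain ⟨g1, hg1, hg1'⟩ := lift_fam (W := XE k X) (Z := WF k X) hS hU hqc hqe hpte hqpt hf1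
    (hin fun p => (hf1' p).1)
  obtain ⟨g2, hg2, hg2'⟩ := lift_fam (W := XE k X) (Z := WF k X) hS hU hqc hqe hpte hqpt hf2
    (hin fun p => (hf2' p).1)
  obtain ⟨g3, hg3, hg3'⟩ := lift_fam (W := XE k X) (Z := WF k X) hS hU hqc hqe hpte hqpt hf3
    (hin fun p => (hf3' p).1)
  obtain ⟨e, he, hmem, hmin⟩ := joint (Y := X × PM k) (C := CPh k) (W := XE k X) hS hU h4 hd hfr
    hminv hptv hvl hvl1 (e := fun p => ((g0 p, g1 p, g2 p, g3 p) : Q4 (XE k X)))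
    ⟨hg0, hg1, hg2, hg3⟩
  have hc0 : ∀ p, (e p).1 ∈ orb ((w.1, l₀) : XE k X) := fun p =>
    orb_map' (X := WF k X × ((ℕ → WF k X) × (ℕ × ℕ → Q4 (XE k X)))) (Y := XE k X)
      (f := fun z => (z.2.2 p).1) (by fun_prop) (fun n z => rfl) (hg0' p).1 _ hmem
  have hc1 : ∀ p, (e p).2.1 ∈ orb ((w.1, l₀) : XE k X) := fun p =>
    orb_map' (X := WF k X × ((ℕ → WF k X) × (ℕ × ℕ → Q4 (XE k X)))) (Y := XE k X)
      (f := fun z => (z.2.2 p).2.1) (by fun_prop) (fun n z => rfl) (hg1' p).1 _ hmem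
  have hc2 : ∀ p, (e p).2.2.1 ∈ orb ((w.1, l₀) : XE k X) := fun p =>
    orb_map' (X := WF k X × ((ℕ → WF k X) × (ℕ × ℕ → Q4 (XE k X)))) (Y := XE k X)
      (f := fun z => (z.2.2 p).2.2.1) (by fun_prop) (fun n z => rfl) (hg2' p).1 _ hmem
  have hc3 : ∀ p, (e p).2.2.2 ∈ orb ((w.1, l₀) : XE k X) := fun p =>
    orb_map' (X := WF k X × ((ℕ → WF k X) × (ℕ × ℕ → Q4 (XE k X)))) (Y := XE k X)
      (f := fun z => (z.2.2 p).2.2.2) (by fun_prop) (fun n z => rfl) (hg3' p).1 _ hmem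
  refine ⟨v₁, vl, e, ?_⟩
  refine ⟨hv1, fun i => ⟨(hv1' i).1, (hv1' i).2.1⟩, fun i => (hv1' i).2.2.1,
    fun i => (hv1' i).2.2.2, hvl, hvl1, hvl2, he, fun p => ⟨hc0 p, hc1 p, hc2 p, hc3 p⟩, ?_, ?_,
    hmin⟩
  · intro i l
    exact orb_eqn (X := WF k X × ((ℕ → WF k X) × (ℕ × ℕ → Q4 (XE k X)))) (Y := WF k X)
      (f := fun z => qE (z.2.2 (i, l)).1) (g := fun z => z.2.1 l)
      (hqc.comp (by fun_prop)) (by fun_prop) (fun n z => rfl) (fun n z => rfl)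
      (hg0' (i, l)).2 _ hmem
  · intro i l
    refine ⟨?_, ?_, ?_⟩
    · refine orb_map' (X := WF k X × ((ℕ → WF k X) × (ℕ × ℕ → Q4 (XE k X))))
        (Y := WF k X × WF k X) (f := fun z => (qE (z.2.2 (i, l)).1, qE (z.2.2 (i, l)).2.1))
        ((hqc.comp (by fun_prop)).prodMk (hqc.comp (by fun_prop))) (fun n z => rfl) ?_ _ hmem
      change (qE (g0 (i, l)), qE (g1 (i, l))) ∈ orb (v, v₁ i)
      rw [(hg0' (i, l)).2, (hg1' (i, l)).2]
      exact (hf1' (i, l)).2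
    · refine orb_map' (X := WF k X × ((ℕ → WF k X) × (ℕ × ℕ → Q4 (XE k X))))
        (Y := WF k X × WF k X) (f := fun z => (qE (z.2.2 (i, l)).2.1, qE (z.2.2 (i, l)).2.2.1))
        ((hqc.comp (by fun_prop)).prodMk (hqc.comp (by fun_prop))) (fun n z => rfl) ?_ _ hmem
      change (qE (g1 (i, l)), qE (g2 (i, l))) ∈ orb (v, v₁ i)
      rw [(hg1' (i, l)).2, (hg2' (i, l)).2]
      exact (hf2' (i, l)).2
    · refine orb_map' (X := WF k X × ((ℕ → WF k X) × (ℕ × ℕ → Q4 (XE k X))))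
        (Y := WF k X × WF k X) (f := fun z => (qE (z.2.2 (i, l)).2.2.1, qE (z.2.2 (i, l)).2.2.2))
        ((hqc.comp (by fun_prop)).prodMk (hqc.comp (by fun_prop))) (fun n z => rfl) ?_ _ hmem
      change (qE (g2 (i, l)), qE (g3 (i, l))) ∈ orb (v, v₁ i)
      rw [(hg2' (i, l)).2, (hg3' (i, l)).2]
      exact (hf3' (i, l)).2

end Pool.Agent.Work.MP_69fea5_lc.W3
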