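import Pool.Agent.Work.MP_69fea5_lc.W3.StmtsF1

/-!
# Block [69fea5 F1], item TYP: typical values are `0` or `1`
-/

set_option autoImplicit false

namespace Pool.Agent.Work.MP_69fea5_lc.W3

open MeasureTheory Topology Set Filter TopologicalSpace
open scoped NNReal ENNReal
open Pool.Agent.Work.MP_69fea5_lc.AK

/-- [TYP] -/
theorem TYP_pf (h1 : S_UNA) (h2 : S_MCM) (h3 : S_PUR) (h4 : S_JMC) : S_TYP := by
  intro O Y C X' _ _ _ _ _ _ _ _ _ _ _ _ _ _ _ _ A ms θ v₀ E q lm Ya hPE hAX p hp Θ hΘ R hR hRi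
  obtain ⟨Aa, hLev, hUni, -, hAll⟩ := h1 O Y C X' A ms θ v₀ E q lm Ya hPE hAX
  obtain ⟨-, -, -, -, -, hbase⟩ := h4 O Y C X' A ms θ v₀ E q lm hPE
  -- a point of the fibre
  have hpA : p.1 ∈ Prod.fst '' FE E q lm := by
    rw [hbase, ← hAX.base]
    exact ⟨p, hp, rfl⟩
  obtain ⟨_, ⟨e, he, rfl⟩, hep⟩ := hpA
  have hqe : q e ∈ orb v₀ := by
    rw [← hPE.base]
    exact ⟨e, he, rfl⟩
  obtain ⟨u, hu⟩ := hAll p hp (q e) hqe hep
  have hAcl : IsClosed {x : O × (Y × (ℕ → C)) | (x, p) ∈ Aa} :=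
    hLev.min.closed.preimage (continuous_id.prodMk continuous_const)
  have hone : p.2 {x | (x, p) ∈ Aa} = 1 := hLev.one ((u, q e), p) hu
  have hR'c : IsClosed {z : (O × (Y × (ℕ → C))) × (O × (Y × (ℕ → C))) |
      ((z.1.1, z.2.1), z.1.2) ∈ R} :=
    hR.preimage (((continuous_fst.comp continuous_fst).prodMk
      (continuous_fst.comp continuous_snd)).prodMk (continuous_snd.comp continuous_fst))
  -- McMahon
  have hN1 := h2 (O × (Y × (ℕ → C))) (O × (Y × (ℕ → C)))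
    (Y × ProbabilityMeasure (O × (Y × (ℕ → C)))) Aa Prod.snd
    {t | ((t.1.1, t.2.1.1), t.1.2) ∈ R} hLev.min hLev.cont hLev.equi
    (hR.preimage (((continuous_fst.comp continuous_fst).prodMk
      (continuous_fst.comp (continuous_fst.comp continuous_snd))).prodMk
      (continuous_snd.comp continuous_fst)))
    (fun n t ht => hRi n _ ht)
  have hN2 := h2 (O × (Y × (ℕ → C))) (O × (Y × (ℕ → C)))
    (Y × ProbabilityMeasure (O × (Y × (ℕ → C)))) Aa Prod.snd
    {t | ((t.2.1.1, t.1.1), t.2.1.2) ∈ R} hLev.min hLev.cont hLev.equi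
    (hR.preimage (((continuous_fst.comp (continuous_fst.comp continuous_snd)).prodMk
      (continuous_fst.comp continuous_fst)).prodMk
      (continuous_snd.comp (continuous_fst.comp continuous_snd))))
    (fun n t ht => hRi n _ ht)
  have hP := h3 O (Y × (ℕ → C)) X' p.2 {x | (x, p) ∈ Aa}
    {z | ((z.1.1, z.2.1), z.1.2) ∈ R} lm q Θ hAcl hone hR'c hPE.cont hPE.spx.cont
    (fun x hx x' hx' hxx' => hN1.2.2.2 (Y × (ℕ → C)) (fun p => p.1.2) hUni p x x' hx hx' hxx')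
    (fun x hx x' hx' hxx' => hN2.2.2.2 (Y × (ℕ → C)) (fun p => p.1.2) hUni p x x' hx hx' hxx')
    hΘ
  exact hP

end Pool.Agent.Work.MP_69fea5_lc.W3
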