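import Pool.Agent.Work.MP_69fea5_lc.W3.StmtsM
import Pool.Agent.Work.MP_69fea5_lc.AK.I_ORB

/-!
# [69fea5 M UMC] the almost periodic quadruples over a chain of frames form one minimal set
-/

set_option autoImplicit false

namespace Pool.Agent.Work.MP_69fea5_lc.W3

open MeasureTheory Topology Set Filter TopologicalSpace
open scoped NNReal ENNReal
open Pool.Agent.Work.MP_69fea5_lc.AK
open Pool.Agent.Work.MP_69fea5_lc.HK (Cl DU Ar ArF ArR Dat Law LawC act near sc Pt oc Mn mr ext)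
open Pool.Agent.Work.MP_69fea5_lc.KC (Agree)

namespace I_UMC

/-- The points of `P` with one more point of `E` in front. -/
def Cns {X' Z F : Type} (E : Set X') (q : X' → F) (Γ : Set (F × F)) (P : Set Z) (b : Z → F) :
    Set (X' × Z) :=
  {e | e.1 ∈ E ∧ e.2 ∈ P ∧ (q e.1, b e.2) ∈ Γ}

section cns

variable {X' Z F : Type} [TopologicalSpace X'] [MeasurableSpace X'] [CS X'] [Sys X']
  [TopologicalSpace Z] [MeasurableSpace Z] [CS Z] [Sys Z]
  [TopologicalSpace F] [MeasurableSpace F] [CS F] [Sys F]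
  {E : Set X'} {q : X' → F} {Γ : Set (F × F)} {P : Set Z} {b : Z → F}

theorem cns_closed (hE : IsClosed E) (hq : Continuous q) (hΓ : IsClosed Γ) (hP : IsClosed P)
    (hb : Continuous b) : IsClosed (Cns E q Γ P b) :=
  (hE.preimage continuous_fst).inter ((hP.preimage continuous_snd).inter
    (hΓ.preimage ((hq.comp continuous_fst).prodMk (hb.comp continuous_snd))))

theorem cns_inv (hE : AK.Inv E) (hq : ∀ (n : ℤ) (e : X'), q (sh n e) = sh n (q e))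
    (hΓ : AK.Inv Γ) (hP : AK.Inv P) (hb : ∀ (n : ℤ) (e : Z), b (sh n e) = sh n (b e)) :
    AK.Inv (Cns E q Γ P b) := by
  rintro n ⟨e, z⟩ ⟨h1, h2, h3⟩
  refine ⟨hE n _ h1, hP n _ h2, ?_⟩
  have := hΓ n _ h3
  change (q (sh n e), b (sh n z)) ∈ Γ
  rw [hq, hb]
  exact this

theorem cns_ne (hΓ : ∀ f ∈ q '' E, ∃ g, (g, f) ∈ Γ ∧ g ∈ q '' E) (hPb : b '' P ⊆ q '' E)
    (hne : P.Nonempty) : (Cns E q Γ P b).Nonempty := by
  obtain ⟨z, hz⟩ := hne
  obtain ⟨g, hg, e, he, rfl⟩ := hΓ (b z) (hPb (mem_image_of_mem b hz))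
  exact ⟨(e, z), he, hz, hg⟩

theorem cns_spr (hspp : S_SPP) (hspc : S_SPC) (hEs : SPr E q) (hE : IsClosed E) (hEi : AK.Inv E)
    (hΓ1 : ∀ e ∈ E, ∃ w, (q e, w) ∈ Γ)
    (hg : ∀ p ∈ Γ, ∀ p' ∈ Γ, p.1 = p'.1 → p.2 = p'.2) (hPs : SPr P b)
    (hcl : IsClosed (Cns E q Γ P b)) (hinv : AK.Inv (Cns E q Γ P b)) :
    SPr (Cns E q Γ P b) (fun e => q e.1) := by
  classical
  set g : F → F := fun x => if h : ∃ w, (x, w) ∈ Γ then h.choose else x with hgd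
  have hgs : ∀ e ∈ E, ∀ y, (q e, y) ∈ Γ ↔ g (q e) = y := by
    intro e he y
    have hex := hΓ1 e he
    have hsp : (q e, g (q e)) ∈ Γ := by
      simp only [hgd, dif_pos hex]
      exact hex.choose_spec
    constructor
    · intro hy
      exact hg _ hsp _ hy rfl
    · rintro rfl
      exact hsp
  have heq : Cns E q Γ P b = {e : X' × Z | e.1 ∈ E ∧ e.2 ∈ P ∧ g (q e.1) = b e.2} := by
    ext e
    constructor
    · rintro ⟨h1, h2, h3⟩
      exact ⟨h1, h2, (hgs _ h1 _).1 h3⟩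
    · rintro ⟨h1, h2, h3⟩
      exact ⟨h1, h2, (hgs _ h1 _).2 h3⟩
  have h1 : SPr (Cns E q Γ P b) Prod.fst := by
    rw [heq]
    exact hspp X' Z F E P (fun e => g (q e)) b hPs
  exact hspc (X' × Z) X' F (Cns E q Γ P b) E Prod.fst q continuous_fst (fun _ _ => rfl) hcl hinv
    (by rintro _ ⟨e, he, rfl⟩; exact he.1) h1 hEs

end cns

end I_UMC

open I_UMC in
theorem UMC_pf (h1 : S_AUT) (h2 : S_SPC) (h3 : S_SPP) (h4 : S_UMS) : S_UMC := by
  intro k Y C X' _ _ _ _ _ _ _ _ _ _ _ _ A ms θ v v₁ E q lm hPE hv₁ hv₁b P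
  obtain ⟨d, hd⟩ := hPE.pha.iso
  obtain ⟨hZ, hfr, -, -, hpair⟩ := h1 C Y (JJ A θ) d hd v hPE.frm
  obtain ⟨hΓm, -, hΓg, hΓ1, hΓ2⟩ := hpair v₁ (hfr v₁ hv₁) hv₁b
  have horb₁ : orb v₁ = orb v := I_ORB.orb_eq v₁ _ hZ hv₁
  rw [horb₁] at hΓ2
  have hEc : IsClosed E := hPE.spx.min.closed
  have hEi : AK.Inv E := hPE.spx.min.inv
  have hqc : Continuous q := hPE.spx.cont
  have hqe : ∀ (n : ℤ) (e : X'), q (sh n e) = sh n (q e) := hPE.spx.equi
  have hqb : q '' E = orb v := hPE.base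
  have hto : ∀ e ∈ E, ∃ w, (q e, w) ∈ orb (v, v₁) := by
    intro e he
    have : q e ∈ Prod.fst '' orb (v, v₁) := by
      rw [hΓ1, ← hqb]
      exact mem_image_of_mem q he
    obtain ⟨⟨a, w⟩, ha, hae⟩ := this
    change a = q e at hae
    exact ⟨w, hae ▸ ha⟩
  have hfrom : ∀ f ∈ q '' E, ∃ g, (g, f) ∈ orb (v, v₁) ∧ g ∈ q '' E := by
    intro f hf
    rw [hqb, ← hΓ2] at hf
    obtain ⟨⟨g, f'⟩, hgf, hff⟩ := hf
    change f' = f at hff
    subst hff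
    refine ⟨g, hgf, ?_⟩
    rw [hqb, ← hΓ1]
    exact ⟨_, hgf, rfl⟩
  have hgr : ∀ p ∈ orb (v, v₁), ∀ p' ∈ orb (v, v₁), p.1 = p'.1 → p.2 = p'.2 := fun p hp p' hp' =>
    (hΓg p hp p' hp').1
  -- pairs
  set P2 : Set (X' × X') := Cns E q (orb (v, v₁)) E q with hP2
  have c2 : IsClosed P2 := cns_closed hEc hqc hΓm.closed hEc hqc
  have i2 : AK.Inv P2 := cns_inv hEi hqe hΓm.inv hEi hqe
  have n2 : P2.Nonempty := cns_ne hfrom subset_rfl hPE.spx.min.ne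
  have s2 : SPr P2 (fun e => q e.1) :=
    cns_spr h3 h2 hPE.spx.spr hEc hEi hto hgr hPE.spx.spr c2 i2
  have b2 : (fun e : X' × X' => q e.1) '' P2 ⊆ q '' E := by
    rintro _ ⟨e, he, rfl⟩
    exact mem_image_of_mem q he.1
  -- triples
  have k2 : Continuous fun e : X' × X' => q e.1 := hqc.comp continuous_fst
  set P3 : Set (X' × X' × X') := Cns E q (orb (v, v₁)) P2 (fun e => q e.1) with hP3
  have c3 : IsClosed P3 := cns_closed hEc hqc hΓm.closed c2 k2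
  have i3 : AK.Inv P3 := cns_inv hEi hqe hΓm.inv i2 (fun n e => hqe n e.1)
  have n3 : P3.Nonempty := cns_ne hfrom b2 n2
  have s3 : SPr P3 (fun e => q e.1) := cns_spr h3 h2 hPE.spx.spr hEc hEi hto hgr s2 c3 i3
  have b3 : (fun e : X' × X' × X' => q e.1) '' P3 ⊆ q '' E := by
    rintro _ ⟨e, he, rfl⟩
    exact mem_image_of_mem q he.1
  -- quadruples
  have k3 : Continuous fun e : X' × X' × X' => q e.1 := hqc.comp continuous_fst
  have hP : P = Cns E q (orb (v, v₁)) P3 (fun e => q e.1) := by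
    ext ξ
    constructor
    · rintro ⟨a1, a2, a3, a4, a5, a6, a7⟩
      exact ⟨a1, ⟨a2, ⟨a3, a4, a7⟩, a6⟩, a5⟩
    · rintro ⟨a1, ⟨a2, ⟨a3, a4, a7⟩, a6⟩, a5⟩
      exact ⟨a1, a2, a3, a4, a5, a6, a7⟩
  have c4 : IsClosed P := by
    rw [hP]
    exact cns_closed hEc hqc hΓm.closed c3 k3
  have i4 : AK.Inv P := by
    rw [hP]
    exact cns_inv hEi hqe hΓm.inv i3 (fun n e => hqe n e.1)
  have n4 : P.Nonempty := by
    rw [hP]
    exact cns_ne hfrom b3 n3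
  have s4 : SPr P (fun e => q e.1) := by
    rw [hP] at c4 i4 ⊢
    exact cns_spr h3 h2 hPE.spx.spr hEc hEi hto hgr s3 c4 i4
  have k4 : Continuous fun e : Q4 X' => q e.1 := hqc.comp continuous_fst
  refine ⟨c4, i4, ?_⟩
  have himg : (fun e : Q4 X' => q e.1) '' P = orb v := by
    refine hZ.min _ (c4.isCompact.image k4).isClosed (n4.image _) ?_ ?_
    · rintro n _ ⟨ξ, hξ, rfl⟩
      exact ⟨sh n ξ, i4 n ξ hξ, hqe n _⟩
    · rintro _ ⟨ξ, hξ, rfl⟩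
      rw [← hqb]
      exact mem_image_of_mem q hξ.1
  obtain ⟨L, hL, hLP, hLu⟩ := h4 (Q4 X') (Y × (ℕ → C)) P (fun e => q e.1) k4
    (fun n e => hqe n e.1) c4 i4 (by rw [himg]; exact hZ) s4
  refine ⟨L, hL, hLP, ?_⟩
  intro ξ hξ hm
  have hsub : orb ξ ⊆ P := I_ORB.orb_subset ξ P c4 i4 hξ
  exact (hm.min L hL.closed hL.ne hL.inv (hLu _ hm.closed hm.ne hm.inv hsub)).symm

end Pool.Agent.Work.MP_69fea5_lc.W3
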