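import Pool.Agent.Work.MP_69fea5_lc.W3.StmtsF1

/-!
# Block [69fea5 F1], item UMP
-/

set_option autoImplicit false

namespace Pool.Agent.Work.MP_69fea5_lc.W3

open MeasureTheory Topology Set Filter TopologicalSpace
open scoped NNReal ENNReal
open Pool.Agent.Work.MP_69fea5_lc.AK

namespace I_UMP

section gen

variable {X Y : Type*} [TopologicalSpace X] [Sys X] [TopologicalSpace Y] [Sys Y]

theorem mem_orb (x : X) : x ∈ orb x := subset_closure ⟨0, sh_zero x⟩

theorem inv_orb (x : X) : AK.Inv (orb x) := by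
  intro n y hy
  have h1 : (sh n : X → X) '' orb x ⊆ orb x := by
    refine (image_closure_subset_closure_image (sh_cont n)).trans (closure_mono ?_)
    rintro _ ⟨_, ⟨m, rfl⟩, rfl⟩
    exact ⟨n + m, sh_add n m x⟩
  exact h1 ⟨y, hy, rfl⟩

theorem orb_sub {K : Set X} (hc : IsClosed K) (hi : AK.Inv K) {x : X} (hx : x ∈ K) :
    orb x ⊆ K := by
  refine closure_minimal ?_ hc
  rintro _ ⟨n, rfl⟩
  exact hi n x hx

theorem map_orb (f : X → Y) (hf : Continuous f) (he : ∀ (n : ℤ) (x : X), f (sh n x) = sh n (f x))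
    {x y : X} (hy : y ∈ orb x) : f y ∈ orb (f x) := by
  have h1 : f '' orb x ⊆ orb (f x) := by
    refine (image_closure_subset_closure_image hf).trans (closure_mono ?_)
    rintro _ ⟨_, ⟨m, rfl⟩, rfl⟩
    exact ⟨m, (he m x).symm⟩
  exact h1 ⟨y, hy, rfl⟩

end gen

/-- the sequence `a, b, b, ...` -/
def sqn {X' : Type} (a b : X') : ℕ → X' := fun i => if i = 0 then a else b

end I_UMP

open I_UMP in
theorem UMP_pf (h1 : S_ULT) (h2 : S_JCT) (h3 : S_SPN) : S_UMP := by
  intro X X' _ _ _ _ _ _ _ _ E q hE a ha b hb a' ha' b' hb' hmin hcl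
  have hEc : IsClosed E := hE.min.closed
  have hEi : AK.Inv E := hE.min.inv
  -- a point of the orbit closure over `(q a, q b)`
  have himg : (fun p : X' × X' => (q p.1, q p.2)) '' orb (a', b') = orb (q a', q b') :=
    (h1 (X' × X')).2.2 (X × X) (fun p : X' × X' => (q p.1, q p.2)) inferInstance
      ((hE.cont.comp continuous_fst).prodMk (hE.cont.comp continuous_snd))
      (fun n p => Prod.ext (hE.equi n p.1) (hE.equi n p.2)) (a', b')
  rw [← himg] at hcl
  obtain ⟨⟨a'', b''⟩, hab, hq⟩ := hcl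
  have hq1 : q a'' = q a := congrArg Prod.fst hq
  have hq2 : q b'' = q b := congrArg Prod.snd hq
  have hEE : orb (a', b') ⊆ E ×ˢ E :=
    orb_sub (hEc.prod hEc) (fun n p hp => ⟨hEi n p.1 hp.1, hEi n p.2 hp.2⟩) ⟨ha', hb'⟩
  have ha'' : a'' ∈ E := (hEE hab).1
  have hb'' : b'' ∈ E := (hEE hab).2
  -- the sequences
  let Ξ : Set (ℕ → X') := {ξ | ∀ i, ξ i ∈ E}
  have hΞc : IsClosed Ξ := by
    have : Ξ = ⋂ i : ℕ, (fun ξ : ℕ → X' => ξ i) ⁻¹' E := by
      ext ξ; simp [Ξ]
    rw [this]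
    exact isClosed_iInter fun i => hEc.preimage (continuous_apply i)
  have hΞi : AK.Inv Ξ := fun n ξ hξ i => hEi n (ξ i) (hξ i)
  have hspr : SPr Ξ (fun ξ : ℕ → X' => fun i => q (ξ i)) :=
    h3 X' X (ℕ → X) E q Ξ (fun ξ : ℕ → X' => fun i => q (ξ i)) hE.cont hE.equi hEc hEi hE.spr
      hΞc hΞi (fun ξ hξ i => hξ i) (fun ξ _ ξ' _ h i => congrFun h i)
  have hsq : ∀ x y : X', x ∈ E → y ∈ E → sqn x y ∈ Ξ := by
    intro x y hx hy i
    by_cases hi : i = 0
    · simpa [sqn, hi] using hx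
    · simpa [sqn, hi] using hy
  obtain ⟨e, he⟩ := (h2 (ℕ → X') (ℕ → X) Ξ (fun ξ : ℕ → X' => fun i => q (ξ i)) hspr).2
    (sqn a b) (hsq a b ha hb) (sqn a'' b'') (hsq a'' b'' ha'' hb'') (by
      funext i
      by_cases hi : i = 0
      · simp [sqn, hi, hq1]
      · simp [sqn, hi, hq2])
  -- projections
  have hp1 : (e 0, e 1) ∈ orb (a, b) := by
    have := map_orb (fun p : (ℕ → X') × (ℕ → X') => (p.1 0, p.1 1))
      (((continuous_apply 0).comp continuous_fst).prodMk
        ((continuous_apply 1).comp continuous_fst)) (fun n p => rfl) he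
    simpa [sqn] using this
  have hp2 : (e 0, e 1) ∈ orb (a'', b'') := by
    have := map_orb (fun p : (ℕ → X') × (ℕ → X') => (p.2 0, p.2 1))
      (((continuous_apply 0).comp continuous_snd).prodMk
        ((continuous_apply 1).comp continuous_snd)) (fun n p => rfl) he
    simpa [sqn] using this
  have hm : orb (e 0, e 1) = orb (a, b) :=
    hmin.min _ isClosed_closure ⟨_, mem_orb _⟩ (inv_orb _) (orb_sub hmin.closed hmin.inv hp1)
  rw [← hm]
  exact (orb_sub isClosed_closure (inv_orb _) hp2).trans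
    (orb_sub isClosed_closure (inv_orb _) hab)

end Pool.Agent.Work.MP_69fea5_lc.W3
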