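import Pool.Agent.Work.MP_69fea5_lc.W3.StmtsF1

/-!
# Block [69fea5 F1], item UNA: the pairs (letter, frame) over the auxiliary section

Proof: docstring of `S_UNA` in `W3/StmtsF1.lean`.
-/

set_option autoImplicit false

namespace Pool.Agent.Work.MP_69fea5_lc.W3

open MeasureTheory Topology Set Filter TopologicalSpace
open scoped NNReal ENNReal
open Pool.Agent.Work.MP_69fea5_lc.AK

namespace I_UNA

/-- the image of a minimal set -/
theorem image_min {X Z : Type} [TopologicalSpace X] [Sys X] [TopologicalSpace Z] [Sys Z]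
    [CompactSpace X] [T2Space Z] {K : Set X} (hK : MinSet K) {f : X → Z} (hf : ContinuousOn f K)
    (he : ∀ n : ℤ, ∀ x ∈ K, f (sh n x) = sh n (f x)) : MinSet (f '' K) where
  closed := (hK.closed.isCompact.image_of_continuousOn hf).isClosed
  ne := hK.ne.image f
  inv := by
    rintro n _ ⟨x, hx, rfl⟩
    exact ⟨sh n x, hK.inv n x hx, he n x hx⟩
  min := by
    intro L hL hne hinv hsub
    have h1 : K ∩ f ⁻¹' L = K := by
      refine hK.min _ (hf.preimage_isClosed_of_isClosed hK.closed hL) ?_ ?_ inter_subset_left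
      · obtain ⟨y, hy⟩ := hne
        obtain ⟨x, hx, rfl⟩ := hsub hy
        exact ⟨x, hx, hy⟩
      · rintro n x ⟨hx, hxL⟩
        refine ⟨hK.inv n x hx, ?_⟩
        change f (sh n x) ∈ L
        rw [he n x hx]
        exact hinv n _ hxL
    refine Subset.antisymm hsub ?_
    rintro _ ⟨x, hx, rfl⟩
    rw [← h1] at hx
    exact hx.2

theorem mem_orb_self {X : Type} [TopologicalSpace X] [Sys X] (x : X) : x ∈ orb x :=
  subset_closure ⟨0, sh_zero x⟩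

theorem orb_eq {X : Type} [TopologicalSpace X] [Sys X] {K : Set X} (hK : MinSet K) {x : X}
    (hx : x ∈ K) : orb x = K := by
  refine hK.min _ isClosed_closure ⟨x, mem_orb_self x⟩ ?_ ?_
  · intro n y hy
    refine map_mem_closure (sh_cont n) hy ?_
    rintro _ ⟨m, rfl⟩
    exact ⟨n + m, sh_add n m x⟩
  · refine closure_minimal ?_ hK.closed
    rintro _ ⟨n, rfl⟩
    exact hK.inv n x hx

theorem image_lvl {O Y P T : Type} [TopologicalSpace O] [Sys O] [CompactSpace O] [T2Space O]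
    [TopologicalSpace Y] [Sys Y] [CompactSpace Y] [T2Space Y] [TopologicalSpace P] [Sys P]
    [CompactSpace P] [T2Space P] [TopologicalSpace T] [Sys T] [CompactSpace T] [T2Space T]
    {B : Set ((O × ((Y × P) × T)) × (Y × P))} (hB : MinSet B) :
    MinSet ((fun p : (O × ((Y × P) × T)) × (Y × P) =>
      (((p.1.1, (p.1.2.1.1, p.1.2.2)), p.2) : (O × (Y × T)) × (Y × P))) '' B) :=
  image_min hB (by fun_prop) fun n x _ => rfl

theorem ipb_pull {O₁ O₂ X : Type} [TopologicalSpace O₁] [Sys O₁] [TopologicalSpace O₂] [Sys O₂]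
    [TopologicalSpace X] [Sys X] {A₁ : Set (O₁ × X)} {A₂ : Set (O₂ × X)} {ρ : O₂ → O₂ → X → ℝ}
    (hρ : IPB A₂ ρ) (f : O₁ → O₂) (hf : Continuous f)
    (he : ∀ (n : ℤ) (u : O₁), f (sh n u) = sh n (f u))
    (hA : ∀ (u : O₁) (x : X), (u, x) ∈ A₁ → (f u, x) ∈ A₂) :
    IPB A₁ (fun a b x => ρ (f a) (f b) x) where
  cont := by
    refine hρ.cont.comp (f := fun p : O₁ × O₁ × X => (f p.1, f p.2.1, p.2.2)) ?_ ?_
    · exact ((hf.comp continuous_fst).prodMk ((hf.comp (continuous_fst.comp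
        continuous_snd)).prodMk (continuous_snd.comp continuous_snd))).continuousOn
    · rintro p ⟨h1, h2⟩
      exact ⟨hA _ _ h1, hA _ _ h2⟩
  inv n x u u' hu hu' := by
    rw [he, he]
    exact hρ.inv n x _ _ (hA _ _ hu) (hA _ _ hu')
  self x u hu := hρ.self x _ (hA _ _ hu)
  nonneg x u u' hu hu' := hρ.nonneg x _ _ (hA _ _ hu) (hA _ _ hu')
  symm x u u' hu hu' := hρ.symm x _ _ (hA _ _ hu) (hA _ _ hu')
  tri x u u' u'' hu hu' hu'' := hρ.tri x _ _ _ (hA _ _ hu) (hA _ _ hu') (hA _ _ hu'')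

end I_UNA

open I_UNA in
theorem UNA_pf (h1 : S_BCX) (h2 : S_BCF) (h3 : S_PHB) (h4 : S_DIS) (h5 : S_AUT) (h6 : S_T7M)
    (h7 : S_T7V) (h8 : S_RIM) (h9 : S_FEK) (h10 : S_BRX) (h11 : S_JMC) : S_UNA := by
  intro O Y C X' _ _ _ _ _ _ _ _ _ _ _ _ _ _ _ _ A ms θ v₀ E q lm Ya hPE hAX
  have hspx := hAX.spx
  -- the base change of `A`
  obtain ⟨A₁, hA₁⟩ := h1 O Y _ A Ya Prod.fst hspx hPE.lev.min hAX.base.symm
  have hPh : Pha A₁ (fun p => θ (p.1, p.2.1)) :=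
    h3 O Y _ C A Ya Prod.fst A₁ ms θ hA₁ hPE.lev hPE.pha
  obtain ⟨d, hd⟩ := hPE.pha.iso
  obtain ⟨d₁, hd₁⟩ := hPh.iso
  -- the phases
  have hJmin : MinSet (JJ A θ) :=
    image_min hPE.pha.min (hPE.pha.cont.prodMk continuousOn_snd) fun n x hx => by
      rw [hPE.pha.equi x hx n]
      rfl
  have hJsnd : Prod.snd '' JJ A θ = Prod.snd '' A := by
    rw [JJ, image_image]
  have hDP := h4 C Y _ (JJ A θ) d Ya Prod.fst hd hJmin hspx (by rw [hAX.base, hJsnd])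
  have hJJ : JJ A₁ (fun p => θ (p.1, p.2.1)) =
      {p : C × (Y × ProbabilityMeasure (O × (Y × (ℕ → C)))) | p.2 ∈ Ya ∧
        (p.1, p.2.1) ∈ JJ A θ} := by
    refine hDP.min _ hd₁.closed (hPh.min.ne.image _) hd₁.inv ?_
    rintro _ ⟨p, hp, rfl⟩
    have := hA₁.sub hp
    exact ⟨this.1, ⟨_, this.2, rfl⟩⟩
  -- the orbit closure of the first frame
  obtain ⟨hZmin, hZfrm, hZfst, ⟨d', hd'⟩, -⟩ := h5 C Y (JJ A θ) d hd v₀ hPE.frm
  have hbase : Prod.fst '' orb v₀ = Prod.fst '' Ya := by rw [hZfst, hJsnd, hAX.base]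
  have hv₀ : v₀.1 ∈ Prod.fst '' Ya := by
    rw [← hbase]
    exact ⟨v₀, mem_orb_self v₀, rfl⟩
  obtain ⟨p₀, hp₀, hp₀v⟩ := hv₀
  have hfrm : Frm (JJ A₁ (fun p => θ (p.1, p.2.1))) (p₀, v₀.2) := by
    refine ⟨fun l => ?_, fun s hs => ?_⟩
    · rw [hJJ]
      refine ⟨hp₀, ?_⟩
      change (v₀.2 l, p₀.1) ∈ JJ A θ
      rw [hp₀v]
      exact hPE.frm.1 l
    · rw [hJJ] at hs
      have hs2 : (s, p₀.1) ∈ JJ A θ := hs.2
      rw [hp₀v] at hs2
      exact hPE.frm.2 s hs2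
  -- the orbit closure of the new frame
  have hJ2 : MinSet {p : (ℕ → C) × Y | (p.2, p.1) ∈ orb v₀} := by
    have := image_min (f := fun p : Y × (ℕ → C) => (p.2, p.1)) hZmin
      (continuous_snd.prodMk continuous_fst).continuousOn fun n x _ => rfl
    have he : (fun p : Y × (ℕ → C) => (p.2, p.1)) '' orb v₀ =
        {p : (ℕ → C) × Y | (p.2, p.1) ∈ orb v₀} := by
      ext p
      constructor
      · rintro ⟨x, hx, rfl⟩
        exact hx
      · intro hp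
        exact ⟨(p.2, p.1), hp, rfl⟩
    rwa [he] at this
  have hJ2snd : Prod.fst '' Ya = Prod.snd '' {p : (ℕ → C) × Y | (p.2, p.1) ∈ orb v₀} := by
    rw [← hbase]
    ext y
    constructor
    · rintro ⟨x, hx, rfl⟩
      exact ⟨(x.2, x.1), hx, rfl⟩
    · rintro ⟨x, hx, rfl⟩
      exact ⟨(x.2, x.1), hx, rfl⟩
  have hDZ := h4 (ℕ → C) Y _ {p : (ℕ → C) × Y | (p.2, p.1) ∈ orb v₀} d' Ya Prod.fst hd' hJ2 hspx
    hJ2snd
  have hOV : MinSet {p : (Y × ProbabilityMeasure (O × (Y × (ℕ → C)))) × (ℕ → C) | p.1 ∈ Ya ∧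
      (p.1.1, p.2) ∈ orb v₀} := by
    have := image_min (f := fun p : (ℕ → C) × (Y × ProbabilityMeasure (O × (Y × (ℕ → C)))) =>
      (p.2, p.1)) hDZ (continuous_snd.prodMk continuous_fst).continuousOn fun n x _ => rfl
    have he : (fun p : (ℕ → C) × (Y × ProbabilityMeasure (O × (Y × (ℕ → C)))) => (p.2, p.1)) ''
        {p | p.2 ∈ Ya ∧ (p.1, p.2.1) ∈ {p : (ℕ → C) × Y | (p.2, p.1) ∈ orb v₀}} =
        {p : (Y × ProbabilityMeasure (O × (Y × (ℕ → C)))) × (ℕ → C) | p.1 ∈ Ya ∧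
          (p.1.1, p.2) ∈ orb v₀} := by
      ext p
      constructor
      · rintro ⟨x, hx, rfl⟩
        exact hx
      · intro hp
        exact ⟨(p.2, p.1), hp, rfl⟩
    rwa [he] at this
  have hva : (p₀, v₀.2) ∈ {p : (Y × ProbabilityMeasure (O × (Y × (ℕ → C)))) × (ℕ → C) |
      p.1 ∈ Ya ∧ (p.1.1, p.2) ∈ orb v₀} := by
    refine ⟨hp₀, ?_⟩
    change (p₀.1, v₀.2) ∈ orb v₀
    rw [hp₀v]
    exact mem_orb_self v₀
  have horb := orb_eq hOV hva
  -- the level over the new frames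
  obtain ⟨hM1, hM2, -⟩ := h6 O C _ A₁ (fun p => θ (p.1, p.2.1)) hPh (p₀, v₀.2) hfrm 0
  obtain ⟨hV1, hV2⟩ := h7 O C _ A₁ (fun p => θ (p.1, p.2.1)) hPh (p₀, v₀.2) hfrm 0
  obtain ⟨hW1, -⟩ := h7 O C _ A θ hPE.pha v₀ hPE.frm 0
  obtain ⟨hN1, hN2, -⟩ := h6 O C _ A θ hPE.pha v₀ hPE.frm 0
  have hAt : ∀ (u : O) (p : Y × ProbabilityMeasure (O × (Y × (ℕ → C)))) (t : ℕ → C),
      (u, (p, t)) ∈ At A₁ (fun p => θ (p.1, p.2.1)) (orb (p₀, v₀.2)) 0 →
      p ∈ Ya ∧ (u, (p.1, t)) ∈ At A θ (orb v₀) 0 := by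
    rintro u p t ⟨a1, a2, a3⟩
    rw [horb] at a1
    exact ⟨a1.1, a1.2, (hA₁.sub a2).2, a3⟩
  -- the new level
  obtain ⟨Aa, hAa⟩ : ∃ Aa : Set ((O × (Y × (ℕ → C))) ×
      (Y × ProbabilityMeasure (O × (Y × (ℕ → C))))), Aa = {p | p.1.2.1 = p.2.1 ∧
        (p.1.1, (p.2, p.1.2.2)) ∈ At A₁ (fun p => θ (p.1, p.2.1)) (orb (p₀, v₀.2)) 0} := ⟨_, rfl⟩
  have hAaM : MinSet Aa := by
    have := image_lvl hV1
    have he : (fun p : (O × ((Y × ProbabilityMeasure (O × (Y × (ℕ → C)))) ×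
        (ℕ → C))) × (Y × ProbabilityMeasure (O × (Y × (ℕ → C)))) =>
      (((p.1.1, (p.1.2.1.1, p.1.2.2)), p.2) : (O × (Y × (ℕ → C))) ×
        (Y × ProbabilityMeasure (O × (Y × (ℕ → C)))))) ''
        {p | p.1 ∈ At A₁ (fun p => θ (p.1, p.2.1)) (orb (p₀, v₀.2)) 0 ∧ p.1.2.1 = p.2} = Aa := by
      rw [hAa]
      ext p
      constructor
      · rintro ⟨⟨⟨u, ⟨p', t⟩⟩, p⟩, ⟨hx1, hx2⟩, rfl⟩
        change p' = p at hx2
        subst hx2
        exact ⟨rfl, hx1⟩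
      · rintro ⟨hx1, hx2⟩
        refine ⟨((p.1.1, (p.2, p.1.2.2)), p.2), ⟨hx2, rfl⟩, ?_⟩
        obtain ⟨⟨u, ⟨y, t⟩⟩, p⟩ := p
        change y = p.1 at hx1
        subst hx1
        rfl
    rwa [he] at this
  have hsub : ∀ p ∈ Aa, p.2 ∈ Ya ∧ p.1 ∈ At A θ (orb v₀) 0 ∧ p.1.2.1 = p.2.1 := by
    rintro ⟨⟨u, ⟨y, t⟩⟩, p⟩ hp
    rw [hAa] at hp
    obtain ⟨hx1, hx2⟩ := hp
    change y = p.1 at hx1
    subst hx1
    obtain ⟨b1, b2⟩ := hAt u p t hx2
    exact ⟨b1, b2, rfl⟩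
  refine ⟨Aa, ?_, ?_, hsub, ?_⟩
  · -- the relatively invariant measure
    have hB : BCh {p : (O × (Y × (ℕ → C))) × Y | p.1 ∈ At A θ (orb v₀) 0 ∧ p.1.2.1 = p.2} Ya
        Prod.fst Aa := by
      refine ⟨hspx, hW1, ?_, hAaM, ?_⟩
      · rw [← hbase]
        ext y
        constructor
        · rintro ⟨⟨⟨u, v⟩, y⟩, ⟨hx1, hx2⟩, rfl⟩
          exact ⟨v, hx1.1, hx2⟩
        · rintro ⟨v, hv, rfl⟩
          rw [← hN2] at hv
          obtain ⟨⟨u, v'⟩, hx, rfl⟩ := hv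
          exact ⟨((u, v'), v'.1), ⟨hx, rfl⟩, rfl⟩
      · intro p hp
        obtain ⟨b1, b2, b3⟩ := hsub p hp
        exact ⟨b1, b2, b3⟩
    refine h8 _ Y _ _ Ya Prod.fst Aa Prod.snd hB continuous_snd (fun n e => rfl) ?_
    intro e he
    obtain ⟨κ, hκ1, hκ2⟩ := h9 O Y C X' A ms θ v₀ E q lm hPE e (hAX.fam he)
    have hjc : Continuous (jm q lm) := (h11 O Y C X' A ms θ v₀ E q lm hPE).1
    have hmeas : MeasurableSet {w : O × (Y × (ℕ → C)) | (w, e.1) ∈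
        {p : (O × (Y × (ℕ → C))) × Y | p.1 ∈ At A θ (orb v₀) 0 ∧ p.1.2.1 = p.2}} :=
      (hW1.closed.preimage (continuous_id.prodMk continuous_const)).measurableSet
    have hform := (h10 X' (O × (Y × (ℕ → C))) κ (jm q lm) hjc.measurable).2.2.1 e.2 hκ2 _ hmeas
    have hae : ∀ᵐ e' ∂(κ : Measure X'), e' ∈ E ∧ (q e').1 = e.1 := by
      have hms : MeasurableSet {e' : X' | e' ∈ E ∧ (q e').1 = e.1} :=
        (hPE.spx.min.closed.inter (isClosed_eq (continuous_fst.comp hPE.spx.cont)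
          continuous_const)).measurableSet
      have h12 : (κ : Measure X') {e' : X' | e' ∈ E ∧ (q e').1 = e.1} = 1 := by
        have := congrArg (fun x : ℝ≥0 => (x : ℝ≥0∞)) hκ1
        simpa using this
      exact (prob_compl_eq_zero_iff hms).2 h12
    have hval : ∀ᵐ e' ∂(κ : Measure X'), (jm q lm e' : Measure (O × (Y × (ℕ → C))))
        {w : O × (Y × (ℕ → C)) | (w, e.1) ∈
        {p : (O × (Y × (ℕ → C))) × Y | p.1 ∈ At A θ (orb v₀) 0 ∧ p.1.2.1 = p.2}} = 1 := by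
      filter_upwards [hae] with e' he'
      change ((lm e' : Measure O).prod (Measure.dirac (q e'))) _ = 1
      have hmeas' : MeasurableSet {w : O × (Y × (ℕ → C)) | w ∈ At A θ (orb v₀) 0 ∧
          w.2.1 = e.1} := hmeas
      rw [Measure.prod_dirac, Measure.map_apply (by fun_prop) hmeas']
      have hone := hPE.one e' he'.1
      have h12 : (lm e' : Measure O) {u | (u, q e') ∈ At A θ (orb v₀) 0} = 1 := by
        have := congrArg (fun x : ℝ≥0 => (x : ℝ≥0∞)) hone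
        simpa using this
      rw [← h12]
      congr 1
      ext u
      exact ⟨fun hu => hu.1, fun hu => ⟨hu, he'.2⟩⟩
    rw [lintegral_congr_ae hval] at hform
    simp only [lintegral_const, measure_univ, mul_one] at hform
    have h13 : ((e.2 {w : O × (Y × (ℕ → C)) | (w, e.1) ∈
        {p : (O × (Y × (ℕ → C))) × Y | p.1 ∈ At A θ (orb v₀) 0 ∧ p.1.2.1 = p.2}} : ℝ≥0) : ℝ≥0∞) =
        ((1 : ℝ≥0) : ℝ≥0∞) := by
      rw [ProbabilityMeasure.ennreal_coeFn_eq_coeFn_toMeasure, hform, ENNReal.coe_one]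
    exact ENNReal.coe_injective h13
  · -- universality
    intro ρ hρ p w w' hw hw' heq
    change w.2 = w'.2 at heq
    have hmemB : ∀ (u : O) (p' : Y × ProbabilityMeasure (O × (Y × (ℕ → C)))) (t : ℕ → C)
        (p : Y × ProbabilityMeasure (O × (Y × (ℕ → C)))),
        ((u, (p', t)), p) ∈ {p : (O × ((Y × ProbabilityMeasure (O × (Y × (ℕ → C)))) ×
        (ℕ → C))) × (Y × ProbabilityMeasure (O × (Y × (ℕ → C)))) |
          p.1 ∈ At A₁ (fun p => θ (p.1, p.2.1)) (orb (p₀, v₀.2)) 0 ∧ p.1.2.1 = p.2} →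
        ((u, (p'.1, t)), p) ∈ Aa := by
      rintro u p' t p ⟨hx1, hx2⟩
      change p' = p at hx2
      subst hx2
      rw [hAa]
      exact ⟨rfl, hx1⟩
    have hI : IPB {p : (O × ((Y × ProbabilityMeasure (O × (Y × (ℕ → C)))) ×
        (ℕ → C))) × (Y × ProbabilityMeasure (O × (Y × (ℕ → C)))) |
          p.1 ∈ At A₁ (fun p => θ (p.1, p.2.1)) (orb (p₀, v₀.2)) 0 ∧ p.1.2.1 = p.2}
        (fun a b p => ρ (a.1, (a.2.1.1, a.2.2)) (b.1, (b.2.1.1, b.2.2)) p) :=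
      ipb_pull hρ (fun a : O × ((Y × ProbabilityMeasure (O × (Y × (ℕ → C)))) × (ℕ → C)) =>
        ((a.1, (a.2.1.1, a.2.2)) : O × (Y × (ℕ → C)))) (by fun_prop) (fun n u => rfl)
        fun a x ha => hmemB _ _ _ _ ha
    obtain ⟨u, ⟨y, t⟩⟩ := w
    obtain ⟨u', ⟨y', t'⟩⟩ := w'
    rw [hAa] at hw hw'
    obtain ⟨hw1, hw2⟩ := hw
    obtain ⟨hw1', hw2'⟩ := hw'
    change y = p.1 at hw1
    change y' = p.1 at hw1'
    subst hw1
    subst hw1'
    have ht : t = t' := congrArg Prod.snd heq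
    subst ht
    exact hV2 _ hI p (u, (p, t)) (u', (p, t)) ⟨hw2, rfl⟩ ⟨hw2', rfl⟩ rfl
  · -- every frame occurs
    rintro p hp ⟨y, t⟩ hv hvp
    change y = p.1 at hvp
    subst hvp
    have hm : (p, t) ∈ orb (p₀, v₀.2) := by
      rw [horb]
      exact ⟨hp, hv⟩
    rw [← hM2] at hm
    obtain ⟨⟨u, v'⟩, hx, rfl⟩ := hm
    refine ⟨u, ?_⟩
    rw [hAa]
    exact ⟨rfl, hx⟩

end Pool.Agent.Work.MP_69fea5_lc.W3
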