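import Pool.Agent.Work.MP_69fea5_lc.W3.StmtsF1

/-!
# Block [69fea5 F1], item VLU: the value of a closed invariant relation
-/

set_option autoImplicit false

namespace Pool.Agent.Work.MP_69fea5_lc.W3

open MeasureTheory Topology Set Filter TopologicalSpace
open scoped NNReal ENNReal
open Pool.Agent.Work.MP_69fea5_lc.AK

namespace I_VLU

variable {O Z X' : Type} [TopologicalSpace O] [MeasurableSpace O] [CS O] [Sys O]
  [TopologicalSpace Z] [MeasurableSpace Z] [CS Z] [Sys Z]
  [TopologicalSpace X'] [Sys X']

/-- the joint law of two letters and a frame -/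
noncomputable def jl (q : X' → Z) (lm : X' → ProbabilityMeasure O) (p : X' × X') :
    ProbabilityMeasure ((O × O) × Z) :=
  ((lm p.1).prod (lm p.2)).prod (diracProba (q p.1))

theorem jl_cont {q : X' → Z} {lm : X' → ProbabilityMeasure O} (hq : Continuous q)
    (hlm : Continuous lm) : Continuous (jl q lm) := by
  have h1 : Continuous fun p : X' × X' => (lm p.1).prod (lm p.2) :=
    ProbabilityMeasure.continuous_prod.comp
      ((hlm.comp continuous_fst).prodMk (hlm.comp continuous_snd))
  exact ProbabilityMeasure.continuous_prod.comp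
    (h1.prodMk (continuous_diracProba.comp (hq.comp continuous_fst)))

theorem jl_apply (q : X' → Z) (lm : X' → ProbabilityMeasure O) (p : X' × X')
    {R : Set ((O × O) × Z)} (hR : MeasurableSet R) :
    (jl q lm p : Measure ((O × O) × Z)) R =
      ((lm p.1 : Measure O).prod (lm p.2 : Measure O)) {w | (w, q p.1) ∈ R} := by
  have e : (jl q lm p : Measure ((O × O) × Z)) =
      ((lm p.1 : Measure O).prod (lm p.2 : Measure O)).prod (Measure.dirac (q p.1)) := rfl
  rw [e, Measure.prod_dirac, Measure.map_apply (by fun_prop) hR]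
  rfl

theorem usc {T : Type} [TopologicalSpace T] {W : Type} [TopologicalSpace W] [MeasurableSpace W]
    [CS W] (f : T → ProbabilityMeasure W) (hf : Continuous f) (F : Set W) (hF : IsClosed F)
    (δ : ℝ≥0∞) : IsClosed {t | δ ≤ (f t : Measure W) F} := by
  rw [isClosed_iff_ultrafilter]
  intro x u hu hs
  have h1 : Tendsto f (u : Filter T) (𝓝 (f x)) := (hf.tendsto x).mono_left hu
  have h2 := ProbabilityMeasure.limsup_measure_closed_le_of_tendsto h1 hF
  refine le_trans ?_ h2
  exact le_limsup_of_frequently_le (Eventually.frequently hs) (by isBoundedDefault)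

end I_VLU

/-- [VLU] -/
theorem VLU_pf : S_VLU := by
  intro O Y C X' _ _ _ _ _ _ _ _ _ _ _ _ _ _ _ _ q lm R hq hqe hlm hlme hR hRi
  have hcl : ∀ δ : ℝ≥0∞, IsClosed {p : X' × X' | δ ≤ vl q lm R p.1 p.2} := by
    intro δ
    have h := I_VLU.usc (I_VLU.jl q lm) (I_VLU.jl_cont hq hlm) R hR δ
    convert h using 1
    ext p
    change δ ≤ vl q lm R p.1 p.2 ↔ δ ≤ _
    rw [I_VLU.jl_apply q lm p hR.measurableSet]
    rfl
  have hinv : ∀ (n : ℤ) (a b : X'), vl q lm R (sh n a) (sh n b) = vl q lm R a b := by
    intro n a b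
    have e : ∀ c : X', (lm (sh n c) : Measure O) = (lm c : Measure O).map (sh n) := by
      intro c
      rw [hlme]
      rfl
    have hm : Measurable (sh n : O → O) := (sh_cont n).measurable
    have hset : MeasurableSet {p : O × O | (p, q (sh n a)) ∈ R} := by
      have : Measurable fun p : O × O => (p, q (sh n a)) := by fun_prop
      exact this hR.measurableSet
    unfold vl
    rw [e, e, Measure.map_prod_map _ _ hm hm, Measure.map_apply (hm.prodMap hm) hset]
    congr 1
    ext p
    constructor
    · intro h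
      have h1 := hRi (-n) _ h
      change ((sh (-n) (sh n p.1), sh (-n) (sh n p.2)), sh (-n) (q (sh n a))) ∈ R at h1
      rw [← sh_add, ← sh_add, hqe, ← sh_add] at h1
      simpa [sh_zero] using h1
    · intro h
      have h1 := hRi n _ h
      change ((sh n p.1, sh n p.2), q (sh n a)) ∈ R
      rw [hqe]
      exact h1
  refine ⟨fun a b => ?_, hcl, hinv, ?_⟩
  · unfold vl
    exact prob_le_one
  · intro p p' hp'
    have hsub : (Set.range fun n : ℤ => sh n p) ⊆
        {x : X' × X' | vl q lm R p.1 p.2 ≤ vl q lm R x.1 x.2} := by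
      rintro _ ⟨n, rfl⟩
      change _ ≤ vl q lm R (sh n p.1) (sh n p.2)
      rw [hinv]
    exact closure_minimal hsub (hcl _) hp'

end Pool.Agent.Work.MP_69fea5_lc.W3
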