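import Pool.Agent.Work.MP_69fea5_lc.W3.StmtsM

/-!
# Item [69fea5 M VNB]: the balls around the points of an orbit
-/

set_option autoImplicit false

namespace Pool.Agent.Work.MP_69fea5_lc.W3

open MeasureTheory Topology Set Filter TopologicalSpace
open scoped NNReal ENNReal
open Pool.Agent.Work.MP_69fea5_lc.AK
open Pool.Agent.Work.MP_69fea5_lc.HK (Cl DU Ar ArF ArR Dat Law LawC act near sc Pt oc Mn mr ext)
open Pool.Agent.Work.MP_69fea5_lc.KC (Agree)

theorem VNB_pf : S_VNB := by
  intro X _ _ _ _ _ x₀
  constructor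
  · rintro ⟨L, n⟩
    have h := (Law.near_open (α := X) L).preimage
      (continuous_id.prodMk (continuous_const (y := (act n x₀ : X))))
    exact h
  · intro x hx U hU
    obtain ⟨L, hL⟩ := Law.near_basis x U hU
    -- choose a point of the orbit very near `x`
    have hnb : {y : X | near (2 * L + 1) x y} ∈ 𝓝 x := by
      have h := (Law.near_open (α := X) (2 * L + 1)).preimage
        ((continuous_const (y := x)).prodMk continuous_id)
      exact h.mem_nhds (Law.near_refl _ _)
    obtain ⟨_, hy, ⟨n, rfl⟩⟩ := mem_closure_iff_nhds.1 hx _ hnb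
    have hy' : near (2 * L + 1) x (act n x₀) := by
      have h : near (2 * L + 1) x (sh n x₀) := hy
      rwa [← Agree.eq n x₀] at h
    refine ⟨(2 * L + 1, n), hy', ?_⟩
    rintro y ⟨h1, -⟩
    exact hL y (Law.near_tri L x (act n x₀) y hy' (Law.near_symm _ _ _ h1))

end Pool.Agent.Work.MP_69fea5_lc.W3
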