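import Pool.Agent.Work.MP_69fea5_lc.W3.StmtsM

/-!
# Block [69fea5 M], item XCH

Almost periodic quadruples over a chain of frames extend to chains.
-/

set_option autoImplicit false

namespace Pool.Agent.Work.MP_69fea5_lc.W3

open MeasureTheory Topology Set Filter TopologicalSpace
open scoped NNReal ENNReal
open Pool.Agent.Work.MP_69fea5_lc.AK
open Pool.Agent.Work.MP_69fea5_lc.HK (Cl DU Ar ArF ArR Dat Law LawC act near sc Pt oc Mn mr ext)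
open Pool.Agent.Work.MP_69fea5_lc.KC (Agree)

namespace I_XCH

/-- the first four points of a chain -/
def f4 {X' : Type} (ζ : ℕ → X') : Q4 X' := (ζ 0, ζ 1, ζ 2, ζ 3)

theorem continuous_f4 {X' : Type} [TopologicalSpace X'] : Continuous (f4 : (ℕ → X') → Q4 X') :=
  (continuous_apply 0).prodMk ((continuous_apply 1).prodMk
    ((continuous_apply 2).prodMk (continuous_apply 3)))

end I_XCH

theorem XCH_pf (h1 : S_CHX) (h2 : S_UMC) (hORB : AK.S_ORB) (hIMG : AK.S_IMG) : S_XCH := by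
  intro k Y C X' _ _ _ _ _ _ _ _ _ _ _ _ A ms θ v v₁ E q lm hPE hv₁ hv ξ hmin e0 e1 e2 e3 q0 q1 q2
  obtain ⟨Ξ, hΞ⟩ := h1 (Om k) Y C X' A ms θ v v₁ E q lm hPE hv₁ hv
  obtain ⟨-, -, L, hL, -, hPL⟩ := h2 k Y C X' A ms θ v v₁ E q lm hPE hv₁ hv
  have hξL : orb ξ = L := hPL ξ ⟨e0, e1, e2, e3, q0, q1, q2⟩ hmin
  have hI : MinSet (I_XCH.f4 '' Ξ) :=
    hIMG (ℕ → X') (Q4 X') Ξ I_XCH.f4 hΞ.min I_XCH.continuous_f4.continuousOn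
      (fun n x _ => rfl)
  obtain ⟨ζ₀, hζ₀⟩ := hΞ.min.ne
  have hm : I_XCH.f4 ζ₀ ∈ I_XCH.f4 '' Ξ := ⟨ζ₀, hζ₀, rfl⟩
  have horb : orb (I_XCH.f4 ζ₀) = I_XCH.f4 '' Ξ := by
    obtain ⟨-, -, -, -, h5, -⟩ := hORB (Q4 X') (I_XCH.f4 ζ₀)
    exact h5 _ hI hm
  have hch := hΞ.sub hζ₀
  have hLo : orb (I_XCH.f4 ζ₀) = L := by
    refine hPL _ ⟨(hch 0).1, (hch 1).1, (hch 2).1, (hch 3).1, (hch 0).2, (hch 1).2, (hch 2).2⟩ ?_
    rw [horb]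
    exact hI
  have hξ : ξ ∈ I_XCH.f4 '' Ξ := by
    rw [← horb, hLo, ← hξL]
    obtain ⟨-, -, h3, -⟩ := hORB (Q4 X') ξ
    exact h3
  obtain ⟨ζ, hζ, hζξ⟩ := hξ
  subst hζξ
  exact ⟨Ξ, ζ, hΞ, hζ, rfl, rfl, rfl, rfl⟩

end Pool.Agent.Work.MP_69fea5_lc.W3
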