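import Pool.Agent.Work.MP_69fea5_lc.W3.StmtsF1

/-!
# Block [69fea5 F1 ZOL]: the 0-1 law from the relations given by lists of words
-/

set_option autoImplicit false

namespace Pool.Agent.Work.MP_69fea5_lc.W3

open MeasureTheory Topology Set Filter TopologicalSpace
open scoped NNReal ENNReal
open Pool.Agent.Work.MP_69fea5_lc.AK

namespace I_ZOL

theorem orb_self {X : Type} [TopologicalSpace X] [Sys X] (x : X) : x ∈ orb x :=
  subset_closure ⟨0, sh_zero x⟩

theorem orb_sub {X : Type} [TopologicalSpace X] [Sys X] {K : Set X} (hc : IsClosed K)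
    (hi : AK.Inv K) {x : X} (hx : x ∈ K) : orb x ⊆ K := by
  refine closure_minimal ?_ hc
  rintro _ ⟨n, rfl⟩
  exact hi n x hx

theorem orb_inv {X : Type} [TopologicalSpace X] [Sys X] (x : X) : AK.Inv (orb x) := by
  intro n p hp
  refine map_mem_closure (sh_cont n) hp ?_
  rintro _ ⟨m, rfl⟩
  exact ⟨n + m, sh_add n m x⟩

/-- every point of a minimal orbit closure has the whole set as orbit closure -/
theorem orb_eq {X : Type} [TopologicalSpace X] [Sys X] {x y : X} (hm : MinSet (orb x))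
    (hy : y ∈ orb x) : orb y = orb x :=
  hm.min _ isClosed_closure ⟨y, orb_self y⟩ (orb_inv y) (orb_sub isClosed_closure (orb_inv x) hy)

theorem orb_pair {X : Type} [TopologicalSpace X] [Sys X] {K : Set X} (hc : IsClosed K)
    (hi : AK.Inv K) {a b : X} (ha : a ∈ K) (hb : b ∈ K) : ∀ p ∈ orb (a, b), p.1 ∈ K ∧ p.2 ∈ K := by
  have h1 : orb (a, b) ⊆ K ×ˢ K := by
    refine orb_sub (hc.prod hc) ?_ ⟨ha, hb⟩
    intro n p hp
    exact ⟨hi n p.1 hp.1, hi n p.2 hp.2⟩
  intro p hp
  exact h1 hp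

end I_ZOL

open I_ZOL in
theorem ZOL_pf (h1 : S_AUT) (h2 : S_ULT) (h3 : S_UMP) (h4 : S_VLU) (h5 : S_RLP) : S_ZOL := by
  intro k Y C X' κ _ _ _ _ _ _ _ _ _ _ _ _ _ A ms θ v₀ v₁ E q lm V hPE hB hv1 hv10 hL
  intro R hR hRi a ha b hb hmin hab
  have hqc : Continuous q := hPE.spx.cont
  have hqe := hPE.spx.equi
  obtain ⟨d, hd⟩ := hPE.pha.iso
  obtain ⟨hm0, hfr, -, -, hau⟩ := h1 C Y (JJ A θ) d hd v₀ hPE.frm
  obtain ⟨hm01, -, -, -, -⟩ := hau v₁ (hfr v₁ hv1) hv10
  have hEc : IsClosed E := hPE.spx.min.closed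
  have hEi : AK.Inv E := hPE.spx.min.inv
  have hqa : q a ∈ orb v₀ := by
    rw [← hPE.base]
    exact ⟨a, ha, rfl⟩
  obtain ⟨hRL, happ⟩ := h5 k (Y × (ℕ → C)) κ V (orb v₀) hB (orb_inv v₀)
  -- the values of the relations given by lists are `0` or `1`
  have hval : ∀ L : List (Wd k × Wd k × κ),
      vl q lm (RLs V L) a b = 0 ∨ vl q lm (RLs V L) a b = 1 := by
    intro L
    obtain ⟨hle, -, -, hmono⟩ := h4 (Om k) Y C X' q lm (RLs V L) hqc hqe hPE.cont hPE.equi
      (hRL L).1 (hRL L).2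
    rcases hL L with h | ⟨a', ha', b', hb', hqa', hqb', hv⟩
    · left
      have hqq : Continuous fun p : X' × X' => (q p.1, q p.2) := by fun_prop
      have himg := (h2 (X' × X')).2.2 ((Y × (ℕ → C)) × (Y × (ℕ → C)))
        (fun p => (q p.1, q p.2)) inferInstance hqq
        (fun n p => Prod.ext (hqe n p.1) (hqe n p.2)) (a, b)
      have hin : (v₀, v₁) ∈ orb (q a, q b) := by
        rw [orb_eq hm01 hab]
        exact orb_self _
      have hin2 : (v₀, v₁) ∈ (fun p : X' × X' => (q p.1, q p.2)) '' orb (a, b) := by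
        rw [himg]
        exact hin
      obtain ⟨p, hp, hpe⟩ := hin2
      have hp1 : q p.1 = v₀ := congrArg Prod.fst hpe
      have hp2 : q p.2 = v₁ := congrArg Prod.snd hpe
      obtain ⟨hpE1, hpE2⟩ := orb_pair hEc hEi ha hb p hp
      have h6 := hmono (a, b) p hp
      rw [h p.1 hpE1 p.2 hpE2 hp1 hp2] at h6
      exact le_antisymm h6 (zero_le)
    · right
      have hab' : (q a, q b) ∈ orb (q a', q b') := by
        rw [hqa', hqb']
        exact hab
      have h6 := h3 (Y × (ℕ → C)) X' E q hPE.spx a ha b hb a' ha' b' hb' hmin hab'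
      have h7 := hmono (a', b') (a, b) (h6 (orb_self (a, b)))
      exact le_antisymm (hle a b) (by rw [← hv]; exact h7)
  -- the restricted relation
  obtain ⟨R', hR'⟩ : ∃ R' : Set ((Om k × Om k) × (Y × (ℕ → C))),
      R' = R ∩ {p | p.2 ∈ orb v₀} := ⟨_, rfl⟩
  have hR'c : IsClosed R' := by
    rw [hR']
    exact hR.inter ((isClosed_closure (s := Set.range fun n : ℤ => sh n v₀)).preimage
      continuous_snd)
  have hR'i : AK.Inv R' := by
    rw [hR']
    intro n p hp
    exact ⟨hRi n p hp.1, orb_inv v₀ n p.2 hp.2⟩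
  have hsec : {p : Om k × Om k | (p, q a) ∈ R'} = {p | (p, q a) ∈ R} := by
    rw [hR']
    ext p
    exact ⟨fun h => h.1, fun h => ⟨h, hqa⟩⟩
  have hle1 : vl q lm R a b ≤ 1 :=
    (h4 (Om k) Y C X' q lm R hqc hqe hPE.cont hPE.equi hR hRi).1 a b
  by_cases hone : vl q lm R a b = 1
  · exact Or.inr hone
  · left
    have hlt : vl q lm R a b < 1 := lt_of_le_of_ne hle1 hone
    obtain ⟨L, hLR, hLε⟩ := happ R' hR'c hR'i (fun p hp => by rw [hR'] at hp; exact hp.2)
      ((lm a).prod (lm b)) (q a) hqa (1 - vl q lm R a b) (tsub_pos_of_lt hlt)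
    have hcoe : (((lm a).prod (lm b) : ProbabilityMeasure (Om k × Om k)) :
        Measure (Om k × Om k)) = (lm a : Measure (Om k)).prod (lm b : Measure (Om k)) := rfl
    rw [hcoe] at hLε
    have hRv : vl q lm R a b = ((lm a : Measure (Om k)).prod (lm b : Measure (Om k)))
        {p | (p, q a) ∈ R'} := by
      rw [hsec]
      rfl
    have hlt2 : vl q lm (RLs V L) a b < 1 := by
      have h8 : vl q lm (RLs V L) a b ≤ vl q lm R a b +
          ((lm a : Measure (Om k)).prod (lm b : Measure (Om k)))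
            {p | (p, q a) ∈ RLs V L ∧ (p, q a) ∉ R'} := by
        rw [hRv]
        unfold vl
        refine (measure_mono ?_).trans (measure_union_le _ _)
        intro p hp
        by_cases hpR : (p, q a) ∈ R'
        · exact Or.inl hpR
        · exact Or.inr ⟨hp, hpR⟩
      refine lt_of_le_of_lt h8 ?_
      have h9 : vl q lm R a b ≠ ⊤ := ne_top_of_lt hlt
      calc vl q lm R a b + ((lm a : Measure (Om k)).prod (lm b : Measure (Om k)))
            {p | (p, q a) ∈ RLs V L ∧ (p, q a) ∉ R'}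
          < vl q lm R a b + (1 - vl q lm R a b) := ENNReal.add_lt_add_left h9 hLε
        _ = 1 := add_tsub_cancel_of_le hle1
    have hzero : vl q lm (RLs V L) a b = 0 := by
      rcases hval L with h | h
      · exact h
      · rw [h] at hlt2
        exact absurd hlt2 (lt_irrefl _)
    have h10 : vl q lm R a b ≤ vl q lm (RLs V L) a b := by
      rw [hRv]
      unfold vl
      exact measure_mono fun p hp => hLR hp
    rw [hzero] at h10
    exact le_antisymm h10 (zero_le)

end Pool.Agent.Work.MP_69fea5_lc.W3
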