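import Pool.Agent.Work.MP_69fea5_lc.W3.StmtsM

/-!
# Block [69fea5 M], item ZSC: a coded point of `ZSX`
-/

set_option autoImplicit false

namespace Pool.Agent.Work.MP_69fea5_lc.W3

open MeasureTheory Topology Set Filter TopologicalSpace
open scoped NNReal ENNReal
open Pool.Agent.Work.MP_69fea5_lc.AK
open Pool.Agent.Work.MP_69fea5_lc.HK (Cl DU Ar ArF ArR Dat Law LawC act near sc Pt oc Mn mr ext)
open Pool.Agent.Work.MP_69fea5_lc.KC (Agree)

namespace I_ZSC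

/-! ### Cylinders -/

theorem isOpen_cyl {k : ℕ} (P : HK.C k) : IsOpen (HK.cyl P : Set (HK.X k)) := by
  have h : (HK.cyl P : Set (HK.X k)) = ⋂ p ∈ {p | p ∈ P}, {z : HK.X k | z p.1 = p.2} := by
    ext z
    simp [HK.cyl]
  rw [h]
  apply Set.Finite.isOpen_biInter (List.finite_toSet P)
  intro p _
  exact (isOpen_discrete ({p.2} : Set (Fin k))).preimage
    (continuous_apply (A := fun _ : ℤ => Fin k) p.1)

theorem mr_pos {k : ℕ} {m : AK.PM k} {A : Set (AK.Om k)} (hA : IsOpen A) {g : AK.Om k}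
    (hg : g ∈ AK.supp m) (h : g ∈ A) : 0 < mr m A := by
  have h1 := hg A hA h
  have h2 : (0 : ENNReal) < (m : Measure (AK.Om k)) A := by
    rw [← ProbabilityMeasure.ennreal_coeFn_eq_coeFn_toMeasure]
    exact_mod_cast h1
  unfold mr
  rw [Measure.real, ENNReal.toReal_pos_iff]
  exact ⟨h2, measure_lt_top _ _⟩

theorem mem_wc {k : ℕ} {a : AK.Om k} {x : ℤ} {n : ℕ} {t : ℤ} (h : |t| ≤ (n : ℤ)) :
    (x + t, a t) ∈ HK.wc a x n := by
  unfold HK.wc
  rw [abs_le] at h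
  refine List.mem_map.2 ⟨(t + n).toNat, ?_, ?_⟩
  · rw [List.mem_range]
    omega
  · have h1 : (((t + n).toNat : ℕ) : ℤ) - n = t := by omega
    simp only [h1]

theorem of_mem_wc {k : ℕ} {a : AK.Om k} {x : ℤ} {n : ℕ} {p : ℤ × Fin k} (h : p ∈ HK.wc a x n) :
    ∃ t : ℤ, |t| ≤ (n : ℤ) ∧ p = (x + t, a t) := by
  unfold HK.wc at h
  obtain ⟨i, hi, rfl⟩ := List.mem_map.1 h
  rw [List.mem_range] at hi
  refine ⟨(i : ℤ) - n, ?_, rfl⟩
  rw [abs_le]
  omega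

/-! ### The finite data -/

section data

variable {S : Set (Set ℕ)} {k : ℕ} {X : Type} [TopologicalSpace X] [Dat X]

/-- the condition on the `L`-th datum `(n, W)` -/
def RR (c : AK.Om k) (m : AK.PM k) (x : X) (L : ℕ) (q : ℕ × HK.C k) : Prop :=
  L ≤ q.1 ∧ near L (act (q.1 : ℤ) x) x ∧
    (∀ t : ℤ, |t| ≤ (L : ℤ) → ∃ a, (t, a) ∈ q.2) ∧
    0 < mr m (HK.cyl (q.2 ++ HK.wc (AK.sh (q.1 : ℤ) c) q.1 L))

theorem arF_letters (hS : Cl S) {c : AK.Om k} (hc : Pt S c) : ArF S fun t : ℤ => c t := by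
  have h : ArF S fun p : Unit × ℤ => c p.2 := hc
  exact h.comp hS (f := fun t : ℤ => ((), t)) ((ArF.const hS ()).pair hS (ArF.id hS))

theorem arR_meas (hS : Cl S) {m0 : AK.PM k} (hm : Pt S m0) :
    ArR S fun P : HK.C k => mr m0 (HK.cyl P) := by
  have h : ArR S fun p : Unit × HK.C k => mr m0 (HK.cyl p.2) := hm
  exact ArR.sub hS h (g := fun P : HK.C k => ((), P)) ((ArF.const hS ()).pair hS (ArF.id hS))

/-- `wc` is coded -/
theorem arF_wc (hS : Cl S) {c : AK.Om k} (hc : Pt S c) :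
    ArF S fun p : ℕ × ℕ => HK.wc (AK.sh (p.1 : ℤ) c) (p.1 : ℤ) p.2 := by
  have h1 : ArF S fun p : (ℕ × ℕ) × ℕ => ((p.1.1 : ℤ) + ((p.2 : ℤ) - (p.1.2 : ℤ)),
      c (((p.2 : ℤ) - (p.1.2 : ℤ)) + (p.1.1 : ℤ))) := by
    have hx : ArF S fun p : (ℕ × ℕ) × ℕ => (p.1.1 : ℤ) :=
      ((ArF.fst hS).comp hS (ArF.fst hS)).natCast hS
    have hL : ArF S fun p : (ℕ × ℕ) × ℕ => (p.1.2 : ℤ) :=
      ((ArF.snd hS).comp hS (ArF.fst hS)).natCast hS
    have hi : ArF S fun p : (ℕ × ℕ) × ℕ => (p.2 : ℤ) := (ArF.snd hS).natCast hS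
    have hd := hi.intSub hS hL
    exact (hx.intAdd hS hd).pair hS ((arF_letters hS hc).comp hS (hd.intAdd hS hx))
  have h2 : ArF S fun p : ℕ × ℕ => 2 * p.2 + 1 :=
    ((ArF.const hS 2).mul hS (ArF.snd hS)).succ hS
  refine (ArF.mapRange hS (f := fun (p : ℕ × ℕ) (i : ℕ) => ((p.1 : ℤ) + ((i : ℤ) - (p.2 : ℤ)),
      c (((i : ℤ) - (p.2 : ℤ)) + (p.1 : ℤ)))) h1 h2).congr fun p => ?_
  rfl

/-- the condition is coded -/
theorem ar_RR [LawC X] (hS : Cl S) {c : AK.Om k} {m : AK.PM k} {x : X} (hc : Pt S c)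
    (hm : Pt S m) (hx0 : Pt S x) : Ar S fun p : ℕ × (ℕ × HK.C k) => RR c m x p.1 p.2 := by
  have hL : ArF S fun p : ℕ × (ℕ × HK.C k) => p.1 := ArF.fst hS
  have hx : ArF S fun p : ℕ × (ℕ × HK.C k) => p.2.1 := (ArF.fst hS).comp hS (ArF.snd hS)
  have hW : ArF S fun p : ℕ × (ℕ × HK.C k) => p.2.2 := (ArF.snd hS).comp hS (ArF.snd hS)
  refine Ar.and hS (Ar.le hS hL hx) (Ar.and hS ?_ (Ar.and hS ?_ ?_))
  · have h1 : sc S (fun p : Unit × ℤ => act p.2 x) := LawC.sc_act S Unit _ hS hx0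
    have h2 : sc S (fun n : ℕ => act (n : ℤ) x) :=
      LawC.sc_comp S (Unit × ℤ) ℕ _ (fun n : ℕ => ((), (n : ℤ))) hS h1
        ((ArF.const hS ()).pair hS ((ArF.id hS).natCast hS))
    have h3 : sc S (fun _ : ℕ => x) :=
      LawC.sc_comp S Unit ℕ _ (fun _ : ℕ => ()) hS hx0 (ArF.const hS ())
    have h4 := LawC.sc_near S ℕ _ _ hS h2 h3
    exact Ar.sub hS h4 (f := fun p : ℕ × (ℕ × HK.C k) => (p.1, p.2.1)) (hL.pair hS hx)
  · refine (Ar.ballInt hS (R := fun (p : ℕ × (ℕ × HK.C k)) (t : ℤ) => ∃ a, (t, a) ∈ p.2.2) ?_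
      hL).congr fun p => ?_
    · refine Ar.ex hS (R := fun (q : (ℕ × (ℕ × HK.C k)) × ℤ) (a : Fin k) =>
        (q.2, a) ∈ q.1.2.2) ?_
      refine Ar.memList hS ?_ ?_
      · exact ((ArF.snd hS).comp hS (ArF.fst hS)).pair hS (ArF.snd hS)
      · exact hW.comp hS ((ArF.fst hS).comp hS (ArF.fst hS))
    · exact forall_congr' fun t => by rw [Int.abs_eq_natAbs]; norm_cast
  · refine ArR.rlt hS (ArR.zero hS) ?_ fun _ => le_rfl
    refine ArR.sub hS (arR_meas hS hm) (g := fun p : ℕ × (ℕ × HK.C k) =>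
      p.2.2 ++ HK.wc (AK.sh (p.2.1 : ℤ) c) p.2.1 p.1) ?_
    exact ArF.map₂ hS Primrec.list_append hW
      ((arF_wc hS hc).comp hS (f := fun p : ℕ × (ℕ × HK.C k) => (p.2.1, p.1)) (hx.pair hS hL))

end data

/-! ### Existence of the finite data -/

theorem exists_RR {k : ℕ} {X : Type} [TopologicalSpace X] [Sys X] [Dat X] [Law X] [Agree X]
    {c : Om k} {m : PM k} {x : X} (hz : ∃ z, ZSX c m x z) (L : ℕ) : ∃ q, RR c m x L q := by
  obtain ⟨z0, hz0⟩ := hz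
  have hU : (HK.cyl (HK.wc z0 0 L) : Set (AK.Om k)) ∈ 𝓝 z0 := by
    refine (isOpen_cyl _).mem_nhds ?_
    intro p hp
    obtain ⟨t, _, rfl⟩ := of_mem_wc hp
    simp
  have hV : {y : X | near L y x} ∈ 𝓝 x := by
    have ho : IsOpen {y : X | near L y x} :=
      (Law.near_open (α := X) L).preimage (by fun_prop : Continuous fun y : X => (y, x))
    exact ho.mem_nhds (Law.near_refl (α := X) L x)
  obtain ⟨n, hn, hnx, g, ⟨hg, hgU⟩, hgc⟩ := hz0 _ hU _ hV L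
  refine ⟨(n, HK.wc z0 0 L), hn, ?_, ?_, ?_⟩
  · rw [Agree.eq]
    exact hnx
  · intro t ht
    refine ⟨z0 t, ?_⟩
    have := mem_wc (a := z0) (x := 0) ht
    rwa [zero_add] at this
  · refine mr_pos (isOpen_cyl _) hg ?_
    intro p hp
    rcases List.mem_append.1 hp with hp | hp
    · exact hgU p hp
    · obtain ⟨t, ht, rfl⟩ := of_mem_wc hp
      change g (n + t) = c (t + n)
      rw [hgc t ht, add_comm]

/-! ### The limit -/

theorem zsx_lim (hSUP : AK.S_SUP) {k : ℕ} [Law (HK.X k)] {X : Type} [TopologicalSpace X] [Sys X]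
    [Dat X] [Law X] [Agree X] {c : Om k} {m : PM k} {x : X} {G : Ultrafilter ℕ} {n : ℕ → ℕ}
    {W : ℕ → HK.C k} {z : Om k} (hG : (G : Filter ℕ) ≤ atTop) (hd : ∀ L, RR c m x L (n L, W L))
    (hz : ∀ t : ℤ, ∀ᶠ L in (G : Filter ℕ), ∀ a, (t, a) ∈ W L → z t = a) : ZSX c m x z := by
  intro O hO V hV L0
  obtain ⟨M, hM⟩ := Law.near_basis (α := HK.X k) z O hO
  obtain ⟨M', hM'⟩ := Law.near_basis (α := X) x V hV
  -- a good index
  have h1 : ∀ᶠ L in (G : Filter ℕ), max (max M M') L0 ≤ L := hG (eventually_ge_atTop _)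
  have h2 : ∀ᶠ L in (G : Filter ℕ), ∀ t ∈ Finset.Icc (-(M : ℤ)) M, ∀ a, (t, a) ∈ W L → z t = a :=
    (Filter.eventually_all_finset _).mpr fun t _ => hz t
  obtain ⟨L, hL, hW⟩ := (h1.and h2).exists
  obtain ⟨hxL, hnear, hcov, hpos⟩ := hd L
  have hLM : M ≤ L := le_trans (le_trans (le_max_left _ _) (le_max_left _ _)) hL
  have hLM' : M' ≤ L := le_trans (le_trans (le_max_right _ _) (le_max_left _ _)) hL
  have hL0 : L0 ≤ L := le_trans (le_max_right _ _) hL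
  refine ⟨n L, hL0.trans hxL, ?_, ?_⟩
  · apply hM'
    rw [← Agree.eq]
    apply Law.near_symm
    exact Law.near_mono M' L _ _ hLM' hnear
  · have hpos' : 0 < m (HK.cyl (W L ++ HK.wc (AK.sh (n L : ℤ) c) (n L) L)) := by
      have h3 : (0 : ℝ) < ((m (HK.cyl (W L ++ HK.wc (AK.sh (n L : ℤ) c) (n L) L)) : NNReal) : ℝ) :=
        hpos
      exact_mod_cast h3
    obtain ⟨g, hg, hgs⟩ := (hSUP k m).2.2.2.2.2.1 _ (isOpen_cyl _) hpos'
    have hg' : ∀ p ∈ W L ++ HK.wc (AK.sh (n L : ℤ) c) (n L) L, g p.1 = p.2 := hg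
    refine ⟨g, ⟨hgs, hM g ?_⟩, ?_⟩
    · intro t ht
      obtain ⟨a, ha⟩ := hcov t (ht.trans (by exact_mod_cast hLM))
      have h3 : z t = a := hW t (by rw [Finset.mem_Icc]; exact abs_le.mp ht) a ha
      have h4 : g t = a := hg' (t, a) (List.mem_append_left _ ha)
      rw [h3, h4]
    · intro j hj
      have h3 := hg' _ (List.mem_append_right _ (mem_wc (a := AK.sh (n L : ℤ) c) (x := (n L : ℤ))
        (n := L) (hj.trans (by exact_mod_cast hL0))))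
      have h4 : AK.sh (n L : ℤ) c j = c (j + n L) := rfl
      rw [add_comm (n L : ℤ) j] at h3 ⊢
      rw [← h4]
      exact h3

end I_ZSC

open I_ZSC

theorem ZSC_pf (hSUP : AK.S_SUP) : S_ZSC := by
  classical
  intro S U hS hU k c X _ _ _ _ _ m x hc hm0 hx0 hz
  obtain ⟨f, hf, hR⟩ := Ar.choose hS (ar_RR hS hc hm0 hx0) fun L => exists_RR hz L
  have hW : ArF S fun L : ℕ => (f L).2 := (ArF.snd hS).comp hS hf
  -- the letters
  have hA : Ar S fun p : (ℤ × ℕ) × Fin k => ((∃ a', (p.1.1, a') ∈ (f p.1.2).2) →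
      (p.1.1, p.2) ∈ (f p.1.2).2) := by
    refine Ar.imp hS ?_ ?_
    · refine Ar.ex hS (R := fun (p : (ℤ × ℕ) × Fin k) (a' : Fin k) =>
        (p.1.1, a') ∈ (f p.1.2).2) ?_
      refine Ar.memList hS ?_ ?_
      · exact (ArF.of_primrec hS (Primrec.fst.comp (Primrec.fst.comp Primrec.fst))).pair hS
          (ArF.snd hS)
      · exact hW.comp hS (f := fun p : ((ℤ × ℕ) × Fin k) × Fin k => p.1.1.2)
          (ArF.of_primrec hS (Primrec.snd.comp (Primrec.fst.comp Primrec.fst)))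
    · refine Ar.memList hS ?_ ?_
      · exact (ArF.of_primrec hS (Primrec.fst.comp Primrec.fst)).pair hS (ArF.snd hS)
      · exact hW.comp hS (f := fun p : (ℤ × ℕ) × Fin k => p.1.2)
          (ArF.of_primrec hS (Primrec.snd.comp Primrec.fst))
  obtain ⟨g, hg, hgs⟩ := Ar.choose hS (R := fun (p : ℤ × ℕ) (a : Fin k) =>
      ((∃ a', (p.1, a') ∈ (f p.2).2) → (p.1, a) ∈ (f p.2).2)) hA fun p => by
    by_cases h : ∃ a', (p.1, a') ∈ (f p.2).2
    · obtain ⟨a', ha'⟩ := h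
      exact ⟨a', fun _ => ha'⟩
    · exact ⟨c 0, fun h' => absurd h' h⟩
  obtain ⟨z, hz1, hz2⟩ := HK.exists_ulim hU (f := fun (t : ℤ) (L : ℕ) => g (t, L)) hg hS
  refine ⟨z, ?_, ?_⟩
  · show ArF S fun p : Unit × ℤ => z p.2
    exact hz1.comp hS (ArF.snd hS)
  · refine zsx_lim hSUP (n := fun L => (f L).1) (W := fun L => (f L).2) hU.top
      (fun L => hR L) ?_
    intro t
    filter_upwards [hz2 t] with L hL a ha
    have h1 : (t, g (t, L)) ∈ (f L).2 := hgs (t, L) ⟨a, ha⟩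
    -- the cylinder is not empty
    have hne : (HK.cyl ((f L).2 ++ HK.wc (AK.sh ((f L).1 : ℤ) c) (f L).1 L)).Nonempty := by
      rw [Set.nonempty_iff_ne_empty]
      intro h0
      have h4 := (hR L).2.2.2
      rw [h0] at h4
      simp [mr] at h4
    obtain ⟨w, hw⟩ := hne
    have h2 : w t = a := hw (t, a) (List.mem_append_left _ ha)
    have h3 : w t = g (t, L) := hw (t, g (t, L)) (List.mem_append_left _ h1)
    rw [← hL, ← h3, h2]

end Pool.Agent.Work.MP_69fea5_lc.W3
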