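import Pool.Agent.Work.MP_69fea5_lc.W3.StmtsT

/-!
# Block [69fea5 W3], item ZSE

Points `z` with `ZSX` exist over exact points.
-/

set_option autoImplicit false

namespace Pool.Agent.Work.MP_69fea5_lc.W3

open MeasureTheory Topology Set Filter TopologicalSpace
open scoped NNReal ENNReal
open Pool.Agent.Work.MP_69fea5_lc.AK

theorem ZSE_pf (h1 : AK.S_SUP) (h2 : AK.S_PMB) (h3 : AK.S_CYL) : S_ZSE := by
  intro k c X _ _ _ _ A ms hL x hx hex
  obtain ⟨⟨u, x'⟩, hu, rfl⟩ := hx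
  simp only at hex ⊢
  obtain ⟨hcl, hone, ⟨h, hh⟩, hsup, hshift, hopen, hK, -⟩ := h1 k (ms x')
  have hfib : IsClosed {u : Om k | (u, x') ∈ A} :=
    hL.min.closed.preimage (by fun_prop : Continuous fun u : Om k => (u, x'))
  have hhA : (h, x') ∈ A := hK _ hfib (hL.one _ hu) hh
  have hom := hex hhA
  have key : ∀ V ∈ 𝓝 x', ∀ L : ℕ, ∃ g ∈ supp (ms x'), ∃ n : ℕ, L ≤ n ∧ sh (n : ℤ) x' ∈ V ∧
      ∀ j : ℤ, |j| ≤ L → g (n + j) = c (n + j) := by
    intro V hV L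
    have hclo : IsClopen (cyl (wordOf h L) 0) := (h3 k).1 _ _
    have hcont : Continuous fun y : X => ms y (cyl (wordOf h L) 0) :=
      ((h2 k).2.2.1 _ hclo).comp hL.cont
    have hpos : 0 < ms x' (cyl (wordOf h L) 0) := (hsup h).1 hh L
    have hV2 : {y : X | 0 < ms y (cyl (wordOf h L) 0)} ∈ 𝓝 x' :=
      (isOpen_lt continuous_const hcont).mem_nhds hpos
    have hcyl : cyl (wordOf h L) 0 ∈ 𝓝 h :=
      hclo.isOpen.mem_nhds ((h3 k).2.2.1 h L)
    obtain ⟨n, hn, hmem⟩ := hom _ (prod_mem_nhds hcyl (inter_mem hV hV2)) L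
    have hm1 : sh (n : ℤ) c ∈ cyl (wordOf h L) 0 := hmem.1
    have hm2 : sh (n : ℤ) x' ∈ V := hmem.2.1
    have hm3 : 0 < ms (sh (n : ℤ) x') (cyl (wordOf h L) 0) := hmem.2.2
    rw [hL.equi, (h2 k).1 _ _ _ hclo.isOpen.measurableSet] at hm3
    have hop : IsOpen {z : Om k | sh (n : ℤ) z ∈ cyl (wordOf h L) 0} :=
      hclo.isOpen.preimage (sh_cont n)
    obtain ⟨g, hg, hgs⟩ := hopen _ hop hm3
    refine ⟨g, hgs, n, hn, hm2, fun j hj => ?_⟩
    have e1 := ((h3 k).2.2.2.1 h (sh (n : ℤ) g) L).1 hg j hj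
    have e2 := ((h3 k).2.2.2.1 h (sh (n : ℤ) c) L).1 hm1 j hj
    change g (j + n) = h j at e1
    change c (j + n) = h j at e2
    rw [add_comm (n : ℤ) j, e1, e2]
  obtain ⟨W, hW⟩ := (𝓝 x').exists_antitone_basis
  choose g hg n hn hV hag using fun i : ℕ => key (W i) (hW.1.mem_of_mem trivial) i
  obtain ⟨z, hz⟩ := exists_clusterPt_of_compactSpace (map g atTop)
  refine ⟨z, fun U hU V hV' L => ?_⟩
  have hfr : ∃ᶠ i in atTop, g i ∈ U := (mapClusterPt_iff_frequently.1 hz) U hU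
  obtain ⟨i0, -, hi0⟩ := hW.1.mem_iff.1 hV'
  obtain ⟨i, hi, hgi⟩ := (frequently_atTop.1 hfr) (max i0 L)
  refine ⟨n i, (le_trans (le_max_right i0 L) hi).trans (hn i), ?_, g i, ⟨hg i, hgi⟩, ?_⟩
  · exact hi0 (hW.2 (le_trans (le_max_left i0 L) hi) (hV i))
  · intro j hj
    refine hag i j (hj.trans ?_)
    exact_mod_cast (le_trans (le_max_right i0 L) hi)

end Pool.Agent.Work.MP_69fea5_lc.W3
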