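import Pool.Agent.Work.MP_69fea5_lc.AK.I_CLP
import Pool.Agent.Work.MP_69fea5_lc.AK.I_CST
import Pool.Agent.Work.MP_69fea5_lc.AK.I_CYL
import Pool.Agent.Work.MP_69fea5_lc.AK.I_ENG
import Pool.Agent.Work.MP_69fea5_lc.AK.I_IMG
import Pool.Agent.Work.MP_69fea5_lc.AK.I_OMG
import Pool.Agent.Work.MP_69fea5_lc.AK.I_ORB
import Pool.Agent.Work.MP_69fea5_lc.AK.I_PMB
import Pool.Agent.Work.MP_69fea5_lc.AK.I_SUP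
import Pool.Agent.Work.MP_69fea5_lc.AK.I_USC
import Pool.Agent.Work.MP_69fea5_lc.AK.I_ZORN
import Pool.Agent.Work.MP_69fea5_lc.KC.I_CON
import Pool.Agent.Work.MP_69fea5_lc.KC.I_CONF
import Pool.Agent.Work.MP_69fea5_lc.KC.I_CYSC
import Pool.Agent.Work.MP_69fea5_lc.KC.I_FFSC
import Pool.Agent.Work.MP_69fea5_lc.KC.I_LAWCU
import Pool.Agent.Work.MP_69fea5_lc.N3.I_CI3
import Pool.Agent.Work.MP_69fea5_lc.N3.I_CL2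
import Pool.Agent.Work.MP_69fea5_lc.N3.I_NBX
import Pool.Agent.Work.MP_69fea5_lc.N3.I_SP2
import Pool.Agent.Work.MP_69fea5_lc.N3.I_URB
import Pool.Agent.Work.MP_69fea5_lc.N3.I_USG
import Pool.Agent.Work.MP_69fea5_lc.W3.I_AAN
import Pool.Agent.Work.MP_69fea5_lc.W3.I_AUC
import Pool.Agent.Work.MP_69fea5_lc.W3.I_AUT
import Pool.Agent.Work.MP_69fea5_lc.W3.I_AXE
import Pool.Agent.Work.MP_69fea5_lc.W3.I_BAD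
import Pool.Agent.Work.MP_69fea5_lc.W3.I_BAL
import Pool.Agent.Work.MP_69fea5_lc.W3.I_BC2
import Pool.Agent.Work.MP_69fea5_lc.W3.I_BCF
import Pool.Agent.Work.MP_69fea5_lc.W3.I_BCU
import Pool.Agent.Work.MP_69fea5_lc.W3.I_BCX
import Pool.Agent.Work.MP_69fea5_lc.W3.I_BDL
import Pool.Agent.Work.MP_69fea5_lc.W3.I_BLX
import Pool.Agent.Work.MP_69fea5_lc.W3.I_BRB
import Pool.Agent.Work.MP_69fea5_lc.W3.I_BRC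
import Pool.Agent.Work.MP_69fea5_lc.W3.I_BRX
import Pool.Agent.Work.MP_69fea5_lc.W3.I_CB0
import Pool.Agent.Work.MP_69fea5_lc.W3.I_CHE
import Pool.Agent.Work.MP_69fea5_lc.W3.I_CHL
import Pool.Agent.Work.MP_69fea5_lc.W3.I_CHP
import Pool.Agent.Work.MP_69fea5_lc.W3.I_CHX
import Pool.Agent.Work.MP_69fea5_lc.W3.I_CLF
import Pool.Agent.Work.MP_69fea5_lc.W3.I_CLT
import Pool.Agent.Work.MP_69fea5_lc.W3.I_CMD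
import Pool.Agent.Work.MP_69fea5_lc.W3.I_CMP
import Pool.Agent.Work.MP_69fea5_lc.W3.I_CTR
import Pool.Agent.Work.MP_69fea5_lc.W3.I_DEC
import Pool.Agent.Work.MP_69fea5_lc.W3.I_DET
import Pool.Agent.Work.MP_69fea5_lc.W3.I_DIR
import Pool.Agent.Work.MP_69fea5_lc.W3.I_DIS
import Pool.Agent.Work.MP_69fea5_lc.W3.I_DNT
import Pool.Agent.Work.MP_69fea5_lc.W3.I_EHA
import Pool.Agent.Work.MP_69fea5_lc.W3.I_END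
import Pool.Agent.Work.MP_69fea5_lc.W3.I_ENV
import Pool.Agent.Work.MP_69fea5_lc.W3.I_EX1
import Pool.Agent.Work.MP_69fea5_lc.W3.I_EX2
import Pool.Agent.Work.MP_69fea5_lc.W3.I_EX3
import Pool.Agent.Work.MP_69fea5_lc.W3.I_EXF
import Pool.Agent.Work.MP_69fea5_lc.W3.I_F1F
import Pool.Agent.Work.MP_69fea5_lc.W3.I_F1X
import Pool.Agent.Work.MP_69fea5_lc.W3.I_FAM
import Pool.Agent.Work.MP_69fea5_lc.W3.I_FDL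
import Pool.Agent.Work.MP_69fea5_lc.W3.I_FDN
import Pool.Agent.Work.MP_69fea5_lc.W3.I_FEK
import Pool.Agent.Work.MP_69fea5_lc.W3.I_FNL
import Pool.Agent.Work.MP_69fea5_lc.W3.I_FRC
import Pool.Agent.Work.MP_69fea5_lc.W3.I_FSD
import Pool.Agent.Work.MP_69fea5_lc.W3.I_FSM
import Pool.Agent.Work.MP_69fea5_lc.W3.I_FUB
import Pool.Agent.Work.MP_69fea5_lc.W3.I_FUS
import Pool.Agent.Work.MP_69fea5_lc.W3.I_GBA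
import Pool.Agent.Work.MP_69fea5_lc.W3.I_GCE
import Pool.Agent.Work.MP_69fea5_lc.W3.I_GDC
import Pool.Agent.Work.MP_69fea5_lc.W3.I_GEN
import Pool.Agent.Work.MP_69fea5_lc.W3.I_GRS
import Pool.Agent.Work.MP_69fea5_lc.W3.I_GVL
import Pool.Agent.Work.MP_69fea5_lc.W3.I_HAU
import Pool.Agent.Work.MP_69fea5_lc.W3.I_INI
import Pool.Agent.Work.MP_69fea5_lc.W3.I_ISA
import Pool.Agent.Work.MP_69fea5_lc.W3.I_ISP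
import Pool.Agent.Work.MP_69fea5_lc.W3.I_JCT
import Pool.Agent.Work.MP_69fea5_lc.W3.I_JMC
import Pool.Agent.Work.MP_69fea5_lc.W3.I_KDC
import Pool.Agent.Work.MP_69fea5_lc.W3.I_KEA
import Pool.Agent.Work.MP_69fea5_lc.W3.I_LAW
import Pool.Agent.Work.MP_69fea5_lc.W3.I_LEB
import Pool.Agent.Work.MP_69fea5_lc.W3.I_LFT
import Pool.Agent.Work.MP_69fea5_lc.W3.I_LIM
import Pool.Agent.Work.MP_69fea5_lc.W3.I_LXC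
import Pool.Agent.Work.MP_69fea5_lc.W3.I_LXL
import Pool.Agent.Work.MP_69fea5_lc.W3.I_MAS
import Pool.Agent.Work.MP_69fea5_lc.W3.I_MAT
import Pool.Agent.Work.MP_69fea5_lc.W3.I_MCE
import Pool.Agent.Work.MP_69fea5_lc.W3.I_MCM
import Pool.Agent.Work.MP_69fea5_lc.W3.I_MEC
import Pool.Agent.Work.MP_69fea5_lc.W3.I_MEM
import Pool.Agent.Work.MP_69fea5_lc.W3.I_MIX
import Pool.Agent.Work.MP_69fea5_lc.W3.I_MSB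
import Pool.Agent.Work.MP_69fea5_lc.W3.I_ONT
import Pool.Agent.Work.MP_69fea5_lc.W3.I_PHB
import Pool.Agent.Work.MP_69fea5_lc.W3.I_PIC
import Pool.Agent.Work.MP_69fea5_lc.W3.I_PMG
import Pool.Agent.Work.MP_69fea5_lc.W3.I_PRD
import Pool.Agent.Work.MP_69fea5_lc.W3.I_PRU
import Pool.Agent.Work.MP_69fea5_lc.W3.I_PTN
import Pool.Agent.Work.MP_69fea5_lc.W3.I_PUR
import Pool.Agent.Work.MP_69fea5_lc.W3.I_RAW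
import Pool.Agent.Work.MP_69fea5_lc.W3.I_RIM
import Pool.Agent.Work.MP_69fea5_lc.W3.I_RLB
import Pool.Agent.Work.MP_69fea5_lc.W3.I_RLP
import Pool.Agent.Work.MP_69fea5_lc.W3.I_SDB
import Pool.Agent.Work.MP_69fea5_lc.W3.I_SDP
import Pool.Agent.Work.MP_69fea5_lc.W3.I_SEO
import Pool.Agent.Work.MP_69fea5_lc.W3.I_SEX
import Pool.Agent.Work.MP_69fea5_lc.W3.I_SHD
import Pool.Agent.Work.MP_69fea5_lc.W3.I_SLG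
import Pool.Agent.Work.MP_69fea5_lc.W3.I_SPC
import Pool.Agent.Work.MP_69fea5_lc.W3.I_SPE
import Pool.Agent.Work.MP_69fea5_lc.W3.I_SPG
import Pool.Agent.Work.MP_69fea5_lc.W3.I_SPN
import Pool.Agent.Work.MP_69fea5_lc.W3.I_SPP
import Pool.Agent.Work.MP_69fea5_lc.W3.I_SPS
import Pool.Agent.Work.MP_69fea5_lc.W3.I_STA
import Pool.Agent.Work.MP_69fea5_lc.W3.I_STC
import Pool.Agent.Work.MP_69fea5_lc.W3.I_STF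
import Pool.Agent.Work.MP_69fea5_lc.W3.I_STK
import Pool.Agent.Work.MP_69fea5_lc.W3.I_STP3
import Pool.Agent.Work.MP_69fea5_lc.W3.I_T7M
import Pool.Agent.Work.MP_69fea5_lc.W3.I_T7V
import Pool.Agent.Work.MP_69fea5_lc.W3.I_TDF
import Pool.Agent.Work.MP_69fea5_lc.W3.I_TDX
import Pool.Agent.Work.MP_69fea5_lc.W3.I_THC
import Pool.Agent.Work.MP_69fea5_lc.W3.I_THM
import Pool.Agent.Work.MP_69fea5_lc.W3.I_THP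
import Pool.Agent.Work.MP_69fea5_lc.W3.I_THPT
import Pool.Agent.Work.MP_69fea5_lc.W3.I_THU
import Pool.Agent.Work.MP_69fea5_lc.W3.I_TRN
import Pool.Agent.Work.MP_69fea5_lc.W3.I_TUX
import Pool.Agent.Work.MP_69fea5_lc.W3.I_TYP
import Pool.Agent.Work.MP_69fea5_lc.W3.I_ULT
import Pool.Agent.Work.MP_69fea5_lc.W3.I_UMC
import Pool.Agent.Work.MP_69fea5_lc.W3.I_UMP
import Pool.Agent.Work.MP_69fea5_lc.W3.I_UMS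
import Pool.Agent.Work.MP_69fea5_lc.W3.I_UNA
import Pool.Agent.Work.MP_69fea5_lc.W3.I_VLU
import Pool.Agent.Work.MP_69fea5_lc.W3.I_VNB
import Pool.Agent.Work.MP_69fea5_lc.W3.I_XCH
import Pool.Agent.Work.MP_69fea5_lc.W3.I_ZOL
import Pool.Agent.Work.MP_69fea5_lc.W3.I_ZSC
import Pool.Agent.Work.MP_69fea5_lc.W3.I_ZSE

set_option autoImplicit false

namespace Pool.Agent.Work.MP_69fea5_lc

theorem asmF  : W3.S_MAT := by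
  have h_AK_S_CYL : AK.S_CYL := AK.CYL_pf 
  have h_AK_S_CLP : AK.S_CLP := AK.CLP_pf h_AK_S_CYL
  have h_AK_S_CST : AK.S_CST := AK.CST_pf 
  have h_AK_S_IMG : AK.S_IMG := AK.IMG_pf 
  have h_AK_S_OMG : AK.S_OMG := AK.OMG_pf 
  have h_AK_S_ZORN : AK.S_ZORN := AK.ZORN_pf 
  have h_AK_S_ORB : AK.S_ORB := AK.ORB_pf 
  have h_KC_S_CONF : KC.S_CONF := KC.CONF_pf 
  have h_KC_S_CON : KC.S_CON := KC.CON_pf 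
  have h_KC_S_CYSC : KC.S_CYSC := KC.CYSC_pf h_KC_S_CON h_KC_S_CONF
  have h_KC_S_EXTC : KC.S_EXTC := KC.EXTC_pf 
  have h_N3_S_NBX : N3.S_NBX := N3.NBX_pf h_AK_S_CYL
  have h_N3_S_CI3 : N3.S_CI3 := N3.CI3_pf h_KC_S_CON h_KC_S_CONF
  have h_N3_S_URB : N3.S_URB := N3.URB_pf 
  have h_N3_S_USG : N3.S_USG := N3.USG_pf 
  have h_N3_S_CL2 : N3.S_CL2 := N3.CL2_pf 
  have h_N3_S_SP2 : N3.S_SP2 := N3.SP2_pf h_N3_S_NBX h_AK_S_CYL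
  have h_W3_S_BAL : W3.S_BAL := W3.BAL_pf 
  have h_W3_S_VLU : W3.S_VLU := W3.VLU_pf 
  have h_W3_S_BCX : W3.S_BCX := W3.BCX_pf h_AK_S_ZORN
  have h_W3_S_VNB : W3.S_VNB := W3.VNB_pf 
  have h_W3_S_PUR : W3.S_PUR := W3.PUR_pf 
  have h_W3_S_GCE : W3.S_GCE := W3.GCE_pf h_AK_S_CYL h_N3_S_NBX h_N3_S_SP2
  have h_W3_S_GBA : W3.S_GBA := W3.GBA_pf 
  have h_W3_S_THPT : W3.S_THPT := W3.THPT_pf 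
  have h_W3_S_BRC : W3.S_BRC := W3.BRC_pf 
  have h_W3_S_MEC : W3.S_MEC := W3.MEC_pf 
  have h_W3_S_LEB : W3.S_LEB := W3.LEB_pf 
  have h_W3_S_PRU : W3.S_PRU := W3.PRU_pf h_N3_S_USG
  have h_W3_S_SEX : W3.S_SEX := W3.SEX_pf 
  have h_W3_S_FSD : W3.S_FSD := W3.FSD_pf 
  have h_W3_S_RAW : W3.S_RAW := W3.RAW_pf h_N3_S_SP2 h_N3_S_NBX h_AK_S_CYL
  have h_W3_S_CMP : W3.S_CMP := W3.CMP_pf 
  have h_W3_S_PMG : W3.S_PMG := W3.PMG_pf 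
  have h_W3_S_CMD : W3.S_CMD := W3.CMD_pf h_N3_S_CL2
  have h_W3_S_PRD : W3.S_PRD := W3.PRD_pf 
  have h_W3_S_ULT : W3.S_ULT := W3.ULT_pf 
  have h_W3_S_RLP : W3.S_RLP := W3.RLP_pf h_AK_S_CYL
  have h_W3_S_SEO : W3.S_SEO := W3.SEO_pf 
  have h_W3_S_ONT : W3.S_ONT := W3.ONT_pf 
  have h_W3_S_RLB : W3.S_RLB := W3.RLB_pf h_AK_S_CYL
  have h_W3_S_SPC : W3.S_SPC := W3.SPC_pf h_W3_S_ULT h_W3_S_PMG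
  have h_W3_S_SPS : W3.S_SPS := W3.SPS_pf 
  have h_W3_S_MCM : W3.S_MCM := W3.MCM_pf 
  have h_W3_S_GVL : W3.S_GVL := W3.GVL_pf 
  have h_W3_S_MCE : W3.S_MCE := W3.MCE_pf h_W3_S_PRU h_AK_S_CST
  have h_W3_S_BRX : W3.S_BRX := W3.BRX_pf 
  have h_W3_S_MIX : W3.S_MIX := W3.MIX_pf 
  have h_W3_S_DIR : W3.S_DIR := W3.DIR_pf 
  have h_W3_S_BC2 : W3.S_BC2 := W3.BC2_pf h_W3_S_SPC
  have h_W3_S_LIM : W3.S_LIM := W3.LIM_pf h_W3_S_MCE h_W3_S_CMD h_N3_S_CL2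
  have h_W3_S_SPN : W3.S_SPN := W3.SPN_pf h_W3_S_ULT h_W3_S_PMG
  have h_AK_S_PMB : AK.S_PMB := AK.PMB_pf h_AK_S_CYL
  have h_AK_S_ENG : AK.S_ENG := AK.ENG_pf h_AK_S_CYL h_AK_S_PMB
  have h_AK_S_USC : AK.S_USC := AK.USC_pf h_AK_S_PMB h_AK_S_CLP
  have h_AK_S_SUP : AK.S_SUP := AK.SUP_pf h_AK_S_CYL h_AK_S_PMB
  have h_KC_S_FFSC : KC.S_FFSC := KC.FFSC_pf h_KC_S_CYSC
  have h_W3_S_ISA : W3.S_ISA := W3.ISA_pf h_AK_S_ORB h_W3_S_ULT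
  have h_W3_S_JCT : W3.S_JCT := W3.JCT_pf h_W3_S_ULT
  have h_W3_S_EX2 : W3.S_EX2 := W3.EX2_pf h_AK_S_OMG h_W3_S_LEB
  have h_W3_S_KDC : W3.S_KDC := W3.KDC_pf h_W3_S_FSD h_W3_S_BRX
  have h_W3_S_LFT : W3.S_LFT := W3.LFT_pf h_W3_S_PMG h_W3_S_FSD
  have h_W3_S_SPP : W3.S_SPP := W3.SPP_pf h_W3_S_ULT h_W3_S_PMG h_W3_S_PRD
  have h_W3_S_THC : W3.S_THC := W3.THC_pf h_AK_S_CYL h_AK_S_PMB h_W3_S_MCM h_W3_S_RLB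
  have h_W3_S_MSB : W3.S_MSB := W3.MSB_pf h_AK_S_USC h_AK_S_SUP h_AK_S_PMB
  have h_W3_S_BLX : W3.S_BLX := W3.BLX_pf h_W3_S_JCT
  have h_W3_S_THM : W3.S_THM := W3.THM_pf h_W3_S_MCM h_W3_S_RLB h_W3_S_THC h_W3_S_LEB h_AK_S_PMB
  have h_W3_S_BRB : W3.S_BRB := W3.BRB_pf h_W3_S_PMG h_W3_S_LFT h_W3_S_BRX h_W3_S_BRC
  have h_W3_S_ENV : W3.S_ENV := W3.ENV_pf h_W3_S_BRX
  have h_W3_S_ISP : W3.S_ISP := W3.ISP_pf h_W3_S_ONT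
  have h_W3_S_CB0 : W3.S_CB0 := W3.CB0_pf h_N3_S_URB h_W3_S_DIR
  have h_W3_S_THU : W3.S_THU := W3.THU_pf h_AK_S_CYL h_W3_S_BAL h_W3_S_RLB
  have h_W3_S_ZSC : W3.S_ZSC := W3.ZSC_pf h_AK_S_SUP
  have h_W3_S_BDL : W3.S_BDL := W3.BDL_pf h_W3_S_PMG h_AK_S_PMB h_W3_S_BRC
  have h_W3_S_HAU : W3.S_HAU := W3.HAU_pf h_W3_S_ISP
  have h_W3_S_FAM : W3.S_FAM := W3.FAM_pf h_W3_S_PMG h_W3_S_BRC h_W3_S_BRB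
  have h_W3_S_FDL : W3.S_FDL := W3.FDL_pf h_W3_S_PMG h_W3_S_BRX
  have h_W3_S_SDB : W3.S_SDB := W3.SDB_pf h_AK_S_CYL h_AK_S_SUP
  have h_W3_S_BCF : W3.S_BCF := W3.BCF_pf h_W3_S_ULT h_W3_S_JCT
  have h_W3_S_DIS : W3.S_DIS := W3.DIS_pf h_W3_S_ULT h_W3_S_JCT h_W3_S_ISP
  have h_W3_S_EX1 : W3.S_EX1 := W3.EX1_pf h_AK_S_OMG h_W3_S_BCF
  have h_W3_S_CTR : W3.S_CTR := W3.CTR_pf h_W3_S_PMG h_W3_S_PRD h_W3_S_LFT h_W3_S_JCT h_N3_S_USG h_AK_S_CST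
  have h_W3_S_SDP : W3.S_SDP := W3.SDP_pf h_W3_S_SDB
  have h_W3_S_SHD : W3.S_SHD := W3.SHD_pf h_AK_S_CYL h_W3_S_SDP
  have h_W3_S_FUB : W3.S_FUB := W3.FUB_pf h_W3_S_SDB h_AK_S_SUP
  have h_W3_S_ZSE : W3.S_ZSE := W3.ZSE_pf h_AK_S_SUP h_AK_S_PMB h_AK_S_CYL
  have h_W3_S_AAN : W3.S_AAN := W3.AAN_pf h_W3_S_FAM h_W3_S_ENV
  have h_W3_S_UMS : W3.S_UMS := W3.UMS_pf h_AK_S_ZORN h_AK_S_ORB h_W3_S_JCT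
  have h_W3_S_DET : W3.S_DET := W3.DET_pf h_W3_S_ISA h_W3_S_ONT
  have h_W3_S_PIC : W3.S_PIC := W3.PIC_pf h_W3_S_MSB h_AK_S_SUP h_AK_S_PMB h_AK_S_CYL
  have h_W3_S_AUT : W3.S_AUT := W3.AUT_pf h_W3_S_DET
  have h_W3_S_UMP : W3.S_UMP := W3.UMP_pf h_W3_S_ULT h_W3_S_JCT h_W3_S_SPN
  have h_W3_S_JMC : W3.S_JMC := W3.JMC_pf h_W3_S_AUT h_W3_S_PMG
  have h_W3_S_THP : W3.S_THP := W3.THP_pf h_W3_S_THC h_W3_S_THM h_W3_S_THU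
  have h_W3_S_SPE : W3.S_SPE := W3.SPE_pf h_W3_S_PMG h_W3_S_PRD h_W3_S_BRX h_W3_S_BRC h_W3_S_FAM h_W3_S_ENV
  have h_W3_S_GRS : W3.S_GRS := W3.GRS_pf h_W3_S_SDB
  have h_W3_S_STA : W3.S_STA := W3.STA_pf h_W3_S_SDB
  have h_W3_S_LXC : W3.S_LXC := W3.LXC_pf h_W3_S_ULT h_W3_S_PMG h_W3_S_FSD h_W3_S_BRX h_W3_S_BRC h_W3_S_SEO h_W3_S_AAN h_AK_S_ENG h_KC_S_FFSC
  have h_W3_S_INI : W3.S_INI := W3.INI_pf h_W3_S_SDB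
  have h_W3_S_F1X : W3.S_F1X := W3.F1X_pf h_W3_S_CTR
  have h_W3_S_DEC : W3.S_DEC := W3.DEC_pf h_W3_S_MCE h_W3_S_FUB
  have h_W3_S_RIM : W3.S_RIM := W3.RIM_pf h_W3_S_BCF h_W3_S_CTR
  have h_W3_S_CLT : W3.S_CLT := W3.CLT_pf h_W3_S_AUT
  have h_W3_S_PTN : W3.S_PTN := W3.PTN_pf h_W3_S_AUT h_W3_S_ISA h_W3_S_ULT h_AK_S_ZORN h_AK_S_ORB h_AK_S_IMG
  have h_W3_S_UMC : W3.S_UMC := W3.UMC_pf h_W3_S_AUT h_W3_S_SPC h_W3_S_SPP h_W3_S_UMS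
  have h_W3_S_SPG : W3.S_SPG := W3.SPG_pf h_W3_S_SEX h_W3_S_AAN h_W3_S_SPE h_AK_S_ZORN
  have h_W3_S_CHX : W3.S_CHX := W3.CHX_pf h_W3_S_AUT h_W3_S_SPN h_W3_S_JCT
  have h_W3_S_FEK : W3.S_FEK := W3.FEK_pf h_W3_S_JMC h_W3_S_LFT
  have h_W3_S_CLF : W3.S_CLF := W3.CLF_pf h_W3_S_DET h_W3_S_AUT h_W3_S_ULT
  have h_W3_S_AXE : W3.S_AXE := W3.AXE_pf h_W3_S_JMC h_W3_S_SPG
  have h_W3_S_T7M : W3.S_T7M := W3.T7M_pf h_W3_S_HAU h_W3_S_AUT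
  have h_W3_S_STK : W3.S_STK := W3.STK_pf h_W3_S_DEC h_W3_S_SHD h_W3_S_RAW h_W3_S_SDB
  have h_W3_S_ZOL : W3.S_ZOL := W3.ZOL_pf h_W3_S_AUT h_W3_S_ULT h_W3_S_UMP h_W3_S_VLU h_W3_S_RLP
  have h_W3_S_DNT : W3.S_DNT := W3.DNT_pf h_W3_S_AUT h_W3_S_ONT
  have h_W3_S_AUC : W3.S_AUC := W3.AUC_pf h_W3_S_AUT
  have h_W3_S_MAS : W3.S_MAS := W3.MAS_pf h_W3_S_CMP h_W3_S_CMD h_W3_S_MCE h_W3_S_SDB h_W3_S_STA h_W3_S_MSB h_AK_S_SUP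
  have h_W3_S_XCH : W3.S_XCH := W3.XCH_pf h_W3_S_CHX h_W3_S_UMC h_AK_S_ORB h_AK_S_IMG
  have h_W3_S_TDF : W3.S_TDF := W3.TDF_pf h_W3_S_ULT h_W3_S_BC2 h_W3_S_BCF h_W3_S_T7M h_W3_S_FAM h_W3_S_FDL
  have h_W3_S_FSM : W3.S_FSM := W3.FSM_pf h_AK_S_SUP h_W3_S_SPS h_W3_S_BCX h_W3_S_RIM h_W3_S_BLX h_W3_S_BRX
  have h_W3_S_BCU : W3.S_BCU := W3.BCU_pf h_W3_S_ULT h_W3_S_JCT h_W3_S_BCF h_W3_S_RIM h_W3_S_BAL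
  have h_W3_S_STC : W3.S_STC := W3.STC_pf h_W3_S_CMP h_W3_S_CMD h_W3_S_RAW h_W3_S_PIC h_W3_S_DEC h_W3_S_LIM h_W3_S_SHD h_W3_S_STA h_W3_S_SDB h_W3_S_MSB h_AK_S_CYL
  have h_W3_S_KEA : W3.S_KEA := W3.KEA_pf h_W3_S_JMC h_W3_S_FEK h_W3_S_LFT h_W3_S_JCT h_W3_S_PRD h_W3_S_BRC h_W3_S_PMG
  have h_W3_S_GDC : W3.S_GDC := W3.GDC_pf h_W3_S_JMC h_W3_S_FEK h_W3_S_PTN h_W3_S_LFT h_W3_S_JCT h_W3_S_PRD h_W3_S_BRC h_W3_S_PMG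
  have h_W3_S_LXL : W3.S_LXL := W3.LXL_pf h_W3_S_AAN h_W3_S_SEO h_W3_S_SPE h_W3_S_BCX h_W3_S_RIM h_W3_S_EX1 h_W3_S_BCF h_W3_S_FAM h_W3_S_FDL h_AK_S_IMG
  have h_W3_S_EX3 : W3.S_EX3 := W3.EX3_pf h_W3_S_T7M h_AK_S_OMG
  have h_W3_S_T7V : W3.S_T7V := W3.T7V_pf h_W3_S_HAU h_W3_S_AUT h_W3_S_T7M
  have h_W3_S_CHL : W3.S_CHL := W3.CHL_pf h_W3_S_T7M h_W3_S_BCX h_W3_S_RIM h_W3_S_LEB
  have h_W3_S_STP3 : W3.S_STP3 := W3.STP3_pf h_W3_S_STA h_W3_S_STC h_W3_S_STK h_W3_S_SDB h_W3_S_RAW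
  have h_W3_S_MEM : W3.S_MEM := W3.MEM_pf h_AK_S_ORB h_AK_S_PMB h_AK_S_SUP h_W3_S_BRX h_W3_S_FAM h_W3_S_FDL h_W3_S_BCF h_W3_S_FSM h_W3_S_TDF
  have h_W3_S_FNL : W3.S_FNL := W3.FNL_pf h_W3_S_MAS h_W3_S_STA h_W3_S_MSB h_W3_S_SDB h_AK_S_USC
  have h_W3_S_PHB : W3.S_PHB := W3.PHB_pf h_W3_S_BCU
  have h_W3_S_LAW : W3.S_LAW := W3.LAW_pf h_W3_S_PMG h_W3_S_JMC h_W3_S_KEA h_W3_S_GDC h_W3_S_FSD h_W3_S_BRC h_W3_S_BRX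
  have h_W3_S_CHP : W3.S_CHP := W3.CHP_pf h_W3_S_CHL h_W3_S_SPS h_W3_S_BCX h_W3_S_BC2 h_W3_S_BCF h_W3_S_BCU
  have h_W3_S_UNA : W3.S_UNA := W3.UNA_pf h_W3_S_BCX h_W3_S_BCF h_W3_S_PHB h_W3_S_DIS h_W3_S_AUT h_W3_S_T7M h_W3_S_T7V h_W3_S_RIM h_W3_S_FEK h_W3_S_BRX h_W3_S_JMC
  have h_W3_S_FRC : W3.S_FRC := W3.FRC_pf h_W3_S_LXC h_W3_S_LXL h_W3_S_VNB h_W3_S_THP h_W3_S_ZSE h_W3_S_ZSC h_W3_S_EX2 h_W3_S_THPT h_W3_S_EX3 h_W3_S_DIR h_W3_S_T7M h_AK_S_ORB h_AK_S_IMG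
  have h_W3_S_EHA : W3.S_EHA := W3.EHA_pf h_W3_S_CHL h_W3_S_EX1 h_W3_S_F1X h_W3_S_CHP h_W3_S_SDB h_W3_S_BCF
  have h_W3_S_END : W3.S_END := W3.END_pf h_W3_S_INI h_W3_S_STP3 h_W3_S_FNL h_W3_S_GCE h_W3_S_SDB
  have h_W3_S_EXF : W3.S_EXF := W3.EXF_pf h_W3_S_ZSE h_W3_S_ZSC h_W3_S_EX2 h_W3_S_EX3 h_W3_S_AUT
  have h_W3_S_TYP : W3.S_TYP := W3.TYP_pf h_W3_S_UNA h_W3_S_MCM h_W3_S_PUR h_W3_S_JMC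
  have h_W3_S_TDX : W3.S_TDX := W3.TDX_pf h_W3_S_FRC h_W3_S_LXC h_W3_S_LXL
  have h_W3_S_FUS : W3.S_FUS := W3.FUS_pf h_W3_S_UNA h_W3_S_BAL h_W3_S_AUT
  have h_W3_S_CHE : W3.S_CHE := W3.CHE_pf h_W3_S_XCH h_W3_S_EHA h_W3_S_TDF h_W3_S_END h_AK_S_SUP
  have h_W3_S_BAD : W3.S_BAD := W3.BAD_pf h_W3_S_CLT h_W3_S_EX1 h_W3_S_EXF h_W3_S_BDL h_W3_S_MEM h_W3_S_MEC h_W3_S_TDF h_AK_S_PMB
  have h_W3_S_TRN : W3.S_TRN := W3.TRN_pf h_AK_S_ORB h_AK_S_IMG h_AK_S_PMB h_W3_S_MIX h_W3_S_TDF h_W3_S_EX1 h_W3_S_EXF h_W3_S_DNT h_W3_S_UMC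
  have h_W3_S_F1F : W3.S_F1F := W3.F1F_pf h_W3_S_AXE h_W3_S_LAW h_W3_S_TYP h_W3_S_CLF h_W3_S_FUS h_W3_S_UMP h_W3_S_VLU h_W3_S_ULT h_W3_S_BRX h_W3_S_JMC
  have h_W3_S_SLG : W3.S_SLG := W3.SLG_pf h_W3_S_KDC h_W3_S_CHE h_W3_S_GRS h_N3_S_CI3
  have h_W3_S_FDN : W3.S_FDN := W3.FDN_pf h_W3_S_F1F h_W3_S_VLU
  have h_W3_S_GEN : W3.S_GEN := W3.GEN_pf h_W3_S_GBA h_W3_S_GVL h_W3_S_FDN h_W3_S_ZOL h_W3_S_VNB h_W3_S_RLP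
  have h_W3_S_TUX : W3.S_TUX := W3.TUX_pf h_W3_S_GEN h_W3_S_AUC h_W3_S_TDF h_W3_S_DET
  have h_W3_S_STF : W3.S_STF := W3.STF_pf h_AK_S_ORB h_W3_S_TDX h_W3_S_TDF h_W3_S_TUX h_W3_S_MIX h_W3_S_TRN h_W3_S_BAD h_W3_S_SLG
  have h_W3_S_MAT : W3.S_MAT := W3.MAT_pf h_KC_S_EXTC h_AK_S_ORB h_W3_S_CB0 h_W3_S_STF
  exact h_W3_S_MAT

end Pool.Agent.Work.MP_69fea5_lc
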