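import Pool.Agent.Work.MP_69fea5_lc.W3.StmtsD2

set_option autoImplicit false

namespace Pool.Agent.Work.MP_69fea5_lc.W3D

open MeasureTheory Topology Set Filter
open ProbabilityTheory (Kernel)
open scoped ENNReal NNReal ProbabilityTheory
open Pool.Agent.Work.MP_69fea5_lc.AK (Sys sh orb)

/-- AGR. If agreement on `A` implies agreement on `B`, the kernels are the same. -/
theorem AGR_pf : S_AGR := by
  intro X _ _ _ _ _ _ _ _ K hK F _ L h1 A B hAB hag w hw
  have hae : ∀ᵐ v ∂(K F L A w), v ∈ NF X L ∧ ∀ i ∈ A, v i = w i := hK.car F L h1 A w hw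
  refine Measure.ext fun S hS => ?_
  rw [← hK.mul F L h1 A B hAB w hw, Measure.bind_apply hS (Kernel.aemeasurable _)]
  have h2 : ∫⁻ v, K F L B v S ∂(K F L A w) = ∫⁻ _v, K F L B w S ∂(K F L A w) := by
    refine lintegral_congr_ae ?_
    filter_upwards [hae] with v hv
    rw [hK.cls F L h1 B v hv.1 w hw (hag v hv.1 w hw hv.2)]
  rw [h2, lintegral_const, hK.prob F L h1 A w hw, mul_one]

end Pool.Agent.Work.MP_69fea5_lc.W3D
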