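import Pool.Agent.Work.MP_69fea5_lc.W3.StmtsD

set_option autoImplicit false
set_option linter.unusedSectionVars false

namespace Pool.Agent.Work.MP_69fea5_lc.W3D

open MeasureTheory Topology Set Filter
open ProbabilityTheory (Kernel)
open scoped ENNReal NNReal
open Pool.Agent.Work.MP_69fea5_lc.AK (Sys sh orb)

namespace D_CON

variable {W : Type} [TopologicalSpace W] [CompactSpace W] [T2Space W]
  [SecondCountableTopology W] [MeasurableSpace W] [BorelSpace W]

theorem integrable_cont (m : ProbabilityMeasure W) (f : C(W, ℝ)) :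
    Integrable (fun x => f x) (m : Measure W) := by
  refine Integrable.of_bound f.continuous.measurable.aestronglyMeasurable ‖f‖ ?_
  exact Eventually.of_forall fun x => f.norm_coe_le_norm x

/-- joint continuity of the integral along a continuous family of measures -/
theorem continuous_int (κ : W → ProbabilityMeasure W) (hκ : Continuous κ)
    (Φ : C(W, C(W, ℝ))) : Continuous fun y => ∫ x, Φ y x ∂(κ y : Measure W) := by
  rw [continuous_iff_continuousAt]
  intro y₀
  have h1 : Tendsto (fun y => ∫ x, Φ y₀ x ∂(κ y : Measure W)) (𝓝 y₀)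
      (𝓝 (∫ x, Φ y₀ x ∂(κ y₀ : Measure W))) := by
    have h := (ProbabilityMeasure.tendsto_iff_forall_integral_tendsto.1 (hκ.tendsto y₀))
      (BoundedContinuousFunction.mkOfCompact (Φ y₀))
    simpa using h
  refine h1.congr_dist ?_
  have h2 : Tendsto (fun y => ‖Φ y₀ - Φ y‖) (𝓝 y₀) (𝓝 0) := by
    have h : Continuous fun y => ‖Φ y₀ - Φ y‖ := (continuous_const.sub Φ.continuous).norm
    have h' := h.tendsto y₀
    simpa using h'
  refine squeeze_zero (fun y => dist_nonneg) (fun y => ?_) h2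
  rw [Real.dist_eq, ← integral_sub (integrable_cont _ _) (integrable_cont _ _)]
  have h3 : ‖∫ x, (Φ y₀ x - Φ y x) ∂(κ y : Measure W)‖ ≤
      ‖Φ y₀ - Φ y‖ * ((κ y : Measure W).real univ) := by
    refine norm_integral_le_of_norm_le_const (Eventually.of_forall fun x => ?_)
    exact (Φ y₀ - Φ y).norm_coe_le_norm x
  have h4 : (κ y : Measure W).real univ = 1 := by simp
  rw [h4, mul_one] at h3
  rw [← Real.norm_eq_abs]
  exact h3

end D_CON

theorem CON_pf : S_CON := by
  intro G W _ _ _ _ _ _ _ a ha hmin E E' ρ hI κ hK δ hδ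
  -- Tietze
  have hc0 : ContinuousOn (fun p : W × W => max 0 (δ - ρ p.1 p.2)) {p | E p.1 p.2} :=
    ContinuousOn.sup continuousOn_const (continuousOn_const.sub hI.cont)
  obtain ⟨Ψ, -, hΨ⟩ := ContinuousMap.exists_restrict_eq_forall_mem_of_closed
    (s := {p : W × W | E p.1 p.2}) ⟨_, hc0.domRestrict⟩ (t := univ) (fun _ => mem_univ _)
    ⟨0, mem_univ _⟩ hI.closed
  have hΨ' : ∀ x y, E x y → Ψ (x, y) = max 0 (δ - ρ x y) := by
    intro x y hxy
    have h := congrArg (fun f : C({p : W × W | E p.1 p.2}, ℝ) => f ⟨(x, y), hxy⟩) hΨ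
    exact h
  -- currying
  let Φ : C(W, C(W, ℝ)) := ContinuousMap.curry ⟨fun p : W × W => Ψ (p.2, p.1), by fun_prop⟩
  have hΦ : ∀ y x, Φ y x = Ψ (x, y) := fun y x => rfl
  -- almost everywhere on the class
  have hae : ∀ y z, E y z → ∀ᵐ x ∂(κ y : Measure W), E x z := by
    intro y z hyz
    have h := hK.car y
    have h' : ∀ᵐ x ∂(κ y : Measure W), E y x := by
      rw [ae_iff]
      exact h
    filter_upwards [h'] with x hx
    exact hI.eqv.trans (hI.eqv.symm hx) hyz
  have hint : ∀ y z, E y z → ∫ x, Φ z x ∂(κ y : Measure W) =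
      ∫ x, max 0 (δ - ρ x z) ∂(κ y : Measure W) := by
    intro y z hyz
    refine integral_congr_ae ?_
    filter_upwards [hae y z hyz] with x hx
    rw [hΦ, hΨ' x z hx]
  have hcont := D_CON.continuous_int κ hK.cont Φ
  -- invariance
  have hinv : ∀ g y, ∫ x, Φ (a g y) x ∂(κ (a g y) : Measure W) =
      ∫ x, Φ y x ∂(κ y : Measure W) := by
    intro g y
    rw [hK.equi, integral_map (ha.cont g).measurable.aemeasurable
      (Φ (a g y)).continuous.measurable.aestronglyMeasurable]
    refine integral_congr_ae ?_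
    filter_upwards [hae y y (hI.eqv.refl y)] with x hx
    rw [hΦ, hΦ, hΨ' _ _ (hI.inv g x y hx), hΨ' _ _ hx, hI.rinv g x y hx]
  have hconst : ∀ y z, ∫ x, Φ z x ∂(κ z : Measure W) = ∫ x, Φ y x ∂(κ y : Measure W) := by
    intro y z
    have hcl : IsClosed {z | ∫ x, Φ z x ∂(κ z : Measure W) = ∫ x, Φ y x ∂(κ y : Measure W)} :=
      isClosed_eq hcont continuous_const
    have hsub : closure (range fun g => a g y) ⊆
        {z | ∫ x, Φ z x ∂(κ z : Measure W) = ∫ x, Φ y x ∂(κ y : Measure W)} := by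
      refine hcl.closure_subset_iff.2 ?_
      rintro _ ⟨g, rfl⟩
      exact hinv g y
    exact hsub (hmin y z)
  rcases isEmpty_or_nonempty W with hW | ⟨⟨y₀⟩⟩
  · exact ⟨1, one_pos, fun y => (hW.false y).elim⟩
  refine ⟨∫ x, Φ y₀ x ∂(κ y₀ : Measure W), ?_, fun y => ?_⟩
  swap
  · rw [← hint y y (hI.eqv.refl y)]
    exact hconst y₀ y
  have hnn : ∀ y, E y₀ y → 0 ≤ᵐ[(κ y₀ : Measure W)] fun x => Φ y x := by
    intro y hy
    filter_upwards [hae y₀ y hy] with x hx
    rw [hΦ, hΨ' x y hx]
    exact le_max_left _ _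
  rcases (integral_nonneg_of_ae (hnn y₀ (hI.eqv.refl y₀))).lt_or_eq with h | h
  · exact h
  exfalso
  have hz : ∀ y, E y₀ y → ∫ x, Φ y x ∂(κ y₀ : Measure W) = 0 := by
    intro y hy
    rw [hK.cls y₀ y hy]
    rw [hconst y₀ y]
    exact h.symm
  have hC : IsClosed {x | E y₀ x} := by
    have h1 : Continuous fun x : W => (y₀, x) := by fun_prop
    exact hI.closed.preimage h1
  have h0 : (κ y₀ : Measure W) {x | E y₀ x} = 0 := by
    refine hC.isCompact.measure_zero_of_nhdsWithin ?_
    intro y hy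
    refine ⟨{x | 0 < Φ y x}, ?_, ?_⟩
    · refine mem_nhdsWithin_of_mem_nhds ?_
      refine IsOpen.mem_nhds (isOpen_lt continuous_const (Φ y).continuous) ?_
      change 0 < Φ y y
      rw [hΦ, hΨ' y y (hI.eqv.refl y), hI.self, sub_zero]
      exact lt_max_of_lt_right hδ
    · have h1 := (integral_eq_zero_iff_of_nonneg_ae (hnn y hy)
        (D_CON.integrable_cont (κ y₀) (Φ y))).1 (hz y hy)
      have h2 : ∀ᵐ x ∂(κ y₀ : Measure W), ¬ (0 < Φ y x) := by
        filter_upwards [h1] with x hx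
        rw [hx]
        exact lt_irrefl _
      rw [ae_iff] at h2
      simpa using h2
  have h1 : (κ y₀ : Measure W) {x | ¬ E y₀ x} = 0 := hK.car y₀
  have h2 : (κ y₀ : Measure W) univ = 0 := by
    have h3 : (univ : Set W) = {x | E y₀ x} ∪ {x | ¬ E y₀ x} := by
      ext x
      simp [em]
    rw [h3]
    exact measure_union_null h0 h1
  rw [measure_univ] at h2
  exact one_ne_zero h2

end Pool.Agent.Work.MP_69fea5_lc.W3D
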