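import Pool.Agent.Work.MP_69fea5_lc.W3.StmtsD

/-!
# Block [69fea5 D], item DIS: orbit closures of distal actions are minimal

For `y = p x`, `p` in the enveloping semigroup `S`, the left ideal `S p` is closed, so it contains
an idempotent `q p`, which is the identity by distality; so `q y = x`.
-/

set_option autoImplicit false

namespace Pool.Agent.Work.MP_69fea5_lc.W3D

open MeasureTheory Topology Set Filter

namespace D_DIS

variable {G W : Type} [TopologicalSpace W]

/-- the enveloping semigroup -/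
def El (a : G → W → W) : Set (W → W) := closure (range a)

lemma cont_comp (p : W → W) : Continuous fun q : W → W => q ∘ p :=
  continuous_pi fun z => continuous_apply (p z)

lemma comp_mem [AddGroup G] {a : G → W → W} (ha : Act a) {p q : W → W} (hq : q ∈ El a) (hp : p ∈ El a) :
    q ∘ p ∈ El a := by
  have h1 : ∀ g, a g ∘ p ∈ El a := by
    intro g
    have hc : Continuous fun p : W → W => a g ∘ p :=
      continuous_pi fun z => (ha.cont g).comp (continuous_apply z)
    refine map_mem_closure hc hp ?_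
    rintro _ ⟨h, rfl⟩
    exact ⟨g + h, funext fun z => ha.add g h z⟩
  have h2 : q ∘ p ∈ closure (El a) := by
    refine map_mem_closure (f := fun q : W → W => q ∘ p) (cont_comp p) hq ?_
    rintro _ ⟨g, rfl⟩
    exact h1 g
  rwa [El, closure_closure] at h2

lemma exists_ultra {a : G → W → W} {u : W → W} (hu : u ∈ El a) :
    ∃ U : Ultrafilter G, ∀ x, Tendsto (fun g => a g x) (U : Filter G) (𝓝 (u x)) := by
  have hne : (comap a (𝓝 u)).NeBot := by
    refine comap_neBot_iff.2 fun t ht => ?_
    obtain ⟨_, h1, ⟨g, rfl⟩⟩ := mem_closure_iff_nhds.1 hu t ht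
    exact ⟨g, h1⟩
  refine ⟨Ultrafilter.of (comap a (𝓝 u)), fun x => ?_⟩
  have h : Tendsto a (Ultrafilter.of (comap a (𝓝 u)) : Filter G) (𝓝 u) :=
    tendsto_comap.mono_left (Ultrafilter.of_le _)
  exact tendsto_pi_nhds.1 h x

end D_DIS

open D_DIS in
theorem DIS_pf : S_DIS := by
  intro G W _ _ _ _ a ha hdist x y hy
  have hScomp : IsCompact (El a) := isClosed_closure.isCompact
  -- `y = p x`
  obtain ⟨p, hp, hpx⟩ : ∃ p ∈ El a, p x = y := by
    have hc : Continuous fun p : W → W => p x := continuous_apply x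
    have hcl : IsClosed ((fun p : W → W => p x) '' El a) := (hScomp.image hc).isClosed
    have hsub : (range fun g => a g x) ⊆ (fun p : W → W => p x) '' El a := by
      rintro _ ⟨g, rfl⟩
      exact ⟨a g, subset_closure ⟨g, rfl⟩, rfl⟩
    exact closure_minimal hsub hcl hy
  let _ : Semigroup (W → W) :=
    { mul := fun f g => f ∘ g
      mul_assoc := fun _ _ _ => rfl }
  have hmul : ∀ f g : W → W, f * g = f ∘ g := fun _ _ => rfl
  -- the left ideal `S p`
  obtain ⟨u, ⟨q, hq, rfl⟩, huu⟩ := exists_idempotent_in_compact_subsemigroup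
    (fun r : W → W => cont_comp r) ((fun q : W → W => q ∘ p) '' El a)
    ⟨p ∘ p, p, hp, rfl⟩ (hScomp.image (cont_comp p)) (by
      rintro _ ⟨q, hq, rfl⟩ _ ⟨q', hq', rfl⟩
      exact ⟨(q ∘ p) ∘ q', comp_mem ha (comp_mem ha hq hp) hq', rfl⟩)
  have huS : q ∘ p ∈ El a := comp_mem ha hq hp
  obtain ⟨U, hU⟩ := exists_ultra huS
  have hux : x = (q ∘ p) x := by
    refine hdist x ((q ∘ p) x) ((q ∘ p) x) U (hU x) ?_
    have h := hU ((q ∘ p) x)
    have h2 : (q ∘ p) ((q ∘ p) x) = (q ∘ p) x := congrFun huu x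
    rwa [h2] at h
  have hqy : x = q y := by rw [hux, Function.comp_apply, hpx]
  rw [hqy]
  refine map_mem_closure (f := fun p : W → W => p y) (continuous_apply y) hq ?_
  rintro _ ⟨g, rfl⟩
  exact ⟨g, rfl⟩

end Pool.Agent.Work.MP_69fea5_lc.W3D
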