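import Pool.Agent.Work.MP_69fea5_lc.W3.StmtsD

/-!
# Block [69fea5 D], item DL: distality, two proximal measures on one class

Proof by the limit `R` of the graphs `{(y, a g y) | E w y}`: on `R` the second point determines the
`E'`-class of the first one.
-/

set_option autoImplicit false

namespace Pool.Agent.Work.MP_69fea5_lc.W3D

open MeasureTheory Topology Set Filter
open scoped ENNReal NNReal BoundedContinuousFunction

namespace D_DL

section rel

variable {G W : Type} [TopologicalSpace W]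

/-- the limit of the graphs -/
def RR (a : G → W → W) (E : W → W → Prop) (w : W) (U : Ultrafilter G) : Set (W × W) :=
  {p | ∀ V ∈ 𝓝 p, ∀ᶠ g in (U : Filter G), ∃ y, E w y ∧ (y, a g y) ∈ V}

theorem isClosed_RR (a : G → W → W) (E : W → W → Prop) (w : W) (U : Ultrafilter G) :
    IsClosed (RR a E w U) := by
  rw [← closure_subset_iff_isClosed]
  intro p hp V hV
  obtain ⟨V', hV'V, hV'o, hpV'⟩ := mem_nhds_iff.mp hV
  obtain ⟨q, hq1, hq2⟩ := mem_closure_iff.mp hp V' hV'o hpV'
  exact (hq2 V' (hV'o.mem_nhds hq1)).mono fun g ⟨y, h1, h2⟩ => ⟨y, h1, hV'V h2⟩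

theorem isClosed_cls {a : G → W → W} {E E' : W → W → Prop} {ρ : W → W → ℝ} (h : Iso1 a E E' ρ)
    (w : W) : IsClosed {y | E w y} :=
  h.closed.preimage (f := fun y => (w, y)) (by fun_prop)

theorem RR_cls {a : G → W → W} {E E' : W → W → Prop} {ρ : W → W → ℝ} (h : Iso1 a E E' ρ)
    (w : W) (U : Ultrafilter G) {x z : W} (h1 : (x, z) ∈ RR a E w U) : E w x := by
  have hc := isClosed_cls h w
  have : x ∈ closure {y | E w y} := by
    rw [mem_closure_iff]
    intro O hO hx
    obtain ⟨g, y, hy1, hy2⟩ := (h1 (O ×ˢ univ) (prod_mem_nhds (hO.mem_nhds hx) univ_mem)).exists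
    exact ⟨y, hy2.1, hy1⟩
  rwa [hc.closure_eq] at this

theorem RR_unique {a : G → W → W} {E E' : W → W → Prop} {ρ : W → W → ℝ} (h : Iso1 a E E' ρ)
    (w : W) (U : Ultrafilter G) {x₁ x₂ z : W} (h1 : (x₁, z) ∈ RR a E w U)
    (h2 : (x₂, z) ∈ RR a E w U) : E' x₁ x₂ := by
  have e12 : E x₁ x₂ := h.eqv.trans (h.eqv.symm (RR_cls h w U h1)) (RR_cls h w U h2)
  have ezz : E z z := h.eqv.refl z
  rw [h.zero]
  refine ⟨e12, le_antisymm (le_of_forall_pos_le_add fun ε hε => ?_) (h.nonneg _ _ e12)⟩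
  have c1 := (h.cont (x₁, x₂) e12).tendsto
  have c2 := (h.cont (z, z) ezz).tendsto
  have d1 : ∀ᶠ p in 𝓝[{p : W × W | E p.1 p.2}] (x₁, x₂), ρ x₁ x₂ - ε / 2 < ρ p.1 p.2 :=
    c1.eventually (lt_mem_nhds (by simp; exact hε))
  have d2 : ∀ᶠ p in 𝓝[{p : W × W | E p.1 p.2}] (z, z), ρ p.1 p.2 < ε / 2 :=
    c2.eventually (gt_mem_nhds (by simp [h.self]; exact hε))
  rw [eventually_nhdsWithin_iff, nhds_prod_eq, eventually_prod_iff] at d1 d2
  obtain ⟨p1, hp1, p2, hp2, hp⟩ := d1
  obtain ⟨q1, hq1, q2, hq2, hq⟩ := d2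
  have k1 := h1 ({x | p1 x} ×ˢ {x | q1 x ∧ q2 x}) (prod_mem_nhds hp1 (hq1.and hq2))
  have k2 := h2 ({x | p2 x} ×ˢ {x | q1 x ∧ q2 x}) (prod_mem_nhds hp2 (hq1.and hq2))
  obtain ⟨g, ⟨y1, e1, m1⟩, y2, e2, m2⟩ := (k1.and k2).exists
  have ey : E y1 y2 := h.eqv.trans (h.eqv.symm e1) e2
  have r1 := hp m1.1 m2.1 ey
  have r2 := hq m1.2.1 m2.2.2 (h.inv g _ _ ey)
  simp only [h.rinv g _ _ ey] at r2
  simp only at r1
  linarith

/-- on the limit of the graphs a function of the `E'`-class of the first point is a continuous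
function of the second one -/
theorem RR_fac [CompactSpace W] [T2Space W] {a : G → W → W} {E E' : W → W → Prop}
    {ρ : W → W → ℝ} (h : Iso1 a E E' ρ) (w : W) (U : Ultrafilter G) (f : C(W, ℝ))
    (hf : ∀ x y, E' x y → f x = f y) :
    ∃ F : C(W, ℝ), ∀ p ∈ RR a E w U, f p.1 = F p.2 := by
  have hR := isClosed_RR a E w U
  have : CompactSpace (RR a E w U) := isCompact_iff_compactSpace.mp hR.isCompact
  let π : RR a E w U → W := fun p => p.1.2
  have hπ : Continuous π := by fun_prop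
  have hcl : IsClosedMap π := hπ.isClosedMap
  have hrange : IsClosed (range π) := hcl.isClosed_range
  let π' : C(RR a E w U, range π) := ⟨rangeFactorization π, hπ.subtype_mk _⟩
  have hq : IsQuotientMap π' :=
    IsQuotientMap.of_surjective_continuous rangeFactorization_surjective π'.continuous
  let φ : C(RR a E w U, ℝ) := ⟨fun p => f p.1.1, by fun_prop⟩
  have hφ : Function.FactorsThrough φ π' := by
    rintro ⟨⟨x1, z1⟩, hp⟩ ⟨⟨x2, z2⟩, hq⟩ e
    have e' : z1 = z2 := congrArg Subtype.val e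
    subst e'
    exact hf _ _ (RR_unique h w U hp hq)
  let ψ : C(range π, ℝ) := hq.lift φ hφ
  obtain ⟨F, hF⟩ := ContinuousMap.exists_restrict_eq hrange ψ
  refine ⟨F, fun p hp => ?_⟩
  have e1 : ψ (π' ⟨p, hp⟩) = φ ⟨p, hp⟩ := by
    have := hq.lift_comp φ hφ
    exact DFunLike.congr_fun this ⟨p, hp⟩
  have e2 : F (π' ⟨p, hp⟩ : range π) = ψ (π' ⟨p, hp⟩) := DFunLike.congr_fun hF (π' ⟨p, hp⟩)
  exact e1.symm.trans e2.symm

end rel

section meas

variable {G W : Type} [AddGroup G] [TopologicalSpace W] [CompactSpace W] [T2Space W]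
  [SecondCountableTopology W] [MeasurableSpace W] [BorelSpace W]

theorem key (a : G → W → W) (h : Act a) (E : W → W → Prop) (w : W)
    (m₁ m : ProbabilityMeasure W) (U : Ultrafilter G)
    (h1 : (m₁ : Measure W) {y | ¬ E w y} = 0)
    (hm : Tendsto (fun g => mv h g m₁) (U : Filter G) (𝓝 m))
    (f F : C(W, ℝ)) (hF : ∀ p ∈ RR a E w U, f p.1 = F p.2) :
    ∫ x, f x ∂(m₁ : Measure W) = ∫ x, F x ∂(m : Measure W) := by
  let _ := TopologicalSpace.metrizableSpaceMetric W
  have hgc : ∀ g, Continuous fun y => (y, a g y) := fun g => continuous_id.prodMk (h.cont g)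
  let P : G → ProbabilityMeasure (W × W) := fun g => m₁.map (hgc g).measurable.aemeasurable
  obtain ⟨Q, hQ⟩ : ∃ Q : ProbabilityMeasure (W × W), Tendsto P (U : Filter G) (𝓝 Q) := by
    obtain ⟨Q, -, hQ⟩ := isCompact_univ.ultrafilter_le_nhds (U.map P) (by simp)
    exact ⟨Q, hQ⟩
  have hPint : ∀ (g : G) (k : C(W × W, ℝ)), ∫ p, k p ∂(P g : Measure (W × W)) =
      ∫ y, k (y, a g y) ∂(m₁ : Measure W) := by
    intro g k
    show ∫ p, k p ∂((m₁.map (hgc g).measurable.aemeasurable : ProbabilityMeasure (W × W)) :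
      Measure (W × W)) = _
    rw [ProbabilityMeasure.toMeasure_map, integral_map (hgc g).measurable.aemeasurable
      k.continuous.measurable.aestronglyMeasurable]
  have hlim : ∀ k : C(W × W, ℝ), Tendsto (fun g => ∫ p, k p ∂(P g : Measure (W × W)))
      (U : Filter G) (𝓝 (∫ p, k p ∂(Q : Measure (W × W)))) := fun k =>
    (ProbabilityMeasure.tendsto_iff_forall_integral_tendsto.mp hQ)
      (BoundedContinuousFunction.mkOfCompact k)
  -- the limit is carried by `RR`
  have hcar : ∀ᵐ p ∂(Q : Measure (W × W)), p ∈ RR a E w U := by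
    rw [ae_iff]
    refine measure_null_of_locally_null _ fun p hp => ?_
    have hp' : ¬ ∀ V ∈ 𝓝 p, ∀ᶠ g in (U : Filter G), ∃ y, E w y ∧ (y, a g y) ∈ V := hp
    push Not at hp'
    obtain ⟨V, hV, hVU⟩ := hp'
    obtain ⟨V', hV'V, hV'o, hpV'⟩ := mem_nhds_iff.mp hV
    refine ⟨V', mem_nhdsWithin_of_mem_nhds (hV'o.mem_nhds hpV'), ?_⟩
    have hle := ProbabilityMeasure.le_liminf_measure_open_of_tendsto hQ hV'o
    refine le_antisymm (hle.trans ?_) bot_le
    have hz : ∀ᶠ g in (U : Filter G), (P g : Measure (W × W)) V' = 0 := by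
      filter_upwards [hVU] with g hg
      show ((m₁.map (hgc g).measurable.aemeasurable : ProbabilityMeasure (W × W)) :
        Measure (W × W)) V' = 0
      rw [ProbabilityMeasure.toMeasure_map, Measure.map_apply (hgc g).measurable
        hV'o.measurableSet]
      exact measure_mono_null (fun y hy hE => hg y hE (hV'V hy)) h1
    have : liminf (fun g => (P g : Measure (W × W)) V') (U : Filter G) = 0 := by
      rw [liminf_congr hz]
      simp
    exact this.le
  have e1 : ∫ x, f x ∂(m₁ : Measure W) = ∫ p, f p.1 ∂(Q : Measure (W × W)) := by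
    have t := (hlim ⟨fun p => f p.1, by fun_prop⟩).congr fun g => hPint g _
    exact tendsto_nhds_unique tendsto_const_nhds t
  have e2 : ∫ x, F x ∂(m : Measure W) = ∫ p, F p.2 ∂(Q : Measure (W × W)) := by
    have t := (hlim ⟨fun p => F p.2, by fun_prop⟩).congr fun g => hPint g _
    have t2 := (ProbabilityMeasure.tendsto_iff_forall_integral_tendsto.mp hm)
      (BoundedContinuousFunction.mkOfCompact F)
    refine tendsto_nhds_unique (t2.congr fun g => ?_) t
    show ∫ x, F x ∂((m₁.map (h.cont g).measurable.aemeasurable : ProbabilityMeasure W) :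
      Measure W) = _
    rw [ProbabilityMeasure.toMeasure_map, integral_map (h.cont g).measurable.aemeasurable
      F.continuous.measurable.aestronglyMeasurable]
    rfl
  rw [e1, e2]
  exact integral_congr_ae (hcar.mono fun p hp => hF p hp)

end meas

end D_DL

theorem DL_pf : S_DL := by
  intro G W _ _ _ _ _ _ _ a h E E' ρ hI w m₁ m₂ m U h1 h2 t1 t2 f hf
  obtain ⟨F, hF⟩ := D_DL.RR_fac hI w U f hf
  rw [D_DL.key a h E w m₁ m U h1 t1 f F hF, D_DL.key a h E w m₂ m U h2 t2 f F hF]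

end Pool.Agent.Work.MP_69fea5_lc.W3D
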