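import Pool.Agent.Work.MP_69fea5_lc.W3.StmtsD

/-!
# Block [69fea5 D], item DOM1: the law of the vertex `i`, given the vertex `j`
-/

set_option autoImplicit false

namespace Pool.Agent.Work.MP_69fea5_lc.W3D

open MeasureTheory Topology Set Filter
open ProbabilityTheory (Kernel)
open scoped ENNReal NNReal
open Pool.Agent.Work.MP_69fea5_lc.AK (Sys sh sh_zero sh_add sh_cont)

namespace D_DOM1

/-- composition with `e` as a homomorphism -/
def cmp {F F' : Type} (e : F' → F) : (F → ℤ) →+ (F' → ℤ) where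
  toFun l := l ∘ e
  map_zero' := rfl
  map_add' _ _ := rfl

theorem mem_map_cmp {F F' : Type} (e : F' → F) (L : AddSubgroup (F → ℤ)) (l' : F' → ℤ) :
    l' ∈ L.map (cmp e) ↔ ∃ l ∈ L, l' = l ∘ e := by
  rw [AddSubgroup.mem_map]
  constructor
  · rintro ⟨l, hl, rfl⟩
    exact ⟨l, hl, rfl⟩
  · rintro ⟨l, hl, rfl⟩
    exact ⟨l, hl, rfl⟩

theorem comp_mem_NF {X F F' : Type} [TopologicalSpace X] [Sys X] (e : F' → F)
    (L : AddSubgroup (F → ℤ)) {w : F → X} (hw : w ∈ NF X L) : w ∘ e ∈ NF X (L.map (cmp e)) := by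
  have hc : Continuous fun v : F → X => v ∘ e := continuous_pi fun a => continuous_apply (e a)
  refine map_mem_closure (f := fun v : F → X => v ∘ e) hc hw ?_
  rintro _ ⟨l, hl, x, rfl⟩
  exact ⟨l ∘ e, (mem_map_cmp e L _).2 ⟨l, hl, rfl⟩, x, rfl⟩

theorem mem_Lc {n : ℕ} (b u : ℤ) : (fun a : Fin n => b + ((a : ℕ) : ℤ) * u) ∈ Lc n :=
  ⟨b, u, fun _ => rfl⟩

theorem mem_Lc1 (l : Fin 1 → ℤ) : l ∈ Lc 1 :=
  ⟨l 0, 0, fun a => by rw [mul_zero, add_zero, Subsingleton.elim a 0]⟩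

end D_DOM1

open D_DOM1 in
theorem DOM1_pf (hDOMG : S_DOMG) : S_DOM1 := by
  intro X _ _ _ _ _ _ _ _ K hK n i j hij C hC
  have hji : (j : ℕ) ≠ (i : ℕ) := fun h => hij (Fin.ext h.symm)
  let e : Fin 1 ⊕ Fin 1 → Fin n := Sum.elim (fun _ => j) (fun _ => i)
  obtain ⟨L, hL⟩ : ∃ L, L = (Lc n).map (cmp e) := ⟨_, rfl⟩
  have h1 : (1 : Fin n → ℤ) ∈ Lc n := ⟨1, 0, fun a => by simp⟩
  have h1L : (1 : Fin 1 ⊕ Fin 1 → ℤ) ∈ L := by
    rw [hL, mem_map_cmp]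
    exact ⟨1, h1, rfl⟩
  have hLm : ∀ l', l' ∈ L ↔ ∃ l ∈ Lc n, l' = l ∘ e := by
    intro l'
    rw [hL, mem_map_cmp]
  -- the constants
  have hconst : ∀ a : ℤ, (fun _ => a : Fin 1 ⊕ Fin 1 → ℤ) ∈ L := by
    intro a
    rw [hLm]
    exact ⟨fun _ => a, ⟨a, 0, fun _ => by simp⟩, rfl⟩
  have hp1 : ∀ l', l' ∈ Lc 1 ↔ ∃ l ∈ L, l' = l ∘ Sum.inl := by
    intro l'
    refine ⟨fun _ => ⟨fun _ => l' 0, hconst _, ?_⟩, fun _ => mem_Lc1 l'⟩
    funext a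
    rw [Subsingleton.elim a 0]
    rfl
  have hp2 : ∀ l', l' ∈ Lc 1 ↔ ∃ l ∈ L, l' = l ∘ Sum.inr := by
    intro l'
    refine ⟨fun _ => ⟨fun _ => l' 0, hconst _, ?_⟩, fun _ => mem_Lc1 l'⟩
    funext a
    rw [Subsingleton.elim a 0]
    rfl
  -- the elements `(m r, 0)`
  obtain ⟨r, hr0, hrn, hrk⟩ : ∃ r : ℕ, 0 < r ∧ r ≤ n ∧ ∀ q : ℤ, ∃ k ∈ L,
      k ∘ Sum.inl = (fun _ : Fin 1 => (r : ℤ) * q) ∧ k ∘ Sum.inr = 0 := by
    rcases lt_or_gt_of_ne hji with h | h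
    · refine ⟨(i : ℕ) - j, by omega, by omega, fun q => ?_⟩
      refine ⟨(fun a : Fin n => ((i : ℕ) : ℤ) * q + ((a : ℕ) : ℤ) * (-q)) ∘ e,
        (hLm _).2 ⟨_, mem_Lc _ _, rfl⟩, ?_, ?_⟩
      · funext a
        change ((i : ℕ) : ℤ) * q + ((j : ℕ) : ℤ) * (-q) = (((i : ℕ) - (j : ℕ) : ℕ) : ℤ) * q
        rw [Nat.cast_sub h.le]
        ring
      · funext a
        change ((i : ℕ) : ℤ) * q + ((i : ℕ) : ℤ) * (-q) = 0
        ring
    · refine ⟨(j : ℕ) - i, by omega, by omega, fun q => ?_⟩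
      refine ⟨(fun a : Fin n => -(((i : ℕ) : ℤ) * q) + ((a : ℕ) : ℤ) * q) ∘ e,
        (hLm _).2 ⟨_, mem_Lc _ _, rfl⟩, ?_, ?_⟩
      · funext a
        change -(((i : ℕ) : ℤ) * q) + ((j : ℕ) : ℤ) * q = (((j : ℕ) - (i : ℕ) : ℕ) : ℤ) * q
        rw [Nat.cast_sub h.le]
        ring
      · funext a
        change -(((i : ℕ) : ℤ) * q) + ((i : ℕ) : ℤ) * q = 0
        ring
  obtain ⟨T, hT⟩ : ∃ T : Finset (Fin 1 → ℤ),
      T = (Finset.range r).image fun t : ℕ => fun _ : Fin 1 => (t : ℤ) := ⟨_, rfl⟩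
  have hTc : T.card ≤ n := by
    rw [hT]
    exact (Finset.card_image_le.trans (Finset.card_range r).le).trans hrn
  have hTr : ∀ l ∈ Lc 1, ∃ t ∈ T, ∃ k ∈ L, k ∘ Sum.inl = l - t ∧ k ∘ Sum.inr = 0 := by
    intro l _
    have hrz : (0 : ℤ) < (r : ℤ) := by exact_mod_cast hr0
    obtain ⟨k, hk, hk1, hk2⟩ := hrk (l 0 / r)
    refine ⟨fun _ => ((l 0 % r).toNat : ℤ), ?_, k, hk, ?_, hk2⟩
    · rw [hT, Finset.mem_image]
      refine ⟨(l 0 % r).toNat, ?_, rfl⟩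
      rw [Finset.mem_range]
      have h3 := Int.emod_lt_of_pos (l 0) hrz
      have h4 := Int.emod_nonneg (l 0) hrz.ne'
      omega
    · rw [hk1]
      funext a
      rw [Pi.sub_apply, Subsingleton.elim a 0, Int.toNat_of_nonneg (Int.emod_nonneg _ hrz.ne')]
      have := Int.mul_ediv_add_emod (l 0) r
      omega
  have hCe : C ∘ e ∈ NF X L := by
    rw [hL]
    exact comp_mem_NF e (Lc n) hC
  have hdom := hDOMG X K hK (Fin 1) (Fin 1) L (Lc 1) (Lc 1) T h1L hp1 hp2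
    (fun t _ => mem_Lc1 t) hTr (C ∘ e) hCe
  -- naturality
  have hAr : ({j} : Set (Fin n)) ⊆ range e := by
    rintro _ rfl
    exact ⟨Sum.inl 0, rfl⟩
  have hpre : e ⁻¹' ({j} : Set (Fin n)) = range Sum.inl := by
    ext a
    constructor
    · intro ha
      rcases a with a | a
      · exact ⟨a, rfl⟩
      · exact absurd ha (fun h => hij h)
    · rintro ⟨a, rfl⟩
      rfl
  have hnat := hK.nat (Fin n) (Fin 1 ⊕ Fin 1) e (Lc n) L h1 hLm {j} hAr C hC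
  rw [hpre] at hnat
  rw [← hnat] at hdom
  have m1 : Measurable fun v : Fin n → X => v ∘ e :=
    measurable_pi_lambda _ fun a => measurable_pi_apply (e a)
  have m2 : Measurable fun v : Fin 1 ⊕ Fin 1 → X => v ∘ Sum.inr :=
    measurable_pi_lambda _ fun a => measurable_pi_apply (Sum.inr a)
  have m3 : Measurable fun v : Fin 1 → X => v 0 := measurable_pi_apply 0
  have hfin := Measure.map_mono hdom m3
  have hleft : Measure.map (fun v : Fin 1 → X => v 0) (Measure.map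
      (fun v : Fin 1 ⊕ Fin 1 → X => v ∘ Sum.inr) (Measure.map (fun v : Fin n → X => v ∘ e)
        (K (Fin n) (Lc n) {j} C))) = (K (Fin n) (Lc n) {j} C).map fun v => v i := by
    rw [Measure.map_map m2 m1, Measure.map_map m3 (m2.comp m1)]
    rfl
  rw [hleft] at hfin
  refine hfin.trans ?_
  rw [Measure.le_iff]
  intro s hs
  unfold cX
  rw [Measure.map_apply m3 hs, Measure.smul_apply, Measure.smul_apply, Measure.map_apply m3 hs]
  exact nsmul_le_nsmul_left zero_le hTc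

end Pool.Agent.Work.MP_69fea5_lc.W3D
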