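import Pool.Agent.Work.MP_69fea5_lc.W3.StmtsD

set_option autoImplicit false
set_option linter.unusedSectionVars false

namespace Pool.Agent.Work.MP_69fea5_lc.W3D

open MeasureTheory Topology Set Filter
open ProbabilityTheory (Kernel)
open scoped ENNReal NNReal
open Pool.Agent.Work.MP_69fea5_lc.AK (Sys sh sh_zero sh_add sh_cont)

namespace D_DOMG

/-! ### Comparison of measures -/

theorem le_of_cont {Y : Type} [TopologicalSpace Y] [CompactSpace Y] [T2Space Y]
    [SecondCountableTopology Y] [MeasurableSpace Y] [BorelSpace Y] (μ ν : Measure Y)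
    [IsFiniteMeasure μ] [IsFiniteMeasure ν] (n : ℕ)
    (h : ∀ g : C(Y, ℝ), (∀ y, 0 ≤ g y) → ∫ y, g y ∂μ ≤ n * ∫ y, g y ∂ν) : μ ≤ n • ν := by
  let : MetricSpace Y := TopologicalSpace.metrizableSpaceMetric Y
  have hint : ∀ (μ' : Measure Y) [IsFiniteMeasure μ'] (g : C(Y, ℝ)), Integrable (fun y => g y) μ' := by
    intro μ' _ g
    exact (BoundedContinuousFunction.mkOfCompact g).integrable μ'
  have hcl : ∀ F : Set Y, IsClosed F → μ F ≤ (n • ν) F := by
    intro F hF
    have hpos : ∀ k : ℕ, (0 : ℝ) < 1 / ((k : ℝ) + 1) := fun k => by positivity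
    have hlim : Tendsto (fun k : ℕ => 1 / ((k : ℝ) + 1)) atTop (𝓝 0) :=
      tendsto_one_div_add_atTop_nhds_zero_nat
    have t1 := tendsto_lintegral_thickenedIndicator_of_isClosed μ hF hpos hlim
    have t2 := tendsto_lintegral_thickenedIndicator_of_isClosed ν hF hpos hlim
    have t3 : Tendsto (fun k => (n : ℝ≥0∞) *
        lintegral ν fun ω => (thickenedIndicator (hpos k) F ω : ℝ≥0∞)) atTop
        (𝓝 ((n : ℝ≥0∞) * ν F)) :=
      ENNReal.Tendsto.const_mul t2 (Or.inr (ENNReal.natCast_ne_top n))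
    have e1 : (n • ν) F = (n : ℝ≥0∞) * ν F := by
      rw [Measure.smul_apply, nsmul_eq_mul]
    rw [e1]
    refine le_of_tendsto_of_tendsto' t1 t3 ?_
    intro k
    let g : C(Y, ℝ) := ⟨fun y => ((thickenedIndicator (hpos k) F y : ℝ≥0) : ℝ),
      NNReal.continuous_coe.comp (thickenedIndicator (hpos k) F).continuous⟩
    have hg := h g (fun y => NNReal.coe_nonneg _)
    rw [lintegral_coe_eq_integral _ (hint μ g), lintegral_coe_eq_integral _ (hint ν g)]
    have e2 : (n : ℝ≥0∞) = ENNReal.ofReal (n : ℝ) := (ENNReal.ofReal_natCast n).symm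
    rw [e2, ← ENNReal.ofReal_mul (by positivity)]
    exact ENNReal.ofReal_le_ofReal hg
  refine Measure.le_iff.mpr ?_
  intro B hB
  rw [hB.measure_eq_iSup_isClosed_of_ne_top (measure_ne_top μ B)]
  refine iSup_le fun F => iSup_le fun hFB => iSup_le fun hF => ?_
  exact (hcl F hF).trans (measure_mono hFB)

/-! ### Facts on systems of kernels -/

section ks

variable {X : Type} [TopologicalSpace X] [CompactSpace X] [T2Space X]
  [SecondCountableTopology X] [MeasurableSpace X] [BorelSpace X] [Sys X]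

theorem diag_mem {F : Type} (L : AddSubgroup (F → ℤ)) (x : X) : (fun _ : F => x) ∈ NF X L :=
  subset_closure ⟨0, L.zero_mem, x, (shF_zero _).symm⟩

theorem fink {K : KT X} (hK : KS K) {F : Type} [Finite F] (L : AddSubgroup (F → ℤ)) (A : Set F) :
    ProbabilityTheory.IsFiniteKernel (K F L A) :=
  ⟨⟨1, ENNReal.one_lt_top, fun w => hK.le_one F L A w⟩⟩

theorem finm {K : KT X} (hK : KS K) {F : Type} [Finite F] (L : AddSubgroup (F → ℤ)) (A : Set F)
    (w : F → X) : IsFiniteMeasure (K F L A w) :=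
  ⟨(hK.le_one F L A w).trans_lt ENNReal.one_lt_top⟩

/-- The value of the kernel operator on continuous functions. -/
noncomputable def Ph (K : KT X) {F : Type} [Finite F] (L : AddSubgroup (F → ℤ)) (A : Set F)
    (G : C(F → X, ℝ)) (w : F → X) : ℝ := ∫ v, G v ∂K F L A w

theorem Ph_cont {K : KT X} (hK : KS K) {F : Type} [Finite F] {L : AddSubgroup (F → ℤ)}
    (h1 : 1 ∈ L) (A : Set F) (G : C(F → X, ℝ)) : ContinuousOn (Ph K L A G) (NF X L) :=
  hK.cont F L h1 A G

theorem Ph_meas (K : KT X) {F : Type} [Finite F] (L : AddSubgroup (F → ℤ)) (A : Set F)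
    (G : C(F → X, ℝ)) : StronglyMeasurable (Ph K L A G) := by
  have hG : StronglyMeasurable (fun v : F → X => G v) := G.continuous.stronglyMeasurable
  exact hG.integral_kernel

theorem Ph_bdd {K : KT X} (hK : KS K) {F : Type} [Finite F] (L : AddSubgroup (F → ℤ)) (A : Set F)
    (G : C(F → X, ℝ)) (w : F → X) : ‖Ph K L A G w‖ ≤ ‖G‖ := by
  have := finm hK L A w
  unfold Ph
  refine (norm_integral_le_of_norm_le_const (C := ‖G‖)
    (Eventually.of_forall fun v => G.norm_coe_le_norm v)).trans ?_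
  have h1 : (K F L A w).real univ ≤ 1 := by
    rw [Measure.real]
    exact ENNReal.toReal_le_of_le_ofReal zero_le_one (by
      rw [ENNReal.ofReal_one]
      exact hK.le_one F L A w)
  calc ‖G‖ * (K F L A w).real univ ≤ ‖G‖ * 1 :=
        mul_le_mul_of_nonneg_left h1 (norm_nonneg _)
    _ = ‖G‖ := mul_one _

theorem Ph_integrable {K : KT X} (hK : KS K) {F : Type} [Finite F] (L : AddSubgroup (F → ℤ))
    (A : Set F) (G : C(F → X, ℝ)) (μ : Measure (F → X)) [IsFiniteMeasure μ] :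
    Integrable (Ph K L A G) μ :=
  Integrable.of_bound (Ph_meas K L A G).aestronglyMeasurable ‖G‖
    (Eventually.of_forall fun w => Ph_bdd hK L A G w)

theorem measurable_shF {F : Type} [Finite F] (l : F → ℤ) : Measurable (shF l : (F → X) → F → X) :=
  (continuous_shF l).measurable

variable [Nonempty X]

theorem cn_map {K : KT X} (hK : KS K) {F : Type} [Finite F] {L : AddSubgroup (F → ℤ)}
    (h1 : 1 ∈ L) {l : F → ℤ} (hl : l ∈ L) : (cn K L).map (shF l) = cn K L := by
  have hd : (fun _ : F => Classical.arbitrary X) ∈ NF X L := diag_mem L _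
  unfold cn
  rw [← hK.equi F L h1 ∅ _ hd l hl]
  exact hK.cls F L h1 ∅ _ (shF_mem_NF hl hd) _ hd (fun i hi => absurd hi (notMem_empty i))

theorem cn_prob {K : KT X} (hK : KS K) {F : Type} [Finite F] {L : AddSubgroup (F → ℤ)}
    (h1 : 1 ∈ L) : IsProbabilityMeasure (cn K L) :=
  ⟨hK.prob F L h1 ∅ _ (diag_mem L _)⟩

theorem cn_NF {K : KT X} (hK : KS K) {F : Type} [Finite F] {L : AddSubgroup (F → ℤ)}
    (h1 : 1 ∈ L) : ∀ᵐ w ∂(cn K L), w ∈ NF X L := by
  have h := hK.car F L h1 ∅ _ (diag_mem L (Classical.arbitrary X))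
  rw [ae_iff]
  refine measure_mono_null ?_ h
  intro v hv hv2
  exact hv hv2.1

/-- Integral of the kernel operator. -/
theorem Ph_int {K : KT X} (hK : KS K) {F : Type} [Finite F] {L : AddSubgroup (F → ℤ)}
    (h1 : 1 ∈ L) (A : Set F) (G : C(F → X, ℝ)) :
    ∫ w, Ph K L A G w ∂(cn K L) = ∫ v, G v ∂(cn K L) := by
  have := fink hK L A
  have := fink hK L (∅ : Set F)
  have hd : (fun _ : F => Classical.arbitrary X) ∈ NF X L := diag_mem L _
  have hm := hK.mul F L h1 ∅ A (empty_subset _) _ hd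
  have hc : (Kernel.comp (K F L A) (K F L ∅)) (fun _ : F => Classical.arbitrary X) = cn K L := by
    rw [ProbabilityTheory.Kernel.comp_apply]
    exact hm
  have := cn_prob hK h1
  have hint : Integrable (fun v => G v)
      ((Kernel.comp (K F L A) (K F L ∅)) (fun _ : F => Classical.arbitrary X)) := by
    rw [hc]
    exact (BoundedContinuousFunction.mkOfCompact G).integrable _
  have h2 := ProbabilityTheory.Kernel.integral_comp hint
  rw [hc] at h2
  exact h2.symm

theorem cn_inr {K : KT X} (hK : KS K) {F F' : Type} [Finite F] [Finite F'] (e : F' → F)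
    {L : AddSubgroup (F → ℤ)} {L' : AddSubgroup (F' → ℤ)} (h1 : 1 ∈ L)
    (h2 : ∀ l', l' ∈ L' ↔ ∃ l ∈ L, l' = l ∘ e) :
    (cn K L).map (fun v => v ∘ e) = cn K L' := by
  have hd : (fun _ : F => Classical.arbitrary X) ∈ NF X L := diag_mem L _
  have h := hK.nat F F' e L L' h1 h2 ∅ (empty_subset _) _ hd
  exact h

end ks

end D_DOMG

open D_DOMG in
theorem DOMG_pf : S_DOMG := by
  intro X _ _ _ _ _ _ _ _ K hK F₁ F₂ _ _ L L₁ L₂ T h1 hL₁ hL₂ hT hTc C hC
  classical
  have h1' : (1 : F₂ → ℤ) ∈ L₂ := (hL₂ _).mpr ⟨1, h1, rfl⟩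
  have := cn_prob hK h1
  have := cn_prob hK h1'
  have := finm hK L (range (Sum.inl : F₁ → F₁ ⊕ F₂)) C
  have hre : Measurable (fun v : F₁ ⊕ F₂ → X => v ∘ (Sum.inr : F₂ → F₁ ⊕ F₂)) :=
    measurable_pi_lambda _ fun i => measurable_pi_apply _
  have : IsFiniteMeasure ((K (F₁ ⊕ F₂) L (range Sum.inl) C).map
      (fun v : F₁ ⊕ F₂ → X => v ∘ (Sum.inr : F₂ → F₁ ⊕ F₂))) := inferInstance
  -- the subgroup
  let N : AddSubgroup L :=
    { carrier := {k | ∃ k' ∈ L, k' ∘ Sum.inr = (0 : F₂ → ℤ) ∧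
        k' ∘ (Sum.inl : F₁ → F₁ ⊕ F₂) = k.1 ∘ Sum.inl}
      zero_mem' := ⟨0, L.zero_mem, rfl, rfl⟩
      add_mem' := by
        rintro a b ⟨a', ha, ha1, ha2⟩ ⟨b', hb, hb1, hb2⟩
        refine ⟨a' + b', L.add_mem ha hb, ?_, ?_⟩
        · funext i
          have e1 := congrFun ha1 i
          have e2 := congrFun hb1 i
          simp only [Function.comp_apply, Pi.zero_apply, Pi.add_apply] at e1 e2 ⊢
          rw [e1, e2, add_zero]
        · funext i
          have e1 := congrFun ha2 i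
          have e2 := congrFun hb2 i
          simp only [Function.comp_apply, Pi.add_apply, AddSubgroup.coe_add] at e1 e2 ⊢
          rw [e1, e2]
      neg_mem' := by
        rintro a ⟨a', ha, ha1, ha2⟩
        refine ⟨-a', L.neg_mem ha, ?_, ?_⟩
        · funext i
          have e1 := congrFun ha1 i
          simp only [Function.comp_apply, Pi.zero_apply, Pi.neg_apply] at e1 ⊢
          rw [e1, neg_zero]
        · funext i
          have e1 := congrFun ha2 i
          simp only [Function.comp_apply, Pi.neg_apply, AddSubgroup.coe_neg] at e1 ⊢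
          rw [e1] }
  have hlift : ∀ t : T, ∃ l : L, t.1 = l.1 ∘ Sum.inl := by
    intro t
    obtain ⟨l, hl, hl2⟩ := (hL₁ t.1).mp (hT t.1 t.2)
    exact ⟨⟨l, hl⟩, hl2⟩
  choose lt hlt using hlift
  have hsurj : Function.Surjective (fun t : T => (QuotientAddGroup.mk (lt t) : L ⧸ N)) := by
    intro q
    obtain ⟨l, rfl⟩ := QuotientAddGroup.mk_surjective q
    obtain ⟨t, ht, k, hk, hk1, hk2⟩ := hTc (l.1 ∘ Sum.inl) ((hL₁ _).mpr ⟨l.1, l.2, rfl⟩)
    refine ⟨⟨t, ht⟩, ?_⟩
    simp only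
    rw [QuotientAddGroup.eq]
    refine ⟨k, hk, hk2, ?_⟩
    rw [hk1]
    funext i
    have e1 := congrFun (hlt ⟨t, ht⟩) i
    simp only [Function.comp_apply, Pi.sub_apply, AddSubgroup.coe_add, AddSubgroup.coe_neg,
      Pi.add_apply, Pi.neg_apply] at e1 ⊢
    rw [e1]
    ring
  have hfin : Finite (L ⧸ N) := Finite.of_surjective _ hsurj
  have : Fintype (L ⧸ N) := Fintype.ofFinite _
  have hcard : (Fintype.card (L ⧸ N)) ≤ T.card := by
    have := Fintype.card_le_of_surjective _ hsurj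
    rwa [Fintype.card_coe] at this
  refine le_of_cont _ _ _ ?_
  intro g hg
  let G : C(F₁ ⊕ F₂ → X, ℝ) := ⟨fun v => g (v ∘ Sum.inr),
    g.continuous.comp (continuous_pi fun i => continuous_apply _)⟩
  set A : Set (F₁ ⊕ F₂) := range Sum.inl with hA
  set Φ : (F₁ ⊕ F₂ → X) → ℝ := Ph K L A G with hΦ
  have hΦ0 : ∀ w, 0 ≤ Φ w := fun w => integral_nonneg fun v => hg _
  have hΦinr : ∀ w ∈ NF X L, ∀ l ∈ L, l ∘ Sum.inr = (0 : F₂ → ℤ) → Φ (shF l w) = Φ w := by
    intro w hw l hl hl0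
    rw [hΦ]
    unfold Ph
    rw [hK.equi _ L h1 A w hw l hl,
      integral_map (measurable_shF l).aemeasurable G.continuous.aestronglyMeasurable]
    refine integral_congr_ae (Eventually.of_forall fun v => ?_)
    change g (shF l v ∘ Sum.inr) = g (v ∘ Sum.inr)
    congr 1
    funext i
    have e1 := congrFun hl0 i
    simp only [Function.comp_apply, Pi.zero_apply] at e1
    simp only [Function.comp_apply, shF, e1, sh_zero]
  have hΦcls : ∀ w ∈ NF X L, ∀ w' ∈ NF X L, (∀ i : F₁, w (Sum.inl i) = w' (Sum.inl i)) →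
      Φ w = Φ w' := by
    intro w hw w' hw' h
    rw [hΦ]
    unfold Ph
    rw [hK.cls _ L h1 A w hw w' hw' (by
      rintro _ ⟨i, rfl⟩
      exact h i)]
  have hΦN : ∀ w ∈ NF X L, ∀ k : L, k ∈ N → Φ (shF k.1 w) = Φ w := by
    rintro w hw k ⟨k', hk', hk0, hk1⟩
    rw [← hΦinr w hw k' hk' hk0]
    refine hΦcls _ (shF_mem_NF k.2 hw) _ (shF_mem_NF hk' hw) ?_
    intro i
    have e1 := congrFun hk1 i
    simp only [Function.comp_apply] at e1
    simp only [shF, e1]
  set Ψ : (F₁ ⊕ F₂ → X) → ℝ := fun w => ∑ q : L ⧸ N, Φ (shF q.out.1 w) with hΨ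
  have hΨinv : ∀ w ∈ NF X L, ∀ l : L, Ψ (shF l.1 w) = Ψ w := by
    intro w hw l
    have e1 : ∀ q : L ⧸ N, Φ (shF q.out.1 (shF l.1 w)) =
        Φ (shF (q + (QuotientAddGroup.mk l : L ⧸ N)).out.1 w) := by
      intro q
      have hn : q.out + l - (q + (QuotientAddGroup.mk l : L ⧸ N)).out ∈ N := by
        rw [← QuotientAddGroup.eq_zero_iff]
        simp
      have h2 := hΦN (shF (q + (QuotientAddGroup.mk l : L ⧸ N)).out.1 w)
        (shF_mem_NF (q + (QuotientAddGroup.mk l : L ⧸ N)).out.2 hw) _ hn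
      rw [← h2, ← shF_add, ← shF_add]
      congr 2
      rw [AddSubgroup.coe_sub, AddSubgroup.coe_add]
      abel
    calc Ψ (shF l.1 w) = ∑ q : L ⧸ N, Φ (shF (q + (QuotientAddGroup.mk l : L ⧸ N)).out.1 w) :=
          Finset.sum_congr rfl fun q _ => e1 q
      _ = ∑ q : L ⧸ N, Φ (shF q.out.1 w) :=
          Equiv.sum_comp (Equiv.addRight (QuotientAddGroup.mk l : L ⧸ N))
            (fun q => Φ (shF q.out.1 w))
  have hΨc : ContinuousOn Ψ (NF X L) := by
    refine continuousOn_finsetSum _ fun q _ => ?_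
    exact (Ph_cont hK h1 A G).comp (continuous_shF _).continuousOn
      fun w hw => shF_mem_NF q.out.2 hw
  have hΨconst : ∀ w ∈ NF X L, ∀ v ∈ NF X L, Ψ v = Ψ w := by
    intro w hw v hv
    have hcl : IsClosed (NF X L ∩ Ψ ⁻¹' {Ψ w}) :=
      hΨc.preimage_isClosed_of_isClosed (isClosed_NF L) isClosed_singleton
    have hsub : {u | ∃ l ∈ L, u = shF l w} ⊆ NF X L ∩ Ψ ⁻¹' {Ψ w} := by
      rintro u ⟨l, hl, rfl⟩
      exact ⟨shF_mem_NF hl hw, hΨinv w hw ⟨l, hl⟩⟩
    exact (closure_minimal hsub hcl (hK.min _ L h1 w hw v hv)).2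
  -- integrate
  have hI : ∫ w, Ψ w ∂(cn K L) = (Fintype.card (L ⧸ N) : ℝ) * ∫ y, g y ∂(cn K L₂) := by
    rw [hΨ]
    rw [integral_finsetSum]
    · have e2 : ∀ q : L ⧸ N, ∫ w, Φ (shF q.out.1 w) ∂(cn K L) = ∫ y, g y ∂(cn K L₂) := by
        intro q
        have e3 : ∫ w, Φ (shF q.out.1 w) ∂(cn K L) = ∫ w, Φ w ∂((cn K L).map (shF q.out.1)) := by
          rw [integral_map (measurable_shF _).aemeasurable
            (Ph_meas K L A G).aestronglyMeasurable]
        rw [e3, cn_map hK h1 q.out.2, hΦ, Ph_int hK h1 A G, ← cn_inr hK Sum.inr h1 hL₂,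
          integral_map hre.aemeasurable g.continuous.aestronglyMeasurable]
        rfl
      rw [Finset.sum_congr rfl fun q _ => e2 q, Finset.sum_const, Finset.card_univ, nsmul_eq_mul]
    · intro q _
      exact (Integrable.of_bound
        ((Ph_meas K L A G).comp_measurable (measurable_shF _)).aestronglyMeasurable ‖G‖
        (Eventually.of_forall fun w => Ph_bdd hK L A G _))
  have hI2 : ∫ w, Ψ w ∂(cn K L) = Ψ C := by
    have e4 : ∀ᵐ w ∂(cn K L), Ψ w = Ψ C := by
      filter_upwards [cn_NF hK h1] with w hw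
      exact hΨconst C hC w hw
    rw [integral_congr_ae e4]
    simp
  have hle : Φ C ≤ Ψ C := by
    have e5 : Φ C = Φ (shF (0 : L ⧸ N).out.1 C) := by
      symm
      refine hΦN C hC _ ?_
      rw [← QuotientAddGroup.eq_zero_iff]
      simp
    rw [e5, hΨ]
    exact Finset.single_le_sum (f := fun q : L ⧸ N => Φ (shF q.out.1 C))
      (fun q _ => hΦ0 _) (Finset.mem_univ (0 : L ⧸ N))
  have hgi : 0 ≤ ∫ y, g y ∂(cn K L₂) := integral_nonneg hg
  calc ∫ y, g y ∂((K (F₁ ⊕ F₂) L A C).map (fun v : F₁ ⊕ F₂ → X => v ∘ Sum.inr))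
      = Φ C := by
        rw [integral_map hre.aemeasurable g.continuous.aestronglyMeasurable]
        rfl
    _ ≤ Ψ C := hle
    _ = (Fintype.card (L ⧸ N) : ℝ) * ∫ y, g y ∂(cn K L₂) := by rw [← hI2, hI]
    _ ≤ (T.card : ℝ) * ∫ y, g y ∂(cn K L₂) :=
        mul_le_mul_of_nonneg_right (by exact_mod_cast hcard) hgi

end Pool.Agent.Work.MP_69fea5_lc.W3D
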