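import Pool.Agent.Work.MP_69fea5_lc.W3.StmtsD

set_option autoImplicit false

namespace Pool.Agent.Work.MP_69fea5_lc.W3D

open MeasureTheory Topology Set Filter
open ProbabilityTheory (Kernel)
open scoped ENNReal NNReal
open Pool.Agent.Work.MP_69fea5_lc.AK (Sys sh orb)

namespace D_ENG

section
variable {W : Type} [TopologicalSpace W] [CompactSpace W] [MeasurableSpace W] [BorelSpace W]

theorem abs_int_le (f : C(W, ℝ)) (m : ProbabilityMeasure W) :
    |∫ x, f x ∂(m : Measure W)| ≤ ‖f‖ := by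
  have h := norm_integral_le_of_norm_le_const (μ := (m : Measure W)) (f := fun x => f x)
    (C := ‖f‖) (Eventually.of_forall fun x => f.norm_coe_le_norm x)
  simpa using h

theorem cont_int (f : C(W, ℝ)) :
    Continuous fun m : ProbabilityMeasure W => ∫ x, f x ∂(m : Measure W) :=
  ProbabilityMeasure.continuous_integral_boundedContinuousFunction
    (BoundedContinuousFunction.mkOfCompact f)

theorem integrable_cm (f : C(W, ℝ)) (m : ProbabilityMeasure W) :
    Integrable (fun x => f x) (m : Measure W) :=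
  (BoundedContinuousFunction.mkOfCompact f).integrable (m : Measure W)

theorem cont_int' (m : ProbabilityMeasure W) :
    Continuous fun f : C(W, ℝ) => ∫ x, f x ∂(m : Measure W) := by
  refine (LipschitzWith.of_dist_le_mul (K := 1) fun f g => ?_).continuous
  rw [Real.dist_eq, ← integral_sub (integrable_cm f m) (integrable_cm g m)]
  have h := abs_int_le (f - g) m
  simp only [ContinuousMap.coe_sub, Pi.sub_apply] at h
  rw [dist_eq_norm]
  simpa using h

theorem ext_of (f : ℕ → C(W, ℝ)) [T2Space W] [SecondCountableTopology W] (hf : DenseRange f)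
    (m m' : ProbabilityMeasure W)
    (h : ∀ i, ∫ x, f i x ∂(m : Measure W) = ∫ x, f i x ∂(m' : Measure W)) : m = m' := by
  have : TopologicalSpace.MetrizableSpace W :=
    TopologicalSpace.metrizableSpace_of_t3_secondCountable W
  have h1 : (fun g : C(W, ℝ) => ∫ x, g x ∂(m : Measure W)) =
      fun g : C(W, ℝ) => ∫ x, g x ∂(m' : Measure W) :=
    hf.equalizer (cont_int' m) (cont_int' m') (funext h)
  have h2 : (m : Measure W) = (m' : Measure W) := by
    refine ext_of_forall_integral_eq_of_IsFiniteMeasure fun g => ?_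
    exact congrFun h1 g.toContinuousMap
  exact Subtype.ext h2

end

end D_ENG

open D_ENG in
/-- ENG -/
theorem ENG_pf : S_ENG := by
  intro W _ _ _ _ _ _
  have : TopologicalSpace.MetrizableSpace W :=
    TopologicalSpace.metrizableSpace_of_t3_secondCountable W
  obtain ⟨f, hf⟩ := TopologicalSpace.exists_dense_seq C(W, ℝ)
  let c : ℕ → ℝ := fun i => (1 / 2) ^ (i + 1) / (1 + ‖f i‖) ^ 2
  let I : ℕ → ProbabilityMeasure W → ℝ := fun i m => ∫ x, f i x ∂(m : Measure W)
  have hc0 : ∀ i, 0 < c i := fun i => by positivity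
  have hIc : ∀ i, Continuous (I i) := fun i => cont_int (f i)
  have hIb : ∀ i m, |I i m| ≤ ‖f i‖ := fun i m => abs_int_le (f i) m
  have hb : ∀ i (t : ℝ), |t| ≤ ‖f i‖ → c i * t ^ 2 ≤ (1 / 2) ^ (i + 1) := by
    intro i t ht
    have h1 : t ^ 2 ≤ (1 + ‖f i‖) ^ 2 := by
      rw [← sq_abs t]
      have := abs_nonneg t
      nlinarith [norm_nonneg (f i)]
    have h2 : (0 : ℝ) < (1 + ‖f i‖) ^ 2 := by positivity
    change (1 / 2) ^ (i + 1) / (1 + ‖f i‖) ^ 2 * t ^ 2 ≤ (1 / 2) ^ (i + 1)
    rw [div_mul_eq_mul_div, div_le_iff₀ h2]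
    exact mul_le_mul_of_nonneg_left h1 (by positivity)
  have hsum : Summable fun i : ℕ => ((1 : ℝ) / 2) ^ (i + 1) :=
    (summable_nat_add_iff 1).mpr summable_geometric_two
  have hsum1 : ∑' i : ℕ, ((1 : ℝ) / 2) ^ (i + 1) = 1 := by
    simp only [pow_succ]
    rw [tsum_mul_right, tsum_geometric_two]
    norm_num
  have hdb : ∀ i m m', |(I i m - I i m') / 2| ≤ ‖f i‖ := by
    intro i m m'
    have h1 := hIb i m
    have h2 := hIb i m'
    rw [abs_le] at h1 h2 ⊢
    constructor <;> linarith [h1.1, h1.2, h2.1, h2.2]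
  have hnn : ∀ i (t : ℝ), 0 ≤ c i * t ^ 2 := fun i t => mul_nonneg (hc0 i).le (sq_nonneg t)
  have hnb : ∀ i (t : ℝ), |t| ≤ ‖f i‖ → ‖c i * t ^ 2‖ ≤ (1 / 2) ^ (i + 1) := by
    intro i t ht
    rw [Real.norm_of_nonneg (hnn i t)]
    exact hb i t ht
  have hsE : ∀ m, Summable fun i => c i * (I i m) ^ 2 := fun m =>
    Summable.of_nonneg_of_le (fun i => hnn i _) (fun i => hb i _ (hIb i m)) hsum
  have hsD : ∀ m m', Summable fun i => c i * ((I i m - I i m') / 2) ^ 2 := fun m m' =>
    Summable.of_nonneg_of_le (fun i => hnn i _) (fun i => hb i _ (hdb i m m')) hsum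
  refine ⟨fun m => ∑' i, c i * (I i m) ^ 2,
    fun m m' => ∑' i, c i * ((I i m - I i m') / 2) ^ 2, ?_, ?_, ?_, ?_, ?_, ?_⟩
  · refine continuous_tsum (fun i => ?_) hsum fun i m => hnb i _ (hIb i m)
    exact continuous_const.mul ((hIc i).pow 2)
  · refine continuous_tsum (fun i => ?_) hsum fun i p => hnb i _ (hdb i p.1 p.2)
    exact continuous_const.mul
      (((((hIc i).comp continuous_fst).sub ((hIc i).comp continuous_snd)).div_const 2).pow 2)
  · intro m
    refine ⟨tsum_nonneg fun i => hnn i _, ?_⟩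
    rw [← hsum1]
    exact (hsE m).tsum_le_tsum (fun i => hb i _ (hIb i m)) hsum
  · intro m m'
    exact tsum_nonneg fun i => hnn i _
  · intro m m' h0
    have h1 : HasSum (fun i => c i * ((I i m - I i m') / 2) ^ 2) 0 := by
      rw [← h0]
      exact (hsD m m').hasSum
    have h2 := (hasSum_zero_iff_of_nonneg fun i => hnn i _).mp h1
    refine ext_of f hf m m' fun i => ?_
    have h3 : c i * ((I i m - I i m') / 2) ^ 2 = 0 := congrFun h2 i
    have h4 : ((I i m - I i m') / 2) ^ 2 = 0 := by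
      rcases mul_eq_zero.mp h3 with h5 | h5
      · exact absurd h5 (hc0 i).ne'
      · exact h5
    have h5 : (I i m - I i m') / 2 = 0 := pow_eq_zero_iff (two_ne_zero) |>.mp h4
    change I i m = I i m'
    linarith
  · intro m m' b hmid
    change ∑' i, c i * (I i b) ^ 2 + ∑' i, c i * ((I i m - I i m') / 2) ^ 2 =
      (∑' i, c i * (I i m) ^ 2 + ∑' i, c i * (I i m') ^ 2) / 2
    rw [← (hsE b).tsum_add (hsD m m'), ← (hsE m).tsum_add (hsE m'), ← tsum_div_const]
    refine tsum_congr fun i => ?_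
    have h1 : 2 * I i b = I i m + I i m' := hmid (f i)
    have h2 : I i b = (I i m + I i m') / 2 := by linarith
    rw [h2]
    ring

end Pool.Agent.Work.MP_69fea5_lc.W3D
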