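import Pool.Agent.Work.MP_69fea5_lc.W3.StmtsD

/-!
# Block [69fea5 D], item FAM: the kernels of all levels

Proof: docstring of `S_FAM` in `W3/StmtsD.lean`.
-/

set_option autoImplicit false

namespace Pool.Agent.Work.MP_69fea5_lc.W3D

open MeasureTheory Topology Set Filter
open ProbabilityTheory (Kernel)
open scoped ENNReal NNReal
open Pool.Agent.Work.MP_69fea5_lc.AK (Sys sh orb)

namespace D_FAM

section gen

variable {G W : Type} [TopologicalSpace W] [CompactSpace W] [T2Space W]
  [SecondCountableTopology W] [MeasurableSpace W] [BorelSpace W]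

/-- the operator of a continuous family -/
theorem cont_int {κ : W → ProbabilityMeasure W} (hκ : Continuous κ) (f : C(W, ℝ)) :
    Continuous fun y => ∫ z, f z ∂(κ y : Measure W) := by
  rw [continuous_iff_continuousAt]
  intro x
  have h := (ProbabilityMeasure.tendsto_iff_forall_integral_tendsto.1 (hκ.tendsto x))
    (BoundedContinuousFunction.mkOfCompact f)
  exact h

theorem sat_trans {κ κ₁ κ₂ : W → ProbabilityMeasure W} (hc : Continuous κ₂)
    (h1 : Sat κ κ₁) (h2 : Sat κ₁ κ₂) : Sat κ κ₂ := by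
  intro x f
  have e1 := h1 x ⟨fun y => ∫ z, f z ∂(κ₂ y : Measure W), cont_int hc f⟩
  simp only [ContinuousMap.coe_mk] at e1
  rw [← e1]
  have e2 : ∀ y, ∫ z, (∫ u, f u ∂(κ₂ z : Measure W)) ∂(κ₁ y : Measure W) =
      ∫ z, f z ∂(κ₁ y : Measure W) := fun y => h2 y f
  simp only [e2]
  exact h1 x f

theorem sat_self {a : G → W → W} {E : W → W → Prop} {κ : W → ProbabilityMeasure W}
    (h : Ker a E κ) : Sat κ κ := by
  intro x f
  have h1 : ∀ᵐ y ∂(κ x : Measure W), ∫ z, f z ∂(κ y : Measure W) = ∫ z, f z ∂(κ x : Measure W) := by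
    have h2 : ∀ᵐ y ∂(κ x : Measure W), E x y := h.car x
    filter_upwards [h2] with y hy
    rw [h.cls x y hy]
  rw [integral_congr_ae h1]
  simp

theorem ker_dirac [AddGroup G] {a : G → W → W} (ha : Act a) {E : W → W → Prop}
    (h1 : ∀ x, E x x) (h2 : ∀ x y, E x y → x = y) :
    Ker a E (fun x => diracProba x) ∧ FullK E (fun x => diracProba x) := by
  refine ⟨⟨continuous_diracProba, ?_, ?_, ?_⟩, ?_⟩
  · intro x y h
    rw [h2 x y h]
  · intro x
    change Measure.dirac x {y | ¬ E x y} = 0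
    rw [Measure.dirac_apply]
    simp [h1 x]
  · intro g x
    change Measure.dirac (a g x) = (Measure.dirac x).map (a g)
    exact (Measure.map_dirac' (ha.cont g).measurable x).symm
  · intro x y h U hU hy
    change 0 < Measure.dirac x U
    rw [Measure.dirac_apply]
    simp [h2 x y h, hy]

/-- the next level -/
def up {F : Type} (h : ℕ) (m : F → ℕ) : F → ℕ := fun i => min h (m i + 1)

/-- the recursion -/
theorem rec_step [AddGroup G] (hSTE : S_STE) (hSTU : S_STU) (hSTF : S_STF) {a : G → W → W}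
    (ha : Act a) (hmin : MinA a) {F : Type} [Fintype F] (h : ℕ) (R : (F → ℕ) → W → W → Prop)
    (hR : ∀ m m' : F → ℕ, (∀ i, m' i = m i ∨ m' i = m i + 1) → (∀ i, m' i ≤ h) →
      ∃ ρ : W → W → ℝ, Iso1 a (R m) (R m') ρ)
    (htop : ∀ m : F → ℕ, (∀ i, m i = h) → (∀ x, R m x x) ∧ ∀ x y, R m x y → x = y) (d : ℕ) :
    ∃ K : (F → ℕ) → W → ProbabilityMeasure W, ∀ m : F → ℕ, (∀ i, m i ≤ h) →
      ∑ i, (h - m i) ≤ d → Ker a (R m) (K m) ∧ FullK (R m) (K m) ∧
        ∀ m' : F → ℕ, (∀ i, m i ≤ m' i) → (∀ i, m' i ≤ h) → Sat (K m) (K m') := by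
  classical
  induction d with
  | zero =>
    refine ⟨fun _ x => diracProba x, ?_⟩
    intro m hm hd
    have hm' : ∀ i, m i = h := by
      intro i
      have h1 := (Finset.sum_eq_zero_iff.1 (Nat.le_zero.1 hd)) i (Finset.mem_univ i)
      have h2 := hm i
      omega
    obtain ⟨t1, t2⟩ := htop m hm'
    have hk := ker_dirac ha t1 t2
    exact ⟨hk.1, hk.2, fun m' _ _ => sat_self hk.1⟩
  | succ d ih =>
    obtain ⟨K, hK⟩ := ih
    -- the sum decreases
    have hmono : ∀ m m' : F → ℕ, (∀ i, m i ≤ m' i) → ∑ i, (h - m' i) ≤ ∑ i, (h - m i) :=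
      fun m m' hle => Finset.sum_le_sum fun i _ => by have := hle i; omega
    have hlt : ∀ m m' : F → ℕ, (∀ i, m i ≤ m' i) → (∀ i, m' i ≤ h) → m ≠ m' →
        ∑ i, (h - m' i) < ∑ i, (h - m i) := by
      intro m m' hle hle' hne
      obtain ⟨j, hj⟩ := Function.ne_iff.1 hne
      refine Finset.sum_lt_sum (fun i _ => by have := hle i; omega) ⟨j, Finset.mem_univ j, ?_⟩
      have h1 := hle j
      have h2 := hle' j
      omega
    have hup : ∀ m : F → ℕ, (∀ i, m i ≤ h) → (∀ i, up h m i = m i ∨ up h m i = m i + 1) ∧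
        (∀ i, up h m i ≤ h) ∧ (∀ i, m i ≤ up h m i) := by
      intro m hm
      refine ⟨fun i => ?_, fun i => ?_, fun i => ?_⟩ <;>
      · have := hm i
        simp only [up]
        omega
    have hupne : ∀ m : F → ℕ, (∀ i, m i ≤ h) → ∑ i, (h - m i) = d + 1 → m ≠ up h m := by
      intro m hm hd he
      have h0 : ∑ i, (h - m i) = 0 := by
        refine Finset.sum_eq_zero fun i _ => ?_
        have h1 := congrFun he i
        have h2 := hm i
        simp only [up] at h1
        omega
      omega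
    -- the kernels of the new level
    have hex : ∀ m : F → ℕ, ∃ κ : W → ProbabilityMeasure W, (∀ i, m i ≤ h) →
        ∑ i, (h - m i) = d + 1 → Ker a (R m) κ ∧ Sat κ (K (up h m)) := by
      intro m
      by_cases hm : ∀ i, m i ≤ h
      · by_cases hd : ∑ i, (h - m i) = d + 1
        · obtain ⟨u1, u2, u3⟩ := hup m hm
          obtain ⟨ρ, hρ⟩ := hR m (up h m) u1 u2
          have hd' : ∑ i, (h - up h m i) ≤ d := by
            have := hlt m (up h m) u3 u2 (hupne m hm hd)
            omega
          obtain ⟨κ, k1, k2⟩ := hSTE G W a ha hmin (R m) (R (up h m)) ρ hρ (K (up h m))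
            (hK (up h m) u2 hd').1
          exact ⟨κ, fun _ _ => ⟨k1, k2⟩⟩
        · exact ⟨K m, fun _ hd' => absurd hd' hd⟩
      · exact ⟨K m, fun hm' => absurd hm' hm⟩
    choose κ hκ using hex
    refine ⟨fun m => if ∑ i, (h - m i) ≤ d then K m else κ m, ?_⟩
    intro m hm hd
    by_cases hmd : ∑ i, (h - m i) ≤ d
    · simp only [if_pos hmd]
      obtain ⟨a1, a2, a3⟩ := hK m hm hmd
      refine ⟨a1, a2, fun m' h1 h2 => ?_⟩
      rw [if_pos (le_trans (hmono m m' h1) hmd)]
      exact a3 m' h1 h2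
    · have hmd' : ∑ i, (h - m i) = d + 1 := by omega
      simp only [if_neg hmd]
      obtain ⟨k1, k2⟩ := hκ m hm hmd'
      obtain ⟨u1, u2, u3⟩ := hup m hm
      have hud : ∑ i, (h - up h m i) ≤ d := by
        have := hlt m (up h m) u3 u2 (hupne m hm hmd')
        omega
      obtain ⟨ρ, hρ⟩ := hR m (up h m) u1 u2
      obtain ⟨b1, b2, b3⟩ := hK (up h m) u2 hud
      refine ⟨k1, hSTF G W a ha hmin (R m) (R (up h m)) ρ hρ (K (up h m)) (κ m) b1 k1 k2 b2, ?_⟩
      intro m' h1 h2
      by_cases hne : m = m'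
      · subst hne
        rw [if_neg hmd]
        exact sat_self k1
      · have hm'd : ∑ i, (h - m' i) ≤ d := by
          have := hlt m m' h1 h2 hne
          omega
        rw [if_pos hm'd]
        -- (a)
        have key : ∀ n : F → ℕ, (∀ i, m i ≤ n i) → (∀ i, n i ≤ up h m i) → m ≠ n →
            Sat (κ m) (K n) := by
          intro n n1 n2 n3
          have n4 : ∀ i, n i ≤ h := fun i => le_trans (n2 i) (u2 i)
          have n5 : ∑ i, (h - n i) ≤ d := by
            have := hlt m n n1 n4 n3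
            omega
          have n6 : ∀ i, n i = m i ∨ n i = m i + 1 := by
            intro i
            have v1 := n1 i
            have v2 := n2 i
            have v3 := u1 i
            omega
          obtain ⟨ρ', hρ'⟩ := hR m n n6 n4
          obtain ⟨c1, c2, c3⟩ := hK n n4 n5
          obtain ⟨κ', q1, q2⟩ := hSTE G W a ha hmin (R m) (R n) ρ' hρ' (K n) c1
          have q3 : Sat κ' (K (up h m)) := sat_trans b1.cont q2 (c3 (up h m) n2 u2)
          have q4 : κ' = κ m := hSTU G W a ha hmin (R m) (R (up h m)) ρ hρ (K (up h m)) κ' (κ m)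
            b1 q1 k1 q3 k2
          rw [← q4]
          exact q2
        -- (b)
        have hn1 : ∀ i, m i ≤ min (m' i) (up h m i) := fun i => le_min (h1 i) (u3 i)
        have hn3 : m ≠ fun i => min (m' i) (up h m i) := by
          intro he
          apply hne
          funext i
          have v1 := congrFun he i
          have v2 := h1 i
          have v3 := h2 i
          have v4 := hm i
          simp only [up] at v1
          omega
        have hn4 : ∀ i, (fun i => min (m' i) (up h m i)) i ≤ h := fun i =>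
          le_trans (min_le_right _ _) (u2 i)
        have s1 := key (fun i => min (m' i) (up h m i)) hn1 (fun i => min_le_right _ _) hn3
        have hn5 : ∑ i, (h - (fun i => min (m' i) (up h m i)) i) ≤ d :=
          Nat.lt_succ_iff.1 (lt_of_lt_of_eq (hlt m (fun i => min (m' i) (up h m i)) hn1 hn4 hn3)
            hmd')
        have s2 := (hK (fun i => min (m' i) (up h m i)) hn4 hn5).2.2 m'
          (fun i => min_le_left _ _) h2
        have s3 : Continuous (K m') := (hK m' h2 hm'd).1.cont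
        exact sat_trans s3 s1 s2

end gen

end D_FAM

open D_FAM in
theorem FAM_pf (hSTE : S_STE) (hSTU : S_STU) (hSTF : S_STF) (hMIN : S_MIN) (hTWE : S_TWE)
    (hISN : S_ISN) : S_FAM := by
  intro X _ _ _ _ _ _ _ _ h E ρ horb hT F _ L hL
  classical
  have : Fintype F := Fintype.ofFinite F
  have hmin : MinA (aN (X := X) L) := hMIN X h E ρ horb hT F L hL
  have hR : ∀ m m' : F → ℕ, (∀ i, m' i = m i ∨ m' i = m i + 1) → (∀ i, m' i ≤ h) →
      ∃ ρ' : NN X L → NN X L → ℝ, Iso1 (aN (X := X) L) (EE E m) (EE E m') ρ' :=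
    fun m m' h1 h2 => ⟨_, hISN X h E ρ hT F L m m' h1 h2⟩
  have htop : ∀ m : F → ℕ, (∀ i, m i = h) →
      (∀ x : NN X L, EE E m x x) ∧ ∀ x y : NN X L, EE E m x y → x = y := by
    intro m hm
    refine ⟨fun x i => ?_, fun x y hxy => Subtype.ext (funext fun i => ?_)⟩
    · rw [hm i]
      exact (hTWE X h E ρ hT h le_rfl).1.refl _
    · have h1 := hxy i
      rw [hm i] at h1
      exact hT.top _ _ h1
  obtain ⟨K, hK⟩ := rec_step hSTE hSTU hSTF (act_aN (X := X) L) hmin h (fun m => EE E m) hR htop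
    (∑ _i : F, h)
  have hd : ∀ m : F → ℕ, ∑ i, (h - m i) ≤ ∑ _i : F, h := fun m =>
    Finset.sum_le_sum fun i _ => Nat.sub_le _ _
  exact ⟨K, fun m hm => (hK m hm (hd m)).1, fun m hm => (hK m hm (hd m)).2.1,
    fun m m' h1 h2 => (hK m (fun i => le_trans (h1 i) (h2 i)) (hd m)).2.2 m' h1 h2⟩

end Pool.Agent.Work.MP_69fea5_lc.W3D
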