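import Pool.Agent.Work.MP_69fea5_lc.W3.StmtsD

/-!
Block [69fea5 D], item ISN: one isometric step for the levels of configurations.
-/

set_option autoImplicit false

namespace Pool.Agent.Work.MP_69fea5_lc.W3D

open MeasureTheory Topology Set Filter
open ProbabilityTheory (Kernel)
open scoped ENNReal NNReal
open Pool.Agent.Work.MP_69fea5_lc.AK (Sys sh orb)

theorem ISN_pf (hTWE : S_TWE) : S_ISN := by
  intro X _ _ h E ρ T F _ L m m' hm hh
  have hmh : ∀ i, m i ≤ h := fun i => by
    have h1 := hm i
    have h2 := hh i
    omega
  have tw := fun i => hTWE X h E ρ T (m i) (hmh i)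
  have st : ∀ i, m i < m' i → Iso1 (sh : ℤ → X → X) (E (m i)) (E (m i + 1)) (ρ (m i)) := fun i hi =>
    T.step (m i) (by have := hh i; omega)
  have cf : ∀ i, Continuous (fun p : NN X L × NN X L => ((p.1.1 i, p.2.1 i) : X × X)) := fun i =>
    ((continuous_apply i).comp (continuous_subtype_val.comp continuous_fst)).prodMk
      ((continuous_apply i).comp (continuous_subtype_val.comp continuous_snd))
  refine ⟨⟨fun x i => (tw i).1.refl _, fun h i => (tw i).1.symm (h i),
    fun h h' i => (tw i).1.trans (h i) (h' i)⟩, ?_, ?_, ?_, ?_, ?_, ?_, ?_, ?_, ?_⟩
  · have : {p : NN X L × NN X L | EE E m p.1 p.2}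
        = ⋂ i, (fun p : NN X L × NN X L => ((p.1.1 i, p.2.1 i) : X × X)) ⁻¹'
          {q : X × X | E (m i) q.1 q.2} := by
      ext p
      simp only [mem_iInter, mem_preimage]
      rfl
    rw [this]
    exact isClosed_iInter fun i => (tw i).2.1.preimage (cf i)
  · intro g x y hxy i
    exact (tw i).2.2.1 (g.1 i) _ _ (hxy i)
  · refine continuousOn_finsetSum _ fun i _ => ?_
    by_cases hi : m i < m' i
    · simp only [hi, if_true]
      exact (st i hi).cont.comp (cf i).continuousOn fun p hp => hp i
    · simp only [hi, if_false]
      exact continuousOn_const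
  · intro g x y hxy
    refine Finset.sum_congr rfl fun i _ => ?_
    by_cases hi : m i < m' i
    · simp only [hi, if_true]
      exact (st i hi).rinv (g.1 i) _ _ (hxy i)
    · simp only [hi, if_false]
  · intro x y hxy
    refine Finset.sum_nonneg fun i _ => ?_
    by_cases hi : m i < m' i
    · simp only [hi, if_true]
      exact (st i hi).nonneg _ _ (hxy i)
    · simp only [hi, if_false]
      exact le_refl _
  · intro x
    refine Finset.sum_eq_zero fun i _ => ?_
    by_cases hi : m i < m' i
    · simp only [hi, if_true]
      exact (st i hi).self _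
    · simp only [hi, if_false]
  · intro x y hxy
    refine Finset.sum_congr rfl fun i _ => ?_
    by_cases hi : m i < m' i
    · simp only [hi, if_true]
      exact (st i hi).symm _ _ (hxy i)
    · simp only [hi, if_false]
  · intro x y z hxy hyz
    rw [← Finset.sum_add_distrib]
    refine Finset.sum_le_sum fun i _ => ?_
    by_cases hi : m i < m' i
    · simp only [hi, if_true]
      exact (st i hi).tri _ _ _ (hxy i) (hyz i)
    · simp only [hi, if_false, add_zero]
      exact le_refl _
  · intro x y
    have key : EE E m x y → ((∑ i, if m i < m' i then ρ (m i) (x.1 i) (y.1 i) else 0) = 0 ↔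
        ∀ i, m i < m' i → ρ (m i) (x.1 i) (y.1 i) = 0) := by
      intro hxy
      rw [Finset.sum_eq_zero_iff_of_nonneg]
      · constructor
        · intro h1 i hi
          have := h1 i (Finset.mem_univ _)
          simpa only [hi, if_true] using this
        · intro h1 i _
          by_cases hi : m i < m' i
          · simp only [hi, if_true]
            exact h1 i hi
          · simp only [hi, if_false]
      · intro i _
        by_cases hi : m i < m' i
        · simp only [hi, if_true]
          exact (st i hi).nonneg _ _ (hxy i)
        · simp only [hi, if_false]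
          exact le_refl _
    constructor
    · intro hxy
      have h1 : EE E m x y := by
        intro i
        rcases hm i with h2 | h2
        · have := hxy i
          rwa [h2] at this
        · have h3 := hxy i
          rw [h2] at h3
          exact ((st i (by omega)).zero _ _).mp h3 |>.1
      refine ⟨h1, (key h1).mpr fun i hi => ?_⟩
      have h2 : m' i = m i + 1 := by
        rcases hm i with h2 | h2 <;> omega
      have h3 := hxy i
      rw [h2] at h3
      exact ((st i hi).zero _ _).mp h3 |>.2
    · rintro ⟨h1, h2⟩ i
      rcases hm i with h3 | h3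
      · rw [h3]
        exact h1 i
      · rw [h3]
        exact ((st i (by omega)).zero _ _).mpr ⟨h1 i, (key h1).mp h2 i (by omega)⟩

end Pool.Agent.Work.MP_69fea5_lc.W3D
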