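import Pool.Agent.Work.MP_69fea5_lc.N3.I_USG

/-!
# Block [69fea5 W3]: the measurable structure of the space of probability measures
-/

set_option autoImplicit false
set_option linter.style.haveILetI false

namespace Pool.Agent.Work.MP_69fea5_lc.W3

open MeasureTheory Topology Set Filter TopologicalSpace
open scoped NNReal ENNReal BoundedContinuousFunction
open Pool.Agent.Work.MP_69fea5_lc.AK

/-- the Giry sigma-algebra is the Borel sigma-algebra of the weak topology -/
instance borelPM {O : Type} [TopologicalSpace O] [CompactSpace O] [MetrizableSpace O]
    [MeasurableSpace O] [BorelSpace O] : BorelSpace (ProbabilityMeasure O) := by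
  constructor
  have hcl : ∀ F : Set O, IsClosed F → @Measurable _ _ (borel (ProbabilityMeasure O)) _
      (fun m : ProbabilityMeasure O => (m : Measure O) F) := by
    intro F hF
    have h1 : ∀ a : ℝ≥0, IsClosed {m : ProbabilityMeasure O | a ≤ m F} := by
      intro a
      have := N3.USG_pf O Unit {p | p.1 ∈ F} (hF.preimage continuous_fst) a
      exact this.preimage (Continuous.prodMk continuous_id continuous_const : Continuous fun m => (m, ()))
    have h2 : @Measurable _ _ (borel (ProbabilityMeasure O)) _
        (fun m : ProbabilityMeasure O => m F) := by
      letI : MeasurableSpace (ProbabilityMeasure O) := borel _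
      haveI : BorelSpace (ProbabilityMeasure O) := ⟨rfl⟩
      exact measurable_of_Ici fun a => (h1 a).measurableSet
    have h3 : (fun m : ProbabilityMeasure O => (m : Measure O) F) = fun m => ((m F : ℝ≥0) : ℝ≥0∞) := by
      funext m; simp
    rw [h3]
    exact h2.coe_nnreal_ennreal
  apply le_antisymm
  · -- Giry ≤ Borel
    have hmain : ∀ s : Set O, MeasurableSet s → @Measurable _ _ (borel (ProbabilityMeasure O)) _
        (fun m : ProbabilityMeasure O => (m : Measure O) s) := by
      letI : MeasurableSpace (ProbabilityMeasure O) := borel _
      haveI : BorelSpace (ProbabilityMeasure O) := ⟨rfl⟩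
      intro s hs
      have hb : (inferInstance : MeasurableSpace O) = MeasurableSpace.generateFrom {s | IsClosed s} := by
        rw [← borel_eq_generateFrom_isClosed]; exact BorelSpace.measurable_eq
      induction s, hs using MeasurableSpace.induction_on_inter hb isPiSystem_isClosed with
      | empty => simp
      | basic F hF => exact hcl F hF
      | compl s hs ih =>
        have : (fun m : ProbabilityMeasure O => (m : Measure O) sᶜ) =
            fun m : ProbabilityMeasure O => 1 - (m : Measure O) s := by
          funext m; exact prob_compl_eq_one_sub hs
        rw [this]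
        exact Measurable.const_sub ih 1
      | iUnion f hd hm ih =>
        have : (fun m : ProbabilityMeasure O => (m : Measure O) (⋃ i, f i)) =
            fun m : ProbabilityMeasure O => ∑' i, (m : Measure O) (f i) := by
          funext m; exact measure_iUnion hd hm
        rw [this]
        exact Measurable.ennreal_tsum ih
    have h5 : @Measurable _ _ (borel (ProbabilityMeasure O)) _
        (fun m : ProbabilityMeasure O => (m : Measure O)) :=
      @Measure.measurable_of_measurable_coe _ _ _ (borel _) _ hmain
    rintro s ⟨t, ht, rfl⟩
    exact h5 ht
  · -- Borel ≤ Giry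
    obtain ⟨f, hf⟩ := exists_dense_seq C(O, ℝ)
    let Φ : ProbabilityMeasure O → ℕ → ℝ := fun m i => ∫ x, f i x ∂(m : Measure O)
    have hc : ∀ g : C(O, ℝ), Continuous fun m : ProbabilityMeasure O => ∫ x, g x ∂(m : Measure O) := by
      intro g
      have := ProbabilityMeasure.continuous_integral_boundedContinuousFunction
        (X := O) (BoundedContinuousFunction.mkOfCompact g)
      exact this
    have hΦ : Continuous Φ := continuous_pi fun i => hc (f i)
    have hinj : Function.Injective Φ := by
      intro m m' h
      have hcont : ∀ m : ProbabilityMeasure O,
          Continuous fun g : C(O, ℝ) => ∫ x, g x ∂(m : Measure O) := by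
        intro m
        rw [Metric.continuous_iff]
        intro g ε hε
        refine ⟨ε / 2, half_pos hε, fun g' hg' => ?_⟩
        have hi : ∀ g : C(O, ℝ), Integrable (fun x => g x) (m : Measure O) := fun g =>
          (BoundedContinuousFunction.mkOfCompact g).integrable _
        rw [Real.dist_eq, ← integral_sub (hi g') (hi g)]
        have : ∀ x, ‖g' x - g x‖ ≤ ε / 2 := fun x => by
          have := ContinuousMap.dist_apply_le_dist (f := g') (g := g) x
          rw [Real.dist_eq] at this
          rw [Real.norm_eq_abs]
          linarith
        have h9 : ‖∫ x, (g' x - g x) ∂(m : Measure O)‖ ≤ ε / 2 * ((m : Measure O)).real univ :=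
          norm_integral_le_of_norm_le_const (ae_of_all _ this)
        rw [Real.norm_eq_abs] at h9
        have h10 : ((m : Measure O)).real univ = 1 := by simp
        rw [h10] at h9
        linarith
      have h1 : ∀ g : C(O, ℝ), ∫ x, g x ∂(m : Measure O) = ∫ x, g x ∂(m' : Measure O) := by
        intro g
        exact congrFun (DenseRange.equalizer hf (hcont m) (hcont m')
          (funext fun i => congrFun h i)) g
      apply Subtype.ext
      haveI : IsFiniteMeasure m.val := by have := m.2; infer_instance
      haveI : IsFiniteMeasure m'.val := by have := m'.2; infer_instance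
      apply ext_of_forall_integral_eq_of_IsFiniteMeasure
      intro g
      exact h1 g.toContinuousMap
    have hemb : IsClosedEmbedding Φ := hΦ.isClosedEmbedding hinj
    have hmeas : Measurable Φ := by
      refine measurable_pi_lambda _ fun i => ?_
      have h7 : Measurable fun m : ProbabilityMeasure O =>
          ∫⁻ x, ENNReal.ofReal (f i x + ‖f i‖) ∂(m : Measure O) :=
        (Measure.measurable_lintegral (by fun_prop)).comp measurable_subtype_coe
      have h8 : (fun m : ProbabilityMeasure O => ∫ x, f i x ∂(m : Measure O)) =
          fun m : ProbabilityMeasure O =>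
            (∫⁻ x, ENNReal.ofReal (f i x + ‖f i‖) ∂(m : Measure O)).toReal - ‖f i‖ := by
        funext m
        have hi : Integrable (fun x => f i x) (m : Measure O) :=
          (BoundedContinuousFunction.mkOfCompact (f i)).integrable _
        rw [← integral_eq_lintegral_of_nonneg_ae, integral_add hi (integrable_const _)]
        · simp
        · refine ae_of_all _ fun x => ?_
          have := (f i).norm_coe_le_norm x
          rw [Real.norm_eq_abs] at this
          show 0 ≤ f i x + ‖f i‖
          linarith [neg_abs_le (f i x)]
        · exact (by fun_prop : Continuous fun x => f i x + ‖f i‖).aestronglyMeasurable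
      show Measurable fun m : ProbabilityMeasure O => ∫ x, f i x ∂(m : Measure O)
      rw [h8]
      exact h7.ennreal_toReal.sub_const _
    rw [hemb.isInducing.eq_induced, borel_comap]
    rintro s ⟨t, ht, rfl⟩
    have : MeasurableSet t := by rwa [BorelSpace.measurable_eq (α := ℕ → ℝ)]
    exact hmeas this
end Pool.Agent.Work.MP_69fea5_lc.W3
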