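import Pool.Agent.Work.MP_69fea5_lc.W3.StmtsD2
import Pool.Agent.Work.MP_69fea5_lc.W3.D_KSX

/-!
# [69fea5 D KSY] a minimal system with a tower has a system of canonical kernels, with `FK`

The construction is the one of `D_KSX.lean` (helper79).
-/

set_option autoImplicit false

namespace Pool.Agent.Work.MP_69fea5_lc.W3D

open MeasureTheory Topology Set Filter
open ProbabilityTheory (Kernel)
open scoped ENNReal NNReal BoundedContinuousFunction
open Pool.Agent.Work.MP_69fea5_lc.AK (Sys sh orb)

open D_KSX in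
theorem KSY_pf (hFAM : S_FAM) (hNAT : S_NAT) (hMIN : S_MIN) (hTWE : S_TWE) : S_KSY := by
  intro X _ _ _ _ _ _ _ _ h E ρ horb hT
  classical
  have hrefl : ∀ x, E h x x := (hTWE X h E ρ hT h le_rfl).1.refl
  have hFAM' : ∀ (F : Type) [Finite F] (L : AddSubgroup (F → ℤ)), 1 ∈ L →
    ∃ K : (F → ℕ) → NN X L → ProbabilityMeasure (NN X L), Fam h E L K :=
    fun F _ L h1 => hFAM X h E ρ horb hT F L h1
  choose Kf hKf using hFAM'
  have hlev : ∀ (F : Type) (A : Set F) (i : F), lev h A i ≤ h := by
    intro F A i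
    simp only [lev]
    split_ifs <;> simp
  let K : KT X := fun F _ L A => if h1 : 1 ∈ L then
    ⟨kf L (Kf F L h1 (lev h A)), meas_kf L _ ((hKf F L h1).ker _ (hlev F A)).cont⟩ else 0
  have hK : ∀ (F : Type) [Finite F] (L : AddSubgroup (F → ℤ)) (h1 : 1 ∈ L) (A : Set F)
      (w : F → X) (hw : w ∈ NF X L), K F L A w =
        (Kf F L h1 (lev h A) ⟨w, hw⟩ : Measure (NN X L)).map Subtype.val := by
    intro F _ L h1 A w hw
    simp only [K, dif_pos h1]
    exact kf_mem _ hw
  have hK0 : ∀ (F : Type) [Finite F] (L : AddSubgroup (F → ℤ)) (h1 : 1 ∈ L) (A : Set F),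
      (fun w => K F L A w) = kf L (Kf F L h1 (lev h A)) := by
    intro F _ L h1 A
    simp only [K, dif_pos h1]
    rfl
  refine ⟨K, ⟨?_, ?_, ?_, ?_, ?_, ?_, ?_, ?_, ?_, ?_⟩, ?_⟩
  · -- min
    intro F _ L h1 w hw v hv
    have h2 := hMIN X h E ρ horb hT F L h1 ⟨w, hw⟩ ⟨v, hv⟩
    have h3 := map_mem_closure (f := (Subtype.val : NN X L → F → X)) continuous_subtype_val h2
      (t := {u | ∃ l ∈ L, u = shF l w}) (by
        rintro _ ⟨l, rfl⟩
        exact ⟨l.1, l.2, rfl⟩)
    exact h3
  · -- prob
    intro F _ L h1 A w hw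
    rw [hK F L h1 A w hw, Measure.map_apply measurable_subtype_coe .univ]
    simp
  · -- le_one
    intro F _ L A w
    by_cases h1 : 1 ∈ L
    · by_cases hw : w ∈ NF X L
      · rw [hK F L h1 A w hw, Measure.map_apply measurable_subtype_coe .univ]
        simp
      · have : K F L A w = 0 := by
          have h2 := congrFun (hK0 F L h1 A) w
          change K F L A w = kf L (Kf F L h1 (lev h A)) w at h2
          rw [h2, kf, dif_neg hw]
        rw [this]; simp
    · have : K F L A w = 0 := by simp [K, h1]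
      rw [this]; simp
  · -- car
    intro F _ L h1 A w hw
    have hc : IsClosed {v : F → X | v ∈ NF X L ∧ ∀ i ∈ A, v i = w i} := by
      have h0 : IsClosed {v : F → X | ∀ i ∈ A, v i = w i} := by
        have : {v : F → X | ∀ i ∈ A, v i = w i} = ⋂ i ∈ A, {v | v i = w i} := by
          ext v; simp
        rw [this]
        exact isClosed_biInter fun i _ => isClosed_eq (continuous_apply i) continuous_const
      exact (isClosed_NF L).inter h0
    have hcm : MeasurableSet {v : F → X | ¬ (v ∈ NF X L ∧ ∀ i ∈ A, v i = w i)} :=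
      hc.measurableSet.compl
    rw [hK F L h1 A w hw, Measure.map_apply measurable_subtype_coe hcm]
    have h2 := ((hKf F L h1).ker _ (hlev F A)).car ⟨w, hw⟩
    refine measure_mono_null ?_ h2
    intro y hy
    simp only [mem_preimage, mem_setOf_eq] at hy ⊢
    intro h3
    rw [EE_lev hT.bot hT.top hrefl] at h3
    exact hy ⟨y.2, h3⟩
  · -- cont
    intro F _ L h1 A g
    rw [continuousOn_iff_continuous_domRestrict]
    have h2 : ∀ w : NN X L, ∫ v, g v ∂(K F L A w.1) =
        ∫ y, g y.1 ∂(Kf F L h1 (lev h A) w : Measure (NN X L)) := by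
      intro w
      rw [hK F L h1 A w.1 w.2, integral_map measurable_subtype_coe.aemeasurable
        g.continuous.aestronglyMeasurable]
    have h3 : Continuous fun w : NN X L =>
        ∫ y, g y.1 ∂(Kf F L h1 (lev h A) w : Measure (NN X L)) := by
      have := (ProbabilityMeasure.continuous_integral_boundedContinuousFunction
        (BoundedContinuousFunction.mkOfCompact
          (⟨fun y : NN X L => g y.1, g.continuous.comp continuous_subtype_val⟩ :
            C(NN X L, ℝ)))).comp ((hKf F L h1).ker _ (hlev F A)).cont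
      exact this
    exact h3.congr fun w => (h2 w).symm
  · -- cls
    intro F _ L h1 A w hw w' hw' H
    rw [hK F L h1 A w hw, hK F L h1 A w' hw']
    rw [((hKf F L h1).ker _ (hlev F A)).cls ⟨w, hw⟩ ⟨w', hw'⟩
      ((EE_lev hT.bot hT.top hrefl A _ _).2 fun i hi => (H i hi).symm)]
  · -- equi
    intro F _ L h1 A w hw l hl
    rw [hK F L h1 A w hw, hK F L h1 A _ (shF_mem_NF hl hw)]
    have h2 := ((hKf F L h1).ker _ (hlev F A)).equi ⟨l, hl⟩ ⟨w, hw⟩
    have h3 : aN L ⟨l, hl⟩ ⟨w, hw⟩ = (⟨shF l w, shF_mem_NF hl hw⟩ : NN X L) := rfl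
    rw [h3] at h2
    rw [h2, Measure.map_map measurable_subtype_coe ((act_aN L).cont _).measurable,
      Measure.map_map (continuous_shF l).measurable measurable_subtype_coe]
    rfl
  · -- full
    intro F _ L h1 A w hw v hv H U hU hvU
    rw [hK F L h1 A w hw, Measure.map_apply measurable_subtype_coe hU.measurableSet]
    exact (hKf F L h1).full _ (hlev F A) ⟨w, hw⟩ ⟨v, hv⟩
      ((EE_lev hT.bot hT.top hrefl A _ _).2 H) _ (hU.preimage continuous_subtype_val) hvU
  · -- mul
    intro F _ L h1 A B hAB w hw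
    have hle : ∀ i, lev h A i ≤ lev h B i := by
      intro i
      simp only [lev]
      by_cases hi : i ∈ A
      · rw [if_pos hi, if_pos (hAB hi)]
      · rw [if_neg hi]; exact Nat.zero_le _
    have hs := (hKf F L h1).mul _ _ hle (hlev F B)
    have hcB := ((hKf F L h1).ker _ (hlev F B)).cont
    have hb := bind_of_sat _ _ hcB hs ⟨w, hw⟩
    have hmB := meas_of_cont _ hcB
    rw [hK F L h1 A w hw]
    ext S hS
    rw [Measure.bind_apply hS (K F L B).measurable.aemeasurable,
      lintegral_map ((K F L B).measurable_coe hS)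
        measurable_subtype_coe, Measure.map_apply measurable_subtype_coe hS]
    conv_rhs => rw [← hb]
    rw [Measure.bind_apply (measurable_subtype_coe hS) hmB.aemeasurable]
    refine lintegral_congr fun y => ?_
    rw [hK F L h1 B y.1 y.2, Measure.map_apply measurable_subtype_coe hS]
  · -- nat
    intro F F' _ _ e L L' h1 hL' A hA w hw
    have h1' : 1 ∈ L' := (hL' 1).2 ⟨1, h1, rfl⟩
    have hw' : w ∘ e ∈ NF X L' := by
      have h2 := map_mem_closure (f := fun v : F → X => v ∘ e) (by fun_prop) hw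
        (t := {w | ∃ l ∈ L', ∃ x : X, w = shF l fun _ => x}) (by
          rintro _ ⟨l, hl, x, rfl⟩
          exact ⟨l ∘ e, (hL' _).2 ⟨l, hl, rfl⟩, x, rfl⟩)
      exact h2
    have h3 := hNAT X h E ρ horb hT F F' e L L' h1 hL' (Kf F L h1) (Kf F' L' h1')
      (hKf F L h1) (hKf F' L' h1') (lev h A) (hlev F A) (by
        intro i hi
        simp only [lev]
        rw [if_neg fun h => hi (hA h)]) ⟨w, hw⟩ ⟨w ∘ e, hw'⟩ rfl
    rw [hK F L h1 A w hw, hK F' L' h1' (e ⁻¹' A) (w ∘ e) hw',
      Measure.map_map (by fun_prop) measurable_subtype_coe]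
    exact h3
  · -- FK
    intro F _ L h1 Kf' hKf' A m hm1 hm0 w
    have hm : m = lev h A := by
      funext i
      by_cases hi : i ∈ A
      · rw [hm1 i hi]; simp only [lev, if_pos hi]
      · rw [hm0 i hi]; simp only [lev, if_neg hi]
    have hmle : ∀ i, m i ≤ h := by
      intro i; rw [hm]; exact hlev F A i
    have h3 := hNAT X h E ρ horb hT F F id L L h1
      (fun l' => ⟨fun hl => ⟨l', hl, rfl⟩, fun ⟨l, hl, he⟩ => by rw [he]; exact hl⟩)
      (Kf F L h1) Kf' (hKf F L h1) hKf' m hmle
      (fun i hi => absurd ⟨i, rfl⟩ hi) w w rfl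
    rw [hK F L h1 A w.1 w.2, ← hm]
    exact h3

end Pool.Agent.Work.MP_69fea5_lc.W3D
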