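import Pool.Agent.Work.MP_69fea5_lc.W3.ToolsD

/-!
# Block [69fea5 D], item LA2

The law of the chain `{j}` of a cube, given the chain `∅`.
-/

set_option autoImplicit false

namespace Pool.Agent.Work.MP_69fea5_lc.W3D

open MeasureTheory Topology Set Filter
open ProbabilityTheory (Kernel)
open scoped ENNReal NNReal ProbabilityTheory
open Pool.Agent.Work.MP_69fea5_lc.AK (Sys sh orb)

namespace D_LA2

theorem ch_self {n : ℕ} (j : Fin n) : W3.ch {j} j = W3.ch ∅ j := by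
  unfold W3.ch
  apply Subtype.ext
  simp

theorem eq_of_ch {n : ℕ} {j i k : Fin n} (h : W3.ch ∅ k = W3.ch {j} i) : i = j := by
  unfold W3.ch at h
  have h1 := congrArg Subtype.val h
  have h2 : (∅ : Finset (Fin n)).erase k = ({j} : Finset (Fin n)).erase i := congrArg Prod.snd h1
  by_contra hij
  have h3 : j ∈ ({j} : Finset (Fin n)).erase i :=
    Finset.mem_erase.2 ⟨fun h => hij h.symm, Finset.mem_singleton_self j⟩
  rw [← h2] at h3
  simp at h3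

theorem inl_inr {n : ℕ} (j : Fin n) : ∀ l ∈ Lp n {(j : ℕ)}, l (Sum.inl j) = l (Sum.inr j) := by
  rintro l ⟨b, u, τ, h1, h2⟩
  rw [h1, h2]
  simp

theorem inr_mem {n : ℕ} (j : Fin n) : ∀ l ∈ Lp n {(j : ℕ)}, l ∘ Sum.inr ∈ Lc n := by
  rintro l ⟨b, u, τ, h1, h2⟩
  refine ⟨b - (j : ℕ) * τ j, u + τ j, fun i => ?_⟩
  simp only [Function.comp, h2, Finset.sum_singleton]
  ring

end D_LA2

open D_LA2 in
theorem LA2_pf (hLA : S_LA) (hVSC : S_VSC) (hAGR : S_AGR) : S_LA2 := by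
  intro X _ _ _ _ _ _ _ _ K hK n j w hw
  set e : Fin n ⊕ Fin n → W3.Vx n := Sum.elim (W3.ch ∅) (W3.ch {j}) with he
  have hshape : ∀ l' : Fin n ⊕ Fin n → ℤ, l' ∈ Lp n {(j : ℕ)} ↔ ∃ l ∈ Lv n, l' = l ∘ e := by
    have h := (hVSC n).2.2.1 {j}
    simpa using h
  have hAe : range (W3.ch (∅ : Finset (Fin n))) ⊆ range e := by
    rintro _ ⟨i, rfl⟩
    exact ⟨Sum.inl i, rfl⟩
  have hnat := hK.nat (W3.Vx n) (Fin n ⊕ Fin n) e (Lv n) (Lp n {(j : ℕ)}) (one_mem_Lv n) hshape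
    (range (W3.ch ∅)) hAe w hw
  have hwe : w ∘ e ∈ NF X (Lp n {(j : ℕ)}) :=
    comp_mem_NF e (fun l hl => (hshape _).2 ⟨l, hl, rfl⟩) hw
  have hsub : range (Sum.inl : Fin n → Fin n ⊕ Fin n) ⊆ e ⁻¹' range (W3.ch ∅) := by
    rintro _ ⟨i, rfl⟩
    exact ⟨i, rfl⟩
  have hagr := hAGR X K hK (Fin n ⊕ Fin n) (Lp n {(j : ℕ)}) (one_mem_Lp n _)
    (range Sum.inl) (e ⁻¹' range (W3.ch ∅)) hsub (by
      intro v hv v' hv' hvv i hi
      rcases i with i | i
      · exact hvv _ ⟨i, rfl⟩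
      · obtain ⟨k, hk⟩ := hi
        have hij : i = j := eq_of_ch hk
        subst hij
        rw [← eq_of_shape (Lp n {(i : ℕ)}) (inl_inr i) hv,
          ← eq_of_shape (Lp n {(i : ℕ)}) (inl_inr i) hv']
        exact hvv _ ⟨i, rfl⟩) (w ∘ e) hwe
  have h1 : (fun (v : W3.Vx n → X) (i : Fin n) => v (W3.ch {j} i)) =
      (fun v : Fin n ⊕ Fin n → X => v ∘ Sum.inr) ∘ fun v : W3.Vx n → X => v ∘ e := rfl
  have hm1 : Measurable fun v : W3.Vx n → X => v ∘ e :=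
    measurable_pi_lambda _ fun i => measurable_pi_apply (e i)
  have hm2 : Measurable fun v : Fin n ⊕ Fin n → X => v ∘ Sum.inr :=
    measurable_pi_lambda _ fun i => measurable_pi_apply (Sum.inr i)
  rw [h1, ← Measure.map_map hm2 hm1, hnat, ← hagr, hLA X K hK n j (w ∘ e) hwe]
  refine hK.cls (Fin n) (Lc n) (one_mem_Lc n) {j} _ (comp_mem_NF _ (inr_mem j) hwe) _
    (diag_mem_NF _ _) ?_
  intro i hi
  rw [mem_singleton_iff] at hi
  subst hi
  simp only [Function.comp, he, Sum.elim_inr, ch_self]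

end Pool.Agent.Work.MP_69fea5_lc.W3D
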