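import Pool.Agent.Work.MP_69fea5_lc.W3.StmtsD

set_option autoImplicit false

namespace Pool.Agent.Work.MP_69fea5_lc.W3D

open MeasureTheory Topology Set Filter
open ProbabilityTheory (Kernel)
open scoped ENNReal NNReal
open Pool.Agent.Work.MP_69fea5_lc.AK (Sys sh orb)

namespace D_LB

theorem mem_Lc {n : ℕ} {l : Fin n → ℤ} :
    l ∈ Lc n ↔ ∃ b u : ℤ, ∀ j : Fin n, l j = b + (j : ℕ) * u := Iff.rfl

theorem mem_Lp {n : ℕ} {S : Finset ℕ} {l : Fin n ⊕ Fin n → ℤ} :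
    l ∈ Lp n S ↔ ∃ (b u : ℤ) (τ : ℕ → ℤ), (∀ j : Fin n, l (Sum.inl j) = b + (j : ℕ) * u) ∧
      ∀ j : Fin n, l (Sum.inr j) = b + (j : ℕ) * u + ∑ i ∈ S, (((j : ℕ) : ℤ) - i) * τ i := Iff.rfl

theorem one_mem (n : ℕ) (S : Finset ℕ) : (1 : Fin n ⊕ Fin n → ℤ) ∈ Lp n S :=
  ⟨1, 0, 0, fun j => by simp, fun j => by simp⟩

theorem inl_iff (n : ℕ) (S : Finset ℕ) (l' : Fin n → ℤ) :
    l' ∈ Lc n ↔ ∃ l ∈ Lp n S, l' = l ∘ Sum.inl := by
  constructor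
  · rintro ⟨b, u, h⟩
    refine ⟨Sum.elim l' l', ⟨b, u, 0, fun j => h j, fun j => ?_⟩, rfl⟩
    simp [h j]
  · rintro ⟨l, ⟨b, u, τ, h1, h2⟩, rfl⟩
    exact ⟨b, u, h1⟩

theorem inr_iff (n : ℕ) (S : Finset ℕ) (l' : Fin n → ℤ) :
    l' ∈ Lc n ↔ ∃ l ∈ Lp n S, l' = l ∘ Sum.inr := by
  constructor
  · rintro ⟨b, u, h⟩
    refine ⟨Sum.elim l' l', ⟨b, u, 0, fun j => h j, fun j => ?_⟩, rfl⟩
    simp [h j]
  · rintro ⟨l, ⟨b, u, τ, h1, h2⟩, rfl⟩
    refine ⟨b - ∑ i ∈ S, (i : ℤ) * τ i, u + ∑ i ∈ S, τ i, fun j => ?_⟩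
    rw [Function.comp_apply, h2 j]
    simp only [sub_mul, Finset.sum_sub_distrib, mul_add, Finset.mul_sum]
    ring

/-- the representatives -/
noncomputable def TT (n r : ℕ) : Finset (Fin n → ℤ) :=
  (Finset.range r ×ˢ Finset.range r).image fun (p : ℕ × ℕ) (j : Fin n) =>
    (p.1 : ℤ) + ((j : ℕ) : ℤ) * (p.2 : ℤ)

theorem TT_sub (n r : ℕ) : ∀ t ∈ TT n r, t ∈ Lc n := by
  intro t ht
  rw [TT, Finset.mem_image] at ht
  obtain ⟨p, -, rfl⟩ := ht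
  exact ⟨p.1, p.2, fun j => rfl⟩

theorem rep (n i i' : ℕ) (S : Finset ℕ) (hi : i ∈ S) (hi' : i' ∈ S) (hlt : i < i') :
    ∀ l ∈ Lc n, ∃ t ∈ TT n (i' - i), ∃ k ∈ Lp n S,
      k ∘ Sum.inl = l - t ∧ k ∘ Sum.inr = 0 := by
  rintro l ⟨b, u, h⟩
  have hr : (0 : ℤ) < (i' : ℤ) - i := by omega
  set r : ℤ := (i' : ℤ) - i with hrdef
  have hb0 := Int.emod_nonneg b hr.ne'
  have hb1 := Int.emod_lt_of_pos b hr
  have hu0 := Int.emod_nonneg u hr.ne'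
  have hu1 := Int.emod_lt_of_pos u hr
  have hb2 := Int.mul_ediv_add_emod b r
  have hu2 := Int.mul_ediv_add_emod u r
  refine ⟨fun j => b % r + ((j : ℕ) : ℤ) * (u % r), ?_, ?_⟩
  · rw [TT, Finset.mem_image]
    refine ⟨((b % r).toNat, (u % r).toNat), ?_, ?_⟩
    · rw [Finset.mem_product, Finset.mem_range, Finset.mem_range]
      constructor
      · dsimp only
        omega
      · dsimp only
        omega
    · funext j
      dsimp only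
      rw [Int.toNat_of_nonneg hb0, Int.toNat_of_nonneg hu0]
  · refine ⟨Sum.elim (fun j => r * (b / r) + ((j : ℕ) : ℤ) * (r * (u / r))) 0, ?_, ?_, ?_⟩
    · refine ⟨r * (b / r), r * (u / r), fun x => if x = i then -(b / r) - i' * (u / r) else
        if x = i' then b / r + i * (u / r) else 0, fun j => rfl, fun j => ?_⟩
      rw [Finset.sum_eq_add_of_mem i i' hi hi' hlt.ne]
      · beta_reduce
        rw [if_pos rfl, if_neg hlt.ne', if_pos rfl]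
        simp only [Sum.elim_inr, Pi.zero_apply]
        rw [hrdef]
        ring
      · rintro c - ⟨hc, hc'⟩
        beta_reduce
        rw [if_neg hc, if_neg hc', mul_zero]
    · funext j
      simp only [Function.comp_apply, Sum.elim_inl, Pi.sub_apply]
      rw [h j]
      linear_combination hb2 + ((j : ℕ) : ℤ) * hu2
    · rfl

end D_LB

theorem LB_pf (hDOMG : S_DOMG) : S_LB := by
  intro X _ _ _ _ _ _ _ _ K hK n S hS
  rw [Finset.one_lt_card] at hS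
  obtain ⟨a, ha, a', ha', hne⟩ := hS
  obtain ⟨i, i', hi, hi', hlt⟩ : ∃ i i', i ∈ S ∧ i' ∈ S ∧ i < i' := by
    rcases lt_or_gt_of_ne hne with h | h
    · exact ⟨a, a', ha, ha', h⟩
    · exact ⟨a', a, ha', ha, h⟩
  exact ⟨(D_LB.TT n (i' - i)).card, hDOMG X K hK (Fin n) (Fin n) (Lp n S) (Lc n) (Lc n)
    (D_LB.TT n (i' - i)) (D_LB.one_mem n S) (D_LB.inl_iff n S) (D_LB.inr_iff n S)
    (D_LB.TT_sub n (i' - i)) (D_LB.rep n i i' S hi hi' hlt)⟩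

end Pool.Agent.Work.MP_69fea5_lc.W3D
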