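import Pool.Agent.Work.MP_69fea5_lc.W3.ToolsD

/-!
# [69fea5 D LB2] the law of a chain displaced in at least two directions
-/

set_option autoImplicit false

namespace Pool.Agent.Work.MP_69fea5_lc.W3D

open MeasureTheory Topology Set Filter
open ProbabilityTheory (Kernel)
open scoped ENNReal NNReal ProbabilityTheory
open Pool.Agent.Work.MP_69fea5_lc.AK (Sys sh orb)

namespace D_LB2

theorem preim (n : ℕ) (s : Finset (Fin n)) (hs : 2 ≤ s.card) :
    (Sum.elim (W3.ch ∅) (W3.ch s) : Fin n ⊕ Fin n → W3.Vx n) ⁻¹' (range (W3.ch ∅)) =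
      range Sum.inl := by
  ext x
  constructor
  · rintro ⟨j, hj⟩
    rcases x with i | i
    · exact ⟨i, rfl⟩
    · exfalso
      change W3.ch ∅ j = W3.ch s i at hj
      have h1 := congrArg (fun a : W3.Vx n => a.1.2) hj
      change (∅ : Finset (Fin n)).erase j = s.erase i at h1
      rw [Finset.erase_empty] at h1
      have h2 := Finset.pred_card_le_card_erase (a := i) (s := s)
      rw [← h1, Finset.card_empty] at h2
      omega
  · rintro ⟨i, rfl⟩
    exact ⟨i, rfl⟩

end D_LB2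

open D_LB2 in
theorem LB2_pf (hLB : S_LB) (hVSC : S_VSC) : S_LB2 := by
  classical
  intro X _ _ _ _ _ _ _ _ K hK n
  obtain ⟨h1, -, h3, -⟩ := hVSC n
  have key : ∀ s : Finset (Fin n), ∃ N : ℕ, 2 ≤ s.card → ∀ w ∈ NF X (Lv n),
      (K (W3.Vx n) (Lv n) (range (W3.ch ∅)) w).map (fun v i => v (W3.ch s i)) ≤
        N • cn K (Lc n) := by
    intro s
    by_cases hs : 2 ≤ s.card
    swap
    · exact ⟨0, fun h => (hs h).elim⟩
    have hc : 1 < (s.image fun i : Fin n => (i : ℕ)).card := by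
      rw [Finset.card_image_of_injective _ Fin.val_injective]
      omega
    obtain ⟨N, hN⟩ := hLB X K hK n _ hc
    refine ⟨N, fun _ w hw => ?_⟩
    set e : Fin n ⊕ Fin n → W3.Vx n := Sum.elim (W3.ch ∅) (W3.ch s) with he
    have hA : range (W3.ch ∅ : Fin n → W3.Vx n) ⊆ range e := by
      rintro _ ⟨j, rfl⟩
      exact ⟨Sum.inl j, rfl⟩
    have hw' : w ∘ e ∈ NF X (Lp n (s.image fun i : Fin n => (i : ℕ))) :=
      comp_mem_NF e (fun l hl => (h3 s _).2 ⟨l, hl, rfl⟩) hw
    have nat := hK.nat (W3.Vx n) (Fin n ⊕ Fin n) e (Lv n)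
      (Lp n (s.image fun i : Fin n => (i : ℕ))) h1 (h3 s) _ hA w hw
    rw [he, preim n s hs, ← he] at nat
    have hb := hN (w ∘ e) hw'
    rw [← nat, Measure.map_map (by fun_prop) (by fun_prop)] at hb
    exact hb
  choose N hN using key
  refine ⟨∑ s, N s, fun s hs w hw => (hN s hs w hw).trans ?_⟩
  have hle : N s ≤ ∑ s, N s := Finset.single_le_sum (f := N) (fun _ _ => Nat.zero_le _)
    (Finset.mem_univ s)
  obtain ⟨d, hd⟩ := Nat.exists_eq_add_of_le hle
  rw [hd, add_smul]
  exact Measure.le_add_right le_rfl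

end Pool.Agent.Work.MP_69fea5_lc.W3D
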