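import Pool.Agent.Work.MP_69fea5_lc.W3.StmtsD

/-!
# Item [69fea5 D LEA]: measures of least energy
-/

set_option autoImplicit false

namespace Pool.Agent.Work.MP_69fea5_lc.W3D

open MeasureTheory Topology Set Filter
open ProbabilityTheory (Kernel)
open scoped ENNReal NNReal
open Pool.Agent.Work.MP_69fea5_lc.AK (Sys sh orb)

namespace D_LEA

section

variable {G W : Type} [AddGroup G] [TopologicalSpace W] [MeasurableSpace W] [BorelSpace W]
  {a : G → W → W}

theorem mv_coe (h : Act a) (g : G) (m : ProbabilityMeasure W) :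
    (mv h g m : Measure W) = (m : Measure W).map (a g) := rfl

theorem mv_add (h : Act a) (g g' : G) (m : ProbabilityMeasure W) :
    mv h g (mv h g' m) = mv h (g + g') m := by
  apply Subtype.ext
  change Measure.map (a g) (Measure.map (a g') (m : Measure W)) =
    Measure.map (a (g + g')) (m : Measure W)
  rw [Measure.map_map (h.cont g).measurable (h.cont g').measurable]
  congr 1
  funext x
  exact (h.add g g' x).symm

theorem mid_mv (h : Act a) (g : G) {m m' b : ProbabilityMeasure W} (hb : Mid m m' b) :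
    Mid (mv h g m) (mv h g m') (mv h g b) := by
  intro f
  rw [mv_coe, mv_coe, mv_coe]
  have e : ∀ μ : ProbabilityMeasure W, ∫ x, f x ∂((μ : Measure W).map (a g)) =
      ∫ x, (f.comp ⟨a g, h.cont g⟩) x ∂(μ : Measure W) := by
    intro μ
    rw [integral_map (h.cont g).measurable.aemeasurable
      (f.continuous.measurable.aestronglyMeasurable)]
    rfl
  rw [e, e, e]
  exact hb _

end

/-- the mid point exists -/
theorem exists_mid {W : Type} [TopologicalSpace W] [CompactSpace W] [MeasurableSpace W]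
    [BorelSpace W] (m m' : ProbabilityMeasure W) : ∃ b, Mid m m' b := by
  let c : ℝ≥0∞ := 2⁻¹
  let μ : Measure W := c • (m : Measure W) + c • (m' : Measure W)
  have hμ : IsProbabilityMeasure μ := by
    constructor
    show (c • (m : Measure W) + c • (m' : Measure W)) univ = 1
    rw [Measure.add_apply, Measure.smul_apply, Measure.smul_apply, measure_univ, measure_univ,
      smul_eq_mul, mul_one]
    exact ENNReal.inv_two_add_inv_two
  refine ⟨⟨μ, hμ⟩, ?_⟩
  intro f
  show 2 * ∫ x, f x ∂(c • (m : Measure W) + c • (m' : Measure W)) = _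
  have hi : ∀ ν : ProbabilityMeasure W, Integrable (fun x => f x) (ν : Measure W) := by
    intro ν
    exact (BoundedContinuousFunction.mkOfCompact f).integrable _
  have hc : c ≠ ∞ := by simp [c]
  rw [integral_add_measure ((hi m).smul_measure hc) ((hi m').smul_measure hc),
    integral_smul_measure, integral_smul_measure]
  have hcr : c.toReal = 1 / 2 := by simp [c]
  rw [hcr]
  simp only [smul_eq_mul]
  ring

end D_LEA

open D_LEA in
theorem LEA_pf (hENG : S_ENG) : S_LEA := by
  intro G W _ _ _ _ _ _ _ a h Q hQc hQne hQinv hQmid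
  obtain ⟨En, d, hEn, hd, hEn01, hd0, hdz, hmid⟩ := hENG W
  -- the sets of energy at most `c`
  let F : ℝ → Set (W × ProbabilityMeasure W) := fun c =>
    {p | p ∈ Q ∧ ∀ g : G, En (mv h g p.2) ≤ c}
  have hmvc : ∀ g : G, Continuous fun m : ProbabilityMeasure W => mv h g m := fun g =>
    ProbabilityMeasure.continuous_map (h.cont g)
  have hFc : ∀ c, IsClosed (F c) := by
    intro c
    have h1 : F c = Q ∩ ⋂ g : G, {p : W × ProbabilityMeasure W | En (mv h g p.2) ≤ c} := by
      ext p
      simp only [F, mem_ofPred_eq, mem_inter_iff, mem_iInter]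
    rw [h1]
    exact hQc.inter (isClosed_iInter fun g =>
      isClosed_le (hEn.comp ((hmvc g).comp continuous_snd)) continuous_const)
  have hFmono : ∀ c c', c ≤ c' → F c ⊆ F c' := fun c c' hcc p hp =>
    ⟨hp.1, fun g => (hp.2 g).trans hcc⟩
  let S : Set ℝ := {c | (F c).Nonempty}
  have hS1 : (1 : ℝ) ∈ S := by
    obtain ⟨p, hp⟩ := hQne
    exact ⟨p, hp, fun g => (hEn01 _).2⟩
  have hSb : BddBelow S := by
    refine ⟨0, ?_⟩
    rintro c ⟨p, -, hp⟩
    exact (hEn01 _).1.trans (hp 0)
  let γ : ℝ := sInf S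
  have hSup : ∀ ε : ℝ, 0 < ε → (F (γ + ε)).Nonempty := by
    intro ε hε
    obtain ⟨c, hc, hcl⟩ := exists_lt_of_csInf_lt (⟨1, hS1⟩ : S.Nonempty)
      (show sInf S < γ + ε by simp only [γ]; linarith)
    obtain ⟨p, hp⟩ := hc
    exact ⟨p, hFmono _ _ hcl.le hp⟩
  have hlow : ∀ c, c < γ → ¬ (F c).Nonempty := by
    intro c hc hne
    exact absurd (csInf_le hSb (show c ∈ S from hne)) (not_le.2 hc)
  have hAne : (F γ).Nonempty := by
    have h1 : (⋂ k : ℕ, F (γ + 1 / ((k : ℝ) + 1))).Nonempty := by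
      apply IsCompact.nonempty_iInter_of_sequence_nonempty_isCompact_isClosed
      · intro k
        apply hFmono
        have : 1 / (((k + 1 : ℕ) : ℝ) + 1) ≤ 1 / ((k : ℝ) + 1) := by
          apply one_div_le_one_div_of_le
          · positivity
          · push_cast
            linarith
        linarith
      · intro k
        exact hSup _ (by positivity)
      · exact (hFc _).isCompact
      · intro k
        exact hFc _
    obtain ⟨p, hp⟩ := h1
    rw [mem_iInter] at hp
    refine ⟨p, (hp 0).1, fun g => ?_⟩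
    apply le_of_forall_pos_le_add
    intro ε hε
    obtain ⟨k, hk⟩ := exists_nat_one_div_lt hε
    exact ((hp k).2 g).trans (by linarith)
  refine ⟨F γ, fun p hp => hp.1, hFc γ, hAne, ?_, ?_, ?_⟩
  · intro p hp g
    refine ⟨hQinv p hp.1 g, fun g' => ?_⟩
    show En (mv h g' (mv h g p.2)) ≤ γ
    rw [mv_add]
    exact hp.2 _
  · intro w w' m hm hm'
    exact ⟨hm', hm.2⟩
  · intro w m₁ m₂ hm₁ hm₂
    obtain ⟨b, hb⟩ := exists_mid m₁ m₂
    have hbQ : (w, b) ∈ Q := hQmid w m₁ m₂ b hm₁.1 hm₂.1 hb
    let φ : G → ℝ := fun g => d (mv h g m₁) (mv h g m₂)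
    have hφ : ∀ ε : ℝ, 0 < ε → ∃ g, φ g < ε := by
      intro ε hε
      by_contra hcon
      push Not at hcon
      apply hlow (γ - ε) (by linarith)
      refine ⟨(w, b), hbQ, fun g => ?_⟩
      have h1 := hmid _ _ _ (mid_mv h g hb)
      have h2 : En (mv h g m₁) ≤ γ := hm₁.2 g
      have h3 : En (mv h g m₂) ≤ γ := hm₂.2 g
      have h4 : ε ≤ d (mv h g m₁) (mv h g m₂) := hcon g
      show En (mv h g b) ≤ γ - ε
      linarith
    have hne : (comap φ (𝓝 (0 : ℝ))).NeBot := by
      rw [comap_neBot_iff]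
      intro t ht
      obtain ⟨ε, hε, hball⟩ := Metric.mem_nhds_iff.1 ht
      obtain ⟨g, hg⟩ := hφ ε hε
      refine ⟨g, hball ?_⟩
      rw [Metric.mem_ball, Real.dist_eq, sub_zero, abs_of_nonneg (hd0 _ _)]
      exact hg
    let U : Ultrafilter G := Ultrafilter.of (comap φ (𝓝 (0 : ℝ)))
    have hU : Tendsto φ (U : Filter G) (𝓝 0) := by
      rw [tendsto_iff_comap]
      exact Ultrafilter.of_le _
    have hlim : ∀ m : ProbabilityMeasure W, ∃ m', Tendsto (fun g => mv h g m) (U : Filter G)
        (𝓝 m') := by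
      intro m
      obtain ⟨m', -, hle⟩ := isCompact_univ.ultrafilter_le_nhds (U.map fun g => mv h g m)
        (by simp)
      exact ⟨m', hle⟩
    obtain ⟨m', hm'⟩ := hlim m₁
    obtain ⟨m'', hm''⟩ := hlim m₂
    have h5 : Tendsto φ (U : Filter G) (𝓝 (d m' m'')) :=
      (hd.tendsto (m', m'')).comp (hm'.prodMk_nhds hm'')
    have h6 : d m' m'' = 0 := tendsto_nhds_unique h5 hU
    have h7 : m' = m'' := hdz _ _ h6
    subst h7
    exact ⟨U, m', hm', hm''⟩

end Pool.Agent.Work.MP_69fea5_lc.W3D
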