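import Pool.Agent.Work.MP_69fea5_lc.W3.StmtsD

/-!
Item [69fea5 D MIN]: configuration spaces of a distal minimal system are minimal.
-/

set_option autoImplicit false

namespace Pool.Agent.Work.MP_69fea5_lc.W3D

open MeasureTheory Topology Set Filter
open ProbabilityTheory (Kernel)
open scoped ENNReal NNReal
open Pool.Agent.Work.MP_69fea5_lc.AK (Sys sh sh_zero sh_add sh_cont orb)

namespace D_MIN

/-- Distality of the configurations over a tower. -/
theorem distal {X : Type} [TopologicalSpace X] [T2Space X] [Sys X] {h : ℕ}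
    {E : ℕ → X → X → Prop} {ρ : ℕ → X → X → ℝ} (hT : Tow h E ρ) {F : Type}
    {L : AddSubgroup (F → ℤ)} (w w' z : NN X L) (U : Ultrafilter L)
    (h1 : Tendsto (fun l => aN L l w) (U : Filter L) (𝓝 z))
    (h2 : Tendsto (fun l => aN L l w') (U : Filter L) (𝓝 z)) : w = w' := by
  have key : ∀ t ≤ h, ∀ i, E t (w.1 i) (w'.1 i) := by
    intro t
    induction t with
    | zero => intro _ i; exact hT.bot _ _
    | succ t ih =>
      intro ht i
      have hS := hT.step t (by omega)
      have hE : E t (w.1 i) (w'.1 i) := ih (by omega) i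
      rw [hS.zero]
      refine ⟨hE, ?_⟩
      have hv : ∀ u : NN X L, Tendsto (fun l => aN L l u) (U : Filter L) (𝓝 z) →
          Tendsto (fun l : L => sh (l.1 i) (u.1 i)) (U : Filter L) (𝓝 (z.1 i)) := by
        intro u hu
        have h3 : Continuous fun v : NN X L => v.1 i :=
          (continuous_apply i).comp continuous_subtype_val
        exact (h3.tendsto z).comp hu
      have hp : Tendsto (fun l : L => (sh (l.1 i) (w.1 i), sh (l.1 i) (w'.1 i))) (U : Filter L)
          (𝓝 (z.1 i, z.1 i)) := (hv w h1).prodMk_nhds (hv w' h2)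
      have hin : ∀ l : L, (sh (l.1 i) (w.1 i), sh (l.1 i) (w'.1 i)) ∈
          {p : X × X | E t p.1 p.2} := fun l => hS.inv _ _ _ hE
      have hp' : Tendsto (fun l : L => (sh (l.1 i) (w.1 i), sh (l.1 i) (w'.1 i)))
          (U : Filter L) (𝓝[{p : X × X | E t p.1 p.2}] (z.1 i, z.1 i)) :=
        tendsto_nhdsWithin_iff.2 ⟨hp, Eventually.of_forall hin⟩
      have hz : (z.1 i, z.1 i) ∈ {p : X × X | E t p.1 p.2} := hS.eqv.refl _
      have hc : Tendsto (fun l : L => ρ t (sh (l.1 i) (w.1 i)) (sh (l.1 i) (w'.1 i)))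
          (U : Filter L) (𝓝 (ρ t (z.1 i) (z.1 i))) := (hS.cont _ hz).tendsto.comp hp'
      have hc' : (fun l : L => ρ t (sh (l.1 i) (w.1 i)) (sh (l.1 i) (w'.1 i))) =
          fun _ => ρ t (w.1 i) (w'.1 i) := funext fun l => hS.rinv _ _ _ hE
      rw [hc', hS.self] at hc
      exact tendsto_nhds_unique tendsto_const_nhds hc
  exact Subtype.ext (funext fun i => hT.top _ _ (key h le_rfl i))

end D_MIN

theorem MIN_pf (hDIS : S_DIS) : S_MIN := by
  intro X _ _ _ _ _ _ h E ρ hmin hT F _ L hL
  have hact : Act (aN (X := X) L) := act_aN L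
  have hdis := hDIS L (NN X L) (aN L) hact (fun w w' z U h1 h2 => D_MIN.distal hT w w' z U h1 h2)
  set x₀ : X := Classical.arbitrary X with hx₀
  have hd₀ : (fun _ : F => x₀) ∈ NF X L :=
    subset_closure ⟨0, L.zero_mem, x₀, (shF_zero _).symm⟩
  set d₀ : NN X L := ⟨fun _ => x₀, hd₀⟩ with hd
  -- everything is in the orbit closure of `d₀`
  set C : Set (F → X) := closure {v | ∃ l ∈ L, v = shF l fun _ => x₀} with hC
  have hconst : ∀ x : X, (fun _ : F => x) ∈ C := by
    intro x
    have h1 : x ∈ closure (Set.range fun n : ℤ => sh n x₀) := hmin x₀ x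
    have h2 : Continuous fun (x : X) (_ : F) => x := continuous_pi fun _ => continuous_id
    refine map_mem_closure h2 h1 ?_
    rintro _ ⟨n, rfl⟩
    refine ⟨n • 1, L.zsmul_mem hL n, ?_⟩
    funext i
    simp [shF]
  have hinv : ∀ l ∈ L, ∀ v ∈ C, shF l v ∈ C := by
    intro l hl v hv
    refine map_mem_closure (continuous_shF l) hv ?_
    rintro _ ⟨k, hk, rfl⟩
    exact ⟨l + k, L.add_mem hl hk, by rw [shF_add]⟩
  have hNF : NF X L ⊆ C := by
    refine closure_minimal ?_ isClosed_closure
    rintro _ ⟨l, hl, x, rfl⟩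
    exact hinv l hl _ (hconst x)
  have hall : ∀ w : NN X L, w ∈ closure (range fun l : L => aN L l d₀) := by
    intro w
    rw [closure_subtype]
    have h1 : w.1 ∈ C := hNF w.2
    have h2 : {v | ∃ l ∈ L, v = shF l fun _ => x₀} ⊆
        (Subtype.val '' range fun l : L => aN L l d₀ : Set (F → X)) := by
      rintro _ ⟨l, hl, rfl⟩
      exact ⟨aN L ⟨l, hl⟩ d₀, ⟨⟨l, hl⟩, rfl⟩, rfl⟩
    exact closure_mono h2 h1
  intro w v
  have hw : d₀ ∈ closure (range fun l : L => aN L l w) := hdis d₀ w (hall w)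
  have hsub : (range fun l : L => aN L l d₀) ⊆ closure (range fun l : L => aN L l w) := by
    rintro _ ⟨g, rfl⟩
    refine map_mem_closure (hact.cont g) hw ?_
    rintro _ ⟨k, rfl⟩
    exact ⟨g + k, hact.add g k w⟩
  exact closure_minimal hsub isClosed_closure (hall v)

end Pool.Agent.Work.MP_69fea5_lc.W3D
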