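import Pool.Agent.Work.MP_69fea5_lc.W3.StmtsD

/-!
# Block [69fea5 D], item NAT: naturality of the kernels
-/

set_option autoImplicit false

namespace Pool.Agent.Work.MP_69fea5_lc.W3D

open MeasureTheory Topology Set Filter
open ProbabilityTheory (Kernel)
open scoped ENNReal NNReal
open Pool.Agent.Work.MP_69fea5_lc.AK (Sys sh orb sh_zero sh_add sh_cont)

namespace D_NAT

section rr

variable {X F F' : Type} [TopologicalSpace X] [Sys X] (e : F' → F)
  {L : AddSubgroup (F → ℤ)} {L' : AddSubgroup (F' → ℤ)}
  (hL : ∀ l', l' ∈ L' ↔ ∃ l ∈ L, l' = l ∘ e)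

omit [Sys X] in
theorem cont_comp : Continuous fun v : F → X => v ∘ e :=
  continuous_pi fun i => continuous_apply (e i)

include hL in
theorem mem (v : F → X) (hv : v ∈ NF X L) : v ∘ e ∈ NF X L' :=
  map_mem_closure (f := fun v : F → X => v ∘ e) (cont_comp e) hv fun _ ⟨k, hk, x, hx⟩ =>
    ⟨k ∘ e, (hL _).2 ⟨k, hk, rfl⟩, x, by rw [hx]; rfl⟩

/-- the restriction of configurations -/
def rr (v : NN X L) : NN X L' := ⟨v.1 ∘ e, mem e hL v.1 v.2⟩

theorem cont_rr : Continuous (rr (X := X) e hL) :=
  ((cont_comp e).comp continuous_subtype_val).subtype_mk _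

theorem surj_rr [CompactSpace X] [T2Space X] : Function.Surjective (rr (X := X) e hL) := by
  intro w
  have h1 : w.1 ∈ (fun v : F → X => v ∘ e) '' NF X L := by
    have hc : IsClosed ((fun v : F → X => v ∘ e) '' NF X L) :=
      (((isClosed_NF L).isCompact).image (cont_comp e)).isClosed
    have h2 : NF X L' ⊆ (fun v : F → X => v ∘ e) '' NF X L := by
      refine closure_minimal ?_ hc
      rintro _ ⟨l', hl', x, rfl⟩
      obtain ⟨l, hl, rfl⟩ := (hL l').1 hl'
      exact ⟨shF l fun _ => x, subset_closure ⟨l, hl, x, rfl⟩, rfl⟩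
    exact h2 w.2
  obtain ⟨v, hv, hvw⟩ := h1
  exact ⟨⟨v, hv⟩, Subtype.ext hvw⟩

theorem quot_rr [CompactSpace X] [T2Space X] : IsQuotientMap (rr (X := X) e hL) :=
  (cont_rr e hL).isClosedMap.isQuotientMap (cont_rr e hL) (surj_rr e hL)

theorem equi_rr (l : L) (v : NN X L) :
    rr e hL (aN L l v) = aN L' ⟨l.1 ∘ e, (hL _).2 ⟨l.1, l.2, rfl⟩⟩ (rr e hL v) := rfl

theorem EE_rr (E : ℕ → X → X → Prop) (h0 : ∀ x y, E 0 x y) (m : F → ℕ)
    (hm : ∀ i, i ∉ range e → m i = 0) (v w : NN X L) :
    EE E m v w ↔ EE E (m ∘ e) (rr e hL v) (rr e hL w) := by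
  constructor
  · intro h i
    exact h (e i)
  · intro h i
    by_cases hi : i ∈ range e
    · obtain ⟨j, rfl⟩ := hi
      exact h j
    · rw [hm i hi]
      exact h0 _ _

end rr

/-- equality of measures with the same integrals, and point masses -/
theorem eq_dirac {W : Type} [MeasurableSpace W] [MeasurableSingletonClass W]
    (μ : Measure W) [IsProbabilityMeasure μ] (x : W) (h : μ {y | ¬ x = y} = 0) :
    μ = Measure.dirac x := by
  have h0 : μ {x}ᶜ = 0 := by
    refine measure_mono_null ?_ h
    intro y hy hxy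
    exact hy hxy.symm
  have h1 : μ {x} = 1 := by
    have := prob_compl_eq_one_sub (μ := μ) (measurableSet_singleton x).compl
    rw [compl_compl, h0, tsub_zero] at this
    exact this
  refine Measure.ext fun s hs => ?_
  rw [Measure.dirac_apply' _ hs]
  by_cases hx : x ∈ s
  · rw [Set.indicator_of_mem hx, Pi.one_apply]
    refine le_antisymm prob_le_one ?_
    rw [← h1]
    exact measure_mono (Set.singleton_subset_iff.2 hx)
  · rw [Set.indicator_of_notMem hx]
    refine measure_mono_null ?_ h0
    intro y hy hyx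
    exact hx (hyx ▸ hy)

section main

variable {X : Type} [TopologicalSpace X] [CompactSpace X] [T2Space X]
  [SecondCountableTopology X] [MeasurableSpace X] [BorelSpace X] [Sys X] {F F' : Type}
  [Finite F] [Finite F'] (e : F' → F)
  {L : AddSubgroup (F → ℤ)} {L' : AddSubgroup (F' → ℤ)}
  (hL : ∀ l', l' ∈ L' ↔ ∃ l ∈ L, l' = l ∘ e)

/-- the image kernel -/
noncomputable def im (k : NN X L → ProbabilityMeasure (NN X L)) (x : NN X L') :
    ProbabilityMeasure (NN X L') :=
  (k (Classical.choose (surj_rr e hL x))).map (f := rr e hL) (cont_rr e hL).measurable.aemeasurable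

theorem im_rr (E : ℕ → X → X → Prop) (h0 : ∀ x y, E 0 x y) (m : F → ℕ)
    (hrefl : ∀ i x, E (m i) x x)
    (hm : ∀ i, i ∉ range e → m i = 0) (k : NN X L → ProbabilityMeasure (NN X L))
    (hcls : ∀ x y, EE E m x y → k x = k y) (v : NN X L) :
    im e hL k (rr e hL v) = (k v).map (f := rr e hL) (cont_rr e hL).measurable.aemeasurable := by
  have h1 := Classical.choose_spec (surj_rr e hL (rr e hL v))
  have h2 : k (Classical.choose (surj_rr e hL (rr e hL v))) = k v := by
    apply hcls
    rw [EE_rr e hL E h0 m hm, h1]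
    intro i
    exact hrefl (e i) _
  have h3 : ∀ p q : ProbabilityMeasure (NN X L), p = q →
      p.map (f := rr e hL) (cont_rr e hL).measurable.aemeasurable =
        q.map (f := rr e hL) (cont_rr e hL).measurable.aemeasurable := by
    rintro p _ rfl
    rfl
  exact h3 _ _ h2

theorem closed_EE {F : Type} {L : AddSubgroup (F → ℤ)} (E : ℕ → X → X → Prop) (m : F → ℕ)
    (hc : ∀ i, IsClosed {p : X × X | E (m i) p.1 p.2}) (x : NN X L) :
    IsClosed {y : NN X L | EE E m x y} := by
  have h1 : {y : NN X L | EE E m x y} = ⋂ i, {y : NN X L | E (m i) (x.1 i) (y.1 i)} := by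
    ext y
    simp [EE]
  rw [h1]
  refine isClosed_iInter fun i => ?_
  exact (hc i).preimage (f := fun y : NN X L => (x.1 i, y.1 i))
    (continuous_const.prodMk ((continuous_apply i).comp continuous_subtype_val))

theorem ker_im (E : ℕ → X → X → Prop) (h0 : ∀ x y, E 0 x y) (m : F → ℕ)
    (hrefl : ∀ i x, E (m i) x x) (hc : ∀ i, IsClosed {p : X × X | E (m i) p.1 p.2})
    (hm : ∀ i, i ∉ range e → m i = 0) (k : NN X L → ProbabilityMeasure (NN X L))
    (hk : Ker (aN L) (EE E m) k) : Ker (aN L') (EE E (m ∘ e)) (im e hL k) where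
  cont := by
    rw [(quot_rr e hL).continuous_iff]
    have h1 : im e hL k ∘ rr e hL = fun v =>
        (k v).map (f := rr e hL) (cont_rr e hL).measurable.aemeasurable :=
      funext fun v => im_rr e hL E h0 m hrefl hm k hk.cls v
    rw [h1]
    exact (ProbabilityMeasure.continuous_map (cont_rr e hL)).comp hk.cont
  cls x y hxy := by
    obtain ⟨v, rfl⟩ := surj_rr e hL x
    obtain ⟨w, rfl⟩ := surj_rr e hL y
    rw [im_rr e hL E h0 m hrefl hm k hk.cls v, im_rr e hL E h0 m hrefl hm k hk.cls w]
    have h1 : k v = k w := hk.cls _ _ ((EE_rr e hL E h0 m hm v w).2 hxy)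
    simp only [h1]
  car x := by
    obtain ⟨v, rfl⟩ := surj_rr e hL x
    rw [im_rr e hL E h0 m hrefl hm k hk.cls v, ProbabilityMeasure.toMeasure_map]
    have hms : MeasurableSet {y : NN X L' | ¬ EE E (m ∘ e) (rr e hL v) y} :=
      (closed_EE E (m ∘ e) (fun i => hc (e i)) (rr e hL v)).measurableSet.compl
    rw [Measure.map_apply (cont_rr e hL).measurable hms]
    refine measure_mono_null ?_ (hk.car v)
    intro y hy hy2
    exact hy ((EE_rr e hL E h0 m hm v y).1 hy2)
  equi l' x := by
    obtain ⟨v, rfl⟩ := surj_rr e hL x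
    obtain ⟨l'', hl''⟩ := l'
    obtain ⟨l, hl, rfl⟩ := (hL l'').1 hl''
    have h1 : aN L' ⟨l ∘ e, hl''⟩ (rr e hL v) = rr e hL (aN L ⟨l, hl⟩ v) := rfl
    have h2 : Continuous (aN (X := X) L' ⟨l ∘ e, hl''⟩) := (act_aN L').cont _
    have h3 : Continuous (aN (X := X) L ⟨l, hl⟩) := (act_aN L).cont _
    rw [h1, im_rr e hL E h0 m hrefl hm k hk.cls, im_rr e hL E h0 m hrefl hm k hk.cls,
      ProbabilityMeasure.toMeasure_map, ProbabilityMeasure.toMeasure_map, hk.equi,
      Measure.map_map (cont_rr e hL).measurable h3.measurable,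
      Measure.map_map h2.measurable (cont_rr e hL).measurable]
    rfl

end main

end D_NAT

open D_NAT in
theorem NAT_pf (hSTU : S_STU) (hMIN : S_MIN) (hTWE : S_TWE) (hISN : S_ISN) : S_NAT := by
  intro X _ _ _ _ _ _ _ _ h E ρ hX hT F F' _ _ e L L' h1L hL K K' hK hK'
  have : Fintype F' := Fintype.ofFinite F'
  have h1L' : (1 : F' → ℤ) ∈ L' := (hL 1).2 ⟨1, h1L, rfl⟩
  have hrefl : ∀ l ≤ h, ∀ x, E l x x := fun l hl x => (hTWE X h E ρ hT l hl).1.refl x
  have hcl : ∀ l ≤ h, IsClosed {p : X × X | E l p.1 p.2} := fun l hl =>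
    (hTWE X h E ρ hT l hl).2.1
  -- the main claim
  have main : ∀ n : ℕ, ∀ m : F → ℕ, (∀ i, m i ≤ h) → (∀ i, i ∉ range e → m i = 0) →
      ∑ i : F', (h - m (e i)) = n → im e hL (K m) = K' (m ∘ e) := by
    intro n
    induction n using Nat.strong_induction_on with
    | _ n ih =>
      intro m hmh hm0 hn
      have hker := ker_im e hL E hT.bot m (fun i x => hrefl _ (hmh i) x)
        (fun i => hcl _ (hmh i)) hm0 (K m) (hK.ker m hmh)
      have hmh' : ∀ i, (m ∘ e) i ≤ h := fun i => hmh (e i)
      have hker' := hK'.ker (m ∘ e) hmh'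
      by_cases hall : ∀ i : F', m (e i) = h
      · -- the top level
        funext x
        have key : ∀ κ : NN X L' → ProbabilityMeasure (NN X L'),
            Ker (aN L') (EE E (m ∘ e)) κ → (κ x : Measure (NN X L')) = Measure.dirac x := by
          intro κ hκ
          refine eq_dirac _ x ?_
          refine measure_mono_null ?_ (hκ.car x)
          intro y hy hxy
          refine hy (Subtype.ext (funext fun i => ?_))
          have h2 := hxy i
          have h3 : (m ∘ e) i = h := hall i
          rw [h3] at h2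
          exact hT.top _ _ h2
        exact Subtype.ext ((key _ hker).trans (key _ hker').symm)
      · push Not at hall
        obtain ⟨j, hj⟩ := hall
        have hj' : m (e j) < h := lt_of_le_of_ne (hmh _) hj
        classical
        obtain ⟨mp, hmp⟩ : ∃ mp : F → ℕ, mp = fun i => if i ∈ range e then min h (m i + 1) else 0 :=
          ⟨_, rfl⟩
        have hmp1 : ∀ i, mp (e i) = min h (m (e i) + 1) := by
          intro i
          rw [hmp]
          simp
        have hmp2 : ∀ i, i ∉ range e → mp i = 0 := by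
          intro i hi
          rw [hmp]
          simp only [hi, if_false]
        have hmph : ∀ i, mp i ≤ h := by
          intro i
          by_cases hi : i ∈ range e
          · obtain ⟨i', rfl⟩ := hi
            rw [hmp1]
            exact min_le_left _ _
          · rw [hmp2 i hi]
            exact Nat.zero_le _
        have hmmp : ∀ i, m i ≤ mp i := by
          intro i
          by_cases hi : i ∈ range e
          · obtain ⟨i', rfl⟩ := hi
            rw [hmp1]
            have := hmh (e i')
            omega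
          · rw [hmp2 i hi, hm0 i hi]
        have hlt : ∑ i : F', (h - mp (e i)) < n := by
          rw [← hn]
          refine Finset.sum_lt_sum (fun i _ => ?_) ⟨j, Finset.mem_univ _, ?_⟩
          · have := hmmp (e i)
            omega
          · rw [hmp1]
            omega
        have hIH := ih _ hlt mp hmph hmp2 rfl
        have hmeh : ∀ i, (mp ∘ e) i ≤ h := fun i => hmph (e i)
        have hiso := hISN X h E ρ hT F' L' (m ∘ e) (mp ∘ e) (fun i => by
          have h2 : (mp ∘ e) i = min h (m (e i) + 1) := hmp1 i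
          have h3 : (m ∘ e) i = m (e i) := rfl
          rw [h2, h3]
          have := hmh (e i)
          omega) hmeh
        refine hSTU L' (NN X L') (aN L') (act_aN L') (hMIN X h E ρ hX hT F' L' h1L')
          (EE E (m ∘ e)) (EE E (mp ∘ e)) _ hiso (K' (mp ∘ e)) _ _ (hK'.ker _ hmeh) hker hker' ?_
          (hK'.mul (m ∘ e) (mp ∘ e) (fun i => hmmp (e i)) hmeh)
        -- the saturation
        intro x f
        obtain ⟨v, rfl⟩ := surj_rr e hL x
        have hr := cont_rr (X := X) e hL
        have himv := im_rr e hL E hT.bot m (fun i x => hrefl _ (hmh i) x) hm0 (K m)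
          (hK.ker m hmh).cls v
        have hin : Continuous fun y : NN X L' => ∫ z, f z ∂(K' (mp ∘ e) y : Measure (NN X L')) := by
          have h5 := (ProbabilityMeasure.continuous_integral_boundedContinuousFunction
            (BoundedContinuousFunction.mkOfCompact f)).comp (hK'.ker (mp ∘ e) hmeh).cont
          exact h5
        rw [himv, ProbabilityMeasure.toMeasure_map,
          integral_map hr.measurable.aemeasurable hin.aestronglyMeasurable,
          integral_map hr.measurable.aemeasurable f.continuous.aestronglyMeasurable]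
        have h6 := hK.mul m mp hmmp hmph v (f.comp ⟨rr e hL, hr⟩)
        refine Eq.trans ?_ h6
        refine integral_congr_ae (Eventually.of_forall fun u => ?_)
        have himu := im_rr e hL E hT.bot mp (fun i x => hrefl _ (hmph i) x) hmp2 (K mp)
          (hK.ker mp hmph).cls u
        have h7 : K' (mp ∘ e) (rr e hL u) =
            (K mp u).map (f := rr e hL) hr.measurable.aemeasurable := by
          rw [← hIH]
          exact himu
        change ∫ z, f z ∂(K' (mp ∘ e) (rr e hL u) : Measure (NN X L')) =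
          ∫ z, f (rr e hL z) ∂(K mp u : Measure (NN X L))
        rw [h7, ProbabilityMeasure.toMeasure_map,
          integral_map hr.measurable.aemeasurable f.continuous.aestronglyMeasurable]
  intro m hmh hm0 w w' hw
  have hm := main _ m hmh hm0 rfl
  have hw' : w' = rr e hL w := Subtype.ext hw
  have hr := cont_rr (X := X) e hL
  have h1 := im_rr e hL E hT.bot m (fun i x => hrefl _ (hmh i) x) hm0 (K m)
    (hK.ker m hmh).cls w
  have h2 : K' (m ∘ e) w' = (K m w).map (f := rr e hL) hr.measurable.aemeasurable := by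
    rw [← hm, hw', h1]
  rw [h2, ProbabilityMeasure.toMeasure_map, Measure.map_map measurable_subtype_coe hr.measurable]
  rfl

end Pool.Agent.Work.MP_69fea5_lc.W3D
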