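import Pool.Agent.Work.MP_69fea5_lc.W3.StmtsD

set_option autoImplicit false

namespace Pool.Agent.Work.MP_69fea5_lc.W3D

open MeasureTheory Topology Set Filter
open ProbabilityTheory (Kernel IsFiniteKernel)
open scoped ENNReal NNReal
open Pool.Agent.Work.MP_69fea5_lc.AK (Sys sh orb sh_zero)

namespace D_PK1

section

variable {F X : Type} [TopologicalSpace X] [Sys X]

theorem one_mem_dbl {L : AddSubgroup (F → ℤ)} (h1 : 1 ∈ L) (γ : F → ℤ) : 1 ∈ dbl L γ :=
  ⟨1, h1, 0, fun i => rfl, fun i => by simp⟩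

theorem const_mem (L : AddSubgroup (F → ℤ)) (x : X) : (fun _ => x) ∈ NF X L :=
  subset_closure ⟨0, L.zero_mem, x, (shF_zero _).symm⟩

theorem elim_mem_dbl {L : AddSubgroup (F → ℤ)} {l : F → ℤ} (hl : l ∈ L) (γ : F → ℤ) :
    (Sum.elim l l : F ⊕ F → ℤ) ∈ dbl L γ :=
  ⟨l, hl, 0, fun i => rfl, fun i => by simp⟩

omit [Sys X] in
theorem continuous_elim : Continuous fun q : F → X => (Sum.elim q q : F ⊕ F → X) := by
  refine continuous_pi fun a => ?_
  rcases a with i | i
  · exact continuous_apply i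
  · exact continuous_apply i

theorem elim_mem_NF {L : AddSubgroup (F → ℤ)} (γ : F → ℤ) {q : F → X} (hq : q ∈ NF X L) :
    (Sum.elim q q : F ⊕ F → X) ∈ NF X (dbl L γ) := by
  refine map_mem_closure (f := fun q : F → X => (Sum.elim q q : F ⊕ F → X))
    continuous_elim hq ?_
  rintro _ ⟨l, hl, x, rfl⟩
  refine ⟨Sum.elim l l, elim_mem_dbl hl γ, x, ?_⟩
  funext a
  rcases a with i | i <;> rfl

theorem inl_mem_NF {L : AddSubgroup (F → ℤ)} {γ : F → ℤ} {u : F ⊕ F → X}
    (hu : u ∈ NF X (dbl L γ)) : u ∘ Sum.inl ∈ NF X L := by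
  refine map_mem_closure (f := fun u : F ⊕ F → X => u ∘ Sum.inl)
    (continuous_pi fun i => continuous_apply _) hu ?_
  rintro _ ⟨l, ⟨k, hk, m, h1, -⟩, x, rfl⟩
  refine ⟨k, hk, x, ?_⟩
  funext i
  show sh (l (Sum.inl i)) x = sh (k i) x
  rw [h1]

end

theorem measurable_elim {F X : Type} [MeasurableSpace X] :
    Measurable fun q : F → X => (Sum.elim q q : F ⊕ F → X) := by
  refine measurable_pi_iff.2 fun a => ?_
  rcases a with i | i
  · exact measurable_pi_apply i
  · exact measurable_pi_apply i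

theorem measurable_comp {F F' X : Type} [MeasurableSpace X] (e : F' → F) :
    Measurable fun v : F → X => v ∘ e :=
  measurable_pi_iff.2 fun i => measurable_pi_apply (e i)

theorem measurable_Pk {X : Type} [MeasurableSpace X] (K : KT X) {F : Type} [Finite F]
    (L : AddSubgroup (F → ℤ)) (γ : F → ℤ) : Measurable (Pk K L γ) :=
  (Measure.measurable_map _ (measurable_comp Sum.inr)).comp
    ((K (F ⊕ F) (dbl L γ) (range Sum.inl)).measurable.comp measurable_elim)

theorem Pk_univ {X : Type} [MeasurableSpace X] (K : KT X) {F : Type} [Finite F]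
    (L : AddSubgroup (F → ℤ)) (γ : F → ℤ) (q : F → X) :
    Pk K L γ q univ = K (F ⊕ F) (dbl L γ) (range Sum.inl) (Sum.elim q q) univ := by
  unfold Pk
  rw [Measure.map_apply (measurable_comp Sum.inr) MeasurableSet.univ]
  rfl

end D_PK1

open D_PK1 in
theorem PK1_pf : S_PK1 := by
  intro X _ _ _ _ _ _ _ _ K hK F _ L γ h1 hγ
  have hD := one_mem_dbl h1 γ
  have hmP := measurable_Pk K L γ
  -- the canonical measures are carried by the configurations
  have hcar : ∀ᵐ u ∂(cn K (dbl L γ)), u ∈ NF X (dbl L γ) := by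
    have h2 := hK.car (F ⊕ F) (dbl L γ) hD ∅ _ (const_mem (dbl L γ) (Classical.arbitrary X))
    refine measure_mono_null ?_ h2
    intro v hv hv'
    exact hv hv'.1
  have hcar' : ∀ᵐ q ∂(cn K L), q ∈ NF X L := by
    have h2 := hK.car F L h1 ∅ _ (const_mem L (Classical.arbitrary X))
    refine measure_mono_null ?_ h2
    intro v hv hv'
    exact hv hv'.1
  refine ⟨hmP, ?_, ?_⟩
  · filter_upwards [hcar'] with q hq
    rw [Pk_univ]
    exact hK.prob (F ⊕ F) (dbl L γ) hD (range Sum.inl) _ (elim_mem_NF γ hq)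
  · intro H hH
    let η : Kernel (F → X) (F → X) := ⟨Pk K L γ, hmP⟩
    have hη : IsFiniteKernel η := ⟨1, ENNReal.one_lt_top, fun q => by
      show Pk K L γ q univ ≤ 1
      rw [Pk_univ]
      exact hK.le_one (F ⊕ F) (dbl L γ) (range Sum.inl) _⟩
    have hΦ : Measurable fun q : F → X => ∫⁻ q', H (q, q') ∂(Pk K L γ q) :=
      Measurable.lintegral_kernel_prod_right' (κ := η) hH
    have hH' : Measurable fun v : F ⊕ F → X => H (v ∘ Sum.inl, v ∘ Sum.inr) :=
      hH.comp ((measurable_comp Sum.inl).prodMk (measurable_comp Sum.inr))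
    have hmul : (cn K (dbl L γ)).bind (K (F ⊕ F) (dbl L γ) (range Sum.inl)) =
        cn K (dbl L γ) :=
      hK.mul (F ⊕ F) (dbl L γ) hD ∅ (range Sum.inl) (empty_subset _) _
        (const_mem (dbl L γ) (Classical.arbitrary X))
    have hnat : (cn K (dbl L γ)).map (fun v => v ∘ Sum.inl) = cn K L := by
      refine hK.nat (F ⊕ F) F Sum.inl (dbl L γ) L hD ?_ ∅ (empty_subset _) _
        (const_mem (dbl L γ) (Classical.arbitrary X))
      intro l'
      constructor
      · intro hl'
        exact ⟨Sum.elim l' l', elim_mem_dbl hl' γ, rfl⟩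
      · rintro ⟨l, ⟨k, hk, m, h2, -⟩, rfl⟩
        have : l ∘ Sum.inl = k := funext h2
        rw [this]
        exact hk
    calc ∫⁻ v, H (v ∘ Sum.inl, v ∘ Sum.inr) ∂(cn K (dbl L γ))
        = ∫⁻ v, H (v ∘ Sum.inl, v ∘ Sum.inr)
            ∂((cn K (dbl L γ)).bind (K (F ⊕ F) (dbl L γ) (range Sum.inl))) := by rw [hmul]
      _ = ∫⁻ u, ∫⁻ v, H (v ∘ Sum.inl, v ∘ Sum.inr)
            ∂(K (F ⊕ F) (dbl L γ) (range Sum.inl) u) ∂(cn K (dbl L γ)) :=
          Measure.lintegral_bind (Kernel.aemeasurable _) hH'.aemeasurable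
      _ = ∫⁻ u, ∫⁻ q', H (u ∘ Sum.inl, q') ∂(Pk K L γ (u ∘ Sum.inl)) ∂(cn K (dbl L γ)) := by
          refine lintegral_congr_ae ?_
          filter_upwards [hcar] with u hu
          have hu1 := inl_mem_NF hu
          have hu2 := elim_mem_NF γ hu1
          have h3 : K (F ⊕ F) (dbl L γ) (range Sum.inl) u =
              K (F ⊕ F) (dbl L γ) (range Sum.inl)
                (Sum.elim (u ∘ Sum.inl) (u ∘ Sum.inl)) := by
            refine hK.cls (F ⊕ F) (dbl L γ) hD (range Sum.inl) u hu _ hu2 ?_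
            rintro _ ⟨i, rfl⟩
            rfl
          have h4 := hK.car (F ⊕ F) (dbl L γ) hD (range Sum.inl) _ hu2
          unfold Pk
          have hHu : Measurable fun q' : F → X => H (u ∘ Sum.inl, q') :=
            hH.comp (measurable_const.prodMk measurable_id)
          rw [lintegral_map hHu (measurable_comp Sum.inr), h3]
          refine lintegral_congr_ae ?_
          have h5 : ∀ᵐ v ∂(K (F ⊕ F) (dbl L γ) (range Sum.inl)
              (Sum.elim (u ∘ Sum.inl) (u ∘ Sum.inl))), v ∘ Sum.inl = u ∘ Sum.inl := by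
            refine measure_mono_null ?_ h4
            intro v hv hv'
            refine hv (funext fun i => ?_)
            exact hv'.2 (Sum.inl i) ⟨i, rfl⟩
          filter_upwards [h5] with v hv
          rw [hv]
      _ = ∫⁻ q, ∫⁻ q', H (q, q') ∂(Pk K L γ q) ∂((cn K (dbl L γ)).map fun v => v ∘ Sum.inl) :=
          (lintegral_map hΦ (measurable_comp Sum.inl)).symm
      _ = ∫⁻ q, ∫⁻ q', H (q, q') ∂(Pk K L γ q) ∂(cn K L) := by rw [hnat]

end Pool.Agent.Work.MP_69fea5_lc.W3D
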