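import Pool.Agent.Work.MP_69fea5_lc.W3.StmtsD

/-!
# Item [69fea5 D PK3]: the operator of the doubling is a projection
-/

set_option autoImplicit false
set_option linter.unusedSectionVars false

namespace Pool.Agent.Work.MP_69fea5_lc.W3D

open MeasureTheory Topology Set Filter
open ProbabilityTheory (Kernel IsFiniteKernel)
open scoped ENNReal NNReal ProbabilityTheory
open Pool.Agent.Work.MP_69fea5_lc.AK (Sys sh orb)

namespace D_PK3

section gen

variable {α β : Type} [MeasurableSpace α] [MeasurableSpace β]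

theorem int_of_bdd {μ : Measure α} [IsFiniteMeasure μ] {f : α → ℝ} (hf : Measurable f) {c : ℝ}
    (hb : ∀ x, |f x| ≤ c) : Integrable f μ :=
  Integrable.of_bound hf.aestronglyMeasurable c (Eventually.of_forall hb)

theorem int_map {μ : Measure α} {φ : α → β} (hφ : Measurable φ) {f : β → ℝ}
    (hf : Measurable f) : ∫ y, f y ∂(μ.map φ) = ∫ x, f (φ x) ∂μ :=
  integral_map hφ.aemeasurable hf.aestronglyMeasurable

theorem integral_bind' {μ : Measure α} [IsFiniteMeasure μ] (κ : Kernel α β) [IsFiniteKernel κ]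
    {f : β → ℝ} (hf : Measurable f) {c : ℝ} (hb : ∀ x, |f x| ≤ c) :
    ∫ y, f y ∂(μ.bind κ) = ∫ x, ∫ y, f y ∂(κ x) ∂μ := by
  have h1 : μ.bind κ = (μ ⊗ₘ κ).snd := (Measure.snd_compProd μ κ).symm
  rw [h1, Measure.snd, integral_map measurable_snd.aemeasurable hf.aestronglyMeasurable]
  exact Measure.integral_compProd (int_of_bdd (hf.comp measurable_snd) fun p => hb p.2)

theorem meas_int (κ : Kernel α β) [IsFiniteKernel κ] {f : β → ℝ} (hf : Measurable f) :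
    Measurable fun x => ∫ y, f y ∂(κ x) :=
  (hf.stronglyMeasurable.integral_kernel (κ := κ)).measurable

theorem int_le {μ : Measure α} (h : μ univ ≤ 1) {f : α → ℝ} {c : ℝ} (hc : 0 ≤ c)
    (hb : ∀ x, |f x| ≤ c) : |∫ x, f x ∂μ| ≤ c := by
  have : IsFiniteMeasure μ := ⟨h.trans_lt ENNReal.one_lt_top⟩
  have h1 : ‖∫ x, f x ∂μ‖ ≤ c * μ.real univ :=
    norm_integral_le_of_norm_le_const (Eventually.of_forall hb)
  have h2 : μ.real univ ≤ 1 := by
    rw [Measure.real]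
    exact ENNReal.toReal_le_of_le_ofReal zero_le_one (by simpa using h)
  calc |∫ x, f x ∂μ| ≤ c * μ.real univ := h1
    _ ≤ c * 1 := mul_le_mul_of_nonneg_left h2 hc
    _ = c := mul_one c

theorem mul_bd {f g : ℝ} {c c' : ℝ} (h : |f| ≤ c) (h' : |g| ≤ c') : |f * g| ≤ c * c' := by
  rw [abs_mul]
  exact mul_le_mul h h' (abs_nonneg _) ((abs_nonneg _).trans h)

theorem L1 {μ : Measure α} [IsFiniteMeasure μ] (κ : Kernel α α) [IsFiniteKernel κ]
    {f g : α → ℝ} (hf : Measurable f) (hg : Measurable g) {c c' : ℝ} (hb : ∀ x, |f x| ≤ c)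
    (hb' : ∀ x, |g x| ≤ c') :
    ∫ p, f p.1 * g p.2 ∂(μ ⊗ₘ κ) = ∫ a, f a * ∫ b, g b ∂(κ a) ∂μ := by
  rw [Measure.integral_compProd (int_of_bdd (f := fun p : α × α => f p.1 * g p.2) (c := c * c')
    ((hf.comp measurable_fst).mul (hg.comp measurable_snd)) fun p => mul_bd (hb _) (hb' _))]
  congr 1
  funext a
  exact integral_const_mul (f a) g

theorem L3 {μ : Measure α} [IsFiniteMeasure μ] (κ : Kernel α α) [IsFiniteKernel κ]
    {f g : α → ℝ} (hf : Measurable f) (hg : Measurable g) {c c' : ℝ} (hb : ∀ x, |f x| ≤ c)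
    (hb' : ∀ x, |g x| ≤ c') :
    ∫ p, f p.2 * g p.1 ∂(μ ⊗ₘ κ) = ∫ a, (∫ b, f b ∂(κ a)) * g a ∂μ := by
  rw [Measure.integral_compProd (int_of_bdd (f := fun p : α × α => f p.2 * g p.1) (c := c * c')
    ((hf.comp measurable_snd).mul (hg.comp measurable_fst)) fun p => mul_bd (hb _) (hb' _))]
  congr 1
  funext a
  exact integral_mul_const (g a) f

theorem L2 {μ : Measure α} [IsFiniteMeasure μ] (κ : Kernel α α) [IsFiniteKernel κ]
    {f g : α → ℝ} (hf : Measurable f) (hg : Measurable g) {c c' : ℝ} (hb : ∀ x, |f x| ≤ c)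
    (hb' : ∀ x, |g x| ≤ c') :
    ∫ p, f p.1 * g p.2 ∂((μ ⊗ₘ (κ ×ₖ κ)).snd) =
      ∫ a, (∫ b, f b ∂(κ a)) * ∫ b, g b ∂(κ a) ∂μ := by
  have hm : Measurable fun p : α × α => f p.1 * g p.2 :=
    (hf.comp measurable_fst).mul (hg.comp measurable_snd)
  rw [Measure.snd, int_map (f := fun p : α × α => f p.1 * g p.2) measurable_snd hm,
    Measure.integral_compProd (int_of_bdd (f := fun p : α × (α × α) => f p.2.1 * g p.2.2)
      (c := c * c') (hm.comp measurable_snd) fun p => mul_bd (hb _) (hb' _))]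
  congr 1
  funext a
  rw [Kernel.prod_apply]
  exact integral_prod_mul f g

end gen

section nf

variable {X : Type} [TopologicalSpace X] [Sys X]

theorem comp_mem {F F' : Type} (e : F' → F) {L : AddSubgroup (F → ℤ)}
    {L' : AddSubgroup (F' → ℤ)} (h : ∀ l ∈ L, l ∘ e ∈ L') {w : F → X} (hw : w ∈ NF X L) :
    w ∘ e ∈ NF X L' := by
  refine map_mem_closure (f := fun w : F → X => w ∘ e)
    (continuous_pi fun i => continuous_apply (e i)) hw ?_
  rintro _ ⟨l, hl, x, rfl⟩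
  exact ⟨l ∘ e, h l hl, x, rfl⟩

theorem const_mem {F : Type} (L : AddSubgroup (F → ℤ)) (x : X) : (fun _ : F => x) ∈ NF X L :=
  subset_closure ⟨0, L.zero_mem, x, (shF_zero _).symm⟩

end nf

section sh3

variable {F : Type} (L : AddSubgroup (F → ℤ)) (γ : F → ℤ)

/-- the first and the second copy -/
def e01 {F : Type} : F ⊕ F → F ⊕ (F ⊕ F) := Sum.elim Sum.inl (Sum.inr ∘ Sum.inl)
/-- the first and the third copy -/
def e02 {F : Type} : F ⊕ F → F ⊕ (F ⊕ F) := Sum.elim Sum.inl (Sum.inr ∘ Sum.inr)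
/-- the second and the third copy -/
def e12 {F : Type} : F ⊕ F → F ⊕ (F ⊕ F) := Sum.inr
/-- the third copy -/
def i2 {F : Type} : F → F ⊕ (F ⊕ F) := Sum.inr ∘ Sum.inr
/-- the second copy is replaced by the first one -/
def et {F : Type} : F ⊕ (F ⊕ F) → F ⊕ (F ⊕ F) :=
  Sum.elim Sum.inl (Sum.elim Sum.inl (Sum.inr ∘ Sum.inr))

variable {L γ}

theorem one_dbl (h : 1 ∈ L) : 1 ∈ dbl L γ := ⟨1, h, 0, fun i => by simp, fun i => by simp⟩

theorem one_tpl (h : 1 ∈ L) : 1 ∈ tpl L γ :=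
  ⟨1, h, 0, 0, fun i => by simp, fun i => by simp, fun i => by simp⟩

theorem pull_inl (l' : F → ℤ) : l' ∈ L ↔ ∃ l ∈ dbl L γ, l' = l ∘ Sum.inl := by
  constructor
  · intro h
    exact ⟨Sum.elim l' l', ⟨l', h, 0, fun i => rfl, fun i => by simp⟩, rfl⟩
  · rintro ⟨l, ⟨k, hk, m, h1, h2⟩, rfl⟩
    have : l ∘ Sum.inl = k := funext h1
    rw [this]
    exact hk

theorem pull01 (l' : F ⊕ F → ℤ) : l' ∈ dbl L γ ↔ ∃ l ∈ tpl L γ, l' = l ∘ e01 := by
  constructor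
  · rintro ⟨k, hk, m, h1, h2⟩
    refine ⟨Sum.elim k (Sum.elim (fun i => k i + m * γ i) fun i => k i + 0 * γ i),
      ⟨k, hk, m, 0, fun i => rfl, fun i => rfl, fun i => rfl⟩, ?_⟩
    funext a
    rcases a with i | i
    · exact h1 i
    · exact h2 i
  · rintro ⟨l, ⟨k, hk, m, m', h1, h2, h3⟩, rfl⟩
    exact ⟨k, hk, m, h1, h2⟩

theorem pull02 (l' : F ⊕ F → ℤ) : l' ∈ dbl L γ ↔ ∃ l ∈ tpl L γ, l' = l ∘ e02 := by
  constructor
  · rintro ⟨k, hk, m, h1, h2⟩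
    refine ⟨Sum.elim k (Sum.elim (fun i => k i + 0 * γ i) fun i => k i + m * γ i),
      ⟨k, hk, 0, m, fun i => rfl, fun i => rfl, fun i => rfl⟩, ?_⟩
    funext a
    rcases a with i | i
    · exact h1 i
    · exact h2 i
  · rintro ⟨l, ⟨k, hk, m, m', h1, h2, h3⟩, rfl⟩
    exact ⟨k, hk, m', h1, h3⟩

theorem zsmul_mem' (hγ : γ ∈ L) (m : ℤ) : (fun i => m * γ i) ∈ L := by
  have := L.zsmul_mem hγ m
  have e : (m • γ) = fun i => m * γ i := funext fun i => by simp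
  rw [← e]
  exact this

theorem pull12 (hγ : γ ∈ L) (l' : F ⊕ F → ℤ) :
    l' ∈ dbl L γ ↔ ∃ l ∈ tpl L γ, l' = l ∘ e12 := by
  constructor
  · rintro ⟨k, hk, m, h1, h2⟩
    refine ⟨Sum.elim k (Sum.elim (fun i => k i + 0 * γ i) fun i => k i + m * γ i),
      ⟨k, hk, 0, m, fun i => rfl, fun i => rfl, fun i => rfl⟩, ?_⟩
    funext a
    rcases a with i | i
    · show l' (Sum.inl i) = k i + 0 * γ i
      rw [h1 i]; ring
    · exact h2 i
  · rintro ⟨l, ⟨k, hk, m, m', h1, h2, h3⟩, rfl⟩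
    refine ⟨k + fun i => m * γ i, L.add_mem hk (zsmul_mem' hγ m), m' - m, fun i => ?_, fun i => ?_⟩
    · exact h2 i
    · show l (Sum.inr (Sum.inr i)) = (k i + m * γ i) + (m' - m) * γ i
      rw [h3 i]; ring

theorem et_mem (l : F ⊕ (F ⊕ F) → ℤ) (hl : l ∈ tpl L γ) : l ∘ et ∈ tpl L γ := by
  obtain ⟨k, hk, m, m', h1, h2, h3⟩ := hl
  exact ⟨k, hk, 0, m', h1, fun i => by
    show l (Sum.inl i) = k i + 0 * γ i
    rw [h1 i]; ring, h3⟩

theorem dup_mem (l : F → ℤ) (hl : l ∈ L) : l ∘ (Sum.elim id id : F ⊕ F → F) ∈ dbl L γ :=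
  ⟨l, hl, 0, fun i => rfl, fun i => by
    show l i = l i + 0 * γ i
    ring⟩

end sh3

section main

variable {X : Type} [TopologicalSpace X] [CompactSpace X] [T2Space X]
  [SecondCountableTopology X] [MeasurableSpace X] [BorelSpace X] [Sys X] [Nonempty X] {K : KT X}

theorem fk (hK : KS K) (F : Type) [Finite F] (L : AddSubgroup (F → ℤ)) (A : Set F) :
    IsFiniteKernel (K F L A) := ⟨1, ENNReal.one_lt_top, hK.le_one F L A⟩

theorem fcn (hK : KS K) {F : Type} [Finite F] (L : AddSubgroup (F → ℤ)) :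
    IsFiniteMeasure (cn K L) := ⟨(hK.le_one F L ∅ _).trans_lt ENNReal.one_lt_top⟩

theorem ae_car (hK : KS K) {F : Type} [Finite F] {L : AddSubgroup (F → ℤ)} (h1 : 1 ∈ L)
    (A : Set F) {w : F → X} (hw : w ∈ NF X L) :
    ∀ᵐ v ∂(K F L A w), v ∈ NF X L ∧ ∀ i ∈ A, v i = w i :=
  ae_iff.2 (hK.car F L h1 A w hw)

theorem cmeas {F F' : Type} (e : F' → F) : Measurable fun v : F → X => v ∘ e :=
  measurable_pi_lambda _ fun i => measurable_pi_apply (e i)

theorem ccont {F F' : Type} (e : F' → F) : Continuous fun v : F → X => v ∘ e :=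
  continuous_pi fun i => continuous_apply (e i)

/-- the function `Φ` -/
noncomputable def Phi (K : KT X) {F : Type} [Finite F] (L : AddSubgroup (F → ℤ)) (γ : F → ℤ)
    (g : C(F → X, ℝ)) (v : F ⊕ (F ⊕ F) → X) : ℝ :=
  ∫ w, g (w ∘ i2) ∂(K (F ⊕ (F ⊕ F)) (tpl L γ) (range e01) v)

theorem Phi_cont (hK : KS K) {F : Type} [Finite F] {L : AddSubgroup (F → ℤ)} {γ : F → ℤ}
    (h1 : 1 ∈ L) (g : C(F → X, ℝ)) : ContinuousOn (Phi K L γ g) (NF X (tpl L γ)) :=
  hK.cont (F ⊕ (F ⊕ F)) (tpl L γ) (one_tpl h1) (range e01) (g.comp ⟨_, ccont i2⟩)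

theorem Phi_sh (hK : KS K) {F : Type} [Finite F] {L : AddSubgroup (F → ℤ)} {γ : F → ℤ}
    (h1 : 1 ∈ L) (g : C(F → X, ℝ)) {l : F ⊕ (F ⊕ F) → ℤ} (hl : l ∈ tpl L γ)
    (h0 : ∀ i, l (i2 i) = 0) {v : F ⊕ (F ⊕ F) → X} (hv : v ∈ NF X (tpl L γ)) :
    Phi K L γ g (shF l v) = Phi K L γ g v := by
  unfold Phi
  rw [hK.equi (F ⊕ (F ⊕ F)) (tpl L γ) (one_tpl h1) (range e01) v hv l hl]
  rw [int_map (f := fun w : F ⊕ (F ⊕ F) → X => g (w ∘ i2)) (continuous_shF l).measurable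
    (g.continuous.comp (ccont i2)).measurable]
  congr 1
  funext w
  congr 1
  funext i
  show sh (l (i2 i)) (w (i2 i)) = w (i2 i)
  rw [h0 i]
  exact AK.sh_zero _

theorem Phi_et (hK : KS K) {F : Type} [Finite F] {L : AddSubgroup (F → ℤ)} {γ : F → ℤ}
    (h1 : 1 ∈ L) (g : C(F → X, ℝ)) {v : F ⊕ (F ⊕ F) → X} (hv : v ∈ NF X (tpl L γ)) :
    Phi K L γ g v = Phi K L γ g (v ∘ et) := by
  have hc1 := Phi_cont hK (L := L) (γ := γ) h1 g
  have hc2 : ContinuousOn (fun v : F ⊕ (F ⊕ F) → X => Phi K L γ g (v ∘ et)) (NF X (tpl L γ)) :=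
    hc1.comp (ccont et).continuousOn fun w hw => comp_mem et et_mem hw
  have hs : EqOn (Phi K L γ g) (fun v : F ⊕ (F ⊕ F) → X => Phi K L γ g (v ∘ et))
      {w | ∃ l ∈ tpl L γ, ∃ x : X, w = shF l fun _ => x} := by
    rintro _ ⟨l, hl, x, rfl⟩
    obtain ⟨k, hk, m, m', e1, e2, e3⟩ := hl
    have hl : l ∈ tpl L γ := ⟨k, hk, m, m', e1, e2, e3⟩
    show Phi K L γ g (shF l fun _ => x) = Phi K L γ g ((shF l fun _ => x) ∘ et)
    have hw : (shF l fun _ => x) ∘ et = (shF (l ∘ et) fun _ => x : F ⊕ (F ⊕ F) → X) := rfl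
    have hsum : l = (Sum.elim (0 : F → ℤ) (Sum.elim (fun i => m * γ i) (0 : F → ℤ))) +
        l ∘ et := by
      funext a
      rcases a with i | i | i
      · show l (Sum.inl i) = 0 + l (Sum.inl i)
        ring
      · show l (Sum.inr (Sum.inl i)) = m * γ i + l (Sum.inl i)
        rw [e1 i, e2 i]; ring
      · show l (Sum.inr (Sum.inr i)) = 0 + l (Sum.inr (Sum.inr i))
        ring
    have hmem : (Sum.elim (0 : F → ℤ) (Sum.elim (fun i => m * γ i) (0 : F → ℤ))) ∈ tpl L γ :=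
      ⟨0, L.zero_mem, m, 0, fun i => rfl, fun i => by simp, fun i => by simp⟩
    have h2 := Phi_sh hK h1 g hmem (fun i => rfl)
      (v := shF (l ∘ et) fun _ => x) (subset_closure ⟨l ∘ et, et_mem l hl, x, rfl⟩)
    rw [← shF_add, ← hsum] at h2
    rw [hw]
    exact h2
  exact hs.of_subset_closure hc1 hc2 subset_closure Subset.rfl hv

theorem Phi_dep (hK : KS K) {F : Type} [Finite F] {L : AddSubgroup (F → ℤ)} {γ : F → ℤ}
    (h1 : 1 ∈ L) (g : C(F → X, ℝ)) {v v' : F ⊕ (F ⊕ F) → X} (hv : v ∈ NF X (tpl L γ))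
    (hv' : v' ∈ NF X (tpl L γ)) (h : ∀ i, v (Sum.inl i) = v' (Sum.inl i)) :
    Phi K L γ g v = Phi K L γ g v' := by
  rw [Phi_et hK h1 g hv, Phi_et hK h1 g hv']
  unfold Phi
  rw [hK.cls (F ⊕ (F ⊕ F)) (tpl L γ) (one_tpl h1) (range e01) (v ∘ et) (comp_mem et et_mem hv)
    (v' ∘ et) (comp_mem et et_mem hv')]
  rintro _ ⟨a, rfl⟩
  rcases a with i | i
  · exact h i
  · exact h i

/-- the law of the second copy, as a kernel -/
noncomputable def kp (K : KT X) {F : Type} [Finite F] (L : AddSubgroup (F → ℤ)) (γ : F → ℤ)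
    (hm : Measurable (Pk K L γ)) : Kernel (F → X) (F → X) := ⟨Pk K L γ, hm⟩

theorem Pk_le (hK : KS K) {F : Type} [Finite F] (L : AddSubgroup (F → ℤ)) (γ : F → ℤ)
    (q : F → X) : Pk K L γ q univ ≤ 1 := by
  unfold Pk
  rw [Measure.map_apply (cmeas _) MeasurableSet.univ, preimage_univ]
  exact hK.le_one _ _ _ _

theorem fkp (hK : KS K) {F : Type} [Finite F] (L : AddSubgroup (F → ℤ)) (γ : F → ℤ)
    (hm : Measurable (Pk K L γ)) : IsFiniteKernel (kp K L γ hm) :=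
  ⟨1, ENNReal.one_lt_top, Pk_le hK L γ⟩

/-- `Φ v = P g (v0)` -/
theorem Phi_eq (hK : KS K) {F : Type} [Finite F] {L : AddSubgroup (F → ℤ)} {γ : F → ℤ}
    (h1 : 1 ∈ L) (g : C(F → X, ℝ)) {v : F ⊕ (F ⊕ F) → X} (hv : v ∈ NF X (tpl L γ)) :
    Phi K L γ g v = ∫ q', g q' ∂(Pk K L γ (v ∘ Sum.inl)) := by
  have f0 := fk hK (F ⊕ (F ⊕ F)) (tpl L γ) (range Sum.inl)
  have f1 := fk hK (F ⊕ (F ⊕ F)) (tpl L γ) (range e01)
  have hb : ∃ c, ∀ q : F → X, |g q| ≤ c := by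
    obtain ⟨c, hc⟩ := (isCompact_range g.continuous).isBounded.exists_norm_le
    exact ⟨c, fun q => hc _ ⟨q, rfl⟩⟩
  obtain ⟨c, hc⟩ := hb
  have hsub : (range Sum.inl : Set (F ⊕ (F ⊕ F))) ⊆ range e01 := by
    rintro _ ⟨i, rfl⟩
    exact ⟨Sum.inl i, rfl⟩
  -- the integral over the law given the first copy
  have e1 : ∫ w, g (w ∘ i2) ∂(K (F ⊕ (F ⊕ F)) (tpl L γ) (range Sum.inl) v) =
      Phi K L γ g v := by
    have h2 := hK.mul (F ⊕ (F ⊕ F)) (tpl L γ) (one_tpl h1) (range Sum.inl) (range e01) hsub v hv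
    calc ∫ w, g (w ∘ i2) ∂(K (F ⊕ (F ⊕ F)) (tpl L γ) (range Sum.inl) v)
        = ∫ w, g (w ∘ i2) ∂((K (F ⊕ (F ⊕ F)) (tpl L γ) (range Sum.inl) v).bind
            (K (F ⊕ (F ⊕ F)) (tpl L γ) (range e01))) := by rw [h2]
      _ = ∫ u, Phi K L γ g u ∂(K (F ⊕ (F ⊕ F)) (tpl L γ) (range Sum.inl) v) :=
          integral_bind' _ (g.continuous.comp (ccont i2)).measurable fun w => hc _
      _ = ∫ _u, Phi K L γ g v ∂(K (F ⊕ (F ⊕ F)) (tpl L γ) (range Sum.inl) v) := by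
          refine integral_congr_ae ?_
          filter_upwards [ae_car hK (one_tpl h1) (range Sum.inl) hv] with u hu
          exact Phi_dep hK h1 g hu.1 hv fun i => hu.2 _ ⟨i, rfl⟩
      _ = Phi K L γ g v := by
          rw [integral_const, Measure.real,
            hK.prob (F ⊕ (F ⊕ F)) (tpl L γ) (one_tpl h1) (range Sum.inl) v hv]
          simp
  -- naturality
  have hr : (range Sum.inl : Set (F ⊕ (F ⊕ F))) ⊆ range e02 := by
    rintro _ ⟨i, rfl⟩
    exact ⟨Sum.inl i, rfl⟩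
  have h3 := hK.nat (F ⊕ (F ⊕ F)) (F ⊕ F) e02 (tpl L γ) (dbl L γ) (one_tpl h1) pull02
    (range Sum.inl) hr v hv
  have hpre : (e02 ⁻¹' (range Sum.inl) : Set (F ⊕ F)) = range Sum.inl := by
    ext a
    rcases a with i | i
    · constructor
      · intro _; exact ⟨i, rfl⟩
      · intro _; exact ⟨i, rfl⟩
    · constructor
      · rintro ⟨j, hj⟩
        exact absurd hj (by simp [e02])
      · rintro ⟨j, hj⟩
        exact absurd hj (by simp)
  rw [hpre] at h3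
  have hcl : K (F ⊕ F) (dbl L γ) (range Sum.inl) (v ∘ e02) =
      K (F ⊕ F) (dbl L γ) (range Sum.inl) (Sum.elim (v ∘ Sum.inl) (v ∘ Sum.inl)) := by
    refine hK.cls (F ⊕ F) (dbl L γ) (one_dbl h1) (range Sum.inl) _ ?_ _ ?_ ?_
    · exact comp_mem e02 (fun l hl => (pull02 _).2 ⟨l, hl, rfl⟩) hv
    · have h4 : v ∘ Sum.inl ∈ NF X L := comp_mem Sum.inl (fun l hl => by
        obtain ⟨k, hk, m, m', e1, e2, e3⟩ := hl
        have : l ∘ Sum.inl = k := funext e1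
        rw [this]
        exact hk) hv
      have h5 := comp_mem (Sum.elim id id : F ⊕ F → F) (dup_mem (γ := γ)) h4
      have h6 : (v ∘ Sum.inl) ∘ (Sum.elim id id : F ⊕ F → F) =
          Sum.elim (v ∘ Sum.inl) (v ∘ Sum.inl) := by
        funext a
        rcases a with i | i <;> rfl
      rw [← h6]
      exact h5
    · rintro _ ⟨i, rfl⟩
      rfl
  rw [← e1]
  unfold Pk
  rw [int_map (cmeas _) g.continuous.measurable, ← hcl, ← h3,
    int_map (f := fun w : F ⊕ F → X => g (w ∘ Sum.inr)) (cmeas _)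
      (g.continuous.comp (ccont _)).measurable]
  rfl

/-- the image of the canonical measure under a natural map -/
theorem cn_map (hK : KS K) {F F' : Type} [Finite F] [Finite F'] (e : F' → F)
    (L : AddSubgroup (F → ℤ)) (L' : AddSubgroup (F' → ℤ)) (h1 : 1 ∈ L)
    (h : ∀ l', l' ∈ L' ↔ ∃ l ∈ L, l' = l ∘ e) :
    (cn K L).map (fun v => v ∘ e) = cn K L' := by
  have := hK.nat F F' e L L' h1 h ∅ (empty_subset _) (fun _ => Classical.arbitrary X)
    (const_mem L _)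
  rw [preimage_empty] at this
  exact this

theorem key (hK : KS K) {F : Type} [Finite F] {L : AddSubgroup (F → ℤ)} {γ : F → ℤ}
    (h1 : 1 ∈ L) (hγ : γ ∈ L) (κ : Kernel (F → X) (F → X)) [IsFiniteKernel κ]
    (hκ : ∀ q, κ q = Pk K L γ q)
    (hν : (cn K (dbl L γ)).map (fun v => (v ∘ Sum.inl, v ∘ Sum.inr)) = (cn K L) ⊗ₘ κ)
    (f g : C(F → X, ℝ)) :
    ∫ q, (∫ q', f q' ∂(κ q)) * (∫ q', g q' ∂(κ q)) ∂(cn K L) =
      ∫ q, f q * (∫ q', g q' ∂(κ q)) ∂(cn K L) := by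
  have fL := fcn hK L
  have fD := fcn hK (dbl L γ)
  have fT := fcn hK (tpl L γ)
  have f1 := fk hK (F ⊕ (F ⊕ F)) (tpl L γ) (range e01)
  have hbd : ∀ u : C(F → X, ℝ), ∃ c, 0 ≤ c ∧ ∀ q : F → X, |u q| ≤ c := by
    intro u
    obtain ⟨c, hc⟩ := (isCompact_range u.continuous).isBounded.exists_norm_le
    exact ⟨max c 0, le_max_right _ _, fun q => (hc _ ⟨q, rfl⟩).trans (le_max_left _ _)⟩
  obtain ⟨c, hc0, hc⟩ := hbd f
  obtain ⟨c', hc0', hc'⟩ := hbd g
  set Pg : (F → X) → ℝ := fun q => ∫ q', g q' ∂(κ q) with hPg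
  have hPgm : Measurable Pg := meas_int κ g.continuous.measurable
  have hPgb : ∀ q, |Pg q| ≤ c' := fun q => int_le (by rw [hκ]; exact Pk_le hK L γ q) hc0' hc'
  have hfm : Measurable f := f.continuous.measurable
  have hgm : Measurable g := g.continuous.measurable
  have hpr : Measurable fun v : F ⊕ F → X => (v ∘ Sum.inl, v ∘ Sum.inr) :=
    (cmeas _).prodMk (cmeas _)
  have hae : ∀ᵐ v ∂(cn K (tpl L γ)), v ∈ NF X (tpl L γ) := by
    filter_upwards [ae_car hK (one_tpl (γ := γ) h1) ∅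
      (const_mem (tpl L γ) (Classical.arbitrary X))] with v hv
    exact hv.1
  -- A, B
  have eA : ∫ q, (∫ q', f q' ∂(κ q)) * Pg q ∂(cn K L) =
      ∫ v, f (v ∘ Sum.inr) * Pg (v ∘ Sum.inl) ∂(cn K (dbl L γ)) := by
    rw [← L3 κ hfm hPgm hc hPgb, ← hν]
    exact int_map (f := fun p : (F → X) × (F → X) => f p.2 * Pg p.1) hpr
      ((hfm.comp measurable_snd).mul (hPgm.comp measurable_fst))
  -- C
  have eC : ∫ v, f (v ∘ Sum.inr) * Pg (v ∘ Sum.inl) ∂(cn K (dbl L γ)) =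
      ∫ v, f ((v ∘ e01) ∘ Sum.inr) * Pg ((v ∘ e01) ∘ Sum.inl) ∂(cn K (tpl L γ)) := by
    rw [← cn_map hK e01 (tpl L γ) (dbl L γ) (one_tpl h1) pull01]
    exact int_map (f := fun v : F ⊕ F → X => f (v ∘ Sum.inr) * Pg (v ∘ Sum.inl)) (cmeas _)
      ((hfm.comp (cmeas _)).mul (hPgm.comp (cmeas _)))
  -- D
  have eD : ∫ v, f ((v ∘ e01) ∘ Sum.inr) * Pg ((v ∘ e01) ∘ Sum.inl) ∂(cn K (tpl L γ)) =
      ∫ v, f ((v ∘ e01) ∘ Sum.inr) * Phi K L γ g v ∂(cn K (tpl L γ)) := by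
    refine integral_congr_ae ?_
    filter_upwards [hae] with v hv
    rw [Phi_eq hK h1 g hv, hPg]
    simp only [hκ]
    rfl
  -- E
  have hfg : Measurable fun w : F ⊕ (F ⊕ F) → X => f ((w ∘ e01) ∘ Sum.inr) * g (w ∘ i2) :=
    (hfm.comp ((cmeas (X := X) Sum.inr).comp (cmeas e01))).mul (hgm.comp (cmeas _))
  have eE : ∫ v, f ((v ∘ e01) ∘ Sum.inr) * Phi K L γ g v ∂(cn K (tpl L γ)) =
      ∫ v, f ((v ∘ e01) ∘ Sum.inr) * g (v ∘ i2) ∂(cn K (tpl L γ)) := by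
    have h2 := hK.mul (F ⊕ (F ⊕ F)) (tpl L γ) (one_tpl h1) ∅ (range e01) (empty_subset _)
      (fun _ => Classical.arbitrary X) (const_mem _ _)
    have h3 : (cn K (tpl L γ)).bind (K (F ⊕ (F ⊕ F)) (tpl L γ) (range e01)) =
      cn K (tpl L γ) := h2
    have h4 := integral_bind' (μ := cn K (tpl L γ)) (K (F ⊕ (F ⊕ F)) (tpl L γ) (range e01)) hfg
      (c := c * c') fun w => mul_bd (hc _) (hc' _)
    rw [h3] at h4
    rw [h4]
    refine integral_congr_ae ?_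
    filter_upwards [hae] with v hv
    have h5 : ∀ᵐ w ∂(K (F ⊕ (F ⊕ F)) (tpl L γ) (range e01) v),
        f ((w ∘ e01) ∘ Sum.inr) * g (w ∘ i2) = f ((v ∘ e01) ∘ Sum.inr) * g (w ∘ i2) := by
      filter_upwards [ae_car hK (one_tpl (γ := γ) h1) (range e01) hv] with w hw
      have : w ∘ e01 = v ∘ e01 := funext fun i => hw.2 _ ⟨i, rfl⟩
      rw [this]
    rw [integral_congr_ae h5]
    exact (integral_const_mul _ _).symm
  -- F
  have eF : ∫ v, f ((v ∘ e01) ∘ Sum.inr) * g (v ∘ i2) ∂(cn K (tpl L γ)) =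
      ∫ v, f (v ∘ Sum.inl) * g (v ∘ Sum.inr) ∂(cn K (dbl L γ)) := by
    rw [← cn_map hK e12 (tpl L γ) (dbl L γ) (one_tpl h1) (pull12 hγ)]
    exact (int_map (f := fun v : F ⊕ F → X => f (v ∘ Sum.inl) * g (v ∘ Sum.inr)) (cmeas _)
      ((hfm.comp (cmeas _)).mul (hgm.comp (cmeas _)))).symm
  have eG : ∫ v, f (v ∘ Sum.inl) * g (v ∘ Sum.inr) ∂(cn K (dbl L γ)) =
      ∫ q, f q * Pg q ∂(cn K L) := by
    rw [hPg, ← L1 κ hfm hgm hc hc', ← hν]
    exact (int_map (f := fun p : (F → X) × (F → X) => f p.1 * g p.2) hpr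
      ((hfm.comp measurable_fst).mul (hgm.comp measurable_snd))).symm
  rw [eA, eC, eD, eE, eF, eG]

end main

end D_PK3

open D_PK3 in
theorem PK3_pf (hPK1 : S_PK1) : S_PK3 := by
  intro X _ _ _ _ _ _ _ _ K hK F _ L γ h1 hγ f g hf hg hfb hgb
  obtain ⟨hm, -, hH⟩ := hPK1 X K hK F L γ h1 hγ
  have fκ : IsFiniteKernel (kp K L γ hm) := fkp hK L γ hm
  have fL := fcn hK L
  have fD := fcn hK (dbl L γ)
  have hpr : Measurable fun v : F ⊕ F → X => (v ∘ Sum.inl, v ∘ Sum.inr) :=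
    (cmeas _).prodMk (cmeas _)
  have hν : (cn K (dbl L γ)).map (fun v => (v ∘ Sum.inl, v ∘ Sum.inr)) =
      (cn K L) ⊗ₘ (kp K L γ hm) := by
    refine Measure.ext fun s hs => ?_
    rw [← lintegral_indicator_one hs, ← lintegral_indicator_one hs,
      lintegral_map (measurable_one.indicator hs) hpr,
      Measure.lintegral_compProd (measurable_one.indicator hs)]
    exact hH (s.indicator 1) (measurable_one.indicator hs)
  have hM : (cn K L) ⊗ₘ (kp K L γ hm) =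
      ((cn K L) ⊗ₘ ((kp K L γ hm) ×ₖ (kp K L γ hm))).snd := by
    refine Measure.ext_of_integral_mul_boundedContinuousFunction fun u v => ?_
    have hu : ∀ x, |u x| ≤ ‖u‖ := fun x => u.norm_coe_le_norm x
    have hv : ∀ x, |v x| ≤ ‖v‖ := fun x => v.norm_coe_le_norm x
    rw [L1 _ u.continuous.measurable v.continuous.measurable hu hv,
      L2 _ u.continuous.measurable v.continuous.measurable hu hv]
    exact (key hK h1 hγ (kp K L γ hm) (fun q => rfl) hν ⟨u, u.continuous⟩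
      ⟨v, v.continuous⟩).symm
  have e1 := L1 (μ := cn K L) (kp K L γ hm) hf hg hfb hgb
  have e2 := L2 (μ := cn K L) (kp K L γ hm) hf hg hfb hgb
  rw [hM] at e1
  exact e2.symm.trans e1

end Pool.Agent.Work.MP_69fea5_lc.W3D
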