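import Pool.Agent.Work.MP_69fea5_lc.W3.StmtsD

/-!
# [69fea5 D STF] full support in the one step lemma
-/

set_option autoImplicit false

namespace Pool.Agent.Work.MP_69fea5_lc.W3D

open MeasureTheory Topology Set Filter
open ProbabilityTheory (Kernel)
open scoped ENNReal NNReal

theorem STF_pf (hCON : S_CON) : S_STF := by
  intro G W _ _ _ _ _ _ _ a ha hmin E E' ρ hI κ' κ hκ' hκ hsat hfull x y hxy U hU hyU
  obtain ⟨f, hf0, hf1, hf01⟩ := exists_continuous_zero_one_of_isClosed (X := W)
    hU.isClosed_compl (isClosed_singleton (x := y)) (by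
      rw [Set.disjoint_singleton_right]
      exact fun h => h hyU)
  have Eyy : ∀ z, E z z := hI.eqv.refl
  have E'y : E' y y := (hI.zero y y).2 ⟨Eyy y, hI.self y⟩
  have fint : ∀ μ : ProbabilityMeasure W, Integrable (fun v => f v) (μ : Measure W) := fun μ =>
    (BoundedContinuousFunction.mkOfCompact f).integrable (μ : Measure W)
  set F : W → ℝ := fun z => ∫ v, f v ∂(κ' z : Measure W) with hF
  have Fcont : Continuous F := by
    have h1 : Continuous fun μ : ProbabilityMeasure W => ∫ v, f v ∂(μ : Measure W) :=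
      ProbabilityMeasure.continuous_integral_boundedContinuousFunction
        (BoundedContinuousFunction.mkOfCompact f)
    exact h1.comp hκ'.cont
  have Fnn : ∀ z, 0 ≤ F z := fun z => integral_nonneg fun v => (hf01 v).1
  have Fint : ∀ μ : ProbabilityMeasure W, Integrable F (μ : Measure W) := fun μ =>
    (BoundedContinuousFunction.mkOfCompact ⟨F, Fcont⟩).integrable (μ : Measure W)
  have Fy : 0 < F y := by
    have := (integral_pos_iff_support_of_nonneg (μ := (κ' y : Measure W)) (f := fun v => f v)
      (fun v => (hf01 v).1) (fint _)).2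
    apply this
    apply hfull y y E'y _ (f.continuous.isOpen_support)
    have : f y = 1 := hf1 rfl
    simp [Function.mem_support, this]
  by_contra hcon
  have hU0 : (κ x : Measure W) U = 0 := by
    rcases eq_or_ne ((κ x : Measure W) U) 0 with h | h
    · exact h
    · exact (hcon (pos_iff_ne_zero.2 h)).elim
  have hf_zero : ∫ v, f v ∂(κ x : Measure W) = 0 := by
    apply integral_eq_zero_of_ae
    have : ∀ᵐ v ∂(κ x : Measure W), v ∉ U := by
      rw [ae_iff]
      simpa using hU0
    filter_upwards [this] with v hv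
    exact hf0 hv
  have hFz : ∫ z, F z ∂(κ x : Measure W) = 0 := by rw [hsat x f, hf_zero]
  have hFae : F =ᵐ[(κ x : Measure W)] 0 := (integral_eq_zero_iff_of_nonneg Fnn (Fint _)).1 hFz
  have hEae : ∀ᵐ z ∂(κ x : Measure W), E x z := by
    rw [ae_iff]
    exact hκ.car x
  -- the set Z
  set Z : Set W := {z | E x z ∧ F z ≤ 0} with hZ
  have hZc : IsClosed Z := by
    have h1 : IsClosed {z | E x z} :=
      hI.closed.preimage (f := fun z : W => (x, z)) (Continuous.prodMk continuous_const continuous_id)
    exact h1.inter (isClosed_le Fcont continuous_const)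
  have hzy : ∀ z, E x z → E z y := fun z hz => hI.eqv.trans (hI.eqv.symm hz) hxy
  have hpos : ∀ z ∈ Z, 0 < ρ z y := by
    rintro z ⟨hz, hFz'⟩
    rcases (hI.nonneg z y (hzy z hz)).lt_or_eq with h | h
    · exact h
    · exfalso
      have : E' z y := (hI.zero z y).2 ⟨hzy z hz, h.symm⟩
      have e : F z = F y := by rw [hF]; simp only; rw [hκ'.cls z y this]
      linarith
  have hδ : ∃ δ : ℝ, 0 < δ ∧ ∀ z ∈ Z, δ ≤ ρ z y := by
    rcases Z.eq_empty_or_nonempty with h | h
    · exact ⟨1, one_pos, fun z hz => by rw [h] at hz; exact hz.elim⟩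
    · have hc : ContinuousOn (fun z => ρ z y) Z := by
        have := hI.cont.comp (f := fun z : W => (z, y)) (s := Z)
          (Continuous.prodMk continuous_id continuous_const).continuousOn
          (fun z hz => hzy z hz.1)
        exact this
      obtain ⟨z0, hz0, hm⟩ := hZc.isCompact.exists_isMinOn h hc
      exact ⟨ρ z0 y, hpos z0 hz0, fun z hz => hm hz⟩
  obtain ⟨δ, hδ, hδZ⟩ := hδ
  obtain ⟨c, hc, h⟩ := hCON G W a ha hmin E E' ρ hI κ hκ δ hδ
  have h1 := h y
  rw [← hκ.cls x y hxy] at h1
  have h2 : ∫ z, max 0 (δ - ρ z y) ∂(κ x : Measure W) = 0 := by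
    apply integral_eq_zero_of_ae
    filter_upwards [hFae, hEae] with z hz1 hz2
    have : z ∈ Z := ⟨hz2, le_of_eq hz1⟩
    have := hδZ z this
    change max 0 (δ - ρ z y) = 0
    exact max_eq_left (by linarith)
  linarith

end Pool.Agent.Work.MP_69fea5_lc.W3D
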