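import Pool.Agent.Work.MP_69fea5_lc.W3.StmtsD

/-!
# Block [69fea5 N], part D, item STU: uniqueness in the one step lemma
-/

set_option autoImplicit false

namespace Pool.Agent.Work.MP_69fea5_lc.W3D

open MeasureTheory Topology Set Filter
open ProbabilityTheory (Kernel)
open scoped ENNReal NNReal
open Pool.Agent.Work.MP_69fea5_lc.AK (Sys sh orb)

namespace D_STU

/-- step (1): continuous functions constant on the `E'`-classes are uniformly continuous for `ρ` -/
theorem modulus {G W : Type} [TopologicalSpace W] [CompactSpace W] {a : G → W → W}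
    {E E' : W → W → Prop} {ρ : W → W → ℝ} (hI : Iso1 a E E' ρ) (f : C(W, ℝ))
    (hf : ∀ x y, E' x y → f x = f y) (ε : ℝ) (hε : 0 < ε) :
    ∃ δ : ℝ, 0 < δ ∧ ∀ x y, E x y → ρ x y < δ → |f x - f y| ≤ ε := by
  set K : Set (W × W) := {p | E p.1 p.2} ∩ {p | ε ≤ |f p.1 - f p.2|} with hK
  have hc : IsClosed K := by
    refine hI.closed.inter (isClosed_le continuous_const ?_)
    exact ((f.continuous.comp continuous_fst).sub (f.continuous.comp continuous_snd)).abs
  rcases K.eq_empty_or_nonempty with h | h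
  · refine ⟨1, one_pos, fun x y hxy _ => ?_⟩
    by_contra hcon
    push Not at hcon
    have : (x, y) ∈ K := ⟨hxy, hcon.le⟩
    rw [h] at this
    exact this
  · obtain ⟨p, hp, hmin⟩ := hc.isCompact.exists_isMinOn h (hI.cont.mono inter_subset_left)
    have hpos : 0 < ρ p.1 p.2 := by
      rcases (hI.nonneg p.1 p.2 hp.1).lt_or_eq with h1 | h1
      · exact h1
      · exfalso
        have h2 := hf p.1 p.2 ((hI.zero p.1 p.2).2 ⟨hp.1, h1.symm⟩)
        have h3 : ε ≤ |f p.1 - f p.2| := hp.2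
        rw [h2, sub_self, abs_zero] at h3
        linarith
    refine ⟨ρ p.1 p.2, hpos, fun x y hxy hρ => ?_⟩
    by_contra hcon
    push Not at hcon
    have h4 : ρ p.1 p.2 ≤ ρ x y := hmin (show (x, y) ∈ K from ⟨hxy, hcon.le⟩)
    linarith

/-- the cut-off function extended to all pairs -/
theorem tietze {G W : Type} [TopologicalSpace W] [CompactSpace W] [T2Space W] {a : G → W → W}
    {E E' : W → W → Prop} {ρ : W → W → ℝ} (hI : Iso1 a E E' ρ) (δ : ℝ) :
    ∃ Ψ : C(W × W, ℝ), ∀ x y, E x y → Ψ (x, y) = max 0 (δ - ρ x y) := by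
  have hcont : ContinuousOn (fun p : W × W => max 0 (δ - ρ p.1 p.2)) {p | E p.1 p.2} :=
    continuousOn_const.sup (continuousOn_const.sub hI.cont)
  obtain ⟨Ψ, hΨ⟩ := ContinuousMap.exists_restrict_eq hI.closed
    (⟨_, continuousOn_iff_continuous_domRestrict.1 hcont⟩ : C({p : W × W | E p.1 p.2}, ℝ))
  refine ⟨Ψ, fun x y hxy => ?_⟩
  have h := DFunLike.congr_fun hΨ ⟨(x, y), hxy⟩
  exact h

theorem integrable_cont {W : Type} [TopologicalSpace W] [CompactSpace W]
    [MeasurableSpace W] [BorelSpace W] (μ : Measure W) [IsFiniteMeasure μ] {f : W → ℝ}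
    (hf : Continuous f) (hs : SecondCountableTopology W) : Integrable f μ := by
  obtain ⟨C, hC⟩ := (isCompact_range hf).isBounded.exists_norm_le
  exact Integrable.of_bound hf.aestronglyMeasurable C
    (Eventually.of_forall fun x => hC _ ⟨x, rfl⟩)

section

variable {G W : Type} [AddGroup G] [TopologicalSpace W] [CompactSpace W] [T2Space W]
  [SecondCountableTopology W] [MeasurableSpace W] [BorelSpace W] {a : G → W → W}
  {E E' : W → W → Prop} {ρ : W → W → ℝ}

theorem key (hI : Iso1 a E E' ρ) (κ₁ κ₂ : W → ProbabilityMeasure W) (h1 : Ker a E κ₁)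
    (h2 : Ker a E κ₂) (hC1 : ∀ δ : ℝ, 0 < δ → ∃ c : ℝ, 0 < c ∧ ∀ y,
      ∫ x, max 0 (δ - ρ x y) ∂(κ₁ y : Measure W) = c)
    (hC2 : ∀ δ : ℝ, 0 < δ → ∃ c : ℝ, 0 < c ∧ ∀ y,
      ∫ x, max 0 (δ - ρ x y) ∂(κ₂ y : Measure W) = c) (f : C(W, ℝ))
    (hf : ∀ x y, E' x y → f x = f y) (y : W) :
    ∫ x, f x ∂(κ₁ y : Measure W) = ∫ x, f x ∂(κ₂ y : Measure W) := by
  have hmain : ∀ ε : ℝ, 0 < ε →
      |∫ x, f x ∂(κ₂ y : Measure W) - ∫ x, f x ∂(κ₁ y : Measure W)| ≤ ε := by
    intro ε hε
    obtain ⟨δ, hδ, hmod⟩ := modulus hI f hf ε hε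
    obtain ⟨c₁, hc₁, hc1⟩ := hC1 δ hδ
    obtain ⟨c₂, hc₂, hc2⟩ := hC2 δ hδ
    obtain ⟨Ψ, hΨ⟩ := tietze hI δ
    set μ : Measure W := (κ₁ y : Measure W) with hμ
    set ν : Measure W := (κ₂ y : Measure W) with hν
    have aμ : ∀ᵐ x ∂μ, E y x := by
      rw [ae_iff]; exact h1.car y
    have aν : ∀ᵐ x ∂ν, E y x := by
      rw [ae_iff]; exact h2.car y
    have hcont : Continuous fun p : W × W => f p.1 * Ψ p :=
      (f.continuous.comp continuous_fst).mul Ψ.continuous
    -- the inner integrals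
    have i1 : ∀ x', E y x' → ∫ x, Ψ (x, x') ∂μ = c₁ := by
      intro x' hx'
      rw [← hc1 x', ← h1.cls y x' hx']
      refine integral_congr_ae ?_
      filter_upwards [aμ] with x hx
      exact hΨ x x' (hI.eqv.trans (hI.eqv.symm hx) hx')
    have i2 : ∀ x, E y x → ∫ x', Ψ (x, x') ∂ν = c₂ := by
      intro x hx
      rw [← hc2 x, ← h2.cls y x hx]
      refine integral_congr_ae ?_
      filter_upwards [aν] with x' hx'
      have h3 : E x x' := hI.eqv.trans (hI.eqv.symm hx) hx'
      rw [hΨ x x' h3, hI.symm x x' h3]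
    have hsw : ∀ g : C(W, ℝ), ∫ x', ∫ x, g x * Ψ (x, x') ∂μ ∂ν =
        c₂ * ∫ x, g x ∂μ := by
      intro g
      have hcg : Continuous fun p : W × W => g p.1 * Ψ p :=
        (g.continuous.comp continuous_fst).mul Ψ.continuous
      have e1 : ∫ x', ∫ x, g x * Ψ (x, x') ∂μ ∂ν = ∫ x, ∫ x', g x * Ψ (x, x') ∂ν ∂μ := by
        refine (integral_integral_swap (f := fun x x' => g x * Ψ (x, x')) ?_).symm
        exact integrable_cont (μ.prod ν) hcg inferInstance
      rw [e1, ← integral_const_mul]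
      refine integral_congr_ae ?_
      filter_upwards [aμ] with x hx
      rw [integral_const_mul, i2 x hx, mul_comm]
    have hcc : c₁ = c₂ := by
      have e2 := hsw 1
      have e3 : ∫ x', ∫ x, (1 : C(W, ℝ)) x * Ψ (x, x') ∂μ ∂ν = ∫ x', c₁ ∂ν := by
        refine integral_congr_ae ?_
        filter_upwards [aν] with x' hx'
        rw [← i1 x' hx']
        refine integral_congr_ae (Eventually.of_forall fun x => ?_)
        simp
      rw [e3, integral_const] at e2
      simpa using e2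
    -- the estimate
    have hest : ∀ᵐ x' ∂ν, ‖c₁ * f x' - ∫ x, f x * Ψ (x, x') ∂μ‖ ≤ ε * c₁ := by
      filter_upwards [aν] with x' hx'
      have hΨc : Continuous fun x => Ψ (x, x') :=
        Ψ.continuous.comp (continuous_id.prodMk continuous_const)
      have e4 : c₁ * f x' - ∫ x, f x * Ψ (x, x') ∂μ = ∫ x, (f x' - f x) * Ψ (x, x') ∂μ := by
        have e5 : ∫ x, (f x' - f x) * Ψ (x, x') ∂μ =
            ∫ x, f x' * Ψ (x, x') ∂μ - ∫ x, f x * Ψ (x, x') ∂μ := by
          have j1 : Integrable (fun x => f x' * Ψ (x, x')) μ :=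
            integrable_cont μ (continuous_const.mul hΨc) inferInstance
          have j2 : Integrable (fun x => f x * Ψ (x, x')) μ :=
            integrable_cont μ (f.continuous.mul hΨc) inferInstance
          rw [← integral_sub j1 j2]
          refine integral_congr_ae (Eventually.of_forall fun x => ?_)
          simp only
          ring
        rw [e5, integral_const_mul, i1 x' hx', mul_comm]
      rw [e4]
      have e6 : ∀ᵐ x ∂μ, ‖(f x' - f x) * Ψ (x, x')‖ ≤ ε * Ψ (x, x') := by
        filter_upwards [aμ] with x hx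
        have h3 : E x x' := hI.eqv.trans (hI.eqv.symm hx) hx'
        rw [norm_mul, Real.norm_eq_abs, Real.norm_eq_abs, hΨ x x' h3,
          abs_of_nonneg (le_max_left 0 (δ - ρ x x'))]
        by_cases h4 : ρ x x' < δ
        · have h5 := hmod x x' h3 h4
          rw [abs_sub_comm] at h5
          exact mul_le_mul_of_nonneg_right h5 (le_max_left _ _)
        · have h6 : max 0 (δ - ρ x x') = 0 := max_eq_left (by linarith)
          rw [h6, mul_zero, mul_zero]
      refine (norm_integral_le_of_norm_le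
        ((integrable_cont μ hΨc inferInstance).const_mul ε) e6).trans ?_
      rw [integral_const_mul, i1 x' hx']
    have hfin : ‖∫ x', (c₁ * f x' - ∫ x, f x * Ψ (x, x') ∂μ) ∂ν‖ ≤ ε * c₁ := by
      have h7 := norm_integral_le_of_norm_le_const (μ := ν) hest
      simpa using h7
    have hsplit : ∫ x', (c₁ * f x' - ∫ x, f x * Ψ (x, x') ∂μ) ∂ν =
        c₁ * (∫ x, f x ∂ν - ∫ x, f x ∂μ) := by
      rw [integral_sub, integral_const_mul, hsw f, ← hcc]
      · ring
      · exact (integrable_cont ν f.continuous inferInstance).const_mul c₁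
      · exact (integrable_cont (μ.prod ν) hcont inferInstance).integral_prod_right
    rw [hsplit, norm_mul, Real.norm_eq_abs, Real.norm_eq_abs, abs_of_pos hc₁, mul_comm ε] at hfin
    exact le_of_mul_le_mul_left hfin hc₁
  have h0 : |∫ x, f x ∂(κ₂ y : Measure W) - ∫ x, f x ∂(κ₁ y : Measure W)| ≤ 0 :=
    le_of_forall_pos_le_add fun ε hε => by
      rw [zero_add]
      exact hmain ε hε
  have h1 := abs_nonpos_iff.1 h0
  linarith

end

end D_STU

open D_STU in
/-- [STU] -/
theorem STU_pf (hCON : S_CON) : S_STU := by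
  intro G W _ _ _ _ _ _ _ a hA hM E E' ρ hI κ' κ₁ κ₂ h' h1 h2 hs1 hs2
  have hk := key hI κ₁ κ₂ h1 h2 (fun δ hδ => hCON G W a hA hM E E' ρ hI κ₁ h1 δ hδ)
    (fun δ hδ => hCON G W a hA hM E E' ρ hI κ₂ h2 δ hδ)
  funext y
  apply Subtype.ext
  show (κ₁ y : Measure W) = (κ₂ y : Measure W)
  refine ext_of_forall_integral_eq_of_IsFiniteMeasure fun g => ?_
  have hc : Continuous fun x => ∫ z, g z ∂(κ' x : Measure W) :=
    (ProbabilityMeasure.continuous_integral_boundedContinuousFunction g).comp h'.cont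
  have h3 := hk ⟨_, hc⟩ (fun x z hxz => by
    show ∫ z, g z ∂(κ' x : Measure W) = ∫ w, g w ∂(κ' z : Measure W)
    rw [h'.cls x z hxz]) y
  have h4 := hs1 y g.toContinuousMap
  have h5 := hs2 y g.toContinuousMap
  exact h4.symm.trans (h3.trans h5)

end Pool.Agent.Work.MP_69fea5_lc.W3D
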