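import Pool.Agent.Work.MP_69fea5_lc.W3.StmtsD

set_option autoImplicit false

namespace Pool.Agent.Work.MP_69fea5_lc.W3D

open MeasureTheory Topology Set Filter
open ProbabilityTheory (Kernel)
open scoped ENNReal NNReal
open Pool.Agent.Work.MP_69fea5_lc.AK (Sys sh orb)

/-- TWE. The relations of a tower. -/
theorem TWE_pf : S_TWE := by
  intro X _ _ h E ρ hT l hl
  refine ⟨?_, ?_, ?_, ?_⟩
  · cases l with
    | zero => exact ⟨fun x => hT.bot x x, fun _ => hT.bot _ _, fun _ _ => hT.bot _ _⟩
    | succ l =>
      have s := hT.step l (by omega)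
      refine ⟨fun x => (s.zero x x).mpr ⟨s.eqv.refl x, s.self x⟩, ?_, ?_⟩
      · intro x y hxy
        obtain ⟨h1, h2⟩ := (s.zero x y).mp hxy
        exact (s.zero y x).mpr ⟨s.eqv.symm h1, by rw [← s.symm x y h1, h2]⟩
      · intro x y z hxy hyz
        obtain ⟨h1, h2⟩ := (s.zero x y).mp hxy
        obtain ⟨h3, h4⟩ := (s.zero y z).mp hyz
        have h5 := s.eqv.trans h1 h3
        refine (s.zero x z).mpr ⟨h5, le_antisymm ?_ (s.nonneg x z h5)⟩
        have h6 := s.tri x y z h1 h3
        rw [h2, h4, add_zero] at h6
        exact h6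
  · cases l with
    | zero =>
      have : {p : X × X | E 0 p.1 p.2} = univ := by
        ext p
        simp [hT.bot]
      rw [this]
      exact isClosed_univ
    | succ l =>
      have s := hT.step l (by omega)
      have h1 : {p : X × X | E (l + 1) p.1 p.2} =
          {p : X × X | E l p.1 p.2} ∩ (fun p : X × X => ρ l p.1 p.2) ⁻¹' {0} := by
        ext p
        exact s.zero p.1 p.2
      rw [h1]
      exact s.cont.preimage_isClosed_of_isClosed s.closed isClosed_singleton
  · intro n x y hxy
    cases l with
    | zero => exact hT.bot _ _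
    | succ l =>
      have s := hT.step l (by omega)
      obtain ⟨h1, h2⟩ := (s.zero x y).mp hxy
      exact (s.zero _ _).mpr ⟨s.inv n x y h1, by rw [s.rinv n x y h1, h2]⟩
  · intro l' hl'
    induction l, hl' using Nat.le_induction with
    | base => exact fun _ _ h => h
    | succ m hm ih =>
      intro x y hxy
      have s := hT.step m (by omega)
      exact ih (by omega) x y ((s.zero x y).mp hxy).1

end Pool.Agent.Work.MP_69fea5_lc.W3D
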