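import Pool.Agent.Work.MP_69fea5_lc.W3.StmtsD

/-!
Item USC: pairs of a point and a measure carried by the section of a closed set.
-/

set_option autoImplicit false

namespace Pool.Agent.Work.MP_69fea5_lc.W3D

open MeasureTheory Topology Set Filter
open scoped ENNReal NNReal

namespace D_USC

/-- open sets of positive measure stay of positive measure -/
theorem eventually_pos {W : Type} [TopologicalSpace W] [CompactSpace W] [T2Space W]
    [SecondCountableTopology W] [MeasurableSpace W] [BorelSpace W] (m : ProbabilityMeasure W)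
    {U : Set W} (hU : IsOpen U) (h : (m : Measure W) U ≠ 0) :
    ∀ᶠ m' : ProbabilityMeasure W in 𝓝 m, (m' : Measure W) U ≠ 0 := by
  letI := TopologicalSpace.metrizableSpaceMetric W
  have h1 : (m : Measure W) U ≤
      (𝓝 m).liminf fun m' : ProbabilityMeasure W => (m' : Measure W) U :=
    ProbabilityMeasure.le_liminf_measure_open_of_tendsto tendsto_id hU
  have h2 : 0 < (𝓝 m).liminf fun m' : ProbabilityMeasure W => (m' : Measure W) U :=
    lt_of_lt_of_le (pos_iff_ne_zero.2 h) h1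
  filter_upwards [Filter.eventually_lt_of_lt_liminf h2] with m' hm'
  exact hm'.ne'

end D_USC

open D_USC in
theorem USC_pf : S_USC := by
  intro Z W _ _ _ _ _ _ _ R hR
  rw [← isOpen_compl_iff, isOpen_iff_mem_nhds]
  rintro ⟨z, m⟩ hm
  have hm' : (m : Measure W) {y | (z, y) ∉ R} ≠ 0 := hm
  obtain ⟨y, hy, hyU⟩ : ∃ y, (z, y) ∉ R ∧ ∀ u ∈ 𝓝 y, (m : Measure W) u ≠ 0 := by
    by_contra hcon
    push Not at hcon
    apply hm'
    refine measure_null_of_locally_null _ fun y hy => ?_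
    obtain ⟨u, hu, hu0⟩ := hcon y hy
    exact ⟨u, mem_nhdsWithin_of_mem_nhds hu, hu0⟩
  obtain ⟨V, U, hV, hU, hzV, hyU', hVU⟩ := isOpen_prod_iff.1 hR.isOpen_compl z y hy
  have h1 := eventually_pos m hU (hyU U (hU.mem_nhds hyU'))
  have h2 : ∀ᶠ z' in 𝓝 z, z' ∈ V := hV.mem_nhds hzV
  have h3 : ∀ᶠ p : Z × ProbabilityMeasure W in 𝓝 (z, m),
      p.1 ∈ V ∧ (p.2 : Measure W) U ≠ 0 := by
    rw [nhds_prod_eq]
    exact h2.prod_mk h1
  filter_upwards [h3] with p hp hp0
  have hp0' : (p.2 : Measure W) {y | (p.1, y) ∉ R} = 0 := hp0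
  exact hp.2 (measure_mono_null (fun y' hy' => hVU ⟨hp.1, hy'⟩) hp0')

end Pool.Agent.Work.MP_69fea5_lc.W3D
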