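import Pool.Agent.Work.MP_69fea5_lc.W3.ToolsD

/-!
# Block [69fea5 D], item VSC: the chains of a cube
-/

set_option autoImplicit false

namespace Pool.Agent.Work.MP_69fea5_lc.W3D

namespace D_VSC

theorem sum_erase {n : ℕ} (s : Finset (Fin n)) (j : Fin n) (t : Fin n → ℤ) :
    ∑ i ∈ s.erase j, (((j : ℕ) : ℤ) - ((i : ℕ) : ℤ)) * t i =
      ∑ i ∈ s, (((j : ℕ) : ℤ) - ((i : ℕ) : ℤ)) * t i :=
  Finset.sum_erase s (by simp)

theorem ev_ch {n : ℕ} {l : W3.Vx n → ℤ} {b u : ℤ} {t : Fin n → ℤ}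
    (h : ∀ a : W3.Vx n, l a = b + (a.1.1 : ℕ) * u +
      ∑ i ∈ a.1.2, (((a.1.1 : ℕ) : ℤ) - (i : ℕ)) * t i) (s : Finset (Fin n)) (j : Fin n) :
    l (W3.ch s j) = b + (j : ℕ) * u + ∑ i ∈ s, (((j : ℕ) : ℤ) - ((i : ℕ) : ℤ)) * t i := by
  rw [h]
  exact congrArg (fun z => b + ((j : ℕ) : ℤ) * u + z) (sum_erase s j t)

/-- the element of `Lv n` with the parameters `b, u, t` -/
theorem mk_mem {n : ℕ} (b u : ℤ) (t : Fin n → ℤ) :
    (fun a : W3.Vx n => b + (a.1.1 : ℕ) * u +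
      ∑ i ∈ a.1.2, (((a.1.1 : ℕ) : ℤ) - (i : ℕ)) * t i) ∈ Lv n := ⟨b, u, t, fun _ => rfl⟩

end D_VSC

open D_VSC in
theorem VSC_pf : S_VSC := by
  intro n
  refine ⟨one_mem_Lv n, ?_, ?_, ?_⟩
  · intro l'
    constructor
    · rintro ⟨b, u, h⟩
      refine ⟨_, mk_mem b u 0, ?_⟩
      funext j
      rw [h j]
      simp [W3.ch]
    · rintro ⟨l, ⟨b, u, t, h⟩, rfl⟩
      refine ⟨b, u, fun j => ?_⟩
      change l (W3.ch ∅ j) = _
      rw [ev_ch h]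
      simp
  · intro s l'
    have hs : ∀ (j : Fin n) (τ : ℕ → ℤ),
        ∑ i ∈ s.image (fun i : Fin n => (i : ℕ)), (((j : ℕ) : ℤ) - (i : ℤ)) * τ i =
        ∑ i ∈ s, (((j : ℕ) : ℤ) - ((i : ℕ) : ℤ)) * τ (i : ℕ) := by
      intro j τ
      rw [Finset.sum_image]
      intro x _ y _ hxy
      exact Fin.ext hxy
    constructor
    · rintro ⟨b, u, τ, h1, h2⟩
      refine ⟨_, mk_mem b u (fun i => τ (i : ℕ)), ?_⟩
      funext a
      rcases a with j | j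
      · rw [h1 j]
        simp [W3.ch]
      · rw [h2 j, hs j τ]
        exact (ev_ch (l := fun a : W3.Vx n => b + (a.1.1 : ℕ) * u +
          ∑ i ∈ a.1.2, (((a.1.1 : ℕ) : ℤ) - (i : ℕ)) * τ (i : ℕ)) (fun _ => rfl) s j).symm
    · rintro ⟨l, ⟨b, u, t, h⟩, rfl⟩
      classical
      refine ⟨b, u, fun i => if hi : i < n then t ⟨i, hi⟩ else 0, fun j => ?_, fun j => ?_⟩
      · change l (W3.ch ∅ j) = _
        rw [ev_ch h]
        simp
      · change l (W3.ch s j) = _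
        rw [ev_ch h, hs]
        simp
  · rintro l ⟨b, u, h⟩
    refine ⟨b, u, 0, fun a => ?_⟩
    simp [h a.1.1]

end Pool.Agent.Work.MP_69fea5_lc.W3D
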