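import Pool.Agent.Work.MP_69fea5_lc.W3.ToolsD

/-!
# Block [69fea5 D], item VSD: a subcube and its translate
-/

set_option autoImplicit false

namespace Pool.Agent.Work.MP_69fea5_lc.W3D

namespace D_VSD

theorem sum_erase {n : ℕ} (s : Finset (Fin n)) (j : Fin n) (t : Fin n → ℤ) :
    ∑ i ∈ s.erase j, (((j : ℕ) : ℤ) - ((i : ℕ) : ℤ)) * t i =
      ∑ i ∈ s, (((j : ℕ) : ℤ) - ((i : ℕ) : ℤ)) * t i :=
  Finset.sum_erase s (by simp)

/-- the value of a shape of a cube at a moved vertex -/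
theorem ev_mv {n : ℕ} {l : W3.Vx n → ℤ} {b u : ℤ} {t : Fin n → ℤ}
    (h : ∀ a : W3.Vx n, l a = b + (a.1.1 : ℕ) * u +
      ∑ i ∈ a.1.2, (((a.1.1 : ℕ) : ℤ) - (i : ℕ)) * t i) (i : Fin n) (a : W3.Vx n)
    (hi : i ∉ a.1.2) :
    l (W3.mv i a) = l a + (((a.1.1 : ℕ) : ℤ) - (i : ℕ)) * t i := by
  rw [h, h a]
  have e : ∑ k ∈ (insert i a.1.2).erase a.1.1, (((a.1.1 : ℕ) : ℤ) - ((k : ℕ) : ℤ)) * t k =
      (((a.1.1 : ℕ) : ℤ) - (i : ℕ)) * t i +
        ∑ k ∈ a.1.2, (((a.1.1 : ℕ) : ℤ) - ((k : ℕ) : ℤ)) * t k := by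
    rw [sum_erase, Finset.sum_insert hi]
  have e' : b + ((a.1.1 : ℕ) : ℤ) * u + ∑ k ∈ (insert i a.1.2).erase a.1.1,
      (((a.1.1 : ℕ) : ℤ) - ((k : ℕ) : ℤ)) * t k =
      b + ((a.1.1 : ℕ) : ℤ) * u + ∑ k ∈ a.1.2, (((a.1.1 : ℕ) : ℤ) - ((k : ℕ) : ℤ)) * t k +
        (((a.1.1 : ℕ) : ℤ) - (i : ℕ)) * t i := by
    rw [e]; ring
  exact e'

end D_VSD

open D_VSD in
theorem VSD_pf : S_VSD := by
  classical
  intro n S i hi
  refine ⟨one_mem_LS n S, ?_, ?_⟩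
  · refine ⟨fun a => (((a.1.1 : ℕ) : ℤ) - (i : ℕ)), ⟨-(i : ℕ), 1, 0, fun a => ?_⟩, rfl⟩
    simp
    ring
  · intro l'
    constructor
    · rintro ⟨k, ⟨l, ⟨b, u, t, h⟩, rfl⟩, m, h1, h2⟩
      refine ⟨fun a : W3.Vx n => b + (a.1.1 : ℕ) * u +
        ∑ k ∈ a.1.2, (((a.1.1 : ℕ) : ℤ) - (k : ℕ)) * Function.update t i m k,
        ⟨b, u, Function.update t i m, fun _ => rfl⟩, ?_⟩
      have hS : ∀ a : W3.VS n S, b + ((a.1.1.1 : ℕ) : ℤ) * u +
          ∑ k ∈ a.1.1.2, (((a.1.1.1 : ℕ) : ℤ) - (k : ℕ)) * Function.update t i m k = l a.1 := by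
        intro a
        rw [h a.1]
        congr 1
        refine Finset.sum_congr rfl fun k hk => ?_
        have hki : k ≠ i := fun e => hi (a.2 (e ▸ hk))
        rw [Function.update_of_ne hki]
      funext x
      rcases x with a | a
      · rw [h1 a]
        exact (hS a).symm
      · rw [h2 a]
        have hia : i ∉ a.1.1.2 := fun e => hi (a.2 e)
        have e2 := ev_mv (l := fun a : W3.Vx n => b + (a.1.1 : ℕ) * u +
          ∑ k ∈ a.1.2, (((a.1.1 : ℕ) : ℤ) - (k : ℕ)) * Function.update t i m k)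
          (fun _ => rfl) i a.1 hia
        refine Eq.trans ?_ e2.symm
        rw [Function.update_self]
        change l a.1 + m * _ = _ + _
        rw [hS a]
        ring
    · rintro ⟨l, ⟨b, u, t, h⟩, rfl⟩
      refine ⟨fun a => l a.1, ⟨l, ⟨b, u, t, h⟩, rfl⟩, t i, fun a => rfl, fun a => ?_⟩
      change l (W3.mv i a.1) = _
      have hia : i ∉ a.1.1.2 := fun e => hi (a.2 e)
      rw [ev_mv h i a.1 hia]
      ring

end Pool.Agent.Work.MP_69fea5_lc.W3D
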