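import Pool.Agent.Work.MP_69fea5_lc.W3.ToolsD

/-!
# Item [69fea5 D XCH]: the laws at the top level, for part V2
-/

set_option autoImplicit false

namespace Pool.Agent.Work.MP_69fea5_lc.W3D

open MeasureTheory Topology Set Filter
open ProbabilityTheory (Kernel)
open scoped ENNReal NNReal ProbabilityTheory
open Pool.Agent.Work.MP_69fea5_lc.AK (Sys sh sh_zero sh_add sh_cont orb MinSet)

namespace D_XCH

variable {X : Type} [TopologicalSpace X]

/-- restriction to the last coordinates -/
def rs (n : ℕ) (z : Fin (n + 2) → X) : Fin (n + 1) → X := fun i => z i.succ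

theorem cont_rs (n : ℕ) : Continuous (rs (X := X) n) :=
  continuous_pi fun i => continuous_apply i.succ

theorem bind_map {α β γ : Type} [MeasurableSpace α] [MeasurableSpace β] [MeasurableSpace γ]
    (m : Measure α) (κ : α → Measure β) (hκ : Measurable κ) {g : β → γ} (hg : Measurable g) :
    (m.bind fun v => (κ v).map g) = (m.bind κ).map g := by
  have h1 : Measurable fun v => (κ v).map g := (Measure.measurable_map g hg).comp hκ
  ext s hs
  rw [Measure.bind_apply hs h1.aemeasurable, Measure.map_apply hg hs,
    Measure.bind_apply (hg hs) hκ.aemeasurable]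
  refine lintegral_congr fun v => ?_
  rw [Measure.map_apply hg hs]

theorem measurable_of_cont {α β : Type} [TopologicalSpace α] [MeasurableSpace α] [BorelSpace α]
    [TopologicalSpace β] [MeasurableSpace β] [W3.CS β] {κ : α → ProbabilityMeasure β}
    (h : Continuous κ) : Measurable fun v => (κ v : Measure β) :=
  measurable_subtype_coe.comp h.measurable

end D_XCH

open D_XCH

theorem XCH_pf (hGCF : W3.S_GCF) (hGAP : W3.S_GAP) : S_XCH := by
  intro X _ _ _ _ lam P K hmin hdist hx n
  obtain ⟨c, Pc, Kc, hC, -⟩ := hx.cube (n + 2)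
  have hr : Continuous (rs (X := X) n) := cont_rs n
  let K' : X → ProbabilityMeasure (Fin (n + 1) → X) := fun v =>
    (K (n + 2) 0 v).map hr.measurable.aemeasurable
  have hK' : ∀ v : X, (K' v : Measure (Fin (n + 1) → X)) =
      (K (n + 2) 0 v : Measure (Fin (n + 2) → X)).map (rs n) := fun v => rfl
  have hcar := hC.car 0
  refine ⟨K', ?_, hK'⟩
  have hKm : Measurable fun v => (K (n + 2) 0 v : Measure (Fin (n + 2) → X)) :=
    measurable_of_cont (hC.cont 0)
  refine ⟨hmin, hx.inv 1, ?_, ?_, ?_, ?_, ?_, ?_, ?_, ?_⟩
  · -- kc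
    exact (ProbabilityMeasure.continuous_map hr).comp (hC.cont 0)
  · -- car
    intro v
    have hc : Continuous fun z : Fin (n + 1) → X => (Fin.cons v z : Fin (n + 2) → X) := by
      refine continuous_pi fun i => ?_
      refine Fin.cases ?_ (fun i => ?_) i
      · simpa using continuous_const
      · simpa using continuous_apply i
    have hcl : IsClosed {z : Fin (n + 1) → X | (Fin.cons v z : Fin (n + 2) → X) ∈ W3.PG (n + 2) X} :=
      (isClosed_closure : IsClosed (W3.PG (n + 2) X)).preimage hc
    rw [hK', ae_map_iff hr.measurable.aemeasurable hcl.measurableSet]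
    filter_upwards [hcar v] with z hz
    have : (Fin.cons v (rs n z) : Fin (n + 2) → X) = z := by
      funext i
      refine Fin.cases ?_ (fun i => ?_) i
      · simp [hz.1]
      · simp [rs]
    rw [this]
    exact hz.2
  · -- ke
    intro m v
    have h1 : Continuous (W3.tsh (X := X) (n := n + 1) m) :=
      continuous_pi fun i => (sh_cont m).comp (continuous_apply i)
    have h2 : Continuous (fun (z : Fin (n + 2) → X) i => sh m (z i)) :=
      continuous_pi fun i => (sh_cont m).comp (continuous_apply i)
    rw [hK', hK', hC.equi 0 m v, Measure.map_map hr.measurable h2.measurable,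
      Measure.map_map h1.measurable hr.measurable]
    rfl
  · -- kt
    intro v
    have h1 : Continuous (fun (z : Fin (n + 1) → X) (j : Fin (n + 1)) =>
        sh (((j : ℕ) : ℤ) + 1) (z j)) :=
      continuous_pi fun i => (sh_cont _).comp (continuous_apply i)
    have h2 : Continuous (fun (z : Fin (n + 2) → X) (i : Fin (n + 2)) =>
        sh ((((i : ℕ) : ℤ) - ((0 : Fin (n + 2)) : ℕ)) * 1) (z i)) :=
      continuous_pi fun i => (sh_cont _).comp (continuous_apply i)
    rw [hK']
    conv_rhs => rw [← hx.prg (n + 2) 0 1 v]
    rw [Measure.map_map h1.measurable hr.measurable, Measure.map_map hr.measurable h2.measurable]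
    congr 1
    funext z
    funext j
    simp only [Function.comp, rs]
    congr 1
    simp
  · -- dom
    refine ⟨c, fun v i => ?_⟩
    have h1 : Measurable (fun z : Fin (n + 1) → X => z i) := measurable_pi_apply i
    rw [hK', Measure.map_map h1 hr.measurable]
    have h2 := hC.dom 0 i.succ (Fin.succ_ne_zero i) v
    exact h2
  · -- dia
    intro v U hU hv
    have hpi : IsOpen (univ.pi fun _ : Fin (n + 1) => U) := isOpen_set_pi finite_univ fun _ _ => hU
    have hmem : (fun _ : Fin (n + 2) => v) ∈ W3.PG (n + 2) X := by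
      rw [PG_eq]
      exact diag_mem_NF (Lc (n + 2)) v
    have h1 := hx.full (n + 2) 0 (fun _ => v) hmem (rs n ⁻¹' univ.pi fun _ => U)
      (hpi.preimage hr) (by intro i _; exact hv)
    have h2 : (K' v : Measure (Fin (n + 1) → X)) (univ.pi fun _ => U) =
        (K (n + 2) 0 v : Measure (Fin (n + 2) → X)) (rs n ⁻¹' univ.pi fun _ => U) := by
      rw [hK', Measure.map_apply hr.measurable hpi.measurableSet]
    have h3 : (0 : ℝ≥0∞) < (K' v : Measure (Fin (n + 1) → X)) (univ.pi fun _ => U) := by
      rw [h2]; exact h1
    have h4 : ((K' v (univ.pi fun _ => U) : ℝ≥0) : ℝ≥0∞) =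
        (K' v : Measure (Fin (n + 1) → X)) (univ.pi fun _ => U) :=
      ProbabilityMeasure.ennreal_coeFn_eq_coeFn_toMeasure _ _
    rw [← h4] at h3
    exact_mod_cast h3
  · -- sta
    have hcs : Measurable (fun (z : Fin (n + 2) → X) (i : Fin (n + 1)) => z i.castSucc) :=
      measurable_pi_lambda _ fun i => measurable_pi_apply _
    have hL : ∀ v : X, (K' v : Measure (Fin (n + 1) → X)).map (W3.cns v) =
        (K (n + 2) 0 v : Measure (Fin (n + 2) → X)).map
          (fun (z : Fin (n + 2) → X) (i : Fin (n + 1)) => z i.castSucc) := by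
      intro v
      have hc : Continuous (W3.cns (X := X) (n := n) v) := by
        refine continuous_pi fun i => ?_
        refine Fin.cases ?_ (fun i => ?_) i
        · simpa [W3.cns] using continuous_const
        · simpa [W3.cns, Fin.init] using continuous_apply i.castSucc
      rw [hK', Measure.map_map hc.measurable hr.measurable]
      refine Measure.map_congr ?_
      filter_upwards [hcar v] with z hz
      funext i
      refine Fin.cases ?_ (fun i => ?_) i
      · simp [W3.cns, hz.1]
      · simp [W3.cns, Fin.init, rs]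

    have e1 : ((lam : Measure X).bind fun v => (K' v : Measure (Fin (n + 1) → X)).map (W3.cns v)) =
        P (n + 1) := by
      have : (fun v => (K' v : Measure (Fin (n + 1) → X)).map (W3.cns v)) =
          fun v => (K (n + 2) 0 v : Measure (Fin (n + 2) → X)).map
          (fun (z : Fin (n + 2) → X) (i : Fin (n + 1)) => z i.castSucc) := funext hL
      rw [this, bind_map _ _ hKm hcs, hC.dis 0]
      exact hx.pcs (n + 1)
    have e2 : ((lam : Measure X).bind fun v => (K' v : Measure (Fin (n + 1) → X))) = P (n + 1) := by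
      have : (fun v => (K' v : Measure (Fin (n + 1) → X))) =
          fun v => (K (n + 2) 0 v : Measure (Fin (n + 2) → X)).map (rs n) := funext hK'
      rw [this, bind_map _ _ hKm hr.measurable, hC.dis 0]
      exact hx.psu (n + 1)
    rw [e1, e2]
  · -- tmin
    intro v
    let L : Fin (n + 1) → ℤ →+ ℤ := fun j => AddMonoidHom.mulLeft (((j : ℕ) : ℤ) + 1)
    have hfl := W3.flow_cfA (X := X) L
    obtain ⟨hd, -⟩ := hGCF ℤ (Fin (n + 1)) X L hdist
    have h1 := hGAP ℤ (Fin (n + 1) → X) (W3.cfA L) univ hfl isClosed_univ
      (fun g x _ => mem_univ _) hd (fun _ => v) (mem_univ _)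
    refine ⟨isClosed_closure, ?_, h1.inv, ?_⟩
    · exact h1.ne
    · intro M hM1 hM2 hM3 hM4
      exact h1.min M hM1 hM2 hM3 hM4

end Pool.Agent.Work.MP_69fea5_lc.W3D
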