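import Pool.Agent.Work.MP_69fea5_lc.W3.StmtsD2

/-!
# Block [69fea5 D], item XCK (helper78): the laws of the other coordinates
-/

set_option autoImplicit false

namespace Pool.Agent.Work.MP_69fea5_lc.W3D

open MeasureTheory Topology Set Filter
open ProbabilityTheory (Kernel)
open scoped ENNReal NNReal ProbabilityTheory
open Pool.Agent.Work.MP_69fea5_lc.AK (Sys sh sh_zero sh_add sh_cont orb)

namespace D_XCK

/-- restriction to the other coordinates -/
def res {X : Type} {n : ℕ} (j : Fin n) (z : Fin n → X) : W3.Oth j → X := fun i => z i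

theorem cont_res {X : Type} [TopologicalSpace X] {n : ℕ} (j : Fin n) :
    Continuous (res j : (Fin n → X) → (W3.Oth j → X)) :=
  continuous_pi fun _ => continuous_apply _

theorem ins_self {X : Type} {n : ℕ} (j : Fin n) (v : X) (z : W3.Oth j → X) :
    W3.ins j v z j = v := by
  unfold W3.ins
  rw [dif_pos rfl]

theorem ins_other {X : Type} {n : ℕ} (j : Fin n) (v : X) (z : W3.Oth j → X) (i : W3.Oth j) :
    W3.ins j v z i = z i := by
  unfold W3.ins
  rw [dif_neg i.2]

theorem res_ins {X : Type} {n : ℕ} (j : Fin n) (v : X) (z : W3.Oth j → X) :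
    res j (W3.ins j v z) = z := funext fun i => ins_other j v z i

theorem ins_res {X : Type} {n : ℕ} (j : Fin n) (z : Fin n → X) :
    W3.ins j (z j) (res j z) = z := by
  funext i
  by_cases h : i = j
  · subst h
    exact ins_self i _ _
  · exact ins_other j _ (res j z) ⟨i, h⟩

theorem cont_ins {X : Type} [TopologicalSpace X] {n : ℕ} (j : Fin n) (v : X) :
    Continuous (W3.ins j v : (W3.Oth j → X) → (Fin n → X)) := by
  refine continuous_pi fun i => ?_
  by_cases h : i = j
  · have e : (fun z : W3.Oth j → X => W3.ins j v z i) = fun _ => v := by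
      funext z
      subst h
      exact ins_self i v z
    rw [e]
    exact continuous_const
  · have e : (fun z : W3.Oth j → X => W3.ins j v z i) = fun z => z ⟨i, h⟩ := by
      funext z
      exact ins_other j v z ⟨i, h⟩
    rw [e]
    exact continuous_apply _

end D_XCK

open D_XCK in
theorem XCK_pf : S_XCK := by
  intro X _ _ _ _ lam P K hX n
  obtain ⟨c, Pc, Kc, hC, _⟩ := hX.cube n
  have hm : ∀ j : Fin n, Measurable (res j : (Fin n → X) → (W3.Oth j → X)) :=
    fun j => (cont_res j).measurable
  let Q : ∀ j : Fin n, X → ProbabilityMeasure (W3.Oth j → X) :=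
    fun j v => (K n j v).map (hm j).aemeasurable
  have hQ : ∀ (j : Fin n) (v : X), (Q j v : Measure (W3.Oth j → X)) =
      (K n j v : Measure (Fin n → X)).map (res j) := fun j v => rfl
  refine ⟨Q, ?_, fun j v => hQ j v⟩
  refine ⟨?_, ?_, ?_, ?_, ?_⟩
  · intro j
    exact (ProbabilityMeasure.continuous_map (cont_res j)).comp (hC.cont j)
  · intro j m v
    apply Subtype.ext
    change (Q j (sh m v) : Measure (W3.Oth j → X)) =
      Measure.map (sh m : (W3.Oth j → X) → (W3.Oth j → X)) (Q j v : Measure (W3.Oth j → X))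
    have h1 : Measurable (fun (z : Fin n → X) (i : Fin n) => sh m (z i)) :=
      (continuous_pi fun i => (sh_cont m).comp (continuous_apply i)).measurable
    have h2 : Measurable (sh m : (W3.Oth j → X) → (W3.Oth j → X)) := (sh_cont m).measurable
    rw [hQ, hQ, hC.equi j m v, Measure.map_map (hm j) h1, Measure.map_map h2 (hm j)]
    rfl
  · intro j v
    have hcl : IsClosed {z : W3.Oth j → X | W3.ins j v z ∈ W3.PG n X} := by
      have : IsClosed (W3.PG n X) := isClosed_closure
      exact this.preimage (cont_ins j v)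
    have h1 : ∀ᵐ z ∂(Q j v : Measure (W3.Oth j → X)), W3.ins j v z ∈ W3.PG n X := by
      rw [hQ, ae_map_iff (hm j).aemeasurable hcl.measurableSet]
      filter_upwards [hC.car j v] with z hz
      have := ins_res j z
      rw [hz.1] at this
      rw [this]
      exact hz.2
    have h2 : (Q j v : Measure (W3.Oth j → X)) {z | W3.ins j v z ∈ W3.PG n X} = 1 :=
      mem_ae_iff_prob_eq_one hcl.measurableSet |>.1 h1
    apply (ENNReal.coe_inj).1
    rw [ProbabilityMeasure.ennreal_coeFn_eq_coeFn_toMeasure, h2]
    rfl
  · intro j v z hz U hU hzU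
    have h1 := hX.full n j (W3.ins j v z) hz (res j ⁻¹' U) (hU.preimage (cont_res j))
      (by show res j (W3.ins j v z) ∈ U; rw [res_ins]; exact hzU)
    rw [ins_self] at h1
    have h2 : (Q j v : Measure (W3.Oth j → X)) U =
        (K n j v : Measure (Fin n → X)) (res j ⁻¹' U) := by
      rw [hQ, Measure.map_apply (hm j) hU.measurableSet]
    rw [← h2, ← ProbabilityMeasure.ennreal_coeFn_eq_coeFn_toMeasure] at h1
    exact_mod_cast h1
  · refine ⟨c, fun j v i B hB => ?_⟩
    have h1 := hC.dom j i i.2 v
    have h2 : (K n j v : Measure (Fin n → X)) {z | z (i : Fin n) ∈ B} ≤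
        (c : ℝ≥0∞) * (lam : Measure X) B := by
      have h3 := h1 B
      rw [Measure.map_apply (measurable_pi_apply _) hB] at h3
      exact h3
    have h4 : (Q j v : Measure (W3.Oth j → X)) {z | z i ∈ B} =
        (K n j v : Measure (Fin n → X)) {z | z (i : Fin n) ∈ B} := by
      have h5 : MeasurableSet {z : W3.Oth j → X | z i ∈ B} := (measurable_pi_apply i) hB
      rw [hQ, Measure.map_apply (hm j) h5]
      rfl
    rw [← h4, ← ProbabilityMeasure.ennreal_coeFn_eq_coeFn_toMeasure,
      ← ProbabilityMeasure.ennreal_coeFn_eq_coeFn_toMeasure] at h2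
    exact_mod_cast h2

end Pool.Agent.Work.MP_69fea5_lc.W3D
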