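import Pool.Agent.Work.MP_69fea5_lc.W3.StmtsD2

/-!
# Block [69fea5 D]: proved elementary facts
-/

set_option autoImplicit false

namespace Pool.Agent.Work.MP_69fea5_lc.W3D

open MeasureTheory Topology Set Filter
open ProbabilityTheory (Kernel)
open scoped ENNReal NNReal ProbabilityTheory
open Pool.Agent.Work.MP_69fea5_lc.AK (Sys sh sh_zero sh_add sh_cont orb MinSet)

/-! ### Shapes -/

theorem one_mem_Lc (n : ℕ) : (1 : Fin n → ℤ) ∈ Lc n := ⟨1, 0, fun j => by simp⟩

theorem one_mem_dbl {F : Type} {L : AddSubgroup (F → ℤ)} (h : (1 : F → ℤ) ∈ L) (γ : F → ℤ) :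
    (1 : F ⊕ F → ℤ) ∈ dbl L γ := ⟨1, h, 0, fun i => by simp, fun i => by simp⟩

theorem one_mem_tpl {F : Type} {L : AddSubgroup (F → ℤ)} (h : (1 : F → ℤ) ∈ L) (γ : F → ℤ) :
    (1 : F ⊕ (F ⊕ F) → ℤ) ∈ tpl L γ :=
  ⟨1, h, 0, 0, fun i => by simp, fun i => by simp, fun i => by simp⟩

theorem one_mem_Lp (n : ℕ) (S : Finset ℕ) : (1 : Fin n ⊕ Fin n → ℤ) ∈ Lp n S :=
  ⟨1, 0, 0, fun j => by simp, fun j => by simp⟩

theorem one_mem_Lv (n : ℕ) : (1 : W3.Vx n → ℤ) ∈ Lv n := ⟨1, 0, 0, fun a => by simp⟩

theorem one_mem_LS (n : ℕ) (S : Finset (Fin n)) : (1 : W3.VS n S → ℤ) ∈ LS n S :=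
  ⟨1, one_mem_Lv n, rfl⟩

theorem zsmul_one_mem {F : Type} {L : AddSubgroup (F → ℤ)} (h : (1 : F → ℤ) ∈ L) (m : ℤ) :
    (fun _ => m : F → ℤ) ∈ L := by
  have := L.zsmul_mem h m
  have e : m • (1 : F → ℤ) = fun _ => m := by funext i; simp
  rwa [e] at this

/-! ### Configurations -/

section conf

variable {F X : Type} [TopologicalSpace X] [Sys X]

theorem diag_mem_NF (L : AddSubgroup (F → ℤ)) (x : X) : (fun _ => x) ∈ NF X L :=
  subset_closure ⟨0, L.zero_mem, x, by rw [shF_zero]⟩

theorem NF_nonempty [Nonempty X] (L : AddSubgroup (F → ℤ)) : (NF X L : Set (F → X)).Nonempty :=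
  ⟨_, diag_mem_NF L (Classical.arbitrary X)⟩

/-- restriction of configurations -/
theorem comp_mem_NF {F' : Type} (e : F' → F) {L : AddSubgroup (F → ℤ)} {L' : AddSubgroup (F' → ℤ)}
    (h : ∀ l ∈ L, l ∘ e ∈ L') {w : F → X} (hw : w ∈ NF X L) : w ∘ e ∈ NF X L' :=
  map_mem_closure (f := fun w : F → X => w ∘ e)
    (continuous_pi fun i => continuous_apply (e i)) hw
    fun _ ⟨l, hl, x, hx⟩ => ⟨l ∘ e, h l hl, x, by rw [hx]; rfl⟩

/-- a closed condition on configurations -/
theorem NF_induction (L : AddSubgroup (F → ℤ)) {p : (F → X) → Prop} (hp : IsClosed {w | p w})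
    (h : ∀ l ∈ L, ∀ x : X, p (shF l fun _ => x)) : ∀ w ∈ NF X L, p w := by
  intro w hw
  have : closure {w : F → X | ∃ l ∈ L, ∃ x : X, w = shF l fun _ => x} ⊆ {w | p w} :=
    closure_minimal (by rintro _ ⟨l, hl, x, rfl⟩; exact h l hl x) hp
  exact this hw

/-- two coordinates with the same displacement are equal -/
theorem eq_of_shape [T2Space X] (L : AddSubgroup (F → ℤ)) {i j : F} (h : ∀ l ∈ L, l i = l j)
    {w : F → X} (hw : w ∈ NF X L) : w i = w j := by
  refine NF_induction L (p := fun w => w i = w j) ?_ ?_ w hw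
  · exact isClosed_eq (continuous_apply i) (continuous_apply j)
  · intro l hl x
    simp only [shF, h l hl]

theorem PG_eq (n : ℕ) (X : Type) [TopologicalSpace X] [Sys X] : W3.PG n X = NF X (Lc n) := by
  unfold W3.PG W3.NF NF
  congr 1
  ext w
  constructor
  · rintro ⟨g, z, rfl⟩
    refine ⟨fun j => g.1 + (j : ℕ) * g.2, ⟨g.1, g.2, fun j => rfl⟩, z, ?_⟩
    funext i
    simp [shF, W3.pf]
  · rintro ⟨l, ⟨b, u, h⟩, x, rfl⟩
    refine ⟨(b, u), x, ?_⟩
    funext i
    simp [shF, W3.pf, h i]

theorem PGN_pf : S_PGN := fun n X _ _ => PG_eq n X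

end conf

/-! ### Towers -/

theorem TWS_pf : S_TWS := by
  classical
  intro X X' _ _ _ _ _ _ h E ρ p ρ' hT hp hpe hρ' hsep
  have htop : ∀ t, t ≤ h → ∀ x, E t x x := by
    intro t ht x
    rcases Nat.eq_zero_or_pos t with rfl | h0
    · exact hT.bot x x
    · obtain ⟨s, rfl⟩ : ∃ s, t = s + 1 := ⟨t - 1, by omega⟩
      have h1 := hT.step s (by omega)
      exact (h1.zero x x).2 ⟨h1.eqv.refl x, h1.self x⟩
  refine ⟨fun t y y' => if t ≤ h then E t (p y) (p y') else y = y',
    fun t y y' => if t < h then ρ t (p y) (p y') else ρ' y y', ⟨?_, ?_, ?_⟩, ?_⟩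
  · intro y y'
    simp only [Nat.zero_le, if_true]
    exact hT.bot _ _
  · intro y y'
    simp
  · intro l hl
    rcases Nat.lt_or_ge l h with hlh | hlh
    · have h1 := hT.step l hlh
      have e1 : l ≤ h := hlh.le
      have e2 : l + 1 ≤ h := hlh
      simp only [e1, e2, hlh, if_true]
      have hpp : Continuous fun q : X' × X' => (p q.1, p q.2) :=
        (hp.comp continuous_fst).prodMk (hp.comp continuous_snd)
      exact
        { eqv := ⟨fun y => h1.eqv.refl _, fun h => h1.eqv.symm h, fun h h' => h1.eqv.trans h h'⟩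
          closed := h1.closed.preimage hpp
          inv := fun g x y hxy => by rw [hpe, hpe]; exact h1.inv g _ _ hxy
          cont := h1.cont.comp hpp.continuousOn fun q hq => hq
          rinv := fun g x y hxy => by rw [hpe, hpe]; exact h1.rinv g _ _ hxy
          nonneg := fun x y hxy => h1.nonneg _ _ hxy
          self := fun x => h1.self _
          symm := fun x y hxy => h1.symm _ _ hxy
          tri := fun x y z h h' => h1.tri _ _ _ h h'
          zero := fun x y => h1.zero _ _ }
    · have hlh' : l = h := by omega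
      subst hlh'
      have e2 : ¬ (l + 1 ≤ l) := by omega
      simp only [le_refl, e2, lt_irrefl, if_true, if_false]
      have hE : ∀ y y' : X', E l (p y) (p y') ↔ p y = p y' := fun y y' =>
        ⟨fun h => hT.top _ _ h, fun h => by rw [h]; exact htop l le_rfl _⟩
      simp only [hE]
      exact
        { eqv := ⟨fun y => rfl, fun h => h.symm, fun h h' => h.trans h'⟩
          closed := isClosed_eq (hp.comp continuous_fst) (hp.comp continuous_snd)
          inv := fun g x y hxy => by rw [hpe, hpe, hxy]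
          cont := hρ'.cont
          rinv := fun g x y hxy => hρ'.inv g x y hxy
          nonneg := fun x y hxy => hρ'.nonneg x y hxy
          self := fun x => hρ'.self x
          symm := fun x y hxy => hρ'.symm x y hxy
          tri := fun x y z h h' => hρ'.tri x y z h h'
          zero := fun x y => ⟨fun h => by subst h; exact ⟨rfl, hρ'.self x⟩,
            fun h => hsep x y h.1 h.2⟩ }
  · intro t ht y y'
    simp [ht]

theorem TDI_pf : S_TDI := by
  intro X _ _ _ h E ρ hT F x y z _ _ hx hy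
  have hx' : Tendsto (fun n : ℤ => sh n x) (F : Filter ℤ) (𝓝 z) := hx
  have hy' : Tendsto (fun n : ℤ => sh n y) (F : Filter ℤ) (𝓝 z) := hy
  have key : ∀ t, t ≤ h → E t x y := by
    intro t
    induction t with
    | zero => exact fun _ => hT.bot x y
    | succ t ih =>
      intro ht
      have h1 := hT.step t (by omega)
      have hE := ih (by omega)
      refine (h1.zero x y).2 ⟨hE, ?_⟩
      have hc : Tendsto (fun n : ℤ => ρ t (sh n x) (sh n y)) (F : Filter ℤ) (𝓝 (ρ t z z)) := by
        have hzz : ((z, z) : X × X) ∈ {p : X × X | E t p.1 p.2} := h1.eqv.refl z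
        have h2 : Tendsto (fun n : ℤ => ((sh n x, sh n y) : X × X)) (F : Filter ℤ)
            (𝓝[{p : X × X | E t p.1 p.2}] (z, z)) := by
          refine tendsto_nhdsWithin_iff.2 ⟨hx'.prodMk_nhds hy', ?_⟩
          exact Eventually.of_forall fun n => h1.inv n x y hE
        exact (h1.cont (z, z) hzz).tendsto.comp h2
      have hconst : (fun n : ℤ => ρ t (sh n x) (sh n y)) = fun _ => ρ t x y :=
        funext fun n => h1.rinv n x y hE
      rw [hconst] at hc
      have := tendsto_nhds_unique hc tendsto_const_nhds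
      rw [← this]
      exact h1.self z
  exact hT.top x y (key h le_rfl)

theorem orb_of_minSet {X : Type} [TopologicalSpace X] [Sys X] (h : MinSet (univ : Set X))
    (x y : X) : y ∈ orb x := by
  have hinv : AK.Inv (orb x) := by
    intro n z hz
    refine map_mem_closure (sh_cont n) hz ?_
    rintro _ ⟨m, rfl⟩
    exact ⟨n + m, by simp [sh_add]⟩
  have : orb x = univ := h.min (orb x) isClosed_closure
    ⟨x, subset_closure ⟨0, by simp [sh_zero]⟩⟩ hinv (subset_univ _)
  rw [this]
  exact mem_univ y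

theorem TWB_pf : S_TWB := by
  classical
  intro n Z _ _ Y _ _ _ π hT
  refine ⟨fun x y => orb_of_minSet hT.min x y, ?_⟩
  choose ρ hρ using hT.iso
  refine ⟨ρ, ⟨fun x y => hT.zero x y, fun x y => hT.top x y, ?_⟩⟩
  intro l _
  obtain ⟨h1, h2⟩ := hρ l
  exact
    { eqv := ⟨fun y => rfl, fun h => h.symm, fun h h' => h.trans h'⟩
      closed := isClosed_eq ((hT.cont l).comp continuous_fst) ((hT.cont l).comp continuous_snd)
      inv := fun g x y hxy => by
        change π l (sh g x) = π l (sh g y)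
        rw [hT.equi, hT.equi, hxy]
      cont := h1.cont
      rinv := fun g x y hxy => h1.inv g x y hxy
      nonneg := fun x y hxy => h1.nonneg x y hxy
      self := fun x => h1.self x
      symm := fun x y hxy => h1.symm x y hxy
      tri := fun x y z h h' => h1.tri x y z h h'
      zero := fun x y => ⟨fun h => ⟨hT.mono l x y h, (h2 x y (hT.mono l x y h)).2 h⟩,
        fun h => (h2 x y h.1).1 h.2⟩ }

end Pool.Agent.Work.MP_69fea5_lc.W3D
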