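import Pool.Agent.Work.MP_69fea5_lc.W3.StmtsD2
import Pool.Agent.Work.MP_69fea5_lc.W3.ToolsD

/-!
# Block [69fea5 D], item XI2: the laws of cubes of progressions
-/

set_option autoImplicit false

namespace Pool.Agent.Work.MP_69fea5_lc.W3D

open MeasureTheory Topology Set Filter
open ProbabilityTheory (Kernel)
open scoped ENNReal NNReal ProbabilityTheory
open Pool.Agent.Work.MP_69fea5_lc.AK (Sys sh sh_zero sh_add sh_cont orb MinSet)

namespace D_XI2

/-- bind after map -/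
lemma bind_map {α β γ : Type} [MeasurableSpace α] [MeasurableSpace β] [MeasurableSpace γ]
    (μ : Measure α) {f : α → β} (hf : Measurable f) {g : β → Measure γ} (hg : Measurable g) :
    (μ.map f).bind g = μ.bind fun a => g (f a) := by
  ext s hs
  have h2 : Measurable fun a => g (f a) := hg.comp hf
  rw [Measure.bind_apply hs hg.aemeasurable, Measure.bind_apply hs h2.aemeasurable]
  exact lintegral_map ((Measure.measurable_coe hs).comp hg) hf

lemma nsmul_le {α : Type} [MeasurableSpace α] (μ : Measure α) {N : ℕ} {c : ℝ≥0}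
    (h : (N : ℝ≥0) ≤ c) : N • μ ≤ c • μ := by
  rw [← Nat.cast_smul_eq_nsmul ℝ≥0 N μ]
  refine Measure.le_iff'.2 fun s => ?_
  rw [Measure.smul_apply, Measure.smul_apply]
  simp only [ENNReal.smul_def, smul_eq_mul]
  gcongr

section conf

variable {X : Type} [TopologicalSpace X] [Sys X]

/-- the cube whose chains are all equal to `y` -/
def ex (n : ℕ) (y : Fin n → X) : W3.Vx n → X := fun a => y a.1.1

lemma ex_mem (hVSC : S_VSC) {n : ℕ} {y : Fin n → X} (hy : y ∈ W3.PG n X) :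
    ex n y ∈ NF X (Lv n) := by
  rw [PG_eq] at hy
  exact comp_mem_NF (fun a : W3.Vx n => a.1.1) (fun l hl => (hVSC n).2.2.2 l hl) hy

lemma res_mem (hVSC : S_VSC) {n : ℕ} {v : W3.Vx n → X} (hv : v ∈ NF X (Lv n)) :
    v ∘ W3.ch ∅ ∈ W3.PG n X := by
  rw [PG_eq]
  exact comp_mem_NF (W3.ch ∅) (fun l hl => ((hVSC n).2.1 _).2 ⟨l, hl, rfl⟩) hv

omit [Sys X] in
lemma cont_ex (n : ℕ) : Continuous (ex n : (Fin n → X) → W3.Vx n → X) :=
  continuous_pi fun a => continuous_apply a.1.1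

end conf

section cn

variable {X : Type} [TopologicalSpace X] [MeasurableSpace X] [Sys X] [Nonempty X]

/-- images of the canonical measure -/
lemma cn_map {K : KT X} (hK : KS K) {F F' : Type} [Finite F] [Finite F'] (e : F' → F)
    (L : AddSubgroup (F → ℤ)) (L' : AddSubgroup (F' → ℤ)) (h1 : 1 ∈ L)
    (h : ∀ l', l' ∈ L' ↔ ∃ l ∈ L, l' = l ∘ e) :
    (cn K L).map (fun v => v ∘ e) = cn K L' :=
  hK.nat F F' e L L' h1 h ∅ (empty_subset _) _ (diag_mem_NF L _)

lemma cn_ae {K : KT X} (hK : KS K) {F : Type} [Finite F] (L : AddSubgroup (F → ℤ))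
    (h1 : 1 ∈ L) : ∀ᵐ v ∂(cn K L), v ∈ NF X L := by
  have h := hK.car F L h1 ∅ (fun _ => Classical.arbitrary X) (diag_mem_NF L _)
  rw [ae_iff]
  refine measure_mono_null ?_ h
  intro v hv hv2
  exact hv hv2.1

end cn

lemma meas_comp {X F F' : Type} [MeasurableSpace X] (e : F' → F) :
    Measurable fun v : F → X => v ∘ e :=
  measurable_pi_lambda _ fun a => measurable_pi_apply (e a)

end D_XI2

open D_XI2 in
theorem XI2_pf (hVSC : S_VSC) (hVSD : S_VSD) (hDBK : S_DBK) (hLA2 : S_LA2) (hLB2 : S_LB2) :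
    S_XI2 := by
  classical
  intro X _ _ _ _ _ K hK n Kj hKj
  have : SecondCountableTopology X := secondCountable_of_CS X
  have h1 : (1 : W3.Vx n → ℤ) ∈ Lv n := one_mem_Lv n
  -- the kernel
  obtain ⟨p₀⟩ : Nonempty (ProbabilityMeasure (W3.Vx n → X)) :=
    ⟨⟨Measure.dirac fun _ => Classical.arbitrary X, inferInstance⟩⟩
  obtain ⟨Kc, hKc1, hKc2⟩ : ∃ Kc : (Fin n → X) → ProbabilityMeasure (W3.Vx n → X),
      (∀ y ∈ W3.PG n X, (Kc y : Measure (W3.Vx n → X)) =
        K (W3.Vx n) (Lv n) (range (W3.ch ∅)) (ex n y)) ∧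
      ∀ y, y ∉ W3.PG n X → Kc y = p₀ := by
    refine ⟨fun y => if h : y ∈ W3.PG n X then
      ⟨K (W3.Vx n) (Lv n) (range (W3.ch ∅)) (ex n y),
        ⟨hK.prob _ _ h1 _ _ (ex_mem hVSC h)⟩⟩ else p₀, fun y hy => ?_, fun y hy => ?_⟩
    · simp only [dif_pos hy]
      rfl
    · simp only [dif_neg hy]
  have hPGm : MeasurableSet (W3.PG n X) := isClosed_closure.measurableSet
  have hexm : Measurable (ex n : (Fin n → X) → W3.Vx n → X) :=
    measurable_pi_lambda _ fun a => measurable_pi_apply a.1.1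
  have hKcm : Measurable fun y => (Kc y : Measure (W3.Vx n → X)) := by
    have he : (fun y => (Kc y : Measure (W3.Vx n → X))) = fun y => if y ∈ W3.PG n X then
        K (W3.Vx n) (Lv n) (range (W3.ch ∅)) (ex n y) else (p₀ : Measure (W3.Vx n → X)) := by
      funext y
      by_cases hy : y ∈ W3.PG n X
      · rw [if_pos hy, hKc1 y hy]
      · rw [if_neg hy, hKc2 y hy]
    rw [he]
    exact Measurable.ite hPGm ((Kernel.measurable _).comp hexm) measurable_const
  obtain ⟨N, hN⟩ := hLB2 X K hK n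
  refine ⟨max n N, Kc, le_max_left _ _, ?_⟩
  refine
    { prob := ⟨hK.prob _ _ h1 _ _ (diag_mem_NF _ _)⟩
      cont := ?_
      equi := ?_
      car := ?_
      dis := ?_
      one := ?_
      two := ?_
      ci := ?_ }
  · -- cont
    intro y hy
    rw [ContinuousWithinAt, ProbabilityMeasure.tendsto_iff_forall_integral_tendsto]
    intro f
    have h := hK.cont (W3.Vx n) (Lv n) h1 (range (W3.ch ∅)) ⟨f, f.continuous⟩
    have h2 : ContinuousOn (fun y => ∫ v, f v ∂K (W3.Vx n) (Lv n) (range (W3.ch ∅)) (ex n y))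
        (W3.PG n X) :=
      h.comp (cont_ex n).continuousOn fun y hy => ex_mem hVSC hy
    have h3 := h2 y hy
    rw [hKc1 y hy]
    refine h3.congr' (eventually_nhdsWithin_of_forall fun z hz => ?_)
    simp only [hKc1 z hz]
  · -- equi
    intro y hy m
    have hmem : (fun i => sh m (y i)) ∈ W3.PG n X := by
      rw [PG_eq] at hy ⊢
      exact shF_mem_NF (zsmul_one_mem (one_mem_Lc n) m) hy
    rw [hKc1 y hy, hKc1 _ hmem]
    exact hK.equi (W3.Vx n) (Lv n) h1 (range (W3.ch ∅)) (ex n y) (ex_mem hVSC hy)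
      (fun _ => m) (zsmul_one_mem h1 m)
  · -- car
    intro y hy
    rw [hKc1 y hy, ae_iff]
    refine measure_mono_null ?_ (hK.car (W3.Vx n) (Lv n) h1 (range (W3.ch ∅)) (ex n y)
      (ex_mem hVSC hy))
    intro z hz hz2
    exact hz fun j => hz2.2 (W3.ch ∅ j) ⟨j, rfl⟩
  · -- dis
    have hmul : (cn K (Lv n)).bind (K (W3.Vx n) (Lv n) (range (W3.ch ∅))) = cn K (Lv n) :=
      hK.mul (W3.Vx n) (Lv n) h1 ∅ (range (W3.ch ∅)) (empty_subset _) _ (diag_mem_NF _ _)
    rw [← cn_map hK (W3.ch ∅) (Lv n) (Lc n) h1 (hVSC n).2.1, bind_map _ (meas_comp _) hKcm]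
    refine Eq.trans (Measure.bind_congr_right ?_) hmul
    filter_upwards [cn_ae hK (Lv n) h1] with v hv
    rw [hKc1 _ (res_mem hVSC hv)]
    refine hK.cls (W3.Vx n) (Lv n) h1 (range (W3.ch ∅)) _ (ex_mem hVSC (res_mem hVSC hv)) v hv ?_
    rintro _ ⟨j, rfl⟩
    rfl
  · -- one
    intro y hy j
    rw [hKc1 y hy, hKj]
    exact hLA2 X K hK n j (ex n y) (ex_mem hVSC hy)
  · -- two
    intro y hy s hs
    rw [hKc1 y hy]
    exact (hN s hs (ex n y) (ex_mem hVSC hy)).trans (nsmul_le _ (le_max_right _ _))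
  · -- ci
    intro S i hi
    obtain ⟨hS1, hS2, hS3⟩ := hVSD n S i hi
    obtain ⟨κ, hκ1, hκ2, hκ3, hκ4⟩ := hDBK X K hK (W3.VS n S) (LS n S)
      (fun a : W3.VS n S => (((a.1.1.1 : ℕ) : ℤ) - (i : ℕ))) hS1 hS2
    have hsub : (cn K (Lv n)).map (fun z (a : W3.VS n S) => z a.1) = cn K (LS n S) :=
      cn_map hK (fun a : W3.VS n S => a.1) (Lv n) (LS n S) h1 fun l' => Iff.rfl
    have hpair : (cn K (Lv n)).map (fun z => ((fun a : W3.VS n S => z a.1 : W3.VS n S → X),
        fun a : W3.VS n S => z (W3.mv i a.1))) = (cn K (LS n S)) ⊗ₘ κ := by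
      rw [← hκ2, ← cn_map hK (Sum.elim (fun a : W3.VS n S => a.1)
        (fun a : W3.VS n S => W3.mv i a.1)) (Lv n) _ h1 hS3,
        Measure.map_map ((meas_comp _).prodMk (meas_comp _)) (meas_comp _)]
      rfl
    refine ⟨κ, ?_, ?_⟩
    · rw [hsub]
      refine ⟨hκ1, ?_, hκ4⟩
      filter_upwards [hκ3] with x hx
      filter_upwards [hx] with y hy a ha
      refine hy a ?_
      have ha' : a.1.1.1 = i := ha
      rw [ha', sub_self]
    · rw [hsub]
      exact hpair

end Pool.Agent.Work.MP_69fea5_lc.W3D
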