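import Pool.Agent.Work.MP_69fea5_lc.W3.Defs
import Pool.Agent.Work.MP_69fea5_lc.KC.Stmts

/-!
# Block [69fea5 W4] (sums of at most `n` terms, every `n`): definitions of part V
(the greedy construction and Case II; sections 5 and 6 of note 3799), self-contained

A chain has the points `c, u_0, …, u_n` (`n + 1` points after the first one); all sums of at most
`n + 1` terms get one colour.
-/

set_option autoImplicit false

namespace Pool.Agent.Work.MP_69fea5_lc.W3

open MeasureTheory Topology Set Filter ProbabilityTheory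
open scoped NNReal ENNReal
open Pool.Agent.Work.MP_69fea5_lc.AK
open Pool.Agent.Work.MP_69fea5_lc.HK (Cl DU Ar ArF ArR Dat Law LawC act near sc Pt oc Mn mr ext)

variable {k : ℕ}

/-! ### Tuples -/

/-- the shift of all coordinates of a tuple -/
def tsh {X : Type} [TopologicalSpace X] [Sys X] {n : ℕ} (m : ℤ) (u : Fin n → X) : Fin n → X :=
  fun j => sh m (u j)

/-- closed sets of tuples which are invariant under the shift of all coordinates -/
structure TRel {X : Type} [TopologicalSpace X] [Sys X] {n : ℕ} (R : Set (Fin n → X)) : Prop where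
  closed : IsClosed R
  inv : ∀ (m : ℤ), ∀ u ∈ R, tsh m u ∈ R

/-- the tuple `(w, u_0, …, u_(n-1))` for `u = (u_0, …, u_n)`: the last point is forgotten -/
def cns {X : Type} {n : ℕ} (w : X) (u : Fin (n + 1) → X) : Fin (n + 1) → X :=
  Fin.cons w (Fin.init u)

/-- the tuples whose orbit avoids the box `P` -/
def avd {n : ℕ} (P : Fin n → Set (Om k)) : Set (Fin n → Om k) :=
  {u | ∀ m : ℤ, ¬ ∀ j, sh m (u j) ∈ P j}

/-! ### The greedy construction -/

/-- The hypotheses of the greedy argument. `π : M → X` is the position (level `n` of the tower),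
`v₀` the exact position of `c`, `μ` an invariant measure on `M`, `κ v` the law of the points
`(u_0, …, u_n)` of a chain whose first point has the position `v`. `wd`: the sections of closed
invariant sets of tuples at the first point depend only on its position. `shf`: shift invariance. -/
structure GH {X : Type} [TopologicalSpace X] [Sys X] {n : ℕ} (c : Om k) (M : Set (Om k))
    (π : Om k → X) (v₀ : X) (μ : PM k) (κ : X → Measure (Fin (n + 1) → Om k)) : Prop where
  min : MinSet M
  cont : ContinuousOn π M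
  equi : ∀ w ∈ M, ∀ m : ℤ, π (sh m w) = sh m (π w)
  inv : sh 1 μ = μ
  one : μ M = 1
  prob : ∀ w ∈ M, IsProbabilityMeasure (κ (π w))
  kc : ∀ C : Set (Fin (n + 1) → Om k), IsClopen C → ContinuousOn (fun w => (κ (π w)).real C) M
  ke : ∀ w ∈ M, ∀ m : ℤ, κ (sh m (π w)) = (κ (π w)).map (tsh m)
  wd : ∀ R : Set (Fin (n + 1) → Om k), TRel R → ∀ w ∈ M, ∀ w' ∈ M, π w = π w' →
    κ (π w) {u | cns w u ∈ R ∧ cns w' u ∉ R} = 0
  shf : ∀ R : Set (Fin (n + 1) → Om k), TRel R →
    ∀ᵐ w ∂(μ : Measure (Om k)), ∀ᵐ u ∂κ (π w), cns w u ∈ R → u ∈ R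
  base : ∃ w ∈ M, π w = v₀
  ret : ∃ w ∈ M, (w, π w) ∈ omg (c, v₀)

/-- no box of positive measure is blocked -/
def NBl {n : ℕ} (c : Om k) (ν : Measure (Fin (n + 1) → Om k)) : Prop :=
  ∀ P : Fin (n + 1) → Set (Om k), (∀ j, IsClopen (P j)) → 0 < ν (univ.pi P) →
    ∀ N : ℕ, ∃ x : ℕ, N ≤ x ∧ sh (x : ℤ) c ∈ P 0 ∧
      0 < ν (univ.pi P ∩ {u | ∀ j : Fin n, sh (x : ℤ) (u j.castSucc) ∈ P j.succ})

/-- the measure `ν` on tuples is coded -/
def NCt (S : Set (Set ℕ)) {n : ℕ} (ν : Measure (Fin n → Om k)) : Prop :=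
  ArR S fun P : Fin n → HK.C k => ν.real (univ.pi fun j => HK.cyl (P j))

/-- all sums of at most `N` elements of `X` have one colour -/
def SolN (S : Set (Set ℕ)) (N : ℕ) (c : ℕ → Fin k) : Prop :=
  ∃ X ∈ S, X.Infinite ∧ (∀ x ∈ X, 0 < x) ∧ ∃ r, ∀ F : Finset ℕ, (F : Set ℕ) ⊆ X → F.Nonempty →
    F.card ≤ N → c (∑ x ∈ F, x) = r

/-! ### Case II -/

/-- tuples with the action of `T × T² × … × T^n` -/
def TP (n : ℕ) (X : Type) : Type := Fin n → X

section TP

variable {n : ℕ} {X : Type} [TopologicalSpace X]

instance : TopologicalSpace (TP n X) := inferInstanceAs (TopologicalSpace (Fin n → X))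
instance [CompactSpace X] : CompactSpace (TP n X) := inferInstanceAs (CompactSpace (Fin n → X))
instance [T2Space X] : T2Space (TP n X) := inferInstanceAs (T2Space (Fin n → X))

instance tpSys [Sys X] : Sys (TP n X) where
  sh m y := fun j => sh (((j : ℕ) + 1 : ℤ) * m) (y j)
  zero' y := by funext j; simp [sh_zero]
  add' a b y := by
    funext j
    change sh _ (y j) = sh _ (sh _ (y j))
    rw [← sh_add]
    congr 1
    ring
  cont' m := continuous_pi fun j => (sh_cont _).comp (continuous_apply j)

end TP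

/-- the system with the action of `T^a` -/
def PW (_a : ℤ) (X : Type) : Type := X

section PW

variable {a : ℤ} {X : Type} [TopologicalSpace X]

instance : TopologicalSpace (PW a X) := inferInstanceAs (TopologicalSpace X)
instance [CompactSpace X] : CompactSpace (PW a X) := inferInstanceAs (CompactSpace X)
instance [T2Space X] : T2Space (PW a X) := inferInstanceAs (T2Space X)

instance pwSys [Sys X] : Sys (PW a X) where
  sh m := (sh (a * m) : X → X)
  zero' y := by
    change (sh (a * 0) : X → X) y = y
    rw [mul_zero]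
    exact sh_zero (X := X) y
  add' l m y := by
    change (sh (a * (l + m)) : X → X) y = (sh (a * l) : X → X) ((sh (a * m) : X → X) y)
    rw [mul_add]
    exact sh_add (X := X) _ _ y
  cont' m := (sh_cont (a * m) : Continuous (sh (a * m) : X → X))

end PW

/-- the points of the system `Y` of measures near which the colour `r` has measure zero -/
def Zr {B : Type} [TopologicalSpace B] (Y : Set (B × PM k)) (r : Fin k) (y : B × PM k) : Prop :=
  ∃ V ∈ 𝓝 y, ∀ y' ∈ Y ∩ V, y'.2 {z | z 0 = r} = 0

end Pool.Agent.Work.MP_69fea5_lc.W3
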