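import Pool.Agent.Work.MP_69fea5_lc.W3.Final
import Pool.Agent.Work.MP_69fea5_lc.W3.DefsV

/-!
# The final theorem, sums of at most `n` terms for every `n`, two colours
-/

set_option autoImplicit false

namespace Pool.Agent.Work.MP_69fea5_lc.W3

open Pool.Agent.Work.MP_69fea5_lc
open Pool.Agent.Work.MP_69fea5_lc.HK (Cl DU Ar ArF Sol)
open Pool.Agent.Work.MP_69fea5_lc.KC (cl_of_ideal arF_of_classes)

/-- the positive theorem for families with a definable ultrafilter: a solution for sums of at most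
`n` terms, or every colour can be dropped -/
def S_MUN : Prop := ∀ (S : Set (Set ℕ)) (U : Ultrafilter ℕ), Cl S → DU S U → ∀ (k n : ℕ)
  (c : ℕ → Fin k), ArF S c → SolN S n c ∨ ∀ r : Fin k, N3.SolD S c (Finset.univ.erase r)

/-- the positive theorem -/
def S_MNN : Prop := ∀ (S : Set (Set ℕ)), Cl S → ∀ (k n : ℕ) (c : ℕ → Fin k), ArF S c →
  SolN S n c ∨ ∀ r : Fin k, N3.SolD S c (Finset.univ.erase r)

theorem SolN.mono {S : Set (Set ℕ)} {k n m : ℕ} {c : ℕ → Fin k} (h : SolN S n c) (hm : m ≤ n) :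
    SolN S m c := by
  obtain ⟨X, hX, h1, h2, r, h3⟩ := h
  exact ⟨X, hX, h1, h2, r, fun F hF hFn hc => h3 F hF hFn (hc.trans hm)⟩

theorem MNN_pf (hM : S_MUN) : S_MNN := by
  intro S hS k n c hc
  obtain ⟨S', hS', hco, hmem, hsub⟩ :=
    HK.exists_cl_countable (HK.cod fun p : ℕ × Fin k => c p.1 = p.2)
  obtain ⟨U, hU⟩ := HK.exists_DU hS' hco
  have hc' : ArF S' c := hmem
  rcases hM S' U hS' hU k n c hc' with ⟨A, hA, hA'⟩ | h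
  · exact Or.inl ⟨A, hsub S hS hc hA, hA'⟩
  · refine Or.inr fun r => ?_
    obtain ⟨A, hA, hA'⟩ := h r
    exact ⟨A, hsub S hS hc hA, hA'⟩

variable {S : Set (Set ℕ)}

/-- `n` terms, or a set without any given colour -/
theorem n_or_drop (hM : S_MNN) (hne : S.Nonempty)
    (hS : ∀ A ∈ S, ∀ B ∈ S, ∀ C : Set ℕ, RecursiveIn {charFn A, charFn B} (charFn C) → C ∈ S)
    (hp : ∀ A ∈ S, {n | ∃ m, Nat.pair n m ∈ A} ∈ S) (k n : ℕ) (c : ℕ → Fin k)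
    (hc : ∀ i, {x | c x = i} ∈ S) :
    (∃ X ∈ S, X.Infinite ∧ (∀ x ∈ X, 0 < x) ∧ ∃ i, ∀ F : Finset ℕ, (F : Set ℕ) ⊆ X →
      F.Nonempty → F.card ≤ n → c (∑ x ∈ F, x) = i) ∨
    ∀ r : Fin k, ∃ X ∈ S, X.Infinite ∧ (∀ x ∈ X, 0 < x) ∧ ∀ F : Finset ℕ, (F : Set ℕ) ⊆ X →
      F.Nonempty → c (∑ x ∈ F, x) ≠ r := by
  have hC := cl_of_ideal hne hS hp
  rcases hM S hC k n c (arF_of_classes hC hc) with h | h
  · exact Or.inl h
  · refine Or.inr fun r => ?_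
    obtain ⟨X, hX, h1, h2, h3⟩ := h r
    exact ⟨X, hX, h1, h2, fun F hF hFn => (Finset.mem_erase.1 (h3 F hF hFn)).1⟩

/-- two colours: sums of at most `n` terms -/
theorem n_two (hM : S_MNN) (hne : S.Nonempty)
    (hS : ∀ A ∈ S, ∀ B ∈ S, ∀ C : Set ℕ, RecursiveIn {charFn A, charFn B} (charFn C) → C ∈ S)
    (hp : ∀ A ∈ S, {n | ∃ m, Nat.pair n m ∈ A} ∈ S) (n : ℕ) (c : ℕ → Fin 2)
    (hc : ∀ i, {x | c x = i} ∈ S) :
    ∃ X ∈ S, X.Infinite ∧ (∀ x ∈ X, 0 < x) ∧ ∃ i, ∀ F : Finset ℕ, (F : Set ℕ) ⊆ X →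
      F.Nonempty → F.card ≤ n → c (∑ x ∈ F, x) = i := by
  rcases n_or_drop hM hne hS hp 2 n c hc with h | h
  · exact h
  · obtain ⟨X, hX, h1, h2, h3⟩ := h 0
    refine ⟨X, hX, h1, h2, 1, fun F hF hFn _ => ?_⟩
    have h5 : ∀ a : Fin 2, a ≠ 0 → a = 1 := by decide
    exact h5 _ (h3 F hF hFn)

/-- the exact strength: all cases -/
theorem finalN_of (hM : HK.S_MAIN) (hT : S_MAINT) (hN : S_MNN) (n k : ℕ)
    (hnk : (n = 2 ∧ 3 ≤ k) ∨ (n = 3 ∧ 2 ≤ k) ∨ (3 ≤ n ∧ k = 2)) (S : Set (Set ℕ))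
    (hne : S.Nonempty)
    (hS : ∀ A ∈ S, ∀ B ∈ S, ∀ C : Set ℕ, RecursiveIn {charFn A, charFn B} (charFn C) → C ∈ S) :
    (∀ c : ℕ → Fin k, (∀ i, {x | c x = i} ∈ S) →
      ∃ X ∈ S, X.Infinite ∧ (∀ x ∈ X, 0 < x) ∧ ∃ i, ∀ F : Finset ℕ, (F : Set ℕ) ⊆ X →
        F.Nonempty → F.card ≤ n → c (∑ x ∈ F, x) = i) ↔
    ∀ A ∈ S, {n | ∃ m, Nat.pair n m ∈ A} ∈ S := by
  rcases hnk with h | h | ⟨hn, rfl⟩
  · exact final_of hM hT n k (Or.inl h) S hne hS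
  · exact final_of hM hT n k (Or.inr h) S hne hS
  · refine ⟨fun h => N3.proj_of_sol3 hS fun c hc => ?_, fun hp c hc => n_two hN hne hS hp n c hc⟩
    obtain ⟨X, hX, h1, h2, i, h3⟩ := h c hc
    exact ⟨X, hX, h1, h2, i, fun F hF hFn hc => h3 F hF hFn (hc.trans hn)⟩

end Pool.Agent.Work.MP_69fea5_lc.W3
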