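import Pool.Agent.Work.MP_69fea5_lc.W3.ToolsD

/-!
# Block [69fea5 D]: glue (the statement XIT from KSY, XI1, XI2)
-/

set_option autoImplicit false

namespace Pool.Agent.Work.MP_69fea5_lc.W3D

open MeasureTheory Topology Set Filter
open ProbabilityTheory (Kernel)
open scoped ENNReal NNReal ProbabilityTheory
open Pool.Agent.Work.MP_69fea5_lc.AK (Sys sh sh_zero sh_add sh_cont orb MinSet)

theorem CLaw_mono {X : Type} [TopologicalSpace X] [MeasurableSpace X] [W3.CS X] [Sys X] {n : ℕ}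
    {lam : Measure X} {c c' : ℝ≥0} {P : Measure (Fin n → X)}
    {K : Fin n → X → ProbabilityMeasure (Fin n → X)} (h : W3.CLaw n lam c P K) (hc : c ≤ c') :
    W3.CLaw n lam c' P K :=
  { h with
    dom := fun j i hij x => (h.dom j i hij x).trans (by
      intro s
      have : (c : ℝ≥0∞) ≤ c' := by exact_mod_cast hc
      simp only [Measure.smul_apply, ENNReal.smul_def, smul_eq_mul]
      gcongr) }

theorem cn_eq {X : Type} [TopologicalSpace X] [MeasurableSpace X] [Sys X] [Nonempty X] {K : KT X}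
    (hK : KS K) {F : Type} [Finite F] {L : AddSubgroup (F → ℤ)} (hL : 1 ∈ L) {w : F → X}
    (hw : w ∈ NF X L) : cn K L = K F L ∅ w :=
  hK.cls F L hL ∅ _ (diag_mem_NF L _) w hw fun i hi => absurd hi (notMem_empty i)

theorem XIT_pf (hKSY : S_KSY) (hXI1 : S_XI1) (hXI2 : S_XI2) : S_XIT := by
  intro X _ _ _ _ _ h E ρ hmin hT
  haveI : SecondCountableTopology X := secondCountable_of_CS X
  obtain ⟨K, hK, hFK⟩ := hKSY X h E ρ hmin hT
  obtain ⟨Kj, hKj, h1, h2, h3, h4, h5, h6, h7, h8, h9, h10⟩ := hXI1 X K hK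
  refine ⟨cX K, fun n => cn K (Lc n), Kj, ?_, ?_⟩
  · refine ⟨h1, h2, h3, ?_, h5, h6, h7, h8, h9, h10⟩
    intro n
    obtain ⟨c, Kc, hc, hQ⟩ := hXI2 X K hK n (Kj n) fun j x => hKj n j x
    exact ⟨c, cn K (Lv n), Kc, CLaw_mono (h4 n) hc, hQ⟩
  · intro n Kf hKf
    refine ⟨fun w => ?_, fun j m hm hm' w => ?_⟩
    · change cn K (Lc n) = _
      rw [cn_eq hK (one_mem_Lc n) w.2]
      exact hFK (Fin n) (Lc n) (one_mem_Lc n) Kf hKf ∅ 0 (fun i hi => absurd hi (notMem_empty i))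
        (fun i _ => rfl) w
    · rw [hKj, ← hFK (Fin n) (Lc n) (one_mem_Lc n) Kf hKf {j} m
        (fun i hi => by rw [mem_singleton_iff.1 hi, hm]) (fun i hi => hm' i hi) w]
      exact hK.cls (Fin n) (Lc n) (one_mem_Lc n) {j} _ (diag_mem_NF _ _) _ w.2
        fun i hi => by rw [mem_singleton_iff.1 hi]

end Pool.Agent.Work.MP_69fea5_lc.W3D
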