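import Pool.Agent.Work.MP_69fea5_lc.W3.StmtsT

set_option autoImplicit false

namespace Pool.Agent.Work.MP_69fea5_lc.W3

open MeasureTheory Topology Set Filter TopologicalSpace
open scoped NNReal ENNReal
open Pool.Agent.Work.MP_69fea5_lc.AK

namespace I_FDL

variable {O : Type} [TopologicalSpace O] [MeasurableSpace O] [CS O]

/-- carried by a measurable set: almost everywhere form -/
theorem ae_of_one {K : Type} [MeasurableSpace K] (κ : ProbabilityMeasure K) (S : Set K)
    (hS : MeasurableSet S) (h : κ S = 1) : ∀ᵐ q ∂(κ : Measure K), q ∈ S := by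
  have h1 : (κ : Measure K) S = 1 := by
    rw [← ProbabilityMeasure.ennreal_coeFn_eq_coeFn_toMeasure, h]
    simp
  rw [ae_iff]
  change (κ : Measure K) Sᶜ = 0
  rw [prob_compl_eq_zero_iff hS]
  exact h1

end I_FDL

open I_FDL in
/-- the family of the point masses -/
theorem FDL_pf (h1 : S_PMG) (h2 : S_BRX) : S_FDL := by
  intro O X _ _ _ _ _ _ _ _ A hA hAi
  have hmap : Continuous (fun p : O × X => ((p.2, diracProba p.1) : X × ProbabilityMeasure O)) :=
    continuous_snd.prodMk (continuous_diracProba.comp continuous_fst)
  have hDc : IsClosed (Dlt A) := (hA.isCompact.image hmap).isClosed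
  have hdi : Function.Injective (diracProba : O → ProbabilityMeasure O) := (h1 O).2.2.2.1
  have hmem : ∀ (x : X) (u : O), ((x, diracProba u) : X × ProbabilityMeasure O) ∈ Dlt A ↔
      (u, x) ∈ A := by
    intro x u
    constructor
    · rintro ⟨⟨u', x'⟩, hA', he⟩
      have e1 : x' = x := congrArg Prod.fst he
      have e2 : diracProba u' = diracProba u := congrArg Prod.snd he
      rw [← e1, ← hdi e2]
      exact hA'
    · intro h
      exact ⟨(u, x), h, rfl⟩
  refine ⟨hDc, ?_, ?_, ?_⟩
  · -- invariance
    rintro n _ ⟨⟨u, x⟩, hux, rfl⟩
    have h3 := hAi n (u, x) hux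
    refine ⟨sh n (u, x), h3, ?_⟩
    have h4 := (h1 O).2.1 n u
    change ((sh n x, diracProba (sh n u)) : X × ProbabilityMeasure O) =
      (sh n x, sh n (diracProba u))
    rw [h4]
  · -- the base
    ext x
    constructor
    · rintro ⟨_, ⟨⟨u, x'⟩, hux, rfl⟩, rfl⟩
      exact ⟨(u, x'), hux, rfl⟩
    · rintro ⟨⟨u, x'⟩, hux, rfl⟩
      exact ⟨(x', diracProba u), ⟨(u, x'), hux, rfl⟩, rfl⟩
  · -- the family
    ext ⟨x, m⟩
    have hF : IsClosed {u : O | (u, x) ∈ A} :=
      hA.preimage (Continuous.prodMk continuous_id continuous_const)
    have hS : IsClosed {m' : ProbabilityMeasure O | (x, m') ∈ Dlt A} :=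
      hDc.preimage (Continuous.prodMk continuous_const continuous_id)
    constructor
    · rintro ⟨κ, hκ, hB⟩
      have h3 := (h2 (ProbabilityMeasure O) O κ id measurable_id).2.2.1 m hB
        {u : O | (u, x) ∈ A} hF.measurableSet
      have h4 : ∫⁻ q : ProbabilityMeasure O, ((id q : ProbabilityMeasure O) : Measure O)
          {u : O | (u, x) ∈ A} ∂(κ : Measure (ProbabilityMeasure O)) = 1 := by
        have h5 : ∀ᵐ q ∂(κ : Measure (ProbabilityMeasure O)),
            ((id q : ProbabilityMeasure O) : Measure O) {u : O | (u, x) ∈ A} = 1 := by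
          filter_upwards [ae_of_one κ _ hS.measurableSet hκ] with q hq
          obtain ⟨⟨u, x'⟩, hux, he⟩ := hq
          have e1 : x' = x := congrArg Prod.fst he
          have e2 : diracProba u = q := congrArg Prod.snd he
          rw [← e2]
          change Measure.dirac u {u : O | (u, x) ∈ A} = 1
          rw [Measure.dirac_apply' _ hF.measurableSet]
          rw [e1] at hux
          simp [hux]
        rw [lintegral_congr_ae h5]
        simp
      rw [h4] at h3
      change m {u : O | (u, x) ∈ A} = 1
      rw [← ENNReal.coe_inj, ProbabilityMeasure.ennreal_coeFn_eq_coeFn_toMeasure, h3]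
      simp
    · intro hm
      change m {u : O | (u, x) ∈ A} = 1 at hm
      have hdm : Measurable (diracProba : O → ProbabilityMeasure O) :=
        continuous_diracProba.measurable
      refine ⟨m.map (f := (diracProba : O → ProbabilityMeasure O)) hdm.aemeasurable, ?_, ?_⟩
      · rw [ProbabilityMeasure.map_apply _ _ hS.measurableSet]
        have h3 : (diracProba : O → ProbabilityMeasure O) ⁻¹'
            {m' : ProbabilityMeasure O | (x, m') ∈ Dlt A} = {u : O | (u, x) ∈ A} := by
          ext u
          exact hmem x u
        have h4 : (diracProba : O → ProbabilityMeasure O) ⁻¹'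
            {m' : ProbabilityMeasure O | ((x, m) : X × ProbabilityMeasure O).1 = x ∧
              (x, m') ∈ Dlt A} = {u : O | (u, x) ∈ A} := by
          ext u
          simpa using hmem x u
        rw [h3]
        exact hm
      · change Measure.bind (Measure.map (diracProba : O → ProbabilityMeasure O)
          (m : Measure O)) (fun q => ((id q : ProbabilityMeasure O) : Measure O)) = (m : Measure O)
        have h3 : Measurable (fun q : ProbabilityMeasure O =>
            ((id q : ProbabilityMeasure O) : Measure O)) := measurable_subtype_coe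
        ext s hs
        rw [Measure.bind_apply hs h3.aemeasurable, lintegral_map _ hdm]
        · have h4 : ∀ u : O, ((id (diracProba u) : ProbabilityMeasure O) : Measure O) s =
              s.indicator 1 u := by
            intro u
            change Measure.dirac u s = _
            exact Measure.dirac_apply' _ hs
          simp_rw [h4]
          rw [lintegral_indicator_one hs]
        · exact (Measure.measurable_coe hs).comp h3

end Pool.Agent.Work.MP_69fea5_lc.W3
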