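import Pool.Agent.Work.MP_69fea5_lc.W3.StmtsG

/-!
# Item GAP of block [69fea5 W3 G]: in a distal flow every orbit closure is minimal
-/

set_option autoImplicit false

namespace Pool.Agent.Work.MP_69fea5_lc.W3

open Topology Set Filter
open Pool.Agent.Work.MP_69fea5_lc.AK

theorem GAP_pf (hGFL : S_GFL) (hGUL : S_GUL) (hGUI : S_GUI) : S_GAP := by
  intro G X _ _ _ _ A K hA hK hinv hd x hx
  obtain ⟨h1, h2, _, h4, _⟩ := hGFL G X A hA
  obtain ⟨hcl, hi, hmem⟩ := h1 x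
  refine h4 (orbA A x) hcl ⟨x, hmem⟩ hi ?_
  intro y hy
  have hyK : y ∈ K := h2 x K hK hinv hx hy
  obtain ⟨F, hF⟩ := ((hGUL G X A).2 x y).1 hy
  obtain ⟨F', hF'⟩ := hGUI G X A K hA hK hinv hd F
  have hxy : x ∈ orbA A y := ((hGUL G X A).2 y x).2 ⟨F', (hF' x hx y hyK).1 hF⟩
  obtain ⟨hcl', hi', _⟩ := h1 y
  exact h2 x (orbA A y) hcl' hi' hxy

end Pool.Agent.Work.MP_69fea5_lc.W3
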