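import Pool.Agent.Work.MP_69fea5_lc.W3.StmtsG

/-!
Block [69fea5 W3 G], item GCL: the orbit closures of a power of `T`.
-/

set_option autoImplicit false

namespace Pool.Agent.Work.MP_69fea5_lc.W3

open MeasureTheory Topology Set Filter TopologicalSpace
open Pool.Agent.Work.MP_69fea5_lc.AK

namespace I_GCL

/-- the action of `ℤ` by the powers of `T ^ q` -/
def B (Z : Type) [TopologicalSpace Z] [Sys Z] (q : ℤ) : ℤ → Z → Z := fun m z => sh (q * m) z

section

variable {Z : Type} [TopologicalSpace Z] [Sys Z] {q : ℤ}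

theorem flow_B : Flow (B Z q) where
  zero x := by simp [B, sh_zero]
  add g h x := by
    show sh (q * (g + h)) x = sh (q * g) (sh (q * h) x)
    rw [mul_add, sh_add]
  cont g := sh_cont _

theorem distal_B (h : DistalOn (shA Z) univ) : DistalOn (B Z q) univ := by
  intro F x y z hx hy h1 h2
  refine h (F.map fun m => q * m) x y z hx hy ?_ ?_
  · rw [Ultrafilter.coe_map, tendsto_map'_iff]
    exact h1
  · rw [Ultrafilter.coe_map, tendsto_map'_iff]
    exact h2

theorem sh_mem {x y : Z} (n : ℤ) (hx : x ∈ orbA (B Z q) y) : sh n x ∈ orbA (B Z q) (sh n y) := by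
  unfold orbA at hx ⊢
  refine map_mem_closure (sh_cont n) hx ?_
  rintro _ ⟨m, rfl⟩
  refine ⟨m, ?_⟩
  show sh (q * m) (sh n y) = sh n (sh (q * m) y)
  rw [← sh_add, ← sh_add, add_comm]

end

end I_GCL

open I_GCL in
theorem GCL_pf (hGFL : S_GFL) (hGAP : S_GAP) : S_GCL := by
  intro Z _ _ _ q hq hmin hdist
  obtain ⟨hself, -, hEq, -, -⟩ := hGFL ℤ Z (B Z q) flow_B
  have hM : ∀ x, MinA (B Z q) (orbA (B Z q) x) := fun x =>
    hGAP ℤ Z (B Z q) univ flow_B isClosed_univ (fun _ _ _ => mem_univ _) (distal_B hdist) x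
      (mem_univ x)
  have hC : ∀ x y, x ∈ orbA (B Z q) y → orbA (B Z q) x = orbA (B Z q) y := fun x y hx =>
    hEq x _ (hM y) hx
  obtain ⟨z₀, -⟩ := hmin.ne
  have hfin : (Set.Ico (0 : ℤ) |q|).Finite := Set.finite_Ico _ _
  -- the finitely many classes cover
  have hcov : (⋃ r ∈ Set.Ico (0 : ℤ) |q|, orbA (B Z q) (sh r z₀)) = univ := by
    refine hmin.min _ (hfin.isClosed_biUnion fun r _ => (hself _).1) ?_ ?_ (subset_univ _)
    · refine ⟨z₀, ?_⟩
      rw [mem_iUnion₂]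
      refine ⟨0, ⟨le_refl _, abs_pos.mpr hq⟩, ?_⟩
      rw [sh_zero]
      exact (hself z₀).2.2
    · intro n x hx
      rw [mem_iUnion₂] at hx ⊢
      obtain ⟨r, -, hx⟩ := hx
      refine ⟨(n + r) % q, ⟨Int.emod_nonneg _ hq, Int.emod_lt_abs _ hq⟩, ?_⟩
      have h1 := sh_mem n hx
      have h2 : sh n (sh r z₀) ∈ orbA (B Z q) (sh ((n + r) % q) z₀) := by
        refine subset_closure ⟨(n + r) / q, ?_⟩
        show sh (q * ((n + r) / q)) (sh ((n + r) % q) z₀) = sh n (sh r z₀)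
        rw [← sh_add, ← sh_add, Int.mul_ediv_add_emod]
      rw [← hC _ _ h2]
      exact h1
  have hopen : ∀ z, IsOpen (orbA (B Z q) z) := by
    intro z
    have h1 : orbA (B Z q) z = (⋃ r ∈ {r : ℤ | r ∈ Set.Ico (0 : ℤ) |q| ∧
        orbA (B Z q) (sh r z₀) ≠ orbA (B Z q) z}, orbA (B Z q) (sh r z₀))ᶜ := by
      ext x
      constructor
      · intro hx hx'
        rw [mem_iUnion₂] at hx'
        obtain ⟨r, hr, hx'⟩ := hx'
        exact hr.2 ((hC _ _ hx').symm.trans (hC _ _ hx))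
      · intro hx
        have h2 : x ∈ ⋃ r ∈ Set.Ico (0 : ℤ) |q|, orbA (B Z q) (sh r z₀) := by
          rw [hcov]; exact mem_univ x
        rw [mem_iUnion₂] at h2
        obtain ⟨r, hr, h2⟩ := h2
        by_contra h3
        apply hx
        rw [mem_iUnion₂]
        exact ⟨r, ⟨hr, fun e => h3 (e ▸ h2)⟩, h2⟩
    rw [h1, isOpen_compl_iff]
    exact (hfin.subset fun r hr => hr.1).isClosed_biUnion fun r _ => (hself _).1
  obtain ⟨δ, hδ, h⟩ := lebesgue_number_lemma_of_metric (isCompact_univ (X := Z)) hopen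
    (fun x _ => mem_iUnion.2 ⟨x, (hself x).2.2⟩)
  refine ⟨δ, hδ, ?_⟩
  intro z e hze
  obtain ⟨w, hw⟩ := h z (mem_univ z)
  have h1 : z ∈ orbA (B Z q) w := hw (Metric.mem_ball_self hδ)
  have h2 : e ∈ orbA (B Z q) w := hw (by rw [Metric.mem_ball, dist_comm]; exact hze)
  have h3 : e ∈ orbA (B Z q) z := by
    rw [hC _ _ h1]
    exact h2
  exact h3

end Pool.Agent.Work.MP_69fea5_lc.W3
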