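import Pool.Agent.Work.MP_69fea5_lc.W3.StmtsG

/-!
# Item [69fea5 W3 GDI]: towers are distal
-/

set_option autoImplicit false

namespace Pool.Agent.Work.MP_69fea5_lc.W3

open MeasureTheory Topology Set Filter TopologicalSpace
open Pool.Agent.Work.MP_69fea5_lc.AK

theorem GDI_pf : S_GDI := by
  intro n Z _ _ _ _ X _ _ _ π hT F x y z _ _ hx hy
  have key : ∀ l, π l x = π l y := by
    intro l
    induction l with
    | zero => exact hT.zero x y
    | succ l ih =>
      obtain ⟨ρ, hρ, hiff⟩ := hT.iso l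
      refine (hiff x y ih).1 ?_
      have hmem : ∀ g : ℤ, ((sh g x, sh g y) : Z × Z) ∈ {q : Z × Z | π l q.1 = π l q.2} := by
        intro g
        show π l (sh g x) = π l (sh g y)
        rw [hT.equi, hT.equi, ih]
      have hz : ((z, z) : Z × Z) ∈ {q : Z × Z | π l q.1 = π l q.2} := rfl
      have h1 : Tendsto (fun g : ℤ => ((sh g x, sh g y) : Z × Z)) (F : Filter ℤ)
          (𝓝[{q : Z × Z | π l q.1 = π l q.2}] (z, z)) :=
        tendsto_nhdsWithin_iff.2 ⟨hx.prodMk_nhds hy, Eventually.of_forall hmem⟩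
      have h2 : Tendsto (fun g : ℤ => ρ (sh g x) (sh g y)) (F : Filter ℤ) (𝓝 (ρ z z)) :=
        (hρ.cont (z, z) hz).tendsto.comp h1
      rw [hρ.self z] at h2
      have h3 : (fun g : ℤ => ρ (sh g x) (sh g y)) = fun _ => ρ x y := by
        funext g
        exact hρ.inv g x y ih
      rw [h3] at h2
      exact tendsto_nhds_unique tendsto_const_nhds h2
  exact hT.top x y (key _)

end Pool.Agent.Work.MP_69fea5_lc.W3
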