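import Pool.Agent.Work.MP_69fea5_lc.W3.StmtsG

/-!
# [69fea5 W3 GDS] the distance to `PG n Z` in the fibres
-/

set_option autoImplicit false

namespace Pool.Agent.Work.MP_69fea5_lc.W3

open MeasureTheory Topology Set Filter TopologicalSpace
open Pool.Agent.Work.MP_69fea5_lc.AK

namespace I_GDS

variable {n : ℕ} {Z X : Type} [MetricSpace Z] [CompactSpace Z] [Sys Z]
  [TopologicalSpace X] [T2Space X] [Sys X]

/-- the pairs with the same `p`-images -/
def R (n : ℕ) {Z X : Type} (p : Z → X) : Set ((Fin n → Z) × (Fin n → Z)) :=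
  {q | ∀ i, p (q.1 i) = p (q.2 i)}

/-- the fibre of `x` in `PG n Z` -/
def S (n : ℕ) {Z X : Type} [TopologicalSpace Z] [Sys Z] (p : Z → X) (x : Fin n → Z) :
    Set (Fin n → Z) :=
  {y | y ∈ PG n Z ∧ ∀ i, p (x i) = p (y i)}

/-- the sum of the distances -/
noncomputable def ph (ρ : Fin n → Z → Z → ℝ) (x y : Fin n → Z) : ℝ := ∑ i, ρ i (x i) (y i)

/-- the infimum -/
noncomputable def gg (p : Z → X) (ρ : Fin n → Z → Z → ℝ) (x : Fin n → Z) : ℝ :=
  sInf (ph ρ x '' S n p x)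

theorem closed_R {p : Z → X} (hp : Continuous p) : IsClosed (R n p) := by
  have : R n p = ⋂ i : Fin n, {q : (Fin n → Z) × (Fin n → Z) | p (q.1 i) = p (q.2 i)} := by
    ext q; simp [R]
  rw [this]
  refine isClosed_iInter fun i => isClosed_eq ?_ ?_
  · exact hp.comp ((continuous_apply i).comp continuous_fst)
  · exact hp.comp ((continuous_apply i).comp continuous_snd)

theorem cont_ph {p : Z → X} {ρ : Fin n → Z → Z → ℝ} (hρ : ∀ i, CI p (ρ i)) :
    ContinuousOn (fun q : (Fin n → Z) × (Fin n → Z) => ph ρ q.1 q.2) (R n p) := by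
  unfold ph
  refine continuousOn_finset_sum _ fun i _ => ?_
  have h2 : ContinuousOn (fun q : (Fin n → Z) × (Fin n → Z) => ((q.1 i, q.2 i) : Z × Z))
      (R n p) := by
    apply Continuous.continuousOn
    exact ((continuous_apply i).comp continuous_fst).prodMk
      ((continuous_apply i).comp continuous_snd)
  exact (hρ i).cont.comp h2 (fun q hq => hq i)

theorem closed_S (hPc : IsClosed (PG n Z)) {p : Z → X} (hp : Continuous p) (x : Fin n → Z) :
    IsClosed (S n p x) := by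
  have : S n p x = PG n Z ∩ ⋂ i : Fin n, {y : Fin n → Z | p (x i) = p (y i)} := by
    ext q; simp [S]
  rw [this]
  refine hPc.inter (isClosed_iInter fun i => isClosed_eq continuous_const ?_)
  exact hp.comp (continuous_apply i)

theorem ph_nonneg {p : Z → X} {ρ : Fin n → Z → Z → ℝ} (hρ : ∀ i, CI p (ρ i))
    {x y : Fin n → Z} (h : ∀ i, p (x i) = p (y i)) : 0 ≤ ph ρ x y :=
  Finset.sum_nonneg fun i _ => (hρ i).nonneg _ _ (h i)

theorem gg_le {p : Z → X} {ρ : Fin n → Z → Z → ℝ} (hρ : ∀ i, CI p (ρ i))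
    {x y : Fin n → Z} (hy : y ∈ S n p x) : gg p ρ x ≤ ph ρ x y := by
  refine csInf_le ⟨0, ?_⟩ ⟨y, hy, rfl⟩
  rintro _ ⟨y', hy', rfl⟩
  exact ph_nonneg hρ hy'.2

theorem gg_att (hPc : IsClosed (PG n Z)) {p : Z → X} (hp : Continuous p)
    {ρ : Fin n → Z → Z → ℝ} (hρ : ∀ i, CI p (ρ i)) {x : Fin n → Z} (hx : x ∈ WP n p) :
    ∃ y ∈ S n p x, ph ρ x y = gg p ρ x := by
  obtain ⟨y₀, hy₀, hxy₀⟩ := hx
  have hne : (S n p x).Nonempty := ⟨y₀, hy₀, hxy₀⟩
  have hc : IsCompact (S n p x) := (closed_S hPc hp x).isCompact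
  have hcont : ContinuousOn (ph ρ x) (S n p x) := by
    have h2 : ContinuousOn (fun y : Fin n → Z => ((x, y) : (Fin n → Z) × (Fin n → Z)))
        (S n p x) := (Continuous.prodMk continuous_const continuous_id).continuousOn
    exact (cont_ph hρ).comp h2 (fun y hy => hy.2)
  obtain ⟨y, hy, hmin⟩ := hc.exists_isMinOn hne hcont
  refine ⟨y, hy, le_antisymm ?_ (gg_le hρ hy)⟩
  refine le_csInf (hne.image _) ?_
  rintro _ ⟨y', hy', rfl⟩
  exact hmin hy'

theorem gg_inv_le (hPc : IsClosed (PG n Z))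
    {p : Z → X} (hp : Continuous p) (he : ∀ (m : ℤ) z, p (sh m z) = sh m (p z))
    {ρ : Fin n → Z → Z → ℝ} (hρ : ∀ i, CI p (ρ i)) (m : ℤ)
    (hPs : ∀ x ∈ PG n Z, (fun i => sh m (x i)) ∈ PG n Z) {x : Fin n → Z}
    (hx : x ∈ WP n p) : gg p ρ (fun i => sh m (x i)) ≤ gg p ρ x := by
  obtain ⟨y, hy, hyx⟩ := gg_att hPc hp hρ hx
  rw [← hyx]
  have hS : (fun i => sh m (y i)) ∈ S n p (fun i => sh m (x i)) := by
    refine ⟨hPs y hy.1, fun i => ?_⟩
    change p (sh m (x i)) = p (sh m (y i))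
    rw [he, he, hy.2 i]
  refine (gg_le hρ hS).trans (le_of_eq ?_)
  unfold ph
  exact Finset.sum_congr rfl fun i _ => (hρ i).inv m _ _ (hy.2 i)

theorem wp_inv {p : Z → X} (he : ∀ (m : ℤ) z, p (sh m z) = sh m (p z)) (m : ℤ)
    (hPs : ∀ x ∈ PG n Z, (fun i => sh m (x i)) ∈ PG n Z) {x : Fin n → Z}
    (hx : x ∈ WP n p) : (fun i => sh m (x i)) ∈ WP n p := by
  obtain ⟨y, hy, hxy⟩ := hx
  refine ⟨fun i => sh m (y i), hPs y hy, fun i => ?_⟩
  change p (sh m (x i)) = p (sh m (y i))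
  rw [he, he, hxy i]

end I_GDS

open I_GDS in
theorem GDS_pf (hGPR : S_GPR) (hGOP : S_GOP) : S_GDS := by
  intro n Z X _ _ _ _ _ _ p ρ hmin hdis hp he hρ
  obtain ⟨⟨hPc, hPne, hPinv⟩, hdiag, -, hPsh, -, -, -, hPd⟩ := hGPR n Z hmin
  obtain ⟨hPdis, hPmin⟩ := hPd hdis
  have hPs : ∀ m : ℤ, ∀ x ∈ PG n Z, (fun i => sh m (x i)) ∈ PG n Z := by
    intro m x hx
    have := hPsh x hx m 0
    simpa using this
  -- openness over the base
  have hopen : ∀ U : Set (Fin n → Z), IsOpen U → ∀ y ∈ U ∩ PG n Z,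
      ∃ V ∈ 𝓝 (fun i => p (y i)), V ∩ (fun v : Fin n → Z => fun i => p (v i)) '' PG n Z ⊆
        (fun v : Fin n → Z => fun i => p (v i)) '' (U ∩ PG n Z) := by
    refine hGOP (ℤ × ℤ) (Fin n → Z) (Fin n → X) (prA n Z) (prA n X) (PG n Z)
      (fun v i => p (v i)) (flow_cfA _) hPmin
      (fun F x y z _ _ h1 h2 => hPdis F x y z (mem_univ _) (mem_univ _) h1 h2) ?_ ?_
    · exact (continuous_pi fun i => hp.comp (continuous_apply i)).continuousOn
    · intro g x _
      funext i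
      simp only [prA, cfA]
      exact he _ _
  refine ⟨gg p ρ, ?_, ?_, ?_⟩
  · -- continuity
    intro x hx
    obtain ⟨y, hy, hyx⟩ := gg_att hPc hp hρ hx
    rw [ContinuousWithinAt, Metric.tendsto_nhds]
    intro ε hε
    -- upper bound
    have hup : ∀ᶠ x' in 𝓝[WP n p] x, gg p ρ x' < gg p ρ x + ε := by
      have h1 : ContinuousWithinAt (fun q : (Fin n → Z) × (Fin n → Z) => ph ρ q.1 q.2)
          (R n p) (x, y) := cont_ph hρ (x, y) hy.2
      have h2 : ∀ᶠ q in 𝓝[R n p] (x, y), ph ρ q.1 q.2 < gg p ρ x + ε := by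
        refine h1.eventually (gt_mem_nhds ?_)
        change ph ρ x y < gg p ρ x + ε
        linarith
      rw [eventually_nhdsWithin_iff, nhds_prod_eq, eventually_prod_iff] at h2
      obtain ⟨pa, hpa, pb, hpb, h3⟩ := h2
      obtain ⟨U, hUb, hUo, hyU⟩ := mem_nhds_iff.mp hpb
      obtain ⟨V, hV, hVs⟩ := hopen U hUo y ⟨hyU, hy.1⟩
      have hxy : (fun i => p (y i)) = fun i => p (x i) := by
        funext i; exact (hy.2 i).symm
      rw [hxy] at hV
      have hpc : Continuous (fun v : Fin n → Z => fun i => p (v i)) :=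
        continuous_pi fun i => hp.comp (continuous_apply i)
      have hV' : ∀ᶠ x' in 𝓝 x, (fun i => p (x' i)) ∈ V := hpc.continuousAt.eventually hV
      rw [eventually_nhdsWithin_iff]
      filter_upwards [hpa, hV'] with x' h4 h5 hx'
      obtain ⟨y0, hy0, hxy0⟩ := hx'
      obtain ⟨y', ⟨hy'U, hy'P⟩, hy'e⟩ := hVs ⟨h5, y0, hy0, by
        funext i; exact (hxy0 i).symm⟩
      have hR : ∀ i, p (x' i) = p (y' i) := fun i => (congrFun hy'e i).symm
      have h6 : ph ρ x' y' < gg p ρ x + ε := h3 h4 (hUb hy'U) hR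
      exact (gg_le hρ ⟨hy'P, hR⟩).trans_lt h6
    -- lower bound
    have hlo : ∀ᶠ x' in 𝓝[WP n p] x, gg p ρ x - ε < gg p ρ x' := by
      let C : Set ((Fin n → Z) × (Fin n → Z)) :=
        {q | q ∈ R n p ∧ ph ρ q.1 q.2 ≤ gg p ρ x - ε} ∩ {q | q.2 ∈ PG n Z}
      have hC : IsClosed C := by
        refine IsClosed.inter ?_ (hPc.preimage continuous_snd)
        have := (cont_ph hρ).preimage_isClosed_of_isClosed (closed_R hp)
          (isClosed_Iic (a := gg p ρ x - ε))
        exact this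
      have hC2 : IsClosed (Prod.fst '' C) := (hC.isCompact.image continuous_fst).isClosed
      have hxC : x ∉ Prod.fst '' C := by
        rintro ⟨⟨x1, y1⟩, ⟨⟨h1, h2⟩, h3⟩, h4⟩
        simp only at h4
        subst h4
        have h5 := gg_le hρ (x := x1) (y := y1) ⟨h3, h1⟩
        simp only at h2
        linarith
      have h7 : ∀ᶠ x' in 𝓝 x, x' ∉ Prod.fst '' C := hC2.isOpen_compl.mem_nhds hxC
      rw [eventually_nhdsWithin_iff]
      filter_upwards [h7] with x' h8 hx'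
      by_contra hcon
      push_neg at hcon
      obtain ⟨y', hy', hyx'⟩ := gg_att hPc hp hρ hx'
      exact h8 ⟨(x', y'), ⟨⟨hy'.2, by simpa [hyx'] using hcon⟩, hy'.1⟩, rfl⟩
    filter_upwards [hup, hlo] with x' h1 h2
    rw [Real.dist_eq, abs_lt]
    constructor <;> linarith
  · -- invariance
    intro x hx
    refine le_antisymm (gg_inv_le hPc hp he hρ 1 (hPs 1) hx) ?_
    have h1 := gg_inv_le hPc hp he hρ (-1) (hPs (-1)) (wp_inv he 1 (hPs 1) hx)
    have h2 : (fun i => sh (-1) ((fun i => sh 1 (x i)) i) : Fin n → Z) = x := by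
      funext i
      change sh (-1) (sh 1 (x i)) = x i
      rw [← sh_add]
      simp [sh_zero]
    rw [h2] at h1
    exact h1
  · -- zero set
    intro x hx
    constructor
    · intro h0
      obtain ⟨y, hy, hyx⟩ := gg_att hPc hp hρ hx
      refine ⟨y, hy.1, hy.2, fun i => ?_⟩
      rw [h0] at hyx
      have := (Finset.sum_eq_zero_iff_of_nonneg
        (fun i _ => (hρ i).nonneg _ _ (hy.2 i))).mp hyx i (Finset.mem_univ i)
      exact this
    · rintro ⟨y, hy, hxy, h0⟩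
      have h1 := gg_le hρ (x := x) (y := y) ⟨hy, hxy⟩
      have h2 : ph ρ x y = 0 := Finset.sum_eq_zero fun i _ => h0 i
      obtain ⟨y', hy', hyx'⟩ := gg_att hPc hp hρ hx
      have h3 := ph_nonneg hρ hy'.2
      linarith

end Pool.Agent.Work.MP_69fea5_lc.W3
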