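import Pool.Agent.Work.MP_69fea5_lc.W3.StmtsG

/-!
# Item GEQ: relative equicontinuity gives an invariant pseudometric
-/

set_option autoImplicit false

namespace Pool.Agent.Work.MP_69fea5_lc.W3

open MeasureTheory Topology Set Filter TopologicalSpace
open Pool.Agent.Work.MP_69fea5_lc.AK

namespace I_GEQ

section

variable {Z : Type} [MetricSpace Z] [CompactSpace Z] [Sys Z]

/-- The supremum of `h` over the orbit of a pair. -/
noncomputable def rh (h : Z → Z → ℝ) (z z' : Z) : ℝ := ⨆ m : ℤ, h (sh m z) (sh m z')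

omit [Sys Z] in
theorem bdd {h : Z → Z → ℝ} (hc : Continuous fun q : Z × Z => h q.1 q.2) :
    ∃ B, ∀ z z', h z z' ≤ B := by
  obtain ⟨B, hB⟩ := (isCompact_univ (X := Z × Z)).bddAbove_image hc.continuousOn
  refine ⟨B, fun z z' => ?_⟩
  exact hB ⟨(z, z'), mem_univ _, rfl⟩

theorem le_rh {h : Z → Z → ℝ} (hc : Continuous fun q : Z × Z => h q.1 q.2) (z z' : Z)
    (m : ℤ) : h (sh m z) (sh m z') ≤ rh h z z' := by
  obtain ⟨B, hB⟩ := bdd hc
  unfold rh
  exact le_ciSup (f := fun m : ℤ => h (sh m z) (sh m z'))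
    ⟨B, by rintro _ ⟨m, rfl⟩; exact hB _ _⟩ m

omit [CompactSpace Z] in
theorem rh_le {h : Z → Z → ℝ} {z z' : Z} {c : ℝ} (hh : ∀ m : ℤ, h (sh m z) (sh m z') ≤ c) :
    rh h z z' ≤ c := ciSup_le hh

theorem h_le_rh {h : Z → Z → ℝ} (hc : Continuous fun q : Z × Z => h q.1 q.2) (z z' : Z) :
    h z z' ≤ rh h z z' := by
  have h1 := le_rh hc z z' 0
  rwa [sh_zero, sh_zero] at h1

theorem rh_inv {h : Z → Z → ℝ} (hc : Continuous fun q : Z × Z => h q.1 q.2) (n : ℤ) (z z' : Z) :
    rh h (sh n z) (sh n z') = rh h z z' := by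
  apply le_antisymm
  · apply rh_le
    intro m
    rw [← sh_add, ← sh_add]
    exact le_rh hc z z' (m + n)
  · apply rh_le
    intro m
    have h1 := le_rh hc (sh n z) (sh n z') (m - n)
    rwa [← sh_add, ← sh_add, sub_add_cancel] at h1

theorem rh_tri {h : Z → Z → ℝ} (hc : Continuous fun q : Z × Z => h q.1 q.2)
    (htri : ∀ z z' z'', h z z'' ≤ h z z' + h z' z'') (z z' z'' : Z) :
    rh h z z'' ≤ rh h z z' + rh h z' z'' := by
  apply rh_le
  intro m
  have h1 := le_rh hc z z' m
  have h2 := le_rh hc z' z'' m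
  have h3 := htri (sh m z) (sh m z') (sh m z'')
  linarith

omit [CompactSpace Z] in
/-- The product action is distal. -/
theorem dist_prod (hd : DistalOn (shA Z) univ) : DistalOn (shA (Z × Z)) univ := by
  intro F x y z _ _ hx hy
  have hx1 : Tendsto (fun g => sh g x.1) (F : Filter ℤ) (𝓝 z.1) :=
    (continuous_fst.tendsto z).comp hx
  have hx2 : Tendsto (fun g => sh g x.2) (F : Filter ℤ) (𝓝 z.2) :=
    (continuous_snd.tendsto z).comp hx
  have hy1 : Tendsto (fun g => sh g y.1) (F : Filter ℤ) (𝓝 z.1) :=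
    (continuous_fst.tendsto z).comp hy
  have hy2 : Tendsto (fun g => sh g y.2) (F : Filter ℤ) (𝓝 z.2) :=
    (continuous_snd.tendsto z).comp hy
  exact Prod.ext (hd F x.1 y.1 z.1 (mem_univ _) (mem_univ _) hx1 hy1)
    (hd F x.2 y.2 z.2 (mem_univ _) (mem_univ _) hx2 hy2)

/-- The level sets of `rh` are closed. -/
theorem closed_rh {h : Z → Z → ℝ} (hc : Continuous fun q : Z × Z => h q.1 q.2) (c : ℝ) :
    IsClosed {q : Z × Z | rh h q.1 q.2 ≤ c} := by
  have h1 : {q : Z × Z | rh h q.1 q.2 ≤ c} =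
      ⋂ m : ℤ, {q : Z × Z | h (sh m q.1) (sh m q.2) ≤ c} := by
    ext q
    simp only [Set.mem_iInter]
    constructor
    · intro hq m
      exact (le_rh hc q.1 q.2 m).trans hq
    · intro hq
      exact rh_le hq
  rw [h1]
  apply isClosed_iInter
  intro m
  apply isClosed_le _ continuous_const
  exact hc.comp (((sh_cont m).comp continuous_fst).prodMk ((sh_cont m).comp continuous_snd))

end

end I_GEQ

open I_GEQ in
theorem GEQ_pf (hGFL : S_GFL) (hGAP : S_GAP) (hGOP : S_GOP) : S_GEQ := by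
  intro Z X _ _ _ _ _ _ p h hmin hdist hpc hpe hhc h0 hnn hsymm htri heq
  have hsymm' : ∀ z z', rh h z z' = rh h z' z := by
    intro z z'
    unfold rh
    congr 1
    funext m
    exact hsymm _ _
  refine ⟨rh h, ⟨?_, ?_, ?_, ?_, ?_, ?_⟩, fun z z' _ => h_le_rh hhc z z'⟩
  · -- continuity
    rintro ⟨z, z'⟩ hzz
    have hzz' : p z = p z' := hzz
    -- the orbit closure
    have hO := hGAP ℤ (Z × Z) (shA (Z × Z)) univ (flow_shA _) isClosed_univ
      (fun _ _ _ => mem_univ _) (dist_prod hdist) (z, z') (mem_univ _)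
    obtain ⟨O, hOdef⟩ : ∃ O, O = orbA (shA (Z × Z)) (z, z') := ⟨_, rfl⟩
    rw [← hOdef] at hO
    obtain ⟨f1, f2, f3, _, _⟩ := hGFL ℤ (Z × Z) (shA (Z × Z)) (flow_shA _)
    have hmem : (z, z') ∈ O := by
      rw [hOdef]
      exact (f1 (z, z')).2.2
    -- rh is constant on O
    have hinvL : ∀ c : ℝ, InvA (shA (Z × Z)) {q : Z × Z | rh h q.1 q.2 ≤ c} := by
      intro c g q hq
      change rh h (sh g q.1) (sh g q.2) ≤ c
      rw [rh_inv hhc]
      exact hq
    have hconst : ∀ q ∈ O, rh h q.1 q.2 = rh h z z' := by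
      intro q hq
      apply le_antisymm
      · have h1 := f2 (z, z') {q : Z × Z | rh h q.1 q.2 ≤ rh h z z'} (closed_rh hhc _)
          (hinvL _) (le_refl (rh h z z'))
        rw [← hOdef] at h1
        exact h1 hq
      · have h1 := f2 q {r : Z × Z | rh h r.1 r.2 ≤ rh h q.1 q.2} (closed_rh hhc _)
          (hinvL _) (le_refl (rh h q.1 q.2))
        rw [f3 q O hO hq] at h1
        exact h1 hmem
    -- O lies over the diagonal of X
    have hOE : ∀ q ∈ O, p q.1 = p q.2 := by
      have h1 := f2 (z, z') {q : Z × Z | p q.1 = p q.2}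
        (isClosed_eq (hpc.comp continuous_fst) (hpc.comp continuous_snd)) (by
          intro g q hq
          change p (sh g q.1) = p (sh g q.2)
          rw [hpe, hpe, show p q.1 = p q.2 from hq]) hzz'
      rw [← hOdef] at h1
      exact fun q hq => h1 hq
    -- the first projection of O is everything
    have hfst : ∀ w : Z, ∃ q ∈ O, q.1 = w := by
      have h1 : Prod.fst '' O = (univ : Set Z) := by
        apply hmin.min
        · exact (hO.closed.isCompact.image continuous_fst).isClosed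
        · exact hO.ne.image _
        · rintro n _ ⟨q, hq, rfl⟩
          exact ⟨shA (Z × Z) n q, hO.inv n q hq, rfl⟩
        · exact subset_univ _
      intro w
      have h2 : w ∈ Prod.fst '' O := by rw [h1]; exact mem_univ _
      obtain ⟨q, hq, hqw⟩ := h2
      exact ⟨q, hq, hqw⟩
    have hdO : DistalOn (shA (Z × Z)) O := by
      intro F x y w _ _ hx hy
      exact dist_prod hdist F x y w (mem_univ _) (mem_univ _) hx hy
    -- estimate
    change Tendsto _ _ _
    rw [Metric.tendsto_nhds]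
    intro ε hε
    obtain ⟨δ, hδ, hδ2⟩ := heq (ε / 4) (by positivity)
    have hrδ : ∀ a b, p a = p b → dist a b < δ → rh h a b ≤ ε / 4 :=
      fun a b hab hd => rh_le (hδ2 a b hab hd)
    obtain ⟨V, hV, hV2⟩ := hGOP ℤ (Z × Z) X (shA (Z × Z)) (shA X) O (fun q => p q.1)
      (flow_shA _) hO hdO (hpc.comp continuous_fst).continuousOn
      (fun g q _ => hpe g q.1) (Metric.ball (z, z') (δ / 2)) Metric.isOpen_ball (z, z')
      ⟨Metric.mem_ball_self (by positivity), hmem⟩
    have hev : ∀ᶠ q : Z × Z in 𝓝 (z, z'), p q.1 ∈ V ∧ dist q (z, z') < δ / 2 := by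
      refine Filter.Eventually.and ?_ ?_
      · have hcont : Continuous (fun q : Z × Z => p q.1) := hpc.comp continuous_fst
        exact hcont.continuousAt.eventually_mem hV
      · exact Metric.ball_mem_nhds _ (by positivity)
    filter_upwards [nhdsWithin_le_nhds hev, self_mem_nhdsWithin] with q hq hqE
    obtain ⟨hqV, hqd⟩ := hq
    have hqE' : p q.1 = p q.2 := hqE
    have hin : p q.1 ∈ V ∩ (fun q : Z × Z => p q.1) '' O := by
      refine ⟨hqV, ?_⟩
      obtain ⟨r, hr, hrq⟩ := hfst q.1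
      exact ⟨r, hr, by simp only [hrq]⟩
    obtain ⟨a, ⟨haU, haO⟩, ha⟩ := hV2 hin
    have ha' : p a.1 = p q.1 := ha
    have haE := hOE a haO
    have hac := hconst a haO
    have d1 : dist q a < δ := by
      have h1 : dist q a ≤ dist q (z, z') + dist a (z, z') := dist_triangle_right _ _ _
      have h2 : dist a (z, z') < δ / 2 := haU
      linarith
    have d11 : dist q.1 a.1 < δ := lt_of_le_of_lt (le_max_left _ _) d1
    have d12 : dist q.2 a.2 < δ := lt_of_le_of_lt (le_max_right _ _) d1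
    have r1 := hrδ q.1 a.1 ha'.symm d11
    have r2 := hrδ q.2 a.2 (by rw [← hqE', ← haE, ha']) d12
    have r1' : rh h a.1 q.1 ≤ ε / 4 := by rw [hsymm']; exact r1
    have r2' : rh h a.2 q.2 ≤ ε / 4 := by rw [hsymm']; exact r2
    have t1 : rh h q.1 q.2 ≤ rh h q.1 a.1 + (rh h a.1 a.2 + rh h a.2 q.2) :=
      (rh_tri hhc htri q.1 a.1 q.2).trans (by
        have := rh_tri hhc htri a.1 a.2 q.2
        linarith)
    have t2 : rh h a.1 a.2 ≤ rh h a.1 q.1 + (rh h q.1 q.2 + rh h q.2 a.2) :=
      (rh_tri hhc htri a.1 q.1 a.2).trans (by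
        have := rh_tri hhc htri q.1 q.2 a.2
        linarith)
    change dist (rh h q.1 q.2) (rh h z z') < ε
    rw [Real.dist_eq, abs_lt]
    constructor <;> linarith
  · intro n z z' _
    exact rh_inv hhc n z z'
  · intro z
    apply le_antisymm
    · exact rh_le (fun m => (h0 _).le)
    · exact (hnn z z).trans (h_le_rh hhc z z)
  · intro z z' _
    exact (hnn z z').trans (h_le_rh hhc z z')
  · intro z z' _
    exact hsymm' z z'
  · intro z z' z'' _ _
    exact rh_tri hhc htri z z' z''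

end Pool.Agent.Work.MP_69fea5_lc.W3
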