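import Pool.Agent.Work.MP_69fea5_lc.W3.StmtsG

/-!
# Block [69fea5 W3 G], item GFL: orbit closures and minimal sets of flows
-/

set_option autoImplicit false

namespace Pool.Agent.Work.MP_69fea5_lc.W3

open MeasureTheory Topology Set Filter TopologicalSpace
open Pool.Agent.Work.MP_69fea5_lc.AK

namespace I_GFL

set_option linter.unusedSectionVars false

variable {G X : Type} [AddCommGroup G] [TopologicalSpace X] {A : G → X → X}

theorem closed_orbA (x : X) : IsClosed (orbA A x) := isClosed_closure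

theorem mem_orbA (hA : Flow A) (x : X) : x ∈ orbA A x :=
  subset_closure ⟨0, hA.zero x⟩

theorem inv_closure (hA : Flow A) {S : Set X} (h : InvA A S) : InvA A (closure S) :=
  fun g _ hx => map_mem_closure (hA.cont g) hx (fun y hy => h g y hy)

theorem inv_range (hA : Flow A) (x : X) : InvA A (Set.range fun g => A g x) := by
  rintro g _ ⟨h, rfl⟩
  exact ⟨g + h, hA.add g h x⟩

theorem inv_orbA (hA : Flow A) (x : X) : InvA A (orbA A x) := inv_closure hA (inv_range hA x)

theorem orbA_subset (x : X) (K : Set X) (hK : IsClosed K) (hI : InvA A K) (hx : x ∈ K) :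
    orbA A x ⊆ K := by
  refine closure_minimal ?_ hK
  rintro _ ⟨g, rfl⟩
  exact hI g x hx

theorem orbA_eq (hA : Flow A) (x : X) (K : Set X) (hK : MinA A K) (hx : x ∈ K) :
    orbA A x = K :=
  hK.min _ (closed_orbA x) ⟨x, mem_orbA hA x⟩ (inv_orbA hA x)
    (orbA_subset x K hK.closed hK.inv hx)

theorem minA_of (K : Set X) (hK : IsClosed K) (hn : K.Nonempty) (hI : InvA A K)
    (h : ∀ x ∈ K, K ⊆ orbA A x) : MinA A K where
  closed := hK
  ne := hn
  inv := hI
  min L hL hLn hLI hLK := by
    obtain ⟨x, hx⟩ := hLn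
    exact subset_antisymm hLK ((h x (hLK hx)).trans (orbA_subset x L hL hLI hx))

theorem min_subset (K L : Set X) (hK : MinA A K) (hL : IsClosed L) (hI : InvA A L)
    (h : (K ∩ L).Nonempty) : K ⊆ L := by
  have := hK.min (K ∩ L) (hK.closed.inter hL) h
    (fun g y hy => ⟨hK.inv g y hy.1, hI g y hy.2⟩) inter_subset_left
  rw [← this]
  exact inter_subset_right

end I_GFL

theorem GFL_pf : S_GFL := fun _ _ _ _ _ hA =>
  ⟨fun x => ⟨I_GFL.closed_orbA x, I_GFL.inv_orbA hA x, I_GFL.mem_orbA hA x⟩,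
    fun x K hK hI hx => I_GFL.orbA_subset x K hK hI hx,
    fun x K hK hx => I_GFL.orbA_eq hA x K hK hx,
    fun K hK hn hI h => I_GFL.minA_of K hK hn hI h,
    fun K L hK hL hI h => I_GFL.min_subset K L hK hL hI h⟩

end Pool.Agent.Work.MP_69fea5_lc.W3
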