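import Pool.Agent.Work.MP_69fea5_lc.W3.StmtsG

/-!
# Block [69fea5 W3 G], item GFN: only isometric factors have to be considered in Fine
-/

set_option autoImplicit false
set_option linter.unusedSectionVars false

namespace Pool.Agent.Work.MP_69fea5_lc.W3

open MeasureTheory Topology Set Filter TopologicalSpace
open Pool.Agent.Work.MP_69fea5_lc.AK

namespace I_GFN

section

variable {n : ℕ} {Z X : Type} [MetricSpace Z] [CompactSpace Z] [Sys Z]
  [TopologicalSpace X] [T2Space X] [Sys X] {p : Z → X}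

theorem pg_sub_wp : PG n Z ⊆ WP n p := fun x hx => ⟨x, hx, fun _ => rfl⟩

theorem wp_compact (hp : Continuous p) : IsCompact (WP n p) := by
  have h1 : IsClosed {q : (Fin n → Z) × (Fin n → Z) | q.2 ∈ PG n Z ∧ ∀ i, p (q.1 i) = p (q.2 i)} := by
    have ha : IsClosed {q : (Fin n → Z) × (Fin n → Z) | q.2 ∈ PG n Z} :=
      (isClosed_closure : IsClosed (PG n Z)).preimage continuous_snd
    have hb : IsClosed {q : (Fin n → Z) × (Fin n → Z) | ∀ i, p (q.1 i) = p (q.2 i)} := by
      have : {q : (Fin n → Z) × (Fin n → Z) | ∀ i, p (q.1 i) = p (q.2 i)} =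
          ⋂ i, {q : (Fin n → Z) × (Fin n → Z) | p (q.1 i) = p (q.2 i)} := by
        ext q; simp
      rw [this]
      exact isClosed_iInter fun i => isClosed_eq
        (hp.comp ((continuous_apply i).comp continuous_fst))
        (hp.comp ((continuous_apply i).comp continuous_snd))
    exact ha.inter hb
  have h2 : WP n p = Prod.fst ''
      {q : (Fin n → Z) × (Fin n → Z) | q.2 ∈ PG n Z ∧ ∀ i, p (q.1 i) = p (q.2 i)} := by
    ext x
    constructor
    · rintro ⟨y, hy, h⟩
      exact ⟨(x, y), ⟨hy, h⟩, rfl⟩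
    · rintro ⟨⟨x', y⟩, ⟨hy, h⟩, rfl⟩
      exact ⟨y, hy, h⟩
  rw [h2]
  exact h1.isCompact.image continuous_fst

theorem wp_update {x : Fin n → Z} (hx : x ∈ WP n p) {j : Fin n} {z : Z} (hz : p (x j) = p z) :
    Function.update x j z ∈ WP n p := by
  obtain ⟨y, hy, h⟩ := hx
  refine ⟨y, hy, fun i => ?_⟩
  by_cases hij : i = j
  · subst hij
    rw [Function.update_self, ← hz]
    exact h i
  · rw [Function.update_of_ne hij]
    exact h i

/-- the values whose supremum is the distance -/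
def S (g : (Fin n → Z) → ℝ) (p : Z → X) (j : Fin n) (z z' : Z) : Set ℝ :=
  {r | ∃ x ∈ WP n p, x j = z ∧ r = |g x - g (Function.update x j z')|}

/-- the distance -/
noncomputable def D (g : (Fin n → Z) → ℝ) (p : Z → X) (j : Fin n) (z z' : Z) : ℝ :=
  sSup (S g p j z z')

variable {g : (Fin n → Z) → ℝ}

theorem S_nonneg {j : Fin n} {z z' : Z} : ∀ r ∈ S g p j z z', 0 ≤ r := by
  rintro r ⟨x, hx, hxj, rfl⟩
  exact abs_nonneg _

theorem D_nonneg {j : Fin n} {z z' : Z} : 0 ≤ D g p j z z' := Real.sSup_nonneg S_nonneg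

theorem S_bdd (hp : Continuous p) (hg : ContinuousOn g (WP n p)) {j : Fin n} {z z' : Z}
    (h : p z = p z') : BddAbove (S g p j z z') := by
  obtain ⟨C, hC⟩ := (wp_compact (n := n) hp).exists_bound_of_continuousOn hg
  refine ⟨C + C, ?_⟩
  rintro r ⟨x, hx, hxj, rfl⟩
  have h1 := hC x hx
  have h2 := hC (Function.update x j z') (wp_update hx (by rw [hxj, h]))
  calc |g x - g (Function.update x j z')| ≤ |g x| + |g (Function.update x j z')| := abs_sub _ _
    _ ≤ C + C := add_le_add h1 h2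

theorem le_D (hp : Continuous p) (hg : ContinuousOn g (WP n p)) {j : Fin n} {x : Fin n → Z}
    (hx : x ∈ WP n p) {z' : Z} (h : p (x j) = p z') :
    |g x - g (Function.update x j z')| ≤ D g p j (x j) z' :=
  le_csSup (S_bdd hp hg h) ⟨x, hx, rfl, rfl⟩

theorem S_symm_sub {j : Fin n} {z z' : Z} (h : p z = p z') : S g p j z z' ⊆ S g p j z' z := by
  rintro r ⟨x, hx, hxj, rfl⟩
  refine ⟨Function.update x j z', wp_update hx (by rw [hxj, h]), Function.update_self _ _ _, ?_⟩
  rw [Function.update_idem, ← hxj, Function.update_eq_self, abs_sub_comm]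

theorem D_symm {j : Fin n} {z z' : Z} (h : p z = p z') : D g p j z z' = D g p j z' z := by
  unfold D
  rw [subset_antisymm (S_symm_sub h) (S_symm_sub h.symm)]

theorem D_self {j : Fin n} {z : Z} : D g p j z z = 0 := by
  apply le_antisymm _ D_nonneg
  apply Real.sSup_nonpos
  rintro r ⟨x, hx, hxj, rfl⟩
  rw [← hxj, Function.update_eq_self]
  simp

theorem D_tri (hp : Continuous p) (hg : ContinuousOn g (WP n p)) {j : Fin n} {z z' z'' : Z}
    (h : p z = p z') (h' : p z' = p z'') : D g p j z z'' ≤ D g p j z z' + D g p j z' z'' := by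
  apply Real.sSup_le _ (add_nonneg D_nonneg D_nonneg)
  rintro r ⟨x, hx, hxj, rfl⟩
  have h1 := le_D hp hg hx (z' := z') (by rw [hxj, h])
  have hx' : Function.update x j z' ∈ WP n p := wp_update hx (by rw [hxj, h])
  have h2 := le_D hp hg hx' (j := j) (z' := z'') (by rw [Function.update_self, h'])
  rw [Function.update_idem, Function.update_self] at h2
  rw [hxj] at h1
  calc |g x - g (Function.update x j z'')|
      = |(g x - g (Function.update x j z')) +
          (g (Function.update x j z') - g (Function.update x j z''))| := by ring_nf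
    _ ≤ |g x - g (Function.update x j z')| +
          |g (Function.update x j z') - g (Function.update x j z'')| := abs_add_le _ _
    _ ≤ _ := add_le_add h1 h2

theorem wp_sh (hGPR : S_GPR) (hmin : MinSet (univ : Set Z))
    (hpe : ∀ (m : ℤ) z, p (sh m z) = sh m (p z)) (m : ℤ) {x : Fin n → Z} (hx : x ∈ WP n p) :
    (fun i => sh m (x i)) ∈ WP n p := by
  obtain ⟨y, hy, h⟩ := hx
  have h4 := (hGPR n Z hmin).2.2.2.1 y hy m 0
  refine ⟨fun i => sh m (y i), by simpa using h4, fun i => ?_⟩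
  change p (sh m (x i)) = p (sh m (y i))
  rw [hpe, hpe, h i]

theorem g_sh (hGPR : S_GPR) (hmin : MinSet (univ : Set Z))
    (hpe : ∀ (m : ℤ) z, p (sh m z) = sh m (p z))
    (hinv : ∀ x ∈ WP n p, g (fun i => sh 1 (x i)) = g x) (m : ℤ) :
    ∀ x ∈ WP n p, g (fun i => sh m (x i)) = g x := by
  induction m with
  | zero =>
    intro x hx
    simp [sh_zero]
  | succ k ih =>
    intro x hx
    have h1 := hinv _ (wp_sh hGPR hmin hpe (k : ℤ) hx)
    have h2 : (fun i => sh ((k : ℤ) + 1) (x i)) = fun i => sh 1 (sh (k : ℤ) (x i)) := by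
      funext i
      rw [← sh_add, add_comm]
    rw [h2, h1, ih x hx]
  | pred k ih =>
    intro x hx
    have h1 := hinv _ (wp_sh hGPR hmin hpe (-(k : ℤ) - 1) hx)
    have h2 : (fun i => sh 1 (sh (-(k : ℤ) - 1) (x i))) = fun i => sh (-(k : ℤ)) (x i) := by
      funext i
      rw [← sh_add]
      congr 1
      ring
    rw [h2] at h1
    rw [← h1, ih x hx]

theorem S_sh_sub (hGPR : S_GPR) (hmin : MinSet (univ : Set Z))
    (hpe : ∀ (m : ℤ) z, p (sh m z) = sh m (p z))
    (hinv : ∀ x ∈ WP n p, g (fun i => sh 1 (x i)) = g x) {j : Fin n} (m : ℤ) {z z' : Z}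
    (h : p z = p z') : S g p j z z' ⊆ S g p j (sh m z) (sh m z') := by
  rintro r ⟨x, hx, hxj, rfl⟩
  refine ⟨fun i => sh m (x i), wp_sh hGPR hmin hpe m hx, by simp [hxj], ?_⟩
  have h1 : Function.update (fun i => sh m (x i)) j (sh m z') =
      fun i => sh m (Function.update x j z' i) := by
    funext i
    by_cases hij : i = j
    · subst hij; simp
    · simp [Function.update_of_ne hij]
  rw [h1, g_sh hGPR hmin hpe hinv m x hx,
    g_sh hGPR hmin hpe hinv m _ (wp_update hx (by rw [hxj, h]))]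

theorem D_inv (hGPR : S_GPR) (hmin : MinSet (univ : Set Z))
    (hpe : ∀ (m : ℤ) z, p (sh m z) = sh m (p z))
    (hinv : ∀ x ∈ WP n p, g (fun i => sh 1 (x i)) = g x) {j : Fin n} (m : ℤ) {z z' : Z}
    (h : p z = p z') : D g p j (sh m z) (sh m z') = D g p j z z' := by
  unfold D
  congr 1
  apply subset_antisymm _ (S_sh_sub hGPR hmin hpe hinv m h)
  have h1 := S_sh_sub (g := g) (j := j) hGPR hmin hpe hinv (-m) (z := sh m z) (z' := sh m z')
    (by rw [hpe, hpe, h])
  rw [← sh_add, ← sh_add, neg_add_cancel, sh_zero, sh_zero] at h1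
  exact h1

/-- the map to the coordinate `j` is open on `WP` -/
theorem wp_open (hGPR : S_GPR) (hGOP : S_GOP) (hmin : MinSet (univ : Set Z))
    (hd : DistalOn (shA Z) univ) (hp : Continuous p)
    (hpe : ∀ (m : ℤ) z, p (sh m z) = sh m (p z)) (j : Fin n) {x : Fin n → Z} (hx : x ∈ WP n p)
    {ε : ℝ} (hε : 0 < ε) :
    ∀ᶠ z in 𝓝 (x j), ∃ x' ∈ WP n p, x' j = z ∧ dist x' x < ε := by
  obtain ⟨y, hy, hxy⟩ := hx
  -- the map `p` is open
  have hV : ∀ i, ∃ V ∈ 𝓝 (p (x i)), V ∩ p '' univ ⊆ p '' (Metric.ball (x i) ε ∩ univ) := by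
    intro i
    exact hGOP ℤ Z X (shA Z) (shA X) univ p (flow_shA Z) (minA_shA hmin) hd hp.continuousOn
      (fun m z _ => hpe m z) (Metric.ball (x i) ε) Metric.isOpen_ball (x i)
      ⟨Metric.mem_ball_self hε, mem_univ _⟩
  choose V hV1 hV2 using hV
  let U : Set (Fin n → Z) := {v | ∀ i, p (v i) ∈ interior (V i)}
  have hU : IsOpen U := by
    have : U = ⋂ i, {v : Fin n → Z | p (v i) ∈ interior (V i)} := by
      ext v; simp [U]
    rw [this]
    exact isOpen_iInter_of_finite fun i =>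
      isOpen_interior.preimage (hp.comp (continuous_apply i))
  have hyU : y ∈ U := fun i => by
    rw [← hxy i]
    exact mem_interior_iff_mem_nhds.2 (hV1 i)
  have hG := hGPR n Z hmin
  obtain ⟨hdis, hminP⟩ := hG.2.2.2.2.2.2.2 hd
  obtain ⟨V', hV'1, hV'2⟩ := hGOP (ℤ × ℤ) (Fin n → Z) X (prA n Z)
    (fun q a => sh (pf ((j : ℕ) : ℤ) q) a) (PG n Z) (fun v => p (v j)) (flow_cfA _) hminP
    (fun F a b c _ _ h1 h2 => hdis F a b c (mem_univ _) (mem_univ _) h1 h2)
    (hp.comp (continuous_apply j)).continuousOn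
    (fun q v _ => hpe _ _) U hU y ⟨hyU, hy⟩
  have e1 : ∀ᶠ z in 𝓝 (x j), p z ∈ V' := by
    have : V' ∈ 𝓝 (p (x j)) := by rw [hxy j]; exact hV'1
    exact hp.continuousAt.eventually this
  have e2 : ∀ᶠ z in 𝓝 (x j), dist z (x j) < ε := Metric.ball_mem_nhds _ hε
  filter_upwards [e1, e2] with z hz1 hz2
  obtain ⟨v, hv, hvj⟩ := hG.2.2.2.2.2.2.1 j z
  obtain ⟨y', ⟨hy'U, hy'⟩, hy'j⟩ := hV'2 ⟨hz1, ⟨v, hv, by simp [hvj]⟩⟩
  have hw : ∀ i, ∃ w, dist w (x i) < ε ∧ p w = p (y' i) := by
    intro i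
    obtain ⟨w, hw1, hw2⟩ := hV2 i ⟨interior_subset (hy'U i), ⟨y' i, mem_univ _, rfl⟩⟩
    exact ⟨w, hw1.1, hw2⟩
  choose w hw1 hw2 using hw
  refine ⟨Function.update w j z, ⟨y', hy', fun i => ?_⟩, Function.update_self _ _ _, ?_⟩
  · by_cases hij : i = j
    · subst hij
      rw [Function.update_self]
      exact hy'j.symm
    · rw [Function.update_of_ne hij]
      exact hw2 i
  · rw [dist_pi_lt_iff hε]
    intro i
    by_cases hij : i = j
    · subst hij
      rw [Function.update_self]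
      exact hz2
    · rw [Function.update_of_ne hij]
      exact hw1 i

/-- uniform openness -/
theorem wp_open_unif (hGPR : S_GPR) (hGOP : S_GOP) (hmin : MinSet (univ : Set Z))
    (hd : DistalOn (shA Z) univ) (hp : Continuous p)
    (hpe : ∀ (m : ℤ) z, p (sh m z) = sh m (p z)) (j : Fin n) {ε : ℝ} (hε : 0 < ε) :
    ∃ δ > 0, ∀ x ∈ WP n p, ∀ z, dist z (x j) < δ → ∃ x' ∈ WP n p, x' j = z ∧ dist x' x < ε := by
  by_contra hcon
  push Not at hcon
  have h1 : ∀ k : ℕ, ∃ x ∈ WP n p, ∃ z, dist z (x j) < 1 / ((k : ℝ) + 1) ∧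
      ∀ x' ∈ WP n p, x' j = z → ε ≤ dist x' x := fun k =>
    hcon (1 / ((k : ℝ) + 1)) (by positivity)
  choose x hx z hz hno using h1
  obtain ⟨x0, hx0, φ, hφ, hlim⟩ := (wp_compact (n := n) hp).tendsto_subseq hx
  have hzl : Tendsto (fun k => z (φ k)) atTop (𝓝 (x0 j)) := by
    have ha : Tendsto (fun k => x (φ k) j) atTop (𝓝 (x0 j)) :=
      ((continuous_apply j).tendsto x0).comp hlim
    refine tendsto_of_tendsto_of_dist ha ?_
    have hb : Tendsto (fun k : ℕ => 1 / ((φ k : ℝ) + 1)) atTop (𝓝 0) :=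
      tendsto_one_div_add_atTop_nhds_zero_nat.comp hφ.tendsto_atTop
    refine squeeze_zero (fun _ => dist_nonneg) (fun k => ?_) hb
    rw [dist_comm]
    exact (hz (φ k)).le
  have e1 := hzl.eventually (wp_open hGPR hGOP hmin hd hp hpe j hx0 (half_pos hε))
  have e2 : ∀ᶠ k in atTop, dist (x (φ k)) x0 < ε / 2 :=
    hlim.eventually (Metric.ball_mem_nhds _ (half_pos hε))
  obtain ⟨k, ⟨x', hx', hx'j, hd1⟩, hd2⟩ := (e1.and e2).exists
  have h3 := hno (φ k) x' hx' hx'j
  have h4 := dist_triangle_right x' (x (φ k)) x0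
  linarith

theorem D_cont (hGPR : S_GPR) (hGOP : S_GOP) (hmin : MinSet (univ : Set Z))
    (hd : DistalOn (shA Z) univ) (hp : Continuous p)
    (hpe : ∀ (m : ℤ) z, p (sh m z) = sh m (p z)) (hg : ContinuousOn g (WP n p)) (j : Fin n)
    {ε : ℝ} (hε : 0 < ε) :
    ∃ δ > 0, ∀ z z' z₁ z₁', p z = p z' → p z₁ = p z₁' → dist z₁ z < δ → dist z₁' z' < δ →
      D g p j z z' ≤ D g p j z₁ z₁' + ε := by
  let M : Set ((Fin n → Z) × Z) := {q | q.1 ∈ WP n p ∧ p (q.1 j) = p q.2}
  have hM : IsCompact M := by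
    have ha : IsClosed {q : (Fin n → Z) × Z | q.1 ∈ WP n p} :=
      (wp_compact (n := n) hp).isClosed.preimage continuous_fst
    have hb : IsClosed {q : (Fin n → Z) × Z | p (q.1 j) = p q.2} :=
      isClosed_eq (hp.comp ((continuous_apply j).comp continuous_fst))
        (hp.comp continuous_snd)
    exact (ha.inter hb).isCompact
  have hF : ContinuousOn (fun q : (Fin n → Z) × Z => |g q.1 - g (Function.update q.1 j q.2)|)
      M := by
    have ha : ContinuousOn (fun q : (Fin n → Z) × Z => g q.1) M :=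
      hg.comp continuousOn_fst fun q hq => hq.1
    have hb : ContinuousOn (fun q : (Fin n → Z) × Z => g (Function.update q.1 j q.2)) M := by
      refine hg.comp (f := fun q : (Fin n → Z) × Z => Function.update q.1 j q.2) ?_
        fun q hq => wp_update hq.1 hq.2
      exact (continuous_fst.update j continuous_snd).continuousOn
    exact (ha.sub hb).abs
  have hUC := hM.uniformContinuousOn_of_continuous hF
  rw [Metric.uniformContinuousOn_iff] at hUC
  obtain ⟨δ1, hδ1, hUC⟩ := hUC ε hε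
  obtain ⟨δ2, hδ2, hop⟩ := wp_open_unif hGPR hGOP hmin hd hp hpe j hδ1
  refine ⟨min δ1 δ2, lt_min hδ1 hδ2, fun z z' z₁ z₁' h h₁ hz hz' => ?_⟩
  apply Real.sSup_le _ (add_nonneg D_nonneg hε.le)
  rintro r ⟨x, hx, hxj, rfl⟩
  obtain ⟨x₁, hx₁, hx₁j, hdx⟩ := hop x hx z₁ (by rw [hxj]; exact hz.trans_le (min_le_right _ _))
  have h1 := hUC (x₁, z₁') ⟨hx₁, by simp only; rw [hx₁j, h₁]⟩ (x, z')
    ⟨hx, by simp only; rw [hxj, h]⟩
    (by
      rw [Prod.dist_eq]
      exact max_lt hdx (hz'.trans_le (min_le_left _ _)))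
  have h2 := le_D hp hg hx₁ (j := j) (z' := z₁') (by rw [hx₁j, h₁])
  rw [hx₁j] at h2
  rw [Real.dist_eq] at h1
  have h3 := (abs_lt.1 h1).1
  linarith

theorem ci_rho (hGPR : S_GPR) (hGOP : S_GOP) (hmin : MinSet (univ : Set Z))
    (hd : DistalOn (shA Z) univ) (hp : Continuous p)
    (hpe : ∀ (m : ℤ) z, p (sh m z) = sh m (p z)) (hg : ContinuousOn g (WP n p))
    (hinv : ∀ x ∈ WP n p, g (fun i => sh 1 (x i)) = g x) :
    CI p (fun z z' => ∑ j, D g p j z z') where
  cont := by
    apply continuousOn_finsetSum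
    intro j _
    rw [Metric.continuousOn_iff]
    intro q hq ε hε
    obtain ⟨δ, hδ, h⟩ := D_cont hGPR hGOP hmin hd hp hpe hg j (half_pos hε)
    refine ⟨δ, hδ, fun q' hq' hqq => ?_⟩
    rw [Prod.dist_eq] at hqq
    have h1 : dist q'.1 q.1 < δ := (le_max_left _ _).trans_lt hqq
    have h2 : dist q'.2 q.2 < δ := (le_max_right _ _).trans_lt hqq
    have a1 := h q.1 q.2 q'.1 q'.2 hq hq' h1 h2
    have a2 := h q'.1 q'.2 q.1 q.2 hq' hq (by rw [dist_comm]; exact h1)
      (by rw [dist_comm]; exact h2)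
    rw [Real.dist_eq, abs_lt]
    constructor <;> linarith
  inv m z z' h := Finset.sum_congr rfl fun j _ => D_inv hGPR hmin hpe hinv m h
  self z := Finset.sum_eq_zero fun j _ => D_self
  nonneg z z' _ := Finset.sum_nonneg fun j _ => D_nonneg
  symm z z' h := Finset.sum_congr rfl fun j _ => D_symm h
  tri z z' z'' h h' := by
    rw [← Finset.sum_add_distrib]
    exact Finset.sum_le_sum fun j _ => D_tri hp hg h h'

theorem g_eq (hp : Continuous p) (hg : ContinuousOn g (WP n p)) {x x' : Fin n → Z}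
    (hx : x ∈ WP n p) (h : ∀ i, p (x i) = p (x' i) ∧ ∑ j, D g p j (x i) (x' i) = 0) :
    g x = g x' := by
  have hD : ∀ i, D g p i (x i) (x' i) = 0 := fun i =>
    (Finset.sum_eq_zero_iff_of_nonneg fun j _ => D_nonneg).1 (h i).2 i (Finset.mem_univ i)
  have key : ∀ s : Finset (Fin n), (fun i => if i ∈ s then x' i else x i) ∈ WP n p ∧
      g (fun i => if i ∈ s then x' i else x i) = g x := by
    intro s
    induction s using Finset.induction_on with
    | empty => simpa using hx
    | insert a s ha ih =>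
      have h1 : (fun i => if i ∈ insert a s then x' i else x i) =
          Function.update (fun i => if i ∈ s then x' i else x i) a (x' a) := by
        funext i
        by_cases hia : i = a
        · subst hia; simp
        · simp [Finset.mem_insert, hia]
      have h2 : p ((fun i => if i ∈ s then x' i else x i) a) = p (x' a) := by
        simp [ha, (h a).1]
      rw [h1]
      refine ⟨wp_update ih.1 h2, ?_⟩
      have h3 := le_D hp hg ih.1 h2
      simp only [ha, if_false] at h3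
      rw [hD a] at h3
      have h4 := abs_nonpos_iff.1 h3
      rw [← ih.2]
      linarith
  have := (key Finset.univ).2
  simpa using this.symm

end

end I_GFN

theorem GFN_pf (hGPR : S_GPR) (hGOP : S_GOP) : S_GFN := by
  intro n Z X X' _ _ _ _ _ _ p p' hmin hd hp hpe hyp _ g hg hinv
  exact hyp g (fun z z' => ∑ j, I_GFN.D g p j z z') hg hinv
    (I_GFN.ci_rho hGPR hGOP hmin hd hp hpe hg hinv)
    (fun x hx x' _ h => I_GFN.g_eq hp hg hx h)

end Pool.Agent.Work.MP_69fea5_lc.W3
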