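import Pool.Agent.Work.MP_69fea5_lc.W3.StmtsG

set_option autoImplicit false

namespace Pool.Agent.Work.MP_69fea5_lc.W3

open MeasureTheory Topology Set Filter TopologicalSpace
open Pool.Agent.Work.MP_69fea5_lc.AK

namespace I_GFR

theorem lsat_of_sat (n : ℕ) {Z : Type} [MetricSpace Z] [Sys Z] {X : Type} (p : Z → X) (c : ℕ)
    (h : Sat n p c) : LSat n p c :=
  ⟨1, one_pos, fun I hI a ha x hx e _ he => h I hI a ha x hx e he⟩

theorem pl_univ (n : ℕ) {Z : Type} [TopologicalSpace Z] [Sys Z] {X : Type} (p : Z → X)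
    (x : Fin n → Z) : x ∈ PL n p Finset.univ ↔ x ∈ PG n Z := by
  constructor
  · rintro ⟨y, hy, h1, _⟩
    have : x = y := funext fun i => h1 i (Finset.mem_univ i)
    rw [this]; exact hy
  · intro hx
    exact ⟨x, hx, fun _ _ => rfl, fun _ => rfl⟩

theorem sub (n : ℕ) {Z : Type} [TopologicalSpace Z] [Sys Z] {X : Type} (p : Z → X)
    (h : Sat n p n) : PG n Z = WP n p := by
  classical
  apply Set.Subset.antisymm
  · intro x hx
    exact ⟨x, hx, fun _ => rfl⟩
  · rintro x ⟨y, hy, hxy⟩
    have key : ∀ s : Finset (Fin n), (fun i => if i ∈ s then x i else y i) ∈ PG n Z := by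
      intro s
      induction s using Finset.induction_on with
      | empty => simpa using hy
      | insert a s ha ih =>
        have h1 := h Finset.univ (by simp) a (Finset.mem_univ a)
          (fun i => if i ∈ s then x i else y i) ((pl_univ n p _).2 ih) (x a) (by
            simp only [if_neg ha]
            exact (hxy a).symm)
        have h2 : Function.update (fun i => if i ∈ s then x i else y i) a (x a) =
            (fun i => if i ∈ insert a s then x i else y i) := by
          funext i
          by_cases hi : i = a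
          · subst hi
            simp
          · simp [Function.update_of_ne hi, Finset.mem_insert, hi]
        rw [h2] at h1
        exact (pl_univ n p _).1 h1
    have := key Finset.univ
    simpa using this

theorem main (hGDI : S_GDI) (hGL0 : S_GL0) (hGST : S_GST) (n : ℕ) (Z : Type) [MetricSpace Z]
    [CompactSpace Z] [Sys Z] (X : ℕ → Type) [∀ l, TopologicalSpace (X l)]
    [∀ l, MetrizableSpace (X l)] [∀ l, Sys (X l)] (π : ∀ l, Z → X l) (hn : 3 ≤ n)
    (hT : Tw n X π) : PG n Z = WP n (π (n - 2)) := by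
  have hD : DistalOn (shA Z) univ := hGDI n Z X π hT
  have h0 : LSat n (π 0) 2 := hGL0 n Z (X 0) (π 0) hT.min hD hT.zero
  have step : ∀ l, l + 3 ≤ n → LSat n (π l) (l + 2) → Sat n (π (l + 1)) (l + 2 + 1) := by
    intro l hl hL
    obtain ⟨ρ, hρ, hρ0⟩ := hT.iso l
    exact hGST n Z (X l) (X (l + 1)) (π l) (π (l + 1)) (l + 2) ρ hT.min hD (hT.cont l) (hT.equi l)
      (hT.cont (l + 1)) (hT.equi (l + 1)) (hT.mono l) (by omega) hL hρ hρ0 (hT.fine l hl)
  have all : ∀ l, l + 3 ≤ n → LSat n (π l) (l + 2) := by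
    intro l
    induction l with
    | zero => intro _; exact h0
    | succ l ih =>
      intro hl
      exact lsat_of_sat n (π (l + 1)) _ (step l (by omega) (ih (by omega)))
  obtain ⟨m, rfl⟩ : ∃ m, n = m + 3 := ⟨n - 3, by omega⟩
  have h1 := step m le_rfl (all m le_rfl)
  exact sub (m + 3) (π (m + 1)) h1

end I_GFR

theorem GFR_pf (hGDI : S_GDI) (hGL0 : S_GL0) (hGST : S_GST) : S_GFR := by
  intro n Z tZ cZ mZ sZ X tX mX sX π hn hT
  letI : MetricSpace Z := metrizableSpaceMetric Z
  exact I_GFR.main hGDI hGL0 hGST n Z X π hn hT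

end Pool.Agent.Work.MP_69fea5_lc.W3
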