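import Pool.Agent.Work.MP_69fea5_lc.W3.StmtsG

set_option autoImplicit false

namespace Pool.Agent.Work.MP_69fea5_lc.W3

open Topology Set Filter
open Pool.Agent.Work.MP_69fea5_lc.AK

namespace I_GHD

/-- the section -/
def sec {W Z V : Type} (K : Set W) (φ : W → Z) (F : W → V) (z : Z) : Set V :=
  F '' (K ∩ φ ⁻¹' {z})

section

variable {W Z V : Type} [MetricSpace W] [CompactSpace W] [MetricSpace Z]
  [MetricSpace V] {K : Set W} {φ : W → Z} {F : W → V}

theorem compact_fib (hK : IsClosed K) (hφ : Continuous φ) (z : Z) :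
    IsCompact (K ∩ φ ⁻¹' {z}) :=
  (hK.inter (isClosed_singleton.preimage hφ)).isCompact

theorem compact_sec (hK : IsClosed K) (hφ : Continuous φ) (hF : Continuous F) (z : Z) :
    IsCompact (sec K φ F z) := (compact_fib hK hφ z).image hF

omit [MetricSpace W] [CompactSpace W] [MetricSpace Z] [MetricSpace V] in
theorem ne_sec (hne : ∀ z, ∃ x ∈ K, φ x = z) (z : Z) : (sec K φ F z).Nonempty := by
  obtain ⟨x, hx, hz⟩ := hne z
  exact ⟨F x, x, ⟨hx, hz⟩, rfl⟩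

theorem upper (hK : IsClosed K) (hφ : Continuous φ) (hF : Continuous F) (z₀ : Z) (ε : ℝ)
    (hε : 0 < ε) : ∀ᶠ z in 𝓝 z₀, ∀ x ∈ K, φ x = z → ∃ x' ∈ K, φ x' = z₀ ∧
      dist (F x') (F x) ≤ ε := by
  have hU : IsOpen {x : W | ∃ x' ∈ K, φ x' = z₀ ∧ dist (F x') (F x) < ε} := by
    have : {x : W | ∃ x' ∈ K, φ x' = z₀ ∧ dist (F x') (F x) < ε} =
        ⋃ x' ∈ {x' : W | x' ∈ K ∧ φ x' = z₀}, {x | dist (F x') (F x) < ε} := by
      ext x
      simp only [mem_iUnion, exists_prop, mem_ofPred_eq]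
      constructor
      · rintro ⟨x', h1, h2, h3⟩
        exact ⟨x', ⟨h1, h2⟩, h3⟩
      · rintro ⟨x', ⟨h1, h2⟩, h3⟩
        exact ⟨x', h1, h2, h3⟩
    rw [this]
    refine isOpen_biUnion fun x' _ => ?_
    exact isOpen_lt (by fun_prop) continuous_const
  have hc : IsClosed (φ '' (K \ {x : W | ∃ x' ∈ K, φ x' = z₀ ∧ dist (F x') (F x) < ε})) :=
    ((hK.sdiff hU).isCompact.image hφ).isClosed
  have hz : z₀ ∈ (φ '' (K \ {x : W | ∃ x' ∈ K, φ x' = z₀ ∧ dist (F x') (F x) < ε}))ᶜ := by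
    rintro ⟨x, ⟨hxK, hxU⟩, hx⟩
    exact hxU ⟨x, hxK, hx, by simpa using hε⟩
  filter_upwards [hc.isOpen_compl.mem_nhds hz] with z hz' x hx hxz
  by_contra hcon
  apply hz'
  refine ⟨x, ⟨hx, ?_⟩, hxz⟩
  rintro ⟨x', h1, h2, h3⟩
  exact hcon ⟨x', h1, h2, h3.le⟩

theorem lower (hK : IsClosed K) (hφ : Continuous φ) (hF : Continuous F)
    (hop : ∀ x ∈ K, ∀ U ∈ 𝓝 x, ∀ᶠ z in 𝓝 (φ x), ∃ x' ∈ U ∩ K, φ x' = z) (z₀ : Z) (ε : ℝ)
    (hε : 0 < ε) : ∀ᶠ z in 𝓝 z₀, ∀ x ∈ K, φ x = z₀ → ∃ x' ∈ K, φ x' = z ∧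
      dist (F x') (F x) ≤ ε := by
  have key : ∀ᶠ z in 𝓝 z₀, ∀ x ∈ K ∩ φ ⁻¹' {z₀}, ∃ x' ∈ K, φ x' = z ∧
      dist (F x') (F x) ≤ ε := by
    refine (compact_fib hK hφ z₀).induction_on
      (p := fun s => ∀ᶠ z in 𝓝 z₀, ∀ x ∈ s, ∃ x' ∈ K, φ x' = z ∧ dist (F x') (F x) ≤ ε)
      ?_ ?_ ?_ ?_
    · exact Eventually.of_forall fun z x hx => absurd hx (notMem_empty x)
    · intro s t hst ht
      filter_upwards [ht] with z hz x hx
      exact hz x (hst hx)
    · intro s t hs ht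
      filter_upwards [hs, ht] with z hz hz' x hx
      rcases hx with hx | hx
      · exact hz x hx
      · exact hz' x hx
    · rintro x ⟨hxK, hxz⟩
      have hU : {y : W | dist (F y) (F x) < ε / 2} ∈ 𝓝 x := by
        refine (isOpen_lt (by fun_prop) continuous_const).mem_nhds ?_
        change dist (F x) (F x) < ε / 2
        rw [dist_self]
        linarith
      refine ⟨{y : W | dist (F y) (F x) < ε / 2}, mem_nhdsWithin_of_mem_nhds hU, ?_⟩
      have h := hop x hxK _ hU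
      have hxz' : φ x = z₀ := hxz
      rw [hxz'] at h
      filter_upwards [h] with z hz y hy
      obtain ⟨x', ⟨h1, h2⟩, h3⟩ := hz
      refine ⟨x', h2, h3, ?_⟩
      have h1' : dist (F x') (F x) < ε / 2 := h1
      have hy' : dist (F y) (F x) < ε / 2 := hy
      have := dist_triangle_right (F x') (F y) (F x)
      linarith
  filter_upwards [key] with z hz x hx hxz
  exact hz x ⟨hx, hxz⟩

end

end I_GHD

open I_GHD in
theorem GHD_pf : S_GHD := by
  intro W Z V _ _ _ _ _ K φ F hK hφ hF hne hop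
  have hco : ∀ z, IsCompact (sec K φ F z) := compact_sec hK hφ hF
  have hn : ∀ z, (sec K φ F z).Nonempty := ne_sec hne
  have hfin : ∀ z z', Metric.hausdorffEDist (sec K φ F z) (sec K φ F z') ≠ ⊤ := fun z z' =>
    Metric.hausdorffEDist_ne_top_of_nonempty_of_bounded (hn z) (hn z') (hco z).isBounded
      (hco z').isBounded
  have hle : ∀ z z' (ε : ℝ), 0 ≤ ε →
      (∀ x ∈ K, φ x = z → ∃ x' ∈ K, φ x' = z' ∧ dist (F x') (F x) ≤ ε) →
      (∀ x ∈ K, φ x = z' → ∃ x' ∈ K, φ x' = z ∧ dist (F x') (F x) ≤ ε) →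
      Metric.hausdorffDist (sec K φ F z) (sec K φ F z') ≤ ε := by
    intro z z' ε hε h1 h2
    refine Metric.hausdorffDist_le_of_mem_dist hε ?_ ?_
    · rintro _ ⟨x, ⟨hx, hxz⟩, rfl⟩
      obtain ⟨x', hx', h3, h4⟩ := h1 x hx hxz
      exact ⟨F x', ⟨x', ⟨hx', h3⟩, rfl⟩, by rwa [dist_comm]⟩
    · rintro _ ⟨x, ⟨hx, hxz⟩, rfl⟩
      obtain ⟨x', hx', h3, h4⟩ := h2 x hx hxz
      exact ⟨F x', ⟨x', ⟨hx', h3⟩, rfl⟩, by rwa [dist_comm]⟩
  have htri : ∀ z z' z'', Metric.hausdorffDist (sec K φ F z) (sec K φ F z'') ≤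
      Metric.hausdorffDist (sec K φ F z) (sec K φ F z') +
        Metric.hausdorffDist (sec K φ F z') (sec K φ F z'') := fun z z' z'' =>
    Metric.hausdorffDist_triangle (hfin z z')
  have hnear : ∀ z₀ (ε : ℝ), 0 < ε → ∀ᶠ z in 𝓝 z₀,
      Metric.hausdorffDist (sec K φ F z) (sec K φ F z₀) ≤ ε := by
    intro z₀ ε hε
    filter_upwards [upper hK hφ hF z₀ ε hε, lower hK hφ hF hop z₀ ε hε] with z h1 h2
    exact hle z z₀ ε hε.le h1 h2
  refine ⟨fun z z' => Metric.hausdorffDist (sec K φ F z) (sec K φ F z'), ?_, ?_, ?_, ?_, htri,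
    ?_, hle⟩
  · rw [continuous_iff_continuousAt]
    rintro ⟨z₀, z₁⟩
    rw [Metric.continuousAt_iff']
    intro ε hε
    have e1 := hnear z₀ (ε / 3) (by linarith)
    have e2 := hnear z₁ (ε / 3) (by linarith)
    rw [nhds_prod_eq]
    filter_upwards [e1.prod_mk e2] with q hq
    obtain ⟨h1, h2⟩ := hq
    rw [Real.dist_eq, abs_lt]
    have t1 := htri q.1 z₀ q.2
    have t2 := htri z₀ z₁ q.2
    have t3 := htri z₀ q.1 z₁
    have t4 := htri q.1 q.2 z₁
    have c1 : Metric.hausdorffDist (sec K φ F z₁) (sec K φ F q.2) =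
      Metric.hausdorffDist (sec K φ F q.2) (sec K φ F z₁) := Metric.hausdorffDist_comm
    have c2 : Metric.hausdorffDist (sec K φ F z₀) (sec K φ F q.1) =
      Metric.hausdorffDist (sec K φ F q.1) (sec K φ F z₀) := Metric.hausdorffDist_comm
    constructor
    · change -ε < Metric.hausdorffDist (sec K φ F q.1) (sec K φ F q.2) -
        Metric.hausdorffDist (sec K φ F z₀) (sec K φ F z₁)
      linarith
    · change Metric.hausdorffDist (sec K φ F q.1) (sec K φ F q.2) -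
        Metric.hausdorffDist (sec K φ F z₀) (sec K φ F z₁) < ε
      linarith
  · intro z
    exact Metric.hausdorffDist_self_zero
  · intro z z'
    exact Metric.hausdorffDist_nonneg
  · intro z z'
    exact Metric.hausdorffDist_comm
  · intro z z' h0 x hx hxz
    have heq := ((hco z).isClosed.hausdorffDist_zero_iff_eq (hco z').isClosed (hfin z z')).1 h0
    have hm : F x ∈ sec K φ F z' := by
      rw [← heq]
      exact ⟨x, ⟨hx, hxz⟩, rfl⟩
    obtain ⟨x', ⟨h1, h2⟩, h3⟩ := hm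
    exact ⟨x', h1, h2, h3⟩

end Pool.Agent.Work.MP_69fea5_lc.W3
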