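import Pool.Agent.Work.MP_69fea5_lc.W3.StmtsG

set_option autoImplicit false

namespace Pool.Agent.Work.MP_69fea5_lc.W3

open MeasureTheory Topology Set Filter TopologicalSpace
open Pool.Agent.Work.MP_69fea5_lc.AK

namespace I_GOP

theorem lim_mem {G X : Type} [AddCommGroup G] [TopologicalSpace X] {A : G → X → X} {K : Set X}
    (hc : IsClosed K) (hi : InvA A K) (F : Ultrafilter G) {x y : X} (hx : x ∈ K)
    (h : Tendsto (fun g => A g x) (F : Filter G) (𝓝 y)) : y ∈ K :=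
  hc.mem_of_tendsto h (Eventually.of_forall fun g => hi g x hx)

theorem lim_f {G X Y : Type} [AddCommGroup G] [TopologicalSpace X] [TopologicalSpace Y]
    {A : G → X → X} {B : G → Y → Y} {K : Set X} {f : X → Y}
    (hc : IsClosed K) (hi : InvA A K) (hf : ContinuousOn f K)
    (he : ∀ g, ∀ x ∈ K, f (A g x) = B g (f x)) (F : Ultrafilter G) {x y : X} (hx : x ∈ K)
    (h : Tendsto (fun g => A g x) (F : Filter G) (𝓝 y)) :
    Tendsto (fun g => B g (f x)) (F : Filter G) (𝓝 (f y)) := by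
  have hy : y ∈ K := lim_mem hc hi F hx h
  have h1 : Tendsto (fun g => A g x) (F : Filter G) (𝓝[K] y) :=
    tendsto_nhdsWithin_iff.2 ⟨h, Eventually.of_forall fun g => hi g x hx⟩
  have h2 : Tendsto (fun g => f (A g x)) (F : Filter G) (𝓝 (f y)) := (hf y hy).tendsto.comp h1
  exact h2.congr fun g => he g x hx

end I_GOP

open I_GOP in
theorem GOP_pf (hGFL : S_GFL) (hGUL : S_GUL) (hGUI : S_GUI) : S_GOP := by
  intro G X Y _ _ _ _ _ _ A B K f hA hK hD hf he U hU x hx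
  have hor : orbA A x = K := (hGFL G X A hA).2.2.1 x K hK hx.2
  by_contra hcon
  push Not at hcon
  set S : Set X := {k | k ∈ K ∧ f k ∉ f '' (U ∩ K)} with hS
  have hne : (comap f (𝓝 (f x)) ⊓ 𝓟 S).NeBot := by
    rw [inf_principal_neBot_iff]
    rintro V' ⟨V, hV, hVV'⟩
    have h1 := hcon V hV
    rw [Set.not_subset] at h1
    obtain ⟨y, ⟨hyV, k, hk, rfl⟩, hy⟩ := h1
    exact ⟨k, hVV' hyV, hk, hy⟩
  obtain ⟨W, hW⟩ := @Ultrafilter.exists_le _ _ hne
  have hWf : Tendsto f (W : Filter X) (𝓝 (f x)) := tendsto_iff_comap.2 (hW.trans inf_le_left)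
  have hWS : ∀ᶠ k in (W : Filter X), k ∈ S := (hW.trans inf_le_right) (mem_principal_self S)
  have hWK : ∀ᶠ k in (W : Filter X), k ∈ K := hWS.mono fun k hk => hk.1
  obtain ⟨κ, hκ⟩ : ∃ κ, (W : Filter X) ≤ 𝓝 κ := by
    obtain ⟨κ, _, h⟩ := isCompact_univ.ultrafilter_le_nhds W (by simp)
    exact ⟨κ, h⟩
  have hκK : κ ∈ K := hK.closed.mem_of_tendsto (show Tendsto id (W : Filter X) (𝓝 κ) from hκ) hWK
  have hfκ : f κ = f x := by
    have h1 : Tendsto id (W : Filter X) (𝓝[K] κ) := tendsto_nhdsWithin_iff.2 ⟨hκ, hWK⟩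
    have h2 : Tendsto f (W : Filter X) (𝓝 (f κ)) := (hf κ hκK).tendsto.comp h1
    exact tendsto_nhds_unique h2 hWf
  have hch : ∀ k : X, ∃ F : Ultrafilter G, k ∈ K → Tendsto (fun g => A g x) (F : Filter G) (𝓝 k) := by
    intro k
    by_cases hk : k ∈ K
    · rw [← hor] at hk
      obtain ⟨F, hF⟩ := ((hGUL G X A).2 x k).1 hk
      exact ⟨F, fun _ => hF⟩
    · exact ⟨pure 0, fun h => absurd h hk⟩
  choose Fk hFk using hch
  set F : Ultrafilter G := W.bind Fk with hFdef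
  have hFmem : ∀ s : Set G, s ∈ (F : Filter G) ↔ ∀ᶠ k in (W : Filter X), s ∈ (Fk k : Filter G) :=
    fun s => Iff.rfl
  have hFx : Tendsto (fun g => A g x) (F : Filter G) (𝓝 κ) := by
    rw [tendsto_nhds]
    intro O hO hκO
    rw [hFmem]
    filter_upwards [hκ (hO.mem_nhds hκO), hWK] with k hk hkK
    exact (hFk k hkK) (hO.mem_nhds hk)
  obtain ⟨F', hF'⟩ := hGUI G X A K hA hK.closed hK.inv hD F
  obtain ⟨w, hw⟩ := (hGUL G X A).1 F' x
  have hwK : w ∈ K := lim_mem hK.closed hK.inv F' hx.2 hw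
  have hwx : Tendsto (fun g => A g w) (F : Filter G) (𝓝 x) := (hF' w hwK x hx.2).2 hw
  have hκx : Tendsto (fun g => A g κ) (F' : Filter G) (𝓝 x) := (hF' x hx.2 κ hκK).1 hFx
  have hfw : f w = f x := by
    have h1 := lim_f hK.closed hK.inv hf he F' hx.2 hw
    have h2 := lim_f hK.closed hK.inv hf he F' hκK hκx
    rw [hfκ] at h2
    exact tendsto_nhds_unique h1 h2
  choose q hq using fun k => (hGUL G X A).1 (Fk k) w
  have hqK : ∀ k, q k ∈ K := fun k => lim_mem hK.closed hK.inv (Fk k) hwK (hq k)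
  have hfq : ∀ k ∈ K, f (q k) = f k := by
    intro k hk
    have h1 := lim_f hK.closed hK.inv hf he (Fk k) hwK (hq k)
    have h2 := lim_f hK.closed hK.inv hf he (Fk k) hx.2 (hFk k hk)
    rw [hfw] at h1
    exact tendsto_nhds_unique h1 h2
  obtain ⟨O, hO, hOc, hOU⟩ := exists_mem_nhds_isClosed_subset (hU.mem_nhds hx.1)
  have h3 : ∀ᶠ k in (W : Filter X), {g | A g w ∈ O} ∈ (Fk k : Filter G) :=
    (hFmem _).1 (hwx hO)
  obtain ⟨k, hk3, hkS⟩ := (h3.and hWS).exists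
  have hqO : q k ∈ O := hOc.mem_of_tendsto (hq k) hk3
  exact hkS.2 ⟨q k, ⟨hOU hqO, hqK k⟩, hfq k hkS.1⟩

end Pool.Agent.Work.MP_69fea5_lc.W3
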