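import Pool.Agent.Work.MP_69fea5_lc.W3.StmtsG

/-! Item GPE: the perturbation at the time `0`. -/

set_option autoImplicit false

namespace Pool.Agent.Work.MP_69fea5_lc.W3

open Topology Set Filter
open Pool.Agent.Work.MP_69fea5_lc.AK

theorem GPE_pf (hGUO : S_GUO) : S_GPE := by
  intro n Z X _ _ _ _ _ _ p c hmin hdist hp heq hL I hI a ha b hb hab ε hε
  classical
  obtain ⟨δ0, hδ0, h0⟩ := hL
  obtain ⟨δ1, hδ1, h1⟩ := hGUO n Z X p hmin hdist hp heq (I.erase b) ε hε
  refine ⟨min δ0 δ1, lt_min hδ0 hδ1, fun d hd e hpe hde => ?_⟩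
  have hcard : (I.erase b).card = c := by
    rw [Finset.card_erase_of_mem hb, hI]
    rfl
  have haI : a ∈ I.erase b := Finset.mem_erase.mpr ⟨hab, ha⟩
  have hdPL : d ∈ PL n p (I.erase b) := ⟨d, hd, fun i _ => rfl, fun i => rfl⟩
  obtain ⟨w, hw, hw1, hw2⟩ := h0 (I.erase b) hcard a haI d hdPL e
    (lt_of_lt_of_le hde (min_le_left _ _)) hpe
  have hwa : w a = e := by
    rw [← hw1 a haI, Function.update_self]
  have hwi : ∀ i, i ∈ I.erase b → i ≠ a → w i = d i := by
    intro i hi hia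
    rw [← hw1 i hi, Function.update_of_ne hia]
  have hpw : ∀ i, p (d i) = p (w i) := by
    intro i
    rw [← hw2 i]
    by_cases hia : i = a
    · subst hia
      rw [Function.update_self]
      exact hpe
    · rw [Function.update_of_ne hia]
  obtain ⟨w', hw', e1, e2, e3⟩ := h1 d hd w hw hpw (by
    intro i hi
    by_cases hia : i = a
    · subst hia
      rw [hwa]
      exact lt_of_lt_of_le hde (min_le_right _ _)
    · rw [hwi i hi hia, dist_self]
      exact hδ1)
  refine ⟨w', hw', ?_, ?_, ?_, e3⟩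
  · rw [e1 a haI, hwa]
  · intro i hi hia hib
    have hiI : i ∈ I.erase b := Finset.mem_erase.mpr ⟨hib, hi⟩
    rw [e1 i hiI, hwi i hiI hia]
  · intro i
    rw [e2 i, ← hpw i]

end Pool.Agent.Work.MP_69fea5_lc.W3
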