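import Pool.Agent.Work.MP_69fea5_lc.W3.StmtsG

/-!
# Item [69fea5 W3 GPR]: the set of progressions
-/

set_option autoImplicit false

namespace Pool.Agent.Work.MP_69fea5_lc.W3

open Topology Set Filter
open Pool.Agent.Work.MP_69fea5_lc.AK

namespace I_GPR

theorem pf_apply (i : ℤ) (p : ℤ × ℤ) : pf i p = p.1 + i * p.2 := rfl

theorem closed (n : ℕ) (Z : Type) [TopologicalSpace Z] [Sys Z] : IsClosed (PG n Z) :=
  isClosed_closure

theorem cfg_mem (n : ℕ) (Z : Type) [TopologicalSpace Z] [Sys Z] (g : ℤ × ℤ) (z : Z) :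
    (fun i : Fin n => sh (pf ((i : ℕ) : ℤ) g) z) ∈ PG n Z :=
  subset_closure ⟨g, z, rfl⟩

theorem const_mem (n : ℕ) (Z : Type) [TopologicalSpace Z] [Sys Z] (z : Z) :
    (fun _ => z) ∈ PG n Z := by
  have h := cfg_mem n Z 0 z
  have e : (fun i : Fin n => sh (pf ((i : ℕ) : ℤ) (0 : ℤ × ℤ)) z) = fun _ => z := by
    funext i
    rw [map_zero, sh_zero]
  rwa [e] at h

theorem inv (n : ℕ) (Z : Type) [TopologicalSpace Z] [Sys Z] : InvA (prA n Z) (PG n Z) := by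
  intro g x hx
  refine map_mem_closure ((flow_cfA (X := Z) (fun i : Fin n => pf ((i : ℕ) : ℤ))).cont g) hx ?_
  rintro y ⟨g', z, rfl⟩
  refine ⟨g + g', z, ?_⟩
  funext i
  change sh (pf ((i : ℕ) : ℤ) g) (sh (pf ((i : ℕ) : ℤ) g') z) = _
  rw [map_add, sh_add]

theorem eq_cl (n : ℕ) (Z : Type) [TopologicalSpace Z] [Sys Z] (j : Fin n) : PG n Z =
    closure {x | ∃ (m : ℤ) (v : Z), x = fun i : Fin n => sh (((i : ℤ) - (j : ℤ)) * m) v} := by
  unfold PG NF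
  congr 1
  ext x
  constructor
  · rintro ⟨g, z, rfl⟩
    refine ⟨g.2, sh (g.1 + ((j : ℕ) : ℤ) * g.2) z, ?_⟩
    funext i
    rw [← sh_add, pf_apply]
    congr 1
    ring
  · rintro ⟨m, v, rfl⟩
    refine ⟨(-((j : ℕ) : ℤ) * m, m), v, ?_⟩
    funext i
    rw [pf_apply]
    congr 1
    ring

theorem mv (n : ℕ) (Z : Type) [TopologicalSpace Z] [Sys Z] : ∀ x ∈ PG n Z, ∀ b m : ℤ,
    (fun i : Fin n => sh (b + ((i : ℕ) : ℤ) * m) (x i)) ∈ PG n Z :=
  fun x hx b m => inv n Z (b, m) x hx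

end I_GPR

open I_GPR in
theorem GPR_pf (hGCF : S_GCF) : S_GPR := by
  intro n Z _ _ _ _ hmin
  obtain ⟨z₀, -⟩ := hmin.ne
  refine ⟨⟨closed n Z, ⟨_, const_mem n Z z₀⟩, inv n Z⟩, const_mem n Z, eq_cl n Z, mv n Z, ?_, ?_,
    ?_, ?_⟩
  · intro x hx j m
    have h := mv n Z x hx (-((j : ℕ) : ℤ) * m) m
    have e : (fun i : Fin n => sh (-((j : ℕ) : ℤ) * m + ((i : ℕ) : ℤ) * m) (x i)) =
        fun i : Fin n => sh (((i : ℤ) - (j : ℤ)) * m) (x i) := by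
      funext i
      congr 1
      ring
    rwa [e] at h
  · intro x hx
    have h := mv n Z x hx 1 0
    have e : (fun i : Fin n => sh (1 + ((i : ℕ) : ℤ) * 0) (x i)) =
        fun i : Fin n => sh 1 (x i) := by
      funext i
      rw [mul_zero, add_zero]
    rwa [e] at h
  · exact fun j z => ⟨_, const_mem n Z z, rfl⟩
  · intro hd
    obtain ⟨h1, h2⟩ := hGCF (ℤ × ℤ) (Fin n) Z (fun i : Fin n => pf ((i : ℕ) : ℤ)) hd
    refine ⟨h1, (h2 ⟨(1, 0), fun i => ?_⟩ hmin).1⟩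
    rw [pf_apply]
    ring

end Pool.Agent.Work.MP_69fea5_lc.W3
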