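import Pool.Agent.Work.MP_69fea5_lc.W3.StmtsG

set_option autoImplicit false

namespace Pool.Agent.Work.MP_69fea5_lc.W3

open MeasureTheory Topology Set Filter TopologicalSpace
open Pool.Agent.Work.MP_69fea5_lc.AK

namespace I_GPT

/-- a continuous invariant pseudometric is small on close pairs -/
theorem rho_small {Z X : Type} [MetricSpace Z] [CompactSpace Z] [Sys Z] [TopologicalSpace X]
    [T2Space X] (p : Z → X) (ρ : Z → Z → ℝ) (hp : Continuous p) (h : CI p ρ) (ε : ℝ)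
    (hε : 0 < ε) : ∃ δ > 0, ∀ z z', p z = p z' → dist z z' < δ → ρ z z' < ε := by
  have hK : IsCompact {q : Z × Z | p q.1 = p q.2} :=
    (isClosed_eq (hp.comp continuous_fst) (hp.comp continuous_snd)).isCompact
  have hu := hK.uniformContinuousOn_of_continuous h.cont
  rw [Metric.uniformContinuousOn_iff] at hu
  obtain ⟨δ, hδ, H⟩ := hu ε hε
  refine ⟨δ, hδ, fun z z' hz hd => ?_⟩
  have h1 := H (z, z') hz (z', z') rfl (by
    rw [Prod.dist_eq]
    exact max_lt hd (by rw [dist_self]; exact hδ))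
  rw [h.self z', Real.dist_eq, sub_zero] at h1
  exact (abs_lt.1 h1).2

/-- finitely many powers are uniformly equicontinuous -/
theorem sh_unif {Z : Type} [MetricSpace Z] [CompactSpace Z] [Sys Z] (η : ℝ) (hη : 0 < η)
    (N : ℕ) : ∃ δ > 0, ∀ r : ℤ, 0 ≤ r → r < N → ∀ e e' : Z, dist e e' < δ →
      dist (sh r e) (sh r e') < η := by
  induction N with
  | zero => exact ⟨1, one_pos, fun r h0 h1 => absurd h1 (by push_cast; omega)⟩
  | succ N ih =>
    obtain ⟨δ, hδ, H⟩ := ih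
    have hu : UniformContinuous (sh (N : ℤ) : Z → Z) :=
      CompactSpace.uniformContinuous_of_continuous (sh_cont _)
    rw [Metric.uniformContinuous_iff] at hu
    obtain ⟨δ', hδ', H'⟩ := hu η hη
    refine ⟨min δ δ', lt_min hδ hδ', fun r h0 h1 e e' he => ?_⟩
    by_cases hr : r < N
    · exact H r h0 hr e e' (lt_of_lt_of_le he (min_le_left _ _))
    · have hr' : r = N := by push_cast at h1; omega
      rw [hr']
      exact H' (lt_of_lt_of_le he (min_le_right _ _))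

end I_GPT

open I_GPT in
theorem GPT_pf (hGPE : S_GPE) (hGPR : S_GPR) : S_GPT := by
  intro n Z X _ _ _ _ _ _ p c ρ hmin hdis hp he hls hρ I hI a ha b hb hab ε hε
  obtain ⟨ε1, hε1, hr⟩ := rho_small p ρ hp hρ ε hε
  obtain ⟨δ1, hδ1, hE⟩ := hGPE n Z X p c hmin hdis hp he hls I hI a ha b hb hab (min ε ε1)
    (lt_min hε hε1)
  set q : ℤ := ((a : ℕ) : ℤ) - ((b : ℕ) : ℤ) with hq
  have hq0 : q ≠ 0 := by
    intro h
    apply hab
    apply Fin.ext
    omega
  obtain ⟨δ, hδ, hS⟩ := sh_unif (Z := Z) δ1 hδ1 q.natAbs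
  refine ⟨δ, hδ, fun e e' hee hde m D hD hDa => ?_⟩
  have hmv := (hGPR n Z hmin).2.2.2.2.1
  have hm : q * (m / q) + m % q = m := Int.mul_ediv_add_emod m q
  have hr0 : 0 ≤ m % q := Int.emod_nonneg m hq0
  have hr1 : m % q < q.natAbs := by
    rw [Int.natCast_natAbs]
    exact Int.emod_lt_abs m hq0
  have hD1 := hmv D hD b (-(m / q))
  have hda : sh ((((a : ℕ) : ℤ) - ((b : ℕ) : ℤ)) * (-(m / q))) (D a) = sh (m % q) e := by
    rw [hDa, ← sh_add]
    congr 1
    rw [← hq]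
    linear_combination -hm
  obtain ⟨d', hd', hd'a, hd'I, hd'p, hd'd⟩ := hE _ hD1 (sh (m % q) e') (by
    rw [hda, he, he, hee]) (by
    rw [hda]
    exact hS _ hr0 hr1 e e' hde)
  have hback : ∀ i : Fin n, sh ((((i : ℕ) : ℤ) - ((b : ℕ) : ℤ)) * (m / q))
      (sh ((((i : ℕ) : ℤ) - ((b : ℕ) : ℤ)) * (-(m / q))) (D i)) = D i := by
    intro i
    rw [← sh_add]
    have : (((i : ℕ) : ℤ) - ((b : ℕ) : ℤ)) * (m / q) +
        (((i : ℕ) : ℤ) - ((b : ℕ) : ℤ)) * (-(m / q)) = 0 := by ring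
    rw [this, sh_zero]
  refine ⟨_, hmv d' hd' b (m / q), ?_, ?_, ?_, ?_⟩
  · rw [hd'a, ← sh_add]
    congr 1
  · intro i hi hia
    by_cases hib : i = b
    · subst hib
      have h1 := hd'd i
      change dist (d' i) (sh ((((i : ℕ) : ℤ) - ((i : ℕ) : ℤ)) * (-(m / q))) (D i)) < _ at h1
      rw [sub_self, zero_mul, sh_zero] at h1 ⊢
      exact lt_of_lt_of_le h1 (min_le_left _ _)
    · rw [hd'I i hi hia hib, hback, dist_self]
      exact hε
  · intro i
    rw [he, hd'p i, ← he, hback]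
  · intro i _
    have h1 : ρ (d' i) (sh ((((i : ℕ) : ℤ) - ((b : ℕ) : ℤ)) * (-(m / q))) (D i)) < ε :=
      hr _ _ (hd'p i) (lt_of_lt_of_le (hd'd i) (min_le_right _ _))
    have h2 := hρ.inv ((((i : ℕ) : ℤ) - ((b : ℕ) : ℤ)) * (m / q)) _ _ (hd'p i)
    change ρ (sh ((((i : ℕ) : ℤ) - ((b : ℕ) : ℤ)) * (m / q)) (d' i)) (D i) < ε
    rw [hback] at h2
    rw [h2]
    exact h1

end Pool.Agent.Work.MP_69fea5_lc.W3
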