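import Pool.Agent.Work.MP_69fea5_lc.W3.StmtsG

set_option autoImplicit false

namespace Pool.Agent.Work.MP_69fea5_lc.W3

open MeasureTheory Topology Set Filter TopologicalSpace
open Pool.Agent.Work.MP_69fea5_lc.AK

namespace I_GRA

/-- small `ρ` means close `p'`-images -/
theorem close {Z X X' : Type} [MetricSpace Z] [CompactSpace Z] [Sys Z]
    [TopologicalSpace X] [T2Space X] [MetricSpace X']
    (p : Z → X) (p' : Z → X') (ρ : Z → Z → ℝ) (hp : Continuous p) (hp' : Continuous p')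
    (hρ : CI p ρ) (h0 : ∀ z z', p z = p z' → ρ z z' = 0 → p' z = p' z')
    (ε : ℝ) (hε : 0 < ε) : ∃ η > 0, ∀ z z', p z = p z' → ρ z z' < η → dist (p' z) (p' z') ≤ ε := by
  let S : Set (Z × Z) := {q | p q.1 = p q.2 ∧ ε ≤ dist (p' q.1) (p' q.2)}
  have hSc : IsClosed S := by
    refine IsClosed.inter ?_ ?_
    · exact isClosed_eq (hp.comp continuous_fst) (hp.comp continuous_snd)
    · exact isClosed_le continuous_const
        ((hp'.comp continuous_fst).dist (hp'.comp continuous_snd))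
  have hSk : IsCompact S := hSc.isCompact
  rcases S.eq_empty_or_nonempty with hS | hS
  · refine ⟨1, one_pos, fun z z' hz _ => ?_⟩
    by_contra hlt
    have : (z, z') ∈ S := ⟨hz, (not_le.1 hlt).le⟩
    rw [hS] at this
    exact this
  · have hcont : ContinuousOn (fun q : Z × Z => ρ q.1 q.2) S := hρ.cont.mono fun q hq => hq.1
    obtain ⟨q0, hq0, hmin⟩ := hSk.exists_isMinOn hS hcont
    have hpos : 0 < ρ q0.1 q0.2 := by
      rcases (hρ.nonneg q0.1 q0.2 hq0.1).lt_or_eq with h | h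
      · exact h
      · exfalso
        have := h0 _ _ hq0.1 h.symm
        have h2 := hq0.2
        rw [this, dist_self] at h2
        exact absurd hε (not_lt.2 h2)
    refine ⟨ρ q0.1 q0.2, hpos, fun z z' hz hlt => ?_⟩
    by_contra hd
    have hmem : (z, z') ∈ S := ⟨hz, (not_le.1 hd).le⟩
    exact absurd hlt (not_lt.2 (hmin hmem))

end I_GRA

open I_GRA in
theorem GRA_pf (hGPR : S_GPR) (hGOP : S_GOP) (hGHD : S_GHD) (hGPT : S_GPT) (hGEQ : S_GEQ) :
    S_GRA := by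
  intro n Z X X' _ _ _ _ _ _ _ _ _ p p' c ρ hmin hdis hp hpe hp' hpe' hLS hρ hρ0 I hI a ha b hb hab
  letI : MetricSpace X' := TopologicalSpace.metrizableSpaceMetric X'
  obtain ⟨⟨hcl, hne, hinv⟩, _, _, _, _, _, hsur, hdm⟩ := hGPR n Z hmin
  obtain ⟨hdis', hminA⟩ := hdm hdis
  let V : Type := ({i : Fin n // i ∈ I ∧ i ≠ a} → Z) × ({i : Fin n // i ∉ I} → X')
  let F : (Fin n → Z) → V := fun x => (fun i => x i.1, fun i => p' (x i.1))
  have hFc : Continuous F := by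
    refine Continuous.prodMk ?_ ?_
    · exact continuous_pi fun i => continuous_apply _
    · exact continuous_pi fun i => hp'.comp (continuous_apply _)
  have hdisK : DistalOn (prA n Z) (PG n Z) :=
    fun F' x y z _ _ h1 h2 => hdis' F' x y z (mem_univ _) (mem_univ _) h1 h2
  have himg : (fun x : Fin n → Z => x a) '' PG n Z = univ := by
    refine eq_univ_of_forall fun z => ?_
    obtain ⟨x, hx, hxz⟩ := hsur a z
    exact ⟨x, hx, hxz⟩
  have hopen : ∀ x ∈ PG n Z, ∀ U ∈ 𝓝 x, ∀ᶠ z in 𝓝 (x a), ∃ x' ∈ U ∩ PG n Z, x' a = z := by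
    intro x hx U hU
    obtain ⟨U', hU'U, hU'o, hxU'⟩ := mem_nhds_iff.1 hU
    obtain ⟨V', hV', hVs⟩ := hGOP (ℤ × ℤ) (Fin n → Z) Z (prA n Z)
      (fun g z => sh (pf ((a : Fin n) : ℕ) g) z) (PG n Z) (fun x => x a)
      (flow_cfA _) hminA hdisK (continuous_apply a).continuousOn
      (fun g x _ => rfl) U' hU'o x ⟨hxU', hx⟩
    filter_upwards [hV'] with z hz
    have : z ∈ (fun x : Fin n → Z => x a) '' (U' ∩ PG n Z) := hVs ⟨hz, by rw [himg]; trivial⟩
    obtain ⟨x', ⟨hx'U, hx'K⟩, hx'z⟩ := this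
    exact ⟨x', ⟨hU'U hx'U, hx'K⟩, hx'z⟩
  obtain ⟨h, hcont, hself, hnn, hsymm, htri, hzero, hbd⟩ := hGHD (Fin n → Z) Z V (PG n Z)
    (fun x => x a) F hcl (continuous_apply a) hFc (hsur a) hopen
  have hequi : ∀ ε > 0, ∃ δ > 0, ∀ z z', p z = p z' → dist z z' < δ → ∀ m : ℤ,
      h (sh m z) (sh m z') ≤ ε := by
    intro ε hε
    obtain ⟨η, hη, hclose⟩ := close p p' ρ hp hp' hρ (fun z z' hz => (hρ0 z z' hz).1) ε hε
    obtain ⟨δ, hδ, hP⟩ := hGPT n Z X p c ρ hmin hdis hp hpe hLS hρ I hI a ha b hb hab (min ε η)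
      (lt_min hε hη)
    refine ⟨δ, hδ, fun z z' hz hd m => hbd _ _ ε hε.le ?_ ?_⟩
    · intro D hD hDa
      obtain ⟨D', hD', hD'a, h1, h2, h3⟩ := hP z z' hz hd m D hD hDa
      refine ⟨D', hD', hD'a, ?_⟩
      rw [Prod.dist_eq]
      refine max_le ?_ ?_
      · exact (dist_pi_le_iff hε.le).2 fun i =>
          ((h1 i.1 i.2.1 i.2.2).le).trans (min_le_left _ _)
      · exact (dist_pi_le_iff hε.le).2 fun i =>
          hclose _ _ (h2 i.1) ((h3 i.1 i.2).trans_le (min_le_right _ _))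
    · intro D hD hDa
      obtain ⟨D', hD', hD'a, h1, h2, h3⟩ := hP z' z hz.symm (by rwa [dist_comm]) m D hD hDa
      refine ⟨D', hD', hD'a, ?_⟩
      rw [Prod.dist_eq]
      refine max_le ?_ ?_
      · exact (dist_pi_le_iff hε.le).2 fun i =>
          ((h1 i.1 i.2.1 i.2.2).le).trans (min_le_left _ _)
      · exact (dist_pi_le_iff hε.le).2 fun i =>
          hclose _ _ (h2 i.1) ((h3 i.1 i.2).trans_le (min_le_right _ _))
  obtain ⟨ρ', hρ', hle⟩ := hGEQ Z X p h hmin hdis hp hpe hcont hself hnn hsymm htri hequi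
  refine ⟨ρ', hρ', fun e e' hee h0 D hD hDa => ?_⟩
  have hh : h e e' = 0 := le_antisymm ((hle e e' hee).trans h0.le) (hnn _ _)
  obtain ⟨D', hD', hD'a, hF⟩ := hzero e e' hh D hD hDa
  refine ⟨D', hD', hD'a, ?_, ?_⟩
  · intro i hi hia
    exact congrFun (congrArg Prod.fst hF) ⟨i, hi, hia⟩
  · intro i hi
    exact congrFun (congrArg Prod.snd hF) ⟨i, hi⟩

end Pool.Agent.Work.MP_69fea5_lc.W3
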