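import Pool.Agent.Work.MP_69fea5_lc.W3.StmtsG

/-!
# Block [69fea5 W3 G], item GST: the step of the induction (freeness)
-/

set_option autoImplicit false

namespace Pool.Agent.Work.MP_69fea5_lc.W3

open MeasureTheory Topology Set Filter TopologicalSpace
open Pool.Agent.Work.MP_69fea5_lc.AK

namespace I_GST

/-- change the coordinates in `I` one after the other -/
theorem change {n : ℕ} {Z X X' : Type} [TopologicalSpace Z] [Sys Z]
    (p : Z → X) (p' : Z → X') (I : Finset (Fin n)) (ρ' : Fin n → Z → Z → ℝ)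
    (hρ : ∀ a ∈ I, ∀ e e', p e = p e' → ρ' a e e' = 0 → ∀ D ∈ PG n Z, D a = e →
      ∃ D' ∈ PG n Z, D' a = e' ∧ (∀ i ∈ I, i ≠ a → D' i = D i) ∧ ∀ i, i ∉ I → p' (D' i) = p' (D i))
    (x y : Fin n → Z) (hy : y ∈ PG n Z) (hp : ∀ i, p (y i) = p (x i))
    (h0 : ∀ i ∈ I, ρ' i (y i) (x i) = 0) (J : Finset (Fin n)) (hJ : J ⊆ I) :
    ∃ w ∈ PG n Z, (∀ i ∈ J, w i = x i) ∧ (∀ i ∈ I, i ∉ J → w i = y i) ∧
      ∀ i, i ∉ I → p' (w i) = p' (y i) := by
  induction J using Finset.induction_on with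
  | empty => exact ⟨y, hy, by simp, fun _ _ _ => rfl, fun _ _ => rfl⟩
  | insert a J ha ih =>
    obtain ⟨w, hw, h1, h2, h3⟩ := ih ((Finset.subset_insert a J).trans hJ)
    have haI : a ∈ I := hJ (Finset.mem_insert_self a J)
    obtain ⟨D', hD', h4, h5, h6⟩ := hρ a haI (y a) (x a) (hp a) (h0 a haI) w hw (h2 a haI ha)
    refine ⟨D', hD', ?_, ?_, ?_⟩
    · intro i hi
      rcases Finset.mem_insert.1 hi with rfl | hi
      · exact h4
      · rw [h5 i (hJ (Finset.mem_insert_of_mem hi)) (fun h => ha (h ▸ hi))]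
        exact h1 i hi
    · intro i hiI hi
      rw [Finset.mem_insert, not_or] at hi
      rw [h5 i hiI hi.1]
      exact h2 i hiI hi.2
    · intro i hi
      rw [h6 i hi]
      exact h3 i hi

end I_GST

theorem GST_pf (hGRA : S_GRA) (hGDS : S_GDS) : S_GST := by
  intro n Z X X' _ _ _ _ _ _ _ _ _ p p' c ρ hmin hdis hpc hpe hpc' hpe' hpp hc hL hCI hρ hF I hI a
    ha x hx e hxe
  classical
  -- the pseudometrics
  have hex : ∀ i : Fin n, ∃ r : Z → Z → ℝ, CI p r ∧
      ((i ∈ I → ∀ e e', p e = p e' → r e e' = 0 → ∀ D ∈ PG n Z, D i = e →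
        ∃ D' ∈ PG n Z, D' i = e' ∧ (∀ l ∈ I, l ≠ i → D' l = D l) ∧
          ∀ l, l ∉ I → p' (D' l) = p' (D l)) ∧ (i ∉ I → r = ρ)) := by
    intro i
    by_cases hi : i ∈ I
    · have : ∃ b ∈ I, i ≠ b := by
        by_contra hcon
        push Not at hcon
        have h1 : I ⊆ {i} := fun b hb => by
          rw [Finset.mem_singleton]
          exact (hcon b hb).symm
        have := Finset.card_le_card h1
        rw [Finset.card_singleton] at this
        omega
      obtain ⟨b, hb, hib⟩ := this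
      obtain ⟨r, hr, hr'⟩ := hGRA n Z X X' p p' c ρ hmin hdis hpc hpe hpc' hpe' hL hCI hρ I hI i hi
        b hb hib
      exact ⟨r, hr, fun _ => hr', fun h => absurd hi h⟩
    · exact ⟨ρ, hCI, fun h => absurd h hi, fun _ => rfl⟩
  choose r hr using hex
  obtain ⟨g, hgc, hgi, hg0⟩ := hGDS n Z X p r hmin hdis hpc hpe fun i => (hr i).1
  have key : ∀ x ∈ WP n p, (g x = 0 ↔ x ∈ PL n p' I) := by
    intro x hx
    rw [hg0 x hx]
    constructor
    · rintro ⟨y, hy, hpy, hry⟩
      obtain ⟨w, hw, h1, -, h3⟩ := I_GST.change p p' I r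
        (fun b hb => ((hr b).2.1 hb)) x y hy (fun i => (hpy i).symm)
        (fun i _ => by rw [(hr i).1.symm _ _ (hpy i).symm]; exact hry i) I subset_rfl
      refine ⟨w, hw, fun i hi => (h1 i hi).symm, fun i => ?_⟩
      by_cases hi : i ∈ I
      · rw [h1 i hi]
      · rw [h3 i hi]
        have h4 := hry i
        rw [(hr i).2.2 hi] at h4
        exact (hρ _ _ (hpy i)).1 h4
    · rintro ⟨y, hy, h1, h2⟩
      refine ⟨y, hy, fun i => hpp _ _ (h2 i), fun i => ?_⟩
      by_cases hi : i ∈ I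
      · rw [h1 i hi]
        exact (hr i).1.self _
      · rw [(hr i).2.2 hi]
        exact (hρ _ _ (hpp _ _ (h2 i))).2 (h2 i)
  have hxW : x ∈ WP n p := by
    obtain ⟨y, hy, -, h2⟩ := hx
    exact ⟨y, hy, fun i => hpp _ _ (h2 i)⟩
  have hup : ∀ i, p' (x i) = p' (Function.update x a e i) := by
    intro i
    by_cases h : i = a
    · subst h
      rw [Function.update_self]
      exact hxe
    · rw [Function.update_of_ne h]
  have hxW' : Function.update x a e ∈ WP n p := by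
    obtain ⟨y, hy, h2⟩ := hxW
    exact ⟨y, hy, fun i => (hpp _ _ (hup i)).symm.trans (h2 i)⟩
  have h5 := hF g hgc hgi x hxW _ hxW' hup
  rw [← key _ hxW', ← h5]
  exact (key x hxW).2 hx

end Pool.Agent.Work.MP_69fea5_lc.W3
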