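import Pool.Agent.Work.MP_69fea5_lc.W3.StmtsG

set_option autoImplicit false

namespace Pool.Agent.Work.MP_69fea5_lc.W3

open Topology Set Filter
open Pool.Agent.Work.MP_69fea5_lc.AK

namespace I_GUI

attribute [local instance] Ultrafilter.add Ultrafilter.addSemigroup

variable {G X : Type} [AddCommGroup G] [TopologicalSpace X] [T2Space X] [CompactSpace X]

/-- iterated limits are limits along the sum of the ultrafilters -/
theorem lim_add (A : G → X → X) (hA : Flow A) (U V : Ultrafilter G) (x y z : X)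
    (hV : Tendsto (fun g => A g x) (V : Filter G) (𝓝 y))
    (hU : Tendsto (fun g => A g y) (U : Filter G) (𝓝 z)) :
    Tendsto (fun g => A g x) ((U + V : Ultrafilter G) : Filter G) (𝓝 z) := by
  rw [tendsto_nhds]
  intro s hs hz
  have h1 : ∀ᶠ g in (U : Filter G), A g y ∈ s := hU (hs.mem_nhds hz)
  change ∀ᶠ g in ((U + V : Ultrafilter G) : Filter G), A g x ∈ s
  rw [Ultrafilter.eventually_add]
  filter_upwards [h1] with g hg
  have h2 : ∀ᶠ h in (V : Filter G), A g (A h x) ∈ s :=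
    (((hA.cont g).tendsto y).comp hV) (hs.mem_nhds hg)
  filter_upwards [h2] with h hh
  rw [hA.add]
  exact hh

theorem mem_of_lim (A : G → X → X) (K : Set X) (hK : IsClosed K) (hi : InvA A K)
    (F : Ultrafilter G) (x y : X) (hx : x ∈ K)
    (h : Tendsto (fun g => A g x) (F : Filter G) (𝓝 y)) : y ∈ K :=
  hK.mem_of_tendsto h (Eventually.of_forall fun g => hi g x hx)

/-- left inverse -/
theorem left_inv (hGUL : S_GUL) (A : G → X → X) (K : Set X) (hA : Flow A) (hK : IsClosed K)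
    (hi : InvA A K) (hd : DistalOn A K) (F : Ultrafilter G) :
    ∃ V : Ultrafilter G, ∀ x ∈ K, ∀ y, Tendsto (fun g => A g x) (F : Filter G) (𝓝 y) →
      Tendsto (fun g => A g y) (V : Filter G) (𝓝 x) := by
  obtain ⟨hlim, -⟩ := hGUL G X A
  have hc : IsCompact ((fun V : Ultrafilter G => V + F) '' univ) :=
    isCompact_univ.image (Ultrafilter.continuous_add_left F)
  obtain ⟨e, ⟨V, -, hVe⟩, hee⟩ := exists_idempotent_in_compact_add_subsemigroup
    (M := Ultrafilter G) Ultrafilter.continuous_add_left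
    ((fun V : Ultrafilter G => V + F) '' univ)
    ⟨F + F, F, mem_univ _, rfl⟩ hc (by
      rintro _ ⟨a, -, rfl⟩ _ ⟨b, -, rfl⟩
      exact ⟨a + F + b, mem_univ _, by simp only [add_assoc]⟩)
  refine ⟨V, fun x hx y hy => ?_⟩
  have hyK : y ∈ K := mem_of_lim A K hK hi F x y hx hy
  obtain ⟨z, hz⟩ := hlim V y
  have h1 : Tendsto (fun g => A g x) (e : Filter G) (𝓝 z) := by
    rw [← hVe]
    exact lim_add A hA V F x y z hy hz
  have hzK : z ∈ K := mem_of_lim A K hK hi V y z hyK hz
  obtain ⟨w, hw⟩ := hlim e z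
  have h2 : Tendsto (fun g => A g x) (e : Filter G) (𝓝 w) := by
    have := lim_add A hA e e x z w h1 hw
    rwa [hee] at this
  have hwz : w = z := tendsto_nhds_unique h2 h1
  rw [hwz] at hw
  have hxz : x = z := hd e x z z hx hzK h1 hw
  rw [hxz]
  exact hz

end I_GUI

theorem GUI_pf (hGUL : S_GUL) : S_GUI := by
  intro G X _ _ _ _ A K hA hK hi hd F
  obtain ⟨hlim, -⟩ := hGUL G X A
  obtain ⟨V, hV⟩ := I_GUI.left_inv hGUL A K hA hK hi hd F
  obtain ⟨W, hW⟩ := I_GUI.left_inv hGUL A K hA hK hi hd V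
  refine ⟨V, fun x hx y hy => ⟨fun h => hV x hx y h, fun h => ?_⟩⟩
  -- `lim_V y = x`, so `lim_W x = y`; let `z := lim_F x`; then `lim_V z = x`, `lim_W x = z`
  have h1 : Tendsto (fun g => A g x) (W : Filter G) (𝓝 y) := hW y hy x h
  obtain ⟨z, hz⟩ := hlim F x
  have hzK : z ∈ K := I_GUI.mem_of_lim A K hK hi F x z hx hz
  have h2 : Tendsto (fun g => A g z) (V : Filter G) (𝓝 x) := hV x hx z hz
  have h3 : Tendsto (fun g => A g x) (W : Filter G) (𝓝 z) := hW z hzK x h2
  have : z = y := tendsto_nhds_unique h3 h1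
  rw [← this]
  exact hz

end Pool.Agent.Work.MP_69fea5_lc.W3
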