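import Pool.Agent.Work.MP_69fea5_lc.W3.StmtsG

/-!
# [69fea5 W3 GUL] orbit closures and ultrafilters
-/

set_option autoImplicit false

namespace Pool.Agent.Work.MP_69fea5_lc.W3

open Topology Set Filter
open Pool.Agent.Work.MP_69fea5_lc.AK

namespace I_GUL

theorem exists_lim {G X : Type} [TopologicalSpace X] [CompactSpace X] (F : Ultrafilter G)
    (f : G → X) : ∃ y, Tendsto f (F : Filter G) (𝓝 y) := by
  obtain ⟨y, -, hy⟩ := (isCompact_univ (X := X)).ultrafilter_le_nhds (F.map f)
    (by simp)
  exact ⟨y, hy⟩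

theorem mem_closure_range_iff {G X : Type} [TopologicalSpace X] (f : G → X) (y : X) :
    y ∈ closure (Set.range f) ↔ ∃ F : Ultrafilter G, Tendsto f (F : Filter G) (𝓝 y) := by
  constructor
  · intro hy
    obtain ⟨U, hU, hUy⟩ := mem_closure_iff_ultrafilter.1 hy
    have hne : (Filter.comap f (U : Filter X)).NeBot :=
      Filter.comap_neBot_iff_frequently.2 (by
        have h1 : ∀ᶠ x in (U : Filter X), x ∈ Set.range f := hU
        exact h1.frequently)
    refine ⟨Ultrafilter.of (Filter.comap f (U : Filter X)), ?_⟩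
    have h2 : Tendsto f (Filter.comap f (U : Filter X)) (U : Filter X) := Filter.tendsto_comap
    exact (h2.mono_left (Ultrafilter.of_le _)).mono_right hUy
  · rintro ⟨F, hF⟩
    exact mem_closure_of_tendsto hF (Filter.Eventually.of_forall fun g => ⟨g, rfl⟩)

end I_GUL

theorem GUL_pf : S_GUL := by
  intro G X _ _ _ _ A
  refine ⟨fun F x => I_GUL.exists_lim F fun g => A g x, fun x y => ?_⟩
  exact I_GUL.mem_closure_range_iff (fun g => A g x) y

end Pool.Agent.Work.MP_69fea5_lc.W3
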