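import Pool.Agent.Work.MP_69fea5_lc.W3.StmtsT

/-!
# [69fea5 T ISP] isometric extensions are open, modulo the pseudometric

Reduction to `S_ONT` by iterated limits: `w i` is a limit of shifts of `w₀`, and `w₀` is the limit of the
`w i`, so `w₀` is a limit of shifts of `w₀` along the sum of the ultrafilters.
-/

set_option autoImplicit false

namespace Pool.Agent.Work.MP_69fea5_lc.W3

open MeasureTheory Topology Set Filter TopologicalSpace
open scoped NNReal ENNReal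
open Pool.Agent.Work.MP_69fea5_lc.AK

namespace I_ISP

/-- the sum of the ultrafilters `H i` along `G` -/
noncomputable def sumU {ι : Type} (G : Ultrafilter ι) (H : ι → Ultrafilter ℤ) :
    Ultrafilter (ι × ℤ) :=
  G.bind (fun i => (H i).map (fun n => (i, n)))

theorem mem_sumU {ι : Type} (G : Ultrafilter ι) (H : ι → Ultrafilter ℤ) (s : Set (ι × ℤ)) :
    s ∈ (sumU G H : Filter (ι × ℤ)) ↔ ∀ᶠ i in (G : Filter ι), ∀ᶠ n in (H i : Filter ℤ), (i, n) ∈ s :=
  Iff.rfl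

theorem tendsto_sumU {ι Y : Type} [TopologicalSpace Y] (G : Ultrafilter ι)
    (H : ι → Ultrafilter ℤ) (g : ℤ → Y) (a : ι → Y) (b : Y)
    (h : ∀ i, Tendsto g (H i : Filter ℤ) (𝓝 (a i))) (ha : Tendsto a (G : Filter ι) (𝓝 b)) :
    Tendsto (fun p : ι × ℤ => g p.2) (sumU G H : Filter (ι × ℤ)) (𝓝 b) := by
  rw [tendsto_nhds]
  intro s hs hb
  change _ ∈ (sumU G H : Filter (ι × ℤ))
  rw [mem_sumU]
  have h1 : ∀ᶠ i in (G : Filter ι), a i ∈ s := ha (hs.mem_nhds hb)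
  filter_upwards [h1] with i hi
  exact h i (hs.mem_nhds hi)

theorem inv_orb {X : Type} [TopologicalSpace X] [Sys X] (x : X) : AK.Inv (orb x) := by
  intro n y hy
  have h1 : sh n y ∈ closure (sh n '' (Set.range fun m : ℤ => sh m x)) :=
    image_closure_subset_closure_image (sh_cont n) ⟨y, hy, rfl⟩
  refine closure_mono ?_ h1
  rintro _ ⟨_, ⟨m, rfl⟩, rfl⟩
  exact ⟨n + m, sh_add n m x⟩

theorem orb_eq {X : Type} [TopologicalSpace X] [Sys X] {K : Set X} (hK : MinSet K) {x : X}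
    (hx : x ∈ K) : orb x = K := by
  refine hK.min _ isClosed_closure ⟨x, subset_closure ⟨0, sh_zero x⟩⟩ (inv_orb x) ?_
  refine closure_minimal ?_ hK.closed
  rintro _ ⟨m, rfl⟩
  exact hK.inv m x hx

theorem exists_ultra {X : Type} [TopologicalSpace X] [Sys X] {x y : X} (h : y ∈ orb x) :
    ∃ H : Ultrafilter ℤ, Tendsto (fun n : ℤ => sh n x) (H : Filter ℤ) (𝓝 y) := by
  have h1 : (comap (fun n : ℤ => sh n x) (𝓝 y)).NeBot := by
    rw [comap_neBot_iff]
    intro t ht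
    obtain ⟨z, hz, n, rfl⟩ := mem_closure_iff_nhds.1 h t ht
    exact ⟨n, hz⟩
  refine ⟨Ultrafilter.of (comap (fun n : ℤ => sh n x) (𝓝 y)), ?_⟩
  exact tendsto_comap.mono_left (Ultrafilter.of_le _)

theorem exists_lim {ι Y : Type} [TopologicalSpace Y] [CompactSpace Y] (G : Ultrafilter ι)
    (g : ι → Y) : ∃ b, Tendsto g (G : Filter ι) (𝓝 b) := by
  obtain ⟨b, -, hb⟩ := isCompact_univ.ultrafilter_le_nhds (G.map g) (by simp)
  exact ⟨b, hb⟩

end I_ISP

open I_ISP in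
theorem ISP_pf (hONT : S_ONT) : S_ISP := by
  intro Q W _ _ _ _ _ _ _ _ P ρ hPc hPi hmin hρ ι G w w₀ hw hlim q hq
  have hw₀ : w₀ ∈ Prod.snd '' P := ⟨(q, w₀), hq, rfl⟩
  have h1 : ∀ i, ∃ H : Ultrafilter ℤ, Tendsto (fun n : ℤ => sh n w₀) (H : Filter ℤ) (𝓝 (w i)) := by
    intro i
    apply exists_ultra
    rw [orb_eq hmin hw₀]
    exact hw i
  choose H hH using h1
  obtain ⟨t, t'', ht, ht'', hlt, hρ0⟩ := hONT Q W P ρ hPc hPi hmin hρ (ι × ℤ) (sumU G H)
    (fun p => p.2) w₀ w₀ hw₀ (tendsto_sumU G H (fun n => sh n w₀) w w₀ hH hlim) q hq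
  have h2 : ∀ i, ∃ b, Tendsto (fun n : ℤ => sh n t) (H i : Filter ℤ) (𝓝 b) :=
    fun i => exists_lim (H i) _
  choose f hf using h2
  obtain ⟨b, hb⟩ := exists_lim G f
  have hb' : b = t'' := tendsto_nhds_unique
    (tendsto_sumU G H (fun n => sh n t) f b hf hb) hlt
  subst hb'
  refine ⟨f, b, ?_, ht'', hb, hρ0⟩
  intro i
  have h3 : Tendsto (fun n : ℤ => (sh n t, sh n w₀)) (H i : Filter ℤ) (𝓝 (f i, w i)) :=
    (hf i).prodMk_nhds (hH i)
  exact hPc.mem_of_tendsto h3 (Eventually.of_forall fun n => hPi n (t, w₀) ht)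

end Pool.Agent.Work.MP_69fea5_lc.W3
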