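import Pool.Agent.Work.MP_69fea5_lc.W3.StmtsK

/-!
Block [69fea5 K], item KAM: a coded measure of the energy set over the graph of the position.
-/

set_option autoImplicit false

namespace Pool.Agent.Work.MP_69fea5_lc.W3

open MeasureTheory Topology Set Filter TopologicalSpace ProbabilityTheory
open scoped NNReal ENNReal
open Pool.Agent.Work.MP_69fea5_lc.AK
open Pool.Agent.Work.MP_69fea5_lc.HK (Cl DU Ar ArF ArR Dat Law LawC act near sc Pt oc Mn mr ext)
open Pool.Agent.Work.MP_69fea5_lc.KC (Agree)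

namespace I_KAM

theorem orb_map (hORB : AK.S_ORB) {X Y : Type} [TopologicalSpace X] [Sys X] [TopologicalSpace Y]
    [Sys Y] {f : X → Y} (hf : Continuous f)
    (he : ∀ (n : ℤ) (x : X), f (sh n x) = sh n (f x)) {x x' : X} (h : x' ∈ orb x) :
    f x' ∈ orb (f x) := by
  refine (hORB X x).2.2.2.1 (f ⁻¹' orb (f x)) ((hORB Y (f x)).1.preimage hf) ?_
    (hORB Y (f x)).2.2.1 h
  intro n y hy
  show f (sh n y) ∈ orb (f x)
  rw [he]
  exact (hORB Y (f x)).2.1 n _ hy

/-- minimality is reflected by injective maps -/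
theorem min_of_inj (hORB : AK.S_ORB) {X Y : Type} [TopologicalSpace X] [Sys X] [CompactSpace X]
    [TopologicalSpace Y] [Sys Y] [T2Space Y] {f : X → Y} (hf : Continuous f)
    (hi : Function.Injective f) (he : ∀ (n : ℤ) (x : X), f (sh n x) = sh n (f x)) {x : X}
    (hm : MinSet (orb (f x))) : MinSet (orb x) where
  closed := (hORB X x).1
  ne := ⟨x, (hORB X x).2.2.1⟩
  inv := (hORB X x).2.1
  min := by
    intro L hL hne hinv hsub
    have h1 : f '' L = orb (f x) := by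
      refine hm.min _ (hL.isCompact.image hf).isClosed (hne.image f) ?_ ?_
      · rintro n _ ⟨y, hy, rfl⟩
        exact ⟨sh n y, hinv n y hy, he n y⟩
      · rintro _ ⟨y, hy, rfl⟩
        exact orb_map hORB hf he (hsub hy)
    have h2 : x ∈ L := by
      have h3 : f x ∈ f '' L := by
        rw [h1]
        exact (hORB Y (f x)).2.2.1
      obtain ⟨y, hy, hyx⟩ := h3
      rwa [← hi hyx]
    exact Subset.antisymm hsub ((hORB X x).2.2.2.1 L hL hinv h2)

theorem mn_of_minSet (hORB : AK.S_ORB) {α : Type} [TopologicalSpace α] [Dat α] [Law α] [AK.Sys α]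
    [Agree α] {w : α} (h : AK.MinSet (AK.orb w)) : Mn w := by
  intro w' hw'
  rw [KC.oc_eq] at hw' ⊢
  rw [(hORB α w').2.2.2.2.1 _ h hw']
  exact (hORB α w).2.2.1

end I_KAM

theorem KAM_pf (hLGR : S_LGR) (hKAA : KC.S_KAA) (hAAB : AK.S_AAB) (hORB : AK.S_ORB)
    (hIMG : AK.S_IMG) : S_KAM := by
  intro S U hS hU k M X _ _ _ _ π I _ e hP he z hz hzp hez
  have hgr : MinSet (gr M π) := (hLGR k 0 X M π hP).1
  have hM' : MinSet (gr M (fun w => e (π w))) := by
    have h1 : (fun p : Om k × X => (p.1, e p.2)) '' gr M π = gr M (fun w => e (π w)) := by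
      ext ⟨w, v⟩
      constructor
      · rintro ⟨⟨w', x'⟩, ⟨h1, h2⟩, h3⟩
        have h4 : w' = w := congrArg Prod.fst h3
        have h5 : e x' = v := congrArg Prod.snd h3
        have h6 : x' = π w' := h2
        subst h4
        exact ⟨h1, by rw [← h5, h6]⟩
      · rintro ⟨h1, h2⟩
        exact ⟨(w, π w), ⟨h1, rfl⟩, Prod.ext rfl h2.symm⟩
    rw [← h1]
    exact hIMG _ _ _ _ hgr (continuous_fst.prodMk (he.cont.comp continuous_snd)).continuousOn
      (fun n p _ => Prod.ext rfl (he.equi n p.2))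
  obtain ⟨m, hm, hmA⟩ := hKAA S U hS hU k I _ z (e (π z)) hM' ⟨hz, rfl⟩ hzp hez
  obtain ⟨-, -, hAcl, hAinv, -⟩ := hAAB k (Cube I) _ hM'
  have hb : MinSet (orb (e (π z))) := by
    have h2 : MinSet (Prod.snd '' gr M (fun w => e (π w))) :=
      hIMG _ _ _ _ hM' continuous_snd.continuousOn (fun n p _ => rfl)
    rw [(hORB _ (e (π z))).2.2.2.2.1 _ h2 ⟨(z, e (π z)), ⟨hz, rfl⟩, rfl⟩]
    exact h2
  obtain ⟨m₁, hm₁, hmem, hMn⟩ := exists_fibre_min hS hU (x₀ := e (π z)) (x := e (π z)) (y₀ := m)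
    hez hm hez (I_KAM.mn_of_minSet hORB hb) (HK.mem_oc_self _)
  have hmA' : (e (π z), m₁) ∈ AA (gr M fun w => e (π w)) := by
    rw [KC.oc_eq] at hmem
    exact (hORB _ _).2.2.2.1 _ hAcl hAinv hmA hmem
  have hmin : MinSet (orb (e (π z), m₁)) := KC.minSet_of_Mn hMn
  have hset : ∀ x : X, {w | (w, e x) ∈ gr M (fun w => e (π w))} = {w | (w, x) ∈ gr M π} := by
    intro x
    ext w
    constructor
    · rintro ⟨h1, h2⟩
      exact ⟨h1, he.inj h2⟩
    · rintro ⟨h1, h2⟩
      have h3 : x = π w := h2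
      exact ⟨h1, by rw [h3]⟩
  have hQ : ∀ (x : X) (m' : PM k), (e x, m') ∈ QQ (gr M fun w => e (π w)) ↔
      (x, m') ∈ QQ (gr M π) := by
    intro x m'
    show m' {w | (w, e x) ∈ gr M (fun w => e (π w))} = 1 ↔ m' {w | (w, x) ∈ gr M π} = 1
    rw [hset x]
  refine ⟨m₁, hm₁, ⟨(hQ _ _).1 hmA'.1, fun p' hp' =>
    hmA'.2 (e p'.1, p'.2) ((hQ _ _).2 hp')⟩, ?_⟩
  exact I_KAM.min_of_inj hORB (f := fun p : X × PM k => (e p.1, p.2))
    ((he.cont.comp continuous_fst).prodMk continuous_snd)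
    (fun p q hpq => Prod.ext (he.inj (Prod.mk.inj hpq).1) (Prod.mk.inj hpq).2)
    (fun n p => Prod.ext (he.equi n p.1) rfl) hmin

end Pool.Agent.Work.MP_69fea5_lc.W3
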