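import Pool.Agent.Work.MP_69fea5_lc.W3.StmtsK

/-!
# Item [69fea5 K KAV]: averages over a dense family are dense among the barycentres
-/

set_option autoImplicit false

namespace Pool.Agent.Work.MP_69fea5_lc.W3

open MeasureTheory Topology Set Filter TopologicalSpace ProbabilityTheory
open scoped NNReal ENNReal
open Pool.Agent.Work.MP_69fea5_lc.AK
open Pool.Agent.Work.MP_69fea5_lc.HK (Cl DU Ar ArF ArR Dat Law LawC act near sc Pt oc Mn mr ext)
open Pool.Agent.Work.MP_69fea5_lc.KC (Agree)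

namespace I_KAV

theorem sum_flat {ι α : Type} (c : ι → ℕ) (t : ι → α) (g : α → ℝ) (l : List ι) :
    ((l.flatMap fun i => List.replicate (c i) (t i)).map g).sum =
      (l.map fun i => (c i : ℝ) * g (t i)).sum := by
  induction l with
  | nil => simp
  | cons a l ih =>
    rw [List.flatMap_cons, List.map_append, List.sum_append, ih]
    simp

theorem exists_list {α : Type} {n : ℕ} (hn : 0 < n) (c : Fin n → ℕ) (t : Fin n → α)
    (hc : ∀ i, 0 < c i) :
    ∃ p : α × List α, ∀ g : α → ℝ, ((p.1 :: p.2).map g).sum / ((p.2.length : ℝ) + 1) =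
        (∑ i, (c i : ℝ) * g (t i)) / ∑ i, (c i : ℝ) := by
  set l : List α := (List.finRange n).flatMap fun i => List.replicate (c i) (t i) with hl
  have hsum : ∀ g : α → ℝ, (l.map g).sum = ∑ i, (c i : ℝ) * g (t i) := by
    intro g
    rw [hl, sum_flat, Fin.sum_univ_def]
  have hlen : (l.length : ℝ) = ∑ i, (c i : ℝ) := by
    have h1 := hsum fun _ => 1
    simpa using h1
  have hne : l ≠ [] := by
    intro h
    rw [h] at hlen
    simp only [List.length_nil, Nat.cast_zero] at hlen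
    have h2 : 0 < ∑ i, (c i : ℝ) := by
      refine Finset.sum_pos (fun i _ => by exact_mod_cast hc i) ⟨⟨0, hn⟩, Finset.mem_univ _⟩
    linarith
  obtain ⟨a, b, hab⟩ := List.exists_cons_of_ne_nil hne
  refine ⟨(a, b), ?_⟩
  intro g
  rw [← hsum, ← hlen, hab]
  simp

/-- integer approximations of weights -/
theorem exists_weights {n : ℕ} (w : Fin n → ℝ≥0) (hw : ∑ i, w i = 1) :
    ∃ c : ℕ → Fin n → ℕ, (∀ N i, 0 < c N i) ∧
      ∀ i, Tendsto (fun N => (c N i : ℝ) / ∑ j, (c N j : ℝ)) atTop (𝓝 (w i)) := by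
  refine ⟨fun N i => ⌊(w i : ℝ) * (N : ℝ)⌋₊ + 1, fun N i => Nat.succ_pos _, ?_⟩
  have h1 : ∀ i, Tendsto (fun N : ℕ => ((⌊(w i : ℝ) * (N : ℝ)⌋₊ + 1 : ℕ) : ℝ) / N) atTop
      (𝓝 (w i)) := by
    intro i
    have h2 : Tendsto (fun N : ℕ => (⌊(w i : ℝ) * (N : ℝ)⌋₊ : ℝ) / N) atTop (𝓝 (w i)) :=
      (tendsto_nat_floor_mul_div_atTop (w i).2).comp tendsto_natCast_atTop_atTop
    have h3 : Tendsto (fun N : ℕ => (1 : ℝ) / N) atTop (𝓝 0) := tendsto_one_div_atTop_nhds_zero_nat
    have h4 := h2.add h3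
    rw [add_zero] at h4
    refine h4.congr fun N => ?_
    push_cast
    rw [add_div]
  have h5 : Tendsto (fun N : ℕ => ∑ j, ((⌊(w j : ℝ) * (N : ℝ)⌋₊ + 1 : ℕ) : ℝ) / N) atTop
      (𝓝 1) := by
    have h6 := tendsto_finsetSum (Finset.univ : Finset (Fin n)) fun j _ => h1 j
    have h7 : ∑ j, (w j : ℝ) = 1 := by exact_mod_cast hw
    rw [h7] at h6
    exact h6
  intro i
  have h8 := (h1 i).div h5 one_ne_zero
  rw [div_one] at h8
  refine h8.congr' ?_
  filter_upwards [eventually_gt_atTop 0] with N hN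
  have hN' : (N : ℝ) ≠ 0 := by positivity
  simp only [Pi.div_apply]
  rw [← Finset.sum_div]
  exact div_div_div_cancel_right₀ hN' _ _

theorem cont_int {O : Type} [TopologicalSpace O] [MeasurableSpace O] [CS O] {g : O → ℝ}
    (hg : Continuous g) :
    Continuous fun q : ProbabilityMeasure O => ∫ x, g x ∂(q : Measure O) := by
  have h := ProbabilityMeasure.continuous_integral_boundedContinuousFunction
    (BoundedContinuousFunction.mkOfCompact ⟨g, hg⟩)
  exact h

/-- barycentres of measures with finite support -/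
theorem fin {K O : Type} [TopologicalSpace K] [MeasurableSpace K] [CS K]
    [TopologicalSpace O] [MeasurableSpace O] [CS O] (hBRX : S_BRX)
    {f : K → ProbabilityMeasure O} (hf : Continuous f) {ι : Type} (u : ι → K) {n : ℕ}
    {x : Fin n → K} {w : Fin n → ℝ≥0} {ν : ProbabilityMeasure K} {m : ProbabilityMeasure O}
    (hx : ∀ i, x i ∈ closure (Set.range u)) (hw : ∑ i, w i = 1)
    (hν : (ν : Measure K) = ∑ i, (w i : ℝ≥0∞) • Measure.dirac (x i)) (hm : Bar ν f m) :
    m ∈ closure (Set.range fun p : ι × List ι => mxP (fun i => f (u i)) p) := by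
  obtain ⟨-, -, -, hint⟩ := hBRX K O ν f hf.measurable
  have hn : 0 < n := by
    rcases Nat.eq_zero_or_pos n with h | h
    · subst h
      simp at hw
    · exact h
  have h1 : ∀ i, ∃ t : ℕ → ι, Tendsto (fun N => u (t N)) atTop (𝓝 (x i)) := by
    intro i
    obtain ⟨y, hy, hy'⟩ := mem_closure_iff_seq_limit.1 (hx i)
    choose t ht using hy
    refine ⟨t, hy'.congr fun N => (ht N).symm⟩
  choose t ht using h1
  obtain ⟨c, hc0, hc⟩ := exists_weights w hw
  have h2 : ∀ N, ∃ p : ι × List ι,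
      ∀ g : ι → ℝ, ((p.1 :: p.2).map g).sum / ((p.2.length : ℝ) + 1) =
        (∑ i, (c N i : ℝ) * g (t i N)) / ∑ i, (c N i : ℝ) := fun N =>
    exists_list hn (c N) (fun i => t i N) (hc0 N)
  choose p hp2 using h2
  have hlim : Tendsto (fun N => mxP (fun i => f (u i)) (p N)) atTop (𝓝 m) := by
    rw [ProbabilityMeasure.tendsto_iff_forall_integral_tendsto]
    intro g
    have hg := g.continuous
    have h3 : ∫ z, g z ∂(m : Measure O) =
        ∑ i, (w i : ℝ) * ∫ z, g z ∂(f (x i) : Measure O) := by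
      rw [hint m hm g hg, hν]
      rw [integral_finsetSum_measure]
      · refine Finset.sum_congr rfl fun i _ => ?_
        rw [integral_smul_measure, integral_dirac]
        rfl
      · intro i _
        refine Integrable.smul_measure ?_ ENNReal.coe_ne_top
        exact (BoundedContinuousFunction.mkOfCompact
          ⟨_, (cont_int hg).comp hf⟩).integrable _
    rw [h3]
    have h4 : ∀ N, ∫ z, g z ∂(mxP (fun i => f (u i)) (p N) : Measure O) =
        ∑ i, ((c N i : ℝ) / ∑ j, (c N j : ℝ)) * ∫ z, g z ∂(f (u (t i N)) : Measure O) := by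
      intro N
      rw [integral_mxP _ (p N) g hg, hp2 N, Finset.sum_div]
      refine Finset.sum_congr rfl fun i _ => ?_
      ring
    simp only [h4]
    refine tendsto_finsetSum _ fun i _ => ?_
    refine (hc i).mul ?_
    exact (((cont_int hg).comp hf).tendsto _).comp (ht i)
  exact mem_closure_of_tendsto hlim (Eventually.of_forall fun N => ⟨p N, rfl⟩)

end I_KAV

open I_KAV in
theorem KAV_pf (hFSD : S_FSD) (hBRX : S_BRX) : S_KAV := by
  intro K O _ _ _ _ _ _ f hf κ m hb ι u hκ
  obtain ⟨b, hb1, hb2⟩ : ∃ b : ℕ → ProbabilityMeasure K,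
      (∀ N, ∃ (n : ℕ) (x : Fin n → K) (w : Fin n → ℝ≥0),
        (∀ i, x i ∈ closure (Set.range u)) ∧ (∑ i, w i = 1) ∧
        (b N : Measure K) = ∑ i, (w i : ℝ≥0∞) • Measure.dirac (x i)) ∧
      Tendsto b atTop (𝓝 κ) := by
    have h1 : κ ∈ closure {ν : ProbabilityMeasure K | ∃ (n : ℕ) (x : Fin n → K)
        (w : Fin n → ℝ≥0), (∀ i, x i ∈ closure (Set.range u)) ∧ (∑ i, w i = 1) ∧
        (ν : Measure K) = ∑ i, (w i : ℝ≥0∞) • Measure.dirac (x i)} := by
      rw [mem_closure_iff_nhds]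
      intro W hW
      obtain ⟨n, x, w, ν', hν', hx, hw, hνw⟩ := hFSD K (closure (Set.range u)) κ
        isClosed_closure hκ W hW
      exact ⟨ν', hν', n, x, w, hx, hw, hνw⟩
    obtain ⟨b, h2, h3⟩ := mem_closure_iff_seq_limit.1 h1
    exact ⟨b, h2, h3⟩
  have h4 : ∀ N, ∃ m', Bar (b N) f m' := fun N => (hBRX K O (b N) f hf.measurable).1
  choose m' hm' using h4
  have h5 : ∀ N, m' N ∈ closure (Set.range fun p : ι × List ι => mxP (fun i => f (u i)) p) := by
    intro N
    obtain ⟨n, x, w, hx, hw, hν⟩ := hb1 N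
    exact fin hBRX hf u hx hw hν (hm' N)
  have h6 : Tendsto m' atTop (𝓝 m) := by
    rw [ProbabilityMeasure.tendsto_iff_forall_integral_tendsto]
    intro g
    have hg := g.continuous
    have h7 : ∀ N, ∫ z, g z ∂(m' N : Measure O) =
        ∫ q, ∫ z, g z ∂(f q : Measure O) ∂(b N : Measure K) := fun N =>
      (hBRX K O (b N) f hf.measurable).2.2.2 (m' N) (hm' N) g hg
    have h8 : ∫ z, g z ∂(m : Measure O) =
        ∫ q, ∫ z, g z ∂(f q : Measure O) ∂(κ : Measure K) :=
      (hBRX K O κ f hf.measurable).2.2.2 m hb g hg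
    simp only [h7]
    rw [h8]
    have h9 := ((cont_int (O := K) ((cont_int hg).comp hf)).tendsto κ).comp hb2
    exact h9
  have h10 := mem_closure_of_tendsto h6 (Eventually.of_forall h5)
  rwa [closure_closure] at h10

end Pool.Agent.Work.MP_69fea5_lc.W3
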