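import Pool.Agent.Work.MP_69fea5_lc.W3.StmtsK
import Pool.Agent.Work.MP_69fea5_lc.AK.I_ORB

/-!
# Block [69fea5 K], item KCP: coded points of a coded level
-/

set_option autoImplicit false

namespace Pool.Agent.Work.MP_69fea5_lc.W3

open MeasureTheory Topology Set Filter TopologicalSpace ProbabilityTheory
open scoped NNReal ENNReal
open Pool.Agent.Work.MP_69fea5_lc.AK
open Pool.Agent.Work.MP_69fea5_lc.HK (Cl DU Ar ArF ArR Dat Law LawC act near sc Pt oc Mn mr ext)
open Pool.Agent.Work.MP_69fea5_lc.KC (Agree)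

theorem KCP_pf : S_KCP := by
  intro S U hS hU k M w₀ X _ _ _ _ π I _ h r ρ H
  have hM : orb w₀ = M := AK.I_ORB.orb_eq w₀ M H.po.min H.mem
  refine ⟨fun x y => ?_, ⟨H.cont h le_rfl, fun x y hxy => H.tow.top x y hxy,
    H.equi h le_rfl⟩, fun z hz hpz l hl => ?_⟩
  · obtain ⟨w, hw, hwx⟩ := H.po.onto x
    obtain ⟨w', hw', hwy⟩ := H.po.onto y
    have hL : M ∩ π ⁻¹' (orb x) = M := by
      refine H.po.min.min _ (H.po.cont.preimage_isClosed_of_isClosed H.po.min.closed
        (AK.I_ORB.closed_orb x)) ⟨w, hw, ?_⟩ (fun n v hv => ⟨H.po.min.inv n v hv.1, ?_⟩)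
        inter_subset_left
      · show π w ∈ orb x
        rw [hwx]
        exact AK.I_ORB.mem_orb x
      · show π (sh n v) ∈ orb x
        rw [H.po.equi v hv.1 n]
        exact AK.I_ORB.inv_orb x n _ hv.2
    rw [← hL] at hw'
    have h1 : π w' ∈ orb x := hw'.2
    rwa [hwy] at h1
  · have hoc : oc w₀ = M := by rw [KC.oc_eq, hM]
    refine pt_map (α := Om k) (β := Cube I) hS hU (w := w₀) (f := fun w => r l (π w)) ?_ ?_
      H.ptw (H.pt l hl) hpz ?_
    · rw [hoc]
      exact (H.cont l hl).comp_continuousOn H.po.cont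
    · intro n
      rw [Agree.eq, Agree.eq, H.po.equi w₀ H.mem n, H.equi l hl n]
    · rw [hoc]
      exact hz

end Pool.Agent.Work.MP_69fea5_lc.W3
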