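import Pool.Agent.Work.MP_69fea5_lc.W3.StmtsK

/-! # Block [69fea5 K], item [KCT]: the measures of a coded level. -/

set_option autoImplicit false

namespace Pool.Agent.Work.MP_69fea5_lc.W3

open MeasureTheory Topology Set Filter TopologicalSpace ProbabilityTheory
open scoped NNReal ENNReal
open Pool.Agent.Work.MP_69fea5_lc.AK
open Pool.Agent.Work.MP_69fea5_lc.HK (Cl DU Ar ArF ArR Dat Law LawC act near sc Pt oc Mn mr ext)
open Pool.Agent.Work.MP_69fea5_lc.KC (Agree)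

namespace I_KCT

theorem sb_of_CS (Z : Type) [TopologicalSpace Z] [MeasurableSpace Z] [CS Z] :
    StandardBorelSpace Z := by
  let _ : MetricSpace Z := TopologicalSpace.metrizableSpaceMetric Z
  have : PolishSpace Z := inferInstance
  infer_instance

end I_KCT

theorem KCT_pf (hKCP : S_KCP) (hXIT : W3D.S_XIT) (hKQC : S_KQC) (hKAM : S_KAM) (hLAA : S_LAA)
    (hLTH : S_LTH) (hKTX : S_KTX) : S_KCT := by
  intro S U hCl hDU k M w₀ X _ _ _ _ π I _ h r ρ hCLv z hz hptz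
  obtain ⟨hdense, hEmb, hpt⟩ := hKCP S U hCl hDU k M w₀ X π I h r ρ hCLv
  have : Nonempty X := ⟨π z⟩
  obtain ⟨lam, P, K, hXI, hXF⟩ := hXIT X h (fun l x y => r l x = r l y) ρ hdense hCLv.tow
  have hptx : ∀ l ≤ h, Pt S (r l (π z)) := fun l hl => hpt z hz hptz l hl
  obtain ⟨hPm, hPmK⟩ := hKQC S U hCl hDU X I h r ρ hdense hCLv.tow
    (fun l hl => ⟨hCLv.cont l hl, hCLv.equi l hl⟩) (π z) hptx lam P K hXI hXF
  obtain ⟨m₁, hptm, hAA, hmin⟩ := hKAM S U hCl hDU k M X π I (r h) hCLv.po hEmb z hz hptz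
    (hptx h le_rfl)
  obtain ⟨hSPx, hsurj, -⟩ := hLAA k X M π (π z) m₁ hCLv.po hAA hmin
  let lam' : ProbabilityMeasure X := ⟨lam, hXI.prob⟩
  have hinv : ∀ m : ℤ, sh m lam' = lam' := by
    intro m
    apply Subtype.ext
    exact hXI.inv m
  have hθ₀ := hLTH k X (orb (π z, m₁)) lam' hSPx hsurj hinv
  obtain ⟨θ, h1, h2, h3, h4⟩ := hKTX S U hCl hDU k X I (r h) (π z) m₁ lam' hEmb (hptx h le_rfl)
    hptm hPm hθ₀
  have : StandardBorelSpace (PM k) := I_KCT.sb_of_CS (PM k)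
  have : Nonempty (PM k) := ⟨m₁⟩
  refine ⟨lam', P, K, m₁, θ, (θ : Measure (X × PM k)).condKernel, hXI, hPm, hPmK, hptm, hAA, hmin,
    inferInstance, h1, h2, ?_, h4⟩
  have h5 : (θ : Measure (X × PM k)).fst = (lam' : Measure X) := h3
  rw [← h5]
  exact ((θ : Measure (X × PM k)).disintegrate _).symm

end Pool.Agent.Work.MP_69fea5_lc.W3
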