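import Pool.Agent.Work.MP_69fea5_lc.W3.DefsK

/-!
# Wave 3, coding: signed coded reals, polynomials in test functions, limits, images of measures
-/

set_option autoImplicit false
set_option linter.unusedSectionVars false
set_option linter.unusedVariables false
set_option linter.deprecated false

open Filter Topology MeasureTheory
open scoped ENNReal

namespace Pool.Agent.Work.MP_69fea5_lc.W3

open Pool.Agent.Work.MP_69fea5_lc
open Pool.Agent.Work.MP_69fea5_lc.HK (Cl DU Ar ArF ArR Dat Law LawC act near sc Pt oc Mn mr)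
open Pool.Agent.Work.MP_69fea5_lc.KC (Agree oc_eq minSet_of_Mn)

/-! ### Signed coded reals -/

section arz

variable {S : Set (Set ℕ)} {β κ ι : Type} [Primcodable β] [Primcodable κ]

/-- differences of coded nonnegative functions -/
def ArZ (S : Set (Set ℕ)) {β : Type} [Primcodable β] (f : β → ℝ) : Prop :=
  ∃ g h : β → ℝ, ArR S g ∧ ArR S h ∧ (∀ b, 0 ≤ g b) ∧ (∀ b, 0 ≤ h b) ∧ ∀ b, f b = g b - h b

theorem ArZ.congr {f f' : β → ℝ} (h : ArZ S f) (e : ∀ b, f' b = f b) : ArZ S f' := by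
  obtain ⟨g, k, h1, h2, h3, h4, h5⟩ := h
  exact ⟨g, k, h1, h2, h3, h4, fun b => (e b).trans (h5 b)⟩

theorem ArZ.of (hS : Cl S) {f : β → ℝ} (h : ArR S f) (h0 : ∀ b, 0 ≤ f b) : ArZ S f :=
  ⟨f, fun _ => 0, h, HK.ArR.zero hS, h0, fun _ => le_rfl, fun b => (sub_zero _).symm⟩

theorem ArZ.comp (hS : Cl S) {f : β → ℝ} (h : ArZ S f) {u : κ → β} (hu : ArF S u) :
    ArZ S fun x => f (u x) := by
  obtain ⟨g, k, h1, h2, h3, h4, h5⟩ := h
  exact ⟨fun x => g (u x), fun x => k (u x), HK.ArR.sub hS h1 hu, HK.ArR.sub hS h2 hu,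
    fun _ => h3 _, fun _ => h4 _, fun _ => h5 _⟩

theorem ArZ.neg {f : β → ℝ} (h : ArZ S f) : ArZ S fun b => - f b := by
  obtain ⟨g, k, h1, h2, h3, h4, h5⟩ := h
  exact ⟨k, g, h2, h1, h4, h3, fun b => by show - f b = _; rw [h5]; ring⟩

theorem ArZ.add (hS : Cl S) {f f' : β → ℝ} (h : ArZ S f) (h' : ArZ S f') :
    ArZ S fun b => f b + f' b := by
  obtain ⟨g, k, h1, h2, h3, h4, h5⟩ := h
  obtain ⟨g', k', h1', h2', h3', h4', h5'⟩ := h'
  exact ⟨fun b => g b + g' b, fun b => k b + k' b, HK.ArR.add hS h1 h1' h3 h3',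
    HK.ArR.add hS h2 h2' h4 h4', fun b => add_nonneg (h3 b) (h3' b),
    fun b => add_nonneg (h4 b) (h4' b), fun b => by
      show f b + f' b = (g b + g' b) - (k b + k' b)
      rw [h5, h5']; ring⟩

theorem ArZ.sub (hS : Cl S) {f f' : β → ℝ} (h : ArZ S f) (h' : ArZ S f') :
    ArZ S fun b => f b - f' b :=
  (h.add hS h'.neg).congr fun b => sub_eq_add_neg _ _

theorem ArZ.mul (hS : Cl S) {f f' : β → ℝ} (h : ArZ S f) (h' : ArZ S f') :
    ArZ S fun b => f b * f' b := by
  obtain ⟨g, k, h1, h2, h3, h4, h5⟩ := h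
  obtain ⟨g', k', h1', h2', h3', h4', h5'⟩ := h'
  refine ⟨fun b => g b * g' b + k b * k' b, fun b => g b * k' b + k b * g' b, ?_, ?_, ?_, ?_, ?_⟩
  · exact HK.ArR.add hS (HK.ArR.mul hS h1 h1' h3 h3') (HK.ArR.mul hS h2 h2' h4 h4')
      (fun b => mul_nonneg (h3 b) (h3' b)) fun b => mul_nonneg (h4 b) (h4' b)
  · exact HK.ArR.add hS (HK.ArR.mul hS h1 h2' h3 h4') (HK.ArR.mul hS h2 h1' h4 h3')
      (fun b => mul_nonneg (h3 b) (h4' b)) fun b => mul_nonneg (h4 b) (h3' b)
  · exact fun b => add_nonneg (mul_nonneg (h3 b) (h3' b)) (mul_nonneg (h4 b) (h4' b))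
  · exact fun b => add_nonneg (mul_nonneg (h3 b) (h4' b)) (mul_nonneg (h4 b) (h3' b))
  · intro b
    show f b * f' b = (g b * g' b + k b * k' b) - (g b * k' b + k b * g' b)
    rw [h5, h5']
    ring

/-- rational coefficients `(a - b) / (q + 1)` -/
theorem ArZ.rat (hS : Cl S) {u : β → ℕ × ℕ × ℕ} (hu : ArF S u) :
    ArZ S fun b => (((u b).1 : ℝ) - (u b).2.1) / ((u b).2.2 + 1) := by
  have h1 : ArF S fun b => (u b).1 := ArF.map hS Primrec.fst hu
  have h2 : ArF S fun b => (u b).2.1 := ArF.map hS (Primrec.fst.comp Primrec.snd) hu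
  have h3 : ArF S fun b => (u b).2.2 := ArF.map hS (Primrec.snd.comp Primrec.snd) hu
  refine ⟨fun b => ((u b).1 : ℝ) / ((u b).2.2 + 1), fun b => ((u b).2.1 : ℝ) / ((u b).2.2 + 1),
    HK.ArR.rat hS h1 h3, HK.ArR.rat hS h2 h3, fun b => by positivity, fun b => by positivity,
    fun b => sub_div _ _ _⟩

theorem ArZ.const_nat (hS : Cl S) (n : ℕ) : ArZ S fun _ : β => (n : ℝ) :=
  ArZ.of hS (HK.ArR.nat hS (ArF.const hS n)) fun _ => Nat.cast_nonneg n

theorem ArZ.lt (hS : Cl S) {f f' : β → ℝ} (h : ArZ S f) (h' : ArZ S f') :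
    Ar S fun b => f b < f' b := by
  obtain ⟨g, k, h1, h2, h3, h4, h5⟩ := h
  obtain ⟨g', k', h1', h2', h3', h4', h5'⟩ := h'
  refine (HK.ArR.rlt hS (HK.ArR.add hS h1 h2' h3 h4') (HK.ArR.add hS h1' h2 h3' h4)
    fun b => add_nonneg (h3 b) (h4' b)).congr fun b => ?_
  rw [h5, h5']
  constructor <;> intro h <;> linarith

theorem ArZ.le (hS : Cl S) {f f' : β → ℝ} (h : ArZ S f) (h' : ArZ S f') :
    Ar S fun b => f b ≤ f' b :=
  (Ar.not hS (ArZ.lt hS h' h)).congr fun _ => not_lt.symm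

theorem ArZ.pos (hS : Cl S) {f : β → ℝ} (h : ArZ S f) : ArR S fun b => max (f b) 0 := by
  obtain ⟨g, k, h1, h2, h3, h4, h5⟩ := h
  exact (HK.ArR.tsub hS h1 h2 h3 h4).congr fun b => by rw [h5]

theorem ArZ.nn (hS : Cl S) {f : β → ℝ} (h : ArZ S f) (h0 : ∀ b, 0 ≤ f b) : ArR S f :=
  (h.pos hS).congr fun b => (max_eq_left (h0 b)).symm

theorem ArZ.sumList (hS : Cl S) {f : β → κ → ℝ} (h : ArZ S fun p : β × κ => f p.1 p.2) :
    ArZ S fun p : β × List κ => (p.2.map (f p.1)).sum := by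
  obtain ⟨g, k, h1, h2, h3, h4, h5⟩ := h
  refine ⟨fun p => (p.2.map fun x => g (p.1, x)).sum, fun p => (p.2.map fun x => k (p.1, x)).sum,
    arR_sumList hS (g := fun b x => g (b, x)) h1 fun _ _ => h3 _,
    arR_sumList hS (g := fun b x => k (b, x)) h2 fun _ _ => h4 _, ?_, ?_, ?_⟩
  · exact fun p => List.sum_nonneg fun y hy => by
      obtain ⟨x, -, rfl⟩ := List.mem_map.1 hy
      exact h3 _
  · exact fun p => List.sum_nonneg fun y hy => by
      obtain ⟨x, -, rfl⟩ := List.mem_map.1 hy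
      exact h4 _
  · rintro ⟨b, l⟩
    show (l.map (f b)).sum = (l.map fun x => g (b, x)).sum - (l.map fun x => k (b, x)).sum
    induction l with
    | nil => simp
    | cons a l ih =>
      simp only [List.map_cons, List.sum_cons, ih]
      rw [show f b a = g (b, a) - k (b, a) from h5 (b, a)]
      ring

/-- limits of signed coded reals along the ultrafilter -/
theorem arR_lim {U : Ultrafilter ℕ} (hS : Cl S) (hU : DU S U) {f : β × ℕ → ℝ} (h : ArZ S f)
    {g : β → ℝ} (g0 : ∀ b, 0 ≤ g b)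
    (hg : ∀ b, Tendsto (fun L => f (b, L)) (U : Filter ℕ) (𝓝 (g b))) : ArR S g := by
  refine HK.ArR.lim hS hU (f := fun b L => max (f (b, L)) 0) (h.pos hS)
    (fun b L => le_max_right _ _) fun b => ?_
  have h1 := (hg b).max (tendsto_const_nhds (x := (0 : ℝ)))
  rwa [max_eq_left (g0 b)] at h1

theorem arR_lim_atTop {U : Ultrafilter ℕ} (hS : Cl S) (hU : DU S U) {f : β × ℕ → ℝ}
    (h : ArZ S f) {g : β → ℝ} (g0 : ∀ b, 0 ≤ g b)
    (hg : ∀ b, Tendsto (fun L => f (b, L)) atTop (𝓝 (g b))) : ArR S g :=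
  arR_lim hS hU h g0 fun b => (hg b).mono_left hU.top

end arz

/-! ### Polynomials in test functions -/

section pol

variable {V : Type} [TopologicalSpace V] [Dat V] [TF V] {S : Set (Set ℕ)}

/-- the coefficient of a term -/
noncomputable def cf (a : ℕ × ℕ × ℕ) : ℝ := ((a.1 : ℝ) - a.2.1) / (a.2.2 + 1)

theorem pev_nil (x : V) : pev ([] : Pcd V) x = 0 := by simp [pev]

theorem pev_cons (t : (ℕ × ℕ × ℕ) × TF.ι V) (c : Pcd V) (x : V) :
    pev (t :: c) x = cf t.1 * TF.fn t.2 x + pev c x := by simp [pev, cf]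

theorem pev_append (c d : Pcd V) (x : V) : pev (c ++ d) x = pev c x + pev d x := by
  simp [pev, List.map_append, List.sum_append]

theorem continuous_pev (c : Pcd V) : Continuous (pev c : V → ℝ) := by
  induction c with
  | nil =>
    have : (pev ([] : Pcd V) : V → ℝ) = fun _ => 0 := funext fun x => pev_nil x
    rw [this]
    exact continuous_const
  | cons t c ih =>
    have : (pev (t :: c) : V → ℝ) = fun x => cf t.1 * TF.fn t.2 x + pev c x :=
      funext fun x => pev_cons t c x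
    rw [this]
    exact (continuous_const.mul (TF.cont _)).add ih

/-- product of coefficients -/
def cmul (a b : ℕ × ℕ × ℕ) : ℕ × ℕ × ℕ :=
  (a.1 * b.1 + a.2.1 * b.2.1, a.1 * b.2.1 + a.2.1 * b.1,
    (a.2.2 + 1) * (b.2.2 + 1) - 1)

theorem cf_cmul (a b : ℕ × ℕ × ℕ) : cf (cmul a b) = cf a * cf b := by
  unfold cf cmul
  have h : (((a.2.2 + 1) * (b.2.2 + 1) - 1 : ℕ) : ℝ) + 1 =
      ((a.2.2 : ℝ) + 1) * ((b.2.2 : ℝ) + 1) := by
    have : 1 ≤ (a.2.2 + 1) * (b.2.2 + 1) := Nat.one_le_iff_ne_zero.2 (by positivity)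
    rw [Nat.cast_sub this]
    push_cast
    ring
  simp only [h]
  push_cast
  field_simp
  ring

theorem prim_cmul : Primrec₂ cmul := by
  have a1 : Primrec fun p : (ℕ × ℕ × ℕ) × (ℕ × ℕ × ℕ) => p.1.1 := Primrec.fst.comp Primrec.fst
  have a2 : Primrec fun p : (ℕ × ℕ × ℕ) × (ℕ × ℕ × ℕ) => p.1.2.1 :=
    Primrec.fst.comp (Primrec.snd.comp Primrec.fst)
  have a3 : Primrec fun p : (ℕ × ℕ × ℕ) × (ℕ × ℕ × ℕ) => p.1.2.2 :=
    Primrec.snd.comp (Primrec.snd.comp Primrec.fst)
  have b1 : Primrec fun p : (ℕ × ℕ × ℕ) × (ℕ × ℕ × ℕ) => p.2.1 := Primrec.fst.comp Primrec.snd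
  have b2 : Primrec fun p : (ℕ × ℕ × ℕ) × (ℕ × ℕ × ℕ) => p.2.2.1 :=
    Primrec.fst.comp (Primrec.snd.comp Primrec.snd)
  have b3 : Primrec fun p : (ℕ × ℕ × ℕ) × (ℕ × ℕ × ℕ) => p.2.2.2 :=
    Primrec.snd.comp (Primrec.snd.comp Primrec.snd)
  exact (Primrec.nat_add.comp (Primrec.nat_mul.comp a1 b1) (Primrec.nat_mul.comp a2 b2)).pair
    ((Primrec.nat_add.comp (Primrec.nat_mul.comp a1 b2) (Primrec.nat_mul.comp a2 b1)).pair
      (Primrec.nat_sub.comp (Primrec.nat_mul.comp (Primrec.succ.comp a3) (Primrec.succ.comp b3))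
        (Primrec.const 1)))

/-- product with a term -/
def tmul (t : (ℕ × ℕ × ℕ) × TF.ι V) (d : Pcd V) : Pcd V :=
  d.map fun s => (cmul t.1 s.1, TF.mul t.2 s.2)

theorem pev_tmul (t : (ℕ × ℕ × ℕ) × TF.ι V) (d : Pcd V) (x : V) :
    pev (tmul t d) x = cf t.1 * TF.fn t.2 x * pev d x := by
  unfold tmul
  induction d with
  | nil => simp [pev_nil]
  | cons s d ih =>
    rw [List.map_cons, pev_cons, ih, pev_cons, cf_cmul, TF.fn_mul]
    ring

theorem prim_tmul : Primrec₂ (tmul : (ℕ × ℕ × ℕ) × TF.ι V → Pcd V → Pcd V) :=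
  Primrec.list_map Primrec.snd
    ((prim_cmul.comp (Primrec.fst.comp (Primrec.fst.comp Primrec.fst))
      (Primrec.fst.comp Primrec.snd)).pair
      (TF.mul_prim.comp (Primrec.snd.comp (Primrec.fst.comp Primrec.fst))
        (Primrec.snd.comp Primrec.snd))).to₂

/-- product of polynomials -/
def pmul (c d : Pcd V) : Pcd V := c.flatMap fun t => tmul t d

theorem pev_pmul (c d : Pcd V) (x : V) : pev (pmul c d) x = pev c x * pev d x := by
  unfold pmul
  induction c with
  | nil => simp [pev_nil]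
  | cons t c ih =>
    rw [List.flatMap_cons, pev_append, pev_tmul, ih, pev_cons]
    ring

theorem prim_pmul : Primrec₂ (pmul : Pcd V → Pcd V → Pcd V) :=
  Primrec.list_flatMap Primrec.fst
    (prim_tmul.comp Primrec.snd (Primrec.snd.comp Primrec.fst)).to₂

/-- values of polynomials at coded families of points -/
theorem arZ_pev (hS : Cl S) {β : Type} [Primcodable β] {w : β → V} (hw : sc S w) :
    ArZ S fun p : β × Pcd V => pev p.2 (w p.1) := by
  rw [TF.sc_iff S hS] at hw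
  refine (ArZ.sumList hS (f := fun (b : β) (t : (ℕ × ℕ × ℕ) × TF.ι V) =>
    ((t.1.1 : ℝ) - t.1.2.1) / (t.1.2.2 + 1) * TF.fn t.2 (w b)) ?_)
  refine ArZ.mul hS ?_ ?_
  · exact ArZ.rat hS (u := fun p : β × ((ℕ × ℕ × ℕ) × TF.ι V) => p.2.1)
      (ArF.of_primrec hS (Primrec.fst.comp Primrec.snd))
  · exact ArZ.of hS (HK.ArR.comp hS hw (g := fun p : β × ((ℕ × ℕ × ℕ) × TF.ι V) =>
      (p.1, p.2.2)) (Primrec.fst.pair (Primrec.snd.comp Primrec.snd))) fun p => TF.nn _ _

variable [MeasurableSpace V] [CS V]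

/-- integrals of polynomials -/
theorem integral_pev (m : ProbabilityMeasure V) (c : Pcd V) :
    ∫ x, pev c x ∂(m : Measure V) = (c.map fun t => cf t.1 * mo m t.2).sum := by
  induction c with
  | nil => simp [pev_nil]
  | cons t c ih =>
    simp only [pev_cons, List.map_cons, List.sum_cons]
    rw [integral_add, ih, integral_const_mul]
    · rfl
    · exact (integrable_fn m t.2).const_mul _
    · exact (BoundedContinuousFunction.mkOfCompact ⟨pev c, continuous_pev c⟩).integrable _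

theorem arZ_pint (hS : Cl S) [Dat (ProbabilityMeasure V)] [CP V] {β : Type} [Primcodable β]
    {m : β → ProbabilityMeasure V} (hm : sc S m) :
    ArZ S fun p : β × Pcd V => ∫ x, pev p.2 x ∂(m p.1 : Measure V) := by
  rw [CP.sc_iff S hS] at hm
  refine (ArZ.sumList hS (f := fun (b : β) (t : (ℕ × ℕ × ℕ) × TF.ι V) =>
    cf t.1 * mo (m b) t.2) ?_).congr fun p => integral_pev _ _
  refine ArZ.mul hS ?_ ?_
  · exact ArZ.rat hS (u := fun p : β × ((ℕ × ℕ × ℕ) × TF.ι V) => p.2.1)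
      (ArF.of_primrec hS (Primrec.fst.comp Primrec.snd))
  · exact ArZ.of hS (HK.ArR.comp hS hm (g := fun p : β × ((ℕ × ℕ × ℕ) × TF.ι V) =>
      (p.1, p.2.2)) (Primrec.fst.pair (Primrec.snd.comp Primrec.snd))) fun p => mo_nn _ _

end pol

/-! ### Maps which act on the test functions -/

section tmap

variable {V V' V'' : Type} [TopologicalSpace V] [Dat V] [TF V] [TopologicalSpace V'] [Dat V']
  [TF V'] [TopologicalSpace V''] [Dat V''] [TF V''] {S : Set (Set ℕ)}

/-- `f` is continuous and transports the test functions by `τ` -/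
structure TMap (f : V → V') (τ : TF.ι V' → TF.ι V) : Prop where
  prim : Primrec τ
  cont : Continuous f
  eq : ∀ i x, TF.fn i (f x) = TF.fn (τ i) x

theorem tmap_id : TMap (fun x : V => x) (fun i => i) := ⟨Primrec.id, continuous_id, fun _ _ => rfl⟩

theorem TMap.comp {f : V → V'} {τ : TF.ι V' → TF.ι V} (h : TMap f τ) {g : V' → V''}
    {υ : TF.ι V'' → TF.ι V'} (h' : TMap g υ) : TMap (fun x => g (f x)) (fun i => τ (υ i)) :=
  ⟨h.prim.comp h'.prim, h'.cont.comp h.cont, fun i x => by rw [h'.eq, h.eq]⟩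

theorem tmap_fst : TMap (fun p : V × V' => p.1) (fun i => (i, TF.one)) :=
  ⟨Primrec.id.pair (Primrec.const _), continuous_fst, fun i x => by
    show TF.fn i x.1 = TF.fn i x.1 * TF.fn TF.one x.2
    rw [TF.fn_one, mul_one]⟩

theorem tmap_snd : TMap (fun p : V × V' => p.2) (fun i => (TF.one, i)) :=
  ⟨(Primrec.const _).pair Primrec.id, continuous_snd, fun i x => by
    show TF.fn i x.2 = TF.fn TF.one x.1 * TF.fn i x.2
    rw [TF.fn_one, one_mul]⟩

theorem TMap.prod {W : Type} [TopologicalSpace W] [Dat W] [TF W] {f : W → V}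
    {τ : TF.ι V → TF.ι W} (h : TMap f τ) {g : W → V'} {υ : TF.ι V' → TF.ι W} (h' : TMap g υ) :
    TMap (fun x => (f x, g x)) (fun i : TF.ι V × TF.ι V' => TF.mul (τ i.1) (υ i.2)) :=
  ⟨TF.mul_prim.comp (h.prim.comp Primrec.fst) (h'.prim.comp Primrec.snd),
    h.cont.prodMk h'.cont, fun i x => by
      have h1 : TF.fn i (f x, g x) = TF.fn i.1 (f x) * TF.fn i.2 (g x) := rfl
      rw [h1, TF.fn_mul, h.eq, h'.eq]⟩

/-- a coordinate -/
theorem tmap_eval {κ : Type} [Primcodable κ] (i : κ) :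
    TMap (fun z : κ → V => z i) (fun t => [(i, t)]) :=
  ⟨Primrec.list_cons.comp ((Primrec.const i).pair Primrec.id) (Primrec.const []),
    continuous_apply i, fun t z => by
      show TF.fn t (z i) = (List.map (fun p : κ × TF.ι V => TF.fn p.2 (z p.1)) [(i, t)]).prod
      simp⟩

/-- change of the index set -/
theorem tmap_reindex {κ κ' : Type} [Primcodable κ] [Primcodable κ'] {g : κ' → κ}
    (hg : Primrec g) : TMap (fun (z : κ → V) (i : κ') => z (g i))
      (fun l : List (κ' × TF.ι V) => (l.map fun p => (g p.1, p.2) : List (κ × TF.ι V))) :=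
  ⟨Primrec.list_map Primrec.id (((hg.comp (Primrec.fst.comp Primrec.snd)).pair
      (Primrec.snd.comp Primrec.snd))).to₂,
    continuous_pi fun i => continuous_apply (g i), fun l z => by
      show (List.map (fun p : κ' × TF.ι V => TF.fn p.2 (z (g p.1))) l).prod =
        (List.map (fun p : κ × TF.ι V => TF.fn p.2 (z p.1))
          (l.map fun p : κ' × TF.ι V => (g p.1, p.2))).prod
      rw [List.map_map]
      rfl⟩

theorem TMap.sc (hS : Cl S) {f : V → V'} {τ : TF.ι V' → TF.ι V} (h : TMap f τ) {β : Type}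
    [Primcodable β] {w : β → V} (hw : sc S w) : HK.sc S fun b => f (w b) := by
  rw [TF.sc_iff S hS] at hw ⊢
  exact (HK.ArR.comp hS hw (g := fun p : β × TF.ι V' => (p.1, τ p.2))
    (Primrec.fst.pair (h.prim.comp Primrec.snd))).congr fun p => h.eq _ _

variable [MeasurableSpace V] [CS V] [MeasurableSpace V'] [CS V']

theorem TMap.mo {f : V → V'} {τ : TF.ι V' → TF.ι V} (h : TMap f τ) (m : ProbabilityMeasure V)
    (i : TF.ι V') : W3.mo (m.map (f := f) h.cont.measurable.aemeasurable) i = W3.mo m (τ i) := by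
  unfold W3.mo
  rw [ProbabilityMeasure.toMeasure_map, integral_map h.cont.measurable.aemeasurable
    (TF.cont i).aestronglyMeasurable]
  simp only [h.eq]

theorem TMap.sc_map (hS : Cl S) {f : V → V'} {τ : TF.ι V' → TF.ι V} (h : TMap f τ)
    [Dat (ProbabilityMeasure V)] [CP V] [Dat (ProbabilityMeasure V')] [CP V'] {β : Type}
    [Primcodable β] {m : β → ProbabilityMeasure V} (hm : HK.sc S m) :
    HK.sc S fun b => (m b).map (f := f) h.cont.measurable.aemeasurable := by
  rw [CP.sc_iff S hS] at hm ⊢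
  exact (HK.ArR.comp hS hm (g := fun p : β × TF.ι V' => (p.1, τ p.2))
    (Primrec.fst.pair (h.prim.comp Primrec.snd))).congr fun p => h.mo _ _

/-- images of coded measures -/
theorem pm_tmap (hS : Cl S) {f : V → V'} {τ : TF.ι V' → TF.ι V} (h : TMap f τ)
    [Dat (ProbabilityMeasure V)] [CP V] [Dat (ProbabilityMeasure V')] [CP V'] {α : Type}
    [MeasurableSpace α] {e : α → V} (he : Measurable e) {μ : Measure α} (hμ : Pm S e μ) :
    Pm S (fun x => f (e x)) μ := by
  obtain ⟨ν, h1, h2⟩ := hμ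
  refine ⟨ν.map (f := f) h.cont.measurable.aemeasurable, ?_, h.sc_map hS h2⟩
  rw [ProbabilityMeasure.toMeasure_map, h1, Measure.map_map h.cont.measurable he]
  rfl

/-- `Pm` of an image -/
theorem pm_map {α β V : Type} [MeasurableSpace α] [MeasurableSpace β] [TopologicalSpace V]
    [MeasurableSpace V] [Dat (ProbabilityMeasure V)] {f : β → V} {g : α → β} (hf : Measurable f)
    (hg : Measurable g) {μ : Measure α} : Pm S f (μ.map g) ↔ Pm S (fun x => f (g x)) μ := by
  unfold Pm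
  rw [Measure.map_map hf hg]
  rfl

end tmap

/-! ### Polynomials on products -/

section pp

variable {V : Type} [TopologicalSpace V] [Dat V] [TF V] {S : Set (Set ℕ)}

/-- transport of polynomials -/
def ptr {V' : Type} [TopologicalSpace V'] [Dat V'] [TF V'] (τ : TF.ι V' → TF.ι V)
    (c : Pcd V') : Pcd V := c.map fun t => (t.1, τ t.2)

theorem pev_ptr {V' : Type} [TopologicalSpace V'] [Dat V'] [TF V'] {f : V → V'}
    {τ : TF.ι V' → TF.ι V} (h : TMap f τ) (c : Pcd V') (x : V) :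
    pev (ptr τ c) x = pev c (f x) := by
  unfold ptr
  induction c with
  | nil => simp [pev_nil]
  | cons t c ih => rw [List.map_cons, pev_cons, ih, pev_cons, h.eq]

theorem prim_ptr {V' : Type} [TopologicalSpace V'] [Dat V'] [TF V'] {τ : TF.ι V' → TF.ι V}
    (h : Primrec τ) : Primrec (ptr τ : Pcd V' → Pcd V) :=
  Primrec.list_map Primrec.id ((Primrec.fst.comp Primrec.snd).pair
    (h.comp (Primrec.snd.comp Primrec.snd))).to₂

/-- the polynomial `1` -/
def p1 : Pcd V := [((1, 0, 0), TF.one)]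

theorem pev_p1 (x : V) : pev (p1 : Pcd V) x = 1 := by
  unfold p1
  rw [pev_cons, pev_nil, TF.fn_one]
  simp [cf]

/-- products over a finite index set -/
theorem exists_pprod (hS : Cl S) {ι β : Type} [Primcodable ι] [Fintype ι] [Primcodable β]
    (c : ι → β → Pcd V) (hc : ∀ i, ArF S (c i)) :
    ∃ d : β → Pcd (ι → V), ArF S d ∧ ∀ b z, pev (d b) z = ∏ i, pev (c i b) (z i) := by
  classical
  suffices h : ∀ s : Finset ι, ∃ d : β → Pcd (ι → V), ArF S d ∧
      ∀ b z, pev (d b) z = ∏ i ∈ s, pev (c i b) (z i) from h Finset.univ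
  intro s
  induction s using Finset.induction_on with
  | empty => exact ⟨fun _ => p1, ArF.const hS _, fun b z => by rw [pev_p1]; simp⟩
  | insert i s hi ih =>
    obtain ⟨d, hd, hd'⟩ := ih
    refine ⟨fun b => pmul (ptr (fun t : TF.ι V => ([(i, t)] : List (ι × TF.ι V))) (c i b)) (d b),
      ?_, fun b z => ?_⟩
    · refine ArF.map₂ hS (prim_pmul (V := ι → V)) ?_ hd
      exact ArF.map hS (prim_ptr (V := ι → V) (V' := V) (tmap_eval (V := V) i).prim) (hc i)
    · rw [pev_pmul, hd', pev_ptr (tmap_eval (V := V) i), Finset.prod_insert hi]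

/-- product of a polynomial with the mass of a cylinder -/
theorem pev_mass {k : ℕ} (c : Pcd V) (P : HK.C k) (p : V × AK.PM k) :
    pev (c.map fun t => (t.1, (t.2, [P])) : Pcd (V × AK.PM k)) p =
      pev c p.1 * mr p.2 (HK.cyl P) := by
  induction c with
  | nil => simp [pev_nil]
  | cons t c ih =>
    rw [List.map_cons, pev_cons, ih, pev_cons]
    have : TF.fn ((t.2, [P]) : TF.ι V × List (HK.C k)) p = TF.fn t.2 p.1 * mr p.2 (HK.cyl P) := by
      show TF.fn t.2 p.1 * (List.map (fun P => mr p.2 (HK.cyl P)) [P]).prod = _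
      simp
    have h2 : TF.fn (α := V × AK.PM k) (t.2, [P]) p = TF.fn t.2 p.1 * mr p.2 (HK.cyl P) := this
    rw [h2]
    ring

theorem prim_mass {k : ℕ} : Primrec₂ (fun (c : Pcd V) (P : HK.C k) =>
    (c.map fun t => (t.1, (t.2, [P])) : Pcd (V × AK.PM k))) :=
  Primrec.list_map Primrec.fst (((Primrec.fst.comp Primrec.snd).pair
    ((Primrec.snd.comp Primrec.snd).pair (Primrec.list_cons.comp
      (Primrec.snd.comp Primrec.fst) (Primrec.const []))))).to₂

end pp

end Pool.Agent.Work.MP_69fea5_lc.W3
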