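import Pool.Agent.Work.MP_69fea5_lc.W3.StmtsK
import Pool.Agent.Work.MP_69fea5_lc.W3.CodL

/-!
# Item [69fea5 K KET]: the laws of chains of points are coded
-/

set_option autoImplicit false
set_option linter.unusedSectionVars false
set_option linter.unusedVariables false

namespace Pool.Agent.Work.MP_69fea5_lc.W3

open MeasureTheory Topology Set Filter TopologicalSpace ProbabilityTheory
open scoped NNReal ENNReal
open Pool.Agent.Work.MP_69fea5_lc.AK
open Pool.Agent.Work.MP_69fea5_lc.HK (Cl DU Ar ArF ArR Dat Law LawC act near sc Pt oc Mn mr ext)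
open Pool.Agent.Work.MP_69fea5_lc.KC (Agree)

namespace I_KET

section choice

variable {S : Set (Set ℕ)} {k : ℕ} {X : Type} [TopologicalSpace X] [MeasurableSpace X] [CS X]
  [Sys X] {I : Type} [Primcodable I]

/-- admissible codes -/
def Adm (e : X → Cube I) (c : Pcd (Cube I)) : Prop :=
  ∀ y, 0 ≤ pev c (e y) ∧ pev c (e y) ≤ 1

/-- the functional of `S_KPM` -/
noncomputable def JJ (e : X → Cube I) (lam : ProbabilityMeasure X)
    (θ : ProbabilityMeasure (X × PM k)) (P : HK.C k) (c : Pcd (Cube I)) : ℝ :=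
  ∫ v, pev c (e v) ^ 2 ∂(lam : Measure X) -
    2 * ∫ p, pev c (e p.1) * (p.2 : Measure (Om k)).real (HK.cyl P) ∂(θ : Measure (X × PM k))

theorem adm_iff {e : X → Cube I} {x : X} (he : Emb e) (hx : ∀ y : X, y ∈ orb x)
    (c : Pcd (Cube I)) :
    Adm e c ↔ ∀ n : ℤ, 0 ≤ pev c (act n (e x)) ∧ pev c (act n (e x)) ≤ 1 := by
  have hc : Continuous fun y => pev c (e y) := (continuous_pev c).comp he.cont
  constructor
  · intro h n
    have h1 : act n (e x) = e (sh n x) := (he.equi n x).symm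
    rw [h1]
    exact h _
  · intro h y
    have hcl : IsClosed {y : X | 0 ≤ pev c (e y) ∧ pev c (e y) ≤ 1} :=
      (isClosed_le continuous_const hc).inter (isClosed_le hc continuous_const)
    refine closure_minimal (s := Set.range fun n : ℤ => sh n x) ?_ hcl (hx y)
    rintro _ ⟨n, rfl⟩
    have h1 : e (sh n x) = act n (e x) := he.equi n x
    show 0 ≤ pev c (e (sh n x)) ∧ pev c (e (sh n x)) ≤ 1
    rw [h1]
    exact h n

theorem ar_adm (hS : Cl S) {e : X → Cube I} {x : X} (he : Emb e) (hx : ∀ y : X, y ∈ orb x)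
    (hex : Pt S (e x)) : Ar S fun c : Pcd (Cube I) => Adm e c := by
  refine Ar.congr (R := fun c : Pcd (Cube I) => ∀ n : ℤ,
    0 ≤ pev c (act n (e x)) ∧ pev c (act n (e x)) ≤ 1) ?_ fun c => adm_iff he hx c
  have hw : sc S (fun p : Unit × ℤ => act p.2 (e x)) := LawC.sc_act S Unit _ hS hex
  have h1 := arZ_pev hS hw
  have h2 : ArZ S fun p : Pcd (Cube I) × ℤ => pev p.1 (act p.2 (e x)) :=
    h1.comp hS (u := fun p : Pcd (Cube I) × ℤ => (((), p.2), p.1))
      (ArF.of_primrec hS (((Primrec.const ()).pair Primrec.snd).pair Primrec.fst))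
  refine Ar.all hS (R := fun (c : Pcd (Cube I)) (n : ℤ) =>
    0 ≤ pev c (act n (e x)) ∧ pev c (act n (e x)) ≤ 1) (Ar.and hS ?_ ?_)
  · exact (ArZ.le hS (ArZ.const_nat hS 0) h2).congr fun p => by simp
  · exact (ArZ.le hS h2 (ArZ.const_nat hS 1)).congr fun p => by simp

theorem arZ_JJ (hS : Cl S) {e : X → Cube I} (he : Continuous e) {lam : ProbabilityMeasure X}
    {θ : ProbabilityMeasure (X × PM k)} (hlam : Pm S e (lam : Measure X))
    (hθ : Pm S (fun p : X × PM k => (e p.1, p.2)) (θ : Measure (X × PM k))) :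
    ArZ S fun q : HK.C k × Pcd (Cube I) => JJ e lam θ q.1 q.2 := by
  obtain ⟨ν, hν, hνS⟩ := hlam
  obtain ⟨ω, hω, hωS⟩ := hθ
  have h1 : ArZ S fun q : HK.C k × Pcd (Cube I) =>
      ∫ v, pev (pmul q.2 q.2) v ∂(ν : Measure (Cube I)) :=
    (arZ_pint hS hνS).comp hS (u := fun q : HK.C k × Pcd (Cube I) => ((), pmul q.2 q.2))
      (ArF.of_primrec hS ((Primrec.const ()).pair (prim_pmul.comp Primrec.snd Primrec.snd)))
  have h2 : ArZ S fun q : HK.C k × Pcd (Cube I) =>
      ∫ p, pev (q.2.map fun t => (t.1, (t.2, [q.1])) : Pcd (Cube I × PM k)) p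
        ∂(ω : Measure (Cube I × PM k)) :=
    (arZ_pint hS hωS).comp hS (u := fun q : HK.C k × Pcd (Cube I) =>
      ((), (q.2.map fun t => (t.1, (t.2, [q.1])) : Pcd (Cube I × PM k))))
      (ArF.of_primrec hS ((Primrec.const ()).pair (prim_mass.comp Primrec.snd Primrec.fst)))
  refine (h1.sub hS ((ArZ.const_nat hS 2).mul hS h2)).congr fun q => ?_
  have hE : Measurable e := he.measurable
  have hE2 : Continuous fun p : X × PM k => (e p.1, p.2) :=
    (he.comp continuous_fst).prodMk continuous_snd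
  unfold JJ
  congr 1
  · rw [hν, integral_map hE.aemeasurable (continuous_pev _).aestronglyMeasurable]
    refine integral_congr_ae (Eventually.of_forall fun v => ?_)
    show pev q.2 (e v) ^ 2 = pev (pmul q.2 q.2) (e v)
    rw [pev_pmul, sq]
  · rw [hω, integral_map hE2.measurable.aemeasurable (continuous_pev _).aestronglyMeasurable]
    push_cast
    congr 1
    refine integral_congr_ae (Eventually.of_forall fun p => ?_)
    show pev q.2 (e p.1) * (p.2 : Measure (Om k)).real (HK.cyl q.1) =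
      pev (q.2.map fun t => (t.1, (t.2, [q.1])) : Pcd (Cube I × PM k)) (e p.1, p.2)
    rw [pev_mass]
    rfl

theorem JJ_ge {e : X → Cube I} {lam : ProbabilityMeasure X}
    {θ : ProbabilityMeasure (X × PM k)} (P : HK.C k) {c : Pcd (Cube I)} (hc : Adm e c) :
    -2 ≤ JJ e lam θ P c := by
  have h1 : 0 ≤ ∫ v, pev c (e v) ^ 2 ∂(lam : Measure X) := integral_nonneg fun v => sq_nonneg _
  have h2 : ∫ p, pev c (e p.1) * (p.2 : Measure (Om k)).real (HK.cyl P)
      ∂(θ : Measure (X × PM k)) ≤ ∫ _, (1 : ℝ) ∂(θ : Measure (X × PM k)) := by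
    refine integral_mono_of_nonneg (Eventually.of_forall fun p => ?_) (integrable_const _)
      (Eventually.of_forall fun p => ?_)
    · exact mul_nonneg (hc _).1 measureReal_nonneg
    · exact mul_le_one₀ (hc _).2 measureReal_nonneg measureReal_le_one
  have h3 : ∫ _, (1 : ℝ) ∂(θ : Measure (X × PM k)) = 1 := by simp
  unfold JJ
  linarith

theorem adm_nil (e : X → Cube I) : Adm e ([] : Pcd (Cube I)) := fun y => by
  rw [pev_nil]
  exact ⟨le_rfl, zero_le_one⟩

/-- the coded choice of the approximations -/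
theorem exists_cd (hS : Cl S) {e : X → Cube I} {x : X} (he : Emb e)
    (hx : ∀ y : X, y ∈ orb x) (hex : Pt S (e x)) {lam : ProbabilityMeasure X}
    {θ : ProbabilityMeasure (X × PM k)} (hlam : Pm S e (lam : Measure X))
    (hθ : Pm S (fun p : X × PM k => (e p.1, p.2)) (θ : Measure (X × PM k))) :
    ∃ cd : HK.C k × ℕ → Pcd (Cube I), ArF S cd ∧ ∀ a : HK.C k × ℕ, Adm e (cd a) ∧
      ∀ c', Adm e c' → JJ e lam θ a.1 (cd a) ≤ JJ e lam θ a.1 c' + 1 / ((a.2 : ℝ) + 1) := by
  have hA := ar_adm hS he hx hex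
  have hJ := arZ_JJ hS he.cont hlam hθ
  refine HK.Ar.choose hS (R := fun (a : HK.C k × ℕ) (c : Pcd (Cube I)) => Adm e c ∧
      ∀ c', Adm e c' → JJ e lam θ a.1 c ≤ JJ e lam θ a.1 c' + 1 / ((a.2 : ℝ) + 1)) ?_ ?_
  · refine Ar.and hS (Ar.comp hS hA Primrec.snd) ?_
    refine Ar.all hS (R := fun (p : (HK.C k × ℕ) × Pcd (Cube I)) (c' : Pcd (Cube I)) =>
      Adm e c' → JJ e lam θ p.1.1 p.2 ≤ JJ e lam θ p.1.1 c' + 1 / ((p.1.2 : ℝ) + 1)) ?_
    refine Ar.imp hS (Ar.comp hS hA Primrec.snd) ?_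
    refine ArZ.le hS ?_ (ArZ.add hS ?_ ?_)
    · exact hJ.comp hS (u := fun p : ((HK.C k × ℕ) × Pcd (Cube I)) × Pcd (Cube I) =>
        (p.1.1.1, p.1.2)) (ArF.of_primrec hS ((Primrec.fst.comp (Primrec.fst.comp
          Primrec.fst)).pair (Primrec.snd.comp Primrec.fst)))
    · exact hJ.comp hS (u := fun p : ((HK.C k × ℕ) × Pcd (Cube I)) × Pcd (Cube I) =>
        (p.1.1.1, p.2)) (ArF.of_primrec hS ((Primrec.fst.comp (Primrec.fst.comp
          Primrec.fst)).pair Primrec.snd))
    · refine (ArZ.rat hS (u := fun p : ((HK.C k × ℕ) × Pcd (Cube I)) × Pcd (Cube I) =>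
        (1, 0, p.1.1.2)) (ArF.of_primrec hS ((Primrec.const 1).pair ((Primrec.const 0).pair
          (Primrec.snd.comp (Primrec.fst.comp Primrec.fst)))))).congr fun p => ?_
      simp
  · rintro ⟨P, L⟩
    let A : Set ℝ := {r | ∃ c, Adm e c ∧ JJ e lam θ P c = r}
    have hne : A.Nonempty := ⟨_, [], adm_nil e, rfl⟩
    have hbd : BddBelow A := ⟨-2, by
      rintro _ ⟨c, hc, rfl⟩
      exact JJ_ge P hc⟩
    have hpos : (0 : ℝ) < 1 / ((L : ℝ) + 1) := by positivity
    obtain ⟨_, ⟨c, hc, rfl⟩, hlt⟩ := Real.lt_sInf_add_pos hne hpos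
    refine ⟨c, hc, fun c' hc' => ?_⟩
    have h1 : sInf A ≤ JJ e lam θ P c' := csInf_le hbd ⟨c', hc', rfl⟩
    show JJ e lam θ P c ≤ JJ e lam θ P c' + 1 / ((L : ℝ) + 1)
    linarith

end choice

/-! ### The moments of the lift -/

section moments

variable {k : ℕ} {ι : Type} [Primcodable ι]

open Classical in
/-- the letters with the index `i` -/
noncomputable def flat (i : ι) (l : List (ι × HK.C k)) : HK.C k :=
  l.flatMap fun p => if p.1 = i then p.2 else []

theorem prim_flat (i : ι) : Primrec (flat i : List (ι × HK.C k) → HK.C k) := by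
  classical
  have h1 : Primrec fun q : List (ι × HK.C k) × (ι × HK.C k) =>
      if q.2.1 = i then q.2.2 else [] :=
    Primrec.ite (Primrec.eq.comp (Primrec.fst.comp Primrec.snd) (Primrec.const i))
      (Primrec.snd.comp Primrec.snd) (Primrec.const [])
  exact (Primrec.list_flatMap Primrec.id (Primrec₂.mk h1)).of_eq fun l => by
    unfold flat
    rfl

theorem mem_flat (l : List (ι × HK.C k)) (u : ι → Om k) :
    (∀ i, u i ∈ HK.cyl (flat i l)) ↔ ∀ p ∈ l, u p.1 ∈ HK.cyl p.2 := by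
  constructor
  · intro h p hp q hq
    refine h p.1 q ?_
    unfold flat
    rw [List.mem_flatMap]
    exact ⟨p, hp, by simpa using hq⟩
  · intro h i q hq
    unfold flat at hq
    rw [List.mem_flatMap] at hq
    obtain ⟨p, hp, hq⟩ := hq
    by_cases h1 : p.1 = i
    · rw [if_pos h1] at hq
      subst h1
      exact h p hp q hq
    · rw [if_neg h1] at hq
      simp at hq

theorem fn_box (l : List (ι × HK.C k)) (u : ι → Om k) :
    TF.fn (α := ι → Om k) l u =
      (univ.pi fun i => HK.cyl (flat i l)).indicator (fun _ => (1 : ℝ)) u := by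
  classical
  have h0 : TF.fn (α := ι → Om k) l u =
      (l.map fun p => (HK.cyl p.2).indicator (fun _ => (1 : ℝ)) (u p.1)).prod := rfl
  have h1 : u ∈ (univ.pi fun i => HK.cyl (flat i l)) ↔ ∀ p ∈ l, u p.1 ∈ HK.cyl p.2 := by
    rw [← mem_flat]
    simp [Set.mem_pi]
  rw [h0]
  by_cases h : ∀ p ∈ l, u p.1 ∈ HK.cyl p.2
  · rw [Set.indicator_of_mem (h1.2 h)]
    refine List.prod_eq_one fun y hy => ?_
    obtain ⟨p, hp, rfl⟩ := List.mem_map.1 hy
    exact Set.indicator_of_mem (h p hp) _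
  · rw [Set.indicator_of_notMem fun h2 => h (h1.1 h2)]
    push Not at h
    obtain ⟨p, hp, h3⟩ := h
    refine List.prod_eq_zero (List.mem_map.2 ⟨p, hp, ?_⟩)
    exact Set.indicator_of_notMem h3 _

theorem mo_lif (hLIF : S_LIF) {X : Type} [MeasurableSpace X] [Fintype ι] (η : Kernel X (Om k))
    [IsMarkovKernel η] (Q : ProbabilityMeasure (ι → X)) (κ : ProbabilityMeasure (ι → Om k))
    (hκ : (κ : Measure (ι → Om k)) = lif η (Q : Measure (ι → X))) (l : List (ι × HK.C k)) :
    mo (α := ι → Om k) κ l =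
      ∫ z, ∏ i, (η (z i)).real (HK.cyl (flat i l)) ∂(Q : Measure (ι → X)) := by
  have hB : ∀ i, MeasurableSet (HK.cyl (flat i l) : Set (Om k)) := fun i =>
    HK.I_MEASW.measurable_cyl _
  haveI : IsProbabilityMeasure (Q : Measure (ι → X)) := Q.2
  obtain ⟨-, hbox, -, -⟩ := hLIF k X ι η (Q : Measure (ι → X))
  have h1 : mo (α := ι → Om k) κ l =
      (κ : Measure (ι → Om k)).real (univ.pi fun i => HK.cyl (flat i l)) := by
    unfold mo
    have h2 : (TF.fn (α := ι → Om k) l) =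
        (univ.pi fun i => HK.cyl (flat i l)).indicator (fun _ => (1 : ℝ)) :=
      funext fun u => fn_box l u
    rw [h2, integral_indicator (MeasurableSet.univ_pi hB)]
    simp [Measure.real]
  rw [h1, Measure.real, hκ, hbox _ hB, ← integral_toReal]
  · refine integral_congr_ae (Eventually.of_forall fun z => ?_)
    show (∏ i, η (z i) (HK.cyl (flat i l))).toReal = ∏ i, (η (z i)).real (HK.cyl (flat i l))
    rw [ENNReal.toReal_prod]
    rfl
  · exact (Finset.measurable_prod _ fun i _ =>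
      (Kernel.measurable_coe η (hB i)).comp (measurable_pi_apply i)).aemeasurable
  · exact Eventually.of_forall fun z => ENNReal.prod_lt_top fun i _ => measure_lt_top _ _

end moments

end I_KET

open I_KET in
theorem KET_pf (hLIF : S_LIF) (hKPM : S_KPM) (hKPR : S_KPR) : S_KET := by
  intro S U hS hU k X _ _ _ _ I ι _ _ _ e x lam θ χ _ Q C he hx hex hlam hθ hθχ hQ hdom
  haveI hmE : IsMarkovKernel (evK k) := ⟨fun m => m.2⟩
  haveI hη : IsMarkovKernel (evK k ∘ₖ χ) := inferInstance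
  haveI hQp : IsProbabilityMeasure (Q : Measure (ι → X)) := Q.2
  obtain ⟨hprob, -, -, -⟩ := hLIF k X ι (evK k ∘ₖ χ) (Q : Measure (ι → X))
  let κ : ProbabilityMeasure (ι → Om k) := ⟨lif (evK k ∘ₖ χ) (Q : Measure (ι → X)), hprob⟩
  refine ⟨κ, rfl, ?_⟩
  obtain ⟨cd, hcd, hcd'⟩ := exists_cd hS he hx hex hlam hθ
  show HK.sc S (fun _ : Unit => κ)
  rw [CP.sc_iff S hS]
  obtain ⟨ν, hν, hνS⟩ := hQ
  obtain ⟨d, hd, hd'⟩ := exists_pprod (V := Cube I) hS (ι := ι)
    (β := (Unit × List (ι × HK.C k)) × ℕ) (fun i p => cd (flat i p.1.2, p.2))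
    (fun i => hcd.comp hS (ArF.of_primrec hS
      (((prim_flat i).comp (Primrec.snd.comp Primrec.fst)).pair Primrec.snd)))
  have hE : Continuous fun (z : ι → X) (i : ι) => e (z i) :=
    continuous_pi fun i => he.cont.comp (continuous_apply i)
  have hint : ∀ p, ∫ z, pev (d p) z ∂(ν : Measure (ι → Cube I)) =
      ∫ z, ∏ i, pev (cd (flat i p.1.2, p.2)) (e (z i)) ∂(Q : Measure (ι → X)) := by
    intro p
    rw [hν, integral_map hE.measurable.aemeasurable (continuous_pev _).aestronglyMeasurable]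
    refine integral_congr_ae (Eventually.of_forall fun z => ?_)
    exact hd' p _
  refine arR_lim_atTop hS hU (β := Unit × List (ι × HK.C k))
    (f := fun p => ∫ z, pev (d p) z ∂(ν : Measure (ι → Cube I))) ?_ (fun p => mo_nn _ _)
    fun p => ?_
  · exact (arZ_pint hS hνS).comp hS (u := fun p : (Unit × List (ι × HK.C k)) × ℕ => ((), d p))
      ((ArF.const hS ()).pair hS hd)
  · obtain ⟨⟨⟩, l⟩ := p
    show Tendsto (fun L => ∫ z, pev (d (((), l), L)) z ∂(ν : Measure (ι → Cube I))) atTop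
      (𝓝 (mo (α := ι → Om k) κ l))
    rw [mo_lif hLIF (evK k ∘ₖ χ) Q κ rfl l]
    rw [tendsto_iff_norm_sub_tendsto_zero]
    have hlim : Tendsto (fun L : ℕ => (C : ℝ) * Fintype.card ι *
        Real.sqrt (1 / ((L : ℝ) + 1))) atTop (𝓝 0) := by
      have h1 : Tendsto (fun L : ℕ => Real.sqrt (1 / ((L : ℝ) + 1))) atTop (𝓝 (Real.sqrt 0)) :=
        (Real.continuous_sqrt.tendsto 0).comp tendsto_one_div_add_atTop_nhds_zero_nat
      rw [Real.sqrt_zero] at h1
      simpa using h1.const_mul ((C : ℝ) * Fintype.card ι)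
    refine squeeze_zero (fun L => norm_nonneg _) (fun L => ?_) hlim
    rw [hint, Real.norm_eq_abs]
    have hpos : (0 : ℝ) ≤ 1 / ((L : ℝ) + 1) := by positivity
    refine hKPR X ι lam Q C hdom (fun i v => pev (cd (flat i l, L)) (e v))
      (fun i v => ((evK k ∘ₖ χ) v).real (HK.cyl (flat i l))) ?_ ?_ ?_ ?_ _ (Real.sqrt_nonneg _) ?_
    · exact fun i => ((continuous_pev _).comp he.cont).measurable
    · exact fun i => (Kernel.measurable_coe _ (HK.I_MEASW.measurable_cyl _)).ennreal_toReal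
    · exact fun i y => (hcd' (flat i l, L)).1 y
    · exact fun i y => ⟨measureReal_nonneg, measureReal_le_one⟩
    · intro i
      rw [Real.sq_sqrt hpos]
      exact hKPM k X (Cube I) e he.cont he.inj lam θ χ hθχ (HK.cyl (flat i l))
        (HK.I_MEASW.measurable_cyl _) (cd (flat i l, L)) _ (hcd' (flat i l, L)).1 hpos
        (hcd' (flat i l, L)).2

end Pool.Agent.Work.MP_69fea5_lc.W3
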