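import Pool.Agent.Work.MP_69fea5_lc.W3.StmtsK

set_option autoImplicit false

namespace Pool.Agent.Work.MP_69fea5_lc.W3

open MeasureTheory Topology Set Filter TopologicalSpace
open scoped NNReal ENNReal
open Pool.Agent.Work.MP_69fea5_lc.AK

namespace I_KEX

/-- the times and the points of `ZSX`, as sequences -/
theorem exists_seq {k : ℕ} {X : Type} [TopologicalSpace X] [FirstCountableTopology X] [Sys X]
    {c : Om k} {m : PM k} {x : X} {z : Om k} (h : ZSX c m x z) :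
    ∃ (n : ℕ → ℕ) (g : ℕ → Om k), (∀ i, i ≤ n i) ∧ (∀ i, g i ∈ supp m) ∧
      Tendsto (fun i => sh (n i : ℤ) x) atTop (𝓝 x) ∧ Tendsto g atTop (𝓝 z) ∧
      ∀ i : ℕ, ∀ j : ℤ, |j| ≤ (i : ℤ) → g i ((n i : ℤ) + j) = c ((n i : ℤ) + j) := by
  obtain ⟨U, hU⟩ := (𝓝 z).exists_antitone_basis
  obtain ⟨V, hV⟩ := (𝓝 x).exists_antitone_basis
  have h1 : ∀ i : ℕ, ∃ (n : ℕ) (g : Om k), i ≤ n ∧ sh (n : ℤ) x ∈ V i ∧ g ∈ supp m ∧ g ∈ U i ∧
      ∀ j : ℤ, |j| ≤ (i : ℤ) → g ((n : ℤ) + j) = c ((n : ℤ) + j) := by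
    intro i
    obtain ⟨n, hn, hx, g, hg, hj⟩ := h (U i) (hU.mem i) (V i) (hV.mem i) i
    exact ⟨n, g, hn, hx, hg.1, hg.2, hj⟩
  choose n g hn hx hg hgU hj using h1
  exact ⟨n, g, hn, hg, hV.tendsto hx, hU.tendsto hgU, hj⟩

/-- shifts of points which agree with `c` on long windows have the same limit -/
theorem lim_eq {k : ℕ} {c h : Om k} {n : ℕ → ℕ} {g : ℕ → Om k} {G : Filter ℕ}
    (hG : G ≤ atTop)
    (hj : ∀ i : ℕ, ∀ j : ℤ, |j| ≤ (i : ℤ) → g i ((n i : ℤ) + j) = c ((n i : ℤ) + j))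
    (hc : Tendsto (fun i => sh (n i : ℤ) c) G (𝓝 h)) :
    Tendsto (fun i => sh (n i : ℤ) (g i)) G (𝓝 h) := by
  rw [tendsto_pi_nhds] at hc ⊢
  intro j
  refine (hc j).congr' ?_
  have h1 : ∀ᶠ i : ℕ in G, j.natAbs ≤ i := hG (eventually_ge_atTop _)
  filter_upwards [h1] with i hi
  change c (j + (n i : ℤ)) = g i (j + (n i : ℤ))
  rw [add_comm j, hj i j]
  rw [Int.abs_eq_natAbs]
  exact_mod_cast hi

/-- the isometric step: exactness of the next position -/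
theorem exact_step (hOMG : AK.S_OMG) (hORB : AK.S_ORB) (hLGR : S_LGR) {k : ℕ} {c : Om k}
    {M : Set (Om k)} {X Y : Type} [TopologicalSpace X] [MeasurableSpace X] [CS X] [Sys X]
    [TopologicalSpace Y] [FirstCountableTopology Y] [Sys Y]
    {π : Om k → X} {y : Y} {m : PM k} {z : Om k} (hz : ZSX c m y z)
    (hsupp : ∀ g ∈ supp m, g ∈ M ∧ π g = π z) (hzM : z ∈ M)
    (X' : Type) [TopologicalSpace X'] [MeasurableSpace X'] [CS X'] [Sys X'] (π' : Om k → X')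
    (p : X' → X) (hPo' : Po M π') (hp : Continuous p)
    (hpe : ∀ (l : ℤ) y, p (sh l y) = sh l (p y))
    (hcomp : ∀ w ∈ M, p (π' w) = π w)
    (hiso : ∃ ρ, CI p ρ ∧ ∀ y y', p y = p y' → ρ y y' = 0 → y = y') :
    gr M π' ⊆ omg (c, π' z) := by
  obtain ⟨n, g, hn, hg, -, hgz, hj⟩ := exists_seq hz
  have hgM : ∀ i, g i ∈ M := fun i => (hsupp _ (hg i)).1
  have hgπ : ∀ i, π (g i) = π z := fun i => (hsupp _ (hg i)).2
  obtain ⟨G, hG⟩ : ∃ G : Ultrafilter ℕ, (G : Filter ℕ) ≤ atTop :=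
    ⟨Ultrafilter.of atTop, Ultrafilter.of_le _⟩
  obtain ⟨h, -, hh⟩ := isCompact_univ.ultrafilter_le_nhds
    (G.map (fun i : ℕ => sh (n i : ℤ) c)) (by simp)
  have hc : Tendsto (fun i : ℕ => sh (n i : ℤ) c) (G : Filter ℕ) (𝓝 h) := hh
  obtain ⟨t, -, ht⟩ := isCompact_univ.ultrafilter_le_nhds
    (G.map (fun i : ℕ => sh (n i : ℤ) (π' z))) (by simp)
  have ht' : Tendsto (fun i : ℕ => sh (n i : ℤ) (π' z)) (G : Filter ℕ) (𝓝 t) := ht
  have hgh : Tendsto (fun i : ℕ => sh (n i : ℤ) (g i)) (G : Filter ℕ) (𝓝 h) :=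
    lim_eq hG hj hc
  have hshM : ∀ i, sh (n i : ℤ) (g i) ∈ M := fun i => hPo'.min.inv _ _ (hgM i)
  have hhM : h ∈ M := hPo'.min.closed.mem_of_tendsto hgh (Eventually.of_forall hshM)
  -- the positions of the shifted points
  have h1 : Tendsto (fun i : ℕ => π' (sh (n i : ℤ) (g i))) (G : Filter ℕ) (𝓝 (π' h)) :=
    (hPo'.cont h hhM).tendsto.comp (tendsto_nhdsWithin_iff.2 ⟨hgh, Eventually.of_forall hshM⟩)
  have h1' : Tendsto (fun i : ℕ => sh (n i : ℤ) (π' (g i))) (G : Filter ℕ) (𝓝 (π' h)) :=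
    h1.congr fun i => hPo'.equi _ (hgM i) _
  have h2 : Tendsto (fun i : ℕ => π' (g i)) (G : Filter ℕ) (𝓝 (π' z)) :=
    (hPo'.cont z hzM).tendsto.comp
      (tendsto_nhdsWithin_iff.2 ⟨hgz.mono_left hG, Eventually.of_forall hgM⟩)
  have hpp : ∀ i, p (π' (g i)) = p (π' z) := fun i => by
    rw [hcomp _ (hgM i), hcomp _ hzM, hgπ i]
  have hppn : ∀ i, p (sh (n i : ℤ) (π' (g i))) = p (sh (n i : ℤ) (π' z)) := fun i => by
    rw [hpe, hpe, hpp i]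
  have hpt : p (π' h) = p t :=
    tendsto_nhds_unique (((hp.tendsto _).comp h1').congr hppn) ((hp.tendsto _).comp ht')
  obtain ⟨ρ, hρ, hsep⟩ := hiso
  have hl1 : Tendsto (fun i : ℕ => ρ (sh (n i : ℤ) (π' (g i))) (sh (n i : ℤ) (π' z)))
      (G : Filter ℕ) (𝓝 (ρ (π' h) t)) := by
    have h3 : ContinuousWithinAt (fun q : X' × X' => ρ q.1 q.2) {q | p q.1 = p q.2}
        (π' h, t) := hρ.cont _ hpt
    exact Tendsto.comp (f := fun i : ℕ => ((sh (n i : ℤ) (π' (g i)), sh (n i : ℤ) (π' z)) :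
      X' × X')) h3.tendsto (tendsto_nhdsWithin_iff.2 ⟨h1'.prodMk_nhds ht',
        Eventually.of_forall hppn⟩)
  have hl2 : Tendsto (fun i : ℕ => ρ (π' (g i)) (π' z)) (G : Filter ℕ)
      (𝓝 (ρ (π' z) (π' z))) := by
    have h3 : ContinuousWithinAt (fun q : X' × X' => ρ q.1 q.2) {q | p q.1 = p q.2}
        (π' z, π' z) := hρ.cont _ rfl
    exact Tendsto.comp (f := fun i : ℕ => ((π' (g i), π' z) : X' × X')) h3.tendsto
      (tendsto_nhdsWithin_iff.2 ⟨h2.prodMk_nhds tendsto_const_nhds, Eventually.of_forall hpp⟩)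
  have hl3 : Tendsto (fun i : ℕ => ρ (sh (n i : ℤ) (π' (g i))) (sh (n i : ℤ) (π' z)))
      (G : Filter ℕ) (𝓝 (ρ (π' z) (π' z))) :=
    hl2.congr fun i => (hρ.inv (n i : ℤ) _ _ (hpp i)).symm
  have hd : ρ (π' h) t = 0 := by
    rw [tendsto_nhds_unique hl1 hl3]
    exact hρ.self _
  have hht : π' h = t := hsep _ _ hpt hd
  -- the limit set
  obtain ⟨ho1, ho2, -⟩ := hOMG (Om k × X') (c, π' z)
  have hmem : (h, π' h) ∈ omg (c, π' z) := by
    have hlim : Tendsto (fun i : ℕ => sh (n i : ℤ) ((c, π' z) : Om k × X'))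
        (G : Filter ℕ) (𝓝 (h, π' h)) := by
      rw [hht]
      exact hc.prodMk_nhds ht'
    intro U hU N
    have h3 : ∀ᶠ i : ℕ in (G : Filter ℕ), sh (n i : ℤ) ((c, π' z) : Om k × X') ∈ U := hlim hU
    have h4 : ∀ᶠ i : ℕ in (G : Filter ℕ), N ≤ i := hG (eventually_ge_atTop N)
    obtain ⟨i, hi⟩ := (h3.and h4).exists
    exact ⟨n i, hi.2.trans (hn i), hi.1⟩
  have hmin' : MinSet (gr M π') := (hLGR k 0 X' M π' hPo').1
  exact (hORB (Om k × X') (c, π' z)).2.2.2.2.2.1 _ _ hmin' ho1 ho2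
    ⟨(h, π' h), ⟨hhM, rfl⟩, hmem⟩

end I_KEX

theorem KEX_pf (hOMG : AK.S_OMG) (hORB : AK.S_ORB) (hLGR : S_LGR) (hLAA : S_LAA)
    (hBCX : S_BCX) (hBCF : S_BCF) (hRIM : S_RIM) (hEX1 : S_EX1) (hLEB : S_LEB)
    (hZSE : S_ZSE) : S_KEX := by
  intro k c M X _ _ _ _ π v m hPo hAA hmin hexa
  obtain ⟨hSP, hfst, hone⟩ := hLAA k X M π v m hPo hAA hmin
  obtain ⟨hgm, hgs, -⟩ := hLGR k 0 X M π hPo
  obtain ⟨A', hA'⟩ := hBCX (Om k) X (X × PM k) (gr M π) (orb (v, m)) Prod.fst hSP hgm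
    (by rw [hgs, hfst])
  have hLev : Lev A' (Prod.snd : X × PM k → PM k) := by
    refine hRIM (Om k) X (X × PM k) (gr M π) (orb (v, m)) Prod.fst A' Prod.snd hA'
      continuous_snd (fun n e => rfl) fun e he => ?_
    have h1 := hone e he
    have h2 : {u : Om k | (u, e.1) ∈ gr M π} = {w | w ∈ M ∧ π w = e.1} := by
      ext w
      exact ⟨fun h => ⟨h.1, h.2.symm⟩, fun h => ⟨h.1, h.2.symm⟩⟩
    rw [h2]
    exact h1
  have hvm : (v, m) ∈ orb (v, m) := (hORB (X × PM k) (v, m)).2.2.1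
  have hsnd : Prod.snd '' A' = orb (v, m) :=
    (hBCF (Om k) X (X × PM k) (gr M π) (orb (v, m)) Prod.fst A' hA').2.1
  have hvm' : (v, m) ∈ Prod.snd '' A' := by rw [hsnd]; exact hvm
  refine ⟨?_, ?_⟩
  · exact hZSE k c (X × PM k) A' Prod.snd hLev (v, m) hvm'
      (hEX1 k c X (X × PM k) (gr M π) (orb (v, m)) Prod.fst A' hA' (v, m) hvm hexa)
  · intro z hz
    have hsA : ∀ g ∈ supp m, (g, (v, m)) ∈ A' := fun g hg =>
      (hLEB (Om k) (X × PM k) A' Prod.snd hLev).2 (v, m) hvm' g hg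
    obtain ⟨n, g, -, hg, -, hgz, -⟩ := I_KEX.exists_seq hz
    have hzA : (z, (v, m)) ∈ A' := hLev.min.closed.mem_of_tendsto
      (hgz.prodMk_nhds tendsto_const_nhds) (Eventually.of_forall fun i => hsA _ (hg i))
    have hgr : ∀ u : Om k, (u, (v, m)) ∈ A' → u ∈ M ∧ π u = v := fun u hu =>
      ⟨(hA'.sub hu).2.1, (hA'.sub hu).2.2.symm⟩
    obtain ⟨hzM, hzv⟩ := hgr z hzA
    refine ⟨hzM, hzv, ?_⟩
    intro X' _ _ _ _ π' p hPo' hp hpe hcomp hiso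
    exact I_KEX.exact_step hOMG hORB hLGR hz (fun g hg => ⟨(hgr g (hsA g hg)).1,
      (hgr g (hsA g hg)).2.trans hzv.symm⟩) hzM X' π' p hPo' hp hpe hcomp hiso

end Pool.Agent.Work.MP_69fea5_lc.W3
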