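import Pool.Agent.Work.MP_69fea5_lc.W3.StmtsK
import Pool.Agent.Work.MP_69fea5_lc.W3.CodL

/-!
Block [69fea5 K], item KLV: one coded level.
-/

set_option autoImplicit false

namespace Pool.Agent.Work.MP_69fea5_lc.W3

open MeasureTheory Topology Set Filter TopologicalSpace ProbabilityTheory
open scoped NNReal ENNReal
open Pool.Agent.Work.MP_69fea5_lc.AK
open Pool.Agent.Work.MP_69fea5_lc.HK (Cl DU Ar ArF ArR Dat Law LawC act near sc Pt oc Mn mr ext)
open Pool.Agent.Work.MP_69fea5_lc.KC (Agree)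

theorem KLV_pf (hKCP : S_KCP) (hKCT : S_KCT) (hXCK : W3D.S_XCK) (hLAA : S_LAA) (hLEK : S_LEK)
    (hLKE : S_LKE) (hKET : S_KET) (hKTL : S_KTL) : S_KLV := by
  intro S U hS hU k n M w₀ X _ _ _ _ π I _ h r ρ hC
  obtain ⟨hmin, hEmb, hpt⟩ := hKCP S U hS hU k M w₀ X π I h r ρ hC
  obtain ⟨lam, P, K, m₁, θ, χ, hXI, hlam, hK, hm1, hAA, hmin1, hχ, hθ1, hθinv, hθχ, hθc⟩ :=
    hKCT S U hS hU k M w₀ X π I h r ρ hC w₀ hC.mem hC.ptw
  obtain ⟨Q, hCK, hQ⟩ := hXCK X lam P K hXI n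
  obtain ⟨hSPx, hfst, hcar⟩ := hLAA k X M π (π w₀) m₁ hC.po hAA hmin1
  have hEK : EK M π lam (evK k ∘ₖ χ) :=
    hLEK k X M π (orb (π w₀, m₁)) lam θ χ hC.po hSPx hcar hθ1 hθinv hθχ
  obtain ⟨κ, hKK, hκc, hκe, -⟩ := hLKE k n X M π lam Q (evK k ∘ₖ χ) hC.po hCK hEK
  refine ⟨lam, Q, evK k ∘ₖ χ, κ, hCK, hEK, hKK, hκc, hκe, hKTL S hS k n X π κ w₀ hC.ptw ?_⟩
  intro j
  have hr : Continuous (r h) := hEmb.cont
  have hQc : Pm S (fun (z : Oth j → X) (i : Oth j) => r h (z i))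
      (Q j (π w₀) : Measure (Oth j → X)) := by
    rw [hQ]
    rw [pm_map]
    · refine pm_tmap (V := Fin n → Cube I) (V' := Oth j → Cube I) hS
        (tmap_reindex (V := Cube I) (g := fun i : Oth j => (i : Fin n)) Primrec.subtype_val)
        (e := fun (y : Fin n → X) (i : Fin n) => r h (y i)) ?_ (hK n j)
      exact (continuous_pi fun i => hr.comp (continuous_apply i)).measurable
    · exact (continuous_pi fun i => hr.comp (continuous_apply i)).measurable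
    · exact (continuous_pi fun i : Oth j => continuous_apply (i : Fin n)).measurable
  obtain ⟨C, hC'⟩ := hCK.dom
  obtain ⟨κ', h1, h2⟩ := hKET S U hS hU k X I (Oth j) (r h) (π w₀) lam θ χ (Q j (π w₀)) C hEmb
    (fun y => hmin _ y) (hpt w₀ hC.mem hC.ptw h le_rfl) hlam hθc hθχ hQc (hC' j (π w₀))
  have h3 : κ j (π w₀) = κ' := Subtype.ext ((hKK j (π w₀)).trans h1.symm)
  rw [h3]
  exact h2

end Pool.Agent.Work.MP_69fea5_lc.W3
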