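import Pool.Agent.Work.MP_69fea5_lc.W3.StmtsK

/-!
# [KMW] measures of sets of tuples which depend on a finite window
-/

set_option autoImplicit false

open Filter Topology MeasureTheory

namespace Pool.Agent.Work.MP_69fea5_lc.W3

open Pool.Agent.Work.MP_69fea5_lc
open Pool.Agent.Work.MP_69fea5_lc.AK
open Pool.Agent.Work.MP_69fea5_lc.HK (Cl DU Ar ArF ArR Dat Law LawC act near sc Pt oc Mn mr ext)

namespace I_KMW

variable {k n : ℕ}

/-- the digit `i` of `e` in the base `k ^ (2 W + 1)` -/
def dgt (k W e i : ℕ) : ℕ := (e / (k ^ (2 * W + 1)) ^ i) % (k ^ (2 * W + 1))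

/-- the tuple of words with the code `e` -/
def wtp (hk : 0 < k) (n W e : ℕ) : Fin n → List (Fin k) :=
  fun i => HK.I_MEASW.word hk W (dgt k W e i)

/-- the list of pairs for the box of the code `e` -/
def ct (hk : 0 < k) (n W e : ℕ) : List (Fin n × HK.C k) :=
  (List.finRange n).map fun i => (i, HK.I_MEASW.con hk W (dgt k W e i))

/-- the box of the code `e` -/
def box (hk : 0 < k) (n W e : ℕ) : Set (Fin n → Om k) :=
  {u | ∀ i : Fin n, u i ∈ HK.cyl (HK.I_MEASW.con hk W (dgt k W e i))}

theorem box_eq (hk : 0 < k) (n W e : ℕ) : box hk n W e =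
    ⋂ i : Fin n, (fun u : Fin n → Om k => u i) ⁻¹'
      HK.cyl (HK.I_MEASW.con hk W (dgt k W e i)) := by
  ext u
  simp [box]

theorem measurable_box (hk : 0 < k) (n W e : ℕ) : MeasurableSet (box hk n W e) := by
  rw [box_eq]
  exact MeasurableSet.iInter fun i =>
    (measurable_pi_apply i) (HK.I_MEASW.measurable_cyl _)

theorem wd_eq_wtp (hk : 0 < k) (n W e : ℕ) {u : Fin n → Om k} (h : u ∈ box hk n W e) :
    (fun i => HK.wd W (u i)) = wtp hk n W e :=
  funext fun i => HK.I_MEASW.wd_eq hk W _ (u i) (h i)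

theorem exists_box (hk : 0 < k) (n W : ℕ) (u : Fin n → Om k) :
    ∃ e < (k ^ (2 * W + 1)) ^ n, u ∈ box hk n W e := by
  have hK : 0 < k ^ (2 * W + 1) := pow_pos hk _
  have h1 : ∀ i : Fin n, ∃ e < k ^ (2 * W + 1), ∀ j < 2 * W + 1,
      HK.I_MEASW.dig hk e j = u i ((j : ℤ) - W) := fun i =>
    HK.I_MEASW.exists_code hk (fun j => u i ((j : ℤ) - W)) (2 * W + 1)
  choose c hc hc' using h1
  obtain ⟨e, he, h2⟩ := HK.I_MEASW.exists_code hK
    (fun i => if h : i < n then ⟨c ⟨i, h⟩, hc ⟨i, h⟩⟩ else ⟨0, hK⟩) n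
  refine ⟨e, he, fun i => ?_⟩
  have h3 : dgt k W e i = c i := by
    have h4 := h2 i i.2
    rw [dif_pos i.2] at h4
    exact congrArg Fin.val h4
  rw [h3, HK.I_MEASW.mem_con]
  exact fun j hj => (hc' i j hj).symm

theorem box_inj (hk : 0 < k) (n W : ℕ) {e e' : ℕ} (he : e < (k ^ (2 * W + 1)) ^ n)
    (he' : e' < (k ^ (2 * W + 1)) ^ n) {u : Fin n → Om k} (h : u ∈ box hk n W e)
    (h' : u ∈ box hk n W e') : e = e' := by
  have hK : 0 < k ^ (2 * W + 1) := pow_pos hk _
  refine HK.I_MEASW.code_inj hK n e e' he he' fun i hi => ?_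
  apply Fin.ext
  show dgt k W e i = dgt k W e' i
  have h1 := (HK.I_MEASW.mem_con hk W _ _).1 (h ⟨i, hi⟩)
  have h2 := (HK.I_MEASW.mem_con hk W _ _).1 (h' ⟨i, hi⟩)
  exact HK.I_MEASW.code_inj hk (2 * W + 1) _ _ (Nat.mod_lt _ hK) (Nat.mod_lt _ hK)
    fun j hj => (h1 j hj).symm.trans (h2 j hj)

open Classical in
theorem prod_ind {κ : Type} (l : List κ) (A : κ → Prop) (f : κ → ℝ)
    (hf : ∀ i, f i = if A i then 1 else 0) :
    (l.map f).prod = if ∀ i ∈ l, A i then 1 else 0 := by
  induction l with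
  | nil => simp
  | cons a l ih =>
    rw [List.map_cons, List.prod_cons, ih, hf]
    by_cases h1 : A a <;> by_cases h2 : ∀ i ∈ l, A i <;> simp [h1, h2]

theorem fn_ct (hk : 0 < k) (n W e : ℕ) (u : Fin n → Om k) :
    TF.fn (α := Fin n → Om k) (ct hk n W e) u =
      (box hk n W e).indicator (fun _ => (1 : ℝ)) u := by
  classical
  show ((ct hk n W e).map fun p : Fin n × HK.C k =>
    (HK.cyl p.2).indicator (fun _ => (1 : ℝ)) (u p.1)).prod = _
  rw [prod_ind (ct hk n W e) (fun p => u p.1 ∈ HK.cyl p.2) _ fun p => ind_eq _ _,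
    Set.indicator_apply]
  have h : (∀ p ∈ ct hk n W e, u p.1 ∈ HK.cyl p.2) ↔ u ∈ box hk n W e := by
    simp only [ct, List.mem_map, List.mem_finRange, true_and, forall_exists_index,
      forall_apply_eq_imp_iff, box]
    rfl
  by_cases h1 : u ∈ box hk n W e
  · rw [if_pos (h.2 h1), if_pos h1]
  · rw [if_neg fun h2 => h1 (h.1 h2), if_neg h1]

theorem mo_ct (hk : 0 < k) (n W e : ℕ) (m : ProbabilityMeasure (Fin n → Om k)) :
    mo m (ct hk n W e : TF.ι (Fin n → Om k)) =
      (m : Measure (Fin n → Om k)).real (box hk n W e) := by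
  unfold mo
  rw [integral_congr_ae (Filter.Eventually.of_forall fun u => fn_ct hk n W e u),
    integral_indicator (measurable_box hk n W e)]
  simp [Measure.real]

open Classical in
/-- the measure as a finite sum over tuples of words -/
theorem measure_eq (hk : 0 < k) (n W : ℕ) (m : ProbabilityMeasure (Fin n → Om k))
    (H : (Fin n → List (Fin k)) → Prop) :
    (m : Measure (Fin n → Om k)).real {u | H fun i => HK.wd W (u i)} =
      ∑ e ∈ Finset.range ((k ^ (2 * W + 1)) ^ n),
        (if H (wtp hk n W e) then 1 else 0) *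
          mo m (ct hk n W e : TF.ι (Fin n → Om k)) := by
  have h1 : {u : Fin n → Om k | H fun i => HK.wd W (u i)} =
      ⋃ e ∈ (Finset.range ((k ^ (2 * W + 1)) ^ n)).filter (fun e => H (wtp hk n W e)),
        box hk n W e := by
    ext u
    simp only [Set.mem_ofPred_eq, Finset.mem_filter, Finset.mem_range, Set.mem_iUnion, exists_prop]
    constructor
    · intro hH
      obtain ⟨e, he, h⟩ := exists_box hk n W u
      exact ⟨e, ⟨he, by rwa [← wd_eq_wtp hk n W e h]⟩, h⟩
    · rintro ⟨e, ⟨_, hH⟩, hu⟩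
      rwa [wd_eq_wtp hk n W e hu]
  rw [h1, measureReal_biUnion_finset]
  · rw [Finset.sum_filter]
    refine Finset.sum_congr rfl fun e _ => ?_
    rw [mo_ct]
    split_ifs <;> simp
  · intro e he e' he' hne
    rw [Function.onFun, Set.disjoint_left]
    intro u hu hu'
    simp only [Finset.coe_filter, Finset.mem_range, Set.mem_ofPred_eq] at he he'
    exact hne (box_inj hk n W he.1 he'.1 hu hu')
  · intro e _
    exact measurable_box hk n W e

theorem primrec_K : Primrec fun W : ℕ => k ^ (2 * W + 1) :=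
  HK.primrec_pow.comp (Primrec.const k) HK.I_MEASW.primrec_len

theorem primrec_dgt : Primrec fun p : (ℕ × ℕ) × ℕ => dgt k p.1.1 p.1.2 p.2 :=
  Primrec.nat_mod.comp
    (Primrec.nat_div.comp (Primrec.snd.comp Primrec.fst)
      (HK.primrec_pow.comp (primrec_K.comp (Primrec.fst.comp Primrec.fst)) Primrec.snd))
    (primrec_K.comp (Primrec.fst.comp Primrec.fst))

theorem primrec_dgt_fin : Primrec fun p : (ℕ × ℕ) × Fin n => dgt k p.1.1 p.1.2 p.2 :=
  primrec_dgt.comp (Primrec.fst.pair (Primrec.fin_val.comp Primrec.snd))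

theorem primrec_wtp (hk : 0 < k) : Primrec fun p : ℕ × ℕ => wtp hk n p.1 p.2 := by
  refine Primrec.fin_curry.2 ?_
  exact ((HK.I_MEASW.primrec_word hk).comp (Primrec.fst.comp Primrec.fst)
    primrec_dgt_fin).to₂

theorem primrec_ct (hk : 0 < k) : Primrec fun p : ℕ × ℕ => ct hk n p.1 p.2 := by
  refine Primrec.list_map (Primrec.const (List.finRange n)) ?_
  exact (Primrec.snd.pair ((HK.I_MEASW.primrec_con hk).comp (Primrec.fst.comp Primrec.fst)
    primrec_dgt_fin)).to₂

end I_KMW

open I_KMW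

theorem KMW_pf : S_KMW := by
  classical
  intro S hS k n β _ m H W hm hW hH
  rcases Nat.eq_zero_or_pos k with rfl | hk
  · rcases Nat.eq_zero_or_pos n with rfl | hn
    · refine (HK.ArR.ind hS (P := fun b : β => H b fun i => i.elim0) ?_).congr fun b => ?_
      · exact Ar.comp hS hH (f := fun b : β => (b, (fun i => i.elim0 : Fin 0 → List (Fin 0))))
          (Primrec.id.pair (Primrec.const _))
      · have h1 : ∀ u : Fin 0 → Om 0, (fun i => HK.wd (W b) (u i)) =
            (fun i => i.elim0 : Fin 0 → List (Fin 0)) := fun u => funext fun i => i.elim0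
        by_cases h2 : H b fun i => i.elim0
        · have h3 : {u : Fin 0 → Om 0 | H b fun i => HK.wd (W b) (u i)} = Set.univ := by
            ext u
            simp only [Set.mem_ofPred_eq, Set.mem_univ, iff_true]
            rw [h1]
            exact h2
          rw [h3, if_pos h2]
          simp
        · have h3 : {u : Fin 0 → Om 0 | H b fun i => HK.wd (W b) (u i)} = ∅ := by
            ext u
            simp only [Set.mem_ofPred_eq, Set.mem_empty_iff_false, iff_false]
            rw [h1]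
            exact h2
          rw [h3, if_neg h2]
          simp
    · have hβ : IsEmpty β := ⟨fun b => by
        have : IsEmpty (Fin n → Om 0) := ⟨fun z => ((z ⟨0, hn⟩) 0).elim0⟩
        have h1 : ((m b : Measure (Fin n → Om 0)) Set.univ) = 1 := measure_univ
        rw [Set.eq_empty_of_isEmpty (Set.univ : Set (Fin n → Om 0)), measure_empty] at h1
        exact zero_ne_one h1⟩
      exact (HK.ArR.zero hS).congr fun b => (hβ.false b).elim
  · have hm' : ArR S fun p : β × TF.ι (Fin n → Om k) => mo (m p.1) p.2 := by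
      have h := (CP.sc_iff (α := Fin n → Om k) S hS β m).1 hm
      exact h
    have h1 : ArR S fun b : β => ∑ e ∈ Finset.range ((k ^ (2 * W b + 1)) ^ n),
        (if H b (wtp hk n (W b) e) then (1 : ℝ) else 0) *
          mo (m b) (ct hk n (W b) e : TF.ι (Fin n → Om k)) := by
      have hWe : ArF S fun q : β × ℕ => (W q.1, q.2) :=
        (hW.comp hS (ArF.fst hS)).pair hS (ArF.snd hS)
      refine HK.ArR.sum hS (f := fun (b : β) e =>
        (if H b (wtp hk n (W b) e) then (1 : ℝ) else 0) *
          mo (m b) (ct hk n (W b) e : TF.ι (Fin n → Om k))) ?_ ?_ ?_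
      · refine HK.ArR.mul hS ?_ ?_ ?_ ?_
        · refine HK.ArR.ind hS (P := fun q : β × ℕ => H q.1 (wtp hk n (W q.1) q.2)) ?_
          refine Ar.sub hS hH (f := fun q : β × ℕ => (q.1, wtp hk n (W q.1) q.2)) ?_
          exact (ArF.fst hS).pair hS ((ArF.of_primrec hS (primrec_wtp hk)).comp hS hWe)
        · refine HK.ArR.sub hS hm' (g := fun q : β × ℕ =>
            (q.1, (ct hk n (W q.1) q.2 : TF.ι (Fin n → Om k)))) ?_
          exact (ArF.fst hS).pair hS ((ArF.of_primrec hS (primrec_ct hk)).comp hS hWe)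
        · intro q; split_ifs <;> norm_num
        · intro q; exact mo_nn _ _
      · intro p e
        refine mul_nonneg ?_ (mo_nn _ _)
        split_ifs <;> norm_num
      · exact (ArF.of_primrec hS (HK.primrec_pow.comp primrec_K (Primrec.const n))).comp hS hW
    exact h1.congr fun b => measure_eq hk n (W b) (m b) (H b)

end Pool.Agent.Work.MP_69fea5_lc.W3
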