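import Pool.Agent.Work.MP_69fea5_lc.W3.StmtsK
import Pool.Agent.Work.MP_69fea5_lc.W3.CodL

/-!
# Item [69fea5 K KPD]: polynomials in test functions are dense
-/

set_option autoImplicit false
set_option linter.unusedSectionVars false

namespace Pool.Agent.Work.MP_69fea5_lc.W3

open MeasureTheory Topology Set Filter TopologicalSpace ProbabilityTheory
open scoped NNReal ENNReal
open Pool.Agent.Work.MP_69fea5_lc.AK
open Pool.Agent.Work.MP_69fea5_lc.HK (Cl DU Ar ArF ArR Dat Law LawC act near sc Pt oc Mn mr ext)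
open Pool.Agent.Work.MP_69fea5_lc.KC (Agree)

namespace I_KPD

variable {X V : Type} [TopologicalSpace X] [CompactSpace X] [TopologicalSpace V] [Dat V] [TF V]

/-- approximable by polynomials -/
def Ap (e : X → V) (f : C(X, ℝ)) : Prop :=
  ∀ ε : ℝ, 0 < ε → ∃ c : Pcd V, ∀ x, |pev c (e x) - f x| ≤ ε

theorem exists_cf (r : ℝ) {ε : ℝ} (he : 0 < ε) : ∃ a : ℕ × ℕ × ℕ, |cf a - r| ≤ ε := by
  obtain ⟨q, h1, h2⟩ := exists_rat_btwn (show r - ε < r + ε by linarith)
  refine ⟨(q.num.toNat, (-q.num).toNat, q.den - 1), ?_⟩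
  have h3 : cf (q.num.toNat, (-q.num).toNat, q.den - 1) = (q : ℝ) := by
    unfold cf
    have h4 : ((q.den - 1 : ℕ) : ℝ) + 1 = (q.den : ℝ) := by
      rw [Nat.cast_sub q.pos]
      simp
    have h5 : ((q.num.toNat : ℕ) : ℝ) - (((-q.num).toNat : ℕ) : ℝ) = (q.num : ℝ) := by
      have h6 : ((q.num.toNat : ℕ) : ℤ) - (((-q.num).toNat : ℕ) : ℤ) = q.num := by omega
      exact_mod_cast congrArg (fun z : ℤ => (z : ℝ)) h6
    simp only
    rw [h4, h5]
    exact (Rat.cast_def q).symm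
  rw [h3, abs_le]
  constructor <;> linarith

theorem Ap.add {e : X → V} {f g : C(X, ℝ)} (hf : Ap e f) (hg : Ap e g) : Ap e (f + g) := by
  intro ε he
  obtain ⟨c, hc⟩ := hf (ε / 2) (by linarith)
  obtain ⟨d, hd⟩ := hg (ε / 2) (by linarith)
  refine ⟨c ++ d, fun x => ?_⟩
  rw [pev_append, ContinuousMap.add_apply]
  have h1 := abs_add_le (pev c (e x) - f x) (pev d (e x) - g x)
  have h2 : pev c (e x) + pev d (e x) - (f x + g x) =
      (pev c (e x) - f x) + (pev d (e x) - g x) := by ring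
  rw [h2]
  linarith [hc x, hd x]

theorem Ap.mul {e : X → V} {f g : C(X, ℝ)} (hf : Ap e f) (hg : Ap e g) : Ap e (f * g) := by
  intro ε he
  have hD : 0 < ‖f‖ + ‖g‖ + 1 := by positivity
  obtain ⟨δ, hδ⟩ : ∃ δ : ℝ, δ = min 1 (ε / (‖f‖ + ‖g‖ + 1)) := ⟨_, rfl⟩
  have hδ0 : 0 < δ := by
    rw [hδ]
    positivity
  have hδ1 : δ ≤ 1 := by
    rw [hδ]
    exact min_le_left _ _
  have hδe : δ * (‖f‖ + ‖g‖ + 1) ≤ ε := by
    have : δ ≤ ε / (‖f‖ + ‖g‖ + 1) := by
      rw [hδ]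
      exact min_le_right _ _
    rwa [le_div_iff₀ hD] at this
  obtain ⟨c, hc⟩ := hf δ hδ0
  obtain ⟨d, hd⟩ := hg δ hδ0
  refine ⟨pmul c d, fun x => ?_⟩
  rw [pev_pmul, ContinuousMap.mul_apply]
  have hfx : |f x| ≤ ‖f‖ := by
    rw [← Real.norm_eq_abs]
    exact ContinuousMap.norm_coe_le_norm f x
  have hgx : |g x| ≤ ‖g‖ := by
    rw [← Real.norm_eq_abs]
    exact ContinuousMap.norm_coe_le_norm g x
  have h2 : pev c (e x) * pev d (e x) - f x * g x =
      (pev c (e x) - f x) * (pev d (e x) - g x) + (pev c (e x) - f x) * g x +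
        f x * (pev d (e x) - g x) := by ring
  rw [h2]
  refine (abs_add_le _ _).trans ?_
  refine (add_le_add (abs_add_le _ _) le_rfl).trans ?_
  rw [abs_mul, abs_mul, abs_mul]
  have a1 : |pev c (e x) - f x| * |pev d (e x) - g x| ≤ δ * 1 :=
    mul_le_mul (hc x) ((hd x).trans hδ1) (abs_nonneg _) hδ0.le
  have a2 : |pev c (e x) - f x| * |g x| ≤ δ * ‖g‖ :=
    mul_le_mul (hc x) hgx (abs_nonneg _) hδ0.le
  have a3 : |f x| * |pev d (e x) - g x| ≤ ‖f‖ * δ :=
    mul_le_mul hfx (hd x) (abs_nonneg _) (norm_nonneg _)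
  linarith

theorem Ap.const (e : X → V) (r : ℝ) : Ap e (algebraMap ℝ C(X, ℝ) r) := by
  intro ε he
  obtain ⟨a, ha⟩ := exists_cf r he
  refine ⟨[(a, TF.one)], fun x => ?_⟩
  rw [pev_cons, pev_nil, TF.fn_one]
  simp only [mul_one, add_zero]
  exact ha

theorem Ap.fn {e : X → V} (i : TF.ι V) {f : C(X, ℝ)} (hf : ∀ x, f x = TF.fn i (e x)) :
    Ap e f := by
  intro ε he
  refine ⟨[((1, 0, 0), i)], fun x => ?_⟩
  rw [pev_cons, pev_nil, hf]
  simp only [cf]
  norm_num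
  exact he.le

end I_KPD

open I_KPD in
theorem KPD_pf : S_KPD := by
  intro X V _ _ _ _ _ e g he hinj hg hg01 ε hε
  obtain ⟨δ, hδ⟩ : ∃ δ : ℝ, δ = min ε 1 := ⟨_, rfl⟩
  have hδ0 : 0 < δ := by
    rw [hδ]
    exact lt_min hε one_pos
  have hδ1 : δ ≤ 1 := by
    rw [hδ]
    exact min_le_right _ _
  have hδε : δ ≤ ε := by
    rw [hδ]
    exact min_le_left _ _
  obtain ⟨s, hs⟩ : ∃ s : Set C(X, ℝ), s = {f | ∃ i : TF.ι V, ∀ x, f x = TF.fn i (e x)} := ⟨_, rfl⟩
  have hap : ∀ f ∈ Algebra.adjoin ℝ s, Ap e f := by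
    intro f hf
    induction hf using Algebra.adjoin_induction with
    | mem f hf =>
      rw [hs] at hf
      obtain ⟨i, hi⟩ := hf
      exact Ap.fn i hi
    | algebraMap r => exact Ap.const e r
    | add f f' _ _ h1 h2 => exact h1.add h2
    | mul f f' _ _ h1 h2 => exact h1.mul h2
  have hsep : (Algebra.adjoin ℝ s).SeparatesPoints := by
    intro x y hxy
    have h1 : ∃ i : TF.ι V, TF.fn i (e x) ≠ TF.fn i (e y) := by
      by_contra hcon
      push Not at hcon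
      exact hxy (hinj (TF.sep _ _ hcon))
    obtain ⟨i, hi⟩ := h1
    obtain ⟨f, hf⟩ : ∃ f : C(X, ℝ), ∀ x, f x = TF.fn i (e x) :=
      ⟨⟨fun x => TF.fn i (e x), (TF.cont i).comp he⟩, fun x => rfl⟩
    refine ⟨fun x => f x, ⟨f, Algebra.subset_adjoin ?_, rfl⟩, ?_⟩
    · rw [hs]
      exact ⟨i, hf⟩
    · simp only
      rw [hf, hf]
      exact hi
  have hc : Continuous fun x => δ / 2 + (1 - δ) * g x := by fun_prop
  obtain ⟨f, hf⟩ := ContinuousMap.exists_mem_subalgebra_near_continuous_of_separatesPoints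
    (Algebra.adjoin ℝ s) hsep _ hc (δ / 4) (by linarith)
  obtain ⟨c, hcf⟩ := hap f.1 f.2 (δ / 4) (by linarith)
  have hmain : ∀ x, |pev c (e x) - (δ / 2 + (1 - δ) * g x)| ≤ δ / 2 := by
    intro x
    have h1 := hf x
    rw [Real.norm_eq_abs] at h1
    have h2 := hcf x
    have h3 : pev c (e x) - (δ / 2 + (1 - δ) * g x) = (pev c (e x) - (f : C(X, ℝ)) x) +
        ((f : C(X, ℝ)) x - (δ / 2 + (1 - δ) * g x)) := by ring
    rw [h3]
    refine (abs_add_le _ _).trans ?_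
    linarith
  refine ⟨c, fun x => ?_, fun x => ?_⟩
  · have h1 := abs_le.mp (hmain x)
    obtain ⟨h2, h3⟩ := hg01 x
    constructor
    · nlinarith [h1.1, mul_nonneg (sub_nonneg.mpr hδ1) h2]
    · nlinarith [h1.2, mul_nonneg (sub_nonneg.mpr hδ1) (sub_nonneg.mpr h3)]
  · have h1 := abs_le.mp (hmain x)
    obtain ⟨h2, h3⟩ := hg01 x
    rw [abs_le]
    constructor
    · nlinarith [h1.1]
    · nlinarith [h1.2]

end Pool.Agent.Work.MP_69fea5_lc.W3
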