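import Pool.Agent.Work.MP_69fea5_lc.W3.StmtsK
import Pool.Agent.Work.MP_69fea5_lc.W3.CodL

/-!
# Item [69fea5 K KPM]: approximation of the conditional masses in `L²`
-/

set_option autoImplicit false

namespace Pool.Agent.Work.MP_69fea5_lc.W3

open MeasureTheory Topology Set Filter TopologicalSpace ProbabilityTheory
open scoped NNReal ENNReal
open Pool.Agent.Work.MP_69fea5_lc.AK
open Pool.Agent.Work.MP_69fea5_lc.HK (Cl DU Ar ArF ArR Dat Law LawC act near sc Pt oc Mn mr ext)
open Pool.Agent.Work.MP_69fea5_lc.KC (Agree)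

namespace I_KPM

theorem meas_coe {k : ℕ} {B : Set (Om k)} (hB : MeasurableSet B) :
    Measurable fun m : PM k => (m : Measure (Om k)) B := Kernel.measurable_coe (evK k) hB

theorem meas_real {k : ℕ} {B : Set (Om k)} (hB : MeasurableSet B) :
    Measurable fun m : PM k => (m : Measure (Om k)).real B := (meas_coe hB).ennreal_toReal

section

variable {k : ℕ} {X : Type} [TopologicalSpace X] [MeasurableSpace X] [CS X]

/-- the conditional mass is the mean of the masses -/
theorem real_evK (χ : Kernel X (PM k)) (v : X) {B : Set (Om k)} (hB : MeasurableSet B) :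
    ((evK k ∘ₖ χ) v).real B = ∫ m, (m : Measure (Om k)).real B ∂(χ v) := by
  rw [Measure.real, Kernel.comp_apply' _ _ _ hB]
  exact (integral_toReal (meas_coe hB).aemeasurable
    (Eventually.of_forall fun m : PM k => measure_lt_top (m : Measure (Om k)) B)).symm

/-- the integral against `θ` -/
theorem int_prod (lam : ProbabilityMeasure X) (θ : ProbabilityMeasure (X × PM k))
    (χ : Kernel X (PM k)) [IsMarkovKernel χ]
    (hd : (θ : Measure (X × PM k)) = (lam : Measure X) ⊗ₘ χ) {B : Set (Om k)}
    (hB : MeasurableSet B) (p : X → ℝ) (hp : Measurable p) (hp0 : ∀ x, 0 ≤ p x)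
    (hp1 : ∀ x, p x ≤ 1) :
    ∫ z, p z.1 * (z.2 : Measure (Om k)).real B ∂(θ : Measure (X × PM k)) =
      ∫ v, p v * ((evK k ∘ₖ χ) v).real B ∂(lam : Measure X) := by
  rw [hd, Measure.integral_compProd]
  · refine integral_congr_ae (Eventually.of_forall fun v => ?_)
    change ∫ m, p v * (m : Measure (Om k)).real B ∂(χ v) = p v * ((evK k ∘ₖ χ) v).real B
    rw [integral_const_mul, real_evK χ v hB]
  · refine Integrable.of_bound (C := 1) ?_ (Eventually.of_forall fun z => ?_)
    · exact ((hp.comp measurable_fst).mul ((meas_real hB).comp measurable_snd)).aestronglyMeasurable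
    · have h1 : 0 ≤ (z.2 : Measure (Om k)).real B := measureReal_nonneg
      have h2 : (z.2 : Measure (Om k)).real B ≤ 1 := measureReal_le_one
      rw [Real.norm_eq_abs, abs_of_nonneg (mul_nonneg (hp0 _) h1)]
      exact mul_le_one₀ (hp1 _) h1 h2

end

end I_KPM

theorem KPM_pf (hKPD : S_KPD) : S_KPM := by
  intro k X V _ _ _ _ _ _ e he hinj lam θ χ _ hd B hB J c ε hc hε hmin
  haveI hmE : IsMarkovKernel (evK k) := ⟨fun m => m.2⟩
  set q : X → ℝ := fun v => ((evK k ∘ₖ χ) v).real B with hq
  have hqm : Measurable q := (Kernel.measurable_coe (evK k ∘ₖ χ) hB).ennreal_toReal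
  have hq0 : ∀ v, 0 ≤ q v := fun v => measureReal_nonneg
  have hq1 : ∀ v, q v ≤ 1 := fun v => measureReal_le_one
  have hqi : Integrable q (lam : Measure X) :=
    Integrable.of_bound (C := 1) hqm.aestronglyMeasurable (Eventually.of_forall fun v => by
      rw [Real.norm_eq_abs, abs_of_nonneg (hq0 v)]; exact hq1 v)
  -- the value of `J`
  have hpm : ∀ c' : Pcd V, Measurable fun v => pev c' (e v) := fun c' =>
    ((continuous_pev c').comp he).measurable
  have hJ : ∀ c' : Pcd V, (∀ x, 0 ≤ pev c' (e x) ∧ pev c' (e x) ≤ 1) →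
      J c' = ∫ v, (pev c' (e v) - q v) ^ 2 ∂(lam : Measure X) -
        ∫ v, q v ^ 2 ∂(lam : Measure X) := by
    intro c' hc'
    have hb : ∀ f : X → ℝ, Measurable f → (∀ v, 0 ≤ f v ∧ f v ≤ 1) →
        Integrable f (lam : Measure X) := fun f hf hf1 =>
      Integrable.of_bound (C := 1) hf.aestronglyMeasurable (Eventually.of_forall fun v => by
        rw [Real.norm_eq_abs, abs_of_nonneg (hf1 v).1]; exact (hf1 v).2)
    have i1 : Integrable (fun v => pev c' (e v) ^ 2) (lam : Measure X) :=
      hb _ ((hpm c').pow_const 2) fun v => ⟨sq_nonneg _, pow_le_one₀ (hc' v).1 (hc' v).2⟩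
    have i2 : Integrable (fun v => pev c' (e v) * q v) (lam : Measure X) :=
      hb _ ((hpm c').mul hqm) fun v => ⟨mul_nonneg (hc' v).1 (hq0 v),
        mul_le_one₀ (hc' v).2 (hq0 v) (hq1 v)⟩
    have i3 : Integrable (fun v => q v ^ 2) (lam : Measure X) :=
      hb _ (hqm.pow_const 2) fun v => ⟨sq_nonneg _, pow_le_one₀ (hq0 v) (hq1 v)⟩
    have e1 : ∫ v, (pev c' (e v) - q v) ^ 2 ∂(lam : Measure X) =
        ∫ v, pev c' (e v) ^ 2 ∂(lam : Measure X) -
          2 * ∫ v, pev c' (e v) * q v ∂(lam : Measure X) +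
          ∫ v, q v ^ 2 ∂(lam : Measure X) := by
      have i4 : Integrable (fun v => pev c' (e v) ^ 2 - 2 * (pev c' (e v) * q v))
        (lam : Measure X) := i1.sub (i2.const_mul 2)
      rw [← integral_const_mul, ← integral_sub i1 (i2.const_mul 2), ← integral_add i4 i3]
      refine integral_congr_ae (Eventually.of_forall fun v => ?_)
      beta_reduce
      ring
    change ∫ v, pev c' (e v) ^ 2 ∂(lam : Measure X) -
      2 * ∫ p, pev c' (e p.1) * (p.2 : Measure (Om k)).real B ∂(θ : Measure (X × PM k)) = _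
    rw [I_KPM.int_prod lam θ χ hd hB (fun v => pev c' (e v)) (hpm c') (fun x => (hc' x).1)
      (fun x => (hc' x).2), e1]
    ring
  -- good codes
  have hgood : ∀ δ : ℝ, 0 < δ → ∃ c' : Pcd V, (∀ x, 0 ≤ pev c' (e x) ∧ pev c' (e x) ≤ 1) ∧
      ∫ v, (pev c' (e v) - q v) ^ 2 ∂(lam : Measure X) ≤ δ := by
    intro δ hδ
    obtain ⟨g, hg, hgi⟩ := hqi.exists_boundedContinuous_integral_sub_le (half_pos hδ)
    set g' : X → ℝ := fun v => max 0 (min 1 (g v)) with hg'
    have hg'c : Continuous g' := continuous_const.max (continuous_const.min g.continuous)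
    have hg'0 : ∀ v, 0 ≤ g' v := fun v => le_max_left _ _
    have hg'1 : ∀ v, g' v ≤ 1 := fun v => max_le zero_le_one (min_le_left _ _)
    obtain ⟨c', hc', hca⟩ := hKPD X V e g' he hinj hg'c (fun x => ⟨hg'0 x, hg'1 x⟩) (δ / 2)
      (half_pos hδ)
    refine ⟨c', hc', ?_⟩
    have hdist : ∀ v, |g' v - q v| ≤ |q v - g v| := by
      intro v
      have h0 := hq0 v
      have h1 := hq1 v
      rw [hg']
      beta_reduce
      rcases le_total (g v) 0 with h | h
      · rw [min_eq_right (h.trans zero_le_one), max_eq_left h, zero_sub, abs_neg,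
          abs_of_nonneg h0, abs_of_nonneg (by linarith)]
        linarith
      · rcases le_total (g v) 1 with h' | h'
        · rw [min_eq_right h', max_eq_right h, abs_sub_comm]
        · rw [min_eq_left h', max_eq_right zero_le_one, abs_of_nonneg (by linarith),
            abs_sub_comm, abs_of_nonneg (by linarith)]
          linarith
    have hpt : ∀ v, (pev c' (e v) - q v) ^ 2 ≤ δ / 2 + ‖q v - g v‖ := by
      intro v
      have h0 := hq0 v
      have h1 := hq1 v
      have h2 := hc' v
      have h3 : |pev c' (e v) - q v| ≤ 1 := abs_le.2 ⟨by linarith, by linarith⟩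
      have h4 : (pev c' (e v) - q v) ^ 2 ≤ |pev c' (e v) - q v| := by
        rw [← sq_abs, sq]
        exact mul_le_of_le_one_left (abs_nonneg _) h3
      have h5 : |pev c' (e v) - q v| ≤ |pev c' (e v) - g' v| + |g' v - q v| :=
        abs_sub_le _ _ _
      have h6 := hca v
      have h7 := hdist v
      rw [Real.norm_eq_abs]
      linarith
    have hi : Integrable (fun v => (pev c' (e v) - q v) ^ 2) (lam : Measure X) := by
      refine Integrable.of_bound (C := 1) (((hpm c').sub hqm).pow_const 2).aestronglyMeasurable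
        (Eventually.of_forall fun v => ?_)
      have h0 := hq0 v
      have h1 := hq1 v
      have h2 := hc' v
      rw [Real.norm_eq_abs, abs_of_nonneg (sq_nonneg _), ← sq_abs]
      exact pow_le_one₀ (abs_nonneg _) (abs_le.2 ⟨by linarith, by linarith⟩)
    calc ∫ v, (pev c' (e v) - q v) ^ 2 ∂(lam : Measure X)
        ≤ ∫ v, (δ / 2 + ‖q v - g v‖) ∂(lam : Measure X) :=
          integral_mono hi ((integrable_const _).add (hqi.sub hgi).norm) hpt
      _ = δ / 2 + ∫ v, ‖q v - g v‖ ∂(lam : Measure X) := by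
          have hh := integral_add (μ := (lam : Measure X)) (f := fun _ : X => δ / 2)
            (g := fun v => ‖q v - g v‖) (integrable_const _) (hqi.sub hgi).norm
          rw [hh]
          simp
      _ ≤ δ := by linarith
  refine le_of_forall_pos_le_add fun δ hδ => ?_
  obtain ⟨c', hc', hc2⟩ := hgood δ hδ
  have h1 := hmin c' hc'
  rw [hJ c hc, hJ c' hc'] at h1
  linarith

end Pool.Agent.Work.MP_69fea5_lc.W3
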