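import Pool.Agent.Work.MP_69fea5_lc.W3.StmtsK

/-!
# Block [69fea5 K], item KPR: products
-/

set_option autoImplicit false

namespace Pool.Agent.Work.MP_69fea5_lc.W3

open MeasureTheory Topology Set Filter TopologicalSpace ProbabilityTheory
open scoped NNReal ENNReal

namespace I_KPR

theorem prod_sub {ι : Type} (s : Finset ι) (a b : ι → ℝ) (ha : ∀ i, 0 ≤ a i ∧ a i ≤ 1)
    (hb : ∀ i, 0 ≤ b i ∧ b i ≤ 1) : |∏ i ∈ s, a i - ∏ i ∈ s, b i| ≤ ∑ i ∈ s, |a i - b i| := by
  classical
  induction s using Finset.induction_on with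
  | empty => simp
  | insert i s hi ih =>
    rw [Finset.prod_insert hi, Finset.prod_insert hi, Finset.sum_insert hi]
    have e : a i * ∏ j ∈ s, a j - b i * ∏ j ∈ s, b j =
        (a i - b i) * ∏ j ∈ s, a j + b i * (∏ j ∈ s, a j - ∏ j ∈ s, b j) := by ring
    rw [e]
    refine (abs_add_le _ _).trans (add_le_add ?_ ?_)
    · rw [abs_mul]
      refine mul_le_of_le_one_right (abs_nonneg _) ?_
      rw [abs_of_nonneg (Finset.prod_nonneg fun j _ => (ha j).1)]
      exact Finset.prod_le_one (fun j _ => (ha j).1) fun j _ => (ha j).2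
    · rw [abs_mul, abs_of_nonneg (hb i).1]
      exact (mul_le_of_le_one_left (abs_nonneg _) (hb i).2).trans ih

theorem prod_mem {ι : Type} (s : Finset ι) (a : ι → ℝ) (ha : ∀ i, 0 ≤ a i ∧ a i ≤ 1) :
    |∏ i ∈ s, a i| ≤ 1 := by
  rw [abs_of_nonneg (Finset.prod_nonneg fun j _ => (ha j).1)]
  exact Finset.prod_le_one (fun j _ => (ha j).1) fun j _ => (ha j).2

theorem int_of_bdd {Y : Type} [MeasurableSpace Y] (μ : Measure Y) [IsFiniteMeasure μ] (f : Y → ℝ)
    (hf : Measurable f) (C : ℝ) (hC : ∀ y, |f y| ≤ C) : Integrable f μ :=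
  Integrable.of_bound hf.aestronglyMeasurable C (Eventually.of_forall hC)

theorem l1_le {X : Type} [MeasurableSpace X] (lam : ProbabilityMeasure X) (g : X → ℝ)
    (hg : Measurable g) (hb : ∀ x, |g x| ≤ 1) (ε : ℝ) (hε : 0 ≤ ε)
    (h : ∫ x, g x ^ 2 ∂(lam : Measure X) ≤ ε ^ 2) : ∫ x, |g x| ∂(lam : Measure X) ≤ ε := by
  set m := ∫ x, |g x| ∂(lam : Measure X) with hm
  have i1 : Integrable (fun x => |g x|) (lam : Measure X) :=
    int_of_bdd _ _ hg.abs 1 fun x => by rw [abs_abs]; exact hb x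
  have i2 : Integrable (fun x => g x ^ 2) (lam : Measure X) :=
    int_of_bdd _ _ (hg.pow_const 2) 1 fun x => by
      rw [abs_pow]
      exact pow_le_one₀ (abs_nonneg _) (hb x)
  have h0 : 0 ≤ ∫ x, (|g x| - m) ^ 2 ∂(lam : Measure X) :=
    integral_nonneg fun x => sq_nonneg _
  have e : (fun x => (|g x| - m) ^ 2) = fun x => (g x ^ 2 - 2 * m * |g x|) + m ^ 2 := by
    funext x
    rw [sub_sq, sq_abs]
    ring
  have i3 : Integrable (fun x => 2 * m * |g x|) (lam : Measure X) := i1.const_mul _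
  have i4 : Integrable (fun x => g x ^ 2 - 2 * m * |g x|) (lam : Measure X) := i2.sub i3
  rw [e, integral_add i4 (integrable_const _), integral_sub i2 i3, integral_const_mul,
    integral_const] at h0
  simp only [probReal_univ, smul_eq_mul, one_mul] at h0
  rw [← hm] at h0
  have hm0 : 0 ≤ m := integral_nonneg fun x => abs_nonneg _
  nlinarith [abs_nonneg m]

end I_KPR

open I_KPR in
theorem KPR_pf : S_KPR := by
  intro X ι _ _ lam Q C hQ p q hp hq hp1 hq1 ε hε h
  have hmeas : ∀ i, Measurable fun z : ι → X => z i := fun i => measurable_pi_apply i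
  have hle : ∀ i, (Q : Measure (ι → X)).map (fun z => z i) ≤ C • (lam : Measure X) := by
    intro i
    refine Measure.le_iff.2 fun A hA => ?_
    rw [Measure.map_apply (hmeas i) hA]
    have h1 := hQ i A hA
    have h2 : ((Q {z | z i ∈ A} : ℝ≥0) : ℝ≥0∞) ≤ ((C * lam A : ℝ≥0) : ℝ≥0∞) := by
      exact_mod_cast h1
    rw [ENNReal.coe_mul, ProbabilityMeasure.ennreal_coeFn_eq_coeFn_toMeasure,
      ProbabilityMeasure.ennreal_coeFn_eq_coeFn_toMeasure] at h2
    exact h2
  have hb : ∀ i x, |p i x - q i x| ≤ 1 := fun i x => by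
    have := hp1 i x
    have := hq1 i x
    rw [abs_le]
    constructor <;> linarith
  have hone : ∀ i, ∫ z, |p i (z i) - q i (z i)| ∂(Q : Measure (ι → X)) ≤ C * ε := by
    intro i
    have hm : Measurable fun x => |p i x - q i x| := ((hp i).sub (hq i)).abs
    have e1 : ∫ z, |p i (z i) - q i (z i)| ∂(Q : Measure (ι → X)) =
        ∫ x, |p i x - q i x| ∂((Q : Measure (ι → X)).map fun z => z i) :=
      (integral_map (hmeas i).aemeasurable hm.aestronglyMeasurable).symm
    rw [e1]
    have e2 : ∫ x, |p i x - q i x| ∂((Q : Measure (ι → X)).map fun z => z i) ≤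
        ∫ x, |p i x - q i x| ∂(C • (lam : Measure X)) :=
      integral_mono_measure (hle i) (Eventually.of_forall fun x => abs_nonneg _)
        (int_of_bdd _ _ hm 1 fun x => by rw [abs_abs]; exact hb i x)
    refine e2.trans ?_
    rw [integral_smul_nnreal_measure]
    have e3 := l1_le lam (fun x => p i x - q i x) ((hp i).sub (hq i)) (hb i) ε hε (h i)
    rw [NNReal.smul_def, smul_eq_mul]
    exact mul_le_mul_of_nonneg_left e3 C.2
  have ip : Integrable (fun z : ι → X => ∏ i, p i (z i)) (Q : Measure (ι → X)) :=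
    int_of_bdd _ _ (Finset.measurable_prod _ fun i _ => (hp i).comp (hmeas i)) 1 fun z =>
      prod_mem _ _ fun i => hp1 i (z i)
  have iq : Integrable (fun z : ι → X => ∏ i, q i (z i)) (Q : Measure (ι → X)) :=
    int_of_bdd _ _ (Finset.measurable_prod _ fun i _ => (hq i).comp (hmeas i)) 1 fun z =>
      prod_mem _ _ fun i => hq1 i (z i)
  have is : ∀ i, Integrable (fun z : ι → X => |p i (z i) - q i (z i)|) (Q : Measure (ι → X)) :=
    fun i => int_of_bdd _ _ (((hp i).comp (hmeas i)).sub ((hq i).comp (hmeas i))).abs 1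
      fun z => by rw [abs_abs]; exact hb i (z i)
  rw [← integral_sub ip iq]
  calc |∫ z, (∏ i, p i (z i) - ∏ i, q i (z i)) ∂(Q : Measure (ι → X))|
      ≤ ∫ z, |∏ i, p i (z i) - ∏ i, q i (z i)| ∂(Q : Measure (ι → X)) :=
        abs_integral_le_integral_abs
    _ ≤ ∫ z, ∑ i, |p i (z i) - q i (z i)| ∂(Q : Measure (ι → X)) :=
        integral_mono (ip.sub iq).abs (integrable_finsetSum _ fun i _ => is i) fun z =>
          prod_sub _ _ _ (fun i => hp1 i (z i)) fun i => hq1 i (z i)
    _ = ∑ i, ∫ z, |p i (z i) - q i (z i)| ∂(Q : Measure (ι → X)) :=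
        integral_finsetSum _ fun i _ => is i
    _ ≤ ∑ _i : ι, (C : ℝ) * ε := Finset.sum_le_sum fun i _ => hone i
    _ = C * Fintype.card ι * ε := by
        rw [Finset.sum_const, Finset.card_univ, nsmul_eq_mul]
        ring

end Pool.Agent.Work.MP_69fea5_lc.W3
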