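import Pool.Agent.Work.MP_69fea5_lc.W3.StmtsK
import Pool.Agent.Work.MP_69fea5_lc.W3.CodL

/-!
# Item KQC: the laws of progressions are coded
-/

set_option autoImplicit false

namespace Pool.Agent.Work.MP_69fea5_lc.W3

open MeasureTheory Topology Set Filter TopologicalSpace ProbabilityTheory
open scoped NNReal ENNReal
open Pool.Agent.Work.MP_69fea5_lc.AK
open Pool.Agent.Work.MP_69fea5_lc.HK (Cl DU Ar ArF ArR Dat Law LawC act near sc Pt oc Mn mr ext)
open Pool.Agent.Work.MP_69fea5_lc.KC (Agree)

namespace I_KQC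

/-- the law of a coordinate -/
theorem map_eval {X : Type} [TopologicalSpace X] [MeasurableSpace X] [CS X] [Sys X] {n : ℕ}
    {lam : Measure X} {c : ℝ≥0} {P : Measure (Fin n → X)}
    {K : Fin n → X → ProbabilityMeasure (Fin n → X)} (h : CLaw n lam c P K) (j : Fin n) :
    P.map (fun z => z j) = lam := by
  have : SecondCountableTopology X := W3D.secondCountable_of_CS X
  have hK : Measurable fun x => (K j x : Measure (Fin n → X)) :=
    measurable_subtype_coe.comp (h.cont j).measurable
  rw [← h.dis j]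
  ext A hA
  rw [Measure.map_apply (measurable_pi_apply j) hA,
    Measure.bind_apply ((measurable_pi_apply j) hA) hK.aemeasurable]
  have h1 : ∀ x, (K j x : Measure (Fin n → X)) ((fun z : Fin n → X => z j) ⁻¹' A) =
      A.indicator (fun _ => (1 : ℝ≥0∞)) x := by
    intro x
    by_cases hx : x ∈ A
    · rw [indicator_of_mem hx]
      have : ∀ᵐ z ∂(K j x : Measure (Fin n → X)), z ∈ ((fun z : Fin n → X => z j) ⁻¹' A) := by
        filter_upwards [h.car j x] with z hz
        show z j ∈ A
        rw [hz.1]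
        exact hx
      exact (mem_ae_iff_prob_eq_one ((measurable_pi_apply j) hA)).1 this
    · rw [indicator_of_notMem hx]
      refine measure_mono_null (fun z hz => ?_) (ae_iff.1 (h.car j x))
      intro h2
      exact hx (h2.1 ▸ hz)
  rw [lintegral_congr h1, lintegral_indicator hA]
  simp

end I_KQC

/-- [KQC] the laws of progressions are coded -/
theorem KQC_pf (hFAM : W3D.S_FAM) (hKKN : S_KKN) : S_KQC := by
  intro S U hS hU X _ _ _ _ I _ h r ρ hmin htow hr x₀ hx₀ lam P K hXI hXF
  have : SecondCountableTopology X := W3D.secondCountable_of_CS X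
  have : Nonempty X := ⟨x₀⟩
  have hrm : ∀ n : ℕ, Measurable fun (z : Fin n → X) (i : Fin n) => r h (z i) := fun n =>
    (continuous_pi fun i => (hr h le_rfl).1.comp (continuous_apply i)).measurable
  have one : ∀ n : ℕ, (1 : Fin n → ℤ) ∈ W3D.Lc n := fun n => ⟨1, 0, fun j => by simp⟩
  have key : ∀ (n : ℕ) (m : Fin n → ℕ), (∀ i, m i ≤ h) → ∀ Kf, W3D.Fam h
      (fun l x y => r l x = r l y) (W3D.Lc n) Kf →
      Pm S (fun (z : Fin n → X) (i : Fin n) => r h (z i))
        ((Kf m (dg (W3D.Lc n) x₀) : Measure (W3D.NN X (W3D.Lc n))).map fun v => v.1) := by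
    intro n m hm Kf hKf
    rw [pm_map (hrm n) measurable_subtype_coe]
    exact hKKN S U hS hU X I h r ρ hmin htow hr x₀ hx₀ n Kf hKf m hm
  constructor
  · obtain ⟨Kf, hKf⟩ := hFAM X h (fun l x y => r l x = r l y) ρ hmin htow (Fin 1) (W3D.Lc 1) (one 1)
    have h1 := key 1 0 (fun _ => Nat.zero_le _) Kf hKf
    rw [← (hXF 1 Kf hKf).1] at h1
    have h2 := pm_tmap hS (tmap_eval (V := Cube I) (κ := Fin 1) 0) (hrm 1) h1
    obtain ⟨c, Pc, Kc, hC, -⟩ := hXI.cube 1
    have h3 := I_KQC.map_eval hC 0
    rw [← h3, pm_map (hr h le_rfl).1.measurable (measurable_pi_apply 0)]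
    exact h2
  · intro n j
    obtain ⟨Kf, hKf⟩ := hFAM X h (fun l x y => r l x = r l y) ρ hmin htow (Fin n) (W3D.Lc n) (one n)
    have h1 := key n (fun i => if i = j then h else 0)
      (fun i => by
        show (if i = j then h else 0) ≤ h
        split <;> omega) Kf hKf
    rw [← (hXF n Kf hKf).2 j (fun i => if i = j then h else 0) (by simp)
      (fun i hi => by simp [hi]) (dg (W3D.Lc n) x₀)] at h1
    exact h1

end Pool.Agent.Work.MP_69fea5_lc.W3
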