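import Pool.Agent.Work.MP_69fea5_lc.W3.StmtsK
import Pool.Agent.Work.MP_69fea5_lc.W3.CodL
import Pool.Agent.Work.MP_69fea5_lc.W3.I_BRX
import Pool.Agent.Work.MP_69fea5_lc.W3.I_ENV
import Pool.Agent.Work.MP_69fea5_lc.W3.D_USC

/-!
Block [69fea5 K], item KST: the coded one step lemma.
-/

set_option autoImplicit false

namespace Pool.Agent.Work.MP_69fea5_lc.W3

open MeasureTheory Topology Set Filter TopologicalSpace ProbabilityTheory
open scoped NNReal ENNReal
open Pool.Agent.Work.MP_69fea5_lc.AK
open Pool.Agent.Work.MP_69fea5_lc.HK (Cl DU Ar ArF ArR Dat Law LawC act near sc Pt oc Mn mr ext)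
open Pool.Agent.Work.MP_69fea5_lc.KC (Agree)

namespace I_KST

/-! ### Integrals of continuous functions -/

section gen

variable {W V : Type} [TopologicalSpace W] [MeasurableSpace W] [CS W] [TopologicalSpace V]
  [MeasurableSpace V] [CS V]

theorem cint {g : W → ℝ} (hg : Continuous g) :
    Continuous fun m : ProbabilityMeasure W => ∫ z, g z ∂(m : Measure W) :=
  ProbabilityMeasure.continuous_integral_boundedContinuousFunction (X := W)
    (BoundedContinuousFunction.mkOfCompact ⟨g, hg⟩)

theorem pm_ext {m m' : ProbabilityMeasure W}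
    (h : ∀ g : W → ℝ, Continuous g → ∫ z, g z ∂(m : Measure W) = ∫ z, g z ∂(m' : Measure W)) :
    m = m' := by
  apply Subtype.ext
  have hm : IsFiniteMeasure m.val := by have := m.2; infer_instance
  have hm' : IsFiniteMeasure m'.val := by have := m'.2; infer_instance
  let _ : MetricSpace W := TopologicalSpace.metrizableSpaceMetric W
  exact ext_of_forall_integral_eq_of_IsFiniteMeasure fun f => h f f.continuous

/-- the image under `j` -/
noncomputable def J {j : W → V} (hj : Continuous j) (m : ProbabilityMeasure W) :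
    ProbabilityMeasure V := m.map (f := j) hj.measurable.aemeasurable

theorem cont_J {j : W → V} (hj : Continuous j) : Continuous (J hj) :=
  ProbabilityMeasure.continuous_map hj

theorem coe_J {j : W → V} (hj : Continuous j) (m : ProbabilityMeasure W) :
    (J hj m : Measure V) = (m : Measure W).map j := rfl

theorem int_J {j : W → V} (hj : Continuous j) (m : ProbabilityMeasure W) {g : V → ℝ}
    (hg : Continuous g) :
    ∫ z, g z ∂(J hj m : Measure V) = ∫ w, g (j w) ∂(m : Measure W) := by
  rw [coe_J, integral_map hj.measurable.aemeasurable hg.aestronglyMeasurable]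

theorem J_inj {j : W → V} (hj : Continuous j) (hi : Function.Injective j) :
    Function.Injective (J hj) := by
  intro m m' h
  have hc : IsClosedEmbedding j := hj.isClosedEmbedding hi
  have hme : MeasurableEmbedding j := hc.measurableEmbedding
  apply Subtype.ext
  have h1 : (m : Measure W).map j = (m' : Measure W).map j := congrArg Subtype.val h
  have h2 := congrArg (fun μ : Measure V => μ.comap j) h1
  simp only [hme.comap_map] at h2
  exact h2

theorem J_mxP {j : W → V} (hj : Continuous j) {ι : Type} (m : ι → ProbabilityMeasure W)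
    (p : ι × List ι) : J hj (mxP m p) = mxP (fun i => J hj (m i)) p := by
  refine pm_ext fun g hg => ?_
  rw [int_J hj _ hg, integral_mxP m p (fun w => g (j w)) (hg.comp hj), integral_mxP _ p _ hg]
  congr 2
  refine List.map_congr_left fun i _ => ?_
  exact (int_J hj _ hg).symm

end gen

section main

variable {G W : Type} [AddGroup G] [TopologicalSpace W] [MeasurableSpace W] [CS W]
  {a : G → W → W} {E E' : W → W → Prop} {ρ : W → W → ℝ} {κ' κ : W → ProbabilityMeasure W}

/-- the measures on the class of `w₀` which are mixtures of the `κ'` -/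
def Q (E : W → W → Prop) (κ' : W → ProbabilityMeasure W) (w₀ : W) :
    Set (ProbabilityMeasure W) :=
  {m | (m : Measure W) {y | ¬ E w₀ y} = 0 ∧
    ∀ u : C(W, ℝ), ∫ y, (∫ z, u z ∂(κ' y : Measure W)) ∂(m : Measure W) =
      ∫ z, u z ∂(m : Measure W)}

theorem cont_in (hK' : W3D.Ker a E' κ') {u : W → ℝ} (hu : Continuous u) :
    Continuous fun y => ∫ z, u z ∂(κ' y : Measure W) :=
  (cint hu).comp hK'.cont

theorem isClosed_Q (hI : W3D.Iso1 a E E' ρ) (hK' : W3D.Ker a E' κ') (w₀ : W) :
    IsClosed (Q E κ' w₀) := by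
  have h1 : IsClosed {m : ProbabilityMeasure W | (m : Measure W) {y | ¬ E w₀ y} = 0} := by
    have h := W3D.USC_pf W W {p : W × W | E p.1 p.2} hI.closed
    exact h.preimage (f := fun m : ProbabilityMeasure W => (w₀, m)) (by fun_prop)
  refine h1.inter ?_
  change IsClosed {m : ProbabilityMeasure W | ∀ u : C(W, ℝ),
    ∫ y, (∫ z, u z ∂(κ' y : Measure W)) ∂(m : Measure W) = ∫ z, u z ∂(m : Measure W)}
  rw [ofPred_forall]
  exact isClosed_iInter fun u => isClosed_eq (cint (cont_in hK' u.continuous))
    (cint u.continuous)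

theorem one_Q (hI : W3D.Iso1 a E E' ρ) (hK' : W3D.Ker a E' κ') {w₀ x : W} (hx : E w₀ x) :
    κ' x ∈ Q E κ' w₀ := by
  refine ⟨?_, fun u => ?_⟩
  · refine measure_mono_null ?_ (hK'.car x)
    intro y hy hy'
    exact hy (hI.eqv.trans hx ((hI.zero x y).mp hy').1)
  · have h1 : (fun y => ∫ z, u z ∂(κ' y : Measure W)) =ᵐ[(κ' x : Measure W)]
        fun _ => ∫ z, u z ∂(κ' x : Measure W) := by
      have h2 : ∀ᵐ y ∂(κ' x : Measure W), E' x y := hK'.car x
      filter_upwards [h2] with y hy
      rw [hK'.cls x y hy]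
    rw [integral_congr_ae h1]
    simp

theorem mx_Q (hK' : W3D.Ker a E' κ') {w₀ : W} {ι : Type} {x : ι → ProbabilityMeasure W}
    (hx : ∀ i, x i ∈ Q E κ' w₀) (p : ι × List ι) : mxP x p ∈ Q E κ' w₀ := by
  refine ⟨?_, fun u => ?_⟩
  · rw [mxP_apply]
    have h1 : ∀ l : List ι, (l.map fun i => (x i : Measure W) {y | ¬ E w₀ y}).sum = 0 := by
      intro l
      induction l with
      | nil => simp
      | cons b l ih => rw [List.map_cons, List.sum_cons, ih, (hx b).1, add_zero]
    rw [h1, mul_zero]
  · rw [integral_mxP x p _ (cont_in hK' u.continuous), integral_mxP x p _ u.continuous]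
    congr 2
    exact List.map_congr_left fun i _ => (hx i).2 u

end main

end I_KST

open I_KST in
theorem KST_pf (hKUE : S_KUE) (hKAV : S_KAV) : S_KST := by
  intro S U hS hU γ G W V Z _ _ _ _ _ _ _ _ _ _ _ _ _ _ _ _ _ a hact hmin E E' ρ hI κ' κ hK' hK
    hsat q hq A σ hA B hB j r hj hji hr hjA hrB hE w₀ hpj hpr hPm
  -- the energy on `W`
  have hsep : Sep fun (i : ℕ) (w : W) => tfs V i (j w) :=
    { cont := fun i => ((sep_tfs (α := V)).cont i).comp hj
      bd := fun i w => (sep_tfs (α := V)).bd i (j w)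
      sep := fun m m' h => by
        refine J_inj hj hji ((sep_tfs (α := V)).sep _ _ fun i => ?_)
        rw [int_J hj _ ((sep_tfs (α := V)).cont i), int_J hj _ ((sep_tfs (α := V)).cont i)]
        exact h i }
  have hEn : ∀ m : ProbabilityMeasure W, En (tfs V) (J hj m) =
      En (fun (i : ℕ) (w : W) => tfs V i (j w)) m := by
    intro m
    unfold En
    refine tsum_congr fun i => ?_
    rw [int_J hj _ ((sep_tfs (α := V)).cont i)]
  obtain ⟨c, hc1, hc2⟩ := hKUE G W a hact hmin E E' ρ hI κ' κ hK' hK hsat _ hsep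
  -- the kernel on `V`
  set K' : V → ProbabilityMeasure V := Function.extend j (fun w => J hj (κ' w))
    (fun _ => J hj (κ' w₀)) with hK'def
  have hK'j : ∀ w, K' (j w) = J hj (κ' w) := fun w => hji.extend_apply _ _ w
  have hpsh : ∀ (g : γ) (m : ProbabilityMeasure W),
      psh A hA.cont g (J hj m) = J hj (W3D.mv hact (q g) m) := by
    intro g m
    apply Subtype.ext
    change Measure.map (A g) (Measure.map j (m : Measure W)) =
      Measure.map j (Measure.map (a (q g)) (m : Measure W))
    rw [Measure.map_map (hA.cont g).measurable hj.measurable,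
      Measure.map_map hj.measurable (hact.cont (q g)).measurable]
    congr 1
    funext w
    exact (hjA g w).symm
  have hmvK : ∀ (g : G) (w : W), W3D.mv hact g (κ' w) = κ' (a g w) := fun g w =>
    Subtype.ext (hK'.equi g w).symm
  -- orbit closures
  have horb : ∀ w, w ∈ closure (Set.range fun g : γ => a (q g) w₀) := by
    intro w
    have h1 : (Set.range fun g : γ => a (q g) w₀) = Set.range fun g : G => a g w₀ := by
      ext x
      constructor
      · rintro ⟨g, rfl⟩
        exact ⟨q g, rfl⟩
      · rintro ⟨g, rfl⟩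
        obtain ⟨g', rfl⟩ := hq g
        exact ⟨g', rfl⟩
    rw [h1]
    exact hmin w₀ w
  have hR : Continuous fun w => (r w, j w) := hr.prodMk hj
  have hoch : och (fun g (p : Z × V) => (B g p.1, A g p.2)) (r w₀, j w₀) =
      Set.range fun w => (r w, j w) := by
    apply Set.Subset.antisymm
    · refine closure_minimal ?_ (isCompact_range hR).isClosed
      rintro _ ⟨g, rfl⟩
      exact ⟨a (q g) w₀, by
        change (r (a (q g) w₀), j (a (q g) w₀)) = (B g (r w₀), A g (j w₀))
        rw [hjA, hrB]⟩
    · rintro _ ⟨w, rfl⟩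
      refine map_mem_closure (f := fun w => (r w, j w)) hR (horb w) ?_
      rintro _ ⟨g, rfl⟩
      exact ⟨g, by
        change (B g (r w₀), A g (j w₀)) = (r (a (q g) w₀), j (a (q g) w₀))
        rw [hjA, hrB]⟩
  have hochA : och A (j w₀) = Set.range j := by
    apply Set.Subset.antisymm
    · refine closure_minimal ?_ (isCompact_range hj).isClosed
      rintro _ ⟨g, rfl⟩
      exact ⟨a (q g) w₀, hjA g w₀⟩
    · rintro _ ⟨w, rfl⟩
      refine map_mem_closure hj (horb w) ?_
      rintro _ ⟨g, rfl⟩
      exact ⟨g, (hjA g w₀).symm⟩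
  have hfib : ∀ v : V, (r w₀, v) ∈ och (fun g (p : Z × V) => (B g p.1, A g p.2)) (r w₀, j w₀) ↔
      ∃ w, E w₀ w ∧ j w = v := by
    intro v
    rw [hoch]
    constructor
    · rintro ⟨w, hw⟩
      have h1 : r w = r w₀ := congrArg Prod.fst hw
      have h2 : j w = v := congrArg Prod.snd hw
      exact ⟨w, (hE w₀ w).mpr h1.symm, h2⟩
    · rintro ⟨w, hw, rfl⟩
      exact ⟨w, by
        change (r w, j w) = (r w₀, j w)
        rw [(hE w₀ w).mp hw]⟩
  have hemb : IsClosedEmbedding j := hj.isClosedEmbedding hji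
  -- continuity of `K'`
  have hcK : ContinuousOn K' (Set.range j) := by
    rintro _ ⟨w, rfl⟩
    change Tendsto K' (𝓝[Set.range j] (j w)) (𝓝 (K' (j w)))
    rw [← hemb.isInducing.map_nhds_eq, tendsto_map'_iff]
    have h1 : K' ∘ j = fun w => J hj (κ' w) := funext fun w => hK'j w
    rw [h1, hK'j]
    exact ((cont_J hj).comp hK'.cont).tendsto w
  obtain ⟨e, he⟩ := hq 0
  obtain ⟨ν, hν1, hν2⟩ := hPm
  have hν : ν = J hj (κ' w₀) := Subtype.ext hν1
  rw [hν] at hν2
  refine ⟨J hj (κ w₀), rfl, ?_⟩
  refine pt_kernel (W := V) (Z := Z) hS hU hA hB (e := e) (z₀ := r w₀) (w₀ := j w₀) ?_ hpr hpj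
    (K' := K') (ENV_pf BRX_pf V (tfs V) sep_tfs).1 ?_ ?_ (E := c) ?_ ?_
  · rw [← hrB, he, hact.zero]
  · intro ι _ u hu hu1
    refine sc_map_g hS hU (hA.cact hS) (cact_psh hS hA) (w := j w₀) (f := K') ?_ ?_ hpj ?_ hu ?_
    · rw [hochA]
      exact hcK
    · intro g
      rw [← hjA, hK'j, hK'j, hpsh, hmvK]
    · rw [hK'j]
      exact hν2
    · intro i
      obtain ⟨w, _, hw⟩ := (hfib (u i)).mp (hu1 i)
      rw [hochA]
      exact ⟨w, hw⟩
  · refine hcK.mono ?_
    intro v hv
    obtain ⟨w, _, hw⟩ := (hfib v).mp hv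
    exact ⟨w, hw⟩
  · intro g
    rw [hpsh, hEn]
    have h1 : W3D.mv hact (q g) (κ w₀) = κ (a (q g) w₀) := Subtype.ext (hK.equi (q g) w₀).symm
    exact hc1 (q g) w₀
  · intro u hu1 hu2
    choose x hx1 hx2 using fun i => (hfib (u i)).mp (hu1 i)
    have hKu : ∀ i, K' (u i) = J hj (κ' (x i)) := fun i => by rw [← hx2 i, hK'j]
    have hcl : {w | E w₀ w} ⊆ closure (Set.range x) := by
      intro w hw
      have h1 := hu2 (j w) ((hfib _).mpr ⟨w, hw, rfl⟩)
      rw [hemb.isInducing.closure_eq_preimage_closure_image]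
      have h2 : j '' Set.range x = Set.range u := by
        rw [← Set.range_comp]
        congr 1
        funext i
        exact hx2 i
      change j w ∈ closure (j '' Set.range x)
      rw [h2]
      exact h1
    constructor
    · have hbar : Bar (κ w₀) (fun w => J hj (κ' w)) (J hj (κ w₀)) := by
        obtain ⟨h1, -, -, h4⟩ := BRX_pf W V (κ w₀) (fun w => J hj (κ' w))
          ((cont_J hj).comp hK'.cont).measurable
        obtain ⟨m, hm⟩ := h1
        have h5 : m = J hj (κ w₀) := by
          refine pm_ext fun g hg => ?_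
          rw [h4 m hm g hg, int_J hj _ hg]
          have h6 := hsat w₀ ⟨fun w => g (j w), hg.comp hj⟩
          simp only [ContinuousMap.coe_mk] at h6
          rw [← h6]
          congr 1
          funext w
          exact int_J hj _ hg
        rw [← h5]
        exact hm
      have h7 := hKAV W V (fun w => J hj (κ' w)) ((cont_J hj).comp hK'.cont) (κ w₀)
        (J hj (κ w₀)) hbar (γ × ℕ) x ?_
      · have h8 : (fun i => K' (u i)) = fun i => J hj (κ' (x i)) := funext hKu
        rw [h8]
        exact h7
      · have h9 : (κ w₀ : Measure W) (closure (Set.range x)) = 1 := by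
          have h10 : (κ w₀ : Measure W) (closure (Set.range x))ᶜ = 0 := by
            refine measure_mono_null ?_ (hK.car w₀)
            intro y hy hy'
            exact hy (hcl hy')
          exact (prob_compl_eq_zero_iff isClosed_closure.measurableSet).mp h10
        have h11 : (κ w₀) (closure (Set.range x)) = 1 := by
          rw [← ENNReal.coe_inj]
          rw [ProbabilityMeasure.ennreal_coeFn_eq_coeFn_toMeasure]
          exact h9
        exact h11
    · intro μ hμ hμE
      have hcomp : IsClosed (J hj '' Q E κ' w₀) :=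
        ((isClosed_Q hI hK' w₀).isCompact.image (cont_J hj)).isClosed
      have hsub : (Set.range fun p : (γ × ℕ) × List (γ × ℕ) =>
          mxP (fun i => K' (u i)) p) ⊆ J hj '' Q E κ' w₀ := by
        rintro _ ⟨p, rfl⟩
        refine ⟨mxP (fun i => κ' (x i)) p, mx_Q hK' (fun i => one_Q hI hK' (hx1 i)) p, ?_⟩
        rw [J_mxP]
        congr 1
        funext i
        exact (hKu i).symm
      obtain ⟨m, hm, rfl⟩ := closure_minimal hsub hcomp hμ
      have h12 : m = κ w₀ := by
        refine hc2 w₀ m hm.1 hm.2 fun g => ?_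
        obtain ⟨g', rfl⟩ := hq g
        have := hμE g'
        rw [hpsh, hEn] at this
        exact this
      rw [h12]

end Pool.Agent.Work.MP_69fea5_lc.W3
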