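import Pool.Agent.Work.MP_69fea5_lc.W3.StmtsK
import Pool.Agent.Work.MP_69fea5_lc.W3.CodL

/-!
Block [69fea5 K], item KTL: the phase of a coded point is coded.
-/

set_option autoImplicit false

namespace Pool.Agent.Work.MP_69fea5_lc.W3

open MeasureTheory Topology Set Filter TopologicalSpace ProbabilityTheory
open scoped NNReal ENNReal
open Pool.Agent.Work.MP_69fea5_lc.AK
open Pool.Agent.Work.MP_69fea5_lc.HK (Cl DU Ar ArF ArR Dat Law LawC act near sc Pt oc Mn mr ext)
open Pool.Agent.Work.MP_69fea5_lc.KC (Agree)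

namespace I_KTL

variable {S : Set (Set ℕ)} {k n : ℕ}

/-! ### Words -/

/-- the word `x` (of a window of radius `W`) satisfies `v` at `t` -/
def cw (v : Wd k) (t : ℤ) (W : ℕ) (x : List (Fin k)) : Prop :=
  ∀ p : ℕ × Fin k, v[p.1]? = some p.2 →
    x[(t - ((v.length / 2 : ℕ) : ℤ) + (p.1 : ℤ) + (W : ℤ)).toNat]? = some p.2

theorem wd_get (W : ℕ) (z : Om k) (s : ℤ) (h : |s| ≤ W) :
    (HK.wd W z)[(s + W).toNat]? = some (z s) := by
  rw [HK.I_MEASW.wd_def, List.getElem?_map]
  rw [abs_le] at h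
  have h1 : (s + W).toNat < 2 * W + 1 := by omega
  rw [List.getElem?_range h1]
  simp only [Option.map_some]
  congr 2
  omega

theorem mem_cyl (v : Wd k) (t : ℤ) (W : ℕ) (z : Om k) (h : |t| + v.length ≤ W) :
    z ∈ cyl v t ↔ cw v t W (HK.wd W z) := by
  have key : ∀ (i : ℕ) (a : Fin k), v[i]? = some a →
      (HK.wd W z)[(t - ((v.length / 2 : ℕ) : ℤ) + (i : ℤ) + (W : ℤ)).toNat]? =
        some (z (t - ((v.length / 2 : ℕ) : ℤ) + (i : ℤ))) := by
    intro i a hi
    apply wd_get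
    obtain ⟨h1, -⟩ := List.getElem?_eq_some_iff.1 hi
    have h2 : v.length / 2 ≤ v.length := Nat.div_le_self _ _
    have h3 := abs_le.1 (le_refl |t|)
    rw [abs_le]
    omega
  constructor
  · rintro hz ⟨i, a⟩ hi
    rw [key i a hi, hz i a hi]
  · intro hz i a hi
    have h1 := hz (i, a) hi
    rw [key i a hi] at h1
    exact Option.some_injective _ h1

theorem ar_cw (hS : Cl S) {β : Type} [Primcodable β] {v : β → Wd k} {t : β → ℤ} {W : β → ℕ}
    {x : β → List (Fin k)} (hv : ArF S v) (ht : ArF S t) (hW : ArF S W) (hx : ArF S x) :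
    Ar S fun b => cw (v b) (t b) (W b) (x b) := by
  refine Ar.all hS (R := fun (b : β) (p : ℕ × Fin k) => (v b)[p.1]? = some p.2 →
    (x b)[(t b - (((v b).length / 2 : ℕ) : ℤ) + (p.1 : ℤ) + (W b : ℤ)).toNat]? = some p.2) ?_
  have e1 : ArF S fun p : β × (ℕ × Fin k) => v p.1 := hv.comp hS (ArF.fst hS)
  have e2 : ArF S fun p : β × (ℕ × Fin k) => t p.1 := ht.comp hS (ArF.fst hS)
  have e3 : ArF S fun p : β × (ℕ × Fin k) => W p.1 := hW.comp hS (ArF.fst hS)
  have e4 : ArF S fun p : β × (ℕ × Fin k) => x p.1 := hx.comp hS (ArF.fst hS)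
  have e5 : ArF S fun p : β × (ℕ × Fin k) => p.2.1 :=
    ArF.of_primrec hS (Primrec.fst.comp Primrec.snd)
  have e6 : ArF S fun p : β × (ℕ × Fin k) => some p.2.2 :=
    ArF.of_primrec hS (Primrec.option_some.comp (Primrec.snd.comp Primrec.snd))
  refine Ar.imp hS (Ar.eq hS ?_ e6) (Ar.eq hS ?_ e6)
  · exact ArF.map₂ hS (g := fun (l : List (Fin k)) (i : ℕ) => l[i]?) Primrec.list_getElem? e1 e5
  · refine ArF.map₂ hS (g := fun (l : List (Fin k)) (i : ℕ) => l[i]?) Primrec.list_getElem? e4 ?_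
    refine ArF.toNat hS (ArF.intAdd hS (ArF.intAdd hS (ArF.intSub hS e2 ?_)
      (e5.natCast hS)) (e3.natCast hS))
    refine ArF.natCast hS ?_
    exact ArF.map hS (g := fun l : List (Fin k) => l.length / 2)
      (Primrec.nat_div.comp Primrec.list_length (Primrec.const 2)) e1

/-! ### Finite case distinctions -/

theorem ar_fin (hS : Cl S) {β : Type} [Primcodable β] {R : Fin n → β → Prop}
    (h : ∀ j, Ar S (R j)) : Ar S fun p : Fin n × β => R p.1 p.2 := by
  have key : ∀ l : List (Fin n), Ar S fun p : Fin n × β => ∃ j ∈ l, p.1 = j ∧ R j p.2 := by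
    intro l
    induction l with
    | nil => exact (Ar.const hS False).congr fun p => by simp
    | cons a l ih =>
      refine (Ar.or hS (Ar.and hS (Ar.eq hS (ArF.fst hS) (ArF.const hS a))
        (Ar.comp hS (h a) (f := fun p : Fin n × β => p.2) Primrec.snd)) ih).congr fun p => ?_
      constructor
      · rintro ⟨j, hj, h1, h2⟩
        rcases List.mem_cons.1 hj with rfl | hj
        · exact Or.inl ⟨h1, h2⟩
        · exact Or.inr ⟨j, hj, h1, h2⟩
      · rintro (⟨h1, h2⟩ | ⟨j, hj, h1, h2⟩)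
        · exact ⟨a, List.mem_cons_self, h1, h2⟩
        · exact ⟨j, List.mem_cons_of_mem _ hj, h1, h2⟩
  refine (key (List.finRange n)).congr fun p => ?_
  constructor
  · intro hp
    exact ⟨p.1, List.mem_finRange _, rfl, hp⟩
  · rintro ⟨j, -, rfl, hj⟩
    exact hj

theorem arR_fin (hS : Cl S) {β : Type} [Primcodable β] {f : Fin n → β → ℝ}
    (h : ∀ j, ArR S (f j)) : ArR S fun p : Fin n × β => f p.1 p.2 := by
  have h1 := ar_fin hS (β := β × ℕ × ℕ) (R := fun (j : Fin n) p =>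
    (p.2.1 : ℝ) < f j p.1 * (p.2.2 + 1)) h
  exact Ar.comp hS h1 (f := fun p : (Fin n × β) × ℕ × ℕ => (p.1.1, (p.1.2, p.2)))
    ((Primrec.fst.comp Primrec.fst).pair ((Primrec.snd.comp Primrec.fst).pair Primrec.snd))

/-! ### The image of the measure -/

/-- the coordinates different from `j` -/
def eo (j : Fin n) (i : Fin n) : Option (Oth j) := if h : i = j then none else some ⟨i, h⟩

/-- the constraints on the coordinate `j` -/
def l1 (j : Fin n) (l : List (Fin n × HK.C k)) : HK.C k :=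
  l.flatMap fun p => if p.1 = j then p.2 else []

/-- the constraints on the other coordinates -/
def l2 (j : Fin n) (l : List (Fin n × HK.C k)) : List (Oth j × HK.C k) :=
  l.flatMap fun p => (eo j p.1).toList.map fun i => (i, p.2)

theorem prim_l1 (j : Fin n) : Primrec (l1 (k := k) j) := by
  have h : Primrec fun q : List (Fin n × HK.C k) × (Fin n × HK.C k) =>
      if q.2.1 = j then q.2.2 else [] :=
    Primrec.ite (Primrec.eq.comp (Primrec.fst.comp Primrec.snd) (Primrec.const j))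
      (Primrec.snd.comp Primrec.snd) (Primrec.const [])
  exact Primrec.list_flatMap Primrec.id h.to₂

theorem prim_l2 (j : Fin n) : Primrec (l2 (k := k) j) := by
  have h : Primrec fun q : List (Fin n × HK.C k) × (Fin n × HK.C k) =>
      (eo j q.2.1).toList.map fun i => (i, q.2.2) := by
    have h1 : Primrec fun q : List (Fin n × HK.C k) × (Fin n × HK.C k) => (eo j q.2.1).toList :=
      Primrec.optionToList.comp ((Primrec.dom_finite (eo j)).comp
        (Primrec.fst.comp Primrec.snd))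
    have h2 : Primrec fun r : (List (Fin n × HK.C k) × (Fin n × HK.C k)) × Oth j =>
        (r.2, r.1.2.2) :=
      Primrec.snd.pair (Primrec.snd.comp (Primrec.snd.comp Primrec.fst))
    exact Primrec.list_map h1 h2.to₂
  exact Primrec.list_flatMap Primrec.id h.to₂

theorem fn_ins (j : Fin n) (w : Om k) (u : Oth j → Om k) (l : List (Fin n × HK.C k)) :
    TF.fn (α := Fin n → Om k) l (ins j w u) =
      TF.fn (α := Om k) (l1 j l) w * TF.fn (α := Oth j → Om k) (l2 j l) u := by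
  have e1 : ∀ l : List (Fin n × HK.C k), TF.fn (α := Fin n → Om k) l (ins j w u) =
    (l.map fun p => TF.fn (α := Om k) p.2 (ins j w u p.1)).prod := fun _ => rfl
  have e2 : ∀ l : List (Oth j × HK.C k), TF.fn (α := Oth j → Om k) l u =
    (l.map fun p => TF.fn (α := Om k) p.2 (u p.1)).prod := fun _ => rfl
  induction l with
  | nil =>
    have h1 : TF.fn (α := Om k) (l1 j ([] : List (Fin n × HK.C k))) w = 1 :=
      TF.fn_one (α := Om k) w
    rw [h1, e1, e2]
    simp [l2]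
  | cons a l ih =>
    rw [e1, List.map_cons, List.prod_cons, ← e1, ih]
    by_cases h : a.1 = j
    · have h1 : l1 j (a :: l) = a.2 ++ l1 j l := by simp [l1, h]
      have h2 : l2 j (a :: l) = l2 j l := by simp [l2, eo, h]
      have h3 : ins j w u a.1 = w := by simp [ins, h]
      have h4 : TF.fn (α := Om k) (a.2 ++ l1 j l) w =
          TF.fn (α := Om k) a.2 w * TF.fn (α := Om k) (l1 j l) w :=
        TF.fn_mul (α := Om k) a.2 (l1 j l) w
      rw [h1, h2, h3, h4]
      ring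
    · have h1 : l1 j (a :: l) = l1 j l := by simp [l1, h]
      have h2 : l2 j (a :: l) = (⟨a.1, h⟩, a.2) :: l2 j l := by simp [l2, eo, h]
      have h3 : ins j w u a.1 = u ⟨a.1, h⟩ := by simp [ins, h]
      rw [h1, h2, h3, e2 (_ :: _), List.map_cons, List.prod_cons, ← e2]
      ring

theorem continuous_ins (j : Fin n) (w : Om k) : Continuous (ins (X := Om k) j w) := by
  refine continuous_pi fun i => ?_
  by_cases h : i = j
  · have : (fun u : Oth j → Om k => ins j w u i) = fun _ => w := by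
      funext u
      simp [ins, h]
    rw [this]
    exact continuous_const
  · have : (fun u : Oth j → Om k => ins j w u i) = fun u => u ⟨i, h⟩ := by
      funext u
      simp [ins, h]
    rw [this]
    exact continuous_apply _

/-- the law of the tuple -/
noncomputable def Mj (j : Fin n) (w : Om k) (m : ProbabilityMeasure (Oth j → Om k)) :
    ProbabilityMeasure (Fin n → Om k) :=
  m.map (f := ins (X := Om k) j w) (continuous_ins j w).measurable.aemeasurable

theorem mo_Mj (j : Fin n) (w : Om k) (m : ProbabilityMeasure (Oth j → Om k))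
    (l : List (Fin n × HK.C k)) : mo (α := Fin n → Om k) (Mj j w m) l =
      TF.fn (α := Om k) (l1 j l) w * mo (α := Oth j → Om k) m (l2 j l) := by
  unfold mo Mj
  rw [ProbabilityMeasure.toMeasure_map, integral_map (continuous_ins j w).measurable.aemeasurable
    (TF.cont (α := Fin n → Om k) l).aestronglyMeasurable]
  simp only [fn_ins]
  rw [integral_const_mul]

theorem sc_Mj (hS : Cl S) {w : Om k} (hw : Pt S w)
    {m : ∀ j : Fin n, ProbabilityMeasure (Oth j → Om k)} (hm : ∀ j, Pt S (m j)) :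
    sc S fun j : Fin n => Mj j w (m j) := by
  rw [CP.sc_iff S hS]
  refine arR_fin hS (f := fun j l => mo (α := Fin n → Om k) (Mj j w (m j)) l) fun j => ?_
  have h1 : ArR S fun p : Unit × HK.C k => TF.fn (α := Om k) p.2 w :=
    (TF.sc_iff (α := Om k) S hS Unit (fun _ => w)).1 hw
  have h2 : ArR S fun p : Unit × List (Oth j × HK.C k) => mo (α := Oth j → Om k) (m j) p.2 :=
    (CP.sc_iff (α := Oth j → Om k) S hS Unit (fun _ => m j)).1 (hm j)
  refine (HK.ArR.mul hS (f := fun l : List (Fin n × HK.C k) => TF.fn (α := Om k) (l1 j l) w)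
    (g := fun l : List (Fin n × HK.C k) => mo (α := Oth j → Om k) (m j) (l2 j l)) ?_ ?_
    (fun l => TF.nn _ _) fun l => mo_nn _ _).congr fun l => mo_Mj _ _ _ _
  · exact HK.ArR.comp hS h1 (g := fun l => ((), l1 j l)) ((Primrec.const ()).pair (prim_l1 j))
  · exact HK.ArR.comp hS h2 (g := fun l => ((), l2 j l)) ((Primrec.const ()).pair (prim_l2 j))

/-! ### The sets -/

theorem isClosed_cyl (v : Wd k) (t : ℤ) : IsClosed (cyl v t : Set (Om k)) := by
  have : cyl v t = ⋂ (i : ℕ) (a : Fin k) (_ : v[i]? = some a),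
      {z : Om k | z (t - ((v.length / 2 : ℕ) : ℤ) + i) = a} := by
    ext z
    simp [cyl]
  rw [this]
  exact isClosed_iInter fun i => isClosed_iInter fun a => isClosed_iInter fun _ =>
    isClosed_eq (continuous_apply _) continuous_const

theorem meas_box (q : Fin n → Wd k) (t : ℤ) :
    MeasurableSet {u : Fin n → Om k | ∀ i, u i ∈ cyl (q i) t} := by
  have : {u : Fin n → Om k | ∀ i, u i ∈ cyl (q i) t} = ⋂ i, (fun u => u i) ⁻¹' cyl (q i) t := by
    ext u
    simp
  rw [this]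
  exact MeasurableSet.iInter fun i => (measurable_pi_apply i) (isClosed_cyl _ _).measurableSet

/-- the conditions for the times in `[-N, N]` -/
def Bs (a : IxL k n) (t : ℤ) (N : ℕ) : Set (Fin n → Om k) :=
  {u | (∀ i, i ≠ a.2.1 → u i ∈ cyl (a.2.2 i) t) ∧
    ∀ t' : ℤ, t'.natAbs ≤ N → ∀ q ∈ a.1, ¬ ∀ i, u i ∈ cyl (q i) t'}

theorem meas_Bs (a : IxL k n) (t : ℤ) (N : ℕ) : MeasurableSet (Bs a t N) := by
  have : Bs a t N = (⋂ i ∈ {i : Fin n | i ≠ a.2.1}, (fun u : Fin n → Om k => u i) ⁻¹'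
      cyl (a.2.2 i) t) ∩ ⋂ t' ∈ {t' : ℤ | t'.natAbs ≤ N}, ⋂ q ∈ {q | q ∈ a.1},
        {u : Fin n → Om k | ∀ i, u i ∈ cyl (q i) t'}ᶜ := by
    ext u
    simp only [Bs, Set.mem_setOf_eq, Set.mem_inter_iff, Set.mem_iInter, Set.mem_preimage,
      Set.mem_compl_iff]
  rw [this]
  refine MeasurableSet.inter ?_ ?_
  · exact MeasurableSet.biInter (Set.to_countable _) fun i _ =>
      (measurable_pi_apply i) (isClosed_cyl _ _).measurableSet
  · exact MeasurableSet.biInter (Set.to_countable _) fun t' _ =>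
      MeasurableSet.biInter (Set.to_countable _) fun q _ => (meas_box q t').compl

theorem anti_Bs (a : IxL k n) (t : ℤ) : Antitone (Bs a t) := by
  intro N N' h u hu
  exact ⟨hu.1, fun t' ht' => hu.2 t' (ht'.trans h)⟩

theorem real_iInter {Ω : Type} [MeasurableSpace Ω] (μ : Measure Ω) [IsFiniteMeasure μ]
    {B : ℕ → Set Ω} (hm : ∀ N, MeasurableSet (B N)) (ha : Antitone B) :
    μ.real (⋂ N, B N) = ⨅ N, μ.real (B N) := by
  have h1 : Tendsto (fun N => μ (B N)) atTop (𝓝 (μ (⋂ N, B N))) :=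
    tendsto_measure_iInter_atTop (fun N => (hm N).nullMeasurableSet) ha ⟨0, measure_ne_top _ _⟩
  have h2 : Tendsto (fun N => μ.real (B N)) atTop (𝓝 (μ.real (⋂ N, B N))) :=
    (ENNReal.tendsto_toReal (measure_ne_top _ _)).comp h1
  have h3 : Tendsto (fun N => μ.real (B N)) atTop (𝓝 (⨅ N, μ.real (B N))) :=
    tendsto_atTop_ciInf (fun N N' h => measureReal_mono (ha h))
      ⟨0, by rintro _ ⟨N, rfl⟩; exact measureReal_nonneg⟩
  exact tendsto_nhds_unique h2 h3

theorem thL_eq {X : Type} (π : Om k → X)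
    (κ : ∀ j : Fin n, X → ProbabilityMeasure (Oth j → Om k)) (w : Om k) (a : IxL k n) (t : ℤ) :
    (ThL π κ w a t : ℝ) =
      ⨅ N : ℕ, (Mj a.2.1 w (κ a.2.1 (π w)) : Measure (Fin n → Om k)).real (Bs a t N) := by
  rw [← real_iInter _ (meas_Bs a t) (anti_Bs a t)]
  have h1 : (ThL π κ w a t : ℝ) = (κ a.2.1 (π w) : Measure (Oth a.2.1 → Om k)).real
      {u | ins a.2.1 w u ∈ RT a.1 ∧ ∀ i : Oth a.2.1, u i ∈ cyl (a.2.2 i) t} := rfl
  rw [h1]
  unfold Mj
  rw [ProbabilityMeasure.toMeasure_map, map_measureReal_apply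
    (continuous_ins _ w).measurable (MeasurableSet.iInter (meas_Bs a t))]
  congr 1
  ext u
  simp only [Set.mem_setOf_eq, Set.mem_preimage, Set.mem_iInter, Bs, RT]
  constructor
  · rintro ⟨h2, h3⟩ N
    refine ⟨fun i hi => ?_, fun t' _ => h2 t'⟩
    have h4 := h3 ⟨i, hi⟩
    simpa [ins, hi] using h4
  · intro h2
    refine ⟨fun t' q hq => (h2 t'.natAbs).2 t' le_rfl q hq, fun i => ?_⟩
    have h4 := (h2 0).1 i.1 i.2
    simpa [ins, i.2] using h4

/-! ### The window -/

/-- the radius `W` is large enough -/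
def Win (b : (IxL k n × ℤ) × ℕ) (W : ℕ) : Prop :=
  (∀ i, b.1.2.natAbs + (b.1.1.2.2 i).length ≤ W) ∧
    ∀ q ∈ b.1.1.1, ∀ i, b.2 + (q i).length ≤ W

theorem fin_app' : Primrec₂ (fun (f : Fin n → Wd k) (i : Fin n) => f i) := Primrec.fin_app

theorem ar_Win (hS : Cl S) : Ar S fun p : ((IxL k n × ℤ) × ℕ) × ℕ => Win p.1 p.2 := by
  refine Ar.and hS ?_ ?_
  · refine Ar.all hS (R := fun (p : ((IxL k n × ℤ) × ℕ) × ℕ) (i : Fin n) =>
      p.1.1.2.natAbs + (p.1.1.1.2.2 i).length ≤ p.2) ?_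
    refine Ar.le hS (ArF.add hS (ArF.natAbs hS ?_) ?_) ?_
    · exact ArF.of_primrec hS (Primrec.snd.comp (Primrec.fst.comp
        (Primrec.fst.comp Primrec.fst)))
    · refine ArF.map hS Primrec.list_length ?_
      exact ArF.of_primrec hS (fin_app'.comp (Primrec.snd.comp (Primrec.snd.comp
        (Primrec.fst.comp (Primrec.fst.comp (Primrec.fst.comp Primrec.fst))))) Primrec.snd)
    · exact ArF.of_primrec hS (Primrec.snd.comp Primrec.fst)
  · refine HK.Ar.ballList hS (R := fun (p : ((IxL k n × ℤ) × ℕ) × ℕ) (q : Fin n → Wd k) =>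
      ∀ i, p.1.2 + (q i).length ≤ p.2) ?_ ?_
    · refine Ar.all hS (R := fun (p : (((IxL k n × ℤ) × ℕ) × ℕ) × (Fin n → Wd k)) (i : Fin n) =>
        p.1.1.2 + (p.2 i).length ≤ p.1.2) ?_
      refine Ar.le hS (ArF.add hS ?_ ?_) ?_
      · exact ArF.of_primrec hS (Primrec.snd.comp (Primrec.fst.comp
          (Primrec.fst.comp Primrec.fst)))
      · refine ArF.map hS Primrec.list_length ?_
        exact ArF.of_primrec hS (fin_app'.comp (Primrec.snd.comp Primrec.fst) Primrec.snd)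
      · exact ArF.of_primrec hS (Primrec.snd.comp (Primrec.fst.comp Primrec.fst))
    · exact ArF.of_primrec hS (Primrec.fst.comp (Primrec.fst.comp
        (Primrec.fst.comp Primrec.fst)))

theorem exists_Win (b : (IxL k n × ℤ) × ℕ) : ∃ W, Win b W := by
  have h1 : ∀ q : Fin n → Wd k, ∀ i, (q i).length ≤ ∑ i, (q i).length := fun q i =>
    Finset.single_le_sum (f := fun i => (q i).length) (fun _ _ => Nat.zero_le _)
      (Finset.mem_univ i)
  refine ⟨b.1.2.natAbs + ∑ i, (b.1.1.2.2 i).length + (b.2 +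
    (b.1.1.1.map fun q => ∑ i, (q i).length).sum), fun i => ?_, fun q hq i => ?_⟩
  · have := h1 b.1.1.2.2 i
    omega
  · have h2 := h1 q i
    have h3 : ∑ i, (q i).length ≤ (b.1.1.1.map fun q => ∑ i, (q i).length).sum :=
      List.single_le_sum (fun _ _ => Nat.zero_le _) _ (List.mem_map.2 ⟨q, hq, rfl⟩)
    omega

/-- the condition on the words -/
def Hc (W : (IxL k n × ℤ) × ℕ → ℕ) (b : (IxL k n × ℤ) × ℕ) (x : Fin n → List (Fin k)) : Prop :=
  (∀ i, i ≠ b.1.1.2.1 → cw (b.1.1.2.2 i) b.1.2 (W b) (x i)) ∧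
    ∀ t' : ℤ, t'.natAbs ≤ b.2 → ∀ q ∈ b.1.1.1, ¬ ∀ i, cw (q i) t' (W b) (x i)

theorem ar_Hc (hS : Cl S) {W : (IxL k n × ℤ) × ℕ → ℕ} (hW : ArF S W) :
    Ar S fun p : ((IxL k n × ℤ) × ℕ) × (Fin n → List (Fin k)) => Hc W p.1 p.2 := by
  refine Ar.and hS ?_ ?_
  · refine Ar.all hS (R := fun (p : ((IxL k n × ℤ) × ℕ) × (Fin n → List (Fin k))) (i : Fin n) =>
      i ≠ p.1.1.1.2.1 → cw (p.1.1.1.2.2 i) p.1.1.2 (W p.1) (p.2 i)) ?_
    refine Ar.imp hS (Ar.not hS (Ar.eq hS (ArF.snd hS) ?_)) (ar_cw hS ?_ ?_ ?_ ?_)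
    · exact ArF.of_primrec hS (Primrec.fst.comp (Primrec.snd.comp
        (Primrec.fst.comp (Primrec.fst.comp (Primrec.fst.comp Primrec.fst)))))
    · exact ArF.of_primrec hS (fin_app'.comp (Primrec.snd.comp (Primrec.snd.comp
        (Primrec.fst.comp (Primrec.fst.comp (Primrec.fst.comp Primrec.fst))))) Primrec.snd)
    · exact ArF.of_primrec hS (Primrec.snd.comp (Primrec.fst.comp
        (Primrec.fst.comp Primrec.fst)))
    · exact hW.comp hS (f := fun p : (((IxL k n × ℤ) × ℕ) × (Fin n → List (Fin k))) × Fin n =>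
        p.1.1) (ArF.of_primrec hS (Primrec.fst.comp Primrec.fst))
    · exact ArF.of_primrec hS (fin_app'.comp (Primrec.snd.comp Primrec.fst) Primrec.snd)
  · refine HK.Ar.ballInt hS (R := fun (p : ((IxL k n × ℤ) × ℕ) × (Fin n → List (Fin k)))
      (t' : ℤ) => ∀ q ∈ p.1.1.1.1, ¬ ∀ i, cw (q i) t' (W p.1) (p.2 i)) ?_
      (ArF.of_primrec hS (Primrec.snd.comp Primrec.fst))
    refine HK.Ar.ballList hS (R := fun (p : (((IxL k n × ℤ) × ℕ) × (Fin n → List (Fin k))) × ℤ)
      (q : Fin n → Wd k) => ¬ ∀ i, cw (q i) p.2 (W p.1.1) (p.1.2 i)) ?_ ?_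
    · refine Ar.not hS (Ar.all hS (R := fun (p : ((((IxL k n × ℤ) × ℕ) ×
        (Fin n → List (Fin k))) × ℤ) × (Fin n → Wd k)) (i : Fin n) =>
          cw (p.2 i) p.1.2 (W p.1.1.1) (p.1.1.2 i)) (ar_cw hS ?_ ?_ ?_ ?_))
      · exact ArF.of_primrec hS (fin_app'.comp (Primrec.snd.comp Primrec.fst) Primrec.snd)
      · exact ArF.of_primrec hS (Primrec.snd.comp (Primrec.fst.comp Primrec.fst))
      · exact hW.comp hS (f := fun p : (((((IxL k n × ℤ) × ℕ) ×
          (Fin n → List (Fin k))) × ℤ) × (Fin n → Wd k)) × Fin n => p.1.1.1.1)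
          (ArF.of_primrec hS (Primrec.fst.comp (Primrec.fst.comp
            (Primrec.fst.comp Primrec.fst))))
      · exact ArF.of_primrec hS (fin_app'.comp (Primrec.snd.comp (Primrec.fst.comp
          (Primrec.fst.comp Primrec.fst))) Primrec.snd)
    · exact ArF.of_primrec hS (Primrec.fst.comp (Primrec.fst.comp (Primrec.fst.comp
        (Primrec.fst.comp Primrec.fst))))

theorem Hc_iff {W : (IxL k n × ℤ) × ℕ → ℕ} {b : (IxL k n × ℤ) × ℕ} (hW : Win b (W b))
    (u : Fin n → Om k) : Hc W b (fun i => HK.wd (W b) (u i)) ↔ u ∈ Bs b.1.1 b.1.2 b.2 := by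
  unfold Hc Bs
  refine and_congr (forall_congr' fun i => imp_congr_right fun _ => ?_)
    (forall_congr' fun t' => imp_congr_right fun ht' => forall_congr' fun q =>
      imp_congr_right fun hq => not_congr (forall_congr' fun i => ?_))
  · refine (mem_cyl _ _ _ _ ?_).symm
    have := hW.1 i
    rw [Int.abs_eq_natAbs]
    omega
  · refine (mem_cyl _ _ _ _ ?_).symm
    have := hW.2 q hq i
    rw [Int.abs_eq_natAbs]
    omega

end I_KTL

open I_KTL in
theorem KTL_pf (hKMW : S_KMW) : S_KTL := by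
  intro S hS k n X π κ w hw hκ
  obtain ⟨W, hW, hW'⟩ := HK.Ar.choose hS (R := fun (b : (IxL k n × ℤ) × ℕ) W => Win b W)
    (ar_Win hS) exists_Win
  have h1 : ArR S fun b : (IxL k n × ℤ) × ℕ =>
      (Mj b.1.1.2.1 w (κ b.1.1.2.1 (π w)) : Measure (Fin n → Om k)).real
        (Bs b.1.1 b.1.2 b.2) := by
    refine (hKMW S hS k n ((IxL k n × ℤ) × ℕ) (fun b => Mj b.1.1.2.1 w (κ b.1.1.2.1 (π w)))
      (Hc W) W ?_ hW (ar_Hc hS hW)).congr fun b => ?_
    · exact sc_comp hS (sc_Mj hS hw hκ) (f := fun b : (IxL k n × ℤ) × ℕ => b.1.1.2.1)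
        (ArF.of_primrec hS (Primrec.fst.comp (Primrec.snd.comp
          (Primrec.fst.comp Primrec.fst))))
    · congr 1
      ext u
      exact (Hc_iff (hW' b) u).symm
  have h2 : ArR S fun p : IxL k n × ℤ => (ThL π κ w p.1 p.2 : ℝ) := by
    refine (HK.ArR.iInf hS (f := fun (p : IxL k n × ℤ) (N : ℕ) =>
      (Mj p.1.2.1 w (κ p.1.2.1 (π w)) : Measure (Fin n → Om k)).real (Bs p.1 p.2 N)) h1
      fun _ _ => measureReal_nonneg).congr fun p => thL_eq π κ w p.1 p.2
  exact HK.ArR.comp hS h2 (g := fun p : Unit × IxL k n × ℤ => p.2) Primrec.snd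

end Pool.Agent.Work.MP_69fea5_lc.W3
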