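import Pool.Agent.Work.MP_69fea5_lc.W3.StmtsK
import Pool.Agent.Work.MP_69fea5_lc.W3.CodL
import Pool.Agent.Work.MP_69fea5_lc.N3.I_USG

/-!
Block [69fea5 K], item KTX: a coded invariant measure over `lam` on the orbit closure of `(x, m₁)`.
-/

set_option autoImplicit false
set_option linter.unusedSectionVars false

namespace Pool.Agent.Work.MP_69fea5_lc.W3

open MeasureTheory Topology Set Filter TopologicalSpace ProbabilityTheory
open scoped NNReal ENNReal
open Pool.Agent.Work.MP_69fea5_lc.AK
open Pool.Agent.Work.MP_69fea5_lc.HK (Cl DU Ar ArF ArR Dat Law LawC act near sc Pt oc Mn mr ext)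
open Pool.Agent.Work.MP_69fea5_lc.KC (Agree)

namespace I_KTX

section one

variable {O : Type} [TopologicalSpace O] [MeasurableSpace O] [CS O]

theorem one_iff (m : ProbabilityMeasure O) (B : Set O) :
    m B = 1 ↔ (m : Measure O) B = 1 := by
  rw [← ProbabilityMeasure.ennreal_coeFn_eq_coeFn_toMeasure]
  exact (ENNReal.coe_inj (p := m B) (q := 1)).symm

theorem closed_one (F : Set O) (hF : IsClosed F) :
    IsClosed {m : ProbabilityMeasure O | m F = 1} := by
  have h := N3.USG_pf O Unit {p | p.1 ∈ F} (hF.preimage continuous_fst) 1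
  have h2 := h.preimage
    (Continuous.prodMk continuous_id continuous_const :
      Continuous fun m : ProbabilityMeasure O => (m, ()))
  have h3 : {m : ProbabilityMeasure O | m F = 1} =
      (fun m : ProbabilityMeasure O => (m, ())) ⁻¹'
        {p : ProbabilityMeasure O × Unit | (1 : ℝ≥0) ≤ p.1 {z | (z, p.2) ∈ {p : O × Unit | p.1 ∈ F}}} := by
    ext m
    constructor
    · intro hm
      exact (show m F = 1 from hm).ge
    · intro hm
      exact le_antisymm (m.apply_le_one F) hm
  rw [h3]
  exact h2

theorem mono_one {m : ProbabilityMeasure O} {A B : Set O} (h : m A = 1) (hAB : A ⊆ B) :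
    m B = 1 := le_antisymm (m.apply_le_one B) (h ▸ m.apply_mono hAB)

end one

section near

variable {α : Type} [TopologicalSpace α] [Dat α] [Law α]

/-- limits of close families are equal -/
theorem eq_of_near [T2Space α] {U : Ultrafilter ℕ} (hU : (U : Filter ℕ) ≤ atTop) {a b : ℕ → α}
    (h : ∀ L, near L (a L) (b L)) {y z : α} (hy : Tendsto a (U : Filter ℕ) (𝓝 y))
    (hz : Tendsto b (U : Filter ℕ) (𝓝 z)) : y = z := by
  have h1 : ∀ L, near L y z := by
    intro L
    refine Law.near_lim L (y, z) ?_
    have h2 : Tendsto (fun n => (a n, b n)) (U : Filter ℕ) (𝓝 (y, z)) := hy.prodMk_nhds hz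
    refine mem_closure_of_tendsto h2 ?_
    have h3 : ∀ᶠ n in (U : Filter ℕ), L + 1 ≤ n := hU (eventually_ge_atTop (L + 1))
    filter_upwards [h3] with n hn
    exact Law.near_mono _ _ _ _ hn (h n)
  by_contra hne
  obtain ⟨A, B, hA, hB, hyA, hzB, hAB⟩ := t2_separation hne
  obtain ⟨L, hL⟩ := Law.near_basis y A (hA.mem_nhds hyA)
  exact Set.disjoint_left.1 hAB (hL z (h1 L)) hzB

/-- a fixed point of the first power is fixed -/
theorem act_fix {y : α} (h : act 1 y = y) (m : ℤ) : act m y = y := by
  have h1 : ∀ n : ℕ, act (n : ℤ) y = y := by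
    intro n
    induction n with
    | zero => exact Law.act_zero y
    | succ n ih =>
      have : ((n + 1 : ℕ) : ℤ) = 1 + (n : ℤ) := by push_cast; ring
      rw [this, Law.act_add, ih, h]
  obtain ⟨n, hn | hn⟩ := Int.eq_nat_or_neg m
  · rw [hn]; exact h1 n
  · rw [hn]
    have h2 := HK.act_neg_act (n : ℤ) y
    rw [h1 n] at h2
    exact h2

end near

end I_KTX

open I_KTX in
theorem KTX_pf (h1 : S_KAV) : S_KTX := by
  intro S U hS hU k X _ _ _ _ I _ e x m₁ lam he hex hm₁ hlam hth
  obtain ⟨νl, hνl, hPl⟩ := hlam
  obtain ⟨θ, hθ1, hθ2, hθ3⟩ := hth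
  -- the embedding
  set F : X × PM k → Cube I × PM k := fun p => (e p.1, p.2) with hF
  have hFc : Continuous F := (he.cont.comp continuous_fst).prodMk continuous_snd
  have hFi : Function.Injective F := by
    rintro ⟨a, b⟩ ⟨a', b'⟩ h
    have h2 : e a = e a' := congrArg Prod.fst h
    have h3 : b = b' := congrArg Prod.snd h
    rw [he.inj h2, h3]
  have hFe : ∀ (n : ℤ) (p : X × PM k), F (sh n p) = act n (F p) := by
    intro n p
    rw [Agree.eq]
    exact Prod.ext (he.equi n p.1) rfl
  have hFem : MeasurableEmbedding F := (hFc.isClosedEmbedding hFi).measurableEmbedding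
  have heem : MeasurableEmbedding e := (he.cont.isClosedEmbedding he.inj).measurableEmbedding
  -- the families
  set w₀ : Cube I × PM k := (e x, m₁) with hw₀
  have hPw : Pt S w₀ := pt_prod.2 ⟨hex, hm₁⟩
  set u : ℤ → Cube I × PM k := fun n => act n w₀ with hu
  have hsu : sc S u := sc_orb hS hPw (ArF.id hS)
  set ν : ℤ × List ℤ → ProbabilityMeasure (Cube I × PM k) :=
    fun p => mxP (fun n => diracProba (u n)) p with hν
  have hsν : sc S ν := sc_mxP hS (sc_dirac hS hsu)
  -- the first marginals
  set pr : ProbabilityMeasure (Cube I × PM k) → ProbabilityMeasure (Cube I) := fun m =>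
    m.map (f := (Prod.fst : Cube I × PM k → Cube I)) continuous_fst.measurable.aemeasurable
    with hpr
  have hprc : Continuous pr := ProbabilityMeasure.continuous_map continuous_fst
  have hsp : sc S fun p => pr (ν p) :=
    (tmap_fst (V := Cube I) (V' := PM k)).sc_map hS hsν
  -- the image of the given measure
  set θV : ProbabilityMeasure (Cube I × PM k) :=
    θ.map (f := F) hFc.measurable.aemeasurable with hθV
  have hθVc : (θV : Measure (Cube I × PM k)) = (θ : Measure (X × PM k)).map F :=
    ProbabilityMeasure.toMeasure_map _ _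
  have hact : act 1 θV = θV := by
    apply Subtype.ext
    show Measure.map (act 1 : Cube I × PM k → Cube I × PM k) (θV : Measure (Cube I × PM k)) =
      (θV : Measure (Cube I × PM k))
    rw [hθVc, Measure.map_map (Law.cont (1 : ℤ)).measurable hFc.measurable]
    have e1 : (act 1 : Cube I × PM k → Cube I × PM k) ∘ F = F ∘ (sh 1 : X × PM k → X × PM k) := by
      funext p
      exact (hFe 1 p).symm
    rw [e1, ← Measure.map_map hFc.measurable (sh_cont (1 : ℤ)).measurable]
    have e2 : Measure.map (sh 1 : X × PM k → X × PM k) (θ : Measure (X × PM k)) =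
        (θ : Measure (X × PM k)) := congrArg Subtype.val (hθ2 1)
    rw [e2]
  have hprθ : pr θV = νl := by
    apply Subtype.ext
    show Measure.map (Prod.fst : Cube I × PM k → Cube I) (θV : Measure (Cube I × PM k)) =
      (νl : Measure (Cube I))
    rw [hθVc, Measure.map_map measurable_fst hFc.measurable, hνl, ← hθ3,
      Measure.map_map he.cont.measurable measurable_fst]
    rfl
  have hFo : F '' orb (x, m₁) ⊆ closure (Set.range u) := by
    rintro _ ⟨p, hp, rfl⟩
    refine map_mem_closure hFc hp ?_
    rintro _ ⟨n, rfl⟩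
    exact ⟨n, (hFe n (x, m₁)).symm⟩
  have hκ : θV (closure (Set.range u)) = 1 := by
    rw [one_iff, hθVc, Measure.map_apply hFc.measurable isClosed_closure.measurableSet]
    rw [← one_iff]
    exact mono_one hθ1 fun p hp => hFo ⟨p, hp, rfl⟩
  have hcl : θV ∈ closure (Set.range ν) := by
    refine h1 (Cube I × PM k) (Cube I × PM k) (fun y => diracProba y) continuous_diracProba θV θV
      ?_ ℤ u hκ
    show (θV : Measure (Cube I × PM k)).bind (fun q => Measure.dirac q) = θV
    exact Measure.bind_dirac
  -- the choice
  have hR : Ar S fun q : ℕ × (ℤ × List ℤ) =>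
      near q.1 (act 1 (ν q.2)) (ν q.2) ∧ near q.1 (pr (ν q.2)) νl := by
    refine Ar.and hS ?_ ?_
    · exact sc_near hS (sc_act hS (sc_comp hS hsν (ArF.snd hS)) (ArF.const hS 1))
        (sc_comp hS hsν (ArF.snd hS)) (ArF.fst hS)
    · exact sc_near hS (sc_comp hS hsp (ArF.snd hS)) (sc_const hS hPl) (ArF.fst hS)
  obtain ⟨p, hp, hp'⟩ := Ar.choose hS (R := fun (L : ℕ) (q : ℤ × List ℤ) =>
      near L (act 1 (ν q)) (ν q) ∧ near L (pr (ν q)) νl) hR (by
    intro L
    have o1 : {m : ProbabilityMeasure (Cube I × PM k) | near L (act 1 m) m} ∈ 𝓝 θV := by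
      have : IsOpen {m : ProbabilityMeasure (Cube I × PM k) | near L (act 1 m) m} :=
        (Law.near_open (α := ProbabilityMeasure (Cube I × PM k)) L).preimage
          ((Law.cont (1 : ℤ)).prodMk continuous_id)
      refine this.mem_nhds ?_
      show near L (act 1 θV) θV
      rw [hact]
      exact Law.near_refl L θV
    have o2 : {m : ProbabilityMeasure (Cube I × PM k) | near L (pr m) νl} ∈ 𝓝 θV := by
      have : IsOpen {m : ProbabilityMeasure (Cube I × PM k) | near L (pr m) νl} :=
        (Law.near_open (α := ProbabilityMeasure (Cube I)) L).preimage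
          (hprc.prodMk continuous_const)
      refine this.mem_nhds ?_
      show near L (pr θV) νl
      rw [hprθ]
      exact Law.near_refl L νl
    obtain ⟨_, hm, q, rfl⟩ := mem_closure_iff_nhds.1 hcl _ (Filter.inter_mem o1 o2)
    exact ⟨q, hm.1, hm.2⟩)
  obtain ⟨νi, hPi, hνi⟩ := exists_lim hS hU (w := fun L => ν (p L)) (sc_comp hS hsν hp)
  -- invariance
  have hinv : act 1 νi = νi := by
    refine eq_of_near hU.top (a := fun L => act 1 (ν (p L))) (b := fun L => ν (p L))
      (fun L => (hp' L).1) ?_ hνi
    exact ((Law.cont (1 : ℤ)).tendsto νi).comp hνi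
  have hinv' : ∀ m : ℤ, act m νi = νi := act_fix hinv
  -- the marginal
  have hmar : pr νi = νl := by
    refine tendsto_nhds_unique (f := fun L => pr (ν (p L))) (l := (U : Filter ℕ)) ?_ ?_
    · exact (hprc.tendsto νi).comp hνi
    · exact tendsto_near hU.top fun L => (hp' L).2
  -- the carrier
  have hCc : IsClosed (F '' orb (x, m₁)) :=
    (isClosed_closure.isCompact.image hFc).isClosed
  have hcar : νi (F '' orb (x, m₁)) = 1 := by
    have hmem : ∀ q, ν q ∈ {m : ProbabilityMeasure (Cube I × PM k) |
        m (F '' orb (x, m₁)) = 1} := by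
      intro q
      show (ν q) (F '' orb (x, m₁)) = 1
      rw [one_iff, hν, mxP_apply]
      have e1 : ∀ l : List ℤ, (l.map fun i => ((diracProba (u i) :
          ProbabilityMeasure (Cube I × PM k)) : Measure (Cube I × PM k))
            (F '' orb (x, m₁))).sum = (l.length : ℝ≥0∞) := by
        intro l
        induction l with
        | nil => simp
        | cons a l ih =>
          rw [List.map_cons, List.sum_cons, ih]
          have : ((diracProba (u a) : ProbabilityMeasure (Cube I × PM k)) :
              Measure (Cube I × PM k)) (F '' orb (x, m₁)) = 1 := by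
            show Measure.dirac (u a) (F '' orb (x, m₁)) = 1
            rw [Measure.dirac_apply' _ hCc.measurableSet, Set.indicator_of_mem]
            · rfl
            · exact ⟨sh a (x, m₁), subset_closure ⟨a, rfl⟩, hFe a (x, m₁)⟩
          rw [this]
          push_cast [List.length_cons]
          ring
      rw [e1]
      simp only [List.length_cons]
      exact ENNReal.inv_mul_cancel (by simp) (by simp)
    exact (closed_one _ hCc).mem_of_tendsto hνi (Eventually.of_forall fun L => hmem _)
  have hcar' : (νi : Measure (Cube I × PM k)) (F '' orb (x, m₁)) = 1 := (one_iff _ _).1 hcar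
  have hran : (νi : Measure (Cube I × PM k)) (Set.range F) = 1 := by
    refine le_antisymm prob_le_one ?_
    rw [← hcar']
    exact measure_mono (Set.image_subset_range _ _)
  have hres : (νi : Measure (Cube I × PM k)).restrict (Set.range F) = νi := by
    refine Measure.restrict_eq_self_of_ae_mem ?_
    rw [ae_iff]
    exact (prob_compl_eq_zero_iff hFem.measurableSet_range).2 hran
  have hmc : ((νi : Measure (Cube I × PM k)).comap F).map F = νi := by
    rw [hFem.map_comap, hres]
  have hprob : IsProbabilityMeasure ((νi : Measure (Cube I × PM k)).comap F) := by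
    constructor
    rw [hFem.comap_apply, Set.image_univ, hran]
  set θ' : ProbabilityMeasure (X × PM k) :=
    ⟨(νi : Measure (Cube I × PM k)).comap F, hprob⟩ with hθ'
  have hθ'm : (θ' : Measure (X × PM k)).map F = νi := hmc
  refine ⟨θ', ?_, ?_, ?_, νi, hθ'm.symm, hPi⟩
  · rw [one_iff]
    show ((νi : Measure (Cube I × PM k)).comap F) (orb (x, m₁)) = 1
    rw [hFem.comap_apply, hcar']
  · intro m
    apply Subtype.ext
    show Measure.map (sh m : X × PM k → X × PM k) (θ' : Measure (X × PM k)) =
      (θ' : Measure (X × PM k))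
    have e1 : (Measure.map (sh m : X × PM k → X × PM k) (θ' : Measure (X × PM k))).map F =
        (θ' : Measure (X × PM k)).map F := by
      rw [Measure.map_map hFc.measurable (sh_cont m).measurable]
      have e2 : F ∘ (sh m : X × PM k → X × PM k) =
          (act m : Cube I × PM k → Cube I × PM k) ∘ F := by
        funext p
        exact hFe m p
      rw [e2, ← Measure.map_map (Law.cont m).measurable hFc.measurable, hθ'm]
      exact congrArg Subtype.val (hinv' m)
    rw [← hFem.comap_map (Measure.map (sh m : X × PM k → X × PM k) (θ' : Measure (X × PM k))),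
      e1, hFem.comap_map]
  · have e1 : ((θ' : Measure (X × PM k)).map Prod.fst).map e = (lam : Measure X).map e := by
      rw [Measure.map_map he.cont.measurable measurable_fst]
      have e2 : e ∘ (Prod.fst : X × PM k → X) =
          (Prod.fst : Cube I × PM k → Cube I) ∘ F := rfl
      rw [e2, ← Measure.map_map measurable_fst hFc.measurable, hθ'm, ← hνl]
      exact congrArg Subtype.val hmar
    rw [← heem.comap_map ((θ' : Measure (X × PM k)).map Prod.fst), e1, heem.comap_map]

end Pool.Agent.Work.MP_69fea5_lc.W3
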