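import Pool.Agent.Work.MP_69fea5_lc.W3.StmtsD

/-!
# [69fea5 D STE] existence in the one step lemma
-/

set_option autoImplicit false
set_option linter.unusedSectionVars false

namespace Pool.Agent.Work.MP_69fea5_lc.W3D

open MeasureTheory Topology Set Filter
open ProbabilityTheory (Kernel)
open scoped ENNReal NNReal
open Pool.Agent.Work.MP_69fea5_lc.AK (Sys sh orb)

namespace D_STE

section

variable {G W : Type} [AddGroup G] [TopologicalSpace W] [CompactSpace W] [T2Space W]
  [SecondCountableTopology W] [MeasurableSpace W] [BorelSpace W]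

theorem meas_ext {μ ν : Measure W} [IsFiniteMeasure μ] [IsFiniteMeasure ν]
    (h : ∀ f : C(W, ℝ), ∫ x, f x ∂μ = ∫ x, f x ∂ν) : μ = ν :=
  ext_of_forall_integral_eq_of_IsFiniteMeasure fun f => h f.toContinuousMap

theorem pm_ext {μ ν : ProbabilityMeasure W}
    (h : ∀ f : C(W, ℝ), ∫ x, f x ∂(μ : Measure W) = ∫ x, f x ∂(ν : Measure W)) : μ = ν := by
  have h1 : (μ : Measure W) = (ν : Measure W) := meas_ext h
  exact Subtype.ext h1

theorem integrable (f : C(W, ℝ)) (μ : Measure W) [IsFiniteMeasure μ] : Integrable f μ :=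
  (BoundedContinuousFunction.mkOfCompact f).integrable μ

theorem mv_apply {a : G → W → W} (h : Act a) (g : G) (m : ProbabilityMeasure W) :
    ((mv h g m : ProbabilityMeasure W) : Measure W) = (m : Measure W).map (a g) := rfl

theorem integral_mv {a : G → W → W} (h : Act a) (g : G) (m : ProbabilityMeasure W)
    (f : W → ℝ) (hf : Continuous f) :
    ∫ x, f x ∂(mv h g m : Measure W) = ∫ x, f (a g x) ∂(m : Measure W) := by
  rw [mv_apply]
  exact integral_map (h.cont g).measurable.aemeasurable hf.aestronglyMeasurable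

/-- `m` and `m'` give measure zero to an open set, so does the mid point -/
theorem mid_null {m m' b : ProbabilityMeasure W} (h : Mid m m' b) {s : Set W}
    (hm : (m : Measure W) s = 0) (hm' : (m' : Measure W) s = 0) : (b : Measure W) s = 0 := by
  have h1 : ((b : Measure W) + (b : Measure W)) = ((m : Measure W) + (m' : Measure W)) := by
    refine meas_ext fun f => ?_
    rw [integral_add_measure (integrable f _) (integrable f _),
      integral_add_measure (integrable f _) (integrable f _), ← h f]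
    ring
  have h2 : ((b : Measure W) + (b : Measure W)) s = 0 := by
    rw [h1, Measure.add_apply, hm, hm', add_zero]
  rw [Measure.add_apply] at h2
  exact (add_eq_zero.1 h2).1

/-- averages of a continuous function -/
noncomputable def av (κ' : W → ProbabilityMeasure W) (hκ' : Continuous κ') (f : C(W, ℝ)) :
    C(W, ℝ) :=
  ⟨fun x => ∫ z, f z ∂(κ' x : Measure W),
    (ProbabilityMeasure.continuous_integral_continuousMap f).comp hκ'⟩

theorem av_apply (κ' : W → ProbabilityMeasure W) (hκ' : Continuous κ') (f : C(W, ℝ)) (x : W) :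
    av κ' hκ' f x = ∫ z, f z ∂(κ' x : Measure W) := rfl

theorem act_neg {a : G → W → W} (h : Act a) (g : G) (x : W) : a (-g) (a g x) = x := by
  rw [← h.add, neg_add_cancel, h.zero]

theorem E_iff {a : G → W → W} (h : Act a) {E E' : W → W → Prop} {ρ : W → W → ℝ}
    (hI : Iso1 a E E' ρ) (g : G) (x y : W) : E (a g x) (a g y) ↔ E x y := by
  constructor
  · intro h1
    have h2 := hI.inv (-g) _ _ h1
    rwa [act_neg h, act_neg h] at h2
  · exact hI.inv g x y

/-- the pairs of STE -/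
def Q (E : W → W → Prop) (κ' : W → ProbabilityMeasure W) : Set (W × ProbabilityMeasure W) :=
  {p | (p.2 : Measure W) {y | ¬ E p.1 y} = 0 ∧
    ∀ f : C(W, ℝ), ∫ x, (∫ z, f z ∂(κ' x : Measure W)) ∂(p.2 : Measure W) =
      ∫ x, f x ∂(p.2 : Measure W)}

theorem Q_closed (hUSC : S_USC) {E : W → W → Prop} (hE : IsClosed {p : W × W | E p.1 p.2})
    {κ' : W → ProbabilityMeasure W} (hκ' : Continuous κ') : IsClosed (Q E κ') := by
  have h1 := hUSC W W {p : W × W | E p.1 p.2} hE
  have h2 : Q E κ' = {p : W × ProbabilityMeasure W |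
      (p.2 : Measure W) {y | (p.1, y) ∉ {p : W × W | E p.1 p.2}} = 0} ∩
      ⋂ f : C(W, ℝ), {p : W × ProbabilityMeasure W |
        ∫ x, av κ' hκ' f x ∂(p.2 : Measure W) = ∫ x, f x ∂(p.2 : Measure W)} := by
    ext p
    simp only [Q, mem_setOf_eq, mem_inter_iff, mem_iInter, av_apply]
  rw [h2]
  refine h1.inter (isClosed_iInter fun f => ?_)
  exact isClosed_eq
    ((ProbabilityMeasure.continuous_integral_continuousMap (av κ' hκ' f)).comp continuous_snd)
    ((ProbabilityMeasure.continuous_integral_continuousMap f).comp continuous_snd)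

theorem Q_inv {a : G → W → W} (h : Act a) {E E' : W → W → Prop} {ρ : W → W → ℝ}
    (hI : Iso1 a E E' ρ) {κ' : W → ProbabilityMeasure W} (hκ' : Ker a E' κ')
    (p : W × ProbabilityMeasure W) (hp : p ∈ Q E κ') (g : G) :
    (a g p.1, mv h g p.2) ∈ Q E κ' := by
  obtain ⟨h1, h2⟩ := hp
  have hopen : ∀ w, MeasurableSet {y | ¬ E w y} := by
    intro w
    have : IsClosed {y | E w y} := hI.closed.preimage (f := fun y => (w, y)) (by fun_prop)
    exact this.isOpen_compl.measurableSet
  refine ⟨?_, fun f => ?_⟩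
  · change ((mv h g p.2 : ProbabilityMeasure W) : Measure W) {y | ¬ E (a g p.1) y} = 0
    rw [mv_apply, Measure.map_apply (h.cont g).measurable (hopen _)]
    have : a g ⁻¹' {y | ¬ E (a g p.1) y} = {y | ¬ E p.1 y} := by
      ext y
      simp only [mem_preimage, mem_setOf_eq, E_iff h hI]
    rw [this]
    exact h1
  · have h3 := h2 (f.comp ⟨a g, h.cont g⟩)
    have h4 : ∀ x, ∫ z, f z ∂(κ' (a g x) : Measure W) =
        ∫ z, (f.comp ⟨a g, h.cont g⟩) z ∂(κ' x : Measure W) := by
      intro x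
      rw [hκ'.equi g x, integral_map (h.cont g).measurable.aemeasurable
        f.continuous.aestronglyMeasurable]
      rfl
    change ∫ x, av κ' hκ'.cont f x ∂(mv h g p.2 : Measure W) = ∫ x, f x ∂(mv h g p.2 : Measure W)
    rw [integral_mv h g p.2 _ (av κ' hκ'.cont f).continuous, integral_mv h g p.2 _ f.continuous]
    simp only [av_apply, h4]
    exact h3

theorem Q_mid {E : W → W → Prop} {κ' : W → ProbabilityMeasure W} (hκ' : Continuous κ')
    (w : W) (m m' b : ProbabilityMeasure W) (hm : (w, m) ∈ Q E κ') (hm' : (w, m') ∈ Q E κ')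
    (hb : Mid m m' b) : (w, b) ∈ Q E κ' := by
  refine ⟨mid_null hb hm.1 hm'.1, fun f => ?_⟩
  have h1 := hb (av κ' hκ' f)
  have h2 := hb f
  have h3 := hm.2 f
  have h4 := hm'.2 f
  simp only [av_apply] at h1
  change ∫ x, (∫ z, f z ∂(κ' x : Measure W)) ∂(m : Measure W) = ∫ x, f x ∂(m : Measure W) at h3
  change ∫ x, (∫ z, f z ∂(κ' x : Measure W)) ∂(m' : Measure W) = ∫ x, f x ∂(m' : Measure W) at h4
  change ∫ x, (∫ z, f z ∂(κ' x : Measure W)) ∂(b : Measure W) = ∫ x, f x ∂(b : Measure W)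
  rw [h3, h4] at h1
  linarith

theorem Q_self {a : G → W → W} {E E' : W → W → Prop} {ρ : W → W → ℝ}
    (hI : Iso1 a E E' ρ) {κ' : W → ProbabilityMeasure W} (hκ' : Ker a E' κ') (w : W) :
    (w, κ' w) ∈ Q E κ' := by
  refine ⟨?_, fun f => ?_⟩
  · refine measure_mono_null ?_ (hκ'.car w)
    intro y hy hE
    exact hy ((hI.zero w y).1 hE).1
  · have h1 : ∀ᵐ y ∂(κ' w : Measure W), E' w y := hκ'.car w
    have h2 : ∫ x, (∫ z, f z ∂(κ' x : Measure W)) ∂(κ' w : Measure W) =
        ∫ x, (∫ z, f z ∂(κ' w : Measure W)) ∂(κ' w : Measure W) := by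
      refine integral_congr_ae ?_
      filter_upwards [h1] with y hy
      rw [hκ'.cls w y hy]
    change ∫ x, (∫ z, f z ∂(κ' x : Measure W)) ∂(κ' w : Measure W) = ∫ x, f x ∂(κ' w : Measure W)
    rw [h2, integral_const]
    simp

end

end D_STE

open D_STE in
theorem STE_pf (hUSC : S_USC) (hLEA : S_LEA) (hDL : S_DL) : S_STE := by
  intro G W _ _ _ _ _ _ _ a h hmin E E' ρ hI κ' hκ'
  rcases isEmpty_or_nonempty W with hW | ⟨⟨w₀⟩⟩
  · refine ⟨fun w => isEmptyElim w, ⟨?_, fun x => isEmptyElim x, fun x => isEmptyElim x,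
      fun _ x => isEmptyElim x⟩, fun x => isEmptyElim x⟩
    exact continuous_iff_continuousAt.2 fun x => isEmptyElim x
  obtain ⟨A, hAQ, hAc, ⟨p₀, hp₀⟩, hAi, hAcl, hAp⟩ := hLEA G W a h (Q E κ')
    (Q_closed hUSC hI.closed hκ'.cont) ⟨_, Q_self hI hκ' w₀⟩ (Q_inv h hI hκ')
    (Q_mid hκ'.cont)
  -- the projection is everything
  have hproj : ∀ w, ∃ m, (w, m) ∈ A := by
    have h1 : IsClosed (Prod.fst '' A) := (hAc.isCompact.image continuous_fst).isClosed
    intro w
    have h2 : w ∈ closure (range fun g => a g p₀.1) := hmin p₀.1 w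
    have h3 : closure (range fun g => a g p₀.1) ⊆ Prod.fst '' A := by
      refine closure_minimal ?_ h1
      rintro _ ⟨g, rfl⟩
      exact ⟨_, hAi p₀ hp₀ g, rfl⟩
    obtain ⟨⟨w', m⟩, hm, rfl⟩ := h3 h2
    exact ⟨m, hm⟩
  choose κ hκ using hproj
  -- uniqueness
  have huniq : ∀ w m₁ m₂, (w, m₁) ∈ A → (w, m₂) ∈ A → m₁ = m₂ := by
    intro w m₁ m₂ h1 h2
    obtain ⟨U, m, hU1, hU2⟩ := hAp w m₁ m₂ h1 h2
    have hq1 := hAQ h1
    have hq2 := hAQ h2
    refine pm_ext fun f => ?_
    have h3 := hDL G W a h E E' ρ hI w m₁ m₂ m U hq1.1 hq2.1 hU1 hU2 (av κ' hκ'.cont f)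
      (fun x y hxy => by rw [av_apply, av_apply, hκ'.cls x y hxy])
    have h4 := hq1.2 f
    have h5 := hq2.2 f
    simp only [av_apply] at h3
    change ∫ x, (∫ z, f z ∂(κ' x : Measure W)) ∂(m₁ : Measure W) = ∫ x, f x ∂(m₁ : Measure W) at h4
    change ∫ x, (∫ z, f z ∂(κ' x : Measure W)) ∂(m₂ : Measure W) = ∫ x, f x ∂(m₂ : Measure W) at h5
    rw [← h4, ← h5]
    exact h3
  refine ⟨κ, ⟨?_, ?_, ?_, ?_⟩, ?_⟩
  · -- continuity
    rw [continuous_iff_ultrafilter]
    intro x g hg
    obtain ⟨m, -, hm⟩ := isCompact_univ.ultrafilter_le_nhds (g.map κ) (by simp)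
    have h1 : Tendsto (fun z => (z, κ z)) (g : Filter W) (𝓝 (x, m)) :=
      Tendsto.prodMk_nhds hg hm
    have h2 : (x, m) ∈ A := hAc.mem_of_tendsto h1 (Eventually.of_forall fun z => hκ z)
    have h3 : m = κ x := huniq x m (κ x) h2 (hκ x)
    rw [← h3]
    exact hm
  · intro x y hxy
    have h1 : (y, κ x) ∈ Q E κ' := by
      refine ⟨?_, (hAQ (hκ x)).2⟩
      have h2 : {z | ¬ E y z} = {z | ¬ E x z} := by
        ext z
        simp only [mem_setOf_eq, not_iff_not]
        exact ⟨fun h3 => hI.eqv.trans hxy h3, fun h3 => hI.eqv.trans (hI.eqv.symm hxy) h3⟩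
      change (κ x : Measure W) {z | ¬ E y z} = 0
      rw [h2]
      exact (hAQ (hκ x)).1
    exact huniq y _ _ (hAcl x y (κ x) (hκ x) h1) (hκ y)
  · intro x
    exact (hAQ (hκ x)).1
  · intro g x
    have h1 := huniq (a g x) _ _ (hκ (a g x)) (hAi _ (hκ x) g)
    rw [h1]
    rfl
  · intro x f
    exact (hAQ (hκ x)).2 f

end Pool.Agent.Work.MP_69fea5_lc.W3D
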