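import Pool.Agent.Work.MP_69fea5_lc.W3.StmtsK
import Pool.Agent.Work.MP_69fea5_lc.W3.D_STE
import Pool.Agent.Work.MP_69fea5_lc.W3.D_LEA

/-!
# Item [69fea5 K KUE]: the kernel of the one step lemma is the unique measure of least energy
-/

set_option autoImplicit false

namespace Pool.Agent.Work.MP_69fea5_lc.W3

open MeasureTheory Topology Set Filter TopologicalSpace
open scoped NNReal ENNReal
open Pool.Agent.Work.MP_69fea5_lc.AK

namespace I_KUE

section energy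

variable {W : Type} [TopologicalSpace W] [MeasurableSpace W] [CS W]

theorem cint (g : W → ℝ) (hg : Continuous g) :
    Continuous fun m : ProbabilityMeasure W => ∫ z, g z ∂(m : Measure W) := by
  have := ProbabilityMeasure.continuous_integral_boundedContinuousFunction
        (X := W) (BoundedContinuousFunction.mkOfCompact ⟨g, hg⟩)
  exact this

omit [TopologicalSpace W] [CS W] in
theorem bint (g : W → ℝ) (hb : ∀ z, |g z| ≤ 1) (m : ProbabilityMeasure W) :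
    |∫ z, g z ∂(m : Measure W)| ≤ 1 := by
  have h : ‖∫ z, g z ∂(m : Measure W)‖ ≤ 1 * ((m : Measure W)).real univ :=
    norm_integral_le_of_norm_le_const (ae_of_all _ hb)
  have h10 : ((m : Measure W)).real univ = 1 := by simp
  rw [h10, mul_one] at h
  exact h

/-- the distance belonging to the energy -/
noncomputable def dE (f : ℕ → W → ℝ) (m m' : ProbabilityMeasure W) : ℝ :=
  ∑' i : ℕ, (1 / 2) ^ i * ((∫ z, f i z ∂(m : Measure W) - ∫ z, f i z ∂(m' : Measure W)) / 2) ^ 2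

theorem energy {f : ℕ → W → ℝ} (hf : Sep f) :
    (Continuous fun m : ProbabilityMeasure W => En f m) ∧
    (Continuous fun p : ProbabilityMeasure W × ProbabilityMeasure W => dE f p.1 p.2) ∧
    (∀ m, 0 ≤ En f m ∧ En f m ≤ 2) ∧ (∀ m m', 0 ≤ dE f m m') ∧
    (∀ m m', dE f m m' = 0 → m = m') ∧
    ∀ m m' b, W3D.Mid m m' b → En f b + dE f m m' = (En f m + En f m') / 2 := by
  have hIc : ∀ i, Continuous fun m : ProbabilityMeasure W => ∫ z, f i z ∂(m : Measure W) :=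
    fun i => cint (f i) (hf.cont i)
  have hIb : ∀ i (m : ProbabilityMeasure W), |∫ z, f i z ∂(m : Measure W)| ≤ 1 := fun i m =>
    bint (f i) (hf.bd i) m
  have hdb : ∀ i (m m' : ProbabilityMeasure W),
      |(∫ z, f i z ∂(m : Measure W) - ∫ z, f i z ∂(m' : Measure W)) / 2| ≤ 1 := by
    intro i m m'
    have h1 := hIb i m
    have h2 := hIb i m'
    rw [abs_le] at h1 h2 ⊢
    constructor <;> linarith [h1.1, h1.2, h2.1, h2.2]
  have hnn : ∀ (i : ℕ) (t : ℝ), 0 ≤ (1 / 2 : ℝ) ^ i * t ^ 2 := fun i t => by positivity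
  have hb : ∀ (i : ℕ) (t : ℝ), |t| ≤ 1 → (1 / 2 : ℝ) ^ i * t ^ 2 ≤ (1 / 2) ^ i := by
    intro i t ht
    have h1 : t ^ 2 ≤ 1 := by
      rw [← sq_abs t]
      have := abs_nonneg t
      nlinarith
    have h2 : (0 : ℝ) ≤ (1 / 2) ^ i := by positivity
    nlinarith
  have hnb : ∀ (i : ℕ) (t : ℝ), |t| ≤ 1 → ‖(1 / 2 : ℝ) ^ i * t ^ 2‖ ≤ (1 / 2) ^ i := by
    intro i t ht
    rw [Real.norm_of_nonneg (hnn i t)]
    exact hb i t ht
  have hsum : Summable fun i : ℕ => ((1 : ℝ) / 2) ^ i := summable_geometric_two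
  have hsE : ∀ m : ProbabilityMeasure W,
      Summable fun i : ℕ => (1 / 2 : ℝ) ^ i * (∫ z, f i z ∂(m : Measure W)) ^ 2 := fun m =>
    Summable.of_nonneg_of_le (fun i => hnn i _) (fun i => hb i _ (hIb i m)) hsum
  have hsD : ∀ m m' : ProbabilityMeasure W, Summable fun i : ℕ => (1 / 2 : ℝ) ^ i *
      ((∫ z, f i z ∂(m : Measure W) - ∫ z, f i z ∂(m' : Measure W)) / 2) ^ 2 := fun m m' =>
    Summable.of_nonneg_of_le (fun i => hnn i _) (fun i => hb i _ (hdb i m m')) hsum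
  refine ⟨?_, ?_, ?_, ?_, ?_, ?_⟩
  · refine continuous_tsum (fun i => ?_) hsum fun i m => hnb i _ (hIb i m)
    exact continuous_const.mul ((hIc i).pow 2)
  · refine continuous_tsum (fun i => ?_) hsum fun i p => hnb i _ (hdb i p.1 p.2)
    exact continuous_const.mul
      (((((hIc i).comp continuous_fst).sub ((hIc i).comp continuous_snd)).div_const 2).pow 2)
  · intro m
    refine ⟨tsum_nonneg fun i => hnn i _, ?_⟩
    rw [← tsum_geometric_two]
    exact (hsE m).tsum_le_tsum (fun i => hb i _ (hIb i m)) hsum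
  · intro m m'
    exact tsum_nonneg fun i => hnn i _
  · intro m m' h0
    have h1 : HasSum (fun i : ℕ => (1 / 2 : ℝ) ^ i *
        ((∫ z, f i z ∂(m : Measure W) - ∫ z, f i z ∂(m' : Measure W)) / 2) ^ 2) 0 := by
      rw [← h0]
      exact (hsD m m').hasSum
    have h2 := (hasSum_zero_iff_of_nonneg fun i => hnn i _).mp h1
    refine hf.sep m m' fun i => ?_
    have h3 : (1 / 2 : ℝ) ^ i *
        ((∫ z, f i z ∂(m : Measure W) - ∫ z, f i z ∂(m' : Measure W)) / 2) ^ 2 = 0 :=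
      congrFun h2 i
    have h6 : (0 : ℝ) < (1 / 2) ^ i := by positivity
    have h4 : ((∫ z, f i z ∂(m : Measure W) - ∫ z, f i z ∂(m' : Measure W)) / 2) ^ 2 = 0 := by
      rcases mul_eq_zero.mp h3 with h5 | h5
      · exact absurd h5 h6.ne'
      · exact h5
    have h5 : (∫ z, f i z ∂(m : Measure W) - ∫ z, f i z ∂(m' : Measure W)) / 2 = 0 :=
      pow_eq_zero_iff (two_ne_zero) |>.mp h4
    linarith
  · intro m m' b hmid
    change ∑' i : ℕ, (1 / 2 : ℝ) ^ i * (∫ z, f i z ∂(b : Measure W)) ^ 2 +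
      ∑' i : ℕ, (1 / 2 : ℝ) ^ i *
        ((∫ z, f i z ∂(m : Measure W) - ∫ z, f i z ∂(m' : Measure W)) / 2) ^ 2 =
      (∑' i : ℕ, (1 / 2 : ℝ) ^ i * (∫ z, f i z ∂(m : Measure W)) ^ 2 +
        ∑' i : ℕ, (1 / 2 : ℝ) ^ i * (∫ z, f i z ∂(m' : Measure W)) ^ 2) / 2
    rw [← (hsE b).tsum_add (hsD m m'), ← (hsE m).tsum_add (hsE m'), ← tsum_div_const]
    refine tsum_congr fun i => ?_
    have h1 := hmid ⟨f i, hf.cont i⟩
    simp only [ContinuousMap.coe_mk] at h1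
    have h2 : ∫ z, f i z ∂(b : Measure W) =
      (∫ z, f i z ∂(m : Measure W) + ∫ z, f i z ∂(m' : Measure W)) / 2 := by linarith
    rw [h2]
    ring

end energy

/-- measures of least energy, explicit form of LEA -/
theorem least {G W : Type} [AddGroup G] [TopologicalSpace W] [CompactSpace W] [T2Space W]
    [SecondCountableTopology W] [MeasurableSpace W] [BorelSpace W]
    (a : G → W → W) (h : W3D.Act a) (E : ProbabilityMeasure W → ℝ)
    (d : ProbabilityMeasure W → ProbabilityMeasure W → ℝ)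
    (hEn : Continuous E)
    (hd : Continuous fun p : ProbabilityMeasure W × ProbabilityMeasure W => d p.1 p.2)
    (hEn01 : ∀ m, 0 ≤ E m ∧ E m ≤ 2) (hd0 : ∀ m m', 0 ≤ d m m')
    (hdz : ∀ m m', d m m' = 0 → m = m')
    (hmid : ∀ m m' b, W3D.Mid m m' b → E b + d m m' = (E m + E m') / 2)
    (Q : Set (W × ProbabilityMeasure W)) (hQc : IsClosed Q) (hQne : Q.Nonempty)
    (hQmid : ∀ w m m' b, (w, m) ∈ Q → (w, m') ∈ Q → W3D.Mid m m' b → (w, b) ∈ Q) :
    ∃ γ : ℝ, IsClosed {p : W × ProbabilityMeasure W | p ∈ Q ∧ ∀ g : G, E (W3D.mv h g p.2) ≤ γ} ∧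
      {p : W × ProbabilityMeasure W | p ∈ Q ∧ ∀ g : G, E (W3D.mv h g p.2) ≤ γ}.Nonempty ∧
      ∀ w m₁ m₂, (w, m₁) ∈ Q → (w, m₂) ∈ Q → (∀ g : G, E (W3D.mv h g m₁) ≤ γ) →
        (∀ g : G, E (W3D.mv h g m₂) ≤ γ) → ∃ (U : Ultrafilter G) (m : ProbabilityMeasure W),
        Tendsto (fun g => W3D.mv h g m₁) (U : Filter G) (𝓝 m) ∧
        Tendsto (fun g => W3D.mv h g m₂) (U : Filter G) (𝓝 m) := by
  -- the sets of energy at most `c`
  let F : ℝ → Set (W × ProbabilityMeasure W) := fun c =>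
    {p | p ∈ Q ∧ ∀ g : G, E (W3D.mv h g p.2) ≤ c}
  have hmvc : ∀ g : G, Continuous fun m : ProbabilityMeasure W => W3D.mv h g m := fun g =>
    ProbabilityMeasure.continuous_map (h.cont g)
  have hFc : ∀ c, IsClosed (F c) := by
    intro c
    have h1 : F c = Q ∩ ⋂ g : G, {p : W × ProbabilityMeasure W | E (W3D.mv h g p.2) ≤ c} := by
      ext p
      simp only [F, mem_ofPred_eq, mem_inter_iff, mem_iInter]
    rw [h1]
    exact hQc.inter (isClosed_iInter fun g =>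
      isClosed_le (hEn.comp ((hmvc g).comp continuous_snd)) continuous_const)
  have hFmono : ∀ c c', c ≤ c' → F c ⊆ F c' := fun c c' hcc p hp =>
    ⟨hp.1, fun g => (hp.2 g).trans hcc⟩
  let S : Set ℝ := {c | (F c).Nonempty}
  have hS1 : (2 : ℝ) ∈ S := by
    obtain ⟨p, hp⟩ := hQne
    exact ⟨p, hp, fun g => (hEn01 _).2⟩
  have hSb : BddBelow S := by
    refine ⟨0, ?_⟩
    rintro c ⟨p, -, hp⟩
    exact (hEn01 _).1.trans (hp 0)
  let γ : ℝ := sInf S
  have hSup : ∀ ε : ℝ, 0 < ε → (F (γ + ε)).Nonempty := by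
    intro ε hε
    obtain ⟨c, hc, hcl⟩ := exists_lt_of_csInf_lt (⟨2, hS1⟩ : S.Nonempty)
      (show sInf S < γ + ε by simp only [γ]; linarith)
    obtain ⟨p, hp⟩ := hc
    exact ⟨p, hFmono _ _ hcl.le hp⟩
  have hlow : ∀ c, c < γ → ¬ (F c).Nonempty := by
    intro c hc hne
    exact absurd (csInf_le hSb (show c ∈ S from hne)) (not_le.2 hc)
  have hAne : (F γ).Nonempty := by
    have h1 : (⋂ k : ℕ, F (γ + 1 / ((k : ℝ) + 1))).Nonempty := by
      apply IsCompact.nonempty_iInter_of_sequence_nonempty_isCompact_isClosed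
      · intro k
        apply hFmono
        have : 1 / (((k + 1 : ℕ) : ℝ) + 1) ≤ 1 / ((k : ℝ) + 1) := by
          apply one_div_le_one_div_of_le
          · positivity
          · push_cast
            linarith
        linarith
      · intro k
        exact hSup _ (by positivity)
      · exact (hFc _).isCompact
      · intro k
        exact hFc _
    obtain ⟨p, hp⟩ := h1
    rw [mem_iInter] at hp
    refine ⟨p, (hp 0).1, fun g => ?_⟩
    apply le_of_forall_pos_le_add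
    intro ε hε
    obtain ⟨k, hk⟩ := exists_nat_one_div_lt hε
    exact ((hp k).2 g).trans (by linarith)
  refine ⟨γ, hFc γ, hAne, ?_⟩
  intro w m₁ m₂ hq₁ hq₂ he₁ he₂
  obtain ⟨b, hb⟩ := W3D.D_LEA.exists_mid m₁ m₂
  have hbQ : (w, b) ∈ Q := hQmid w m₁ m₂ b hq₁ hq₂ hb
  let φ : G → ℝ := fun g => d (W3D.mv h g m₁) (W3D.mv h g m₂)
  have hφ : ∀ ε : ℝ, 0 < ε → ∃ g, φ g < ε := by
    intro ε hε
    by_contra hcon
    push Not at hcon
    apply hlow (γ - ε) (by linarith)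
    refine ⟨(w, b), hbQ, fun g => ?_⟩
    have h1 := hmid _ _ _ (W3D.D_LEA.mid_mv h g hb)
    have h2 : E (W3D.mv h g m₁) ≤ γ := he₁ g
    have h3 : E (W3D.mv h g m₂) ≤ γ := he₂ g
    have h4 : ε ≤ d (W3D.mv h g m₁) (W3D.mv h g m₂) := hcon g
    show E (W3D.mv h g b) ≤ γ - ε
    linarith
  have hne : (comap φ (𝓝 (0 : ℝ))).NeBot := by
    rw [comap_neBot_iff]
    intro t ht
    obtain ⟨ε, hε, hball⟩ := Metric.mem_nhds_iff.1 ht
    obtain ⟨g, hg⟩ := hφ ε hε
    refine ⟨g, hball ?_⟩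
    rw [Metric.mem_ball, Real.dist_eq, sub_zero, abs_of_nonneg (hd0 _ _)]
    exact hg
  let U : Ultrafilter G := Ultrafilter.of (comap φ (𝓝 (0 : ℝ)))
  have hU : Tendsto φ (U : Filter G) (𝓝 0) := by
    rw [tendsto_iff_comap]
    exact Ultrafilter.of_le _
  have hlim : ∀ m : ProbabilityMeasure W, ∃ m', Tendsto (fun g => W3D.mv h g m) (U : Filter G)
      (𝓝 m') := by
    intro m
    obtain ⟨m', -, hle⟩ := isCompact_univ.ultrafilter_le_nhds (U.map fun g => W3D.mv h g m)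
      (by simp)
    exact ⟨m', hle⟩
  obtain ⟨m', hm'⟩ := hlim m₁
  obtain ⟨m'', hm''⟩ := hlim m₂
  have h5 : Tendsto φ (U : Filter G) (𝓝 (d m' m'')) :=
    (hd.tendsto (m', m'')).comp (hm'.prodMk_nhds hm'')
  have h6 : d m' m'' = 0 := tendsto_nhds_unique h5 hU
  have h7 : m' = m'' := hdz _ _ h6
  subst h7
  exact ⟨U, m', hm', hm''⟩

end I_KUE

open I_KUE in
open W3D.D_STE in
/-- KUE -/
theorem KUE_pf (hUSC : W3D.S_USC) (hDL : W3D.S_DL) (hSTU : W3D.S_STU) : S_KUE := by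
  intro G W _ _ _ _ a h hmin E E' ρ hI κ' κ hκ' hκ hsat f hf
  have : SecondCountableTopology W := W3D.secondCountable_of_CS W
  rcases isEmpty_or_nonempty W with hW | ⟨⟨w₀⟩⟩
  · exact ⟨0, fun _ w => isEmptyElim w, fun w => isEmptyElim w⟩
  obtain ⟨e1, e2, e3, e4, e5, e6⟩ := energy hf
  obtain ⟨γ, hAc, ⟨p₀, hp₀⟩, hAp⟩ := least a h (En f) (dE f) e1 e2 e3 e4 e5 e6 (Q E κ')
    (Q_closed hUSC hI.closed hκ'.cont) ⟨_, Q_self hI hκ' w₀⟩ (Q_mid hκ'.cont)
  set A : Set (W × ProbabilityMeasure W) :=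
    {p | p ∈ Q E κ' ∧ ∀ g : G, En f (W3D.mv h g p.2) ≤ γ} with hA
  have hAQ : A ⊆ Q E κ' := fun p hp => hp.1
  have hAi : ∀ p ∈ A, ∀ g, (a g p.1, W3D.mv h g p.2) ∈ A := by
    intro p hp g
    refine ⟨Q_inv h hI hκ' p hp.1 g, fun g' => ?_⟩
    show En f (W3D.mv h g' (W3D.mv h g p.2)) ≤ γ
    rw [W3D.D_LEA.mv_add]
    exact hp.2 _
  -- the projection is everything
  have hproj : ∀ w, ∃ m, (w, m) ∈ A := by
    have h1 : IsClosed (Prod.fst '' A) := (hAc.isCompact.image continuous_fst).isClosed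
    intro w
    have h2 : w ∈ closure (range fun g => a g p₀.1) := hmin p₀.1 w
    have h3 : closure (range fun g => a g p₀.1) ⊆ Prod.fst '' A := by
      refine closure_minimal ?_ h1
      rintro _ ⟨g, rfl⟩
      exact ⟨_, hAi p₀ hp₀ g, rfl⟩
    obtain ⟨⟨w', m⟩, hm, rfl⟩ := h3 h2
    exact ⟨m, hm⟩
  choose κ₁ hκ₁ using hproj
  -- uniqueness
  have huniq : ∀ w m₁ m₂, (w, m₁) ∈ A → (w, m₂) ∈ A → m₁ = m₂ := by
    intro w m₁ m₂ h1 h2
    obtain ⟨U, m, hU1, hU2⟩ := hAp w m₁ m₂ h1.1 h2.1 h1.2 h2.2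
    have hq1 := hAQ h1
    have hq2 := hAQ h2
    refine pm_ext fun u => ?_
    have h3 := hDL G W a h E E' ρ hI w m₁ m₂ m U hq1.1 hq2.1 hU1 hU2 (av κ' hκ'.cont u)
      (fun x y hxy => by rw [av_apply, av_apply, hκ'.cls x y hxy])
    have h4 := hq1.2 u
    have h5 := hq2.2 u
    simp only [av_apply] at h3
    change ∫ x, (∫ z, u z ∂(κ' x : Measure W)) ∂(m₁ : Measure W) = ∫ x, u x ∂(m₁ : Measure W) at h4
    change ∫ x, (∫ z, u z ∂(κ' x : Measure W)) ∂(m₂ : Measure W) = ∫ x, u x ∂(m₂ : Measure W) at h5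
    rw [← h4, ← h5]
    exact h3
  have hker : W3D.Ker a E κ₁ := by
    refine ⟨?_, ?_, ?_, ?_⟩
    · -- continuity
      rw [continuous_iff_ultrafilter]
      intro x g hg
      obtain ⟨m, -, hm⟩ := isCompact_univ.ultrafilter_le_nhds (g.map κ₁) (by simp)
      have h1 : Tendsto (fun z => (z, κ₁ z)) (g : Filter W) (𝓝 (x, m)) :=
        Tendsto.prodMk_nhds hg hm
      have h2 : (x, m) ∈ A := hAc.mem_of_tendsto h1 (Eventually.of_forall fun z => hκ₁ z)
      have h3 : m = κ₁ x := huniq x m (κ₁ x) h2 (hκ₁ x)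
      rw [← h3]
      exact hm
    · intro x y hxy
      have h1 : (y, κ₁ x) ∈ Q E κ' := by
        refine ⟨?_, (hAQ (hκ₁ x)).2⟩
        have h2 : {z | ¬ E y z} = {z | ¬ E x z} := by
          ext z
          simp only [mem_ofPred_eq, not_iff_not]
          exact ⟨fun h3 => hI.eqv.trans hxy h3, fun h3 => hI.eqv.trans (hI.eqv.symm hxy) h3⟩
        change (κ₁ x : Measure W) {z | ¬ E y z} = 0
        rw [h2]
        exact (hAQ (hκ₁ x)).1
      exact huniq y _ _ ⟨h1, (hκ₁ x).2⟩ (hκ₁ y)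
    · intro x
      exact (hAQ (hκ₁ x)).1
    · intro g x
      have h1 := huniq (a g x) _ _ (hκ₁ (a g x)) (hAi _ (hκ₁ x) g)
      rw [h1]
      rfl
  have hsat1 : W3D.Sat κ₁ κ' := fun x u => (hAQ (hκ₁ x)).2 u
  have heq : κ₁ = κ := hSTU G W a h hmin E E' ρ hI κ' κ₁ κ hκ' hker hκ hsat1 hsat
  subst heq
  refine ⟨γ, fun g w => (hκ₁ w).2 g, ?_⟩
  intro w m hm1 hm2 hm3
  exact huniq w m (κ₁ w) ⟨⟨hm1, hm2⟩, hm3⟩ (hκ₁ w)

end Pool.Agent.Work.MP_69fea5_lc.W3
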