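import Pool.Agent.Work.MP_69fea5_lc.W3.StmtsK

/-!
Block [69fea5 K], coding of the tower, item KXC: coded exact points of the next level.
-/

set_option autoImplicit false

namespace Pool.Agent.Work.MP_69fea5_lc.W3

open MeasureTheory Topology Set Filter TopologicalSpace ProbabilityTheory
open scoped NNReal ENNReal
open Pool.Agent.Work.MP_69fea5_lc.AK
open Pool.Agent.Work.MP_69fea5_lc.HK (Cl DU Ar ArF ArR Dat Law LawC act near sc Pt oc Mn mr ext)
open Pool.Agent.Work.MP_69fea5_lc.KC (Agree)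

namespace I_KXC

/-- the condition `ZSX` is not changed by an equivariant embedding of the base point -/
theorem zsx_iff {k : ℕ} {X Y : Type} [TopologicalSpace X] [Sys X] [TopologicalSpace Y] [Sys Y]
    (f : X → Y) (hf : IsInducing f) (hs : ∀ (n : ℤ) (x : X), f (sh n x) = sh n (f x))
    (c : Om k) (m : PM k) (x : X) (z : Om k) : ZSX c m (f x) z ↔ ZSX c m x z := by
  constructor
  · intro h U hU V hV L
    rw [hf.nhds_eq_comap, Filter.mem_comap] at hV
    obtain ⟨V', hV', hsub⟩ := hV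
    obtain ⟨n, hn, hnV, hg⟩ := h U hU V' hV' L
    refine ⟨n, hn, hsub ?_, hg⟩
    show f (sh (n : ℤ) x) ∈ V'
    rw [hs]
    exact hnV
  · intro h U hU V hV L
    obtain ⟨n, hn, hnV, hg⟩ := h U hU (f ⁻¹' V) (hf.continuous.continuousAt.preimage_mem_nhds hV) L
    refine ⟨n, hn, ?_, hg⟩
    rw [← hs]
    exact hnV

end I_KXC

open I_KXC in
theorem KXC_pf (h1 : S_KAM) (h2 : S_KEX) (h3 : S_ZSC) : S_KXC := by
  intro S U hS hU k c hc M X _ _ _ _ π I _ e hPo he z hz hpz hpe hg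
  obtain ⟨m₁, hm₁, hAA, hmin⟩ := h1 S U hS hU k M X π I e hPo he z hz hpz hpe
  obtain ⟨⟨z₀, hz₀⟩, hall⟩ := h2 k c M X π (π z) m₁ hPo hAA hmin hg
  have hind : IsInducing (fun q : X × PM k => ((e q.1, q.2) : Cube I × PM k)) := by
    have h4 : IsInducing e := (he.cont.isClosedEmbedding he.inj).isInducing
    exact h4.prodMap (IsInducing.id : IsInducing (id : PM k → PM k))
  have hiff : ∀ w : Om k, ZSX c m₁ ((e (π z), m₁) : Cube I × PM k) w ↔
      ZSX c m₁ (π z, m₁) w := fun w =>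
    zsx_iff (fun q : X × PM k => ((e q.1, q.2) : Cube I × PM k)) hind (fun n q => by
      simp only [sh_prod]
      exact congrArg (fun a : Cube I => ((a, sh n q.2) : Cube I × PM k)) (he.equi n q.1))
      c m₁ (π z, m₁) w
  obtain ⟨w, hw, hws⟩ := h3 S U hS hU k c (Cube I × PM k) m₁ (e (π z), m₁) hc hm₁
    (pt_prod.2 ⟨hpe, hm₁⟩) ⟨z₀, (hiff z₀).2 hz₀⟩
  obtain ⟨hwM, hwz, hX⟩ := hall w ((hiff w).1 hws)
  exact ⟨w, hwM, hw, hwz, hX⟩

end Pool.Agent.Work.MP_69fea5_lc.W3
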