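import Pool.Agent.Work.MP_69fea5_lc.W3.StmtsL

/-!
# [69fea5 W3 L1A] (1a) of note 3799
-/

set_option autoImplicit false

namespace Pool.Agent.Work.MP_69fea5_lc.W3

open MeasureTheory Topology Set Filter TopologicalSpace ProbabilityTheory
open scoped NNReal ENNReal
open Pool.Agent.Work.MP_69fea5_lc.AK

namespace I_L1A

/-- invariance under `sh 1` gives invariance under all shifts -/
theorem inv_all {k : ℕ} {X : Type} [TopologicalSpace X] [Sys X] {n : ℕ} {M : Set (Om k)}
    {π : Om k → X} {G : (Fin n → Om k) → ℝ} (hI : AK.Inv (CM n M π))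
    (h : ∀ u ∈ CM n M π, G (fun i => sh 1 (u i)) = G u) :
    ∀ m : ℤ, ∀ u ∈ CM n M π, G (sh m u) = G u := by
  have h1 : ∀ u ∈ CM n M π, G (sh 1 u) = G u := h
  intro m
  induction m using Int.induction_on with
  | zero =>
    intro u _
    rw [sh_zero]
  | succ i ih =>
    intro u hu
    rw [sh_add, ih _ (hI 1 u hu)]
    exact h1 u hu
  | pred i ih =>
    intro u hu
    have h2 : sh (-(i : ℤ)) u = sh 1 (sh (-(i : ℤ) - 1) u) := by
      rw [← sh_add]
      congr 1
      ring
    rw [← ih u hu, h2]
    exact (h1 _ (hI _ u hu)).symm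

end I_L1A

open I_L1A in
theorem L1A_pf (hLIN : S_LIN) (hLGR : S_LGR) (hLTE : S_LTE) (hLFS : S_LFS) : S_L1A := by
  intro k n X _ _ _ _ M π lam Q η κ ρ G hπ hQ hη hK hρ hG u hu u' hu' hh
  classical
  obtain ⟨-, -, -, hCMc, hCMi, -, -⟩ := hLGR k n X M π hπ
  have hGall := inv_all hCMi hG.inv
  -- membership in `CM` depends only on the positions
  have hmem : ∀ x ∈ CM n M π, ∀ y : Fin n → Om k, (∀ i, y i ∈ M) → (∀ i, π (y i) = π (x i)) →
      y ∈ CM n M π := by
    intro x hx y hyM hy
    refine ⟨hyM, ?_⟩
    have e1 : (fun i => π (y i)) = (fun i => π (x i)) := funext hy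
    rw [e1]
    exact hx.2
  -- the change of one coordinate
  have step : ∀ x ∈ CM n M π, ∀ (j : Fin n) (w' : Om k), w' ∈ M → π (x j) = π w' →
      ThL π κ (x j) = ThL π κ w' → G x = G (Function.update x j w') := by
    intro x hx j w' hw' hπw hTh
    obtain ⟨hL1, hL2, hL3, -, hL5⟩ := hLIN n j (Om k)
    set w : Om k := x j with hw
    have hwM : w ∈ M := hx.1 j
    set r : Oth j → Om k := fun i : Oth j => x i with hr
    have hxr : ins j w r = x := hL2 x
    have hA : ∀ v : Oth j → Om k, ins j w v ∈ CM n M π ↔ ins j w' v ∈ CM n M π := by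
      intro v
      have e1 : ∀ i : Fin n, π (ins j w v i) = π (ins j w' v i) := by
        intro i
        by_cases hi : i = j
        · subst hi
          rw [(hL1 w v).1, (hL1 w' v).1]
          exact hπw
        · have e2 := (hL1 w v).2 ⟨i, hi⟩
          have e3 := (hL1 w' v).2 ⟨i, hi⟩
          change ins j w v i = v ⟨i, hi⟩ at e2
          change ins j w' v i = v ⟨i, hi⟩ at e3
          rw [e2, e3]
      constructor
      · intro hv
        refine hmem _ hv _ (fun i => ?_) (fun i => (e1 i).symm)
        by_cases hi : i = j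
        · subst hi
          rw [(hL1 w' v).1]
          exact hw'
        · have e2 := (hL1 w v).2 ⟨i, hi⟩
          have e3 := (hL1 w' v).2 ⟨i, hi⟩
          change ins j w v i = v ⟨i, hi⟩ at e2
          change ins j w' v i = v ⟨i, hi⟩ at e3
          rw [e3, ← e2]
          exact hv.1 i
      · intro hv
        refine hmem _ hv _ (fun i => ?_) (fun i => (e1 i))
        by_cases hi : i = j
        · subst hi
          rw [(hL1 w v).1]
          exact hwM
        · have e2 := (hL1 w v).2 ⟨i, hi⟩
          have e3 := (hL1 w' v).2 ⟨i, hi⟩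
          change ins j w v i = v ⟨i, hi⟩ at e2
          change ins j w' v i = v ⟨i, hi⟩ at e3
          rw [e2, ← e3]
          exact hv.1 i
    -- the relations
    let R : ℚ → Set (Fin n → Om k) := fun c => {y | y ∈ CM n M π ∧ G y ≤ (c : ℝ)}
    have hRc : ∀ c, IsClosed (R c) := by
      intro c
      have e1 := hG.cont.preimage_isClosed_of_isClosed hCMc (isClosed_Iic (a := (c : ℝ)))
      exact e1
    have hRi : ∀ c, AK.Inv (R c) := by
      rintro c m y ⟨hy1, hy2⟩
      refine ⟨hCMi m y hy1, ?_⟩
      rw [hGall m y hy1]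
      exact hy2
    set μ : Measure (Oth j → Om k) := (κ j (π w) : Measure (Oth j → Om k)) with hμ
    have hnull : ∀ s : Set (Oth j → Om k), κ j (π w) s = 0 → μ s = 0 := by
      intro s hs
      rw [hμ, ← ProbabilityMeasure.ennreal_coeFn_eq_coeFn_toMeasure, hs]
      rfl
    have hN : μ (⋃ c : ℚ, ({v | ins j w v ∈ R c ∧ ins j w' v ∉ R c} ∪
        {v | ins j w' v ∈ R c ∧ ins j w v ∉ R c})) = 0 := by
      rw [measure_iUnion_null_iff]
      intro c
      have e1 := hLTE k n X π κ w w' hπw hTh j (R c) (hRc c) (hRi c)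
      exact measure_union_null (hnull _ e1.1) (hnull _ e1.2)
    -- the function
    set H : (Oth j → Om k) → ℝ := fun v => |G (ins j w v) - G (ins j w' v)| with hH
    have hHc : ContinuousOn H {v | ins j w v ∈ CM n M π} := by
      have e1 : ∀ w0 : Om k, Continuous (fun v : Oth j → Om k => ins j w0 v) := by
        intro w0
        exact hL3.comp (continuous_const.prodMk continuous_id)
      have e2 : ContinuousOn (fun v : Oth j → Om k => G (ins j w v))
          {v | ins j w v ∈ CM n M π} := hG.cont.comp (e1 w).continuousOn (fun v hv => hv)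
      have e3 : ContinuousOn (fun v : Oth j → Om k => G (ins j w' v))
          {v | ins j w v ∈ CM n M π} :=
        hG.cont.comp (e1 w').continuousOn (fun v hv => (hA v).1 hv)
      exact (e2.sub e3).abs
    have hself : ∀ w0 ∈ M, ρ w0 w0 (π w0) = 0 := fun w0 hw0 => hρ.self (π w0) w0 ⟨hw0, rfl⟩
    have hHf : ∀ v v', ins j w v ∈ CM n M π → ins j w v' ∈ CM n M π →
        (∀ i, π (v i) = π (v' i) ∧ ρ (v i) (v' i) (π (v i)) = 0) → H v = H v' := by
      intro v v' hv hv' hvv
      have e0 : ∀ w0 ∈ M, ∀ i : Fin n, π (ins j w0 v i) = π (ins j w0 v' i) ∧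
          ρ (ins j w0 v i) (ins j w0 v' i) (π (ins j w0 v i)) = 0 := by
        intro w0 hw0 i
        by_cases hi : i = j
        · subst hi
          rw [(hL1 w0 v).1, (hL1 w0 v').1]
          exact ⟨rfl, hself w0 hw0⟩
        · have e2 := (hL1 w0 v).2 ⟨i, hi⟩
          have e3 := (hL1 w0 v').2 ⟨i, hi⟩
          change ins j w0 v i = v ⟨i, hi⟩ at e2
          change ins j w0 v' i = v' ⟨i, hi⟩ at e3
          rw [e2, e3]
          exact hvv ⟨i, hi⟩
      have e1 := hG.fac _ hv _ hv' (e0 w hwM)
      have e2 := hG.fac _ ((hA v).1 hv) _ ((hA v').1 hv') (e0 w' hw')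
      rw [hH]
      change |G (ins j w v) - G (ins j w' v)| = |G (ins j w v') - G (ins j w' v')|
      rw [e1, e2]
    have hHr : H r = 0 := by
      by_contra hne
      have hpos : 0 < H r := lt_of_le_of_ne (abs_nonneg _) (Ne.symm hne)
      have e1 := hLFS k n X M π lam Q η κ ρ hπ hQ hη hK hρ j w hwM H hHc hHf r
        (by rw [hxr]; exact hx) (H r) hpos
      have e2 : μ {v | ins j w v ∈ CM n M π ∧ |H v - H r| < H r} = 0 := by
        refine measure_mono_null ?_ hN
        rintro v ⟨hv1, hv2⟩
        have hv0 : H v ≠ 0 := by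
          intro h0
          rw [h0, zero_sub, abs_neg, abs_of_pos hpos] at hv2
          exact lt_irrefl _ hv2
        have hne' : G (ins j w v) ≠ G (ins j w' v) := by
          intro h0
          apply hv0
          change |G (ins j w v) - G (ins j w' v)| = 0
          rw [h0, sub_self, abs_zero]
        rw [mem_iUnion]
        rcases lt_or_gt_of_ne hne' with hlt | hlt
        · obtain ⟨c, hc1, hc2⟩ := exists_rat_btwn hlt
          refine ⟨c, Or.inl ⟨⟨hv1, hc1.le⟩, ?_⟩⟩
          rintro ⟨-, hc3⟩
          exact absurd hc3 (not_le.2 hc2)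
        · obtain ⟨c, hc1, hc2⟩ := exists_rat_btwn hlt
          refine ⟨c, Or.inr ⟨⟨(hA v).1 hv1, hc1.le⟩, ?_⟩⟩
          rintro ⟨-, hc3⟩
          exact absurd hc3 (not_le.2 hc2)
      rw [hμ, ← ProbabilityMeasure.ennreal_coeFn_eq_coeFn_toMeasure] at e2
      have e3 : κ j (π w) {v | ins j w v ∈ CM n M π ∧ |H v - H r| < H r} = 0 := by
        exact_mod_cast e2
      rw [e3] at e1
      exact lt_irrefl _ e1
    have e1 : G (ins j w r) = G (ins j w' r) := by
      have e2 : |G (ins j w r) - G (ins j w' r)| = 0 := hHr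
      exact sub_eq_zero.1 (abs_eq_zero.1 e2)
    rw [hxr] at e1
    have e3 : Function.update x j w' = ins j w' r := by
      rw [← hL5 w w' r, hxr]
    rw [e3]
    exact e1
  -- all coordinates
  have all : ∀ S : Finset (Fin n), (fun i => if i ∈ S then u' i else u i) ∈ CM n M π ∧
      G u = G (fun i => if i ∈ S then u' i else u i) := by
    intro S
    induction S using Finset.induction_on with
    | empty => simpa using hu
    | insert j S hj ih =>
      have hmem' : (fun i => if i ∈ insert j S then u' i else u i) ∈ CM n M π := by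
        refine hmem u hu _ (fun i => ?_) (fun i => ?_)
        · by_cases hi : i ∈ insert j S
          · simp only [hi, if_true]
            exact hu'.1 i
          · simp only [hi, if_false]
            exact hu.1 i
        · by_cases hi : i ∈ insert j S
          · simp only [hi, if_true]
            exact (hh i).1.symm
          · simp only [hi, if_false]
      refine ⟨hmem', ?_⟩
      have e1 := step _ ih.1 j (u' j) (hu'.1 j) (by simpa [hj] using (hh j).1)
        (by simpa [hj] using (hh j).2)
      rw [ih.2, e1]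
      congr 1
      funext i
      by_cases hi : i = j
      · subst hi
        simp
      · simp [Function.update_of_ne hi, Finset.mem_insert, hi]
  have hfin := (all Finset.univ).2
  simpa using hfin

end Pool.Agent.Work.MP_69fea5_lc.W3
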