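import Pool.Agent.Work.MP_69fea5_lc.W3.StmtsL

set_option autoImplicit false

namespace Pool.Agent.Work.MP_69fea5_lc.W3

open MeasureTheory Topology Set Filter TopologicalSpace ProbabilityTheory
open scoped NNReal ENNReal
open Pool.Agent.Work.MP_69fea5_lc.AK

theorem LAA_pf (hORB : AK.S_ORB) (hFDL : S_FDL) (hSEO : S_SEO) (hAAN : S_AAN) (hSPE : S_SPE)
    (hLGR : S_LGR) : S_LAA := by
  intro k X _ _ _ _ M π v₀ m₀ hPo hAA hmin
  obtain ⟨hgmin, hsnd, huniv, -⟩ := hLGR k 0 X M π hPo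
  obtain ⟨hDc, hDi, hDf, hDF⟩ := hFDL (Om k) X (gr M π) hgmin.closed hgmin.inv
  obtain ⟨hSep, -, -, hAAF⟩ := hSEO k
  have hFmin : MinSet (Prod.fst '' Dlt (gr M π)) := by
    rw [hDf, hsnd]
    exact huniv
  obtain ⟨hAc, hAi, -⟩ := hAAN (Om k) X (fcyl k) (Dlt (gr M π)) hSep hDc hDi hFmin
  have hmem : (v₀, m₀) ∈ AAE (fcyl k) (Dlt (gr M π)) := by
    rw [hAAF X (Dlt (gr M π))]
    change (v₀, m₀) ∈ Fam (Dlt (gr M π)) ∧ ∀ p' ∈ Fam (Dlt (gr M π)), GG m₀ ≤ GG p'.2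
    rw [hDF]
    exact hAA
  have hsub : orb (v₀, m₀) ⊆ AAE (fcyl k) (Dlt (gr M π)) :=
    (hORB (X × PM k) (v₀, m₀)).2.2.2.1 _ hAc hAi hmem
  have hspr : SPr (orb (v₀, m₀)) (Prod.fst : X × PM k → X) :=
    hSPE (Om k) X (fcyl k) (Dlt (gr M π)) (orb (v₀, m₀)) hSep hDc hDi hFmin hsub hmin.closed
      hmin.inv
  refine ⟨⟨hmin, continuous_fst, fun n e => rfl, hspr⟩, ?_, ?_⟩
  · refine huniv.min _ ?_ (hmin.ne.image _) ?_ (subset_univ _)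
    · exact (hmin.closed.isCompact.image continuous_fst).isClosed
    · rintro n _ ⟨z, hz, rfl⟩
      exact ⟨sh n z, hmin.inv n z hz, rfl⟩
  · intro e he
    have h1 : e ∈ Fam (Dlt (gr M π)) := (hsub he).1
    rw [hDF] at h1
    have hset : {w | w ∈ M ∧ π w = e.1} = {u | (u, e.1) ∈ gr M π} := by
      ext u
      exact ⟨fun h => ⟨h.1, h.2.symm⟩, fun h => ⟨h.1, h.2.symm⟩⟩
    rw [hset]
    exact h1

end Pool.Agent.Work.MP_69fea5_lc.W3
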