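import Pool.Agent.Work.MP_69fea5_lc.W3.StmtsL

set_option autoImplicit false

namespace Pool.Agent.Work.MP_69fea5_lc.W3

open MeasureTheory Topology Set Filter TopologicalSpace ProbabilityTheory
open scoped NNReal ENNReal
open Pool.Agent.Work.MP_69fea5_lc.AK

theorem LBL_pf (hBCX : S_BCX) (hRIM : S_RIM) (hBLX : S_BLX) (hLGR : S_LGR) : S_LBL := by
  intro k X _ _ _ _ M π E hPo hE hone ρ hρ r hr e he w hw hwe
  obtain ⟨hmin, hsnd, huniv, -⟩ := hLGR k 0 X M π hPo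
  have himg : (Prod.fst : X × PM k → X) '' E = univ := by
    refine huniv.min _ ?_ (hE.min.ne.image _) ?_ (subset_univ _)
    · exact (hE.min.closed.isCompact.image continuous_fst).isClosed
    · rintro n _ ⟨z, hz, rfl⟩
      exact ⟨sh n z, hE.min.inv n z hz, rfl⟩
  have hset : ∀ x : X, {u | (u, x) ∈ gr M π} = {w | w ∈ M ∧ π w = x} := by
    intro x
    ext u
    exact ⟨fun h => ⟨h.1, h.2.symm⟩, fun h => ⟨h.1, h.2.symm⟩⟩
  obtain ⟨A', hA'⟩ := hBCX (Om k) X (X × PM k) (gr M π) E (Prod.fst : X × PM k → X) hE hmin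
    (hsnd.trans himg.symm)
  have hLev : Lev A' (Prod.snd : X × PM k → PM k) := by
    refine hRIM (Om k) X (X × PM k) (gr M π) E (Prod.fst : X × PM k → X) A'
      (Prod.snd : X × PM k → PM k) hA' continuous_snd (fun n e => rfl) ?_
    intro e he
    rw [hset]
    exact hone e he
  have h := hBLX (Om k) X (X × PM k) (gr M π) E (Prod.fst : X × PM k → X) A'
    (Prod.snd : X × PM k → PM k) ρ hA' hLev hρ r hr e he w ⟨hw, hwe.symm⟩
  have hs : {w' | w' ∈ M ∧ π w' = e.1 ∧ ρ w w' e.1 < r} =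
      {v | (v, e.1) ∈ gr M π ∧ ρ w v e.1 < r} := by
    ext u
    exact ⟨fun h => ⟨⟨h.1, h.2.1.symm⟩, h.2.2⟩, fun h => ⟨h.1.1, h.1.2.symm, h.2⟩⟩
  rw [hs]
  exact h

end Pool.Agent.Work.MP_69fea5_lc.W3
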