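import Pool.Agent.Work.MP_69fea5_lc.W3.StmtsL

set_option autoImplicit false

namespace Pool.Agent.Work.MP_69fea5_lc.W3

open MeasureTheory Topology Set Filter TopologicalSpace ProbabilityTheory
open scoped NNReal ENNReal
open Pool.Agent.Work.MP_69fea5_lc.AK

namespace I_LEK

variable {k : ℕ} {X : Type} [TopologicalSpace X] [MeasurableSpace X] [CS X] [Sys X]

theorem meas_coe {B : Set (Om k)} (hB : MeasurableSet B) :
    Measurable fun m : PM k => (m : Measure (Om k)) B := Kernel.measurable_coe (evK k) hB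

theorem markov_evK (k : ℕ) : IsMarkovKernel (evK k) := ⟨fun m => m.2⟩

omit [TopologicalSpace X] [CS X] [Sys X] in
theorem evK_apply (χ : Kernel X (PM k)) (v : X) {B : Set (Om k)} (hB : MeasurableSet B) :
    (evK k ∘ₖ χ) v B = ∫⁻ m, (m : Measure (Om k)) B ∂(χ v) := by
  rw [Kernel.comp_apply' _ _ _ hB]; rfl

omit [Sys X] in
theorem meas_fib {M : Set (Om k)} {π : Om k → X} (hM : IsClosed M) (hπ : ContinuousOn π M)
    (v : X) : IsClosed {w | w ∈ M ∧ π w = v} := by
  have h := hπ.preimage_isClosed_of_isClosed hM (isClosed_singleton (x := v))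
  exact h

/-- uniqueness of the disintegration -/
theorem dis_eqv (lam : ProbabilityMeasure X) (θ : ProbabilityMeasure (X × PM k))
    (χ : Kernel X (PM k)) [IsMarkovKernel χ] (hθ : ∀ m : ℤ, sh m θ = θ)
    (hd : (θ : Measure (X × PM k)) = (lam : Measure X) ⊗ₘ χ) :
    ∀ᵐ v ∂(lam : Measure X), χ (sh 1 v) = (χ v).map (sh 1 : PM k → PM k) := by
  have hT : Measurable (sh 1 : X → X) := (sh_cont 1).measurable
  have hT' : Measurable (sh (-1) : X → X) := (sh_cont (-1)).measurable
  have hS : Measurable (sh 1 : PM k → PM k) := (sh_cont 1).measurable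
  have hθ1 : (θ : Measure (X × PM k)).map (sh 1 : X × PM k → X × PM k) = θ := by
    have := congrArg (fun q : ProbabilityMeasure (X × PM k) => (q : Measure (X × PM k))) (hθ 1)
    exact this
  have hTT : Measurable (sh 1 : X × PM k → X × PM k) := (sh_cont 1).measurable
  have hfst : (θ : Measure (X × PM k)).map Prod.fst = (lam : Measure X) := by
    have := Measure.fst_compProd (lam : Measure X) χ
    rw [← hd] at this
    exact this
  have hlam : (lam : Measure X).map (sh 1 : X → X) = lam := by
    rw [← hfst, Measure.map_map hT measurable_fst]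
    conv_rhs => rw [← hθ1]
    rw [Measure.map_map measurable_fst hTT]
    rfl
  haveI : SecondCountableTopology (PM k) := inferInstance
  have key : (lam : Measure X) ⊗ₘ (χ.comap (sh 1 : X → X) hT) =
      (lam : Measure X) ⊗ₘ (χ.map (sh 1 : PM k → PM k)) := by
    ext s hs
    rw [Measure.compProd_apply hs, Measure.compProd_apply hs]
    have e1 : ∫⁻ v, (χ.comap (sh 1 : X → X) hT) v (Prod.mk v ⁻¹' s) ∂(lam : Measure X) =
        (θ : Measure (X × PM k)) {p | (sh (-1) p.1, p.2) ∈ s} := by
      have hs' : MeasurableSet {p : X × PM k | (sh (-1) p.1, p.2) ∈ s} :=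
        ((hT'.comp measurable_fst).prodMk measurable_snd) hs
      rw [hd, Measure.compProd_apply hs']
      conv_rhs => rw [← hlam]
      rw [lintegral_map (Kernel.measurable_kernel_prodMk_left hs') hT]
      refine lintegral_congr fun v => ?_
      rw [Kernel.comap_apply]
      congr 1
      ext m
      simp only [mem_preimage, mem_setOf_eq]
      rw [← sh_add]
      simp [sh_zero]
    have e2 : ∫⁻ v, (χ.map (sh 1 : PM k → PM k)) v (Prod.mk v ⁻¹' s) ∂(lam : Measure X) =
        (θ : Measure (X × PM k)) {p | (p.1, sh 1 p.2) ∈ s} := by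
      have hs' : MeasurableSet {p : X × PM k | (p.1, sh 1 p.2) ∈ s} :=
        (measurable_fst.prodMk (hS.comp measurable_snd)) hs
      rw [hd, Measure.compProd_apply hs']
      refine lintegral_congr fun v => ?_
      rw [Kernel.map_apply _ hS, Measure.map_apply hS (measurable_prodMk_left hs)]
      rfl
    rw [e1, e2]
    have hs' : MeasurableSet {p : X × PM k | (sh (-1) p.1, p.2) ∈ s} :=
      ((hT'.comp measurable_fst).prodMk measurable_snd) hs
    conv_lhs => rw [← hθ1]
    rw [Measure.map_apply hTT hs']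
    congr 1
    ext p
    simp only [mem_preimage, mem_setOf_eq]
    change (sh (-1) (sh 1 p.1), sh 1 p.2) ∈ s ↔ _
    rw [← sh_add]
    simp [sh_zero]
  have h := Kernel.ae_eq_of_compProd_eq key
  filter_upwards [h] with v hv
  rw [Kernel.comap_apply, Kernel.map_apply _ hS] at hv
  exact hv

end I_LEK

theorem LEK_pf (hLBL : S_LBL) : S_LEK := by
  intro k X _ _ _ _ M π E lam θ χ _ hPo hSP hfib hθE hθ hd
  haveI := I_LEK.markov_evK k
  have hEc : IsClosed E := hSP.min.closed
  -- almost every measure is in `E`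
  have hae : ∀ᵐ v ∂(lam : Measure X), ∀ᵐ m ∂(χ v), (v, m) ∈ E := by
    have h1 : ∀ᵐ p ∂(θ : Measure (X × PM k)), p ∈ E := by
      have h2 : (θ : Measure (X × PM k)) E = 1 := by
        rw [← ProbabilityMeasure.ennreal_coeFn_eq_coeFn_toMeasure, hθE]; rfl
      exact (mem_ae_iff_prob_eq_one hEc.measurableSet).2 h2
    rw [hd] at h1
    exact Measure.ae_ae_of_ae_compProd h1
  have hm1 : ∀ v m, (v, m) ∈ E → (m : Measure (Om k)) {w | w ∈ M ∧ π w = v} = 1 := by
    intro v m h
    rw [← ProbabilityMeasure.ennreal_coeFn_eq_coeFn_toMeasure, hfib _ h]; rfl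
  refine ⟨inferInstance, ?_, ?_, ?_⟩
  · -- fibres
    filter_upwards [hae] with v hv
    have hS := (I_LEK.meas_fib hPo.min.closed hPo.cont v).measurableSet
    rw [I_LEK.evK_apply χ v hS.compl, lintegral_eq_zero_iff]
    · filter_upwards [hv] with m hm
      exact (prob_compl_eq_zero_iff hS).2 (hm1 v m hm)
    · exact Kernel.measurable_coe (evK k) hS.compl
  · -- equivariance
    filter_upwards [I_LEK.dis_eqv lam θ χ hθ hd] with v hv
    ext B hB
    have hS : Measurable (sh 1 : PM k → PM k) := (sh_cont 1).measurable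
    have hO : Measurable (sh 1 : Om k → Om k) := (sh_cont 1).measurable
    rw [I_LEK.evK_apply χ _ hB, hv, Measure.map_apply hO hB, I_LEK.evK_apply χ v (hO hB),
      lintegral_map (I_LEK.meas_coe hB) hS]
    refine lintegral_congr fun m => ?_
    change (Measure.map (sh 1 : Om k → Om k) (m : Measure (Om k))) B = _
    rw [Measure.map_apply hO hB]
  · -- balls
    intro ρ hρ r hr
    filter_upwards [hae] with v hv w hw hwv
    have hF := I_LEK.meas_fib hPo.min.closed hPo.cont v
    have hB : MeasurableSet {w' | w' ∈ M ∧ π w' = v ∧ ρ w w' v < r} := by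
      have hc : ContinuousOn (fun w' => ρ w w' v) {w' | w' ∈ M ∧ π w' = v} := by
        refine hρ.cont.comp (f := fun w' : Om k => (w, w', v)) (by fun_prop) ?_
        rintro w' ⟨h1, h2⟩
        exact ⟨⟨hw, hwv.symm⟩, ⟨h1, h2.symm⟩⟩
      have h3 : IsClosed {w' | w' ∈ M ∧ π w' = v ∧ r ≤ ρ w w' v} := by
        have := hc.preimage_isClosed_of_isClosed hF (isClosed_Ici (a := r))
        convert this using 1
        ext w'
        simp only [mem_setOf_eq, mem_inter_iff, mem_preimage, mem_Ici]
        tauto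
      have h4 : {w' | w' ∈ M ∧ π w' = v ∧ ρ w w' v < r} =
          {w' | w' ∈ M ∧ π w' = v} \ {w' | w' ∈ M ∧ π w' = v ∧ r ≤ ρ w w' v} := by
        ext w'
        simp only [mem_setOf_eq, mem_diff]
        constructor
        · rintro ⟨h1, h2, h3⟩
          exact ⟨⟨h1, h2⟩, fun h => absurd h.2.2 (not_le.2 h3)⟩
        · rintro ⟨⟨h1, h2⟩, h3⟩
          exact ⟨h1, h2, not_le.1 fun h => h3 ⟨h1, h2, h⟩⟩
      rw [h4]
      exact hF.measurableSet.diff h3.measurableSet
    rw [I_LEK.evK_apply χ v hB, pos_iff_ne_zero]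
    intro h0
    rw [lintegral_eq_zero_iff (I_LEK.meas_coe hB)] at h0
    obtain ⟨m, hm, hm0⟩ := (hv.and h0).exists
    have h5 := hLBL k X M π E hPo hSP hfib ρ hρ r hr (v, m) hm w hw hwv
    have h6 : (m : Measure (Om k)) {w' | w' ∈ M ∧ π w' = v ∧ ρ w w' v < r} ≠ 0 := by
      rw [← ProbabilityMeasure.ennreal_coeFn_eq_coeFn_toMeasure]
      exact_mod_cast h5.ne'
    exact h6 hm0

end Pool.Agent.Work.MP_69fea5_lc.W3
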