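import Pool.Agent.Work.MP_69fea5_lc.W3.StmtsL

set_option autoImplicit false

namespace Pool.Agent.Work.MP_69fea5_lc.W3

open MeasureTheory Topology Set Filter TopologicalSpace ProbabilityTheory
open scoped NNReal ENNReal
open Pool.Agent.Work.MP_69fea5_lc.AK

theorem LFR_pf (hGFR : S_GFR) (hLGR : S_LGR) (hLTW : S_LTW) : S_LFR := by
  intro k n X M π p hn hPo h0 hStp
  obtain ⟨m, rfl⟩ : ∃ m, n = m + 3 := ⟨n - 3, by omega⟩
  change CM (m + 3) M (π (m + 1)) = CM (m + 3) M (π (m + 2))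
  obtain ⟨Y, tY, mY, sY, q, hTw, hiff⟩ := hLTW k (m + 3) X M π p (by omega) hPo h0 hStp
  change ∀ l, (X (m + 2)).C → Y l at q
  have hG : PG (m + 3) (X (m + 2)).C = WP (m + 3) (q (m + 1)) :=
    hGFR (m + 3) (X (m + 2)).C Y q (by omega) hTw
  obtain ⟨-, -, -, -, -, -, hX'⟩ := hLGR k (m + 3) (X (m + 1)).C M (π (m + 1)) (hPo (m + 1))
  obtain ⟨-, -, himg⟩ := hX' (X (m + 2)).C (π (m + 2)) (p (m + 1)) (hPo (m + 2))
    (hStp (m + 1)).cont (hStp (m + 1)).comp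
  have hcomp : ∀ w ∈ M, p (m + 1) (π (m + 2) w) = π (m + 1) w := (hStp (m + 1)).comp
  apply Set.Subset.antisymm
  · rintro u ⟨huM, hu⟩
    refine ⟨huM, ?_⟩
    rw [← himg] at hu
    obtain ⟨y, hy, hyu⟩ := hu
    rw [hG]
    refine ⟨y, hy, fun i => ?_⟩
    obtain ⟨w, hw, hwy⟩ := (hPo (m + 2)).onto (y i)
    have h1 : π (m + 1) w = π (m + 1) (u i) := by
      rw [← hcomp w hw, hwy]
      exact congrFun hyu i
    have h2 := (hiff w hw (u i) (huM i) (m + 1) (by omega)).2 h1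
    change q (m + 1) (π (m + 2) w) = q (m + 1) (π (m + 2) (u i)) at h2
    rw [← h2, hwy]
  · rintro u ⟨huM, hu⟩
    refine ⟨huM, ?_⟩
    rw [← himg]
    exact ⟨_, hu, funext fun i => hcomp _ (huM i)⟩

end Pool.Agent.Work.MP_69fea5_lc.W3
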