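import Pool.Agent.Work.MP_69fea5_lc.W3.StmtsL

/-!
# [69fea5 W3 LFS] the kernels have full support modulo continuous invariant pseudometrics
-/

set_option autoImplicit false

namespace Pool.Agent.Work.MP_69fea5_lc.W3

open MeasureTheory Topology Set Filter TopologicalSpace ProbabilityTheory
open scoped NNReal ENNReal
open Pool.Agent.Work.MP_69fea5_lc.AK

namespace I_LFS

theorem comp_ins {X Y : Type} {n : ℕ} (π : Y → X) (j : Fin n) (w : Y) (u : Oth j → Y) :
    (fun i => π (ins j w u i)) = ins j (π w) (fun i => π (u i)) := by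
  funext i
  unfold ins
  split_ifs <;> rfl

theorem ins_self {Y : Type} {n : ℕ} (j : Fin n) (w : Y) (u : Oth j → Y) : ins j w u j = w := by
  simp [ins]

theorem ins_oth {Y : Type} {n : ℕ} (j : Fin n) (w : Y) (u : Oth j → Y) (i : Oth j) :
    ins j w u i = u i := by
  unfold ins
  rw [dif_neg i.2]

theorem mem_CM {k n : ℕ} {X : Type} [TopologicalSpace X] [Sys X] [MeasurableSpace X] [CS X]
    {M : Set (Om k)} {π : Om k → X} {j : Fin n} {w : Om k} {u : Oth j → Om k} :
    ins j w u ∈ CM n M π ↔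
      w ∈ M ∧ (∀ i, u i ∈ M) ∧ ins j (π w) (fun i => π (u i)) ∈ PG n X := by
  constructor
  · rintro ⟨h1, h2⟩
    rw [comp_ins] at h2
    refine ⟨?_, fun i => ?_, h2⟩
    · have := h1 j
      rwa [ins_self] at this
    · have := h1 i
      rwa [ins_oth] at this
  · rintro ⟨h1, h2, h3⟩
    refine ⟨fun i => ?_, ?_⟩
    · by_cases h : i = j
      · subst h
        rw [ins_self]; exact h1
      · have := ins_oth j w u ⟨i, h⟩
        change ins j w u i = u ⟨i, h⟩ at this
        rw [this]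
        exact h2 _
    · rw [comp_ins]
      exact h3

theorem ae_all {X : Type} [TopologicalSpace X] [MeasurableSpace X] [CS X] [Sys X] {n : ℕ}
    {lam : ProbabilityMeasure X} {Q : ∀ j : Fin n, X → ProbabilityMeasure (Oth j → X)}
    (hQ : CK n lam Q) {P : X → Prop} (h : ∀ᵐ v ∂(lam : Measure X), P v) (j : Fin n) (v : X) :
    ∀ᵐ z ∂(Q j v : Measure (Oth j → X)), ∀ i, P (z i) := by
  rw [ae_all_iff]
  intro i
  obtain ⟨B, hB1, hB2, hB3⟩ := exists_measurable_superset_of_null (ae_iff.1 h)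
  obtain ⟨C, hC⟩ := hQ.dom
  rw [ae_iff]
  have h1 : Q j v {z | z i ∈ B} ≤ C * lam B := hC j v i B hB2
  have h2 : lam B = 0 := (ProbabilityMeasure.null_iff_toMeasure_null _ _).2 hB3
  rw [h2, mul_zero] at h1
  have h3 : Q j v {z | z i ∈ B} = 0 := le_antisymm h1 zero_le
  have h4 := (ProbabilityMeasure.null_iff_toMeasure_null _ _).1 h3
  refine measure_mono_null (fun z hz => ?_) h4
  exact hB1 hz

theorem aemeas {X O ι : Type} [MeasurableSpace X] [MeasurableSpace O] [Fintype ι]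
    (η : Kernel X O) (Q : Measure (ι → X)) (h : lif η Q ≠ 0) :
    AEMeasurable (fun z : ι → X => Measure.pi fun i => η (z i)) Q := by
  by_contra hcon
  apply h
  unfold lif Measure.bind
  rw [Measure.map_of_not_aemeasurable hcon, Measure.join_zero]

theorem exists_lim {ι Y : Type} [TopologicalSpace Y] [CompactSpace Y] (G : Ultrafilter ι)
    (g : ι → Y) : ∃ b, Tendsto g (G : Filter ι) (𝓝 b) := by
  obtain ⟨b, -, hb⟩ := isCompact_univ.ultrafilter_le_nhds (G.map g) (by simp)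
  exact ⟨b, hb⟩

end I_LFS

open I_LFS in
theorem LFS_pf (hISP : S_ISP) (hLIN : S_LIN) (hLGR : S_LGR) : S_LFS := by
  intro k n X _ _ _ _ M π lam Q η κ ρ hpo hQ hη hκ hρ j w hw H hH hfac u hu ε hε
  obtain ⟨hgr, hgrs, -, hCMc, -, -, -⟩ := hLGR k n X M π hpo
  have hηm : IsMarkovKernel η := hη.markov
  obtain ⟨-, -, hinsc, -, -⟩ := hLIN n j (Om k)
  obtain ⟨-, -, hinscX, -, -⟩ := hLIN n j X
  set v : X := π w with hv
  have hMc : IsClosed M := hpo.min.closed
  obtain ⟨-, huM, huP⟩ := mem_CM.1 hu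
  set z : Oth j → X := fun i => π (u i) with hz
  set N : Set (Oth j → Om k) := {u' | ins j w u' ∈ CM n M π ∧ |H u' - H u| < ε} with hN
  set Cw : Set (Oth j → Om k) := {u' | ins j w u' ∈ CM n M π} with hCw
  have hCwc : IsClosed Cw :=
    hCMc.preimage (hinsc.comp (continuous_const.prodMk continuous_id))
  by_contra hcon
  have hN0 : κ j v N = 0 := le_antisymm (not_lt.1 hcon) zero_le
  have hN1 : (κ j v : Measure (Oth j → Om k)) N = 0 :=
    (ProbabilityMeasure.null_iff_toMeasure_null _ _).1 hN0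
  have hκv : (κ j v : Measure (Oth j → Om k)) = lif η (Q j v : Measure (Oth j → X)) := hκ j v
  have hne : lif η (Q j v : Measure (Oth j → X)) ≠ 0 := by
    rw [← hκv]
    exact IsProbabilityMeasure.ne_zero _
  have hae1 : ∀ᵐ z' ∂(Q j v : Measure (Oth j → X)),
      ∀ᵐ u' ∂(Measure.pi fun i => η (z' i)), u' ∉ N := by
    apply Measure.ae_ae_of_ae_bind (aemeas η _ hne)
    change ∀ᵐ u' ∂(lif η (Q j v : Measure (Oth j → X))), u' ∉ N
    rw [← hκv, ae_iff]
    simpa using hN1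
  -- the good points of the base
  have hball : ∀ l : ℕ, ∀ᵐ v' ∂(lam : Measure X), ∀ w ∈ M, π w = v' →
      0 < η v' {w' | w' ∈ M ∧ π w' = v' ∧ ρ w w' v' < 1 / ((l : ℝ) + 1)} := fun l =>
    hη.ball ρ hρ _ (by positivity)
  have hae2 := ae_all hQ (ae_all_iff.2 hball) j v
  have hPGc : IsClosed {z' : Oth j → X | ins j v z' ∈ PG n X} :=
    (show IsClosed (PG n X) from isClosed_closure).preimage
      (hinscX.comp (continuous_const.prodMk continuous_id))
  have hae3 : ∀ᵐ z' ∂(Q j v : Measure (Oth j → X)), ins j v z' ∈ PG n X := by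
    have h1 := hQ.car j v
    have h2 : (Q j v : Measure (Oth j → X)) {z' | ins j v z' ∈ PG n X} = 1 := by
      have := congrArg (fun t : ℝ≥0 => (t : ℝ≥0∞)) h1
      simpa using this
    exact (mem_ae_iff_prob_eq_one hPGc.measurableSet).2 h2
  have hall := (hae1.and hae2).and hae3
  -- the sequence
  obtain ⟨V, hV⟩ := (𝓝 z).exists_antitone_basis
  have hex : ∀ l : ℕ, ∃ z' ∈ V l, ((∀ᵐ u' ∂(Measure.pi fun i => η (z' i)), u' ∉ N) ∧
      ∀ i : Oth j, ∀ l : ℕ, ∀ w ∈ M, π w = z' i →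
      0 < η (z' i) {w' | w' ∈ M ∧ π w' = z' i ∧ ρ w w' (z' i) < 1 / ((l : ℝ) + 1)}) ∧
      ins j v z' ∈ PG n X := by
    intro l
    by_contra hno
    push Not at hno
    have hVl : V l ∈ 𝓝 z := hV.1.mem_of_mem trivial
    obtain ⟨U', hU', hU'o, hzU'⟩ := mem_nhds_iff.1 hVl
    have h1 := hQ.full j v z huP U' hU'o hzU'
    have h2 : (Q j v : Measure (Oth j → X)) U' = 0 := by
      refine measure_mono_null (fun z' hz' => ?_) (ae_iff.1 hall)
      intro h3
      exact hno z' (hU' hz') h3.1 h3.2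
    have h3 := (ProbabilityMeasure.null_iff_toMeasure_null (Q j v) U').2 h2
    rw [h3] at h1
    exact lt_irrefl _ h1
  choose z' hz'V hz'g using hex
  have hz'lim : Tendsto z' atTop (𝓝 z) := hV.tendsto hz'V
  let G : Ultrafilter ℕ := hyperfilter ℕ
  have hG : (G : Filter ℕ) ≤ atTop := by
    have := (hyperfilter_le_cofinite (α := ℕ))
    rwa [Nat.cofinite_eq_atTop] at this
  have hz'G : Tendsto z' (G : Filter ℕ) (𝓝 z) := hz'lim.mono_left hG
  have hlift : ∀ i : Oth j, ∃ (f : ℕ → Om k) (q₁ : Om k), (∀ l, (f l, z' l i) ∈ gr M π) ∧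
      (q₁, z i) ∈ gr M π ∧ Tendsto f (G : Filter ℕ) (𝓝 q₁) ∧ ρ q₁ (u i) (z i) = 0 := by
    intro i
    refine hISP (Om k) X (gr M π) ρ hgr.closed hgr.inv ?_ hρ ℕ G (fun l => z' l i) (z i) ?_ ?_
      (u i) ⟨huM i, rfl⟩
    · rw [hgrs]
      obtain ⟨-, -, hmX, -⟩ := hLGR k n X M π hpo
      exact hmX
    · intro l
      rw [hgrs]; trivial
    · exact (continuous_apply i).continuousAt.tendsto.comp hz'G
  choose f q₁ hf hq₁ hflim hfρ using hlift
  have hu' : ∀ l : ℕ, ∃ u' : Oth j → Om k, (∀ i, u' i ∈ M ∧ π (u' i) = z' l i ∧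
      ρ (f i l) (u' i) (z' l i) < 1 / ((l : ℝ) + 1)) ∧ u' ∉ N := by
    intro l
    obtain ⟨⟨h1, h2⟩, -⟩ := hz'g l
    by_contra hno
    push Not at hno
    have h3 : (Measure.pi fun i => η (z' l i)) (univ.pi fun i : Oth j =>
        {w' | w' ∈ M ∧ π w' = z' l i ∧ ρ (f i l) w' (z' l i) < 1 / ((l : ℝ) + 1)}) = 0 := by
      refine measure_mono_null (fun u' hu' => ?_) (ae_iff.1 h1)
      simp only [mem_setOf_eq, not_not]
      exact hno u' fun i => hu' i trivial
    rw [Measure.pi_pi] at h3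
    rw [Finset.prod_eq_zero_iff] at h3
    obtain ⟨i, -, hi⟩ := h3
    have h4 := h2 i l (f i l) (hf i l).1 (hf i l).2.symm
    rw [hi] at h4
    exact lt_irrefl _ h4
  choose u' hu'1 hu'2 using hu'
  obtain ⟨us, hus⟩ := exists_lim G u'
  have husi : ∀ i, Tendsto (fun l => u' l i) (G : Filter ℕ) (𝓝 (us i)) := fun i =>
    (continuous_apply i).continuousAt.tendsto.comp hus
  have hu'C : ∀ l, u' l ∈ Cw := by
    intro l
    refine mem_CM.2 ⟨hw, fun i => (hu'1 l i).1, ?_⟩
    have : (fun i => π (u' l i)) = z' l := funext fun i => (hu'1 l i).2.1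
    rw [this]
    exact (hz'g l).2
  have husC : us ∈ Cw := hCwc.mem_of_tendsto hus (Eventually.of_forall hu'C)
  obtain ⟨-, husM, husP⟩ := mem_CM.1 husC
  have husπ : ∀ i, π (us i) = z i := by
    intro i
    have h1 : Tendsto (fun l => π (u' l i)) (G : Filter ℕ) (𝓝 (π (us i))) :=
      (hpo.cont (us i) (husM i)).tendsto.comp (tendsto_nhdsWithin_iff.2
        ⟨husi i, Eventually.of_forall fun l => (hu'1 l i).1⟩)
    have h2 : Tendsto (fun l => π (u' l i)) (G : Filter ℕ) (𝓝 (z i)) := by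
      have : (fun l => π (u' l i)) = fun l => z' l i := funext fun l => (hu'1 l i).2.1
      rw [this]
      exact (continuous_apply i).continuousAt.tendsto.comp hz'G
    exact tendsto_nhds_unique h1 h2
  have husg : ∀ i, (us i, z i) ∈ gr M π := fun i => ⟨husM i, (husπ i).symm⟩
  have hug : ∀ i, (u i, z i) ∈ gr M π := fun i => ⟨huM i, rfl⟩
  have hρ1 : ∀ i, ρ (q₁ i) (us i) (z i) ≤ 0 := by
    intro i
    have h1 : Tendsto (fun l => (f i l, u' l i, z' l i)) (G : Filter ℕ)
        (𝓝 (q₁ i, us i, z i)) :=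
      (hflim i).prodMk_nhds ((husi i).prodMk_nhds
        ((continuous_apply i).continuousAt.tendsto.comp hz'G))
    have h2 := (hρ.cont (q₁ i, us i, z i) ⟨hq₁ i, husg i⟩).tendsto.comp
      (tendsto_nhdsWithin_iff.2 ⟨h1, Eventually.of_forall fun l => ⟨hf i l,
        ⟨(hu'1 l i).1, (hu'1 l i).2.1.symm⟩⟩⟩)
    have h3 : Tendsto (fun l : ℕ => (1 : ℝ) / ((l : ℝ) + 1)) (G : Filter ℕ) (𝓝 0) :=
      (tendsto_one_div_add_atTop_nhds_zero_nat (𝕜 := ℝ)).mono_left hG
    exact le_of_tendsto_of_tendsto h2 h3 (Eventually.of_forall fun l => (hu'1 l i).2.2.le)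
  have hρ2 : ∀ i, ρ (u i) (us i) (z i) = 0 := by
    intro i
    apply le_antisymm
    · have h1 := hρ.tri (z i) (u i) (q₁ i) (us i) (hug i) (hq₁ i) (husg i)
      have h2 := hρ.symm (z i) (u i) (q₁ i) (hug i) (hq₁ i)
      rw [h2, hfρ i] at h1
      have h3 := hρ1 i
      linarith
    · exact hρ.nonneg (z i) (u i) (us i) (hug i) (husg i)
  have hHeq : H u = H us := by
    refine hfac u us hu husC fun i => ⟨?_, hρ2 i⟩
    exact (husπ i).symm
  have hHlim : Tendsto (fun l => |H (u' l) - H u|) (G : Filter ℕ) (𝓝 |H us - H u|) := by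
    have h1 : Tendsto (fun l => H (u' l)) (G : Filter ℕ) (𝓝 (H us)) :=
      (hH us husC).tendsto.comp (tendsto_nhdsWithin_iff.2 ⟨hus, Eventually.of_forall hu'C⟩)
    exact (h1.sub tendsto_const_nhds).abs
  have hge : ε ≤ |H us - H u| := by
    refine ge_of_tendsto hHlim (Eventually.of_forall fun l => ?_)
    by_contra hlt
    exact hu'2 l ⟨hu'C l, not_le.1 hlt⟩
  rw [hHeq, sub_self, abs_zero] at hge
  linarith

end Pool.Agent.Work.MP_69fea5_lc.W3
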