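import Pool.Agent.Work.MP_69fea5_lc.W3.StmtsL

set_option autoImplicit false

namespace Pool.Agent.Work.MP_69fea5_lc.W3

open MeasureTheory Topology Set Filter TopologicalSpace ProbabilityTheory
open scoped NNReal ENNReal
open Pool.Agent.Work.MP_69fea5_lc.AK

namespace I_LGR

variable {X : Type} [TopologicalSpace X] [Sys X]

/-- progressions are invariant under the shift of all coordinates -/
theorem PG_inv (n : ℕ) (m : ℤ) {x : Fin n → X} (hx : x ∈ PG n X) :
    (fun i => sh m (x i)) ∈ PG n X := by
  have hc : Continuous fun y : Fin n → X => fun i => sh m (y i) :=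
    continuous_pi fun i => (sh_cont m).comp (continuous_apply i)
  refine map_mem_closure hc hx ?_
  rintro y ⟨g, z, rfl⟩
  refine ⟨g + (m, 0), z, ?_⟩
  funext i
  change sh m (sh (pf ((i : ℕ) : ℤ) g) z) = sh (pf ((i : ℕ) : ℤ) (g + (m, 0))) z
  rw [← sh_add]
  congr 1
  simp [pf]
  ring

end I_LGR

open I_LGR in
theorem LGR_pf (hIMG : AK.S_IMG) : S_LGR := by
  intro k n X _ _ _ _ M π hP
  have hM := hP.min
  have hMc : IsCompact M := hM.closed.isCompact
  have hgc : ContinuousOn (fun w => (w, π w)) M := continuousOn_id.prodMk hP.cont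
  have hgr : gr M π = (fun w => (w, π w)) '' M := by
    ext ⟨w, x⟩
    constructor
    · rintro ⟨h1, h2⟩
      refine ⟨w, h1, ?_⟩
      have : x = π w := h2
      rw [this]
    · rintro ⟨w', h1, h2⟩
      have e1 : w' = w := congrArg Prod.fst h2
      have e2 : π w' = x := congrArg Prod.snd h2
      subst e1
      exact ⟨h1, e2.symm⟩
  have h1 : MinSet (gr M π) := by
    rw [hgr]
    refine hIMG (Om k) (Om k × X) M (fun w => (w, π w)) hM hgc ?_
    intro m w hw
    change (sh m w, π (sh m w)) = (sh m w, sh m (π w))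
    rw [hP.equi w hw m]
  have h2 : Prod.snd '' gr M π = univ := by
    rw [eq_univ_iff_forall]
    intro v
    obtain ⟨w, hw, hv⟩ := hP.onto v
    exact ⟨(w, v), ⟨hw, hv.symm⟩, rfl⟩
  have himg : π '' M = univ := by
    rw [eq_univ_iff_forall]
    intro v
    obtain ⟨w, hw, hv⟩ := hP.onto v
    exact ⟨w, hw, hv⟩
  have h3 : MinSet (univ : Set X) := by
    rw [← himg]
    exact hIMG (Om k) X M π hM hP.cont fun m w hw => hP.equi w hw m
  have hPGc : IsClosed (PG n X) := isClosed_closure
  have h4 : IsClosed (CM n M π) := by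
    have hA : IsClosed {u : Fin n → Om k | ∀ i, u i ∈ M} := by
      have : {u : Fin n → Om k | ∀ i, u i ∈ M} = univ.pi fun _ => M := by
        ext u
        simp
      rw [this]
      exact isClosed_set_pi fun i _ => hM.closed
    have hc : ContinuousOn (fun u : Fin n → Om k => fun i => π (u i))
        {u : Fin n → Om k | ∀ i, u i ∈ M} := by
      refine continuousOn_pi.2 fun i => ?_
      exact hP.cont.comp (continuous_apply i).continuousOn fun u hu => hu i
    have := hc.preimage_isClosed_of_isClosed hA hPGc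
    have e : CM n M π = {u : Fin n → Om k | ∀ i, u i ∈ M} ∩
        (fun u : Fin n → Om k => fun i => π (u i)) ⁻¹' PG n X := by
      ext u
      exact Iff.rfl
    rw [e]
    exact this
  have h5 : AK.Inv (CM n M π) := by
    intro m u hu
    refine ⟨fun i => hM.inv m _ (hu.1 i), ?_⟩
    have e : (fun i => π ((sh m u : Fin n → Om k) i)) = fun i => sh m (π (u i)) := by
      funext i
      exact hP.equi (u i) (hu.1 i) m
    rw [e]
    exact PG_inv n m hu.2
  have h6 : ∀ z ∈ PG n X, ∃ u ∈ CM n M π, ∀ i, π (u i) = z i := by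
    intro z hz
    choose u hu hπ using fun i => hP.onto (z i)
    refine ⟨u, ⟨hu, ?_⟩, hπ⟩
    have : (fun i => π (u i)) = z := funext hπ
    rw [this]
    exact hz
  refine ⟨h1, h2, h3, h4, h5, h6, ?_⟩
  intro X' _ _ _ _ π' p hP' hp hcomp
  have hequi : ∀ (m : ℤ) y, p (sh m y) = sh m (p y) := by
    intro m y
    obtain ⟨w, hw, rfl⟩ := hP'.onto y
    rw [← hP'.equi w hw m, hcomp _ (hM.inv m w hw), hcomp w hw, hP.equi w hw m]
  have honto : ∀ v, ∃ y, p y = v := by
    intro v
    obtain ⟨w, hw, rfl⟩ := hP.onto v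
    exact ⟨π' w, hcomp w hw⟩
  refine ⟨hequi, honto, ?_⟩
  have hF : Continuous fun z : Fin n → X' => fun i => p (z i) :=
    continuous_pi fun i => hp.comp (continuous_apply i)
  apply Subset.antisymm
  · rintro _ ⟨z, hz, rfl⟩
    refine map_mem_closure hF hz ?_
    rintro y ⟨g, z', rfl⟩
    refine ⟨g, p z', ?_⟩
    funext i
    exact hequi _ _
  · have hcl : IsClosed ((fun z : Fin n → X' => fun i => p (z i)) '' PG n X') :=
      ((isClosed_closure : IsClosed (PG n X')).isCompact.image hF).isClosed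
    refine closure_minimal ?_ hcl
    rintro y ⟨g, z, rfl⟩
    obtain ⟨y', rfl⟩ := honto z
    refine ⟨fun i => sh (pf ((i : ℕ) : ℤ) g) y', subset_closure ⟨g, y', rfl⟩, ?_⟩
    funext i
    exact hequi _ _

end Pool.Agent.Work.MP_69fea5_lc.W3
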