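import Pool.Agent.Work.MP_69fea5_lc.W3.StmtsL

set_option autoImplicit false

namespace Pool.Agent.Work.MP_69fea5_lc.W3

open MeasureTheory Topology Set Filter TopologicalSpace ProbabilityTheory
open scoped NNReal ENNReal
open Pool.Agent.Work.MP_69fea5_lc.AK

namespace I_LIF

variable {X O ι : Type} [MeasurableSpace X] [MeasurableSpace O] [Fintype ι]

/-- the product of the laws of the points depends measurably on the positions -/
theorem measurable_pi (η : Kernel X O) [IsMarkovKernel η] :
    Measurable fun z : ι → X => Measure.pi fun i => η (z i) := by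
  refine Measurable.measure_of_isPiSystem_of_isProbabilityMeasure
    (generateFrom_pi (ι := ι) (α := fun _ => O)).symm isPiSystem_pi ?_
  rintro _ ⟨B, hB, rfl⟩
  have h1 : (fun z : ι → X => (Measure.pi fun i => η (z i)) (univ.pi B)) =
      fun z => ∏ i, η (z i) (B i) := by
    funext z
    exact Measure.pi_pi _ _
  rw [h1]
  refine Finset.measurable_prod _ fun i _ => ?_
  exact (Kernel.measurable_coe η (hB i (mem_univ i))).comp (measurable_pi_apply i)

/-- the kernel of the product laws -/
noncomputable def ker (ι : Type) [Fintype ι] (η : Kernel X O) [IsMarkovKernel η] :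
    Kernel (ι → X) (ι → O) :=
  ⟨fun z => Measure.pi fun i => η (z i), measurable_pi η⟩

theorem ker_apply (η : Kernel X O) [IsMarkovKernel η] (z : ι → X) :
    ker ι η z = Measure.pi fun i => η (z i) := rfl

instance (η : Kernel X O) [IsMarkovKernel η] : IsMarkovKernel (ker ι η) :=
  ⟨fun z => by rw [ker_apply]; infer_instance⟩

theorem lif_eq (η : Kernel X O) [IsMarkovKernel η] (Q : Measure (ι → X)) :
    lif η Q = (ker ι η ∘ₖ Kernel.const Unit Q) () := by
  rw [Kernel.comp_apply, Kernel.const_apply]
  rfl

end I_LIF

theorem LIF_pf : S_LIF := by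
  intro k X ι _ _ η _ Q _
  have h3 : ∀ B : Set (ι → Om k), MeasurableSet B →
      lif η Q B = ∫⁻ z, (Measure.pi fun i => η (z i)) B ∂Q := by
    intro B hB
    exact Measure.bind_apply hB (I_LIF.measurable_pi η).aemeasurable
  have h1 : IsProbabilityMeasure (lif η Q) := by
    rw [I_LIF.lif_eq]
    infer_instance
  refine ⟨h1, ?_, h3, ?_⟩
  · intro B hB
    rw [h3 _ (MeasurableSet.univ_pi hB)]
    refine lintegral_congr fun z => ?_
    exact Measure.pi_pi _ _
  · rintro f hf ⟨C, hC⟩
    have hint : Integrable f (lif η Q) :=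
      Integrable.of_bound hf.aestronglyMeasurable C (Eventually.of_forall fun u => by
        rw [Real.norm_eq_abs]
        exact hC u)
    rw [I_LIF.lif_eq] at hint ⊢
    rw [Kernel.integral_comp hint, Kernel.const_apply]
    rfl

end Pool.Agent.Work.MP_69fea5_lc.W3
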