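import Pool.Agent.Work.MP_69fea5_lc.W3.StmtsL

set_option autoImplicit false

namespace Pool.Agent.Work.MP_69fea5_lc.W3

open MeasureTheory Topology Set Filter TopologicalSpace ProbabilityTheory
open scoped NNReal ENNReal
open Pool.Agent.Work.MP_69fea5_lc.AK

theorem LIN_pf : S_LIN := by
  intro n j X _ _
  refine ⟨?_, ?_, ?_, ?_, ?_⟩
  · intro w u
    refine ⟨by simp [ins], fun i => ?_⟩
    have hi : (i : Fin n) ≠ j := i.2
    simp [ins, hi]
  · intro x
    funext i
    by_cases hi : i = j
    · subst hi; simp [ins]
    · simp [ins, hi]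
  · refine continuous_pi fun i => ?_
    by_cases hi : i = j
    · have h : (fun p : X × (Oth j → X) => ins j p.1 p.2 i) = fun p => p.1 := by
        funext p; simp [ins, hi]
      rw [h]; exact continuous_fst
    · have h : (fun p : X × (Oth j → X) => ins j p.1 p.2 i) = fun p => p.2 ⟨i, hi⟩ := by
        funext p; simp [ins, hi]
      rw [h]; exact (continuous_apply _).comp continuous_snd
  · intro m w u
    funext i
    change ins j (sh m w) (fun i => sh m (u i)) i = sh m (ins j w u i)
    by_cases hi : i = j
    · simp [ins, hi]
    · simp [ins, hi]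
  · intro w w' u
    funext i
    by_cases hi : i = j
    · subst hi; simp [ins]
    · rw [Function.update_of_ne hi]; simp [ins, hi]

end Pool.Agent.Work.MP_69fea5_lc.W3
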