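import Pool.Agent.Work.MP_69fea5_lc.W3.StmtsL

/-!
# Block [69fea5 W3 L], item LKE: the kernels of a level
-/

set_option autoImplicit false

namespace Pool.Agent.Work.MP_69fea5_lc.W3

open MeasureTheory Topology Set Filter TopologicalSpace ProbabilityTheory
open scoped NNReal ENNReal
open Pool.Agent.Work.MP_69fea5_lc.AK

namespace I_LKE

/-- properties which hold almost everywhere hold at all coordinates -/
theorem ae_coord {X ι : Type} [MeasurableSpace X] [Finite ι] (lam : ProbabilityMeasure X)
    (P : ProbabilityMeasure (ι → X)) (C : ℝ≥0)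
    (hd : ∀ (i : ι) (A : Set X), MeasurableSet A → P {z | z i ∈ A} ≤ C * lam A)
    {p : X → Prop} (hp : ∀ᵐ v ∂(lam : Measure X), p v) :
    ∀ᵐ z ∂(P : Measure (ι → X)), ∀ i, p (z i) := by
  rw [ae_all_iff]
  intro i
  set N : Set X := toMeasurable (lam : Measure X) {x | ¬ p x} with hN
  have hNm : MeasurableSet N := measurableSet_toMeasurable _ _
  have hN0 : (lam : Measure X) N = 0 := by
    rw [hN, measure_toMeasurable]
    exact hp
  have hN1 : lam N = 0 := by
    rw [ProbabilityMeasure.null_iff_toMeasure_null]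
    exact hN0
  have h1 : P {z | z i ∈ N} = 0 := by
    have h2 := hd i N hNm
    rw [hN1, mul_zero] at h2
    exact le_antisymm h2 bot_le
  rw [ProbabilityMeasure.null_iff_toMeasure_null] at h1
  refine measure_mono_null ?_ h1
  intro z hz
  exact subset_toMeasurable _ _ hz

theorem ext_box {k : ℕ} {ι : Type} [Fintype ι] (P P' : Measure (ι → Om k)) [IsProbabilityMeasure P]
    [IsProbabilityMeasure P'] (h : ∀ B : ι → Set (Om k), (∀ i, MeasurableSet (B i)) →
      P (univ.pi B) = P' (univ.pi B)) : P = P' := by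
  refine ext_of_generate_finite _ generateFrom_pi.symm isPiSystem_pi ?_ ?_
  · rintro _ ⟨B, hB, rfl⟩
    exact h B fun i => hB i (mem_univ i)
  · rw [measure_univ, measure_univ]

end I_LKE

open I_LKE in
/-- [LKE] -/
theorem LKE_pf (hLIN : S_LIN) (hLGR : S_LGR) (hLIF : S_LIF) (hLSC : S_LSC) : S_LKE := by
  classical
  intro k n X _ _ _ _ M π lam Q η hPo hCK hEK
  obtain ⟨C, hC⟩ := hCK.dom
  have : IsMarkovKernel η := hEK.markov
  have h0 : ∀ j : Fin n, ∃ κ : X → ProbabilityMeasure (Oth j → Om k), Continuous κ ∧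
      ∀ b, (κ b : Measure (Oth j → Om k)) = lif η (Q j b : Measure (Oth j → X)) := fun j =>
    hLSC k X (Oth j) X η lam (Q j) C (hCK.cont j) fun b i A hA => hC j b i A hA
  choose κ hκc hκ using h0
  -- equivariance for `1`
  have h1 : ∀ (j : Fin n) (v : X), κ j (sh 1 v) = sh 1 (κ j v) := by
    intro j v
    apply Subtype.ext
    have e1 : ((sh 1 (κ j v) : ProbabilityMeasure (Oth j → Om k)) : Measure (Oth j → Om k)) =
        (κ j v : Measure (Oth j → Om k)).map (sh 1 : (Oth j → Om k) → (Oth j → Om k)) := rfl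
    have e2 : ((sh 1 (Q j v) : ProbabilityMeasure (Oth j → X)) : Measure (Oth j → X)) =
        (Q j v : Measure (Oth j → X)).map (sh 1 : (Oth j → X) → (Oth j → X)) := rfl
    show (κ j (sh 1 v) : Measure (Oth j → Om k)) =
      ((sh 1 (κ j v) : ProbabilityMeasure (Oth j → Om k)) : Measure (Oth j → Om k))
    have hm1 : Measurable (sh 1 : (Oth j → Om k) → (Oth j → Om k)) := (sh_cont 1).measurable
    have hm2 : Measurable (sh 1 : (Oth j → X) → (Oth j → X)) := (sh_cont 1).measurable
    refine ext_box _ _ fun B hB => ?_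
    have hB' : ∀ i : Oth j, MeasurableSet ((sh 1 : Om k → Om k) ⁻¹' B i) := fun i =>
      (sh_cont 1).measurable (hB i)
    have e3 : (sh 1 : (Oth j → Om k) → (Oth j → Om k)) ⁻¹' (univ.pi B) =
        univ.pi fun i => (sh 1 : Om k → Om k) ⁻¹' B i := by
      ext u
      simp only [mem_preimage, Set.mem_pi, mem_univ, true_imp_iff]
      exact Iff.rfl
    rw [e1, Measure.map_apply hm1 (MeasurableSet.univ_pi hB), e3, hκ, hκ, hCK.equi j 1 v, e2]
    have hP : IsProbabilityMeasure ((Q j v : Measure (Oth j → X)).map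
        (sh 1 : (Oth j → X) → (Oth j → X))) := Measure.isProbabilityMeasure_map hm2.aemeasurable
    rw [(hLIF k X (Oth j) η _).2.1 B hB, (hLIF k X (Oth j) η _).2.1 _ hB']
    have hmf : Measurable fun z : Oth j → X => ∏ i, η (z i) (B i) := by
      refine Finset.measurable_prod _ fun i _ => ?_
      exact (Kernel.measurable_coe η (hB i)).comp (measurable_pi_apply i)
    rw [lintegral_map hmf hm2]
    refine lintegral_congr_ae ?_
    filter_upwards [ae_coord lam (Q j v) C (fun i A hA => hC j v i A hA) hEK.eqv] with z hz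
    refine Finset.prod_congr rfl fun i _ => ?_
    have e4 : (sh 1 z : Oth j → X) i = sh 1 (z i) := rfl
    rw [e4, hz i, Measure.map_apply (sh_cont 1).measurable (hB i)]
  have h2 : ∀ (j : Fin n) (m : ℤ) (v : X), κ j (sh m v) = sh m (κ j v) := by
    intro j m
    induction m using Int.induction_on with
    | zero => intro v; rw [sh_zero, sh_zero]
    | succ i ih =>
      intro v
      rw [add_comm (i : ℤ) 1, sh_add, h1, ih, ← sh_add]
    | pred i ih =>
      intro v
      have h3 := h1 j (sh (-(i : ℤ) - 1) v)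
      rw [← sh_add, show (1 : ℤ) + (-(i : ℤ) - 1) = -(i : ℤ) by ring, ih] at h3
      have h4 : sh (-1) (sh (-(i : ℤ)) (κ j v)) = sh (-1) (sh 1 (κ j (sh (-(i : ℤ) - 1) v))) := by
        rw [h3]
      rw [← sh_add, ← sh_add, show (-1 : ℤ) + 1 = 0 by norm_num, sh_zero,
        show (-1 : ℤ) + -(i : ℤ) = -(i : ℤ) - 1 by ring] at h4
      exact h4.symm
  refine ⟨κ, fun j v => hκ j v, hκc, h2, ?_⟩
  intro j w hw
  obtain ⟨hL1, -, hL3, -, -⟩ := hLIN n j (Om k)
  obtain ⟨-, -, -, hcl, -, -, -⟩ := hLGR k n X M π hPo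
  have hclS : IsClosed {u : Oth j → Om k | ins j w u ∈ CM n M π} :=
    hcl.preimage (hL3.comp (continuous_const.prodMk continuous_id))
  have hms : MeasurableSet {u : Oth j → Om k | ins j w u ∈ CM n M π} := hclS.measurableSet
  have h3 : (κ j (π w) : Measure (Oth j → Om k)) {u | ins j w u ∈ CM n M π}ᶜ = 0 := by
    rw [hκ, (hLIF k X (Oth j) η _).2.2.1 _ hms.compl]
    refine (lintegral_congr_ae ?_).trans lintegral_zero
    have hcar : ∀ᵐ z ∂(Q j (π w) : Measure (Oth j → X)), ins j (π w) z ∈ PG n X := by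
      have h4 := hCK.car j (π w)
      have hpc : IsClosed (PG n X) := isClosed_closure
      have hcX := (hLIN n j X).2.2.1
      have h5 : MeasurableSet {z : Oth j → X | ins j (π w) z ∈ PG n X} :=
        (hpc.preimage (hcX.comp (continuous_const.prodMk continuous_id))).measurableSet
      rw [ae_iff]
      have h6 : (Q j (π w) : Measure (Oth j → X)) {z | ins j (π w) z ∈ PG n X} = 1 := by
        rw [← ProbabilityMeasure.ennreal_coeFn_eq_coeFn_toMeasure, h4]
        rfl
      exact (prob_compl_eq_zero_iff h5).2 h6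
    filter_upwards [hcar, ae_coord lam (Q j (π w)) C (fun i A hA => hC j (π w) i A hA) hEK.fib]
      with z hz1 hz2
    have h7 : ∀ᵐ u ∂(Measure.pi fun i : Oth j => η (z i)), ∀ i : Oth j,
        u i ∈ M ∧ π (u i) = z i := by
      rw [ae_all_iff]
      intro i
      have h8 : ∀ᵐ x ∂(η (z i)), x ∈ M ∧ π x = z i := by
        rw [ae_iff]
        exact hz2 i
      exact (Measure.quasiMeasurePreserving_eval (fun i : Oth j => η (z i)) i).ae h8
    refine measure_mono_null ?_ (ae_iff.1 h7)
    intro u hu hall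
    apply hu
    refine ⟨fun i => ?_, ?_⟩
    · by_cases hi : i = j
      · subst hi
        rw [(hL1 w u).1]
        exact hw
      · have h9 := (hL1 w u).2 ⟨i, hi⟩
        show ins j w u i ∈ M
        rw [h9]
        exact (hall ⟨i, hi⟩).1
    · have h10 : (fun i => π (ins j w u i)) = ins j (π w) z := by
        funext i
        by_cases hi : i = j
        · subst hi
          rw [(hL1 w u).1]
          simp [ins]
        · have h9 := (hL1 w u).2 ⟨i, hi⟩
          have h11 : ins j w u i = u ⟨i, hi⟩ := h9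
          rw [h11, (hall ⟨i, hi⟩).2]
          simp [ins, hi]
      show (fun i => π (ins j w u i)) ∈ PG n X
      rw [h10]
      exact hz1
  have h12 : (κ j (π w) : Measure (Oth j → Om k)) {u | ins j w u ∈ CM n M π} = 1 :=
    (prob_compl_eq_zero_iff hms).1 h3
  rw [← ENNReal.coe_inj, ProbabilityMeasure.ennreal_coeFn_eq_coeFn_toMeasure, h12]
  rfl

end Pool.Agent.Work.MP_69fea5_lc.W3
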