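import Pool.Agent.Work.MP_69fea5_lc.W3.StmtsL

/-!
Item LMC: closed invariant relations of tuples (McMahon's argument over the position space).
-/

set_option autoImplicit false

namespace Pool.Agent.Work.MP_69fea5_lc.W3

open MeasureTheory Topology Set Filter TopologicalSpace ProbabilityTheory
open scoped NNReal ENNReal
open Pool.Agent.Work.MP_69fea5_lc.AK

namespace I_LMC

/-- the relation as a set of triples -/
def NR {k n : ℕ} {X : Type} (j : Fin n) (R : Set (Fin n → Om k)) :
    Set (Om k × (Oth j → Om k) × X) := {q | ins j q.1 q.2.1 ∈ R}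

/-- the integral of the indicator of `D` over `S` is the measure of `S ∩ D` -/
theorem int_ind {K : Type} [MeasurableSpace K] (κ : ProbabilityMeasure K) (S D : Set K)
    (hD : MeasurableSet D) :
    ∫ u in S, D.indicator (fun _ => (1 : ℝ)) u ∂(κ : Measure K) = (κ (S ∩ D) : ℝ) := by
  rw [integral_indicator hD, Measure.restrict_restrict hD, setIntegral_const, smul_eq_mul,
    mul_one, inter_comm]
  rfl

end I_LMC

open I_LMC in
theorem LMC_pf (hMCM : S_MCM) (hLIN : S_LIN) (hLGR : S_LGR) : S_LMC := by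
  intro k n X _ _ _ _ M π j κ R hPo hκ hκe hR hRi
  obtain ⟨hmin, -, -⟩ := hLGR k n X M π hPo
  obtain ⟨-, -, hcont, hins, -⟩ := hLIN n j (Om k)
  have hNc : IsClosed (NR (X := X) j R) := by
    have h1 : Continuous fun q : Om k × (Oth j → Om k) × X => ins j q.1 q.2.1 :=
      hcont.comp (continuous_fst.prodMk (continuous_fst.comp continuous_snd))
    exact hR.preimage h1
  have hNi : AK.Inv (NR (X := X) j R) := by
    intro m q hq
    change ins j (sh m q.1) (sh m q.2.1) ∈ R
    rw [hins]
    exact hRi m _ hq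
  obtain ⟨⟨a, ha⟩, hg, hipb, -⟩ := hMCM (Om k) (Oth j → Om k) X (gr M π) κ (NR j R) hmin hκ hκe
    hNc hNi
  refine ⟨⟨a, fun w hw => ha (w, π w) ⟨hw, rfl⟩⟩, hipb, ?_⟩
  intro D hD
  have h1 := hg (D.indicator fun _ => (1 : ℝ)) (continuous_const.indicator fun x hx => by
    rw [hD.frontier_eq] at hx
    exact hx.elim)
  have h2 : ContinuousOn (fun w : Om k => ((w, π w) : Om k × X)) M :=
    continuousOn_id.prodMk hPo.cont
  have h3 := h1.comp h2 (fun w hw => ⟨hw, rfl⟩)
  refine h3.congr fun w hw => ?_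
  exact (int_ind (κ (π w)) {u | ins j w u ∈ R} D hD.isOpen.measurableSet).symm

end Pool.Agent.Work.MP_69fea5_lc.W3
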