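import Pool.Agent.Work.MP_69fea5_lc.W3.StmtsL

/-!
# W3 item LSC: strong continuity of the laws of independent points over varying positions
-/

set_option autoImplicit false

namespace Pool.Agent.Work.MP_69fea5_lc.W3

open MeasureTheory Topology Set Filter TopologicalSpace ProbabilityTheory
open scoped NNReal ENNReal
open Pool.Agent.Work.MP_69fea5_lc.AK

namespace I_LSC

theorem abs_prod_sub {ι : Type} (s : Finset ι) (f g : ι → ℝ)
    (hf : ∀ i ∈ s, 0 ≤ f i ∧ f i ≤ 1) (hg : ∀ i ∈ s, 0 ≤ g i ∧ g i ≤ 1) :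
    |∏ i ∈ s, f i - ∏ i ∈ s, g i| ≤ ∑ i ∈ s, |f i - g i| := by
  classical
  induction s using Finset.induction_on with
  | empty => simp
  | insert a s ha ih =>
    rw [Finset.prod_insert ha, Finset.prod_insert ha, Finset.sum_insert ha]
    have h1 := ih (fun i hi => hf i (Finset.mem_insert_of_mem hi))
      (fun i hi => hg i (Finset.mem_insert_of_mem hi))
    have hfa := hf a (Finset.mem_insert_self a s)
    have hga := hg a (Finset.mem_insert_self a s)
    have hP : 0 ≤ ∏ i ∈ s, f i :=
      Finset.prod_nonneg fun i hi => (hf i (Finset.mem_insert_of_mem hi)).1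
    have hP1 : ∏ i ∈ s, f i ≤ 1 :=
      Finset.prod_le_one (fun i hi => (hf i (Finset.mem_insert_of_mem hi)).1)
        (fun i hi => (hf i (Finset.mem_insert_of_mem hi)).2)
    have e : f a * ∏ i ∈ s, f i - g a * ∏ i ∈ s, g i =
        (f a - g a) * ∏ i ∈ s, f i + g a * (∏ i ∈ s, f i - ∏ i ∈ s, g i) := by ring
    rw [e]
    refine (abs_add_le _ _).trans ?_
    rw [abs_mul, abs_mul, abs_of_nonneg hP, abs_of_nonneg hga.1]
    have h2 : |f a - g a| * ∏ i ∈ s, f i ≤ |f a - g a| * 1 :=
      mul_le_mul_of_nonneg_left hP1 (abs_nonneg _)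
    have h3 : g a * |∏ i ∈ s, f i - ∏ i ∈ s, g i| ≤ 1 * |∏ i ∈ s, f i - ∏ i ∈ s, g i| :=
      mul_le_mul_of_nonneg_right hga.2 (abs_nonneg _)
    linarith

/-- the clamp -/
noncomputable def cl (t : ℝ) : ℝ := max 0 (min 1 t)

theorem cl_mem (t : ℝ) : 0 ≤ cl t ∧ cl t ≤ 1 := by
  unfold cl
  exact ⟨le_max_left _ _, max_le zero_le_one (min_le_left _ _)⟩

theorem cl_cont : Continuous cl := by
  unfold cl
  fun_prop

theorem cl_dist (s t : ℝ) (hs : 0 ≤ s ∧ s ≤ 1) : |s - cl t| ≤ |s - t| := by
  unfold cl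
  rcases le_total t 0 with h | h
  · rw [min_eq_right (by linarith), max_eq_left h, abs_of_nonneg (by linarith [hs.1]),
      abs_of_nonneg (by linarith [hs.1])]
    linarith
  · rcases le_total t 1 with h' | h'
    · rw [min_eq_right h', max_eq_right h]
    · rw [min_eq_left h', max_eq_right zero_le_one, abs_of_nonpos (by linarith [hs.2]),
        abs_of_nonpos (by linarith [hs.2])]
      linarith

theorem cont_prod {X ι B : Type} [TopologicalSpace X] [MeasurableSpace X] [CS X] [Fintype ι]
    [TopologicalSpace B] (lam : ProbabilityMeasure X) (Q : B → ProbabilityMeasure (ι → X))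
    (C : ℝ≥0) (hQ : Continuous Q)
    (hd : ∀ b i (A : Set X), MeasurableSet A → Q b {z | z i ∈ A} ≤ C * lam A)
    (f : ι → X → ℝ) (hf : ∀ i, Measurable (f i)) (h01 : ∀ i x, 0 ≤ f i x ∧ f i x ≤ 1) :
    Continuous fun b => ∫ z, ∏ i, f i (z i) ∂(Q b : Measure (ι → X)) := by
  refine continuous_of_uniform_approx_of_continuous fun u hu => ?_
  obtain ⟨ε, hε, hu⟩ := Metric.mem_uniformity_dist.mp hu
  set N : ℝ := (Fintype.card ι : ℝ) with hN
  have hN0 : 0 ≤ N := Nat.cast_nonneg _
  obtain ⟨δ, hδ, hδε⟩ : ∃ δ : ℝ, 0 < δ ∧ N * ((C : ℝ) * δ) < ε := by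
    refine ⟨ε / (2 * (N * C + 1)), by positivity, ?_⟩
    have h1 : N * ((C : ℝ) * (ε / (2 * (N * C + 1)))) = (N * C / (N * C + 1)) * (ε / 2) := by
      field_simp
    rw [h1]
    have h2 : N * C / (N * C + 1) ≤ 1 := by
      rw [div_le_one (by positivity)]
      linarith
    nlinarith
  have hint : ∀ i, Integrable (f i) (lam : Measure X) := by
    intro i
    refine Integrable.of_bound (hf i).aestronglyMeasurable 1 (ae_of_all _ fun x => ?_)
    rw [Real.norm_eq_abs, abs_of_nonneg (h01 i x).1]
    exact (h01 i x).2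
  choose g hg _ using fun i => (hint i).exists_boundedContinuous_integral_sub_le hδ
  have hgc : ∀ i, Continuous fun x => cl (g i x) := fun i => cl_cont.comp (g i).continuous
  let G : BoundedContinuousFunction (ι → X) ℝ := BoundedContinuousFunction.mkOfCompact
    ⟨fun z => ∏ i, cl (g i (z i)), continuous_finsetProd _ fun i _ =>
      (hgc i).comp (continuous_apply i)⟩
  refine ⟨fun b => ∫ z, G z ∂(Q b : Measure (ι → X)),
    (ProbabilityMeasure.continuous_integral_boundedContinuousFunction G).comp hQ, fun b => ?_⟩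
  apply hu
  rw [Real.dist_eq]
  have hGz : ∀ z, G z = ∏ i, cl (g i (z i)) := fun z => rfl
  have hm : ∀ i, Measurable fun x => |f i x - cl (g i x)| := fun i => by
    have := hf i
    have := (hgc i).measurable
    fun_prop
  have hle1 : ∀ i x, |f i x - cl (g i x)| ≤ 1 := fun i x => by
    have h1 := h01 i x
    have h2 := cl_mem (g i x)
    rw [abs_le]
    constructor <;> linarith [h1.1, h1.2, h2.1, h2.2]
  have hif : Integrable (fun z : ι → X => ∏ i, f i (z i)) (Q b : Measure (ι → X)) := by
    refine Integrable.of_bound (Finset.measurable_prod _ fun i _ =>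
      (hf i).comp (measurable_pi_apply i)).aestronglyMeasurable 1 (ae_of_all _ fun z => ?_)
    rw [Real.norm_eq_abs, abs_of_nonneg (Finset.prod_nonneg fun i _ => (h01 i (z i)).1)]
    exact Finset.prod_le_one (fun i _ => (h01 i (z i)).1) (fun i _ => (h01 i (z i)).2)
  have hiG : Integrable (fun z : ι → X => G z) (Q b : Measure (ι → X)) :=
    G.integrable (Q b : Measure (ι → X))
  rw [← integral_sub hif hiG]
  refine (abs_integral_le_integral_abs).trans_lt ?_
  have hi1 : ∀ i, Integrable (fun z : ι → X => |f i (z i) - cl (g i (z i))|)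
      (Q b : Measure (ι → X)) := fun i => by
    refine Integrable.of_bound ((hm i).comp (measurable_pi_apply i)).aestronglyMeasurable 1
      (ae_of_all _ fun z => ?_)
    rw [Real.norm_eq_abs, abs_abs]
    exact hle1 i (z i)
  have hb : ∫ z, |∏ i, f i (z i) - G z| ∂(Q b : Measure (ι → X)) ≤
      ∑ i, ∫ z, |f i (z i) - cl (g i (z i))| ∂(Q b : Measure (ι → X)) := by
    rw [← integral_finsetSum _ fun i _ => hi1 i]
    refine integral_mono (hif.sub hiG).abs (integrable_finsetSum _ fun i _ => hi1 i) fun z => ?_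
    exact abs_prod_sub Finset.univ _ _ (fun i _ => h01 i (z i)) (fun i _ => cl_mem _)
  refine hb.trans_lt ?_
  have hc : ∀ i, ∫ z, |f i (z i) - cl (g i (z i))| ∂(Q b : Measure (ι → X)) ≤ C * δ := by
    intro i
    have e1 : ∫ z, |f i (z i) - cl (g i (z i))| ∂(Q b : Measure (ι → X)) =
        ∫ x, |f i x - cl (g i x)| ∂((Q b : Measure (ι → X)).map fun z => z i) := by
      have hmi : Measurable fun z : ι → X => z i := measurable_pi_apply i
      rw [integral_map hmi.aemeasurable (hm i).aestronglyMeasurable]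
    have hle : (Q b : Measure (ι → X)).map (fun z => z i) ≤ C • (lam : Measure X) := by
      refine Measure.le_iff.2 fun A hA => ?_
      rw [Measure.map_apply (measurable_pi_apply i) hA, Measure.smul_apply]
      have := hd b i A hA
      have h2 : ((Q b {z | z i ∈ A} : ℝ≥0) : ℝ≥0∞) ≤ ((C * lam A : ℝ≥0) : ℝ≥0∞) := by
        exact_mod_cast this
      rw [ENNReal.coe_mul, ProbabilityMeasure.ennreal_coeFn_eq_coeFn_toMeasure,
        ProbabilityMeasure.ennreal_coeFn_eq_coeFn_toMeasure] at h2
      exact h2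
    have hi2 : Integrable (fun x => |f i x - cl (g i x)|) (lam : Measure X) := by
      refine Integrable.of_bound (hm i).aestronglyMeasurable 1 (ae_of_all _ fun z => ?_)
      rw [Real.norm_eq_abs, abs_abs]
      exact hle1 i z
    rw [e1]
    calc ∫ x, |f i x - cl (g i x)| ∂((Q b : Measure (ι → X)).map fun z => z i)
        ≤ ∫ x, |f i x - cl (g i x)| ∂(C • (lam : Measure X)) :=
          integral_mono_measure hle (ae_of_all _ fun x => abs_nonneg _) (hi2.smul_measure_nnreal)
      _ = C * ∫ x, |f i x - cl (g i x)| ∂(lam : Measure X) := by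
          rw [integral_smul_nnreal_measure, NNReal.smul_def, smul_eq_mul]
      _ ≤ C * δ := by
          refine mul_le_mul_of_nonneg_left ?_ C.2
          refine le_trans ?_ (hg i)
          refine integral_mono hi2 ?_ fun x => ?_
          · exact ((hint i).sub ((g i).integrable (lam : Measure X))).norm
          · exact cl_dist _ _ (h01 i x)
  calc ∑ i, ∫ z, |f i (z i) - cl (g i (z i))| ∂(Q b : Measure (ι → X))
      ≤ ∑ _i : ι, (C : ℝ) * δ := Finset.sum_le_sum fun i _ => hc i
    _ = N * (C * δ) := by simp [hN]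
    _ < ε := hδε

/-- boxes of clopen sets -/
def Bx (k : ℕ) (ι : Type) : Set (Set (ι → Om k)) :=
  {s | ∃ P : ι → Set (Om k), (∀ i, IsClopen (P i)) ∧ s = univ.pi P}

theorem pis (k : ℕ) (ι : Type) : IsPiSystem (Bx k ι) := by
  rintro _ ⟨P, hP, rfl⟩ _ ⟨P', hP', rfl⟩ _
  exact ⟨fun i => P i ∩ P' i, fun i => (hP i).inter (hP' i), by rw [Set.pi_inter_distrib]⟩

theorem small {k : ℕ} {ι : Type} [Fintype ι] (u : Set (ι → Om k)) (hu : IsOpen u)
    (x : ι → Om k) (hx : x ∈ u) : ∃ s ∈ Bx k ι, s ∈ 𝓝 x ∧ s ⊆ u := by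
  obtain ⟨v, hv, hvu⟩ := isOpen_pi_iff'.1 hu x hx
  choose P hP hxP hPv using fun i => compact_exists_isClopen_in_isOpen (hv i).1 (hv i).2
  refine ⟨univ.pi P, ⟨P, hP, rfl⟩, ?_, (Set.pi_mono fun i _ => hPv i).trans hvu⟩
  exact set_pi_mem_nhds Set.finite_univ fun i _ => (hP i).isOpen.mem_nhds (hxP i)

end I_LSC

open I_LSC in
theorem LSC_pf (hLIF : S_LIF) : S_LSC := by
  intro k X ι B _ _ _ _ _ η _ lam Q C hQ hd
  let D := {P : ProbabilityMeasure (ι → X) //
    ∀ i (A : Set X), MeasurableSet A → P {z | z i ∈ A} ≤ C * lam A}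
  let K : D → ProbabilityMeasure (ι → Om k) := fun P =>
    ⟨lif η (P.1 : Measure (ι → X)), (hLIF k X ι η P.1).1⟩
  have hmet : MetrizableSpace (ProbabilityMeasure (ι → X)) := inferInstance
  have hfc0 : FirstCountableTopology (ProbabilityMeasure (ι → X)) := by
    let := TopologicalSpace.metrizableSpaceMetric (ProbabilityMeasure (ι → X))
    infer_instance
  have hfc : FirstCountableTopology D :=
    Topology.IsEmbedding.subtypeVal.isInducing.firstCountableTopology
  have hK : Continuous K := by
    rw [continuous_iff_continuousAt]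
    intro P
    refine (pis k ι).tendsto_probabilityMeasure_of_tendsto_of_mem ?_ small ?_
    · rintro _ ⟨P, hP, rfl⟩
      exact MeasurableSet.univ_pi fun i => (hP i).isOpen.measurableSet
    · rintro _ ⟨A, hA, rfl⟩
      have hval : ∀ P : D, ((K P (univ.pi A) : ℝ≥0) : ℝ) =
          ∫ z, ∏ i, (η (z i) (A i)).toReal ∂(P.1 : Measure (ι → X)) := by
        intro P
        have h1 : ((K P (univ.pi A) : ℝ≥0) : ℝ) =
            (lif η (P.1 : Measure (ι → X)) (univ.pi A)).toReal := rfl
        rw [h1, (hLIF k X ι η P.1).2.1 A fun i => (hA i).isOpen.measurableSet]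
        simp_rw [← ENNReal.toReal_prod]
        refine (integral_toReal ?_ (ae_of_all _ fun z => ?_)).symm
        · refine Measurable.aemeasurable (Finset.measurable_prod _ fun i _ => ?_)
          exact (η.measurable_coe (hA i).isOpen.measurableSet).comp (measurable_pi_apply i)
        · exact ENNReal.prod_lt_top fun i _ => measure_lt_top _ _
      have hc : Continuous fun P : D => ((K P (univ.pi A) : ℝ≥0) : ℝ) := by
        simp_rw [hval]
        refine cont_prod lam (fun P : D => P.1) C continuous_subtype_val (fun P => P.2)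
          (fun i x => (η x (A i)).toReal) (fun i => ?_) (fun i x => ⟨ENNReal.toReal_nonneg, ?_⟩)
        · exact (η.measurable_coe (hA i).isOpen.measurableSet).ennreal_toReal
        · exact ENNReal.toReal_le_of_le_ofReal zero_le_one (by simpa using prob_le_one)
      exact NNReal.tendsto_coe.1 hc.continuousAt
  exact ⟨fun b => K ⟨Q b, hd b⟩, hK.comp (hQ.subtype_mk _), fun b => rfl⟩

end Pool.Agent.Work.MP_69fea5_lc.W3
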