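import Pool.Agent.Work.MP_69fea5_lc.W3.StmtsL

/-!
# [69fea5 W3 LST] one step of the tower
-/

set_option autoImplicit false

namespace Pool.Agent.Work.MP_69fea5_lc.W3

open MeasureTheory Topology Set Filter TopologicalSpace ProbabilityTheory
open scoped NNReal ENNReal
open Pool.Agent.Work.MP_69fea5_lc.AK

namespace I_LST

theorem exists_lim {ι Y : Type} [TopologicalSpace Y] [CompactSpace Y] (G : Ultrafilter ι)
    (g : ι → Y) : ∃ b, Tendsto g (G : Filter ι) (𝓝 b) := by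
  obtain ⟨b, -, hb⟩ := isCompact_univ.ultrafilter_le_nhds (G.map g) (by simp)
  exact ⟨b, hb⟩

section iso

variable {k : ℕ} {X Y : Type} [TopologicalSpace X] [T2Space X] [Sys X] [TopologicalSpace Y]
  [T2Space Y] [Sys Y]
  {M : Set (Om k)} {π : Om k → X} {π' : Om k → Y} {p : Y → X} {ρ : Om k → Om k → X → ℝ}

/-- the pseudometric depends only on the classes -/
theorem wd (hρ : IPB (gr M π) ρ) (h0 : ∀ w ∈ M, ∀ w' ∈ M, π' w = π' w' → ρ w w' (π w) = 0)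
    (hp : ∀ w ∈ M, p (π' w) = π w) {w₁ w₂ w₁' w₂' : Om k} (h₁ : w₁ ∈ M) (h₂ : w₂ ∈ M)
    (h₁' : w₁' ∈ M) (h₂' : w₂' ∈ M) (e : π' w₁ = π' w₂) (e' : π' w₁' = π' w₂')
    (hb : π w₁ = π w₁') : ρ w₁ w₁' (π w₁) = ρ w₂ w₂' (π w₁) := by
  have hb2 : π w₂ = π w₁ := by rw [← hp w₂ h₂, ← e, hp w₁ h₁]
  have hb2' : π w₂' = π w₁ := by rw [← hp w₂' h₂', ← e', hp w₁' h₁', hb]
  have m₁ : (w₁, π w₁) ∈ gr M π := ⟨h₁, rfl⟩
  have m₂ : (w₂, π w₁) ∈ gr M π := ⟨h₂, hb2.symm⟩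
  have m₁' : (w₁', π w₁) ∈ gr M π := ⟨h₁', hb⟩
  have m₂' : (w₂', π w₁) ∈ gr M π := ⟨h₂', hb2'.symm⟩
  have z : ρ w₁ w₂ (π w₁) = 0 := h0 w₁ h₁ w₂ h₂ e
  have z' : ρ w₁' w₂' (π w₁) = 0 := by
    rw [hb]
    exact h0 w₁' h₁' w₂' h₂' e'
  have s : ρ w₂ w₁ (π w₁) = 0 := by rw [hρ.symm _ _ _ m₂ m₁]; exact z
  have s' : ρ w₂' w₁' (π w₁) = 0 := by rw [hρ.symm _ _ _ m₂' m₁']; exact z'
  have a1 := hρ.tri (π w₁) w₁ w₂ w₁' m₁ m₂ m₁'
  have a2 := hρ.tri (π w₁) w₂ w₂' w₁' m₂ m₂' m₁'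
  have a3 := hρ.tri (π w₁) w₂ w₁ w₂' m₂ m₁ m₂'
  have a4 := hρ.tri (π w₁) w₁ w₁' w₂' m₁ m₁' m₂'
  linarith

theorem iso (hM : IsClosed M) (hcont' : ContinuousOn π' M)
    (hcont : ContinuousOn π M) (hequi : ∀ w ∈ M, ∀ m : ℤ, π (sh m w) = sh m (π w))
    (hequi' : ∀ w ∈ M, ∀ m : ℤ, π' (sh m w) = sh m (π' w)) (hMi : AK.Inv M)
    (hρ : IPB (gr M π) ρ) (h0 : ∀ w ∈ M, ∀ w' ∈ M, π' w = π' w' → ρ w w' (π w) = 0)
    (h1 : ∀ w ∈ M, ∀ w' ∈ M, π w = π w' → ρ w w' (π w) = 0 → π' w = π' w')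
    (hp : ∀ w ∈ M, p (π' w) = π w) (honto : ∀ y, ∃ w ∈ M, π' w = y) :
    ∃ ρ, CI p ρ ∧ ∀ y y', p y = p y' → ρ y y' = 0 → y = y' := by
  choose s hs1 hs2 using honto
  have hsp : ∀ y, π (s y) = p y := fun y => by rw [← hp _ (hs1 y), hs2]
  refine ⟨fun y y' => ρ (s y) (s y') (p y), ⟨?_, ?_, ?_, ?_, ?_, ?_⟩, ?_⟩
  · intro q hq
    change Tendsto _ _ _
    rw [tendsto_iff_ultrafilter]
    intro F hF
    have hFq : Tendsto (fun q : Y × Y => q) (F : Filter (Y × Y)) (𝓝 q) :=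
      hF.trans nhdsWithin_le_nhds
    have hFs : ∀ᶠ q in (F : Filter (Y × Y)), p q.1 = p q.2 :=
      hF self_mem_nhdsWithin
    obtain ⟨a, ha⟩ := exists_lim F fun q : Y × Y => s q.1
    obtain ⟨b, hb⟩ := exists_lim F fun q : Y × Y => s q.2
    have haM : a ∈ M := hM.mem_of_tendsto ha (Eventually.of_forall fun q => hs1 q.1)
    have hbM : b ∈ M := hM.mem_of_tendsto hb (Eventually.of_forall fun q => hs1 q.2)
    have ha' : Tendsto (fun q : Y × Y => s q.1) (F : Filter (Y × Y)) (𝓝[M] a) :=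
      tendsto_nhdsWithin_iff.2 ⟨ha, Eventually.of_forall fun q => hs1 q.1⟩
    have hb' : Tendsto (fun q : Y × Y => s q.2) (F : Filter (Y × Y)) (𝓝[M] b) :=
      tendsto_nhdsWithin_iff.2 ⟨hb, Eventually.of_forall fun q => hs1 q.2⟩
    have e1 : π' a = q.1 := by
      have h2 := (hcont' a haM).tendsto.comp ha'
      have h3 : Tendsto (fun q : Y × Y => q.1) (F : Filter (Y × Y)) (𝓝 q.1) :=
        (continuous_fst.tendsto q).comp hFq
      refine tendsto_nhds_unique h2 (h3.congr fun x => ?_)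
      exact (hs2 x.1).symm
    have e2 : π' b = q.2 := by
      have h2 := (hcont' b hbM).tendsto.comp hb'
      have h3 : Tendsto (fun q : Y × Y => q.2) (F : Filter (Y × Y)) (𝓝 q.2) :=
        (continuous_snd.tendsto q).comp hFq
      refine tendsto_nhds_unique h2 (h3.congr fun x => ?_)
      exact (hs2 x.2).symm
    have hπa : π a = p q.1 := by rw [← hp a haM, e1]
    have hπb : π b = p q.1 := by rw [← hp b hbM, e2]; exact hq.symm
    have h4 : Tendsto (fun q : Y × Y => (s q.1, s q.2, π (s q.1))) (F : Filter (Y × Y))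
        (𝓝 (a, b, π a)) :=
      ha.prodMk_nhds (hb.prodMk_nhds ((hcont a haM).tendsto.comp ha'))
    have h5 := (hρ.cont (a, b, π a) ⟨⟨haM, rfl⟩, ⟨hbM, by
      change π a = π b; rw [hπa, hπb]⟩⟩).tendsto.comp
      (tendsto_nhdsWithin_iff.2 ⟨h4, by
        filter_upwards [hFs] with x hx
        exact ⟨⟨hs1 x.1, rfl⟩, ⟨hs1 x.2, by
          change π (s x.1) = π (s x.2)
          rw [hsp, hsp]; exact hx⟩⟩⟩)
    have h6 : ρ a b (π a) = ρ (s q.1) (s q.2) (p q.1) := by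
      have := wd hρ h0 hp haM (hs1 q.1) hbM (hs1 q.2) (by rw [e1, hs2]) (by rw [e2, hs2])
        (by rw [hπa, hπb])
      rw [this, hπa]
    have h7 : Tendsto (fun x : Y × Y => ρ (s x.1) (s x.2) (π (s x.1))) (F : Filter (Y × Y))
        (𝓝 (ρ (s q.1) (s q.2) (p q.1))) := by
      rw [← h6]; exact h5
    refine h7.congr fun x => ?_
    rw [hsp]
  · intro m y y' hy
    change ρ (s (sh m y)) (s (sh m y')) (p (sh m y)) = ρ (s y) (s y') (p y)
    have g1 : (s y, p y) ∈ gr M π := ⟨hs1 y, (hsp y).symm⟩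
    have g2 : (s y', p y) ∈ gr M π := ⟨hs1 y', by
      change p y = π (s y'); rw [hsp]; exact hy⟩
    rw [← hρ.inv m (p y) (s y) (s y') g1 g2]
    have c1 : π' (sh m (s y)) = sh m y := by rw [hequi' _ (hs1 y), hs2]
    have c2 : π' (sh m (s y')) = sh m y' := by rw [hequi' _ (hs1 y'), hs2]
    have d1 : sh m (s y) ∈ M := hMi m _ (hs1 y)
    have d2 : sh m (s y') ∈ M := hMi m _ (hs1 y')
    have f1 : π (sh m (s y)) = p (sh m y) := by rw [← hp _ d1, c1]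
    have f2 : π (sh m (s y')) = p (sh m y') := by rw [← hp _ d2, c2]
    have f3 : π (sh m (s y)) = sh m (p y) := by rw [hequi _ (hs1 y), hsp]
    have f4 : π (sh m (s y')) = sh m (p y) := by rw [hequi _ (hs1 y'), hsp, hy]
    have := wd hρ h0 hp d1 (hs1 (sh m y)) d2 (hs1 (sh m y')) (by rw [c1, hs2]) (by rw [c2, hs2])
      (by rw [f3, f4])
    rw [f1] at this
    rw [← this, ← f3, f1]
  · intro y
    exact hρ.self _ _ ⟨hs1 y, (hsp y).symm⟩
  · intro y y' hy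
    exact hρ.nonneg _ _ _ ⟨hs1 y, (hsp y).symm⟩ ⟨hs1 y', by
      change p y = π (s y'); rw [hsp]; exact hy⟩
  · intro y y' hy
    change ρ (s y) (s y') (p y) = ρ (s y') (s y) (p y')
    rw [hρ.symm (p y) (s y) (s y') ⟨hs1 y, (hsp y).symm⟩ ⟨hs1 y', by
      change p y = π (s y'); rw [hsp]; exact hy⟩, hy]
  · intro y y' y'' hy hy'
    change ρ (s y) (s y'') (p y) ≤ ρ (s y) (s y') (p y) + ρ (s y') (s y'') (p y')
    rw [← hy]
    exact hρ.tri (p y) (s y) (s y') (s y'') ⟨hs1 y, (hsp y).symm⟩ ⟨hs1 y', by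
      change p y = π (s y'); rw [hsp]; exact hy⟩ ⟨hs1 y'', by
      change p y = π (s y''); rw [hsp, hy]; exact hy'⟩
  · intro y y' hy h
    have := h1 (s y) (hs1 y) (s y') (hs1 y') (by rw [hsp, hsp]; exact hy) (by rw [hsp]; exact h)
    rwa [hs2, hs2] at this

end iso

end I_LST

open I_LST in
theorem LST_pf (hLTC : S_LTC) (hLTM : S_LTM) (hL1A : S_L1A) : S_LST := by
  intro k n X _ _ _ _ M π lam Q η κ hpo hQ hη hκ hκc hκe
  obtain ⟨hTc, hTe⟩ := hLTC k n X M π κ hpo hκc hκe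
  obtain ⟨ρ, hρ, hρT⟩ := hLTM k n X M π κ hpo hκc hκe
  set K' : Set (X × Cube (IxL k n)) := (fun w => (π w, ThL π κ w)) '' M with hK'
  have hMc : IsCompact M := hpo.min.closed.isCompact
  have hKc : IsClosed K' :=
    (hMc.image_of_continuousOn (hpo.cont.prodMk hTc)).isClosed
  have hKi : AK.Inv K' := by
    rintro m _ ⟨w, hw, rfl⟩
    refine ⟨sh m w, hpo.min.inv m w hw, ?_⟩
    change (π (sh m w), ThL π κ (sh m w)) = (sh m (π w), sh m (ThL π κ w))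
    rw [hpo.equi w hw m, hTe w hw m]
  obtain ⟨w₀, hw₀⟩ := hpo.min.ne
  classical
  let X' : Sp := Sp.ofSet K' hKc hKi
  let π' : Om k → X'.C := fun w =>
    if h : w ∈ M then (⟨(π w, ThL π κ w), ⟨w, h, rfl⟩⟩ : K')
    else (⟨(π w₀, ThL π κ w₀), ⟨w₀, hw₀, rfl⟩⟩ : K')
  let p : X'.C → X := fun y => (y : K').1.1
  let e : X'.C → Cube (IxL k n) := fun y => (y : K').1.2
  have hpc : Continuous p := (continuous_fst.comp continuous_subtype_val : Continuous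
    fun y : K' => y.1.1)
  have hec : Continuous e := (continuous_snd.comp continuous_subtype_val : Continuous
    fun y : K' => y.1.2)
  have hπ' : ∀ w, (h : w ∈ M) → π' w = (⟨(π w, ThL π κ w), ⟨w, h, rfl⟩⟩ : K') := by
    intro w h
    change (if h : w ∈ M then (⟨(π w, ThL π κ w), ⟨w, h, rfl⟩⟩ : K') else _) = _
    rw [dif_pos h]
  have hpe : ∀ (m : ℤ) y, p (sh m y) = sh m (p y) := fun m y => rfl
  have hee : ∀ (m : ℤ) y, e (sh m y) = sh m (e y) := fun m y => rfl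
  have hpπ : ∀ w ∈ M, p (π' w) = π w := fun w hw => by rw [hπ' w hw]
  have heπ : ∀ w ∈ M, e (π' w) = ThL π κ w := fun w hw => by rw [hπ' w hw]
  have hinj : ∀ y y', p y = p y' → e y = e y' → y = y' := by
    intro y y' h1 h2
    exact Subtype.ext (Prod.ext h1 h2)
  have hcont' : ContinuousOn π' M := by
    rw [continuousOn_iff_continuous_restrict]
    have h1 : Continuous fun w : M => ((π w.1, ThL π κ w.1) : X × Cube (IxL k n)) :=
      continuousOn_iff_continuous_restrict.1 (hpo.cont.prodMk hTc)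
    have h2 : Continuous fun w : M => (⟨(π w.1, ThL π κ w.1), ⟨w.1, w.2, rfl⟩⟩ : K') :=
      h1.subtype_mk _
    have h3 : M.domRestrict π' = fun w : M => (⟨(π w.1, ThL π κ w.1), ⟨w.1, w.2, rfl⟩⟩ : K') := by
      funext w
      exact hπ' w.1 w.2
    rw [h3]
    exact h2
  have hequi' : ∀ w ∈ M, ∀ m : ℤ, π' (sh m w) = sh m (π' w) := by
    intro w hw m
    apply hinj
    · rw [hpe, hpπ _ (hpo.min.inv m w hw), hpπ w hw, hpo.equi w hw m]
    · rw [hee, heπ _ (hpo.min.inv m w hw), heπ w hw, hTe w hw m]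
  have honto : ∀ y, ∃ w ∈ M, π' w = y := by
    rintro ⟨y, w, hw, hwy⟩
    refine ⟨w, hw, ?_⟩
    rw [hπ' w hw]
    exact Subtype.ext hwy
  refine ⟨X', π', p, e, ⟨hpo.min, hcont', hequi', honto⟩, ⟨hpc, hpe, hpπ, ?_, ?_⟩, hec, hee, heπ,
    hinj⟩
  · have : T2Space X'.C := inferInstance
    refine iso hpo.min.closed hcont' hpo.cont hpo.equi hequi' hpo.min.inv hρ ?_ ?_ hpπ honto
    · intro w hw w' hw' h
      refine (hρT w hw w' hw' ?_).2 ?_
      · rw [← hpπ w hw, ← hpπ w' hw', h]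
      · rw [← heπ w hw, ← heπ w' hw', h]
    · intro w hw w' hw' h h0
      apply hinj
      · rw [hpπ w hw, hpπ w' hw', h]
      · rw [heπ w hw, heπ w' hw']
        exact (hρT w hw w' hw' h).1 h0
  · intro ρ₁ hρ₁ G hG u hu u' hu' h
    refine hL1A k n X M π lam Q η κ ρ₁ G hpo hQ hη hκ hρ₁ hG u hu u' hu' fun i => ?_
    have h1 := hu.1 i
    have h2 := hu'.1 i
    exact ⟨by rw [← hpπ _ h1, ← hpπ _ h2, h i], by rw [← heπ _ h1, ← heπ _ h2, h i]⟩

end Pool.Agent.Work.MP_69fea5_lc.W3
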