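import Pool.Agent.Work.MP_69fea5_lc.W3.StmtsL

set_option autoImplicit false

namespace Pool.Agent.Work.MP_69fea5_lc.W3

open MeasureTheory Topology Set Filter TopologicalSpace ProbabilityTheory
open scoped NNReal ENNReal
open Pool.Agent.Work.MP_69fea5_lc.AK

theorem LTC_pf (hLIN : S_LIN) (hLRT : S_LRT) (hLMC : S_LMC) (hPMG : S_PMG) (hCYL : AK.S_CYL) :
    S_LTC := by
  intro k n X _ _ _ _ M π κ hPo hκ hκe
  obtain ⟨hcyl, hcylsh, _⟩ := hCYL k
  have hRT := (hLRT k n).1
  constructor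
  · refine continuousOn_pi.2 fun a => continuousOn_pi.2 fun m => ?_
    rw [Topology.IsInducing.subtypeVal.continuousOn_iff]
    obtain ⟨L, j, q⟩ := a
    let D : Set (Oth j → Om k) := {u | ∀ i : Oth j, u i ∈ cyl (q i) m}
    have hD : IsClopen D := by
      have h : D = ⋂ i : Oth j, (fun u : Oth j → Om k => u i) ⁻¹' cyl (q i) m := by
        ext u; simp [D]
      rw [h]
      exact isClopen_iInter_of_finite fun i => (hcyl (q i) m).preimage (continuous_apply i)
    have h := (hLMC k n X M π j (κ j) (RT L) hPo (hκ j) (hκe j) (hRT L).1 (hRT L).2).2.2 D hD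
    exact h
  · intro w hw m
    funext a t
    obtain ⟨L, j, q⟩ := a
    apply Subtype.ext
    change ((κ j (π (sh m w)) {u | ins j (sh m w) u ∈ RT L ∧ ∀ i : Oth j, u i ∈ cyl (q i) t} :
        ℝ≥0) : ℝ) =
      ((κ j (π w) {u | ins j w u ∈ RT L ∧ ∀ i : Oth j, u i ∈ cyl (q i) (t + m)} : ℝ≥0) : ℝ)
    congr 1
    have hins := (hLIN n j (Om k)).2.2
    have hB : IsClosed {u : Oth j → Om k |
        ins j (sh m w) u ∈ RT L ∧ ∀ i : Oth j, u i ∈ cyl (q i) t} := by
      have h1 : IsClosed {u : Oth j → Om k | ins j (sh m w) u ∈ RT L} :=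
        (hRT L).1.preimage (hins.1.comp (Continuous.prodMk continuous_const continuous_id))
      have h2 : IsClosed {u : Oth j → Om k | ∀ i : Oth j, u i ∈ cyl (q i) t} := by
        rw [Set.setOf_forall]
        exact isClosed_iInter fun i => (hcyl (q i) t).isClosed.preimage (continuous_apply i)
      exact h1.inter h2
    rw [hPo.equi w hw m, hκe j m (π w), (hPMG (Oth j → Om k)).1 _ m _ hB.measurableSet]
    congr 1
    ext z
    change (ins j (sh m w) (sh m z) ∈ RT L ∧ ∀ i : Oth j, sh m (z i) ∈ cyl (q i) t) ↔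
      (ins j w z ∈ RT L ∧ ∀ i : Oth j, z i ∈ cyl (q i) (t + m))
    rw [hins.2.1 m w z]
    refine and_congr ⟨fun h => ?_, fun h => (hRT L).2 m _ h⟩
      (forall_congr' fun i => hcylsh _ _ _ _)
    have h3 := (hRT L).2 (-m) _ h
    rwa [← sh_add, neg_add_cancel, sh_zero] at h3

end Pool.Agent.Work.MP_69fea5_lc.W3
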