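import Pool.Agent.Work.MP_69fea5_lc.W3.StmtsL

/-! # Block [69fea5 W3 L], item [LTE]: equal phases give almost equal sections. -/

set_option autoImplicit false

namespace Pool.Agent.Work.MP_69fea5_lc.W3

open MeasureTheory Topology Set Filter TopologicalSpace ProbabilityTheory
open scoped NNReal ENNReal
open Pool.Agent.Work.MP_69fea5_lc.AK

namespace I_LTE

/-- the box of the words of `u` on `[-L, L]` -/
def NB {k : ℕ} {ι : Type} (u : ι → Om k) (L : ℕ) : Set (ι → Om k) :=
  {v | ∀ i, v i ∈ cyl (wordOf (u i) L) 0}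

section box

variable {k : ℕ} {ι : Type}

theorem mem_NB (hCYL : AK.S_CYL) (u v : ι → Om k) (L : ℕ) :
    v ∈ NB u L ↔ ∀ i, ∀ j : ℤ, |j| ≤ L → v i j = u i j := by
  have h := (hCYL k).2.2.2.1
  constructor
  · intro hv i j hj
    exact (h (u i) (v i) L).1 (hv i) j hj
  · intro hv i
    exact (h (u i) (v i) L).2 (hv i)

theorem NB_eq (hCYL : AK.S_CYL) {u v : ι → Om k} {L : ℕ} (h : v ∈ NB u L) : NB u L = NB v L := by
  rw [mem_NB hCYL] at h
  ext x
  rw [mem_NB hCYL, mem_NB hCYL]
  constructor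
  · intro hx i j hj
    rw [hx i j hj, h i j hj]
  · intro hx i j hj
    rw [hx i j hj, h i j hj]

theorem NB_inter (hCYL : AK.S_CYL) (v : ι → Om k) (L L' : ℕ) :
    NB v L ∩ NB v L' = NB v (max L L') := by
  ext x
  rw [mem_inter_iff, mem_NB hCYL, mem_NB hCYL, mem_NB hCYL]
  constructor
  · rintro ⟨h1, h2⟩ i j hj
    rcases le_total L L' with h | h
    · rw [max_eq_right h] at hj
      exact h2 i j hj
    · rw [max_eq_left h] at hj
      exact h1 i j hj
  · intro h
    refine ⟨fun i j hj => h i j (hj.trans ?_), fun i j hj => h i j (hj.trans ?_)⟩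
    · exact_mod_cast le_max_left L L'
    · exact_mod_cast le_max_right L L'

theorem pi_system (hCYL : AK.S_CYL) :
    IsPiSystem {B : Set (ι → Om k) | ∃ u L, B = NB u L} := by
  rintro _ ⟨u, L, rfl⟩ _ ⟨u', L', rfl⟩ ⟨v, hv, hv'⟩
  refine ⟨v, max L L', ?_⟩
  rw [NB_eq hCYL hv, NB_eq hCYL hv', NB_inter hCYL]

theorem basis [Finite ι] (hCYL : AK.S_CYL) :
    IsTopologicalBasis {B : Set (ι → Om k) | ∃ u L, B = NB u L} := by
  refine isTopologicalBasis_of_isOpen_of_nhds ?_ ?_
  · rintro _ ⟨u, L, rfl⟩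
    have : NB u L = univ.pi fun i => cyl (wordOf (u i) L) 0 := by
      ext v
      simp [NB]
    rw [this]
    exact isOpen_set_pi finite_univ fun i _ => ((hCYL k).1 _ _).2
  · intro u U hu hU
    obtain ⟨V, hV, hVU⟩ := isOpen_pi_iff'.1 hU u hu
    have h1 : ∀ i, ∃ L₀ : ℕ, ∀ L, L₀ ≤ L → cyl (wordOf (u i) L) 0 ⊆ V i := fun i =>
      (hCYL k).2.2.2.2.1 (u i) (V i) ((hV i).1.mem_nhds (hV i).2)
    choose L₀ hL₀ using h1
    obtain ⟨N, hN⟩ := (Set.finite_range L₀).bddAbove
    refine ⟨NB u N, ⟨u, N, rfl⟩, fun i => (hCYL k).2.2.1 (u i) N, ?_⟩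
    intro v hv
    refine hVU fun i _ => hL₀ i N (hN ⟨i, rfl⟩) (hv i)

theorem meas_eq [Countable ι] [Finite ι] (hCYL : AK.S_CYL) (μ ν : Measure (ι → Om k))
    [IsFiniteMeasure μ] (h : ∀ u L, μ (NB u L) = ν (NB u L)) (hu : μ univ = ν univ) : μ = ν := by
  refine MeasureTheory.ext_of_generate_finite _ ?_ (pi_system hCYL) ?_ hu
  · rw [← (basis hCYL).borel_eq_generateFrom]
    exact BorelSpace.measurable_eq
  · rintro _ ⟨u, L, rfl⟩
    exact h u L

end box

theorem ins_cont {n : ℕ} {j : Fin n} {X : Type} [TopologicalSpace X] (w : X) :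
    Continuous (ins j w : (Oth j → X) → Fin n → X) := by
  refine continuous_pi fun i => ?_
  by_cases h : i = j
  · have : (fun u : Oth j → X => ins j w u i) = fun _ => w := by
      funext u
      simp [ins, h]
    rw [this]
    exact continuous_const
  · have : (fun u : Oth j → X => ins j w u i) = fun u => u ⟨i, h⟩ := by
      funext u
      simp [ins, h]
    rw [this]
    exact continuous_apply _

/-- equality of the measures of the sections in all boxes -/
theorem box_eq {k n : ℕ} {X : Type} (π : Om k → X)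
    (κ : ∀ j : Fin n, X → ProbabilityMeasure (Oth j → Om k)) (w w' : Om k) (hw : π w = π w')
    (hT : ThL π κ w = ThL π κ w') (j : Fin n) (L : List (Fin n → Wd k)) (b : Fin n → Wd k) :
    (κ j (π w) : Measure (Oth j → Om k))
        {u | ins j w u ∈ RT L ∧ ∀ i : Oth j, u i ∈ cyl (b i) 0} =
      (κ j (π w) : Measure (Oth j → Om k))
        {u | ins j w' u ∈ RT L ∧ ∀ i : Oth j, u i ∈ cyl (b i) 0} := by
  have h1 := congrFun (congrFun hT (L, j, b)) 0
  have h2 : ((κ j (π w) {u | ins j w u ∈ RT L ∧ ∀ i : Oth j, u i ∈ cyl (b i) 0} : ℝ≥0) : ℝ) =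
      ((κ j (π w') {u | ins j w' u ∈ RT L ∧ ∀ i : Oth j, u i ∈ cyl (b i) 0} : ℝ≥0) : ℝ) :=
    congrArg (fun x : unitInterval => (x : ℝ)) h1
  rw [← hw] at h2
  have h3 := NNReal.coe_injective h2
  rw [← ProbabilityMeasure.ennreal_coeFn_eq_coeFn_toMeasure,
    ← ProbabilityMeasure.ennreal_coeFn_eq_coeFn_toMeasure, h3]

theorem null_of_restrict {Ω : Type} [MeasurableSpace Ω] {μ : Measure Ω} {S S' : Set Ω}
    (hS : MeasurableSet S) (hS' : MeasurableSet S') (h : μ.restrict S = μ.restrict S') :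
    μ (S \ S') = 0 ∧ μ (S' \ S) = 0 := by
  constructor
  · have h1 := congrArg (fun m : Measure Ω => m (S \ S')) h
    rw [Measure.restrict_apply (hS.diff hS'), Measure.restrict_apply (hS.diff hS')] at h1
    have h2 : (S \ S') ∩ S = S \ S' := inter_eq_left.2 diff_subset
    have h3 : (S \ S') ∩ S' = ∅ := by
      ext x
      simp
    rw [h2, h3, measure_empty] at h1
    exact h1
  · have h1 := congrArg (fun m : Measure Ω => m (S' \ S)) h
    rw [Measure.restrict_apply (hS'.diff hS), Measure.restrict_apply (hS'.diff hS)] at h1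
    have h2 : (S' \ S) ∩ S' = S' \ S := inter_eq_left.2 diff_subset
    have h3 : (S' \ S) ∩ S = ∅ := by
      ext x
      simp
    rw [h2, h3, measure_empty] at h1
    exact h1.symm

theorem null_RT (hCYL : AK.S_CYL) (hLRT : S_LRT) {k n : ℕ} {X : Type} (π : Om k → X)
    (κ : ∀ j : Fin n, X → ProbabilityMeasure (Oth j → Om k)) (w w' : Om k) (hw : π w = π w')
    (hT : ThL π κ w = ThL π κ w') (j : Fin n) (L : List (Fin n → Wd k)) :
    (κ j (π w) : Measure (Oth j → Om k)) {u | ins j w u ∈ RT L ∧ ins j w' u ∉ RT L} = 0 ∧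
    (κ j (π w) : Measure (Oth j → Om k)) {u | ins j w' u ∈ RT L ∧ ins j w u ∉ RT L} = 0 := by
  have hc : IsClosed (RT L : Set (Fin n → Om k)) := ((hLRT k n).1 L).1
  have hS : MeasurableSet ((ins j w : (Oth j → Om k) → Fin n → Om k) ⁻¹' RT L) :=
    (hc.preimage (ins_cont w)).measurableSet
  have hS' : MeasurableSet ((ins j w' : (Oth j → Om k) → Fin n → Om k) ⁻¹' RT L) :=
    (hc.preimage (ins_cont w')).measurableSet
  have hm : ∀ b : Fin n → Wd k, MeasurableSet {u : Oth j → Om k | ∀ i : Oth j,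
      u i ∈ cyl (b i) 0} := by
    intro b
    have : {u : Oth j → Om k | ∀ i : Oth j, u i ∈ cyl (b i) 0} =
        ⋂ i : Oth j, (fun u : Oth j → Om k => u i) ⁻¹' cyl (b i) 0 := by
      ext u
      simp
    rw [this]
    exact MeasurableSet.iInter fun i =>
      (((hCYL k).1 (b i) 0).1.preimage (continuous_apply i)).measurableSet
  have hbox : ∀ b : Fin n → Wd k,
      (κ j (π w) : Measure (Oth j → Om k)).restrict
          ((ins j w : (Oth j → Om k) → Fin n → Om k) ⁻¹' RT L)
          {u : Oth j → Om k | ∀ i : Oth j, u i ∈ cyl (b i) 0} =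
        (κ j (π w) : Measure (Oth j → Om k)).restrict
          ((ins j w' : (Oth j → Om k) → Fin n → Om k) ⁻¹' RT L)
          {u : Oth j → Om k | ∀ i : Oth j, u i ∈ cyl (b i) 0} := by
    intro b
    rw [Measure.restrict_apply (hm b), Measure.restrict_apply (hm b)]
    have h1 := box_eq π κ w w' hw hT j L b
    have e1 : {u : Oth j → Om k | ∀ i : Oth j, u i ∈ cyl (b i) 0} ∩
        (ins j w : (Oth j → Om k) → Fin n → Om k) ⁻¹' RT L =
        {u | ins j w u ∈ RT L ∧ ∀ i : Oth j, u i ∈ cyl (b i) 0} := by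
      ext u
      exact and_comm
    have e2 : {u : Oth j → Om k | ∀ i : Oth j, u i ∈ cyl (b i) 0} ∩
        (ins j w' : (Oth j → Om k) → Fin n → Om k) ⁻¹' RT L =
        {u | ins j w' u ∈ RT L ∧ ∀ i : Oth j, u i ∈ cyl (b i) 0} := by
      ext u
      exact and_comm
    rw [e1, e2]
    exact h1
  have hres : (κ j (π w) : Measure (Oth j → Om k)).restrict
          ((ins j w : (Oth j → Om k) → Fin n → Om k) ⁻¹' RT L) =
        (κ j (π w) : Measure (Oth j → Om k)).restrict
          ((ins j w' : (Oth j → Om k) → Fin n → Om k) ⁻¹' RT L) := by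
    refine meas_eq hCYL _ _ (fun u M => ?_) ?_
    · have h1 := hbox (fun i => if h : i = j then [] else wordOf (u ⟨i, h⟩) M)
      have e1 : {v : Oth j → Om k | ∀ i : Oth j,
          v i ∈ cyl ((fun i => if h : i = j then ([] : Wd k) else wordOf (u ⟨i, h⟩) M) i.1) 0} =
          NB u M := by
        ext v
        refine forall_congr' fun i => ?_
        simp only [dif_neg i.2]
      rw [← e1]
      exact h1
    · have h1 := hbox (fun _ => [])
      have e1 : {v : Oth j → Om k | ∀ i : Oth j, v i ∈ cyl ((fun _ : Fin n => ([] : Wd k)) i) 0} =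
          univ := by
        ext v
        simp [cyl]
      rw [← e1]
      exact h1
  have h := null_of_restrict hS hS' hres
  exact h

theorem null_gen (hCYL : AK.S_CYL) (hLRT : S_LRT) {k n : ℕ} {X : Type} (π : Om k → X)
    (κ : ∀ j : Fin n, X → ProbabilityMeasure (Oth j → Om k)) (w w' : Om k) (hw : π w = π w')
    (hT : ThL π κ w = ThL π κ w') (j : Fin n) (R : Set (Fin n → Om k)) (hR : IsClosed R)
    (hI : AK.Inv R) :
    (κ j (π w) : Measure (Oth j → Om k)) {u | ins j w u ∈ R ∧ ins j w' u ∉ R} = 0 := by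
  refine le_antisymm (ENNReal.le_of_forall_pos_le_add fun ε hε _ => ?_) bot_le
  have hm' : Measurable (ins j w' : (Oth j → Om k) → Fin n → Om k) := (ins_cont w').measurable
  set ν : Measure (Fin n → Om k) := (κ j (π w) : Measure (Oth j → Om k)).map (ins j w') with hν
  have hfin : IsFiniteMeasure ν := Measure.isFiniteMeasure_map _ _
  obtain ⟨L, hL, hLe⟩ := (hLRT k n).2.2 R hR hI ν ε (by exact_mod_cast hε)
  have hc : IsClosed (RT L : Set (Fin n → Om k)) := ((hLRT k n).1 L).1
  rw [hν, Measure.map_apply hm' (hc.measurableSet.diff hR.measurableSet)] at hLe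
  have hsub : {u : Oth j → Om k | ins j w u ∈ R ∧ ins j w' u ∉ R} ⊆
      {u | ins j w u ∈ RT L ∧ ins j w' u ∉ RT L} ∪ ins j w' ⁻¹' (RT L \ R) := by
    rintro u ⟨h1, h2⟩
    by_cases h3 : ins j w' u ∈ RT L
    · exact Or.inr ⟨h3, h2⟩
    · exact Or.inl ⟨hL h1, h3⟩
  calc (κ j (π w) : Measure (Oth j → Om k)) {u | ins j w u ∈ R ∧ ins j w' u ∉ R}
      ≤ (κ j (π w) : Measure (Oth j → Om k))
        ({u | ins j w u ∈ RT L ∧ ins j w' u ∉ RT L} ∪ ins j w' ⁻¹' (RT L \ R)) :=
        measure_mono hsub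
    _ ≤ (κ j (π w) : Measure (Oth j → Om k)) {u | ins j w u ∈ RT L ∧ ins j w' u ∉ RT L} +
        (κ j (π w) : Measure (Oth j → Om k)) (ins j w' ⁻¹' (RT L \ R)) := measure_union_le _ _
    _ ≤ 0 + ε := by
        refine add_le_add (le_of_eq ?_) hLe.le
        exact (null_RT hCYL hLRT π κ w w' hw hT j L).1

end I_LTE

theorem LTE_pf (hCYL : AK.S_CYL) (hLRT : S_LRT) : S_LTE := by
  intro k n X π κ w w' hw hT j R hR hI
  constructor
  · have h := I_LTE.null_gen hCYL hLRT π κ w w' hw hT j R hR hI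
    exact (ProbabilityMeasure.null_iff_toMeasure_null _ _).2 h
  · have h := I_LTE.null_gen hCYL hLRT π κ w' w hw.symm hT.symm j R hR hI
    rw [← hw] at h
    exact (ProbabilityMeasure.null_iff_toMeasure_null _ _).2 h

end Pool.Agent.Work.MP_69fea5_lc.W3
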