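import Pool.Agent.Work.MP_69fea5_lc.W3.StmtsL

set_option autoImplicit false

namespace Pool.Agent.Work.MP_69fea5_lc.W3

open MeasureTheory Topology Set Filter TopologicalSpace ProbabilityTheory
open scoped NNReal ENNReal BoundedContinuousFunction
open Pool.Agent.Work.MP_69fea5_lc.AK

namespace I_LTH

section av

variable {O : Type} [TopologicalSpace O] [MeasurableSpace O] [CS O] [Sys O]

/-- the average of the first shifts -/
noncomputable def avM (θ : ProbabilityMeasure O) (N : ℕ) : Measure O :=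
  ((N + 1 : ℕ) : ℝ≥0∞)⁻¹ •
    ∑ i ∈ Finset.range (N + 1), ((sh (i : ℤ) θ : ProbabilityMeasure O) : Measure O)

theorem avM_apply (θ : ProbabilityMeasure O) (N : ℕ) (A : Set O) :
    avM θ N A = ((N + 1 : ℕ) : ℝ≥0∞)⁻¹ *
      ∑ i ∈ Finset.range (N + 1), ((sh (i : ℤ) θ : ProbabilityMeasure O) : Measure O) A := by
  unfold avM
  rw [Measure.smul_apply, Measure.finsetSum_apply, smul_eq_mul]

theorem avM_one (θ : ProbabilityMeasure O) (N : ℕ) (A : Set O)
    (h : ∀ i : ℕ, ((sh (i : ℤ) θ : ProbabilityMeasure O) : Measure O) A = 1) :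
    avM θ N A = 1 := by
  rw [avM_apply, Finset.sum_congr rfl fun i _ => h i, Finset.sum_const, Finset.card_range,
    nsmul_eq_mul, mul_one]
  exact ENNReal.inv_mul_cancel (by simp) (ENNReal.natCast_ne_top _)

theorem avM_prob (θ : ProbabilityMeasure O) (N : ℕ) : IsProbabilityMeasure (avM θ N) :=
  ⟨avM_one θ N univ fun _ => measure_univ⟩

/-- the average as a probability measure -/
noncomputable def av (θ : ProbabilityMeasure O) (N : ℕ) : ProbabilityMeasure O :=
  ⟨avM θ N, avM_prob θ N⟩

theorem int_av (θ : ProbabilityMeasure O) (N : ℕ) (f : O →ᵇ ℝ) :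
    ∫ z, f z ∂(av θ N : Measure O) = ((N + 1 : ℕ) : ℝ)⁻¹ *
      ∑ i ∈ Finset.range (N + 1), ∫ z, f z ∂((sh (i : ℤ) θ : ProbabilityMeasure O) : Measure O) := by
  have h : (av θ N : Measure O) = avM θ N := rfl
  rw [h]
  unfold avM
  rw [integral_smul_measure, integral_finsetSum_measure fun i _ => f.integrable _,
    ENNReal.toReal_inv, ENNReal.toReal_natCast, smul_eq_mul]

theorem sh_coe (θ : ProbabilityMeasure O) (n : ℤ) :
    ((sh n θ : ProbabilityMeasure O) : Measure O) = (θ : Measure O).map (sh n : O → O) := rfl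

theorem int_sh (θ : ProbabilityMeasure O) (n : ℤ) (f : O →ᵇ ℝ) :
    ∫ z, f z ∂((sh n θ : ProbabilityMeasure O) : Measure O) =
      ∫ z, f (sh n z) ∂(θ : Measure O) := by
  rw [sh_coe]
  exact integral_map (sh_cont n).measurable.aemeasurable
    f.continuous.measurable.aestronglyMeasurable

theorem int_sh_av (θ : ProbabilityMeasure O) (N : ℕ) (f : O →ᵇ ℝ) :
    ∫ z, f z ∂((sh 1 (av θ N) : ProbabilityMeasure O) : Measure O) = ((N + 1 : ℕ) : ℝ)⁻¹ *
      ∑ i ∈ Finset.range (N + 1),
        ∫ z, f z ∂((sh ((i + 1 : ℕ) : ℤ) θ : ProbabilityMeasure O) : Measure O) := by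
  rw [int_sh]
  have h := int_av θ N (f.compContinuous ⟨(sh 1 : O → O), sh_cont 1⟩)
  rw [show (∫ z, f (sh 1 z) ∂(av θ N : Measure O)) =
    ∫ z, (f.compContinuous ⟨(sh 1 : O → O), sh_cont 1⟩) z ∂(av θ N : Measure O) from rfl, h]
  congr 1
  refine Finset.sum_congr rfl fun i _ => ?_
  rw [int_sh, int_sh]
  refine integral_congr_ae (Eventually.of_forall fun z => ?_)
  show f (sh 1 (sh (i : ℤ) z)) = f (sh ((i + 1 : ℕ) : ℤ) z)
  rw [← sh_add]
  congr 2
  push_cast
  ring

/-- Krylov–Bogoliubov -/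
theorem kb (θ : ProbabilityMeasure O) : ∃ (G : Ultrafilter ℕ) (θ' : ProbabilityMeasure O),
    Tendsto (av θ) (G : Filter ℕ) (𝓝 θ') ∧ ∀ m : ℤ, sh m θ' = θ' := by
  obtain ⟨θ', -, hθ'⟩ := (isCompact_univ (X := ProbabilityMeasure O)).ultrafilter_le_nhds
    ((hyperfilter ℕ).map (av θ)) (by simp)
  have ht : Tendsto (av θ) (hyperfilter ℕ : Filter ℕ) (𝓝 θ') := hθ'
  have hG : (hyperfilter ℕ : Filter ℕ) ≤ atTop := by
    rw [← Nat.cofinite_eq_atTop]
    exact hyperfilter_le_cofinite
  refine ⟨hyperfilter ℕ, θ', ht, ?_⟩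
  have h1 : sh 1 θ' = θ' := by
    have ht1 : Tendsto (fun N => sh 1 (av θ N)) (hyperfilter ℕ : Filter ℕ) (𝓝 (sh 1 θ')) :=
      ((sh_cont 1).tendsto θ').comp ht
    apply Subtype.ext
    change ((sh 1 θ' : ProbabilityMeasure O) : Measure O) = (θ' : Measure O)
    refine ext_of_forall_integral_eq_of_IsFiniteMeasure fun f => ?_
    have ha := (ProbabilityMeasure.tendsto_iff_forall_integral_tendsto.1 ht) f
    have hb := (ProbabilityMeasure.tendsto_iff_forall_integral_tendsto.1 ht1) f
    have hd : Tendsto (fun N : ℕ =>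
        ∫ z, f z ∂((sh 1 (av θ N) : ProbabilityMeasure O) : Measure O) -
          ∫ z, f z ∂(av θ N : Measure O)) (hyperfilter ℕ : Filter ℕ) (𝓝 0) := by
      have h0 : Tendsto (fun N : ℕ => (2 * ‖f‖) * ((N : ℝ) + 1)⁻¹) (hyperfilter ℕ : Filter ℕ)
          (𝓝 0) := by
        have h00 : Tendsto (fun N : ℕ => (2 * ‖f‖) * (1 / ((N : ℝ) + 1))) atTop (𝓝 ((2 * ‖f‖) * 0)) :=
          (tendsto_one_div_add_atTop_nhds_zero_nat (𝕜 := ℝ)).const_mul _
        rw [mul_zero] at h00
        refine (h00.mono_left hG).congr fun N => ?_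
        rw [one_div]
      refine squeeze_zero_norm (fun N => ?_) h0
      rw [int_sh_av, int_av, ← mul_sub, ← Finset.sum_sub_distrib]
      rw [Finset.sum_range_sub (fun i : ℕ =>
        ∫ z, f z ∂((sh (i : ℤ) θ : ProbabilityMeasure O) : Measure O))]
      rw [norm_mul, mul_comm]
      have hn : ∀ n : ℕ, ‖∫ z, f z ∂((sh (n : ℤ) θ : ProbabilityMeasure O) : Measure O)‖ ≤ ‖f‖ := by
        intro n
        have := norm_integral_le_of_norm_le_const
          (μ := ((sh (n : ℤ) θ : ProbabilityMeasure O) : Measure O)) (f := f) (C := ‖f‖)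
          (Eventually.of_forall fun z => f.norm_coe_le_norm z)
        simpa using this
      have hi : ‖((N + 1 : ℕ) : ℝ)⁻¹‖ = ((N : ℝ) + 1)⁻¹ := by
        rw [norm_inv]
        congr 1
        rw [Real.norm_of_nonneg (Nat.cast_nonneg _)]
        push_cast
        rfl
      rw [hi]
      refine mul_le_mul_of_nonneg_right ?_ (by positivity)
      calc _ ≤ _ := norm_sub_le _ _
        _ ≤ ‖f‖ + ‖f‖ := add_le_add (hn _) (hn _)
        _ = 2 * ‖f‖ := by ring
    have hd' := hb.sub ha
    have := tendsto_nhds_unique hd' hd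
    linarith [this]
  -- all shifts
  have h2 : ∀ n : ℕ, sh (n : ℤ) θ' = θ' := by
    intro n
    induction n with
    | zero => exact sh_zero θ'
    | succ n ih =>
      rw [Nat.cast_succ, sh_add, h1, ih]
  intro m
  obtain ⟨n, rfl | rfl⟩ := m.eq_nat_or_neg
  · exact h2 n
  · conv_lhs => rw [← h2 n]
    rw [← sh_add, neg_add_cancel, sh_zero]

end av

end I_LTH

open I_LTH in
theorem LTH_pf (hLFT : S_LFT) : S_LTH := by
  intro k X _ _ _ _ E lam hE hon hlam
  have hEc : IsClosed E := hE.min.closed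
  obtain ⟨θ0, h0, h0m⟩ := hLFT (X × PM k) X Prod.fst E lam continuous_fst hEc
    (by rw [hon]; exact lam.coeFn_univ)
  obtain ⟨G, θ, hG, hθ⟩ := kb θ0
  have h0' : (θ0 : Measure (X × PM k)) E = 1 := by
    have : ((θ0 E : ℝ≥0) : ℝ≥0∞) = 1 := by rw [h0]; rfl
    rwa [ProbabilityMeasure.ennreal_coeFn_eq_coeFn_toMeasure] at this
  have hpre : ∀ n : ℤ, (sh n : X × PM k → X × PM k) ⁻¹' E = E := by
    intro n
    ext z
    constructor
    · intro hz
      have := hE.min.inv (-n) _ hz
      rwa [← sh_add, neg_add_cancel, sh_zero] at this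
    · intro hz
      exact hE.min.inv n z hz
  have h1 : ∀ N, (av θ0 N : Measure (X × PM k)) E = 1 := by
    intro N
    refine avM_one θ0 N E fun i => ?_
    rw [sh_coe, Measure.map_apply (sh_cont _).measurable hEc.measurableSet, hpre]
    exact h0'
  refine ⟨θ, ?_, hθ, ?_⟩
  · have h2 := ProbabilityMeasure.limsup_measure_closed_le_of_tendsto hG hEc
    have h3 : (fun N => (av θ0 N : Measure (X × PM k)) E) = fun _ => 1 := funext h1
    rw [h3, limsup_const] at h2
    have h4 : (θ : Measure (X × PM k)) E = 1 := le_antisymm prob_le_one h2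
    have : ((θ E : ℝ≥0) : ℝ≥0∞) = 1 := by
      rw [ProbabilityMeasure.ennreal_coeFn_eq_coeFn_toMeasure]
      exact h4
    exact_mod_cast this
  · have hc : Tendsto (fun N => (av θ0 N).map (f := (Prod.fst : X × PM k → X))
        measurable_fst.aemeasurable) (G : Filter ℕ)
        (𝓝 (θ.map (f := (Prod.fst : X × PM k → X)) measurable_fst.aemeasurable)) :=
      ((ProbabilityMeasure.continuous_map continuous_fst).tendsto θ).comp hG
    have h5 : (fun N => (av θ0 N).map (f := (Prod.fst : X × PM k → X))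
        measurable_fst.aemeasurable) = fun _ => lam := by
      funext N
      apply Subtype.ext
      show (avM θ0 N).map Prod.fst = (lam : Measure X)
      ext A hA
      rw [Measure.map_apply measurable_fst hA, avM_apply]
      have h6 : ∀ i : ℕ, ((sh (i : ℤ) θ0 : ProbabilityMeasure (X × PM k)) :
          Measure (X × PM k)) (Prod.fst ⁻¹' A) = (lam : Measure X) A := by
        intro i
        rw [sh_coe, Measure.map_apply (sh_cont _).measurable (measurable_fst hA)]
        have h7 : ((sh (i : ℤ) lam : ProbabilityMeasure X) : Measure X) A =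
            (lam : Measure X) A := by rw [hlam]
        rw [← h7, sh_coe, Measure.map_apply (sh_cont _).measurable hA, ← h0m,
          Measure.map_apply measurable_fst ((sh_cont _).measurable hA)]
        rfl
      rw [Finset.sum_congr rfl fun i _ => h6 i, Finset.sum_const, Finset.card_range,
        nsmul_eq_mul, ← mul_assoc, ENNReal.inv_mul_cancel (by simp)
        (ENNReal.natCast_ne_top _), one_mul]
    rw [h5] at hc
    have h8 : θ.map (f := (Prod.fst : X × PM k → X)) measurable_fst.aemeasurable = lam :=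
      tendsto_nhds_unique hc tendsto_const_nhds
    exact congrArg Subtype.val h8

end Pool.Agent.Work.MP_69fea5_lc.W3
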