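import Pool.Agent.Work.MP_69fea5_lc.W3.StmtsL

set_option autoImplicit false

namespace Pool.Agent.Work.MP_69fea5_lc.W3

open MeasureTheory Topology Set Filter TopologicalSpace ProbabilityTheory
open scoped NNReal ENNReal
open Pool.Agent.Work.MP_69fea5_lc.AK

namespace I_LTM

/-- the pseudometric of one relation -/
noncomputable def ddl {k n : ℕ} {X : Type}
    (κ : ∀ j : Fin n, X → ProbabilityMeasure (Oth j → Om k)) (i : List (Fin n → Wd k) × Fin n)
    (w w' : Om k) (v : X) : ℝ :=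
  (κ i.2 v {u | ins i.2 w u ∈ RT i.1 ∧ ins i.2 w' u ∉ RT i.1} : ℝ) +
    κ i.2 v {u | ins i.2 w' u ∈ RT i.1 ∧ ins i.2 w u ∉ RT i.1}

theorem ddl_nonneg {k n : ℕ} {X : Type}
    (κ : ∀ j : Fin n, X → ProbabilityMeasure (Oth j → Om k)) (i : List (Fin n → Wd k) × Fin n)
    (w w' : Om k) (v : X) : 0 ≤ ddl κ i w w' v := by
  unfold ddl
  positivity

theorem ddl_le {k n : ℕ} {X : Type}
    (κ : ∀ j : Fin n, X → ProbabilityMeasure (Oth j → Om k)) (i : List (Fin n → Wd k) × Fin n)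
    (w w' : Om k) (v : X) : ddl κ i w w' v ≤ 2 := by
  unfold ddl
  have h1 : (κ i.2 v {u | ins i.2 w u ∈ RT i.1 ∧ ins i.2 w' u ∉ RT i.1} : ℝ) ≤ 1 := by
    exact_mod_cast ProbabilityMeasure.apply_le_one (κ i.2 v) _
  have h2 : (κ i.2 v {u | ins i.2 w' u ∈ RT i.1 ∧ ins i.2 w u ∉ RT i.1} : ℝ) ≤ 1 := by
    exact_mod_cast ProbabilityMeasure.apply_le_one (κ i.2 v) _
  linarith

end I_LTM

open I_LTM in
theorem LTM_pf (hLRT : S_LRT) (hLMC : S_LMC) (hLTE : S_LTE) : S_LTM := by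
  intro k n X _ _ _ _ M π κ hPo hκc hκe
  classical
  haveI : Countable (List (Fin n → Wd k) × Fin n) := inferInstance
  letI : Encodable (List (Fin n → Wd k) × Fin n) := Encodable.ofCountable _
  have hipb : ∀ i : List (Fin n → Wd k) × Fin n, IPB (gr M π) (ddl κ i) := by
    intro i
    obtain ⟨-, h, -⟩ := hLMC k n X M π i.2 (κ i.2) (RT i.1) hPo (hκc i.2) (hκe i.2)
      ((hLRT k n).1 i.1).1 ((hLRT k n).1 i.1).2
    exact h
  set c : List (Fin n → Wd k) × Fin n → ℝ := fun i => (1 / 2 : ℝ) ^ Encodable.encode i with hc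
  have hcs : Summable c := summable_geometric_two_encode
  have hc0 : ∀ i, 0 < c i := fun i => by rw [hc]; positivity
  have hsum : ∀ w w' v, Summable fun i => c i * ddl κ i w w' v := by
    intro w w' v
    refine Summable.of_nonneg_of_le (fun i => mul_nonneg (hc0 i).le (ddl_nonneg κ i w w' v))
      (fun i => ?_) (hcs.mul_right 2)
    exact mul_le_mul_of_nonneg_left (ddl_le κ i w w' v) (hc0 i).le
  have hnn : ∀ w w' v i, 0 ≤ c i * ddl κ i w w' v :=
    fun w w' v i => mul_nonneg (hc0 i).le (ddl_nonneg κ i w w' v)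
  refine ⟨fun w w' v => ∑' i, c i * ddl κ i w w' v, ⟨?_, ?_, ?_, ?_, ?_, ?_⟩, ?_⟩
  · apply continuousOn_tsum (u := fun i => c i * 2)
    · intro i
      exact (hipb i).cont.const_mul (c i)
    · exact hcs.mul_right 2
    · intro i p _
      rw [Real.norm_of_nonneg (hnn _ _ _ i)]
      exact mul_le_mul_of_nonneg_left (ddl_le κ i _ _ _) (hc0 i).le
  · intro m x u u' hu hu'
    exact tsum_congr fun i => by rw [(hipb i).inv m x u u' hu hu']
  · intro x u hu
    have : ∀ i, c i * ddl κ i u u x = 0 := fun i => by rw [(hipb i).self x u hu, mul_zero]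
    simp only [this, tsum_zero]
  · intro x u u' _ _
    exact tsum_nonneg fun i => hnn _ _ _ i
  · intro x u u' hu hu'
    exact tsum_congr fun i => by rw [(hipb i).symm x u u' hu hu']
  · intro x u u' u'' hu hu' hu''
    rw [← (hsum u u' x).tsum_add (hsum u' u'' x)]
    apply Summable.tsum_le_tsum _ (hsum u u'' x) ((hsum u u' x).add (hsum u' u'' x))
    intro i
    rw [← mul_add]
    exact mul_le_mul_of_nonneg_left ((hipb i).tri x u u' u'' hu hu' hu'') (hc0 i).le
  · intro w hw w' hw' hpi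
    constructor
    · intro h0
      have hz : ∀ i, ddl κ i w w' (π w) = 0 := by
        intro i
        have h1 : HasSum (fun i => c i * ddl κ i w w' (π w)) 0 := by
          have h5 := (hsum w w' (π w)).hasSum
          have h6 : (∑' i, c i * ddl κ i w w' (π w)) = 0 := h0
          rwa [h6] at h5
        have h2 := (hasSum_zero_iff_of_nonneg (hnn w w' (π w))).1 h1
        have h3 : c i * ddl κ i w w' (π w) = 0 := congrFun h2 i
        rcases mul_eq_zero.1 h3 with h | h
        · exact absurd h (hc0 i).ne'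
        · exact h
      funext a m
      apply Subtype.ext
      change (κ a.2.1 (π w) {u | ins a.2.1 w u ∈ RT a.1 ∧ ∀ i : Oth a.2.1, u i ∈ cyl (a.2.2 i) m} : ℝ)
        = (κ a.2.1 (π w') {u | ins a.2.1 w' u ∈ RT a.1 ∧ ∀ i : Oth a.2.1, u i ∈ cyl (a.2.2 i) m} : ℝ)
      rw [← hpi]
      have hd := hz (a.1, a.2.1)
      unfold ddl at hd
      have n1 : (κ a.2.1 (π w) : Measure _) {u | ins a.2.1 w u ∈ RT a.1 ∧ ins a.2.1 w' u ∉ RT a.1} = 0 := by
        have h1 : (κ a.2.1 (π w) {u | ins a.2.1 w u ∈ RT a.1 ∧ ins a.2.1 w' u ∉ RT a.1} : ℝ) = 0 := by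
          have ha : 0 ≤ (κ a.2.1 (π w) {u | ins a.2.1 w u ∈ RT a.1 ∧ ins a.2.1 w' u ∉ RT a.1} : ℝ) := by
            positivity
          have hb : 0 ≤ (κ a.2.1 (π w) {u | ins a.2.1 w' u ∈ RT a.1 ∧ ins a.2.1 w u ∉ RT a.1} : ℝ) := by
            positivity
          linarith
        have h2 : κ a.2.1 (π w) {u | ins a.2.1 w u ∈ RT a.1 ∧ ins a.2.1 w' u ∉ RT a.1} = 0 := by
          exact_mod_cast h1
        rwa [ProbabilityMeasure.null_iff_toMeasure_null] at h2
      have n2 : (κ a.2.1 (π w) : Measure _) {u | ins a.2.1 w' u ∈ RT a.1 ∧ ins a.2.1 w u ∉ RT a.1} = 0 := by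
        have h1 : (κ a.2.1 (π w) {u | ins a.2.1 w' u ∈ RT a.1 ∧ ins a.2.1 w u ∉ RT a.1} : ℝ) = 0 := by
          have ha : 0 ≤ (κ a.2.1 (π w) {u | ins a.2.1 w u ∈ RT a.1 ∧ ins a.2.1 w' u ∉ RT a.1} : ℝ) := by
            positivity
          have hb : 0 ≤ (κ a.2.1 (π w) {u | ins a.2.1 w' u ∈ RT a.1 ∧ ins a.2.1 w u ∉ RT a.1} : ℝ) := by
            positivity
          linarith
        have h2 : κ a.2.1 (π w) {u | ins a.2.1 w' u ∈ RT a.1 ∧ ins a.2.1 w u ∉ RT a.1} = 0 := by
          exact_mod_cast h1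
        rwa [ProbabilityMeasure.null_iff_toMeasure_null] at h2
      have key : ∀ (S S' N : Set (Oth a.2.1 → Om k)), S ⊆ S' ∪ N →
          (κ a.2.1 (π w) : Measure _) N = 0 →
          (κ a.2.1 (π w) : Measure _) S ≤ (κ a.2.1 (π w) : Measure _) S' := by
        intro S S' N hS hN
        calc (κ a.2.1 (π w) : Measure _) S ≤ (κ a.2.1 (π w) : Measure _) (S' ∪ N) :=
              measure_mono hS
          _ ≤ (κ a.2.1 (π w) : Measure _) S' + (κ a.2.1 (π w) : Measure _) N :=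
              measure_union_le _ _
          _ = (κ a.2.1 (π w) : Measure _) S' := by rw [hN, add_zero]
      have heq : (κ a.2.1 (π w) : Measure _)
          {u | ins a.2.1 w u ∈ RT a.1 ∧ ∀ i : Oth a.2.1, u i ∈ cyl (a.2.2 i) m} =
          (κ a.2.1 (π w) : Measure _)
          {u | ins a.2.1 w' u ∈ RT a.1 ∧ ∀ i : Oth a.2.1, u i ∈ cyl (a.2.2 i) m} := by
        apply le_antisymm
        · apply key _ _ _ _ n1
          intro u hu
          by_cases h : ins a.2.1 w' u ∈ RT a.1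
          · exact Or.inl ⟨h, hu.2⟩
          · exact Or.inr ⟨hu.1, h⟩
        · apply key _ _ _ _ n2
          intro u hu
          by_cases h : ins a.2.1 w u ∈ RT a.1
          · exact Or.inl ⟨h, hu.2⟩
          · exact Or.inr ⟨hu.1, h⟩
      have : κ a.2.1 (π w) {u | ins a.2.1 w u ∈ RT a.1 ∧ ∀ i : Oth a.2.1, u i ∈ cyl (a.2.2 i) m} =
          κ a.2.1 (π w) {u | ins a.2.1 w' u ∈ RT a.1 ∧ ∀ i : Oth a.2.1, u i ∈ cyl (a.2.2 i) m} := by
        rw [← ENNReal.coe_inj, ProbabilityMeasure.ennreal_coeFn_eq_coeFn_toMeasure,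
          ProbabilityMeasure.ennreal_coeFn_eq_coeFn_toMeasure]
        exact heq
      rw [this]
    · intro hTh
      have hz : ∀ i, c i * ddl κ i w w' (π w) = 0 := by
        intro i
        obtain ⟨h1, h2⟩ := hLTE k n X π κ w w' hpi hTh i.2 (RT i.1) ((hLRT k n).1 i.1).1
          ((hLRT k n).1 i.1).2
        unfold ddl
        rw [h1, h2]
        simp
      simp only [hz, tsum_zero]

end Pool.Agent.Work.MP_69fea5_lc.W3
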