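import Pool.Agent.Work.MP_69fea5_lc.W3.StmtsL

/-!
# Item [69fea5 W3 LTW]: the tower
-/

set_option autoImplicit false

namespace Pool.Agent.Work.MP_69fea5_lc.W3

open MeasureTheory Topology Set Filter TopologicalSpace ProbabilityTheory
open scoped NNReal ENNReal
open Pool.Agent.Work.MP_69fea5_lc.AK

namespace I_LTW

section

variable {k n : ℕ} {X : ℕ → Sp} {M : Set (Om k)} {π : ∀ l, Om k → (X l).C}
  {p : ∀ l, (X (l + 1)).C → (X l).C}

/-- the compositions of the maps of the tower -/
theorem exists_q (hS : ∀ l, Stp n M (π l) (π (l + 1)) (p l)) (m N : ℕ) (h : m ≤ N) :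
    ∃ q : (X N).C → (X m).C, Continuous q ∧ ∀ w ∈ M, q (π N w) = π m w := by
  induction N, h using Nat.le_induction with
  | base => exact ⟨id, continuous_id, fun w _ => rfl⟩
  | succ N h ih =>
    obtain ⟨q, hq, hw⟩ := ih
    refine ⟨fun y => q (p N y), hq.comp (hS N).cont, fun w hwM => ?_⟩
    show q (p N (π (N + 1) w)) = π m w
    rw [(hS N).comp w hwM, hw w hwM]

/-- the points have the same position in the level `m` -/
def R (π : ∀ l, Om k → (X l).C) (m : ℕ) (w w' : Om k) : Prop := π m w = π m w'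

theorem R_down (hS : ∀ l, Stp n M (π l) (π (l + 1)) (p l)) {m : ℕ} {w w' : Om k} (hw : w ∈ M)
    (hw' : w' ∈ M) (h : R π (m + 1) w w') : R π m w w' := by
  unfold R at h ⊢
  rw [← (hS m).comp w hw, ← (hS m).comp w' hw', h]

end

/-- `Fine` depends only on the equivalence relations -/
theorem fine_congr {Z : Type} [TopologicalSpace Z] [Sys Z] {n : ℕ} {A A' B B' : Type}
    {a : Z → A} {a' : Z → A'} {b : Z → B} {b' : Z → B'}
    (ha : ∀ z z', a z = a z' ↔ b z = b z') (ha' : ∀ z z', a' z = a' z' ↔ b' z = b' z')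
    (h : Fine n a a') : Fine n b b' := by
  have hW : WP n a = WP n b := by
    ext x
    constructor
    · rintro ⟨y, hy, h1⟩
      exact ⟨y, hy, fun i => (ha _ _).1 (h1 i)⟩
    · rintro ⟨y, hy, h1⟩
      exact ⟨y, hy, fun i => (ha _ _).2 (h1 i)⟩
  intro g hg hinv x hx x' hx' hxx
  rw [← hW] at hg hinv hx hx'
  exact h g hg hinv x hx x' hx' (fun i => (ha' _ _).2 (hxx i))

theorem main (hLGR : S_LGR) (hLFI : S_LFI) (k n N : ℕ) (hnN : n = N + 1) (X : ℕ → Sp)
    (M : Set (Om k)) (π : ∀ l, Om k → (X l).C) (p : ∀ l, (X (l + 1)).C → (X l).C)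
    (hPo : ∀ l, Po M (π l)) (h0 : ∀ y y' : (X 0).C, y = y')
    (hS : ∀ l, Stp n M (π l) (π (l + 1)) (p l)) :
    ∃ (Y : ℕ → Type) (_ : ∀ l, TopologicalSpace (Y l)) (_ : ∀ l, MetrizableSpace (Y l))
      (_ : ∀ l, Sys (Y l)) (q : ∀ l, (X N).C → Y l), Tw n Y q ∧
      ∀ w ∈ M, ∀ w' ∈ M, ∀ l, l ≤ N → (q l (π N w) = q l (π N w') ↔ π l w = π l w') := by
  have hex : ∀ l : ℕ, ∃ q : (X N).C → (X (min l N)).C, Continuous q ∧
      ∀ w ∈ M, q (π N w) = π (min l N) w := fun l => exists_q hS _ _ (min_le_right l N)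
  choose q hqc hqw using hex
  have hqR : ∀ l, ∀ w ∈ M, ∀ w' ∈ M, (q l (π N w) = q l (π N w') ↔ R π (min l N) w w') := by
    intro l w hw w' hw'
    rw [hqw l w hw, hqw l w' hw']
    exact Iff.rfl
  have honto := (hPo N).onto
  have hequi : ∀ l (m : ℤ) z, q l (sh m z) = sh m (q l z) := by
    intro l m z
    obtain ⟨w, hw, rfl⟩ := honto z
    rw [← (hPo N).equi w hw m, hqw l _ ((hPo N).min.inv m w hw), hqw l w hw]
    exact (hPo (min l N)).equi w hw m
  have hmono : ∀ l z z', q (l + 1) z = q (l + 1) z' → q l z = q l z' := by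
    intro l z z' h
    obtain ⟨w, hw, rfl⟩ := honto z
    obtain ⟨w', hw', rfl⟩ := honto z'
    rw [hqR (l + 1) w hw w' hw'] at h
    rw [hqR l w hw w' hw']
    rcases Nat.lt_or_ge l N with hl | hl
    · rw [min_eq_left (Nat.succ_le_of_lt hl)] at h
      rw [min_eq_left hl.le]
      exact R_down hS hw hw' h
    · rw [min_eq_right (by omega)] at h
      rw [min_eq_right hl]
      exact h
  have hzero : ∀ z z', q 0 z = q 0 z' := by
    intro z z'
    have h1 : ∀ y y' : (X (min 0 N)).C, y = y' := by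
      rw [Nat.zero_min]
      exact h0
    exact h1 _ _
  have htop : ∀ l, N ≤ l → ∀ z z', q l z = q l z' → z = z' := by
    intro l hl z z' h
    obtain ⟨w, hw, rfl⟩ := honto z
    obtain ⟨w', hw', rfl⟩ := honto z'
    rw [hqR l w hw w' hw', min_eq_right hl] at h
    exact h
  -- the maps to the levels below `N` without truncation
  have hlow : ∀ l, l ≤ N → ∃ q' : (X N).C → (X l).C, Continuous q' ∧
      (∀ w ∈ M, q' (π N w) = π l w) ∧ (∀ (m : ℤ) z, q' (sh m z) = sh m (q' z)) ∧
      ∀ z z', q' z = q' z' ↔ q l z = q l z' := by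
    intro l hl
    obtain ⟨q', hq', hw'⟩ := exists_q hS l N hl
    refine ⟨q', hq', hw', ?_, ?_⟩
    · intro m z
      obtain ⟨w, hw, rfl⟩ := honto z
      rw [← (hPo N).equi w hw m, hw' _ ((hPo N).min.inv m w hw), hw' w hw]
      exact (hPo l).equi w hw m
    · intro z z'
      obtain ⟨w, hw, rfl⟩ := honto z
      obtain ⟨w', hwM', rfl⟩ := honto z'
      rw [hqR l w hw w' hwM', min_eq_left hl, hw' w hw, hw' w' hwM']
      exact Iff.rfl
  have hpq : ∀ l (q' : (X N).C → (X (l + 1)).C) (_ : ∀ w ∈ M, q' (π N w) = π (l + 1) w),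
      l + 1 ≤ N → ∀ z z', p l (q' z) = p l (q' z') ↔ q l z = q l z' := by
    intro l q' hw' hl z z'
    obtain ⟨w, hw, rfl⟩ := honto z
    obtain ⟨w', hwM', rfl⟩ := honto z'
    rw [hqR l w hw w' hwM', min_eq_left (by omega), hw' w hw, hw' w' hwM', (hS l).comp w hw,
      (hS l).comp w' hwM']
    exact Iff.rfl
  have hiso : ∀ l, ∃ ρ, CI (q l) ρ ∧
      ∀ z z', q l z = q l z' → (ρ z z' = 0 ↔ q (l + 1) z = q (l + 1) z') := by
    intro l
    rcases Nat.lt_or_ge l N with hl | hl
    · obtain ⟨q', hq', hw', he', hr'⟩ := hlow (l + 1) hl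
      obtain ⟨ρ, hρ, hsep⟩ := (hS l).iso
      have hk := hpq l q' hw' hl
      refine ⟨fun z z' => ρ (q' z) (q' z'), ?_, ?_⟩
      · constructor
        · have hc : Continuous fun x : (X N).C × (X N).C => (q' x.1, q' x.2) :=
            (hq'.comp continuous_fst).prodMk (hq'.comp continuous_snd)
          exact hρ.cont.comp hc.continuousOn (fun x hx => (hk x.1 x.2).2 hx)
        · intro m z z' h
          show ρ (q' (sh m z)) (q' (sh m z')) = ρ (q' z) (q' z')
          rw [he', he']
          exact hρ.inv m _ _ ((hk z z').2 h)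
        · intro z
          exact hρ.self _
        · intro z z' h
          exact hρ.nonneg _ _ ((hk z z').2 h)
        · intro z z' h
          exact hρ.symm _ _ ((hk z z').2 h)
        · intro z z' z'' h h'
          exact hρ.tri _ _ _ ((hk z z').2 h) ((hk z' z'').2 h')
      · intro z z' h
        rw [← hr' z z']
        constructor
        · intro h1
          exact hsep _ _ ((hk z z').2 h) h1
        · intro h1
          show ρ (q' z) (q' z') = 0
          rw [h1]
          exact hρ.self _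
    · refine ⟨fun _ _ => 0, ?_, ?_⟩
      · exact ⟨continuousOn_const, fun _ _ _ _ => rfl, fun _ => rfl, fun _ _ _ => le_rfl,
          fun _ _ _ => rfl, fun _ _ _ _ _ => by simp⟩
      · intro z z' h
        have h1 := htop l hl z z' h
        subst h1
        simp
  have hdis : DistalOn (shA (X N).C) univ := by
    intro F x y z _ _ hx hy
    have key : ∀ l, q l x = q l y := by
      intro l
      induction l with
      | zero => exact hzero x y
      | succ l ih =>
        obtain ⟨ρ, hρ, hiff⟩ := hiso l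
        refine (hiff x y ih).1 ?_
        have hmem : ∀ g : ℤ, ((sh g x, sh g y) : (X N).C × (X N).C) ∈
            {u : (X N).C × (X N).C | q l u.1 = q l u.2} := by
          intro g
          show q l (sh g x) = q l (sh g y)
          rw [hequi, hequi, ih]
        have hz : ((z, z) : (X N).C × (X N).C) ∈
            {u : (X N).C × (X N).C | q l u.1 = q l u.2} := rfl
        have h1 : Tendsto (fun g : ℤ => ((sh g x, sh g y) : (X N).C × (X N).C)) (F : Filter ℤ)
            (𝓝[{u : (X N).C × (X N).C | q l u.1 = q l u.2}] (z, z)) :=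
          tendsto_nhdsWithin_iff.2 ⟨hx.prodMk_nhds hy, Eventually.of_forall hmem⟩
        have h2 : Tendsto (fun g : ℤ => ρ (sh g x) (sh g y)) (F : Filter ℤ) (𝓝 (ρ z z)) :=
          (hρ.cont (z, z) hz).tendsto.comp h1
        rw [hρ.self z] at h2
        have h3 : (fun g : ℤ => ρ (sh g x) (sh g y)) = fun _ => ρ x y := by
          funext g
          exact hρ.inv g x y ih
        rw [h3] at h2
        exact tendsto_nhds_unique tendsto_const_nhds h2
    exact htop N le_rfl x y (key _)
  have hfine : ∀ l, l + 3 ≤ n → Fine n (q l) (q (l + 1)) := by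
    intro l hl
    have hlN : l + 1 ≤ N := by omega
    obtain ⟨q', hq', hw', he', hr'⟩ := hlow (l + 1) hlN
    have h1 := hLFI k n (X l).C (X (l + 1)).C (X N).C M (π l) (π (l + 1)) (π N) (p l) q'
      (hPo l) (hPo (l + 1)) (hPo N) (hS l) hq' hw' hdis
    exact fine_congr (hpq l q' hw' hlN) hr' h1
  refine ⟨fun l => (X (min l N)).C, fun l => inferInstance, fun l => inferInstance,
    fun l => inferInstance, q, ?_, ?_⟩
  · refine ⟨?_, hqc, hequi, hzero, hmono, ?_, hiso, hfine⟩
    · exact (hLGR k n (X N).C M (π N) (hPo N)).2.2.1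
    · exact htop (n - 1) (by omega)
  · intro w hw w' hw' l hl
    rw [hqR l w hw w' hw', min_eq_left hl]
    exact Iff.rfl

end I_LTW

theorem LTW_pf (hLGR : S_LGR) (hLFI : S_LFI) : S_LTW := by
  intro k n X M π p hn hPo h0 hS
  exact I_LTW.main hLGR hLFI k n (n - 1) (by omega) X M π p hPo h0 hS

end Pool.Agent.Work.MP_69fea5_lc.W3
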