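import Pool.Agent.Work.MP_69fea5_lc.W3.StmtsQ

/-!
# Block [69fea5 W3 Q], item QC1: one Cauchy-Schwarz step
-/

set_option autoImplicit false

namespace Pool.Agent.Work.MP_69fea5_lc.W3

open MeasureTheory ProbabilityTheory Topology Set Filter TopologicalSpace
open scoped NNReal ENNReal
open Pool.Agent.Work.MP_69fea5_lc.AK

namespace I_QC1

theorem pw_pw {V O : Type} (B : Set V) (w v v' : V → O) :
    pw B (pw B w v) v' = pw B w v' := by
  classical
  funext a
  by_cases h : a ∈ B <;> simp [pw, h]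

theorem pw_dep {V O : Type} {B : Set V} {φ : (V → O) → ℝ} (hφ : Dep B φ) (w v : V → O) :
    φ (pw B w v) = φ w := by
  classical
  refine hφ _ _ fun a ha => ?_
  simp [pw, ha]

theorem measurable_pw {V O : Type} [MeasurableSpace O] (B : Set V) :
    Measurable fun p : (V → O) × (V → O) => pw B p.1 p.2 := by
  classical
  refine measurable_pi_lambda _ fun a => ?_
  by_cases h : a ∈ B
  · simp only [pw, h, if_true]
    exact (measurable_pi_apply a).comp measurable_fst
  · simp only [pw, h, if_false]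
    exact (measurable_pi_apply a).comp measurable_snd

/-- the product kernel -/
noncomputable def MK {X O : Type} [MeasurableSpace X] [MeasurableSpace O] (V : Type) [Fintype V]
    (η : Kernel X O) (hM : Measurable fun z : V → X => Measure.pi fun i => η (z i)) :
    Kernel (V → X) (V → O) := ⟨fun z => Measure.pi fun i => η (z i), hM⟩

section

variable {X O V : Type} [MeasurableSpace X] [MeasurableSpace O] [Fintype V]

theorem mk_apply (η : Kernel X O) (hM : Measurable fun z : V → X => Measure.pi fun i => η (z i))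
    (z : V → X) : MK V η hM z = Measure.pi fun i => η (z i) := rfl

instance mk_markov (η : Kernel X O) [IsMarkovKernel η]
    (hM : Measurable fun z : V → X => Measure.pi fun i => η (z i)) :
    IsMarkovKernel (MK V η hM) :=
  ⟨fun z => by rw [mk_apply]; infer_instance⟩

theorem integrable_bd {Ω : Type} [MeasurableSpace Ω] (μ : Measure Ω) [IsFiniteMeasure μ]
    {f : Ω → ℝ} (hf : Measurable f) (hb : Bd f) : Integrable f μ := by
  obtain ⟨b, hb⟩ := hb
  exact Integrable.of_bound hf.aestronglyMeasurable b (Eventually.of_forall fun u => by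
    rw [Real.norm_eq_abs]; exact hb u)

theorem abs_int_le {Ω : Type} [MeasurableSpace Ω] (μ : Measure Ω) [IsProbabilityMeasure μ]
    {f : Ω → ℝ} {b : ℝ} (hb : ∀ u, |f u| ≤ b) : |∫ u, f u ∂μ| ≤ b := by
  have := norm_integral_le_of_norm_le_const (μ := μ) (f := f) (C := b)
    (Eventually.of_forall fun u => by rw [Real.norm_eq_abs]; exact hb u)
  simpa using this

/-- integrals of a bounded measurable function of two variables against a kernel -/
theorem meas_int {A C : Type} [MeasurableSpace A] [MeasurableSpace C] {F : Type}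
    [MeasurableSpace F] (M : Kernel A F) [IsMarkovKernel M] {g : C → A → F → ℝ}
    (hg : Measurable fun q : (C × A) × F => g q.1.1 q.1.2 q.2) :
    Measurable fun q : C × A => ∫ v, g q.1 q.2 v ∂M q.2 := by
  have := hg.stronglyMeasurable.integral_kernel_prod_right' (κ := Kernel.prodMkLeft C M)
  simpa using this.measurable

end

end I_QC1

open I_QC1 in
theorem QC1_pf (hQPW : S_QPW) (hQFM : S_QFM) : S_QC1 := by
  intro X O V _ _ _ _ _ η _ B P _ κ hD G φ hG hGb hφ hφ1 hφB
  have := hD.mrk
  have hM := (hQFM X O V η).1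
  set M : Kernel (V → X) (V → O) := MK V η hM with hMdef
  have hMa : ∀ z : V → X, M z = Measure.pi fun i => η (z i) := fun z => rfl
  have : IsMarkovKernel M := mk_markov η hM
  obtain ⟨b, hb⟩ := hGb
  have hb0 : ∀ w : V → O, 0 ≤ b := fun w => (abs_nonneg _).trans (hb w)
  -- the key identity
  have key : ∀ x y : V → X, (∀ a ∈ B, y a = x a) → ∀ g : (V → O) → ℝ, Measurable g → Bd g →
      ∫ w, ∫ v, g (pw B w v) ∂M y ∂M x = ∫ u, g u ∂M y := by
    intro x y hxy g hg hgb
    have h2 := (hQPW O V V).2.1 B (fun a => η (x a)) (fun a => η (y a)) (fun a => inferInstance)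
      (fun a => inferInstance)
    have h3 : pw B (fun a => η (x a)) (fun a => η (y a)) = fun a => η (y a) := by
      classical
      funext a
      by_cases ha : a ∈ B
      · simp [pw, ha, hxy a ha]
      · simp [pw, ha]
    rw [h3] at h2
    have h4 : ∫ u, g u ∂M y = ∫ p, g (pw B p.1 p.2) ∂((M x).prod (M y)) := by
      have h5 : M y = ((M x).prod (M y)).map fun p => pw B p.1 p.2 := h2.symm
      conv_lhs => rw [h5]
      rw [integral_map (measurable_pw B).aemeasurable hg.aestronglyMeasurable]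
    rw [h4, integral_prod]
    refine integrable_bd _ (hg.comp (measurable_pw B)) ?_
    obtain ⟨c, hc⟩ := hgb
    exact ⟨c, fun p => hc _⟩
  -- the kernel `k`
  set k : (V → O) → (V → X) → ℝ := fun w y => ∫ v, G (pw B w v) ∂M y with hk
  have hkm : Measurable fun q : (V → O) × (V → X) => k q.1 q.2 := by
    refine meas_int M (g := fun w _ v => G (pw B w v)) ?_
    exact hG.comp ((measurable_pw B).comp
      ((measurable_fst.comp measurable_fst).prodMk measurable_snd))
  have hkb : ∀ w y, |k w y| ≤ b := fun w y => abs_int_le _ fun v => hb _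
  have hkpw : ∀ w v y, k (pw B w v) y = k w y := by
    intro w v y
    simp only [hk, pw_pw]
  have hkm2 : ∀ y, Measurable fun w => k w y := fun y => hkm.comp (measurable_id.prodMk
    measurable_const)
  have hkm3 : ∀ w, Measurable fun y => k w y := fun w => hkm.comp (measurable_const.prodMk
    measurable_id)
  -- invariance of `P` under `κ`
  have hinv : ∀ f : (V → X) → ℝ, Measurable f → Bd f →
      ∫ x, f x ∂P = ∫ x, ∫ y, f y ∂κ x ∂P := by
    intro f hf hfb
    obtain ⟨c, hc⟩ := hfb
    have hf1 : Measurable fun p : (V → X) × (V → X) => f p.1 := hf.comp measurable_fst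
    have hf2 : Measurable fun q : (V → X) × (V → X) × (V → X) => f q.2.1 :=
      hf.comp (measurable_fst.comp measurable_snd)
    have e1 : ∫ p, f p.1 ∂(P ⊗ₘ κ) = ∫ x, f x ∂P := by
      rw [Measure.integral_compProd (integrable_bd _ hf1 ⟨c, fun p => hc _⟩)]
      simp
    have e2 : ∫ p, f p.1 ∂(P ⊗ₘ κ) = ∫ q, f q.2.1 ∂(P ⊗ₘ (κ ×ₖ κ)) := by
      rw [← hD.sym, integral_map measurable_snd.aemeasurable hf1.aestronglyMeasurable]
    rw [← e1, e2, Measure.integral_compProd (integrable_bd _ hf2 ⟨c, fun p => hc _⟩)]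
    refine integral_congr_ae (Eventually.of_forall fun x => ?_)
    show ∫ p, f p.1 ∂((κ ×ₖ κ) x) = _
    rw [Kernel.prod_apply, integral_prod _ (integrable_bd _ hf1 ⟨c, fun p => hc _⟩)]
    simp
  -- the function `h`
  set h : (V → X) → (V → O) → ℝ := fun x w => ∫ y, k w y ∂κ x with hh
  have hhm : Measurable fun q : (V → X) × (V → O) => h q.1 q.2 := by
    have := meas_int κ (C := V → O) (g := fun w _ y => k w y)
      (hkm.comp ((measurable_fst.comp measurable_fst).prodMk measurable_snd))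
    exact this.comp measurable_swap
  have hhb : ∀ x w, |h x w| ≤ b := fun x w => abs_int_le _ fun y => hkb _ _
  -- step 1
  have hφG : Bd fun u => φ u * G u := by
    refine ⟨1 * b, fun u => ?_⟩
    rw [abs_mul]
    exact mul_le_mul (hφ1 u) (hb u) (abs_nonneg _) zero_le_one
  have s1 : ∫ u, φ u * G u ∂lif η P = ∫ q, φ q.2 * h q.1 q.2 ∂(P ⊗ₘ M) := by
    have e1 := ((hQFM X O V η).2.2.2.1 P inferInstance _ (hφ.mul hG) hφG)
    rw [show (∫ u, φ u * G u ∂lif η P) = _ from e1.2]
    have hφh : Measurable fun q : (V → X) × (V → O) => φ q.2 * h q.1 q.2 :=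
      (hφ.comp measurable_snd).mul hhm
    have hb' : Bd fun q : (V → X) × (V → O) => φ q.2 * h q.1 q.2 := by
      refine ⟨1 * b, fun u => ?_⟩
      rw [abs_mul]
      exact mul_le_mul (hφ1 _) (hhb _ _) (abs_nonneg _) zero_le_one
    rw [Measure.integral_compProd (integrable_bd _ hφh hb')]
    have e2 : ∫ z, ∫ u, φ u * G u ∂M z ∂P = ∫ x, ∫ y, ∫ u, φ u * G u ∂M y ∂κ x ∂P := by
      refine hinv _ e1.1 ⟨1 * b, fun z => abs_int_le _ fun u => ?_⟩
      rw [abs_mul]
      exact mul_le_mul (hφ1 u) (hb u) (abs_nonneg _) zero_le_one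
    refine Eq.trans e2 (integral_congr_ae ?_)
    filter_upwards [hD.fix] with x hx
    have e3 : ∫ y, ∫ u, φ u * G u ∂M y ∂κ x = ∫ y, ∫ w, φ w * k w y ∂M x ∂κ x := by
      refine integral_congr_ae ?_
      filter_upwards [hx] with y hy
      have e4 := key x y hy (fun u => φ u * G u) (hφ.mul hG) hφG
      rw [← e4]
      refine integral_congr_ae (Eventually.of_forall fun w => ?_)
      simp only [pw_dep hφB, hk, integral_const_mul]
    rw [e3, integral_integral_swap]
    · refine integral_congr_ae (Eventually.of_forall fun w => ?_)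
      simp only [hh, integral_const_mul]
    · refine integrable_bd _ ?_ ⟨1 * b, fun q => ?_⟩
      · exact (hφ.comp measurable_snd).mul (hkm.comp measurable_swap)
      · simp only [Function.uncurry, abs_mul]
        exact mul_le_mul (hφ1 _) (hkb _ _) (abs_nonneg _) zero_le_one
  -- step 2
  have s2 : (∫ q, φ q.2 * h q.1 q.2 ∂(P ⊗ₘ M)) ^ 2 ≤ ∫ q, h q.1 q.2 ^ 2 ∂(P ⊗ₘ M) := by
    have i1 : Integrable (fun q : (V → X) × (V → O) => |h q.1 q.2|) (P ⊗ₘ M) :=
      integrable_bd _ (continuous_abs.measurable.comp hhm) ⟨b, fun q => by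
        rw [abs_abs]; exact hhb _ _⟩
    have i2 : Integrable (fun q : (V → X) × (V → O) => h q.1 q.2 ^ 2) (P ⊗ₘ M) :=
      integrable_bd _ (hhm.pow_const 2) ⟨b ^ 2, fun q => by
        rw [abs_pow]; exact pow_le_pow_left₀ (abs_nonneg _) (hhb _ _) 2⟩
    have i3 : Integrable (fun q : (V → X) × (V → O) => φ q.2 * h q.1 q.2) (P ⊗ₘ M) :=
      integrable_bd _ ((hφ.comp measurable_snd).mul hhm) ⟨1 * b, fun u => by
        rw [abs_mul]; exact mul_le_mul (hφ1 _) (hhb _ _) (abs_nonneg _) zero_le_one⟩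
    set c := ∫ q, |h q.1 q.2| ∂(P ⊗ₘ M) with hc
    have j1 : |∫ q, φ q.2 * h q.1 q.2 ∂(P ⊗ₘ M)| ≤ c := by
      refine (abs_integral_le_integral_abs).trans (integral_mono i3.abs i1 fun q => ?_)
      show |φ q.2 * h q.1 q.2| ≤ |h q.1 q.2|
      rw [abs_mul]
      exact mul_le_of_le_one_left (abs_nonneg _) (hφ1 _)
    have j2 : 0 ≤ ∫ q, (|h q.1 q.2| - c) ^ 2 ∂(P ⊗ₘ M) := integral_nonneg fun q => sq_nonneg _
    have j3 : ∫ q, (|h q.1 q.2| - c) ^ 2 ∂(P ⊗ₘ M) =
        ∫ q, h q.1 q.2 ^ 2 ∂(P ⊗ₘ M) - 2 * c * c + c ^ 2 := by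
      have : ∀ q : (V → X) × (V → O), (|h q.1 q.2| - c) ^ 2 =
          (h q.1 q.2 ^ 2 - 2 * c * |h q.1 q.2|) + c ^ 2 := by
        intro q
        rw [sub_sq, sq_abs]; ring
      simp only [this]
      have i4 : Integrable (fun q : (V → X) × (V → O) => 2 * c * |h q.1 q.2|) (P ⊗ₘ M) :=
        i1.const_mul _
      have i5 : Integrable (fun q : (V → X) × (V → O) => h q.1 q.2 ^ 2 - 2 * c * |h q.1 q.2|)
        (P ⊗ₘ M) := i2.sub i4
      rw [integral_add i5 (integrable_const _), integral_sub i2 i4, integral_const_mul, ← hc]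
      simp
    have j4 : c ^ 2 ≤ ∫ q, h q.1 q.2 ^ 2 ∂(P ⊗ₘ M) := by nlinarith
    calc (∫ q, φ q.2 * h q.1 q.2 ∂(P ⊗ₘ M)) ^ 2 = |∫ q, φ q.2 * h q.1 q.2 ∂(P ⊗ₘ M)| ^ 2 := by
          rw [sq_abs]
      _ ≤ c ^ 2 := pow_le_pow_left₀ (abs_nonneg _) j1 2
      _ ≤ _ := j4
  -- the function `Ψ`
  set Ψ : (V → X) × (V → X) → ℝ := fun p => ∫ u, G u * k u p.2 ∂M p.1 with hΨ
  have hGk : ∀ u y, |G u * k u y| ≤ b * b := by
    intro u y
    rw [abs_mul]
    exact mul_le_mul (hb u) (hkb _ _) (abs_nonneg _) (hb0 u)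
  have hΨm : Measurable Ψ := by
    have := meas_int M (C := V → X) (g := fun z _ u => G u * k u z)
      ((hG.comp measurable_snd).mul (hkm.comp (measurable_snd.prodMk
        (measurable_fst.comp measurable_fst))))
    exact this.comp measurable_swap
  have hΨb : ∀ p, |Ψ p| ≤ b * b := fun p => abs_int_le _ fun u => hGk _ _
  -- step 3
  have s3 : ∫ q, h q.1 q.2 ^ 2 ∂(P ⊗ₘ M) = ∫ x, ∫ p, Ψ p ∂((κ ×ₖ κ) x) ∂P := by
    rw [Measure.integral_compProd (integrable_bd _ (hhm.pow_const 2) ⟨b ^ 2, fun q => by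
        rw [abs_pow]; exact pow_le_pow_left₀ (abs_nonneg _) (hhb _ _) 2⟩)]
    refine integral_congr_ae ?_
    filter_upwards [hD.fix] with x hx
    have e1 : ∀ w, h x w ^ 2 = ∫ p, k w p.1 * k w p.2 ∂((κ x).prod (κ x)) := by
      intro w
      rw [integral_prod_mul (fun y => k w y) (fun y => k w y), sq]
    simp only [e1]
    rw [integral_integral_swap, Kernel.prod_apply]
    · have hx' : ∀ᵐ p ∂((κ x).prod (κ x)), ∀ a ∈ B, p.1 a = x a :=
        Measure.quasiMeasurePreserving_fst.ae hx
      refine integral_congr_ae ?_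
      filter_upwards [hx'] with p hp
      have e2 := key x p.1 hp (fun u => G u * k u p.2) (hG.mul (hkm2 p.2))
        ⟨b * b, fun u => hGk _ _⟩
      rw [hΨ]
      simp only
      rw [← e2]
      refine integral_congr_ae (Eventually.of_forall fun w => ?_)
      simp only [hkpw, integral_mul_const]
      rfl
    · refine integrable_bd _ ?_ ⟨b * b, fun q => ?_⟩
      · exact (hkm.comp (measurable_fst.prodMk (measurable_fst.comp measurable_snd))).mul
          (hkm.comp (measurable_fst.prodMk (measurable_snd.comp measurable_snd)))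
      · simp only [Function.uncurry, abs_mul]
        exact mul_le_mul (hkb _ _) (hkb _ _) (abs_nonneg _) (hb0 q.1)
  -- step 4
  have s4 : ∫ p : (V → X) × (V → X), ∫ w, ∫ v, G w * G (pw B w v) ∂(Measure.pi fun a => η (p.2 a))
      ∂(Measure.pi fun a => η (p.1 a)) ∂(P ⊗ₘ κ) = ∫ x, ∫ p, Ψ p ∂((κ ×ₖ κ) x) ∂P := by
    have e1 : ∀ p : (V → X) × (V → X), ∫ w, ∫ v, G w * G (pw B w v)
        ∂(Measure.pi fun a => η (p.2 a)) ∂(Measure.pi fun a => η (p.1 a)) = Ψ p := by
      intro p
      simp only [integral_const_mul]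
      rfl
    simp only [e1]
    have hΨ2 : Measurable fun q : (V → X) × (V → X) × (V → X) => Ψ q.2 :=
      hΨm.comp measurable_snd
    rw [← hD.sym, integral_map measurable_snd.aemeasurable hΨm.aestronglyMeasurable,
      Measure.integral_compProd (integrable_bd _ hΨ2
        ⟨b * b, fun q => hΨb _⟩)]
  rw [s4, s1, ← s3]
  exact s2

end Pool.Agent.Work.MP_69fea5_lc.W3
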