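import Pool.Agent.Work.MP_69fea5_lc.W3.StmtsQ

/-!
# Item [69fea5 W3 Q QC2]: Cauchy-Schwarz for a direction of the cube
-/

set_option autoImplicit false

namespace Pool.Agent.Work.MP_69fea5_lc.W3

open MeasureTheory ProbabilityTheory Topology Set Filter TopologicalSpace
open scoped NNReal ENNReal
open Pool.Agent.Work.MP_69fea5_lc.AK

namespace I_QC2

/-- extension of a function of the subcube by a constant -/
noncomputable def ext {n : ℕ} {O : Type} (S : Finset (Fin n)) (o : O) (u : VS n S → O) :
    Vx n → O := by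
  classical exact fun a => if h : a.1.2 ⊆ S then u ⟨a, h⟩ else o

theorem ext_apply {n : ℕ} {O : Type} (S : Finset (Fin n)) (o : O) (u : VS n S → O) (a : Vx n)
    (h : a.1.2 ⊆ S) : ext S o u a = u ⟨a, h⟩ := by
  unfold ext
  simp only [h, dif_pos]

theorem ext_apply_not {n : ℕ} {O : Type} (S : Finset (Fin n)) (o : O) (u : VS n S → O) (a : Vx n)
    (h : ¬ a.1.2 ⊆ S) : ext S o u a = o := by
  unfold ext
  simp only [h, dif_neg, not_false_eq_true]

theorem measurable_ext {n : ℕ} {O : Type} [MeasurableSpace O] (S : Finset (Fin n)) (o : O) :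
    Measurable (ext S o : (VS n S → O) → (Vx n → O)) := by
  refine measurable_pi_lambda _ fun a => ?_
  by_cases h : a.1.2 ⊆ S
  · have : (fun u : VS n S → O => ext S o u a) = fun u => u ⟨a, h⟩ := by
      funext u; exact ext_apply S o u a h
    rw [this]
    exact measurable_pi_apply _
  · have : (fun u : VS n S → O => ext S o u a) = fun _ => o := by
      funext u; exact ext_apply_not S o u a h
    rw [this]
    exact measurable_const

theorem pw_eq {V O : Type} (B : Set V) [DecidablePred (· ∈ B)] (a b : V → O) (v : V) :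
    pw B a b v = if v ∈ B then a v else b v := by
  unfold pw
  split_ifs <;> rfl

theorem measurable_pw {V O : Type} [MeasurableSpace O] (B : Set V) :
    Measurable fun p : (V → O) × (V → O) => pw B p.1 p.2 := by
  classical
  refine measurable_pi_lambda _ fun a => ?_
  by_cases h : a ∈ B
  · have : (fun p : (V → O) × (V → O) => pw B p.1 p.2 a) = fun p => p.1 a := by
      funext p; rw [pw_eq, if_pos h]
    rw [this]
    exact (measurable_pi_apply a).comp measurable_fst
  · have : (fun p : (V → O) × (V → O) => pw B p.1 p.2 a) = fun p => p.2 a := by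
      funext p; rw [pw_eq, if_neg h]
    rw [this]
    exact (measurable_pi_apply a).comp measurable_snd

theorem mv_eq {n : ℕ} {S : Finset (Fin n)} {i : Fin n} (hi : i ∉ S) (a : VS n S)
    (h : a.1.1.1 = i) : mv i a.1 = a.1 := by
  obtain ⟨⟨⟨j, s⟩, hj⟩, hs⟩ := a
  simp only at h hj hs
  subst h
  unfold mv ch
  apply Subtype.ext
  simp only
  rw [Finset.erase_insert hj]

theorem mem_mv {n : ℕ} {S : Finset (Fin n)} {i : Fin n} (a : VS n S)
    (h : a.1.1.1 ≠ i) : i ∈ (mv i a.1).1.2 := by
  obtain ⟨⟨⟨j, s⟩, hj⟩, hs⟩ := a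
  simp only at h hj hs
  unfold mv ch
  simp only [Finset.mem_erase, Finset.mem_insert, true_or, and_true]
  exact fun h' => h h'.symm

theorem mv_inj {n : ℕ} {S : Finset (Fin n)} {i : Fin n} (hi : i ∉ S) (a b : VS n S)
    (ha : a.1.1.1 ≠ i) (hb : b.1.1.1 ≠ i) (hab : mv i a.1 = mv i b.1) : a = b := by
  obtain ⟨⟨⟨j, s⟩, hj⟩, hs⟩ := a
  obtain ⟨⟨⟨j', s'⟩, hj'⟩, hs'⟩ := b
  simp only at ha hb hj hj' hs hs'
  unfold mv ch at hab
  have h1 := congrArg (fun q : Vx n => q.1.1) hab
  have h2 := congrArg (fun q : Vx n => q.1.2) hab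
  simp only at h1 h2
  subst h1
  have his : i ∉ s := fun h => hi (hs h)
  have his' : i ∉ s' := fun h => hi (hs' h)
  have e1 : (insert i s).erase j = insert i s :=
    Finset.erase_eq_of_notMem (by simp [ha, hj])
  have e2 : (insert i s').erase j = insert i s' :=
    Finset.erase_eq_of_notMem (by simp [ha, hj'])
  rw [e1, e2] at h2
  have : s = s' := by
    have := congrArg (fun t : Finset (Fin n) => t.erase i) h2
    simpa [Finset.erase_insert his, Finset.erase_insert his'] using this
  subst this
  rfl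

end I_QC2

open I_QC2 in
theorem QC2_pf (hQPW : S_QPW) (hQFM : S_QFM) (hQFN : S_QFN) (hQC1 : S_QC1) : S_QC2 := by
  classical
  intro X O _ _ _ _ _ _ _ _ n lam η _ c P K Pc Kc hq S i hi G φ hG hGb hφ hφ1 hGD hφD
  have := hq.prob
  rcases isEmpty_or_nonempty O with hO | hO
  · have : IsEmpty (Vx n → O) := ⟨fun f => hO.elim (f (ch ∅ i))⟩
    have h1 : ∀ F : (Vx n → O) → ℝ, ∫ W, F W ∂lif η Pc = 0 := by
      intro F
      rw [Measure.eq_zero_of_isEmpty (lif η Pc), integral_zero_measure]
    rw [h1, h1]
    norm_num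
  obtain ⟨o⟩ := hO
  obtain ⟨κ, hκ, hκ2⟩ := hq.ci S i hi
  have := hκ.mrk
  set res : (Vx n → X) → (VS n S → X) := fun z a => z a.1 with hres
  have hresm : Measurable res := measurable_pi_lambda _ fun a => measurable_pi_apply _
  set PS : Measure (VS n S → X) := Pc.map res with hPS
  have : IsProbabilityMeasure PS := Measure.isProbabilityMeasure_map hresm.aemeasurable
  set B : Set (VS n S) := {a : VS n S | a.1.1.1 = i} with hB
  set G' : (VS n S → O) → ℝ := fun u => G (ext S o u) with hG'
  set φ' : (VS n S → O) → ℝ := fun u => φ (ext S o u) with hφ'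
  have hG'm : Measurable G' := hG.comp (measurable_ext S o)
  have hφ'm : Measurable φ' := hφ.comp (measurable_ext S o)
  obtain ⟨b, hb⟩ := hGb
  have hG'b : ∀ u, |G' u| ≤ b := fun u => hb _
  have hb0 : 0 ≤ b := (abs_nonneg _).trans (hb (fun _ => o))
  have hGeq : ∀ W : Vx n → O, G W = G' (fun a => W a.1) := by
    intro W
    refine hGD _ _ fun a ha => ?_
    rw [ext_apply S o _ a ha]
  have hφeq : ∀ W : Vx n → O, φ W = φ' (fun a => W a.1) := by
    intro W
    refine hφD _ _ fun a ha => ?_
    rw [ext_apply S o _ a ha.1]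
  have hφ'D : Dep B φ' := by
    intro u u' h
    refine hφD _ _ fun a ha => ?_
    rw [ext_apply S o _ a ha.1, ext_apply S o _ a ha.1]
    exact h ⟨a, ha.1⟩ ha.2
  obtain ⟨hF1, hF2, -, hF4, -, -⟩ := hQFM X O (Vx n) η
  obtain ⟨hFV1, -, -, -, -, -⟩ := hQFM X O (VS n S) η
  have hresO : Measurable (fun (u : Vx n → O) (a : VS n S) => u a.1) :=
    measurable_pi_lambda _ fun a => measurable_pi_apply _
  have hN := (hQFN X O (Vx n) η).1 (VS n S) (fun a => a.1) Subtype.val_injective Pc
  -- the left side
  have hL : ∫ W, φ W * G W ∂lif η Pc = ∫ u, φ' u * G' u ∂lif η PS := by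
    have hmm : Measurable fun u : VS n S → O => φ' u * G' u := hφ'm.mul hG'm
    rw [hPS, hres, ← hN, integral_map hresO.aemeasurable hmm.aestronglyMeasurable]
    refine integral_congr_ae (Eventually.of_forall fun W => ?_)
    simp only
    rw [hφeq W, hGeq W]
  have hC := hQC1 X O (VS n S) η B PS κ hκ G' φ' hG'm ⟨b, hG'b⟩ hφ'm (fun u => hφ1 _) hφ'D
  rw [hL]
  refine hC.trans (le_of_eq ?_)
  -- the kernel of the products
  let KP : Kernel (VS n S → X) (VS n S → O) := ⟨fun z => Measure.pi fun a => η (z a), hFV1⟩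
  have hKPa : ∀ z, KP z = Measure.pi fun a => η (z a) := fun z => rfl
  have hKPm : IsMarkovKernel KP := ⟨fun z => by rw [hKPa]; infer_instance⟩
  let H : (VS n S → O) × (VS n S → O) → ℝ := fun q => G' q.1 * G' (pw B q.1 q.2)
  have hHm : Measurable H :=
    (hG'm.comp measurable_fst).mul (hG'm.comp (measurable_pw B))
  have hHb : ∀ q, ‖H q‖ ≤ b * b := by
    intro q
    rw [Real.norm_eq_abs, abs_mul]
    exact mul_le_mul (hG'b _) (hG'b _) (abs_nonneg _) hb0
  have hHi : ∀ μ : Measure ((VS n S → O) × (VS n S → O)), IsFiniteMeasure μ → Integrable H μ := by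
    intro μ _
    exact Integrable.of_bound hHm.aestronglyMeasurable (b * b) (Eventually.of_forall hHb)
  let K2 : Kernel ((VS n S → X) × (VS n S → X)) ((VS n S → O) × (VS n S → O)) :=
    (KP.comap Prod.fst measurable_fst) ×ₖ (KP.comap Prod.snd measurable_snd)
  have hK2 : ∀ p, K2 p = (Measure.pi fun a => η (p.1 a)).prod (Measure.pi fun a => η (p.2 a)) := by
    intro p
    simp only [K2]
    rw [Kernel.prod_apply, Kernel.comap_apply, Kernel.comap_apply, hKPa, hKPa]
  have hin : ∀ p : (VS n S → X) × (VS n S → X),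
      ∫ w, ∫ v, G' w * G' (pw B w v) ∂(Measure.pi fun a => η (p.2 a))
        ∂(Measure.pi fun a => η (p.1 a)) = ∫ q, H q ∂K2 p := by
    intro p
    rw [hK2 p]
    exact (integral_prod H (hHi _ inferInstance)).symm
  have hmeas : Measurable fun p : (VS n S → X) × (VS n S → X) => ∫ q, H q ∂K2 p :=
    (hHm.stronglyMeasurable.integral_kernel (κ := K2)).measurable
  simp only [hin]
  rw [← hκ2]
  have hpair : Measurable fun z : Vx n → X =>
      ((fun a : VS n S => z a.1 : VS n S → X), fun a : VS n S => z (mv i a.1)) :=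
    (measurable_pi_lambda _ fun a => measurable_pi_apply _).prodMk
      (measurable_pi_lambda _ fun a => measurable_pi_apply _)
  rw [integral_map hpair.aemeasurable hmeas.aestronglyMeasurable]
  -- the right side
  have hRm : Measurable fun W : Vx n → O => G W * G (fun a => W (mv i a)) :=
    hG.mul (hG.comp (measurable_pi_lambda _ fun a => measurable_pi_apply _))
  have hRb : Bd fun W : Vx n → O => G W * G (fun a => W (mv i a)) :=
    ⟨b * b, fun W => by
      rw [abs_mul]
      exact mul_le_mul (hb _) (hb _) (abs_nonneg _) hb0⟩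
  rw [(hF4 Pc inferInstance _ hRm hRb).2]
  refine integral_congr_ae (Eventually.of_forall fun z => ?_)
  simp only
  rw [hK2]
  have h3 := (hQPW O (Vx n) (VS n S)).2.2.1 (fun a => a.1) (fun a => mv i a.1) B
    Subtype.val_injective (fun a ha => mv_eq hi a ha)
    (fun a ha a' h => hi (a'.2 (h ▸ mem_mv a ha)))
    (fun a ha a' ha' h => mv_inj hi a a' ha ha' h) (fun a => η (z a)) (fun a => inferInstance)
  have hpairO : Measurable fun W : Vx n → O =>
      ((fun a : VS n S => W a.1 : VS n S → O), fun a : VS n S => W (mv i a.1)) :=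
    (measurable_pi_lambda _ fun a => measurable_pi_apply _).prodMk
      (measurable_pi_lambda _ fun a => measurable_pi_apply _)
  let H' : (VS n S → O) × (VS n S → O) → ℝ := fun q => G' q.1 * G' q.2
  have hH'm : Measurable H' := (hG'm.comp measurable_fst).mul (hG'm.comp measurable_snd)
  have hpwp : Measurable fun p : (VS n S → O) × (VS n S → O) => (p.1, pw B p.1 p.2) :=
    measurable_fst.prodMk (measurable_pw B)
  have e1 : ∫ q, H q ∂((Measure.pi fun a : VS n S => η (z a.1)).prod
      (Measure.pi fun a : VS n S => η (z (mv i a.1)))) =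
      ∫ q, H' q ∂(((Measure.pi fun a : VS n S => η (z a.1)).prod
      (Measure.pi fun a : VS n S => η (z (mv i a.1)))).map fun p => (p.1, pw B p.1 p.2)) := by
    rw [integral_map hpwp.aemeasurable hH'm.aestronglyMeasurable]
  rw [e1, ← h3, integral_map hpairO.aemeasurable hH'm.aestronglyMeasurable]
  refine integral_congr_ae (Eventually.of_forall fun W => ?_)
  simp only [H']
  rw [hGeq W]
  congr 1
  symm
  refine hGD _ _ fun a ha => ?_
  rw [ext_apply S o _ a ha]

end Pool.Agent.Work.MP_69fea5_lc.W3
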