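import Pool.Agent.Work.MP_69fea5_lc.W3.StmtsQ

set_option autoImplicit false

namespace Pool.Agent.Work.MP_69fea5_lc.W3

open MeasureTheory ProbabilityTheory Topology Set Filter TopologicalSpace
open scoped NNReal ENNReal
open Pool.Agent.Work.MP_69fea5_lc.AK

namespace I_QC3

theorem mv_ch {n : ℕ} (i : Fin n) (s : Finset (Fin n)) (j : Fin n) :
    mv i (ch s j) = ch (insert i s) j := by
  apply Subtype.ext
  apply Prod.ext
  · rfl
  · change (insert i (s.erase j)).erase j = (insert i s).erase j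
    ext a
    simp only [Finset.mem_erase, Finset.mem_insert]
    tauto

theorem ch_inj {n : ℕ} (s : Finset (Fin n)) : Function.Injective (ch s) := by
  intro a b h
  exact congrArg (fun v : Vx n => v.1.1) h

variable {X O : Type}

/-- the product of `F` over the chains in `S` -/
noncomputable def A {n : ℕ} (F : (Fin n → O) → ℝ) (S : Finset (Fin n)) (W : Vx n → O) : ℝ :=
  ∏ s ∈ S.powerset, F (fun j => W (ch s j))

noncomputable def B {n : ℕ} (φ : Fin n → O → ℝ) (S : Finset (Fin n)) (j : Fin n) (W : Vx n → O) :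
    ℝ :=
  ∏ s ∈ S.powerset, φ j (W (ch s j))

theorem A_meas [MeasurableSpace O] {n : ℕ} (F : (Fin n → O) → ℝ) (hF : Measurable F) (S : Finset (Fin n)) :
    Measurable (A F S) := by
  unfold A
  refine Finset.measurable_fun_prod _ fun s _ => ?_
  exact hF.comp (measurable_pi_lambda _ fun j => measurable_pi_apply _)

theorem B_meas [MeasurableSpace O] {n : ℕ} (φ : Fin n → O → ℝ) (hφ : ∀ j, Measurable (φ j)) (S : Finset (Fin n))
    (j : Fin n) : Measurable (B φ S j) := by
  unfold B
  refine Finset.measurable_fun_prod _ fun s _ => ?_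
  exact (hφ j).comp (measurable_pi_apply _)

theorem A_le {n : ℕ} (F : (Fin n → O) → ℝ) (hF : ∀ u, |F u| ≤ 1) (S : Finset (Fin n))
    (W : Vx n → O) : |A F S W| ≤ 1 := by
  unfold A
  rw [Finset.abs_prod]
  exact Finset.prod_le_one (fun _ _ => abs_nonneg _) fun _ _ => hF _

theorem B_le {n : ℕ} (φ : Fin n → O → ℝ) (hφ : ∀ j w, |φ j w| ≤ 1) (S : Finset (Fin n))
    (j : Fin n) (W : Vx n → O) : |B φ S j W| ≤ 1 := by
  unfold B
  rw [Finset.abs_prod]
  exact Finset.prod_le_one (fun _ _ => abs_nonneg _) fun _ _ => hφ _ _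

theorem A_dep {n : ℕ} (F : (Fin n → O) → ℝ) (S : Finset (Fin n)) (u u' : Vx n → O)
    (h : ∀ a ∈ {a : Vx n | a.1.2 ⊆ S}, u a = u' a) : A F S u = A F S u' := by
  unfold A
  refine Finset.prod_congr rfl fun s hs => ?_
  congr 1
  funext j
  refine h _ ?_
  exact (Finset.erase_subset j s).trans (Finset.mem_powerset.1 hs)

theorem B_dep {n : ℕ} (φ : Fin n → O → ℝ) (S : Finset (Fin n)) (j : Fin n) (u u' : Vx n → O)
    (h : ∀ a ∈ {a : Vx n | a.1.2 ⊆ S ∧ a.1.1 = j}, u a = u' a) : B φ S j u = B φ S j u' := by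
  unfold B
  refine Finset.prod_congr rfl fun s hs => ?_
  congr 1
  refine h _ ⟨?_, rfl⟩
  exact (Finset.erase_subset j s).trans (Finset.mem_powerset.1 hs)

theorem A_insert {n : ℕ} (F : (Fin n → O) → ℝ) (S : Finset (Fin n)) (i : Fin n) (hi : i ∉ S)
    (W : Vx n → O) : A F (insert i S) W = A F S W * A F S (fun a => W (mv i a)) := by
  unfold A
  rw [Finset.prod_powerset_insert hi]
  simp only [mv_ch]

theorem B_insert {n : ℕ} (φ : Fin n → O → ℝ) (S : Finset (Fin n)) (i : Fin n) (hi : i ∉ S)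
    (j : Fin n) (W : Vx n → O) :
    B φ (insert i S) j W = B φ S j W * B φ S j (fun a => W (mv i a)) := by
  unfold B
  rw [Finset.prod_powerset_insert hi]
  simp only [mv_ch]

/-- the law of the chain `∅` -/
theorem map_ch [MeasurableSpace X] {n : ℕ} (P : Measure (Fin n → X)) (Pc : Measure (Vx n → X))
    (hP : IsProbabilityMeasure Pc) (C : Set (Fin n → X)) (hC : ∀ᵐ y ∂P, y ∈ C)
    (Kc : (Fin n → X) → ProbabilityMeasure (Vx n → X))
    (hcar : ∀ y ∈ C, ∀ᵐ z ∂(Kc y : Measure (Vx n → X)), ∀ j, z (ch ∅ j) = y j)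
    (hdis : P.bind (fun y => (Kc y : Measure (Vx n → X))) = Pc) :
    Pc.map (fun z j => z (ch ∅ j)) = P := by
  have hae : AEMeasurable (fun y => (Kc y : Measure (Vx n → X))) P := by
    by_contra hcon
    have h0 : P.bind (fun y => (Kc y : Measure (Vx n → X))) = 0 := by
      rw [Measure.bind, Measure.map_of_not_aemeasurable hcon, Measure.join_zero]
    rw [hdis] at h0
    exact IsProbabilityMeasure.ne_zero Pc h0
  have hm : Measurable (fun (z : Vx n → X) j => z (ch ∅ j)) :=
    measurable_pi_lambda _ fun j => measurable_pi_apply _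
  ext D hD
  rw [Measure.map_apply hm hD, ← hdis, Measure.bind_apply (hm hD) hae, ← lintegral_indicator_one hD]
  refine lintegral_congr_ae ?_
  filter_upwards [hC] with y hy
  have h1 := hcar y hy
  by_cases hyD : y ∈ D
  · rw [indicator_of_mem hyD]
    have h2 : ∀ᵐ z ∂(Kc y : Measure (Vx n → X)), z ∈ (fun (z : Vx n → X) j => z (ch ∅ j)) ⁻¹' D := by
      filter_upwards [h1] with z hz
      have h3 : (fun j => z (ch ∅ j)) = y := funext hz
      rw [mem_preimage, h3]
      exact hyD
    exact (prob_compl_eq_zero_iff (hm hD)).1 h2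
  · rw [indicator_of_notMem hyD]
    refine measure_mono_null ?_ h1
    intro z hz hz2
    have h3 : (fun j => z (ch ∅ j)) = y := funext hz2
    rw [mem_preimage, h3] at hz
    exact hyD hz

end I_QC3

open I_QC3 in
theorem QC3_pf (hQFN : S_QFN) (hQC2 : S_QC2) : S_QC3 := by
  intro X O _ _ _ _ _ _ _ _ n lam η _ c P K Pc Kc hC hQ F φ hF hF1 hφ hφ1
  have claim : ∀ S : Finset (Fin n), |∫ u, F u * ∏ j, φ j (u j) ∂lif η P| ^ (2 ^ S.card) ≤
      |∫ W, A F S W * ∏ j ∈ Sᶜ, B φ S j W ∂lif η Pc| := by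
    intro S
    induction S using Finset.induction_on with
    | empty =>
      have h1 : lif η P = (lif η Pc).map (fun u i => u (ch ∅ i)) := by
        rw [(hQFN X O (Vx n) η).1 (Fin n) (ch ∅) (ch_inj ∅) Pc,
          map_ch P Pc hQ.prob (PG n X) hC.carP Kc hQ.car hQ.dis]
      have h2 : Measurable (fun (u : Vx n → O) i => u (ch ∅ i)) :=
        measurable_pi_lambda _ fun j => measurable_pi_apply _
      have h3 : Measurable fun u : Fin n → O => F u * ∏ j, φ j (u j) :=
        hF.mul (Finset.measurable_fun_prod _ fun j _ => (hφ j).comp (measurable_pi_apply _))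
      rw [h1, integral_map h2.aemeasurable h3.aestronglyMeasurable]
      simp [A, B]
    | insert i S hi ih =>
      have hG : Measurable fun W : Vx n → O => A F S W * ∏ j ∈ (insert i S)ᶜ, B φ S j W :=
        (A_meas F hF S).mul (Finset.measurable_fun_prod _ fun j _ => B_meas φ hφ S j)
      have hGb : ∀ W : Vx n → O, |A F S W * ∏ j ∈ (insert i S)ᶜ, B φ S j W| ≤ 1 := by
        intro W
        rw [abs_mul, Finset.abs_prod]
        exact mul_le_one₀ (A_le F hF1 S W) (Finset.prod_nonneg fun _ _ => abs_nonneg _)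
          (Finset.prod_le_one (fun _ _ => abs_nonneg _) fun j _ => B_le φ hφ1 S j W)
      have hdG : Dep {a : Vx n | a.1.2 ⊆ S}
          fun W : Vx n → O => A F S W * ∏ j ∈ (insert i S)ᶜ, B φ S j W := by
        intro u u' h
        change A F S u * _ = A F S u' * _
        rw [A_dep F S u u' h]
        congr 1
        refine Finset.prod_congr rfl fun j _ => B_dep φ S j u u' fun a ha => h a ha.1
      have hdφ : Dep {a : Vx n | a.1.2 ⊆ S ∧ a.1.1 = i} (B φ S i) := fun u u' h =>
        B_dep φ S i u u' h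
      have key := hQC2 X O n lam η c P K Pc Kc hQ S i hi _ (B φ S i) hG ⟨1, hGb⟩
        (B_meas φ hφ S i) (B_le φ hφ1 S i) hdG hdφ
      have hc : Sᶜ = insert i (insert i S)ᶜ := by
        ext a
        simp only [Finset.mem_compl, Finset.mem_insert]
        by_cases h : a = i
        · subst h; simp [hi]
        · simp [h]
      have hc2 : i ∉ (insert i S)ᶜ := by simp
      have e1 : (fun W : Vx n → O => A F S W * ∏ j ∈ Sᶜ, B φ S j W) =
          fun W => B φ S i W * (A F S W * ∏ j ∈ (insert i S)ᶜ, B φ S j W) := by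
        funext W
        rw [hc, Finset.prod_insert hc2]
        ring
      have e2 : (fun W : Vx n → O => A F (insert i S) W * ∏ j ∈ (insert i S)ᶜ, B φ (insert i S) j W) =
          fun W => (A F S W * ∏ j ∈ (insert i S)ᶜ, B φ S j W) *
            (A F S (fun a => W (mv i a)) * ∏ j ∈ (insert i S)ᶜ, B φ S j (fun a => W (mv i a))) := by
        funext W
        rw [A_insert F S i hi W, Finset.prod_congr rfl fun j _ => B_insert φ S i hi j W,
          Finset.prod_mul_distrib]
        ring
      rw [Finset.card_insert_of_notMem hi, pow_succ, pow_mul, e2]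
      calc (|∫ u, F u * ∏ j, φ j (u j) ∂lif η P| ^ (2 ^ S.card)) ^ 2
          ≤ |∫ W, A F S W * ∏ j ∈ Sᶜ, B φ S j W ∂lif η Pc| ^ 2 :=
            pow_le_pow_left₀ (by positivity) ih 2
        _ = (∫ W, B φ S i W * (A F S W * ∏ j ∈ (insert i S)ᶜ, B φ S j W) ∂lif η Pc) ^ 2 := by
            rw [sq_abs, e1]
        _ ≤ _ := key.trans (le_abs_self _)
  have h := claim Finset.univ
  simpa [A] using h

end Pool.Agent.Work.MP_69fea5_lc.W3
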