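import Pool.Agent.Work.MP_69fea5_lc.W3.StmtsQ

set_option autoImplicit false
set_option linter.unusedSectionVars false

namespace Pool.Agent.Work.MP_69fea5_lc.W3

open MeasureTheory ProbabilityTheory Topology Set Filter TopologicalSpace
open scoped NNReal ENNReal
open Pool.Agent.Work.MP_69fea5_lc.AK

namespace I_QD1

variable {X O : Type} [TopologicalSpace X] [MeasurableSpace X] [CS X] [Sys X]
  [TopologicalSpace O] [MeasurableSpace O] [CS O] [Sys O]

theorem ch_inj {n : ℕ} (s : Finset (Fin n)) : Function.Injective (ch s) := by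
  intro i j h
  exact congrArg (fun a : Vx n => a.1.1) h

/-- the law of a coordinate of `P` -/
theorem map_P {n : ℕ} {lam : Measure X} {c : ℝ≥0} {P : Measure (Fin n → X)}
    {K : Fin n → X → ProbabilityMeasure (Fin n → X)} (h : CLaw n lam c P K) (j : Fin n) :
    P.map (fun z => z j) = lam := by
  have hm : Measurable fun x => (K j x : Measure (Fin n → X)) :=
    measurable_subtype_coe.comp (h.cont j).measurable
  have hj : Measurable fun z : Fin n → X => z j := measurable_pi_apply j
  ext B hB
  rw [Measure.map_apply hj hB, ← h.dis j, Measure.bind_apply (hj hB) hm.aemeasurable]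
  have h1 : ∀ x, (K j x : Measure (Fin n → X)) ((fun z : Fin n → X => z j) ⁻¹' B) =
      B.indicator 1 x := by
    intro x
    by_cases hx : x ∈ B
    · rw [indicator_of_mem hx]
      have h2 : (K j x : Measure (Fin n → X)) ((fun z : Fin n → X => z j) ⁻¹' B)ᶜ = 0 := by
        have h3 : ∀ᵐ z ∂(K j x : Measure (Fin n → X)), z ∈ (fun z : Fin n → X => z j) ⁻¹' B := by
          filter_upwards [h.car j x] with z hz
          change z j ∈ B
          rw [hz.1]
          exact hx
        exact ae_iff.1 h3
      exact (prob_compl_eq_zero_iff (hj hB)).1 h2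
    · rw [indicator_of_notMem hx]
      have h3 : ∀ᵐ z ∂(K j x : Measure (Fin n → X)), ¬ z ∈ (fun z : Fin n → X => z j) ⁻¹' B := by
        filter_upwards [h.car j x] with z hz
        change ¬ z j ∈ B
        rw [hz.1]
        exact hx
      have h4 := ae_iff.1 h3
      simp only [not_not] at h4
      exact h4
  simp_rw [h1]
  exact lintegral_indicator_one hB

/-- the image of a multiple -/
theorem map_le_smul {Y Z : Type} [MeasurableSpace Y] [MeasurableSpace Z] {μ ν : Measure Y}
    {c : ℝ≥0} (h : μ ≤ c • ν) {f : Y → Z} (hf : Measurable f) : μ.map f ≤ c • ν.map f := by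
  refine Measure.le_iff.2 fun B hB => ?_
  rw [Measure.map_apply hf hB, Measure.smul_apply, Measure.map_apply hf hB]
  exact h _

/-- almost everywhere for a smaller measure -/
theorem ae_of_le_smul {Y : Type} [MeasurableSpace Y] {μ ν : Measure Y} {c : ℝ≥0}
    (h : μ ≤ c • ν) {p : Y → Prop} (hp : ∀ᵐ y ∂ν, p y) : ∀ᵐ y ∂μ, p y := by
  rw [ae_iff] at hp ⊢
  refine le_antisymm ((h _).trans ?_) zero_le
  rw [Measure.smul_apply, hp, smul_zero]

theorem measurable_ovw {n : ℕ} (u : Fin n → O) (s : Finset (Fin n)) :
    Measurable fun (W : Vx n → O) (i : Fin n) => ovw u W (ch s i) := by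
  refine measurable_pi_lambda _ fun i => ?_
  unfold ovw
  split_ifs
  · exact measurable_const
  · exact measurable_pi_apply _

theorem ovw_empty {n : ℕ} (u : Fin n → O) (W : Vx n → O) (i : Fin n) :
    ovw u W (ch ∅ i) = u i := by
  unfold ovw
  rw [if_pos]
  · rfl
  · change (∅ : Finset (Fin n)).erase i = ∅
    simp

theorem ovw_one {n : ℕ} (u : Fin n → O) (W : Vx n → O) (j : Fin n) :
    (fun i => ovw u W (ch {j} i)) = Function.update (fun i => W (ch {j} i)) j (u j) := by
  funext i
  by_cases hij : i = j
  · subst hij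
    rw [Function.update_self]
    unfold ovw
    rw [if_pos]
    · rfl
    · change ({i} : Finset (Fin n)).erase i = ∅
      simp
  · rw [Function.update_of_ne hij]
    unfold ovw
    rw [if_neg]
    change ¬ ({j} : Finset (Fin n)).erase i = ∅
    rw [Finset.erase_eq_of_notMem (by simpa using hij)]
    simp

theorem ovw_two {n : ℕ} (u : Fin n → O) (W : Vx n → O) (s : Finset (Fin n)) (hs : 2 ≤ s.card) :
    (fun i => ovw u W (ch s i)) = fun i => W (ch s i) := by
  funext i
  unfold ovw
  rw [if_neg]
  change ¬ s.erase i = ∅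
  intro h
  have h1 : s.card - 1 ≤ (s.erase i).card := Finset.pred_card_le_card_erase
  rw [h, Finset.card_empty] at h1
  omega

end I_QD1

theorem QD1_pf (hQFN : S_QFN) (hQK1 : S_QK1) : S_QD1 := by
  intro X O _ _ _ _ _ _ _ _ n π lam η c P K Pc Kc hL hC hQ
  have := hL.mrk
  obtain ⟨hn1, hn2⟩ := hQFN X O (Vx n) η
  obtain ⟨-, hk2, -, -, -, ⟨-, hk6⟩, -⟩ := hQK1 X O n π lam η c P K hL hC
  have h2 : ∀ u ∈ CC n π, ∀ j : Fin n, (lif η (Kc (fun i => π (u i)) : Measure (Vx n → X))).map
      (fun W i => ovw u W (ch {j} i)) = kap π η K j (u j) := by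
    intro u hu j
    have h1 := hn1 (Fin n) (ch {j}) (I_QD1.ch_inj {j}) (Kc (fun i => π (u i)))
    rw [hQ.one _ hu j] at h1
    unfold kap
    rw [← h1, Measure.map_map]
    · congr 1
      funext W
      exact I_QD1.ovw_one u W j
    · exact measurable_update_left
    · exact measurable_pi_lambda _ fun i => measurable_pi_apply _
  have h3 : ∀ u ∈ CC n π, ∀ s : Finset (Fin n), 2 ≤ s.card →
      (lif η (Kc (fun i => π (u i)) : Measure (Vx n → X))).map
        (fun W i => ovw u W (ch s i)) ≤ c • lif η P := by
    intro u hu s hs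
    have h1 := hn1 (Fin n) (ch s) (I_QD1.ch_inj s) (Kc (fun i => π (u i)))
    have h4 : (fun (W : Vx n → O) (i : Fin n) => ovw u W (ch s i)) = fun W i => W (ch s i) := by
      funext W
      exact I_QD1.ovw_two u W s hs
    rw [h4, h1]
    exact (hQFN X O (Fin n) η).2 _ _ c (hQ.two _ hu s hs)
  refine ⟨?_, h2, h3, ?_⟩
  · intro y hy a ha
    obtain ⟨⟨j, s⟩, hjs⟩ := a
    change s ≠ ∅ at ha
    change j ∉ s at hjs
    have hm : ∀ s : Finset (Fin n), Measurable fun (z : Vx n → X) (i : Fin n) => z (ch s i) :=
      fun s => measurable_pi_lambda _ fun i => measurable_pi_apply _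
    have hch : ch s j = (⟨(j, s), hjs⟩ : Vx n) := by
      apply Subtype.ext
      change (j, s.erase j) = (j, s)
      rw [Finset.erase_eq_of_notMem hjs]
    have hcomp : (Kc y : Measure (Vx n → X)).map (fun z => z ⟨(j, s), hjs⟩) =
        ((Kc y : Measure (Vx n → X)).map (fun z i => z (ch s i))).map (fun v => v j) := by
      rw [Measure.map_map (measurable_pi_apply j) (hm s), ← hch]
      rfl
    rw [hcomp]
    rcases Nat.lt_or_ge s.card 2 with h | h
    · have h1 : s.card = 1 := by
        have := Finset.card_pos.2 (Finset.nonempty_iff_ne_empty.2 ha)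
        omega
      obtain ⟨i, rfl⟩ := Finset.card_eq_one.1 h1
      rw [hQ.one y hy i]
      exact hC.dom i j (by simpa using hjs) (y i)
    · have h1 := I_QD1.map_le_smul (hQ.two y hy s h) (measurable_pi_apply j)
      rw [I_QD1.map_P hC j] at h1
      exact h1
  · intro u hu
    rw [ae_all_iff]
    intro s
    rcases Nat.lt_or_ge s.card 2 with h | h
    · rcases Nat.lt_or_ge s.card 1 with h' | h'
      · have h0 : s = ∅ := Finset.card_eq_zero.1 (by omega)
        subst h0
        refine Eventually.of_forall fun W => ?_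
        have : (fun i => ovw u W (ch ∅ i)) = u := funext fun i => I_QD1.ovw_empty u W i
        rw [this]
        exact hu
      · obtain ⟨j, rfl⟩ := Finset.card_eq_one.1 (by omega : s.card = 1)
        have h1 : ∀ᵐ v ∂((lif η (Kc (fun i => π (u i)) : Measure (Vx n → X))).map
            (fun W i => ovw u W (ch {j} i))), v ∈ CC n π := by
          rw [h2 u hu j]
          filter_upwards [hk2 j (u j)] with v hv using hv.2
        exact ae_of_ae_map (I_QD1.measurable_ovw u {j}).aemeasurable h1
    · have h1 : ∀ᵐ v ∂((lif η (Kc (fun i => π (u i)) : Measure (Vx n → X))).map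
          (fun W i => ovw u W (ch s i))), v ∈ CC n π :=
        I_QD1.ae_of_le_smul (h3 u hu s h) hk6
      exact ae_of_ae_map (I_QD1.measurable_ovw u s).aemeasurable h1

end Pool.Agent.Work.MP_69fea5_lc.W3
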