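import Pool.Agent.Work.MP_69fea5_lc.W3.StmtsQ

set_option autoImplicit false

namespace Pool.Agent.Work.MP_69fea5_lc.W3

open MeasureTheory ProbabilityTheory Topology Set Filter TopologicalSpace
open scoped NNReal ENNReal
open Pool.Agent.Work.MP_69fea5_lc.AK

namespace I_QD2

variable {O : Type} {n : ℕ}

theorem ovw_cont [TopologicalSpace O] (a : Vx n) :
    Continuous fun p : (Fin n → O) × (Vx n → O) => ovw p.1 p.2 a := by
  unfold ovw
  by_cases h : a.1.2 = ∅
  · simp only [h, if_true]
    fun_prop
  · simp only [h, if_false]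
    fun_prop

theorem prC_cont [TopologicalSpace O] (F : (Fin n → O) → ℝ) (hF : Continuous F) :
    Continuous fun p : (Fin n → O) × (Vx n → O) => prC F (ovw p.1 p.2) := by
  unfold prC
  refine continuous_finsetProd _ fun s _ => ?_
  exact hF.comp (continuous_pi fun j => ovw_cont (ch s j))

theorem prC_le (F : (Fin n → O) → ℝ) (hF : ∀ u, |F u| ≤ 1) (W : Vx n → O) : |prC F W| ≤ 1 := by
  unfold prC
  rw [Finset.abs_prod]
  exact Finset.prod_le_one (fun _ _ => abs_nonneg _) fun s _ => hF _

end I_QD2

open I_QD2 in
theorem QD2_pf (hQFM : S_QFM) (hQSC : S_QSC) (hQD1 : S_QD1) : S_QD2 := by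
  intro X O _ _ _ _ _ _ _ _ n π lam η c P K Pc Kc hL hC hQ F hF
  have hmrk := hL.mrk
  have hprob := hL.prob
  constructor
  · have hpi : Continuous fun (u : Fin n → O) (i : Fin n) => π (u i) :=
      continuous_pi fun i => hL.cont.comp (continuous_apply i)
    have hmap : MapsTo (fun (u : Fin n → O) (i : Fin n) => π (u i)) (CC n π) (PG n X) :=
      fun u hu => hu
    have h := hQSC X O (Vx n) (Fin n → O) η lam c
      (Finset.univ.filter fun a : Vx n => a.1.2 ≠ ∅) (CC n π)
      (fun u => Kc (fun i => π (u i))) (fun u W => prC F (ovw u W))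
      (hQ.cont.comp hpi.continuousOn hmap) ?_ (prC_cont F hF).continuousOn ?_
    · exact h
    · intro u hu a ha
      exact (hQD1 X O n π lam η c P K Pc Kc hL hC hQ).1 _ (hmap hu) a (Finset.mem_filter.1 ha).2
    · intro u _ W W' hW
      have h1 : ovw u W = ovw u W' := by
        funext a
        unfold ovw
        by_cases h : a.1.2 = ∅
        · simp [h]
        · simp only [h, if_false]
          refine hW a ?_
          simpa using h
      change prC F (ovw u W) = prC F (ovw u W')
      rw [h1]
  · intro hF1 u
    have hp : IsProbabilityMeasure (lif η (Kc (fun i => π (u i)) : Measure (Vx n → X))) :=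
      (hQFM X O (Vx n) η).2.1 _ inferInstance
    unfold dua
    rw [← Real.norm_eq_abs]
    refine (norm_integral_le_of_norm_le_const (C := 1)
      (Eventually.of_forall fun W => ?_)).trans ?_
    · rw [Real.norm_eq_abs]
      exact prC_le F hF1 _
    · simp

end Pool.Agent.Work.MP_69fea5_lc.W3
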