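import Pool.Agent.Work.MP_69fea5_lc.W3.StmtsQ

set_option autoImplicit false

namespace Pool.Agent.Work.MP_69fea5_lc.W3

open MeasureTheory ProbabilityTheory Topology Set Filter TopologicalSpace
open scoped NNReal ENNReal
open Pool.Agent.Work.MP_69fea5_lc.AK

namespace I_QD3

theorem prod_abs_le {ι : Type} (S : Finset ι) (a : ι → ℝ) (ha : ∀ i, |a i| ≤ 1) :
    |∏ i ∈ S, a i| ≤ 1 := by
  rw [Finset.abs_prod]
  exact Finset.prod_le_one (fun i _ => abs_nonneg _) (fun i _ => ha i)

theorem prod_diff {ι : Type} (S : Finset ι) (a b : ι → ℝ) (ha : ∀ i, |a i| ≤ 1)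
    (hb : ∀ i, |b i| ≤ 1) : |∏ i ∈ S, a i - ∏ i ∈ S, b i| ≤ ∑ i ∈ S, |a i - b i| := by
  classical
  induction S using Finset.induction_on with
  | empty => simp
  | @insert x S hx ih =>
    rw [Finset.prod_insert hx, Finset.prod_insert hx, Finset.sum_insert hx]
    have e : a x * ∏ i ∈ S, a i - b x * ∏ i ∈ S, b i =
        a x * (∏ i ∈ S, a i - ∏ i ∈ S, b i) + (a x - b x) * ∏ i ∈ S, b i := by ring
    rw [e]
    calc |a x * (∏ i ∈ S, a i - ∏ i ∈ S, b i) + (a x - b x) * ∏ i ∈ S, b i|
        ≤ |a x * (∏ i ∈ S, a i - ∏ i ∈ S, b i)| + |(a x - b x) * ∏ i ∈ S, b i| := abs_add_le _ _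
      _ = |a x| * |∏ i ∈ S, a i - ∏ i ∈ S, b i| + |a x - b x| * |∏ i ∈ S, b i| := by
        rw [abs_mul, abs_mul]
      _ ≤ 1 * |∏ i ∈ S, a i - ∏ i ∈ S, b i| + |a x - b x| * 1 := by
        apply add_le_add
        · exact mul_le_mul_of_nonneg_right (ha x) (abs_nonneg _)
        · exact mul_le_mul_of_nonneg_left (prod_abs_le S b hb) (abs_nonneg _)
      _ ≤ |a x - b x| + ∑ i ∈ S, |a i - b i| := by linarith

section

variable {O : Type} [TopologicalSpace O] [MeasurableSpace O] [CS O] [Sys O] {n : ℕ}

theorem meas_ovw (u : Fin n → O) : Measurable fun W : Vx n → O => ovw u W := by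
  rw [measurable_pi_iff]
  intro a
  unfold ovw
  by_cases h : a.1.2 = ∅
  · simp only [h, if_true]
    exact measurable_const
  · simp only [h, if_false]
    exact measurable_pi_apply a

theorem meas_ch (u : Fin n → O) (s : Finset (Fin n)) :
    Measurable fun W : Vx n → O => (fun i => ovw u W (ch s i)) := by
  rw [measurable_pi_iff]
  intro i
  exact (measurable_pi_iff.1 (meas_ovw u)) (ch s i)

theorem meas_prC (u : Fin n → O) {F : (Fin n → O) → ℝ} (hF : Measurable F) :
    Measurable fun W : Vx n → O => prC F (ovw u W) := by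
  unfold prC
  apply Finset.measurable_fun_prod
  intro s _
  exact hF.comp (meas_ch u s)

theorem bd_prC (u : Fin n → O) {F : (Fin n → O) → ℝ} (hF : Bd F) :
    Bd fun W : Vx n → O => prC F (ovw u W) := by
  obtain ⟨b, hb⟩ := hF
  refine ⟨∏ s ∈ (Finset.univ : Finset (Finset (Fin n))).erase ∅, |b|, fun W => ?_⟩
  unfold prC
  rw [Finset.abs_prod]
  exact Finset.prod_le_prod (fun i _ => abs_nonneg _) fun i _ => (hb _).trans (le_abs_self b)

theorem sum_bound (e c : ℝ) (he : 0 ≤ e) (hc : 0 ≤ c) :
    ∑ s ∈ (Finset.univ : Finset (Finset (Fin n))).erase ∅, (if s.card = 1 then e else c * e) ≤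
      (n + 2 ^ n * c) * e := by
  calc ∑ s ∈ (Finset.univ : Finset (Finset (Fin n))).erase ∅, (if s.card = 1 then e else c * e)
      ≤ ∑ s ∈ (Finset.univ : Finset (Finset (Fin n))), (if s.card = 1 then e else c * e) := by
        apply Finset.sum_le_sum_of_subset_of_nonneg (Finset.erase_subset _ _)
        intro s _ _
        split_ifs
        · exact he
        · positivity
    _ ≤ ∑ s ∈ (Finset.univ : Finset (Finset (Fin n))), ((if s.card = 1 then e else 0) + c * e) := by
        apply Finset.sum_le_sum
        intro s _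
        have : 0 ≤ c * e := mul_nonneg hc he
        split_ifs <;> linarith
    _ = (n + 2 ^ n * c) * e := by
        rw [Finset.sum_add_distrib, Finset.sum_ite, Finset.sum_const, Finset.sum_const_zero,
          Finset.sum_const]
        have h1 : ((Finset.univ : Finset (Finset (Fin n))).filter fun s => s.card = 1).card = n := by
          have := Finset.card_powersetCard 1 (Finset.univ : Finset (Fin n))
          rw [Finset.card_univ, Fintype.card_fin, Nat.choose_one_right] at this
          have e1 : ((Finset.univ : Finset (Finset (Fin n))).filter fun s => s.card = 1) =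
              Finset.powersetCard 1 (Finset.univ : Finset (Fin n)) := by
            ext s
            simp [Finset.mem_powersetCard]
          rw [e1, this]
        rw [h1, Finset.card_univ, Fintype.card_finset, Fintype.card_fin]
        simp only [nsmul_eq_mul, add_zero]
        push_cast
        ring

end

end I_QD3

open I_QD3 in
theorem QD3_pf (hQFM : S_QFM) (hQFD : S_QFD) (hQK1 : S_QK1) (hQD1 : S_QD1) : S_QD3 := by
  intro X O _ _ _ _ _ _ _ _ n π lam η c P K Pc Kc hn hLft hCL hQL
  haveI := hLft.mrk
  obtain ⟨hD1, hD2, hD3, -⟩ := hQD1 X O n π lam η c P K Pc Kc hLft hCL hQL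
  obtain ⟨hk1, -, -, -, hk5, ⟨hk6, -⟩, ⟨hk7, -⟩, -⟩ := hQK1 X O n π lam η c P K hLft hCL
  constructor
  · intro F F' e hF hF' hb hb' hS u hu
    set Λ : Measure (Vx n → O) := lif η (Kc (fun i => π (u i)) : Measure (Vx n → X)) with hΛ
    haveI hΛp : IsProbabilityMeasure Λ :=
      (hQFM X O (Vx n) η).2.1 (Kc (fun i => π (u i)) : Measure (Vx n → X)) inferInstance
    have j0 : Fin n := ⟨0, hn⟩
    have he : 0 ≤ e := le_trans (integral_nonneg fun u => abs_nonneg _) (hS j0 (u j0))
    have hint : ∀ {ν : Measure (Vx n → O)} [IsProbabilityMeasure ν] {G : (Vx n → O) → ℝ},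
        Measurable G → (∃ b : ℝ, ∀ W, |G W| ≤ b) → Integrable G ν := by
      intro ν _ G hG hGb
      obtain ⟨b, hb⟩ := hGb
      exact Integrable.of_bound hG.aestronglyMeasurable b (Eventually.of_forall hb)
    have hbF : Bd F := ⟨1, hb⟩
    have hbF' : Bd F' := ⟨1, hb'⟩
    have hmd : ∀ s : Finset (Fin n), Measurable fun W : Vx n → O =>
        |F (fun i => ovw u W (ch s i)) - F' (fun i => ovw u W (ch s i))| := by
      intro s
      have h1 := hF.comp (meas_ch u s)
      have h2 := hF'.comp (meas_ch u s)
      have h3 : Measurable fun W : Vx n → O =>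
        F (fun i => ovw u W (ch s i)) - F' (fun i => ovw u W (ch s i)) := h1.sub h2
      exact continuous_abs.measurable.comp h3
    have hdb : ∀ x, |F x - F' x| ≤ 2 := by
      intro x
      have h1 := hb x
      have h2 := hb' x
      rw [abs_le] at h1 h2 ⊢
      constructor <;> linarith [h1.1, h1.2, h2.1, h2.2]
    have hid : ∀ s : Finset (Fin n), Integrable (fun W : Vx n → O =>
        |F (fun i => ovw u W (ch s i)) - F' (fun i => ovw u W (ch s i))|) Λ := by
      intro s
      refine hint (hmd s) ⟨2, fun W => ?_⟩
      rw [abs_abs]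
      exact hdb _
    have h0 : dua π η Kc F u - dua π η Kc F' u =
        ∫ W, (prC F (ovw u W) - prC F' (ovw u W)) ∂Λ := by
      unfold dua
      rw [integral_sub (hint (meas_prC u hF) (bd_prC u hbF))
        (hint (meas_prC u hF') (bd_prC u hbF'))]
    rw [h0]
    have hΛP : ∫ x, |F x - F' x| ∂lif η P ≤ e := by
      have hm : Measurable fun x => |F x - F' x| := continuous_abs.measurable.comp (hF.sub hF')
      have hbd : Bd fun x => |F x - F' x| := ⟨2, fun x => by rw [abs_abs]; exact hdb x⟩
      rw [← (hk5 j0 _ hm hbd).2]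
      haveI := hk7
      calc ∫ w, ∫ u, |F u - F' u| ∂kap π η K j0 w ∂(lam.bind η)
          ≤ ∫ w, e ∂(lam.bind η) := by
            apply integral_mono_of_nonneg
            · exact Eventually.of_forall fun w => integral_nonneg fun u => abs_nonneg _
            · exact integrable_const e
            · exact Eventually.of_forall fun w => hS j0 w
        _ = e := by simp
    have hterm : ∀ s ∈ (Finset.univ : Finset (Finset (Fin n))).erase ∅,
        ∫ W, |F (fun i => ovw u W (ch s i)) - F' (fun i => ovw u W (ch s i))| ∂Λ ≤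
          if s.card = 1 then e else c * e := by
      intro s hs
      have hm : Measurable fun x : Fin n → O => |F x - F' x| :=
        continuous_abs.measurable.comp (hF.sub hF')
      have hmap : ∫ W, |F (fun i => ovw u W (ch s i)) - F' (fun i => ovw u W (ch s i))| ∂Λ =
          ∫ x, |F x - F' x| ∂(Λ.map fun W i => ovw u W (ch s i)) := by
        rw [integral_map (meas_ch u s).aemeasurable hm.aestronglyMeasurable]
      rw [hmap]
      split_ifs with h1
      · obtain ⟨j, rfl⟩ := Finset.card_eq_one.1 h1
        rw [hD2 u hu j]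
        exact hS j (u j)
      · have hne : s ≠ ∅ := (Finset.mem_erase.1 hs).1
        have hc2 : 2 ≤ s.card := by
          have : s.card ≠ 0 := fun h => hne (Finset.card_eq_zero.1 h)
          omega
        have hle := hD3 u hu s hc2
        haveI := hk6
        haveI : IsFiniteMeasure ((c : ℝ≥0) • lif η P) := inferInstance
        calc ∫ x, |F x - F' x| ∂(Λ.map fun W i => ovw u W (ch s i))
            ≤ ∫ x, |F x - F' x| ∂(c • lif η P) := by
              apply integral_mono_measure hle
              · exact Eventually.of_forall fun x => abs_nonneg _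
              · exact Integrable.of_bound hm.aestronglyMeasurable 2
                  (Eventually.of_forall fun x => by
                    rw [Real.norm_eq_abs, abs_abs]; exact hdb x)
          _ = c * ∫ x, |F x - F' x| ∂lif η P := by
              rw [integral_smul_nnreal_measure, NNReal.smul_def, smul_eq_mul]
          _ ≤ c * e := mul_le_mul_of_nonneg_left hΛP c.2
    calc |∫ W, (prC F (ovw u W) - prC F' (ovw u W)) ∂Λ|
        ≤ ∫ W, |prC F (ovw u W) - prC F' (ovw u W)| ∂Λ := abs_integral_le_integral_abs
      _ ≤ ∫ W, ∑ s ∈ (Finset.univ : Finset (Finset (Fin n))).erase ∅,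
            |F (fun i => ovw u W (ch s i)) - F' (fun i => ovw u W (ch s i))| ∂Λ := by
          apply integral_mono_of_nonneg
          · exact Eventually.of_forall fun W => abs_nonneg _
          · exact integrable_finset_sum _ fun s _ => hid s
          · refine Eventually.of_forall fun W => ?_
            exact prod_diff _ (fun s => F (fun i => ovw u W (ch s i)))
              (fun s => F' (fun i => ovw u W (ch s i))) (fun s => hb _) (fun s => hb' _)
      _ = ∑ s ∈ (Finset.univ : Finset (Finset (Fin n))).erase ∅,
            ∫ W, |F (fun i => ovw u W (ch s i)) - F' (fun i => ovw u W (ch s i))| ∂Λ := by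
          rw [integral_finset_sum _ fun s _ => hid s]
      _ ≤ ∑ s ∈ (Finset.univ : Finset (Finset (Fin n))).erase ∅,
            (if s.card = 1 then e else c * e) := Finset.sum_le_sum hterm
      _ ≤ (n + 2 ^ n * c) * e := sum_bound e c he c.2
  · intro F hF hFb u hu
    have hy : (fun i => π (u i)) ∈ PG n X := hu
    have hpi : (fun i => π (sh 1 (u i))) = fun i => sh 1 (π (u i)) := by
      funext i
      rw [hLft.equi]
    have heq := hQL.equi (fun i => π (u i)) hy 1
    have hG : Measurable fun W : Vx n → O => prC F (ovw (fun i => sh 1 (u i)) W) :=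
      meas_prC _ hF
    have hGb : Bd fun W : Vx n → O => prC F (ovw (fun i => sh 1 (u i)) W) := bd_prC _ hFb
    let D : Finset (Vx n) := Finset.univ.filter fun a => a.1.2 ≠ ∅
    have hdep : Dep (D : Set (Vx n)) fun W : Vx n → O => prC F (ovw (fun i => sh 1 (u i)) W) := by
      intro W W' h
      have : ovw (fun i => sh 1 (u i)) W = ovw (fun i => sh 1 (u i)) W' := by
        funext a
        unfold ovw
        split_ifs with ha
        · rfl
        · exact h a (by simp [D, ha])
      change prC F _ = prC F _
      rw [this]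
    have hQ := (hQFD X O (Vx n) π lam η hLft c D
      (Kc (fun i => π (u i)) : Measure (Vx n → X)) inferInstance
      (fun a ha => hD1 _ hy a (by simpa [D] using ha))).2 _ hG hGb hdep 1
    unfold dua
    rw [hpi, heq, hQ]
    congr 1
    funext W
    unfold prC
    apply Finset.prod_congr rfl
    intro s _
    change F (fun j => ovw (fun i => sh 1 (u i)) (fun i => sh 1 (W i)) (ch s j)) =
      F fun j => sh 1 (ovw u W (ch s j))
    congr 1
    funext j
    unfold ovw
    by_cases hj : (ch s j).1.2 = ∅
    · simp only [hj, if_true]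
    · simp only [hj, if_false]

end Pool.Agent.Work.MP_69fea5_lc.W3
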