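import Pool.Agent.Work.MP_69fea5_lc.W3.StmtsQ

/-!
# Block [69fea5 W3 Q], item QDI: regularity by Dini's theorem
-/

set_option autoImplicit false

namespace Pool.Agent.Work.MP_69fea5_lc.W3

open MeasureTheory ProbabilityTheory Topology Set Filter TopologicalSpace
open scoped NNReal ENNReal
open Pool.Agent.Work.MP_69fea5_lc.AK

namespace I_QDI

/-- continuous functions decreasing to the indicator of a closed set -/
theorem approx {F : Type} [TopologicalSpace F] [MetrizableSpace F] (R : Set F) (hR : IsClosed R) :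
    ∃ G : ℕ → F → ℝ, (∀ k, Continuous (G k)) ∧ (∀ k u, 0 ≤ G k u ∧ G k u ≤ 1) ∧
      (∀ u, Antitone fun k => G k u) ∧
      (∀ u, Tendsto (fun k => G k u) atTop (𝓝 (R.indicator (1 : F → ℝ) u))) ∧
      ∀ k u, R.indicator (1 : F → ℝ) u ≤ G k u := by
  letI : MetricSpace F := metrizableSpaceMetric F
  have hpos : ∀ k : ℕ, (0 : ℝ) < 1 / ((k : ℝ) + 1) := fun k => by positivity
  have hind : ∀ u, (((R.indicator (fun _ => (1 : ℝ≥0)) u : ℝ≥0)) : ℝ) =
      R.indicator (1 : F → ℝ) u := by
    intro u
    by_cases hu : u ∈ R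
    · simp [hu]
    · simp [hu]
  refine ⟨fun k u => ((thickenedIndicator (hpos k) R u : ℝ≥0) : ℝ), ?_, ?_, ?_, ?_, ?_⟩
  · exact fun k => NNReal.continuous_coe.comp (thickenedIndicator (hpos k) R).continuous
  · intro k u
    refine ⟨NNReal.coe_nonneg _, ?_⟩
    exact_mod_cast thickenedIndicator_le_one (hpos k) R u
  · intro u k l hkl
    have h1 : (1 : ℝ) / ((l : ℝ) + 1) ≤ 1 / ((k : ℝ) + 1) := by
      have : (k : ℝ) ≤ l := by exact_mod_cast hkl
      gcongr
    exact_mod_cast thickenedIndicator_mono (hpos l) (hpos k) h1 R u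
  · intro u
    have h2 := thickenedIndicator_tendsto_indicator_closure hpos
      tendsto_one_div_add_atTop_nhds_zero_nat R
    rw [hR.closure_eq, tendsto_pi_nhds] at h2
    rw [← hind]
    exact (NNReal.continuous_coe.tendsto _).comp (h2 u)
  · intro k u
    rw [← hind]
    exact_mod_cast indicator_le_thickenedIndicator (hpos k) R u

end I_QDI

open I_QDI in
/-- [QDI] -/
theorem QDI_pf (hQK1 : S_QK1) (hQK2 : S_QK2) : S_QDI := by
  intro X O _ _ _ _ _ _ _ _ n π lam η c P K hmin hL hC R hR hRi
  obtain ⟨hpr, -, -, hequi, -, -, -, -⟩ := hQK1 X O n π lam η c P K hL hC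
  have hcont := hQK2 X O n π lam η c P K hL hC
  obtain ⟨G, hGc, hG01, hGa, hGt, hGR⟩ := approx R hR
  refine ⟨G, hGc, hG01, ?_⟩
  have hRm : MeasurableSet R := hR.measurableSet
  have hRmeas : Measurable (R.indicator (1 : (Fin n → O) → ℝ)) :=
    measurable_one.indicator hRm
  have hint : ∀ (j : Fin n) (w : O) (k : ℕ), Integrable (G k) (kap π η K j w) := by
    intro j w k
    have := hpr j w
    refine Integrable.of_bound (hGc k).aestronglyMeasurable 1 (Eventually.of_forall fun u => ?_)
    rw [Real.norm_eq_abs, abs_of_nonneg (hG01 k u).1]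
    exact (hG01 k u).2
  have hintR : ∀ (j : Fin n) (w : O), Integrable (R.indicator (1 : (Fin n → O) → ℝ))
      (kap π η K j w) := by
    intro j w
    have := hpr j w
    refine Integrable.of_bound hRmeas.aestronglyMeasurable 1 (Eventually.of_forall fun u => ?_)
    by_cases hu : u ∈ R
    · simp [hu]
    · simp [hu]
  -- the limits
  have hlim : ∀ (j : Fin n) (w : O), Tendsto (fun k => ∫ u, G k u ∂kap π η K j w) atTop
      (𝓝 (∫ u, R.indicator (1 : (Fin n → O) → ℝ) u ∂kap π η K j w)) := by
    intro j w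
    have := hpr j w
    refine tendsto_integral_of_dominated_convergence (fun _ => (1 : ℝ)) ?_ (integrable_const _) ?_ ?_
    · exact fun k => (hGc k).aestronglyMeasurable
    · intro k
      refine Eventually.of_forall fun u => ?_
      rw [Real.norm_eq_abs, abs_of_nonneg (hG01 k u).1]
      exact (hG01 k u).2
    · exact Eventually.of_forall fun u => hGt u
  have hanti : ∀ (j : Fin n), Antitone fun (k : ℕ) (w : O) => ∫ u, G k u ∂kap π η K j w := by
    intro j k l hkl w
    exact integral_mono (hint j w l) (hint j w k) fun u => hGa u hkl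
  -- the limit is invariant
  have hinv : ∀ (j : Fin n) (w : O) (m : ℤ),
      ∫ u, R.indicator (1 : (Fin n → O) → ℝ) u ∂kap π η K j (sh m w) =
        ∫ u, R.indicator (1 : (Fin n → O) → ℝ) u ∂kap π η K j w := by
    intro j w m
    have hsc : Continuous fun (u : Fin n → O) i => sh m (u i) :=
      continuous_pi fun i => (sh_cont m).comp (continuous_apply i)
    rw [hequi j w m, integral_map hsc.measurable.aemeasurable hRmeas.aestronglyMeasurable]
    refine integral_congr_ae (Eventually.of_forall fun u => ?_)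
    have hiff : (fun i => sh m (u i)) ∈ R ↔ u ∈ R := by
      constructor
      · intro h
        have h1 := hRi (-m) _ h
        have h2 : (fun i => sh (-m) (sh m (u i))) = u := by
          funext i
          rw [← sh_add, neg_add_cancel, sh_zero]
        rwa [h2] at h1
      · exact hRi m u
    show R.indicator (1 : (Fin n → O) → ℝ) (fun i => sh m (u i)) =
      R.indicator (1 : (Fin n → O) → ℝ) u
    by_cases hu : u ∈ R
    · rw [indicator_of_mem hu, indicator_of_mem (hiff.2 hu)]
      rfl
    · rw [indicator_of_notMem hu, indicator_of_notMem fun h => hu (hiff.1 h)]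
  -- the limit is constant
  have hle : ∀ (j : Fin n) (w₀ w : O), ∫ u, R.indicator (1 : (Fin n → O) → ℝ) u ∂kap π η K j w₀ ≤
      ∫ u, R.indicator (1 : (Fin n → O) → ℝ) u ∂kap π η K j w := by
    intro j w₀ w
    set t := ∫ u, R.indicator (1 : (Fin n → O) → ℝ) u ∂kap π η K j w₀ with ht
    set L : Set O := {w | t ≤ ∫ u, R.indicator (1 : (Fin n → O) → ℝ) u ∂kap π η K j w} with hLdef
    have hLeq : L = ⋂ k : ℕ, {w | t ≤ ∫ u, G k u ∂kap π η K j w} := by
      ext w'
      simp only [hLdef, mem_iInter]
      constructor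
      · intro h k
        exact (h : t ≤ _).trans (integral_mono (hintR j w') (hint j w' k) fun u => hGR k u)
      · intro h
        exact ge_of_tendsto (hlim j w') (Eventually.of_forall fun k => h k)
    have hLc : IsClosed L := by
      rw [hLeq]
      exact isClosed_iInter fun k => isClosed_le continuous_const (hcont (G k) (hGc k) j).1
    have hLu : L = univ := by
      have hw₀ : t ≤ ∫ u, R.indicator (1 : (Fin n → O) → ℝ) u ∂kap π η K j w₀ := ht.le
      refine hmin.min L hLc ⟨w₀, hw₀⟩ ?_ (subset_univ _)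
      intro m w' hw'
      show t ≤ ∫ u, R.indicator (1 : (Fin n → O) → ℝ) u ∂kap π η K j (sh m w')
      rw [hinv]
      exact hw'
    have : w ∈ L := by
      rw [hLu]
      trivial
    exact this
  obtain ⟨w₀, -⟩ := hmin.ne
  -- uniform convergence
  intro ε hε
  have hN : ∀ j : Fin n, ∃ N : ℕ, ∀ k, N ≤ k → ∀ w, ∫ u, |G k u - R.indicator (1 : (Fin n → O) → ℝ) u|
      ∂kap π η K j w ≤ ε := by
    intro j
    have hconst : ∀ w, ∫ u, R.indicator (1 : (Fin n → O) → ℝ) u ∂kap π η K j w =
        ∫ u, R.indicator (1 : (Fin n → O) → ℝ) u ∂kap π η K j w₀ := fun w =>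
      le_antisymm (hle j w w₀) (hle j w₀ w)
    have hD := Antitone.tendstoUniformly_of_forall_tendsto
      (F := fun (k : ℕ) (w : O) => ∫ u, G k u ∂kap π η K j w)
      (f := fun _ => ∫ u, R.indicator (1 : (Fin n → O) → ℝ) u ∂kap π η K j w₀)
      (fun k => (hcont (G k) (hGc k) j).1) (hanti j) continuous_const
      (fun w => by
        have := hlim j w
        rwa [hconst w] at this)
    rw [Metric.tendstoUniformly_iff] at hD
    obtain ⟨N, hN⟩ := eventually_atTop.1 (hD ε hε)
    refine ⟨N, fun k hk w => ?_⟩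
    have h3 := hN k hk w
    have h4 : ∫ u, |G k u - R.indicator (1 : (Fin n → O) → ℝ) u| ∂kap π η K j w =
        ∫ u, G k u ∂kap π η K j w - ∫ u, R.indicator (1 : (Fin n → O) → ℝ) u ∂kap π η K j w := by
      rw [← integral_sub (hint j w k) (hintR j w)]
      refine integral_congr_ae (Eventually.of_forall fun u => ?_)
      exact abs_of_nonneg (sub_nonneg.2 (hGR k u))
    rw [h4, hconst w]
    rw [Real.dist_eq, abs_sub_comm] at h3
    exact (le_abs_self _).trans h3.le
  choose N hN using hN
  refine ⟨Finset.univ.sup N, fun k hk j w => hN j k ((Finset.le_sup (Finset.mem_univ j)).trans hk) w⟩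

end Pool.Agent.Work.MP_69fea5_lc.W3
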