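import Pool.Agent.Work.MP_69fea5_lc.W3.StmtsQ

/-!
# [69fea5 W3 Q QDL] the limit of the dual functions
-/

set_option autoImplicit false

namespace Pool.Agent.Work.MP_69fea5_lc.W3

open MeasureTheory ProbabilityTheory Topology Set Filter TopologicalSpace
open scoped NNReal ENNReal
open Pool.Agent.Work.MP_69fea5_lc.AK

namespace I_QDL

/-- a uniform Cauchy sequence on a set has a uniform limit there -/
theorem ulim {A : Type} (a : ℕ → A → ℝ) (s : Set A)
    (h : ∀ ε : ℝ, 0 < ε → ∃ N, ∀ k, N ≤ k → ∀ l, N ≤ l → ∀ x ∈ s, |a k x - a l x| ≤ ε) :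
    ∃ b : A → ℝ, (∀ ε : ℝ, 0 < ε → ∃ N, ∀ k, N ≤ k → ∀ x ∈ s, |a k x - b x| ≤ ε) ∧
      ∀ x ∈ s, Tendsto (fun k => a k x) atTop (𝓝 (b x)) := by
  have h1 : ∀ x ∈ s, CauchySeq (fun k => a k x) := by
    intro x hx
    rw [Metric.cauchySeq_iff]
    intro ε hε
    obtain ⟨N, hN⟩ := h (ε / 2) (half_pos hε)
    refine ⟨N, fun k hk l hl => ?_⟩
    rw [Real.dist_eq]
    exact lt_of_le_of_lt (hN k hk l hl x hx) (half_lt_self hε)
  have h2 : ∀ x, ∃ b : ℝ, x ∈ s → Tendsto (fun k => a k x) atTop (𝓝 b) := by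
    intro x
    by_cases hx : x ∈ s
    · obtain ⟨b, hb⟩ := cauchySeq_tendsto_of_complete (h1 x hx)
      exact ⟨b, fun _ => hb⟩
    · exact ⟨0, fun h => absurd h hx⟩
  choose b hb using h2
  refine ⟨b, ?_, hb⟩
  intro ε hε
  obtain ⟨N, hN⟩ := h ε hε
  refine ⟨N, fun k hk x hx => ?_⟩
  have h3 : Tendsto (fun l => |a k x - a l x|) atTop (𝓝 |a k x - b x|) :=
    (tendsto_const_nhds.sub (hb x hx)).abs
  exact le_of_tendsto h3 ((eventually_ge_atTop N).mono fun l hl => hN k hk l hl x hx)

theorem ucont {A : Type} [TopologicalSpace A] {a : ℕ → A → ℝ} {s : Set A} {b : A → ℝ}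
    (h : ∀ ε : ℝ, 0 < ε → ∃ N, ∀ k, N ≤ k → ∀ x ∈ s, |a k x - b x| ≤ ε)
    (hc : ∀ k, ContinuousOn (a k) s) : ContinuousOn b s := by
  have h1 : TendstoUniformlyOn a b atTop s := by
    rw [Metric.tendstoUniformlyOn_iff]
    intro ε hε
    obtain ⟨N, hN⟩ := h (ε / 2) (half_pos hε)
    refine (eventually_ge_atTop N).mono fun k hk x hx => ?_
    rw [dist_comm, Real.dist_eq]
    exact lt_of_le_of_lt (hN k hk x hx) (half_lt_self hε)
  exact h1.continuousOn (Eventually.frequently (Eventually.of_forall hc))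

/-- bounded measurable functions are integrable -/
theorem bint {Ω : Type} [MeasurableSpace Ω] {μ : Measure Ω} [IsFiniteMeasure μ] {G : Ω → ℝ}
    (hG : Measurable G) (b : ℝ) (hb : ∀ u, |G u| ≤ b) : Integrable G μ :=
  Integrable.of_bound hG.aestronglyMeasurable b (Eventually.of_forall fun u => by
    rw [Real.norm_eq_abs]
    exact hb u)

section

variable {X O : Type} [TopologicalSpace X] [MeasurableSpace X] [CS X] [Sys X]
  [TopologicalSpace O] [MeasurableSpace O] [CS O] [Sys O] {n : ℕ}

/-- the pseudometric of the coordinate `j` for the function `F` -/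
noncomputable def DD (π : O → X) (η : Kernel X O) (K : Fin n → X → ProbabilityMeasure (Fin n → X))
    (F : (Fin n → O) → ℝ) (j : Fin n) (w w' : O) : ℝ :=
  ∫ V, |F (Function.update V j w) - F (Function.update V j w')|
    ∂lif η (K j (π w) : Measure (Fin n → X))

theorem upd_cont (j : Fin n) (w : O) : Continuous fun V : Fin n → O => Function.update V j w :=
  continuous_id.update j continuous_const

theorem shs_cont : Continuous fun (u : Fin n → O) (i : Fin n) => sh 1 (u i) :=
  continuous_pi fun i => (sh_cont 1).comp (continuous_apply i)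

theorem upd_sh (V : Fin n → O) (j : Fin n) (w : O) (m : ℤ) :
    Function.update (fun i => sh m (V i)) j (sh m w) = fun i => sh m (Function.update V j w i) := by
  funext i
  by_cases hi : i = j
  · subst hi
    simp
  · simp [Function.update_of_ne hi]

theorem abs_abs_sub_abs_sub (a b a' b' : ℝ) :
    |(|a - b| - |a' - b'|)| ≤ |a - a'| + |b - b'| := by
  have h1 : |(|a - b| - |a' - b'|)| ≤ |(a - b) - (a' - b')| := abs_abs_sub_abs_le_abs_sub _ _
  have h2 : (a - b) - (a' - b') = (a - a') - (b - b') := by ring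
  rw [h2] at h1
  exact h1.trans (abs_sub _ _)

end

end I_QDL

open I_QDL in
theorem QDL_pf (hQFM : S_QFM) (hQFD : S_QFD) (hQK1 : S_QK1) (hQK2 : S_QK2) (hQD2 : S_QD2)
    (hQD3 : S_QD3) (hQD4 : S_QD4) : S_QDL := by
  intro X O _ _ _ _ _ _ _ _ n π lam η c P K Pc Kc hn hL hC hQ F hFc hF1 hFcau hFinv
  haveI : IsMarkovKernel η := hL.mrk
  obtain ⟨-, -, hK3, -, -, -, -, hCCc, hCCi⟩ := hQK1 X O n π lam η c P K hL hC
  have hD2 := hQD2 X O n π lam η c P K Pc Kc hL hC hQ
  obtain ⟨hD31, hD32⟩ := hQD3 X O n π lam η c P K Pc Kc hn hL hC hQ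
  have hD4 := hQD4 X O n π lam η c P K Pc Kc hL hC hQ
  have hprob : ∀ j w, IsProbabilityMeasure (lif η (K j (π w) : Measure (Fin n → X))) := by
    intro j w
    exact (hQFM X O (Fin n) η).2.1 _ inferInstance
  -- integrability
  have hint : ∀ (G G' : (Fin n → O) → ℝ), Continuous G → (∀ u, |G u| ≤ 1) → Continuous G' →
      (∀ u, |G' u| ≤ 1) → ∀ j w v v',
      Integrable (fun V => |G (Function.update V j v) - G' (Function.update V j v')|)
        (lif η (K j (π w) : Measure (Fin n → X))) := by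
    intro G G' hG hG1 hG' hG1' j w v v'
    haveI := hprob j w
    refine bint ?_ 2 (fun V => ?_)
    · exact ((hG.comp (upd_cont j v)).sub (hG'.comp (upd_cont j v'))).abs.measurable
    · rw [abs_abs]
      have e1 := abs_sub (G (Function.update V j v)) (G' (Function.update V j v'))
      have e2 := hG1 (Function.update V j v)
      have e3 := hG1' (Function.update V j v')
      linarith
  have hint2 : ∀ (G G' : (Fin n → O) → ℝ), Continuous G → (∀ u, |G u| ≤ 1) → Continuous G' →
      (∀ u, |G' u| ≤ 1) → ∀ j w v,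
      Integrable (fun V => |G (Function.update V j v) - G' (Function.update V j v)|)
        (lif η (K j (π w) : Measure (Fin n → X))) :=
    fun G G' hG hG1 hG' hG1' j w v => hint G G' hG hG1 hG' hG1' j w v v
  -- the distance of two functions
  have hSn : ∀ (G G' : (Fin n → O) → ℝ) (e : ℝ), Continuous G → Continuous G' →
      Sn π η K (fun u => G u - G' u) e → ∀ j w,
      ∫ V, |G (Function.update V j w) - G' (Function.update V j w)|
        ∂lif η (K j (π w) : Measure (Fin n → X)) ≤ e := by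
    intro G G' e hG hG' hS j w
    have e1 := hK3 j w (fun u => |G u - G' u|) (hG.sub hG').abs.measurable
    have e2 := hS j w
    rw [e1] at e2
    exact e2
  have key : ∀ (G G' : (Fin n → O) → ℝ) (e : ℝ), Continuous G → Continuous G' →
      (∀ u, |G u| ≤ 1) → (∀ u, |G' u| ≤ 1) → Sn π η K (fun u => G u - G' u) e →
      ∀ j w w', π w = π w' → |DD π η K G j w w' - DD π η K G' j w w'| ≤ 2 * e := by
    intro G G' e hG hG' hG1 hG1' hS j w w' hw
    have i1 := hint G G hG hG1 hG hG1 j w w w'
    have i2 := hint G' G' hG' hG1' hG' hG1' j w w w'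
    have i3 := hint2 G G' hG hG1 hG' hG1' j w w
    have i4 := hint2 G G' hG hG1 hG' hG1' j w w'
    have e1 := hSn G G' e hG hG' hS j w
    have e2 := hSn G G' e hG hG' hS j w'
    rw [← hw] at e2
    unfold DD
    rw [← integral_sub i1 i2]
    refine (abs_integral_le_integral_abs).trans ?_
    have e3 : ∫ V, |(|G (Function.update V j w) - G (Function.update V j w')| -
        |G' (Function.update V j w) - G' (Function.update V j w')|)|
          ∂lif η (K j (π w) : Measure (Fin n → X)) ≤
        ∫ V, (|G (Function.update V j w) - G' (Function.update V j w)| +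
          |G (Function.update V j w') - G' (Function.update V j w')|)
          ∂lif η (K j (π w) : Measure (Fin n → X)) := by
      refine integral_mono (i1.sub i2).abs (i3.add i4) (fun V => ?_)
      exact abs_abs_sub_abs_sub _ _ _ _
    rw [integral_add i3 i4] at e3
    linarith
  -- equivariance
  have heq : ∀ G : (Fin n → O) → ℝ, Continuous G → (∀ u, |G u| ≤ 1) → ∀ j w w', π w = π w' →
      DD π η K G j (sh 1 w) (sh 1 w') = DD π η K (fun u => G fun i => sh 1 (u i)) j w w' := by
    intro G hG hG1 j w w' hw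
    have e1 := (hQFD X O (Fin n) π lam η hL c (Finset.univ.erase j)
      (K j (π w) : Measure (Fin n → X)) inferInstance
      (fun i hi => hC.dom j i (Finset.ne_of_mem_erase hi) (π w))).2
      (fun V => |G (Function.update V j (sh 1 w)) - G (Function.update V j (sh 1 w'))|)
      (((hG.comp (upd_cont j _)).sub (hG.comp (upd_cont j _))).abs.measurable)
      ⟨2, fun V => by
        rw [abs_abs]
        have e1 := abs_sub (G (Function.update V j (sh 1 w))) (G (Function.update V j (sh 1 w')))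
        have e2 := hG1 (Function.update V j (sh 1 w))
        have e3 := hG1 (Function.update V j (sh 1 w'))
        linarith⟩
      (fun V V' hV => by
        have e2 : ∀ v : O, Function.update V j v = Function.update V' j v := by
          intro v
          funext i
          by_cases hi : i = j
          · subst hi
            simp
          · rw [Function.update_of_ne hi, Function.update_of_ne hi]
            exact hV i (by simp [hi])
        change |G (Function.update V j (sh 1 w)) - G (Function.update V j (sh 1 w'))| =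
          |G (Function.update V' j (sh 1 w)) - G (Function.update V' j (sh 1 w'))|
        rw [e2, e2]) 1
    unfold DD
    rw [hL.equi 1 w, hC.equi j 1 (π w), e1]
    refine integral_congr_ae (Eventually.of_forall fun V => ?_)
    change |G (Function.update (fun i => sh 1 (V i)) j (sh 1 w)) -
      G (Function.update (fun i => sh 1 (V i)) j (sh 1 w'))| = _
    rw [upd_sh, upd_sh]
  -- uniform limits of the dual functions
  set B : ℝ := n + 2 ^ n * c with hB
  have hB0 : 0 ≤ B := by positivity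
  have hacau : ∀ ε : ℝ, 0 < ε → ∃ N, ∀ k, N ≤ k → ∀ l, N ≤ l → ∀ u ∈ CC n π,
      |dua π η Kc (F k) u - dua π η Kc (F l) u| ≤ ε := by
    intro ε hε
    obtain ⟨N, hN⟩ := hFcau (ε / (B + 1)) (by positivity)
    refine ⟨N, fun k hk l hl u hu => ?_⟩
    refine (hD31 (F k) (F l) _ (hFc k).measurable (hFc l).measurable (hF1 k) (hF1 l)
      (hN k hk l hl) u hu).trans ?_
    rw [mul_div_assoc', div_le_iff₀ (by positivity)]
    nlinarith
  obtain ⟨Δ₀, hΔ₀, hΔt⟩ := ulim (fun k u => dua π η Kc (F k) u) (CC n π) hacau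
  have hΔ₀c : ContinuousOn Δ₀ (CC n π) := ucont hΔ₀ (fun k => (hD2 (F k) (hFc k)).1)
  obtain ⟨Δ, hΔ⟩ := ContinuousMap.exists_restrict_eq hCCc
    (⟨(CC n π).restrict Δ₀, continuousOn_iff_continuous_restrict.1 hΔ₀c⟩ : C(CC n π, ℝ))
  have hΔe : ∀ u ∈ CC n π, Δ u = Δ₀ u := by
    intro u hu
    have e1 := congrArg (fun f : C(CC n π, ℝ) => f ⟨u, hu⟩) hΔ
    exact e1
  -- uniform limits of the pseudometrics
  set s : Set (O × O) := {q | π q.1 = π q.2} with hs
  have hDcau : ∀ (j : Fin n) (ε : ℝ), 0 < ε → ∃ N, ∀ k, N ≤ k → ∀ l, N ≤ l → ∀ q ∈ s,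
      |DD π η K (F k) j q.1 q.2 - DD π η K (F l) j q.1 q.2| ≤ ε := by
    intro j ε hε
    obtain ⟨N, hN⟩ := hFcau (ε / 2) (half_pos hε)
    refine ⟨N, fun k hk l hl q hq => ?_⟩
    have e1 := key (F k) (F l) _ (hFc k) (hFc l) (hF1 k) (hF1 l) (hN k hk l hl) j q.1 q.2 hq
    linarith
  have hDlim : ∀ j : Fin n, ∃ D : O × O → ℝ,
      (∀ ε : ℝ, 0 < ε → ∃ N, ∀ k, N ≤ k → ∀ q ∈ s, |DD π η K (F k) j q.1 q.2 - D q| ≤ ε) ∧
      ∀ q ∈ s, Tendsto (fun k => DD π η K (F k) j q.1 q.2) atTop (𝓝 (D q)) := by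
    intro j
    exact ulim (A := O × O) (fun (k : ℕ) (q : O × O) => DD π η K (F k) j q.1 q.2) s (hDcau j)
  choose D hDu hDt using hDlim
  have hDc : ∀ j, ContinuousOn (D j) s := fun j =>
    ucont (hDu j) (fun k => (hQK2 X O n π lam η c P K hL hC (F k) (hFc k) j).2)
  have hDnn : ∀ j, ∀ q ∈ s, 0 ≤ D j q := by
    intro j q hq
    refine ge_of_tendsto' (hDt j q hq) (fun k => ?_)
    exact integral_nonneg fun V => abs_nonneg _
  have hDself : ∀ j w, D j (w, w) = 0 := by
    intro j w
    refine tendsto_nhds_unique (hDt j (w, w) rfl) ?_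
    have e1 : (fun k => DD π η K (F k) j (w, w).1 (w, w).2) = fun _ => (0 : ℝ) := by
      funext k
      unfold DD
      simp
    rw [e1]
    exact tendsto_const_nhds
  have hDsymm : ∀ j w w', π w = π w' → D j (w, w') = D j (w', w) := by
    intro j w w' hw
    refine tendsto_nhds_unique (hDt j (w, w') hw) ?_
    have e1 : (fun k => DD π η K (F k) j (w, w').1 (w, w').2) =
        fun k => DD π η K (F k) j (w', w).1 (w', w).2 := by
      funext k
      change DD π η K (F k) j w w' = DD π η K (F k) j w' w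
      unfold DD
      rw [hw]
      refine integral_congr_ae (Eventually.of_forall fun V => ?_)
      exact abs_sub_comm _ _
    rw [e1]
    exact hDt j (w', w) hw.symm
  have hDtri : ∀ j w w' w'', π w = π w' → π w' = π w'' →
      D j (w, w'') ≤ D j (w, w') + D j (w', w'') := by
    intro j w w' w'' hw hw'
    refine le_of_tendsto_of_tendsto' (hDt j (w, w'') (hw.trans hw'))
      ((hDt j (w, w') hw).add (hDt j (w', w'') hw')) (fun k => ?_)
    change DD π η K (F k) j w w'' ≤ DD π η K (F k) j w w' + DD π η K (F k) j w' w''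
    have i1 := hint (F k) (F k) (hFc k) (hF1 k) (hFc k) (hF1 k) j w w w'
    have i2 := hint (F k) (F k) (hFc k) (hF1 k) (hFc k) (hF1 k) j w w' w''
    have i3 := hint (F k) (F k) (hFc k) (hF1 k) (hFc k) (hF1 k) j w w w''
    unfold DD
    rw [← hw, ← integral_add i1 i2]
    refine integral_mono i3 (i1.add i2) (fun V => ?_)
    exact abs_sub_le _ _ _
  have hDinv1 : ∀ j w w', π w = π w' → D j (sh 1 w, sh 1 w') = D j (w, w') := by
    intro j w w' hw
    have hw1 : π (sh 1 w) = π (sh 1 w') := by rw [hL.equi, hL.equi, hw]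
    have e1 : Tendsto (fun k => DD π η K (F k) j (sh 1 w) (sh 1 w') - DD π η K (F k) j w w')
        atTop (𝓝 (D j (sh 1 w, sh 1 w') - D j (w, w'))) :=
      (hDt j (sh 1 w, sh 1 w') hw1).sub (hDt j (w, w') hw)
    have e2 : Tendsto (fun k => DD π η K (F k) j (sh 1 w) (sh 1 w') - DD π η K (F k) j w w')
        atTop (𝓝 0) := by
      rw [Metric.tendsto_atTop]
      intro ε hε
      obtain ⟨N, hN⟩ := hFinv (ε / 4) (by positivity)
      refine ⟨N, fun k hk => ?_⟩
      rw [Real.dist_eq, sub_zero, heq (F k) (hFc k) (hF1 k) j w w' hw]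
      have e3 := key (fun u => F k fun i => sh 1 (u i)) (F k) _ ((hFc k).comp shs_cont) (hFc k)
        (fun u => hF1 k _) (hF1 k) (hN k hk) j w w' hw
      linarith
    exact sub_eq_zero.1 (tendsto_nhds_unique e1 e2)
  have hDinv : ∀ j (m : ℤ) w w', π w = π w' → D j (sh m w, sh m w') = D j (w, w') := by
    intro j m
    induction m using Int.induction_on with
    | zero =>
      intro w w' _
      rw [sh_zero, sh_zero]
    | succ i ih =>
      intro w w' hw
      rw [sh_add, sh_add, ih _ _ (by rw [hL.equi, hL.equi, hw])]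
      exact hDinv1 j w w' hw
    | pred i ih =>
      intro w w' hw
      have e2 : ∀ v : O, sh (-(i : ℤ)) v = sh 1 (sh (-(i : ℤ) - 1) v) := by
        intro v
        rw [← sh_add]
        congr 1
        ring
      rw [← ih w w' hw, e2 w, e2 w']
      exact (hDinv1 j _ _ (by rw [hL.equi, hL.equi, hw])).symm
  have hΔinv : ∀ u ∈ CC n π, Δ (fun i => sh 1 (u i)) = Δ u := by
    intro u hu
    have hu1 := hCCi u hu 1
    rw [hΔe _ hu1, hΔe u hu]
    have e1 : Tendsto (fun k => dua π η Kc (F k) (fun i => sh 1 (u i)) - dua π η Kc (F k) u)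
        atTop (𝓝 (Δ₀ (fun i => sh 1 (u i)) - Δ₀ u)) := (hΔt _ hu1).sub (hΔt u hu)
    have e2 : Tendsto (fun k => dua π η Kc (F k) (fun i => sh 1 (u i)) - dua π η Kc (F k) u)
        atTop (𝓝 0) := by
      rw [Metric.tendsto_atTop]
      intro ε hε
      obtain ⟨N, hN⟩ := hFinv (ε / (2 * (B + 1))) (by positivity)
      refine ⟨N, fun k hk => ?_⟩
      rw [Real.dist_eq, sub_zero, hD32 (F k) (hFc k).measurable ⟨1, hF1 k⟩ u hu]
      have e3 := hD31 (fun u => F k fun i => sh 1 (u i)) (F k) _
        ((hFc k).comp shs_cont).measurable (hFc k).measurable (fun u => hF1 k _) (hF1 k)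
        (hN k hk) u hu
      refine lt_of_le_of_lt e3 ?_
      rw [mul_div_assoc', div_lt_iff₀ (by positivity)]
      nlinarith
    exact sub_eq_zero.1 (tendsto_nhds_unique e1 e2)
  -- the isometric extension
  have hCI : CI π (fun w w' => ∑ j, D j (w, w')) := by
    refine ⟨?_, ?_, ?_, ?_, ?_, ?_⟩
    · exact continuousOn_finset_sum _ fun j _ => hDc j
    · intro m w w' hw
      exact Finset.sum_congr rfl fun j _ => hDinv j m w w' hw
    · intro w
      exact Finset.sum_eq_zero fun j _ => hDself j w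
    · intro w w' hw
      exact Finset.sum_nonneg fun j _ => hDnn j (w, w') hw
    · intro w w' hw
      exact Finset.sum_congr rfl fun j _ => hDsymm j w w' hw
    · intro w w' w'' hw hw'
      rw [← Finset.sum_add_distrib]
      exact Finset.sum_le_sum fun j _ => hDtri j w w' w'' hw hw'
  have hfac : ∀ u ∈ CC n π, ∀ u' ∈ CC n π, (∀ i, π (u i) = π (u' i)) →
      (∀ i, ∑ j, D j (u i, u' i) = 0) → Δ u = Δ u' := by
    intro u hu u' hu' hpos hρ
    have e0 : ∀ j, D j (u j, u' j) = 0 := by
      intro j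
      have e1 : ∑ i, D i (u j, u' j) = 0 := hρ j
      have e2 := (Finset.sum_eq_zero_iff_of_nonneg
        (fun i _ => hDnn i (u j, u' j) (hpos j))).1 e1
      exact e2 j (Finset.mem_univ j)
    rw [hΔe u hu, hΔe u' hu']
    have e1 : Tendsto (fun k => |dua π η Kc (F k) u - dua π η Kc (F k) u'|) atTop
        (𝓝 |Δ₀ u - Δ₀ u'|) := ((hΔt u hu).sub (hΔt u' hu')).abs
    have e2 : Tendsto (fun k => ∑ j, DD π η K (F k) j (u j) (u' j)) atTop
        (𝓝 (∑ j, D j (u j, u' j))) :=
      tendsto_finset_sum _ fun j _ => hDt j (u j, u' j) (hpos j)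
    have e3 : |Δ₀ u - Δ₀ u'| ≤ ∑ j, D j (u j, u' j) :=
      le_of_tendsto_of_tendsto' e1 e2 fun k =>
        hD4 (F k) (hFc k).measurable (hF1 k) u hu u' hu' hpos
    rw [Finset.sum_eq_zero fun j _ => e0 j] at e3
    exact sub_eq_zero.1 (abs_eq_zero.1 (le_antisymm e3 (abs_nonneg _)))
  have hlast : ∀ ε : ℝ, 0 < ε → ∃ N, ∀ k, N ≤ k → ∀ u ∈ CC n π,
      |dua π η Kc (F k) u - Δ u| ≤ ε := by
    intro ε hε
    obtain ⟨N, hN⟩ := hΔ₀ ε hε
    refine ⟨N, fun k hk u hu => ?_⟩
    rw [hΔe u hu]
    exact hN k hk u hu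
  have hISO : ISO n π (fun u => Δ u) := ⟨Δ.continuous, hΔinv, ⟨_, hCI, hfac⟩⟩
  exact ⟨fun u => Δ u, hISO, hlast⟩

end Pool.Agent.Work.MP_69fea5_lc.W3
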