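import Pool.Agent.Work.MP_69fea5_lc.W3.StmtsQ

set_option autoImplicit false

namespace Pool.Agent.Work.MP_69fea5_lc.W3

open MeasureTheory ProbabilityTheory Topology Set Filter TopologicalSpace
open scoped NNReal ENNReal
open Pool.Agent.Work.MP_69fea5_lc.AK

namespace I_QDU

/-- integrals over mixtures -/
theorem integral_mix {A B : Type} [MeasurableSpace A] [MeasurableSpace B] (P : Measure A)
    [IsProbabilityMeasure P] (L : A → Measure B) (hL : ∀ y, IsProbabilityMeasure (L y))
    (hm : AEMeasurable L P) (G : B → ℝ) (hG : Measurable G) (b : ℝ) (hb : ∀ x, |G x| ≤ b) :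
    ∫ z, G z ∂(P.bind L) = ∫ y, ∫ z, G z ∂L y ∂P := by
  classical
  obtain ⟨K', hK', he⟩ := hm
  have hms : MeasurableSet {y : A | K' y univ = 1} :=
    ((Measure.measurable_coe MeasurableSet.univ).comp hK') (measurableSet_singleton 1)
  let κf : A → Measure B := fun y => if K' y univ = 1 then K' y else 0
  have hmeas : Measurable κf := Measurable.ite hms hK' measurable_const
  let κ : Kernel A B := ⟨κf, hmeas⟩
  have hfin : IsFiniteKernel κ := ⟨⟨1, ENNReal.one_lt_top, fun y => by
    change κf y univ ≤ 1
    by_cases h : K' y univ = 1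
    · simp only [κf, h, if_true]; exact le_rfl
    · simp only [κf, h, if_false]; simp⟩⟩
  have hae : L =ᵐ[P] κf := by
    filter_upwards [he] with y hy
    have h1 : K' y univ = 1 := by
      rw [← hy]
      have := hL y
      exact measure_univ
    simp only [κf, h1, if_true]
    exact hy
  have hbind : P.bind L = P.bind κ := Measure.bind_congr_right hae
  rw [hbind, ← Measure.snd_compProd, Measure.snd,
    integral_map measurable_snd.aemeasurable hG.aestronglyMeasurable, Measure.integral_compProd]
  · refine integral_congr_ae ?_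
    filter_upwards [hae] with y hy
    change ∫ z, G z ∂κf y = _
    rw [← hy]
  · refine Integrable.of_bound (hG.comp measurable_snd).aestronglyMeasurable b ?_
    exact Eventually.of_forall fun p => by rw [Real.norm_eq_abs]; exact hb p.2

variable {X O : Type} {n : ℕ}

theorem ch_inj : Function.Injective (ch (∅ : Finset (Fin n))) := by
  intro i j h
  have := congrArg (fun a : Vx n => a.1.1) h
  exact this

theorem ovw_ch (u : Fin n → O) (W : Vx n → O) (j : Fin n) : ovw u W (ch ∅ j) = u j := by
  unfold ovw ch
  simp

theorem ovw_eq (u : Fin n → O) (W : Vx n → O) : ovw u W = Function.extend (ch ∅) u W := by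
  funext a
  by_cases h : a.1.2 = ∅
  · have ha : a = ch ∅ a.1.1 := by
      apply Subtype.ext
      apply Prod.ext
      · rfl
      · simp [ch, h]
    rw [ha, ovw_ch, ch_inj.extend_apply]
  · rw [Function.extend_apply']
    · unfold ovw
      rw [if_neg h]
    · rintro ⟨j, rfl⟩
      exact h (by simp [ch])

theorem ovw_cont [TopologicalSpace O] (a : Vx n) :
    Continuous fun p : (Fin n → O) × (Vx n → O) => ovw p.1 p.2 a := by
  unfold ovw
  by_cases h : a.1.2 = ∅
  · simp only [h, if_true]
    fun_prop
  · simp only [h, if_false]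
    fun_prop

theorem ovw_meas [MeasurableSpace O] :
    Measurable fun p : (Fin n → O) × (Vx n → O) => ovw p.1 p.2 := by
  refine measurable_pi_lambda _ fun a => ?_
  unfold ovw
  by_cases h : a.1.2 = ∅
  · simp only [h, if_true]
    fun_prop
  · simp only [h, if_false]
    fun_prop

theorem prC_cont [TopologicalSpace O] (F : (Fin n → O) → ℝ) (hF : Continuous F) :
    Continuous fun p : (Fin n → O) × (Vx n → O) => prC F (ovw p.1 p.2) := by
  unfold prC
  refine continuous_finsetProd _ fun s _ => ?_
  exact hF.comp (continuous_pi fun j => ovw_cont (ch s j))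

theorem prod_ovw (F : (Fin n → O) → ℝ) (u : Fin n → O) (W : Vx n → O) :
    ∏ s : Finset (Fin n), F (fun j => ovw u W (ch s j)) = F u * prC F (ovw u W) := by
  unfold prC
  rw [← Finset.mul_prod_erase Finset.univ (fun s : Finset (Fin n) => F fun j => ovw u W (ch s j))
    (Finset.mem_univ ∅)]
  have h : (fun j => ovw u W (ch ∅ j)) = u := funext fun j => ovw_ch u W j
  rw [h]

theorem lif_ovw [MeasurableSpace X] [MeasurableSpace O] (hQPW : S_QPW) (hQFM : S_QFM)
    (η : Kernel X O) [IsMarkovKernel η] (y : Fin n → X) (Q : Measure (Vx n → X))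
    [IsProbabilityMeasure Q] (hcar : ∀ᵐ z ∂Q, ∀ j, z (ch ∅ j) = y j) :
    ((Measure.pi fun i => η (y i)).prod (lif η Q)).map (fun p => ovw p.1 p.2) = lif η Q := by
  have hpi := (hQFM X O (Vx n) η).1
  have hprL : IsProbabilityMeasure (lif η Q) := (hQFM X O (Vx n) η).2.1 Q inferInstance
  have hov := ovw_meas (O := O) (n := n)
  ext B hB
  rw [Measure.map_apply hov hB, Measure.prod_apply_symm (hov hB)]
  have h1 : ∫⁻ W, (Measure.pi fun i => η (y i))
      ((fun u => (u, W)) ⁻¹' ((fun p : (Fin n → O) × (Vx n → O) => ovw p.1 p.2) ⁻¹' B))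
      ∂(lif η Q) = ∫⁻ z, ∫⁻ W, (Measure.pi fun i => η (y i))
      ((fun u => (u, W)) ⁻¹' ((fun p : (Fin n → O) × (Vx n → O) => ovw p.1 p.2) ⁻¹' B))
      ∂(Measure.pi fun a => η (z a)) ∂Q :=
    Measure.lintegral_bind hpi.aemeasurable
      (measurable_measure_prodMk_right (hov hB)).aemeasurable
  rw [h1, (hQFM X O (Vx n) η).2.2.1 Q B hB]
  refine lintegral_congr_ae ?_
  filter_upwards [hcar] with z hz
  rw [← Measure.prod_apply_symm (hov hB), ← Measure.map_apply hov hB]
  have h4 := (hQPW O (Vx n) (Fin n)).2.2.2.1 (ch ∅) ch_inj (fun a => η (z a))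
    (fun a => inferInstance)
  simp only [hz] at h4
  simp only [ovw_eq]
  rw [h4]

end I_QDU

open I_QDU in
theorem QDU_pf (hQPW : S_QPW) (hQFM : S_QFM) (hQFD : S_QFD) (hQK1 : S_QK1) (hQD2 : S_QD2) :
    S_QDU := by
  intro X O _ _ _ _ _ _ _ _ n π lam η c P K Pc Kc hL hC hQ F hF
  have hmrk := hL.mrk
  have hprob := hL.prob
  have hP := hC.prob
  have hPc := hQ.prob
  obtain ⟨-, -, -, -, -, ⟨hLP, hLC⟩, -, hCC, -⟩ := hQK1 X O n π lam η c P K hL hC
  obtain ⟨hdc, -⟩ := hQD2 X O n π lam η c P K Pc Kc hL hC hQ F hF
  have hpiV := (hQFM X O (Vx n) η).1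
  have hprL : ∀ y, IsProbabilityMeasure (lif η (Kc y : Measure (Vx n → X))) := fun y =>
    (hQFM X O (Vx n) η).2.1 _ inferInstance
  -- measurability of the mixture
  have hKm : AEMeasurable (fun y => (Kc y : Measure (Vx n → X))) P := by
    by_contra h
    have h0 : Pc = 0 := by
      rw [← hQ.dis, Measure.bind, Measure.map_of_not_aemeasurable h, Measure.join_zero]
    have h1 : Pc univ = 1 := measure_univ
    rw [h0] at h1
    simp at h1
  -- continuous functions
  have hΦc : Continuous fun W : Vx n → O => ∏ s : Finset (Fin n), F (fun j => W (ch s j)) := by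
    refine continuous_finsetProd _ fun s _ => ?_
    exact hF.comp (continuous_pi fun j => continuous_apply (ch s j))
  obtain ⟨b1, hb1⟩ := isCompact_univ.exists_bound_of_continuousOn hΦc.continuousOn
  have hpc := prC_cont F hF
  obtain ⟨b2, hb2⟩ := isCompact_univ.exists_bound_of_continuousOn hpc.continuousOn
  obtain ⟨b3, hb3⟩ := isCompact_univ.exists_bound_of_continuousOn hF.continuousOn
  have hdb : ∀ u, |dua π η Kc F u| ≤ |b2| := by
    intro u
    have := hprL (fun i => π (u i))
    unfold dua
    rw [← Real.norm_eq_abs]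
    refine (norm_integral_le_of_norm_le_const (C := |b2|)
      (Eventually.of_forall fun W => ?_)).trans ?_
    · exact (hb2 (u, W) (mem_univ _)).trans (le_abs_self b2)
    · simp
  classical
  set dm : (Fin n → O) → ℝ := (CC n π).indicator (dua π η Kc F) with hdm
  have hdmm : Measurable dm := by
    have h := ContinuousOn.measurable_piecewise (g := fun _ => (0 : ℝ)) hdc continuousOn_const
      hCC.measurableSet
    have he : dm = (CC n π).piecewise (dua π η Kc F) (fun _ => (0 : ℝ)) := by
      funext u
      by_cases hu : u ∈ CC n π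
      · simp [hdm, hu]
      · simp [hdm, hu]
    rw [he]
    exact h
  have hdmb : ∀ u, |dm u| ≤ |b2| := by
    intro u
    by_cases hu : u ∈ CC n π
    · simp only [hdm, indicator_of_mem hu]
      exact hdb u
    · simp only [hdm, indicator_of_notMem hu, abs_zero]
      exact abs_nonneg _
  -- the right side
  have hR : ∫ u, F u * dua π η Kc F u ∂lif η P =
      ∫ y, ∫ u, F u * dm u ∂(Measure.pi fun i => η (y i)) ∂P := by
    have h1 : ∫ u, F u * dua π η Kc F u ∂lif η P = ∫ u, F u * dm u ∂lif η P := by
      refine integral_congr_ae ?_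
      filter_upwards [hLC] with u hu
      simp only [hdm, indicator_of_mem hu]
    rw [h1]
    refine ((hQFM X O (Fin n) η).2.2.2.1 P inferInstance (fun u => F u * dm u)
      (hF.measurable.mul hdmm) ⟨|b3| * |b2|, fun u => ?_⟩).2
    rw [abs_mul]
    refine mul_le_mul ?_ (hdmb u) (abs_nonneg _) (abs_nonneg _)
    exact (hb3 u (mem_univ _)).trans (le_abs_self b3)
  -- the left side
  have hLeft : ∫ W, ∏ s : Finset (Fin n), F (fun j => W (ch s j)) ∂lif η Pc =
      ∫ y, ∫ W, ∏ s : Finset (Fin n), F (fun j => W (ch s j))
        ∂lif η (Kc y : Measure (Vx n → X)) ∂P := by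
    have h1 : lif η Pc = P.bind fun y => lif η (Kc y : Measure (Vx n → X)) := by
      unfold lif
      rw [← hQ.dis]
      exact Measure.bind_bind hKm hpiV.aemeasurable
    rw [h1]
    refine integral_mix P _ hprL ?_ _ hΦc.measurable b1 (fun W => hb1 W (mem_univ _))
    exact (Measure.measurable_bind' hpiV).comp_aemeasurable hKm
  rw [hLeft, hR]
  refine integral_congr_ae ?_
  have hpos := (hQFD X O (Fin n) π lam η hL (1 : ℝ≥0) Finset.univ P inferInstance ?_).1
  · filter_upwards [hC.carP, hpos] with y hy hyu
    have hcar := hQ.car y hy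
    have hid := lif_ovw hQPW hQFM η y (Kc y : Measure (Vx n → X)) hcar
    have hpr := hprL y
    calc ∫ W, ∏ s : Finset (Fin n), F (fun j => W (ch s j)) ∂lif η (Kc y : Measure (Vx n → X))
        = ∫ W, ∏ s : Finset (Fin n), F (fun j => W (ch s j))
            ∂(((Measure.pi fun i => η (y i)).prod (lif η (Kc y : Measure (Vx n → X)))).map
              (fun p => ovw p.1 p.2)) := by rw [hid]
      _ = ∫ p, ∏ s : Finset (Fin n), F (fun j => ovw p.1 p.2 (ch s j))
            ∂((Measure.pi fun i => η (y i)).prod (lif η (Kc y : Measure (Vx n → X)))) := by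
          rw [integral_map ovw_meas.aemeasurable hΦc.measurable.aestronglyMeasurable]
      _ = ∫ p, F p.1 * prC F (ovw p.1 p.2)
            ∂((Measure.pi fun i => η (y i)).prod (lif η (Kc y : Measure (Vx n → X)))) := by
          simp_rw [prod_ovw]
      _ = ∫ u, ∫ W, F u * prC F (ovw u W) ∂lif η (Kc y : Measure (Vx n → X))
            ∂(Measure.pi fun i => η (y i)) := by
          rw [integral_prod]
          refine Integrable.of_bound
            ((hF.comp continuous_fst).mul hpc).measurable.aestronglyMeasurable (|b3| * |b2|) ?_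
          refine Eventually.of_forall fun p => ?_
          rw [norm_mul]
          exact mul_le_mul ((hb3 p.1 (mem_univ _)).trans (le_abs_self b3))
            ((hb2 p (mem_univ _)).trans (le_abs_self b2)) (norm_nonneg _) (abs_nonneg _)
      _ = ∫ u, F u * dm u ∂(Measure.pi fun i => η (y i)) := by
          refine integral_congr_ae ?_
          filter_upwards [hyu] with u hu
          have huy : (fun i => π (u i)) = y := funext fun i => hu i (Finset.mem_univ i)
          have huC : u ∈ CC n π := by
            change (fun i => π (u i)) ∈ PG n X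
            rw [huy]
            exact hy
          simp only [hdm, indicator_of_mem huC]
          rw [integral_const_mul]
          unfold dua
          rw [huy]
  · intro i _
    rw [one_smul]
    refine Measure.le_iff.2 fun B hB => ?_
    have hBi : MeasurableSet ((fun z : Fin n → X => z i) ⁻¹' B) := measurable_pi_apply i hB
    rw [Measure.map_apply (measurable_pi_apply i) hB]
    calc P ((fun z : Fin n → X => z i) ⁻¹' B)
        = (lam.bind fun x => (K i x : Measure (Fin n → X)))
            ((fun z : Fin n → X => z i) ⁻¹' B) := by rw [hC.dis i]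
      _ ≤ ∫⁻ x, (K i x : Measure (Fin n → X)) ((fun z : Fin n → X => z i) ⁻¹' B) ∂lam :=
          Measure.bind_apply_le _ hBi
      _ ≤ ∫⁻ x, B.indicator 1 x ∂lam := by
          refine lintegral_mono fun x => ?_
          by_cases hx : x ∈ B
          · simp only [indicator_of_mem hx, Pi.one_apply]
            exact prob_le_one
          · simp only [indicator_of_notMem hx, nonpos_iff_eq_zero]
            have h := hC.car i x
            rw [measure_eq_zero_iff_ae_notMem]
            filter_upwards [h] with z hz hzB
            exact hx (by rw [← hz.1]; exact hzB)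
      _ = lam B := lintegral_indicator_one hB

end Pool.Agent.Work.MP_69fea5_lc.W3
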