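import Pool.Agent.Work.MP_69fea5_lc.W3.StmtsQ

/-!
# Block [69fea5 W3 Q], item QFD: positions and equivariance of lifts

Proof: docstring of `S_QFD` in `W3/StmtsQ.lean`.
-/

set_option autoImplicit false

namespace Pool.Agent.Work.MP_69fea5_lc.W3

open MeasureTheory ProbabilityTheory Topology Set Filter TopologicalSpace
open scoped NNReal ENNReal
open Pool.Agent.Work.MP_69fea5_lc.AK

namespace I_QFD

theorem ae_coord {X ι : Type} [MeasurableSpace X] {lam : Measure X} {c : ℝ≥0}
    {Q : Measure (ι → X)} {i : ι} (h : Q.map (fun z => z i) ≤ c • lam) {p : X → Prop}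
    (hp : ∀ᵐ x ∂lam, p x) : ∀ᵐ z ∂Q, p (z i) := by
  have h1 : (Q.map fun z => z i) ≪ lam :=
    (Measure.absolutelyContinuous_of_le h).trans
      (Measure.AbsolutelyContinuous.smul_left Measure.AbsolutelyContinuous.rfl c)
  have h2 : ∀ᵐ x ∂(Q.map fun z => z i), p x := h1.ae_le hp
  exact ae_of_ae_map (measurable_pi_apply i).aemeasurable h2

end I_QFD

open I_QFD in
theorem QFD_pf (hQPW : S_QPW) (hQFM : S_QFM) : S_QFD := by
  intro X O ι _ _ _ _ _ _ _ _ _ π lam η hL c D Q hQ hD
  have hmk : IsMarkovKernel η := hL.mrk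
  have hfm := hQFM X O ι η
  refine ⟨?_, ?_⟩
  · have h1 : ∀ᵐ z ∂Q, ∀ i ∈ D, ∀ᵐ w ∂η (z i), π w = z i := by
      rw [Filter.eventually_all_finset]
      intro i hi
      exact ae_coord (hD i hi) hL.pos
    filter_upwards [h1] with z hz
    rw [Filter.eventually_all_finset]
    intro i hi
    exact (Measure.tendsto_eval_ae_ae (μ := fun i => η (z i)) (i := i)).eventually (hz i hi)
  · intro G hG hB hDep m
    have hmX : Measurable (sh m : X → X) := (sh_cont m).measurable
    have hmO : Measurable (sh m : O → O) := (sh_cont m).measurable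
    have hs : Measurable fun (z : ι → X) i => sh m (z i) :=
      measurable_pi_lambda _ fun i => hmX.comp (measurable_pi_apply i)
    have hsO : Measurable fun (u : ι → O) i => sh m (u i) :=
      measurable_pi_lambda _ fun i => hmO.comp (measurable_pi_apply i)
    have hQs : IsProbabilityMeasure (Q.map fun (z : ι → X) i => sh m (z i)) :=
      Measure.isProbabilityMeasure_map hs.aemeasurable
    have hB' : Bd fun u : ι → O => G fun i => sh m (u i) := by
      obtain ⟨b, hb⟩ := hB
      exact ⟨b, fun u => hb _⟩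
    rw [(hfm.2.2.2.1 (Q.map fun (z : ι → X) i => sh m (z i)) inferInstance G hG hB).2,
      (hfm.2.2.2.1 Q inferInstance (fun u : ι → O => G fun i => sh m (u i)) (hG.comp hsO) hB').2,
      integral_map hs.aemeasurable
        (hfm.2.2.2.1 Q inferInstance G hG hB).1.aestronglyMeasurable]
    refine integral_congr_ae ?_
    have h1 : ∀ᵐ z ∂Q, ∀ i ∈ D, η (sh m (z i)) = (η (z i)).map (sh m) := by
      rw [Filter.eventually_all_finset]
      intro i hi
      exact ae_coord (hD i hi) (hL.inv m)
    filter_upwards [h1] with z hz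
    have h2 := (hQPW O ι ι).2.2.2.2 (D : Set ι) (fun i => η (sh m (z i)))
      (fun i => (η (z i)).map (sh m)) (fun i => inferInstance)
      (fun i => Measure.isProbabilityMeasure_map hmO.aemeasurable)
      (fun i hi => hz i (Finset.mem_coe.1 hi)) G hG hDep
    rw [h2]
    have hpr : ∀ i, IsProbabilityMeasure ((η (z i)).map (sh m : O → O)) := fun i =>
      Measure.isProbabilityMeasure_map hmO.aemeasurable
    have h3 : (Measure.pi fun i => η (z i)).map (fun (u : ι → O) i => sh m (u i)) =
        Measure.pi fun i => (η (z i)).map (sh m) :=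
      Measure.pi_map_pi (μ := fun i => η (z i)) (f := fun _ => (sh m : O → O))
        fun i => hmO.aemeasurable
    rw [← h3, integral_map hsO.aemeasurable hG.aestronglyMeasurable]

end Pool.Agent.Work.MP_69fea5_lc.W3
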