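import Pool.Agent.Work.MP_69fea5_lc.W3.StmtsQ

set_option autoImplicit false

namespace Pool.Agent.Work.MP_69fea5_lc.W3

open MeasureTheory ProbabilityTheory Topology Set Filter TopologicalSpace
open scoped NNReal ENNReal
open Pool.Agent.Work.MP_69fea5_lc.AK

namespace I_QFM

variable {X O ι : Type} [MeasurableSpace X] [MeasurableSpace O] [Fintype ι]
  (η : Kernel X O) [IsMarkovKernel η]

lemma meas : Measurable fun z : ι → X => Measure.pi fun i => η (z i) := by
  refine Measurable.measure_of_isPiSystem_of_isProbabilityMeasure (generateFrom_pi (ι := ι)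
    (α := fun _ => O)).symm isPiSystem_pi ?_
  rintro _ ⟨s, hs, rfl⟩
  simp only [Measure.pi_pi]
  refine Finset.measurable_prod _ fun i _ => ?_
  exact (η.measurable_coe (hs i (mem_univ i))).comp (measurable_pi_apply i)

/-- the kernel of the product laws -/
noncomputable def KK (ι : Type) [Fintype ι] : Kernel (ι → X) (ι → O) :=
  ⟨fun z => Measure.pi fun i => η (z i), meas η⟩

lemma KK_apply (z : ι → X) : KK η ι z = Measure.pi fun i => η (z i) := rfl

instance : IsMarkovKernel (KK η ι) := ⟨fun z => by rw [KK_apply]; infer_instance⟩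

lemma lif_eq (Q : Measure (ι → X)) : lif η Q = Q.bind (KK η ι) := rfl

end I_QFM

open I_QFM in
theorem QFM_pf : S_QFM := by
  intro X O ι _ _ _ η _
  have hpr : ∀ Q : Measure (ι → X), IsProbabilityMeasure Q → IsProbabilityMeasure (lif η Q) := by
    intro Q _
    rw [lif_eq]
    infer_instance
  have hap : ∀ (Q : Measure (ι → X)) (B : Set (ι → O)), MeasurableSet B →
      lif η Q B = ∫⁻ z, (Measure.pi fun i => η (z i)) B ∂Q := by
    intro Q B hB
    exact Measure.bind_apply hB (meas η).aemeasurable
  refine ⟨meas η, hpr, hap, ?_, ?_, ?_⟩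
  · intro Q _ G hG hb
    obtain ⟨b, hb⟩ := hb
    refine ⟨?_, ?_⟩
    · have := (StronglyMeasurable.integral_kernel (κ := KK η ι) hG.stronglyMeasurable).measurable
      exact this
    · rw [lif_eq, ← Measure.snd_compProd, Measure.snd,
        integral_map measurable_snd.aemeasurable hG.aestronglyMeasurable,
        Measure.integral_compProd]
      · rfl
      · refine Integrable.of_bound (hG.comp measurable_snd).aestronglyMeasurable b ?_
        exact Eventually.of_forall fun p => by rw [Real.norm_eq_abs]; exact hb p.2
  · intro Q B hB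
    refine ⟨fun h => ?_, fun h => ?_⟩
    · exact Measure.ae_ae_of_ae_bind (meas η).aemeasurable h
    · rw [ae_iff]
      change lif η Q Bᶜ = 0
      rw [hap Q _ hB.compl]
      refine (lintegral_eq_zero_iff (Measure.measurable_coe hB.compl |>.comp (meas η))).2 ?_
      filter_upwards [h] with z hz
      exact hz
  · intro z D g _ _
    classical
    have h1 : ∀ u : ι → O, ∏ i ∈ D, g i (u i) = ∏ i, (if i ∈ D then g i else fun _ => 1) (u i) := by
      intro u
      rw [← Finset.prod_filter_mul_prod_filter_not Finset.univ (fun i => i ∈ D)]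
      rw [Finset.prod_eq_one (s := Finset.univ.filter fun i => i ∉ D), mul_one]
      · rw [Finset.filter_mem_eq_inter, Finset.univ_inter]
        refine Finset.prod_congr rfl fun i hi => ?_
        rw [if_pos hi]
      · intro i hi
        rw [if_neg (Finset.mem_filter.1 hi).2]
    simp_rw [h1]
    rw [integral_fintype_prod_eq_prod (fun i => if i ∈ D then g i else fun _ => 1)]
    rw [← Finset.prod_filter_mul_prod_filter_not Finset.univ (fun i => i ∈ D)]
    rw [Finset.prod_eq_one (s := Finset.univ.filter fun i => i ∉ D), mul_one]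
    · rw [Finset.filter_mem_eq_inter, Finset.univ_inter]
      refine Finset.prod_congr rfl fun i hi => ?_
      rw [if_pos hi]
    · intro i hi
      rw [if_neg (Finset.mem_filter.1 hi).2]
      simp

end Pool.Agent.Work.MP_69fea5_lc.W3
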