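import Pool.Agent.Work.MP_69fea5_lc.W3.StmtsQ

/-!
# Block [69fea5 W3 Q], item QFN: naturality and monotonicity of lifts
-/

set_option autoImplicit false

namespace Pool.Agent.Work.MP_69fea5_lc.W3

open MeasureTheory ProbabilityTheory Topology Set Filter TopologicalSpace
open scoped NNReal ENNReal
open Pool.Agent.Work.MP_69fea5_lc.AK

theorem QFN_pf (hQPW : S_QPW) (hQFM : S_QFM) : S_QFN := by
  intro X O ι _ _ _ η _
  refine ⟨?_, ?_⟩
  · intro ι' _ e he Q
    have hu : Measurable fun (u : ι → O) (i : ι') => u (e i) :=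
      measurable_pi_lambda _ fun i => measurable_pi_apply (e i)
    have hz : Measurable fun (z : ι → X) (i : ι') => z (e i) :=
      measurable_pi_lambda _ fun i => measurable_pi_apply (e i)
    refine Measure.ext fun B hB => ?_
    have hm : Measurable fun z : ι' → X => (Measure.pi fun i => η (z i)) B :=
      (Measure.measurable_coe hB).comp (hQFM X O ι' η).1
    rw [Measure.map_apply hu hB, (hQFM X O ι η).2.2.1 Q _ (hu hB),
      (hQFM X O ι' η).2.2.1 _ B hB, lintegral_map hm hz]
    refine lintegral_congr fun z => ?_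
    rw [← (hQPW O ι ι').1 e he (fun i => η (z i)) (fun i => inferInstance),
      Measure.map_apply hu hB]
  · intro Q Q' c h
    rw [Measure.le_iff]
    intro B hB
    rw [Measure.smul_apply, (hQFM X O ι η).2.2.1 Q B hB, (hQFM X O ι η).2.2.1 Q' B hB]
    refine (lintegral_mono' h le_rfl).trans ?_
    rw [lintegral_smul_measure]

end Pool.Agent.Work.MP_69fea5_lc.W3
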