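import Pool.Agent.Work.MP_69fea5_lc.W3.StmtsQ

set_option autoImplicit false

namespace Pool.Agent.Work.MP_69fea5_lc.W3

open MeasureTheory ProbabilityTheory Topology Set Filter TopologicalSpace
open scoped NNReal ENNReal
open Pool.Agent.Work.MP_69fea5_lc.AK

namespace I_QIS

variable {X O : Type} [TopologicalSpace X] [MeasurableSpace X] [CS X] [Sys X]
  [TopologicalSpace O] [MeasurableSpace O] [CS O] [Sys O] {n : ℕ} {π : O → X}

omit [MeasurableSpace X] [CS X] [MeasurableSpace O] [CS O] in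
/-- functions of two elements of the class -/
theorem comp2 (T : ℝ → ℝ → ℝ) (hT : Continuous fun p : ℝ × ℝ => T p.1 p.2)
    {g h : (Fin n → O) → ℝ} (hg : ISO n π g) (hh : ISO n π h) :
    ISO n π fun u => T (g u) (h u) := by
  obtain ⟨ρ, hρ, h1⟩ := hg.fac
  obtain ⟨ρ', hρ', h2⟩ := hh.fac
  refine ⟨hT.comp (hg.cont.prodMk hh.cont), fun u hu => ?_, fun z z' => ρ z z' + ρ' z z', ?_, ?_⟩
  · rw [hg.inv u hu, hh.inv u hu]
  · refine ⟨hρ.cont.add hρ'.cont, fun m z z' hz => ?_, fun z => ?_, fun z z' hz => ?_,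
      fun z z' hz => ?_, fun z z' z'' hz hz' => ?_⟩
    · rw [hρ.inv m z z' hz, hρ'.inv m z z' hz]
    · rw [hρ.self, hρ'.self, add_zero]
    · exact add_nonneg (hρ.nonneg z z' hz) (hρ'.nonneg z z' hz)
    · rw [hρ.symm z z' hz, hρ'.symm z z' hz]
    · have h3 := hρ.tri z z' z'' hz hz'
      have h4 := hρ'.tri z z' z'' hz hz'
      linarith
  · intro u hu u' hu' hpos hz
    have h3 : ∀ i, ρ (u i) (u' i) = 0 := fun i => by
      have h5 := hρ.nonneg _ _ (hpos i)
      have h6 := hρ'.nonneg _ _ (hpos i)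
      have h7 := hz i
      linarith
    have h4 : ∀ i, ρ' (u i) (u' i) = 0 := fun i => by
      have h5 := hρ.nonneg _ _ (hpos i)
      have h6 := hρ'.nonneg _ _ (hpos i)
      have h7 := hz i
      linarith
    rw [h1 u hu u' hu' hpos h3, h2 u hu u' hu' hpos h4]

end I_QIS

open I_QIS in
theorem QIS_pf : S_QIS := by
  intro X O _ _ _ _ _ _ _ _ n π
  refine ⟨fun a => ?_, fun g h hg hh => ⟨?_, ?_⟩, fun g hg => ⟨fun a => ?_, ?_, ?_⟩⟩
  · refine ⟨continuous_const, fun _ _ => rfl, fun _ _ => 0, ?_, fun _ _ _ _ _ _ => rfl⟩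
    exact ⟨continuousOn_const, fun _ _ _ _ => rfl, fun _ => rfl, fun _ _ _ => le_rfl,
      fun _ _ _ => rfl, fun _ _ _ _ _ => by simp⟩
  · exact comp2 (fun a b => a + b) (continuous_fst.add continuous_snd) hg hh
  · exact comp2 (fun a b => a * b) (continuous_fst.mul continuous_snd) hg hh
  · exact comp2 (fun b _ => a * b) (continuous_const.mul continuous_fst) hg hg
  · exact comp2 (fun b _ => max 0 (min 1 b))
      (continuous_const.max (continuous_const.min continuous_fst)) hg hg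
  · obtain ⟨b, hb⟩ := (isCompact_univ (X := Fin n → O)).exists_bound_of_continuousOn
      hg.cont.continuousOn
    exact ⟨b, fun u => hb u (mem_univ u)⟩

end Pool.Agent.Work.MP_69fea5_lc.W3
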