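import Pool.Agent.Work.MP_69fea5_lc.W3.StmtsQ

/-!
# W3 item QK1: basic facts on the laws `kap`
-/

set_option autoImplicit false

namespace Pool.Agent.Work.MP_69fea5_lc.W3

open MeasureTheory ProbabilityTheory Topology Set Filter TopologicalSpace
open scoped NNReal ENNReal
open Pool.Agent.Work.MP_69fea5_lc.AK

namespace I_QK1

theorem integral_bindK {α β : Type} [MeasurableSpace α] [MeasurableSpace β] (μ : Measure α)
    (κ : Kernel α β) (f : β → ℝ) (hf : Integrable f (μ.bind κ)) :
    ∫ y, f y ∂(μ.bind κ) = ∫ x, ∫ y, f y ∂κ x ∂μ := by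
  have h : μ.bind κ = (κ ∘ₖ Kernel.const Unit μ) () := Measure.comp_eq_comp_const_apply
  rw [h] at hf ⊢
  rw [Kernel.integral_comp hf, Kernel.const_apply]

/-- the product kernel -/
noncomputable def PIk {X O ι : Type} [MeasurableSpace X] [MeasurableSpace O] [Fintype ι]
    (η : Kernel X O) (hm : Measurable fun z : ι → X => Measure.pi fun i => η (z i)) :
    Kernel (ι → X) (ι → O) := ⟨fun z => Measure.pi fun i => η (z i), hm⟩

instance {X O ι : Type} [MeasurableSpace X] [MeasurableSpace O] [Fintype ι]
    (η : Kernel X O) [IsMarkovKernel η]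
    (hm : Measurable fun z : ι → X => Measure.pi fun i => η (z i)) :
    IsMarkovKernel (PIk η hm) := ⟨fun z => by
  change IsProbabilityMeasure (Measure.pi fun i => η (z i))
  infer_instance⟩

theorem pw_single {V O : Type} [DecidableEq V] (j : V) (u v : V → O) :
    pw {j} u v = Function.update v j (u j) := by
  funext i
  unfold pw
  by_cases h : i = j
  · subst h; simp
  · simp [h]

/-- one coordinate of a product measure is independent of the others -/
theorem prod_fact (hQPW : S_QPW) {V O : Type} [MeasurableSpace O] [Fintype V] [DecidableEq V]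
    (μ : V → Measure O) [∀ a, IsProbabilityMeasure (μ a)] (j : V) (B : Set (V → O))
    (hB : MeasurableSet B) :
    Measure.pi μ B = ∫⁻ w, Measure.pi μ {u | Function.update u j w ∈ B} ∂μ j := by
  have h2 := (hQPW O V V).2.1 {j} μ μ (fun a => inferInstance) (fun a => inferInstance)
  have hpw : pw {j} μ μ = μ := by
    funext i; unfold pw; split <;> rfl
  rw [hpw] at h2
  have hf : (fun p : (V → O) × (V → O) => pw {j} p.1 p.2) =
      fun p => Function.update p.2 j (p.1 j) := by
    funext p; exact pw_single j p.1 p.2
  rw [hf] at h2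
  have hup : Measurable fun p : (V → O) × O => Function.update p.1 j p.2 := measurable_update'
  have hme : Measurable fun p : (V → O) × (V → O) => Function.update p.2 j (p.1 j) :=
    hup.comp (measurable_snd.prodMk ((measurable_pi_apply j).comp measurable_fst))
  have hS : MeasurableSet {p : O × (V → O) | Function.update p.2 j p.1 ∈ B} :=
    (hup.comp (measurable_snd.prodMk measurable_fst)) hB
  have hg : Measurable fun w : O => Measure.pi μ {u | Function.update u j w ∈ B} :=
    measurable_measure_prodMk_left hS
  calc Measure.pi μ B = ((Measure.pi μ).prod (Measure.pi μ)).map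
        (fun p : (V → O) × (V → O) => Function.update p.2 j (p.1 j)) B := by rw [h2]
    _ = ((Measure.pi μ).prod (Measure.pi μ)) {p | Function.update p.2 j (p.1 j) ∈ B} := by
        rw [Measure.map_apply hme hB]; rfl
    _ = ∫⁻ u, Measure.pi μ {v | Function.update v j (u j) ∈ B} ∂Measure.pi μ := by
        have h := Measure.prod_apply (μ := Measure.pi μ) (ν := Measure.pi μ) (hme hB)
        exact h
    _ = ∫⁻ w, Measure.pi μ {u | Function.update u j w ∈ B} ∂μ j :=
        (measurePreserving_eval μ j).lintegral_comp hg

section main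

variable {X O : Type} [TopologicalSpace X] [MeasurableSpace X] [CS X] [Sys X]
  [TopologicalSpace O] [MeasurableSpace O] [CS O] [Sys O] {n : ℕ} {π : O → X} {lam : Measure X}
  {η : Kernel X O} {c : ℝ≥0} {P : Measure (Fin n → X)}
  {K : Fin n → X → ProbabilityMeasure (Fin n → X)}

theorem meas_K (hK : CLaw n lam c P K) (j : Fin n) :
    Measurable fun x => (K j x : Measure (Fin n → X)) :=
  measurable_subtype_coe.comp (hK.cont j).measurable

/-- the kernel `K j` -/
noncomputable def KK (hK : CLaw n lam c P K) (j : Fin n) : Kernel X (Fin n → X) :=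
  ⟨fun x => (K j x : Measure (Fin n → X)), meas_K hK j⟩

instance (hK : CLaw n lam c P K) (j : Fin n) : IsMarkovKernel (KK hK j) := ⟨fun x => by
  change IsProbabilityMeasure (K j x : Measure (Fin n → X))
  infer_instance⟩

omit [MeasurableSpace X] [CS X] in
theorem closed_PG : IsClosed (PG n X) := isClosed_closure

omit [MeasurableSpace X] [CS X] in
theorem sh_PG (m : ℤ) (z : Fin n → X) (hz : z ∈ PG n X) : (fun i => sh m (z i)) ∈ PG n X := by
  have hc : Continuous fun z : Fin n → X => fun i => sh m (z i) :=
    continuous_pi fun i => (sh_cont m).comp (continuous_apply i)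
  refine map_mem_closure (f := fun z : Fin n → X => fun i => sh m (z i)) hc hz ?_
  rintro _ ⟨g, z, rfl⟩
  refine ⟨g, sh m z, ?_⟩
  funext i
  change sh m (sh (pf (i : ℕ) g) z) = sh (pf (i : ℕ) g) (sh m z)
  rw [← sh_add, ← sh_add, add_comm]

omit [CS O] in
theorem closed_CC (hL : Lft π lam η) : IsClosed (CC n π) :=
  closed_PG.preimage (continuous_pi fun i => hL.cont.comp (continuous_apply i))

omit [CS O] in
theorem sh_CC (hL : Lft π lam η) (u : Fin n → O) (hu : u ∈ CC n π) (m : ℤ) :
    (fun i => sh m (u i)) ∈ CC n π := by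
  have h := sh_PG m _ hu
  change (fun i => π (sh m (u i))) ∈ PG n X
  simp_rw [hL.equi]
  exact h

/-- the marginals of `P` are `lam` -/
theorem marg (hK : CLaw n lam c P K) (i : Fin n) : P.map (fun z => z i) = lam := by
  ext A hA
  rw [Measure.map_apply (measurable_pi_apply i) hA]
  conv_lhs => rw [← hK.dis i]
  rw [Measure.bind_apply ((measurable_pi_apply i) hA) (meas_K hK i).aemeasurable]
  have h : ∀ x, (K i x : Measure (Fin n → X)) ((fun z => z i) ⁻¹' A) = A.indicator 1 x := by
    intro x
    by_cases hx : x ∈ A
    · rw [indicator_of_mem hx]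
      have : ∀ᵐ z ∂(K i x : Measure (Fin n → X)), z ∈ (fun z : Fin n → X => z i) ⁻¹' A := by
        filter_upwards [hK.car i x] with z hz
        change z i ∈ A
        rw [hz.1]; exact hx
      have h1 := prob_compl_eq_zero_iff (μ := (K i x : Measure (Fin n → X)))
        ((measurable_pi_apply i) hA)
      exact h1.1 (mem_ae_iff.1 this)
    · rw [indicator_of_notMem hx]
      have : ∀ᵐ z ∂(K i x : Measure (Fin n → X)), z ∉ (fun z : Fin n → X => z i) ⁻¹' A := by
        filter_upwards [hK.car i x] with z hz
        change z i ∉ A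
        rw [hz.1]; exact hx
      exact measure_eq_zero_iff_ae_notMem.2 this
  simp_rw [h]
  rw [lintegral_indicator_one hA]

omit [TopologicalSpace O] [CS O] [Sys O] in
theorem up_meas (j : Fin n) (w : O) : Measurable fun u : Fin n → O => Function.update u j w :=
  measurable_update_left

omit [TopologicalSpace O] [CS O] [Sys O] in
theorem up2_meas (j : Fin n) : Measurable fun p : O × (Fin n → O) => Function.update p.2 j p.1 :=
  (measurable_update' (a := j)).comp (measurable_snd.prodMk measurable_fst)

omit [CS O] in
theorem kap_prob (hQFM : S_QFM) (hL : Lft π lam η) (j : Fin n) (w : O) :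
    IsProbabilityMeasure (kap π η K j w) := by
  have := hL.mrk
  have := (hQFM X O (Fin n) η).2.1 (K j (π w)) inferInstance
  exact Measure.isProbabilityMeasure_map (up_meas j w).aemeasurable

theorem kap_car (hQFM : S_QFM) (hQFD : S_QFD) (hL : Lft π lam η) (hK : CLaw n lam c P K)
    (j : Fin n) (w : O) : ∀ᵐ u ∂kap π η K j w, u j = w ∧ u ∈ CC n π := by
  have := hL.mrk
  have hcl : MeasurableSet {u : Fin n → O | u j = w ∧ u ∈ CC n π} := by
    have h1 : IsClosed {u : Fin n → O | u j = w} :=
      isClosed_eq (continuous_apply j) continuous_const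
    exact (h1.inter (closed_CC hL)).measurableSet
  refine (ae_map_iff (up_meas j w).aemeasurable hcl).2 ?_
  have hB : MeasurableSet {u : Fin n → O | Function.update u j w j = w ∧
      Function.update u j w ∈ CC n π} := (up_meas j w) hcl
  refine ((hQFM X O (Fin n) η).2.2.2.2.1 (K j (π w)) _ hB).2 ?_
  have h1 := (hQFD X O (Fin n) π lam η hL c (Finset.univ.erase j) (K j (π w))
    inferInstance (fun i hi => hK.dom j i (Finset.ne_of_mem_erase hi) (π w))).1
  filter_upwards [h1, hK.car j (π w)] with z hz hz2
  filter_upwards [hz] with u hu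
  refine ⟨Function.update_self .., ?_⟩
  change (fun i => π (Function.update u j w i)) ∈ PG n X
  have e : (fun i => π (Function.update u j w i)) = z := by
    funext i
    by_cases h : i = j
    · subst h; rw [Function.update_self, hz2.1]
    · rw [Function.update_of_ne h]; exact hu i (Finset.mem_erase.2 ⟨h, Finset.mem_univ _⟩)
  rw [e]; exact hz2.2

omit [TopologicalSpace X] [CS X] [Sys X] [TopologicalSpace O] [CS O] [Sys O] in
theorem kap_int (j : Fin n) (w : O) (G : (Fin n → O) → ℝ) (hG : Measurable G) :
    ∫ u, G u ∂kap π η K j w =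
      ∫ u, G (Function.update u j w) ∂lif η (K j (π w) : Measure (Fin n → X)) :=
  integral_map (up_meas j w).aemeasurable hG.aestronglyMeasurable

theorem kap_equi (hQFM : S_QFM) (hQFD : S_QFD) (hL : Lft π lam η) (hK : CLaw n lam c P K)
    (j : Fin n) (w : O) (m : ℤ) :
    kap π η K j (sh m w) = (kap π η K j w).map fun u i => sh m (u i) := by
  have hp1 := kap_prob (K := K) hQFM hL j (sh m w)
  have hp2 := kap_prob (K := K) hQFM hL j w
  have hsm : Measurable fun (u : Fin n → O) (i : Fin n) => sh m (u i) :=
    (continuous_pi fun i => (sh_cont m).comp (continuous_apply i)).measurable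
  have hp3 : IsProbabilityMeasure ((kap π η K j w).map fun u i => sh m (u i)) :=
    Measure.isProbabilityMeasure_map hsm.aemeasurable
  ext B hB
  have hG : Measurable (B.indicator (1 : (Fin n → O) → ℝ)) := measurable_one.indicator hB
  have key : ∫ u, B.indicator (1 : (Fin n → O) → ℝ) u ∂kap π η K j (sh m w) =
      ∫ u, B.indicator (1 : (Fin n → O) → ℝ) u ∂((kap π η K j w).map fun u i => sh m (u i)) := by
    rw [kap_int j (sh m w) _ hG, integral_map hsm.aemeasurable hG.aestronglyMeasurable,
      kap_int j w (fun u => B.indicator (1 : (Fin n → O) → ℝ) (fun i => sh m (u i)))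
        (hG.comp hsm), hL.equi, hK.equi]
    have h2 := (hQFD X O (Fin n) π lam η hL c (Finset.univ.erase j) (K j (π w))
      inferInstance (fun i hi => hK.dom j i (Finset.ne_of_mem_erase hi) (π w))).2
      (fun u => B.indicator (1 : (Fin n → O) → ℝ) (Function.update u j (sh m w)))
      (hG.comp (up_meas j _)) ⟨1, fun u => by
        beta_reduce
        by_cases h : Function.update u j (sh m w) ∈ B
        · rw [indicator_of_mem h]; simp
        · rw [indicator_of_notMem h]; simp⟩ ?_ m
    · rw [h2]
      refine integral_congr_ae (ae_of_all _ fun u => ?_)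
      change B.indicator 1 (Function.update (fun i => sh m (u i)) j (sh m w)) =
        B.indicator 1 (fun i => sh m (Function.update u j w i))
      congr 1
      funext i
      by_cases h : i = j
      · subst h; simp
      · simp [h]
    · intro u u' h
      have e : Function.update u j (sh m w) = Function.update u' j (sh m w) := by
        funext i
        by_cases hi : i = j
        · subst hi; simp
        · rw [Function.update_of_ne hi, Function.update_of_ne hi]
          exact h i (by simp [hi])
      simp only [e]
  rw [integral_indicator_one hB, integral_indicator_one hB] at key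
  have := congrArg ENNReal.ofReal key
  rwa [ofReal_measureReal, ofReal_measureReal] at this

/-- the kernel of the lifted laws -/
noncomputable def LF (hQFM : S_QFM) (hL : Lft π lam η) (hK : CLaw n lam c P K) (j : Fin n) :
    Kernel X (Fin n → O) :=
  haveI := hL.mrk
  (PIk η (hQFM X O (Fin n) η).1) ∘ₖ (KK hK j)

omit [CS O] in
theorem LF_apply (hQFM : S_QFM) (hL : Lft π lam η) (hK : CLaw n lam c P K) (j : Fin n) (x : X) :
    LF hQFM hL hK j x = lif η (K j x : Measure (Fin n → X)) := by
  unfold LF
  rw [Kernel.comp_apply]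
  rfl

theorem LF_markov (hQFM : S_QFM) (hL : Lft π lam η) (hK : CLaw n lam c P K) (j : Fin n) :
    IsMarkovKernel (LF hQFM hL hK j) := ⟨fun x => by
  have := hL.mrk
  rw [LF_apply]
  exact (hQFM X O (Fin n) η).2.1 (K j x) inferInstance⟩

omit [TopologicalSpace X] [CS X] [Sys X] [TopologicalSpace O] [CS O] [Sys O] in
theorem kap_apply (j : Fin n) (w : O) (B : Set (Fin n → O)) (hB : MeasurableSet B) :
    kap π η K j w B = lif η (K j (π w) : Measure (Fin n → X)) {u | Function.update u j w ∈ B} := by
  unfold kap
  rw [Measure.map_apply (up_meas j w) hB]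
  rfl

theorem kap_meas (hQFM : S_QFM) (hL : Lft π lam η) (hK : CLaw n lam c P K) (j : Fin n) :
    Measurable fun w => kap π η K j w := by
  refine Measure.measurable_of_measurable_coe _ fun B hB => ?_
  have := LF_markov hQFM hL hK j
  have h := Kernel.measurable_kernel_prodMk_left
    (κ := (LF hQFM hL hK j).comap π hL.cont.measurable) ((up2_meas j) hB)
  have e : (fun w => kap π η K j w B) = fun w =>
      (LF hQFM hL hK j).comap π hL.cont.measurable w
        (Prod.mk w ⁻¹' ((fun p : O × (Fin n → O) => Function.update p.2 j p.1) ⁻¹' B)) := by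
    funext w
    rw [kap_apply j w B hB, Kernel.comap_apply, LF_apply]
    rfl
  rw [e]
  exact h

/-- the kernel `kap j` -/
noncomputable def kapK (hQFM : S_QFM) (hL : Lft π lam η) (hK : CLaw n lam c P K) (j : Fin n) :
    Kernel O (Fin n → O) := ⟨fun w => kap π η K j w, kap_meas hQFM hL hK j⟩

theorem kapK_markov (hQFM : S_QFM) (hL : Lft π lam η) (hK : CLaw n lam c P K) (j : Fin n) :
    IsMarkovKernel (kapK hQFM hL hK j) := ⟨fun w => kap_prob hQFM hL j w⟩

theorem disint (hQPW : S_QPW) (hQFM : S_QFM) (hL : Lft π lam η) (hK : CLaw n lam c P K)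
    (j : Fin n) : (lam.bind η).bind (kapK hQFM hL hK j) = lif η P := by
  have := hL.mrk
  have := hL.prob
  ext B hB
  have hmk : Measurable fun w => kap π η K j w B :=
    (kapK hQFM hL hK j).measurable_coe hB
  have hmp : Measurable fun z : Fin n → X => (Measure.pi fun i => η (z i)) B :=
    (PIk η (hQFM X O (Fin n) η).1).measurable_coe hB
  rw [Measure.bind_apply hB (Kernel.aemeasurable _)]
  have e1 : ∫⁻ w, (kapK hQFM hL hK j) w B ∂(lam.bind η) =
      ∫⁻ x, ∫⁻ w, kap π η K j w B ∂η x ∂lam :=
    Measure.lintegral_bind (Kernel.aemeasurable _) hmk.aemeasurable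
  rw [e1, (hQFM X O (Fin n) η).2.2.1 P B hB]
  conv_rhs => rw [← hK.dis j]
  rw [Measure.lintegral_bind (meas_K hK j).aemeasurable hmp.aemeasurable]
  refine lintegral_congr_ae ?_
  filter_upwards [hL.pos] with x hx
  have hS : MeasurableSet {q : (O × (Fin n → X)) × (Fin n → O) |
      Function.update q.2 j q.1.1 ∈ B} :=
    ((up2_meas j).comp ((measurable_fst.comp measurable_fst).prodMk measurable_snd)) hB
  have hjm : Measurable fun q : O × (Fin n → X) =>
      (Measure.pi fun i => η (q.2 i)) {u | Function.update u j q.1 ∈ B} :=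
    Kernel.measurable_kernel_prodMk_left
      (κ := (PIk η (hQFM X O (Fin n) η).1).comap
        (fun q : O × (Fin n → X) => q.2) measurable_snd) hS
  calc ∫⁻ w, kap π η K j w B ∂η x
      = ∫⁻ w, ∫⁻ z, (Measure.pi fun i => η (z i)) {u | Function.update u j w ∈ B}
          ∂(K j x : Measure (Fin n → X)) ∂η x := by
        refine lintegral_congr_ae ?_
        filter_upwards [hx] with w hw
        rw [kap_apply j w B hB, hw]
        exact (hQFM X O (Fin n) η).2.2.1 _ _ ((up_meas j w) hB)
    _ = ∫⁻ z, ∫⁻ w, (Measure.pi fun i => η (z i)) {u | Function.update u j w ∈ B} ∂η x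
          ∂(K j x : Measure (Fin n → X)) :=
        lintegral_lintegral_swap hjm.aemeasurable
    _ = ∫⁻ z, (Measure.pi fun i => η (z i)) B ∂(K j x : Measure (Fin n → X)) := by
        refine lintegral_congr_ae ?_
        filter_upwards [hK.car j x] with z hz
        rw [prod_fact hQPW (fun i => η (z i)) j B hB, hz.1]

end main

end I_QK1

open I_QK1 in
theorem QK1_pf (hQPW : S_QPW) (hQFM : S_QFM) (hQFD : S_QFD) : S_QK1 := by
  intro X O _ _ _ _ _ _ _ _ n π lam η c P K hL hK
  have := hL.mrk
  have := hL.prob
  have := hK.prob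
  have hbp : IsProbabilityMeasure (lam.bind η) := by
    constructor
    rw [Measure.bind_apply MeasurableSet.univ (Kernel.aemeasurable _)]
    simp
  have hlp : IsProbabilityMeasure (lif η P) := (hQFM X O (Fin n) η).2.1 P inferInstance
  refine ⟨fun j w => kap_prob hQFM hL j w, fun j w => kap_car hQFM hQFD hL hK j w,
    fun j w G hG => kap_int j w G hG, fun j w m => kap_equi hQFM hQFD hL hK j w m,
    fun j G hG hGb => ⟨?_, ?_⟩, ⟨hlp, ?_⟩, ⟨hbp, fun m => ?_⟩,
    closed_CC hL, fun u hu m => sh_CC hL u hu m⟩
  · exact (StronglyMeasurable.integral_kernel (κ := kapK hQFM hL hK j)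
      hG.stronglyMeasurable).measurable
  · have hd := disint hQPW hQFM hL hK j
    obtain ⟨b, hb⟩ := hGb
    have hint : Integrable G ((lam.bind η).bind (kapK hQFM hL hK j)) := by
      rw [hd]
      exact Integrable.of_bound hG.aestronglyMeasurable b (ae_of_all _ fun u => hb u)
    rw [← hd, integral_bindK _ _ _ hint]
    rfl
  · refine ((hQFM X O (Fin n) η).2.2.2.2.1 P _ (closed_CC hL).measurableSet).2 ?_
    have h1 := (hQFD X O (Fin n) π lam η hL 1 Finset.univ P inferInstance (fun i _ => by
      rw [marg hK i, one_smul])).1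
    filter_upwards [h1, hK.carP] with z hz hz2
    filter_upwards [hz] with u hu
    change (fun i => π (u i)) ∈ PG n X
    have e : (fun i => π (u i)) = z := funext fun i => hu i (Finset.mem_univ i)
    rw [e]; exact hz2
  · ext B hB
    have hsm : Measurable (sh m : O → O) := (sh_cont m).measurable
    have hsx : Measurable (sh m : X → X) := (sh_cont m).measurable
    rw [Measure.map_apply hsm hB, Measure.bind_apply (hsm hB) (Kernel.aemeasurable _),
      Measure.bind_apply hB (Kernel.aemeasurable _)]
    conv_rhs => rw [← hL.ilam m]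
    rw [lintegral_map (η.measurable_coe hB) hsx]
    refine lintegral_congr_ae ?_
    filter_upwards [hL.inv m] with x hx
    rw [hx, Measure.map_apply hsm hB]

end Pool.Agent.Work.MP_69fea5_lc.W3
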