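import Pool.Agent.Work.MP_69fea5_lc.W3.StmtsQ

/-!
# Block [69fea5 W3 Q], item QK3: constants on minimal systems
-/

set_option autoImplicit false

namespace Pool.Agent.Work.MP_69fea5_lc.W3

open MeasureTheory ProbabilityTheory Topology Set Filter
open scoped NNReal ENNReal
open Pool.Agent.Work.MP_69fea5_lc.AK

namespace I_QK3

/-- a continuous function on a minimal system which is invariant under `sh 1` is constant -/
theorem const {O : Type} [TopologicalSpace O] [Sys O] (hm : MinSet (univ : Set O)) (a : O → ℝ)
    (ha : Continuous a) (h1 : ∀ w, a (sh 1 w) = a w) (w w' : O) : a w = a w' := by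
  have hall : ∀ (m : ℤ) (w : O), a (sh m w) = a w := by
    intro m
    induction m using Int.induction_on with
    | zero => intro w; rw [sh_zero]
    | succ i ih =>
      intro w
      rw [add_comm, sh_add, h1, ih]
    | pred i ih =>
      intro w
      have e : sh (-(i : ℤ)) w = sh 1 (sh (-(i : ℤ) - 1) w) := by
        rw [← sh_add]
        congr 1
        ring
      rw [← h1 (sh (-(i : ℤ) - 1) w), ← e, ih]
  have hL := hm.min {v | a v = a w'} (isClosed_eq ha continuous_const) ⟨w', rfl⟩
    (fun n x hx => by
      change a (sh n x) = a w'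
      rw [hall]
      exact hx) (subset_univ _)
  have : w ∈ {v | a v = a w'} := by
    rw [hL]
    exact mem_univ _
  exact this

end I_QK3

/-- [QK3] -/
theorem QK3_pf (hQK1 : S_QK1) (hQK2 : S_QK2) : S_QK3 := by
  intro X O _ _ _ _ _ _ _ _ n π lam η c P K hm hL hC g hg hinv j w
  obtain ⟨k1, k2, -, k4, k5, -, k7, k8⟩ := hQK1 X O n π lam η c P K hL hC
  have hcont := (hQK2 X O n π lam η c P K hL hC g hg j).1
  have hgm : Measurable g := hg.measurable
  have hbd : Bd g := by
    obtain ⟨b, hb⟩ := (isCompact_univ (X := Fin n → O)).exists_bound_of_continuousOn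
      hg.continuousOn
    exact ⟨b, fun u => by simpa [Real.norm_eq_abs] using hb u (mem_univ u)⟩
  set a : O → ℝ := fun w => ∫ u, g u ∂kap π η K j w with ha
  have hsh : ∀ w, a (sh 1 w) = a w := by
    intro w
    have hmeas : Measurable fun (u : Fin n → O) (i : Fin n) => sh (1 : ℤ) (u i) :=
      measurable_pi_lambda _ fun i => (sh_cont (X := O) 1).measurable.comp (measurable_pi_apply i)
    simp only [ha]
    rw [k4 j w 1, integral_map hmeas.aemeasurable hgm.aestronglyMeasurable]
    refine integral_congr_ae ?_
    filter_upwards [k2 j w] with u hu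
    exact hinv u hu.2
  have hconst : ∀ v, a v = a w := fun v => I_QK3.const hm a hcont hsh v w
  have h5 := (k5 j g hgm hbd).2
  have := k7.1
  rw [← h5]
  change a w = ∫ v, a v ∂(lam.bind η)
  simp only [hconst, integral_const, probReal_univ, one_smul]

end Pool.Agent.Work.MP_69fea5_lc.W3
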