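import Pool.Agent.Work.MP_69fea5_lc.W3.StmtsQ

/-!
# Block [69fea5 W3 Q], item QMN: a minimizing sequence
-/

set_option autoImplicit false

namespace Pool.Agent.Work.MP_69fea5_lc.W3

open MeasureTheory ProbabilityTheory Topology Set Filter
open scoped NNReal ENNReal
open Pool.Agent.Work.MP_69fea5_lc.AK

namespace I_QMN

variable {Ω : Type}

theorem bd_add {F G : Ω → ℝ} (hF : Bd F) (hG : Bd G) : Bd fun u => F u + G u := by
  obtain ⟨a, ha⟩ := hF
  obtain ⟨b, hb⟩ := hG
  exact ⟨a + b, fun u => (abs_add_le _ _).trans (add_le_add (ha u) (hb u))⟩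

theorem bd_mul {F G : Ω → ℝ} (hF : Bd F) (hG : Bd G) : Bd fun u => F u * G u := by
  obtain ⟨a, ha⟩ := hF
  obtain ⟨b, hb⟩ := hG
  refine ⟨a * b, fun u => ?_⟩
  rw [abs_mul]
  exact mul_le_mul (ha u) (hb u) (abs_nonneg _) ((abs_nonneg _).trans (ha u))

theorem bd_smul {F : Ω → ℝ} (a : ℝ) (hF : Bd F) : Bd fun u => a * F u := by
  obtain ⟨b, hb⟩ := hF
  refine ⟨|a| * b, fun u => ?_⟩
  rw [abs_mul]
  exact mul_le_mul_of_nonneg_left (hb u) (abs_nonneg _)

theorem bd_sub {F G : Ω → ℝ} (hF : Bd F) (hG : Bd G) : Bd fun u => F u - G u := by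
  obtain ⟨a, ha⟩ := hF
  obtain ⟨b, hb⟩ := hG
  exact ⟨a + b, fun u => (abs_sub _ _).trans (add_le_add (ha u) (hb u))⟩

variable [MeasurableSpace Ω] (Λ : Measure Ω) [IsProbabilityMeasure Λ]

theorem intg {F : Ω → ℝ} (hm : Measurable F) (hb : Bd F) : Integrable F Λ := by
  obtain ⟨b, hb⟩ := hb
  exact Integrable.of_bound hm.aestronglyMeasurable b (Eventually.of_forall fun u => by
    rw [Real.norm_eq_abs]; exact hb u)

theorem min_seq (I : (Ω → ℝ) → Prop) (h0 : I fun _ => 0)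
    (hadd : ∀ g h, I g → I h → I fun u => g u + h u) (hsm : ∀ (a : ℝ) g, I g → I fun u => a * g u)
    (htr : ∀ g, I g → I fun u => max 0 (min 1 (g u))) (hmeas : ∀ g, I g → Measurable g)
    (hbd : ∀ g, I g → Bd g) (f : Ω → ℝ) (hf : Measurable f) (hf01 : ∀ u, 0 ≤ f u ∧ f u ≤ 1) :
    ∃ g : ℕ → Ω → ℝ, (∀ k, I (g k)) ∧ (∀ k u, 0 ≤ g k u ∧ g k u ≤ 1) ∧
      (∀ ε : ℝ, 0 < ε → ∃ N, ∀ k, N ≤ k → ∀ l, N ≤ l → ∫ u, |g k u - g l u| ∂Λ ≤ ε) ∧
      ∀ h, I h → Tendsto (fun k => ∫ u, (f u - g k u) * h u ∂Λ) atTop (𝓝 0) := by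
  have hfb : Bd f := ⟨1, fun u => abs_le.2 ⟨by linarith [(hf01 u).1], (hf01 u).2⟩⟩
  let D : (Ω → ℝ) → ℝ := fun g => ∫ u, (f u - g u) ^ 2 ∂Λ
  have hD0 : ∀ g, 0 ≤ D g := fun g => integral_nonneg fun u => sq_nonneg _
  let S : Set ℝ := {x | ∃ g, I g ∧ D g = x}
  have hSne : S.Nonempty := ⟨_, _, h0, rfl⟩
  have hSb : BddBelow S := ⟨0, by rintro _ ⟨g, -, rfl⟩; exact hD0 g⟩
  set d := sInf S with hd
  have hdle : ∀ g, I g → d ≤ D g := fun g hg => csInf_le hSb ⟨g, hg, rfl⟩
  have hex : ∀ k : ℕ, ∃ g, I g ∧ D g < d + 1 / ((k : ℝ) + 1) := by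
    intro k
    have h1 : d < d + 1 / ((k : ℝ) + 1) := by
      have : (0 : ℝ) < 1 / ((k : ℝ) + 1) := by positivity
      linarith
    obtain ⟨x, ⟨g, hg, rfl⟩, hx⟩ := exists_lt_of_csInf_lt hSne h1
    exact ⟨g, hg, hx⟩
  choose g0 hg0 hg0d using hex
  let g : ℕ → Ω → ℝ := fun k u => max 0 (min 1 (g0 k u))
  have hgI : ∀ k, I (g k) := fun k => htr _ (hg0 k)
  have hg01 : ∀ k u, 0 ≤ g k u ∧ g k u ≤ 1 := fun k u =>
    ⟨le_max_left _ _, max_le zero_le_one (min_le_left _ _)⟩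
  have hsqi : ∀ p, I p → Integrable (fun u => (f u - p u) ^ 2) Λ := by
    intro p hp
    have hm : Measurable fun u => (f u - p u) ^ 2 := (hf.sub (hmeas p hp)).pow_const 2
    refine intg Λ hm ?_
    have := bd_mul (bd_sub hfb (hbd p hp)) (bd_sub hfb (hbd p hp))
    simpa [sq] using this
  have hgd : ∀ k, D (g k) < d + 1 / ((k : ℝ) + 1) := by
    intro k
    refine lt_of_le_of_lt ?_ (hg0d k)
    refine integral_mono (hsqi _ (hgI k)) (hsqi _ (hg0 k)) fun u => ?_
    have h1 : |f u - g k u| ≤ |f u - g0 k u| := by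
      obtain ⟨ha, hb⟩ := hf01 u
      change |f u - max 0 (min 1 (g0 k u))| ≤ _
      rcases le_total (g0 k u) 0 with h | h
      · rw [min_eq_right (by linarith), max_eq_left h, abs_of_nonneg (by linarith),
          abs_of_nonneg (by linarith)]
        linarith
      · rcases le_total (g0 k u) 1 with h' | h'
        · rw [min_eq_right h', max_eq_right h]
        · rw [min_eq_left h', max_eq_right zero_le_one, abs_of_nonpos (by linarith),
            abs_of_nonpos (by linarith)]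
          linarith
    exact sq_le_sq.2 h1
  have hgm : ∀ k, Measurable (g k) := fun k => hmeas _ (hgI k)
  have hgb : ∀ k, Bd (g k) := fun k => hbd _ (hgI k)
  -- parallelogram
  have hpar : ∀ k l, ∫ u, (g k u - g l u) ^ 2 ∂Λ ≤ 2 / ((k : ℝ) + 1) + 2 / ((l : ℝ) + 1) := by
    intro k l
    let p : Ω → ℝ := fun u => (1 / 2 : ℝ) * (g k u + g l u)
    have hp : I p := hsm _ _ (hadd _ _ (hgI k) (hgI l))
    have e : ∫ u, (g k u - g l u) ^ 2 ∂Λ = 2 * D (g k) + 2 * D (g l) - 4 * D p := by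
      have h1 : ∀ u, (g k u - g l u) ^ 2 =
          2 * (f u - g k u) ^ 2 + 2 * (f u - g l u) ^ 2 - 4 * (f u - p u) ^ 2 := by
        intro u; simp only [p]; ring
      simp only [h1]
      rw [integral_sub, integral_add, integral_const_mul, integral_const_mul, integral_const_mul]
      · exact (hsqi _ (hgI k)).const_mul 2
      · exact (hsqi _ (hgI l)).const_mul 2
      · exact ((hsqi _ (hgI k)).const_mul 2).add ((hsqi _ (hgI l)).const_mul 2)
      · exact (hsqi _ hp).const_mul 4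
    have h2 := hdle p hp
    have h3 := hgd k
    have h4 := hgd l
    have h5 : 2 / ((k : ℝ) + 1) = 2 * (1 / ((k : ℝ) + 1)) := by ring
    have h6 : 2 / ((l : ℝ) + 1) = 2 * (1 / ((l : ℝ) + 1)) := by ring
    rw [e, h5, h6]
    linarith
  have hlim : ∀ ε : ℝ, 0 < ε → ∃ N : ℕ, ∀ k : ℕ, N ≤ k → 1 / ((k : ℝ) + 1) < ε := by
    intro ε hε
    obtain ⟨N, hN⟩ := exists_nat_one_div_lt hε
    refine ⟨N, fun k hk => lt_of_le_of_lt ?_ hN⟩
    exact one_div_le_one_div_of_le (by positivity) (by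
      have : (N : ℝ) ≤ k := by exact_mod_cast hk
      linarith)
  refine ⟨g, hgI, hg01, ?_, ?_⟩
  · intro ε hε
    obtain ⟨N, hN⟩ := hlim (ε ^ 2 / 4) (by positivity)
    refine ⟨N, fun k hk l hl => ?_⟩
    have h1 : ∀ u, |g k u - g l u| ≤ ε / 2 + (1 / (2 * ε)) * (g k u - g l u) ^ 2 := by
      intro u
      have h2 : 0 ≤ (|g k u - g l u| - ε) ^ 2 := sq_nonneg _
      have h3 : |g k u - g l u| ^ 2 = (g k u - g l u) ^ 2 := sq_abs _
      have h4 : (1 / (2 * ε)) * (|g k u - g l u| - ε) ^ 2 =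
          (1 / (2 * ε)) * (g k u - g l u) ^ 2 - |g k u - g l u| + ε / 2 := by
        rw [← h3]; field_simp; ring
      have h5 : 0 ≤ (1 / (2 * ε)) * (|g k u - g l u| - ε) ^ 2 := by positivity
      linarith
    have hm1 : Measurable fun u => g k u - g l u := (hgm k).sub (hgm l)
    have hb1 : Bd fun u => g k u - g l u := bd_sub (hgb k) (hgb l)
    have hi1 : Integrable (fun u => |g k u - g l u|) Λ := (intg Λ hm1 hb1).abs
    have hi2 : Integrable (fun u => (g k u - g l u) ^ 2) Λ := by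
      refine intg Λ (hm1.pow_const 2) ?_
      have := bd_mul hb1 hb1
      simpa [sq] using this
    have h6 : ∫ u, |g k u - g l u| ∂Λ ≤
        ∫ u, (ε / 2 + (1 / (2 * ε)) * (g k u - g l u) ^ 2) ∂Λ :=
      integral_mono hi1 ((integrable_const _).add (hi2.const_mul _)) h1
    rw [integral_add (integrable_const _) (hi2.const_mul _), integral_const_mul] at h6
    simp only [integral_const, probReal_univ, one_smul] at h6
    have h7 := hpar k l
    have h8 := hN k hk
    have h9 := hN l hl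
    have h10 : 2 / ((k : ℝ) + 1) = 2 * (1 / ((k : ℝ) + 1)) := by ring
    have h11 : 2 / ((l : ℝ) + 1) = 2 * (1 / ((l : ℝ) + 1)) := by ring
    have h12 : ∫ u, (g k u - g l u) ^ 2 ∂Λ ≤ ε ^ 2 := by
      rw [h10, h11] at h7; linarith
    have h13 : (1 / (2 * ε)) * ∫ u, (g k u - g l u) ^ 2 ∂Λ ≤ (1 / (2 * ε)) * ε ^ 2 :=
      mul_le_mul_of_nonneg_left h12 (by positivity)
    have h14 : (1 / (2 * ε)) * ε ^ 2 = ε / 2 := by field_simp
    linarith
  · intro h hh
    rw [Metric.tendsto_atTop]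
    intro ε hε
    have hhm := hmeas h hh
    have hhb := hbd h hh
    set H := ∫ u, h u ^ 2 ∂Λ with hH
    have hH0 : 0 ≤ H := integral_nonneg fun u => sq_nonneg _
    have hexp : ∀ (k : ℕ) (t : ℝ), D (fun u => g k u + t * h u) =
        D (g k) - 2 * t * (∫ u, (f u - g k u) * h u ∂Λ) + t ^ 2 * H := by
      intro k t
      have h1 : ∀ u, (f u - (g k u + t * h u)) ^ 2 =
          (f u - g k u) ^ 2 - (2 * t) * ((f u - g k u) * h u) + t ^ 2 * h u ^ 2 := by
        intro u; ring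
      have hi1 : Integrable (fun u => (f u - g k u) * h u) Λ :=
        intg Λ ((hf.sub (hgm k)).mul hhm) (bd_mul (bd_sub hfb (hgb k)) hhb)
      have hi2 : Integrable (fun u => h u ^ 2) Λ := by
        refine intg Λ (hhm.pow_const 2) ?_
        have := bd_mul hhb hhb
        simpa [sq] using this
      change ∫ u, (f u - (g k u + t * h u)) ^ 2 ∂Λ = _
      simp only [h1]
      rw [integral_add, integral_sub, integral_const_mul, integral_const_mul]
      · exact hsqi _ (hgI k)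
      · exact hi1.const_mul _
      · exact (hsqi _ (hgI k)).sub (hi1.const_mul _)
      · exact hi2.const_mul _
    have hkey : ∀ (k : ℕ) (t : ℝ), 2 * t * (∫ u, (f u - g k u) * h u ∂Λ) ≤
        1 / ((k : ℝ) + 1) + t ^ 2 * H := by
      intro k t
      have h1 := hdle _ (hadd _ _ (hgI k) (hsm t h hh))
      rw [hexp k t] at h1
      have h2 := hgd k
      linarith
    set t := ε / (H + 1) with ht
    have ht0 : 0 < t := by positivity
    have htH : t * H ≤ ε := by
      rw [ht, div_mul_eq_mul_div, div_le_iff₀ (by linarith)]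
      nlinarith
    obtain ⟨N, hN⟩ := hlim (t * ε) (by positivity)
    refine ⟨N, fun k hk => ?_⟩
    have h1 := hkey k t
    have h2 := hkey k (-t)
    have h3 := hN k hk
    have h4 : t ^ 2 * H ≤ t * ε := by nlinarith
    rw [Real.dist_eq, sub_zero, abs_lt]
    constructor
    · by_contra hcon
      push Not at hcon
      nlinarith
    · by_contra hcon
      push Not at hcon
      nlinarith

end I_QMN

open I_QMN in
theorem QMN_pf (hQK1 : S_QK1) (hQK3 : S_QK3) (hQIS : S_QIS) : S_QMN := by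
  intro X O _ _ _ _ _ _ _ _ n π lam η c P K hmin hL hC R hR
  obtain ⟨hone, hadd, hsm⟩ := hQIS X O n π
  obtain ⟨-, -, -, -, -, ⟨hprob, -⟩, -⟩ := hQK1 X O n π lam η c P K hL hC
  obtain ⟨g, hg1, hg2, hg3, hg4⟩ := min_seq (lif η P) (ISO n π) (hone 0)
    (fun g h hg hh => (hadd g h hg hh).1) (fun a g hg => (hsm g hg).1 a)
    (fun g hg => (hsm g hg).2.1) (fun g hg => hg.cont.measurable) (fun g hg => (hsm g hg).2.2)
    (fun u => R.indicator 1 u) (measurable_one.indicator hR.measurableSet) (fun u => by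
      by_cases h : u ∈ R
      · simp [h]
      · simp [h])
  refine ⟨g, hg1, hg2, fun ε hε => ?_, hg4⟩
  obtain ⟨N, hN⟩ := hg3 ε hε
  refine ⟨N, fun k hk l hl j w => ?_⟩
  have h1 := hQK3 X O n π lam η c P K hmin hL hC (fun u => |g k u - g l u|)
    (((hg1 k).cont.sub (hg1 l).cont).abs) (fun u hu => by
      simp only [(hg1 k).inv u hu, (hg1 l).inv u hu]) j w
  rw [h1]
  exact hN k hk l hl

end Pool.Agent.Work.MP_69fea5_lc.W3
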