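import Pool.Agent.Work.MP_69fea5_lc.W3.StmtsQ

/-!
# Block [69fea5 W3 Q], item QOR: orthogonality
-/

set_option autoImplicit false

namespace Pool.Agent.Work.MP_69fea5_lc.W3

open MeasureTheory ProbabilityTheory Topology Set Filter TopologicalSpace
open scoped NNReal ENNReal
open Pool.Agent.Work.MP_69fea5_lc.AK

namespace I_QOR

section

variable {Ω : Type} [MeasurableSpace Ω] (Λ : Measure Ω) [IsProbabilityMeasure Λ]

theorem intb {f : Ω → ℝ} (hf : AEStronglyMeasurable f Λ) {b : ℝ} (hb : ∀ u, |f u| ≤ b) :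
    Integrable f Λ :=
  Integrable.of_bound hf b (Eventually.of_forall hb)

theorem abs_int_le {f : Ω → ℝ} {b : ℝ} (hb : ∀ᵐ u ∂Λ, |f u| ≤ b) : |∫ u, f u ∂Λ| ≤ b := by
  have h := norm_integral_le_of_norm_le_const (μ := Λ) (f := f) (C := b) hb
  rw [probReal_univ, mul_one] at h
  exact h

/-- a power of a small number -/
theorem tends_of_pow {x y : ℕ → ℝ} {m : ℕ} (hx : ∀ k, |x k| ^ m ≤ |y k|)
    (hy : Tendsto y atTop (𝓝 0)) : Tendsto x atTop (𝓝 0) := by
  rw [Metric.tendsto_atTop] at hy ⊢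
  intro ε hε
  obtain ⟨N, hN⟩ := hy (ε ^ m) (pow_pos hε m)
  refine ⟨N, fun k hk => ?_⟩
  have h1 := hN k hk
  rw [Real.dist_eq, sub_zero] at h1 ⊢
  exact lt_of_pow_lt_pow_left₀ m hε.le ((hx k).trans_lt h1)

end

section

variable {O : Type} [TopologicalSpace O] [MeasurableSpace O] [CS O] {n : ℕ}

theorem exists_bd (g : Fin n → O → ℝ) (hg : ∀ i, Continuous (g i)) :
    ∃ b : ℝ, 0 < b ∧ ∀ i w, |g i w| ≤ b := by
  have h1 : ∀ i, ∃ C : ℝ, ∀ w, |g i w| ≤ C := by
    intro i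
    obtain ⟨C, hC⟩ := isCompact_univ.exists_bound_of_continuousOn (hg i).continuousOn
    exact ⟨C, fun w => hC w (mem_univ w)⟩
  choose C hC using h1
  refine ⟨1 + ∑ i, |C i|, by positivity, fun i w => ?_⟩
  have h2 : |C i| ≤ ∑ i, |C i| :=
    Finset.single_le_sum (f := fun i => |C i|) (fun _ _ => abs_nonneg _) (Finset.mem_univ i)
  have h3 := hC i w
  have h4 := le_abs_self (C i)
  linarith

/-- products of bounded continuous functions -/
theorem prod_cont (Λ : Measure (Fin n → O)) [IsProbabilityMeasure Λ] (F : ℕ → (Fin n → O) → ℝ)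
    (h : ∀ φ : Fin n → O → ℝ, (∀ j, Measurable (φ j)) → (∀ j w, |φ j w| ≤ 1) →
      Tendsto (fun k => ∫ u, F k u * ∏ j, φ j (u j) ∂Λ) atTop (𝓝 0))
    (g : Fin n → O → ℝ) (hg : ∀ i, Continuous (g i)) :
    Tendsto (fun k => ∫ u, F k u * ∏ j, g j (u j) ∂Λ) atTop (𝓝 0) := by
  obtain ⟨b, hb, hgb⟩ := exists_bd g hg
  have h1 := (h (fun j w => g j w / b) (fun j => ((hg j).div_const b).measurable)
    (fun j w => by
      rw [abs_div, abs_of_pos hb, div_le_one hb]
      exact hgb j w)).const_mul (b ^ n)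
  rw [mul_zero] at h1
  refine h1.congr fun k => ?_
  rw [← integral_const_mul]
  refine integral_congr_ae (Eventually.of_forall fun u => ?_)
  have h2 : ∏ j, (g j (u j) / b) = (∏ j, g j (u j)) / b ^ n := by
    rw [Finset.prod_div_distrib, Finset.prod_const, Finset.card_univ, Fintype.card_fin]
  simp only [h2]
  field_simp

/-- all continuous functions -/
theorem all_cont (hQSW : S_QSW) (Λ : Measure (Fin n → O)) [IsProbabilityMeasure Λ]
    (F : ℕ → (Fin n → O) → ℝ) (hF : ∀ k, Continuous (F k)) (hF1 : ∀ k u, |F k u| ≤ 1)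
    (h : ∀ φ : Fin n → O → ℝ, (∀ j, Measurable (φ j)) → (∀ j w, |φ j w| ≤ 1) →
      Tendsto (fun k => ∫ u, F k u * ∏ j, φ j (u j) ∂Λ) atTop (𝓝 0))
    (Φ : (Fin n → O) → ℝ) (hΦ : Continuous Φ) :
    Tendsto (fun k => ∫ u, F k u * Φ u ∂Λ) atTop (𝓝 0) := by
  rw [Metric.tendsto_atTop]
  intro ε hε
  obtain ⟨m, a, g, hg, hap⟩ := hQSW O (Fin n) Finset.univ Φ hΦ
    (fun u u' huu => by rw [show u = u' from funext fun i => huu i (by simp)]) (ε / 2)
    (by positivity)
  have h1 : Tendsto (fun k => ∑ l, a l * ∫ u, F k u * ∏ i, g l i (u i) ∂Λ) atTop (𝓝 0) := by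
    have h2 := tendsto_finsetSum (Finset.univ : Finset (Fin m)) fun l _ =>
      (prod_cont Λ F h (g l) (hg l)).const_mul (a l)
    simpa using h2
  rw [Metric.tendsto_atTop] at h1
  obtain ⟨N, hN⟩ := h1 (ε / 2) (by positivity)
  refine ⟨N, fun k hk => ?_⟩
  have h3 := hN k hk
  rw [Real.dist_eq, sub_zero] at h3 ⊢
  have hgc : ∀ l, Continuous fun u : Fin n → O => ∏ i, g l i (u i) := fun l =>
    continuous_finsetProd _ fun i _ => (hg l i).comp (continuous_apply i)
  have ci : ∀ f : (Fin n → O) → ℝ, Continuous f → Integrable f Λ := by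
    intro f hf
    obtain ⟨C, hC⟩ := isCompact_univ.exists_bound_of_continuousOn hf.continuousOn
    exact intb Λ hf.measurable.aestronglyMeasurable fun u => hC u (mem_univ u)
  have h4 : ∫ u, F k u * Φ u ∂Λ = (∑ l, a l * ∫ u, F k u * ∏ i, g l i (u i) ∂Λ) +
      ∫ u, F k u * (Φ u - ∑ l, a l * ∏ i, g l i (u i)) ∂Λ := by
    have e1 : (∑ l, a l * ∫ u, F k u * ∏ i, g l i (u i) ∂Λ) =
        ∫ u, ∑ l, a l * (F k u * ∏ i, g l i (u i)) ∂Λ := by
      have i : ∀ l, Integrable (fun u => a l * (F k u * ∏ i, g l i (u i))) Λ := fun l =>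
        (ci _ ((hF k).mul (hgc l))).const_mul (a l)
      rw [integral_finsetSum _ fun l _ => i l]
      exact Finset.sum_congr rfl fun l _ => (integral_const_mul _ _).symm
    rw [e1, ← integral_add]
    · refine integral_congr_ae (Eventually.of_forall fun u => ?_)
      simp only [mul_sub, Finset.mul_sum]
      rw [← Finset.sum_congr rfl fun l _ => (show a l * (F k u * ∏ i, g l i (u i)) =
        F k u * (a l * ∏ i, g l i (u i)) by ring)]
      ring
    · exact integrable_finsetSum _ fun l _ => (ci _ ((hF k).mul (hgc l))).const_mul (a l)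
    · exact ci _ ((hF k).mul (hΦ.sub (continuous_finsetSum _ fun l _ =>
        continuous_const.mul (hgc l))))
  have h5 : |∫ u, F k u * (Φ u - ∑ l, a l * ∏ i, g l i (u i)) ∂Λ| ≤ ε / 2 := by
    refine abs_int_le Λ (Eventually.of_forall fun u => ?_)
    rw [abs_mul]
    calc |F k u| * |Φ u - ∑ l, a l * ∏ i, g l i (u i)| ≤ 1 * (ε / 2) :=
          mul_le_mul (hF1 k u) (hap u) (abs_nonneg _) zero_le_one
      _ = ε / 2 := one_mul _
  rw [h4]
  calc _ ≤ |∑ l, a l * ∫ u, F k u * ∏ i, g l i (u i) ∂Λ| +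
      |∫ u, F k u * (Φ u - ∑ l, a l * ∏ i, g l i (u i)) ∂Λ| := abs_add_le _ _
    _ < ε := by linarith

end

end I_QOR

open I_QOR in
theorem QOR_pf (hQSW : S_QSW) (hQK1 : S_QK1) (hQD2 : S_QD2) (hQDU : S_QDU) (hQC3 : S_QC3)
    (hQDL : S_QDL) : S_QOR := by
  intro X O _ _ _ _ _ _ _ _ n π lam η c P K Pc Kc hn hL hC hQ F hF hF1 hcau hinv horth
  have := hL.mrk
  obtain ⟨-, -, -, -, k5, ⟨k6, k6'⟩, ⟨k7, -⟩, ⟨k8, -⟩⟩ := hQK1 X O n π lam η c P K hL hC
  obtain ⟨Δ, hΔ, hΔc⟩ := hQDL X O n π lam η c P K Pc Kc hn hL hC hQ F hF hF1 hcau hinv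
  set Λ : Measure (Fin n → O) := lif η P with hΛ
  have ci : ∀ f : (Fin n → O) → ℝ, Continuous f → Integrable f Λ := by
    intro f hf
    obtain ⟨C, hC⟩ := isCompact_univ.exists_bound_of_continuousOn hf.continuousOn
    exact intb Λ hf.measurable.aestronglyMeasurable fun u => hC u (mem_univ u)
  -- the dual functions
  have hdm : ∀ k, AEStronglyMeasurable (dua π η Kc (F k)) Λ := by
    intro k
    have h1 := (hQD2 X O n π lam η c P K Pc Kc hL hC hQ (F k) (hF k)).1
    have h2 := h1.aestronglyMeasurable (μ := Λ) k8.measurableSet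
    rwa [Measure.restrict_eq_self_of_ae_mem k6'] at h2
  have hdb : ∀ k u, |dua π η Kc (F k) u| ≤ 1 := fun k =>
    (hQD2 X O n π lam η c P K Pc Kc hL hC hQ (F k) (hF k)).2 (hF1 k)
  have hd0 : Tendsto (fun k => ∫ u, F k u * dua π η Kc (F k) u ∂Λ) atTop (𝓝 0) := by
    have h1 := horth Δ hΔ
    rw [Metric.tendsto_atTop] at h1 ⊢
    intro ε hε
    obtain ⟨N1, hN1⟩ := h1 (ε / 2) (by positivity)
    obtain ⟨N2, hN2⟩ := hΔc (ε / 2) (by positivity)
    refine ⟨max N1 N2, fun k hk => ?_⟩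
    have a1 := hN1 k ((le_max_left _ _).trans hk)
    have a2 := hN2 k ((le_max_right _ _).trans hk)
    rw [Real.dist_eq, sub_zero] at a1 ⊢
    have i1 : Integrable (fun u => F k u * Δ u) Λ := ci _ ((hF k).mul hΔ.cont)
    have i2 : Integrable (fun u => F k u * dua π η Kc (F k) u) Λ :=
      intb Λ ((hF k).measurable.aestronglyMeasurable.mul (hdm k)) (b := 1) fun u => by
        rw [abs_mul]
        exact mul_le_one₀ (hF1 k u) (abs_nonneg _) (hdb k u)
    have h4 : ∫ u, F k u * dua π η Kc (F k) u ∂Λ = ∫ u, F k u * Δ u ∂Λ +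
        ∫ u, F k u * (dua π η Kc (F k) u - Δ u) ∂Λ := by
      have e1 : ∫ u, F k u * (dua π η Kc (F k) u - Δ u) ∂Λ =
          ∫ u, (F k u * dua π η Kc (F k) u - F k u * Δ u) ∂Λ :=
        integral_congr_ae (Eventually.of_forall fun u => mul_sub _ _ _)
      rw [e1, integral_sub i2 i1]
      ring
    have h5 : |∫ u, F k u * (dua π η Kc (F k) u - Δ u) ∂Λ| ≤ ε / 2 := by
      refine abs_int_le Λ ?_
      filter_upwards [k6'] with u hu
      rw [abs_mul]
      calc |F k u| * |dua π η Kc (F k) u - Δ u| ≤ 1 * (ε / 2) :=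
            mul_le_mul (hF1 k u) (a2 u hu) (abs_nonneg _) zero_le_one
        _ = ε / 2 := one_mul _
    rw [h4]
    calc _ ≤ |∫ u, F k u * Δ u ∂Λ| + |∫ u, F k u * (dua π η Kc (F k) u - Δ u) ∂Λ| :=
          abs_add_le _ _
      _ < ε := by linarith
  -- products
  have hprod : ∀ φ : Fin n → O → ℝ, (∀ j, Measurable (φ j)) → (∀ j w, |φ j w| ≤ 1) →
      Tendsto (fun k => ∫ u, F k u * ∏ j, φ j (u j) ∂Λ) atTop (𝓝 0) := by
    intro φ hφ hφ1
    refine tends_of_pow (m := 2 ^ n) (fun k => ?_) hd0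
    have h1 := hQC3 X O n lam η c P K Pc Kc hC hQ (F k) φ (hF k).measurable (hF1 k) hφ hφ1
    rw [hQDU X O n π lam η c P K Pc Kc hL hC hQ (F k) (hF k)] at h1
    exact h1
  have hall := all_cont hQSW Λ F hF hF1 hprod
  -- the conclusion
  rw [Metric.tendsto_atTop]
  intro ε hε
  obtain ⟨N, hN⟩ := hcau (ε / 2) (by positivity)
  have h1 := hall (F N) (hF N)
  rw [Metric.tendsto_atTop] at h1
  obtain ⟨N', hN'⟩ := h1 (ε / 2) (by positivity)
  refine ⟨max N N', fun k hk => ?_⟩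
  have hk1 : N ≤ k := (le_max_left _ _).trans hk
  have a1 := hN' k ((le_max_right _ _).trans hk)
  rw [Real.dist_eq, sub_zero] at a1 ⊢
  have hsn := hN k hk1 N le_rfl
  have hdc : Continuous fun u => |F k u - F N u| := ((hF k).sub (hF N)).abs
  have h2 : ∫ u, |F k u - F N u| ∂Λ ≤ ε / 2 := by
    have h3 := (k5 ⟨0, hn⟩ (fun u => |F k u - F N u|) hdc.measurable ⟨2, fun u => by
      rw [abs_abs]
      calc |F k u - F N u| ≤ |F k u| + |F N u| := abs_sub _ _
        _ ≤ 2 := by linarith [hF1 k u, hF1 N u]⟩)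
    rw [← h3.2]
    have h4 := abs_int_le (lam.bind η) (f := fun w => ∫ u, |F k u - F N u| ∂kap π η K ⟨0, hn⟩ w)
      (b := ε / 2) (Eventually.of_forall fun w => by
        rw [abs_of_nonneg (integral_nonneg fun u => abs_nonneg _)]
        exact hsn ⟨0, hn⟩ w)
    exact (le_abs_self _).trans h4
  have h5 : ∫ u, F k u ^ 2 ∂Λ = ∫ u, F k u * F N u ∂Λ + ∫ u, F k u * (F k u - F N u) ∂Λ := by
    have i1 : Integrable (fun u => F k u * F N u) Λ := ci _ ((hF k).mul (hF N))
    have i2 : Integrable (fun u => F k u * (F k u - F N u)) Λ :=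
      ci _ ((hF k).mul ((hF k).sub (hF N)))
    rw [← integral_add i1 i2]
    refine integral_congr_ae (Eventually.of_forall fun u => ?_)
    simp only
    ring
  have h6 : |∫ u, F k u * (F k u - F N u) ∂Λ| ≤ ε / 2 := by
    refine (abs_integral_le_integral_abs).trans (le_trans ?_ h2)
    refine integral_mono (ci _ ((hF k).mul ((hF k).sub (hF N))).abs) (ci _ hdc) fun u => ?_
    simp only [abs_mul]
    exact mul_le_of_le_one_left (abs_nonneg _) (hF1 k u)
  rw [h5]
  calc _ ≤ |∫ u, F k u * F N u ∂Λ| + |∫ u, F k u * (F k u - F N u) ∂Λ| := abs_add_le _ _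
    _ < ε := by linarith

end Pool.Agent.Work.MP_69fea5_lc.W3
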