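import Pool.Agent.Work.MP_69fea5_lc.W3.StmtsQ

/-!
# Block [69fea5 W3 Q]: item QPW (product measures)
-/

set_option autoImplicit false

namespace Pool.Agent.Work.MP_69fea5_lc.W3

open MeasureTheory ProbabilityTheory Topology Set Filter TopologicalSpace
open scoped NNReal ENNReal
open Pool.Agent.Work.MP_69fea5_lc.AK

namespace I_QPW

lemma pw_mem {V O : Type} {B : Set V} (a b : V → O) {v : V} (h : v ∈ B) : pw B a b v = a v := by
  unfold pw
  exact if_pos h

lemma pw_not {V O : Type} {B : Set V} (a b : V → O) {v : V} (h : v ∉ B) : pw B a b v = b v := by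
  unfold pw
  exact if_neg h

lemma meas_pw {V O : Type} [MeasurableSpace O] (B : Set V) :
    Measurable fun p : (V → O) × (V → O) => pw B p.1 p.2 := by
  rw [measurable_pi_iff]
  intro v
  by_cases h : v ∈ B
  · have : (fun p : (V → O) × (V → O) => pw B p.1 p.2 v) = fun p => p.1 v := by
      funext p
      exact pw_mem _ _ h
    rw [this]
    exact (measurable_pi_apply v).comp measurable_fst
  · have : (fun p : (V → O) × (V → O) => pw B p.1 p.2 v) = fun p => p.2 v := by
      funext p
      exact pw_not _ _ h
    rw [this]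
    exact (measurable_pi_apply v).comp measurable_snd

lemma meas_comp {V V' O : Type} [MeasurableSpace O] (e : V' → V) :
    Measurable fun (u : V → O) i => u (e i) :=
  measurable_pi_iff.2 fun i => measurable_pi_apply (e i)

/-- (1) -/
lemma one {O V V' : Type} [MeasurableSpace O] [Fintype V] [Fintype V'] (e : V' → V)
    (he : Function.Injective e) (μ : V → Measure O) (hμ : ∀ a, IsProbabilityMeasure (μ a)) :
    (Measure.pi μ).map (fun (u : V → O) i => u (e i)) = Measure.pi fun i => μ (e i) := by
  symm
  apply Measure.pi_eq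
  intro s hs
  rw [Measure.map_apply (meas_comp e) (MeasurableSet.univ_pi hs)]
  have h1 : (fun (u : V → O) i => u (e i)) ⁻¹' (univ.pi s) =
      univ.pi (Function.extend e s (fun _ => univ)) := by
    ext u
    simp only [mem_preimage, mem_univ_pi]
    constructor
    · intro h a
      by_cases ha : ∃ i, e i = a
      · obtain ⟨i, rfl⟩ := ha
        rw [he.extend_apply]
        exact h i
      · rw [Function.extend_apply' _ _ _ ha]
        trivial
    · intro h i
      have := h (e i)
      rwa [he.extend_apply] at this
  rw [h1, Measure.pi_pi]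
  symm
  apply Fintype.prod_of_injective e he
  · intro a ha
    rw [Function.extend_apply' _ _ _ (by rintro ⟨i, hi⟩; exact ha ⟨i, hi⟩)]
    exact measure_univ
  · intro i
    rw [he.extend_apply]

/-- (2) -/
lemma two {O V : Type} [MeasurableSpace O] [Fintype V] (B : Set V) (μ ν : V → Measure O)
    (hμ : ∀ a, IsProbabilityMeasure (μ a)) (hν : ∀ a, IsProbabilityMeasure (ν a)) :
    ((Measure.pi μ).prod (Measure.pi ν)).map (fun p => pw B p.1 p.2) = Measure.pi (pw B μ ν) := by
  have : ∀ a, IsProbabilityMeasure (pw B μ ν a) := by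
    intro a
    by_cases h : a ∈ B
    · rw [pw_mem _ _ h]
      exact hμ a
    · rw [pw_not _ _ h]
      exact hν a
  symm
  apply Measure.pi_eq
  intro s hs
  rw [Measure.map_apply (meas_pw B) (MeasurableSet.univ_pi hs)]
  have h1 : (fun p : (V → O) × (V → O) => pw B p.1 p.2) ⁻¹' (univ.pi s) =
      (univ.pi (pw B s fun _ => univ)) ×ˢ (univ.pi (pw B (fun _ => univ) s)) := by
    ext p
    simp only [mem_preimage, mem_univ_pi, mem_prod]
    constructor
    · intro h
      constructor
      · intro a
        by_cases ha : a ∈ B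
        · have := h a
          rw [pw_mem _ _ ha] at this ⊢
          exact this
        · rw [pw_not _ _ ha]
          trivial
      · intro a
        by_cases ha : a ∈ B
        · rw [pw_mem _ _ ha]
          trivial
        · have := h a
          rw [pw_not _ _ ha] at this ⊢
          exact this
    · rintro ⟨h, h'⟩ a
      by_cases ha : a ∈ B
      · have := h a
        rw [pw_mem _ _ ha] at this ⊢
        exact this
      · have := h' a
        rw [pw_not _ _ ha] at this ⊢
        exact this
  rw [h1, Measure.prod_prod, Measure.pi_pi, Measure.pi_pi, ← Finset.prod_mul_distrib]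
  apply Finset.prod_congr rfl
  intro a _
  by_cases ha : a ∈ B
  · rw [pw_mem _ _ ha, pw_mem _ _ ha, pw_mem _ _ ha, measure_univ, mul_one]
  · rw [pw_not _ _ ha, pw_not _ _ ha, pw_not _ _ ha, measure_univ, one_mul]

lemma meas_elim {O I J : Type} [MeasurableSpace O] :
    Measurable fun (p : (I → O) × (J → O)) => (Sum.elim p.1 p.2 : I ⊕ J → O) := by
  rw [measurable_pi_iff]
  rintro (i | j)
  · exact (measurable_pi_apply i).comp measurable_fst
  · exact (measurable_pi_apply j).comp measurable_snd

/-- product measures over a sum of index types -/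
lemma sum_law {O I J : Type} [MeasurableSpace O] [Fintype I] [Fintype J] (α : I → Measure O)
    (β : J → Measure O) (hα : ∀ a, IsProbabilityMeasure (α a))
    (hβ : ∀ a, IsProbabilityMeasure (β a)) :
    Measure.pi (Sum.elim α β) =
      ((Measure.pi α).prod (Measure.pi β)).map fun p => (Sum.elim p.1 p.2 : I ⊕ J → O) := by
  have : ∀ a, IsProbabilityMeasure ((Sum.elim α β : I ⊕ J → Measure O) a) := by
    rintro (i | j)
    · exact hα i
    · exact hβ j
  apply Measure.pi_eq
  intro s hs
  rw [Measure.map_apply meas_elim (MeasurableSet.univ_pi hs)]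
  have h1 : (fun (p : (I → O) × (J → O)) => (Sum.elim p.1 p.2 : I ⊕ J → O)) ⁻¹' (univ.pi s) =
      (univ.pi fun i => s (Sum.inl i)) ×ˢ (univ.pi fun j => s (Sum.inr j)) := by
    ext p
    simp only [mem_preimage, mem_univ_pi, mem_prod, Sum.forall, Sum.elim_inl, Sum.elim_inr]
  rw [h1, Measure.prod_prod, Measure.pi_pi, Measure.pi_pi, Fintype.prod_sum_type]
  rfl

/-- (3) -/
lemma three {O V V' : Type} [MeasurableSpace O] [Fintype V] [Fintype V'] (e f : V' → V)
    (B : Set V') (he : Function.Injective e) (hB : ∀ i ∈ B, f i = e i)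
    (hd : ∀ i, i ∉ B → ∀ i', f i ≠ e i') (hf : ∀ i, i ∉ B → ∀ i', i' ∉ B → f i = f i' → i = i')
    (μ : V → Measure O) (hμ : ∀ a, IsProbabilityMeasure (μ a)) :
    (Measure.pi μ).map (fun W : V → O => ((fun i => W (e i) : V' → O), fun i : V' => W (f i))) =
      ((Measure.pi fun i => μ (e i)).prod (Measure.pi fun i => μ (f i))).map
        fun p => (p.1, pw B p.1 p.2) := by
  classical
  let g : V' ⊕ {i : V' // i ∉ B} → V := Sum.elim e (fun i => f i.1)
  have hg : Function.Injective g := by
    rintro (i | i) (j | j) h
    · exact congrArg Sum.inl (he h)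
    · exact absurd h.symm (hd j.1 j.2 i)
    · exact absurd h (hd i.1 i.2 j)
    · exact congrArg Sum.inr (Subtype.ext (hf i.1 i.2 j.1 j.2 h))
  let Φ : (V' ⊕ {i : V' // i ∉ B} → O) → (V' → O) × (V' → O) := fun w =>
    (fun i => w (Sum.inl i), fun i => if h : i ∈ B then w (Sum.inl i) else w (Sum.inr ⟨i, h⟩))
  have hΦ : Measurable Φ := by
    apply Measurable.prodMk
    · exact measurable_pi_iff.2 fun i => measurable_pi_apply _
    · rw [measurable_pi_iff]
      intro i
      by_cases h : i ∈ B
      · simp only [h, dif_pos]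
        exact measurable_pi_apply _
      · simp only [h, dif_neg, not_false_eq_true]
        exact measurable_pi_apply _
  have e1 : (fun W : V → O => ((fun i => W (e i) : V' → O), fun i : V' => W (f i))) =
      Φ ∘ fun (u : V → O) i => u (g i) := by
    funext W
    apply Prod.ext
    · rfl
    · funext i
      show W (f i) = if h : i ∈ B then W (e i) else W (f i)
      by_cases h : i ∈ B
      · rw [dif_pos h, hB i h]
      · rw [dif_neg h]
  have e2 : (fun i => μ (g i)) = Sum.elim (fun i => μ (e i))
      (fun i : {i : V' // i ∉ B} => μ (f i.1)) := by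
    funext i
    rcases i with i | i <;> rfl
  have e3 : (Measure.pi fun i : {i : V' // i ∉ B} => μ (f i.1)) =
      (Measure.pi fun i => μ (f i)).map (fun (u : V' → O) (i : {i : V' // i ∉ B}) => u i.1) :=
    (one (fun i : {i : V' // i ∉ B} => i.1) Subtype.val_injective (fun i => μ (f i))
      (fun i => hμ _)).symm
  rw [e1, ← Measure.map_map hΦ (meas_comp g), one g hg μ hμ, e2,
    sum_law _ _ (fun i => hμ _) (fun i => hμ _), Measure.map_map hΦ meas_elim]
  have e4 : ((Measure.pi fun i => μ (e i)).prod
      (Measure.pi fun i : {i : V' // i ∉ B} => μ (f i.1))) =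
      ((Measure.pi fun i => μ (e i)).prod (Measure.pi fun i => μ (f i))).map
        (Prod.map id (fun (u : V' → O) (i : {i : V' // i ∉ B}) => u i.1)) := by
    rw [e3, ← Measure.map_prod_map _ _ measurable_id (meas_comp _), Measure.map_id]
  rw [e4, Measure.map_map (hΦ.comp meas_elim) (measurable_id.prodMap (meas_comp _))]
  congr 1

lemma meas_ext {O V V' : Type} [MeasurableSpace O] (e : V' → V)
    (he : Function.Injective e) :
    Measurable fun p : (V' → O) × (V → O) => Function.extend e p.1 p.2 := by
  rw [measurable_pi_iff]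
  intro v
  by_cases h : ∃ i, e i = v
  · obtain ⟨i, rfl⟩ := h
    have : (fun p : (V' → O) × (V → O) => Function.extend e p.1 p.2 (e i)) = fun p => p.1 i := by
      funext p
      exact he.extend_apply _ _ _
    rw [this]
    exact (measurable_pi_apply i).comp measurable_fst
  · have : (fun p : (V' → O) × (V → O) => Function.extend e p.1 p.2 v) = fun p => p.2 v := by
      funext p
      exact Function.extend_apply' _ _ _ h
    rw [this]
    exact (measurable_pi_apply v).comp measurable_snd

/-- (4) -/
lemma four {O V V' : Type} [MeasurableSpace O] [Fintype V] [Fintype V'] (e : V' → V)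
    (he : Function.Injective e) (μ : V → Measure O) (hμ : ∀ a, IsProbabilityMeasure (μ a)) :
    ((Measure.pi fun i => μ (e i)).prod (Measure.pi μ)).map
      (fun p => Function.extend e p.1 p.2) = Measure.pi μ := by
  classical
  symm
  apply Measure.pi_eq
  intro s hs
  rw [Measure.map_apply (meas_ext e he) (MeasurableSet.univ_pi hs)]
  have h1 : (fun p : (V' → O) × (V → O) => Function.extend e p.1 p.2) ⁻¹' (univ.pi s) =
      (univ.pi fun i => s (e i)) ×ˢ (univ.pi fun a => if ∃ i, e i = a then univ else s a) := by
    ext p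
    simp only [mem_preimage, mem_univ_pi, mem_prod]
    constructor
    · intro h
      constructor
      · intro i
        have := h (e i)
        rwa [he.extend_apply] at this
      · intro a
        by_cases ha : ∃ i, e i = a
        · rw [if_pos ha]
          trivial
        · rw [if_neg ha]
          have := h a
          rwa [Function.extend_apply' _ _ _ ha] at this
    · rintro ⟨h, h'⟩ a
      by_cases ha : ∃ i, e i = a
      · obtain ⟨i, rfl⟩ := ha
        rw [he.extend_apply]
        exact h i
      · rw [Function.extend_apply' _ _ _ ha]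
        have := h' a
        rwa [if_neg ha] at this
  rw [h1, Measure.prod_prod, Measure.pi_pi, Measure.pi_pi]
  have h2 : ∏ i, μ (e i) (s (e i)) = ∏ a, if ∃ i, e i = a then μ a (s a) else 1 := by
    apply Fintype.prod_of_injective e he
    · intro a ha
      rw [if_neg (by rintro ⟨i, hi⟩; exact ha ⟨i, hi⟩)]
    · intro i
      rw [if_pos ⟨i, rfl⟩]
  rw [h2, ← Finset.prod_mul_distrib]
  apply Finset.prod_congr rfl
  intro a _
  by_cases ha : ∃ i, e i = a
  · rw [if_pos ha, if_pos ha, measure_univ, mul_one]
  · rw [if_neg ha, if_neg ha, one_mul]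

/-- (5) -/
lemma five {O V : Type} [MeasurableSpace O] [Fintype V] (D : Set V) (μ ν : V → Measure O)
    (hμ : ∀ a, IsProbabilityMeasure (μ a)) (hν : ∀ a, IsProbabilityMeasure (ν a))
    (hD : ∀ a ∈ D, μ a = ν a) (G : (V → O) → ℝ) (hG : Measurable G) (hdep : Dep D G) :
    ∫ u, G u ∂Measure.pi μ = ∫ u, G u ∂Measure.pi ν := by
  have e1 : pw D μ ν = ν := by
    funext a
    by_cases h : a ∈ D
    · rw [pw_mem _ _ h, hD a h]
    · rw [pw_not _ _ h]
  have h1 := two D μ ν hμ hν
  rw [e1] at h1
  rw [← h1, integral_map (meas_pw D).aemeasurable hG.aestronglyMeasurable]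
  have h2 : (fun p : (V → O) × (V → O) => G (pw D p.1 p.2)) = fun p => G p.1 := by
    funext p
    apply hdep
    intro a ha
    exact pw_mem _ _ ha
  have h3 : ∫ p : (V → O) × (V → O), G (pw D p.1 p.2) ∂(Measure.pi μ).prod (Measure.pi ν) =
      ∫ p : (V → O) × (V → O), G p.1 ∂(Measure.pi μ).prod (Measure.pi ν) := by
    rw [h2]
  rw [h3]
  have h4 : ((Measure.pi μ).prod (Measure.pi ν)).map Prod.fst = Measure.pi μ :=
    Measure.fst_prod
  conv_lhs => rw [← h4]
  rw [integral_map measurable_fst.aemeasurable hG.aestronglyMeasurable]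

end I_QPW

open I_QPW in
theorem QPW_pf : S_QPW := by
  intro O V V' _ _ _
  exact ⟨one, fun B μ ν hμ hν => two B μ ν hμ hν, three, four,
    fun D μ ν hμ hν hD G hG hdep => five D μ ν hμ hν hD G hG hdep⟩

end Pool.Agent.Work.MP_69fea5_lc.W3
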