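import Pool.Agent.Work.MP_69fea5_lc.W3.StmtsQ

/-!
# Block [69fea5 W3 Q], item QSC: strong continuity of the integrals over the lifts
-/

set_option autoImplicit false

namespace Pool.Agent.Work.MP_69fea5_lc.W3

open MeasureTheory ProbabilityTheory Topology Set Filter TopologicalSpace
open scoped NNReal ENNReal
open Pool.Agent.Work.MP_69fea5_lc.AK

namespace I_QSC

theorem prod_sub_le {ι : Type} (D : Finset ι) (a h : ι → ℝ) (ha : ∀ i, |a i| ≤ 1)
    (hh : ∀ i, |h i| ≤ 1) : |∏ i ∈ D, a i - ∏ i ∈ D, h i| ≤ ∑ i ∈ D, |a i - h i| := by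
  classical
  induction D using Finset.induction_on with
  | empty => simp
  | insert i D hi ih =>
    rw [Finset.prod_insert hi, Finset.prod_insert hi, Finset.sum_insert hi]
    have h1 : a i * ∏ j ∈ D, a j - h i * ∏ j ∈ D, h j =
      (a i - h i) * ∏ j ∈ D, a j + h i * (∏ j ∈ D, a j - ∏ j ∈ D, h j) := by ring
    have h2 : |∏ j ∈ D, a j| ≤ 1 := by
      rw [Finset.abs_prod]
      exact Finset.prod_le_one (fun _ _ => abs_nonneg _) (fun j _ => ha j)
    rw [h1]
    refine (abs_add_le _ _).trans ?_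
    rw [abs_mul, abs_mul]
    have h3 := abs_nonneg (a i - h i)
    have h4 := abs_nonneg (∏ j ∈ D, a j - ∏ j ∈ D, h j)
    have h5 := hh i
    have h6 : |a i - h i| * |∏ j ∈ D, a j| ≤ |a i - h i| := mul_le_of_le_one_right h3 h2
    have h7 : |h i| * |∏ j ∈ D, a j - ∏ j ∈ D, h j| ≤ |∏ j ∈ D, a j - ∏ j ∈ D, h j| :=
      mul_le_of_le_one_left h4 h5
    linarith

theorem abs_trunc (a g : ℝ) (ha : |a| ≤ 1) : |a - max (-1) (min 1 g)| ≤ |a - g| := by
  rw [abs_le] at ha
  obtain ⟨h1, h2⟩ := ha
  rcases le_total 1 g with h | h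
  · rw [min_eq_left h, max_eq_right (by norm_num : (-1 : ℝ) ≤ 1)]
    rw [abs_of_nonpos (by linarith), abs_of_nonpos (by linarith)]
    linarith
  · rw [min_eq_right h]
    rcases le_total (-1) g with h' | h'
    · rw [max_eq_right h']
    · rw [max_eq_left h']
      rw [abs_of_nonneg (by linarith), abs_of_nonneg (by linarith)]
      linarith

/-- integrals of products of bounded measurable functions of the coordinates -/
theorem prod_cont {X ι B : Type} [TopologicalSpace X] [MeasurableSpace X] [CS X] [Fintype ι]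
    [TopologicalSpace B] (lam : Measure X) [IsProbabilityMeasure lam] (c : ℝ≥0) (D : Finset ι)
    (s : Set B) (Q : B → ProbabilityMeasure (ι → X)) (hQ : ContinuousOn Q s)
    (hD : ∀ b ∈ s, ∀ i ∈ D, (Q b : Measure (ι → X)).map (fun z => z i) ≤ c • lam)
    (a : ι → X → ℝ) (ha : ∀ i, Measurable (a i)) (hb : ∀ i x, |a i x| ≤ 1) :
    ContinuousOn (fun b => ∫ z, ∏ i ∈ D, a i (z i) ∂(Q b : Measure (ι → X))) s := by
  intro b₀ hb₀
  rw [ContinuousWithinAt, Metric.tendsto_nhds]
  intro ε hε
  obtain ⟨δ, hδ, hδε⟩ : ∃ δ : ℝ, 0 < δ ∧ D.card * (c * δ) ≤ ε / 4 := by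
    refine ⟨ε / (4 * (D.card + 1) * (c + 1)), by positivity, ?_⟩
    have h1 : (0 : ℝ) ≤ D.card := by positivity
    have h2 : (0 : ℝ) ≤ c := c.2
    have h3 : (D.card : ℝ) * (c * (ε / (4 * (D.card + 1) * (c + 1)))) =
      (D.card / (D.card + 1)) * (c / (c + 1)) * (ε / 4) := by
      field_simp
    rw [h3]
    have h4 : (D.card : ℝ) / (D.card + 1) ≤ 1 := by
      rw [div_le_one (by positivity)]; linarith
    have h5 : (c : ℝ) / (c + 1) ≤ 1 := by
      rw [div_le_one (by positivity)]; linarith
    have h6 : (D.card : ℝ) / (D.card + 1) * (c / (c + 1)) ≤ 1 :=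
      mul_le_one₀ h4 (by positivity) h5
    exact mul_le_of_le_one_left (by positivity) h6
  have happ : ∀ i, ∃ h : X → ℝ, Continuous h ∧ (∀ x, |h x| ≤ 1) ∧
      ∫ x, |a i x - h x| ∂lam ≤ δ := by
    intro i
    have hint : Integrable (a i) lam := Integrable.of_bound (ha i).aestronglyMeasurable 1
      (Eventually.of_forall fun x => by simpa using hb i x)
    obtain ⟨g, hg, hgi⟩ := hint.exists_boundedContinuous_integral_sub_le hδ
    refine ⟨fun x => max (-1) (min 1 (g x)), ?_, ?_, ?_⟩
    · exact continuous_const.max (continuous_const.min g.continuous)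
    · intro x
      rw [abs_le]
      exact ⟨le_max_left _ _, max_le (by norm_num) (min_le_left _ _)⟩
    · refine le_trans (integral_mono_of_nonneg (Eventually.of_forall fun x => abs_nonneg _)
        (hint.sub hgi).norm (Eventually.of_forall fun x => ?_)) hg
      simpa using abs_trunc (a i x) (g x) (hb i x)
  choose h hh1 hh2 hh3 using happ
  have hcont : Continuous fun z : ι → X => ∏ i ∈ D, h i (z i) :=
    continuous_finsetProd _ fun i _ => (hh1 i).comp (continuous_apply i)
  have hc2 : Continuous fun q : ProbabilityMeasure (ι → X) =>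
      ∫ z, ∏ i ∈ D, h i (z i) ∂(q : Measure (ι → X)) :=
    ProbabilityMeasure.continuous_integral_boundedContinuousFunction
      (BoundedContinuousFunction.mkOfCompact ⟨_, hcont⟩)
  have hma : Measurable fun z : ι → X => ∏ i ∈ D, a i (z i) :=
    Finset.measurable_fun_prod _ fun i _ => (ha i).comp (measurable_pi_apply i)
  have habs : ∀ f : ι → X → ℝ, (∀ i x, |f i x| ≤ 1) → ∀ z : ι → X, |∏ i ∈ D, f i (z i)| ≤ 1 := by
    intro f hf z
    rw [Finset.abs_prod]
    exact Finset.prod_le_one (fun _ _ => abs_nonneg _) (fun j _ => hf j _)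
  have herr : ∀ b ∈ s, |∫ z, ∏ i ∈ D, a i (z i) ∂(Q b : Measure (ι → X)) -
      ∫ z, ∏ i ∈ D, h i (z i) ∂(Q b : Measure (ι → X))| ≤ ε / 4 := by
    intro b hbs
    have hi1 : Integrable (fun z : ι → X => ∏ i ∈ D, a i (z i)) (Q b : Measure (ι → X)) :=
      Integrable.of_bound hma.aestronglyMeasurable 1
        (Eventually.of_forall fun z => by rw [Real.norm_eq_abs]; exact habs a hb z)
    have hi2 : Integrable (fun z : ι → X => ∏ i ∈ D, h i (z i)) (Q b : Measure (ι → X)) :=
      Integrable.of_bound hcont.measurable.aestronglyMeasurable 1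
        (Eventually.of_forall fun z => by rw [Real.norm_eq_abs]; exact habs h hh2 z)
    rw [← integral_sub hi1 hi2]
    have hmi : ∀ i, Measurable fun x => |a i x - h i x| := fun i =>
      ((ha i).sub (hh1 i).measurable).abs
    have hbi : ∀ i x, |a i x - h i x| ≤ 2 := fun i x => by
      have := abs_sub (a i x) (h i x)
      linarith [hb i x, hh2 i x]
    have hi3 : ∀ i, Integrable (fun z : ι → X => |a i (z i) - h i (z i)|)
        (Q b : Measure (ι → X)) := fun i =>
      Integrable.of_bound ((hmi i).comp (measurable_pi_apply i)).aestronglyMeasurable 2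
        (Eventually.of_forall fun z => by simpa using hbi i (z i))
    have hi4 : ∀ i, Integrable (fun x => |a i x - h i x|) lam := fun i =>
      Integrable.of_bound (hmi i).aestronglyMeasurable 2
        (Eventually.of_forall fun x => by simpa using hbi i x)
    calc |∫ z, (∏ i ∈ D, a i (z i) - ∏ i ∈ D, h i (z i)) ∂(Q b : Measure (ι → X))|
        ≤ ∫ z, |∏ i ∈ D, a i (z i) - ∏ i ∈ D, h i (z i)| ∂(Q b : Measure (ι → X)) :=
          abs_integral_le_integral_abs
      _ ≤ ∫ z, ∑ i ∈ D, |a i (z i) - h i (z i)| ∂(Q b : Measure (ι → X)) := by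
          refine integral_mono (hi1.sub hi2).abs (integrable_finsetSum _ fun i _ => hi3 i) ?_
          intro z
          exact prod_sub_le D (fun i => a i (z i)) (fun i => h i (z i)) (fun i => hb i _)
            (fun i => hh2 i _)
      _ = ∑ i ∈ D, ∫ z, |a i (z i) - h i (z i)| ∂(Q b : Measure (ι → X)) :=
          integral_finsetSum _ fun i _ => hi3 i
      _ ≤ ∑ i ∈ D, (c * δ) := by
          refine Finset.sum_le_sum fun i hi => ?_
          have e1 : ∫ z, |a i (z i) - h i (z i)| ∂(Q b : Measure (ι → X)) =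
              ∫ x, |a i x - h i x| ∂((Q b : Measure (ι → X)).map fun z => z i) :=
            (integral_map (φ := fun z : ι → X => z i) (measurable_pi_apply i).aemeasurable
              (hmi i).aestronglyMeasurable).symm
          have hi5 : Integrable (fun x => |a i x - h i x|) (c • lam) :=
            (hi4 i).smul_measure_nnreal
          rw [e1]
          refine (integral_mono_measure (hD b hbs i hi)
            (Eventually.of_forall fun x => abs_nonneg _) hi5).trans ?_
          rw [integral_smul_nnreal_measure]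
          rw [NNReal.smul_def, smul_eq_mul]
          exact mul_le_mul_of_nonneg_left (hh3 i) c.2
      _ = D.card * (c * δ) := by rw [Finset.sum_const, nsmul_eq_mul]
      _ ≤ ε / 4 := hδε
  have hnear : ∀ᶠ b in 𝓝[s] b₀, dist (∫ z, ∏ i ∈ D, h i (z i) ∂(Q b : Measure (ι → X)))
      (∫ z, ∏ i ∈ D, h i (z i) ∂(Q b₀ : Measure (ι → X))) < ε / 4 :=
    Metric.tendsto_nhds.1 ((hc2.comp_continuousOn hQ) b₀ hb₀) (ε / 4) (by positivity)
  filter_upwards [hnear, self_mem_nhdsWithin] with b h1 h2
  have h3 := herr b h2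
  have h4 := herr b₀ hb₀
  rw [Real.dist_eq] at h1 ⊢
  rw [abs_le] at h3 h4
  rw [abs_lt] at h1 ⊢
  constructor <;> linarith [h1.1, h1.2, h3.1, h3.2, h4.1, h4.2]

end I_QSC

open I_QSC in
theorem QSC_pf (hQFM : S_QFM) (hQSW : S_QSW) : S_QSC := by
  intro X O ι B _ _ _ _ _ _ _ _ η _ lam _ c D s Q G hQ hD hG hdep
  obtain ⟨-, hpr, -, hint, -, hprod⟩ := hQFM X O ι η
  have hP : ∀ b, IsProbabilityMeasure (lif η (Q b : Measure (ι → X))) := fun b =>
    hpr _ inferInstance
  -- products
  have key : ∀ g : ι → O → ℝ, (∀ i, Continuous (g i)) → ContinuousOn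
      (fun b => ∫ u, ∏ i ∈ D, g i (u i) ∂lif η (Q b : Measure (ι → X))) s := by
    intro g hg
    have hbd : ∃ M : ℝ, 1 ≤ M ∧ ∀ i w, |g i w| ≤ M := by
      have h1 : ∀ i, ∃ M : ℝ, ∀ w, |g i w| ≤ M := by
        intro i
        obtain ⟨M, hM⟩ := (isCompact_range (hg i)).isBounded.exists_norm_le
        exact ⟨M, fun w => hM _ ⟨w, rfl⟩⟩
      choose M hM using h1
      refine ⟨1 + ∑ i, |M i|, ?_, ?_⟩
      · have : 0 ≤ ∑ i, |M i| := Finset.sum_nonneg fun _ _ => abs_nonneg _
        linarith
      · intro i w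
        have h2 : |M i| ≤ ∑ i, |M i| :=
          Finset.single_le_sum (f := fun i => |M i|) (fun _ _ => abs_nonneg _)
            (Finset.mem_univ i)
        have h3 := hM i w
        have h4 := le_abs_self (M i)
        linarith
    obtain ⟨M, hM1, hM⟩ := hbd
    have hM0 : 0 < M := by linarith
    have hgm : ∀ i, Measurable (g i) := fun i => (hg i).measurable
    have hgB : ∀ i, Bd (g i) := fun i => ⟨M, fun w => hM i w⟩
    have ham : ∀ i, Measurable fun x => (∫ w, g i w ∂η x) / M := fun i =>
      ((hg i).stronglyMeasurable.integral_kernel).measurable.div_const M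
    have hab : ∀ i x, |(∫ w, g i w ∂η x) / M| ≤ 1 := by
      intro i x
      rw [abs_div, abs_of_pos hM0, div_le_one hM0]
      have h5 : ‖∫ w, g i w ∂η x‖ ≤ M * (η x).real univ :=
        norm_integral_le_of_norm_le_const (Eventually.of_forall fun w => hM i w)
      simpa using h5
    have h6 := prod_cont lam c D s Q hQ hD (fun i x => (∫ w, g i w ∂η x) / M) ham hab
    have h7 : ∀ b, ∫ u, ∏ i ∈ D, g i (u i) ∂lif η (Q b : Measure (ι → X)) =
        M ^ D.card * ∫ z, ∏ i ∈ D, ((∫ w, g i w ∂η (z i)) / M) ∂(Q b : Measure (ι → X)) := by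
      intro b
      have hGm : Measurable fun u : ι → O => ∏ i ∈ D, g i (u i) :=
        Finset.measurable_fun_prod _ fun i _ => (hgm i).comp (measurable_pi_apply i)
      have hGb : Bd fun u : ι → O => ∏ i ∈ D, g i (u i) := by
        refine ⟨M ^ D.card, fun u => ?_⟩
        rw [Finset.abs_prod]
        refine (Finset.prod_le_prod (fun _ _ => abs_nonneg _) fun i _ => hM i _).trans ?_
        rw [Finset.prod_const]
      rw [(hint (Q b : Measure (ι → X)) inferInstance _ hGm hGb).2, ← integral_const_mul]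
      refine integral_congr_ae (Eventually.of_forall fun z => ?_)
      simp only
      rw [hprod z D g hgm hgB, Finset.prod_div_distrib, Finset.prod_const,
        mul_div_cancel₀ _ (pow_ne_zero _ hM0.ne')]
    simp_rw [h7]
    exact continuousOn_const.mul h6
  intro b₀ hb₀
  rw [ContinuousWithinAt, Metric.tendsto_nhds]
  intro ε hε
  have hε8 : 0 < ε / 8 := by positivity
  -- uniform convergence
  obtain ⟨v, hv, hvu⟩ := IsCompact.mem_uniformity_of_prod (f := G) (s := s) (k := univ) (q := b₀)
    isCompact_univ hG hb₀ (Metric.dist_mem_uniformity hε8)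
  -- continuity of the slices
  have hGc : ∀ b ∈ s, Continuous (G b) := by
    intro b hb
    rw [← continuousOn_univ]
    exact hG.comp (Continuous.continuousOn (by fun_prop : Continuous fun u : ι → O => (b, u)))
      fun u _ => ⟨hb, mem_univ _⟩
  obtain ⟨m, a, g, hgc, happ⟩ := hQSW O ι D (G b₀) (hGc b₀ hb₀) (hdep b₀ hb₀) (ε / 8) hε8
  have hSc : Continuous fun u : ι → O => ∑ l, a l * ∏ i ∈ D, g l i (u i) :=
    continuous_finsetSum _ fun l _ => continuous_const.mul
      (continuous_finsetProd _ fun i _ => (hgc l i).comp (continuous_apply i))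
  have hintc : ∀ (f : (ι → O) → ℝ), Continuous f → ∀ b,
      Integrable f (lif η (Q b : Measure (ι → X))) := by
    intro f hf b
    obtain ⟨M, hM⟩ := (isCompact_range hf).isBounded.exists_norm_le
    exact Integrable.of_bound hf.measurable.aestronglyMeasurable M
      (Eventually.of_forall fun z => hM _ ⟨z, rfl⟩)
  have hclose : ∀ (f f' : (ι → O) → ℝ), Continuous f → Continuous f' →
      (∀ u, |f u - f' u| ≤ ε / 8) → ∀ b, |∫ u, f u ∂lif η (Q b : Measure (ι → X)) -
        ∫ u, f' u ∂lif η (Q b : Measure (ι → X))| ≤ ε / 8 := by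
    intro f f' hf hf' hff b
    rw [← integral_sub (hintc f hf b) (hintc f' hf' b)]
    have h5 : ‖∫ u, (f u - f' u) ∂lif η (Q b : Measure (ι → X))‖ ≤
        ε / 8 * (lif η (Q b : Measure (ι → X))).real univ :=
      norm_integral_le_of_norm_le_const (Eventually.of_forall fun w => hff w)
    simpa using h5
  have hSI : ContinuousOn (fun b => ∫ u, ∑ l, a l * ∏ i ∈ D, g l i (u i)
      ∂lif η (Q b : Measure (ι → X))) s := by
    have h8 : ∀ b, ∫ u, ∑ l, a l * ∏ i ∈ D, g l i (u i) ∂lif η (Q b : Measure (ι → X)) =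
        ∑ l, a l * ∫ u, ∏ i ∈ D, g l i (u i) ∂lif η (Q b : Measure (ι → X)) := by
      intro b
      rw [integral_finsetSum]
      · exact Finset.sum_congr rfl fun l _ => integral_const_mul _ _
      · intro l _
        exact (hintc _ (continuous_finsetProd _ fun i _ =>
          (hgc l i).comp (continuous_apply i)) b).const_mul _
    simp_rw [h8]
    exact continuousOn_finsetSum _ fun l _ => continuousOn_const.mul (key (g l) (hgc l))
  have hnear := Metric.tendsto_nhds.1 (hSI b₀ hb₀) (ε / 8) hε8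
  filter_upwards [hnear, self_mem_nhdsWithin, hv] with b h1 h2 h3
  have h4 := hclose (G b) (G b₀) (hGc b h2) (hGc b₀ hb₀)
    (fun u => (by simpa [Real.dist_eq] using (hvu b h3 u (mem_univ _)) :
      |G b u - G b₀ u| < ε / 8).le) b
  have h5 := hclose (G b₀) _ (hGc b₀ hb₀) hSc happ b
  have h6 := hclose (G b₀) _ (hGc b₀ hb₀) hSc happ b₀
  rw [Real.dist_eq] at h1 ⊢
  rw [abs_le] at h4 h5 h6
  rw [abs_lt] at h1 ⊢
  constructor <;> linarith [h1.1, h1.2, h4.1, h4.2, h5.1, h5.2, h6.1, h6.2]

end Pool.Agent.Work.MP_69fea5_lc.W3
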