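import Pool.Agent.Work.MP_69fea5_lc.W3.StmtsQ

set_option autoImplicit false

namespace Pool.Agent.Work.MP_69fea5_lc.W3

open MeasureTheory ProbabilityTheory Topology Set Filter TopologicalSpace
open scoped NNReal ENNReal
open Pool.Agent.Work.MP_69fea5_lc.AK

namespace I_QSW

/-- products of functions of one coordinate -/
def Mn (O ι : Type) [TopologicalSpace O] (D : Finset ι) : Submonoid C({i // i ∈ D} → O, ℝ) where
  carrier := {F | ∃ g : ι → O → ℝ, (∀ i, Continuous (g i)) ∧
    ∀ v, F v = ∏ i : {i // i ∈ D}, g i (v i)}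
  one_mem' := ⟨fun _ _ => 1, fun _ => continuous_const, fun v => by simp⟩
  mul_mem' := by
    rintro F F' ⟨g, hg, h⟩ ⟨g', hg', h'⟩
    refine ⟨fun i o => g i o * g' i o, fun i => (hg i).mul (hg' i), fun v => ?_⟩
    rw [ContinuousMap.mul_apply, h, h', Finset.prod_mul_distrib]

theorem sep (O ι : Type) [TopologicalSpace O] [MetrizableSpace O] (D : Finset ι) :
    (Algebra.adjoin ℝ (Mn O ι D : Set C({i // i ∈ D} → O, ℝ))).SeparatesPoints := by
  classical
  let _ := metrizableSpaceMetric O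
  intro v v' hvv
  obtain ⟨i₀, hi₀⟩ : ∃ i, v i ≠ v' i := Function.ne_iff.1 hvv
  let g : ι → O → ℝ := fun i o => if i = i₀ then dist o (v i₀) else 1
  have hg : ∀ i, Continuous (g i) := by
    intro i
    by_cases h : i = i₀
    · simp only [g, h, if_true]
      exact continuous_id.dist continuous_const
    · simp only [g, h, if_false]
      exact continuous_const
  have hc : Continuous fun v : {i // i ∈ D} → O => ∏ i : {i // i ∈ D}, g i (v i) :=
    continuous_finsetProd _ fun i _ => (hg i).comp (continuous_apply i)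
  refine ⟨_, ⟨⟨_, hc⟩, Algebra.subset_adjoin ⟨g, hg, fun _ => rfl⟩, rfl⟩, ?_⟩
  have h1 : ∏ i : {i // i ∈ D}, g i (v i) = 0 := by
    refine Finset.prod_eq_zero (Finset.mem_univ i₀) ?_
    simp [g]
  have h2 : ∏ i : {i // i ∈ D}, g i (v' i) ≠ 0 := by
    rw [Finset.prod_ne_zero_iff]
    intro i _
    by_cases h : (i : ι) = i₀
    · have h3 : i = i₀ := Subtype.ext h
      subst h3
      simp only [g, if_true]
      exact dist_ne_zero.2 hi₀.symm
    · simp only [g, h, if_false]
      exact one_ne_zero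
  show (∏ i : {i // i ∈ D}, g i (v i)) ≠ ∏ i : {i // i ∈ D}, g i (v' i)
  rw [h1]
  exact h2.symm

end I_QSW

open I_QSW in
theorem QSW_pf : S_QSW := by
  intro O ι _ _ _ _ D G hG hD ε hε
  classical
  by_cases hne : Nonempty (ι → O)
  swap
  · exact ⟨0, fun i => i.elim0, fun i => i.elim0, fun i => i.elim0, fun u => (hne ⟨u⟩).elim⟩
  obtain ⟨u₀⟩ := hne
  let ext : ({i // i ∈ D} → O) → ι → O := fun v i => if h : i ∈ D then v ⟨i, h⟩ else u₀ i
  have hext : Continuous ext := by
    refine continuous_pi fun i => ?_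
    by_cases h : i ∈ D
    · simp only [ext, h, dif_pos]
      exact continuous_apply _
    · simp only [ext, h, dif_neg, not_false_eq_true]
      exact continuous_const
  obtain ⟨F, hF⟩ := ContinuousMap.exists_mem_subalgebra_near_continuous_of_separatesPoints
    (Algebra.adjoin ℝ (Mn O ι D : Set C({i // i ∈ D} → O, ℝ))) (sep O ι D)
    (fun v => G (ext v)) (hG.comp hext) ε hε
  have hF2 : (F : C({i // i ∈ D} → O, ℝ)) ∈
      Submodule.span ℝ (Mn O ι D : Set C({i // i ∈ D} → O, ℝ)) := by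
    have h1 : (F : C({i // i ∈ D} → O, ℝ)) ∈ Subalgebra.toSubmodule
        (Algebra.adjoin ℝ (Mn O ι D : Set C({i // i ∈ D} → O, ℝ))) := F.2
    rwa [Algebra.adjoin_eq_span, Submonoid.closure_eq] at h1
  obtain ⟨m, a, f, hf⟩ := Submodule.mem_span_set'.1 hF2
  have hfm : ∀ l, ∃ g : ι → O → ℝ, (∀ i, Continuous (g i)) ∧
    ∀ v, (f l : C({i // i ∈ D} → O, ℝ)) v = ∏ i : {i // i ∈ D}, g i (v i) := fun l => (f l).2
  choose g hgc hg using hfm
  refine ⟨m, a, g, hgc, fun u => ?_⟩
  have h2 := hF fun i => u i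
  have h3 : G (ext fun i => u i) = G u := by
    refine hD _ _ fun i hi => ?_
    have hi' : i ∈ D := hi
    simp only [ext, hi', dif_pos]
  have h4 : (F : C({i // i ∈ D} → O, ℝ)) (fun i => u i) = ∑ l, a l * ∏ i ∈ D, g l i (u i) := by
    rw [← hf, ContinuousMap.sum_apply]
    refine Finset.sum_congr rfl fun l _ => ?_
    rw [ContinuousMap.smul_apply, hg, smul_eq_mul]
    congr 1
    exact Finset.prod_coe_sort D fun i => g l i (u i)
  simp only [h3] at h2
  rw [← h4, abs_sub_comm]
  exact h2.le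

end Pool.Agent.Work.MP_69fea5_lc.W3
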