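import Pool.Agent.Work.MP_69fea5_lc.W3.StmtsQ

/-!
# [69fea5 W3 Q QT3] every closed invariant set of tuples is a limit of functions in `ISO`
-/

set_option autoImplicit false

namespace Pool.Agent.Work.MP_69fea5_lc.W3

open MeasureTheory ProbabilityTheory Topology Set Filter TopologicalSpace
open scoped NNReal ENNReal
open Pool.Agent.Work.MP_69fea5_lc.AK

namespace I_QT3

/-- measurable and bounded functions -/
def MB {Ω : Type} [MeasurableSpace Ω] (f : Ω → ℝ) : Prop := Measurable f ∧ ∃ C : ℝ, ∀ u, |f u| ≤ C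

section MB

variable {Ω : Type} [MeasurableSpace Ω] {f g : Ω → ℝ}

theorem MB.bd (hf : MB f) : Bd f := hf.2

theorem MB.add (hf : MB f) (hg : MB g) : MB fun u => f u + g u := by
  obtain ⟨h1, C, hC⟩ := hf
  obtain ⟨h2, D, hD⟩ := hg
  exact ⟨h1.add h2, C + D, fun u => (abs_add_le _ _).trans (add_le_add (hC u) (hD u))⟩

theorem MB.sub (hf : MB f) (hg : MB g) : MB fun u => f u - g u := by
  obtain ⟨h1, C, hC⟩ := hf
  obtain ⟨h2, D, hD⟩ := hg
  exact ⟨h1.sub h2, C + D, fun u => (abs_sub _ _).trans (add_le_add (hC u) (hD u))⟩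

theorem MB.mul (hf : MB f) (hg : MB g) : MB fun u => f u * g u := by
  obtain ⟨h1, C, hC⟩ := hf
  obtain ⟨h2, D, hD⟩ := hg
  refine ⟨h1.mul h2, C * D, fun u => ?_⟩
  rw [abs_mul]
  exact mul_le_mul (hC u) (hD u) (abs_nonneg _) ((abs_nonneg _).trans (hC u))

theorem MB.abs (hf : MB f) : MB fun u => |f u| := by
  obtain ⟨h1, C, hC⟩ := hf
  exact ⟨h1.norm, C, fun u => by rw [abs_abs]; exact hC u⟩

theorem MB.sq (hf : MB f) : MB fun u => f u ^ 2 := by
  have h := hf.mul hf
  have e : (fun u => f u ^ 2) = fun u => f u * f u := funext fun u => pow_two (f u)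
  rw [e]
  exact h

theorem MB.const (a : ℝ) : MB fun _ : Ω => a := ⟨measurable_const, |a|, fun _ => le_rfl⟩

theorem MB.int (hf : MB f) (κ : Measure Ω) [IsFiniteMeasure κ] : Integrable f κ := by
  obtain ⟨h1, C, hC⟩ := hf
  exact Integrable.of_bound h1.aestronglyMeasurable C (ae_of_all _ hC)

theorem MB.comp {Ω' : Type} [MeasurableSpace Ω'] (hf : MB f) {s : Ω' → Ω} (hs : Measurable s) :
    MB fun u => f (s u) := by
  obtain ⟨h1, C, hC⟩ := hf
  exact ⟨h1.comp hs, C, fun u => hC _⟩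

end MB

section est

variable {Ω : Type} [MeasurableSpace Ω] (κ : Measure Ω) [IsFiniteMeasure κ]
  {a b c d : Ω → ℝ}

theorem est3 (ha : MB a) (hb : MB b) (hc : MB c) (hd : MB d)
    (h : ∀ᵐ u ∂κ, |d u| ≤ |a u| + |b u| + |c u|) {x y z : ℝ} (hx : ∫ u, |a u| ∂κ ≤ x)
    (hy : ∫ u, |b u| ∂κ ≤ y) (hz : ∫ u, |c u| ∂κ ≤ z) : ∫ u, |d u| ∂κ ≤ x + y + z := by
  have h1 : ∫ u, |d u| ∂κ ≤ ∫ u, (|a u| + |b u| + |c u|) ∂κ :=
    integral_mono_ae (hd.abs.int κ) (((ha.abs.add hb.abs).add hc.abs).int κ) h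
  rw [integral_add ((ha.abs.add hb.abs).int κ) (hc.abs.int κ),
    integral_add (ha.abs.int κ) (hb.abs.int κ)] at h1
  linarith

end est

end I_QT3

open I_QT3 in
theorem QT3_pf (hQK1 : S_QK1) (hQK2 : S_QK2) (hQUC : S_QUC) (hQDI : S_QDI) (hQIS : S_QIS)
    (hQMN : S_QMN) (hQOR : S_QOR) : S_QT3 := by
  intro X O _ _ _ _ _ _ _ _ n π lam η c P K Pc Kc hmin hL hC hQ R hR hRi ε hε
  rcases Nat.eq_zero_or_pos n with hn | hn
  · subst hn
    refine ⟨fun _ => 0, (hQIS X O 0 π).1 0, fun _ => ⟨le_rfl, zero_le_one⟩, fun j => j.elim0⟩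
  obtain ⟨hprob, hae, -, hequi, hmix, ⟨hprobL, haeL⟩, ⟨hprobμ, -⟩, hCCc, hCCi⟩ :=
    hQK1 X O n π lam η c P K hL hC
  obtain ⟨G, hGc, hG01, hGε⟩ := hQDI X O n π lam η c P K hmin hL hC R hR hRi
  obtain ⟨g, hgI, hg01, hgε, hgo⟩ := hQMN X O n π lam η c P K hmin hL hC R hR
  set s : (Fin n → O) → (Fin n → O) := fun u i => sh 1 (u i) with hs
  have hsm : Measurable s :=
    (continuous_pi fun i => (sh_cont (1 : ℤ)).comp (continuous_apply i) : Continuous s).measurable
  set I : (Fin n → O) → ℝ := R.indicator 1 with hI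
  have hI01 : ∀ u, 0 ≤ I u ∧ I u ≤ 1 := by
    intro u
    by_cases h : u ∈ R
    · rw [hI, indicator_of_mem h]; simp
    · rw [hI, indicator_of_notMem h]; simp
  have abs1 : ∀ {x : ℝ}, 0 ≤ x ∧ x ≤ 1 → |x| ≤ 1 := fun h => by
    rw [abs_of_nonneg h.1]; exact h.2
  have hIm : MB I := ⟨measurable_one.indicator hR.measurableSet, 1, fun u => abs1 (hI01 u)⟩
  have hGm : ∀ k, MB (G k) := fun k => ⟨(hGc k).measurable, 1, fun u => abs1 (hG01 k u)⟩
  have hgm : ∀ k, MB (g k) := fun k => ⟨(hgI k).cont.measurable, 1, fun u => abs1 (hg01 k u)⟩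
  have hIs : ∀ u, I (s u) = I u := by
    intro u
    by_cases h : u ∈ R
    · rw [hI, indicator_of_mem h, indicator_of_mem (hRi 1 u h)]
      rfl
    · rw [hI, indicator_of_notMem h, indicator_of_notMem]
      intro h'
      apply h
      have h2 := hRi (-1) _ h'
      have h3 : (fun i => sh (-1 : ℤ) (s u i)) = u := by
        funext i
        change sh (-1 : ℤ) (sh (1 : ℤ) (u i)) = u i
        rw [← sh_add]; simp [sh_zero]
      rwa [h3] at h2
  set F : ℕ → (Fin n → O) → ℝ := fun k u => G k u - g k u with hF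
  have hFc : ∀ k, Continuous (F k) := fun k => (hGc k).sub (hgI k).cont
  have hF1 : ∀ k u, |F k u| ≤ 1 := by
    intro k u
    have h1 := hG01 k u
    have h2 := hg01 k u
    exact abs_le.2 ⟨by simp only [hF]; linarith, by simp only [hF]; linarith⟩
  have hFm : ∀ k, MB (F k) := fun k => (hGm k).sub (hgm k)
  -- Cauchy
  have hFC : ∀ ε : ℝ, 0 < ε → ∃ N, ∀ k, N ≤ k → ∀ l, N ≤ l →
      Sn π η K (fun u => F k u - F l u) ε := by
    intro ε hε
    obtain ⟨N1, hN1⟩ := hGε (ε / 3) (by positivity)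
    obtain ⟨N2, hN2⟩ := hgε (ε / 3) (by positivity)
    refine ⟨max N1 N2, fun k hk l hl j w => ?_⟩
    have := hprob j w
    have h1 := hN1 k ((le_max_left _ _).trans hk) j w
    have h2 := hN1 l ((le_max_left _ _).trans hl) j w
    have h3 := hN2 k ((le_max_right _ _).trans hk) l ((le_max_right _ _).trans hl) j w
    have h4 := est3 (kap π η K j w) ((hGm k).sub hIm) ((hGm l).sub hIm) ((hgm k).sub (hgm l))
      ((hFm k).sub (hFm l)) (ae_of_all _ fun u => by
        have : F k u - F l u = (G k u - I u) - (G l u - I u) - (g k u - g l u) := by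
          simp only [hF]; ring
        rw [this]
        exact (abs_sub _ _).trans (add_le_add (abs_sub _ _) le_rfl)) h1 h2 h3
    linarith
  -- almost invariance
  have hFI : ∀ ε : ℝ, 0 < ε → ∃ N, ∀ k, N ≤ k →
      Sn π η K (fun u => F k (fun i => sh 1 (u i)) - F k u) ε := by
    intro ε hε
    obtain ⟨N1, hN1⟩ := hGε (ε / 2) (by positivity)
    refine ⟨N1, fun k hk j w => ?_⟩
    have := hprob j w
    have h1 := hN1 k hk j w
    have h2 := hN1 k hk j (sh 1 w)
    rw [hequi j w 1, integral_map hsm.aemeasurable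
      (((hGm k).sub hIm).abs.1.aestronglyMeasurable)] at h2
    have h4 := est3 (kap π η K j w) (((hGm k).sub hIm).comp hsm) ((hGm k).sub hIm)
      (MB.const 0) (((hFm k).comp hsm).sub (hFm k)) (x := ε / 2) (y := ε / 2) (z := 0) (by
        filter_upwards [hae j w] with u hu
        have e1 : g k (s u) = g k u := (hgI k).inv u hu.2
        have : F k (s u) - F k u = (G k (s u) - I (s u)) - (G k u - I u) := by
          simp only [hF, e1, hIs]; ring
        rw [this, abs_zero, add_zero]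
        exact abs_sub _ _) h2 h1 (by simp)
    calc _ ≤ ε / 2 + ε / 2 + 0 := h4
      _ = ε := by ring
  -- means over `lif η P`
  have j0 : Fin n := ⟨0, hn⟩
  have hmean : ∀ (f : (Fin n → O) → ℝ) (e : ℝ), MB f → Sn π η K f e →
      ∫ u, |f u| ∂lif η P ≤ e := by
    intro f e hf he
    obtain ⟨h1, h2⟩ := hmix j0 (fun u => |f u|) hf.abs.1 hf.abs.2
    rw [← h2]
    obtain ⟨-, D, hD⟩ := hf.abs
    have h3 : Integrable (fun w => ∫ u, |f u| ∂kap π η K j0 w) (lam.bind η) := by
      refine Integrable.of_bound h1.aestronglyMeasurable D (ae_of_all _ fun w => ?_)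
      have := hprob j0 w
      have h4 := norm_integral_le_of_norm_le_const (μ := kap π η K j0 w)
        (f := fun u => |f u|) (C := D) (ae_of_all _ hD)
      simpa using h4
    calc ∫ w, ∫ u, |f u| ∂kap π η K j0 w ∂(lam.bind η) ≤ ∫ w, e ∂(lam.bind η) :=
          integral_mono_ae h3 (integrable_const _) (ae_of_all _ fun w => he j0 w)
      _ = e := by simp
  -- orthogonality
  have hFo : ∀ h, ISO n π h → Tendsto (fun k => ∫ u, F k u * h u ∂lif η P) atTop (𝓝 0) := by
    intro h hh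
    have hhm : MB h := ⟨hh.cont.measurable, ((hQIS X O n π).2.2 h hh).2.2⟩
    have h1 := hgo h hh
    have h2 : Tendsto (fun k => ∫ u, (G k u - I u) * h u ∂lif η P) atTop (𝓝 0) := by
      obtain ⟨hhm1, D, hD⟩ := hhm
      rw [Metric.tendsto_atTop]
      intro ε hε
      obtain ⟨N, hN⟩ := hGε (ε / (2 * (|D| + 1))) (by positivity)
      refine ⟨N, fun k hk => ?_⟩
      rw [Real.dist_eq, sub_zero]
      have h3 := hmean _ _ ((hGm k).sub hIm) (hN k hk)
      have h4 : |∫ u, (G k u - I u) * h u ∂lif η P| ≤ ∫ u, (|G k u - I u|) * (|D| + 1) ∂lif η P := by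
        refine (abs_integral_le_integral_abs).trans ?_
        refine integral_mono_ae ((((hGm k).sub hIm).mul ⟨hhm1, D, hD⟩).abs.int _)
          ((((hGm k).sub hIm).abs.mul (MB.const (|D| + 1))).int _) (ae_of_all _ fun u => ?_)
        change |(G k u - I u) * h u| ≤ |G k u - I u| * (|D| + 1)
        rw [abs_mul]
        refine mul_le_mul_of_nonneg_left ?_ (abs_nonneg _)
        have := hD u
        have := le_abs_self D
        linarith
      rw [integral_mul_const] at h4
      have h5 : (∫ u, |G k u - I u| ∂lif η P) * (|D| + 1) ≤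
          ε / (2 * (|D| + 1)) * (|D| + 1) :=
        mul_le_mul_of_nonneg_right h3 (by positivity)
      have h6 : ε / (2 * (|D| + 1)) * (|D| + 1) = ε / 2 := by
        field_simp
      linarith
    have h3 := h2.add h1
    rw [add_zero] at h3
    refine h3.congr fun k => ?_
    rw [← integral_add ((((hGm k).sub hIm).mul hhm).int _) (((hIm.sub (hgm k)).mul hhm).int _)]
    congr 1
    funext u
    simp only [hF]
    ring
  have hF2 := hQOR X O n π lam η c P K Pc Kc hn hL hC hQ F hFc hF1 hFC hFI hFo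
  -- the integrals of the squares
  have hmono : ∀ (j : Fin n) (w : O) (p q : (Fin n → O) → ℝ) (e : ℝ), MB p → MB q →
      (∀ u, |p u| ≤ 1) → (∀ u, |q u| ≤ 1) → ∫ u, |p u - q u| ∂kap π η K j w ≤ e →
      |∫ u, p u ^ 2 ∂kap π η K j w - ∫ u, q u ^ 2 ∂kap π η K j w| ≤ 2 * e := by
    intro j w p q e hp hq hp1 hq1 he
    have := hprob j w
    rw [← integral_sub (hp.sq.int _) (hq.sq.int _)]
    refine (abs_integral_le_integral_abs).trans ?_
    have h1 : ∫ u, |p u ^ 2 - q u ^ 2| ∂kap π η K j w ≤ ∫ u, 2 * |p u - q u| ∂kap π η K j w := by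
      refine integral_mono_ae ((hp.sq.sub hq.sq).abs.int _)
        (((MB.const 2).mul (hp.sub hq).abs).int _) (ae_of_all _ fun u => ?_)
      change |p u ^ 2 - q u ^ 2| ≤ 2 * |p u - q u|
      have : p u ^ 2 - q u ^ 2 = (p u + q u) * (p u - q u) := by ring
      rw [this, abs_mul]
      refine mul_le_mul_of_nonneg_right ?_ (abs_nonneg _)
      have h2 := abs_add_le (p u) (q u)
      have h3 := hp1 u
      have h4 := hq1 u
      linarith
    rw [integral_const_mul] at h1
    linarith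
  have hak : ∀ j : Fin n, ∀ ε : ℝ, 0 < ε → ∃ N, ∀ k, N ≤ k → ∀ w,
      |∫ u, F k u ^ 2 ∂kap π η K j w| ≤ ε := by
    intro j
    refine hQUC O (lam.bind η) (fun k w => ∫ u, F k u ^ 2 ∂kap π η K j w) hmin ?_ ?_ ?_ ?_
    · intro k
      exact (hQK2 X O n π lam η c P K hL hC (fun u => F k u ^ 2) ((hFc k).pow 2) j).1
    · intro ε hε
      obtain ⟨N, hN⟩ := hFC (ε / 2) (by positivity)
      refine ⟨N, fun k hk l hl w => ?_⟩
      have := hmono j w (F k) (F l) _ (hFm k) (hFm l) (hF1 k) (hF1 l) (hN k hk l hl j w)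
      linarith
    · intro ε hε
      obtain ⟨N, hN⟩ := hFI (ε / 2) (by positivity)
      refine ⟨N, fun k hk w => ?_⟩
      have h1 := hmono j w (fun u => F k (s u)) (F k) _ ((hFm k).comp hsm) (hFm k)
        (fun u => hF1 k _) (hF1 k) (hN k hk j w)
      have h2 : ∫ u, F k u ^ 2 ∂kap π η K j (sh 1 w) = ∫ u, F k (s u) ^ 2 ∂kap π η K j w := by
        rw [hequi j w 1, integral_map hsm.aemeasurable ((hFm k).sq.1.aestronglyMeasurable)]
      change |∫ u, F k u ^ 2 ∂kap π η K j (sh 1 w) - ∫ u, F k u ^ 2 ∂kap π η K j w| ≤ ε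
      rw [h2]
      linarith
    · refine hF2.congr fun k => ?_
      exact ((hmix j (fun u => F k u ^ 2) (hFm k).sq.1 (hFm k).sq.2).2).symm
  choose N hN using fun j => hak j (ε / 4) (by positivity)
  obtain ⟨N0, hN0⟩ := hGε (ε / 4) (by positivity)
  let k := max N0 (Finset.univ.sup N)
  refine ⟨g k, hgI k, hg01 k, fun j w => ?_⟩
  have := hprob j w
  have hk0 : N0 ≤ k := le_max_left _ _
  have hkj : N j ≤ k := (Finset.le_sup (Finset.mem_univ j)).trans (le_max_right _ _)
  have h1 := hN0 k hk0 j w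
  have h2 := hN j k hkj w
  have h3 : ∫ u, (I u - g k u) ^ 2 ∂kap π η K j w ≤
      ∫ u, (2 * |G k u - I u| + 2 * F k u ^ 2) ∂kap π η K j w := by
    refine integral_mono_ae ((hIm.sub (hgm k)).sq.int _)
      ((((MB.const 2).mul ((hGm k).sub hIm).abs).add ((MB.const 2).mul (hFm k).sq)).int _)
      (ae_of_all _ fun u => ?_)
    change (I u - g k u) ^ 2 ≤ 2 * |G k u - I u| + 2 * F k u ^ 2
    have e1 : I u - g k u = -(G k u - I u) + F k u := by simp only [hF]; ring
    rw [e1]
    set x := G k u - I u with hx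
    set y := F k u
    have hx1 : |x| ≤ 1 := by
      have a1 := hG01 k u
      have a2 := hI01 u
      exact abs_le.2 ⟨by rw [hx]; linarith, by rw [hx]; linarith⟩
    have hx2 : x ^ 2 ≤ |x| := by
      rw [← sq_abs]
      have := abs_nonneg x
      nlinarith
    nlinarith [sq_nonneg (x + y)]
  rw [integral_add (((MB.const 2).mul ((hGm k).sub hIm).abs).int _)
    (((MB.const 2).mul (hFm k).sq).int _), integral_const_mul, integral_const_mul] at h3
  have h4 := le_abs_self (∫ u, F k u ^ 2 ∂kap π η K j w)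
  calc ∫ u, (I u - g k u) ^ 2 ∂kap π η K j w ≤ _ := h3
    _ ≤ 2 * (ε / 4) + 2 * (ε / 4) := by
        refine add_le_add (mul_le_mul_of_nonneg_left h1 (by norm_num))
          (mul_le_mul_of_nonneg_left (h4.trans h2) (by norm_num))
    _ = ε := by ring

end Pool.Agent.Work.MP_69fea5_lc.W3
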