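import Pool.Agent.Work.MP_69fea5_lc.W3.StmtsQ

/-!
# Block [69fea5 W3 Q], item QUC: uniform limits on minimal systems
-/

set_option autoImplicit false

namespace Pool.Agent.Work.MP_69fea5_lc.W3

open MeasureTheory ProbabilityTheory Topology Set Filter TopologicalSpace
open scoped NNReal ENNReal
open Pool.Agent.Work.MP_69fea5_lc.AK

namespace I_QUC

/-- a continuous function on a minimal system which is invariant under the shift is constant -/
theorem const {O : Type} [TopologicalSpace O] [Sys O] (hm : MinSet (univ : Set O)) (L : O → ℝ)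
    (hc : Continuous L) (h1 : ∀ w, L (sh 1 w) = L w) (w w' : O) : L w = L w' := by
  have hnat : ∀ (n : ℕ) (w : O), L (sh (n : ℤ) w) = L w := by
    intro n
    induction n with
    | zero => intro w; simp [sh_zero]
    | succ n ih =>
      intro w
      have : ((n + 1 : ℕ) : ℤ) = 1 + n := by push_cast; ring
      rw [this, sh_add, h1, ih]
  have hint : ∀ (n : ℤ) (w : O), L (sh n w) = L w := by
    intro n w
    obtain ⟨k, rfl | rfl⟩ := n.eq_nat_or_neg
    · exact hnat k w
    · have h2 := hnat k (sh (-(k : ℤ)) w)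
      rw [← sh_add, add_neg_cancel, sh_zero] at h2
      exact h2.symm
  have key : ∀ w w' : O, L w ≤ L w' := by
    intro w w'
    have h3 : {x : O | L w ≤ L x} = univ :=
      hm.min _ (isClosed_le continuous_const hc) ⟨w, le_refl (L w)⟩
        (fun n x hx => by rw [mem_setOf_eq, hint]; exact hx) (subset_univ _)
    have h4 : w' ∈ {x : O | L w ≤ L x} := h3 ▸ mem_univ w'
    exact h4
  exact le_antisymm (key w w') (key w' w)

end I_QUC

theorem QUC_pf : S_QUC := by
  intro O _ _ _ _ μ _ a hm hc hca hinv hmean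
  have hcau : ∀ w, CauchySeq fun k => a k w := by
    intro w
    rw [Metric.cauchySeq_iff]
    intro ε hε
    obtain ⟨N, hN⟩ := hca (ε / 2) (half_pos hε)
    refine ⟨N, fun k hk l hl => ?_⟩
    rw [Real.dist_eq]
    exact (hN k hk l hl w).trans_lt (half_lt_self hε)
  choose L hL using fun w => cauchySeq_tendsto_of_complete (hcau w)
  have hunif : ∀ ε : ℝ, 0 < ε → ∃ N, ∀ k, N ≤ k → ∀ w, |a k w - L w| ≤ ε := by
    intro ε hε
    obtain ⟨N, hN⟩ := hca ε hε
    refine ⟨N, fun k hk w => ?_⟩
    have h1 : Tendsto (fun l => |a k w - a l w|) atTop (𝓝 |a k w - L w|) :=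
      (tendsto_const_nhds.sub (hL w)).abs
    refine le_of_tendsto h1 ?_
    filter_upwards [eventually_ge_atTop N] with l hl
    exact hN k hk l hl w
  have hLc : Continuous L := by
    have h2 : TendstoUniformly a L atTop := by
      rw [Metric.tendstoUniformly_iff]
      intro ε hε
      obtain ⟨N, hN⟩ := hunif (ε / 2) (half_pos hε)
      filter_upwards [eventually_ge_atTop N] with k hk w
      rw [dist_comm, Real.dist_eq]
      exact (hN k hk w).trans_lt (half_lt_self hε)
    exact h2.continuous (Eventually.of_forall hc).frequently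
  have hL1 : ∀ w, L (sh 1 w) = L w := by
    intro w
    have h3 : Tendsto (fun k => |a k (sh 1 w) - a k w|) atTop (𝓝 |L (sh 1 w) - L w|) :=
      ((hL (sh 1 w)).sub (hL w)).abs
    have h4 : |L (sh 1 w) - L w| ≤ 0 := by
      refine le_of_forall_pos_le_add fun ε hε => ?_
      rw [zero_add]
      obtain ⟨N, hN⟩ := hinv ε hε
      refine le_of_tendsto h3 ?_
      filter_upwards [eventually_ge_atTop N] with k hk
      exact hN k hk w
    have h5 := abs_eq_zero.1 (le_antisymm h4 (abs_nonneg _))
    linarith
  obtain ⟨w₀⟩ : Nonempty O := by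
    by_contra h
    rw [not_nonempty_iff] at h
    have := measure_univ (μ := μ)
    rw [univ_eq_empty_iff.2 h, measure_empty] at this
    exact zero_ne_one this
  have hconst : ∀ w, L w = L w₀ := fun w => I_QUC.const hm L hLc hL1 w w₀
  have hlim : Tendsto (fun k => ∫ w, a k w ∂μ) atTop (𝓝 (L w₀)) := by
    rw [Metric.tendsto_atTop]
    intro ε hε
    obtain ⟨N, hN⟩ := hunif (ε / 2) (half_pos hε)
    refine ⟨N, fun k hk => ?_⟩
    have hi : Integrable (a k) μ := by
      have := (BoundedContinuousFunction.mkOfCompact ⟨a k, hc k⟩).integrable μ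
      exact this
    have h6 : ∫ w, a k w ∂μ - L w₀ = ∫ w, (a k w - L w₀) ∂μ := by
      rw [integral_sub hi (integrable_const _)]
      simp
    rw [Real.dist_eq, h6]
    have h7 : ‖∫ w, (a k w - L w₀) ∂μ‖ ≤ ε / 2 * μ.real univ :=
      norm_integral_le_of_norm_le_const (ae_of_all _ fun w => by
        rw [Real.norm_eq_abs, ← hconst w]
        exact hN k hk w)
    rw [probReal_univ, mul_one, Real.norm_eq_abs] at h7
    exact h7.trans_lt (half_lt_self hε)
  have hzero : L w₀ = 0 := tendsto_nhds_unique hlim hmean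
  intro ε hε
  obtain ⟨N, hN⟩ := hunif ε hε
  refine ⟨N, fun k hk w => ?_⟩
  have h8 := hN k hk w
  rwa [hconst w, hzero, sub_zero] at h8

end Pool.Agent.Work.MP_69fea5_lc.W3
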