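import Pool.Agent.Work.MP_69fea5_lc.W3.StmtsR

/-!
# Block [69fea5 W3 R], item RKM: the disintegration with values in the system `M`

Proof: docstring of `S_RKM` in `W3/StmtsR.lean`.
-/

set_option autoImplicit false

namespace Pool.Agent.Work.MP_69fea5_lc.W3

open MeasureTheory Topology Set Filter TopologicalSpace ProbabilityTheory
open scoped NNReal ENNReal
open Pool.Agent.Work.MP_69fea5_lc.AK

namespace I_RKM

section equiv

variable {O X : Type} [TopologicalSpace O] [MeasurableSpace O] [CS O] [Sys O]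
  [TopologicalSpace X] [MeasurableSpace X] [CS X] [Sys X]

theorem meas_sh {Z : Type} [TopologicalSpace Z] [MeasurableSpace Z] [CS Z] [Sys Z] (m : ℤ) :
    Measurable (sh m : Z → Z) := (sh_cont m).measurable

theorem map_sh_add {Z : Type} [TopologicalSpace Z] [MeasurableSpace Z] [CS Z] [Sys Z]
    (ν : Measure Z) (m n : ℤ) : (ν.map (sh n : Z → Z)).map (sh m : Z → Z) =
      ν.map (sh (m + n) : Z → Z) := by
  rw [Measure.map_map (meas_sh m) (meas_sh n)]
  congr 1
  exact funext fun z => (sh_add m n z).symm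

theorem map_sh_zero {Z : Type} [TopologicalSpace Z] [MeasurableSpace Z] [CS Z] [Sys Z]
    (ν : Measure Z) : ν.map (sh 0 : Z → Z) = ν := by
  have : (sh 0 : Z → Z) = id := funext fun z => sh_zero z
  rw [this, Measure.map_id]

theorem inv_all {Z : Type} [TopologicalSpace Z] [MeasurableSpace Z] [CS Z] [Sys Z]
    {ν : Measure Z} (h : ν.map (sh 1 : Z → Z) = ν) (m : ℤ) : ν.map (sh m : Z → Z) = ν := by
  have hm1 : ν.map (sh (-1) : Z → Z) = ν := by
    conv_lhs => rw [← h]
    rw [map_sh_add]
    exact map_sh_zero ν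
  induction m using Int.induction_on with
  | zero => exact map_sh_zero ν
  | succ i ih =>
    rw [← map_sh_add, h, ih]
  | pred i ih =>
    have : (-(i : ℤ) - 1) = -(i : ℤ) + -1 := by ring
    rw [this, ← map_sh_add, hm1, ih]

theorem eqv_all {lam : Measure X} (hl : ∀ m : ℤ, lam.map (sh m : X → X) = lam)
    {η : Kernel X O} (h : ∀ᵐ v ∂lam, η (sh 1 v) = (η v).map (sh 1 : O → O)) (m : ℤ) :
    ∀ᵐ v ∂lam, η (sh m v) = (η v).map (sh m : O → O) := by
  have hmove : ∀ (n : ℤ) (p : X → Prop), (∀ᵐ v ∂lam, p v) → ∀ᵐ v ∂lam, p (sh n v) := by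
    intro n p hp
    refine ae_of_ae_map (f := (sh n : X → X)) (meas_sh n).aemeasurable ?_
    rw [hl n]
    exact hp
  have hadd : ∀ m n : ℤ, (∀ᵐ v ∂lam, η (sh m v) = (η v).map (sh m : O → O)) →
      (∀ᵐ v ∂lam, η (sh n v) = (η v).map (sh n : O → O)) →
      ∀ᵐ v ∂lam, η (sh (m + n) v) = (η v).map (sh (m + n) : O → O) := by
    intro m n hm hn
    filter_upwards [hn, hmove n _ hm] with v h1 h2
    rw [sh_add, h2, h1, map_sh_add]
  have hneg : ∀ᵐ v ∂lam, η (sh (-1) v) = (η v).map (sh (-1) : O → O) := by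
    filter_upwards [hmove (-1) _ h] with v h1
    rw [← sh_add] at h1
    have h2 : (1 : ℤ) + -1 = 0 := by norm_num
    rw [h2, sh_zero] at h1
    rw [h1, map_sh_add]
    have h3 : (-1 : ℤ) + 1 = 0 := by norm_num
    rw [h3, map_sh_zero]
  induction m using Int.induction_on with
  | zero =>
    refine Eventually.of_forall fun v => ?_
    rw [sh_zero, map_sh_zero]
  | succ i ih => exact hadd _ _ ih h
  | pred i ih =>
    have : (-(i : ℤ) - 1) = -(i : ℤ) + -1 := by ring
    rw [this]
    exact hadd _ _ ih hneg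

theorem core (hQFM : S_QFM) {N : Type} [TopologicalSpace N] [MeasurableSpace N] [CS N] [Sys N]
    (o : N → O) (ho : MeasurableEmbedding o) (hoc : Continuous o)
    (hos : ∀ (m : ℤ) (w : N), o (sh m w) = sh m (o w)) (w₀ : N) {M : Set O} (hr : range o = M)
    {π : O → X} {lam : ProbabilityMeasure X} {μ : ProbabilityMeasure O} {η : Kernel X O}
    (hT : TopL M π lam μ η) (hinv : (lam : Measure X).map (sh 1 : X → X) = lam) :
    ∃ ηO : Kernel X N, Lft (fun w => π (o w)) (lam : Measure X) ηO ∧
      ∀ (ι : Type) [Fintype ι] (C : ℝ≥0) (Q : Measure (ι → X)), IsProbabilityMeasure Q →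
      (∀ i, Q.map (fun z => z i) ≤ C • (lam : Measure X)) →
      (lif ηO Q).map (fun u i => o (u i)) = lif η Q := by
  classical
  have hmk : IsMarkovKernel η := hT.mar
  have hM : MeasurableSet M := hT.min.closed.measurableSet
  have hG : MeasurableSet {v : X | η v M = 1} :=
    (η.measurable_coe hM) (measurableSet_singleton 1)
  -- the kernel
  obtain ⟨ηO, hη⟩ : ∃ ηO : Kernel X N, ηO = Kernel.piecewise hG (Kernel.comapRight η ho)
    (Kernel.const X (Measure.dirac w₀)) := ⟨_, rfl⟩
  have hgood : ∀ v, η v M = 1 → ηO v = (η v).comap o := by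
    intro v hv
    rw [hη, Kernel.piecewise_apply, if_pos (show v ∈ {v : X | η v M = 1} from hv),
      Kernel.comapRight_apply]
  have hbad : ∀ v, η v M ≠ 1 → ηO v = Measure.dirac w₀ := by
    intro v hv
    rw [hη, Kernel.piecewise_apply, if_neg (show v ∉ {v : X | η v M = 1} from hv),
      Kernel.const_apply]
  have hmkO : IsMarkovKernel ηO := by
    refine ⟨fun v => ⟨?_⟩⟩
    by_cases hv : η v M = 1
    · rw [hgood v hv, ho.comap_apply, image_univ, hr, hv]
    · rw [hbad v hv]
      exact measure_univ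
  have hmap : ∀ v, η v M = 1 → (ηO v).map o = η v := by
    intro v hv
    rw [hgood v hv, ho.map_comap, hr]
    exact Measure.restrict_eq_self_of_ae_mem ((prob_compl_eq_zero_iff hM).2 hv)
  have hae : ∀ᵐ v ∂(lam : Measure X), η v M = 1 := by
    filter_upwards [hT.fib] with v hv
    refine (prob_compl_eq_zero_iff hM).1 (measure_mono_null ?_ hv)
    intro z hz hz'
    exact hz hz'.1
  have hl := inv_all hinv
  have hmove : ∀ (n : ℤ) (p : X → Prop), (∀ᵐ v ∂(lam : Measure X), p v) →
      ∀ᵐ v ∂(lam : Measure X), p (sh n v) := by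
    intro n p hp
    refine ae_of_ae_map (f := (sh n : X → X)) (meas_sh n).aemeasurable ?_
    rw [hl n]
    exact hp
  refine ⟨ηO, ⟨?_, ?_, inferInstance, hl, hmkO, ?_, ?_⟩, ?_⟩
  · refine continuousOn_univ.1 (hT.cont.comp hoc.continuousOn ?_)
    intro w _
    rw [← hr]
    exact ⟨w, rfl⟩
  · intro m w
    rw [hos]
    exact hT.equi _ (by rw [← hr]; exact ⟨w, rfl⟩) m
  · filter_upwards [hT.fib, hae] with v hv hv1
    change (ηO v) {w | ¬ π (o w) = v} = 0
    rw [hgood v hv1, ho.comap_apply]
    refine measure_mono_null ?_ hv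
    rintro _ ⟨w, hw, rfl⟩ hz
    exact hw hz.2
  · intro m
    filter_upwards [hae, hmove m _ hae, eqv_all hl hT.eqv m] with v h1 h2 h3
    have h4 : (ηO (sh m v)).map o = ((ηO v).map (sh m : N → N)).map o := by
      rw [hmap _ h2, h3, ← hmap v h1, Measure.map_map (meas_sh m) ho.measurable,
        Measure.map_map ho.measurable (meas_sh m)]
      congr 1
      exact funext fun z => (hos m z).symm
    rw [← ho.comap_map (ηO (sh m v)), h4, ho.comap_map]
  · intro ι _ C Q hQ hdom
    have hfm := hQFM X O ι η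
    have hfmO := hQFM X N ι ηO
    have hf : Measurable fun (u : ι → N) (i : ι) => o (u i) :=
      measurable_pi_lambda _ fun i => ho.measurable.comp (measurable_pi_apply i)
    have hz : ∀ᵐ z ∂Q, ∀ i, η (z i) M = 1 := by
      rw [ae_all_iff]
      intro i
      have h1 : (Q.map fun z => z i) ≪ (lam : Measure X) :=
        (Measure.absolutelyContinuous_of_le (hdom i)).trans
          (Measure.AbsolutelyContinuous.smul_left Measure.AbsolutelyContinuous.rfl C)
      have h2 : ∀ᵐ x ∂(Q.map fun z => z i), η x M = 1 := h1.ae_le hae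
      exact ae_of_ae_map (measurable_pi_apply i).aemeasurable h2
    ext B hB
    rw [Measure.map_apply hf hB, hfmO.2.2.1 Q _ (hf hB), hfm.2.2.1 Q B hB]
    refine lintegral_congr_ae ?_
    filter_upwards [hz] with z hz
    have hpr : ∀ i, IsProbabilityMeasure ((ηO (z i)).map o) := fun i =>
      Measure.isProbabilityMeasure_map ho.measurable.aemeasurable
    have h3 : (Measure.pi fun i => ηO (z i)).map (fun (u : ι → N) i => o (u i)) =
        Measure.pi fun i => (ηO (z i)).map o :=
      Measure.pi_map_pi (μ := fun i => ηO (z i)) (f := fun _ => o)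
        fun i => ho.measurable.aemeasurable
    rw [← Measure.map_apply hf hB, h3]
    have h4 : (fun i => (ηO (z i)).map o) = fun i => η (z i) := funext fun i => hmap _ (hz i)
    rw [h4]

end equiv

end I_RKM

open I_RKM in
theorem RKM_pf (hQFM : S_QFM) : S_RKM := by
  intro k X _ _ _ _ M π lam μ η hM hT hinv
  obtain ⟨x₀, hx₀⟩ := hM.ne
  have hemb : MeasurableEmbedding (oM hM) :=
    MeasurableEmbedding.subtype_coe hM.closed.measurableSet
  have hcont : Continuous (oM hM) := continuous_subtype_val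
  have heq : ∀ (m : ℤ) (w : SysM hM), oM hM (sh m w) = sh m (oM hM w) := fun m w => rfl
  have hran : range (oM hM) = M := Subtype.range_coe
  exact core (N := SysM hM) hQFM (oM hM) hemb hcont heq (⟨x₀, hx₀⟩ : M) hran hT hinv

end Pool.Agent.Work.MP_69fea5_lc.W3
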