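import Pool.Agent.Work.MP_69fea5_lc.W3.StmtsR

set_option autoImplicit false

namespace Pool.Agent.Work.MP_69fea5_lc.W3

open MeasureTheory Topology Set Filter TopologicalSpace ProbabilityTheory
open scoped NNReal ENNReal
open Pool.Agent.Work.MP_69fea5_lc.AK

namespace I_RTA

section ms

variable {k : ℕ} {M : Set (Om k)} (hM : MinSet M)

theorem oM_cont : Continuous (oM hM) := by
  exact (continuous_subtype_val : Continuous (Subtype.val : M → Om k))

theorem oM_inj : Function.Injective (oM hM) := by
  exact (Subtype.val_injective : Function.Injective (Subtype.val : M → Om k))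

theorem oM_mem (w : SysM hM) : oM hM w ∈ M := Subtype.property (p := (· ∈ M)) w

theorem oM_sh (m : ℤ) (w : SysM hM) : oM hM (sh m w) = sh m (oM hM w) := rfl

/-- a point of `M` as a point of the system -/
def toM {w : Om k} (hw : w ∈ M) : SysM hM := (⟨w, hw⟩ : M)

theorem oM_toM {w : Om k} (hw : w ∈ M) : oM hM (toM hM hw) = w := rfl

theorem minU : MinSet (univ : Set (SysM hM)) where
  closed := isClosed_univ
  ne := by
    obtain ⟨w, hw⟩ := hM.ne
    exact ⟨toM hM hw, mem_univ _⟩
  inv := fun _ _ _ => mem_univ _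
  min := by
    intro L hL hne hinv _
    have h1 : oM hM '' L = M := by
      refine hM.min _ ?_ (hne.image _) ?_ ?_
      · exact (hL.isCompact.image (oM_cont hM)).isClosed
      · rintro n _ ⟨w, hw, rfl⟩
        exact ⟨sh n w, hinv n w hw, oM_sh hM n w⟩
      · rintro _ ⟨w, hw, rfl⟩
        exact oM_mem hM w
    refine eq_univ_of_forall fun w => ?_
    have h2 : oM hM w ∈ oM hM '' L := by
      rw [h1]
      exact oM_mem hM w
    obtain ⟨w', hw', he⟩ := h2
    rw [← oM_inj hM he]
    exact hw'

theorem oMpi_emb (ι : Type) [Fintype ι] :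
    MeasurableEmbedding (fun (u : ι → SysM hM) i => oM hM (u i)) := by
  have hc : Continuous (fun (u : ι → SysM hM) i => oM hM (u i)) :=
    continuous_pi fun i => (oM_cont hM).comp (continuous_apply i)
  have hi : Function.Injective (fun (u : ι → SysM hM) i => oM hM (u i)) := by
    intro u u' h
    funext i
    exact oM_inj hM (congrFun h i)
  exact (hc.isClosedEmbedding hi).measurableEmbedding

end ms

theorem meas_comp {Y : Type} [MeasurableSpace Y] {ι ι' : Type} (e : ι' → ι) :
    Measurable (fun (z : ι → Y) (i : ι') => z (e i)) :=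
  measurable_pi_lambda _ fun i => measurable_pi_apply (e i)

theorem meas_cons {Y : Type} [MeasurableSpace Y] {n : ℕ} (y : Y) :
    Measurable (fun u : Fin n → Y => (Fin.cons y u : Fin (n + 1) → Y)) := by
  refine measurable_pi_lambda _ fun i => ?_
  refine Fin.cases ?_ (fun i => ?_) i
  · exact measurable_const
  · simp only [Fin.cons_succ]
    exact measurable_pi_apply i

theorem cns_comp {Y Z : Type} {n : ℕ} (f : Y → Z) (y : Y) (u : Fin (n + 1) → Y) :
    (fun i => f (cns y u i)) = cns (f y) (fun j => f (u j)) := by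
  funext i
  refine Fin.cases ?_ (fun i => ?_) i
  · rfl
  · rfl

end I_RTA

open I_RTA in
theorem RTA_pf (hQT3 : S_QT3) (hQFN : S_QFN) (hQK1 : S_QK1) (hRKM : S_RKM) (hRFG : S_RFG) :
    S_RTA := by
  intro k n X _ _ _ _ M π lam μ η P K K' hPo hT hXI hK' hTF R hR ε hε
  have hM : MinSet M := hPo.min
  have := hT.mar
  obtain ⟨ηO, hL, hlift⟩ := hRKM k X M π lam μ η hM hT (hXI.inv 1)
  have := hL.mrk
  obtain ⟨c, Pc, Kc, hC, hQ⟩ := hXI.cube (n + 1)
  -- the closed set of tuples
  have hoc : Continuous (fun (u : Fin (n + 1) → SysM hM) i => oM hM (u i)) :=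
    continuous_pi fun i => (oM_cont hM).comp (continuous_apply i)
  set RO : Set (Fin (n + 1) → SysM hM) := {u | (fun i => oM hM (u i)) ∈ R} with hRO
  have hROc : IsClosed RO := hR.closed.preimage hoc
  have hROi : ∀ (m : ℤ), ∀ u ∈ RO, (fun i => sh m (u i)) ∈ RO := by
    intro m u hu
    exact hR.inv m _ hu
  obtain ⟨g, hgI, hg01, hgε⟩ := hQT3 X (SysM hM) (n + 1) (fun w => π (oM hM w)) (lam : Measure X) ηO c
    (P (n + 1)) (K (n + 1)) Pc Kc (minU hM) hL hC hQ RO hROc hROi ε hε
  obtain ⟨g', hgV, hgg⟩ := hRFG k (n + 1) X M π hM hPo hTF g hgI hg01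
  refine ⟨g', hgV, ?_⟩
  intro w₀ hw₀
  set w : SysM hM := toM hM hw₀ with hw
  have hww : oM hM w = w₀ := rfl
  set x : X := π w₀ with hx
  have hxw : π (oM hM w) = x := rfl
  -- the law of the positions `1, …, n`
  set Q3 : Measure (Fin n → X) :=
    (K (n + 1) 0 x : Measure (Fin (n + 1) → X)).map (fun z (i : Fin n) => z i.succ) with hQ3
  have hQ3p : IsProbabilityMeasure Q3 :=
    Measure.isProbabilityMeasure_map (meas_comp _).aemeasurable
  have hQ3' : (K' x : Measure (Fin (n + 1) → X)).map (fun z (i : Fin n) => z i.castSucc) = Q3 := by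
    have h1 := hXI.kcs (n + 1) 0 x
    rw [hQ3, ← h1, hK' x, Measure.map_map (meas_comp _) (meas_comp _),
      Measure.map_map (meas_comp _) (meas_comp _)]
    rfl
  have hdom : ∀ i : Fin n, Q3.map (fun z => z i) ≤ c • (lam : Measure X) := by
    intro i
    have h2 := hC.dom 0 i.succ (Fin.succ_ne_zero i) x
    have hm : Measurable (fun z : Fin n → X => z i) := measurable_pi_apply i
    rw [hQ3, Measure.map_map hm (meas_comp _)]
    exact h2
  have hlaw3 : (lif ηO Q3).map (fun (u : Fin n → SysM hM) i => oM hM (u i)) = lif η Q3 :=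
    hlift (Fin n) c Q3 hQ3p hdom
  -- the equality of the laws
  have hoM3 : Measurable (fun (u : Fin n → SysM hM) i => oM hM (u i)) :=
    (oMpi_emb hM (Fin n)).measurable
  have hcns : Measurable (cns w₀ : (Fin (n + 1) → Om k) → Fin (n + 1) → Om k) :=
    (meas_cons w₀).comp (meas_comp (fun i : Fin n => i.castSucc))
  have hupd : Measurable (fun u : Fin (n + 1) → SysM hM => Function.update u 0 w) := by
    have : (fun u : Fin (n + 1) → SysM hM => Function.update u 0 w) =
        fun u => (Fin.cons w (fun i : Fin n => u i.succ) : Fin (n + 1) → SysM hM) := by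
      funext u i
      refine Fin.cases ?_ (fun i => ?_) i
      · simp
      · simp
    rw [this]
    exact (meas_cons w).comp (meas_comp (fun i : Fin n => i.succ))
  have hLHS : (lif η (K' x : Measure (Fin (n + 1) → X))).map (cns w₀) =
      (lif η Q3).map (fun u => (Fin.cons w₀ u : Fin (n + 1) → Om k)) := by
    have h3 := (hQFN X (Om k) (Fin (n + 1)) η).1 (Fin n) (fun i => i.castSucc)
      (Fin.castSucc_injective n) (K' x : Measure (Fin (n + 1) → X))
    rw [hQ3'] at h3
    rw [← h3, Measure.map_map (meas_cons w₀) (meas_comp _)]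
    rfl
  have hRHS : (kap (fun w => π (oM hM w)) ηO (K (n + 1)) 0 w).map
      (fun (u : Fin (n + 1) → SysM hM) i => oM hM (u i)) =
      (lif η Q3).map (fun u => (Fin.cons w₀ u : Fin (n + 1) → Om k)) := by
    have h4 := (hQFN X (SysM hM) (Fin (n + 1)) ηO).1 (Fin n) (fun i => i.succ)
      (Fin.succ_injective n) (K (n + 1) 0 x : Measure (Fin (n + 1) → X))
    rw [← hQ3] at h4
    rw [← hlaw3, ← h4, kap, Measure.map_map (oMpi_emb hM _).measurable hupd,
      Measure.map_map hoM3 (meas_comp _), Measure.map_map (meas_cons w₀)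
        (hoM3.comp (meas_comp _))]
    congr 1
    funext u i
    refine Fin.cases ?_ (fun i => ?_) i
    · simp [hww]
    · simp
  have hlaw : (lif η (K' x : Measure (Fin (n + 1) → X))).map (cns w₀) =
      (kap (fun w => π (oM hM w)) ηO (K (n + 1)) 0 w).map
        (fun (u : Fin (n + 1) → SysM hM) i => oM hM (u i)) := hLHS.trans hRHS.symm
  -- the integrand
  set H : (Fin (n + 1) → Om k) → ℝ := fun v =>
    (R.indicator (fun _ => (1 : ℝ)) v - g' (fun i => π (v i))) ^ 2 with hH
  have hHo : Measurable (fun u : Fin (n + 1) → SysM hM => H fun i => oM hM (u i)) := by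
    have h5 : Measurable (fun u : Fin (n + 1) → SysM hM =>
        R.indicator (fun _ => (1 : ℝ)) (fun i => oM hM (u i))) :=
      (measurable_const.indicator hR.closed.measurableSet).comp hoc.measurable
    have h6 : Measurable (fun u : Fin (n + 1) → SysM hM => g' (fun i => π (oM hM (u i)))) :=
      (hgV.cont.comp (continuous_pi fun i => hL.cont.comp (continuous_apply i))).measurable
    exact (h5.sub h6).pow_const 2
  have hHm : AEStronglyMeasurable H ((lif η (K' x : Measure (Fin (n + 1) → X))).map (cns w₀)) := by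
    rw [hlaw, (oMpi_emb hM (Fin (n + 1))).aestronglyMeasurable_map_iff]
    exact hHo.aestronglyMeasurable
  have hint : ∫ u, H (cns w₀ u) ∂(lif η (K' x : Measure (Fin (n + 1) → X))) =
      ∫ u, H (fun i => oM hM (u i)) ∂(kap (fun w => π (oM hM w)) ηO (K (n + 1)) 0 w) := by
    rw [← integral_map hcns.aemeasurable hHm, hlaw,
      (oMpi_emb hM (Fin (n + 1))).integral_map]
  have hae := (hQK1 X (SysM hM) (n + 1) (fun w => π (oM hM w)) (lam : Measure X) ηO c
    (P (n + 1)) (K (n + 1)) hL hC).2.1 0 w
  have hfin : ∫ u, H (fun i => oM hM (u i)) ∂(kap (fun w => π (oM hM w)) ηO (K (n + 1)) 0 w) =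
      ∫ u, (RO.indicator 1 u - g u) ^ 2 ∂(kap (fun w => π (oM hM w)) ηO (K (n + 1)) 0 w) := by
    refine integral_congr_ae ?_
    filter_upwards [hae] with u hu
    have h7 := hgg u hu.2
    simp only [hH]
    rw [← h7]
    congr 2
  calc ∫ u, ((R.indicator (fun _ => (1 : ℝ)) (cns w₀ u) -
      g' (cns (π w₀) fun j => π (u j))) ^ 2) ∂(lif η (K' (π w₀) : Measure (Fin (n + 1) → X)))
      = ∫ u, H (cns w₀ u) ∂(lif η (K' x : Measure (Fin (n + 1) → X))) := by
        refine integral_congr_ae (Eventually.of_forall fun u => ?_)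
        simp only [hH]
        rw [cns_comp π w₀ u]
    _ ≤ ε := by
        rw [hint, hfin]
        exact hgε 0 w

end Pool.Agent.Work.MP_69fea5_lc.W3
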