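import Pool.Agent.Work.MP_69fea5_lc.W3.StmtsR

/-!
# Item [69fea5 W3 RTF]: the last level of a tower
-/

set_option autoImplicit false

namespace Pool.Agent.Work.MP_69fea5_lc.W3

open MeasureTheory Topology Set Filter TopologicalSpace ProbabilityTheory
open scoped NNReal ENNReal
open Pool.Agent.Work.MP_69fea5_lc.AK

theorem RTF_pf (hLFR : S_LFR) (hRUP : S_RUP) : S_RTF := by
  intro k n X M π p hn hPo h0 hS hD
  obtain ⟨m, rfl⟩ : ∃ m, n = m + 3 := ⟨n - 3, by omega⟩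
  change TopF (m + 3) M (π (m + 2))
  have hCM : CM (m + 3) M (π (m + 1)) = CM (m + 3) M (π (m + 2)) :=
    hLFR k (m + 3) X M π p hn hPo h0 hS
  intro ρ hρ G hG u hu u' hu' huu
  obtain ⟨ρ', hρ', hG'⟩ := hRUP k (m + 3) (X (m + 1)).C (X (m + 2)).C M (π (m + 1)) (π (m + 2))
    (p (m + 1)) ρ G (hPo (m + 1)) (hPo (m + 2)) (hS (m + 1)).cont (hS (m + 1)).comp
    (hD (m + 1)) (hD (m + 2)) hCM hρ hG
  exact (hS (m + 1)).fine ρ' hρ' G hG' u (hCM.symm ▸ hu) u' (hCM.symm ▸ hu') huu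

end Pool.Agent.Work.MP_69fea5_lc.W3
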