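import Pool.Agent.Work.MP_69fea5_lc.W3.StmtsR

/-!
# Block [69fea5 W3 R]: item RUP (functions of the class `IsoF` over `X'` are of this class over `X`)
-/

set_option autoImplicit false

namespace Pool.Agent.Work.MP_69fea5_lc.W3

open MeasureTheory Topology Set Filter TopologicalSpace ProbabilityTheory
open scoped NNReal ENNReal
open Pool.Agent.Work.MP_69fea5_lc.AK

namespace I_RUP

/-- lifting of a convergent family through an open map of a compact metrizable space -/
theorem openLift {ι X Y : Type} [TopologicalSpace X] [CompactSpace X] [MetrizableSpace X]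
    [TopologicalSpace Y] [T1Space Y] {K : Set X} (hK : IsClosed K) {f : X → Y}
    (hf : ContinuousOn f K) {x : X} (hx : x ∈ K)
    (ho : ∀ U : Set X, IsOpen U → ∀ x ∈ U ∩ K, ∃ V ∈ 𝓝 (f x), V ∩ f '' K ⊆ f '' (U ∩ K))
    {F : Filter ι} {y : ι → Y} (hy : ∀ l, y l ∈ f '' K) (ht : Tendsto y F (𝓝 (f x))) :
    ∃ z : ι → X, (∀ l, z l ∈ K ∧ f (z l) = y l) ∧ Tendsto z F (𝓝 x) := by
  let _ : MetricSpace X := metrizableSpaceMetric X
  have h1 : ∀ l, ∃ z : X, (z ∈ K ∧ f z = y l) ∧ ∀ z', z' ∈ K → f z' = y l →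
      dist z x ≤ dist z' x := by
    intro l
    have hc : IsClosed (K ∩ f ⁻¹' {y l}) := hf.preimage_isClosed_of_isClosed hK isClosed_singleton
    have hne : (K ∩ f ⁻¹' {y l}).Nonempty := by
      obtain ⟨z, hz, e⟩ := hy l
      exact ⟨z, hz, e⟩
    obtain ⟨z, hz, hm⟩ := hc.isCompact.exists_isMinOn hne
      (f := fun z => dist z x) (by fun_prop)
    exact ⟨z, hz, fun z' h1 h2 => hm ⟨h1, h2⟩⟩
  choose z hz hm using h1
  refine ⟨z, hz, ?_⟩
  rw [Metric.tendsto_nhds]
  intro ε hε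
  obtain ⟨V, hV, hVs⟩ := ho (Metric.ball x ε) Metric.isOpen_ball x
    ⟨Metric.mem_ball_self hε, hx⟩
  filter_upwards [ht hV] with l hl
  obtain ⟨z', hz', e⟩ := hVs ⟨hl, hy l⟩
  exact lt_of_le_of_lt (hm l z' hz'.2 e) hz'.1

section

variable {k n : ℕ} {X : Type} [TopologicalSpace X] [Sys X]

/-- the tuples over the position of `w` -/
def UU (M : Set (Om k)) (π : Om k → X)
    (j : Fin n) (w : Om k) : Set (Oth j → Om k) := {u | ins j w u ∈ CM n M π}

/-- the pseudometric of the coordinate `j` -/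
noncomputable def DD (M : Set (Om k))
    (π : Om k → X) (G : (Fin n → Om k) → ℝ) (j : Fin n) (w w' : Om k) : ℝ :=
  sSup ((fun u => |G (ins j w u) - G (ins j w' u)|) '' UU M π j w)

theorem ins_self {Z : Type} (j : Fin n) (w : Z) (u : Oth j → Z) : ins j w u j = w := by
  simp [ins]

theorem ins_ne {Z : Type} (j : Fin n) (w : Z) (u : Oth j → Z) {i : Fin n} (h : i ≠ j) :
    ins j w u i = u ⟨i, h⟩ := by
  simp [ins, h]

theorem ins_eta {Z : Type} (j : Fin n) (x : Fin n → Z) :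
    ins j (x j) (fun i : Oth j => x i) = x := by
  funext i
  by_cases h : i = j
  · subst h
    exact ins_self _ _ _
  · exact ins_ne _ _ _ h

theorem ins_cont {Z : Type} [TopologicalSpace Z] (j : Fin n) :
    Continuous fun p : Z × (Oth j → Z) => ins j p.1 p.2 := by
  refine continuous_pi fun i => ?_
  by_cases h : i = j
  · subst h
    simpa only [ins_self] using continuous_fst
  · simp only [ins_ne _ _ _ h]
    exact (continuous_apply _).comp continuous_snd

theorem ins_sh {Z : Type} [TopologicalSpace Z] [Sys Z] (j : Fin n) (m : ℤ) (w : Z)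
    (u : Oth j → Z) : ins j (sh m w) (sh m u) = sh m (ins j w u) := by
  funext i
  by_cases h : i = j
  · subst h
    change _ = sh m (ins i w u i)
    rw [ins_self, ins_self]
  · change _ = sh m (ins j w u i)
    rw [ins_ne _ _ _ h, ins_ne _ _ _ h]
    rfl

variable {M : Set (Om k)} {π : Om k → X} {G : (Fin n → Om k) → ℝ}

theorem mem_ins {j : Fin n} {w : Om k} {u : Oth j → Om k} :
    ins j w u ∈ CM n M π ↔ w ∈ M ∧ (∀ i, u i ∈ M) ∧ ins j (π w) (fun i => π (u i)) ∈ PG n X := by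
  have e : (fun i => π (ins j w u i)) = ins j (π w) (fun i => π (u i)) := by
    funext i
    by_cases h : i = j
    · subst h
      rw [ins_self, ins_self]
    · rw [ins_ne _ _ _ h, ins_ne _ _ _ h]
  constructor
  · rintro ⟨h1, h2⟩
    refine ⟨?_, ?_, ?_⟩
    · simpa only [ins_self] using h1 j
    · intro i
      have := h1 i
      rwa [ins_ne _ _ _ i.2] at this
    · rw [← e]
      exact h2
  · rintro ⟨h1, h2, h3⟩
    refine ⟨?_, ?_⟩
    · intro i
      by_cases h : i = j
      · subst h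
        rwa [ins_self]
      · rw [ins_ne _ _ _ h]
        exact h2 _
    · rw [← e] at h3
      exact h3

theorem swap {j : Fin n} {w w' : Om k} {u : Oth j → Om k} (h' : w' ∈ M) (e : π w = π w')
    (h : ins j w u ∈ CM n M π) : ins j w' u ∈ CM n M π := by
  rw [mem_ins] at h ⊢
  exact ⟨h', h.2.1, e ▸ h.2.2⟩

theorem UU_eq {j : Fin n} {w w' : Om k} (h : w ∈ M) (h' : w' ∈ M) (e : π w = π w') :
    UU M π j w = UU M π j w' :=
  Set.ext fun _ => ⟨fun hu => swap h' e hu, fun hu => swap h e.symm hu⟩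

theorem UU_compact (hcl : IsClosed (CM n M π)) (j : Fin n) (w : Om k) :
    IsCompact (UU M π j w) := by
  have : Continuous fun u : Oth j → Om k => ins j w u :=
    (ins_cont j).comp (Continuous.prodMk continuous_const continuous_id)
  exact (hcl.preimage this).isCompact

theorem df_cont (hcG : ContinuousOn G (CM n M π)) {j : Fin n} {w w' : Om k}
    (h' : w' ∈ M) (e : π w = π w') :
    ContinuousOn (fun u => |G (ins j w u) - G (ins j w' u)|) (UU M π j w) := by
  have hc : ∀ v : Om k, Continuous fun u : Oth j → Om k => ins j v u := fun v =>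
    (ins_cont j).comp (Continuous.prodMk continuous_const continuous_id)
  refine ContinuousOn.abs (ContinuousOn.sub ?_ ?_)
  · exact hcG.comp (hc w).continuousOn fun u hu => hu
  · exact hcG.comp (hc w').continuousOn fun u hu => swap h' e hu

theorem le_DD (hcl : IsClosed (CM n M π)) (hcG : ContinuousOn G (CM n M π)) {j : Fin n}
    {w w' : Om k} (h' : w' ∈ M) (e : π w = π w') {u : Oth j → Om k}
    (hu : ins j w u ∈ CM n M π) : |G (ins j w u) - G (ins j w' u)| ≤ DD M π G j w w' := by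
  refine le_csSup ?_ ⟨u, hu, rfl⟩
  exact ((UU_compact hcl j w).image_of_continuousOn (df_cont hcG h' e)).bddAbove

theorem ex_DD (hcl : IsClosed (CM n M π)) (hcG : ContinuousOn G (CM n M π)) {j : Fin n}
    {w w' : Om k} (h' : w' ∈ M) (e : π w = π w') (hne : (UU M π j w).Nonempty) :
    ∃ u, ins j w u ∈ CM n M π ∧ DD M π G j w w' = |G (ins j w u) - G (ins j w' u)| := by
  obtain ⟨u, hu, h⟩ := (UU_compact hcl j w).exists_sSup_image_eq hne (df_cont hcG h' e)
  exact ⟨u, hu, h⟩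

theorem DD_nonneg (j : Fin n) (w w' : Om k) : 0 ≤ DD M π G j w w' := by
  refine Real.sSup_nonneg ?_
  rintro _ ⟨u, -, rfl⟩
  exact abs_nonneg _

theorem DD_self (j : Fin n) (w : Om k) : DD M π G j w w = 0 := by
  refine le_antisymm (Real.sSup_nonpos ?_) (DD_nonneg _ _ _)
  rintro _ ⟨u, -, rfl⟩
  simp

theorem DD_symm {j : Fin n} {w w' : Om k} (h : w ∈ M) (h' : w' ∈ M) (e : π w = π w') :
    DD M π G j w w' = DD M π G j w' w := by
  unfold DD
  rw [UU_eq h h' e]
  congr 2
  funext u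
  rw [abs_sub_comm]

theorem DD_tri (hcl : IsClosed (CM n M π)) (hcG : ContinuousOn G (CM n M π)) {j : Fin n}
    {w w' w'' : Om k} (h' : w' ∈ M) (h'' : w'' ∈ M) (e : π w = π w')
    (e' : π w' = π w'') (hne : (UU M π j w).Nonempty) :
    DD M π G j w w'' ≤ DD M π G j w w' + DD M π G j w' w'' := by
  obtain ⟨u, hu, h⟩ := ex_DD hcl hcG h'' (e.trans e') hne
  rw [h]
  have h1 := le_DD hcl hcG h' e hu
  have h2 := le_DD hcl hcG h'' e' (swap h' e hu)
  have h3 := abs_sub_le (G (ins j w u)) (G (ins j w' u)) (G (ins j w'' u))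
  linarith

theorem DD_inv (hinv : AK.Inv (CM n M π))
    (hiG : ∀ u ∈ CM n M π, ∀ m : ℤ, G (sh m u) = G u) {j : Fin n} {w w' : Om k}
    (h' : w' ∈ M) (e : π w = π w') (m : ℤ) :
    DD M π G j (sh m w) (sh m w') = DD M π G j w w' := by
  unfold DD
  congr 1
  ext t
  constructor
  · rintro ⟨u, hu, rfl⟩
    refine ⟨sh (-m) u, ?_, ?_⟩
    · change ins j w (sh (-m) u) ∈ CM n M π
      have h1 := hinv (-m) _ hu
      rw [← ins_sh, ← sh_add, neg_add_cancel, sh_zero] at h1
      exact h1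
    · have h1 : ins j w (sh (-m) u) ∈ CM n M π := by
        have h1 := hinv (-m) _ hu
        rw [← ins_sh, ← sh_add, neg_add_cancel, sh_zero] at h1
        exact h1
      have h2 := swap h' e h1
      have e1 : sh m (sh (-m) u) = u := by
        rw [← sh_add, add_neg_cancel, sh_zero]
      have h3 := hiG _ h1 m
      have h4 := hiG _ h2 m
      rw [← ins_sh, e1] at h3 h4
      change |G (ins j w (sh (-m) u)) - G (ins j w' (sh (-m) u))| = _
      rw [← h3, ← h4]
  · rintro ⟨u, hu, rfl⟩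
    have h2 := swap h' e hu
    refine ⟨sh m u, ?_, ?_⟩
    · change ins j (sh m w) (sh m u) ∈ CM n M π
      rw [ins_sh]
      exact hinv m _ hu
    · change |G (ins j (sh m w) (sh m u)) - G (ins j (sh m w') (sh m u))| = _
      rw [ins_sh, ins_sh, hiG _ hu m, hiG _ h2 m]

theorem Gtend (hcG : ContinuousOn G (CM n M π)) {ι : Type} {F : Filter ι}
    {x : ι → (Fin n → Om k)} {x₀ : Fin n → Om k} (hx : ∀ l, x l ∈ CM n M π)
    (hx₀ : x₀ ∈ CM n M π) (ht : Tendsto x F (𝓝 x₀)) :
    Tendsto (fun l => G (x l)) F (𝓝 (G x₀)) :=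
  (hcG x₀ hx₀).tendsto.comp (tendsto_nhdsWithin_iff.2 ⟨ht, Eventually.of_forall hx⟩)

/-- continuity of the pseudometric of one coordinate -/
theorem DD_cont (hcl : IsClosed (CM n M π)) (hcG : ContinuousOn G (CM n M π)) {j : Fin n}
    (hne : ∀ w ∈ M, (UU M π j w).Nonempty)
    (hlift : ∀ (ι : Type) (F : Ultrafilter ι) (w : ι → Om k) (w₀ : Om k), (∀ l, w l ∈ M) →
      w₀ ∈ M → Tendsto w (F : Filter ι) (𝓝 w₀) → ∀ u, ins j w₀ u ∈ CM n M π →
      ∃ (a : ι → Oth j → Om k) (a₀ : Oth j → Om k), (∀ l, ins j (w l) (a l) ∈ CM n M π) ∧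
        ins j w₀ a₀ ∈ CM n M π ∧ Tendsto a (F : Filter ι) (𝓝 a₀) ∧
        ∀ v ∈ M, π v = π w₀ → G (ins j v a₀) = G (ins j v u)) :
    ContinuousOn (fun p : Om k × Om k × X => DD M π G j p.1 p.2.1)
      {p | (p.1, p.2.2) ∈ gr M π ∧ (p.2.1, p.2.2) ∈ gr M π} := by
  set S : Set (Om k × Om k × X) := {p | (p.1, p.2.2) ∈ gr M π ∧ (p.2.1, p.2.2) ∈ gr M π} with hS
  rw [continuousOn_iff_continuous_domRestrict, continuous_iff_ultrafilter]
  intro p F hF
  have hw : ∀ l : S, l.1.1 ∈ M := fun l => l.2.1.1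
  have hw' : ∀ l : S, l.1.2.1 ∈ M := fun l => l.2.2.1
  have he : ∀ l : S, π l.1.1 = π l.1.2.1 := fun l => by
    have h1 : l.1.2.2 = π l.1.1 := l.2.1.2
    have h2 : l.1.2.2 = π l.1.2.1 := l.2.2.2
    rw [← h1, ← h2]
  have tw : Tendsto (fun l : S => l.1.1) (F : Filter S) (𝓝 p.1.1) :=
    ((continuous_fst.comp continuous_subtype_val).tendsto p).mono_left hF
  have tw' : Tendsto (fun l : S => l.1.2.1) (F : Filter S) (𝓝 p.1.2.1) :=
    ((continuous_fst.comp (continuous_snd.comp continuous_subtype_val)).tendsto p).mono_left hF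
  have tins : ∀ {v : S → Om k} {v₀ : Om k} {u : S → Oth j → Om k} {u₀ : Oth j → Om k},
      Tendsto v (F : Filter S) (𝓝 v₀) → Tendsto u (F : Filter S) (𝓝 u₀) →
      Tendsto (fun l => ins j (v l) (u l)) (F : Filter S) (𝓝 (ins j v₀ u₀)) := by
    intro v v₀ u u₀ h1 h2
    exact ((ins_cont j).tendsto (v₀, u₀)).comp (h1.prodMk_nhds h2)
  have hopt : ∀ l : S, ∃ u, ins j l.1.1 u ∈ CM n M π ∧
      DD M π G j l.1.1 l.1.2.1 = |G (ins j l.1.1 u) - G (ins j l.1.2.1 u)| := fun l =>
    ex_DD hcl hcG (hw' l) (he l) (hne _ (hw l))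
  choose u hu hD using hopt
  have hu' : ∀ l, ins j l.1.2.1 (u l) ∈ CM n M π := fun l => swap (hw' l) (he l) (hu l)
  obtain ⟨u₀, hu₀⟩ : ∃ u₀, Tendsto u (F : Filter S) (𝓝 u₀) :=
    ⟨(F.map u).lim, (F.map u).le_nhds_lim⟩
  have hm : ins j p.1.1 u₀ ∈ CM n M π :=
    hcl.mem_of_tendsto (tins tw hu₀) (Eventually.of_forall hu)
  have hm' : ins j p.1.2.1 u₀ ∈ CM n M π :=
    hcl.mem_of_tendsto (tins tw' hu₀) (Eventually.of_forall hu')
  have hlim : Tendsto (fun l : S => DD M π G j l.1.1 l.1.2.1) (F : Filter S)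
      (𝓝 |G (ins j p.1.1 u₀) - G (ins j p.1.2.1 u₀)|) := by
    have h1 := Gtend hcG hu hm (tins tw hu₀)
    have h2 := Gtend hcG hu' hm' (tins tw' hu₀)
    refine ((h1.sub h2).abs).congr fun l => (hD l).symm
  have hup : |G (ins j p.1.1 u₀) - G (ins j p.1.2.1 u₀)| ≤ DD M π G j p.1.1 p.1.2.1 :=
    le_DD hcl hcG (hw' p) (he p) hm
  have hlow : DD M π G j p.1.1 p.1.2.1 ≤ |G (ins j p.1.1 u₀) - G (ins j p.1.2.1 u₀)| := by
    obtain ⟨v, hv, hDv⟩ := ex_DD hcl hcG (hw' p) (he p) (hne _ (hw p))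
    obtain ⟨a, a₀, ha, ha₀, hta, hG⟩ := hlift S F (fun l => l.1.1) p.1.1 hw (hw p) tw v hv
    have ha' : ∀ l : S, ins j l.1.2.1 (a l) ∈ CM n M π := fun l => swap (hw' l) (he l) (ha l)
    have ha₀' : ins j p.1.2.1 a₀ ∈ CM n M π := swap (hw' p) (he p) ha₀
    have h1 := Gtend hcG ha ha₀ (tins tw hta)
    have h2 := Gtend hcG ha' ha₀' (tins tw' hta)
    have h3 := (h1.sub h2).abs
    rw [hG _ (hw p) rfl, hG _ (hw' p) (he p).symm, ← hDv] at h3
    exact le_of_tendsto_of_tendsto h3 hlim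
      (Eventually.of_forall fun l => le_DD hcl hcG (hw' l) (he l) (ha l))
  rw [le_antisymm hup hlow] at hlim
  exact hlim

/-- one coordinate after the other -/
theorem fac_aux (hcl : IsClosed (CM n M π)) (hcG : ContinuousOn G (CM n M π))
    {u u' : Fin n → Om k} (hu : u ∈ CM n M π) (hu' : u' ∈ CM n M π)
    (hπ : ∀ i, π (u i) = π (u' i)) (h0 : ∀ j, DD M π G j (u j) (u' j) = 0) : G u = G u' := by
  have key : ∀ s : Finset (Fin n), (fun i => if i ∈ s then u' i else u i) ∈ CM n M π ∧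
      G (fun i => if i ∈ s then u' i else u i) = G u := by
    intro s
    induction s using Finset.induction_on with
    | empty => simpa using hu
    | insert j s hj ih =>
      obtain ⟨h1, h2⟩ := ih
      have e1 : (fun i => if i ∈ s then u' i else u i) =
          ins j (u j) (fun i : Oth j => if (i : Fin n) ∈ s then u' i else u i) := by
        have := (ins_eta j (fun i => if i ∈ s then u' i else u i)).symm
        rw [this]
        simp only [hj, if_false]
      have e2 : (fun i => if i ∈ insert j s then u' i else u i) =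
          ins j (u' j) (fun i : Oth j => if (i : Fin n) ∈ s then u' i else u i) := by
        funext i
        by_cases h : i = j
        · subst h
          rw [ins_self]
          simp
        · rw [ins_ne _ _ _ h]
          simp [h]
      rw [e1] at h1 h2
      have h3 := swap (hu'.1 j) (hπ j) h1
      have h4 := le_DD hcl hcG (hu'.1 j) (hπ j) h1
      rw [h0 j] at h4
      have h5 := abs_nonpos_iff.1 h4
      rw [e2]
      exact ⟨h3, by linarith⟩
  have h := (key Finset.univ).2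
  simp only [Finset.mem_univ, if_true] at h
  exact h.symm

end

end I_RUP

open I_RUP in
theorem RUP_pf (hGPR : S_GPR) (hGOP : S_GOP) (hISP : S_ISP) (_hLIN : S_LIN) (hLGR : S_LGR) :
    S_RUP := by
  intro k n X X' _ _ _ _ _ _ _ _ M π π' p ρ G hPo hPo' hpc hpπ hd hd' hCM hIPB hIso
  obtain ⟨-, -, hXmin, hcl, hinv, hlf, -⟩ := hLGR k n X M π hPo
  obtain ⟨hgr', hgru', hXmin', -, -, -, hfac'⟩ := hLGR k n X' M π' hPo'
  obtain ⟨hpe, hponto, -⟩ := (hLGR k n X M π hPo).2.2.2.2.2.2 X' π' p hPo' hpc hpπ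
  obtain ⟨⟨hPGc, -, -⟩, -, -, -, -, -, hPGonto, hPGd⟩ := hGPR n X hXmin
  obtain ⟨hPD, hPM⟩ := hPGd hd
  have hcG : ContinuousOn G (CM n M π) := by
    rw [hCM]
    exact hIso.cont
  have hiG1 : ∀ u ∈ CM n M π, G (sh 1 u) = G u := by
    intro u hu
    rw [hCM] at hu
    exact hIso.inv u hu
  have hiG : ∀ u ∈ CM n M π, ∀ m : ℤ, G (sh m u) = G u := by
    intro u hu m
    induction m using Int.induction_on with
    | zero => rw [sh_zero]
    | succ i ih =>
      rw [add_comm, sh_add, hiG1 _ (hinv _ _ hu), ih]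
    | pred i ih =>
      have h1 := hiG1 _ (hinv (-(i : ℤ) - 1) _ hu)
      rw [← sh_add] at h1
      rw [← h1, ← ih]
      congr 2
      ring
  -- nonempty sets of tuples
  have hne : ∀ j : Fin n, ∀ w ∈ M, (UU M π j w).Nonempty := by
    intro j w hw
    obtain ⟨x, hx, hxj⟩ := hPGonto j (π w)
    obtain ⟨u, hu, huπ⟩ := hlf x hx
    refine ⟨fun i => u i, ?_⟩
    change ins j w (fun i : Oth j => u i) ∈ CM n M π
    have h1 : ins j (u j) (fun i : Oth j => u i) ∈ CM n M π := by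
      rw [ins_eta]
      exact hu
    exact swap hw (by rw [huπ, hxj]) h1
  -- lifting
  have hlift : ∀ j : Fin n, ∀ (ι : Type) (F : Ultrafilter ι) (w : ι → Om k) (w₀ : Om k),
      (∀ l, w l ∈ M) →
      w₀ ∈ M → Tendsto w (F : Filter ι) (𝓝 w₀) → ∀ u, ins j w₀ u ∈ CM n M π →
      ∃ (a : ι → Oth j → Om k) (a₀ : Oth j → Om k), (∀ l, ins j (w l) (a l) ∈ CM n M π) ∧
        ins j w₀ a₀ ∈ CM n M π ∧ Tendsto a (F : Filter ι) (𝓝 a₀) ∧
        ∀ v ∈ M, π v = π w₀ → G (ins j v a₀) = G (ins j v u) := by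
    intro j ι F w w₀ hw hw₀ htw u hu
    obtain ⟨-, huM, hz₀⟩ := mem_ins.1 hu
    have htπ : Tendsto (fun l => π (w l)) (F : Filter ι) (𝓝 (π w₀)) :=
      (hPo.cont w₀ hw₀).tendsto.comp (tendsto_nhdsWithin_iff.2 ⟨htw, Eventually.of_forall hw⟩)
    -- positions
    have hop := hGOP (ℤ × ℤ) (Fin n → X) X (prA n X) (fun g x => sh (pf (j : ℕ) g) x) (PG n X)
      (fun v => v j) (flow_cfA _) hPM
      (fun F x y z _ _ h1 h2 => hPD F x y z (mem_univ _) (mem_univ _) h1 h2)
      (continuous_apply j).continuousOn (fun g x _ => rfl)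
    obtain ⟨z, hz, htz⟩ := openLift (F := (F : Filter ι)) (y := fun l => π (w l)) hPGc
      (continuous_apply j).continuousOn hz₀ hop
      (fun l => by
        obtain ⟨x, hx, e⟩ := hPGonto j (π (w l))
        exact ⟨x, hx, e⟩)
      (by
        simp only [ins_self]
        exact htπ)
    -- positions in `X'`
    have hop' := hGOP ℤ X' X (shA X') (shA X) univ p (flow_shA X') (minA_shA hXmin') hd'
      hpc.continuousOn (fun g x _ => hpe g x)
    have hy : ∀ i : Oth j, ∃ y : ι → X', (∀ l, y l ∈ (univ : Set X') ∧ p (y l) = z l i) ∧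
        Tendsto y (F : Filter ι) (𝓝 (π' (u i))) := by
      intro i
      refine openLift isClosed_univ hpc.continuousOn (mem_univ _) hop' (fun l => ?_) ?_
      · obtain ⟨y, e⟩ := hponto (z l i)
        exact ⟨y, mem_univ _, e⟩
      · have h1 : Tendsto (fun l => z l i) (F : Filter ι)
            (𝓝 (ins j (π w₀) (fun i => π (u i)) i)) :=
          ((continuous_apply (i : Fin n)).tendsto _).comp htz
        rw [ins_ne _ _ _ i.2] at h1
        rw [hpπ _ (huM i)]
        exact h1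
    choose y hy hty using hy
    -- the points
    have ha : ∀ i : Oth j, ∃ (f : ι → Om k) (q₁ : Om k), (∀ l, (f l, y i l) ∈ gr M π') ∧
        (q₁, π' (u i)) ∈ gr M π' ∧ Tendsto f (F : Filter ι) (𝓝 q₁) ∧
        ρ q₁ (u i) (π' (u i)) = 0 := by
      intro i
      exact hISP (Om k) X' (gr M π') ρ hgr'.closed hgr'.inv (by rw [hgru']; exact hXmin') hIPB ι F
        (y i) (π' (u i)) (fun l => by rw [hgru']; exact mem_univ _) (hty i) (u i) ⟨huM i, rfl⟩
    choose a a₀ haM ha₀ hta hρ using ha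
    have hmem : ∀ l, ins j (w l) (fun i => a i l) ∈ CM n M π := by
      intro l
      rw [mem_ins]
      refine ⟨hw l, fun i => (haM i l).1, ?_⟩
      have e : ins j (π (w l)) (fun i : Oth j => π (a i l)) = z l := by
        funext i
        by_cases h : i = j
        · subst h
          rw [ins_self]
          exact (hz l).2.symm
        · rw [ins_ne _ _ _ h]
          have h1 : y ⟨i, h⟩ l = π' (a ⟨i, h⟩ l) := (haM ⟨i, h⟩ l).2
          rw [← hpπ _ (haM ⟨i, h⟩ l).1, ← h1]
          exact (hy ⟨i, h⟩ l).2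
      rw [e]
      exact (hz l).1
    have hta' : Tendsto (fun l i => a i l) (F : Filter ι) (𝓝 a₀) :=
      tendsto_pi_nhds.2 fun i => hta i
    have hmem₀ : ins j w₀ a₀ ∈ CM n M π := by
      refine hcl.mem_of_tendsto (f := fun l => ins j (w l) (fun i => a i l)) (b := (F : Filter ι))
        ?_ (Eventually.of_forall hmem)
      exact ((ins_cont j).tendsto (w₀, a₀)).comp (htw.prodMk_nhds hta')
    refine ⟨fun l i => a i l, a₀, hmem, hmem₀, hta', ?_⟩
    intro v hv e
    have h1 : ins j v a₀ ∈ CM n M π' := by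
      rw [← hCM]
      exact swap hv e.symm hmem₀
    have h2 : ins j v u ∈ CM n M π' := by
      rw [← hCM]
      exact swap hv e.symm hu
    refine hIso.fac _ h1 _ h2 fun i => ?_
    by_cases h : i = j
    · subst h
      rw [ins_self, ins_self]
      exact ⟨rfl, hIPB.self _ _ ⟨hv, rfl⟩⟩
    · rw [ins_ne _ _ _ h, ins_ne _ _ _ h]
      have h3 : π' (u ⟨i, h⟩) = π' (a₀ ⟨i, h⟩) := (ha₀ ⟨i, h⟩).2
      refine ⟨h3.symm, ?_⟩
      rw [← h3]
      exact hρ ⟨i, h⟩
  refine ⟨fun w w' _ => ∑ j, DD M π G j w w', ?_, ?_⟩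
  · refine ⟨?_, ?_, ?_, ?_, ?_, ?_⟩
    · exact continuousOn_finsetSum _ fun j _ => DD_cont hcl hcG (hne j) (hlift j)
    · rintro m x u u' ⟨hu, e₀⟩ ⟨hu', e⟩
      exact Finset.sum_congr rfl fun j _ => DD_inv hinv hiG hu' (e₀.symm.trans e) m
    · rintro x u -
      exact Finset.sum_eq_zero fun j _ => DD_self j u
    · rintro x u u' - -
      exact Finset.sum_nonneg fun j _ => DD_nonneg j u u'
    · rintro x u u' ⟨hu, e₀⟩ ⟨hu', e⟩
      exact Finset.sum_congr rfl fun j _ => DD_symm hu hu' (e₀.symm.trans e)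
    · rintro x u u' u'' ⟨hu, e₀⟩ ⟨hu', e⟩ ⟨hu'', e'⟩
      rw [← Finset.sum_add_distrib]
      exact Finset.sum_le_sum fun j _ =>
        DD_tri hcl hcG hu' hu'' (e₀.symm.trans e) (e.symm.trans e') (hne j u hu)
  · refine ⟨hcG, hiG1, ?_⟩
    intro u hu u' hu' h
    refine fac_aux hcl hcG hu hu' (fun i => (h i).1) fun j => ?_
    have h1 := (h j).2
    exact (Finset.sum_eq_zero_iff_of_nonneg (fun i _ => DD_nonneg i (u j) (u' j))).1 h1 j
      (Finset.mem_univ j)

end Pool.Agent.Work.MP_69fea5_lc.W3
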