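import Pool.Agent.Work.MP_69fea5_lc.W3.Rec
import Pool.Agent.Work.MP_69fea5_lc.W3.FinalN

/-!
# Block [69fea5 W3 R]: the theorem for sums of at most `n + 1` terms, every `n ≥ 2` (assembly)
-/

set_option autoImplicit false

namespace Pool.Agent.Work.MP_69fea5_lc.W3

open MeasureTheory Topology Set Filter TopologicalSpace ProbabilityTheory
open scoped NNReal ENNReal
open Pool.Agent.Work.MP_69fea5_lc.AK
open Pool.Agent.Work.MP_69fea5_lc.HK (Cl DU Ar ArF ArR Dat Law LawC act near sc Pt oc Mn mr ext)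

/-- [MUT] the theorem for a family with a definable ultrafilter, sums of at most `n + 1` terms,
`2 ≤ n` -/
def S_MUT : Prop := ∀ (S : Set (Set ℕ)) (U : Ultrafilter ℕ), Cl S → DU S U →
  ∀ (k n : ℕ), 2 ≤ n → ∀ c : ℕ → Fin k, ArF S c →
    SolN S (n + 1) c ∨ ∀ r : Fin k, N3.SolD S c (Finset.univ.erase r)

theorem MUT_pf (hEXTC : KC.S_EXTC) (hORB : AK.S_ORB) (hOMG : AK.S_OMG) (hLGR : S_LGR)
    (hKCP : S_KCP) (hKLV : S_KLV) (hKXC : S_KXC) (hLST : S_LST) (hRTF : S_RTF) (hKTP : S_KTP)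
    (hXCH : W3D.S_XCH) (hLAA : S_LAA) (hVBR : S_VBR) (hRTA : S_RTA) (hFTP : S_FTP) : S_MUT := by
  intro S U hS hU k n hn c hc
  have hpc : Pt S (ext c) := hEXTC S hS k c hc
  obtain ⟨b, g, hb, hlim, hMn, hg⟩ := HK.URP_pf S U hS hU (HK.X k) (ext c) hpc
  have hmin : MinSet (orb (X := Om k) g) := KC.minSet_of_Mn (α := AK.Om k) hMn
  have hom : g ∈ omg (X := AK.Om k) (ext c) := by
    intro V hV N
    obtain ⟨m, hn1, hn2⟩ := ((hlim.eventually hV).and (hU.top (eventually_ge_atTop N))).exists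
    exact ⟨b m, hn2.trans (hb m), hn1⟩
  have hgM : g ∈ orb (X := Om k) g := (hORB (Om k) g).2.2.1
  have hMc : orb (X := Om k) g ⊆ omg (X := Om k) (ext c) :=
    (hORB (Om k) g).2.2.2.1 _ (hOMG (Om k) (ext c)).1 (hOMG (Om k) (ext c)).2.1 hom
  obtain ⟨F, p, h0, hst⟩ := Rec.levels hKCP hKLV hKXC hLST hS hU (n + 1) hpc hmin hgM hg hMc
  have hdist : ∀ l, DistalOn (shA (F l).X.C) univ := fun l =>
    W3D.TDI_pf (F l).X.C (F l).h _ (F l).ρ (F l).cl.tow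
  have hTF : TopF (n + 1) (orb (X := Om k) g) (F n).π :=
    hRTF k (n + 1) (fun l => (F l).X) _ (fun l => (F l).π) p (by omega)
      (fun l => (F l).cl.po) h0 hst hdist
  obtain ⟨lam, P, K, m₁, θ, χ, hXI, hemb, hpx, hgr, hpm, haa, hmin1, hχ, hθ1, hθi, hθd, hNC⟩ :=
    hKTP S U hS hU k (ext c) hpc _ g (F n).X.C (F n).π (F n).I (F n).h (F n).r (F n).ρ (F n).cl
      (F n).z (F n).zM (F n).zP (F n).ex
  have hminX : MinSet (univ : Set (F n).X.C) :=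
    (hLGR k 1 (F n).X.C _ (F n).π (F n).cl.po).2.2.1
  obtain ⟨K', hCH, hK'⟩ := hXCH (F n).X.C lam P K hminX (hdist n) hXI n
  obtain ⟨hspx, himg, hfib⟩ := hLAA k (F n).X.C _ (F n).π _ m₁ (F n).cl.po haa hmin1
  obtain ⟨μ, ζ, hTL, -, -⟩ := hVBR k (F n).X.C _ (F n).π _ lam θ χ (F n).cl.po hspx hfib hθ1 hθi
    hθd (hXI.inv 1)
  have hTA : TopA (orb (X := Om k) g) (F n).π K' (evK k ∘ₖ χ) :=
    hRTA k n (F n).X.C _ (F n).π lam μ _ P K K' (F n).cl.po hTL hXI hK' hTF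
  have hNC' : NCt S (lif (evK k ∘ₖ χ) (K' ((F n).π (F n).z) : Measure (Fin (n + 1) → (F n).X.C))) := by
    rw [hK']
    exact hNC n
  exact hFTP S U hS hU k n c hc (F n).X.C lam K' hCH (F n).I ((F n).r (F n).h) ((F n).π (F n).z)
    hemb.cont hemb.inj hemb.equi hpx _ (F n).π (F n).cl.po hgr m₁ hpm haa hmin1 θ χ hθ1 hθi hθd
    hNC' hTA

theorem MUN_pf (hM : S_MUT) : S_MUN := by
  intro S U hS hU k n c hc
  rcases hM S U hS hU k (n + 2) (by omega) c hc with h | h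
  · exact Or.inl (h.mono (by omega))
  · exact Or.inr h

end Pool.Agent.Work.MP_69fea5_lc.W3
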