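import Pool.Agent.Work.MP_69fea5_lc.W3.StmtsV

set_option autoImplicit false

namespace Pool.Agent.Work.MP_69fea5_lc.W3

open MeasureTheory Topology Set Filter ProbabilityTheory
open scoped NNReal ENNReal
open Pool.Agent.Work.MP_69fea5_lc.AK

namespace I_AVD

variable {k n : ℕ}

theorem open_box (P : Fin n → Set (Om k)) (hP : ∀ j, IsClopen (P j)) (m : ℤ) :
    IsOpen {u : Fin n → Om k | ∀ j, sh m (u j) ∈ P j} := by
  have h : {u : Fin n → Om k | ∀ j, sh m (u j) ∈ P j} =
      ⋂ j, (fun u : Fin n → Om k => sh m (u j)) ⁻¹' P j := by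
    ext u; simp
  rw [h]
  exact isOpen_iInter_of_finite fun j =>
    (hP j).isOpen.preimage ((sh_cont m).comp (continuous_apply j))

theorem cont_cns (w : Om k) : Continuous fun u : Fin (n + 1) → Om k => cns w u := by
  refine continuous_pi fun j => ?_
  refine Fin.cases ?_ (fun i => ?_) j
  · simpa [cns] using continuous_const
  · have h : (fun u : Fin (n + 1) → Om k => cns w u i.succ) = fun u => u i.castSucc := by
      funext u; simp [cns, Fin.init]
    rw [h]
    exact continuous_apply _

end I_AVD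

open I_AVD in
theorem AVD_pf : S_AVD := by
  intro k n P hP
  refine ⟨⟨?_, ?_⟩, ?_, ?_⟩
  · have h : avd P = ⋂ m : ℤ, {u : Fin (n + 1) → Om k | ∀ j, sh m (u j) ∈ P j}ᶜ := by
      ext u; simp [avd]
    rw [h]
    exact isClosed_iInter fun m => (open_box P hP m).isClosed_compl
  · intro m u hu m' h
    apply hu (m' + m)
    intro j
    rw [sh_add]
    exact h j
  · intro u hu hbox
    apply hu 0
    intro j
    rw [sh_zero]
    exact hbox j (mem_univ j)
  · intro w C hC hsub
    by_contra hcon
    push Not at hcon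
    let F : ℕ → Set (Fin (n + 1) → Om k) := fun J =>
      {u | ∀ m : ℤ, |m| ≤ (J : ℤ) → ¬ ∀ j, sh m (cns w u j) ∈ P j} ∩ Cᶜ
    have hFc : ∀ J, IsClosed (F J) := by
      intro J
      refine IsClosed.inter ?_ hC.isClosed_compl
      have h : {u : Fin (n + 1) → Om k |
          ∀ m : ℤ, |m| ≤ (J : ℤ) → ¬ ∀ j, sh m (cns w u j) ∈ P j} =
          ⋂ m : ℤ, ⋂ _ : |m| ≤ (J : ℤ),
            (fun u => cns w u) ⁻¹' {u : Fin (n + 1) → Om k | ∀ j, sh m (u j) ∈ P j}ᶜ := by
        ext u; simp
      rw [h]
      exact isClosed_iInter fun m => isClosed_iInter fun _ =>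
        (open_box P hP m).isClosed_compl.preimage (cont_cns w)
    have hne : (⋂ J, F J).Nonempty := by
      apply IsCompact.nonempty_iInter_of_sequence_nonempty_isCompact_isClosed
      · intro J u hu
        refine ⟨fun m hm => hu.1 m (hm.trans (by push_cast; omega)), hu.2⟩
      · intro J
        obtain ⟨u, hu, huC⟩ := hcon J
        exact ⟨u, fun m hm h => by
          obtain ⟨j, hj⟩ := hu m hm
          exact hj (h j), huC⟩
      · exact (hFc 0).isCompact
      · exact hFc
    obtain ⟨u, hu⟩ := hne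
    rw [mem_iInter] at hu
    refine (hu 0).2 (hsub ?_)
    intro m h
    refine (hu m.natAbs).1 m ?_ h
    rw [Int.natCast_natAbs]

end Pool.Agent.Work.MP_69fea5_lc.W3
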