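import Pool.Agent.Work.MP_69fea5_lc.W3.I_BRX

/-!
# Block [69fea5 T BRC]: barycentres and continuous test functions
-/

set_option autoImplicit false

namespace Pool.Agent.Work.MP_69fea5_lc.W3

open MeasureTheory Topology Set Filter TopologicalSpace
open scoped NNReal ENNReal
open Pool.Agent.Work.MP_69fea5_lc.AK

namespace I_BRC

/-- integration of a continuous function is continuous on the space of measures -/
theorem cont_int {O : Type} [TopologicalSpace O] [MeasurableSpace O] [CS O] {g : O → ℝ}
    (hg : Continuous g) :
    Continuous fun m : ProbabilityMeasure O => ∫ z, g z ∂(m : Measure O) := by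
  have h := ProbabilityMeasure.continuous_integral_boundedContinuousFunction
    (X := O) (BoundedContinuousFunction.mkOfCompact ⟨g, hg⟩)
  exact h

theorem bar_of_test {K O : Type} [TopologicalSpace K] [MeasurableSpace K] [CS K]
    [TopologicalSpace O] [MeasurableSpace O] [CS O] {f : K → ProbabilityMeasure O}
    (hf : Continuous f) (κ : ProbabilityMeasure K) (m : ProbabilityMeasure O)
    (h : ∀ g : O → ℝ, Continuous g →
      ∫ z, g z ∂(m : Measure O) = ∫ q, ∫ z, g z ∂(f q : Measure O) ∂(κ : Measure K)) :
    Bar κ f m := by
  obtain ⟨⟨m', hm'⟩, -, -, h4⟩ := BRX_pf K O κ f hf.measurable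
  have he : (m' : Measure O) = (m : Measure O) := by
    refine ext_of_forall_integral_eq_of_IsFiniteMeasure fun g => ?_
    rw [h4 m' hm' g g.continuous, h g g.continuous]
  have hmm : m' = m := Subtype.ext he
  rwa [hmm] at hm'

end I_BRC

open I_BRC in
theorem BRC_pf : S_BRC := by
  intro K O _ _ _ _ _ _ _ _ f hf
  refine ⟨?_, ?_, bar_of_test hf⟩
  · have he : {p : ProbabilityMeasure K × ProbabilityMeasure O | Bar p.1 f p.2} =
        ⋂ g : {g : O → ℝ // Continuous g}, {p : ProbabilityMeasure K × ProbabilityMeasure O |
          ∫ z, g.1 z ∂(p.2 : Measure O) =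
            ∫ q, ∫ z, g.1 z ∂(f q : Measure O) ∂(p.1 : Measure K)} := by
      ext p
      simp only [mem_ofPred_eq, mem_iInter]
      constructor
      · intro hp g
        exact (BRX_pf K O p.1 f hf.measurable).2.2.2 p.2 hp g.1 g.2
      · intro hp
        exact bar_of_test hf p.1 p.2 fun g hg => hp ⟨g, hg⟩
    rw [he]
    refine isClosed_iInter fun g => isClosed_eq ?_ ?_
    · exact (cont_int g.2).comp continuous_snd
    · exact (cont_int ((cont_int g.2).comp hf)).comp continuous_fst
  · intro heq κ m hb n
    have hm : Measurable fun q => (f q : Measure O) := I_BRX.meas_coe hf.measurable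
    have hsK : Measurable (sh n : K → K) := (sh_cont n).measurable
    have hsO : Measurable (sh n : O → O) := (sh_cont n).measurable
    have h3 := (BRX_pf K O κ f hf.measurable).2.2.1 m hb
    change (Measure.map (sh n : K → K) (κ : Measure K)).bind (fun q => (f q : Measure O)) =
      Measure.map (sh n : O → O) (m : Measure O)
    refine Measure.ext fun B hB => ?_
    have hmB : Measurable fun q => (f q : Measure O) B := (Measure.measurable_coe hB).comp hm
    rw [Measure.bind_apply hB hm.aemeasurable, Measure.map_apply hsO hB, h3 _ (hsO hB),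
      lintegral_map hmB hsK]
    refine lintegral_congr fun q => ?_
    rw [heq n q]
    change Measure.map (sh n : O → O) (f q : Measure O) B = _
    rw [Measure.map_apply hsO hB]

end Pool.Agent.Work.MP_69fea5_lc.W3
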