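import Pool.Agent.Work.MP_69fea5_lc.W3.StmtsV

/-!
Block W4 of MP_69fea5_lc, part V, item FCB: finite closed covers of relatively open sets.
-/

set_option autoImplicit false

namespace Pool.Agent.Work.MP_69fea5_lc.W3

open MeasureTheory Topology Set Filter ProbabilityTheory
open scoped NNReal ENNReal
open Pool.Agent.Work.MP_69fea5_lc.AK
open Pool.Agent.Work.MP_69fea5_lc.HK (Cl DU Ar ArF ArR Dat Law LawC act near sc Pt oc Mn mr ext)

theorem FCB_pf : S_FCB := by
  intro X ι _ _ W O F hO hne hF hcov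
  classical
  have := Fintype.ofFinite ι
  have key : ∀ (s : Finset ι) (O : Set X), IsOpen O → (O ∩ W).Nonempty →
      O ∩ W ⊆ ⋃ i ∈ s, F i →
      ∃ i, ∃ O' : Set X, IsOpen O' ∧ (O' ∩ W).Nonempty ∧ O' ∩ W ⊆ O ∩ F i := by
    intro s
    induction s using Finset.induction_on with
    | empty =>
      intro O _ hne hcov
      obtain ⟨x, hx⟩ := hne
      have := hcov hx
      simp at this
    | insert a s _ ih =>
      intro O hO hne hcov
      by_cases h : O ∩ W ⊆ F a
      · exact ⟨a, O, hO, hne, fun x hx => ⟨hx.1, h hx⟩⟩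
      · obtain ⟨x, hx, hxa⟩ := Set.not_subset.1 h
        obtain ⟨i, O', h1, h2, h3⟩ := ih (O \ F a) (hO.sdiff (hF a)) ⟨x, ⟨hx.1, hxa⟩, hx.2⟩ (by
          intro y hy
          have h4 := hcov ⟨hy.1.1, hy.2⟩
          simp only [Finset.mem_insert, Set.mem_iUnion, exists_prop] at h4 ⊢
          obtain ⟨j, hj, hyj⟩ := h4
          rcases hj with rfl | hj
          · exact absurd hyj hy.1.2
          · exact ⟨j, hj, hyj⟩)
        exact ⟨i, O', h1, h2, fun y hy => ⟨(h3 hy).1.1, (h3 hy).2⟩⟩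
  refine key Finset.univ O hO hne (fun x hx => ?_)
  have h := hcov hx
  simpa using h

end Pool.Agent.Work.MP_69fea5_lc.W3
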