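import Pool.Agent.Work.MP_69fea5_lc.W3.StmtsV2

/-!
# Block [69fea5 V2]: item FTI (Case I)
-/

set_option autoImplicit false

namespace Pool.Agent.Work.MP_69fea5_lc.W3

open MeasureTheory Topology Set Filter ProbabilityTheory TopologicalSpace
open scoped NNReal ENNReal
open Pool.Agent.Work.MP_69fea5_lc.AK
open Pool.Agent.Work.MP_69fea5_lc.HK (Cl DU Ar ArF ArR Dat Law LawC act near sc Pt oc Mn mr ext)

theorem FTI_pf (hVGH : S_VGH) (hGNB : S_GNB) (hGCT : S_GCT) : S_FTI := by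
  intro S hS k n c hc X _ _ _ _ M π x₀ lam μ η K hT hK hA hb hr hν r hpos
  have hG := hVGH k n X (ext c) M π x₀ lam μ η K hT hK hA hb hr
  obtain ⟨w, hw, hwx⟩ := hb
  have hp : IsProbabilityMeasure (lif η (K x₀ : Measure (Fin (n + 1) → X))) := by
    have := hG.prob w hw
    rwa [hwx] at this
  exact hGCT S hS k n c (lif η (K x₀ : Measure (Fin (n + 1) → X))) r hc hν hpos
    (hGNB k n X (ext c) M π x₀ μ _ hG)

end Pool.Agent.Work.MP_69fea5_lc.W3
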