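import Pool.Agent.Work.MP_69fea5_lc.W3.StmtsV2

/-!
# Block [69fea5 V2]: item FTJ (zones near the exact position give a solution without a colour)
-/

set_option autoImplicit false

namespace Pool.Agent.Work.MP_69fea5_lc.W3

open MeasureTheory Topology Set Filter ProbabilityTheory TopologicalSpace
open scoped NNReal ENNReal
open Pool.Agent.Work.MP_69fea5_lc.AK
open Pool.Agent.Work.MP_69fea5_lc.HK (Cl DU Ar ArF ArR Dat Law LawC act near sc Pt oc Mn mr ext)

theorem FTJ_pf (hIMG : AK.S_IMG) (hORB : AK.S_ORB) (hKZC : S_KZC) (hSGF : S_SGF) : S_FTJ := by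
  intro S U hS hU k c hc X _ _ _ _ I _ j x₀ hj hinj hje hx₀ M π hP hΓ m₁ hm₁ hAA hmin r hz
  set Γ : Set (Om k × Cube I) := gr M fun w => j (π w) with hΓdef
  let J : X × PM k → Cube I × PM k := fun y => (j y.1, y.2)
  have hJc : Continuous J := (hj.comp continuous_fst).prodMk continuous_snd
  have hJi : Function.Injective J := by
    intro a b hab
    have h1 : j a.1 = j b.1 := congrArg Prod.fst hab
    have h2 : a.2 = b.2 := congrArg (fun p : Cube I × PM k => p.2) hab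
    exact Prod.ext (hinj h1) h2
  have hJe : IsEmbedding J := (hJc.isClosedEmbedding hJi).isEmbedding
  have hJs : ∀ (m : ℤ) (y : X × PM k), J (sh m y) = sh m (J y) := fun m y =>
    Prod.ext (hje m y.1) rfl
  -- the graph
  have hΓeq : (fun w => (w, j (π w))) '' M = Γ := by
    ext p
    constructor
    · rintro ⟨w, hw, rfl⟩
      exact ⟨hw, rfl⟩
    · rintro ⟨h1, h2⟩
      exact ⟨p.1, h1, Prod.ext rfl h2.symm⟩
  have hΓmin : MinSet Γ := by
    rw [← hΓeq]
    refine hIMG (Om k) (Om k × Cube I) M (fun w => (w, j (π w))) hP.min ?_ ?_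
    · exact continuousOn_id.prodMk (hj.comp_continuousOn hP.cont)
    · intro n w hw
      refine Prod.ext rfl ?_
      change j (π (sh n w)) = sh n (j (π w))
      rw [hP.equi w hw n, hje]
  have hΓfun : ∀ z v v', (z, v) ∈ Γ → (z, v') ∈ Γ → v = v' := fun z v v' h h' => h.2.trans h'.2.symm
  -- the energy set
  have hsec : ∀ x : X, {z | (z, j x) ∈ Γ} = {z | (z, x) ∈ gr M π} := by
    intro x
    ext z
    constructor
    · rintro ⟨h1, h2⟩
      exact ⟨h1, hinj h2⟩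
    · rintro ⟨h1, h2⟩
      exact ⟨h1, congrArg j h2⟩
  have hAA' : (j x₀, m₁) ∈ AA Γ := by
    refine ⟨?_, ?_⟩
    · have h1 : m₁ {z | (z, x₀) ∈ gr M π} = 1 := hAA.1
      change m₁ {z | (z, j x₀) ∈ Γ} = 1
      rw [hsec]
      exact h1
    · rintro ⟨v, m⟩ hp
      have hp' : m {z | (z, v) ∈ Γ} = 1 := hp
      have hne : {z | (z, v) ∈ Γ}.Nonempty := by
        by_contra hcon
        rw [not_nonempty_iff_eq_empty] at hcon
        rw [hcon] at hp'
        simp at hp'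
      obtain ⟨z, hz1, hz2⟩ := hne
      have hv : v = j (π z) := hz2
      refine hAA.2 (π z, m) ?_
      change m {z' | (z', π z) ∈ gr M π} = 1
      rw [← hsec, ← hv]
      exact hp'
  -- the orbit closure
  have hmin1 : MinSet (J '' orb (x₀, m₁)) :=
    hIMG (X × PM k) (Cube I × PM k) (orb (x₀, m₁)) J hmin hJc.continuousOn fun n y _ => hJs n y
  have hx1 : (j x₀, m₁) ∈ J '' orb (x₀, m₁) :=
    ⟨(x₀, m₁), (hORB (X × PM k) (x₀, m₁)).2.2.1, rfl⟩
  have horb : orb (j x₀, m₁) = J '' orb (x₀, m₁) :=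
    (hORB (Cube I × PM k) (j x₀, m₁)).2.2.2.2.1 _ hmin1 hx1
  obtain ⟨m₀, hm₀, hst⟩ := hKZC S U hS hU k I Γ (ext c) (j x₀) m₁ r hx₀ hm₁ hΓmin hΓfun hΓ hAA'
    (horb ▸ hmin1) (by
      intro U' hU'
      obtain ⟨y, hy, hyU, V, hV, hVr⟩ := hz (j ⁻¹' U') (hj.continuousAt hU')
      rw [hJe.nhds_eq_comap] at hV
      obtain ⟨V', hV', hV'V⟩ := hV
      refine ⟨J y, horb ▸ ⟨y, hy, rfl⟩, hyU, V', hV', ?_⟩
      rintro y' ⟨hy1, hy2⟩
      rw [horb] at hy1
      obtain ⟨y₂, hy₂, rfl⟩ := hy1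
      exact hVr y₂ ⟨hy₂, hV'V hy2⟩)
  exact hSGF S hS k c (Finset.univ.erase r) m₀ hc hm₀ hst

end Pool.Agent.Work.MP_69fea5_lc.W3
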