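import Pool.Agent.Work.MP_69fea5_lc.W3.StmtsV2

/-!
# Block [69fea5 V2]: item FTP (the top level, coded)
-/

set_option autoImplicit false

namespace Pool.Agent.Work.MP_69fea5_lc.W3

open MeasureTheory Topology Set Filter ProbabilityTheory TopologicalSpace
open scoped NNReal ENNReal
open Pool.Agent.Work.MP_69fea5_lc.AK
open Pool.Agent.Work.MP_69fea5_lc.HK (Cl DU Ar ArF ArR Dat Law LawC act near sc Pt oc Mn mr ext)

namespace I_FTP

/-- limit sets and embeddings -/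
theorem omg_of_emb {k : ℕ} {X Y : Type} [TopologicalSpace X] [CompactSpace X] [T2Space X]
    [Sys X] [TopologicalSpace Y] [T2Space Y] [Sys Y] {j : X → Y} (hj : Continuous j)
    (hinj : Function.Injective j) (hje : ∀ (m : ℤ) (x : X), j (sh m x) = sh m (j x))
    {c w : Om k} {x₀ x : X} (h : (w, j x) ∈ omg (c, j x₀)) : (w, x) ∈ omg (c, x₀) := by
  have hemb : IsEmbedding j := (hj.isClosedEmbedding hinj).isEmbedding
  intro U hU N
  rw [mem_nhds_prod_iff] at hU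
  obtain ⟨A, hA, B, hB, hAB⟩ := hU
  rw [hemb.nhds_eq_comap] at hB
  obtain ⟨B', hB', hB'B⟩ := hB
  obtain ⟨n, hn, hm⟩ := h (A ×ˢ B') (prod_mem_nhds hA hB') N
  refine ⟨n, hn, hAB ⟨hm.1, hB'B ?_⟩⟩
  have h2 : (sh (n : ℤ) (c, j x₀) : Om k × Y).2 ∈ B' := hm.2
  change j (sh (n : ℤ) x₀) ∈ B'
  rw [hje]
  exact h2

end I_FTP

theorem FTP_pf (hAAB : AK.S_AAB) (hORB : AK.S_ORB) (hLGR : S_LGR) (hLAA : S_LAA) (hVBR : S_VBR)
    (hVC2 : S_VC2) (hFTI : S_FTI) (hFTJ : S_FTJ) : S_FTP := by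
  intro S U hS hU k n c hc X _ _ _ _ lam K hK I _ j x₀ hj hinj hje hx₀ M π hP hΓ m₁ hm₁ hAA hmin
    θ χ _ hθ1 hθi hθd hν hA
  obtain ⟨hspx, -, hfib⟩ := hLAA k X M π x₀ m₁ hP hAA hmin
  obtain ⟨μ, ζ, hT, hTY, hbar⟩ := hVBR k X M π (orb (x₀, m₁)) lam θ χ hP hspx hfib hθ1 hθi hθd
    hK.linv
  by_cases hr : ∃ r : Fin k, 0 < lif (evK k ∘ₖ χ) (K x₀ : Measure (Fin (n + 1) → X))
      (univ.pi fun _ => {z | z 0 = r})
  · obtain ⟨r, hr⟩ := hr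
    left
    refine hFTI S hS k n c hc X M π x₀ lam μ (evK k ∘ₖ χ) K hT hK hA (hP.onto x₀) ?_ hν r hr
    obtain ⟨w, hw⟩ := hP.min.ne
    exact ⟨w, hw, I_FTP.omg_of_emb hj hinj hje (hΓ ⟨hw, rfl⟩)⟩
  · right
    intro r
    have h0 : ∀ r : Fin k, lif (evK k ∘ₖ χ) (K x₀ : Measure (Fin (n + 1) → X))
        (univ.pi fun _ => {z | z 0 = r}) = 0 := by
      intro r
      by_contra h
      exact hr ⟨r, pos_iff_ne_zero.2 h⟩
    have hgr : MinSet (gr M π) := (hLGR k n X M π hP).1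
    obtain ⟨-, -, hAc, hAi, -⟩ := hAAB k X (gr M π) hgr
    have hsub : orb (x₀, m₁) ⊆ QQ (gr M π) := fun y hy =>
      ((hORB (X × PM k) (x₀, m₁)).2.2.2.1 (AA (gr M π)) hAc hAi hAA hy).1
    exact hFTJ S U hS hU k c hc X I j x₀ hj hinj hje hx₀ M π hP hΓ m₁ hm₁ hAA hmin r
      (hVC2 k n X M π lam μ (evK k ∘ₖ χ) (orb (x₀, m₁)) θ ζ K x₀ hT hTY hsub hbar hK h0 r)

end Pool.Agent.Work.MP_69fea5_lc.W3
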