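import Pool.Agent.Work.MP_69fea5_lc.W3.StmtsV

set_option autoImplicit false

namespace Pool.Agent.Work.MP_69fea5_lc.W3

open MeasureTheory Topology Set Filter ProbabilityTheory
open scoped NNReal ENNReal
open Pool.Agent.Work.MP_69fea5_lc.AK
open Pool.Agent.Work.MP_69fea5_lc.HK (Cl DU Ar ArF ArR Dat Law LawC act near sc Pt oc Mn mr ext)

/-- [GNB] no box of positive measure is blocked -/
theorem GNB_pf (hSPM : S_SPM) (hAVD : S_AVD) (hGUS : S_GUS) (hGTR : S_GTR) : S_GNB := by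
  intro k n X _ _ _ c M π v₀ μ κ hG P hP hpos N
  by_contra hcon
  have hbl : ∀ x : ℕ, N ≤ x → sh (x : ℤ) c ∈ P 0 →
      κ v₀ (univ.pi P ∩ {u | ∀ j : Fin n, sh (x : ℤ) (u j.castSucc) ∈ P j.succ}) = 0 := by
    intro x hx hc
    by_contra hne
    exact hcon ⟨x, hx, hc, pos_iff_ne_zero.mpr hne⟩
  obtain ⟨w₀, hw₀M, hw₀⟩ := hG.base
  obtain ⟨hR, hdis, _⟩ := hAVD k n P hP
  have h0 := hGTR k n X c M π v₀ μ κ hG P hP N hbl w₀ hw₀M hw₀
  have hbox : IsClopen (univ.pi P : Set (Fin (n + 1) → Om k)) :=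
    ⟨isClosed_set_pi fun j _ => (hP j).isClosed,
      isOpen_set_pi Set.finite_univ fun j _ => (hP j).isOpen⟩
  have hcont := (hGUS k n X c M π v₀ μ κ hG (avd P) hR).2 (univ.pi P) hbox
  haveI : IsProbabilityMeasure (κ (π w₀)) := hG.prob w₀ hw₀M
  have hp0 : 0 < (κ (π w₀)).real ({u | cns w₀ u ∈ avd P} ∩ univ.pi P) := by
    rw [Measure.real, ENNReal.toReal_pos_iff]
    refine ⟨?_, measure_lt_top _ _⟩
    have h1 : κ v₀ (univ.pi P) ≤ κ v₀ (univ.pi P \ {u | cns w₀ u ∈ avd P}) +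
        κ v₀ ({u | cns w₀ u ∈ avd P} ∩ univ.pi P) := by
      refine (measure_mono ?_).trans (measure_union_le _ _)
      intro u hu
      by_cases h : cns w₀ u ∈ avd P
      · exact Or.inr ⟨h, hu⟩
      · exact Or.inl ⟨hu, h⟩
    rw [h0, zero_add] at h1
    rw [hw₀]
    exact lt_of_lt_of_le hpos h1
  have hev : ∀ᶠ w in 𝓝[M] w₀, 0 < (κ (π w)).real ({u | cns w u ∈ avd P} ∩ univ.pi P) :=
    (hcont w₀ hw₀M).eventually (lt_mem_nhds hp0)
  obtain ⟨U, hU, hUsub⟩ := mem_nhdsWithin_iff_exists_mem_nhds_inter.mp hev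
  have hμU : 0 < μ U := hSPM k M μ hG.min hG.inv hG.one w₀ hw₀M U hU
  have hMae : ∀ᵐ w ∂(μ : Measure (Om k)), w ∈ M := by
    have h1 : (μ : Measure (Om k)) M = 1 := by
      rw [← ProbabilityMeasure.ennreal_coeFn_eq_coeFn_toMeasure, hG.one]
      rfl
    exact (prob_compl_eq_zero_iff (μ := (μ : Measure (Om k))) hG.min.closed.measurableSet).mpr h1
  have hzero : ∀ᵐ w ∂(μ : Measure (Om k)), w ∉ U := by
    filter_upwards [hMae, hG.shf (avd P) hR] with w hwM hw hwU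
    have hpw : 0 < (κ (π w)).real ({u | cns w u ∈ avd P} ∩ univ.pi P) := hUsub ⟨hwU, hwM⟩
    have hz : κ (π w) ({u | cns w u ∈ avd P} ∩ univ.pi P) = 0 := by
      have h1 : ∀ᵐ u ∂κ (π w), u ∉ ({u | cns w u ∈ avd P} ∩ univ.pi P) := by
        filter_upwards [hw] with u hu h2
        exact hdis u (hu h2.1) h2.2
      exact measure_eq_zero_iff_ae_notMem.mpr h1
    rw [Measure.real, hz] at hpw
    simp at hpw
  have hμU0 : (μ : Measure (Om k)) U = 0 := measure_eq_zero_iff_ae_notMem.mpr hzero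
  have h3 : ((μ U : ℝ≥0) : ℝ≥0∞) = 0 := by
    rw [ProbabilityMeasure.ennreal_coeFn_eq_coeFn_toMeasure, hμU0]
  have h4 : μ U = 0 := by exact_mod_cast h3
  exact absurd h4 hμU.ne'

end Pool.Agent.Work.MP_69fea5_lc.W3
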