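import Pool.Agent.Work.MP_69fea5_lc.W3.StmtsV

set_option autoImplicit false

namespace Pool.Agent.Work.MP_69fea5_lc.W3

open MeasureTheory Topology Set Filter ProbabilityTheory
open scoped NNReal ENNReal
open Pool.Agent.Work.MP_69fea5_lc.AK
open Pool.Agent.Work.MP_69fea5_lc.HK (Cl DU Ar ArF ArR Dat Law LawC act near sc Pt oc Mn mr ext)

namespace I_GSM

theorem aux {k n : ℕ} (r : Fin k) (x : ℕ → ℕ) (P : ℕ → Fin (n + 1) → HK.C k)
    (h0 : ∀ j, ((0 : ℤ), r) ∈ P 0 j)
    (h2 : ∀ i j, ∀ q ∈ P i j, q ∈ P (i + 1) j)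
    (h3 : ∀ i (j : Fin n), ∀ q ∈ P i j.succ, (q.1 + (x i : ℤ), q.2) ∈ P (i + 1) j.castSucc) :
    ∀ (i : ℕ) (G : Finset ℕ), G ⊆ Finset.range i → ∀ (j : ℕ) (hj : j < n + 1),
      G.card + j ≤ n → ((∑ l ∈ G, (x l : ℤ)), r) ∈ P i ⟨j, hj⟩ := by
  intro i
  induction i with
  | zero =>
    intro G hG j hj _
    have : G = ∅ := by
      rw [Finset.range_zero] at hG
      exact Finset.subset_empty.1 hG
    subst this
    simpa using h0 ⟨j, hj⟩
  | succ i ih =>
    intro G hG j hj hc
    by_cases hi : i ∈ G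
    · have hcard : (G.erase i).card + 1 = G.card := Finset.card_erase_add_one hi
      have hjn : j < n := by omega
      have hsub : G.erase i ⊆ Finset.range i := by
        intro l hl
        have h1 := Finset.mem_erase.1 hl
        have h2 := Finset.mem_range.1 (hG h1.2)
        rw [Finset.mem_range]
        omega
      have h := ih (G.erase i) hsub (j + 1) (by omega) (by omega)
      have h' := h3 i ⟨j, hjn⟩ _ h
      have hs : (∑ l ∈ G.erase i, (x l : ℤ)) + (x i : ℤ) = ∑ l ∈ G, (x l : ℤ) :=
        Finset.sum_erase_add G (fun l => (x l : ℤ)) hi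
      rw [← hs]
      exact h'
    · have hsub : G ⊆ Finset.range i := by
        intro l hl
        have h2 := Finset.mem_range.1 (hG hl)
        rw [Finset.mem_range]
        rcases Nat.lt_or_ge l i with h | h
        · exact h
        · exfalso
          have : l = i := by omega
          exact hi (this ▸ hl)
      exact h2 i _ _ (ih G hsub j hj hc)

end I_GSM

/-- [GSM] the combinatorics of the greedy construction. -/
theorem GSM_pf : S_GSM := by
  intro k n c r x P hx h0 h1 h2 h3 F hF hne hcard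
  classical
  obtain ⟨G, hG⟩ : ∃ G : Finset ℕ, G.image x = F := by
    refine ⟨F.preimage x hx.injective.injOn, ?_⟩
    ext y
    rw [Finset.mem_image]
    constructor
    · rintro ⟨l, hl, rfl⟩
      exact Finset.mem_preimage.1 hl
    · intro hy
      obtain ⟨l, rfl⟩ := hF hy
      exact ⟨l, Finset.mem_preimage.2 hy, rfl⟩
  subst hG
  have hGne : G.Nonempty := by simpa using hne
  rw [Finset.card_image_of_injective G hx.injective] at hcard
  rw [Finset.sum_image hx.injective.injOn]
  set i := G.max' hGne with hi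
  have hiG : i ∈ G := G.max'_mem hGne
  have hsub : G.erase i ⊆ Finset.range i := by
    intro l hl
    have h := Finset.mem_erase.1 hl
    have h' := G.le_max' l h.2
    rw [Finset.mem_range]
    omega
  have hc' : (G.erase i).card + 1 = G.card := Finset.card_erase_add_one hiG
  have h := I_GSM.aux r x P h0 h2 h3 i (G.erase i) hsub 0 (Nat.succ_pos n) (by omega)
  have h4 := h1 i _ h
  have hs : (∑ l ∈ G.erase i, (x l : ℤ)) + (x i : ℤ) = ((∑ l ∈ G, x l : ℕ) : ℤ) := by
    rw [Finset.sum_erase_add G (fun l => (x l : ℤ)) hiG]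
    push_cast
    rfl
  change HK.ext c ((∑ l ∈ G.erase i, (x l : ℤ)) + (x i : ℤ)) = r at h4
  rw [hs] at h4
  change c (((∑ l ∈ G, x l : ℕ) : ℤ).toNat) = r at h4
  rwa [Int.toNat_natCast] at h4

end Pool.Agent.Work.MP_69fea5_lc.W3
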