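import Pool.Agent.Work.MP_69fea5_lc.W3.StmtsV

/-!
Block [69fea5 V], item GTR: if a box is blocked then almost all of it is in the section of the
avoiding set.
-/

set_option autoImplicit false

namespace Pool.Agent.Work.MP_69fea5_lc.W3

open MeasureTheory Topology Set Filter ProbabilityTheory
open scoped NNReal ENNReal
open Pool.Agent.Work.MP_69fea5_lc.AK
open Pool.Agent.Work.MP_69fea5_lc.HK (Cl DU Ar ArF ArR Dat Law LawC act near sc Pt oc Mn mr ext)

namespace I_GTR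

/-- an ultrafilter at `+∞` for a point of the limit set -/
theorem omg_ultra {Y : Type} [TopologicalSpace Y] [Sys Y] {y q : Y} (h : q ∈ omg y) :
    ∃ G : Ultrafilter ℕ, (G : Filter ℕ) ≤ atTop ∧
      Tendsto (fun x : ℕ => sh (x : ℤ) y) (G : Filter ℕ) (𝓝 q) := by
  have hne : NeBot (comap (fun x : ℕ => sh (x : ℤ) y) (𝓝 q) ⊓ atTop) := by
    rw [inf_neBot_iff]
    intro A hA B hB
    obtain ⟨U, hU, hUA⟩ := mem_comap.1 hA
    obtain ⟨N, hN⟩ := mem_atTop_sets.1 hB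
    obtain ⟨x, hx, hxU⟩ := h U hU N
    exact ⟨x, hUA hxU, hN x hx⟩
  refine ⟨Ultrafilter.of (comap (fun x : ℕ => sh (x : ℤ) y) (𝓝 q) ⊓ atTop),
    (Ultrafilter.of_le _).trans inf_le_right, ?_⟩
  exact tendsto_iff_comap.2 ((Ultrafilter.of_le _).trans inf_le_left)

theorem tsh_cont {k n : ℕ} (m : ℤ) : Continuous (tsh m : (Fin n → Om k) → (Fin n → Om k)) :=
  continuous_pi fun j => (sh_cont m).comp (continuous_apply j)

theorem cns_tsh {k n : ℕ} (m : ℤ) (w : Om k) (u : Fin (n + 1) → Om k) :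
    cns (sh m w) (tsh m u) = tsh m (cns w u) := by
  funext j
  refine Fin.cases ?_ (fun i => ?_) j
  · simp [cns, tsh]
  · simp [cns, tsh, Fin.init]

/-- near `w` the finitely many conditions are the same -/
theorem near_cond {k : ℕ} (P : Set (Om k)) (hP : IsClopen P) (w : Om k) (J : ℕ) :
    ∀ᶠ z in 𝓝 w, ∀ m : ℤ, |m| ≤ (J : ℤ) → (sh m z ∈ P ↔ sh m w ∈ P) := by
  have h1 : ∀ m : ℤ, ∀ᶠ z in 𝓝 w, (sh m z ∈ P ↔ sh m w ∈ P) := by
    intro m
    have hc : IsClopen {z : Om k | sh m z ∈ P} := hP.preimage (sh_cont m)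
    by_cases hw : sh m w ∈ P
    · filter_upwards [hc.isOpen.mem_nhds hw] with z hz
      exact ⟨fun _ => hw, fun _ => hz⟩
    · filter_upwards [hc.compl.isOpen.mem_nhds hw] with z hz
      exact ⟨fun h => absurd h hz, fun h => absurd h hw⟩
  have h2 : ∀ᶠ z in 𝓝 w, ∀ m ∈ Set.Icc (-(J : ℤ)) (J : ℤ), (sh m z ∈ P ↔ sh m w ∈ P) :=
    (Filter.eventually_all_finite (Set.finite_Icc _ _)).2 fun m _ => h1 m
  filter_upwards [h2] with z hz m hm
  exact hz m (abs_le.1 hm)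

end I_GTR

open I_GTR in
theorem GTR_pf (hTBX : S_TBX) (hTSC : S_TSC) (hAVD : S_AVD) (hGUS : S_GUS) : S_GTR := by
  intro k n X _ _ _ c M π v₀ μ κ hG P hP N hbl w₀ hw₀ hπ₀
  obtain ⟨hR, -, hA⟩ := hAVD k n P hP
  obtain ⟨⟨a, ha⟩, -⟩ := hGUS k n X c M π v₀ μ κ hG (avd P) hR
  obtain ⟨w, hw, hret⟩ := hG.ret
  obtain ⟨G, hGt, hGl⟩ := omg_ultra hret
  have hGc : Tendsto (fun x : ℕ => sh (x : ℤ) c) (G : Filter ℕ) (𝓝 w) :=
    (continuous_fst.tendsto _).comp hGl
  have hGv : Tendsto (fun x : ℕ => sh (x : ℤ) v₀) (G : Filter ℕ) (𝓝 (π w)) :=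
    (continuous_snd.tendsto _).comp hGl
  -- the limit of `w₀`
  obtain ⟨w', hw'l⟩ : ∃ w' : Om k, Tendsto (fun x : ℕ => sh (x : ℤ) w₀) (G : Filter ℕ) (𝓝 w') :=
    ⟨(G.map fun x : ℕ => sh (x : ℤ) w₀).lim, (G.map fun x : ℕ => sh (x : ℤ) w₀).le_nhds_lim⟩
  have hxM : ∀ x : ℤ, sh x w₀ ∈ M := fun x => hG.min.inv x w₀ hw₀
  have hw' : w' ∈ M := hG.min.closed.mem_of_tendsto hw'l (Eventually.of_forall fun x => hxM x)
  have hw'M : Tendsto (fun x : ℕ => sh (x : ℤ) w₀) (G : Filter ℕ) (𝓝[M] w') :=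
    tendsto_nhdsWithin_iff.2 ⟨hw'l, Eventually.of_forall fun x => hxM x⟩
  have hπx : ∀ x : ℤ, π (sh x w₀) = sh x v₀ := fun x => by rw [hG.equi w₀ hw₀ x, hπ₀]
  have hπ' : π w' = π w := by
    have h1 : Tendsto (fun x : ℕ => π (sh (x : ℤ) w₀)) (G : Filter ℕ) (𝓝 (π w')) :=
      (hG.cont w' hw').tendsto.comp hw'M
    have h2 : (fun x : ℕ => π (sh (x : ℤ) w₀)) = fun x : ℕ => sh (x : ℤ) v₀ :=
      funext fun x => hπx x
    rw [h2] at h1
    exact tendsto_nhds_unique h1 hGv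
  have := hG.prob w hw
  have hp0 : IsProbabilityMeasure (κ v₀) := hπ₀ ▸ hG.prob w₀ hw₀
  -- closed sections
  have hcl : ∀ z : Om k, IsClosed {u | cns z u ∈ avd P} := fun z =>
    (hTSC k n (avd P) hR.closed z univ isOpen_univ (subset_univ _)).1
  -- the measure of the union of the two sections
  have hun : (κ (π w)).real ({u | cns w u ∈ avd P} ∪ {u | cns w' u ∈ avd P}) = a := by
    have h1 : κ (π w) {u | cns w' u ∈ avd P ∧ cns w u ∉ avd P} = 0 := by
      have := hG.wd (avd P) hR w' hw' w hw hπ'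
      rwa [hπ'] at this
    have h2 : {u | cns w u ∈ avd P} ∪ {u | cns w' u ∈ avd P} =
        {u | cns w u ∈ avd P} ∪ {u | cns w' u ∈ avd P ∧ cns w u ∉ avd P} := by
      ext u
      simp only [mem_union, mem_ofPred_eq]
      tauto
    have h3 : κ (π w) ({u | cns w u ∈ avd P} ∪ {u | cns w' u ∈ avd P}) =
        κ (π w) {u | cns w u ∈ avd P} := by
      rw [h2]
      refine le_antisymm ((measure_union_le _ _).trans ?_) (measure_mono subset_union_left)
      rw [h1, add_zero]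
    rw [← ha w hw, Measure.real, Measure.real, h3]
  have hle : ∀ ε : ℝ, 0 < ε →
      (κ v₀).real (univ.pi P ∪ {u | cns w₀ u ∈ avd P}) ≤ a + ε := by
    intro ε hε
    obtain ⟨C, hC, hFC, hCa⟩ := (hTBX k (n + 1)).2.1 (κ (π w))
      ({u | cns w u ∈ avd P} ∪ {u | cns w' u ∈ avd P}) (a + ε) ((hcl w).union (hcl w'))
      (by rw [hun]; linarith)
    -- (i)
    obtain ⟨-, W, hW, hWC⟩ := hTSC k n (avd P) hR.closed w' C hC.isOpen
      (subset_union_right.trans hFC)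
    have e1 : ∀ᶠ x : ℕ in (G : Filter ℕ), ∀ u, cns w₀ u ∈ avd P → tsh (x : ℤ) u ∈ C := by
      filter_upwards [hw'l.eventually hW] with x hx u hu
      refine hWC _ hx ?_
      change cns (sh (x : ℤ) w₀) (tsh (x : ℤ) u) ∈ avd P
      rw [cns_tsh]
      exact hR.inv _ _ hu
    -- (ii)
    obtain ⟨J, hJ⟩ := hA w C hC.isOpen (subset_union_left.trans hFC)
    have e2 : ∀ᶠ x : ℕ in (G : Filter ℕ), ∀ m : ℤ, |m| ≤ (J : ℤ) →
        (sh m (sh (x : ℤ) c) ∈ P 0 ↔ sh m w ∈ P 0) :=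
      hGc.eventually (near_cond (P 0) (hP 0) w J)
    have e3 : ∀ᶠ x : ℕ in (G : Filter ℕ), N + J ≤ x := hGt (eventually_ge_atTop _)
    have e4 : ∀ᶠ x : ℕ in (G : Filter ℕ),
        (κ v₀).real (univ.pi P ∪ {u | cns w₀ u ∈ avd P}) ≤ (κ (π (sh (x : ℤ) w₀))).real C := by
      filter_upwards [e1, e2, e3] with x h1 h2 h3
      have hnull : ∀ m : ℤ, |m| ≤ (J : ℤ) → sh m (sh (x : ℤ) c) ∈ P 0 →
          κ v₀ (univ.pi P ∩ {u | ∀ j : Fin n, sh (m + x) (u j.castSucc) ∈ P j.succ}) = 0 := by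
        intro m hm hc
        have hmx : 0 ≤ m + x := by
          have := (abs_le.1 hm).1
          have h4 : ((N + J : ℕ) : ℤ) ≤ x := by exact_mod_cast h3
          push_cast at h4
          linarith [Int.natCast_nonneg N]
        obtain ⟨y, hy⟩ := Int.eq_ofNat_of_zero_le hmx
        have hyN : N ≤ y := by
          have := (abs_le.1 hm).1
          have h4 : ((N + J : ℕ) : ℤ) ≤ x := by exact_mod_cast h3
          push_cast at h4
          have h5 : (N : ℤ) ≤ y := by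
            rw [← hy]
            linarith
          exact_mod_cast h5
        rw [hy]
        refine hbl y hyN ?_
        rw [← hy, sh_add]
        exact hc
      have hsub : univ.pi P ∪ {u | cns w₀ u ∈ avd P} ⊆ {u | tsh (x : ℤ) u ∈ C} ∪
          ⋃ m : {m : ℤ // |m| ≤ (J : ℤ) ∧ sh m (sh (x : ℤ) c) ∈ P 0},
            (univ.pi P ∩ {u | ∀ j : Fin n, sh (m.1 + x) (u j.castSucc) ∈ P j.succ}) := by
        rintro u (hu | hu)
        · by_cases hc : tsh (x : ℤ) u ∈ C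
          · exact Or.inl hc
          · right
            have h4 : ¬ ∀ m : ℤ, |m| ≤ (J : ℤ) → ¬ ∀ j, sh m (cns w (tsh (x : ℤ) u) j) ∈ P j :=
              fun h => hc (hJ _ h)
            push Not at h4
            obtain ⟨m, hm, hmj⟩ := h4
            refine mem_iUnion.2 ⟨⟨m, hm, (h2 m hm).2 (hmj 0)⟩, hu, fun j => ?_⟩
            have h5 := hmj j.succ
            rw [sh_add]
            exact h5
        · exact Or.inl (h1 u hu)
      have h6 : κ v₀ (univ.pi P ∪ {u | cns w₀ u ∈ avd P}) ≤ κ v₀ {u | tsh (x : ℤ) u ∈ C} := by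
        refine (measure_mono hsub).trans ((measure_union_le _ _).trans ?_)
        have h9 : κ v₀ (⋃ m : {m : ℤ // |m| ≤ (J : ℤ) ∧ sh m (sh (x : ℤ) c) ∈ P 0},
            (univ.pi P ∩ {u | ∀ j : Fin n, sh (m.1 + x) (u j.castSucc) ∈ P j.succ})) = 0 :=
          measure_iUnion_null fun m => hnull m.1 m.2.1 m.2.2
        rw [h9, add_zero]
      have h7 : κ v₀ {u | tsh (x : ℤ) u ∈ C} = κ (π (sh (x : ℤ) w₀)) C := by
        rw [hG.equi w₀ hw₀ x, hG.ke w₀ hw₀ x, hπ₀,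
          Measure.map_apply (tsh_cont (x : ℤ)).measurable hC.isOpen.measurableSet]
        rfl
      rw [h7] at h6
      have := hG.prob _ (hxM x)
      exact ENNReal.toReal_mono (measure_ne_top _ _) h6
    have h8 : Tendsto (fun x : ℕ => (κ (π (sh (x : ℤ) w₀))).real C) (G : Filter ℕ)
        (𝓝 ((κ (π w')).real C)) := (hG.kc C hC w' hw').tendsto.comp hw'M
    rw [hπ'] at h8
    exact (ge_of_tendsto h8 e4).trans hCa.le
  have hfin : (κ v₀).real (univ.pi P ∪ {u | cns w₀ u ∈ avd P}) ≤ a :=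
    le_of_forall_pos_le_add hle
  have ha0 : (κ v₀).real {u | cns w₀ u ∈ avd P} = a := by
    rw [← hπ₀]
    exact ha w₀ hw₀
  have hu : univ.pi P ∪ {u | cns w₀ u ∈ avd P} =
      (univ.pi P \ {u | cns w₀ u ∈ avd P}) ∪ {u | cns w₀ u ∈ avd P} := by
    rw [sdiff_union_self]
  have hms : MeasurableSet {u | cns w₀ u ∈ avd P} := (hcl w₀).measurableSet
  rw [hu, measureReal_union disjoint_sdiff_left hms, ha0] at hfin
  have h0 : (κ v₀).real (univ.pi P \ {u | cns w₀ u ∈ avd P}) = 0 :=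
    le_antisymm (by linarith) measureReal_nonneg
  exact (measureReal_eq_zero_iff).1 h0

end Pool.Agent.Work.MP_69fea5_lc.W3
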