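import Pool.Agent.Work.MP_69fea5_lc.W3.StmtsV

/-!
Block [69fea5 V], item GUS: the measure of the sections of a closed invariant set of tuples.
-/

set_option autoImplicit false

namespace Pool.Agent.Work.MP_69fea5_lc.W3

open MeasureTheory Topology Set Filter ProbabilityTheory
open scoped NNReal ENNReal
open Pool.Agent.Work.MP_69fea5_lc.AK
open Pool.Agent.Work.MP_69fea5_lc.HK (Cl DU Ar ArF ArR Dat Law LawC act near sc Pt oc Mn mr ext)

namespace I_GUS

theorem tsh_cont {k n : ℕ} (m : ℤ) : Continuous (tsh m : (Fin n → Om k) → (Fin n → Om k)) :=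
  continuous_pi fun j => (sh_cont m).comp (continuous_apply j)

theorem cns_tsh {k n : ℕ} (m : ℤ) (w : Om k) (u : Fin (n + 1) → Om k) :
    cns (sh m w) (tsh m u) = tsh m (cns w u) := by
  funext j
  refine Fin.cases ?_ (fun i => ?_) j
  · rfl
  · rfl

theorem tsh_neg {k n : ℕ} (m : ℤ) (u : Fin n → Om k) : tsh (-m) (tsh m u) = u := by
  funext j
  simp only [tsh]
  rw [← sh_add, neg_add_cancel, sh_zero]

theorem sec_tsh {k n : ℕ} {R : Set (Fin (n + 1) → Om k)} (hR : TRel R) (m : ℤ) (w : Om k) :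
    (tsh m : (Fin (n + 1) → Om k) → (Fin (n + 1) → Om k)) ⁻¹' {u | cns (sh m w) u ∈ R}
      = {u | cns w u ∈ R} := by
  ext u
  simp only [mem_preimage, mem_ofPred_eq]
  rw [cns_tsh]
  constructor
  · intro h
    have := hR.inv (-m) _ h
    rwa [tsh_neg] at this
  · intro h
    exact hR.inv m _ h

/-- upper semicontinuity -/
theorem usc (hTBX : S_TBX) (hTSC : S_TSC) {k n : ℕ} {X : Type} [TopologicalSpace X] [Sys X]
    {c : Om k} {M : Set (Om k)} {π : Om k → X} {v₀ : X} {μ : PM k}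
    {κ : X → Measure (Fin (n + 1) → Om k)} (H : GH c M π v₀ μ κ)
    {R : Set (Fin (n + 1) → Om k)} (hR : TRel R) (C : Set (Fin (n + 1) → Om k)) (hC : IsClopen C)
    (w : Om k) (hw : w ∈ M) (t : ℝ) (ht : (κ (π w)).real ({u | cns w u ∈ R} ∩ C) < t) :
    ∀ᶠ w' in 𝓝[M] w, (κ (π w')).real ({u | cns w' u ∈ R} ∩ C) < t := by
  have hcl : IsClosed {u | cns w u ∈ R} :=
    (hTSC k n R hR.closed w univ isOpen_univ (subset_univ _)).1
  have := H.prob w hw
  obtain ⟨D, hD, hsub, hDt⟩ := (hTBX k (n + 1)).2.1 (κ (π w)) ({u | cns w u ∈ R} ∩ C) t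
    (hcl.inter hC.isClosed) ht
  have hO : IsOpen (D ∪ Cᶜ) := hD.isOpen.union hC.compl.isOpen
  obtain ⟨-, W, hW, hWs⟩ := hTSC k n R hR.closed w (D ∪ Cᶜ) hO (by
    intro u hu
    by_cases hc : u ∈ C
    · exact Or.inl (hsub ⟨hu, hc⟩)
    · exact Or.inr hc)
  have h1 : ∀ᶠ w' in 𝓝[M] w, (κ (π w')).real D < t :=
    (H.kc D hD w hw).eventually_lt_const hDt
  have h2 : ∀ᶠ w' in 𝓝[M] w, w' ∈ W := mem_nhdsWithin_of_mem_nhds hW
  have h3 : ∀ᶠ w' in 𝓝[M] w, w' ∈ M := self_mem_nhdsWithin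
  filter_upwards [h1, h2, h3] with w' h1 h2 h3
  have := H.prob w' h3
  refine lt_of_le_of_lt (measureReal_mono ?_) h1
  rintro u ⟨hu, hc⟩
  rcases hWs w' h2 hu with h | h
  · exact h
  · exact absurd hc h

end I_GUS

open I_GUS in
theorem GUS_pf (hTBX : S_TBX) (hTSC : S_TSC) (hCST : AK.S_CST) : S_GUS := by
  intro k n X _ _ c M π v₀ μ κ H R hR
  have hclosed : ∀ w : Om k, IsClosed {u | cns w u ∈ R} := fun w =>
    (hTSC k n R hR.closed w univ isOpen_univ (subset_univ _)).1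
  have hconst : ∀ x ∈ M, ∀ y ∈ M, (κ (π x)).real {u | cns x u ∈ R}
      = (κ (π y)).real {u | cns y u ∈ R} := by
    refine hCST (Om k) M (fun w => (κ (π w)).real {u | cns w u ∈ R}) H.min ?_ ?_
    · intro m w hw
      rw [H.equi w hw m, H.ke w hw m, map_measureReal_apply (tsh_cont m).measurable
        (hclosed _).measurableSet, sec_tsh hR]
    · intro a
      rw [← isOpen_compl_iff, isOpen_iff_mem_nhds]
      intro w hw
      by_cases hwM : w ∈ M
      · have hlt : (κ (π w)).real ({u | cns w u ∈ R} ∩ univ) < a := by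
          rw [inter_univ]
          by_contra hcon
          exact hw ⟨hwM, not_lt.mp hcon⟩
        have h1 := usc hTBX hTSC H hR univ isClopen_univ w hwM a hlt
        have h2 := eventually_nhdsWithin_iff.mp h1
        filter_upwards [h2] with w' h2 hcon
        have h3 := h2 hcon.1
        rw [inter_univ] at h3
        exact absurd hcon.2 (not_le.mpr h3)
      · filter_upwards [H.min.closed.isOpen_compl.mem_nhds hwM] with w' h1 hcon
        exact h1 hcon.1
  obtain ⟨w₀, hw₀, -⟩ := H.base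
  refine ⟨⟨_, fun w hw => hconst w hw w₀ hw₀⟩, ?_⟩
  intro C hC w hw
  have hsum : ∀ x ∈ M, (κ (π x)).real ({u | cns x u ∈ R} ∩ C)
      + (κ (π x)).real ({u | cns x u ∈ R} ∩ Cᶜ) = (κ (π w₀)).real {u | cns w₀ u ∈ R} := by
    intro x hx
    have := H.prob x hx
    rw [← hconst x hx w₀ hw₀, ← sdiff_eq]
    exact measureReal_inter_add_sdiff hC.isOpen.measurableSet
  refine tendsto_order.2 ⟨fun b hb => ?_, fun b hb => usc hTBX hTSC H hR C hC w hw b hb⟩
  have h1 := usc hTBX hTSC H hR Cᶜ hC.compl w hw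
    ((κ (π w₀)).real {u | cns w₀ u ∈ R} - b) (by
      have := hsum w hw
      linarith)
  have h3 : ∀ᶠ w' in 𝓝[M] w, w' ∈ M := self_mem_nhdsWithin
  filter_upwards [h1, h3] with w' h1 h3
  have := hsum w' h3
  linarith

end Pool.Agent.Work.MP_69fea5_lc.W3
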