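import Pool.Agent.Work.MP_69fea5_lc.N3.DefsB
import Pool.Agent.Work.MP_69fea5_lc.W3.Bor

/-!
# Block [69fea5 W3]: sums of at most three terms, all numbers of colours.  General definitions

Paper proof: notes 3767 (helper44), 3781 (helper61), 3789 (helper1) on MP_69fea5_lc.
All bases are general compact metrizable systems `X`; the letters are a compact metrizable system
`O` (mostly `Om k`). A set `A ⊆ O × X` is a system over the base; its fibre over `x` is
`{u | (u, x) ∈ A}`.
-/

set_option autoImplicit false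

namespace Pool.Agent.Work.MP_69fea5_lc.W3

open MeasureTheory Topology Set Filter TopologicalSpace
open scoped NNReal ENNReal
open Pool.Agent.Work.MP_69fea5_lc.AK

/-! ### Spaces -/

/-- compact metrizable spaces with their Borel sets -/
class CS (X : Type) [TopologicalSpace X] [MeasurableSpace X] : Prop
  extends CompactSpace X, MetrizableSpace X, BorelSpace X

instance {X Y : Type} [TopologicalSpace X] [MeasurableSpace X] [CS X] [TopologicalSpace Y]
    [MeasurableSpace Y] [CS Y] : CS (X × Y) where

instance {ι X : Type} [Countable ι] [TopologicalSpace X] [MeasurableSpace X] [CS X] :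
    CS (ι → X) where

instance {X : Type} [TopologicalSpace X] [MeasurableSpace X] [CS X] :
    CS (ProbabilityMeasure X) where

instance {k : ℕ} : CS (Om k) where

instance {I : Type} [Countable I] : CS (Cube I) where

instance : CS Unit where

instance (priority := low) piSys {ι A : Type*} [TopologicalSpace A] [Sys A] : Sys (ι → A) where
  sh n f := fun i => sh n (f i)
  zero' f := funext fun i => sh_zero _
  add' m n f := funext fun i => sh_add _ _ _
  cont' n := continuous_pi fun i => (sh_cont n).comp (continuous_apply i)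

noncomputable instance (priority := 50) pmSysG {O : Type} [TopologicalSpace O] [MeasurableSpace O]
    [CS O] [Sys O] : Sys (ProbabilityMeasure O) where
  sh n m := m.map (f := (sh n : O → O)) (sh_cont n).measurable.aemeasurable
  zero' m := by
    apply Subtype.ext
    have : (sh 0 : O → O) = id := funext fun z => sh_zero z
    change Measure.map (sh 0 : O → O) (m : Measure O) = m
    rw [this, Measure.map_id]
  add' a b m := by
    apply Subtype.ext
    change Measure.map (sh (a + b) : O → O) (m : Measure O) =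
      Measure.map (sh a : O → O) (Measure.map (sh b : O → O) (m : Measure O))
    rw [Measure.map_map (sh_cont a).measurable (sh_cont b).measurable]
    congr 1
    exact funext fun z => sh_add a b z
  cont' n := ProbabilityMeasure.continuous_map (sh_cont n)

example {k : ℕ} : (pmSysG : Sys (PM k)) = pmSys := rfl

/-! ### Systems over a base -/

section fibres

variable {O X C : Type} [TopologicalSpace O] [Sys O] [TopologicalSpace X] [Sys X]
  [TopologicalSpace C] [Sys C]

/-- continuous invariant pseudometrics on the fibres of `A` -/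
structure IPB (A : Set (O × X)) (ρ : O → O → X → ℝ) : Prop where
  cont : ContinuousOn (fun p : O × O × X => ρ p.1 p.2.1 p.2.2)
    {p | (p.1, p.2.2) ∈ A ∧ (p.2.1, p.2.2) ∈ A}
  inv : ∀ (n : ℤ) (x : X) (u u' : O), (u, x) ∈ A → (u', x) ∈ A →
    ρ (sh n u) (sh n u') (sh n x) = ρ u u' x
  self : ∀ (x : X) (u : O), (u, x) ∈ A → ρ u u x = 0
  nonneg : ∀ (x : X) (u u' : O), (u, x) ∈ A → (u', x) ∈ A → 0 ≤ ρ u u' x
  symm : ∀ (x : X) (u u' : O), (u, x) ∈ A → (u', x) ∈ A → ρ u u' x = ρ u' u x
  tri : ∀ (x : X) (u u' u'' : O), (u, x) ∈ A → (u', x) ∈ A → (u'', x) ∈ A →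
    ρ u u'' x ≤ ρ u u' x + ρ u' u'' x

/-- the map `θ` determines all continuous invariant pseudometrics on the fibres -/
def Uni (A : Set (O × X)) (θ : O × X → C) : Prop :=
  ∀ ρ, IPB A ρ → ∀ (x : X) (u u' : O), (u, x) ∈ A → (u', x) ∈ A → θ (u, x) = θ (u', x) →
    ρ u u' x = 0

/-- the phases: pairs `(θ (u, x), x)` -/
def JJ (A : Set (O × X)) (θ : O × X → C) : Set (C × X) := (fun p => (θ p, p.2)) '' A

/-- `J ⊆ C × X` is an isometric extension of its base -/
structure Isom (J : Set (C × X)) (d : C → C → X → ℝ) : Prop where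
  closed : IsClosed J
  inv : AK.Inv J
  base : MinSet (Prod.snd '' J)
  ipb : IPB J d
  sep : ∀ (x : X) (t t' : C), (t, x) ∈ J → (t', x) ∈ J → d t t' x = 0 → t = t'

/-- `θ` is the universal isometric factor of `A` over the base -/
structure Pha (A : Set (O × X)) (θ : O × X → C) : Prop where
  min : MinSet A
  cont : ContinuousOn θ A
  equi : ∀ p ∈ A, ∀ n : ℤ, θ (sh n p) = sh n (θ p)
  iso : ∃ d, Isom (JJ A θ) d
  uni : Uni A θ

/-- points of the base over which `c` comes back to all of `A` -/
def Exa {k : ℕ} (c : Om k) (A : Set (Om k × X)) (x : X) : Prop := A ⊆ omg (c, x)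

end fibres

/-! ### Levels -/

section levels

variable {O X X' : Type} [TopologicalSpace O] [MeasurableSpace O] [CS O] [Sys O]
  [TopologicalSpace X] [MeasurableSpace X] [CS X] [Sys X]
  [TopologicalSpace X'] [MeasurableSpace X'] [CS X'] [Sys X']

/-- a minimal system over the base with a relatively invariant measure `ms` -/
structure Lev (A : Set (O × X)) (ms : X → ProbabilityMeasure O) : Prop where
  min : MinSet A
  cont : Continuous ms
  equi : ∀ (n : ℤ) (x : X), ms (sh n x) = sh n (ms x)
  one : ∀ p ∈ A, ms p.2 {u | (u, p.2) ∈ A} = 1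

/-- `E` is strongly proximal over `p`: every probability measure on one fibre can be contracted to
a point -/
def SPr {Y : Type} (E : Set X') (p : X' → Y) : Prop :=
  ∀ (x : Y) (ν : ProbabilityMeasure X'), ν {e | e ∈ E ∧ p e = x} = 1 →
    ∃ e : X', diracProba e ∈ orb ν

/-- a minimal strongly proximal extension of (a subset of) `X` -/
structure SPx (E : Set X') (q : X' → X) : Prop where
  min : MinSet E
  cont : Continuous q
  equi : ∀ (n : ℤ) (e : X'), q (sh n e) = sh n (q e)
  spr : SPr E q

/-- the pull-back of `A` to `E` -/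
def Pb (A : Set (O × X)) (E : Set X') (q : X' → X) : Set (O × X') :=
  {p | p.2 ∈ E ∧ (p.1, q p.2) ∈ A}

/-- `A'` is the base change of `A` along the strongly proximal extension `E` -/
structure BCh (A : Set (O × X)) (E : Set X') (q : X' → X) (A' : Set (O × X')) : Prop where
  spx : SPx E q
  minA : MinSet A
  base : Prod.snd '' A = q '' E
  min : MinSet A'
  sub : A' ⊆ Pb A E q

end levels

/-! ### Barycentres and energy -/

section energy

variable {O X K : Type} [TopologicalSpace O] [MeasurableSpace O] [CS O] [Sys O]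
  [TopologicalSpace X] [MeasurableSpace X] [CS X] [Sys X]
  [TopologicalSpace K] [MeasurableSpace K] [CS K] [Sys K]

/-- `m` is the barycentre of the measures `f q`, `q` with the law `κ` -/
def Bar (κ : ProbabilityMeasure K) (f : K → ProbabilityMeasure O) (m : ProbabilityMeasure O) :
    Prop :=
  (κ : Measure K).bind (fun q => (f q : Measure O)) = (m : Measure O)

/-- the barycentres of the measures on the fibres of `F` -/
def Fam (F : Set (X × ProbabilityMeasure O)) : Set (X × ProbabilityMeasure O) :=
  {p | ∃ κ : ProbabilityMeasure (ProbabilityMeasure O), κ {m | (p.1, m) ∈ F} = 1 ∧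
    Bar κ id p.2}

/-- the point masses on the fibres of `A` -/
def Dlt (A : Set (O × X)) : Set (X × ProbabilityMeasure O) :=
  (fun p : O × X => (p.2, diracProba p.1)) '' A

/-- test functions -/
structure Sep (f : ℕ → O → ℝ) : Prop where
  cont : ∀ i, Continuous (f i)
  bd : ∀ i z, |f i z| ≤ 1
  sep : ∀ m m' : ProbabilityMeasure O,
    (∀ i, ∫ z, f i z ∂(m : Measure O) = ∫ z, f i z ∂(m' : Measure O)) → m = m'

/-- the energy of a measure with respect to test functions -/
noncomputable def En (f : ℕ → O → ℝ) (m : ProbabilityMeasure O) : ℝ :=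
  ∑' i : ℕ, (1 / 2) ^ i * (∫ z, f i z ∂(m : Measure O)) ^ 2

/-- the supremum of the energies along the orbit -/
noncomputable def GE (f : ℕ → O → ℝ) (m : ProbabilityMeasure O) : ℝ := ⨆ n : ℤ, En f (sh n m)

/-- the elements of minimal energy of the family -/
def AAE (f : ℕ → O → ℝ) (F : Set (X × ProbabilityMeasure O)) : Set (X × ProbabilityMeasure O) :=
  {p | p ∈ Fam F ∧ ∀ p' ∈ Fam F, GE f p.2 ≤ GE f p'.2}

/-- the same for the energy of `AK` -/
def AAF {k : ℕ} (F : Set (X × PM k)) : Set (X × PM k) :=
  {p | p ∈ Fam F ∧ ∀ p' ∈ Fam F, GG p.2 ≤ GG p'.2}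

/-- the test functions of `AK.FF` -/
noncomputable def fcyl (k : ℕ) (i : ℕ) (z : Om k) : ℝ := (cyl (wd k i) 0).indicator 1 z

end energy

/-! ### The universal phase -/

section Th

variable {X : Type} [TopologicalSpace X] [Sys X] {k : ℕ} {κ : Type}

/-- the pairs over `x` whose orbits avoid the boxes of the list `L` -/
def RL (V : κ → Set X) (L : List (Wd k × Wd k × κ)) (u : Om k) (x : X) : Set (Om k) :=
  {u' | ∀ n : ℤ, ∀ q ∈ L, ¬ (u ∈ cyl q.1 n ∧ u' ∈ cyl q.2.1 n ∧ sh n x ∈ V q.2.2)}

/-- indices of the coordinates of the phase -/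
abbrev IxT (k : ℕ) (κ : Type) := List (Wd k × Wd k × κ) × Wd k

/-- the phase of `u` in the fibre over `x` -/
noncomputable def Th (V : κ → Set X) (ms : X → PM k) (p : Om k × X) : Cube (IxT k κ) :=
  fun i n => toI (ms p.2) (cyl i.2 n ∩ RL V i.1 p.1 p.2)

/-- `V` is a base of open neighbourhoods of the points of `B` -/
def Bas (V : κ → Set X) (B : Set X) : Prop :=
  (∀ i, IsOpen (V i)) ∧ ∀ x ∈ B, ∀ U ∈ 𝓝 x, ∃ i, x ∈ V i ∧ V i ∩ B ⊆ U

end Th

/-! ### Frames -/

section frames

variable {O X C : Type} [TopologicalSpace O] [Sys O] [TopologicalSpace X] [Sys X]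
  [TopologicalSpace C] [Sys C]

/-- `v = (x, t)` is a frame: the phases `t l` are dense in the fibre over `x` -/
def Frm (J : Set (C × X)) (v : X × (ℕ → C)) : Prop :=
  (∀ l, (v.2 l, v.1) ∈ J) ∧ ∀ s, (s, v.1) ∈ J → s ∈ closure (Set.range v.2)

/-- the points of `A` whose phase is the `j`-th phase of the frame -/
def At (A : Set (O × X)) (θ : O × X → C) (Z : Set (X × (ℕ → C))) (j : ℕ) :
    Set (O × (X × (ℕ → C))) :=
  {p | p.2 ∈ Z ∧ (p.1, p.2.1) ∈ A ∧ θ (p.1, p.2.1) = p.2.2 j}

end frames

/-- `z` is a limit of points `g` of the support of `m` such that `T^n g` and `T^n c` agree on long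
windows while `T^n x` is close to `x` -/
def ZSX {k : ℕ} {X : Type} [TopologicalSpace X] [Sys X] (c : Om k) (m : PM k) (x : X) (z : Om k) :
    Prop :=
  ∀ U ∈ 𝓝 z, ∀ V ∈ 𝓝 x, ∀ L : ℕ, ∃ n : ℕ, L ≤ n ∧ sh (n : ℤ) x ∈ V ∧
    ∃ g ∈ supp m ∩ U, ∀ j : ℤ, |j| ≤ L → g (n + j) = c (n + j)

end Pool.Agent.Work.MP_69fea5_lc.W3
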