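import Pool.Agent.Work.MP_69fea5_lc.KC.I_LAWCU
import Pool.Agent.Work.MP_69fea5_lc.HK.InstPM
import Pool.Agent.Work.MP_69fea5_lc.HK.InstC
import Pool.Agent.Work.MP_69fea5_lc.N3.DefsB
import Pool.Agent.Work.MP_69fea5_lc.W3.Defs

/-!
# Wave 3, coding: families of points, orbits, fibres

`ι → A` (sequences, tuples) and `Unit` as coded dynamical spaces; coded times, coded limits, coded
points of fibres, coded dense families in fibres.  Everything is proved here.
-/

set_option autoImplicit false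
set_option linter.unusedSectionVars false
set_option linter.unusedVariables false
set_option linter.deprecated false

open Filter Topology MeasureTheory

namespace Pool.Agent.Work.MP_69fea5_lc.W3

open Pool.Agent.Work.MP_69fea5_lc
open Pool.Agent.Work.MP_69fea5_lc.HK (Cl DU Ar ArF ArR Dat Law LawC act near sc Pt oc Mn mr)
open Pool.Agent.Work.MP_69fea5_lc.KC (Agree oc_eq minSet_of_Mn)

/-! ### Families of points -/

instance (priority := low) datPi {ι A : Type} [Primcodable ι] [Dat A] : Dat (ι → A) where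
  act n f := fun i => act n (f i)
  near L f g := ∀ i : ι, Encodable.encode i ≤ L → near L (f i) (g i)
  sc S β _ w := sc S (fun p : β × ι => w p.1 p.2)

instance (priority := low) agreePi {ι A : Type} [Primcodable ι] [TopologicalSpace A] [Dat A]
    [AK.Sys A] [Agree A] : Agree (ι → A) :=
  ⟨fun n f => funext fun i => Agree.eq n (f i)⟩

instance (priority := low) lawPi {ι A : Type} [Primcodable ι] [TopologicalSpace A] [Dat A]
    [Law A] : Law (ι → A) where
  act_zero f := funext fun i => Law.act_zero (f i)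
  act_add m n f := funext fun i => Law.act_add m n (f i)
  cont n := continuous_pi fun i => (Law.cont n).comp (continuous_apply i)
  near_open L := by
    have e : {p : (ι → A) × (ι → A) | near L p.1 p.2} = ⋂ i ∈ HK.cle' ι L,
        {p : (ι → A) × (ι → A) | near L (p.1 i) (p.2 i)} := by
      ext p
      simp only [near, Set.mem_setOf_eq, Set.mem_iInter, HK.mem_cle']
    rw [e]
    refine isOpen_biInter_finset fun i _ => ?_
    exact (Law.near_open (α := A) L).preimage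
      (f := fun p : (ι → A) × (ι → A) => (p.1 i, p.2 i))
      (((continuous_apply i).comp continuous_fst).prodMk
        ((continuous_apply i).comp continuous_snd))
  near_refl L f i _ := Law.near_refl L (f i)
  near_symm L f g h i hi := Law.near_symm L _ _ (h i hi)
  near_tri L f g h h1 h2 i hi := Law.near_tri L _ _ _ (h1 i (by omega)) (h2 i (by omega))
  near_mono L L' f g hL h i hi := Law.near_mono L L' _ _ hL (h i (hi.trans hL))
  near_lim L p hp i hi := by
    refine Law.near_lim L (p.1 i, p.2 i) ?_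
    exact map_mem_closure (f := fun p : (ι → A) × (ι → A) => (p.1 i, p.2 i))
      (((continuous_apply i).comp continuous_fst).prodMk
        ((continuous_apply i).comp continuous_snd)) hp
      fun q hq => hq i (by omega)
  near_basis f U hU := by
    rw [nhds_pi, Filter.mem_pi] at hU
    obtain ⟨J, hJ, s, hs, hsub⟩ := hU
    choose g hg using fun i => Law.near_basis (f i) (s i) (hs i)
    refine ⟨hJ.toFinset.sup fun i => max (g i) (Encodable.encode i), fun y hy =>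
      hsub fun i hi => ?_⟩
    have h4 := Finset.le_sup (f := fun i => max (g i) (Encodable.encode i))
      (hJ.mem_toFinset.2 hi)
    have h5 : g i ≤ hJ.toFinset.sup fun i => max (g i) (Encodable.encode i) :=
      (le_max_left _ _).trans h4
    have h6 : Encodable.encode i ≤ hJ.toFinset.sup fun i => max (g i) (Encodable.encode i) :=
      (le_max_right _ _).trans h4
    exact hg i _ (Law.near_mono _ _ _ _ h5 (hy i h6))

instance (priority := low) lawCPi {ι A : Type} [Primcodable ι] [TopologicalSpace A] [Dat A]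
    [LawC A] : LawC (ι → A) where
  sc_comp S β γ _ _ w f hS hw hf := by
    refine LawC.sc_comp S (β × ι) (γ × ι) (fun p : β × ι => w p.1 p.2)
      (fun p : γ × ι => (f p.1, p.2)) hS hw ?_
    exact (hf.comp hS (ArF.fst hS)).pair hS (ArF.snd hS)
  sc_act S β _ w hS hw := by
    have h := LawC.sc_act S (β × ι) (fun p : β × ι => w p.1 p.2) hS hw
    refine LawC.sc_comp S ((β × ι) × ℤ) ((β × ℤ) × ι) _
      (fun p : (β × ℤ) × ι => ((p.1.1, p.2), p.1.2)) hS h ?_
    exact ArF.of_primrec hS (((Primrec.fst.comp Primrec.fst).pair Primrec.snd).pair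
      (Primrec.snd.comp Primrec.fst))
  sc_lim S U β _ w x hS hU hw hx := by
    refine LawC.sc_lim S U (β × ι) (fun p : (β × ι) × ℕ => w (p.1.1, p.2) p.1.2)
      (fun p : β × ι => x p.1 p.2) hS hU ?_ fun p => (tendsto_pi_nhds.1 (hx p.1)) p.2
    refine LawC.sc_comp S ((β × ℕ) × ι) ((β × ι) × ℕ) (fun p : (β × ℕ) × ι => w p.1 p.2)
      (fun p : (β × ι) × ℕ => ((p.1.1, p.2), p.1.2)) hS hw ?_
    exact ArF.of_primrec hS (((Primrec.fst.comp Primrec.fst).pair Primrec.snd).pair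
      (Primrec.snd.comp Primrec.fst))
  sc_near S β _ w w' hS hw hw' := by
    refine Ar.all hS (R := fun (p : ℕ × β) (i : ι) => Encodable.encode i ≤ p.1 →
      near p.1 (w p.2 i) (w' p.2 i)) ?_
    refine Ar.imp hS ?_ ?_
    · exact Ar.le hS (ArF.of_primrec hS (Primrec.encode.comp Primrec.snd))
        (ArF.of_primrec hS (Primrec.fst.comp Primrec.fst))
    · have h := LawC.sc_near S (β × ι) _ _ hS hw hw'
      exact Ar.comp hS h (f := fun q : (ℕ × β) × ι => (q.1.1, (q.1.2, q.2)))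
        ((Primrec.fst.comp Primrec.fst).pair ((Primrec.snd.comp Primrec.fst).pair Primrec.snd))

/-! ### The one-point space -/

instance datUnit : Dat Unit where
  act _ x := x
  near _ _ _ := True
  sc _ _ _ _ := True

instance agreeUnit : Agree Unit := ⟨fun _ _ => rfl⟩

instance lawUnit : Law Unit where
  act_zero _ := rfl
  act_add _ _ _ := rfl
  cont _ := continuous_id
  near_open _ := by
    have : {p : Unit × Unit | near (α := Unit) 0 p.1 p.2} = Set.univ := by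
      ext p; exact ⟨fun _ => trivial, fun _ => trivial⟩
    exact isOpen_discrete _
  near_refl _ _ := trivial
  near_symm _ _ _ _ := trivial
  near_tri _ _ _ _ _ _ := trivial
  near_mono _ _ _ _ _ _ := trivial
  near_lim _ _ _ := trivial
  near_basis x U hU := ⟨0, fun y _ => by
    rw [Subsingleton.elim y x]
    exact mem_of_mem_nhds hU⟩

instance lawCUnit : LawC Unit where
  sc_comp _ _ _ _ _ _ _ _ _ _ := trivial
  sc_act _ _ _ _ _ _ := trivial
  sc_lim _ _ _ _ _ _ _ _ _ _ := trivial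
  sc_near _ _ _ _ _ hS _ _ := Ar.const hS True

/-! ### Coded points and families -/

section basic

variable {S : Set (Set ℕ)} {α β γ : Type} [TopologicalSpace α] [Dat α] [LawC α]
  [TopologicalSpace β] [Dat β] [LawC β] {ι κ : Type} [Primcodable ι] [Primcodable κ]

theorem sc_comp (hS : Cl S) {w : ι → α} (hw : sc S w) {f : κ → ι} (hf : ArF S f) :
    sc S fun c => w (f c) := LawC.sc_comp S ι κ w f hS hw hf

theorem sc_const (hS : Cl S) {x : α} (hx : Pt S x) : sc S fun _ : ι => x :=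
  LawC.sc_comp S Unit ι (fun _ : Unit => x) (fun _ => ()) hS hx (ArF.const hS ())

theorem sc_pt (hS : Cl S) {w : ι → α} (hw : sc S w) (i : ι) : Pt S (w i) :=
  LawC.sc_comp S ι Unit w (fun _ => i) hS hw (ArF.const hS i)

theorem sc_act (hS : Cl S) {w : ι → α} (hw : sc S w) {n : ι → ℤ} (hn : ArF S n) :
    sc S fun i => act (n i) (w i) := by
  have h := LawC.sc_act S ι w hS hw
  exact LawC.sc_comp S (ι × ℤ) ι (fun p : ι × ℤ => act p.2 (w p.1)) (fun i => (i, n i)) hS h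
    ((ArF.id hS).pair hS hn)

theorem sc_orb (hS : Cl S) {x : α} (hx : Pt S x) {n : ι → ℤ} (hn : ArF S n) :
    sc S fun i => act (n i) x := sc_act hS (sc_const hS hx) hn

theorem sc_near (hS : Cl S) {w w' : ι → α} (hw : sc S w) (hw' : sc S w') {L : ι → ℕ}
    (hL : ArF S L) : Ar S fun i => near (L i) (w i) (w' i) := by
  have h := LawC.sc_near S ι w w' hS hw hw'
  exact Ar.sub hS h (f := fun i => (L i, i)) (hL.pair hS (ArF.id hS))

theorem sc_lim {U : Ultrafilter ℕ} (hS : Cl S) (hU : DU S U) {w : ι × ℕ → α} (hw : sc S w)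
    {x : ι → α} (hx : ∀ i, Tendsto (fun n => w (i, n)) (U : Filter ℕ) (𝓝 (x i))) : sc S x :=
  LawC.sc_lim S U ι w x hS hU hw hx

theorem pt_prod {x : α} {y : β} : Pt S (x, y) ↔ Pt S x ∧ Pt S y := Iff.rfl

theorem sc_prod {w : ι → α × β} : sc S w ↔ (sc S fun i => (w i).1) ∧ sc S fun i => (w i).2 :=
  Iff.rfl

/-- a coded family is a coded point -/
theorem pt_pi (hS : Cl S) {w : ι → α} : Pt S w ↔ sc S w := by
  constructor
  · intro h
    exact LawC.sc_comp S (Unit × ι) ι (fun p : Unit × ι => w p.2) (fun i => ((), i)) hS h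
      ((ArF.const hS ()).pair hS (ArF.id hS))
  · intro h
    exact LawC.sc_comp S ι (Unit × ι) w (fun p => p.2) hS h (ArF.snd hS)

/-- a family of families -/
theorem sc_pi {w : κ → ι → α} : sc S w ↔ sc S fun p : κ × ι => w p.1 p.2 := Iff.rfl

end basic

/-! ### Orbits -/

section orb

variable {S : Set (Set ℕ)} {U : Ultrafilter ℕ} {α β : Type} [TopologicalSpace α] [Dat α] [Law α]
  [LawC α] [TopologicalSpace β] [Dat β] [Law β] [LawC β] {ι : Type} [Primcodable ι]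

/-- points of orbit closures are approximated -/
theorem exists_near_of_oc {w x : α} (h : x ∈ oc w) (L : ℕ) : ∃ n : ℤ, near L (act n w) x := by
  obtain ⟨_, h1, n, rfl⟩ := mem_closure_iff_nhds.1 h _ (HK.near_mem_nhds L x)
  exact ⟨n, h1⟩

theorem mem_oc_of_near {w x : α} (h : ∀ L, ∃ n : ℤ, near L (act n w) x) : x ∈ oc w := by
  refine mem_closure_iff_nhds.2 fun V hV => ?_
  obtain ⟨L, hL⟩ := Law.near_basis x V hV
  obtain ⟨n, hn⟩ := h L
  exact ⟨_, hL _ (Law.near_symm _ _ _ hn), n, rfl⟩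

/-- coded times for a family of points of orbit closures -/
theorem exists_times_fam (hS : Cl S) {w x : ι → α} (hw : sc S w) (hx : sc S x)
    (h : ∀ i, x i ∈ oc (w i)) :
    ∃ n : ι × ℕ → ℤ, ArF S n ∧ ∀ i r, near r (act (n (i, r)) (w i)) (x i) := by
  have h1 : Ar S fun p : (ι × ℕ) × ℤ => near p.1.2 (act p.2 (w p.1.1)) (x p.1.1) := by
    refine sc_near hS (w := fun p : (ι × ℕ) × ℤ => act p.2 (w p.1.1))
      (w' := fun p : (ι × ℕ) × ℤ => x p.1.1) (L := fun p => p.1.2) ?_ ?_ ?_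
    · refine sc_act hS (w := fun p : (ι × ℕ) × ℤ => w p.1.1) (n := fun p => p.2) ?_ (ArF.snd hS)
      exact sc_comp hS hw (ArF.of_primrec hS (Primrec.fst.comp Primrec.fst))
    · exact sc_comp hS hx (ArF.of_primrec hS (Primrec.fst.comp Primrec.fst))
    · exact ArF.of_primrec hS (Primrec.snd.comp Primrec.fst)
  obtain ⟨n, hn, hn'⟩ := Ar.choose hS (R := fun (p : ι × ℕ) (m : ℤ) =>
    near p.2 (act m (w p.1)) (x p.1)) h1 fun p => exists_near_of_oc (h p.1) p.2
  exact ⟨n, hn, fun i r => hn' (i, r)⟩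

/-- coded times for a point of an orbit closure -/
theorem exists_times (hS : Cl S) {w x : α} (hw : Pt S w) (hx : Pt S x) (h : x ∈ oc w) :
    ∃ n : ℕ → ℤ, ArF S n ∧ ∀ r, near r (act (n r) w) x := by
  obtain ⟨n, hn, hn'⟩ := exists_times_fam hS (ι := Unit) (w := fun _ => w) (x := fun _ => x) hw hx
    fun _ => h
  exact ⟨fun r => n ((), r), hn.comp hS ((ArF.const hS ()).pair hS (ArF.id hS)),
    fun r => hn' () r⟩

/-- times which approximate converge along `U` -/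
theorem tendsto_near (hU : (U : Filter ℕ) ≤ atTop) {w : ℕ → α} {x : α}
    (h : ∀ r, near r (w r) x) : Tendsto w (U : Filter ℕ) (𝓝 x) := HK.tendsto_of_near hU h

/-- every coded family has a coded limit along `U` -/
theorem exists_lim_fam [CompactSpace α] (hS : Cl S) (hU : DU S U) {w : ι × ℕ → α}
    (hw : sc S w) : ∃ x : ι → α, sc S x ∧
      ∀ i, Tendsto (fun n => w (i, n)) (U : Filter ℕ) (𝓝 (x i)) := by
  have h1 : ∀ i, ∃ y : α, Tendsto (fun n => w (i, n)) (U : Filter ℕ) (𝓝 y) := by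
    intro i
    obtain ⟨y, -, hy⟩ := isCompact_univ.ultrafilter_le_nhds (U.map fun n : ℕ => w (i, n))
      (by simp)
    exact ⟨y, hy⟩
  choose x hx using h1
  exact ⟨x, sc_lim hS hU hw hx, hx⟩

theorem exists_lim [CompactSpace α] (hS : Cl S) (hU : DU S U) {w : ℕ → α} (hw : sc S w) :
    ∃ x : α, Pt S x ∧ Tendsto w (U : Filter ℕ) (𝓝 x) := by
  obtain ⟨x, hx, hx'⟩ := exists_lim_fam (ι := Unit) (w := fun p : Unit × ℕ => w p.2) hS hU
    (sc_comp hS hw (ArF.snd hS))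
  exact ⟨x (), sc_pt hS hx (), hx' ()⟩

theorem pt_lim (hS : Cl S) (hU : DU S U) {w : ℕ → α} (hw : sc S w) {x : α}
    (hx : Tendsto w (U : Filter ℕ) (𝓝 x)) : Pt S x :=
  sc_lim (ι := Unit) (w := fun p : Unit × ℕ => w p.2) hS hU (sc_comp hS hw (ArF.snd hS))
    (x := fun _ => x) fun _ => hx

/-- limits of translates are in the orbit closure -/
theorem mem_oc_of_tendsto {w x : α} {n : ℕ → ℤ}
    (h : Tendsto (fun r => act (n r) w) (U : Filter ℕ) (𝓝 x)) : x ∈ oc w :=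
  mem_closure_of_tendsto h (Eventually.of_forall fun r => ⟨n r, rfl⟩)

/-- a coded point of a fibre of an orbit closure -/
theorem exists_fibre_point [CompactSpace β] (hS : Cl S) (hU : DU S U) {x₀ x : α} {y₀ : β}
    (hx₀ : Pt S x₀) (hy₀ : Pt S y₀) (hx : Pt S x) (h : x ∈ oc x₀) :
    ∃ y : β, Pt S y ∧ (x, y) ∈ oc (x₀, y₀) := by
  obtain ⟨n, hn, hn'⟩ := exists_times hS hx₀ hx h
  obtain ⟨y, hy, hy'⟩ := exists_lim hS hU (sc_orb hS hy₀ hn)
  refine ⟨y, hy, ?_⟩
  have h1 : Tendsto (fun r => act (n r) (x₀, y₀)) (U : Filter ℕ) (𝓝 (x, y)) :=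
    (tendsto_near hU.top hn').prodMk_nhds hy'
  exact mem_oc_of_tendsto h1

/-- a minimal coded point of a fibre over a minimal coded point -/
theorem exists_fibre_min [CompactSpace α] [T2Space α] [CompactSpace β] [T2Space β] (hS : Cl S)
    (hU : DU S U) {x₀ x : α} {y₀ : β} (hx₀ : Pt S x₀) (hy₀ : Pt S y₀) (hx : Pt S x)
    (hm : Mn x₀) (h : x ∈ oc x₀) :
    ∃ y : β, Pt S y ∧ (x, y) ∈ oc (x₀, y₀) ∧ Mn (x, y) := by
  obtain ⟨b, w', -, hb, hw', hpw'⟩ := HK.URP_pf S U hS hU (α × β) (x₀, y₀)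
    (pt_prod.2 ⟨hx₀, hy₀⟩)
  obtain ⟨x', y'⟩ := w'
  have h1 : (x', y') ∈ oc (x₀, y₀) := mem_oc_of_tendsto (n := fun r => (b r : ℤ)) hb
  have h2 : x' ∈ oc x₀ :=
    mem_oc_of_tendsto (n := fun r => (b r : ℤ)) ((continuous_fst.tendsto _).comp hb)
  have h3 : x ∈ oc x' := by
    rw [hm.oc_eq h2]
    exact h
  obtain ⟨y, hy, hy'⟩ := exists_fibre_point hS hU hpw'.1 hpw'.2 hx h3
  exact ⟨y, hy, HK.oc_sub h1 hy', hw'.of_mem hy'⟩

/-- a continuous equivariant map which is coded at one point is coded at all coded points of the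
orbit closure -/
theorem pt_map_fam (hS : Cl S) (hU : DU S U) {w : α} {f : α → β} (hf : ContinuousOn f (oc w))
    (he : ∀ n : ℤ, f (act n w) = act n (f w)) (hw : Pt S w) (hfw : Pt S (f w)) {x : ι → α}
    (hx : sc S x) (h : ∀ i, x i ∈ oc w) : sc S fun i => f (x i) := by
  obtain ⟨n, hn, hn'⟩ := exists_times_fam hS (w := fun _ : ι => w) (sc_const hS hw) hx h
  refine sc_lim hS hU (w := fun p : ι × ℕ => act (n p) (f w)) (sc_orb hS hfw hn) fun i => ?_
  have h1 : Tendsto (fun r => act (n (i, r)) w) (U : Filter ℕ) (𝓝 (x i)) :=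
    tendsto_near hU.top (hn' i)
  have h2 : Tendsto (fun r => act (n (i, r)) w) (U : Filter ℕ) (𝓝[oc w] (x i)) :=
    tendsto_nhdsWithin_iff.2 ⟨h1, Eventually.of_forall fun r => HK.act_mem_oc w _⟩
  refine ((hf (x i) (h i)).tendsto.comp h2).congr fun r => ?_
  exact he _

theorem pt_map (hS : Cl S) (hU : DU S U) {w : α} {f : α → β} (hf : ContinuousOn f (oc w))
    (he : ∀ n : ℤ, f (act n w) = act n (f w)) (hw : Pt S w) (hfw : Pt S (f w)) {x : α}
    (hx : Pt S x) (h : x ∈ oc w) : Pt S (f x) :=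
  pt_map_fam (ι := Unit) hS hU hf he hw hfw (x := fun _ => x) hx fun _ => h

open Classical in
/-- a coded dense family in the fibre of an orbit closure -/
theorem exists_dense_fibre [CompactSpace β] [T2Space α] (hS : Cl S) (hU : DU S U) {x₀ : α}
    {y₀ : β} (hx₀ : Pt S x₀) (hy₀ : Pt S y₀) :
    ∃ u : ℤ × ℕ × ℕ → β, sc S u ∧ (∀ i, (x₀, u i) ∈ oc (x₀, y₀)) ∧
      ∀ y : β, (x₀, y) ∈ oc (x₀, y₀) → y ∈ closure (Set.range u) := by
  -- good indices
  set G : ℤ × ℕ × ℕ → ℕ → ℤ → Prop := fun i r m =>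
    near r (act m x₀) x₀ ∧ near i.2.1 (act m y₀) (act i.1 y₀) with hG
  have hGar : Ar S fun p : ((ℤ × ℕ × ℕ) × ℕ) × ℤ => G p.1.1 p.1.2 p.2 := by
    refine Ar.and hS ?_ ?_
    · refine sc_near hS (w := fun p : ((ℤ × ℕ × ℕ) × ℕ) × ℤ => act p.2 x₀)
        (w' := fun _ => x₀) (L := fun p => p.1.2) ?_ (sc_const hS hx₀) ?_
      · exact sc_orb hS hx₀ (ArF.snd hS)
      · exact ArF.of_primrec hS (Primrec.snd.comp Primrec.fst)
    · refine sc_near hS (w := fun p : ((ℤ × ℕ × ℕ) × ℕ) × ℤ => act p.2 y₀)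
        (w' := fun p => act p.1.1.1 y₀) (L := fun p => p.1.1.2.1) ?_ ?_ ?_
      · exact sc_orb hS hy₀ (ArF.snd hS)
      · exact sc_orb hS hy₀ (ArF.of_primrec hS
          (Primrec.fst.comp (Primrec.fst.comp Primrec.fst)))
      · exact ArF.of_primrec hS
          (Primrec.fst.comp (Primrec.snd.comp (Primrec.fst.comp Primrec.fst)))
  have hEx : Ar S fun p : (ℤ × ℕ × ℕ) × ℕ => ∃ m : ℤ, G p.1 p.2 m :=
    Ar.ex hS (R := fun (p : (ℤ × ℕ × ℕ) × ℕ) (m : ℤ) => G p.1 p.2 m) hGar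
  have hAll : Ar S fun i : ℤ × ℕ × ℕ => ∀ r : ℕ, ∃ m : ℤ, G i r m :=
    Ar.all hS (R := fun (i : ℤ × ℕ × ℕ) (r : ℕ) => ∃ m : ℤ, G i r m) hEx
  -- the times
  obtain ⟨n, hn, hn'⟩ := Ar.choose hS (R := fun (p : (ℤ × ℕ × ℕ) × ℕ) (m : ℤ) =>
      ((∀ r : ℕ, ∃ m : ℤ, G p.1 r m) → G p.1 p.2 m) ∧
      ((¬ ∀ r : ℕ, ∃ m : ℤ, G p.1 r m) → m = 0)) (by
    refine Ar.and hS (Ar.imp hS ?_ hGar) (Ar.imp hS (Ar.not hS ?_) ?_)
    · exact Ar.comp hS hAll (f := fun p : ((ℤ × ℕ × ℕ) × ℕ) × ℤ => p.1.1)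
        (Primrec.fst.comp Primrec.fst)
    · exact Ar.comp hS hAll (f := fun p : ((ℤ × ℕ × ℕ) × ℕ) × ℤ => p.1.1)
        (Primrec.fst.comp Primrec.fst)
    · exact Ar.eq hS (ArF.snd hS) (ArF.const hS 0)) (by
    intro p
    by_cases h : ∀ r : ℕ, ∃ m : ℤ, G p.1 r m
    · obtain ⟨m, hm⟩ := h p.2
      exact ⟨m, fun _ => hm, fun h' => absurd h h'⟩
    · exact ⟨0, fun h' => absurd h' h, fun _ => rfl⟩)
  obtain ⟨u, hu, hu'⟩ := exists_lim_fam hS hU (w := fun p : (ℤ × ℕ × ℕ) × ℕ => act (n p) y₀)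
    (sc_orb hS hy₀ hn)
  have hx : ∀ i, Tendsto (fun r => act (n (i, r)) x₀) (U : Filter ℕ) (𝓝 x₀) := by
    intro i
    by_cases h : ∀ r : ℕ, ∃ m : ℤ, G i r m
    · exact tendsto_near hU.top fun r => ((hn' (i, r)).1 h).1
    · have h1 : ∀ r, n (i, r) = 0 := fun r => (hn' (i, r)).2 h
      simp only [h1, Law.act_zero]
      exact tendsto_const_nhds
  refine ⟨u, hu, fun i => ?_, fun y hy => ?_⟩
  · have h1 : Tendsto (fun r => act (n (i, r)) (x₀, y₀)) (U : Filter ℕ) (𝓝 (x₀, u i)) :=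
      (hx i).prodMk_nhds (hu' i)
    exact mem_oc_of_tendsto h1
  · refine mem_closure_iff_nhds.2 fun V hV => ?_
    obtain ⟨L, hL⟩ := Law.near_basis y V hV
    -- the level
    obtain ⟨n₀, hn₀⟩ := exists_near_of_oc hy (2 * (2 * (L + 1) + 1 + 1) + 1)
    have hG0 : ∀ r : ℕ, ∃ m : ℤ, G (n₀, 2 * (L + 1) + 1 + 1, 0) r m := by
      intro r
      obtain ⟨m, hm⟩ := exists_near_of_oc hy (max r (2 * (2 * (L + 1) + 1 + 1) + 1))
      refine ⟨m, ?_, ?_⟩
      · exact Law.near_mono _ _ _ _ (le_max_left _ _) hm.1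
      · exact Law.near_tri _ _ _ _ (Law.near_mono _ _ _ _ (le_max_right _ _) hm.2)
          (Law.near_symm _ _ _ hn₀.2)
    refine ⟨u (n₀, 2 * (L + 1) + 1 + 1, 0), ?_, ⟨_, rfl⟩⟩
    have h2 : near (2 * (L + 1) + 1) (act n₀ y₀) (u (n₀, 2 * (L + 1) + 1 + 1, 0)) := by
      refine Law.near_lim _ (act n₀ y₀, u (n₀, 2 * (L + 1) + 1 + 1, 0)) ?_
      have h3 : Tendsto (fun r => (act n₀ y₀, act (n ((n₀, 2 * (L + 1) + 1 + 1, 0), r)) y₀))
          (U : Filter ℕ) (𝓝 (act n₀ y₀, u (n₀, 2 * (L + 1) + 1 + 1, 0))) :=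
        tendsto_const_nhds.prodMk_nhds (hu' _)
      refine mem_closure_of_tendsto h3 (Eventually.of_forall fun r => ?_)
      exact Law.near_symm _ _ _ ((hn' ((n₀, 2 * (L + 1) + 1 + 1, 0), r)).1 hG0).2
    have h4 : near (2 * (L + 1) + 1) (act n₀ y₀) y :=
      Law.near_mono _ _ _ _ (by omega) hn₀.2
    refine hL _ (Law.near_mono L (L + 1) _ _ (by omega) ?_)
    exact Law.near_tri _ _ _ _ (Law.near_symm _ _ _ h4) h2

variable [AK.Sys α] [Agree α] [AK.Sys β] [Agree β]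

theorem exists_near_of_omg {w x : α} (h : x ∈ AK.omg w) (L N : ℕ) :
    ∃ n : ℕ, N ≤ n ∧ near L (act (n : ℤ) w) x := by
  obtain ⟨n, h1, h2⟩ := h _ (HK.near_mem_nhds L x) N
  refine ⟨n, h1, ?_⟩
  rw [Agree.eq]
  exact h2

theorem mem_omg_of_near {w x : α} (h : ∀ L N, ∃ n : ℕ, N ≤ n ∧ near L (act (n : ℤ) w) x) :
    x ∈ AK.omg w := by
  intro V hV N
  obtain ⟨L, hL⟩ := Law.near_basis x V hV
  obtain ⟨n, h1, h2⟩ := h L N
  refine ⟨n, h1, ?_⟩
  rw [← Agree.eq]
  exact hL _ (Law.near_symm _ _ _ h2)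

/-- coded late times for a family of limit points -/
theorem exists_late_fam (hS : Cl S) {w x : ι → α} (hw : sc S w) (hx : sc S x)
    (h : ∀ i, x i ∈ AK.omg (w i)) :
    ∃ n : ι × ℕ → ℕ, ArF S n ∧ ∀ i r, r ≤ n (i, r) ∧ near r (act (n (i, r) : ℤ) (w i)) (x i) := by
  have h1 : Ar S fun p : (ι × ℕ) × ℕ => p.1.2 ≤ p.2 ∧
      near p.1.2 (act (p.2 : ℤ) (w p.1.1)) (x p.1.1) := by
    refine Ar.and hS (Ar.le hS (ArF.of_primrec hS (Primrec.snd.comp Primrec.fst)) (ArF.snd hS)) ?_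
    refine sc_near hS (w := fun p : (ι × ℕ) × ℕ => act (p.2 : ℤ) (w p.1.1))
      (w' := fun p : (ι × ℕ) × ℕ => x p.1.1) (L := fun p => p.1.2) ?_ ?_ ?_
    · refine sc_act hS (w := fun p : (ι × ℕ) × ℕ => w p.1.1) (n := fun p => (p.2 : ℤ)) ?_
        ((ArF.snd hS).natCast hS)
      exact sc_comp hS hw (ArF.of_primrec hS (Primrec.fst.comp Primrec.fst))
    · exact sc_comp hS hx (ArF.of_primrec hS (Primrec.fst.comp Primrec.fst))
    · exact ArF.of_primrec hS (Primrec.snd.comp Primrec.fst)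
  obtain ⟨n, hn, hn'⟩ := Ar.choose hS (R := fun (p : ι × ℕ) (m : ℕ) =>
    p.2 ≤ m ∧ near p.2 (act (m : ℤ) (w p.1)) (x p.1)) h1 fun p =>
      exists_near_of_omg (h p.1) p.2 p.2
  exact ⟨n, hn, fun i r => hn' (i, r)⟩

theorem exists_late (hS : Cl S) {w x : α} (hw : Pt S w) (hx : Pt S x) (h : x ∈ AK.omg w) :
    ∃ n : ℕ → ℕ, ArF S n ∧ ∀ r, r ≤ n r ∧ near r (act (n r : ℤ) w) x := by
  obtain ⟨n, hn, hn'⟩ := exists_late_fam hS (ι := Unit) (w := fun _ => w) (x := fun _ => x) hw hx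
    fun _ => h
  exact ⟨fun r => n ((), r), hn.comp hS ((ArF.const hS ()).pair hS (ArF.id hS)),
    fun r => hn' () r⟩

theorem mem_omg_of_tendsto (hU : (U : Filter ℕ) ≤ atTop) {w x : α} {n : ℕ → ℕ}
    (hn : ∀ r, r ≤ n r) (h : Tendsto (fun r => act (n r : ℤ) w) (U : Filter ℕ) (𝓝 x)) :
    x ∈ AK.omg w := by
  intro V hV N
  have h1 : ∀ᶠ r in (U : Filter ℕ), N ≤ r := hU (eventually_ge_atTop N)
  obtain ⟨r, h2, h3⟩ := (h1.and (h hV)).exists
  refine ⟨n r, h2.trans (hn r), ?_⟩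
  rw [← Agree.eq]
  exact h3

/-- a coded point of a fibre of a limit set -/
theorem exists_fibre_late [CompactSpace β] (hS : Cl S) (hU : DU S U) {x₀ x : α} {y₀ : β}
    (hx₀ : Pt S x₀) (hy₀ : Pt S y₀) (hx : Pt S x) (h : x ∈ AK.omg x₀) :
    ∃ y : β, Pt S y ∧ (x, y) ∈ AK.omg (x₀, y₀) := by
  obtain ⟨n, hn, hn'⟩ := exists_late hS hx₀ hx h
  obtain ⟨y, hy, hy'⟩ := exists_lim hS hU (sc_orb hS hy₀ (n := fun r => (n r : ℤ))
    (hn.natCast hS))
  refine ⟨y, hy, ?_⟩
  have h1 : Tendsto (fun r => act (n r : ℤ) (x₀, y₀)) (U : Filter ℕ) (𝓝 (x, y)) :=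
    (tendsto_near hU.top fun r => (hn' r).2).prodMk_nhds hy'
  exact mem_omg_of_tendsto hU.top (fun r => (hn' r).1) h1

end orb

end Pool.Agent.Work.MP_69fea5_lc.W3
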