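import Pool.Agent.Work.MP_69fea5_lc.W3.StmtsV
import Pool.Agent.Work.MP_69fea5_lc.W3.Cod

/-!
# [69fea5 V KZC] a coded stage from zones accumulating at `v₀`
-/

set_option autoImplicit false

namespace Pool.Agent.Work.MP_69fea5_lc.W3

open MeasureTheory Topology Set Filter ProbabilityTheory
open scoped NNReal ENNReal
open Pool.Agent.Work.MP_69fea5_lc.AK
open Pool.Agent.Work.MP_69fea5_lc.HK (Cl DU Ar ArF ArR Dat Law LawC act near sc Pt oc Mn mr ext)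

namespace I_KZC

theorem range_sh {X : Type} [TopologicalSpace X] [Sys X] (x : X) (n : ℤ) :
    (Set.range fun m : ℤ => sh m (sh n x)) = Set.range fun m : ℤ => sh m x := by
  ext y
  constructor
  · rintro ⟨m, rfl⟩
    exact ⟨m + n, sh_add m n x⟩
  · rintro ⟨m, rfl⟩
    refine ⟨m - n, ?_⟩
    change sh (m - n) (sh n x) = sh m x
    rw [← sh_add, sub_add_cancel]

theorem orb_sh {X : Type} [TopologicalSpace X] [Sys X] (x : X) (n : ℤ) :
    orb (sh n x) = orb x := by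
  unfold orb
  rw [range_sh]

theorem snd_mem_orb {X Y : Type} [TopologicalSpace X] [Sys X] [TopologicalSpace Y] [Sys Y]
    {p q : X × Y} (h : q ∈ orb p) : q.2 ∈ orb p.2 := by
  have h1 : q.2 ∈ closure (Prod.snd '' (Set.range fun n : ℤ => sh n p)) :=
    image_closure_subset_closure_image continuous_snd ⟨q, h, rfl⟩
  refine closure_mono ?_ h1
  rintro _ ⟨_, ⟨n, rfl⟩, rfl⟩
  exact ⟨n, rfl⟩

theorem sh_mem_orb {X : Type} [TopologicalSpace X] [Sys X] (x : X) (n : ℤ) : sh n x ∈ orb x :=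
  subset_closure ⟨n, rfl⟩

theorem set_eq {k : ℕ} (r : Fin k) :
    {z : Om k | z 0 ∉ Finset.univ.erase r} = {z : Om k | z 0 = r} := by
  ext z
  simp

/-- robustness gives a zone -/
theorem zr_of_rb {k : ℕ} {B : Type} [TopologicalSpace B] [Sys B] {v₀ : B} {m₁ : PM k} {r : Fin k}
    {n : ℤ} (h : Rb (Finset.univ.erase r) (sh n m₁)) : Zr (orb (v₀, m₁)) r (sh n (v₀, m₁)) := by
  obtain ⟨V, hV, h1⟩ := h
  refine ⟨Prod.snd ⁻¹' V, continuous_snd.continuousAt.preimage_mem_nhds hV, ?_⟩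
  rintro y' ⟨hy, hyV⟩
  have h2 : y'.2 ∈ orb (sh n m₁) := by
    rw [orb_sh]
    exact snd_mem_orb hy
  have h3 := h1 y'.2 h2 hyV
  rw [set_eq] at h3
  exact h3

/-- a zone contains points of the orbit -/
theorem exists_rb {k : ℕ} {B : Type} [TopologicalSpace B] [Sys B] {v₀ : B} {m₁ : PM k} {r : Fin k}
    (hrb : ∀ y ∈ orb (v₀, m₁), Zr (orb (v₀, m₁)) r y → Rb (Finset.univ.erase r) y.2)
    {O : Set B} (hO : IsOpen O) (h : ∃ y ∈ orb (v₀, m₁), y.1 ∈ O ∧ Zr (orb (v₀, m₁)) r y) :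
    ∃ n : ℤ, sh n v₀ ∈ O ∧ Rb (Finset.univ.erase r) (sh n m₁) := by
  obtain ⟨y, hy, hyO, V, hV, h1⟩ := h
  obtain ⟨V', hV', hV'o, hyV'⟩ := mem_nhds_iff.1 hV
  have h2 : IsOpen (V' ∩ Prod.fst ⁻¹' O) := hV'o.inter (hO.preimage continuous_fst)
  obtain ⟨_, ⟨h3, h4⟩, n, rfl⟩ := mem_closure_iff.1 hy _ h2 ⟨hyV', hyO⟩
  refine ⟨n, h4, ?_⟩
  exact hrb (sh n (v₀, m₁)) (sh_mem_orb _ n)
    ⟨V', hV'o.mem_nhds h3, fun y' hy' => h1 y' ⟨hy'.1, hV' hy'.2⟩⟩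

end I_KZC

open I_KZC in
theorem KZC_pf (hZRB : S_ZRB) (hZST : S_ZST) (hSGC : S_SGC) : S_KZC := by
  intro S U hS hU k I _ Γ c v₀ m₁ r hv₀ hm₁ hΓ hfun hΓo hAA hmin hz
  have hrb := hZRB k (Cube I) Γ v₀ m₁ r hΓ hfun hAA hmin
  -- the choice of the times
  have hsc1 : sc S (fun p : ℕ × ℤ => act p.2 v₀) := sc_orb hS hv₀ (ArF.snd hS)
  have hsc0 : sc S (fun _ : ℕ × ℤ => v₀) := sc_const hS hv₀
  have aR : Ar S fun p : ℕ × ℤ => near p.1 (act p.2 v₀) v₀ ∧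
      Rb (Finset.univ.erase r) (sh p.2 m₁) := by
    refine Ar.and hS (sc_near hS hsc1 hsc0 (ArF.fst hS)) ?_
    exact (hSGC S hS k (Finset.univ.erase r) m₁ hm₁).comp hS Primrec.snd
  have hex : ∀ i : ℕ, ∃ n : ℤ, near i (act n v₀) v₀ ∧ Rb (Finset.univ.erase r) (sh n m₁) := by
    intro i
    have h4 : IsOpen {v : Cube I | near i v v₀} :=
      (Law.near_open i).preimage (f := fun v => (v, v₀)) (by fun_prop)
    obtain ⟨n, h5, h6⟩ := exists_rb hrb h4 (hz _ (h4.mem_nhds (Law.near_refl i v₀)))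
    exact ⟨n, h5, h6⟩
  obtain ⟨n, an, hn⟩ := Ar.choose hS (R := fun (i : ℕ) (n : ℤ) => near i (act n v₀) v₀ ∧
    Rb (Finset.univ.erase r) (sh n m₁)) aR hex
  obtain ⟨m₀, hm₀, hlim⟩ := exists_lim hS hU (sc_orb hS hm₁ an)
  have hv : Tendsto (fun i => act (n i) v₀) (U : Filter ℕ) (𝓝 v₀) :=
    tendsto_near hU.top fun i => (hn i).1
  have hlim2 : Tendsto (fun i => (act (n i) v₀, act (n i) m₁)) (U : Filter ℕ) (𝓝 (v₀, m₀)) :=
    hv.prodMk_nhds hlim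
  have heq : ∀ i, (act (n i) v₀, act (n i) m₁) = sh (n i) (v₀, m₁) := fun i => rfl
  refine ⟨m₀, hm₀, hZST k (Cube I) Γ c v₀ m₁ m₀ r hΓ hfun hΓo hAA hmin ?_ ?_⟩
  · exact mem_closure_of_tendsto hlim2 (Eventually.of_forall fun i => ⟨n i, rfl⟩)
  · refine mem_closure_of_tendsto hlim2 (Eventually.of_forall fun i => ?_)
    rw [heq i]
    exact ⟨sh_mem_orb _ _, zr_of_rb (hn i).2⟩

end Pool.Agent.Work.MP_69fea5_lc.W3
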