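import Pool.Agent.Work.MP_69fea5_lc.W3.StmtsV

/-!
# [69fea5 V PWC] a minimal set of `T^a` in a minimal set is relatively open
-/

set_option autoImplicit false

namespace Pool.Agent.Work.MP_69fea5_lc.W3

open MeasureTheory Topology Set Filter ProbabilityTheory
open scoped NNReal ENNReal
open Pool.Agent.Work.MP_69fea5_lc.AK
open Pool.Agent.Work.MP_69fea5_lc.HK (Cl DU Ar ArF ArR Dat Law LawC act near sc Pt oc Mn mr ext)

namespace I_PWC

variable {X : Type} [TopologicalSpace X] [Sys X]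

theorem sh_neg_sh (n : ℤ) (x : X) : (sh (-n) (sh n x) : X) = x := by
  rw [← sh_add]; simp [sh_zero]

theorem sh_sh_neg (n : ℤ) (x : X) : (sh n (sh (-n) x) : X) = x := by
  rw [← sh_add]; simp [sh_zero]

theorem image_eq (n : ℤ) (K : Set X) : (sh n : X → X) '' K = (sh (-n) : X → X) ⁻¹' K := by
  ext y
  constructor
  · rintro ⟨x, hx, rfl⟩
    change (sh (-n) (sh n x) : X) ∈ K
    rw [sh_neg_sh]; exact hx
  · intro hy
    exact ⟨sh (-n) y, hy, sh_sh_neg n y⟩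

theorem closed_image (n : ℤ) (K : Set X) (hK : IsClosed K) :
    IsClosed ((sh n : X → X) '' K) := by
  rw [image_eq]
  exact hK.preimage (sh_cont _)

end I_PWC

open I_PWC in
theorem PWC_pf : S_PWC := by
  intro X _ _ _ _ Y hY a ha K hKY hK
  have hKc : IsClosed K := hK.closed
  have hKn : K.Nonempty := hK.ne
  have hKi : ∀ m : ℤ, ∀ x ∈ K, (sh (a * m) x : X) ∈ K := fun m x hx => hK.inv m x hx
  have hKm : ∀ L : Set X, IsClosed L → L.Nonempty →
      (∀ m : ℤ, ∀ x ∈ L, (sh (a * m) x : X) ∈ L) → L ⊆ K → L = K :=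
    fun L h1 h2 h3 h4 => hK.min L h1 h2 h3 h4
  -- the pieces
  have hmeet : ∀ i : ℤ, (((sh i : X → X) '' K) ∩ K).Nonempty → (sh i : X → X) '' K = K := by
    intro i hne
    apply Subset.antisymm
    · have h := hKm {y | y ∈ K ∧ (sh i y : X) ∈ K} (hKc.inter (hKc.preimage (sh_cont i))) ?_ ?_
        (fun y hy => hy.1)
      · rintro _ ⟨y, hy, rfl⟩
        rw [← h] at hy
        exact hy.2
      · obtain ⟨_, ⟨y, hy, rfl⟩, hy'⟩ := hne
        exact ⟨y, hy, hy'⟩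
      · rintro m y ⟨hy1, hy2⟩
        refine ⟨hKi m y hy1, ?_⟩
        have : (sh i (sh (a * m) y) : X) = sh (a * m) (sh i y) := by
          rw [← sh_add, ← sh_add, add_comm]
        rw [this]
        exact hKi m _ hy2
    · have h := hKm (((sh i : X → X) '' K) ∩ K) ((closed_image i K hKc).inter hKc) hne ?_
        (fun y hy => hy.2)
      · intro y hy
        rw [← h] at hy
        exact hy.1
      · rintro m _ ⟨⟨y, hy, rfl⟩, hy'⟩
        refine ⟨⟨sh (a * m) y, hKi m y hy, ?_⟩, hKi m _ hy'⟩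
        rw [← sh_add, ← sh_add, add_comm]
  have hcover : (⋃ i : Fin a.toNat, (sh ((i : ℕ) : ℤ) : X → X) '' K) = Y := by
    apply hY.min
    · exact isClosed_iUnion_of_finite fun i => closed_image _ K hKc
    · obtain ⟨x, hx⟩ := hKn
      refine ⟨sh ((0 : ℕ) : ℤ) x, mem_iUnion.2 ⟨⟨0, by omega⟩, ⟨x, hx, rfl⟩⟩⟩
    · intro n y hy
      obtain ⟨i, hi⟩ := mem_iUnion.1 hy
      obtain ⟨x, hx, rfl⟩ := hi
      have h0 : 0 ≤ (n + ((i : ℕ) : ℤ)) % a := Int.emod_nonneg _ ha.ne'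
      have h1 : (n + ((i : ℕ) : ℤ)) % a < a := Int.emod_lt_of_pos _ ha
      refine mem_iUnion.2 ⟨⟨((n + ((i : ℕ) : ℤ)) % a).toNat, by omega⟩,
        ⟨sh (a * ((n + ((i : ℕ) : ℤ)) / a)) x, hKi _ x hx, ?_⟩⟩
      change (sh ((((n + ((i : ℕ) : ℤ)) % a).toNat : ℕ) : ℤ) _ : X) = _
      rw [Int.toNat_of_nonneg h0, ← sh_add, ← sh_add]
      congr 1
      exact Int.emod_add_mul_ediv _ _
    · intro y hy
      obtain ⟨i, hi⟩ := mem_iUnion.1 hy
      obtain ⟨x, hx, rfl⟩ := hi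
      exact hY.inv _ x (hKY hx)
  refine ⟨(⋃ i : {i : Fin a.toNat // (sh ((i : ℕ) : ℤ) : X → X) '' K ≠ K},
    (sh (((i : Fin a.toNat) : ℕ) : ℤ) : X → X) '' K)ᶜ, ?_, ?_⟩
  · rw [isOpen_compl_iff]
    exact isClosed_iUnion_of_finite fun i => closed_image _ K hKc
  · apply Subset.antisymm
    · intro y hy
      refine ⟨?_, hKY hy⟩
      intro hy'
      obtain ⟨i, hi⟩ := mem_iUnion.1 hy'
      exact i.2 (hmeet _ ⟨y, hi, hy⟩)
    · rintro y ⟨hy1, hy2⟩
      rw [← hcover] at hy2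
      obtain ⟨i, hi⟩ := mem_iUnion.1 hy2
      by_cases h : (sh ((i : ℕ) : ℤ) : X → X) '' K = K
      · rw [h] at hi
        exact hi
      · exact absurd (mem_iUnion.2 ⟨⟨i, h⟩, hi⟩) hy1

end Pool.Agent.Work.MP_69fea5_lc.W3
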