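import Pool.Agent.Work.MP_69fea5_lc.W3.StmtsV2
import Pool.Agent.Work.MP_69fea5_lc.W3.I_LIF

/-!
# Item [69fea5 V2 RHC]: the law of tuples of points as a mean of products
-/

set_option autoImplicit false

namespace Pool.Agent.Work.MP_69fea5_lc.W3

open MeasureTheory Topology Set Filter ProbabilityTheory TopologicalSpace
open scoped NNReal ENNReal
open Pool.Agent.Work.MP_69fea5_lc.AK
open Pool.Agent.Work.MP_69fea5_lc.HK (Cl DU Ar ArF ArR Dat Law LawC act near sc Pt oc Mn mr ext)

namespace I_RHC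

/-- Fubini for products of functions of different coordinates -/
theorem lintegral_pi_prod {ι Y : Type} [Fintype ι] [MeasurableSpace Y] (ν : ι → Measure Y)
    [∀ i, IsProbabilityMeasure (ν i)] (g : ι → Y → ℝ≥0∞) (hg : ∀ i, Measurable (g i)) :
    ∫⁻ y, ∏ i, g i (y i) ∂(Measure.pi ν) = ∏ i, ∫⁻ x, g i x ∂(ν i) := by
  have hind : iIndepFun (fun i (y : ι → Y) => g i (y i)) (Measure.pi ν) :=
    iIndepFun_pi (X := g) fun i => (hg i).aemeasurable
  rw [lintegral_prod_eq_prod_lintegral_of_indepFun Finset.univ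
    (fun i (y : ι → Y) => g i (y i)) hind (fun i => (hg i).comp (measurable_pi_apply i))]
  refine Finset.prod_congr rfl fun i _ => ?_
  exact (measurePreserving_eval ν i).lintegral_comp (hg i)

/-- the part of `M` over a measurable set is measurable -/
theorem measurableSet_over {O X : Type} [TopologicalSpace O] [MeasurableSpace O] [BorelSpace O]
    [TopologicalSpace X] [MeasurableSpace X] [BorelSpace X] {M : Set O} {π : O → X}
    (hM : IsClosed M) (hπ : ContinuousOn π M) {V : Set X} (hV : MeasurableSet V) :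
    MeasurableSet {w | w ∈ M ∧ π w ∈ V} := by
  have h1 : Continuous (M.restrict π) := continuousOn_iff_continuous_restrict.1 hπ
  have h2 : MeasurableSet (M.restrict π ⁻¹' V) := h1.measurable hV
  have h3 : MeasurableSet (Subtype.val '' (M.restrict π ⁻¹' V)) :=
    hM.measurableSet.subtype_image h2
  have h4 : Subtype.val '' (M.restrict π ⁻¹' V) = {w | w ∈ M ∧ π w ∈ V} := by
    ext w
    constructor
    · rintro ⟨⟨w', hw'⟩, hV', rfl⟩
      exact ⟨hw', hV'⟩
    · rintro ⟨hw, hV'⟩
      exact ⟨⟨w, hw⟩, hV', rfl⟩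
  rw [← h4]
  exact h3

/-- a measure on one fibre -/
theorem fibre {O X : Type} [MeasurableSpace O] {M : Set O} {π : O → X} (ν : Measure O) (v : X)
    (h : ν {z | z ∈ M ∧ π z = v}ᶜ = 0) (B : Set O) (V : Set X) :
    ν (B ∩ {w | w ∈ M ∧ π w ∈ V}) = V.indicator (fun _ => ν B) v := by
  by_cases hv : v ∈ V
  · rw [indicator_of_mem hv]
    apply le_antisymm (measure_mono inter_subset_left)
    have h1 : B ⊆ (B ∩ {w | w ∈ M ∧ π w ∈ V}) ∪ {z | z ∈ M ∧ π z = v}ᶜ := by
      intro w hw
      by_cases h2 : w ∈ M ∧ π w = v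
      · refine Or.inl ⟨hw, h2.1, ?_⟩
        rw [h2.2]
        exact hv
      · exact Or.inr h2
    calc ν B ≤ ν ((B ∩ {w | w ∈ M ∧ π w ∈ V}) ∪ {z | z ∈ M ∧ π z = v}ᶜ) := measure_mono h1
      _ ≤ ν (B ∩ {w | w ∈ M ∧ π w ∈ V}) + ν {z | z ∈ M ∧ π z = v}ᶜ := measure_union_le _ _
      _ = ν (B ∩ {w | w ∈ M ∧ π w ∈ V}) := by rw [h, add_zero]
  · rw [indicator_of_notMem hv]
    refine measure_mono_null ?_ h
    rintro w ⟨-, hw1, hw2⟩ ⟨-, h3⟩
    rw [h3] at hw2
    exact hv hw2

section

variable {k : ℕ} {X : Type} [TopologicalSpace X] [MeasurableSpace X] [CS X] [Sys X]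
  {M : Set (Om k)} {π : Om k → X} {lam : ProbabilityMeasure X} {μ : PM k}
  {η : Kernel X (Om k)} {Y : Set (X × PM k)} {θ : ProbabilityMeasure (X × PM k)}
  {ζ : Kernel X (X × PM k)}

theorem measurable_snd_coe :
    Measurable fun q : X × PM k => ((q.2 : PM k) : Measure (Om k)) :=
  measurable_subtype_coe.comp measurable_snd

theorem measurable_mass {B : Set (Om k)} (hB : MeasurableSet B) :
    Measurable fun q : X × PM k => ((q.2 : PM k) : Measure (Om k)) B :=
  (Measure.measurable_coe hB).comp measurable_snd_coe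

theorem key (hη : TopL M π lam μ η) (hζ : TopL Y Prod.fst lam θ ζ) (hY : Y ⊆ QQ (gr M π))
    (hb : Bar θ (fun q : X × PM k => q.2) μ) (B : Set (Om k)) (hB : MeasurableSet B) :
    ∀ᵐ v ∂(lam : Measure X), η v B = ∫⁻ y, (y.2 : Measure (Om k)) B ∂(ζ v) := by
  have hηm : IsMarkovKernel η := hη.mar
  have hζm : IsMarkovKernel ζ := hζ.mar
  have hm := measurable_mass (X := X) hB
  apply ae_eq_of_forall_setLIntegral_eq_of_sigmaFinite (Kernel.measurable_coe η hB)
    hm.lintegral_kernel
  intro V hV _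
  have hS : MeasurableSet (B ∩ {w | w ∈ M ∧ π w ∈ V}) :=
    hB.inter (measurableSet_over hη.min.closed hη.cont hV)
  have e1 : ∫⁻ v in V, η v B ∂(lam : Measure X) =
      (μ : Measure (Om k)) (B ∩ {w | w ∈ M ∧ π w ∈ V}) := by
    rw [← hη.bind, Measure.bind_apply hS η.measurable.aemeasurable, ← lintegral_indicator hV]
    refine lintegral_congr_ae ?_
    filter_upwards [hη.fib] with v hv
    rw [fibre (η v) v hv B V]
    by_cases hvV : v ∈ V
    · rw [indicator_of_mem hvV, indicator_of_mem hvV]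
    · rw [indicator_of_notMem hvV, indicator_of_notMem hvV]
  have e2 : ∫⁻ v in V, ∫⁻ y, (y.2 : Measure (Om k)) B ∂(ζ v) ∂(lam : Measure X) =
      (μ : Measure (Om k)) (B ∩ {w | w ∈ M ∧ π w ∈ V}) := by
    have hb' : (θ : Measure (X × PM k)).bind
        (fun q : X × PM k => ((q.2 : PM k) : Measure (Om k))) = (μ : Measure (Om k)) := hb
    rw [← hb', Measure.bind_apply hS measurable_snd_coe.aemeasurable, ← hζ.bind,
      Measure.lintegral_bind ζ.measurable.aemeasurable (measurable_mass hS).aemeasurable,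
      ← lintegral_indicator hV]
    refine lintegral_congr_ae ?_
    filter_upwards [hζ.fib] with v hv
    have h3 : ∀ᵐ q ∂(ζ v), ((q.2 : PM k) : Measure (Om k)) (B ∩ {w | w ∈ M ∧ π w ∈ V}) =
        V.indicator (fun _ => ((q.2 : PM k) : Measure (Om k)) B) v := by
      have h4 : ∀ᵐ q ∂(ζ v), q ∈ Y ∧ q.1 = v := hv
      filter_upwards [h4] with q hq
      have h5 : q.2 {z | (z, q.1) ∈ gr M π} = 1 := hY hq.1
      have h6 : {z | (z, q.1) ∈ gr M π} = {z | z ∈ M ∧ π z = v} := by
        ext z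
        constructor
        · rintro ⟨h7, h8⟩
          have h8' : q.1 = π z := h8
          exact ⟨h7, by rw [← h8', hq.2]⟩
        · rintro ⟨h7, h8⟩
          refine ⟨h7, ?_⟩
          show q.1 = π z
          rw [h8, hq.2]
      rw [h6] at h5
      have hms : MeasurableSet {z | z ∈ M ∧ π z = v} :=
        measurableSet_over hη.min.closed hη.cont (measurableSet_singleton v)
      apply fibre
      rw [prob_compl_eq_zero_iff hms, ← ProbabilityMeasure.ennreal_coeFn_eq_coeFn_toMeasure, h5]
      simp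
    by_cases hvV : v ∈ V
    · rw [indicator_of_mem hvV]
      refine lintegral_congr_ae ?_
      filter_upwards [h3] with q hq
      rw [hq, indicator_of_mem hvV]
    · rw [indicator_of_notMem hvV]
      symm
      rw [lintegral_congr_ae (g := fun _ => 0), lintegral_zero]
      filter_upwards [h3] with q hq
      rw [hq, indicator_of_notMem hvV]
  rw [e1, e2]

end

end I_RHC

open I_RHC in
theorem RHC_pf : S_RHC := by
  intro k n X _ _ _ _ M π lam μ η Y θ ζ hη hζ hY hb Q _ C hD B hB
  have hηm : IsMarkovKernel η := hη.mar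
  have hζm : IsMarkovKernel ζ := hζ.mar
  have e1 : lif η Q (univ.pi B) = ∫⁻ z, ∏ i, η (z i) (B i) ∂Q := by
    unfold lif
    rw [Measure.bind_apply (MeasurableSet.univ_pi hB) (I_LIF.measurable_pi η).aemeasurable]
    refine lintegral_congr fun z => ?_
    exact Measure.pi_pi _ _
  have hmp : Measurable fun y : Fin n → X × PM k =>
      ∏ i, ((y i).2 : Measure (Om k)) (B i) :=
    Finset.measurable_prod _ fun i _ => (measurable_mass (hB i)).comp (measurable_pi_apply i)
  have e2 : ∫⁻ y, ∏ i, ((y i).2 : Measure (Om k)) (B i) ∂lif ζ Q =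
      ∫⁻ z, ∏ i, ∫⁻ y, (y.2 : Measure (Om k)) (B i) ∂(ζ (z i)) ∂Q := by
    unfold lif
    rw [Measure.lintegral_bind (I_LIF.measurable_pi ζ).aemeasurable hmp.aemeasurable]
    refine lintegral_congr fun z => ?_
    exact lintegral_pi_prod (fun i => ζ (z i))
      (fun i (y : X × PM k) => (y.2 : Measure (Om k)) (B i)) fun i => measurable_mass (hB i)
  rw [e1, e2]
  refine lintegral_congr_ae ?_
  have h1 : ∀ i : Fin n, ∀ᵐ z ∂Q,
      η (z i) (B i) = ∫⁻ y, (y.2 : Measure (Om k)) (B i) ∂(ζ (z i)) := by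
    intro i
    have h2 := key hη hζ hY hb (B i) (hB i)
    have hac : Q.map (fun z => z i) ≪ (lam : Measure X) :=
      (Measure.absolutelyContinuous_of_le (hD i)).trans
        Measure.smul_absolutelyContinuous
    exact ae_of_ae_map (measurable_pi_apply i).aemeasurable (hac.ae_le h2)
  filter_upwards [ae_all_iff.2 h1] with z hz
  exact Finset.prod_congr rfl fun i _ => hz i

end Pool.Agent.Work.MP_69fea5_lc.W3
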