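import Pool.Agent.Work.MP_69fea5_lc.W3.StmtsV
import Pool.Agent.Work.MP_69fea5_lc.HK.InstPM

/-!
# [69fea5 V SGC] robustness along the orbit of a coded measure is recognised
-/

set_option autoImplicit false

namespace Pool.Agent.Work.MP_69fea5_lc.W3

open MeasureTheory Topology Set Filter ProbabilityTheory
open scoped NNReal ENNReal
open Pool.Agent.Work.MP_69fea5_lc.AK
open Pool.Agent.Work.MP_69fea5_lc.HK (Cl DU Ar ArF ArR Dat Law LawC act near sc Pt oc Mn mr ext)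

namespace I_SGC

variable {k : ℕ}

theorem arr (hCYSC : KC.S_CYSC) {S : Set (Set ℕ)} (hS : Cl S) (m0 : PM k) (hm : Pt S m0) :
    ArR S fun p : ℤ × Wd k × ℤ => mr (sh p.1 m0 : PM k) (AK.cyl p.2.1 p.2.2) := by
  have h1 : sc S (fun p : Unit × ℤ => act p.2 (show HK.PM k from m0)) :=
    LawC.sc_act S Unit (fun _ => (show HK.PM k from m0)) hS hm
  have h2 := hCYSC S hS k (Unit × ℤ) (fun p => (sh p.2 m0 : PM k)) h1
  exact HK.ArR.comp hS h2 (g := fun p : ℤ × Wd k × ℤ => (((), p.1), p.2.1, p.2.2))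
    (((Primrec.const ()).pair Primrec.fst).pair
      ((Primrec.fst.comp Primrec.snd).pair (Primrec.snd.comp Primrec.snd)))

theorem nonneg (m : PM k) (A : Set (Om k)) : 0 ≤ mr m A := measureReal_nonneg

/-- the coordinates -/
noncomputable def vv (m0 : PM k) (n : ℤ) : Cube (Ix k) :=
  fun i j => match i with
    | .inl w => toI (sh n m0) (cyl w j)
    | .inr _ => 0

theorem rb {S : Set (Set ℕ)} (hS : Cl S) (D : Finset (Fin k)) (m0 : PM k)
    (hA : ArR S fun p : ℤ × Wd k × ℤ => mr (sh p.1 m0 : PM k) (AK.cyl p.2.1 p.2.2)) :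
    Ar S fun b : ℤ => ∃ L : ℕ, ∀ j : ℤ, (∀ w : AK.Wd k, Encodable.encode w ≤ L →
      |mr (sh b m0 : PM k) (AK.cyl w j) - mr (sh b m0 : PM k) (AK.cyl w 0)| < 1 / (L + 1)) →
      ∀ a, a ∉ D → mr (sh b m0 : PM k) (AK.cyl [a] j) ≤ 0 := by
  have key : ∀ (γ : Type) [Primcodable γ] (f : γ → ℤ) (g : γ → AK.Wd k) (h : γ → ℤ),
      Primrec f → Primrec g → Primrec h →
        ArR S fun c => mr (sh (f c) m0 : PM k) (AK.cyl (g c) (h c)) := by
    intro γ _ f g h hf hg hh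
    exact HK.ArR.comp hS hA (g := fun c => (f c, g c, h c)) (hf.pair (hg.pair hh))
  refine HK.Ar.ex hS (R := fun (b : ℤ) (L : ℕ) => ∀ j : ℤ,
    (∀ w : AK.Wd k, Encodable.encode w ≤ L →
      |mr (sh b m0 : PM k) (AK.cyl w j) - mr (sh b m0 : PM k) (AK.cyl w 0)| < 1 / (L + 1)) →
      ∀ a, a ∉ D → mr (sh b m0 : PM k) (AK.cyl [a] j) ≤ 0) ?_
  refine HK.Ar.all hS (R := fun (p : ℤ × ℕ) (j : ℤ) =>
    (∀ w : AK.Wd k, Encodable.encode w ≤ p.2 →
      |mr (sh p.1 m0 : PM k) (AK.cyl w j) - mr (sh p.1 m0 : PM k) (AK.cyl w 0)| <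
        1 / (p.2 + 1)) →
      ∀ a, a ∉ D → mr (sh p.1 m0 : PM k) (AK.cyl [a] j) ≤ 0) ?_
  refine HK.Ar.imp hS ?_ ?_
  · refine HK.Ar.all hS (R := fun (p : (ℤ × ℕ) × ℤ) (w : AK.Wd k) => Encodable.encode w ≤ p.1.2 →
      |mr (sh p.1.1 m0 : PM k) (AK.cyl w p.2) - mr (sh p.1.1 m0 : PM k) (AK.cyl w 0)| <
        1 / (p.1.2 + 1)) ?_
    refine HK.Ar.imp hS (HK.Ar.prim hS (Primrec.nat_le.comp (Primrec.encode.comp Primrec.snd)
        (Primrec.snd.comp (Primrec.fst.comp Primrec.fst)))) ?_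
    have h1 := key (((ℤ × ℕ) × ℤ) × AK.Wd k) (fun q => q.1.1.1) (fun q => q.2)
      (fun q => q.1.2) (Primrec.fst.comp (Primrec.fst.comp Primrec.fst))
      Primrec.snd (Primrec.snd.comp Primrec.fst)
    have h2 := key (((ℤ × ℕ) × ℤ) × AK.Wd k) (fun q => q.1.1.1) (fun q => q.2)
      (fun _ => 0) (Primrec.fst.comp (Primrec.fst.comp Primrec.fst))
      Primrec.snd (Primrec.const 0)
    have h3 : ArR S fun q : ((ℤ × ℕ) × ℤ) × AK.Wd k => (1 : ℝ) / (q.1.1.2 + 1) :=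
      (HK.ArR.rat hS (HK.ArF.const hS 1) (HK.ArF.of_primrec hS
        (Primrec.snd.comp (Primrec.fst.comp Primrec.fst)))).congr fun q => by simp
    exact HK.ArR.rlt hS (HK.ArR.absd hS h1 h2 (fun q => nonneg _ _) (fun q => nonneg _ _)) h3
      (fun q => abs_nonneg _)
  · refine HK.Ar.all hS (R := fun (p : (ℤ × ℕ) × ℤ) (a : Fin k) => a ∉ D →
      mr (sh p.1.1 m0 : PM k) (AK.cyl [a] p.2) ≤ 0) ?_
    refine HK.Ar.imp hS ?_ ?_
    · refine (HK.Ar.eq hS (f := fun q : ((ℤ × ℕ) × ℤ) × Fin k => decide (q.2 ∈ D))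
        (g := fun _ => false) ?_ (HK.ArF.const hS false)).congr fun q => ?_
      · exact HK.ArF.of_primrec hS ((Primrec.dom_finite fun a : Fin k => decide (a ∈ D)).comp
          Primrec.snd)
      · simp
    · refine HK.ArR.rle hS ?_ (HK.ArR.zero hS) (fun _ => le_rfl)
      exact key (((ℤ × ℕ) × ℤ) × Fin k) (fun q => q.1.1.1) (fun q => [q.2])
        (fun q => q.1.2) (Primrec.fst.comp (Primrec.fst.comp Primrec.fst))
        (Primrec.list_cons.comp Primrec.snd (Primrec.const []))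
        (Primrec.snd.comp Primrec.fst)

end I_SGC

open I_SGC in
theorem SGC_pf (hKRB : KC.S_KRB) (hCYSC : KC.S_CYSC) : S_SGC := by
  intro S hS k D m0 hm
  have hA := arr hCYSC hS m0 hm
  refine HK.Ar.congr (rb hS D m0 hA) fun n => ?_
  rw [hKRB k D (vv m0 n) (sh n m0) (fun w j => rfl)]
  exact Iff.rfl

end Pool.Agent.Work.MP_69fea5_lc.W3
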