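import Pool.Agent.Work.MP_69fea5_lc.W3.StmtsV
import Pool.Agent.Work.MP_69fea5_lc.AK.I_ORB

/-!
# Block [69fea5 V], item SGD: a stage gives `GOOD`
-/

set_option autoImplicit false

namespace Pool.Agent.Work.MP_69fea5_lc.W3

open MeasureTheory Topology Set Filter ProbabilityTheory
open scoped NNReal ENNReal
open Pool.Agent.Work.MP_69fea5_lc.AK
open Pool.Agent.Work.MP_69fea5_lc.HK (Cl DU Ar ArF ArR Dat Law LawC act near sc Pt oc Mn mr ext)

/-- [SGD] -/
theorem SGD_pf (hGDT : N3.S_GDT) (hSTG : AK.S_STG) (hSUP : AK.S_SUP) (hMMB : AK.S_MMB) :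
    S_SGD := by
  intro k c m0 D hst
  obtain ⟨hom, hmin, -, -, -⟩ := hSTG k c m0 D hst
  obtain ⟨-, hinv, hself, hproj⟩ := hMMB k m0
  obtain ⟨z, hz⟩ := (hSUP k m0).2.2.1
  have horb : ∀ m ∈ orb m0, orb m = orb m0 := fun m hm => I_ORB.orb_eq m _ hmin hm
  refine hGDT k c (PM k) (MM m0) z m0 {m | Rb D m} D hinv (hself z hz) (fun p hp => hom hp)
    ?_ ?_ ?_
  · rintro p hp ⟨U, hU, h0⟩
    refine ⟨interior U, interior_mem_nhds.2 hU, fun p' hp' hpU => ?_⟩
    refine ⟨U, mem_interior_iff_mem_nhds.1 hpU, ?_⟩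
    rw [horb _ (hproj p' hp'), ← horb _ (hproj p hp)]
    exact h0
  · rintro p hp ⟨U, hU, h0⟩
    by_contra hD
    have hO : IsOpen {q : Om k × PM k | q.1 0 ∉ D ∧ q.2 ∈ interior U} := by
      have h1 : IsOpen {q : Om k × PM k | q.1 0 ∉ D} := by
        have h2 : Continuous fun q : Om k × PM k => q.1 0 := (continuous_apply 0).comp continuous_fst
        exact (isOpen_discrete {a : Fin k | a ∉ D}).preimage h2
      exact h1.inter (isOpen_interior.preimage continuous_snd)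
    have hpO : p ∈ {q : Om k × PM k | q.1 0 ∉ D ∧ q.2 ∈ interior U} :=
      ⟨hD, mem_interior_iff_mem_nhds.2 hU⟩
    obtain ⟨q, ⟨hq1, hq2⟩, n, z', hz', rfl⟩ := mem_closure_iff.1 hp _ hO hpO
    have h3 : sh n m0 ∈ orb p.2 := by
      rw [horb _ (hproj p hp)]
      exact subset_closure ⟨n, rfl⟩
    have h4 := h0 _ h3 (interior_subset hq2)
    have h5 : sh n z' ∈ supp (sh n m0) := (hSUP k m0).2.2.2.2.1 n z' hz'
    have h6 : IsOpen {z : Om k | z 0 ∉ D} := by
      have h2 : Continuous fun z : Om k => z 0 := continuous_apply 0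
      exact (isOpen_discrete {a : Fin k | a ∉ D}).preimage h2
    have h7 := h5 _ h6 hq1
    rw [h4] at h7
    exact lt_irrefl _ h7
  · intro V hV
    obtain ⟨n, hn, hR⟩ := hst.rob V hV
    exact ⟨(sh n z, sh n m0), hinv n _ (hself z hz), hn, hR⟩

end Pool.Agent.Work.MP_69fea5_lc.W3
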