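import Pool.Agent.Work.MP_69fea5_lc.W3.StmtsV
import Pool.Agent.Work.MP_69fea5_lc.HK.Fin
import Pool.Agent.Work.MP_69fea5_lc.HK.Calc

set_option autoImplicit false

namespace Pool.Agent.Work.MP_69fea5_lc.W3

open MeasureTheory Topology Set Filter ProbabilityTheory
open scoped NNReal ENNReal
open Pool.Agent.Work.MP_69fea5_lc.AK
open Pool.Agent.Work.MP_69fea5_lc.HK (Cl DU Ar ArF ArR Dat Law LawC act near sc Pt oc Mn mr ext)

theorem SGF_pf (hGSL : N3.S_GSL) (hSGD : S_SGD) (hSGC : S_SGC) : S_SGF := by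
  intro S hS k c D m0 hc hm hst
  exact hGSL S hS k c D (fun n => Rb D (sh (n : ℤ) m0)) hc
    (HK.Ar.comp hS (hSGC S hS k D m0 hm) HK.primrec_natCast) (hSGD k (ext c) m0 D hst)

end Pool.Agent.Work.MP_69fea5_lc.W3
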