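import Pool.Agent.Work.MP_69fea5_lc.W3.StmtsV2

/-!
# Block [69fea5 V2], item SHC: shift invariance of visible functions
-/

set_option autoImplicit false

namespace Pool.Agent.Work.MP_69fea5_lc.W3

open MeasureTheory Topology Set Filter ProbabilityTheory TopologicalSpace
open scoped NNReal ENNReal
open Pool.Agent.Work.MP_69fea5_lc.AK
open Pool.Agent.Work.MP_69fea5_lc.HK (Cl DU Ar ArF ArR Dat Law LawC act near sc Pt oc Mn mr ext)

namespace I_SHC

variable {X : Type} [TopologicalSpace X] [Sys X]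

/-- the progression of length `n` -/
def pr (n : ℕ) (b u : ℤ) (y : X) : Fin n → X := fun i => sh (b + ((i : ℕ) : ℤ) * u) y

lemma pr_mem (n : ℕ) (b u : ℤ) (y : X) : pr n b u y ∈ PG n X :=
  subset_closure ⟨(b, u), y, rfl⟩

lemma tsh_pr (n : ℕ) (m b u : ℤ) (y : X) : tsh m (pr n b u y) = pr n (b + m) u y := by
  funext i
  simp only [tsh, pr]
  rw [← sh_add]
  congr 1
  ring

lemma inv_pr {n : ℕ} {g : (Fin n → X) → ℝ} (hg : Vis g) (u : ℤ) (y : X) :
    ∀ (m b : ℤ), g (pr n (b + m) u y) = g (pr n b u y) := by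
  have h1 : ∀ b : ℤ, g (pr n (b + 1) u y) = g (pr n b u y) := by
    intro b
    rw [← tsh_pr]
    exact hg.inv _ (pr_mem n b u y)
  intro m
  induction m using Int.induction_on with
  | zero => intro b; rw [add_zero]
  | succ i ih =>
    intro b
    rw [← add_assoc, h1, ih]
  | pred i ih =>
    intro b
    have h2 := h1 (b + (-(i : ℤ) - 1))
    rw [← h2, ← ih b]
    congr 2
    ring

end I_SHC

open I_SHC in
theorem SHC_pf : S_SHC := by
  intro n X _ _ _ g hg v z hz
  have hcl : IsClosed {x : Fin (n + 2) → X | g (Fin.init x) = g (Fin.tail x)} := by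
    have hi : Continuous fun x : Fin (n + 2) → X => (Fin.init x : Fin (n + 1) → X) :=
      continuous_pi fun i => continuous_apply i.castSucc
    have ht : Continuous fun x : Fin (n + 2) → X => (Fin.tail x : Fin (n + 1) → X) :=
      continuous_pi fun i => continuous_apply i.succ
    exact isClosed_eq (hg.cont.comp hi) (hg.cont.comp ht)
  have hsub : PG (n + 2) X ⊆ {x : Fin (n + 2) → X | g (Fin.init x) = g (Fin.tail x)} := by
    refine closure_minimal ?_ hcl
    rintro x ⟨⟨b, u⟩, y, rfl⟩
    have h1 : (Fin.init fun i : Fin (n + 2) => sh ((pf (i : ℕ)) (b, u)) y : Fin (n + 1) → X) =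
        pr (n + 1) b u y := by
      funext i
      simp only [Fin.init, pr, pf, AddMonoidHom.coe_mk, ZeroHom.coe_mk, Fin.val_castSucc]
    have h2 : (Fin.tail fun i : Fin (n + 2) => sh ((pf (i : ℕ)) (b, u)) y : Fin (n + 1) → X) =
        pr (n + 1) (b + u) u y := by
      funext i
      simp only [Fin.tail, pr, pf, AddMonoidHom.coe_mk, ZeroHom.coe_mk, Fin.val_succ]
      congr 1
      push_cast
      ring
    rw [mem_ofPred_eq, h1, h2, inv_pr hg]
  have h := hsub hz
  rw [mem_ofPred_eq, Fin.tail_cons] at h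
  rw [← h]
  congr 1
  funext i
  refine Fin.cases ?_ (fun j => ?_) i
  · rfl
  · simp only [cns, Fin.cons_succ, Fin.init, ← Fin.succ_castSucc]

end Pool.Agent.Work.MP_69fea5_lc.W3
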