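import Pool.Agent.Work.MP_69fea5_lc.W3.StmtsV
import Pool.Agent.Work.MP_69fea5_lc.AK.I_ORB

/-!
# Block [69fea5 V SPM]: an invariant measure on a minimal set has full support
-/

set_option autoImplicit false

namespace Pool.Agent.Work.MP_69fea5_lc.W3

open MeasureTheory Topology Set Filter ProbabilityTheory
open scoped NNReal ENNReal
open Pool.Agent.Work.MP_69fea5_lc.AK
open Pool.Agent.Work.MP_69fea5_lc.HK (Cl DU Ar ArF ArR Dat Law LawC act near sc Pt oc Mn mr ext)

namespace I_SPM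

variable {k : ℕ}

theorem sh_nat {μ : PM k} (h : sh 1 μ = μ) (n : ℕ) : sh (n : ℤ) μ = μ := by
  induction n with
  | zero => exact sh_zero μ
  | succ n ih =>
    have : ((n + 1 : ℕ) : ℤ) = (n : ℤ) + 1 := by push_cast; ring
    rw [this, sh_add, h, ih]

theorem sh_all {μ : PM k} (h : sh 1 μ = μ) (n : ℤ) : sh n μ = μ := by
  obtain ⟨m, rfl | rfl⟩ := n.eq_nat_or_neg
  · exact sh_nat h m
  · conv_lhs => rw [← sh_nat h m]
    rw [← sh_add, neg_add_cancel]
    exact sh_zero μ

theorem coe_pre {μ : PM k} (h : sh 1 μ = μ) (n : ℤ) {V : Set (Om k)} (hV : MeasurableSet V) :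
    (μ : Measure (Om k)) ((sh n : Om k → Om k) ⁻¹' V) = (μ : Measure (Om k)) V := by
  have h1 : ((sh n μ : PM k) : Measure (Om k)) V = (μ : Measure (Om k)) V := by rw [sh_all h n]
  rw [← h1]
  change _ = Measure.map (sh n : Om k → Om k) (μ : Measure (Om k)) V
  rw [Measure.map_apply (sh_cont n).measurable hV]

end I_SPM

open I_SPM in
theorem SPM_pf : S_SPM := by
  intro k M μ hM hμ h1 w hw U hU
  obtain ⟨V, hVU, hVo, hwV⟩ := mem_nhds_iff.1 hU
  by_contra h0
  have hU0 : μ U = 0 := by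
    simpa using h0
  have hV0 : (μ : Measure (Om k)) V = 0 := by
    have h2 : (μ : Measure (Om k)) U = 0 := by
      rw [← ProbabilityMeasure.ennreal_coeFn_eq_coeFn_toMeasure, hU0]
      rfl
    exact measure_mono_null hVU h2
  have hcov : M ⊆ ⋃ n : ℤ, (sh n : Om k → Om k) ⁻¹' V := by
    intro z hz
    have hzM : orb z = M := AK.I_ORB.orb_eq z M hM hz
    have hwz : w ∈ closure (Set.range fun n : ℤ => sh n z) := by
      have : w ∈ orb z := by rw [hzM]; exact hw
      exact this
    obtain ⟨y, hyV, n, rfl⟩ := mem_closure_iff.1 hwz V hVo hwV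
    exact mem_iUnion.2 ⟨n, hyV⟩
  have hM0 : (μ : Measure (Om k)) M = 0 := by
    refine measure_mono_null hcov (measure_iUnion_null fun n => ?_)
    rw [coe_pre hμ n hVo.measurableSet, hV0]
  have hM1 : (μ : Measure (Om k)) M = 1 := by
    rw [← ProbabilityMeasure.ennreal_coeFn_eq_coeFn_toMeasure, h1]
    rfl
  rw [hM0] at hM1
  exact zero_ne_one hM1

end Pool.Agent.Work.MP_69fea5_lc.W3
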