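import Pool.Agent.Work.MP_69fea5_lc.W3.StmtsV

set_option autoImplicit false

namespace Pool.Agent.Work.MP_69fea5_lc.W3

open MeasureTheory Topology Set Filter ProbabilityTheory
open scoped NNReal ENNReal
open Pool.Agent.Work.MP_69fea5_lc.AK

namespace I_TSC

theorem cont_cns {k n : ℕ} :
    Continuous fun p : Om k × (Fin (n + 1) → Om k) => cns p.1 p.2 := by
  refine continuous_pi fun j => ?_
  refine Fin.cases ?_ (fun i => ?_) j
  · have : (fun p : Om k × (Fin (n + 1) → Om k) => cns p.1 p.2 0) = fun p => p.1 := by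
      funext p
      simp [cns]
    rw [this]
    exact continuous_fst
  · have : (fun p : Om k × (Fin (n + 1) → Om k) => cns p.1 p.2 i.succ) =
        fun p => p.2 i.castSucc := by
      funext p
      simp [cns, Fin.init]
    rw [this]
    exact (continuous_apply i.castSucc).comp continuous_snd

end I_TSC

/-- [TSC] sections of closed sets of tuples are upper semicontinuous. -/
theorem TSC_pf : S_TSC := by
  intro k n R hR w C hC hsub
  have hcl : IsClosed {p : Om k × (Fin (n + 1) → Om k) | cns p.1 p.2 ∈ R} :=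
    hR.preimage I_TSC.cont_cns
  refine ⟨hR.preimage (I_TSC.cont_cns.comp (Continuous.prodMk_right w)), ?_⟩
  have hK : IsClosed ({p : Om k × (Fin (n + 1) → Om k) | cns p.1 p.2 ∈ R} ∩ {p | p.2 ∉ C}) :=
    hcl.inter (hC.isClosed_compl.preimage continuous_snd)
  have hP : IsClosed (Prod.fst '' ({p : Om k × (Fin (n + 1) → Om k) | cns p.1 p.2 ∈ R} ∩
      {p | p.2 ∉ C})) := (hK.isCompact.image continuous_fst).isClosed
  refine ⟨(Prod.fst '' ({p : Om k × (Fin (n + 1) → Om k) | cns p.1 p.2 ∈ R} ∩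
      {p | p.2 ∉ C}))ᶜ, hP.isOpen_compl.mem_nhds ?_, ?_⟩
  · rintro ⟨⟨w', u⟩, ⟨h1, h2⟩, h3⟩
    have h3' : w' = w := h3
    subst h3'
    exact h2 (hsub h1)
  · intro w' hw' u hu
    by_contra hc
    exact hw' ⟨(w', u), ⟨hu, hc⟩, rfl⟩

end Pool.Agent.Work.MP_69fea5_lc.W3
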