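import Pool.Agent.Work.MP_69fea5_lc.W3.StmtsV2
import Pool.Agent.Work.MP_69fea5_lc.W3.I_LEK

set_option autoImplicit false

namespace Pool.Agent.Work.MP_69fea5_lc.W3

open MeasureTheory Topology Set Filter ProbabilityTheory TopologicalSpace
open scoped NNReal ENNReal
open Pool.Agent.Work.MP_69fea5_lc.AK
open Pool.Agent.Work.MP_69fea5_lc.HK (Cl DU Ar ArF ArR Dat Law LawC act near sc Pt oc Mn mr ext)

namespace I_VBR

variable {k : ℕ} {X : Type} [TopologicalSpace X] [MeasurableSpace X] [CS X] [Sys X]

omit [TopologicalSpace X] [CS X] [Sys X] in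
theorem meas_snd : Measurable fun q : X × PM k => (q.2 : Measure (Om k)) :=
  measurable_subtype_coe.comp measurable_snd

omit [TopologicalSpace X] [CS X] [Sys X] in
theorem bind_apply' (θ : ProbabilityMeasure (X × PM k)) {A : Set (Om k)} (hA : MeasurableSet A) :
    ((θ : Measure (X × PM k)).bind fun q => (q.2 : Measure (Om k))) A =
      ∫⁻ q, (q.2 : Measure (Om k)) A ∂(θ : Measure (X × PM k)) :=
  Measure.bind_apply hA meas_snd.aemeasurable

end I_VBR

open I_VBR in
theorem VBR_pf (hLEK : S_LEK) : S_VBR := by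
  intro k X _ _ _ _ M π E lam θ χ _ hPo hSP hfib hθE hθ hd hlam
  have hEK := hLEK k X M π E lam θ χ hPo hSP hfib hθE hθ hd
  have hmE := I_LEK.markov_evK k
  have hEc : IsClosed E := hSP.min.closed
  have hθ1 : (θ : Measure (X × PM k)).map (sh 1 : X × PM k → X × PM k) = θ := by
    have := congrArg (fun q : ProbabilityMeasure (X × PM k) => (q : Measure (X × PM k))) (hθ 1)
    exact this
  have hTT : Measurable (sh 1 : X × PM k → X × PM k) := (sh_cont 1).measurable
  have hOm : Measurable (sh 1 : Om k → Om k) := (sh_cont 1).measurable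
  have hev : ∀ {A : Set (Om k)}, MeasurableSet A →
      Measurable fun m : PM k => (m : Measure (Om k)) A := fun hA => I_LEK.meas_coe hA
  have hev2 : ∀ {A : Set (Om k)}, MeasurableSet A →
      Measurable fun q : X × PM k => (q.2 : Measure (Om k)) A := fun hA =>
    (hev hA).comp measurable_snd
  have hθE' : ∀ᵐ p ∂(θ : Measure (X × PM k)), p ∈ E := by
    have h2 : (θ : Measure (X × PM k)) E = 1 := by
      rw [← ProbabilityMeasure.ennreal_coeFn_eq_coeFn_toMeasure, hθE]; rfl
    exact (mem_ae_iff_prob_eq_one hEc.measurableSet).2 h2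
  have hprob : IsProbabilityMeasure
      ((θ : Measure (X × PM k)).bind fun q => (q.2 : Measure (Om k))) := by
    constructor
    rw [bind_apply' θ MeasurableSet.univ]
    simp
  let μ : PM k := ⟨(θ : Measure (X × PM k)).bind fun q => (q.2 : Measure (Om k)), hprob⟩
  have hμ : ∀ {A : Set (Om k)}, MeasurableSet A → (μ : Measure (Om k)) A =
      ∫⁻ q, (q.2 : Measure (Om k)) A ∂(θ : Measure (X × PM k)) := fun hA => bind_apply' θ hA
  refine ⟨μ, Kernel.id ×ₖ χ, ?_, ?_, rfl⟩
  · refine ⟨hPo.min, hPo.cont, hPo.equi, ?_, ?_, hEK.markov, ?_, hEK.fib, hEK.eqv⟩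
    · -- invariance
      ext A hA
      rw [Measure.map_apply hOm hA, hμ (hOm hA), hμ hA]
      conv_rhs => rw [← hθ1]
      rw [lintegral_map (hev2 hA) hTT]
      refine lintegral_congr fun q => ?_
      show (q.2 : Measure (Om k)) (sh 1 ⁻¹' A) =
        ((q.2 : Measure (Om k)).map (sh 1 : Om k → Om k)) A
      rw [Measure.map_apply hOm hA]
    · -- `μ M = 1`
      have hM : MeasurableSet M := hPo.min.closed.measurableSet
      have h1 : (μ : Measure (Om k)) M = 1 := by
        rw [hμ hM]
        have h2 : ∀ᵐ q ∂(θ : Measure (X × PM k)), (q.2 : Measure (Om k)) M = 1 := by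
          filter_upwards [hθE'] with q hq
          have h3 : (q.2 : Measure (Om k)) {w | w ∈ M ∧ π w = q.1} = 1 := by
            rw [← ProbabilityMeasure.ennreal_coeFn_eq_coeFn_toMeasure, hfib _ hq]; rfl
          refine le_antisymm prob_le_one ?_
          rw [← h3]
          exact measure_mono fun w hw => hw.1
        rw [lintegral_congr_ae h2]
        simp
      have : ((μ M : ℝ≥0) : ℝ≥0∞) = 1 := by
        rw [ProbabilityMeasure.ennreal_coeFn_eq_coeFn_toMeasure]
        exact h1
      exact_mod_cast this
    · -- `bind`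
      ext A hA
      rw [Measure.bind_apply hA (Kernel.aemeasurable _), hμ hA, hd,
        Measure.lintegral_compProd (hev2 hA)]
      exact lintegral_congr fun v => I_LEK.evK_apply χ v hA
  · have hζ : ∀ v, (Kernel.id ×ₖ χ) v = (χ v).map (Prod.mk v) := by
      intro v
      rw [Kernel.prod_apply, Kernel.id_apply, Measure.dirac_prod]
    refine ⟨hSP.min, continuous_fst.continuousOn, fun _ _ _ => rfl, hθ1, hθE, inferInstance,
      ?_, ?_, ?_⟩
    · rw [hd]
      exact (Measure.compProd_eq_comp_prod _ _).symm
    · have h1 := hθE'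
      rw [hd] at h1
      filter_upwards [Measure.ae_ae_of_ae_compProd h1] with v hv
      have hS : MeasurableSet {z : X × PM k | z ∈ E ∧ z.1 = v} :=
        hEc.measurableSet.inter (measurable_fst (measurableSet_singleton v))
      rw [hζ, Measure.map_apply measurable_prodMk_left hS.compl]
      refine measure_mono_null ?_ hv
      intro m hm hm'
      exact hm ⟨hm', rfl⟩
    · filter_upwards [I_LEK.dis_eqv lam θ χ hθ hd] with v hv
      have hS : Measurable (sh 1 : PM k → PM k) := (sh_cont 1).measurable
      rw [hζ, hζ, hv, Measure.map_map measurable_prodMk_left hS,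
        Measure.map_map hTT measurable_prodMk_left]
      rfl

end Pool.Agent.Work.MP_69fea5_lc.W3
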