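import Pool.Agent.Work.MP_69fea5_lc.W3.StmtsV2

set_option autoImplicit false

namespace Pool.Agent.Work.MP_69fea5_lc.W3

open MeasureTheory Topology Set Filter ProbabilityTheory TopologicalSpace
open scoped NNReal ENNReal
open Pool.Agent.Work.MP_69fea5_lc.AK
open Pool.Agent.Work.MP_69fea5_lc.HK (Cl DU Ar ArF ArR Dat Law LawC act near sc Pt oc Mn mr ext)

theorem VC2_pf (hYYM : S_YYM) (hZOC : S_ZOC) (hRHS : S_RHS) : S_VC2 := by
  intro k n X _ _ _ _ M π lam μ η Y θ ζ K v₀ hM hY hYQ hBar hCH h0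
  obtain ⟨SS, hSc, hSi, hSY, hSr, hSv⟩ := hRHS k n X M π lam μ η Y θ ζ K v₀ hM hY hYQ hBar hCH h0
  obtain ⟨YY, hYm, hYs, hYv⟩ := hYYM k (n + 1) X v₀ SS hSc hSi hSv (hCH.tmin v₀)
  exact hZOC k (n + 1) X Y YY v₀ hY.min hYm (fun y hy => hSY y (hYs hy))
    (fun y hy => hSr y (hYs hy)) hYv

end Pool.Agent.Work.MP_69fea5_lc.W3
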