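import Pool.Agent.Work.MP_69fea5_lc.W3.StmtsV2

/-!
# Block [69fea5 V2]: item VGH (the hypotheses of the greedy argument)
-/

set_option autoImplicit false

namespace Pool.Agent.Work.MP_69fea5_lc.W3

open MeasureTheory Topology Set Filter ProbabilityTheory TopologicalSpace
open scoped NNReal ENNReal
open Pool.Agent.Work.MP_69fea5_lc.AK
open Pool.Agent.Work.MP_69fea5_lc.HK (Cl DU Ar ArF ArR Dat Law LawC act near sc Pt oc Mn mr ext)

theorem VGH_pf (hLSC : S_LSC) (hVLP : S_VLP) (hVLE : S_VLE) (hVWD : S_VWD) (hVSH : S_VSH) :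
    S_VGH := by
  intro k n X _ _ _ _ c M π v₀ lam μ η K hT hK hA hb hr
  obtain ⟨C, hC⟩ := hK.dom
  have := hT.mar
  refine ⟨hT.min, hT.cont, hT.equi, Subtype.ext hT.inv, hT.one, ?_, ?_, ?_, ?_, ?_, hb, hr⟩
  · intro w _
    exact (hVLP (Om k) X M π lam μ η hT (n + 1) (K (π w) : Measure _) C (hC (π w))).1
  · intro D hD
    obtain ⟨κ, hκ, hκe⟩ := hLSC k X (Fin (n + 1)) X η lam K C hK.kc (by
      intro b i A hAm
      have h1 := hC b i A
      rw [Measure.map_apply (measurable_pi_apply i) hAm] at h1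
      have h2 : ((K b : Measure (Fin (n + 1) → X)) {z | z i ∈ A}) ≤
          (C : ℝ≥0∞) * (lam : Measure X) A := h1
      have h3 : ((K b {z | z i ∈ A} : ℝ≥0) : ℝ≥0∞) ≤ ((C * lam A : ℝ≥0) : ℝ≥0∞) := by
        rw [ENNReal.coe_mul, ProbabilityMeasure.ennreal_coeFn_eq_coeFn_toMeasure,
          ProbabilityMeasure.ennreal_coeFn_eq_coeFn_toMeasure]
        exact h2
      exact_mod_cast h3)
    have h1 : Continuous fun v => ((κ v) D : ℝ) := by
      rw [continuous_iff_continuousAt]
      intro v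
      have h2 := ProbabilityMeasure.tendsto_measure_of_null_frontier_of_tendsto (hκ.tendsto v)
        (E := D) (by rw [hD.frontier_eq]; simp)
      exact (NNReal.continuous_coe.tendsto _).comp h2
    have h3 : (fun w => (lif η (K (π w) : Measure (Fin (n + 1) → X))).real D) =
        fun w => (((κ (π w)) D : ℝ≥0) : ℝ) := by
      funext w
      rw [← hκe]
      rfl
    rw [h3]
    exact h1.comp_continuousOn hT.cont
  · intro w _ m
    have h1 := hVLE (Om k) X M π lam μ η hT hK.linv (n + 1) (K (π w) : Measure _) C (hC (π w))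
      fun _ => m
    change lif η (K (sh m (π w)) : Measure (Fin (n + 1) → X)) =
      (lif η (K (π w) : Measure (Fin (n + 1) → X))).map (tsh m)
    rw [hK.ke]
    exact h1.symm
  · exact fun R hR w hw w' hw' h => hVWD k n X M π lam μ η K hT hK hA R hR w hw w' hw' h
  · exact fun R hR => hVSH k n X M π lam μ η K hT hK hA R hR

end Pool.Agent.Work.MP_69fea5_lc.W3
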