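import Pool.Agent.Work.MP_69fea5_lc.W3.StmtsV2

set_option autoImplicit false

namespace Pool.Agent.Work.MP_69fea5_lc.W3

open MeasureTheory Topology Set Filter ProbabilityTheory TopologicalSpace
open scoped NNReal ENNReal
open Pool.Agent.Work.MP_69fea5_lc.AK
open Pool.Agent.Work.MP_69fea5_lc.HK (Cl DU Ar ArF ArR Dat Law LawC act near sc Pt oc Mn mr ext)

namespace I_VLE

lemma meas {X O ι : Type} [MeasurableSpace X] [MeasurableSpace O] [Fintype ι]
    (η : Kernel X O) [IsMarkovKernel η] :
    Measurable fun z : ι → X => Measure.pi fun i => η (z i) := by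
  refine Measurable.measure_of_isPiSystem_of_isProbabilityMeasure (generateFrom_pi (ι := ι)
    (α := fun _ => O)).symm isPiSystem_pi ?_
  rintro _ ⟨s, hs, rfl⟩
  simp only [Measure.pi_pi]
  refine Finset.measurable_prod _ fun i _ => ?_
  exact (η.measurable_coe (hs i (mem_univ i))).comp (measurable_pi_apply i)

lemma mapsh {O : Type} [TopologicalSpace O] [MeasurableSpace O] [CS O] [Sys O] (a b : ℤ)
    (ν : Measure O) : (ν.map (sh b : O → O)).map (sh a : O → O) = ν.map (sh (a + b) : O → O) := by
  rw [Measure.map_map (sh_cont a).measurable (sh_cont b).measurable]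
  congr 1
  exact funext fun z => (sh_add a b z).symm

lemma mapsh0 {O : Type} [TopologicalSpace O] [MeasurableSpace O] [CS O] [Sys O]
    (ν : Measure O) : ν.map (sh 0 : O → O) = ν := by
  have : (sh 0 : O → O) = id := funext fun z => sh_zero z
  rw [this, Measure.map_id]

/-- an invariant measure is invariant under all powers -/
lemma invall {X : Type} [TopologicalSpace X] [MeasurableSpace X] [CS X] [Sys X] (lam : Measure X)
    (h : lam.map (sh 1 : X → X) = lam) (m : ℤ) : lam.map (sh m : X → X) = lam := by
  have hm1 : lam.map (sh (-1) : X → X) = lam := by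
    conv_lhs => rw [← h]
    rw [mapsh, neg_add_cancel, mapsh0]
  induction m using Int.induction_on with
  | zero => exact mapsh0 lam
  | succ i ih => rw [add_comm, ← mapsh, ih, h]
  | pred i ih => rw [sub_eq_add_neg, add_comm, ← mapsh, ih, hm1]

lemma eqvall {O X : Type} [TopologicalSpace O] [MeasurableSpace O] [CS O] [Sys O]
    [TopologicalSpace X] [MeasurableSpace X] [CS X] [Sys X] (lam : Measure X) (η : Kernel X O)
    (h : lam.map (sh 1 : X → X) = lam)
    (he : ∀ᵐ v ∂lam, η (sh 1 v) = (η v).map (sh 1 : O → O)) :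
    ∀ᵐ v ∂lam, ∀ m : ℤ, η (sh m v) = (η v).map (sh m : O → O) := by
  have h1 : ∀ m : ℤ, ∀ᵐ v ∂lam, η (sh 1 (sh m v)) = (η (sh m v)).map (sh 1 : O → O) := by
    intro m
    have := invall lam h m
    rw [← this] at he
    exact ae_of_ae_map (sh_cont m).measurable.aemeasurable he
  filter_upwards [ae_all_iff.2 h1] with v hv m
  induction m using Int.induction_on with
  | zero => rw [mapsh0, sh_zero]
  | succ i ih => rw [add_comm, sh_add, hv, ih, mapsh]
  | pred i ih =>
    have h2 := hv (-(i : ℤ) - 1)
    rw [← sh_add, show (1 : ℤ) + (-(i : ℤ) - 1) = -(i : ℤ) by ring, ih] at h2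
    have h3 : ((η v).map (sh (-(i : ℤ)) : O → O)).map (sh (-1) : O → O) =
        ((η (sh (-(i : ℤ) - 1) v)).map (sh 1 : O → O)).map (sh (-1) : O → O) := by rw [h2]
    rw [mapsh, mapsh, neg_add_cancel, mapsh0] at h3
    rw [← h3]
    congr 1
    rw [sub_eq_add_neg, add_comm]

end I_VLE

open I_VLE in
theorem VLE_pf : S_VLE := by
  intro O X _ _ _ _ _ _ _ _ M π lam μ η hT hinv n Q _ C hD a
  have := hT.mar
  have hall := eqvall (lam : Measure X) η hinv hT.eqv
  have hz : ∀ᵐ z ∂Q, ∀ i : Fin n, ∀ m : ℤ, η (sh m (z i)) = (η (z i)).map (sh m : O → O) := by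
    rw [ae_all_iff]
    intro i
    have h1 : Q.map (fun z => z i) ≪ (lam : Measure X) :=
      Measure.absolutelyContinuous_of_le_smul (hD i)
    exact ae_of_ae_map (measurable_pi_apply i).aemeasurable (h1.ae_le hall)
  have hg : Measurable fun (u : Fin n → O) i => sh (a i) (u i) :=
    measurable_pi_lambda _ fun i => (sh_cont (a i)).measurable.comp (measurable_pi_apply i)
  have hh : Measurable fun (z : Fin n → X) i => sh (a i) (z i) :=
    measurable_pi_lambda _ fun i => (sh_cont (a i)).measurable.comp (measurable_pi_apply i)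
  ext B hB
  rw [Measure.map_apply hg hB]
  unfold lif
  have hmB : Measurable fun z : Fin n → X => (Measure.pi fun i => η (z i)) B :=
    (Measure.measurable_coe hB).comp (meas η)
  rw [Measure.bind_apply (hg hB) (meas η).aemeasurable, Measure.bind_apply hB
    (meas η).aemeasurable, lintegral_map hmB hh]
  refine lintegral_congr_ae ?_
  filter_upwards [hz] with z hz
  simp only [hz]
  rw [← Measure.pi_map_pi fun i => (sh_cont (a i)).measurable.aemeasurable,
    Measure.map_apply hg hB]

end Pool.Agent.Work.MP_69fea5_lc.W3
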