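import Pool.Agent.Work.MP_69fea5_lc.W3.StmtsV2

/-!
Item [69fea5 V2 VLP]: the law of a tuple of points given the law of the positions.
-/

set_option autoImplicit false

namespace Pool.Agent.Work.MP_69fea5_lc.W3

open MeasureTheory Topology Set Filter ProbabilityTheory TopologicalSpace
open scoped NNReal ENNReal
open Pool.Agent.Work.MP_69fea5_lc.AK
open Pool.Agent.Work.MP_69fea5_lc.HK (Cl DU Ar ArF ArR Dat Law LawC act near sc Pt oc Mn mr ext)

namespace I_VLP

/-- the product of the laws of the points depends measurably on the positions -/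
theorem measurable_pi {X O ι : Type} [MeasurableSpace X] [MeasurableSpace O] [Fintype ι]
    (η : Kernel X O) [IsMarkovKernel η] :
    Measurable fun z : ι → X => Measure.pi fun i => η (z i) := by
  refine Measurable.measure_of_isPiSystem_of_isProbabilityMeasure
    (generateFrom_pi (ι := ι) (α := fun _ => O)).symm isPiSystem_pi ?_
  rintro _ ⟨B, hB, rfl⟩
  have h1 : (fun z : ι → X => (Measure.pi fun i => η (z i)) (univ.pi B)) =
      fun z => ∏ i, η (z i) (B i) := by
    funext z
    exact Measure.pi_pi _ _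
  rw [h1]
  refine Finset.measurable_prod _ fun i _ => ?_
  exact (Kernel.measurable_coe η (hB i (mem_univ i))).comp (measurable_pi_apply i)

theorem lif_apply {X O ι : Type} [MeasurableSpace X] [MeasurableSpace O] [Fintype ι]
    (η : Kernel X O) [IsMarkovKernel η] (Q : Measure (ι → X)) {B : Set (ι → O)}
    (hB : MeasurableSet B) :
    lif η Q B = ∫⁻ z, (Measure.pi fun i => η (z i)) B ∂Q :=
  Measure.bind_apply hB (measurable_pi η).aemeasurable

end I_VLP

theorem VLP_pf : S_VLP := by
  intro O X _ _ _ _ _ _ _ _ M π lam μ η hT n Q _ C hD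
  haveI := hT.mar
  have hMm : MeasurableSet M := hT.min.closed.measurableSet
  -- part 3
  have p3 : ∀ᵐ z ∂Q, ∀ᵐ u ∂(Measure.pi fun i : Fin n => η (z i)),
      ∀ i, u i ∈ M ∧ π (u i) = z i := by
    have h1 : ∀ i : Fin n, ∀ᵐ z ∂Q, η (z i) {w | w ∈ M ∧ π w = z i}ᶜ = 0 := by
      intro i
      have hac : Q.map (fun z : Fin n → X => z i) ≪ (lam : Measure X) :=
        Measure.absolutelyContinuous_of_le_smul (hD i)
      have h2 : ∀ᵐ v ∂(Q.map fun z : Fin n → X => z i), η v {w | w ∈ M ∧ π w = v}ᶜ = 0 :=
        hac.ae_le hT.fib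
      exact ae_of_ae_map (measurable_pi_apply i).aemeasurable h2
    filter_upwards [ae_all_iff.2 h1] with z hz
    rw [ae_all_iff]
    intro i
    have h2 : ∀ᵐ w ∂(η (z i)), w ∈ M ∧ π w = z i := hz i
    exact (Measure.tendsto_eval_ae_ae (μ := fun i : Fin n => η (z i)) (i := i)).eventually h2
  -- part 4
  have hS : MeasurableSet {u : Fin n → O | ∀ i, u i ∈ M} := by
    have : {u : Fin n → O | ∀ i, u i ∈ M} = univ.pi fun _ => M := by
      ext u
      simp
    rw [this]
    exact MeasurableSet.univ_pi fun _ => hMm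
  have p4 : ∀ᵐ u ∂lif η Q, ∀ i, u i ∈ M := by
    rw [ae_iff]
    have h1 : {u : Fin n → O | ¬ ∀ i, u i ∈ M} = {u : Fin n → O | ∀ i, u i ∈ M}ᶜ := rfl
    rw [h1, I_VLP.lif_apply η Q hS.compl]
    refine lintegral_eq_zero_of_ae_eq_zero ?_
    filter_upwards [p3] with z hz
    have h2 : ∀ᵐ u ∂(Measure.pi fun i : Fin n => η (z i)), ∀ i, u i ∈ M := by
      filter_upwards [hz] with u hu i
      exact (hu i).1
    exact h2
  -- the measurable version of `π`
  obtain ⟨w₀, hw₀⟩ := hT.min.ne
  classical
  set π' : O → X := M.piecewise π (fun _ => π w₀) with hπ'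
  have hπm : Measurable π' :=
    ContinuousOn.measurable_piecewise hT.cont continuousOn_const hMm
  have hπe : ∀ w ∈ M, π' w = π w := fun w hw => Set.piecewise_eq_of_mem _ _ _ hw
  have hπm' : Measurable fun (u : Fin n → O) (i : Fin n) => π' (u i) :=
    measurable_pi_lambda _ fun i => hπm.comp (measurable_pi_apply i)
  have hae : (fun (u : Fin n → O) (i : Fin n) => π (u i)) =ᵐ[lif η Q]
      fun u i => π' (u i) := by
    filter_upwards [p4] with u hu
    funext i
    exact (hπe _ (hu i)).symm
  refine ⟨?_, ?_, p3, p4, ?_, ⟨_, hπm', hae⟩⟩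
  · constructor
    rw [I_VLP.lif_apply η Q MeasurableSet.univ]
    simp
  · intro B hB
    rw [I_VLP.lif_apply η Q (MeasurableSet.univ_pi hB)]
    refine lintegral_congr fun z => ?_
    exact Measure.pi_pi _ _
  · intro B hB
    have h1 : lif η Q {u | (fun i => π (u i)) ∈ B} = lif η Q {u | (fun i => π' (u i)) ∈ B} := by
      apply measure_congr
      filter_upwards [hae] with u hu
      have hu' : (fun i => π (u i)) = fun i => π' (u i) := hu
      show ((fun i => π (u i)) ∈ B) = ((fun i => π' (u i)) ∈ B)
      rw [hu']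
    have hms : MeasurableSet {u : Fin n → O | (fun i => π' (u i)) ∈ B} := hπm' hB
    rw [h1, I_VLP.lif_apply η Q hms]
    have h2 : ∀ᵐ z ∂Q, (Measure.pi fun i : Fin n => η (z i)) {u | (fun i => π' (u i)) ∈ B} =
        B.indicator (fun _ => (1 : ℝ≥0∞)) z := by
      filter_upwards [p3] with z hz
      have h3 : ∀ᵐ u ∂(Measure.pi fun i : Fin n => η (z i)), (fun i => π' (u i)) = z := by
        filter_upwards [hz] with u hu
        funext i
        rw [hπe _ (hu i).1]
        exact (hu i).2
      by_cases hzB : z ∈ B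
      · rw [Set.indicator_of_mem hzB]
        have h4 : ∀ᵐ u ∂(Measure.pi fun i : Fin n => η (z i)),
            u ∈ {u : Fin n → O | (fun i => π' (u i)) ∈ B} := by
          filter_upwards [h3] with u hu
          show (fun i => π' (u i)) ∈ B
          rw [hu]
          exact hzB
        exact (mem_ae_iff_prob_eq_one hms).1 h4
      · rw [Set.indicator_of_notMem hzB]
        have h4 : ∀ᵐ u ∂(Measure.pi fun i : Fin n => η (z i)),
            u ∉ {u : Fin n → O | (fun i => π' (u i)) ∈ B} := by
          filter_upwards [h3] with u hu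
          show ¬ (fun i => π' (u i)) ∈ B
          rw [hu]
          exact hzB
        exact measure_eq_zero_iff_ae_notMem.2 h4
    rw [lintegral_congr_ae h2, lintegral_indicator hB]
    simp

end Pool.Agent.Work.MP_69fea5_lc.W3
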