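import Pool.Agent.Work.MP_69fea5_lc.W3.StmtsV2
import Pool.Agent.Work.MP_69fea5_lc.W3.I_LIF

set_option autoImplicit false

namespace Pool.Agent.Work.MP_69fea5_lc.W3

open MeasureTheory Topology Set Filter ProbabilityTheory TopologicalSpace
open scoped NNReal ENNReal
open Pool.Agent.Work.MP_69fea5_lc.AK
open Pool.Agent.Work.MP_69fea5_lc.HK (Cl DU Ar ArF ArR Dat Law LawC act near sc Pt oc Mn mr ext)

namespace I_VSH

theorem measurable_cns {O : Type} [MeasurableSpace O] {n : ℕ} (w : O) :
    Measurable fun u : Fin (n + 1) → O => cns w u := by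
  refine measurable_pi_iff.mpr fun i => ?_
  refine Fin.cases ?_ (fun j => ?_) i
  · exact measurable_const
  · exact measurable_pi_apply j.castSucc

theorem cns_comp {O X : Type} {n : ℕ} (π : O → X) (w : O) (u : Fin (n + 1) → O) :
    (fun i => π (cns w u i)) = cns (π w) fun j => π (u j) := by
  funext i
  refine Fin.cases ?_ (fun j => ?_) i
  · rfl
  · rfl

/-- an infimum argument -/
theorem ae_zero {Ω : Type} [MeasurableSpace Ω] (μ : Measure Ω) (φ : Ω → ℝ≥0∞)
    (f : ℕ → Ω → ℝ≥0∞) (hf : ∀ j, AEMeasurable (f j) μ) (hφ : ∀ j, ∀ᵐ w ∂μ, φ w ≤ f j w)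
    (h : ∀ j : ℕ, ∫⁻ w, f j w ∂μ ≤ ENNReal.ofReal (1 / ((j : ℝ) + 1))) : ∀ᵐ w ∂μ, φ w = 0 := by
  have h1 : ∫⁻ w, ⨅ j, f j w ∂μ = 0 := by
    have h2 : ∀ j : ℕ, ∫⁻ w, ⨅ j, f j w ∂μ ≤ ENNReal.ofReal (1 / ((j : ℝ) + 1)) := fun j =>
      (lintegral_mono fun w => iInf_le _ j).trans (h j)
    have h3 : Tendsto (fun j : ℕ => ENNReal.ofReal (1 / ((j : ℝ) + 1))) atTop (𝓝 0) := by
      have := ENNReal.tendsto_ofReal tendsto_one_div_add_atTop_nhds_zero_nat
      rwa [ENNReal.ofReal_zero] at this
    exact le_antisymm (ge_of_tendsto' h3 h2) bot_le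
  have h4 := (lintegral_eq_zero_iff' (AEMeasurable.iInf hf)).mp h1
  filter_upwards [h4, ae_all_iff.mpr hφ] with w hw hw2
  have h5 : φ w ≤ ⨅ j, f j w := le_iInf hw2
  rw [hw] at h5
  exact le_antisymm h5 bot_le

end I_VSH

open I_VSH in
/-- [VSH] shift invariance -/
theorem VSH_pf (hVLP : S_VLP) (hVST : S_VST) (hSHC : S_SHC) : S_VSH := by
  intro k n X _ _ _ _ M π lam μ η K hT hC hA R hR
  have := hT.mar
  obtain ⟨C, hdom⟩ := hC.dom
  have hM : MeasurableSet M := hT.min.closed.measurableSet
  have hMae : ∀ᵐ w ∂(μ : Measure (Om k)), w ∈ M := by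
    have h1 : (μ : Measure (Om k)) M = 1 := by
      rw [← ProbabilityMeasure.ennreal_coeFn_eq_coeFn_toMeasure, hT.one]
      rfl
    exact (prob_compl_eq_zero_iff (μ := (μ : Measure (Om k))) hM).mpr h1
  obtain ⟨w₀, hw₀⟩ := hT.min.ne
  -- a measurable map which agrees with `π` on `M`
  classical
  let πt : Om k → X := M.piecewise π fun _ => π w₀
  have hπt : Measurable πt := hT.cont.measurable_piecewise continuousOn_const hM
  have hπM : ∀ w ∈ M, πt w = π w := fun w hw => Set.piecewise_eq_of_mem _ _ _ hw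
  have hprob : ∀ v, IsProbabilityMeasure (lif η (K v : Measure (Fin (n + 1) → X))) := fun v =>
    (hVLP (Om k) X M π lam μ η hT (n + 1) (K v : Measure (Fin (n + 1) → X)) C (hdom v)).1
  have haeM : ∀ v, ∀ᵐ u ∂lif η (K v : Measure (Fin (n + 1) → X)), ∀ i, u i ∈ M := fun v =>
    (hVLP (Om k) X M π lam μ η hT (n + 1) (K v : Measure (Fin (n + 1) → X)) C
      (hdom v)).2.2.2.1
  have haeP : ∀ v, ∀ᵐ u ∂lif η (K v : Measure (Fin (n + 1) → X)),
      (Fin.cons v (fun i => π (u i)) : Fin (n + 2) → X) ∈ PG (n + 2) X := by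
    intro v
    have hcl : IsClosed (PG (n + 2) X) := isClosed_closure
    have hcont : Continuous fun z : Fin (n + 1) → X => (Fin.cons v z : Fin (n + 2) → X) := by
      refine continuous_pi fun i => ?_
      refine Fin.cases ?_ (fun j => ?_) i
      · exact continuous_const
      · exact continuous_apply j
    have hBm : MeasurableSet {z : Fin (n + 1) → X | (Fin.cons v z : Fin (n + 2) → X) ∈
        PG (n + 2) X} := (hcl.preimage hcont).measurableSet
    have h1 := (hVLP (Om k) X M π lam μ η hT (n + 1) (K v : Measure (Fin (n + 1) → X)) C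
      (hdom v)).2.2.2.2.1 _ hBm.compl
    have h2 : (K v : Measure (Fin (n + 1) → X)) {z : Fin (n + 1) → X |
        (Fin.cons v z : Fin (n + 2) → X) ∈ PG (n + 2) X}ᶜ = 0 := hC.car v
    rw [h2] at h1
    exact h1
  -- sets
  have hstep : ∀ ε : ℝ, 0 < ε → ∃ B : Set (Fin (n + 1) → Om k), MeasurableSet B ∧
      (∀ w ∈ M, lif η (K (π w) : Measure (Fin (n + 1) → X)) {u | cns w u ∈ B} ≤
        ENNReal.ofReal (4 * ε)) ∧
      ∀ w ∈ M, lif η (K (π w) : Measure (Fin (n + 1) → X)) {u | cns w u ∈ R ∧ u ∉ R} ≤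
        lif η (K (π w) : Measure (Fin (n + 1) → X)) {u | cns w u ∈ B} +
        lif η (K (π w) : Measure (Fin (n + 1) → X)) B := by
    intro ε hε
    obtain ⟨g, hg, hgA⟩ := hA R hR ε hε
    let G : (Fin (n + 1) → Om k) → ℝ := fun u => g fun i => πt (u i)
    have hGm : Measurable G := hg.cont.measurable.comp
      (measurable_pi_iff.mpr fun i => hπt.comp (measurable_pi_apply i))
    let D : (Fin (n + 1) → Om k) → ℝ := fun u => R.indicator (fun _ => (1 : ℝ)) u - G u
    have hDm : Measurable D :=
      (measurable_const.indicator hR.closed.measurableSet).sub hGm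
    have hD1 : ∀ u, |D u| ≤ 1 := by
      intro u
      obtain ⟨h1, h2⟩ := hg.bd fun i => πt (u i)
      change |R.indicator (fun _ => (1 : ℝ)) u - g fun i => πt (u i)| ≤ 1
      by_cases hu : u ∈ R
      · rw [indicator_of_mem hu, abs_le]
        constructor <;> linarith
      · rw [indicator_of_notMem hu, abs_le]
        constructor <;> linarith
    refine ⟨{u | 1 / 4 ≤ D u ^ 2}, measurableSet_le measurable_const (hDm.pow_const 2), ?_, ?_⟩
    · intro w hw
      have := hprob (π w)
      have h1 : ∫ u, D (cns w u) ^ 2 ∂lif η (K (π w) : Measure (Fin (n + 1) → X)) ≤ ε := by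
        refine le_trans (le_of_eq ?_) (hgA w hw)
        refine integral_congr_ae ?_
        filter_upwards [haeM (π w)] with u hu
        have h2 : (fun i => πt (cns w u i)) = cns (π w) fun j => π (u j) := by
          rw [cns_comp, hπM w hw]
          congr 1
          funext j
          exact hπM _ (hu j)
        change (R.indicator (fun _ => (1 : ℝ)) (cns w u) - g fun i => πt (cns w u i)) ^ 2 = _
        rw [h2]
      have hint : Integrable (fun u => D (cns w u) ^ 2)
          (lif η (K (π w) : Measure (Fin (n + 1) → X))) := by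
        refine Integrable.of_bound
          ((hDm.comp (measurable_cns w)).pow_const 2).aestronglyMeasurable 1 ?_
        refine Eventually.of_forall fun u => ?_
        rw [Real.norm_eq_abs, abs_of_nonneg (sq_nonneg _), ← sq_abs]
        have := hD1 (cns w u)
        nlinarith [abs_nonneg (D (cns w u))]
      have h2 := mul_meas_ge_le_integral_of_nonneg
        (Eventually.of_forall fun u => sq_nonneg (D (cns w u))) hint (1 / 4)
      have h3 : (lif η (K (π w) : Measure (Fin (n + 1) → X))).real
          {u | 1 / 4 ≤ D (cns w u) ^ 2} ≤ 4 * ε := by linarith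
      change lif η (K (π w) : Measure (Fin (n + 1) → X)) {u | 1 / 4 ≤ D (cns w u) ^ 2} ≤ _
      rw [← ofReal_measureReal]
      exact ENNReal.ofReal_le_ofReal h3
    · intro w hw
      have h1 : ∀ᵐ u ∂lif η (K (π w) : Measure (Fin (n + 1) → X)),
          u ∈ {u | cns w u ∈ R ∧ u ∉ R} → u ∈ {u | 1 / 4 ≤ D (cns w u) ^ 2} ∪
            {u | 1 / 4 ≤ D u ^ 2} := by
        filter_upwards [haeM (π w), haeP (π w)] with u hu hP hRu
        obtain ⟨hR1, hR2⟩ := hRu
        have h2 : (fun i => πt (cns w u i)) = cns (π w) fun j => π (u j) := by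
          rw [cns_comp, hπM w hw]
          congr 1
          funext j
          exact hπM _ (hu j)
        have h3 : (fun i => πt (u i)) = fun i => π (u i) := funext fun i => hπM _ (hu i)
        have h4 : D (cns w u) = 1 - g fun i => π (u i) := by
          change R.indicator (fun _ => (1 : ℝ)) (cns w u) - (g fun i => πt (cns w u i)) = _
          rw [h2, indicator_of_mem hR1, hSHC n X g hg (π w) _ hP]
        have h5 : D u = - g fun i => π (u i) := by
          change R.indicator (fun _ => (1 : ℝ)) u - (g fun i => πt (u i)) = _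
          rw [h3, indicator_of_notMem hR2, zero_sub]
        by_contra hcon
        rw [mem_union, not_or] at hcon
        obtain ⟨h6, h7⟩ := hcon
        rw [mem_ofPred_eq, not_le] at h6 h7
        rw [h4] at h6
        rw [h5] at h7
        nlinarith
      calc lif η (K (π w) : Measure (Fin (n + 1) → X)) {u | cns w u ∈ R ∧ u ∉ R}
          ≤ lif η (K (π w) : Measure (Fin (n + 1) → X))
              ({u | 1 / 4 ≤ D (cns w u) ^ 2} ∪ {u | 1 / 4 ≤ D u ^ 2}) := measure_mono_ae h1
        _ ≤ _ := measure_union_le _ _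
  choose! B hBm hB1 hB2 using hstep
  have hεpos : ∀ j : ℕ, (0 : ℝ) < 1 / (8 * ((j : ℝ) + 1)) := fun j => by positivity
  have hfin : ∀ᵐ w ∂(μ : Measure (Om k)),
      lif η (K (π w) : Measure (Fin (n + 1) → X)) {u | cns w u ∈ R ∧ u ∉ R} = 0 := by
    refine ae_zero (μ : Measure (Om k)) _
      (fun j w => ENNReal.ofReal (4 * (1 / (8 * ((j : ℝ) + 1)))) +
        lif η (K (π w) : Measure (Fin (n + 1) → X)) (B (1 / (8 * ((j : ℝ) + 1))))) ?_ ?_ ?_
    · intro j
      refine AEMeasurable.const_add ?_ _
      have h1 : Measurable fun w : Om k =>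
          ∫⁻ z, (Measure.pi fun i => η (z i)) (B (1 / (8 * ((j : ℝ) + 1))))
            ∂(K (πt w) : Measure (Fin (n + 1) → X)) := by
        have h2 : Measurable fun z : Fin (n + 1) → X =>
            (Measure.pi fun i => η (z i)) (B (1 / (8 * ((j : ℝ) + 1)))) :=
          (Measure.measurable_coe (hBm _ (hεpos j))).comp (I_LIF.measurable_pi η)
        exact (Measure.measurable_lintegral h2).comp
          (measurable_subtype_coe.comp (hC.kc.measurable.comp hπt))
      refine h1.aemeasurable.congr ?_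
      filter_upwards [hMae] with w hw
      rw [hπM w hw]
      exact (Measure.bind_apply (hBm _ (hεpos j)) (I_LIF.measurable_pi η).aemeasurable).symm
    · intro j
      filter_upwards [hMae] with w hw
      exact (hB2 _ (hεpos j) w hw).trans (add_le_add_left (hB1 _ (hεpos j) w hw) _)
    · intro j
      rw [lintegral_add_left measurable_const, lintegral_const, measure_univ, mul_one,
        ← hVST k n X M π lam μ η K hT hC _ (hBm _ (hεpos j))]
      have h1 : (∫⁻ w, (lif η (K (π w) : Measure (Fin (n + 1) → X)))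
          {u | cns w u ∈ B (1 / (8 * ((j : ℝ) + 1)))} ∂(μ : Measure (Om k))) ≤
          ENNReal.ofReal (4 * (1 / (8 * ((j : ℝ) + 1)))) := by
        refine le_trans (b := ∫⁻ _w, ENNReal.ofReal (4 * (1 / (8 * ((j : ℝ) + 1))))
          ∂(μ : Measure (Om k))) ?_ ?_
        · refine lintegral_mono_ae ?_
          filter_upwards [hMae] with w hw
          exact hB1 _ (hεpos j) w hw
        · rw [lintegral_const, measure_univ, mul_one]
      refine (add_le_add_right h1 _).trans ?_
      rw [← ENNReal.ofReal_add (by positivity) (by positivity)]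
      refine ENNReal.ofReal_le_ofReal (le_of_eq ?_)
      field_simp
      norm_num
  filter_upwards [hfin] with w hw
  have h1 := measure_eq_zero_iff_ae_notMem.mp hw
  filter_upwards [h1] with u hu h2
  by_contra h3
  exact hu ⟨h2, h3⟩

end Pool.Agent.Work.MP_69fea5_lc.W3
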