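import Pool.Agent.Work.MP_69fea5_lc.W3.StmtsV2

/-!
# [69fea5 V2 VWD] sections at points with the same position agree almost everywhere
-/

set_option autoImplicit false

namespace Pool.Agent.Work.MP_69fea5_lc.W3

open MeasureTheory Topology Set Filter ProbabilityTheory TopologicalSpace
open scoped NNReal ENNReal
open Pool.Agent.Work.MP_69fea5_lc.AK

namespace I_VWD

theorem continuous_cns {Y : Type} [TopologicalSpace Y] {n : ℕ} (w : Y) :
    Continuous fun u : Fin (n + 1) → Y => cns w u := by
  refine continuous_pi fun i => ?_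
  refine Fin.cases ?_ (fun j => ?_) i
  · simp only [cns, Fin.cons_zero]
    exact continuous_const
  · simp only [cns, Fin.cons_succ, Fin.init]
    exact continuous_apply _

/-- two indicators which are close to one function -/
theorem real_le {Ω : Type} [MeasurableSpace Ω] (κ : Measure Ω) [IsProbabilityMeasure κ]
    (A B : Set Ω) (hA : MeasurableSet A) (hB : MeasurableSet B) (h : Ω → ℝ)
    (hm : AEMeasurable h κ) (h01 : ∀ u, 0 ≤ h u ∧ h u ≤ 1) (ε : ℝ)
    (h1 : ∫ u, (A.indicator (fun _ => (1 : ℝ)) u - h u) ^ 2 ∂κ ≤ ε)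
    (h2 : ∫ u, (B.indicator (fun _ => (1 : ℝ)) u - h u) ^ 2 ∂κ ≤ ε) :
    κ.real (A \ B) ≤ 4 * ε := by
  have hi : ∀ C : Set Ω, MeasurableSet C →
      Integrable (fun u => (C.indicator (fun _ => (1 : ℝ)) u - h u) ^ 2) κ := by
    intro C hC
    refine Integrable.of_bound (C := 1) ?_ ?_
    · exact (((measurable_const.indicator hC).aemeasurable.sub hm).pow_const 2).aestronglyMeasurable
    · refine Eventually.of_forall fun u => ?_
      have h3 : 0 ≤ C.indicator (fun _ => (1 : ℝ)) u ∧ C.indicator (fun _ => (1 : ℝ)) u ≤ 1 := by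
        by_cases hu : u ∈ C
        · rw [indicator_of_mem hu]; norm_num
        · rw [indicator_of_notMem hu]; norm_num
      have h4 := h01 u
      rw [Real.norm_eq_abs, abs_of_nonneg (sq_nonneg _), sq_le_one_iff_abs_le_one, abs_le]
      constructor <;> linarith
  have h3 : κ.real (A \ B) = ∫ u, (A \ B).indicator (fun _ => (1 : ℝ)) u ∂κ := by
    rw [integral_indicator (hA.diff hB)]
    simp
  rw [h3]
  calc ∫ u, (A \ B).indicator (fun _ => (1 : ℝ)) u ∂κ
      ≤ ∫ u, (2 * (A.indicator (fun _ => (1 : ℝ)) u - h u) ^ 2 +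
        2 * (B.indicator (fun _ => (1 : ℝ)) u - h u) ^ 2) ∂κ := by
        refine integral_mono ?_ (((hi A hA).const_mul 2).add ((hi B hB).const_mul 2)) ?_
        · exact (integrable_const (1 : ℝ)).indicator (hA.diff hB)
        · intro u
          by_cases hu : u ∈ A \ B
          · rw [indicator_of_mem hu]
            change 1 ≤ 2 * (A.indicator (fun _ => (1 : ℝ)) u - h u) ^ 2 +
              2 * (B.indicator (fun _ => (1 : ℝ)) u - h u) ^ 2
            rw [indicator_of_mem hu.1, indicator_of_notMem hu.2]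
            nlinarith [sq_nonneg (1 - 2 * h u)]
          · rw [indicator_of_notMem hu]
            positivity
    _ = 2 * ∫ u, (A.indicator (fun _ => (1 : ℝ)) u - h u) ^ 2 ∂κ +
        2 * ∫ u, (B.indicator (fun _ => (1 : ℝ)) u - h u) ^ 2 ∂κ := by
        rw [integral_add ((hi A hA).const_mul 2) ((hi B hB).const_mul 2),
          integral_const_mul, integral_const_mul]
    _ ≤ 4 * ε := by linarith

end I_VWD

open I_VWD in
theorem VWD_pf (hVLP : S_VLP) : S_VWD := by
  intro k n X _ _ _ _ M π lam μ η K hT hC hA R hR w hw w' hw' hπ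
  obtain ⟨C, hdom⟩ := hC.dom
  obtain ⟨hprob, -, -, -, -, hae⟩ := hVLP (Om k) X M π lam μ η hT (n + 1)
    (K (π w) : Measure (Fin (n + 1) → X)) C (hdom (π w))
  have hAm : ∀ z : Om k, MeasurableSet {u : Fin (n + 1) → Om k | cns z u ∈ R} := fun z =>
    (hR.closed.preimage (continuous_cns z)).measurableSet
  have key : ∀ ε : ℝ, 0 < ε → (lif η (K (π w) : Measure (Fin (n + 1) → X))).real
      ({u | cns w u ∈ R} \ {u | cns w' u ∈ R}) ≤ 4 * ε := by
    intro ε hε
    obtain ⟨g, hg, hgw⟩ := hA R hR ε hε
    refine real_le (lif η (K (π w) : Measure (Fin (n + 1) → X))) _ _ (hAm w) (hAm w')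
      (fun u => g (cns (π w) fun j => π (u j))) ?_ (fun u => hg.bd _) ε (hgw w hw) ?_
    · exact (hg.cont.comp (continuous_cns (π w))).measurable.comp_aemeasurable hae
    · have h1 := hgw w' hw'
      rw [← hπ] at h1
      exact h1
  have h0 : (lif η (K (π w) : Measure (Fin (n + 1) → X))).real
      ({u | cns w u ∈ R} \ {u | cns w' u ∈ R}) = 0 := by
    refine le_antisymm (le_of_forall_pos_le_add fun ε hε => ?_) measureReal_nonneg
    have := key (ε / 4) (by linarith)
    linarith
  rw [measureReal_eq_zero_iff] at h0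
  exact h0

end Pool.Agent.Work.MP_69fea5_lc.W3
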