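import Pool.Agent.Work.MP_69fea5_lc.W3.StmtsV

/-! Item YYM: a minimal set of tuples over `(v₀, …, v₀)`. -/

set_option autoImplicit false

namespace Pool.Agent.Work.MP_69fea5_lc.W3

open MeasureTheory Topology Set Filter ProbabilityTheory
open scoped NNReal ENNReal
open Pool.Agent.Work.MP_69fea5_lc.AK

namespace I_YYM

/-- the positions of the points of a tuple -/
def Q (k n : ℕ) (B : Type) : TP n (B × PM k) → TP n B := fun y j => (y j : B × PM k).1

lemma Q_cont (k n : ℕ) (B : Type) [TopologicalSpace B] : Continuous (Q k n B) := by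
  have h : Continuous (fun (y : Fin n → B × PM k) (j : Fin n) => (y j).1) :=
    continuous_pi fun j => continuous_fst.comp (continuous_apply j)
  exact h

lemma Q_sh (k n : ℕ) (B : Type) [TopologicalSpace B] [Sys B] (m : ℤ) (y : TP n (B × PM k)) :
    Q k n B (sh m y) = sh m (Q k n B y) := rfl

end I_YYM

open I_YYM in
theorem YYM_pf (hZ : AK.S_ZORN) (hO : AK.S_ORB) : S_YYM := by
  intro k n B _ _ _ _ v₀ SS hSc hSi hSy hmin
  obtain ⟨y0, hy0, hy0'⟩ := hSy
  have hQ0 : Q k n B y0 = fun _ => v₀ := funext hy0'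
  obtain ⟨hOc, hOi, hOx, _⟩ := hO (TP n B) (fun _ => v₀)
  obtain ⟨D, hD⟩ : ∃ D : Set (TP n B), D = orb (X := TP n B) fun _ => v₀ := ⟨_, rfl⟩
  rw [← hD] at hOc hOi hOx hmin
  obtain ⟨L, hLK, hL⟩ := hZ (TP n (B × PM k)) (SS ∩ Q k n B ⁻¹' D)
    (hSc.inter (hOc.preimage (Q_cont k n B)))
    ⟨y0, hy0, mem_preimage.mpr (by
      rw [hQ0]
      exact hOx)⟩
    (fun m y hy => ⟨hSi m y hy.1, mem_preimage.mpr (by
      rw [Q_sh]
      exact hOi m _ hy.2)⟩)
  have him : Q k n B '' L = D := by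
    apply hmin.min
    · exact (hL.closed.isCompact.image (Q_cont k n B)).isClosed
    · exact hL.ne.image _
    · rintro m _ ⟨y, hy, rfl⟩
      exact ⟨sh m y, hL.inv m y hy, Q_sh k n B m y⟩
    · rintro _ ⟨y, hy, rfl⟩
      exact (hLK hy).2
  have h1 : (fun _ => v₀ : TP n B) ∈ Q k n B '' L := by
    rw [him]
    exact hOx
  obtain ⟨y, hy, hyq⟩ := h1
  exact ⟨L, hL, fun y hy => (hLK hy).1, y, hy, fun j => congrFun hyq j⟩

end Pool.Agent.Work.MP_69fea5_lc.W3
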