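import Pool.Agent.Work.MP_69fea5_lc.W3.StmtsV

/-!
# [69fea5 V ZOC] the zones of Case II
-/

set_option autoImplicit false

namespace Pool.Agent.Work.MP_69fea5_lc.W3

open MeasureTheory Topology Set Filter ProbabilityTheory
open scoped NNReal ENNReal
open Pool.Agent.Work.MP_69fea5_lc.AK
open Pool.Agent.Work.MP_69fea5_lc.HK (Cl DU Ar ArF ArR Dat Law LawC act near sc Pt oc Mn mr ext)

namespace I_ZOC

/-- the set of the sequences with the letter `r` at the place `0` is clopen -/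
theorem clopen_letter {k : ℕ} (r : Fin k) : IsClopen {z : Om k | z 0 = r} :=
  (isClopen_discrete ({r} : Set (Fin k))).preimage (continuous_apply (0 : ℤ))

/-- the projection to a coordinate, with values in the power of the system -/
def prj {n : ℕ} {X : Type} (j : Fin n) (y : TP n X) : PW ((j : ℕ) + 1 : ℤ) X := y j

theorem prj_cont {n : ℕ} {X : Type} [TopologicalSpace X] (j : Fin n) :
    Continuous (prj (X := X) j) := by
  have h : Continuous (fun y : Fin n → X => y j) := continuous_apply j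
  exact h

theorem prj_sh {n : ℕ} {X : Type} [TopologicalSpace X] [Sys X] (j : Fin n) (m : ℤ)
    (y : TP n X) : prj j (sh m y) = sh m (prj j y) := rfl

end I_ZOC

open I_ZOC in
theorem ZOC_pf (hPWC : S_PWC) (hFCB : S_FCB) (hIMG : AK.S_IMG) (hSEMI : AK.S_SEMI)
    (hPMB : AK.S_PMB) : S_ZOC := by
  intro k n B _ _ _ _ Y YY v₀ hY hYY hsub hz hbase r U hU
  classical
  obtain ⟨y0, hy0, hv⟩ := hbase
  -- the open set
  set O : Set (TP n (B × PM k)) := {y | ∀ j : Fin n, (y j : B × PM k).1 ∈ interior U} with hOdef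
  have hO : IsOpen O := by
    have h1 : O = ⋂ j : Fin n, {y : TP n (B × PM k) | (y j : B × PM k).1 ∈ interior U} := by
      ext y
      simp [hOdef]
    rw [h1]
    refine isOpen_iInter_of_finite fun j => ?_
    have h2 : Continuous (fun y : TP n (B × PM k) => (y j : B × PM k).1) :=
      continuous_fst.comp (prj_cont (X := B × PM k) j)
    exact isOpen_interior.preimage h2
  have hOne : (O ∩ YY).Nonempty := by
    refine ⟨y0, fun j => ?_, hy0⟩
    rw [hv j]
    exact mem_interior_iff_mem_nhds.2 hU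
  -- the closed sets
  let F : (Fin k → Fin n) → Set (TP n (B × PM k)) := fun f =>
    {y | ∀ r : Fin k, (y (f r) : B × PM k).2 {z | z 0 = r} = 0}
  have hF : ∀ f, IsClosed (F f) := by
    intro f
    have h1 : F f = ⋂ r : Fin k,
        {y : TP n (B × PM k) | (y (f r) : B × PM k).2 {z | z 0 = r} = 0} := by
      ext y
      simp [F]
    rw [h1]
    refine isClosed_iInter fun s => ?_
    have h2 : Continuous (fun y : TP n (B × PM k) => (y (f s) : B × PM k).2 {z | z 0 = s}) :=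
      ((hPMB k).2.2.1 _ (clopen_letter s)).comp
        (continuous_snd.comp (prj_cont (X := B × PM k) (f s)))
    exact isClosed_singleton.preimage h2
  have hcov : O ∩ YY ⊆ ⋃ f, F f := by
    rintro y ⟨-, hy⟩
    choose f hf using hz y hy
    exact mem_iUnion.2 ⟨f, hf⟩
  obtain ⟨f, O', hO', hO'ne, hO'sub⟩ := hFCB (TP n (B × PM k)) (Fin k → Fin n) YY O F hO hOne hF hcov
  -- the coordinate
  set j : Fin n := f r with hj
  have ha : (0 : ℤ) < ((j : ℕ) + 1 : ℤ) := by positivity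
  have hc : ContinuousOn (prj (X := B × PM k) j) YY := (prj_cont j).continuousOn
  have he : ∀ (m : ℤ), ∀ y ∈ YY, prj (X := B × PM k) j (sh m y) = sh m (prj j y) :=
    fun m y _ => prj_sh j m y
  have hK : MinSet (X := PW ((j : ℕ) + 1 : ℤ) (B × PM k)) (prj j '' YY) :=
    hIMG (TP n (B × PM k)) (PW ((j : ℕ) + 1 : ℤ) (B × PM k)) YY (prj j) hYY hc he
  obtain ⟨O1, hO1, hKO⟩ := hPWC (B × PM k) Y hY ((j : ℕ) + 1 : ℤ) ha (prj j '' YY)
    (by
      rintro _ ⟨y, hy, rfl⟩
      exact hsub y hy j) hK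
  obtain ⟨V, hV, hVne, hVsub⟩ := hSEMI (TP n (B × PM k)) (PW ((j : ℕ) + 1 : ℤ) (B × PM k)) YY
    (prj j) hYY hc he O' hO' hO'ne
  obtain ⟨y, hyV, hyK⟩ := hVne
  have hyK' : y ∈ O1 ∩ Y := hKO.le hyK
  refine ⟨y, hyK'.2, ?_, ?_⟩
  · obtain ⟨u, hu, hue⟩ := hVsub ⟨hyV, hyK⟩
    have h1 := (hO'sub hu).1 j
    have h2 : (u j : B × PM k) = y := hue
    rw [h2] at h1
    exact interior_subset h1
  · refine ⟨(V : Set (B × PM k)) ∩ O1, ?_, ?_⟩
    · exact Filter.inter_mem (hV.mem_nhds hyV) (hO1.mem_nhds hyK'.1)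
    · rintro y' ⟨hy'Y, hy'V, hy'O⟩
      have hy'K : y' ∈ prj (X := B × PM k) j '' YY := hKO.ge ⟨hy'O, hy'Y⟩
      obtain ⟨u, hu, hue⟩ := hVsub ⟨hy'V, hy'K⟩
      have h1 := (hO'sub hu).2 r
      have h2 : (u j : B × PM k) = y' := hue
      rw [← h2]
      exact h1

end Pool.Agent.Work.MP_69fea5_lc.W3
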