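import Pool.Agent.Work.MP_69fea5_lc.W3.StmtsV
import Pool.Agent.Work.MP_69fea5_lc.N3.I_SMC

/-!
# Block [69fea5 W4], part V, item ZRB: zones over a graph are robust
-/

set_option autoImplicit false

namespace Pool.Agent.Work.MP_69fea5_lc.W3

open MeasureTheory Topology Set Filter ProbabilityTheory
open scoped NNReal ENNReal
open Pool.Agent.Work.MP_69fea5_lc.AK
open Pool.Agent.Work.MP_69fea5_lc.HK (Cl DU Ar ArF ArR Dat Law LawC act near sc Pt oc Mn mr ext)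

theorem ZRB_pf (hORB : AK.S_ORB) (hAAB : AK.S_AAB) : S_ZRB := by
  intro k B _ _ _ _ Γ v₀ m₁ r hΓ hgr hm₁ hY y hy hZ
  set Y : Set (B × PM k) := orb (v₀, m₁) with hYdef
  obtain ⟨-, -, hAc, hAi, -⟩ := hAAB k B Γ hΓ
  obtain ⟨hOc, hOi, hOm, hOs, -, -, -⟩ := hORB (B × PM k) (v₀, m₁)
  have hYA : Y ⊆ AA Γ := hOs _ hAc hAi hm₁
  have hclo : ∀ v : B, IsClosed {z : Om k | (z, v) ∈ Γ} := fun v =>
    hΓ.closed.preimage (continuous_id.prodMk continuous_const)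
  -- the position is a function of the measure
  have hinj : ∀ v v' : B, ∀ m : PM k, (v, m) ∈ Y → (v', m) ∈ Y → v = v' := by
    intro v v' m h1 h2
    have e1 : m {z | (z, v) ∈ Γ} = 1 := (hYA h1).1
    have e2 : m {z | (z, v') ∈ Γ} = 1 := (hYA h2).1
    obtain ⟨z, hz1, hz2⟩ := N3.I_SMC.inter_ne m (hclo v').measurableSet e1 e2
    exact hgr z v v' hz1 hz2
  obtain ⟨v, m⟩ := y
  obtain ⟨V, hV, hVr⟩ := hZ
  obtain ⟨V', hV'V, hV'o, hV'm⟩ := mem_nhds_iff.1 hV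
  have hKc : IsCompact (Y \ V') := (hOc.isCompact).diff hV'o
  have hK : IsClosed (Prod.snd '' (Y \ V')) := (hKc.image continuous_snd).isClosed
  have hYc : IsClosed (Prod.snd '' Y) := (hOc.isCompact.image continuous_snd).isClosed
  refine ⟨(Prod.snd '' (Y \ V'))ᶜ, hK.isOpen_compl.mem_nhds ?_, ?_⟩
  · rintro ⟨⟨v', m'⟩, ⟨h1, h2⟩, h3⟩
    have h3' : m' = m := h3
    subst h3'
    have h4 := hinj v v' m' hy h1
    subst h4
    exact h2 hV'm
  · intro m' hm' hmU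
    have hsnd : orb m ⊆ Prod.snd '' Y := by
      refine (hORB (PM k) m).2.2.2.1 _ hYc ?_ ⟨_, hy, rfl⟩
      rintro n _ ⟨p, hp, rfl⟩
      exact ⟨sh n p, hOi n p hp, rfl⟩
    obtain ⟨⟨v', m''⟩, hp, h3⟩ := hsnd hm'
    have h3' : m'' = m' := h3
    subst h3'
    have hin : (v', m'') ∈ V' := by
      by_contra hn
      exact hmU ⟨(v', m''), ⟨hp, hn⟩, rfl⟩
    have h5 := hVr (v', m'') ⟨hp, hV'V hin⟩
    have h6 : {z : Om k | z 0 ∉ Finset.univ.erase r} = {z : Om k | z 0 = r} := by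
      ext z
      simp
    rw [h6]
    exact h5

end Pool.Agent.Work.MP_69fea5_lc.W3
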