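import Pool.Agent.Work.MP_69fea5_lc.W3.StmtsV

/-!
# Block [69fea5 W4], part V, item ZST: the stage from the zones
-/

set_option autoImplicit false

namespace Pool.Agent.Work.MP_69fea5_lc.W3

open MeasureTheory Topology Set Filter ProbabilityTheory
open scoped NNReal ENNReal
open Pool.Agent.Work.MP_69fea5_lc.AK
open Pool.Agent.Work.MP_69fea5_lc.HK (Cl DU Ar ArF ArR Dat Law LawC act near sc Pt oc Mn mr ext)

namespace I_ZST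

/-- the second coordinates of an orbit closure -/
theorem snd_orb {A B : Type} [TopologicalSpace A] [Sys A] [TopologicalSpace B] [Sys B]
    {a a' : A} {b b' : B} (h : (a', b') ∈ orb (a, b)) : b' ∈ orb b := by
  have h1 : b' ∈ Prod.snd '' closure (Set.range fun n : ℤ => sh n (a, b)) := ⟨_, h, rfl⟩
  have h2 := image_closure_subset_closure_image (f := (Prod.snd : A × B → B)) continuous_snd h1
  refine closure_mono ?_ h2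
  rintro _ ⟨_, ⟨n, rfl⟩, rfl⟩
  exact ⟨n, rfl⟩

end I_ZST

theorem ZST_pf (hORB : AK.S_ORB) (hAAB : AK.S_AAB) (hGLX : AK.S_GLX) (hGLM : AK.S_GLM)
    (hGLO : AK.S_GLO) (hZRB : S_ZRB) : S_ZST := by
  intro k B _ _ _ _ Γ c v₀ m₁ m₀ r hΓ hgr hΓo hm₁ hY hm₀ hcl
  set Y : Set (B × PM k) := orb (v₀, m₁) with hYdef
  obtain ⟨-, -, hAc, hAi, -⟩ := hAAB k B Γ hΓ
  obtain ⟨hOc, hOi, hOm, hOs, -, -, -⟩ := hORB (B × PM k) (v₀, m₁)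
  have hYA : Y ⊆ AA Γ := hOs _ hAc hAi hm₁
  obtain ⟨M', hM', hM's⟩ := (hGLX k B Γ Y hΓ hY hYA).1
  obtain ⟨hmin, -⟩ := hGLM k B Γ Y M' hΓ hY hYA hM' hM's (v₀, m₀) hm₀
  refine ⟨hmin, hGLO k B Γ Y c v₀ m₀ hΓ hY hYA hm₀ hΓo, ?_⟩
  intro U hU
  obtain ⟨U', hU'U, hU'o, hU'm⟩ := mem_nhds_iff.1 hU
  -- a point of a zone
  have h1 : {p : B × PM k | p.2 ∈ U'} ∈ 𝓝 (v₀, m₀) :=
    (hU'o.preimage continuous_snd).mem_nhds hU'm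
  obtain ⟨⟨v, m⟩, hmU, hyY, hyZ⟩ := mem_closure_iff_nhds.1 hcl _ h1
  have hmU' : m ∈ U' := hmU
  have hRb := hZRB k B Γ v₀ m₁ r hΓ hgr hm₁ hY (v, m) hyY hyZ
  obtain ⟨W, hW, hWr⟩ := hRb
  obtain ⟨W', hW'W, hW'o, hW'm⟩ := mem_nhds_iff.1 hW
  -- orbit closures
  have e0 : orb (v₀, m₀) = Y := (hORB (B × PM k) (v₀, m₀)).2.2.2.2.1 Y hY hm₀
  have e1 : orb (v, m) = Y := (hORB (B × PM k) (v, m)).2.2.2.2.1 Y hY hyY
  have hm_in : m ∈ orb m₀ := I_ZST.snd_orb (a := v₀) (a' := v) (by rw [e0]; exact hyY)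
  have hm0_in : m₀ ∈ orb m := I_ZST.snd_orb (a := v) (a' := v₀) (by rw [e1]; exact hm₀)
  have hsub : orb m₀ ⊆ orb m :=
    (hORB (PM k) m₀).2.2.2.1 _ (hORB (PM k) m).1 (hORB (PM k) m).2.1 hm0_in
  have h2 : U' ∩ W' ∈ 𝓝 m := (hU'o.inter hW'o).mem_nhds ⟨hmU', hW'm⟩
  obtain ⟨_, ⟨hnU, hnW⟩, n, rfl⟩ := mem_closure_iff_nhds.1 hm_in _ h2
  refine ⟨n, hU'U hnU, W', hW'o.mem_nhds hnW, ?_⟩
  intro m' hm' hm'W
  rw [(hORB (PM k) m₀).2.2.2.2.2.2 n] at hm'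
  exact hWr m' (hsub hm') (hW'W hm'W)

end Pool.Agent.Work.MP_69fea5_lc.W3
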