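import Pool.Agent.Work.MP_69fea5_lc.AK.I_AAB
import Pool.Agent.Work.MP_69fea5_lc.AK.I_CLP
import Pool.Agent.Work.MP_69fea5_lc.AK.I_CST
import Pool.Agent.Work.MP_69fea5_lc.AK.I_CYL
import Pool.Agent.Work.MP_69fea5_lc.AK.I_ENG
import Pool.Agent.Work.MP_69fea5_lc.AK.I_GL
import Pool.Agent.Work.MP_69fea5_lc.AK.I_GLM
import Pool.Agent.Work.MP_69fea5_lc.AK.I_GLO
import Pool.Agent.Work.MP_69fea5_lc.AK.I_GLX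
import Pool.Agent.Work.MP_69fea5_lc.AK.I_IMG
import Pool.Agent.Work.MP_69fea5_lc.AK.I_MMB
import Pool.Agent.Work.MP_69fea5_lc.AK.I_OMG
import Pool.Agent.Work.MP_69fea5_lc.AK.I_ORB
import Pool.Agent.Work.MP_69fea5_lc.AK.I_PMB
import Pool.Agent.Work.MP_69fea5_lc.AK.I_PRX
import Pool.Agent.Work.MP_69fea5_lc.AK.I_SEMI
import Pool.Agent.Work.MP_69fea5_lc.AK.I_STG
import Pool.Agent.Work.MP_69fea5_lc.AK.I_SUP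
import Pool.Agent.Work.MP_69fea5_lc.AK.I_USC
import Pool.Agent.Work.MP_69fea5_lc.AK.I_ZORN
import Pool.Agent.Work.MP_69fea5_lc.KC.I_CON
import Pool.Agent.Work.MP_69fea5_lc.KC.I_CONF
import Pool.Agent.Work.MP_69fea5_lc.KC.I_CYSC
import Pool.Agent.Work.MP_69fea5_lc.KC.I_KRB
import Pool.Agent.Work.MP_69fea5_lc.N3.I_GDT
import Pool.Agent.Work.MP_69fea5_lc.N3.I_GSL
import Pool.Agent.Work.MP_69fea5_lc.N3.I_USG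
import Pool.Agent.Work.MP_69fea5_lc.W3.I_AAN
import Pool.Agent.Work.MP_69fea5_lc.W3.I_AVD
import Pool.Agent.Work.MP_69fea5_lc.W3.I_BCF
import Pool.Agent.Work.MP_69fea5_lc.W3.I_BCX
import Pool.Agent.Work.MP_69fea5_lc.W3.I_BLX
import Pool.Agent.Work.MP_69fea5_lc.W3.I_BRB
import Pool.Agent.Work.MP_69fea5_lc.W3.I_BRC
import Pool.Agent.Work.MP_69fea5_lc.W3.I_BRX
import Pool.Agent.Work.MP_69fea5_lc.W3.I_CTR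
import Pool.Agent.Work.MP_69fea5_lc.W3.I_ENV
import Pool.Agent.Work.MP_69fea5_lc.W3.I_FAM
import Pool.Agent.Work.MP_69fea5_lc.W3.I_FCB
import Pool.Agent.Work.MP_69fea5_lc.W3.I_FDL
import Pool.Agent.Work.MP_69fea5_lc.W3.I_FSD
import Pool.Agent.Work.MP_69fea5_lc.W3.I_FTI
import Pool.Agent.Work.MP_69fea5_lc.W3.I_FTJ
import Pool.Agent.Work.MP_69fea5_lc.W3.I_FTP
import Pool.Agent.Work.MP_69fea5_lc.W3.I_GCT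
import Pool.Agent.Work.MP_69fea5_lc.W3.I_GNB
import Pool.Agent.Work.MP_69fea5_lc.W3.I_GSM
import Pool.Agent.Work.MP_69fea5_lc.W3.I_GTR
import Pool.Agent.Work.MP_69fea5_lc.W3.I_GUS
import Pool.Agent.Work.MP_69fea5_lc.W3.I_JCT
import Pool.Agent.Work.MP_69fea5_lc.W3.I_KZC
import Pool.Agent.Work.MP_69fea5_lc.W3.I_LAA
import Pool.Agent.Work.MP_69fea5_lc.W3.I_LBL
import Pool.Agent.Work.MP_69fea5_lc.W3.I_LEK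
import Pool.Agent.Work.MP_69fea5_lc.W3.I_LFT
import Pool.Agent.Work.MP_69fea5_lc.W3.I_LGR
import Pool.Agent.Work.MP_69fea5_lc.W3.I_LIF
import Pool.Agent.Work.MP_69fea5_lc.W3.I_LSC
import Pool.Agent.Work.MP_69fea5_lc.W3.I_PMG
import Pool.Agent.Work.MP_69fea5_lc.W3.I_PRD
import Pool.Agent.Work.MP_69fea5_lc.W3.I_PWC
import Pool.Agent.Work.MP_69fea5_lc.W3.I_RHC
import Pool.Agent.Work.MP_69fea5_lc.W3.I_RHS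
import Pool.Agent.Work.MP_69fea5_lc.W3.I_RIM
import Pool.Agent.Work.MP_69fea5_lc.W3.I_SEO
import Pool.Agent.Work.MP_69fea5_lc.W3.I_SGC
import Pool.Agent.Work.MP_69fea5_lc.W3.I_SGD
import Pool.Agent.Work.MP_69fea5_lc.W3.I_SGF
import Pool.Agent.Work.MP_69fea5_lc.W3.I_SHC
import Pool.Agent.Work.MP_69fea5_lc.W3.I_SPE
import Pool.Agent.Work.MP_69fea5_lc.W3.I_SPM
import Pool.Agent.Work.MP_69fea5_lc.W3.I_TBX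
import Pool.Agent.Work.MP_69fea5_lc.W3.I_TSC
import Pool.Agent.Work.MP_69fea5_lc.W3.I_ULT
import Pool.Agent.Work.MP_69fea5_lc.W3.I_VBR
import Pool.Agent.Work.MP_69fea5_lc.W3.I_VC2
import Pool.Agent.Work.MP_69fea5_lc.W3.I_VGH
import Pool.Agent.Work.MP_69fea5_lc.W3.I_VLE
import Pool.Agent.Work.MP_69fea5_lc.W3.I_VLP
import Pool.Agent.Work.MP_69fea5_lc.W3.I_VSH
import Pool.Agent.Work.MP_69fea5_lc.W3.I_VST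
import Pool.Agent.Work.MP_69fea5_lc.W3.I_VWD
import Pool.Agent.Work.MP_69fea5_lc.W3.I_YYM
import Pool.Agent.Work.MP_69fea5_lc.W3.I_ZOC
import Pool.Agent.Work.MP_69fea5_lc.W3.I_ZRB
import Pool.Agent.Work.MP_69fea5_lc.W3.I_ZST

/-!
Block [69fea5]: assembly (generated).
-/

set_option autoImplicit false

namespace Pool.Agent.Work.MP_69fea5_lc

theorem W3.FTP_main  : W3.S_FTP := by
  have h_AK_S_CYL : AK.S_CYL := AK.CYL_pf 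
  have h_AK_S_PMB : AK.S_PMB := AK.PMB_pf h_AK_S_CYL
  have h_AK_S_CLP : AK.S_CLP := AK.CLP_pf h_AK_S_CYL
  have h_AK_S_USC : AK.S_USC := AK.USC_pf h_AK_S_PMB h_AK_S_CLP
  have h_AK_S_ENG : AK.S_ENG := AK.ENG_pf h_AK_S_CYL h_AK_S_PMB
  have h_AK_S_AAB : AK.S_AAB := AK.AAB_pf h_AK_S_PMB h_AK_S_USC h_AK_S_ENG
  have h_AK_S_ORB : AK.S_ORB := AK.ORB_pf 
  have h_AK_S_IMG : AK.S_IMG := AK.IMG_pf 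
  have h_W3_S_LGR : W3.S_LGR := W3.LGR_pf h_AK_S_IMG
  have h_W3_S_PMG : W3.S_PMG := W3.PMG_pf 
  have h_W3_S_BRX : W3.S_BRX := W3.BRX_pf 
  have h_W3_S_FDL : W3.S_FDL := W3.FDL_pf h_W3_S_PMG h_W3_S_BRX
  have h_W3_S_SEO : W3.S_SEO := W3.SEO_pf 
  have h_W3_S_BRC : W3.S_BRC := W3.BRC_pf 
  have h_W3_S_FSD : W3.S_FSD := W3.FSD_pf 
  have h_W3_S_LFT : W3.S_LFT := W3.LFT_pf h_W3_S_PMG h_W3_S_FSD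
  have h_W3_S_BRB : W3.S_BRB := W3.BRB_pf h_W3_S_PMG h_W3_S_LFT h_W3_S_BRX h_W3_S_BRC
  have h_W3_S_FAM : W3.S_FAM := W3.FAM_pf h_W3_S_PMG h_W3_S_BRC h_W3_S_BRB
  have h_W3_S_ENV : W3.S_ENV := W3.ENV_pf h_W3_S_BRX
  have h_W3_S_AAN : W3.S_AAN := W3.AAN_pf h_W3_S_FAM h_W3_S_ENV
  have h_W3_S_PRD : W3.S_PRD := W3.PRD_pf 
  have h_W3_S_SPE : W3.S_SPE := W3.SPE_pf h_W3_S_PMG h_W3_S_PRD h_W3_S_BRX h_W3_S_BRC h_W3_S_FAM h_W3_S_ENV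
  have h_W3_S_LAA : W3.S_LAA := W3.LAA_pf h_AK_S_ORB h_W3_S_FDL h_W3_S_SEO h_W3_S_AAN h_W3_S_SPE h_W3_S_LGR
  have h_AK_S_ZORN : AK.S_ZORN := AK.ZORN_pf 
  have h_W3_S_BCX : W3.S_BCX := W3.BCX_pf h_AK_S_ZORN
  have h_W3_S_ULT : W3.S_ULT := W3.ULT_pf 
  have h_W3_S_JCT : W3.S_JCT := W3.JCT_pf h_W3_S_ULT
  have h_W3_S_BCF : W3.S_BCF := W3.BCF_pf h_W3_S_ULT h_W3_S_JCT
  have h_N3_S_USG : N3.S_USG := N3.USG_pf 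
  have h_AK_S_CST : AK.S_CST := AK.CST_pf 
  have h_W3_S_CTR : W3.S_CTR := W3.CTR_pf h_W3_S_PMG h_W3_S_PRD h_W3_S_LFT h_W3_S_JCT h_N3_S_USG h_AK_S_CST
  have h_W3_S_RIM : W3.S_RIM := W3.RIM_pf h_W3_S_BCF h_W3_S_CTR
  have h_W3_S_BLX : W3.S_BLX := W3.BLX_pf h_W3_S_JCT
  have h_W3_S_LBL : W3.S_LBL := W3.LBL_pf h_W3_S_BCX h_W3_S_RIM h_W3_S_BLX h_W3_S_LGR
  have h_W3_S_LEK : W3.S_LEK := W3.LEK_pf h_W3_S_LBL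
  have h_W3_S_VBR : W3.S_VBR := W3.VBR_pf h_W3_S_LEK
  have h_W3_S_YYM : W3.S_YYM := W3.YYM_pf h_AK_S_ZORN h_AK_S_ORB
  have h_W3_S_PWC : W3.S_PWC := W3.PWC_pf 
  have h_W3_S_FCB : W3.S_FCB := W3.FCB_pf 
  have h_AK_S_SEMI : AK.S_SEMI := AK.SEMI_pf 
  have h_W3_S_ZOC : W3.S_ZOC := W3.ZOC_pf h_W3_S_PWC h_W3_S_FCB h_AK_S_IMG h_AK_S_SEMI h_AK_S_PMB
  have h_W3_S_VLP : W3.S_VLP := W3.VLP_pf 
  have h_W3_S_VLE : W3.S_VLE := W3.VLE_pf 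
  have h_W3_S_RHC : W3.S_RHC := W3.RHC_pf 
  have h_W3_S_RHS : W3.S_RHS := W3.RHS_pf h_AK_S_PMB h_W3_S_VLP h_W3_S_VLE h_W3_S_RHC
  have h_W3_S_VC2 : W3.S_VC2 := W3.VC2_pf h_W3_S_YYM h_W3_S_ZOC h_W3_S_RHS
  have h_W3_S_LIF : W3.S_LIF := W3.LIF_pf 
  have h_W3_S_LSC : W3.S_LSC := W3.LSC_pf h_W3_S_LIF
  have h_W3_S_VWD : W3.S_VWD := W3.VWD_pf h_W3_S_VLP
  have h_W3_S_VST : W3.S_VST := W3.VST_pf 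
  have h_W3_S_SHC : W3.S_SHC := W3.SHC_pf 
  have h_W3_S_VSH : W3.S_VSH := W3.VSH_pf h_W3_S_VLP h_W3_S_VST h_W3_S_SHC
  have h_W3_S_VGH : W3.S_VGH := W3.VGH_pf h_W3_S_LSC h_W3_S_VLP h_W3_S_VLE h_W3_S_VWD h_W3_S_VSH
  have h_W3_S_SPM : W3.S_SPM := W3.SPM_pf 
  have h_W3_S_AVD : W3.S_AVD := W3.AVD_pf 
  have h_W3_S_TBX : W3.S_TBX := W3.TBX_pf h_AK_S_CYL
  have h_W3_S_TSC : W3.S_TSC := W3.TSC_pf 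
  have h_W3_S_GUS : W3.S_GUS := W3.GUS_pf h_W3_S_TBX h_W3_S_TSC h_AK_S_CST
  have h_W3_S_GTR : W3.S_GTR := W3.GTR_pf h_W3_S_TBX h_W3_S_TSC h_W3_S_AVD h_W3_S_GUS
  have h_W3_S_GNB : W3.S_GNB := W3.GNB_pf h_W3_S_SPM h_W3_S_AVD h_W3_S_GUS h_W3_S_GTR
  have h_W3_S_GSM : W3.S_GSM := W3.GSM_pf 
  have h_W3_S_GCT : W3.S_GCT := W3.GCT_pf h_W3_S_GSM
  have h_W3_S_FTI : W3.S_FTI := W3.FTI_pf h_W3_S_VGH h_W3_S_GNB h_W3_S_GCT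
  have h_W3_S_ZRB : W3.S_ZRB := W3.ZRB_pf h_AK_S_ORB h_AK_S_AAB
  have h_AK_S_GLX : AK.S_GLX := AK.GLX_pf h_AK_S_ZORN h_AK_S_IMG
  have h_AK_S_SUP : AK.S_SUP := AK.SUP_pf h_AK_S_CYL h_AK_S_PMB
  have h_AK_S_MMB : AK.S_MMB := AK.MMB_pf 
  have h_AK_S_PRX : AK.S_PRX := AK.PRX_pf h_AK_S_ENG
  have h_AK_S_GL : AK.S_GL := AK.GL_pf h_AK_S_CST h_AK_S_CYL h_AK_S_PMB h_AK_S_USC h_AK_S_CLP h_AK_S_ENG h_AK_S_AAB h_AK_S_PRX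
  have h_AK_S_GLM : AK.S_GLM := AK.GLM_pf h_AK_S_IMG h_AK_S_SUP h_AK_S_MMB h_AK_S_GL
  have h_AK_S_OMG : AK.S_OMG := AK.OMG_pf 
  have h_AK_S_GLO : AK.S_GLO := AK.GLO_pf h_AK_S_OMG h_AK_S_ENG h_AK_S_PRX h_AK_S_GLX h_AK_S_GLM
  have h_W3_S_ZST : W3.S_ZST := W3.ZST_pf h_AK_S_ORB h_AK_S_AAB h_AK_S_GLX h_AK_S_GLM h_AK_S_GLO h_W3_S_ZRB
  have h_KC_S_KRB : KC.S_KRB := KC.KRB_pf h_AK_S_CYL h_AK_S_PMB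
  have h_KC_S_CON : KC.S_CON := KC.CON_pf 
  have h_KC_S_CONF : KC.S_CONF := KC.CONF_pf 
  have h_KC_S_CYSC : KC.S_CYSC := KC.CYSC_pf h_KC_S_CON h_KC_S_CONF
  have h_W3_S_SGC : W3.S_SGC := W3.SGC_pf h_KC_S_KRB h_KC_S_CYSC
  have h_W3_S_KZC : W3.S_KZC := W3.KZC_pf h_W3_S_ZRB h_W3_S_ZST h_W3_S_SGC
  have h_N3_S_GSL : N3.S_GSL := N3.GSL_pf 
  have h_N3_S_GDT : N3.S_GDT := N3.GDT_pf 
  have h_AK_S_STG : AK.S_STG := AK.STG_pf h_AK_S_ORB h_AK_S_OMG h_AK_S_IMG h_AK_S_PMB h_AK_S_USC h_AK_S_SUP h_AK_S_MMB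
  have h_W3_S_SGD : W3.S_SGD := W3.SGD_pf h_N3_S_GDT h_AK_S_STG h_AK_S_SUP h_AK_S_MMB
  have h_W3_S_SGF : W3.S_SGF := W3.SGF_pf h_N3_S_GSL h_W3_S_SGD h_W3_S_SGC
  have h_W3_S_FTJ : W3.S_FTJ := W3.FTJ_pf h_AK_S_IMG h_AK_S_ORB h_W3_S_KZC h_W3_S_SGF
  have h_W3_S_FTP : W3.S_FTP := W3.FTP_pf h_AK_S_AAB h_AK_S_ORB h_W3_S_LGR h_W3_S_LAA h_W3_S_VBR h_W3_S_VC2 h_W3_S_FTI h_W3_S_FTJ
  exact h_W3_S_FTP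

end Pool.Agent.Work.MP_69fea5_lc
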