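import Pool.Agent.Work.MP_69fea5_lc.AK.I_AAB
import Pool.Agent.Work.MP_69fea5_lc.AK.I_APX
import Pool.Agent.Work.MP_69fea5_lc.AK.I_CLP
import Pool.Agent.Work.MP_69fea5_lc.AK.I_CST
import Pool.Agent.Work.MP_69fea5_lc.AK.I_CYL
import Pool.Agent.Work.MP_69fea5_lc.AK.I_DNS82
import Pool.Agent.Work.MP_69fea5_lc.AK.I_ENG
import Pool.Agent.Work.MP_69fea5_lc.AK.I_IMG
import Pool.Agent.Work.MP_69fea5_lc.AK.I_OMG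
import Pool.Agent.Work.MP_69fea5_lc.AK.I_ORB
import Pool.Agent.Work.MP_69fea5_lc.AK.I_PMB
import Pool.Agent.Work.MP_69fea5_lc.AK.I_SUP
import Pool.Agent.Work.MP_69fea5_lc.AK.I_USC
import Pool.Agent.Work.MP_69fea5_lc.AK.I_ZORN
import Pool.Agent.Work.MP_69fea5_lc.KC.I_CON
import Pool.Agent.Work.MP_69fea5_lc.KC.I_CONF
import Pool.Agent.Work.MP_69fea5_lc.KC.I_CYSC
import Pool.Agent.Work.MP_69fea5_lc.KC.I_FFSC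
import Pool.Agent.Work.MP_69fea5_lc.KC.I_KAA
import Pool.Agent.Work.MP_69fea5_lc.KC.I_LAWCPM
import Pool.Agent.Work.MP_69fea5_lc.KC.I_LAWCU
import Pool.Agent.Work.MP_69fea5_lc.KC.I_MXSC
import Pool.Agent.Work.MP_69fea5_lc.KC.I_OPT
import Pool.Agent.Work.MP_69fea5_lc.N3.I_USG
import Pool.Agent.Work.MP_69fea5_lc.W3.D_AGR
import Pool.Agent.Work.MP_69fea5_lc.W3.D_CON
import Pool.Agent.Work.MP_69fea5_lc.W3.D_DBK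
import Pool.Agent.Work.MP_69fea5_lc.W3.D_DIS
import Pool.Agent.Work.MP_69fea5_lc.W3.D_DL
import Pool.Agent.Work.MP_69fea5_lc.W3.D_DOM1
import Pool.Agent.Work.MP_69fea5_lc.W3.D_DOMG
import Pool.Agent.Work.MP_69fea5_lc.W3.D_ENG
import Pool.Agent.Work.MP_69fea5_lc.W3.D_FAM
import Pool.Agent.Work.MP_69fea5_lc.W3.D_ISN
import Pool.Agent.Work.MP_69fea5_lc.W3.D_KSY
import Pool.Agent.Work.MP_69fea5_lc.W3.D_LA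
import Pool.Agent.Work.MP_69fea5_lc.W3.D_LA2
import Pool.Agent.Work.MP_69fea5_lc.W3.D_LB
import Pool.Agent.Work.MP_69fea5_lc.W3.D_LB2
import Pool.Agent.Work.MP_69fea5_lc.W3.D_LEA
import Pool.Agent.Work.MP_69fea5_lc.W3.D_MIN
import Pool.Agent.Work.MP_69fea5_lc.W3.D_NAT
import Pool.Agent.Work.MP_69fea5_lc.W3.D_PK1
import Pool.Agent.Work.MP_69fea5_lc.W3.D_PK3
import Pool.Agent.Work.MP_69fea5_lc.W3.D_STE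
import Pool.Agent.Work.MP_69fea5_lc.W3.D_STF
import Pool.Agent.Work.MP_69fea5_lc.W3.D_STU
import Pool.Agent.Work.MP_69fea5_lc.W3.D_TWE
import Pool.Agent.Work.MP_69fea5_lc.W3.D_USC
import Pool.Agent.Work.MP_69fea5_lc.W3.D_VSC
import Pool.Agent.Work.MP_69fea5_lc.W3.D_VSD
import Pool.Agent.Work.MP_69fea5_lc.W3.D_XCH
import Pool.Agent.Work.MP_69fea5_lc.W3.D_XCK
import Pool.Agent.Work.MP_69fea5_lc.W3.D_XI1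
import Pool.Agent.Work.MP_69fea5_lc.W3.D_XI2
import Pool.Agent.Work.MP_69fea5_lc.W3.FinalN
import Pool.Agent.Work.MP_69fea5_lc.W3.GlueD
import Pool.Agent.Work.MP_69fea5_lc.W3.I_AAN
import Pool.Agent.Work.MP_69fea5_lc.W3.I_BCF
import Pool.Agent.Work.MP_69fea5_lc.W3.I_BCX
import Pool.Agent.Work.MP_69fea5_lc.W3.I_BLX
import Pool.Agent.Work.MP_69fea5_lc.W3.I_BRB
import Pool.Agent.Work.MP_69fea5_lc.W3.I_BRC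
import Pool.Agent.Work.MP_69fea5_lc.W3.I_BRX
import Pool.Agent.Work.MP_69fea5_lc.W3.I_CTR
import Pool.Agent.Work.MP_69fea5_lc.W3.I_ENV
import Pool.Agent.Work.MP_69fea5_lc.W3.I_EX1
import Pool.Agent.Work.MP_69fea5_lc.W3.I_FAM
import Pool.Agent.Work.MP_69fea5_lc.W3.I_FDL
import Pool.Agent.Work.MP_69fea5_lc.W3.I_FSD
import Pool.Agent.Work.MP_69fea5_lc.W3.I_GAP
import Pool.Agent.Work.MP_69fea5_lc.W3.I_GCF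
import Pool.Agent.Work.MP_69fea5_lc.W3.I_GCL
import Pool.Agent.Work.MP_69fea5_lc.W3.I_GDI
import Pool.Agent.Work.MP_69fea5_lc.W3.I_GDS
import Pool.Agent.Work.MP_69fea5_lc.W3.I_GEQ
import Pool.Agent.Work.MP_69fea5_lc.W3.I_GFL
import Pool.Agent.Work.MP_69fea5_lc.W3.I_GFN
import Pool.Agent.Work.MP_69fea5_lc.W3.I_GFR
import Pool.Agent.Work.MP_69fea5_lc.W3.I_GHD
import Pool.Agent.Work.MP_69fea5_lc.W3.I_GL0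
import Pool.Agent.Work.MP_69fea5_lc.W3.I_GOP
import Pool.Agent.Work.MP_69fea5_lc.W3.I_GPE
import Pool.Agent.Work.MP_69fea5_lc.W3.I_GPR
import Pool.Agent.Work.MP_69fea5_lc.W3.I_GPT
import Pool.Agent.Work.MP_69fea5_lc.W3.I_GRA
import Pool.Agent.Work.MP_69fea5_lc.W3.I_GST
import Pool.Agent.Work.MP_69fea5_lc.W3.I_GUI
import Pool.Agent.Work.MP_69fea5_lc.W3.I_GUL
import Pool.Agent.Work.MP_69fea5_lc.W3.I_GUO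
import Pool.Agent.Work.MP_69fea5_lc.W3.I_ISP
import Pool.Agent.Work.MP_69fea5_lc.W3.I_JCT
import Pool.Agent.Work.MP_69fea5_lc.W3.I_KAM
import Pool.Agent.Work.MP_69fea5_lc.W3.I_KAV
import Pool.Agent.Work.MP_69fea5_lc.W3.I_KCP
import Pool.Agent.Work.MP_69fea5_lc.W3.I_KCT
import Pool.Agent.Work.MP_69fea5_lc.W3.I_KET
import Pool.Agent.Work.MP_69fea5_lc.W3.I_KEX
import Pool.Agent.Work.MP_69fea5_lc.W3.I_KKN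
import Pool.Agent.Work.MP_69fea5_lc.W3.I_KLV
import Pool.Agent.Work.MP_69fea5_lc.W3.I_KMW
import Pool.Agent.Work.MP_69fea5_lc.W3.I_KPD
import Pool.Agent.Work.MP_69fea5_lc.W3.I_KPM
import Pool.Agent.Work.MP_69fea5_lc.W3.I_KPR
import Pool.Agent.Work.MP_69fea5_lc.W3.I_KQC
import Pool.Agent.Work.MP_69fea5_lc.W3.I_KST
import Pool.Agent.Work.MP_69fea5_lc.W3.I_KTL
import Pool.Agent.Work.MP_69fea5_lc.W3.I_KTP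
import Pool.Agent.Work.MP_69fea5_lc.W3.I_KTX
import Pool.Agent.Work.MP_69fea5_lc.W3.I_KUE
import Pool.Agent.Work.MP_69fea5_lc.W3.I_KXC
import Pool.Agent.Work.MP_69fea5_lc.W3.I_L1A
import Pool.Agent.Work.MP_69fea5_lc.W3.I_LAA
import Pool.Agent.Work.MP_69fea5_lc.W3.I_LBL
import Pool.Agent.Work.MP_69fea5_lc.W3.I_LEB
import Pool.Agent.Work.MP_69fea5_lc.W3.I_LEK
import Pool.Agent.Work.MP_69fea5_lc.W3.I_LFI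
import Pool.Agent.Work.MP_69fea5_lc.W3.I_LFR
import Pool.Agent.Work.MP_69fea5_lc.W3.I_LFS
import Pool.Agent.Work.MP_69fea5_lc.W3.I_LFT
import Pool.Agent.Work.MP_69fea5_lc.W3.I_LGR
import Pool.Agent.Work.MP_69fea5_lc.W3.I_LIF
import Pool.Agent.Work.MP_69fea5_lc.W3.I_LIN
import Pool.Agent.Work.MP_69fea5_lc.W3.I_LKE
import Pool.Agent.Work.MP_69fea5_lc.W3.I_LMC
import Pool.Agent.Work.MP_69fea5_lc.W3.I_LRT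
import Pool.Agent.Work.MP_69fea5_lc.W3.I_LSC
import Pool.Agent.Work.MP_69fea5_lc.W3.I_LST
import Pool.Agent.Work.MP_69fea5_lc.W3.I_LTC
import Pool.Agent.Work.MP_69fea5_lc.W3.I_LTE
import Pool.Agent.Work.MP_69fea5_lc.W3.I_LTH
import Pool.Agent.Work.MP_69fea5_lc.W3.I_LTM
import Pool.Agent.Work.MP_69fea5_lc.W3.I_LTW
import Pool.Agent.Work.MP_69fea5_lc.W3.I_MCM
import Pool.Agent.Work.MP_69fea5_lc.W3.I_ONT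
import Pool.Agent.Work.MP_69fea5_lc.W3.I_PMG
import Pool.Agent.Work.MP_69fea5_lc.W3.I_PRD
import Pool.Agent.Work.MP_69fea5_lc.W3.I_QC1
import Pool.Agent.Work.MP_69fea5_lc.W3.I_QC2
import Pool.Agent.Work.MP_69fea5_lc.W3.I_QC3
import Pool.Agent.Work.MP_69fea5_lc.W3.I_QD1
import Pool.Agent.Work.MP_69fea5_lc.W3.I_QD2
import Pool.Agent.Work.MP_69fea5_lc.W3.I_QD3
import Pool.Agent.Work.MP_69fea5_lc.W3.I_QD4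
import Pool.Agent.Work.MP_69fea5_lc.W3.I_QDI
import Pool.Agent.Work.MP_69fea5_lc.W3.I_QDL
import Pool.Agent.Work.MP_69fea5_lc.W3.I_QDU
import Pool.Agent.Work.MP_69fea5_lc.W3.I_QFD
import Pool.Agent.Work.MP_69fea5_lc.W3.I_QFM
import Pool.Agent.Work.MP_69fea5_lc.W3.I_QFN
import Pool.Agent.Work.MP_69fea5_lc.W3.I_QIS
import Pool.Agent.Work.MP_69fea5_lc.W3.I_QK1
import Pool.Agent.Work.MP_69fea5_lc.W3.I_QK2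
import Pool.Agent.Work.MP_69fea5_lc.W3.I_QK3
import Pool.Agent.Work.MP_69fea5_lc.W3.I_QMN
import Pool.Agent.Work.MP_69fea5_lc.W3.I_QOR
import Pool.Agent.Work.MP_69fea5_lc.W3.I_QPW
import Pool.Agent.Work.MP_69fea5_lc.W3.I_QSC
import Pool.Agent.Work.MP_69fea5_lc.W3.I_QSW
import Pool.Agent.Work.MP_69fea5_lc.W3.I_QT3
import Pool.Agent.Work.MP_69fea5_lc.W3.I_QUC
import Pool.Agent.Work.MP_69fea5_lc.W3.I_RFG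
import Pool.Agent.Work.MP_69fea5_lc.W3.I_RIM
import Pool.Agent.Work.MP_69fea5_lc.W3.I_RKM
import Pool.Agent.Work.MP_69fea5_lc.W3.I_RTA
import Pool.Agent.Work.MP_69fea5_lc.W3.I_RTF
import Pool.Agent.Work.MP_69fea5_lc.W3.I_RUP
import Pool.Agent.Work.MP_69fea5_lc.W3.I_SEO
import Pool.Agent.Work.MP_69fea5_lc.W3.I_SPE
import Pool.Agent.Work.MP_69fea5_lc.W3.I_ULT
import Pool.Agent.Work.MP_69fea5_lc.W3.I_VBR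
import Pool.Agent.Work.MP_69fea5_lc.W3.I_ZSC
import Pool.Agent.Work.MP_69fea5_lc.W3.I_ZSE
import Pool.Agent.Work.MP_69fea5_lc.W3.MainN
import Pool.Agent.Work.MP_69fea5_lc.W3.VMain

/-!
# Assembly of block N: sums of at most `n` terms, every `n`, two colours
Script-generated from the item statements.
-/

set_option autoImplicit false

namespace Pool.Agent.Work.MP_69fea5_lc

theorem asmN : W3.S_MNN := by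
  have h_N3_S_USG : N3.S_USG := N3.USG_pf
  have h_AK_S_ZORN : AK.S_ZORN := AK.ZORN_pf
  have h_KC_S_LAWCU : KC.S_LAWCU := KC.LAWCU_pf
  have h_W3_S_ONT : W3.S_ONT := W3.ONT_pf
  have h_W3_S_QUC : W3.S_QUC := W3.QUC_pf
  have h_W3_S_KPR : W3.S_KPR := W3.KPR_pf
  have h_W3D_S_LA : W3D.S_LA := W3D.LA_pf
  have h_W3_S_LIF : W3.S_LIF := W3.LIF_pf
  have h_W3_S_BCX : W3.S_BCX := W3.BCX_pf h_AK_S_ZORN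
  have h_KC_S_EXTC : KC.S_EXTC := KC.EXTC_pf
  have h_AK_S_ORB : AK.S_ORB := AK.ORB_pf
  have h_W3D_S_DOMG : W3D.S_DOMG := W3D.DOMG_pf
  have h_KC_S_LAWCCU : KC.S_LAWCCU := KC.LAWCCU_pf
  have h_W3D_S_VSC : W3D.S_VSC := W3D.VSC_pf
  have h_W3D_S_XCK : W3D.S_XCK := W3D.XCK_pf
  have h_W3_S_PRD : W3.S_PRD := W3.PRD_pf
  have h_W3_S_BRC : W3.S_BRC := W3.BRC_pf
  have h_AK_S_CST : AK.S_CST := AK.CST_pf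
  have h_W3_S_KPD : W3.S_KPD := W3.KPD_pf
  have h_W3D_S_PK1 : W3D.S_PK1 := W3D.PK1_pf
  have h_W3D_S_VSD : W3D.S_VSD := W3D.VSD_pf
  have h_W3D_S_USC : W3D.S_USC := W3D.USC_pf
  have h_W3_S_LIN : W3.S_LIN := W3.LIN_pf
  have h_W3_S_GHD : W3.S_GHD := W3.GHD_pf
  have h_W3_S_QPW : W3.S_QPW := W3.QPW_pf
  have h_AK_S_CYL : AK.S_CYL := AK.CYL_pf
  have h_W3D_S_AGR : W3D.S_AGR := W3D.AGR_pf
  have h_W3_S_BRX : W3.S_BRX := W3.BRX_pf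
  have h_W3_S_QFM : W3.S_QFM := W3.QFM_pf
  have h_W3_S_GDI : W3.S_GDI := W3.GDI_pf
  have h_W3D_S_DL : W3D.S_DL := W3D.DL_pf
  have h_W3_S_QIS : W3.S_QIS := W3.QIS_pf
  have h_HK_S_LAWCPM : HK.S_LAWCPM := KC.LAWCPM_pf
  have h_W3D_S_LB : W3D.S_LB := W3D.LB_pf h_W3D_S_DOMG
  have h_AK_S_IMG : AK.S_IMG := AK.IMG_pf
  have h_KC_S_CONF : KC.S_CONF := KC.CONF_pf
  have h_W3D_S_DOM1 : W3D.S_DOM1 := W3D.DOM1_pf h_W3D_S_DOMG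
  have h_W3_S_ULT : W3.S_ULT := W3.ULT_pf
  have h_W3_S_PMG : W3.S_PMG := W3.PMG_pf
  have h_AK_S_OMG : AK.S_OMG := AK.OMG_pf
  have h_W3_S_GUL : W3.S_GUL := W3.GUL_pf
  have h_W3D_S_DIS : W3D.S_DIS := W3D.DIS_pf
  have h_AK_S_PMB : AK.S_PMB := AK.PMB_pf h_AK_S_CYL
  have h_W3_S_LRT : W3.S_LRT := W3.LRT_pf h_AK_S_CYL
  have h_W3_S_QC1 : W3.S_QC1 := W3.QC1_pf h_W3_S_QPW h_W3_S_QFM
  have h_W3_S_ISP : W3.S_ISP := W3.ISP_pf h_W3_S_ONT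
  have h_W3_S_GFL : W3.S_GFL := W3.GFL_pf
  have h_W3D_S_XI1 : W3D.S_XI1 := W3D.XI1_pf h_W3D_S_DOM1
  have h_W3D_S_LB2 : W3D.S_LB2 := W3D.LB2_pf h_W3D_S_LB h_W3D_S_VSC
  have h_W3D_S_ENG : W3D.S_ENG := W3D.ENG_pf
  have h_W3_S_FTP : W3.S_FTP := W3.FTP_main
  have h_KC_S_CON : KC.S_CON := KC.CON_pf
  have h_KC_S_MXSC : KC.S_MXSC := KC.MXSC_pf
  have h_W3D_S_CON : W3D.S_CON := W3D.CON_pf
  have h_W3D_S_LEA : W3D.S_LEA := W3D.LEA_pf h_W3D_S_ENG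
  have h_W3_S_MCM : W3.S_MCM := W3.MCM_pf
  have h_W3_S_QSW : W3.S_QSW := W3.QSW_pf
  have h_W3_S_KCP : W3.S_KCP := W3.KCP_pf
  have h_W3_S_KMW : W3.S_KMW := W3.KMW_pf
  have h_W3_S_KPM : W3.S_KPM := W3.KPM_pf h_W3_S_KPD
  have h_W3_S_SEO : W3.S_SEO := W3.SEO_pf
  have h_W3_S_FSD : W3.S_FSD := W3.FSD_pf
  have h_KC_S_CYSC : KC.S_CYSC := KC.CYSC_pf h_KC_S_CON h_KC_S_CONF
  have h_W3D_S_TWE : W3D.S_TWE := W3D.TWE_pf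
  have h_W3_S_LEB : W3.S_LEB := W3.LEB_pf
  have h_W3_S_LSC : W3.S_LSC := W3.LSC_pf h_W3_S_LIF
  have h_W3_S_JCT : W3.S_JCT := W3.JCT_pf h_W3_S_ULT
  have h_W3D_S_PK3 : W3D.S_PK3 := W3D.PK3_pf h_W3D_S_PK1
  have h_W3_S_KTL : W3.S_KTL := W3.KTL_pf h_W3_S_KMW
  have h_AK_S_ENG : AK.S_ENG := AK.ENG_pf h_AK_S_CYL h_AK_S_PMB
  have h_KC_S_FFSC : KC.S_FFSC := KC.FFSC_pf h_KC_S_CYSC
  have h_W3_S_QFN : W3.S_QFN := W3.QFN_pf h_W3_S_QPW h_W3_S_QFM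
  have h_W3D_S_STE : W3D.S_STE := W3D.STE_pf h_W3D_S_USC h_W3D_S_LEA h_W3D_S_DL
  have h_W3_S_LGR : W3.S_LGR := W3.LGR_pf h_AK_S_IMG
  have h_W3_S_FDL : W3.S_FDL := W3.FDL_pf h_W3_S_PMG h_W3_S_BRX
  have h_W3D_S_STF : W3D.S_STF := W3D.STF_pf h_W3D_S_CON
  have h_W3_S_ENV : W3.S_ENV := W3.ENV_pf h_W3_S_BRX
  have h_W3D_S_LA2 : W3D.S_LA2 := W3D.LA2_pf h_W3D_S_LA h_W3D_S_VSC h_W3D_S_AGR
  have h_AK_S_CLP : AK.S_CLP := AK.CLP_pf h_AK_S_CYL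
  have h_AK_S_SUP : AK.S_SUP := AK.SUP_pf h_AK_S_CYL h_AK_S_PMB
  have h_W3D_S_STU : W3D.S_STU := W3D.STU_pf h_W3D_S_CON
  have h_AK_S_USC : AK.S_USC := AK.USC_pf h_AK_S_PMB h_AK_S_CLP
  have h_W3_S_BLX : W3.S_BLX := W3.BLX_pf h_W3_S_JCT
  have h_W3_S_RKM : W3.S_RKM := W3.RKM_pf h_W3_S_QFM
  have h_W3_S_GUI : W3.S_GUI := W3.GUI_pf h_W3_S_GUL
  have h_W3_S_KAV : W3.S_KAV := W3.KAV_pf h_W3_S_FSD h_W3_S_BRX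
  have h_W3_S_QD4 : W3.S_QD4 := W3.QD4_pf h_W3_S_QFM h_W3_S_QFN
  have h_W3_S_QFD : W3.S_QFD := W3.QFD_pf h_W3_S_QPW h_W3_S_QFM
  have h_AK_S_AAB : AK.S_AAB := AK.AAB_pf h_AK_S_PMB h_AK_S_USC h_AK_S_ENG
  have h_W3_S_LTE : W3.S_LTE := W3.LTE_pf h_AK_S_CYL h_W3_S_LRT
  have h_W3_S_LMC : W3.S_LMC := W3.LMC_pf h_W3_S_MCM h_W3_S_LIN h_W3_S_LGR
  have h_W3_S_KTX : W3.S_KTX := W3.KTX_pf h_W3_S_KAV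
  have h_W3D_S_MIN : W3D.S_MIN := W3D.MIN_pf h_W3D_S_DIS
  have h_W3D_S_ISN : W3D.S_ISN := W3D.ISN_pf h_W3D_S_TWE
  have h_W3_S_QSC : W3.S_QSC := W3.QSC_pf h_W3_S_QFM h_W3_S_QSW
  have h_W3D_S_DBK : W3D.S_DBK := W3D.DBK_pf h_W3D_S_PK1 h_W3D_S_PK3
  have h_W3D_S_FAM : W3D.S_FAM := W3D.FAM_pf h_W3D_S_STE h_W3D_S_STU h_W3D_S_STF h_W3D_S_MIN h_W3D_S_TWE h_W3D_S_ISN
  have h_W3_S_LFS : W3.S_LFS := W3.LFS_pf h_W3_S_ISP h_W3_S_LIN h_W3_S_LGR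
  have h_W3_S_RFG : W3.S_RFG := W3.RFG_pf h_W3_S_LGR
  have h_KC_S_OPT : KC.S_OPT := KC.OPT_pf h_AK_S_ENG
  have h_AK_S_DNS : AK.S_DNS := AK.DNS_pf82 h_AK_S_CYL h_AK_S_PMB h_AK_S_SUP
  have h_W3_S_KET : W3.S_KET := W3.KET_pf h_W3_S_LIF h_W3_S_KPM h_W3_S_KPR
  have h_W3_S_BCF : W3.S_BCF := W3.BCF_pf h_W3_S_ULT h_W3_S_JCT
  have h_W3_S_GOP : W3.S_GOP := W3.GOP_pf h_W3_S_GFL h_W3_S_GUL h_W3_S_GUI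
  have h_W3_S_EX1 : W3.S_EX1 := W3.EX1_pf h_AK_S_OMG h_W3_S_BCF
  have h_W3_S_LTC : W3.S_LTC := W3.LTC_pf h_W3_S_LIN h_W3_S_LRT h_W3_S_LMC h_W3_S_PMG h_AK_S_CYL
  have h_W3D_S_NAT : W3D.S_NAT := W3D.NAT_pf h_W3D_S_STU h_W3D_S_MIN h_W3D_S_TWE h_W3D_S_ISN
  have h_W3_S_LFT : W3.S_LFT := W3.LFT_pf h_W3_S_PMG h_W3_S_FSD
  have h_W3_S_QC2 : W3.S_QC2 := W3.QC2_pf h_W3_S_QPW h_W3_S_QFM h_W3_S_QFN h_W3_S_QC1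
  have h_W3_S_ZSC : W3.S_ZSC := W3.ZSC_pf h_AK_S_SUP
  have h_W3_S_KUE : W3.S_KUE := W3.KUE_pf h_W3D_S_USC h_W3D_S_DL h_W3D_S_STU
  have h_W3_S_L1A : W3.S_L1A := W3.L1A_pf h_W3_S_LIN h_W3_S_LGR h_W3_S_LTE h_W3_S_LFS
  have h_W3_S_LTM : W3.S_LTM := W3.LTM_pf h_W3_S_LRT h_W3_S_LMC h_W3_S_LTE
  have h_W3D_S_XI2 : W3D.S_XI2 := W3D.XI2_pf h_W3D_S_VSC h_W3D_S_VSD h_W3D_S_DBK h_W3D_S_LA2 h_W3D_S_LB2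
  have h_W3_S_CTR : W3.S_CTR := W3.CTR_pf h_W3_S_PMG h_W3_S_PRD h_W3_S_LFT h_W3_S_JCT h_N3_S_USG h_AK_S_CST
  have h_W3_S_LKE : W3.S_LKE := W3.LKE_pf h_W3_S_LIN h_W3_S_LGR h_W3_S_LIF h_W3_S_LSC
  have h_W3D_S_KSY : W3D.S_KSY := W3D.KSY_pf h_W3D_S_FAM h_W3D_S_NAT h_W3D_S_MIN h_W3D_S_TWE
  have h_W3_S_ZSE : W3.S_ZSE := W3.ZSE_pf h_AK_S_SUP h_AK_S_PMB h_AK_S_CYL
  have h_W3_S_QK1 : W3.S_QK1 := W3.QK1_pf h_W3_S_QPW h_W3_S_QFM h_W3_S_QFD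
  have h_W3_S_GAP : W3.S_GAP := W3.GAP_pf h_W3_S_GFL h_W3_S_GUL h_W3_S_GUI
  have h_W3_S_LST : W3.S_LST := W3.LST_pf h_W3_S_LTC h_W3_S_LTM h_W3_S_L1A
  have h_W3_S_GCF : W3.S_GCF := W3.GCF_pf h_W3_S_GFL h_W3_S_GAP
  have h_W3_S_GPR : W3.S_GPR := W3.GPR_pf h_W3_S_GCF
  have h_W3_S_GEQ : W3.S_GEQ := W3.GEQ_pf h_W3_S_GFL h_W3_S_GAP h_W3_S_GOP
  have h_W3_S_QD1 : W3.S_QD1 := W3.QD1_pf h_W3_S_QFN h_W3_S_QK1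
  have h_W3_S_RIM : W3.S_RIM := W3.RIM_pf h_W3_S_BCF h_W3_S_CTR
  have h_W3_S_GCL : W3.S_GCL := W3.GCL_pf h_W3_S_GFL h_W3_S_GAP
  have h_W3D_S_XIT : W3D.S_XIT := W3D.XIT_pf h_W3D_S_KSY h_W3D_S_XI1 h_W3D_S_XI2
  have h_W3_S_GFN : W3.S_GFN := W3.GFN_pf h_W3_S_GPR h_W3_S_GOP
  have h_W3_S_LTH : W3.S_LTH := W3.LTH_pf h_W3_S_LFT
  have h_W3_S_QD3 : W3.S_QD3 := W3.QD3_pf h_W3_S_QFM h_W3_S_QFD h_W3_S_QK1 h_W3_S_QD1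
  have h_W3_S_QC3 : W3.S_QC3 := W3.QC3_pf h_W3_S_QFN h_W3_S_QC2
  have h_W3_S_LBL : W3.S_LBL := W3.LBL_pf h_W3_S_BCX h_W3_S_RIM h_W3_S_BLX h_W3_S_LGR
  have h_AK_S_APX : AK.S_APX := AK.APX_pf h_AK_S_ORB h_AK_S_PMB h_AK_S_CLP h_AK_S_SUP h_AK_S_ENG h_AK_S_AAB h_AK_S_DNS
  have h_W3_S_BRB : W3.S_BRB := W3.BRB_pf h_W3_S_PMG h_W3_S_LFT h_W3_S_BRX h_W3_S_BRC
  have h_W3_S_QD2 : W3.S_QD2 := W3.QD2_pf h_W3_S_QFM h_W3_S_QSC h_W3_S_QD1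
  have h_W3_S_GDS : W3.S_GDS := W3.GDS_pf h_W3_S_GPR h_W3_S_GOP
  have h_W3_S_RUP : W3.S_RUP := W3.RUP_pf h_W3_S_GPR h_W3_S_GOP h_W3_S_ISP h_W3_S_LIN h_W3_S_LGR
  have h_W3_S_KST : W3.S_KST := W3.KST_pf h_W3_S_KUE h_W3_S_KAV
  have h_W3_S_QK2 : W3.S_QK2 := W3.QK2_pf h_W3_S_QSC h_W3_S_QK1
  have h_W3_S_GUO : W3.S_GUO := W3.GUO_pf h_W3_S_GOP h_W3_S_GPR
  have h_W3_S_QK3 : W3.S_QK3 := W3.QK3_pf h_W3_S_QK1 h_W3_S_QK2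
  have h_W3_S_QDI : W3.S_QDI := W3.QDI_pf h_W3_S_QK1 h_W3_S_QK2
  have h_KC_S_KAA : KC.S_KAA := KC.KAA_pf h_KC_S_OPT h_KC_S_MXSC h_KC_S_FFSC h_AK_S_APX h_HK_S_LAWCPM h_KC_S_LAWCU h_KC_S_LAWCCU
  have h_W3D_S_XCH : W3D.S_XCH := W3D.XCH_pf h_W3_S_GCF h_W3_S_GAP
  have h_W3_S_QDU : W3.S_QDU := W3.QDU_pf h_W3_S_QPW h_W3_S_QFM h_W3_S_QFD h_W3_S_QK1 h_W3_S_QD2
  have h_W3_S_QMN : W3.S_QMN := W3.QMN_pf h_W3_S_QK1 h_W3_S_QK3 h_W3_S_QIS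
  have h_W3_S_GL0 : W3.S_GL0 := W3.GL0_pf h_W3_S_GCL h_W3_S_GPR
  have h_W3_S_LFI : W3.S_LFI := W3.LFI_pf h_W3_S_GFN h_W3_S_LGR
  have h_W3_S_KKN : W3.S_KKN := W3.KKN_pf h_W3_S_KST h_W3D_S_MIN h_W3D_S_ISN
  have h_W3_S_LEK : W3.S_LEK := W3.LEK_pf h_W3_S_LBL
  have h_W3_S_LTW : W3.S_LTW := W3.LTW_pf h_W3_S_LGR h_W3_S_LFI
  have h_W3_S_FAM : W3.S_FAM := W3.FAM_pf h_W3_S_PMG h_W3_S_BRC h_W3_S_BRB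
  have h_W3_S_AAN : W3.S_AAN := W3.AAN_pf h_W3_S_FAM h_W3_S_ENV
  have h_W3_S_GPE : W3.S_GPE := W3.GPE_pf h_W3_S_GUO
  have h_W3_S_VBR : W3.S_VBR := W3.VBR_pf h_W3_S_LEK
  have h_W3_S_QDL : W3.S_QDL := W3.QDL_pf h_W3_S_QFM h_W3_S_QFD h_W3_S_QK1 h_W3_S_QK2 h_W3_S_QD2 h_W3_S_QD3 h_W3_S_QD4
  have h_W3_S_KAM : W3.S_KAM := W3.KAM_pf h_W3_S_LGR h_KC_S_KAA h_AK_S_AAB h_AK_S_ORB h_AK_S_IMG
  have h_W3_S_KQC : W3.S_KQC := W3.KQC_pf h_W3D_S_FAM h_W3_S_KKN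
  have h_W3_S_SPE : W3.S_SPE := W3.SPE_pf h_W3_S_PMG h_W3_S_PRD h_W3_S_BRX h_W3_S_BRC h_W3_S_FAM h_W3_S_ENV
  have h_W3_S_GPT : W3.S_GPT := W3.GPT_pf h_W3_S_GPE h_W3_S_GPR
  have h_W3_S_GRA : W3.S_GRA := W3.GRA_pf h_W3_S_GPR h_W3_S_GOP h_W3_S_GHD h_W3_S_GPT h_W3_S_GEQ
  have h_W3_S_QOR : W3.S_QOR := W3.QOR_pf h_W3_S_QSW h_W3_S_QK1 h_W3_S_QD2 h_W3_S_QDU h_W3_S_QC3 h_W3_S_QDL
  have h_W3_S_LAA : W3.S_LAA := W3.LAA_pf h_AK_S_ORB h_W3_S_FDL h_W3_S_SEO h_W3_S_AAN h_W3_S_SPE h_W3_S_LGR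
  have h_W3_S_KEX : W3.S_KEX := W3.KEX_pf h_AK_S_OMG h_AK_S_ORB h_W3_S_LGR h_W3_S_LAA h_W3_S_BCX h_W3_S_BCF h_W3_S_RIM h_W3_S_EX1 h_W3_S_LEB h_W3_S_ZSE
  have h_W3_S_GST : W3.S_GST := W3.GST_pf h_W3_S_GRA h_W3_S_GDS
  have h_W3_S_KCT : W3.S_KCT := W3.KCT_pf h_W3_S_KCP h_W3D_S_XIT h_W3_S_KQC h_W3_S_KAM h_W3_S_LAA h_W3_S_LTH h_W3_S_KTX
  have h_W3_S_KXC : W3.S_KXC := W3.KXC_pf h_W3_S_KAM h_W3_S_KEX h_W3_S_ZSC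
  have h_W3_S_KLV : W3.S_KLV := W3.KLV_pf h_W3_S_KCP h_W3_S_KCT h_W3D_S_XCK h_W3_S_LAA h_W3_S_LEK h_W3_S_LKE h_W3_S_KET h_W3_S_KTL
  have h_W3_S_QT3 : W3.S_QT3 := W3.QT3_pf h_W3_S_QK1 h_W3_S_QK2 h_W3_S_QUC h_W3_S_QDI h_W3_S_QIS h_W3_S_QMN h_W3_S_QOR
  have h_W3_S_KTP : W3.S_KTP := W3.KTP_pf h_W3_S_KCP h_W3_S_KCT h_W3_S_KET
  have h_W3_S_GFR : W3.S_GFR := W3.GFR_pf h_W3_S_GDI h_W3_S_GL0 h_W3_S_GST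
  have h_W3_S_LFR : W3.S_LFR := W3.LFR_pf h_W3_S_GFR h_W3_S_LGR h_W3_S_LTW
  have h_W3_S_RTA : W3.S_RTA := W3.RTA_pf h_W3_S_QT3 h_W3_S_QFN h_W3_S_QK1 h_W3_S_RKM h_W3_S_RFG
  have h_W3_S_RTF : W3.S_RTF := W3.RTF_pf h_W3_S_LFR h_W3_S_RUP
  have h_W3_S_MUT : W3.S_MUT := W3.MUT_pf h_KC_S_EXTC h_AK_S_ORB h_AK_S_OMG h_W3_S_LGR h_W3_S_KCP h_W3_S_KLV h_W3_S_KXC h_W3_S_LST h_W3_S_RTF h_W3_S_KTP h_W3D_S_XCH h_W3_S_LAA h_W3_S_VBR h_W3_S_RTA h_W3_S_FTP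
  have h_W3_S_MUN : W3.S_MUN := W3.MUN_pf h_W3_S_MUT
  have h_W3_S_MNN : W3.S_MNN := W3.MNN_pf h_W3_S_MUN
  exact h_W3_S_MNN

end Pool.Agent.Work.MP_69fea5_lc
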