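import Pool.Agent.Work.MP_69fea5_lc.W3.StmtsQ

/-! [QD4] how the dual function depends on the point over the same positions. -/

set_option autoImplicit false

namespace Pool.Agent.Work.MP_69fea5_lc.W3

open MeasureTheory ProbabilityTheory Topology Set Filter TopologicalSpace
open scoped NNReal ENNReal
open Pool.Agent.Work.MP_69fea5_lc.AK

namespace I_QD4

theorem prod_bd {ι : Type} (s : Finset ι) (a : ι → ℝ) (ha : ∀ i, |a i| ≤ 1) :
    |∏ i ∈ s, a i| ≤ 1 := by
  classical
  rw [Finset.abs_prod]
  exact Finset.prod_le_one (fun i _ => abs_nonneg _) fun i _ => ha i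

theorem prod_diff {ι : Type} (s : Finset ι) (a b : ι → ℝ) (ha : ∀ i, |a i| ≤ 1)
    (hb : ∀ i, |b i| ≤ 1) : |∏ i ∈ s, a i - ∏ i ∈ s, b i| ≤ ∑ i ∈ s, |a i - b i| := by
  classical
  induction s using Finset.induction_on with
  | empty => simp
  | @insert i s hi ih =>
    rw [Finset.prod_insert hi, Finset.prod_insert hi, Finset.sum_insert hi]
    have h : a i * ∏ x ∈ s, a x - b i * ∏ x ∈ s, b x =
        (a i - b i) * ∏ x ∈ s, b x + a i * (∏ x ∈ s, a x - ∏ x ∈ s, b x) := by ring
    rw [h]
    refine (abs_add_le _ _).trans (add_le_add ?_ ?_)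
    · rw [abs_mul]
      exact mul_le_of_le_one_right (abs_nonneg _) (prod_bd s b hb)
    · rw [abs_mul]
      exact (mul_le_of_le_one_left (abs_nonneg _) (ha i)).trans ih

variable {O : Type}

theorem ch_inj {n : ℕ} (s : Finset (Fin n)) : Function.Injective (ch s) := by
  intro i j h
  have := congrArg (fun a : Vx n => a.1.1) h
  simpa [ch] using this

theorem ovw_big {n : ℕ} (u : Fin n → O) (W : Vx n → O) (s : Finset (Fin n)) (hs : 2 ≤ s.card)
    (i : Fin n) : ovw u W (ch s i) = W (ch s i) := by
  unfold ovw
  rw [if_neg]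
  intro h
  have h1 : (s.erase i).card = 0 := by
    have : s.erase i = ∅ := h
    rw [this]; rfl
  have h2 := Finset.pred_card_le_card_erase (s := s) (a := i)
  omega

theorem ovw_one {n : ℕ} (u : Fin n → O) (W : Vx n → O) (j : Fin n) :
    (fun i => ovw u W (ch {j} i)) = Function.update (fun i => W (ch {j} i)) j (u j) := by
  funext i
  by_cases h : i = j
  · subst h
    simp [ovw, ch]
  · rw [Function.update_of_ne h]
    unfold ovw
    rw [if_neg]
    intro h1
    have h2 : ({j} : Finset (Fin n)).erase i = ∅ := h1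
    have h3 : j ∈ ({j} : Finset (Fin n)).erase i := by
      rw [Finset.mem_erase]
      exact ⟨fun h4 => h h4.symm, Finset.mem_singleton_self j⟩
    rw [h2] at h3
    exact absurd h3 (Finset.notMem_empty _)

theorem point {n : ℕ} (F : (Fin n → O) → ℝ) (hF : ∀ u, |F u| ≤ 1) (u u' : Fin n → O)
    (W : Vx n → O) : |prC F (ovw u W) - prC F (ovw u' W)| ≤
      ∑ j, |F (Function.update (fun i => W (ch {j} i)) j (u j)) -
        F (Function.update (fun i => W (ch {j} i)) j (u' j))| := by
  classical
  refine (prod_diff _ _ _ (fun s => hF _) (fun s => hF _)).trans ?_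
  have h1 : ∑ j : Fin n, |F (Function.update (fun i => W (ch {j} i)) j (u j)) -
        F (Function.update (fun i => W (ch {j} i)) j (u' j))| =
      ∑ s ∈ Finset.univ.image (fun j : Fin n => ({j} : Finset (Fin n))),
        |F (fun j => ovw u W (ch s j)) - F (fun j => ovw u' W (ch s j))| := by
    rw [Finset.sum_image (fun a _ b _ h => Finset.singleton_injective h)]
    refine Finset.sum_congr rfl fun j _ => ?_
    rw [ovw_one, ovw_one]
  rw [h1]
  refine le_of_eq (Finset.sum_subset_zero_on_sdiff ?_ ?_ (fun _ _ => rfl)).symm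
  · intro s hs
    rw [Finset.mem_image] at hs
    obtain ⟨j, _, rfl⟩ := hs
    rw [Finset.mem_erase]
    exact ⟨Finset.singleton_ne_empty j, Finset.mem_univ _⟩
  · intro s hs
    rw [Finset.mem_sdiff, Finset.mem_erase, Finset.mem_image] at hs
    have hc : 2 ≤ s.card := by
      by_contra hlt
      have h0 : s.card ≠ 0 := fun h => hs.1.1 (Finset.card_eq_zero.1 h)
      have h2 : s.card = 1 := by omega
      obtain ⟨j, rfl⟩ := Finset.card_eq_one.1 h2
      exact hs.2 ⟨j, Finset.mem_univ _, rfl⟩
    have e : (fun j => ovw u W (ch s j)) = fun j => ovw u' W (ch s j) := by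
      funext j
      rw [ovw_big u W s hc, ovw_big u' W s hc]
    rw [e, sub_self, abs_zero]

theorem meas_ovw {n : ℕ} [MeasurableSpace O] (u : Fin n → O) :
    Measurable fun W : Vx n → O => ovw u W := by
  refine measurable_pi_lambda _ fun a => ?_
  unfold ovw
  by_cases h : a.1.2 = ∅
  · simp only [h, if_true]; exact measurable_const
  · simp only [h, if_false]; exact measurable_pi_apply a

theorem meas_prC {n : ℕ} [MeasurableSpace O] (F : (Fin n → O) → ℝ) (hF : Measurable F) :
    Measurable (prC F) := by
  unfold prC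
  refine Finset.measurable_prod _ fun s _ => hF.comp ?_
  exact measurable_pi_lambda _ fun j => measurable_pi_apply _

theorem meas_upd {n : ℕ} [MeasurableSpace O] (j : Fin n) (w : O) :
    Measurable fun V : Fin n → O => Function.update V j w := by
  refine measurable_pi_lambda _ fun i => ?_
  by_cases h : i = j
  · subst h; simp
  · simp only [Function.update_of_ne h]; exact measurable_pi_apply i

theorem integ {Ω : Type} [MeasurableSpace Ω] (μ : Measure Ω) [IsFiniteMeasure μ] (f : Ω → ℝ)
    (hf : Measurable f) (b : ℝ) (hb : ∀ x, |f x| ≤ b) : Integrable f μ :=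
  Integrable.of_bound hf.aestronglyMeasurable b (Eventually.of_forall hb)

end I_QD4

open I_QD4 in
theorem QD4_pf (hQFM : S_QFM) (hQFN : S_QFN) : S_QD4 := by
  intro X O _ _ _ _ _ _ _ _ n π lam η c P K Pc Kc hL hC hQ F hF hFb u hu u' hu' hpi
  have := hL.mrk
  set y : Fin n → X := fun i => π (u i) with hy
  have hy' : (fun i => π (u' i)) = y := by funext i; exact (hpi i).symm
  have hyP : y ∈ PG n X := hu
  have hpr : IsProbabilityMeasure (lif η (Kc y : Measure (Vx n → X))) :=
    (hQFM X O (Vx n) η).2.1 _ inferInstance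
  have hd : dua π η Kc F u' = ∫ W, prC F (ovw u' W) ∂lif η (Kc y : Measure (Vx n → X)) := by
    unfold dua
    rw [hy']
  have hd0 : dua π η Kc F u = ∫ W, prC F (ovw u W) ∂lif η (Kc y : Measure (Vx n → X)) := rfl
  have hpb : ∀ W, |prC F W| ≤ 1 := fun W => prod_bd _ _ fun s => hFb _
  have i1 : ∀ v : Fin n → O, Integrable (fun W => prC F (ovw v W))
      (lif η (Kc y : Measure (Vx n → X))) := fun v =>
    integ _ _ ((meas_prC F hF).comp (meas_ovw v)) 1 fun W => hpb _
  have mch : ∀ j : Fin n, Measurable fun (W : Vx n → O) (i : Fin n) => W (ch {j} i) := fun j =>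
    measurable_pi_lambda _ fun i => measurable_pi_apply _
  have mD : ∀ j : Fin n, Measurable fun V : Fin n → O => |F (Function.update V j (u j)) -
      F (Function.update V j (u' j))| := fun j =>
    ((hF.comp (meas_upd j _)).sub (hF.comp (meas_upd j _))).abs
  have bD : ∀ (j : Fin n) (V : Fin n → O), |(|F (Function.update V j (u j)) -
      F (Function.update V j (u' j))|)| ≤ 2 := by
    intro j V
    rw [abs_abs]
    have h1 := hFb (Function.update V j (u j))
    have h2 := hFb (Function.update V j (u' j))
    exact (abs_sub _ _).trans (by linarith)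
  rw [hd, hd0, ← integral_sub (i1 u) (i1 u')]
  refine (abs_integral_le_integral_abs).trans ?_
  have h3 : ∫ W, |prC F (ovw u W) - prC F (ovw u' W)| ∂lif η (Kc y : Measure (Vx n → X)) ≤
      ∫ W, ∑ j, |F (Function.update (fun i => W (ch {j} i)) j (u j)) -
        F (Function.update (fun i => W (ch {j} i)) j (u' j))|
        ∂lif η (Kc y : Measure (Vx n → X)) := by
    refine integral_mono ((i1 u).sub (i1 u')).abs (integrable_finsetSum _ fun j _ => ?_)
      fun W => point F hFb u u' W
    exact integ _ _ ((mD j).comp (mch j)) 2 fun W => bD j _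
  refine h3.trans (le_of_eq ?_)
  have i2 : ∀ j ∈ (Finset.univ : Finset (Fin n)), Integrable (fun W : Vx n → O =>
      |F (Function.update (fun i => W (ch {j} i)) j (u j)) -
        F (Function.update (fun i => W (ch {j} i)) j (u' j))|)
      (lif η (Kc y : Measure (Vx n → X))) := fun j _ =>
    integ _ _ ((mD j).comp (mch j)) 2 fun W => bD j _
  rw [integral_finsetSum _ i2]
  refine Finset.sum_congr rfl fun j _ => ?_
  have h4 : (lif η (Kc y : Measure (Vx n → X))).map (fun W i => W (ch {j} i)) =
      lif η (K j (y j) : Measure (Fin n → X)) := by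
    rw [(hQFN X O (Vx n) η).1 (Fin n) (ch {j}) (ch_inj _) _, hQ.one y hyP j]
  have h5 : (K j (π (u j)) : Measure (Fin n → X)) = (K j (y j) : Measure (Fin n → X)) := rfl
  rw [h5, ← h4, integral_map (mch j).aemeasurable (mD j).aestronglyMeasurable]

end Pool.Agent.Work.MP_69fea5_lc.W3
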