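import Pool.Agent.Work.MP_69fea5_lc.W3.StmtsQ

/-!
# Block [69fea5 W3 Q], item QET: disintegration of an invariant measure over the positions
-/

set_option autoImplicit false

namespace Pool.Agent.Work.MP_69fea5_lc.W3

open MeasureTheory ProbabilityTheory Topology Set Filter TopologicalSpace
open scoped NNReal ENNReal
open Pool.Agent.Work.MP_69fea5_lc.AK

namespace I_QET

theorem standard (O : Type) [TopologicalSpace O] [MeasurableSpace O] [CS O] :
    StandardBorelSpace O := by
  let _ : MetricSpace O := TopologicalSpace.metrizableSpaceMetric O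
  have : PolishSpace O := inferInstance
  infer_instance

end I_QET

/-- [QET] disintegration of an invariant measure over the positions. -/
theorem QET_pf : S_QET := by
  intro X O _ _ _ _ _ _ _ _ π μ hπ he hμ hinv
  have hO : Nonempty O := nonempty_of_isProbabilityMeasure μ
  have hSO : StandardBorelSpace O := I_QET.standard O
  have hπm : Measurable π := hπ.measurable
  have hshO : ∀ m : ℤ, Measurable (sh m : O → O) := fun m => (sh_cont m).measurable
  have hshX : ∀ m : ℤ, Measurable (sh m : X → X) := fun m => (sh_cont m).measurable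
  have hgr : Measurable (fun w : O => (π w, w)) := hπm.prodMk measurable_id
  set ρ : Measure (X × O) := μ.map (fun w => (π w, w)) with hρ
  have hρp : IsProbabilityMeasure ρ := Measure.isProbabilityMeasure_map hgr.aemeasurable
  have hfst : ρ.fst = μ.map π := by
    rw [Measure.fst, hρ, Measure.map_map measurable_fst hgr]
    rfl
  have hsnd : ρ.snd = μ := by
    rw [Measure.snd, hρ, Measure.map_map measurable_snd hgr]
    have : (Prod.snd ∘ fun w : O => (π w, w)) = id := rfl
    rw [this, Measure.map_id]
  have hdis : ρ.fst ⊗ₘ ρ.condKernel = ρ := ρ.disintegrate ρ.condKernel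
  rw [← hfst]
  have hil : ∀ m : ℤ, ρ.fst.map (sh m) = ρ.fst := by
    intro m
    rw [hfst, Measure.map_map (hshX m) hπm]
    have h1 : (sh m : X → X) ∘ π = π ∘ (sh m : O → O) := by
      funext w
      exact (he m w).symm
    rw [h1, ← Measure.map_map hπm (hshO m), hinv]
  refine ⟨ρ.condKernel, ⟨hπ, he, ?_, hil, inferInstance, ?_, ?_⟩, ?_⟩
  · rw [hfst]
    exact Measure.isProbabilityMeasure_map hπm.aemeasurable
  · have hset : MeasurableSet {p : X × O | π p.2 = p.1} :=
      (isClosed_eq (hπ.comp continuous_snd) continuous_fst).measurableSet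
    have h1 : ∀ᵐ p ∂(ρ.fst ⊗ₘ ρ.condKernel), π p.2 = p.1 := by
      rw [hdis, hρ]
      exact (ae_map_iff hgr.aemeasurable hset).2 (Eventually.of_forall fun w => rfl)
    exact Measure.ae_ae_of_ae_compProd h1
  · intro m
    set κ : Kernel X O := (ρ.condKernel.comap (sh m) (hshX m)).map (sh (-m) : O → O) with hκ
    have hκM : IsMarkovKernel κ := Kernel.IsMarkovKernel.map _ (hshO (-m))
    have hk : ρ = ρ.fst ⊗ₘ κ := by
      ext S hS
      rw [Measure.compProd_apply hS]
      have h2 : ∀ x, κ x (Prod.mk x ⁻¹' S) =
          ρ.condKernel (sh m x) {w | (x, sh (-m) w) ∈ S} := by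
        intro x
        rw [hκ, Kernel.map_apply' _ (hshO (-m)) _ (measurable_prodMk_left hS),
          Kernel.comap_apply]
        rfl
      simp_rw [h2]
      have hT : Measurable (fun p : X × O => ((sh (-m) p.1, sh (-m) p.2) : X × O)) :=
        ((hshX (-m)).comp measurable_fst).prodMk ((hshO (-m)).comp measurable_snd)
      have hS' : MeasurableSet {p : X × O | ((sh (-m) p.1, sh (-m) p.2) : X × O) ∈ S} := hT hS
      have h3 : ∫⁻ x, ρ.condKernel (sh m x) {w | (x, sh (-m) w) ∈ S} ∂ρ.fst =
          ∫⁻ y, ρ.condKernel y (Prod.mk y ⁻¹'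
            {p : X × O | ((sh (-m) p.1, sh (-m) p.2) : X × O) ∈ S}) ∂ρ.fst := by
        conv_rhs => rw [← hil m]
        rw [lintegral_map (Kernel.measurable_kernel_prodMk_left hS') (hshX m)]
        refine lintegral_congr fun x => ?_
        congr 1
        ext w
        simp only [mem_ofPred_eq, mem_preimage]
        rw [← sh_add, neg_add_cancel, sh_zero]
      rw [h3, ← Measure.compProd_apply hS', hdis, hρ, Measure.map_apply hgr hS',
        Measure.map_apply hgr hS]
      have h4 : (fun w : O => (π w, w)) ⁻¹'
          {p : X × O | ((sh (-m) p.1, sh (-m) p.2) : X × O) ∈ S} =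
          (sh (-m) : O → O) ⁻¹' ((fun w : O => (π w, w)) ⁻¹' S) := by
        ext w
        simp only [mem_ofPred_eq, mem_preimage]
        rw [he]
      rw [h4, ← Measure.map_apply (hshO (-m)) (hgr hS), hinv]
    filter_upwards [eq_condKernel_of_measure_eq_compProd κ hk] with x hx
    rw [← hx, hκ, Kernel.map_apply _ (hshO (-m)), Kernel.comap_apply,
      Measure.map_map (hshO m) (hshO (-m))]
    have h5 : (sh m : O → O) ∘ (sh (-m) : O → O) = id := by
      funext w
      change sh m (sh (-m) w) = w
      rw [← sh_add, add_neg_cancel, sh_zero]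
    rw [h5, Measure.map_id]
  · have h6 := Measure.snd_compProd ρ.fst ρ.condKernel
    rw [hdis, hsnd] at h6
    exact h6.symm

end Pool.Agent.Work.MP_69fea5_lc.W3
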