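import Pool.Agent.Work.MP_69fea5_lc.W3.StmtsQ

/-!
# [69fea5 W3 Q QK2] continuity of the integrals over `kap`
-/

set_option autoImplicit false

namespace Pool.Agent.Work.MP_69fea5_lc.W3

open MeasureTheory ProbabilityTheory Topology Set Filter TopologicalSpace
open scoped NNReal ENNReal
open Pool.Agent.Work.MP_69fea5_lc.AK

namespace I_QK2

theorem update_eq {O : Type} {n : ℕ} (j : Fin n) (w : O) (u u' : Fin n → O)
    (h : ∀ i ∈ ((Finset.univ.erase j : Finset (Fin n)) : Set (Fin n)), u i = u' i) :
    Function.update u j w = Function.update u' j w := by
  funext i
  by_cases hi : i = j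
  · subst hi
    rw [Function.update_self, Function.update_self]
  · rw [Function.update_of_ne hi, Function.update_of_ne hi]
    exact h i (by simp [hi])

end I_QK2

open I_QK2 in
theorem QK2_pf (hQSC : S_QSC) (hQK1 : S_QK1) : S_QK2 := by
  intro X O _ _ _ _ _ _ _ _ n π lam η c P K hL hC g hg j
  haveI := hL.prob
  haveI := hL.mrk
  have hdom : ∀ x : X, ∀ i ∈ (Finset.univ.erase j : Finset (Fin n)),
      (K j x : Measure (Fin n → X)).map (fun z => z i) ≤ c • lam := by
    intro x i hi
    exact hC.dom j i (Finset.ne_of_mem_erase hi) x
  constructor
  · have h1 := hQSC X O (Fin n) O η lam c (Finset.univ.erase j) univ (fun w => K j (π w))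
      (fun w u => g (Function.update u j w)) ((hC.cont j).comp hL.cont).continuousOn
      (fun w _ => hdom (π w))
      (Continuous.continuousOn (by
        exact hg.comp (continuous_snd.update j continuous_fst)))
      (fun w _ u u' h => by
        change g (Function.update u j w) = g (Function.update u' j w)
        rw [update_eq j w u u' h])
    rw [continuousOn_univ] at h1
    refine h1.congr fun w => ?_
    exact ((hQK1 X O n π lam η c P K hL hC).2.2.1 j w g hg.measurable).symm
  · exact hQSC X O (Fin n) (O × O) η lam c (Finset.univ.erase j) {q | π q.1 = π q.2}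
      (fun q => K j (π q.1))
      (fun q u => |g (Function.update u j q.1) - g (Function.update u j q.2)|)
      ((hC.cont j).comp (hL.cont.comp continuous_fst)).continuousOn
      (fun q _ => hdom (π q.1))
      (Continuous.continuousOn (by
        exact ((hg.comp (continuous_snd.update j (continuous_fst.comp continuous_fst))).sub
          (hg.comp (continuous_snd.update j (continuous_snd.comp continuous_fst)))).abs))
      (fun q _ u u' h => by
        change |g (Function.update u j q.1) - g (Function.update u j q.2)| =
          |g (Function.update u' j q.1) - g (Function.update u' j q.2)|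
        rw [update_eq j q.1 u u' h, update_eq j q.2 u u' h])

end Pool.Agent.Work.MP_69fea5_lc.W3
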