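import Pool.Agent.Work.MP_69fea5_lc.W3.I_QC1
import Pool.Agent.Work.MP_69fea5_lc.W3.I_QC2
import Pool.Agent.Work.MP_69fea5_lc.W3.I_QC3
import Pool.Agent.Work.MP_69fea5_lc.W3.I_QD1
import Pool.Agent.Work.MP_69fea5_lc.W3.I_QD2
import Pool.Agent.Work.MP_69fea5_lc.W3.I_QD3
import Pool.Agent.Work.MP_69fea5_lc.W3.I_QD4
import Pool.Agent.Work.MP_69fea5_lc.W3.I_QDI
import Pool.Agent.Work.MP_69fea5_lc.W3.I_QDL
import Pool.Agent.Work.MP_69fea5_lc.W3.I_QDU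
import Pool.Agent.Work.MP_69fea5_lc.W3.I_QET
import Pool.Agent.Work.MP_69fea5_lc.W3.I_QFD
import Pool.Agent.Work.MP_69fea5_lc.W3.I_QFM
import Pool.Agent.Work.MP_69fea5_lc.W3.I_QFN
import Pool.Agent.Work.MP_69fea5_lc.W3.I_QIS
import Pool.Agent.Work.MP_69fea5_lc.W3.I_QK1
import Pool.Agent.Work.MP_69fea5_lc.W3.I_QK2
import Pool.Agent.Work.MP_69fea5_lc.W3.I_QK3
import Pool.Agent.Work.MP_69fea5_lc.W3.I_QMN
import Pool.Agent.Work.MP_69fea5_lc.W3.I_QOR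
import Pool.Agent.Work.MP_69fea5_lc.W3.I_QPW
import Pool.Agent.Work.MP_69fea5_lc.W3.I_QSC
import Pool.Agent.Work.MP_69fea5_lc.W3.I_QSW
import Pool.Agent.Work.MP_69fea5_lc.W3.I_QT3
import Pool.Agent.Work.MP_69fea5_lc.W3.I_QUC

/-!
# Block [69fea5 W3 Q]: assembly of the 0-1 law on the minimal system (THEOREM 3M)
-/

set_option autoImplicit false

namespace Pool.Agent.Work.MP_69fea5_lc.W3.AsmQ

theorem qFN : S_QFN := QFN_pf QPW_pf QFM_pf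
theorem qFD : S_QFD := QFD_pf QPW_pf QFM_pf
theorem qSC : S_QSC := QSC_pf QFM_pf QSW_pf
theorem qK1 : S_QK1 := QK1_pf QPW_pf QFM_pf qFD
theorem qK2 : S_QK2 := QK2_pf qSC qK1
theorem qK3 : S_QK3 := QK3_pf qK1 qK2
theorem qDI : S_QDI := QDI_pf qK1 qK2
theorem qD1 : S_QD1 := QD1_pf qFN qK1
theorem qD2 : S_QD2 := QD2_pf QFM_pf qSC qD1
theorem qD3 : S_QD3 := QD3_pf QFM_pf qFD qK1 qD1
theorem qD4 : S_QD4 := QD4_pf QFM_pf qFN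
theorem qC1 : S_QC1 := QC1_pf QPW_pf QFM_pf
theorem qC2 : S_QC2 := QC2_pf QPW_pf QFM_pf qFN qC1
theorem qC3 : S_QC3 := QC3_pf qFN qC2
theorem qMN : S_QMN := QMN_pf qK1 qK3 QIS_pf
theorem qDU : S_QDU := QDU_pf QPW_pf QFM_pf qFD qK1 qD2
theorem qDL : S_QDL := QDL_pf QFM_pf qFD qK1 qK2 qD2 qD3 qD4
theorem qOR : S_QOR := QOR_pf QSW_pf qK1 qD2 qDU qC3 qDL

/-- THEOREM 3M -/
theorem qT3 : S_QT3 := QT3_pf qK1 qK2 QUC_pf qDI QIS_pf qMN qOR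

end Pool.Agent.Work.MP_69fea5_lc.W3.AsmQ
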