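import Pool.Agent.Work.MP_69fea5_lc.W3.CodM

/-!
# Wave 3, coding: coded actions of any coded index set, coded optimisation

`CAct S A`: `A : γ → α → α` is a coded family of continuous maps.  Coded times, coded dense
families in the fibres of orbit closures, values of continuous equivariant maps, unique minimisers.
-/

set_option autoImplicit false
set_option linter.unusedSectionVars false
set_option linter.unusedVariables false
set_option linter.deprecated false

open Filter Topology MeasureTheory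

namespace Pool.Agent.Work.MP_69fea5_lc.W3

open Pool.Agent.Work.MP_69fea5_lc
open Pool.Agent.Work.MP_69fea5_lc.HK (Cl DU Ar ArF ArR Dat Law LawC act near sc Pt oc Mn mr)
open Pool.Agent.Work.MP_69fea5_lc.KC (Agree oc_eq minSet_of_Mn)

/-- the family of maps `A` sends coded families to coded families -/
def CAct (S : Set (Set ℕ)) {γ α : Type} [Primcodable γ] [Dat α] (A : γ → α → α) : Prop :=
  ∀ (β : Type) [Primcodable β] (w : β → α), sc S w → sc S (fun p : β × γ => A p.2 (w p.1))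

/-- the orbit closure of a point -/
def och {γ α : Type} [TopologicalSpace α] (A : γ → α → α) (x : α) : Set α :=
  closure (Set.range fun g => A g x)

section

variable {S : Set (Set ℕ)} {U : Ultrafilter ℕ} {α β γ ι : Type} [TopologicalSpace α] [Dat α]
  [Law α] [LawC α] [TopologicalSpace β] [Dat β] [Law β] [LawC β] [Primcodable ι] [Primcodable γ]

theorem cact_act (hS : Cl S) : CAct S (act : ℤ → α → α) := fun β _ w hw =>
  LawC.sc_act S β w hS hw

theorem CAct.sc (hS : Cl S) {A : γ → α → α} (hA : CAct S A) {w : ι → α} (hw : sc S w)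
    {g : ι → γ} (hg : ArF S g) : HK.sc S fun i => A (g i) (w i) :=
  sc_comp hS (hA ι w hw) (f := fun i => (i, g i)) ((ArF.id hS).pair hS hg)

theorem CAct.orb (hS : Cl S) {A : γ → α → α} (hA : CAct S A) {x : α} (hx : Pt S x)
    {g : ι → γ} (hg : ArF S g) : HK.sc S fun i => A (g i) x :=
  hA.sc hS (sc_const hS hx) hg

/-- product of two actions -/
theorem CAct.prod {A : γ → α → α} (hA : CAct S A) {B : γ → β → β} (hB : CAct S B) :
    CAct S (fun g (p : α × β) => (A g p.1, B g p.2)) := fun δ _ w hw =>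
  ⟨hA δ _ hw.1, hB δ _ hw.2⟩

theorem exists_near_of_och {A : γ → α → α} {w x : α} (h : x ∈ och A w) (L : ℕ) :
    ∃ g : γ, near L (A g w) x := by
  obtain ⟨_, h1, n, rfl⟩ := mem_closure_iff_nhds.1 h _ (HK.near_mem_nhds L x)
  exact ⟨n, h1⟩

theorem mem_och_of_near {A : γ → α → α} {w x : α} (h : ∀ L, ∃ g : γ, near L (A g w) x) :
    x ∈ och A w := by
  refine mem_closure_iff_nhds.2 fun V hV => ?_
  obtain ⟨L, hL⟩ := Law.near_basis x V hV
  obtain ⟨n, hn⟩ := h L
  exact ⟨_, hL _ (Law.near_symm _ _ _ hn), n, rfl⟩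

theorem mem_och_of_tendsto {A : γ → α → α} {w x : α} {n : ℕ → γ}
    (h : Tendsto (fun r => A (n r) w) (U : Filter ℕ) (𝓝 x)) : x ∈ och A w :=
  mem_closure_of_tendsto h (Eventually.of_forall fun r => ⟨n r, rfl⟩)

/-- coded times for a coded family of points of orbit closures -/
theorem exists_times_fam_g (hS : Cl S) {A : γ → α → α} (hA : CAct S A) {w x : ι → α}
    (hw : sc S w) (hx : sc S x) (h : ∀ i, x i ∈ och A (w i)) :
    ∃ n : ι × ℕ → γ, ArF S n ∧ ∀ i r, near r (A (n (i, r)) (w i)) (x i) := by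
  have h1 : Ar S fun p : (ι × ℕ) × γ => near p.1.2 (A p.2 (w p.1.1)) (x p.1.1) := by
    refine sc_near hS (w := fun p : (ι × ℕ) × γ => A p.2 (w p.1.1))
      (w' := fun p : (ι × ℕ) × γ => x p.1.1) (L := fun p => p.1.2) ?_ ?_ ?_
    · refine hA.sc hS (w := fun p : (ι × ℕ) × γ => w p.1.1) (g := fun p => p.2) ?_ (ArF.snd hS)
      exact sc_comp hS hw (ArF.of_primrec hS (Primrec.fst.comp Primrec.fst))
    · exact sc_comp hS hx (ArF.of_primrec hS (Primrec.fst.comp Primrec.fst))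
    · exact ArF.of_primrec hS (Primrec.snd.comp Primrec.fst)
  obtain ⟨n, hn, hn'⟩ := Ar.choose hS (R := fun (p : ι × ℕ) (m : γ) =>
    near p.2 (A m (w p.1)) (x p.1)) h1 fun p => exists_near_of_och (h p.1) p.2
  exact ⟨n, hn, fun i r => hn' (i, r)⟩

/-- a continuous equivariant map which is coded at one point is coded on all coded families in the
orbit closure -/
theorem sc_map_g (hS : Cl S) (hU : DU S U) {A : γ → α → α} (hA : CAct S A) {B : γ → β → β}
    (hB : CAct S B) {w : α} {f : α → β} (hf : ContinuousOn f (och A w))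
    (he : ∀ g : γ, f (A g w) = B g (f w)) (hw : Pt S w) (hfw : Pt S (f w)) {x : ι → α}
    (hx : sc S x) (h : ∀ i, x i ∈ och A w) : sc S fun i => f (x i) := by
  obtain ⟨n, hn, hn'⟩ := exists_times_fam_g hS hA (w := fun _ : ι => w) (sc_const hS hw) hx h
  refine sc_lim hS hU (w := fun p : ι × ℕ => B (n p) (f w)) (hB.orb hS hfw hn) fun i => ?_
  have h1 : Tendsto (fun r => A (n (i, r)) w) (U : Filter ℕ) (𝓝 (x i)) :=
    tendsto_near hU.top (hn' i)
  have h2 : Tendsto (fun r => A (n (i, r)) w) (U : Filter ℕ) (𝓝[och A w] (x i)) :=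
    tendsto_nhdsWithin_iff.2 ⟨h1, Eventually.of_forall fun r => subset_closure ⟨_, rfl⟩⟩
  refine ((hf (x i) (h i)).tendsto.comp h2).congr fun r => ?_
  exact he _

open Classical in
/-- a coded dense family in the fibre of an orbit closure -/
theorem exists_dense_fibre_g [CompactSpace β] [T2Space α] (hS : Cl S) (hU : DU S U)
    {A : γ → α → α} (hA : CAct S A) {B : γ → β → β} (hB : CAct S B) {e : γ} {x₀ : α} {y₀ : β}
    (hAe : A e x₀ = x₀) (hx₀ : Pt S x₀) (hy₀ : Pt S y₀) :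
    ∃ u : γ × ℕ → β, sc S u ∧
      (∀ i, (x₀, u i) ∈ och (fun g (p : α × β) => (A g p.1, B g p.2)) (x₀, y₀)) ∧
      ∀ y : β, (x₀, y) ∈ och (fun g (p : α × β) => (A g p.1, B g p.2)) (x₀, y₀) →
        y ∈ closure (Set.range u) := by
  -- good indices
  set G : γ × ℕ → ℕ → γ → Prop := fun i r m =>
    near r (A m x₀) x₀ ∧ near i.2 (B m y₀) (B i.1 y₀) with hG
  have hGar : Ar S fun p : ((γ × ℕ) × ℕ) × γ => G p.1.1 p.1.2 p.2 := by
    refine Ar.and hS ?_ ?_
    · refine sc_near hS (w := fun p : ((γ × ℕ) × ℕ) × γ => A p.2 x₀)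
        (w' := fun _ => x₀) (L := fun p => p.1.2) ?_ (sc_const hS hx₀) ?_
      · exact hA.orb hS hx₀ (ArF.snd hS)
      · exact ArF.of_primrec hS (Primrec.snd.comp Primrec.fst)
    · refine sc_near hS (w := fun p : ((γ × ℕ) × ℕ) × γ => B p.2 y₀)
        (w' := fun p => B p.1.1.1 y₀) (L := fun p => p.1.1.2) ?_ ?_ ?_
      · exact hB.orb hS hy₀ (ArF.snd hS)
      · exact hB.orb hS hy₀ (ArF.of_primrec hS
          (Primrec.fst.comp (Primrec.fst.comp Primrec.fst)))
      · exact ArF.of_primrec hS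
          (Primrec.snd.comp (Primrec.fst.comp Primrec.fst))
  have hEx : Ar S fun p : (γ × ℕ) × ℕ => ∃ m : γ, G p.1 p.2 m :=
    Ar.ex hS (R := fun (p : (γ × ℕ) × ℕ) (m : γ) => G p.1 p.2 m) hGar
  have hAll : Ar S fun i : γ × ℕ => ∀ r : ℕ, ∃ m : γ, G i r m :=
    Ar.all hS (R := fun (i : γ × ℕ) (r : ℕ) => ∃ m : γ, G i r m) hEx
  -- the times
  obtain ⟨n, hn, hn'⟩ := Ar.choose hS (R := fun (p : (γ × ℕ) × ℕ) (m : γ) =>
      ((∀ r : ℕ, ∃ m : γ, G p.1 r m) → G p.1 p.2 m) ∧
      ((¬ ∀ r : ℕ, ∃ m : γ, G p.1 r m) → m = e)) (by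
    refine Ar.and hS (Ar.imp hS ?_ hGar) (Ar.imp hS (Ar.not hS ?_) ?_)
    · exact Ar.comp hS hAll (f := fun p : ((γ × ℕ) × ℕ) × γ => p.1.1)
        (Primrec.fst.comp Primrec.fst)
    · exact Ar.comp hS hAll (f := fun p : ((γ × ℕ) × ℕ) × γ => p.1.1)
        (Primrec.fst.comp Primrec.fst)
    · exact Ar.eq hS (ArF.snd hS) (ArF.const hS e)) (by
    intro p
    by_cases h : ∀ r : ℕ, ∃ m : γ, G p.1 r m
    · obtain ⟨m, hm⟩ := h p.2
      exact ⟨m, fun _ => hm, fun h' => absurd h h'⟩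
    · exact ⟨e, fun h' => absurd h' h, fun _ => rfl⟩)
  have hlim := exists_lim_fam (α := β) hS hU (w := fun p : (γ × ℕ) × ℕ => B (n p) y₀)
    (hB.orb hS hy₀ hn)
  obtain ⟨u, hu, hu'⟩ := hlim
  have hx : ∀ i, Tendsto (fun r => A (n (i, r)) x₀) (U : Filter ℕ) (𝓝 x₀) := by
    intro i
    by_cases h : ∀ r : ℕ, ∃ m : γ, G i r m
    · exact tendsto_near hU.top fun r => ((hn' (i, r)).1 h).1
    · have h1 : ∀ r, n (i, r) = e := fun r => (hn' (i, r)).2 h
      simp only [h1, hAe]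
      exact tendsto_const_nhds
  refine ⟨u, hu, fun i => ?_, fun y hy => ?_⟩
  · have h1 : Tendsto (fun r => (fun g (p : α × β) => (A g p.1, B g p.2)) (n (i, r)) (x₀, y₀))
        (U : Filter ℕ) (𝓝 (x₀, u i)) := (hx i).prodMk_nhds (hu' i)
    exact mem_och_of_tendsto h1
  · refine mem_closure_iff_nhds.2 fun V hV => ?_
    obtain ⟨L, hL⟩ := Law.near_basis y V hV
    -- the level
    obtain ⟨n₀, hn₀⟩ := exists_near_of_och hy (2 * (2 * (L + 1) + 1 + 1) + 1)
    have hG0 : ∀ r : ℕ, ∃ m : γ, G (n₀, 2 * (L + 1) + 1 + 1) r m := by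
      intro r
      obtain ⟨m, hm⟩ := exists_near_of_och hy (max r (2 * (2 * (L + 1) + 1 + 1) + 1))
      refine ⟨m, ?_, ?_⟩
      · exact Law.near_mono _ _ _ _ (le_max_left _ _) hm.1
      · exact Law.near_tri _ _ _ _ (Law.near_mono _ _ _ _ (le_max_right _ _) hm.2)
          (Law.near_symm _ _ _ hn₀.2)
    refine ⟨u (n₀, 2 * (L + 1) + 1 + 1), ?_, ⟨_, rfl⟩⟩
    have h2 : near (2 * (L + 1) + 1) (B n₀ y₀) (u (n₀, 2 * (L + 1) + 1 + 1)) := by
      refine Law.near_lim _ (B n₀ y₀, u (n₀, 2 * (L + 1) + 1 + 1)) ?_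
      have h3 : Tendsto (fun r => (B n₀ y₀, B (n ((n₀, 2 * (L + 1) + 1 + 1), r)) y₀))
          (U : Filter ℕ) (𝓝 (B n₀ y₀, u (n₀, 2 * (L + 1) + 1 + 1))) :=
        tendsto_const_nhds.prodMk_nhds (hu' _)
      refine mem_closure_of_tendsto h3 (Eventually.of_forall fun r => ?_)
      exact Law.near_symm _ _ _ ((hn' ((n₀, 2 * (L + 1) + 1 + 1), r)).1 hG0).2
    have h4 : near (2 * (L + 1) + 1) (B n₀ y₀) y :=
      Law.near_mono _ _ _ _ (by omega) hn₀.2
    refine hL _ (Law.near_mono L (L + 1) _ _ (by omega) ?_)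
    exact Law.near_tri _ _ _ _ (Law.near_symm _ _ _ h4) h2

/-- a point which is the unique minimiser of the supremum of a coded family of continuous
functions on the closure of a coded family is coded -/
theorem pt_of_unique [CompactSpace α] (hS : Cl S) (hU : DU S U) {a : ι → α} (ha : sc S a)
    {e : γ → α → ℝ} (he : ∀ g, Continuous (e g)) (he0 : ∀ g x, 0 ≤ e g x)
    (hea : ArR S fun p : ι × γ => e p.2 (a p.1)) {x : α} (hx : x ∈ closure (Set.range a))
    {E : ℝ} (hE : ∀ g, e g x ≤ E)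
    (hu : ∀ y ∈ closure (Set.range a), (∀ g, e g y ≤ E) → y = x) : Pt S x := by
  classical
  -- almost optimal indices
  set R : ℕ → ι → Prop := fun L i => ∀ j : ι, ∀ g : γ, Encodable.encode g ≤ L →
    e g (a i) ≤ 1 / ((L : ℝ) + 1) ∨ ∃ g' : γ, Encodable.encode g' ≤ L ∧
      e g (a i) ≤ e g' (a j) + 1 / ((L : ℝ) + 1) with hR
  have hone : ∀ {δ : Type} [Primcodable δ] {L : δ → ℕ}, ArF S L →
      ArR S fun d => 1 / ((L d : ℝ) + 1) := by
    intro δ _ L hL
    exact (HK.ArR.rat hS (u := fun _ : δ => 1) (v := L) (ArF.const hS 1) hL).congr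
      fun d => by simp
  have hRar : Ar S fun p : ℕ × ι => R p.1 p.2 := by
    refine Ar.all hS (R := fun (p : ℕ × ι) (j : ι) => ∀ g : γ, Encodable.encode g ≤ p.1 →
      e g (a p.2) ≤ 1 / ((p.1 : ℝ) + 1) ∨ ∃ g' : γ, Encodable.encode g' ≤ p.1 ∧
        e g (a p.2) ≤ e g' (a j) + 1 / ((p.1 : ℝ) + 1)) ?_
    refine Ar.all hS (R := fun (q : (ℕ × ι) × ι) (g : γ) => Encodable.encode g ≤ q.1.1 →
      e g (a q.1.2) ≤ 1 / ((q.1.1 : ℝ) + 1) ∨ ∃ g' : γ, Encodable.encode g' ≤ q.1.1 ∧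
        e g (a q.1.2) ≤ e g' (a q.2) + 1 / ((q.1.1 : ℝ) + 1)) ?_
    refine Ar.imp hS ?_ (Ar.or hS ?_ ?_)
    · exact Ar.le hS (ArF.of_primrec hS (Primrec.encode.comp Primrec.snd))
        (ArF.of_primrec hS (Primrec.fst.comp (Primrec.fst.comp Primrec.fst)))
    · refine HK.ArR.rle hS ?_ (hone (ArF.of_primrec hS
        (Primrec.fst.comp (Primrec.fst.comp Primrec.fst)))) fun q => by positivity
      exact HK.ArR.comp hS hea (g := fun q : ((ℕ × ι) × ι) × γ => (q.1.1.2, q.2))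
        ((Primrec.snd.comp (Primrec.fst.comp Primrec.fst)).pair Primrec.snd)
    · refine Ar.ex hS (R := fun (q : ((ℕ × ι) × ι) × γ) (g' : γ) =>
        Encodable.encode g' ≤ q.1.1.1 ∧
          e q.2 (a q.1.1.2) ≤ e g' (a q.1.2) + 1 / ((q.1.1.1 : ℝ) + 1)) ?_
      refine Ar.and hS ?_ ?_
      · exact Ar.le hS (ArF.of_primrec hS (Primrec.encode.comp Primrec.snd))
          (ArF.of_primrec hS
            (Primrec.fst.comp (Primrec.fst.comp (Primrec.fst.comp Primrec.fst))))
      · refine HK.ArR.rle hS ?_ (HK.ArR.add hS ?_ (hone (ArF.of_primrec hS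
          (Primrec.fst.comp (Primrec.fst.comp (Primrec.fst.comp Primrec.fst)))))
          (fun q => he0 _ _) fun q => by positivity) fun q =>
            add_nonneg (he0 _ _) (by positivity)
        · exact HK.ArR.comp hS hea (g := fun q : (((ℕ × ι) × ι) × γ) × γ =>
            (q.1.1.1.2, q.1.2)) ((Primrec.snd.comp (Primrec.fst.comp (Primrec.fst.comp
              Primrec.fst))).pair (Primrec.snd.comp Primrec.fst))
        · exact HK.ArR.comp hS hea (g := fun q : (((ℕ × ι) × ι) × γ) × γ =>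
            (q.1.1.2, q.2)) ((Primrec.snd.comp (Primrec.fst.comp Primrec.fst)).pair
              Primrec.snd)
  -- existence
  have hne : Nonempty ι := by
    by_contra h
    rw [not_nonempty_iff] at h
    have : Set.range a = ∅ := Set.range_eq_empty a
    rw [this, closure_empty] at hx
    exact hx
  -- the maximum over the finite set of indices
  have hmax : ∀ (L : ℕ) (i : ι), ∃ M : ℝ, 0 ≤ M ∧ (∀ g : γ, Encodable.encode g ≤ L →
      e g (a i) ≤ M) ∧ (M = 0 ∨ ∃ g : γ, Encodable.encode g ≤ L ∧ M = e g (a i)) := by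
    intro L i
    rcases (HK.cle' γ L).eq_empty_or_nonempty with h | h
    · refine ⟨0, le_rfl, fun g hg => ?_, Or.inl rfl⟩
      have : g ∈ HK.cle' γ L := HK.mem_cle'.2 hg
      rw [h] at this
      exact absurd this (Finset.notMem_empty g)
    · obtain ⟨g, hg, hg'⟩ := Finset.exists_max_image (HK.cle' γ L) (fun g => e g (a i)) h
      exact ⟨e g (a i), he0 _ _, fun g' h' => hg' g' (HK.mem_cle'.2 h'),
        Or.inr ⟨g, HK.mem_cle'.1 hg, rfl⟩⟩
  choose M hM0 hM1 hM2 using hmax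
  have hex : ∀ L : ℕ, ∃ i : ι, R L i := by
    intro L
    have hbd : BddBelow (Set.range (M L)) := ⟨0, by rintro _ ⟨i, rfl⟩; exact hM0 L i⟩
    have hpos : (0 : ℝ) < 1 / ((L : ℝ) + 1) := by positivity
    obtain ⟨_, ⟨i, rfl⟩, hi⟩ := exists_lt_of_csInf_lt (Set.range_nonempty (M L))
      (show sInf (Set.range (M L)) < sInf (Set.range (M L)) + 1 / ((L : ℝ) + 1) by linarith)
    refine ⟨i, fun j g hg => ?_⟩
    have h1 : sInf (Set.range (M L)) ≤ M L j := csInf_le hbd ⟨j, rfl⟩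
    have h2 := hM1 L i g hg
    rcases hM2 L j with h3 | ⟨g', hg', h3⟩
    · left
      linarith
    · right
      exact ⟨g', hg', by rw [← h3]; linarith⟩
  obtain ⟨f, hf, hfR⟩ := Ar.choose hS (R := R) hRar hex
  obtain ⟨y, hy, hy'⟩ := exists_lim hS hU (w := fun L => a (f L)) (sc_comp hS ha hf)
  have hyc : y ∈ closure (Set.range a) :=
    mem_closure_of_tendsto hy' (Eventually.of_forall fun L => ⟨f L, rfl⟩)
  have hyE : ∀ g, e g y ≤ E := by
    intro g
    by_contra hc
    push Not at hc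
    obtain ⟨L₀, hL₀⟩ := exists_nat_one_div_lt (show (0 : ℝ) < (e g y - E) / 3 by linarith)
    have hE0 : 0 ≤ E := (he0 g x).trans (hE g)
    have h1 : ∀ᶠ L in (U : Filter ℕ), E + 2 * ((e g y - E) / 3) < e g (a (f L)) := by
      have := ((he g).tendsto y).comp hy'
      exact this.eventually (lt_mem_nhds (by linarith))
    have h2 : ∀ᶠ L in (U : Filter ℕ), max L₀ (Encodable.encode g) ≤ L :=
      hU.top (eventually_ge_atTop _)
    obtain ⟨L, h3, h4⟩ := (h1.and h2).exists
    have hL1 : (1 : ℝ) / ((L : ℝ) + 1) < (e g y - E) / 3 := by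
      refine lt_of_le_of_lt (one_div_le_one_div_of_le (by positivity) ?_) hL₀
      have : (L₀ : ℝ) ≤ L := by exact_mod_cast (le_max_left _ _).trans h4
      linarith
    -- a point close to `x`
    have h5 : ∀ᶠ z in 𝓝 x, ∀ g' ∈ HK.cle' γ L, e g' z < E + (e g y - E) / 3 := by
      rw [Filter.eventually_all_finset]
      intro g' _
      exact ((he g').tendsto x).eventually (gt_mem_nhds (by linarith [hE g']))
    obtain ⟨_, hz, j, rfl⟩ := mem_closure_iff_nhds.1 hx _ h5
    rcases hfR L j g ((le_max_right _ _).trans h4) with h6 | ⟨g', hg', h6⟩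
    · linarith
    · have h7 := hz g' (HK.mem_cle'.2 hg')
      linarith
  rw [← hu y hyc hyE]
  exact hy

end

end Pool.Agent.Work.MP_69fea5_lc.W3
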