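import Pool.Agent.Work.MP_69fea5_lc.W3.CodP

/-!
# Wave 3, coding: coded probability measures
-/

set_option autoImplicit false
set_option linter.unusedSectionVars false
set_option linter.unusedVariables false
set_option linter.deprecated false

open Filter Topology MeasureTheory

namespace Pool.Agent.Work.MP_69fea5_lc.W3

open Pool.Agent.Work.MP_69fea5_lc
open Pool.Agent.Work.MP_69fea5_lc.HK (Cl DU Ar ArF ArR Dat Law LawC act near sc Pt oc Mn mr)
open Pool.Agent.Work.MP_69fea5_lc.KC (Agree oc_eq minSet_of_Mn)

section measures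

variable {α : Type} [TopologicalSpace α] [MeasurableSpace α] [CS α] [Dat α] [TF α]

/-- the moments of a probability measure -/
noncomputable def mo (m : ProbabilityMeasure α) (i : TF.ι α) : ℝ :=
  ∫ x, TF.fn i x ∂(m : Measure α)

/-- a test function as a bounded continuous function -/
noncomputable def tb (i : TF.ι α) : BoundedContinuousFunction α ℝ :=
  BoundedContinuousFunction.mkOfCompact ⟨TF.fn i, TF.cont i⟩

theorem tb_apply (i : TF.ι α) (x : α) : tb i x = TF.fn i x := rfl

theorem integrable_fn (m : ProbabilityMeasure α) (i : TF.ι α) :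
    Integrable (TF.fn i) (m : Measure α) := (tb i).integrable _

theorem mo_nn (m : ProbabilityMeasure α) (i : TF.ι α) : 0 ≤ mo m i :=
  integral_nonneg fun x => TF.nn i x

theorem mo_le (m : ProbabilityMeasure α) (i : TF.ι α) : mo m i ≤ 1 := by
  have h : mo m i ≤ ∫ _, (1 : ℝ) ∂(m : Measure α) :=
    integral_mono (integrable_fn m i) (integrable_const 1) fun x => TF.le i x
  simpa using h

theorem mo_one (m : ProbabilityMeasure α) : mo m (TF.one : TF.ι α) = 1 := by
  unfold mo
  simp only [TF.fn_one]
  simp

theorem continuous_mo (i : TF.ι α) : Continuous fun m : ProbabilityMeasure α => mo m i :=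
  ProbabilityMeasure.continuous_integral_boundedContinuousFunction (X := α) (tb i)

/-- a measure is determined by its moments -/
theorem mo_ext {m m' : ProbabilityMeasure α} (h : ∀ i, mo m i = mo m' i) : m = m' := by
  letI : MetricSpace α := TopologicalSpace.metrizableSpaceMetric α
  have hP : PolishSpace α := inferInstance
  apply Subtype.ext
  have hm : IsFiniteMeasure m.val := by have := m.2; infer_instance
  have hm' : IsFiniteMeasure m'.val := by have := m'.2; infer_instance
  let M : Submonoid (BoundedContinuousFunction α ℝ) :=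
    { carrier := Set.range tb
      one_mem' := ⟨TF.one, by ext x; simp [tb_apply, TF.fn_one]⟩
      mul_mem' := by
        rintro _ _ ⟨i, rfl⟩ ⟨j, rfl⟩
        exact ⟨TF.mul i j, by ext x; simp [tb_apply, TF.fn_mul]⟩ }
  let A : StarSubalgebra ℝ (BoundedContinuousFunction α ℝ) :=
    { (Algebra.adjoin ℝ (Set.range (tb (α := α)))) with
      star_mem' := by
        intro f hf
        have : star f = f := by ext x; simp
        rw [this]
        exact hf }
  refine ext_of_forall_mem_subalgebra_integral_eq_of_polish (𝕜 := ℝ) (A := A) ?_ ?_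
  · intro x y hxy
    by_contra hc
    push Not at hc
    refine hxy (TF.sep x y fun i => ?_)
    refine hc (TF.fn i) ⟨⟨TF.fn i, TF.cont i⟩, ?_, rfl⟩
    refine ⟨tb i, ?_, rfl⟩
    exact Algebra.subset_adjoin ⟨i, rfl⟩
  · intro g hg
    have hg1 : g ∈ Submodule.span ℝ (Set.range (tb (α := α))) := by
      have h1 : g ∈ Subalgebra.toSubmodule (Algebra.adjoin ℝ (Set.range (tb (α := α)))) := hg
      rw [Algebra.adjoin_eq_span] at h1
      refine Submodule.span_mono ?_ h1
      have h2 : Submonoid.closure (Set.range (tb (α := α))) ≤ M := Submonoid.closure_le.2 le_rfl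
      exact h2
    clear hg
    induction hg1 using Submodule.span_induction with
    | mem f hf =>
      obtain ⟨i, rfl⟩ := hf
      exact h i
    | zero => simp
    | add f f' _ _ h1 h2 =>
      have e : ∀ ν : Measure α, IsFiniteMeasure ν →
          ∫ x, (f + f') x ∂ν = ∫ x, f x ∂ν + ∫ x, f' x ∂ν := fun ν hν => by
        simp only [BoundedContinuousFunction.coe_add, Pi.add_apply]
        exact integral_add (f.integrable _) (f'.integrable _)
      rw [e _ hm, e _ hm', h1, h2]
    | smul a f _ h1 =>
      have e : ∀ ν : Measure α, ∫ x, (a • f) x ∂ν = a * ∫ x, f x ∂ν := fun ν => by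
        simp only [BoundedContinuousFunction.coe_smul, smul_eq_mul]
        exact integral_const_mul _ _
      rw [e, e, h1]

theorem isInducing_mo : IsInducing fun (m : ProbabilityMeasure α) (i : TF.ι α) => mo m i :=
  (Continuous.isClosedEmbedding (continuous_pi fun i => continuous_mo i)
    (fun _ _ h => mo_ext fun i => congrFun h i)).isInducing

variable [Law α]

noncomputable instance (priority := 40) datPr : Dat (ProbabilityMeasure α) where
  act n m := m.map (f := (act n : α → α)) (Law.cont n).measurable.aemeasurable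
  near L m m' := ∀ i : TF.ι α, Encodable.encode i ≤ L → |mo m i - mo m' i| < 1 / (L + 1)
  sc S β _ w := ArR S (fun p : β × TF.ι α => mo (w p.1) p.2)

theorem mo_act (n : ℤ) (m : ProbabilityMeasure α) (i : TF.ι α) :
    mo (m.map (f := (act n : α → α)) (Law.cont n).measurable.aemeasurable) i =
      mo m (TF.shf n i) := by
  unfold mo
  rw [ProbabilityMeasure.toMeasure_map, integral_map (Law.cont n).measurable.aemeasurable
    (TF.cont i).aestronglyMeasurable]
  simp only [TF.fn_act]

instance (priority := 40) agreePr [AK.Sys α] [Agree α] : Agree (ProbabilityMeasure α) := by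
  constructor
  intro n m
  apply Subtype.ext
  have h : (act n : α → α) = AK.sh n := funext fun x => Agree.eq n x
  show Measure.map (act n : α → α) (m : Measure α) = Measure.map (AK.sh n : α → α) (m : Measure α)
  rw [h]

instance (priority := 40) lawPr : Law (ProbabilityMeasure α) where
  act_zero m := by
    apply Subtype.ext
    have : (act (0 : ℤ) : α → α) = id := funext fun z => Law.act_zero z
    change Measure.map (act (0 : ℤ) : α → α) (m : Measure α) = m
    rw [this, Measure.map_id]
  act_add a b m := by
    apply Subtype.ext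
    change Measure.map (act (a + b) : α → α) (m : Measure α) =
      Measure.map (act a : α → α) (Measure.map (act b : α → α) (m : Measure α))
    rw [Measure.map_map (Law.cont a).measurable (Law.cont b).measurable]
    congr 1
    exact funext fun z => Law.act_add a b z
  cont n := ProbabilityMeasure.continuous_map (Law.cont n)
  near_open L := by
    have e : {p : ProbabilityMeasure α × ProbabilityMeasure α | near L p.1 p.2} =
        ⋂ i ∈ HK.cle' (TF.ι α) L, {p : ProbabilityMeasure α × ProbabilityMeasure α |
          |mo p.1 i - mo p.2 i| < 1 / ((L : ℝ) + 1)} := by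
      ext p
      simp only [near, Set.mem_setOf_eq, Set.mem_iInter, HK.mem_cle']
    rw [e]
    exact isOpen_biInter_finset fun i _ => isOpen_lt
      (((continuous_mo i).comp continuous_fst).sub ((continuous_mo i).comp continuous_snd)).abs
      continuous_const
  near_refl L m i _ := by
    simp only [sub_self, abs_zero]
    positivity
  near_symm L m m' h i hi := by
    rw [abs_sub_comm]
    exact h i hi
  near_tri L m m' m'' h h' i hi := HK.real_near_tri (h i (by omega)) (h' i (by omega))
  near_mono L L' m m' hL h i hi := HK.real_near_mono hL (h i (hi.trans hL))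
  near_lim L p hp i hi := by
    apply HK.real_near_lim
    have hcl : IsClosed {q : ProbabilityMeasure α × ProbabilityMeasure α |
        |mo q.1 i - mo q.2 i| ≤ 1 / ((L + 1 : ℕ) + 1 : ℝ)} :=
      isClosed_le (((continuous_mo i).comp continuous_fst).sub
        ((continuous_mo i).comp continuous_snd)).abs continuous_const
    refine closure_minimal ?_ hcl hp
    intro q hq
    exact (hq i (hi.trans (by omega))).le
  near_basis m U hU := by
    rw [isInducing_mo.nhds_eq_comap, Filter.mem_comap] at hU
    obtain ⟨W, hW, hWU⟩ := hU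
    rw [nhds_pi, Filter.mem_pi] at hW
    obtain ⟨J, hJ, s, hs, hsub⟩ := hW
    have h3 : ∀ i : TF.ι α, ∃ L : ℕ, ∀ r : ℝ,
        |mo m i - r| < 1 / ((L : ℝ) + 1) → r ∈ s i := by
      intro i
      obtain ⟨ε, hε, hball⟩ := Metric.mem_nhds_iff.1 (hs i)
      obtain ⟨L, hL⟩ := exists_nat_one_div_lt hε
      refine ⟨L, fun r hr => hball ?_⟩
      rw [Metric.mem_ball, dist_comm]
      exact hr.trans hL
    choose f hf using h3
    refine ⟨hJ.toFinset.sup fun i => max (f i) (Encodable.encode i), fun m' hm' =>
      hWU (hsub fun i hi => ?_)⟩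
    have h4 := Finset.le_sup (f := fun i => max (f i) (Encodable.encode i))
      (hJ.mem_toFinset.2 hi)
    have h5 : f i ≤ hJ.toFinset.sup fun i => max (f i) (Encodable.encode i) :=
      (le_max_left _ _).trans h4
    have h6 : Encodable.encode i ≤ hJ.toFinset.sup fun i => max (f i) (Encodable.encode i) :=
      (le_max_right _ _).trans h4
    exact hf i _ (HK.real_near_mono h5 (hm' i h6))

instance (priority := 40) lawCPr : LawC (ProbabilityMeasure α) where
  sc_comp S β γ _ _ w f hS hw hf := by
    exact HK.ArR.sub hS (f := fun p : β × TF.ι α => mo (w p.1) p.2) hw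
      (g := fun q : γ × TF.ι α => (f q.1, q.2)) ((hf.comp hS (ArF.fst hS)).pair hS (ArF.snd hS))
  sc_act S β _ w hS hw := by
    have h := HK.ArR.comp hS (f := fun p : β × TF.ι α => mo (w p.1) p.2) hw
      (g := fun q : (β × ℤ) × TF.ι α => (q.1.1, TF.shf q.1.2 q.2))
      ((Primrec.fst.comp Primrec.fst).pair
        (TF.shf_prim.comp (Primrec.snd.comp Primrec.fst) Primrec.snd))
    exact h.congr fun q => mo_act _ _ _
  sc_lim S U β _ w x hS hU hw hx := by
    refine HK.ArR.lim hS hU (f := fun (p : β × TF.ι α) n => mo (w (p.1, n)) p.2) ?_ ?_ ?_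
    · exact HK.ArR.comp hS (f := fun p : (β × ℕ) × TF.ι α => mo (w p.1) p.2) hw
        (g := fun q : (β × TF.ι α) × ℕ => ((q.1.1, q.2), q.1.2))
        (((Primrec.fst.comp Primrec.fst).pair Primrec.snd).pair (Primrec.snd.comp Primrec.fst))
    · intro p n; exact mo_nn _ _
    · intro p
      exact ((continuous_mo p.2).tendsto (x p.1)).comp (hx p.1)
  sc_near S β _ w w' hS hw hw' := by
    refine Ar.congr (R := fun p : ℕ × β => ∀ i : TF.ι α, Encodable.encode i ≤ p.1 →
      |mo (w p.2) i - mo (w' p.2) i| < 1 / ((p.1 : ℝ) + 1)) ?_ fun p => Iff.rfl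
    refine Ar.all hS (R := fun (p : ℕ × β) (i : TF.ι α) => Encodable.encode i ≤ p.1 →
      |mo (w p.2) i - mo (w' p.2) i| < 1 / ((p.1 : ℝ) + 1)) ?_
    refine Ar.imp hS ?_ ?_
    · exact Ar.le hS (ArF.of_primrec hS (Primrec.encode.comp Primrec.snd))
        (ArF.of_primrec hS (Primrec.fst.comp Primrec.fst))
    · refine HK.ArR.rlt hS ?_ ?_ fun _ => abs_nonneg _
      · refine HK.ArR.absd hS ?_ ?_ (fun _ => mo_nn _ _) fun _ => mo_nn _ _
        · exact HK.ArR.comp hS (f := fun p : β × TF.ι α => mo (w p.1) p.2) hw
            (g := fun q : (ℕ × β) × TF.ι α => (q.1.2, q.2))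
            ((Primrec.snd.comp Primrec.fst).pair Primrec.snd)
        · exact HK.ArR.comp hS (f := fun p : β × TF.ι α => mo (w' p.1) p.2) hw'
            (g := fun q : (ℕ × β) × TF.ι α => (q.1.2, q.2))
            ((Primrec.snd.comp Primrec.fst).pair Primrec.snd)
      · exact (HK.ArR.rat hS (u := fun _ : (ℕ × β) × TF.ι α => 1) (v := fun q => q.1.1)
          (ArF.const hS 1) (ArF.of_primrec hS (Primrec.fst.comp Primrec.fst))).congr
          fun q => by simp

noncomputable instance (priority := 40) tfPr : TF (ProbabilityMeasure α) :=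
  TF.ofList (TF.ι α) (fun i m => mo m i) (fun i => continuous_mo i) (fun i m => mo_nn m i)
    (fun i m => mo_le m i) (fun m m' h => mo_ext h) TF.shf TF.shf_prim
    (fun n i m => mo_act n m i) (fun S hS β _ w => Iff.rfl)

end measures

/-! ### Measures on `Om k` -/

section om

variable {k : ℕ}

theorem mo_om (m : AK.PM k) (P : HK.C k) : mo (α := HK.X k) m P = mr m (HK.cyl P) := by
  show ∫ x, (HK.cyl P).indicator (fun _ => (1 : ℝ)) x ∂(m : Measure (HK.X k)) = _
  rw [integral_indicator (HK.I_MEASW.measurable_cyl P)]
  simp [mr, Measure.real]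

noncomputable instance tfPM : TF (AK.PM k) :=
  TF.ofList (HK.C k) (fun P m => mr m (HK.cyl P)) (fun P => HK.continuous_mr_cyl P)
    (fun P m => HK.mr_nonneg m _) (fun P m => measureReal_le_one) (fun m m' h => HK.pm_ext h)
    HK.shC HK.primrec_shC (fun n P m => HK.mr_act_cyl n m P) (fun S hS β _ w => Iff.rfl)

end om

/-- coded probability measures: the moments are coded -/
class CP (α : Type) [TopologicalSpace α] [MeasurableSpace α] [CS α] [Dat α] [TF α]
    [Dat (ProbabilityMeasure α)] : Prop where
  sc_iff : ∀ (S : Set (Set ℕ)), Cl S → ∀ (β : Type) [Primcodable β]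
    (w : β → ProbabilityMeasure α), sc S w ↔ ArR S (fun p : β × TF.ι α => mo (w p.1) p.2)

instance (priority := 40) cpPr {α : Type} [TopologicalSpace α] [MeasurableSpace α] [CS α] [Dat α]
    [TF α] [Law α] : CP α := ⟨fun S hS β _ w => Iff.rfl⟩

instance cpPM {k : ℕ} : CP (AK.Om k) := by
  constructor
  intro S hS β _ w
  constructor
  · intro h
    exact HK.ArR.congr (show ArR S fun p : β × HK.C k => mr (w p.1) (HK.cyl p.2) from h)
      fun p => mo_om _ _
  · intro h
    exact HK.ArR.congr (show ArR S fun p : β × HK.C k => mo (α := HK.X k) (w p.1) p.2 from h)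
      fun p => (mo_om _ _).symm

noncomputable example {k : ℕ} : Dat (AK.PM k) := inferInstance
noncomputable example {k : ℕ} : TF (AK.Om k) := inferInstance
noncomputable example {k : ℕ} : TF (AK.PM k) := inferInstance
noncomputable example {k : ℕ} : TF (ProbabilityMeasure (AK.PM k)) := inferInstance
example {k : ℕ} : LawC (ProbabilityMeasure (AK.PM k)) := inferInstance
example {k : ℕ} {I : Type} [Primcodable I] : LawC (ProbabilityMeasure (AK.Om k × AK.Cube I)) :=
  inferInstance
example {k : ℕ} : Agree (ProbabilityMeasure (AK.PM k)) := inferInstance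
noncomputable example {I : Type} [Primcodable I] : TopologicalSpace (ProbabilityMeasure (ℕ → AK.Cube I)) :=
  inferInstance
example {I : Type} [Primcodable I] : CS (ℕ → AK.Cube I) :=
  inferInstance
example {I : Type} [Primcodable I] : LawC (ProbabilityMeasure (ℕ → AK.Cube I)) :=
  inferInstance
example {k : ℕ} {I : Type} [Primcodable I] :
    LawC (ProbabilityMeasure ((AK.Om k × AK.Cube I) × (ℕ → (AK.PM k × AK.Cube I)))) :=
  inferInstance

end Pool.Agent.Work.MP_69fea5_lc.W3
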