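import Pool.Agent.Work.MP_69fea5_lc.W3.CodL

/-!
# Wave 3, coding: measures on tuples of points of `Om k`
-/

set_option autoImplicit false
set_option linter.unusedSectionVars false
set_option linter.unusedVariables false
set_option linter.deprecated false

open Filter Topology MeasureTheory
open scoped ENNReal

namespace Pool.Agent.Work.MP_69fea5_lc.W3

open Pool.Agent.Work.MP_69fea5_lc
open Pool.Agent.Work.MP_69fea5_lc.HK (Cl DU Ar ArF ArR Dat Law LawC act near sc Pt oc Mn mr)
open Pool.Agent.Work.MP_69fea5_lc.KC (Agree oc_eq minSet_of_Mn)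

section tup

variable {S : Set (Set ℕ)} {k : ℕ} {ι : Type} [Primcodable ι]

/-- the constraints of the list on the coordinate `i` -/
def pick [DecidableEq ι] (l : List (ι × HK.C k)) (i : ι) : HK.C k :=
  l.flatMap fun t => if t.1 = i then t.2 else []

theorem prim_pick [DecidableEq ι] : Primrec₂ (pick : List (ι × HK.C k) → ι → HK.C k) := by
  have h : Primrec fun q : (List (ι × HK.C k) × ι) × (ι × HK.C k) =>
      if q.2.1 = q.1.2 then q.2.2 else ([] : HK.C k) :=
    Primrec.ite (Primrec.eq.comp (Primrec.fst.comp Primrec.snd) (Primrec.snd.comp Primrec.fst))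
      (Primrec.snd.comp Primrec.snd) (Primrec.const [])
  exact Primrec.list_flatMap Primrec.fst h.to₂

theorem mem_box_iff [DecidableEq ι] (l : List (ι × HK.C k)) (u : ι → AK.Om k) :
    (∀ t ∈ l, u t.1 ∈ HK.cyl t.2) ↔ ∀ i, u i ∈ HK.cyl (pick l i) := by
  constructor
  · intro h i q hq
    obtain ⟨t, ht, hq'⟩ := List.mem_flatMap.1 hq
    split_ifs at hq' with h1
    · rw [← h1]
      exact h t ht q hq'
    · cases hq'
  · intro h t ht q hq
    refine h t.1 q (List.mem_flatMap.2 ⟨t, ht, ?_⟩)
    rw [if_pos rfl]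
    exact hq

open Classical in
theorem fn_tup (l : List (ι × HK.C k)) (u : ι → AK.Om k) :
    TF.fn (α := ι → AK.Om k) l u = if ∀ t ∈ l, u t.1 ∈ HK.cyl t.2 then 1 else 0 := by
  show (List.map (fun p : ι × HK.C k => (HK.cyl p.2).indicator (fun _ => (1 : ℝ)) (u p.1)) l).prod
    = _
  induction l with
  | nil => simp
  | cons a l ih =>
    rw [List.map_cons, List.prod_cons, ih, ind_eq]
    by_cases h1 : u a.1 ∈ HK.cyl a.2
    · by_cases h2 : ∀ t ∈ l, u t.1 ∈ HK.cyl t.2
      · rw [if_pos h1, if_pos h2, if_pos]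
        · norm_num
        · intro t ht
          rcases List.mem_cons.1 ht with rfl | h3
          · exact h1
          · exact h2 t h3
      · have h3 : ¬ ∀ t ∈ a :: l, u t.1 ∈ HK.cyl t.2 :=
          fun h => h2 fun t ht => h t (List.mem_cons_of_mem _ ht)
        rw [if_neg h2, if_neg h3, mul_zero]
    · have h3 : ¬ ∀ t ∈ a :: l, u t.1 ∈ HK.cyl t.2 := fun h => h1 (h a List.mem_cons_self)
      rw [if_neg h1, if_neg h3, zero_mul]

/-- the moments of a measure on tuples are the measures of boxes -/
theorem mo_tup [DecidableEq ι] (m : ProbabilityMeasure (ι → AK.Om k)) (l : List (ι × HK.C k)) :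
    mo (α := ι → AK.Om k) m l =
      (m : Measure (ι → AK.Om k)).real (Set.univ.pi fun i => HK.cyl (pick l i)) := by
  classical
  have h1 : ∀ u : ι → AK.Om k, TF.fn (α := ι → AK.Om k) l u =
      (Set.univ.pi fun i => HK.cyl (pick l i)).indicator (fun _ => (1 : ℝ)) u := by
    intro u
    rw [fn_tup]
    by_cases h : ∀ t ∈ l, u t.1 ∈ HK.cyl t.2
    · rw [if_pos h, Set.indicator_of_mem]
      exact fun i _ => (mem_box_iff l u).1 h i
    · rw [if_neg h, Set.indicator_of_notMem]
      exact fun h2 => h ((mem_box_iff l u).2 fun i => h2 i (Set.mem_univ i))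
  unfold mo
  simp only [h1]
  rw [integral_indicator (MeasurableSet.univ_pi fun i => HK.I_MEASW.measurable_cyl _)]
  simp

/-- `sc` for measures on tuples from the measures of boxes -/
theorem sc_tup_of_box [DecidableEq ι] (hS : Cl S) {β : Type} [Primcodable β]
    {m : β → ProbabilityMeasure (ι → AK.Om k)}
    (h : ArR S fun p : β × List (ι × HK.C k) =>
      (m p.1 : Measure (ι → AK.Om k)).real (Set.univ.pi fun i => HK.cyl (pick p.2 i))) :
    sc S m :=
  (CP.sc_iff (α := ι → AK.Om k) S hS β m).2 (h.congr fun p => mo_tup _ _)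

/-- coded measures on tuples -/
theorem nct_of_pt (hS : Cl S) {n : ℕ} {m : ProbabilityMeasure (Fin n → AK.Om k)} (hm : Pt S m) :
    NCt S (m : Measure (Fin n → AK.Om k)) := by
  have h1 : ArR S fun p : Unit × List (Fin n × HK.C k) => mo (α := Fin n → AK.Om k) m p.2 :=
    (CP.sc_iff (α := Fin n → AK.Om k) S hS Unit fun _ => m).1 hm
  refine (HK.ArR.comp hS h1 (g := fun P : Fin n → HK.C k =>
    (((), List.ofFn fun j => (j, P j)) : Unit × List (Fin n × HK.C k))) ?_).congr fun P => ?_
  · refine (Primrec.const ()).pair (Primrec.list_ofFn fun j => ?_)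
    exact (Primrec.const j).pair (Primrec.fin_app.comp Primrec.id (Primrec.const j))
  · rw [mo_tup]
    congr 1
    ext u
    simp only [Set.mem_pi, Set.mem_univ, true_implies]
    rw [← mem_box_iff]
    simp only [List.mem_ofFn, forall_exists_index]
    constructor
    · rintro h t j rfl
      exact h j
    · intro h j
      exact h _ j rfl

end tup

end Pool.Agent.Work.MP_69fea5_lc.W3
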