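import Pool.Agent.Work.MP_69fea5_lc.HK.Real

/-!
# Wave 3, coding: finite products of coded real functions
-/

set_option autoImplicit false
set_option linter.unusedVariables false
set_option linter.unusedSectionVars false

open Filter Topology

namespace Pool.Agent.Work.MP_69fea5_lc.W3

open Pool.Agent.Work.MP_69fea5_lc
open Pool.Agent.Work.MP_69fea5_lc.HK (Cl DU Ar ArF ArR exists_floor exists_den)

variable {S : Set (Set ℕ)} {β κ : Type*} [Primcodable β] [Primcodable κ]

theorem prodMap_mem {κ : Type*} (g : κ → ℝ) (g0 : ∀ x, 0 ≤ g x) (g1 : ∀ x, g x ≤ 1)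
    (l : List κ) : 0 ≤ (l.map g).prod ∧ (l.map g).prod ≤ 1 := by
  induction l with
  | nil => simp
  | cons a l ih =>
    simp only [List.map_cons, List.prod_cons]
    exact ⟨mul_nonneg (g0 a) ih.1, mul_le_one₀ (g1 a) ih.1 ih.2⟩

/-- the lower bound for a product -/
theorem prod_low (g : κ → ℝ) (g0 : ∀ x, 0 ≤ g x) (q : ℕ) : ∀ (l : List κ) (n : List ℕ),
    n.length = l.length →
    (∀ i < l.length, ∀ x, l[i]? = some x → ((n.getD i 0 : ℕ) : ℝ) ≤ g x * (q + 1)) →
    ((n.foldr (fun x y => x * y) 1 : ℕ) : ℝ) ≤ (l.map g).prod * ((q + 1 : ℕ) : ℝ) ^ l.length := by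
  intro l
  induction l with
  | nil =>
    intro n hn _
    have : n = [] := List.length_eq_zero_iff.1 hn
    subst this
    simp
  | cons a l ih =>
    intro n hn h
    cases n with
    | nil => simp at hn
    | cons m n =>
      have h1 := ih n (by simpa using hn) (fun i hi x hx => by
        have := h (i + 1) (by simpa using hi) x (by simpa using hx)
        simpa using this)
      have h2 : (m : ℝ) ≤ g a * (q + 1) := by
        have := h 0 (by simp) a (by simp)
        simpa using this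
      simp only [List.foldr_cons, List.map_cons, List.prod_cons, List.length_cons, pow_succ]
      push_cast
      push_cast at h1
      have h3 : (0 : ℝ) ≤ (n.foldr (fun x y => x * y) 1 : ℕ) := by positivity
      have h4 : 0 ≤ g a * ((q : ℝ) + 1) := mul_nonneg (g0 a) (by positivity)
      calc (m : ℝ) * (n.foldr (fun x y => x * y) 1 : ℕ)
          ≤ (g a * (q + 1)) * ((l.map g).prod * ((q : ℝ) + 1) ^ l.length) :=
            mul_le_mul h2 h1 h3 h4
        _ = g a * (l.map g).prod * (((q : ℝ) + 1) ^ l.length * (q + 1)) := by ring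

/-- the upper bound for a product of rounded numbers -/
theorem prod_upp (g : κ → ℝ) (g0 : ∀ x, 0 ≤ g x) (g1 : ∀ x, g x ≤ 1) (q : ℕ) (f : κ → ℕ)
    (hf : ∀ x, (f x : ℝ) ≤ g x * (q + 1)) (hf' : ∀ x, g x * (q + 1) < f x + 1) : ∀ l : List κ,
    (l.map g).prod * ((q + 1 : ℕ) : ℝ) ^ l.length * (q + 1) ≤
      (((l.map f).foldr (fun x y => x * y) 1 : ℕ) : ℝ) * (q + 1) +
        l.length * ((q + 1 : ℕ) : ℝ) ^ l.length := by
  intro l
  induction l with
  | nil => simp
  | cons a l ih =>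
    have hq : (0 : ℝ) < q + 1 := by positivity
    have h0 := prodMap_mem g g0 g1 l
    simp only [List.foldr_cons, List.map_cons, List.prod_cons, List.length_cons, pow_succ]
    push_cast
    push_cast at ih
    set A := (l.map g).prod with hA
    set F : ℝ := (((l.map f).foldr (fun x y => x * y) 1 : ℕ) : ℝ) with hF
    set Q : ℝ := (q : ℝ) + 1 with hQ
    set E : ℝ := Q ^ l.length with hE
    have hE0 : 0 ≤ E := by positivity
    have hF0 : 0 ≤ F := by rw [hF]; positivity
    have h1 := hf a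
    have h2 := hf' a
    -- g a * A * E * Q * Q ≤ f a * F * Q + (L + 1) E Q
    have h3 : (f a : ℝ) * (A * E * Q) ≤ f a * (F * Q + l.length * E) :=
      mul_le_mul_of_nonneg_left ih (by positivity)
    have h4 : (f a : ℝ) ≤ Q := h1.trans (by nlinarith [g1 a])
    have h5 : (f a : ℝ) * (l.length * E) ≤ Q * (l.length * E) :=
      mul_le_mul_of_nonneg_right h4 (by positivity)
    have h6 : (g a * Q - f a) * (A * E * Q) ≤ 1 * (E * Q) := by
      have h7 : A * E * Q ≤ E * Q := by
        have := mul_le_mul_of_nonneg_right h0.2 (show (0 : ℝ) ≤ E * Q by positivity)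
        nlinarith
      have h8 : 0 ≤ A * E * Q := by
        have := h0.1
        positivity
      nlinarith
    nlinarith

/-- finite products -/
theorem arR_prodList (hS : Cl S) {g : β → κ → ℝ} (hg : ArR S fun p : β × κ => g p.1 p.2)
    (g0 : ∀ b x, 0 ≤ g b x) (g1 : ∀ b x, g b x ≤ 1) :
    ArR S fun p : β × List κ => (p.2.map (g p.1)).prod := by
  refine HK.ArR.of_low hS (L := fun p N Q => ∃ t : List ℕ × ℕ, t.1.length = p.2.length ∧
    t.1.foldr (fun x y => x * y) 1 = N ∧ Q + 1 = (t.2 + 1) ^ p.2.length ∧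
    ∀ i < p.2.length, ∀ x, p.2[i]? = some x →
      ((t.1.getD i 0 : ℕ) : ℝ) ≤ g p.1 x * (t.2 + 1)) ?_ ?_ ?_
  · refine Ar.ex hS (R := fun (p : (β × List κ) × ℕ × ℕ) (t : List ℕ × ℕ) =>
      t.1.length = p.1.2.length ∧ t.1.foldr (fun x y => x * y) 1 = p.2.1 ∧
      p.2.2 + 1 = (t.2 + 1) ^ p.1.2.length ∧
      ∀ i < p.1.2.length, ∀ x, p.1.2[i]? = some x →
        ((t.1.getD i 0 : ℕ) : ℝ) ≤ g p.1.1 x * (t.2 + 1)) ?_
    have eb : ArF S fun q : ((β × List κ) × ℕ × ℕ) × List ℕ × ℕ => q.1.1.1 :=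
      ArF.of_primrec hS (Primrec.fst.comp (Primrec.fst.comp Primrec.fst))
    have el : ArF S fun q : ((β × List κ) × ℕ × ℕ) × List ℕ × ℕ => q.1.1.2.length :=
      ArF.of_primrec hS (Primrec.list_length.comp (Primrec.snd.comp
        (Primrec.fst.comp Primrec.fst)))
    have eN : ArF S fun q : ((β × List κ) × ℕ × ℕ) × List ℕ × ℕ => q.1.2.1 :=
      ArF.of_primrec hS (Primrec.fst.comp (Primrec.snd.comp Primrec.fst))
    have eQ : ArF S fun q : ((β × List κ) × ℕ × ℕ) × List ℕ × ℕ => q.1.2.2 :=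
      ArF.of_primrec hS (Primrec.snd.comp (Primrec.snd.comp Primrec.fst))
    have et : ArF S fun q : ((β × List κ) × ℕ × ℕ) × List ℕ × ℕ => q.2.2 :=
      ArF.of_primrec hS (Primrec.snd.comp Primrec.snd)
    refine Ar.and hS (Ar.eq hS (ArF.of_primrec hS (Primrec.list_length.comp
      (Primrec.fst.comp Primrec.snd))) el) (Ar.and hS ?_ (Ar.and hS ?_ ?_))
    · refine Ar.eq hS (ArF.of_primrec hS ?_) eN
      exact Primrec.list_foldr (f := fun q : ((β × List κ) × ℕ × ℕ) × List ℕ × ℕ => q.2.1)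
        (g := fun _ => 1)
        (h := fun (_ : ((β × List κ) × ℕ × ℕ) × List ℕ × ℕ) (q : ℕ × ℕ) => q.1 * q.2)
        (Primrec.fst.comp Primrec.snd) (Primrec.const 1)
        (Primrec.nat_mul.comp (Primrec.fst.comp Primrec.snd)
          (Primrec.snd.comp Primrec.snd)).to₂
    · exact Ar.eq hS (eQ.succ hS) ((et.succ hS).pow hS el)
    · refine Ar.ball hS (R := fun (q : ((β × List κ) × ℕ × ℕ) × List ℕ × ℕ) i => ∀ x,
        q.1.1.2[i]? = some x → ((q.2.1.getD i 0 : ℕ) : ℝ) ≤ g q.1.1.1 x * (q.2.2 + 1)) ?_ el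
      refine Ar.all hS (R := fun (q : (((β × List κ) × ℕ × ℕ) × List ℕ × ℕ) × ℕ) x =>
        q.1.1.1.2[q.2]? = some x →
          ((q.1.2.1.getD q.2 0 : ℕ) : ℝ) ≤ g q.1.1.1.1 x * (q.1.2.2 + 1)) ?_
      refine Ar.imp hS ?_ ?_
      · refine Ar.eq hS (ArF.of_primrec hS ?_) (ArF.of_primrec hS ?_)
        · exact Primrec.list_getElem?.comp
            (Primrec.snd.comp (Primrec.fst.comp (Primrec.fst.comp
              (Primrec.fst.comp Primrec.fst)))) (Primrec.snd.comp Primrec.fst)
        · exact Primrec.option_some.comp Primrec.snd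
      · refine HK.ArR.le hS hg (fun p => g0 _ _)
          (g := fun q : ((((β × List κ) × ℕ × ℕ) × List ℕ × ℕ) × ℕ) × κ =>
            (q.1.1.1.1.1, q.2)) ?_ ?_ ?_
        · exact ArF.of_primrec hS ((Primrec.fst.comp (Primrec.fst.comp (Primrec.fst.comp
            (Primrec.fst.comp Primrec.fst)))).pair Primrec.snd)
        · exact ArF.of_primrec hS ((Primrec.list_getD 0).comp
            (Primrec.fst.comp (Primrec.snd.comp (Primrec.fst.comp Primrec.fst)))
            (Primrec.snd.comp Primrec.fst))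
        · exact ArF.of_primrec hS
            (Primrec.snd.comp (Primrec.snd.comp (Primrec.fst.comp Primrec.fst)))
  · rintro ⟨b, l⟩ N Q ⟨⟨n, q⟩, hn, rfl, hQ, h⟩
    have h1 := prod_low (g b) (g0 b) q l n hn h
    have h2 : ((Q : ℝ) + 1) = ((q + 1 : ℕ) : ℝ) ^ l.length := by
      have : ((Q + 1 : ℕ) : ℝ) = (((q + 1) ^ l.length : ℕ) : ℝ) := by rw [hQ]
      push_cast at this ⊢
      exact this
    show _ ≤ (l.map (g b)).prod * ((Q : ℝ) + 1)
    rw [h2]
    exact h1
  · rintro ⟨b, l⟩ ε hε _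
    obtain ⟨q, hq⟩ := exists_den hε l.length
    choose f hf hf' using fun x => exists_floor (g0 b x) q
    have hpos : 1 ≤ (q + 1) ^ l.length := Nat.one_le_pow _ _ (by omega)
    refine ⟨(l.map f).foldr (fun x y => x * y) 1, (q + 1) ^ l.length - 1,
      ⟨(l.map f, q), by simp, rfl, Nat.sub_add_cancel hpos, fun i hi x hx => ?_⟩, ?_⟩
    · have : (l.map f).getD i 0 = f x := by
        rw [List.getD_eq_getElem?_getD, List.getElem?_map]
        show ((l[i]?).map f).getD 0 = f x
        rw [show l[i]? = some x from hx]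
        rfl
      show (((l.map f).getD i 0 : ℕ) : ℝ) ≤ _
      rw [this]
      exact hf x
    · have h1 := prod_upp (g b) (g0 b) (g1 b) q f hf hf' l
      have h2 : ((((q + 1) ^ l.length - 1 : ℕ) : ℝ) + 1) = ((q + 1 : ℕ) : ℝ) ^ l.length := by
        rw [Nat.cast_sub hpos]
        push_cast
        ring
      show (l.map (g b)).prod * ((((q + 1) ^ l.length - 1 : ℕ) : ℝ) + 1) < _
      rw [h2]
      have hE : (0 : ℝ) < ((q + 1 : ℕ) : ℝ) ^ l.length := by positivity
      have hq1 : (0 : ℝ) < q + 1 := by positivity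
      have h3 : (l.length : ℝ) * ((q + 1 : ℕ) : ℝ) ^ l.length <
          ε * (q + 1) * ((q + 1 : ℕ) : ℝ) ^ l.length := mul_lt_mul_of_pos_right hq hE
      have h4 : (l.map (g b)).prod * ((q + 1 : ℕ) : ℝ) ^ l.length * (q + 1) <
          ((((l.map f).foldr (fun x y => x * y) 1 : ℕ) : ℝ) +
            ε * ((q + 1 : ℕ) : ℝ) ^ l.length) * (q + 1) := by linarith
      exact lt_of_mul_lt_mul_right h4 hq1.le

end Pool.Agent.Work.MP_69fea5_lc.W3
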