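import Pool.Agent.Work.MP_69fea5_lc.W3.Cod
import Pool.Agent.Work.MP_69fea5_lc.W3.CodR

/-!
# Wave 3, coding: coded test functions and coded probability measures

`TF α`: a coded family of continuous functions `α → [0,1]`, closed under products, separating
points.  Instances: `Om k`, `Cube I`, products, families, `Unit`, `ProbabilityMeasure α`.
A probability measure on `α` is coded by its moments.
-/

set_option autoImplicit false
set_option linter.unusedSectionVars false
set_option linter.unusedVariables false
set_option linter.deprecated false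

open Filter Topology MeasureTheory

namespace Pool.Agent.Work.MP_69fea5_lc.W3

open Pool.Agent.Work.MP_69fea5_lc
open Pool.Agent.Work.MP_69fea5_lc.HK (Cl DU Ar ArF ArR Dat Law LawC act near sc Pt oc Mn mr)
open Pool.Agent.Work.MP_69fea5_lc.KC (Agree oc_eq minSet_of_Mn)

/-- shortcut (keeps the instance problems small) -/
instance (priority := 2000) opensCS {X : Type} [TopologicalSpace X] [MeasurableSpace X] [CS X] :
    OpensMeasurableSpace X := BorelSpace.opensMeasurable

/-- coded test functions -/
class TF (α : Type) [TopologicalSpace α] [Dat α] where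
  ι : Type
  [pc : Primcodable ι]
  fn : ι → α → ℝ
  cont : ∀ i, Continuous (fn i)
  nn : ∀ i x, 0 ≤ fn i x
  le : ∀ i x, fn i x ≤ 1
  one : ι
  fn_one : ∀ x, fn one x = 1
  mul : ι → ι → ι
  mul_prim : Primrec₂ mul
  fn_mul : ∀ i j x, fn (mul i j) x = fn i x * fn j x
  sep : ∀ x y, (∀ i, fn i x = fn i y) → x = y
  shf : ℤ → ι → ι
  shf_prim : Primrec₂ shf
  fn_act : ∀ (n : ℤ) i x, fn i (act n x) = fn (shf n i) x
  sc_iff : ∀ (S : Set (Set ℕ)), Cl S → ∀ (β : Type) [Primcodable β] (w : β → α),
    sc S w ↔ ArR S (fun p : β × ι => fn p.2 (w p.1))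

attribute [reducible, instance] TF.pc

/-- test functions from a family which is not closed under products -/
@[reducible] noncomputable def TF.ofList {α : Type} [TopologicalSpace α] [Dat α] (κ : Type)
    [Primcodable κ] (g : κ → α → ℝ) (cont : ∀ i, Continuous (g i)) (nn : ∀ i x, 0 ≤ g i x)
    (le : ∀ i x, g i x ≤ 1) (sep : ∀ x y, (∀ i, g i x = g i y) → x = y) (σ : ℤ → κ → κ)
    (hσ : Primrec₂ σ) (ga : ∀ (n : ℤ) i x, g i (act n x) = g (σ n i) x)
    (hs : ∀ (S : Set (Set ℕ)), Cl S → ∀ (β : Type) [Primcodable β] (w : β → α),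
      sc S w ↔ ArR S (fun p : β × κ => g p.2 (w p.1))) : TF α where
  ι := List κ
  fn l x := (l.map fun i => g i x).prod
  cont l := by
    induction l with
    | nil => simpa using continuous_const
    | cons a l ih =>
      simp only [List.map_cons, List.prod_cons]
      exact (cont a).mul ih
  nn l x := (prodMap_mem _ (fun i => nn i x) (fun i => le i x) l).1
  le l x := (prodMap_mem _ (fun i => nn i x) (fun i => le i x) l).2
  one := []
  fn_one x := by simp
  mul l l' := l ++ l'
  mul_prim := Primrec.list_append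
  fn_mul l l' x := by rw [List.map_append, List.prod_append]
  sep x y h := sep x y fun i => by simpa using h [i]
  shf n l := l.map (σ n)
  shf_prim := Primrec.list_map Primrec.snd (hσ.comp (Primrec.fst.comp Primrec.fst)
    Primrec.snd).to₂
  fn_act n l x := by
    rw [List.map_map]
    congr 1
    exact List.map_congr_left fun i _ => ga n i x
  sc_iff S hS β _ w := by
    rw [hs S hS β w]
    constructor
    · intro h
      exact arR_prodList hS (g := fun b i => g i (w b)) h (fun b i => nn i _) fun b i => le i _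
    · intro h
      refine (HK.ArR.sub hS h (g := fun p : β × κ => (p.1, [p.2])) ?_).congr fun p => ?_
      · exact ArF.of_primrec hS (Primrec.fst.pair (Primrec.list_cons.comp Primrec.snd
          (Primrec.const [])))
      · simp

/-! ### Instances -/

section inst

variable {k : ℕ}

open Classical in
theorem ind_eq (A : Set (HK.X k)) (x : HK.X k) :
    A.indicator (fun _ => (1 : ℝ)) x = if x ∈ A then 1 else 0 := by
  by_cases h : x ∈ A <;> simp [h]

open Classical in
/-- letters -/
noncomputable instance tfX : TF (HK.X k) where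
  ι := HK.C k
  fn P x := (HK.cyl P).indicator (fun _ => (1 : ℝ)) x
  cont P := by
    have h := (HK.isClopen_cyl (k := k) P)
    exact (continuous_const (y := (1 : ℝ))).indicator (by
      intro a ha
      rw [h.frontier_eq] at ha
      exact absurd ha (Set.notMem_empty _))
  nn P x := Set.indicator_nonneg (fun _ _ => zero_le_one) x
  le P x := Set.indicator_le_self' (fun _ _ => zero_le_one) x
  one := []
  fn_one x := by simp [HK.cyl]
  mul P Q := P ++ Q
  mul_prim := Primrec.list_append
  fn_mul P Q x := by
    rw [ind_eq, ind_eq, ind_eq, HK.I_MEASW.cyl_append]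
    by_cases h1 : x ∈ HK.cyl P <;> by_cases h2 : x ∈ HK.cyl Q <;> simp [h1, h2]
  sep x y h := by
    funext t
    have h1 := h [(t, x t)]
    rw [ind_eq, ind_eq] at h1
    have h2 : x ∈ HK.cyl [(t, x t)] := by simp [HK.cyl]
    rw [if_pos h2] at h1
    by_contra h3
    have h4 : y ∉ HK.cyl [(t, x t)] := by
      simp only [HK.cyl, Set.mem_setOf_eq, List.mem_singleton, forall_eq]
      exact fun h5 => h3 h5.symm
    rw [if_neg h4] at h1
    exact one_ne_zero h1
  shf n P := HK.shC n P
  shf_prim := HK.primrec_shC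
  fn_act n P x := by
    rw [ind_eq, ind_eq]
    have : act n x ∈ HK.cyl P ↔ x ∈ HK.cyl (HK.shC n P) := by
      rw [← HK.preimage_cyl]
      rfl
    simp only [this]
  sc_iff S hS β _ w := by
    constructor
    · intro h
      have h0 : ArF S (fun p : β × ℤ => w p.1 p.2) := h
      refine (ArR.ind hS (P := fun p : β × HK.C k => w p.1 ∈ HK.cyl p.2) ?_).congr fun p => ?_
      · refine HK.Ar.ballList hS (R := fun (p : β × HK.C k) (q : ℤ × Fin k) =>
          w p.1 q.1 = q.2) ?_ (ArF.snd hS)
        refine HK.Ar.eq hS ?_ (ArF.of_primrec hS (Primrec.snd.comp Primrec.snd))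
        exact h0.comp hS (f := fun p : (β × HK.C k) × ℤ × Fin k => (p.1.1, p.2.1))
          (ArF.of_primrec hS ((Primrec.fst.comp Primrec.fst).pair (Primrec.fst.comp Primrec.snd)))
      · exact ind_eq _ _
    · intro h
      have h1 : Ar S fun p : (β × ℤ) × Fin k =>
          (((0 : ℕ) : ℝ)) < (HK.cyl [(p.1.2, p.2)]).indicator (fun _ => (1 : ℝ)) (w p.1.1) *
            (((0 : ℕ) : ℝ) + 1) :=
        HK.ArR.lt hS h (g := fun p : (β × ℤ) × Fin k => (p.1.1, [(p.1.2, p.2)]))
          (ArF.of_primrec hS ((Primrec.fst.comp Primrec.fst).pair (Primrec.list_cons.comp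
            ((Primrec.snd.comp Primrec.fst).pair Primrec.snd) (Primrec.const []))))
          (u := fun _ => 0) (v := fun _ => 0) (ArF.const hS 0) (ArF.const hS 0)
      refine h1.congr fun p => ?_
      rw [ind_eq]
      have h2 : w p.1.1 ∈ HK.cyl [(p.1.2, p.2)] ↔ w p.1.1 p.1.2 = p.2 := by simp [HK.cyl]
      by_cases h3 : w p.1.1 p.1.2 = p.2
      · rw [if_pos (h2.2 h3)]
        simp [h3]
      · rw [if_neg fun h => h3 (h2.1 h)]
        simp [h3]

/-- points of cubes -/
noncomputable instance tfCube {I : Type} [Primcodable I] : TF (AK.Cube I) :=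
  TF.ofList (I × ℤ) (fun p v => (v p.1 p.2 : ℝ))
    (fun p => continuous_subtype_val.comp ((continuous_apply p.2).comp (continuous_apply p.1)))
    (fun p v => (v p.1 p.2).2.1) (fun p v => (v p.1 p.2).2.2)
    (fun x y h => funext fun i => funext fun t => Subtype.ext (h (i, t)))
    (fun n p => (p.1, p.2 + n))
    ((Primrec.fst.comp Primrec.snd).pair
      (HK.primrec_int_add.comp (Primrec.snd.comp Primrec.snd) Primrec.fst))
    (fun n p v => rfl)
    (fun S hS β _ w => Iff.rfl)

/-- products -/
noncomputable instance tfProd {α β : Type} [TopologicalSpace α] [Dat α] [TF α]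
    [TopologicalSpace β] [Dat β] [TF β] : TF (α × β) where
  ι := TF.ι α × TF.ι β
  fn i x := TF.fn i.1 x.1 * TF.fn i.2 x.2
  cont i := ((TF.cont i.1).comp continuous_fst).mul ((TF.cont i.2).comp continuous_snd)
  nn i x := mul_nonneg (TF.nn _ _) (TF.nn _ _)
  le i x := mul_le_one₀ (TF.le _ _) (TF.nn _ _) (TF.le _ _)
  one := (TF.one, TF.one)
  fn_one x := by rw [TF.fn_one, TF.fn_one, mul_one]
  mul i j := (TF.mul i.1 j.1, TF.mul i.2 j.2)
  mul_prim := (TF.mul_prim.comp (Primrec.fst.comp Primrec.fst)
    (Primrec.fst.comp Primrec.snd)).pair (TF.mul_prim.comp (Primrec.snd.comp Primrec.fst)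
    (Primrec.snd.comp Primrec.snd))
  fn_mul i j x := by rw [TF.fn_mul, TF.fn_mul]; ring
  sep x y h := by
    refine Prod.ext (TF.sep _ _ fun i => ?_) (TF.sep _ _ fun i => ?_)
    · have := h (i, TF.one)
      simpa [TF.fn_one] using this
    · have := h (TF.one, i)
      simpa [TF.fn_one] using this
  shf n i := (TF.shf n i.1, TF.shf n i.2)
  shf_prim := (TF.shf_prim.comp Primrec.fst (Primrec.fst.comp Primrec.snd)).pair
    (TF.shf_prim.comp Primrec.fst (Primrec.snd.comp Primrec.snd))
  fn_act n i x := by
    show TF.fn i.1 (act n x.1) * TF.fn i.2 (act n x.2) = _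
    rw [TF.fn_act, TF.fn_act]
  sc_iff S hS γ _ w := by
    show (sc S (fun c => (w c).1) ∧ sc S (fun c => (w c).2)) ↔ _
    rw [TF.sc_iff S hS, TF.sc_iff S hS]
    constructor
    · rintro ⟨h1, h2⟩
      refine HK.ArR.mul hS (f := fun p : γ × (TF.ι α × TF.ι β) => TF.fn p.2.1 (w p.1).1)
        (g := fun p : γ × (TF.ι α × TF.ι β) => TF.fn p.2.2 (w p.1).2) ?_ ?_
        (fun p => TF.nn _ _) fun p => TF.nn _ _
      · exact HK.ArR.comp hS h1 (g := fun p : γ × (TF.ι α × TF.ι β) => (p.1, p.2.1))
          (Primrec.fst.pair (Primrec.fst.comp Primrec.snd))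
      · exact HK.ArR.comp hS h2 (g := fun p : γ × (TF.ι α × TF.ι β) => (p.1, p.2.2))
          (Primrec.fst.pair (Primrec.snd.comp Primrec.snd))
    · intro h
      constructor
      · refine (HK.ArR.comp hS h (g := fun p : γ × TF.ι α => (p.1, (p.2, TF.one)))
          (Primrec.fst.pair (Primrec.snd.pair (Primrec.const _)))).congr fun p => ?_
        rw [TF.fn_one, mul_one]
      · refine (HK.ArR.comp hS h (g := fun p : γ × TF.ι β => (p.1, (TF.one, p.2)))
          (Primrec.fst.pair ((Primrec.const _).pair Primrec.snd))).congr fun p => ?_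
        rw [TF.fn_one, one_mul]

/-- families -/
noncomputable instance (priority := low) tfPi {κ α : Type} [Primcodable κ] [TopologicalSpace α]
    [Dat α] [TF α] : TF (κ → α) :=
  TF.ofList (κ × TF.ι α) (fun p v => TF.fn p.2 (v p.1))
    (fun p => (TF.cont p.2).comp (continuous_apply p.1))
    (fun p v => TF.nn _ _) (fun p v => TF.le _ _)
    (fun x y h => funext fun i => TF.sep _ _ fun j => h (i, j))
    (fun n p => (p.1, TF.shf n p.2))
    ((Primrec.fst.comp Primrec.snd).pair (TF.shf_prim.comp Primrec.fst
      (Primrec.snd.comp Primrec.snd)))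
    (fun n p v => TF.fn_act n p.2 (v p.1))
    (fun S hS β _ w => by
      show sc S (fun p : β × κ => w p.1 p.2) ↔ _
      rw [TF.sc_iff S hS]
      constructor
      · intro h
        exact HK.ArR.comp hS h (g := fun p : β × κ × TF.ι α => ((p.1, p.2.1), p.2.2))
          ((Primrec.fst.pair (Primrec.fst.comp Primrec.snd)).pair
            (Primrec.snd.comp Primrec.snd))
      · intro h
        exact HK.ArR.comp hS h (g := fun p : (β × κ) × TF.ι α => (p.1.1, (p.1.2, p.2)))
          ((Primrec.fst.comp Primrec.fst).pair ((Primrec.snd.comp Primrec.fst).pair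
            Primrec.snd)))

/-- the one-point space -/
noncomputable instance tfUnit : TF Unit where
  ι := Unit
  fn _ _ := 1
  cont _ := continuous_const
  nn _ _ := zero_le_one
  le _ _ := le_rfl
  one := ()
  fn_one _ := rfl
  mul _ _ := ()
  mul_prim := Primrec.const ()
  fn_mul _ _ _ := by simp
  sep _ _ _ := rfl
  shf _ _ := ()
  shf_prim := Primrec.const ()
  fn_act _ _ _ := rfl
  sc_iff S hS β _ w := ⟨fun _ => HK.ArR.one hS, fun _ => trivial⟩

end inst

end Pool.Agent.Work.MP_69fea5_lc.W3
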