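import Pool.Agent.Work.MP_69fea5_lc.W3.StmtsD2
import Pool.Agent.Work.MP_69fea5_lc.W3.ToolsD

set_option autoImplicit false

namespace Pool.Agent.Work.MP_69fea5_lc.W3D

open MeasureTheory Topology Set Filter
open ProbabilityTheory (Kernel IsMarkovKernel)
open scoped ENNReal NNReal ProbabilityTheory
open Pool.Agent.Work.MP_69fea5_lc.AK (Sys sh orb)

namespace D_DBK

theorem elim_mem_dbl {F : Type} {L : AddSubgroup (F → ℤ)} {l : F → ℤ} (hl : l ∈ L) (γ : F → ℤ) :
    (Sum.elim l l : F ⊕ F → ℤ) ∈ dbl L γ :=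
  ⟨l, hl, 0, fun i => rfl, fun i => by simp⟩

theorem continuous_elim {F X : Type} [TopologicalSpace X] :
    Continuous fun q : F → X => (Sum.elim q q : F ⊕ F → X) := by
  refine continuous_pi fun a => ?_
  rcases a with i | i
  · exact continuous_apply i
  · exact continuous_apply i

theorem elim_mem_NF {F X : Type} [TopologicalSpace X] [Sys X] {L : AddSubgroup (F → ℤ)}
    (γ : F → ℤ) {q : F → X} (hq : q ∈ NF X L) :
    (Sum.elim q q : F ⊕ F → X) ∈ NF X (dbl L γ) := by
  refine map_mem_closure (f := fun q : F → X => (Sum.elim q q : F ⊕ F → X))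
    continuous_elim hq ?_
  rintro _ ⟨l, hl, x, rfl⟩
  refine ⟨Sum.elim l l, elim_mem_dbl hl γ, x, ?_⟩
  funext a
  rcases a with i | i <;> rfl

theorem measurable_comp {F F' X : Type} [MeasurableSpace X] (e : F' → F) :
    Measurable fun v : F → X => v ∘ e :=
  measurable_pi_iff.2 fun i => measurable_pi_apply (e i)

theorem cn_ae {X : Type} [TopologicalSpace X] [MeasurableSpace X] [Sys X] [Nonempty X]
    {K : KT X} (hK : KS K) {F : Type} [Finite F] {L : AddSubgroup (F → ℤ)} (h1 : 1 ∈ L) :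
    ∀ᵐ q ∂(cn K L), q ∈ NF X L := by
  have h2 := hK.car F L h1 ∅ _ (diag_mem_NF L (Classical.arbitrary X))
  refine measure_mono_null ?_ h2
  intro v hv hv'
  exact hv hv'.1

theorem cn_prob {X : Type} [TopologicalSpace X] [MeasurableSpace X] [Sys X] [Nonempty X]
    {K : KT X} (hK : KS K) {F : Type} [Finite F] {L : AddSubgroup (F → ℤ)} (h1 : 1 ∈ L) :
    IsProbabilityMeasure (cn K L) :=
  ⟨hK.prob F L h1 ∅ _ (diag_mem_NF L (Classical.arbitrary X))⟩

theorem lint_mul {Ω : Type} [MeasurableSpace Ω] (μ : Measure Ω) [IsProbabilityMeasure μ]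
    {a b : Ω → ℝ≥0∞} (ha : Measurable a) (hb : Measurable b) (ha1 : ∀ x, a x ≤ 1)
    (hb1 : ∀ x, b x ≤ 1) :
    ∫⁻ x, a x * b x ∂μ = ENNReal.ofReal (∫ x, (a x).toReal * (b x).toReal ∂μ) := by
  have hle : ∀ c : ℝ≥0∞, c ≤ 1 → c.toReal ≤ 1 := fun c hc =>
    ENNReal.toReal_le_of_le_ofReal zero_le_one (by simpa using hc)
  rw [ofReal_integral_eq_lintegral_ofReal]
  · refine lintegral_congr fun x => ?_
    rw [ENNReal.ofReal_mul ENNReal.toReal_nonneg,
      ENNReal.ofReal_toReal (ne_top_of_le_ne_top ENNReal.one_ne_top (ha1 x)),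
      ENNReal.ofReal_toReal (ne_top_of_le_ne_top ENNReal.one_ne_top (hb1 x))]
  · refine Integrable.mono' (integrable_const (1 : ℝ))
      ((ha.ennreal_toReal.mul hb.ennreal_toReal).aestronglyMeasurable) (ae_of_all _ fun x => ?_)
    rw [Real.norm_eq_abs, abs_of_nonneg (by positivity)]
    exact mul_le_one₀ (hle _ (ha1 x)) ENNReal.toReal_nonneg (hle _ (hb1 x))
  · exact ae_of_all _ fun x => by positivity

end D_DBK

open D_DBK in
theorem DBK_pf (hPK1 : S_PK1) (hPK3 : S_PK3) : S_DBK := by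
  intro X _ _ _ _ _ _ _ _ K hK F _ L γ h1 hγ
  classical
  have hD := one_mem_dbl h1 γ
  obtain ⟨hPm, -, hP1⟩ := hPK1 X K hK F L γ h1 hγ
  have hP3 := hPK3 X K hK F L γ h1 hγ
  have hmu := cn_prob hK h1
  have hNF : MeasurableSet (NF X L : Set (F → X)) := (isClosed_NF L).measurableSet
  have hmk : Measurable fun x : F → X => if x ∈ NF X L then Pk K L γ x else Measure.dirac x :=
    Measurable.ite hNF hPm Measure.measurable_dirac
  let κ : Kernel (F → X) (F → X) := ⟨_, hmk⟩
  have hκ1 : ∀ x ∈ NF X L, κ x = Pk K L γ x := fun x hx => if_pos hx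
  have hκ2 : ∀ x, x ∉ NF X L → κ x = Measure.dirac x := fun x hx => if_neg hx
  have hPu : ∀ x ∈ NF X L, Pk K L γ x univ = 1 := by
    intro x hx
    unfold Pk
    rw [Measure.map_apply (measurable_comp Sum.inr) MeasurableSet.univ]
    exact hK.prob (F ⊕ F) (dbl L γ) hD (range Sum.inl) _ (elim_mem_NF γ hx)
  have hκ : IsMarkovKernel κ := by
    refine ⟨fun x => ⟨?_⟩⟩
    by_cases hx : x ∈ NF X L
    · rw [hκ1 x hx]; exact hPu x hx
    · rw [hκ2 x hx]; exact measure_univ
  have hae := cn_ae hK h1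
  refine ⟨κ, hκ, ?_, ?_, ?_⟩
  · -- the law of the pair
    have hpr : Measurable fun v : F ⊕ F → X => (v ∘ Sum.inl, v ∘ Sum.inr) :=
      (measurable_comp Sum.inl).prodMk (measurable_comp Sum.inr)
    ext s hs
    have hsm : Measurable (s.indicator (1 : (F → X) × (F → X) → ℝ≥0∞)) :=
      measurable_one.indicator hs
    rw [← lintegral_indicator_one hs, ← lintegral_indicator_one hs, lintegral_map hsm hpr,
      hP1 _ hsm, Measure.lintegral_compProd hsm]
    refine lintegral_congr_ae ?_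
    filter_upwards [hae] with q hq
    rw [hκ1 q hq]
  · -- the fixed coordinates
    filter_upwards [hae] with x hx
    rw [hκ1 x hx]
    unfold Pk
    have hc : MeasurableSet {y : F → X | ∀ i, γ i = 0 → y i = x i} := by
      have : IsClosed {y : F → X | ∀ i, γ i = 0 → y i = x i} := by
        have e : {y : F → X | ∀ i, γ i = 0 → y i = x i} =
            ⋂ i, ⋂ _ : γ i = 0, {y | y i = x i} := by
          ext y; simp
        rw [e]
        exact isClosed_iInter fun i => isClosed_iInter fun _ =>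
          isClosed_eq (continuous_apply i) continuous_const
      exact this.measurableSet
    rw [ae_map_iff (measurable_comp Sum.inr).aemeasurable hc]
    have h4 := hK.car (F ⊕ F) (dbl L γ) hD (range Sum.inl) _ (elim_mem_NF γ hx)
    have h5 : ∀ᵐ v ∂(K (F ⊕ F) (dbl L γ) (range Sum.inl) (Sum.elim x x)),
        v ∈ NF X (dbl L γ) ∧ ∀ i ∈ range (Sum.inl : F → F ⊕ F), v i =
          (Sum.elim x x : F ⊕ F → X) i := by
      refine measure_mono_null ?_ h4
      intro v hv
      exact hv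
    filter_upwards [h5] with v hv i hi
    have e1 : v (Sum.inl i) = v (Sum.inr i) := by
      refine eq_of_shape (dbl L γ) ?_ hv.1
      rintro l ⟨k, -, m, h2, h3⟩
      rw [h2, h3, hi]
      simp
    have e2 : v (Sum.inl i) = x i := hv.2 (Sum.inl i) ⟨i, rfl⟩
    exact e1.symm.trans e2
  · -- symmetry
    have hfin : IsFiniteMeasure (((cn K L) ⊗ₘ (κ ×ₖ κ)).map Prod.snd) := by infer_instance
    refine Measure.ext_prod fun {s t} hs ht => ?_
    rw [Measure.map_apply measurable_snd (hs.prod ht), Measure.compProd_apply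
      (measurable_snd (hs.prod ht)), Measure.compProd_apply_prod hs ht]
    have e0 : ∀ x, (κ ×ₖ κ) x (Prod.mk x ⁻¹' (Prod.snd ⁻¹' s ×ˢ t)) = κ x s * κ x t := by
      intro x
      have : (Prod.mk x ⁻¹' (Prod.snd ⁻¹' s ×ˢ t) : Set ((F → X) × (F → X))) = s ×ˢ t := rfl
      rw [this, Kernel.prod_apply_prod]
    simp only [e0]
    rw [← lintegral_indicator hs]
    have e1 : ∀ x, s.indicator (fun a => κ a t) x =
        s.indicator (1 : (F → X) → ℝ≥0∞) x * κ x t := by
      intro x
      by_cases hx : x ∈ s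
      · simp [hx]
      · simp [hx]
    simp only [e1]
    have hs1 : ∀ x, κ x s ≤ 1 := fun x => prob_le_one
    have ht1 : ∀ x, κ x t ≤ 1 := fun x => prob_le_one
    have hsi : ∀ x, s.indicator (1 : (F → X) → ℝ≥0∞) x ≤ 1 := by
      intro x
      by_cases hx : x ∈ s <;> simp [hx]
    rw [lint_mul _ (κ.measurable_coe hs) (κ.measurable_coe ht) hs1 ht1,
      lint_mul _ (measurable_one.indicator hs) (κ.measurable_coe ht) hsi ht1]
    congr 1
    have hf : ∀ u : Set (F → X), MeasurableSet u → Measurable (u.indicator (1 : (F → X) → ℝ)) :=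
      fun u hu => measurable_one.indicator hu
    have hb : ∀ (u : Set (F → X)) (w : F → X), |u.indicator (1 : (F → X) → ℝ) w| ≤ 1 := by
      intro u w
      by_cases hw : w ∈ u <;> simp [hw]
    have h3 := hP3 (s.indicator 1) (t.indicator 1) (hf s hs) (hf t ht) (hb s) (hb t)
    have h4 : ∀ u : Set (F → X), MeasurableSet u → ∀ q ∈ NF X L,
        ∫ q', u.indicator (1 : (F → X) → ℝ) q' ∂(Pk K L γ q) = (κ q u).toReal := by
      intro u hu q hq
      rw [integral_indicator_one hu, ← hκ1 q hq]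
      rfl
    have e2 : ∫ q, (κ q s).toReal * (κ q t).toReal ∂(cn K L) =
        ∫ q, (∫ q', s.indicator (1 : (F → X) → ℝ) q' ∂(Pk K L γ q)) *
          (∫ q', t.indicator (1 : (F → X) → ℝ) q' ∂(Pk K L γ q)) ∂(cn K L) := by
      refine integral_congr_ae ?_
      filter_upwards [hae] with q hq
      rw [h4 s hs q hq, h4 t ht q hq]
    have e3 : ∫ q, (s.indicator (1 : (F → X) → ℝ≥0∞) q).toReal * (κ q t).toReal ∂(cn K L) =
        ∫ q, s.indicator (1 : (F → X) → ℝ) q *
          (∫ q', t.indicator (1 : (F → X) → ℝ) q' ∂(Pk K L γ q)) ∂(cn K L) := by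
      refine integral_congr_ae ?_
      filter_upwards [hae] with q hq
      rw [h4 t ht q hq]
      by_cases hqs : q ∈ s <;> simp [hqs]
    rw [e2, e3, h3]

end Pool.Agent.Work.MP_69fea5_lc.W3D
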