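import Pool.Agent.Work.MP_69fea5_lc.W3.StmtsD

/-!
Block [69fea5 D], item LA: the law of a chain which shares the vertex `j` with the first chain.
-/

set_option autoImplicit false

namespace Pool.Agent.Work.MP_69fea5_lc.W3D

open MeasureTheory Topology Set Filter
open ProbabilityTheory (Kernel)
open scoped ENNReal NNReal
open Pool.Agent.Work.MP_69fea5_lc.AK (Sys sh sh_zero sh_add sh_cont)

namespace D_LA

section gen

variable {X : Type} [TopologicalSpace X] [MeasurableSpace X] [Sys X]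

/-- conditioning on more coordinates when the image law does not depend on them -/
theorem map_eq_of_const {K : KT X} (hK : KS K) {F : Type} [Finite F] (L : AddSubgroup (F → ℤ))
    (h1 : 1 ∈ L) (A B : Set F) (hAB : A ⊆ B) (w : F → X) (hw : w ∈ NF X L) {Y : Type}
    [MeasurableSpace Y] (r : (F → X) → Y) (hr : Measurable r) (ν : Measure Y)
    (h : ∀ v ∈ NF X L, (∀ i ∈ A, v i = w i) → (K F L B v).map r = ν) :
    (K F L A w).map r = ν := by
  ext s hs
  have hae : ∀ᵐ v ∂(K F L A w), v ∈ NF X L ∧ ∀ i ∈ A, v i = w i := by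
    rw [ae_iff]
    exact hK.car F L h1 A w hw
  rw [Measure.map_apply hr hs]
  conv_lhs => rw [← hK.mul F L h1 A B hAB w hw]
  rw [Measure.bind_apply (hr hs) (K F L B).measurable.aemeasurable]
  have h2 : ∫⁻ v, (K F L B v) (r ⁻¹' s) ∂(K F L A w) = ∫⁻ _v, ν s ∂(K F L A w) := by
    refine lintegral_congr_ae ?_
    filter_upwards [hae] with v hv
    rw [← Measure.map_apply hr hs, h v hv.1 hv.2]
  rw [h2, lintegral_const, hK.prob F L h1 A w hw, mul_one]

/-- if agreement on `A` implies agreement on `B ⊇ A` then the kernels are the same -/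
theorem K_eq_of_agree {K : KT X} (hK : KS K) {F : Type} [Finite F] (L : AddSubgroup (F → ℤ))
    (h1 : 1 ∈ L) (A B : Set F) (hAB : A ⊆ B) (w : F → X) (hw : w ∈ NF X L)
    (h : ∀ v ∈ NF X L, (∀ i ∈ A, v i = w i) → ∀ i ∈ B, v i = w i) :
    K F L A w = K F L B w := by
  have h2 := map_eq_of_const hK L h1 A B hAB w hw (r := id) measurable_id (K F L B w)
    (fun v hv hvA => by
      rw [Measure.map_id]
      exact hK.cls F L h1 B v hv w hw (h v hv hvA))
  rwa [Measure.map_id] at h2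

end gen

section main

variable {X : Type} [TopologicalSpace X] [CompactSpace X] [T2Space X]
  [SecondCountableTopology X] [MeasurableSpace X] [BorelSpace X] [Sys X] [Nonempty X]

/-- the first chain is replaced by the constant chain of its vertex `j` -/
def Pm {X : Type} {n : ℕ} (j : Fin n) (C : Fin n ⊕ Fin n → X) : Fin n ⊕ Fin n → X :=
  Sum.elim (fun _ => C (Sum.inl j)) (fun i => C (Sum.inr i))

theorem Pm_cont {n : ℕ} (j : Fin n) :
    Continuous (Pm (X := X) j) := by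
  refine continuous_pi fun i => ?_
  rcases i with i | i
  · exact continuous_apply _
  · exact continuous_apply _

theorem one_mem (n : ℕ) (j : Fin n) : (1 : Fin n ⊕ Fin n → ℤ) ∈ Lp n {(j : ℕ)} :=
  ⟨1, 0, 0, fun i => by simp, fun i => by simp⟩

/-- the vector which moves the first chain to the constant chain -/
theorem exists_move {n : ℕ} (j : Fin n) (l : Fin n ⊕ Fin n → ℤ) (hl : l ∈ Lp n {(j : ℕ)}) :
    ∃ l' ∈ Lp n {(j : ℕ)}, (∀ i, l' (Sum.inr i) = 0) ∧
      ∀ i, l' (Sum.inl i) + l (Sum.inl i) = l (Sum.inl j) := by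
  obtain ⟨b, u, τ, h1, h2⟩ := hl
  refine ⟨Sum.elim (fun i => ((j : ℕ) : ℤ) * u - ((i : ℕ) : ℤ) * u) (fun _ => 0),
    ⟨((j : ℕ) : ℤ) * u, -u, fun _ => u, fun i => ?_, fun i => ?_⟩, fun i => rfl, fun i => ?_⟩
  · simp only [Sum.elim_inl]; ring
  · simp only [Sum.elim_inr, Finset.sum_singleton]; ring
  · simp only [Sum.elim_inl, h1]; ring

theorem Pm_gen {n : ℕ} (j : Fin n) (l l' : Fin n ⊕ Fin n → ℤ)
    (h1 : ∀ i, l' (Sum.inr i) = 0) (h2 : ∀ i, l' (Sum.inl i) + l (Sum.inl i) = l (Sum.inl j))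
    (x : X) : Pm j (shF l fun _ => x) = shF l' (shF l fun _ => x) := by
  rw [← shF_add]
  funext i
  rcases i with i | i
  · simp only [Pm, Sum.elim_inl, shF, Pi.add_apply, h2]
  · simp only [Pm, Sum.elim_inr, shF, Pi.add_apply, h1, zero_add]

theorem Pm_mem {n : ℕ} (j : Fin n) (C : Fin n ⊕ Fin n → X) (hC : C ∈ NF X (Lp n {(j : ℕ)})) :
    Pm j C ∈ NF X (Lp n {(j : ℕ)}) := by
  refine map_mem_closure (Pm_cont j) hC ?_
  rintro C ⟨l, hl, x, rfl⟩
  obtain ⟨l', hl', h1, h2⟩ := exists_move j l hl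
  exact ⟨l' + l, AddSubgroup.add_mem _ hl' hl, x, by rw [Pm_gen j l l' h1 h2, shF_add]⟩

theorem meas_inr {n : ℕ} : Measurable (fun v : Fin n ⊕ Fin n → X => v ∘ Sum.inr) :=
  measurable_pi_lambda _ fun i => measurable_pi_apply _

theorem cont_inr {n : ℕ} : Continuous (fun v : Fin n ⊕ Fin n → X => v ∘ Sum.inr) :=
  continuous_pi fun i => continuous_apply _

theorem Kl_move {K : KT X} (hK : KS K) {n : ℕ} (j : Fin n) (C : Fin n ⊕ Fin n → X)
    (hC : C ∈ NF X (Lp n {(j : ℕ)})) (l : Fin n ⊕ Fin n → ℤ) (hl : l ∈ Lp n {(j : ℕ)})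
    (h1 : ∀ i, l (Sum.inr i) = 0) :
    (K (Fin n ⊕ Fin n) (Lp n {(j : ℕ)}) (range Sum.inl) (shF l C)).map (fun v => v ∘ Sum.inr) =
    (K (Fin n ⊕ Fin n) (Lp n {(j : ℕ)}) (range Sum.inl) C).map (fun v => v ∘ Sum.inr) := by
  rw [hK.equi _ _ (one_mem n j) _ C hC l hl,
    Measure.map_map meas_inr (continuous_shF l).measurable]
  congr 1
  funext v
  funext i
  simp only [Function.comp_apply, shF, h1, sh_zero]

/-- step (2) -/
theorem Kl_Pm {K : KT X} (hK : KS K) {n : ℕ} (j : Fin n) (C : Fin n ⊕ Fin n → X)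
    (hC : C ∈ NF X (Lp n {(j : ℕ)})) :
    (K (Fin n ⊕ Fin n) (Lp n {(j : ℕ)}) (range Sum.inl) (Pm j C)).map (fun v => v ∘ Sum.inr) =
    (K (Fin n ⊕ Fin n) (Lp n {(j : ℕ)}) (range Sum.inl) C).map (fun v => v ∘ Sum.inr) := by
  have hfin : ∀ D ∈ NF X (Lp n {(j : ℕ)}),
      IsFiniteMeasure (K (Fin n ⊕ Fin n) (Lp n {(j : ℕ)}) (range Sum.inl) D) := fun D hD =>
    ⟨by rw [hK.prob _ _ (one_mem n j) _ D hD]; exact ENNReal.one_lt_top⟩
  have f1 := hfin _ (Pm_mem j C hC)
  have f2 := hfin _ hC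
  letI : TopologicalSpace.MetrizableSpace X := inferInstance
  letI : MetricSpace X := TopologicalSpace.metrizableSpaceMetric X
  refine ext_of_forall_integral_eq_of_IsFiniteMeasure (fun g => ?_)
  rw [integral_map meas_inr.aemeasurable g.continuous.aestronglyMeasurable,
    integral_map meas_inr.aemeasurable g.continuous.aestronglyMeasurable]
  let G : C(Fin n ⊕ Fin n → X, ℝ) := ⟨fun v => g (v ∘ Sum.inr), g.continuous.comp cont_inr⟩
  have hcont := hK.cont _ _ (one_mem n j) (range Sum.inl) G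
  have hEq : EqOn (fun D => ∫ v, G v ∂K (Fin n ⊕ Fin n) (Lp n {(j : ℕ)}) (range Sum.inl) (Pm j D))
      (fun D => ∫ v, G v ∂K (Fin n ⊕ Fin n) (Lp n {(j : ℕ)}) (range Sum.inl) D)
      (NF X (Lp n {(j : ℕ)})) := by
    refine EqOn.of_subset_closure (s := {w | ∃ l ∈ Lp n {(j : ℕ)}, ∃ x : X, w = shF l fun _ => x})
      ?_ (hcont.comp (Pm_cont j).continuousOn fun D hD => Pm_mem j D hD) hcont
      subset_closure (subset_refl _)
    rintro D ⟨l, hl, x, rfl⟩
    obtain ⟨l', hl', h1, h2⟩ := exists_move j l hl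
    have hD : (shF l fun _ => x) ∈ NF X (Lp n {(j : ℕ)}) := subset_closure ⟨l, hl, x, rfl⟩
    have hm := Kl_move hK j _ hD l' hl' h1
    beta_reduce
    rw [Pm_gen j l l' h1 h2]
    have e1 := congrArg (fun ν : Measure (Fin n → X) => ∫ v, g v ∂ν) hm
    beta_reduce at e1
    rw [integral_map meas_inr.aemeasurable g.continuous.aestronglyMeasurable,
      integral_map meas_inr.aemeasurable g.continuous.aestronglyMeasurable] at e1
    exact e1
  exact hEq hC

omit [CompactSpace X] [SecondCountableTopology X] [MeasurableSpace X] [BorelSpace X]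
  [Nonempty X] in
theorem agree_j {n : ℕ} (j : Fin n) (C : Fin n ⊕ Fin n → X)
    (hC : C ∈ NF X (Lp n {(j : ℕ)})) : C (Sum.inl j) = C (Sum.inr j) := by
  have hcl : IsClosed {C : Fin n ⊕ Fin n → X | C (Sum.inl j) = C (Sum.inr j)} :=
    isClosed_eq (continuous_apply _) (continuous_apply _)
  refine closure_minimal ?_ hcl hC
  rintro D ⟨l, ⟨b, u, τ, h1, h2⟩, x, rfl⟩
  change sh (l (Sum.inl j)) x = sh (l (Sum.inr j)) x
  rw [h1, h2]
  simp

end main

end D_LA

open D_LA in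
theorem LA_pf : S_LA := by
  intro X _ _ _ _ _ _ _ _ K hK n j C hC
  have hone := one_mem n j
  -- the law depends only on `C (inl j)`
  have hdep : ∀ D ∈ NF X (Lp n {(j : ℕ)}), (∀ i ∈ ({Sum.inl j} : Set (Fin n ⊕ Fin n)), D i = C i) →
      (K (Fin n ⊕ Fin n) (Lp n {(j : ℕ)}) (range Sum.inl) D).map (fun v => v ∘ Sum.inr) =
      (K (Fin n ⊕ Fin n) (Lp n {(j : ℕ)}) (range Sum.inl) C).map (fun v => v ∘ Sum.inr) := by
    intro D hD hag
    rw [← Kl_Pm hK j D hD, ← Kl_Pm hK j C hC]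
    rw [hK.cls _ _ hone (range Sum.inl) _ (Pm_mem j D hD) _ (Pm_mem j C hC)]
    rintro i ⟨i', rfl⟩
    exact hag _ rfl
  have h3 := map_eq_of_const hK (Lp n {(j : ℕ)}) hone {Sum.inl j} (range Sum.inl)
    (by rintro i rfl; exact ⟨j, rfl⟩) C hC (fun v => v ∘ Sum.inr) meas_inr _ hdep
  rw [← h3]
  -- the kernels for `inl j` and `inr j` agree
  have h4 : K (Fin n ⊕ Fin n) (Lp n {(j : ℕ)}) {Sum.inl j} C =
      K (Fin n ⊕ Fin n) (Lp n {(j : ℕ)}) {Sum.inr j} C := by
    rw [K_eq_of_agree hK (Lp n {(j : ℕ)}) hone {Sum.inl j} {Sum.inl j, Sum.inr j}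
      (by rintro i rfl; exact Or.inl rfl) C hC ?_,
      K_eq_of_agree hK (Lp n {(j : ℕ)}) hone {Sum.inr j} {Sum.inl j, Sum.inr j}
      (by rintro i rfl; exact Or.inr rfl) C hC ?_]
    · intro v hv h i hi
      have e1 := agree_j j v hv
      have e2 := agree_j j C hC
      have e3 := h (Sum.inr j) rfl
      rcases hi with rfl | rfl
      · rw [e1, e2, e3]
      · exact e3
    · intro v hv h i hi
      have e1 := agree_j j v hv
      have e2 := agree_j j C hC
      have e3 := h (Sum.inl j) rfl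
      rcases hi with rfl | rfl
      · exact e3
      · rw [← e1, ← e2, e3]
  rw [h4, hK.nat (Fin n ⊕ Fin n) (Fin n) Sum.inr (Lp n {(j : ℕ)}) (Lc n) hone ?_ {Sum.inr j}
    (by rintro i rfl; exact ⟨j, rfl⟩) C hC]
  · congr 1
    have : (Sum.inr ⁻¹' {(Sum.inr j : Fin n ⊕ Fin n)} : Set (Fin n)) = {j} := by
      ext i
      simp
    rw [this]
  · intro l'
    constructor
    · rintro ⟨b, u, h⟩
      refine ⟨Sum.elim l' l', ⟨b, u, 0, fun i => by simp [h i], fun i => by simp [h i]⟩, ?_⟩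
      funext i
      rfl
    · rintro ⟨l, ⟨b, u, τ, h1, h2⟩, rfl⟩
      refine ⟨b - ((j : ℕ) : ℤ) * τ j, u + τ j, fun i => ?_⟩
      simp only [Function.comp_apply, h2, Finset.sum_singleton]
      ring

end Pool.Agent.Work.MP_69fea5_lc.W3D
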