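import Pool.Agent.Work.MP_69fea5_lc.W3.StmtsD2
import Pool.Agent.Work.MP_69fea5_lc.W3.D_NAT

/-!
# Block [69fea5 D], item NAP: naturality of the kernels for factor maps
-/

set_option autoImplicit false

namespace Pool.Agent.Work.MP_69fea5_lc.W3D

open MeasureTheory Topology Set Filter
open ProbabilityTheory (Kernel)
open scoped ENNReal NNReal ProbabilityTheory
open Pool.Agent.Work.MP_69fea5_lc.AK (Sys sh orb sh_zero sh_add sh_cont)

namespace D_NAP

section rr

variable {X X' F : Type} [TopologicalSpace X] [Sys X] [TopologicalSpace X'] [Sys X']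
  (p : X' → X) (hp : Continuous p) (hpe : ∀ (m : ℤ) y, p (sh m y) = sh m (p y))
  (L : AddSubgroup (F → ℤ))

omit [Sys X] [Sys X'] in
include hp in
theorem cont_comp : Continuous fun (v : F → X') (i : F) => p (v i) :=
  continuous_pi fun i => hp.comp (continuous_apply i)

include hp hpe in
theorem mem (v : F → X') (hv : v ∈ NF X' L) : (fun i => p (v i)) ∈ NF X L :=
  map_mem_closure (f := fun (v : F → X') (i : F) => p (v i)) (cont_comp p hp) hv
    fun _ ⟨k, hk, x, hx⟩ => ⟨k, hk, p x, by
      rw [hx]
      funext i
      exact hpe (k i) x⟩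

/-- the image of configurations -/
def rr (v : NN X' L) : NN X L := ⟨fun i => p (v.1 i), mem p hp hpe L v.1 v.2⟩

theorem cont_rr : Continuous (rr p hp hpe L) :=
  ((cont_comp p hp).comp continuous_subtype_val).subtype_mk _

theorem surj_rr [CompactSpace X'] [T2Space X] (hs : Function.Surjective p) :
    Function.Surjective (rr p hp hpe L) := by
  intro w
  have h1 : w.1 ∈ (fun (v : F → X') (i : F) => p (v i)) '' NF X' L := by
    have hc : IsClosed ((fun (v : F → X') (i : F) => p (v i)) '' NF X' L) :=
      (((isClosed_NF L).isCompact).image (cont_comp p hp)).isClosed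
    have h2 : NF X L ⊆ (fun (v : F → X') (i : F) => p (v i)) '' NF X' L := by
      refine closure_minimal ?_ hc
      rintro _ ⟨l, hl, x, rfl⟩
      obtain ⟨x', rfl⟩ := hs x
      exact ⟨shF l fun _ => x', subset_closure ⟨l, hl, x', rfl⟩, funext fun i => hpe (l i) x'⟩
    exact h2 w.2
  obtain ⟨v, hv, hvw⟩ := h1
  exact ⟨⟨v, hv⟩, Subtype.ext hvw⟩

theorem quot_rr [CompactSpace X'] [T2Space X] (hs : Function.Surjective p) :
    IsQuotientMap (rr p hp hpe L) :=
  (cont_rr p hp hpe L).isClosedMap.isQuotientMap (cont_rr p hp hpe L) (surj_rr p hp hpe L hs)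

theorem equi_rr (l : L) (v : NN X' L) :
    rr p hp hpe L (aN L l v) = aN L l (rr p hp hpe L v) :=
  Subtype.ext (funext fun i => hpe (l.1 i) (v.1 i))

theorem EE_rr (E : ℕ → X → X → Prop) (E' : ℕ → X' → X' → Prop) (h : ℕ)
    (hE : ∀ t ≤ h, ∀ y y', E' t y y' ↔ E t (p y) (p y')) (m : F → ℕ)
    (hm : ∀ i, m i ≤ h) (v w : NN X' L) :
    EE E' m v w ↔ EE E m (rr p hp hpe L v) (rr p hp hpe L w) :=
  forall_congr' fun i => hE (m i) (hm i) _ _

end rr

section main

variable {X X' : Type} [TopologicalSpace X] [CompactSpace X] [T2Space X]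
  [SecondCountableTopology X] [MeasurableSpace X] [BorelSpace X] [Sys X]
  [TopologicalSpace X'] [CompactSpace X'] [T2Space X']
  [SecondCountableTopology X'] [MeasurableSpace X'] [BorelSpace X'] [Sys X']
  {F : Type} [Finite F]
  (p : X' → X) (hp : Continuous p) (hpe : ∀ (m : ℤ) y, p (sh m y) = sh m (p y))
  (hs : Function.Surjective p) (L : AddSubgroup (F → ℤ))

/-- the image kernel -/
noncomputable def im (k : NN X' L → ProbabilityMeasure (NN X' L)) (x : NN X L) :
    ProbabilityMeasure (NN X L) :=
  (k (Classical.choose (surj_rr p hp hpe L hs x))).map (f := rr p hp hpe L)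
    (cont_rr p hp hpe L).measurable.aemeasurable

theorem im_rr (E : ℕ → X → X → Prop) (E' : ℕ → X' → X' → Prop) (h : ℕ)
    (hE : ∀ t ≤ h, ∀ y y', E' t y y' ↔ E t (p y) (p y')) (m : F → ℕ)
    (hm : ∀ i, m i ≤ h) (hrefl : ∀ i x, E (m i) x x)
    (k : NN X' L → ProbabilityMeasure (NN X' L))
    (hcls : ∀ x y, EE E' m x y → k x = k y) (v : NN X' L) :
    im p hp hpe hs L k (rr p hp hpe L v) =
      (k v).map (f := rr p hp hpe L) (cont_rr p hp hpe L).measurable.aemeasurable := by
  have h1 := Classical.choose_spec (surj_rr p hp hpe L hs (rr p hp hpe L v))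
  have h2 : k (Classical.choose (surj_rr p hp hpe L hs (rr p hp hpe L v))) = k v := by
    apply hcls
    rw [EE_rr p hp hpe L E E' h hE m hm, h1]
    intro i
    exact hrefl i _
  have h3 : ∀ μ ν : ProbabilityMeasure (NN X' L), μ = ν →
      μ.map (f := rr p hp hpe L) (cont_rr p hp hpe L).measurable.aemeasurable =
        ν.map (f := rr p hp hpe L) (cont_rr p hp hpe L).measurable.aemeasurable := by
    rintro μ _ rfl
    rfl
  exact h3 _ _ h2

theorem ker_im (E : ℕ → X → X → Prop) (E' : ℕ → X' → X' → Prop) (h : ℕ)
    (hE : ∀ t ≤ h, ∀ y y', E' t y y' ↔ E t (p y) (p y')) (m : F → ℕ)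
    (hm : ∀ i, m i ≤ h) (hrefl : ∀ i x, E (m i) x x)
    (hc : ∀ i, IsClosed {q : X × X | E (m i) q.1 q.2})
    (k : NN X' L → ProbabilityMeasure (NN X' L)) (hk : Ker (aN L) (EE E' m) k) :
    Ker (aN L) (EE E m) (im p hp hpe hs L k) where
  cont := by
    rw [(quot_rr p hp hpe L hs).continuous_iff]
    have h1 : im p hp hpe hs L k ∘ rr p hp hpe L = fun v =>
        (k v).map (f := rr p hp hpe L) (cont_rr p hp hpe L).measurable.aemeasurable :=
      funext fun v => im_rr p hp hpe hs L E E' h hE m hm hrefl k hk.cls v
    rw [h1]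
    exact (ProbabilityMeasure.continuous_map (cont_rr p hp hpe L)).comp hk.cont
  cls x y hxy := by
    obtain ⟨v, rfl⟩ := surj_rr p hp hpe L hs x
    obtain ⟨w, rfl⟩ := surj_rr p hp hpe L hs y
    rw [im_rr p hp hpe hs L E E' h hE m hm hrefl k hk.cls v,
      im_rr p hp hpe hs L E E' h hE m hm hrefl k hk.cls w]
    have h1 : k v = k w := hk.cls _ _ ((EE_rr p hp hpe L E E' h hE m hm v w).2 hxy)
    simp only [h1]
  car x := by
    obtain ⟨v, rfl⟩ := surj_rr p hp hpe L hs x
    rw [im_rr p hp hpe hs L E E' h hE m hm hrefl k hk.cls v, ProbabilityMeasure.toMeasure_map]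
    have hms : MeasurableSet {y : NN X L | ¬ EE E m (rr p hp hpe L v) y} :=
      (D_NAT.closed_EE E m hc (rr p hp hpe L v)).measurableSet.compl
    rw [Measure.map_apply (cont_rr p hp hpe L).measurable hms]
    refine measure_mono_null ?_ (hk.car v)
    intro y hy hy2
    exact hy ((EE_rr p hp hpe L E E' h hE m hm v y).1 hy2)
  equi l x := by
    obtain ⟨v, rfl⟩ := surj_rr p hp hpe L hs x
    have h1 : aN L l (rr p hp hpe L v) = rr p hp hpe L (aN L l v) := (equi_rr p hp hpe L l v).symm
    have h2 : Continuous (aN (X := X) L l) := (act_aN L).cont _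
    have h3 : Continuous (aN (X := X') L l) := (act_aN L).cont _
    have h4 : aN (X := X) L l ∘ rr p hp hpe L = rr p hp hpe L ∘ aN (X := X') L l :=
      funext fun u => (equi_rr p hp hpe L l u).symm
    rw [h1, im_rr p hp hpe hs L E E' h hE m hm hrefl k hk.cls,
      im_rr p hp hpe hs L E E' h hE m hm hrefl k hk.cls,
      ProbabilityMeasure.toMeasure_map, ProbabilityMeasure.toMeasure_map, hk.equi,
      Measure.map_map (cont_rr p hp hpe L).measurable h3.measurable,
      Measure.map_map h2.measurable (cont_rr p hp hpe L).measurable, h4]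

end main

/-- a factor map onto a minimal system is onto -/
theorem surj {X X' : Type} [TopologicalSpace X] [T2Space X] [Sys X]
    [TopologicalSpace X'] [CompactSpace X'] [Sys X'] [Nonempty X']
    (p : X' → X) (hp : Continuous p) (hpe : ∀ (m : ℤ) y, p (sh m y) = sh m (p y))
    (hX : ∀ x y : X, y ∈ orb x) : Function.Surjective p := by
  intro x
  obtain ⟨x', -⟩ : ∃ x' : X', True := ⟨Classical.arbitrary X', trivial⟩
  have h1 : IsClosed (range p) := (isCompact_range hp).isClosed
  have h2 : orb (p x') ⊆ range p := by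
    refine closure_minimal ?_ h1
    rintro _ ⟨n, rfl⟩
    exact ⟨sh n x', hpe n x'⟩
  exact h2 (hX (p x') x)

end D_NAP

open D_NAP in
theorem NAP_pf (hSTU : S_STU) (hMIN : S_MIN) (hTWE : S_TWE) (hISN : S_ISN) : S_NAP := by
  intro X X' _ _ _ _ _ _ _ _ _ _ _ _ _ _ _ _ h h' E ρ E' ρ' p hX hX' hT hT' hhh hp hpe hE F _ L
    h1L K K' hK hK'
  have : Fintype F := Fintype.ofFinite F
  have hs : Function.Surjective p := surj p hp hpe hX
  have hrefl : ∀ l ≤ h, ∀ x, E l x x := fun l hl x => (hTWE X h E ρ hT l hl).1.refl x
  have hcl : ∀ l ≤ h, IsClosed {q : X × X | E l q.1 q.2} := fun l hl =>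
    (hTWE X h E ρ hT l hl).2.1
  -- the main claim
  have main : ∀ n : ℕ, ∀ m : F → ℕ, (∀ i, m i ≤ h) →
      ∑ i : F, (h - m i) = n → im p hp hpe hs L (K' m) = K m := by
    intro n
    induction n using Nat.strong_induction_on with
    | _ n ih =>
      intro m hmh hn
      have hker := ker_im p hp hpe hs L E E' h hE m hmh (fun i x => hrefl _ (hmh i) x)
        (fun i => hcl _ (hmh i)) (K' m) (hK'.ker m fun i => (hmh i).trans hhh)
      have hker' := hK.ker m hmh
      by_cases hall : ∀ i : F, m i = h
      · -- the top level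
        funext x
        have key : ∀ κ : NN X L → ProbabilityMeasure (NN X L),
            Ker (aN L) (EE E m) κ → (κ x : Measure (NN X L)) = Measure.dirac x := by
          intro κ hκ
          refine D_NAT.eq_dirac _ x ?_
          refine measure_mono_null ?_ (hκ.car x)
          intro y hy hxy
          refine hy (Subtype.ext (funext fun i => ?_))
          have h2 := hxy i
          rw [hall i] at h2
          exact hT.top _ _ h2
        exact Subtype.ext ((key _ hker).trans (key _ hker').symm)
      · push Not at hall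
        obtain ⟨j, hj⟩ := hall
        have hj' : m j < h := lt_of_le_of_ne (hmh _) hj
        obtain ⟨mp, hmp⟩ : ∃ mp : F → ℕ, mp = fun i => min h (m i + 1) := ⟨_, rfl⟩
        have hmp1 : ∀ i, mp i = min h (m i + 1) := by
          intro i
          rw [hmp]
        have hmph : ∀ i, mp i ≤ h := by
          intro i
          rw [hmp1]
          exact min_le_left _ _
        have hmmp : ∀ i, m i ≤ mp i := by
          intro i
          rw [hmp1]
          have := hmh i
          omega
        have hlt : ∑ i : F, (h - mp i) < n := by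
          rw [← hn]
          refine Finset.sum_lt_sum (fun i _ => ?_) ⟨j, Finset.mem_univ _, ?_⟩
          · have := hmmp i
            omega
          · rw [hmp1]
            omega
        have hIH := ih _ hlt mp hmph rfl
        have hiso := hISN X h E ρ hT F L m mp (fun i => by
          rw [hmp1]
          have := hmh i
          omega) hmph
        refine hSTU L (NN X L) (aN L) (act_aN L) (hMIN X h E ρ hX hT F L h1L)
          (EE E m) (EE E mp) _ hiso (K mp) _ _ (hK.ker _ hmph) hker hker' ?_
          (hK.mul m mp hmmp hmph)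
        -- the saturation
        intro x f
        obtain ⟨v, rfl⟩ := surj_rr p hp hpe L hs x
        have hr := cont_rr p hp hpe L
        have himv := im_rr p hp hpe hs L E E' h hE m hmh (fun i x => hrefl _ (hmh i) x) (K' m)
          (hK'.ker m fun i => (hmh i).trans hhh).cls v
        have hin : Continuous fun y : NN X L => ∫ z, f z ∂(K mp y : Measure (NN X L)) := by
          have h5 := (ProbabilityMeasure.continuous_integral_boundedContinuousFunction
            (BoundedContinuousFunction.mkOfCompact f)).comp (hK.ker mp hmph).cont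
          exact h5
        rw [himv, ProbabilityMeasure.toMeasure_map,
          integral_map hr.measurable.aemeasurable hin.aestronglyMeasurable,
          integral_map hr.measurable.aemeasurable f.continuous.aestronglyMeasurable]
        have h6 := hK'.mul m mp hmmp (fun i => (hmph i).trans hhh) v
          (f.comp ⟨rr p hp hpe L, hr⟩)
        refine Eq.trans ?_ h6
        refine integral_congr_ae (Eventually.of_forall fun u => ?_)
        have himu := im_rr p hp hpe hs L E E' h hE mp hmph (fun i x => hrefl _ (hmph i) x) (K' mp)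
          (hK'.ker mp fun i => (hmph i).trans hhh).cls u
        have h7 : K mp (rr p hp hpe L u) =
            (K' mp u).map (f := rr p hp hpe L) hr.measurable.aemeasurable := by
          rw [← hIH]
          exact himu
        change ∫ z, f z ∂(K mp (rr p hp hpe L u) : Measure (NN X L)) =
          ∫ z, f (rr p hp hpe L z) ∂(K' mp u : Measure (NN X' L))
        rw [h7, ProbabilityMeasure.toMeasure_map,
          integral_map hr.measurable.aemeasurable f.continuous.aestronglyMeasurable]
  intro m hmh w w' hw
  have hm := main _ m hmh rfl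
  have hw' : w = rr p hp hpe L w' := Subtype.ext hw
  have hr := cont_rr p hp hpe L
  have h1 := im_rr p hp hpe hs L E E' h hE m hmh (fun i x => hrefl _ (hmh i) x) (K' m)
    (hK'.ker m fun i => (hmh i).trans hhh).cls w'
  have h2 : K m w = (K' m w').map (f := rr p hp hpe L) hr.measurable.aemeasurable := by
    rw [← hm, hw', h1]
  rw [h2, ProbabilityMeasure.toMeasure_map, Measure.map_map measurable_subtype_coe hr.measurable]
  rfl

end Pool.Agent.Work.MP_69fea5_lc.W3D
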