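import Pool.Agent.Work.MP_69fea5_lc.W3.StmtsD

/-!
# [69fea5 D PK2] the doubled configurations are symmetric
-/

set_option autoImplicit false

namespace Pool.Agent.Work.MP_69fea5_lc.W3D

open MeasureTheory Topology Set Filter
open ProbabilityTheory (Kernel)
open scoped ENNReal NNReal

theorem PK2_pf : S_PK2 := by
  intro X _ _ _ _ _ _ _ _ K hK F _ L γ h1 hγ
  have one : (1 : F ⊕ F → ℤ) ∈ dbl L γ := ⟨1, h1, 0, fun i => rfl, fun i => by simp⟩
  have hw : (fun _ => Classical.arbitrary X : F ⊕ F → X) ∈ NF X (dbl L γ) :=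
    subset_closure ⟨0, (dbl L γ).zero_mem, Classical.arbitrary X, (shF_zero _).symm⟩
  have key : ∀ l' : F ⊕ F → ℤ, l' ∈ dbl L γ → l' ∘ Sum.swap ∈ dbl L γ := by
    rintro l' ⟨k, hk, m, e1, e2⟩
    refine ⟨k + m • γ, L.add_mem hk (L.zsmul_mem hγ m), -m, fun i => ?_, fun i => ?_⟩
    · change l' (Sum.inr i) = _
      rw [e2 i]
      simp
    · change l' (Sum.inl i) = _
      rw [e1 i]
      simp
  have hL : ∀ l' : F ⊕ F → ℤ, l' ∈ dbl L γ ↔ ∃ l ∈ dbl L γ, l' = l ∘ Sum.swap := by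
    intro l'
    constructor
    · intro h
      refine ⟨l' ∘ Sum.swap, key l' h, ?_⟩
      funext i
      simp [Function.comp]
    · rintro ⟨l, hl, rfl⟩
      exact key l hl
  have := hK.nat (F ⊕ F) (F ⊕ F) Sum.swap (dbl L γ) (dbl L γ) one hL ∅ (empty_subset _) _ hw
  rw [preimage_empty] at this
  exact this

end Pool.Agent.Work.MP_69fea5_lc.W3D
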