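import Pool.Agent.Work.MP_69fea5_lc.W3.StmtsD

/-!
# Item [69fea5 D SCO]: strong continuity of the law, given one vertex
-/

set_option autoImplicit false

namespace Pool.Agent.Work.MP_69fea5_lc.W3D

open MeasureTheory Topology Set Filter
open ProbabilityTheory (Kernel)
open scoped ENNReal NNReal
open Pool.Agent.Work.MP_69fea5_lc.AK (Sys sh orb)

namespace D_SCO

theorem abs_prod_le {ι : Type} (s : Finset ι) (a : ι → ℝ) (ha : ∀ i, |a i| ≤ 1) :
    |∏ i ∈ s, a i| ≤ 1 := by
  rw [Finset.abs_prod]
  exact Finset.prod_le_one (fun i _ => abs_nonneg _) (fun i _ => ha i)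

theorem abs_prod_sub {ι : Type} [DecidableEq ι] (s : Finset ι) (a b : ι → ℝ)
    (ha : ∀ i, |a i| ≤ 1) (hb : ∀ i, |b i| ≤ 1) :
    |∏ i ∈ s, a i - ∏ i ∈ s, b i| ≤ ∑ i ∈ s, |a i - b i| := by
  induction s using Finset.induction_on with
  | empty => simp
  | insert i s hi ih =>
    rw [Finset.prod_insert hi, Finset.prod_insert hi, Finset.sum_insert hi]
    have h1 : a i * ∏ x ∈ s, a x - b i * ∏ x ∈ s, b x =
        (a i - b i) * ∏ x ∈ s, a x + b i * (∏ x ∈ s, a x - ∏ x ∈ s, b x) := by ring
    rw [h1]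
    refine (abs_add_le _ _).trans (add_le_add ?_ ?_)
    · rw [abs_mul]
      calc |a i - b i| * |∏ x ∈ s, a x| ≤ |a i - b i| * 1 :=
            mul_le_mul_of_nonneg_left (abs_prod_le s a ha) (abs_nonneg _)
        _ = |a i - b i| := mul_one _
    · rw [abs_mul]
      calc |b i| * |∏ x ∈ s, a x - ∏ x ∈ s, b x| ≤ 1 * |∏ x ∈ s, a x - ∏ x ∈ s, b x| :=
            mul_le_mul_of_nonneg_right (hb i) (abs_nonneg _)
        _ ≤ _ := by rw [one_mul]; exact ih

/-- approximation by a bounded continuous function -/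
theorem approx {X : Type} [TopologicalSpace X] [CompactSpace X] [T2Space X]
    [SecondCountableTopology X] [MeasurableSpace X] [BorelSpace X] (μ : Measure X)
    [IsFiniteMeasure μ] (f : X → ℝ) (hf : Measurable f) (hb : ∀ x, |f x| ≤ 1) (ε : ℝ)
    (hε : 0 < ε) : ∃ g : C(X, ℝ), (∀ x, |g x| ≤ 1) ∧ ∫ x, |f x - g x| ∂μ ≤ ε := by
  have : TopologicalSpace.MetrizableSpace X :=
    TopologicalSpace.metrizableSpace_of_t3_secondCountable X
  have hfi : Integrable f μ :=
    Integrable.of_bound hf.aestronglyMeasurable 1 (Eventually.of_forall fun x => hb x)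
  obtain ⟨g, hg, hgi⟩ := hfi.exists_boundedContinuous_integral_sub_le hε
  let g' : C(X, ℝ) := ⟨fun x => max (-1) (min 1 (g x)),
    continuous_const.max (continuous_const.min g.continuous)⟩
  refine ⟨g', fun x => ?_, ?_⟩
  · show |max (-1) (min 1 (g x))| ≤ 1
    rw [abs_le]
    exact ⟨le_max_left _ _, max_le (by norm_num) (min_le_left _ _)⟩
  · refine le_trans ?_ hg
    have hgi' : Integrable (fun x => g' x) μ :=
      (BoundedContinuousFunction.mkOfCompact g').integrable _
    refine integral_mono ((hfi.sub hgi').abs) ((hfi.sub hgi).norm) (fun x => ?_)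
    show |f x - max (-1) (min 1 (g x))| ≤ |f x - g x|
    have h1 := abs_le.1 (hb x)
    rcases le_total (g x) 1 with h2 | h2
    · rw [min_eq_right h2]
      rcases le_total (-1) (g x) with h3 | h3
      · rw [max_eq_right h3]
      · rw [max_eq_left h3]
        rw [abs_of_nonneg (by linarith), abs_of_nonneg (by linarith)]
        linarith
    · rw [min_eq_left h2, max_eq_right (by norm_num)]
      rw [abs_of_nonpos (by linarith), abs_of_nonpos (by linarith)]
      linarith

end D_SCO

open D_SCO in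
theorem SCO_pf (hDOM1 : S_DOM1) : S_SCO := by
  intro X _ _ _ _ _ _ _ _ K hK n j f hfm hfb
  have h1 : (1 : Fin n → ℤ) ∈ Lc n := ⟨1, 0, fun i => by simp⟩
  have hfin : IsFiniteMeasure (cX K) := by
    constructor
    unfold cX
    rw [Measure.map_apply (measurable_pi_apply 0) MeasurableSet.univ, preimage_univ]
    exact (hK.le_one (Fin 1) (Lc 1) ∅ _).trans_lt ENNReal.one_lt_top
  apply continuousOn_of_uniform_approx_of_continuousOn
  intro u hu
  obtain ⟨δ, hδ, hsub⟩ := Metric.mem_uniformity_dist.1 hu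
  let ε : ℝ := δ / (2 * ((n : ℝ) * n + 1))
  have hε : 0 < ε := by positivity
  have hg : ∀ i, ∃ g : C(X, ℝ), (∀ x, |g x| ≤ 1) ∧ ∫ x, |f i x - g x| ∂(cX K) ≤ ε :=
    fun i => approx (cX K) (f i) (hfm i) (hfb i) ε hε
  choose g hgb hgε using hg
  let G : C(Fin n → X, ℝ) := ⟨fun v => ∏ i ∈ Finset.univ.erase j, g i (v i),
    continuous_finsetProd _ fun i _ => (g i).continuous.comp (continuous_apply i)⟩
  refine ⟨fun C => ∫ v, G v ∂(K (Fin n) (Lc n) {j} C), hK.cont (Fin n) (Lc n) h1 {j} G, ?_⟩
  intro C hC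
  apply hsub
  rw [Real.dist_eq]
  let κ : Measure (Fin n → X) := K (Fin n) (Lc n) {j} C
  have hκ : IsProbabilityMeasure κ := ⟨hK.prob (Fin n) (Lc n) h1 {j} C hC⟩
  have hFm : Measurable fun v : Fin n → X => ∏ i ∈ Finset.univ.erase j, f i (v i) :=
    Finset.measurable_prod _ fun i _ => (hfm i).comp (measurable_pi_apply i)
  have hFi : Integrable (fun v : Fin n → X => ∏ i ∈ Finset.univ.erase j, f i (v i)) κ :=
    Integrable.of_bound hFm.aestronglyMeasurable 1
      (Eventually.of_forall fun v => abs_prod_le _ _ fun i => hfb i (v i))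
  have hGi : Integrable (fun v : Fin n → X => G v) κ :=
    Integrable.of_bound G.continuous.measurable.aestronglyMeasurable 1
      (Eventually.of_forall fun v =>
        abs_prod_le (Finset.univ.erase j) (fun i => g i (v i)) fun i => hgb i (v i))
  have hdi : ∀ i, Measurable fun x : X => |f i x - g i x| := fun i =>
    ((hfm i).sub (g i).continuous.measurable).abs
  have hd2 : ∀ i x, |f i x - g i x| ≤ 2 := fun i x => by
    refine (abs_sub _ _).trans ?_
    have := hfb i x
    have := hgb i x
    linarith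
  have hterm : ∀ i ∈ Finset.univ.erase j, ∫ v, |f i (v i) - g i (v i)| ∂κ ≤ n * ε := by
    intro i hi
    have hij : i ≠ j := Finset.ne_of_mem_erase hi
    have hle := hDOM1 X K hK n i j hij C hC
    have e1 : ∫ v, |f i (v i) - g i (v i)| ∂κ =
        ∫ x, |f i x - g i x| ∂(κ.map fun v => v i) := by
      rw [integral_map (measurable_pi_apply i).aemeasurable (hdi i).aestronglyMeasurable]
    rw [e1]
    have hfin2 : IsFiniteMeasure (n • cX K) := by
      rw [← Nat.cast_smul_eq_nsmul ℝ≥0 n (cX K)]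
      infer_instance
    have e2 : ∫ x, |f i x - g i x| ∂(κ.map fun v => v i) ≤
        ∫ x, |f i x - g i x| ∂(n • cX K) := by
      apply integral_mono_measure hle (Eventually.of_forall fun x => abs_nonneg _)
      exact Integrable.of_bound (hdi i).aestronglyMeasurable 2
        (Eventually.of_forall fun x => by
          rw [Real.norm_eq_abs, abs_abs]
          exact hd2 i x)
    refine e2.trans ?_
    rw [← Nat.cast_smul_eq_nsmul ℝ≥0∞ n (cX K), integral_smul_measure]
    rw [ENNReal.toReal_natCast, smul_eq_mul]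
    exact mul_le_mul_of_nonneg_left (hgε i) (Nat.cast_nonneg n)
  have hmain : |∫ v, ∏ i ∈ Finset.univ.erase j, f i (v i) ∂κ - ∫ v, G v ∂κ| ≤
      (n : ℝ) * (n * ε) := by
    rw [← integral_sub hFi hGi]
    refine (abs_integral_le_integral_abs).trans ?_
    have hsi : ∀ i, Integrable (fun v : Fin n → X => |f i (v i) - g i (v i)|) κ := fun i =>
      Integrable.of_bound ((hdi i).comp (measurable_pi_apply i)).aestronglyMeasurable 2
        (Eventually.of_forall fun v => by
          rw [Real.norm_eq_abs, abs_abs]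
          exact hd2 i (v i))
    have h2 : ∫ v, |∏ i ∈ Finset.univ.erase j, f i (v i) - G v| ∂κ ≤
        ∫ v, ∑ i ∈ Finset.univ.erase j, |f i (v i) - g i (v i)| ∂κ := by
      refine integral_mono (hFi.sub hGi).abs (integrable_finset_sum _ fun i _ => hsi i)
        (fun v => ?_)
      exact abs_prod_sub _ _ _ (fun i => hfb i (v i)) (fun i => hgb i (v i))
    refine h2.trans ?_
    rw [integral_finset_sum _ fun i _ => hsi i]
    refine (Finset.sum_le_card_nsmul _ _ _ hterm).trans ?_
    rw [nsmul_eq_mul]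
    apply mul_le_mul_of_nonneg_right _ (by positivity)
    have h3 : (Finset.univ.erase j : Finset (Fin n)).card ≤ n := by
      refine (Finset.card_le_univ _).trans ?_
      rw [Fintype.card_fin]
    exact_mod_cast h3
  refine lt_of_le_of_lt hmain ?_
  have h4 : (n : ℝ) * (n * ε) = ((n : ℝ) * n) * δ / (2 * ((n : ℝ) * n + 1)) := by
    simp only [ε]
    ring
  rw [h4, div_lt_iff₀ (by positivity)]
  nlinarith [mul_nonneg (Nat.cast_nonneg (α := ℝ) n) (Nat.cast_nonneg (α := ℝ) n)]

end Pool.Agent.Work.MP_69fea5_lc.W3D
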