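import Pool.Agent.Work.MP_69fea5_lc.W3.StmtsD2
import Pool.Agent.Work.MP_69fea5_lc.W3.ToolsD

set_option autoImplicit false
set_option linter.unusedSectionVars false

namespace Pool.Agent.Work.MP_69fea5_lc.W3D

open MeasureTheory Topology Set Filter
open ProbabilityTheory (Kernel)
open scoped ENNReal NNReal
open Pool.Agent.Work.MP_69fea5_lc.AK (Sys sh sh_zero sh_add sh_cont)

namespace D_XI1

section

variable {X : Type} [TopologicalSpace X] [CompactSpace X] [T2Space X]
  [SecondCountableTopology X] [MeasurableSpace X] [BorelSpace X] [Sys X] [Nonempty X]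
  {K : KT X}

theorem cn_eq (hK : KS K) {F : Type} [Finite F] {L : AddSubgroup (F → ℤ)} (h1 : 1 ∈ L)
    {w : F → X} (hw : w ∈ NF X L) : K F L ∅ w = cn K L :=
  hK.cls F L h1 ∅ _ hw _ (diag_mem_NF L _) (fun i hi => absurd hi (notMem_empty i))

theorem cn_map (hK : KS K) {F : Type} [Finite F] {L : AddSubgroup (F → ℤ)}
    (h1 : 1 ∈ L) {l : F → ℤ} (hl : l ∈ L) : (cn K L).map (shF l) = cn K L := by
  have hd : (fun _ : F => Classical.arbitrary X) ∈ NF X L := diag_mem_NF L _
  have e := hK.equi F L h1 ∅ _ hd l hl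
  rw [cn_eq hK h1 (shF_mem_NF hl hd)] at e
  exact e.symm

theorem cn_prob (hK : KS K) {F : Type} [Finite F] {L : AddSubgroup (F → ℤ)}
    (h1 : 1 ∈ L) : IsProbabilityMeasure (cn K L) :=
  ⟨hK.prob F L h1 ∅ _ (diag_mem_NF L _)⟩

theorem cn_NF (hK : KS K) {F : Type} [Finite F] {L : AddSubgroup (F → ℤ)}
    (h1 : 1 ∈ L) : ∀ᵐ w ∂(cn K L), w ∈ NF X L := by
  have h := hK.car F L h1 ∅ _ (diag_mem_NF L (Classical.arbitrary X))
  rw [ae_iff]
  refine measure_mono_null ?_ h
  intro v hv hv2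
  exact hv hv2.1

theorem cn_nat (hK : KS K) {F F' : Type} [Finite F] [Finite F'] (e : F' → F)
    {L : AddSubgroup (F → ℤ)} {L' : AddSubgroup (F' → ℤ)} (h1 : 1 ∈ L)
    (h2 : ∀ l', l' ∈ L' ↔ ∃ l ∈ L, l' = l ∘ e) :
    (cn K L).map (fun v => v ∘ e) = cn K L' :=
  hK.nat F F' e L L' h1 h2 ∅ (empty_subset _) _ (diag_mem_NF L _)

/-! ### Shapes -/

theorem Lc_one (l : Fin 1 → ℤ) : l ∈ Lc 1 := by
  refine ⟨l 0, 0, fun j => ?_⟩
  have : j = 0 := Subsingleton.elim _ _
  rw [this]
  simp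

theorem shape_eval (n : ℕ) (j : Fin n) (l' : Fin 1 → ℤ) :
    l' ∈ Lc 1 ↔ ∃ l ∈ Lc n, l' = l ∘ (fun _ : Fin 1 => j) := by
  refine ⟨fun _ => ⟨fun _ => l' 0, zsmul_one_mem (one_mem_Lc n) _, ?_⟩, fun _ => Lc_one l'⟩
  funext i
  have : i = 0 := Subsingleton.elim _ _
  rw [this]
  rfl

theorem shape_cs (n : ℕ) (l' : Fin n → ℤ) :
    l' ∈ Lc n ↔ ∃ l ∈ Lc (n + 1), l' = l ∘ (fun i : Fin n => i.castSucc) := by
  constructor
  · rintro ⟨b, u, h⟩
    refine ⟨fun j => b + (j : ℕ) * u, ⟨b, u, fun j => rfl⟩, ?_⟩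
    funext i
    simp [h i]
  · rintro ⟨l, ⟨b, u, h⟩, rfl⟩
    refine ⟨b, u, fun i => ?_⟩
    simp [h]

theorem shape_su (n : ℕ) (l' : Fin n → ℤ) :
    l' ∈ Lc n ↔ ∃ l ∈ Lc (n + 1), l' = l ∘ (fun i : Fin n => i.succ) := by
  constructor
  · rintro ⟨b, u, h⟩
    refine ⟨fun j => (b - u) + (j : ℕ) * u, ⟨b - u, u, fun j => rfl⟩, ?_⟩
    funext i
    simp only [h i, Function.comp_apply, Fin.val_succ]
    push_cast
    ring
  · rintro ⟨l, ⟨b, u, h⟩, rfl⟩
    refine ⟨b + u, u, fun i => ?_⟩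
    simp only [h, Function.comp_apply, Fin.val_succ]
    push_cast
    ring

/-! ### The law, given one vertex -/

/-- The law of a progression, given the vertex `j`. -/
noncomputable def Kj (hK : KS K) (n : ℕ) (j : Fin n) (x : X) : ProbabilityMeasure (Fin n → X) :=
  ⟨K (Fin n) (Lc n) {j} fun _ => x,
    ⟨hK.prob (Fin n) (Lc n) (one_mem_Lc n) {j} _ (diag_mem_NF _ _)⟩⟩

theorem Kj_coe (hK : KS K) (n : ℕ) (j : Fin n) (x : X) :
    (Kj hK n j x : Measure (Fin n → X)) = K (Fin n) (Lc n) {j} fun _ => x := rfl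

theorem Kj_eq (hK : KS K) (n : ℕ) (j : Fin n) {w : Fin n → X} (hw : w ∈ NF X (Lc n)) :
    (Kj hK n j (w j) : Measure (Fin n → X)) = K (Fin n) (Lc n) {j} w := by
  rw [Kj_coe]
  refine hK.cls _ _ (one_mem_Lc n) _ _ (diag_mem_NF _ _) _ hw ?_
  intro i hi
  rw [mem_singleton_iff.mp hi]

theorem Kj_cont (hK : KS K) (n : ℕ) (j : Fin n) : Continuous (Kj hK n j) := by
  rw [continuous_iff_continuousAt]
  intro x
  refine ProbabilityMeasure.tendsto_iff_forall_integral_tendsto.mpr ?_
  intro f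
  have h := hK.cont (Fin n) (Lc n) (one_mem_Lc n) {j} f.toContinuousMap
  have hc : Continuous (fun x : X => (fun _ : Fin n => x)) :=
    continuous_pi fun _ => continuous_id
  have h2 : ContinuousOn (fun x : X => ∫ v, f v ∂K (Fin n) (Lc n) {j} fun _ => x) univ :=
    h.comp hc.continuousOn fun x _ => diag_mem_NF _ _
  exact (continuousOn_univ.mp h2).tendsto x

theorem measurable_Kj (hK : KS K) (n : ℕ) (j : Fin n) :
    Measurable (fun x : X => (Kj hK n j x : Measure (Fin n → X))) :=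
  (K (Fin n) (Lc n) {j}).measurable.comp (measurable_pi_lambda _ fun _ => measurable_id)

theorem eval_map (hK : KS K) (n : ℕ) (j : Fin n) :
    (cn K (Lc n)).map (fun w => w j) = cX K := by
  have h := cn_nat hK (fun _ : Fin 1 => j) (one_mem_Lc n) (shape_eval n j)
  unfold cX
  rw [← h, Measure.map_map]
  · rfl
  · exact measurable_pi_apply _
  · exact measurable_pi_lambda _ fun _ => measurable_pi_apply _

theorem bind_Kj (hK : KS K) (n : ℕ) (j : Fin n) :
    (cX K).bind (fun x => (Kj hK n j x : Measure (Fin n → X))) = cn K (Lc n) := by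
  have hm : (cn K (Lc n)).bind (K (Fin n) (Lc n) {j}) = cn K (Lc n) :=
    hK.mul (Fin n) (Lc n) (one_mem_Lc n) ∅ {j} (empty_subset _) _ (diag_mem_NF _ _)
  have hc : (cn K (Lc n)).bind (fun w => (Kj hK n j (w j) : Measure (Fin n → X))) =
      (cn K (Lc n)).bind (K (Fin n) (Lc n) {j}) := by
    refine Measure.bind_congr_right ?_
    filter_upwards [cn_NF hK (one_mem_Lc n)] with w hw
    exact Kj_eq hK n j hw
  rw [← hm, ← hc, ← eval_map hK n j, hc, hm]
  rw [Measure.bind, Measure.map_map (measurable_Kj hK n j) (measurable_pi_apply j)]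
  exact hc.trans hm

end

end D_XI1

open D_XI1 in
theorem XI1_pf (hDOM1 : S_DOM1) : S_XI1 := by
  intro X _ _ _ _ _ K hK
  have : SecondCountableTopology X := secondCountable_of_CS X
  have hLc := one_mem_Lc
  have hp1 : IsProbabilityMeasure (cX K) := by
    have := cn_prob hK (one_mem_Lc 1)
    unfold cX
    exact Measure.isProbabilityMeasure_map (measurable_pi_apply _).aemeasurable
  refine ⟨Kj hK, fun n j x => rfl, hp1, ?_, ?_, ?_, ?_, ?_, ?_, ?_, ?_, ?_⟩
  · intro m
    have e := cn_map hK (one_mem_Lc 1) (zsmul_one_mem (one_mem_Lc 1) m)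
    unfold cX
    conv_rhs => rw [← e]
    have hm0 : Measurable (fun v : Fin 1 → X => v 0) := measurable_pi_apply 0
    rw [Measure.map_map (sh_cont m).measurable hm0,
      Measure.map_map hm0 (continuous_shF _).measurable]
    rfl
  · intro U hU hne
    obtain ⟨y, hy⟩ := hne
    unfold cX
    rw [Measure.map_apply (measurable_pi_apply _) hU.measurableSet]
    exact hK.full (Fin 1) (Lc 1) (one_mem_Lc 1) ∅ _ (diag_mem_NF _ _) (fun _ => y)
      (diag_mem_NF _ _) (fun i hi => absurd hi (notMem_empty i)) _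
      (hU.preimage (continuous_apply _)) hy
  · intro n
    exact
      { prob := cn_prob hK (one_mem_Lc n)
        carP := by
          rw [PG_eq]
          exact cn_NF hK (one_mem_Lc n)
        cont := fun j => Kj_cont hK n j
        equi := by
          intro j m x
          have e := hK.equi (Fin n) (Lc n) (one_mem_Lc n) {j} _ (diag_mem_NF _ x) _
            (zsmul_one_mem (one_mem_Lc n) m)
          exact e
        car := by
          intro j x
          have h := hK.car (Fin n) (Lc n) (one_mem_Lc n) {j} _ (diag_mem_NF _ x)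
          rw [ae_iff]
          refine measure_mono_null ?_ h
          intro v hv hv2
          refine hv ⟨hv2.2 j rfl, ?_⟩
          rw [PG_eq]
          exact hv2.1
        dis := fun j => bind_Kj hK n j
        dom := by
          intro j i hij x
          have h := hDOM1 X K hK n i j hij _ (diag_mem_NF _ x)
          rw [Nat.cast_smul_eq_nsmul]
          exact h }
  · intro n j z hz U hU hzU
    rw [PG_eq] at hz
    rw [Kj_eq hK n j hz]
    exact hK.full (Fin n) (Lc n) (one_mem_Lc n) {j} z hz z hz (fun _ _ => rfl) U hU hzU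
  · intro n j m x
    have hl : (fun i : Fin n => (((i : ℕ) : ℤ) - (j : ℕ)) * m) ∈ Lc n :=
      ⟨-((j : ℕ) : ℤ) * m, m, fun i => by ring⟩
    have hd : (fun _ : Fin n => x) ∈ NF X (Lc n) := diag_mem_NF _ x
    have e := hK.equi (Fin n) (Lc n) (one_mem_Lc n) {j} _ hd _ hl
    have e2 := hK.cls (Fin n) (Lc n) (one_mem_Lc n) {j} _ (shF_mem_NF hl hd) _ hd (by
      intro i hi
      rw [mem_singleton_iff.mp hi]
      simp only [shF, sub_self, zero_mul, sh_zero])
    rw [e2] at e
    exact e.symm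
  · intro n j x
    have h := hK.nat (Fin (n + 1)) (Fin n) (fun i => i.castSucc) (Lc (n + 1)) (Lc n)
      (one_mem_Lc (n + 1)) (shape_cs n) {j.castSucc} (by
        rintro _ rfl
        exact ⟨j, rfl⟩) _ (diag_mem_NF _ x)
    have e : ((fun i : Fin n => i.castSucc) ⁻¹' {j.castSucc} : Set (Fin n)) = {j} := by
      ext i
      simp
    rw [e] at h
    exact h
  · intro n j x
    have h := hK.nat (Fin (n + 1)) (Fin n) (fun i => i.succ) (Lc (n + 1)) (Lc n)
      (one_mem_Lc (n + 1)) (shape_su n) {j.succ} (by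
        rintro _ rfl
        exact ⟨j, rfl⟩) _ (diag_mem_NF _ x)
    have e : ((fun i : Fin n => i.succ) ⁻¹' {j.succ} : Set (Fin n)) = {j} := by
      ext i
      simp
    rw [e] at h
    exact h
  · intro n
    exact cn_nat hK (fun i : Fin n => i.castSucc) (one_mem_Lc (n + 1)) (shape_cs n)
  · intro n
    exact cn_nat hK (fun i : Fin n => i.succ) (one_mem_Lc (n + 1)) (shape_su n)

end Pool.Agent.Work.MP_69fea5_lc.W3D
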