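import Pool.Agent.Work.MP_69fea5_lc.AK.Defs

/-!
# Block [69fea5 N] (sums of at most `n` terms), part D: definitions

Distal configurations, canonical kernels, cubes of chains.
Paper proof: note 3799 on MP_69fea5_lc, sections 0 and 3, in the form of the docstrings of
`W3/StmtsD.lean`.
-/

set_option autoImplicit false

namespace Pool.Agent.Work.MP_69fea5_lc.W3D

open MeasureTheory Topology Set Filter
open ProbabilityTheory (Kernel)
open scoped ENNReal NNReal
open Pool.Agent.Work.MP_69fea5_lc.AK (Sys sh sh_zero sh_add sh_cont)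

/-! ### Actions of a group, one isometric step -/

/-- `a` is an action of the group `G` on `W` by homeomorphisms -/
structure Act {G W : Type} [AddGroup G] [TopologicalSpace W] (a : G → W → W) : Prop where
  zero : ∀ x, a 0 x = x
  add : ∀ g h x, a (g + h) x = a g (a h x)
  cont : ∀ g, Continuous (a g)

/-- every orbit is dense -/
def MinA {G W : Type} [TopologicalSpace W] (a : G → W → W) : Prop :=
  ∀ x y, y ∈ closure (range fun g => a g x)

/-- One isometric step: `E` is a closed invariant equivalence relation, `ρ` a continuous invariant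
pseudometric on the classes of `E`, and `E' = E ∩ {ρ = 0}`. -/
structure Iso1 {G W : Type} [TopologicalSpace W] (a : G → W → W) (E E' : W → W → Prop)
    (ρ : W → W → ℝ) : Prop where
  eqv : Equivalence E
  closed : IsClosed {p : W × W | E p.1 p.2}
  inv : ∀ g x y, E x y → E (a g x) (a g y)
  cont : ContinuousOn (fun p : W × W => ρ p.1 p.2) {p | E p.1 p.2}
  rinv : ∀ g x y, E x y → ρ (a g x) (a g y) = ρ x y
  nonneg : ∀ x y, E x y → 0 ≤ ρ x y
  self : ∀ x, ρ x x = 0
  symm : ∀ x y, E x y → ρ x y = ρ y x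
  tri : ∀ x y z, E x y → E y z → ρ x z ≤ ρ x y + ρ y z
  zero : ∀ x y, E' x y ↔ E x y ∧ ρ x y = 0

section ker

variable {G W : Type} [TopologicalSpace W] [MeasurableSpace W] [BorelSpace W]

/-- `m` moved by `a g` -/
noncomputable def mv [AddGroup G] {a : G → W → W} (h : Act a) (g : G) (m : ProbabilityMeasure W) :
    ProbabilityMeasure W := m.map (h.cont g).measurable.aemeasurable

/-- `b` is the mid point of `m` and `m'` -/
def Mid (m m' b : ProbabilityMeasure W) : Prop :=
  ∀ f : C(W, ℝ), 2 * ∫ x, f x ∂(b : Measure W) =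
    ∫ x, f x ∂(m : Measure W) + ∫ x, f x ∂(m' : Measure W)

/-- continuous equivariant families of probability measures on the classes of `E` -/
structure Ker (a : G → W → W) (E : W → W → Prop) (κ : W → ProbabilityMeasure W) : Prop where
  cont : Continuous κ
  cls : ∀ x y, E x y → κ x = κ y
  car : ∀ x, (κ x : Measure W) {y | ¬ E x y} = 0
  equi : ∀ g x, (κ (a g x) : Measure W) = (κ x : Measure W).map (a g)

/-- the members of `κ` have full support on the classes of `E` -/
def FullK (E : W → W → Prop) (κ : W → ProbabilityMeasure W) : Prop :=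
  ∀ x y, E x y → ∀ U : Set W, IsOpen U → y ∈ U → 0 < (κ x : Measure W) U

/-- `κ κ' = κ` -/
def Sat (κ κ' : W → ProbabilityMeasure W) : Prop :=
  ∀ (x : W) (f : C(W, ℝ)), ∫ y, (∫ z, f z ∂(κ' y : Measure W)) ∂(κ x : Measure W) =
    ∫ z, f z ∂(κ x : Measure W)

end ker

/-! ### Towers of isometric steps on one space -/

/-- a tower of height `h`: `E 0` is everything, `E h` is equality -/
structure Tow {X : Type} [TopologicalSpace X] [Sys X] (h : ℕ) (E : ℕ → X → X → Prop)
    (ρ : ℕ → X → X → ℝ) : Prop where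
  bot : ∀ x y, E 0 x y
  top : ∀ x y, E h x y → x = y
  step : ∀ l, l < h → Iso1 (sh : ℤ → X → X) (E l) (E (l + 1)) (ρ l)

/-! ### Configurations -/

section conf

variable {F X : Type} [TopologicalSpace X] [Sys X]

/-- the action of `F → ℤ` on `F → X` -/
def shF (l : F → ℤ) (w : F → X) : F → X := fun i => sh (l i) (w i)

/-- the space of the configurations of shape `L`: closure of all `(T^(l i) x)_i`, `l ∈ L` -/
def NF (X : Type) [TopologicalSpace X] [Sys X] (L : AddSubgroup (F → ℤ)) : Set (F → X) :=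
  closure {w | ∃ l ∈ L, ∃ x : X, w = shF l fun _ => x}

theorem shF_zero (w : F → X) : shF 0 w = w := funext fun i => sh_zero (w i)

theorem shF_add (l k : F → ℤ) (w : F → X) : shF (l + k) w = shF l (shF k w) :=
  funext fun i => sh_add (l i) (k i) (w i)

theorem continuous_shF (l : F → ℤ) : Continuous (shF l : (F → X) → F → X) :=
  continuous_pi fun i => (sh_cont (l i)).comp (continuous_apply i)

theorem isClosed_NF (L : AddSubgroup (F → ℤ)) : IsClosed (NF X L) := isClosed_closure

theorem shF_mem_NF {L : AddSubgroup (F → ℤ)} {l : F → ℤ} (hl : l ∈ L) {w : F → X}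
    (hw : w ∈ NF X L) : shF l w ∈ NF X L :=
  map_mem_closure (continuous_shF l) hw fun _ ⟨k, hk, x, hx⟩ =>
    ⟨l + k, L.add_mem hl hk, x, by rw [hx, shF_add]⟩

/-- the space of configurations as a type -/
abbrev NN (X : Type) [TopologicalSpace X] [Sys X] (L : AddSubgroup (F → ℤ)) : Type :=
  {w : F → X // w ∈ NF X L}

instance [CompactSpace X] (L : AddSubgroup (F → ℤ)) : CompactSpace (NN X L) :=
  isCompact_iff_compactSpace.mp (isClosed_NF L).isCompact

/-- the action of `L` on the space of configurations -/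
def aN (L : AddSubgroup (F → ℤ)) (l : L) (w : NN X L) : NN X L :=
  ⟨shF l.1 w.1, shF_mem_NF l.2 w.2⟩

theorem act_aN (L : AddSubgroup (F → ℤ)) : Act (aN (X := X) L) where
  zero w := Subtype.ext (shF_zero w.1)
  add g h w := Subtype.ext (shF_add g.1 h.1 w.1)
  cont g := ((continuous_shF g.1).comp continuous_subtype_val).subtype_mk _

/-- coordinatewise relations on the space of configurations -/
def EE (E : ℕ → X → X → Prop) {L : AddSubgroup (F → ℤ)} (m : F → ℕ) (w w' : NN X L) : Prop :=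
  ∀ i, E (m i) (w.1 i) (w'.1 i)

end conf

/-! ### Systems of canonical kernels -/

/-- `K F L A w`: the canonical law of a configuration of shape `L`, given that it agrees with `w`
on `A` -/
abbrev KT (X : Type) [MeasurableSpace X] : Type 1 :=
  ∀ (F : Type) [Finite F], AddSubgroup (F → ℤ) → Set F → Kernel (F → X) (F → X)

section ks

variable {X : Type} [TopologicalSpace X] [MeasurableSpace X] [Sys X]

/-- Systems of canonical kernels. -/
structure KS (K : KT X) : Prop where
  /-- the configuration spaces are minimal -/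
  min : ∀ (F : Type) [Finite F] (L : AddSubgroup (F → ℤ)), 1 ∈ L →
    ∀ w ∈ NF X L, ∀ v ∈ NF X L, v ∈ closure {u | ∃ l ∈ L, u = shF l w}
  prob : ∀ (F : Type) [Finite F] (L : AddSubgroup (F → ℤ)), 1 ∈ L → ∀ A : Set F,
    ∀ w ∈ NF X L, K F L A w univ = 1
  /-- everywhere at most one -/
  le_one : ∀ (F : Type) [Finite F] (L : AddSubgroup (F → ℤ)) (A : Set F) (w : F → X),
    K F L A w univ ≤ 1
  /-- carried by the configurations which agree with `w` on `A` -/
  car : ∀ (F : Type) [Finite F] (L : AddSubgroup (F → ℤ)), 1 ∈ L → ∀ A : Set F,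
    ∀ w ∈ NF X L, K F L A w {v | ¬ (v ∈ NF X L ∧ ∀ i ∈ A, v i = w i)} = 0
  cont : ∀ (F : Type) [Finite F] (L : AddSubgroup (F → ℤ)), 1 ∈ L → ∀ A : Set F,
    ∀ g : C(F → X, ℝ), ContinuousOn (fun w => ∫ v, g v ∂K F L A w) (NF X L)
  cls : ∀ (F : Type) [Finite F] (L : AddSubgroup (F → ℤ)), 1 ∈ L → ∀ A : Set F,
    ∀ w ∈ NF X L, ∀ w' ∈ NF X L, (∀ i ∈ A, w i = w' i) → K F L A w = K F L A w'
  equi : ∀ (F : Type) [Finite F] (L : AddSubgroup (F → ℤ)), 1 ∈ L → ∀ A : Set F,
    ∀ w ∈ NF X L, ∀ l ∈ L, K F L A (shF l w) = (K F L A w).map (shF l)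
  full : ∀ (F : Type) [Finite F] (L : AddSubgroup (F → ℤ)), 1 ∈ L → ∀ A : Set F,
    ∀ w ∈ NF X L, ∀ v ∈ NF X L, (∀ i ∈ A, v i = w i) → ∀ U : Set (F → X), IsOpen U → v ∈ U →
      0 < K F L A w U
  /-- `K_A K_B = K_A` for `A ⊆ B` -/
  mul : ∀ (F : Type) [Finite F] (L : AddSubgroup (F → ℤ)), 1 ∈ L → ∀ A B : Set F, A ⊆ B →
    ∀ w ∈ NF X L, (K F L A w).bind (K F L B) = K F L A w
  /-- naturality -/
  nat : ∀ (F F' : Type) [Finite F] [Finite F'] (e : F' → F) (L : AddSubgroup (F → ℤ))
    (L' : AddSubgroup (F' → ℤ)), 1 ∈ L → (∀ l', l' ∈ L' ↔ ∃ l ∈ L, l' = l ∘ e) →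
    ∀ A : Set F, A ⊆ range e → ∀ w ∈ NF X L,
      (K F L A w).map (fun v => v ∘ e) = K F' L' (e ⁻¹' A) (w ∘ e)

/-- the canonical measure on the configurations of shape `L` -/
noncomputable def cn [Nonempty X] (K : KT X) {F : Type} [Finite F] (L : AddSubgroup (F → ℤ)) :
    Measure (F → X) := K F L ∅ fun _ => Classical.arbitrary X

end ks

/-! ### Chains, doubling, cubes -/

/-- chains of length `n`: `b + j u` -/
def Lc (n : ℕ) : AddSubgroup (Fin n → ℤ) where
  carrier := {l | ∃ b u : ℤ, ∀ j : Fin n, l j = b + (j : ℕ) * u}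
  zero_mem' := ⟨0, 0, fun j => by simp⟩
  add_mem' := by
    rintro l l' ⟨b, u, h⟩ ⟨b', u', h'⟩
    exact ⟨b + b', u + u', fun j => by simp only [Pi.add_apply, h j, h' j]; ring⟩
  neg_mem' := by
    rintro l ⟨b, u, h⟩
    exact ⟨-b, -u, fun j => by simp only [Pi.neg_apply, h j]; ring⟩

/-- the canonical measure on `X` itself -/
noncomputable def cX {X : Type} [MeasurableSpace X] [Nonempty X] (K : KT X) :
    Measure X := (cn K (Lc 1)).map fun v => v 0

/-- doubling in the direction `γ`: all `(k, k + m γ)`, `k ∈ L` -/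
def dbl {F : Type} (L : AddSubgroup (F → ℤ)) (γ : F → ℤ) : AddSubgroup (F ⊕ F → ℤ) where
  carrier := {l | ∃ k ∈ L, ∃ m : ℤ, (∀ i, l (Sum.inl i) = k i) ∧
    ∀ i, l (Sum.inr i) = k i + m * γ i}
  zero_mem' := ⟨0, L.zero_mem, 0, fun i => by simp, fun i => by simp⟩
  add_mem' := by
    rintro l l' ⟨k, hk, m, h1, h2⟩ ⟨k', hk', m', h1', h2'⟩
    exact ⟨k + k', L.add_mem hk hk', m + m', fun i => by simp [h1 i, h1' i],
      fun i => by simp only [Pi.add_apply, h2 i, h2' i]; ring⟩
  neg_mem' := by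
    rintro l ⟨k, hk, m, h1, h2⟩
    exact ⟨-k, L.neg_mem hk, -m, fun i => by simp [h1 i],
      fun i => by simp only [Pi.neg_apply, h2 i]; ring⟩

/-- tripling in the direction `γ`: all `(k, k + m γ, k + m' γ)`, `k ∈ L` -/
def tpl {F : Type} (L : AddSubgroup (F → ℤ)) (γ : F → ℤ) : AddSubgroup (F ⊕ (F ⊕ F) → ℤ) where
  carrier := {l | ∃ k ∈ L, ∃ m m' : ℤ, (∀ i, l (Sum.inl i) = k i) ∧
    (∀ i, l (Sum.inr (Sum.inl i)) = k i + m * γ i) ∧
    ∀ i, l (Sum.inr (Sum.inr i)) = k i + m' * γ i}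
  zero_mem' := ⟨0, L.zero_mem, 0, 0, fun i => by simp, fun i => by simp, fun i => by simp⟩
  add_mem' := by
    rintro l l' ⟨k, hk, m, n, h1, h2, h3⟩ ⟨k', hk', m', n', h1', h2', h3'⟩
    exact ⟨k + k', L.add_mem hk hk', m + m', n + n', fun i => by simp [h1 i, h1' i],
      fun i => by simp only [Pi.add_apply, h2 i, h2' i]; ring,
      fun i => by simp only [Pi.add_apply, h3 i, h3' i]; ring⟩
  neg_mem' := by
    rintro l ⟨k, hk, m, n, h1, h2, h3⟩
    exact ⟨-k, L.neg_mem hk, -m, -n, fun i => by simp [h1 i],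
      fun i => by simp only [Pi.neg_apply, h2 i]; ring,
      fun i => by simp only [Pi.neg_apply, h3 i]; ring⟩

/-- the law of the second copy in `dbl L γ`, given the first one -/
noncomputable def Pk {X : Type} [MeasurableSpace X] (K : KT X) {F : Type} [Finite F]
    (L : AddSubgroup (F → ℤ)) (γ : F → ℤ) (q : F → X) : Measure (F → X) :=
  (K (F ⊕ F) (dbl L γ) (range Sum.inl) (Sum.elim q q)).map fun v => v ∘ Sum.inr

/-- the vertices of the cubes of chains in the directions `0, …, i - 1` -/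
def Ix (n : ℕ) : ℕ → Type
  | 0 => Fin n
  | i + 1 => Ix n i ⊕ Ix n i

instance finiteIx (n : ℕ) : ∀ i, Finite (Ix n i)
  | 0 => inferInstanceAs (Finite (Fin n))
  | i + 1 => by
    have := finiteIx n i
    exact inferInstanceAs (Finite (Ix n i ⊕ Ix n i))

/-- the place of a vertex in its chain -/
def pos (n : ℕ) : (i : ℕ) → Ix n i → Fin n
  | 0 => id
  | i + 1 => Sum.elim (pos n i) (pos n i)

/-- the shape of the cubes of chains in the directions `0, …, i - 1`; the direction `i` moves a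
chain by `-i` and its step by `1` -/
def Lq (n : ℕ) : (i : ℕ) → AddSubgroup (Ix n i → ℤ)
  | 0 => Lc n
  | i + 1 => dbl (Lq n i) fun a => ((pos n i a : ℕ) : ℤ) - i

/-- the chains of a cube -/
def Wx : ℕ → Type
  | 0 => Unit
  | i + 1 => Wx i ⊕ Wx i

instance fintypeWx : ∀ i, Fintype (Wx i)
  | 0 => inferInstanceAs (Fintype Unit)
  | i + 1 => by
    haveI := fintypeWx i
    exact inferInstanceAs (Fintype (Wx i ⊕ Wx i))

instance decEqWx : ∀ i, DecidableEq (Wx i)
  | 0 => inferInstanceAs (DecidableEq Unit)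
  | i + 1 => by
    haveI := decEqWx i
    exact inferInstanceAs (DecidableEq (Wx i ⊕ Wx i))

/-- the first chain -/
def w0 : (i : ℕ) → Wx i
  | 0 => ()
  | i + 1 => Sum.inl (w0 i)

/-- the directions in which a chain is displaced -/
def Sx : (i : ℕ) → Wx i → Finset ℕ
  | 0 => fun _ => ∅
  | i + 1 => Sum.elim (Sx i) fun w => insert i (Sx i w)

/-- the vertices of a chain -/
def ch (n : ℕ) : (i : ℕ) → Wx i → Fin n → Ix n i
  | 0 => fun _ j => j
  | i + 1 => Sum.elim (fun w j => Sum.inl (ch n i w j)) fun w j => Sum.inr (ch n i w j)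

/-- the shape of the pair (first chain, chain displaced in the directions of `S`) -/
def Lp (n : ℕ) (S : Finset ℕ) : AddSubgroup (Fin n ⊕ Fin n → ℤ) where
  carrier := {l | ∃ (b u : ℤ) (τ : ℕ → ℤ), (∀ j : Fin n, l (Sum.inl j) = b + (j : ℕ) * u) ∧
    ∀ j : Fin n, l (Sum.inr j) = b + (j : ℕ) * u + ∑ i ∈ S, (((j : ℕ) : ℤ) - i) * τ i}
  zero_mem' := ⟨0, 0, 0, fun j => by simp, fun j => by simp⟩
  add_mem' := by
    rintro l l' ⟨b, u, τ, h1, h2⟩ ⟨b', u', τ', h1', h2'⟩
    refine ⟨b + b', u + u', τ + τ', fun j => by simp only [Pi.add_apply, h1 j, h1' j]; ring,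
      fun j => ?_⟩
    simp only [Pi.add_apply, h2 j, h2' j, mul_add, Finset.sum_add_distrib]
    ring
  neg_mem' := by
    rintro l ⟨b, u, τ, h1, h2⟩
    refine ⟨-b, -u, -τ, fun j => by simp only [Pi.neg_apply, h1 j]; ring, fun j => ?_⟩
    simp only [Pi.neg_apply, h2 j, mul_neg, Finset.sum_neg_distrib]
    ring

section reg

variable {X : Type} [TopologicalSpace X] [MeasurableSpace X] [Sys X] [Nonempty X]

/-- continuous shift invariant functions on the space of chains -/
def CI (X : Type) [TopologicalSpace X] [Sys X] (n : ℕ) (g : C(Fin n → X, ℝ)) : Prop :=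
  ∀ C ∈ NF X (Lc n), g (shF 1 C) = g C

/-- regular functions on the space of chains of length `n` -/
structure Reg (K : KT X) (n : ℕ) (f : (Fin n → X) → ℝ) : Prop where
  meas : Measurable f
  bdd : ∀ C, |f C| ≤ 1
  inv : ∀ᵐ C ∂(cn K (Lc n)), f (shF 1 C) = f C
  reg : ∀ (j : Fin n) (ε : ℝ), 0 < ε → ∃ g : C(Fin n → X, ℝ),
    ∀ᵐ C ∂(cn K (Lc n)), ∫ D, |f D - g D| ∂(K (Fin n) (Lc n) {j} C) ≤ ε

/-- a family of chains `c w` in a configuration such that the law of each of them, given the chain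
`c o`, depends on one vertex only or is dominated by the canonical measure -/
structure ChS (K : KT X) (n : ℕ) {F : Type} [Finite F] (L : AddSubgroup (F → ℤ)) {W : Type}
    (c : W → Fin n → F) (o : W) : Prop where
  one : 1 ∈ L
  pull : ∀ w l', l' ∈ Lc n ↔ ∃ l ∈ L, l' = l ∘ c w
  law : ∀ w, w ≠ o →
    (∃ j : Fin n, ∀ C ∈ NF X L, (K F L (range (c o)) C).map (fun q => q ∘ c w) =
      K (Fin n) (Lc n) {j} (C ∘ c w)) ∨
    ∃ N : ℕ, ∀ C ∈ NF X L, (K F L (range (c o)) C).map (fun q => q ∘ c w) ≤ N • cn K (Lc n)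

end reg

end Pool.Agent.Work.MP_69fea5_lc.W3D
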