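import Pool.Agent.Work.MP_69fea5_lc.N3.DefsB

/-!
# Block [69fea5 F] (sums of at most three terms, any number of colours): definitions of part E
(the final argument, self-contained)

Paper proof: notes 3767 (F2), (F3), 3781, 3789 on MP_69fea5_lc, in the form of the docstrings of
`W3/StmtsE.lean`.
-/

set_option autoImplicit false

namespace Pool.Agent.Work.MP_69fea5_lc.W3

open MeasureTheory Topology Set Filter ProbabilityTheory
open scoped NNReal ENNReal
open Pool.Agent.Work.MP_69fea5_lc.AK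
open Pool.Agent.Work.MP_69fea5_lc.N3 (W2 bx sup2 St nxt Bl3 CaseII3 GRD)

variable {k : ℕ}

/-! ### Systems over a base -/

/-- the system over the orbit closure of `x` of the family of measures `μ`: the closure of all
`(T^n z, T^n x)`, `z` in the support of `μ x` -/
def MS {X : Type} [TopologicalSpace X] [Sys X] (μ : X → PM k) (x : X) : Set (Om k × X) :=
  closure {p | ∃ n : ℤ, ∃ z ∈ supp (μ x), p = (sh n z, sh n x)}

/-- continuous invariant pseudometrics on the fibres of `M` over the base `X` -/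
structure CIP {O X : Type} [TopologicalSpace O] [TopologicalSpace X] [Sys O] [Sys X]
    (M : Set (O × X)) (ρ : O → O → X → ℝ) : Prop where
  cont : ContinuousOn (fun q : O × O × X => ρ q.1 q.2.1 q.2.2)
    {q | (q.1, q.2.2) ∈ M ∧ (q.2.1, q.2.2) ∈ M}
  inv : ∀ (n : ℤ) (z z' : O) (x : X), (z, x) ∈ M → (z', x) ∈ M →
    ρ (sh n z) (sh n z') (sh n x) = ρ z z' x
  self : ∀ (z : O) (x : X), (z, x) ∈ M → ρ z z x = 0
  nonneg : ∀ (z z' : O) (x : X), (z, x) ∈ M → (z', x) ∈ M → 0 ≤ ρ z z' x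
  symm : ∀ (z z' : O) (x : X), (z, x) ∈ M → (z', x) ∈ M → ρ z z' x = ρ z' z x
  tri : ∀ (z z' z'' : O) (x : X), (z, x) ∈ M → (z', x) ∈ M → (z'', x) ∈ M →
    ρ z z'' x ≤ ρ z z' x + ρ z' z'' x

/-! ### Weighted barycentres -/

/-- the product of the measures of the words of the list -/
noncomputable def wt (F : List (Wd k)) (m : PM k) : ℝ≥0∞ :=
  (F.map fun w => (m : Measure (Om k)) (cyl w 0)).prod

/-- the weighted barycentre `∫ wt F m • m dκ(m)`; for `F = []` the barycentre of `κ` -/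
noncomputable def sd (κ : Measure (PM k)) (F : List (Wd k)) : Measure (Om k) :=
  (κ.withDensity (wt F)).bind fun m => (m : Measure (Om k))

/-! ### The hypotheses of the final argument -/

/-- the measure of the sections of `N` at the first coordinate, symmetric difference -/
noncomputable def sdf (ν : Measure (Om k × Om k)) (A B : Set (Om k × Om k)) : ℝ :=
  ν.real (A \ B) + ν.real (B \ A)

/-- The final argument. `X` is the chain space, `x` its exact point (`b_0, b_1, b_2`), `x1` the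
point `(b_1, b_2, b_3)`; `μ0, μ1, μ2` the relatively invariant measures of the three coordinates;
`κ1`, `κ2` decompositions of `μ1 x`, `μ2 x`; `C` the palette. -/
structure EH {X : Type} [TopologicalSpace X] [Sys X] (c : Om k) (x x1 : X)
    (μ0 μ1 μ2 : X → PM k) (C : Finset (Fin k)) (κ1 κ2 : Measure (PM k)) : Prop where
  c0 : Continuous μ0
  c1 : Continuous μ1
  c2 : Continuous μ2
  e0 : ∀ (n : ℤ) (y : X), μ0 (sh n y) = sh n (μ0 y)
  e1 : ∀ (n : ℤ) (y : X), μ1 (sh n y) = sh n (μ1 y)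
  e2 : ∀ (n : ℤ) (y : X), μ2 (sh n y) = sh n (μ2 y)
  minX : MinSet (orb x)
  mem1 : x1 ∈ orb x
  s0 : μ0 x1 = μ1 x
  s1 : μ1 x1 = μ2 x
  m0 : MinSet (MS μ0 x)
  m1 : MinSet (MS μ1 x)
  m2 : MinSet (MS μ2 x)
  ex : MS μ0 x ⊆ omg (c, x)
  /-- the 0-1 law for pairs -/
  zo : ∀ R : Set ((Om k × Om k) × X), IsClosed R → AK.Inv R → ∀ y ∈ orb x,
    ((μ0 y : Measure (Om k)).prod (μ1 y : Measure (Om k))) {p | (p, y) ∈ R} = 0 ∨
      ((μ0 y : Measure (Om k)).prod (μ1 y : Measure (Om k))) {p | (p, y) ∈ R} = 1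
  p1 : IsProbabilityMeasure κ1
  p2 : IsProbabilityMeasure κ2
  b1 : sd κ1 [] = (μ1 x : Measure (Om k))
  b2 : sd κ2 [] = (μ2 x : Measure (Om k))
  /-- the members of `κ1` live on classes -/
  d1 : ∀ᵐ m ∂κ1, ∀ z ∈ supp m, ∀ z' ∈ supp m, (∀ ρ, CIP (MS μ1 x) ρ → ρ z z' x = 0) ∧
    ∀ ρ, CIP (MS μ0 x) ρ → ρ z z' x1 = 0
  d2 : ∀ᵐ m ∂κ2, ∀ z ∈ supp m, ∀ z' ∈ supp m, (∀ ρ, CIP (MS μ2 x) ρ → ρ z z' x = 0) ∧
    ∀ ρ, CIP (MS μ1 x) ρ → ρ z z' x1 = 0
  /-- many members charge all colours of `C` -/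
  q1 : 0 < ∫⁻ m, ∏ r ∈ C, (m : Measure (Om k)) {z | z 0 = r} ∂κ1
  q2 : 0 < ∫⁻ m, ∏ r ∈ C, (m : Measure (Om k)) {z | z 0 = r} ∂κ2
  pal : (μ2 x1 : Measure (Om k)) {z | z 0 ∉ C} = 0

/-! ### The nested construction -/

/-- the limits of `T^n (c, g₁, g₂, x)`, `n → +∞`, `(g₁, g₂)` in the box `P` and in the support of
`ν` -/
def RW {X : Type} [TopologicalSpace X] [Sys X] (c : Om k) (x : X)
    (ν : Measure (Om k × Om k)) (P : W2 k) : Set ((Om k × Om k × Om k) × X) :=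
  {q | ∀ U ∈ 𝓝 q, ∀ L : ℕ, ∃ n : ℕ, L ≤ n ∧ ∃ g ∈ bx P 0 ∩ sup2 ν,
    (((sh (n : ℤ) c, sh (n : ℤ) g.1, sh (n : ℤ) g.2), sh (n : ℤ) x) :
      (Om k × Om k × Om k) × X) ∈ U}

/-- `τ` is the limit of the measures `ν` moved by `T^n`, along the ultrafilter `G` -/
def LimM (G : Ultrafilter ℕ) (ν τ : Measure (Om k × Om k)) : Prop :=
  ∀ C : Set (Om k × Om k), IsClopen C →
    Tendsto (fun n : ℕ => ν.real {g | sh (n : ℤ) g ∈ C}) (G : Filter ℕ) (𝓝 (τ.real C))

/-- A state of the nested construction: the colours of `D` are killed. `N` is a closed invariant set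
of triples over `X`, `F1`, `F2` are lists of words. -/
structure NS {X : Type} [TopologicalSpace X] [Sys X] (c : Om k) (x x1 : X)
    (μ0 μ2 : X → PM k) (C : Finset (Fin k)) (κ1 κ2 : Measure (PM k)) (D : Finset (Fin k))
    (F1 F2 : List (Wd k)) (N : Set ((Om k × Om k × Om k) × X)) : Prop where
  closed : IsClosed N
  inv : AK.Inv N
  mem1 : ∀ r ∈ C, [r] ∈ F1
  mem2 : ∀ r ∈ C, [r] ∈ F2
  pos1 : 0 < sd κ1 F1 univ
  pos2 : 0 < sd κ2 F2 univ
  /-- the limits of the shadow measure are carried by the sections of `N` -/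
  car : ∀ (G : Ultrafilter ℕ) (w : Om k) (y : X), (G : Filter ℕ) ≤ atTop →
    Tendsto (fun n : ℕ => sh (n : ℤ) c) (G : Filter ℕ) (𝓝 w) →
    Tendsto (fun n : ℕ => sh (n : ℤ) x) (G : Filter ℕ) (𝓝 y) → w ∈ supp (μ0 y) →
    ∀ τ : Measure (Om k × Om k), IsFiniteMeasure τ →
      LimM G ((sd κ1 F1).prod (sd κ2 F2)) τ → τ {g | ((w, g), y) ∉ N} = 0
  /-- over the points `v` whose section is charged the colours of `D` do not occur -/
  kil : ∀ᵐ v ∂(μ2 x1 : Measure (Om k)),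
    0 < ((sd κ1 F1).prod (sd κ2 F2)) {p | ((p.1, p.2, v), x1) ∈ N} → v 0 ∉ D

end Pool.Agent.Work.MP_69fea5_lc.W3
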