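import Pool.Agent.Work.MP_69fea5_lc.W3.StmtsT
import Pool.Agent.Work.MP_69fea5_lc.W3.DefsE

/-!
# Block [69fea5 F1]: the 0-1 law for pairs, chains, and the hypotheses of the final argument.
Definitions

Paper proof: notes 3767 (F1), 3781 (R), 3789 on MP_69fea5_lc, in the form of the docstrings of
`W3/StmtsF1.lean`.
-/

set_option autoImplicit false

namespace Pool.Agent.Work.MP_69fea5_lc.W3

open MeasureTheory Topology Set Filter TopologicalSpace
open scoped NNReal ENNReal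
open Pool.Agent.Work.MP_69fea5_lc.AK

section pairs

variable {O Y C X' : Type} [TopologicalSpace O] [MeasurableSpace O] [CS O] [Sys O]
  [TopologicalSpace Y] [MeasurableSpace Y] [CS Y] [Sys Y]
  [TopologicalSpace C] [MeasurableSpace C] [CS C] [Sys C]
  [TopologicalSpace X'] [MeasurableSpace X'] [CS X'] [Sys X']

/-- The data of the 0-1 law: a level `A` over `Y` with phases `θ`; `orb v₀` the frames; `E` a minimal
strongly proximal extension of the frames with relatively invariant measures `lm` for the system of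
the points whose phase is the `0`-th phase of the frame. -/
structure PE (A : Set (O × Y)) (ms : Y → ProbabilityMeasure O) (θ : O × Y → C)
    (v₀ : Y × (ℕ → C)) (E : Set X') (q : X' → Y × (ℕ → C)) (lm : X' → ProbabilityMeasure O) :
    Prop where
  lev : Lev A ms
  pha : Pha A θ
  frm : Frm (JJ A θ) v₀
  spx : SPx E q
  base : q '' E = orb v₀
  cont : Continuous lm
  equi : ∀ (n : ℤ) (e : X'), lm (sh n e) = sh n (lm e)
  one : ∀ e ∈ E, lm e {u | (u, q e) ∈ At A θ (orb v₀) 0} = 1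

/-- the joint law of the letter and the frame at `e` -/
noncomputable def jm (q : X' → Y × (ℕ → C)) (lm : X' → ProbabilityMeasure O) (e : X') :
    ProbabilityMeasure (O × (Y × (ℕ → C))) :=
  (lm e).prod (diracProba (q e))

/-- the joint laws over the base `Y` -/
def FE (E : Set X') (q : X' → Y × (ℕ → C)) (lm : X' → ProbabilityMeasure O) :
    Set (Y × ProbabilityMeasure (O × (Y × (ℕ → C)))) :=
  (fun e => ((q e).1, jm q lm e)) '' E

/-- the auxiliary section: a minimal strongly proximal extension `Ya` of `Y` whose points are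
barycentres of joint laws -/
structure AX (A : Set (O × Y)) (E : Set X') (q : X' → Y × (ℕ → C))
    (lm : X' → ProbabilityMeasure O) (Ya : Set (Y × ProbabilityMeasure (O × (Y × (ℕ → C))))) :
    Prop where
  spx : SPx Ya (Prod.fst : Y × ProbabilityMeasure (O × (Y × (ℕ → C))) → Y)
  base : Prod.fst '' Ya = Prod.snd '' A
  fam : Ya ⊆ Fam (FE E q lm)

/-- the closure of the almost periodic pairs over one point of `Y` -/
def BB (E : Set X') (q : X' → Y × (ℕ → C)) : Set (X' × X') :=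
  closure {p | p.1 ∈ E ∧ p.2 ∈ E ∧ (q p.1).1 = (q p.2).1 ∧ MinSet (orb p)}

/-- the points `(b, y)` for which there is a decomposition `κ` of `y` with `κ`-almost all `(a, b)` in
`BB` -/
def GB (E : Set X') (q : X' → Y × (ℕ → C)) (lm : X' → ProbabilityMeasure O)
    (Ya : Set (Y × ProbabilityMeasure (O × (Y × (ℕ → C))))) :
    Set (X' × (Y × ProbabilityMeasure (O × (Y × (ℕ → C))))) :=
  {g | g.1 ∈ E ∧ g.2 ∈ Ya ∧ (q g.1).1 = g.2.1 ∧
    ∃ κ : ProbabilityMeasure X', κ {a | (a, g.1) ∈ BB E q} = 1 ∧ Bar κ (jm q lm) g.2.2}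

/-- the value of the relation `R` (over the frames) at the pair `(a, b)` -/
noncomputable def vl (q : X' → Y × (ℕ → C)) (lm : X' → ProbabilityMeasure O)
    (R : Set ((O × O) × (Y × (ℕ → C)))) (a b : X') : ℝ≥0∞ :=
  ((lm a : Measure O).prod (lm b : Measure O)) {p | (p, q a) ∈ R}

/-- the 0-1 law for the minimal pairs of the class of `(v₀, v₁)` -/
def Z01 (v₀ v₁ : Y × (ℕ → C)) (E : Set X') (q : X' → Y × (ℕ → C))
    (lm : X' → ProbabilityMeasure O) : Prop :=
  ∀ R : Set ((O × O) × (Y × (ℕ → C))), IsClosed R → AK.Inv R → ∀ a ∈ E, ∀ b ∈ E,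
    MinSet (orb (a, b)) → (q a, q b) ∈ orb (v₀, v₁) →
    vl q lm R a b = 0 ∨ vl q lm R a b = 1

/-- the chains of displacement `(v₀, v₁)` -/
def ChS (v₀ v₁ : Y × (ℕ → C)) (E : Set X') (q : X' → Y × (ℕ → C)) : Set (ℕ → X') :=
  {ξ | ∀ a, ξ a ∈ E ∧ (q (ξ a), q (ξ (a + 1))) ∈ orb (v₀, v₁)}

/-- the minimal set of chains -/
structure Chn (v₀ v₁ : Y × (ℕ → C)) (E : Set X') (q : X' → Y × (ℕ → C))
    (Ξ : Set (ℕ → X')) : Prop where
  min : MinSet Ξ
  sub : Ξ ⊆ ChS v₀ v₁ E q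
  step : ∀ ξ ∈ Ξ, (fun a => ξ (a + 1)) ∈ Ξ
  spx : ∀ j : ℕ, SPx Ξ fun ξ => q (ξ j)
  base : ∀ j : ℕ, (fun ξ => q (ξ j)) '' Ξ = orb v₀
  all : ∀ Ξ' : Set (ℕ → X'), IsClosed Ξ' → Ξ'.Nonempty → AK.Inv Ξ' →
    Ξ' ⊆ ChS v₀ v₁ E q → Ξ ⊆ Ξ'

end pairs

section words

variable {X : Type} [TopologicalSpace X] [Sys X] {k : ℕ} {κ : Type}

/-- the relation `RL` as a set of triples -/
def RLs (V : κ → Set X) (L : List (Wd k × Wd k × κ)) : Set ((Om k × Om k) × X) :=
  {p | p.1.2 ∈ RL V L p.1.1 p.2}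

end words

section second

variable {k : ℕ} {Fr X' X₂ C₂ : Type}
  [TopologicalSpace Fr] [MeasurableSpace Fr] [CS Fr] [Sys Fr]
  [TopologicalSpace X'] [MeasurableSpace X'] [CS X'] [Sys X']
  [TopologicalSpace X₂] [MeasurableSpace X₂] [CS X₂] [Sys X₂]
  [TopologicalSpace C₂] [Sys C₂]

/-- the second level `A₂` over `Y₂`, between `E` and the frames; `A₁` is a level over the frames -/
structure L2 (A₁ : Set (Om k × Fr)) (Y₂ : Set X₂) (q₂ : X₂ → Fr) (A₂ : Set (Om k × X₂))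
    (ms₂ : X₂ → PM k) (θ₂ : Om k × X₂ → C₂) (E : Set X') (q : X' → Fr) (p₂ : X' → X₂) :
    Prop where
  bch : BCh A₁ Y₂ q₂ A₂
  lev : Lev A₂ ms₂
  uni : Uni A₂ θ₂
  cont : Continuous p₂
  equi : ∀ (n : ℤ) (e : X'), p₂ (sh n e) = sh n (p₂ e)
  comp : ∀ e, q₂ (p₂ e) = q e
  onto : p₂ '' E = Y₂

/-- `m` lives on one phase of `A₂` over `x` -/
def Dcp (A₂ : Set (Om k × X₂)) (θ₂ : Om k × X₂ → C₂) (x : X₂) (m : PM k) : Prop :=
  ∃ t, ∀ z ∈ supp m, (z, x) ∈ A₂ ∧ θ₂ (z, x) = t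

end second

end Pool.Agent.Work.MP_69fea5_lc.W3
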