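import Pool.Agent.Work.MP_69fea5_lc.AK.Defs

/-!
# Block [69fea5 W3 G]: flows of commutative groups, progressions, towers of isometric extensions

Paper proof: notes 3799 (sections 0, 2), 3828 (S1) on MP_69fea5_lc, and the docstrings of
`W3/StmtsG.lean`.
-/

set_option autoImplicit false

namespace Pool.Agent.Work.MP_69fea5_lc.W3

open Topology Set Filter
open Pool.Agent.Work.MP_69fea5_lc.AK

/-! ### Flows of a commutative group -/

section flow

variable {G X : Type} [AddCommGroup G] [TopologicalSpace X]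

/-- `A` is a continuous action of `G` on `X` -/
structure Flow (A : G → X → X) : Prop where
  zero : ∀ x, A 0 x = x
  add : ∀ g h x, A (g + h) x = A g (A h x)
  cont : ∀ g, Continuous (A g)

/-- invariant sets -/
def InvA (A : G → X → X) (K : Set X) : Prop := ∀ g, ∀ x ∈ K, A g x ∈ K

/-- the orbit closure -/
def orbA (A : G → X → X) (x : X) : Set X := closure (Set.range fun g => A g x)

/-- minimal sets -/
structure MinA (A : G → X → X) (K : Set X) : Prop where
  closed : IsClosed K
  ne : K.Nonempty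
  inv : InvA A K
  min : ∀ L : Set X, IsClosed L → L.Nonempty → InvA A L → L ⊆ K → L = K

/-- classical distality: two different points of `K` are never proximal -/
def DistalOn (A : G → X → X) (K : Set X) : Prop :=
  ∀ (F : Ultrafilter G) (x y z : X), x ∈ K → y ∈ K →
    Tendsto (fun g => A g x) (F : Filter G) (𝓝 z) →
    Tendsto (fun g => A g y) (F : Filter G) (𝓝 z) → x = y

end flow

/-- the shift as an action of `ℤ` -/
def shA (X : Type) [TopologicalSpace X] [Sys X] : ℤ → X → X := fun n x => sh n x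

theorem flow_shA (X : Type) [TopologicalSpace X] [Sys X] : Flow (shA X) where
  zero x := sh_zero x
  add m n x := sh_add m n x
  cont n := sh_cont n

theorem minA_shA {X : Type} [TopologicalSpace X] [Sys X] {K : Set X} (h : MinSet K) :
    MinA (shA X) K := ⟨h.closed, h.ne, h.inv, h.min⟩

theorem minSet_of_minA {X : Type} [TopologicalSpace X] [Sys X] {K : Set X}
    (h : MinA (shA X) K) : MinSet K := ⟨h.closed, h.ne, h.inv, h.min⟩

/-! ### Configurations -/

/-- the coordinate `i` is moved by `T` to the power `L i g` -/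
def cfA {G ι X : Type} [AddCommGroup G] [TopologicalSpace X] [Sys X] (L : ι → G →+ ℤ) :
    G → (ι → X) → (ι → X) := fun g x i => sh (L i g) (x i)

/-- the closure of the configurations `(T^(L i g) z)_i` -/
def NF {G ι : Type} [AddCommGroup G] (X : Type) [TopologicalSpace X] [Sys X]
    (L : ι → G →+ ℤ) : Set (ι → X) :=
  closure {x | ∃ (g : G) (z : X), x = fun i => sh (L i g) z}

theorem flow_cfA {G ι X : Type} [AddCommGroup G] [TopologicalSpace X] [Sys X]
    (L : ι → G →+ ℤ) : Flow (cfA (X := X) L) where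
  zero x := by funext i; simp [cfA, sh_zero]
  add g h x := by funext i; simp [cfA, sh_add]
  cont g := continuous_pi fun i => (sh_cont _).comp (continuous_apply i)

/-! ### Progressions -/

/-- the form `(b, u) ↦ b + i u` -/
def pf (i : ℤ) : ℤ × ℤ →+ ℤ where
  toFun p := p.1 + i * p.2
  map_zero' := by simp
  map_add' p q := by simp; ring

/-- `ℤ × ℤ` acts on the tuples: `(b, u)` moves the coordinate `i` by `b + i u` -/
def prA (n : ℕ) (X : Type) [TopologicalSpace X] [Sys X] : ℤ × ℤ → (Fin n → X) → (Fin n → X) :=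
  cfA fun i : Fin n => pf (i : ℕ)

/-- `N_n(X)`: the closure of the progressions `(T^(b + i u) z)_i` -/
def PG (n : ℕ) (X : Type) [TopologicalSpace X] [Sys X] : Set (Fin n → X) :=
  NF X fun i : Fin n => pf (i : ℕ)

/-! ### Towers -/

/-- `ρ` is a continuous invariant pseudometric on the fibres of `p` -/
structure CI {Z X : Type} [TopologicalSpace Z] [Sys Z] (p : Z → X) (ρ : Z → Z → ℝ) :
    Prop where
  cont : ContinuousOn (fun q : Z × Z => ρ q.1 q.2) {q | p q.1 = p q.2}
  inv : ∀ (n : ℤ) (z z' : Z), p z = p z' → ρ (sh n z) (sh n z') = ρ z z'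
  self : ∀ z, ρ z z = 0
  nonneg : ∀ z z', p z = p z' → 0 ≤ ρ z z'
  symm : ∀ z z', p z = p z' → ρ z z' = ρ z' z
  tri : ∀ z z' z'', p z = p z' → p z' = p z'' → ρ z z'' ≤ ρ z z' + ρ z' z''

section tower

variable {Z : Type} [TopologicalSpace Z] [Sys Z]

/-- the tuples of `Z` whose images under `p` are the images of a progression -/
def WP (n : ℕ) {X : Type} (p : Z → X) : Set (Fin n → Z) :=
  {x | ∃ y ∈ PG n Z, ∀ i, p (x i) = p (y i)}

/-- `p'` is fine enough for `p`: the continuous invariant functions on the tuples over `N_n` of the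
image of `p` depend only on the `p'`-images of the coordinates -/
def Fine (n : ℕ) {X X' : Type} (p : Z → X) (p' : Z → X') : Prop :=
  ∀ g : (Fin n → Z) → ℝ, ContinuousOn g (WP n p) →
    (∀ x ∈ WP n p, g (fun i => sh 1 (x i)) = g x) →
    ∀ x ∈ WP n p, ∀ x' ∈ WP n p, (∀ i, p' (x i) = p' (x' i)) → g x = g x'

/-- a tower of isometric extensions: `Z` is minimal, `π l` are its factors, `π 0` is constant,
`π (n - 1)` is injective -/
structure Tw (n : ℕ) (X : ℕ → Type) [∀ l, TopologicalSpace (X l)] [∀ l, Sys (X l)]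
    (π : ∀ l, Z → X l) : Prop where
  min : MinSet (univ : Set Z)
  cont : ∀ l, Continuous (π l)
  equi : ∀ l (m : ℤ) z, π l (sh m z) = sh m (π l z)
  zero : ∀ z z', π 0 z = π 0 z'
  mono : ∀ l z z', π (l + 1) z = π (l + 1) z' → π l z = π l z'
  top : ∀ z z', π (n - 1) z = π (n - 1) z' → z = z'
  iso : ∀ l, ∃ ρ, CI (π l) ρ ∧ ∀ z z', π l z = π l z' → (ρ z z' = 0 ↔ π (l + 1) z = π (l + 1) z')
  fine : ∀ l, l + 3 ≤ n → Fine n (π l) (π (l + 1))

/-- the tuples which agree with a progression in the coordinates of `I`, and up to their `p`-images in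
the other coordinates -/
def PL (n : ℕ) {X : Type} (p : Z → X) (I : Finset (Fin n)) : Set (Fin n → Z) :=
  {x | ∃ y ∈ PG n Z, (∀ i ∈ I, x i = y i) ∧ ∀ i, p (x i) = p (y i)}

/-- `PL` is locally saturated in the coordinates of `I` (for all `I` with `c` elements) -/
def LSat (n : ℕ) {Z : Type} [MetricSpace Z] [Sys Z] {X : Type} (p : Z → X) (c : ℕ) : Prop :=
  ∃ δ > 0, ∀ I : Finset (Fin n), I.card = c → ∀ a ∈ I, ∀ x ∈ PL n p I, ∀ e,
    dist (x a) e < δ → p (x a) = p e → Function.update x a e ∈ PL n p I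

/-- `PL` is saturated in the coordinates of `I` -/
def Sat (n : ℕ) {X : Type} (p : Z → X) (c : ℕ) : Prop :=
  ∀ I : Finset (Fin n), I.card = c → ∀ a ∈ I, ∀ x ∈ PL n p I, ∀ e, p (x a) = p e →
    Function.update x a e ∈ PL n p I

end tower

end Pool.Agent.Work.MP_69fea5_lc.W3
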