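import Pool.Agent.Work.MP_69fea5_lc.W3.Defs
import Pool.Agent.Work.MP_69fea5_lc.W3.DefsG

/-!
# Block [69fea5 W3 Q]: the 0-1 law on the minimal system itself (section 3 of note 3799)

Paper proof: note 3839 (A)-(D) on MP_69fea5_lc, and the docstrings of `W3/StmtsQ.lean`.
`X` is a compact metrizable system (the positions), `lam` an invariant measure on it, `O` a minimal
compact metrizable system with a homomorphism `π : O → X`, `η x` the law of a point of `O` given its
position `x`.
-/

set_option autoImplicit false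

namespace Pool.Agent.Work.MP_69fea5_lc.W3

open MeasureTheory ProbabilityTheory Topology Set Filter
open scoped NNReal ENNReal
open Pool.Agent.Work.MP_69fea5_lc.AK

/-! ### Lifts of laws of positions -/

/-- the law of a tuple of points, given the law `Q` of the tuple of their positions: given the
positions the points are independent -/
noncomputable def lif {X O ι : Type} [MeasurableSpace X] [MeasurableSpace O] [Fintype ι]
    (η : Kernel X O) (Q : Measure (ι → X)) : Measure (ι → O) :=
  Q.bind fun z => Measure.pi fun i => η (z i)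

/-- `G` depends only on the coordinates in `D` -/
def Dep {O ι β : Type} (D : Set ι) (G : (ι → O) → β) : Prop :=
  ∀ u u' : ι → O, (∀ i ∈ D, u i = u' i) → G u = G u'

/-- `G` is bounded -/
def Bd {Ω : Type} (G : Ω → ℝ) : Prop := ∃ b : ℝ, ∀ u, |G u| ≤ b

/-- `a` on `B` and `b` outside of `B` -/
noncomputable def pw {V O : Type} (B : Set V) (a b : V → O) : V → O := by
  classical exact fun v => if v ∈ B then a v else b v

section levels

variable {X O : Type} [TopologicalSpace X] [MeasurableSpace X] [CS X] [Sys X]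
  [TopologicalSpace O] [MeasurableSpace O] [CS O] [Sys O]

/-- `η` is a disintegration of an invariant probability measure of `O` over the law `lam` of the
positions -/
structure Lft (π : O → X) (lam : Measure X) (η : Kernel X O) : Prop where
  cont : Continuous π
  equi : ∀ (m : ℤ) (w : O), π (sh m w) = sh m (π w)
  prob : IsProbabilityMeasure lam
  ilam : ∀ m : ℤ, lam.map (sh m) = lam
  mrk : IsMarkovKernel η
  pos : ∀ᵐ x ∂lam, ∀ᵐ w ∂η x, π w = x
  inv : ∀ m : ℤ, ∀ᵐ x ∂lam, η (sh m x) = (η x).map (sh m)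

/-- the tuples whose positions are progressions -/
def CC (n : ℕ) (π : O → X) : Set (Fin n → O) := {u | (fun i => π (u i)) ∈ PG n X}

/-- laws of progressions: `P` is the law of a progression, `K j x` its law given that the
coordinate `j` is `x` -/
structure CLaw (n : ℕ) (lam : Measure X) (c : ℝ≥0) (P : Measure (Fin n → X))
    (K : Fin n → X → ProbabilityMeasure (Fin n → X)) : Prop where
  prob : IsProbabilityMeasure P
  carP : ∀ᵐ z ∂P, z ∈ PG n X
  cont : ∀ j, Continuous (K j)
  equi : ∀ (j : Fin n) (m : ℤ) (x : X), (K j (sh m x) : Measure (Fin n → X)) =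
    (K j x : Measure (Fin n → X)).map fun z i => sh m (z i)
  car : ∀ (j : Fin n) (x : X), ∀ᵐ z ∂(K j x : Measure (Fin n → X)), z j = x ∧ z ∈ PG n X
  dis : ∀ j : Fin n, lam.bind (fun x => (K j x : Measure (Fin n → X))) = P
  dom : ∀ j i : Fin n, i ≠ j → ∀ x : X,
    (K j x : Measure (Fin n → X)).map (fun z => z i) ≤ c • lam

/-- the law of a tuple of points whose coordinate `j` is `w` -/
noncomputable def kap {n : ℕ} (π : O → X) (η : Kernel X O)
    (K : Fin n → X → ProbabilityMeasure (Fin n → X)) (j : Fin n) (w : O) :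
    Measure (Fin n → O) :=
  (lif η (K j (π w) : Measure (Fin n → X))).map fun u => Function.update u j w

/-- the mean of `|F|` is at most `e` for all `kap j w` -/
def Sn {n : ℕ} (π : O → X) (η : Kernel X O) (K : Fin n → X → ProbabilityMeasure (Fin n → X))
    (F : (Fin n → O) → ℝ) (e : ℝ) : Prop :=
  ∀ (j : Fin n) (w : O), ∫ u, |F u| ∂kap π η K j w ≤ e

/-- continuous functions of tuples which are invariant on `CC n π` and factor there through an
isometric extension of the positions -/
structure ISO (n : ℕ) (π : O → X) (g : (Fin n → O) → ℝ) : Prop where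
  cont : Continuous g
  inv : ∀ u ∈ CC n π, g (fun i => sh 1 (u i)) = g u
  fac : ∃ ρ, CI π ρ ∧ ∀ u ∈ CC n π, ∀ u' ∈ CC n π, (∀ i, π (u i) = π (u' i)) →
    (∀ i, ρ (u i) (u' i) = 0) → g u = g u'

/-! ### Cubes -/

/-- the vertices of the cube: `(j, s)` with `j ∉ s`. (The vertex has the form
`b + j u + ∑ i ∈ s, (j - i) t i`.) -/
abbrev Vx (n : ℕ) : Type := {p : Fin n × Finset (Fin n) // p.1 ∉ p.2}

/-- the chain `s` of the cube; the chains `s` and `insert j s` have the same vertex `j` -/
def ch {n : ℕ} (s : Finset (Fin n)) (j : Fin n) : Vx n := ⟨(j, s.erase j), Finset.notMem_erase _ _⟩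

/-- the vertices moved in the direction `i` -/
def mv {n : ℕ} (i : Fin n) (a : Vx n) : Vx n := ch (insert i a.1.2) a.1.1

/-- the vertices of the subcube with the directions `S` -/
abbrev VS (n : ℕ) (S : Finset (Fin n)) : Type := {a : Vx n // a.1.2 ⊆ S}

/-- `κ` is a doubling of `P`: given `x` with the law `P` let `y`, `y'` be independent with the law
`κ x`; then `(y, y')` has the same law as `(x, y)`; the coordinates in `B` are not changed -/
structure Dbl {V : Type} [Fintype V] (B : Set V) (P : Measure (V → X))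
    (κ : Kernel (V → X) (V → X)) : Prop where
  mrk : IsMarkovKernel κ
  fix : ∀ᵐ x ∂P, ∀ᵐ y ∂κ x, ∀ a ∈ B, y a = x a
  sym : (P ⊗ₘ (κ ×ₖ κ)).map Prod.snd = P ⊗ₘ κ

/-- laws of cubes of progressions: `Pc` is the law of the cube, `Kc y` its law given that the chain
`∅` is `y` -/
structure QLaw (n : ℕ) (lam : Measure X) (c : ℝ≥0) (P : Measure (Fin n → X))
    (K : Fin n → X → ProbabilityMeasure (Fin n → X)) (Pc : Measure (Vx n → X))
    (Kc : (Fin n → X) → ProbabilityMeasure (Vx n → X)) : Prop where
  prob : IsProbabilityMeasure Pc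
  cont : ContinuousOn Kc (PG n X)
  equi : ∀ y ∈ PG n X, ∀ m : ℤ, (Kc (fun i => sh m (y i)) : Measure (Vx n → X)) =
    (Kc y : Measure (Vx n → X)).map fun z a => sh m (z a)
  car : ∀ y ∈ PG n X, ∀ᵐ z ∂(Kc y : Measure (Vx n → X)), ∀ j, z (ch ∅ j) = y j
  dis : P.bind (fun y => (Kc y : Measure (Vx n → X))) = Pc
  one : ∀ y ∈ PG n X, ∀ j : Fin n,
    (Kc y : Measure (Vx n → X)).map (fun z i => z (ch {j} i)) = (K j (y j) : Measure (Fin n → X))
  two : ∀ y ∈ PG n X, ∀ s : Finset (Fin n), 2 ≤ s.card →
    (Kc y : Measure (Vx n → X)).map (fun z i => z (ch s i)) ≤ c • P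
  ci : ∀ (S : Finset (Fin n)) (i : Fin n), i ∉ S → ∃ κ : Kernel (VS n S → X) (VS n S → X),
    Dbl {a : VS n S | a.1.1.1 = i} (Pc.map fun z (a : VS n S) => z a.1) κ ∧
    Pc.map (fun z => ((fun a : VS n S => z a.1 : VS n S → X), fun a : VS n S => z (mv i a.1))) =
      (Pc.map fun z (a : VS n S) => z a.1) ⊗ₘ κ

/-- the cube with the chain `∅` replaced by `u` -/
def ovw {n : ℕ} (u : Fin n → O) (W : Vx n → O) (a : Vx n) : O :=
  if a.1.2 = ∅ then u a.1.1 else W a

/-- the product of `F` over the chains `s ≠ ∅` -/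
def prC {n : ℕ} (F : (Fin n → O) → ℝ) (W : Vx n → O) : ℝ :=
  ∏ s ∈ (Finset.univ : Finset (Finset (Fin n))).erase ∅, F fun j => W (ch s j)

/-- the dual function of `F` -/
noncomputable def dua {n : ℕ} (π : O → X) (η : Kernel X O)
    (Kc : (Fin n → X) → ProbabilityMeasure (Vx n → X)) (F : (Fin n → O) → ℝ) (u : Fin n → O) : ℝ :=
  ∫ W, prC F (ovw u W) ∂lif η (Kc (fun i => π (u i)) : Measure (Vx n → X))

end levels

end Pool.Agent.Work.MP_69fea5_lc.W3
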