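import Pool.Agent.Work.MP_69fea5_lc.W3.Defs
import Pool.Agent.Work.MP_69fea5_lc.W3.DefsG
import Pool.Agent.Work.MP_69fea5_lc.W3.DefsQ

/-!
# Block [69fea5 W3 L]: one step of the tower (section 1 of note 3799): definitions

`X` is the position space of one level (compact metrizable, minimal), `π : M → X` the position,
`lam` the canonical measure of `X`, `Q j v` the law of the positions `z i`, `i ≠ j`, of a chain of
`n` points whose `j`-th point has the position `v`, `η` the disintegration of the measure on `M`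
over `lam`. (`lif` is in `W3/DefsQ.lean`.)
-/

set_option autoImplicit false

namespace Pool.Agent.Work.MP_69fea5_lc.W3

open MeasureTheory Topology Set Filter TopologicalSpace ProbabilityTheory
open scoped NNReal ENNReal
open Pool.Agent.Work.MP_69fea5_lc.AK

/-! ### Tuples with one distinguished coordinate -/

/-- the coordinates different from `j` -/
abbrev Oth {n : ℕ} (j : Fin n) := {i : Fin n // i ≠ j}

/-- the tuple with the point `w` at `j` and the other points `u` -/
def ins {X : Type} {n : ℕ} (j : Fin n) (w : X) (u : Oth j → X) : Fin n → X :=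
  fun i => if h : i = j then w else u ⟨i, h⟩

/-! ### Positions -/

/-- the graph of the position -/
def gr {k : ℕ} {X : Type} (M : Set (Om k)) (π : Om k → X) : Set (Om k × X) :=
  {p | p.1 ∈ M ∧ p.2 = π p.1}

section level

variable {k : ℕ} {X : Type} [TopologicalSpace X] [MeasurableSpace X] [CS X] [Sys X]

/-- the position map -/
structure Po (M : Set (Om k)) (π : Om k → X) : Prop where
  min : MinSet M
  cont : ContinuousOn π M
  equi : ∀ w ∈ M, ∀ m : ℤ, π (sh m w) = sh m (π w)
  onto : ∀ v, ∃ w ∈ M, π w = v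

/-- the tuples of points of `M` whose positions form a (limit of) progression(s) -/
def CM (n : ℕ) (M : Set (Om k)) (π : Om k → X) : Set (Fin n → Om k) :=
  {u | (∀ i, u i ∈ M) ∧ (fun i => π (u i)) ∈ PG n X}

/-- chain kernels on the position space -/
structure CK (n : ℕ) (lam : ProbabilityMeasure X)
    (Q : ∀ j : Fin n, X → ProbabilityMeasure (Oth j → X)) : Prop where
  cont : ∀ j, Continuous (Q j)
  equi : ∀ (j : Fin n) (m : ℤ) (v : X), Q j (sh m v) = sh m (Q j v)
  car : ∀ (j : Fin n) (v : X), Q j v {z | ins j v z ∈ PG n X} = 1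
  full : ∀ (j : Fin n) (v : X) (z : Oth j → X), ins j v z ∈ PG n X →
    ∀ U : Set (Oth j → X), IsOpen U → z ∈ U → 0 < Q j v U
  dom : ∃ C : ℝ≥0, ∀ (j : Fin n) (v : X) (i : Oth j) (B : Set X), MeasurableSet B →
    Q j v {z | z i ∈ B} ≤ C * lam B

/-- the disintegration `η` of an admissible measure -/
structure EK (M : Set (Om k)) (π : Om k → X) (lam : ProbabilityMeasure X)
    (η : Kernel X (Om k)) : Prop where
  markov : IsMarkovKernel η
  fib : ∀ᵐ v ∂(lam : Measure X), η v {w | w ∈ M ∧ π w = v}ᶜ = 0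
  eqv : ∀ᵐ v ∂(lam : Measure X), η (sh 1 v) = (η v).map (sh 1 : Om k → Om k)
  /-- all balls of continuous invariant pseudometrics are charged -/
  ball : ∀ ρ, IPB (gr M π) ρ → ∀ r : ℝ, 0 < r → ∀ᵐ v ∂(lam : Measure X), ∀ w ∈ M, π w = v →
    0 < η v {w' | w' ∈ M ∧ π w' = v ∧ ρ w w' v < r}

/-- `κ j v` is the law of the points `u i`, `i ≠ j`, of a chain over the position `v` of the `j`-th
point -/
def KK (n : ℕ) (η : Kernel X (Om k)) (Q : ∀ j : Fin n, X → ProbabilityMeasure (Oth j → X))
    (κ : ∀ j : Fin n, X → ProbabilityMeasure (Oth j → Om k)) : Prop :=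
  ∀ (j : Fin n) (v : X), (κ j v : Measure (Oth j → Om k)) = lif η (Q j v)

end level

/-! ### Relations and the next phase -/

/-- the tuples whose orbits avoid the boxes of `L` -/
def RT {k n : ℕ} (L : List (Fin n → Wd k)) : Set (Fin n → Om k) :=
  {u | ∀ m : ℤ, ∀ q ∈ L, ¬ ∀ i, u i ∈ cyl (q i) m}

/-- the indices of the coordinates of the phase -/
abbrev IxL (k n : ℕ) := List (Fin n → Wd k) × Fin n × (Fin n → Wd k)

/-- the phase of `w`: the numbers `κ j (π w) {u | (w, u) ∈ RT L, u in a box}` -/
noncomputable def ThL {k n : ℕ} {X : Type} (π : Om k → X)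
    (κ : ∀ j : Fin n, X → ProbabilityMeasure (Oth j → Om k)) (w : Om k) : Cube (IxL k n) :=
  fun a m => ⟨κ a.2.1 (π w) {u | ins a.2.1 w u ∈ RT a.1 ∧ ∀ i : Oth a.2.1, u i ∈ cyl (a.2.2 i) m},
    (κ a.2.1 (π w) _).2, by
      exact_mod_cast ProbabilityMeasure.apply_le_one (κ a.2.1 (π w)) _⟩

/-- `G` is a continuous invariant function on the tuples over `X` which depends only on the classes
of the pseudometric `ρ` -/
structure IsoF {k : ℕ} {X : Type} [TopologicalSpace X] [Sys X] (n : ℕ) (M : Set (Om k))
    (π : Om k → X) (ρ : Om k → Om k → X → ℝ) (G : (Fin n → Om k) → ℝ) : Prop where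
  cont : ContinuousOn G (CM n M π)
  inv : ∀ u ∈ CM n M π, G (fun i => sh 1 (u i)) = G u
  fac : ∀ u ∈ CM n M π, ∀ u' ∈ CM n M π,
    (∀ i, π (u i) = π (u' i) ∧ ρ (u i) (u' i) (π (u i)) = 0) → G u = G u'

/-- the kernel `m ↦ m` -/
noncomputable def evK (k : ℕ) : Kernel (PM k) (Om k) :=
  ⟨fun m => (m : Measure (Om k)), measurable_subtype_coe⟩

/-! ### Bundled systems and the step of the tower -/

/-- a compact metrizable system -/
structure Sp where
  C : Type
  [t : TopologicalSpace C]
  [m : MeasurableSpace C]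
  [c : CS C]
  [s : Sys C]

attribute [instance] Sp.t Sp.m Sp.c Sp.s

/-- a closed invariant set as a system -/
def Sp.ofSet {B : Type} [TopologicalSpace B] [MeasurableSpace B] [CS B] [Sys B] (K : Set B)
    (hc : IsClosed K) (hi : AK.Inv K) : Sp :=
  haveI : CompactSpace K := isCompact_iff_compactSpace.1 hc.isCompact
  haveI : CS K := { toCompactSpace := inferInstance, toMetrizableSpace := inferInstance,
                    toBorelSpace := inferInstance }
  letI : Sys K :=
    { sh := fun n x => ⟨sh n x.1, hi n x.1 x.2⟩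
      zero' := fun x => Subtype.ext (sh_zero x.1)
      add' := fun m n x => Subtype.ext (sh_add m n x.1)
      cont' := fun n => ((sh_cont n).comp continuous_subtype_val).subtype_mk _ }
  ⟨K⟩

/-- one step of the tower: `X'` (position `π'`) is an isometric extension of `X` (position `π`), fine
enough for the continuous invariant functions on the tuples over `X` -/
structure Stp {k : ℕ} (n : ℕ) (M : Set (Om k)) {X X' : Type}
    [TopologicalSpace X] [MeasurableSpace X] [CS X] [Sys X]
    [TopologicalSpace X'] [MeasurableSpace X'] [CS X'] [Sys X']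
    (π : Om k → X) (π' : Om k → X') (p : X' → X) : Prop where
  cont : Continuous p
  equi : ∀ (m : ℤ) y, p (sh m y) = sh m (p y)
  comp : ∀ w ∈ M, p (π' w) = π w
  iso : ∃ ρ, CI p ρ ∧ ∀ y y', p y = p y' → ρ y y' = 0 → y = y'
  fine : ∀ ρ, IPB (gr M π) ρ → ∀ G, IsoF n M π ρ G → ∀ u ∈ CM n M π, ∀ u' ∈ CM n M π,
    (∀ i, π' (u i) = π' (u' i)) → G u = G u'

end Pool.Agent.Work.MP_69fea5_lc.W3
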