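import Pool.Agent.Work.MP_69fea5_lc.W3.Cod
import Pool.Agent.Work.MP_69fea5_lc.W3.DefsF1
import Pool.Agent.Work.MP_69fea5_lc.N3.DefsH2

/-!
# Block [69fea5 F], the main line: definitions

Coded systems, coded bases, levels with frames, the data of the step of the induction on the number
of colours.
-/

set_option autoImplicit false

namespace Pool.Agent.Work.MP_69fea5_lc.W3

open MeasureTheory Topology Set Filter TopologicalSpace
open scoped NNReal ENNReal
open Pool.Agent.Work.MP_69fea5_lc.AK
open Pool.Agent.Work.MP_69fea5_lc.HK (Cl DU Ar ArF ArR Dat Law LawC act near sc Pt oc Mn mr ext)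
open Pool.Agent.Work.MP_69fea5_lc.KC (Agree)

/-- `CIP` and `IPB` are the same notion -/
theorem cip_iff_ipb {O X : Type} [TopologicalSpace O] [TopologicalSpace X] [Sys O] [Sys X]
    (M : Set (O × X)) (ρ : O → O → X → ℝ) : CIP M ρ ↔ IPB M ρ :=
  ⟨fun h => ⟨h.cont, fun n x u u' hu hu' => h.inv n u u' x hu hu', fun x u hu => h.self u x hu,
    fun x u u' hu hu' => h.nonneg u u' x hu hu', fun x u u' hu hu' => h.symm u u' x hu hu',
    fun x u u' u'' hu hu' hu'' => h.tri u u' u'' x hu hu' hu''⟩,
   fun h => ⟨h.cont, fun n u u' x hu hu' => h.inv n x u u' hu hu', fun u x hu => h.self x u hu,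
    fun u u' x hu hu' => h.nonneg x u u' hu hu', fun u u' x hu hu' => h.symm x u u' hu hu',
    fun u u' u'' x hu hu' hu'' => h.tri x u u' u'' hu hu' hu''⟩⟩

/-! ### Coded systems -/

/-- a shortcut (keeps the instance terms on products small) -/
noncomputable instance topPM {k : ℕ} : TopologicalSpace (PM k) := inferInstance

/-- compact metrizable systems with coded points -/
class CSys (X : Type) [TopologicalSpace X] [MeasurableSpace X] [Sys X] [Dat X] : Prop
  extends CS X, Law X, LawC X, Agree X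

instance {X Y : Type} [TopologicalSpace X] [MeasurableSpace X] [Sys X] [Dat X] [CSys X]
    [TopologicalSpace Y] [MeasurableSpace Y] [Sys Y] [Dat Y] [CSys Y] : CSys (X × Y) where
  toLaw := inferInstance
  toLawC := inferInstance
  toAgree := inferInstance

instance {ι X : Type} [Primcodable ι] [TopologicalSpace X] [MeasurableSpace X] [Sys X] [Dat X]
    [CSys X] : CSys (ι → X) where
  toLaw := inferInstance
  toLawC := inferInstance
  toAgree := inferInstance

instance {k : ℕ} : CSys (Om k) where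
  toLaw := inferInstance
  toLawC := inferInstance
  toAgree := inferInstance

instance {k : ℕ} : CSys (PM k) where
  toLaw := inferInstance
  toLawC := inferInstance
  toAgree := inferInstance

instance {I : Type} [Primcodable I] : CSys (Cube I) where
  toLaw := inferInstance
  toLawC := inferInstance
  toAgree := inferInstance

instance : CSys Unit where
  toLaw := inferInstance
  toLawC := inferInstance
  toAgree := inferInstance

/-- the balls around the points of the orbit of `x₀` -/
def Vn {X : Type} [Dat X] (x₀ : X) : ℕ × ℤ → Set X := fun p => {x | near p.1 x (act p.2 x₀)}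

/-- the space of the phases -/
abbrev CPh (k : ℕ) := Cube (IxT k (ℕ × ℤ))

/-- the space of the frames over a level over `X` -/
abbrev WF (k : ℕ) (X : Type) := (X × PM k) × (ℕ → CPh k)

/-- the space of the points of the last level over `X` -/
abbrev XE (k : ℕ) (X : Type) := (WF k X × PM k) × PM k

/-- quadruples -/
abbrev Q4 (α : Type) := α × α × α × α

section shortcuts

variable {k : ℕ} {X : Type}

noncomputable instance topWF [TopologicalSpace X] : TopologicalSpace (WF k X) := inferInstance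
noncomputable instance msWF [MeasurableSpace X] : MeasurableSpace (WF k X) := inferInstance
noncomputable instance sysWF [TopologicalSpace X] [Sys X] : Sys (WF k X) := inferInstance
noncomputable instance datWF [Dat X] : Dat (WF k X) := inferInstance
instance cWF [TopologicalSpace X] [MeasurableSpace X] [Sys X] [Dat X] [CSys X] :
    CSys (WF k X) := inferInstance
noncomputable instance topXE [TopologicalSpace X] : TopologicalSpace (XE k X) := inferInstance
noncomputable instance msXE [MeasurableSpace X] : MeasurableSpace (XE k X) := inferInstance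
noncomputable instance sysXE [TopologicalSpace X] [Sys X] : Sys (XE k X) := inferInstance
noncomputable instance datXE [Dat X] : Dat (XE k X) := inferInstance
instance cXE [TopologicalSpace X] [MeasurableSpace X] [Sys X] [Dat X] [CSys X] :
    CSys (XE k X) := inferInstance

end shortcuts

/-- the phases of the level `y = (x, m)` over `x` -/
noncomputable def th {k : ℕ} {X : Type} [TopologicalSpace X] [Sys X] [Dat X] (y : X × PM k) :
    Om k × (X × PM k) → CPh k := Th (Vn y) Prod.snd

/-- the frames over the level, with the system of their first phases -/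
def A1t {k : ℕ} {X : Type} [TopologicalSpace X] [Sys X] [Dat X]
    (A₁ : Set (Om k × (X × PM k))) (v : WF k X) : Set (Om k × WF k X) :=
  At A₁ (th v.1) (orb v) 0

/-- the colours charged by a measure -/
noncomputable def pal {k : ℕ} (m : PM k) : Finset (Fin k) :=
  haveI : DecidablePred fun r : Fin k => 0 < m {z | z 0 = r} := Classical.decPred _
  Finset.univ.filter fun r => 0 < m {z | z 0 = r}

section coded

variable (S : Set (Set ℕ)) {k : ℕ} (c : Om k)

/-- coded exact bases -/
structure Cb {X : Type} [TopologicalSpace X] [MeasurableSpace X] [Sys X] [Dat X] [CSys X]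
    (A : Set (Om k × X)) (x : X) : Prop where
  min : MinSet A
  mem : x ∈ Prod.snd '' A
  ex : Exa c A x
  pt : Pt S x
  ptz : ∃ z, Pt S z ∧ (z, x) ∈ A

/-- the induction statement: over every coded exact base there is a coded measure all of whose
coded exact translates have at least `j` colours -/
def Psi (j : ℕ) : Prop := ∀ (X : Type) [TopologicalSpace X] [MeasurableSpace X] [Sys X] [Dat X]
  [CSys X] (A : Set (Om k × X)) (x : X), Cb S c A x →
  ∃ m : PM k, Pt S m ∧ m {u | (u, x) ∈ A} = 1 ∧ ∀ (x' : X) (m' : PM k), Pt S x' → Pt S m' →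
    (x', m') ∈ orb (x, m) → Exa c A x' → j ≤ (pal m').card

/-- a coded level with a coded exact frame over a coded exact base: `v = ((x, m), t)` -/
structure LF {X : Type} [TopologicalSpace X] [MeasurableSpace X] [Sys X] [Dat X] [CSys X]
    (A : Set (Om k × X)) (x : X) (A₁ : Set (Om k × (X × PM k))) (v : WF k X) : Prop where
  cb : Cb S c A x
  fst : v.1.1 = x
  bch : BCh A (orb v.1) Prod.fst A₁
  lev : Lev A₁ Prod.snd
  pha : Pha A₁ (th v.1)
  frm : Frm (JJ A₁ (th v.1)) v
  cb1 : Cb S c A₁ v.1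
  cb2 : Cb S c (A1t A₁ v) v

/-- the data of the step: two levels with frames (`v`, `w`), the measure `m₃` of the induction
hypothesis over the second frame, and the level `λ₀` of barycentres of the translates of `m₃` -/
structure TD (j : ℕ) {X : Type} [TopologicalSpace X] [MeasurableSpace X] [Sys X] [Dat X] [CSys X]
    (A : Set (Om k × X)) (x : X) (A₁ : Set (Om k × (X × PM k))) (v : WF k X)
    (A₂ : Set (Om k × (WF k X × PM k))) (w : WF k (WF k X)) (m₃ l₀ : PM k)
    (AE : Set (Om k × ((WF k X × PM k) × PM k))) : Prop where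
  l1 : LF S c A x A₁ v
  l2 : LF S c (A1t A₁ v) v A₂ w
  pt3 : Pt S m₃
  one3 : m₃ {u | (u, w) ∈ A1t A₂ w} = 1
  psi : ∀ (w' : WF k (WF k X)) (m' : PM k), Pt S w' → Pt S m' → (w', m') ∈ orb (w, m₃) →
    Exa c (A1t A₂ w) w' → j ≤ (pal m').card
  ptl : Pt S l₀
  aaf : (w.1, l₀) ∈ AAF (orb (w.1, m₃))
  bch : BCh A₂ (orb (w.1, l₀)) Prod.fst AE
  lev : Lev AE Prod.snd

end coded

/-! ### Chains -/

/-- the frame of a point of the last level -/
def qE {k : ℕ} {X : Type} (e : XE k X) : WF k X := e.1.1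

/-- A chain `ξ = (ξ₀, ξ₁, ξ₂, ξ₃)` in `E` with the step `v₁`: almost periodic, the frame of `ξ_(j+1)` is
the image of the frame of `ξ_j` under the automorphism which maps `v` to `v₁`, the frame of `ξ₀` is
exact, only colours of `C` occur. -/
structure Ch4 {k : ℕ} {X : Type} [TopologicalSpace X] [Sys X] [Dat X] (c : Om k)
    (A₁ : Set (Om k × (X × PM k))) (v v₁ : WF k X) (E : Set (XE k X)) (C : Finset (Fin k))
    (ξ : Q4 (XE k X)) : Prop where
  min : MinSet (orb ξ)
  m0 : ξ.1 ∈ E
  m1 : ξ.2.1 ∈ E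
  m2 : ξ.2.2.1 ∈ E
  m3 : ξ.2.2.2 ∈ E
  c0 : (qE ξ.1, qE ξ.2.1) ∈ orb (v, v₁)
  c1 : (qE ξ.2.1, qE ξ.2.2.1) ∈ orb (v, v₁)
  c2 : (qE ξ.2.2.1, qE ξ.2.2.2) ∈ orb (v, v₁)
  ex : Exa c (A1t A₁ v) (qE ξ.1)
  p1 : ξ.2.1.2 {z | z 0 ∉ C} = 0
  p2 : ξ.2.2.1.2 {z | z 0 ∉ C} = 0
  p3 : ξ.2.2.2.2 {z | z 0 ∉ C} = 0

/-- `κ` is a decomposition of the measure of `e` into translates of `m₃` -/
def Dco {k : ℕ} {Y : Type} [TopologicalSpace Y] [Sys Y] (F : Set (Y × PM k)) (e : Y × PM k)
    (κ : ProbabilityMeasure (PM k)) : Prop :=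
  κ {m | (e.1, m) ∈ F} = 1 ∧ Bar κ id e.2

/-- the mean of the product of the masses of the colours of `C` -/
noncomputable def pC {k : ℕ} (C : Finset (Fin k)) (κ : ProbabilityMeasure (PM k)) : ℝ≥0∞ :=
  ∫⁻ m, ∏ r ∈ C, (m : Measure (Om k)) {z | z 0 = r} ∂(κ : Measure (PM k))

/-- some decomposition charges all colours of `C` at the same time -/
def Good {k : ℕ} {Y : Type} [TopologicalSpace Y] [Sys Y] (F : Set (Y × PM k))
    (C : Finset (Fin k)) (e : Y × PM k) : Prop := ∃ κ, Dco F e κ ∧ 0 < pC C κ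

/-- the weighted barycentres of `κ` are coded -/
def KCo (S : Set (Set ℕ)) {k : ℕ} (κ : ProbabilityMeasure (PM k)) : Prop :=
  ArR S fun p : List (Wd k) × HK.C k =>
    (sd (κ : Measure (PM k)) p.1).real (HK.cyl p.2)

/-- The coded families of the step: `v₁ i → v` generic (0-1 law `Z01` of part F1); `vl` dense in the fibre of the frames over
`v.1`; `e (i, l)` a quadruple of points of `E` over the frames `vl l`, `φ vl l`, `φ² vl l`,
`φ³ vl l`, `φ` the automorphism which maps `v` to `v₁ i`; everything is jointly almost periodic. -/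
structure Tup (S : Set (Set ℕ)) {k : ℕ} {X : Type} [TopologicalSpace X] [MeasurableSpace X]
    [Sys X] [Dat X] [CSys X] (v : WF k X) (E : Set (XE k X)) (v₁ vl : ℕ → WF k X)
    (e : ℕ × ℕ → Q4 (XE k X)) : Prop where
  pt1 : sc S v₁
  m1 : ∀ i, v₁ i ∈ orb v ∧ (v₁ i).1 = v.1
  n1 : ∀ i, near i (v₁ i) v
  z1 : ∀ i, Z01 v (v₁ i) E qE Prod.snd
  ptl : sc S vl
  ml : ∀ l, vl l ∈ orb v ∧ (vl l).1 = v.1
  dl : ∀ v' ∈ orb v, v'.1 = v.1 → v' ∈ closure (Set.range vl)
  pte : sc S e
  me : ∀ p, (e p).1 ∈ E ∧ (e p).2.1 ∈ E ∧ (e p).2.2.1 ∈ E ∧ (e p).2.2.2 ∈ E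
  q0 : ∀ i l, qE (e (i, l)).1 = vl l
  ce : ∀ i l, (qE (e (i, l)).1, qE (e (i, l)).2.1) ∈ orb (v, v₁ i) ∧
    (qE (e (i, l)).2.1, qE (e (i, l)).2.2.1) ∈ orb (v, v₁ i) ∧
    (qE (e (i, l)).2.2.1, qE (e (i, l)).2.2.2) ∈ orb (v, v₁ i)
  min : MinSet (orb (v, (vl, e)))

/-- `m` is the mixture of the measures of the family `e`: `∑ 2^(-a-1) (1/4) ∑ (four measures)` -/
def Mix {k : ℕ} {X : Type} (e : ℕ × ℕ → Q4 (XE k X)) (m : PM k) : Prop :=
  ∀ B : Set (Om k), MeasurableSet B → (m : Measure (Om k)) B =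
    ∑' a : ℕ, (2 : ℝ≥0∞)⁻¹ ^ (a + 1) * ((4 : ℝ≥0∞)⁻¹ *
      (((e a.unpair).1.2 : Measure (Om k)) B + ((e a.unpair).2.1.2 : Measure (Om k)) B +
        ((e a.unpair).2.2.1.2 : Measure (Om k)) B + ((e a.unpair).2.2.2.2 : Measure (Om k)) B))

end Pool.Agent.Work.MP_69fea5_lc.W3
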