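import Pool.Agent.Work.MP_69fea5_lc.W3.DefsV
import Pool.Agent.Work.MP_69fea5_lc.W3.DefsL

/-!
# Block [69fea5 W4], part V, second half (the top level): definitions

`X` is the last level of the tower (a minimal distal system), `lam` its canonical measure, `K v` the
law of the positions `(z_1, …, z_(n+1))` of a chain (a point of `N_(n+2)(X)`) given `z_0 = v`.
Paper proof: notes 3799 (sections 4, 5, 6), 3839 (TOP) on MP_69fea5_lc.
-/

set_option autoImplicit false

namespace Pool.Agent.Work.MP_69fea5_lc.W3

open MeasureTheory Topology Set Filter ProbabilityTheory TopologicalSpace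
open scoped NNReal ENNReal
open Pool.Agent.Work.MP_69fea5_lc.AK

variable {k : ℕ}

/-- all one-point marginals of `Q` are at most `C` times `lam` -/
def Dom {X ι : Type} [MeasurableSpace X] (lam : Measure X) (C : ℝ≥0) (Q : Measure (ι → X)) :
    Prop :=
  ∀ i, Q.map (fun z => z i) ≤ (C : ℝ≥0∞) • lam

/-- visible functions: continuous functions with values in `[0, 1]` which are invariant under the
shift of all coordinates on the progressions of length `n` -/
structure Vis {X : Type} [TopologicalSpace X] [Sys X] {n : ℕ} (g : (Fin n → X) → ℝ) : Prop where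
  cont : Continuous g
  inv : ∀ x ∈ PG n X, g (tsh 1 x) = g x
  bd : ∀ x, 0 ≤ g x ∧ g x ≤ 1

/-- The canonical measure `lam` of `X` and the kernel `K` of the chains with `n + 2` points over
their first point. -/
structure CH {X : Type} [TopologicalSpace X] [MeasurableSpace X] [CS X] [Sys X] {n : ℕ}
    (lam : ProbabilityMeasure X) (K : X → ProbabilityMeasure (Fin (n + 1) → X)) : Prop where
  min : MinSet (univ : Set X)
  linv : (lam : Measure X).map (sh 1 : X → X) = lam
  kc : Continuous K
  car : ∀ v : X, ∀ᵐ z ∂(K v : Measure (Fin (n + 1) → X)), (Fin.cons v z : Fin (n + 2) → X) ∈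
    PG (n + 2) X
  ke : ∀ (m : ℤ) (v : X), (K (sh m v) : Measure (Fin (n + 1) → X)) = (K v : Measure _).map (tsh m)
  kt : ∀ v : X, (K v : Measure (Fin (n + 1) → X)).map
    (fun z (j : Fin (n + 1)) => sh (((j : ℕ) : ℤ) + 1) (z j)) = K v
  dom : ∃ C : ℝ≥0, ∀ v : X, Dom (lam : Measure X) C (K v : Measure (Fin (n + 1) → X))
  dia : ∀ (v : X) (U : Set X), IsOpen U → v ∈ U → 0 < K v (univ.pi fun _ => U)
  sta : ((lam : Measure X).bind fun v => (K v : Measure (Fin (n + 1) → X)).map (cns v)) =
    (lam : Measure X).bind fun v => (K v : Measure (Fin (n + 1) → X))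
  tmin : ∀ v : X, MinSet (orb (X := TP (n + 1) X) fun _ => v)

/-- `π : M → X` is the position on the minimal system `M`, `μ` an invariant measure on `M` with the
image `lam`, `η` its disintegration -/
structure TopL {O X : Type} [TopologicalSpace O] [MeasurableSpace O] [CS O] [Sys O]
    [TopologicalSpace X] [MeasurableSpace X] [CS X] [Sys X]
    (M : Set O) (π : O → X) (lam : ProbabilityMeasure X) (μ : ProbabilityMeasure O)
    (η : Kernel X O) : Prop where
  min : MinSet M
  cont : ContinuousOn π M
  equi : ∀ w ∈ M, ∀ m : ℤ, π (sh m w) = sh m (π w)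
  inv : (μ : Measure O).map (sh 1 : O → O) = μ
  one : μ M = 1
  mar : IsMarkovKernel η
  bind : (lam : Measure X).bind η = (μ : Measure O)
  fib : ∀ᵐ v ∂(lam : Measure X), η v {z | z ∈ M ∧ π z = v}ᶜ = 0
  eqv : ∀ᵐ v ∂(lam : Measure X), η (sh 1 v) = (η v).map (sh 1 : O → O)

/-- the interface (TOP) of note 3839: sections of closed invariant sets of tuples are approximated
by visible functions of the positions, at every point of `M` -/
def TopA {X : Type} [TopologicalSpace X] [MeasurableSpace X] [CS X] [Sys X] {n : ℕ}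
    (M : Set (Om k)) (π : Om k → X) (K : X → ProbabilityMeasure (Fin (n + 1) → X))
    (η : Kernel X (Om k)) : Prop :=
  ∀ R : Set (Fin (n + 1) → Om k), TRel R → ∀ ε : ℝ, 0 < ε → ∃ g : (Fin (n + 1) → X) → ℝ, Vis g ∧
    ∀ w ∈ M, ∫ u, ((R.indicator (fun _ => (1 : ℝ)) (cns w u) -
      g (cns (π w) fun j => π (u j))) ^ 2) ∂(lif η (K (π w) : Measure (Fin (n + 1) → X))) ≤ ε

end Pool.Agent.Work.MP_69fea5_lc.W3
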