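import Pool.Agent.Work.MP_69fea5_lc.W3.DefsG

/-!
# Block [69fea5 W3 G]: freeness (section 2 of note 3799) and the shift (section 4)

Every item is a theorem `XXX_pf (h1 : S_A) (h2 : S_B) ... : S_XXX` in its own file `W3/I_XXX.lean`
(namespace as here); the hypotheses may be any statements of EARLIER items in this file.
The docstrings contain complete proofs. Notation: `g x` for `A g x`, `lim_F g x` for the limit of
`A g x` along the ultrafilter `F` of `G`.
-/

set_option autoImplicit false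

namespace Pool.Agent.Work.MP_69fea5_lc.W3

open MeasureTheory Topology Set Filter TopologicalSpace
open Pool.Agent.Work.MP_69fea5_lc.AK

/-! ## Flows of a commutative group -/

/-- [GFL] orbit closures and minimal sets (proofs as for `AK.S_ORB`, `AK/I_ORB.lean`). -/
def S_GFL : Prop := ∀ (G X : Type) [AddCommGroup G] [TopologicalSpace X] (A : G → X → X), Flow A →
  (∀ x, IsClosed (orbA A x) ∧ InvA A (orbA A x) ∧ x ∈ orbA A x) ∧
  (∀ (x : X) (K : Set X), IsClosed K → InvA A K → x ∈ K → orbA A x ⊆ K) ∧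
  (∀ (x : X) (K : Set X), MinA A K → x ∈ K → orbA A x = K) ∧
  (∀ K : Set X, IsClosed K → K.Nonempty → InvA A K → (∀ x ∈ K, K ⊆ orbA A x) → MinA A K) ∧
  (∀ K L : Set X, MinA A K → IsClosed L → InvA A L → (K ∩ L).Nonempty → K ⊆ L)

/-- [GIM] images of minimal sets. -/
def S_GIM : Prop := ∀ (G X Y : Type) [AddCommGroup G] [TopologicalSpace X] [CompactSpace X]
  [TopologicalSpace Y] [T2Space Y] (A : G → X → X) (B : G → Y → Y) (K : Set X) (f : X → Y),
  Flow A → Flow B → MinA A K → ContinuousOn f K → (∀ g, ∀ x ∈ K, f (A g x) = B g (f x)) →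
  MinA B (f '' K)

/-- [GUL] orbit closures and ultrafilters. -/
def S_GUL : Prop := ∀ (G X : Type) [AddCommGroup G] [TopologicalSpace X] [CompactSpace X]
  [T2Space X] (A : G → X → X),
  (∀ (F : Ultrafilter G) (x : X), ∃ y, Tendsto (fun g => A g x) (F : Filter G) (𝓝 y)) ∧
  ∀ x y : X, y ∈ orbA A x ↔ ∃ F : Ultrafilter G, Tendsto (fun g => A g x) (F : Filter G) (𝓝 y)

/-- [GUI] in a distal flow limits along an ultrafilter can be inverted.
Proof. `Ultrafilter G` is a compact Hausdorff semigroup (Mathlib: `Ultrafilter.add`,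
`Ultrafilter.eventually_add`, `Ultrafilter.continuous_add_left`, used for Hindman's theorem), and
`lim_(U + V) g x = lim_U g (lim_V g x)` (continuity of `A g`). The set of all `V + F` is compact and
closed under addition, so (`exists_idempotent_in_compact_add_subsemigroup`) it contains an
idempotent `e = V + F`. For `x ∈ K` put `y := lim_e g x`; then `lim_e g y = lim_(e+e) g x = y` and
`lim_e g x = y`, so `x = y` by distality: `lim_V g (lim_F g x) = x` for all `x ∈ K`. In the same way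
there is `V'` with `lim_V' g (lim_V g x) = x` on `K`. Then `lim_F g x = lim_V' g (lim_V g (lim_F g x))
= lim_V' g x` on `K`, so `lim_F g (lim_V g y) = lim_V' g (lim_V g y) = y`. Take `F' = V`. -/
def S_GUI : Prop := ∀ (G X : Type) [AddCommGroup G] [TopologicalSpace X] [CompactSpace X]
  [T2Space X] (A : G → X → X) (K : Set X), Flow A → IsClosed K → InvA A K → DistalOn A K →
  ∀ F : Ultrafilter G, ∃ F' : Ultrafilter G, ∀ x ∈ K, ∀ y ∈ K,
    (Tendsto (fun g => A g x) (F : Filter G) (𝓝 y) ↔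
      Tendsto (fun g => A g y) (F' : Filter G) (𝓝 x))

/-- [GAP] in a distal flow every orbit closure is minimal (GUL, GUI, GFL). -/
def S_GAP : Prop := ∀ (G X : Type) [AddCommGroup G] [TopologicalSpace X] [CompactSpace X]
  [T2Space X] (A : G → X → X) (K : Set X), Flow A → IsClosed K → InvA A K → DistalOn A K →
  ∀ x ∈ K, MinA A (orbA A x)

/-- [GOP] (D1): factor maps of a minimal distal flow are open.
Proof. Suppose `x ∈ U ∩ K` and for every neighbourhood `V` of `f x` there is `k_V ∈ K` with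
`f k_V ∈ V`, `f k_V ∉ f '' (U ∩ K)`. `K = orbA A x`, so `k_V = lim_(F_V) g x` (GUL). Let `W` be an
ultrafilter on the neighbourhoods of `f x`, finer than the filter of small neighbourhoods, and
`F := W.bind F_V`, `k := lim_W k_V = lim_F g x`; then `f k = f x`. Let `F'` be as in GUI for `F` and
`w := lim_F' g x`. Then `lim_F g w = x`, and `f w = f x`: `f w = lim_F' f (g x) = lim_F' f (g k)`
(both are `lim_F' B g (f x)`, as `f k = f x`) `= f (lim_F' g k) = f x`. Put `q_V := lim_(F_V) g w`,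
in `K`. `f q_V = lim_(F_V) B g (f w) = lim_(F_V) B g (f x) = f k_V`, and `lim_W q_V = lim_F g w = x`,
so `q_V ∈ U` for `W`-many `V`: contradiction. -/
def S_GOP : Prop := ∀ (G X Y : Type) [AddCommGroup G] [TopologicalSpace X] [CompactSpace X]
  [T2Space X] [TopologicalSpace Y] [T2Space Y] (A : G → X → X) (B : G → Y → Y) (K : Set X)
  (f : X → Y), Flow A → MinA A K → DistalOn A K → ContinuousOn f K →
  (∀ g, ∀ x ∈ K, f (A g x) = B g (f x)) →
  ∀ U : Set X, IsOpen U → ∀ x ∈ U ∩ K, ∃ V ∈ 𝓝 (f x), V ∩ f '' K ⊆ f '' (U ∩ K)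

/-- [GCF] configurations of a distal system are distal; the closure of the configurations is minimal
if some direction `h` moves all coordinates by `T`. (For the second part: it is
`orbA (cfA L) (diag z₀)`, by density of the orbit of `z₀`; GAP.) -/
def S_GCF : Prop := ∀ (G ι X : Type) [AddCommGroup G] [TopologicalSpace X] [CompactSpace X]
  [T2Space X] [Sys X] (L : ι → G →+ ℤ), DistalOn (shA X) univ →
  DistalOn (cfA (X := X) L) univ ∧
  ((∃ h : G, ∀ i, L i h = 1) → MinSet (univ : Set X) → MinA (cfA L) (NF X L) ∧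
    ∀ z : X, NF X L = orbA (cfA L) (fun _ => z))

/-! ## Progressions -/

/-- [GPR] the set `PG n Z` of progressions (GCF for the last part; `[*]` of note 3799 is the third
part: `(T^(b + i u) z)_i = (T^((i - j) u) v)_i` with `v = T^(b + j u) z`). -/
def S_GPR : Prop := ∀ (n : ℕ) (Z : Type) [TopologicalSpace Z] [CompactSpace Z] [T2Space Z]
  [Sys Z], MinSet (univ : Set Z) →
  (IsClosed (PG n Z) ∧ (PG n Z).Nonempty ∧ InvA (prA n Z) (PG n Z)) ∧
  (∀ z : Z, (fun _ => z) ∈ PG n Z) ∧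
  (∀ j : Fin n, PG n Z =
    closure {x | ∃ (m : ℤ) (v : Z), x = fun i : Fin n => sh (((i : ℤ) - (j : ℤ)) * m) v}) ∧
  (∀ x ∈ PG n Z, ∀ b m : ℤ, (fun i : Fin n => sh (b + ((i : ℕ) : ℤ) * m) (x i)) ∈ PG n Z) ∧
  (∀ x ∈ PG n Z, ∀ (j : Fin n) (m : ℤ),
    (fun i : Fin n => sh (((i : ℤ) - (j : ℤ)) * m) (x i)) ∈ PG n Z) ∧
  (∀ x ∈ PG n Z, (fun i => sh 1 (x i)) ∈ PG n Z) ∧
  (∀ (j : Fin n) (z : Z), ∃ x ∈ PG n Z, x j = z) ∧
  (DistalOn (shA Z) univ → DistalOn (prA n Z) univ ∧ MinA (prA n Z) (PG n Z))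

/-- [GDI] towers are distal. Proof: if `x ≠ y` take the least `l` with `π (l+1) x ≠ π (l+1) y`
(`l + 1 ≤ n - 1`); then `π l x = π l y` and `ρ x y ≠ 0` for the pseudometric `ρ` of the level `l`.
If `sh g x → z` and `sh g y → z` along `F`, then `ρ x y = ρ (sh g x) (sh g y) → ρ z z = 0`. -/
def S_GDI : Prop := ∀ (n : ℕ) (Z : Type) [TopologicalSpace Z] [CompactSpace Z] [T2Space Z]
  [Sys Z] (X : ℕ → Type) [∀ l, TopologicalSpace (X l)] [∀ l, T2Space (X l)] [∀ l, Sys (X l)]
  (π : ∀ l, Z → X l), Tw n X π → DistalOn (shA Z) univ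

/-- [GUO] uniform openness. Proof by contradiction with sequences: `y_k, w_k ∈ PG n Z` with
`p (y_k i) = p (w_k i)`, `dist (y_k i) (w_k i) → 0` for `i ∈ I`, without `w'`. After passing to
subsequences `y_k → y`, `w_k → w` in `PG n Z`; `f (y) = f (w)` for the map
`f v = (v restricted to I, p ∘ v)`. GOP for `f` at the point `y`, `U` = ball of radius `ε / 2` (the
action on the target is coordinatewise), gives `w'_k ∈ U ∩ PG n Z` with `f (w'_k) = f (w_k)`. -/
def S_GUO : Prop := ∀ (n : ℕ) (Z X : Type) [MetricSpace Z] [CompactSpace Z] [Sys Z]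
  [TopologicalSpace X] [T2Space X] [Sys X] (p : Z → X), MinSet (univ : Set Z) →
  DistalOn (shA Z) univ → Continuous p → (∀ (m : ℤ) z, p (sh m z) = sh m (p z)) →
  ∀ (I : Finset (Fin n)), ∀ ε > 0, ∃ δ > 0, ∀ y ∈ PG n Z, ∀ w ∈ PG n Z,
    (∀ i, p (y i) = p (w i)) → (∀ i ∈ I, dist (y i) (w i) < δ) →
    ∃ w' ∈ PG n Z, (∀ i ∈ I, w' i = w i) ∧ (∀ i, p (w' i) = p (w i)) ∧ ∀ i, dist (w' i) (y i) < ε

/-- [GCL] the orbit closures of a power of `T`. Proof. `A m := sh (q m)` is a flow of `ℤ`, distal,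
so its orbit closures `C z` are minimal (GAP), hence a partition of `Z`; `Z` is the union of the
`sh r (C z)`, `0 ≤ r < |q|` (closed and invariant), each of them is `C (sh r z)`: finitely many
classes, so they are clopen; Lebesgue number. -/
def S_GCL : Prop := ∀ (Z : Type) [MetricSpace Z] [CompactSpace Z] [Sys Z] (q : ℤ), q ≠ 0 →
  MinSet (univ : Set Z) → DistalOn (shA Z) univ →
  ∃ δ > 0, ∀ z e : Z, dist z e < δ → e ∈ closure (Set.range fun m : ℤ => sh (q * m) z)

/-- [GL0] the start of the induction. Proof. Let `I = {a, b}`, `a ≠ b`, `x ∈ PL n p I`, `y` as in the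
definition, `q = a - b`, `δ` the minimum of the numbers of GCL for the finitely many `q`. The set of
the pairs `(v a, v b)`, `v ∈ PG n Z`, is closed and contains `(sh (q m) (y a), y b)` for all `m`
(move `y` by `T^((i - b) m)`, GPR), so it contains `(e, y b)`. `p` is constant. -/
def S_GL0 : Prop := ∀ (n : ℕ) (Z X : Type) [MetricSpace Z] [CompactSpace Z] [Sys Z] (p : Z → X),
  MinSet (univ : Set Z) → DistalOn (shA Z) univ → (∀ z z', p z = p z') → LSat n p 2

/-! ## The perturbation lemma -/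

/-- [GPE] the perturbation at the time `0`. Proof. `I' := I.erase b` has `c` elements. For `d`, `e`
as in the statement, `d ∈ PL n p I'`, so by `LSat` (if `δ` is small) `update d a e ∈ PL n p I'`:
there is `w ∈ PG n Z` with `w a = e`, `w i = d i` for `i ∈ I`, `i ≠ a, b`, and `p (w i) = p (d i)`
for all `i`. GUO for `I'`, `y = d` and `w` gives `d' = w'`. -/
def S_GPE : Prop := ∀ (n : ℕ) (Z X : Type) [MetricSpace Z] [CompactSpace Z] [Sys Z]
  [TopologicalSpace X] [T2Space X] [Sys X] (p : Z → X) (c : ℕ), MinSet (univ : Set Z) →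
  DistalOn (shA Z) univ → Continuous p → (∀ (m : ℤ) z, p (sh m z) = sh m (p z)) → LSat n p c →
  ∀ I : Finset (Fin n), I.card = c + 1 → ∀ a ∈ I, ∀ b ∈ I, a ≠ b → ∀ ε > 0, ∃ δ > 0,
    ∀ d ∈ PG n Z, ∀ e, p (d a) = p e → dist (d a) e < δ →
      ∃ d' ∈ PG n Z, d' a = e ∧ (∀ i ∈ I, i ≠ a → i ≠ b → d' i = d i) ∧
        (∀ i, p (d' i) = p (d i)) ∧ ∀ i, dist (d' i) (d i) < ε

/-- [GPT] the perturbation at all times. `ρ` is a continuous invariant pseudometric on the fibres of
`p`. Proof. First `m = q m'`, `q = a - b`. Given `D`, put `d i := T^(-(i - b) m') (D i)` (in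
`PG n Z`, GPR); `d a = e`. Take `d'` for `d`, `e'` from GPE with `ε'` instead of `ε` and put
`D' i := T^((i - b) m') (d' i)`. For `i ∈ I`, `i ≠ a, b`: `D' i = D i`. For `i = b`: `D' b = d' b`,
`D b = d b`. For `i ∉ I`: `ρ (D' i) (D i) = ρ (d' i) (d i) < ε`, if `ε'` is small (`ρ` is
continuous on the compact set of the pairs in one fibre and `0` on the diagonal). General
`m = q m' + r`, `0 ≤ r < |q|`: apply this to `T^r e`, `T^r e'` (`T^r` is uniformly continuous). -/
def S_GPT : Prop := ∀ (n : ℕ) (Z X : Type) [MetricSpace Z] [CompactSpace Z] [Sys Z]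
  [TopologicalSpace X] [T2Space X] [Sys X] (p : Z → X) (c : ℕ) (ρ : Z → Z → ℝ),
  MinSet (univ : Set Z) →
  DistalOn (shA Z) univ → Continuous p → (∀ (m : ℤ) z, p (sh m z) = sh m (p z)) → LSat n p c →
  CI p ρ → ∀ I : Finset (Fin n), I.card = c + 1 → ∀ a ∈ I, ∀ b ∈ I, a ≠ b → ∀ ε > 0, ∃ δ > 0,
    ∀ e e', p e = p e' → dist e e' < δ → ∀ m : ℤ, ∀ D ∈ PG n Z, D a = sh m e →
      ∃ D' ∈ PG n Z, D' a = sh m e' ∧ (∀ i ∈ I, i ≠ a → dist (D' i) (D i) < ε) ∧
        (∀ i, p (D' i) = p (D i)) ∧ ∀ i, i ∉ I → ρ (D' i) (D i) < ε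

/-! ## Sections and their distances -/

/-- [GHD] the Hausdorff distance of the sections of a compact set which is open over `Z`. `K` is the
compact set, `φ` the map to `Z`, `F` a continuous map to a metric space; the section of `e` is
`F '' {x ∈ K | φ x = e}`. Continuity: `|h e e' - h e₁ e₁'| ≤ h e e₁ + h e' e₁'`, and `h e e₁ → 0` for
`e₁ → e` (compactness and openness). `h e e' = 0` gives equality (compact sets). -/
def S_GHD : Prop := ∀ (W Z V : Type) [MetricSpace W] [CompactSpace W] [MetricSpace Z]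
  [CompactSpace Z] [MetricSpace V] (K : Set W) (φ : W → Z) (F : W → V), IsClosed K →
  Continuous φ → Continuous F → (∀ z, ∃ x ∈ K, φ x = z) →
  (∀ x ∈ K, ∀ U ∈ 𝓝 x, ∀ᶠ z in 𝓝 (φ x), ∃ x' ∈ U ∩ K, φ x' = z) →
  ∃ h : Z → Z → ℝ, (Continuous fun q : Z × Z => h q.1 q.2) ∧ (∀ z, h z z = 0) ∧
    (∀ z z', 0 ≤ h z z') ∧ (∀ z z', h z z' = h z' z) ∧ (∀ z z' z'', h z z'' ≤ h z z' + h z' z'') ∧
    (∀ z z', h z z' = 0 → ∀ x ∈ K, φ x = z → ∃ x' ∈ K, φ x' = z' ∧ F x' = F x) ∧
    ∀ z z' (ε : ℝ), 0 ≤ ε → (∀ x ∈ K, φ x = z → ∃ x' ∈ K, φ x' = z' ∧ dist (F x') (F x) ≤ ε) →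
      (∀ x ∈ K, φ x = z' → ∃ x' ∈ K, φ x' = z ∧ dist (F x') (F x) ≤ ε) → h z z' ≤ ε

/-- [GEQ] relative equicontinuity gives an invariant pseudometric: `ρ z z' := sup_m h (T^m z) (T^m z')`
(`h` is bounded by compactness). Continuity on `{p z = p z'}`: lower semicontinuity is clear. `ρ` is
invariant and lower semicontinuous on pairs in one fibre, so constant on the orbit closure
`O` of `(z, z')` in `Z × Z`, which is minimal (distality, GAP for the product action; GCF with
`ι = Fin 2` or directly). Let `(z_k, z'_k) → (z, z')`, `p z_k = p z'_k`. The map `O → X`,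
`(a, a') ↦ p a` is onto the (minimal) image of `p` and open (GOP), so there are `(a_k, a'_k) ∈ O`,
`→ (z, z')`, with `p a_k = p a'_k = p z_k`. Then `ρ z_k z'_k ≤ ρ z_k a_k + ρ a_k a'_k + ρ a'_k z'_k`,
the outer terms tend to `0` by equicontinuity and the middle one is `ρ z z'`. -/
def S_GEQ : Prop := ∀ (Z X : Type) [MetricSpace Z] [CompactSpace Z] [Sys Z]
  [TopologicalSpace X] [T2Space X] [Sys X] (p : Z → X) (h : Z → Z → ℝ),
  MinSet (univ : Set Z) → DistalOn (shA Z) univ → Continuous p →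
  (∀ (m : ℤ) z, p (sh m z) = sh m (p z)) → (Continuous fun q : Z × Z => h q.1 q.2) →
  (∀ z, h z z = 0) → (∀ z z', 0 ≤ h z z') → (∀ z z', h z z' = h z' z) →
  (∀ z z' z'', h z z'' ≤ h z z' + h z' z'') →
  (∀ ε > 0, ∃ δ > 0, ∀ z z', p z = p z' → dist z z' < δ → ∀ m : ℤ, h (sh m z) (sh m z') ≤ ε) →
  ∃ ρ, CI p ρ ∧ ∀ z z', p z = p z' → h z z' ≤ ρ z z'

/-- [GRA] the pseudometric of the coordinate `a`. Proof: GHD for `W = Fin n → Z`, `K = PG n Z`,
`φ x = x a`, `F x = (x restricted to I minus a, p' ∘ x restricted to the complement of I)` (open over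
`Z` by GOP for the action `prA n Z`, the action on `Z` being `(b, u) ↦ T^(b + a u)`), then GPT with
the `ρ` whose zero set is the relation of `p'`: by compactness `ρ (D' i) (D i)` small implies
`p' (D' i)` close to `p' (D i)`; so `h` satisfies the hypothesis of GEQ. -/
def S_GRA : Prop := ∀ (n : ℕ) (Z X X' : Type) [MetricSpace Z] [CompactSpace Z] [Sys Z]
  [TopologicalSpace X] [T2Space X] [Sys X] [TopologicalSpace X'] [MetrizableSpace X'] [Sys X']
  (p : Z → X) (p' : Z → X') (c : ℕ) (ρ : Z → Z → ℝ), MinSet (univ : Set Z) →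
  DistalOn (shA Z) univ → Continuous p → (∀ (m : ℤ) z, p (sh m z) = sh m (p z)) →
  Continuous p' → (∀ (m : ℤ) z, p' (sh m z) = sh m (p' z)) → LSat n p c → CI p ρ →
  (∀ z z', p z = p z' → (ρ z z' = 0 ↔ p' z = p' z')) →
  ∀ I : Finset (Fin n), I.card = c + 1 → ∀ a ∈ I, ∀ b ∈ I, a ≠ b →
    ∃ ρ', CI p ρ' ∧ ∀ e e', p e = p e' → ρ' e e' = 0 → ∀ D ∈ PG n Z, D a = e →
      ∃ D' ∈ PG n Z, D' a = e' ∧ (∀ i ∈ I, i ≠ a → D' i = D i) ∧ ∀ i, i ∉ I → p' (D' i) = p' (D i)

/-- [GDS] the distance to `PG n Z` in the fibres: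
`g x := inf {∑ i, ρ i (x i) (y i) | y ∈ PG n Z, p (y i) = p (x i) for all i}`. Lower
semicontinuity: compactness. Upper semicontinuity: let `x_k → x` in `WP n p`, `y` optimal for `x`,
`x̂_k ∈ PG n Z` with `p (x̂_k i) = p (x_k i)`; `p ∘ x̂_k → p ∘ y`, so by GOP for `f v = p ∘ v` at `y`
there are `y_k ∈ PG n Z`, `→ y`, with `p ∘ y_k = p ∘ x_k`; `g x_k ≤ ∑ ρ i (x_k i) (y_k i) → g x`. -/
def S_GDS : Prop := ∀ (n : ℕ) (Z X : Type) [MetricSpace Z] [CompactSpace Z] [Sys Z]
  [TopologicalSpace X] [T2Space X] [Sys X] (p : Z → X) (ρ : Fin n → Z → Z → ℝ),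
  MinSet (univ : Set Z) → DistalOn (shA Z) univ → Continuous p →
  (∀ (m : ℤ) z, p (sh m z) = sh m (p z)) → (∀ i, CI p (ρ i)) →
  ∃ g : (Fin n → Z) → ℝ, ContinuousOn g (WP n p) ∧
    (∀ x ∈ WP n p, g (fun i => sh 1 (x i)) = g x) ∧
    ∀ x ∈ WP n p, (g x = 0 ↔ ∃ y ∈ PG n Z, (∀ i, p (x i) = p (y i)) ∧ ∀ i, ρ i (x i) (y i) = 0)

/-! ## Freeness -/

/-- [GST] the step of the induction. Proof. `|I| = c + 1`. Take `ρ' a` from GRA for `a ∈ I` (some
`b ∈ I`, `b ≠ a`) and `ρ' i := ρ` for `i ∉ I`, `g` from GDS. The zero set of `g` in `WP n p` is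
`PL n p' I`: if `y ∈ PG n Z`, `p (x i) = p (y i)` and `ρ' i (x i) (y i) = 0` for all `i`, change the
coordinates of `y` in `I` one after the other into those of `x` by GRA: the coordinates in `I` which
are not touched do not change, and the `p'`-images of those outside `I` do not change, they are
`p' (y i) = p' (x i)`. The converse is clear. Now let `x ∈ PL n p' I`, `a ∈ I`, `p' (x a) = p' e`;
`x' := update x a e ∈ WP n p`, and `Fine` gives `g x' = g x = 0`. -/
def S_GST : Prop := ∀ (n : ℕ) (Z X X' : Type) [MetricSpace Z] [CompactSpace Z] [Sys Z]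
  [TopologicalSpace X] [T2Space X] [Sys X] [TopologicalSpace X'] [MetrizableSpace X'] [Sys X']
  (p : Z → X) (p' : Z → X') (c : ℕ) (ρ : Z → Z → ℝ), MinSet (univ : Set Z) →
  DistalOn (shA Z) univ → Continuous p → (∀ (m : ℤ) z, p (sh m z) = sh m (p z)) →
  Continuous p' → (∀ (m : ℤ) z, p' (sh m z) = sh m (p' z)) →
  (∀ z z', p' z = p' z' → p z = p z') → 1 ≤ c → LSat n p c → CI p ρ →
  (∀ z z', p z = p z' → (ρ z z' = 0 ↔ p' z = p' z')) → Fine n p p' → Sat n p' (c + 1)

/-- [GFR] FREENESS: over the level `n - 2` the set of progressions of `Z` (the level `n - 1`) is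
everything. Proof. GDI; `LSat n (π 0) 2` by GL0; for `1 ≤ l ≤ n - 2` GST with `p = π (l - 1)`,
`p' = π l`, `c = l + 1` gives `Sat n (π l) (l + 2)`, hence `LSat n (π l) (l + 2)`. For `l = n - 2`
and `I = univ`: `PL n p univ = PG n Z`, so `PG n Z` is closed under changing one coordinate in its
fibre; change the coordinates of `y` one after the other into those of `x`. -/
def S_GFR : Prop := ∀ (n : ℕ) (Z : Type) [TopologicalSpace Z] [CompactSpace Z] [MetrizableSpace Z]
  [Sys Z] (X : ℕ → Type) [∀ l, TopologicalSpace (X l)] [∀ l, MetrizableSpace (X l)]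
  [∀ l, Sys (X l)] (π : ∀ l, Z → X l), 3 ≤ n → Tw n X π → PG n Z = WP n (π (n - 2))

/-- [GFN] only isometric factors have to be considered in `Fine`. Proof. Given `g`, put
`D j z z' := sup {|g x - g (update x j z')| | x ∈ WP n p, x j = z}` for `p z = p z'` (then
`update x j z' ∈ WP n p`), `ρ z z' := ∑ j, D j z z'`. `CI p ρ`: only the continuity of `D j` is not
clear. The set `{(x, z') | x ∈ WP n p, p z' = p (x j)}` is compact and open over
`{(z, z') | p z = p z'}` under `(x, z') ↦ (x j, z')`: let `x ∈ WP n p`, `z_k → x j`, `z'_k → z'`,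
`p z_k = p z'_k`; `x` has the `p`-images of `y ∈ PG n Z`; by GOP (`PG n Z → X`, `v ↦ p (v j)`) there
are `y_k ∈ PG n Z`, `→ y`, `p (y_k j) = p z_k`; for `i ≠ j` by GOP for `p : Z → X` there are
`x_k i → x i` with `p (x_k i) = p (y_k i)`; `x_k j := z_k`. So the supremum over the fibre is
continuous. If `ρ (x i) (x' i) = 0` for all `i`, then `g x = g x'` (change one coordinate at a
time), and the hypothesis applies. -/
def S_GFN : Prop := ∀ (n : ℕ) (Z X X' : Type) [MetricSpace Z] [CompactSpace Z] [Sys Z]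
  [TopologicalSpace X] [T2Space X] [Sys X] (p : Z → X) (p' : Z → X'), MinSet (univ : Set Z) →
  DistalOn (shA Z) univ → Continuous p → (∀ (m : ℤ) z, p (sh m z) = sh m (p z)) →
  (∀ (g : (Fin n → Z) → ℝ) (ρ : Z → Z → ℝ), ContinuousOn g (WP n p) →
    (∀ x ∈ WP n p, g (fun i => sh 1 (x i)) = g x) → CI p ρ →
    (∀ x ∈ WP n p, ∀ x' ∈ WP n p, (∀ i, p (x i) = p (x' i) ∧ ρ (x i) (x' i) = 0) → g x = g x') →
    ∀ x ∈ WP n p, ∀ x' ∈ WP n p, (∀ i, p' (x i) = p' (x' i)) → g x = g x') →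
  (∀ z z', p' z = p' z' → p z = p z') → Fine n p p'

/-! ## The shift (section 4) -/

/-- [GSH] an invariant continuous function on progressions does not change if the first term is
dropped and a term is added. Proof: clear for `x = (T^(b + i u) z)_i` by invariance under
`T^u × .. × T^u`; density. -/
def S_GSH : Prop := ∀ (n : ℕ) (Z : Type) [TopologicalSpace Z] [CompactSpace Z] [T2Space Z] [Sys Z]
  (g : (Fin n → Z) → ℝ), ContinuousOn g (PG n Z) →
  (∀ x ∈ PG n Z, g (fun i => sh 1 (x i)) = g x) → ∀ x ∈ PG (n + 1) Z,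
    (fun i : Fin n => x i.castSucc) ∈ PG n Z ∧ (fun i : Fin n => x i.succ) ∈ PG n Z ∧
    g (fun i : Fin n => x i.castSucc) = g (fun i : Fin n => x i.succ)

/-- [GAE] the same for `L¹`-limits. -/
def S_GAE : Prop := ∀ (Ω Q : Type) [MeasurableSpace Ω] [MeasurableSpace Q] (P : Measure Ω)
  (ν : Measure Q) [IsProbabilityMeasure P] [IsProbabilityMeasure ν] (a b : Ω → Q) (f : Q → ℝ),
  Measurable a → Measurable b → P.map a = ν → P.map b = ν → Integrable f ν →
  (∀ ε > 0, ∃ g : Q → ℝ, Integrable g ν ∧ (∀ᵐ ω ∂P, g (a ω) = g (b ω)) ∧ ∫ q, |f q - g q| ∂ν ≤ ε) →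
  ∀ᵐ ω ∂P, f (a ω) = f (b ω)

end Pool.Agent.Work.MP_69fea5_lc.W3
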