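import Pool.Agent.Work.MP_69fea5_lc.W3.StmtsD
import Pool.Agent.Work.MP_69fea5_lc.W3.DefsQ
import Pool.Agent.Work.MP_69fea5_lc.W3.DefsL
import Pool.Agent.Work.MP_69fea5_lc.W3.DefsV2
import Pool.Agent.Work.MP_69fea5_lc.W3.StmtsG

/-!
# Block [69fea5 D], part 2: the laws of progressions and cubes of progressions

From the canonical kernels (`KS`, `DefsD.lean`) to the structures `CLaw`, `QLaw` of `DefsQ.lean`.
`W3/ToolsD.lean` contains proved elementary facts. Same conventions as in `StmtsD.lean`.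
-/

set_option autoImplicit false

namespace Pool.Agent.Work.MP_69fea5_lc.W3D

open MeasureTheory Topology Set Filter
open ProbabilityTheory (Kernel)
open scoped ENNReal NNReal ProbabilityTheory
open Pool.Agent.Work.MP_69fea5_lc.AK (Sys sh orb)

/-! ## The kernels of all levels and the canonical kernels -/

/-- `K` is made from the kernels of all levels: `K F L A w` is the kernel of the level `h` on `A` and
`0` outside of `A` -/
def FK {X : Type} [TopologicalSpace X] [CompactSpace X] [T2Space X]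
    [SecondCountableTopology X] [MeasurableSpace X] [BorelSpace X] [Sys X] (h : ℕ)
    (E : ℕ → X → X → Prop) (K : KT X) : Prop :=
  ∀ (F : Type) [Finite F] (L : AddSubgroup (F → ℤ)), 1 ∈ L →
    ∀ Kf : (F → ℕ) → NN X L → ProbabilityMeasure (NN X L), Fam h E L Kf →
      ∀ (A : Set F) (m : F → ℕ), (∀ i ∈ A, m i = h) → (∀ i, i ∉ A → m i = 0) →
        ∀ w : NN X L, K F L A w.1 = (Kf m w : Measure (NN X L)).map fun v => v.1

/-- KSY (uses FAM, NAT, MIN, TWE). KSX with the information where `K` comes from.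
PROOF. As KSX; `FK`: the chosen family `Kf` and any other family agree, by NAT with `e = id`. -/
def S_KSY : Prop := ∀ (X : Type) [TopologicalSpace X] [CompactSpace X] [T2Space X]
  [SecondCountableTopology X] [MeasurableSpace X] [BorelSpace X] [Sys X] [Nonempty X] (h : ℕ)
  (E : ℕ → X → X → Prop) (ρ : ℕ → X → X → ℝ), (∀ x y : X, y ∈ orb x) → Tow h E ρ →
    ∃ K : KT X, KS K ∧ FK h E K

/-- NAP (uses STU, MIN, TWE, ISN). Naturality of the kernels for a factor map of the systems.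
PROOF. As for NAT. The map `r : NN X' L → NN X L`, `r v = p ∘ v`, is well defined, continuous and onto
(`p` is onto and equivariant, compactness). Downward induction on `m ≤ h`. For `w ∈ NN X L` put
`κ w = image of K' m w' under r`, any `w'` with `r w' = w`: well defined since
`EE E' m w' w'' ↔ EE E m (r w') (r w'')` (`m i ≤ h`). `κ` is a `Ker` for `EE E m` (`r` is a quotient
map of compact spaces). `m = h` everywhere: `κ w` and `K m w` are both carried by `{w}` (`top`: `E h`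
is equality). Otherwise `m⁺ i = min h (m i + 1)`: `∫ (∫ f dK m⁺) dκ w =
∫ (∫ f ∘ r dK' m⁺ v) dK' m w' (v) = ∫ f ∘ r dK' m w' = ∫ f dκ w` (induction hypothesis, `Fam.mul`);
so `Sat κ (K m⁺)`; STU on `NN X L` (ISN for `m, m⁺`) gives `κ = K m`. -/
def S_NAP : Prop := ∀ (X X' : Type) [TopologicalSpace X] [CompactSpace X] [T2Space X]
  [SecondCountableTopology X] [MeasurableSpace X] [BorelSpace X] [Sys X] [Nonempty X]
  [TopologicalSpace X'] [CompactSpace X'] [T2Space X']
  [SecondCountableTopology X'] [MeasurableSpace X'] [BorelSpace X'] [Sys X'] [Nonempty X']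
  (h h' : ℕ) (E : ℕ → X → X → Prop) (ρ : ℕ → X → X → ℝ) (E' : ℕ → X' → X' → Prop)
  (ρ' : ℕ → X' → X' → ℝ) (p : X' → X), (∀ x y : X, y ∈ orb x) → (∀ x y : X', y ∈ orb x) →
  Tow h E ρ → Tow h' E' ρ' → h ≤ h' → Continuous p → (∀ (m : ℤ) y, p (sh m y) = sh m (p y)) →
  (∀ t ≤ h, ∀ y y', E' t y y' ↔ E t (p y) (p y')) →
  ∀ (F : Type) [Finite F] (L : AddSubgroup (F → ℤ)), 1 ∈ L →
  ∀ (K : (F → ℕ) → NN X L → ProbabilityMeasure (NN X L))
    (K' : (F → ℕ) → NN X' L → ProbabilityMeasure (NN X' L)), Fam h E L K → Fam h' E' L K' →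
  ∀ m : F → ℕ, (∀ i, m i ≤ h) → ∀ (w : NN X L) (w' : NN X' L), (w.1 = fun i => p (w'.1 i)) →
    (K' m w' : Measure (NN X' L)).map (fun v i => p (v.1 i)) =
      (K m w : Measure (NN X L)).map fun v => v.1

/-! ## Shapes of cubes -/

/-- the shape of the cubes of progressions: `b + j u + ∑ i ∈ s, (j - i) t i` at the vertex
`(j, s)` -/
def Lv (n : ℕ) : AddSubgroup (W3.Vx n → ℤ) where
  carrier := {l | ∃ (b u : ℤ) (t : Fin n → ℤ), ∀ a : W3.Vx n,
    l a = b + (a.1.1 : ℕ) * u + ∑ i ∈ a.1.2, (((a.1.1 : ℕ) : ℤ) - (i : ℕ)) * t i}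
  zero_mem' := ⟨0, 0, 0, fun a => by simp⟩
  add_mem' := by
    rintro l l' ⟨b, u, t, h⟩ ⟨b', u', t', h'⟩
    refine ⟨b + b', u + u', t + t', fun a => ?_⟩
    simp only [Pi.add_apply, h a, h' a, mul_add, Finset.sum_add_distrib]
    ring
  neg_mem' := by
    rintro l ⟨b, u, t, h⟩
    refine ⟨-b, -u, -t, fun a => ?_⟩
    simp only [Pi.neg_apply, h a, mul_neg, Finset.sum_neg_distrib]
    ring

/-- the shape of the subcubes with the directions `S` -/
def LS (n : ℕ) (S : Finset (Fin n)) : AddSubgroup (W3.VS n S → ℤ) where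
  carrier := {l | ∃ k ∈ Lv n, l = fun a => k a.1}
  zero_mem' := ⟨0, (Lv n).zero_mem, rfl⟩
  add_mem' := by
    rintro l l' ⟨k, hk, rfl⟩ ⟨k', hk', rfl⟩
    exact ⟨k + k', (Lv n).add_mem hk hk', rfl⟩
  neg_mem' := by
    rintro l ⟨k, hk, rfl⟩
    exact ⟨-k, (Lv n).neg_mem hk, rfl⟩

/-- VSC. The chains of a cube.
PROOF. Elementary. (1) `l (ch s j) = b + j u + ∑ i ∈ s, (j - i) t i` for all `s`, `j` (the term
`i = j` vanishes, `ch s j = (j, s.erase j)`). (2) so `l ∘ ch ∅` is `b + j u`; given `b, u` take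
`t = 0`. (3) the pair of the chains `∅` and `s` is an element of `Lp n s'`, `s'` the set of the
values of `s`, with `τ = t`; conversely given `τ` take `t i = τ i`. -/
def S_VSC : Prop := ∀ n : ℕ, (1 ∈ Lv n) ∧
  (∀ l', l' ∈ Lc n ↔ ∃ l ∈ Lv n, l' = l ∘ W3.ch ∅) ∧
  (∀ (s : Finset (Fin n)) (l' : Fin n ⊕ Fin n → ℤ),
    l' ∈ Lp n (s.image fun i : Fin n => (i : ℕ)) ↔
      ∃ l ∈ Lv n, l' = l ∘ Sum.elim (W3.ch ∅) (W3.ch s)) ∧
  ∀ l ∈ Lc n, (fun a : W3.Vx n => l a.1.1) ∈ Lv n

/-- VSD. The subcube `S` and its translate in the direction `i ∉ S` form a doubled subcube.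
PROOF. `mv i (j, s) = (j, (insert i s).erase j)`, so `l (mv i a) = l a + (j - i) t i` for `a = (j, s)`
with `s ⊆ S` (for `j = i` both sides are `l a`; `i ∉ s`). Conversely an element of the right side
is given by `k ∈ Lv n` with parameters `b, u, t` and `m`; change `t i` to `m`: this does not change
the values on the subcube `S` (`i ∉ S`). `γ a = j - i` is given by `b = -i`, `u = 1`, `t = 0`. -/
def S_VSD : Prop := ∀ (n : ℕ) (S : Finset (Fin n)) (i : Fin n), i ∉ S → 1 ∈ LS n S ∧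
  ((fun a : W3.VS n S => (((a.1.1.1 : ℕ) : ℤ) - (i : ℕ))) ∈ LS n S) ∧
  ∀ l', l' ∈ dbl (LS n S) (fun a : W3.VS n S => (((a.1.1.1 : ℕ) : ℤ) - (i : ℕ))) ↔
    ∃ l ∈ Lv n, l' = l ∘ Sum.elim (fun a : W3.VS n S => a.1) (fun a : W3.VS n S => W3.mv i a.1)

/-! ## Kernels and doubling -/

/-- AGR. If agreement on `A` implies agreement on `B`, the kernels are the same.
PROOF. Let `w ∈ NF X L`. `K A w = (K A w).bind (K B)` (`mul`). For `K A w`-almost all `v`: `v ∈ NF X L`
and `v = w` on `A` (`car`), so `v = w` on `B` by the hypothesis, `K B v = K B w` (`cls`). So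
`K A w = (K A w).bind (const (K B w)) = K B w` (`prob`). -/
def S_AGR : Prop := ∀ (X : Type) [TopologicalSpace X] [CompactSpace X] [T2Space X]
  [SecondCountableTopology X] [MeasurableSpace X] [BorelSpace X] [Sys X] [Nonempty X] (K : KT X),
  KS K → ∀ (F : Type) [Finite F] (L : AddSubgroup (F → ℤ)), 1 ∈ L → ∀ A B : Set F, A ⊆ B →
    (∀ v ∈ NF X L, ∀ w ∈ NF X L, (∀ i ∈ A, v i = w i) → ∀ i ∈ B, v i = w i) →
    ∀ w ∈ NF X L, K F L A w = K F L B w

/-- DBK (uses PK1, PK3). The doubling kernel.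
PROOF. `κ x = Pk K L γ x` for `x ∈ NF X L` (closed, so measurable), `κ x = dirac x` for the other `x`;
a Markov kernel (`prob`; `Pk` is measurable by PK1). The law of `(v ∘ inl, v ∘ inr)` under
`cn K (dbl L γ)` is `cn K L ⊗ κ` (PK1; `cn K L` is carried by `NF X L`). `fix`: `v ∈ NF X (dbl L γ)`
and `γ i = 0` imply `v (inl i) = v (inr i)` (true for `shF l (x, …, x)`; closed). `sym`: both sides
are probability measures on a product, so it is enough to compare the integrals of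
`f ⊗ g`, `f, g` indicators of measurable sets (`Measure.prod`-rectangles are a π-system):
left `∫ (∫ f dκ x) (∫ g dκ x) dcn`, right `∫ f x (∫ g dκ x) dcn`, equal by PK3. -/
def S_DBK : Prop := ∀ (X : Type) [TopologicalSpace X] [CompactSpace X] [T2Space X]
  [SecondCountableTopology X] [MeasurableSpace X] [BorelSpace X] [Sys X] [Nonempty X] (K : KT X),
  KS K → ∀ (F : Type) [Finite F] (L : AddSubgroup (F → ℤ)) (γ : F → ℤ), 1 ∈ L → γ ∈ L →
  ∃ κ : Kernel (F → X) (F → X), ProbabilityTheory.IsMarkovKernel κ ∧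
    (cn K (dbl L γ)).map (fun v => (v ∘ Sum.inl, v ∘ Sum.inr)) = (cn K L) ⊗ₘ κ ∧
    (∀ᵐ x ∂(cn K L), ∀ᵐ y ∂(κ x), ∀ i, γ i = 0 → y i = x i) ∧
    ((cn K L) ⊗ₘ (κ ×ₖ κ)).map Prod.snd = (cn K L) ⊗ₘ κ

/-- LA2 (uses LA, VSC, AGR). The law of the chain `{j}` of a cube, given the chain `∅`.
PROOF. `e = Sum.elim (ch ∅) (ch {j})`, `A = range (ch ∅) ⊆ range e`, `e ⁻¹' A = range inl ∪ {inr j}`
(`ch {j} j = (j, ∅) = ch ∅ j`, and `ch {j} i = (i, {j})` for `i ≠ j`). `nat` (shape: VSC):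
the image of `K (Lv n) A w` under `e` is `K (Lp n {j}) (e ⁻¹' A) (w ∘ e)`. On `NF X (Lp n {j})` the
vertices `inl j` and `inr j` agree, so this is `K (Lp n {j}) (range inl) (w ∘ e)` (AGR). Then LA. -/
def S_LA2 : Prop := ∀ (X : Type) [TopologicalSpace X] [CompactSpace X] [T2Space X]
  [SecondCountableTopology X] [MeasurableSpace X] [BorelSpace X] [Sys X] [Nonempty X] (K : KT X),
  KS K → ∀ (n : ℕ) (j : Fin n), ∀ w ∈ NF X (Lv n),
    (K (W3.Vx n) (Lv n) (range (W3.ch ∅)) w).map (fun v i => v (W3.ch {j} i)) =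
      K (Fin n) (Lc n) {j} (fun _ => w (W3.ch ∅ j))

/-- LB2 (uses LB, VSC). The law of a chain `s`, `|s| ≥ 2`, given the chain `∅`.
PROOF. `e = Sum.elim (ch ∅) (ch s)`; `ch s i = (i, s.erase i)` and `s.erase i` is not empty, so
`e ⁻¹' (range (ch ∅)) = range inl`. `nat` (shape: VSC) and LB for `s' = ` values of `s`
(`s'.card = s.card`, the values are different); maximum of the finitely many `N`. -/
def S_LB2 : Prop := ∀ (X : Type) [TopologicalSpace X] [CompactSpace X] [T2Space X]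
  [SecondCountableTopology X] [MeasurableSpace X] [BorelSpace X] [Sys X] [Nonempty X] (K : KT X),
  KS K → ∀ n : ℕ, ∃ N : ℕ, ∀ s : Finset (Fin n), 2 ≤ s.card → ∀ w ∈ NF X (Lv n),
    (K (W3.Vx n) (Lv n) (range (W3.ch ∅)) w).map (fun v i => v (W3.ch s i)) ≤ N • cn K (Lc n)

/-! ## The interface -/

theorem secondCountable_of_CS (X : Type) [TopologicalSpace X] [MeasurableSpace X] [W3.CS X] :
    SecondCountableTopology X := by
  letI := TopologicalSpace.metrizableSpaceMetric X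
  infer_instance

/-- The laws of progressions of all lengths `n` and of cubes of progressions: `P n` is the law of a
progression, `K n j x` its law given that the coordinate `j` is `x`. -/
structure XI {X : Type} [TopologicalSpace X] [MeasurableSpace X] [W3.CS X] [Sys X]
    (lam : Measure X) (P : ∀ n : ℕ, Measure (Fin n → X))
    (K : ∀ n : ℕ, Fin n → X → ProbabilityMeasure (Fin n → X)) : Prop where
  prob : IsProbabilityMeasure lam
  inv : ∀ m : ℤ, lam.map (sh m) = lam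
  pos : ∀ U : Set X, IsOpen U → U.Nonempty → 0 < lam U
  /-- laws of progressions and of cubes of progressions -/
  cube : ∀ n : ℕ, ∃ (c : ℝ≥0) (Pc : Measure (W3.Vx n → X))
    (Kc : (Fin n → X) → ProbabilityMeasure (W3.Vx n → X)),
    W3.CLaw n lam c (P n) (K n) ∧ W3.QLaw n lam c (P n) (K n) Pc Kc
  /-- full support -/
  full : ∀ (n : ℕ) (j : Fin n), ∀ z ∈ W3.PG n X, ∀ U : Set (Fin n → X), IsOpen U → z ∈ U →
    0 < (K n j (z j) : Measure (Fin n → X)) U
  /-- invariance under the progressions which do not move the coordinate `j` -/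
  prg : ∀ (n : ℕ) (j : Fin n) (m : ℤ) (x : X), (K n j x : Measure (Fin n → X)).map
    (fun z (i : Fin n) => sh ((((i : ℕ) : ℤ) - (j : ℕ)) * m) (z i)) = (K n j x : Measure (Fin n → X))
  /-- restrictions -/
  kcs : ∀ (n : ℕ) (j : Fin n) (x : X), (K (n + 1) j.castSucc x : Measure (Fin (n + 1) → X)).map
    (fun z (i : Fin n) => z i.castSucc) = (K n j x : Measure (Fin n → X))
  ksu : ∀ (n : ℕ) (j : Fin n) (x : X), (K (n + 1) j.succ x : Measure (Fin (n + 1) → X)).map
    (fun z (i : Fin n) => z i.succ) = (K n j x : Measure (Fin n → X))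
  pcs : ∀ n : ℕ, (P (n + 1)).map (fun z (i : Fin n) => z i.castSucc) = P n
  psu : ∀ n : ℕ, (P (n + 1)).map (fun z (i : Fin n) => z i.succ) = P n

/-- PGN. The two descriptions of the set of progressions. (Proved in `W3/ToolsD.lean`.) -/
def S_PGN : Prop := ∀ (n : ℕ) (X : Type) [TopologicalSpace X] [Sys X], W3.PG n X = NF X (Lc n)

/-- XI1 (uses AGR, DOM1). The laws of progressions.
PROOF. `lam = cX K`, `P n = cn K (Lc n)`, `K n j x = K (Fin n) (Lc n) {j} (x, …, x)`, a probability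
measure (`(x, …, x) ∈ NF`, `prob`). `PG n X = NF X (Lc n)` (PGN). For `w ∈ NF X (Lc n)`:
`K (Fin n) (Lc n) {j} w = K n j (w j)` (`cls`). `cont` (as a function into the probability measures:
`cont` of `KS` and continuity of `x ↦ (x, …, x)`), `equi` (`l = m • 1`), `car`, `full` from `KS`.
`dis`: `cn K (Lc n) = (cn K (Lc n)).bind (K {j}) = ((cn K (Lc n)).map (eval j)).bind (K n j)` by
`mul`, and the law of the coordinate `j` is `cX K` (`nat`, `e : Fin 1 → Fin n`, `0 ↦ j`, `A = ∅`;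
`{l ∘ e} = Lc 1`). `dom`: DOM1, `c = n`. `prg`: `l i = (i - j) m`; `shF l (x, …, x)` and `(x, …, x)`
agree in the coordinate `j`: `equi` and `cls`. Restrictions: `nat` for `e = castSucc`, `succ`,
`A = {castSucc j}` resp. `{succ j}` resp. `∅` (`e` is injective; `{l ∘ e | l ∈ Lc (n + 1)} = Lc n`;
`cn` does not depend on the chosen point: `cls` with `A = ∅`). `lam`: `prob`; invariant: `equi` with
`l = m • 1`, `A = ∅`; positive: `full`. -/
def S_XI1 : Prop := ∀ (X : Type) [TopologicalSpace X] [MeasurableSpace X] [W3.CS X] [Sys X]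
  [Nonempty X] (K : KT X), KS K →
  ∃ Kj : ∀ n : ℕ, Fin n → X → ProbabilityMeasure (Fin n → X),
    (∀ n j x, (Kj n j x : Measure (Fin n → X)) = K (Fin n) (Lc n) {j} fun _ => x) ∧
    IsProbabilityMeasure (cX K) ∧ (∀ m : ℤ, (cX K).map (sh m) = cX K) ∧
    (∀ U : Set X, IsOpen U → U.Nonempty → 0 < cX K U) ∧
    (∀ n : ℕ, W3.CLaw n (cX K) n (cn K (Lc n)) (Kj n)) ∧
    (∀ (n : ℕ) (j : Fin n), ∀ z ∈ W3.PG n X, ∀ U : Set (Fin n → X), IsOpen U → z ∈ U →
      0 < (Kj n j (z j) : Measure (Fin n → X)) U) ∧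
    (∀ (n : ℕ) (j : Fin n) (m : ℤ) (x : X), (Kj n j x : Measure (Fin n → X)).map
      (fun z (i : Fin n) => sh ((((i : ℕ) : ℤ) - (j : ℕ)) * m) (z i)) = (Kj n j x : Measure (Fin n → X))) ∧
    (∀ (n : ℕ) (j : Fin n) (x : X), (Kj (n + 1) j.castSucc x : Measure (Fin (n + 1) → X)).map
      (fun z (i : Fin n) => z i.castSucc) = (Kj n j x : Measure (Fin n → X))) ∧
    (∀ (n : ℕ) (j : Fin n) (x : X), (Kj (n + 1) j.succ x : Measure (Fin (n + 1) → X)).map
      (fun z (i : Fin n) => z i.succ) = (Kj n j x : Measure (Fin n → X))) ∧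
    (∀ n : ℕ, (cn K (Lc (n + 1))).map (fun z (i : Fin n) => z i.castSucc) = cn K (Lc n)) ∧
    ∀ n : ℕ, (cn K (Lc (n + 1))).map (fun z (i : Fin n) => z i.succ) = cn K (Lc n)

/-- XI2 (uses VSC, VSD, DBK, LA2, LB2). The laws of cubes of progressions.
PROOF. `Pc = cn K (Lv n)`, `Kc y = K (Lv n) (range (ch ∅)) (fun a => y a.1.1)` for `y ∈ PG n X`, and
any probability measure for the other `y`. `y ↦ (fun a => y a.1.1)` maps `PG n X = NF X (Lc n)` into
`NF X (Lv n)` (last part of VSC; closures) and is continuous; its value agrees with `y` on the chain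
`∅`. `cont`, `equi`, `car` from `KS`; `dis`: `mul` for `∅ ⊆ range (ch ∅)`, the law of the chain `∅` is
`cn K (Lc n)` (`nat`, VSC), and `K (Lv n) (range (ch ∅)) w` depends only on the chain `∅` of `w`
(`cls`). `one`: LA2. `two`: LB2. `ci`: `κ` from DBK for `L = LS n S`, `γ a = j - i` (VSD): by `nat`
for `e = Sum.elim (fun a => a.1) (fun a => mv i a.1)`, `A = ∅` (shape: VSD) the law of the pair is
that of `cn K (dbl (LS n S) γ)`; the law of the subcube is `cn K (LS n S)` (`nat`); `γ a = 0` iff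
`a.1.1.1 = i`. `c` = maximum of `n` (`CLaw` is monotone in `c`) and of `N` from LB2. -/
def S_XI2 : Prop := ∀ (X : Type) [TopologicalSpace X] [MeasurableSpace X] [W3.CS X] [Sys X]
  [Nonempty X] (K : KT X), KS K →
  ∀ (n : ℕ) (Kj : Fin n → X → ProbabilityMeasure (Fin n → X)),
    (∀ j x, (Kj j x : Measure (Fin n → X)) = K (Fin n) (Lc n) {j} fun _ => x) →
    ∃ (c : ℝ≥0) (Kc : (Fin n → X) → ProbabilityMeasure (W3.Vx n → X)), (n : ℝ≥0) ≤ c ∧
      W3.QLaw n (cX K) c (cn K (Lc n)) Kj (cn K (Lv n)) Kc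

/-- the laws of progressions come from the kernels of all levels -/
def XF {X : Type} [TopologicalSpace X] [MeasurableSpace X] [W3.CS X] [Sys X] (h : ℕ)
    (E : ℕ → X → X → Prop) (P : ∀ n : ℕ, Measure (Fin n → X))
    (K : ∀ n : ℕ, Fin n → X → ProbabilityMeasure (Fin n → X)) : Prop :=
  haveI : SecondCountableTopology X := secondCountable_of_CS X
  ∀ (n : ℕ) (Kf : (Fin n → ℕ) → NN X (Lc n) → ProbabilityMeasure (NN X (Lc n))),
    Fam h E (Lc n) Kf → (∀ w : NN X (Lc n), P n = (Kf 0 w : Measure (NN X (Lc n))).map fun v => v.1) ∧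
    ∀ (j : Fin n) (m : Fin n → ℕ), m j = h → (∀ i, i ≠ j → m i = 0) → ∀ w : NN X (Lc n),
      (K n j (w.1 j) : Measure (Fin n → X)) = (Kf m w : Measure (NN X (Lc n))).map fun v => v.1

/-- XIT (uses KSY, XI1, XI2). THE RESULT OF PART D. (Proved in `W3/GlueD.lean`.) -/
def S_XIT : Prop := ∀ (X : Type) [TopologicalSpace X] [MeasurableSpace X] [W3.CS X] [Sys X]
  [Nonempty X] (h : ℕ) (E : ℕ → X → X → Prop) (ρ : ℕ → X → X → ℝ), (∀ x y : X, y ∈ orb x) →
  Tow h E ρ → ∃ (lam : Measure X) (P : ∀ n : ℕ, Measure (Fin n → X))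
    (K : ∀ n : ℕ, Fin n → X → ProbabilityMeasure (Fin n → X)), XI lam P K ∧ XF h E P K

/-- XCK. The laws of the other coordinates, for part L.
PROOF. `Q j v` is the image of `K n j v` under the restriction to the coordinates `i ≠ j`.
For `K n j v`-almost all `z`: `z j = v`, `z ∈ PG n X` (`CLaw.car`), so
`ins j v (z restricted) = z`. `full`: let `ins j v z ∈ PG n X`, `U` open, `z ∈ U`; the set of the
`z'` with restriction in `U` is open and contains `ins j v z`, whose coordinate `j` is `v`: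
`XI.full`. `dom`: `CLaw.dom`. -/
def S_XCK : Prop := ∀ (X : Type) [TopologicalSpace X] [MeasurableSpace X] [W3.CS X] [Sys X]
  (lam : ProbabilityMeasure X) (P : ∀ n : ℕ, Measure (Fin n → X))
  (K : ∀ n : ℕ, Fin n → X → ProbabilityMeasure (Fin n → X)), XI (lam : Measure X) P K → ∀ n : ℕ,
  ∃ Q : ∀ j : Fin n, X → ProbabilityMeasure (W3.Oth j → X), W3.CK n lam Q ∧
    ∀ (j : Fin n) (v : X), (Q j v : Measure (W3.Oth j → X)) =
      (K n j v : Measure (Fin n → X)).map fun z (i : W3.Oth j) => z i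

/-- XCH (uses `W3.S_GCF`, `W3.S_GAP`). The laws at the top level, for part V2.
PROOF. `K' v` is the image of `K (n + 2) 0 v` under `z ↦ (z 1, …, z (n + 1))`. For
`K (n + 2) 0 v`-almost all `z`: `z 0 = v`, `z ∈ PG (n + 2) X` (`CLaw.car`). `kt`: `XI.prg` with `j = 0`,
`m = 1`. `dom`: `CLaw.dom`. `dia`: `XI.full` for the constant tuple `v` (in `PG`: `PG_eq`,
`diag_mem_NF` in `ToolsD`) and the open set `{z | ∀ i, z i.succ ∈ U}`. `sta`: the left side is the
image of `P (n + 2)` under restriction to the coordinates `castSucc` (`CLaw.dis` with `j = 0`,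
`z 0 = v`), which is `P (n + 1)` (`pcs`); the right side is its image under `succ`: `psu`.
`tmin`: let `A` be the action of `ℤ` on `Fin (n + 1) → X`, `m ↦ sh ((j + 1) m)` in the coordinate `j`
(`W3.cfA` with `L j = (j + 1) • id`); it is distal (`S_GCF`), so the orbit closures are minimal
(`S_GAP`); `orb` in `TP (n + 1) X` is the same orbit closure. -/
def S_XCH : Prop := ∀ (X : Type) [TopologicalSpace X] [MeasurableSpace X] [W3.CS X] [Sys X]
  (lam : ProbabilityMeasure X) (P : ∀ n : ℕ, Measure (Fin n → X))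
  (K : ∀ n : ℕ, Fin n → X → ProbabilityMeasure (Fin n → X)), AK.MinSet (univ : Set X) →
  W3.DistalOn (W3.shA X) univ → XI (lam : Measure X) P K → ∀ n : ℕ,
  ∃ K' : X → ProbabilityMeasure (Fin (n + 1) → X), W3.CH lam K' ∧
    ∀ v : X, (K' v : Measure (Fin (n + 1) → X)) =
      (K (n + 2) 0 v : Measure (Fin (n + 2) → X)).map fun z (i : Fin (n + 1)) => z i.succ

/-- TDI. Systems with a tower are distal. (Proved in `W3/ToolsD.lean`.) -/
def S_TDI : Prop := ∀ (X : Type) [TopologicalSpace X] [T2Space X] [Sys X] (h : ℕ)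
  (E : ℕ → X → X → Prop) (ρ : ℕ → X → X → ℝ), Tow h E ρ → W3.DistalOn (W3.shA X) univ

/-- TWS. Towers grow. (Proved in `W3/ToolsD.lean`.) -/
def S_TWS : Prop := ∀ (X X' : Type) [TopologicalSpace X] [T2Space X] [Sys X]
  [TopologicalSpace X'] [T2Space X'] [Sys X'] (h : ℕ) (E : ℕ → X → X → Prop) (ρ : ℕ → X → X → ℝ) (p : X' → X)
  (ρ' : X' → X' → ℝ), Tow h E ρ → Continuous p → (∀ (m : ℤ) y, p (sh m y) = sh m (p y)) →
  W3.CI p ρ' → (∀ y y', p y = p y' → ρ' y y' = 0 → y = y') →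
  ∃ (E' : ℕ → X' → X' → Prop) (ρ'' : ℕ → X' → X' → ℝ), Tow (h + 1) E' ρ'' ∧
    ∀ t ≤ h, ∀ y y', E' t y y' ↔ E t (p y) (p y')

/-- TWB. The towers of part G are towers. (Proved in `W3/ToolsD.lean`.) -/
def S_TWB : Prop := ∀ (n : ℕ) (Z : Type) [TopologicalSpace Z] [Sys Z] (Y : ℕ → Type)
  [∀ l, TopologicalSpace (Y l)] [∀ l, T2Space (Y l)] [∀ l, Sys (Y l)] (π : ∀ l, Z → Y l),
  W3.Tw n Y π → (∀ x y : Z, y ∈ orb x) ∧
    ∃ ρ, Tow (n - 1) (fun l z z' => π l z = π l z') ρ

end Pool.Agent.Work.MP_69fea5_lc.W3D
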