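import Pool.Agent.Work.MP_69fea5_lc.W3.CodX
import Pool.Agent.Work.MP_69fea5_lc.W3.DefsM
import Pool.Agent.Work.MP_69fea5_lc.W3.DefsV
import Pool.Agent.Work.MP_69fea5_lc.W3.DefsL
import Pool.Agent.Work.MP_69fea5_lc.W3.StmtsD2

/-!
# Block [69fea5 K]: coding of the tower (sums of at most `n` terms): definitions

`S` is a countable coded set of sets (`Cl S`), `U` a definable ultrafilter (`DU S U`). A point of a
coded space is coded if `Pt S x`; a point `x` of an abstract space `X` with a continuous injective
equivariant map `e : X → V` into a coded space is called coded if `Pt S (e x)`; a measure on `X` is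
called coded if its image under `e` is (`Pm`).
-/

set_option autoImplicit false

namespace Pool.Agent.Work.MP_69fea5_lc.W3

open MeasureTheory Topology Set Filter TopologicalSpace ProbabilityTheory
open scoped NNReal ENNReal
open Pool.Agent.Work.MP_69fea5_lc.AK
open Pool.Agent.Work.MP_69fea5_lc.HK (Cl DU Ar ArF ArR Dat Law LawC act near sc Pt oc Mn mr ext)
open Pool.Agent.Work.MP_69fea5_lc.KC (Agree)

/-- the coordinates different from `j` are coded -/
instance primcodableOth {n : ℕ} (j : Fin n) : Primcodable (Oth j) :=
  Primcodable.subtype (p := fun i : Fin n => i ≠ j)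
    (PrimrecPred.not (Primrec.eq.comp Primrec.id (Primrec.const j)))

/-- the image of the measure `μ` under `f` is coded -/
def Pm (S : Set (Set ℕ)) {α V : Type} [MeasurableSpace α] [TopologicalSpace V]
    [MeasurableSpace V] [Dat (ProbabilityMeasure V)] (f : α → V) (μ : Measure α) : Prop :=
  ∃ ν : ProbabilityMeasure V, (ν : Measure V) = μ.map f ∧ Pt S ν

/-- continuous injective equivariant maps -/
structure Emb {X V : Type} [TopologicalSpace X] [Sys X] [TopologicalSpace V] [Sys V]
    (e : X → V) : Prop where
  cont : Continuous e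
  inj : Function.Injective e
  equi : ∀ (m : ℤ) (x : X), e (sh m x) = sh m (e x)

/-- The coded level: `X` is the position space, `π` the position, `w₀ ∈ M` a coded point. The maps
`r 0, …, r h` into a cube are coded at the position of `w₀`; their fibres are the classes of a tower
of isometric steps; `r h` is injective. -/
structure CLv (S : Set (Set ℕ)) {k : ℕ} (M : Set (Om k)) (w₀ : Om k) {X : Type}
    [TopologicalSpace X] [MeasurableSpace X] [CS X] [Sys X] (π : Om k → X) {I : Type}
    [Primcodable I] (h : ℕ) (r : ℕ → X → Cube I) (ρ : ℕ → X → X → ℝ) : Prop where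
  po : Po M π
  mem : w₀ ∈ M
  ptw : Pt S w₀
  cont : ∀ l ≤ h, Continuous (r l)
  equi : ∀ l ≤ h, ∀ (m : ℤ) (x : X), r l (sh m x) = sh m (r l x)
  pt : ∀ l ≤ h, Pt S (r l (π w₀))
  tow : W3D.Tow h (fun l x y => r l x = r l y) ρ

/-- the constant configuration -/
def dg {F X : Type} [TopologicalSpace X] [Sys X] (L : AddSubgroup (F → ℤ)) (x : X) :
    W3D.NN X L :=
  ⟨fun _ => x, subset_closure ⟨0, L.zero_mem, x, (W3D.shF_zero _).symm⟩⟩

/-! ### Polynomials in the test functions -/

section pol

variable {V : Type} [TopologicalSpace V] [Dat V] [TF V]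

/-- codes of the functions `∑ (a - b) / (q + 1) * fn i` -/
abbrev Pcd (V : Type) [TopologicalSpace V] [Dat V] [TF V] : Type :=
  List ((ℕ × ℕ × ℕ) × TF.ι V)

/-- the function with the code `c` -/
noncomputable def pev (c : Pcd V) (x : V) : ℝ :=
  (c.map fun t => ((t.1.1 : ℝ) - t.1.2.1) / (t.1.2.2 + 1) * TF.fn t.2 x).sum

end pol

end Pool.Agent.Work.MP_69fea5_lc.W3
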