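import Pool.Agent.Work.MP_69fea5_lc.W3.DefsQ

/-!
# Block [69fea5 W3 Q]: the 0-1 law on the minimal system itself (section 3 of note 3799)

Every item is a theorem `XXX_pf (h1 : S_A) (h2 : S_B) ... : S_XXX` in its own file `W3/I_XXX.lean`
(namespace as here); the hypotheses may be any statements of EARLIER items in this file, statements
of `W3/StmtsG.lean`, or `AK.S_...` (all independent; do not wait for them).
The docstrings contain complete proofs. Notation: `Λ = lif η P` (law of a tuple of points),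
`μ = lam.bind η`, `κ_w = kap π η K j w`, `s u = (T (u i))_i`, `C = CC n π`; `Sn F e` means
`∫ |F| dκ_w ≤ e` for all `j` and `w`.
-/

set_option autoImplicit false

namespace Pool.Agent.Work.MP_69fea5_lc.W3

open MeasureTheory ProbabilityTheory Topology Set Filter TopologicalSpace
open scoped NNReal ENNReal
open Pool.Agent.Work.MP_69fea5_lc.AK

/-! ## Lifts -/

/-- [QPW] product measures. (1) marginals along an injective map `e` of the indices. (2) `w` on `B`
and `v` outside of `B`. (3) the joint law of `(W ∘ e, W ∘ f)` if `e` is injective, `f = e` on `B`, and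
`f` is injective outside of `B` with values there outside of the range of `e`. (4) overwriting the
coordinates `e i`. (5) functions which depend only on the coordinates in `D` do not see the other
factors. Proof: by `Measure.pi_eq` it is enough to compute the measure of boxes; (3): (1) for the map
`Sum.elim e f` on the disjoint union of `V'` and of the complement of `B`, then both sides are images
of one product measure. -/
def S_QPW : Prop := ∀ (O V V' : Type) [MeasurableSpace O] [Fintype V] [Fintype V'],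
  (∀ e : V' → V, Function.Injective e → ∀ μ : V → Measure O, (∀ a, IsProbabilityMeasure (μ a)) →
    (Measure.pi μ).map (fun (u : V → O) i => u (e i)) = Measure.pi fun i => μ (e i)) ∧
  (∀ (B : Set V) (μ ν : V → Measure O), (∀ a, IsProbabilityMeasure (μ a)) →
    (∀ a, IsProbabilityMeasure (ν a)) →
    ((Measure.pi μ).prod (Measure.pi ν)).map (fun p => pw B p.1 p.2) = Measure.pi (pw B μ ν)) ∧
  (∀ (e f : V' → V) (B : Set V'), Function.Injective e → (∀ i ∈ B, f i = e i) →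
    (∀ i, i ∉ B → ∀ i', f i ≠ e i') → (∀ i, i ∉ B → ∀ i', i' ∉ B → f i = f i' → i = i') →
    ∀ μ : V → Measure O, (∀ a, IsProbabilityMeasure (μ a)) →
    (Measure.pi μ).map (fun W : V → O => ((fun i => W (e i) : V' → O), fun i : V' => W (f i))) =
      ((Measure.pi fun i => μ (e i)).prod (Measure.pi fun i => μ (f i))).map
        fun p => (p.1, pw B p.1 p.2)) ∧
  (∀ e : V' → V, Function.Injective e → ∀ μ : V → Measure O, (∀ a, IsProbabilityMeasure (μ a)) →
    ((Measure.pi fun i => μ (e i)).prod (Measure.pi μ)).map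
      (fun p => Function.extend e p.1 p.2) = Measure.pi μ) ∧
  (∀ (D : Set V) (μ ν : V → Measure O), (∀ a, IsProbabilityMeasure (μ a)) →
    (∀ a, IsProbabilityMeasure (ν a)) → (∀ a ∈ D, μ a = ν a) → ∀ G : (V → O) → ℝ, Measurable G →
    Dep D G → ∫ u, G u ∂Measure.pi μ = ∫ u, G u ∂Measure.pi ν)

/-- [QFM] measurability of the products, values and integrals of lifts. (The measurability of
`z ↦ Measure.pi (η (z i))`: on boxes it is a finite product of measurable functions; induction on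
the pi-system of boxes, `Measure.pi_pi`, `generateFrom_pi`.) -/
def S_QFM : Prop := ∀ (X O ι : Type) [MeasurableSpace X] [MeasurableSpace O] [Fintype ι]
  (η : Kernel X O) [IsMarkovKernel η],
  (Measurable fun z : ι → X => Measure.pi fun i => η (z i)) ∧
  (∀ Q : Measure (ι → X), IsProbabilityMeasure Q → IsProbabilityMeasure (lif η Q)) ∧
  (∀ (Q : Measure (ι → X)) (B : Set (ι → O)), MeasurableSet B →
    lif η Q B = ∫⁻ z, (Measure.pi fun i => η (z i)) B ∂Q) ∧
  (∀ Q : Measure (ι → X), IsFiniteMeasure Q → ∀ G : (ι → O) → ℝ, Measurable G → Bd G →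
    (Measurable fun z : ι → X => ∫ u, G u ∂Measure.pi fun i => η (z i)) ∧
    ∫ u, G u ∂lif η Q = ∫ z, ∫ u, G u ∂(Measure.pi fun i => η (z i)) ∂Q) ∧
  (∀ (Q : Measure (ι → X)) (B : Set (ι → O)), MeasurableSet B →
    ((∀ᵐ u ∂lif η Q, u ∈ B) ↔ ∀ᵐ z ∂Q, ∀ᵐ u ∂(Measure.pi fun i => η (z i)), u ∈ B)) ∧
  (∀ (z : ι → X) (D : Finset ι) (g : ι → O → ℝ), (∀ i, Measurable (g i)) → (∀ i, Bd (g i)) →
    ∫ u, ∏ i ∈ D, g i (u i) ∂(Measure.pi fun i => η (z i)) = ∏ i ∈ D, ∫ w, g i w ∂η (z i))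

/-- [QFN] lifts are natural for injective maps of the indices (`S_QPW` (1)) and monotone. -/
def S_QFN : Prop := ∀ (X O ι : Type) [MeasurableSpace X] [MeasurableSpace O] [Fintype ι]
  (η : Kernel X O) [IsMarkovKernel η],
  (∀ (ι' : Type) [Fintype ι'] (e : ι' → ι), Function.Injective e → ∀ Q : Measure (ι → X),
    (lif η Q).map (fun u i => u (e i)) = lif η (Q.map fun z i => z (e i))) ∧
  (∀ (Q Q' : Measure (ι → X)) (c : ℝ≥0), Q ≤ c • Q' → lif η Q ≤ c • lif η Q')

/-- [QFD] (1) the coordinates in `D`, whose positions have laws `≤ c lam`, have almost surely the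
given positions (`Lft.pos` holds for `z i`, `i ∈ D`, for `Q`-almost all `z`; then use that the
coordinate `i` of the product measure has the law `η (z i)`). (2) equivariance: for `Q`-almost all
`z` the measures `η (T^m (z i))` and the image of `η (z i)` under `T^m` agree for all `i ∈ D`
(`Lft.inv`), and `G` does not see the other coordinates (`S_QPW` (5)); the image of a product measure
is the product of the images. -/
def S_QFD : Prop := ∀ (X O ι : Type) [TopologicalSpace X] [MeasurableSpace X] [CS X] [Sys X]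
  [TopologicalSpace O] [MeasurableSpace O] [CS O] [Sys O] [Fintype ι] (π : O → X)
  (lam : Measure X) (η : Kernel X O), Lft π lam η → ∀ (c : ℝ≥0) (D : Finset ι)
  (Q : Measure (ι → X)), IsProbabilityMeasure Q →
  (∀ i ∈ D, Q.map (fun z => z i) ≤ c • lam) →
  (∀ᵐ z ∂Q, ∀ᵐ u ∂(Measure.pi fun i => η (z i)), ∀ i ∈ D, π (u i) = z i) ∧
  ∀ G : (ι → O) → ℝ, Measurable G → Bd G → Dep (D : Set ι) G → ∀ m : ℤ,
    ∫ u, G u ∂lif η (Q.map fun z i => sh m (z i)) = ∫ u, G (fun i => sh m (u i)) ∂lif η Q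

/-- [QSW] Stone-Weierstrass: continuous functions of the coordinates in `D` are uniform limits of
linear combinations of products. (These combinations are a subalgebra of `C(D → O, ℝ)` which
separates the points.) -/
def S_QSW : Prop := ∀ (O ι : Type) [TopologicalSpace O] [CompactSpace O] [MetrizableSpace O]
  [Fintype ι] (D : Finset ι) (G : (ι → O) → ℝ), Continuous G → Dep (D : Set ι) G →
  ∀ ε : ℝ, 0 < ε → ∃ (m : ℕ) (a : Fin m → ℝ) (g : Fin m → ι → O → ℝ),
    (∀ l i, Continuous (g l i)) ∧ ∀ u, |G u - ∑ l, a l * ∏ i ∈ D, g l i (u i)| ≤ ε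

/-- [QSC] STRONG CONTINUITY. If the laws `Q b` of the positions are continuous in `b` and the
coordinates in `D` have laws `≤ c lam`, then the integrals of `G b`, a function of the coordinates in
`D`, over the lifts are continuous in `b`.
Proof. Fix `b₀ ∈ s`. By compactness of `ι → O`, `G b → G b₀` uniformly as `b → b₀` in `s`; so we may
take `G b = G b₀ =: G`. By `S_QSW` (uniform approximation, linearity) we may take
`G u = ∏ i ∈ D, g i (u i)`, `|g i| ≤ 1` after scaling. By `S_QFM` the integral is `∫ ∏ i ∈ D, a i (z i) dQ b (z)`, `a i x = ∫ g i dη x`, a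
measurable function with values in `[-1, 1]`. Given `ε` choose continuous `h i : X → [-1, 1]` with
`∫ |a i - h i| dlam ≤ ε` (density of the continuous functions in `L¹(lam)`, truncation). Then for all
`b ∈ s` the error is `≤ ∑ i ∈ D, ∫ |a i - h i| (z i) dQ b (z) ≤ |D| c ε`, and
`b ↦ ∫ ∏ i ∈ D, h i (z i) dQ b` is continuous. -/
def S_QSC : Prop := ∀ (X O ι B : Type) [TopologicalSpace X] [MeasurableSpace X] [CS X]
  [TopologicalSpace O] [MeasurableSpace O] [CS O] [Fintype ι] [TopologicalSpace B]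
  (η : Kernel X O) [IsMarkovKernel η] (lam : Measure X) [IsProbabilityMeasure lam] (c : ℝ≥0)
  (D : Finset ι) (s : Set B) (Q : B → ProbabilityMeasure (ι → X)) (G : B → (ι → O) → ℝ),
  ContinuousOn Q s →
  (∀ b ∈ s, ∀ i ∈ D, (Q b : Measure (ι → X)).map (fun z => z i) ≤ c • lam) →
  ContinuousOn (fun p : B × (ι → O) => G p.1 p.2) (s ×ˢ univ) →
  (∀ b ∈ s, Dep (D : Set ι) (G b)) →
  ContinuousOn (fun b => ∫ u, G b u ∂lif η (Q b : Measure (ι → X))) s

/-- [QET] disintegration of an invariant measure over the positions. (`η` is the conditional kernel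
of the law of `(π w, w)`; `O` is standard Borel; the image of `η` under `T^m` is a version of
`η ∘ T^m` by the uniqueness of conditional kernels.) -/
def S_QET : Prop := ∀ (X O : Type) [TopologicalSpace X] [MeasurableSpace X] [CS X] [Sys X]
  [TopologicalSpace O] [MeasurableSpace O] [CS O] [Sys O] (π : O → X) (μ : Measure O),
  Continuous π → (∀ (m : ℤ) (w : O), π (sh m w) = sh m (π w)) → IsProbabilityMeasure μ →
  (∀ m : ℤ, μ.map (sh m) = μ) → ∃ η : Kernel X O, Lft π (μ.map π) η ∧ (μ.map π).bind η = μ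

/-! ## Tuples of points over progressions -/

/-- [QK1] basic facts on the laws `kap`. (4) equivariance: `S_QFD` (2) for `D = univ \ {j}`,
`Q = K j (π w)`, `CLaw.equi`, and the function `u ↦ G (update u j (sh m w))`. (5) disintegration of
`Λ` over the coordinate `j`: by `CLaw.dis` `Λ` is the mixture over `x` (law `lam`) and `z` (law
`K j x`) of the product measures; `z j = x` (`CLaw.car`), so the coordinate `j` has the law `η x` and is
independent of the others given `z`; for almost all `x` almost all `w` (law `η x`) have `π w = x`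
(`Lft.pos`), so the law of the tuple given `w` is `kap j w`. (2): `S_QFD` (1) and `CLaw.car`. -/
def S_QK1 : Prop := ∀ (X O : Type) [TopologicalSpace X] [MeasurableSpace X] [CS X] [Sys X]
  [TopologicalSpace O] [MeasurableSpace O] [CS O] [Sys O] (n : ℕ) (π : O → X) (lam : Measure X)
  (η : Kernel X O) (c : ℝ≥0) (P : Measure (Fin n → X))
  (K : Fin n → X → ProbabilityMeasure (Fin n → X)), Lft π lam η → CLaw n lam c P K →
  (∀ j w, IsProbabilityMeasure (kap π η K j w)) ∧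
  (∀ j w, ∀ᵐ u ∂kap π η K j w, u j = w ∧ u ∈ CC n π) ∧
  (∀ j w (G : (Fin n → O) → ℝ), Measurable G → ∫ u, G u ∂kap π η K j w =
    ∫ u, G (Function.update u j w) ∂lif η (K j (π w) : Measure (Fin n → X))) ∧
  (∀ j w (m : ℤ), kap π η K j (sh m w) = (kap π η K j w).map fun u i => sh m (u i)) ∧
  (∀ j (G : (Fin n → O) → ℝ), Measurable G → Bd G →
    (Measurable fun w => ∫ u, G u ∂kap π η K j w) ∧
    ∫ w, ∫ u, G u ∂kap π η K j w ∂(lam.bind η) = ∫ u, G u ∂lif η P) ∧
  (IsProbabilityMeasure (lif η P) ∧ ∀ᵐ u ∂lif η P, u ∈ CC n π) ∧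
  (IsProbabilityMeasure (lam.bind η) ∧ ∀ m : ℤ, (lam.bind η).map (sh m) = lam.bind η) ∧
  (IsClosed (CC n π) ∧ ∀ u ∈ CC n π, ∀ m : ℤ, (fun i => sh m (u i)) ∈ CC n π)

/-- [QK2] continuity: `S_QSC` for `D = univ \ {j}`, `Q = K j ∘ π`, `G w u = g (update u j w)`, and for
pairs of points with the same position. -/
def S_QK2 : Prop := ∀ (X O : Type) [TopologicalSpace X] [MeasurableSpace X] [CS X] [Sys X]
  [TopologicalSpace O] [MeasurableSpace O] [CS O] [Sys O] (n : ℕ) (π : O → X) (lam : Measure X)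
  (η : Kernel X O) (c : ℝ≥0) (P : Measure (Fin n → X))
  (K : Fin n → X → ProbabilityMeasure (Fin n → X)), Lft π lam η → CLaw n lam c P K →
  ∀ g : (Fin n → O) → ℝ, Continuous g → ∀ j,
  (Continuous fun w => ∫ u, g u ∂kap π η K j w) ∧
  ContinuousOn (fun q : O × O => ∫ u, |g (Function.update u j q.1) - g (Function.update u j q.2)|
    ∂lif η (K j (π q.1) : Measure (Fin n → X))) {q | π q.1 = π q.2}

/-- [QK3] for a continuous function `g` which is invariant on `C` the integrals over the `kap j w` are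
one constant, `∫ g dΛ` (continuous by `S_QK2`, invariant by `S_QK1` (4), (2); `O` is minimal; the mean
over `μ` is `∫ g dΛ`). -/
def S_QK3 : Prop := ∀ (X O : Type) [TopologicalSpace X] [MeasurableSpace X] [CS X] [Sys X]
  [TopologicalSpace O] [MeasurableSpace O] [CS O] [Sys O] (n : ℕ) (π : O → X) (lam : Measure X)
  (η : Kernel X O) (c : ℝ≥0) (P : Measure (Fin n → X))
  (K : Fin n → X → ProbabilityMeasure (Fin n → X)), MinSet (univ : Set O) → Lft π lam η →
  CLaw n lam c P K → ∀ g : (Fin n → O) → ℝ, Continuous g →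
  (∀ u ∈ CC n π, g (fun i => sh 1 (u i)) = g u) → ∀ j w,
    ∫ u, g u ∂kap π η K j w = ∫ u, g u ∂lif η P

/-- [QUC] a uniform Cauchy sequence of continuous functions on a minimal system which are more and
more invariant and have means tending to `0` tends to `0` uniformly. (The limit is continuous and
invariant, so a constant.) -/
def S_QUC : Prop := ∀ (O : Type) [TopologicalSpace O] [MeasurableSpace O] [CS O] [Sys O]
  (μ : Measure O) [IsProbabilityMeasure μ] (a : ℕ → O → ℝ), MinSet (univ : Set O) →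
  (∀ k, Continuous (a k)) →
  (∀ ε : ℝ, 0 < ε → ∃ N, ∀ k, N ≤ k → ∀ l, N ≤ l → ∀ w, |a k w - a l w| ≤ ε) →
  (∀ ε : ℝ, 0 < ε → ∃ N, ∀ k, N ≤ k → ∀ w, |a k (sh 1 w) - a k w| ≤ ε) →
  Tendsto (fun k => ∫ w, a k w ∂μ) atTop (𝓝 0) →
  ∀ ε : ℝ, 0 < ε → ∃ N, ∀ k, N ≤ k → ∀ w, |a k w| ≤ ε

/-- [QDI] REGULARITY. Let `R` be closed and invariant, `G k` continuous functions, `0 ≤ G k ≤ 1`,
decreasing to the indicator of `R` (`thickenedIndicator`; running minimum). `a k w = ∫ G k dκ_w` is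
continuous (`S_QK2`) and decreases to `r w = κ_w (R)`; `r (T^m w) = r w` by `S_QK1` (4) and the
invariance of `R` under all `T^m`; `r` is upper semicontinuous (an infimum of continuous functions)
and invariant on the minimal system `O`, so it is a constant. Dini: `a k → r` uniformly; and
`∫ |G k - 1_R| dκ_w = a k w - r w`. -/
def S_QDI : Prop := ∀ (X O : Type) [TopologicalSpace X] [MeasurableSpace X] [CS X] [Sys X]
  [TopologicalSpace O] [MeasurableSpace O] [CS O] [Sys O] (n : ℕ) (π : O → X) (lam : Measure X)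
  (η : Kernel X O) (c : ℝ≥0) (P : Measure (Fin n → X))
  (K : Fin n → X → ProbabilityMeasure (Fin n → X)), MinSet (univ : Set O) → Lft π lam η →
  CLaw n lam c P K → ∀ R : Set (Fin n → O), IsClosed R →
  (∀ (m : ℤ), ∀ u ∈ R, (fun i => sh m (u i)) ∈ R) →
  ∃ G : ℕ → (Fin n → O) → ℝ, (∀ k, Continuous (G k)) ∧ (∀ k u, 0 ≤ G k u ∧ G k u ≤ 1) ∧
    ∀ ε : ℝ, 0 < ε → ∃ N, ∀ k, N ≤ k → Sn π η K (fun u => G k u - R.indicator 1 u) ε

/-- [QIS] the class `ISO` is an algebra, closed under truncation (take the sum of the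
pseudometrics). -/
def S_QIS : Prop := ∀ (X O : Type) [TopologicalSpace X] [MeasurableSpace X] [CS X] [Sys X]
  [TopologicalSpace O] [MeasurableSpace O] [CS O] [Sys O] (n : ℕ) (π : O → X),
  (∀ a : ℝ, ISO n π fun _ => a) ∧
  (∀ g h, ISO n π g → ISO n π h → ISO n π (fun u => g u + h u) ∧ ISO n π fun u => g u * h u) ∧
  (∀ g, ISO n π g → (∀ a : ℝ, ISO n π fun u => a * g u) ∧
    ISO n π (fun u => max 0 (min 1 (g u))) ∧ Bd g)

/-! ## The dual function -/

/-- [QD1] laws of the chains of the cube over a tuple `u ∈ C`. (1) vertices `a = (j, s)`, `s ≠ ∅`: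
if `2 ≤ |s|` then `a = ch s j`, `QLaw.two`, and the coordinate `j` of `P` has the law `lam`
(`CLaw.dis`, `CLaw.car`); if `s = {i}`, `i ≠ j`, then `QLaw.one` and `CLaw.dom`. (2) `ch {j} i` is
`(i, {j})` for `i ≠ j` and `(j, ∅)` for `i = j`: the chain is `update (W ∘ ch {j}) j (u j)`; `S_QFN`
(`ch {j}` is injective) and `QLaw.one`. (3) all vertices of the chain `s` are `(i, s.erase i)` with
`s.erase i ≠ ∅`, so `u` is not used; `S_QFN`, `QLaw.two`. (4) from (2), (3), `S_QK1` (2), (6), and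
`ovw u W (ch ∅ j) = u j`. -/
def S_QD1 : Prop := ∀ (X O : Type) [TopologicalSpace X] [MeasurableSpace X] [CS X] [Sys X]
  [TopologicalSpace O] [MeasurableSpace O] [CS O] [Sys O] (n : ℕ) (π : O → X) (lam : Measure X)
  (η : Kernel X O) (c : ℝ≥0) (P : Measure (Fin n → X))
  (K : Fin n → X → ProbabilityMeasure (Fin n → X)) (Pc : Measure (Vx n → X))
  (Kc : (Fin n → X) → ProbabilityMeasure (Vx n → X)), Lft π lam η → CLaw n lam c P K →
  QLaw n lam c P K Pc Kc →
  (∀ y ∈ PG n X, ∀ a : Vx n, a.1.2 ≠ ∅ →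
    (Kc y : Measure (Vx n → X)).map (fun z => z a) ≤ c • lam) ∧
  (∀ u ∈ CC n π, ∀ j : Fin n, (lif η (Kc (fun i => π (u i)) : Measure (Vx n → X))).map
    (fun W i => ovw u W (ch {j} i)) = kap π η K j (u j)) ∧
  (∀ u ∈ CC n π, ∀ s : Finset (Fin n), 2 ≤ s.card →
    (lif η (Kc (fun i => π (u i)) : Measure (Vx n → X))).map
      (fun W i => ovw u W (ch s i)) ≤ c • lif η P) ∧
  (∀ u ∈ CC n π, ∀ᵐ W ∂(lif η (Kc (fun i => π (u i)) : Measure (Vx n → X))),
    ∀ s : Finset (Fin n), (fun i => ovw u W (ch s i)) ∈ CC n π)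

/-- [QD2] the dual function of a continuous function is continuous on `C` (`S_QSC` for
`Q u = Kc (π ∘ u)`, `D` = the vertices `(j, s)` with `s ≠ ∅`, `G u W = prC F (ovw u W)`, and `S_QD1`
(1)). -/
def S_QD2 : Prop := ∀ (X O : Type) [TopologicalSpace X] [MeasurableSpace X] [CS X] [Sys X]
  [TopologicalSpace O] [MeasurableSpace O] [CS O] [Sys O] (n : ℕ) (π : O → X) (lam : Measure X)
  (η : Kernel X O) (c : ℝ≥0) (P : Measure (Fin n → X))
  (K : Fin n → X → ProbabilityMeasure (Fin n → X)) (Pc : Measure (Vx n → X))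
  (Kc : (Fin n → X) → ProbabilityMeasure (Vx n → X)), Lft π lam η → CLaw n lam c P K →
  QLaw n lam c P K Pc Kc → ∀ F : (Fin n → O) → ℝ, Continuous F →
  ContinuousOn (dua π η Kc F) (CC n π) ∧
  ((∀ u, |F u| ≤ 1) → ∀ u, |dua π η Kc F u| ≤ 1)

/-- [QD3] (1) the dual function is Lipschitz for the norm of `Sn`: `|∏ a_s - ∏ b_s| ≤ ∑ |a_s - b_s|`
for numbers in `[-1, 1]`; the chains `{j}` contribute at most `e` (`S_QD1` (2)), the at most `2 ^ n`
chains with `2 ≤ |s|` at most `c ∫ |F - F'| dΛ ≤ c e` (`S_QD1` (3), `S_QK1` (5)). (2) equivariance: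
`QLaw.equi` and `S_QFD` (2) for the vertices `(j, s)`, `s ≠ ∅` (`S_QD1` (1)). -/
def S_QD3 : Prop := ∀ (X O : Type) [TopologicalSpace X] [MeasurableSpace X] [CS X] [Sys X]
  [TopologicalSpace O] [MeasurableSpace O] [CS O] [Sys O] (n : ℕ) (π : O → X) (lam : Measure X)
  (η : Kernel X O) (c : ℝ≥0) (P : Measure (Fin n → X))
  (K : Fin n → X → ProbabilityMeasure (Fin n → X)) (Pc : Measure (Vx n → X))
  (Kc : (Fin n → X) → ProbabilityMeasure (Vx n → X)), 0 < n → Lft π lam η → CLaw n lam c P K →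
  QLaw n lam c P K Pc Kc →
  (∀ (F F' : (Fin n → O) → ℝ) (e : ℝ), Measurable F → Measurable F' → (∀ u, |F u| ≤ 1) →
    (∀ u, |F' u| ≤ 1) → Sn π η K (fun u => F u - F' u) e → ∀ u ∈ CC n π,
    |dua π η Kc F u - dua π η Kc F' u| ≤ (n + 2 ^ n * c) * e) ∧
  ∀ F : (Fin n → O) → ℝ, Measurable F → Bd F → ∀ u ∈ CC n π,
    dua π η Kc F (fun i => sh 1 (u i)) = dua π η Kc (fun u => F fun i => sh 1 (u i)) u

/-- [QD4] how the dual function depends on `u` over the same positions: both sides are integrals over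
the same law of `W`; the factors of the chains with `2 ≤ |s|` do not depend on `u`, the factor of the
chain `{j}` is `F (update (W ∘ ch {j}) j (u j))`; `S_QFN`, `QLaw.one`. -/
def S_QD4 : Prop := ∀ (X O : Type) [TopologicalSpace X] [MeasurableSpace X] [CS X] [Sys X]
  [TopologicalSpace O] [MeasurableSpace O] [CS O] [Sys O] (n : ℕ) (π : O → X) (lam : Measure X)
  (η : Kernel X O) (c : ℝ≥0) (P : Measure (Fin n → X))
  (K : Fin n → X → ProbabilityMeasure (Fin n → X)) (Pc : Measure (Vx n → X))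
  (Kc : (Fin n → X) → ProbabilityMeasure (Vx n → X)), Lft π lam η → CLaw n lam c P K →
  QLaw n lam c P K Pc Kc → ∀ F : (Fin n → O) → ℝ, Measurable F → (∀ u, |F u| ≤ 1) →
  ∀ u ∈ CC n π, ∀ u' ∈ CC n π, (∀ i, π (u i) = π (u' i)) →
  |dua π η Kc F u - dua π η Kc F u'| ≤ ∑ j, ∫ V, |F (Function.update V j (u j)) -
    F (Function.update V j (u' j))| ∂lif η (K j (π (u j)) : Measure (Fin n → X))

/-- [QDU] the dual function as a conditional expectation. `Pc` is the mixture of the `Kc y`, `y` with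
the law `P` (`QLaw.dis`). Given `y` and `z` (law `Kc y`), `z (ch ∅ j) = y j`; by `S_QPW` (4) the product
measure of the `η (z a)` is the law of `ovw u W`, `u` with the product law of the `η (y j)`, `W`
independent of `u` (`ovw u W = Function.extend (ch ∅) u W`). For almost all `y` and almost all `u`
`π ∘ u = y` (`S_QFD` (1) for `P`), so the integral over `z` and `W` is `F u * dua F u`. -/
def S_QDU : Prop := ∀ (X O : Type) [TopologicalSpace X] [MeasurableSpace X] [CS X] [Sys X]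
  [TopologicalSpace O] [MeasurableSpace O] [CS O] [Sys O] (n : ℕ) (π : O → X) (lam : Measure X)
  (η : Kernel X O) (c : ℝ≥0) (P : Measure (Fin n → X))
  (K : Fin n → X → ProbabilityMeasure (Fin n → X)) (Pc : Measure (Vx n → X))
  (Kc : (Fin n → X) → ProbabilityMeasure (Vx n → X)), Lft π lam η → CLaw n lam c P K →
  QLaw n lam c P K Pc Kc → ∀ F : (Fin n → O) → ℝ, Continuous F →
  ∫ W, ∏ s : Finset (Fin n), F (fun j => W (ch s j)) ∂lif η Pc =
    ∫ u, F u * dua π η Kc F u ∂lif η P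

/-! ## Cauchy-Schwarz -/

/-- [QC1] one Cauchy-Schwarz step. Proof. `P₂ = P ⊗ₘ κ`, `P₃ = P ⊗ₘ (κ ×ₖ κ)`; `Dbl.sym` gives
`P₃.map (·.2.1) = P₂.map fst = P` and `P₃.map (·.2.1) = (P ⊗ₘ κ).map snd`, so the second marginal of
`P₂` is `P` too. Write `w ~ x` for `w` with the law `Measure.pi (η (x a))`, and `(w|v) = pw B w v`.
For `P₂`-almost all `(x, y)` we have `y = x` on `B` (`Dbl.fix`), so `(w|v) ~ y` for `w ~ x`, `v ~ y`
(`S_QPW` (2)). Put `h x w = ∫ y ∂κ x, ∫ (v ~ y), G (w|v)`. As `φ (w|v) = φ w`,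
`∫ φ G dlif η P = ∫ (x, y) ∂P₂, ∫ (u ~ y), φ u G u = ∫ x ∂P, ∫ (w ~ x), φ w h x w`, and by
Cauchy-Schwarz its square is `≤ ∫ x ∂P, ∫ (w ~ x), (h x w)²
= ∫ (x, y, z) ∂P₃, ∫ (w ~ x), ∫ (v ~ y), ∫ (v' ~ z), G (w|v) G (w|v')`. Since `(w|v') = ((w|v)|v')`
and `(w|v) ~ y`, this is `∫ (y, z) ∂(P₃.map snd), ∫ (w ~ y), ∫ (v' ~ z), G w G (w|v')`, and
`P₃.map snd = P ⊗ₘ κ` by `Dbl.sym`. -/
def S_QC1 : Prop := ∀ (X O V : Type) [TopologicalSpace X] [MeasurableSpace X] [CS X]
  [MeasurableSpace O] [Fintype V] (η : Kernel X O) [IsMarkovKernel η] (B : Set V)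
  (P : Measure (V → X)) [IsProbabilityMeasure P] (κ : Kernel (V → X) (V → X)), Dbl B P κ →
  ∀ G φ : (V → O) → ℝ, Measurable G → Bd G → Measurable φ → (∀ u, |φ u| ≤ 1) → Dep B φ →
  (∫ u, φ u * G u ∂lif η P) ^ 2 ≤
    ∫ p : (V → X) × (V → X), ∫ w, ∫ v, G w * G (pw B w v) ∂(Measure.pi fun a => η (p.2 a))
      ∂(Measure.pi fun a => η (p.1 a)) ∂(P ⊗ₘ κ)

/-- [QC2] the same for the cube, the subcube `S` and the direction `i ∉ S`. Proof: `G` and `φ` are
functions of the restriction of `W` to `VS n S` (`O` is not empty); `S_QFN` for the inclusion of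
`VS n S` in `Vx n`, `S_QC1` with the `κ` of `QLaw.ci`, `B` = the vertices with `a.1.1 = i`. In the
right-hand side replace `P_S ⊗ₘ κ` by the law of `(z restricted to VS n S, z ∘ mv i)`; for fixed `z`
use `S_QPW` (3) with `e` the inclusion and `f = mv i`: for `a = (j, s)`, `s ⊆ S`, `mv i a` is `a` if
`j = i` (as `i ∉ s`) and `(j, insert i s)`, not in `VS n S`, if `j ≠ i`. -/
def S_QC2 : Prop := ∀ (X O : Type) [TopologicalSpace X] [MeasurableSpace X] [CS X] [Sys X]
  [TopologicalSpace O] [MeasurableSpace O] [CS O] [Sys O] (n : ℕ) (lam : Measure X)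
  (η : Kernel X O) [IsMarkovKernel η] (c : ℝ≥0) (P : Measure (Fin n → X))
  (K : Fin n → X → ProbabilityMeasure (Fin n → X)) (Pc : Measure (Vx n → X))
  (Kc : (Fin n → X) → ProbabilityMeasure (Vx n → X)), QLaw n lam c P K Pc Kc →
  ∀ (S : Finset (Fin n)) (i : Fin n), i ∉ S → ∀ G φ : (Vx n → O) → ℝ, Measurable G → Bd G →
  Measurable φ → (∀ u, |φ u| ≤ 1) → Dep {a : Vx n | a.1.2 ⊆ S} G →
  Dep {a : Vx n | a.1.2 ⊆ S ∧ a.1.1 = i} φ →
  (∫ W, φ W * G W ∂lif η Pc) ^ 2 ≤ ∫ W, G W * G (fun a => W (mv i a)) ∂lif η Pc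

/-- [QC3] Cauchy-Schwarz `n` times. Claim for `S ⊆ Fin n`, by induction (`Finset.induction_on`):
`|∫ F(u) ∏ j, φ j (u j) dΛ| ^ (2 ^ |S|) ≤ |E S|`, where `E S = ∫ (∏ s ∈ S.powerset, F (W ∘ ch s)) *
∏ j ∈ Sᶜ, ∏ s ∈ S.powerset, φ j (W (ch s j)) dlif η Pc`. `S = ∅`: the chain `∅` has the law `Λ` (`S_QFN`
for `ch ∅`; the law of `z ∘ ch ∅` under `Pc` is `P` by `QLaw.dis`, `QLaw.car`). Step, `i ∉ S`: `S_QC2`
with `φ W = ∏ s ∈ S.powerset, φ i (W (ch s i))` (`ch s i = (i, s)`) and `G` the product of the other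
factors; `mv i (ch s j) = ch (insert i s) j` because
`(insert i (s.erase j)).erase j = (insert i s).erase j`; `Finset.prod_powerset_insert`. Then
`|E S| ^ 2 ≤ E (insert i S)`. -/
def S_QC3 : Prop := ∀ (X O : Type) [TopologicalSpace X] [MeasurableSpace X] [CS X] [Sys X]
  [TopologicalSpace O] [MeasurableSpace O] [CS O] [Sys O] (n : ℕ) (lam : Measure X)
  (η : Kernel X O) [IsMarkovKernel η] (c : ℝ≥0) (P : Measure (Fin n → X))
  (K : Fin n → X → ProbabilityMeasure (Fin n → X)) (Pc : Measure (Vx n → X))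
  (Kc : (Fin n → X) → ProbabilityMeasure (Vx n → X)), CLaw n lam c P K →
  QLaw n lam c P K Pc Kc → ∀ (F : (Fin n → O) → ℝ) (φ : Fin n → O → ℝ), Measurable F →
  (∀ u, |F u| ≤ 1) → (∀ j, Measurable (φ j)) → (∀ j w, |φ j w| ≤ 1) →
  |∫ u, F u * ∏ j, φ j (u j) ∂lif η P| ^ (2 ^ n) ≤
    |∫ W, ∏ s : Finset (Fin n), F (fun j => W (ch s j)) ∂lif η Pc|

/-! ## The theorem -/

/-- [QMN] a minimizing sequence. Let `d` be the infimum of `∫ (1_R - g)² dΛ`, `g` in `ISO`. Choose `g k`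
with values `→ d`; truncation (`S_QIS`) makes the distance smaller, so `0 ≤ g k ≤ 1`. By the
parallelogram law (`(g k + g l) / 2` is in `ISO`) `∫ (g k - g l)² dΛ ≤ 2 (..k..) + 2 (..l..) - 4 d → 0`,
so `∫ |g k - g l| dΛ → 0`, and this is `∫ |g k - g l| dκ_w` for all `j`, `w` by `S_QK3`. Orthogonality:
with `δ = ∫ (1_R - g k)² - d`, `b = ∫ (1_R - g k) h`, `H = ∫ h²` we have for every real `t`
`d ≤ ∫ (1_R - g k - t h)² = d + δ - 2 t b + t² H`; so `|b| ≤ δ / (2 t) + t H / 2` for all `t > 0`. -/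
def S_QMN : Prop := ∀ (X O : Type) [TopologicalSpace X] [MeasurableSpace X] [CS X] [Sys X]
  [TopologicalSpace O] [MeasurableSpace O] [CS O] [Sys O] (n : ℕ) (π : O → X) (lam : Measure X)
  (η : Kernel X O) (c : ℝ≥0) (P : Measure (Fin n → X))
  (K : Fin n → X → ProbabilityMeasure (Fin n → X)), MinSet (univ : Set O) → Lft π lam η →
  CLaw n lam c P K → ∀ R : Set (Fin n → O), IsClosed R →
  ∃ g : ℕ → (Fin n → O) → ℝ, (∀ k, ISO n π (g k)) ∧ (∀ k u, 0 ≤ g k u ∧ g k u ≤ 1) ∧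
    (∀ ε : ℝ, 0 < ε → ∃ N, ∀ k, N ≤ k → ∀ l, N ≤ l → Sn π η K (fun u => g k u - g l u) ε) ∧
    ∀ h, ISO n π h →
      Tendsto (fun k => ∫ u, (R.indicator 1 u - g k u) * h u ∂lif η P) atTop (𝓝 0)

/-- [QDL] the limit of the dual functions is in `ISO`. Proof. By `S_QD2` and `S_QD3` (1) the functions
`dua F_k` are continuous on the compact set `C` and uniformly Cauchy there: let `Δ` be a continuous
extension of their limit (Tietze). Invariance: `dua F_k (s u) - dua F_k u = dua (F_k ∘ s) u - dua F_k u`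
by `S_QD3` (2), and this is `≤ (n + 2^n c) e` by `S_QD3` (1) and the third hypothesis. For `π w = π w'`
put `D_k j w w' = ∫ |F_k (update V j w) - F_k (update V j w')| dlif η (K j (π w)) (V)`; it is continuous
in `(w, w')` (`S_QK2`), and `|D_k j w w' - D_l j w w'| ≤ ∫ |F_k - F_l| dκ_w + ∫ |F_k - F_l| dκ_w'`
(`S_QK1` (3)), so the limit `D j` exists, is continuous; it is a pseudometric, and it is invariant:
`D_k j (T w) (T w')` is the integral for `F_k ∘ s` instead of `F_k` (`S_QFD` (2)), which differs from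
`D_k j w w'` by at most `2 e` (third hypothesis); so `D j (T w) (T w') = D j w w'`, hence for all
powers of `T`. Put `ρ = ∑ j, D j`; `S_QD4` gives `|Δ u - Δ u'| ≤ ∑ j, D j (u j) (u' j)`. -/
def S_QDL : Prop := ∀ (X O : Type) [TopologicalSpace X] [MeasurableSpace X] [CS X] [Sys X]
  [TopologicalSpace O] [MeasurableSpace O] [CS O] [Sys O] (n : ℕ) (π : O → X) (lam : Measure X)
  (η : Kernel X O) (c : ℝ≥0) (P : Measure (Fin n → X))
  (K : Fin n → X → ProbabilityMeasure (Fin n → X)) (Pc : Measure (Vx n → X))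
  (Kc : (Fin n → X) → ProbabilityMeasure (Vx n → X)), 0 < n → Lft π lam η → CLaw n lam c P K →
  QLaw n lam c P K Pc Kc → ∀ F : ℕ → (Fin n → O) → ℝ, (∀ k, Continuous (F k)) →
  (∀ k u, |F k u| ≤ 1) →
  (∀ ε : ℝ, 0 < ε → ∃ N, ∀ k, N ≤ k → ∀ l, N ≤ l → Sn π η K (fun u => F k u - F l u) ε) →
  (∀ ε : ℝ, 0 < ε → ∃ N, ∀ k, N ≤ k → Sn π η K (fun u => F k (fun i => sh 1 (u i)) - F k u) ε) →
  ∃ Δ : (Fin n → O) → ℝ, ISO n π Δ ∧
    ∀ ε : ℝ, 0 < ε → ∃ N, ∀ k, N ≤ k → ∀ u ∈ CC n π, |dua π η Kc (F k) u - Δ u| ≤ ε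

/-- [QOR] if moreover the `F k` are more and more orthogonal to `ISO` then `∫ F_k² dΛ → 0`. Proof.
`∫ F_k Δ dΛ → 0`, so `∫ F_k dua F_k dΛ → 0` (`S_QDL`; `Λ` is carried by `C`), so by `S_QDU` and `S_QC3`
`∫ F_k ∏ j, φ j (u j) dΛ → 0` for all continuous `φ j`, `|φ j| ≤ 1`, hence for all continuous `φ j`, and
by `S_QSW` `∫ F_k Φ dΛ → 0` for all continuous `Φ`. Given `ε` let `N` be such that `∫ |F_k - F_l| dΛ ≤ ε`
for `k, l ≥ N` (`S_QK1` (5), `0 < n`), `l = N`: `∫ F_k² ≤ |∫ F_k F_l| + ∫ |F_k| |F_k - F_l|`, and the first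
term tends to `0`. -/
def S_QOR : Prop := ∀ (X O : Type) [TopologicalSpace X] [MeasurableSpace X] [CS X] [Sys X]
  [TopologicalSpace O] [MeasurableSpace O] [CS O] [Sys O] (n : ℕ) (π : O → X) (lam : Measure X)
  (η : Kernel X O) (c : ℝ≥0) (P : Measure (Fin n → X))
  (K : Fin n → X → ProbabilityMeasure (Fin n → X)) (Pc : Measure (Vx n → X))
  (Kc : (Fin n → X) → ProbabilityMeasure (Vx n → X)), 0 < n → Lft π lam η → CLaw n lam c P K →
  QLaw n lam c P K Pc Kc → ∀ F : ℕ → (Fin n → O) → ℝ, (∀ k, Continuous (F k)) →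
  (∀ k u, |F k u| ≤ 1) →
  (∀ ε : ℝ, 0 < ε → ∃ N, ∀ k, N ≤ k → ∀ l, N ≤ l → Sn π η K (fun u => F k u - F l u) ε) →
  (∀ ε : ℝ, 0 < ε → ∃ N, ∀ k, N ≤ k → Sn π η K (fun u => F k (fun i => sh 1 (u i)) - F k u) ε) →
  (∀ h, ISO n π h → Tendsto (fun k => ∫ u, F k u * h u ∂lif η P) atTop (𝓝 0)) →
  Tendsto (fun k => ∫ u, F k u ^ 2 ∂lif η P) atTop (𝓝 0)

/-- [QT3] THEOREM: every closed invariant set of tuples is a limit of functions in `ISO`, uniformly
over all points. Proof (`0 < n`; nothing to prove for `n = 0`). `G k` from `S_QDI`, `g k` from `S_QMN`,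
`F k = G k - g k`. `∫ |F_k - F_l| ≤ ∫ |G_k - 1_R| + ∫ |1_R - G_l| + ∫ |g_k - g_l|` for every `κ_w`.
`g_k (s u) = g_k u` on `C`; `∫ |G_k (s u) - 1_R (s u)| dκ_w = ∫ |G_k - 1_R| dκ_(T w)` (`S_QK1` (4)) and
`1_R (s u) = 1_R u`; so `F_k ∘ s - F_k` is small. `∫ F_k h dΛ = ∫ (G_k - 1_R) h dΛ + ∫ (1_R - g_k) h dΛ → 0`
(`S_QK1` (5); `h` is bounded). By `S_QOR` `∫ F_k² dΛ → 0`. The functions `a_k w = ∫ F_k² dκ_w` are
continuous (`S_QK2`), uniformly Cauchy (`|F_k² - F_l²| ≤ 2 |F_k - F_l|`), almost invariant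
(`|a_k (T w) - a_k w| ≤ 2 ∫ |F_k ∘ s - F_k| dκ_w`), with means `∫ F_k² dΛ → 0`: by `S_QUC` they tend to
`0` uniformly (`μ = lam.bind η`, `S_QK1` (5), (7)). Finally
`(1_R - g_k)² ≤ 2 (1_R - G_k)² + 2 F_k² ≤ 2 |1_R - G_k| + 2 F_k²`. -/
def S_QT3 : Prop := ∀ (X O : Type) [TopologicalSpace X] [MeasurableSpace X] [CS X] [Sys X]
  [TopologicalSpace O] [MeasurableSpace O] [CS O] [Sys O] (n : ℕ) (π : O → X) (lam : Measure X)
  (η : Kernel X O) (c : ℝ≥0) (P : Measure (Fin n → X))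
  (K : Fin n → X → ProbabilityMeasure (Fin n → X)) (Pc : Measure (Vx n → X))
  (Kc : (Fin n → X) → ProbabilityMeasure (Vx n → X)), MinSet (univ : Set O) → Lft π lam η →
  CLaw n lam c P K → QLaw n lam c P K Pc Kc → ∀ R : Set (Fin n → O), IsClosed R →
  (∀ (m : ℤ), ∀ u ∈ R, (fun i => sh m (u i)) ∈ R) → ∀ ε : ℝ, 0 < ε →
  ∃ g : (Fin n → O) → ℝ, ISO n π g ∧ (∀ u, 0 ≤ g u ∧ g u ≤ 1) ∧
    ∀ (j : Fin n) (w : O), ∫ u, (R.indicator 1 u - g u) ^ 2 ∂kap π η K j w ≤ ε

end Pool.Agent.Work.MP_69fea5_lc.W3
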