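import Pool.Agent.Work.MP_69fea5_lc.W3.Defs
import Pool.Agent.Work.MP_69fea5_lc.N3.StmtsB

/-!
# Block [69fea5 W3], toolbox: the statements of the items

Every item is a theorem `XXX_pf (h1 : S_A) (h2 : AK.S_B) ... : S_XXX` in its own file
`W3/I_XXX.lean`; the hypotheses may be any statements of EARLIER items of this file and any
statements `AK.S_...`, `N3.S_...` (all proved on main; theorems `AK.XXX_pf`, `N3.XXX_pf` may also be
used directly). `W3.borelPM`: the sigma-algebra of `ProbabilityMeasure O` is the Borel one.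
-/

set_option autoImplicit false

namespace Pool.Agent.Work.MP_69fea5_lc.W3

open MeasureTheory Topology Set Filter TopologicalSpace
open scoped NNReal ENNReal
open Pool.Agent.Work.MP_69fea5_lc.AK

/-! ## 1. Systems and measures -/

/-- [ULT] points of orbit closures are limits along ultrafilters; images of orbit closures. -/
def S_ULT : Prop := ∀ (X : Type) [TopologicalSpace X] [Sys X],
  (∀ x y : X, y ∈ orb x ↔ ∃ G : Ultrafilter ℤ, Tendsto (fun n => sh n x) (G : Filter ℤ) (𝓝 y)) ∧
  (∀ x y : X, y ∈ orb x → orb y ⊆ orb x) ∧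
  ∀ (Y : Type) [TopologicalSpace Y] [T2Space Y] [Sys Y] (q : X → Y), CompactSpace X →
    Continuous q → (∀ (n : ℤ) (x : X), q (sh n x) = sh n (q x)) → ∀ x : X, q '' orb x = orb (q x)

/-- [PMG] shift of measures: values, images, point masses, carriers. -/
def S_PMG : Prop := ∀ (O : Type) [TopologicalSpace O] [MeasurableSpace O] [CS O] [Sys O],
  (∀ (m : ProbabilityMeasure O) (n : ℤ) (B : Set O), MeasurableSet B →
    sh n m B = m {z | sh n z ∈ B}) ∧
  (∀ (n : ℤ) (z : O), sh n (diracProba z) = diracProba (sh n z)) ∧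
  (IsClosed (Set.range (diracProba : O → ProbabilityMeasure O))) ∧
  (Function.Injective (diracProba : O → ProbabilityMeasure O)) ∧
  (∀ F : Set O, IsClosed F → IsClosed {m : ProbabilityMeasure O | m F = 1}) ∧
  (∀ F : Set O, IsClosed F → AK.Inv F → ∀ m : ProbabilityMeasure O, m F = 1 →
    ∀ m' ∈ orb m, m' F = 1) ∧
  (∀ U : Set O, IsOpen U → IsOpen {m : ProbabilityMeasure O | 0 < m U}) ∧
  ∀ (Y : Type) [TopologicalSpace Y] [MeasurableSpace Y] [CS Y] [Sys Y] (q : O → Y)
    (hq : Continuous q), (∀ (n : ℤ) (x : O), q (sh n x) = sh n (q x)) →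
    ∀ (n : ℤ) (m : ProbabilityMeasure O),
      (sh n m).map (f := q) hq.measurable.aemeasurable =
        sh n (m.map (f := q) hq.measurable.aemeasurable)

/-- [PRD] a measure on a product with a point mass as second marginal. -/
def S_PRD : Prop := ∀ (O X : Type) [TopologicalSpace O] [MeasurableSpace O] [CS O]
  [TopologicalSpace X] [MeasurableSpace X] [CS X] (ν : ProbabilityMeasure (O × X)) (x : X),
  (ν : Measure (O × X)).map Prod.snd = Measure.dirac x →
    (ν : Measure (O × X)) = ((ν : Measure (O × X)).map Prod.fst).map fun u => (u, x)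

/-- [FSD] measures with finite support are dense in the measures carried by a closed set (partition
in small Borel pieces; uniform continuity of the test functions). -/
def S_FSD : Prop := ∀ (X : Type) [TopologicalSpace X] [MeasurableSpace X] [CS X] (F : Set X)
  (ν : ProbabilityMeasure X), IsClosed F → ν F = 1 → ∀ U ∈ 𝓝 ν,
  ∃ (n : ℕ) (x : Fin n → X) (w : Fin n → ℝ≥0) (ν' : ProbabilityMeasure X), ν' ∈ U ∧
    (∀ i, x i ∈ F) ∧ (∑ i, w i = 1) ∧
    (ν' : Measure X) = ∑ i, (w i : ℝ≥0∞) • Measure.dirac (x i)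

/-- [LFT] measures can be lifted along continuous maps of compact sets (`S_FSD`: lift the measures
with finite support and take a limit). -/
def S_LFT : Prop := ∀ (X' X : Type) [TopologicalSpace X'] [MeasurableSpace X'] [CS X']
  [TopologicalSpace X] [MeasurableSpace X] [CS X] (q : X' → X) (E : Set X')
  (ν : ProbabilityMeasure X), Continuous q → IsClosed E → ν (q '' E) = 1 →
  ∃ ν' : ProbabilityMeasure X', ν' E = 1 ∧ (ν' : Measure X').map q = (ν : Measure X)

/-- [SPT] the support of a measure. -/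
def S_SPT : Prop := ∀ (O : Type) [TopologicalSpace O] [MeasurableSpace O] [CS O]
  (m : ProbabilityMeasure O), let s : Set O := {z | ∀ U, IsOpen U → z ∈ U → 0 < m U}
  IsClosed s ∧ m s = 1 ∧ s.Nonempty ∧ ∀ F : Set O, IsClosed F → m F = 1 → s ⊆ F

/-! ## 2. Barycentres -/

/-- [BRX] barycentres exist and are unique; formulas. -/
def S_BRX : Prop := ∀ (K O : Type) [TopologicalSpace K] [MeasurableSpace K] [CS K]
  [TopologicalSpace O] [MeasurableSpace O] [CS O] (κ : ProbabilityMeasure K)
  (f : K → ProbabilityMeasure O), Measurable f →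
  (∃ m, Bar κ f m) ∧ (∀ m m', Bar κ f m → Bar κ f m' → m = m') ∧
  (∀ m, Bar κ f m → ∀ B : Set O, MeasurableSet B →
    (m : Measure O) B = ∫⁻ q, (f q : Measure O) B ∂(κ : Measure K)) ∧
  (∀ m, Bar κ f m → ∀ g : O → ℝ, Continuous g →
    ∫ z, g z ∂(m : Measure O) = ∫ q, ∫ z, g z ∂(f q : Measure O) ∂(κ : Measure K))

/-- [BRC] for continuous `f` the relation `Bar κ f m` is closed, and it is determined by continuous
test functions; equivariance. -/
def S_BRC : Prop := ∀ (K O : Type) [TopologicalSpace K] [MeasurableSpace K] [CS K] [Sys K]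
  [TopologicalSpace O] [MeasurableSpace O] [CS O] [Sys O] (f : K → ProbabilityMeasure O),
  Continuous f →
  IsClosed {p : ProbabilityMeasure K × ProbabilityMeasure O | Bar p.1 f p.2} ∧
  ((∀ (n : ℤ) (q : K), f (sh n q) = sh n (f q)) →
    ∀ (κ : ProbabilityMeasure K) (m : ProbabilityMeasure O), Bar κ f m →
      ∀ n : ℤ, Bar (sh n κ) f (sh n m)) ∧
  ∀ (κ : ProbabilityMeasure K) (m : ProbabilityMeasure O), (∀ g : O → ℝ, Continuous g →
    ∫ z, g z ∂(m : Measure O) = ∫ q, ∫ z, g z ∂(f q : Measure O) ∂(κ : Measure K)) → Bar κ f m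

/-- [BRB] the barycentres of the measures on a closed set `F` of measures are closed under
barycentres (lift along the barycentre map, `S_LFT`). -/
def S_BRB : Prop := ∀ (O : Type) [TopologicalSpace O] [MeasurableSpace O] [CS O]
  (F : Set (ProbabilityMeasure O)), IsClosed F →
  let G : Set (ProbabilityMeasure O) :=
    {m | ∃ κ : ProbabilityMeasure (ProbabilityMeasure O), κ F = 1 ∧ Bar κ id m}
  IsClosed G ∧ F ⊆ G ∧ ∀ (κ : ProbabilityMeasure (ProbabilityMeasure O))
    (m : ProbabilityMeasure O), κ G = 1 → Bar κ id m → m ∈ G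

/-! ## 3. Families and energy -/

/-- [FAM] the family of barycentres over a base. -/
def S_FAM : Prop := ∀ (O X : Type) [TopologicalSpace O] [MeasurableSpace O] [CS O] [Sys O]
  [TopologicalSpace X] [MeasurableSpace X] [CS X] [Sys X] (F : Set (X × ProbabilityMeasure O)),
  IsClosed F → AK.Inv F →
  IsClosed (Fam F) ∧ AK.Inv (Fam F) ∧ F ⊆ Fam F ∧ Prod.fst '' Fam F = Prod.fst '' F ∧
  ∀ (x : X) (κ : ProbabilityMeasure (ProbabilityMeasure O)) (m : ProbabilityMeasure O),
    κ {m' | (x, m') ∈ Fam F} = 1 → Bar κ id m → (x, m) ∈ Fam F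

/-- [FDL] the family of the point masses of `A` consists of the measures carried by the fibres. -/
def S_FDL : Prop := ∀ (O X : Type) [TopologicalSpace O] [MeasurableSpace O] [CS O] [Sys O]
  [TopologicalSpace X] [MeasurableSpace X] [CS X] [Sys X] (A : Set (O × X)),
  IsClosed A → AK.Inv A → IsClosed (Dlt A) ∧ AK.Inv (Dlt A) ∧ Prod.fst '' Dlt A = Prod.snd '' A ∧
  Fam (Dlt A) = {p : X × ProbabilityMeasure O | p.2 {u | (u, p.1) ∈ A} = 1}

/-- [SEX] test functions exist. -/
def S_SEX : Prop := ∀ (O : Type) [TopologicalSpace O] [MeasurableSpace O] [CS O],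
  ∃ f : ℕ → O → ℝ, Sep f

/-- [SEO] the energy of `AK` is the energy of the test functions `fcyl`. -/
def S_SEO : Prop := ∀ k : ℕ, Sep (fcyl k) ∧ (∀ m : PM k, En (fcyl k) m = FF m) ∧
  (∀ m : PM k, GE (fcyl k) m = GG m) ∧
  ∀ (X : Type) [TopologicalSpace X] [MeasurableSpace X] [CS X] [Sys X] (F : Set (X × PM k)),
    AAE (fcyl k) F = AAF F

/-- [ENV] the energy: continuity, bounds, and the variance `Vr`. -/
def S_ENV : Prop := ∀ (O : Type) [TopologicalSpace O] [MeasurableSpace O] [CS O]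
  (f : ℕ → O → ℝ), Sep f → (Continuous fun m : ProbabilityMeasure O => En f m) ∧
  (∀ m : ProbabilityMeasure O, 0 ≤ En f m ∧ En f m ≤ 2) ∧
  ∃ Vr : ProbabilityMeasure (ProbabilityMeasure O) → ℝ, Continuous Vr ∧ (∀ ν, 0 ≤ Vr ν) ∧
    (∀ ν m, Bar ν id m → ∫ m', En f m' ∂(ν : Measure (ProbabilityMeasure O)) = En f m + Vr ν) ∧
    ∀ ν, Vr ν = 0 → ∃ m, ν = diracProba m

/-- [AAN] the set of minimal energy is closed, invariant, and lies over all of the base (`GE` is
lower semicontinuous, `Fam F` is compact). -/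
def S_AAN : Prop := ∀ (O X : Type) [TopologicalSpace O] [MeasurableSpace O] [CS O] [Sys O]
  [TopologicalSpace X] [MeasurableSpace X] [CS X] [Sys X] (f : ℕ → O → ℝ)
  (F : Set (X × ProbabilityMeasure O)), Sep f → IsClosed F → AK.Inv F →
  MinSet (Prod.fst '' F) →
  IsClosed (AAE f F) ∧ AK.Inv (AAE f F) ∧ Prod.fst '' AAE f F = Prod.fst '' F

/-- [SPE] the set of minimal energy is strongly proximal over the base. Let `ν` be carried by
`{e ∈ E | e.1 = x}`, `ν₂` its image under `Prod.snd`, `m` the barycentre of `ν₂`; `(x, m) ∈ Fam F`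
(`S_FAM`), so `e* ≤ GE f m`, `e*` the minimal energy. For all `n`
`En f (sh n m) + Vr (sh n ν₂) = ∫ En f (sh n m') dν₂(m') ≤ e*`; choose times `n` with
`En f (sh n m) → GE f m`; `Vr (lim sh n ν₂) = 0`. -/
def S_SPE : Prop := ∀ (O X : Type) [TopologicalSpace O] [MeasurableSpace O] [CS O] [Sys O]
  [TopologicalSpace X] [MeasurableSpace X] [CS X] [Sys X] (f : ℕ → O → ℝ)
  (F E : Set (X × ProbabilityMeasure O)), Sep f → IsClosed F → AK.Inv F →
  MinSet (Prod.fst '' F) → E ⊆ AAE f F → IsClosed E → AK.Inv E →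
    SPr E (Prod.fst : X × ProbabilityMeasure O → X)

/-- [SPG] every family has a minimal strongly proximal section (`S_SEX`, `S_AAN`, `AK.S_ZORN`,
`S_SPE`). -/
def S_SPG : Prop := ∀ (O X : Type) [TopologicalSpace O] [MeasurableSpace O] [CS O] [Sys O]
  [TopologicalSpace X] [MeasurableSpace X] [CS X] [Sys X] (F : Set (X × ProbabilityMeasure O)),
  IsClosed F → AK.Inv F → MinSet (Prod.fst '' F) →
  ∃ E : Set (X × ProbabilityMeasure O), E ⊆ Fam F ∧ Prod.fst '' E = Prod.fst '' F ∧
    SPx E (Prod.fst : X × ProbabilityMeasure O → X)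

/-! ## 4. Strong proximality -/

/-- [SPS] smaller sets and smaller fibres. -/
def S_SPS : Prop := ∀ (X' : Type) [TopologicalSpace X'] [MeasurableSpace X'] [CS X'] [Sys X']
  (Y Y' : Type) (E E' : Set X') (p : X' → Y) (p' : X' → Y'), SPr E p → E' ⊆ E →
  (∀ e ∈ E', ∀ e' ∈ E', p' e = p' e' → p e = p e') → SPr E' p'

/-- [SPC] composition (contract the image under `p`, pass to a limit, contract again). -/
def S_SPC : Prop := ∀ (X'' X' : Type) [TopologicalSpace X''] [MeasurableSpace X''] [CS X'']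
  [Sys X''] [TopologicalSpace X'] [MeasurableSpace X'] [CS X'] [Sys X'] (Y : Type)
  (E : Set X'') (E' : Set X') (p : X'' → X') (q : X' → Y), Continuous p →
  (∀ (n : ℤ) (e : X''), p (sh n e) = sh n (p e)) → IsClosed E → AK.Inv E → p '' E ⊆ E' →
  SPr E p → SPr E' q → SPr E (fun e => q (p e))

/-- [SPP] fibre products. -/
def S_SPP : Prop := ∀ (X₁ X₂ : Type) [TopologicalSpace X₁] [MeasurableSpace X₁] [CS X₁]
  [Sys X₁] [TopologicalSpace X₂] [MeasurableSpace X₂] [CS X₂] [Sys X₂] (Y : Type)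
  (E₁ : Set X₁) (E₂ : Set X₂) (p₁ : X₁ → Y) (p₂ : X₂ → Y), SPr E₂ p₂ →
  SPr {e : X₁ × X₂ | e.1 ∈ E₁ ∧ e.2 ∈ E₂ ∧ p₁ e.1 = p₂ e.2} Prod.fst

/-- [SPN] countable products. -/
def S_SPN : Prop := ∀ (X' X : Type) [TopologicalSpace X'] [MeasurableSpace X'] [CS X']
  [Sys X'] [TopologicalSpace X] [MeasurableSpace X] [CS X] [Sys X] (Y : Type)
  (E : Set X') (p : X' → X) (Ξ : Set (ℕ → X')) (b : (ℕ → X') → Y), Continuous p →
  (∀ (n : ℤ) (e : X'), p (sh n e) = sh n (p e)) → IsClosed E → AK.Inv E → SPr E p →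
  IsClosed Ξ → AK.Inv Ξ → (∀ ξ ∈ Ξ, ∀ a, ξ a ∈ E) →
  (∀ ξ ∈ Ξ, ∀ ξ' ∈ Ξ, b ξ = b ξ' → ∀ a, p (ξ a) = p (ξ' a)) → SPr Ξ b

/-- [JCT] countably many measures on one fibre can be contracted together (contract
`∑ 2^(-i-1) ν_i`); in particular two points of one fibre are proximal. -/
def S_JCT : Prop := ∀ (X' : Type) [TopologicalSpace X'] [MeasurableSpace X'] [CS X'] [Sys X']
  (Y : Type) (E : Set X') (p : X' → Y), SPr E p →
  (∀ (x : Y) (ν : ℕ → ProbabilityMeasure X'), (∀ i, ν i {e | e ∈ E ∧ p e = x} = 1) →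
    ∃ (G : Ultrafilter ℤ) (e : X'), ∀ i,
      Tendsto (fun n => sh n (ν i)) (G : Filter ℤ) (𝓝 (diracProba e))) ∧
  (∀ e ∈ E, ∀ e' ∈ E, p e = p e' → ∃ e'', (e'', e'') ∈ orb (e, e'))

/-- [UMS] a closed invariant set which is strongly proximal over a minimal system has only one
minimal subset: two minimal subsets have points over the same point of the base; these are proximal
(`S_JCT`). -/
def S_UMS : Prop := ∀ (X' X : Type) [TopologicalSpace X'] [MeasurableSpace X'] [CS X'] [Sys X']
  [TopologicalSpace X] [MeasurableSpace X] [CS X] [Sys X] (P : Set X') (p : X' → X),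
  Continuous p → (∀ (n : ℤ) (e : X'), p (sh n e) = sh n (p e)) → IsClosed P → AK.Inv P →
  MinSet (p '' P) → SPr P p → ∃ L : Set X', MinSet L ∧ L ⊆ P ∧
    ∀ L' : Set X', IsClosed L' → L'.Nonempty → AK.Inv L' → L' ⊆ P → L ⊆ L'

/-! ## 5. Base change -/

/-- [BCX] base changes exist. -/
def S_BCX : Prop := ∀ (O X X' : Type) [TopologicalSpace O] [MeasurableSpace O] [CS O] [Sys O]
  [TopologicalSpace X] [MeasurableSpace X] [CS X] [Sys X]
  [TopologicalSpace X'] [MeasurableSpace X'] [CS X'] [Sys X'] (A : Set (O × X)) (E : Set X')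
  (q : X' → X), SPx E q → MinSet A → Prod.snd '' A = q '' E → ∃ A', BCh A E q A'

/-- [BCF] the base change is unique; it projects onto `A` and onto `E`. Two minimal subsets of
`Pb A E q`: take points `(u, e)`, `(u, e')` over the same `(u, x) ∈ A`; `e`, `e'` are proximal
(`S_JCT`), so the minimal sets meet. -/
def S_BCF : Prop := ∀ (O X X' : Type) [TopologicalSpace O] [MeasurableSpace O] [CS O] [Sys O]
  [TopologicalSpace X] [MeasurableSpace X] [CS X] [Sys X]
  [TopologicalSpace X'] [MeasurableSpace X'] [CS X'] [Sys X'] (A : Set (O × X)) (E : Set X')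
  (q : X' → X) (A' : Set (O × X')), BCh A E q A' →
  (∀ A'' : Set (O × X'), IsClosed A'' → A''.Nonempty → AK.Inv A'' → A'' ⊆ Pb A E q → A' ⊆ A'') ∧
  Prod.snd '' A' = E ∧ (fun p : O × X' => (p.1, q p.2)) '' A' = A

/-- [CTR] contraction: a closed invariant set `R` over a strongly proximal extension `E`, and its
image in the old base, have almost the same sections. `e ↦ ms' e {u | (u, e) ∈ R}` is a constant `a` on
`E` (upper semicontinuous, invariant). Take `e ∈ E`, let `τ` be the restriction of `ms' e` to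
`{u | ∃ e' ∈ E, q e' = q e, (u, e') ∈ R}`, a closed set; if `τ = 0` there is nothing to prove; lift
`τ × δ_(q e)` (normalised) to a measure `ν` on `R` (`S_LFT`); the second marginal of `ν` and `δ_e` live
on the fibre of `E` over `q e`: contract both to one point `e*` (`S_JCT`). The limit `ν*` of `sh n ν` lives
on `R`, its second marginal is `δ_(e*)`, its first marginal `τ*` is at most `lim sh n (ms' e) = ms' e*`
(`S_PRD`). So the total mass of `τ` is at most `ms' e* {u | (u, e*) ∈ R} = a`. -/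
def S_CTR : Prop := ∀ (O X X' : Type) [TopologicalSpace O] [MeasurableSpace O] [CS O] [Sys O]
  [TopologicalSpace X] [MeasurableSpace X] [CS X] [Sys X]
  [TopologicalSpace X'] [MeasurableSpace X'] [CS X'] [Sys X'] (E : Set X') (q : X' → X)
  (R : Set (O × X')) (ms' : X' → ProbabilityMeasure O), SPx E q → IsClosed R → AK.Inv R →
  (∀ p ∈ R, p.2 ∈ E) → Continuous ms' → (∀ (n : ℤ) (e : X'), ms' (sh n e) = sh n (ms' e)) →
  ∀ e ∈ E, ms' e {u | (∃ e', q e' = q e ∧ (u, e') ∈ R) ∧ (u, e) ∉ R} = 0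

/-- [RIM] relatively invariant measures: `S_CTR` for `R = A'` (its image in the old base is `A` by
`S_BCF`), so `ms' e {u | (u, e) ∈ A'} = ms' e {u | (u, q e) ∈ A} = 1`. -/
def S_RIM : Prop := ∀ (O X X' : Type) [TopologicalSpace O] [MeasurableSpace O] [CS O] [Sys O]
  [TopologicalSpace X] [MeasurableSpace X] [CS X] [Sys X]
  [TopologicalSpace X'] [MeasurableSpace X'] [CS X'] [Sys X'] (A : Set (O × X)) (E : Set X')
  (q : X' → X) (A' : Set (O × X')) (ms' : X' → ProbabilityMeasure O), BCh A E q A' →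
  Continuous ms' → (∀ (n : ℤ) (e : X'), ms' (sh n e) = sh n (ms' e)) →
  (∀ e ∈ E, ms' e {u | (u, q e) ∈ A} = 1) → Lev A' ms'

/-- [BC2] base change twice (`S_SPC`). -/
def S_BC2 : Prop := ∀ (O X X' X'' : Type) [TopologicalSpace O] [MeasurableSpace O] [CS O] [Sys O]
  [TopologicalSpace X] [MeasurableSpace X] [CS X] [Sys X]
  [TopologicalSpace X'] [MeasurableSpace X'] [CS X'] [Sys X']
  [TopologicalSpace X''] [MeasurableSpace X''] [CS X''] [Sys X''] (A : Set (O × X)) (E : Set X')
  (q : X' → X) (A' : Set (O × X')) (E' : Set X'') (q' : X'' → X') (A'' : Set (O × X'')),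
  BCh A E q A' → BCh A' E' q' A'' → BCh A E' (fun e => q (q' e)) A''

/-- [EX1] if `x` is exact then every point of the strongly proximal extension over `x` is exact:
`T^n (c, x) → (z, x) ∈ A` for some late times; a limit of `T^n (c, e)` is `(z, e')`,
`(z, e') ∈ Pb A E q`, and `omg (c, e)` is closed and invariant: it contains `A'` (`S_BCF`). -/
def S_EX1 : Prop := ∀ (k : ℕ) (c : Om k) (X X' : Type)
  [TopologicalSpace X] [MeasurableSpace X] [CS X] [Sys X]
  [TopologicalSpace X'] [MeasurableSpace X'] [CS X'] [Sys X'] (A : Set (Om k × X)) (E : Set X')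
  (q : X' → X) (A' : Set (Om k × X')), BCh A E q A' → ∀ e ∈ E, Exa c A (q e) → Exa c A' e

/-! ## 6. Continuous invariant pseudometrics -/

/-- [LEB] first facts on levels. -/
def S_LEB : Prop := ∀ (O X : Type) [TopologicalSpace O] [MeasurableSpace O] [CS O] [Sys O]
  [TopologicalSpace X] [MeasurableSpace X] [CS X] [Sys X] (A : Set (O × X))
  (ms : X → ProbabilityMeasure O), Lev A ms → MinSet (Prod.snd '' A) ∧
  ∀ x ∈ Prod.snd '' A, ∀ z, (∀ U, IsOpen U → z ∈ U → 0 < ms x U) → (z, x) ∈ A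

/-- [BAL] the measures of a level charge all balls of continuous invariant pseudometrics:
`(u, x) ↦ ms x {v | (v, x) ∈ A, ρ u v x ≤ ε}` is a constant on `A` (`N3.S_USG`, `AK.S_CST`), positive
at a point of the support of `ms x`. -/
def S_BAL : Prop := ∀ (O X : Type) [TopologicalSpace O] [MeasurableSpace O] [CS O] [Sys O]
  [TopologicalSpace X] [MeasurableSpace X] [CS X] [Sys X] (A : Set (O × X))
  (ms : X → ProbabilityMeasure O) (ρ : O → O → X → ℝ), Lev A ms → IPB A ρ → ∀ ε : ℝ, 0 < ε →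
  ∀ p ∈ A, 0 < ms p.2 {v | (v, p.2) ∈ A ∧ ρ p.1 v p.2 < ε}

/-- [ONT] limits of the shifts map a fibre onto the limit fibre, modulo `ρ`. The map
`t ↦ lim T^n t` from the fibre over `x` to the fibre over `x'` preserves `ρ`; there is such a map
back (`x ∈ orb x'`), and a map of a compact pseudometric space to itself which preserves distances is
onto modulo distance zero (its iterates come back: `ρ (g^n a, a) < ε` for some `n ≥ 1`). -/
def S_ONT : Prop := ∀ (C X : Type) [TopologicalSpace C] [MeasurableSpace C] [CS C] [Sys C]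
  [TopologicalSpace X] [MeasurableSpace X] [CS X] [Sys X] (J : Set (C × X)) (ρ : C → C → X → ℝ),
  IsClosed J → AK.Inv J → MinSet (Prod.snd '' J) → IPB J ρ →
  ∀ (ι : Type) (G : Ultrafilter ι) (n : ι → ℤ) (x x' : X), x ∈ Prod.snd '' J →
  Tendsto (fun i => sh (n i) x) (G : Filter ι) (𝓝 x') → ∀ t', (t', x') ∈ J →
  ∃ t t'', (t, x) ∈ J ∧ (t'', x') ∈ J ∧
    Tendsto (fun i => sh (n i) t) (G : Filter ι) (𝓝 t'') ∧ ρ t'' t' x' = 0

/-- [ISP] isometric extensions are open, modulo `ρ`. For `ε > 0` let `N_ε w` be the maximal number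
of points of the fibre over `w` with mutual distances `≥ ε`: it is upper semicontinuous and
invariant, so it is a constant on the minimal base. If a limit `S` of the fibres over `w i` had
distance `≥ ε > 0` from `q` then the fibre over `w₀` would have one point more. -/
def S_ISP : Prop := ∀ (Q W : Type) [TopologicalSpace Q] [MeasurableSpace Q] [CS Q] [Sys Q]
  [TopologicalSpace W] [MeasurableSpace W] [CS W] [Sys W] (P : Set (Q × W)) (ρ : Q → Q → W → ℝ),
  IsClosed P → AK.Inv P → MinSet (Prod.snd '' P) → IPB P ρ →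
  ∀ (ι : Type) (G : Ultrafilter ι) (w : ι → W) (w₀ : W), (∀ i, w i ∈ Prod.snd '' P) →
  Tendsto w (G : Filter ι) (𝓝 w₀) → ∀ q, (q, w₀) ∈ P →
  ∃ (f : ι → Q) (q₁ : Q), (∀ i, (f i, w i) ∈ P) ∧ (q₁, w₀) ∈ P ∧
    Tendsto f (G : Filter ι) (𝓝 q₁) ∧ ρ q₁ q w₀ = 0

/-- [HAU] if `θ` determines the continuous invariant pseudometrics of `A` then it determines the
fibres over `A` of every isometric extension. The Hausdorff distance with respect to `ρ` of the sets
`{q | (q, (u, x)) ∈ P}` and `{q | (q, (u', x)) ∈ P}` is a continuous invariant pseudometric on the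
fibres of `A` (continuity: `S_ISP` for `P` over `A`). -/
def S_HAU : Prop := ∀ (Q O X C : Type) [TopologicalSpace Q] [MeasurableSpace Q] [CS Q] [Sys Q]
  [TopologicalSpace O] [MeasurableSpace O] [CS O] [Sys O]
  [TopologicalSpace X] [MeasurableSpace X] [CS X] [Sys X] [TopologicalSpace C] [Sys C]
  (A : Set (O × X)) (θ : O × X → C) (P : Set (Q × (O × X))) (ρ : Q → Q → X → ℝ),
  MinSet A → Uni A θ → IsClosed P → AK.Inv P → Prod.snd '' P = A →
  IPB ((fun p : Q × (O × X) => (p.1, p.2.2)) '' P) ρ →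
  ∀ (x : X) (u u' : O) (q : Q), (u, x) ∈ A → (u', x) ∈ A → θ (u, x) = θ (u', x) →
    (q, (u, x)) ∈ P → ∃ q', (q', (u', x)) ∈ P ∧ ρ q q' x = 0

/-- [UNP] if `θ` determines the continuous invariant pseudometrics of `A`, then it also determines
those of every `D ⊆ A ×_X JV`, `JV` isometric, at every fixed second coordinate `v`, and `D` is
saturated. (`S_HAU` for `P = {((u, v), (u, x)) | ((u, v), x) ∈ D}` and `ρ + dV`; `Prod.snd '' P = A`
because `A` is minimal; `dV v v' x = 0` gives `v = v'`.) -/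
def S_UNP : Prop := ∀ (O X C V : Type) [TopologicalSpace O] [MeasurableSpace O] [CS O] [Sys O]
  [TopologicalSpace X] [MeasurableSpace X] [CS X] [Sys X] [TopologicalSpace C] [Sys C]
  [TopologicalSpace V] [MeasurableSpace V] [CS V] [Sys V]
  (A : Set (O × X)) (θ : O × X → C) (JV : Set (V × X)) (dV : V → V → X → ℝ)
  (D : Set ((O × V) × X)) (ρ : O × V → O × V → X → ℝ), MinSet A → Uni A θ → Isom JV dV →
  IsClosed D → AK.Inv D → (∀ p ∈ D, (p.1.1, p.2) ∈ A ∧ (p.1.2, p.2) ∈ JV) → IPB D ρ →
  ∀ (x : X) (u u' : O) (v : V), ((u, v), x) ∈ D → (u', x) ∈ A → θ (u, x) = θ (u', x) →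
    ((u', v), x) ∈ D ∧ ρ (u, v) (u', v) x = 0

/-- [ISA] all points of an isometric extension of a minimal system are almost periodic. (Let `p'` be
in the orbit closure of `p = (t, x)`; a limit of shifts maps `p'` back to a point over `x`; the
composed map `τ` of the fibre over `x` to itself preserves `d`, `(τ t, x)` is in the orbit closure of
`p'`, and so are all `(τ^n t, x)`, `n ≥ 1`; some power `τ^n`, `n ≥ 1`, moves `t` by less than `ε`.) -/
def S_ISA : Prop := ∀ (C X : Type) [TopologicalSpace C] [MeasurableSpace C] [CS C] [Sys C]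
  [TopologicalSpace X] [MeasurableSpace X] [CS X] [Sys X] (J : Set (C × X)) (d : C → C → X → ℝ),
  Isom J d → ∀ p ∈ J, MinSet (orb p)

/-- [DIS] a minimal isometric extension and a strongly proximal extension have a minimal fibre
product. Let `L` be a minimal subset; for `e`, `e'` over the same point the Hausdorff distance of the
sections `L_e`, `L_e'` is invariant and tends to `0` at proximal times (`S_ISP` for `L` over `E`,
`S_JCT`), so `L_e = L_e'`; so `L` is the preimage of a closed invariant subset of `J`. -/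
def S_DIS : Prop := ∀ (C X X' : Type) [TopologicalSpace C] [MeasurableSpace C] [CS C] [Sys C]
  [TopologicalSpace X] [MeasurableSpace X] [CS X] [Sys X]
  [TopologicalSpace X'] [MeasurableSpace X'] [CS X'] [Sys X'] (J : Set (C × X))
  (d : C → C → X → ℝ) (E : Set X') (q : X' → X), Isom J d → MinSet J → SPx E q →
  q '' E = Prod.snd '' J → MinSet {p : C × X' | p.2 ∈ E ∧ (p.1, q p.2) ∈ J}

/-- [BLX] the measures of the base change charge all balls of the old fibre. Choose `e'` over the
same point with `(u, e') ∈ A'` (`S_BCF`) and times along which `e` and `e'` converge to one point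
`e''`, and `u` to `u''`, `(u'', e'') ∈ A'`; `ms' e''` charges the ball of `u''` (`S_BAL` for `A'`), and
`ms' (T^n e) {v | (v, q (T^n e)) ∈ A, ε ≤ ρ (T^n u) v _}` is upper semicontinuous. -/
def S_BLX : Prop := ∀ (O X X' : Type) [TopologicalSpace O] [MeasurableSpace O] [CS O] [Sys O]
  [TopologicalSpace X] [MeasurableSpace X] [CS X] [Sys X]
  [TopologicalSpace X'] [MeasurableSpace X'] [CS X'] [Sys X'] (A : Set (O × X)) (E : Set X')
  (q : X' → X) (A' : Set (O × X')) (ms' : X' → ProbabilityMeasure O) (ρ : O → O → X → ℝ),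
  BCh A E q A' → Lev A' ms' → IPB A ρ → ∀ ε : ℝ, 0 < ε → ∀ e ∈ E, ∀ u, (u, q e) ∈ A →
    0 < ms' e {v | (v, q e) ∈ A ∧ ρ u v (q e) < ε}

/-- [BCU] universality survives the base change (note 3789 (3)). Let `ρ'` be a continuous invariant
pseudometric on `A'`; extend it to a continuous function `ρ~` of `(u, v, e)` (Tietze). For `e`, `e'`
over the same `x` the integral of `|ρ~ (u, v, e) - ρ~ (u, v, e')|` over `ms x × ms x` is invariant (`ms x`
lives on the fibres of `A'` over `e` and over `e'`, `S_RIM`) and small at proximal times: it is `0`;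
also `∫ |ρ~ (u, v, e) - ρ~ (u, v, e')| d(ms x) v = 0` for `(u, e), (u, e') ∈ A'`. So
`D u u' x = ∫ |ρ~ (u, v, e) - ρ~ (u', v, e')| d(ms x) v`, `(u, e), (u', e') ∈ A'`, does not depend on
`e, e'`; it is a continuous invariant pseudometric on `A`, `0` if `θ` agrees. For `(u, e), (u', e) ∈ A'`
choose (`S_BAL` for `A'`) `v` near `u'` with `ρ' u v e = ρ' u' v e`. -/
def S_BCU : Prop := ∀ (O X X' C : Type) [TopologicalSpace O] [MeasurableSpace O] [CS O] [Sys O]
  [TopologicalSpace X] [MeasurableSpace X] [CS X] [Sys X]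
  [TopologicalSpace X'] [MeasurableSpace X'] [CS X'] [Sys X'] [TopologicalSpace C] [Sys C]
  (A : Set (O × X)) (E : Set X') (q : X' → X) (A' : Set (O × X')) (ms : X → ProbabilityMeasure O)
  (θ : O × X → C), BCh A E q A' → Lev A ms → Uni A θ → Uni A' (fun p => θ (p.1, q p.2))

/-- [PHB] base change of phases (`S_BCU`; the metric is `d t t' (q e)`). -/
def S_PHB : Prop := ∀ (O X X' C : Type) [TopologicalSpace O] [MeasurableSpace O] [CS O] [Sys O]
  [TopologicalSpace X] [MeasurableSpace X] [CS X] [Sys X]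
  [TopologicalSpace X'] [MeasurableSpace X'] [CS X'] [Sys X']
  [TopologicalSpace C] [MeasurableSpace C] [CS C] [Sys C]
  (A : Set (O × X)) (E : Set X') (q : X' → X) (A' : Set (O × X')) (ms : X → ProbabilityMeasure O)
  (θ : O × X → C), BCh A E q A' → Lev A ms → Pha A θ → Pha A' (fun p => θ (p.1, q p.2))

/-! ## 7. McMahon's argument and the universal phase -/

/-- [MCM] closed invariant sets `N` of triples `(u, q, x)`: the masses of the sections of `N` at
`(u, x) ∈ A` are one constant; the masses with continuous weights are continuous (`∫ g` over the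
section: upper semicontinuous for `g ≥ 0`, the sum for `g` and `C - g` is constant); the mass of the
symmetric difference is a continuous invariant pseudometric (the masses of the intersection and of
the union are upper semicontinuous with constant sum); so points with the same phase have almost the
same sections. -/
def S_MCM : Prop := ∀ (O K X : Type) [TopologicalSpace O] [MeasurableSpace O] [CS O] [Sys O]
  [TopologicalSpace K] [MeasurableSpace K] [CS K] [Sys K]
  [TopologicalSpace X] [MeasurableSpace X] [CS X] [Sys X] (A : Set (O × X))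
  (κ : X → ProbabilityMeasure K) (N : Set (O × K × X)), MinSet A → Continuous κ →
  (∀ (n : ℤ) (x : X), κ (sh n x) = sh n (κ x)) → IsClosed N → AK.Inv N →
  (∃ a : ℝ≥0, ∀ p ∈ A, κ p.2 {q | (p.1, q, p.2) ∈ N} = a) ∧
  (∀ g : K → ℝ, Continuous g →
    ContinuousOn (fun p : O × X => ∫ q in {q | (p.1, q, p.2) ∈ N}, g q ∂(κ p.2 : Measure K)) A) ∧
  IPB A (fun u u' x => (κ x {q | (u, q, x) ∈ N ∧ (u', q, x) ∉ N} : ℝ) +
    κ x {q | (u', q, x) ∈ N ∧ (u, q, x) ∉ N}) ∧
  ∀ (C : Type) [TopologicalSpace C] [Sys C] (θ : O × X → C), Uni A θ →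
    ∀ (x : X) (u u' : O), (u, x) ∈ A → (u', x) ∈ A → θ (u, x) = θ (u', x) →
      κ x {q | (u, q, x) ∈ N ∧ (u', q, x) ∉ N} = 0

/-- [RLB] the relations `RL` are closed and invariant, and they approximate all closed invariant
relations: every `(u, u', x) ∉ R` has a box disjoint from `R`; countably many boxes; downwards
directed. -/
def S_RLB : Prop := ∀ (k : ℕ) (X κ : Type) [TopologicalSpace X] [MeasurableSpace X] [CS X]
  [Sys X] [Encodable κ] (V : κ → Set X) (B : Set X), Bas V B → AK.Inv B →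
  (∀ L : List (Wd k × Wd k × κ), IsClosed {p : Om k × Om k × X | p.2.1 ∈ RL V L p.1 p.2.2} ∧
    AK.Inv {p : Om k × Om k × X | p.2.1 ∈ RL V L p.1 p.2.2}) ∧
  ∀ (R : Set (Om k × Om k × X)), IsClosed R → AK.Inv R → (∀ p ∈ R, p.2.2 ∈ B) →
  ∀ (m : PM k), ∀ x ∈ B, ∀ (u : Om k) (ε : ℝ), 0 < ε → ∃ L : List (Wd k × Wd k × κ),
    (∀ p ∈ R, p.2.1 ∈ RL V L p.1 p.2.2) ∧
    (m {u' | u' ∈ RL V L u x ∧ (u, u', x) ∉ R} : ℝ) < ε

/-- [THC] the phase is continuous on `A` and equivariant (`S_MCM`, `S_RLB`). -/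
def S_THC : Prop := ∀ (k : ℕ) (X κ : Type) [TopologicalSpace X] [MeasurableSpace X] [CS X]
  [Sys X] [Encodable κ] (V : κ → Set X) (A : Set (Om k × X)) (ms : X → PM k), Lev A ms →
  Bas V (Prod.snd '' A) → ContinuousOn (Th V ms) A ∧
    ∀ p ∈ A, ∀ n : ℤ, Th V ms (sh n p) = sh n (Th V ms p)

/-- [THM] the metric of the phases: `∑ 2^-i min 1 (ms x (RL L_i u x Δ RL L_i u' x))`, a function of
the two phases and `x` on `JJ` (equal phases have almost equal sections). -/
def S_THM : Prop := ∀ (k : ℕ) (X κ : Type) [TopologicalSpace X] [MeasurableSpace X] [CS X]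
  [Sys X] [Encodable κ] (V : κ → Set X) (A : Set (Om k × X)) (ms : X → PM k), Lev A ms →
  Bas V (Prod.snd '' A) → ∃ d, Isom (JJ A (Th V ms)) d

/-- [THU] universality. If `ρ` is a continuous invariant pseudometric, `ρ u u' x > 2 ε`, put
`R = {(a, b, y) | (a, y), (b, y) ∈ A, ρ a b y ≤ ε}`. If `Th (u, x) = Th (u', x)` then for all `L` the
sections `RL L u x`, `RL L u' x` agree almost everywhere (`ms x`), so by `S_RLB` the disjoint sections of
`R` at `u` and at `u'` agree almost everywhere; they have positive measure (`S_BAL`). -/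
def S_THU : Prop := ∀ (k : ℕ) (X κ : Type) [TopologicalSpace X] [MeasurableSpace X] [CS X]
  [Sys X] [Encodable κ] (V : κ → Set X) (A : Set (Om k × X)) (ms : X → PM k), Lev A ms →
  Bas V (Prod.snd '' A) → Uni A (Th V ms)

/-- [THP] the phase is the universal isometric factor. -/
def S_THP : Prop := ∀ (k : ℕ) (X κ : Type) [TopologicalSpace X] [MeasurableSpace X] [CS X]
  [Sys X] [Encodable κ] (V : κ → Set X) (A : Set (Om k × X)) (ms : X → PM k), Lev A ms →
  Bas V (Prod.snd '' A) → Pha A (Th V ms)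

/-! ## 8. Frames -/

/-- [DET] frames determine all phases. `v₀ = (x, t)` a frame of `J`, `s` any sequence of phases over
`x`: the orbit closure of `(v₀, s)` is minimal, and its points are determined by their first component
(the distances `d (s i) (t l) x` are constant along the orbit; the `t l` are dense in the fibre,
`S_ONT`). Minimal: let `((x', t'), s')` be in the orbit closure; `x ∈ orb x'` (minimal base); a limit
of `T^n` maps `(x', t', s')` to a point `(x, t'', s'')`, which is the image of `(x, t, s)` under an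
isometry of the fibre over `x`; some power of an isometry of a compact space is close to the
identity. -/
def S_DET : Prop := ∀ (C X : Type) [TopologicalSpace C] [MeasurableSpace C] [CS C] [Sys C]
  [TopologicalSpace X] [MeasurableSpace X] [CS X] [Sys X] (J : Set (C × X)) (d : C → C → X → ℝ),
  Isom J d → ∀ v₀ : X × (ℕ → C), Frm J v₀ → ∀ s : ℕ → C, (∀ l, (s l, v₀.1) ∈ J) →
  MinSet (orb (v₀, s)) ∧ (∀ p ∈ orb (v₀, s), ∀ l, (p.2 l, p.1.1) ∈ J) ∧
  (∀ p ∈ orb (v₀, s), ∀ p' ∈ orb (v₀, s), p.1 = p'.1 → p.2 = p'.2) ∧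
  ∀ p ∈ orb (v₀, s), Frm J p.1

/-- [AUT] the orbit closure `Z` of a frame: minimal, consists of frames, lies over the base of `J`;
two frames over the same point give the graph of an isomorphism of their orbit closures; `Z` is an
isometric extension of the base. -/
def S_AUT : Prop := ∀ (C X : Type) [TopologicalSpace C] [MeasurableSpace C] [CS C] [Sys C]
  [TopologicalSpace X] [MeasurableSpace X] [CS X] [Sys X] (J : Set (C × X)) (d : C → C → X → ℝ),
  Isom J d → ∀ v₀ : X × (ℕ → C), Frm J v₀ →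
  MinSet (orb v₀) ∧ (∀ v ∈ orb v₀, Frm J v) ∧ Prod.fst '' orb v₀ = Prod.snd '' J ∧
  (∃ d', Isom {p : (ℕ → C) × X | (p.2, p.1) ∈ orb v₀} d') ∧
  ∀ v₁ : X × (ℕ → C), Frm J v₁ → v₁.1 = v₀.1 →
    MinSet (orb (v₀, v₁)) ∧ (∀ p ∈ orb (v₀, v₁), p.1.1 = p.2.1) ∧
    (∀ p ∈ orb (v₀, v₁), ∀ p' ∈ orb (v₀, v₁), p.1 = p'.1 ↔ p.2 = p'.2) ∧
    Prod.fst '' orb (v₀, v₁) = orb v₀ ∧ Prod.snd '' orb (v₀, v₁) = orb v₁

/-- [T7M] `A` over the frames is minimal (for every coordinate `j` of the frame). Let `L ⊆ At` be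
minimal; `P = {(t, (u, x)) | (u, (x, t)) ∈ L}` satisfies the hypotheses of `S_HAU` with the metric of
`S_AUT`. For `(u, (x, t)) ∈ At` there is `u'` with `(u', (x, t)) ∈ L` (`orb v₀` is minimal),
`θ (u', x) = t j = θ (u, x)`, so `(u, (x, t)) ∈ L`. -/
def S_T7M : Prop := ∀ (O C X : Type) [TopologicalSpace O] [MeasurableSpace O] [CS O] [Sys O]
  [TopologicalSpace C] [MeasurableSpace C] [CS C] [Sys C]
  [TopologicalSpace X] [MeasurableSpace X] [CS X] [Sys X] (A : Set (O × X)) (θ : O × X → C),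
  Pha A θ → ∀ v₀ : X × (ℕ → C), Frm (JJ A θ) v₀ → ∀ j : ℕ,
  MinSet (At A θ (orb v₀) j) ∧ Prod.snd '' At A θ (orb v₀) j = orb v₀ ∧
  (fun p : O × (X × (ℕ → C)) => (p.1, p.2.1)) '' At A θ (orb v₀) j = A

/-- [T7V] the frame is the universal isometric factor of `A` with the frame, over the old base: for a
continuous invariant pseudometric `ρ` on the fibres over `x` of the pairs `(u, v)`,
`(u, v) ∈ At A θ (orb v₀) j`, `v.1 = x`, apply `S_HAU` to `P = {((u, v), (u, x))}` and
`ρ + (distance of v and v')`. -/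
def S_T7V : Prop := ∀ (O C X : Type) [TopologicalSpace O] [MeasurableSpace O] [CS O] [Sys O]
  [TopologicalSpace C] [MeasurableSpace C] [CS C] [Sys C]
  [TopologicalSpace X] [MeasurableSpace X] [CS X] [Sys X] (A : Set (O × X)) (θ : O × X → C),
  Pha A θ → ∀ v₀ : X × (ℕ → C), Frm (JJ A θ) v₀ → ∀ j : ℕ,
  MinSet {p : (O × (X × (ℕ → C))) × X | p.1 ∈ At A θ (orb v₀) j ∧ p.1.2.1 = p.2} ∧
  Uni {p : (O × (X × (ℕ → C))) × X | p.1 ∈ At A θ (orb v₀) j ∧ p.1.2.1 = p.2} (fun p => p.1.2)

/-! ## 9. Exact points -/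

/-- [ZSE] points `z` with `ZSX` exist over exact points: `T^n (c, x) → (h, x)` with `h` in the
support of `ms x`; `T^n (ms x)` charges the neighbourhoods of `h`; take points `g` of the support of
`ms x` with `T^n g` close to `h` and a limit `z` of such points. -/
def S_ZSE : Prop := ∀ (k : ℕ) (c : Om k) (X : Type) [TopologicalSpace X] [MeasurableSpace X]
  [CS X] [Sys X] (A : Set (Om k × X)) (ms : X → PM k), Lev A ms → ∀ x ∈ Prod.snd '' A,
  Exa c A x → ∃ z, ZSX c (ms x) x z

/-- [EX2] the phase of such a point `z` is exact: along the times of `ZSX`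
`(T^n g, T^n x, θ (T^n (g, x))) → (h, x, θ (h, x))` and `T^n c → h`; the metric of the phases is
invariant, so `T^n θ (z, x) → θ (h, x)`. The set `{(w, (y, θ (w, y))) | (w, y) ∈ A}` is minimal. -/
def S_EX2 : Prop := ∀ (k : ℕ) (c : Om k) (X C : Type) [TopologicalSpace X] [MeasurableSpace X]
  [CS X] [Sys X] [TopologicalSpace C] [MeasurableSpace C] [CS C] [Sys C] (A : Set (Om k × X))
  (ms : X → PM k) (θ : Om k × X → C), Lev A ms → Pha A θ → ∀ x ∈ Prod.snd '' A,
  ∀ z, ZSX c (ms x) x z → (z, x) ∈ A ∧ Exa c A x ∧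
    ∀ p ∈ A, (p.1, (p.2, θ p)) ∈ omg (c, (x, θ (z, x)))

/-- [EX3] frames whose `j`-th phase is exact are exact: `T^n (c, (x, t j)) → (h, (x, θ (h, x)))`, so a
limit of `T^n (c, v)` is `(h, v')` with `(h, v') ∈ At`, a minimal set (`S_T7M`). -/
def S_EX3 : Prop := ∀ (k : ℕ) (c : Om k) (X C : Type) [TopologicalSpace X] [MeasurableSpace X]
  [CS X] [Sys X] [TopologicalSpace C] [MeasurableSpace C] [CS C] [Sys C] (A : Set (Om k × X))
  (θ : Om k × X → C), Pha A θ → ∀ (v : X × (ℕ → C)) (j : ℕ), Frm (JJ A θ) v →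
  (∃ h, (h, v.1) ∈ A ∧ (h, (v.1, θ (h, v.1))) ∈ omg (c, (v.1, v.2 j))) →
    Exa c (At A θ (orb v) j) v

end Pool.Agent.Work.MP_69fea5_lc.W3
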