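import Pool.Agent.Work.MP_69fea5_lc.W3.DefsL
import Pool.Agent.Work.MP_69fea5_lc.W3.StmtsT
import Pool.Agent.Work.MP_69fea5_lc.W3.StmtsG

/-!
# Block [69fea5 W3 L]: one step of the tower (section 1 of note 3799): statements

Every item is a theorem `XXX_pf (h1 : S_A) (h2 : S_B) ... : S_XXX` in its own file `W3/I_XXX.lean`
(namespace as here); the hypotheses may be any statements of EARLIER items in this file and any
statements of `W3/StmtsT.lean`, `W3/StmtsG.lean`, `AK.S_...`, `N3.S_...`.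
The docstrings contain complete proofs.
-/

set_option autoImplicit false

namespace Pool.Agent.Work.MP_69fea5_lc.W3

open MeasureTheory Topology Set Filter TopologicalSpace ProbabilityTheory
open scoped NNReal ENNReal
open Pool.Agent.Work.MP_69fea5_lc.AK

/-! ## Tuples, the graph of the position -/

/-- [LIN] the tuples `ins j w u`. -/
def S_LIN : Prop := ∀ (n : ℕ) (j : Fin n) (X : Type) [TopologicalSpace X] [Sys X],
  (∀ (w : X) (u : Oth j → X), ins j w u j = w ∧ ∀ i : Oth j, ins j w u i = u i) ∧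
  (∀ x : Fin n → X, ins j (x j) (fun i : Oth j => x i) = x) ∧
  (Continuous fun p : X × (Oth j → X) => ins j p.1 p.2) ∧
  (∀ (m : ℤ) (w : X) (u : Oth j → X), ins j (sh m w) (sh m u) = sh m (ins j w u)) ∧
  ∀ (w w' : X) (u : Oth j → X), Function.update (ins j w u) j w' = ins j w' u

/-- [LGR] the graph of the position is a minimal system over the (minimal) space `X`; tuples over
`X`. Lifting: a progression `(T^(b + i u) v)_i` of `X` is the image of `(T^(b + i u) w)_i`, `π w = v`;
compactness of `M` for the limits. -/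
def S_LGR : Prop := ∀ (k n : ℕ) (X : Type) [TopologicalSpace X] [MeasurableSpace X] [CS X] [Sys X]
  (M : Set (Om k)) (π : Om k → X), Po M π →
  MinSet (gr M π) ∧ Prod.snd '' gr M π = univ ∧ MinSet (univ : Set X) ∧
  IsClosed (CM n M π) ∧ AK.Inv (CM n M π) ∧
  (∀ z ∈ PG n X, ∃ u ∈ CM n M π, ∀ i, π (u i) = z i) ∧
  ∀ (X' : Type) [TopologicalSpace X'] [MeasurableSpace X'] [CS X'] [Sys X'] (π' : Om k → X')
    (p : X' → X), Po M π' → Continuous p → (∀ w ∈ M, p (π' w) = π w) →
    (∀ (m : ℤ) y, p (sh m y) = sh m (p y)) ∧ (∀ v, ∃ y, p y = v) ∧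
    (fun z : Fin n → X' => fun i => p (z i)) '' PG n X' = PG n X

/-- [LRT] the relations `RT L`. The last part: a point `x ∉ R` has a box `q` (of words around `0`)
disjoint from `R` (`AK.S_CYL`), so `R ⊆ RT [q]` and `x ∉ RT [q]`; there are countably many lists,
`RT` of a concatenation is the intersection, so `R` is a decreasing intersection of sets `RT L`. -/
def S_LRT : Prop := ∀ (k n : ℕ),
  (∀ L : List (Fin n → Wd k), IsClosed (RT L) ∧ AK.Inv (RT L)) ∧
  (∀ L L' : List (Fin n → Wd k), RT (L ++ L') = RT L ∩ RT L') ∧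
  ∀ R : Set (Fin n → Om k), IsClosed R → AK.Inv R → ∀ (ν : Measure (Fin n → Om k))
    [IsFiniteMeasure ν] (ε : ℝ≥0∞), 0 < ε → ∃ L : List (Fin n → Wd k), R ⊆ RT L ∧
      ν (RT L \ R) < ε

/-! ## The kernels on the tuples of `M` -/

/-- [LIF] the law of independent points over positions of the law `Q`: boxes, integrals; the
positions of the points have the law `Q`, if the one-point marginals of `Q` are absolutely
continuous. (Measurability of `z ↦ Measure.pi (η (z i))`: on boxes, π-λ.) -/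
def S_LIF : Prop := ∀ (k : ℕ) (X ι : Type) [MeasurableSpace X] [Fintype ι]
  (η : Kernel X (Om k)) [IsMarkovKernel η] (Q : Measure (ι → X)) [IsProbabilityMeasure Q],
  IsProbabilityMeasure (lif η Q) ∧
  (∀ B : ι → Set (Om k), (∀ i, MeasurableSet (B i)) →
    lif η Q (univ.pi B) = ∫⁻ z, ∏ i, η (z i) (B i) ∂Q) ∧
  (∀ B : Set (ι → Om k), MeasurableSet B →
    lif η Q B = ∫⁻ z, (Measure.pi fun i => η (z i)) B ∂Q) ∧
  ∀ (f : (ι → Om k) → ℝ), Measurable f → (∃ C, ∀ u, |f u| ≤ C) →
    ∫ u, f u ∂(lif η Q) = ∫ z, ∫ u, f u ∂(Measure.pi fun i => η (z i)) ∂Q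

/-- [LSC] strong continuity. Proof: `b ↦ ∫ z, ∏ i, f i (z i) ∂(Q b)` is continuous for bounded
measurable `f i`: approximate `f i` in `L¹(lam)` by continuous functions with the same bound; the
error is at most `C ∑ i, ‖f i - g i‖₁` for all `b`. Apply this to `f i = η (·) (P i)` for boxes of
clopen sets `P i`; clopen sets of tuples are finite disjoint unions of boxes; a law on tuples of
`Om k` depends continuously on `b` if all clopen sets do. -/
def S_LSC : Prop := ∀ (k : ℕ) (X ι B : Type) [TopologicalSpace X] [MeasurableSpace X] [CS X]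
  [Fintype ι] [TopologicalSpace B] (η : Kernel X (Om k)) [IsMarkovKernel η]
  (lam : ProbabilityMeasure X) (Q : B → ProbabilityMeasure (ι → X)) (C : ℝ≥0), Continuous Q →
  (∀ b i (A : Set X), MeasurableSet A → Q b {z | z i ∈ A} ≤ C * lam A) →
  ∃ κ : B → ProbabilityMeasure (ι → Om k), Continuous κ ∧
    ∀ b, (κ b : Measure (ι → Om k)) = lif η (Q b : Measure (ι → X))

/-- [LKE] the kernels of a level. Equivariance: `η (sh 1 v) = (η v).map (sh 1)` for `lam`-almost all
`v`, so for `Q j v`-almost all `z` it holds at all `z i`. The last part: `EK.fib` and `CK.car`. -/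
def S_LKE : Prop := ∀ (k n : ℕ) (X : Type) [TopologicalSpace X] [MeasurableSpace X] [CS X] [Sys X]
  (M : Set (Om k)) (π : Om k → X) (lam : ProbabilityMeasure X)
  (Q : ∀ j : Fin n, X → ProbabilityMeasure (Oth j → X)) (η : Kernel X (Om k)),
  Po M π → CK n lam Q → EK M π lam η →
  ∃ κ : ∀ j : Fin n, X → ProbabilityMeasure (Oth j → Om k), KK n η Q κ ∧
    (∀ j, Continuous (κ j)) ∧ (∀ j (m : ℤ) v, κ j (sh m v) = sh m (κ j v)) ∧
    ∀ j, ∀ w ∈ M, κ j (π w) {u | ins j w u ∈ CM n M π} = 1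

/-! ## McMahon's argument -/

/-- [LMC] closed invariant relations: `W3.S_MCM` for `A = gr M π` (`S_LGR`), the kernel `κ j` and
`N = {(w, u, v) | ins j w u ∈ R}`. Third part: the indicator of a clopen set is continuous. -/
def S_LMC : Prop := ∀ (k n : ℕ) (X : Type) [TopologicalSpace X] [MeasurableSpace X] [CS X] [Sys X]
  (M : Set (Om k)) (π : Om k → X) (j : Fin n) (κ : X → ProbabilityMeasure (Oth j → Om k))
  (R : Set (Fin n → Om k)), Po M π → Continuous κ → (∀ (m : ℤ) v, κ (sh m v) = sh m (κ v)) →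
  IsClosed R → AK.Inv R →
  (∃ a : ℝ≥0, ∀ w ∈ M, κ (π w) {u | ins j w u ∈ R} = a) ∧
  IPB (gr M π) (fun w w' v => (κ v {u | ins j w u ∈ R ∧ ins j w' u ∉ R} : ℝ) +
    κ v {u | ins j w' u ∈ R ∧ ins j w u ∉ R}) ∧
  ∀ D : Set (Oth j → Om k), IsClopen D →
    ContinuousOn (fun w => (κ (π w) {u | ins j w u ∈ R ∧ u ∈ D} : ℝ)) M

/-- [LTC] the phase is continuous on `M` and equivariant (`S_LMC` for `RT L`, `S_LRT`). -/
def S_LTC : Prop := ∀ (k n : ℕ) (X : Type) [TopologicalSpace X] [MeasurableSpace X] [CS X] [Sys X]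
  (M : Set (Om k)) (π : Om k → X) (κ : ∀ j : Fin n, X → ProbabilityMeasure (Oth j → Om k)),
  Po M π → (∀ j, Continuous (κ j)) → (∀ j (m : ℤ) v, κ j (sh m v) = sh m (κ j v)) →
  ContinuousOn (ThL π κ) M ∧ ∀ w ∈ M, ∀ m : ℤ, ThL π κ (sh m w) = sh m (ThL π κ w)

/-- [LTE] equal phases: all relations `RT L` have almost the same sections (the measures of the
sections inside all boxes at the time `0` agree, the sections are the same up to null sets, by
regularity: `S_LRT`, clopen sets are unions of boxes), hence also all closed invariant relations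
(`S_LRT`: approximation from outside, `κ j (π w) = κ j (π w')`). -/
def S_LTE : Prop := ∀ (k n : ℕ) (X : Type) (π : Om k → X)
  (κ : ∀ j : Fin n, X → ProbabilityMeasure (Oth j → Om k)) (w w' : Om k), π w = π w' →
  ThL π κ w = ThL π κ w' → ∀ (j : Fin n) (R : Set (Fin n → Om k)), IsClosed R → AK.Inv R →
    κ j (π w) {u | ins j w u ∈ R ∧ ins j w' u ∉ R} = 0 ∧
    κ j (π w) {u | ins j w' u ∈ R ∧ ins j w u ∉ R} = 0

/-- [LTM] the metric of the phases: `ρ w w' v = ∑ 2^(-i-2) (the pseudometric of S_LMC for the i-th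
pair (L, j))` (an enumeration of the countable set of pairs); zero set by `S_LTE`; the converse: if all
symmetric differences are null then the coordinates of `ThL` agree. -/
def S_LTM : Prop := ∀ (k n : ℕ) (X : Type) [TopologicalSpace X] [MeasurableSpace X] [CS X] [Sys X]
  (M : Set (Om k)) (π : Om k → X) (κ : ∀ j : Fin n, X → ProbabilityMeasure (Oth j → Om k)),
  Po M π → (∀ j, Continuous (κ j)) → (∀ j (m : ℤ) v, κ j (sh m v) = sh m (κ j v)) →
  ∃ ρ, IPB (gr M π) ρ ∧ ∀ w ∈ M, ∀ w' ∈ M, π w = π w' →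
    (ρ w w' (π w) = 0 ↔ ThL π κ w = ThL π κ w')

/-! ## Full support and (1a) -/

/-- [LFS] the kernels have full support modulo continuous invariant pseudometrics. Proof by
contradiction: let `z i = π (u i)`, `v = π w`, and suppose the set has measure zero. For every
neighbourhood `V` of `z` we have `Q j v V > 0` (`CK.full`), and for `Q j v`-almost all `z'`: every
`z' i` is good for `η` (`EK.fib`, `EK.ball` for `ρ` and all `r = 1/l`; domination of the marginals),
`ins j v z' ∈ PG n X`, and the measure of the set under `Measure.pi (η (z' i))` is zero. Choose such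
`z'_l → z`. `X` is minimal and `ρ` an invariant pseudometric, so (`S_ISP` for `P = gr M π`) there are
`a_l i ∈ M` over `z'_l i`, converging to points `a i` with `ρ (a i) (u i) (z i) = 0`. The product of
the balls `{w' | ρ (a_l i) w' < 1/l}` has positive measure, so it contains some `u'_l` outside the
null set, i.e. `|H u'_l - H u| ≥ ε`. A limit `u'` of the `u'_l` lies over `z`, `ρ (a i) (u' i) = 0` by
continuity, so `ρ (u i) (u' i) = 0` and `H u' = H u` by hypothesis, but `|H u' - H u| ≥ ε` by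
continuity. -/
def S_LFS : Prop := ∀ (k n : ℕ) (X : Type) [TopologicalSpace X] [MeasurableSpace X] [CS X] [Sys X]
  (M : Set (Om k)) (π : Om k → X) (lam : ProbabilityMeasure X)
  (Q : ∀ j : Fin n, X → ProbabilityMeasure (Oth j → X)) (η : Kernel X (Om k))
  (κ : ∀ j : Fin n, X → ProbabilityMeasure (Oth j → Om k)) (ρ : Om k → Om k → X → ℝ),
  Po M π → CK n lam Q → EK M π lam η → KK n η Q κ → IPB (gr M π) ρ →
  ∀ (j : Fin n), ∀ w ∈ M, ∀ H : (Oth j → Om k) → ℝ,
  ContinuousOn H {u | ins j w u ∈ CM n M π} →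
  (∀ u u', ins j w u ∈ CM n M π → ins j w u' ∈ CM n M π →
    (∀ i, π (u i) = π (u' i) ∧ ρ (u i) (u' i) (π (u i)) = 0) → H u = H u') →
  ∀ u, ins j w u ∈ CM n M π → ∀ ε : ℝ, 0 < ε →
    0 < κ j (π w) {u' | ins j w u' ∈ CM n M π ∧ |H u' - H u| < ε}

/-- [L1A] (1a) of note 3799. Let `G` be as in `IsoF`, `w, w' ∈ M` with the same position and phase,
`ins j w u ∈ CM n M π`. For rational `c` the set `R = {x ∈ CM n M π | G x ≤ c}` is closed and
invariant, so (`S_LTE`) its sections at `w` and `w'` are almost equal; so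
`H u := |G (ins j w u) - G (ins j w' u)|` is zero almost everywhere, hence everywhere by `S_LFS`
(for `H`: `IsoF.fac`; `ρ w w = 0`). Then change the coordinates one at a time. -/
def S_L1A : Prop := ∀ (k n : ℕ) (X : Type) [TopologicalSpace X] [MeasurableSpace X] [CS X] [Sys X]
  (M : Set (Om k)) (π : Om k → X) (lam : ProbabilityMeasure X)
  (Q : ∀ j : Fin n, X → ProbabilityMeasure (Oth j → X)) (η : Kernel X (Om k))
  (κ : ∀ j : Fin n, X → ProbabilityMeasure (Oth j → Om k)) (ρ : Om k → Om k → X → ℝ)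
  (G : (Fin n → Om k) → ℝ),
  Po M π → CK n lam Q → EK M π lam η → KK n η Q κ → IPB (gr M π) ρ → IsoF n M π ρ G →
  ∀ u ∈ CM n M π, ∀ u' ∈ CM n M π, (∀ i, π (u i) = π (u' i) ∧ ThL π κ (u i) = ThL π κ (u' i)) →
    G u = G u'

/-- [LST] THE STEP. `K' = {(π w, ThL π κ w) | w ∈ M} ⊆ X × Cube (IxL k n)` is closed and invariant;
`X' = Sp.ofSet K'`, `π' w = (π w, ThL π κ w)` on `M` (anything outside `M`), `p` = first, `e` = second
coordinate. The pseudometric of `S_LTM` on `M` depends only on the phases and the position: it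
defines `ρ'` on the fibres of `p`; continuity: `{(w, w') ∈ M × M | π w = π w'}` is compact and maps
onto `{(y, y') | p y = p y'}`. -/
def S_LST : Prop := ∀ (k n : ℕ) (X : Type) [TopologicalSpace X] [MeasurableSpace X] [CS X] [Sys X]
  (M : Set (Om k)) (π : Om k → X) (lam : ProbabilityMeasure X)
  (Q : ∀ j : Fin n, X → ProbabilityMeasure (Oth j → X)) (η : Kernel X (Om k))
  (κ : ∀ j : Fin n, X → ProbabilityMeasure (Oth j → Om k)),
  Po M π → CK n lam Q → EK M π lam η → KK n η Q κ → (∀ j, Continuous (κ j)) →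
  (∀ j (m : ℤ) v, κ j (sh m v) = sh m (κ j v)) →
  ∃ (X' : Sp) (π' : Om k → X'.C) (p : X'.C → X) (e : X'.C → Cube (IxL k n)),
    Po M π' ∧ Stp n M π π' p ∧ Continuous e ∧ (∀ (m : ℤ) y, e (sh m y) = sh m (e y)) ∧
    (∀ w ∈ M, e (π' w) = ThL π κ w) ∧ ∀ y y', p y = p y' → e y = e y' → y = y'

/-! ## Admissible measures -/

/-- [LAA] the energy set of `AK` over the graph of the position is strongly proximal over `X`:
`Fam (Dlt (gr M π)) = AK.QQ (gr M π)` (`S_FDL`), `AK.AA = AAF = AAE (fcyl k)` (`S_SEO`), `S_SPE`. -/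
def S_LAA : Prop := ∀ (k : ℕ) (X : Type) [TopologicalSpace X] [MeasurableSpace X] [CS X] [Sys X]
  (M : Set (Om k)) (π : Om k → X) (v₀ : X) (m₀ : PM k), Po M π → (v₀, m₀) ∈ AA (gr M π) →
  MinSet (orb (v₀, m₀)) →
  SPx (orb (v₀, m₀)) (Prod.fst : X × PM k → X) ∧ Prod.fst '' orb (v₀, m₀) = univ ∧
  ∀ e ∈ orb (v₀, m₀), e.2 {w | w ∈ M ∧ π w = e.1} = 1

/-- [LBL] the measures of a strongly proximal family of measures on the fibres charge all balls:
`S_BCX`, `S_RIM` (`ms' = Prod.snd`), `S_BLX`. -/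
def S_LBL : Prop := ∀ (k : ℕ) (X : Type) [TopologicalSpace X] [MeasurableSpace X] [CS X] [Sys X]
  (M : Set (Om k)) (π : Om k → X) (E : Set (X × PM k)), Po M π →
  SPx E (Prod.fst : X × PM k → X) → (∀ e ∈ E, e.2 {w | w ∈ M ∧ π w = e.1} = 1) →
  ∀ ρ, IPB (gr M π) ρ → ∀ r : ℝ, 0 < r → ∀ e ∈ E, ∀ w ∈ M, π w = e.1 →
    0 < e.2 {w' | w' ∈ M ∧ π w' = e.1 ∧ ρ w w' e.1 < r}

/-- [LTH] an invariant measure on `E` over `lam` exists: lift `lam` to a measure on `E` (`S_LFT`), the
averages of its shifts have the image `lam` and a limit point which is invariant. -/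
def S_LTH : Prop := ∀ (k : ℕ) (X : Type) [TopologicalSpace X] [MeasurableSpace X] [CS X] [Sys X]
  (E : Set (X × PM k)) (lam : ProbabilityMeasure X), SPx E (Prod.fst : X × PM k → X) →
  Prod.fst '' E = univ → (∀ m : ℤ, sh m lam = lam) →
  ∃ θ : ProbabilityMeasure (X × PM k), θ E = 1 ∧ (∀ m : ℤ, sh m θ = θ) ∧
    (θ : Measure (X × PM k)).map Prod.fst = (lam : Measure X)

/-- [LEK] the disintegration `χ` of `θ` over `lam` and the kernel `η v = ∫ m dχ_v(m)`. Fibres: `θ`
lives on `E`. Equivariance: `χ (sh 1 v)` is the image of `χ v` (`θ` is invariant, uniqueness of the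
disintegration `Kernel.ae_eq_of_compProd_eq` or on a countable generating algebra). Balls: for almost
every `v`, `χ v`-almost every `m` has `(v, m) ∈ E`, `S_LBL`; an integral of a positive function is
positive (the set `{w' | ...}` is relatively open in the fibre, so `m ↦ m {..}` is measurable). -/
def S_LEK : Prop := ∀ (k : ℕ) (X : Type) [TopologicalSpace X] [MeasurableSpace X] [CS X] [Sys X]
  (M : Set (Om k)) (π : Om k → X) (E : Set (X × PM k)) (lam : ProbabilityMeasure X)
  (θ : ProbabilityMeasure (X × PM k)) (χ : Kernel X (PM k)) [IsMarkovKernel χ], Po M π →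
  SPx E (Prod.fst : X × PM k → X) → (∀ e ∈ E, e.2 {w | w ∈ M ∧ π w = e.1} = 1) →
  θ E = 1 → (∀ m : ℤ, sh m θ = θ) → (θ : Measure (X × PM k)) = (lam : Measure X) ⊗ₘ χ →
  EK M π lam (evK k ∘ₖ χ)

/-! ## From `M` to the last level -/

/-- [LFI] the property `Fine` for the last level `Z` (`S_GFN`): given `g` on the tuples of `Z` and a
pseudometric `ρ` on the fibres of `p ∘ pZ`, the function `G u = g (πZ ∘ u)` satisfies `IsoF` for
`ρ (πZ w) (πZ w')`: if `π ∘ u ∈ PG n X` then `πZ ∘ u ∈ WP n (p ∘ pZ)` (`S_LGR`). Points of `WP` are images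
of tuples of `M`. -/
def S_LFI : Prop := ∀ (k n : ℕ) (X X' Z : Type)
  [TopologicalSpace X] [MeasurableSpace X] [CS X] [Sys X]
  [TopologicalSpace X'] [MeasurableSpace X'] [CS X'] [Sys X']
  [TopologicalSpace Z] [MeasurableSpace Z] [CS Z] [Sys Z]
  (M : Set (Om k)) (π : Om k → X) (π' : Om k → X') (πZ : Om k → Z) (p : X' → X) (pZ : Z → X'),
  Po M π → Po M π' → Po M πZ → Stp n M π π' p → Continuous pZ → (∀ w ∈ M, pZ (πZ w) = π' w) →
  DistalOn (shA Z) univ → Fine n (fun z => p (pZ z)) pZ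

/-- [LTW] the tower. `X 0` is a point, `Stp` from `X l` to `X (l + 1)` for all `l`. For the level
`n - 1` the maps `q l : X (n-1) → X l` (compositions of the `p l`) for `l ≤ n - 1`; for `l > n - 1` take
`X (n-1)` and the identity. `Tw.iso`: pull back the pseudometric of the step (for `l ≥ n - 1`: `0`).
Distality: as in `S_GDI` (needs only the maps and the pseudometrics); then `Tw.fine` by `S_LFI`. -/
def S_LTW : Prop := ∀ (k n : ℕ) (X : ℕ → Sp) (M : Set (Om k)) (π : ∀ l, Om k → (X l).C)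
  (p : ∀ l, (X (l + 1)).C → (X l).C), 1 ≤ n → (∀ l, Po M (π l)) →
  (∀ y y' : (X 0).C, y = y') → (∀ l, Stp n M (π l) (π (l + 1)) (p l)) →
  ∃ (Y : ℕ → Type) (_ : ∀ l, TopologicalSpace (Y l)) (_ : ∀ l, MetrizableSpace (Y l))
    (_ : ∀ l, Sys (Y l)) (q : ∀ l, (X (n - 1)).C → Y l), Tw n Y q ∧
    ∀ w ∈ M, ∀ w' ∈ M, ∀ l, l ≤ n - 1 →
      (q l (π (n - 1) w) = q l (π (n - 1) w') ↔ π l w = π l w')

/-- [LFR] freeness for the last level `n - 1` in terms of `M` (`S_GFR`, `S_LTW`): a tuple of points of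
`M` whose positions of the level `n - 2` form a progression is a tuple over the level `n - 1`. -/
def S_LFR : Prop := ∀ (k n : ℕ) (X : ℕ → Sp) (M : Set (Om k)) (π : ∀ l, Om k → (X l).C)
  (p : ∀ l, (X (l + 1)).C → (X l).C), 3 ≤ n → (∀ l, Po M (π l)) →
  (∀ y y' : (X 0).C, y = y') → (∀ l, Stp n M (π l) (π (l + 1)) (p l)) →
  CM n M (π (n - 2)) = CM n M (π (n - 1))

end Pool.Agent.Work.MP_69fea5_lc.W3
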