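import Pool.Agent.Work.MP_69fea5_lc.W3.DefsV
import Pool.Agent.Work.MP_69fea5_lc.N3.StmtsH2

/-!
# Block [69fea5 W4], part V: the greedy construction and Case II for chains of every length
(sections 5 and 6 of note 3799): statements of the items

Every item is a theorem `XXX_pf (h1 : S_A) (h2 : S_B) ... : S_XXX` in its own file
`W3/I_XXX.lean`; the hypotheses may be any statements of EARLIER items of this file, of
`N3/StmtsA.lean`, `N3/StmtsB.lean`, `N3/StmtsH.lean`, `N3/StmtsH2.lean`, or `AK.S_...`, `KC.S_...`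
(all proved on main). Proofs in the docstrings.
-/

set_option autoImplicit false

namespace Pool.Agent.Work.MP_69fea5_lc.W3

open MeasureTheory Topology Set Filter ProbabilityTheory
open scoped NNReal ENNReal
open Pool.Agent.Work.MP_69fea5_lc.AK
open Pool.Agent.Work.MP_69fea5_lc.HK (Cl DU Ar ArF ArR Dat Law LawC act near sc Pt oc Mn mr ext)

/-! ## General facts on tuples -/

/-- [SPM] an invariant measure on a minimal set has full support. (`supp μ` is closed and contained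
in `M` (`AK.S_SUP`), non-empty, and invariant because `sh n μ = μ` for all `n`.) -/
def S_SPM : Prop := ∀ (k : ℕ) (M : Set (Om k)) (μ : PM k), MinSet M → sh 1 μ = μ → μ M = 1 →
  ∀ w ∈ M, ∀ U ∈ 𝓝 w, 0 < μ U

/-- [TBX] the space of tuples `Fin n → Om k` is compact, metrizable and zero-dimensional: clopen
separation, clopen regularity of finite measures (as `N3.S_NBX`, `N3.S_CL2`), small boxes, clopen
sets are finite disjoint unions of boxes of centred words of one length (as `N3.S_RCT`). -/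
def S_TBX : Prop := ∀ (k n : ℕ),
  (∀ (K O : Set (Fin n → Om k)), IsClosed K → IsOpen O → K ⊆ O →
    ∃ D, IsClopen D ∧ K ⊆ D ∧ D ⊆ O) ∧
  (∀ (ν : Measure (Fin n → Om k)) [IsFiniteMeasure ν] (F : Set (Fin n → Om k)) (a : ℝ),
    IsClosed F → ν.real F < a → ∃ C, IsClopen C ∧ F ⊆ C ∧ ν.real C < a) ∧
  (∀ (C : Set (Fin n → Om k)), IsClopen C → ∃ (L : ℕ) (T : Finset (Fin n → Wd k)),
    (∀ P ∈ T, ∀ j, (P j).length = 2 * L + 1) ∧
    C = ⋃ P ∈ T, (univ.pi fun j => cyl (P j) 0) ∧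
    (T : Set (Fin n → Wd k)).PairwiseDisjoint fun P => (univ.pi fun j => cyl (P j) 0))

/-- [TSC] sections of closed sets of tuples are upper semicontinuous (tube lemma;
`(w, u) ↦ cns w u` is continuous). -/
def S_TSC : Prop := ∀ (k n : ℕ) (R : Set (Fin (n + 1) → Om k)), IsClosed R → ∀ (w : Om k)
  (C : Set (Fin (n + 1) → Om k)), IsOpen C → {u | cns w u ∈ R} ⊆ C →
  IsClosed {u | cns w u ∈ R} ∧ ∃ W ∈ 𝓝 w, ∀ w' ∈ W, {u | cns w' u ∈ R} ⊆ C

/-- [AVD] the set of the tuples whose orbit avoids a clopen box is closed and invariant, and it is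
disjoint from the box. If `w ∈ M` is such that the section of `avd P` at `w` is inside an open set
`C`, then finitely many times `|m| ≤ J` suffice (the sections for `J` are closed and decreasing;
compactness). -/
def S_AVD : Prop := ∀ (k n : ℕ) (P : Fin (n + 1) → Set (Om k)), (∀ j, IsClopen (P j)) →
  TRel (avd P) ∧ (∀ u ∈ avd P, u ∉ univ.pi P) ∧
  ∀ (w : Om k) (C : Set (Fin (n + 1) → Om k)), IsOpen C → {u | cns w u ∈ avd P} ⊆ C →
    ∃ J : ℕ, ∀ u : Fin (n + 1) → Om k,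
      (∀ m : ℤ, |m| ≤ (J : ℤ) → ¬ ∀ j, sh m (cns w u j) ∈ P j) → u ∈ C

/-! ## The greedy argument -/

/-- [GUS] the `κ (π w)`-measure of the section of `R` at `w` is constant on `M`, and its part in a
clopen set `C` is continuous on `M`. Upper semicontinuity: if
`κ (π w) (sec w ∩ C) < t` take a clopen `D ⊇ sec w ∩ C` with `κ (π w) D < t` (`S_TBX`); near `w` the
section is inside `D ∪ Cᶜ` (`S_TSC`) and `κ (π w') D < t` (`GH.kc`). Invariance (`C = univ`):
`GH.ke` and `TRel.inv`; `AK.S_CST`. Continuity: the parts in `C` and in `Cᶜ` are upper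
semicontinuous with constant sum. -/
def S_GUS : Prop := ∀ (k n : ℕ) (X : Type) [TopologicalSpace X] [Sys X] (c : Om k)
  (M : Set (Om k)) (π : Om k → X) (v₀ : X) (μ : PM k) (κ : X → Measure (Fin (n + 1) → Om k)),
  GH c M π v₀ μ κ → ∀ R : Set (Fin (n + 1) → Om k), TRel R →
  (∃ a : ℝ, ∀ w ∈ M, (κ (π w)).real {u | cns w u ∈ R} = a) ∧
  ∀ C : Set (Fin (n + 1) → Om k), IsClopen C →
    ContinuousOn (fun w => (κ (π w)).real ({u | cns w u ∈ R} ∩ C)) M

/-- [GTR] transport: if the box `P` is blocked then almost all of the box is in the section of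
`avd P` at every point `w₀` over `v₀`. Proof (no limit measures): let `a` be the constant of `S_GUS`
for `R = avd P`. Take an ultrafilter `G ≤ atTop` along which `T^x (c, v₀) → (w, π w)` (`GH.ret`) and
`T^x w₀ → w'` (compactness; `w' ∈ M`, `π w' = π w` by continuity of `π` on `M` and
`π (T^x w₀) = T^x v₀`). By `GH.wd` the union of the sections at `w` and `w'` has `κ (π w)`-measure
`a`; given `ε > 0` take a clopen `C` containing both sections with `κ (π w) C < a + ε` (`S_TBX`).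
(i) for `G`-almost all `x` the section at `T^x w₀` is inside `C` (`S_TSC`), i.e. `T^x u ∈ C` for all
`u` in the section at `w₀`; (ii) let `J` be as in `S_AVD` for `w`, `C`. For `G`-almost all `x` we
have `x - J ≥ N`, `sh (x + m) c ∈ P 0 ↔ sh m w ∈ P 0` for `|m| ≤ J`; since `P` is blocked, for
`κ v₀`-almost all `u` in the box and all `|m| ≤ J` it is not true that `sh (x + m) c ∈ P 0` and
`sh (x + m) (u j) ∈ P (j + 1)` for all `j < n`; so `tsh x u ∈ C` for almost all `u` in the box. Hence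
`κ v₀ (box ∪ sec w₀) ≤ κ v₀ {tsh x u ∈ C} = κ (T^x v₀) C` (`GH.ke` at `w₀`), which tends to
`κ (π w) C < a + ε` (`GH.kc`). So `κ v₀ (box ∪ sec w₀) ≤ a = κ v₀ (sec w₀)`. -/
def S_GTR : Prop := ∀ (k n : ℕ) (X : Type) [TopologicalSpace X] [T2Space X] [Sys X] (c : Om k)
  (M : Set (Om k)) (π : Om k → X) (v₀ : X) (μ : PM k) (κ : X → Measure (Fin (n + 1) → Om k)),
  GH c M π v₀ μ κ → ∀ P : Fin (n + 1) → Set (Om k), (∀ j, IsClopen (P j)) → ∀ N : ℕ,
  (∀ x : ℕ, N ≤ x → sh (x : ℤ) c ∈ P 0 →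
    κ v₀ (univ.pi P ∩ {u | ∀ j : Fin n, sh (x : ℤ) (u j.castSucc) ∈ P j.succ}) = 0) →
  ∀ w₀ ∈ M, π w₀ = v₀ → κ v₀ (univ.pi P \ {u | cns w₀ u ∈ avd P}) = 0

/-- [GNB] no box of positive measure is blocked. Otherwise take `w₀ ∈ M` over `v₀` (`GH.base`); by
`S_GTR` `κ (π w₀) (sec w₀ ∩ box) = κ v₀ (box) > 0`, by `S_GUS` (continuity) the same is positive for
all `w ∈ M` in a neighbourhood of `w₀`, which has positive `μ`-measure (`S_SPM`); but for `μ`-almost
all `w` (`GH.shf` for `avd P`) almost every `u` in the section at `w` is in `avd P`, so not in the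
box (`S_AVD`). -/
def S_GNB : Prop := ∀ (k n : ℕ) (X : Type) [TopologicalSpace X] [T2Space X] [Sys X] (c : Om k)
  (M : Set (Om k)) (π : Om k → X) (v₀ : X) (μ : PM k) (κ : X → Measure (Fin (n + 1) → Om k)),
  GH c M π v₀ μ κ → NBl c (κ v₀)

/-! ## The greedy construction, coded -/

/-- [GSM] the combinatorics of the greedy construction. Claim by induction on `i`: for `j ≤ n` and
every set `G` of indices `< i` with at most `n - j` elements, `(∑_(l ∈ G) x l, r)` is in `P i j`. The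
colour of `∑_(l ∈ G) x l + x i`, `|G| ≤ n`, is `r` by `h1`. -/
def S_GSM : Prop := ∀ (k n : ℕ) (c : ℕ → Fin k) (r : Fin k) (x : ℕ → ℕ)
  (P : ℕ → Fin (n + 1) → HK.C k), StrictMono x → (∀ j, ((0 : ℤ), r) ∈ P 0 j) →
  (∀ i, ∀ q ∈ P i 0, ext c (q.1 + (x i : ℤ)) = q.2) →
  (∀ i j, ∀ q ∈ P i j, q ∈ P (i + 1) j) →
  (∀ i (j : Fin n), ∀ q ∈ P i j.succ, (q.1 + (x i : ℤ), q.2) ∈ P (i + 1) j.castSucc) →
  ∀ F : Finset ℕ, (F : Set ℕ) ⊆ Set.range x → F.Nonempty → F.card ≤ n + 1 →
    c (∑ y ∈ F, y) = r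

/-- [GCT] the coded greedy construction (model: `N3/I_CI3.lean`). States `(x, P)`,
`P : Fin (n + 1) → HK.C k` with `0 < ν (univ.pi fun j => HK.cyl (P j))`; the first state is
`(0, fun _ => [(0, r)])`; step: choose (`HK.Ar.choose`) `x' > x` such that `ext c` satisfies the
constraints of `P 0` shifted by `x'` and the new state
`P' j = P j ++ (P (j + 1)).map (q ↦ (q.1 + x', q.2))` (`j < n`), `P' n = P n` has positive measure;
it exists by `NBl` for the clopen sets `HK.cyl (P j)`. Then `S_GSM`; `X` is the range of the `x`. -/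
def S_GCT : Prop := ∀ (S : Set (Set ℕ)), Cl S → ∀ (k n : ℕ) (c : ℕ → Fin k)
  (ν : Measure (Fin (n + 1) → Om k)) [IsProbabilityMeasure ν] (r : Fin k), ArF S c → NCt S ν →
  0 < ν (univ.pi fun _ => {z | z 0 = r}) → NBl (ext c) ν → SolN S (n + 1) c

/-! ## Case II: the zones -/

/-- [PWC] a minimal set of `T^a`, `a > 0`, in a `T`-minimal set `Y` is relatively open in `Y`. (The
sets `T^i K`, `0 ≤ i < a`, are `T^a`-minimal; their union is closed and `T`-invariant, so it is `Y`;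
those different from `K` are disjoint from `K`.) -/
def S_PWC : Prop := ∀ (X : Type) [TopologicalSpace X] [CompactSpace X] [T2Space X] [Sys X]
  (Y : Set X), MinSet Y → ∀ a : ℤ, 0 < a → ∀ K : Set X, K ⊆ Y → MinSet (X := PW a X) K →
    ∃ O : Set X, IsOpen O ∧ K = O ∩ Y

/-- [FCB] a finite closed cover of a relatively open set (induction: if `O ∩ W` is not in `F i`, go
on with `O \ F i`). -/
def S_FCB : Prop := ∀ (X ι : Type) [TopologicalSpace X] [Finite ι] (W O : Set X) (F : ι → Set X),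
  IsOpen O → (O ∩ W).Nonempty → (∀ i, IsClosed (F i)) → O ∩ W ⊆ ⋃ i, F i →
  ∃ i, ∃ O' : Set X, IsOpen O' ∧ (O' ∩ W).Nonempty ∧ O' ∩ W ⊆ O ∩ F i

/-- [ZOC] zones. `YY` is a minimal set of tuples of points of `Y` for `T × T² × … × T^n`, and in
every tuple of `YY` every colour has measure zero for some coordinate. Then for every colour `r`
there are points near `v₀` around which `r` has measure zero. Proof: `O = {y | ∀ j, (y j).1 ∈ U°}` is
open and meets `YY`; the closed sets `F f = {y | ∀ r, (y (f r)).2 {z | z 0 = r} = 0}`,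
`f : Fin k → Fin n`, cover `YY` (closed: `AK.S_PMB`, `{z | z 0 = r}` is clopen); `S_FCB` gives `f` and
an open `O'`. Let `j = f r`. The projection to the coordinate `j` is a homomorphism
`TP n (B × PM k) → PW (j + 1) (B × PM k)`; its image of `YY` is minimal (`AK.S_IMG`) and relatively
open in `Y` (`S_PWC`), and the projection is semi-open (`AK.S_SEMI` for these two systems): some
non-empty relatively open subset of `Y` is in the image of `O' ∩ YY`. -/
def S_ZOC : Prop := ∀ (k n : ℕ) (B : Type) [TopologicalSpace B] [CompactSpace B] [T2Space B]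
  [Sys B] (Y : Set (B × PM k)) (YY : Set (TP n (B × PM k))) (v₀ : B), MinSet Y → MinSet YY →
  (∀ y ∈ YY, ∀ j : Fin n, (y j : B × PM k) ∈ Y) →
  (∀ y ∈ YY, ∀ r : Fin k, ∃ j : Fin n, (y j : B × PM k).2 {z | z 0 = r} = 0) →
  (∃ y ∈ YY, ∀ j : Fin n, (y j : B × PM k).1 = v₀) →
  ∀ r : Fin k, ∀ U ∈ 𝓝 v₀, ∃ y ∈ Y, y.1 ∈ U ∧ Zr Y r y

/-- [YYM] a minimal set of tuples over `(v₀, …, v₀)` inside a closed invariant set `SS` which has a
point over `(v₀, …, v₀)`, if the orbit closure of `(v₀, …, v₀)` under `T × T² × … × T^n` is minimal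
(`AK.S_ZORN` in `SS ∩ {y | (y ·).1 ∈ orb (v₀, …, v₀)}`; the image of the minimal set in `TP n B` is
closed, invariant and non-empty). -/
def S_YYM : Prop := ∀ (k n : ℕ) (B : Type) [TopologicalSpace B] [CompactSpace B] [T2Space B]
  [Sys B] (v₀ : B) (SS : Set (TP n (B × PM k))), IsClosed SS → AK.Inv SS →
  (∃ y ∈ SS, ∀ j : Fin n, (y j : B × PM k).1 = v₀) →
  MinSet (orb (X := TP n B) fun _ => v₀) →
  ∃ YY : Set (TP n (B × PM k)), MinSet YY ∧ YY ⊆ SS ∧
    ∃ y ∈ YY, ∀ j : Fin n, (y j : B × PM k).1 = v₀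

/-! ## Case II: the stage and the final set -/

/-- [ZRB] over a base `Γ` which is a graph the position is a continuous function of the measure
(`Y = orb (v₀, m₁)` is compact and `(v, m) ↦ m` is injective on it, because `m` is carried by the
fibre of `v`), so the zones are robust. -/
def S_ZRB : Prop := ∀ (k : ℕ) (B : Type) [TopologicalSpace B] [CompactSpace B] [T2Space B]
  [Sys B] (Γ : Set (Om k × B)) (v₀ : B) (m₁ : PM k) (r : Fin k), MinSet Γ →
  (∀ z v v', (z, v) ∈ Γ → (z, v') ∈ Γ → v = v') → (v₀, m₁) ∈ AA Γ →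
  MinSet (orb (v₀, m₁)) → ∀ y ∈ orb (v₀, m₁), Zr (orb (v₀, m₁)) r y →
    Rb (Finset.univ.erase r) y.2

/-- [ZST] if the zones of the colour `r` accumulate at `(v₀, m₀) ∈ orb (v₀, m₁)` then `m₀` is a
stage without the colour `r`. (`Y = orb (v₀, m₁) = orb (v₀, m₀)` is a minimal subset of `AA Γ`
(`AK.S_AAB`); `MinSet (MM m₀)`: `AK.S_GLX`, `AK.S_GLM`; base: `AK.S_GLO`; robustness: if
`(v, m) ∈ Y` is in a zone, `m` close to `m₀`, then `Rb D m` by `S_ZRB`, an open condition on the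
orbit closure of `m₀` (which contains `m` and is minimal); `sh n m₀` comes close to `m`.) -/
def S_ZST : Prop := ∀ (k : ℕ) (B : Type) [TopologicalSpace B] [CompactSpace B] [T2Space B]
  [Sys B] (Γ : Set (Om k × B)) (c : Om k) (v₀ : B) (m₁ m₀ : PM k) (r : Fin k), MinSet Γ →
  (∀ z v v', (z, v) ∈ Γ → (z, v') ∈ Γ → v = v') → Γ ⊆ omg (c, v₀) → (v₀, m₁) ∈ AA Γ →
  MinSet (orb (v₀, m₁)) → (v₀, m₀) ∈ orb (v₀, m₁) →
  (v₀, m₀) ∈ closure {y | y ∈ orb (v₀, m₁) ∧ Zr (orb (v₀, m₁)) r y} →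
    Stage c m₀ (Finset.univ.erase r)

/-- [SGD] a stage gives `GOOD` (`N3.S_GDT` for `B = PM k`, `R = MM m0`, `z ∈ supp m0`,
`O = {m | Rb D m}`). `R ⊆ omg (c, m0)`: `AK.S_STG`. Openness of `O` on `orb m0`: all `m ∈ orb m0`
have the orbit closure `orb m0`. Colour: points `(T^n z', T^n m0)`, `z' ∈ supp m0`, are dense in
`MM m0`; if `p ∈ MM m0`, `Rb D p.2` and `p.1 0 ∉ D`, one of them has `T^n m0` in the neighbourhood of
`p.2` and `(T^n z') 0 ∉ D`, but `T^n z' ∈ supp (T^n m0)`. -/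
def S_SGD : Prop := ∀ (k : ℕ) (c : Om k) (m0 : PM k) (D : Finset (Fin k)), Stage c m0 D →
  N3.GOOD c D (fun n => Rb D (sh (n : ℤ) m0))

/-- [SGC] robustness along the orbit of a coded measure is recognised (as `N3.S_HBC` or by
`KC.S_KRB`, `KC.S_CYSC`: `Rb D m` iff for some `L` all `j` with `|(sh j m) [w] - m [w]| < 1/(L+1)` for
the words `w` of code `≤ L` have `(sh j m) [a] = 0` for the letters `a ∉ D`). -/
def S_SGC : Prop := ∀ (S : Set (Set ℕ)), Cl S → ∀ (k : ℕ) (D : Finset (Fin k)) (m0 : PM k),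
  Pt S m0 → Ar S fun n : ℤ => Rb D (sh n m0)

/-- [KZC] a coded stage from zones accumulating at `v₀` (model: `KC/I_KSTEP.lean`). For every `L`
there is `n` with `near L (sh n v₀) v₀` and `Rb (univ.erase r) (sh n m₁)` (the zone is relatively
open in `orb (v₀, m₁)`, `S_ZRB`); choose `n L` (`HK.Ar.choose`, `S_SGC`), `m₀ :=` the limit of `sh (n L) m₁` along `U`; it is coded
(`HK.LawC.sc_lim`) and `(v₀, m₀) ∈ orb (v₀, m₁)`. Conversely `Rb` at `sh n m₁` gives `Zr` at
`sh n (v₀, m₁)`. Then `S_ZST`. -/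
def S_KZC : Prop := ∀ (S : Set (Set ℕ)) (U : Ultrafilter ℕ), Cl S → DU S U → ∀ (k : ℕ) (I : Type)
  [Primcodable I] (Γ : Set (Om k × Cube I)) (c : Om k) (v₀ : Cube I) (m₁ : PM k) (r : Fin k),
  Pt S v₀ → Pt S m₁ → MinSet Γ → (∀ z v v', (z, v) ∈ Γ → (z, v') ∈ Γ → v = v') →
  Γ ⊆ omg (c, v₀) → (v₀, m₁) ∈ AA Γ → MinSet (orb (v₀, m₁)) →
  (∀ U' ∈ 𝓝 v₀, ∃ y ∈ orb (v₀, m₁), y.1 ∈ U' ∧ Zr (orb (v₀, m₁)) r y) →
    ∃ m₀ : PM k, Pt S m₀ ∧ Stage c m₀ (Finset.univ.erase r)

/-- [SGF] a coded stage gives a coded set whose finite sums have colours in `D` (`S_SGD`, `S_SGC`,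
`N3.S_GSL`). -/
def S_SGF : Prop := ∀ (S : Set (Set ℕ)), Cl S → ∀ (k : ℕ) (c : ℕ → Fin k) (D : Finset (Fin k))
  (m0 : PM k), ArF S c → Pt S m0 → Stage (ext c) m0 D → N3.SolD S c D

end Pool.Agent.Work.MP_69fea5_lc.W3
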