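import Pool.Agent.Work.MP_69fea5_lc.W3.DefsV2
import Pool.Agent.Work.MP_69fea5_lc.W3.StmtsV
import Pool.Agent.Work.MP_69fea5_lc.W3.StmtsL

/-!
# Block [69fea5 W4], part V, second half (the top level): statements of the items

Every item is a theorem `XXX_pf (h1 : S_A) (h2 : S_B) ... : S_XXX` in its own file
`W3/I_XXX.lean`; the hypotheses may be any statements of EARLIER items of this file, of `StmtsV`,
`StmtsT`, `StmtsL`, or `AK.S_...`, `N3.S_...`, `KC.S_...` (all proved on main). Proofs in the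
docstrings. `X` is a minimal compact metrizable system with a canonical measure `lam` and chain
kernels `K` (`CH`), `π : M → X` the position.
-/

set_option autoImplicit false

namespace Pool.Agent.Work.MP_69fea5_lc.W3

open MeasureTheory Topology Set Filter ProbabilityTheory TopologicalSpace
open scoped NNReal ENNReal
open Pool.Agent.Work.MP_69fea5_lc.AK
open Pool.Agent.Work.MP_69fea5_lc.HK (Cl DU Ar ArF ArR Dat Law LawC act near sc Pt oc Mn mr ext)

/-! ## Laws of tuples of points -/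

/-- [VLP] the law of a tuple of points given the law of the positions. If the one-point marginals
of `Q` are dominated by `lam` then the points of the lift lie in `M` and have the prescribed
positions. (Parts 1, 2: `z ↦ Measure.pi (η (z i))` is measurable, boxes, π-λ. Part 3: `TopL.fib` has
an exceptional set of `lam`-measure zero, so for `Q`-almost all `z` no `z i` is exceptional; the
`i`-th marginal of `Measure.pi (η (z i))` is `η (z i)`. Part 4: from 3. Parts 5, 6: `π` is continuous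
on the compact set `M`, so it agrees on `M` with a measurable map; then 3.) -/
def S_VLP : Prop := ∀ (O X : Type) [TopologicalSpace O] [MeasurableSpace O] [CS O] [Sys O]
  [TopologicalSpace X] [MeasurableSpace X] [CS X] [Sys X]
  (M : Set O) (π : O → X) (lam : ProbabilityMeasure X) (μ : ProbabilityMeasure O)
  (η : Kernel X O), TopL M π lam μ η → ∀ (n : ℕ) (Q : Measure (Fin n → X))
  [IsProbabilityMeasure Q] (C : ℝ≥0), Dom (lam : Measure X) C Q →
  IsProbabilityMeasure (lif η Q) ∧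
  (∀ B : Fin n → Set O, (∀ i, MeasurableSet (B i)) →
    lif η Q (univ.pi B) = ∫⁻ z, ∏ i, η (z i) (B i) ∂Q) ∧
  (∀ᵐ z ∂Q, ∀ᵐ u ∂(Measure.pi fun i : Fin n => η (z i)), ∀ i, u i ∈ M ∧ π (u i) = z i) ∧
  (∀ᵐ u ∂lif η Q, ∀ i, u i ∈ M) ∧
  (∀ B : Set (Fin n → X), MeasurableSet B → lif η Q {u | (fun i => π (u i)) ∈ B} = Q B) ∧
  AEMeasurable (fun (u : Fin n → O) i => π (u i)) (lif η Q)

/-- [VLE] equivariance of the lift, with different powers of the shift for the coordinates. (By
`TopL.eqv` and the invariance of `lam`, `η (sh m v) = (η v).map (sh m)` for `lam`-almost all `v` and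
all `m : ℤ`, hence for `Q`-almost all `z` and all coordinates; check on boxes, `S_VLP`.) -/
def S_VLE : Prop := ∀ (O X : Type) [TopologicalSpace O] [MeasurableSpace O] [CS O] [Sys O]
  [TopologicalSpace X] [MeasurableSpace X] [CS X] [Sys X]
  (M : Set O) (π : O → X) (lam : ProbabilityMeasure X) (μ : ProbabilityMeasure O)
  (η : Kernel X O), TopL M π lam μ η → (lam : Measure X).map (sh 1 : X → X) = lam →
  ∀ (n : ℕ) (Q : Measure (Fin n → X)) [IsProbabilityMeasure Q]
  (C : ℝ≥0), Dom (lam : Measure X) C Q → ∀ a : Fin n → ℤ,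
  (lif η Q).map (fun (u : Fin n → O) i => sh (a i) (u i)) =
    lif η (Q.map fun (z : Fin n → X) i => sh (a i) (z i))

/-- [VST] stationarity of the chains of points: `(w, u_0, …, u_(n-1))` and `(u_0, …, u_n)` have the
same law if `w` has the law `μ` and `u` the law `lif η (K (π w))`. (Both sides are finite measures as
functions of `B` (replace `π` by a measurable map which agrees with it on `M`), so it is enough to
take a box `B = univ.pi B'`. The left side is
`∫ dμ(w) 1_(B' 0) (w) ∫ ∏_(j < n) η (z j) (B' (j + 1)) dK_(π w)(z)`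
`= ∫ dlam(v) η v (B' 0) ∫ ∏_(j < n) η (z j) (B' (j + 1)) dK_v(z)` (`TopL.bind`, `TopL.fib`,
`S_VLP`) `= ∫ dlam(v) ∫ dK_v(z) F (cns v z)` for `F z = ∏ j, η (z j) (B' j)`; the right side is
`∫ dlam(v) ∫ dK_v(z) F z`; `CH.sta`.) -/
def S_VST : Prop := ∀ (k n : ℕ) (X : Type) [TopologicalSpace X] [MeasurableSpace X] [CS X]
  [Sys X] (M : Set (Om k)) (π : Om k → X) (lam : ProbabilityMeasure X) (μ : PM k)
  (η : Kernel X (Om k)) (K : X → ProbabilityMeasure (Fin (n + 1) → X)),
  TopL M π lam μ η → CH lam K → ∀ B : Set (Fin (n + 1) → Om k), MeasurableSet B →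
  ∫⁻ w, lif η (K (π w) : Measure (Fin (n + 1) → X)) {u | cns w u ∈ B} ∂(μ : Measure (Om k)) =
    ∫⁻ w, lif η (K (π w) : Measure (Fin (n + 1) → X)) B ∂(μ : Measure (Om k))

/-- [SHC] shift invariance of visible functions. (The progressions `x = (T^(b + i u) y)_i`, `i < n + 2`,
are dense in `PG (n + 2) X`; for `Fin.cons v z = x` we have `z = tsh u (cns v z)` and
`cns v z ∈ PG (n + 1) X`, so `g (cns v z) = g z` by iterating `Vis.inv` (`PG (n + 1) X` is invariant
under `tsh`); both sides are continuous.) -/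
def S_SHC : Prop := ∀ (n : ℕ) (X : Type) [TopologicalSpace X] [T2Space X] [Sys X]
  (g : (Fin (n + 1) → X) → ℝ), Vis g → ∀ (v : X) (z : Fin (n + 1) → X),
  (Fin.cons v z : Fin (n + 2) → X) ∈ PG (n + 2) X → g (cns v z) = g z

/-! ## The greedy hypotheses -/

/-- [VWD] sections at points with the same position agree almost everywhere. (Let `κ = lif η (K (π w))`.
`1_R (cns w u)` and `1_R (cns w' u)` are both within `ε` in the mean square for `κ` of the same
function `g (cns (π w) (π ∘ u))` (`TopA`; all functions are bounded and almost everywhere measurable,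
`S_VLP`); so `κ {…} ≤ 4 ε` by `(a - b)² ≤ 2 (a - g)² + 2 (b - g)²`.) -/
def S_VWD : Prop := ∀ (k n : ℕ) (X : Type) [TopologicalSpace X] [MeasurableSpace X] [CS X]
  [Sys X] (M : Set (Om k)) (π : Om k → X) (lam : ProbabilityMeasure X) (μ : PM k)
  (η : Kernel X (Om k)) (K : X → ProbabilityMeasure (Fin (n + 1) → X)),
  TopL M π lam μ η → CH lam K → TopA M π K η →
  ∀ R : Set (Fin (n + 1) → Om k), TRel R → ∀ w ∈ M, ∀ w' ∈ M, π w = π w' →
    lif η (K (π w) : Measure (Fin (n + 1) → X)) {u | cns w u ∈ R ∧ cns w' u ∉ R} = 0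

/-- [VSH] shift invariance. Let `Λ` be the law of `(w, u)`, `w` with the law `μ`, `u` with the law
`lif η (K (π w))`. `1_R (cns w u)` is within `ε` (mean square for `Λ`) of `g (cns (π w) (π ∘ u))` by
`TopA`; since `cns w u` and `u` have the same law (`S_VST`; `cns (π w) (π ∘ u)` is the tuple of the
positions of `cns w u`), `1_R u` is within `ε` of `g (π ∘ u)`; the two functions of the positions
agree `Λ`-almost everywhere (`S_SHC`, `CH.car`, `S_VLP`). So `1_R (cns w u)` and `1_R u` are within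
`4 ε` for every `ε`: they agree `Λ`-almost everywhere. -/
def S_VSH : Prop := ∀ (k n : ℕ) (X : Type) [TopologicalSpace X] [MeasurableSpace X] [CS X]
  [Sys X] (M : Set (Om k)) (π : Om k → X) (lam : ProbabilityMeasure X) (μ : PM k)
  (η : Kernel X (Om k)) (K : X → ProbabilityMeasure (Fin (n + 1) → X)),
  TopL M π lam μ η → CH lam K → TopA M π K η →
  ∀ R : Set (Fin (n + 1) → Om k), TRel R → ∀ᵐ w ∂(μ : Measure (Om k)),
    ∀ᵐ u ∂lif η (K (π w) : Measure (Fin (n + 1) → X)), cns w u ∈ R → u ∈ R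

/-- [VGH] the hypotheses of the greedy argument. (`GH.prob`: `S_VLP`; `GH.kc`: `S_LSC`; `GH.ke`:
`S_VLE`, `CH.ke`; `S_VWD`, `S_VSH`.) -/
def S_VGH : Prop := ∀ (k n : ℕ) (X : Type) [TopologicalSpace X] [MeasurableSpace X] [CS X]
  [Sys X] (c : Om k) (M : Set (Om k)) (π : Om k → X) (v₀ : X) (lam : ProbabilityMeasure X)
  (μ : PM k) (η : Kernel X (Om k)) (K : X → ProbabilityMeasure (Fin (n + 1) → X)),
  TopL M π lam μ η → CH lam K → TopA M π K η → (∃ w ∈ M, π w = v₀) →
  (∃ w ∈ M, (w, π w) ∈ omg (c, v₀)) →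
    GH c M π v₀ μ fun v => lif η (K v : Measure (Fin (n + 1) → X))

/-! ## Case II: measures on the system of measures -/

/-- [RHC] `Y ⊆ QQ (gr M π)` is a system of measures, `θ` an invariant measure on it over `lam` with
the disintegration `ζ`, `μ` its barycentre. Then the law of tuples of points is the mean of the
products over the law of tuples of measures. (For measurable `B ⊆ Om k`, `V ⊆ X`:
`∫_V η v B dlam = μ (B ∩ {w ∈ M | π w ∈ V}) = ∫ y.2 (B ∩ {w ∈ M | π w ∈ V}) dθ(y)`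
`= ∫_(y.1 ∈ V) y.2 B dθ(y)`, because `y.2` is carried by the fibre over `y.1` for `y ∈ Y`; and
`= ∫_V (∫ y.2 B dζ_v(y)) dlam(v)`. So `η v B = ∫ y.2 B dζ_v(y)` for `lam`-almost all `v`; then the
product formula of `S_VLP` for `η` and for `ζ`, and Fubini (`lintegral` of a product of functions of
different coordinates for `Measure.pi`).) -/
def S_RHC : Prop := ∀ (k n : ℕ) (X : Type) [TopologicalSpace X] [MeasurableSpace X] [CS X]
  [Sys X] (M : Set (Om k)) (π : Om k → X) (lam : ProbabilityMeasure X) (μ : PM k)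
  (η : Kernel X (Om k)) (Y : Set (X × PM k)) (θ : ProbabilityMeasure (X × PM k))
  (ζ : Kernel X (X × PM k)), TopL M π lam μ η → TopL Y Prod.fst lam θ ζ → Y ⊆ QQ (gr M π) →
  Bar θ (fun q : X × PM k => q.2) μ → ∀ (Q : Measure (Fin n → X)) [IsProbabilityMeasure Q]
  (C : ℝ≥0), Dom (lam : Measure X) C Q → ∀ B : Fin n → Set (Om k), (∀ i, MeasurableSet (B i)) →
  lif η Q (univ.pi B) = ∫⁻ y, ∏ i, ((y i).2 : Measure (Om k)) (B i) ∂lif ζ Q

/-- [RHS] the support of `ρ = lif ζ (K v₀)` satisfies the hypotheses of `S_YYM` and `S_ZOC`, if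
`lif η (K v₀)` does not charge the boxes of the colours. (Closed; invariant under
`T × T² × … × T^(n+1)` by `CH.kt` and `S_VLE` for `ζ`; inside `Y^(n+1)` because `Y` is closed
(`S_VLP`); for every colour `r` the open set `{y | ∀ j, 0 < (y j).2 {z | z 0 = r}}` has measure zero
(`S_RHC`), so it does not meet the support; a point over `(v₀, …, v₀)`: for every open `U ∋ v₀` the
open set `{y | ∀ j, (y j).1 ∈ U}` has positive measure (`CH.dia`, `S_VLP`), so it meets the support;
compactness.) -/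
def S_RHS : Prop := ∀ (k n : ℕ) (X : Type) [TopologicalSpace X] [MeasurableSpace X] [CS X]
  [Sys X] (M : Set (Om k)) (π : Om k → X) (lam : ProbabilityMeasure X) (μ : PM k)
  (η : Kernel X (Om k)) (Y : Set (X × PM k)) (θ : ProbabilityMeasure (X × PM k))
  (ζ : Kernel X (X × PM k)) (K : X → ProbabilityMeasure (Fin (n + 1) → X)) (v₀ : X),
  TopL M π lam μ η → TopL Y Prod.fst lam θ ζ → Y ⊆ QQ (gr M π) →
  Bar θ (fun q : X × PM k => q.2) μ → CH lam K →
  (∀ r : Fin k, lif η (K v₀ : Measure (Fin (n + 1) → X)) (univ.pi fun _ => {z | z 0 = r}) = 0) →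
  ∃ SS : Set (TP (n + 1) (X × PM k)), IsClosed SS ∧ AK.Inv SS ∧
    (∀ y ∈ SS, ∀ j : Fin (n + 1), (y j : X × PM k) ∈ Y) ∧
    (∀ y ∈ SS, ∀ r : Fin k, ∃ j : Fin (n + 1), (y j : X × PM k).2 {z | z 0 = r} = 0) ∧
    ∃ y ∈ SS, ∀ j : Fin (n + 1), (y j : X × PM k).1 = v₀

/-- [VC2] zones of every colour near `v₀` in Case II (`S_RHS`, `S_YYM`, `CH.tmin`, `S_ZOC`). -/
def S_VC2 : Prop := ∀ (k n : ℕ) (X : Type) [TopologicalSpace X] [MeasurableSpace X] [CS X]
  [Sys X] (M : Set (Om k)) (π : Om k → X) (lam : ProbabilityMeasure X) (μ : PM k)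
  (η : Kernel X (Om k)) (Y : Set (X × PM k)) (θ : ProbabilityMeasure (X × PM k))
  (ζ : Kernel X (X × PM k)) (K : X → ProbabilityMeasure (Fin (n + 1) → X)) (v₀ : X),
  TopL M π lam μ η → TopL Y Prod.fst lam θ ζ → Y ⊆ QQ (gr M π) →
  Bar θ (fun q : X × PM k => q.2) μ → CH lam K →
  (∀ r : Fin k, lif η (K v₀ : Measure (Fin (n + 1) → X)) (univ.pi fun _ => {z | z 0 = r}) = 0) →
  ∀ r : Fin k, ∀ U ∈ 𝓝 v₀, ∃ y ∈ Y, y.1 ∈ U ∧ Zr Y r y

/-- [VBR] both disintegrations from the one of `θ` over `lam` (with values in `PM k`). `μ` is the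
barycentre of `θ`, `ζ v` the law of `(v, m)`, `m` with the law `χ v`. (`TopL` for `M`: fibres and
equivariance by `S_LEK`; `μ` is invariant because `θ` is; `μ M = ∫ y.2 M dθ = 1`; the `bind` clause:
`lam.bind χ` is the second marginal of `θ`. `TopL` for `E`: `lam.bind ζ = lam ⊗ₘ χ = θ`; fibres:
`θ E = 1`; equivariance `χ (sh 1 v) = (χ v).map (sh 1)` almost everywhere by the uniqueness of the
disintegration and the invariance of `θ` and `lam` (as in `S_LEK`).) -/
def S_VBR : Prop := ∀ (k : ℕ) (X : Type) [TopologicalSpace X] [MeasurableSpace X] [CS X] [Sys X]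
  (M : Set (Om k)) (π : Om k → X) (E : Set (X × PM k)) (lam : ProbabilityMeasure X)
  (θ : ProbabilityMeasure (X × PM k)) (χ : Kernel X (PM k)) [IsMarkovKernel χ], Po M π →
  SPx E (Prod.fst : X × PM k → X) → (∀ e ∈ E, e.2 {w | w ∈ M ∧ π w = e.1} = 1) →
  θ E = 1 → (∀ m : ℤ, sh m θ = θ) → (θ : Measure (X × PM k)) = (lam : Measure X) ⊗ₘ χ →
  (lam : Measure X).map (sh 1 : X → X) = lam →
  ∃ (μ : PM k) (ζ : Kernel X (X × PM k)), TopL M π lam μ (evK k ∘ₖ χ) ∧
    TopL E Prod.fst lam θ ζ ∧ Bar θ (fun q : X × PM k => q.2) μ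

/-! ## The end -/

/-- [FTI] Case I (`S_VGH`, `S_GNB`, `S_GCT`). -/
def S_FTI : Prop := ∀ (S : Set (Set ℕ)), Cl S → ∀ (k n : ℕ) (c : ℕ → Fin k), ArF S c →
  ∀ (X : Type) [TopologicalSpace X] [MeasurableSpace X] [CS X] [Sys X]
  (M : Set (Om k)) (π : Om k → X) (x₀ : X) (lam : ProbabilityMeasure X) (μ : PM k)
  (η : Kernel X (Om k)) (K : X → ProbabilityMeasure (Fin (n + 1) → X)),
  TopL M π lam μ η → CH lam K → TopA M π K η → (∃ w ∈ M, π w = x₀) →
  (∃ w ∈ M, (w, π w) ∈ omg (ext c, x₀)) →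
  NCt S (lif η (K x₀ : Measure (Fin (n + 1) → X))) →
  ∀ r : Fin k,
    0 < lif η (K x₀ : Measure (Fin (n + 1) → X)) (univ.pi fun _ => {z | z 0 = r}) →
    SolN S (n + 1) c

/-- [FTJ] zones near `x₀` in `X` give a solution without a colour. `j` embeds `X` in a cube. Let
`J y = (j y.1, y.2)`, `Γ = gr M (fun w => j (π w))`. `J '' orb (x₀, m₁) = orb (j x₀, m₁)`, and it is
minimal (`AK.S_IMG`). `(j x₀, m₁) ∈ AA Γ`: a pair `(v, m)` is in `QQ Γ` iff `v = j x` and
`(x, m) ∈ QQ (gr M π)` for some `x`. `Γ` is minimal (`AK.S_IMG`) and a graph. The zones go over: if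
`y ∈ orb (x₀, m₁)` is near `x₀` and in a zone then so is `J y` (`J` is an embedding, so every
neighbourhood of `y` contains `J ⁻¹' V'` for a neighbourhood `V'` of `J y`). `S_KZC` for `Γ`, `j x₀`,
`m₁`, then `S_SGF`. -/
def S_FTJ : Prop := ∀ (S : Set (Set ℕ)) (U : Ultrafilter ℕ), Cl S → DU S U → ∀ (k : ℕ)
  (c : ℕ → Fin k), ArF S c →
  ∀ (X : Type) [TopologicalSpace X] [MeasurableSpace X] [CS X] [Sys X]
  (I : Type) [Primcodable I] (j : X → Cube I) (x₀ : X), Continuous j → Function.Injective j →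
  (∀ (m : ℤ) (x : X), j (sh m x) = sh m (j x)) → Pt S (j x₀) →
  ∀ (M : Set (Om k)) (π : Om k → X), Po M π →
  (gr M fun w => j (π w)) ⊆ omg (ext c, j x₀) →
  ∀ m₁ : PM k, Pt S m₁ → (x₀, m₁) ∈ AA (gr M π) → MinSet (orb (x₀, m₁)) → ∀ r : Fin k,
  (∀ U' ∈ 𝓝 x₀, ∃ y ∈ orb (x₀, m₁), y.1 ∈ U' ∧ Zr (orb (x₀, m₁)) r y) →
    N3.SolD S c (Finset.univ.erase r)

/-- [FTP] the top level, coded. `j` embeds `X` in a cube, `x₀` is the exact position of `c`, `m₁` a
coded measure of the energy set over it, `θ` an invariant measure on its orbit closure over `lam`,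
`η v = ∫ m dχ_v(m)`. The law of the chains of points at `x₀` is coded and the sections are
approximated. Then there is a solution for sums of at most `n + 1` terms, or every colour can be
dropped. Proof: `S_LAA` (for `E = orb (x₀, m₁)`), `S_VBR`. `(w, j (π w)) ∈ omg (ext c, j x₀)` gives
`(w, π w) ∈ omg (ext c, x₀)` (`j` is an embedding). If the law charges the box of some colour: `S_FTI`
(`Po.onto`). Otherwise `S_VC2` (`E ⊆ QQ (gr M π)`, `AK.S_AAB`) and `S_FTJ`. -/
def S_FTP : Prop := ∀ (S : Set (Set ℕ)) (U : Ultrafilter ℕ), Cl S → DU S U → ∀ (k n : ℕ)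
  (c : ℕ → Fin k), ArF S c →
  ∀ (X : Type) [TopologicalSpace X] [MeasurableSpace X] [CS X] [Sys X]
  (lam : ProbabilityMeasure X) (K : X → ProbabilityMeasure (Fin (n + 1) → X)), CH lam K →
  ∀ (I : Type) [Primcodable I] (j : X → Cube I) (x₀ : X), Continuous j → Function.Injective j →
  (∀ (m : ℤ) (x : X), j (sh m x) = sh m (j x)) → Pt S (j x₀) →
  ∀ (M : Set (Om k)) (π : Om k → X), Po M π →
  (gr M fun w => j (π w)) ⊆ omg (ext c, j x₀) →
  ∀ m₁ : PM k, Pt S m₁ → (x₀, m₁) ∈ AA (gr M π) → MinSet (orb (x₀, m₁)) →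
  ∀ (θ : ProbabilityMeasure (X × PM k)) (χ : Kernel X (PM k)) [IsMarkovKernel χ],
  θ (orb (x₀, m₁)) = 1 → (∀ m : ℤ, sh m θ = θ) →
  (θ : Measure (X × PM k)) = (lam : Measure X) ⊗ₘ χ →
  NCt S (lif (evK k ∘ₖ χ) (K x₀ : Measure (Fin (n + 1) → X))) →
  TopA M π K (evK k ∘ₖ χ) →
  SolN S (n + 1) c ∨ ∀ r : Fin k, N3.SolD S c (Finset.univ.erase r)

end Pool.Agent.Work.MP_69fea5_lc.W3
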