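import Pool.Agent.Work.MP_69fea5_lc.W3.StmtsL
import Pool.Agent.Work.MP_69fea5_lc.W3.StmtsD2
import Pool.Agent.Work.MP_69fea5_lc.W3.StmtsQ
import Pool.Agent.Work.MP_69fea5_lc.W3.StmtsV2

/-!
# Block [69fea5 W3 R]: the tower (recursion over the levels) and the top level: definitions
-/

set_option autoImplicit false

namespace Pool.Agent.Work.MP_69fea5_lc.W3

open MeasureTheory Topology Set Filter TopologicalSpace ProbabilityTheory
open scoped NNReal ENNReal
open Pool.Agent.Work.MP_69fea5_lc.AK

/-- the property of the last level: the continuous invariant functions on the tuples over `X` which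
factor through a pseudometric depend only on the positions -/
def TopF {k : ℕ} {X : Type} [TopologicalSpace X] [Sys X] (n : ℕ) (M : Set (Om k))
    (π : Om k → X) : Prop :=
  ∀ ρ, IPB (gr M π) ρ → ∀ G, IsoF n M π ρ G → ∀ u ∈ CM n M π, ∀ u' ∈ CM n M π,
    (∀ i, π (u i) = π (u' i)) → G u = G u'

/-- the minimal set `M` as a system -/
abbrev SysM {k : ℕ} {M : Set (Om k)} (hM : MinSet M) : Type := (Sp.ofSet M hM.closed hM.inv).C

/-- the inclusion of the system `SysM hM` -/
def oM {k : ℕ} {M : Set (Om k)} (hM : MinSet M) (w : SysM hM) : Om k := Subtype.val (p := (· ∈ M)) w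

end Pool.Agent.Work.MP_69fea5_lc.W3
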