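import Pool.Agent.Work.MP_69fea5_lc.N3.Final3

/-!
# Block F: the final theorem, three terms and any number of colours
-/

set_option autoImplicit false

namespace Pool.Agent.Work.MP_69fea5_lc.W3

open Pool.Agent.Work.MP_69fea5_lc
open Pool.Agent.Work.MP_69fea5_lc.HK (Cl Ar ArF Sol)
open Pool.Agent.Work.MP_69fea5_lc.KC (cl_of_ideal arF_of_classes)

/-- the positive theorem for three terms: every coded colouring has a coded solution -/
def S_MAINT : Prop := ∀ (S : Set (Set ℕ)), Cl S → ∀ (k : ℕ) (c : ℕ → Fin k), ArF S c →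
  N3.SolT S c

variable {S : Set (Set ℕ)}

/-- the reversal: the statement for `k ≥ 2` colours contains the statement for two colours -/
theorem sol_two_of {k : ℕ} (hk : 2 ≤ k)
    (hS : ∀ A ∈ S, ∀ B ∈ S, ∀ C : Set ℕ, RecursiveIn {charFn A, charFn B} (charFn C) → C ∈ S)
    (hne : S.Nonempty)
    (h : ∀ c : ℕ → Fin k, (∀ i, {x | c x = i} ∈ S) →
      ∃ X ∈ S, X.Infinite ∧ (∀ x ∈ X, 0 < x) ∧ ∃ i, ∀ F : Finset ℕ, (F : Set ℕ) ⊆ X →
        F.Nonempty → F.card ≤ 3 → c (∑ x ∈ F, x) = i) :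
    ∀ c : ℕ → Fin 2, (∀ i, {x | c x = i} ∈ S) →
      ∃ X ∈ S, X.Infinite ∧ (∀ x ∈ X, 0 < x) ∧ ∃ i, ∀ F : Finset ℕ, (F : Set ℕ) ⊆ X →
        F.Nonempty → F.card ≤ 3 → c (∑ x ∈ F, x) = i := by
  classical
  intro c hc
  have hempty : (∅ : Set ℕ) ∈ S := by
    obtain ⟨A, hA⟩ := hne
    refine hS A hA A hA _ ?_
    rw [RecursiveIn.iff_nat]
    refine (comp_of (O := {charFn A, charFn A}) (f := fun _ : ℕ => 0)
      (Computable.const 0)).of_eq fun n => ?_
    simp [charFn]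
  obtain ⟨X, hX, hinf, hpos, i, hi⟩ := h (fun x => Fin.castLE hk (c x)) (by
    intro i
    by_cases hi : ∃ j : Fin 2, Fin.castLE hk j = i
    · obtain ⟨j, rfl⟩ := hi
      have h1 : {x | Fin.castLE hk (c x) = Fin.castLE hk j} = {x | c x = j} := by
        ext x
        exact ⟨fun h => Fin.castLE_injective hk h, fun h => congrArg _ h⟩
      rw [h1]
      exact hc j
    · have h1 : {x | Fin.castLE hk (c x) = i} = ∅ := by
        ext x
        simp only [Set.mem_setOf_eq, Set.mem_empty_iff_false, iff_false]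
        exact fun h => hi ⟨c x, h⟩
      rw [h1]
      exact hempty)
  refine ⟨X, hX, hinf, hpos, ?_⟩
  obtain ⟨x, hx⟩ := hinf.nonempty
  refine ⟨c x, fun F hF hFn hFc => ?_⟩
  have h1 := hi F hF hFn hFc
  have h2 := hi {x} (by simpa using hx) (by simp) (by simp)
  rw [Finset.sum_singleton] at h2
  exact Fin.castLE_injective hk (h1.trans h2.symm)

/-- the exact strength -/
theorem final_of (hM : HK.S_MAIN) (hT : S_MAINT) (n k : ℕ)
    (hnk : (n = 2 ∧ 3 ≤ k) ∨ (n = 3 ∧ 2 ≤ k)) (S : Set (Set ℕ)) (hne : S.Nonempty)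
    (hS : ∀ A ∈ S, ∀ B ∈ S, ∀ C : Set ℕ, RecursiveIn {charFn A, charFn B} (charFn C) → C ∈ S) :
    (∀ c : ℕ → Fin k, (∀ i, {x | c x = i} ∈ S) →
      ∃ X ∈ S, X.Infinite ∧ (∀ x ∈ X, 0 < x) ∧ ∃ i, ∀ F : Finset ℕ, (F : Set ℕ) ⊆ X →
        F.Nonempty → F.card ≤ n → c (∑ x ∈ F, x) = i) ↔
    ∀ A ∈ S, {n | ∃ m, Nat.pair n m ∈ A} ∈ S := by
  rcases hnk with ⟨rfl, hk⟩ | ⟨rfl, hk⟩
  · rw [← KC.final_of hM k hk S hne hS]
    refine forall_congr' fun c => forall_congr' fun _ => exists_congr fun X =>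
      and_congr_right fun _ => and_congr_right fun hinf => ?_
    rw [N3.sol2_iff]
    refine ⟨Or.inl, fun h => ?_⟩
    rcases h with h | ⟨rfl, -⟩
    · exact h
    · exact absurd Set.finite_empty hinf
  · refine ⟨fun h => N3.proj_of_sol3 hS (sol_two_of hk hS hne h), fun hp c hc => ?_⟩
    have hC := cl_of_ideal hne hS hp
    exact hT S hC k c (arF_of_classes hC hc)

end Pool.Agent.Work.MP_69fea5_lc.W3
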