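import Pool.Agent.Work.MP_69fea5_lc.W3.StmtsK

/-!
# Block [69fea5 K], item APF: limits of almost optimal averages of translates have minimal energy
-/

set_option autoImplicit false

namespace Pool.Agent.Work.MP_69fea5_lc.W3

open MeasureTheory Topology Set Filter TopologicalSpace
open scoped NNReal ENNReal
open Pool.Agent.Work.MP_69fea5_lc.AK

namespace I_APF

theorem mem_of_cluster {X : Type*} [TopologicalSpace X] {u : ℕ → X} {x : X} {C : Set X}
    (hC : IsClosed C) (hx : MapClusterPt x atTop u) (h : ∀ᶠ L in atTop, u L ∈ C) : x ∈ C := by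
  have h1 : ClusterPt x (𝓟 C) := ClusterPt.mono hx (le_principal_iff.2 h)
  have h2 : x ∈ closure C := mem_closure_iff_clusterPt.2 h1
  rwa [hC.closure_eq] at h2

/-- averages of point masses are carried by the set of the points -/
theorem mxP_dirac_one {α ι : Type} [TopologicalSpace α] [MeasurableSpace α] [CS α] (u : ι → α)
    (p : ι × List ι) (C : Set α) (hC : MeasurableSet C) (h : ∀ i ∈ p.1 :: p.2, u i ∈ C) :
    mxP (fun i => (diracProba (u i) : ProbabilityMeasure α)) p C = 1 := by
  have h1 : (mxP (fun i => (diracProba (u i) : ProbabilityMeasure α)) p : Measure α) C = 1 := by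
    rw [mxP_apply]
    have h2 : ((p.1 :: p.2).map fun i => ((diracProba (u i) : ProbabilityMeasure α) : Measure α) C)
        = (p.1 :: p.2).map fun _ => (1 : ℝ≥0∞) := by
      refine List.map_congr_left fun i hi => ?_
      change Measure.dirac (u i) C = 1
      rw [Measure.dirac_apply' _ hC]
      simp [h i hi]
    rw [h2, List.map_const', List.sum_replicate, List.length_cons, nsmul_eq_mul, mul_one]
    exact ENNReal.inv_mul_cancel (by simp) (by simp)
  change ((mxP (fun i => (diracProba (u i) : ProbabilityMeasure α)) p : Measure α) C).toNNReal = 1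
  rw [h1]; rfl

end I_APF

open I_APF in
theorem APF_pf (hORB : S_ORB) (hENG : S_ENG) (hPMG : S_PMG) (hBRC : S_BRC) (hBRX : S_BRX)
    (hSEO : S_SEO) (hAAN : S_AAN) (hKAV : S_KAV) : S_APF := by
  intro k X _ _ _ _ x m V p hmin hV hVU hp hopt l hl
  obtain ⟨hFc, hFb, -, -, -⟩ := hENG k
  have hbdd : ∀ q : PM k, BddAbove (Set.range fun n : ℤ => FF (sh n q)) := fun q =>
    ⟨2, by rintro _ ⟨n, rfl⟩; exact (hFb _).2⟩
  have hle : ∀ (q : PM k) (n : ℤ), FF (sh n q) ≤ GG q := fun q n => le_ciSup (hbdd q) n
  obtain ⟨hFcl, hFinv, hxm, -⟩ := hORB (X × PM k) (x, m)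
  have hbase : Prod.fst '' orb ((x, m) : X × PM k) = orb x := by
    apply hmin.min
    · exact (hFcl.isCompact.image continuous_fst).isClosed
    · exact ⟨x, (x, m), hxm, rfl⟩
    · rintro n _ ⟨q, hq, rfl⟩
      exact ⟨sh n q, hFinv n q hq, rfl⟩
    · rintro _ ⟨q, hq, rfl⟩
      obtain ⟨h1, h2, h3, -⟩ := hORB X x
      have h4 : orb ((x, m) : X × PM k) ⊆ Prod.fst ⁻¹' orb x := by
        refine (hORB (X × PM k) (x, m)).2.2.2.1 _ (h1.preimage continuous_fst) ?_ h3
        intro n q hq
        exact h2 n q.1 hq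
      exact h4 hq
  have hfib : IsClosed {m' : PM k | (x, m') ∈ orb ((x, m) : X × PM k)} :=
    hFcl.preimage (by fun_prop : Continuous fun m' : PM k => (x, m'))
  -- (i)
  have hQ : (x, l) ∈ Fam (orb ((x, m) : X × PM k)) := by
    obtain ⟨𝓕, h𝓕, hlim⟩ := mapClusterPt_iff_ultrafilter.1 hl
    set κL : ℕ → ProbabilityMeasure (X × PM k) := fun L =>
      mxP (fun n : ℤ => (diracProba (sh n x, (sh n m : PM k)) :
        ProbabilityMeasure (X × PM k))) (p L) with hκL
    obtain ⟨κ', -, hκ'⟩ := isCompact_univ.ultrafilter_le_nhds (𝓕.map κL) (by simp)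
    have hκ'' : Tendsto κL 𝓕 (𝓝 κ') := hκ'
    have hcar : ∀ C : Set (X × PM k), IsClosed C → (∀ᶠ L in atTop, κL L C = 1) → κ' C = 1 := by
      intro C hC h
      have h1 := (hPMG (X × PM k)).2.2.2.2.1 C hC
      exact h1.mem_of_tendsto hκ'' (h𝓕 h)
    have hF1 : κ' (orb ((x, m) : X × PM k)) = 1 := by
      refine hcar _ hFcl (Eventually.of_forall fun L => ?_)
      exact mxP_dirac_one _ _ _ hFcl.measurableSet fun n _ => hFinv n (x, m) hxm
    have hU1 : ∀ U ∈ 𝓝 x, IsClosed U → κ' (Prod.fst ⁻¹' U : Set (X × PM k)) = 1 := by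
      intro U hU hUc
      refine hcar _ (hUc.preimage continuous_fst) ?_
      obtain ⟨L₀, hL₀⟩ := hVU U hU
      filter_upwards [eventually_ge_atTop L₀] with L hL
      refine mxP_dirac_one _ _ _ (hUc.preimage continuous_fst).measurableSet fun n hn => ?_
      exact hL₀ L hL (hp L n hn)
    have hX : κ' (Prod.fst ⁻¹' {x} : Set (X × PM k)) = 1 := by
      let _ : MetricSpace X := metrizableSpaceMetric X
      have h1 : (Prod.fst ⁻¹' {x} : Set (X × PM k)) =
          ⋂ i : ℕ, Prod.fst ⁻¹' Metric.closedBall x (1 / ((i : ℝ) + 1)) := by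
        ext q
        simp only [Set.mem_preimage, Set.mem_singleton_iff, Set.mem_iInter,
          Metric.mem_closedBall]
        constructor
        · rintro h i
          rw [h, dist_self]
          positivity
        · intro h
          have h2 : dist q.1 x ≤ 0 := ge_of_tendsto' (tendsto_one_div_add_atTop_nhds_zero_nat
            (𝕜 := ℝ)) h
          exact dist_le_zero.1 h2
      have h2 : ∀ᵐ q ∂(κ' : Measure (X × PM k)),
          ∀ i : ℕ, q ∈ (Prod.fst ⁻¹' Metric.closedBall x (1 / ((i : ℝ) + 1)) :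
            Set (X × PM k)) := by
        rw [ae_all_iff]
        intro i
        have h3 := hU1 (Metric.closedBall x (1 / ((i : ℝ) + 1)))
          (Metric.closedBall_mem_nhds x (by positivity)) Metric.isClosed_closedBall
        have hm3 : MeasurableSet (Prod.fst ⁻¹' Metric.closedBall x (1 / ((i : ℝ) + 1)) :
            Set (X × PM k)) :=
          (Metric.isClosed_closedBall.preimage continuous_fst).measurableSet
        have h4 : (κ' : Measure (X × PM k)) (Prod.fst ⁻¹' Metric.closedBall x
            (1 / ((i : ℝ) + 1))) = 1 := by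
          rw [← ProbabilityMeasure.ennreal_coeFn_eq_coeFn_toMeasure, h3]; rfl
        exact (prob_compl_eq_zero_iff hm3).2 h4
      have h5 : (κ' : Measure (X × PM k)) (Prod.fst ⁻¹' {x}) = 1 := by
        have hm5 : MeasurableSet (Prod.fst ⁻¹' {x} : Set (X × PM k)) :=
          (isClosed_singleton.preimage continuous_fst).measurableSet
        refine (prob_compl_eq_zero_iff hm5).1 ?_
        rw [h1]
        refine measure_mono_null (fun q hq => ?_) h2
        intro hq'
        exact hq (Set.mem_iInter.2 hq')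
      change ((κ' : Measure (X × PM k)) (Prod.fst ⁻¹' {x})).toNNReal = 1
      rw [h5]; rfl
    have hbar' : Bar κ' (Prod.snd : X × PM k → PM k) l := by
      have h1 := (hBRC (X × PM k) (Om k) (Prod.snd : X × PM k → PM k) continuous_snd).1
      have h2 : ∀ L, Bar (κL L) (Prod.snd : X × PM k → PM k)
          (mxP (fun n : ℤ => (sh n m : PM k)) (p L)) := by
        intro L
        refine (hBRC (X × PM k) (Om k) (Prod.snd : X × PM k → PM k) continuous_snd).2.2 _ _
          fun g hg => ?_
        have hgc : Continuous fun q : X × PM k => ∫ z, g z ∂(q.2 : Measure (Om k)) := by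
          have h3 : Continuous fun q : PM k => ∫ z, g z ∂(q : Measure (Om k)) :=
            ProbabilityMeasure.continuous_integral_boundedContinuousFunction
              (BoundedContinuousFunction.mkOfCompact ⟨g, hg⟩)
          exact h3.comp continuous_snd
        rw [integral_mxP _ _ g hg, hκL, integral_mxP _ _ _ hgc]
        congr 2
        refine List.map_congr_left fun n _ => ?_
        exact (integral_dirac (fun q : X × PM k => ∫ z, g z ∂(q.2 : Measure (Om k)))
          ((sh n x, (sh n m : PM k)) : X × PM k)).symm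
      have h3 : Tendsto (fun L => (κL L, mxP (fun n : ℤ => (sh n m : PM k)) (p L))) 𝓕
          (𝓝 (κ', l)) := hκ''.prodMk_nhds hlim
      exact h1.mem_of_tendsto h3 (Eventually.of_forall h2)
    refine ⟨κ'.map (f := (Prod.snd : X × PM k → PM k)) measurable_snd.aemeasurable, ?_, ?_⟩
    · have h1 : (κ' : Measure (X × PM k)) {q | q.1 = x ∧ q ∈ orb ((x, m) : X × PM k)} = 1 := by
        have hm1 : MeasurableSet (Prod.fst ⁻¹' {x} : Set (X × PM k)) :=
          (isClosed_singleton.preimage continuous_fst).measurableSet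
        have h2 : (κ' : Measure (X × PM k)) (Prod.fst ⁻¹' {x}) = 1 := by
          rw [← ProbabilityMeasure.ennreal_coeFn_eq_coeFn_toMeasure, hX]; rfl
        have h3 : (κ' : Measure (X × PM k)) (orb ((x, m) : X × PM k)) = 1 := by
          rw [← ProbabilityMeasure.ennreal_coeFn_eq_coeFn_toMeasure, hF1]; rfl
        refine (prob_compl_eq_zero_iff (hm1.inter hFcl.measurableSet)).1 ?_
        rw [Set.compl_inter]
        exact measure_union_null ((prob_compl_eq_zero_iff hm1).2 h2)
          ((prob_compl_eq_zero_iff hFcl.measurableSet).2 h3)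
      have h2 : ((κ'.map (f := (Prod.snd : X × PM k → PM k)) measurable_snd.aemeasurable :
          ProbabilityMeasure (PM k)) : Measure (PM k)) {m' | (x, m') ∈ orb ((x, m) : X × PM k)}
            = 1 := by
        rw [ProbabilityMeasure.toMeasure_map]
        rw [Measure.map_apply measurable_snd hfib.measurableSet]
        refine le_antisymm prob_le_one ?_
        rw [← h1]
        refine measure_mono ?_
        rintro ⟨a, b⟩ ⟨hq1, hq2⟩
        have hq3 : a = x := hq1
        subst hq3
        exact hq2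
      change (((κ'.map (f := (Prod.snd : X × PM k → PM k)) measurable_snd.aemeasurable :
          ProbabilityMeasure (PM k)) : Measure (PM k))
            {m' | (x, m') ∈ orb ((x, m) : X × PM k)}).toNNReal = 1
      rw [h2]; rfl
    · refine (hBRC (PM k) (Om k) id continuous_id).2.2 _ l fun g hg => ?_
      have h1 := (hBRX (X × PM k) (Om k) κ' (Prod.snd : X × PM k → PM k)
        measurable_snd).2.2.2 l hbar' g hg
      have h3 : Continuous fun q : PM k => ∫ z, g z ∂(q : Measure (Om k)) :=
        ProbabilityMeasure.continuous_integral_boundedContinuousFunction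
          (BoundedContinuousFunction.mkOfCompact ⟨g, hg⟩)
      rw [h1, ProbabilityMeasure.toMeasure_map]
      rw [integral_map measurable_snd.aemeasurable]
      · rfl
      · exact h3.aestronglyMeasurable
  -- (ii)
  obtain ⟨-, -, himg⟩ := hAAN (Om k) X (fcyl k) (orb ((x, m) : X × PM k)) (hSEO k).1 hFcl hFinv
    (by rw [hbase]; exact hmin)
  have hx1 : x ∈ Prod.fst '' orb ((x, m) : X × PM k) := ⟨(x, m), hxm, rfl⟩
  rw [← himg, (hSEO k).2.2.2 X] at hx1
  obtain ⟨⟨x', m'⟩, hm', hx'⟩ := hx1
  have hx'' : x' = x := hx'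
  subst hx''
  have key : GG l ≤ GG m' := by
    obtain ⟨⟨κ, hκ, hb⟩, -⟩ := hm'
    refine ciSup_le fun j => ?_
    refine le_of_forall_pos_le_add fun ε hε => ?_
    have hcl : IsClosed {q : PM k | FF (sh j q) ≤ GG m' + ε} :=
      isClosed_le (hFc.comp (sh_cont j)) continuous_const
    refine mem_of_cluster (C := {q : PM k | FF (sh j q) ≤ GG m' + ε}) hcl hl ?_
    have hev : ∀ᶠ L : ℕ in atTop, 1 / ((L : ℝ) + 1) < ε / 2 :=
      (tendsto_one_div_add_atTop_nhds_zero_nat (𝕜 := ℝ)).eventually_lt_const (by positivity)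
    filter_upwards [hev, eventually_ge_atTop j.natAbs] with L hL1 hL2
    have hj : |j| ≤ (L : ℤ) := by
      rw [Int.abs_eq_natAbs]; exact_mod_cast hL2
    have hclo : κ (closure (Set.range fun i : {n : ℤ // sh n x' ∈ V L} => (sh i.1 m : PM k)))
        = 1 := by
      refine le_antisymm (κ.apply_le_one _) ?_
      rw [← hκ]
      refine κ.apply_mono fun m'' hm'' => ?_
      rw [mem_closure_iff_nhds]
      intro W hW
      have h2 : V L ×ˢ W ∈ 𝓝 (x', m'') := prod_mem_nhds (hV L) hW
      obtain ⟨⟨a, b⟩, hab, n, hn⟩ := mem_closure_iff_nhds.1 hm'' _ h2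
      have hn1 : sh n x' = a := congrArg Prod.fst hn
      have hn2 : sh n m = b := congrArg Prod.snd hn
      exact ⟨b, hab.2, ⟨n, by rw [hn1]; exact hab.1⟩, hn2⟩
    have hUn : {q : PM k | ∀ j' ∈ Finset.Icc (-(L : ℤ)) L, FF (sh j' q) < GG m' + ε / 2}
        ∈ 𝓝 m' := by
      have : {q : PM k | ∀ j' ∈ Finset.Icc (-(L : ℤ)) L, FF (sh j' q) < GG m' + ε / 2}
          = ⋂ j' ∈ Finset.Icc (-(L : ℤ)) L, {q : PM k | FF (sh j' q) < GG m' + ε / 2} := by
        ext q; simp
      rw [this]
      refine (Filter.biInter_finset_mem _).2 fun j' _ => ?_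
      have ho : IsOpen {q : PM k | FF (sh j' q) < GG m' + ε / 2} :=
        isOpen_lt (hFc.comp (sh_cont j')) continuous_const
      refine ho.mem_nhds ?_
      have := hle m' j'
      change FF (sh j' m') < GG m' + ε / 2
      linarith
    have hK := hKAV (PM k) (Om k) id continuous_id κ m' hb _ _ hclo
    obtain ⟨_, hmix, q', rfl⟩ := mem_closure_iff_nhds.1 hK _ hUn
    have heq : mxP (fun n : ℤ => (sh n m : PM k)) (q'.1.1, q'.2.map Subtype.val) =
        mxP (fun i : {n : ℤ // sh n x' ∈ V L} => id (sh i.1 m : PM k)) q' := by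
      apply Subtype.ext
      change mxM _ _ = mxM _ _
      unfold mxM
      simp only [List.length_map, List.map_cons, List.map_map, id]
      rfl
    obtain ⟨j', hj', hle'⟩ := hopt L (q'.1.1, q'.2.map Subtype.val) (by
      intro n hn
      rcases List.mem_cons.1 hn with h | h
      · rw [h]; exact q'.1.2
      · obtain ⟨i, -, hi⟩ := List.mem_map.1 h
        rw [← hi]; exact i.2) j hj
    rw [heq] at hle'
    have hmem : j' ∈ Finset.Icc (-(L : ℤ)) L := by
      rw [Finset.mem_Icc]; exact abs_le.1 hj'
    have h3 := hmix j' hmem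
    change FF (sh j (mxP (fun n : ℤ => (sh n m : PM k)) (p L))) ≤ GG m' + ε
    linarith
  exact ⟨hQ, fun p' hp' => key.trans (hm'.2 p' hp')⟩

end Pool.Agent.Work.MP_69fea5_lc.W3
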