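import Pool.Agent.Work.MP_69fea5_lc.W3.StmtsM

/-!
Block [69fea5 F], main line, item BAD: infinitely many bad chains give a coded exact translate with
fewer colours.
-/

set_option autoImplicit false

namespace Pool.Agent.Work.MP_69fea5_lc.W3

open MeasureTheory Topology Set Filter TopologicalSpace
open scoped NNReal ENNReal
open Pool.Agent.Work.MP_69fea5_lc.AK
open Pool.Agent.Work.MP_69fea5_lc.HK (Cl DU Ar ArF ArR Dat Law LawC act near sc Pt oc Mn mr ext)
open Pool.Agent.Work.MP_69fea5_lc.KC (Agree)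

namespace I_BAD

theorem orb_fst {α β : Type} [TopologicalSpace α] [Sys α] [TopologicalSpace β] [Sys β]
    {p q : α × β} (h : p ∈ orb q) : p.1 ∈ orb q.1 := by
  refine map_mem_closure continuous_fst h ?_
  rintro _ ⟨n, rfl⟩
  exact ⟨n, rfl⟩

theorem orb_inv {α : Type} [TopologicalSpace α] [Sys α] (x : α) : AK.Inv (orb x) := by
  intro n y hy
  refine map_mem_closure (sh_cont n) hy ?_
  rintro _ ⟨m, rfl⟩
  exact ⟨n + m, sh_add n m x⟩

theorem null_mono {k : ℕ} {m : PM k} {A B : Set (Om k)} (h : A ⊆ B) (hB : m B = 0) : m A = 0 := by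
  rw [ProbabilityMeasure.null_iff_toMeasure_null] at hB ⊢
  exact measure_mono_null h hB

theorem null_union {k : ℕ} {m : PM k} {A B : Set (Om k)} (hA : m A = 0) (hB : m B = 0) :
    m (A ∪ B) = 0 := by
  rw [ProbabilityMeasure.null_iff_toMeasure_null] at hA hB ⊢
  exact measure_union_null hA hB

theorem core (h2 : S_EX1) (h3 : S_EXF) (h4 : S_BDL) (h5 : S_MEM) (h6 : S_MEC) (h7 : S_TDF)
    (hPMB : AK.S_PMB) {S : Set (Set ℕ)} {U : Ultrafilter ℕ} (hS : Cl S) (hU : DU S U) {k : ℕ}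
    {c : Om k} (hc : Pt S c) {j : ℕ} {X : Type} [TopologicalSpace X] [MeasurableSpace X] [Sys X]
    [Dat X] [CSys X] {A : Set (Om k × X)} {x : X} {A₁ : Set (Om k × (X × PM k))} {v : WF k X}
    {A₂ : Set (Om k × (WF k X × PM k))} {w : WF k (WF k X)} {m₃ l₀ : PM k}
    {AE : Set (Om k × XE k X)} (hTD : TD S c j A x A₁ v A₂ w m₃ l₀ AE) (C : Finset (Fin k))
    (v' : WF k X) (b : ℕ → XE k X) (hb : sc S b) (hbE : ∀ i, b i ∈ orb (w.1, l₀))
    (hq : Tendsto (fun i => qE (b i)) (U : Filter ℕ) (𝓝 v')) (hex : Exa c (A1t A₁ v) v')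
    (hp : ∀ i, (b i).2 {z | z 0 ∉ C} = 0)
    (hbad : ∀ᶠ i in (U : Filter ℕ), ¬ Good (orb (w.1, m₃)) C (b i)) :
    ∃ (w' : WF k (WF k X)) (m : PM k), Pt S w' ∧ Pt S m ∧ (w', m) ∈ orb (w, m₃) ∧
      Exa c (A1t A₂ w) w' ∧ (pal m).card < C.card := by
  classical
  obtain ⟨b', hb', hlim⟩ := exists_lim hS hU hb
  have hb'E : b' ∈ orb (w.1, l₀) :=
    isClosed_closure.mem_of_tendsto hlim (Eventually.of_forall hbE)
  -- the frame
  have hqb : qE b' = v' := by
    have hc1 : Continuous (qE : XE k X → WF k X) := continuous_fst.comp continuous_fst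
    exact tendsto_nhds_unique ((hc1.tendsto b').comp hlim) hq
  -- the colours
  have hcol : b'.2 {z | z 0 ∉ C} = 0 := by
    have hclop : IsClopen {z : Om k | z 0 ∉ C} := by
      have hc0 : Continuous fun z : Om k => z 0 := continuous_apply 0
      exact (isClopen_discrete {a : Fin k | a ∉ C}).preimage hc0
    have hc2 : Continuous fun m : PM k => m {z : Om k | z 0 ∉ C} := (hPMB k).2.2.1 _ hclop
    have hl2 : Tendsto (fun i => (b i).2 {z : Om k | z 0 ∉ C}) (U : Filter ℕ)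
        (𝓝 (b'.2 {z : Om k | z 0 ∉ C})) :=
      ((hc2.comp continuous_snd).tendsto b').comp hlim
    have hl3 : Tendsto (fun i => (b i).2 {z : Om k | z 0 ∉ C}) (U : Filter ℕ) (𝓝 0) := by
      have : (fun i => (b i).2 {z : Om k | z 0 ∉ C}) = fun _ => 0 := funext hp
      rw [this]
      exact tendsto_const_nhds
    exact tendsto_nhds_unique hl2 hl3
  -- exactness
  have hb'w : b'.1 ∈ orb w.1 := orb_fst hb'E
  have hPb : Pt S b'.1 := (pt_prod.1 hb').1
  have hexa : Exa c A₂ b'.1 := by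
    refine h2 k c (WF k X) (WF k X × PM k) (A1t A₁ v) (orb w.1) Prod.fst A₂ hTD.l2.bch b'.1 hb'w ?_
    have : b'.1.1 = v' := hqb
    rw [this]
    exact hex
  obtain ⟨z, -, -, hzA, hPt, hfr, -⟩ := h3 S U hS hU k c hc (WF k X) (A1t A₁ v) v A₂ w hTD.l2 b'.1
    hb'w hPb hexa
  obtain ⟨-, -, -, hfam, -⟩ := h7 S k c j X A x A₁ v A₂ w m₃ l₀ AE hTD
  -- the decomposition
  obtain ⟨i₀, hi₀⟩ := hbad.exists
  have hdec : ∃ κ, Dco (orb (w.1, m₃)) b' κ ∧ pC C κ = 0 := by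
    refine h4 k (WF k X × PM k) (orb (w.1, m₃)) isClosed_closure (orb_inv _) C ℕ U
      (fun i => if Good (orb (w.1, m₃)) C (b i) then b i₀ else b i) b' ?_ ?_ ?_
    · intro i
      by_cases hg : Good (orb (w.1, m₃)) C (b i)
      · rw [if_pos hg]
        exact (hfam _ (hbE i₀)).1
      · rw [if_neg hg]
        exact (hfam _ (hbE i)).1
    · intro i
      by_cases hg : Good (orb (w.1, m₃)) C (b i)
      · rw [if_pos hg]
        exact hi₀
      · rw [if_neg hg]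
        exact hg
    · refine hlim.congr' ?_
      filter_upwards [hbad] with i hi
      rw [if_neg hi]
  obtain ⟨κ, hκ, hκ0⟩ := hdec
  obtain ⟨w', m, hwm, hw1, hw2, hmC, r, hrC, hmr⟩ := h5 S k c j X A x A₁ v A₂ w m₃ l₀ AE hTD b' hb'E
    C κ hκ hκ0 hcol z hzA
  have herase : ∀ m' : PM k, m' {z | z 0 ∉ C} = 0 → m' {z | z 0 = r} = 0 →
      m' {z | z 0 ∉ C.erase r} = 0 := by
    intro m' hA hB
    refine null_mono ?_ (null_union hA hB)
    intro z hz
    by_cases hzC : z 0 ∈ C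
    · right
      by_contra hzr
      exact hz (Finset.mem_erase.2 ⟨hzr, hzC⟩)
    · left
      exact hzC
  obtain ⟨p, hpm, hpP, hp1, hp2, hp3⟩ := h6 S U hS hU k (WF k X × PM k) (CPh k) w m₃ b'.1
    (th w.1 (z, b'.1)) (C.erase r) hTD.l2.cb2.pt hTD.pt3 hPb hPt
    ⟨(w', m), hwm, hw1, hw2, herase m hmC hmr⟩
  refine ⟨p.1, p.2, (pt_prod.1 hpP).1, (pt_prod.1 hpP).2, hpm, hfr p.1 (orb_fst hpm) hp1 hp2, ?_⟩
  refine lt_of_le_of_lt (Finset.card_le_card ?_) (Finset.card_erase_lt_of_mem hrC)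
  intro a ha
  by_contra hna
  have h8 : p.2 {z | z 0 = a} = 0 := by
    refine null_mono ?_ hp3
    intro z hz
    have hz' : z 0 = a := hz
    show z 0 ∉ C.erase r
    rw [hz']
    exact hna
  have h9 : 0 < p.2 {z | z 0 = a} := by
    unfold pal at ha
    exact (Finset.mem_filter.1 ha).2
  rw [h8] at h9
  exact lt_irrefl _ h9

end I_BAD

open I_BAD in
/-- [BAD] -/
theorem BAD_pf (h1 : S_CLT) (h2 : S_EX1) (h3 : S_EXF) (h4 : S_BDL) (h5 : S_MEM) (h6 : S_MEC)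
    (h7 : S_TDF) (hPMB : AK.S_PMB) : S_BAD := by
  intro S U hS hU k c hc j X _ _ _ _ _ A x A₁ v A₂ w m₃ l₀ AE hTD v₁ vl e hT C v' ξ hξ hch hbad
  obtain ⟨d, hd⟩ := hTD.l1.pha.iso
  have hv₁ : Tendsto v₁ (U : Filter ℕ) (𝓝 v) := tendsto_near hU.top hT.n1
  have hclt := h1 (X × PM k) (CPh k) (JJ A₁ (th v.1)) d v hd hTD.l1.frm ℕ U v₁
  have q1 : Tendsto (fun i => qE (ξ i).2.1) (U : Filter ℕ) (𝓝 v') := by
    refine hclt (fun i => qE (ξ i).1) (fun i => qE (ξ i).2.1) v' hT.m1 hv₁ ?_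
      fun i => (hch i).2.c0
    have : (fun i => qE (ξ i).1) = fun _ => v' := funext fun i => (hch i).1
    rw [this]
    exact tendsto_const_nhds
  have q2 : Tendsto (fun i => qE (ξ i).2.2.1) (U : Filter ℕ) (𝓝 v') :=
    hclt (fun i => qE (ξ i).2.1) (fun i => qE (ξ i).2.2.1) v' hT.m1 hv₁ q1 fun i => (hch i).2.c1
  have hex : Exa c (A1t A₁ v) v' := by
    have := (hch 0).2.ex
    rwa [(hch 0).1] at this
  have s1 : sc S fun i => (ξ i).2 := (sc_prod.1 hξ).2
  have s2 : sc S fun i => (ξ i).2.1 := (sc_prod.1 s1).1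
  have s3 : sc S fun i => (ξ i).2.2 := (sc_prod.1 s1).2
  have s4 : sc S fun i => (ξ i).2.2.1 := (sc_prod.1 s3).1
  rcases hbad with hbad | hbad
  · exact core h2 h3 h4 h5 h6 h7 hPMB hS hU hc hTD C v' (fun i => (ξ i).2.1) s2
      (fun i => (hch i).2.m1) q1 hex (fun i => (hch i).2.p1) hbad
  · exact core h2 h3 h4 h5 h6 h7 hPMB hS hU hc hTD C v' (fun i => (ξ i).2.2.1) s4
      (fun i => (hch i).2.m2) q2 hex (fun i => (hch i).2.p2) hbad

end Pool.Agent.Work.MP_69fea5_lc.W3
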