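import Pool.Agent.Work.MP_69fea5_lc.W3.StmtsF1

/-!
# Block [69fea5 F1], item CLO: small displacements
-/

set_option autoImplicit false

namespace Pool.Agent.Work.MP_69fea5_lc.W3

open MeasureTheory Topology Set Filter TopologicalSpace
open scoped NNReal ENNReal
open Pool.Agent.Work.MP_69fea5_lc.AK

namespace I_CLO

theorem orb_sub {X : Type} [TopologicalSpace X] [Sys X] {x : X} {K : Set X} (hK : IsClosed K)
    (hi : AK.Inv K) (hx : x ∈ K) : orb x ⊆ K :=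
  closure_minimal (by rintro _ ⟨n, rfl⟩; exact hi n x hx) hK

theorem self_mem {X : Type} [TopologicalSpace X] [Sys X] (x : X) : x ∈ orb x :=
  subset_closure ⟨0, sh_zero x⟩

theorem orb_inv {X : Type} [TopologicalSpace X] [Sys X] (x : X) : AK.Inv (orb x) := by
  intro n y hy
  have h1 : MapsTo (sh n : X → X) (Set.range fun n : ℤ => sh n x)
      (Set.range fun n : ℤ => sh n x) := by
    rintro _ ⟨m, rfl⟩
    exact ⟨n + m, sh_add n m x⟩
  exact h1.closure (sh_cont n) hy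

section

variable {C X : Type} [TopologicalSpace C] [MeasurableSpace C] [CS C] [Sys C]
  [TopologicalSpace X] [MeasurableSpace X] [CS X] [Sys X]

/-- pairs of frames over one point -/
def PP (v₀ : X × (ℕ → C)) : Set ((X × (ℕ → C)) × (X × (ℕ → C))) :=
  {p | p.1 ∈ orb v₀ ∧ p.2 ∈ orb v₀ ∧ p.1.1 = p.2.1}

/-- the distance of two frames -/
def DD (d : (ℕ → C) → (ℕ → C) → X → ℝ) (p : (X × (ℕ → C)) × (X × (ℕ → C))) : ℝ :=
  d p.1.2 p.2.2 p.1.1

omit [MeasurableSpace C] [CS C] in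
theorem PP_closed (v₀ : X × (ℕ → C)) : IsClosed (PP v₀) := by
  have h1 : IsClosed {p : (X × (ℕ → C)) × (X × (ℕ → C)) | p.1 ∈ orb v₀} :=
    (isClosed_closure (s := Set.range fun n : ℤ => sh n v₀)).preimage continuous_fst
  have h2 : IsClosed {p : (X × (ℕ → C)) × (X × (ℕ → C)) | p.2 ∈ orb v₀} :=
    (isClosed_closure (s := Set.range fun n : ℤ => sh n v₀)).preimage continuous_snd
  have h3 : IsClosed {p : (X × (ℕ → C)) × (X × (ℕ → C)) | p.1.1 = p.2.1} :=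
    isClosed_eq (by fun_prop) (by fun_prop)
  exact h1.inter (h2.inter h3)

variable {v₀ : X × (ℕ → C)} {d : (ℕ → C) → (ℕ → C) → X → ℝ}

omit [MeasurableSpace C] [CS C] [MeasurableSpace X] [CS X] in
theorem PP_inv : AK.Inv (PP v₀) := fun n p hp =>
  ⟨orb_inv v₀ n p.1 hp.1, orb_inv v₀ n p.2 hp.2.1, congrArg (sh n) hp.2.2⟩

omit [MeasurableSpace C] [CS C] [MeasurableSpace X] [CS X] in
theorem PP_mem {p : (X × (ℕ → C)) × (X × (ℕ → C))} (hp : p ∈ PP v₀) :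
    (p.1.1, p.2.2) ∈ orb v₀ := by
  rw [hp.2.2]
  exact hp.2.1

omit [MeasurableSpace C] [CS C] [MeasurableSpace X] [CS X] in
theorem DD_cont (h : Isom {p : (ℕ → C) × X | (p.2, p.1) ∈ orb v₀} d) :
    ContinuousOn (DD d) (PP v₀) := by
  have h1 : ContinuousOn (fun p : (X × (ℕ → C)) × (X × (ℕ → C)) =>
      ((p.1.2, p.2.2, p.1.1) : (ℕ → C) × (ℕ → C) × X)) (PP v₀) := by fun_prop
  exact h.ipb.cont.comp h1 fun p hp => ⟨hp.1, PP_mem hp⟩

omit [MeasurableSpace C] [CS C] [MeasurableSpace X] [CS X] in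
theorem DD_inv (h : Isom {p : (ℕ → C) × X | (p.2, p.1) ∈ orb v₀} d) (n : ℤ)
    {p : (X × (ℕ → C)) × (X × (ℕ → C))} (hp : p ∈ PP v₀) : DD d (sh n p) = DD d p :=
  h.ipb.inv n p.1.1 p.1.2 p.2.2 hp.1 (PP_mem hp)

/-- the distance is constant on orbit closures -/
theorem DD_orb (h : Isom {p : (ℕ → C) × X | (p.2, p.1) ∈ orb v₀} d)
    {p q : (X × (ℕ → C)) × (X × (ℕ → C))} (hp : p ∈ PP v₀) (hq : q ∈ orb p) :
    q ∈ PP v₀ ∧ DD d q = DD d p := by
  have h1 : IsClosed (PP v₀ ∩ DD d ⁻¹' {DD d p}) :=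
    (DD_cont h).preimage_isClosed_of_isClosed (PP_closed v₀) isClosed_singleton
  have h2 : AK.Inv (PP v₀ ∩ DD d ⁻¹' {DD d p}) := fun n q hq =>
    ⟨PP_inv n q hq.1, (DD_inv h n hq.1).trans hq.2⟩
  exact orb_sub h1 h2 ⟨hp, rfl⟩ hq

end

end I_CLO

open I_CLO in
theorem CLO_pf (h1 : S_AUT) : S_CLO := by
  intro C X _ _ _ _ _ _ _ _ J d hJ v₀ hv v' hv' W hW j
  obtain ⟨-, -, -, ⟨d', hd'⟩, -⟩ := h1 C X J d hJ v₀ hv
  -- a ball of the metric is contained in `W`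
  obtain ⟨ε, hε, hball⟩ : ∃ ε : ℝ, 0 < ε ∧ ∀ u, (v', u) ∈ PP v₀ → DD d' (v', u) < ε → u ∈ W := by
    have hF : IsCompact {u | (v', u) ∈ PP v₀ ∧ u ∉ interior W} := by
      have a1 : IsClosed {u | (v', u) ∈ PP v₀} := (PP_closed v₀).preimage (by fun_prop)
      have a2 : IsClosed {u | u ∉ interior W} := isOpen_interior.isClosed_compl
      exact (a1.inter a2).isCompact
    have hc : ContinuousOn (fun u => DD d' (v', u)) {u | (v', u) ∈ PP v₀ ∧ u ∉ interior W} :=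
      (DD_cont hd').comp (by fun_prop) fun u hu => hu.1
    rcases Set.eq_empty_or_nonempty {u | (v', u) ∈ PP v₀ ∧ u ∉ interior W} with he | hne
    · refine ⟨1, one_pos, fun u hu _ => ?_⟩
      by_contra hc
      have : u ∈ {u | (v', u) ∈ PP v₀ ∧ u ∉ interior W} :=
        ⟨hu, fun h => hc (interior_subset h)⟩
      rw [he] at this
      exact this
    · obtain ⟨u₀, hu₀, hmin⟩ := hF.exists_isMinOn hne hc
      have hpos : 0 < DD d' (v', u₀) := by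
        have a1 : 0 ≤ DD d' (v', u₀) :=
          hd'.ipb.nonneg v'.1 v'.2 u₀.2 hu₀.1.1 (PP_mem hu₀.1)
        rcases a1.lt_or_eq with a2 | a2
        · exact a2
        · exfalso
          have a3 : v'.2 = u₀.2 := hd'.sep v'.1 v'.2 u₀.2 hu₀.1.1 (PP_mem hu₀.1) a2.symm
          have a4 : u₀ = v' := Prod.ext hu₀.1.2.2.symm a3.symm
          exact hu₀.2 (a4 ▸ mem_interior_iff_mem_nhds.2 hW)
      refine ⟨DD d' (v', u₀), hpos, fun u hu hlt => ?_⟩
      by_contra hc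
      have a1 : DD d' (v', u₀) ≤ DD d' (v', u) := hmin ⟨hu, fun h => hc (interior_subset h)⟩
      exact absurd hlt (not_lt.2 a1)
  -- small displacements
  have h0 : (v₀, v₀) ∈ PP v₀ := ⟨self_mem v₀, self_mem v₀, rfl⟩
  have hd0 : DD d' (v₀, v₀) = 0 := hd'.ipb.self v₀.1 v₀.2 (self_mem v₀)
  have hct : ContinuousWithinAt (fun u => DD d' (v₀, u)) {u | (v₀, u) ∈ PP v₀} v₀ :=
    ((DD_cont hd').comp (f := fun u => (v₀, u)) (by fun_prop) fun u hu => hu) v₀ h0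
  have hev : ∀ᶠ u in 𝓝[{u | (v₀, u) ∈ PP v₀}] v₀, DD d' (v₀, u) < ε / (j + 1) := by
    refine Tendsto.eventually_lt_const ?_ hct
    simp only [hd0]
    positivity
  rw [eventually_nhdsWithin_iff] at hev
  refine ⟨_, hev, fun v₁ hv1 hv1o hv11 w hw0 hw => ?_⟩
  have hp1 : (v₀, v₁) ∈ PP v₀ := ⟨self_mem v₀, hv1o, hv11.symm⟩
  have hlt : DD d' (v₀, v₁) < ε / (j + 1) := hv1 hp1
  have hnn : 0 ≤ DD d' (v₀, v₁) := hd'.ipb.nonneg v₀.1 v₀.2 v₁.2 hp1.1 (PP_mem hp1)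
  have hstep : ∀ a, (w a, w (a + 1)) ∈ PP v₀ ∧ DD d' (w a, w (a + 1)) = DD d' (v₀, v₁) :=
    fun a => DD_orb hd' hp1 (hw a)
  have hind : ∀ a : ℕ, (v', w a) ∈ PP v₀ ∧ DD d' (v', w a) ≤ a * DD d' (v₀, v₁) := by
    intro a
    induction a with
    | zero =>
      rw [hw0]
      refine ⟨⟨hv', hv', rfl⟩, ?_⟩
      have : DD d' (v', v') = 0 := hd'.ipb.self v'.1 v'.2 hv'
      simp [this]
    | succ a ih =>
      obtain ⟨i1, i2⟩ := ih
      obtain ⟨s1, s2⟩ := hstep a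
      have i3 : (v', w (a + 1)) ∈ PP v₀ := ⟨hv', s1.2.1, i1.2.2.trans s1.2.2⟩
      refine ⟨i3, ?_⟩
      have t := hd'.ipb.tri v'.1 v'.2 (w a).2 (w (a + 1)).2 hv' (PP_mem i1) (PP_mem i3)
      have e1 : d' (w a).2 (w (a + 1)).2 v'.1 = DD d' (w a, w (a + 1)) := by
        have : v'.1 = (w a).1 := i1.2.2
        simp only [DD, this]
      rw [e1, s2] at t
      have e2 : DD d' (v', w (a + 1)) ≤ DD d' (v', w a) + DD d' (v₀, v₁) := t
      push_cast
      linarith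
  obtain ⟨f1, f2⟩ := hind j
  refine hball _ f1 (lt_of_le_of_lt f2 ?_)
  have hj : (0 : ℝ) < j + 1 := by positivity
  rw [lt_div_iff₀ hj] at hlt
  nlinarith

end Pool.Agent.Work.MP_69fea5_lc.W3
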