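import Pool.Agent.Work.MP_69fea5_lc.W3.StmtsE

/-!
# Block [69fea5 F], item CMD

Domination in the limit.
-/

set_option autoImplicit false

namespace Pool.Agent.Work.MP_69fea5_lc.W3

open MeasureTheory Topology Set Filter ProbabilityTheory
open scoped NNReal ENNReal
open Pool.Agent.Work.MP_69fea5_lc.AK
open Pool.Agent.Work.MP_69fea5_lc.N3 (W2 bx sup2 St nxt Bl3 CaseII3 GRD)

theorem CMD_pf (h1 : N3.S_CL2) : S_CMD := by
  intro k G τ τ₁ τ' τ₁' hf' hf1' hle hone ht ht1
  -- clopen sets
  have hclopen : ∀ C : Set (Om k × Om k), IsClopen C → τ'.real C ≤ τ₁'.real C := by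
    intro C hC
    refine le_of_tendsto_of_tendsto (ht C hC) (ht1 C hC) (Eventually.of_forall fun n => ?_)
    have hfin : τ₁ n C ≠ ⊤ :=
      ne_top_of_le_ne_top ENNReal.one_ne_top ((measure_mono (subset_univ C)).trans (hone n))
    exact ENNReal.toReal_mono hfin (hle n C)
  -- closed sets
  have hclosed : ∀ F : Set (Om k × Om k), IsClosed F → τ' F ≤ τ₁' F := by
    intro F hF
    have hr : τ'.real F ≤ τ₁'.real F := by
      refine le_of_forall_gt_imp_ge_of_dense fun a ha => ?_
      obtain ⟨C, hC, hFC, hCa⟩ := h1 k τ₁' F a hF ha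
      have h2 : τ'.real F ≤ τ'.real C := measureReal_mono hFC (measure_ne_top τ' C)
      exact (h2.trans (hclopen C hC)).trans hCa.le
    rw [← ENNReal.ofReal_toReal (measure_ne_top τ' F), ← ENNReal.ofReal_toReal (measure_ne_top τ₁' F)]
    exact ENNReal.ofReal_le_ofReal hr
  refine Measure.le_iff.2 fun A hA => ?_
  refine le_of_forall_lt fun r hr => ?_
  obtain ⟨F, hFA, hF, hrF⟩ := MeasurableSet.exists_lt_isClosed_of_ne_top hA (measure_ne_top τ' A) hr
  exact lt_of_lt_of_le hrF ((hclosed F hF).trans (measure_mono hFA))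

end Pool.Agent.Work.MP_69fea5_lc.W3
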