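import Pool.Agent.Work.MP_69fea5_lc.W3.StmtsE

/-!
Block [69fea5 F], part E, item END: the final argument.
-/

set_option autoImplicit false

namespace Pool.Agent.Work.MP_69fea5_lc.W3

open MeasureTheory Topology Set Filter ProbabilityTheory
open scoped NNReal ENNReal
open Pool.Agent.Work.MP_69fea5_lc.AK
open Pool.Agent.Work.MP_69fea5_lc.N3 (W2 bx sup2 St nxt Bl3 CaseII3 GRD)

theorem END_pf (hINI : S_INI) (hSTP : S_STP3) (hFNL : S_FNL) (hGCE : S_GCE) (hSDB : S_SDB) :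
    S_END := by
  classical
  intro k X _ _ _ _ c x x1 μ0 μ1 μ2 C κ1 κ2 h
  have hp1 := h.p1
  have hp2 := h.p2
  by_contra hno
  push Not at hno
  have hall : ∀ F1 F2 : List (Wd k), CaseII3 c ((sd κ1 F1).prod (sd κ2 F2)) := by
    intro F1 F2
    by_contra hc
    have h1 : IsFiniteMeasure (sd κ1 F1) :=
      ⟨lt_of_le_of_lt (hSDB k κ1 F1).2.2.2.2.2.1 ENNReal.one_lt_top⟩
    have h2 : IsFiniteMeasure (sd κ2 F2) :=
      ⟨lt_of_le_of_lt (hSDB k κ2 F2).2.2.2.2.2.1 ENNReal.one_lt_top⟩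
    exact hno F1 F2 (hGCE k c _ hc)
  have key : ∀ D : Finset (Fin k), D ⊆ C → ∃ F1 F2 N, NS c x x1 μ0 μ2 C κ1 κ2 D F1 F2 N := by
    intro D
    induction D using Finset.induction_on with
    | empty => intro _; exact hINI k X c x x1 μ0 μ1 μ2 C κ1 κ2 h
    | insert r D hr ih =>
      intro hD
      obtain ⟨F1, F2, N, hN⟩ := ih fun a ha => hD (Finset.mem_insert_of_mem ha)
      exact hSTP k X c x x1 μ0 μ1 μ2 C κ1 κ2 h D F1 F2 N hN (hall F1 F2) r
        (hD (Finset.mem_insert_self r D))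
  obtain ⟨F1, F2, N, hN⟩ := key C subset_rfl
  exact hFNL k X c x x1 μ0 μ1 μ2 C κ1 κ2 h F1 F2 N hN

end Pool.Agent.Work.MP_69fea5_lc.W3
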