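import Pool.Agent.Work.MP_69fea5_lc.W3.StmtsG

set_option autoImplicit false

namespace Pool.Agent.Work.MP_69fea5_lc.W3

open MeasureTheory Topology Set Filter TopologicalSpace

theorem GAE_pf : S_GAE := by
  intro Ω Q _ _ P ν _ _ a b f ha hb hPa hPb hf H
  have hfa : Integrable (fun ω => f (a ω)) P := by
    have h : Integrable f (P.map a) := by rw [hPa]; exact hf
    exact h.comp_measurable ha
  have hfb : Integrable (fun ω => f (b ω)) P := by
    have h : Integrable f (P.map b) := by rw [hPb]; exact hf
    exact h.comp_measurable hb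
  have hd : Integrable (fun ω => f (a ω) - f (b ω)) P := hfa.sub hfb
  have key : ∀ ε > 0, ∫ ω, |f (a ω) - f (b ω)| ∂P ≤ 2 * ε := by
    intro ε hε
    obtain ⟨g, hg, hab, hle⟩ := H ε hε
    have hga : Integrable (fun ω => g (a ω)) P := by
      have h : Integrable g (P.map a) := by rw [hPa]; exact hg
      exact h.comp_measurable ha
    have hgb : Integrable (fun ω => g (b ω)) P := by
      have h : Integrable g (P.map b) := by rw [hPb]; exact hg
      exact h.comp_measurable hb
    have h1 : ∫ ω, |f (a ω) - g (a ω)| ∂P = ∫ q, |f q - g q| ∂ν := by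
      have hm : AEStronglyMeasurable (fun q => |f q - g q|) (P.map a) := by
        rw [hPa]; exact (hf.sub hg).abs.aestronglyMeasurable
      rw [← hPa, integral_map ha.aemeasurable hm]
    have h2 : ∫ ω, |f (b ω) - g (b ω)| ∂P = ∫ q, |f q - g q| ∂ν := by
      have hm : AEStronglyMeasurable (fun q => |f q - g q|) (P.map b) := by
        rw [hPb]; exact (hf.sub hg).abs.aestronglyMeasurable
      rw [← hPb, integral_map hb.aemeasurable hm]
    have hia : Integrable (fun ω => |f (a ω) - g (a ω)|) P := (hfa.sub hga).abs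
    have hib : Integrable (fun ω => |f (b ω) - g (b ω)|) P := (hfb.sub hgb).abs
    have h3 : ∫ ω, |f (a ω) - f (b ω)| ∂P
        ≤ ∫ ω, (|f (a ω) - g (a ω)| + |f (b ω) - g (b ω)|) ∂P := by
      apply integral_mono_ae hd.abs (hia.add hib)
      filter_upwards [hab] with ω hω
      have : f (a ω) - f (b ω) = (f (a ω) - g (a ω)) - (f (b ω) - g (b ω)) := by
        rw [hω]; ring
      change |f (a ω) - f (b ω)| ≤ |f (a ω) - g (a ω)| + |f (b ω) - g (b ω)|
      rw [this]
      exact abs_sub _ _
    rw [integral_add hia hib, h1, h2] at h3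
    linarith
  have hz : ∫ ω, |f (a ω) - f (b ω)| ∂P = 0 := by
    apply le_antisymm
    · apply le_of_forall_pos_le_add
      intro ε hε
      have := key (ε / 2) (by positivity)
      linarith
    · exact integral_nonneg fun ω => abs_nonneg _
  rw [integral_eq_zero_iff_of_nonneg (fun ω => abs_nonneg _) hd.abs] at hz
  filter_upwards [hz] with ω hω
  have : |f (a ω) - f (b ω)| = 0 := hω
  exact sub_eq_zero.mp (abs_eq_zero.mp this)

end Pool.Agent.Work.MP_69fea5_lc.W3
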