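import Pool.Agent.Work.MP_69fea5_lc.W3.StmtsM

/-!
Item GBA of block [69fea5 M]: a coded Baire argument in the fibre of the frames over `v.1`.
-/

set_option autoImplicit false
set_option linter.unusedSectionVars false

namespace Pool.Agent.Work.MP_69fea5_lc.W3

open MeasureTheory Topology Set Filter TopologicalSpace
open scoped NNReal ENNReal
open Pool.Agent.Work.MP_69fea5_lc.AK
open Pool.Agent.Work.MP_69fea5_lc.HK (Cl DU Ar ArF ArR Dat Law LawC act near sc Pt oc Mn mr ext)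
open Pool.Agent.Work.MP_69fea5_lc.KC (Agree)

namespace I_GBA

section

variable {Y Z : Type} [TopologicalSpace Y] [Dat Y] [Law Y] [LawC Y] [TopologicalSpace Z] [Dat Z]
  [Law Z] [LawC Z]

/-- the ball `b` has a point of the fibre deep inside -/
def In (v : Y × Z) (b : ℤ × ℕ) : Prop :=
  ∀ M : ℕ, ∃ n : ℤ, near M (act n v).1 v.1 ∧ near (4 * b.2 + 9) (act b.1 v) (act n v)

theorem In.fibre [CompactSpace Y] [CompactSpace Z] [T2Space Y] {v : Y × Z} {b : ℤ × ℕ}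
    (h : In v b) : ∃ c : Y × Z, c ∈ oc v ∧ c.1 = v.1 ∧ near (4 * b.2 + 8) (act b.1 v) c := by
  choose n hn1 hn2 using h
  obtain ⟨U, hU⟩ : ∃ U : Ultrafilter ℕ, (U : Filter ℕ) ≤ atTop :=
    ⟨hyperfilter ℕ, by rw [← Nat.cofinite_eq_atTop]; exact Filter.hyperfilter_le_cofinite⟩
  obtain ⟨c, -, hc⟩ := isCompact_univ.ultrafilter_le_nhds (U.map fun M => act (n M) v) (by simp)
  have hc : Tendsto (fun M => act (n M) v) (U : Filter ℕ) (𝓝 c) := hc
  refine ⟨c, mem_oc_of_tendsto hc, ?_, ?_⟩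
  · exact tendsto_nhds_unique ((continuous_fst.tendsto c).comp hc) (tendsto_near hU hn1)
  · refine Law.near_lim _ (act b.1 v, c) ?_
    exact mem_closure_of_tendsto (tendsto_const_nhds.prodMk_nhds hc)
      (Eventually.of_forall fun M => hn2 M)

theorem exists_center {v c : Y × Z} (hc : c ∈ oc v) (hc1 : c.1 = v.1) {W : Set (Y × Z)}
    (hW : IsOpen W) (hcW : c ∈ W) (r : ℕ) : ∃ m : ℤ, act m v ∈ W ∧ In v (m, r) := by
  obtain ⟨L, hL⟩ := Law.near_basis c W (hW.mem_nhds hcW)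
  obtain ⟨m, hm⟩ := exists_near_of_oc hc (max L (2 * (4 * r + 9) + 1))
  refine ⟨m, hL _ (Law.near_symm _ _ _ (Law.near_mono _ _ _ _ (le_max_left _ _) hm)),
    fun M => ?_⟩
  obtain ⟨n, hn⟩ := exists_near_of_oc hc (max M (2 * (4 * r + 9) + 1))
  refine ⟨n, ?_, ?_⟩
  · have h := (Law.near_mono _ _ _ _ (le_max_left _ _) hn).1
    rwa [hc1] at h
  · exact Law.near_tri _ _ c _ (Law.near_mono _ _ _ _ (le_max_right _ _) hm)
      (Law.near_symm _ _ _ (Law.near_mono _ _ _ _ (le_max_right _ _) hn))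

/-- the ball `b'` is inside `b` and inside the ball `p` of the `s`-th open set -/
def Sa (v : Y × Z) (D : ℕ × (ℤ × ℕ) → Prop) (s : ℕ) (b b' p : ℤ × ℕ) : Prop :=
  D (s, p) ∧ near (2 * b.2 + 1) (act b.1 v) (act b'.1 v) ∧
    near (2 * p.2 + 1) (act p.1 v) (act b'.1 v) ∧ 2 * b.2 + 2 ≤ b'.2 ∧ 2 * p.2 + 2 ≤ b'.2 ∧
    s ≤ b'.2 ∧ In v b'

/-- the ball `b'` is deep inside `b` -/
def Sb (v : Y × Z) (s : ℕ) (b b' : ℤ × ℕ) : Prop :=
  near (4 * b.2 + 3) (act b.1 v) (act b'.1 v) ∧ 4 * b.2 + 4 ≤ b'.2 ∧ s ≤ b'.2 ∧ In v b'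

/-- one step -/
def St (v : Y × Z) (D : ℕ × (ℤ × ℕ) → Prop) (s : ℕ) (b b' : ℤ × ℕ) : Prop :=
  In v b → ((∃ b'' p, Sa v D s b b'' p) → ∃ p, Sa v D s b b' p) ∧
    ((¬ ∃ b'' p, Sa v D s b b'' p) → Sb v s b b')

theorem exists_St [CompactSpace Y] [CompactSpace Z] [T2Space Y] (v : Y × Z)
    (D : ℕ × (ℤ × ℕ) → Prop) (s : ℕ) (b : ℤ × ℕ) : ∃ b', St v D s b b' := by
  by_cases hb : In v b
  · by_cases h : ∃ b'' p, Sa v D s b b'' p
    · obtain ⟨b'', p, hp⟩ := h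
      exact ⟨b'', fun _ => ⟨fun _ => ⟨p, hp⟩, fun h' => absurd ⟨b'', p, hp⟩ h'⟩⟩
    · obtain ⟨c, hc, hc1, hc2⟩ := hb.fibre
      have hW : IsOpen {y : Y × Z | near (4 * b.2 + 3) (act b.1 v) y} :=
        (Law.near_open (α := Y × Z) (4 * b.2 + 3)).preimage
          (continuous_const.prodMk continuous_id)
      obtain ⟨m, hm, hI⟩ := exists_center hc hc1 hW
        (Law.near_mono _ _ _ _ (by omega) hc2) (max (4 * b.2 + 4) s)
      exact ⟨(m, max (4 * b.2 + 4) s), fun _ => ⟨fun h' => absurd h' h, fun _ =>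
        ⟨hm, le_max_left _ _, le_max_right _ _, hI⟩⟩⟩
  · exact ⟨b, fun h => absurd h hb⟩

end

section ar

variable {Y Z : Type} [TopologicalSpace Y] [Dat Y] [Law Y] [LawC Y] [TopologicalSpace Z] [Dat Z]
  [Law Z] [LawC Z] {S : Set (Set ℕ)}

theorem ar_near {ι : Type} [Primcodable ι] (hS : Cl S) {v : Y × Z} (hv : Pt S v) {L : ι → ℕ}
    {m n : ι → ℤ} (hL : ArF S L) (hm : ArF S m) (hn : ArF S n) :
    Ar S fun i => near (L i) (act (m i) v) (act (n i) v) :=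
  sc_near hS (sc_orb hS hv hm) (sc_orb hS hv hn) hL

theorem arF_lin {ι : Type} [Primcodable ι] (hS : Cl S) {f : ι → ℕ} (hf : ArF S f) (a b : ℕ) :
    ArF S fun i => a * f i + b :=
  HK.ArF.add hS (HK.ArF.mul hS (HK.ArF.const hS a) hf) (HK.ArF.const hS b)

theorem ar_In (hS : Cl S) {v : Y × Z} (hv : Pt S v) : Ar S fun b : ℤ × ℕ => In v b := by
  refine HK.Ar.all hS (R := fun (b : ℤ × ℕ) (M : ℕ) => ∃ n : ℤ, near M (act n v).1 v.1 ∧
    near (4 * b.2 + 9) (act b.1 v) (act n v)) ?_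
  refine HK.Ar.ex hS (R := fun (p : (ℤ × ℕ) × ℕ) (n : ℤ) => near p.2 (act n v).1 v.1 ∧
    near (4 * p.1.2 + 9) (act p.1.1 v) (act n v)) ?_
  refine HK.Ar.and hS ?_ ?_
  · refine sc_near hS (w := fun q : ((ℤ × ℕ) × ℕ) × ℤ => (act q.2 v).1) (w' := fun _ => v.1)
      (L := fun q => q.1.2) ?_ ?_ ?_
    · exact (sc_prod.1 (sc_orb hS hv (HK.ArF.snd hS))).1
    · exact sc_const hS hv.1
    · exact HK.ArF.of_primrec hS (Primrec.snd.comp Primrec.fst)
  · refine ar_near hS hv (L := fun q : ((ℤ × ℕ) × ℕ) × ℤ => 4 * q.1.1.2 + 9)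
      (m := fun q => q.1.1.1) (n := fun q => q.2) ?_ ?_ (HK.ArF.snd hS)
    · exact arF_lin hS (HK.ArF.of_primrec hS
        (Primrec.snd.comp (Primrec.fst.comp Primrec.fst))) 4 9
    · exact HK.ArF.of_primrec hS (Primrec.fst.comp (Primrec.fst.comp Primrec.fst))

theorem ar_Sa {ι : Type} [Primcodable ι] (hS : Cl S) {v : Y × Z} (hv : Pt S v)
    {D : ℕ × (ℤ × ℕ) → Prop} (hD : Ar S D) {s : ι → ℕ} {b b' p : ι → ℤ × ℕ} (hs : ArF S s)
    (hb : ArF S b) (hb' : ArF S b') (hp : ArF S p) :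
    Ar S fun i => Sa v D (s i) (b i) (b' i) (p i) := by
  have f1 : ∀ {g : ι → ℤ × ℕ}, ArF S g → ArF S fun i => (g i).1 := fun hg =>
    HK.ArF.map hS Primrec.fst hg
  have f2 : ∀ {g : ι → ℤ × ℕ}, ArF S g → ArF S fun i => (g i).2 := fun hg =>
    HK.ArF.map hS Primrec.snd hg
  refine HK.Ar.and hS (hD.sub hS (hs.pair hS hp)) (HK.Ar.and hS ?_ (HK.Ar.and hS ?_
    (HK.Ar.and hS ?_ (HK.Ar.and hS ?_ (HK.Ar.and hS ?_ ?_)))))
  · exact ar_near hS hv (arF_lin hS (f2 hb) 2 1) (f1 hb) (f1 hb')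
  · exact ar_near hS hv (arF_lin hS (f2 hp) 2 1) (f1 hp) (f1 hb')
  · exact HK.Ar.le hS (arF_lin hS (f2 hb) 2 2) (f2 hb')
  · exact HK.Ar.le hS (arF_lin hS (f2 hp) 2 2) (f2 hb')
  · exact HK.Ar.le hS hs (f2 hb')
  · exact (ar_In hS hv).sub hS hb'

theorem ar_St (hS : Cl S) {v : Y × Z} (hv : Pt S v) {D : ℕ × (ℤ × ℕ) → Prop} (hD : Ar S D) :
    Ar S fun q : (ℕ × (ℤ × ℕ)) × (ℤ × ℕ) => St v D q.1.1 q.1.2 q.2 := by
  have v1 : ArF S fun q : (ℕ × (ℤ × ℕ)) × (ℤ × ℕ) => q.1.1 :=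
    HK.ArF.of_primrec hS (Primrec.fst.comp Primrec.fst)
  have v2 : ArF S fun q : (ℕ × (ℤ × ℕ)) × (ℤ × ℕ) => q.1.2 :=
    HK.ArF.of_primrec hS (Primrec.snd.comp Primrec.fst)
  have v3 : ArF S fun q : (ℕ × (ℤ × ℕ)) × (ℤ × ℕ) => q.2 := HK.ArF.snd hS
  have hex : Ar S fun q : (ℕ × (ℤ × ℕ)) × (ℤ × ℕ) => ∃ b'' p, Sa v D q.1.1 q.1.2 b'' p := by
    refine HK.Ar.ex hS (R := fun (q : (ℕ × (ℤ × ℕ)) × (ℤ × ℕ)) (b'' : ℤ × ℕ) =>
      ∃ p, Sa v D q.1.1 q.1.2 b'' p) ?_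
    refine HK.Ar.ex hS (R := fun (q : ((ℕ × (ℤ × ℕ)) × (ℤ × ℕ)) × (ℤ × ℕ)) (p : ℤ × ℕ) =>
      Sa v D q.1.1.1 q.1.1.2 q.2 p) ?_
    refine ar_Sa hS hv hD ?_ ?_ ?_ (HK.ArF.snd hS)
    · exact HK.ArF.of_primrec hS
        (Primrec.fst.comp (Primrec.fst.comp (Primrec.fst.comp Primrec.fst)))
    · exact HK.ArF.of_primrec hS
        (Primrec.snd.comp (Primrec.fst.comp (Primrec.fst.comp Primrec.fst)))
    · exact HK.ArF.of_primrec hS (Primrec.snd.comp Primrec.fst)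
  refine HK.Ar.imp hS ((ar_In hS hv).sub hS v2) (HK.Ar.and hS (HK.Ar.imp hS hex ?_)
    (HK.Ar.imp hS (hex.not hS) ?_))
  · refine HK.Ar.ex hS (R := fun (q : (ℕ × (ℤ × ℕ)) × (ℤ × ℕ)) (p : ℤ × ℕ) =>
      Sa v D q.1.1 q.1.2 q.2 p) ?_
    exact ar_Sa hS hv hD (v1.comp hS (HK.ArF.fst hS)) (v2.comp hS (HK.ArF.fst hS))
      (v3.comp hS (HK.ArF.fst hS)) (HK.ArF.snd hS)
  · refine HK.Ar.and hS ?_ (HK.Ar.and hS ?_ (HK.Ar.and hS ?_ ?_))
    · exact ar_near hS hv (arF_lin hS (HK.ArF.map hS Primrec.snd v2) 4 3)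
        (HK.ArF.map hS Primrec.fst v2) (HK.ArF.map hS Primrec.fst v3)
    · exact HK.Ar.le hS (arF_lin hS (HK.ArF.map hS Primrec.snd v2) 4 4)
        (HK.ArF.map hS Primrec.snd v3)
    · exact HK.Ar.le hS v1 (HK.ArF.map hS Primrec.snd v3)
    · exact (ar_In hS hv).sub hS v3

end ar

/-- the coded Baire argument -/
theorem baire {Y Z : Type} [TopologicalSpace Y] [Dat Y] [Law Y] [LawC Y] [TopologicalSpace Z]
    [Dat Z] [Law Z] [LawC Z] [CompactSpace Y] [T2Space Y] [CompactSpace Z]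
    {S : Set (Set ℕ)} {U : Ultrafilter ℕ} (hS : Cl S) (hU : DU S U) {v : Y × Z} (hv : Pt S v)
    {D : ℕ × (ℤ × ℕ) → Prop} (hD : Ar S D) :
    ∃ v₁ : ℕ → Y × Z, sc S v₁ ∧ ∀ i, v₁ i ∈ oc v ∧ (v₁ i).1 = v.1 ∧ near i (v₁ i) v ∧
      ∀ s, (∃ p, D (s, p) ∧ near p.2 (act p.1 v) (v₁ i)) ∨
        ∃ W ∈ 𝓝 (v₁ i), ∀ c ∈ W, c ∈ oc v → c.1 = v.1 → ∀ p, D (s, p) →
          ¬ near (2 * p.2 + 1) (act p.1 v) c := by
  obtain ⟨G, aG, hG⟩ := HK.Ar.choose hS (R := fun (a : ℕ × (ℤ × ℕ)) (b' : ℤ × ℕ) =>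
    St v D a.1 a.2 b') (ar_St hS hv hD) fun a => exists_St v D a.1 a.2
  obtain ⟨f, hf0, hfs⟩ := HK.exists_rec (α := ℕ) (fun i => ((0 : ℤ), 2 * i + 2))
    fun _ n b => G (n, b)
  have af : ArF S fun p : ℕ × ℕ => f p.1 p.2 := by
    refine HK.ArF.rec hS (b := fun i => ((0 : ℤ), 2 * i + 2)) ?_ (G := fun _ n b => G (n, b))
      ?_ hf0 hfs
    · exact (HK.ArF.const hS (0 : ℤ)).pair hS (arF_lin hS (HK.ArF.id hS) 2 2)
    · exact aG.comp hS (HK.ArF.snd hS)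
  -- the invariant
  have hin : ∀ i s, In v (f i s) := by
    intro i s
    induction s with
    | zero =>
      rw [hf0]
      intro M
      refine ⟨0, ?_, Law.near_refl _ _⟩
      rw [Law.act_zero]
      exact Law.near_refl _ _
    | succ s ih =>
      have h := hG (s, f i s) ih
      rw [hfs]
      by_cases he : ∃ b'' p, Sa v D s (f i s) b'' p
      · obtain ⟨p, hp⟩ := h.1 he
        exact hp.2.2.2.2.2.2
      · exact (h.2 he).2.2.2
  have hstep : ∀ i s, (∃ p, Sa v D s (f i s) (f i (s + 1)) p) ∨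
      ((¬ ∃ b'' p, Sa v D s (f i s) b'' p) ∧ Sb v s (f i s) (f i (s + 1))) := by
    intro i s
    have h := hG (s, f i s) (hin i s)
    rw [hfs]
    by_cases he : ∃ b'' p, Sa v D s (f i s) b'' p
    · exact Or.inl (h.1 he)
    · exact Or.inr ⟨he, h.2 he⟩
  have hnear : ∀ i s, near (2 * (f i s).2 + 1) (act (f i s).1 v) (act (f i (s + 1)).1 v) := by
    intro i s
    rcases hstep i s with ⟨p, hp⟩ | ⟨-, hb⟩
    · exact hp.2.1
    · exact Law.near_mono _ _ _ _ (by omega) hb.1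
  have hrad : ∀ i s, 2 * (f i s).2 + 2 ≤ (f i (s + 1)).2 ∧ s ≤ (f i (s + 1)).2 := by
    intro i s
    rcases hstep i s with ⟨p, hp⟩ | ⟨-, hb⟩
    · exact ⟨hp.2.2.2.1, hp.2.2.2.2.2.1⟩
    · exact ⟨by have := hb.2.1; omega, hb.2.2.1⟩
  -- nested balls
  have hnest : ∀ i d s, near (f i s).2 (act (f i s).1 v) (act (f i (s + d)).1 v) := by
    intro i d
    induction d with
    | zero => intro s; exact Law.near_refl _ _
    | succ d ih =>
      intro s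
      have h1 := ih (s + 1)
      rw [show s + 1 + d = s + (d + 1) by omega] at h1
      exact Law.near_tri _ _ _ _ (hnear i s)
        (Law.near_mono _ _ _ _ (by have := (hrad i s).1; omega) h1)
  obtain ⟨v₁, hv₁, hlim⟩ := exists_lim_fam hS hU (w := fun p : ℕ × ℕ => act (f p.1 p.2).1 v)
    (sc_orb hS hv (HK.ArF.map hS Primrec.fst af))
  have hball : ∀ i s, near ((f i s).2 - 1) (act (f i s).1 v) (v₁ i) := by
    intro i s
    have hpos : 1 ≤ (f i s).2 := by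
      cases s with
      | zero => rw [hf0]; simp only; omega
      | succ s => have := (hrad i s).1; omega
    refine Law.near_lim _ (act (f i s).1 v, v₁ i) ?_
    refine mem_closure_of_tendsto (tendsto_const_nhds.prodMk_nhds (hlim i)) ?_
    filter_upwards [hU.top (eventually_ge_atTop s)] with t ht
    obtain ⟨d, rfl⟩ := Nat.exists_eq_add_of_le ht
    have h := hnest i d s
    rw [show (f i s).2 - 1 + 1 = (f i s).2 by omega]
    exact h
  refine ⟨v₁, hv₁, fun i => ⟨mem_oc_of_tendsto (hlim i), ?_, ?_, fun s => ?_⟩⟩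
  · -- the first component
    have h1 : Tendsto (fun t => (act (f i t).1 v).1) (U : Filter ℕ) (𝓝 (v₁ i).1) :=
      (continuous_fst.tendsto _).comp (hlim i)
    have h2 : Tendsto (fun t => (act (f i t).1 v).1) (U : Filter ℕ) (𝓝 v.1) := by
      intro V hV
      obtain ⟨L, hL⟩ := Law.near_basis v.1 V hV
      have h3 : ∀ᶠ t in (U : Filter ℕ), (act (f i t).1 v).1 ∈ V := by
        filter_upwards [hU.top (eventually_ge_atTop (L + 1))] with t ht
        obtain ⟨c, -, hc1, hc2⟩ := (hin i t).fibre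
        obtain ⟨t', rfl⟩ : ∃ t', t = t' + 1 := ⟨t - 1, by omega⟩
        have h4 := (hrad i t').2
        have h5 := (Law.near_mono L _ _ _ (by omega) hc2).1
        rw [hc1] at h5
        exact hL _ (Law.near_symm _ _ _ h5)
      exact h3
    exact tendsto_nhds_unique h1 h2
  · have h := hball i 0
    rw [hf0] at h
    simp only [Law.act_zero] at h
    exact Law.near_symm _ _ _ (Law.near_mono _ _ _ _ (by omega) h)
  · rcases hstep i s with ⟨p, hp⟩ | ⟨hno, hb⟩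
    · refine Or.inl ⟨p, hp.1, ?_⟩
      refine Law.near_tri _ _ _ _ hp.2.2.1 (Law.near_mono _ _ _ _ ?_ (hball i (s + 1)))
      have := hp.2.2.2.2.1
      omega
    · refine Or.inr ⟨{c | near (2 * (f i s).2 + 1) (act (f i s).1 v) c}, ?_, ?_⟩
      · have hW : IsOpen {y : Y × Z | near (2 * (f i s).2 + 1) (act (f i s).1 v) y} :=
          (Law.near_open (α := Y × Z) _).preimage (continuous_const.prodMk continuous_id)
        refine hW.mem_nhds ?_
        refine Law.near_tri (2 * (f i s).2 + 1) _ (act (f i (s + 1)).1 v) _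
          (Law.near_mono _ _ _ _ (by omega) hb.1)
          (Law.near_mono _ _ _ _ ?_ (hball i (s + 1)))
        have := hb.2.1
        omega
      · intro c hcW hc hc1 p hp hnp
        have hW : IsOpen {y : Y × Z | near (2 * (f i s).2 + 1) (act (f i s).1 v) y ∧
            near (2 * p.2 + 1) (act p.1 v) y} :=
          ((Law.near_open (α := Y × Z) _).preimage (continuous_const.prodMk continuous_id)).inter
            ((Law.near_open (α := Y × Z) _).preimage (continuous_const.prodMk continuous_id))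
        obtain ⟨m, ⟨hm1, hm2⟩, hI⟩ := exists_center hc hc1 hW ⟨hcW, hnp⟩
          (2 * (f i s).2 + 2 + (2 * p.2 + 2) + s)
        exact hno ⟨_, p, hp, hm1, hm2, by simp only; omega, by simp only; omega,
          by simp only; omega, hI⟩

end I_GBA

theorem GBA_pf : S_GBA := by
  intro S U hS hU Y C _ _ _ _ _ _ _ _ _ _ v D hv hD
  obtain ⟨v₁, h1, h2⟩ := I_GBA.baire hS hU hv hD
  refine ⟨v₁, h1, fun i => ?_⟩
  rw [← KC.oc_eq]
  exact h2 i

end Pool.Agent.Work.MP_69fea5_lc.W3
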