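import Pool.Agent.Work.MP_69fea5_lc.W3.StmtsG

/-!
# Block [69fea5 W3 G], item GCF: configurations of a distal system
-/

set_option autoImplicit false

namespace Pool.Agent.Work.MP_69fea5_lc.W3

open MeasureTheory Topology Set Filter TopologicalSpace
open Pool.Agent.Work.MP_69fea5_lc.AK

namespace I_GCF

variable {G ι X : Type} [AddCommGroup G] [TopologicalSpace X] [Sys X]

theorem distal (L : ι → G →+ ℤ) (hd : DistalOn (shA X) univ) :
    DistalOn (cfA (X := X) L) univ := by
  intro F x y z _ _ hx hy
  funext i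
  have hx' := tendsto_pi_nhds.1 hx i
  have hy' := tendsto_pi_nhds.1 hy i
  refine hd (F.map (L i)) (x i) (y i) (z i) trivial trivial ?_ ?_
  · rw [Ultrafilter.coe_map, tendsto_map'_iff]
    exact hx'
  · rw [Ultrafilter.coe_map, tendsto_map'_iff]
    exact hy'

end I_GCF

/-- [GCF] configurations of a distal system. -/
theorem GCF_pf (hGFL : S_GFL) (hGAP : S_GAP) : S_GCF := by
  intro G ι X _ _ _ _ _ L hd
  refine ⟨I_GCF.distal L hd, ?_⟩
  rintro ⟨h, hh⟩ hm
  have hfl : Flow (cfA (X := X) L) := flow_cfA L
  have key : ∀ z : X, NF X L = orbA (cfA L) (fun _ => z) := by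
    intro z
    obtain ⟨hc, hi, hz⟩ := (hGFL G (ι → X) (cfA L) hfl).1 (fun _ => z)
    apply Set.Subset.antisymm
    · have hK : {z' : X | (fun _ : ι => z') ∈ orbA (cfA L) (fun _ => z)} = univ := by
        refine hm.min _ ?_ ⟨z, hz⟩ ?_ (subset_univ _)
        · exact hc.preimage (continuous_pi fun _ => continuous_id)
        · intro n z' hz'
          have h1 := hi (n • h) _ hz'
          have h2 : cfA L (n • h) (fun _ : ι => z') = fun _ : ι => sh n z' := by
            funext i
            simp only [cfA, map_zsmul, hh i]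
            simp
          rw [h2] at h1
          exact h1
      refine closure_minimal ?_ hc
      rintro x ⟨g, z', rfl⟩
      have hz' : z' ∈ {z' : X | (fun _ : ι => z') ∈ orbA (cfA L) (fun _ => z)} := by
        rw [hK]; trivial
      exact hi g _ hz'
    · refine closure_mono ?_
      rintro x ⟨g, rfl⟩
      exact ⟨g, z, rfl⟩
  refine ⟨?_, key⟩
  obtain ⟨z, -⟩ := hm.ne
  rw [key z]
  exact hGAP G (ι → X) (cfA L) univ hfl isClosed_univ (fun _ _ _ => trivial)
    (I_GCF.distal L hd) (fun _ => z) trivial

end Pool.Agent.Work.MP_69fea5_lc.W3
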