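import Pool.Agent.Work.MP_69fea5_lc.W3.StmtsV
import Pool.Agent.Work.MP_69fea5_lc.KC.I_KCI
import Pool.Agent.Work.MP_69fea5_lc.HK.InstPM

/-!
# Block [69fea5 V], item GCT: the coded greedy construction
-/

set_option autoImplicit false

namespace Pool.Agent.Work.MP_69fea5_lc.W3

open MeasureTheory Topology Set Filter ProbabilityTheory
open scoped NNReal ENNReal
open Pool.Agent.Work.MP_69fea5_lc.AK
open Pool.Agent.Work.MP_69fea5_lc.HK (Cl DU Ar ArF ArR Dat Law LawC act near sc Pt oc Mn mr ext)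

namespace I_GCT

variable {k : ℕ}

/-- the new constraints -/
def nxt {n : ℕ} (P : Fin (n + 1) → HK.C k) (x : ℕ) : Fin (n + 1) → HK.C k := fun j =>
  P j ++ (if h : (j : ℕ) < n then (P ⟨(j : ℕ) + 1, by omega⟩).map fun q => (q.1 + (x : ℤ), q.2)
    else [])

theorem mem_nxt {n : ℕ} (P : Fin (n + 1) → HK.C k) (x : ℕ) (j : Fin (n + 1)) :
    ∀ q ∈ P j, q ∈ nxt P x j := fun q hq => List.mem_append_left _ hq

theorem mem_nxt' {n : ℕ} (P : Fin (n + 1) → HK.C k) (x : ℕ) (j : Fin n) :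
    ∀ q ∈ P j.succ, (q.1 + (x : ℤ), q.2) ∈ nxt P x j.castSucc := by
  intro q hq
  refine List.mem_append_right _ ?_
  have h : ((j.castSucc : Fin (n + 1)) : ℕ) < n := j.2
  rw [dif_pos h]
  exact List.mem_map.2 ⟨q, hq, rfl⟩

theorem sub_nxt {n : ℕ} (P : Fin (n + 1) → HK.C k) (x : ℕ) :
    (univ.pi (fun j => HK.cyl (P j)) ∩
      {u : Fin (n + 1) → Om k | ∀ j : Fin n, sh (x : ℤ) (u j.castSucc) ∈ HK.cyl (P j.succ)}) ⊆
    univ.pi fun j => HK.cyl (nxt P x j) := by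
  rintro u ⟨h1, h2⟩ j _ q hq
  rcases List.mem_append.1 hq with h | h
  · exact h1 j (mem_univ j) q h
  · by_cases hj : (j : ℕ) < n
    · rw [dif_pos hj] at h
      obtain ⟨q', h3, rfl⟩ := List.mem_map.1 h
      have h4 := h2 ⟨j, hj⟩
      have h5 : (⟨j, hj⟩ : Fin n).castSucc = j := rfl
      rw [h5] at h4
      exact h4 q' h3
    · rw [dif_neg hj] at h
      exact absurd h List.not_mem_nil

theorem pos_iff {n : ℕ} (ν : Measure (Fin (n + 1) → Om k)) [IsProbabilityMeasure ν]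
    (A : Set (Fin (n + 1) → Om k)) : 0 < ν A ↔ (0 : ℝ) < ν.real A := by
  rw [Measure.real, ENNReal.toReal_pos_iff]
  exact ⟨fun h => ⟨h, measure_lt_top ν A⟩, fun h => h.1⟩

end I_GCT

open I_GCT in
theorem GCT_pf (hGSM : S_GSM) : S_GCT := by
  classical
  intro S hS k n c ν _ r hc hν hr hNB
  set W : Type := Fin (n + 1) → HK.C k with hW
  set Gd : W → Prop := fun P => (0 : ℝ) < ν.real (univ.pi fun j => HK.cyl (P j)) with hGd
  set R : ℕ × W → ℕ × W → Prop := fun p p' => Gd p.2 → (p.1 < p'.1 ∧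
    (∀ q ∈ p.2 0, ext c (q.1 + (p'.1 : ℤ)) = q.2) ∧
    (∀ j : Fin (n + 1), ∀ q ∈ p.2 j, q ∈ p'.2 j) ∧
    (∀ j : Fin n, ∀ q ∈ p.2 j.succ, (q.1 + (p'.1 : ℤ), q.2) ∈ p'.2 j.castSucc) ∧ Gd p'.2) with hR
  -- definability
  have aGd : Ar S Gd :=
    HK.ArR.rlt hS (HK.ArR.zero hS) hν (fun _ => le_rfl)
  have app : ∀ {α : Type} [Primcodable α] {f : α → W} {g : α → Fin (n + 1)}, Primrec f →
      Primrec g → Primrec fun a => f a (g a) := by
    intro α _ f g hf hg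
    exact Primrec.fin_app.comp hf hg
  have aR : Ar S fun p : (ℕ × W) × (ℕ × W) => R p.1 p.2 := by
    have q1 : Primrec fun p : (ℕ × W) × (ℕ × W) => p.1.2 := Primrec.snd.comp Primrec.fst
    have q2 : Primrec fun p : (ℕ × W) × (ℕ × W) => p.2.2 := Primrec.snd.comp Primrec.snd
    have q3 : Primrec fun p : (ℕ × W) × (ℕ × W) => p.2.1 := Primrec.fst.comp Primrec.snd
    refine HK.Ar.imp hS (aGd.sub hS (HK.ArF.of_primrec hS q1)) ?_
    refine HK.Ar.and hS (HK.Ar.lt hS (HK.ArF.of_primrec hS (Primrec.fst.comp Primrec.fst))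
      (HK.ArF.of_primrec hS q3)) (HK.Ar.and hS ?_ (HK.Ar.and hS ?_ (HK.Ar.and hS ?_ ?_)))
    · refine HK.Ar.ballList hS (R := fun (p : (ℕ × W) × (ℕ × W)) (q : ℤ × Fin k) =>
        ext c (q.1 + (p.2.1 : ℤ)) = q.2) ?_ (HK.ArF.of_primrec hS (app q1 (Primrec.const 0)))
      refine HK.Ar.eq hS ?_ (HK.ArF.of_primrec hS (Primrec.snd.comp Primrec.snd))
      have hext : ArF S fun t : ℤ => ext c t :=
        HK.ArF.comp hS (g := c) hc (f := fun t : ℤ => t.toNat)
          (HK.ArF.of_primrec hS HK.primrec_toNat)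
      refine HK.ArF.comp hS (g := fun t : ℤ => ext c t) hext
        (f := fun p : ((ℕ × W) × (ℕ × W)) × (ℤ × Fin k) => p.2.1 + (p.1.2.1 : ℤ)) ?_
      exact HK.ArF.of_primrec hS (HK.primrec_int_add.comp (Primrec.fst.comp Primrec.snd)
        (HK.primrec_natCast.comp (q3.comp Primrec.fst)))
    · refine HK.Ar.all hS (R := fun (p : (ℕ × W) × (ℕ × W)) (j : Fin (n + 1)) =>
        ∀ q ∈ p.1.2 j, q ∈ p.2.2 j) ?_
      refine HK.Ar.ballList hS (R := fun (p : ((ℕ × W) × (ℕ × W)) × Fin (n + 1))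
        (q : ℤ × Fin k) => q ∈ p.1.2.2 p.2) ?_
        (HK.ArF.of_primrec hS (app (q1.comp Primrec.fst) Primrec.snd))
      exact HK.Ar.memList hS (HK.ArF.snd hS) (HK.ArF.of_primrec hS
        (app (q2.comp (Primrec.fst.comp Primrec.fst)) (Primrec.snd.comp Primrec.fst)))
    · refine HK.Ar.all hS (R := fun (p : (ℕ × W) × (ℕ × W)) (j : Fin n) =>
        ∀ q ∈ p.1.2 j.succ, (q.1 + (p.2.1 : ℤ), q.2) ∈ p.2.2 j.castSucc) ?_
      have hsu : Primrec fun j : Fin n => j.succ := Primrec.dom_finite _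
      have hca : Primrec fun j : Fin n => j.castSucc := Primrec.dom_finite _
      refine HK.Ar.ballList hS (R := fun (p : ((ℕ × W) × (ℕ × W)) × Fin n)
        (q : ℤ × Fin k) => (q.1 + (p.1.2.1 : ℤ), q.2) ∈ p.1.2.2 p.2.castSucc) ?_
        (HK.ArF.of_primrec hS (app (q1.comp Primrec.fst) (hsu.comp Primrec.snd)))
      refine HK.Ar.memList hS (HK.ArF.of_primrec hS ((HK.primrec_int_add.comp
        (Primrec.fst.comp Primrec.snd) (HK.primrec_natCast.comp (q3.comp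
          (Primrec.fst.comp Primrec.fst)))).pair (Primrec.snd.comp Primrec.snd)))
        (HK.ArF.of_primrec hS
          (app (q2.comp (Primrec.fst.comp Primrec.fst)) (hca.comp (Primrec.snd.comp Primrec.fst))))
    · exact aGd.sub hS (HK.ArF.of_primrec hS q2)
  have hRex : ∀ p, ∃ p', R p p' := by
    rintro ⟨x, P⟩
    by_cases hP : Gd P
    swap
    · exact ⟨(0, fun _ => []), fun h => absurd h hP⟩
    obtain ⟨x', h1, h2, h3⟩ := hNB (fun j => HK.cyl (P j)) (fun j => HK.isClopen_cyl (P j))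
      ((pos_iff ν _).2 hP) (x + 1)
    refine ⟨(x', nxt P x'), fun _ => ⟨h1, fun q hq => h2 q hq, fun j => mem_nxt P x' j,
      fun j => mem_nxt' P x' j, (pos_iff ν _).1 (h3.trans_le (measure_mono (sub_nxt P x')))⟩⟩
  obtain ⟨G, aG, hG⟩ := HK.Ar.choose hS aR hRex
  obtain ⟨f, hf0, hfs⟩ := HK.exists_rec (α := Unit)
    (fun _ => ((0 : ℕ), (fun _ => [((0 : ℤ), r)] : W))) fun _ _ p => G p
  have af : ArF S fun p : Unit × ℕ => f p.1 p.2 :=
    HK.ArF.rec hS (b := fun _ => ((0 : ℕ), (fun _ => [((0 : ℤ), r)] : W))) (HK.ArF.const hS _)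
      (G := fun _ _ p => G p)
      (aG.comp hS (HK.ArF.of_primrec hS (Primrec.snd.comp Primrec.snd))) hf0 hfs
  set s : ℕ → ℕ × W := f () with hs
  have as : ArF S s := af.comp hS (f := fun n : ℕ => ((), n)) (HK.ArF.of_primrec hS
    ((Primrec.const ()).pair Primrec.id))
  have hs0 : s 0 = (0, fun _ => [((0 : ℤ), r)]) := hf0 ()
  have hs1 : ∀ n, s (n + 1) = G (s n) := hfs ()
  have hgood : ∀ i, Gd (s i).2 := by
    intro i
    induction i with
    | zero =>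
      rw [hs0]
      refine (pos_iff ν _).1 (hr.trans_le (measure_mono ?_))
      intro u hu j _ q hq
      rw [List.mem_singleton] at hq
      subst hq
      exact hu j (mem_univ j)
    | succ i ih =>
      have h3 := hG (s i) ih
      rw [← hs1] at h3
      exact h3.2.2.2.2
  have hRn : ∀ i, (s i).1 < (s (i + 1)).1 ∧
      (∀ q ∈ (s i).2 0, ext c (q.1 + ((s (i + 1)).1 : ℤ)) = q.2) ∧
      (∀ j : Fin (n + 1), ∀ q ∈ (s i).2 j, q ∈ (s (i + 1)).2 j) ∧
      (∀ j : Fin n, ∀ q ∈ (s i).2 j.succ,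
        (q.1 + ((s (i + 1)).1 : ℤ), q.2) ∈ (s (i + 1)).2 j.castSucc) := by
    intro i
    have h3 := hG (s i) (hgood i)
    rw [← hs1] at h3
    exact ⟨h3.1, h3.2.1, h3.2.2.1, h3.2.2.2.1⟩
  have hmono : StrictMono fun i => (s i).1 := strictMono_nat_of_lt_succ fun i => (hRn i).1
  refine ⟨{x | ∃ i, (s (i + 1)).1 = x}, ?_, ?_, ?_, r, ?_⟩
  · refine HK.Ar.set (R := fun x => ∃ i, (s (i + 1)).1 = x) ?_
    refine HK.Ar.ex hS (R := fun x i => (s (i + 1)).1 = x) ?_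
    refine HK.Ar.eq hS ?_ (HK.ArF.fst hS)
    exact HK.ArF.map hS Primrec.fst (as.comp hS ((HK.ArF.snd hS).succ hS))
  · refine Set.infinite_of_injective_forall_mem (f := fun i => (s (i + 1)).1) ?_
      fun i => ⟨i, rfl⟩
    intro a b hab
    have := hmono.injective hab
    omega
  · rintro x ⟨i, rfl⟩
    exact (Nat.zero_le _).trans_lt (hRn i).1
  · intro F hF hne hc3
    refine hGSM k n c r (fun i => (s (i + 1)).1) (fun i => (s i).2) ?_ ?_ ?_ ?_ ?_ F ?_ hne hc3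
    · intro a b hab
      exact hmono (Nat.succ_lt_succ hab)
    · intro j
      show ((0 : ℤ), r) ∈ (s 0).2 j
      rw [hs0]
      exact List.mem_singleton.2 rfl
    · exact fun i q hq => (hRn i).2.1 q hq
    · exact fun i j q hq => (hRn i).2.2.1 j q hq
    · exact fun i j q hq => (hRn i).2.2.2 j q hq
    · intro x hx
      obtain ⟨i, hi⟩ := hF hx
      exact ⟨i, hi⟩

end Pool.Agent.Work.MP_69fea5_lc.W3
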