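import Pool.Agent.Work.MP_69fea5_lc.W3.StmtsG

/-!
# Block [69fea5 W3 G], item GIM: images of minimal sets
-/

set_option autoImplicit false

namespace Pool.Agent.Work.MP_69fea5_lc.W3

open MeasureTheory Topology Set Filter TopologicalSpace
open Pool.Agent.Work.MP_69fea5_lc.AK

theorem GIM_pf : S_GIM := by
  intro G X Y _ _ _ _ _ A B K f _ _ hK hf heq
  have hcK : IsCompact K := hK.closed.isCompact
  refine ⟨(hcK.image_of_continuousOn hf).isClosed, hK.ne.image f, ?_, ?_⟩
  · rintro g _ ⟨x, hx, rfl⟩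
    exact ⟨A g x, hK.inv g x hx, heq g x hx⟩
  · intro L hL hLne hLinv hLsub
    have hcl : IsClosed (K ∩ f ⁻¹' L) := hf.preimage_isClosed_of_isClosed hK.closed hL
    have hne : (K ∩ f ⁻¹' L).Nonempty := by
      obtain ⟨y, hy⟩ := hLne
      obtain ⟨x, hx, rfl⟩ := hLsub hy
      exact ⟨x, hx, hy⟩
    have hinv : InvA A (K ∩ f ⁻¹' L) := by
      rintro g x ⟨hx, hxL⟩
      refine ⟨hK.inv g x hx, ?_⟩
      show f (A g x) ∈ L
      rw [heq g x hx]
      exact hLinv g _ hxL
    have hEq := hK.min _ hcl hne hinv inter_subset_left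
    refine Subset.antisymm hLsub ?_
    rintro _ ⟨x, hx, rfl⟩
    have hx' : x ∈ K ∩ f ⁻¹' L := by
      rw [hEq]
      exact hx
    exact hx'.2

end Pool.Agent.Work.MP_69fea5_lc.W3
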