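import Pool.Agent.Work.MP_69fea5_lc.W3.StmtsG

/-!
Item [69fea5 W3 GL0]: the start of the induction for local saturation.
-/

set_option autoImplicit false

namespace Pool.Agent.Work.MP_69fea5_lc.W3

open MeasureTheory Topology Set Filter TopologicalSpace
open Pool.Agent.Work.MP_69fea5_lc.AK

namespace I_GL0

/-- A positive lower bound of finitely many positive numbers. -/
theorem exists_lb {ι : Type} [Finite ι] (d : ι → ℝ) (hd : ∀ i, 0 < d i) :
    ∃ δ > 0, ∀ i, δ ≤ d i := by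
  by_cases h : Nonempty ι
  · obtain ⟨i, hi⟩ := Finite.exists_min d
    exact ⟨d i, hd i, hi⟩
  · exact ⟨1, one_pos, fun i => absurd ⟨i⟩ h⟩

end I_GL0

theorem GL0_pf (hGCL : S_GCL) (hGPR : S_GPR) : S_GL0 := by
  intro n Z X _ _ _ p hmin hdist hp
  obtain ⟨⟨hcl, -, -⟩, -, -, -, hmv, -⟩ := hGPR n Z hmin
  -- the numbers of GCL
  have hq : ∀ ab : Fin n × Fin n, ∃ δ > 0, ab.1 ≠ ab.2 → ∀ z e : Z, dist z e < δ →
      e ∈ closure (Set.range fun m : ℤ => sh ((((ab.1 : ℕ) : ℤ) - ((ab.2 : ℕ) : ℤ)) * m) z) := by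
    intro ab
    by_cases h : ab.1 = ab.2
    · exact ⟨1, one_pos, fun h' => absurd h h'⟩
    · have hne : (((ab.1 : ℕ) : ℤ) - ((ab.2 : ℕ) : ℤ)) ≠ 0 := by
        intro h0
        apply h
        apply Fin.ext
        have : ((ab.1 : ℕ) : ℤ) = ((ab.2 : ℕ) : ℤ) := by linarith
        exact_mod_cast this
      obtain ⟨δ, hδ, h1⟩ := hGCL Z _ hne hmin hdist
      exact ⟨δ, hδ, fun _ => h1⟩
  choose d hd hd' using hq
  obtain ⟨δ, hδ, hle⟩ := I_GL0.exists_lb d hd
  refine ⟨δ, hδ, ?_⟩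
  intro I hI a ha x hx e he _
  obtain ⟨y, hy, hxy, -⟩ := hx
  -- the other element
  obtain ⟨b, hb, hab⟩ : ∃ b ∈ I, b ≠ a := by
    have h1 : 1 < I.card := by omega
    exact Finset.exists_mem_ne h1 a
  have hIab : ∀ i ∈ I, i = a ∨ i = b := by
    have hsub : ({a, b} : Finset (Fin n)) ⊆ I := by
      intro i hi
      rcases Finset.mem_insert.1 hi with rfl | hi
      · exact ha
      · rw [Finset.mem_singleton.1 hi]
        exact hb
    have hcard : ({a, b} : Finset (Fin n)).card = 2 := Finset.card_pair (Ne.symm hab)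
    have heq : ({a, b} : Finset (Fin n)) = I :=
      Finset.eq_of_subset_of_card_le hsub (by rw [hcard, hI])
    intro i hi
    rw [← heq] at hi
    simpa using hi
  have hdist' : dist (y a) e < d (a, b) := by
    rw [← hxy a ha]
    exact lt_of_lt_of_le he (hle (a, b))
  have hecl := hd' (a, b) (Ne.symm hab) (y a) e hdist'
  -- the closed set
  set K : Set Z := (fun v : Fin n → Z => v a) '' (PG n Z ∩ {v | v b = y b}) with hK
  have hKc : IsClosed K := by
    have h1 : IsClosed (PG n Z ∩ {v : Fin n → Z | v b = y b}) :=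
      hcl.inter (isClosed_eq (continuous_apply b) continuous_const)
    exact (h1.isCompact.image (continuous_apply a)).isClosed
  have hsubK : (Set.range fun m : ℤ => sh ((((a : ℕ) : ℤ) - ((b : ℕ) : ℤ)) * m) (y a)) ⊆ K := by
    rintro _ ⟨m, rfl⟩
    refine ⟨fun i : Fin n => sh (((i : ℤ) - (b : ℤ)) * m) (y i), ⟨hmv y hy b m, ?_⟩, rfl⟩
    show sh (((b : ℤ) - (b : ℤ)) * m) (y b) = y b
    rw [sub_self, zero_mul, sh_zero]
  have heK : e ∈ K := closure_minimal hsubK hKc hecl
  obtain ⟨v, ⟨hv, hvb⟩, hva⟩ := heK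
  refine ⟨v, hv, ?_, fun i => hp _ _⟩
  intro i hi
  rcases hIab i hi with rfl | rfl
  · rw [Function.update_self]
    exact hva.symm
  · rw [Function.update_of_ne hab, hxy _ hb]
    exact (hvb : v _ = y _).symm

end Pool.Agent.Work.MP_69fea5_lc.W3
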