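import Pool.Agent.Work.MP_69fea5_lc.W3.StmtsG

/-!
# Block [69fea5 W3 G], item GSH: the shift of a progression
-/

set_option autoImplicit false

namespace Pool.Agent.Work.MP_69fea5_lc.W3

open Topology Set Filter
open Pool.Agent.Work.MP_69fea5_lc.AK

namespace I_GSH

variable {Z : Type} [TopologicalSpace Z] [Sys Z]

/-- the generating set of `PG n Z` -/
def Gn (n : ℕ) (Z : Type) [TopologicalSpace Z] [Sys Z] : Set (Fin n → Z) :=
  {x | ∃ (g : ℤ × ℤ) (z : Z), x = fun i : Fin n => sh (pf ((i : ℕ) : ℤ) g) z}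

theorem PG_eq (n : ℕ) : PG n Z = closure (Gn n Z) := rfl

theorem cast_mem (n : ℕ) {x : Fin (n + 1) → Z} (hx : x ∈ PG (n + 1) Z) :
    (fun i : Fin n => x i.castSucc) ∈ PG n Z := by
  have hc : Continuous (fun x : Fin (n + 1) → Z => fun i : Fin n => x i.castSucc) :=
    continuous_pi fun i => continuous_apply _
  rw [PG_eq] at hx ⊢
  refine map_mem_closure hc hx ?_
  rintro _ ⟨g, z, rfl⟩
  exact ⟨g, z, by funext i; simp⟩

theorem succ_mem (n : ℕ) {x : Fin (n + 1) → Z} (hx : x ∈ PG (n + 1) Z) :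
    (fun i : Fin n => x i.succ) ∈ PG n Z := by
  have hc : Continuous (fun x : Fin (n + 1) → Z => fun i : Fin n => x i.succ) :=
    continuous_pi fun i => continuous_apply _
  rw [PG_eq] at hx ⊢
  refine map_mem_closure hc hx ?_
  rintro _ ⟨⟨b, u⟩, z, rfl⟩
  refine ⟨(b + u, u), z, ?_⟩
  funext i
  have : pf (((i.succ : Fin (n + 1)) : ℕ) : ℤ) (b, u) = pf ((i : ℕ) : ℤ) (b + u, u) := by
    simp [pf]; ring
  simp only [this]

theorem sh_mem (n : ℕ) (m : ℤ) {x : Fin n → Z} (hx : x ∈ PG n Z) :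
    (fun i => sh m (x i)) ∈ PG n Z := by
  have hc : Continuous (fun x : Fin n → Z => fun i : Fin n => sh m (x i)) :=
    continuous_pi fun i => (sh_cont _).comp (continuous_apply _)
  rw [PG_eq] at hx ⊢
  refine map_mem_closure hc hx ?_
  rintro _ ⟨⟨b, u⟩, z, rfl⟩
  refine ⟨(m + b, u), z, ?_⟩
  funext i
  show sh m (sh (pf ((i : ℕ) : ℤ) (b, u)) z) = sh (pf ((i : ℕ) : ℤ) (m + b, u)) z
  rw [← sh_add]
  congr 1
  simp [pf]; ring

theorem inv_nat (n : ℕ) (g : (Fin n → Z) → ℝ)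
    (h : ∀ x ∈ PG n Z, g (fun i => sh 1 (x i)) = g x) (m : ℕ) :
    ∀ x ∈ PG n Z, g (fun i => sh (m : ℤ) (x i)) = g x := by
  induction m with
  | zero =>
    intro x _
    congr 1
    funext i
    simp [sh_zero]
  | succ m ih =>
    intro x hx
    have h1 := h _ (sh_mem n (m : ℤ) hx)
    rw [ih x hx] at h1
    rw [← h1]
    congr 1
    funext i
    rw [← sh_add]
    congr 1
    push_cast
    ring

theorem inv_int (n : ℕ) (g : (Fin n → Z) → ℝ)
    (h : ∀ x ∈ PG n Z, g (fun i => sh 1 (x i)) = g x) (m : ℤ) :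
    ∀ x ∈ PG n Z, g (fun i => sh m (x i)) = g x := by
  intro x hx
  rcases le_total 0 m with hm | hm
  · obtain ⟨k, rfl⟩ := Int.eq_ofNat_of_zero_le hm
    exact inv_nat n g h k x hx
  · obtain ⟨k, hk⟩ := Int.eq_ofNat_of_zero_le (neg_nonneg.mpr hm)
    have h1 := inv_nat n g h k _ (sh_mem n m hx)
    rw [← h1]
    congr 1
    funext i
    rw [← sh_add, ← hk]
    simp [sh_zero]

end I_GSH

open I_GSH in
theorem GSH_pf : S_GSH := by
  intro n Z _ _ _ _ g hg hinv x hx
  refine ⟨cast_mem n hx, succ_mem n hx, ?_⟩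
  have hc : Continuous (fun x : Fin (n + 1) → Z => fun i : Fin n => x i.castSucc) :=
    continuous_pi fun i => continuous_apply _
  have hs : Continuous (fun x : Fin (n + 1) → Z => fun i : Fin n => x i.succ) :=
    continuous_pi fun i => continuous_apply _
  have key : Set.EqOn (fun x : Fin (n + 1) → Z => g (fun i : Fin n => x i.castSucc))
      (fun x : Fin (n + 1) → Z => g (fun i : Fin n => x i.succ)) (PG (n + 1) Z) := by
    refine Set.EqOn.of_subset_closure (s := Gn (n + 1) Z) ?_ ?_ ?_ subset_closure le_rfl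
    · rintro _ ⟨⟨b, u⟩, z, rfl⟩
      have hm : (fun i : Fin n => sh (pf ((i : ℕ) : ℤ) (b, u)) z) ∈ PG n Z :=
        subset_closure ⟨(b, u), z, rfl⟩
      have h1 := inv_int n g hinv u _ hm
      show g (fun i : Fin n => sh (pf (((i.castSucc : Fin (n + 1)) : ℕ) : ℤ) (b, u)) z) =
        g (fun i : Fin n => sh (pf (((i.succ : Fin (n + 1)) : ℕ) : ℤ) (b, u)) z)
      have e1 : (fun i : Fin n => sh (pf (((i.castSucc : Fin (n + 1)) : ℕ) : ℤ) (b, u)) z) =
          fun i : Fin n => sh (pf ((i : ℕ) : ℤ) (b, u)) z := by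
        funext i; simp
      have e2 : (fun i : Fin n => sh (pf (((i.succ : Fin (n + 1)) : ℕ) : ℤ) (b, u)) z) =
          fun i : Fin n => sh u (sh (pf ((i : ℕ) : ℤ) (b, u)) z) := by
        funext i
        rw [← sh_add]
        congr 1
        simp [pf]; ring
      rw [e1, e2, h1]
    · exact hg.comp hc.continuousOn fun y hy => cast_mem n hy
    · exact hg.comp hs.continuousOn fun y hy => succ_mem n hy
  exact key hx

end Pool.Agent.Work.MP_69fea5_lc.W3
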