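import Pool.Agent.Work.MP_69fea5_lc.W3.StmtsG

set_option autoImplicit false

namespace Pool.Agent.Work.MP_69fea5_lc.W3

open MeasureTheory Topology Set Filter TopologicalSpace
open Pool.Agent.Work.MP_69fea5_lc.AK

/-- [GUO] uniform openness -/
theorem GUO_pf (hGOP : S_GOP) (hGPR : S_GPR) : S_GUO := by
  intro n Z X _ _ _ _ _ _ p hmin hdist hpc hpe I ε hε
  obtain ⟨⟨hcl, _, _⟩, _, _, _, _, _, _, hD⟩ := hGPR n Z hmin
  obtain ⟨hDist, hMin⟩ := hD hdist
  have hDist' : DistalOn (prA n Z) (PG n Z) := by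
    intro F x y z _ _ h1 h2
    exact hDist F x y z (mem_univ _) (mem_univ _) h1 h2
  -- the map
  let f : (Fin n → Z) → ((↥I → Z) × (Fin n → X)) := fun v => (fun i => v i.1, fun i => p (v i))
  let B : ℤ × ℤ → ((↥I → Z) × (Fin n → X)) → ((↥I → Z) × (Fin n → X)) := fun g q =>
    (fun i => sh (pf ((i.1 : Fin n) : ℕ) g) (q.1 i), fun i => sh (pf ((i : Fin n) : ℕ) g) (q.2 i))
  have hf : Continuous f := by
    refine Continuous.prodMk ?_ ?_
    · exact continuous_pi fun i => continuous_apply i.1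
    · exact continuous_pi fun i => hpc.comp (continuous_apply i)
  have hfB : ∀ g, ∀ x ∈ PG n Z, f (prA n Z g x) = B g (f x) := by
    intro g x _
    refine Prod.ext ?_ ?_
    · funext i
      rfl
    · funext i
      exact hpe _ _
  have hop := hGOP (ℤ × ℤ) (Fin n → Z) ((↥I → Z) × (Fin n → X)) (prA n Z) B (PG n Z) f
    (flow_cfA _) hMin hDist' hf.continuousOn hfB
  by_contra hcon
  push Not at hcon
  have hk : ∀ k : ℕ, ∃ q : (Fin n → Z) × (Fin n → Z), q.1 ∈ PG n Z ∧ q.2 ∈ PG n Z ∧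
      (∀ i, p (q.1 i) = p (q.2 i)) ∧ (∀ i ∈ I, dist (q.1 i) (q.2 i) < 1 / ((k : ℝ) + 1)) ∧
      ∀ w' ∈ PG n Z, (∀ i ∈ I, w' i = q.2 i) → (∀ i, p (w' i) = p (q.2 i)) →
        ∃ i, ε ≤ dist (w' i) (q.1 i) := by
    intro k
    obtain ⟨y, hy, w, hw, h1, h2, h3⟩ := hcon (1 / ((k : ℝ) + 1)) (by positivity)
    exact ⟨(y, w), hy, hw, h1, h2, h3⟩
  choose q hq1 hq2 hqp hqd hqn using hk
  have hcomp : IsCompact ((PG n Z) ×ˢ (PG n Z)) := hcl.isCompact.prod hcl.isCompact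
  obtain ⟨a, ha, φ, hφ, hlim⟩ := hcomp.tendsto_subseq (x := q) (fun k => ⟨hq1 k, hq2 k⟩)
  have hl1 : Tendsto (fun k => (q (φ k)).1) atTop (𝓝 a.1) :=
    (continuous_fst.tendsto a).comp hlim
  have hl2 : Tendsto (fun k => (q (φ k)).2) atTop (𝓝 a.2) :=
    (continuous_snd.tendsto a).comp hlim
  have hl1i : ∀ i, Tendsto (fun k => (q (φ k)).1 i) atTop (𝓝 (a.1 i)) := fun i =>
    ((continuous_apply i).tendsto a.1).comp hl1
  have hl2i : ∀ i, Tendsto (fun k => (q (φ k)).2 i) atTop (𝓝 (a.2 i)) := fun i =>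
    ((continuous_apply i).tendsto a.2).comp hl2
  have hfeq : f a.2 = f a.1 := by
    refine Prod.ext ?_ ?_
    · funext i
      have h1 : Tendsto (fun k => dist ((q (φ k)).1 i.1) ((q (φ k)).2 i.1)) atTop
          (𝓝 (dist (a.1 i.1) (a.2 i.1))) := (hl1i i.1).dist (hl2i i.1)
      have h2 : Tendsto (fun k => dist ((q (φ k)).1 i.1) ((q (φ k)).2 i.1)) atTop (𝓝 0) := by
        have h3 : Tendsto (fun k : ℕ => 1 / (((φ k : ℕ) : ℝ) + 1)) atTop (𝓝 0) :=
          tendsto_one_div_add_atTop_nhds_zero_nat.comp hφ.tendsto_atTop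
        exact squeeze_zero (fun k => dist_nonneg) (fun k => (hqd (φ k) i.1 i.2).le) h3
      have h4 := tendsto_nhds_unique h1 h2
      exact (dist_eq_zero.mp h4).symm
    · funext i
      have h1 : Tendsto (fun k => p ((q (φ k)).1 i)) atTop (𝓝 (p (a.1 i))) :=
        (hpc.tendsto _).comp (hl1i i)
      have h2 : Tendsto (fun k => p ((q (φ k)).2 i)) atTop (𝓝 (p (a.2 i))) :=
        (hpc.tendsto _).comp (hl2i i)
      have h3 : Tendsto (fun k => p ((q (φ k)).1 i)) atTop (𝓝 (p (a.2 i))) := by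
        refine h2.congr fun k => (hqp (φ k) i).symm
      exact tendsto_nhds_unique h3 h1
  obtain ⟨V, hV, hVsub⟩ := hop (Metric.ball a.1 (ε / 2)) Metric.isOpen_ball a.1
    ⟨Metric.mem_ball_self (by positivity), ha.1⟩
  have hev1 : ∀ᶠ k in atTop, f (q (φ k)).2 ∈ V := by
    have h1 : Tendsto (fun k => f (q (φ k)).2) atTop (𝓝 (f a.1)) := by
      rw [← hfeq]
      exact (hf.tendsto _).comp hl2
    exact h1 hV
  have hev2 : ∀ᶠ k in atTop, dist (q (φ k)).1 a.1 < ε / 2 :=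
    (Metric.tendsto_nhds.mp hl1) (ε / 2) (by positivity)
  obtain ⟨k, hk1, hk2⟩ := (hev1.and hev2).exists
  obtain ⟨w', ⟨hw'U, hw'K⟩, hw'f⟩ := hVsub ⟨hk1, (q (φ k)).2, hq2 (φ k), rfl⟩
  obtain ⟨i, hi⟩ := hqn (φ k) w' hw'K
    (fun i hi => congrFun (congrArg Prod.fst hw'f) ⟨i, hi⟩)
    (fun i => congrFun (congrArg Prod.snd hw'f) i)
  have h1 : dist (w' i) (a.1 i) < ε / 2 :=
    lt_of_le_of_lt (dist_le_pi_dist w' a.1 i) (Metric.mem_ball.mp hw'U)
  have h2 : dist ((q (φ k)).1 i) (a.1 i) < ε / 2 :=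
    lt_of_le_of_lt (dist_le_pi_dist (q (φ k)).1 a.1 i) hk2
  have h3 := dist_triangle_right (w' i) ((q (φ k)).1 i) (a.1 i)
  linarith

end Pool.Agent.Work.MP_69fea5_lc.W3
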