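import Pool.Agent.Work.MP_69fea5_lc.W3.StmtsK
import Pool.Agent.Work.MP_69fea5_lc.W3.CodL

/-!
# Item KKN: the canonical kernels of the progressions are coded
-/

set_option autoImplicit false

namespace Pool.Agent.Work.MP_69fea5_lc.W3

open MeasureTheory Topology Set Filter TopologicalSpace ProbabilityTheory
open scoped NNReal ENNReal
open Pool.Agent.Work.MP_69fea5_lc.AK
open Pool.Agent.Work.MP_69fea5_lc.HK (Cl DU Ar ArF ArR Dat Law LawC act near sc Pt oc Mn mr ext)
open Pool.Agent.Work.MP_69fea5_lc.KC (Agree)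

namespace I_KKN

/-- the progression with start `g.1` and step `g.2` -/
def ll (n : ℕ) (g : ℤ × ℤ) (i : Fin n) : ℤ := g.1 + ((i : ℕ) : ℤ) * g.2

theorem prim_ll (n : ℕ) : Primrec₂ (ll n) := by
  have h1 : Primrec₂ (fun (p : (ℤ × ℤ) × Fin n) (q : ℕ × ℤ) => q.2 + p.1.2) :=
    HK.primrec_int_add.comp (Primrec.snd.comp Primrec.snd)
      (Primrec.snd.comp (Primrec.fst.comp Primrec.fst))
  have h2 := Primrec.nat_rec' (f := fun p : (ℤ × ℤ) × Fin n => (p.2 : ℕ))
    (g := fun p : (ℤ × ℤ) × Fin n => p.1.1) (Primrec.fin_val.comp Primrec.snd)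
    (Primrec.fst.comp Primrec.fst) h1
  refine Primrec.of_eq h2 fun p => ?_
  have h3 : ∀ j : ℕ, (Nat.rec (p.1.1) (fun (_ : ℕ) (z : ℤ) => z + p.1.2) j : ℤ) =
      p.1.1 + (j : ℤ) * p.1.2 := by
    intro j
    induction j with
    | zero => simp
    | succ j ih =>
      show (Nat.rec (p.1.1) (fun (_ : ℕ) (z : ℤ) => z + p.1.2) j : ℤ) + p.1.2 = _
      rw [ih]
      push_cast
      ring
  exact h3 _

/-- the element of `Lc n` -/
def qq (n : ℕ) (g : ℤ × ℤ) : W3D.Lc n := ⟨ll n g, g.1, g.2, fun _ => rfl⟩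

theorem qq_surj (n : ℕ) : Function.Surjective (qq n) := by
  rintro ⟨l, b, u, hl⟩
  exact ⟨(b, u), Subtype.ext (funext fun i => (hl i).symm)⟩

theorem one_mem_Lc (n : ℕ) : (1 : Fin n → ℤ) ∈ W3D.Lc n :=
  ⟨1, 0, fun j => by simp⟩

/-- finite case distinctions -/
theorem ar_fin {S : Set (Set ℕ)} (hS : Cl S) {n : ℕ} {δ : Type} [Primcodable δ]
    (R : Fin n → δ → Prop) (h : ∀ i, Ar S (R i)) : Ar S fun p : Fin n × δ => R p.1 p.2 := by
  classical
  have h1 : ∀ s : Finset (Fin n), Ar S fun p : Fin n × δ => p.1 ∈ s ∧ R p.1 p.2 := by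
    intro s
    induction s using Finset.induction_on with
    | empty => exact (HK.Ar.const hS False).congr fun p => by simp
    | insert a s ha ih =>
      have h2 : Ar S fun p : Fin n × δ => p.1 = a ∧ R a p.2 :=
        HK.Ar.and hS (HK.Ar.prim hS (Primrec.eq.comp Primrec.fst (Primrec.const a)))
          (HK.Ar.comp hS (h a) Primrec.snd)
      refine (HK.Ar.or hS h2 ih).congr fun p => ?_
      rw [Finset.mem_insert]
      constructor
      · rintro ⟨h3 | h3, h4⟩
        · left
          rw [← h3]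
          exact ⟨rfl, h4⟩
        · exact Or.inr ⟨h3, h4⟩
      · rintro (⟨h3, h4⟩ | ⟨h3, h4⟩)
        · exact ⟨Or.inl h3, by rw [h3]; exact h4⟩
        · exact ⟨Or.inr h3, h4⟩
  exact (h1 Finset.univ).congr fun p => by simp

/-- finite families of coded points are coded -/
theorem pt_fin {S : Set (Set ℕ)} (hS : Cl S) {n : ℕ} {α : Type} [TopologicalSpace α] [Dat α]
    [LawC α] [TF α] {w : Fin n → α} (h : ∀ i, Pt S (w i)) : Pt S w := by
  rw [pt_pi hS, TF.sc_iff S hS]
  have h1 : ∀ i, Ar S fun p : TF.ι α × ℕ × ℕ =>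
      (p.2.1 : ℝ) < TF.fn p.1 (w i) * (p.2.2 + 1) := by
    intro i
    have h2 : sc S fun _ : Unit => w i := h i
    rw [TF.sc_iff S hS] at h2
    exact HK.Ar.comp hS h2 (f := fun p : TF.ι α × ℕ × ℕ => (((), p.1), p.2))
      (((Primrec.const ()).pair Primrec.fst).pair Primrec.snd)
  have h3 := ar_fin hS (fun (i : Fin n) (p : TF.ι α × ℕ × ℕ) =>
    (p.2.1 : ℝ) < TF.fn p.1 (w i) * (p.2.2 + 1)) h1
  exact HK.Ar.comp hS h3 (f := fun p : (Fin n × TF.ι α) × ℕ × ℕ => (p.1.1, (p.1.2, p.2)))
    ((Primrec.fst.comp Primrec.fst).pair ((Primrec.snd.comp Primrec.fst).pair Primrec.snd))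

end I_KKN

open I_KKN in
theorem KKN_pf (hKST : S_KST) (hMIN : W3D.S_MIN) (hISN : W3D.S_ISN) : S_KKN := by
  intro S U hS hU X _ _ _ _ _ _ _ I _ h r ρ horb hT hr x₀ hx n Kf hK
  have : Nonempty X := ⟨x₀⟩
  have : MetrizableSpace X := metrizableSpace_of_t3_secondCountable X
  have : CS (W3D.NN X (W3D.Lc n)) := {}
  have hmin := hMIN X h (fun l x y => r l x = r l y) ρ horb hT (Fin n) (W3D.Lc n) (one_mem_Lc n)
  -- the map into the coded space
  obtain ⟨j, hj⟩ : ∃ j : W3D.NN X (W3D.Lc n) → Fin n → Cube I,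
      j = fun (w : W3D.NN X (W3D.Lc n)) (i : Fin n) => r h (w.1 i) := ⟨_, rfl⟩
  rw [← hj]
  have hcont : ∀ m : Fin n → ℕ, (∀ i, m i ≤ h) → Continuous
      fun (w : W3D.NN X (W3D.Lc n)) (i : Fin n) => r (m i) (w.1 i) := fun m hm =>
    continuous_pi fun i => (hr (m i) (hm i)).1.comp
      ((continuous_apply i).comp continuous_subtype_val)
  have heq : ∀ m : Fin n → ℕ, (∀ i, m i ≤ h) → ∀ (g : ℤ × ℤ) (w : W3D.NN X (W3D.Lc n)),
      (fun i => r (m i) ((W3D.aN (W3D.Lc n) (qq n g) w).1 i)) =
        vec (ll n) g fun i => r (m i) (w.1 i) := by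
    intro m hm g w
    funext i
    show r (m i) (sh (ll n g i) (w.1 i)) = act (ll n g i) (r (m i) (w.1 i))
    rw [(hr (m i) (hm i)).2, Agree.eq]
  have hjc : Continuous j := by
    rw [hj]
    exact hcont (fun _ => h) fun _ => le_rfl
  have hji : Function.Injective j := by
    intro w w' hw
    refine Subtype.ext (funext fun i => ?_)
    have h1 : r h (w.1 i) = r h (w'.1 i) := by
      have h2 := congrFun hw i
      rw [hj] at h2
      exact h2
    exact hT.top _ _ h1
  have hpt : ∀ m : Fin n → ℕ, (∀ i, m i ≤ h) →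
      Pt S (fun i : Fin n => r (m i) ((dg (W3D.Lc n) x₀).1 i)) := fun m hm =>
    pt_fin hS fun i => hx (m i) (hm i)
  have hptj : Pt S (j (dg (W3D.Lc n) x₀)) := by
    rw [hj]
    exact hpt (fun _ => h) fun _ => le_rfl
  have key : ∀ (N : ℕ) (m : Fin n → ℕ), (∀ i, m i ≤ h) → ∑ i, (h - m i) ≤ N →
      Pm S j (Kf m (dg (W3D.Lc n) x₀) : Measure (W3D.NN X (W3D.Lc n))) := by
    intro N
    induction N with
    | zero =>
      intro m hm h0
      have h1 : ∀ i, m i = h := by
        intro i
        have h2 := Finset.sum_eq_zero_iff.1 (Nat.le_zero.1 h0) i (Finset.mem_univ i)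
        have := hm i
        omega
      -- the measure is a point mass
      have hcar := (hK.ker m hm).car (dg (W3D.Lc n) x₀)
      have h2 : ∀ y : W3D.NN X (W3D.Lc n), y ≠ dg (W3D.Lc n) x₀ →
          ¬ W3D.EE (fun l x y => r l x = r l y) m (dg (W3D.Lc n) x₀) y := by
        intro y hy hE
        refine hy (Subtype.ext (funext fun i => ?_))
        have h3 := hE i
        simp only [h1 i] at h3
        exact (hT.top _ _ h3).symm
      have h3 : (Kf m (dg (W3D.Lc n) x₀) : Measure (W3D.NN X (W3D.Lc n))) =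
          Measure.dirac (dg (W3D.Lc n) x₀) := by
        have h4 : (Kf m (dg (W3D.Lc n) x₀) : Measure (W3D.NN X (W3D.Lc n)))
            {dg (W3D.Lc n) x₀}ᶜ = 0 :=
          measure_mono_null (fun y hy => h2 y hy) hcar
        have h5 := Measure.restrict_add_restrict_compl
          (μ := (Kf m (dg (W3D.Lc n) x₀) : Measure (W3D.NN X (W3D.Lc n))))
          (measurableSet_singleton (dg (W3D.Lc n) x₀))
        rw [Measure.restrict_eq_zero.2 h4, add_zero, Measure.restrict_singleton] at h5
        rw [← h5]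
        have h6 := measure_add_measure_compl
          (μ := (Kf m (dg (W3D.Lc n) x₀) : Measure (W3D.NN X (W3D.Lc n))))
          (measurableSet_singleton (dg (W3D.Lc n) x₀))
        rw [h4, add_zero, measure_univ] at h6
        rw [h6, one_smul]
      refine ⟨diracProba (j (dg (W3D.Lc n) x₀)), ?_, sc_dirac hS hptj⟩
      rw [h3, Measure.map_dirac' hjc.measurable]
      rfl
    | succ N ih =>
      intro m hm hN
      by_cases hall : ∀ i, m i = h
      · refine ih m hm ?_
        have : ∑ i, (h - m i) = 0 := Finset.sum_eq_zero fun i _ => by rw [hall i]; omega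
        omega
      · push Not at hall
        obtain ⟨i₀, hi₀⟩ := hall
        obtain ⟨m', hm'⟩ : ∃ m' : Fin n → ℕ, m' = fun i => min h (m i + 1) := ⟨_, rfl⟩
        have hm'h : ∀ i, m' i ≤ h := fun i => by rw [hm']; exact min_le_left _ _
        have hmm' : ∀ i, m i ≤ m' i := fun i => by
          rw [hm']
          exact le_min (hm i) (Nat.le_succ _)
        have hlt : ∑ i, (h - m' i) < ∑ i, (h - m i) := by
          refine Finset.sum_lt_sum (fun i _ => ?_) ⟨i₀, Finset.mem_univ _, ?_⟩
          · have := hmm' i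
            omega
          · have h1 := hm i₀
            have h2 : m' i₀ = m i₀ + 1 := by
              rw [hm']
              show min h (m i₀ + 1) = m i₀ + 1
              omega
            omega
        have hIH := ih m' hm'h (by omega)
        have hor : ∀ i, m' i = m i ∨ m' i = m i + 1 := by
          intro i
          have := hm i
          rw [hm']
          show min h (m i + 1) = m i ∨ min h (m i + 1) = m i + 1
          omega
        have hiso := hISN X h (fun l x y => r l x = r l y) ρ hT (Fin n) (W3D.Lc n) m m' hor hm'h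
        have htact := tact_vec (α := Cube I) (prim_ll n)
        refine hKST S U hS hU (ℤ × ℤ) (W3D.Lc n) (W3D.NN X (W3D.Lc n)) (Fin n → Cube I)
          (Fin n → Cube I) (W3D.aN (W3D.Lc n)) (W3D.act_aN _) hmin _ _ _ hiso (Kf m') (Kf m)
          (hK.ker m' hm'h) (hK.ker m hm) (hK.mul m m' hmm' hm'h) (qq n) (qq_surj n)
          (vec (ll n)) _ htact (vec (ll n)) (htact.cact hS) j
          (fun (w : W3D.NN X (W3D.Lc n)) (i : Fin n) => r (m i) (w.1 i)) hjc hji (hcont m hm)
          ?_ (heq m hm) ?_ (dg (W3D.Lc n) x₀) hptj (hpt m hm) hIH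
        · intro g w
          rw [hj]
          exact heq (fun _ => h) (fun _ => le_rfl) g w
        · intro w w'
          constructor
          · intro hE
            exact funext fun i => hE i
          · intro hE i
            exact congrFun hE i
  intro m hm
  exact key _ m hm le_rfl

end Pool.Agent.Work.MP_69fea5_lc.W3
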