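import Pool.Agent.Work.MP_69fea5_lc.W3.StmtsK
import Pool.Agent.Work.MP_69fea5_lc.W3.CodN

/-!
# Block [69fea5 K], item KTP: the top of the coded tower (assembly)
-/

set_option autoImplicit false

namespace Pool.Agent.Work.MP_69fea5_lc.W3

open MeasureTheory Topology Set Filter TopologicalSpace ProbabilityTheory
open scoped NNReal ENNReal
open Pool.Agent.Work.MP_69fea5_lc.AK
open Pool.Agent.Work.MP_69fea5_lc.HK (Cl DU Ar ArF ArR Dat Law LawC act near sc Pt oc Mn mr ext)
open Pool.Agent.Work.MP_69fea5_lc.KC (Agree)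

namespace I_KTP

/-- images of limit sets -/
lemma omg_map {A B : Type} [TopologicalSpace A] [Sys A] [TopologicalSpace B] [Sys B] {f : A → B}
    (hf : Continuous f) (he : ∀ (m : ℤ) (x : A), f (sh m x) = sh m (f x)) {x y : A}
    (h : y ∈ omg x) : f y ∈ omg (f x) := by
  intro U hU N
  obtain ⟨n, hn, h1⟩ := h (f ⁻¹' U) (hf.continuousAt.preimage_mem_nhds hU) N
  refine ⟨n, hn, ?_⟩
  rw [← he]
  exact h1

end I_KTP

open I_KTP in
theorem KTP_pf (hKCP : S_KCP) (hKCT : S_KCT) (hKET : S_KET) : S_KTP := by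
  intro S U hS hU k c hc M w₀ X _ _ _ _ π I _ h r ρ hC z hz hPz hgr
  obtain ⟨hmin, hEmb, hpt⟩ := hKCP S U hS hU k M w₀ X π I h r ρ hC
  obtain ⟨lam, P, K, m₁, θ, χ, hXI, hlam, hK, hm₁, hAA, hMin, hχ, hθ1, hθ2, hθ3, hθP⟩ :=
    hKCT S U hS hU k M w₀ X π I h r ρ hC z hz hPz
  refine ⟨lam, P, K, m₁, θ, χ, hXI, hEmb, hpt z hz hPz h le_rfl, ?_, hm₁, hAA, hMin, hχ, hθ1,
    hθ2, hθ3, ?_⟩
  · rintro ⟨w, v⟩ ⟨hw, hv⟩
    have hw1 : w ∈ M := hw
    have hv1 : v = r h (π w) := hv
    subst hv1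
    have h1 : ((w, π w) : Om k × X) ∈ omg (c, π z) := hgr ⟨hw1, rfl⟩
    have hf : Continuous fun p : Om k × X => (p.1, r h p.2) :=
      continuous_fst.prodMk (hEmb.cont.comp continuous_snd)
    exact omg_map hf (fun m x => by rw [sh_prod, sh_prod, hEmb.equi]) h1
  · intro n
    have hχ' := hχ
    obtain ⟨C, Pc, Kc, hCL, -⟩ := hXI.cube (n + 2)
    have hg : Measurable fun (y : Fin (n + 2) → X) (i : Fin (n + 1)) => y i.succ :=
      measurable_pi_lambda _ fun i => measurable_pi_apply i.succ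
    obtain ⟨Q, hQ⟩ : ∃ Q : ProbabilityMeasure (Fin (n + 1) → X), (Q : Measure (Fin (n + 1) → X)) =
        (K (n + 2) 0 (π z) : Measure (Fin (n + 2) → X)).map
          fun (y : Fin (n + 2) → X) (i : Fin (n + 1)) => y i.succ :=
      ⟨(K (n + 2) 0 (π z)).map hg.aemeasurable, ProbabilityMeasure.toMeasure_map _ _⟩
    have hrm : ∀ m : ℕ, Measurable fun (y : Fin m → X) (i : Fin m) => r h (y i) := fun m =>
      measurable_pi_lambda _ fun i => hEmb.cont.measurable.comp (measurable_pi_apply i)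
    have hQP : Pm S (fun (y : Fin (n + 1) → X) (i : Fin (n + 1)) => r h (y i))
        (Q : Measure (Fin (n + 1) → X)) := by
      rw [hQ, pm_map (hrm _) hg]
      exact pm_tmap hS (tmap_reindex (κ := Fin (n + 2)) (V := Cube I) (g := Fin.succ)
        (Primrec.dom_finite _)) (hrm _) (hK (n + 2) 0)
    have hdom : ∀ (i : Fin (n + 1)) (A : Set X), MeasurableSet A →
        Q {y | y i ∈ A} ≤ C * lam A := by
      intro i A hA
      have h1 := hCL.dom 0 i.succ (Fin.succ_ne_zero i) (π z)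
      have h2 := h1 A
      rw [Measure.map_apply (measurable_pi_apply _) hA, Measure.smul_apply] at h2
      have h3 : (Q : Measure (Fin (n + 1) → X)) {y | y i ∈ A} =
          (K (n + 2) 0 (π z) : Measure (Fin (n + 2) → X)) ((fun y => y i.succ) ⁻¹' A) := by
        have hm : MeasurableSet {y : Fin (n + 1) → X | y i ∈ A} := measurable_pi_apply i hA
        rw [hQ, Measure.map_apply hg hm]
        rfl
      rw [← h3] at h2
      rw [← ENNReal.coe_le_coe, ENNReal.coe_mul, ProbabilityMeasure.ennreal_coeFn_eq_coeFn_toMeasure,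
        ProbabilityMeasure.ennreal_coeFn_eq_coeFn_toMeasure]
      exact h2
    obtain ⟨κ, hκ, hκP⟩ := hKET S U hS hU k X I (Fin (n + 1)) (r h) (π z) lam θ χ Q C hEmb
      (fun y => hmin _ _) (hpt z hz hPz h le_rfl) hlam hθP hθ3 hQP hdom
    rw [← hQ, ← hκ]
    exact nct_of_pt hS hκP

end Pool.Agent.Work.MP_69fea5_lc.W3
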