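import Pool.Agent.Work.MP_69fea5_lc.W3.StmtsL

/-!
# [69fea5 W3 LFI] the property `Fine` for the last level
-/

set_option autoImplicit false

namespace Pool.Agent.Work.MP_69fea5_lc.W3

open MeasureTheory Topology Set Filter TopologicalSpace ProbabilityTheory
open scoped NNReal ENNReal
open Pool.Agent.Work.MP_69fea5_lc.AK

theorem LFI_pf (hGFN : S_GFN) (hLGR : S_LGR) : S_LFI := by
  intro k n X X' Z _ _ _ _ _ _ _ _ _ _ _ _ M π π' πZ p pZ hπ hπ' hπZ hS hpZ hcomp hdist
  classical
  obtain ⟨-, -, hZmin, -, -, -, hZlift⟩ := hLGR k n Z M πZ hπZ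
  obtain ⟨-, -, -, -, -, -, hXlift⟩ := hLGR k n X M π hπ
  obtain ⟨-, -, -, -, -, -, hX'lift⟩ := hLGR k n X' M π' hπ'
  -- the composition
  have hpc : Continuous (fun z : Z => p (pZ z)) := hS.cont.comp hpZ
  have hcc : ∀ w ∈ M, (fun z : Z => p (pZ z)) (πZ w) = π w := by
    intro w hw
    change p (pZ (πZ w)) = π w
    rw [hcomp w hw, hS.comp w hw]
  obtain ⟨hpe, -, hPG⟩ := hXlift Z πZ (fun z : Z => p (pZ z)) hπZ hpc hcc
  -- images of tuples of `M`
  have hWP : ∀ u ∈ CM n M π, (fun i => πZ (u i)) ∈ WP n (fun z : Z => p (pZ z)) := by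
    rintro u ⟨huM, huP⟩
    rw [← hPG] at huP
    obtain ⟨y, hy, hyu⟩ := huP
    refine ⟨y, hy, fun i => ?_⟩
    have h1 := congrFun hyu i
    have h2 : p (pZ (y i)) = π (u i) := h1
    have h3 := hcc (u i) (huM i)
    change p (pZ (πZ (u i))) = p (pZ (y i))
    rw [h2]
    exact h3
  letI : MetricSpace Z := metrizableSpaceMetric Z
  refine hGFN n Z X X' (fun z => p (pZ z)) pZ hZmin hdist hpc hpe ?_
    (fun z z' h => by change p (pZ z) = p (pZ z'); rw [h])
  intro g ρ hg hginv hρ hfac x hx x' hx' hxx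
  -- the pseudometric on `M`
  have hIPB : IPB (gr M π) (fun w w' (_ : X) => ρ (πZ w) (πZ w')) := by
    have key : ∀ (v : X) (w w' : Om k), (w, v) ∈ gr M π → (w', v) ∈ gr M π →
        (fun z : Z => p (pZ z)) (πZ w) = (fun z : Z => p (pZ z)) (πZ w') := by
      rintro v w w' ⟨h1, h2⟩ ⟨h3, h4⟩
      rw [hcc w h1, hcc w' h3]
      have h5 : v = π w := h2
      have h6 : v = π w' := h4
      rw [← h5, ← h6]
    refine ⟨?_, ?_, ?_, ?_, ?_, ?_⟩
    · have h1 : ContinuousOn (fun q : Om k × Om k × X => (πZ q.1, πZ q.2.1))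
          {q | (q.1, q.2.2) ∈ gr M π ∧ (q.2.1, q.2.2) ∈ gr M π} := by
        refine ContinuousOn.prodMk ?_ ?_
        · exact hπZ.cont.comp continuous_fst.continuousOn (fun q hq => hq.1.1)
        · exact hπZ.cont.comp (continuous_fst.comp continuous_snd).continuousOn
            (fun q hq => hq.2.1)
      exact hρ.cont.comp h1 (fun q hq => key q.2.2 q.1 q.2.1 hq.1 hq.2)
    · intro m v w w' hw hw'
      change ρ (πZ (sh m w)) (πZ (sh m w')) = ρ (πZ w) (πZ w')
      rw [hπZ.equi w hw.1 m, hπZ.equi w' hw'.1 m]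
      exact hρ.inv m _ _ (key v w w' hw hw')
    · intro v w hw
      exact hρ.self _
    · intro v w w' hw hw'
      exact hρ.nonneg _ _ (key v w w' hw hw')
    · intro v w w' hw hw'
      exact hρ.symm _ _ (key v w w' hw hw')
    · intro v w w' w'' hw hw' hw''
      exact hρ.tri _ _ _ (key v w w' hw hw') (key v w' w'' hw' hw'')
  -- the function on tuples
  have hIso : IsoF n M π (fun w w' (_ : X) => ρ (πZ w) (πZ w'))
      (fun u => g (fun i => πZ (u i))) := by
    refine ⟨?_, ?_, ?_⟩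
    · have h1 : ContinuousOn (fun (u : Fin n → Om k) (i : Fin n) => πZ (u i)) (CM n M π) := by
        rw [continuousOn_pi]
        intro i
        exact hπZ.cont.comp (continuous_apply i).continuousOn (fun u hu => hu.1 i)
      exact hg.comp h1 hWP
    · intro u hu
      have h1 := hginv _ (hWP u hu)
      have h2 : (fun i => πZ (sh 1 (u i))) = (fun i => sh 1 (πZ (u i))) :=
        funext fun i => hπZ.equi (u i) (hu.1 i) 1
      change g (fun i => πZ (sh 1 (u i))) = g (fun i => πZ (u i))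
      rw [h2]
      exact h1
    · intro u hu u' hu' h
      refine hfac _ (hWP u hu) _ (hWP u' hu') (fun i => ⟨?_, (h i).2⟩)
      have h1 := hcc (u i) (hu.1 i)
      have h2 := hcc (u' i) (hu'.1 i)
      exact h1.trans ((h i).1.trans h2.symm)
  -- lifts of the two tuples
  choose f hfM hf using hπZ.onto
  have hlift : ∀ y ∈ WP n (fun z : Z => p (pZ z)), (fun i => f (y i)) ∈ CM n M π := by
    rintro y ⟨v, hv, hyv⟩
    refine ⟨fun i => hfM (y i), ?_⟩
    rw [← hPG]
    refine ⟨v, hv, ?_⟩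
    funext i
    have h1 := hcc (f (y i)) (hfM (y i))
    rw [hf] at h1
    have h2 := hyv i
    change p (pZ (v i)) = π (f (y i))
    rw [← h1]
    exact h2.symm
  have hfin := hS.fine _ hIPB _ hIso _ (hlift x hx) _ (hlift x' hx') (fun i => by
    rw [← hcomp _ (hfM (x i)), ← hcomp _ (hfM (x' i)), hf, hf]
    exact hxx i)
  simpa [hf] using hfin

end Pool.Agent.Work.MP_69fea5_lc.W3
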