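import Pool.Agent.Work.MP_69fea5_lc.W3.StmtsL

/-! Item LRT: the relations `RT L`. -/

set_option autoImplicit false

namespace Pool.Agent.Work.MP_69fea5_lc.W3

open MeasureTheory Topology Set Filter TopologicalSpace ProbabilityTheory
open scoped NNReal ENNReal
open Pool.Agent.Work.MP_69fea5_lc.AK

namespace I_LRT

variable {k n : ℕ}

/-- the box of `q` at the time `m` -/
def BX (q : Fin n → Wd k) (m : ℤ) : Set (Fin n → Om k) := {u | ∀ i, u i ∈ cyl (q i) m}

lemma isOpen_BX (hC : AK.S_CYL) (q : Fin n → Wd k) (m : ℤ) : IsOpen (BX q m) := by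
  obtain ⟨hcl, -⟩ := hC k
  have e : BX q m = ⋂ i, (fun u : Fin n → Om k => u i) ⁻¹' cyl (q i) m := by
    ext u
    simp only [BX, mem_setOf_eq, mem_iInter, mem_preimage]
  rw [e]
  exact isOpen_iInter_of_finite fun i => (hcl (q i) m).isOpen.preimage (continuous_apply i)

lemma closed_RT (hC : AK.S_CYL) (L : List (Fin n → Wd k)) : IsClosed (RT L) := by
  have e : RT L = ⋂ m : ℤ, ⋂ q ∈ {q | q ∈ L}, (BX q m)ᶜ := by
    ext u
    simp only [mem_iInter, mem_compl_iff]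
    exact Iff.rfl
  rw [e]
  refine isClosed_iInter fun m => isClosed_iInter fun q => isClosed_iInter fun _ => ?_
  exact (isOpen_BX hC q m).isClosed_compl

lemma inv_RT (hC : AK.S_CYL) (L : List (Fin n → Wd k)) : AK.Inv (RT L) := by
  obtain ⟨-, hsh, -⟩ := hC k
  intro a u hu m q hq h
  refine hu (m + a) q hq fun i => ?_
  exact (hsh (q i) m a (u i)).1 (h i)

lemma append_RT (L L' : List (Fin n → Wd k)) : RT (L ++ L') = RT L ∩ RT L' := by
  ext u
  constructor
  · intro h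
    exact ⟨fun m q hq => h m q (List.mem_append.2 (Or.inl hq)),
      fun m q hq => h m q (List.mem_append.2 (Or.inr hq))⟩
  · rintro ⟨h1, h2⟩ m q hq
    rcases List.mem_append.1 hq with h | h
    · exact h1 m q h
    · exact h2 m q h

lemma sep_RT (hC : AK.S_CYL) {R : Set (Fin n → Om k)} (hR : IsClosed R) (hI : AK.Inv R)
    {x : Fin n → Om k} (hx : x ∉ R) : ∃ L : List (Fin n → Wd k), R ⊆ RT L ∧ x ∉ RT L := by
  obtain ⟨-, hsh, hself, -, hnb, -⟩ := hC k
  have hU : Rᶜ ∈ 𝓝 x := hR.isOpen_compl.mem_nhds hx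
  rw [nhds_pi, Filter.mem_pi] at hU
  obtain ⟨I, -, U, hU, hs⟩ := hU
  choose L₀ hL₀ using fun i => hnb (x i) (U i) (hU i)
  obtain ⟨q, hq⟩ : ∃ q : Fin n → Wd k, q = fun i => wordOf (x i) (L₀ i) := ⟨_, rfl⟩
  refine ⟨[q], ?_, ?_⟩
  · intro u hu m q' hq' h
    rw [List.mem_singleton] at hq'
    subst hq'
    have h1 : sh m u ∈ R := hI m u hu
    have h2 : sh m u ∈ Rᶜ := by
      apply hs
      intro i _
      apply hL₀ i (L₀ i) le_rfl
      have h3 := h i
      rw [hq] at h3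
      exact (hsh (wordOf (x i) (L₀ i)) 0 m (u i)).2 (by simpa using h3)
    exact h2 h1
  · intro h
    refine h 0 q (List.mem_singleton.2 rfl) fun i => ?_
    rw [hq]
    exact hself (x i) (L₀ i)

end I_LRT

open I_LRT in
theorem LRT_pf (hCYL : AK.S_CYL) : S_LRT := by
  intro k n
  refine ⟨fun L => ⟨closed_RT hCYL L, inv_RT hCYL L⟩, append_RT, ?_⟩
  intro R hR hI ν _ ε hε
  obtain ⟨S, hS⟩ : ∃ S : {L : List (Fin n → Wd k) // R ⊆ RT L} → Set (Fin n → Om k),
      S = fun L => RT L.1 \ R := ⟨_, rfl⟩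
  have hmeas : ∀ L, MeasurableSet (S L) := by
    intro L
    rw [hS]
    exact (closed_RT hCYL L.1).measurableSet.diff hR.measurableSet
  have hdir : Directed (· ⊇ ·) S := by
    intro L L'
    refine ⟨⟨L.1 ++ L'.1, ?_⟩, ?_, ?_⟩
    · rw [append_RT]
      exact subset_inter L.2 L'.2
    · rw [hS]
      intro u hu
      have h1 : u ∈ RT (L.1 ++ L'.1) \ R := hu
      rw [append_RT] at h1
      exact ⟨h1.1.1, h1.2⟩
    · rw [hS]
      intro u hu
      have h1 : u ∈ RT (L.1 ++ L'.1) \ R := hu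
      rw [append_RT] at h1
      exact ⟨h1.1.2, h1.2⟩
  have hne : Nonempty {L : List (Fin n → Wd k) // R ⊆ RT L} :=
    ⟨⟨[], fun u _ m q hq => absurd hq List.not_mem_nil⟩⟩
  have hemp : ⋂ L, S L = ∅ := by
    rw [Set.eq_empty_iff_forall_notMem]
    intro u hu
    rw [Set.mem_iInter] at hu
    rw [hS] at hu
    obtain ⟨L, hL, hL'⟩ := sep_RT hCYL hR hI (hu hne.some).2
    exact hL' (hu ⟨L, hL⟩).1
  have ht := hdir.measure_iInter (μ := ν) (fun L => (hmeas L).nullMeasurableSet)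
    ⟨hne.some, measure_ne_top _ _⟩
  rw [hemp, measure_empty] at ht
  have h2 : (⨅ L, ν (S L)) < ε := by
    rw [← ht]
    exact hε
  obtain ⟨L, hL⟩ := iInf_lt_iff.1 h2
  refine ⟨L.1, L.2, ?_⟩
  rw [hS] at hL
  exact hL

end Pool.Agent.Work.MP_69fea5_lc.W3
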