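import Pool.Agent.Work.MP_69fea5_lc.W3.StmtsM
import Pool.Agent.Work.MP_69fea5_lc.W3.CodX

set_option autoImplicit false

namespace Pool.Agent.Work.MP_69fea5_lc.W3

open MeasureTheory Topology Set Filter TopologicalSpace
open scoped NNReal ENNReal
open Pool.Agent.Work.MP_69fea5_lc.AK
open Pool.Agent.Work.MP_69fea5_lc.HK (Cl DU Ar ArF ArR Dat Law LawC act near sc Pt oc Mn mr ext)
open Pool.Agent.Work.MP_69fea5_lc.KC (Agree)

namespace I_LXC

/-! ### Uniform averages with prescribed weights -/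

theorem sum_flat {ι : Type} (c : ι → ℕ) (t : ι → ℤ) (g : ℤ → ℝ) (l : List ι) :
    ((l.flatMap fun i => List.replicate (c i) (t i)).map g).sum =
      (l.map fun i => (c i : ℝ) * g (t i)).sum := by
  induction l with
  | nil => simp
  | cons a l ih =>
    rw [List.flatMap_cons, List.map_append, List.sum_append, ih]
    simp

theorem exists_list {n : ℕ} (hn : 0 < n) (c : Fin n → ℕ) (t : Fin n → ℤ) (hc : ∀ i, 0 < c i) :
    ∃ p : ℤ × List ℤ, (∀ s ∈ p.1 :: p.2, ∃ i, s = t i) ∧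
      ∀ g : ℤ → ℝ, ((p.1 :: p.2).map g).sum / ((p.2.length : ℝ) + 1) =
        (∑ i, (c i : ℝ) * g (t i)) / ∑ i, (c i : ℝ) := by
  set l : List ℤ := (List.finRange n).flatMap fun i => List.replicate (c i) (t i) with hl
  have hmem : ∀ s ∈ l, ∃ i, s = t i := by
    intro s hs
    rw [hl, List.mem_flatMap] at hs
    obtain ⟨i, -, hi⟩ := hs
    exact ⟨i, (List.mem_replicate.1 hi).2⟩
  have hsum : ∀ g : ℤ → ℝ, (l.map g).sum = ∑ i, (c i : ℝ) * g (t i) := by
    intro g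
    rw [hl, sum_flat, Fin.sum_univ_def]
  have hlen : (l.length : ℝ) = ∑ i, (c i : ℝ) := by
    have h1 := hsum fun _ => 1
    simpa using h1
  have hne : l ≠ [] := by
    intro h
    rw [h] at hlen
    simp only [List.length_nil, Nat.cast_zero] at hlen
    have h2 : 0 < ∑ i, (c i : ℝ) := by
      refine Finset.sum_pos (fun i _ => by exact_mod_cast hc i) ⟨⟨0, hn⟩, Finset.mem_univ _⟩
    linarith
  obtain ⟨a, b, hab⟩ := List.exists_cons_of_ne_nil hne
  refine ⟨(a, b), ?_, ?_⟩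
  · intro s hs
    refine hmem s ?_
    rw [hab]
    exact hs
  · intro g
    rw [← hsum, ← hlen, hab]
    simp

/-- integer approximations of weights -/
theorem exists_weights {n : ℕ} (w : Fin n → ℝ≥0) (hw : ∑ i, w i = 1) :
    ∃ c : ℕ → Fin n → ℕ, (∀ N i, 0 < c N i) ∧
      ∀ i, Tendsto (fun N => (c N i : ℝ) / ∑ j, (c N j : ℝ)) atTop (𝓝 (w i)) := by
  refine ⟨fun N i => ⌊(w i : ℝ) * (N : ℝ)⌋₊ + 1, fun N i => Nat.succ_pos _, ?_⟩
  have h1 : ∀ i, Tendsto (fun N : ℕ => ((⌊(w i : ℝ) * (N : ℝ)⌋₊ + 1 : ℕ) : ℝ) / N) atTop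
      (𝓝 (w i)) := by
    intro i
    have h2 : Tendsto (fun N : ℕ => (⌊(w i : ℝ) * (N : ℝ)⌋₊ : ℝ) / N) atTop (𝓝 (w i)) :=
      (tendsto_nat_floor_mul_div_atTop (w i).2).comp tendsto_natCast_atTop_atTop
    have h3 : Tendsto (fun N : ℕ => (1 : ℝ) / N) atTop (𝓝 0) := tendsto_one_div_atTop_nhds_zero_nat
    have h4 := h2.add h3
    rw [add_zero] at h4
    refine h4.congr fun N => ?_
    push_cast
    rw [add_div]
  have h5 : Tendsto (fun N : ℕ => ∑ j, ((⌊(w j : ℝ) * (N : ℝ)⌋₊ + 1 : ℕ) : ℝ) / N) atTop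
      (𝓝 1) := by
    have h6 := tendsto_finsetSum (Finset.univ : Finset (Fin n)) fun j _ => h1 j
    have h7 : ∑ j, (w j : ℝ) = 1 := by exact_mod_cast hw
    rw [h7] at h6
    exact h6
  intro i
  have h8 := (h1 i).div h5 one_ne_zero
  rw [div_one] at h8
  refine h8.congr' ?_
  filter_upwards [eventually_gt_atTop 0] with N hN
  have hN' : (N : ℝ) ≠ 0 := by positivity
  simp only [Pi.div_apply]
  rw [← Finset.sum_div]
  exact div_div_div_cancel_right₀ hN' _ _

variable {k : ℕ}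

/-- the averages of the translates -/
noncomputable def mx (m : PM k) (p : ℤ × List ℤ) : PM k := mxP (fun n : ℤ => (sh n m : PM k)) p

theorem integral_mx (m : PM k) (p : ℤ × List ℤ) (f : Om k → ℝ) (hf : Continuous f) :
    ∫ x, f x ∂(mx m p : Measure (Om k)) = ((p.1 :: p.2).map fun n : ℤ =>
      ∫ x, f x ∂((sh n m : PM k) : Measure (Om k))).sum / ((p.2.length : ℝ) + 1) :=
  integral_mxP _ p f hf

theorem cont_int {f : Om k → ℝ} (hf : Continuous f) :
    Continuous fun q : PM k => ∫ x, f x ∂(q : Measure (Om k)) := by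
  have h := ProbabilityMeasure.continuous_integral_boundedContinuousFunction
    (BoundedContinuousFunction.mkOfCompact ⟨f, hf⟩)
  exact h

/-- density: barycentres of measures on closures of sets of translates are limits of averages -/
theorem dense (hFSD : S_FSD) (hBRX : S_BRX) (hBRC : S_BRC) (m : PM k) (T : Set ℤ)
    (κ : ProbabilityMeasure (PM k)) (m₁ : PM k) (hb : Bar κ id m₁) (K : Set (PM k))
    (hK : IsClosed K) (hκ : κ K = 1)
    (hKT : ∀ m' ∈ K, m' ∈ closure ((fun n : ℤ => (sh n m : PM k)) '' T)) :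
    ∀ V : Set (PM k), IsOpen V → m₁ ∈ V → ∃ p : ℤ × List ℤ, (∀ n ∈ p.1 :: p.2, n ∈ T) ∧
      mx m p ∈ V := by
  intro V hV hm₁
  obtain ⟨hex, huniq, -, -⟩ := hBRX (PM k) (Om k) κ id measurable_id
  obtain ⟨hcl, -, -⟩ := hBRC (PM k) (Om k) id continuous_id
  -- a neighbourhood of `κ`
  obtain ⟨W, hW, hWV⟩ : ∃ W ∈ 𝓝 κ, ∀ ν ∈ W, ∀ m', Bar ν id m' → m' ∈ V := by
    have h1 : IsClosed (Prod.fst '' ({p : ProbabilityMeasure (PM k) × PM k | Bar p.1 id p.2} ∩
        {p | p.2 ∉ V})) := by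
      have h2 : IsClosed {p : ProbabilityMeasure (PM k) × PM k | p.2 ∉ V} :=
        hV.isClosed_compl.preimage continuous_snd
      exact ((hcl.inter h2).isCompact.image continuous_fst).isClosed
    refine ⟨_, h1.isOpen_compl.mem_nhds ?_, ?_⟩
    · rintro ⟨⟨ν, m'⟩, ⟨h3, h4⟩, h5⟩
      simp only at h5
      subst h5
      rw [huniq m' m₁ h3 hb] at h4
      exact h4 hm₁
    · intro ν hν m' hm'
      by_contra hc
      exact hν ⟨(ν, m'), ⟨hm', hc⟩, rfl⟩
  obtain ⟨n, x, w, ν', hν', hx, hw, hνw⟩ := hFSD (PM k) K κ hK hκ W hW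
  obtain ⟨⟨m', hm'⟩, -, -, hint⟩ := hBRX (PM k) (Om k) ν' id measurable_id
  have hm'V : m' ∈ V := hWV ν' hν' m' hm'
  have hn : 0 < n := by
    rcases Nat.eq_zero_or_pos n with h | h
    · subst h
      simp at hw
    · exact h
  -- the times
  have h1 : ∀ i, ∃ t : ℕ → ℤ, (∀ N, t N ∈ T) ∧
      Tendsto (fun N => (sh (t N) m : PM k)) atTop (𝓝 (x i)) := by
    intro i
    obtain ⟨y, hy, hy'⟩ := mem_closure_iff_seq_limit.1 (hKT _ (hx i))
    choose t ht ht' using hy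
    refine ⟨t, ht, hy'.congr fun N => (ht' N).symm⟩
  choose t htT ht using h1
  obtain ⟨c, hc0, hc⟩ := exists_weights w hw
  have h2 : ∀ N, ∃ p : ℤ × List ℤ, (∀ s ∈ p.1 :: p.2, ∃ i, s = t i N) ∧
      ∀ g : ℤ → ℝ, ((p.1 :: p.2).map g).sum / ((p.2.length : ℝ) + 1) =
        (∑ i, (c N i : ℝ) * g (t i N)) / ∑ i, (c N i : ℝ) := fun N =>
    exists_list hn (c N) (fun i => t i N) (hc0 N)
  choose p hp1 hp2 using h2
  have hlim : Tendsto (fun N => mx m (p N)) atTop (𝓝 m') := by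
    rw [ProbabilityMeasure.tendsto_iff_forall_integral_tendsto]
    intro f
    have hfc := f.continuous
    have h3 : ∫ z, f z ∂(m' : Measure (Om k)) =
        ∑ i, (w i : ℝ) * ∫ z, f z ∂(x i : Measure (Om k)) := by
      rw [hint m' hm' f hfc, hνw]
      rw [integral_finsetSum_measure]
      · refine Finset.sum_congr rfl fun i _ => ?_
        rw [integral_smul_measure, integral_dirac]
        rfl
      · intro i _
        refine Integrable.smul_measure ?_ ENNReal.coe_ne_top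
        exact (BoundedContinuousFunction.mkOfCompact ⟨_, cont_int hfc⟩).integrable _
    rw [h3]
    have h4 : ∀ N, ∫ z, f z ∂(mx m (p N) : Measure (Om k)) = ∑ i, ((c N i : ℝ) /
        ∑ j, (c N j : ℝ)) * ∫ z, f z ∂((sh (t i N) m : PM k) : Measure (Om k)) := by
      intro N
      rw [integral_mx m (p N) f hfc, hp2 N, Finset.sum_div]
      refine Finset.sum_congr rfl fun i _ => ?_
      ring
    simp only [h4]
    refine tendsto_finsetSum _ fun i _ => ?_
    refine (hc i).mul ?_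
    exact ((cont_int hfc).tendsto _).comp (ht i)
  obtain ⟨N, hN⟩ := (hlim.eventually (hV.mem_nhds hm'V)).exists
  refine ⟨p N, fun s hs => ?_, hN⟩
  obtain ⟨i, rfl⟩ := hp1 N s hs
  exact htT i N

/-! ### Almost optimal averages -/

variable {X : Type} [TopologicalSpace X] [MeasurableSpace X] [Sys X] [Dat X] [CSys X]

/-- all times are close returns -/
def Gd (x : X) (L : ℕ) (p : ℤ × List ℤ) : Prop := ∀ n ∈ p.1 :: p.2, near L (act n x) x

/-- almost optimal averages -/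
def Opt (m : PM k) (x : X) (L : ℕ) (p : ℤ × List ℤ) : Prop :=
  Gd x L p ∧ ∀ q : ℤ × List ℤ, Gd x L q → ∀ j : ℤ, j.natAbs ≤ L → ∃ j' : ℤ, j'.natAbs ≤ L ∧
    FF (sh j (mx m p)) ≤ FF (sh j' (mx m q)) + 1 / ((L : ℝ) + 1)

theorem FF_nonneg (m : PM k) : 0 ≤ FF m := by
  unfold FF
  exact tsum_nonneg fun i => by positivity

/-- the times -/
noncomputable def J (L : ℕ) : Finset ℤ := Finset.Icc (-(L : ℤ)) L

theorem J_ne (L : ℕ) : (J L).Nonempty := ⟨0, by simp [J]⟩

theorem mem_J {L : ℕ} {j : ℤ} : j ∈ J L ↔ j.natAbs ≤ L := by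
  rw [J, Finset.mem_Icc, ← abs_le, Int.abs_eq_natAbs]
  exact Int.ofNat_le

/-- the maximum of the energies -/
noncomputable def G (m : PM k) (L : ℕ) (p : ℤ × List ℤ) : ℝ :=
  (J L).sup' (J_ne L) fun j => FF (sh j (mx m p))

theorem le_G (m : PM k) (L : ℕ) (p : ℤ × List ℤ) {j : ℤ} (hj : j.natAbs ≤ L) :
    FF (sh j (mx m p)) ≤ G m L p :=
  Finset.le_sup' (fun j => FF (sh j (mx m p))) (mem_J.2 hj)

theorem exists_G (m : PM k) (L : ℕ) (p : ℤ × List ℤ) :
    ∃ j : ℤ, j.natAbs ≤ L ∧ G m L p = FF (sh j (mx m p)) := by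
  obtain ⟨j, hj, h⟩ := Finset.exists_mem_eq_sup' (J_ne L) (fun j => FF (sh j (mx m p)))
  exact ⟨j, mem_J.1 hj, h⟩

theorem exists_opt (m : PM k) (x : X) (L : ℕ) : ∃ p, Opt m x L p := by
  set T : Set ℝ := {g | ∃ p : ℤ × List ℤ, Gd x L p ∧ g = G m L p} with hT
  have hne : T.Nonempty := by
    refine ⟨_, (0, []), ?_, rfl⟩
    intro n hn
    have hn0 : n = 0 := by simpa using hn
    subst hn0
    rw [Law.act_zero]
    exact Law.near_refl L x
  have hbd : BddBelow T := by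
    refine ⟨0, ?_⟩
    rintro _ ⟨p, -, rfl⟩
    obtain ⟨j, -, hj⟩ := exists_G m L p
    rw [hj]
    exact FF_nonneg _
  have hpos : (0 : ℝ) < 1 / ((L : ℝ) + 1) := by positivity
  obtain ⟨g, ⟨p, hp, rfl⟩, hg⟩ := exists_lt_of_csInf_lt hne
    (show sInf T < sInf T + 1 / ((L : ℝ) + 1) by linarith)
  refine ⟨p, hp, fun q hq j hj => ?_⟩
  obtain ⟨j', hj', h'⟩ := exists_G m L q
  refine ⟨j', hj', ?_⟩
  have h1 := le_G m L p hj
  have h2 : sInf T ≤ G m L q := csInf_le hbd ⟨q, hq, rfl⟩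
  rw [h'] at h2
  linarith

variable {S : Set (Set ℕ)}

theorem good_ar (hS : Cl S) {x : X} (hx : Pt S x) :
    Ar S fun p : ℕ × (ℤ × List ℤ) => Gd x p.1 p.2 := by
  have h4 : Ar S (fun p : ℕ × ℤ => near p.1 (act p.2 x) x) :=
    sc_near hS (w := fun p : ℕ × ℤ => act p.2 x) (w' := fun _ => x) (L := fun p => p.1)
      (sc_orb hS hx (ArF.snd hS)) (sc_const hS hx) (ArF.fst hS)
  refine Ar.ballList hS (R := fun (p : ℕ × (ℤ × List ℤ)) (n : ℤ) => near p.1 (act n x) x)
    (g := fun p : ℕ × (ℤ × List ℤ) => p.2.1 :: p.2.2) ?_ ?_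
  · exact Ar.comp hS h4 (f := fun q : (ℕ × (ℤ × List ℤ)) × ℤ => (q.1.1, q.2))
      ((Primrec.fst.comp Primrec.fst).pair Primrec.snd)
  · exact ArF.of_primrec hS (Primrec.list_cons.comp (Primrec.fst.comp Primrec.snd)
      (Primrec.snd.comp Primrec.snd))

theorem sc_mx (hS : Cl S) {m : PM k} (hm : Pt S m) : sc S fun p : ℤ × List ℤ => mx m p :=
  sc_mxP hS (m := fun n : ℤ => (sh n m : PM k)) (sc_orb hS hm (ArF.id hS))

theorem en_arr (hFFSC : KC.S_FFSC) (hS : Cl S) {m : PM k} (hm : Pt S m) :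
    ArR S fun p : (ℤ × List ℤ) × ℤ => FF (sh p.2 (mx m p.1)) :=
  hFFSC S hS k _ _ (LawC.sc_act S (ℤ × List ℤ) (mx m) hS (sc_mx hS hm))

theorem opt_ar (hFFSC : KC.S_FFSC) (hS : Cl S) {m : PM k} (hm : Pt S m) {x : X} (hx : Pt S x) :
    Ar S fun p : ℕ × (ℤ × List ℤ) => Opt m x p.1 p.2 := by
  have hg := good_ar hS hx
  have he := en_arr hFFSC hS hm
  refine Ar.and hS hg ?_
  refine Ar.all hS (R := fun (p : ℕ × (ℤ × List ℤ)) (q : ℤ × List ℤ) => Gd x p.1 q →
    ∀ j : ℤ, j.natAbs ≤ p.1 → ∃ j' : ℤ, j'.natAbs ≤ p.1 ∧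
      FF (sh j (mx m p.2)) ≤ FF (sh j' (mx m q)) + 1 / ((p.1 : ℝ) + 1)) ?_
  refine Ar.imp hS ?_ ?_
  · exact Ar.comp hS hg (f := fun t : (ℕ × (ℤ × List ℤ)) × (ℤ × List ℤ) => (t.1.1, t.2))
      ((Primrec.fst.comp Primrec.fst).pair Primrec.snd)
  refine Ar.all hS (R := fun (t : (ℕ × (ℤ × List ℤ)) × (ℤ × List ℤ)) (j : ℤ) =>
    j.natAbs ≤ t.1.1 → ∃ j' : ℤ, j'.natAbs ≤ t.1.1 ∧
      FF (sh j (mx m t.1.2)) ≤ FF (sh j' (mx m t.2)) + 1 / ((t.1.1 : ℝ) + 1)) ?_
  refine Ar.imp hS ?_ ?_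
  · exact Ar.le hS ((ArF.snd hS).natAbs hS)
      (ArF.of_primrec hS (Primrec.fst.comp (Primrec.fst.comp Primrec.fst)))
  refine Ar.ex hS (R := fun (t : ((ℕ × (ℤ × List ℤ)) × (ℤ × List ℤ)) × ℤ) (j' : ℤ) =>
    j'.natAbs ≤ t.1.1.1 ∧
      FF (sh t.2 (mx m t.1.1.2)) ≤
        FF (sh j' (mx m t.1.2)) + 1 / ((t.1.1.1 : ℝ) + 1)) ?_
  refine Ar.and hS ?_ ?_
  · exact Ar.le hS ((ArF.snd hS).natAbs hS)
      (ArF.of_primrec hS (Primrec.fst.comp (Primrec.fst.comp (Primrec.fst.comp Primrec.fst))))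
  · refine HK.ArR.rle hS (f := fun t : (((ℕ × (ℤ × List ℤ)) × (ℤ × List ℤ)) × ℤ) × ℤ =>
      FF (sh t.1.2 (mx m t.1.1.1.2)))
      (g := fun t : (((ℕ × (ℤ × List ℤ)) × (ℤ × List ℤ)) × ℤ) × ℤ =>
      FF (sh t.2 (mx m t.1.1.2)) + 1 / ((t.1.1.1.1 : ℝ) + 1)) ?_ ?_ ?_
    · exact HK.ArR.comp hS he (g := fun t : (((ℕ × (ℤ × List ℤ)) × (ℤ × List ℤ)) × ℤ) × ℤ =>
        (t.1.1.1.2, t.1.2)) ((Primrec.snd.comp (Primrec.fst.comp (Primrec.fst.comp
          Primrec.fst))).pair (Primrec.snd.comp Primrec.fst))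
    · refine HK.ArR.add hS ?_ ?_ (fun t => FF_nonneg _) (fun t => by positivity)
      · exact HK.ArR.comp hS he (g := fun t : (((ℕ × (ℤ × List ℤ)) × (ℤ × List ℤ)) × ℤ) × ℤ =>
          (t.1.1.2, t.2)) ((Primrec.snd.comp (Primrec.fst.comp Primrec.fst)).pair Primrec.snd)
      · refine (HK.ArR.rat hS (u := fun _ => 1)
          (v := fun t : (((ℕ × (ℤ × List ℤ)) × (ℤ × List ℤ)) × ℤ) × ℤ => t.1.1.1.1)
          (ArF.const hS 1) (ArF.of_primrec hS (Primrec.fst.comp (Primrec.fst.comp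
            (Primrec.fst.comp Primrec.fst))))).congr fun t => ?_
        simp
    · intro t
      exact add_nonneg (FF_nonneg _) (by positivity)

/-! ### The limit is in the family -/

/-- the uniform measure on the translates -/
noncomputable def kx (m : PM k) (p : ℤ × List ℤ) : ProbabilityMeasure (PM k) :=
  mxP (fun n : ℤ => (diracProba (sh n m : PM k) : ProbabilityMeasure (PM k))) p

theorem bar_kx (hBRC : S_BRC) (m : PM k) (p : ℤ × List ℤ) : Bar (kx m p) id (mx m p) := by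
  obtain ⟨-, -, h⟩ := hBRC (PM k) (Om k) id continuous_id
  refine h _ _ fun g hg => ?_
  rw [integral_mx m p g hg]
  unfold kx
  rw [integral_mxP _ p (fun q : PM k => ∫ z, g z ∂((id q : PM k) : Measure (Om k)))
    (cont_int hg)]
  congr 2
  refine List.map_congr_left fun n _ => ?_
  show _ = ∫ q : PM k, ∫ z, g z ∂((id q : PM k) : Measure (Om k)) ∂(Measure.dirac (sh n m : PM k))
  rw [integral_dirac]
  rfl

theorem kx_one (m : PM k) (p : ℤ × List ℤ) (K : Set (PM k)) (hK : MeasurableSet K)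
    (h : ∀ n ∈ p.1 :: p.2, (sh n m : PM k) ∈ K) : kx m p K = 1 := by
  have h1 : (kx m p : Measure (PM k)) K = 1 := by
    unfold kx
    rw [mxP_apply]
    have h2 : ((p.1 :: p.2).map fun n : ℤ => ((diracProba (sh n m : PM k) :
        ProbabilityMeasure (PM k)) : Measure (PM k)) K) = (p.1 :: p.2).map fun _ => 1 := by
      refine List.map_congr_left fun n hn => ?_
      show Measure.dirac (sh n m : PM k) K = 1
      rw [Measure.dirac_apply' _ hK, indicator_of_mem (h n hn)]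
      rfl
    rw [h2]
    simp only [List.map_const', List.length_cons, List.sum_replicate, nsmul_eq_mul, mul_one]
    exact ENNReal.inv_mul_cancel (by simp) (by simp)
  rw [← ENNReal.coe_inj, ProbabilityMeasure.ennreal_coeFn_eq_coeFn_toMeasure]
  exact h1

theorem fam_lim (hPMG : S_PMG) (hBRC : S_BRC) {U : Ultrafilter ℕ}
    (hU : (U : Filter ℕ) ≤ atTop) (x : X) (m l : PM k) (f : ℕ → ℤ × List ℤ)
    (hf : ∀ L, Gd x L (f L)) (hl : Tendsto (fun L => mx m (f L)) (U : Filter ℕ) (𝓝 l)) :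
    (x, l) ∈ Fam (orb ((x, m) : X × PM k)) := by
  obtain ⟨hcl, -, -⟩ := hBRC (PM k) (Om k) id continuous_id
  obtain ⟨κ, -, hκ⟩ := isCompact_univ.ultrafilter_le_nhds (U.map fun L : ℕ => kx m (f L))
    (by simp)
  have hκ' : Tendsto (fun L : ℕ => kx m (f L)) (U : Filter ℕ) (𝓝 κ) := hκ
  refine ⟨κ, ?_, ?_⟩
  · -- the closed sets
    set F : Set (X × PM k) := orb ((x, m) : X × PM k) with hF
    have hFc : IsClosed F := isClosed_closure
    set K : ℕ → Set (PM k) := fun L =>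
      Prod.snd '' (F ∩ (Prod.fst ⁻¹' closure {y : X | near L y x})) with hK
    have hKc : ∀ L, IsClosed (K L) := fun L =>
      ((hFc.inter (isClosed_closure.preimage continuous_fst)).isCompact.image
        continuous_snd).isClosed
    have hmem : ∀ L L', L ≤ L' → ∀ n ∈ (f L').1 :: (f L').2, (sh n m : PM k) ∈ K L := by
      intro L L' hLL n hn
      refine ⟨(sh n x, sh n m), ⟨subset_closure ⟨n, rfl⟩, subset_closure ?_⟩, rfl⟩
      have h1 := hf L' n hn
      rw [Agree.eq] at h1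
      exact Law.near_mono _ _ _ _ hLL h1
    have hone : ∀ L, κ (K L) = 1 := by
      intro L
      have h1 : IsClosed {ν : ProbabilityMeasure (PM k) | ν (K L) = 1} :=
        (hPMG (PM k)).2.2.2.2.1 _ (hKc L)
      refine h1.mem_of_tendsto hκ' ?_
      filter_upwards [hU (eventually_ge_atTop L)] with L' hL'
      exact kx_one m (f L') _ (hKc L).measurableSet (hmem L L' hL')
    have hinter : (⋂ L, K L) ⊆ {m' | ((x, l).1, m') ∈ F} := by
      intro m' hm'
      rw [mem_iInter] at hm'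
      have h1 : ∀ L, ∃ y : X, (y, m') ∈ F ∧ y ∈ closure {y : X | near L y x} := by
        intro L
        obtain ⟨⟨y, m''⟩, ⟨h2, h3⟩, h4⟩ := hm' L
        simp only at h4
        subst h4
        exact ⟨y, h2, h3⟩
      choose y hy hy' using h1
      have h2 : Tendsto y atTop (𝓝 x) := by
        intro V hV
        obtain ⟨V', hV', hVc, hsub⟩ := exists_mem_nhds_isClosed_subset hV
        obtain ⟨L₀, hL₀⟩ := Law.near_basis x V' hV'
        refine mem_map.2 (mem_of_superset (eventually_ge_atTop L₀) fun L hL => hsub ?_)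
        have h3 : closure {y : X | near L y x} ⊆ V' := by
          refine closure_minimal (fun z hz => ?_) hVc
          exact hL₀ z (Law.near_mono _ _ _ _ hL (Law.near_symm _ _ _ hz))
        exact h3 (hy' L)
      have h4 : Tendsto (fun L => (y L, m')) atTop (𝓝 (x, m')) := h2.prodMk_nhds tendsto_const_nhds
      exact hFc.mem_of_tendsto h4 (Eventually.of_forall hy)
    have h5 : (κ : Measure (PM k)) (⋂ L, K L) = 1 := by
      have h6 : (κ : Measure (PM k)) (⋂ L, K L)ᶜ = 0 := by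
        rw [compl_iInter, measure_iUnion_null_iff]
        intro L
        have h7 := hone L
        rw [← ENNReal.coe_inj, ProbabilityMeasure.ennreal_coeFn_eq_coeFn_toMeasure] at h7
        exact (prob_compl_eq_zero_iff (hKc L).measurableSet).2 h7
      exact (prob_compl_eq_zero_iff (MeasurableSet.iInter fun L => (hKc L).measurableSet)).1 h6
    have h8 : (1 : ℝ≥0∞) ≤ (κ : Measure (PM k)) {m' | ((x, l).1, m') ∈ F} := by
      rw [← h5]
      exact measure_mono hinter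
    have h9 : (κ : Measure (PM k)) {m' | ((x, l).1, m') ∈ F} = 1 := le_antisymm prob_le_one h8
    rw [← ENNReal.coe_inj, ProbabilityMeasure.ennreal_coeFn_eq_coeFn_toMeasure]
    exact h9
  · have h1 : Tendsto (fun L => (kx m (f L), mx m (f L))) (U : Filter ℕ) (𝓝 (κ, l)) :=
      hκ'.prodMk_nhds hl
    exact hcl.mem_of_tendsto h1 (Eventually.of_forall fun L => bar_kx hBRC m (f L))

end I_LXC

open I_LXC in
theorem LXC_pf (hULT : S_ULT) (hPMG : S_PMG) (hFSD : S_FSD) (hBRX : S_BRX) (hBRC : S_BRC)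
    (hSEO : S_SEO) (hAAN : S_AAN) (hENG : AK.S_ENG) (hFFSC : KC.S_FFSC) : S_LXC := by
  intro S U hS hU k X _ _ _ _ _ x m hx hm hmin
  obtain ⟨hFc, hFb, -, -, -⟩ := hENG k
  -- the family
  set F : Set (X × PM k) := orb ((x, m) : X × PM k) with hF
  have hFcl : IsClosed F := isClosed_closure
  have hFinv : AK.Inv F := by
    intro n y hy
    refine map_mem_closure (sh_cont n) hy ?_
    rintro _ ⟨a, rfl⟩
    exact ⟨n + a, sh_add n a _⟩
  have hproj : Prod.fst '' F = orb x :=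
    (hULT (X × PM k)).2.2 X Prod.fst inferInstance continuous_fst (fun _ _ => rfl) (x, m)
  have hmin' : MinSet (Prod.fst '' F) := by rw [hproj]; exact hmin
  obtain ⟨hsep, -, -, hAA⟩ := hSEO k
  obtain ⟨hAc, hAi, hAp⟩ := hAAN (Om k) X (fcyl k) F hsep hFcl hFinv hmin'
  rw [hAA X F] at hAc hAi hAp
  -- the minimal energy
  obtain ⟨⟨x₁, m₁⟩, hm₁, hx₁⟩ : x ∈ Prod.fst '' AAF F := by
    rw [hAp, hproj]
    exact subset_closure ⟨0, sh_zero x⟩
  simp only at hx₁
  subst hx₁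
  obtain ⟨⟨κ, hκ, hbar⟩, hopt⟩ := hm₁
  -- the choice
  obtain ⟨f, hf, hfR⟩ := Ar.choose hS (R := Opt m x₁) (opt_ar hFFSC hS hm hx) fun L => exists_opt m x₁ L
  obtain ⟨l, hl, hlim⟩ := exists_lim hS hU (sc_comp hS (sc_mx hS hm) hf)
  have hfam : (x₁, l) ∈ Fam F := fam_lim hPMG hBRC hU.top x₁ m l f (fun L => (hfR L).1) hlim
  have hbdd : ∀ q : PM k, BddAbove (Set.range fun n : ℤ => FF (sh n q)) := fun q =>
    ⟨2, by rintro _ ⟨n, rfl⟩; exact (hFb _).2⟩
  have hle : ∀ (q : PM k) (n : ℤ), FF (sh n q) ≤ GG q := fun q n => le_ciSup (hbdd q) n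
  have key : GG l ≤ GG m₁ := by
    refine ciSup_le fun j => ?_
    refine le_of_forall_pos_le_add fun ε hε => ?_
    have hcl : IsClosed {q : PM k | FF (sh j q) ≤ GG m₁ + ε} :=
      isClosed_le (hFc.comp (sh_cont j)) continuous_const
    refine hcl.mem_of_tendsto hlim ?_
    have hev : ∀ᶠ L : ℕ in atTop, 1 / ((L : ℝ) + 1) < ε / 2 :=
      (tendsto_one_div_add_atTop_nhds_zero_nat (𝕜 := ℝ)).eventually_lt_const (by positivity)
    refine hU.top ?_
    filter_upwards [hev, eventually_ge_atTop j.natAbs] with L hL1 hL2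
    obtain ⟨q, hq, hqV⟩ := dense hFSD hBRX hBRC m {n : ℤ | near L (act n x₁) x₁} κ m₁ hbar
      {m' | (x₁, m') ∈ F} (hFcl.preimage (Continuous.prodMk_right x₁)) hκ (by
        intro m' hm'
        refine mem_closure_iff_nhds.2 fun W hW => ?_
        have h2 : {y : X | near L y x₁} ×ˢ W ∈ 𝓝 (x₁, m') :=
          prod_mem_nhds (HK.near_mem_nhds L x₁) hW
        obtain ⟨⟨y, p⟩, hp, n, hn⟩ := mem_closure_iff_nhds.1 hm' _ h2
        have hn' : (sh n x₁, sh n m) = (y, p) := hn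
        have hp1 : sh n x₁ = y := congrArg Prod.fst hn'
        have hp2 : sh n m = p := congrArg Prod.snd hn'
        refine ⟨p, hp.2, n, ?_, hp2⟩
        show near L (act n x₁) x₁
        rw [Agree.eq, hp1]
        exact hp.1)
      {q : PM k | ∀ j' ∈ J L, FF (sh j' q) < GG m₁ + ε / 2} (by
        have : {q : PM k | ∀ j' ∈ J L, FF (sh j' q) < GG m₁ + ε / 2}
            = ⋂ j' ∈ J L, {q : PM k | FF (sh j' q) < GG m₁ + ε / 2} := by
          ext q; simp
        rw [this]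
        exact isOpen_biInter_finset fun j' _ => isOpen_lt (hFc.comp (sh_cont j'))
          continuous_const) (by
        intro j' _
        have := hle m₁ j'
        linarith)
    obtain ⟨j', hj', hle'⟩ := (hfR L).2 q hq j hL2
    have h3 := hqV j' (mem_J.2 hj')
    show FF (sh j (mx m (f L))) ≤ GG m₁ + ε
    linarith
  have hAAl : (x₁, l) ∈ AAF F := ⟨hfam, fun p' hp' => key.trans (hopt p' hp')⟩
  -- the minimal point
  have hMn : Mn x₁ := by
    intro y hy
    rw [KC.oc_eq] at hy ⊢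
    have h1 : orb y = orb x₁ := by
      refine hmin.min _ isClosed_closure ⟨y, subset_closure ⟨0, sh_zero y⟩⟩ ?_ ?_
      · intro n z hz
        refine map_mem_closure (sh_cont n) hz ?_
        rintro _ ⟨a, rfl⟩
        exact ⟨n + a, sh_add n a _⟩
      · refine closure_minimal ?_ isClosed_closure
        rintro _ ⟨n, rfl⟩
        exact hmin.inv n y hy
    rw [h1]
    exact subset_closure ⟨0, sh_zero x₁⟩
  obtain ⟨y, hy, hyo, hyM⟩ := exists_fibre_min (β := PM k) hS hU hx hl hx hMn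
    (by rw [KC.oc_eq]; exact subset_closure ⟨0, sh_zero x₁⟩)
  refine ⟨y, hy, ?_, KC.minSet_of_Mn hyM⟩
  rw [KC.oc_eq] at hyo
  have h1 : orb ((x₁, l) : X × PM k) ⊆ AAF F := by
    refine closure_minimal ?_ hAc
    rintro _ ⟨n, rfl⟩
    exact hAi n _ hAAl
  exact h1 hyo

end Pool.Agent.Work.MP_69fea5_lc.W3
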