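import Pool.Agent.Work.MP_69fea5_lc.W3.StmtsE

set_option autoImplicit false

namespace Pool.Agent.Work.MP_69fea5_lc.W3

open MeasureTheory Topology Set Filter ProbabilityTheory
open scoped NNReal ENNReal
open Pool.Agent.Work.MP_69fea5_lc.AK
open Pool.Agent.Work.MP_69fea5_lc.N3 (W2 bx sup2 St nxt Bl3 CaseII3 GRD)

namespace I_MSB

variable {k : ℕ} {X : Type} [TopologicalSpace X] [Sys X]

theorem inv_MS (μ : X → PM k) (x : X) : AK.Inv (MS μ x) := by
  intro n p hp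
  refine map_mem_closure (sh_cont n) hp ?_
  rintro q ⟨m, z, hz, rfl⟩
  refine ⟨n + m, z, hz, ?_⟩
  rw [sh_add, sh_add]
  rfl

theorem snd_MS (μ : X → PM k) (x : X) : ∀ p ∈ MS μ x, p.2 ∈ orb x := by
  intro p hp
  refine map_mem_closure continuous_snd hp ?_
  rintro q ⟨m, z, hz, rfl⟩
  exact ⟨m, rfl⟩

theorem mem_MS (μ : X → PM k) (x : X) (n : ℤ) (z : Om k) (hz : z ∈ supp (μ x)) :
    (sh n z, sh n x) ∈ MS μ x := subset_closure ⟨n, z, hz, rfl⟩

theorem mem_MS0 (μ : X → PM k) (x : X) (z : Om k) (hz : z ∈ supp (μ x)) :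
    (z, x) ∈ MS μ x := by
  have h := mem_MS μ x 0 z hz
  rwa [sh_zero, sh_zero] at h

end I_MSB

open I_MSB in
theorem MSB_pf (h1 : S_USC) (h2 : S_SUP) (h3 : S_PMB) : S_MSB := by
  intro k X _ _ μ x hc he
  have hcl : IsClosed (MS μ x) := isClosed_closure
  have hsec : ∀ y : X, IsClosed {z : Om k | (z, y) ∈ MS μ x} := fun y =>
    hcl.preimage (by fun_prop : Continuous fun z : Om k => (z, y))
  have hfull : ∀ y ∈ orb x, μ y {z | (z, y) ∈ MS μ x} = 1 := by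
    intro y hy
    have hS : IsClosed {y : X | 1 ≤ μ y {z | (z, y) ∈ MS μ x}} :=
      (h1 k X (MS μ x) hcl 1).preimage (by fun_prop : Continuous fun y : X => (μ y, y))
    have hr : Set.range (fun n : ℤ => sh n x) ⊆ {y : X | 1 ≤ μ y {z | (z, y) ∈ MS μ x}} := by
      rintro _ ⟨n, rfl⟩
      change 1 ≤ μ (sh n x) {z | (z, sh n x) ∈ MS μ x}
      rw [he n x, (h3 k).1 (μ x) n _ (hsec (sh n x)).measurableSet, ← (h2 k (μ x)).2.1]
      exact ProbabilityMeasure.apply_mono _ fun z hz => mem_MS μ x n z hz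
    have hy' : y ∈ {y : X | 1 ≤ μ y {z | (z, y) ∈ MS μ x}} := closure_minimal hr hS hy
    exact le_antisymm (ProbabilityMeasure.apply_le_one _ _) hy'
  have hsup : ∀ y ∈ orb x, ∀ z ∈ supp (μ y), (z, y) ∈ MS μ x := by
    intro y hy z hz
    exact (h2 k (μ y)).2.2.2.2.2.2.1 _ (hsec y) (hfull y hy) hz
  refine ⟨⟨hcl, inv_MS μ x, snd_MS μ x, mem_MS0 μ x⟩, ⟨hfull, hsup⟩, ?_⟩
  intro hm y hy
  refine hm.min _ isClosed_closure ?_ (inv_MS μ y) ?_
  · obtain ⟨z, hz⟩ := (h2 k (μ y)).2.2.1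
    exact ⟨(z, y), mem_MS0 μ y z hz⟩
  · refine closure_minimal ?_ hcl
    rintro q ⟨m, z, hz, rfl⟩
    exact inv_MS μ x m (z, y) (hsup y hy z hz)

end Pool.Agent.Work.MP_69fea5_lc.W3
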