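import Pool.Agent.Work.MP_69fea5_lc.W3.StmtsE

/-!
# Block [69fea5 F], item RAW: the set of limits `RW c x ν P`
-/

set_option autoImplicit false

namespace Pool.Agent.Work.MP_69fea5_lc.W3

open MeasureTheory Topology Set Filter ProbabilityTheory
open scoped NNReal ENNReal
open Pool.Agent.Work.MP_69fea5_lc.AK
open Pool.Agent.Work.MP_69fea5_lc.N3 (W2 bx sup2 St nxt Bl3 CaseII3 GRD)

namespace I_RAW

variable {k : ℕ}

/-- the set of the sequences with a given letter at a given place is open -/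
theorem letter_open (x : ℤ) (r : Fin k) : IsOpen {z : Om k | z x = r} :=
  (isOpen_discrete ({r} : Set (Fin k))).preimage (continuous_apply (A := fun _ : ℤ => Fin k) x)

/-- the sets `nxt` are open -/
theorem nxt_open (hC : AK.S_CYL) (P : W2 k) (r : Fin k) (x : ℤ) : IsOpen (nxt P r x) := by
  obtain ⟨hcl, -⟩ := hC k
  have h1 : IsOpen (bx P 0) := (hcl P.1 0).isOpen.prod (hcl P.2 0).isOpen
  have h2 : IsOpen {g : Om k × Om k | g.1 ∈ cyl P.2 x} :=
    (hcl P.2 x).isOpen.preimage continuous_fst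
  have h3 : IsOpen {g : Om k × Om k | g.2 x = r} :=
    (letter_open x r).preimage continuous_snd
  exact h1.inter (h2.inter h3)

variable {X : Type} [TopologicalSpace X] [Sys X]

/-- the set of limits is closed -/
theorem closed (c : Om k) (x : X) (ν : Measure (Om k × Om k)) (P : W2 k) :
    IsClosed (RW c x ν P) := by
  rw [← closure_subset_iff_isClosed]
  intro q hq U hU L
  obtain ⟨U', hU'U, hU'o, hqU'⟩ := mem_nhds_iff.1 hU
  obtain ⟨q', hq'U, hq'N⟩ := mem_closure_iff.1 hq U' hU'o hqU'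
  obtain ⟨n, hn, g, hg, hgU⟩ := hq'N U' (hU'o.mem_nhds hq'U) L
  exact ⟨n, hn, g, hg, hU'U hgU⟩

/-- the set of limits is invariant -/
theorem inv (c : Om k) (x : X) (ν : Measure (Om k × Om k)) (P : W2 k) :
    AK.Inv (RW c x ν P) := by
  intro m q hq U hU L
  have hU1 : (sh m : (Om k × Om k × Om k) × X → _) ⁻¹' U ∈ 𝓝 q := (sh_cont m).continuousAt hU
  obtain ⟨n, hn, g, hg, hgU⟩ := hq _ hU1 (L + m.natAbs)
  obtain ⟨y, hy⟩ : ∃ y : ℕ, (y : ℤ) = m + n := ⟨(m + n).toNat, by omega⟩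
  refine ⟨y, by omega, g, hg, ?_⟩
  have h6 : (((sh (y : ℤ) c, sh (y : ℤ) g.1, sh (y : ℤ) g.2), sh (y : ℤ) x) :
      (Om k × Om k × Om k) × X) =
      sh m (((sh (n : ℤ) c, sh (n : ℤ) g.1, sh (n : ℤ) g.2), sh (n : ℤ) x) :
      (Om k × Om k × Om k) × X) := by
    rw [sh_prod, sh_prod, sh_prod, hy, sh_add, sh_add, sh_add, sh_add]
  rw [h6]
  exact hgU

end I_RAW

/-- [RAW] the set of limits `RW c x ν P`. -/
theorem RAW_pf (h1 : N3.S_SP2) (h2 : N3.S_NBX) (h3 : AK.S_CYL) : S_RAW := by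
  intro k X _ _ _ _ c x ν _ P
  refine ⟨I_RAW.closed c x ν P, I_RAW.inv c x ν P, ?_, ?_⟩
  · -- the limits are carried by the sections
    intro G w y hG hc hx τ hτ hlim
    by_contra hne
    have hpos : 0 < τ {g : Om k × Om k | ((w, g), y) ∉ RW c x ν P} := pos_iff_ne_zero.2 hne
    have hFo : IsOpen {g : Om k × Om k | ((w, g), y) ∉ RW c x ν P} := by
      have hcont : Continuous (fun g : Om k × Om k =>
          (((w, g), y) : (Om k × Om k × Om k) × X)) :=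
        (continuous_const.prodMk continuous_id).prodMk continuous_const
      exact (I_RAW.closed c x ν P).isOpen_compl.preimage hcont
    obtain ⟨p, hpF, hps⟩ := (h1 k τ).2.2.2 _ hFo hpos
    obtain ⟨L, hL⟩ := (h2 k).1 p _ (hFo.mem_nhds hpF)
    set B : Set (Om k × Om k) := bx (wordOf p.1 L, wordOf p.2 L) 0 with hB
    have hBF : B ⊆ {g : Om k × Om k | ((w, g), y) ∉ RW c x ν P} := hL L le_rfl
    have hBc : IsClopen B := (h2 k).2.1 _ 0
    have hBpos : 0 < τ.real B := by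
      have h4 : 0 < τ B := hps L
      exact ENNReal.toReal_pos h4.ne' (measure_ne_top τ B)
    have hev : ∀ᶠ n : ℕ in (G : Filter ℕ),
        0 < (ν.restrict (bx P 0)).real {g | sh (n : ℤ) g ∈ B} :=
      (hlim B hBc).eventually (lt_mem_nhds hBpos)
    have hex : ∀ n : ℕ, 0 < (ν.restrict (bx P 0)).real {g | sh (n : ℤ) g ∈ B} →
        ∃ g : Om k × Om k, g ∈ bx P 0 ∩ sup2 ν ∧ sh (n : ℤ) g ∈ B := by
      intro n hn
      have ho1 : IsOpen {g : Om k × Om k | sh (n : ℤ) g ∈ B} :=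
        hBc.isOpen.preimage (sh_cont (n : ℤ))
      have ho2 : IsOpen (bx P 0) := ((h2 k).2.1 P 0).isOpen
      have h5 : 0 < (ν.restrict (bx P 0)) {g | sh (n : ℤ) g ∈ B} := by
        rw [Measure.real] at hn
        exact (ENNReal.toReal_pos_iff.1 hn).1
      rw [Measure.restrict_apply ho1.measurableSet] at h5
      obtain ⟨g, hg1, hg2⟩ := (h1 k ν).2.2.2 _ (ho1.inter ho2) h5
      exact ⟨g, ⟨hg1.2, hg2⟩, hg1.1⟩
    have hch : ∀ n : ℕ, ∃ g : Om k × Om k,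
        0 < (ν.restrict (bx P 0)).real {g | sh (n : ℤ) g ∈ B} →
        g ∈ bx P 0 ∩ sup2 ν ∧ sh (n : ℤ) g ∈ B := by
      intro n
      by_cases hn : 0 < (ν.restrict (bx P 0)).real {g | sh (n : ℤ) g ∈ B}
      · obtain ⟨g, hg⟩ := hex n hn
        exact ⟨g, fun _ => hg⟩
      · exact ⟨(c, c), fun h => absurd h hn⟩
    choose g hg using hch
    have hgU : ∀ᶠ n : ℕ in (G : Filter ℕ), g n ∈ bx P 0 ∩ sup2 ν ∧ sh (n : ℤ) (g n) ∈ B := by
      filter_upwards [hev] with n hn using hg n hn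
    obtain ⟨gs, hgs⟩ : ∃ gs : Om k × Om k,
        Tendsto (fun n : ℕ => sh (n : ℤ) (g n)) (G : Filter ℕ) (𝓝 gs) := by
      obtain ⟨gs, -, h⟩ := isCompact_univ.ultrafilter_le_nhds
        (G.map fun n : ℕ => sh (n : ℤ) (g n)) (by simp)
      exact ⟨gs, h⟩
    have hgsB : gs ∈ B := hBc.isClosed.mem_of_tendsto hgs (hgU.mono fun n hn => hn.2)
    apply hBF hgsB
    intro U hU N
    have ht : Tendsto (fun n : ℕ => (((sh (n : ℤ) c, sh (n : ℤ) (g n)), sh (n : ℤ) x) :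
        (Om k × (Om k × Om k)) × X)) (G : Filter ℕ) (𝓝 ((w, gs), y)) :=
      (hc.prodMk_nhds hgs).prodMk_nhds hx
    have hU1 : ∀ᶠ n : ℕ in (G : Filter ℕ),
        (((sh (n : ℤ) c, sh (n : ℤ) (g n)), sh (n : ℤ) x) :
          (Om k × (Om k × Om k)) × X) ∈ U := ht hU
    have hN1 : ∀ᶠ n : ℕ in (G : Filter ℕ), N ≤ n := hG (Filter.eventually_ge_atTop N)
    obtain ⟨n, ⟨hnU, hnN⟩, hng⟩ := ((hU1.and hN1).and hgU).exists
    exact ⟨n, hnN, g n, hng.1, hnU⟩
  · -- the blocked colour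
    intro r hB w u v y hq hw hu hvr
    obtain ⟨N, hN⟩ := hB
    obtain ⟨hcl, hsh, -⟩ := h3 k
    have hU : (cyl P.1 0 ×ˢ (cyl P.2 0 ×ˢ {z : Om k | z 0 = r})) ×ˢ (univ : Set X) ∈
        𝓝 (((w, u, v), y) : (Om k × Om k × Om k) × X) :=
      prod_mem_nhds (prod_mem_nhds ((hcl P.1 0).isOpen.mem_nhds hw)
        (prod_mem_nhds ((hcl P.2 0).isOpen.mem_nhds hu)
          ((I_RAW.letter_open 0 r).mem_nhds hvr))) univ_mem
    obtain ⟨n, hNn, g, hg, hgU⟩ := hq _ hU N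
    obtain ⟨⟨hc1, hg1, hg2⟩, -⟩ := hgU
    have hc2 : c ∈ cyl P.1 (n : ℤ) := by
      have := (hsh P.1 0 (n : ℤ) c).1 hc1
      rwa [zero_add] at this
    have hg3 : g.1 ∈ cyl P.2 (n : ℤ) := by
      have := (hsh P.2 0 (n : ℤ) g.1).1 hg1
      rwa [zero_add] at this
    have hg4 : g.2 (n : ℤ) = r := by
      have h5 : (sh (n : ℤ) g.2 : Om k) 0 = r := hg2
      have h6 : (sh (n : ℤ) g.2 : Om k) 0 = g.2 (0 + (n : ℤ)) := rfl
      rw [h6, zero_add] at h5
      exact h5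
    have hmem : g ∈ nxt P r (n : ℤ) := ⟨hg.1, hg3, hg4⟩
    have h0 := hN n hNn hc2
    have h4 := ((h1 k ν).2.2.1 g).1 hg.2 _ ((I_RAW.nxt_open h3 P r (n : ℤ)).mem_nhds hmem)
    rw [h0] at h4
    exact lt_irrefl _ h4

end Pool.Agent.Work.MP_69fea5_lc.W3
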