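import Pool.Agent.Work.MP_69fea5_lc.W3.StmtsR

/-!
# Block [69fea5 W3 R], item RFG: functions of the class `ISO` are functions of the positions
-/

set_option autoImplicit false

namespace Pool.Agent.Work.MP_69fea5_lc.W3

open MeasureTheory Topology Set Filter TopologicalSpace ProbabilityTheory
open scoped NNReal ENNReal
open Pool.Agent.Work.MP_69fea5_lc.AK

namespace I_RFG

variable {k : ℕ} {M : Set (Om k)} (hM : MinSet M)

/-- a point of `M` as a point of the system -/
def mkM (w : Om k) (hw : w ∈ M) : SysM hM := (⟨w, hw⟩ : {w : Om k // w ∈ M})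

theorem cont_oM : Continuous (oM hM) :=
  (continuous_subtype_val : Continuous fun w : {w : Om k // w ∈ M} => w.1)

theorem oM_mem (w : SysM hM) : oM hM w ∈ M := (show {w : Om k // w ∈ M} from w).2

theorem oM_mk (w : Om k) (hw : w ∈ M) : oM hM (mkM hM w hw) = w := rfl

theorem mk_oM (w : SysM hM) : mkM hM (oM hM w) (oM_mem hM w) = w := rfl

theorem oM_sh (n : ℤ) (w : SysM hM) : oM hM (sh n w) = sh n (oM hM w) := rfl

theorem mk_sh (n : ℤ) (w : Om k) (hw : w ∈ M) (hw' : sh n w ∈ M) :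
    mkM hM (sh n w) hw' = sh n (mkM hM w hw) := rfl

theorem cont_mk {A : Type} [TopologicalSpace A] (f : A → Om k) (hf : Continuous f)
    (h : ∀ a, f a ∈ M) : Continuous fun a => mkM hM (f a) (h a) :=
  (hf.subtype_mk h : Continuous fun a => (⟨f a, h a⟩ : {w : Om k // w ∈ M}))

section

variable {k n : ℕ} {X : Type} [TopologicalSpace X] [MeasurableSpace X] [CS X] [Sys X]
  {M : Set (Om k)} {π : Om k → X} (hM : MinSet M)

/-- the positions are continuous -/
theorem cont_pos (hP : Po M π) : Continuous fun w : SysM hM => π (oM hM w) := by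
  have h1 : ContinuousOn π M := hP.cont
  exact h1.comp_continuous (cont_oM hM) (oM_mem hM)

/-- the function on tuples of words -/
noncomputable def G (g : (Fin n → SysM hM) → ℝ) (u : Fin n → Om k) : ℝ := by
  classical exact if h : ∀ i, u i ∈ M then g (fun i => mkM hM (u i) (h i)) else 0

theorem G_eq (g : (Fin n → SysM hM) → ℝ) (u : Fin n → Om k) (h : ∀ i, u i ∈ M) :
    G hM g u = g (fun i => mkM hM (u i) (h i)) := by
  unfold G
  rw [dif_pos h]

/-- the pseudometric on words -/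
noncomputable def R (ρ : SysM hM → SysM hM → ℝ) (w w' : Om k) (_ : X) : ℝ := by
  classical exact if h : w ∈ M ∧ w' ∈ M then ρ (mkM hM w h.1) (mkM hM w' h.2) else 0

theorem R_eq (ρ : SysM hM → SysM hM → ℝ) (w w' : Om k) (v : X) (h : w ∈ M) (h' : w' ∈ M) :
    R hM ρ w w' v = ρ (mkM hM w h) (mkM hM w' h') := by
  unfold R
  rw [dif_pos ⟨h, h'⟩]

theorem ipb (ρ : SysM hM → SysM hM → ℝ) (hρ : CI (fun w => π (oM hM w)) ρ) :
    IPB (gr M π) (R (X := X) hM ρ) where
  cont := by
    rw [continuousOn_iff_continuous_domRestrict]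
    let S : Set (Om k × Om k × X) := {p | (p.1, p.2.2) ∈ gr M π ∧ (p.2.1, p.2.2) ∈ gr M π}
    let T : Set (SysM hM × SysM hM) := {q | π (oM hM q.1) = π (oM hM q.2)}
    have hT : Continuous (T.domRestrict fun q => ρ q.1 q.2) :=
      continuousOn_iff_continuous_domRestrict.1 hρ.cont
    have h1 : ∀ p : S, p.1.1 ∈ M := fun p => p.2.1.1
    have h2 : ∀ p : S, p.1.2.1 ∈ M := fun p => p.2.2.1
    have c1 : Continuous fun p : S => mkM hM p.1.1 (h1 p) :=
      cont_mk hM (fun p : S => p.1.1) (by fun_prop) h1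
    have c2 : Continuous fun p : S => mkM hM p.1.2.1 (h2 p) :=
      cont_mk hM (fun p : S => p.1.2.1) (by fun_prop) h2
    have h3 : ∀ p : S, (mkM hM p.1.1 (h1 p), mkM hM p.1.2.1 (h2 p)) ∈ T := by
      intro p
      have e1 : p.1.2.2 = π p.1.1 := p.2.1.2
      have e2 : p.1.2.2 = π p.1.2.1 := p.2.2.2
      change π p.1.1 = π p.1.2.1
      rw [← e1, ← e2]
    have c3 : Continuous fun p : S =>
        (⟨(mkM hM p.1.1 (h1 p), mkM hM p.1.2.1 (h2 p)), h3 p⟩ : T) :=
      (c1.prodMk c2).subtype_mk h3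
    refine (hT.comp c3).congr ?_
    intro p
    exact (R_eq hM ρ p.1.1 p.1.2.1 p.1.2.2 (h1 p) (h2 p)).symm
  inv n x u u' h h' := by
    have hi := hM.inv n u h.1
    have hi' := hM.inv n u' h'.1
    rw [R_eq hM ρ _ _ _ hi hi', R_eq hM ρ _ _ _ h.1 h'.1, mk_sh hM n u h.1 hi,
      mk_sh hM n u' h'.1 hi']
    refine hρ.inv n _ _ ?_
    change π u = π u'
    have e1 : x = π u := h.2
    have e2 : x = π u' := h'.2
    rw [← e1, ← e2]
  self x u h := by
    rw [R_eq hM ρ _ _ _ h.1 h.1]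
    exact hρ.self _
  nonneg x u u' h h' := by
    rw [R_eq hM ρ _ _ _ h.1 h'.1]
    refine hρ.nonneg _ _ ?_
    change π u = π u'
    have e1 : x = π u := h.2
    have e2 : x = π u' := h'.2
    rw [← e1, ← e2]
  symm x u u' h h' := by
    rw [R_eq hM ρ _ _ _ h.1 h'.1, R_eq hM ρ _ _ _ h'.1 h.1]
    refine hρ.symm _ _ ?_
    change π u = π u'
    have e1 : x = π u := h.2
    have e2 : x = π u' := h'.2
    rw [← e1, ← e2]
  tri x u u' u'' h h' h'' := by
    rw [R_eq hM ρ _ _ _ h.1 h'.1, R_eq hM ρ _ _ _ h'.1 h''.1, R_eq hM ρ _ _ _ h.1 h''.1]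
    have e1 : x = π u := h.2
    have e2 : x = π u' := h'.2
    have e3 : x = π u'' := h''.2
    refine hρ.tri _ _ _ ?_ ?_
    · change π u = π u'
      rw [← e1, ← e2]
    · change π u' = π u''
      rw [← e2, ← e3]

theorem isoF (hP : Po M π) (g : (Fin n → SysM hM) → ℝ) (hg : ISO n (fun w => π (oM hM w)) g)
    (ρ : SysM hM → SysM hM → ℝ)
    (hfac : ∀ u ∈ CC n (fun w => π (oM hM w)), ∀ u' ∈ CC n (fun w => π (oM hM w)),
      (∀ i, π (oM hM (u i)) = π (oM hM (u' i))) → (∀ i, ρ (u i) (u' i) = 0) → g u = g u') :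
    IsoF n M π (R (X := X) hM ρ) (G hM g) where
  cont := by
    rw [continuousOn_iff_continuous_domRestrict]
    have h1 : ∀ (u : CM n M π) (i : Fin n), u.1 i ∈ M := fun u i => u.2.1 i
    have c1 : Continuous fun (u : CM n M π) (i : Fin n) => mkM hM (u.1 i) (h1 u i) := by
      refine continuous_pi fun i => ?_
      exact cont_mk hM (fun u : CM n M π => u.1 i)
        ((continuous_apply i).comp continuous_subtype_val) fun u => h1 u i
    refine (hg.cont.comp c1).congr ?_
    intro u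
    exact (G_eq hM g u.1 (h1 u)).symm
  inv u hu := by
    have h1 : ∀ i, sh 1 (u i) ∈ M := fun i => hM.inv 1 _ (hu.1 i)
    rw [G_eq hM g _ h1, G_eq hM g _ hu.1]
    exact hg.inv (fun i => mkM hM (u i) (hu.1 i)) hu.2
  fac u hu u' hu' h := by
    rw [G_eq hM g _ hu.1, G_eq hM g _ hu'.1]
    refine hfac _ hu.2 _ hu'.2 (fun i => (h i).1) fun i => ?_
    have h2 := (h i).2
    rwa [R_eq hM ρ _ _ _ (hu.1 i) (hu'.1 i)] at h2

end

end I_RFG

open I_RFG in
theorem RFG_pf (hLGR : S_LGR) : S_RFG := by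
  intro k n X _ _ _ _ M π hM hP hTop g hg hg01
  obtain ⟨ρ, hρ, hfac⟩ := hg.fac
  have h1 := hTop (R (X := X) hM ρ) (ipb hM ρ hρ) (G hM g) (isoF hM hP g hg ρ hfac)
  obtain ⟨-, -, -, -, -, hlift, -⟩ := hLGR k n X M π hP
  -- tuples over a progression
  have hlift' : ∀ z ∈ PG n X, ∃ u ∈ CC n (fun w => π (oM hM w)), ∀ i, π (oM hM (u i)) = z i := by
    intro z hz
    obtain ⟨u, hu, huz⟩ := hlift z hz
    exact ⟨fun i => mkM hM (u i) (hu.1 i), hu.2, huz⟩
  have hdep : ∀ u ∈ CC n (fun w => π (oM hM w)), ∀ u' ∈ CC n (fun w => π (oM hM w)),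
      (∀ i, π (oM hM (u i)) = π (oM hM (u' i))) → g u = g u' := by
    intro u hu u' hu' h
    have e1 := G_eq hM g (fun i => oM hM (u i)) (fun i => oM_mem hM (u i))
    have e2 := G_eq hM g (fun i => oM hM (u' i)) (fun i => oM_mem hM (u' i))
    have h2 := h1 (fun i => oM hM (u i)) ⟨fun i => oM_mem hM (u i), hu⟩
      (fun i => oM hM (u' i)) ⟨fun i => oM_mem hM (u' i), hu'⟩ h
    rw [e1, e2] at h2
    exact h2
  -- the quotient map
  have hpos : Continuous fun (u : Fin n → SysM hM) (i : Fin n) => π (oM hM (u i)) :=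
    continuous_pi fun i => (cont_pos hM hP).comp (continuous_apply i)
  have hPGc : IsClosed (PG n X) := isClosed_closure
  have hCC : IsClosed (CC n (fun w : SysM hM => π (oM hM w))) := hPGc.preimage hpos
  have hcomp : CompactSpace (CC n (fun w : SysM hM => π (oM hM w))) :=
    isCompact_iff_compactSpace.1 hCC.isCompact
  let φ : CC n (fun w : SysM hM => π (oM hM w)) → PG n X :=
    fun u => ⟨fun i => π (oM hM (u.1 i)), u.2⟩
  have hφc : Continuous φ := (hpos.comp continuous_subtype_val).subtype_mk _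
  have hφs : Function.Surjective φ := by
    intro z
    obtain ⟨u, hu, huz⟩ := hlift' z.1 z.2
    exact ⟨⟨u, hu⟩, Subtype.ext (funext huz)⟩
  have hφq : IsQuotientMap φ := hφc.isClosedMap.isQuotientMap hφc hφs
  choose s hs using hφs
  have hgφ : ∀ u, g (s (φ u)).1 = g u.1 := by
    intro u
    refine hdep _ (s (φ u)).2 _ u.2 fun i => ?_
    exact congrFun (congrArg Subtype.val (hs (φ u))) i
  have hĝc : Continuous fun z : PG n X => g (s z).1 := by
    rw [hφq.continuous_iff]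
    exact (hg.cont.comp continuous_subtype_val).congr fun u => (hgφ u).symm
  obtain ⟨g', hg'1, hg'2⟩ := ContinuousMap.exists_restrict_eq_forall_mem_of_closed
    (⟨fun z : PG n X => g (s z).1, hĝc⟩ : C(PG n X, ℝ)) (t := Set.Icc 0 1)
    (fun z => hg01 _) ⟨0, by simp⟩ hPGc
  have hg'3 : ∀ u ∈ CC n (fun w => π (oM hM w)), g u = g' fun i => π (oM hM (u i)) := by
    intro u hu
    have e1 := congrFun (congrArg (fun f : C(PG n X, ℝ) => (f : PG n X → ℝ)) hg'2) (φ ⟨u, hu⟩)
    have e2 : g' (fun i => π (oM hM (u i))) = g (s (φ ⟨u, hu⟩)).1 := e1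
    rw [e2, hgφ ⟨u, hu⟩]
  refine ⟨g', ⟨g'.continuous, ?_, fun x => hg'1 x⟩, hg'3⟩
  intro z hz
  obtain ⟨u, hu, huz⟩ := hlift' z hz
  have hzu : z = fun i => π (oM hM (u i)) := funext fun i => (huz i).symm
  have hsh : (fun i => sh 1 (u i)) ∈ CC n (fun w : SysM hM => π (oM hM w)) := by
    have e1 : (fun i => π (oM hM (sh 1 (u i)))) = fun i => sh 1 (z i) := by
      funext i
      rw [← huz i]
      exact hP.equi _ (oM_mem hM (u i)) 1
    change (fun i => π (oM hM (sh 1 (u i)))) ∈ PG n X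
    rw [e1]
    have hc : Continuous fun y : Fin n → X => fun i => sh 1 (y i) :=
      continuous_pi fun i => (sh_cont 1).comp (continuous_apply i)
    refine map_mem_closure hc hz ?_
    rintro y ⟨a, x, rfl⟩
    refine ⟨a + (1, 0), x, ?_⟩
    funext i
    change sh 1 (sh (pf ((i : ℕ) : ℤ) a) x) = sh (pf ((i : ℕ) : ℤ) (a + (1, 0))) x
    rw [← sh_add]
    congr 1
    simp [pf]
    ring
  have e3 := hg'3 _ hsh
  have e4 := hg.inv u hu
  have e5 : tsh 1 z = fun i => π (oM hM (sh 1 (u i))) := by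
    funext i
    change sh 1 (z i) = _
    rw [← huz i]
    exact (hP.equi _ (oM_mem hM (u i)) 1).symm
  rw [e5, ← e3, e4, hg'3 u hu, ← hzu]

end Pool.Agent.Work.MP_69fea5_lc.W3
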