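import Pool.Agent.Work.MP_69fea5_lc.W3.StmtsV2

/-!
# [69fea5 V2 RHS] the support of the law of tuples of measures
-/

set_option autoImplicit false

namespace Pool.Agent.Work.MP_69fea5_lc.W3

open MeasureTheory Topology Set Filter ProbabilityTheory TopologicalSpace
open scoped NNReal ENNReal
open Pool.Agent.Work.MP_69fea5_lc.AK
open Pool.Agent.Work.MP_69fea5_lc.HK (Cl DU Ar ArF ArR Dat Law LawC act near sc Pt oc Mn mr ext)

namespace I_RHS

/-- the support of a measure -/
def sp {Z : Type} [TopologicalSpace Z] [MeasurableSpace Z] (ρ : Measure Z) : Set Z :=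
  {y | ∀ U : Set Z, IsOpen U → y ∈ U → ρ U ≠ 0}

section sp

variable {Z : Type} [TopologicalSpace Z] [MeasurableSpace Z] {ρ : Measure Z}

theorem sp_closed : IsClosed (sp ρ) := by
  rw [← isOpen_compl_iff, isOpen_iff_forall_mem_open]
  intro y hy
  have hy' : ¬ ∀ U : Set Z, IsOpen U → y ∈ U → ρ U ≠ 0 := hy
  push Not at hy'
  obtain ⟨U, hU, hyU, h0⟩ := hy'
  exact ⟨U, fun z hz h => h U hU hz h0, hU, hyU⟩

theorem sp_meets [SecondCountableTopology Z] {U : Set Z} (hU : IsOpen U) (h : ρ U ≠ 0) :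
    (U ∩ sp ρ).Nonempty := by
  by_contra hcon
  apply h
  refine measure_null_of_locally_null U fun y hy => ?_
  have hy1 : y ∉ sp ρ := fun h => hcon ⟨y, hy, h⟩
  have hy' : ¬ ∀ U : Set Z, IsOpen U → y ∈ U → ρ U ≠ 0 := hy1
  push Not at hy'
  obtain ⟨V, hV, hyV, h0⟩ := hy'
  exact ⟨V, mem_nhdsWithin_of_mem_nhds (hV.mem_nhds hyV), h0⟩

theorem sp_inv [BorelSpace Z] {f : Z → Z} (hf : Continuous f) (h : ρ.map f = ρ) {y : Z}
    (hy : y ∈ sp ρ) : f y ∈ sp ρ := by
  intro U hU hyU
  rw [← h, Measure.map_apply hf.measurable hU.measurableSet]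
  exact hy _ (hU.preimage hf) hyU

end sp

/-- the powers of the shift of the coordinates -/
def ff {X : Type} [TopologicalSpace X] [Sys X] {n : ℕ} (m : ℤ) (z : Fin (n + 1) → X) :
    Fin (n + 1) → X := fun j => sh ((((j : ℕ) : ℤ) + 1) * m) (z j)

theorem ff_add {X : Type} [TopologicalSpace X] [Sys X] {n : ℕ} (a b : ℤ)
    (z : Fin (n + 1) → X) : ff (a + b) z = ff a (ff b z) := by
  funext j
  change (sh ((((j : ℕ) : ℤ) + 1) * (a + b)) (z j) : X) = sh _ (sh _ (z j))
  rw [← sh_add]
  congr 1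
  ring

theorem ff_zero {X : Type} [TopologicalSpace X] [Sys X] {n : ℕ}
    (z : Fin (n + 1) → X) : ff 0 z = z := by
  funext j
  change (sh ((((j : ℕ) : ℤ) + 1) * 0) (z j) : X) = z j
  rw [mul_zero, sh_zero]

theorem ff_cont {X : Type} [TopologicalSpace X] [Sys X] {n : ℕ} (m : ℤ) :
    Continuous (ff m : (Fin (n + 1) → X) → Fin (n + 1) → X) :=
  continuous_pi fun j => (sh_cont _).comp (continuous_apply j)

theorem ff_map {X : Type} [TopologicalSpace X] [MeasurableSpace X] [CS X] [Sys X] {n : ℕ}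
    (Q : Measure (Fin (n + 1) → X)) (h : Q.map (ff 1) = Q) (m : ℤ) : Q.map (ff m) = Q := by
  have hid : Q.map (ff 0) = Q := by
    have : (ff 0 : (Fin (n + 1) → X) → Fin (n + 1) → X) = id := funext fun z => ff_zero z
    rw [this, Measure.map_id]
  have hcomp : ∀ a b : ℤ, (Q.map (ff b)).map (ff a) = Q.map (ff (a + b)) := by
    intro a b
    rw [Measure.map_map (ff_cont a).measurable (ff_cont b).measurable]
    congr 1
    exact funext fun z => (ff_add a b z).symm
  induction m using Int.induction_on with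
  | zero => exact hid
  | succ i hi =>
    rw [← hcomp, h, hi]
  | pred i hi =>
    have h1 := hcomp (-(i : ℤ) - 1) 1
    rw [h] at h1
    rw [h1]
    have : -(i : ℤ) - 1 + 1 = -i := by ring
    rw [this, hi]

end I_RHS

open I_RHS in
theorem RHS_pf (hPMB : AK.S_PMB) (hVLP : S_VLP) (hVLE : S_VLE) (hRHC : S_RHC) : S_RHS := by
  intro k n X _ _ _ _ M π lam μ η Y θ ζ K v₀ hM hY hYQ hBar hCH hnull
  obtain ⟨C, hC⟩ := hCH.dom
  have hdom := hC v₀
  obtain ⟨hprob, -, -, hmem, hpos, -⟩ :=
    hVLP (X × PM k) X Y Prod.fst lam θ ζ hY (n + 1) (K v₀ : Measure (Fin (n + 1) → X)) C hdom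
  set ρ : Measure (Fin (n + 1) → X × PM k) := lif ζ (K v₀ : Measure (Fin (n + 1) → X)) with hρ
  have hYc : IsClosed Y := hY.min.closed
  have hinv : ∀ m : ℤ, ρ.map (ff m) = ρ := by
    intro m
    have h1 := hVLE (X × PM k) X Y Prod.fst lam θ ζ hY hCH.linv (n + 1)
      (K v₀ : Measure (Fin (n + 1) → X)) C hdom fun j => (((j : ℕ) : ℤ) + 1) * m
    have h2 : (K v₀ : Measure (Fin (n + 1) → X)).map (ff m) = K v₀ := by
      refine ff_map _ ?_ m
      have h3 := hCH.kt v₀
      have h4 : (ff 1 : (Fin (n + 1) → X) → Fin (n + 1) → X) =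
          fun z (j : Fin (n + 1)) => sh (((j : ℕ) : ℤ) + 1) (z j) := by
        funext z j
        change (sh ((((j : ℕ) : ℤ) + 1) * 1) (z j) : X) = _
        rw [mul_one]
      rw [h4]
      exact h3
    have h5 : ρ.map (ff m) = lif ζ ((K v₀ : Measure (Fin (n + 1) → X)).map (ff m)) := h1
    rw [h5, h2]
  let SS : Set (Fin (n + 1) → X × PM k) := sp ρ
  have hSSc : IsClosed SS := sp_closed
  refine ⟨SS, hSSc, ?_, ?_, ?_, ?_⟩
  · intro m y hy
    exact sp_inv (ff_cont m) (hinv m) hy
  · intro y hy j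
    by_contra hcon
    have hU : IsOpen {y' : Fin (n + 1) → X × PM k | y' j ∈ Yᶜ} :=
      hYc.isOpen_compl.preimage (continuous_apply j)
    refine hy _ hU hcon ?_
    refine measure_mono_null (fun y' hy' => ?_) (ae_iff.1 hmem)
    intro h
    exact hy' (h j)
  · intro y hy r
    by_contra hcon
    push Not at hcon
    have hclop : IsClopen {z : Om k | z 0 = r} :=
      (isClopen_discrete ({r} : Set (Fin k))).preimage (continuous_apply (0 : ℤ))
    have hcont : ∀ j : Fin (n + 1), Continuous fun y : Fin (n + 1) → X × PM k =>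
        (y j).2 {z : Om k | z 0 = r} := fun j =>
      ((hPMB k).2.2.1 _ hclop).comp (continuous_snd.comp (continuous_apply j))
    have hU : IsOpen {y : Fin (n + 1) → X × PM k | ∀ j, 0 < (y j).2 {z : Om k | z 0 = r}} := by
      have : {y : Fin (n + 1) → X × PM k | ∀ j, 0 < (y j).2 {z : Om k | z 0 = r}} =
          ⋂ j, {y | 0 < (y j).2 {z : Om k | z 0 = r}} := by
        ext y
        simp
      rw [this]
      exact isOpen_iInter_of_finite fun j => isOpen_lt continuous_const (hcont j)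
    refine hy _ hU (fun j => pos_iff_ne_zero.2 (hcon j)) ?_
    have h1 := hRHC k (n + 1) X M π lam μ η Y θ ζ hM hY hYQ hBar
      (K v₀ : Measure (Fin (n + 1) → X)) C hdom (fun _ => {z | z 0 = r})
      fun _ => hclop.1.measurableSet
    rw [hnull r] at h1
    have hmeas : Measurable fun y : Fin (n + 1) → X × PM k =>
        ∏ i, ((y i).2 : Measure (Om k)) {z : Om k | z 0 = r} := by
      refine Finset.measurable_prod _ fun i _ => ?_
      have h2 : Measurable fun m : PM k => (m : Measure (Om k)) {z : Om k | z 0 = r} :=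
        (Measure.measurable_coe hclop.1.measurableSet).comp measurable_subtype_coe
      exact h2.comp (measurable_snd.comp (measurable_pi_apply i))
    have h3 := (lintegral_eq_zero_iff hmeas).1 h1.symm
    refine measure_mono_null (fun y' hy' => ?_) (ae_iff.1 h3)
    have hy'' : ∀ j, 0 < (y' j).2 {z : Om k | z 0 = r} := hy'
    change ¬ (∏ i, ((y' i).2 : Measure (Om k)) {z : Om k | z 0 = r} = 0)
    rw [Finset.prod_eq_zero_iff]
    rintro ⟨j, -, hj⟩
    have h4 : (y' j).2 {z : Om k | z 0 = r} = 0 :=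
      (ProbabilityMeasure.null_iff_toMeasure_null _ _).2 hj
    have h5 := hy'' j
    rw [h4] at h5
    exact lt_irrefl _ h5
  · have hcomp : IsCompact (sp ρ) := sp_closed.isCompact
    have hfc : Continuous fun (y : Fin (n + 1) → X × PM k) j => (y j).1 :=
      continuous_pi fun j => continuous_fst.comp (continuous_apply j)
    have himg : IsClosed ((fun (y : Fin (n + 1) → X × PM k) j => (y j).1) '' sp ρ) :=
      (hcomp.image hfc).isClosed
    have hmemc : (fun _ : Fin (n + 1) => v₀) ∈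
        ((fun (y : Fin (n + 1) → X × PM k) j => (y j).1) '' sp ρ) := by
      rw [← himg.closure_eq, mem_closure_iff]
      intro W hW hvW
      obtain ⟨u, hu1, hu2⟩ := isOpen_pi_iff'.1 hW _ hvW
      have hUo : IsOpen (⋂ i, u i) := isOpen_iInter_of_finite fun i => (hu1 i).1
      have hvU : v₀ ∈ ⋂ i, u i := mem_iInter.2 fun i => (hu1 i).2
      have h1 := hCH.dia v₀ _ hUo hvU
      have h2 : ρ {y | (fun i => (y i).1) ∈ (univ.pi fun _ => ⋂ i, u i)} ≠ 0 := by
        rw [hpos (univ.pi fun _ => ⋂ i, u i)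
          (MeasurableSet.univ_pi fun _ => hUo.measurableSet)]
        intro h3
        have h4 := (ProbabilityMeasure.null_iff_toMeasure_null (K v₀)
          (univ.pi fun _ => ⋂ i, u i)).2 h3
        rw [h4] at h1
        exact lt_irrefl _ h1
      have h5 : IsOpen {y : Fin (n + 1) → X × PM k |
          (fun i => (y i).1) ∈ (univ.pi fun _ => ⋂ i, u i)} :=
        (isOpen_set_pi finite_univ fun _ _ => hUo).preimage hfc
      obtain ⟨y, hy1, hy2⟩ := sp_meets h5 h2
      refine ⟨fun i => (y i).1, hu2 fun i _ => ?_, ⟨y, hy2, rfl⟩⟩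
      exact mem_iInter.1 (hy1 i trivial) i
    obtain ⟨y, hy, hyv⟩ := hmemc
    exact ⟨y, hy, fun j => congrFun hyv j⟩

end Pool.Agent.Work.MP_69fea5_lc.W3
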