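import Pool.Agent.Work.MP_69fea5_lc.W3.StmtsM

/-!
Block [69fea5 F], main line, item SLG: a coded good chain gives a solution.
-/

set_option autoImplicit false

namespace Pool.Agent.Work.MP_69fea5_lc.W3

open MeasureTheory Topology Set Filter TopologicalSpace
open scoped NNReal ENNReal
open Pool.Agent.Work.MP_69fea5_lc.AK
open Pool.Agent.Work.MP_69fea5_lc.HK (Cl DU Ar ArF ArR Dat Law LawC act near sc Pt oc Mn mr ext)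
open Pool.Agent.Work.MP_69fea5_lc.KC (Agree)

theorem SLG_pf (hKDC : S_KDC) (hCHE : S_CHE) (hGRS : S_GRS) (hCI3 : N3.S_CI3) : S_SLG := by
  intro S U hS hU k c hcf hc j X _ _ _ _ _ A x A₁ v A₂ w m₃ l₀ AE hTD v₁ hv₁ hv₁' hz C ξ hξ hch hg1
    hg2
  have hw : Pt S w.1 := hTD.l2.cb1.pt
  have hb1 : Pt S ξ.2.1 := ((pt_prod).1 ((pt_prod).1 hξ).2).1
  have hb2 : Pt S ξ.2.2.1 := ((pt_prod).1 ((pt_prod).1 ((pt_prod).1 hξ).2).2).1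
  obtain ⟨κ1, hκ1, hp1, hc1⟩ := hKDC S U hS hU k (WF k X × PM k) w.1 m₃ ξ.2.1 C hw hTD.pt3 hb1 hg1
  obtain ⟨κ2, hκ2, hp2, hc2⟩ := hKDC S U hS hU k (WF k X × PM k) w.1 m₃ ξ.2.2.1 C hw hTD.pt3 hb2 hg2
  obtain ⟨F1, F2, hG⟩ := hCHE S k (ext c) j X A x A₁ v A₂ w m₃ l₀ AE hTD v₁ hv₁ hv₁' hz C ξ hch κ1 κ2
    hκ1 hκ2 hp1 hp2
  obtain ⟨ν, hν, hnc, hgr⟩ := hGRS S hS k (ext c) κ1 κ2 F1 F2 hc1 hc2 hG
  exact hCI3 S hS k c ν hcf hc hnc hgr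

end Pool.Agent.Work.MP_69fea5_lc.W3
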