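import Pool.Agent.Work.MP_69fea5_lc.W3.StmtsT

/-!
# Block [69fea5 T], item SPT: the support of a measure
-/

set_option autoImplicit false

namespace Pool.Agent.Work.MP_69fea5_lc.W3

open MeasureTheory Topology Set Filter TopologicalSpace
open scoped NNReal ENNReal
open Pool.Agent.Work.MP_69fea5_lc.AK

theorem SPT_pf : S_SPT := by
  intro O _ _ _ m
  intro s
  have hcl : IsClosed s := by
    rw [← isOpen_compl_iff, isOpen_iff_mem_nhds]
    intro z hz
    have hz' : ∃ U, IsOpen U ∧ z ∈ U ∧ ¬ 0 < m U := by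
      by_contra h
      push Not at h
      exact hz fun U hU hzU => h U hU hzU
    obtain ⟨U, hU, hzU, h0⟩ := hz'
    refine Filter.mem_of_superset (hU.mem_nhds hzU) fun y hy hys => ?_
    exact h0 (hys U hU hy)
  have hnull : (m : Measure O) sᶜ = 0 := by
    have : SecondCountableTopology O := by
      let _ := TopologicalSpace.metrizableSpaceMetric O
      infer_instance
    refine MeasureTheory.measure_null_of_locally_null _ fun z hz => ?_
    have hz' : ∃ U, IsOpen U ∧ z ∈ U ∧ ¬ 0 < m U := by
      by_contra h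
      push Not at h
      exact hz fun U hU hzU => h U hU hzU
    obtain ⟨U, hU, hzU, h0⟩ := hz'
    refine ⟨U, mem_nhdsWithin_of_mem_nhds (hU.mem_nhds hzU), ?_⟩
    have h1 : m U = 0 := le_antisymm (not_lt.mp h0) bot_le
    rw [← ProbabilityMeasure.ennreal_coeFn_eq_coeFn_toMeasure, h1]
    simp
  have hone : m s = 1 := by
    have h2 : (m : Measure O) s = 1 := by
      have := (prob_compl_eq_zero_iff (μ := (m : Measure O)) hcl.measurableSet).1 hnull
      exact this
    have h3 : ((m s : ℝ≥0) : ℝ≥0∞) = 1 := by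
      rw [ProbabilityMeasure.ennreal_coeFn_eq_coeFn_toMeasure]; exact h2
    exact_mod_cast h3
  refine ⟨hcl, hone, ?_, ?_⟩
  · rw [Set.nonempty_iff_ne_empty]
    intro h
    rw [h] at hone
    simp at hone
  · intro F hF hF1 z hz
    by_contra hzF
    have h4 := hz Fᶜ hF.isOpen_compl hzF
    have h5 : (m : Measure O) F = 1 := by
      rw [← ProbabilityMeasure.ennreal_coeFn_eq_coeFn_toMeasure, hF1]; simp
    have h6 : (m : Measure O) Fᶜ = 0 := (prob_compl_eq_zero_iff hF.measurableSet).2 h5
    have h7 : m Fᶜ = 0 := by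
      have : ((m Fᶜ : ℝ≥0) : ℝ≥0∞) = 0 := by
        rw [ProbabilityMeasure.ennreal_coeFn_eq_coeFn_toMeasure]; exact h6
      exact_mod_cast this
    rw [h7] at h4
    exact lt_irrefl _ h4

end Pool.Agent.Work.MP_69fea5_lc.W3
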