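import Pool.Agent.Work.MP_69fea5_lc.W3.StmtsM

/-!
Block [69fea5 F], main line, item STF: the step of the induction on the number of colours.
-/

set_option autoImplicit false

namespace Pool.Agent.Work.MP_69fea5_lc.W3

open MeasureTheory Topology Set Filter TopologicalSpace
open scoped NNReal ENNReal
open Pool.Agent.Work.MP_69fea5_lc.AK
open Pool.Agent.Work.MP_69fea5_lc.HK (Cl DU Ar ArF ArR Dat Law LawC act near sc Pt oc Mn mr ext)
open Pool.Agent.Work.MP_69fea5_lc.KC (Agree)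

/-- the two points of a pair in the orbit closure lie over the same point -/
theorem fst_eq_of_mem {Y T : Type} [TopologicalSpace Y] [T2Space Y] [Sys Y] [TopologicalSpace T]
    [Sys T] (hORB : AK.S_ORB) {v v₁ : Y × T} (h : v₁.1 = v.1) {p : (Y × T) × (Y × T)}
    (hp : p ∈ orb (v, v₁)) : p.1.1 = p.2.1 := by
  obtain ⟨-, -, -, h4, -⟩ := hORB ((Y × T) × (Y × T)) (v, v₁)
  refine h4 {p | p.1.1 = p.2.1} ?_ ?_ h.symm hp
  · exact isClosed_eq (continuous_fst.comp continuous_fst) (continuous_fst.comp continuous_snd)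
  · intro n q hq
    have hq' : q.1.1 = q.2.1 := hq
    show sh n q.1.1 = sh n q.2.1
    rw [hq']

theorem STF_pf (hORB : AK.S_ORB) (hTDX : S_TDX) (hTDF : S_TDF) (hTUX : S_TUX) (hMIX : S_MIX) (hTRN : S_TRN)
    (hBAD : S_BAD) (hSLG : S_SLG) : S_STF := by
  intro S U hS hU k c hcf hc hno j hPsi X _ _ _ _ _ A x hcb
  obtain ⟨A₁, v, A₂, w, m₃, l₀, AE, hTD⟩ := hTDX S U hS hU k (ext c) hc j hPsi X A x hcb
  obtain ⟨v₁, vl, e, hT⟩ := hTUX S U hS hU k (ext c) hc j X A x A₁ v A₂ w m₃ l₀ AE hTD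
  obtain ⟨hM1, -, hM3, hM4⟩ := hMIX
  obtain ⟨m₀, hm₀, -, -⟩ := hM1 k X e
  obtain ⟨-, -, -, hF2, -⟩ := hTDF S k (ext c) j X A x A₁ v A₂ w m₃ l₀ AE hTD
  refine ⟨m₀, hM3 S hS k X e m₀ hT.pte hm₀, ?_, ?_⟩
  · -- carried by the fibre
    have hx : ∀ p : ℕ × ℕ, (qE (e p).1).1.1 = x ∧ (qE (e p).2.1).1.1 = x ∧
        (qE (e p).2.2.1).1.1 = x ∧ (qE (e p).2.2.2).1.1 = x := by
      rintro ⟨i, l⟩
      have h0 : (qE (e (i, l)).1).1 = v.1 := by rw [hT.q0 i l]; exact (hT.ml l).2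
      obtain ⟨c1, c2, c3⟩ := hT.ce i l
      have h1 : (qE (e (i, l)).2.1).1 = v.1 :=
        (fst_eq_of_mem hORB (hT.m1 i).2 c1).symm.trans h0
      have h2 : (qE (e (i, l)).2.2.1).1 = v.1 :=
        (fst_eq_of_mem hORB (hT.m1 i).2 c2).symm.trans h1
      have h3 : (qE (e (i, l)).2.2.2).1 = v.1 :=
        (fst_eq_of_mem hORB (hT.m1 i).2 c3).symm.trans h2
      have hv := hTD.l1.fst
      exact ⟨by rw [h0, hv], by rw [h1, hv], by rw [h2, hv], by rw [h3, hv]⟩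
    have hcl : IsClosed {u | (u, x) ∈ A} := by
      have := hcb.min.closed
      exact this.preimage (Continuous.prodMk continuous_id continuous_const :
        Continuous fun u : Om k => (u, x))
    have hz : ∀ a : XE k X, a ∈ orb (w.1, l₀) → (qE a).1.1 = x → a.2 {u | (u, x) ∈ A}ᶜ = 0 := by
      intro a ha hax
      obtain ⟨-, -, h3⟩ := hF2 a ha
      rw [hax] at h3
      have h4 : (a.2 : Measure (Om k)) {u | (u, x) ∈ A} = 1 := by
        rw [← ProbabilityMeasure.ennreal_coeFn_eq_coeFn_toMeasure, h3]; rfl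
      have h5 : (a.2 : Measure (Om k)) {u | (u, x) ∈ A}ᶜ = 0 :=
        (prob_compl_eq_zero_iff hcl.measurableSet).2 h4
      exact (ProbabilityMeasure.null_iff_toMeasure_null _ _).2 h5
    have h0 : m₀ {u | (u, x) ∈ A}ᶜ = 0 := by
      rw [hM4 k X e m₀ _ hcl.measurableSet.compl hm₀]
      intro p
      obtain ⟨a1, a2, a3, a4⟩ := hT.me p
      obtain ⟨b1, b2, b3, b4⟩ := hx p
      exact ⟨hz _ a1 b1, hz _ a2 b2, hz _ a3 b3, hz _ a4 b4⟩
    have h1 : (m₀ : Measure (Om k)) {u | (u, x) ∈ A}ᶜ = 0 :=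
      (ProbabilityMeasure.null_iff_toMeasure_null _ _).1 h0
    have h2 : (m₀ : Measure (Om k)) {u | (u, x) ∈ A} = 1 :=
      (prob_compl_eq_zero_iff hcl.measurableSet).1 h1
    rw [← ProbabilityMeasure.ennreal_coeFn_eq_coeFn_toMeasure] at h2
    exact_mod_cast h2
  · intro x' m' hx' hm' horb hex
    by_contra hlt
    push Not at hlt
    obtain ⟨v', ξ, hξ, hch⟩ := hTRN S U hS hU k (ext c) hc j X A x A₁ v A₂ w m₃ l₀ AE hTD v₁ vl e hT
      m₀ hm₀ x' m' hx' hm' horb hex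
    by_cases hg : ∃ i, Good (orb (w.1, m₃)) (pal m') (ξ i).2.1 ∧
        Good (orb (w.1, m₃)) (pal m') (ξ i).2.2.1
    · obtain ⟨i, hg1, hg2⟩ := hg
      exact hno (hSLG S U hS hU k c hcf hc j X A x A₁ v A₂ w m₃ l₀ AE hTD (v₁ i) (hT.m1 i).1
        (hT.m1 i).2 (hT.z1 i) (pal m') (ξ i) (sc_pt hS hξ i) (hch i).2 hg1 hg2)
    · push Not at hg
      have hbad : (∀ᶠ i in (U : Filter ℕ), ¬ Good (orb (w.1, m₃)) (pal m') (ξ i).2.1) ∨
          ∀ᶠ i in (U : Filter ℕ), ¬ Good (orb (w.1, m₃)) (pal m') (ξ i).2.2.1 := by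
        rw [← Ultrafilter.eventually_or]
        exact Eventually.of_forall fun i => by
          by_cases h : Good (orb (w.1, m₃)) (pal m') (ξ i).2.1
          · exact Or.inr (hg i h)
          · exact Or.inl h
      obtain ⟨w', m, hw', hm, hwm, hexw, hcard⟩ := hBAD S U hS hU k (ext c) hc j X A x A₁ v A₂ w m₃
        l₀ AE hTD v₁ vl e hT (pal m') v' ξ hξ hch hbad
      have := hTD.psi w' m hw' hm hwm hexw
      omega

end Pool.Agent.Work.MP_69fea5_lc.W3
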