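import Pool.Agent.Work.MP_69fea5_lc.W3.StmtsV

set_option autoImplicit false

namespace Pool.Agent.Work.MP_69fea5_lc.W3

open MeasureTheory Topology Set Filter ProbabilityTheory
open scoped NNReal ENNReal
open Pool.Agent.Work.MP_69fea5_lc.AK
open Pool.Agent.Work.MP_69fea5_lc.HK (Cl DU Ar ArF ArR Dat Law LawC act near sc Pt oc Mn mr ext)

namespace I_TBX

variable {k n : ℕ}

theorem length_wordOf (z : Om k) (L : ℕ) : (wordOf z L).length = 2 * L + 1 := by
  unfold wordOf; simp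

/-- the word of `z` on `[-L, L]` is determined by the values of `z` there -/
theorem wordOf_eq (z z' : Om k) (L : ℕ) (h : ∀ j : ℤ, |j| ≤ L → z' j = z j) :
    wordOf z' L = wordOf z L := by
  unfold wordOf
  congr 1
  funext i
  apply h
  have := i.2
  rw [abs_le]
  constructor <;> omega

/-- the words of the tuple `p` -/
def W (L : ℕ) (p : Fin n → Om k) : Fin n → Wd k := fun j => wordOf (p j) L

/-- the box of a tuple of words -/
def bx (P : Fin n → Wd k) : Set (Fin n → Om k) := univ.pi fun j => cyl (P j) 0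

theorem W_of_mem (h1 : AK.S_CYL) (L : ℕ) (p q : Fin n → Om k) (h : q ∈ bx (W L p)) :
    W L q = W L p := by
  obtain ⟨-, -, -, h4, -⟩ := h1 k
  funext j
  have ha : q j ∈ cyl (wordOf (p j) L) 0 := h j (mem_univ j)
  exact wordOf_eq (p j) (q j) L ((h4 _ _ _).1 ha)

theorem self_mem (h1 : AK.S_CYL) (L : ℕ) (p : Fin n → Om k) : p ∈ bx (W L p) := by
  obtain ⟨-, -, h3, -⟩ := h1 k
  exact fun j _ => h3 _ _

theorem clopen_bx (h1 : AK.S_CYL) (P : Fin n → Wd k) : IsClopen (bx P) := by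
  obtain ⟨h, -⟩ := h1 k
  exact ⟨isClosed_set_pi fun j _ => (h (P j) 0).isClosed,
    isOpen_set_pi finite_univ fun j _ => (h (P j) 0).isOpen⟩

theorem anti (h1 : AK.S_CYL) (L L' : ℕ) (hL : L ≤ L') (p : Fin n → Om k) :
    bx (W L' p) ⊆ bx (W L p) := by
  obtain ⟨-, -, -, h4, -⟩ := h1 k
  intro q hq j hj
  have hL2 : (L : ℤ) ≤ L' := by exact_mod_cast hL
  exact (h4 _ _ _).2 fun i hi => (h4 _ _ _).1 (hq j hj) i (hi.trans hL2)

theorem nhds_bx (h1 : AK.S_CYL) (p : Fin n → Om k) (U : Set (Fin n → Om k)) (hU : U ∈ 𝓝 p) :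
    ∃ L : ℕ, bx (W L p) ⊆ U := by
  obtain ⟨-, -, -, -, h5, -⟩ := h1 k
  rw [nhds_pi, Filter.mem_pi] at hU
  obtain ⟨I, -, V, hV, hVU⟩ := hU
  choose a ha using fun j => h5 (p j) (V j) (hV j)
  refine ⟨Finset.univ.sup a, ?_⟩
  intro q hq
  refine hVU fun j _ => ha j _ (Finset.le_sup (Finset.mem_univ j)) (hq j (mem_univ j))

theorem unif (h1 : AK.S_CYL) (C : Set (Fin n → Om k)) (hC : IsClopen C) :
    ∃ L : ℕ, ∀ p ∈ C, bx (W L p) ⊆ C := by
  have h0 : ∀ p ∈ C, ∃ L : ℕ, bx (W L p) ⊆ C := fun p hp =>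
    nhds_bx h1 p C (hC.isOpen.mem_nhds hp)
  choose! f hf using h0
  obtain ⟨t, ht, hcov⟩ := hC.isClosed.isCompact.elim_nhds_subcover (fun p => bx (W (f p) p))
    (fun p _ => (clopen_bx h1 _).isOpen.mem_nhds (self_mem h1 _ p))
  refine ⟨t.sup f, fun p hp q hq => ?_⟩
  obtain ⟨y, hy, hpy⟩ := mem_iUnion₂.1 (hcov hp)
  apply hf y (ht y hy)
  have h2 : f y ≤ t.sup f := Finset.le_sup hy
  have h3 := W_of_mem h1 _ _ _ hpy
  rw [← h3]
  exact anti h1 _ _ h2 p hq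

theorem rct (h1 : AK.S_CYL) (C : Set (Fin n → Om k)) (hC : IsClopen C) :
    ∃ (L : ℕ) (T : Finset (Fin n → Wd k)), (∀ P ∈ T, ∀ j, (P j).length = 2 * L + 1) ∧
    C = ⋃ P ∈ T, bx P ∧ (T : Set (Fin n → Wd k)).PairwiseDisjoint fun P => bx P := by
  obtain ⟨L, hL⟩ := unif h1 C hC
  have hfin : (W L '' C).Finite := by
    have hf1 : {l : Wd k | l.length = 2 * L + 1}.Finite := List.finite_length_eq (Fin k) _
    refine (Set.Finite.pi (fun _ : Fin n => hf1)).subset ?_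
    rintro _ ⟨p, -, rfl⟩
    exact fun j _ => length_wordOf _ _
  refine ⟨L, hfin.toFinset, ?_, ?_, ?_⟩
  · intro P hP j
    obtain ⟨p, -, rfl⟩ := hfin.mem_toFinset.1 hP
    exact length_wordOf _ _
  · ext q
    simp only [mem_iUnion, Set.Finite.mem_toFinset, exists_prop]
    constructor
    · intro hq
      exact ⟨_, ⟨q, hq, rfl⟩, self_mem h1 L q⟩
    · rintro ⟨_, ⟨p, hp, rfl⟩, hq⟩
      exact hL p hp hq
  · intro P hP Q hQ hne
    obtain ⟨p, -, rfl⟩ := hfin.mem_toFinset.1 hP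
    obtain ⟨q, -, rfl⟩ := hfin.mem_toFinset.1 hQ
    refine Set.disjoint_left.2 fun z hz1 hz2 => hne ?_
    rw [← W_of_mem h1 L p z hz1, ← W_of_mem h1 L q z hz2]

end I_TBX

theorem TBX_pf (h1 : AK.S_CYL) : S_TBX := by
  intro k n
  refine ⟨?_, ?_, ?_⟩
  · intro K O hK hO hKO
    exact exists_clopen_of_closed_subset_open hK hO hKO
  · intro ν hν F a hF ha
    have ha0 : 0 < a := lt_of_le_of_lt measureReal_nonneg ha
    have hlt : ν F < ENNReal.ofReal a := by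
      rw [Measure.real] at ha
      rwa [← ENNReal.lt_ofReal_iff_toReal_lt (measure_ne_top ν F)] at ha
    obtain ⟨U, hFU, hUo, hU⟩ := Set.exists_isOpen_lt_of_lt F (ENNReal.ofReal a) hlt
    obtain ⟨C, hC, hFC, hCU⟩ := exists_clopen_of_closed_subset_open hF hUo hFU
    refine ⟨C, hC, hFC, ?_⟩
    rw [Measure.real]
    rw [← ENNReal.lt_ofReal_iff_toReal_lt (measure_ne_top ν C)]
    exact lt_of_le_of_lt (measure_mono hCU) hU
  · intro C hC
    exact I_TBX.rct h1 C hC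

end Pool.Agent.Work.MP_69fea5_lc.W3
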