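import Pool.Agent.Work.MP_69fea5_lc.W3.StmtsT

set_option autoImplicit false

namespace Pool.Agent.Work.MP_69fea5_lc.W3

open MeasureTheory Topology Set Filter TopologicalSpace
open scoped NNReal ENNReal
open Pool.Agent.Work.MP_69fea5_lc.AK

theorem THP_pf (hTHC : S_THC) (hTHM : S_THM) (hTHU : S_THU) : S_THP := by
  intro k X κ _ _ _ _ _ V A ms hL hV
  obtain ⟨h1, h2⟩ := hTHC k X κ V A ms hL hV
  exact ⟨hL.min, h1, h2, hTHM k X κ V A ms hL hV, hTHU k X κ V A ms hL hV⟩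

end Pool.Agent.Work.MP_69fea5_lc.W3
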