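import Pool.Agent.Work.MP_69fea5_lc.W3.StmtsT

/-!
Block [69fea5 T], item UMS: uniqueness of minimal subsets of strongly proximal sets.
-/

set_option autoImplicit false

namespace Pool.Agent.Work.MP_69fea5_lc.W3

open MeasureTheory Topology Set Filter TopologicalSpace
open scoped NNReal ENNReal
open Pool.Agent.Work.MP_69fea5_lc.AK

theorem UMS_pf (hZORN : AK.S_ZORN) (hORB : AK.S_ORB) (hJCT : S_JCT) : S_UMS := by
  intro X' X _ _ _ _ _ _ _ _ P p hp hpe hPc hPi hmin hspr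
  have hPne : P.Nonempty := by
    obtain ⟨x, e, he, -⟩ := hmin.ne
    exact ⟨e, he⟩
  obtain ⟨L, hLP, hL⟩ := hZORN X' P hPc hPne hPi
  refine ⟨L, hL, hLP, fun L' hL'c hL'ne hL'i hL'P => ?_⟩
  have h1 : p '' L' = p '' P := by
    refine hmin.min _ (hL'c.isCompact.image hp).isClosed (hL'ne.image p) ?_ (image_mono hL'P)
    rintro n x ⟨e, he, rfl⟩
    exact ⟨sh n e, hL'i n e he, hpe n e⟩
  obtain ⟨e, he⟩ := hL.ne
  have h2 : p e ∈ p '' L' := by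
    rw [h1]
    exact ⟨e, hLP he, rfl⟩
  obtain ⟨e', he', hee'⟩ := h2
  obtain ⟨e'', he''⟩ := (hJCT X' X P p hspr).2 e (hLP he) e' (hL'P he') hee'.symm
  have h3 : orb (e, e') ⊆ L ×ˢ L' := by
    refine (hORB (X' × X') (e, e')).2.2.2.1 _ (hL.closed.prod hL'c) ?_ ⟨he, he'⟩
    rintro n ⟨a, b⟩ ⟨ha, hb⟩
    exact ⟨hL.inv n a ha, hL'i n b hb⟩
  have h4 := h3 he''
  exact (hORB X' e).2.2.2.2.2.1 L L' hL hL'c hL'i ⟨e'', h4.1, h4.2⟩

end Pool.Agent.Work.MP_69fea5_lc.W3
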