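import Pool.Agent.Work.MP_69fea5_lc.W3.StmtsT

/-!
# [69fea5 T UNP] products with isometric extensions
-/

set_option autoImplicit false

namespace Pool.Agent.Work.MP_69fea5_lc.W3

open MeasureTheory Topology Set Filter TopologicalSpace
open scoped NNReal ENNReal
open Pool.Agent.Work.MP_69fea5_lc.AK

theorem UNP_pf (hHAU : S_HAU) : S_UNP := by
  intro O X C V _ _ _ _ _ _ _ _ _ _ _ _ _ _ A θ JV dV D ρ hA hU hJ hDc hDi hD hρ x u u' v h1 h2 h3
  classical
  -- the relation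
  let P : Set ((O × V) × (O × X)) := {p | (p.1, p.2.2) ∈ D ∧ p.1.1 = p.2.1}
  have hPc : IsClosed P := by
    have e1 : IsClosed {p : (O × V) × (O × X) | (p.1, p.2.2) ∈ D} :=
      hDc.preimage (continuous_fst.prodMk (continuous_snd.comp continuous_snd))
    have e2 : IsClosed {p : (O × V) × (O × X) | p.1.1 = p.2.1} :=
      isClosed_eq (continuous_fst.comp continuous_fst) (continuous_fst.comp continuous_snd)
    exact e1.inter e2
  have hPi : AK.Inv P := by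
    rintro n ⟨⟨a, b⟩, ⟨c, y⟩⟩ ⟨e1, e2⟩
    have e3 : sh n ((a, b), y) ∈ D := hDi n ((a, b), y) e1
    refine ⟨e3, ?_⟩
    have e4 : a = c := e2
    change sh n a = sh n c
    rw [e4]
  have hP2 : Prod.snd '' P = A := by
    apply hA.min
    · exact (hPc.isCompact.image continuous_snd).isClosed
    · exact ⟨(u, x), ((u, v), (u, x)), ⟨h1, rfl⟩, rfl⟩
    · rintro n _ ⟨p, hp, rfl⟩
      exact ⟨sh n p, hPi n p hp, rfl⟩
    · rintro _ ⟨⟨⟨a, b⟩, ⟨c, y⟩⟩, ⟨e1, e2⟩, rfl⟩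
      have e4 : a = c := e2
      have e5 := (hD _ e1).1
      change (c, y) ∈ A
      rw [← e4]
      exact e5
  have hPD : (fun p : (O × V) × (O × X) => (p.1, p.2.2)) '' P = D := by
    ext p
    constructor
    · rintro ⟨q, ⟨e1, -⟩, rfl⟩
      exact e1
    · intro hp
      exact ⟨(p.1, (p.1.1, p.2)), ⟨hp, rfl⟩, rfl⟩
  -- the pseudometric
  have hρ' : IPB D (fun (q q' : O × V) (y : X) => ρ q q' y + dV q.2 q'.2 y) := by
    refine ⟨?_, ?_, ?_, ?_, ?_, ?_⟩
    · refine hρ.cont.add ?_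
      have e1 : Continuous (fun p : (O × V) × (O × V) × X => (p.1.2, p.2.1.2, p.2.2)) := by
        fun_prop
      have e2 := hJ.ipb.cont.comp e1.continuousOn
        (s := {p : (O × V) × (O × V) × X | (p.1, p.2.2) ∈ D ∧ (p.2.1, p.2.2) ∈ D})
        (fun p hp => ⟨(hD _ hp.1).2, (hD _ hp.2).2⟩)
      exact e2
    · intro n y a b ha hb
      have e1 := hρ.inv n y a b ha hb
      have e2 := hJ.ipb.inv n y a.2 b.2 (hD _ ha).2 (hD _ hb).2
      change ρ (sh n a) (sh n b) (sh n y) + dV (sh n a.2) (sh n b.2) (sh n y) = _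
      rw [e1, e2]
    · intro y a ha
      change ρ a a y + dV a.2 a.2 y = 0
      rw [hρ.self y a ha, hJ.ipb.self y a.2 (hD _ ha).2, add_zero]
    · intro y a b ha hb
      exact add_nonneg (hρ.nonneg y a b ha hb) (hJ.ipb.nonneg y a.2 b.2 (hD _ ha).2 (hD _ hb).2)
    · intro y a b ha hb
      change ρ a b y + dV a.2 b.2 y = ρ b a y + dV b.2 a.2 y
      rw [hρ.symm y a b ha hb, hJ.ipb.symm y a.2 b.2 (hD _ ha).2 (hD _ hb).2]
    · intro y a b c ha hb hc
      have e1 := hρ.tri y a b c ha hb hc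
      have e2 := hJ.ipb.tri y a.2 b.2 c.2 (hD _ ha).2 (hD _ hb).2 (hD _ hc).2
      change ρ a c y + dV a.2 c.2 y ≤ ρ a b y + dV a.2 b.2 y + (ρ b c y + dV b.2 c.2 y)
      linarith
  have hux : (u, x) ∈ A := (hD _ h1).1
  obtain ⟨q', ⟨hq1, hq2⟩, hq3⟩ := hHAU (O × V) O X C A θ P
    (fun (q q' : O × V) (y : X) => ρ q q' y + dV q.2 q'.2 y) hA hU hPc hPi hP2
    (by rw [hPD]; exact hρ') x u u' (u, v) hux h2 h3 ⟨h1, rfl⟩
  obtain ⟨a, b⟩ := q'
  have e1 : a = u' := hq2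
  subst e1
  have hab : ((a, b), x) ∈ D := hq1
  have e2 : ρ (u, v) (a, b) x + dV v b x = 0 := hq3
  have e3 := hρ.nonneg x (u, v) (a, b) h1 hab
  have e4 := hJ.ipb.nonneg x v b (hD _ h1).2 (hD _ hab).2
  have e5 : v = b := hJ.sep x v b (hD _ h1).2 (hD _ hab).2 (by linarith)
  subst e5
  exact ⟨hab, by linarith⟩

end Pool.Agent.Work.MP_69fea5_lc.W3
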