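import Pool.Agent.Work.MP_69fea5_lc.W3.StmtsV2
import Pool.Agent.Work.MP_69fea5_lc.W3.I_LIF

/-!
# [69fea5 V2 VST] stationarity of the chains of points
-/

set_option autoImplicit false

namespace Pool.Agent.Work.MP_69fea5_lc.W3

open MeasureTheory Topology Set Filter ProbabilityTheory TopologicalSpace
open scoped NNReal ENNReal
open Pool.Agent.Work.MP_69fea5_lc.AK
open Pool.Agent.Work.MP_69fea5_lc.HK (Cl DU Ar ArF ArR Dat Law LawC act near sc Pt oc Mn mr ext)

namespace I_VST

section

variable {X Z : Type} [MeasurableSpace X] [MeasurableSpace Z]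

/-- the kernel of a measurable family of probability measures -/
noncomputable def kK (K : X → ProbabilityMeasure Z) (hK : Measurable K) : Kernel X Z :=
  ⟨fun v => (K v : Measure Z), measurable_subtype_coe.comp hK⟩

theorem kK_apply (K : X → ProbabilityMeasure Z) (hK : Measurable K) (v : X) :
    kK K hK v = (K v : Measure Z) := rfl

instance (K : X → ProbabilityMeasure Z) (hK : Measurable K) : IsMarkovKernel (kK K hK) :=
  ⟨fun v => by rw [kK_apply]; infer_instance⟩

end

theorem measurable_cns {X : Type} [MeasurableSpace X] {n : ℕ} :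
    Measurable fun p : X × (Fin (n + 1) → X) => cns p.1 p.2 := by
  refine measurable_pi_lambda _ fun i => ?_
  refine Fin.cases ?_ (fun j => ?_) i
  · exact measurable_fst
  · change Measurable fun p : X × (Fin (n + 1) → X) => p.2 j.castSucc
    exact (measurable_pi_apply _).comp measurable_snd

theorem cns_zero {X : Type} {n : ℕ} (w : X) (u : Fin (n + 1) → X) : cns w u 0 = w := rfl

theorem cns_succ {X : Type} {n : ℕ} (w : X) (u : Fin (n + 1) → X) (j : Fin n) :
    cns w u j.succ = u j.castSucc := rfl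

/-- the core: the law of `cns w u` and the law of `u` have the same values on boxes -/
theorem box {O X : Type} [MeasurableSpace O] [MeasurableSpace X] {n : ℕ}
    (lam : Measure X) [IsProbabilityMeasure lam] (μ : Measure O)
    (η : Kernel X O) [IsMarkovKernel η] (κ : Kernel X (Fin (n + 1) → X)) [IsMarkovKernel κ]
    (π' : O → X) (hπ' : Measurable π') (hbind : lam.bind η = μ)
    (hfib : ∀ᵐ v ∂lam, ∀ᵐ w ∂η v, π' w = v)
    (hsta : (lam.bind fun v => (κ v).map (cns v)) = lam.bind fun v => κ v)
    (B : Fin (n + 1) → Set O) (hB : ∀ i, MeasurableSet (B i)) :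
    ∫⁻ w, (I_LIF.ker (Fin (n + 1)) η ∘ₖ κ) (π' w) {u | cns w u ∈ univ.pi B} ∂μ =
      ∫⁻ w, (I_LIF.ker (Fin (n + 1)) η ∘ₖ κ) (π' w) (univ.pi B) ∂μ := by
  set L : Kernel X (Fin (n + 1) → O) := I_LIF.ker (Fin (n + 1)) η ∘ₖ κ with hL
  have hBm : MeasurableSet (univ.pi B) := MeasurableSet.univ_pi hB
  -- measures of boxes
  have Lbox : ∀ (v : X) (C : Fin (n + 1) → Set O), (∀ i, MeasurableSet (C i)) →
      L v (univ.pi C) = ∫⁻ z, ∏ i, η (z i) (C i) ∂κ v := by
    intro v C hC
    rw [hL, Kernel.comp_apply' _ _ _ (MeasurableSet.univ_pi hC)]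
    refine lintegral_congr fun z => ?_
    rw [I_LIF.ker_apply, Measure.pi_pi]
  set F : (Fin (n + 1) → X) → ℝ≥0∞ := fun z => ∏ i, η (z i) (B i) with hF
  have Fm : Measurable F := by
    refine Finset.measurable_prod _ fun i _ => ?_
    exact (Kernel.measurable_coe η (hB i)).comp (measurable_pi_apply i)
  set C : Fin (n + 1) → Set O := Fin.snoc (fun j : Fin n => B j.succ) univ with hC
  have hCm : ∀ i, MeasurableSet (C i) := by
    intro i
    refine Fin.lastCases ?_ (fun j => ?_) i
    · rw [hC, Fin.snoc_last]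
      exact MeasurableSet.univ
    · rw [hC, Fin.snoc_castSucc]
      exact hB _
  have hset : ∀ w : O, {u : Fin (n + 1) → O | cns w u ∈ univ.pi B} =
      {u | w ∈ B 0 ∧ u ∈ univ.pi C} := by
    intro w
    ext u
    simp only [mem_ofPred_eq, mem_univ_pi]
    constructor
    · intro h
      refine ⟨h 0, fun i => ?_⟩
      refine Fin.lastCases ?_ (fun j => ?_) i
      · rw [hC, Fin.snoc_last]
        exact mem_univ _
      · rw [hC, Fin.snoc_castSucc]
        exact h j.succ
    · rintro ⟨h0, h⟩ i
      refine Fin.cases ?_ (fun j => ?_) i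
      · exact h0
      · have := h j.castSucc
        rw [hC, Fin.snoc_castSucc] at this
        exact this
  have hLw : ∀ (v : X) (w : O), L v {u | cns w u ∈ univ.pi B} =
      (B 0).indicator (fun _ => L v (univ.pi C)) w := by
    intro v w
    rw [hset w]
    by_cases hw : w ∈ B 0
    · rw [indicator_of_mem hw]
      have : {u : Fin (n + 1) → O | w ∈ B 0 ∧ u ∈ univ.pi C} = univ.pi C := by
        ext u
        exact ⟨fun h => h.2, fun h => ⟨hw, h⟩⟩
      rw [this]
    · rw [indicator_of_notMem hw]
      have : {u : Fin (n + 1) → O | w ∈ B 0 ∧ u ∈ univ.pi C} = ∅ := by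
        ext u
        exact ⟨fun h => (hw h.1).elim, fun h => h.elim⟩
      rw [this, measure_empty]
  -- the inner integral
  have hin : ∀ v : X, ∫⁻ w, L v {u | cns w u ∈ univ.pi B} ∂η v = ∫⁻ z, F (cns v z) ∂κ v := by
    intro v
    simp only [hLw]
    rw [lintegral_indicator (hB 0), setLIntegral_const, Lbox v C hCm]
    have hm : Measurable fun z : Fin (n + 1) → X => ∏ i, η (z i) (C i) :=
      Finset.measurable_prod _ fun i _ =>
        (Kernel.measurable_coe η (hCm i)).comp (measurable_pi_apply i)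
    rw [← lintegral_mul_const _ hm]
    refine lintegral_congr fun z => ?_
    rw [hF]
    simp only
    rw [Fin.prod_univ_succ (f := fun i => η (cns v z i) (B i)), Fin.prod_univ_castSucc, hC]
    simp only [Fin.snoc_castSucc, Fin.snoc_last, measure_univ, mul_one, cns_zero, cns_succ]
    rw [mul_comm]
  -- measurability
  have m1 : Measurable fun w : O => L (π' w) {u | cns w u ∈ univ.pi B} := by
    have h := Kernel.measurable_kernel_prodMk_left (κ := L.comap π' hπ')
      (t := {p : O × (Fin (n + 1) → O) | cns p.1 p.2 ∈ univ.pi B}) (measurable_cns hBm)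
    exact h
  have m2 : Measurable fun w : O => L (π' w) (univ.pi B) :=
    (Kernel.measurable_coe L hBm).comp hπ'
  rw [← hbind, Measure.lintegral_bind η.measurable.aemeasurable m1.aemeasurable,
    Measure.lintegral_bind η.measurable.aemeasurable m2.aemeasurable]
  have e1 : ∫⁻ v, ∫⁻ w, L (π' w) {u | cns w u ∈ univ.pi B} ∂η v ∂lam =
      ∫⁻ v, ∫⁻ z, F (cns v z) ∂κ v ∂lam := by
    refine lintegral_congr_ae ?_
    filter_upwards [hfib] with v hv
    rw [← hin v]
    refine lintegral_congr_ae ?_
    filter_upwards [hv] with w hw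
    rw [hw]
  have e2 : ∫⁻ v, ∫⁻ w, L (π' w) (univ.pi B) ∂η v ∂lam = ∫⁻ v, ∫⁻ z, F z ∂κ v ∂lam := by
    refine lintegral_congr_ae ?_
    filter_upwards [hfib] with v hv
    have : ∫⁻ w, L (π' w) (univ.pi B) ∂η v = ∫⁻ w, L v (univ.pi B) ∂η v := by
      refine lintegral_congr_ae ?_
      filter_upwards [hv] with w hw
      rw [hw]
    rw [this, lintegral_const, measure_univ, mul_one, Lbox v B hB]
  rw [e1, e2]
  -- stationarity
  have hcm : ∀ v : X, Measurable (cns v : (Fin (n + 1) → X) → (Fin (n + 1) → X)) := fun v =>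
    measurable_cns.comp measurable_prodMk_left
  have m3 : Measurable fun v : X => (κ v).map (cns v) := by
    refine Measure.measurable_of_measurable_coe _ fun s hs => ?_
    have h := Kernel.measurable_kernel_prodMk_left (κ := κ)
      (t := {p : X × (Fin (n + 1) → X) | cns p.1 p.2 ∈ s}) (measurable_cns hs)
    have h2 : (fun v : X => ((κ v).map (cns v)) s) =
        fun v => κ v (Prod.mk v ⁻¹' {p : X × (Fin (n + 1) → X) | cns p.1 p.2 ∈ s}) := by
      funext v
      rw [Measure.map_apply (hcm v) hs]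
      rfl
    rw [h2]
    exact h
  have e3 := congrArg (fun m : Measure (Fin (n + 1) → X) => ∫⁻ z, F z ∂m) hsta
  rw [Measure.lintegral_bind m3.aemeasurable Fm.aemeasurable,
    Measure.lintegral_bind κ.measurable.aemeasurable Fm.aemeasurable] at e3
  rw [← e3]
  refine lintegral_congr fun v => ?_
  rw [lintegral_map Fm (hcm v)]

end I_VST

open I_VST in
theorem VST_pf : S_VST := by
  classical
  intro k n X _ _ _ _ M π lam μ η K hT hC B hB
  have := hT.mar
  have hKm : Measurable K := hC.kc.measurable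
  set κ : Kernel X (Fin (n + 1) → X) := kK K hKm with hκ
  set L : Kernel X (Fin (n + 1) → Om k) := I_LIF.ker (Fin (n + 1)) η ∘ₖ κ with hL
  have L_apply : ∀ v, L v = lif η (K v : Measure (Fin (n + 1) → X)) := fun v => by
    rw [hL, Kernel.comp_apply]
    rfl
  obtain ⟨w0, hw0⟩ := hT.min.ne
  have hMm : MeasurableSet M := hT.min.closed.measurableSet
  set π' : Om k → X := M.piecewise π (fun _ => π w0) with hπ'
  have hπm : Measurable π' :=
    ContinuousOn.measurable_piecewise hT.cont continuousOn_const hMm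
  have hπ : ∀ w ∈ M, π' w = π w := fun w hw => piecewise_eq_of_mem _ _ _ hw
  have hM1 : ∀ᵐ w ∂(μ : Measure (Om k)), w ∈ M := by
    rw [ae_iff]
    have h1 : (μ : Measure (Om k)) M = 1 := by
      have := hT.one
      rw [← ENNReal.coe_inj] at this
      simpa using this
    have h2 := (prob_compl_eq_zero_iff (μ := (μ : Measure (Om k))) hMm).2 h1
    exact h2
  have hfib : ∀ᵐ v ∂(lam : Measure X), ∀ᵐ w ∂η v, π' w = v := by
    filter_upwards [hT.fib] with v hv
    have h1 : ∀ᵐ w ∂η v, w ∈ {z | z ∈ M ∧ π z = v} := by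
      rw [ae_iff]
      exact hv
    filter_upwards [h1] with w hw
    rw [hπ w hw.1, hw.2]
  have e1 : ∫⁻ w, lif η (K (π w) : Measure (Fin (n + 1) → X)) {u | cns w u ∈ B}
      ∂(μ : Measure (Om k)) = ∫⁻ w, L.comap π' hπm w {u | cns w u ∈ B} ∂(μ : Measure (Om k)) := by
    refine lintegral_congr_ae ?_
    filter_upwards [hM1] with w hw
    rw [Kernel.comap_apply, hπ w hw, L_apply]
  have e2 : ∫⁻ w, lif η (K (π w) : Measure (Fin (n + 1) → X)) B
      ∂(μ : Measure (Om k)) = ∫⁻ w, L.comap π' hπm w B ∂(μ : Measure (Om k)) := by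
    refine lintegral_congr_ae ?_
    filter_upwards [hM1] with w hw
    rw [Kernel.comap_apply, hπ w hw, L_apply]
  rw [e1, e2]
  have f1 : ∀ B : Set (Fin (n + 1) → Om k), MeasurableSet B →
      ((μ : Measure (Om k)) ⊗ₘ L.comap π' hπm).map (fun p => cns p.1 p.2) B =
        ∫⁻ w, L.comap π' hπm w {u | cns w u ∈ B} ∂(μ : Measure (Om k)) := by
    intro B hB
    rw [Measure.map_apply measurable_cns hB, Measure.compProd_apply (measurable_cns hB)]
    rfl
  have f2 : ∀ B : Set (Fin (n + 1) → Om k), MeasurableSet B →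
      ((μ : Measure (Om k)) ⊗ₘ L.comap π' hπm).map Prod.snd B =
        ∫⁻ w, L.comap π' hπm w B ∂(μ : Measure (Om k)) := by
    intro B hB
    rw [Measure.map_apply measurable_snd hB, Measure.compProd_apply (measurable_snd hB)]
    rfl
  rw [← f1 B hB, ← f2 B hB]
  have key : ((μ : Measure (Om k)) ⊗ₘ L.comap π' hπm).map (fun p => cns p.1 p.2) =
      ((μ : Measure (Om k)) ⊗ₘ L.comap π' hπm).map Prod.snd := by
    have : IsProbabilityMeasure
        (((μ : Measure (Om k)) ⊗ₘ L.comap π' hπm).map (fun p => cns p.1 p.2)) :=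
      Measure.isProbabilityMeasure_map measurable_cns.aemeasurable
    have : IsProbabilityMeasure (((μ : Measure (Om k)) ⊗ₘ L.comap π' hπm).map Prod.snd) :=
      Measure.isProbabilityMeasure_map measurable_snd.aemeasurable
    refine ext_of_generate_finite _ (generateFrom_pi (ι := Fin (n + 1)) (α := fun _ => Om k)).symm
      isPiSystem_pi ?_ (by rw [measure_univ, measure_univ])
    rintro _ ⟨B', hB', rfl⟩
    have hB'' : ∀ i, MeasurableSet (B' i) := fun i => hB' i (mem_univ i)
    rw [f1 _ (MeasurableSet.univ_pi hB''), f2 _ (MeasurableSet.univ_pi hB'')]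
    exact box (lam : Measure X) (μ : Measure (Om k)) η κ π' hπm hT.bind hfib hC.sta B' hB''
  rw [key]

end Pool.Agent.Work.MP_69fea5_lc.W3
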