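import Pool.Agent.Work.MP_69fea5_lc.W3.DefsF1

/-!
# Block [69fea5 F1]: the 0-1 law for pairs, chains, and the hypotheses of the final argument.
Statements of the items

Every item is a theorem `XXX_pf (h1 : S_A) (h2 : AK.S_B) ... : S_XXX` in its own file
`W3/I_XXX.lean`; the hypotheses may be any statements of `W3/StmtsT.lean`, any statements of
EARLIER items of this file and any statements `AK.S_...`, `N3.S_...`.

Conventions: `Fr = Y × (ℕ → C)` are the frames (`v.1` the base point, `v.2` the sequence of phases),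
`YA = Y × ProbabilityMeasure (O × Fr)`. `E` lies over the frames by `q`, so over `Y` by
`fun e => (q e).1`.
-/

set_option autoImplicit false

namespace Pool.Agent.Work.MP_69fea5_lc.W3

open MeasureTheory Topology Set Filter TopologicalSpace
open scoped NNReal ENNReal
open Pool.Agent.Work.MP_69fea5_lc.AK

/-! ## 1. The auxiliary section -/

/-- [JMC] the joint laws: `jm` is continuous and equivariant (`ProbabilityMeasure.continuous_prod`,
`continuous_diracProba`); the set `FE` is closed (image of a compact set) and invariant and lies over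
the base of `A` (`q '' E = orb v₀` consists of frames, `S_AUT`; `Prod.fst '' orb v₀ = Prod.snd '' JJ A θ
= Prod.snd '' A`). -/
def S_JMC : Prop := ∀ (O Y C X' : Type) [TopologicalSpace O] [MeasurableSpace O] [CS O] [Sys O]
  [TopologicalSpace Y] [MeasurableSpace Y] [CS Y] [Sys Y]
  [TopologicalSpace C] [MeasurableSpace C] [CS C] [Sys C]
  [TopologicalSpace X'] [MeasurableSpace X'] [CS X'] [Sys X'] (A : Set (O × Y))
  (ms : Y → ProbabilityMeasure O) (θ : O × Y → C) (v₀ : Y × (ℕ → C)) (E : Set X')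
  (q : X' → Y × (ℕ → C)) (lm : X' → ProbabilityMeasure O), PE A ms θ v₀ E q lm →
  Continuous (jm q lm) ∧ (∀ (n : ℤ) (e : X'), jm q lm (sh n e) = sh n (jm q lm e)) ∧
  IsClosed (FE E q lm) ∧ AK.Inv (FE E q lm) ∧ MinSet (Prod.fst '' FE E q lm) ∧
  Prod.fst '' FE E q lm = Prod.snd '' A

/-- [AXE] the auxiliary section exists: `S_SPG` for `F = FE E q lm` (`S_JMC`). -/
def S_AXE : Prop := ∀ (O Y C X' : Type) [TopologicalSpace O] [MeasurableSpace O] [CS O] [Sys O]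
  [TopologicalSpace Y] [MeasurableSpace Y] [CS Y] [Sys Y]
  [TopologicalSpace C] [MeasurableSpace C] [CS C] [Sys C]
  [TopologicalSpace X'] [MeasurableSpace X'] [CS X'] [Sys X'] (A : Set (O × Y))
  (ms : Y → ProbabilityMeasure O) (θ : O × Y → C) (v₀ : Y × (ℕ → C)) (E : Set X')
  (q : X' → Y × (ℕ → C)) (lm : X' → ProbabilityMeasure O), PE A ms θ v₀ E q lm →
  ∃ Ya, AX A E q lm Ya

/-- [FEK] elements of the family are barycentres of measures on the fibre of `E` over `p.1`: a measure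
`κ'` on `{m | (p.1, m) ∈ FE} = jm '' {e ∈ E | (q e).1 = p.1}` lifts (`S_LFT`) to a measure `κ` with
`κ.map (jm q lm) = κ'`; `Bar κ (jm q lm) m` and `Bar κ' id m` are the same (`Measure.bind`, `map`). -/
def S_FEK : Prop := ∀ (O Y C X' : Type) [TopologicalSpace O] [MeasurableSpace O] [CS O] [Sys O]
  [TopologicalSpace Y] [MeasurableSpace Y] [CS Y] [Sys Y]
  [TopologicalSpace C] [MeasurableSpace C] [CS C] [Sys C]
  [TopologicalSpace X'] [MeasurableSpace X'] [CS X'] [Sys X'] (A : Set (O × Y))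
  (ms : Y → ProbabilityMeasure O) (θ : O × Y → C) (v₀ : Y × (ℕ → C)) (E : Set X')
  (q : X' → Y × (ℕ → C)) (lm : X' → ProbabilityMeasure O), PE A ms θ v₀ E q lm →
  ∀ p ∈ Fam (FE E q lm), ∃ κ : ProbabilityMeasure X', κ {e | e ∈ E ∧ (q e).1 = p.1} = 1 ∧
    Bar κ (jm q lm) p.2

/-- [KEA] decompositions on a closed invariant set `G` of pairs `(e, p)`, `e ∈ E`, `p ∈ Ya` over the
same point of `Y`. `G → E` is onto (`E` is minimal). The set of the good `p` is closed (the pairs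
`(κ, p)` with `κ × δ_p` on `G` are closed, `S_BRC`, compactness) and invariant, `Ya` is minimal: one good
point is enough. Take `p ∈ Ya` and `κ` from `S_FEK`, lift `κ` to `ν` on `G` (`S_LFT`); the second
marginal of `ν` and `δ_p` live on the fibre of `Ya` over `p.1`: contract both (`S_JCT`). The limit of
`sh n ν` is on `G` and is `κ* × δ_(p*)` (`S_PRD`) with `p* = lim sh n p`, `κ* = lim sh n κ`, and
`Bar κ* (jm q lm) p*.2` (`S_BRC`). -/
def S_KEA : Prop := ∀ (O Y C X' : Type) [TopologicalSpace O] [MeasurableSpace O] [CS O] [Sys O]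
  [TopologicalSpace Y] [MeasurableSpace Y] [CS Y] [Sys Y]
  [TopologicalSpace C] [MeasurableSpace C] [CS C] [Sys C]
  [TopologicalSpace X'] [MeasurableSpace X'] [CS X'] [Sys X'] (A : Set (O × Y))
  (ms : Y → ProbabilityMeasure O) (θ : O × Y → C) (v₀ : Y × (ℕ → C)) (E : Set X')
  (q : X' → Y × (ℕ → C)) (lm : X' → ProbabilityMeasure O)
  (Ya : Set (Y × ProbabilityMeasure (O × (Y × (ℕ → C)))))
  (G : Set (X' × (Y × ProbabilityMeasure (O × (Y × (ℕ → C)))))), PE A ms θ v₀ E q lm →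
  AX A E q lm Ya → IsClosed G → G.Nonempty → AK.Inv G →
  (∀ g ∈ G, g.1 ∈ E ∧ g.2 ∈ Ya ∧ (q g.1).1 = g.2.1) →
  ∀ p ∈ Ya, ∃ κ : ProbabilityMeasure X', κ {e | (e, p) ∈ G} = 1 ∧ Bar κ (jm q lm) p.2

/-- [UNA] the pairs (letter, frame) over `Ya`: a level `Aa` with relatively invariant measure
`Prod.snd`, whose universal isometric factor is the frame, and every frame occurs.
Let `A₁` be the base change of `A` to `Ya` (`S_BCX`), `θ₁ (u, p) = θ (u, p.1)`. `Pha A₁ θ₁` (`S_PHB`).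
`JJ A₁ θ₁` is the full pull-back of `JJ A θ` (`S_DIS`: the pull-back is minimal, and `JJ A₁ θ₁` is a closed
invariant subset). Take `p₀ ∈ Ya` over `v₀.1`; `va = (p₀, v₀.2)` is a frame of `JJ A₁ θ₁`, and
`orb va = {(p, t) | p ∈ Ya, (p.1, t) ∈ orb v₀}` (`S_AUT` for `orb v₀`, `S_DIS`). Put
`Aa = {((u, v), p) | p ∈ Ya, v.1 = p.1, (u, (p, v.2)) ∈ At A₁ θ₁ (orb va) 0}`; `S_T7M`, `S_T7V` for
`A₁, θ₁, va` give: `Aa` minimal, `Uni`, and every frame occurs. `Aa` is the base change to `Ya` of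
`A⁺ = {((u, v), y) | (u, v) ∈ At A θ (orb v₀) 0, v.1 = y}`, minimal by `S_T7V` for `A`; every `p.2`,
`p ∈ Ya`, lives on the fibre of `A⁺` over `p.1` (`AX.fam`, `S_FEK`, `PE.one`): `Lev` by `S_RIM`. -/
def S_UNA : Prop := ∀ (O Y C X' : Type) [TopologicalSpace O] [MeasurableSpace O] [CS O] [Sys O]
  [TopologicalSpace Y] [MeasurableSpace Y] [CS Y] [Sys Y]
  [TopologicalSpace C] [MeasurableSpace C] [CS C] [Sys C]
  [TopologicalSpace X'] [MeasurableSpace X'] [CS X'] [Sys X'] (A : Set (O × Y))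
  (ms : Y → ProbabilityMeasure O) (θ : O × Y → C) (v₀ : Y × (ℕ → C)) (E : Set X')
  (q : X' → Y × (ℕ → C)) (lm : X' → ProbabilityMeasure O)
  (Ya : Set (Y × ProbabilityMeasure (O × (Y × (ℕ → C))))), PE A ms θ v₀ E q lm →
  AX A E q lm Ya →
  ∃ Aa : Set ((O × (Y × (ℕ → C))) × (Y × ProbabilityMeasure (O × (Y × (ℕ → C))))),
    Lev Aa Prod.snd ∧ Uni Aa (fun p => p.1.2) ∧
    (∀ p ∈ Aa, p.2 ∈ Ya ∧ p.1 ∈ At A θ (orb v₀) 0 ∧ p.1.2.1 = p.2.1) ∧
    ∀ p ∈ Ya, ∀ v ∈ orb v₀, v.1 = p.1 → ∃ u, ((u, v), p) ∈ Aa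

/-- [FUS] the measures `p.2` charge all open sets of frames: `S_UNA`, `S_BAL` for `Aa` and
`ρ ((u, v), (u', v'), p) = d' v.2 v'.2 p.1`, `d'` the metric of the frames over `Y` (`S_AUT`); by
compactness a `d'`-ball in the fibre is contained in the neighbourhood `U`. -/
def S_FUS : Prop := ∀ (O Y C X' : Type) [TopologicalSpace O] [MeasurableSpace O] [CS O] [Sys O]
  [TopologicalSpace Y] [MeasurableSpace Y] [CS Y] [Sys Y]
  [TopologicalSpace C] [MeasurableSpace C] [CS C] [Sys C]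
  [TopologicalSpace X'] [MeasurableSpace X'] [CS X'] [Sys X'] (A : Set (O × Y))
  (ms : Y → ProbabilityMeasure O) (θ : O × Y → C) (v₀ : Y × (ℕ → C)) (E : Set X')
  (q : X' → Y × (ℕ → C)) (lm : X' → ProbabilityMeasure O)
  (Ya : Set (Y × ProbabilityMeasure (O × (Y × (ℕ → C))))), PE A ms θ v₀ E q lm →
  AX A E q lm Ya → ∀ p ∈ Ya, ∀ v ∈ orb v₀, v.1 = p.1 → ∀ U ∈ 𝓝 v, 0 < p.2 {x | x.2 ∈ U}

/-! ## 2. Partners and the law on almost periodic pairs -/

/-- [PTN] partners: for `a ∈ E` and a frame `v` over the same point of `Y` there is `b` over `v` with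
`(a, b)` almost periodic. `{(t, a) | a ∈ E, ((q a).1, t) ∈ orb v₀}` is an isometric extension of `E`
(metric of `S_AUT`), so the orbit closure of `(a, v)` is minimal (`S_ISA`); let `L` be a minimal subset
of `{(a', b') ∈ E × E | (a', q b') ∈ orb (a, v)}`; it maps onto `orb (a, v)`. -/
def S_PTN : Prop := ∀ (O Y C X' : Type) [TopologicalSpace O] [MeasurableSpace O] [CS O] [Sys O]
  [TopologicalSpace Y] [MeasurableSpace Y] [CS Y] [Sys Y]
  [TopologicalSpace C] [MeasurableSpace C] [CS C] [Sys C]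
  [TopologicalSpace X'] [MeasurableSpace X'] [CS X'] [Sys X'] (A : Set (O × Y))
  (ms : Y → ProbabilityMeasure O) (θ : O × Y → C) (v₀ : Y × (ℕ → C)) (E : Set X')
  (q : X' → Y × (ℕ → C)) (lm : X' → ProbabilityMeasure O), PE A ms θ v₀ E q lm →
  ∀ a ∈ E, ∀ v ∈ orb v₀, (q a).1 = v.1 → ∃ b ∈ E, q b = v ∧ MinSet (orb (a, b))

/-- [GDC] the set `GB` is closed, invariant and not empty. Closed: `{(κ, b) | κ × δ_b on BB}` is
closed, `S_BRC`, compactness. Not empty: take `p ∈ Ya`, `b ∈ E` with `(q b).1 = p.1`, `κ` from `S_FEK`;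
`Q = {(a, b') ∈ BB E q | q b' = q b}` maps onto `{a ∈ E | (q a).1 = p.1}` (`S_PTN`): lift `κ` to `ν` on `Q`;
its second marginal and `δ_b` live on the fibre of `E` over `q b`: contract both (`S_JCT`), and take a
limit also of `sh n p`. The limit is `κ* × δ_(b*)` (`S_PRD`) on `BB`, `Bar κ* (jm q lm) p*.2`. -/
def S_GDC : Prop := ∀ (O Y C X' : Type) [TopologicalSpace O] [MeasurableSpace O] [CS O] [Sys O]
  [TopologicalSpace Y] [MeasurableSpace Y] [CS Y] [Sys Y]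
  [TopologicalSpace C] [MeasurableSpace C] [CS C] [Sys C]
  [TopologicalSpace X'] [MeasurableSpace X'] [CS X'] [Sys X'] (A : Set (O × Y))
  (ms : Y → ProbabilityMeasure O) (θ : O × Y → C) (v₀ : Y × (ℕ → C)) (E : Set X')
  (q : X' → Y × (ℕ → C)) (lm : X' → ProbabilityMeasure O)
  (Ya : Set (Y × ProbabilityMeasure (O × (Y × (ℕ → C))))), PE A ms θ v₀ E q lm →
  AX A E q lm Ya →
  IsClosed (GB E q lm Ya) ∧ (GB E q lm Ya).Nonempty ∧ AK.Inv (GB E q lm Ya)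

/-- [LAW] a law `Θ` on almost periodic pairs whose image on the pairs (letter, frame) is the product
`p.2 × p.2`. `S_KEA` for `G = GB` (`S_GDC`): `κ'` with `Bar κ' (jm q lm) p.2`, `κ'`-almost every `b` good.
Approximate `κ'` by measures `∑ w_i δ_(b_i)` with good `b_i` (`S_FSD`), let `κ_i` be the decomposition for
`b_i`; `∑ w_i κ_i × δ_(b_i)` lives on `BB` (over the point `p.1`), the barycentre of the `jm × jm` is
`∑ w_i p.2 × jm b_i`. Take a limit (`S_BRC`, continuity of products). -/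
def S_LAW : Prop := ∀ (O Y C X' : Type) [TopologicalSpace O] [MeasurableSpace O] [CS O] [Sys O]
  [TopologicalSpace Y] [MeasurableSpace Y] [CS Y] [Sys Y]
  [TopologicalSpace C] [MeasurableSpace C] [CS C] [Sys C]
  [TopologicalSpace X'] [MeasurableSpace X'] [CS X'] [Sys X'] (A : Set (O × Y))
  (ms : Y → ProbabilityMeasure O) (θ : O × Y → C) (v₀ : Y × (ℕ → C)) (E : Set X')
  (q : X' → Y × (ℕ → C)) (lm : X' → ProbabilityMeasure O)
  (Ya : Set (Y × ProbabilityMeasure (O × (Y × (ℕ → C))))), PE A ms θ v₀ E q lm →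
  AX A E q lm Ya → ∀ p ∈ Ya, ∃ Θ : ProbabilityMeasure (X' × X'),
    Θ {t | t ∈ BB E q ∧ (q t.1).1 = p.1 ∧ (q t.2).1 = p.1} = 1 ∧
    Bar Θ (fun t => (jm q lm t.1).prod (jm q lm t.2)) (p.2.prod p.2)

/-! ## 3. The typical values are 0 and 1 -/

/-- [PUR] pure measure theory. `P` on `O × V`, `R ⊆ (O × V)²` closed; if the sections of `R` at two
points of `A` with the same second coordinate agree `P`-almost everywhere (both for the first and for the
second variable), then for almost all `t` the value is `0` or `1`. Write `P = ∫ K_v × δ_v dh(v)`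
(conditional kernel). For `h`-almost all `v` and `K_v × K_v`-almost all `(w, w')` the sections at
`(w, v)`, `(w', v)` agree `P`-a.e.; by Fubini, for `h × h`-almost all `(v, v')` the function
`f (w, u) = 1_R ((w, v), (u, v'))` satisfies `f (w, u) = f (w', u)`, `f (w', u) = f (w', u')` almost
everywhere, so it is constant `F (v, v')` almost everywhere, `F` the mass, in `{0, 1}`. So `1_R = F (v, v')`
`P × P`-a.e.; apply the law: for `Θ`-almost all `t`, `1_R = F (g t.1, g t.2)` almost everywhere. -/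
def S_PUR : Prop := ∀ (O V T : Type) [TopologicalSpace O] [MeasurableSpace O] [CS O]
  [TopologicalSpace V] [MeasurableSpace V] [CS V] [TopologicalSpace T] [MeasurableSpace T] [CS T]
  (P : ProbabilityMeasure (O × V)) (A : Set (O × V)) (R : Set ((O × V) × (O × V)))
  (lam : T → ProbabilityMeasure O) (g : T → V) (Θ : ProbabilityMeasure (T × T)),
  IsClosed A → P A = 1 → IsClosed R → Continuous lam → Continuous g →
  (∀ x ∈ A, ∀ x' ∈ A, x.2 = x'.2 → P {z | (x, z) ∈ R ∧ (x', z) ∉ R} = 0) →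
  (∀ x ∈ A, ∀ x' ∈ A, x.2 = x'.2 → P {z | (z, x) ∈ R ∧ (z, x') ∉ R} = 0) →
  Bar Θ (fun t : T × T => ((lam t.1).prod (diracProba (g t.1))).prod
    ((lam t.2).prod (diracProba (g t.2)))) (P.prod P) →
  ∀ᵐ t ∂(Θ : Measure (T × T)),
    ((lam t.1 : Measure O).prod (lam t.2 : Measure O))
      {u | ((u.1, g t.1), (u.2, g t.2)) ∈ R} = 0 ∨
    ((lam t.1 : Measure O).prod (lam t.2 : Measure O))
      {u | ((u.1, g t.1), (u.2, g t.2)) ∈ R} = 1

/-- [TYP] typical values are `0` or `1`: `S_PUR` with `P = p.2`, `A = {x | (x, p) ∈ Aa}` (`S_UNA`),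
`R' = {(x, z) | ((x.1, z.1), x.2) ∈ R}`; the hypotheses on the sections are the last part of `S_MCM` for
`A = Aa`, `κ = Prod.snd`, `N = {(x, z, p) | ((x.1, z.1), x.2) ∈ R}`, resp.
`N = {(x, z, p) | ((z.1, x.1), z.2) ∈ R}`, and `Uni Aa`. -/
def S_TYP : Prop := ∀ (O Y C X' : Type) [TopologicalSpace O] [MeasurableSpace O] [CS O] [Sys O]
  [TopologicalSpace Y] [MeasurableSpace Y] [CS Y] [Sys Y]
  [TopologicalSpace C] [MeasurableSpace C] [CS C] [Sys C]
  [TopologicalSpace X'] [MeasurableSpace X'] [CS X'] [Sys X'] (A : Set (O × Y))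
  (ms : Y → ProbabilityMeasure O) (θ : O × Y → C) (v₀ : Y × (ℕ → C)) (E : Set X')
  (q : X' → Y × (ℕ → C)) (lm : X' → ProbabilityMeasure O)
  (Ya : Set (Y × ProbabilityMeasure (O × (Y × (ℕ → C))))), PE A ms θ v₀ E q lm →
  AX A E q lm Ya → ∀ p ∈ Ya, ∀ Θ : ProbabilityMeasure (X' × X'),
  Bar Θ (fun t => (jm q lm t.1).prod (jm q lm t.2)) (p.2.prod p.2) →
  ∀ R : Set ((O × O) × (Y × (ℕ → C))), IsClosed R → AK.Inv R →
  ∀ᵐ t ∂(Θ : Measure (X' × X')), vl q lm R t.1 t.2 = 0 ∨ vl q lm R t.1 t.2 = 1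

/-! ## 4. Classes of pairs -/

/-- [CLF] the class of a pair of frames over one point. For `(v, v')` let `D (v, v') i l =
d (v.2 i) (v'.2 l) v.1`: continuous, constant on orbit closures. Some limit of shifts maps `v` to `v₀`
(`orb v₀` is minimal) and `v'` to some `c`, `D (v₀, c) = D (v, v')`; the phases `v₀.2 i` are dense in the
fibre, so `D (v₀, ·)` is injective on the frames over `v₀.1`, and its inverse is continuous
(compactness): `cl = D (v₀, ·)⁻¹ ∘ D`. The orbit closure of `(v, v')` is minimal (`S_DET` or `S_ISA`), so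
`(v, v') ∈ orb (v₀, c)`. -/
def S_CLF : Prop := ∀ (C X : Type) [TopologicalSpace C] [MeasurableSpace C] [CS C] [Sys C]
  [TopologicalSpace X] [MeasurableSpace X] [CS X] [Sys X] (J : Set (C × X)) (d : C → C → X → ℝ),
  Isom J d → ∀ v₀ : X × (ℕ → C), Frm J v₀ →
  ∃ cl : X × (ℕ → C) → X × (ℕ → C) → X × (ℕ → C),
    ContinuousOn (fun p : (X × (ℕ → C)) × (X × (ℕ → C)) => cl p.1 p.2)
      {p | p.1 ∈ orb v₀ ∧ p.2 ∈ orb v₀ ∧ p.1.1 = p.2.1} ∧
    ∀ v ∈ orb v₀, ∀ v' ∈ orb v₀, v.1 = v'.1 →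
      cl v v' ∈ orb v₀ ∧ (cl v v').1 = v₀.1 ∧ (v₀, cl v v') ∈ orb (v, v') ∧
      (v, v') ∈ orb (v₀, cl v v') ∧ (v = v₀ → cl v v' = v')

/-- [UMP] minimal pairs are contained in the orbit closures of the pairs of the same class. Take
`(a'', b'') ∈ orb (a', b')` with `q a'' = q a`, `q b'' = q b` (`S_ULT`); `(a, b)` and `(a'', b'')` are
proximal: `E × E` is strongly proximal over the pairs `(q e, q e')` (contract one coordinate after the
other), `S_JCT`. -/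
def S_UMP : Prop := ∀ (X X' : Type) [TopologicalSpace X] [MeasurableSpace X] [CS X] [Sys X]
  [TopologicalSpace X'] [MeasurableSpace X'] [CS X'] [Sys X'] (E : Set X') (q : X' → X),
  SPx E q → ∀ a ∈ E, ∀ b ∈ E, ∀ a' ∈ E, ∀ b' ∈ E, MinSet (orb (a, b)) →
  (q a, q b) ∈ orb (q a', q b') → orb (a, b) ⊆ orb (a', b')

/-- [VLU] the value of a closed invariant relation is upper semicontinuous, invariant, and does not
decrease in orbit closures. -/
def S_VLU : Prop := ∀ (O Y C X' : Type) [TopologicalSpace O] [MeasurableSpace O] [CS O] [Sys O]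
  [TopologicalSpace Y] [MeasurableSpace Y] [CS Y] [Sys Y]
  [TopologicalSpace C] [MeasurableSpace C] [CS C] [Sys C]
  [TopologicalSpace X'] [MeasurableSpace X'] [CS X'] [Sys X']
  (q : X' → Y × (ℕ → C)) (lm : X' → ProbabilityMeasure O)
  (R : Set ((O × O) × (Y × (ℕ → C)))), Continuous q →
  (∀ (n : ℤ) (e : X'), q (sh n e) = sh n (q e)) → Continuous lm →
  (∀ (n : ℤ) (e : X'), lm (sh n e) = sh n (lm e)) → IsClosed R → AK.Inv R →
  (∀ a b, vl q lm R a b ≤ 1) ∧ (∀ δ : ℝ≥0∞, IsClosed {p : X' × X' | δ ≤ vl q lm R p.1 p.2}) ∧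
  (∀ (n : ℤ) (a b : X'), vl q lm R (sh n a) (sh n b) = vl q lm R a b) ∧
  ∀ p p' : X' × X', p' ∈ orb p → vl q lm R p.1 p.2 ≤ vl q lm R p'.1 p'.2

/-! ## 5. The 0-1 law -/

/-- [F1F] If over all classes `c` in the open set `U` there are pairs of value `≥ δ`, then over some
class in `U` there is a pair of value `1`.
Take `Ya` (`S_AXE`), `p ∈ Ya` over `v₀.1`, `Θ` from `S_LAW`. `cl v₀ v₁ = v₁ ∈ U`; by continuity of `cl`
(`S_CLF`) there are open `U₀ ∋ v₀`, `U₁ ∋ v₁` with `cl v v' ∈ U` for frames `v ∈ U₀`, `v' ∈ U₁` over one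
point. `Θ {t | q t.1 ∈ U₀ ∧ q t.2 ∈ U₁} = p.2 {x | x.2 ∈ U₀} * p.2 {x | x.2 ∈ U₁} > 0` (the law of `Θ`,
`S_FUS`). So there is such a `t = (a, b) ∈ BB` over `v₀.1` with value `0` or `1` (`S_TYP`). `t` is a limit
of minimal pairs `(a', b')`, and `c' = cl (q a') (q b') → cl (q a) (q b) ∈ U`; for `c' ∈ U` there is a pair
over `(v₀, c')` of value `≥ δ`, so `(a', b')` has value `≥ δ` (`S_UMP`, `S_VLU`). So `t` has value `≥ δ`,
hence `1`, and the orbit closure of `t` contains a pair over `(v₀, cl (q a) (q b))` (`S_ULT`), whose value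
is `1` (`S_VLU`). -/
def S_F1F : Prop := ∀ (O Y C X' : Type) [TopologicalSpace O] [MeasurableSpace O] [CS O] [Sys O]
  [TopologicalSpace Y] [MeasurableSpace Y] [CS Y] [Sys Y]
  [TopologicalSpace C] [MeasurableSpace C] [CS C] [Sys C]
  [TopologicalSpace X'] [MeasurableSpace X'] [CS X'] [Sys X'] (A : Set (O × Y))
  (ms : Y → ProbabilityMeasure O) (θ : O × Y → C) (v₀ : Y × (ℕ → C)) (E : Set X')
  (q : X' → Y × (ℕ → C)) (lm : X' → ProbabilityMeasure O), PE A ms θ v₀ E q lm →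
  ∀ R : Set ((O × O) × (Y × (ℕ → C))), IsClosed R → AK.Inv R →
  ∀ (U : Set (Y × (ℕ → C))) (δ : ℝ≥0∞), IsOpen U → 0 < δ →
  (∃ v₁ ∈ U, v₁ ∈ orb v₀ ∧ v₁.1 = v₀.1) →
  (∀ c ∈ U, c ∈ orb v₀ → c.1 = v₀.1 →
    ∃ a ∈ E, ∃ b ∈ E, q a = v₀ ∧ q b = c ∧ δ ≤ vl q lm R a b) →
  ∃ c ∈ U, c ∈ orb v₀ ∧ c.1 = v₀.1 ∧ ∃ a ∈ E, ∃ b ∈ E, q a = v₀ ∧ q b = c ∧ vl q lm R a b = 1

/-- [FDN] density, the form used to find `v₁`: if the values over `(v₀, v₁)` are `< 1` then there are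
classes `c` near `v₁` with all values `< δ`. The set `K` of the `c` with a pair of value `≥ 1` over
`(v₀, c)` is closed (compactness, `S_VLU`); apply `S_F1F` to `U \ K`. -/
def S_FDN : Prop := ∀ (O Y C X' : Type) [TopologicalSpace O] [MeasurableSpace O] [CS O] [Sys O]
  [TopologicalSpace Y] [MeasurableSpace Y] [CS Y] [Sys Y]
  [TopologicalSpace C] [MeasurableSpace C] [CS C] [Sys C]
  [TopologicalSpace X'] [MeasurableSpace X'] [CS X'] [Sys X'] (A : Set (O × Y))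
  (ms : Y → ProbabilityMeasure O) (θ : O × Y → C) (v₀ : Y × (ℕ → C)) (E : Set X')
  (q : X' → Y × (ℕ → C)) (lm : X' → ProbabilityMeasure O), PE A ms θ v₀ E q lm →
  ∀ R : Set ((O × O) × (Y × (ℕ → C))), IsClosed R → AK.Inv R →
  ∀ v₁ ∈ orb v₀, v₁.1 = v₀.1 →
  (∀ a ∈ E, ∀ b ∈ E, q a = v₀ → q b = v₁ → vl q lm R a b < 1) →
  ∀ U ∈ 𝓝 v₁, ∀ δ : ℝ≥0∞, 0 < δ → ∃ c ∈ U, c ∈ orb v₀ ∧ c.1 = v₀.1 ∧
    ∀ a ∈ E, ∀ b ∈ E, q a = v₀ → q b = c → vl q lm R a b < δ

/-- [RLP] the relations `RLs` are closed and invariant and approximate all closed invariant relations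
of pairs (as `S_RLB`, for measures on pairs): every point outside `R` has a box disjoint from `R`;
countably many boxes; directed downwards. -/
def S_RLP : Prop := ∀ (k : ℕ) (X κ : Type) [TopologicalSpace X] [MeasurableSpace X] [CS X]
  [Sys X] [Encodable κ] (V : κ → Set X) (B : Set X), Bas V B → AK.Inv B →
  (∀ L : List (Wd k × Wd k × κ), IsClosed (RLs V L) ∧ AK.Inv (RLs V L)) ∧
  ∀ (R : Set ((Om k × Om k) × X)), IsClosed R → AK.Inv R → (∀ p ∈ R, p.2 ∈ B) →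
  ∀ (ν : ProbabilityMeasure (Om k × Om k)), ∀ x ∈ B, ∀ ε : ℝ≥0∞, 0 < ε →
  ∃ L : List (Wd k × Wd k × κ), R ⊆ RLs V L ∧
    (ν : Measure (Om k × Om k)) {p | (p, x) ∈ RLs V L ∧ (p, x) ∉ R} < ε

/-- [ZOL] if for every list `L` the values of `RLs V L` over `(v₀, v₁)` are all `0`, or one of them is
`1`, then the 0-1 law holds. For a minimal pair `(a, b)` over `orb (v₀, v₁)` (minimal, `S_AUT`) the value
of `RLs V L` is `0` or `1`: its orbit closure contains a pair over `(v₀, v₁)` (`S_ULT`), and it is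
contained in the orbit closures of all pairs over `(v₀, v₁)` (`S_UMP`); `S_VLU`. Then `S_RLP` for
`{p ∈ R | p.2 ∈ orb v₀}`, `ν = lm a × lm b`. -/
def S_ZOL : Prop := ∀ (k : ℕ) (Y C X' κ : Type) [Encodable κ]
  [TopologicalSpace Y] [MeasurableSpace Y] [CS Y] [Sys Y]
  [TopologicalSpace C] [MeasurableSpace C] [CS C] [Sys C]
  [TopologicalSpace X'] [MeasurableSpace X'] [CS X'] [Sys X'] (A : Set (Om k × Y))
  (ms : Y → PM k) (θ : Om k × Y → C) (v₀ v₁ : Y × (ℕ → C)) (E : Set X')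
  (q : X' → Y × (ℕ → C)) (lm : X' → PM k) (V : κ → Set (Y × (ℕ → C))),
  PE A ms θ v₀ E q lm → Bas V (orb v₀) → v₁ ∈ orb v₀ → v₁.1 = v₀.1 →
  (∀ L : List (Wd k × Wd k × κ),
    (∀ a ∈ E, ∀ b ∈ E, q a = v₀ → q b = v₁ → vl q lm (RLs V L) a b = 0) ∨
    ∃ a ∈ E, ∃ b ∈ E, q a = v₀ ∧ q b = v₁ ∧ vl q lm (RLs V L) a b = 1) →
  Z01 v₀ v₁ E q lm

/-! ## 6. Chains -/

/-- [CHX] the minimal set of chains. `v₁` is a frame (`S_AUT`); `Γ = orb (v₀, v₁)` is the graph of a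
bijection of `orb v₀` (`S_AUT`, `orb v₁ = orb v₀`). `ChS` is closed, invariant, not empty (dependent
choice: `q '' E = orb v₀`). `q (ξ j)` determines all `q (ξ a)`, so `ChS` is strongly proximal over `q (ξ j)`
(`S_SPN`). Let `Ξ` be a minimal subset. `base`: closed invariant subsets of `orb v₀`. `all`: `Ξ'` contains
a point with the same `q (ξ 0)` as `ξ ∈ Ξ`, the two are proximal (`S_JCT`). `step`: the image of `Ξ` under
`ξ ↦ (ξ (a + 1))_a` is minimal and in `ChS`, so it is `Ξ` by `all`. -/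
def S_CHX : Prop := ∀ (O Y C X' : Type) [TopologicalSpace O] [MeasurableSpace O] [CS O] [Sys O]
  [TopologicalSpace Y] [MeasurableSpace Y] [CS Y] [Sys Y]
  [TopologicalSpace C] [MeasurableSpace C] [CS C] [Sys C]
  [TopologicalSpace X'] [MeasurableSpace X'] [CS X'] [Sys X'] (A : Set (O × Y))
  (ms : Y → ProbabilityMeasure O) (θ : O × Y → C) (v₀ v₁ : Y × (ℕ → C)) (E : Set X')
  (q : X' → Y × (ℕ → C)) (lm : X' → ProbabilityMeasure O), PE A ms θ v₀ E q lm →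
  v₁ ∈ orb v₀ → v₁.1 = v₀.1 → ∃ Ξ, Chn v₀ v₁ E q Ξ

/-- [CLO] small displacements: the chains of frames which start at `v'` stay near `v'` for `j` steps. The
metric `d'` of the frames (`S_AUT`) is invariant, so `d' (w a) (w (a+1)) = d' v₀ v₁` for all `a` (constant
on `orb (v₀, v₁)`), and `d' v' (w j) ≤ j * d' v₀ v₁`; compactness. -/
def S_CLO : Prop := ∀ (C X : Type) [TopologicalSpace C] [MeasurableSpace C] [CS C] [Sys C]
  [TopologicalSpace X] [MeasurableSpace X] [CS X] [Sys X] (J : Set (C × X)) (d : C → C → X → ℝ),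
  Isom J d → ∀ v₀ : X × (ℕ → C), Frm J v₀ → ∀ v' ∈ orb v₀, ∀ W ∈ 𝓝 v', ∀ j : ℕ, ∃ U ∈ 𝓝 v₀,
  ∀ v₁ ∈ U, v₁ ∈ orb v₀ → v₁.1 = v₀.1 → ∀ w : ℕ → X × (ℕ → C), w 0 = v' →
    (∀ a, (w a, w (a + 1)) ∈ orb (v₀, v₁)) → w j ∈ W

/-- [F1X] the 0-1 law over the chains. `R̄ = {(p, v) | ∃ ξ' ∈ Ξ, q (ξ' 0) = v, (p, ξ') ∈ R}` is closed and
invariant; `S_CTR` for `Ξ`, `ξ ↦ q (ξ 0)`, `{p ∈ R | p.2 ∈ Ξ}`, `ms' ξ = lm (ξ 0) × lm (ξ 1)`: the value of
`R` at `ξ` is `vl q lm R̄ (ξ 0) (ξ 1)`; `(ξ 0, ξ 1)` is a minimal pair (image of the minimal set `Ξ`). -/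
def S_F1X : Prop := ∀ (O Y C X' : Type) [TopologicalSpace O] [MeasurableSpace O] [CS O] [Sys O]
  [TopologicalSpace Y] [MeasurableSpace Y] [CS Y] [Sys Y]
  [TopologicalSpace C] [MeasurableSpace C] [CS C] [Sys C]
  [TopologicalSpace X'] [MeasurableSpace X'] [CS X'] [Sys X'] (A : Set (O × Y))
  (ms : Y → ProbabilityMeasure O) (θ : O × Y → C) (v₀ v₁ : Y × (ℕ → C)) (E : Set X')
  (q : X' → Y × (ℕ → C)) (lm : X' → ProbabilityMeasure O) (Ξ : Set (ℕ → X')),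
  PE A ms θ v₀ E q lm → Z01 v₀ v₁ E q lm → Chn v₀ v₁ E q Ξ →
  ∀ R : Set ((O × O) × (ℕ → X')), IsClosed R → AK.Inv R → ∀ ξ ∈ Ξ,
    ((lm (ξ 0) : Measure O).prod (lm (ξ 1) : Measure O)) {p | (p, ξ) ∈ R} = 0 ∨
    ((lm (ξ 0) : Measure O).prod (lm (ξ 1) : Measure O)) {p | (p, ξ) ∈ R} = 1

/-- [CHL] the levels over the chains. `A₁ = At A θ (orb v₀) 0` is minimal and lies over `orb v₀`
(`S_T7M`); let `A'` be its base change along `ξ ↦ q (ξ j)` (`S_BCX`); `Lev A' (ξ ↦ lm (ξ j))` by `S_RIM`; the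
supports are in `A'` (`S_LEB`), so `MS` is a closed invariant non-empty subset of the minimal set `A'`. -/
def S_CHL : Prop := ∀ (k : ℕ) (Y C X' : Type)
  [TopologicalSpace Y] [MeasurableSpace Y] [CS Y] [Sys Y]
  [TopologicalSpace C] [MeasurableSpace C] [CS C] [Sys C]
  [TopologicalSpace X'] [MeasurableSpace X'] [CS X'] [Sys X'] (A : Set (Om k × Y))
  (ms : Y → PM k) (θ : Om k × Y → C) (v₀ v₁ : Y × (ℕ → C)) (E : Set X')
  (q : X' → Y × (ℕ → C)) (lm : X' → PM k) (Ξ : Set (ℕ → X')),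
  PE A ms θ v₀ E q lm → Chn v₀ v₁ E q Ξ → ∀ j : ℕ, ∀ ξ ∈ Ξ,
  BCh (At A θ (orb v₀) 0) Ξ (fun ξ => q (ξ j)) (MS (fun ξ : ℕ → X' => lm (ξ j)) ξ) ∧
  Lev (MS (fun ξ : ℕ → X' => lm (ξ j)) ξ) (fun ξ : ℕ → X' => lm (ξ j))

/-- [CHP] the phases of the second level determine the continuous invariant pseudometrics of the
levels over the chains. `Ξ` is strongly proximal over `Y₂` by `ξ ↦ p₂ (ξ j)` (`S_SPS`: smaller fibres; onto
`Y₂`, since `{ξ j | ξ ∈ Ξ} = E`). Base change of `A₂` to `Ξ` (`S_BCX`); by `S_BC2` it is the base change of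
`At A θ (orb v₀) 0`, which is unique (`S_BCF`), so it is `MS` (`S_CHL`); `S_BCU`. -/
def S_CHP : Prop := ∀ (k : ℕ) (Y C X' X₂ C₂ : Type)
  [TopologicalSpace Y] [MeasurableSpace Y] [CS Y] [Sys Y]
  [TopologicalSpace C] [MeasurableSpace C] [CS C] [Sys C]
  [TopologicalSpace X'] [MeasurableSpace X'] [CS X'] [Sys X']
  [TopologicalSpace X₂] [MeasurableSpace X₂] [CS X₂] [Sys X₂] [TopologicalSpace C₂] [Sys C₂]
  (A : Set (Om k × Y)) (ms : Y → PM k) (θ : Om k × Y → C) (v₀ v₁ : Y × (ℕ → C)) (E : Set X')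
  (q : X' → Y × (ℕ → C)) (lm : X' → PM k) (Ξ : Set (ℕ → X')) (Y₂ : Set X₂)
  (q₂ : X₂ → Y × (ℕ → C)) (A₂ : Set (Om k × X₂)) (ms₂ : X₂ → PM k) (θ₂ : Om k × X₂ → C₂)
  (p₂ : X' → X₂), PE A ms θ v₀ E q lm → Chn v₀ v₁ E q Ξ →
  L2 (At A θ (orb v₀) 0) Y₂ q₂ A₂ ms₂ θ₂ E q p₂ → ∀ j : ℕ, ∀ ξ ∈ Ξ,
  Uni (MS (fun ξ : ℕ → X' => lm (ξ j)) ξ) (fun p => θ₂ (p.1, p₂ (p.2 j)))

/-- [EHA] the hypotheses of the final argument. `X = ℕ → X'`, `x = ξ`, `x1 = (ξ (a + 1))_a`,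
`μ_j ξ = lm (ξ j)`. `minX`, `mem1`: `orb ξ = Ξ`, `Chn.step`. `m0`-`m2`: `S_CHL`. `ex`: `S_EX1` for the base
change of `S_CHL` along `ξ ↦ q (ξ 0)`. `zo`: `S_F1X`. `b1`, `b2`: `sd κ [] = κ.bind id`. `d1`: `κ1`-almost every
`m` lives on `{z | (z, ξ) ∈ MS μ1 ξ}` and on `{z | (z, x1) ∈ MS μ0 ξ}` (the barycentre does: `Lev.one`,
`S_CHL`; closed sets contain the support), and `θ₂` is constant on its support: `S_CHP` for `j = 1` at `ξ`
and for `j = 0` at `x1`. `d2` in the same way. `pal`: `μ2 x1 = lm (ξ 3)`. -/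
def S_EHA : Prop := ∀ (k : ℕ) (c : Om k) (Y C X' X₂ C₂ : Type)
  [TopologicalSpace Y] [MeasurableSpace Y] [CS Y] [Sys Y]
  [TopologicalSpace C] [MeasurableSpace C] [CS C] [Sys C]
  [TopologicalSpace X'] [MeasurableSpace X'] [CS X'] [Sys X']
  [TopologicalSpace X₂] [MeasurableSpace X₂] [CS X₂] [Sys X₂] [TopologicalSpace C₂] [Sys C₂]
  (A : Set (Om k × Y)) (ms : Y → PM k) (θ : Om k × Y → C) (v₀ v₁ : Y × (ℕ → C)) (E : Set X')
  (q : X' → Y × (ℕ → C)) (lm : X' → PM k) (Ξ : Set (ℕ → X')) (Y₂ : Set X₂)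
  (q₂ : X₂ → Y × (ℕ → C)) (A₂ : Set (Om k × X₂)) (ms₂ : X₂ → PM k) (θ₂ : Om k × X₂ → C₂)
  (p₂ : X' → X₂) (ξ : ℕ → X') (D : Finset (Fin k)) (κ1 κ2 : ProbabilityMeasure (PM k)),
  PE A ms θ v₀ E q lm → Z01 v₀ v₁ E q lm → Chn v₀ v₁ E q Ξ →
  L2 (At A θ (orb v₀) 0) Y₂ q₂ A₂ ms₂ θ₂ E q p₂ → ξ ∈ Ξ →
  Exa c (At A θ (orb v₀) 0) (q (ξ 0)) →
  Bar κ1 id (lm (ξ 1)) → Bar κ2 id (lm (ξ 2)) →
  (∀ᵐ m ∂(κ1 : Measure (PM k)), Dcp A₂ θ₂ (p₂ (ξ 1)) m) →
  (∀ᵐ m ∂(κ2 : Measure (PM k)), Dcp A₂ θ₂ (p₂ (ξ 2)) m) →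
  (0 < ∫⁻ m, ∏ r ∈ D, (m : Measure (Om k)) {z | z 0 = r} ∂(κ1 : Measure (PM k))) →
  (0 < ∫⁻ m, ∏ r ∈ D, (m : Measure (Om k)) {z | z 0 = r} ∂(κ2 : Measure (PM k))) →
  (lm (ξ 3) : Measure (Om k)) {z | z 0 ∉ D} = 0 →
  EH c ξ (fun a => ξ (a + 1)) (fun ξ => lm (ξ 0)) (fun ξ => lm (ξ 1)) (fun ξ => lm (ξ 2)) D
    (κ1 : Measure (PM k)) (κ2 : Measure (PM k))

/-- [FSM] members of the decompositions over every phase. `F` is a closed set of pairs (frame of the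
second level, measure living on the points with the `0`-th phase of the frame). For every phase `s` over
`p₂ e` and every closed `K` of full `κ`-measure there is a member in `K` over a frame with `0`-th phase `s`.
`E` is strongly proximal over `Y₂` (`S_SPS`); let `A''` be the base change of `A₂` to `E` (`S_BCX`),
`Lev A'' lm` (`S_RIM`); `lm e` charges all balls of the phase (`S_BLX`), so `κ` charges the set of the
members whose phase is `ε`-close to `s`; take a limit `ε → 0` in the compact set `F`. -/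
def S_FSM : Prop := ∀ (k : ℕ) (Y C X' X₂ C₂ : Type)
  [TopologicalSpace Y] [MeasurableSpace Y] [CS Y] [Sys Y]
  [TopologicalSpace C] [MeasurableSpace C] [CS C] [Sys C]
  [TopologicalSpace X'] [MeasurableSpace X'] [CS X'] [Sys X']
  [TopologicalSpace X₂] [MeasurableSpace X₂] [CS X₂] [Sys X₂]
  [TopologicalSpace C₂] [MeasurableSpace C₂] [CS C₂] [Sys C₂]
  (A : Set (Om k × Y)) (ms : Y → PM k) (θ : Om k × Y → C) (v₀ : Y × (ℕ → C)) (E : Set X')
  (q : X' → Y × (ℕ → C)) (lm : X' → PM k) (Y₂ : Set X₂)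
  (q₂ : X₂ → Y × (ℕ → C)) (A₂ : Set (Om k × X₂)) (ms₂ : X₂ → PM k) (θ₂ : Om k × X₂ → C₂)
  (p₂ : X' → X₂) (F : Set ((X₂ × (ℕ → C₂)) × PM k)) (e : X') (κ : ProbabilityMeasure (PM k))
  (s : C₂) (K : Set (PM k)),
  PE A ms θ v₀ E q lm → L2 (At A θ (orb v₀) 0) Y₂ q₂ A₂ ms₂ θ₂ E q p₂ → Pha A₂ θ₂ →
  (∀ x ∈ E, lm x {u | (u, p₂ x) ∈ A₂} = 1) →
  IsClosed F → (∀ p ∈ F, ∀ z ∈ supp p.2, (z, p.1.1) ∈ A₂ ∧ θ₂ (z, p.1.1) = p.1.2 0) →
  e ∈ E → Bar κ id (lm e) → κ {m | ∃ t, ((p₂ e, t), m) ∈ F} = 1 → (s, p₂ e) ∈ JJ A₂ θ₂ →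
  IsClosed K → κ K = 1 → ∃ (t : ℕ → C₂) (m : PM k), ((p₂ e, t), m) ∈ F ∧ t 0 = s ∧ m ∈ K

end Pool.Agent.Work.MP_69fea5_lc.W3
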