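import Pool.Agent.Work.MP_69fea5_lc.W3.DefsM
import Pool.Agent.Work.MP_69fea5_lc.W3.StmtsT
import Pool.Agent.Work.MP_69fea5_lc.W3.StmtsE
import Pool.Agent.Work.MP_69fea5_lc.W3.StmtsF1
import Pool.Agent.Work.MP_69fea5_lc.W3.Final
import Pool.Agent.Work.MP_69fea5_lc.N3.StmtsH2

/-!
# Block [69fea5 F], the main line: statements of the items

Every item is a theorem `XXX_pf (h1 : S_A) (h2 : AK.S_B) ... : S_XXX` in its own file
`W3/I_XXX.lean`; the hypotheses may be any statements of EARLIER items of this file, any statement of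
`W3/StmtsT.lean`, `W3/StmtsE.lean`, `W3/StmtsF1.lean`, and `AK.S_...`, `N3.S_...`, `KC.S_...`, `HK.S_...` (all proved
on main). `W3/Cod.lean` has the coded calculus (everything there is proved).

Conventions: `X` any coded system; `A ⊆ Om k × X` minimal; `v : WF k X` a frame over a level over
`X`; `e : XE k X` a point of the last level, `e.2` its measure, `qE e` its frame, `e.1` its point of
the second level.
-/

set_option autoImplicit false

namespace Pool.Agent.Work.MP_69fea5_lc.W3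

open MeasureTheory Topology Set Filter TopologicalSpace
open scoped NNReal ENNReal
open Pool.Agent.Work.MP_69fea5_lc.AK
open Pool.Agent.Work.MP_69fea5_lc.HK (Cl DU Ar ArF ArR Dat Law LawC act near sc Pt oc Mn mr ext)
open Pool.Agent.Work.MP_69fea5_lc.KC (Agree)

/-! ## 1. Levels and frames over a coded base -/

/-- [VNB] the balls `Vn x₀` are a base of open neighbourhoods of the points of `orb x₀`
(`Law.near_open`, `Law.near_basis`, density of the orbit: for `x ∈ orb x₀` and `L` large choose `n`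
with `sh n x₀` very near `x`). -/
def S_VNB : Prop := ∀ (X : Type) [TopologicalSpace X] [MeasurableSpace X] [Sys X] [Dat X] [CSys X]
  (x₀ : X), Bas (Vn x₀) (orb x₀)

/-- [THPT] the phase of a coded point is coded. The value of the coordinate `(L, Q), n` is the
measure of `cyl Q n ∩ RL (Vn y) L z y`, the decreasing limit over `N` of the measures of the clopen
sets of the `u'` with `¬ (z ∈ cyl q.1 n' ∧ u' ∈ cyl q.2.1 n' ∧ sh n' y ∈ Vn y q.2.2)` for all `|n'| ≤ N`,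
`q ∈ L`, `u' ∈ cyl Q n`: decidable conditions on a word of `u'` (`HK.MEASW_pf`, `ArR.iInf`; model
`N3/I_RSC.lean`, `KC/I_KTH.lean`; `LawC.sc_near`). -/
def S_THPT : Prop := ∀ (S : Set (Set ℕ)), Cl S → ∀ (k : ℕ) (X : Type) [TopologicalSpace X]
  [MeasurableSpace X] [Sys X] [Dat X] [CSys X] (y : X × PM k) (z : Om k), Pt S y → Pt S z →
  Pt S (th y (z, y))

/-- [ZSC] a coded base point (model `KC/I_KZS.lean`, `KC.S_ZEX`, `KC.S_ZLIM`, with `near` on `X`
instead of `near` on `PM k`). -/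
def S_ZSC : Prop := ∀ (S : Set (Set ℕ)) (U : Ultrafilter ℕ), Cl S → DU S U → ∀ (k : ℕ) (c : Om k)
  (X : Type) [TopologicalSpace X] [MeasurableSpace X] [Sys X] [Dat X] [CSys X] (m : PM k) (x : X),
  Pt S c → Pt S m → Pt S x → (∃ z, ZSX c m x z) → ∃ z, Pt S z ∧ ZSX c m x z

/-- [LXC] a coded element of minimal energy of the family of the barycentres of the translates of
a coded measure `m`, with minimal orbit closure. Averages of the measures `sh n m`, `n` in a finite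
list of times with `sh n x` near `x`, which are almost optimal for the energy (model
`AK/I_APX.lean`, `KC/I_KAA.lean`; `S_FAM`, `S_FSD`), a limit along `U`; then a minimal point over `x`
(`N3/I_KMZ.lean`, `W3/Cod.lean`). -/
def S_LXC : Prop := ∀ (S : Set (Set ℕ)) (U : Ultrafilter ℕ), Cl S → DU S U → ∀ (k : ℕ)
  (X : Type) [TopologicalSpace X] [MeasurableSpace X] [Sys X] [Dat X] [CSys X] (x : X) (m : PM k),
  Pt S x → Pt S m → MinSet (orb x) → ∃ l : PM k, Pt S l ∧ (x, l) ∈ AAF (orb (x, m)) ∧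
    MinSet (orb (x, l))

/-- [LXL] the level of such an element. `E = orb (x, l)` is a minimal subset of `AAF (orb (x, m))`
(`S_AAN`, `S_SEO`), so `SPx E Prod.fst` (`S_SPE`); all `(x', m') ∈ orb (x, m)`, hence all elements of the
family, hence all elements of `E`, are carried by the fibres of `A` (closed condition; barycentres:
`S_BRX`); `S_BCX`, `S_RIM`, `S_EX1`. Existence of a coded point of `A'` over `(x, l)`: a coded minimal
point over `(x, l)` in the orbit closure of `(z, (x, l))`, `z` coded, `(z, x) ∈ A`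
(`exists_fibre_min` in `W3/Cod.lean`), is in `A'` by `S_BCF`. -/
def S_LXL : Prop := ∀ (S : Set (Set ℕ)) (U : Ultrafilter ℕ), Cl S → DU S U → ∀ (k : ℕ) (c : Om k),
  Pt S c → ∀ (X : Type) [TopologicalSpace X] [MeasurableSpace X] [Sys X] [Dat X] [CSys X]
  (A : Set (Om k × X)) (x : X) (m l : PM k), Cb S c A x → m {u | (u, x) ∈ A} = 1 → Pt S l →
  (x, l) ∈ AAF (orb (x, m)) → MinSet (orb (x, l)) →
  ∃ A' : Set (Om k × (X × PM k)), BCh A (orb (x, l)) Prod.fst A' ∧ Lev A' Prod.snd ∧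
    Cb S c A' (x, l) ∧
    ∀ e ∈ orb (x, l), e ∈ Fam (orb (x, m))

/-- [DIR] the point mass at a coded point is coded, and the family of its translates is the family
of point masses of `A = orb (z, x)`. -/
def S_DIR : Prop := ∀ (S : Set (Set ℕ)), Cl S → ∀ (k : ℕ) (X : Type) [TopologicalSpace X]
  [MeasurableSpace X] [Sys X] [Dat X] [CSys X] (A : Set (Om k × X)) (z : Om k) (x : X), Pt S z →
  MinSet A → (z, x) ∈ A → Pt S (diracProba z : PM k) ∧ orb (x, (diracProba z : PM k)) = Dlt A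

/-- [FRC] levels with exact coded frames exist. `S_LXC` for `m = δ_z`, `S_LXL`; `y = (x, l)`; the
phase `th y` is universal for `A₁` (`S_VNB`, `S_THP`; `Prod.snd '' A₁ = orb y`); a coded `z*` with
`ZSX c l y z*` (`S_ZSE`, `S_ZSC`), its phase is exact (`S_EX2`); a coded dense family `u l` in the
fibre of `A₁` over `y` (`exists_dense_fibre`, `A₁ = orb (z', y)`); the frame `t 0 = th y (z*, y)`,
`t (l + 1) = th y (u l, y)`; the family is coded (`S_THPT` at one point, `pt_map_fam`); `S_EX3`. The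
coded point of `A1t` over the frame is `z*`. -/
def S_FRC : Prop := ∀ (S : Set (Set ℕ)) (U : Ultrafilter ℕ), Cl S → DU S U → ∀ (k : ℕ) (c : Om k),
  Pt S c → ∀ (X : Type) [TopologicalSpace X] [MeasurableSpace X] [Sys X] [Dat X] [CSys X]
  (A : Set (Om k × X)) (x : X), Cb S c A x → ∃ A₁ v, LF S c A x A₁ v

/-- [TDX] the data of the step exist: `S_FRC` twice, the induction hypothesis over the second frame,
`S_LXC` and `S_LXL` for the base `A₂` and the measure `m₃` (it is carried by the fibre of `A₂`). -/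
def S_TDX : Prop := ∀ (S : Set (Set ℕ)) (U : Ultrafilter ℕ), Cl S → DU S U → ∀ (k : ℕ) (c : Om k),
  Pt S c → ∀ (j : ℕ), Psi S c j → ∀ (X : Type) [TopologicalSpace X] [MeasurableSpace X] [Sys X]
  [Dat X] [CSys X] (A : Set (Om k × X)) (x : X), Cb S c A x →
  ∃ A₁ v A₂ w m₃ l₀ AE, TD S c j A x A₁ v A₂ w m₃ l₀ AE

/-! ## 2. Facts on the data of the step -/

/-- [TDF] first facts: `E = orb (w.1, l₀)` is a strongly proximal extension of the frames `orb v`
(`S_SPC`, `S_BC2`), `AE` is the base change of `A1t A₁ v`; the data `PE` and `L2` of part F1 (`S_T7M` for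
`Prod.snd '' A1t A₁ v = orb v`); the elements of `E` are barycentres of translates of `m₃`; the members `m`
of the family over `y` are carried by `A1t A₂ w` over a frame `w'` over `y`; the measures of `E` are
carried by the fibres of `A`. -/
def S_TDF : Prop := ∀ (S : Set (Set ℕ)) (k : ℕ) (c : Om k) (j : ℕ)
  (X : Type) [TopologicalSpace X] [MeasurableSpace X] [Sys X] [Dat X] [CSys X]
  (A : Set (Om k × X)) (x : X) (A₁ : Set (Om k × (X × PM k))) (v : WF k X)
  (A₂ : Set (Om k × (WF k X × PM k))) (w : WF k (WF k X)) (m₃ l₀ : PM k)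
  (AE : Set (Om k × XE k X)), TD S c j A x A₁ v A₂ w m₃ l₀ AE →
  BCh (A1t A₁ v) (orb (w.1, l₀)) qE AE ∧
  PE A₁ Prod.snd (th v.1) v (orb (w.1, l₀)) qE Prod.snd ∧
  L2 (A1t A₁ v) (orb w.1) Prod.fst A₂ Prod.snd (th w.1) (orb (w.1, l₀)) qE Prod.fst ∧
  (∀ e ∈ orb (w.1, l₀), e ∈ Fam (orb (w.1, m₃)) ∧ qE e ∈ orb v ∧
    e.2 {u | (u, (qE e).1.1) ∈ A} = 1) ∧
  (∀ (y : WF k X × PM k) (m : PM k), (y, m) ∈ orb (w.1, m₃) → ∃ w' : WF k (WF k X), w'.1 = y ∧
    (w', m) ∈ orb (w, m₃) ∧ w' ∈ orb w ∧ m {u | (u, w') ∈ A1t A₂ w} = 1)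

/-- [GBA] a coded Baire argument in the fibre `{c ∈ orb v | c.1 = v.1}`. `O_s` = the union of the balls
`{c | near p.2 (act p.1 v) c}` with `D (s, p)`. There are coded points `v₁ i` of the fibre, `near i` to
`v`, with: `v₁ i ∈ O_s`, or some neighbourhood of `v₁ i` in the fibre does not meet the smaller balls
`near (2 * p.2 + 1)`. Construction (uniform in `i`): `b = (m, r)` with the invariant
`∀ M, ∃ n, near M (act n v).1 v.1 ∧ near (4 * r + 9) (act m v) (act n v)` (coded). Step `s`: if there are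
`p, m', r'` with `D (s, p)`, `near (2 * r + 1) (act m v) (act m' v)`, `near (2 * p.2 + 1) (act p.1 v) (act m' v)`,
`r' ≥ 2 * r + 2, 2 * p.2 + 2, s` and the invariant for `(m', r')`: take it; otherwise any `(m', r')` with
`near (2 * (2 * r + 1) + 1) (act m v) (act m' v)`, `r' ≥ 2 * (2 * r + 1) + 2, s` and the invariant.
`Ar.choose`, recursion as in `KC/I_KCI.lean` / `N3/I_GSL.lean`; `v₁ i` = limit along `U` of `act (m_s) v`.
If `c ∈ W := {c | near (2 * r + 1) (act m v) c}` is in the fibre, `D (s, p)`, `near (2 * p.2 + 1) (act p.1 v) c`,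
then every `m'` with `act m' v` near enough to `c` satisfies the first case. (helper61) -/
def S_GBA : Prop := ∀ (S : Set (Set ℕ)) (U : Ultrafilter ℕ), Cl S → DU S U → ∀ (Y C : Type)
  [TopologicalSpace Y] [MeasurableSpace Y] [Sys Y] [Dat Y] [CSys Y]
  [TopologicalSpace C] [MeasurableSpace C] [Sys C] [Dat C] [CSys C] (v : Y × (ℕ → C))
  (D : ℕ × (ℤ × ℕ) → Prop), Pt S v → Ar S D →
  ∃ v₁ : ℕ → Y × (ℕ → C), sc S v₁ ∧ ∀ i, v₁ i ∈ orb v ∧ (v₁ i).1 = v.1 ∧ near i (v₁ i) v ∧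
    ∀ s, (∃ p, D (s, p) ∧ near p.2 (act p.1 v) (v₁ i)) ∨
      ∃ W ∈ 𝓝 (v₁ i), ∀ c ∈ W, c ∈ orb v → c.1 = v.1 → ∀ p, D (s, p) →
        ¬ near (2 * p.2 + 1) (act p.1 v) c

/-- [GVL] small values are recognised on balls. `E = orb e₀`; for `c` in the fibre of the frames over
`v.1` and a list `L` the values `vl q lm (RLs (Vn v) L) a b`, `q a = v`, `q b = c`. `D ((L, n), (m, r))`:
there are `M` and a rational `t < 1 / (n + 1)` with: for all times `n₁, n₂` with `near M (act n₁ v) v`,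
`near M (act n₂ v).1 v.1`, `near r (act m v) (act n₂ v)` the measure `lm (act n₁ e₀) × lm (act n₂ e₀)` of
the clopen set of the pairs `p` with `¬ (p.1 ∈ cyl q.1 n' ∧ p.2 ∈ cyl q.2.1 n' ∧ sh n' v ∈ Vn v q.2.2)` for all
`|n'| ≤ M`, `q ∈ L`, is at most `t` (the condition on `sh n' v`: coded, and stable because the balls are
open: use only `q, n'` with `sh n' v` in the ball; `RLs` at `q a = v`). Sound: limits of the times (`a`, `b`
are limits of translates of `e₀`, `near` is open; first the limit of `n₂`, then that of `n₁`). Complete: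
let all values over `c` be `< 1 / (n + 1)`, `t` between their maximum (usc, compact) and `1 / (n + 1)`; for
`r = R` and `m = m_R` with `near (2 * R + 1) (act m v) c` and `M = R` large the condition holds (otherwise a
limit of the times gives `a`, `b` over `v`, `c` with a value `≥ t` for all windows). -/
def S_GVL : Prop := ∀ (S : Set (Set ℕ)) (U : Ultrafilter ℕ), Cl S → DU S U → ∀ (k : ℕ)
  (Y C W : Type) [TopologicalSpace Y] [MeasurableSpace Y] [Sys Y] [Dat Y] [CSys Y]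
  [TopologicalSpace C] [MeasurableSpace C] [Sys C] [Dat C] [CSys C]
  [TopologicalSpace W] [MeasurableSpace W] [Sys W] [Dat W] [CSys W] (v : Y × (ℕ → C))
  (q : W → Y × (ℕ → C)) (e₀ : W) (lm : W → PM k), Continuous q →
  (∀ (n : ℤ) (e : W), q (sh n e) = sh n (q e)) → Continuous lm →
  (∀ (n : ℤ) (e : W), lm (sh n e) = sh n (lm e)) → q e₀ = v → Pt S v → Pt S e₀ →
  Pt S (lm e₀) →
  ∃ D : (List (Wd k × Wd k × (ℕ × ℤ)) × ℕ) × (ℤ × ℕ) → Prop, Ar S D ∧
    (∀ L (n : ℕ) m r, D ((L, n), (m, r)) → ∀ c ∈ orb v, c.1 = v.1 → near r (act m v) c →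
      ∀ a ∈ orb e₀, ∀ b ∈ orb e₀, q a = v → q b = c →
        vl q lm (RLs (Vn v) L) a b < 1 / ((n : ℝ≥0∞) + 1)) ∧
    ∀ L (n : ℕ), ∀ c ∈ orb v, c.1 = v.1 →
      (∀ a ∈ orb e₀, ∀ b ∈ orb e₀, q a = v → q b = c →
        vl q lm (RLs (Vn v) L) a b < 1 / ((n : ℝ≥0∞) + 1)) →
      ∃ m r, D ((L, n), (m, r)) ∧ near (2 * r + 1) (act m v) c

/-- [GEN] coded generic frames near `v`: the 0-1 law. `S_GBA` for the predicate `D` of `S_GVL` (`s`
codes `(L, n)`). For `c = v₁ i` and a list `L`: if `c ∈ O_(L, n)` for all `n`, all values over `(v, c)` are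
`0`; otherwise a neighbourhood of `c` does not meet `O_(L, n)`, so by `S_FDN` some value is `1`. So `S_ZOL`
(`V = Vn v`, `S_VNB`) applies. -/
def S_GEN : Prop := ∀ (S : Set (Set ℕ)) (U : Ultrafilter ℕ), Cl S → DU S U → ∀ (k : ℕ)
  (Y C W : Type) [TopologicalSpace Y] [MeasurableSpace Y] [Sys Y] [Dat Y] [CSys Y]
  [TopologicalSpace C] [MeasurableSpace C] [Sys C] [Dat C] [CSys C]
  [TopologicalSpace W] [MeasurableSpace W] [Sys W] [Dat W] [CSys W]
  (A : Set (Om k × Y)) (ms : Y → PM k) (θ : Om k × Y → C) (v : Y × (ℕ → C))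
  (q : W → Y × (ℕ → C)) (e₀ : W) (lm : W → PM k), PE A ms θ v (orb e₀) q lm →
  q e₀ = v → Pt S v → Pt S e₀ → Pt S (lm e₀) →
  ∃ v₁ : ℕ → Y × (ℕ → C), sc S v₁ ∧ ∀ i, v₁ i ∈ orb v ∧ (v₁ i).1 = v.1 ∧ near i (v₁ i) v ∧
    Z01 v (v₁ i) (orb e₀) q lm

/-- [AUC] images of a coded family of frames under a coded family of automorphisms are coded and
exist: `(a p, b p) ∈ orb (v, v₁ p)`. (Coded times `n (p, r)` with `sh n v` near `a p`, the limit of
`sh n (v₁ p)`; the automorphism is continuous, `S_AUT`.) -/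
def S_AUC : Prop := ∀ (S : Set (Set ℕ)) (U : Ultrafilter ℕ), Cl S → DU S U → ∀ (Y C : Type) [TopologicalSpace Y] [MeasurableSpace Y] [Sys Y] [Dat Y] [CSys Y]
  [TopologicalSpace C] [MeasurableSpace C] [Sys C] [Dat C] [CSys C]
  (J : Set (C × Y)) (d : C → C → Y → ℝ) (v : Y × (ℕ → C)), Isom J d → Frm J v → Pt S v →
  ∀ (ι : Type) [Primcodable ι] (v₁ a : ι → Y × (ℕ → C)), sc S v₁ → sc S a →
  (∀ p, v₁ p ∈ orb v ∧ (v₁ p).1 = v.1) → (∀ p, a p ∈ orb v) →
  ∃ b : ι → Y × (ℕ → C), sc S b ∧ ∀ p, b p ∈ orb v ∧ (a p, b p) ∈ orb (v, v₁ p)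

/-- [TUX] the coded families of the step exist. `v₁` from `S_GEN` (`q = qE`, `lm = Prod.snd`, `e₀ = (w.1, l₀)`; `S_TDF`),
`vl` from `exists_dense_fibre`, the frames of the quadruples from `S_AUC` (three times), points of `E`
over them: coded times `n` with `sh n v` near the frame, the limit of `sh n (w.1, l₀)`; then a minimal
point over `v` in the orbit closure of `(v, (vl, e))` (`exists_fibre_min`); its second component is `vl`
because it is determined by `v` (`S_DET`). -/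
def S_TUX : Prop := ∀ (S : Set (Set ℕ)) (U : Ultrafilter ℕ), Cl S → DU S U → ∀ (k : ℕ) (c : Om k),
  Pt S c → ∀ (j : ℕ)
  (X : Type) [TopologicalSpace X] [MeasurableSpace X] [Sys X] [Dat X] [CSys X]
  (A : Set (Om k × X)) (x : X) (A₁ : Set (Om k × (X × PM k))) (v : WF k X)
  (A₂ : Set (Om k × (WF k X × PM k))) (w : WF k (WF k X)) (m₃ l₀ : PM k)
  (AE : Set (Om k × XE k X)), TD S c j A x A₁ v A₂ w m₃ l₀ AE →
  ∃ v₁ vl e, Tup S v (orb (w.1, l₀)) v₁ vl e

/-- [MIX] the mixture exists, it is coded, equivariant and continuous as a function of the family, and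
it is carried by the fibre of `A` over `x`. -/
def S_MIX : Prop :=
  (∀ (k : ℕ) (X : Type) [TopologicalSpace X] [Sys X] (e : ℕ × ℕ → Q4 (XE k X)),
    ∃ m : PM k, Mix e m ∧ (∀ m', Mix e m' → m' = m) ∧ ∀ n : ℤ, Mix (sh n e) (sh n m)) ∧
  (∀ (k : ℕ) (X : Type) [TopologicalSpace X] [Sys X],
    IsClosed {p : (ℕ × ℕ → Q4 (XE k X)) × PM k | Mix p.1 p.2}) ∧
  (∀ (S : Set (Set ℕ)), Cl S → ∀ (k : ℕ) (X : Type) [TopologicalSpace X] [MeasurableSpace X]
    [Sys X] [Dat X] [CSys X] (e : ℕ × ℕ → Q4 (XE k X)) (m : PM k), sc S e → Mix e m → Pt S m) ∧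
  ∀ (k : ℕ) (X : Type) (e : ℕ × ℕ → Q4 (XE k X)) (m : PM k) (B : Set (Om k)), MeasurableSet B →
    Mix e m →
    (m B = 0 ↔ ∀ p, (e p).1.2 B = 0 ∧ (e p).2.1.2 B = 0 ∧ (e p).2.2.1.2 B = 0 ∧
      (e p).2.2.2.2 B = 0)

/-! ## 3. Transport -/

/-- [DNT] limits of the dense family: if `(v', vl')` is in the orbit closure of `(v, vl)` then the
frames `vl' l` are dense in the fibre over `v'.1` and lie in `orb v` (`S_AUT`: `orb v` is an isometric
extension of the base, `S_ONT`). -/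
def S_DNT : Prop := ∀ (Y C : Type) [TopologicalSpace Y] [MeasurableSpace Y] [CS Y] [Sys Y]
  [TopologicalSpace C] [MeasurableSpace C] [CS C] [Sys C]
  (J : Set (C × Y)) (d : C → C → Y → ℝ) (v : Y × (ℕ → C)) (vl : ℕ → Y × (ℕ → C)), Isom J d →
  Frm J v → (∀ l, vl l ∈ orb v ∧ (vl l).1 = v.1) →
  (∀ v' ∈ orb v, v'.1 = v.1 → v' ∈ closure (Set.range vl)) →
  ∀ p ∈ orb (v, vl), (∀ l, p.2 l ∈ orb v ∧ (p.2 l).1 = p.1.1) ∧
    ∀ v' ∈ orb v, v'.1 = p.1.1 → v' ∈ closure (Set.range p.2)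

/-- [UMC] the almost periodic quadruples over a chain of frames with step `v₁` form one minimal set:
the set `P` of the quadruples of points of `E` whose frames form a chain is closed, invariant, and
strongly proximal over `orb v` (`S_SPN` or `S_SPP`; the other frames are functions of the first one:
`S_AUT`, `orb v₁ = orb v`), `S_UMS`. -/
def S_UMC : Prop := ∀ (k : ℕ) (Y C X' : Type)
  [TopologicalSpace Y] [MeasurableSpace Y] [CS Y] [Sys Y]
  [TopologicalSpace C] [MeasurableSpace C] [CS C] [Sys C]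
  [TopologicalSpace X'] [MeasurableSpace X'] [CS X'] [Sys X'] (A : Set (Om k × Y))
  (ms : Y → PM k) (θ : Om k × Y → C) (v v₁ : Y × (ℕ → C)) (E : Set X') (q : X' → Y × (ℕ → C))
  (lm : X' → PM k), PE A ms θ v E q lm → v₁ ∈ orb v → v₁.1 = v.1 →
  let P : Set (Q4 X') := {ξ | ξ.1 ∈ E ∧ ξ.2.1 ∈ E ∧ ξ.2.2.1 ∈ E ∧ ξ.2.2.2 ∈ E ∧
    (q ξ.1, q ξ.2.1) ∈ orb (v, v₁) ∧ (q ξ.2.1, q ξ.2.2.1) ∈ orb (v, v₁) ∧
    (q ξ.2.2.1, q ξ.2.2.2) ∈ orb (v, v₁)}
  IsClosed P ∧ AK.Inv P ∧ ∃ L : Set (Q4 X'), MinSet L ∧ L ⊆ P ∧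
    ∀ ξ ∈ P, MinSet (orb ξ) → orb ξ = L

/-- [XCH] an almost periodic quadruple over a chain of frames extends to an infinite chain in the
minimal set of chains of part F1 (`S_CHX`; the image of `Ξ` under `ξ ↦ (ξ 0, ξ 1, ξ 2, ξ 3)` is a minimal
subset of the set `P` of `S_UMC`). -/
def S_XCH : Prop := ∀ (k : ℕ) (Y C X' : Type)
  [TopologicalSpace Y] [MeasurableSpace Y] [CS Y] [Sys Y]
  [TopologicalSpace C] [MeasurableSpace C] [CS C] [Sys C]
  [TopologicalSpace X'] [MeasurableSpace X'] [CS X'] [Sys X'] (A : Set (Om k × Y))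
  (ms : Y → PM k) (θ : Om k × Y → C) (v v₁ : Y × (ℕ → C)) (E : Set X') (q : X' → Y × (ℕ → C))
  (lm : X' → PM k), PE A ms θ v E q lm → v₁ ∈ orb v → v₁.1 = v.1 → ∀ ξ : Q4 X',
  MinSet (orb ξ) → ξ.1 ∈ E → ξ.2.1 ∈ E → ξ.2.2.1 ∈ E → ξ.2.2.2 ∈ E →
  (q ξ.1, q ξ.2.1) ∈ orb (v, v₁) → (q ξ.2.1, q ξ.2.2.1) ∈ orb (v, v₁) →
  (q ξ.2.2.1, q ξ.2.2.2) ∈ orb (v, v₁) →
  ∃ (Ξ : Set (ℕ → X')) (ζ : ℕ → X'), Chn v v₁ E q Ξ ∧ ζ ∈ Ξ ∧ ζ 0 = ξ.1 ∧ ζ 1 = ξ.2.1 ∧
    ζ 2 = ξ.2.2.1 ∧ ζ 3 = ξ.2.2.2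

/-- [EXF] an exact coded frame over every coded exact point of the level: `y' ∈ orb v.1` coded and
exact for `A₁` (a coded `z*` with `ZSX c y'.2 y' z*`, its phase `th v.1 (z*, y')` is exact, `S_EX2`,
and coded by `pt_map`; frames `v' ∈ orb v` over `y'` with this first phase exist because
`v' ↦ (v'.2 0, v'.1)` maps `orb v` onto the minimal set `JJ A₁ _`; a coded one as a limit of `sh n v` with
`sh n v.1` near `y'` and `(sh n v).2 0` near the phase; `S_EX3`). Form for later use: the measure of the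
level is `y'.2`, `z*` is given. -/
def S_EXF : Prop := ∀ (S : Set (Set ℕ)) (U : Ultrafilter ℕ), Cl S → DU S U → ∀ (k : ℕ) (c : Om k),
  Pt S c → ∀ (X : Type) [TopologicalSpace X] [MeasurableSpace X] [Sys X] [Dat X] [CSys X]
  (A : Set (Om k × X)) (x : X) (A₁ : Set (Om k × (X × PM k))) (v : WF k X), LF S c A x A₁ v →
  ∀ y' ∈ orb v.1, Pt S y' → Exa c A₁ y' → ∃ z : Om k, Pt S z ∧ ZSX c y'.2 y' z ∧
    (z, y') ∈ A₁ ∧ Pt S (th v.1 (z, y')) ∧
    (∀ v' ∈ orb v, v'.1 = y' → v'.2 0 = th v.1 (z, y') → Exa c (A1t A₁ v) v') ∧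
    ∃ v' ∈ orb v, Pt S v' ∧ v'.1 = y' ∧ v'.2 0 = th v.1 (z, y')

/-- [TRN] transport: over every coded exact translate `(x', m')` of `(x, m₀)`, `m₀` the mixture, there
are an exact frame `v'` and for every `i` a chain over `v'` with the step `v₁ i` with colours in
`pal m'`. Proof: coded times `n r` with `sh (n r) (x, m₀)` near `(x', m')`; coded limits
`(v'₀, (vl', e'))` of the translates of `(v, (vl, e))`; `m'` is the mixture of `e'` (`S_MIX`), so the
measures of `e'` do not charge the colours outside `C = pal m'`; `v'₀.1` is over `x'`, exact by `S_EX1`;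
`S_EXF` for `y' = v'₀.1`; by `S_DNT` the first frames `vl' l` come near to `v'`: coded `l m` with
`vl' (l m)` near `v'` at level `m`, and `ξ i` = the limit along `U` of `e' (i, l m)`; chains are closed
conditions; all the quadruples `e' (i, l)`, `l ∈ ℕ`, are in one minimal set (`S_UMC`). -/
def S_TRN : Prop := ∀ (S : Set (Set ℕ)) (U : Ultrafilter ℕ), Cl S → DU S U → ∀ (k : ℕ) (c : Om k),
  Pt S c → ∀ (j : ℕ)
  (X : Type) [TopologicalSpace X] [MeasurableSpace X] [Sys X] [Dat X] [CSys X]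
  (A : Set (Om k × X)) (x : X) (A₁ : Set (Om k × (X × PM k))) (v : WF k X)
  (A₂ : Set (Om k × (WF k X × PM k))) (w : WF k (WF k X)) (m₃ l₀ : PM k)
  (AE : Set (Om k × XE k X)), TD S c j A x A₁ v A₂ w m₃ l₀ AE →
  ∀ (v₁ vl : ℕ → WF k X) (e : ℕ × ℕ → Q4 (XE k X)), Tup S v (orb (w.1, l₀)) v₁ vl e →
  ∀ m₀ : PM k, Mix e m₀ → ∀ (x' : X) (m' : PM k), Pt S x' → Pt S m' →
  (x', m') ∈ orb (x, m₀) → Exa c A x' →
  ∃ (v' : WF k X) (ξ : ℕ → Q4 (XE k X)), sc S ξ ∧
    ∀ i, qE (ξ i).1 = v' ∧ Ch4 c A₁ v (v₁ i) (orb (w.1, l₀)) (pal m') (ξ i)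

/-! ## 4. The dichotomy -/

/-- [CLT] small automorphisms: if `v₁ i → v` along `U` and `a i → a'`, `(a i, b i) ∈ orb (v, v₁ i)` then
`b i → a'` (the metric of `S_AUT` is invariant: the distance of `a i` and `b i` is that of `v` and
`v₁ i`). -/
def S_CLT : Prop := ∀ (Y C : Type) [TopologicalSpace Y] [MeasurableSpace Y] [CS Y] [Sys Y]
  [TopologicalSpace C] [MeasurableSpace C] [CS C] [Sys C]
  (J : Set (C × Y)) (d : C → C → Y → ℝ) (v : Y × (ℕ → C)), Isom J d → Frm J v →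
  ∀ (ι : Type) (U : Ultrafilter ι) (v₁ a b : ι → Y × (ℕ → C)) (a' : Y × (ℕ → C)),
  (∀ i, v₁ i ∈ orb v ∧ (v₁ i).1 = v.1) → Tendsto v₁ (U : Filter ι) (𝓝 v) →
  Tendsto a (U : Filter ι) (𝓝 a') → (∀ i, (a i, b i) ∈ orb (v, v₁ i)) →
  Tendsto b (U : Filter ι) (𝓝 a')

/-- [BDL] limits of bad points: if no decomposition of `b i` charges all colours of `C` at once, then
the limit `b'` has a decomposition `κ` with `pC C κ = 0` (every element of the family has a
decomposition; `pC C` is continuous, the relation `Dco` is closed: `S_BRC`). -/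
def S_BDL : Prop := ∀ (k : ℕ) (Y : Type) [TopologicalSpace Y] [MeasurableSpace Y] [CS Y] [Sys Y]
  (F : Set (Y × PM k)), IsClosed F → AK.Inv F → ∀ (C : Finset (Fin k)) (ι : Type)
  (U : Ultrafilter ι) (b : ι → Y × PM k) (b' : Y × PM k), (∀ i, b i ∈ Fam F) →
  (∀ i, ¬ Good F C (b i)) → Tendsto b (U : Filter ι) (𝓝 b') →
  ∃ κ, Dco F b' κ ∧ pC C κ = 0

/-- [MEM] a member with an exact phase: let `b ∈ E`, `κ` a decomposition of `b` with `pC C κ = 0`,
`b.2` without colours outside `C`, `z` a point with `(z, b.1) ∈ A₂`. Then there is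
`(w', m) ∈ orb (w, m₃)` over `b.1`, the first phase of `w'` is that of `z`, `m` has no colour outside `C`
and omits a colour of `C`. (From `S_FSM` with `F = orb (w, m₃)`, `K` = the support of `κ`; `S_TDF` for
`PE`, `L2`; or directly:) `b.2` charges all balls around `z` for the metric of the phases
(`S_BLX` for the base change `AE` of `A₂`), so `κ` charges the set of the members with phase close to
that of `z` (`S_TDF`); the support of `κ` is compact: it contains a member `m` with this phase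
(`orb (w, m₃)` is closed); on the support of `κ` the continuous functions
`∏ r ∈ C, m {z | z 0 = r}` and `m {z | z 0 ∉ C}` vanish. -/
def S_MEM : Prop := ∀ (S : Set (Set ℕ)) (k : ℕ) (c : Om k) (j : ℕ)
  (X : Type) [TopologicalSpace X] [MeasurableSpace X] [Sys X] [Dat X] [CSys X]
  (A : Set (Om k × X)) (x : X) (A₁ : Set (Om k × (X × PM k))) (v : WF k X)
  (A₂ : Set (Om k × (WF k X × PM k))) (w : WF k (WF k X)) (m₃ l₀ : PM k)
  (AE : Set (Om k × XE k X)), TD S c j A x A₁ v A₂ w m₃ l₀ AE →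
  ∀ b ∈ orb (w.1, l₀), ∀ (C : Finset (Fin k)) (κ : ProbabilityMeasure (PM k)),
  Dco (orb (w.1, m₃)) b κ → pC C κ = 0 → b.2 {z | z 0 ∉ C} = 0 → ∀ z : Om k, (z, b.1) ∈ A₂ →
  ∃ (w' : WF k (WF k X)) (m : PM k), (w', m) ∈ orb (w, m₃) ∧ w'.1 = b.1 ∧
    w'.2 0 = th w.1 (z, b.1) ∧ m {z | z 0 ∉ C} = 0 ∧ ∃ r ∈ C, m {z | z 0 = r} = 0

/-- [MEC] the same with a coded pair `(w', m)` (a limit of `sh n (w, m₃)`, `sh n w.1` near `b.1`,
`(sh n w).2 0` near the phase, small mass outside `C.erase r`). -/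
def S_MEC : Prop := ∀ (S : Set (Set ℕ)) (U : Ultrafilter ℕ), Cl S → DU S U → ∀ (k : ℕ)
  (Y C : Type) [TopologicalSpace Y] [MeasurableSpace Y] [Sys Y] [Dat Y] [CSys Y]
  [TopologicalSpace C] [MeasurableSpace C] [Sys C] [Dat C] [CSys C] (w : Y × (ℕ → C)) (m₃ : PM k)
  (y : Y) (t : C) (D : Finset (Fin k)), Pt S w → Pt S m₃ → Pt S y → Pt S t →
  (∃ p ∈ orb (w, m₃), p.1.1 = y ∧ p.1.2 0 = t ∧ p.2 {z | z 0 ∉ D} = 0) →
  ∃ p ∈ orb (w, m₃), Pt S p ∧ p.1.1 = y ∧ p.1.2 0 = t ∧ p.2 {z | z 0 ∉ D} = 0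

/-- [BAD] if infinitely many chains (along `U`) are bad at the position 1 (or 2), there is a coded
exact translate of `(w, m₃)` with fewer colours than `C`. Proof: `b i` = the point `ξ_1` (or `ξ_2`) of
the `i`-th chain, `b'` its limit along `U`, coded; its frame is the exact frame `v'` (`S_CLT`, once or
twice; `near i (v₁ i) v`); `b'.1` is exact for `A₂` (`S_EX1`); `S_EXF` for the second level at
`y' = b'.1`; `S_BDL`, `S_MEM` for the point `z` of `S_EXF`, `S_MEC` for `D = C.erase r`. -/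
def S_BAD : Prop := ∀ (S : Set (Set ℕ)) (U : Ultrafilter ℕ), Cl S → DU S U → ∀ (k : ℕ) (c : Om k),
  Pt S c → ∀ (j : ℕ)
  (X : Type) [TopologicalSpace X] [MeasurableSpace X] [Sys X] [Dat X] [CSys X]
  (A : Set (Om k × X)) (x : X) (A₁ : Set (Om k × (X × PM k))) (v : WF k X)
  (A₂ : Set (Om k × (WF k X × PM k))) (w : WF k (WF k X)) (m₃ l₀ : PM k)
  (AE : Set (Om k × XE k X)), TD S c j A x A₁ v A₂ w m₃ l₀ AE →
  ∀ (v₁ vl : ℕ → WF k X) (e : ℕ × ℕ → Q4 (XE k X)), Tup S v (orb (w.1, l₀)) v₁ vl e →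
  ∀ (C : Finset (Fin k)) (v' : WF k X) (ξ : ℕ → Q4 (XE k X)), sc S ξ →
  (∀ i, qE (ξ i).1 = v' ∧ Ch4 c A₁ v (v₁ i) (orb (w.1, l₀)) C (ξ i)) →
  ((∀ᶠ i in (U : Filter ℕ), ¬ Good (orb (w.1, m₃)) C (ξ i).2.1) ∨
    ∀ᶠ i in (U : Filter ℕ), ¬ Good (orb (w.1, m₃)) C (ξ i).2.2.1) →
  ∃ (w' : WF k (WF k X)) (m : PM k), Pt S w' ∧ Pt S m ∧ (w', m) ∈ orb (w, m₃) ∧
    Exa c (A1t A₂ w) w' ∧ (pal m).card < C.card

/-- [CHE] a chain with good decompositions: the final argument applies. `S_XCH` gives `Ξ ∋ ζ`;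
`S_EHA` with `PE`, `L2` of `S_TDF`, `Y₂ = orb w.1`, `p₂ = Prod.fst`, `ξ = ζ`, `D = C` (`Dcp`: the members are
carried by `{u | (u, w') ∈ A1t A₂ w}`, a closed set, `S_TDF`, so the first phase of `w'` is the phase of all
points of the support); then `S_END`. -/
def S_CHE : Prop := ∀ (S : Set (Set ℕ)) (k : ℕ) (c : Om k) (j : ℕ)
  (X : Type) [TopologicalSpace X] [MeasurableSpace X] [Sys X] [Dat X] [CSys X]
  (A : Set (Om k × X)) (x : X) (A₁ : Set (Om k × (X × PM k))) (v : WF k X)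
  (A₂ : Set (Om k × (WF k X × PM k))) (w : WF k (WF k X)) (m₃ l₀ : PM k)
  (AE : Set (Om k × XE k X)), TD S c j A x A₁ v A₂ w m₃ l₀ AE →
  ∀ v₁ : WF k X, v₁ ∈ orb v → v₁.1 = v.1 → Z01 v v₁ (orb (w.1, l₀)) qE Prod.snd →
  ∀ (C : Finset (Fin k)) (ξ : Q4 (XE k X)), Ch4 c A₁ v v₁ (orb (w.1, l₀)) C ξ →
  ∀ κ1 κ2 : ProbabilityMeasure (PM k), Dco (orb (w.1, m₃)) ξ.2.1 κ1 →
  Dco (orb (w.1, m₃)) ξ.2.2.1 κ2 → 0 < pC C κ1 → 0 < pC C κ2 →
  ∃ F1 F2 : List (Wd k), N3.GRD c ((sd (κ1 : Measure (PM k)) F1).prod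
    (sd (κ2 : Measure (PM k)) F2))

/-! ## 5. Coded decompositions and the solution -/

/-- [KDC] a good decomposition of a coded point into translates of a coded measure can be chosen
coded. By density (`S_FSD`) there are for every `L` a nonempty list of times `n` with `sh n y₀` near
`b.1` (level `L`), the average of the `sh n m₃` near `b.2` (level `L`), and the average of the products
of the masses of the colours at least a fixed `ε > 0`; choose them coded, and let `κ` be a limit along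
`U` of the averages of the point masses at the `sh n m₃`; its weighted barycentres are the limits of
coded reals. -/
def S_KDC : Prop := ∀ (S : Set (Set ℕ)) (U : Ultrafilter ℕ), Cl S → DU S U → ∀ (k : ℕ)
  (Y : Type) [TopologicalSpace Y] [MeasurableSpace Y] [Sys Y] [Dat Y] [CSys Y] (y₀ : Y)
  (m₃ : PM k) (b : Y × PM k) (C : Finset (Fin k)), Pt S y₀ → Pt S m₃ → Pt S b →
  Good (orb (y₀, m₃)) C b → ∃ κ, Dco (orb (y₀, m₃)) b κ ∧ 0 < pC C κ ∧ KCo S κ

/-- [GRS] the greedy property is invariant under scaling, and products of coded weighted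
barycentres are coded after normalisation. -/
def S_GRS : Prop := ∀ (S : Set (Set ℕ)), Cl S → ∀ (k : ℕ) (c : Om k)
  (κ1 κ2 : ProbabilityMeasure (PM k)) (F1 F2 : List (Wd k)), KCo S κ1 → KCo S κ2 →
  N3.GRD c ((sd (κ1 : Measure (PM k)) F1).prod (sd (κ2 : Measure (PM k)) F2)) →
  ∃ ν : Measure (Om k × Om k), IsProbabilityMeasure ν ∧ N3.NC S ν ∧ N3.GRD c ν

/-- [SLG] a coded good chain gives a solution (`S_KDC` twice, `S_CHE`, `S_GRS`,
`N3.S_CI3`). -/
def S_SLG : Prop := ∀ (S : Set (Set ℕ)) (U : Ultrafilter ℕ), Cl S → DU S U → ∀ (k : ℕ)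
  (c : ℕ → Fin k), ArF S c → Pt S (ext c) → ∀ (j : ℕ)
  (X : Type) [TopologicalSpace X] [MeasurableSpace X] [Sys X] [Dat X] [CSys X]
  (A : Set (Om k × X)) (x : X) (A₁ : Set (Om k × (X × PM k))) (v : WF k X)
  (A₂ : Set (Om k × (WF k X × PM k))) (w : WF k (WF k X)) (m₃ l₀ : PM k)
  (AE : Set (Om k × XE k X)), TD S (ext c) j A x A₁ v A₂ w m₃ l₀ AE →
  ∀ v₁ : WF k X, v₁ ∈ orb v → v₁.1 = v.1 → Z01 v v₁ (orb (w.1, l₀)) qE Prod.snd →
  ∀ (C : Finset (Fin k)) (ξ : Q4 (XE k X)), Pt S ξ →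
  Ch4 (ext c) A₁ v v₁ (orb (w.1, l₀)) C ξ → Good (orb (w.1, m₃)) C ξ.2.1 →
  Good (orb (w.1, m₃)) C ξ.2.2.1 → N3.SolT S c

/-! ## 6. The induction -/

/-- [STF] the step of the induction on the number of colours: without a solution `Psi j` implies
`Psi (j + 1)`. (`S_TDX`, `S_TUX`, `S_MIX`; for a coded exact translate `(x', m')` of `(x, m₀)` with at
most `j` colours `S_TRN` gives chains; if one of them is good at the positions 1 and 2: `S_SLG`;
otherwise `S_BAD` and the field `psi` of `TD`.) -/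
def S_STF : Prop := ∀ (S : Set (Set ℕ)) (U : Ultrafilter ℕ), Cl S → DU S U → ∀ (k : ℕ)
  (c : ℕ → Fin k), ArF S c → Pt S (ext c) → ¬ N3.SolT S c → ∀ j : ℕ,
  Psi S (ext c) j → Psi S (ext c) (j + 1)

/-- [CB0] the base over the one-point system, and `Psi 0` (`N3.S_URB`; `S_DIR`). -/
def S_CB0 : Prop := ∀ (S : Set (Set ℕ)) (U : Ultrafilter ℕ), Cl S → DU S U → ∀ (k : ℕ) (c : Om k),
  Pt S c → (∃ A : Set (Om k × Unit), Cb S c A ()) ∧ Psi S c 0

/-- [MAT] the positive theorem: `Psi (k + 1)` is absurd over the one-point system; the passage to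
families with a definable ultrafilter as in `N3.MN3`. -/
def S_MAT : Prop := S_MAINT

end Pool.Agent.Work.MP_69fea5_lc.W3
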