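import Pool.Agent.Work.MP_69fea5_lc.W3.DefsK
import Pool.Agent.Work.MP_69fea5_lc.W3.StmtsT
import Pool.Agent.Work.MP_69fea5_lc.W3.StmtsL
import Pool.Agent.Work.MP_69fea5_lc.W3.StmtsM

/-!
# Block [69fea5 K]: coding of the tower: statements of the items

Every item is a theorem `XXX_pf (h1 : S_A) (h2 : AK.S_B) ... : S_XXX` in its own file
`W3/I_XXX.lean`; the hypotheses may be any statements of EARLIER items of this file, of
`W3/StmtsT.lean`, `W3/StmtsD.lean`, `W3/StmtsD2.lean` (namespace `W3D`), `W3/StmtsL.lean`,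
`W3/StmtsM.lean`, and `AK.S_...`, `N3.S_...`, `KC.S_...`, `HK.S_...` (all proved on main).
Proved tools: `W3/Cod.lean` (points, times, limits), `W3/CodP.lean` (test functions `TF`),
`W3/CodM.lean` (coded measures, moments `mo`), `W3/CodA.lean` (actions of index sets, dense families,
unique minimisers), `W3/CodX.lean` (averages `mxP`, coded energy, push-forwards, `pt_kernel`),
`W3/CodL.lean` (signed coded reals, polynomials in test functions).
-/

set_option autoImplicit false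

namespace Pool.Agent.Work.MP_69fea5_lc.W3

open MeasureTheory Topology Set Filter TopologicalSpace ProbabilityTheory
open scoped NNReal ENNReal
open Pool.Agent.Work.MP_69fea5_lc.AK
open Pool.Agent.Work.MP_69fea5_lc.HK (Cl DU Ar ArF ArR Dat Law LawC act near sc Pt oc Mn mr ext)
open Pool.Agent.Work.MP_69fea5_lc.KC (Agree)

/-! ## 0. Averages -/

/-- [KAV] averages over a dense family are dense among the barycentres. PROOF. By `S_FSD` `κ` is a
limit of measures `∑ w i • δ_(x i)` with finitely many `x i ∈ closure (range u)`; replace `x i` by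
points `u (a i)` close to it (`f` is continuous) and the weights `w i` by fractions `b i / N`,
`∑ b i = N`; the measure `∑ (b i / N) f (u (a i))` is `mxP (fun i => f (u i)) p` for the list with
`b i` copies of `a i`. The barycentre depends continuously on the measure: neighbourhoods of `m` are
given by finitely many continuous functions `g` (`∫ g dm = ∫ (∫ g df(q)) dκ(q)`, `S_BRX`). -/
def S_KAV : Prop := ∀ (K O : Type) [TopologicalSpace K] [MeasurableSpace K] [CS K]
  [TopologicalSpace O] [MeasurableSpace O] [CS O] (f : K → ProbabilityMeasure O), Continuous f →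
  ∀ (κ : ProbabilityMeasure K) (m : ProbabilityMeasure O), Bar κ f m → ∀ (ι : Type) (u : ι → K),
  κ (closure (Set.range u)) = 1 →
    m ∈ closure (Set.range fun p : ι × List ι => mxP (fun i => f (u i)) p)

/-- [APF] (for `S_LXC`; model `AK/I_APX.lean`) limits of almost optimal averages of translates of
`m` have minimal energy. PROOF. (i) `(x, l) ∈ Fam F`, `F = orb (x, m)`: the average for `L` is the
barycentre of the average `κ_L` of the point masses at the measures `sh n m`, `n ∈ p L`, and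
`(sh n x, sh n m) ∈ F` with `sh n x ∈ V L`; along an ultrafilter along which the averages tend to `l`
and `κ_L → κ` the limit `κ` is carried by `{m' | (x, m') ∈ F}` (closed condition on pairs: for a
closed neighbourhood `W` of this fibre the measures `κ_L` are carried by `W` for large `L`), and `l`
is its barycentre (`S_BRC`). (ii) Let `(x, m') ∈ AAF F` (`S_AAN`, `S_SEO`; the base is minimal). By
`S_KAV` (`f = id`, `u` = the family of the `sh n m` with `sh n x ∈ V L`, whose closure contains the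
fibre of `F` over `x`) `m'` is a limit of averages `mxP (fun n => sh n m) q` with `q` admissible for
`L`, so for `|j| ≤ L` the hypothesis gives
`FF (sh j (average L)) ≤ max_(|j'| ≤ L) FF (sh j' m') + small ≤ GG m' + small`. For fixed `j` let
`L → ∞`: `FF (sh j l) ≤ GG m'`. So `GG l ≤ GG m'`. -/
def S_APF : Prop := ∀ (k : ℕ) (X : Type) [TopologicalSpace X] [MeasurableSpace X] [CS X] [Sys X]
  (x : X) (m : PM k) (V : ℕ → Set X) (p : ℕ → ℤ × List ℤ), MinSet (orb x) → (∀ L, V L ∈ 𝓝 x) →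
  (∀ U ∈ 𝓝 x, ∃ L₀, ∀ L ≥ L₀, V L ⊆ U) → (∀ L, ∀ n ∈ (p L).1 :: (p L).2, sh n x ∈ V L) →
  (∀ (L : ℕ) (q : ℤ × List ℤ), (∀ n ∈ q.1 :: q.2, sh n x ∈ V L) → ∀ j : ℤ, |j| ≤ (L : ℤ) →
    ∃ j' : ℤ, |j'| ≤ (L : ℤ) ∧ FF (sh j (mxP (fun n : ℤ => (sh n m : PM k)) (p L))) ≤
      FF (sh j' (mxP (fun n : ℤ => (sh n m : PM k)) q)) + 1 / ((L : ℝ) + 1)) →
  ∀ l : PM k, MapClusterPt l atTop (fun L : ℕ => mxP (fun n : ℤ => (sh n m : PM k)) (p L)) →
    (x, l) ∈ AAF (orb (x, m))

/-! ## 1. Coded canonical kernels -/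

/-- [KUE] the kernel of the one step lemma consists of the unique measures of least energy, for the
energy `En f` of any test functions. PROOF. (Model: the proof of `W3D.S_STE`.) `Q` = the pairs
`(w, m)` with `m` carried by the class of `w` and `m κ' = m`: closed (`W3D.S_USC`), invariant, closed
under mid points. `GG m = sup_g En f (mv h g m)` (`≤ 2`, `S_ENV`), `γ = inf_Q GG`; `A = {(w, m) ∈ Q |
∀ g, En f (mv h g m) ≤ γ}` is closed, invariant, nonempty (compactness). Two elements of `A` over the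
same `w` are proximal: for their mid point `b`, `(w, b) ∈ Q`, so `En f (mv h g b) ≥ γ - ε` for some
`g`, and `S_ENV` (`Vr` for `ν = (δ_(m₁) + δ_(m₂)) / 2`; `Vr → 0` along suitable `g`) gives a common
limit of `mv h g m₁`, `mv h g m₂`. `W3D.S_DL` and `m κ' = m`: `m₁ = m₂` (as in STE). So `A` is the
graph of a kernel `κ₁` with `Ker a E κ₁`, `Sat κ₁ κ'`, and `κ₁ = κ` by `W3D.S_STU`. -/
def S_KUE : Prop := ∀ (G W : Type) [AddGroup G] [TopologicalSpace W] [MeasurableSpace W] [CS W]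
  (a : G → W → W) (h : W3D.Act a), W3D.MinA a → ∀ (E E' : W → W → Prop) (ρ : W → W → ℝ),
  W3D.Iso1 a E E' ρ → ∀ κ' κ : W → ProbabilityMeasure W, W3D.Ker a E' κ' → W3D.Ker a E κ →
  W3D.Sat κ κ' → ∀ f : ℕ → W → ℝ, Sep f →
  ∃ γ : ℝ, (∀ g w, En f (W3D.mv h g (κ w)) ≤ γ) ∧ ∀ (w : W) (m : ProbabilityMeasure W),
    (m : Measure W) {y | ¬ E w y} = 0 →
    (∀ u : C(W, ℝ), ∫ y, (∫ z, u z ∂(κ' y : Measure W)) ∂(m : Measure W) =
      ∫ z, u z ∂(m : Measure W)) →
    (∀ g, En f (W3D.mv h g m) ≤ γ) → m = κ w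

/-- [KST] THE CODED ONE STEP LEMMA. PROOF. `pt_kernel` (`W3/CodX.lean`) for `W := V`, `w₀ := j w₀`,
`z₀ := r w₀`, `e` with `q e = 0`, `K' v` = the image of `κ' w` under `j` if `v = j w`, anything for
`v ∉ j W`. The orbit closure of `(r w₀, j w₀)` is `{(r w, j w)}` (minimality, compactness), so the
points `v` over `r w₀` are the `j w` with `E w₀ w`. `K'` is continuous on `j W` and equivariant, so it
is coded on coded families in `j W` (`sc_map_g` with `cact_psh`). Energy: `En (tfs V)` of the image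
of `m` is `En (fun i => tfs V i ∘ j) m`, the functions `tfs V i ∘ j` are `Sep` (`sep_tfs`, `j` is an
embedding), `S_ENV`; `S_KUE`. The image `m` of `κ w₀` is in the closure of the averages: `S_KAV` for
`κ w₀` and `f = κ'` (`Bar (κ w₀) κ' (κ w₀)` is `Sat`). An element `ν` of the closure of the averages
of the `K' (j w)`, `E w₀ w`, is the image of a measure `m'` which is carried by the class of `w₀`
(closed) and satisfies `m' κ' = m'` (true for the `κ' w` because `κ' y = κ' w` for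
`κ' w`-almost all `y`; closed condition): `S_KUE`. -/
def S_KST : Prop := ∀ (S : Set (Set ℕ)) (U : Ultrafilter ℕ), Cl S → DU S U →
  ∀ (γ G W V Z : Type) [Primcodable γ] [AddGroup G] [TopologicalSpace W] [MeasurableSpace W]
  [CS W] [TopologicalSpace V] [MeasurableSpace V] [CS V] [Dat V] [Law V] [LawC V] [TF V]
  [TopologicalSpace Z] [T2Space Z] [Dat Z] [Law Z] [LawC Z] (a : G → W → W), W3D.Act a →
  W3D.MinA a → ∀ (E E' : W → W → Prop) (ρ : W → W → ℝ), W3D.Iso1 a E E' ρ →
  ∀ κ' κ : W → ProbabilityMeasure W, W3D.Ker a E' κ' → W3D.Ker a E κ → W3D.Sat κ κ' →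
  ∀ q : γ → G, Function.Surjective q →
  ∀ (A : γ → V → V) (σ : γ → TF.ι V → TF.ι V), TAct A σ → ∀ B : γ → Z → Z, CAct S B →
  ∀ (j : W → V) (r : W → Z), Continuous j → Function.Injective j → Continuous r →
  (∀ g w, j (a (q g) w) = A g (j w)) → (∀ g w, r (a (q g) w) = B g (r w)) →
  (∀ w w', E w w' ↔ r w = r w') → ∀ w₀ : W, Pt S (j w₀) → Pt S (r w₀) →
  Pm S j (κ' w₀ : Measure W) → Pm S j (κ w₀ : Measure W)

/-- [KKN] the canonical kernels of all levels of the progressions are coded at the constant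
progression of a coded point. PROOF. Downward induction on `m`. `m = h` everywhere: `Kf m w` is
carried by the class of `w`, which is `{w}` (`Tow.top`), so it is the point mass; `sc_dirac`. Step:
`m⁺ i = min h (m i + 1)`; `S_KST` for `G = Lc n`, `W = NN X (Lc n)`, `a = aN (Lc n)`
(`W3D.act_aN`, `W3D.S_MIN`), `γ = ℤ × ℤ`, `q (b, u) = (i ↦ b + i u)`, `V = Z = Fin n → Cube I`,
`A = B = vec` (`tact_vec`, `TAct.cact`), `j w = (i ↦ r h (w i))`, `r w = (i ↦ r (m i) (w i))`,
`E = EE _ m`, `E' = EE _ m⁺` (`W3D.S_ISN`), `κ' = Kf m⁺`, `κ = Kf m` (`Fam.ker`, `Fam.mul`). The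
shift of `Cube I` is `act` (`Agree`). -/
def S_KKN : Prop := ∀ (S : Set (Set ℕ)) (U : Ultrafilter ℕ), Cl S → DU S U →
  ∀ (X : Type) [TopologicalSpace X] [CompactSpace X] [T2Space X] [SecondCountableTopology X]
  [MeasurableSpace X] [BorelSpace X] [Sys X] (I : Type) [Primcodable I] (h : ℕ)
  (r : ℕ → X → Cube I) (ρ : ℕ → X → X → ℝ), (∀ x y : X, y ∈ orb x) →
  W3D.Tow h (fun l x y => r l x = r l y) ρ →
  (∀ l ≤ h, Continuous (r l) ∧ ∀ (m : ℤ) (x : X), r l (sh m x) = sh m (r l x)) →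
  ∀ x₀ : X, (∀ l ≤ h, Pt S (r l x₀)) → ∀ (n : ℕ)
  (Kf : (Fin n → ℕ) → W3D.NN X (W3D.Lc n) → ProbabilityMeasure (W3D.NN X (W3D.Lc n))),
  W3D.Fam h (fun l x y => r l x = r l y) (W3D.Lc n) Kf → ∀ m : Fin n → ℕ, (∀ i, m i ≤ h) →
  Pm S (fun (w : W3D.NN X (W3D.Lc n)) (i : Fin n) => r h (w.1 i))
    (Kf m (dg (W3D.Lc n) x₀) : Measure (W3D.NN X (W3D.Lc n)))

/-- [KQC] the laws of progressions are coded. PROOF. `W3D.S_FAM` gives `Kf`; `XF` and `S_KKN` for
`m = h` at `j` and `0` elsewhere, resp. `m = 0`. `lam` is the law of the coordinate `0` of the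
progressions of length `1` (`CLaw.dis`, `CLaw.car` of `XI.cube 1`); images under coordinate maps
have the moments at the transported test functions (`pm_tmap` in `W3/CodL.lean`). -/
def S_KQC : Prop := ∀ (S : Set (Set ℕ)) (U : Ultrafilter ℕ), Cl S → DU S U →
  ∀ (X : Type) [TopologicalSpace X] [MeasurableSpace X] [CS X] [Sys X] (I : Type) [Primcodable I]
  (h : ℕ) (r : ℕ → X → Cube I) (ρ : ℕ → X → X → ℝ), (∀ x y : X, y ∈ orb x) →
  W3D.Tow h (fun l x y => r l x = r l y) ρ →
  (∀ l ≤ h, Continuous (r l) ∧ ∀ (m : ℤ) (x : X), r l (sh m x) = sh m (r l x)) →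
  ∀ x₀ : X, (∀ l ≤ h, Pt S (r l x₀)) → ∀ (lam : Measure X) (P : ∀ n : ℕ, Measure (Fin n → X))
  (K : ∀ n : ℕ, Fin n → X → ProbabilityMeasure (Fin n → X)), W3D.XI lam P K →
  W3D.XF h (fun l x y => r l x = r l y) P K →
  Pm S (r h) lam ∧ ∀ (n : ℕ) (j : Fin n),
    Pm S (fun (z : Fin n → X) (i : Fin n) => r h (z i)) (K n j x₀ : Measure (Fin n → X))

/-! ## 2. Coded measures over the level -/

/-- [KAM] a coded measure of the energy set over the graph of the position. PROOF. `KC.S_KAA` for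
`gr M (e ∘ π) ⊆ Om k × Cube I` (minimal: `S_LGR`, image), `z`, `e (π z)`; a coded minimal point over
`e (π z)` in the orbit closure of `(e (π z), m)` (`exists_fibre_min` in `W3/Cod.lean`; the energy set
is closed and invariant, `AK.S_AAB`); transport along `(x, m) ↦ (e x, m)` (the energy depends on
`m` only, `QQ` of the two graphs correspond because `e` is injective). -/
def S_KAM : Prop := ∀ (S : Set (Set ℕ)) (U : Ultrafilter ℕ), Cl S → DU S U → ∀ (k : ℕ)
  (M : Set (Om k)) (X : Type) [TopologicalSpace X] [MeasurableSpace X] [CS X] [Sys X]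
  (π : Om k → X) (I : Type) [Primcodable I] (e : X → Cube I), Po M π → Emb e →
  ∀ z ∈ M, Pt S z → Pt S (e (π z)) →
  ∃ m₁ : PM k, Pt S m₁ ∧ (π z, m₁) ∈ AA (gr M π) ∧ MinSet (orb (π z, m₁))

/-- [KTX] a coded invariant measure `θ` over `lam` on the orbit closure of `(x, m₁)`. PROOF. For
`p ∈ ℤ × List ℤ` let `ν p` be the average of the point masses at `(e (sh n x), sh n m₁)`,
`n ∈ p.1 :: p.2` (`sc_dirac`, `sc_mxP`), `ν₁ p` that of the point masses at `e (sh n x)`. Choose
(`HK.Ar.choose`, `sc_near`, `sc_act`) `p L` with `near L (act 1 (ν p)) (ν p)` and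
`near L (ν₁ p) (image of lam)`. Existence: the image of the given `θ` under `e × id` is a limit of
the `ν p` (`S_KAV` with `f = diracProba`), and it satisfies both conditions, which are open
(`near` is open and reflexive; `act 1` is continuous; `Agree`). Let `ν` be the limit of `ν (p L)`
along `U` (`exists_lim`): it is invariant, its first marginal is the image of `lam`, it is carried by
the closed set `(e × id) '' orb (x, m₁)`; pull it back along the closed embedding `e × id`. -/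
def S_KTX : Prop := ∀ (S : Set (Set ℕ)) (U : Ultrafilter ℕ), Cl S → DU S U → ∀ (k : ℕ)
  (X : Type) [TopologicalSpace X] [MeasurableSpace X] [CS X] [Sys X] (I : Type) [Primcodable I]
  (e : X → Cube I) (x : X) (m₁ : PM k) (lam : ProbabilityMeasure X), Emb e → Pt S (e x) →
  Pt S m₁ → Pm S e (lam : Measure X) →
  (∃ θ : ProbabilityMeasure (X × PM k), θ (orb (x, m₁)) = 1 ∧ (∀ m : ℤ, sh m θ = θ) ∧
    (θ : Measure (X × PM k)).map Prod.fst = (lam : Measure X)) →
  ∃ θ : ProbabilityMeasure (X × PM k), θ (orb (x, m₁)) = 1 ∧ (∀ m : ℤ, sh m θ = θ) ∧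
    (θ : Measure (X × PM k)).map Prod.fst = (lam : Measure X) ∧
    Pm S (fun p : X × PM k => (e p.1, p.2)) (θ : Measure (X × PM k))

/-- [KPD] polynomials in test functions with values in `[0, 1]` are dense. PROOF. The functions
`TF.fn i ∘ e` are closed under products, contain `1` and separate points: their span is dense in
`C(X)` (Stone-Weierstrass), rational coefficients suffice. Approximate `ε/2 + (1 - ε) g` within
`ε/2`. -/
def S_KPD : Prop := ∀ (X V : Type) [TopologicalSpace X] [CompactSpace X] [TopologicalSpace V]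
  [Dat V] [TF V] (e : X → V) (g : X → ℝ), Continuous e → Function.Injective e → Continuous g →
  (∀ x, 0 ≤ g x ∧ g x ≤ 1) → ∀ ε : ℝ, 0 < ε →
  ∃ c : Pcd V, (∀ x, 0 ≤ pev c (e x) ∧ pev c (e x) ≤ 1) ∧ ∀ x, |pev c (e x) - g x| ≤ ε

/-- [KPM] approximation of the conditional masses in `L²`. Let `η = evK k ∘ₖ χ`, `q v = (η v).real B`.
PROOF. `∫ p (e v) m(B) dθ = ∫ p (e v) q v dlam`, so the value `J c` of the code `c` is
`∫ (pev c (e v) - q v)² dlam - ∫ q² dlam`; by `S_KPD` and the density of the continuous functions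
(with values in `[0, 1]`) in `L²(lam)` the infimum of the first term is `0`. -/
def S_KPM : Prop := ∀ (k : ℕ) (X V : Type) [TopologicalSpace X] [MeasurableSpace X] [CS X]
  [TopologicalSpace V] [Dat V] [TF V] (e : X → V), Continuous e → Function.Injective e →
  ∀ (lam : ProbabilityMeasure X) (θ : ProbabilityMeasure (X × PM k)) (χ : Kernel X (PM k))
  [IsMarkovKernel χ], (θ : Measure (X × PM k)) = (lam : Measure X) ⊗ₘ χ → ∀ B : Set (Om k),
  MeasurableSet B →
  let J : Pcd V → ℝ := fun c => ∫ v, pev c (e v) ^ 2 ∂(lam : Measure X) -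
    2 * ∫ p, pev c (e p.1) * (p.2 : Measure (Om k)).real B ∂(θ : Measure (X × PM k))
  ∀ (c : Pcd V) (ε : ℝ), (∀ x, 0 ≤ pev c (e x) ∧ pev c (e x) ≤ 1) → 0 ≤ ε →
  (∀ c' : Pcd V, (∀ x, 0 ≤ pev c' (e x) ∧ pev c' (e x) ≤ 1) → J c ≤ J c' + ε) →
    ∫ v, (pev c (e v) - ((evK k ∘ₖ χ) v).real B) ^ 2 ∂(lam : Measure X) ≤ ε

/-- [KPR] products. PROOF. Replace the factors one after the other; each replacement costs at most
`∫ |p i - q i| (z i) dQ ≤ C ∫ |p i - q i| dlam ≤ C ε` (Cauchy-Schwarz). -/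
def S_KPR : Prop := ∀ (X ι : Type) [MeasurableSpace X] [Fintype ι] (lam : ProbabilityMeasure X)
  (Q : ProbabilityMeasure (ι → X)) (C : ℝ≥0), (∀ i (A : Set X), MeasurableSet A →
    Q {z | z i ∈ A} ≤ C * lam A) → ∀ p q : ι → X → ℝ, (∀ i, Measurable (p i)) →
  (∀ i, Measurable (q i)) → (∀ i x, 0 ≤ p i x ∧ p i x ≤ 1) → (∀ i x, 0 ≤ q i x ∧ q i x ≤ 1) →
  ∀ ε : ℝ, 0 ≤ ε → (∀ i, ∫ x, (p i x - q i x) ^ 2 ∂(lam : Measure X) ≤ ε ^ 2) →
  |∫ z, ∏ i, p i (z i) ∂(Q : Measure (ι → X)) - ∫ z, ∏ i, q i (z i) ∂(Q : Measure (ι → X))| ≤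
    C * Fintype.card ι * ε

/-- [KET] the laws of chains of points are coded. PROOF. Let `J P c` be the number of `S_KPM` for
`B = HK.cyl P`; it is a difference of coded reals (integrals of polynomials against the images of
`lam` and `θ`: `arZ_pint`). Admissible codes: `∀ n, 0 ≤ pev c (e (sh n x)) ≤ 1` (`arZ_pev`; all of `X`
by density). Choose (`HK.Ar.choose`) an admissible `cd P L` with `J P (cd P L) ≤ J P c' + 1 / (L+1)`
for all admissible `c'` (exists: the infimum over the admissible codes is finite). The moment of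
`lif η Q` at the box of the cylinders `P i` is `∫ ∏ (η (z i)).real (cyl (P i)) dQ` (`S_LIF`), the limit
of `∫ ∏ pev (cd (P i) L) (e (z i)) dQ` (`S_KPM`, `S_KPR` with `ε² = 1 / (L + 1)`), and this is the
integral of a polynomial on `ι → V` (`pprod`, `arZ_pint`); `arR_lim`. (The test function of
`ι → Om k` for a list of pairs `(i, C)` is the indicator of the box of the cylinders
`P i` = concatenation of the `C` with first component `i`.) `lif η Q` is a probability measure. -/
def S_KET : Prop := ∀ (S : Set (Set ℕ)) (U : Ultrafilter ℕ), Cl S → DU S U → ∀ (k : ℕ)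
  (X : Type) [TopologicalSpace X] [MeasurableSpace X] [CS X] [Sys X] (I ι : Type) [Primcodable I]
  [Primcodable ι] [Fintype ι] (e : X → Cube I) (x : X) (lam : ProbabilityMeasure X)
  (θ : ProbabilityMeasure (X × PM k)) (χ : Kernel X (PM k)) [IsMarkovKernel χ]
  (Q : ProbabilityMeasure (ι → X)) (C : ℝ≥0), Emb e → (∀ y : X, y ∈ orb x) → Pt S (e x) →
  Pm S e (lam : Measure X) → Pm S (fun p : X × PM k => (e p.1, p.2)) (θ : Measure (X × PM k)) →
  (θ : Measure (X × PM k)) = (lam : Measure X) ⊗ₘ χ →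
  Pm S (fun (z : ι → X) (i : ι) => e (z i)) (Q : Measure (ι → X)) →
  (∀ i (A : Set X), MeasurableSet A → Q {z | z i ∈ A} ≤ C * lam A) →
  ∃ κ : ProbabilityMeasure (ι → Om k),
    (κ : Measure (ι → Om k)) = lif (evK k ∘ₖ χ) (Q : Measure (ι → X)) ∧ Pt S κ

/-! ## 3. Coded phases -/

/-- [KMW] measures of sets of tuples which depend on a finite window. PROOF. (Model
`HK/I_MEASW.lean`.) The set is the disjoint union of the boxes of the tuples of words of length
`2 W + 1` which satisfy `H b`; list all words of length `2 W + 1` (primitive recursive) and sum the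
moments of the boxes (`arR_sumList` in `W3/CodX.lean`). Tuples of words are coded by `n` lists. -/
def S_KMW : Prop := ∀ (S : Set (Set ℕ)), Cl S → ∀ (k n : ℕ) (β : Type) [Primcodable β]
  (m : β → ProbabilityMeasure (Fin n → Om k)) (H : β → (Fin n → List (Fin k)) → Prop)
  (W : β → ℕ), sc S m → ArF S W → (Ar S fun p : β × (Fin n → List (Fin k)) => H p.1 p.2) →
  ArR S fun b : β => (m b : Measure (Fin n → Om k)).real {u | H b fun i => HK.wd (W b) (u i)}

/-- [KTL] the phase of a coded point is coded. PROOF. The value of `ThL π κ w` at `(L, j, P)`, `t` is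
the infimum over `N` of the `κ j (π w)`-measures of the clopen sets
`{u | (∀ i, u i ∈ cyl (P i) t) ∧ ∀ |t'| ≤ N, ∀ q ∈ L, ¬ ∀ i, ins j w u i ∈ cyl (q i) t'}`
(decreasing), `ArR.iInf`. The image of `κ j (π w)` under `u ↦ ins j w u` is a coded measure on
`Fin n → Om k` (`pm_tmap`-like: its moment at a list of pairs `(i, C)` is the moment of `κ j (π w)` at
the pairs with `i ≠ j`, if `w` is in the cylinders of the pairs with `i = j`, and `0` otherwise), and
`S_KMW` applies with a window which contains all times `t`, `t'` and words. -/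
def S_KTL : Prop := ∀ (S : Set (Set ℕ)), Cl S → ∀ (k n : ℕ) (X : Type) (π : Om k → X)
  (κ : ∀ j : Fin n, X → ProbabilityMeasure (Oth j → Om k)) (w : Om k), Pt S w →
  (∀ j, Pt S (κ j (π w))) → Pt S (ThL π κ w)

/-! ## 4. Exact points -/

/-- [KEX] exact points of the next level. PROOF. `E = orb (v, m)` is strongly proximal over `X`
(`S_LAA`); `S_BCX` gives a base change `A'` of `gr M π` to `E`, `Lev A' Prod.snd` by `S_RIM` (`S_LAA`),
`Exa c A' (v, m)` by `S_EX1`; `S_ZSE` gives `z`. For any such `z`: `z` is a limit of points of the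
support of `m`, so `z ∈ M`, `π z = v`, `(z, (v, m)) ∈ A'` (`S_LEB`). As in `S_EX2` (whose proof uses
only the isometric step, not the universality): along the times of `ZSX`
`T^n g → h`, `T^n c → h`, `T^n (v, m) → (v, m)`, `π' g` and `π' z` are close for the pseudometric of the
isometric step, so `T^n π' z → π' h` (`S_ISP`-like); so `(h, π' h) ∈ omg (c, π' z)`, a closed invariant
set, and `gr M π'` is minimal (`S_LGR`). -/
def S_KEX : Prop := ∀ (k : ℕ) (c : Om k) (M : Set (Om k)) (X : Type) [TopologicalSpace X]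
  [MeasurableSpace X] [CS X] [Sys X] (π : Om k → X) (v : X) (m : PM k), Po M π →
  (v, m) ∈ AA (gr M π) → MinSet (orb (v, m)) → gr M π ⊆ omg (c, v) →
  (∃ z, ZSX c m (v, m) z) ∧ ∀ z, ZSX c m (v, m) z → z ∈ M ∧ π z = v ∧
  ∀ (X' : Type) [TopologicalSpace X'] [MeasurableSpace X'] [CS X'] [Sys X'] (π' : Om k → X')
    (p : X' → X), Po M π' → Continuous p → (∀ (l : ℤ) y, p (sh l y) = sh l (p y)) →
    (∀ w ∈ M, p (π' w) = π w) → (∃ ρ, CI p ρ ∧ ∀ y y', p y = p y' → ρ y y' = 0 → y = y') →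
    gr M π' ⊆ omg (c, π' z)

/-- [KXC] coded exact points of the next level. PROOF. `S_KAM`, `S_KEX`, `S_ZSC` (for the base point
`(e (π z), m₁) ∈ Cube I × PM k`; `ZSX c m₁ (π z, m₁)` and `ZSX c m₁ (e (π z), m₁)` are the same because
`e × id` is an embedding). -/
def S_KXC : Prop := ∀ (S : Set (Set ℕ)) (U : Ultrafilter ℕ), Cl S → DU S U → ∀ (k : ℕ)
  (c : Om k), Pt S c → ∀ (M : Set (Om k)) (X : Type) [TopologicalSpace X] [MeasurableSpace X]
  [CS X] [Sys X] (π : Om k → X) (I : Type) [Primcodable I] (e : X → Cube I), Po M π → Emb e →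
  ∀ z ∈ M, Pt S z → Pt S (e (π z)) → gr M π ⊆ omg (c, π z) →
  ∃ z' ∈ M, Pt S z' ∧ π z' = π z ∧
  ∀ (X' : Type) [TopologicalSpace X'] [MeasurableSpace X'] [CS X'] [Sys X'] (π' : Om k → X')
    (p : X' → X), Po M π' → Continuous p → (∀ (l : ℤ) y, p (sh l y) = sh l (p y)) →
    (∀ w ∈ M, p (π' w) = π w) → (∃ ρ, CI p ρ ∧ ∀ y y', p y = p y' → ρ y y' = 0 → y = y') →
    gr M π' ⊆ omg (c, π' z')

/-! ## 5. The level and the top -/

/-- [KCP] coded points of a coded level: the position of every coded point of `M` is coded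
(`pt_map`: `M = orb w₀`, `r l ∘ π` is continuous and equivariant on `M`), and `X` is minimal. -/
def S_KCP : Prop := ∀ (S : Set (Set ℕ)) (U : Ultrafilter ℕ), Cl S → DU S U → ∀ (k : ℕ)
  (M : Set (Om k)) (w₀ : Om k) (X : Type) [TopologicalSpace X] [MeasurableSpace X] [CS X] [Sys X]
  (π : Om k → X) (I : Type) [Primcodable I] (h : ℕ) (r : ℕ → X → Cube I) (ρ : ℕ → X → X → ℝ),
  CLv S M w₀ π h r ρ → (∀ x y : X, y ∈ orb x) ∧ Emb (r h) ∧
  ∀ z ∈ M, Pt S z → ∀ l ≤ h, Pt S (r l (π z))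

/-- [KCT] the measures of a coded level. PROOF. `S_KCP`; `W3D.S_XIT` gives `lam, P, K`; `S_KQC`; `m₁`
from `S_KAM`; `θ` exists by `S_LAA`, `S_LTH` (`XI.inv`), coded by `S_KTX`; `χ` = the disintegration
(`Measure.condKernel`, first marginal `lam`). -/
def S_KCT : Prop := ∀ (S : Set (Set ℕ)) (U : Ultrafilter ℕ), Cl S → DU S U → ∀ (k : ℕ)
  (M : Set (Om k)) (w₀ : Om k) (X : Type) [TopologicalSpace X] [MeasurableSpace X] [CS X] [Sys X]
  (π : Om k → X) (I : Type) [Primcodable I] (h : ℕ) (r : ℕ → X → Cube I) (ρ : ℕ → X → X → ℝ),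
  CLv S M w₀ π h r ρ → ∀ z ∈ M, Pt S z →
  ∃ (lam : ProbabilityMeasure X) (P : ∀ n : ℕ, Measure (Fin n → X))
    (K : ∀ n : ℕ, Fin n → X → ProbabilityMeasure (Fin n → X)) (m₁ : PM k)
    (θ : ProbabilityMeasure (X × PM k)) (χ : Kernel X (PM k)),
    W3D.XI (lam : Measure X) P K ∧ Pm S (r h) (lam : Measure X) ∧
    (∀ (n : ℕ) (j : Fin n),
      Pm S (fun (y : Fin n → X) (i : Fin n) => r h (y i)) (K n j (π z) : Measure (Fin n → X))) ∧
    Pt S m₁ ∧ (π z, m₁) ∈ AA (gr M π) ∧ MinSet (orb (π z, m₁)) ∧ IsMarkovKernel χ ∧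
    θ (orb (π z, m₁)) = 1 ∧ (∀ m : ℤ, sh m θ = θ) ∧
    (θ : Measure (X × PM k)) = (lam : Measure X) ⊗ₘ χ ∧
    Pm S (fun p : X × PM k => (r h p.1, p.2)) (θ : Measure (X × PM k))

/-- [KLV] ONE LEVEL. PROOF. `S_KCT` for `z = w₀`; `W3D.S_XCK` gives `Q` and `CK n lam Q`, `Q j (π w₀)`
is coded (image of `K n j (π w₀)` under the restriction, `pm_tmap`); `η = evK k ∘ₖ χ`, `S_LEK`
(`S_LAA`); `κ j` from `S_LKE`; `κ j (π w₀)` is coded by `S_KET` (`KK`); `S_KTL`. -/
def S_KLV : Prop := ∀ (S : Set (Set ℕ)) (U : Ultrafilter ℕ), Cl S → DU S U → ∀ (k n : ℕ)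
  (M : Set (Om k)) (w₀ : Om k) (X : Type) [TopologicalSpace X] [MeasurableSpace X] [CS X] [Sys X]
  (π : Om k → X) (I : Type) [Primcodable I] (h : ℕ) (r : ℕ → X → Cube I) (ρ : ℕ → X → X → ℝ),
  CLv S M w₀ π h r ρ →
  ∃ (lam : ProbabilityMeasure X) (Q : ∀ j : Fin n, X → ProbabilityMeasure (Oth j → X))
    (η : Kernel X (Om k)) (κ : ∀ j : Fin n, X → ProbabilityMeasure (Oth j → Om k)),
    CK n lam Q ∧ EK M π lam η ∧ KK n η Q κ ∧ (∀ j, Continuous (κ j)) ∧
    (∀ j (m : ℤ) v, κ j (sh m v) = sh m (κ j v)) ∧ Pt S (ThL π κ w₀)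

/-- [KTP] THE TOP. PROOF. `S_KCT` for `z`; the graph of `r h ∘ π` is in `omg (c, r h (π z))` (image
under `id × r h`); for every `n` the image of `K (n + 2) 0 (π z)` under `z ↦ (z 1, …, z (n + 1))` is
coded (`pm_tmap`) with marginals `≤ C lam` (`CLaw.dom`), so its lift is coded by `S_KET`; `NCt` are
its moments at boxes. -/
def S_KTP : Prop := ∀ (S : Set (Set ℕ)) (U : Ultrafilter ℕ), Cl S → DU S U → ∀ (k : ℕ)
  (c : Om k), Pt S c → ∀ (M : Set (Om k)) (w₀ : Om k) (X : Type) [TopologicalSpace X]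
  [MeasurableSpace X] [CS X] [Sys X] (π : Om k → X) (I : Type) [Primcodable I] (h : ℕ)
  (r : ℕ → X → Cube I) (ρ : ℕ → X → X → ℝ), CLv S M w₀ π h r ρ → ∀ z ∈ M, Pt S z →
  gr M π ⊆ omg (c, π z) →
  ∃ (lam : ProbabilityMeasure X) (P : ∀ n : ℕ, Measure (Fin n → X))
    (K : ∀ n : ℕ, Fin n → X → ProbabilityMeasure (Fin n → X)) (m₁ : PM k)
    (θ : ProbabilityMeasure (X × PM k)) (χ : Kernel X (PM k)),
    W3D.XI (lam : Measure X) P K ∧ Emb (r h) ∧ Pt S (r h (π z)) ∧
    (gr M fun w => r h (π w)) ⊆ omg (c, r h (π z)) ∧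
    Pt S m₁ ∧ (π z, m₁) ∈ AA (gr M π) ∧ MinSet (orb (π z, m₁)) ∧ IsMarkovKernel χ ∧
    θ (orb (π z, m₁)) = 1 ∧ (∀ m : ℤ, sh m θ = θ) ∧
    (θ : Measure (X × PM k)) = (lam : Measure X) ⊗ₘ χ ∧
    ∀ n : ℕ, NCt S (lif (evK k ∘ₖ χ) ((K (n + 2) 0 (π z) : Measure (Fin (n + 2) → X)).map
      fun (y : Fin (n + 2) → X) (i : Fin (n + 1)) => y i.succ))

end Pool.Agent.Work.MP_69fea5_lc.W3
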