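import Pool.Agent.Work.MP_69fea5_lc.W3.StmtsR
import Pool.Agent.Work.MP_69fea5_lc.W3.StmtsK
import Pool.Agent.Work.MP_69fea5_lc.W3.ToolsD

/-!
# Block [69fea5 W3 R]: the recursion over the levels and the main chain
-/

set_option autoImplicit false

namespace Pool.Agent.Work.MP_69fea5_lc.W3

open MeasureTheory Topology Set Filter TopologicalSpace ProbabilityTheory
open scoped NNReal ENNReal
open Pool.Agent.Work.MP_69fea5_lc.AK
open Pool.Agent.Work.MP_69fea5_lc.HK (Cl DU Ar ArF ArR Dat Law LawC act near sc Pt oc Mn mr ext)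

namespace Rec

/-- the sum of two points of cubes -/
def sj {I J : Type} (v : Cube I) (t : Cube J) : Cube (I ⊕ J) := fun a => Sum.elim v t a

theorem sj_inj {I J : Type} {v v' : Cube I} {t t' : Cube J} :
    sj v t = sj v' t' ↔ v = v' ∧ t = t' := by
  constructor
  · intro h
    exact ⟨funext fun i => congrFun h (Sum.inl i), funext fun i => congrFun h (Sum.inr i)⟩
  · rintro ⟨rfl, rfl⟩
    rfl

theorem continuous_sj {X I J : Type} [TopologicalSpace X] {v : X → Cube I} {t : X → Cube J}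
    (hv : Continuous v) (ht : Continuous t) : Continuous fun x => sj (v x) (t x) := by
  refine continuous_pi fun a => ?_
  cases a with
  | inl i => exact (continuous_apply i).comp hv
  | inr j => exact (continuous_apply j).comp ht

theorem sh_sj {I J : Type} (m : ℤ) (v : Cube I) (t : Cube J) :
    sh m (sj v t) = sj (sh m v) (sh m t) := by
  funext a
  cases a <;> rfl

section coded

variable {S : Set (Set ℕ)} {I J : Type} [Primcodable I] [Primcodable J]

theorem arR_inl (hS : Cl S) {v : I → ℤ → ℝ} (h : ArR S fun p : Unit × I × ℤ => v p.2.1 p.2.2) :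
    Ar S fun q : (Unit × (I ⊕ J) × ℤ) × ℕ × ℕ => ∃ i : I, q.1.2.1 = Sum.inl i ∧
      (q.2.1 : ℝ) < v i q.1.2.2 * (q.2.2 + 1) := by
  refine Ar.ex hS (R := fun (q : (Unit × (I ⊕ J) × ℤ) × ℕ × ℕ) (i : I) => q.1.2.1 = Sum.inl i ∧
      (q.2.1 : ℝ) < v i q.1.2.2 * (q.2.2 + 1)) ?_
  refine Ar.and hS ?_ ?_
  · refine Ar.eq hS (ArF.of_primrec hS ?_) (ArF.of_primrec hS ?_)
    · exact Primrec.fst.comp (Primrec.snd.comp (Primrec.fst.comp Primrec.fst))
    · exact Primrec.sumInl.comp Primrec.snd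
  · exact HK.ArR.lt hS h (g := fun q : ((Unit × (I ⊕ J) × ℤ) × ℕ × ℕ) × I =>
      ((), q.2, q.1.1.2.2)) (ArF.of_primrec hS ((Primrec.const ()).pair (Primrec.snd.pair
        (Primrec.snd.comp (Primrec.snd.comp (Primrec.fst.comp Primrec.fst))))))
      (ArF.of_primrec hS (Primrec.fst.comp (Primrec.snd.comp Primrec.fst)))
      (ArF.of_primrec hS (Primrec.snd.comp (Primrec.snd.comp Primrec.fst)))

theorem arR_inr (hS : Cl S) {v : J → ℤ → ℝ} (h : ArR S fun p : Unit × J × ℤ => v p.2.1 p.2.2) :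
    Ar S fun q : (Unit × (I ⊕ J) × ℤ) × ℕ × ℕ => ∃ i : J, q.1.2.1 = Sum.inr i ∧
      (q.2.1 : ℝ) < v i q.1.2.2 * (q.2.2 + 1) := by
  refine Ar.ex hS (R := fun (q : (Unit × (I ⊕ J) × ℤ) × ℕ × ℕ) (i : J) => q.1.2.1 = Sum.inr i ∧
      (q.2.1 : ℝ) < v i q.1.2.2 * (q.2.2 + 1)) ?_
  refine Ar.and hS ?_ ?_
  · refine Ar.eq hS (ArF.of_primrec hS ?_) (ArF.of_primrec hS ?_)
    · exact Primrec.fst.comp (Primrec.snd.comp (Primrec.fst.comp Primrec.fst))
    · exact Primrec.sumInr.comp Primrec.snd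
  · exact HK.ArR.lt hS h (g := fun q : ((Unit × (I ⊕ J) × ℤ) × ℕ × ℕ) × J =>
      ((), q.2, q.1.1.2.2)) (ArF.of_primrec hS ((Primrec.const ()).pair (Primrec.snd.pair
        (Primrec.snd.comp (Primrec.snd.comp (Primrec.fst.comp Primrec.fst))))))
      (ArF.of_primrec hS (Primrec.fst.comp (Primrec.snd.comp Primrec.fst)))
      (ArF.of_primrec hS (Primrec.snd.comp (Primrec.snd.comp Primrec.fst)))

theorem pt_sj (hS : Cl S) {v : Cube I} {t : Cube J} (hv : Pt S v) (ht : Pt S t) :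
    Pt S (sj v t) := by
  show ArR S (fun p : Unit × (I ⊕ J) × ℤ => (sj v t p.2.1 p.2.2 : ℝ))
  have h1 := arR_inl (J := J) hS (v := fun i m => (v i m : ℝ)) hv
  have h2 := arR_inr (I := I) hS (v := fun i m => (t i m : ℝ)) ht
  refine (Ar.or hS h1 h2).congr fun q => ?_
  obtain ⟨⟨u, a, m⟩, x, y⟩ := q
  cases a with
  | inl i => simp [sj]
  | inr j => simp [sj]

theorem pt_zero (hS : Cl S) : Pt S (fun _ _ => 0 : Cube I) := by
  show ArR S (fun p : Unit × I × ℤ => ((0 : unitInterval) : ℝ))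
  exact (HK.ArR.zero hS).congr fun _ => rfl

end coded


/-! ### The next level -/

section next

open Pool.Agent.Work.MP_69fea5_lc.W3D (Tow Iso1)

theorem tow_congr {X : Type} [TopologicalSpace X] [Sys X] {h : ℕ} {E E' : ℕ → X → X → Prop}
    {ρ : ℕ → X → X → ℝ} (hT : Tow h E ρ) (hE : ∀ t ≤ h, ∀ x y, E' t x y ↔ E t x y) :
    Tow h E' ρ where
  bot x y := (hE 0 (Nat.zero_le _) x y).2 (hT.bot x y)
  top x y hxy := hT.top x y ((hE h le_rfl x y).1 hxy)
  step l hl := by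
    have e1 : E' l = E l := by
      funext x y; exact propext (hE l hl.le x y)
    have e2 : E' (l + 1) = E (l + 1) := by
      funext x y; exact propext (hE (l + 1) hl x y)
    rw [e1, e2]
    exact hT.step l hl

variable {X X' : Type} [TopologicalSpace X] [MeasurableSpace X] [CS X] [Sys X]
  [TopologicalSpace X'] [MeasurableSpace X'] [CS X'] [Sys X'] {I J : Type}

/-- the relations of the next level -/
def rN (r : ℕ → X → Cube I) (h : ℕ) (p : X' → X) (e : X' → Cube J) (l : ℕ) (y : X') :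
    Cube (I ⊕ J) :=
  if l ≤ h then sj (r l (p y)) (fun _ _ => 0) else sj (r h (p y)) (e y)

theorem clv_next [Primcodable I] [Primcodable J] {S : Set (Set ℕ)} (hS : Cl S) {k n : ℕ}
    {M : Set (Om k)} {w₀ : Om k} {π : Om k → X} {h : ℕ} {r : ℕ → X → Cube I}
    {ρ : ℕ → X → X → ℝ} (L : CLv S M w₀ π h r ρ) {π' : Om k → X'} {p : X' → X}
    {e : X' → Cube J} (po' : Po M π') (hst : Stp n M π π' p) (hec : Continuous e)
    (hee : ∀ (m : ℤ) y, e (sh m y) = sh m (e y)) (hep : Pt S (e (π' w₀)))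
    (hinj : ∀ y y', p y = p y' → e y = e y' → y = y') :
    ∃ ρ', CLv S M w₀ π' (h + 1) (rN r h p e) ρ' := by
  obtain ⟨ρ1, hCI, hsep⟩ := hst.iso
  obtain ⟨E', ρ'', hT, hE⟩ := W3D.TWS_pf X X' h _ ρ p ρ1 L.tow hst.cont hst.equi hCI hsep
  have hp0 : p (π' w₀) = π w₀ := hst.comp w₀ L.mem
  have hrefl : ∀ y, E' (h + 1) y y := by
    intro y
    have h1 := hT.step h (Nat.lt_succ_self h)
    exact (h1.zero y y).2 ⟨h1.eqv.refl y, h1.self y⟩
  refine ⟨ρ'', ⟨po', L.mem, L.ptw, ?_, ?_, ?_, ?_⟩⟩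
  · intro l hl
    unfold rN
    rcases Nat.lt_or_ge h l with h1 | h1
    · simp only [not_le.2 h1, if_false]
      exact continuous_sj ((L.cont h le_rfl).comp hst.cont) hec
    · simp only [h1, if_true]
      exact continuous_sj ((L.cont l h1).comp hst.cont) continuous_const
  · intro l hl m y
    unfold rN
    rcases Nat.lt_or_ge h l with h1 | h1
    · simp only [not_le.2 h1, if_false]
      rw [hst.equi, L.equi h le_rfl, hee, sh_sj]
    · simp only [h1, if_true]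
      rw [hst.equi, L.equi l h1, sh_sj]
      rfl
  · intro l hl
    unfold rN
    rcases Nat.lt_or_ge h l with h1 | h1
    · simp only [not_le.2 h1, if_false]
      rw [hp0]
      exact pt_sj hS (L.pt h le_rfl) hep
    · simp only [h1, if_true]
      rw [hp0]
      exact pt_sj hS (L.pt l h1) (pt_zero hS)
  · refine tow_congr hT fun t ht y y' => ?_
    unfold rN
    rcases Nat.lt_or_ge h t with h1 | h1
    · have h2 : t = h + 1 := by omega
      subst h2
      simp only [not_le.2 h1, if_false, sj_inj]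
      constructor
      · rintro ⟨h3, h4⟩
        have h5 : y = y' := hinj y y' (L.tow.top _ _ h3) h4
        subst h5
        exact hrefl y
      · intro h3
        have h5 : y = y' := hT.top _ _ h3
        subst h5
        exact ⟨rfl, rfl⟩
    · simp only [h1, if_true, sj_inj, and_true]
      exact (hE t h1 y y').symm

end next

/-! ### The sequence of the levels -/

/-- a coded level with an exact coded point -/
structure Lvl (S : Set (Set ℕ)) {k : ℕ} (M : Set (Om k)) (w₀ c : Om k) where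
  X : Sp
  π : Om k → X.C
  I : Type
  [pI : Primcodable I]
  h : ℕ
  r : ℕ → X.C → Cube I
  ρ : ℕ → X.C → X.C → ℝ
  cl : CLv S M w₀ π h r ρ
  z : Om k
  zM : z ∈ M
  zP : Pt S z
  ex : gr M π ⊆ omg (c, π z)

attribute [instance] Lvl.pI

theorem lvl_next (hKCP : S_KCP) (hKLV : S_KLV) (hKXC : S_KXC) (hLST : S_LST) {S : Set (Set ℕ)}
    {U : Ultrafilter ℕ} (hS : Cl S) (hU : DU S U) {k : ℕ} (n : ℕ) {M : Set (Om k)} {w₀ c : Om k}
    (hc : Pt S c) (L : Lvl S M w₀ c) :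
    ∃ (L' : Lvl S M w₀ c) (p : L'.X.C → L.X.C), Stp n M L.π L'.π p := by
  obtain ⟨lam, Q, η, κ, hCK, hEK, hKK, hκc, hκe, hTh⟩ :=
    hKLV S U hS hU k n M w₀ L.X.C L.π L.I L.h L.r L.ρ L.cl
  obtain ⟨X', π', p, e, po', hst, hec, hee, het, hinj⟩ :=
    hLST k n L.X.C M L.π lam Q η κ L.cl.po hCK hEK hKK hκc hκe
  have hep : Pt S (e (π' w₀)) := by
    rw [het w₀ L.cl.mem]
    exact hTh
  obtain ⟨ρ', hcl⟩ := clv_next hS L.cl po' hst hec hee hep hinj
  obtain ⟨-, hemb, hpt⟩ := hKCP S U hS hU k M w₀ L.X.C L.π L.I L.h L.r L.ρ L.cl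
  obtain ⟨z', hz'M, hz'P, -, hex⟩ := hKXC S U hS hU k c hc M L.X.C L.π L.I (L.r L.h) L.cl.po hemb
    L.z L.zM L.zP (hpt L.z L.zM L.zP L.h le_rfl) L.ex
  exact ⟨⟨X', π', L.I ⊕ IxL k n, L.h + 1, _, ρ', hcl, z', hz'M, hz'P,
    hex X'.C π' p po' hst.cont hst.equi hst.comp hst.iso⟩, p, hst⟩

theorem lvl_zero {S : Set (Set ℕ)} (hS : Cl S) {k : ℕ} {M : Set (Om k)} {w₀ c : Om k}
    (hM : MinSet M) (hw : w₀ ∈ M) (hpw : Pt S w₀) (hMc : M ⊆ omg c) :
    ∃ L : Lvl S M w₀ c, ∀ y y' : L.X.C, y = y' := by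
  have hex : gr M (fun _ => () : Om k → Unit) ⊆ omg (c, ()) := by
    rintro ⟨w, t⟩ ⟨hw1, -⟩
    intro V hV N
    obtain ⟨V1, hV1, V2, hV2, hVV⟩ := mem_nhds_prod_iff.1 hV
    obtain ⟨m, hm, hm'⟩ := hMc hw1 V1 hV1 N
    exact ⟨m, hm, hVV ⟨hm', mem_of_mem_nhds hV2⟩⟩
  refine ⟨⟨⟨Unit⟩, fun _ => (), Unit, 0, fun _ _ _ _ => 0, fun _ _ _ => 0, ?_, w₀, hw, hpw, hex⟩,
    fun y y' => rfl⟩
  refine ⟨⟨hM, continuousOn_const, fun _ _ _ => rfl, fun _ => ⟨w₀, hw, rfl⟩⟩, hw, hpw,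
    fun _ _ => continuous_const, fun _ _ _ _ => rfl, fun _ _ => pt_zero hS, ?_⟩
  exact ⟨fun _ _ => rfl, fun _ _ _ => rfl, fun l hl => absurd hl (Nat.not_lt_zero l)⟩

/-- the sequence of the levels -/
theorem levels (hKCP : S_KCP) (hKLV : S_KLV) (hKXC : S_KXC) (hLST : S_LST) {S : Set (Set ℕ)}
    {U : Ultrafilter ℕ} (hS : Cl S) (hU : DU S U) {k : ℕ} (n : ℕ) {M : Set (Om k)} {w₀ c : Om k}
    (hc : Pt S c) (hM : MinSet M) (hw : w₀ ∈ M) (hpw : Pt S w₀) (hMc : M ⊆ omg c) :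
    ∃ (F : ℕ → Lvl S M w₀ c) (p : ∀ l, (F (l + 1)).X.C → (F l).X.C),
      (∀ y y' : (F 0).X.C, y = y') ∧ ∀ l, Stp n M (F l).π (F (l + 1)).π (p l) := by
  obtain ⟨L0, h0⟩ := lvl_zero hS hM hw hpw hMc
  choose nx p hp using fun L : Lvl S M w₀ c => lvl_next hKCP hKLV hKXC hLST hS hU n hc L
  exact ⟨fun l => Nat.rec L0 (fun _ L => nx L) l, fun l => p _, h0, fun l => hp _⟩

end Rec

end Pool.Agent.Work.MP_69fea5_lc.W3
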