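import Pool.Agent.Work.MP_69fea5_lc.W3.DefsD

/-!
# Block [69fea5 N], part D: statements

Sections 0 and 3 of note 3799 (MP_69fea5_lc): canonical kernels of distal configurations, and the
0-1 law for chains (cubes of chains).  Every statement has its complete proof in the docstring.
Statements of other items may be used as hypotheses of an item (as named in the docstring).
`W3/ToolsD.lean` contains proved elementary facts on `cn`, `Lc`, `dbl`, `Lq`, `Lp`.

Conventions: `[w]` is the class of `w` for the relation `E`; `P(W) = ProbabilityMeasure W`.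
-/

set_option autoImplicit false

namespace Pool.Agent.Work.MP_69fea5_lc.W3D

open MeasureTheory Topology Set Filter
open ProbabilityTheory (Kernel)
open scoped ENNReal NNReal
open Pool.Agent.Work.MP_69fea5_lc.AK (Sys sh orb)

/-! ## Part 0.  One isometric step -/

/-- ENG. The energy on probability measures of a compact metrizable space.
PROOF. `C(W, ℝ)` is separable; let `f_0, f_1, …` be dense in it. Put
`En m = ∑ 2^-(i+1) (∫ f_i dm)² / (1 + |f_i|)²`,
`d m m' = (1/4) ∑ 2^-(i+1) (∫ f_i dm - ∫ f_i dm')² / (1 + |f_i|)²`: uniformly convergent series of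
continuous functions; the identity is `((s+t)/2)² + (s-t)²/4 = (s²+t²)/2`; `d m m' = 0` gives
`∫ f_i dm = ∫ f_i dm'` for all `i`, so `m = m'`. -/
def S_ENG : Prop := ∀ (W : Type) [TopologicalSpace W] [CompactSpace W] [T2Space W]
  [SecondCountableTopology W] [MeasurableSpace W] [BorelSpace W],
  ∃ (En : ProbabilityMeasure W → ℝ) (d : ProbabilityMeasure W → ProbabilityMeasure W → ℝ),
    Continuous En ∧ Continuous (fun p : ProbabilityMeasure W × ProbabilityMeasure W => d p.1 p.2) ∧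
    (∀ m, 0 ≤ En m ∧ En m ≤ 1) ∧ (∀ m m', 0 ≤ d m m') ∧ (∀ m m', d m m' = 0 → m = m') ∧
    ∀ m m' b, Mid m m' b → En b + d m m' = (En m + En m') / 2

/-- USC. The pairs `(z, m)` with `m` carried by the section `R_z` of a closed set form a closed set.
PROOF. Let `(z, m)` be in the closure and `y` outside `R_z`. There are open `V ∋ z`, `U ∋ y` with
`(V × U) ∩ R = ∅`. For the pairs `(z', m')` of the set with `z' ∈ V`: `m' U = 0`; hence `m U = 0`
(`U` open: `m U ≤ liminf m' U`). So the open set `{y | y ∉ R_z}` is covered by open `m`-null sets;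
second countable (Lindelöf): it is null. -/
def S_USC : Prop := ∀ (Z W : Type) [TopologicalSpace Z] [TopologicalSpace W] [CompactSpace W]
  [T2Space W] [SecondCountableTopology W] [MeasurableSpace W] [BorelSpace W] (R : Set (Z × W)),
  IsClosed R → IsClosed {p : Z × ProbabilityMeasure W | (p.2 : Measure W) {y | (p.1, y) ∉ R} = 0}

/-- LEA (uses ENG). Measures of least energy; two of them over one point are proximal.
PROOF. `GG m = sup_g En (mv g m) ≤ 1`. `γ = inf` of `GG` over `Q`. The sets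
`Q ∩ {(w, m) | ∀ g, En (mv g m) ≤ γ + 1/k}` are closed (`mv g` is continuous on `P(W)`), nonempty
and decreasing; `W × P(W)` is compact, so `A = {(w, m) ∈ Q | ∀ g, En (mv g m) ≤ γ}` is nonempty; it
is closed and invariant (`mv g (mv h m) = mv (g + h) m`), and membership in `A` of a pair of `Q`
depends on `m` only. Let `(w, m₁), (w, m₂) ∈ A`, `b = (m₁ + m₂)/2`, `(w, b) ∈ Q`. For `ε > 0` there
is `g` with `En (mv g b) ≥ γ - ε` (definition of `γ`), `mv g b` is the mid point of `mv g m₁`,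
`mv g m₂`, so `d (mv g m₁) (mv g m₂) ≤ ε`. So the sets `{g | d (..) (..) < 1/k}` are nonempty and
decreasing: take an ultrafilter containing all of them; along it `mv g m₁ → m'`, `mv g m₂ → m''`
(compactness) and `d m' m'' = 0`. -/
def S_LEA : Prop := ∀ (G W : Type) [AddGroup G] [TopologicalSpace W] [CompactSpace W] [T2Space W]
  [SecondCountableTopology W] [MeasurableSpace W] [BorelSpace W] (a : G → W → W) (h : Act a)
  (Q : Set (W × ProbabilityMeasure W)), IsClosed Q → Q.Nonempty →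
  (∀ p ∈ Q, ∀ g, (a g p.1, mv h g p.2) ∈ Q) →
  (∀ w m m' b, (w, m) ∈ Q → (w, m') ∈ Q → Mid m m' b → (w, b) ∈ Q) →
  ∃ A ⊆ Q, IsClosed A ∧ A.Nonempty ∧ (∀ p ∈ A, ∀ g, (a g p.1, mv h g p.2) ∈ A) ∧
    (∀ w w' m, (w, m) ∈ A → (w', m) ∈ Q → (w', m) ∈ A) ∧
    ∀ w m₁ m₂, (w, m₁) ∈ A → (w, m₂) ∈ A → ∃ (U : Ultrafilter G) (m : ProbabilityMeasure W),
      Tendsto (fun g => mv h g m₁) (U : Filter G) (𝓝 m) ∧
      Tendsto (fun g => mv h g m₂) (U : Filter G) (𝓝 m)

/-- DL. Distality: two proximal measures on one class agree on the functions of the `E'`-classes.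
PROOF. Let `ε > 0`. (1) There is `δ > 0` with `|f x - f y| ≤ ε` whenever `E x y`, `ρ x y < δ`
(otherwise `E x_k y_k`, `ρ x_k y_k → 0`, limits `x, y`: `E x y`, `ρ x y = 0`, so `E' x y` and
`f x = f y`, contradiction). (2) `ψ x y = max 0 (δ - ρ x y)` is continuous on the closed set `E`;
Tietze: a continuous `Ψ : W × W → [0, δ]` extends it. (3) There are `x_1, …, x_N ∈ [w]` such that
every `y ∈ [w]` has `ρ y x_j < δ/2` for some `j` (compactness of `[w]`). So
`D y = ∑ ψ y x_j ≥ δ/2` and `|f y - ∑ f x_j ψ y x_j / D y| ≤ ε` on `[w]`. (4) For `g ∈ G` and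
`y = a g z`, `z ∈ [w]`: `ψ z x_j = ψ y (a g x_j)`; so `∫ f dm_i` differs by at most `ε` from
`∫ u_g d(mv g m_i)`, `u_g y = ∑ f x_j Ψ y (a g x_j) / max (δ/2) (∑ Ψ y (a g x_j))`. (5) Along `U`:
`a g x_j → x'_j`, `u_g → u` uniformly, `u y = ∑ f x_j Ψ y x'_j / max (δ/2) (∑ Ψ y x'_j)`, so
`∫ u_g d(mv g m_i) → ∫ u dm` for `i = 1, 2`. Hence `|∫ f dm₁ - ∫ f dm₂| ≤ 2 ε`. -/
def S_DL : Prop := ∀ (G W : Type) [AddGroup G] [TopologicalSpace W] [CompactSpace W] [T2Space W]
  [SecondCountableTopology W] [MeasurableSpace W] [BorelSpace W] (a : G → W → W) (h : Act a)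
  (E E' : W → W → Prop) (ρ : W → W → ℝ), Iso1 a E E' ρ →
  ∀ (w : W) (m₁ m₂ m : ProbabilityMeasure W) (U : Ultrafilter G),
    (m₁ : Measure W) {y | ¬ E w y} = 0 → (m₂ : Measure W) {y | ¬ E w y} = 0 →
    Tendsto (fun g => mv h g m₁) (U : Filter G) (𝓝 m) →
    Tendsto (fun g => mv h g m₂) (U : Filter G) (𝓝 m) →
    ∀ f : C(W, ℝ), (∀ x y, E' x y → f x = f y) →
      ∫ x, f x ∂(m₁ : Measure W) = ∫ x, f x ∂(m₂ : Measure W)

/-- STE (uses USC, LEA, DL). Existence in the one step lemma.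
PROOF. `W` empty: trivial. `Q = {(w, m) | m {y | ¬ E w y} = 0, ∀ f ∈ C(W), ∫ (∫ f dκ') dm = ∫ f dm}`
is closed (USC; `x ↦ ∫ f dκ' x` is continuous), invariant (`κ'` is equivariant), closed under mid
points, and contains `(w, κ' w)` (`E' ⊆ E`; `κ' y = κ' w` for `κ' w`-almost all `y`). Take `A` from
LEA. The projection of `A` to `W` is closed (compactness), invariant, nonempty, so it is `W`
(`MinA`). For `(w, m₁), (w, m₂) ∈ A` DL gives `∫ f dm₁ = ∫ f dm₂` for all continuous `f` which are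
constant on the `E'`-classes; for any `f ∈ C(W)` the function `x ↦ ∫ f dκ' x` is such a function, so
`∫ f dm₁ = ∫ f dm₂`, `m₁ = m₂`. So `A` is the graph of a function `κ`, continuous because its graph
is closed and `P(W)` is compact. Equivariant: `A` is invariant. `E x y`: `(y, κ x) ∈ Q` (`[x] = [y]`),
so `(y, κ x) ∈ A` by the clause of LEA, so `κ y = κ x`. `Sat κ κ'` and the carrier are in `Q`. -/
def S_STE : Prop := ∀ (G W : Type) [AddGroup G] [TopologicalSpace W] [CompactSpace W] [T2Space W]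
  [SecondCountableTopology W] [MeasurableSpace W] [BorelSpace W] (a : G → W → W), Act a →
  MinA a → ∀ (E E' : W → W → Prop) (ρ : W → W → ℝ), Iso1 a E E' ρ →
  ∀ κ' : W → ProbabilityMeasure W, Ker a E' κ' →
    ∃ κ : W → ProbabilityMeasure W, Ker a E κ ∧ Sat κ κ'

/-- CON. The mass of small balls is constant.
PROOF. `ψ x y = max 0 (δ - ρ x y)` on `E`, extended to a continuous `Ψ ≥ 0` on `W × W` (Tietze).
`c y = ∫ Ψ x y dκ y (x)` is continuous in `y` (`κ` continuous, `Ψ` uniformly continuous) and equals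
`∫ ψ x y dκ y (x)` since `κ y` is carried by `[y]`; it is invariant (`κ` equivariant, `ρ` invariant),
so constant by `MinA`. Positive: cover `[y]` by finitely many sets `B_j`, open in `[y]`, with
`ρ < δ/2` on `B_j × B_j`; some `B_j` has positive `κ y`-measure, and for `x' ∈ [y]` `κ x' = κ y`, so
`c = ∫ c dκ y = ∫∫ ψ x x' dκ y (x) dκ y (x') ≥ (δ/2) (κ y B_j)² > 0`. -/
def S_CON : Prop := ∀ (G W : Type) [AddGroup G] [TopologicalSpace W] [CompactSpace W] [T2Space W]
  [SecondCountableTopology W] [MeasurableSpace W] [BorelSpace W] (a : G → W → W), Act a →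
  MinA a → ∀ (E E' : W → W → Prop) (ρ : W → W → ℝ), Iso1 a E E' ρ →
  ∀ κ : W → ProbabilityMeasure W, Ker a E κ → ∀ δ : ℝ, 0 < δ →
    ∃ c : ℝ, 0 < c ∧ ∀ y, ∫ x, max 0 (δ - ρ x y) ∂(κ y : Measure W) = c

/-- STU (uses CON). Uniqueness in the one step lemma.
PROOF. Fix `y` and `ε > 0`. Let `f` be continuous and constant on the `E'`-classes; `δ` as in (1) of
DL; `c₁, c₂` the constants of CON for `κ₁, κ₂`, `ψ x x' = max 0 (δ - ρ x x')`. For `x' ∈ [y]`:
`∫ ψ x x' dκ₁ y (x) = c₁` (`κ₁ y = κ₁ x'`), `∫ ψ x x' dκ₂ y (x') = c₂` for `x ∈ [y]` (`ψ` is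
symmetric). The double integral gives `c₁ = c₂ = c`. `|c f x' - ∫ f x ψ x x' dκ₁ y (x)| ≤ ε c` for
`x' ∈ [y]`; integrate with `κ₂ y`: `|c ∫ f dκ₂ y - c ∫ f dκ₁ y| ≤ ε c`. So
`∫ f dκ₁ y = ∫ f dκ₂ y` for these `f`. For any `g ∈ C(W)` the function `x ↦ ∫ g dκ' x` is of this
kind; by `Sat` `∫ g dκ₁ y = ∫ g dκ₂ y`. So `κ₁ y = κ₂ y`. -/
def S_STU : Prop := ∀ (G W : Type) [AddGroup G] [TopologicalSpace W] [CompactSpace W] [T2Space W]
  [SecondCountableTopology W] [MeasurableSpace W] [BorelSpace W] (a : G → W → W), Act a →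
  MinA a → ∀ (E E' : W → W → Prop) (ρ : W → W → ℝ), Iso1 a E E' ρ →
  ∀ κ' κ₁ κ₂ : W → ProbabilityMeasure W, Ker a E' κ' → Ker a E κ₁ → Ker a E κ₂ →
    Sat κ₁ κ' → Sat κ₂ κ' → κ₁ = κ₂

/-- STF (uses CON). Full support in the one step lemma.
PROOF. Let `E x y`, `U` open, `y ∈ U`. `Z = {z | E x z, κ' z U = 0}` is closed (`z ↦ κ' z U` is lower
semicontinuous). There is `δ > 0` with `ρ z y ≥ δ` on `Z`: otherwise `z_k → z` in `Z`,
`ρ z y = 0`, `E' z y`, `κ' z = κ' y`, but `κ' y U > 0` (`FullK E' κ'`). By CON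
`∫ max 0 (δ - ρ z y) dκ y (z) > 0`, `κ y = κ x`; so the set of the `z ∈ [x]` with `ρ z y < δ` has
positive `κ x`-measure, and `κ' z U > 0` there. `κ x U = ∫ κ' z U dκ x (z)` (from `Sat`, for an open
set: increasing limit of continuous functions). -/
def S_STF : Prop := ∀ (G W : Type) [AddGroup G] [TopologicalSpace W] [CompactSpace W] [T2Space W]
  [SecondCountableTopology W] [MeasurableSpace W] [BorelSpace W] (a : G → W → W), Act a →
  MinA a → ∀ (E E' : W → W → Prop) (ρ : W → W → ℝ), Iso1 a E E' ρ →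
  ∀ κ' κ : W → ProbabilityMeasure W, Ker a E' κ' → Ker a E κ → Sat κ κ' → FullK E' κ' →
    FullK E κ

/-! ## Part 0.  Minimality -/

/-- DIS. Distal actions: orbit closures are minimal (Ellis).
PROOF. `S = closure {a g | g}` in `W → W` (product topology), compact; every `p ∈ S` is
`p z = lim_U a g z` (all `z`) for an ultrafilter `U` on `G`; `S` is closed under composition
(`p ∘ a h ∈ S`, then limits in the first factor: `q ↦ q ∘ p` is continuous; `a h ∘ q ∈ S`).
Let `M ⊆ closure (orbit y)` be minimal closed invariant nonempty (Zorn, compactness). The set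
`S' = {p ∈ S | p x ∈ M}` is closed, nonempty (`y = p x` for some `p ∈ S`, and every `z ∈ M` is `q y`),
closed under composition (`(p ∘ q) x = p (q x) ∈ M`, `M` closed invariant). A compact semigroup with
`p ↦ p ∘ q` continuous has an idempotent
(`exists_idempotent_of_compact_t2_of_continuous_mul_left`): `u ∈ S'`, `u ∘ u = u`. With an
ultrafilter `U` for `u`: `a g x → u x`, `a g (u x) → u (u x) = u x`. So `x = u x ∈ M`. -/
def S_DIS : Prop := ∀ (G W : Type) [AddGroup G] [TopologicalSpace W] [CompactSpace W] [T2Space W]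
  (a : G → W → W), Act a →
  (∀ (x y z : W) (U : Ultrafilter G), Tendsto (fun g => a g x) (U : Filter G) (𝓝 z) →
    Tendsto (fun g => a g y) (U : Filter G) (𝓝 z) → x = y) →
  ∀ x y, y ∈ closure (range fun g => a g x) → x ∈ closure (range fun g => a g y)

/-- TWE. The relations of a tower.
PROOF. `l = 0`: everything is related, `E 0 = ⊤`. `E (l+1) x y ↔ E l x y ∧ ρ l x y = 0`: equivalence
relation by `self`, `symm`, `tri`, `nonneg`; closed since `ρ l` is continuous on the closed set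
`E l`; invariant by `inv`, `rinv`. -/
def S_TWE : Prop := ∀ (X : Type) [TopologicalSpace X] [Sys X] (h : ℕ) (E : ℕ → X → X → Prop)
  (ρ : ℕ → X → X → ℝ), Tow h E ρ → ∀ l ≤ h, Equivalence (E l) ∧
    IsClosed {p : X × X | E l p.1 p.2} ∧ (∀ (n : ℤ) x y, E l x y → E l (sh n x) (sh n y)) ∧
    ∀ l' ≤ l, ∀ x y, E l x y → E l' x y

/-- MIN (uses DIS, TWE). Configuration spaces of a distal minimal system are minimal.
PROOF. Distality of `aN L` on `NN X L`: let `aN l w → z`, `aN l w' → z` along an ultrafilter on `L`.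
By induction on `t ≤ h`: `E t (w i) (w' i)` for all `i`. `t = 0`: `bot`. Step: `ρ t (w i) (w' i) =
ρ t (sh (l i) (w i)) (sh (l i) (w' i)) → ρ t (z i) (z i) = 0` (`ρ t` is continuous on `E t`, which is
closed and invariant), so `E (t+1) (w i) (w' i)`. `top`: `w = w'`. So DIS applies. Fix `x₀`,
`d x₀ = (x₀, …, x₀)`. For `x ∈ X`: `sh n x₀ → x` along some ultrafilter on `ℤ` and
`n • 1 ∈ L`, so `d x` is in the orbit closure of `d x₀`, and so is every `shF l (d x)`, `l ∈ L`; so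
the orbit closure of `d x₀` is `NN X L`. For `w ∈ NN X L`: `w ∈ closure (orbit d x₀)`, by DIS
`d x₀ ∈ closure (orbit w)`, so `closure (orbit w)` is everything. -/
def S_MIN : Prop := ∀ (X : Type) [TopologicalSpace X] [CompactSpace X] [T2Space X]
  [SecondCountableTopology X] [Sys X] [Nonempty X] (h : ℕ) (E : ℕ → X → X → Prop)
  (ρ : ℕ → X → X → ℝ), (∀ x y : X, y ∈ orb x) → Tow h E ρ → ∀ (F : Type) [Finite F]
  (L : AddSubgroup (F → ℤ)), 1 ∈ L → MinA (aN (X := X) L)

/-! ## Part 0.  The kernels of all levels -/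

/-- ISN (uses TWE). One step for levels.
PROOF. `EE m w w' = ∀ i, E (m i) (w i) (w' i)`; all clauses coordinatewise, finite sums. `zero`:
a finite sum of nonnegative numbers vanishes iff all of them do; for `m i = m' i` nothing is
demanded, for `m' i = m i + 1` clause `zero` of `Iso1 (E (m i)) (E (m i + 1)) (ρ (m i))`. -/
def S_ISN : Prop := ∀ (X : Type) [TopologicalSpace X] [Sys X] (h : ℕ) (E : ℕ → X → X → Prop)
  (ρ : ℕ → X → X → ℝ), Tow h E ρ → ∀ (F : Type) [Fintype F] (L : AddSubgroup (F → ℤ))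
  (m m' : F → ℕ), (∀ i, m' i = m i ∨ m' i = m i + 1) → (∀ i, m' i ≤ h) →
    Iso1 (aN (X := X) L) (EE E m) (EE E m')
      fun w w' => ∑ i, if m i < m' i then ρ (m i) (w.1 i) (w'.1 i) else 0

/-- The canonical kernels of all levels of the configurations of shape `L`. -/
structure Fam {X : Type} [TopologicalSpace X] [CompactSpace X] [T2Space X]
    [SecondCountableTopology X] [MeasurableSpace X] [BorelSpace X] [Sys X] {F : Type} [Finite F]
    (h : ℕ) (E : ℕ → X → X → Prop) (L : AddSubgroup (F → ℤ))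
    (K : (F → ℕ) → NN X L → ProbabilityMeasure (NN X L)) : Prop where
  ker : ∀ m : F → ℕ, (∀ i, m i ≤ h) → Ker (aN L) (EE E m) (K m)
  full : ∀ m : F → ℕ, (∀ i, m i ≤ h) → FullK (EE E m) (K m)
  mul : ∀ m m' : F → ℕ, (∀ i, m i ≤ m' i) → (∀ i, m' i ≤ h) → Sat (K m) (K m')

/-- FAM (uses STE, STU, STF, MIN, TWE, ISN). Existence of the kernels of all levels.
PROOF. `W = NN X L`, action `aN L`, minimal by MIN. Downward recursion on `m`, i.e. induction on
`∑ (h - m i)`. `m = h` everywhere: `K m w = dirac w` (`EE m` is equality by `top`). Otherwise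
`m⁺ i = min h (m i + 1)`, `ρ` as in ISN for `m, m⁺`; `K m` = the kernel of STE for `EE m`, `EE m⁺`,
`κ' = K m⁺`; full support: STF. `mul`: by induction, for `m ≤ m'`; `m' = m`:
`∫ (∫ f dK m y) dK m x = ∫ f dK m x` since `K m y = K m x` for `y ∈ [x]`.
(a) `m ≤ m' ≤ m⁺`, `m' ≠ m`: let `κ` be the kernel of STE for `EE m`, `EE m'`, `κ' = K m'` (ISN for
`m, m'`). Then `κ K_{m⁺} = (κ K_{m'}) K_{m⁺} = κ (K_{m'} K_{m⁺}) = κ K_{m'} = κ` by the induction
hypothesis for `m' ≤ m⁺`, so `κ = K m` by STU (for `m, m⁺`), and `K_m K_{m'} = κ K_{m'} = K_m`.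
(b) any `m' ≥ m`, `m' ≠ m`: `m'' i = min (m' i) (m⁺ i)`, `m ≤ m'' ≤ m⁺`, `m'' ≤ m'`, `m'' ≠ m`;
`K_m K_{m'} = (K_m K_{m''}) K_{m'} = K_m (K_{m''} K_{m'}) = K_m K_{m''} = K_m`.
(`Sat κ κ'` reads `κ κ' = κ` for the operators `κ f x = ∫ f dκ x` on `C(W)`; `κ f` is continuous.) -/
def S_FAM : Prop := ∀ (X : Type) [TopologicalSpace X] [CompactSpace X] [T2Space X]
  [SecondCountableTopology X] [MeasurableSpace X] [BorelSpace X] [Sys X] [Nonempty X] (h : ℕ)
  (E : ℕ → X → X → Prop) (ρ : ℕ → X → X → ℝ), (∀ x y : X, y ∈ orb x) → Tow h E ρ →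
  ∀ (F : Type) [Finite F] (L : AddSubgroup (F → ℤ)), 1 ∈ L →
    ∃ K : (F → ℕ) → NN X L → ProbabilityMeasure (NN X L), Fam h E L K

/-- NAT (uses STU, MIN, TWE, ISN). Naturality of the kernels.
PROOF. The map `r : NN X L → NN X L'`, `r v = v ∘ e`, is well defined, continuous and onto
(`(shF l d) ∘ e = shF (l ∘ e) d`; closures; compactness). Downward induction on `m` (with `m i = 0`
outside the range of `e`). For such `m` and `w' ∈ NN X L'` put `κ w' = image of K m w under r`, any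
`w` with `r w = w'`: well defined, as `K m w` depends only on the class `EE m` of `w`, i.e. on
`w ∘ e` modulo `EE (m ∘ e)`. `κ` is a `Ker` for `EE (m ∘ e)`: continuous (`NN X L → NN X L'` is a
quotient map of compact spaces), carried by the class, equivariant (`r` is equivariant).
If `m = h` on the range of `e`: `K m w` is carried by the `v` with `v ∘ e = w ∘ e`, so
`κ w' = dirac w' = K' (m ∘ e) w'` (both are carried by `{w'}`). Otherwise let `m⁺ i = min h (m i + 1)`
on the range of `e`, `0` elsewhere: for `f ∈ C(NN X L')`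
`∫ (∫ f dK' (m⁺ ∘ e)) dκ w' = ∫ (∫ f ∘ r dK m⁺ v) dK m w (v) = ∫ f ∘ r dK m w = ∫ f dκ w'` by the
induction hypothesis and `mul`; so `Sat κ (K' (m⁺ ∘ e))`, and `K' (m ∘ e)` has the same properties;
STU (ISN for `m ∘ e`, `m⁺ ∘ e`) gives `κ = K' (m ∘ e)`. -/
def S_NAT : Prop := ∀ (X : Type) [TopologicalSpace X] [CompactSpace X] [T2Space X]
  [SecondCountableTopology X] [MeasurableSpace X] [BorelSpace X] [Sys X] [Nonempty X] (h : ℕ)
  (E : ℕ → X → X → Prop) (ρ : ℕ → X → X → ℝ), (∀ x y : X, y ∈ orb x) → Tow h E ρ →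
  ∀ (F F' : Type) [Finite F] [Finite F'] (e : F' → F) (L : AddSubgroup (F → ℤ))
    (L' : AddSubgroup (F' → ℤ)), 1 ∈ L → (∀ l', l' ∈ L' ↔ ∃ l ∈ L, l' = l ∘ e) →
  ∀ (K : (F → ℕ) → NN X L → ProbabilityMeasure (NN X L))
    (K' : (F' → ℕ) → NN X L' → ProbabilityMeasure (NN X L')), Fam h E L K → Fam h E L' K' →
  ∀ m : F → ℕ, (∀ i, m i ≤ h) → (∀ i, i ∉ range e → m i = 0) → ∀ (w : NN X L) (w' : NN X L'),
    w'.1 = w.1 ∘ e → (K m w : Measure (NN X L)).map (fun v => v.1 ∘ e) =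
      (K' (m ∘ e) w' : Measure (NN X L')).map fun v => v.1

/-- KSX (uses FAM, NAT, MIN, TWE). A minimal system with a tower has a system of canonical kernels.
PROOF. For `1 ∈ L` choose `Kf` by FAM and let, for `w ∈ NF X L`, `K F L A w` be the image of
`Kf m w`, `m i = h` on `A`, `0` outside `A`, under the inclusion `NN X L → (F → X)`; for
`w ∉ NF X L` or `1 ∉ L`: `K F L A w = 0`. It is a kernel: `NF X L` is closed and on it the function
is continuous into the probability measures (measurability of `w ↦ K w B`: closed sets `B` by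
semicontinuity, then a π-system). `EE m` is agreement on `A` (`bot`, `top`). The clauses: `min` from
MIN, `car`, `cont`, `cls`, `equi` from `Ker`, `full` from `FullK`, `mul` from `Fam.mul` (equality
of measures from equality of the integrals of continuous functions; `bind` of a kernel), `nat` from
NAT (`m` vanishes outside `A ⊆ range e`; `m ∘ e` is the level of `e ⁻¹' A`). -/
def S_KSX : Prop := ∀ (X : Type) [TopologicalSpace X] [CompactSpace X] [T2Space X]
  [SecondCountableTopology X] [MeasurableSpace X] [BorelSpace X] [Sys X] [Nonempty X] (h : ℕ)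
  (E : ℕ → X → X → Prop) (ρ : ℕ → X → X → ℝ), (∀ x y : X, y ∈ orb x) → Tow h E ρ →
    ∃ K : KT X, KS K

/-! ## Part 3.  Doubling

In this part `K` is any system of canonical kernels, `can = cn K L`. -/

/-- PK1. Disintegration of the doubled configurations over the first copy.
PROOF. `cn K (dbl L γ) = (cn K (dbl L γ)).bind (K _ _ (range inl))` (`mul`, `∅ ⊆ range inl`). For
`v ∈ NF (dbl L γ)`: `v ∘ inl ∈ NF L`, `v' = Sum.elim (v ∘ inl) (v ∘ inl) ∈ NF (dbl L γ)` (take
`m = 0`), `K (range inl) v = K (range inl) v'` (`cls`), carried by the configurations with first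
copy `v ∘ inl` (`car`); so `∫ H dK (range inl) v = ∫ H(v ∘ inl, q') dPk(v ∘ inl)(q')`. The law of
`v ∘ inl` is `cn K L` (`nat` with `e = inl`, `A = ∅`). `Pk` is measurable in `q` because
`q ↦ Sum.elim q q` is. -/
def S_PK1 : Prop := ∀ (X : Type) [TopologicalSpace X] [CompactSpace X] [T2Space X]
  [SecondCountableTopology X] [MeasurableSpace X] [BorelSpace X] [Sys X] [Nonempty X] (K : KT X),
  KS K → ∀ (F : Type) [Finite F] (L : AddSubgroup (F → ℤ)) (γ : F → ℤ), 1 ∈ L → γ ∈ L →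
  Measurable (Pk K L γ) ∧ (∀ᵐ q ∂(cn K L), Pk K L γ q univ = 1) ∧
  ∀ H : (F → X) × (F → X) → ℝ≥0∞, Measurable H →
    ∫⁻ v, H (v ∘ Sum.inl, v ∘ Sum.inr) ∂(cn K (dbl L γ)) =
      ∫⁻ q, ∫⁻ q', H (q, q') ∂(Pk K L γ q) ∂(cn K L)

/-- PK2. The doubled configurations are symmetric.
PROOF. `nat` with `e = Sum.swap`, `A = ∅`: `{l ∘ swap | l ∈ dbl L γ} = dbl L γ`, since
`(k + m γ, k) = (k', k' - m γ)` with `k' = k + m γ ∈ L` (`γ ∈ L`). -/
def S_PK2 : Prop := ∀ (X : Type) [TopologicalSpace X] [CompactSpace X] [T2Space X]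
  [SecondCountableTopology X] [MeasurableSpace X] [BorelSpace X] [Sys X] [Nonempty X] (K : KT X),
  KS K → ∀ (F : Type) [Finite F] (L : AddSubgroup (F → ℤ)) (γ : F → ℤ), 1 ∈ L → γ ∈ L →
  (cn K (dbl L γ)).map (fun v => v ∘ Sum.swap) = cn K (dbl L γ)

/-- PK3. `P P = P`: for bounded measurable functions `∫ (P f)(P g) dcan = ∫ f (P g) dcan`.
PROOF. Work in `tpl L γ = {(k, k + m γ, k + m' γ)}`, `v = (v0, v1, v2)`, `can3 = cn K (tpl L γ)`.
Let `g` be continuous, `Φ v = ∫ g(v2) dK (tpl L γ) (first two copies) v`: continuous on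
`NF (tpl L γ)`, depends only on `(v0, v1)`.
(1) `Φ (shF l v) = Φ v` for `l = (0, γ, 0)` (`equi`; `l` does not move the third copy).
(2) Let `v ∈ NF (tpl L γ)` be the limit of `v^k = shF l^k (x^k, …, x^k)`,
`l^k = (λ, λ + m γ, λ + m' γ)`. By (1) `Φ v^k = Φ (v0^k, v0^k, v2^k)` (`v1^k` is `v0^k` moved by
`m γ`); in the limit `Φ v = Φ (v0, v0, v2)`: so `Φ v` depends only on `v0`, `Φ v = Φ₀ v0`.
(3) `mul` for (first copy) `⊆` (first two copies): `∫ g(v2) dK (tpl L γ) (first copy) v =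
∫ Φ dK (first copy) v = Φ₀ v0`; by `nat` for `e = ` (first copy, third copy) (`{l ∘ e} = dbl L γ`) the
left side is `P g (v0)`. So `Φ v = P g (v0)`.
(4) So for `f, g` continuous `∫ f(v1) g(v2) dcan3 = ∫ f(v1) (P g)(v0) dcan3 =
∫ f(q') (P g)(q) dcn(dbl L γ) = ∫ (P f)(P g) dcan` (`mul`, `nat` for the first two copies, PK1); and
`= ∫ f(q) g(q') dcn(dbl L γ) = ∫ f (P g) dcan` by `nat` for the last two copies
(`(k + m γ, k + m' γ) = (k', k' + (m' - m) γ)`, `γ ∈ L`) and PK1. Both sides are bounded by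
`|f|_1 |g|_∞` and `|f|_∞ |g|_1` (`L¹(can)`; `P` preserves `can` by PK1, PK2), so the identity
passes to bounded measurable functions (continuous functions are dense in `L¹`). -/
def S_PK3 : Prop := ∀ (X : Type) [TopologicalSpace X] [CompactSpace X] [T2Space X]
  [SecondCountableTopology X] [MeasurableSpace X] [BorelSpace X] [Sys X] [Nonempty X] (K : KT X),
  KS K → ∀ (F : Type) [Finite F] (L : AddSubgroup (F → ℤ)) (γ : F → ℤ), 1 ∈ L → γ ∈ L →
  ∀ f g : (F → X) → ℝ, Measurable f → Measurable g → (∀ w, |f w| ≤ 1) → (∀ w, |g w| ≤ 1) →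
    ∫ q, (∫ q', f q' ∂(Pk K L γ q)) * (∫ q', g q' ∂(Pk K L γ q)) ∂(cn K L) =
      ∫ q, f q * (∫ q', g q' ∂(Pk K L γ q)) ∂(cn K L)

/-- CSD (uses PK1, PK2, PK3). The Cauchy-Schwarz step.
PROOF. `P f q = ∫ f dPk q`. PK1: `∫ f (P g) dcan = ∫ f(q) g(q') dcn(dbl)`, symmetric in `f, g` by
PK2, and for `f = 1`: `P` preserves `can`. For `v ∈ NF (dbl L γ)` and `γ i = 0`: `v (inl i) =
v (inr i)` (true for `shF l (x, …, x)`, closed), so `A (v ∘ inl) = A (v ∘ inr)`. Hence
`∫ A Ψ dcan = ∫ A(q') Ψ(q') dcn(dbl) = ∫ A(q) Ψ(q') dcn(dbl) = ∫ A (P Ψ) dcan`, and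
`(∫ A (P Ψ))² ≤ ∫ (P Ψ)² = ∫ Ψ (P Ψ) = ∫ Ψ(q) Ψ(q') dcn(dbl)` by Cauchy-Schwarz (`|A| ≤ 1`), PK3,
PK1. -/
def S_CSD : Prop := ∀ (X : Type) [TopologicalSpace X] [CompactSpace X] [T2Space X]
  [SecondCountableTopology X] [MeasurableSpace X] [BorelSpace X] [Sys X] [Nonempty X] (K : KT X),
  KS K → ∀ (F : Type) [Finite F] (L : AddSubgroup (F → ℤ)) (γ : F → ℤ), 1 ∈ L → γ ∈ L →
  ∀ A Ψ : (F → X) → ℝ, Measurable A → Measurable Ψ → (∀ w, |A w| ≤ 1) → (∀ w, |Ψ w| ≤ 1) →
    (∀ w w' : F → X, (∀ i, γ i = 0 → w i = w' i) → A w = A w') →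
    (∫ q, A q * Ψ q ∂(cn K L)) ^ 2 ≤
      ∫ v, Ψ (v ∘ Sum.inl) * Ψ (v ∘ Sum.inr) ∂(cn K (dbl L γ))

/-- CUB (uses CSD). The cube inequality.
PROOF. For `i ≤ n` put `E_i = ∫ ∏_{w : Wx i} (f(q ∘ ch w) ∏_{j ≥ i} φ_j(q (ch w j))) dcn(Lq n i)`.
`E_0` is the left integral, `E_n` the right one. `E_i² ≤ E_{i+1}`: CSD for `F = Ix n i`, `L = Lq n i`,
`γ a = pos a - i` (in `Lq n i`: all vectors `b + pos a u` are, by induction; `1 ∈ Lq n i`),
`A q = ∏_w φ_i(q (ch w i))`, `Ψ` = the other factors (`j > i`): `A` depends only on the vertices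
`a = ch w i`, `pos a = i`, where `γ a = 0`; `Wx (i+1) = Wx i ⊕ Wx i` and
`ch (i+1) (inl w) = inl ∘ ch i w`, `ch (i+1) (inr w) = inr ∘ ch i w`. All functions are bounded by
`1`, and `E_i ≥ 0` for `i ≥ 1`. So `E_0 ^ (2^n) ≤ E_n`. -/
def S_CUB : Prop := ∀ (X : Type) [TopologicalSpace X] [CompactSpace X] [T2Space X]
  [SecondCountableTopology X] [MeasurableSpace X] [BorelSpace X] [Sys X] [Nonempty X] (K : KT X),
  KS K → ∀ (n : ℕ), 0 < n → ∀ (f : (Fin n → X) → ℝ) (φ : Fin n → X → ℝ), Measurable f →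
    (∀ C, |f C| ≤ 1) → (∀ j, Measurable (φ j)) → (∀ j x, |φ j x| ≤ 1) →
    (∫ C, f C * ∏ j, φ j (C j) ∂(cn K (Lc n))) ^ (2 ^ n) ≤
      ∫ q, ∏ w : Wx n, f (fun j => q (ch n n w j)) ∂(cn K (Lq n n))

/-! ## Part 3.  The laws of the chains of a cube -/

/-- LQ. The pair (first chain, chain `w`) of a cube has shape `Lp n (Sx w)`.
PROOF. Induction on `i`. `i = 0`: `S = ∅`, both chains are the same. `i + 1`, `w = inl w'`: an
element of `Lq n (i+1)` is `(k, k + m γ)`, `k ∈ Lq n i`; the pair is the pair of `k`. `w = inr w'`: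
the second chain of the pair gets the additional term `m (j - i)`; `i ∉ Sx w'` (all elements of
`Sx i w'` are `< i`), so `τ i := m` gives the shape `insert i (Sx w')`. -/
def S_LQ : Prop := ∀ (n i : ℕ) (w : Wx i) (l' : Fin n ⊕ Fin n → ℤ), l' ∈ Lp n (Sx i w) ↔
  ∃ l ∈ Lq n i, l' = l ∘ Sum.elim (ch n i (w0 i)) (ch n i w)

/-- LA. The law of a chain which shares the vertex `j` with the first chain.
PROOF. `L = Lp n {j}`, `Kl C = ` image under `inr` of `K (range inl) C`, `C ∈ NF L`: weakly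
continuous in `C`, depends only on `C ∘ inl`.
(1) If `l ∈ L`, `l ∘ inr = 0`, then `Kl (shF l C) = Kl C` (`equi`).
(2) Let `C = lim C_k`, `C_k = shF l_k (x_k, …, x_k)`, `l_k` with parameters `(b, u, τ)`. The element
`l'` with parameters `(j u, -u, u)` (`τ' j = u`) has `l' (inr i) = j u - i u + (i - j) u = 0` and
`(l_k + l')(inl i) = b + i u + j u - i u = b + j u` for all `i`. So `Kl C_k = Kl (shF l' C_k)`, the
first chain of `shF l' C_k` is constant `= C_k (inl j)` and its second chain is that of `C_k`. In the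
limit: `Kl C = Kl D`, `D = ` (constant chain `C (inl j)`, `C ∘ inr`) `∈ NF L`. So `Kl C = R (C (inl j))`
depends only on `C (inl j) = C (inr j)` (`l (inl j) = l (inr j)` on `L`).
(3) `mul` for `{inl j} ⊆ range inl`: the image under `inr` of `K {inl j} C` is
`∫ Kl C' dK {inl j} C (C') = R (C (inl j)) = Kl C` (`car`). `K {inl j} C = K {inr j} C` (agreement at
`inl j` and at `inr j` are the same on `NF L`; `K_eq_of_agree` in ToolsD). By `nat` with `e = inr`,
`A = {inr j}` (`{l ∘ inr} = Lc n`): the image of `K {inr j} C` under `inr` is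
`K (Fin n) (Lc n) {j} (C ∘ inr)`. -/
def S_LA : Prop := ∀ (X : Type) [TopologicalSpace X] [CompactSpace X] [T2Space X]
  [SecondCountableTopology X] [MeasurableSpace X] [BorelSpace X] [Sys X] [Nonempty X] (K : KT X),
  KS K → ∀ (n : ℕ) (j : Fin n), ∀ C ∈ NF X (Lp n {(j : ℕ)}),
    (K (Fin n ⊕ Fin n) (Lp n {(j : ℕ)}) (range Sum.inl) C).map (fun v => v ∘ Sum.inr) =
      K (Fin n) (Lc n) {j} (C ∘ Sum.inr)

/-- DOMG. Domination: the law of the second part, given the first part.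
PROOF. Let `g ≥ 0` be continuous on `F₂ → X`, `Φ C = ∫ g(v ∘ inr) dK (range inl) C (v)`, continuous on
`NF L`, depends only on `C ∘ inl`. `Λ₀ = {k ∘ inl | k ∈ L, k ∘ inr = 0}` is a subgroup of `L₁`, and
`Φ (shF k C) = Φ C` for such `k` (`equi`). Let `T' ⊆ T` contain exactly one element of each coset of
`Λ₀` in `L₁` (`T` meets all of them). Put `Ψ C = ∑_{t ∈ T'} Φ (shF t~ C)`, `t~ ∈ L`, `t~ ∘ inl = t`.
For `l ∈ L` the elements `t + l ∘ inl` run through representatives of all cosets, so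
`Ψ (shF l C) = Ψ C`; `Ψ` is continuous, so constant on `NF L` (`min`), equal to
`∫ Ψ dcn L = |T'| ∫ Φ dcn L = |T'| ∫ g(v ∘ inr) dcn L = |T'| ∫ g dcn L₂` (invariance of `cn`, `mul`,
`nat`). One term of `Ψ C` is `Φ C`, all are `≥ 0`: `Φ C ≤ |T| ∫ g dcn L₂`. Closed sets are decreasing
limits of continuous functions, finite measures are regular: the inequality of measures. -/
def S_DOMG : Prop := ∀ (X : Type) [TopologicalSpace X] [CompactSpace X] [T2Space X]
  [SecondCountableTopology X] [MeasurableSpace X] [BorelSpace X] [Sys X] [Nonempty X] (K : KT X),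
  KS K → ∀ (F₁ F₂ : Type) [Finite F₁] [Finite F₂] (L : AddSubgroup (F₁ ⊕ F₂ → ℤ))
    (L₁ : AddSubgroup (F₁ → ℤ)) (L₂ : AddSubgroup (F₂ → ℤ)) (T : Finset (F₁ → ℤ)), 1 ∈ L →
    (∀ l', l' ∈ L₁ ↔ ∃ l ∈ L, l' = l ∘ Sum.inl) → (∀ l', l' ∈ L₂ ↔ ∃ l ∈ L, l' = l ∘ Sum.inr) →
    (∀ t ∈ T, t ∈ L₁) →
    (∀ l ∈ L₁, ∃ t ∈ T, ∃ k ∈ L, k ∘ Sum.inl = l - t ∧ k ∘ Sum.inr = 0) →
    ∀ C ∈ NF X L, (K (F₁ ⊕ F₂) L (range Sum.inl) C).map (fun v => v ∘ Sum.inr) ≤
      T.card • cn K L₂

/-- LB (uses DOMG). The law of a chain which is displaced in at least two directions is dominated.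
PROOF. `i ≠ i'` in `S`, `r = |i - i'|`, `T = {b + j u | 0 ≤ b, u < r}`. For `l = b + j u ∈ Lc n` let
`b = b₀ + r β`, `u = u₀ + r υ`, `t = b₀ + j u₀ ∈ T`. `k` with parameters `(r β, r υ, τ)`,
`τ i + τ i' = - r υ`, `i τ i + i' τ i' = r β`, other `τ = 0`: solvable in integers because the
determinant is `i' - i = ± r`; `k (inr j) = r β + j r υ + (j - i) τ i + (j - i') τ i' = 0`. -/
def S_LB : Prop := ∀ (X : Type) [TopologicalSpace X] [CompactSpace X] [T2Space X]
  [SecondCountableTopology X] [MeasurableSpace X] [BorelSpace X] [Sys X] [Nonempty X] (K : KT X),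
  KS K → ∀ (n : ℕ) (S : Finset ℕ), 1 < S.card → ∃ N : ℕ, ∀ C ∈ NF X (Lp n S),
    (K (Fin n ⊕ Fin n) (Lp n S) (range Sum.inl) C).map (fun v => v ∘ Sum.inr) ≤
      N • cn K (Lc n)

/-- CHQ (uses LQ, LA, LB). The chains of a cube.
PROOF. `pull`: the case of one chain of LQ (`Lp n S` projected to `inr` is `Lc n`:
`∑ (j - i) τ i` is `b' + j u'`). `law`, `w ≠ w0`: `e = Sum.elim (ch w0) (ch w)`,
`A = range (ch w0) ⊆ range e`, `e ⁻¹' A = range inl` (the vertices of different chains are different),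
so by `nat` the image of `K (Lq n i) (range (ch w0)) C` under `e` is
`K (Lp n (Sx w)) (range inl) (C ∘ e)`. `Sx w ≠ ∅` (`w ≠ w0`, induction), all elements of `Sx w` are
`< i ≤ n`: if `Sx w = {j}` use LA, otherwise LB. -/
def S_CHQ : Prop := ∀ (X : Type) [TopologicalSpace X] [CompactSpace X] [T2Space X]
  [SecondCountableTopology X] [MeasurableSpace X] [BorelSpace X] [Sys X] [Nonempty X] (K : KT X),
  KS K → ∀ (n i : ℕ), 0 < n → i ≤ n → ChS K n (Lq n i) (ch n i) (w0 i)

/-! ## Part 3.  The dual function and the 0-1 law -/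

/-- DUC. Continuous data: the conditional expectation is a continuous function of the first chain.
PROOF. `r : NF L → NF (Lc n)`, `r q = q ∘ c o`, is continuous and onto (`pull`; compactness), a
quotient map. `q ↦ ∫ G dK (range (c o)) q` is continuous on `NF L` (`cont`) and depends only on
`q ∘ c o` (`cls`), so it is `h ∘ r` with `h` continuous on the closed set `NF (Lc n)`; Tietze. -/
def S_DUC : Prop := ∀ (X : Type) [TopologicalSpace X] [CompactSpace X] [T2Space X]
  [SecondCountableTopology X] [MeasurableSpace X] [BorelSpace X] [Sys X] [Nonempty X] (K : KT X),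
  KS K → ∀ (n : ℕ) (F : Type) [Finite F] (L : AddSubgroup (F → ℤ)) (c : Fin n → F), 1 ∈ L →
    (∀ l', l' ∈ Lc n ↔ ∃ l ∈ L, l' = l ∘ c) → ∀ G : C(F → X, ℝ),
    ∃ h : C(Fin n → X, ℝ), ∀ q ∈ NF X L, ∫ v, G v ∂(K F L (range c) q) = h (q ∘ c)

/-- DUA (uses DUC). The dual function of a regular function is continuous.
PROOF. Let `ε > 0`. For `w ≠ o` choose `g_w` continuous, `|g_w| ≤ 1` (truncate), with
`∫ |f - g_w| dK {j} C ≤ ε` for almost all `C` (`law` of the first kind, `Reg.reg`), resp.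
`N ∫ |f - g_w| dcn(Lc n) ≤ ε` (second kind; from `Reg.reg` and `cn = cn.bind K {j}`, or density of
the continuous functions if `n = 0`). Then for `cn K L`-almost all `q`
`∫ |f - g_w|(v ∘ c w) dK (range (c o)) q (v) ≤ ε` (the law of `q ∘ c w` under `cn K L` is `cn (Lc n)`),
so `|∫ ∏_{w ≠ o} f(v ∘ c w) dK q - ∫ ∏_{w ≠ o} g_w(v ∘ c w) dK q| ≤ |W| ε` (all factors bounded by
`1`). By DUC the second integral is `h_ε(q ∘ c o)`, `h_ε` continuous. For two values of `ε`:
`|h_ε - h_ε'| ≤ |W| (ε + ε')` almost everywhere for `cn (Lc n)`, hence on `NF (Lc n)` (full support).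
So `h_ε → h` uniformly on `NF (Lc n)`, `h` continuous (Tietze), and
`∫ ∏_{w ≠ o} f(v ∘ c w) dK q = h(q ∘ c o)` for almost all `q`. Invariance: for almost all `q`:
`h(shF 1 (q ∘ c o)) = ∫ ∏ f(v ∘ c w) dK (shF 1 q) = ∫ ∏ f(shF 1 (v ∘ c w)) dK q = h(q ∘ c o)`
(`equi`, `Reg.inv`, the law of `v ∘ c w` is `cn (Lc n)`, `cn K L` is invariant); so `h ∘ shF 1 = h`
almost everywhere, hence on `NF (Lc n)`. Finally `∫ ∏_w f(q ∘ c w) dcn K L =
∫ f(q ∘ c o) h(q ∘ c o) dcn K L = ∫ f h dcn(Lc n)` (`mul`, `car`, `nat`). -/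
def S_DUA : Prop := ∀ (X : Type) [TopologicalSpace X] [CompactSpace X] [T2Space X]
  [SecondCountableTopology X] [MeasurableSpace X] [BorelSpace X] [Sys X] [Nonempty X] (K : KT X),
  KS K → ∀ (n : ℕ) (F : Type) [Finite F] (L : AddSubgroup (F → ℤ)) (W : Type) [Fintype W]
    (c : W → Fin n → F) (o : W), ChS K n L c o → ∀ f : (Fin n → X) → ℝ, Reg K n f →
    ∃ h : C(Fin n → X, ℝ), CI X n h ∧
      ∫ q, ∏ w, f (fun j => q (c w j)) ∂(cn K L) = ∫ C, f C * h C ∂(cn K (Lc n))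

/-- HPR. The projection of a function onto the invariant continuous functions is regular.
PROOF. Let `V` be the subspace of `L²(can)` of the continuous `g` with `CI g`, `p` the orthogonal
projection of `f` onto the closure of `V`; `∫ (f - p) g = 0` for `g ∈ V`. Truncation to `[0, 1]` maps
`V` to `V` (compose with a continuous function) and does not increase `|f - g|_2`; so there are
`g_k ∈ V`, `0 ≤ g_k ≤ 1`, with `g_k → p` in `L²` (minimising sequences converge to `p`), and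
`0 ≤ p ≤ 1` a.e.; take a measurable version with `0 ≤ p ≤ 1` everywhere and a subsequence with
`g_k → p` a.e. Regular: for `g, g'` with `CI` the function `C ↦ ∫ |g - g'| dK {j} C` is continuous on
`NF (Lc n)` and invariant under `shF 1` (`equi`), and depends only on `C j` (`cls`), so it is
constant (`min`: for `l ∈ Lc n` the point `shF l C` has `j`-th coordinate `sh (l j) (C j)`, the same
as `shF (l j • 1) C`), `= ∫ |g - g'| dcan`. For almost all `C`: `g_k → p` almost everywhere for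
`K {j} C` (`cn = cn.bind K {j}`), so `∫ |p - g_k| dK {j} C ≤ liminf_l ∫ |g_l - g_k| dK {j} C =
liminf_l |g_l - g_k|_1 ≤ ε` for `k` large (Fatou). `p (shF 1 C) = p C` a.e.: true for the `g_k`;
`can` is invariant. -/
def S_HPR : Prop := ∀ (X : Type) [TopologicalSpace X] [CompactSpace X] [T2Space X]
  [SecondCountableTopology X] [MeasurableSpace X] [BorelSpace X] [Sys X] [Nonempty X] (K : KT X),
  KS K → ∀ (n : ℕ) (f : (Fin n → X) → ℝ), Measurable f → (∀ C, 0 ≤ f C ∧ f C ≤ 1) →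
    ∃ p : (Fin n → X) → ℝ, Reg K n p ∧ (∀ C, 0 ≤ p C) ∧
      (∀ g : C(Fin n → X, ℝ), CI X n g → ∫ C, (f C - p C) * g C ∂(cn K (Lc n)) = 0) ∧
      ∀ ε : ℝ, 0 < ε → ∃ g : C(Fin n → X, ℝ), CI X n g ∧ (∀ C, 0 ≤ g C ∧ g C ≤ 1) ∧
        ∫ C, |p C - g C| ∂(cn K (Lc n)) ≤ ε

/-- DEN. A bounded function orthogonal to all products vanishes.
PROOF. The span of the products of continuous functions of one coordinate is a subalgebra which
separates points (Stone-Weierstrass), so dense in `C(Fin n → X)`, which is dense in `L¹`. -/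
def S_DEN : Prop := ∀ (X : Type) [TopologicalSpace X] [CompactSpace X] [T2Space X]
  [SecondCountableTopology X] [MeasurableSpace X] [BorelSpace X] (n : ℕ)
  (μ : Measure (Fin n → X)), IsProbabilityMeasure μ → ∀ f : (Fin n → X) → ℝ, Measurable f →
    (∀ C, |f C| ≤ 1) →
    (∀ φ : Fin n → C(X, ℝ), (∀ j x, |φ j x| ≤ 1) → ∫ C, f C * ∏ j, φ j (C j) ∂μ = 0) →
    ∀ᵐ C ∂μ, f C = 0

/-- TH3 (uses CUB, CHQ, DUA, HPR, DEN). THE 0-1 LAW FOR CHAINS.
PROOF. `p` from HPR, `f' = f - p`: `|f'| ≤ 1`, `Reg K n f'` (sums). CHQ with `i = n` and DUA: there is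
`h` with `CI h` and `∫ ∏_w f'(q ∘ ch w) dcn(Lq n n) = ∫ f' h dcan = 0`. CUB:
`(∫ f' ∏ φ_j(C j) dcan)^(2^n) ≤ 0` with an even exponent, so `= 0`. DEN: `f' = 0` a.e. So `f = p`
a.e. and the last clause of HPR is the claim. -/
def S_TH3 : Prop := ∀ (X : Type) [TopologicalSpace X] [CompactSpace X] [T2Space X]
  [SecondCountableTopology X] [MeasurableSpace X] [BorelSpace X] [Sys X] [Nonempty X] (K : KT X),
  KS K → ∀ (n : ℕ), 0 < n → ∀ f : (Fin n → X) → ℝ, Reg K n f → (∀ C, 0 ≤ f C) →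
    ∀ ε : ℝ, 0 < ε → ∃ g : C(Fin n → X, ℝ), CI X n g ∧ (∀ C, 0 ≤ g C ∧ g C ≤ 1) ∧
      ∫ C, |f C - g C| ∂(cn K (Lc n)) ≤ ε

/-! ## Laws of one vertex (used in the other parts) -/

/-- DOM1 (uses DOMG). The law of the vertex `i`, given the vertex `j`.
PROOF. `nat` with `e : Fin 1 ⊕ Fin 1 → Fin n`, `inl 0 ↦ j`, `inr 0 ↦ i`: the pair `(C j, C i)` has
shape `L = {(b + j u, b + i u)}`. DOMG with `L₁ = L₂ = Lc 1 =` everything, `T = {0, …, |i - j| - 1}`:
for `l = r q + t`, `r = |i - j|`, the element `(r q, 0)` is in `L` (`b + i u = 0`, `(j - i) u = r q`).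
`T.card = |i - j| ≤ n`. -/
def S_DOM1 : Prop := ∀ (X : Type) [TopologicalSpace X] [CompactSpace X] [T2Space X]
  [SecondCountableTopology X] [MeasurableSpace X] [BorelSpace X] [Sys X] [Nonempty X] (K : KT X),
  KS K → ∀ (n : ℕ) (i j : Fin n), i ≠ j → ∀ C ∈ NF X (Lc n),
    (K (Fin n) (Lc n) {j} C).map (fun v => v i) ≤ n • cX K

/-- SCO (uses DOM1). Strong continuity of the law, given one vertex.
PROOF. Let `ε > 0`, `g_i` continuous, `|g_i| ≤ 1`, `∫ |f_i - g_i| dcX ≤ ε` (density, truncation). By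
DOM1 `|∫ ∏ f_i(v i) dK {j} C - ∫ ∏ g_i(v i) dK {j} C| ≤ ∑_{i ≠ j} n ∫ |f_i - g_i| dcX ≤ n² ε` for
all `C ∈ NF`; the second integral is continuous (`cont`). Uniform limit. -/
def S_SCO : Prop := ∀ (X : Type) [TopologicalSpace X] [CompactSpace X] [T2Space X]
  [SecondCountableTopology X] [MeasurableSpace X] [BorelSpace X] [Sys X] [Nonempty X] (K : KT X),
  KS K → ∀ (n : ℕ) (j : Fin n) (f : Fin n → X → ℝ), (∀ i, Measurable (f i)) →
    (∀ i x, |f i x| ≤ 1) →
    ContinuousOn (fun C => ∫ v, ∏ i ∈ Finset.univ.erase j, f i (v i) ∂(K (Fin n) (Lc n) {j} C))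
      (NF X (Lc n))

end Pool.Agent.Work.MP_69fea5_lc.W3D
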