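import Pool.Agent.Work.MP_69fea5_lc.W3.DefsR

/-!
# Block [69fea5 W3 R]: the tower and the top level: statements

Every item is a theorem `XXX_pf (h1 : S_A) (h2 : S_B) ... : S_XXX` in its own file `W3/I_XXX.lean`
(namespace as here); the hypotheses may be any statements of EARLIER items in this file and any
statements of `W3/StmtsT.lean`, `StmtsG`, `StmtsL`, `StmtsQ`, `StmtsV`, `StmtsV2`, `StmtsD`, `StmtsD2`
(the last two in the namespace `W3D`), `AK.S_...`, `N3.S_...`. The docstrings contain complete
proofs.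
-/

set_option autoImplicit false

namespace Pool.Agent.Work.MP_69fea5_lc.W3

open MeasureTheory Topology Set Filter TopologicalSpace ProbabilityTheory
open scoped NNReal ENNReal
open Pool.Agent.Work.MP_69fea5_lc.AK

/-! ## Distality -/

/-- [RDI] towers are distal. Let `sh g x → z`, `sh g y → z` along `F`. By induction on `t ≤ h`:
`E t x y`. `t = 0`: `bot`. Step: `ρ t x y = ρ t (sh g x) (sh g y) → ρ t z z = 0` (`Iso1.rinv`,
`cont`, `self`; `E t` is invariant and reflexive), so `ρ t x y = 0` and `E (t + 1) x y` (`Iso1.zero`).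
At last `top`. -/
def S_RDI : Prop := ∀ (X : Type) [TopologicalSpace X] [CompactSpace X] [T2Space X] [Sys X] (h : ℕ)
  (E : ℕ → X → X → Prop) (ρ : ℕ → X → X → ℝ), W3D.Tow h E ρ → DistalOn (shA X) univ

/-! ## The property `TopF` -/

/-- [RUP] Let the tuples over `X'` be the same as the tuples over `X` (freeness). Then a function of
the class `IsoF` over `X'` is of this class over `X`. Proof. For `π w = π w'` put
`D j w w' := sup {|G (ins j w u) - G (ins j w' u)| | u, ins j w u ∈ CM n M π}` (then
`ins j w' u ∈ CM n M π`, since only the positions in `X` matter; the set of these `u` is compact and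
not empty, `S_LGR`) and `ρ' w w' v := ∑ j, D j w w'`. Pseudometric: clear. Invariant: `IsoF.inv`,
`CM` is invariant (for all powers of `sh 1`). `IsoF.fac` for `ρ'`: change one coordinate at a time;
the mixed tuples have the same positions, so they are in `CM n M π`. Continuity of `D j` on
`{(w, w') ∈ M × M | π w = π w'}`: upper semicontinuity by compactness. Lower semicontinuity: let
`(w_l, w'_l) → (w, w')` along an ultrafilter `F` and let `u` be optimal for `(w, w')`. The positions
`z = π ∘ ins j w u` are in `PG n X`; `S_GOP` for `PG n X → X`, `v ↦ v j` (`S_GPR`: `PG n X` is minimal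
and distal) gives `z_l ∈ PG n X`, `z_l → z`, `z_l j = π w_l`. For `i ≠ j`: `π' (u i)` is a point over
`z i`; `S_GOP` for `p : X' → X` gives `y_l i → π' (u i)` with `p (y_l i) = z_l i`. `S_ISP` for
`P = gr M π'` and `ρ` (base `X'`): there are `a_l i ∈ M`, `π' (a_l i) = y_l i`, converging along `F` to
`a i ∈ M` with `π' (a i) = π' (u i)` and `ρ (a i) (u i) = 0`. `ins j w_l a_l` and `ins j w'_l a_l` are in
`CM n M π`, and they converge to `ins j w a`, `ins j w' a`; `G (ins j w a) = G (ins j w u)` by
`IsoF.fac` (over `X'`; the tuples are in `CM n M π' = CM n M π`), the same for `w'`. So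
`D j w w' = |G (ins j w a) - G (ins j w' a)| = lim |G (ins j w_l a_l) - G (ins j w'_l a_l)|
≤ liminf D j w_l w'_l`. -/
def S_RUP : Prop := ∀ (k n : ℕ) (X X' : Type)
  [TopologicalSpace X] [MeasurableSpace X] [CS X] [Sys X]
  [TopologicalSpace X'] [MeasurableSpace X'] [CS X'] [Sys X']
  (M : Set (Om k)) (π : Om k → X) (π' : Om k → X') (p : X' → X) (ρ : Om k → Om k → X' → ℝ)
  (G : (Fin n → Om k) → ℝ), Po M π → Po M π' → Continuous p → (∀ w ∈ M, p (π' w) = π w) →
  DistalOn (shA X) univ → DistalOn (shA X') univ → CM n M π = CM n M π' →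
  IPB (gr M π') ρ → IsoF n M π' ρ G → ∃ ρ', IPB (gr M π) ρ' ∧ IsoF n M π ρ' G

/-- [RTF] the last level of a tower. `CM n M (π (n - 2)) = CM n M (π (n - 1))` (`S_LFR`), so a function
of the class `IsoF` over `X (n - 1)` is of this class over `X (n - 2)` (`S_RUP`) and `Stp.fine` for
`l = n - 2` applies. (Write `n = m + 3`.) -/
def S_RTF : Prop := ∀ (k n : ℕ) (X : ℕ → Sp) (M : Set (Om k)) (π : ∀ l, Om k → (X l).C)
  (p : ∀ l, (X (l + 1)).C → (X l).C), 3 ≤ n → (∀ l, Po M (π l)) →
  (∀ y y' : (X 0).C, y = y') → (∀ l, Stp n M (π l) (π (l + 1)) (p l)) →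
  (∀ l, DistalOn (shA (X l).C) univ) → TopF n M (π (n - 1))

/-! ## The interface (TOP) -/

/-- [RKM] the disintegration with values in the system `M`. `ηO v` is the restriction of `η v` to `M`
if `η v M = 1` (almost every `v`), and a point mass otherwise. `Lft.pos`: `TopL.fib`. `Lft.inv`: for
`m = 1` `TopL.eqv`, then for all `m : ℤ` by the invariance of `lam`. Last part: by domination for
`Q`-almost all `z` all `z i` are good, and then the image of the product of the `ηO (z i)` is the
product of the `η (z i)`. -/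
def S_RKM : Prop := ∀ (k : ℕ) (X : Type) [TopologicalSpace X] [MeasurableSpace X] [CS X] [Sys X]
  (M : Set (Om k)) (π : Om k → X) (lam : ProbabilityMeasure X) (μ : PM k) (η : Kernel X (Om k))
  (hM : MinSet M), TopL M π lam μ η → (lam : Measure X).map (sh 1 : X → X) = lam →
  ∃ ηO : Kernel X (SysM hM), Lft (fun w => π (oM hM w)) (lam : Measure X) ηO ∧
    ∀ (ι : Type) [Fintype ι] (C : ℝ≥0) (Q : Measure (ι → X)), IsProbabilityMeasure Q →
      (∀ i, Q.map (fun z => z i) ≤ C • (lam : Measure X)) →
      (lif ηO Q).map (fun u i => oM hM (u i)) = lif η Q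

/-- [RFG] if `TopF n M π` then the functions of the class `ISO` are continuous functions of the
positions. Proof. Let `ISO n (π ∘ oM) g`, with `ρ`. Put `G u := g u` for `u ∈ M^n` (anything for the
other `u`), `ρ' w w' v := ρ w w'` for `w, w' ∈ M`. Then `IPB (gr M π) ρ'` and `IsoF n M π ρ' G`, so by
`TopF` `g u` depends only on the positions for `u ∈ CC`. The map from `CC` to `PG n X` (positions) is
a continuous surjection (`S_LGR`) of compact spaces, so `g = ĝ (positions)` with `ĝ` continuous on the
closed set `PG n X`, with values in `[0, 1]` if `g` has; extend `ĝ` by Tietze. `Vis.inv`: `ISO.inv`. -/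
def S_RFG : Prop := ∀ (k n : ℕ) (X : Type) [TopologicalSpace X] [MeasurableSpace X] [CS X]
  [Sys X] (M : Set (Om k)) (π : Om k → X) (hM : MinSet M), Po M π → TopF n M π →
  ∀ g : (Fin n → SysM hM) → ℝ, ISO n (fun w => π (oM hM w)) g → (∀ u, 0 ≤ g u ∧ g u ≤ 1) →
    ∃ g' : (Fin n → X) → ℝ, Vis g' ∧ ∀ u ∈ CC n (fun w => π (oM hM w)),
      g u = g' fun i => π (oM hM (u i))

/-- [RTA] THE INTERFACE (TOP). `K'` is the law of `(z_1, …, z_(n+1))` given `z_0 = v`. Proof. Let `ηO` be
as in `S_RKM`, `R` closed and invariant, `RO` its preimage in `(SysM hM)^(n+1)`. `S_QT3` for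
`O = SysM hM` (minimal), `n + 1` points, the laws `P (n + 1)`, `K (n + 1)` (`XI.cube`) gives `g` in `ISO`
with `∫ (1_RO - g)² dkap 0 w ≤ ε` for all `w`; `S_RFG` gives `g' = ĝ`. Fix `w ∈ M`. The law of
`cns w u` for `u` with the law `lif η (K' (π w))` is the image under `oM` of
`kap (π ∘ oM) ηO (K (n + 1)) 0 w`: both are the image of the lift of
`K (n + 1) 0 (π w)` (`XI.kcs`: the first `n + 1` coordinates of `K (n + 2) 0 (π w)`; lifts are natural,
`S_QFN`; the coordinate `0` is replaced by `w` on both sides; the other coordinates are dominated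
(`CLaw.dom`), so `S_RKM` applies to them: restrict the lift to the coordinates `i ≠ 0`). Almost surely
the tuple is in `CC` (`S_QK1` (2)), so there `g = ĝ (positions)`, and the positions of `cns w u` are
`cns (π w) (π ∘ u)`. -/
def S_RTA : Prop := ∀ (k n : ℕ) (X : Type) [TopologicalSpace X] [MeasurableSpace X] [CS X]
  [Sys X] (M : Set (Om k)) (π : Om k → X) (lam : ProbabilityMeasure X) (μ : PM k)
  (η : Kernel X (Om k)) (P : ∀ n : ℕ, Measure (Fin n → X))
  (K : ∀ n : ℕ, Fin n → X → ProbabilityMeasure (Fin n → X))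
  (K' : X → ProbabilityMeasure (Fin (n + 1) → X)),
  Po M π → TopL M π lam μ η → W3D.XI (lam : Measure X) P K →
  (∀ v, (K' v : Measure (Fin (n + 1) → X)) =
    (K (n + 2) 0 v : Measure (Fin (n + 2) → X)).map fun z (i : Fin (n + 1)) => z i.succ) →
  TopF (n + 1) M π → TopA M π K' η

/-- [RCH] the laws of progressions satisfy `CH`. `K' v` is the image of `K (n + 2) 0 v` under
`z ↦ (z 1, …, z (n + 1))`. `kc`: continuity of the image of a law under a continuous map. `car`: almost
surely `z 0 = v` and `z ∈ PG`, so `Fin.cons v (z ∘ succ) = z` (`CLaw.car`). `ke`: `CLaw.equi`. `kt`: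
`XI.prg` for `j = 0`, `m = 1`. `dom`: `CLaw.dom`. `dia`: `XI.full` at `(v, …, v) ∈ PG (n + 2) X`. `sta`:
`lam.bind (K (n + 2) 0) = P (n + 2)` (`CLaw.dis`); the left side is the law of
`(z 0, …, z n)` under `P (n + 2)`, i.e. `P (n + 1)` (`XI.pcs`), the right side the law of
`(z 1, …, z (n + 1))`, i.e. `P (n + 1)` (`XI.psu`). `tmin`: `TP (n + 1) X` is distal (`S_GCF`, first part,
for `G = ℤ`, `L i m = (i + 1) m`), `S_GAP` (`orb` in `TP` is `orbA`). -/
def S_RCH : Prop := ∀ (n : ℕ) (X : Type) [TopologicalSpace X] [MeasurableSpace X] [CS X]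
  [Sys X] (lam : ProbabilityMeasure X) (P : ∀ n : ℕ, Measure (Fin n → X))
  (K : ∀ n : ℕ, Fin n → X → ProbabilityMeasure (Fin n → X)), MinSet (univ : Set X) →
  DistalOn (shA X) univ → W3D.XI (lam : Measure X) P K →
  ∃ K' : X → ProbabilityMeasure (Fin (n + 1) → X), CH lam K' ∧
    ∀ v, (K' v : Measure (Fin (n + 1) → X)) =
      (K (n + 2) 0 v : Measure (Fin (n + 2) → X)).map fun z (i : Fin (n + 1)) => z i.succ

end Pool.Agent.Work.MP_69fea5_lc.W3
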